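import Mathlib

/-! Merged copies (to shorten the build) of Lib.Sieve.Combi, Lib.Sieve.PrimeSum, Lib.Sieve.Fundamental, Lib.Sieve.Averages, Lib.GoldbachGraph.Codegree, Lib.GoldbachGraph.Moments, Lib.H18Q.S4, Lib.H44W.W0, Lib.H44W.E1, Lib.H44W.E2, Lib.H18Q.T1, Lib.H18Q.T2, Lib.H18Q.T3. -/

-- from Lib.Sieve.Combi
section

/-!
# Combinatorial part of the Brun-Hooley sieve

Weighted truncated inclusion-exclusion over finite sets of indices.
-/

set_option linter.unusedSectionVars false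

namespace Pool.Agent.Lib.Sieve

open Finset

section

variable {ι : Type*} [DecidableEq ι]




/-- Coefficients of the truncated sum of all products. -/
def cA (m : ℕ) (D : Finset ι) : ℝ := if D.card ≤ m then 1 else 0



















end

section

variable {κ : Type*} [DecidableEq κ]



end

end Pool.Agent.Lib.Sieve
end

-- from Lib.Sieve.PrimeSum
section

/-!
# Elementary bounds for sums over primes
-/

namespace Pool.Agent.Lib.Sieve

open Finset

/-- The primes `p ≤ n`. -/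
def primesUpTo (n : ℕ) : Finset ℕ := (Finset.range (n + 1)).filter Nat.Prime

theorem mem_primesUpTo {n p : ℕ} : p ∈ primesUpTo n ↔ p.Prime ∧ p ≤ n := by
  simp [primesUpTo, and_comm]

theorem prod_pow_dvd_factorial (n : ℕ) : ∏ p ∈ primesUpTo n, p ^ (n / p) ∣ n.factorial := by
  apply Finset.prod_dvd_of_isRelPrime
  · intro p hp q hq hpq
    have hp' := (mem_primesUpTo.mp hp).1
    have hq' := (mem_primesUpTo.mp hq).1
    exact Nat.coprime_iff_isRelPrime.mp (((Nat.coprime_primes hp' hq').mpr hpq).pow _ _)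
  · intro p hp
    have hp' := (mem_primesUpTo.mp hp)
    have h1 : p ^ (n / p) ∣ (p * (n / p)).factorial := by
      have : ∀ m : ℕ, p ^ m ∣ (p * m).factorial := by
        intro m
        induction m with
        | zero => simp
        | succ m ih =>
          rw [pow_succ, Nat.mul_succ]
          have h2 : (p * m + p).factorial = (p * m + p) * (p * m + p - 1).factorial := by
            rw [Nat.mul_factorial_pred]
            have := hp'.1.pos
            omega
          rw [h2, mul_comm (p ^ m) p]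
          apply Nat.mul_dvd_mul
          · exact Dvd.intro (m + 1) (by ring)
          · refine ih.trans (Nat.factorial_dvd_factorial ?_)
            have := hp'.1.pos
            omega
      exact this _
    exact h1.trans (Nat.factorial_dvd_factorial (Nat.mul_div_le n p))

/-- `∑_{p ≤ n} (log p) / p ≤ log n + log 4`. -/
theorem sum_log_div_le (n : ℕ) (hn : 1 ≤ n) :
    ∑ p ∈ primesUpTo n, Real.log p / p ≤ Real.log n + Real.log 4 := by
  have hn' : (0 : ℝ) < n := by exact_mod_cast hn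
  -- logarithm of the divisibility
  have h1 : ∏ p ∈ primesUpTo n, p ^ (n / p) ≤ n ^ n :=
    (Nat.le_of_dvd (Nat.factorial_pos n) (prod_pow_dvd_factorial n)).trans
      (Nat.factorial_le_pow n)
  have h2 : ∑ p ∈ primesUpTo n, ((n / p : ℕ) : ℝ) * Real.log p ≤ n * Real.log n := by
    have h3 : Real.log ((∏ p ∈ primesUpTo n, p ^ (n / p) : ℕ) : ℝ) ≤ Real.log ((n ^ n : ℕ) : ℝ) := by
      apply Real.log_le_log
      · have : 0 < ∏ p ∈ primesUpTo n, p ^ (n / p) := by
          apply Finset.prod_pos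
          intro p hp
          exact pow_pos (mem_primesUpTo.mp hp).1.pos _
        exact_mod_cast this
      · exact_mod_cast h1
    rw [Nat.cast_prod, Real.log_prod] at h3
    · push_cast at h3
      rw [Real.log_pow] at h3
      refine le_trans (le_of_eq ?_) h3
      refine Finset.sum_congr rfl fun p _ => ?_
      rw [Real.log_pow]
    · intro p hp
      have := (mem_primesUpTo.mp hp).1.pos
      positivity
  have h4 : ∑ p ∈ primesUpTo n, Real.log p ≤ n * Real.log 4 := by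
    have h5 : ∏ p ∈ primesUpTo n, p ≤ 4 ^ n := primorial_le_four_pow n
    have h6 : Real.log ((∏ p ∈ primesUpTo n, p : ℕ) : ℝ) ≤ Real.log ((4 ^ n : ℕ) : ℝ) := by
      apply Real.log_le_log
      · have : 0 < ∏ p ∈ primesUpTo n, p := by
          apply Finset.prod_pos
          intro p hp
          exact (mem_primesUpTo.mp hp).1.pos
        exact_mod_cast this
      · exact_mod_cast h5
    rw [Nat.cast_prod, Real.log_prod] at h6
    · push_cast at h6
      rwa [Real.log_pow] at h6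
    · intro p hp
      have := (mem_primesUpTo.mp hp).1.pos
      positivity
  have h7 : (n : ℝ) * ∑ p ∈ primesUpTo n, Real.log p / p
      ≤ ∑ p ∈ primesUpTo n, ((n / p : ℕ) : ℝ) * Real.log p + ∑ p ∈ primesUpTo n, Real.log p := by
    rw [Finset.mul_sum, ← Finset.sum_add_distrib]
    refine Finset.sum_le_sum fun p hp => ?_
    have hp0 : (0 : ℝ) < p := by exact_mod_cast (mem_primesUpTo.mp hp).1.pos
    have hp1 : (1 : ℝ) ≤ p := by exact_mod_cast (mem_primesUpTo.mp hp).1.one_le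
    have hlog : 0 ≤ Real.log p := Real.log_nonneg hp1
    have h8 : (n : ℝ) / p ≤ ((n / p : ℕ) : ℝ) + 1 := by
      rw [div_le_iff₀ hp0]
      have h9 : n < p * (n / p + 1) := Nat.lt_mul_div_succ n (mem_primesUpTo.mp hp).1.pos
      have h10 : (n : ℝ) < p * ((n / p : ℕ) + 1) := by exact_mod_cast h9
      linarith
    have h11 := mul_le_mul_of_nonneg_right h8 hlog
    calc (n : ℝ) * (Real.log p / p) = n / p * Real.log p := by ring
      _ ≤ (((n / p : ℕ) : ℝ) + 1) * Real.log p := h11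
      _ = ((n / p : ℕ) : ℝ) * Real.log p + Real.log p := by ring
  have h12 : (n : ℝ) * ∑ p ∈ primesUpTo n, Real.log p / p ≤ n * (Real.log n + Real.log 4) := by
    linarith
  exact le_of_mul_le_mul_left h12 hn'


end Pool.Agent.Lib.Sieve
end

-- from Lib.Sieve.Fundamental
section

/-!
# A fundamental lemma of sieve theory (Brun-Hooley)

For a fixed dimension `k`, the number of integers `u` in an interval of length `M ≥ z ^ K(k)`
avoiding at most `k` residue classes modulo each prime `2k + 2 < p ≤ z` lies between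
`M V / 4` and `3 M V`, where `V` is the expected density.
-/

namespace Pool.Agent.Lib.Sieve

open Finset



/-- The index of the block of the prime `p`. -/
def blk (z p : ℕ) : ℕ := Nat.log 2 (Nat.log p z)















section

variable (k z : ℕ) (Ω : (p : ℕ) → Finset (ZMod p))

/-- The density of removed classes. -/
noncomputable def dens (Ω : (p : ℕ) → Finset (ZMod p)) (p : ℕ) : ℝ := ((Ω p).card : ℝ) / p


variable {k z Ω}



/-- The exponents `b_j = 48 k + 2 + 2 j`. -/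
def bj (k j : ℕ) : ℕ := 48 * k + 2 + 2 * j











end

end Pool.Agent.Lib.Sieve
end

-- from Lib.Sieve.Averages
section

/-!
# Mertens type upper bound and averages of multiplicative functions
-/

namespace Pool.Agent.Lib.Sieve

open Finset

/-- The reciprocal map as a monoid homomorphism. -/
noncomputable def recHom : ℕ →* ℝ :=
  (invMonoidHom : ℝ →* ℝ).comp (Nat.castRingHom ℝ : ℕ →* ℝ)

theorem recHom_apply (m : ℕ) : recHom m = (m : ℝ)⁻¹ := rfl

/-- `∏_{p ≤ z} (1 - 1/p) ≤ 1 / log z`. -/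
theorem prod_one_sub_inv_le (z : ℕ) (hz : 2 ≤ z) :
    ∏ p ∈ primesUpTo z, (1 - 1 / (p : ℝ)) ≤ 1 / Real.log z := by
  have hz' : (2 : ℝ) ≤ z := by exact_mod_cast hz
  have hlog : 0 < Real.log z := Real.log_pos (by linarith)
  have hnorm : ∀ {p : ℕ}, p.Prime → ‖recHom p‖ < 1 := by
    intro p hp
    rw [recHom_apply, norm_inv, Real.norm_natCast]
    apply inv_lt_one_of_one_lt₀
    exact_mod_cast hp.one_lt
  have h1 := EulerProduct.summable_and_hasSum_smoothNumbers_prod_primesBelow_geometric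
    (f := recHom) hnorm (z + 1)
  obtain ⟨hsum, hhas⟩ := h1
  have h2 : ∏ p ∈ (z + 1).primesBelow, (1 - recHom p)⁻¹
      = (∏ p ∈ primesUpTo z, (1 - 1 / (p : ℝ)))⁻¹ := by
    rw [← Finset.prod_inv_distrib]
    refine Finset.prod_congr rfl fun p _ => ?_
    rw [recHom_apply, one_div]
  rw [h2] at hhas
  -- the sum over `1 ≤ m ≤ z`
  have h3 : ∑ m ∈ Finset.Icc 1 z, ((m : ℝ)⁻¹)
      ≤ (∏ p ∈ primesUpTo z, (1 - 1 / (p : ℝ)))⁻¹ := by
    let s : Finset (Nat.smoothNumbers (z + 1)) :=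
      (Finset.Icc 1 z).attach.map ⟨fun m => ⟨m.1, by
        have hm := Finset.mem_Icc.mp m.2
        exact Nat.mem_smoothNumbers_of_lt (by omega) (by omega)⟩, fun a b hab => by
        apply Subtype.ext
        exact congrArg (fun x => x.1) hab⟩
    have h4 := sum_le_hasSum s (fun i _ => by
      rw [recHom_apply]
      positivity) hhas
    refine le_trans (le_of_eq ?_) h4
    rw [Finset.sum_map]
    simp only [Function.Embedding.coeFn_mk, recHom_apply]
    exact (Finset.sum_attach (Finset.Icc 1 z) fun m => ((m : ℝ)⁻¹)).symm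
  have h5 : Real.log z ≤ ∑ m ∈ Finset.Icc 1 z, ((m : ℝ)⁻¹) := by
    have h6 := log_add_one_le_harmonic z
    rw [harmonic_eq_sum_Icc] at h6
    push_cast at h6
    refine le_trans ?_ h6
    apply Real.log_le_log (by linarith)
    linarith
  have hpos : 0 < ∏ p ∈ primesUpTo z, (1 - 1 / (p : ℝ)) := by
    apply Finset.prod_pos
    intro p hp
    have hp1 : (1 : ℝ) < p := by exact_mod_cast (mem_primesUpTo.mp hp).1.one_lt
    rw [sub_pos, div_lt_one (by linarith)]
    exact hp1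
  have h7 : Real.log z ≤ (∏ p ∈ primesUpTo z, (1 - 1 / (p : ℝ)))⁻¹ := h5.trans h3
  rw [le_div_iff₀ hlog]
  have h8 := mul_le_mul_of_nonneg_left h7 hpos.le
  rwa [mul_inv_cancel₀ hpos.ne'] at h8



end Pool.Agent.Lib.Sieve
end

-- from Lib.GoldbachGraph.Codegree
section

/-!
# Upper bound for codegrees in the Goldbach graph

Vertices are written `x` for the even number `2 x`; two distinct vertices `x, u` are adjacent
when `x + u` and `|x - u|` are odd primes.
-/

namespace Pool.Agent.Lib.GoldbachGraph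

open Finset Pool.Agent.Lib.Sieve

/-- Halved adjacency: `x + u` and `|x - u|` are odd primes. -/
def hadj (x u : ℕ) : Prop :=
  (x + u).Prime ∧ Odd (x + u) ∧ (Nat.dist x u).Prime ∧ Odd (Nat.dist x u)

instance (x u : ℕ) : Decidable (hadj x u) := by
  unfold hadj
  infer_instance

theorem hadj_comm (x u : ℕ) : hadj x u ↔ hadj u x := by
  unfold hadj
  rw [add_comm x u, Nat.dist_comm x u]


/-- The weight `(1 - 1/p)^{-4}` for `p > 10`, and `1` otherwise. -/
noncomputable def g4 (p : ℕ) : ℝ := if 10 < p then ((1 - 1 / (p : ℝ)) ^ 4)⁻¹ else 1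


/-- `G m = ∏_{p ∣ m, p > 10} (1 - 1/p)^{-4}`. -/
noncomputable def G (m : ℕ) : ℝ := ∏ p ∈ m.primeFactors, g4 p









end Pool.Agent.Lib.GoldbachGraph
end

-- from Lib.GoldbachGraph.Moments
section

/-!
# Moments of codegrees in the Goldbach graph
-/

namespace Pool.Agent.Lib.GoldbachGraph

open Finset Filter Pool.Agent.Lib.Sieve



/-- The constant bounding the average of `G ^ 8`. -/
noncomputable def CG : ℝ := Real.exp (64 * Real.exp 6 * ∑' n : ℕ, 1 / (n : ℝ) ^ 2)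




/-- `S N = ∑_{m ≤ N} G m ^ 8`. -/
noncomputable def SG (N : ℕ) : ℝ := ∑ m ∈ Finset.range (N + 1), G m ^ 8








/-- The constant of the second moment. -/
noncomputable def C2 : ℝ := 1 + (1875 * 1636 ^ 4 + 1) ^ 2 * (6 * (1 + CG))



end Pool.Agent.Lib.GoldbachGraph
end

-- from Lib.H18Q.S4
section

/-!
# Project H18Q, chunk S4: the Gaussian identity for Dirichlet polynomials
-/

open Finset

namespace Pool.Agent.Lib.H18Q

theorem S4_sq {ι : Type*} (s : Finset ι) (f : ι → ℂ) :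
    ((‖∑ i ∈ s, f i‖ ^ 2 : ℝ) : ℂ) = ∑ i ∈ s, ∑ j ∈ s, f i * (starRingEnd ℂ) (f j) := by
  rw [← Complex.normSq_eq_norm_sq, ← Complex.mul_conj, map_sum, sum_mul_sum]

/-- The terms of the left side. -/
theorem S4_left {ι : Type*} (s : Finset ι) (a : ι → ℝ) (b : ι → ℂ) (T : ℝ) (v : ℝ) :
    ((Real.exp (-(v ^ 2 / T ^ 2)) * ‖∑ i ∈ s, b i * Complex.exp (-(v * a i * Complex.I))‖ ^ 2 : ℝ) : ℂ) =
      ∑ i ∈ s, ∑ j ∈ s, b i * (starRingEnd ℂ) (b j) *
        Complex.exp (-(1 / (T : ℂ) ^ 2) * (v : ℂ) ^ 2 + (-(((a i - a j : ℝ)) : ℂ) * Complex.I) * v + 0) := by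
  rw [Complex.ofReal_mul, S4_sq, mul_sum]
  refine sum_congr rfl fun i _ => ?_
  rw [mul_sum]
  refine sum_congr rfl fun j _ => ?_
  have h1 : (starRingEnd ℂ) (b j * Complex.exp (-(v * a j * Complex.I))) =
      (starRingEnd ℂ) (b j) * Complex.exp (v * a j * Complex.I) := by
    rw [map_mul, ← Complex.exp_conj]
    congr 2
    simp
  rw [h1, Complex.ofReal_exp]
  have h2 : Complex.exp (-(1 / (T : ℂ) ^ 2) * (v : ℂ) ^ 2 + (-(((a i - a j : ℝ)) : ℂ) * Complex.I) * v + 0) =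
      Complex.exp (((-(v ^ 2 / T ^ 2) : ℝ)) : ℂ) * Complex.exp (-(v * a i * Complex.I)) * Complex.exp (v * a j * Complex.I) := by
    rw [← Complex.exp_add, ← Complex.exp_add]
    congr 1
    push_cast
    ring
  rw [h2]
  ring

/-- The terms of the right side. -/
theorem S4_right {ι : Type*} (s : Finset ι) (a : ι → ℝ) (b : ι → ℂ) (T : ℝ) (y : ℝ) :
    ((‖∑ i ∈ s, b i * Real.exp (-(T ^ 2 * (y - a i) ^ 2 / 2))‖ ^ 2 : ℝ) : ℂ) =
      ∑ i ∈ s, ∑ j ∈ s, b i * (starRingEnd ℂ) (b j) *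
        Complex.exp (-(T : ℂ) ^ 2 * (y : ℂ) ^ 2 + ((T : ℂ) ^ 2 * (a i + a j)) * y +
          -((T : ℂ) ^ 2 * ((a i : ℂ) ^ 2 + (a j : ℂ) ^ 2) / 2)) := by
  rw [S4_sq]
  refine sum_congr rfl fun i _ => sum_congr rfl fun j _ => ?_
  have h1 : (starRingEnd ℂ) (b j * Real.exp (-(T ^ 2 * (y - a j) ^ 2 / 2))) =
      (starRingEnd ℂ) (b j) * Real.exp (-(T ^ 2 * (y - a j) ^ 2 / 2)) := by
    rw [map_mul, Complex.conj_ofReal]
  rw [h1, Complex.ofReal_exp, Complex.ofReal_exp]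
  have h2 : Complex.exp (-(T : ℂ) ^ 2 * (y : ℂ) ^ 2 + ((T : ℂ) ^ 2 * (a i + a j)) * y +
          -((T : ℂ) ^ 2 * ((a i : ℂ) ^ 2 + (a j : ℂ) ^ 2) / 2)) =
      Complex.exp (((-(T ^ 2 * (y - a i) ^ 2 / 2) : ℝ)) : ℂ) * Complex.exp (((-(T ^ 2 * (y - a j) ^ 2 / 2) : ℝ)) : ℂ) := by
    rw [← Complex.exp_add]
    congr 1
    push_cast
    ring
  rw [h2]
  ring

theorem S4_b1 {T : ℝ} (hT : 0 < T) : (-(1 / (T : ℂ) ^ 2)).re < 0 := by
  have h : -(1 / (T : ℂ) ^ 2) = ((-(1 / T ^ 2) : ℝ) : ℂ) := by push_cast; rfl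
  rw [h, Complex.ofReal_re, neg_lt_zero]
  positivity

theorem S4_b2 {T : ℝ} (hT : 0 < T) : (-(T : ℂ) ^ 2).re < 0 := by
  have h : -(T : ℂ) ^ 2 = ((-(T ^ 2) : ℝ) : ℂ) := by push_cast; rfl
  rw [h, Complex.ofReal_re, neg_lt_zero]
  positivity

/-- The constants. -/
theorem S4_const {T : ℝ} (hT : 0 < T) :
    ((Real.pi : ℂ) / -(-(1 / (T : ℂ) ^ 2))) ^ (1 / 2 : ℂ) = (T : ℂ) ^ 2 * ((Real.pi : ℂ) / -(-(T : ℂ) ^ 2)) ^ (1 / 2 : ℂ) := by
  have hT' : (T : ℂ) ≠ 0 := Complex.ofReal_ne_zero.2 hT.ne'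
  have e1 : ((Real.pi : ℂ) / -(-(1 / (T : ℂ) ^ 2))) = ((Real.pi * T ^ 2 : ℝ) : ℂ) := by
    push_cast
    field_simp
  have e2 : ((Real.pi : ℂ) / -(-(T : ℂ) ^ 2)) = ((Real.pi / T ^ 2 : ℝ) : ℂ) := by
    push_cast
    rw [neg_neg]
  have e3 : (1 / 2 : ℂ) = ((1 / 2 : ℝ) : ℂ) := by push_cast; rfl
  rw [e1, e2, e3, ← Complex.ofReal_cpow (by positivity), ← Complex.ofReal_cpow (by positivity), ← Complex.ofReal_pow,
    ← Complex.ofReal_mul]
  congr 1
  rw [← Real.sqrt_eq_rpow, ← Real.sqrt_eq_rpow, Real.sqrt_mul Real.pi_pos.le, Real.sqrt_div Real.pi_pos.le,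
    Real.sqrt_sq hT.le]
  field_simp

/-- `∫ e^(-v²/T²) |∑ b_i e^(-i v a_i)|² dv = T² ∫ |∑ b_i e^(-T² (y - a_i)²/2)|² dy`.

Proof. Expand both sides as double sums over `i, j`. Left: `b_i conj b_j ∫ e^(-v²/T²)
e^(-i v (a_i - a_j)) dv = b_i conj b_j √π T e^(-T² (a_i - a_j)²/4)` (Gaussian integral
`integral_cexp_quadratic` or `fourierIntegral_gaussian`). Right: `T² b_i conj b_j
∫ e^(-T² (y-a_i)²/2 - T² (y-a_j)²/2) dy`, and `(y-a)²/2 + (y-b)²/2 = (y - (a+b)/2)² + (a-b)²/4`, so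
it is `T² b_i conj b_j e^(-T² (a_i-a_j)²/4) √π/T`. -/
theorem gauss_identity {ι : Type*} (s : Finset ι) (a : ι → ℝ) (b : ι → ℂ) (T : ℝ) (hT : 0 < T) :
    ∫ v : ℝ, Real.exp (-(v ^ 2 / T ^ 2)) * ‖∑ i ∈ s, b i * Complex.exp (-(v * a i * Complex.I))‖ ^ 2
      = T ^ 2 * ∫ y : ℝ, ‖∑ i ∈ s, b i * Real.exp (-(T ^ 2 * (y - a i) ^ 2 / 2))‖ ^ 2 := by
  have hT' : (T : ℂ) ≠ 0 := Complex.ofReal_ne_zero.2 hT.ne'
  apply Complex.ofReal_injective
  rw [Complex.ofReal_mul, ← integral_complex_ofReal, ← integral_complex_ofReal]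
  simp only [S4_left s a b T, S4_right s a b T]
  have i1 : ∀ i j, MeasureTheory.Integrable (fun v : ℝ => b i * (starRingEnd ℂ) (b j) *
        Complex.exp (-(1 / (T : ℂ) ^ 2) * (v : ℂ) ^ 2 + (-(((a i - a j : ℝ)) : ℂ) * Complex.I) * v + 0)) :=
    fun i j => (integrable_cexp_quadratic' (S4_b1 hT) _ _).const_mul _
  have i2 : ∀ i j, MeasureTheory.Integrable (fun y : ℝ => b i * (starRingEnd ℂ) (b j) *
        Complex.exp (-(T : ℂ) ^ 2 * (y : ℂ) ^ 2 + ((T : ℂ) ^ 2 * (a i + a j)) * y +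
          -((T : ℂ) ^ 2 * ((a i : ℂ) ^ 2 + (a j : ℂ) ^ 2) / 2))) :=
    fun i j => (integrable_cexp_quadratic' (S4_b2 hT) _ _).const_mul _
  rw [MeasureTheory.integral_finsetSum _ fun i _ => MeasureTheory.integrable_finsetSum _ fun j _ => i1 i j,
    MeasureTheory.integral_finsetSum _ fun i _ => MeasureTheory.integrable_finsetSum _ fun j _ => i2 i j, mul_sum]
  refine sum_congr rfl fun i _ => ?_
  rw [MeasureTheory.integral_finsetSum _ fun j _ => i1 i j, MeasureTheory.integral_finsetSum _ fun j _ => i2 i j, mul_sum]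
  refine sum_congr rfl fun j _ => ?_
  rw [MeasureTheory.integral_const_mul, MeasureTheory.integral_const_mul, integral_cexp_quadratic (S4_b1 hT),
    integral_cexp_quadratic (S4_b2 hT), S4_const hT]
  have e : (0 : ℂ) - (-(((a i - a j : ℝ)) : ℂ) * Complex.I) ^ 2 / (4 * -(1 / (T : ℂ) ^ 2)) =
      -((T : ℂ) ^ 2 * ((a i : ℂ) ^ 2 + (a j : ℂ) ^ 2) / 2) - ((T : ℂ) ^ 2 * (a i + a j)) ^ 2 / (4 * -(T : ℂ) ^ 2) := by
    push_cast
    rw [neg_mul, neg_sq, mul_pow, Complex.I_sq]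
    field_simp
    ring
  rw [e, Complex.ofReal_pow]
  ring

/-- Both integrands are integrable (continuous, dominated by Gaussians; the sum in the second
integrand is bounded and each term is a Gaussian). -/
theorem gauss_integrable {ι : Type*} (s : Finset ι) (a : ι → ℝ) (b : ι → ℂ) (T : ℝ)
    (hT : 0 < T) :
    MeasureTheory.Integrable (fun v : ℝ => Real.exp (-(v ^ 2 / T ^ 2)) *
      ‖∑ i ∈ s, b i * Complex.exp (-(v * a i * Complex.I))‖ ^ 2) ∧
    MeasureTheory.Integrable (fun y : ℝ =>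
      ‖∑ i ∈ s, b i * Real.exp (-(T ^ 2 * (y - a i) ^ 2 / 2))‖ ^ 2) := by
  have i1 : ∀ i j, MeasureTheory.Integrable (fun v : ℝ => b i * (starRingEnd ℂ) (b j) *
        Complex.exp (-(1 / (T : ℂ) ^ 2) * (v : ℂ) ^ 2 + (-(((a i - a j : ℝ)) : ℂ) * Complex.I) * v + 0)) :=
    fun i j => (integrable_cexp_quadratic' (S4_b1 hT) _ _).const_mul _
  have i2 : ∀ i j, MeasureTheory.Integrable (fun y : ℝ => b i * (starRingEnd ℂ) (b j) *
        Complex.exp (-(T : ℂ) ^ 2 * (y : ℂ) ^ 2 + ((T : ℂ) ^ 2 * (a i + a j)) * y +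
          -((T : ℂ) ^ 2 * ((a i : ℂ) ^ 2 + (a j : ℂ) ^ 2) / 2))) :=
    fun i j => (integrable_cexp_quadratic' (S4_b2 hT) _ _).const_mul _
  constructor
  · have h : MeasureTheory.Integrable (fun v : ℝ => (((Real.exp (-(v ^ 2 / T ^ 2)) *
        ‖∑ i ∈ s, b i * Complex.exp (-(v * a i * Complex.I))‖ ^ 2 : ℝ)) : ℂ)) := by
      simp only [S4_left s a b T]
      exact MeasureTheory.integrable_finsetSum _ fun i _ => MeasureTheory.integrable_finsetSum _ fun j _ => i1 i j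
    exact h.re
  · have h : MeasureTheory.Integrable (fun y : ℝ => (((‖∑ i ∈ s, b i * Real.exp (-(T ^ 2 * (y - a i) ^ 2 / 2))‖ ^ 2 : ℝ)) : ℂ)) := by
      simp only [S4_right s a b T]
      exact MeasureTheory.integrable_finsetSum _ fun i _ => MeasureTheory.integrable_finsetSum _ fun j _ => i2 i j
    exact h.re

/-- Hence the integral over `[-T, T]`, where `e^(-v²/T²) ≥ e^(-1) ≥ 1/3`. -/
theorem gauss_interval {ι : Type*} (s : Finset ι) (a : ι → ℝ) (b : ι → ℂ) (T : ℝ) (hT : 0 < T) :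
    ∫ v in (-T)..T, ‖∑ i ∈ s, b i * Complex.exp (-(v * a i * Complex.I))‖ ^ 2 ≤
      3 * T ^ 2 * ∫ y : ℝ, ‖∑ i ∈ s, b i * Real.exp (-(T ^ 2 * (y - a i) ^ 2 / 2))‖ ^ 2 := by
  have hint := (gauss_integrable s a b T hT).1
  have hab : -T ≤ T := by linarith
  rw [mul_assoc, ← gauss_identity s a b T hT]
  have hcont : Continuous fun v : ℝ => ‖∑ i ∈ s, b i * Complex.exp (-(v * a i * Complex.I))‖ ^ 2 := by fun_prop
  calc ∫ v in (-T)..T, ‖∑ i ∈ s, b i * Complex.exp (-(v * a i * Complex.I))‖ ^ 2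
      ≤ ∫ v in (-T)..T, 3 * (Real.exp (-(v ^ 2 / T ^ 2)) * ‖∑ i ∈ s, b i * Complex.exp (-(v * a i * Complex.I))‖ ^ 2) := by
        refine intervalIntegral.integral_mono_on hab (hcont.intervalIntegrable _ _)
          (hint.const_mul 3).intervalIntegrable fun v hv => ?_
        have h1 : v ^ 2 / T ^ 2 ≤ 1 := by
          rw [div_le_one (by positivity)]
          exact sq_le_sq' hv.1 hv.2
        have h2 : (1 : ℝ) ≤ 3 * Real.exp (-(v ^ 2 / T ^ 2)) := by
          have h3 : Real.exp (-1) ≤ Real.exp (-(v ^ 2 / T ^ 2)) := Real.exp_le_exp.2 (by linarith)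
          have h4 : Real.exp 1 < 3 := Real.exp_one_lt_three
          have h5 : 1 / 3 < Real.exp (-1) := by
            rw [Real.exp_neg, ← one_div]
            exact one_div_lt_one_div_of_lt (Real.exp_pos 1) h4
          linarith
        rw [← mul_assoc]
        exact le_mul_of_one_le_left (by positivity) h2
    _ = ∫ v in Set.Ioc (-T) T, 3 * (Real.exp (-(v ^ 2 / T ^ 2)) * ‖∑ i ∈ s, b i * Complex.exp (-(v * a i * Complex.I))‖ ^ 2) :=
        intervalIntegral.integral_of_le hab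
    _ ≤ ∫ v : ℝ, 3 * (Real.exp (-(v ^ 2 / T ^ 2)) * ‖∑ i ∈ s, b i * Complex.exp (-(v * a i * Complex.I))‖ ^ 2) :=
        MeasureTheory.setIntegral_le_integral (hint.const_mul 3) (Filter.Eventually.of_forall fun v => by positivity)
    _ = _ := MeasureTheory.integral_const_mul _ _

end Pool.Agent.Lib.H18Q
end

-- from Lib.H44W.W0
section
/-!
H44W: near-diagonal pieces, part D1 + D2 (MP_443e5f, candidate T). Definitions.

TF n F W f g is the bilinear form sum over x, y in [1,n] of f x * g y * F (x+y) * W (x-y).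
pd q I1 I2 is the near-diagonal piece: m is sent to the number of (a,b) in I1 x I2 with q*a*b = m.
WL l w: w is locally linear on the windows of length l of a partition of the integers.
-/
namespace Pool.Agent.H44W
open Finset

/-- e(x) = exp(2 pi i x). -/
noncomputable def ee (x : ℝ) : ℂ := Complex.exp (2 * Real.pi * x * Complex.I)

/-- The bilinear form. -/
noncomputable def TF (n : ℕ) (F W f g : ℤ → ℂ) : ℂ :=
  ∑ x ∈ Icc (1:ℤ) n, ∑ y ∈ Icc (1:ℤ) n, f x * g y * F (x + y) * W (x - y)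

/-- The near-diagonal piece. -/
noncomputable def pd (q : ℕ) (I1 I2 : Finset ℤ) (m : ℤ) : ℂ :=
  (((I1 ×ˢ I2).filter (fun p => (q:ℤ) * p.1 * p.2 = m)).card : ℂ)

/-- Window-linear functions: windows of length l, one linear phase on each window. -/
def WL (l : ℕ) (w : ℤ → ℂ) : Prop :=
  ∃ (r : ℤ) (ep : ℤ → ℂ) (th : ℤ → ℝ), (∀ k, ‖ep k‖ ≤ 1) ∧
    ∀ y, w y = ep ((y - r) / l) * ee (th ((y - r) / l) * y)

/-- Truncation to [1,n]. -/
noncomputable def cut (n : ℕ) (f : ℤ → ℂ) (x : ℤ) : ℂ := if x ∈ Icc (1:ℤ) n then f x else 0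

/-- Correlation of Th with its translate by t. -/
noncomputable def Cor (S : Finset (ℤ × ℤ)) (V : Finset ℤ) (Th : ℤ × ℤ → ℤ → ℂ) (t : ℤ × ℤ) : ℂ :=
  ∑ p ∈ S, ∑ v ∈ V, Th (p + t) v * (starRingEnd ℂ) (Th p v)

/-- Largest Fourier coefficient (frequencies k/l) of G on the window [z, z+l). -/
noncomputable def amp (l : ℕ) (G : ℤ → ℂ) (z : ℤ) : ℝ :=
  ⨆ k : Fin l, ‖∑ w ∈ range l, G (z + w) * ee ((k:ℝ) * w / l)‖

/-- C_G(D, D'), the fourfold correlation. -/
noncomputable def CG (n : ℕ) (G : ℤ → ℂ) (D E : ℤ) : ℂ :=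
  ∑ y ∈ Icc (1:ℤ) n, G y * (starRingEnd ℂ) (G (y + D)) * (starRingEnd ℂ) (G (y + E)) * G (y + D + E)

/-- The shift D of the first van der Corput step. -/
def sD (q : ℕ) (s t : ℤ) (p : ℤ × ℤ) : ℤ := (q:ℤ) * (p.1 * t + p.2 * s + 2 * s * t)

/-- The shift D' of the second van der Corput step. -/
def sE (q : ℕ) (s t h : ℤ) (p : ℤ × ℤ) : ℤ := (q:ℤ) * (h * (s * p.2 - t * p.1) - h ^ 2 * s * t)

/-- The function of the first step (v = x - y; the parity condition makes x, y integers). -/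
noncomputable def Th1 (n q : ℕ) (S : Finset (ℤ × ℤ)) (f g : ℤ → ℂ) (p : ℤ × ℤ) (v : ℤ) : ℂ :=
  if p ∈ S ∧ Even ((q:ℤ) * p.1 * p.2 + v) then
    cut n f (((q:ℤ) * p.1 * p.2 + v) / 2) * cut n g (((q:ℤ) * p.1 * p.2 - v) / 2) else 0

/-- The weight of the second step. -/
noncomputable def w2 (n q : ℕ) (s t : ℤ) (f : ℤ → ℂ) (p : ℤ × ℤ) (x : ℤ) : ℂ :=
  cut n f (x + sD q s t p) * (starRingEnd ℂ) (cut n f x)

/-- The function of the second step. -/
noncomputable def Th2 (n q : ℕ) (S : Finset (ℤ × ℤ)) (s t : ℤ) (g : ℤ → ℂ) (p : ℤ × ℤ) (x : ℤ) : ℂ :=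
  if p ∈ S then
    cut n g ((q:ℤ) * p.1 * p.2 - x + sD q s t p) *
      (starRingEnd ℂ) (cut n g ((q:ℤ) * p.1 * p.2 - x)) else 0

/-- A box. -/
noncomputable def bx (a1 b1 a2 b2 : ℤ) : Finset (ℤ × ℤ) := Ico a1 b1 ×ˢ Ico a2 b2

end Pool.Agent.H44W
end

-- from Lib.H44W.E1
section
/-!
CHUNK E1 (S). Rules for ee.
Proof: all by unfolding ee, Complex.exp_add, Complex.norm_exp (real part of 2 pi x I is 0), Complex.exp_int_mul_two_pi_mul_I,
Complex.exp_conj. ee_orth: if l does not divide m the sum is geometric with ratio ee(m/l), which is not 1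
(Complex.exp_eq_one_iff) and ratio^l = ee(m) = 1 (geom_sum / mul_neg_geom_sum); if l divides m every term is 1.
-/
namespace Pool.Agent.H44W
open Finset

theorem norm_ee (x : ℝ) : ‖ee x‖ = 1 := by
  have h : (2 * Real.pi * x * Complex.I : ℂ) = ((2 * Real.pi * x : ℝ) : ℂ) * Complex.I := by
    push_cast; ring
  rw [ee, h, Complex.norm_exp_ofReal_mul_I]

theorem ee_add (x y : ℝ) : ee (x + y) = ee x * ee y := by
  rw [ee, ee, ee, ← Complex.exp_add]
  congr 1
  push_cast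
  ring

theorem ee_neg (x : ℝ) : ee (-x) = (starRingEnd ℂ) (ee x) := by
  rw [ee, ee, ← Complex.exp_conj]
  congr 1
  simp only [map_mul, Complex.conj_ofReal, Complex.conj_I, map_ofNat]
  push_cast
  ring

theorem ee_zero : ee 0 = 1 := by
  simp [ee]

theorem ee_int (m : ℤ) : ee m = 1 := by
  rw [ee, Complex.exp_eq_one_iff]
  exact ⟨m, by push_cast; ring⟩

theorem ee_half (m : ℤ) : ee ((m:ℝ) / 2) = if Even m then 1 else -1 := by
  by_cases h : Even m
  · rw [if_pos h]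
    obtain ⟨k, rfl⟩ := h
    have : (((k + k : ℤ):ℝ) / 2) = ((k:ℤ):ℝ) := by push_cast; ring
    rw [this, ee_int]
  · rw [if_neg h]
    obtain ⟨k, rfl⟩ := Int.not_even_iff_odd.1 h
    have : (((2 * k + 1 : ℤ):ℝ) / 2) = ((k:ℤ):ℝ) + 1 / 2 := by push_cast; ring
    rw [this, ee_add, ee_int, one_mul, ee]
    have h2 : (2 * Real.pi * ((1 / 2 : ℝ) : ℂ) * Complex.I : ℂ) = Real.pi * Complex.I := by
      push_cast; ring
    rw [h2, Complex.exp_pi_mul_I]

theorem ee_orth (l : ℕ) (hl : 0 < l) (m : ℤ) :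
    ∑ k ∈ range l, ee ((k:ℝ) * m / l) = if (l:ℤ) ∣ m then (l:ℂ) else 0 := by
  have hl' : (l:ℝ) ≠ 0 := by positivity
  have hpow : ∀ k : ℕ, ee ((k:ℝ) * m / l) = (ee ((m:ℝ) / l)) ^ k := by
    intro k
    induction k with
    | zero => simp [ee_zero]
    | succ k ih =>
      have : (((k + 1 : ℕ):ℝ) * m / l) = (k:ℝ) * m / l + (m:ℝ) / l := by push_cast; ring
      rw [this, ee_add, ih, pow_succ]
  rw [Finset.sum_congr rfl fun k _ => hpow k]
  by_cases h : (l:ℤ) ∣ m
  · rw [if_pos h]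
    obtain ⟨t, rfl⟩ := h
    have h1 : (((l:ℤ) * t : ℤ):ℝ) / l = ((t:ℤ):ℝ) := by push_cast; field_simp
    rw [h1, ee_int]
    simp
  · rw [if_neg h]
    have hne : ee ((m:ℝ) / l) ≠ 1 := by
      intro h1
      apply h
      rw [ee, Complex.exp_eq_one_iff] at h1
      obtain ⟨t, ht⟩ := h1
      refine ⟨t, ?_⟩
      have hpi : (2 * Real.pi * Complex.I : ℂ) ≠ 0 := Complex.two_pi_I_ne_zero
      have h2 : (((m:ℝ) / l : ℝ) : ℂ) = (t : ℂ) := by
        have h3 : (2 * Real.pi * Complex.I : ℂ) * (((m:ℝ) / l : ℝ) : ℂ) = (2 * Real.pi * Complex.I) * t := by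
          rw [mul_comm _ (t:ℂ), ← ht]; ring
        exact mul_left_cancel₀ hpi h3
      have h4 : ((m:ℝ) / l) = (t:ℝ) := by exact_mod_cast h2
      rw [div_eq_iff hl'] at h4
      have h5 : (m:ℝ) = ((l * t : ℤ):ℝ) := by rw [h4]; push_cast; ring
      exact_mod_cast h5
    have hp : (ee ((m:ℝ) / l)) ^ l = 1 := by
      rw [← hpow l]
      have : ((l:ℝ) * m / l) = ((m:ℤ):ℝ) := by field_simp
      rw [this, ee_int]
    have := mul_neg_geom_sum (ee ((m:ℝ) / l)) l
    rw [hp, sub_self] at this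
    rcases mul_eq_zero.1 this with h1 | h1
    · exact absurd (sub_eq_zero.1 h1).symm hne
    · exact h1

end Pool.Agent.H44W
end

-- from Lib.H44W.E2
section
/-!
CHUNK E2 (S/M). Discrete Parseval for a sparse progression and Fourier inversion on a window.
(a) parseval_prog: expand the square: the sum over k of |sum_j A j * ee(k P j / l)|^2 is the sum over j, j' of A j * conj (A j')
times sum_k ee(k P (j - j') / l) = l if l divides P (j - j'), else 0 (ee_orth). Since |P (j-j')| < l and P is not 0, only j = j'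
contributes: the total is l * sum |A j|^2 <= l * N. (use Complex.mul_conj / Complex.normSq_eq_norm_sq, finite sums commute.)
(b) inversion: G (z+w) = (1/l) sum_k (sum_w' G (z+w') ee(k w'/l)) * ee(-(k w/l)) for w < l: exchange the sums, ee_orth with
m = w' - w, and |w' - w| < l, so only w' = w contributes.
-/
namespace Pool.Agent.H44W
open Finset

theorem parseval_prog (l N : ℕ) (hl : 0 < l) (P : ℤ) (hP : P ≠ 0) (hPl : (N:ℤ) * |P| ≤ l)
    (A : ℕ → ℂ) (hA : ∀ j, ‖A j‖ ≤ 1) :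
    ∑ k ∈ range l, ‖∑ j ∈ range N, A j * ee (-((k:ℝ) * (P * j) / l))‖ ^ 2 ≤ (l:ℝ) * N := by
  have key : ∀ j j' : ℕ, ∑ k ∈ range l, ee (-((k:ℝ) * (P * j) / l)) * (starRingEnd ℂ) (ee (-((k:ℝ) * (P * j') / l))) =
      if (l:ℤ) ∣ P * ((j':ℤ) - j) then (l:ℂ) else 0 := by
    intro j j'
    rw [← ee_orth l hl]
    refine sum_congr rfl fun k _ => ?_
    rw [← ee_neg, ← ee_add]
    congr 1
    push_cast
    ring
  have hdiag : ∀ j ∈ range N, ∀ j' ∈ range N, (l:ℤ) ∣ P * ((j':ℤ) - j) → j' = j := by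
    intro j hj j' hj' hd
    rw [mem_range] at hj hj'
    by_contra hne
    have h1 : P * ((j':ℤ) - j) ≠ 0 := by
      refine mul_ne_zero hP ?_
      intro h0
      exact hne (by omega)
    have h2 := Int.le_of_dvd (abs_pos.2 h1) ((dvd_abs _ _).2 hd)
    rw [abs_mul] at h2
    have h3 : |((j':ℤ) - j)| < N := by
      rw [abs_lt]
      constructor <;> omega
    have h4 : 0 < |P| := abs_pos.2 hP
    nlinarith
  have h0 : ((∑ k ∈ range l, ‖∑ j ∈ range N, A j * ee (-((k:ℝ) * (P * j) / l))‖ ^ 2 : ℝ) : ℂ) =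
      ((∑ j ∈ range N, (l:ℝ) * ‖A j‖ ^ 2 : ℝ) : ℂ) := by
    push_cast
    have h1 : ∀ k ∈ range l, ((‖∑ j ∈ range N, A j * ee (-((k:ℝ) * (P * j) / l))‖ : ℂ)) ^ 2 =
        ∑ j ∈ range N, ∑ j' ∈ range N, A j * (starRingEnd ℂ) (A j') *
          (ee (-((k:ℝ) * (P * j) / l)) * (starRingEnd ℂ) (ee (-((k:ℝ) * (P * j') / l)))) := by
      intro k _
      rw [← Complex.mul_conj', map_sum, sum_mul_sum]
      refine sum_congr rfl fun j _ => sum_congr rfl fun j' _ => ?_
      rw [map_mul]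
      ring
    rw [sum_congr rfl h1, sum_comm]
    refine sum_congr rfl fun j hj => ?_
    rw [sum_comm]
    have h2 : ∀ j' ∈ range N, ∑ k ∈ range l, A j * (starRingEnd ℂ) (A j') *
          (ee (-((k:ℝ) * (P * j) / l)) * (starRingEnd ℂ) (ee (-((k:ℝ) * (P * j') / l)))) =
        if j' = j then (l:ℂ) * (‖A j‖ : ℂ) ^ 2 else 0 := by
      intro j' hj'
      rw [← mul_sum, key j j']
      by_cases h3 : j' = j
      · subst h3
        rw [if_pos rfl, sub_self, mul_zero, if_pos (dvd_zero _), Complex.mul_conj']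
        ring
      · rw [if_neg h3, if_neg (fun hd => h3 (hdiag j hj j' hj' hd)), mul_zero]
    rw [sum_congr rfl h2, sum_ite_eq' (range N) j, if_pos hj]
  have h1 : ∑ k ∈ range l, ‖∑ j ∈ range N, A j * ee (-((k:ℝ) * (P * j) / l))‖ ^ 2 = ∑ j ∈ range N, (l:ℝ) * ‖A j‖ ^ 2 := by
    exact_mod_cast h0
  rw [h1]
  have h2 : ∀ j ∈ range N, (l:ℝ) * ‖A j‖ ^ 2 ≤ (l:ℝ) := by
    intro j _
    have h3 : ‖A j‖ ^ 2 ≤ 1 := pow_le_one₀ (norm_nonneg _) (hA j)
    have h4 : (0:ℝ) ≤ l := Nat.cast_nonneg l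
    nlinarith
  refine (sum_le_sum h2).trans ?_
  rw [sum_const, card_range, nsmul_eq_mul, mul_comm]

theorem inversion (l : ℕ) (hl : 0 < l) (G : ℤ → ℂ) (z : ℤ) (w : ℤ) (h0 : 0 ≤ w) (hw : w < l) :
    G (z + w) = (1 / (l:ℂ)) * ∑ k ∈ range l,
      (∑ w' ∈ range l, G (z + w') * ee ((k:ℝ) * w' / l)) * ee (-((k:ℝ) * w / l)) := by
  have hl0 : (l:ℂ) ≠ 0 := Nat.cast_ne_zero.2 hl.ne'
  obtain ⟨w₀, rfl⟩ := Int.eq_ofNat_of_zero_le h0
  have hw₀ : w₀ < l := by exact_mod_cast hw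
  have h1 : ∑ k ∈ range l, (∑ w' ∈ range l, G (z + w') * ee ((k:ℝ) * w' / l)) * ee (-((k:ℝ) * ((w₀:ℤ):ℝ) / l)) =
      ∑ w' ∈ range l, G (z + w') * ∑ k ∈ range l, ee ((k:ℝ) * (((w':ℤ) - (w₀:ℤ) : ℤ) : ℝ) / l) := by
    have h2 : ∀ k ∈ range l, (∑ w' ∈ range l, G (z + w') * ee ((k:ℝ) * w' / l)) * ee (-((k:ℝ) * ((w₀:ℤ):ℝ) / l)) =
        ∑ w' ∈ range l, G (z + w') * ee ((k:ℝ) * (((w':ℤ) - (w₀:ℤ) : ℤ) : ℝ) / l) := by
      intro k _
      rw [sum_mul]
      refine sum_congr rfl fun w' _ => ?_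
      rw [mul_assoc, ← ee_add]
      congr 2
      push_cast
      ring
    rw [sum_congr rfl h2, sum_comm]
    exact sum_congr rfl fun w' _ => by rw [mul_sum]
  rw [h1]
  have h3 : ∀ w' ∈ range l, G (z + w') * ∑ k ∈ range l, ee ((k:ℝ) * (((w':ℤ) - (w₀:ℤ) : ℤ) : ℝ) / l) =
      if w' = w₀ then (l:ℂ) * G (z + w₀) else 0 := by
    intro w' hw'
    rw [mem_range] at hw'
    rw [ee_orth l hl]
    by_cases h4 : w' = w₀
    · subst h4
      rw [if_pos rfl, sub_self, if_pos (dvd_zero _), mul_comm]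
    · rw [if_neg h4, if_neg, mul_zero]
      intro hd
      have h5 : (w':ℤ) - w₀ ≠ 0 := by
        intro h6
        exact h4 (by omega)
      have h6 := Int.le_of_dvd (abs_pos.2 h5) ((dvd_abs _ _).2 hd)
      have h7 : |((w':ℤ) - w₀)| < l := by
        rw [abs_lt]
        constructor <;> omega
      omega
  rw [sum_congr rfl h3, sum_ite_eq' (range l) w₀, if_pos (mem_range.2 hw₀)]
  field_simp

end Pool.Agent.H44W
end

-- from Lib.H18Q.T1
section

/-!
# Project H18Q, chunk T1: a product of distances is not small everywhere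
-/

open Finset

namespace Pool.Agent.Lib.H18Q

/-- For real numbers `d i`, `i ∈ S`, some `t ∈ [1/2, 1]` has `∏ |t - d i| ≥ 16^(-#S)`.

Proof 1 (Lagrange). Let `n = #S ≥ 1` (`n = 0`: `t = 1`), `P = ∏ (X - C (d i))`, monic of degree
`n`, nodes `x_j = 1/2 + j/(2n)`, `j = 0, …, n`. Lagrange interpolation at the `n+1` nodes and the
coefficient of `X^n` (`Lagrange.sum_basis`, or Mathlib's statement that the leading coefficient is
the divided difference) give `1 = ∑_j P(x_j) / ∏_{i ≠ j} (x_j - x_i)`, and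
`∏_{i ≠ j} |x_j - x_i| = j! (n-j)! / (2n)^n`. If `|P(x_j)| < 16^(-n)` for all `j`, then
`1 < 16^(-n) (2n)^n ∑_j 1/(j! (n-j)!) = 16^(-n) (2n)^n 2^n / n! = (n^n / n!) 4^(-n) ≤ (e/4)^n < 1`
(`n^n ≤ e^n n!`, as `e^n = ∑ n^k/k!`), a contradiction.

Proof 2 (average of logarithms). `∫_{1/2}^{1} log |t - d| dt ≥ ∫_{-1/4}^{1/4} log |x| dx =
-(1 + log 4)/2` for every real `d` (rearrangement), so the average over `[1/2, 1]` of
`∑ log |t - d i|` is at least `-n (1 + log 4) ≥ -n log 16`. Any proof is welcome. -/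
theorem T1_far {ι : Type*} (S : Finset ι) (d : ι → ℝ) :
    ∃ t ∈ Set.Icc (1 / 2 : ℝ) 1, (1 / 16 : ℝ) ^ S.card ≤ ∏ i ∈ S, |t - d i| := by
  by_contra hcon
  push Not at hcon
  set n := S.card with hn
  have hq : ∀ u ∈ Set.Icc (-1 : ℝ) 1, |∏ i ∈ S, (4 * u + 12 - 16 * d i)| ≤ 1 := by
    intro u hu
    have h1 := hcon (3 / 4 + u / 4) ⟨by linarith [hu.1], by linarith [hu.2]⟩
    have h2 : ∏ i ∈ S, (4 * u + 12 - 16 * d i) = 16 ^ n * ∏ i ∈ S, (3 / 4 + u / 4 - d i) := by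
      rw [hn, ← Finset.prod_const, ← Finset.prod_mul_distrib]
      exact Finset.prod_congr rfl fun i _ => by ring
    rw [h2, abs_mul, Finset.abs_prod, abs_of_pos (by positivity : (0 : ℝ) < 16 ^ n)]
    have h3 : (16 : ℝ) ^ n * (1 / 16) ^ n = 1 := by
      rw [← mul_pow]
      norm_num
    nlinarith [mul_lt_mul_of_pos_left h1 (by positivity : (0 : ℝ) < 16 ^ n)]
  set P : Polynomial ℝ := ∏ i ∈ S, (Polynomial.C 4 * Polynomial.X + Polynomial.C (12 - 16 * d i)) with hP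
  have hdeg1 : ∀ i, (Polynomial.C (4 : ℝ) * Polynomial.X + Polynomial.C (12 - 16 * d i)).natDegree = 1 := by
    intro i
    exact Polynomial.natDegree_linear (by norm_num)
  have hlc1 : ∀ i, (Polynomial.C (4 : ℝ) * Polynomial.X + Polynomial.C (12 - 16 * d i)).leadingCoeff = 4 := by
    intro i
    exact Polynomial.leadingCoeff_linear (by norm_num)
  have hPlc : P.leadingCoeff = 4 ^ n := by
    rw [hP, Polynomial.leadingCoeff_prod, Finset.prod_congr rfl fun i _ => hlc1 i, Finset.prod_const]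
  have hPd : P.natDegree = n := by
    rw [hP, Polynomial.natDegree_prod _ _ fun i _ h0 => by
      have := hlc1 i
      rw [h0, Polynomial.leadingCoeff_zero] at this
      norm_num at this, Finset.sum_congr rfl fun i _ => hdeg1 i, Finset.sum_const]
    simp [hn]
  have hP0 : P ≠ 0 := by
    intro h0
    rw [h0, Polynomial.leadingCoeff_zero] at hPlc
    exact absurd hPlc.symm (by positivity)
  have heval : ∀ u, P.eval u = ∏ i ∈ S, (4 * u + 12 - 16 * d i) := by
    intro u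
    rw [hP, Polynomial.eval_prod]
    refine Finset.prod_congr rfl fun i _ => ?_
    simp
    ring
  have hdegree : P.degree = n := by
    rw [Polynomial.degree_eq_natDegree hP0, hPd]
  rcases Nat.eq_zero_or_pos n with h0 | h0
  · have h1 := hcon 1 ⟨by norm_num, le_refl _⟩
    rw [h0, pow_zero] at h1
    have h2 : S = ∅ := Finset.card_eq_zero.1 (hn.symm.trans h0)
    rw [h2, Finset.prod_empty] at h1
    exact lt_irrefl _ h1
  · have h1 := Polynomial.Chebyshev.leadingCoeff_le_of_forall_abs_le_one (P := P) (n := n) (by rw [hdegree])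
      (fun u hu => by rw [heval]; exact hq u hu)
    rw [hPlc] at h1
    have h2 : (2 : ℝ) ^ (n - 1) < 4 ^ n := by
      calc (2 : ℝ) ^ (n - 1) ≤ 2 ^ n := pow_le_pow_right₀ (by norm_num) (by omega)
        _ < 4 ^ n := pow_lt_pow_left₀ (by norm_num) (by norm_num) (by omega)
    linarith

end Pool.Agent.Lib.H18Q
end

-- from Lib.H18Q.T2
section

/-!
# Project H18Q, chunk T2: the polynomial of the power sum method
-/

open Finset

namespace Pool.Agent.Lib.H18Q

open Polynomial in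
theorem T2_D {ι : Type*} [DecidableEq ι] (z : ι → ℂ) (S : Finset ι) (hz : ∀ i ∈ S, ‖z i‖ ≤ 1) :
    ∀ a, ‖(∏ j ∈ S, (1 - C (z j) * X) : ℂ[X]).coeff a‖ ≤ (S.card.choose a : ℝ) := by
  induction S using Finset.induction_on with
  | empty =>
    intro a
    rw [prod_empty, card_empty, coeff_one]
    rcases Nat.eq_zero_or_pos a with rfl | ha
    · simp
    · rw [if_neg ha.ne', norm_zero]
      positivity
  | insert i S hi ih =>
    intro a
    have ih' := ih fun j hj => hz j (mem_insert_of_mem hj)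
    have e : (∏ j ∈ insert i S, (1 - C (z j) * X) : ℂ[X]) =
        (∏ j ∈ S, (1 - C (z j) * X)) - C (z i) * ((∏ j ∈ S, (1 - C (z j) * X)) * X) := by
      rw [prod_insert hi]
      ring
    rw [e, coeff_sub, coeff_C_mul, card_insert_of_notMem hi]
    rcases a with _ | a
    · rw [coeff_mul_X_zero, mul_zero, sub_zero]
      have := ih' 0
      simpa using this
    · rw [coeff_mul_X, Nat.choose_succ_succ]
      have h1 := ih' a
      have h2 := ih' (a + 1)
      have h3 : ‖z i * (∏ j ∈ S, (1 - C (z j) * X) : ℂ[X]).coeff a‖ ≤ (S.card.choose a : ℝ) := by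
        rw [norm_mul]
        calc ‖z i‖ * ‖(∏ j ∈ S, (1 - C (z j) * X) : ℂ[X]).coeff a‖
            ≤ 1 * ‖(∏ j ∈ S, (1 - C (z j) * X) : ℂ[X]).coeff a‖ :=
              mul_le_mul_of_nonneg_right (hz i (mem_insert_self _ _)) (norm_nonneg _)
          _ ≤ _ := by rw [one_mul]; exact h1
      push_cast
      calc _ ≤ ‖(∏ j ∈ S, (1 - C (z j) * X) : ℂ[X]).coeff (a + 1)‖ +
            ‖z i * (∏ j ∈ S, (1 - C (z j) * X) : ℂ[X]).coeff a‖ := norm_sub_le _ _
        _ ≤ _ := by linarith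

open Polynomial in
theorem T2_coeff {D P : ℂ[X]} {z : ℂ} (h : P * (1 - C z * X) = D) (l : ℕ) :
    P.coeff l = ∑ a ∈ range (l + 1), D.coeff a * z ^ (l - a) := by
  have e : D = P - C z * (P * X) := by
    rw [← h]
    ring
  induction l with
  | zero =>
    rw [sum_range_one, e, coeff_sub, coeff_C_mul, coeff_mul_X_zero]
    simp
  | succ l ih =>
    rw [sum_range_succ]
    have h1 : ∑ a ∈ range (l + 1), D.coeff a * z ^ (l + 1 - a) = z * P.coeff l := by
      rw [ih, mul_sum]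
      refine sum_congr rfl fun a ha => ?_
      have h2 : l + 1 - a = (l - a) + 1 := by
        have := mem_range.1 ha
        omega
      rw [h2, pow_succ]
      ring
    rw [h1, Nat.sub_self, pow_zero, mul_one]
    have h3 : D.coeff (l + 1) = P.coeff (l + 1) - z * P.coeff l := by
      conv_lhs => rw [e]
      rw [coeff_sub, coeff_C_mul, coeff_mul_X]
    rw [h3]
    ring

/-- Let `p_k = ∑_i m_i z_i^k`, `|z_i| ≤ 1`, `n = #S`, and `|p_k| ≤ M` for `K ≤ k < K + n`. Then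
`P(w) = ∑_i m_i z_i^K ∏_{j ≠ i} (1 - z_j w)` has `|P(w)| ≤ 8^n M` for `|w| ≤ 4`.

Proof. Put `D = ∏_{j ∈ S} (1 - C (z_j) X) = ∑_a D_a X^a` (polynomials); `|D_a| ≤ binom n a` by
induction on `S` (`D_a` of `S ∪ {j}` is `D_a - z_j D_{a-1}`). For `i ∈ S` put
`P_i = ∏_{j ∈ S.erase i} (1 - C (z_j) X)`, of degree `≤ n - 1`, `P_i (1 - C (z_i) X) = D`, so the
coefficients satisfy `(P_i)_l = D_l + z_i (P_i)_(l-1)`, by induction `(P_i)_l = ∑_{a ≤ l} D_a
z_i^(l-a)`. So the coefficient of `X^l` in `P = ∑_i m_i z_i^K P_i`, `l ≤ n - 1`, is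
`∑_{a ≤ l} D_a p_(K+l-a)`, of absolute value at most `2^n M` (`K ≤ K + l - a < K + n`,
`∑_a binom n a ≤ 2^n`), and `|P(w)| ≤ 2^n M ∑_{l < n} 4^l ≤ 2^n M 4^n`. (`M ≥ 0` follows from the
hypothesis if `n ≥ 1`; for `n = 0` the left side is `0` and `hM0` is used.) -/
theorem T2_poly {ι : Type*} [DecidableEq ι] (S : Finset ι) (m : ι → ℕ) (z : ι → ℂ)
    (hz : ∀ i ∈ S, ‖z i‖ ≤ 1) (K : ℕ) (M : ℝ) (hM0 : 0 ≤ M)
    (hM : ∀ k, K ≤ k → k < K + S.card → ‖∑ i ∈ S, (m i : ℂ) * z i ^ k‖ ≤ M) (w : ℂ)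
    (hw : ‖w‖ ≤ 4) :
    ‖∑ i ∈ S, (m i : ℂ) * z i ^ K * ∏ j ∈ S.erase i, (1 - z j * w)‖ ≤ 8 ^ S.card * M := by
  open Polynomial in
  rcases S.eq_empty_or_nonempty with rfl | hne
  · simp [hM0]
  have hn : 1 ≤ S.card := hne.card_pos
  let Pi : ι → Polynomial ℂ := fun i => ∏ j ∈ S.erase i, (1 - Polynomial.C (z j) * Polynomial.X)
  obtain ⟨P, hP⟩ : ∃ P : Polynomial ℂ, P = ∑ i ∈ S, Polynomial.C ((m i : ℂ) * z i ^ K) * Pi i := ⟨_, rfl⟩
  obtain ⟨D, hD⟩ : ∃ D : Polynomial ℂ, D = ∏ j ∈ S, (1 - Polynomial.C (z j) * Polynomial.X) := ⟨_, rfl⟩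
  have hPD : ∀ i ∈ S, Pi i * (1 - Polynomial.C (z i) * Polynomial.X) = D := by
    intro i hi
    rw [hD, ← mul_prod_erase S _ hi, mul_comm]
  have hev : P.eval w = ∑ i ∈ S, (m i : ℂ) * z i ^ K * ∏ j ∈ S.erase i, (1 - z j * w) := by
    rw [hP, Polynomial.eval_finsetSum]
    refine sum_congr rfl fun i _ => ?_
    rw [Polynomial.eval_mul, Polynomial.eval_C, Polynomial.eval_prod]
    congr 1
    refine prod_congr rfl fun j _ => ?_
    simp
  have hdeg : P.natDegree < S.card := by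
    have h1 : P.natDegree ≤ S.card - 1 := by
      rw [hP]
      refine Polynomial.natDegree_sum_le_of_forall_le _ _ fun i hi => ?_
      refine (Polynomial.natDegree_C_mul_le _ _).trans ?_
      refine (Polynomial.natDegree_prod_le _ _).trans ?_
      refine (sum_le_card_nsmul _ _ 1 fun j _ => ?_).trans ?_
      · compute_degree
      · rw [card_erase_of_mem hi, smul_eq_mul, mul_one]
    omega
  have hco : ∀ l, P.coeff l = ∑ a ∈ range (l + 1), D.coeff a * ∑ i ∈ S, (m i : ℂ) * z i ^ (K + l - a) := by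
    intro l
    rw [hP, Polynomial.finsetSum_coeff]
    have h1 : ∀ i ∈ S, (Polynomial.C ((m i : ℂ) * z i ^ K) * Pi i).coeff l =
        ∑ a ∈ range (l + 1), D.coeff a * ((m i : ℂ) * z i ^ (K + l - a)) := by
      intro i hi
      rw [Polynomial.coeff_C_mul, T2_coeff (hPD i hi) l, mul_sum]
      refine sum_congr rfl fun a ha => ?_
      have h2 : K + l - a = K + (l - a) := by
        have := mem_range.1 ha
        omega
      rw [h2, pow_add]
      ring
    rw [sum_congr rfl h1, sum_comm]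
    refine sum_congr rfl fun a _ => ?_
    rw [mul_sum]
  have hbd : ∀ l, l < S.card → ‖P.coeff l‖ ≤ 2 ^ S.card * M := by
    intro l hl
    rw [hco l]
    calc ‖∑ a ∈ range (l + 1), D.coeff a * ∑ i ∈ S, (m i : ℂ) * z i ^ (K + l - a)‖
        ≤ ∑ a ∈ range (l + 1), ‖D.coeff a * ∑ i ∈ S, (m i : ℂ) * z i ^ (K + l - a)‖ := norm_sum_le _ _
      _ ≤ ∑ a ∈ range (l + 1), (S.card.choose a : ℝ) * M := by
          refine sum_le_sum fun a ha => ?_
          have h1 := mem_range.1 ha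
          rw [norm_mul]
          refine mul_le_mul ?_ (hM _ (by omega) (by omega)) (norm_nonneg _) (by positivity)
          rw [hD]
          exact T2_D z S hz a
      _ ≤ ∑ a ∈ range (S.card + 1), (S.card.choose a : ℝ) * M := by
          refine sum_le_sum_of_subset_of_nonneg (range_subset_range.2 (by omega)) fun a _ _ => by positivity
      _ = 2 ^ S.card * M := by
          rw [← sum_mul]
          congr 1
          have := Nat.sum_range_choose S.card
          exact_mod_cast this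
  rw [← hev, Polynomial.eval_eq_sum_range' hdeg]
  calc ‖∑ l ∈ range S.card, P.coeff l * w ^ l‖ ≤ ∑ l ∈ range S.card, ‖P.coeff l * w ^ l‖ := norm_sum_le _ _
    _ ≤ ∑ l ∈ range S.card, 2 ^ S.card * M * 4 ^ l := by
        refine sum_le_sum fun l hl => ?_
        rw [norm_mul, norm_pow]
        exact mul_le_mul (hbd l (mem_range.1 hl)) (pow_le_pow_left₀ (norm_nonneg _) hw l) (by positivity) (by positivity)
    _ = 2 ^ S.card * M * ∑ l ∈ range S.card, (4 : ℝ) ^ l := by rw [mul_sum]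
    _ ≤ 2 ^ S.card * M * 4 ^ S.card := by
        refine mul_le_mul_of_nonneg_left ?_ (by positivity)
        rw [geom_sum_eq (by norm_num)]
        have h4 : (1 : ℝ) ≤ 4 ^ S.card := one_le_pow₀ (by norm_num)
        rw [div_le_iff₀ (by norm_num)]
        linarith
    _ = 8 ^ S.card * M := by
        have h5 : (8 : ℝ) = 2 * 4 := by norm_num
        rw [h5, mul_pow]
        ring

end Pool.Agent.Lib.H18Q
end

-- from Lib.H18Q.T3
section

/-!
# Project H18Q, chunk T3: power sums (weak form of Turán's theorem)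
-/

open Finset

namespace Pool.Agent.Lib.H18Q

/-- One term of the contour integral: a point inside the circle. -/
theorem t3_inside {w0 : ℂ} {t : ℝ} {u : ℂ} (n : ℕ) (hu : ‖u - w0‖ < t) :
    (∮ w in C(w0, t), (w - u)⁻¹ • w ^ n) = (2 * Real.pi * Complex.I : ℂ) • u ^ n := by
  have hd : DifferentiableOn ℂ (fun w : ℂ => w ^ n) (Metric.closedBall w0 t) :=
    (differentiable_pow n).differentiableOn
  exact hd.circleIntegral_sub_inv_smul (by
    rw [Metric.mem_ball, dist_eq_norm]; exact hu)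

/-- One term of the contour integral: a point outside the circle. -/
theorem t3_outside {w0 : ℂ} {t : ℝ} (ht : 0 ≤ t) {u : ℂ} (n : ℕ) (hu : t < ‖u - w0‖) :
    (∮ w in C(w0, t), (w - u)⁻¹ • w ^ n) = 0 := by
  have hd : DifferentiableOn ℂ (fun w : ℂ => (w - u)⁻¹ • w ^ n) (Metric.closedBall w0 t) := by
    intro w hw
    have hne : w - u ≠ 0 := by
      intro h
      rw [sub_eq_zero] at h
      rw [Metric.mem_closedBall, dist_eq_norm, h] at hw
      linarith
    have h1 : DifferentiableAt ℂ (fun w : ℂ => (w - u)⁻¹ • w ^ n) w := by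
      exact DifferentiableAt.fun_smul ((differentiableAt_id.sub_const u).inv hne)
        (differentiableAt_pow n)
    exact h1.differentiableWithinAt
  exact (hd.mono Metric.closure_ball_subset_closedBall).diffContOnCl.circleIntegral_eq_zero ht

/-- The lower bound for the product on the circle. -/
theorem t3_prod {ι : Type*} [DecidableEq ι] (S : Finset ι) (z : ι → ℂ)
    (w0 : ℂ) (hw0 : ‖w0‖ ≤ 3) (t : ℝ) (ht1 : t ≤ 1)
    (hp : (1 / 16 : ℝ) ^ (S.filter (fun j => (1 / 8 : ℝ) < ‖z j‖)).card ≤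
      ∏ j ∈ S.filter (fun j => (1 / 8 : ℝ) < ‖z j‖), |t - ‖(z j)⁻¹ - w0‖|)
    (w : ℂ) (hw : ‖w - w0‖ = t) :
    (1 / 128 : ℝ) ^ S.card ≤ ‖∏ j ∈ S, (1 - z j * w)‖ := by
  have hw4 : ‖w‖ ≤ 4 := by
    calc ‖w‖ = ‖(w - w0) + w0‖ := by ring_nf
      _ ≤ ‖w - w0‖ + ‖w0‖ := norm_add_le _ _
      _ ≤ 4 := by rw [hw]; linarith
  have h2 : ∀ j ∈ S.filter (fun j => (1 / 8 : ℝ) < ‖z j‖),
      (1 / 8) * |t - ‖(z j)⁻¹ - w0‖| ≤ ‖1 - z j * w‖ := by
    intro j hj
    rw [mem_filter] at hj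
    have hz0 : z j ≠ 0 := by
      intro h; rw [h, norm_zero] at hj; linarith [hj.2]
    have e1 : 1 - z j * w = z j * ((z j)⁻¹ - w) := by field_simp
    rw [e1, norm_mul]
    have h3 : |t - ‖(z j)⁻¹ - w0‖| ≤ ‖(z j)⁻¹ - w‖ := by
      have := abs_norm_sub_norm_le (w - w0) ((z j)⁻¹ - w0)
      rw [hw] at this
      refine this.trans (le_of_eq ?_)
      rw [← norm_neg]
      congr 1
      ring
    exact mul_le_mul hj.2.le h3 (abs_nonneg _) (norm_nonneg _)
  have h3 : ∀ j ∈ S.filter (fun j => ¬ (1 / 8 : ℝ) < ‖z j‖), (1 / 128 : ℝ) ≤ ‖1 - z j * w‖ := by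
    intro j hj
    rw [mem_filter, not_lt] at hj
    have h4 : ‖z j * w‖ ≤ 1 / 2 := by
      rw [norm_mul]
      calc ‖z j‖ * ‖w‖ ≤ (1 / 8) * 4 :=
            mul_le_mul hj.2 hw4 (norm_nonneg _) (by norm_num)
        _ = 1 / 2 := by norm_num
    have h5 : (1 : ℝ) - ‖z j * w‖ ≤ ‖1 - z j * w‖ := by
      have := norm_sub_norm_le (1 : ℂ) (z j * w)
      rwa [norm_one] at this
    linarith
  rw [norm_prod, ← Finset.prod_filter_mul_prod_filter_not S (fun j => (1 / 8 : ℝ) < ‖z j‖),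
    ← Finset.card_filter_add_card_filter_not (s := S) (fun j => (1 / 8 : ℝ) < ‖z j‖), pow_add]
  apply mul_le_mul
  · calc (1 / 128 : ℝ) ^ (S.filter (fun j => (1 / 8 : ℝ) < ‖z j‖)).card
        = (1 / 8) ^ (S.filter (fun j => (1 / 8 : ℝ) < ‖z j‖)).card *
          (1 / 16) ^ (S.filter (fun j => (1 / 8 : ℝ) < ‖z j‖)).card := by
          rw [← mul_pow]; norm_num
      _ ≤ (1 / 8) ^ (S.filter (fun j => (1 / 8 : ℝ) < ‖z j‖)).card *
          ∏ j ∈ S.filter (fun j => (1 / 8 : ℝ) < ‖z j‖), |t - ‖(z j)⁻¹ - w0‖| :=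
          mul_le_mul_of_nonneg_left hp (by positivity)
      _ = ∏ j ∈ S.filter (fun j => (1 / 8 : ℝ) < ‖z j‖),
            ((1 / 8) * |t - ‖(z j)⁻¹ - w0‖|) := by
          rw [Finset.prod_mul_distrib, Finset.prod_const]
      _ ≤ _ := Finset.prod_le_prod (fun j _ => by positivity) h2
  · calc (1 / 128 : ℝ) ^ (S.filter (fun j => ¬ (1 / 8 : ℝ) < ‖z j‖)).card
        = ∏ _j ∈ S.filter (fun j => ¬ (1 / 8 : ℝ) < ‖z j‖), (1 / 128 : ℝ) := by
          rw [Finset.prod_const]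
      _ ≤ _ := Finset.prod_le_prod (fun j _ => by norm_num) h3
  · positivity
  · exact Finset.prod_nonneg fun j _ => norm_nonneg _

/-- Let `|z_i| ≤ 1`, `m_i` natural numbers, `i ∈ S`, `#S ≤ K`, and `|z_{i0}| ≥ 1/3`,
`m_{i0} ≥ 1` for one `i0 ∈ S`. Then some power sum `p_k = ∑ m_i z_i^k`, `K ≤ k < 2 K`, has
`|p_k| ≥ 4096^(-K)`.

Proof. Suppose not; put `M = 4096^(-K)`, `n = #S`. Let `w0 = 1/z_{i0}`, `1 ≤ |w0| ≤ 3`. Let
`S2 = {j ∈ S : |z_j| > 1/8}`, `d_j = |w0 - 1/z_j|` for `j ∈ S2`; take `t ∈ [1/2, 1]` from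
`T1_far S2 d`. On the circle `|w - w0| = t` we have `|w| ≤ 4` and
`|1 - z_j w| ≥ 1 - 4/8 = 1/2` for `j ∉ S2`, `|1 - z_j w| = |z_j| |w - 1/z_j| ≥ (1/8) |t - d_j|` for
`j ∈ S2` (`|w - 1/z_j| ≥ | |w - w0| - |w0 - 1/z_j| |`). So `|∏_{j ∈ S} (1 - z_j w)| ≥
8^(-n) 16^(-#S2) ≥ 128^(-n) > 0`; in particular no `1/z_j` is on the circle. Put
`H(w) = ∑_i m_i z_i^K / (1 - z_i w) = P(w) / ∏ (1 - z_j w)`, with `P` of `T2_poly`
(`K ≤ k < K + n ≤ 2 K`): on the circle `|H(w)| ≤ 8^n M 128^n = 1024^n M ≤ 1024^K M`, and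
`|w^(K-1)| ≤ 4^(K-1)`. By Cauchy's formula, for each `i` the circle integral
`(1/2πi) ∮ m_i z_i^K w^(K-1) / (1 - z_i w) dw` is `0` if `z_i = 0` (`K ≥ 1`), and for `z_i ≠ 0`,
since `1/(1 - z_i w) = -(1/z_i) / (w - 1/z_i)`, it is `-m_i z_i^(K-1) (1/z_i)^(K-1) = -m_i` if
`|1/z_i - w0| < t`, and `0` if `|1/z_i - w0| > t` (`Complex.circleIntegral_sub_inv_smul_of_...`,
`circleIntegral_eq_zero_of_differentiable_on_off_countable` or
`DiffContOnCl.circleIntegral_eq_zero`). The index `i0` has `1/z_{i0} = w0` inside. So the total is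
`-∑_{inside} m_i`, of absolute value `≥ m_{i0} ≥ 1`. But it is at most
`t · 1024^K M · 4^(K-1) ≤ 4096^K M / 4 < 1`. Contradiction. -/
theorem turan {ι : Type*} (S : Finset ι) (m : ι → ℕ) (z : ι → ℂ) (K : ℕ) (hK : 1 ≤ K)
    (hc : S.card ≤ K) (hz : ∀ i ∈ S, ‖z i‖ ≤ 1) (i0 : ι) (hi0 : i0 ∈ S) (hm : 1 ≤ m i0)
    (hz0 : 1 / 3 ≤ ‖z i0‖) :
    ∃ k, K ≤ k ∧ k < 2 * K ∧ (1 / 4096 : ℝ) ^ K ≤ ‖∑ i ∈ S, (m i : ℂ) * z i ^ k‖ := by
  classical
  by_contra hcon
  push Not at hcon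
  set M : ℝ := (1 / 4096 : ℝ) ^ K with hMdef
  have hM0 : 0 < M := by positivity
  have hzi0 : z i0 ≠ 0 := by
    intro h; rw [h, norm_zero] at hz0; linarith
  set w0 : ℂ := (z i0)⁻¹ with hw0def
  have hw03 : ‖w0‖ ≤ 3 := by
    rw [hw0def, norm_inv]
    have := inv_anti₀ (by norm_num : (0 : ℝ) < 1 / 3) hz0
    norm_num at this
    exact this
  obtain ⟨t, ⟨ht0, ht1⟩, hprod⟩ := T1_far (S.filter (fun j => (1 / 8 : ℝ) < ‖z j‖))
    (fun j => ‖(z j)⁻¹ - w0‖)
  have htpos : 0 < t := by linarith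
  have hlow : ∀ w : ℂ, ‖w - w0‖ = t → (1 / 128 : ℝ) ^ S.card ≤ ‖∏ j ∈ S, (1 - z j * w)‖ :=
    fun w hw => t3_prod S z w0 hw03 t ht1 hprod w hw
  have hlowpos : ∀ w : ℂ, ‖w - w0‖ = t → ∀ j ∈ S, 1 - z j * w ≠ 0 := by
    intro w hw j hj h0
    have h1 := hlow w hw
    rw [Finset.prod_eq_zero hj h0, norm_zero] at h1
    have : (0 : ℝ) < (1 / 128 : ℝ) ^ S.card := by positivity
    linarith
  have hne : ∀ i ∈ S, z i ≠ 0 → ‖(z i)⁻¹ - w0‖ ≠ t := by
    intro i hi hzi h
    apply hlowpos _ h i hi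
    rw [mul_inv_cancel₀ hzi, sub_self]
  -- the terms
  set F : ι → ℂ → ℂ := fun i w => (m i : ℂ) * z i ^ K * w ^ (K - 1) / (1 - z i * w) with hF
  have hFcont : ∀ i ∈ S, ContinuousOn (F i) (Metric.sphere w0 t) := by
    intro i hi
    apply ContinuousOn.div
    · fun_prop
    · fun_prop
    · intro w hw
      rw [mem_sphere_iff_norm] at hw
      exact hlowpos w hw i hi
  have hint : ∀ i ∈ S, CircleIntegrable (F i) w0 t := fun i hi =>
    (hFcont i hi).circleIntegrable htpos.le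
  set c : ι → ℝ := fun i => if z i ≠ 0 ∧ ‖(z i)⁻¹ - w0‖ < t then (m i : ℝ) else 0 with hc'
  have hterm : ∀ i ∈ S, (∮ w in C(w0, t), F i w) = -(2 * Real.pi * Complex.I) * (c i : ℂ) := by
    intro i hi
    by_cases hzi : z i = 0
    · have h1 : F i = fun _ => 0 := by
        funext w
        simp only [hF, hzi]
        rw [zero_pow (by omega)]
        ring
      have h2 : c i = 0 := by
        simp only [hc', hzi]
        simp
      rw [h1, h2]
      simp [circleIntegral]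
    · have h1 : (∮ w in C(w0, t), F i w) =
          -((m i : ℂ) * z i ^ (K - 1)) * ∮ w in C(w0, t), (w - (z i)⁻¹)⁻¹ • w ^ (K - 1) := by
        rw [← circleIntegral.integral_const_mul]
        apply circleIntegral.integral_congr htpos.le
        intro w hw
        rw [mem_sphere_iff_norm] at hw
        have h3 : 1 - z i * w ≠ 0 := hlowpos w hw i hi
        have h4 : w - (z i)⁻¹ ≠ 0 := by
          intro h
          apply h3
          rw [sub_eq_zero] at h
          rw [h, mul_inv_cancel₀ hzi, sub_self]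
        have h5 : 1 - z i * w = -(z i * (w - (z i)⁻¹)) := by
          rw [mul_sub, mul_inv_cancel₀ hzi]; ring
        simp only [hF, smul_eq_mul]
        rw [h5]
        have h6 : z i ^ K = z i * z i ^ (K - 1) := by
          rw [← pow_succ']; congr 1; omega
        rw [h6]
        field_simp
      rcases lt_or_gt_of_ne (hne i hi hzi) with hlt | hgt
      · rw [h1, t3_inside _ hlt]
        have h2 : c i = m i := by
          simp only [hc']
          rw [if_pos ⟨hzi, hlt⟩]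
        rw [h2]
        have h7 : z i ^ (K - 1) * (z i)⁻¹ ^ (K - 1) = 1 := by
          rw [← mul_pow, mul_inv_cancel₀ hzi, one_pow]
        simp only [smul_eq_mul]
        push_cast
        linear_combination (-(m i : ℂ) * (2 * Real.pi * Complex.I)) * h7
      · rw [h1, t3_outside htpos.le _ hgt]
        have h2 : c i = 0 := by
          simp only [hc']
          rw [if_neg]
          intro h
          linarith [h.2]
        rw [h2]
        simp
  have htotal : (∮ w in C(w0, t), ∑ i ∈ S, F i w) =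
      -(2 * Real.pi * Complex.I) * ((∑ i ∈ S, c i : ℝ) : ℂ) := by
    rw [circleIntegral.integral_fun_sum hint, Finset.sum_congr rfl hterm, ← Finset.mul_sum]
    push_cast
    rfl
  have hcsum : (1 : ℝ) ≤ ∑ i ∈ S, c i := by
    have h1 : ∀ i ∈ S, 0 ≤ c i := by
      intro i _
      simp only [hc']
      split_ifs <;> positivity
    have h2 : c i0 = m i0 := by
      simp only [hc']
      rw [if_pos]
      refine ⟨hzi0, ?_⟩
      rw [← hw0def, sub_self, norm_zero]
      exact htpos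
    have h3 : (1 : ℝ) ≤ c i0 := by
      rw [h2]; exact_mod_cast hm
    exact h3.trans (Finset.single_le_sum h1 hi0)
  have hup : ‖∮ w in C(w0, t), ∑ i ∈ S, F i w‖ ≤
      2 * Real.pi * t * (4 ^ (K - 1) * (8 ^ S.card * M) * 128 ^ S.card) := by
    apply circleIntegral.norm_integral_le_of_norm_le_const htpos.le
    intro w hw
    rw [mem_sphere_iff_norm] at hw
    have hw4 : ‖w‖ ≤ 4 := by
      calc ‖w‖ = ‖(w - w0) + w0‖ := by ring_nf
        _ ≤ ‖w - w0‖ + ‖w0‖ := norm_add_le _ _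
        _ ≤ 4 := by rw [hw]; linarith
    have hP := T2_poly S m z hz K M hM0.le (fun k hk1 hk2 => (hcon k hk1 (by omega)).le) w hw4
    have hQ := hlow w hw
    have hQ0 : ∏ j ∈ S, (1 - z j * w) ≠ 0 := Finset.prod_ne_zero_iff.mpr (hlowpos w hw)
    have e1 : ∑ i ∈ S, F i w = w ^ (K - 1) *
        (∑ i ∈ S, (m i : ℂ) * z i ^ K * ∏ j ∈ S.erase i, (1 - z j * w)) /
        ∏ j ∈ S, (1 - z j * w) := by
      rw [Finset.mul_sum, Finset.sum_div]
      apply Finset.sum_congr rfl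
      intro i hi
      simp only [hF]
      rw [div_eq_div_iff (hlowpos w hw i hi) hQ0, ← Finset.mul_prod_erase S _ hi]
      ring
    rw [e1, norm_div, norm_mul, norm_pow, div_le_iff₀ (norm_pos_iff.mpr hQ0)]
    have h128 : (1 : ℝ) ≤ 128 ^ S.card * ‖∏ j ∈ S, (1 - z j * w)‖ := by
      calc (1 : ℝ) = 128 ^ S.card * (1 / 128) ^ S.card := by
            rw [← mul_pow]; norm_num
        _ ≤ _ := mul_le_mul_of_nonneg_left hQ (by positivity)
    calc ‖w‖ ^ (K - 1) * ‖∑ i ∈ S, (m i : ℂ) * z i ^ K * ∏ j ∈ S.erase i, (1 - z j * w)‖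
        ≤ 4 ^ (K - 1) * (8 ^ S.card * M) := by
          apply mul_le_mul _ hP (norm_nonneg _) (by positivity)
          exact pow_le_pow_left₀ (norm_nonneg _) hw4 _
      _ = 4 ^ (K - 1) * (8 ^ S.card * M) * 1 := by ring
      _ ≤ 4 ^ (K - 1) * (8 ^ S.card * M) * (128 ^ S.card * ‖∏ j ∈ S, (1 - z j * w)‖) :=
          mul_le_mul_of_nonneg_left h128 (by positivity)
      _ = _ := by ring
  rw [htotal, norm_mul, norm_neg] at hup
  have hn1 : ‖(2 * Real.pi * Complex.I : ℂ)‖ = 2 * Real.pi := by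
    simp [abs_of_pos Real.pi_pos]
  rw [hn1, Complex.norm_real, Real.norm_eq_abs, abs_of_nonneg (by linarith)] at hup
  have hpi := Real.pi_pos
  have hbound : t * (4 ^ (K - 1) * (8 ^ S.card * M) * 128 ^ S.card) ≤ 1 / 4 := by
    have h1 : (8 : ℝ) ^ S.card * 128 ^ S.card ≤ 1024 ^ K := by
      rw [← mul_pow]
      norm_num
      exact pow_le_pow_right₀ (by norm_num) hc
    have h2 : (4 : ℝ) ^ (K - 1) * 4 = 4 ^ K := by
      rw [← pow_succ]; congr 1; omega
    have h3 : (4 : ℝ) ^ K * 1024 ^ K * M = 1 := by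
      rw [hMdef, ← mul_pow, ← mul_pow]; norm_num
    calc t * (4 ^ (K - 1) * (8 ^ S.card * M) * 128 ^ S.card)
        = t * (4 ^ (K - 1) * M * (8 ^ S.card * 128 ^ S.card)) := by ring
      _ ≤ 1 * (4 ^ (K - 1) * M * 1024 ^ K) := by
          apply mul_le_mul ht1 _ (by positivity) (by norm_num)
          exact mul_le_mul_of_nonneg_left h1 (by positivity)
      _ = (4 ^ (K - 1) * 4) * 1024 ^ K * M / 4 := by ring
      _ = 1 / 4 := by rw [h2, h3]
  have : 2 * Real.pi * 1 ≤ 2 * Real.pi * (1 / 4) := by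
    calc 2 * Real.pi * 1 ≤ 2 * Real.pi * ∑ i ∈ S, c i :=
          mul_le_mul_of_nonneg_left hcsum (by positivity)
      _ ≤ _ := hup
      _ = 2 * Real.pi * (t * (4 ^ (K - 1) * (8 ^ S.card * M) * 128 ^ S.card)) := by ring
      _ ≤ _ := mul_le_mul_of_nonneg_left hbound (by positivity)
  nlinarith

end Pool.Agent.Lib.H18Q
end
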