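import Mathlib

/-! Merged copies (to shorten the build) of Lib.H18Q.PB1, Lib.H18Q.Z7, Lib.H18Q.PG1, Lib.H59T.Defs, Lib.H59T.K3, Lib.H59T.K1, Lib.H59T.K2. -/

-- from Lib.H18Q.PB1
section

/-!
# Project H18Q, chunk PB1: decay of a Fourier transform, three derivatives
-/

open Finset MeasureTheory

namespace Pool.Agent.Lib.H18Q

theorem PB1_int (h : ℝ → ℝ) (a b : ℝ) (hc : Continuous h) (z : ∀ y, y ∉ Set.Icc a b → h y = 0) (ξ : ℝ) :
    Integrable (fun y : ℝ => (h y : ℂ) * Complex.exp (-(ξ * y * Complex.I))) := by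
  have hcont : Continuous (fun y : ℝ => (h y : ℂ) * Complex.exp (-(ξ * y * Complex.I))) := by
    fun_prop
  refine hcont.integrable_of_hasCompactSupport ?_
  refine HasCompactSupport.intro (K := Set.Icc a b) isCompact_Icc ?_
  intro y hy
  simp only [z y hy, Complex.ofReal_zero, zero_mul]

theorem PB1_norm (ξ y : ℝ) : ‖Complex.exp (-(ξ * y * Complex.I))‖ = 1 := by
  have e : -((ξ : ℂ) * y * Complex.I) = ((-(ξ * y) : ℝ) : ℂ) * Complex.I := by
    push_cast
    ring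
  rw [e, Complex.norm_exp_ofReal_mul_I]

theorem PB1_bd (h : ℝ → ℝ) (a b M : ℝ) (hab : a ≤ b) (z : ∀ y, y ∉ Set.Icc a b → h y = 0)
    (hb : ∀ y, |h y| ≤ M) (ξ : ℝ) :
    ‖∫ y : ℝ, (h y : ℂ) * Complex.exp (-(ξ * y * Complex.I))‖ ≤ (b - a) * M := by
  rw [← setIntegral_eq_integral_of_forall_compl_eq_zero (s := Set.Icc a b) (fun y hy => by
    simp only [z y hy, Complex.ofReal_zero, zero_mul])]
  have h1 := norm_setIntegral_le_of_norm_le_const (μ := volume) (s := Set.Icc a b) (C := M)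
    (f := fun y : ℝ => (h y : ℂ) * Complex.exp (-(ξ * y * Complex.I)))
    (by rw [Real.volume_Icc]; exact ENNReal.ofReal_lt_top)
    (fun y _ => by
      rw [norm_mul, PB1_norm, mul_one, Complex.norm_real, Real.norm_eq_abs]
      exact hb y)
  refine h1.trans (le_of_eq ?_)
  rw [Real.volume_real_Icc_of_le hab, mul_comm]

theorem PB1_step (h h' : ℝ → ℝ) (a b : ℝ) (hd : ∀ y, HasDerivAt h (h' y) y) (hc : Continuous h')
    (z : ∀ y, y ∉ Set.Icc a b → h y = 0) (z' : ∀ y, y ∉ Set.Icc a b → h' y = 0) (ξ : ℝ) :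
    ((ξ : ℂ) * Complex.I) * ∫ y : ℝ, (h y : ℂ) * Complex.exp (-(ξ * y * Complex.I)) =
      ∫ y : ℝ, (h' y : ℂ) * Complex.exp (-(ξ * y * Complex.I)) := by
  have hcont : Continuous h := continuous_iff_continuousAt.2 fun y => (hd y).continuousAt
  have i1 := PB1_int h a b hcont z ξ
  have i2 := PB1_int h' a b hc z' ξ
  have hv : ∀ y : ℝ, HasDerivAt (fun y : ℝ => Complex.exp (-(ξ * y * Complex.I)))
      (-((ξ : ℂ) * Complex.I) * Complex.exp (-(ξ * y * Complex.I))) y := by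
    intro y
    have e1 : HasDerivAt (fun y : ℝ => -((ξ : ℂ) * y * Complex.I)) (-((ξ : ℂ) * 1 * Complex.I)) y := by
      exact (((Complex.ofRealCLM.hasDerivAt (x := y)).const_mul (ξ : ℂ)).mul_const Complex.I).neg
    have e2 := e1.cexp
    refine e2.congr_deriv ?_
    ring
  have key := integral_mul_deriv_eq_deriv_mul_of_integrable (A := ℂ)
    (u := fun y : ℝ => (h y : ℂ)) (u' := fun y : ℝ => (h' y : ℂ))
    (v := fun y : ℝ => Complex.exp (-(ξ * y * Complex.I)))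
    (v' := fun y : ℝ => -((ξ : ℂ) * Complex.I) * Complex.exp (-(ξ * y * Complex.I)))
    (fun y _ => (hd y).ofReal_comp) (fun y _ => hv y)
    (by
      refine (i1.const_mul (-((ξ : ℂ) * Complex.I))).congr (Filter.Eventually.of_forall fun y => ?_)
      simp only [Pi.mul_apply]
      ring) i2 i1
  have e3 : (∫ y : ℝ, (h y : ℂ) * (-((ξ : ℂ) * Complex.I) * Complex.exp (-(ξ * y * Complex.I)))) =
      -((ξ : ℂ) * Complex.I) * ∫ y : ℝ, (h y : ℂ) * Complex.exp (-(ξ * y * Complex.I)) := by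
    rw [← integral_const_mul]
    refine integral_congr_ae (Filter.Eventually.of_forall fun y => ?_)
    simp only
    ring
  rw [e3] at key
  linear_combination -key

theorem PB1_real {X t B : ℝ} (hX : 0 ≤ X) (ht : 0 ≤ t) (h1 : X ≤ B) (h2 : t ^ 3 * X ≤ B) :
    X * (1 + t) ^ 3 ≤ 8 * B := by
  have h3 : (1 + t) ^ 3 ≤ 4 * (1 + t ^ 3) := by
    nlinarith [mul_nonneg (sq_nonneg (1 - t)) (by linarith : (0 : ℝ) ≤ 1 + t)]
  have h4 : X * (1 + t) ^ 3 ≤ X * (4 * (1 + t ^ 3)) := mul_le_mul_of_nonneg_left h3 hX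
  nlinarith

/-- Decay of order three. Proof: `|∫| ≤ (b-a) M` trivially, and integrating by parts three times
(compact support) `|ξ|³ |∫ f e^(-iξy)| = |∫ f3 e^(-iξy)| ≤ (b - a) M`; so the integral is at most
`(b-a) M min(1, |ξ|^(-3)) ≤ 8 (b-a) M/(1+|ξ|)³`. -/
theorem fourier_decay3 (f f1 f2 f3 : ℝ → ℝ) (a b M : ℝ) (hab : a ≤ b) (hM : 0 ≤ M)
    (h0 : ∀ y, HasDerivAt f (f1 y) y) (h1 : ∀ y, HasDerivAt f1 (f2 y) y)
    (h2 : ∀ y, HasDerivAt f2 (f3 y) y) (hc : Continuous f3)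
    (z0 : ∀ y, y ∉ Set.Icc a b → f y = 0) (z1 : ∀ y, y ∉ Set.Icc a b → f1 y = 0)
    (z2 : ∀ y, y ∉ Set.Icc a b → f2 y = 0) (z3 : ∀ y, y ∉ Set.Icc a b → f3 y = 0)
    (b0 : ∀ y, |f y| ≤ M) (b3 : ∀ y, |f3 y| ≤ M) (ξ : ℝ) :
    ‖∫ y : ℝ, (f y : ℂ) * Complex.exp (-(ξ * y * Complex.I))‖ ≤
      8 * (b - a) * M / (1 + |ξ|) ^ 3 := by
  have c2 : Continuous f2 := continuous_iff_continuousAt.2 fun y => (h2 y).continuousAt
  have c1 : Continuous f1 := continuous_iff_continuousAt.2 fun y => (h1 y).continuousAt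
  have s0 := PB1_step f f1 a b h0 c1 z0 z1 ξ
  have s1 := PB1_step f1 f2 a b h1 c2 z1 z2 ξ
  have s2 := PB1_step f2 f3 a b h2 hc z2 z3 ξ
  have B0 := PB1_bd f a b M hab z0 b0 ξ
  have B3 := PB1_bd f3 a b M hab z3 b3 ξ
  have e : ‖(ξ : ℂ)‖ = |ξ| := by
    rw [Complex.norm_real, Real.norm_eq_abs]
  rw [← s2, ← s1, ← s0] at B3
  simp only [norm_mul, Complex.norm_I, mul_one, e] at B3
  have hpos : 0 < (1 + |ξ|) ^ 3 := by positivity
  rw [le_div_iff₀ hpos]
  have := PB1_real (norm_nonneg _) (abs_nonneg ξ) B0 (by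
    calc _ = _ := ?_
      _ ≤ _ := B3
    ring)
  linarith

/-- Fourier inversion in the form used. Proof: the integral of `PB1` is Mathlib's Fourier transform
at `ξ/(2π)`; it is integrable by `fourier_decay3` (continuity of the Fourier transform of an
integrable function), so `MeasureTheory`'s inversion theorem
(`Continuous.fourierInv_fourier_eq` or its present name) applies; substitute `ξ = 2π x`. -/
theorem fourier_inv3 (f f1 f2 f3 : ℝ → ℝ) (a b M : ℝ) (hab : a ≤ b) (hM : 0 ≤ M)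
    (h0 : ∀ y, HasDerivAt f (f1 y) y) (h1 : ∀ y, HasDerivAt f1 (f2 y) y)
    (h2 : ∀ y, HasDerivAt f2 (f3 y) y) (hc : Continuous f3)
    (z0 : ∀ y, y ∉ Set.Icc a b → f y = 0) (z1 : ∀ y, y ∉ Set.Icc a b → f1 y = 0)
    (z2 : ∀ y, y ∉ Set.Icc a b → f2 y = 0) (z3 : ∀ y, y ∉ Set.Icc a b → f3 y = 0)
    (b0 : ∀ y, |f y| ≤ M) (b3 : ∀ y, |f3 y| ≤ M) :
    ∃ g : ℝ → ℂ, Continuous g ∧ (∀ ξ, ‖g ξ‖ ≤ 2 * (b - a) * M / (1 + |ξ|) ^ 3) ∧
      ∀ u : ℝ, (f u : ℂ) = ∫ ξ : ℝ, g ξ * Complex.exp (u * ξ * Complex.I) := by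
  have hcont : Continuous f := continuous_iff_continuousAt.2 fun y => (h0 y).continuousAt
  have hdec := fourier_decay3 f f1 f2 f3 a b M hab hM h0 h1 h2 hc z0 z1 z2 z3 b0 b3
  obtain ⟨G, hG⟩ : ∃ G : ℝ → ℂ, ∀ ξ, G ξ = ∫ y : ℝ, (f y : ℂ) * Complex.exp (-(ξ * y * Complex.I)) :=
    ⟨_, fun _ => rfl⟩
  have hGc : Continuous G := by
    have e : G = fun ξ : ℝ => ∫ y : ℝ, (f y : ℂ) * Complex.exp (-(ξ * y * Complex.I)) := funext hG
    rw [e]
    refine continuous_of_dominated (bound := fun y => ‖(f y : ℂ)‖) ?_ ?_ ?_ ?_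
    · intro ξ
      exact (PB1_int f a b hcont z0 ξ).aestronglyMeasurable
    · intro ξ
      refine Filter.Eventually.of_forall fun y => ?_
      rw [norm_mul, PB1_norm, mul_one]
    · have := (PB1_int f a b hcont z0 0).norm
      refine this.congr (Filter.Eventually.of_forall fun y => ?_)
      simp only [norm_mul, PB1_norm, mul_one]
    · refine Filter.Eventually.of_forall fun y => ?_
      fun_prop
  have hGb : ∀ ξ, ‖G ξ‖ ≤ 8 * (b - a) * M / (1 + |ξ|) ^ 3 := fun ξ => by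
    rw [hG]
    exact hdec ξ
  have hba : 0 ≤ (b - a) * M := mul_nonneg (by linarith) hM
  obtain ⟨fc, hfc⟩ : ∃ fc : ℝ → ℂ, ∀ y, fc y = (f y : ℂ) := ⟨_, fun _ => rfl⟩
  have hfc' : fc = fun y => (f y : ℂ) := funext hfc
  have hF : ∀ x : ℝ, FourierTransform.fourier fc x = G (2 * Real.pi * x) := by
    intro x
    rw [Real.fourier_real_eq_integral_exp_smul, hG]
    refine integral_congr_ae (Filter.Eventually.of_forall fun y => ?_)
    simp only [hfc, smul_eq_mul]
    rw [mul_comm]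
    congr 2
    push_cast
    ring
  have hfint : Integrable fc := by
    have := PB1_int f a b hcont z0 0
    refine this.congr (Filter.Eventually.of_forall fun y => ?_)
    simp only [hfc, Complex.ofReal_zero, zero_mul, neg_zero, Complex.exp_zero, mul_one]
  have hFfun : FourierTransform.fourier fc = fun x : ℝ => G (2 * Real.pi * x) := funext hF
  have hFint : Integrable (FourierTransform.fourier fc) := by
    rw [hFfun]
    have h3 := (integrable_inv_one_add_sq).const_mul (8 * (b - a) * M)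
    refine h3.mono' (hGc.comp (continuous_const.mul continuous_id)).aestronglyMeasurable ?_
    refine Filter.Eventually.of_forall fun x => ?_
    refine (hGb _).trans ?_
    rw [div_eq_mul_inv]
    refine mul_le_mul_of_nonneg_left ?_ (by nlinarith)
    refine inv_anti₀ (by positivity) ?_
    have hpi : 1 ≤ 2 * Real.pi := by nlinarith [Real.pi_gt_three]
    have h4 : |x| ≤ |2 * Real.pi * x| := by
      rw [abs_mul, abs_of_nonneg (by linarith : (0 : ℝ) ≤ 2 * Real.pi)]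
      nlinarith [abs_nonneg x]
    have h5 : (1 + |x|) ^ 3 ≤ (1 + |2 * Real.pi * x|) ^ 3 := by
      gcongr
    have h6 : 1 + x ^ 2 ≤ (1 + |x|) ^ 3 := by
      have h7 := abs_nonneg x
      have h8 : x ^ 2 = |x| ^ 2 := (sq_abs x).symm
      rw [h8]
      nlinarith [mul_nonneg h7 h7, mul_nonneg h7 (mul_nonneg h7 h7)]
    exact h6.trans h5
  have hinv := Continuous.fourierInv_fourier_eq (f := fc) (by rw [hfc']; fun_prop) hfint hFint
  refine ⟨fun ξ => ((1 / (2 * Real.pi) : ℝ) : ℂ) * G ξ, by fun_prop, ?_, ?_⟩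
  · intro ξ
    rw [norm_mul, Complex.norm_real, Real.norm_eq_abs, abs_of_nonneg (by positivity)]
    have h3 := hGb ξ
    have hpos : 0 < (1 + |ξ|) ^ 3 := by positivity
    have h4 : 1 / (2 * Real.pi) ≤ 1 / 4 := by
      apply one_div_le_one_div_of_le (by norm_num)
      nlinarith [Real.pi_gt_three]
    calc 1 / (2 * Real.pi) * ‖G ξ‖ ≤ 1 / 4 * (8 * (b - a) * M / (1 + |ξ|) ^ 3) :=
          mul_le_mul h4 h3 (norm_nonneg _) (by norm_num)
      _ = 2 * (b - a) * M / (1 + |ξ|) ^ 3 := by ring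
  · intro u
    have h3 := congrFun hinv u
    rw [Real.fourierInv_eq', hfc] at h3
    rw [← h3]
    obtain ⟨Q, hQ⟩ : ∃ Q : ℝ → ℂ, ∀ x, Q x = G x * Complex.exp (u * x * Complex.I) := ⟨_, fun _ => rfl⟩
    have e1 : (∫ ξ : ℝ, ((1 / (2 * Real.pi) : ℝ) : ℂ) * G ξ * Complex.exp (u * ξ * Complex.I)) =
        ((1 / (2 * Real.pi) : ℝ) : ℂ) * ∫ ξ : ℝ, Q ξ := by
      rw [← integral_const_mul]
      refine integral_congr_ae (Filter.Eventually.of_forall fun y => ?_)
      simp only [hQ]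
      ring
    have e2 := Measure.integral_comp_mul_left Q (2 * Real.pi)
    rw [e1]
    have e3 : (∫ x : ℝ, Q (2 * Real.pi * x)) = ∫ v : ℝ, Complex.exp (↑(2 * Real.pi * inner ℝ v u) * Complex.I) •
        FourierTransform.fourier fc v := by
      refine integral_congr_ae (Filter.Eventually.of_forall fun x => ?_)
      simp only [hQ, hF, smul_eq_mul]
      rw [mul_comm]
      congr 2
      simp only [RCLike.inner_apply, conj_trivial]
      push_cast
      ring
    rw [← e3, e2, abs_of_pos (by positivity), Complex.real_smul]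
    simp only [one_div]

end Pool.Agent.Lib.H18Q
end

-- from Lib.H18Q.Z7
section

/-!
# Project H18Q, chunk Z7: counting points by measure
-/

open Finset

namespace Pool.Agent.Lib.H18Q

/-- Let `γ i`, `i ∈ S`, be reals with weights `m i ≥ 0`, `lam > 0`, all `[γ i - lam, γ i + lam]`
contained in `[a, b]`; suppose the points within `lam` of any `v` have total weight at most `B`,
and `g ≥ 0` is continuous with `g v ≥ 1` whenever some `γ i` is within `lam` of `v ∈ [a, b]`. Then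
`∑ m i ≤ B/(2 lam) ∫_a^b g`.

Proof: `2 lam m i = ∫_a^b m i 1[|γ i - v| ≤ lam] dv`; sum over `i`; the integrand
`∑_i m i 1[|γ i - v| ≤ lam]` is at most `B` and is `0` if no `γ i` is within `lam` of `v`, so it is at
most `B g(v)`. -/
theorem count_by_measure {ι : Type*} (S : Finset ι) (γ m : ι → ℝ) (lam a b B : ℝ) (g : ℝ → ℝ)
    (hlam : 0 < lam) (hm : ∀ i ∈ S, 0 ≤ m i) (hB : 0 ≤ B)
    (ha : ∀ i ∈ S, a ≤ γ i - lam) (hb : ∀ i ∈ S, γ i + lam ≤ b) (hab : a ≤ b)
    (hloc : ∀ v ∈ Set.Icc a b, ∑ i ∈ S with |γ i - v| ≤ lam, m i ≤ B)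
    (hg : Continuous g) (hg0 : ∀ v, 0 ≤ g v)
    (hg1 : ∀ v ∈ Set.Icc a b, (∃ i ∈ S, |γ i - v| ≤ lam) → 1 ≤ g v) :
    ∑ i ∈ S, m i ≤ B / (2 * lam) * ∫ v in a..b, g v := by
  classical
  have hind : ∀ i v, (if |γ i - v| ≤ lam then m i else 0) =
      (Set.Icc (γ i - lam) (γ i + lam)).indicator (fun _ => m i) v := by
    intro i v
    rw [Set.indicator_apply]
    have h1 : |γ i - v| ≤ lam ↔ v ∈ Set.Icc (γ i - lam) (γ i + lam) := by
      rw [abs_le, Set.mem_Icc]
      constructor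
      · rintro ⟨h1, h2⟩
        constructor <;> linarith
      · rintro ⟨h1, h2⟩
        constructor <;> linarith
    by_cases h : |γ i - v| ≤ lam
    · rw [if_pos h, if_pos (h1.1 h)]
    · rw [if_neg h, if_neg fun h2 => h (h1.2 h2)]
  have hint : ∀ i, MeasureTheory.Integrable (fun v : ℝ => if |γ i - v| ≤ lam then m i else 0) := by
    intro i
    simp only [hind]
    rw [MeasureTheory.integrable_indicator_iff measurableSet_Icc]
    exact MeasureTheory.integrableOn_const (by rw [Real.volume_Icc]; exact ENNReal.ofReal_ne_top)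
  have hval : ∀ i ∈ S, ∫ v in a..b, (if |γ i - v| ≤ lam then m i else 0) = 2 * lam * m i := by
    intro i hi
    rw [intervalIntegral.integral_of_le hab, ← MeasureTheory.integral_Icc_eq_integral_Ioc]
    simp only [hind]
    rw [MeasureTheory.setIntegral_indicator measurableSet_Icc]
    have h1 : Set.Icc a b ∩ Set.Icc (γ i - lam) (γ i + lam) = Set.Icc (γ i - lam) (γ i + lam) :=
      Set.inter_eq_right.2 (Set.Icc_subset_Icc (ha i hi) (hb i hi))
    rw [h1, MeasureTheory.setIntegral_const, MeasureTheory.measureReal_def, Real.volume_Icc,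
      ENNReal.toReal_ofReal (by linarith), smul_eq_mul]
    ring
  have hsum : ∑ i ∈ S, 2 * lam * m i = ∫ v in a..b, ∑ i ∈ S, (if |γ i - v| ≤ lam then m i else 0) := by
    rw [intervalIntegral.integral_finsetSum fun i _ => (hint i).intervalIntegrable]
    exact sum_congr rfl fun i hi => (hval i hi).symm
  have hle : ∫ v in a..b, ∑ i ∈ S, (if |γ i - v| ≤ lam then m i else 0) ≤ ∫ v in a..b, B * g v := by
    refine intervalIntegral.integral_mono_on hab ?_ ?_ fun v hv => ?_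
    · exact (MeasureTheory.integrable_finsetSum _ fun i _ => hint i).intervalIntegrable
    · exact (continuous_const.mul hg).intervalIntegrable _ _
    · by_cases h : ∃ i ∈ S, |γ i - v| ≤ lam
      · have h1 := hloc v hv
        rw [sum_filter] at h1
        exact h1.trans (le_mul_of_one_le_right hB (hg1 v hv h))
      · rw [sum_eq_zero]
        · exact mul_nonneg hB (hg0 v)
        · intro i hi
          exact if_neg fun h2 => h ⟨i, hi, h2⟩
  rw [intervalIntegral.integral_const_mul, ← hsum, ← mul_sum] at hle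
  rw [div_mul_eq_mul_div, le_div_iff₀ (by positivity)]
  linarith

end Pool.Agent.Lib.H18Q
end

-- from Lib.H18Q.PG1
section

/-!
# Project H18Q, chunk PG1: the convolution estimate
-/

open Finset MeasureTheory

namespace Pool.Agent.Lib.H18Q

theorem pg1_int : Integrable (fun ξ : ℝ => 1 / (1 + |ξ|) ^ 3) := by
  have h := integrable_one_add_norm (E := ℝ) (μ := volume) (r := 3) (by simp)
  refine h.congr (Filter.Eventually.of_forall fun x => ?_)
  have h1 : (0:ℝ) < 1 + |x| := by positivity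
  have : (1 + ‖x‖) ^ (-(3:ℝ)) = 1 / (1 + |x|) ^ 3 := by
    rw [Real.norm_eq_abs, Real.rpow_neg h1.le]
    rw [show (3:ℝ) = ((3:ℕ):ℝ) by norm_num, Real.rpow_natCast]
    rw [one_div]
  exact this

theorem pg1_Ioi (c : ℝ) (hc : 0 ≤ c) :
    ∫ x in Set.Ioi c, 1 / (1 + x) ^ 3 = 1 / (2 * (1 + c) ^ 2) := by
  have hd : ∀ x ∈ Set.Ici c, HasDerivAt (fun y : ℝ => -(1 / (2 * (1 + y) ^ 2)))
      (1 / (1 + x) ^ 3) x := by
    intro x hx
    have hx0 : 0 < 1 + x := by
      have : c ≤ x := hx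
      linarith
    have h1 : HasDerivAt (fun y : ℝ => 2 * (1 + y) ^ 2) (2 * (2 * (1 + x))) x := by
      have h2 := ((hasDerivAt_id x).const_add (1:ℝ)).pow 2
      have h3 := h2.const_mul (2:ℝ)
      refine h3.congr_deriv ?_
      simp
    have h4 := (h1.inv (by positivity)).neg
    have h5 : (fun y : ℝ => -(1 / (2 * (1 + y) ^ 2))) = fun y => -(2 * (1 + y) ^ 2)⁻¹ := by
      funext y
      rw [one_div]
    rw [h5]
    refine h4.congr_deriv ?_
    field_simp
  have hint : IntegrableOn (fun x : ℝ => 1 / (1 + x) ^ 3) (Set.Ioi c) := by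
    refine (pg1_int.integrableOn (s := Set.Ioi c)).congr_fun ?_ measurableSet_Ioi
    intro x hx
    have : c < x := hx
    have h0 : |x| = x := abs_of_pos (by linarith)
    simp only [h0]
  have hlim : Filter.Tendsto (fun y : ℝ => -(1 / (2 * (1 + y) ^ 2))) Filter.atTop (nhds 0) := by
    rw [← neg_zero]
    refine Filter.Tendsto.neg ?_
    have h1 : Filter.Tendsto (fun y : ℝ => 2 * (1 + y) ^ 2) Filter.atTop Filter.atTop := by
      have h2 : Filter.Tendsto (fun y : ℝ => 1 + y) Filter.atTop Filter.atTop :=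
        Filter.tendsto_atTop_add_const_left _ _ Filter.tendsto_id
      have h3 := (Filter.tendsto_pow_atTop (n := 2) (by norm_num)).comp h2
      exact Filter.Tendsto.const_mul_atTop (by norm_num) h3
    have h4 := h1.inv_tendsto_atTop
    refine h4.congr fun y => ?_
    simp
  rw [integral_Ioi_of_hasDerivAt_of_tendsto' hd hint hlim]
  ring

/-- `∫ (1 + |ξ|)^(-3) dξ = 1`, and the tail `|ξ| > R` is at most `1/R²`. -/
theorem PG1_kernel : Integrable (fun ξ : ℝ => 1 / (1 + |ξ|) ^ 3) ∧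
    ∫ ξ : ℝ, 1 / (1 + |ξ|) ^ 3 = 1 ∧
    ∀ R : ℝ, 0 < R → ∫ ξ in {ξ : ℝ | R < |ξ|}, 1 / (1 + |ξ|) ^ 3 ≤ 1 / R ^ 2 := by
  refine ⟨pg1_int, ?_, ?_⟩
  · have h := integral_comp_abs (f := fun x : ℝ => 1 / (1 + x) ^ 3)
    rw [h, pg1_Ioi 0 le_rfl]
    norm_num
  · intro R hR
    have hm : MeasurableSet {ξ : ℝ | R < |ξ|} := measurableSet_lt measurable_const (by fun_prop)
    rw [← integral_indicator hm]
    have h := integral_comp_abs (f := fun x : ℝ => (Set.Ioi R).indicator (fun y => 1 / (1 + y) ^ 3) x)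
    have h2 : (fun x : ℝ => ({ξ : ℝ | R < |ξ|}).indicator (fun y : ℝ => 1 / (1 + |y|) ^ 3) x)
        = fun x : ℝ => (Set.Ioi R).indicator (fun y => 1 / (1 + y) ^ 3) |x| := by
      funext x
      by_cases hx : R < |x|
      · rw [Set.indicator_of_mem (by exact hx), Set.indicator_of_mem (by exact hx)]
      · rw [Set.indicator_of_notMem (by exact hx), Set.indicator_of_notMem (by exact hx)]
    rw [h2, h]
    have h3 : ∫ x in Set.Ioi (0:ℝ), (Set.Ioi R).indicator (fun y : ℝ => 1 / (1 + y) ^ 3) x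
        = ∫ x in Set.Ioi R, 1 / (1 + x) ^ 3 := by
      rw [setIntegral_indicator measurableSet_Ioi]
      congr 1
      have : Set.Ioi (0:ℝ) ∩ Set.Ioi R = Set.Ioi R := by
        rw [Set.Ioi_inter_Ioi, max_eq_right hR.le]
      rw [this]
    rw [h3, pg1_Ioi R hR.le]
    have e : 2 * (1 / (2 * (1 + R) ^ 2)) = 1 / (1 + R) ^ 2 := by
      field_simp
    rw [e]
    apply one_div_le_one_div_of_le (by positivity)
    gcongr
    linarith

/-- Proof. `‖∫ kh(ξ) D(t-ξ) dξ‖ ≤ ∫_{|t-ξ| ≤ R} ‖kh(ξ)‖ ‖D(t-ξ)‖ + M ∫_{|t-ξ| > R} ‖kh(ξ)‖`; for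
`|t| ≤ S` the second part is at most `M B/(R-S)²` (`|ξ| > R - S`); the first integrated over `t`
(Fubini) is at most `∫ ‖kh‖ ∫_{|v| ≤ R} ‖D(v)‖ dv ≤ B ∫_{-R}^R ‖D‖`. -/
theorem PG1_conv (kh D : ℝ → ℂ) (B M S R : ℝ) (hB : 0 ≤ B) (hM : 0 ≤ M) (hS : 0 < S)
    (hSR : S < R) (hkc : Continuous kh) (hkb : ∀ ξ, ‖kh ξ‖ ≤ B / (1 + |ξ|) ^ 3)
    (hDc : Continuous D) (hDb : ∀ v, ‖D v‖ ≤ M) :
    ∫ t in (-S)..S, ‖∫ ξ : ℝ, kh ξ * D (t - ξ)‖ ≤
      B * (∫ v in (-R)..R, ‖D v‖) + 2 * S * B * M / (R - S) ^ 2 := by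
  obtain ⟨hKi, hK1, hKt⟩ := PG1_kernel
  have hkbi : Integrable (fun ξ : ℝ => B / (1 + |ξ|) ^ 3) := by
    refine (hKi.const_mul B).congr (Filter.Eventually.of_forall fun x => ?_)
    simp only
    rw [mul_one_div]
  have hki : Integrable (fun ξ => ‖kh ξ‖) := by
    refine hkbi.mono' hkc.norm.aestronglyMeasurable (Filter.Eventually.of_forall fun x => ?_)
    rw [norm_norm]
    exact hkb x
  set I : ℝ := ∫ v in (-R)..R, ‖D v‖ with hI
  have hI0 : 0 ≤ I := by
    rw [hI]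
    exact intervalIntegral.integral_nonneg (by linarith) (fun _ _ => norm_nonneg _)
  -- the function of two variables
  set F : ℝ → ℝ → ℝ := fun t ξ => ‖kh ξ‖ * ‖D (t - ξ)‖ with hF
  have hFc : Continuous (Function.uncurry F) := by
    have : Function.uncurry F = fun p : ℝ × ℝ => ‖kh p.2‖ * ‖D (p.1 - p.2)‖ := by
      funext p
      rfl
    rw [this]
    fun_prop
  have hFi : Integrable (Function.uncurry F)
      ((volume.restrict (Set.Ioc (-S) S)).prod volume) := by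
    have h1 : Integrable (fun p : ℝ × ℝ => (fun _ : ℝ => M) p.1 * (fun ξ => ‖kh ξ‖) p.2)
        ((volume.restrict (Set.Ioc (-S) S)).prod volume) :=
      Integrable.mul_prod (f := fun _ : ℝ => M) (g := fun ξ => ‖kh ξ‖) (integrable_const M) hki
    refine h1.mono' hFc.aestronglyMeasurable (Filter.Eventually.of_forall fun p => ?_)
    have hp : Function.uncurry F p = ‖kh p.2‖ * ‖D (p.1 - p.2)‖ := rfl
    rw [hp, norm_mul, norm_norm, norm_norm, mul_comm]
    exact mul_le_mul_of_nonneg_right (hDb _) (norm_nonneg _)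
  -- step 1
  have step1 : ∫ t in (-S)..S, ‖∫ ξ : ℝ, kh ξ * D (t - ξ)‖ ≤
      ∫ t in Set.Ioc (-S) S, ∫ ξ : ℝ, F t ξ := by
    rw [intervalIntegral.integral_of_le (by linarith)]
    refine integral_mono_of_nonneg (Filter.Eventually.of_forall fun t => norm_nonneg _) ?_ ?_
    · exact hFi.integral_prod_left
    · refine Filter.Eventually.of_forall fun t => ?_
      refine (norm_integral_le_integral_norm _).trans (le_of_eq ?_)
      refine integral_congr_ae (Filter.Eventually.of_forall fun ξ => ?_)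
      simp only [hF, norm_mul]
  have step2 : ∫ t in Set.Ioc (-S) S, ∫ ξ : ℝ, F t ξ =
      ∫ ξ : ℝ, ∫ t in Set.Ioc (-S) S, F t ξ := integral_integral_swap hFi
  have hm : MeasurableSet {ξ : ℝ | R - S < |ξ|} := measurableSet_lt measurable_const (by fun_prop)
  have inner : ∀ ξ : ℝ, ∫ t in Set.Ioc (-S) S, F t ξ ≤
      I * (B / (1 + |ξ|) ^ 3) + 2 * S * M * B * ({ξ : ℝ | R - S < |ξ|}).indicator (fun y : ℝ => 1 / (1 + |y|) ^ 3) ξ := by
    intro ξ
    have e1 : ∫ t in Set.Ioc (-S) S, F t ξ = ‖kh ξ‖ * ∫ t in (-S)..S, ‖D (t - ξ)‖ := by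
      rw [intervalIntegral.integral_of_le (by linarith)]
      simp only [hF]
      rw [integral_const_mul]
    rw [e1]
    have hJ0 : 0 ≤ ∫ t in (-S)..S, ‖D (t - ξ)‖ :=
      intervalIntegral.integral_nonneg (by linarith) (fun _ _ => norm_nonneg _)
    have hkξ := hkb ξ
    have hk0 : 0 ≤ B / (1 + |ξ|) ^ 3 := by positivity
    by_cases hξ : R - S < |ξ|
    · rw [Set.indicator_of_mem (by exact hξ)]
      have hJ : ∫ t in (-S)..S, ‖D (t - ξ)‖ ≤ 2 * S * M := by
        have h1 : ∫ t in (-S)..S, ‖D (t - ξ)‖ ≤ ∫ t in (-S)..S, M := by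
          refine intervalIntegral.integral_mono_on (by linarith) ?_ ?_ (fun t _ => hDb _)
          · exact Continuous.intervalIntegrable (by fun_prop) _ _
          · exact intervalIntegrable_const
        refine h1.trans (le_of_eq ?_)
        rw [intervalIntegral.integral_const, smul_eq_mul]
        ring
      have h2 : ‖kh ξ‖ * ∫ t in (-S)..S, ‖D (t - ξ)‖ ≤ B / (1 + |ξ|) ^ 3 * (2 * S * M) := by
        refine mul_le_mul hkξ hJ hJ0 hk0
      have h3 : 0 ≤ I * (B / (1 + |ξ|) ^ 3) := mul_nonneg hI0 hk0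
      have h4 : B / (1 + |ξ|) ^ 3 * (2 * S * M) = 2 * S * M * B * (1 / (1 + |ξ|) ^ 3) := by ring
      linarith
    · rw [Set.indicator_of_notMem (by exact hξ)]
      have hJ : ∫ t in (-S)..S, ‖D (t - ξ)‖ ≤ I := by
        rw [intervalIntegral.integral_comp_sub_right (fun t => ‖D t‖) ξ, hI]
        have hb := abs_le.mp (not_lt.mp hξ)
        refine intervalIntegral.integral_mono_interval (by linarith [hb.1, hb.2]) (by linarith)
          (by linarith [hb.1, hb.2]) (Filter.Eventually.of_forall fun _ => norm_nonneg _) ?_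
        exact Continuous.intervalIntegrable (by fun_prop) _ _
      have h2 : ‖kh ξ‖ * ∫ t in (-S)..S, ‖D (t - ξ)‖ ≤ B / (1 + |ξ|) ^ 3 * I :=
        mul_le_mul hkξ hJ hJ0 hk0
      have h3 : B / (1 + |ξ|) ^ 3 * I = I * (B / (1 + |ξ|) ^ 3) := by ring
      linarith
  have hind : Integrable (({ξ : ℝ | R - S < |ξ|}).indicator (fun y : ℝ => 1 / (1 + |y|) ^ 3)) :=
    hKi.indicator hm
  have step3 : ∫ ξ : ℝ, ∫ t in Set.Ioc (-S) S, F t ξ ≤
      ∫ ξ : ℝ, (I * (B / (1 + |ξ|) ^ 3) + 2 * S * M * B * ({ξ : ℝ | R - S < |ξ|}).indicator (fun y : ℝ => 1 / (1 + |y|) ^ 3) ξ) := by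
    refine integral_mono_of_nonneg (Filter.Eventually.of_forall fun ξ => ?_) ?_
      (Filter.Eventually.of_forall inner)
    · refine integral_nonneg fun t => ?_
      exact mul_nonneg (norm_nonneg _) (norm_nonneg _)
    · exact (hkbi.const_mul I).add (hind.const_mul _)
  have step4 : ∫ ξ : ℝ, (I * (B / (1 + |ξ|) ^ 3) + 2 * S * M * B * ({ξ : ℝ | R - S < |ξ|}).indicator (fun y : ℝ => 1 / (1 + |y|) ^ 3) ξ)
      ≤ B * I + 2 * S * B * M / (R - S) ^ 2 := by
    rw [integral_add (hkbi.const_mul I) (hind.const_mul _), integral_const_mul, integral_const_mul,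
      integral_indicator hm]
    have e1 : ∫ ξ : ℝ, B / (1 + |ξ|) ^ 3 = B := by
      have : (fun ξ : ℝ => B / (1 + |ξ|) ^ 3) = fun ξ => B * (1 / (1 + |ξ|) ^ 3) := by
        funext ξ
        rw [mul_one_div]
      rw [this, integral_const_mul, hK1, mul_one]
    rw [e1]
    have h2 := hKt (R - S) (by linarith)
    have h3 : 0 ≤ 2 * S * M * B := by positivity
    have h4 := mul_le_mul_of_nonneg_left h2 h3
    have h5 : 2 * S * M * B * (1 / (R - S) ^ 2) = 2 * S * B * M / (R - S) ^ 2 := by ring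
    linarith [h4, h5, mul_comm I B]
  calc _ ≤ _ := step1
    _ = _ := step2
    _ ≤ _ := step3
    _ ≤ _ := step4

end Pool.Agent.Lib.H18Q
end

-- from Lib.H59T.Defs
section

/-!
# Project H59T (MP_443e5f_co, main terms): definitions for the local estimates
-/

open Finset

namespace Pool.Agent.Lib.H59T

noncomputable section

/-- The four-point sum of `χ` over a parallelogram. -/
def U4 {q : ℕ} [NeZero q] (χ : DirichletCharacter ℂ q) (a b : ZMod q) : ℂ :=
  ∑ s : ZMod q, χ s * star (χ (s + a)) * star (χ (s + b)) * χ (s + a + b)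

/-- The additive energy of `v ↦ χ(v - α) conj χ(v - β)`. -/
def En {q : ℕ} [NeZero q] (χ : DirichletCharacter ℂ q) (α β : ZMod q) : ℝ :=
  ∑ b : ZMod q, ‖∑ v : ZMod q, (χ (v - α) * star (χ (v - β))) *
    star (χ (v + b - α) * star (χ (v + b - β)))‖ ^ 2

/-- `∑_γ χ(γ² - P) conj χ(γ² - R)` -/
def Wc {q : ℕ} [NeZero q] (χ : DirichletCharacter ℂ q) (P R : ZMod q) : ℂ :=
  ∑ γ : ZMod q, χ (γ ^ 2 - P) * star (χ (γ ^ 2 - R))

/-- The sum of Lemma G. -/
def GS {q : ℕ} [NeZero q] (χ : DirichletCharacter ℂ q) (W W' : ZMod q → ℂ) : ℝ :=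
  ∑ z1 : ZMod q, ∑ z2 : ZMod q,
    ‖∑ y : ZMod q, χ (z1 + y) * star (χ (z2 + y)) * W (z1 - y) * W' (z2 - y)‖ ^ 2

end

end Pool.Agent.Lib.H59T
end

-- from Lib.H59T.K3
section

/-!
# Project H59T, chunk K3 (M): Kloosterman's fourth moment
-/

open Finset

namespace Pool.Agent.Lib.H59T

theorem k3_sq (z : ℂ) : ((‖z‖ ^ 2 : ℝ) : ℂ) = z * star z := by
  rw [Complex.star_def, Complex.mul_conj, Complex.normSq_eq_norm_sq]

/-- Proof. Expand the square in `En`: with `g(v) = χ(v-α) star χ(v-β)` it is the sum over `b, v, v'` of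
`g(v) star g(v+b) star g(v') g(v'+b)`. Sum over `α, β`: the sum over `α` is
`A(b,v,v') = ∑_α χ(v-α) star χ(v+b-α) star χ(v'-α) χ(v'+b-α)`, the sum over `β` its conjugate, so the left side is
`∑_{b,v,v'} ‖A‖²`. Substitute `v = c + p`, `v' = c - r`, `b = r - p` (bijection, since `2` is invertible:
`c = (v + v' + b)/2`, `p = v - c`, `r = c - v'`): the arguments are `c+p-α`, `c+r-α`, `c-r-α`, `c-p-α`, and with `γ = c - α`
`A = ∑_γ χ(γ² - p²) star χ(γ² - r²) = Wc χ (p²) (r²)`. The sum over `c` gives the factor `l`. -/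
theorem K3 (l : ℕ) [Fact l.Prime] (hl : l ≠ 2) (χ : DirichletCharacter ℂ l) :
    ∑ α : ZMod l, ∑ β : ZMod l, En χ α β =
      l * ∑ p : ZMod l, ∑ r : ZMod l, ‖Wc χ (p ^ 2) (r ^ 2)‖ ^ 2 := by
  -- the four point function
  let F : ZMod l → ZMod l → ZMod l → ZMod l → ℂ := fun b v v' x =>
    χ (v - x) * star (χ (v + b - x)) * star (χ (v' - x)) * χ (v' + b - x)
  have hE : ∀ α β : ZMod l, ((En χ α β : ℝ) : ℂ) =
      ∑ b : ZMod l, ∑ v : ZMod l, ∑ v' : ZMod l, F b v v' α * star (F b v v' β) := by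
    intro α β
    unfold En
    rw [Complex.ofReal_sum]
    refine sum_congr rfl fun b _ => ?_
    rw [k3_sq, star_sum, sum_mul_sum]
    refine sum_congr rfl fun v _ => sum_congr rfl fun v' _ => ?_
    simp only [F, star_mul', star_star]
    ring
  have hA : ((∑ α : ZMod l, ∑ β : ZMod l, En χ α β : ℝ) : ℂ) =
      ∑ b : ZMod l, ∑ v : ZMod l, ∑ v' : ZMod l, ((‖∑ x : ZMod l, F b v v' x‖ ^ 2 : ℝ) : ℂ) := by
    push_cast
    have h1 : ∀ α β : ZMod l, ((En χ α β : ℝ) : ℂ) =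
        ∑ t : ZMod l × ZMod l × ZMod l, F t.1 t.2.1 t.2.2 α * star (F t.1 t.2.1 t.2.2 β) := by
      intro α β
      rw [hE, Fintype.sum_prod_type]
      exact sum_congr rfl fun b _ => by rw [Fintype.sum_prod_type]
    have h2 : ∑ b : ZMod l, ∑ v : ZMod l, ∑ v' : ZMod l, ((‖∑ x : ZMod l, F b v v' x‖ : ℂ)) ^ 2 =
        ∑ t : ZMod l × ZMod l × ZMod l, ((‖∑ x : ZMod l, F t.1 t.2.1 t.2.2 x‖ : ℂ)) ^ 2 := by
      rw [Fintype.sum_prod_type]
      exact sum_congr rfl fun b _ => by rw [Fintype.sum_prod_type]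
    rw [h2]
    simp only [h1]
    rw [sum_comm_cycle]
    refine sum_congr rfl fun t _ => ?_
    have h3 := k3_sq (∑ x : ZMod l, F t.1 t.2.1 t.2.2 x)
    push_cast at h3
    rw [h3, star_sum, sum_mul_sum]
  have h2ne : (2 : ZMod l) ≠ 0 := by
    intro h
    have h1 : ((2 : ℕ) : ZMod l) = 0 := by exact_mod_cast h
    rw [ZMod.natCast_eq_zero_iff] at h1
    have := (Nat.prime_dvd_prime_iff_eq (Fact.out : l.Prime) Nat.prime_two).1 h1
    exact hl this
  -- substitution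
  have hA' : ∀ c p r : ZMod l, ∑ x : ZMod l, F (r - p) (c + p) (c - r) x = Wc χ (p ^ 2) (r ^ 2) := by
    intro c p r
    unfold Wc
    rw [← Equiv.sum_comp (Equiv.subLeft c)]
    refine sum_congr rfl fun x _ => ?_
    simp only [F, Equiv.subLeft_apply]
    have e1 : χ (x ^ 2 - p ^ 2) = χ (c + p - (c - x)) * χ (c - r + (r - p) - (c - x)) := by
      rw [← map_mul]
      congr 1
      ring
    have e2 : χ (x ^ 2 - r ^ 2) = χ (c + p + (r - p) - (c - x)) * χ (c - r - (c - x)) := by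
      rw [← map_mul]
      congr 1
      ring
    rw [e1, e2, star_mul']
    ring
  let φ : ZMod l × ZMod l × ZMod l → ZMod l × ZMod l × ZMod l :=
    fun t => (t.2.2 - t.2.1, t.1 + t.2.1, t.1 - t.2.2)
  have hφ : Function.Bijective φ := by
    rw [← Finite.injective_iff_bijective]
    rintro ⟨c, p, r⟩ ⟨c', p', r'⟩ h
    simp only [φ, Prod.mk.injEq] at h
    obtain ⟨h1, h2, h3⟩ := h
    have h4 : 2 * (c - c') = 0 := by linear_combination h1 + h2 + h3
    have h5 : c = c' := by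
      rcases mul_eq_zero.1 h4 with h | h
      · exact absurd h h2ne
      · exact sub_eq_zero.1 h
    subst h5
    have h6 : p = p' := by linear_combination h2
    have h7 : r = r' := by linear_combination -h3
    rw [h6, h7]
  have hfin : ((∑ α : ZMod l, ∑ β : ZMod l, En χ α β : ℝ) : ℂ) =
      ((l * ∑ p : ZMod l, ∑ r : ZMod l, ‖Wc χ (p ^ 2) (r ^ 2)‖ ^ 2 : ℝ) : ℂ) := by
    rw [hA]
    have h2 : ∑ b : ZMod l, ∑ v : ZMod l, ∑ v' : ZMod l, ((‖∑ x : ZMod l, F b v v' x‖ ^ 2 : ℝ) : ℂ) =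
        ∑ t : ZMod l × ZMod l × ZMod l, ((‖∑ x : ZMod l, F t.1 t.2.1 t.2.2 x‖ ^ 2 : ℝ) : ℂ) := by
      rw [Fintype.sum_prod_type]
      exact sum_congr rfl fun b _ => by rw [Fintype.sum_prod_type]
    rw [h2, ← hφ.sum_comp]
    have h3 : ∀ t : ZMod l × ZMod l × ZMod l,
        ((‖∑ x : ZMod l, F (φ t).1 (φ t).2.1 (φ t).2.2 x‖ ^ 2 : ℝ) : ℂ) =
        ((‖Wc χ (t.2.1 ^ 2) (t.2.2 ^ 2)‖ ^ 2 : ℝ) : ℂ) := by
      intro t
      simp only [φ]
      rw [hA']
    simp only [h3]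
    rw [Fintype.sum_prod_type]
    simp only [Fintype.sum_prod_type]
    rw [sum_const, card_univ, ZMod.card, nsmul_eq_mul]
    push_cast
    rfl
  exact_mod_cast hfin

/-- Proof. Substitute `v = α + (β - α) v'`, `b = (β - α) b'`:
`χ(v - α) star χ(v - β) = ‖χ(β - α)‖² χ(v') star χ(v' - 1)`, and `‖χ(β - α)‖ = 1`. -/
theorem K3_inv (l : ℕ) [Fact l.Prime] (χ : DirichletCharacter ℂ l) (α β : ZMod l) (h : α ≠ β) :
    En χ α β = En χ 0 1 := by
  have hδ : β - α ≠ 0 := sub_ne_zero.2 h.symm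
  set δ := β - α with hδdef
  have hn : χ δ * star (χ δ) = 1 := by
    rw [← k3_sq]
    have h1 : ‖χ δ‖ = 1 := by
      have := χ.unit_norm_eq_one (Units.mk0 δ hδ)
      rwa [Units.val_mk0] at this
    rw [h1]
    norm_num
  have hg : ∀ v : ZMod l, χ (α + δ * v - α) * star (χ (α + δ * v - β)) =
      χ (v - 0) * star (χ (v - 1)) := by
    intro v
    have e1 : α + δ * v - α = δ * (v - 0) := by ring
    have e2 : α + δ * v - β = δ * (v - 1) := by
      rw [hδdef]
      ring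
    rw [e1, e2, map_mul, map_mul, star_mul']
    linear_combination (χ (v - 0) * star (χ (v - 1))) * hn
  unfold En
  rw [← Equiv.sum_comp (Equiv.mulLeft₀ δ hδ)]
  refine sum_congr rfl fun b _ => ?_
  rw [← Equiv.sum_comp ((Equiv.mulLeft₀ δ hδ).trans (Equiv.addLeft α))]
  congr 2
  refine sum_congr rfl fun v _ => ?_
  simp only [Equiv.trans_apply, Equiv.coe_addLeft, Equiv.mulLeft₀_apply]
  rw [hg]
  have e3 : α + δ * v + δ * b = α + δ * (v + b) := by ring
  rw [e3, hg]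

end Pool.Agent.Lib.H59T
end

-- from Lib.H59T.K1
section

/-!
# Project H59T, chunk K1 (S/M): correlations of a character
-/

open Finset

namespace Pool.Agent.Lib.H59T

/-- `χ t * star (χ t)` is `1` off zero. -/
private theorem k1_norm (l : ℕ) [Fact l.Prime] (χ : DirichletCharacter ℂ l) (t : ZMod l)
    (ht : t ≠ 0) : χ t * star (χ t) = 1 := by
  have h1 : ‖χ t‖ = 1 := by
    have := DirichletCharacter.unit_norm_eq_one χ (Units.mk0 t ht)
    simpa using this
  have h2 : star (χ t) = (starRingEnd ℂ) (χ t) := rfl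
  rw [h2, Complex.mul_conj, Complex.normSq_eq_norm_sq, h1]
  norm_num

/-- `star (χ t) = χ t⁻¹`. -/
private theorem k1_star (l : ℕ) [Fact l.Prime] (χ : DirichletCharacter ℂ l) (t : ZMod l) :
    star (χ t) = χ (t⁻¹) := by
  by_cases ht : t = 0
  · subst ht
    rw [inv_zero]
    have : χ (0 : ZMod l) = 0 := MulChar.map_zero χ
    rw [this, star_zero]
  · have h1 := k1_norm l χ t ht
    have h2 : χ t * χ (t⁻¹) = 1 := by
      rw [← map_mul, mul_inv_cancel₀ ht, map_one]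
    have h3 : χ t ≠ 0 := by
      intro h0
      rw [h0, zero_mul] at h2
      exact zero_ne_one h2
    exact mul_left_cancel₀ h3 (h1.trans h2.symm)

/-- Proof. `δ = 0`: `χ t star (χ t) = ‖χ t‖² = 1` for `t ≠ 0` (`DirichletCharacter.unit_norm_eq_one`), `0` for `t = 0`. `δ ≠ 0`:
for `t ≠ 0` the term is `χ (1 + δ/t)` (`star (χ t) = χ (t⁻¹)`: `MulChar.star_apply`/`MulChar.inv_apply`), `t ↦ 1 + δ/t` is a
bijection from `t ≠ 0` to the elements `≠ 1`, and `∑_u χ u = 0` (`MulChar.sum_eq_zero_of_ne_one`). -/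
theorem K1_J (l : ℕ) [Fact l.Prime] (χ : DirichletCharacter ℂ l) (hχ : χ ≠ 1) (δ : ZMod l) :
    ∑ t : ZMod l, χ (t + δ) * star (χ t) = if δ = 0 then (l : ℂ) - 1 else -1 := by
  have h0 : χ (0 : ZMod l) = 0 := MulChar.map_zero χ
  by_cases hδ : δ = 0
  · subst hδ
    rw [if_pos rfl]
    have h1 : ∀ t : ZMod l, χ (t + 0) * star (χ t) = 1 - (if t = 0 then (1 : ℂ) else 0) := by
      intro t
      rw [add_zero]
      by_cases ht : t = 0
      · subst ht
        rw [h0, if_pos rfl]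
        simp
      · rw [if_neg ht, k1_norm l χ t ht, sub_zero]
    rw [Finset.sum_congr rfl (fun t _ => h1 t), Finset.sum_sub_distrib, Finset.sum_ite_eq']
    simp [ZMod.card]
  · rw [if_neg hδ]
    have h1 : ∀ t : ZMod l, χ (t + δ) * star (χ t)
        = χ (1 + δ * t⁻¹) - (if t = 0 then (1 : ℂ) else 0) := by
      intro t
      rw [k1_star]
      by_cases ht : t = 0
      · subst ht
        rw [inv_zero, h0, if_pos rfl, mul_zero, mul_zero, add_zero, map_one, sub_self]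
      · rw [if_neg ht, sub_zero, ← map_mul, add_mul, mul_inv_cancel₀ ht]
    rw [Finset.sum_congr rfl (fun t _ => h1 t), Finset.sum_sub_distrib, Finset.sum_ite_eq']
    have h2 : ∑ t : ZMod l, χ (1 + δ * t⁻¹) = ∑ u : ZMod l, χ u := by
      refine Fintype.sum_equiv
        ((Equiv.inv (ZMod l)).trans ((Equiv.mulLeft₀ δ hδ).trans (Equiv.addLeft (1 : ZMod l))))
        _ _ (fun t => ?_)
      simp
    rw [h2, MulChar.sum_eq_zero_of_ne_one hχ]
    simp

/-- Proof. For each `γ` at most two `γ'` (`γ' = γ` or `γ' = -γ`). -/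
theorem K1_sq (l : ℕ) [Fact l.Prime] :
    ((univ : Finset (ZMod l × ZMod l)).filter (fun x => x.1 ^ 2 = x.2 ^ 2)).card ≤ 2 * l := by
  have h1 : ((univ : Finset (ZMod l × ZMod l)).filter (fun x => x.1 ^ 2 = x.2 ^ 2))
      ⊆ ((univ : Finset (ZMod l)).image (fun γ => (γ, γ)))
        ∪ ((univ : Finset (ZMod l)).image (fun γ => (γ, -γ))) := by
    intro x hx
    rw [Finset.mem_filter] at hx
    rw [Finset.mem_union, Finset.mem_image, Finset.mem_image]
    rcases sq_eq_sq_iff_eq_or_eq_neg.mp hx.2 with h | h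
    · left
      exact ⟨x.1, Finset.mem_univ _, Prod.ext rfl h⟩
    · right
      refine ⟨x.1, Finset.mem_univ _, Prod.ext rfl ?_⟩
      show -x.1 = x.2
      rw [h, neg_neg]
  calc _ ≤ _ := Finset.card_le_card h1
    _ ≤ _ := Finset.card_union_le _ _
    _ ≤ l + l := by
        refine add_le_add ?_ ?_
        · refine Finset.card_image_le.trans ?_
          simp [ZMod.card]
        · refine Finset.card_image_le.trans ?_
          simp [ZMod.card]
    _ = 2 * l := by ring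

end Pool.Agent.Lib.H59T
end

-- from Lib.H59T.K2
section

/-!
# Project H59T, chunk K2 (M): the second moment
-/

open Finset

namespace Pool.Agent.Lib.H59T

theorem k2_sq (z : ℂ) : ((‖z‖ ^ 2 : ℝ) : ℂ) = z * star z := by
  rw [Complex.star_def, Complex.mul_conj, Complex.normSq_eq_norm_sq]

/-- Proof. Expand the square and exchange the sums: the sum over `P` of `χ(γ² - P) star χ(γ'² - P)` is
`J(γ² - γ'²)`, `J(δ) = ∑_t χ(t + δ) star χ(t)` (substitute `t = γ'² - P`), the sum over `R` is its conjugate. So the left side is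
`∑_{γ,γ'} ‖J(γ² - γ'²)‖²`, at most `2 l (l-1)² + l²` (`K1_J`, `K1_sq`; at most `2l` pairs with `J = l - 1`, the others
have `|J| = 1`), and `2 l (l-1)² + l² ≤ 2 l³`. -/
theorem K2 (l : ℕ) [Fact l.Prime] (χ : DirichletCharacter ℂ l) (hχ : χ ≠ 1) :
    ∑ P : ZMod l, ∑ R : ZMod l, ‖Wc χ P R‖ ^ 2 ≤ 2 * (l : ℝ) ^ 3 := by
  have hl2 : 2 ≤ l := (Fact.out : l.Prime).two_le
  have hlr : (2 : ℝ) ≤ l := by exact_mod_cast hl2
  let G : ZMod l → ZMod l → ZMod l → ℂ := fun γ γ' P => χ (γ ^ 2 - P) * star (χ (γ' ^ 2 - P))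
  have hJ : ∀ γ γ' : ZMod l, ∑ P : ZMod l, G γ γ' P =
      if γ ^ 2 = γ' ^ 2 then (l : ℂ) - 1 else -1 := by
    intro γ γ'
    rw [← Equiv.sum_comp (Equiv.subLeft (γ' ^ 2))]
    have h1 := K1_J l χ hχ (γ ^ 2 - γ' ^ 2)
    have h2 : ∑ t : ZMod l, G γ γ' (Equiv.subLeft (γ' ^ 2) t) =
        ∑ t : ZMod l, χ (t + (γ ^ 2 - γ' ^ 2)) * star (χ t) := by
      refine sum_congr rfl fun t _ => ?_
      simp only [G, Equiv.subLeft_apply]
      have e1 : γ ^ 2 - (γ' ^ 2 - t) = t + (γ ^ 2 - γ' ^ 2) := by ring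
      have e2 : γ' ^ 2 - (γ' ^ 2 - t) = t := by ring
      rw [e1, e2]
    rw [h2, h1]
    simp only [sub_eq_zero]
  have hA : ((∑ P : ZMod l, ∑ R : ZMod l, ‖Wc χ P R‖ ^ 2 : ℝ) : ℂ) =
      ((∑ x : ZMod l × ZMod l, ‖∑ P : ZMod l, G x.1 x.2 P‖ ^ 2 : ℝ) : ℂ) := by
    have h1 : ∀ P R : ZMod l, ((‖Wc χ P R‖ ^ 2 : ℝ) : ℂ) =
        ∑ x : ZMod l × ZMod l, G x.1 x.2 P * star (G x.1 x.2 R) := by
      intro P R
      rw [k2_sq]
      unfold Wc
      rw [star_sum, sum_mul_sum, Fintype.sum_prod_type]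
      refine sum_congr rfl fun γ _ => sum_congr rfl fun γ' _ => ?_
      simp only [G, star_mul', star_star]
      ring
    rw [Complex.ofReal_sum, Complex.ofReal_sum]
    have h2 : ∀ P : ZMod l, ((∑ R : ZMod l, ‖Wc χ P R‖ ^ 2 : ℝ) : ℂ) =
        ∑ R : ZMod l, ∑ x : ZMod l × ZMod l, G x.1 x.2 P * star (G x.1 x.2 R) := by
      intro P
      rw [Complex.ofReal_sum]
      exact sum_congr rfl fun R _ => h1 P R
    simp only [h2]
    rw [sum_comm_cycle]
    refine sum_congr rfl fun x _ => ?_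
    rw [k2_sq, star_sum, sum_mul_sum]
  have hB : ∑ P : ZMod l, ∑ R : ZMod l, ‖Wc χ P R‖ ^ 2 =
      ∑ x : ZMod l × ZMod l, ‖∑ P : ZMod l, G x.1 x.2 P‖ ^ 2 := by exact_mod_cast hA
  rw [hB]
  have hpt : ∀ x : ZMod l × ZMod l, ‖∑ P : ZMod l, G x.1 x.2 P‖ ^ 2 ≤
      (if x.1 ^ 2 = x.2 ^ 2 then ((l : ℝ) - 1) ^ 2 else 0) + 1 := by
    intro x
    rw [hJ]
    split_ifs with h
    · have h3 : ((l : ℂ) - 1) = (((l : ℝ) - 1 : ℝ) : ℂ) := by push_cast; rfl
      rw [h3, Complex.norm_real, Real.norm_eq_abs, sq_abs]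
      linarith
    · rw [norm_neg, norm_one]
      norm_num
  refine (sum_le_sum fun x _ => hpt x).trans ?_
  rw [sum_add_distrib, ← sum_filter, sum_const, sum_const, nsmul_eq_mul, nsmul_eq_mul, mul_one,
    card_univ, Fintype.card_prod, ZMod.card]
  have h4 : ((((univ : Finset (ZMod l × ZMod l)).filter (fun x => x.1 ^ 2 = x.2 ^ 2)).card : ℕ) : ℝ) ≤
      2 * l := by exact_mod_cast K1_sq l
  have h5 : 0 ≤ ((l : ℝ) - 1) ^ 2 := sq_nonneg _
  push_cast
  nlinarith [mul_le_mul_of_nonneg_right h4 h5]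

theorem k2_fib (l : ℕ) [Fact l.Prime] (f : ZMod l → ℝ) (hf : ∀ x, 0 ≤ f x) :
    ∑ p : ZMod l, f (p ^ 2) ≤ 2 * ∑ P : ZMod l, f P := by
  classical
  rw [← sum_fiberwise_of_maps_to (g := fun p : ZMod l => p ^ 2) (t := univ) (fun _ _ => mem_univ _),
    mul_sum]
  refine sum_le_sum fun P _ => ?_
  have h1 : ∀ p ∈ (univ : Finset (ZMod l)).filter (fun p => p ^ 2 = P), f (p ^ 2) = f P := by
    intro p hp
    rw [(mem_filter.1 hp).2]
  rw [sum_congr rfl h1, sum_const, nsmul_eq_mul]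
  refine mul_le_mul_of_nonneg_right ?_ (hf P)
  have h2 : ((univ : Finset (ZMod l)).filter (fun p => p ^ 2 = P)).card ≤ 2 := by
    by_cases hex : ∃ q : ZMod l, q ^ 2 = P
    · obtain ⟨q, hq⟩ := hex
      refine (card_le_card (t := {q, -q}) ?_).trans card_le_two
      intro p hp
      have h3 := (mem_filter.1 hp).2
      rw [← hq] at h3
      rw [mem_insert, mem_singleton]
      exact sq_eq_sq_iff_eq_or_eq_neg.1 h3
    · push Not at hex
      have h4 : (univ : Finset (ZMod l)).filter (fun p => p ^ 2 = P) = ∅ := by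
        rw [filter_eq_empty_iff]
        exact fun q _ => hex q
      rw [h4, card_empty]
      omega
  exact_mod_cast h2

/-- Proof. The map `(p, r) ↦ (p², r²)` has fibres with at most four elements. -/
theorem K2_sq (l : ℕ) [Fact l.Prime] (χ : DirichletCharacter ℂ l) (hχ : χ ≠ 1) :
    ∑ p : ZMod l, ∑ r : ZMod l, ‖Wc χ (p ^ 2) (r ^ 2)‖ ^ 2 ≤ 8 * (l : ℝ) ^ 3 := by
  have h1 : ∀ P : ZMod l, ∑ r : ZMod l, ‖Wc χ P (r ^ 2)‖ ^ 2 ≤ 2 * ∑ R : ZMod l, ‖Wc χ P R‖ ^ 2 :=
    fun P => k2_fib l (fun R => ‖Wc χ P R‖ ^ 2) (fun _ => by positivity)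
  calc ∑ p : ZMod l, ∑ r : ZMod l, ‖Wc χ (p ^ 2) (r ^ 2)‖ ^ 2
      ≤ ∑ p : ZMod l, 2 * ∑ R : ZMod l, ‖Wc χ (p ^ 2) R‖ ^ 2 := sum_le_sum fun p _ => h1 _
    _ ≤ 2 * ∑ P : ZMod l, 2 * ∑ R : ZMod l, ‖Wc χ P R‖ ^ 2 :=
        k2_fib l (fun P => 2 * ∑ R : ZMod l, ‖Wc χ P R‖ ^ 2)
          (fun _ => mul_nonneg zero_le_two (sum_nonneg fun _ _ => by positivity))
    _ = 4 * ∑ P : ZMod l, ∑ R : ZMod l, ‖Wc χ P R‖ ^ 2 := by
        rw [← mul_sum]
        ring
    _ ≤ 8 * (l : ℝ) ^ 3 := by linarith [K2 l χ hχ]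

end Pool.Agent.Lib.H59T
end
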