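import Mathlib

/-! Merged copies (to shorten the build) of Lib.H21AP.DivisorBound, Lib.H59.MertensLower, Lib.H59.SieveMain, Lib.Helper57.Bonferroni, Lib.Helper57.Transfer, Lib.Helper57.Count, Lib.Helper57.PrimeSums, Lib.Helper57.Sieve. -/

-- from Lib.H21AP.DivisorBound
section

/-!
# The divisor bound
-/

namespace Pool.Agent.Lib.H21AP

open Finset

theorem succ_le_pow {ε : ℝ} (hε : 0 < ε) {p : ℕ} (hp : 2 ≤ p) (a : ℕ) :
    ((a : ℝ) + 1) ≤ (1 + 1 / (ε * Real.log 2)) * (((p ^ a : ℕ) : ℝ) ^ ε) := by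
  have hl : 0 < Real.log 2 := Real.log_pos (by norm_num)
  have hel : 0 < ε * Real.log 2 := by positivity
  have h1 : (1 : ℝ) + a * (ε * Real.log 2) ≤ ((p ^ a : ℕ) : ℝ) ^ ε := by
    have h2 : ((2 : ℝ) ^ a) ^ ε ≤ ((p ^ a : ℕ) : ℝ) ^ ε := by
      apply Real.rpow_le_rpow (by positivity) _ hε.le
      push_cast
      exact pow_le_pow_left₀ (by norm_num) (by exact_mod_cast hp) a
    have h3 : ((2 : ℝ) ^ a) ^ ε = Real.exp (a * (ε * Real.log 2)) := by
      rw [← Real.rpow_natCast, ← Real.rpow_mul (by norm_num), Real.rpow_def_of_pos (by norm_num)]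
      congr 1
      ring
    have h4 := Real.add_one_le_exp ((a : ℝ) * (ε * Real.log 2))
    rw [← h3] at h4
    linarith
  have h5 : (1 + 1 / (ε * Real.log 2)) * (1 + a * (ε * Real.log 2)) =
      a + 1 + (a * (ε * Real.log 2) + 1 / (ε * Real.log 2)) := by
    field_simp
    ring
  have h6 : 0 ≤ (a : ℝ) * (ε * Real.log 2) + 1 / (ε * Real.log 2) := by positivity
  have h7 : (1 + 1 / (ε * Real.log 2)) * (1 + a * (ε * Real.log 2)) ≤
      (1 + 1 / (ε * Real.log 2)) * (((p ^ a : ℕ) : ℝ) ^ ε) :=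
    mul_le_mul_of_nonneg_left h1 (by positivity)
  linarith

theorem succ_le_pow_of_large {ε : ℝ} (hε : 0 < ε) {p : ℕ} (hp : (2 : ℝ) ^ (1 / ε) ≤ p) (a : ℕ) :
    ((a : ℝ) + 1) ≤ ((p ^ a : ℕ) : ℝ) ^ ε := by
  have h1 : (2 : ℝ) ≤ (p : ℝ) ^ ε := by
    have h2 : ((2 : ℝ) ^ (1 / ε)) ^ ε ≤ (p : ℝ) ^ ε :=
      Real.rpow_le_rpow (by positivity) hp hε.le
    rw [← Real.rpow_mul (by norm_num), one_div, inv_mul_cancel₀ hε.ne', Real.rpow_one] at h2
    exact h2
  have h3 : ((p ^ a : ℕ) : ℝ) ^ ε = ((p : ℝ) ^ ε) ^ a := by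
    push_cast
    rw [← Real.rpow_natCast, ← Real.rpow_mul (Nat.cast_nonneg p), ← Real.rpow_natCast,
      ← Real.rpow_mul (Nat.cast_nonneg p), mul_comm]
  rw [h3]
  have h4 : (2 : ℝ) ^ a ≤ ((p : ℝ) ^ ε) ^ a := pow_le_pow_left₀ (by norm_num) h1 a
  have h5 : ((a : ℝ) + 1) ≤ (2 : ℝ) ^ a := by
    have h6 : a + 1 ≤ 2 ^ a := Nat.lt_two_pow_self
    exact_mod_cast h6
  exact h5.trans h4

/-- For every `ε > 0` there is a constant `C` such that every positive integer `n` has at most
`C n ^ ε` divisors. -/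
theorem divisor_bound {ε : ℝ} (hε : 0 < ε) : ∃ C : ℝ, 0 < C ∧ ∀ n : ℕ, 1 ≤ n →
    (n.divisors.card : ℝ) ≤ C * (n : ℝ) ^ ε := by
  obtain ⟨K, hK⟩ : ∃ K : ℝ, K = 1 + 1 / (ε * Real.log 2) := ⟨_, rfl⟩
  have hl : 0 < Real.log 2 := Real.log_pos (by norm_num)
  have hK1 : 1 ≤ K := by
    rw [hK]
    have : 0 < 1 / (ε * Real.log 2) := by positivity
    linarith
  obtain ⟨P, hP⟩ : ∃ P : ℕ, P = ⌈(2 : ℝ) ^ (1 / ε)⌉₊ := ⟨_, rfl⟩
  refine ⟨K ^ P, by positivity, ?_⟩
  intro n hn
  have hn0 : n ≠ 0 := by omega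
  rw [Nat.card_divisors hn0]
  push_cast
  have h1 : ∀ p ∈ n.primeFactors, ((n.factorization p : ℝ) + 1) ≤
      (if p < P then K else 1) * (((p ^ n.factorization p : ℕ) : ℝ) ^ ε) := by
    intro p hp
    have hpp := Nat.prime_of_mem_primeFactors hp
    split_ifs with h
    · rw [hK]
      exact succ_le_pow hε hpp.two_le _
    · rw [one_mul]
      apply succ_le_pow_of_large hε
      have h2 : (2 : ℝ) ^ (1 / ε) ≤ P := by
        rw [hP]
        exact Nat.le_ceil _
      have h3 : (P : ℝ) ≤ p := by exact_mod_cast not_lt.1 h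
      linarith
  have h2 : ∏ p ∈ n.primeFactors, ((n.factorization p : ℝ) + 1) ≤
      ∏ p ∈ n.primeFactors, ((if p < P then K else 1) *
        (((p ^ n.factorization p : ℕ) : ℝ) ^ ε)) :=
    prod_le_prod (fun p _ => by positivity) h1
  refine h2.trans ?_
  rw [prod_mul_distrib]
  have h3 : ∏ p ∈ n.primeFactors, (((p ^ n.factorization p : ℕ) : ℝ) ^ ε) = (n : ℝ) ^ ε := by
    rw [Real.finsetProd_rpow _ _ (fun p _ => Nat.cast_nonneg _)]
    congr 1
    have h4 : n.factorization.prod (fun p a => p ^ a) = n := Nat.prod_factorization_pow_eq_self hn0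
    rw [Finsupp.prod, Nat.support_factorization] at h4
    conv_rhs => rw [← h4]
    push_cast
    rfl
  rw [h3]
  apply mul_le_mul_of_nonneg_right _ (by positivity)
  have h4 : ∏ p ∈ n.primeFactors, (if p < P then K else 1) =
      K ^ (n.primeFactors.filter fun p => p < P).card := by
    rw [prod_ite, prod_const, prod_const_one, mul_one]
  rw [h4]
  apply pow_le_pow_right₀ hK1
  calc (n.primeFactors.filter fun p => p < P).card ≤ (range P).card := by
        apply card_le_card
        intro p hp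
        rw [mem_filter] at hp
        exact mem_range.2 hp.2
    _ = P := card_range P

end Pool.Agent.Lib.H21AP
end

-- from Lib.H59.MertensLower
section

/-!
# Lower bound in Mertens' product theorem

-/

open Finset

noncomputable section

namespace Pool.Agent.Lib.H59

theorem log_le_prod_inv {z : ℕ} (hz : 1 ≤ z) :
    Real.log z ≤ ∏ p ∈ Nat.primesBelow z, (1 - (p : ℝ)⁻¹)⁻¹ := by
  classical
  set f : ℕ →* ℝ :=
    { toFun := fun n => (n : ℝ)⁻¹
      map_one' := by simp
      map_mul' := fun a b => by push_cast; rw [mul_inv] } with hf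
  have hfa : ∀ n : ℕ, f n = (n : ℝ)⁻¹ := fun n => rfl
  have hlt : ∀ {p : ℕ}, p.Prime → ‖f p‖ < 1 := by
    intro p hp
    rw [hfa, norm_inv, Real.norm_natCast]
    have : (1 : ℝ) < p := by exact_mod_cast hp.one_lt
    exact inv_lt_one_of_one_lt₀ this
  obtain ⟨hsum, hhas⟩ :=
    EulerProduct.summable_and_hasSum_smoothNumbers_prod_primesBelow_geometric (f := f) hlt z
  have hprod : ∏ p ∈ Nat.primesBelow z, (1 - f p)⁻¹ =
      ∏ p ∈ Nat.primesBelow z, (1 - (p : ℝ)⁻¹)⁻¹ := rfl
  rw [← hprod]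
  -- lower bound by the harmonic sum
  have hmem : ∀ i ∈ range (z - 1), i + 1 ∈ Nat.smoothNumbers z := by
    intro i hi
    rw [mem_range] at hi
    rw [Nat.mem_smoothNumbers]
    refine ⟨by omega, fun p hp => ?_⟩
    have := Nat.le_of_mem_primeFactorsList hp
    omega
  let e : (range (z - 1)) ↪ Nat.smoothNumbers z :=
    ⟨fun i => ⟨i.1 + 1, hmem i.1 i.2⟩, fun a b hab => by
      have := congrArg Subtype.val hab
      exact Subtype.ext (by simpa using this)⟩
  have h1 : ∑ m ∈ (range (z - 1)).attach.map e, f m ≤ ∏ p ∈ Nat.primesBelow z, (1 - f p)⁻¹ :=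
    sum_le_hasSum _ (fun m _ => by rw [hfa]; positivity) hhas
  rw [sum_map] at h1
  have h2 : ∑ x ∈ (range (z - 1)).attach, f (e x) = ∑ i ∈ range (z - 1), ((i : ℝ) + 1)⁻¹ := by
    rw [← sum_attach (range (z - 1)) (fun i => ((i : ℝ) + 1)⁻¹)]
    refine sum_congr rfl fun x _ => ?_
    change (((x : ℕ) + 1 : ℕ) : ℝ)⁻¹ = _
    push_cast
    rfl
  rw [h2] at h1
  refine le_trans ?_ h1
  have h3 := log_add_one_le_harmonic (z - 1)
  have h4 : ((harmonic (z - 1) : ℚ) : ℝ) = ∑ i ∈ range (z - 1), ((i : ℝ) + 1)⁻¹ := by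
    unfold harmonic
    push_cast
    rfl
  rw [h4] at h3
  have h5 : z - 1 + 1 = z := by omega
  rw [h5] at h3
  exact h3

theorem prod_one_sub_inv_le {z : ℕ} (hz : 2 ≤ z) :
    ∏ p ∈ Nat.primesBelow z, (1 - (p : ℝ)⁻¹) ≤ 1 / Real.log z := by
  have h := log_le_prod_inv (z := z) (by omega)
  have hlog : 0 < Real.log z := Real.log_pos (by exact_mod_cast (by omega : 1 < z))
  rw [prod_inv_distrib] at h
  have hpos : 0 < ∏ p ∈ Nat.primesBelow z, (1 - (p : ℝ)⁻¹) := by
    refine prod_pos fun p hp => ?_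
    have hp' := Nat.prime_of_mem_primesBelow hp
    have : (1 : ℝ) < p := by exact_mod_cast hp'.one_lt
    have := inv_lt_one_of_one_lt₀ this
    linarith
  rw [le_div_iff₀ hlog]
  calc (∏ p ∈ Nat.primesBelow z, (1 - (p : ℝ)⁻¹)) * Real.log z
      ≤ (∏ p ∈ Nat.primesBelow z, (1 - (p : ℝ)⁻¹)) *
        (∏ p ∈ Nat.primesBelow z, (1 - (p : ℝ)⁻¹))⁻¹ := by gcongr
    _ = 1 := mul_inv_cancel₀ hpos.ne'

end Pool.Agent.Lib.H59
end
end

-- from Lib.H59.SieveMain
section

/-!
# The Selberg upper bound sieve with a trivially bounded error term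

-/

open Finset ArithmeticFunction
open scoped ArithmeticFunction.Moebius ArithmeticFunction.zeta

noncomputable section

namespace Pool.Agent.Lib.H59

theorem sum_moebius_divisors (k : ℕ) : ∑ e ∈ k.divisors, μ e = if k = 1 then 1 else 0 := by
  have h := congrArg (fun f : ArithmeticFunction ℤ => f k) coe_zeta_mul_moebius
  simp only [coe_zeta_mul_apply, one_apply] at h
  exact h

/-- Moebius sum over the multiples of `l`. -/
theorem sum_moebius_multiples {m l : ℕ} (hm : Squarefree m) (hl : l ∣ m) :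
    ∑ d ∈ m.divisors, (if l ∣ d then μ d else 0) = if l = m then μ l else 0 := by
  obtain ⟨k, rfl⟩ := hl
  have hcop := Nat.coprime_of_squarefree_mul hm
  have hl0 : l ≠ 0 := by rintro rfl; simp at hm
  have hk0 : k ≠ 0 := by rintro rfl; simp at hm
  have h1 : ∑ d ∈ (l * k).divisors with l ∣ d, μ d = ∑ e ∈ k.divisors, μ (l * e) := by
    symm
    refine sum_bij (fun e _ => l * e) ?_ ?_ ?_ ?_
    · intro e he
      rw [Nat.mem_divisors] at he
      rw [mem_filter, Nat.mem_divisors]
      exact ⟨⟨Nat.mul_dvd_mul_left l he.1, mul_ne_zero hl0 hk0⟩, dvd_mul_right _ _⟩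
    · intro a _ b _ hab
      exact Nat.eq_of_mul_eq_mul_left (Nat.pos_of_ne_zero hl0) hab
    · intro d hd
      rw [mem_filter, Nat.mem_divisors] at hd
      obtain ⟨⟨hd1, _⟩, e, rfl⟩ := hd
      refine ⟨e, ?_, rfl⟩
      rw [Nat.mem_divisors]
      exact ⟨Nat.dvd_of_mul_dvd_mul_left (Nat.pos_of_ne_zero hl0) hd1, hk0⟩
    · intro e _
      rfl
  rw [← sum_filter, h1]
  have h2 : ∀ e ∈ k.divisors, μ (l * e) = μ l * μ e := by
    intro e he
    have : l.Coprime e := Nat.Coprime.coprime_dvd_right (Nat.dvd_of_mem_divisors he) hcop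
    exact isMultiplicative_moebius.map_mul_of_coprime this
  rw [sum_congr rfl h2, ← mul_sum, sum_moebius_divisors]
  by_cases hk : k = 1
  · simp [hk]
  · have : l ≠ l * k := by
      intro h
      apply hk
      have h' : l * 1 = l * k := by rw [mul_one]; exact h
      exact (Nat.eq_of_mul_eq_mul_left (Nat.pos_of_ne_zero hl0) h').symm
    simp [hk, this]

variable (s : BoundingSieve) (R : ℝ)

/-- The divisors up to the level. -/
def lvl : Finset ℕ := (Nat.divisors s.prodPrimes).filter fun l => (l : ℝ) ≤ R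

/-- The Selberg sum. -/
def selS : ℝ := ∑ l ∈ lvl s R, s.selbergTerms l

/-- The Selberg weights. -/
def selW (d : ℕ) : ℝ :=
  (s.nu d)⁻¹ * (μ d : ℝ) * ((∑ l ∈ lvl s R, if d ∣ l then s.selbergTerms l else 0) / selS s R)

variable {s R}

theorem mem_lvl {l : ℕ} : l ∈ lvl s R ↔ l ∣ s.prodPrimes ∧ (l : ℝ) ≤ R := by
  unfold lvl
  rw [mem_filter, Nat.mem_divisors]
  constructor
  · rintro ⟨⟨h1, _⟩, h2⟩; exact ⟨h1, h2⟩
  · rintro ⟨h1, h2⟩; exact ⟨⟨h1, BoundingSieve.prodPrimes_ne_zero⟩, h2⟩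

theorem selbergTerms_nonneg_of_mem {l : ℕ} (hl : l ∈ lvl s R) : 0 ≤ s.selbergTerms l :=
  (BoundingSieve.selbergTerms_pos (mem_lvl.mp hl).1).le

theorem one_mem_lvl (hR : 1 ≤ R) : 1 ∈ lvl s R := mem_lvl.mpr ⟨one_dvd _, by simpa using hR⟩

theorem one_le_selS (hR : 1 ≤ R) : 1 ≤ selS s R := by
  unfold selS
  have h := single_le_sum (f := fun l => s.selbergTerms l)
    (fun l hl => selbergTerms_nonneg_of_mem hl) (one_mem_lvl (s := s) hR)
  have h1 : s.selbergTerms 1 = 1 := BoundingSieve.selbergTerms_isMultiplicative.map_one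
  simpa [h1] using h

theorem selW_one (hR : 1 ≤ R) : selW s R 1 = 1 := by
  have h := one_le_selS (s := s) hR
  unfold selW
  have h1 : s.nu 1 = 1 := s.nu_mult.map_one
  rw [h1]
  simp only [one_dvd, if_true, moebius_apply_one, Int.cast_one, inv_one, one_mul]
  change selS s R / selS s R = 1
  exact div_self (by linarith)

/-- The inverted relation. -/
theorem sum_nu_selW {l : ℕ} (hl : l ∣ s.prodPrimes) :
    ∑ d ∈ Nat.divisors s.prodPrimes, (if l ∣ d then s.nu d * selW s R d else 0) =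
      if l ∈ lvl s R then (μ l : ℝ) * s.selbergTerms l / selS s R else 0 := by
  have h1 : ∀ d ∈ Nat.divisors s.prodPrimes, (if l ∣ d then s.nu d * selW s R d else 0) =
      ∑ m ∈ lvl s R, (if d ∣ m then (if l ∣ d then (μ d : ℝ) else 0) else 0) *
        (s.selbergTerms m / selS s R) := by
    intro d hd
    have hd' := Nat.dvd_of_mem_divisors hd
    have hnu := BoundingSieve.nu_ne_zero hd'
    split_ifs with h
    · unfold selW
      rw [← mul_assoc, ← mul_assoc, mul_inv_cancel₀ hnu, one_mul, sum_div, mul_sum]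
      refine sum_congr rfl fun m _ => ?_
      split_ifs <;> simp
    · simp
  rw [sum_congr rfl h1, sum_comm]
  have h2 : ∀ m ∈ lvl s R, ∑ d ∈ Nat.divisors s.prodPrimes,
      (if d ∣ m then (if l ∣ d then (μ d : ℝ) else 0) else 0) * (s.selbergTerms m / selS s R) =
      if l = m then (μ l : ℝ) * s.selbergTerms m / selS s R else 0 := by
    intro m hm
    have hmP := (mem_lvl.mp hm).1
    rw [← sum_mul, ← sum_filter, Nat.divisors_filter_dvd_of_dvd BoundingSieve.prodPrimes_ne_zero hmP]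
    by_cases hlm : l ∣ m
    · have h3 := sum_moebius_multiples (BoundingSieve.squarefree_of_dvd_prodPrimes hmP) hlm
      have h4 : ∑ d ∈ m.divisors, (if l ∣ d then (μ d : ℝ) else 0) =
          if l = m then (μ l : ℝ) else 0 := by
        exact_mod_cast congrArg (fun z : ℤ => (z : ℝ)) h3
      rw [h4]
      split_ifs <;> ring
    · have h5 : l ≠ m := by rintro rfl; exact hlm dvd_rfl
      rw [if_neg h5]
      have h6 : ∑ d ∈ m.divisors, (if l ∣ d then (μ d : ℝ) else 0) = 0 := by
        refine sum_eq_zero fun d hd => ?_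
        rw [if_neg]
        intro h
        exact hlm (h.trans (Nat.dvd_of_mem_divisors hd))
      rw [h6, zero_mul]
  rw [sum_congr rfl h2, sum_ite_eq]

theorem mainSum_selW (hR : 1 ≤ R) :
    s.mainSum (BoundingSieve.lambdaSquared (selW s R)) = 1 / selS s R := by
  have hS := one_le_selS (s := s) hR
  rw [BoundingSieve.mainSum_lambdaSquared_eq_sum_mul_sum_sq]
  have h1 : ∀ l ∈ Nat.divisors s.prodPrimes, (s.selbergTerms l)⁻¹ *
      (∑ d ∈ Nat.divisors s.prodPrimes, if l ∣ d then s.nu d * selW s R d else 0) ^ 2 =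
      if (l : ℝ) ≤ R then s.selbergTerms l / selS s R ^ 2 else 0 := by
    intro l hl
    have hlP := Nat.dvd_of_mem_divisors hl
    rw [sum_nu_selW hlP]
    have hg := BoundingSieve.selbergTerms_pos hlP
    by_cases h : (l : ℝ) ≤ R
    · rw [if_pos (mem_lvl.mpr ⟨hlP, h⟩), if_pos h]
      have h2 : ((μ l : ℝ)) ^ 2 = 1 := by
        exact_mod_cast moebius_sq_eq_one_of_squarefree
          (BoundingSieve.squarefree_of_dvd_prodPrimes hlP)
      rw [div_pow, mul_pow, h2]
      field_simp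
    · rw [if_neg (fun hh => h (mem_lvl.mp hh).2), if_neg h]
      simp
  rw [sum_congr rfl h1, ← sum_filter]
  change ∑ l ∈ lvl s R, s.selbergTerms l / selS s R ^ 2 = 1 / selS s R
  rw [← sum_div]
  change selS s R / selS s R ^ 2 = 1 / selS s R
  field_simp

theorem abs_selW_le (hR : 1 ≤ R) {d : ℕ} (hd : d ∣ s.prodPrimes) :
    |selW s R d| ≤ ∏ p ∈ d.primeFactors, (1 - s.nu p)⁻¹ := by
  have hS := one_le_selS (s := s) hR
  have hnu := BoundingSieve.nu_pos_of_dvd_prodPrimes hd
  have hd0 : 0 < d := Nat.pos_of_ne_zero (ne_zero_of_dvd_ne_zero BoundingSieve.prodPrimes_ne_zero hd)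
  have hg := BoundingSieve.selbergTerms_pos hd
  -- the inner sum
  have h1 : ∑ l ∈ lvl s R, (if d ∣ l then s.selbergTerms l else 0) ≤
      s.selbergTerms d * selS s R := by
    rw [← sum_filter]
    have h2 : ∀ l ∈ (lvl s R).filter (d ∣ ·), s.selbergTerms l =
        s.selbergTerms d * s.selbergTerms (l / d) := by
      intro l hl
      rw [mem_filter, mem_lvl] at hl
      obtain ⟨⟨hlP, _⟩, k, rfl⟩ := hl
      rw [Nat.mul_div_cancel_left _ hd0]
      exact BoundingSieve.selbergTerms_isMultiplicative.map_mul_of_coprime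
        (Nat.coprime_of_squarefree_mul (BoundingSieve.squarefree_of_dvd_prodPrimes hlP))
    rw [sum_congr rfl h2, ← mul_sum]
    refine mul_le_mul_of_nonneg_left ?_ hg.le
    have h3 : ∑ l ∈ (lvl s R).filter (d ∣ ·), s.selbergTerms (l / d) =
        ∑ k ∈ ((lvl s R).filter (d ∣ ·)).image (· / d), s.selbergTerms k := by
      rw [sum_image]
      intro a ha b hb hab
      rw [mem_coe, mem_filter] at ha hb
      obtain ⟨_, k, rfl⟩ := ha
      obtain ⟨_, k', rfl⟩ := hb
      simp only [Nat.mul_div_cancel_left _ hd0] at hab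
      rw [hab]
    rw [h3]
    refine sum_le_sum_of_subset_of_nonneg ?_ fun l hl _ => selbergTerms_nonneg_of_mem hl
    intro k hk
    rw [mem_image] at hk
    obtain ⟨l, hl, rfl⟩ := hk
    rw [mem_filter, mem_lvl] at hl
    obtain ⟨⟨hlP, hlR⟩, k, rfl⟩ := hl
    rw [Nat.mul_div_cancel_left _ hd0, mem_lvl]
    refine ⟨(dvd_mul_left k d).trans hlP, le_trans ?_ hlR⟩
    have : k ≤ d * k := Nat.le_mul_of_pos_left k hd0
    exact_mod_cast this
  have h0 : 0 ≤ ∑ l ∈ lvl s R, (if d ∣ l then s.selbergTerms l else 0) := by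
    refine sum_nonneg fun l hl => ?_
    split_ifs
    · exact selbergTerms_nonneg_of_mem hl
    · exact le_rfl
  have hμ : |(μ d : ℝ)| ≤ 1 := by exact_mod_cast abs_moebius_le_one (n := d)
  unfold selW
  rw [abs_mul, abs_mul, abs_of_pos (inv_pos.mpr hnu), abs_of_nonneg (div_nonneg h0 (by linarith))]
  have h4 : (∑ l ∈ lvl s R, (if d ∣ l then s.selbergTerms l else 0)) / selS s R ≤
      s.selbergTerms d := by
    rw [div_le_iff₀ (by linarith)]
    exact h1
  calc (s.nu d)⁻¹ * |(μ d : ℝ)| *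
        ((∑ l ∈ lvl s R, (if d ∣ l then s.selbergTerms l else 0)) / selS s R)
      ≤ (s.nu d)⁻¹ * 1 * s.selbergTerms d := by
        have : 0 ≤ (∑ l ∈ lvl s R, (if d ∣ l then s.selbergTerms l else 0)) / selS s R :=
          div_nonneg h0 (by linarith)
        gcongr
    _ = _ := by
        rw [BoundingSieve.selbergTerms_apply]
        field_simp

theorem selW_eq_zero {d : ℕ} (hd : ¬ (d : ℝ) ≤ R) : selW s R d = 0 := by
  unfold selW
  have h : ∑ l ∈ lvl s R, (if d ∣ l then s.selbergTerms l else 0) = 0 := by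
    refine sum_eq_zero fun l hl => ?_
    rw [if_neg]
    intro hdl
    obtain ⟨hlP, hlR⟩ := mem_lvl.mp hl
    have hl0 : 0 < l := Nat.pos_of_ne_zero
      (ne_zero_of_dvd_ne_zero BoundingSieve.prodPrimes_ne_zero hlP)
    have : (d : ℝ) ≤ l := by exact_mod_cast Nat.le_of_dvd hl0 hdl
    linarith
  rw [h]
  simp

theorem card_lvl_le (hR : 1 ≤ R) : ((lvl s R).card : ℝ) ≤ R := by
  have h1 : lvl s R ⊆ Finset.Icc 1 ⌊R⌋₊ := by
    intro l hl
    obtain ⟨hlP, hlR⟩ := mem_lvl.mp hl
    have hl0 : 0 < l := Nat.pos_of_ne_zero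
      (ne_zero_of_dvd_ne_zero BoundingSieve.prodPrimes_ne_zero hlP)
    rw [Finset.mem_Icc]
    exact ⟨hl0, Nat.le_floor hlR⟩
  have h2 := card_le_card h1
  rw [Nat.card_Icc, Nat.add_sub_cancel] at h2
  calc ((lvl s R).card : ℝ) ≤ (⌊R⌋₊ : ℝ) := by exact_mod_cast h2
    _ ≤ R := Nat.floor_le (by linarith)

/-- The Selberg sieve, with crude bounds for the remainder. -/
theorem selberg_sieve (hR : 1 ≤ R)
    (hrem : ∀ d : ℕ, d ∣ s.prodPrimes → |s.rem d| ≤ d)
    (hnu : ∀ p : ℕ, p.Prime → p ∣ s.prodPrimes → (1 - s.nu p)⁻¹ ≤ p) :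
    s.siftedSum ≤ s.totalMass / selS s R + R ^ 6 := by
  have hR0 : 0 ≤ R := by linarith
  have h1 := BoundingSieve.siftedSum_le_mainSum_errSum_of_upperMoebius (s := s)
    (BoundingSieve.lambdaSquared (selW s R))
    (BoundingSieve.upperMoebius_lambdaSquared _ (selW_one hR))
  rw [mainSum_selW hR, mul_one_div] at h1
  refine h1.trans (add_le_add_right ?_ _)
  -- bound for the weights
  have hw : ∀ d : ℕ, d ∣ s.prodPrimes → |selW s R d| ≤ if (d : ℝ) ≤ R then R else 0 := by
    intro d hd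
    split_ifs with h
    · refine (abs_selW_le hR hd).trans ?_
      have hsq := BoundingSieve.squarefree_of_dvd_prodPrimes hd
      calc ∏ p ∈ d.primeFactors, (1 - s.nu p)⁻¹ ≤ ∏ p ∈ d.primeFactors, (p : ℝ) := by
            refine prod_le_prod (fun p hp => ?_) (fun p hp => ?_)
            · have := s.nu_lt_one_of_prime p (Nat.prime_of_mem_primeFactors hp)
                ((Nat.dvd_of_mem_primeFactors hp).trans hd)
              exact inv_nonneg.mpr (by linarith)
            · exact hnu p (Nat.prime_of_mem_primeFactors hp)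
                ((Nat.dvd_of_mem_primeFactors hp).trans hd)
        _ = d := by
            rw [← Nat.cast_prod, Nat.prod_primeFactors_of_squarefree hsq]
        _ ≤ R := h
    · rw [selW_eq_zero h, abs_zero]
  set w : ℕ → ℝ := fun d => if (d : ℝ) ≤ R then R else 0 with hwdef
  have hw0 : ∀ d, 0 ≤ w d := by
    intro d
    rw [hwdef]
    simp only
    split_ifs <;> linarith
  unfold BoundingSieve.errSum
  -- bound each term
  have h2 : ∀ d ∈ Nat.divisors s.prodPrimes,
      |BoundingSieve.lambdaSquared (selW s R) d| * |s.rem d| ≤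
      ∑ d1 ∈ Nat.divisors s.prodPrimes, ∑ d2 ∈ Nat.divisors s.prodPrimes,
        if d = Nat.lcm d1 d2 then w d1 * w d2 * R ^ 2 else 0 := by
    intro d hd
    have hdP := Nat.dvd_of_mem_divisors hd
    have hsub : d.divisors ⊆ Nat.divisors s.prodPrimes :=
      Nat.divisors_subset_of_dvd BoundingSieve.prodPrimes_ne_zero hdP
    have h3 : |BoundingSieve.lambdaSquared (selW s R) d| ≤
        ∑ d1 ∈ d.divisors, ∑ d2 ∈ d.divisors,
          if d = Nat.lcm d1 d2 then |selW s R d1| * |selW s R d2| else 0 := by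
      unfold BoundingSieve.lambdaSquared
      refine (abs_sum_le_sum_abs _ _).trans (sum_le_sum fun d1 _ => ?_)
      refine (abs_sum_le_sum_abs _ _).trans (sum_le_sum fun d2 _ => ?_)
      split_ifs
      · rw [abs_mul]
      · simp
    have h4 : |BoundingSieve.lambdaSquared (selW s R) d| * |s.rem d| ≤
        (∑ d1 ∈ d.divisors, ∑ d2 ∈ d.divisors,
          if d = Nat.lcm d1 d2 then |selW s R d1| * |selW s R d2| else 0) * |s.rem d| :=
      mul_le_mul_of_nonneg_right h3 (abs_nonneg _)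
    refine h4.trans ?_
    rw [sum_mul]
    refine le_trans (sum_le_sum fun d1 hd1 => ?_)
      (sum_le_sum_of_subset_of_nonneg hsub fun d1 _ _ => sum_nonneg fun d2 _ => ?_)
    · rw [sum_mul]
      refine le_trans (sum_le_sum fun d2 hd2 => ?_)
        (sum_le_sum_of_subset_of_nonneg hsub fun d2 _ _ => ?_)
      · have hd1P := (Nat.dvd_of_mem_divisors hd1).trans hdP
        have hd2P := (Nat.dvd_of_mem_divisors hd2).trans hdP
        split_ifs with hlcm
        · have hw1 := hw d1 hd1P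
          have hw2 := hw d2 hd2P
          by_cases hd1R : (d1 : ℝ) ≤ R
          · by_cases hd2R : (d2 : ℝ) ≤ R
            · have hr : |s.rem d| ≤ R ^ 2 := by
                refine (hrem d hdP).trans ?_
                have h5 : d ≤ d1 * d2 := by
                  rw [hlcm]
                  have hpos1 : 0 < d1 := Nat.pos_of_mem_divisors hd1
                  have hpos2 : 0 < d2 := Nat.pos_of_mem_divisors hd2
                  exact Nat.le_of_dvd (Nat.mul_pos hpos1 hpos2) (Nat.lcm_dvd_mul d1 d2)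
                calc (d : ℝ) ≤ d1 * d2 := by exact_mod_cast h5
                  _ ≤ R * R := by gcongr
                  _ = R ^ 2 := by ring
              have := mul_le_mul hw1 hw2 (abs_nonneg _) (hw0 d1)
              exact mul_le_mul this hr (abs_nonneg _) (mul_nonneg (hw0 d1) (hw0 d2))
            · rw [selW_eq_zero hd2R, abs_zero, mul_zero, zero_mul]
              exact mul_nonneg (mul_nonneg (hw0 _) (hw0 _)) (by positivity)
          · rw [selW_eq_zero hd1R, abs_zero, zero_mul, zero_mul]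
            exact mul_nonneg (mul_nonneg (hw0 _) (hw0 _)) (by positivity)
        · rw [zero_mul]
      · split_ifs
        · exact mul_nonneg (mul_nonneg (hw0 _) (hw0 _)) (by positivity)
        · exact le_rfl
    · split_ifs
      · exact mul_nonneg (mul_nonneg (hw0 _) (hw0 _)) (by positivity)
      · exact le_rfl
  refine (sum_le_sum h2).trans ?_
  rw [sum_comm]
  have h5 : ∀ d1 ∈ Nat.divisors s.prodPrimes, ∑ d ∈ Nat.divisors s.prodPrimes,
      ∑ d2 ∈ Nat.divisors s.prodPrimes,
        (if d = Nat.lcm d1 d2 then w d1 * w d2 * R ^ 2 else 0) ≤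
      ∑ d2 ∈ Nat.divisors s.prodPrimes, w d1 * w d2 * R ^ 2 := by
    intro d1 hd1
    rw [sum_comm]
    refine sum_le_sum fun d2 hd2 => ?_
    rw [sum_ite_eq']
    split_ifs
    · exact le_rfl
    · exact mul_nonneg (mul_nonneg (hw0 _) (hw0 _)) (by positivity)
  refine (sum_le_sum h5).trans ?_
  have h6 : ∑ d ∈ Nat.divisors s.prodPrimes, w d ≤ R ^ 2 := by
    rw [hwdef]
    rw [← sum_filter]
    change ∑ d ∈ lvl s R, R ≤ R ^ 2
    rw [sum_const, nsmul_eq_mul, sq]
    exact mul_le_mul_of_nonneg_right (card_lvl_le hR) hR0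
  have h7 : 0 ≤ ∑ d ∈ Nat.divisors s.prodPrimes, w d := sum_nonneg fun d _ => hw0 d
  have h8 : ∑ d1 ∈ Nat.divisors s.prodPrimes, ∑ d2 ∈ Nat.divisors s.prodPrimes,
      w d1 * w d2 * R ^ 2 = (∑ d ∈ Nat.divisors s.prodPrimes, w d) ^ 2 * R ^ 2 := by
    rw [sq (∑ d ∈ Nat.divisors s.prodPrimes, w d), sum_mul_sum, sum_mul]
    refine sum_congr rfl fun d1 _ => ?_
    rw [sum_mul]
  rw [h8]
  calc (∑ d ∈ Nat.divisors s.prodPrimes, w d) ^ 2 * R ^ 2 ≤ (R ^ 2) ^ 2 * R ^ 2 := by gcongr
    _ = R ^ 6 := by ring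

end Pool.Agent.Lib.H59
end
end

-- from Lib.Helper57.Bonferroni
section

/-!
Truncated inclusion-exclusion, and an abstract combinatorial sieve in the style of Hooley:
the sieving set is cut into blocks, and inclusion-exclusion is truncated in each block.
-/

open Finset

namespace Pool.Agent.Lib.Helper57

set_option linter.unusedSectionVars false
set_option linter.unusedSimpArgs false

variable {ι : Type*} [DecidableEq ι]

/-- The general finite expression `∑_{S ∈ F} c(S) ∏_{p ∈ S} f p`. -/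
def ev (F : Finset (Finset ι)) (c : Finset ι → ℝ) (f : ι → ℝ) : ℝ :=
  ∑ S ∈ F, c S * ∏ p ∈ S, f p

/-- Subsets of `P` with at most `t` elements. -/
def small (P : Finset ι) (t : ℕ) : Finset (Finset ι) := P.powerset.filter fun S => S.card ≤ t

/-- The sign `(-1)^{|S|}`. -/
def sgn (S : Finset ι) : ℝ := (-1) ^ S.card

/-- The inclusion-exclusion sum over subsets of size at most `t`. -/
def T (P : Finset ι) (t : ℕ) (f : ι → ℝ) : ℝ := ev (small P t) sgn f

/-- The elementary symmetric sum of degree `t`. -/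
def E (P : Finset ι) (t : ℕ) (f : ι → ℝ) : ℝ := ev (P.powersetCard t) (fun _ => 1) f

/-- The full product. -/
def V (P : Finset ι) (f : ι → ℝ) : ℝ := ∏ p ∈ P, (1 - f p)


















end Pool.Agent.Lib.Helper57
end

-- from Lib.Helper57.Transfer
section

/-!
The abstract combinatorial sieve: upper and lower bounds for the number of unsieved elements.
-/

open Finset

namespace Pool.Agent.Lib.Helper57

set_option linter.unusedSectionVars false

variable {ι κ α : Type*} [DecidableEq ι] [DecidableEq κ] [DecidableEq α]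

/-- The indicator function of `B`. -/
def ind (B : Finset ι) (p : ι) : ℝ := if p ∈ B then 1 else 0





/-- The number of elements of `Ω` which are unsieved by all blocks. -/
def good (J : Finset κ) (P : κ → Finset ι) (Ω : Finset α) (B : α → Finset ι) : Finset α :=
  Ω.filter fun m => ∀ j ∈ J, ∀ p ∈ P j, p ∉ B m



/-- Hypotheses of the abstract sieve, bundled. -/
structure SieveData (κ ι α : Type*) [DecidableEq κ] [DecidableEq ι] where
  /-- the index set of blocks -/
  J : Finset κ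
  /-- the blocks -/
  P : κ → Finset ι
  /-- truncation levels -/
  t : κ → ℕ
  /-- the set to be sieved -/
  Ω : Finset α
  /-- the bad primes of an element -/
  B : α → Finset ι
  /-- the main quantity -/
  X : ℝ
  /-- the density -/
  g : ι → ℝ
  /-- the error function -/
  ν : ι → ℝ
  X_nonneg : 0 ≤ X
  even : ∀ j ∈ J, Even (t j)
  disj : ∀ i ∈ J, ∀ j ∈ J, i ≠ j → Disjoint (P i) (P j)
  g_bd : ∀ j ∈ J, ∀ p ∈ P j, 0 ≤ g p ∧ g p ≤ 1
  ν_nonneg : ∀ j ∈ J, ∀ p ∈ P j, 0 ≤ ν p
  count : ∀ S : Finset ι, (∀ p ∈ S, ∃ j ∈ J, p ∈ P j) →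
      |((Ω.filter fun m => S ⊆ B m).card : ℝ) - X * ∏ p ∈ S, g p| ≤ ∏ p ∈ S, ν p

namespace SieveData

variable (D : SieveData κ ι α)

/-- the error term -/
def N : ℝ := ∏ j ∈ D.J, ∑ S ∈ small (D.P j) (D.t j), ∏ p ∈ S, D.ν p





/-- The full density. -/
def W : ℝ := ∏ j ∈ D.J, V (D.P j) D.g


end SieveData

end Pool.Agent.Lib.Helper57
end

-- from Lib.Helper57.Count
section

/-!
Counting integers in an initial segment subject to congruence conditions modulo distinct primes.
-/

open Finset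

namespace Pool.Agent.Lib.Helper57

/-- Counting function of a predicate. -/
noncomputable def cnt (P : ℕ → Prop) (M : ℕ) : ℕ := by
  classical exact ((range M).filter P).card








/-- The number of residue classes modulo `p` met by `A`. -/
def nu (A : Finset ℕ) (p : ℕ) : ℕ := (A.image fun a => a % p).card


/-- `m` is bad for `p` if `p` divides some `r + Q m + a`. -/
def Bad (A : Finset ℕ) (r Q p m : ℕ) : Prop := ∃ a ∈ A, p ∣ r + Q * m + a






end Pool.Agent.Lib.Helper57
end

-- from Lib.Helper57.PrimeSums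
section

/-!
Sums of reciprocals of primes, from Chebyshev's bound.
-/

open Finset

namespace Pool.Agent.Lib.Helper57











/-- The primes in `(K, z]`. -/
def pr (K z : ℕ) : Finset ℕ := (range (z + 1)).filter fun p => p.Prime ∧ K < p

lemma mem_pr {K z p : ℕ} : p ∈ pr K z ↔ p.Prime ∧ K < p ∧ p ≤ z := by
  unfold pr
  rw [mem_filter, mem_range]
  constructor
  · rintro ⟨h1, h2, h3⟩; exact ⟨h2, h3, by omega⟩
  · rintro ⟨h1, h2, h3⟩; exact ⟨by omega, h1, h2⟩





end Pool.Agent.Lib.Helper57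
end

-- from Lib.Helper57.Sieve
section

/-!
A fundamental lemma for the sieve of dimension `k`, uniform in `k`.
-/

open Finset

namespace Pool.Agent.Lib.Helper57

/-- The sieve density. -/
noncomputable def dens (A : Finset ℕ) (K z : ℕ) : ℝ := ∏ p ∈ pr K z, (1 - (nu A p : ℝ) / p)








/-- Truncation levels. -/
def lev (k j : ℕ) : ℕ := 2 * (100 * k + j)








end Pool.Agent.Lib.Helper57
end
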