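import Mathlib

/-! Merged copies (to shorten the build) of Lib.H24P.T4, Lib.HUK.LL6. -/

-- from Lib.H24P.T4
section

/-!
# Project H24P, chunk T4 (M): a combinatorial identity (elementary, self-contained)

`t : ℕ → ℝ` arbitrary, `P` a finite set of primes. `td d = ∏_{l ∣ d} t l`.
-/

open Finset

namespace Pool.Agent.Lib.H24P

/-- The squarefree `d ≤ E` with all prime factors in `P`, at most `j`. -/
def dv (P : Finset ℕ) (j E : ℕ) : Finset ℕ :=
  open Classical in (Icc 1 E).filter (fun d => Squarefree d ∧ ∀ l ∈ d.primeFactors, l ∈ P ∧ l ≤ j)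

/-- The squarefree `m > E` with all prime factors in `P`, at most `j`, such that `m/q ≤ E` for the largest
prime factor `q` of `m`. -/
def mv (P : Finset ℕ) (j E : ℕ) : Finset ℕ :=
  open Classical in (Ioc E (E * j)).filter (fun m => Squarefree m ∧
    (∀ l ∈ m.primeFactors, l ∈ P ∧ l ≤ j) ∧
    ∃ q ∈ m.primeFactors, (∀ l ∈ m.primeFactors, l ≤ q) ∧ m / q ≤ E)

/-- `∏_{l ∣ d} t l` -/
noncomputable def tt (t : ℕ → ℝ) (d : ℕ) : ℝ := ∏ l ∈ d.primeFactors, t l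

theorem t4_mem_dv {P : Finset ℕ} {j E d : ℕ} : d ∈ dv P j E ↔
    (1 ≤ d ∧ d ≤ E) ∧ Squarefree d ∧ ∀ l ∈ d.primeFactors, l ∈ P ∧ l ≤ j := by
  unfold dv
  rw [Finset.mem_filter, Finset.mem_Icc]

theorem t4_mem_mv {P : Finset ℕ} {j E m : ℕ} : m ∈ mv P j E ↔
    (E < m ∧ m ≤ E * j) ∧ Squarefree m ∧ (∀ l ∈ m.primeFactors, l ∈ P ∧ l ≤ j) ∧
      ∃ q ∈ m.primeFactors, (∀ l ∈ m.primeFactors, l ≤ q) ∧ m / q ≤ E := by
  unfold mv
  rw [Finset.mem_filter, Finset.mem_Ioc]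

/-- The prime factors of `q d`. -/
theorem t4_pf {q d : ℕ} (hq : q.Prime) (hd : d ≠ 0) : (q * d).primeFactors = insert q d.primeFactors := by
  rw [Nat.primeFactors_mul hq.ne_zero hd, hq.primeFactors, Finset.insert_eq]

theorem t4_tt {t : ℕ → ℝ} {q d : ℕ} (hq : q.Prime) (hd : d ≠ 0) (h : q ∉ d.primeFactors) :
    tt t (q * d) = t q * tt t d := by
  unfold tt
  rw [t4_pf hq hd, Finset.prod_insert h]

/-- Squarefree `q d`. -/
theorem t4_sf {q d : ℕ} (hq : q.Prime) (hd : d ≠ 0) (h : q ∉ d.primeFactors) (hs : Squarefree d) :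
    Squarefree (q * d) := by
  have hc : Nat.Coprime q d := by
    rw [Nat.Prime.coprime_iff_not_dvd hq]
    intro h1
    exact h (Nat.mem_primeFactors.2 ⟨hq, h1, hd⟩)
  rw [Nat.squarefree_mul hc]
  exact ⟨hq.squarefree, hs⟩

/-- Decomposition of a squarefree number divisible by `q`. -/
theorem t4_dec {q m : ℕ} (hq : q.Prime) (hm : Squarefree m) (h : q ∈ m.primeFactors) :
    ∃ d : ℕ, m = q * d ∧ d ≠ 0 ∧ Squarefree d ∧ q ∉ d.primeFactors ∧ m.primeFactors = insert q d.primeFactors := by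
  obtain ⟨_, ⟨d, hd⟩, hm0⟩ := Nat.mem_primeFactors.1 h
  have hd0 : d ≠ 0 := by
    rintro rfl
    exact hm0 (by rw [hd, mul_zero])
  have hs : Squarefree d := hm.squarefree_of_dvd ⟨q, by rw [hd, mul_comm]⟩
  refine ⟨d, hd, hd0, hs, ?_, by rw [hd]; exact t4_pf hq hd0⟩
  intro h1
  have h2 : q ∣ d := (Nat.mem_primeFactors.1 h1).2.1
  have h3 : q * q ∣ m := by
    rw [hd]
    exact mul_dvd_mul_left q h2
  have h4 := hm q h3
  exact hq.one_lt.ne' (Nat.isUnit_iff.1 h4)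

theorem t4_dv_sub {P : Finset ℕ} {j E E' : ℕ} (h : E' ≤ E) : dv P j E' = (dv P j E).filter (fun d => d ≤ E') := by
  ext d
  rw [Finset.mem_filter, t4_mem_dv, t4_mem_dv]
  constructor
  · rintro ⟨⟨h1, h2⟩, h3⟩
    exact ⟨⟨⟨h1, h2.trans h⟩, h3⟩, h2⟩
  · rintro ⟨⟨⟨h1, _⟩, h3⟩, h2⟩
    exact ⟨⟨h1, h2⟩, h3⟩

/-- Proof. The elements of `dv P q E` not divisible by `q = j + 1` are those of `dv P j E`; the others are `q d'`,
`d' ∈ dv P j (E/q)`, `tt t (q d') = t q tt t d'`. -/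
theorem T4_dv (t : ℕ → ℝ) (P : Finset ℕ) (hP : ∀ l ∈ P, l.Prime) (j E : ℕ) (hj : j + 1 ∈ P) :
    ∑ d ∈ dv P (j + 1) E, tt t d =
      ∑ d ∈ dv P j E, tt t d + t (j + 1) * ∑ d ∈ dv P j (E / (j + 1)), tt t d := by
  classical
  have hq := hP _ hj
  have hnot : ∀ d : ℕ, (∀ l ∈ d.primeFactors, l ∈ P ∧ l ≤ j) → j + 1 ∉ d.primeFactors := by
    intro d h1 h2
    have := (h1 _ h2).2
    omega
  have hset : dv P (j + 1) E = dv P j E ∪ (dv P j (E / (j + 1))).image (fun d => (j + 1) * d) := by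
    ext m
    rw [Finset.mem_union, Finset.mem_image, t4_mem_dv, t4_mem_dv]
    constructor
    · rintro ⟨⟨h1, h2⟩, h3, h4⟩
      by_cases hm : j + 1 ∈ m.primeFactors
      · right
        obtain ⟨d, hd, hd0, hds, hdq, hdp⟩ := t4_dec hq h3 hm
        refine ⟨d, t4_mem_dv.2 ⟨⟨Nat.one_le_iff_ne_zero.2 hd0, ?_⟩, hds, ?_⟩, hd.symm⟩
        · rw [Nat.le_div_iff_mul_le hq.pos, mul_comm, ← hd]
          exact h2
        · intro l hl
          have h5 := h4 l (by rw [hdp]; exact Finset.mem_insert_of_mem hl)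
          refine ⟨h5.1, ?_⟩
          have h6 : l ≠ j + 1 := by
            rintro rfl
            exact hdq hl
          omega
      · left
        refine ⟨⟨h1, h2⟩, h3, fun l hl => ⟨(h4 l hl).1, ?_⟩⟩
        have h6 : l ≠ j + 1 := by
          rintro rfl
          exact hm hl
        have := (h4 l hl).2
        omega
    · rintro (⟨⟨h1, h2⟩, h3, h4⟩ | ⟨d, hd, rfl⟩)
      · exact ⟨⟨h1, h2⟩, h3, fun l hl => ⟨(h4 l hl).1, (h4 l hl).2.trans (Nat.le_succ j)⟩⟩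
      · obtain ⟨⟨h1, h2⟩, h3, h4⟩ := t4_mem_dv.1 hd
        have hd0 : d ≠ 0 := by omega
        refine ⟨⟨?_, ?_⟩, t4_sf hq hd0 (hnot d h4) h3, ?_⟩
        · exact Nat.mul_pos hq.pos h1
        · rw [Nat.le_div_iff_mul_le hq.pos] at h2
          rw [mul_comm]
          exact h2
        · intro l hl
          rw [t4_pf hq hd0, Finset.mem_insert] at hl
          rcases hl with rfl | hl
          · exact ⟨hj, le_rfl⟩
          · exact ⟨(h4 l hl).1, (h4 l hl).2.trans (Nat.le_succ j)⟩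
  have hdis : Disjoint (dv P j E) ((dv P j (E / (j + 1))).image (fun d => (j + 1) * d)) := by
    rw [Finset.disjoint_left]
    intro m h1 h2
    obtain ⟨d, hd, rfl⟩ := Finset.mem_image.1 h2
    obtain ⟨⟨h3, _⟩, _, _⟩ := t4_mem_dv.1 hd
    have hd0 : d ≠ 0 := by omega
    have h4 := (t4_mem_dv.1 h1).2.2
    exact hnot _ h4 (by rw [t4_pf hq hd0]; exact Finset.mem_insert_self _ _)
  rw [hset, Finset.sum_union hdis, Finset.sum_image (fun a _ b _ hab => Nat.eq_of_mul_eq_mul_left hq.pos hab),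
    Finset.mul_sum]
  congr 1
  refine Finset.sum_congr rfl fun d hd => ?_
  obtain ⟨⟨h3, _⟩, _, h4⟩ := t4_mem_dv.1 hd
  exact t4_tt hq (by omega) (hnot d h4)

/-- Proof. The elements of `mv P q E` not divisible by `q = j + 1` are those of `mv P j E` (`m = (m/q') q' ≤ E j`); the others are
`q d'`, `d' ∈ dv P j E` with `q d' > E`, i.e. `d' ∉ dv P j (E/q)`. -/
theorem T4_mv (t : ℕ → ℝ) (P : Finset ℕ) (hP : ∀ l ∈ P, l.Prime) (j E : ℕ) (hj : j + 1 ∈ P) :
    ∑ m ∈ mv P (j + 1) E, tt t m = ∑ m ∈ mv P j E, tt t m +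
      t (j + 1) * (∑ d ∈ dv P j E, tt t d - ∑ d ∈ dv P j (E / (j + 1)), tt t d) := by
  classical
  have hq := hP _ hj
  have hnot : ∀ d : ℕ, (∀ l ∈ d.primeFactors, l ∈ P ∧ l ≤ j) → j + 1 ∉ d.primeFactors := by
    intro d h1 h2
    have := (h1 _ h2).2
    omega
  have hset : mv P (j + 1) E = mv P j E ∪
      ((dv P j E).filter (fun d => ¬ d ≤ E / (j + 1))).image (fun d => (j + 1) * d) := by
    ext m
    rw [Finset.mem_union, Finset.mem_image, t4_mem_mv, t4_mem_mv]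
    constructor
    · rintro ⟨⟨h1, h2⟩, h3, h4, r, hr, hr1, hr2⟩
      by_cases hm : j + 1 ∈ m.primeFactors
      · right
        have hrq : r = j + 1 := le_antisymm (h4 r hr).2 (hr1 _ hm)
        obtain ⟨d, hd, hd0, hds, hdq, hdp⟩ := t4_dec hq h3 hm
        have hmd : m / r = d := by
          rw [hrq, hd, Nat.mul_div_cancel_left _ hq.pos]
        rw [hmd] at hr2
        refine ⟨d, Finset.mem_filter.2 ⟨t4_mem_dv.2 ⟨⟨Nat.one_le_iff_ne_zero.2 hd0, hr2⟩, hds, ?_⟩, ?_⟩, hd.symm⟩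
        · intro l hl
          have h5 := h4 l (by rw [hdp]; exact Finset.mem_insert_of_mem hl)
          refine ⟨h5.1, ?_⟩
          have h6 : l ≠ j + 1 := by
            rintro rfl
            exact hdq hl
          omega
        · rw [Nat.le_div_iff_mul_le hq.pos, mul_comm, ← hd]
          omega
      · left
        have h7 : ∀ l ∈ m.primeFactors, l ∈ P ∧ l ≤ j := by
          intro l hl
          refine ⟨(h4 l hl).1, ?_⟩
          have h6 : l ≠ j + 1 := by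
            rintro rfl
            exact hm hl
          have := (h4 l hl).2
          omega
        refine ⟨⟨h1, ?_⟩, h3, h7, r, hr, hr1, hr2⟩
        have h8 : m / r * r = m := Nat.div_mul_cancel (Nat.mem_primeFactors.1 hr).2.1
        rw [← h8]
        exact Nat.mul_le_mul hr2 (h7 r hr).2
    · rintro (⟨⟨h1, h2⟩, h3, h4, r, hr, hr1, hr2⟩ | ⟨d, hd, rfl⟩)
      · exact ⟨⟨h1, h2.trans (Nat.mul_le_mul_left _ (Nat.le_succ j))⟩, h3,
          fun l hl => ⟨(h4 l hl).1, (h4 l hl).2.trans (Nat.le_succ j)⟩, r, hr, hr1, hr2⟩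
      · obtain ⟨hd1, hd2⟩ := Finset.mem_filter.1 hd
        obtain ⟨⟨h1, h2⟩, h3, h4⟩ := t4_mem_dv.1 hd1
        have hd0 : d ≠ 0 := by omega
        have h5 : ∀ l ∈ ((j + 1) * d).primeFactors, l ∈ P ∧ l ≤ j + 1 := by
          intro l hl
          rw [t4_pf hq hd0, Finset.mem_insert] at hl
          rcases hl with rfl | hl
          · exact ⟨hj, le_rfl⟩
          · exact ⟨(h4 l hl).1, (h4 l hl).2.trans (Nat.le_succ j)⟩
        refine ⟨⟨?_, ?_⟩, t4_sf hq hd0 (hnot d h4) h3, h5, j + 1, ?_, fun l hl => (h5 l hl).2, ?_⟩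
        · rw [Nat.le_div_iff_mul_le hq.pos, mul_comm] at hd2
          omega
        · rw [mul_comm]
          exact Nat.mul_le_mul_right _ h2
        · rw [t4_pf hq hd0]
          exact Finset.mem_insert_self _ _
        · rw [Nat.mul_div_cancel_left _ hq.pos]
          exact h2
  have hdis : Disjoint (mv P j E) (((dv P j E).filter (fun d => ¬ d ≤ E / (j + 1))).image (fun d => (j + 1) * d)) := by
    rw [Finset.disjoint_left]
    intro m h1 h2
    obtain ⟨d, hd, rfl⟩ := Finset.mem_image.1 h2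
    obtain ⟨⟨h3, _⟩, _, _⟩ := t4_mem_dv.1 (Finset.mem_filter.1 hd).1
    have hd0 : d ≠ 0 := by omega
    have h4 := (t4_mem_mv.1 h1).2.2.1
    exact hnot _ h4 (by rw [t4_pf hq hd0]; exact Finset.mem_insert_self _ _)
  have hsum : ∑ d ∈ dv P j E, tt t d - ∑ d ∈ dv P j (E / (j + 1)), tt t d =
      ∑ d ∈ (dv P j E).filter (fun d => ¬ d ≤ E / (j + 1)), tt t d := by
    rw [t4_dv_sub (Nat.div_le_self E (j + 1)), ← Finset.sum_filter_add_sum_filter_not (dv P j E) (fun d => d ≤ E / (j + 1))]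
    ring
  rw [hset, Finset.sum_union hdis, Finset.sum_image (fun a _ b _ hab => Nat.eq_of_mul_eq_mul_left hq.pos hab),
    hsum, Finset.mul_sum]
  congr 1
  refine Finset.sum_congr rfl fun d hd => ?_
  obtain ⟨⟨h3, _⟩, _, h4⟩ := t4_mem_dv.1 (Finset.mem_filter.1 hd).1
  exact t4_tt hq (by omega) (hnot d h4)

/-- Proof. The conditions are the same; for `mv`: `m = (m/q) q ≤ E j` for the largest prime factor `q ≤ j`. -/
theorem T4_not (P : Finset ℕ) (j E : ℕ) (hj : j + 1 ∉ P) :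
    dv P (j + 1) E = dv P j E ∧ mv P (j + 1) E = mv P j E := by
  have hiff : ∀ l, (l ∈ P ∧ l ≤ j + 1) ↔ (l ∈ P ∧ l ≤ j) := by
    intro l
    constructor
    · rintro ⟨h1, h2⟩
      refine ⟨h1, ?_⟩
      have : l ≠ j + 1 := by
        rintro rfl
        exact hj h1
      omega
    · rintro ⟨h1, h2⟩
      exact ⟨h1, by omega⟩
  constructor
  · ext d
    rw [t4_mem_dv, t4_mem_dv]
    simp only [hiff]
  · ext m
    rw [t4_mem_mv, t4_mem_mv]
    simp only [hiff]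
    constructor
    · rintro ⟨⟨h1, h2⟩, h3, h4, r, hr, hr1, hr2⟩
      refine ⟨⟨h1, ?_⟩, h3, h4, r, hr, hr1, hr2⟩
      have h8 : m / r * r = m := Nat.div_mul_cancel (Nat.mem_primeFactors.1 hr).2.1
      rw [← h8]
      exact Nat.mul_le_mul hr2 (h4 r hr).2
    · rintro ⟨⟨h1, h2⟩, h3, h4, r, hr, hr1, hr2⟩
      exact ⟨⟨h1, h2.trans (Nat.mul_le_mul_left _ (Nat.le_succ j))⟩, h3, h4, r, hr, hr1, hr2⟩

/-- **T4.** Proof. Induction on `Q`. `Q = 0`: `dv P 0 E = {1}`, `mv P 0 E = ∅`, and the filters are empty (primes are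
positive): `1 - 1 = 0`. Step: `Ψ(j) = ∏_{l ≤ j} (1 + t l) - ∑ dv - ∑ mv` satisfies
`Ψ(j+1) = (1 + t_{j+1}) Ψ(j) + t_{j+1} ∑_{mv P j E} tt` if `j + 1 ∈ P` (`T4_dv`, `T4_mv`), and `Ψ(j+1) = Ψ(j)` else
(`T4_not`). -/
theorem T4_main (t : ℕ → ℝ) (P : Finset ℕ) (hP : ∀ l ∈ P, l.Prime) (E : ℕ) (hE : 1 ≤ E) (Q : ℕ) :
    ∏ l ∈ P.filter (fun l => l ≤ Q), (1 + t l) - ∑ d ∈ dv P Q E, tt t d =
      ∑ m ∈ mv P Q E, tt t m +
      ∑ q ∈ P.filter (fun l => l ≤ Q), t q * (∑ m ∈ mv P (q - 1) E, tt t m) *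
        ∏ l ∈ P.filter (fun l => q < l ∧ l ≤ Q), (1 + t l) := by
  classical
  induction Q with
  | zero =>
    have h1 : P.filter (fun l => l ≤ 0) = ∅ := by
      apply Finset.filter_eq_empty_iff.2
      intro l hl h
      exact absurd (hP l hl).pos (by omega)
    have h2 : mv P 0 E = ∅ := by
      apply Finset.eq_empty_of_forall_notMem
      intro m hm
      obtain ⟨⟨h3, h4⟩, _⟩ := t4_mem_mv.1 hm
      omega
    have h3 : dv P 0 E = {1} := by
      ext d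
      rw [t4_mem_dv, Finset.mem_singleton]
      constructor
      · rintro ⟨⟨h4, _⟩, _, h5⟩
        have h6 : d.primeFactors = ∅ := by
          apply Finset.eq_empty_of_forall_notMem
          intro l hl
          have h7 := (h5 l hl).2
          have h8 := (Nat.prime_of_mem_primeFactors hl).pos
          omega
        rcases Nat.primeFactors_eq_empty.1 h6 with h7 | h7
        · omega
        · exact h7
      · rintro rfl
        exact ⟨⟨le_rfl, hE⟩, squarefree_one, by simp⟩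
    rw [h1, h2, h3]
    simp [tt]
  | succ Q ih =>
    by_cases hj : Q + 1 ∈ P
    · have h1 : P.filter (fun l => l ≤ Q + 1) = insert (Q + 1) (P.filter (fun l => l ≤ Q)) := by
        ext l
        rw [Finset.mem_insert, Finset.mem_filter, Finset.mem_filter]
        constructor
        · rintro ⟨h2, h3⟩
          by_cases h4 : l = Q + 1
          · exact Or.inl h4
          · exact Or.inr ⟨h2, by omega⟩
        · rintro (rfl | ⟨h2, h3⟩)
          · exact ⟨hj, le_rfl⟩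
          · exact ⟨h2, by omega⟩
      have h2 : Q + 1 ∉ P.filter (fun l => l ≤ Q) := by
        rw [Finset.mem_filter]
        rintro ⟨_, h⟩
        omega
      have h3 : ∀ q ∈ P.filter (fun l => l ≤ Q), P.filter (fun l => q < l ∧ l ≤ Q + 1) =
          insert (Q + 1) (P.filter (fun l => q < l ∧ l ≤ Q)) := by
        intro q hq
        have hq2 := (Finset.mem_filter.1 hq).2
        ext l
        rw [Finset.mem_insert, Finset.mem_filter, Finset.mem_filter]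
        constructor
        · rintro ⟨h2, h3, h5⟩
          by_cases h4 : l = Q + 1
          · exact Or.inl h4
          · exact Or.inr ⟨h2, h3, by omega⟩
        · rintro (rfl | ⟨h2, h3, h5⟩)
          · exact ⟨hj, by omega, le_rfl⟩
          · exact ⟨h2, h3, by omega⟩
      have h4 : ∀ q, Q + 1 ∉ P.filter (fun l => q < l ∧ l ≤ Q) := by
        intro q
        rw [Finset.mem_filter]
        rintro ⟨_, _, h⟩
        omega
      have h5 : P.filter (fun l => Q + 1 < l ∧ l ≤ Q + 1) = ∅ := by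
        apply Finset.filter_eq_empty_iff.2
        rintro l _ ⟨h6, h7⟩
        omega
      have h6 : ∑ q ∈ P.filter (fun l => l ≤ Q), t q * (∑ m ∈ mv P (q - 1) E, tt t m) *
          ∏ l ∈ P.filter (fun l => q < l ∧ l ≤ Q + 1), (1 + t l) = (1 + t (Q + 1)) *
          ∑ q ∈ P.filter (fun l => l ≤ Q), t q * (∑ m ∈ mv P (q - 1) E, tt t m) *
          ∏ l ∈ P.filter (fun l => q < l ∧ l ≤ Q), (1 + t l) := by
        rw [Finset.mul_sum]
        refine Finset.sum_congr rfl fun q hq => ?_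
        rw [h3 q hq, Finset.prod_insert (h4 q)]
        ring
      rw [T4_dv t P hP Q E hj, T4_mv t P hP Q E hj, h1, Finset.prod_insert h2, Finset.sum_insert h2, h5,
        Finset.prod_empty, h6, Nat.add_sub_cancel]
      linear_combination (1 + t (Q + 1)) * ih
    · have h1 : P.filter (fun l => l ≤ Q + 1) = P.filter (fun l => l ≤ Q) := by
        ext l
        rw [Finset.mem_filter, Finset.mem_filter]
        constructor
        · rintro ⟨h2, h3⟩
          have h4 : l ≠ Q + 1 := by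
            rintro rfl
            exact hj h2
          exact ⟨h2, by omega⟩
        · rintro ⟨h2, h3⟩
          exact ⟨h2, by omega⟩
      have h3 : ∀ q, P.filter (fun l => q < l ∧ l ≤ Q + 1) = P.filter (fun l => q < l ∧ l ≤ Q) := by
        intro q
        ext l
        rw [Finset.mem_filter, Finset.mem_filter]
        constructor
        · rintro ⟨h2, h3, h5⟩
          have h4 : l ≠ Q + 1 := by
            rintro rfl
            exact hj h2
          exact ⟨h2, h3, by omega⟩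
        · rintro ⟨h2, h3, h5⟩
          exact ⟨h2, h3, by omega⟩
      obtain ⟨h4, h5⟩ := T4_not P Q E hj
      rw [h4, h5, h1]
      simp only [h3]
      exact ih

end Pool.Agent.Lib.H24P
end

-- from Lib.HUK.LL6
section

/-!
# Project HUK, chunk LL6 (S/M): counting (only Mathlib)
-/

open Finset

namespace Pool.Agent.HUK

/-- Few pairs have a large gcd: for `γ > G` there are at most `2K/γ` multiples of `γ` in `(K, 2K]` (`γ ≤ K`: at most `K/γ + 1`;
`K < γ ≤ 2K`: one; else none), and `∑_{γ>G} 1/γ² ≤ 1/G`. -/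
theorem LL6_gcd (K G : ℕ) (hG : 1 ≤ G) :
    (((Ioc K (2 * K) ×ˢ Ioc K (2 * K)).filter (fun p : ℕ × ℕ => G < Nat.gcd p.1 p.2)).card : ℝ) ≤ 4 * (K : ℝ) ^ 2 / G := by
  classical
  have hsub : ((Ioc K (2 * K) ×ˢ Ioc K (2 * K)).filter (fun p : ℕ × ℕ => G < Nat.gcd p.1 p.2)) ⊆
      (Ioc G (2 * K)).biUnion (fun γ => ((Ioc 0 (2 * K)).filter (fun a => γ ∣ a)) ×ˢ ((Ioc 0 (2 * K)).filter (fun a => γ ∣ a))) := by
    intro p hp
    rw [mem_filter, mem_product, mem_Ioc, mem_Ioc] at hp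
    obtain ⟨⟨⟨h1, h2⟩, h3, h4⟩, h5⟩ := hp
    rw [mem_biUnion]
    refine ⟨Nat.gcd p.1 p.2, ?_, ?_⟩
    · rw [mem_Ioc]
      refine ⟨h5, ?_⟩
      have : Nat.gcd p.1 p.2 ≤ p.1 := Nat.le_of_dvd (by omega) (Nat.gcd_dvd_left _ _)
      omega
    · rw [mem_product, mem_filter, mem_filter, mem_Ioc, mem_Ioc]
      exact ⟨⟨⟨by omega, h2⟩, Nat.gcd_dvd_left _ _⟩, ⟨⟨by omega, h4⟩, Nat.gcd_dvd_right _ _⟩⟩
  have hcard : ∀ γ ∈ Ioc G (2 * K), (((((Ioc 0 (2 * K)).filter (fun a => γ ∣ a)) ×ˢ ((Ioc 0 (2 * K)).filter (fun a => γ ∣ a))).card : ℕ) : ℝ) ≤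
      4 * (K : ℝ) ^ 2 * ((γ : ℝ) ^ 2)⁻¹ := by
    intro γ hγ
    rw [mem_Ioc] at hγ
    have hγ0 : (0 : ℝ) < γ := by
      have : 0 < γ := by omega
      exact_mod_cast this
    rw [card_product, Nat.Ioc_filter_dvd_card_eq_div]
    push_cast
    have h1 : (((2 * K / γ : ℕ)) : ℝ) ≤ (2 * (K : ℝ)) / γ := by
      have := @Nat.cast_div_le ℝ _ _ _ (2 * K) γ
      push_cast at this
      exact this
    have h0 : (0 : ℝ) ≤ (((2 * K / γ : ℕ)) : ℝ) := Nat.cast_nonneg _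
    calc (((2 * K / γ : ℕ)) : ℝ) * (((2 * K / γ : ℕ)) : ℝ) ≤ ((2 * (K : ℝ)) / γ) * ((2 * (K : ℝ)) / γ) :=
          mul_le_mul h1 h1 h0 (le_trans h0 h1)
      _ = 4 * (K : ℝ) ^ 2 * ((γ : ℝ) ^ 2)⁻¹ := by
          field_simp
          ring
  have hG0 : (0 : ℝ) < G := by exact_mod_cast hG
  have hsum : (∑ γ ∈ Ioc G (2 * K), ((γ : ℝ) ^ 2)⁻¹) ≤ (G : ℝ)⁻¹ := by
    rcases le_or_gt G (2 * K) with h | h
    · have h1 := @sum_Ioc_inv_sq_le_sub ℝ _ _ _ G (2 * K) (by omega) h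
      have h2 : (0 : ℝ) ≤ (((2 * K : ℕ)) : ℝ)⁻¹ := by positivity
      linarith
    · rw [Ioc_eq_empty (by omega), sum_empty]
      positivity
  calc (((Ioc K (2 * K) ×ˢ Ioc K (2 * K)).filter (fun p : ℕ × ℕ => G < Nat.gcd p.1 p.2)).card : ℝ)
      ≤ ((((Ioc G (2 * K)).biUnion (fun γ => ((Ioc 0 (2 * K)).filter (fun a => γ ∣ a)) ×ˢ ((Ioc 0 (2 * K)).filter (fun a => γ ∣ a)))).card : ℕ) : ℝ) := by
        exact_mod_cast card_le_card hsub
    _ ≤ ((∑ γ ∈ Ioc G (2 * K), (((Ioc 0 (2 * K)).filter (fun a => γ ∣ a)) ×ˢ ((Ioc 0 (2 * K)).filter (fun a => γ ∣ a))).card : ℕ) : ℝ) := by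
        exact_mod_cast card_biUnion_le
    _ = ∑ γ ∈ Ioc G (2 * K), (((((Ioc 0 (2 * K)).filter (fun a => γ ∣ a)) ×ˢ ((Ioc 0 (2 * K)).filter (fun a => γ ∣ a))).card : ℕ) : ℝ) := by
        rw [Nat.cast_sum]
    _ ≤ ∑ γ ∈ Ioc G (2 * K), 4 * (K : ℝ) ^ 2 * ((γ : ℝ) ^ 2)⁻¹ := sum_le_sum hcard
    _ = 4 * (K : ℝ) ^ 2 * ∑ γ ∈ Ioc G (2 * K), ((γ : ℝ) ^ 2)⁻¹ := by rw [mul_sum]
    _ ≤ 4 * (K : ℝ) ^ 2 * (G : ℝ)⁻¹ := mul_le_mul_of_nonneg_left hsum (by positivity)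
    _ = 4 * (K : ℝ) ^ 2 / G := by rw [div_eq_mul_inv]

/-- Products of pairs: `n = p.1 p.2` is in `(K², 4K²]` and has at most `n.divisors.card` representations. -/
theorem LL6_div (K : ℕ) (D : ℝ) (hD : ∀ n : ℕ, 1 ≤ n → n ≤ 4 * K ^ 2 → (n.divisors.card : ℝ) ≤ D) (Φ : ℕ → ℝ) (hΦ : ∀ n, 0 ≤ Φ n) :
    ∑ p ∈ Ioc K (2 * K) ×ˢ Ioc K (2 * K), Φ (p.1 * p.2) ≤
      D * (∑ n ∈ Ioc (K ^ 2) (2 * K ^ 2), Φ n + ∑ n ∈ Ioc (2 * K ^ 2) (2 * (2 * K ^ 2)), Φ n) := by
  classical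
  have hmaps : ∀ p ∈ Ioc K (2 * K) ×ˢ Ioc K (2 * K), p.1 * p.2 ∈ Ioc (K ^ 2) (4 * K ^ 2) := by
    intro p hp
    rw [mem_product, mem_Ioc, mem_Ioc] at hp
    obtain ⟨⟨h1, h2⟩, h3, h4⟩ := hp
    rw [mem_Ioc]
    refine ⟨?_, ?_⟩
    · calc K ^ 2 = K * K := by ring
        _ < p.1 * p.2 := Nat.mul_lt_mul_of_lt_of_lt h1 h3
    · calc p.1 * p.2 ≤ (2 * K) * (2 * K) := Nat.mul_le_mul h2 h4
        _ = 4 * K ^ 2 := by ring
  have hfib : ∀ n ∈ Ioc (K ^ 2) (4 * K ^ 2), (∑ p ∈ (Ioc K (2 * K) ×ˢ Ioc K (2 * K)) with p.1 * p.2 = n, Φ (p.1 * p.2)) ≤ D * Φ n := by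
    intro n hn
    rw [mem_Ioc] at hn
    have h1 : (∑ p ∈ (Ioc K (2 * K) ×ˢ Ioc K (2 * K)) with p.1 * p.2 = n, Φ (p.1 * p.2)) =
        (((Ioc K (2 * K) ×ˢ Ioc K (2 * K)).filter (fun p : ℕ × ℕ => p.1 * p.2 = n)).card : ℝ) * Φ n := by
      rw [← nsmul_eq_mul, ← sum_const]
      refine sum_congr rfl ?_
      intro p hp
      rw [mem_filter] at hp
      rw [hp.2]
    rw [h1]
    refine mul_le_mul_of_nonneg_right ?_ (hΦ n)
    refine le_trans ?_ (hD n (by omega) hn.2)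
    have h2 : ((Ioc K (2 * K) ×ˢ Ioc K (2 * K)).filter (fun p : ℕ × ℕ => p.1 * p.2 = n)).card ≤ n.divisors.card := by
      refine card_le_card_of_injOn (fun p : ℕ × ℕ => p.1) ?_ ?_
      · intro p hp
        have hp' := mem_filter.mp (mem_coe.mp hp)
        rw [mem_coe, Nat.mem_divisors]
        refine ⟨⟨p.2, hp'.2.symm⟩, by omega⟩
      · intro p hp q hq hpq
        have hp' := mem_filter.mp (mem_coe.mp hp)
        have hq' := mem_filter.mp (mem_coe.mp hq)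
        have hpq' : p.1 = q.1 := hpq
        have hpp := mem_product.mp hp'.1
        have hp1 := mem_Ioc.mp hpp.1
        have h3 : p.1 * p.2 = p.1 * q.2 := by
          rw [hp'.2, hpq', hq'.2]
        have h4 : p.2 = q.2 := Nat.eq_of_mul_eq_mul_left (by omega) h3
        exact Prod.ext hpq' h4
    exact_mod_cast h2
  have hunion : Ioc (K ^ 2) (4 * K ^ 2) = Ioc (K ^ 2) (2 * K ^ 2) ∪ Ioc (2 * K ^ 2) (2 * (2 * K ^ 2)) := by
    ext n
    rw [mem_union, mem_Ioc, mem_Ioc, mem_Ioc]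
    generalize K ^ 2 = k
    omega
  have hdisj : Disjoint (Ioc (K ^ 2) (2 * K ^ 2)) (Ioc (2 * K ^ 2) (2 * (2 * K ^ 2))) := by
    rw [disjoint_left]
    intro n hn hn'
    rw [mem_Ioc] at hn hn'
    omega
  calc ∑ p ∈ Ioc K (2 * K) ×ˢ Ioc K (2 * K), Φ (p.1 * p.2)
      = ∑ n ∈ Ioc (K ^ 2) (4 * K ^ 2), ∑ p ∈ (Ioc K (2 * K) ×ˢ Ioc K (2 * K)) with p.1 * p.2 = n, Φ (p.1 * p.2) :=
        (sum_fiberwise_of_maps_to hmaps _).symm
    _ ≤ ∑ n ∈ Ioc (K ^ 2) (4 * K ^ 2), D * Φ n := sum_le_sum hfib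
    _ = D * ∑ n ∈ Ioc (K ^ 2) (4 * K ^ 2), Φ n := by rw [mul_sum]
    _ = D * (∑ n ∈ Ioc (K ^ 2) (2 * K ^ 2), Φ n + ∑ n ∈ Ioc (2 * K ^ 2) (2 * (2 * K ^ 2)), Φ n) := by
        rw [hunion, sum_union hdisj]

end Pool.Agent.HUK
end
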