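import Mathlib

/-! Merged copies (to shorten the build) of Lib.H33B.V3, Lib.HUK.KA4, Lib.HUK.KA5. -/

-- from Lib.H33B.V3
section

/-!
# Chunk V3: the multiplicative energy of a box
-/

open Finset

namespace Pool.Agent.Lib.H33B

/-- The number of `k`-tuples with product `n`. -/
def V3_t : ℕ → ℕ → ℕ
  | 0, n => if n = 1 then 1 else 0
  | (k + 1), n => ∑ d ∈ n.divisors, V3_t k (n / d)

theorem V3_one (k : ℕ) : V3_t k 1 = 1 := by
  induction k with
  | zero => simp [V3_t]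
  | succ k ih => simp [V3_t, ih]

theorem V3_count (X : ℕ) (k : ℕ) : ∀ n : ℕ, n ≠ 0 →
    ((Fintype.piFinset (fun _ : Fin k => Icc 1 X)).filter
      (fun h : Fin k → ℕ => ∏ i, h i = n)).card ≤ V3_t k n := by
  induction k with
  | zero =>
    intro n _
    by_cases h : n = 1
    · subst h
      simp [V3_t]
    · have : ((Fintype.piFinset (fun _ : Fin 0 => Icc 1 X)).filter
          (fun h : Fin 0 → ℕ => ∏ i, h i = n)) = ∅ := by
        refine Finset.filter_eq_empty_iff.2 fun x _ => ?_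
        simp only [Finset.univ_eq_empty, Finset.prod_empty]
        exact fun h' => h h'.symm
      rw [this]
      simp
  | succ k ih =>
    intro n hn
    have hmap : ∀ h ∈ (Fintype.piFinset (fun _ : Fin (k + 1) => Icc 1 X)).filter
        (fun h : Fin (k + 1) → ℕ => ∏ i, h i = n), h 0 ∈ n.divisors := by
      intro h hh
      rw [Finset.mem_filter] at hh
      rw [Nat.mem_divisors]
      refine ⟨?_, hn⟩
      rw [← hh.2]
      exact Finset.dvd_prod_of_mem _ (Finset.mem_univ _)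
    rw [Finset.card_eq_sum_card_fiberwise hmap]
    simp only [V3_t]
    refine Finset.sum_le_sum fun d hd => ?_
    rw [Nat.mem_divisors] at hd
    have hd0 : 0 < d := Nat.pos_of_dvd_of_pos hd.1 (Nat.pos_of_ne_zero hn)
    refine le_trans ?_ (ih (n / d) (by
      rw [Nat.div_ne_zero_iff]
      exact ⟨hd0.ne', Nat.le_of_dvd (Nat.pos_of_ne_zero hn) hd.1⟩))
    refine Finset.card_le_card_of_injOn (fun h => Fin.tail h) ?_ ?_
    · intro h hh
      rw [Finset.mem_coe, Finset.mem_filter, Finset.mem_filter, Fintype.mem_piFinset] at hh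
      obtain ⟨⟨h1, h2⟩, h3⟩ := hh
      rw [Finset.mem_coe, Finset.mem_filter, Fintype.mem_piFinset]
      refine ⟨fun i => h1 _, ?_⟩
      rw [Fin.prod_univ_succ, h3] at h2
      rw [← h2, Nat.mul_div_cancel_left _ hd0]
      rfl
    · intro h hh h' hh' heq
      rw [Finset.mem_coe, Finset.mem_filter] at hh hh'
      have heq' : Fin.tail h = Fin.tail h' := heq
      rw [← Fin.cons_self_tail h, ← Fin.cons_self_tail h', heq', hh.2, hh'.2]

theorem V3_submul (k : ℕ) : ∀ m n : ℕ, m ≠ 0 → n ≠ 0 →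
    V3_t k (m * n) ≤ V3_t k m * V3_t k n := by
  induction k with
  | zero =>
    intro m n _ _
    simp only [V3_t]
    by_cases h : m * n = 1
    · have h1 : m = 1 := Nat.eq_one_of_mul_eq_one_right h
      have h2 : n = 1 := Nat.eq_one_of_mul_eq_one_left h
      simp [h1, h2]
    · rw [if_neg h]
      exact Nat.zero_le _
  | succ k ih =>
    intro m n hm hn
    simp only [V3_t]
    rw [Finset.sum_mul_sum, ← Finset.sum_product']
    have hinj : Set.InjOn (fun d : ℕ => (Nat.gcd d m, d / Nat.gcd d m))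
        ((m * n).divisors : Set ℕ) := by
      intro d hd d' hd' h
      simp only [Prod.mk.injEq] at h
      have h1 : Nat.gcd d m * (d / Nat.gcd d m) = d := Nat.mul_div_cancel' (Nat.gcd_dvd_left _ _)
      have h2 : Nat.gcd d' m * (d' / Nat.gcd d' m) = d' := Nat.mul_div_cancel' (Nat.gcd_dvd_left _ _)
      exact h1.symm.trans ((congrArg₂ (· * ·) h.1 h.2).trans h2)
    have hsub : (m * n).divisors.image (fun d : ℕ => (Nat.gcd d m, d / Nat.gcd d m)) ⊆
        m.divisors ×ˢ n.divisors := by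
      intro p hp
      rw [Finset.mem_image] at hp
      obtain ⟨d, hd, rfl⟩ := hp
      rw [Nat.mem_divisors] at hd
      rw [Finset.mem_product, Nat.mem_divisors, Nat.mem_divisors]
      refine ⟨⟨Nat.gcd_dvd_right _ _, hm⟩, ?_, hn⟩
      have hg : 0 < Nat.gcd d m := Nat.gcd_pos_of_pos_right _ (Nat.pos_of_ne_zero hm)
      have h1 : d / Nat.gcd d m ∣ m / Nat.gcd d m * n := by
        have h2 : Nat.gcd d m * (d / Nat.gcd d m) ∣ Nat.gcd d m * (m / Nat.gcd d m * n) := by
          rw [Nat.mul_div_cancel' (Nat.gcd_dvd_left _ _), ← mul_assoc,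
            Nat.mul_div_cancel' (Nat.gcd_dvd_right _ _)]
          exact hd.1
        exact Nat.dvd_of_mul_dvd_mul_left hg h2
      exact (Nat.coprime_div_gcd_div_gcd hg).dvd_of_dvd_mul_left h1
    have hstep : ∑ d ∈ (m * n).divisors, V3_t k (m * n / d) ≤
        ∑ p ∈ (m * n).divisors.image (fun d : ℕ => (Nat.gcd d m, d / Nat.gcd d m)),
          V3_t k (m / p.1) * V3_t k (n / p.2) := by
      rw [Finset.sum_image hinj]
      refine Finset.sum_le_sum fun d hd => ?_
      have hd' := hsub (Finset.mem_image_of_mem _ hd)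
      rw [Finset.mem_product, Nat.mem_divisors, Nat.mem_divisors] at hd'
      obtain ⟨⟨h1, _⟩, h2, _⟩ := hd'
      simp only at h1 h2 ⊢
      obtain ⟨a, ha⟩ := h1
      obtain ⟨b, hb⟩ := h2
      have hg : 0 < Nat.gcd d m := Nat.gcd_pos_of_pos_right _ (Nat.pos_of_ne_zero hm)
      have hd0 : d ≠ 0 := by
        intro h0
        rw [Nat.mem_divisors] at hd
        rw [h0, zero_dvd_iff] at hd
        exact (mul_ne_zero hm hn) hd.1
      have hq : 0 < d / Nat.gcd d m := Nat.div_pos (Nat.gcd_le_left _ (Nat.pos_of_ne_zero hd0)) hg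
      have hdd : d = Nat.gcd d m * (d / Nat.gcd d m) := (Nat.mul_div_cancel' (Nat.gcd_dvd_left _ _)).symm
      have e1 : m / Nat.gcd d m = a := Nat.div_eq_of_eq_mul_right hg ha
      have e2 : n / (d / Nat.gcd d m) = b := Nat.div_eq_of_eq_mul_right hq hb
      have e3 : m * n / d = a * b := by
        have h3 : m * n = d * (a * b) := by
          calc m * n = (Nat.gcd d m * a) * ((d / Nat.gcd d m) * b) := by rw [← ha, ← hb]
            _ = (Nat.gcd d m * (d / Nat.gcd d m)) * (a * b) := by ring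
            _ = d * (a * b) := by rw [← hdd]
        rw [h3]
        exact Nat.mul_div_cancel_left _ (Nat.pos_of_ne_zero hd0)
      rw [e1, e2, e3]
      refine ih a b ?_ ?_
      · rintro rfl
        rw [mul_zero] at ha
        exact hm ha
      · rintro rfl
        rw [mul_zero] at hb
        exact hn hb
    exact hstep.trans (Finset.sum_le_sum_of_subset hsub)

theorem V3_prod (k : ℕ) {ι : Type*} (s : Finset ι) (h : ι → ℕ) (hh : ∀ i ∈ s, h i ≠ 0) :
    V3_t k (∏ i ∈ s, h i) ≤ ∏ i ∈ s, V3_t k (h i) := by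
  classical
  induction s using Finset.induction_on with
  | empty => simp [V3_one]
  | insert a s ha ih =>
    rw [Finset.prod_insert ha, Finset.prod_insert ha]
    refine (V3_submul k _ _ (hh a (Finset.mem_insert_self _ _)) ?_).trans ?_
    · exact Finset.prod_ne_zero_iff.2 fun i hi => hh i (Finset.mem_insert_of_mem hi)
    · exact Nat.mul_le_mul_left _ (ih fun i hi => hh i (Finset.mem_insert_of_mem hi))

theorem V3_sum (k : ℕ) : ∀ X : ℕ, 1 ≤ X → (∑ n ∈ Icc 1 X, (V3_t k n : ℝ)) ≤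
    X * (1 + Real.log X) ^ k := by
  induction k with
  | zero =>
    intro X hX
    simp only [V3_t, pow_zero, mul_one, Nat.cast_ite, Nat.cast_one, Nat.cast_zero]
    rw [Finset.sum_ite_eq' (Icc 1 X) 1]
    rw [if_pos (Finset.mem_Icc.2 ⟨le_rfl, hX⟩)]
    exact_mod_cast hX
  | succ k ih =>
    intro X hX
    have hX0 : (0 : ℝ) < X := by exact_mod_cast hX
    have hlog : 0 ≤ Real.log X := Real.log_natCast_nonneg X
    have h1 : (∑ n ∈ Icc 1 X, (V3_t (k + 1) n : ℝ)) =
        ∑ d ∈ Icc 1 X, ∑ m ∈ Icc 1 (X / d), (V3_t k m : ℝ) := by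
      simp only [V3_t, Nat.cast_sum]
      have h2 : (∑ n ∈ Icc 1 X, ∑ d ∈ n.divisors, (V3_t k (n / d) : ℝ)) =
          ∑ p ∈ (Icc 1 X).sigma (fun n => n.divisors), (V3_t k (p.1 / p.2) : ℝ) := by
        rw [Finset.sum_sigma]
      have h3 : (∑ d ∈ Icc 1 X, ∑ m ∈ Icc 1 (X / d), (V3_t k m : ℝ)) =
          ∑ p ∈ (Icc 1 X).sigma (fun d => Icc 1 (X / d)), (V3_t k p.2 : ℝ) := by
        rw [Finset.sum_sigma]
      rw [h2, h3]
      refine Finset.sum_bij' (fun p _ => ⟨p.2, p.1 / p.2⟩) (fun p _ => ⟨p.1 * p.2, p.1⟩) ?_ ?_ ?_ ?_ ?_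
      · rintro ⟨n, d⟩ hp
        simp only [Finset.mem_sigma, Finset.mem_Icc, Nat.mem_divisors] at hp ⊢
        obtain ⟨⟨a1, a2⟩, a3, a4⟩ := hp
        have hd0 : 0 < d := Nat.pos_of_dvd_of_pos a3 (by omega)
        have hdn : d ≤ n := Nat.le_of_dvd (by omega) a3
        exact ⟨⟨hd0, by omega⟩, Nat.div_pos hdn hd0, Nat.div_le_div_right a2⟩
      · rintro ⟨d, m⟩ hp
        simp only [Finset.mem_sigma, Finset.mem_Icc, Nat.mem_divisors] at hp ⊢
        obtain ⟨⟨a1, a2⟩, a3, a4⟩ := hp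
        have h5 : d * m ≤ X := by
          calc d * m ≤ d * (X / d) := Nat.mul_le_mul_left _ a4
            _ ≤ X := Nat.mul_div_le _ _
        have h6 : 0 < d * m := Nat.mul_pos a1 a3
        exact ⟨⟨h6, h5⟩, dvd_mul_right _ _, h6.ne'⟩
      · rintro ⟨n, d⟩ hp
        simp only [Finset.mem_sigma, Finset.mem_Icc, Nat.mem_divisors] at hp
        obtain ⟨⟨a1, a2⟩, a3, a4⟩ := hp
        simp only
        rw [Nat.mul_div_cancel' a3]
      · rintro ⟨d, m⟩ hp
        simp only [Finset.mem_sigma, Finset.mem_Icc] at hp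
        obtain ⟨⟨a1, a2⟩, a3, a4⟩ := hp
        simp only
        rw [Nat.mul_div_cancel_left _ a1]
      · rintro ⟨n, d⟩ _
        rfl
    rw [h1]
    have h4 : ∀ d ∈ Icc 1 X, ∑ m ∈ Icc 1 (X / d), (V3_t k m : ℝ) ≤
        X * (1 + Real.log X) ^ k * (1 / d) := by
      intro d hd
      rw [Finset.mem_Icc] at hd
      have hd0 : (0 : ℝ) < d := by exact_mod_cast hd.1
      have h5 : 1 ≤ X / d := Nat.div_pos hd.2 hd.1
      have h6 : ((X / d : ℕ) : ℝ) ≤ X / d := Nat.cast_div_le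
      have h7 : Real.log ((X / d : ℕ) : ℝ) ≤ Real.log X := by
        refine Real.log_le_log (by exact_mod_cast h5) ?_
        exact_mod_cast Nat.div_le_self X d
      have h8 : 0 ≤ Real.log ((X / d : ℕ) : ℝ) := Real.log_natCast_nonneg _
      calc ∑ m ∈ Icc 1 (X / d), (V3_t k m : ℝ) ≤
            ((X / d : ℕ) : ℝ) * (1 + Real.log ((X / d : ℕ) : ℝ)) ^ k := ih _ h5
        _ ≤ (X / d) * (1 + Real.log X) ^ k := by
            refine mul_le_mul h6 (pow_le_pow_left₀ (by linarith) (by linarith) k) (by positivity)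
              (by positivity)
        _ = _ := by ring
    refine (Finset.sum_le_sum h4).trans ?_
    rw [← Finset.mul_sum]
    have h9 : ∑ d ∈ Icc 1 X, 1 / (d : ℝ) ≤ 1 + Real.log X := by
      have h10 := harmonic_le_one_add_log X
      rw [harmonic_eq_sum_Icc] at h10
      push_cast at h10
      simpa [one_div] using h10
    calc X * (1 + Real.log X) ^ k * ∑ d ∈ Icc 1 X, 1 / (d : ℝ) ≤
          X * (1 + Real.log X) ^ k * (1 + Real.log X) :=
          mul_le_mul_of_nonneg_left h9 (by positivity)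
      _ = _ := by ring

/-- The number of `(h, h') ∈ [1,X]^k × [1,X]^k` with `∏ h_i = ∏ h'_i` is at most
`X^k (1 + log X)^(k²)`.

Proof. For each such pair there is a `k × k` matrix `(g_{ij})` of positive integers with
`h_i = ∏_j g_{ij}` and `h'_j = ∏_i g_{ij}` (induction on `k`: put `g_{1j}` successively
`g_{11} = gcd(h_1, h'_1)`, `g_{12} = gcd(h_1/g_{11}, h'_2)`, …; since `h_1 ∣ ∏ h'_j` this exhausts
`h_1`; divide the `h'_j` by `g_{1j}` and go on with `h_2, …, h_k`). So the number is at most the number of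
matrices with all row products `≤ X`, which is at most `T^k`, `T` = number of `k`-tuples of
positive integers with product at most `X`; `T ≤ ∑_{a_1, …, a_{k-1} ≤ X} X/(a_1 ⋯ a_{k-1})
≤ X (1 + log X)^(k-1)` (for `k ≥ 1`; `k = 0` is trivial).

Alternatively: the number is at most `∑_{h ∈ [1,X]^k} τ_k(∏ h_i) ≤ ∑_h ∏ τ_k(h_i) = (∑_{n ≤ X} τ_k(n))^k`,
`τ_k(n)` = number of `k`-tuples of positive integers with product `n`, which satisfies
`τ_k(mn) ≤ τ_k(m) τ_k(n)` (send a factorisation of `mn` to factorisations of `m` and `n` by successive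
gcds). -/
theorem prod_energy (k X : ℕ) (hX : 1 ≤ X) :
    ((((Fintype.piFinset (fun _ : Fin k => Icc 1 X)) ×ˢ
      (Fintype.piFinset (fun _ : Fin k => Icc 1 X))).filter
        (fun p : (Fin k → ℕ) × (Fin k → ℕ) => ∏ i, p.1 i = ∏ i, p.2 i)).card : ℝ) ≤
      (X : ℝ) ^ k * (1 + Real.log X) ^ (k ^ 2) := by
  classical
  set B := Fintype.piFinset (fun _ : Fin k => Icc 1 X) with hB
  have h1 : ((B ×ˢ B).filter
      (fun p : (Fin k → ℕ) × (Fin k → ℕ) => ∏ i, p.1 i = ∏ i, p.2 i)).card ≤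
      ∑ h ∈ B, ∏ i, V3_t k (h i) := by
    rw [Finset.card_filter, Finset.sum_product]
    refine Finset.sum_le_sum fun h hh => ?_
    have h0 : ∀ i, h i ≠ 0 := by
      intro i
      rw [hB, Fintype.mem_piFinset] at hh
      have := (Finset.mem_Icc.1 (hh i)).1
      omega
    rw [← Finset.card_filter]
    have h2 : (B.filter (fun h' : Fin k → ℕ => ∏ i, h i = ∏ i, h' i)) =
        B.filter (fun h' : Fin k → ℕ => ∏ i, h' i = ∏ i, h i) := by
      refine Finset.filter_congr fun h' _ => eq_comm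
    rw [h2]
    refine (V3_count X k _ ?_).trans (V3_prod k _ _ fun i _ => h0 i)
    exact Finset.prod_ne_zero_iff.2 fun i _ => h0 i
  have h3 : ∑ h ∈ B, ∏ i, V3_t k (h i) = (∑ n ∈ Icc 1 X, V3_t k n) ^ k := by
    rw [hB, Finset.sum_prod_piFinset (Icc 1 X) (fun _ n => V3_t k n)]
    simp
  have h4 : (((B ×ˢ B).filter
      (fun p : (Fin k → ℕ) × (Fin k → ℕ) => ∏ i, p.1 i = ∏ i, p.2 i)).card : ℝ) ≤
      (∑ n ∈ Icc 1 X, (V3_t k n : ℝ)) ^ k := by
    rw [h3] at h1
    exact_mod_cast h1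
  refine h4.trans ?_
  calc (∑ n ∈ Icc 1 X, (V3_t k n : ℝ)) ^ k ≤ (X * (1 + Real.log X) ^ k) ^ k :=
        pow_le_pow_left₀ (Finset.sum_nonneg fun _ _ => Nat.cast_nonneg _) (V3_sum k X hX) k
    _ = _ := by rw [mul_pow, ← pow_mul, sq]

end Pool.Agent.Lib.H33B
end

-- from Lib.HUK.KA4
section

/-!
# Project HUK, chunk KA4 (M): a polynomial divisible by `m` at `d + 1` points
-/

open Finset

namespace Pool.Agent.HUK

/-- Proof. Induction on `d`, for all `P` and `k`. `d = 0`: `P = C (P.coeff 0)`, the product is empty. Step `d + 1`: `P - C (P.eval (k 0))` has the root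
`k 0`, so it is `(X - C (k 0)) * R` (`Polynomial.dvd_iff_isRoot`), `R.natDegree ≤ d`, `R.coeff d = P.coeff (d + 1)`. For `i : Fin (d + 1)`:
`m ∣ P.eval (k i.succ) - P.eval (k 0) = (k i.succ - k 0) * R.eval (k i.succ)`. Let `c = ∏ i : Fin (d + 1), (k i.succ - k 0)`. Then `m` divides
`(C c * R).eval (k i.succ)` for all `i`; the induction hypothesis for `C c * R` and `k ∘ Fin.succ` gives
`m ∣ c * R.coeff d * ∏ i, ∏ j ∈ Ioi i, (k j.succ - k i.succ)`. Finally `∏ i : Fin (d + 2), ∏ j ∈ Ioi i, (k j - k i) = c * ∏ i, ∏ j ∈ Ioi i, ..`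
(`Fin.prod_univ_succ` and the lemmas on `Ioi 0`, `Ioi i.succ` in `Fin`, as in the proof of `Matrix.det_vandermonde` in Mathlib).
(Alternative: determinants: the Vandermonde matrix with last column `P.eval (k i)` has determinant `P.coeff d * det V`.) -/
theorem KA4_vdm (d : ℕ) (P : Polynomial ℤ) (hP : P.natDegree ≤ d) (m : ℤ) (k : Fin (d + 1) → ℤ)
    (hm : ∀ i, m ∣ P.eval (k i)) : m ∣ P.coeff d * ∏ i, ∏ j ∈ Ioi i, (k j - k i) := by
  choose r hr using hm
  have h1 := Matrix.det_updateCol_sum (Matrix.vandermonde k) (Fin.last d) (fun j : Fin (d + 1) => P.coeff j)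
  have h2 : (fun i => ∑ j : Fin (d + 1), P.coeff (j : ℕ) • Matrix.vandermonde k i j) = m • r := by
    funext i
    rw [Pi.smul_apply, smul_eq_mul, ← hr i, Polynomial.eval_eq_sum_range' (Nat.lt_succ_of_le hP),
      ← Fin.sum_univ_eq_sum_range (fun j => P.coeff j * k i ^ j) (d + 1)]
    exact Finset.sum_congr rfl fun j _ => by rw [Matrix.vandermonde_apply, smul_eq_mul]
  rw [h2, Matrix.det_updateCol_smul, Matrix.det_vandermonde, Fin.val_last, smul_eq_mul] at h1
  exact ⟨_, h1.symm⟩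

end Pool.Agent.HUK
end

-- from Lib.HUK.KA5
section

/-!
# Project HUK, chunk KA5 (M): roots of a polynomial modulo `m`
-/

open Finset

namespace Pool.Agent.HUK

theorem ka5_block (d : ℕ) (c : ℤ) (hc : c ≠ 0) (P : Polynomial ℤ) (hP : P.natDegree ≤ d) (hPc : P.coeff d = c) (m L : ℕ)
    (hL : 1 ≤ L) (hm : c.natAbs * L ^ ((d + 1) * (d + 1)) < m) (F : Finset ℕ) (hF : ∀ k ∈ F, (m : ℤ) ∣ P.eval (k : ℤ)) (b : ℕ)
    (hb : ∀ k ∈ F, k / L = b) : F.card ≤ d := by
  by_contra hcard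
  rw [not_le] at hcard
  obtain ⟨T, hT, hTc⟩ := Finset.exists_subset_card_eq (s := F) (n := d + 1) hcard
  have hf : ∀ i, T.orderEmbOfFin hTc i ∈ F := fun i => hT (Finset.orderEmbOfFin_mem T hTc i)
  have h1 := KA4_vdm d P hP (m : ℤ) (fun i => (T.orderEmbOfFin hTc i : ℤ)) (fun i => hF _ (hf i))
  rw [hPc] at h1
  have h2 : ∀ i j : Fin (d + 1), i < j → (1 : ℤ) ≤ (T.orderEmbOfFin hTc j : ℤ) - T.orderEmbOfFin hTc i ∧
      (T.orderEmbOfFin hTc j : ℤ) - T.orderEmbOfFin hTc i ≤ L := by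
    intro i j hij
    have h3 : T.orderEmbOfFin hTc i < T.orderEmbOfFin hTc j := (T.orderEmbOfFin hTc).strictMono hij
    have h4 := hb _ (hf i)
    have h5 := hb _ (hf j)
    have h6 := Nat.div_add_mod (T.orderEmbOfFin hTc i) L
    have h7 := Nat.div_add_mod (T.orderEmbOfFin hTc j) L
    have h8 := Nat.mod_lt (T.orderEmbOfFin hTc j) hL
    rw [h4] at h6
    rw [h5] at h7
    constructor <;> omega
  have hL1 : (1 : ℤ) ≤ L := by exact_mod_cast hL
  have h3 : (∏ i : Fin (d + 1), ∏ j ∈ Ioi i, ((T.orderEmbOfFin hTc j : ℤ) - T.orderEmbOfFin hTc i)) ≤ (L : ℤ) ^ ((d + 1) * (d + 1)) := by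
    calc (∏ i : Fin (d + 1), ∏ j ∈ Ioi i, ((T.orderEmbOfFin hTc j : ℤ) - T.orderEmbOfFin hTc i))
        ≤ ∏ i : Fin (d + 1), (L : ℤ) ^ (d + 1) := by
          refine Finset.prod_le_prod (fun i _ => Finset.prod_nonneg fun j hj => ?_) fun i _ => ?_
          · exact zero_le_one.trans (h2 i j (mem_Ioi.1 hj)).1
          · calc ∏ j ∈ Ioi i, ((T.orderEmbOfFin hTc j : ℤ) - T.orderEmbOfFin hTc i) ≤ ∏ j ∈ Ioi i, (L : ℤ) := by
                  refine Finset.prod_le_prod (fun j hj => ?_) fun j hj => ?_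
                  · exact zero_le_one.trans (h2 i j (mem_Ioi.1 hj)).1
                  · exact (h2 i j (mem_Ioi.1 hj)).2
              _ = (L : ℤ) ^ (Ioi i).card := by rw [Finset.prod_const]
              _ ≤ (L : ℤ) ^ (d + 1) := by
                  refine pow_le_pow_right₀ hL1 ?_
                  have h9 := Finset.card_le_univ (Ioi i)
                  rwa [Fintype.card_fin] at h9
      _ = (L : ℤ) ^ ((d + 1) * (d + 1)) := by
          rw [Finset.prod_const, Finset.card_univ, Fintype.card_fin, ← pow_mul]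
  have h4 : 0 < ∏ i : Fin (d + 1), ∏ j ∈ Ioi i, ((T.orderEmbOfFin hTc j : ℤ) - T.orderEmbOfFin hTc i) :=
    Finset.prod_pos fun i _ => Finset.prod_pos fun j hj => lt_of_lt_of_le zero_lt_one (h2 i j (mem_Ioi.1 hj)).1
  have h5 : c * ∏ i : Fin (d + 1), ∏ j ∈ Ioi i, ((T.orderEmbOfFin hTc j : ℤ) - T.orderEmbOfFin hTc i) = 0 := by
    refine Int.eq_zero_of_abs_lt_dvd h1 ?_
    rw [abs_mul, abs_of_pos h4, Int.abs_eq_natAbs]
    calc (c.natAbs : ℤ) * ∏ i : Fin (d + 1), ∏ j ∈ Ioi i, ((T.orderEmbOfFin hTc j : ℤ) - T.orderEmbOfFin hTc i)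
        ≤ (c.natAbs : ℤ) * (L : ℤ) ^ ((d + 1) * (d + 1)) := mul_le_mul_of_nonneg_left h3 (Nat.cast_nonneg _)
      _ < m := by exact_mod_cast hm
  rcases mul_eq_zero.1 h5 with h6 | h6
  · exact hc h6
  · exact h4.ne' h6

/-- Proof. `D = (d + 1)^2`, `e = 1/D`, `x = (m / (2 |c|))^e`, `C = 4 d (2 |c|)^e`, so `C r m^(-e) = 4 d r / x`. If `x < 1` then
`card ≤ r ≤ 4 d r / x`. Let `x ≥ 1`, `L = ⌊x⌋₊`: `1 ≤ L`, `x / 2 ≤ L ≤ x`, `|c| L^D ≤ |c| x^D = m / 2 < m` (`x^D = m / (2 |c|)`), and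
`x ≤ m ≤ r` (as `1 ≤ x` and `x ≤ x^D ≤ m`). Claim: a block `[b L, (b + 1) L)` contains at most `d` elements `k` with `m ∣ P(k)`. Otherwise take a
subset of `d + 1` such elements in increasing order (`Finset.exists_subset_card_eq`, `Finset.orderEmbOfFin`) `k_0 < .. < k_d`; by `KA4_vdm`
`m ∣ c * ∏_{i < j} (k_j - k_i)`, which is not `0`, and `|..| ≤ |c| L^D < m` (every factor is in `[1, L]`, there are at most `D` pairs, `L ≥ 1`);
contradiction (`Int.le_of_dvd` for the absolute values). The set `range r` meets at most `r / L + 1` blocks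
(`Finset.card_eq_sum_card_fiberwise` for the map `k ↦ k / L` into `range (r / L + 1)`), so
`card ≤ d (r / L + 1) ≤ 2 d r / L ≤ 4 d r / x` (`L ≤ r`). -/
theorem KA5_count (d : ℕ) (hd : 1 ≤ d) (c : ℤ) (hc : c ≠ 0) : ∃ C e : ℝ, 0 < C ∧ 0 < e ∧ e ≤ 1 ∧
    ∀ P : Polynomial ℤ, P.natDegree ≤ d → P.coeff d = c → ∀ m r : ℕ, 1 ≤ m → m ≤ r →
      (((range r).filter fun k : ℕ => (m : ℤ) ∣ P.eval (k : ℤ)).card : ℝ) ≤ C * r * (m : ℝ) ^ (-e) := by
  have hcn : 1 ≤ c.natAbs := Nat.one_le_iff_ne_zero.2 (Int.natAbs_ne_zero.2 hc)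
  have hcr : (1 : ℝ) ≤ (c.natAbs : ℝ) := by exact_mod_cast hcn
  have hdr : (1 : ℝ) ≤ (d : ℝ) := by exact_mod_cast hd
  set B : ℝ := 2 * (c.natAbs : ℝ) with hB
  have hB0 : 0 < B := by linarith
  set D : ℕ := (d + 1) * (d + 1) with hD
  have hD1 : 1 ≤ D := by rw [hD]; exact Nat.mul_pos (Nat.succ_pos _) (Nat.succ_pos _)
  have hDr : (1 : ℝ) ≤ (D : ℝ) := by exact_mod_cast hD1
  have hBe : 0 < B ^ (1 / (D : ℝ)) := Real.rpow_pos_of_pos hB0 _
  refine ⟨4 * d * B ^ (1 / (D : ℝ)), 1 / (D : ℝ), by positivity, by positivity, ?_, ?_⟩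
  · rw [div_le_one (by linarith)]
    exact hDr
  intro P hP hPc m r hm hmr
  have hmR : (1 : ℝ) ≤ (m : ℝ) := by exact_mod_cast hm
  have hm0 : (0 : ℝ) < (m : ℝ) := by linarith
  have hrR : (m : ℝ) ≤ (r : ℝ) := by exact_mod_cast hmr
  have hme : 0 < (m : ℝ) ^ (1 / (D : ℝ)) := Real.rpow_pos_of_pos hm0 _
  set x : ℝ := ((m : ℝ) / B) ^ (1 / (D : ℝ)) with hx
  have hx0 : 0 < x := Real.rpow_pos_of_pos (div_pos hm0 hB0) _
  have hxe : 4 * d * B ^ (1 / (D : ℝ)) * r * (m : ℝ) ^ (-(1 / (D : ℝ))) = 4 * d * r / x := by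
    rw [hx, Real.div_rpow hm0.le hB0.le, Real.rpow_neg hm0.le]
    field_simp
  rw [hxe]
  have hxD : x ^ D = (m : ℝ) / B := by
    rw [hx, ← Real.rpow_natCast, ← Real.rpow_mul (div_pos hm0 hB0).le, one_div, inv_mul_cancel₀ (by linarith : (D : ℝ) ≠ 0),
      Real.rpow_one]
  rcases lt_or_ge x 1 with hx1 | hx1
  · have h1 : (((range r).filter fun k : ℕ => (m : ℤ) ∣ P.eval (k : ℤ)).card : ℝ) ≤ r := by
      have h2 := Finset.card_filter_le (range r) (fun k : ℕ => (m : ℤ) ∣ P.eval (k : ℤ))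
      rw [card_range] at h2
      exact_mod_cast h2
    refine h1.trans ?_
    rw [le_div_iff₀ hx0]
    nlinarith
  · set L : ℕ := ⌊x⌋₊ with hL
    have hL1 : 1 ≤ L := Nat.le_floor (by exact_mod_cast hx1)
    have hLx : (L : ℝ) ≤ x := Nat.floor_le hx0.le
    have hxL : x < (L : ℝ) + 1 := Nat.lt_floor_add_one x
    have hL1r : (1 : ℝ) ≤ (L : ℝ) := by exact_mod_cast hL1
    have hmB : (m : ℝ) / B ≤ m := div_le_self hm0.le (by linarith)
    have hxr : x ≤ r := by
      have h1 : x ≤ x ^ D := le_self_pow₀ hx1 (by omega)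
      rw [hxD] at h1
      linarith
    have hblock : c.natAbs * L ^ ((d + 1) * (d + 1)) < m := by
      have h1 : (c.natAbs : ℝ) * (L : ℝ) ^ D ≤ (c.natAbs : ℝ) * x ^ D :=
        mul_le_mul_of_nonneg_left (pow_le_pow_left₀ (by linarith) hLx D) (by linarith)
      have h2 : (c.natAbs : ℝ) * x ^ D = m / 2 := by
        rw [hxD, hB]
        field_simp
      have h3 : (c.natAbs : ℝ) * (L : ℝ) ^ D < m := by linarith
      exact_mod_cast h3
    have h1 : ((range r).filter fun k : ℕ => (m : ℤ) ∣ P.eval (k : ℤ)).card ≤ d * (range (r / L + 1)).card := by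
      refine Finset.card_le_mul_card_image_of_maps_to (f := fun k : ℕ => k / L) (fun k hk => ?_) d fun b _ => ?_
      · have h2 := mem_range.1 (mem_filter.1 hk).1
        exact mem_range.2 (Nat.lt_succ_of_le (Nat.div_le_div_right h2.le))
      · refine ka5_block d c hc P hP hPc m L hL1 hblock _ (fun k hk => ?_) b fun k hk => ?_
        · exact (mem_filter.1 (mem_filter.1 hk).1).2
        · exact (mem_filter.1 hk).2
    rw [card_range] at h1
    have h2 : (((range r).filter fun k : ℕ => (m : ℤ) ∣ P.eval (k : ℤ)).card : ℝ) ≤ d * ((r / L : ℕ) + 1) := by exact_mod_cast h1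
    have h3 : ((r / L : ℕ) : ℝ) ≤ (r : ℝ) / L := Nat.cast_div_le
    have h4 : (1 : ℝ) ≤ (r : ℝ) / L := by
      rw [le_div_iff₀ (by linarith)]
      linarith
    have h5 : (r : ℝ) / L ≤ 2 * r / x := by
      rw [div_le_div_iff₀ (by linarith) hx0]
      have h6 : x ≤ 2 * L := by linarith
      have h7 : (0 : ℝ) ≤ r := by linarith
      nlinarith
    have h6 : (d : ℝ) * ((r / L : ℕ) + 1) ≤ d * (2 * (2 * r / x)) := by
      refine mul_le_mul_of_nonneg_left ?_ (by linarith)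
      linarith
    refine h2.trans (h6.trans (le_of_eq ?_))
    ring

end Pool.Agent.HUK
end
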