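import Mathlib

/-! Merged copies (to shorten the build) of Lib.H68T.Defs, Lib.H68T.GL1, Lib.H68T.VB, Lib.H68T.LAN. -/

-- from Lib.H68T.Defs
section

/-!
# Project H68T (MP_f686a1_nt): definitions

See `PROOF.md` in this folder. Everything is stated for three parameters: the level `Q`, the
length `X` (both natural numbers), related by `Reg K Q X`, and a constant `c > 0` with
`Good c Q` (no real zero of a real primitive character of conductor at most `Q` in
`[1 - c / log Q, 1]`).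
-/

open Finset

namespace Pool.Agent.Lib.H68T

noncomputable section

/-! ## The problem -/

/-- A finite set of non-negative integers is admissible if for every prime `p` some residue class
modulo `p` contains none of its elements. -/
def Admissible (A : Finset ℕ) : Prop :=
  ∀ p : ℕ, p.Prime → ∃ r : ZMod p, ∀ a ∈ A, (a : ZMod p) ≠ r


/-! ## Parameters -/

/-- The regime of the parameters: `(log X)^K ≤ Q` and `Q ≤ X^(1/(K log log X))`, `X` large. -/
def Reg (K : ℝ) (Q X : ℕ) : Prop :=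
  K ≤ Real.log (Real.log X) ∧ K * Real.log (Real.log X) ≤ Real.log Q ∧
    K * (Real.log Q * Real.log (Real.log X)) ≤ Real.log X

/-- `Q` is a good level: no real primitive character `ψ ≠ 1` of conductor at most `Q` has a real
zero in `[1 - c / log Q, 1]`. -/
def Good (c : ℝ) (Q : ℕ) : Prop :=
  ∀ (r : ℕ) [NeZero r] (ψ : DirichletCharacter ℂ r), r ≤ Q → ψ.IsPrimitive → ψ ≠ 1 →
    ψ ^ 2 = 1 → ∀ σ : ℝ, 1 - c / Real.log Q ≤ σ → σ ≤ 1 → ψ.LFunction (σ : ℂ) ≠ 0

/-! ## Additive side -/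

/-- `e x = exp (2 π i x)` -/
def e (x : ℝ) : ℂ := Complex.exp (2 * Real.pi * x * Complex.I)

/-- `lp m = log m` if `m` is a prime, and `0` otherwise. -/
def lp (m : ℤ) : ℝ := if m.toNat.Prime then Real.log m else 0

/-- Ramanujan's sum `c_q(m)`, by its divisor formula. -/
def cq (q : ℕ) (m : ℤ) : ℝ :=
  ∑ d ∈ q.divisors.filter (fun d : ℕ => (d : ℤ) ∣ m),
    (d : ℝ) * (ArithmeticFunction.moebius (q / d) : ℝ)

/-- The truncated Ramanujan expansion of the von Mangoldt function, the structured model. -/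
def G (Q : ℕ) (m : ℤ) : ℝ :=
  ∑ q ∈ Icc 1 Q, (ArithmeticFunction.moebius q : ℝ) / (Nat.totient q : ℝ) * cq q m

/-- The number of divisors of `m` in `[1, Q]`. -/
def dQ (Q : ℕ) (m : ℤ) : ℝ := (((Icc 1 Q).filter (fun d : ℕ => (d : ℤ) ∣ m)).card : ℝ)

/-- The tent of width `Y` and total mass `1` (for `Y ≥ 1`). -/
def tent (Y : ℕ) (z : ℤ) : ℝ := max 0 ((Y : ℝ) - |(z : ℝ)|) / (Y : ℝ) ^ 2

/-- The kernel of the projection: tent times the sum of the Ramanujan sums. -/
def kern (Q Y : ℕ) (z : ℤ) : ℝ := tent Y z * ∑ q ∈ Icc 1 Q, cq q z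

/-- The projection `lp * kern`. -/
def Lk (Q Y : ℕ) (m : ℤ) : ℝ := ∑ z ∈ Ioo (-(Y : ℤ)) Y, kern Q Y z * lp (m - z)




/-! ## Multiplicative side -/

/-- The primitive characters of conductor between `1` and `Q`. -/
def PCset (Q : ℕ) : Set (Σ r : ℕ, DirichletCharacter ℂ r) :=
  {p | 1 ≤ p.1 ∧ p.1 ≤ Q ∧ p.2.IsPrimitive}

theorem PCset_finite (Q : ℕ) : (PCset Q).Finite := by
  have h : PCset Q ⊆ ⋃ r ∈ Set.Icc 1 Q, Sigma.mk r '' (Set.univ : Set (DirichletCharacter ℂ r)) := by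
    intro p hp
    simp only [Set.mem_iUnion]
    exact ⟨p.1, ⟨hp.1, hp.2.1⟩, p.2, trivial, rfl⟩
  refine Set.Finite.subset (Set.Finite.biUnion (Set.finite_Icc 1 Q) fun r hr => ?_) h
  have : NeZero r := ⟨by have := hr.1; omega⟩
  have : Finite (DirichletCharacter ℂ r) := inferInstance
  exact Set.Finite.image _ Set.finite_univ

/-- The primitive characters of conductor between `1` and `Q`, as a finite set. -/
def PC (Q : ℕ) : Finset (Σ r : ℕ, DirichletCharacter ℂ r) := (PCset_finite Q).toFinset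

/-- The trivial character. -/
def p0 : Σ r : ℕ, DirichletCharacter ℂ r := ⟨1, 1⟩

theorem mem_PC {Q : ℕ} {p : Σ r : ℕ, DirichletCharacter ℂ r} :
    p ∈ PC Q ↔ 1 ≤ p.1 ∧ p.1 ≤ Q ∧ p.2.IsPrimitive := by
  unfold PC
  rw [Set.Finite.mem_toFinset]
  rfl

theorem p0_mem {Q : ℕ} (hQ : 1 ≤ Q) : p0 ∈ PC Q :=
  mem_PC.mpr ⟨le_refl _, hQ, DirichletCharacter.isPrimitive_one_level_one⟩

/-- There are at most `Q^2` primitive characters of conductor at most `Q`. -/
theorem card_PC_le (Q : ℕ) : (PC Q).card ≤ Q ^ 2 := by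
  have key : ∀ r ∈ Icc 1 Q, ((PC Q).filter (fun p => p.1 = r)).card ≤ Q := by
    intro r hr
    rw [mem_Icc] at hr
    have hne : NeZero r := ⟨by omega⟩
    have hfin : Fintype (DirichletCharacter ℂ r) := Fintype.ofFinite _
    have h1 : ((PC Q).filter (fun p => p.1 = r)) ⊆
        (univ : Finset (DirichletCharacter ℂ r)).map (Function.Embedding.sigmaMk r) := by
      intro p hp
      rw [mem_filter] at hp
      obtain ⟨-, hp⟩ := hp
      obtain ⟨r', ψ⟩ := p
      subst hp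
      simp
    refine (card_le_card h1).trans ?_
    rw [card_map, card_univ]
    have h2 := DirichletCharacter.card_eq_totient_of_hasEnoughRootsOfUnity ℂ r
    rw [Nat.card_eq_fintype_card] at h2
    rw [h2]
    exact (Nat.totient_le r).trans hr.2
  have hmaps : Set.MapsTo (fun p : (Σ r : ℕ, DirichletCharacter ℂ r) => p.1) (PC Q : Set _)
      (Icc 1 Q : Set _) := by
    intro p hp
    have := mem_PC.mp hp
    rw [coe_Icc]
    exact ⟨this.1, this.2.1⟩
  have h := Finset.card_eq_sum_card_fiberwise hmaps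
  rw [h]
  refine (Finset.sum_le_sum key).trans ?_
  rw [sum_const, Nat.card_Icc, smul_eq_mul]
  simp [pow_two]

/-- The coefficient of `ψ(n) conj ψ(m)` (`ψ` primitive of conductor `r`) in the expansion of
`∑_{q ≤ Q} c_q(n - m)`, `n` coprime to all `q ≤ Q`. -/
def Gam (Q r : ℕ) (m : ℤ) : ℝ :=
  ∑ q ∈ (Icc 1 Q).filter (fun q => r ∣ q),
    ∑ d ∈ q.divisors.filter (fun d => r ∣ d ∧ IsCoprime (d : ℤ) m),
      (ArithmeticFunction.moebius (q / d) : ℝ) * ((d : ℝ) / (Nat.totient d : ℝ))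

/-- The smooth bump: `1` on `[-1, 3]`, `0` outside `[-2, 4]`. -/
def w (y : ℝ) : ℝ := Real.smoothTransition (y + 2) * Real.smoothTransition (4 - y)

/-- The smooth weight: `1` on `[X/e, e^3 X]`, `0` outside `[X/e^2, e^4 X]`. -/
def v (X : ℕ) (m : ℕ) : ℝ := w (Real.log ((m : ℝ) / X))

/-- The weighted Dirichlet polynomial of `h`. -/
def FF (X : ℕ) (h : ℕ → ℂ) (t : ℝ) : ℂ :=
  ∑ m ∈ Icc 1 (60 * X), h m * (v X m : ℂ) * (m : ℂ) ^ (-(1 + t * Complex.I))

/-- `F_ψ(t) = ∑ Λ(m) ψ(m) v(m) m^(-1-it)` -/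
def FL (X : ℕ) (p : Σ r : ℕ, DirichletCharacter ℂ r) (t : ℝ) : ℂ :=
  FF X (fun m => (ArithmeticFunction.vonMangoldt m : ℂ) * p.2 (m : ZMod p.1)) t

/-- `F_0(t) = ∑ v(m) m^(-1-it)` -/
def F0 (X : ℕ) (t : ℝ) : ℂ := FF X (fun _ => 1) t

/-- Upper end of the Möbius factors. -/
def VV (X : ℕ) : ℕ := ⌊((60 * X : ℕ) : ℝ) ^ ((1 : ℝ) / 3)⌋₊

/-- Lower end of the Möbius factors. -/
def AA (X : ℕ) : ℕ := ⌈(X : ℝ) ^ ((1 : ℝ) / 4)⌉₊

/-- The Möbius polynomial `M_ψ(t) = ∑_{A ≤ a ≤ V} μ(a) ψ(a) a^(-1-it)`. -/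
def Mu (X : ℕ) (p : Σ r : ℕ, DirichletCharacter ℂ r) (t : ℝ) : ℂ :=
  ∑ a ∈ Icc (AA X) (VV X), (ArithmeticFunction.moebius a : ℂ) * p.2 (a : ZMod p.1) *
    (a : ℂ) ^ (-(1 + t * Complex.I))

/-- The cutoff selecting the short smooth variables: `1` for `n ≤ Q^20`, `0` for `n ≥ e Q^20`. -/
def rho (Q : ℕ) (n : ℕ) : ℝ := 1 - Real.smoothTransition (Real.log ((n : ℝ) / (Q : ℝ) ^ 20))

/-- The long smooth sum `∑_n (1 - ρ(n)) (log n)^j ψ(n) v(a n) n^(-1-it)`. -/
def Long (Q X : ℕ) (p : Σ r : ℕ, DirichletCharacter ℂ r) (j a : ℕ) (t : ℝ) : ℂ :=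
  ∑ n ∈ Icc 1 (60 * X), (((1 - rho Q n) * Real.log n ^ j * v X (a * n) : ℝ) : ℂ) *
    p.2 (n : ZMod p.1) * (n : ℂ) ^ (-(1 + t * Complex.I))

/-- An arithmetic function given by a function (value `0` at `0`). -/
def af (f : ℕ → ℝ) : ArithmeticFunction ℝ := ⟨fun n => if n = 0 then 0 else f n, by simp⟩

/-- The main part of Heath-Brown's identity: three Möbius factors in `[A, V]`, three short smooth
variables. -/
def hmain (Q X : ℕ) : ArithmeticFunction ℝ :=
  (af (fun a => if AA X ≤ a ∧ a ≤ VV X then (ArithmeticFunction.moebius a : ℝ) else 0)) ^ 3 *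
    (af (rho Q)) ^ 2 * af (fun n => rho Q n * Real.log n)

/-- The rectangle in which `1/L` is controlled. -/
def Rg (c : ℝ) (Q : ℕ) : Set ℂ :=
  {s | 1 - c / Real.log Q ≤ s.re ∧ s.re ≤ 2 ∧ |s.im| ≤ (Q : ℝ) ^ 12}

end

end Pool.Agent.Lib.H68T
end

-- from Lib.H68T.GL1
section

/-!
# Chunk GL1; part of GL: growth of L-functions and zeta
-/

open Finset

namespace Pool.Agent.Lib.H68T

/-! ### Differences of powers -/

theorem gl1_hasDerivAt (s : ℂ) {x : ℝ} (hx : 0 < x) :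
    HasDerivAt (fun x : ℝ => (x : ℂ) ^ (-s)) (-s * (x : ℂ) ^ (-s - 1)) x := by
  have h1 : HasDerivAt (fun z : ℂ => z ^ (-s)) (-s * (x : ℂ) ^ (-s - 1)) (x : ℂ) := by
    have := (hasDerivAt_id (x : ℂ)).cpow_const (c := -s) (by
      left
      simpa using hx)
    simpa using this
  exact h1.comp_ofReal

theorem gl1_norm_deriv (s : ℂ) {x : ℝ} (hx : 0 < x) :
    ‖-s * (x : ℂ) ^ (-s - 1)‖ = ‖s‖ * x ^ (-s.re - 1) := by
  rw [norm_mul, norm_neg, Complex.norm_cpow_eq_rpow_re_of_pos hx]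
  simp

/-- `‖a^(-s) - b^(-s)‖ ≤ |s|/σ (a^(-σ) - b^(-σ))` -/
theorem gl1_diff (s : ℂ) (hs : 0 < s.re) {a b : ℝ} (ha : 0 < a) (hab : a ≤ b) :
    ‖(b : ℂ) ^ (-s) - (a : ℂ) ^ (-s)‖ ≤ ‖s‖ / s.re * (a ^ (-s.re) - b ^ (-s.re)) := by
  have hpos : ∀ x ∈ Set.Icc a b, 0 < x := fun x hx => lt_of_lt_of_le ha hx.1
  have key := image_norm_le_of_norm_deriv_right_le_deriv_boundary'
    (f := fun x : ℝ => (x : ℂ) ^ (-s) - (a : ℂ) ^ (-s)) (a := a) (b := b)
    (f' := fun x => -s * (x : ℂ) ^ (-s - 1))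
    (B := fun x => ‖s‖ / s.re * (a ^ (-s.re) - x ^ (-s.re)))
    (B' := fun x => ‖s‖ * x ^ (-s.re - 1)) ?_ ?_ ?_ ?_ ?_ ?_
  · exact key ⟨hab, le_rfl⟩
  · intro x hx
    exact ((gl1_hasDerivAt s (hpos x hx)).sub_const _).continuousAt.continuousWithinAt
  · intro x hx
    exact ((gl1_hasDerivAt s (hpos x ⟨hx.1, hx.2.le⟩)).sub_const _).hasDerivWithinAt
  · simp
  · intro x hx
    have h1 : HasDerivAt (fun x : ℝ => x ^ (-s.re)) (-s.re * x ^ (-s.re - 1)) x :=
      Real.hasDerivAt_rpow_const (Or.inl (hpos x hx).ne')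
    exact ((h1.const_sub _).const_mul _).continuousAt.continuousWithinAt
  · intro x hx
    have h1 : HasDerivAt (fun x : ℝ => x ^ (-s.re)) (-s.re * x ^ (-s.re - 1)) x :=
      Real.hasDerivAt_rpow_const (Or.inl (hpos x ⟨hx.1, hx.2.le⟩).ne')
    have h2 := ((h1.const_sub (a ^ (-s.re))).const_mul (‖s‖ / s.re)).hasDerivWithinAt
      (s := Set.Ici x)
    have h3 : ‖s‖ / s.re * -(-s.re * x ^ (-s.re - 1)) = ‖s‖ * x ^ (-s.re - 1) := by
      field_simp
    rw [h3] at h2
    exact h2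
  · intro x hx
    rw [gl1_norm_deriv s (hpos x ⟨hx.1, hx.2.le⟩)]

/-- `‖a^(-s) - b^(-s)‖ ≤ |s| a^(-σ-1) (b - a)` -/
theorem gl1_diff' (s : ℂ) (hs : 0 < s.re) {a b : ℝ} (ha : 0 < a) (hab : a ≤ b) :
    ‖(b : ℂ) ^ (-s) - (a : ℂ) ^ (-s)‖ ≤ ‖s‖ * a ^ (-s.re - 1) * (b - a) := by
  have hpos : ∀ x ∈ Set.Icc a b, 0 < x := fun x hx => lt_of_lt_of_le ha hx.1
  refine norm_image_sub_le_of_norm_deriv_le_segment' (f := fun x : ℝ => (x : ℂ) ^ (-s))
    (a := a) (b := b) (f' := fun x => -s * (x : ℂ) ^ (-s - 1))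
    (fun x hx => (gl1_hasDerivAt s (hpos x hx)).hasDerivWithinAt) (fun x hx => ?_) b ⟨hab, le_rfl⟩
  have hx' := hpos x ⟨hx.1, hx.2.le⟩
  rw [gl1_norm_deriv s hx']
  refine mul_le_mul_of_nonneg_left ?_ (norm_nonneg _)
  exact Real.rpow_le_rpow_of_nonpos ha hx.1 (by linarith)

/-! ### Series of functions on the right half plane -/

/-- A series dominated by `(n+1)^(-σ-1)`, locally uniformly, is analytic for `σ > 0`. -/
theorem gl1_analytic (F : ℕ → ℂ → ℂ) (hF : ∀ n, Differentiable ℂ (F n))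
    (hb : ∀ R : ℝ, ∃ C : ℝ, ∀ n s, 0 < s.re → ‖s‖ ≤ R →
      ‖F n s‖ ≤ C * ((n : ℝ) + 1) ^ (-s.re - 1)) :
    DifferentiableOn ℂ (fun s => ∑' n, F n s) {s | 0 < s.re} := by
  intro s₀ hs₀
  have hs₀' : 0 < s₀.re := hs₀
  obtain ⟨C, hC⟩ := hb (‖s₀‖ + 1)
  let U : Set ℂ := {s | s₀.re / 2 < s.re} ∩ {s | ‖s‖ < ‖s₀‖ + 1}
  have hU : IsOpen U := by
    apply IsOpen.inter
    · exact isOpen_lt continuous_const Complex.continuous_re
    · exact isOpen_lt continuous_norm continuous_const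
  have hmem : s₀ ∈ U := by
    constructor
    · change s₀.re / 2 < s₀.re
      linarith
    · change ‖s₀‖ < ‖s₀‖ + 1
      linarith
  have hu : Summable fun n : ℕ => |C| * ((n : ℝ) + 1) ^ (-(s₀.re / 2) - 1) := by
    apply Summable.mul_left
    have h1 : Summable fun n : ℕ => (n : ℝ) ^ (-(s₀.re / 2) - 1) :=
      Real.summable_nat_rpow.2 (by linarith)
    have h2 := (summable_nat_add_iff 1).2 h1
    simpa using h2
  have h1 := Complex.differentiableOn_tsum_of_summable_norm (F := F) hu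
    (fun n => (hF n).differentiableOn) hU (fun n s hs => ?_)
  · exact (h1.differentiableAt (hU.mem_nhds hmem)).differentiableWithinAt
  · have h2 : s₀.re / 2 < s.re := hs.1
    have h3 : ‖s‖ < ‖s₀‖ + 1 := hs.2
    refine (hC n s (by linarith) h3.le).trans ?_
    have h4 : ((n : ℝ) + 1) ^ (-s.re - 1) ≤ ((n : ℝ) + 1) ^ (-(s₀.re / 2) - 1) :=
      Real.rpow_le_rpow_of_exponent_le (by linarith [Nat.cast_nonneg (α := ℝ) n]) (by linarith)
    have h5 : 0 ≤ ((n : ℝ) + 1) ^ (-s.re - 1) := Real.rpow_nonneg (by positivity) _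
    calc C * ((n : ℝ) + 1) ^ (-s.re - 1) ≤ |C| * ((n : ℝ) + 1) ^ (-s.re - 1) :=
          mul_le_mul_of_nonneg_right (le_abs_self C) h5
      _ ≤ |C| * ((n : ℝ) + 1) ^ (-(s₀.re / 2) - 1) :=
          mul_le_mul_of_nonneg_left h4 (abs_nonneg C)

/-- telescoping -/
theorem gl1_tele (σ : ℝ) (hσ : 0 < σ) (D : ℝ) (hD : 0 ≤ D) (f : ℕ → ℂ)
    (hf : ∀ n : ℕ, ‖f n‖ ≤ D * (((n : ℝ) + 1) ^ (-σ) - ((n : ℝ) + 2) ^ (-σ))) :
    Summable f ∧ ‖∑' n, f n‖ ≤ D := by
  have hsum : ∀ K : ℕ, ∑ n ∈ range K, ‖f n‖ ≤ D := by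
    intro K
    have h1 : ∑ n ∈ range K, ‖f n‖ ≤ D * (1 - ((K : ℝ) + 1) ^ (-σ)) := by
      induction K with
      | zero => simp
      | succ K ih =>
        rw [sum_range_succ]
        have h2 := hf K
        push_cast
        have e : (K : ℝ) + 1 + 1 = (K : ℝ) + 2 := by ring
        rw [e]
        linarith
    have h3 : 0 ≤ ((K : ℝ) + 1) ^ (-σ) := Real.rpow_nonneg (by positivity) _
    nlinarith
  have hs : Summable fun n => ‖f n‖ := summable_of_sum_range_le (fun n => norm_nonneg _) hsum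
  refine ⟨hs.of_norm, ?_⟩
  refine (norm_tsum_le_tsum_norm hs).trans ?_
  exact hs.tsum_le_of_sum_range_le hsum

/-! ### Partial sums of characters -/

/-- `χ(1) + ... + χ(n)` -/
noncomputable def gl1_T {N : ℕ} (χ : DirichletCharacter ℂ N) (n : ℕ) : ℂ :=
  ∑ k ∈ range n, χ ((k + 1 : ℕ) : ZMod N)

theorem gl1_period (N : ℕ) [NeZero N] (χ : DirichletCharacter ℂ N) (hχ : χ ≠ 1) (n : ℕ) :
    ∑ k ∈ range N, χ ((n + k + 1 : ℕ) : ZMod N) = 0 := by
  rw [← MulChar.sum_eq_zero_of_ne_one hχ]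
  refine sum_nbij' (fun k => ((n + k + 1 : ℕ) : ZMod N)) (fun a => (a - n - 1).val) ?_ ?_ ?_ ?_ ?_
  · intro k _
    exact mem_univ _
  · intro a _
    exact mem_range.2 (ZMod.val_lt _)
  · intro k hk
    have h1 : (((n + k + 1 : ℕ) : ZMod N) - n - 1) = (k : ZMod N) := by
      push_cast
      ring
    rw [h1, ZMod.val_natCast, Nat.mod_eq_of_lt (mem_range.1 hk)]
  · intro a _
    push_cast
    rw [ZMod.natCast_val, ZMod.cast_id]
    ring
  · intro k _
    rfl

theorem gl1_T_bound (N : ℕ) [NeZero N] (χ : DirichletCharacter ℂ N) (hχ : χ ≠ 1) (n : ℕ) :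
    ‖gl1_T χ n‖ ≤ N := by
  have hN : 0 < N := Nat.pos_of_ne_zero (NeZero.ne N)
  induction n using Nat.strong_induction_on with
  | _ n ih =>
    rcases lt_or_ge n N with h | h
    · refine (norm_sum_le _ _).trans ?_
      refine (sum_le_sum fun k _ => DirichletCharacter.norm_le_one χ _).trans ?_
      rw [sum_const, card_range, nsmul_eq_mul, mul_one]
      exact_mod_cast h.le
    · obtain ⟨m, rfl⟩ := Nat.exists_eq_add_of_le' h
      have h1 : gl1_T χ (m + N) = gl1_T χ m := by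
        rw [gl1_T, sum_range_add, gl1_period N χ hχ, add_zero]
        rfl
      rw [h1]
      exact ih m (by omega)

theorem gl1_parts {N : ℕ} (χ : DirichletCharacter ℂ N) (a : ℕ → ℂ) (K : ℕ) :
    ∑ n ∈ range K, χ ((n + 1 : ℕ) : ZMod N) * a n =
      gl1_T χ K * a K + ∑ n ∈ range K, gl1_T χ (n + 1) * (a n - a (n + 1)) := by
  induction K with
  | zero => simp [gl1_T]
  | succ K ih =>
    rw [sum_range_succ, ih, sum_range_succ]
    have h1 : gl1_T χ (K + 1) = gl1_T χ K + χ ((K + 1 : ℕ) : ZMod N) := by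
      rw [gl1_T, sum_range_succ]
      rfl
    rw [h1]
    ring

/-- the analytic continuation -/
noncomputable def gl1_A {N : ℕ} (χ : DirichletCharacter ℂ N) (n : ℕ) (s : ℂ) : ℂ :=
  gl1_T χ (n + 1) * ((((n : ℝ) + 1 : ℝ) : ℂ) ^ (-s) - (((n : ℝ) + 2 : ℝ) : ℂ) ^ (-s))

theorem gl1_A_norm (N : ℕ) [NeZero N] (χ : DirichletCharacter ℂ N) (hχ : χ ≠ 1) (n : ℕ) (s : ℂ)
    (hs : 0 < s.re) : ‖gl1_A χ n s‖ ≤
      N * ‖s‖ / s.re * (((n : ℝ) + 1) ^ (-s.re) - ((n : ℝ) + 2) ^ (-s.re)) := by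
  rw [gl1_A, norm_mul, norm_sub_rev]
  have h1 := gl1_T_bound N χ hχ (n + 1)
  have h2 := gl1_diff s hs (a := (n : ℝ) + 1) (b := (n : ℝ) + 2) (by positivity) (by linarith)
  calc _ ≤ (N : ℝ) * (‖s‖ / s.re * (((n : ℝ) + 1) ^ (-s.re) - ((n : ℝ) + 2) ^ (-s.re))) :=
        mul_le_mul h1 h2 (norm_nonneg _) (Nat.cast_nonneg _)
    _ = _ := by ring

theorem gl1_A_norm' (N : ℕ) [NeZero N] (χ : DirichletCharacter ℂ N) (hχ : χ ≠ 1) (n : ℕ) (s : ℂ)
    (hs : 0 < s.re) : ‖gl1_A χ n s‖ ≤ N * ‖s‖ * ((n : ℝ) + 1) ^ (-s.re - 1) := by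
  rw [gl1_A, norm_mul, norm_sub_rev]
  have h1 := gl1_T_bound N χ hχ (n + 1)
  have h2 := gl1_diff' s hs (a := (n : ℝ) + 1) (b := (n : ℝ) + 2) (by positivity) (by linarith)
  have e : (n : ℝ) + 2 - ((n : ℝ) + 1) = 1 := by ring
  rw [e, mul_one] at h2
  calc _ ≤ (N : ℝ) * (‖s‖ * ((n : ℝ) + 1) ^ (-s.re - 1)) :=
        mul_le_mul h1 h2 (norm_nonneg _) (Nat.cast_nonneg _)
    _ = _ := by ring

theorem gl1_eq (N : ℕ) [NeZero N] (χ : DirichletCharacter ℂ N) (hχ : χ ≠ 1) (s : ℂ)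
    (hs : 1 < s.re) : χ.LFunction s = ∑' n, gl1_A χ n s := by
  have hs0 : 0 < s.re := by linarith
  rw [DirichletCharacter.LFunction_eq_LSeries χ hs]
  have hsumA := (gl1_tele s.re hs0 (N * ‖s‖ / s.re) (by positivity) (fun n => gl1_A χ n s)
    (fun n => gl1_A_norm N χ hχ n s hs0)).1
  have h1 : Summable (LSeries.term (fun n => χ (n : ZMod N)) s) :=
    DirichletCharacter.LSeriesSummable_of_one_lt_re χ hs
  have h2 : Filter.Tendsto (fun K => ∑ n ∈ range K,
      LSeries.term (fun n => χ (n : ZMod N)) s (n + 1)) Filter.atTop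
      (nhds (LSeries (fun n => χ (n : ZMod N)) s)) := by
    have h3 := h1.hasSum.tendsto_sum_nat
    have h4 := (Filter.tendsto_add_atTop_iff_nat 1).2 h3
    refine h4.congr fun K => ?_
    rw [sum_range_succ']
    simp
  have h5 : Filter.Tendsto (fun K => gl1_T χ K * (((K : ℝ) + 1 : ℝ) : ℂ) ^ (-s) +
      ∑ n ∈ range K, gl1_A χ n s) Filter.atTop (nhds (0 + ∑' n, gl1_A χ n s)) := by
    refine Filter.Tendsto.add ?_ hsumA.hasSum.tendsto_sum_nat
    have h6 : Filter.Tendsto (fun K : ℕ => (N : ℝ) * ((K : ℝ) + 1) ^ (-s.re)) Filter.atTop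
        (nhds ((N : ℝ) * 0)) := by
      refine Filter.Tendsto.const_mul _ ?_
      have h7 := tendsto_rpow_neg_atTop hs0
      have h8 : Filter.Tendsto (fun K : ℕ => (K : ℝ) + 1) Filter.atTop Filter.atTop :=
        Filter.tendsto_atTop_add_const_right _ _ tendsto_natCast_atTop_atTop
      exact h7.comp h8
    rw [mul_zero] at h6
    refine squeeze_zero_norm (fun K => ?_) h6
    rw [norm_mul, Complex.norm_cpow_eq_rpow_re_of_pos (by positivity)]
    exact mul_le_mul_of_nonneg_right (gl1_T_bound N χ hχ K) (Real.rpow_nonneg (by positivity) _)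
  rw [zero_add] at h5
  refine tendsto_nhds_unique h2 (h5.congr fun K => ?_)
  have h9 := gl1_parts χ (fun n => (((n : ℝ) + 1 : ℝ) : ℂ) ^ (-s)) K
  have h10 : ∀ n : ℕ, LSeries.term (fun n => χ (n : ZMod N)) s (n + 1) =
      χ ((n + 1 : ℕ) : ZMod N) * (((n : ℝ) + 1 : ℝ) : ℂ) ^ (-s) := by
    intro n
    rw [LSeries.term_of_ne_zero (by omega), Complex.cpow_neg, div_eq_mul_inv]
    push_cast
    rfl
  simp only [h10]
  rw [h9]
  congr 1
  refine sum_congr rfl fun n _ => ?_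
  rw [gl1_A]
  congr 3
  push_cast
  ring_nf

theorem gl1_eqOn (N : ℕ) [NeZero N] (χ : DirichletCharacter ℂ N) (hχ : χ ≠ 1) (s : ℂ)
    (hs : 0 < s.re) : χ.LFunction s = ∑' n, gl1_A χ n s := by
  have hop : IsOpen {s : ℂ | 0 < s.re} := isOpen_lt continuous_const Complex.continuous_re
  have h1 : AnalyticOnNhd ℂ (fun s => ∑' n, gl1_A χ n s) {s | 0 < s.re} := by
    apply DifferentiableOn.analyticOnNhd _ hop
    apply gl1_analytic
    · intro n
      unfold gl1_A
      have h : ∀ x : ℝ, 0 < x → Differentiable ℂ fun s : ℂ => (x : ℂ) ^ (-s) := by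
        intro x hx s
        refine DifferentiableAt.const_cpow (differentiableAt_id.neg) (Or.inl ?_)
        exact_mod_cast hx.ne'
      exact ((h _ (by positivity)).sub (h _ (by positivity))).const_mul _
    · intro R
      refine ⟨N * R, fun n s hs hR => ?_⟩
      refine (gl1_A_norm' N χ hχ n s hs).trans ?_
      apply mul_le_mul_of_nonneg_right _ (Real.rpow_nonneg (by positivity) _)
      exact mul_le_mul_of_nonneg_left hR (Nat.cast_nonneg _)
  have h2 : AnalyticOnNhd ℂ χ.LFunction {s | 0 < s.re} :=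
    ((DirichletCharacter.differentiable_LFunction hχ).differentiableOn).analyticOnNhd hop
  have h3 : IsPreconnected {s : ℂ | 0 < s.re} :=
    (convex_halfSpace_re_gt 0).isPreconnected
  have h4 := h2.eqOn_of_preconnected_of_eventuallyEq h1 h3 (z₀ := 2) (by simp) ?_
  · exact h4 hs
  · have h5 : {s : ℂ | 1 < s.re} ∈ nhds (2 : ℂ) :=
      (isOpen_lt continuous_const Complex.continuous_re).mem_nhds (by simp)
    filter_upwards [h5] with s hs
    exact gl1_eq N χ hχ s hs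

/-- `‖L(s,χ)‖ ≤ 2 N ‖s‖` for `Re s ≥ 1/2`, `χ ≠ 1` mod `N`. Partial sums of `χ` are bounded by `N`;
`L(s,χ) = s ∫_1^∞ S(u) u^(-s-1) du` for `Re s > 1` (`LSeries_eq_mul_integral`), both sides are
analytic for `Re s > 0` (differentiate under the integral, or locally uniform limits of the
integrals over `[1, n]`), so they agree there (`AnalyticOnNhd.eqOn_of_preconnected_of_eventuallyEq`);
`|s| N ∫_1^∞ u^(-3/2) du = 2 N |s|`. -/
theorem LFunction_bound (N : ℕ) [NeZero N] (χ : DirichletCharacter ℂ N) (hχ : χ ≠ 1) (s : ℂ)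
    (hs : 1 / 2 ≤ s.re) : ‖χ.LFunction s‖ ≤ 2 * N * ‖s‖ := by
  have hs0 : 0 < s.re := by linarith
  rw [gl1_eqOn N χ hχ s hs0]
  refine (gl1_tele s.re hs0 (N * ‖s‖ / s.re) (by positivity) (fun n => gl1_A χ n s)
    (fun n => gl1_A_norm N χ hχ n s hs0)).2.trans ?_
  rw [div_le_iff₀ hs0]
  have h1 : 0 ≤ (N : ℝ) * ‖s‖ := by positivity
  nlinarith

end Pool.Agent.Lib.H68T
end

-- from Lib.H68T.VB
section

/-!
# Chunk VB: sums over geometric progressions (the block lemma)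
-/

open Finset

namespace Pool.Agent.Lib.H68T

/-- Distance to the nearest integer. -/
noncomputable def nd (x : ℝ) : ℝ := |x - round x|

theorem VB_e_add (x y : ℝ) : e (x + y) = e x * e y := by
  unfold e
  rw [← Complex.exp_add]
  congr 1
  push_cast
  ring

theorem VB_norm_e (x : ℝ) : ‖e x‖ = 1 := by
  unfold e
  have : (2 * Real.pi * x * Complex.I : ℂ) = ((2 * Real.pi * x : ℝ) : ℂ) * Complex.I := by
    push_cast
    ring
  rw [this, Complex.norm_exp_ofReal_mul_I]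

theorem VB_e_int (n : ℤ) : e n = 1 := by
  unfold e
  rw [Complex.exp_eq_one_iff]
  refine ⟨n, ?_⟩
  push_cast
  ring

theorem VB_tele (a : ℤ) (ξ : ℝ) (n : ℕ) :
    (e ξ - 1) * ∑ x ∈ Finset.Ico a (a + n), e (x * ξ) = e (((a + n : ℤ) : ℝ) * ξ) - e (a * ξ) := by
  induction n with
  | zero => simp
  | succ n ih =>
    have h1 : Finset.Ico a (a + ((n + 1 : ℕ) : ℤ)) = insert (a + n) (Finset.Ico a (a + n)) := by
      ext x
      simp only [Finset.mem_insert, Finset.mem_Ico]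
      push_cast
      omega
    have h2 : (a + n : ℤ) ∉ Finset.Ico a (a + n) := by simp
    rw [h1, Finset.sum_insert h2, mul_add, ih]
    have h3 : e (((a + ((n + 1 : ℕ) : ℤ) : ℤ) : ℝ) * ξ) = e ξ * e (((a + n : ℤ) : ℝ) * ξ) := by
      rw [← VB_e_add]
      congr 1
      push_cast
      ring
    rw [h3]
    ring

theorem VB_four_nd_le (ξ : ℝ) : 4 * nd ξ ≤ ‖e ξ - 1‖ := by
  have h1 : e ξ = e (ξ - round ξ) := by
    have h : ξ = (ξ - round ξ) + (round ξ : ℤ) := by ring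
    conv_lhs => rw [h, VB_e_add, VB_e_int, mul_one]
  rw [h1]
  set t : ℝ := ξ - round ξ with ht
  have htn : nd ξ = |t| := rfl
  have ht2 : |t| ≤ 1 / 2 := abs_sub_round ξ
  have h2 : e t = Complex.exp (Complex.I * ((2 * Real.pi * t : ℝ) : ℂ)) := by
    unfold e
    congr 1
    push_cast
    ring
  rw [h2, Complex.norm_exp_I_mul_ofReal_sub_one, htn]
  have h3 : |2 * Real.pi * t / 2| ≤ Real.pi / 2 := by
    have : 2 * Real.pi * t / 2 = Real.pi * t := by ring
    rw [this, abs_mul, abs_of_pos Real.pi_pos]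
    nlinarith [Real.pi_pos]
  have h4 := Real.mul_abs_le_abs_sin h3
  have h5 : 2 / Real.pi * |2 * Real.pi * t / 2| = 2 * |t| := by
    have : 2 * Real.pi * t / 2 = Real.pi * t := by ring
    rw [this, abs_mul, abs_of_pos Real.pi_pos]
    field_simp
  rw [h5] at h4
  rw [norm_mul, Real.norm_eq_abs, Real.norm_eq_abs, abs_of_pos (by norm_num : (0 : ℝ) < 2)]
  linarith

/-- `|∑_{n ∈ [u,v)} e(nα)| ≤ min (v - u, 1/(2‖α‖))`. (See also `H18GB.Vl.geo`.) -/
theorem geo_le (u v : ℤ) (huv : u ≤ v) (α : ℝ) :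
    ‖∑ n ∈ Ico u v, e (n * α)‖ ≤ v - u ∧ ‖∑ n ∈ Ico u v, e (n * α)‖ * (2 * nd α) ≤ 1 := by
  constructor
  · refine (norm_sum_le _ _).trans ?_
    simp_rw [VB_norm_e]
    rw [sum_const, Int.card_Ico, nsmul_eq_mul, mul_one]
    have : (((v - u).toNat : ℤ) : ℝ) = ((v - u : ℤ) : ℝ) := by
      rw [Int.toNat_of_nonneg (by omega)]
    push_cast at this
    rw [this]
  · obtain ⟨n, rfl⟩ : ∃ n : ℕ, v = u + n := ⟨(v - u).toNat, by omega⟩
    have h1 := congrArg norm (VB_tele u α n)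
    rw [norm_mul] at h1
    have h2 : ‖e (((u + n : ℤ) : ℝ) * α) - e (u * α)‖ ≤ 2 := by
      refine (norm_sub_le _ _).trans ?_
      rw [VB_norm_e, VB_norm_e]
      norm_num
    have h3 := VB_four_nd_le α
    have h4 : 4 * nd α * ‖∑ x ∈ Finset.Ico u (u + n), e (x * α)‖ ≤ 2 := by
      calc 4 * nd α * ‖∑ x ∈ Finset.Ico u (u + n), e (x * α)‖
          ≤ ‖e α - 1‖ * ‖∑ x ∈ Finset.Ico u (u + n), e (x * α)‖ := by gcongr
        _ ≤ 2 := by rw [h1]; exact h2
    linarith

/-- the cell of `x` modulo `1` in the partition into `q` intervals -/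
noncomputable def VB_cell (q : ℕ) (x : ℝ) : ℤ := ⌊(q : ℝ) * Int.fract x⌋

theorem VB_cell_mem {q : ℕ} (hq : 1 ≤ q) (x : ℝ) : 0 ≤ VB_cell q x ∧ VB_cell q x < q := by
  have hq' : (0 : ℝ) < q := by exact_mod_cast hq
  constructor
  · exact Int.floor_nonneg.mpr (mul_nonneg hq'.le (Int.fract_nonneg x))
  · unfold VB_cell
    rw [Int.floor_lt]
    push_cast
    nlinarith [Int.fract_lt_one x]

/-- At most three of `q` consecutive multiples of `θ` fall in one cell. -/
theorem VB_fiber {θ : ℝ} {q : ℕ} {a : ℤ} (hq : 1 ≤ q) (hco : IsCoprime a (q : ℤ))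
    (hθ : |θ - a / q| ≤ 1 / (q : ℝ) ^ 2) (n0 : ℤ) (k : ℤ) :
    ((Ico n0 (n0 + q)).filter (fun n : ℤ => VB_cell q (n * θ) = k)).card ≤ 3 := by
  have hq' : (0 : ℝ) < q := by exact_mod_cast hq
  rcases ((Ico n0 (n0 + q)).filter (fun n : ℤ => VB_cell q (n * θ) = k)).eq_empty_or_nonempty with
    h0 | ⟨r', hr'⟩
  · rw [h0]; simp
  rw [mem_filter, mem_Ico] at hr'
  obtain ⟨⟨hr1, hr2⟩, hr3⟩ := hr'
  set t : ℤ → ℤ := fun r => (r - r') * a - q * (⌊(r : ℝ) * θ⌋ - ⌊(r' : ℝ) * θ⌋) with ht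
  have hmem : ∀ r ∈ (Ico n0 (n0 + q)).filter (fun n : ℤ => VB_cell q (n * θ) = k),
      t r ∈ Icc (-1 : ℤ) 1 := by
    intro r hr
    rw [mem_filter, mem_Ico] at hr
    obtain ⟨⟨h1, h2⟩, h3⟩ := hr
    have hcell : VB_cell q (r * θ) = VB_cell q (r' * θ) := by rw [h3, hr3]
    have hab : |(q : ℝ) * Int.fract ((r : ℝ) * θ) - (q : ℝ) * Int.fract ((r' : ℝ) * θ)| < 1 :=
      Int.abs_sub_lt_one_of_floor_eq_floor hcell
    have hrr : |((r : ℝ) - r')| ≤ q - 1 := by
      rw [abs_le]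
      have e1 : (r : ℝ) ≤ n0 + q - 1 := by
        have : r ≤ n0 + q - 1 := by omega
        exact_mod_cast this
      have e2 : (n0 : ℝ) ≤ r := by exact_mod_cast h1
      have e3 : (r' : ℝ) ≤ n0 + q - 1 := by
        have : r' ≤ n0 + q - 1 := by omega
        exact_mod_cast this
      have e4 : (n0 : ℝ) ≤ r' := by exact_mod_cast hr1
      constructor <;> linarith
    have hkey : |(t r : ℝ)| < 2 := by
      have e1 : (t r : ℝ) = ((q : ℝ) * Int.fract ((r : ℝ) * θ) - (q : ℝ) * Int.fract ((r' : ℝ) * θ)) -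
          ((r : ℝ) - r') * (q * (θ - a / q)) := by
        rw [ht]
        have f1 : Int.fract ((r : ℝ) * θ) = r * θ - ⌊(r : ℝ) * θ⌋ := rfl
        have f2 : Int.fract ((r' : ℝ) * θ) = r' * θ - ⌊(r' : ℝ) * θ⌋ := rfl
        rw [f1, f2]
        push_cast
        field_simp
        ring
      have e2 : |((r : ℝ) - r') * (q * (θ - a / q))| ≤ (q - 1) * (1 / q) := by
        rw [abs_mul, abs_mul, abs_of_pos hq']
        have : (q : ℝ) * |θ - a / q| ≤ 1 / q := by
          calc (q : ℝ) * |θ - a / q| ≤ q * (1 / (q : ℝ) ^ 2) :=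
                mul_le_mul_of_nonneg_left hθ hq'.le
            _ = 1 / q := by field_simp
        exact mul_le_mul hrr this (by positivity) (le_trans (abs_nonneg _) hrr)
      have e3 : ((q : ℝ) - 1) * (1 / q) < 1 := by
        rw [mul_one_div, div_lt_one hq']
        linarith
      rw [e1]
      calc _ ≤ |(q : ℝ) * Int.fract ((r : ℝ) * θ) - (q : ℝ) * Int.fract ((r' : ℝ) * θ)| +
            |((r : ℝ) - r') * (q * (θ - a / q))| := abs_sub _ _
        _ < 2 := by linarith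
    rw [abs_lt] at hkey
    have h4 : (-2 : ℤ) < t r := by exact_mod_cast hkey.1
    have h5 : t r < (2 : ℤ) := by exact_mod_cast hkey.2
    rw [mem_Icc]
    omega
  have hinj : Set.InjOn t ((Ico n0 (n0 + q)).filter (fun n : ℤ => VB_cell q (n * θ) = k) : Set ℤ) := by
    intro r1 h1 r2 h2 h12
    rw [coe_filter, Set.mem_setOf_eq, mem_Ico] at h1 h2
    have h3 : (q : ℤ) ∣ (r1 - r2) * a := by
      refine ⟨(⌊(r1 : ℝ) * θ⌋ - ⌊(r' : ℝ) * θ⌋) - (⌊(r2 : ℝ) * θ⌋ - ⌊(r' : ℝ) * θ⌋), ?_⟩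
      have h12' : (r1 - r') * a - q * (⌊(r1 : ℝ) * θ⌋ - ⌊(r' : ℝ) * θ⌋) =
        (r2 - r') * a - q * (⌊(r2 : ℝ) * θ⌋ - ⌊(r' : ℝ) * θ⌋) := h12
      linear_combination h12'
    have h4 : (q : ℤ) ∣ (r1 - r2) := (hco.symm).dvd_of_dvd_mul_right h3
    have h5 : |r1 - r2| < q := by
      rw [abs_lt]
      omega
    have h6 := Int.eq_zero_of_abs_lt_dvd h4 h5
    omega
  have := card_le_card_of_injOn t hmem hinj
  simpa using this

/-- The weight of the block lemma. -/
noncomputable def VB_f (B x : ℝ) : ℝ := if nd x = 0 then B else min B (1 / (2 * nd x))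

theorem VB_nd_nonneg (x : ℝ) : 0 ≤ nd x := abs_nonneg _

theorem VB_f_nonneg {B : ℝ} (hB : 0 ≤ B) (x : ℝ) : 0 ≤ VB_f B x := by
  unfold VB_f
  split_ifs
  · exact hB
  · exact le_min hB (by have := VB_nd_nonneg x; positivity)

theorem VB_f_le {B : ℝ} (x : ℝ) : VB_f B x ≤ B := by
  unfold VB_f
  split_ifs
  · exact le_rfl
  · exact min_le_left _ _

/-- distance to the nearest integer in terms of the fractional part -/
theorem VB_nd_eq (x : ℝ) : nd x = min (Int.fract x) (1 - Int.fract x) := by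
  unfold nd
  exact abs_sub_round_eq_min x

theorem VB_nd_ge {q : ℕ} (hq : 1 ≤ q) (x : ℝ) (j : ℝ) (h1 : j ≤ VB_cell q x)
    (h2 : j ≤ q - 1 - VB_cell q x) : j / q ≤ nd x := by
  have hq' : (0 : ℝ) < q := by exact_mod_cast hq
  rw [VB_nd_eq, div_le_iff₀ hq']
  have h3 : (VB_cell q x : ℝ) ≤ (q : ℝ) * Int.fract x := Int.floor_le _
  have h4 : (q : ℝ) * Int.fract x < VB_cell q x + 1 := Int.lt_floor_add_one _
  rcases le_total (Int.fract x) (1 - Int.fract x) with h | h
  · rw [min_eq_left h]; linarith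
  · rw [min_eq_right h]; nlinarith

/-- the bound of the weight in a cell -/
noncomputable def VB_g (q : ℕ) (B : ℝ) (k : ℤ) : ℝ :=
  (if k = 0 then B else (q : ℝ) / (2 * k)) + (if k = q - 1 then B else (q : ℝ) / (2 * (q - 1 - k)))

theorem VB_f_le_g {q : ℕ} (hq : 1 ≤ q) {B : ℝ} (hB : 0 ≤ B) (x : ℝ) :
    VB_f B x ≤ VB_g q B (VB_cell q x) := by
  have hq' : (0 : ℝ) < q := by exact_mod_cast hq
  obtain ⟨h1, h2⟩ := VB_cell_mem hq x
  set k := VB_cell q x with hk
  have hk0 : (0 : ℝ) ≤ k := by exact_mod_cast h1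
  have hk1 : (k : ℝ) ≤ q - 1 := by
    have : k ≤ (q : ℤ) - 1 := by omega
    exact_mod_cast this
  have n1 : 0 ≤ (if k = 0 then B else (q : ℝ) / (2 * k)) := by
    split_ifs
    · exact hB
    · positivity
  have n2 : 0 ≤ (if k = q - 1 then B else (q : ℝ) / (2 * (q - 1 - k))) := by
    split_ifs
    · exact hB
    · exact div_nonneg hq'.le (by linarith)
  unfold VB_g
  by_cases hk00 : k = 0
  · rw [if_pos hk00]
    rw [hk00] at n2 ⊢
    linarith [VB_f_le (B := B) x]
  by_cases hk11 : k = q - 1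
  · rw [if_pos hk11]
    linarith [VB_f_le (B := B) x]
  rw [if_neg hk00, if_neg hk11]
  rw [if_neg hk00] at n1
  rw [if_neg hk11] at n2
  have hk0' : (1 : ℝ) ≤ k := by
    have : (1 : ℤ) ≤ k := by omega
    exact_mod_cast this
  have hk1' : (1 : ℝ) ≤ q - 1 - k := by
    have : (1 : ℤ) ≤ (q : ℤ) - 1 - k := by omega
    exact_mod_cast this
  rcases le_total (k : ℝ) (q - 1 - k) with h | h
  · have h3 := VB_nd_ge hq x k le_rfl h
    have hpos : 0 < nd x := lt_of_lt_of_le (by positivity) h3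
    have h4 : VB_f B x ≤ 1 / (2 * nd x) := by
      unfold VB_f
      rw [if_neg hpos.ne']
      exact min_le_right _ _
    have h5 : 1 / (2 * nd x) ≤ q / (2 * k) := by
      rw [div_le_div_iff₀ (by positivity) (by positivity)]
      rw [div_le_iff₀ hq'] at h3
      linarith
    linarith
  · have h3 := VB_nd_ge hq x (q - 1 - k) h le_rfl
    have hpos : 0 < nd x := lt_of_lt_of_le (by positivity) h3
    have h4 : VB_f B x ≤ 1 / (2 * nd x) := by
      unfold VB_f
      rw [if_neg hpos.ne']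
      exact min_le_right _ _
    have h5 : 1 / (2 * nd x) ≤ q / (2 * (q - 1 - k)) := by
      rw [div_le_div_iff₀ (by positivity) (by positivity)]
      rw [div_le_iff₀ hq'] at h3
      linarith
    linarith

theorem VB_harm (q : ℕ) (hq : 1 ≤ q) : ∑ k ∈ range q, (1 / (k : ℝ)) ≤ 1 + Real.log q := by
  obtain ⟨m, rfl⟩ : ∃ m, q = m + 1 := ⟨q - 1, by omega⟩
  rw [Finset.sum_range_succ']
  simp only [Nat.cast_add, Nat.cast_one, Nat.cast_zero, div_zero, add_zero]
  have h := harmonic_le_one_add_log m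
  have h1 : ((harmonic m : ℚ) : ℝ) = ∑ k ∈ range m, (1 / ((k : ℝ) + 1)) := by
    unfold harmonic
    push_cast
    exact Finset.sum_congr rfl fun i _ => by rw [one_div]
  rw [h1] at h
  refine h.trans ?_
  have : Real.log m ≤ Real.log ((m : ℝ) + 1) := by
    rcases Nat.eq_zero_or_pos m with h0 | h0
    · rw [h0]; simp
    · exact Real.log_le_log (by exact_mod_cast h0) (by linarith)
  linarith

theorem VB_g_sum {q : ℕ} (hq : 1 ≤ q) {B : ℝ} (hB : 0 ≤ B) :
    ∑ k ∈ range q, VB_g q B k ≤ 2 * B + q * (1 + Real.log q) := by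
  have hq' : (0 : ℝ) < q := by exact_mod_cast hq
  have hH := VB_harm q hq
  unfold VB_g
  rw [Finset.sum_add_distrib]
  have h1 : ∑ k ∈ range q, (if ((k : ℕ) : ℤ) = 0 then B else (q : ℝ) / (2 * ((k : ℤ) : ℝ))) ≤
      B + q / 2 * ∑ k ∈ range q, (1 / (k : ℝ)) := by
    rw [Finset.mul_sum]
    have : B = ∑ k ∈ range q, (if k = 0 then B else 0) := by
      rw [Finset.sum_ite_eq' (range q) 0 (fun _ => B), if_pos (mem_range.mpr (by omega))]
    conv_rhs => rw [this]
    rw [← Finset.sum_add_distrib]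
    refine Finset.sum_le_sum fun k _ => ?_
    by_cases hk : k = 0
    · subst hk; simp
    · rw [if_neg (by exact_mod_cast hk), if_neg hk]
      have : (k : ℝ) ≠ 0 := by exact_mod_cast hk
      refine le_of_eq ?_
      push_cast
      field_simp
      ring
  have h2 : ∑ k ∈ range q, (if ((k : ℕ) : ℤ) = q - 1 then B else
      (q : ℝ) / (2 * ((q : ℝ) - 1 - ((k : ℤ) : ℝ)))) ≤ B + q / 2 * ∑ k ∈ range q, (1 / (k : ℝ)) := by
    refine le_trans (le_of_eq ?_) h1
    rw [← Finset.sum_range_reflect]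
    refine Finset.sum_congr rfl fun k hk => ?_
    rw [mem_range] at hk
    have e1 : (((q - 1 - k : ℕ) : ℤ)) = (q : ℤ) - 1 - k := by omega
    rw [e1]
    by_cases hk0 : k = 0
    · subst hk0
      rw [if_pos (by push_cast; ring), if_pos (by simp)]
    · rw [if_neg (by omega), if_neg (by exact_mod_cast hk0)]
      congr 1
      push_cast
      ring
  have := add_le_add h1 h2
  nlinarith

/-- One block of the block lemma. -/
theorem VB_one {θ : ℝ} {q : ℕ} {a : ℤ} (hq : 1 ≤ q) (hco : IsCoprime a (q : ℤ))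
    (hθ : |θ - a / q| ≤ 1 / (q : ℝ) ^ 2) (n0 : ℤ) {B : ℝ} (hB : 0 ≤ B) :
    ∑ n ∈ Ico n0 (n0 + q), VB_f B (n * θ) ≤ 6 * B + 3 * q * (1 + Real.log q) := by
  have hq' : (0 : ℝ) < q := by exact_mod_cast hq
  have h1 : ∑ n ∈ Ico n0 (n0 + q), VB_f B (n * θ) ≤
      ∑ n ∈ Ico n0 (n0 + q), VB_g q B (VB_cell q (n * θ)) :=
    Finset.sum_le_sum fun n _ => VB_f_le_g hq hB _
  refine h1.trans ?_
  have hmaps : ∀ n ∈ Ico n0 (n0 + q), (VB_cell q (n * θ)).toNat ∈ range q := by
    intro n _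
    obtain ⟨h2, h3⟩ := VB_cell_mem hq ((n : ℝ) * θ)
    rw [mem_range]
    omega
  rw [← Finset.sum_fiberwise_of_maps_to hmaps]
  have hg0 : ∀ k ∈ range q, 0 ≤ VB_g q B k := by
    intro k hk
    rw [mem_range] at hk
    unfold VB_g
    have hk1 : (k : ℝ) ≤ q - 1 := by
      have : (k : ℤ) ≤ (q : ℤ) - 1 := by omega
      exact_mod_cast this
    refine add_nonneg ?_ ?_
    · split_ifs
      · exact hB
      · positivity
    · split_ifs
      · exact hB
      · refine div_nonneg hq'.le ?_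
        push_cast
        linarith
  have h4 : ∀ k ∈ range q, ∑ n ∈ (Ico n0 (n0 + q)).filter
      (fun n : ℤ => (VB_cell q ((n : ℝ) * θ)).toNat = k), VB_g q B (VB_cell q (n * θ)) ≤
      3 * VB_g q B k := by
    intro k hk
    have hsub : (Ico n0 (n0 + q)).filter (fun n : ℤ => (VB_cell q ((n : ℝ) * θ)).toNat = k) =
        (Ico n0 (n0 + q)).filter (fun n : ℤ => VB_cell q (n * θ) = k) := by
      refine Finset.filter_congr fun n _ => ?_
      obtain ⟨h2, h3⟩ := VB_cell_mem hq ((n : ℝ) * θ)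
      omega
    rw [hsub]
    have h5 : ∑ n ∈ (Ico n0 (n0 + q)).filter (fun n : ℤ => VB_cell q (n * θ) = k),
        VB_g q B (VB_cell q (n * θ)) =
        ∑ n ∈ (Ico n0 (n0 + q)).filter (fun n : ℤ => VB_cell q (n * θ) = k), VB_g q B k := by
      refine Finset.sum_congr rfl fun n hn => ?_
      rw [(mem_filter.mp hn).2]
    rw [h5, Finset.sum_const, nsmul_eq_mul]
    refine mul_le_mul_of_nonneg_right ?_ (hg0 k hk)
    exact_mod_cast VB_fiber hq hco hθ n0 k
  refine (Finset.sum_le_sum h4).trans ?_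
  rw [← Finset.mul_sum]
  have := VB_g_sum hq hB
  nlinarith

theorem VB_one_add_log_le {q : ℕ} (hq : 1 ≤ q) : 1 + Real.log q ≤ 2 * Real.log (2 * q) := by
  have hq' : (1 : ℝ) ≤ q := by exact_mod_cast hq
  have h1 : 0 ≤ Real.log q := Real.log_nonneg hq'
  rw [Real.log_mul (by norm_num) (by positivity)]
  have h2 := Real.log_two_gt_d9
  linarith

/-- **Block lemma.** `∑_{n ∈ [u, u + A)} min (B, 1/(2‖nθ‖)) ≤ C (A/q + 1) (B + q log(2q))`.
Split into blocks of `q` consecutive `n`; in a block `nθ = n₀θ + j a/q + O(1/q)`, so at most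
a bounded number of `n` have `‖nθ‖` in each interval `[i/q, (i+1)/q]`. (`1/0 = 0` in the ratio
is why we write `min B (1/(2 nd))` only for `nd ≠ 0`.) -/
theorem block : ∃ C : ℝ, 0 < C ∧ ∀ (θ : ℝ) (q : ℕ) (a : ℤ), 1 ≤ q → IsCoprime a (q : ℤ) →
    |θ - a / q| ≤ 1 / (q : ℝ) ^ 2 → ∀ (u : ℤ) (A : ℕ) (B : ℝ), 1 ≤ B →
    ∑ n ∈ Ico u (u + A), (if nd (n * θ) = 0 then B else min B (1 / (2 * nd (n * θ)))) ≤
      C * ((A : ℝ) / q + 1) * (B + q * Real.log (2 * q)) := by
  refine ⟨6, by norm_num, ?_⟩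
  intro θ q a hq hco hθ u A B hB
  have hq' : (0 : ℝ) < q := by exact_mod_cast hq
  have hB0 : 0 ≤ B := by linarith
  change ∑ n ∈ Ico u (u + A), VB_f B (n * θ) ≤ _
  have hlog : 0 ≤ Real.log (2 * q) := Real.log_nonneg (by
    have : (1 : ℝ) ≤ q := by exact_mod_cast hq
    linarith)
  -- sum over `m` blocks
  have hblocks : ∀ m : ℕ, ∑ n ∈ Ico u (u + (m * q : ℕ)), VB_f B (n * θ) ≤
      m * (6 * B + 3 * q * (1 + Real.log q)) := by
    intro m
    induction m with
    | zero => simp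
    | succ m ih =>
      have hsplit : Ico u (u + ((m + 1) * q : ℕ)) =
          Ico u (u + (m * q : ℕ)) ∪ Ico (u + (m * q : ℕ)) (u + (m * q : ℕ) + q) := by
        ext x
        simp only [mem_union, mem_Ico]
        push_cast
        constructor
        · intro h
          by_cases hx : x < u + m * q
          · left; exact ⟨h.1, hx⟩
          · right
            refine ⟨by omega, ?_⟩
            have := h.2
            nlinarith
        · rintro (h | h)
          · refine ⟨h.1, ?_⟩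
            have := h.2
            nlinarith
          · refine ⟨?_, ?_⟩
            · have := h.1
              have : (0 : ℤ) ≤ m * q := by positivity
              omega
            · have := h.2
              nlinarith
      rw [hsplit]
      have h2 := VB_one hq hco hθ (u + (m * q : ℕ)) hB0
      have h3 : ∑ n ∈ Ico u (u + (m * q : ℕ)) ∪ Ico (u + (m * q : ℕ)) (u + (m * q : ℕ) + q),
          VB_f B (n * θ) ≤ ∑ n ∈ Ico u (u + (m * q : ℕ)), VB_f B (n * θ) +
          ∑ n ∈ Ico (u + (m * q : ℕ)) (u + (m * q : ℕ) + q), VB_f B (n * θ) := by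
        rw [Finset.sum_union]
        rw [Finset.disjoint_left]
        intro x hx hx'
        rw [mem_Ico] at hx hx'
        omega
      push_cast
      push_cast at h3 h2 ih
      linarith
  have hsub : Ico u (u + A) ⊆ Ico u (u + ((A / q + 1) * q : ℕ)) := by
    refine Finset.Ico_subset_Ico_right ?_
    have h1 : A < (A / q + 1) * q := by
      have := Nat.div_add_mod A q
      have h2 := Nat.mod_lt A hq
      nlinarith
    have h2 : (A : ℤ) ≤ (((A / q + 1) * q : ℕ) : ℤ) := by exact_mod_cast h1.le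
    linarith
  have h1 := Finset.sum_le_sum_of_subset_of_nonneg hsub
    (fun n _ _ => VB_f_nonneg hB0 ((n : ℝ) * θ))
  refine h1.trans ((hblocks (A / q + 1)).trans ?_)
  have h2 : (((A / q + 1 : ℕ)) : ℝ) ≤ (A : ℝ) / q + 1 := by
    push_cast
    have : ((A / q : ℕ) : ℝ) ≤ (A : ℝ) / q := Nat.cast_div_le
    linarith
  have h3 : 6 * B + 3 * q * (1 + Real.log q) ≤ 6 * (B + q * Real.log (2 * q)) := by
    have := VB_one_add_log_le hq
    nlinarith
  have h4 : 0 ≤ 6 * (B + q * Real.log (2 * q)) := by positivity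
  calc (((A / q + 1 : ℕ)) : ℝ) * (6 * B + 3 * q * (1 + Real.log q))
      ≤ (((A / q + 1 : ℕ)) : ℝ) * (6 * (B + q * Real.log (2 * q))) :=
        mul_le_mul_of_nonneg_left h3 (by positivity)
    _ ≤ ((A : ℝ) / q + 1) * (6 * (B + q * Real.log (2 * q))) :=
        mul_le_mul_of_nonneg_right h2 h4
    _ = _ := by ring

end Pool.Agent.Lib.H68T
end

-- from Lib.H68T.LAN
section

/-!
# Chunk LAN: Landau's local lemma
-/

open Finset Metric

namespace Pool.Agent.Lib.H68T

theorem LAN_remove {U : Set ℂ} {f : ℂ → ℂ} (hf : AnalyticOnNhd ℂ f U) {ρ : ℂ} (hρ : ρ ∈ U)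
    (hne : ¬ ∀ᶠ z in nhds ρ, f z = 0) :
    ∃ (n : ℕ) (h : ℂ → ℂ), AnalyticOnNhd ℂ h U ∧ h ρ ≠ 0 ∧ ∀ s, f s = (s - ρ) ^ n * h s := by
  obtain ⟨n, g, hg, hg0, hev⟩ :=
    (AnalyticAt.exists_eventuallyEq_pow_smul_nonzero_iff (hf ρ hρ)).mpr hne
  classical
  refine ⟨n, fun s => if s = ρ then g ρ else f s / (s - ρ) ^ n, ?_, ?_, ?_⟩
  · intro s hs
    by_cases hsρ : s = ρ
    · subst hsρ
      refine hg.congr ?_
      filter_upwards [hev] with z hz
      by_cases hz1 : z = s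
      · simp [hz1]
      · have h1 : (z - s) ^ n ≠ 0 := pow_ne_zero _ (sub_ne_zero.mpr hz1)
        simp only [hz1, if_false]
        rw [hz, smul_eq_mul]
        field_simp
    · have h1 : AnalyticAt ℂ (fun z => f z / (z - ρ) ^ n) s := by
        refine (hf s hs).div ?_ ?_
        · fun_prop
        · exact pow_ne_zero _ (sub_ne_zero.mpr hsρ)
      refine h1.congr ?_
      filter_upwards [isOpen_ne.mem_nhds hsρ] with z hz
      have hz' : z ≠ ρ := hz
      simp [hz']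
  · simpa using hg0
  · intro s
    by_cases hs : s = ρ
    · subst hs
      simp only [if_true]
      have := hev.self_of_nhds
      simpa [smul_eq_mul] using this
    · have h1 : (s - ρ) ^ n ≠ 0 := pow_ne_zero _ (sub_ne_zero.mpr hs)
      simp only [hs, if_false]
      field_simp

theorem LAN_factor {U : Set ℂ} (f : ℂ → ℂ) (hf : AnalyticOnNhd ℂ f U)
    (hne : ∀ ρ ∈ U, ¬ ∀ᶠ z in nhds ρ, f z = 0) (T : Finset ℂ) (hT : ∀ t ∈ T, t ∈ U) :
    ∃ (Z : Multiset ℂ) (h : ℂ → ℂ), AnalyticOnNhd ℂ h U ∧ (∀ t ∈ T, h t ≠ 0) ∧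
      (∀ ρ ∈ Z, ρ ∈ T ∧ f ρ = 0) ∧ (∀ ρ ∈ T, f ρ = 0 → ρ ∈ Z) ∧
      ∀ s, f s = (Z.map (fun ρ => s - ρ)).prod * h s := by
  classical
  induction T using Finset.induction_on with
  | empty => exact ⟨0, f, hf, by simp, by simp, by simp, by simp⟩
  | insert ρ T' hρT' ih =>
    obtain ⟨Z, h, hh, hh0, hZ, hZ', hfac⟩ := ih (fun t ht => hT t (mem_insert_of_mem ht))
    have hρU : ρ ∈ U := hT ρ (mem_insert_self _ _)
    have hne' : ¬ ∀ᶠ z in nhds ρ, h z = 0 := by
      intro hev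
      apply hne ρ hρU
      filter_upwards [hev] with z hz
      rw [hfac, hz, mul_zero]
    obtain ⟨n, g, hg, hg0, hfac2⟩ := LAN_remove hh hρU hne'
    refine ⟨Multiset.replicate n ρ + Z, g, hg, ?_, ?_, ?_, ?_⟩
    · intro t ht
      rcases mem_insert.mp ht with rfl | ht
      · exact hg0
      · intro h0
        apply hh0 t ht
        rw [hfac2, h0, mul_zero]
    · intro t ht
      rcases Multiset.mem_add.mp ht with ht | ht
      · obtain ⟨hn, rfl⟩ := Multiset.mem_replicate.mp ht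
        refine ⟨mem_insert_self _ _, ?_⟩
        rw [hfac, hfac2, sub_self, zero_pow hn, zero_mul, mul_zero]
      · exact ⟨mem_insert_of_mem (hZ t ht).1, (hZ t ht).2⟩
    · intro t ht h0
      rcases mem_insert.mp ht with rfl | ht
      · rw [Multiset.mem_add, Multiset.mem_replicate]
        left
        refine ⟨?_, rfl⟩
        rintro rfl
        have h1 : h t ≠ 0 := by
          rw [hfac2]; simpa using hg0
        rw [hfac] at h0
        rcases mul_eq_zero.mp h0 with h2 | h2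
        · rw [Multiset.prod_eq_zero_iff, Multiset.mem_map] at h2
          obtain ⟨a, ha, hat⟩ := h2
          have : t = a := sub_eq_zero.mp hat
          exact hρT' (this ▸ (hZ a ha).1)
        · exact h1 h2
      · exact Multiset.mem_add.mpr (Or.inr (hZ' t ht h0))
    · intro s
      rw [hfac, hfac2, Multiset.map_add, Multiset.prod_add, Multiset.map_replicate,
        Multiset.prod_replicate]
      ring

theorem LAN_logDeriv_prod (Z : Multiset ℂ) (s : ℂ) (hs : ∀ ρ ∈ Z, s ≠ ρ) :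
    logDeriv (fun z => (Z.map (fun ρ => z - ρ)).prod) s = (Z.map (fun ρ => 1 / (s - ρ))).sum ∧
      (Z.map (fun ρ => s - ρ)).prod ≠ 0 ∧
      DifferentiableAt ℂ (fun z => (Z.map (fun ρ => z - ρ)).prod) s := by
  induction Z using Multiset.induction_on with
  | empty => simp [logDeriv]
  | cons a Z ih =>
    obtain ⟨h1, h2, h3⟩ := ih (fun ρ hρ => hs ρ (Multiset.mem_cons_of_mem hρ))
    have ha : s - a ≠ 0 := sub_ne_zero.mpr (hs a (Multiset.mem_cons_self a Z))
    simp only [Multiset.map_cons, Multiset.prod_cons, Multiset.sum_cons]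
    have hd : DifferentiableAt ℂ (fun z : ℂ => z - a) s := by fun_prop
    refine ⟨?_, mul_ne_zero ha h2, hd.mul h3⟩
    have := logDeriv_mul (f := fun z : ℂ => z - a) (g := fun z => (Z.map (fun ρ => z - ρ)).prod) s
      ha h2 hd h3
    rw [this, h1]
    congr 1
    simp [logDeriv]

/-- Borel–Carathéodory part. -/
theorem LAN_zero_free (g : ℂ → ℂ) (s₀ : ℂ) (R M : ℝ) (hR : 0 < R) (hM : 0 ≤ M)
    (hg : AnalyticOnNhd ℂ g (closedBall s₀ R)) (hg0 : ∀ s ∈ closedBall s₀ (R / 2), g s ≠ 0)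
    (hb : ∀ s ∈ closedBall s₀ R, ‖g s‖ ≤ Real.exp M * ‖g s₀‖) :
    ∀ s ∈ closedBall s₀ (R / 4), ‖deriv g s / g s‖ ≤ 48 * (M + 1) / R := by
  have hsub : ball s₀ (R / 2) ⊆ closedBall s₀ R :=
    (ball_subset_closedBall).trans (closedBall_subset_closedBall (by linarith))
  have hs0 : s₀ ∈ ball s₀ (R / 2) := mem_ball_self (by positivity)
  have hq : DifferentiableOn ℂ (fun s => deriv g s / g s) (ball s₀ (R / 2)) := by
    intro s hs
    refine DifferentiableAt.differentiableWithinAt ?_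
    refine DifferentiableAt.div ((hg s (hsub hs)).deriv.differentiableAt)
      (hg s (hsub hs)).differentiableAt (hg0 s (ball_subset_closedBall hs))
  obtain ⟨φ, hφ0, hφ⟩ := Complex.IsExactOn.with_val_at hq.isExactOn_ball s₀ 0
  -- g = g s₀ * exp φ
  have hgs0 : g s₀ ≠ 0 := hg0 s₀ (ball_subset_closedBall hs0)
  have hexp : ∀ s ∈ ball s₀ (R / 2), g s = g s₀ * Complex.exp (φ s) := by
    intro s hs
    have hconst : ∀ x ∈ ball s₀ (R / 2), g x * Complex.exp (-φ x) = g s₀ * Complex.exp (-φ s₀) := by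
      intro x hx
      refine (convex_ball s₀ (R / 2)).is_const_of_fderivWithin_eq_zero (𝕜 := ℂ)
        (f := fun x => g x * Complex.exp (-φ x)) ?_ ?_ hx hs0
      · intro y hy
        exact ((hg y (hsub hy)).differentiableAt.mul
          ((hφ y hy).differentiableAt.neg.cexp)).differentiableWithinAt
      · intro y hy
        have hd : HasDerivAt (fun x => g x * Complex.exp (-φ x)) 0 y := by
          have h1 := (hg y (hsub hy)).differentiableAt.hasDerivAt
          have h2 := (hφ y hy).neg.cexp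
          have h3 := h1.mul h2
          have h4 : deriv g y * Complex.exp (-φ y) +
              g y * (Complex.exp (-φ y) * -(deriv g y / g y)) = 0 := by
            have := hg0 y (ball_subset_closedBall hy)
            field_simp
            ring
          rw [← h4]
          exact h3
        have h5 := (hd.hasFDerivAt.hasFDerivWithinAt (s := ball s₀ (R / 2))).fderivWithin
          (isOpen_ball.uniqueDiffWithinAt hy)
        rw [h5]
        ext
        simp
    have h1 := hconst s hs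
    rw [hφ0, neg_zero, Complex.exp_zero, mul_one] at h1
    rw [← h1, mul_assoc, ← Complex.exp_add, neg_add_cancel, Complex.exp_zero, mul_one]
  have hre : ∀ s ∈ ball s₀ (R / 2), (φ s).re ≤ M + 1 := by
    intro s hs
    have h1 := hb s (hsub hs)
    rw [hexp s hs, norm_mul, Complex.norm_exp, mul_comm] at h1
    have h2 : Real.exp (φ s).re ≤ Real.exp M := le_of_mul_le_mul_right h1 (norm_pos_iff.mpr hgs0)
    have := Real.exp_le_exp.mp h2
    linarith
  have hφb : ∀ s ∈ closedBall s₀ (3 * R / 8), ‖φ s‖ ≤ 6 * (M + 1) := by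
    intro s hs
    have hn : ‖s - s₀‖ ≤ 3 * R / 8 := by rwa [mem_closedBall_iff_norm] at hs
    have h := Complex.borelCaratheodory_zero (M := M + 1) (R := R / 2) (z := s - s₀)
      (f := fun z => φ (s₀ + z)) (by linarith) ?_ ?_ (by linarith) ?_ ?_
    · simp only [add_sub_cancel] at h
      refine h.trans ?_
      have hpos : 0 < R / 2 - ‖s - s₀‖ := by linarith
      rw [div_le_iff₀ hpos]
      nlinarith
    · intro z hz
      have hz' : s₀ + z ∈ ball s₀ (R / 2) := by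
        rw [mem_ball_iff_norm] at hz ⊢
        simpa using hz
      have h1 : DifferentiableAt ℂ φ (s₀ + z) := (hφ _ hz').differentiableAt
      have h2 : DifferentiableAt ℂ (fun z => s₀ + z) z := by fun_prop
      exact (h1.comp z h2).differentiableWithinAt
    · intro z hz
      have hz' : s₀ + z ∈ ball s₀ (R / 2) := by
        rw [mem_ball_iff_norm] at hz ⊢
        simpa using hz
      exact hre _ hz'
    · rw [mem_ball_iff_norm, sub_zero]; linarith
    · simpa using hφ0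
  intro s hs
  have hs4 : ‖s - s₀‖ ≤ R / 4 := by rwa [mem_closedBall_iff_norm] at hs
  have hsb : s ∈ ball s₀ (R / 2) := by rw [mem_ball_iff_norm]; linarith
  have hcau := Complex.norm_deriv_le_of_forall_mem_sphere_norm_le (c := s) (R := R / 8)
    (C := 6 * (M + 1)) (f := φ) (by linarith) ?_ ?_
  · rw [(hφ s hsb).deriv] at hcau
    refine hcau.trans (le_of_eq ?_)
    field_simp
    ring
  · refine DifferentiableOn.diffContOnCl ?_
    rw [closure_ball _ (by positivity)]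
    intro z hz
    have hz' : z ∈ ball s₀ (R / 2) := by
      rw [mem_closedBall_iff_norm] at hz
      rw [mem_ball_iff_norm]
      calc ‖z - s₀‖ = ‖(z - s) + (s - s₀)‖ := by ring_nf
        _ ≤ ‖z - s‖ + ‖s - s₀‖ := norm_add_le _ _
        _ < R / 2 := by linarith
    exact (hφ z hz').differentiableAt.differentiableWithinAt
  · intro z hz
    apply hφb
    rw [mem_sphere_iff_norm] at hz
    rw [mem_closedBall_iff_norm]
    calc ‖z - s₀‖ = ‖(z - s) + (s - s₀)‖ := by ring_nf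
      _ ≤ ‖z - s‖ + ‖s - s₀‖ := norm_add_le _ _
      _ ≤ 3 * R / 8 := by linarith

/-- **Landau's lemma** (Titchmarsh, 3.9, Lemma α). `f` analytic on the closed disc of radius `R`
about `s₀`, `‖f(s)/f(s₀)‖ ≤ e^M` there, `M ≥ 0`... then in the disc of radius `R/4` the logarithmic
derivative differs from `∑ 1/(s-ρ)`, over the zeros in the disc of radius `R/2` (with
multiplicity), by at most `A M/R`.

Proof. `g(s) = f(s) ∏ (s-ρ)^(-1)` over the zeros `|ρ - s₀| ≤ R/2` (finitely many, with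
multiplicity; e.g. `MeromorphicOn.extract_zeros_poles` or induction on the order, removing one zero
at a time with `dslope`), analytic on the big disc, non-zero for `|s - s₀| ≤ R/2`. On
`|s - s₀| = R`: `|s - ρ| ≥ R/2 ≥ |s₀ - ρ|`, so `|g(s)/g(s₀)| ≤ e^M`, hence everywhere in the disc
(maximum modulus). On the disc of radius `R/2`, `h = log (g/g(s₀))` exists, `h(s₀) = 0`, `Re h ≤ M`;
Borel-Carathéodory (`Complex.borelCaratheodory_zero`): `|h| ≤ 6 M'` for `|s-s₀| ≤ 3R/8` (any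
`M' > M`, e.g. `M' = M + 1`; that is why `M + 1` appears), Cauchy: `|h'| ≤ 48 M'/R` for
`|s-s₀| ≤ R/4`, and `h' = f'/f - ∑ 1/(s-ρ)`. -/
theorem landau : ∃ A : ℝ, 0 < A ∧ ∀ (f : ℂ → ℂ) (s₀ : ℂ) (R M : ℝ), 0 < R → 0 ≤ M →
    AnalyticOnNhd ℂ f (closedBall s₀ R) → f s₀ ≠ 0 →
    (∀ s ∈ closedBall s₀ R, ‖f s‖ ≤ Real.exp M * ‖f s₀‖) →
    ∃ Z : Multiset ℂ, (∀ ρ ∈ Z, ‖ρ - s₀‖ ≤ R / 2 ∧ f ρ = 0) ∧
      (∀ ρ, ‖ρ - s₀‖ ≤ R / 2 → f ρ = 0 → ρ ∈ Z) ∧
      ∀ s ∈ closedBall s₀ (R / 4), f s ≠ 0 →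
        ‖deriv f s / f s - (Z.map (fun ρ => 1 / (s - ρ))).sum‖ ≤ A * (M + 1) / R := by
  refine ⟨48, by norm_num, ?_⟩
  intro f s₀ R M hR hM hf hf0 hb
  have hs0 : s₀ ∈ closedBall s₀ R := mem_closedBall_self hR.le
  have hpre : IsPreconnected (closedBall s₀ R) := (convex_closedBall s₀ R).isPreconnected
  have hne : ∀ ρ ∈ closedBall s₀ R, ¬ ∀ᶠ z in nhds ρ, f z = 0 := by
    intro ρ hρ hev
    exact hf0 (hf.eqOn_zero_of_preconnected_of_eventuallyEq_zero hpre hρ hev hs0)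
  -- finiteness of the zeros
  have hfin : {ρ : ℂ | ρ ∈ closedBall s₀ (R / 2) ∧ f ρ = 0}.Finite := by
    by_contra hinf
    obtain ⟨x, hx, hacc⟩ := Set.Infinite.exists_accPt_of_subset_isCompact hinf
      (isCompact_closedBall s₀ (R / 2)) (fun ρ hρ => hρ.1)
    rw [accPt_iff_frequently_nhdsNE] at hacc
    have hx' : x ∈ closedBall s₀ R := closedBall_subset_closedBall (by linarith) hx
    exact hf0 (hf.eqOn_zero_of_preconnected_of_frequently_eq_zero hpre hx'
      (hacc.mono fun y hy => hy.2) hs0)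
  obtain ⟨Z, g, hg, hgT, hZ, hZ', hfac⟩ := LAN_factor f hf hne hfin.toFinset (fun t ht =>
    closedBall_subset_closedBall (by linarith) ((Set.Finite.mem_toFinset hfin).mp ht).1)
  refine ⟨Z, ?_, ?_, ?_⟩
  · intro ρ hρ
    refine ⟨?_, (hZ ρ hρ).2⟩
    have := ((Set.Finite.mem_toFinset hfin).mp (hZ ρ hρ).1).1
    rwa [mem_closedBall_iff_norm] at this
  · intro ρ h1 h2
    exact hZ' ρ ((Set.Finite.mem_toFinset hfin).mpr ⟨by rwa [mem_closedBall_iff_norm], h2⟩) h2
  · have hZn : ∀ ρ ∈ Z, ‖ρ - s₀‖ ≤ R / 2 := by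
      intro ρ hρ
      have := ((Set.Finite.mem_toFinset hfin).mp (hZ ρ hρ).1).1
      rwa [mem_closedBall_iff_norm] at this
    have hg0 : ∀ s ∈ closedBall s₀ (R / 2), g s ≠ 0 := by
      intro s hs h0
      have hfs : f s = 0 := by rw [hfac, h0, mul_zero]
      exact hgT s ((Set.Finite.mem_toFinset hfin).mpr ⟨hs, hfs⟩) h0
    -- bound on the sphere
    have hsph : ∀ s ∈ sphere s₀ R, ‖g s‖ ≤ Real.exp M * ‖g s₀‖ := by
      intro s hs
      have hns : ‖s - s₀‖ = R := by rwa [mem_sphere_iff_norm] at hs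
      have h1 := hb s (sphere_subset_closedBall hs)
      rw [hfac s, hfac s₀, norm_mul, norm_mul] at h1
      have hle : ‖(Z.map (fun ρ => s₀ - ρ)).prod‖ ≤ ‖(Z.map (fun ρ => s - ρ)).prod‖ ∧
          0 < ‖(Z.map (fun ρ => s - ρ)).prod‖ := by
        clear hZ hZ' hfac h1
        induction Z using Multiset.induction_on with
        | empty => simp
        | cons a Z ih =>
          obtain ⟨h2, h3⟩ := ih (fun ρ hρ => hZn ρ (Multiset.mem_cons_of_mem hρ))
          have ha := hZn a (Multiset.mem_cons_self a Z)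
          have h4 : R / 2 ≤ ‖s - a‖ := by
            have h5 : ‖s - s₀‖ ≤ ‖s - a‖ + ‖a - s₀‖ := by
              calc ‖s - s₀‖ = ‖(s - a) + (a - s₀)‖ := by ring_nf
                _ ≤ _ := norm_add_le _ _
            linarith
          simp only [Multiset.map_cons, Multiset.prod_cons, norm_mul]
          refine ⟨?_, mul_pos (by linarith) h3⟩
          refine mul_le_mul ?_ h2 (norm_nonneg _) (norm_nonneg _)
          rw [norm_sub_rev]
          linarith
      obtain ⟨h2, h3⟩ := hle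
      have h4 : ‖(Z.map (fun ρ => s - ρ)).prod‖ * ‖g s‖ ≤
          ‖(Z.map (fun ρ => s - ρ)).prod‖ * (Real.exp M * ‖g s₀‖) := by
        refine h1.trans ?_
        calc Real.exp M * (‖(Z.map (fun ρ => s₀ - ρ)).prod‖ * ‖g s₀‖)
            = ‖(Z.map (fun ρ => s₀ - ρ)).prod‖ * (Real.exp M * ‖g s₀‖) := by ring
          _ ≤ _ := mul_le_mul_of_nonneg_right h2 (by positivity)
      exact le_of_mul_le_mul_left h4 h3
    have hball : ∀ s ∈ closedBall s₀ R, ‖g s‖ ≤ Real.exp M * ‖g s₀‖ := by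
      intro s hs
      refine Complex.norm_le_of_forall_mem_frontier_norm_le (U := ball s₀ R) isBounded_ball ?_ ?_ ?_
      · refine DifferentiableOn.diffContOnCl ?_
        rw [closure_ball _ hR.ne']
        exact fun z hz => (hg z hz).differentiableAt.differentiableWithinAt
      · intro z hz
        rw [frontier_ball _ hR.ne'] at hz
        exact hsph z hz
      · rwa [closure_ball _ hR.ne']
    have hfinal := LAN_zero_free g s₀ R M hR hM hg hg0 hball
    intro s hs hfs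
    have hsR : s ∈ closedBall s₀ R := closedBall_subset_closedBall (by linarith) hs
    have hZs : ∀ ρ ∈ Z, s ≠ ρ := by
      rintro ρ hρ rfl
      exact hfs (hZ s hρ).2
    obtain ⟨h1, h2, h3⟩ := LAN_logDeriv_prod Z s hZs
    have hgs : g s ≠ 0 := by
      intro h0
      exact hfs (by rw [hfac, h0, mul_zero])
    have hff : f = fun z => (Z.map (fun ρ => z - ρ)).prod * g z := funext hfac
    have h4 := logDeriv_mul (f := fun z => (Z.map (fun ρ => z - ρ)).prod) (g := g) s h2 hgs h3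
      (hg s hsR).differentiableAt
    have h5 : deriv f s / f s = (Z.map (fun ρ => 1 / (s - ρ))).sum + deriv g s / g s := by
      rw [← h1]
      have : logDeriv f s = deriv f s / f s := by rw [logDeriv_apply]
      rw [← this]
      have h6 : logDeriv g s = deriv g s / g s := by rw [logDeriv_apply]
      rw [← h6, ← h4, hff]
    rw [h5, add_sub_cancel_left]
    exact hfinal s hs

end Pool.Agent.Lib.H68T
end
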