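import Mathlib

/-! Merged copies (to shorten the build) of Lib.H81A.Defs, Lib.H81A.BD, Lib.H81A.SU, Lib.H81A.GR, Lib.H81A.T1, Lib.H81A.T3, Lib.H81A.T2. -/

-- from Lib.H81A.Defs
section

/-!
# H81A (MP_443e5f, candidate T, module A): Heath-Brown's identity in seminorm form. Definitions

`N` is a natural number, `p` a seminorm on the functions `ℕ → ℝ` which only sees the values at `1, …, N`. If `p` is small (`≤ X`) on all pieces of the three kinds

* `H2`: Dirichlet convolutions of two bounded coefficient sequences in dyadic intervals, one of them in the range `[N ^ c, N ^ (1 / 2 - η)]`,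
* `H1`: (bounded coefficients up to `N ^ (2 c)`) times (indicator of an interval),
* `H3`: (bounded coefficients up to `N ^ (2 c)`) times two indicators of intervals in `[N ^ (1 / 2 - 2 η), N ^ (1 / 2 + 2 η)]`,

then `p Λ ≤ N ^ ε X` (file `Final.lean`). See `PROOF.md`.
-/

namespace Pool.Agent.Lib.H81A

open Finset ArithmeticFunction

/-- The arithmetic function with the values `f n`, `n ≥ 1`. -/
noncomputable def af (f : ℕ → ℝ) : ArithmeticFunction ℝ := ⟨fun n => if n = 0 then 0 else f n, by simp⟩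

theorem af_apply (f : ℕ → ℝ) {n : ℕ} (hn : n ≠ 0) : af f n = f n := by
  show (if n = 0 then 0 else f n) = f n
  rw [if_neg hn]

/-- The truncated Möbius function. -/
noncomputable def muV (z : ℕ) : ArithmeticFunction ℝ := af (fun a => if a ≤ z then (moebius a : ℝ) else 0)

/-- The constant function `1`. -/
noncomputable def one1 : ArithmeticFunction ℝ := af (fun _ => 1)

/-- The logarithm. -/
noncomputable def logf : ArithmeticFunction ℝ := af (fun n => Real.log n)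

/-- The restriction to the dyadic interval `[2 ^ k, 2 ^ (k + 1))`. -/
noncomputable def dy (k : ℕ) (f : ArithmeticFunction ℝ) : ArithmeticFunction ℝ := af (fun n => if 2 ^ k ≤ n ∧ n < 2 ^ (k + 1) then f n else 0)

theorem dy_apply (k : ℕ) (f : ArithmeticFunction ℝ) (n : ℕ) : dy k f n = if 2 ^ k ≤ n ∧ n < 2 ^ (k + 1) then f n else 0 := by
  rcases eq_or_ne n 0 with rfl | hn
  · rw [ArithmeticFunction.map_zero, ArithmeticFunction.map_zero, ite_self]
  · exact af_apply _ hn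

/-- The seminorm sees only the values at `1, …, N`. -/
def Loc (N : ℕ) (p : Seminorm ℝ (ℕ → ℝ)) : Prop := ∀ P : ℕ → ℝ, (∀ m, 1 ≤ m → m ≤ N → P m = 0) → p P = 0

/-- The bound for the pieces with two variables and bounded coefficients (`Type II`). -/
def H2 (c η : ℝ) (N : ℕ) (p : Seminorm ℝ (ℕ → ℝ)) (X : ℝ) : Prop :=
  ∀ K M : ℝ, (N : ℝ) ^ c ≤ K → K ≤ (N : ℝ) ^ (1 / 2 - η) → 1 ≤ M → ∀ α β : ℕ → ℝ, (∀ a, |α a| ≤ 1) → (∀ b, |β b| ≤ 1) →
    (∀ a : ℕ, α a ≠ 0 → K ≤ a ∧ (a : ℝ) ≤ 2 * K) → (∀ b : ℕ, β b ≠ 0 → M ≤ b ∧ (b : ℝ) ≤ 2 * M) →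
      p (fun m => ∑ x ∈ m.divisorsAntidiagonal, α x.1 * β x.2) ≤ X

/-- The bound for the pieces with one smooth variable (`Type I`). -/
def H1 (c : ℝ) (N : ℕ) (p : Seminorm ℝ (ℕ → ℝ)) (X : ℝ) : Prop :=
  ∀ B₁ B₂ : ℕ, 1 ≤ B₁ → B₂ ≤ 2 * B₁ → ∀ γ : ℕ → ℝ, (∀ q, |γ q| ≤ 1) → (∀ q : ℕ, γ q ≠ 0 → 1 ≤ q ∧ (q : ℝ) ≤ (N : ℝ) ^ (2 * c)) →
    p (fun m => ∑ x ∈ m.divisorsAntidiagonal, γ x.1 * (if B₁ ≤ x.2 ∧ x.2 < B₂ then 1 else 0)) ≤ X

/-- The bound for the pieces with two smooth variables near `N ^ (1 / 2)` (near-diagonal pieces). -/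
def H3 (c η : ℝ) (N : ℕ) (p : Seminorm ℝ (ℕ → ℝ)) (X : ℝ) : Prop :=
  ∀ A₁ A₂ B₁ B₂ : ℕ, (N : ℝ) ^ (1 / 2 - 2 * η) ≤ A₁ → (A₂ : ℝ) ≤ (N : ℝ) ^ (1 / 2 + 2 * η) → (N : ℝ) ^ (1 / 2 - 2 * η) ≤ B₁ →
    (B₂ : ℝ) ≤ (N : ℝ) ^ (1 / 2 + 2 * η) → A₂ ≤ 2 * A₁ → B₂ ≤ 2 * B₁ → ∀ γ : ℕ → ℝ, (∀ q, |γ q| ≤ 1) → (∀ q : ℕ, γ q ≠ 0 → 1 ≤ q ∧ (q : ℝ) ≤ (N : ℝ) ^ (2 * c)) →
      p (fun m => ∑ x ∈ m.divisorsAntidiagonal, γ x.1 *
        ∑ y ∈ x.2.divisorsAntidiagonal, (if A₁ ≤ y.1 ∧ y.1 < A₂ then 1 else 0) * (if B₁ ≤ y.2 ∧ y.2 < B₂ then 1 else 0)) ≤ X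

theorem Loc.congr {N : ℕ} {p : Seminorm ℝ (ℕ → ℝ)} (h : Loc N p) {P Q : ℕ → ℝ} (hPQ : ∀ m, 1 ≤ m → m ≤ N → P m = Q m) : p P = p Q := by
  have key : ∀ P Q : ℕ → ℝ, (∀ m, 1 ≤ m → m ≤ N → P m = Q m) → p P ≤ p Q := by
    intro P Q hPQ
    have h1 : p (P - Q) = 0 := h _ fun m h1 h2 => by rw [Pi.sub_apply, hPQ m h1 h2, sub_self]
    have h2 := map_add_le_add p (P - Q) Q
    rw [sub_add_cancel, h1, zero_add] at h2
    exact h2
  exact le_antisymm (key P Q hPQ) (key Q P fun m h1 h2 => (hPQ m h1 h2).symm)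

/-- The conditions on the parameters: `2 ^ L > N`, `2 ^ u` is about `N ^ c`, `2 ^ v` about `N ^ (1 / 2 - η)`, at most `r` factors, `V = N ^ (small)`. -/
structure Par (c η : ℝ) (N L u v r : ℕ) (V : ℝ) : Prop where
  hN : 1 ≤ N
  hL : N < 2 ^ L
  hu : 0 < u
  hc : (N : ℝ) ^ c ≤ 2 ^ u
  hv : (2 : ℝ) ^ (v + r) ≤ (N : ℝ) ^ (1 / 2 - η)
  hq : (2 : ℝ) ^ (u + r) ≤ (N : ℝ) ^ (2 * c)
  hqN : (N : ℝ) ^ (2 * c) ≤ N
  hA : (N : ℝ) ^ (1 / 2 - 2 * η) ≤ 2 ^ (v + 1)
  hB : (2 : ℝ) ^ (L - v) ≤ (N : ℝ) ^ (1 / 2 + 2 * η)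
  huv : 2 * u ≤ v + 1
  h3v : L ≤ 3 * (v + 1)
  hV : 1 ≤ V
  hVL : (L : ℝ) + 1 ≤ V
  hVr : (r : ℝ) + 1 ≤ V
  hVd : ∀ n : ℕ, 1 ≤ n → n ≤ N → (n.divisors.card : ℝ) ≤ V
  hVlog : Real.log N ≤ V

end Pool.Agent.Lib.H81A
end

-- from Lib.H81A.BD
section

/-!
# H81A, chunk BD (S/M): bounds for products
-/

namespace Pool.Agent.Lib.H81A

open Finset ArithmeticFunction

/-- PROOF. Induction over `S`: `|(f * g) n| ≤ ∑ |f a| |g b| ≤ (card of divisors of n) sup |f| sup |g|` (`mul_apply`, `Nat.card_divisorsAntidiagonal` or `Nat.divisorsAntidiagonal` as image of the divisors), the divisors of `n` are in `[1, N]`. -/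
theorem bound {ι : Type} (S : Finset ι) (G : ι → ArithmeticFunction ℝ) {B D : ℝ} {N : ℕ} (hB : 1 ≤ B) (hD : 1 ≤ D)
    (hG : ∀ i ∈ S, ∀ n, 1 ≤ n → n ≤ N → |G i n| ≤ B) (hd : ∀ n : ℕ, 1 ≤ n → n ≤ N → (n.divisors.card : ℝ) ≤ D) {n : ℕ} (hn : 1 ≤ n) (hnN : n ≤ N) :
    |(∏ i ∈ S, G i) n| ≤ (B * D) ^ S.card := by
  classical
  have hBD : 1 ≤ B * D := one_le_mul_of_one_le_of_one_le hB hD
  induction S using Finset.induction_on generalizing n with
  | empty =>
    rw [Finset.prod_empty, Finset.card_empty, pow_zero, ArithmeticFunction.one_apply]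
    split_ifs
    · rw [abs_one]
    · rw [abs_zero]
      exact zero_le_one
  | insert a S ha ih =>
    rw [Finset.prod_insert ha, Finset.card_insert_of_notMem ha, ArithmeticFunction.mul_apply]
    refine (Finset.abs_sum_le_sum_abs _ _).trans ?_
    have h1 : ∀ x ∈ n.divisorsAntidiagonal, |G a x.1 * (∏ i ∈ S, G i) x.2| ≤ B * (B * D) ^ S.card := by
      intro x hx
      obtain ⟨h2, h3⟩ := Nat.mem_divisorsAntidiagonal.1 hx
      have hx1 : x.1 ≠ 0 := by
        intro h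
        rw [h, zero_mul] at h2
        exact h3 h2.symm
      have hx2 : x.2 ≠ 0 := by
        intro h
        rw [h, mul_zero] at h2
        exact h3 h2.symm
      have hl1 : x.1 ≤ n := Nat.le_of_dvd hn ⟨x.2, h2.symm⟩
      have hl2 : x.2 ≤ n := Nat.le_of_dvd hn ⟨x.1, by rw [mul_comm]; exact h2.symm⟩
      rw [abs_mul]
      exact mul_le_mul (hG a (Finset.mem_insert_self a S) x.1 (Nat.one_le_iff_ne_zero.2 hx1) (hl1.trans hnN))
        (ih (fun i hi => hG i (Finset.mem_insert_of_mem hi)) (Nat.one_le_iff_ne_zero.2 hx2) (hl2.trans hnN)) (abs_nonneg _)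
        (zero_le_one.trans hB)
    refine (Finset.sum_le_sum h1).trans ?_
    rw [Finset.sum_const, nsmul_eq_mul]
    have h4 : (n.divisorsAntidiagonal.card : ℝ) ≤ D := by
      have h5 : n.divisorsAntidiagonal.card = n.divisors.card := by
        rw [← Nat.map_div_right_divisors, Finset.card_map]
      rw [h5]
      exact hd n hn hnN
    have h6 : 0 ≤ B * (B * D) ^ S.card := mul_nonneg (zero_le_one.trans hB) (pow_nonneg (zero_le_one.trans hBD) _)
    calc (n.divisorsAntidiagonal.card : ℝ) * (B * (B * D) ^ S.card) ≤ D * (B * (B * D) ^ S.card) := mul_le_mul_of_nonneg_right h4 h6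
      _ = (B * D) ^ (S.card + 1) := by ring

theorem bd_dy (k : ℕ) (f : ArithmeticFunction ℝ) {B : ℝ} {n : ℕ} (h : |f n| ≤ B) : |dy k f n| ≤ B := by
  rw [dy_apply]
  split_ifs
  · exact h
  · rw [abs_zero]
    exact (abs_nonneg _).trans h

end Pool.Agent.Lib.H81A
end

-- from Lib.H81A.SU
section

/-!
# H81A, chunk SU (S/M): supports of products
-/

namespace Pool.Agent.Lib.H81A

open Finset ArithmeticFunction

theorem su_dy {k n : ℕ} {f : ArithmeticFunction ℝ} (h : dy k f n ≠ 0) : 2 ^ k ≤ n ∧ n < 2 ^ (k + 1) := by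
  rw [dy_apply] at h
  by_contra h1
  exact h (if_neg h1)

/-- PROOF. Induction over `S` (`Finset.induction_on`): a nonzero value of a product `f * g` at `n` gives `n = a b` with `f a ≠ 0`, `g b ≠ 0` (`mul_apply`, `Finset.exists_ne_zero_of_sum_ne_zero`); the empty product is `1`, nonzero only at `1`. -/
theorem supp {ι : Type} (S : Finset ι) (k : ι → ℕ) (F : ι → ArithmeticFunction ℝ) {n : ℕ} (h : (∏ i ∈ S, dy (k i) (F i)) n ≠ 0) :
    2 ^ (∑ i ∈ S, k i) ≤ n ∧ n ≤ 2 ^ (∑ i ∈ S, k i + S.card) := by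
  classical
  induction S using Finset.induction_on generalizing n with
  | empty =>
    rw [Finset.prod_empty] at h
    have h1 : n = 1 := by
      by_contra h2
      exact h (ArithmeticFunction.one_apply_ne h2)
    rw [h1, Finset.sum_empty, Finset.card_empty]
    exact ⟨le_refl _, le_refl _⟩
  | insert a S ha ih =>
    rw [Finset.prod_insert ha, ArithmeticFunction.mul_apply] at h
    obtain ⟨x, hx, hx'⟩ := Finset.exists_ne_zero_of_sum_ne_zero h
    obtain ⟨h1, h2⟩ := su_dy (left_ne_zero_of_mul hx')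
    obtain ⟨h3, h4⟩ := ih (right_ne_zero_of_mul hx')
    have h5 := (Nat.mem_divisorsAntidiagonal.1 hx).1
    rw [Finset.sum_insert ha, Finset.card_insert_of_notMem ha, ← h5]
    constructor
    · rw [pow_add]
      exact Nat.mul_le_mul h1 h3
    · have e : k a + ∑ i ∈ S, k i + (S.card + 1) = (k a + 1) + (∑ i ∈ S, k i + S.card) := by ring
      rw [e, pow_add]
      exact Nat.mul_le_mul h2.le h4

end Pool.Agent.Lib.H81A
end

-- from Lib.H81A.GR
section

/-!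
# H81A, chunk GR (S/M): greedy choice; Abel summation
-/

namespace Pool.Agent.Lib.H81A

open Finset ArithmeticFunction

/-- PROOF. Take `S ⊆ S₀` with `u ≤ ∑ S` of least cardinality (or induction over `S₀`); `S` is not empty; removing one element `i` gives a sum `< u`, and `k i < u`. -/
theorem greedy {ι : Type} [DecidableEq ι] (k : ι → ℕ) (u : ℕ) (hu : 0 < u) (S₀ : Finset ι) (h1 : ∀ i ∈ S₀, k i < u) (h2 : u ≤ ∑ i ∈ S₀, k i) :
    ∃ S ⊆ S₀, u ≤ ∑ i ∈ S, k i ∧ ∑ i ∈ S, k i < 2 * u := by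
  induction S₀ using Finset.induction_on with
  | empty =>
    rw [Finset.sum_empty] at h2
    omega
  | insert i s hi ih =>
    by_cases h : u ≤ ∑ j ∈ s, k j
    · obtain ⟨S, hS, h3⟩ := ih (fun j hj => h1 j (Finset.mem_insert_of_mem hj)) h
      exact ⟨S, hS.trans (Finset.subset_insert i s), h3⟩
    · refine ⟨insert i s, subset_rfl, h2, ?_⟩
      rw [Finset.sum_insert hi]
      have := h1 i (Finset.mem_insert_self i s)
      omega

/-- PROOF. `B₁ ≥ B₂`: the function is `0`; `X ≥ 0` since `X ≥ p ..` (`apply_nonneg`). `B₁ < B₂`: for all `b`, `(if B₁ ≤ b ∧ b < B₂ then w b else 0) = w B₁ (if B₁ ≤ b ∧ b < B₂ then 1 else 0) + ∑ t ∈ Ico (B₁ + 1) B₂, (w t - w (t - 1)) (if t ≤ b ∧ b < B₂ then 1 else 0)`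
(telescoping sum over `t ∈ Ioc B₁ b`); `Q` is linear, `p` subadditive and homogeneous, the coefficients are `≥ 0` with sum `w (B₂ - 1) ≤ V`. -/
theorem abel (p : Seminorm ℝ (ℕ → ℝ)) (Q : (ℕ → ℝ) →ₗ[ℝ] (ℕ → ℝ)) (X : ℝ) (B₁ B₂ : ℕ)
    (hX : ∀ B, B₁ ≤ B → p (Q (fun b => if B ≤ b ∧ b < B₂ then 1 else 0)) ≤ X) (w : ℕ → ℝ) (hw : Monotone w) (hw0 : 0 ≤ w 0) {V : ℝ} (hV0 : 0 ≤ V)
    (hV : ∀ b, b < B₂ → w b ≤ V) : p (Q (fun b => if B₁ ≤ b ∧ b < B₂ then w b else 0)) ≤ V * X := by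
  have hX0 : 0 ≤ X := (apply_nonneg p _).trans (hX B₁ le_rfl)
  have hw0' : ∀ b, 0 ≤ w b := fun b => hw0.trans (hw (Nat.zero_le b))
  rcases le_or_gt B₂ B₁ with hB | hB
  · have h0 : (fun b : ℕ => if B₁ ≤ b ∧ b < B₂ then w b else 0) = 0 := by
      funext b
      rw [if_neg (by omega)]
      rfl
    rw [h0, _root_.map_zero, _root_.map_zero]
    positivity
  · have key : (fun b : ℕ => if B₁ ≤ b ∧ b < B₂ then w b else 0) =
        w B₁ • (fun b : ℕ => if B₁ ≤ b ∧ b < B₂ then (1 : ℝ) else 0) +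
          ∑ t ∈ Finset.Ico (B₁ + 1) B₂, (w t - w (t - 1)) • (fun b : ℕ => if t ≤ b ∧ b < B₂ then (1 : ℝ) else 0) := by
      funext b
      simp only [Pi.add_apply, Pi.smul_apply, Finset.sum_apply, smul_eq_mul]
      by_cases hb : B₁ ≤ b ∧ b < B₂
      · rw [if_pos hb, if_pos hb, mul_one]
        have h1 : ∑ t ∈ Finset.Ico (B₁ + 1) B₂, (w t - w (t - 1)) * (if t ≤ b ∧ b < B₂ then (1 : ℝ) else 0) =
            ∑ t ∈ Finset.Ico (B₁ + 1) (b + 1), (w t - w (t - 1)) := by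
          rw [← Finset.sum_subset (s₁ := Finset.Ico (B₁ + 1) (b + 1)) (s₂ := Finset.Ico (B₁ + 1) B₂)]
          · refine Finset.sum_congr rfl fun t ht => ?_
            rw [Finset.mem_Ico] at ht
            rw [if_pos ⟨by omega, hb.2⟩, mul_one]
          · intro t ht
            rw [Finset.mem_Ico] at ht ⊢
            omega
          · intro t ht ht'
            rw [Finset.mem_Ico] at ht ht'
            rw [if_neg (by omega), mul_zero]
        rw [h1, Finset.sum_Ico_eq_sum_range]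
        have h2 : ∀ m, ∑ i ∈ Finset.range m, (w (B₁ + 1 + i) - w (B₁ + 1 + i - 1)) = w (B₁ + m) - w B₁ := by
          intro m
          induction m with
          | zero => simp
          | succ m ih =>
            rw [Finset.sum_range_succ, ih]
            have e1 : B₁ + 1 + m - 1 = B₁ + m := by omega
            have e2 : B₁ + 1 + m = B₁ + (m + 1) := by omega
            rw [e1, e2]
            ring
        rw [h2]
        have e3 : B₁ + (b + 1 - (B₁ + 1)) = b := by omega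
        rw [e3]
        ring
      · rw [if_neg hb, if_neg hb, mul_zero, zero_add]
        symm
        refine Finset.sum_eq_zero fun t ht => ?_
        rw [Finset.mem_Ico] at ht
        rw [if_neg (by omega), mul_zero]
    rw [key, map_add, map_smul, map_sum]
    refine (map_add_le_add p _ _).trans ?_
    have h1 : p (w B₁ • Q (fun b : ℕ => if B₁ ≤ b ∧ b < B₂ then (1 : ℝ) else 0)) ≤ w B₁ * X := by
      rw [map_smul_eq_mul, Real.norm_of_nonneg (hw0' _)]
      exact mul_le_mul_of_nonneg_left (hX B₁ le_rfl) (hw0' _)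
    have h2 : p (∑ t ∈ Finset.Ico (B₁ + 1) B₂, Q ((w t - w (t - 1)) • (fun b : ℕ => if t ≤ b ∧ b < B₂ then (1 : ℝ) else 0))) ≤
        ∑ t ∈ Finset.Ico (B₁ + 1) B₂, (w t - w (t - 1)) * X := by
      refine (Finset.le_sum_of_subadditive p (_root_.map_zero p).le (map_add_le_add p) _ _).trans ?_
      refine Finset.sum_le_sum fun t ht => ?_
      rw [Finset.mem_Ico] at ht
      have h3 : 0 ≤ w t - w (t - 1) := sub_nonneg.2 (hw (by omega))
      rw [map_smul, map_smul_eq_mul, Real.norm_of_nonneg h3]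
      exact mul_le_mul_of_nonneg_left (hX t (by omega)) h3
    refine (add_le_add h1 h2).trans ?_
    rw [← Finset.sum_mul, ← add_mul]
    refine mul_le_mul_of_nonneg_right ?_ hX0
    have h4 : ∑ t ∈ Finset.Ico (B₁ + 1) B₂, (w t - w (t - 1)) = w (B₂ - 1) - w B₁ := by
      rw [Finset.sum_Ico_eq_sum_range]
      have h2 : ∀ m, ∑ i ∈ Finset.range m, (w (B₁ + 1 + i) - w (B₁ + 1 + i - 1)) = w (B₁ + m) - w B₁ := by
        intro m
        induction m with
        | zero => simp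
        | succ m ih =>
          rw [Finset.sum_range_succ, ih]
          have e1 : B₁ + 1 + m - 1 = B₁ + m := by omega
          have e2 : B₁ + 1 + m = B₁ + (m + 1) := by omega
          rw [e1, e2]
          ring
      rw [h2]
      congr 2
      omega
    rw [h4]
    have := hV (B₂ - 1) (by omega)
    linarith

end Pool.Agent.Lib.H81A
end

-- from Lib.H81A.T1
section

/-!
# H81A, chunk T1 (M): boxes with at most one long variable
-/

namespace Pool.Agent.Lib.H81A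

open Finset ArithmeticFunction

/-- The coefficients of a short product, normalised. -/
theorem t1_gam {ι : Type} [DecidableEq ι] {c η : ℝ} {N L u v r : ℕ} {V : ℝ} (par : Par c η N L u v r V) (k : ι → ℕ) (G : ι → ArithmeticFunction ℝ)
    (hG : ∀ i, ∀ n, 1 ≤ n → n ≤ N → |G i n| ≤ V) (S : Finset ι) (hr : S.card ≤ r) (hS : ∑ i ∈ S, k i < u) :
    ∃ γ : ℕ → ℝ, (∀ q, |γ q| ≤ 1) ∧ (∀ q : ℕ, γ q ≠ 0 → 1 ≤ q ∧ (q : ℝ) ≤ (N : ℝ) ^ (2 * c)) ∧
      ∀ q, 1 ≤ q → q ≤ N → (∏ i ∈ S, dy (k i) (G i)) q = V ^ (2 * r) * γ q := by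
  have hV0 : 0 < V ^ (2 * r) := pow_pos (lt_of_lt_of_le zero_lt_one par.hV) _
  refine ⟨fun q => if 1 ≤ q ∧ q ≤ N then (∏ i ∈ S, dy (k i) (G i)) q / V ^ (2 * r) else 0, ?_, ?_, ?_⟩
  · intro q
    show |if 1 ≤ q ∧ q ≤ N then (∏ i ∈ S, dy (k i) (G i)) q / V ^ (2 * r) else 0| ≤ 1
    split_ifs with h
    · rw [abs_div, abs_of_pos hV0, div_le_one hV0]
      refine (bound S (fun i => dy (k i) (G i)) par.hV par.hV (fun i _ n h1 h2 => bd_dy _ _ (hG i n h1 h2)) par.hVd h.1 h.2).trans ?_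
      rw [← pow_two, ← pow_mul]
      exact pow_le_pow_right₀ par.hV (Nat.mul_le_mul_left 2 hr)
    · rw [abs_zero]
      exact zero_le_one
  · intro q hq
    by_cases h : 1 ≤ q ∧ q ≤ N
    · refine ⟨h.1, ?_⟩
      have h1 : (∏ i ∈ S, dy (k i) (G i)) q ≠ 0 := by
        intro h0
        apply hq
        show (if 1 ≤ q ∧ q ≤ N then (∏ i ∈ S, dy (k i) (G i)) q / V ^ (2 * r) else 0) = 0
        rw [if_pos h, h0, zero_div]
      have h2 := (supp S k G h1).2
      have h3 : 2 ^ (∑ i ∈ S, k i + S.card) ≤ 2 ^ (u + r) := Nat.pow_le_pow_right (by norm_num) (by omega)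
      calc (q : ℝ) ≤ ((2 ^ (u + r) : ℕ) : ℝ) := by exact_mod_cast h2.trans h3
        _ = (2 : ℝ) ^ (u + r) := by push_cast; rfl
        _ ≤ _ := par.hq
    · exact absurd (if_neg h) hq
  · intro q h1 h2
    show _ = V ^ (2 * r) * (if 1 ≤ q ∧ q ≤ N then (∏ i ∈ S, dy (k i) (G i)) q / V ^ (2 * r) else 0)
    rw [if_pos ⟨h1, h2⟩, mul_div_cancel₀ _ hV0.ne']

/-- Convolution with `γ`. -/
noncomputable def t1_Q (γ : ℕ → ℝ) : (ℕ → ℝ) →ₗ[ℝ] (ℕ → ℝ) where
  toFun h := fun m => ∑ x ∈ m.divisorsAntidiagonal, γ x.1 * h x.2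
  map_add' h h' := by
    funext m
    rw [Pi.add_apply, ← Finset.sum_add_distrib]
    exact Finset.sum_congr rfl fun x _ => by rw [Pi.add_apply, mul_add]
  map_smul' a h := by
    funext m
    rw [RingHom.id_apply, Pi.smul_apply, smul_eq_mul, Finset.mul_sum]
    exact Finset.sum_congr rfl fun x _ => by rw [Pi.smul_apply, smul_eq_mul]; ring

/-- The smooth weights. -/
theorem t1_w {f : ArithmeticFunction ℝ} (hf : f = one1 ∨ f = logf) {N : ℕ} {V : ℝ} (hV : 1 ≤ V) (hVlog : Real.log N ≤ V) :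
    ∃ w : ℕ → ℝ, Monotone w ∧ 0 ≤ w 0 ∧ (∀ b, b ≤ N → w b ≤ V) ∧ ∀ n, 1 ≤ n → f n = w n := by
  rcases hf with rfl | rfl
  · exact ⟨fun _ => 1, fun _ _ _ => le_rfl, zero_le_one, fun _ _ => hV, fun n hn => af_apply _ (by omega)⟩
  · have hm : Monotone fun n : ℕ => Real.log (n : ℝ) := by
      intro a b hab
      show Real.log (a : ℝ) ≤ Real.log (b : ℝ)
      rcases Nat.eq_zero_or_pos a with rfl | ha
      · rw [Nat.cast_zero, Real.log_zero]
        exact Real.log_natCast_nonneg b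
      · exact Real.log_le_log (by exact_mod_cast ha) (by exact_mod_cast hab)
    refine ⟨fun n => Real.log n, hm, ?_, fun b hb => (hm hb).trans hVlog, fun n hn => af_apply _ (by omega)⟩
    show 0 ≤ Real.log ((0 : ℕ) : ℝ)
    rw [Nat.cast_zero, Real.log_zero]

theorem t1_X {c : ℝ} {N : ℕ} {p : Seminorm ℝ (ℕ → ℝ)} {X : ℝ} (h1 : H1 c N p X) : 0 ≤ X := by
  refine le_trans ?_ (h1 1 1 le_rfl (by norm_num) (fun _ => 0) (fun _ => by rw [abs_zero]; exact zero_le_one) (fun q hq => absurd rfl hq))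
  exact apply_nonneg p _

theorem t1_div {m N : ℕ} (hm : m ≤ N) {x : ℕ × ℕ} (hx : x ∈ m.divisorsAntidiagonal) : (1 ≤ x.1 ∧ x.1 ≤ N) ∧ (1 ≤ x.2 ∧ x.2 ≤ N) := by
  obtain ⟨h2, h3⟩ := Nat.mem_divisorsAntidiagonal.1 hx
  have hx1 : x.1 ≠ 0 := by
    intro h
    rw [h, zero_mul] at h2
    exact h3 h2.symm
  have hx2 : x.2 ≠ 0 := by
    intro h
    rw [h, mul_zero] at h2
    exact h3 h2.symm
  have hm0 : 0 < m := Nat.pos_of_ne_zero h3
  have hl1 : x.1 ≤ m := Nat.le_of_dvd hm0 ⟨x.2, h2.symm⟩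
  have hl2 : x.2 ≤ m := Nat.le_of_dvd hm0 ⟨x.1, by rw [mul_comm]; exact h2.symm⟩
  exact ⟨⟨Nat.one_le_iff_ne_zero.2 hx1, hl1.trans hm⟩, ⟨Nat.one_le_iff_ne_zero.2 hx2, hl2.trans hm⟩⟩

/-- PROOF. `γ q = (∏ i, dy (k i) (G i)) q` for `q ≤ N` and `0` for `q > N`: `|γ| ≤ (V * V) ^ (card ι) ≤ V ^ (2 r)` (`bound`, `bd_dy`), `γ q ≠ 0` gives `1 ≤ q ≤ 2 ^ (u + r) ≤ N ^ (2 c)` (`supp`). For `1 ≤ m ≤ N` the value at `m` is `∑ x ∈ m.divisorsAntidiagonal, γ x.1 * (if 1 ≤ x.2 ∧ x.2 < 2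
then 1 else 0)` (only `x = (m, 1)` counts). `H1` for `γ / V ^ (2 r)`; `0 ≤ X` from `H1` with `γ = 0`, `B₁ = B₂ = 1`. (`H1` wants `1 ≤ B₁`, `B₂ ≤ 2 B₁`.) -/
theorem type0 {ι : Type} [Fintype ι] [DecidableEq ι] {c η : ℝ} {N L u v r : ℕ} {V : ℝ} (par : Par c η N L u v r V) (hr : Fintype.card ι ≤ r) (p : Seminorm ℝ (ℕ → ℝ)) (hp : Loc N p)
    {X : ℝ} (h1 : H1 c N p X) (k : ι → ℕ) (G : ι → ArithmeticFunction ℝ) (hG : ∀ i, ∀ n, 1 ≤ n → n ≤ N → |G i n| ≤ V)
    (hk : ∑ i, k i < u) : p (fun m => (∏ i, dy (k i) (G i)) m) ≤ V ^ (2 * r + 2) * X := by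
  have hX := t1_X h1
  have hV0 : 0 ≤ V := zero_le_one.trans par.hV
  obtain ⟨γ, hγ1, hγ2, hγ3⟩ := t1_gam par k G hG univ hr hk
  have h4 : p (fun m => (∏ i, dy (k i) (G i)) m) =
      p (V ^ (2 * r) • fun m : ℕ => ∑ x ∈ m.divisorsAntidiagonal, γ x.1 * (if 1 ≤ x.2 ∧ x.2 < 2 then 1 else 0)) := by
    refine hp.congr fun m hm1 hm2 => ?_
    rw [Pi.smul_apply, smul_eq_mul, hγ3 m hm1 hm2, Finset.sum_eq_single (m, 1)]
    · rw [if_pos ⟨le_rfl, by norm_num⟩, mul_one]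
    · intro x hx hne
      have h5 : ¬ (1 ≤ x.2 ∧ x.2 < 2) := by
        intro h
        have h6 : x.2 = 1 := by omega
        obtain ⟨h7, _⟩ := Nat.mem_divisorsAntidiagonal.1 hx
        apply hne
        rw [h6, mul_one] at h7
        exact Prod.ext h7 h6
      rw [if_neg h5, mul_zero]
    · intro h
      exact absurd (Nat.mem_divisorsAntidiagonal.2 ⟨mul_one m, by omega⟩) h
  rw [h4, map_smul_eq_mul, Real.norm_of_nonneg (pow_nonneg hV0 _)]
  have h5 := h1 1 2 le_rfl (by norm_num) γ hγ1 hγ2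
  calc V ^ (2 * r) * _ ≤ V ^ (2 * r) * X := mul_le_mul_of_nonneg_left h5 (pow_nonneg hV0 _)
    _ ≤ V ^ (2 * r + 2) * X := mul_le_mul_of_nonneg_right (pow_le_pow_right₀ par.hV (by omega)) hX

/-- PROOF. `∏ j, dy (k j) (G j) = γ₀ * dy (k i) (G i)`, `γ₀ = ∏ j ∈ univ.erase i`; `γ q = γ₀ q` for `q ≤ N`, `0` for `q > N`; `|γ| ≤ V ^ (2 r)`, `γ q ≠ 0` gives `1 ≤ q ≤ 2 ^ (u + r) ≤ N ^ (2 c)`. If `G i = one1`: `H1` with `B₁ = 2 ^ k i`, `B₂ = 2 ^ (k i + 1)` (`Loc.congr` to replace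
`γ₀` by `γ`). If `G i = logf`: `abel` with the linear map `Q h = fun m => ∑ x ∈ m.divisorsAntidiagonal, γ x.1 * h x.2`, `B₁ = 2 ^ k i`, `B₂ = min (2 ^ (k i + 1)) (N + 1)` (for `m ≤ N` only `x.2 ≤ N` counts), `w b = log b` (`Real.log 0 = 0`; monotone on the
natural numbers), `w b ≤ log N ≤ V` for `b < B₂`; the intervals `[B, B₂)` with `B ≥ 2 ^ k i` satisfy `B₂ ≤ 2 B`. Total `V ^ (2 r) V X`. -/
theorem type1 {ι : Type} [Fintype ι] [DecidableEq ι] {c η : ℝ} {N L u v r : ℕ} {V : ℝ} (par : Par c η N L u v r V) (hr : Fintype.card ι ≤ r) (p : Seminorm ℝ (ℕ → ℝ)) (hp : Loc N p)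
    {X : ℝ} (h1 : H1 c N p X) (k : ι → ℕ) (G : ι → ArithmeticFunction ℝ) (hG : ∀ i, ∀ n, 1 ≤ n → n ≤ N → |G i n| ≤ V)
    (i : ι) (hi : G i = one1 ∨ G i = logf) (hk : ∑ j ∈ univ.erase i, k j < u) : p (fun m => (∏ j, dy (k j) (G j)) m) ≤ V ^ (2 * r + 2) * X := by
  have hX := t1_X h1
  have hV0 : 0 ≤ V := zero_le_one.trans par.hV
  obtain ⟨w, hw1, hw2, hw3, hw4⟩ := t1_w hi (N := N) par.hV par.hVlog
  obtain ⟨γ, hγ1, hγ2, hγ3⟩ := t1_gam par k G hG (univ.erase i) ((Finset.card_erase_le).trans hr) hk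
  have h4 : p (fun m => (∏ j, dy (k j) (G j)) m) =
      p (V ^ (2 * r) • t1_Q γ (fun b => if 2 ^ k i ≤ b ∧ b < min (2 ^ (k i + 1)) (N + 1) then w b else 0)) := by
    refine hp.congr fun m hm1 hm2 => ?_
    rw [← Finset.prod_erase_mul univ (fun j => dy (k j) (G j)) (Finset.mem_univ i), ArithmeticFunction.mul_apply, Pi.smul_apply, smul_eq_mul]
    show _ = V ^ (2 * r) * ∑ x ∈ m.divisorsAntidiagonal, γ x.1 * (if 2 ^ k i ≤ x.2 ∧ x.2 < min (2 ^ (k i + 1)) (N + 1) then w x.2 else 0)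
    rw [Finset.mul_sum]
    refine Finset.sum_congr rfl fun x hx => ?_
    obtain ⟨⟨a1, a2⟩, ⟨b1, b2⟩⟩ := t1_div hm2 hx
    rw [hγ3 x.1 a1 a2, dy_apply, hw4 x.2 b1, mul_assoc]
    congr 2
    have h5 : (x.2 < min (2 ^ (k i + 1)) (N + 1)) ↔ x.2 < 2 ^ (k i + 1) := by
      rw [lt_min_iff]
      exact ⟨fun h => h.1, fun h => ⟨h, by omega⟩⟩
    simp only [h5]
  rw [h4, map_smul_eq_mul, Real.norm_of_nonneg (pow_nonneg hV0 _)]
  have h5 : p (t1_Q γ (fun b => if 2 ^ k i ≤ b ∧ b < min (2 ^ (k i + 1)) (N + 1) then w b else 0)) ≤ V * X := by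
    refine abel p (t1_Q γ) X _ _ (fun B hB => ?_) w hw1 hw2 hV0 (fun b hb => hw3 b ?_)
    · refine h1 B _ ((Nat.one_le_two_pow).trans hB) ?_ γ hγ1 hγ2
      refine (min_le_left _ _).trans ?_
      rw [pow_succ, mul_comm]
      exact Nat.mul_le_mul_left 2 hB
    · have h6 := lt_of_lt_of_le hb (min_le_right _ _)
      omega
  calc V ^ (2 * r) * _ ≤ V ^ (2 * r) * (V * X) := mul_le_mul_of_nonneg_left h5 (pow_nonneg hV0 _)
    _ = V ^ (2 * r + 1) * X := by ring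
    _ ≤ V ^ (2 * r + 2) * X := mul_le_mul_of_nonneg_right (pow_le_pow_right₀ par.hV (by omega)) hX

end Pool.Agent.Lib.H81A
end

-- from Lib.H81A.T3
section

/-!
# H81A, chunk T3 (M/L): boxes with two long variables
-/

namespace Pool.Agent.Lib.H81A

open Finset ArithmeticFunction

noncomputable def t3_Q (γ h h' : ℕ → ℝ) : ℕ → ℝ :=
  fun m => ∑ x ∈ m.divisorsAntidiagonal, γ x.1 * ∑ y ∈ x.2.divisorsAntidiagonal, h y.1 * h' y.2

noncomputable def t3_L1 (γ h' : ℕ → ℝ) : (ℕ → ℝ) →ₗ[ℝ] (ℕ → ℝ) where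
  toFun h := t3_Q γ h h'
  map_add' h1 h2 := by
    funext m
    simp only [t3_Q, Pi.add_apply, add_mul, Finset.sum_add_distrib, mul_add]
  map_smul' c h := by
    funext m
    simp only [t3_Q, Pi.smul_apply, smul_eq_mul, RingHom.id_apply, Finset.mul_sum]
    refine Finset.sum_congr rfl fun x _ => Finset.sum_congr rfl fun y _ => ?_
    ring

noncomputable def t3_L2 (γ h : ℕ → ℝ) : (ℕ → ℝ) →ₗ[ℝ] (ℕ → ℝ) where
  toFun h' := t3_Q γ h h'
  map_add' h1 h2 := by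
    funext m
    simp only [t3_Q, Pi.add_apply, Finset.sum_add_distrib, mul_add]
  map_smul' c h := by
    funext m
    simp only [t3_Q, Pi.smul_apply, smul_eq_mul, RingHom.id_apply, Finset.mul_sum]
    refine Finset.sum_congr rfl fun x _ => Finset.sum_congr rfl fun y _ => ?_
    ring

theorem t3_w {G : ArithmeticFunction ℝ} {N : ℕ} {V : ℝ} (hV : 1 ≤ V) (hlog : Real.log N ≤ V) (hG : G = one1 ∨ G = logf) :
    ∃ w : ℕ → ℝ, Monotone w ∧ 0 ≤ w 0 ∧ (∀ b, b ≤ N → w b ≤ V) ∧ ∀ n, n ≠ 0 → G n = w n := by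
  rcases hG with rfl | rfl
  · exact ⟨fun _ => 1, monotone_const, zero_le_one, fun _ _ => hV, fun n hn => af_apply _ hn⟩
  · have hmono : Monotone fun n : ℕ => Real.log n := by
      intro a b hab
      show Real.log a ≤ Real.log b
      rcases Nat.eq_zero_or_pos a with rfl | ha
      · rw [Nat.cast_zero, Real.log_zero]
        exact Real.log_natCast_nonneg b
      · exact Real.log_le_log (by exact_mod_cast ha) (by exact_mod_cast hab)
    exact ⟨fun n => Real.log n, hmono, by simp, fun b hb => (hmono hb).trans hlog, fun n hn => af_apply _ hn⟩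

/-- PROOF. `s = ∑ j, k j`. If `s ≥ L` the function vanishes on `[1, N]` (`supp`, `N < 2 ^ L`), `p .. = 0` and `0 ≤ X` (`H3` with `γ = 0`, `A₁ = B₁ = 2 ^ (v + 1)`, `A₂ = B₂ = 0`). Otherwise `k i, k j ≥ v + 1` and `k i + k j < L`, so `N ^ (1 / 2 - 2 η) ≤ 2 ^ (v + 1) ≤ 2 ^ k i` and
`2 ^ (k i + 1) ≤ 2 ^ (L - v) ≤ N ^ (1 / 2 + 2 η)`, the same for `j`. `∏ = γ₀ * (dy (k i) (G i) * dy (k j) (G j))`, `γ₀ = ∏ l ∈ (univ.erase i).erase j`; `γ q = γ₀ q` for `q ≤ N`, `0` for `q > N`: `|γ| ≤ V ^ (2 (card - 2))`, support in `[1, 2 ^ (u + r)]`, `2 ^ (u + r) ≤ N ^ (2 c)`.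
If `G i = G j = one1`: `H3`. For `logf`: `abel` once or twice with the linear maps `Q h = fun m => ∑ x ∈ m.divisorsAntidiagonal, γ x.1 * ∑ y ∈ x.2.divisorsAntidiagonal, h y.1 * h' y.2` (in `h` for fixed `h'`, then in `h'` for fixed `h = ` indicator of an interval), upper
ends `min (2 ^ (k + 1)) (N + 1)`, `w = log`, each costs a factor `V`; the intervals satisfy `A₂ ≤ 2 A₁`, `B₂ ≤ 2 B₁` because they lie in `[2 ^ k, 2 ^ (k + 1))`. Total `V ^ (2 (card - 2)) V ^ 2 X ≤ V ^ (2 r + 2) X`. -/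
theorem type3 {ι : Type} [Fintype ι] [DecidableEq ι] {c η : ℝ} {N L u v r : ℕ} {V : ℝ} (par : Par c η N L u v r V) (hr : Fintype.card ι ≤ r) (p : Seminorm ℝ (ℕ → ℝ)) (hp : Loc N p)
    {X : ℝ} (h3 : H3 c η N p X) (k : ι → ℕ) (G : ι → ArithmeticFunction ℝ) (hG : ∀ i, ∀ n, 1 ≤ n → n ≤ N → |G i n| ≤ V)
    (i j : ι) (hij : i ≠ j) (hi : G i = one1 ∨ G i = logf) (hj : G j = one1 ∨ G j = logf) (hki : v < k i) (hkj : v < k j)
    (hk : ∑ l ∈ (univ.erase i).erase j, k l < u) : p (fun m => (∏ j, dy (k j) (G j)) m) ≤ V ^ (2 * r + 2) * X := by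
  have hV0 : (0 : ℝ) ≤ V := zero_le_one.trans par.hV
  set S := (univ.erase i).erase j with hS
  have hji : j ∈ (univ.erase i : Finset ι) := Finset.mem_erase.2 ⟨hij.symm, Finset.mem_univ j⟩
  have hcard : S.card + 2 = Fintype.card ι := by
    have h1 := Finset.card_erase_add_one hji
    have h2 := Finset.card_erase_add_one (Finset.mem_univ i)
    rw [← hS] at h1
    rw [← Finset.card_univ]
    omega
  have hprod : ∏ l, dy (k l) (G l) = (∏ l ∈ S, dy (k l) (G l)) * (dy (k i) (G i) * dy (k j) (G j)) := by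
    rw [← Finset.mul_prod_erase _ _ (Finset.mem_univ i), ← Finset.mul_prod_erase _ _ hji, ← hS]
    ring
  have hsum : ∑ l, k l = ∑ l ∈ S, k l + (k i + k j) := by
    rw [← Finset.add_sum_erase _ _ (Finset.mem_univ i), ← Finset.add_sum_erase _ _ hji, ← hS]
    ring
  have hX0 : 0 ≤ X := by
    refine (apply_nonneg p _).trans (h3 (2 ^ (v + 1)) 0 (2 ^ (v + 1)) 0 ?_ ?_ ?_ ?_ (by simp) (by simp) (fun _ => 0)
      (fun q => by simp) (fun q hq => absurd rfl hq))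
    · push_cast; exact par.hA
    · push_cast; positivity
    · push_cast; exact par.hA
    · push_cast; positivity
  rcases le_or_gt L (∑ l, k l) with hL | hL
  · have h0 : p (fun m => (∏ j, dy (k j) (G j)) m) = 0 := by
      refine hp _ fun m hm hmN => ?_
      by_contra hne
      have h1 := (supp univ k G hne).1
      have h2 : 2 ^ L ≤ 2 ^ (∑ l, k l) := Nat.pow_le_pow_right (by norm_num) hL
      have h4 := par.hL
      omega
    rw [h0]
    positivity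
  · set W : ℝ := (V * V) ^ S.card with hW
    have hVV : 1 ≤ V * V := by nlinarith [par.hV]
    have hW1 : 1 ≤ W := one_le_pow₀ hVV
    have hW0 : 0 < W := by linarith
    set γ₀ := ∏ l ∈ S, dy (k l) (G l) with hγ₀
    set γ : ℕ → ℝ := fun q => if q ≤ N then W⁻¹ * γ₀ q else 0 with hγ
    have hγ1 : ∀ q, |γ q| ≤ 1 := by
      intro q
      show |if q ≤ N then W⁻¹ * γ₀ q else 0| ≤ 1
      split_ifs with hq
      · rcases Nat.eq_zero_or_pos q with rfl | hq0
        · rw [ArithmeticFunction.map_zero, mul_zero, abs_zero]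
          exact zero_le_one
        · rw [abs_mul, abs_of_pos (inv_pos.2 hW0), inv_mul_le_iff₀ hW0, mul_one]
          exact bound S _ par.hV par.hV (fun l _ n hn hnN => bd_dy _ _ (hG l n hn hnN)) par.hVd hq0 hq
      · rw [abs_zero]
        exact zero_le_one
    have hγ2 : ∀ q : ℕ, γ q ≠ 0 → 1 ≤ q ∧ (q : ℝ) ≤ (N : ℝ) ^ (2 * c) := by
      intro q hq
      have h1 : q ≤ N ∧ γ₀ q ≠ 0 := by
        by_contra h
        apply hq
        show (if q ≤ N then W⁻¹ * γ₀ q else 0) = 0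
        split_ifs with h2
        · by_contra h4
          exact h ⟨h2, fun h5 => h4 (by rw [h5, mul_zero])⟩
        · rfl
      obtain ⟨h2, h4⟩ := supp S k G h1.2
      refine ⟨?_, ?_⟩
      · exact le_trans Nat.one_le_two_pow h2
      · have h5 : q ≤ 2 ^ (u + r) := h4.trans (Nat.pow_le_pow_right (by norm_num) (by omega))
        have h6 : (q : ℝ) ≤ 2 ^ (u + r) := by exact_mod_cast h5
        exact h6.trans par.hq
    obtain ⟨wi, hwi1, hwi2, hwi3, hwi4⟩ := t3_w par.hV par.hVlog hi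
    obtain ⟨wj, hwj1, hwj2, hwj3, hwj4⟩ := t3_w par.hV par.hVlog hj
    set A₁ := 2 ^ (k i) with hA₁
    set A₂ := min (2 ^ (k i + 1)) (N + 1) with hA₂
    set B₁ := 2 ^ (k j) with hB₁
    set B₂ := min (2 ^ (k j + 1)) (N + 1) with hB₂
    have hdy : ∀ (l : ι) (w : ℕ → ℝ), (∀ n, n ≠ 0 → G l n = w n) → ∀ n, n ≠ 0 → n ≤ N →
        dy (k l) (G l) n = if 2 ^ (k l) ≤ n ∧ n < min (2 ^ (k l + 1)) (N + 1) then w n else 0 := by
      intro l w hw n hn hnN
      rw [dy_apply]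
      have h1 : (2 ^ (k l) ≤ n ∧ n < 2 ^ (k l + 1)) ↔ (2 ^ (k l) ≤ n ∧ n < min (2 ^ (k l + 1)) (N + 1)) := by
        rw [lt_min_iff]
        constructor
        · rintro ⟨a, b⟩
          exact ⟨a, b, by omega⟩
        · rintro ⟨a, b, -⟩
          exact ⟨a, b⟩
      by_cases h2 : 2 ^ (k l) ≤ n ∧ n < 2 ^ (k l + 1)
      · rw [if_pos h2, if_pos (h1.1 h2), hw n hn]
      · rw [if_neg h2, if_neg fun h => h2 (h1.2 h)]
    have hfun : p (fun m => (∏ l, dy (k l) (G l)) m) = W * p (t3_Q γ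
        (fun a => if A₁ ≤ a ∧ a < A₂ then wi a else 0) (fun b => if B₁ ≤ b ∧ b < B₂ then wj b else 0)) := by
      rw [← Real.norm_of_nonneg hW0.le, ← map_smul_eq_mul p]
      refine hp.congr fun m hm hmN => ?_
      rw [hprod, ArithmeticFunction.mul_apply, Pi.smul_apply, smul_eq_mul, t3_Q, Finset.mul_sum]
      refine Finset.sum_congr rfl fun x hx => ?_
      have hx' := Nat.mem_divisorsAntidiagonal.1 hx
      have hx1 : x.1 ≤ m := Nat.divisor_le (Nat.fst_mem_divisors_of_mem_antidiagonal hx)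
      have hx2 : x.2 ≤ m := Nat.divisor_le (Nat.snd_mem_divisors_of_mem_antidiagonal hx)
      have hγx : γ x.1 = W⁻¹ * γ₀ x.1 := if_pos (hx1.trans hmN)
      rw [hγx, ArithmeticFunction.mul_apply]
      have h1 : ∑ y ∈ x.2.divisorsAntidiagonal, dy (k i) (G i) y.1 * dy (k j) (G j) y.2 =
          ∑ y ∈ x.2.divisorsAntidiagonal, (if A₁ ≤ y.1 ∧ y.1 < A₂ then wi y.1 else 0) *
            (if B₁ ≤ y.2 ∧ y.2 < B₂ then wj y.2 else 0) := by
        refine Finset.sum_congr rfl fun y hy => ?_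
        have hy' := Nat.mem_divisorsAntidiagonal.1 hy
        have hy1 : y.1 ≤ x.2 := Nat.divisor_le (Nat.fst_mem_divisors_of_mem_antidiagonal hy)
        have hy2 : y.2 ≤ x.2 := Nat.divisor_le (Nat.snd_mem_divisors_of_mem_antidiagonal hy)
        have hn1 : y.1 ≠ 0 := fun h => hy'.2 (by rw [← hy'.1, h, zero_mul])
        have hn2 : y.2 ≠ 0 := fun h => hy'.2 (by rw [← hy'.1, h, mul_zero])
        rw [hdy i wi hwi4 _ hn1 (by omega), hdy j wj hwj4 _ hn2 (by omega)]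
      rw [h1]
      have h2 : W * W⁻¹ = 1 := mul_inv_cancel₀ hW0.ne'
      calc γ₀ x.1 * _ = (W * W⁻¹) * (γ₀ x.1 * _) := by rw [h2, one_mul]
        _ = _ := by ring
    have hin : ∀ A B, A₁ ≤ A → B₁ ≤ B → p (t3_Q γ (fun a => if A ≤ a ∧ a < A₂ then 1 else 0)
        (fun b => if B ≤ b ∧ b < B₂ then 1 else 0)) ≤ X := by
      intro A B hA hB
      have hlow : ∀ l, v < k l → ∀ A : ℕ, 2 ^ (k l) ≤ A → (N : ℝ) ^ (1 / 2 - 2 * η) ≤ (A : ℝ) := by
        intro l hl A hA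
        refine par.hA.trans ?_
        have h1 : 2 ^ (v + 1) ≤ A := (Nat.pow_le_pow_right (by norm_num) (by omega)).trans hA
        exact_mod_cast h1
      have hupp : ∀ l, k l + 1 ≤ L - v → ((min (2 ^ (k l + 1)) (N + 1) : ℕ) : ℝ) ≤ (N : ℝ) ^ (1 / 2 + 2 * η) := by
        intro l hl
        refine le_trans ?_ par.hB
        have h1 : min (2 ^ (k l + 1)) (N + 1) ≤ 2 ^ (L - v) :=
          (min_le_left _ _).trans (Nat.pow_le_pow_right (by norm_num) hl)
        exact_mod_cast h1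
      have hdbl : ∀ l A, 2 ^ (k l) ≤ A → min (2 ^ (k l + 1)) (N + 1) ≤ 2 * A := by
        intro l A hA
        refine (min_le_left _ _).trans ?_
        rw [pow_succ]
        omega
      exact h3 A A₂ B B₂ (hlow i hki A hA) (hupp i (by omega)) (hlow j hkj B hB) (hupp j (by omega))
        (hdbl i A hA) (hdbl j B hB) γ hγ1 hγ2
    have hin2 : ∀ A, A₁ ≤ A → p (t3_L1 γ (fun b => if B₁ ≤ b ∧ b < B₂ then wj b else 0)
        (fun a => if A ≤ a ∧ a < A₂ then 1 else 0)) ≤ V * X := by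
      intro A hA
      exact abel p (t3_L2 γ (fun a => if A ≤ a ∧ a < A₂ then 1 else 0)) X B₁ B₂ (fun B hB => hin A B hA hB)
        wj hwj1 hwj2 hV0 (fun b hb => hwj3 b (by rw [hB₂, lt_min_iff] at hb; omega))
    have hin3 : p (t3_L1 γ (fun b => if B₁ ≤ b ∧ b < B₂ then wj b else 0)
        (fun a => if A₁ ≤ a ∧ a < A₂ then wi a else 0)) ≤ V * (V * X) :=
      abel p (t3_L1 γ (fun b => if B₁ ≤ b ∧ b < B₂ then wj b else 0)) (V * X) A₁ A₂ hin2
        wi hwi1 hwi2 hV0 (fun b hb => hwi3 b (by rw [hA₂, lt_min_iff] at hb; omega))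
    rw [hfun]
    calc W * p _ ≤ W * (V * (V * X)) := mul_le_mul_of_nonneg_left hin3 hW0.le
      _ = V ^ (2 * S.card + 2) * X := by
        rw [hW, ← sq, ← pow_mul, pow_add]
        ring
      _ ≤ V ^ (2 * r + 2) * X := mul_le_mul_of_nonneg_right (pow_le_pow_right₀ par.hV (by omega)) hX0

end Pool.Agent.Lib.H81A
end

-- from Lib.H81A.T2
section

/-!
# H81A, chunk T2 (M): boxes with a sub-product in the range
-/

namespace Pool.Agent.Lib.H81A

open Finset ArithmeticFunction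

theorem t2_part (A : ℕ → ℝ) {N s r : ℕ} (hA : ∀ a, A a ≠ 0 → 2 ^ s ≤ a ∧ a ≤ 2 ^ (s + r)) {a : ℕ} (ha : 1 ≤ a) (haN : a ≤ N) :
    A a = ∑ t ∈ range (r + 1), (if 2 ^ (s + t) ≤ a ∧ a < 2 ^ (s + t + 1) ∧ a ≤ N then A a else 0) := by
  by_cases h0 : A a = 0
  · rw [h0]
    symm
    exact Finset.sum_eq_zero (fun t _ => by rw [ite_self])
  · obtain ⟨h1, h2⟩ := hA a h0
    have h3 : s ≤ Nat.log 2 a := (Nat.le_log_iff_pow_le (by norm_num) (by omega)).2 h1
    have h4 : Nat.log 2 a ≤ s + r := by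
      have := Nat.log_mono_right (b := 2) h2
      rwa [Nat.log_pow (by norm_num)] at this
    obtain ⟨h5, h6⟩ := (Nat.log_eq_iff (b := 2) (m := Nat.log 2 a) (n := a) (Or.inr ⟨by norm_num, by omega⟩)).1 rfl
    have h7 : s + (Nat.log 2 a - s) = Nat.log 2 a := by omega
    rw [Finset.sum_eq_single (Nat.log 2 a - s)]
    · rw [if_pos]
      rw [h7]
      exact ⟨h5, h6, haN⟩
    · intro t _ ht
      rw [if_neg]
      rintro ⟨h8, h9, -⟩
      apply ht
      have h10 : Nat.log 2 a = s + t :=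
        (Nat.log_eq_iff (Or.inr ⟨by norm_num, by omega⟩)).2 ⟨h8, h9⟩
      omega
    · intro h
      exact absurd (Finset.mem_range.2 (by omega)) h

theorem t2_nonneg {c η : ℝ} {N L u v r : ℕ} {V : ℝ} (par : Par c η N L u v r V) {p : Seminorm ℝ (ℕ → ℝ)} {X : ℝ}
    (h2 : H2 c η N p X) (huv : u ≤ v + r) : 0 ≤ X := by
  have h := h2 (2 ^ u) 1 par.hc ((pow_le_pow_right₀ (by norm_num) huv).trans par.hv) (le_refl _) (fun _ => 0) (fun _ => 0)
    (fun a => by rw [abs_zero]; exact zero_le_one) (fun a => by rw [abs_zero]; exact zero_le_one)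
    (fun a h => absurd rfl h) (fun a h => absurd rfl h)
  exact (apply_nonneg p _).trans h

/-- PROOF. `∏ i, dy (k i) (G i) = A * E`, `A = ∏ i ∈ S`, `E = ∏ i ∈ Sᶜ` (`Finset.prod_mul_prod_compl`). `A` is supported in `[2 ^ s, 2 ^ (s + r)]`, `s = ∑ S` (`supp`; `S.card ≤ r`); on `1 ≤ m ≤ N` (`Loc.congr`) one has
`(A * E) m = ∑ t ∈ range (r + 1), ∑ l ∈ range L, ∑ x ∈ m.divisorsAntidiagonal, A_t x.1 * E_l x.2`, `A_t a = if 2 ^ (s + t) ≤ a ∧ a < 2 ^ (s + t + 1) ∧ a ≤ N then A a else 0`, `E_l b = if 2 ^ l ≤ b ∧ b < 2 ^ (l + 1) ∧ b ≤ N then E b else 0` (divisors of `m` are in `[1, N]`,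
`N < 2 ^ L`). `|A_t| ≤ (V * V) ^ S.card`, `|E_l| ≤ (V * V) ^ (Sᶜ).card` (`bound`, `bd_dy`): divide by these constants (`p` homogeneous) and apply `H2` with `K = 2 ^ (s + t)` (`N ^ c ≤ 2 ^ u ≤ K ≤ 2 ^ (v + r) ≤ N ^ (1 / 2 - η)`), `M = 2 ^ l`. Total
`(r + 1) L (V * V) ^ (card ι) X ≤ V ^ (2 r + 2) X`; `0 ≤ X` since `H2` holds for `α = β = 0`. (`map_sum_le` for seminorms: `Seminorm` is subadditive, induction, or `map_sum_le_sum`.) -/
theorem type2 {ι : Type} [Fintype ι] [DecidableEq ι] {c η : ℝ} {N L u v r : ℕ} {V : ℝ} (par : Par c η N L u v r V) (hr : Fintype.card ι ≤ r) (p : Seminorm ℝ (ℕ → ℝ)) (hp : Loc N p)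
    {X : ℝ} (h2 : H2 c η N p X) (k : ι → ℕ) (G : ι → ArithmeticFunction ℝ) (hG : ∀ i, ∀ n, 1 ≤ n → n ≤ N → |G i n| ≤ V)
    (S : Finset ι) (hS1 : u ≤ ∑ i ∈ S, k i) (hS2 : ∑ i ∈ S, k i ≤ v) : p (fun m => (∏ i, dy (k i) (G i)) m) ≤ V ^ (2 * r + 2) * X := by
  have hX : 0 ≤ X := t2_nonneg par h2 (by omega)
  have hV0 : 0 < V := lt_of_lt_of_le zero_lt_one par.hV
  obtain ⟨s, hs⟩ : ∃ s, s = ∑ i ∈ S, k i := ⟨_, rfl⟩
  obtain ⟨A, hA⟩ : ∃ A : ArithmeticFunction ℝ, A = ∏ i ∈ S, dy (k i) (G i) := ⟨_, rfl⟩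
  obtain ⟨E, hE⟩ : ∃ E : ArithmeticFunction ℝ, E = ∏ i ∈ Sᶜ, dy (k i) (G i) := ⟨_, rfl⟩
  have hprod : ∏ i, dy (k i) (G i) = A * E := by
    rw [hA, hE, Finset.prod_mul_prod_compl]
  have hScard : S.card ≤ r := (Finset.card_le_univ S).trans hr
  have hsupp : ∀ a, A a ≠ 0 → 2 ^ s ≤ a ∧ a ≤ 2 ^ (s + r) := by
    intro a ha
    rw [hA] at ha
    obtain ⟨h3, h4⟩ := supp S k G ha
    rw [← hs] at h3 h4
    exact ⟨h3, h4.trans (Nat.pow_le_pow_right (by norm_num) (by omega))⟩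
  obtain ⟨C1, hC1⟩ : ∃ C1 : ℝ, C1 = (V * V) ^ S.card := ⟨_, rfl⟩
  obtain ⟨C2, hC2⟩ : ∃ C2 : ℝ, C2 = (V * V) ^ (Sᶜ).card := ⟨_, rfl⟩
  have hC1p : 0 < C1 := by rw [hC1]; positivity
  have hC2p : 0 < C2 := by rw [hC2]; positivity
  have hAb : ∀ n, 1 ≤ n → n ≤ N → |A n| ≤ C1 := by
    intro n h3 h4
    rw [hA, hC1]
    exact bound S _ par.hV par.hV (fun i _ m h5 h6 => bd_dy _ _ (hG i m h5 h6)) par.hVd h3 h4
  have hEb : ∀ n, 1 ≤ n → n ≤ N → |E n| ≤ C2 := by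
    intro n h3 h4
    rw [hE, hC2]
    exact bound Sᶜ _ par.hV par.hV (fun i _ m h5 h6 => bd_dy _ _ (hG i m h5 h6)) par.hVd h3 h4
  let α : ℕ → ℕ → ℝ := fun t a => if 2 ^ (s + t) ≤ a ∧ a < 2 ^ (s + t + 1) ∧ a ≤ N then A a else 0
  let β : ℕ → ℕ → ℝ := fun l a => if 2 ^ l ≤ a ∧ a < 2 ^ (l + 1) ∧ a ≤ N then E a else 0
  have key : p (fun m => (∏ i, dy (k i) (G i)) m) =
      p (∑ t ∈ range (r + 1), ∑ l ∈ range L, fun m => ∑ x ∈ m.divisorsAntidiagonal, α t x.1 * β l x.2) := by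
    apply hp.congr
    intro m hm hmN
    rw [hprod, ArithmeticFunction.mul_apply, Finset.sum_apply]
    have e1 : ∀ x ∈ m.divisorsAntidiagonal, A x.1 * E x.2 =
        ∑ t ∈ range (r + 1), ∑ l ∈ range L, α t x.1 * β l x.2 := by
      intro x hx
      obtain ⟨h3, h4⟩ := Nat.mem_divisorsAntidiagonal.1 hx
      have h5 : 1 ≤ x.1 := by
        rcases Nat.eq_zero_or_pos x.1 with h | h
        · rw [h, zero_mul] at h3
          omega
        · exact h
      have h6 : 1 ≤ x.2 := by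
        rcases Nat.eq_zero_or_pos x.2 with h | h
        · rw [h, mul_zero] at h3
          omega
        · exact h
      have h7 : x.1 ≤ N := by nlinarith
      have h8 : x.2 ≤ N := by nlinarith
      have h9 : A x.1 = ∑ t ∈ range (r + 1), α t x.1 := t2_part (fun a => A a) hsupp h5 h7
      have hL1 : 1 ≤ L := by
        rcases Nat.eq_zero_or_pos L with h | h
        · have := par.hL
          rw [h] at this
          have h10 := par.hN
          omega
        · exact h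
      have h10 : E x.2 = ∑ l ∈ range L, β l x.2 := by
        obtain ⟨h13, h14⟩ := (Nat.log_eq_iff (b := 2) (m := Nat.log 2 x.2) (n := x.2)
          (Or.inr ⟨by norm_num, by omega⟩)).1 rfl
        have h15 : Nat.log 2 x.2 < L := by
          rw [Nat.log_lt_iff_lt_pow (by norm_num) (by omega)]
          exact lt_of_le_of_lt h8 par.hL
        rw [Finset.sum_eq_single (Nat.log 2 x.2)]
        · show E x.2 = if _ then _ else _
          rw [if_pos ⟨h13, h14, h8⟩]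
        · intro t _ ht
          show (if _ then _ else _) = (0 : ℝ)
          rw [if_neg]
          rintro ⟨h16, h17, -⟩
          exact ht ((Nat.log_eq_iff (Or.inr ⟨by norm_num, by omega⟩)).2 ⟨h16, h17⟩).symm
        · intro h
          exact absurd (Finset.mem_range.2 h15) h
      rw [h9, h10, Finset.sum_mul_sum]
    rw [Finset.sum_congr rfl e1, Finset.sum_comm]
    refine Finset.sum_congr rfl (fun t _ => ?_)
    rw [Finset.sum_apply, Finset.sum_comm]
  have hone : ∀ t ∈ range (r + 1), ∀ l ∈ range L,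
      p (fun m => ∑ x ∈ m.divisorsAntidiagonal, α t x.1 * β l x.2) ≤ C1 * C2 * X := by
    intro t ht l _
    have ht' := Finset.mem_range.1 ht
    have h3 := h2 (2 ^ (s + t)) (2 ^ l)
      (par.hc.trans (pow_le_pow_right₀ (by norm_num) (by omega)))
      ((pow_le_pow_right₀ (by norm_num) (by omega)).trans par.hv)
      (one_le_pow₀ (by norm_num)) (fun a => α t a / C1) (fun b => β l b / C2) ?_ ?_ ?_ ?_
    · have e : (fun m : ℕ => ∑ x ∈ m.divisorsAntidiagonal, α t x.1 * β l x.2) =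
          (C1 * C2) • (fun m : ℕ => ∑ x ∈ m.divisorsAntidiagonal, α t x.1 / C1 * (β l x.2 / C2)) := by
        funext m
        rw [Pi.smul_apply, smul_eq_mul, Finset.mul_sum]
        refine Finset.sum_congr rfl (fun x _ => ?_)
        field_simp
      rw [e, map_smul_eq_mul, Real.norm_of_nonneg (mul_pos hC1p hC2p).le]
      exact mul_le_mul_of_nonneg_left h3 (mul_pos hC1p hC2p).le
    · intro a
      rw [abs_div, abs_of_pos hC1p]
      apply div_le_one_of_le₀ _ hC1p.le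
      show |if _ then _ else _| ≤ _
      split_ifs with h
      · exact hAb a ((Nat.one_le_two_pow).trans h.1) h.2.2
      · rw [abs_zero]
        exact hC1p.le
    · intro a
      rw [abs_div, abs_of_pos hC2p]
      apply div_le_one_of_le₀ _ hC2p.le
      show |if _ then _ else _| ≤ _
      split_ifs with h
      · exact hEb a ((Nat.one_le_two_pow).trans h.1) h.2.2
      · rw [abs_zero]
        exact hC2p.le
    · intro a ha
      have h4 : 2 ^ (s + t) ≤ a ∧ a < 2 ^ (s + t + 1) ∧ a ≤ N := by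
        by_contra h5
        apply ha
        show (if _ then _ else _) / C1 = 0
        rw [if_neg h5, zero_div]
      constructor
      · exact_mod_cast h4.1
      · have h5 : (a : ℝ) ≤ 2 ^ (s + t + 1) := by exact_mod_cast h4.2.1.le
        rw [pow_succ] at h5
        linarith
    · intro a ha
      have h4 : 2 ^ l ≤ a ∧ a < 2 ^ (l + 1) ∧ a ≤ N := by
        by_contra h5
        apply ha
        show (if _ then _ else _) / C2 = 0
        rw [if_neg h5, zero_div]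
      constructor
      · exact_mod_cast h4.1
      · have h5 : (a : ℝ) ≤ 2 ^ (l + 1) := by exact_mod_cast h4.2.1.le
        rw [pow_succ] at h5
        linarith
  rw [key]
  have hC : C1 * C2 ≤ V ^ (2 * r) := by
    rw [hC1, hC2, ← pow_add, Finset.card_add_card_compl, ← pow_two, ← pow_mul]
    exact pow_le_pow_right₀ par.hV (by omega)
  calc p (∑ t ∈ range (r + 1), ∑ l ∈ range L, fun m => ∑ x ∈ m.divisorsAntidiagonal, α t x.1 * β l x.2)
      ≤ ∑ t ∈ range (r + 1), p (∑ l ∈ range L, fun m => ∑ x ∈ m.divisorsAntidiagonal, α t x.1 * β l x.2) :=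
        Finset.le_sum_of_subadditive p (_root_.map_zero p).le (map_add_le_add p) _ _
    _ ≤ ∑ t ∈ range (r + 1), ∑ l ∈ range L, p (fun m => ∑ x ∈ m.divisorsAntidiagonal, α t x.1 * β l x.2) :=
        Finset.sum_le_sum (fun t _ => Finset.le_sum_of_subadditive p (_root_.map_zero p).le (map_add_le_add p) _ _)
    _ ≤ ∑ t ∈ range (r + 1), ∑ l ∈ range L, C1 * C2 * X :=
        Finset.sum_le_sum (fun t ht => Finset.sum_le_sum (fun l hl => hone t ht l hl))
    _ = ((r : ℝ) + 1) * L * (C1 * C2 * X) := by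
        rw [Finset.sum_const, Finset.sum_const, Finset.card_range, Finset.card_range, nsmul_eq_mul, nsmul_eq_mul]
        push_cast
        ring
    _ ≤ V * V * (V ^ (2 * r) * X) := by
        have h5 : (L : ℝ) ≤ V := by linarith [par.hVL]
        have h6 := par.hVr
        have h7 : C1 * C2 * X ≤ V ^ (2 * r) * X := mul_le_mul_of_nonneg_right hC hX
        refine mul_le_mul (mul_le_mul h6 h5 (Nat.cast_nonneg _) hV0.le) h7 ?_ (mul_pos hV0 hV0).le
        exact mul_nonneg (mul_pos hC1p hC2p).le hX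
    _ = V ^ (2 * r + 2) * X := by ring

end Pool.Agent.Lib.H81A
end
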