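import Mathlib

/-! Merged copies (to shorten the build) of Lib.HLA.W10B, Lib.HLA.Y3B, Lib.PNT.Fejer, Lib.PNT.WienerIkehara, Lib.PNT.Dirichlet, Lib.PNT.PNT. -/

-- from Lib.HLA.W10B
section

/-!
# LOGA, chunk W10B (S/M, only Mathlib): a chain of blocks
-/

open Finset

namespace Pool.Agent.HLA

theorem w10b_cheb {ι : Type} (S : Finset ι) (f : ι → ℝ) (v : ℝ) (hv : 0 < v)
    (h : ∑ x ∈ S, (f x - 1) ^ 2 ≤ S.card * v ^ 4) :
    ((S.filter fun x => v < |f x - 1|).card : ℝ) ≤ S.card * v ^ 2 := by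
  have h1 : ((S.filter fun x => v < |f x - 1|).card : ℝ) * v ^ 2 ≤ ∑ x ∈ S, (f x - 1) ^ 2 := by
    calc ((S.filter fun x => v < |f x - 1|).card : ℝ) * v ^ 2
        = ∑ _x ∈ S.filter (fun x => v < |f x - 1|), v ^ 2 := by
          rw [Finset.sum_const, nsmul_eq_mul]
      _ ≤ ∑ x ∈ S.filter (fun x => v < |f x - 1|), (f x - 1) ^ 2 := by
          apply Finset.sum_le_sum
          intro x hx
          have hx2 := (Finset.mem_filter.mp hx).2
          rw [← sq_abs (f x - 1)]
          exact pow_le_pow_left₀ hv.le hx2.le 2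
      _ ≤ ∑ x ∈ S, (f x - 1) ^ 2 := by
          apply Finset.sum_le_sum_of_subset_of_nonneg (Finset.filter_subset _ _)
          intro x _ _
          exact sq_nonneg _
  have h2 : ((S.filter fun x => v < |f x - 1|).card : ℝ) * v ^ 2 ≤ (S.card * v ^ 2) * v ^ 2 := by
    calc ((S.filter fun x => v < |f x - 1|).card : ℝ) * v ^ 2 ≤ S.card * v ^ 4 := h1.trans h
      _ = (S.card * v ^ 2) * v ^ 2 := by ring
  exact le_of_mul_le_mul_right h2 (by positivity)

theorem w10b_u (c : ℝ) (hc : 0 < c) (z0 : ℕ) (hz1 : 2 ≤ z0)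
    (hz0 : (4 : ℝ) ≤ (z0 : ℝ) ^ (c / 4)) (z : ℕ) (hz : z0 ≤ z) :
    0 < (z : ℝ) ^ (-(c / 4)) ∧ (z : ℝ) ^ (-(c / 4)) ≤ 1 / 4 ∧
      (z : ℝ) ^ (-c) = ((z : ℝ) ^ (-(c / 4))) ^ 4 ∧
      (((z ^ 2 : ℕ) : ℝ)) ^ (-(c / 4)) = ((z : ℝ) ^ (-(c / 4))) ^ 2 := by
  have hzpos : (0 : ℝ) < (z : ℝ) := by
    have : 0 < z := by omega
    exact_mod_cast this
  refine ⟨Real.rpow_pos_of_pos hzpos _, ?_, ?_, ?_⟩
  · rw [Real.rpow_neg hzpos.le]
    have h1 : (4 : ℝ) ≤ (z : ℝ) ^ (c / 4) := by
      refine hz0.trans ?_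
      apply Real.rpow_le_rpow (by positivity) _ (by positivity)
      exact_mod_cast hz
    rw [one_div]
    exact inv_anti₀ (by norm_num) h1
  · rw [← Real.rpow_natCast ((z : ℝ) ^ (-(c / 4))) 4, ← Real.rpow_mul hzpos.le]
    norm_num
  · rw [Nat.cast_pow, ← Real.rpow_natCast (z : ℝ) 2, ← Real.rpow_natCast ((z : ℝ) ^ (-(c / 4))) 2,
      ← Real.rpow_mul hzpos.le, ← Real.rpow_mul hzpos.le, mul_comm]

theorem w10b_main {ι : Type} (S : Finset ι) (R : ℕ → ℕ → ι → ℝ)
    (hmul : ∀ a b m x, a ≤ b → b ≤ m → R a m x = R a b x * R b m x) (c : ℝ) (hc : 0 < c) (z0 : ℕ) (hz1 : 2 ≤ z0)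
    (hz0 : (4 : ℝ) ≤ (z0 : ℝ) ^ (c / 4)) (z' : ℕ)
    (hblock : ∀ a b, z0 ≤ a → a ≤ b → b ≤ a ^ 2 → b ≤ z' → ∑ x ∈ S, (R a b x - 1) ^ 2 ≤ S.card * (a : ℝ) ^ (-c)) :
    ∀ n : ℕ, ∀ z : ℕ, z0 ≤ z → z ≤ z' → z' - z ≤ n →
    ((S.filter fun x => 4 * (z : ℝ) ^ (-(c / 4)) < |R z z' x - 1|).card : ℝ) ≤ 2 * S.card * (z : ℝ) ^ (-(c / 4)) := by
  classical
  have hS : (0 : ℝ) ≤ (S.card : ℝ) := Nat.cast_nonneg _
  intro n
  induction n with
  | zero =>
    intro z hz hzz hn
    have hzE : z' = z := by omega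
    obtain ⟨hu0, hu4, huc, _⟩ := w10b_u c hc z0 hz1 hz0 z hz
    have hb : ∑ x ∈ S, (R z z' x - 1) ^ 2 ≤ S.card * ((z : ℝ) ^ (-(c / 4))) ^ 4 := by
      rw [← huc]
      exact hblock z z' hz hzz (by rw [hzE]; nlinarith) le_rfl
    have h1 := w10b_cheb S (R z z') _ hu0 hb
    generalize (z : ℝ) ^ (-(c / 4)) = u at *
    have h2 : ((S.filter fun x => 4 * u < |R z z' x - 1|).card : ℝ)
        ≤ ((S.filter fun x => u < |R z z' x - 1|).card : ℝ) := by
      apply Nat.cast_le.mpr
      apply Finset.card_le_card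
      intro x hx
      rw [Finset.mem_filter] at hx ⊢
      exact ⟨hx.1, by linarith [hx.2]⟩
    have h3 : (S.card : ℝ) * u ^ 2 ≤ 2 * S.card * u := by
      have : (0 : ℝ) ≤ S.card * (u * (2 - u)) := by
        apply mul_nonneg hS
        apply mul_nonneg hu0.le
        linarith
      nlinarith
    linarith
  | succ n ih =>
    intro z hz hzz hn
    obtain ⟨hu0, hu4, huc, hu2⟩ := w10b_u c hc z0 hz1 hz0 z hz
    by_cases hcase : z' ≤ z ^ 2
    · have hb : ∑ x ∈ S, (R z z' x - 1) ^ 2 ≤ S.card * ((z : ℝ) ^ (-(c / 4))) ^ 4 := by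
        rw [← huc]
        exact hblock z z' hz hzz hcase le_rfl
      have h1 := w10b_cheb S (R z z') _ hu0 hb
      clear ih hu2 huc hb
      generalize (z : ℝ) ^ (-(c / 4)) = u at *
      have h2 : ((S.filter fun x => 4 * u < |R z z' x - 1|).card : ℝ)
          ≤ ((S.filter fun x => u < |R z z' x - 1|).card : ℝ) := by
        apply Nat.cast_le.mpr
        apply Finset.card_le_card
        intro x hx
        rw [Finset.mem_filter] at hx ⊢
        exact ⟨hx.1, by linarith [hx.2]⟩
      have h3 : (S.card : ℝ) * u ^ 2 ≤ 2 * S.card * u := by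
        have : (0 : ℝ) ≤ S.card * (u * (2 - u)) := by
          apply mul_nonneg hS
          apply mul_nonneg hu0.le
          linarith
        nlinarith
      linarith
    · have hlt : z ^ 2 < z' := not_le.mp hcase
      have hzlt : z < z ^ 2 := by nlinarith
      have hb : ∑ x ∈ S, (R z (z ^ 2) x - 1) ^ 2 ≤ S.card * ((z : ℝ) ^ (-(c / 4))) ^ 4 := by
        rw [← huc]
        exact hblock z (z ^ 2) hz hzlt.le le_rfl hlt.le
      have h1 := w10b_cheb S (R z (z ^ 2)) _ hu0 hb
      have h2 := ih (z ^ 2) (hz.trans hzlt.le) hlt.le (by omega)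
      rw [hu2] at h2
      have hm : ∀ x, R z z' x = R z (z ^ 2) x * R (z ^ 2) z' x := fun x =>
        hmul z (z ^ 2) z' x hzlt.le hlt.le
      clear ih hu2 huc hb
      generalize (z : ℝ) ^ (-(c / 4)) = u at *
      have hsub : (S.filter fun x => 4 * u < |R z z' x - 1|) ⊆
          (S.filter fun x => u < |R z (z ^ 2) x - 1|) ∪
          (S.filter fun x => 4 * u ^ 2 < |R (z ^ 2) z' x - 1|) := by
        intro x hx
        rw [Finset.mem_filter] at hx
        rw [Finset.mem_union, Finset.mem_filter, Finset.mem_filter]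
        by_contra hcon
        rw [not_or] at hcon
        have ha : |R z (z ^ 2) x - 1| ≤ u := by
          by_contra h
          exact hcon.1 ⟨hx.1, not_le.mp h⟩
        have hb : |R (z ^ 2) z' x - 1| ≤ 4 * u ^ 2 := by
          by_contra h
          exact hcon.2 ⟨hx.1, not_le.mp h⟩
        have hx2 := hx.2
        rw [hm x] at hx2
        generalize R z (z ^ 2) x = p at *
        generalize R (z ^ 2) z' x = q at *
        have e : p * q - 1 = (p - 1) * (q - 1) + (p - 1) + (q - 1) := by ring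
        have h3 : |p * q - 1| ≤ |p - 1| * |q - 1| + |p - 1| + |q - 1| := by
          rw [e]
          calc |(p - 1) * (q - 1) + (p - 1) + (q - 1)|
              ≤ |(p - 1) * (q - 1) + (p - 1)| + |q - 1| := abs_add_le _ _
            _ ≤ |(p - 1) * (q - 1)| + |p - 1| + |q - 1| := by
                linarith [abs_add_le ((p - 1) * (q - 1)) (p - 1)]
            _ = |p - 1| * |q - 1| + |p - 1| + |q - 1| := by rw [abs_mul]
        have h4 : |p - 1| * |q - 1| ≤ u * (4 * u ^ 2) :=
          mul_le_mul ha hb (abs_nonneg _) hu0.le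
        have h5 : u ^ 2 ≤ u / 4 := by nlinarith
        have h6 : u * (4 * u ^ 2) ≤ u / 4 := by
          have : u * (4 * u ^ 2) = 4 * u * u ^ 2 := by ring
          rw [this]
          have h7 : 4 * u * u ^ 2 ≤ 1 * u ^ 2 := by
            apply mul_le_mul_of_nonneg_right _ (sq_nonneg u)
            linarith
          linarith
        linarith
      have hcard : ((S.filter fun x => 4 * u < |R z z' x - 1|).card : ℝ) ≤
          ((S.filter fun x => u < |R z (z ^ 2) x - 1|).card : ℝ) +
          ((S.filter fun x => 4 * u ^ 2 < |R (z ^ 2) z' x - 1|).card : ℝ) := by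
        have h3 := (Finset.card_le_card hsub).trans (Finset.card_union_le _ _)
        exact_mod_cast h3
      have h3 : (S.card : ℝ) * u ^ 2 * 3 ≤ 2 * S.card * u := by
        have : (0 : ℝ) ≤ S.card * (u * (2 - 3 * u)) := by
          apply mul_nonneg hS
          apply mul_nonneg hu0.le
          linarith
        nlinarith
      linarith

/-- **W10B.** Proof. Put `u = z^(-(c/4)) ≤ 1/4` (`z ≥ z0`). Strong induction on `z'` (for all `z`). If `z' ≤ z²`: Chebyshev: `#{x : z^(-c/4) < |R z z' x - 1|} z^(-c/2) ≤ card z^(-c)`, so at most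
`card z^(-c/2) ≤ card u` elements. If `z² < z'`: `R z z' = R z z² · R z² z'` (`z ≤ z²`); by the first case for `(z, z²)` outside at most `card u²` elements `|R z z² x - 1| ≤ u`; by induction for `(z², z')` [the step
goes from `z` up: use induction on `z' - z`] outside at most `2 card u²` elements (`(z²)^(-c/4) = u²`) `|R z² z' x - 1| ≤ 4 u²`. Then `|R - 1| ≤ (1 + u)(1 + 4 u²) - 1 = u + 4 u² + 4 u³ ≤ 4 u` and `3 u² card ≤ 2 u card`. -/
theorem W10_chain {ι : Type} (S : Finset ι) (R : ℕ → ℕ → ι → ℝ)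
    (hmul : ∀ a b m x, a ≤ b → b ≤ m → R a m x = R a b x * R b m x) (c : ℝ) (hc : 0 < c) (z0 : ℕ) (hz1 : 2 ≤ z0)
    (hz0 : (4 : ℝ) ≤ (z0 : ℝ) ^ (c / 4)) (z' : ℕ)
    (hblock : ∀ a b, z0 ≤ a → a ≤ b → b ≤ a ^ 2 → b ≤ z' → ∑ x ∈ S, (R a b x - 1) ^ 2 ≤ S.card * (a : ℝ) ^ (-c))
    (z : ℕ) (hz : z0 ≤ z) (hzz : z ≤ z') :
    ((S.filter fun x => 4 * (z : ℝ) ^ (-(c / 4)) < |R z z' x - 1|).card : ℝ) ≤ 2 * S.card * (z : ℝ) ^ (-(c / 4)) := by
  exact w10b_main S R hmul c hc z0 hz1 hz0 z' hblock (z' - z) z hz hzz le_rfl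

end Pool.Agent.HLA
end

-- from Lib.HLA.Y3B
section

/-!
# LOGA, chunk Y3B (S/M, only Mathlib): bad sets, numbers
-/

open Finset

namespace Pool.Agent.HLA


open Classical in
/-- **Y3c.** Double counting. -/
theorem Y3_bad {α β : Type} (S : Finset α) (I : Finset β) (E : β → α → Prop) (τ σ : ℝ) (hσ : 0 < σ)
    (h : ∀ b ∈ I, ((S.filter (E b)).card : ℝ) ≤ τ) :
    ((S.filter fun t => σ < ((I.filter fun b => E b t).card : ℝ)).card : ℝ) ≤ I.card * τ / σ := by
  rw [le_div_iff₀ hσ]
  have h1 : ((S.filter fun t => σ < ((I.filter fun b => E b t).card : ℝ)).card : ℝ) * σ ≤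
      ∑ t ∈ S.filter (fun t => σ < ((I.filter fun b => E b t).card : ℝ)),
        ((I.filter fun b => E b t).card : ℝ) := by
    rw [← nsmul_eq_mul]
    exact Finset.card_nsmul_le_sum _ _ _ fun t ht => (Finset.mem_filter.1 ht).2.le
  have h2 : ∑ t ∈ S.filter (fun t => σ < ((I.filter fun b => E b t).card : ℝ)),
        ((I.filter fun b => E b t).card : ℝ) ≤ ∑ t ∈ S, ((I.filter fun b => E b t).card : ℝ) :=
    Finset.sum_le_sum_of_subset_of_nonneg (Finset.filter_subset _ _) fun _ _ _ =>
      Nat.cast_nonneg _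
  have h3 : ∑ t ∈ S, ((I.filter fun b => E b t).card : ℝ) =
      ∑ b ∈ I, ((S.filter (E b)).card : ℝ) := by
    simp only [Finset.card_filter, Nat.cast_sum]
    exact Finset.sum_comm
  have h4 : ∑ b ∈ I, ((S.filter (E b)).card : ℝ) ≤ I.card * τ := by
    rw [← nsmul_eq_mul]
    exact Finset.sum_le_card_nsmul _ _ _ h
  linarith

/-- **Y3d.** The numbers. `T = ∑ cnt_b`, `U = ∑ Z' dens_b`, `W` the number without linear coordinate, `M` its expected value, `L = log Z`, `L' = log Z'`. Proof. `ε ≤ 1/100`. `|T L - Z W| ≤ ε Z W` gives `W ≤ T L/(Z (1 - ε))`; `|T - U| ≤ ε U + Z τ`,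
`|U - Z M/L'| ≤ Z τ`, `L τ ≤ ε M`, `|L - L'| ≤ ε L'` give `|T L - Z M| ≤ 10 ε Z M`; together `|W - M| ≤ 20 ε M`. -/
theorem Y3_num (Z T U W M L L' τ ε : ℝ) (hZ : 0 < Z) (hT : 0 ≤ T) (hU : 0 ≤ U) (hW : 0 ≤ W) (hM : 0 ≤ M) (hL : 1 ≤ L) (hL' : 1 ≤ L')
    (hτ : 0 ≤ τ) (hε : 0 < ε) (hε1 : ε ≤ 1 / 100) (h1 : |T * L - Z * W| ≤ ε * (Z * W)) (h2 : |T - U| ≤ ε * U + Z * τ)
    (h3 : |U - Z * (M / L')| ≤ Z * τ) (h4 : L * τ ≤ ε * M) (h5 : |L - L'| ≤ ε * L') : |W - M| ≤ 20 * ε * M := by
  have hL0 : 0 < L := by linarith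
  have hL0' : 0 < L' := by linarith
  obtain ⟨t, ht⟩ : ∃ t, T = Z * t := ⟨T / Z, by field_simp⟩
  obtain ⟨u, hu⟩ : ∃ u, U = Z * u := ⟨U / Z, by field_simp⟩
  obtain ⟨m, hm⟩ : ∃ m, M = L' * m := ⟨M / L', by field_simp⟩
  have hm0 : 0 ≤ m := by
    rw [hm] at hM
    exact nonneg_of_mul_nonneg_right hM hL0'
  have hmL : M / L' = m := by rw [hm, mul_div_cancel_left₀ _ hL0'.ne']
  have k1 : |t * L - W| ≤ ε * W := by
    have e : T * L - Z * W = Z * (t * L - W) := by rw [ht]; ring
    rw [e, abs_mul, abs_of_pos hZ] at h1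
    refine le_of_mul_le_mul_left (h1.trans (le_of_eq ?_)) hZ
    ring
  have k2 : |t - u| ≤ ε * u + τ := by
    have e : T - U = Z * (t - u) := by rw [ht, hu]; ring
    rw [e, abs_mul, abs_of_pos hZ] at h2
    refine le_of_mul_le_mul_left (h2.trans (le_of_eq ?_)) hZ
    rw [hu]
    ring
  have k3 : |u - m| ≤ τ := by
    have e : U - Z * (M / L') = Z * (u - m) := by rw [hu, hmL]; ring
    rw [e, abs_mul, abs_of_pos hZ] at h3
    exact le_of_mul_le_mul_left h3 hZ
  obtain ⟨a1, a2⟩ := abs_le.1 k1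
  obtain ⟨b1, b2⟩ := abs_le.1 k2
  obtain ⟨c1, c2⟩ := abs_le.1 k3
  obtain ⟨d1, d2⟩ := abs_le.1 h5
  have hu1 : u ≤ m + τ := by linarith
  have hεu : ε * u ≤ ε * (m + τ) := mul_le_mul_of_nonneg_left hu1 hε.le
  have t1 : t - m ≤ ε * (m + τ) + 2 * τ := by linarith
  have t2 : m - t ≤ ε * (m + τ) + 2 * τ := by linarith
  have hLm : L * m ≤ (1 + ε) * M := by
    have h6 : L ≤ (1 + ε) * L' := by linarith
    have h7 := mul_le_mul_of_nonneg_right h6 hm0
    rw [hm]
    linarith
  have hbd : L * (ε * (m + τ) + 2 * τ) ≤ (3 + 2 * ε) * (ε * M) := by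
    have h8 : ε * (L * m) ≤ ε * ((1 + ε) * M) := mul_le_mul_of_nonneg_left hLm hε.le
    have h9 : (2 + ε) * (L * τ) ≤ (2 + ε) * (ε * M) := mul_le_mul_of_nonneg_left h4 (by linarith)
    nlinarith
  have s1 := (mul_le_mul_of_nonneg_left t1 hL0.le).trans hbd
  have s2 := (mul_le_mul_of_nonneg_left t2 hL0.le).trans hbd
  have e1 : L * m - M ≤ ε * M := by
    have h6 := mul_le_mul_of_nonneg_right d2 hm0
    rw [hm]
    linarith
  have e2 : M - L * m ≤ ε * M := by
    have h6 := mul_le_mul_of_nonneg_right d1 hm0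
    rw [hm]
    linarith
  have hεM : 0 ≤ ε * M := mul_nonneg hε.le hM
  have hεεM : ε * (ε * M) ≤ 1 / 100 * (ε * M) := mul_le_mul_of_nonneg_right hε1 hεM
  have hεMM : ε * M ≤ 1 / 100 * M := mul_le_mul_of_nonneg_right hε1 hM
  have hεWW : ε * W ≤ 1 / 100 * W := mul_le_mul_of_nonneg_right hε1 hW
  have f1 : t * L - M ≤ 5 * (ε * M) := by nlinarith
  have f2 : M - t * L ≤ 5 * (ε * M) := by nlinarith
  have hW2 : W ≤ 2 * M := by linarith
  have hεW2 : ε * W ≤ ε * (2 * M) := mul_le_mul_of_nonneg_left hW2 hε.le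
  rw [abs_le]
  constructor
  · nlinarith
  · nlinarith

end Pool.Agent.HLA
end

-- from Lib.PNT.Fejer
section

/-!
# The Fejer kernel and its Fourier transform
-/

open Complex MeasureTheory Filter Topology Set FourierTransform

namespace Pool.Agent.Lib.PNT

/-- The tent function. -/
noncomputable def tent (t : ℝ) : ℝ := max 0 (1 - |t|)

/-- The Fejer kernel, normalised to have integral one. -/
noncomputable def fejer (u : ℝ) : ℝ := (Real.sinc (u / 2)) ^ 2 / (2 * Real.pi)

theorem continuous_tent : Continuous tent := by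
  unfold tent; fun_prop

theorem tent_nonneg (t : ℝ) : 0 ≤ tent t := le_max_left _ _

theorem tent_eq_zero {t : ℝ} (ht : 1 ≤ |t|) : tent t = 0 :=
  max_eq_left (by linarith)

theorem tent_zero : tent 0 = 1 := by simp [tent]

theorem hasCompactSupport_tent : HasCompactSupport tent := by
  refine HasCompactSupport.intro (K := Icc (-1) 1) isCompact_Icc ?_
  intro t ht
  apply tent_eq_zero
  by_contra h
  push Not at h
  exact ht (abs_le.mp h.le)

theorem integrable_tent : Integrable tent :=
  continuous_tent.integrable_of_hasCompactSupport hasCompactSupport_tent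

theorem continuous_fejer : Continuous fejer := by
  unfold fejer
  have := Real.continuous_sinc
  fun_prop

theorem fejer_nonneg (u : ℝ) : 0 ≤ fejer u := by
  unfold fejer
  have := Real.pi_pos
  positivity

theorem fejer_le_one (u : ℝ) : fejer u ≤ 1 := by
  unfold fejer
  have h3 := Real.pi_gt_three
  have h1 : (Real.sinc (u / 2)) ^ 2 ≤ 1 := by
    have := Real.abs_sinc_le_one (u / 2)
    rw [← sq_abs]
    exact pow_le_one₀ (abs_nonneg _) this
  rw [div_le_one (by positivity)]
  linarith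

theorem tent_fourier (u : ℝ) :
    ∫ t : ℝ, (tent t : ℂ) * cexp (-(t * u) * I) = ((Real.sinc (u / 2)) ^ 2 : ℝ) := by
  have h1 : ∫ t : ℝ, (tent t : ℂ) * cexp (-(t * u) * I)
      = ∫ t in (-1 : ℝ)..1, (tent t : ℂ) * cexp (-(t * u) * I) := by
    rw [intervalIntegral.integral_of_le (by norm_num)]
    symm
    apply setIntegral_eq_integral_of_forall_compl_eq_zero
    intro t ht
    have : tent t = 0 := by
      apply tent_eq_zero
      by_contra h
      push Not at h
      rw [abs_lt] at h
      exact ht ⟨h.1, h.2.le⟩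
    simp [this]
  have hc : Continuous fun t : ℝ => (tent t : ℂ) * cexp (-(t * u) * I) := by
    have := continuous_tent
    fun_prop
  have h2 : ∫ t in (-1 : ℝ)..1, (tent t : ℂ) * cexp (-(t * u) * I)
      = (∫ t in (-1 : ℝ)..0, (tent t : ℂ) * cexp (-(t * u) * I))
        + ∫ t in (0 : ℝ)..1, (tent t : ℂ) * cexp (-(t * u) * I) :=
    (intervalIntegral.integral_add_adjacent_intervals (hc.intervalIntegrable _ _)
      (hc.intervalIntegrable _ _)).symm
  have h3 : ∫ t in (-1 : ℝ)..0, (tent t : ℂ) * cexp (-(t * u) * I)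
      = ∫ t in (-1 : ℝ)..0, ((1 + t : ℝ) : ℂ) * cexp (-(t * u) * I) := by
    apply intervalIntegral.integral_congr
    intro t ht
    rw [uIcc_of_le (by norm_num)] at ht
    have : tent t = 1 + t := by
      unfold tent
      rw [abs_of_nonpos ht.2, max_eq_right (by linarith [ht.1])]; ring
    simp only [this]
  have h4 : ∫ t in (0 : ℝ)..1, (tent t : ℂ) * cexp (-(t * u) * I)
      = ∫ t in (0 : ℝ)..1, ((1 - t : ℝ) : ℂ) * cexp (-(t * u) * I) := by
    apply intervalIntegral.integral_congr
    intro t ht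
    rw [uIcc_of_le (by norm_num)] at ht
    have : tent t = 1 - t := by
      unfold tent
      rw [abs_of_nonneg ht.1, max_eq_right (by linarith [ht.2])]
    simp only [this]
  rw [h1, h2, h3, h4]
  rcases eq_or_ne u 0 with rfl | hu
  · simp only [ofReal_zero, mul_zero, neg_zero, zero_mul, Complex.exp_zero, mul_one, zero_div,
      Real.sinc_zero, one_pow, ofReal_one]
    rw [intervalIntegral.integral_ofReal, intervalIntegral.integral_ofReal]
    have e1 : ∫ t in (-1 : ℝ)..0, (1 + t) = 1 / 2 := by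
      rw [intervalIntegral.integral_add (by simp) (by simp)]
      simp; norm_num
    have e2 : ∫ t in (0 : ℝ)..1, (1 - t) = 1 / 2 := by
      rw [intervalIntegral.integral_sub (by simp) (by simp)]
      simp; norm_num
    rw [e1, e2]; norm_num
  · set c : ℂ := -(u * I) with hcdef
    have hc0 : c ≠ 0 := by
      rw [hcdef, neg_ne_zero]
      exact mul_ne_zero (by exact_mod_cast hu) I_ne_zero
    have hexp : ∀ t : ℝ, cexp (-(t * u) * I) = cexp (c * t) := by
      intro t; rw [hcdef]; congr 1; ring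
    have hd : ∀ t : ℝ, HasDerivAt (fun t : ℝ => cexp (c * t)) (c * cexp (c * t)) t := by
      intro t
      have h := ((hasDerivAt_id (t : ℂ)).const_mul c).cexp.comp_ofReal
      simpa [mul_comm] using h
    have hid : ∀ t : ℝ, HasDerivAt (fun t : ℝ => (t : ℂ)) 1 t := fun t =>
      (hasDerivAt_id (t : ℂ)).comp_ofReal
    have e1 : ∫ t in (-1 : ℝ)..0, ((1 + t : ℝ) : ℂ) * cexp (-(t * u) * I)
        = 1 / c - 1 / c ^ 2 + cexp (-c) / c ^ 2 := by
      have hder : ∀ t ∈ uIcc (-1 : ℝ) 0, HasDerivAt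
          (fun t : ℝ => (1 + (t : ℂ)) * cexp (c * t) / c - cexp (c * t) / c ^ 2)
          (((1 + t : ℝ) : ℂ) * cexp (-(t * u) * I)) t := by
        intro t _
        rw [hexp]
        have h := ((((hid t).const_add 1).mul (hd t)).div_const c).sub ((hd t).div_const (c ^ 2))
        convert! h using 1
        push_cast
        field_simp
        ring
      rw [intervalIntegral.integral_eq_sub_of_hasDerivAt hder
        (Continuous.intervalIntegrable (by fun_prop) _ _)]
      simp
    have e2 : ∫ t in (0 : ℝ)..1, ((1 - t : ℝ) : ℂ) * cexp (-(t * u) * I)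
        = cexp c / c ^ 2 - 1 / c - 1 / c ^ 2 := by
      have hder : ∀ t ∈ uIcc (0 : ℝ) 1, HasDerivAt
          (fun t : ℝ => (1 - (t : ℂ)) * cexp (c * t) / c + cexp (c * t) / c ^ 2)
          (((1 - t : ℝ) : ℂ) * cexp (-(t * u) * I)) t := by
        intro t _
        rw [hexp]
        have h := ((((hid t).const_sub 1).mul (hd t)).div_const c).add ((hd t).div_const (c ^ 2))
        convert! h using 1
        push_cast
        field_simp
        ring
      rw [intervalIntegral.integral_eq_sub_of_hasDerivAt hder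
        (Continuous.intervalIntegrable (by fun_prop) _ _)]
      simp
      ring
    rw [e1, e2]
    have hsum : cexp (-c) + cexp c = 2 * (Real.cos u : ℂ) := by
      rw [hcdef, neg_neg]
      rw [ofReal_cos, Complex.cos]
      ring_nf
    have hc2 : c ^ 2 = -((u : ℂ) ^ 2) := by
      rw [hcdef, neg_sq, mul_pow, I_sq]; ring
    have hu' : (u : ℂ) ≠ 0 := by exact_mod_cast hu
    have hs : (Real.sinc (u / 2)) ^ 2 = 2 * (1 - Real.cos u) / u ^ 2 := by
      rw [Real.sinc_of_ne_zero (by simpa using hu), div_pow]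
      have : Real.cos u = 1 - 2 * Real.sin (u / 2) ^ 2 := by
        have h := Real.cos_two_mul (u / 2)
        rw [Real.cos_sq', show 2 * (u / 2) = u by ring] at h
        linarith
      rw [this]
      field_simp
      ring
    have : 1 / c - 1 / c ^ 2 + cexp (-c) / c ^ 2 + (cexp c / c ^ 2 - 1 / c - 1 / c ^ 2)
        = ((cexp (-c) + cexp c) - 2) / c ^ 2 := by ring
    rw [this, hsum, hc2, hs]
    push_cast
    field_simp
    ring

theorem sinc_sq_le (x : ℝ) : (Real.sinc x) ^ 2 ≤ 2 * (1 + x ^ 2)⁻¹ := by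
  have h1 : (Real.sinc x) ^ 2 ≤ 1 := by
    have := Real.abs_sinc_le_one x
    rw [← sq_abs]
    exact pow_le_one₀ (abs_nonneg _) this
  have h2 : x ^ 2 * (Real.sinc x) ^ 2 ≤ 1 := by
    rcases eq_or_ne x 0 with rfl | hx
    · simp
    · rw [Real.sinc_of_ne_zero hx, div_pow]
      have : x ^ 2 * (Real.sin x ^ 2 / x ^ 2) = Real.sin x ^ 2 := by field_simp
      rw [this]
      exact Real.sin_sq_le_one x
  rw [← div_eq_mul_inv, le_div_iff₀ (by positivity)]
  nlinarith

theorem integrable_fejer : Integrable fejer := by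
  have h1 : Integrable fun x : ℝ => (1 + x ^ 2)⁻¹ := integrable_inv_one_add_sq
  have h2 : Integrable fun x : ℝ => (1 + (x / 2) ^ 2)⁻¹ := h1.comp_div (by norm_num)
  refine Integrable.mono' (g := fun x : ℝ => (2 * (1 + (x / 2) ^ 2)⁻¹) / (2 * Real.pi))
    ((h2.const_mul 2).div_const _) continuous_fejer.aestronglyMeasurable ?_
  refine Eventually.of_forall fun x => ?_
  rw [Real.norm_of_nonneg (fejer_nonneg x), fejer]
  exact div_le_div_of_nonneg_right (sinc_sq_le _) (by positivity)

theorem fourier_tent (w : ℝ) : 𝓕 (fun t : ℝ => (tent t : ℂ)) w = ((2 * Real.pi * fejer (2 * Real.pi * w) : ℝ) : ℂ) := by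
  rw [Real.fourier_eq']
  have := tent_fourier (2 * Real.pi * w)
  have hpi := Real.pi_pos
  rw [fejer, mul_div_cancel₀ _ (by positivity), ← this]
  apply integral_congr_ae
  refine Eventually.of_forall fun t => ?_
  simp only [smul_eq_mul]
  rw [mul_comm]
  congr 1
  simp
  ring_nf

theorem integral_fejer : ∫ u, fejer u = 1 := by
  have hpi := Real.pi_pos
  have hF : (𝓕 (fun t : ℝ => (tent t : ℂ)))
      = fun w : ℝ => ((2 * Real.pi * fejer (2 * Real.pi * w) : ℝ) : ℂ) := by
    ext w; exact fourier_tent w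
  have hint : Integrable (𝓕 (fun t : ℝ => (tent t : ℂ))) := by
    rw [hF]
    apply Integrable.ofReal
    exact (integrable_fejer.comp_mul_left' (by positivity : 2 * Real.pi ≠ 0)).const_mul _
  have hinv := Continuous.fourierInv_fourier_eq (f := fun t : ℝ => (tent t : ℂ))
    (by have := continuous_tent; fun_prop) integrable_tent.ofReal hint
  have h0 := congrFun hinv 0
  rw [Real.fourierInv_eq'] at h0
  simp only [inner_zero_right, mul_zero, ofReal_zero, zero_mul, Complex.exp_zero, one_smul,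
    tent_zero, ofReal_one] at h0
  rw [hF] at h0
  beta_reduce at h0
  rw [integral_complex_ofReal] at h0
  have h1 : ∫ w : ℝ, 2 * Real.pi * fejer (2 * Real.pi * w) = 1 := by exact_mod_cast h0
  rw [integral_const_mul, Measure.integral_comp_mul_left] at h1
  rw [abs_of_pos (by positivity), smul_eq_mul, ← mul_assoc, mul_inv_cancel₀ (by positivity),
    one_mul] at h1
  exact h1

/-- Scaled Fejer kernel. -/
noncomputable def fejerS (l u : ℝ) : ℝ := l * fejer (l * u)

/-- Scaled tent. -/
noncomputable def tentS (l t : ℝ) : ℝ := tent (t / l)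

theorem continuous_fejerS (l : ℝ) : Continuous (fejerS l) := by
  unfold fejerS
  have := continuous_fejer
  fun_prop

theorem continuous_tentS (l : ℝ) : Continuous (tentS l) := by
  unfold tentS
  have := continuous_tent
  fun_prop

theorem fejerS_nonneg {l : ℝ} (hl : 0 < l) (u : ℝ) : 0 ≤ fejerS l u :=
  mul_nonneg hl.le (fejer_nonneg _)

theorem fejerS_le {l : ℝ} (hl : 0 < l) (u : ℝ) : fejerS l u ≤ l := by
  unfold fejerS
  have := fejer_le_one (l * u)
  nlinarith

theorem tentS_nonneg (l t : ℝ) : 0 ≤ tentS l t := tent_nonneg _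

theorem tentS_eq_zero {l t : ℝ} (hl : 0 < l) (ht : l ≤ |t|) : tentS l t = 0 := by
  apply tent_eq_zero
  rwa [abs_div, abs_of_pos hl, le_div_iff₀ hl, one_mul]

theorem integrable_tentS {l : ℝ} (hl : 0 < l) : Integrable (tentS l) := by
  unfold tentS
  exact integrable_tent.comp_div hl.ne'

theorem integrable_fejerS {l : ℝ} (hl : 0 < l) : Integrable (fejerS l) := by
  unfold fejerS
  exact (integrable_fejer.comp_mul_left' hl.ne').const_mul _

theorem integral_fejerS {l : ℝ} (hl : 0 < l) : ∫ u, fejerS l u = 1 := by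
  unfold fejerS
  rw [integral_const_mul, Measure.integral_comp_mul_left, integral_fejer, abs_of_pos
    (by positivity), smul_eq_mul, mul_one, mul_inv_cancel₀ hl.ne']

theorem tentS_fourier {l : ℝ} (hl : 0 < l) (u : ℝ) :
    ∫ t : ℝ, (tentS l t : ℂ) * cexp (-(t * u) * I) = ((2 * Real.pi * fejerS l u : ℝ) : ℂ) := by
  have h := tent_fourier (l * u)
  have h2 := Measure.integral_comp_div (fun t : ℝ => (tent t : ℂ) * cexp (-(t * (l * u : ℝ)) * I)) l
  rw [h, abs_of_pos hl] at h2
  have h3 : ∫ t : ℝ, (tentS l t : ℂ) * cexp (-(t * u) * I)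
      = ∫ x : ℝ, (tent (x / l) : ℂ) * cexp (-(((x / l : ℝ) : ℂ) * (l * u : ℝ)) * I) := by
    apply integral_congr_ae
    refine Eventually.of_forall fun t => ?_
    simp only [tentS]
    congr 2
    push_cast
    have : (l : ℂ) ≠ 0 := by exact_mod_cast hl.ne'
    field_simp
  rw [h3, h2, fejerS, fejer]
  have hpi := Real.pi_pos
  rw [real_smul, ← ofReal_mul]
  congr 1
  field_simp

end Pool.Agent.Lib.PNT
end

-- from Lib.PNT.WienerIkehara
section

/-!
# The Wiener-Ikehara theorem, Laplace transform form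
-/

open Complex MeasureTheory Filter Topology Set

namespace Pool.Agent.Lib.PNT

/-- Hypotheses of the Wiener-Ikehara theorem in Laplace form. -/
structure WIData (α : ℝ → ℝ) (A : ℝ) (H : ℂ → ℂ) : Prop where
  mono : MonotoneOn α (Ici 0)
  nonneg : ∀ u, 0 ≤ u → 0 ≤ α u
  int : ∀ σ : ℝ, 1 < σ → IntegrableOn (fun u => α u * Real.exp (-(σ * u))) (Ioi 0)
  cont : ContinuousOn H {s | 1 ≤ s.re}
  lap : ∀ s : ℂ, 1 < s.re →
    ∫ u in Ioi (0 : ℝ), (α u : ℂ) * cexp (-(s * u)) = H s + A / (s - 1)

/-- The damped difference. -/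
noncomputable def wiG (α : ℝ → ℝ) (A δ u : ℝ) : ℝ :=
  (α u * Real.exp (-u) - A) * Real.exp (-(δ * u))

variable {α : ℝ → ℝ} {A : ℝ} {H : ℂ → ℂ}

theorem WIData.integrable_exp {δ : ℝ} (hδ : 0 < δ) :
    IntegrableOn (fun u : ℝ => Real.exp (-(δ * u))) (Ioi 0) := by
  have := integrableOn_exp_mul_Ioi (a := -δ) (by linarith) 0
  refine this.congr_fun (fun u _ => ?_) measurableSet_Ioi
  simp

theorem WIData.integrable_damped (h : WIData α A H) {δ : ℝ} (hδ : 0 < δ) :
    IntegrableOn (fun u : ℝ => α u * Real.exp (-u) * Real.exp (-(δ * u))) (Ioi 0) := by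
  refine (h.int (1 + δ) (by linarith)).congr_fun (fun u _ => ?_) measurableSet_Ioi
  simp only []
  rw [mul_assoc, ← Real.exp_add]
  ring_nf

theorem WIData.integrable_g (h : WIData α A H) {δ : ℝ} (hδ : 0 < δ) :
    IntegrableOn (wiG α A δ) (Ioi 0) := by
  have h1 := h.integrable_damped hδ
  have h2 := (WIData.integrable_exp hδ).const_mul A
  refine (h1.sub h2).congr (Eventually.of_forall fun u => ?_)
  simp only [wiG, Pi.sub_apply]
  ring

theorem WIData.lap' (h : WIData α A H) {δ : ℝ} (hδ : 0 < δ) (t : ℝ) :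
    ∫ u in Ioi (0 : ℝ), (wiG α A δ u : ℂ) * cexp (-(t * u) * I) = H (1 + δ + t * I) := by
  have hs : 1 < (1 + δ + t * I : ℂ).re := by simp [hδ]
  have h1 := h.lap _ hs
  have hre : (-(δ + t * I) : ℂ).re < 0 := by simp [hδ]
  have hint1 : IntegrableOn (fun u : ℝ => (α u : ℂ) * cexp (-((1 + δ + t * I) * u))) (Ioi 0) := by
    have hi := (h.int (1 + δ) (by linarith)).ofReal (𝕜 := ℂ)
    have := hi.mul_bdd (g := fun u : ℝ => cexp (-(t * u) * I)) (c := 1)
      (by fun_prop) (Eventually.of_forall fun u => by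
        rw [show (-(t * u : ℂ) * I) = ((-(t * u) : ℝ) : ℂ) * I by push_cast; ring]
        rw [Complex.norm_exp_ofReal_mul_I])
    refine Integrable.congr this (Eventually.of_forall fun u => ?_)
    simp only [coe_algebraMap]
    push_cast
    rw [mul_assoc, ← Complex.exp_add]
    congr 2
    ring
  have hint2 : IntegrableOn (fun u : ℝ => cexp (-(δ + t * I) * u)) (Ioi 0) :=
    integrableOn_exp_mul_complex_Ioi hre 0
  have h2 := integral_exp_mul_complex_Ioi hre 0
  have h3 : ∫ u in Ioi (0 : ℝ), (wiG α A δ u : ℂ) * cexp (-(t * u) * I)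
      = ∫ u in Ioi (0 : ℝ), ((α u : ℂ) * cexp (-((1 + δ + t * I) * u))
        - A * cexp (-(δ + t * I) * u)) := by
    apply integral_congr_ae
    refine Eventually.of_forall fun u => ?_
    simp only [wiG]
    push_cast
    have e1 : cexp (-((1 + δ + t * I) * u)) = cexp (-(u : ℂ)) * cexp (-(δ * u)) * cexp (-(t * u) * I) := by
      rw [← Complex.exp_add, ← Complex.exp_add]; congr 1; ring
    have e2 : cexp (-(δ + t * I) * u) = cexp (-(δ * u)) * cexp (-(t * u) * I) := by
      rw [← Complex.exp_add]; congr 1; ring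
    rw [e1, e2]
    ring
  rw [h3, integral_sub hint1 (hint2.const_mul _), h1, integral_const_mul, h2]
  have hne : (δ + t * I : ℂ) ≠ 0 := by
    intro h0
    rw [h0] at hre
    simp at hre
  rw [show (1 + δ + t * I - 1 : ℂ) = δ + t * I by ring]
  simp only [ofReal_zero, mul_zero, Complex.exp_zero]
  field_simp
  ring

theorem WIData.fub (h : WIData α A H) {l : ℝ} (hl : 0 < l) {δ : ℝ} (hδ : 0 < δ) (y : ℝ) :
    ∫ t : ℝ, (tentS l t : ℂ) * cexp (t * y * I) * H (1 + δ + t * I)
      = ((∫ u in Ioi (0 : ℝ), wiG α A δ u * (2 * Real.pi * fejerS l (u - y)) : ℝ) : ℂ) := by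
  have hint : Integrable (Function.uncurry fun (t : ℝ) (u : ℝ) =>
      ((tentS l t : ℂ) * (wiG α A δ u : ℂ)) * cexp (-(t * (u - y)) * I))
      ((volume : Measure ℝ).prod (volume.restrict (Ioi (0 : ℝ)))) := by
    have h1 := Integrable.mul_prod ((integrable_tentS hl).ofReal (𝕜 := ℂ))
      ((h.integrable_g hδ).ofReal (𝕜 := ℂ))
    have := h1.mul_bdd (g := fun z : ℝ × ℝ => cexp (-(z.1 * (z.2 - y)) * I)) (c := 1)
      (by fun_prop) (Eventually.of_forall fun z => by
        rw [show (-(z.1 * (z.2 - y) : ℂ) * I) = ((-(z.1 * (z.2 - y)) : ℝ) : ℂ) * I by push_cast; ring]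
        rw [Complex.norm_exp_ofReal_mul_I])
    exact this
  have key := integral_integral_swap hint
  have e1 : ∫ t : ℝ, (tentS l t : ℂ) * cexp (t * y * I) * H (1 + δ + t * I)
      = ∫ t : ℝ, ∫ u in Ioi (0 : ℝ),
        ((tentS l t : ℂ) * (wiG α A δ u : ℂ)) * cexp (-(t * (u - y)) * I) := by
    apply integral_congr_ae
    refine Eventually.of_forall fun t => ?_
    simp only []
    rw [← h.lap' hδ t, ← integral_const_mul]
    apply integral_congr_ae
    refine Eventually.of_forall fun u => ?_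
    simp only []
    have : cexp (-(t * (u - y)) * I) = cexp (t * y * I) * cexp (-(t * u) * I) := by
      rw [← Complex.exp_add]; congr 1; ring
    rw [this]; ring
  have e2 : ∫ u in Ioi (0 : ℝ), ∫ t : ℝ,
        ((tentS l t : ℂ) * (wiG α A δ u : ℂ)) * cexp (-(t * (u - y)) * I)
      = ((∫ u in Ioi (0 : ℝ), wiG α A δ u * (2 * Real.pi * fejerS l (u - y)) : ℝ) : ℂ) := by
    rw [← integral_complex_ofReal]
    apply integral_congr_ae
    refine Eventually.of_forall fun u => ?_
    simp only []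
    rw [ofReal_mul, ← tentS_fourier hl, ← integral_const_mul]
    apply integral_congr_ae
    refine Eventually.of_forall fun t => ?_
    simp only []
    push_cast
    ring
  rw [e1, key, e2]

/-- The smoothed damped function. -/
noncomputable def wiJ (α : ℝ → ℝ) (l δ y : ℝ) : ℝ :=
  ∫ u in Ioi (0 : ℝ), α u * Real.exp (-u) * Real.exp (-(δ * u)) * fejerS l (u - y)

/-- The limit of the smoothed damped function. -/
noncomputable def wiL (A : ℝ) (H : ℂ → ℂ) (l y : ℝ) : ℝ :=
  A * (∫ u in Ioi (0 : ℝ), fejerS l (u - y))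
    + (1 / (2 * Real.pi)) * (∫ t : ℝ, (tentS l t : ℂ) * cexp (t * y * I) * H (1 + t * I)).re

theorem integrable_shift {l : ℝ} (hl : 0 < l) (y : ℝ) :
    Integrable fun u : ℝ => fejerS l (u - y) :=
  (integrable_fejerS hl).comp_sub_right y

theorem WIData.integrable_J (h : WIData α A H) {l : ℝ} (hl : 0 < l) {δ : ℝ} (hδ : 0 < δ) (y : ℝ) :
    IntegrableOn (fun u : ℝ => α u * Real.exp (-u) * Real.exp (-(δ * u)) * fejerS l (u - y))
      (Ioi 0) := by
  refine (h.integrable_damped hδ).mul_bdd (c := l) ?_ (Eventually.of_forall fun u => ?_)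
  · have := continuous_fejerS l
    fun_prop
  · rw [Real.norm_of_nonneg (fejerS_nonneg hl _)]
    exact fejerS_le hl _

theorem WIData.J_eq (h : WIData α A H) {l : ℝ} (hl : 0 < l) {δ : ℝ} (hδ : 0 < δ) (y : ℝ) :
    wiJ α l δ y = A * (∫ u in Ioi (0 : ℝ), Real.exp (-(δ * u)) * fejerS l (u - y))
      + (1 / (2 * Real.pi)) *
        (∫ t : ℝ, (tentS l t : ℂ) * cexp (t * y * I) * H (1 + δ + t * I)).re := by
  have hpi := Real.pi_pos
  rw [h.fub hl hδ y, ofReal_re]
  have h1 := h.integrable_J hl hδ y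
  have h2 : IntegrableOn (fun u : ℝ => Real.exp (-(δ * u)) * fejerS l (u - y)) (Ioi 0) := by
    refine (WIData.integrable_exp hδ).mul_bdd (c := l) ?_ (Eventually.of_forall fun u => ?_)
    · have := continuous_fejerS l
      fun_prop
    · rw [Real.norm_of_nonneg (fejerS_nonneg hl _)]
      exact fejerS_le hl _
  have h3 : ∫ u in Ioi (0 : ℝ), wiG α A δ u * (2 * Real.pi * fejerS l (u - y))
      = 2 * Real.pi * (wiJ α l δ y
        - A * (∫ u in Ioi (0 : ℝ), Real.exp (-(δ * u)) * fejerS l (u - y))) := by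
    unfold wiJ
    rw [← integral_const_mul, ← integral_sub h1 (h2.const_mul A), ← integral_const_mul]
    apply integral_congr_ae
    refine Eventually.of_forall fun u => ?_
    simp only [wiG]
    ring
  rw [h3]
  field_simp
  ring

theorem WIData.tendsto_J (h : WIData α A H) {l : ℝ} (hl : 0 < l) (y : ℝ) :
    Tendsto (fun δ => wiJ α l δ y) (𝓝[>] 0) (𝓝 (wiL A H l y)) := by
  have hpi := Real.pi_pos
  have hA : Tendsto (fun δ : ℝ => ∫ u in Ioi (0 : ℝ), Real.exp (-(δ * u)) * fejerS l (u - y))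
      (𝓝[>] 0) (𝓝 (∫ u in Ioi (0 : ℝ), fejerS l (u - y))) := by
    apply tendsto_integral_filter_of_dominated_convergence (fun u => fejerS l (u - y))
    · refine Eventually.of_forall fun δ => ?_
      have := continuous_fejerS l
      exact Continuous.aestronglyMeasurable (by fun_prop)
    · filter_upwards [self_mem_nhdsWithin] with δ hδ
      filter_upwards [ae_restrict_mem measurableSet_Ioi] with u hu
      have hδ' : 0 < δ := hδ
      have hu' : 0 < u := hu
      rw [norm_mul, Real.norm_of_nonneg (fejerS_nonneg hl _), Real.norm_of_nonneg (Real.exp_pos _).le]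
      have : Real.exp (-(δ * u)) ≤ 1 := by
        rw [Real.exp_le_one_iff]
        have := mul_pos hδ' hu'
        linarith
      exact mul_le_of_le_one_left (fejerS_nonneg hl _) this
    · exact (integrable_shift hl y).integrableOn
    · refine Eventually.of_forall fun u => ?_
      have : Continuous fun δ : ℝ => Real.exp (-(δ * u)) * fejerS l (u - y) := by fun_prop
      have h0 := (this.tendsto 0).mono_left (nhdsWithin_le_nhds (s := Ioi (0 : ℝ)))
      simpa using h0
  have hB : Tendsto (fun δ : ℝ => ∫ t : ℝ, (tentS l t : ℂ) * cexp (t * y * I) * H (1 + δ + t * I))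
      (𝓝[>] 0) (𝓝 (∫ t : ℝ, (tentS l t : ℂ) * cexp (t * y * I) * H (1 + t * I))) := by
    have hcomp : IsCompact (Icc (1 : ℝ) 2 ×ℂ Icc (-l) l) := isCompact_Icc.reProdIm isCompact_Icc
    have hsub : (Icc (1 : ℝ) 2 ×ℂ Icc (-l) l) ⊆ {s : ℂ | 1 ≤ s.re} := by
      intro s hs
      exact (Complex.mem_reProdIm.mp hs).1.1
    obtain ⟨C, hC⟩ := hcomp.exists_bound_of_continuousOn (h.cont.mono hsub)
    have hcont : ∀ δ : ℝ, 0 ≤ δ → Continuous fun t : ℝ => H (1 + δ + t * I) := by
      intro δ hδ
      apply h.cont.comp_continuous (by fun_prop)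
      intro t
      simp [hδ]
    apply tendsto_integral_filter_of_dominated_convergence (fun t => C * tentS l t)
    · filter_upwards [self_mem_nhdsWithin] with δ hδ
      have h1 := hcont δ (le_of_lt hδ)
      have h2 := continuous_tentS l
      refine Continuous.aestronglyMeasurable (Continuous.mul ?_ h1)
      fun_prop
    · have hmem : Ioo (0 : ℝ) 1 ∈ 𝓝[>] (0 : ℝ) := Ioo_mem_nhdsGT one_pos
      filter_upwards [hmem] with δ hδ
      refine Eventually.of_forall fun t => ?_
      rw [norm_mul, norm_mul, show ((t : ℂ) * y * I) = ((t * y : ℝ) : ℂ) * I by push_cast; ring,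
        Complex.norm_exp_ofReal_mul_I, mul_one, Complex.norm_real,
        Real.norm_of_nonneg (tentS_nonneg _ _), mul_comm]
      rcases le_or_gt l |t| with ht | ht
      · rw [tentS_eq_zero hl ht]; simp
      · apply mul_le_mul_of_nonneg_right _ (tentS_nonneg _ _)
        apply hC
        rw [Complex.mem_reProdIm]
        rw [abs_lt] at ht
        simp only [add_re, one_re, ofReal_re, mul_re, I_re, mul_zero, ofReal_im, I_im, mul_one,
          sub_self, add_zero, add_im, one_im, mul_im, zero_add, mem_Icc]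
        exact ⟨⟨by linarith [hδ.1], by linarith [hδ.2]⟩, ht.1.le, ht.2.le⟩
    · exact (integrable_tentS hl).const_mul C
    · refine Eventually.of_forall fun t => ?_
      apply Tendsto.const_mul
      have hc := h.cont (1 + t * I) (by simp)
      refine Tendsto.comp hc ?_
      rw [tendsto_nhdsWithin_iff]
      constructor
      · have : Continuous fun δ : ℝ => (1 + δ + t * I : ℂ) := by fun_prop
        have h0 := (this.tendsto 0).mono_left (nhdsWithin_le_nhds (s := Ioi (0 : ℝ)))
        simpa using h0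
      · filter_upwards [self_mem_nhdsWithin] with δ hδ
        have hδ' : 0 < δ := hδ
        simp [hδ'.le]
  have hsum := (hA.const_mul A).add (((continuous_re.tendsto _).comp hB).const_mul (1 / (2 * Real.pi)))
  refine Tendsto.congr' ?_ hsum
  filter_upwards [self_mem_nhdsWithin] with δ hδ
  rw [h.J_eq hl hδ y]
  rfl

theorem WIData.tendsto_L (_h : WIData α A H) {l : ℝ} (hl : 0 < l) :
    Tendsto (wiL A H l) atTop (𝓝 A) := by
  have hA : Tendsto (fun y : ℝ => ∫ u in Ioi (0 : ℝ), fejerS l (u - y)) atTop (𝓝 1) := by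
    have h1 : ∀ y : ℝ, ∫ u in Ioi (0 : ℝ), fejerS l (u - y) = ∫ v in Ioi (-y), fejerS l v := by
      intro y
      rw [← integral_indicator measurableSet_Ioi, ← integral_indicator measurableSet_Ioi,
        ← integral_sub_right_eq_self (fun v => (Ioi (-y)).indicator (fejerS l) v) y]
      apply integral_congr_ae
      refine Eventually.of_forall fun u => ?_
      simp only [indicator, mem_Ioi]
      by_cases hu : 0 < u
      · rw [if_pos hu, if_pos (by linarith)]
      · rw [if_neg hu, if_neg (by intro h; exact hu (by linarith))]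
    simp_rw [h1]
    have hc : AECover (volume : Measure ℝ) atTop (fun y : ℝ => Ioi (-y)) :=
      aecover_Ioi tendsto_neg_atTop_atBot
    have := hc.integral_tendsto_of_countably_generated (integrable_fejerS hl)
    rwa [integral_fejerS hl] at this
  have hB : Tendsto (fun y : ℝ => ∫ t : ℝ, (tentS l t : ℂ) * cexp (t * y * I) * H (1 + t * I))
      atTop (𝓝 0) := by
    have hRL := Real.tendsto_integral_exp_smul_cocompact
      (fun t : ℝ => (tentS l t : ℂ) * H (1 + t * I))
    have hy : Tendsto (fun y : ℝ => -(y / (2 * Real.pi))) atTop (cocompact ℝ) := by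
      have h1 : Tendsto (fun y : ℝ => -(y / (2 * Real.pi))) atTop atBot :=
        tendsto_neg_atTop_atBot.comp (tendsto_id.atTop_div_const (by positivity))
      exact h1.mono_right atBot_le_cocompact
    refine (hRL.comp hy).congr fun y => ?_
    simp only [Function.comp]
    apply integral_congr_ae
    refine Eventually.of_forall fun t => ?_
    simp only [Real.fourierChar_apply, Circle.smul_def, smul_eq_mul]
    have hpi := Real.pi_pos
    have : ((2 * Real.pi * (-(t * -(y / (2 * Real.pi)))) : ℝ) : ℂ) * I = t * y * I := by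
      push_cast
      have : (Real.pi : ℂ) ≠ 0 := by exact_mod_cast hpi.ne'
      field_simp
    rw [this]
    ring
  have hsum := (hA.const_mul A).add (((continuous_re.tendsto _).comp hB).const_mul (1 / (2 * Real.pi)))
  simp only [zero_re, mul_zero, add_zero, mul_one] at hsum
  exact hsum

/-- Mass of the kernel on `[-η, η]`. -/
noncomputable def wiP (l η : ℝ) : ℝ := ∫ u in (-η)..η, fejerS l u

theorem tendsto_P {η : ℝ} (hη : 0 < η) : Tendsto (fun l => wiP l η) atTop (𝓝 1) := by
  have h1 : ∀ l, wiP l η = ∫ u in (l * (-η))..(l * η), fejer u := by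
    intro l
    unfold wiP fejerS
    rw [intervalIntegral.integral_const_mul, intervalIntegral.mul_integral_comp_mul_left]
  simp_rw [h1]
  rw [← integral_fejer]
  apply intervalIntegral_tendsto_integral integrable_fejer
  · exact tendsto_id.atTop_mul_const_of_neg (by linarith)
  · exact tendsto_id.atTop_mul_const hη

theorem wiP_le_one {l η : ℝ} (hl : 0 < l) (hη : 0 < η) : wiP l η ≤ 1 := by
  unfold wiP
  rw [intervalIntegral.integral_of_le (by linarith), ← integral_fejerS hl]
  exact setIntegral_le_integral (integrable_fejerS hl)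
    (Eventually.of_forall fun u => fejerS_nonneg hl u)

theorem wiP_shift (l η y : ℝ) (hη : 0 < η) :
    ∫ u in Ioc (y - η) (y + η), fejerS l (u - y) = wiP l η := by
  rw [← intervalIntegral.integral_of_le (by linarith), intervalIntegral.integral_comp_sub_right]
  unfold wiP
  congr 1 <;> ring

theorem WIData.upper (h : WIData α A H) {l η y : ℝ} (hl : 0 < l) (hη : 0 < η) (hy : η ≤ y) :
    α (y - η) * Real.exp (-(y + η)) * wiP l η ≤ wiL A H l y := by
  have h0 : 0 ≤ α (y - η) := h.nonneg _ (by linarith)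
  have h1 : ∀ δ > 0, α (y - η) * Real.exp (-(y + η)) * Real.exp (-(δ * (y + η))) * wiP l η
      ≤ wiJ α l δ y := by
    intro δ hδ
    have hint := h.integrable_J hl hδ y
    have hsub : Ioc (y - η) (y + η) ⊆ Ioi 0 := fun u hu => lt_of_le_of_lt (by linarith) hu.1
    have h2 : ∫ u in Ioc (y - η) (y + η),
        α u * Real.exp (-u) * Real.exp (-(δ * u)) * fejerS l (u - y) ≤ wiJ α l δ y := by
      unfold wiJ
      apply setIntegral_mono_set hint
      · filter_upwards [ae_restrict_mem measurableSet_Ioi] with u hu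
        have hu' : (0 : ℝ) < u := hu
        have h3 := h.nonneg u hu'.le
        have h4 := fejerS_nonneg hl (u - y)
        simp only [Pi.zero_apply]
        positivity
      · exact hsub.eventuallyLE
    refine le_trans ?_ h2
    rw [← wiP_shift l η y hη, ← integral_const_mul]
    apply setIntegral_mono_on ((integrable_shift hl y).integrableOn.const_mul _)
      (hint.mono_set hsub) measurableSet_Ioc
    intro u hu
    have hu0 : 0 < u := hsub hu
    apply mul_le_mul_of_nonneg_right _ (fejerS_nonneg hl _)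
    have hm : α (y - η) ≤ α u := h.mono (by simp only [mem_Ici]; linarith) hu0.le hu.1.le
    have he : Real.exp (-(y + η)) ≤ Real.exp (-u) := Real.exp_le_exp.mpr (by linarith [hu.2])
    have he2 : Real.exp (-(δ * (y + η))) ≤ Real.exp (-(δ * u)) := by
      apply Real.exp_le_exp.mpr
      have := mul_le_mul_of_nonneg_left hu.2 hδ.le
      linarith
    have h3 := h.nonneg u hu0.le
    gcongr
  have h2 : Tendsto (fun δ : ℝ => α (y - η) * Real.exp (-(y + η)) * Real.exp (-(δ * (y + η)))
      * wiP l η) (𝓝[>] 0) (𝓝 (α (y - η) * Real.exp (-(y + η)) * wiP l η)) := by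
    have : Continuous fun δ : ℝ => α (y - η) * Real.exp (-(y + η)) * Real.exp (-(δ * (y + η)))
      * wiP l η := by fun_prop
    have h0 := (this.tendsto 0).mono_left (nhdsWithin_le_nhds (s := Ioi (0 : ℝ)))
    simpa using h0
  refine le_of_tendsto_of_tendsto h2 (h.tendsto_J hl y) ?_
  filter_upwards [self_mem_nhdsWithin] with δ hδ
  exact h1 δ hδ

theorem WIData.lower (h : WIData α A H) {l η y M : ℝ} (hl : 0 < l) (hη : 0 < η) (hy : η ≤ y)
    (hM : ∀ u, 0 ≤ u → α u * Real.exp (-u) ≤ M) :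
    wiL A H l y ≤ α (y + η) * Real.exp (-(y - η)) * wiP l η + M * (1 - wiP l η) := by
  have h0 : 0 ≤ α (y + η) := h.nonneg _ (by linarith)
  have hM0 : 0 ≤ M := le_trans (mul_nonneg (h.nonneg 0 le_rfl) (Real.exp_pos _).le) (hM 0 le_rfl)
  set c : ℝ := α (y + η) * Real.exp (-(y - η)) with hc
  have hc0 : 0 ≤ c := mul_nonneg h0 (Real.exp_pos _).le
  have h1 : ∀ δ > 0, wiJ α l δ y ≤ c * wiP l η + M * (1 - wiP l η) := by
    intro δ hδ
    have hint := h.integrable_J hl hδ y
    set Bd : ℝ → ℝ := fun u => M * fejerS l (u - y)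
      + (Ioc (y - η) (y + η)).indicator (fun u => (c - M) * fejerS l (u - y)) u with hBd
    have hi1 : Integrable fun u => M * fejerS l (u - y) := (integrable_shift hl y).const_mul M
    have hi2 : Integrable ((Ioc (y - η) (y + η)).indicator
        (fun u => (c - M) * fejerS l (u - y))) :=
      ((integrable_shift hl y).const_mul _).indicator measurableSet_Ioc
    have hBdi : Integrable Bd := hi1.add hi2
    have hBd_eq : ∀ u, Bd u = (if u ∈ Ioc (y - η) (y + η) then c else M) * fejerS l (u - y) := by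
      intro u
      simp only [hBd, indicator]
      split_ifs
      · ring
      · ring
    have hBd0 : ∀ u, 0 ≤ Bd u := by
      intro u
      rw [hBd_eq]
      apply mul_nonneg _ (fejerS_nonneg hl _)
      split_ifs
      · exact hc0
      · exact hM0
    have h2 : wiJ α l δ y ≤ ∫ u in Ioi (0 : ℝ), Bd u := by
      unfold wiJ
      apply setIntegral_mono_on hint hBdi.integrableOn measurableSet_Ioi
      intro u hu
      have hu0 : (0 : ℝ) < u := hu
      have h3 := h.nonneg u hu0.le
      rw [hBd_eq]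
      apply mul_le_mul_of_nonneg_right _ (fejerS_nonneg hl _)
      have he : Real.exp (-(δ * u)) ≤ 1 := by
        rw [Real.exp_le_one_iff]
        have := mul_pos hδ hu0
        linarith
      have hle : α u * Real.exp (-u) * Real.exp (-(δ * u)) ≤ α u * Real.exp (-u) :=
        mul_le_of_le_one_right (by positivity) he
      refine hle.trans ?_
      split_ifs with hu1
      · rw [hc]
        have hm : α u ≤ α (y + η) := h.mono hu0.le (by simp only [mem_Ici]; linarith) hu1.2
        have he : Real.exp (-u) ≤ Real.exp (-(y - η)) := Real.exp_le_exp.mpr (by linarith [hu1.1])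
        gcongr
      · exact hM u hu0.le
    have h3 : ∫ u in Ioi (0 : ℝ), Bd u ≤ ∫ u, Bd u :=
      setIntegral_le_integral hBdi (Eventually.of_forall hBd0)
    have h4 : ∫ u, Bd u = c * wiP l η + M * (1 - wiP l η) := by
      rw [hBd, integral_add hi1 hi2, integral_indicator measurableSet_Ioc, integral_const_mul,
        integral_const_mul, wiP_shift l η y hη,
        integral_sub_right_eq_self (fun v => fejerS l v) y, integral_fejerS hl]
      ring
    linarith
  refine le_of_tendsto (h.tendsto_J hl y) ?_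
  filter_upwards [self_mem_nhdsWithin] with δ hδ
  exact h1 δ hδ

theorem WIData.A_nonneg (h : WIData α A H) : 0 ≤ A := by
  have hP : ∃ l : ℝ, 0 < l ∧ 0 < wiP l 1 := by
    have h1 := (tendsto_P one_pos).eventually (lt_mem_nhds (show (0 : ℝ) < 1 by norm_num))
    obtain ⟨l, hl, hl2⟩ := (h1.and (eventually_gt_atTop 0)).exists
    exact ⟨l, hl2, hl⟩
  obtain ⟨l, hl, hP⟩ := hP
  refine ge_of_tendsto (h.tendsto_L hl) ?_
  filter_upwards [eventually_ge_atTop (1 : ℝ)] with y hy
  refine le_trans ?_ (h.upper hl one_pos hy)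
  have := h.nonneg (y - 1) (by linarith)
  positivity

theorem WIData.exists_bound (h : WIData α A H) :
    ∃ M, ∀ u, 0 ≤ u → α u * Real.exp (-u) ≤ M := by
  have hP : ∃ l : ℝ, 0 < l ∧ 1 / 2 < wiP l 1 := by
    have h1 := (tendsto_P one_pos).eventually (lt_mem_nhds (show (1 / 2 : ℝ) < 1 by norm_num))
    obtain ⟨l, hl, hl2⟩ := (h1.and (eventually_gt_atTop 0)).exists
    exact ⟨l, hl2, hl⟩
  obtain ⟨l, hl, hP⟩ := hP
  have hL := (h.tendsto_L hl).eventually (gt_mem_nhds (show A < A + 1 by linarith))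
  obtain ⟨Y, hY⟩ := eventually_atTop.mp hL
  set U := max Y 0 with hU
  refine ⟨max (α U) (2 * Real.exp 2 * (A + 1)), fun u hu => ?_⟩
  rcases le_or_gt u U with h1 | h1
  · apply le_max_of_le_left
    have h2 : α u ≤ α U := h.mono hu (by simp [hU]) h1
    have h3 : Real.exp (-u) ≤ 1 := by rw [Real.exp_le_one_iff]; linarith
    calc α u * Real.exp (-u) ≤ α u := mul_le_of_le_one_right (h.nonneg u hu) h3
      _ ≤ α U := h2
  · apply le_max_of_le_right
    have hyY : Y ≤ u + 1 := by
      have := le_max_left Y 0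
      linarith
    have h2 := h.upper hl one_pos (y := u + 1) (by linarith)
    have h3 := hY (u + 1) hyY
    rw [show u + 1 - 1 = u by ring, show -(u + 1 + 1) = -u + -2 by ring, Real.exp_add] at h2
    have h4 := h.nonneg u hu
    have h5 : 0 ≤ α u * (Real.exp (-u) * Real.exp (-2)) := by positivity
    have h6 : α u * (Real.exp (-u) * Real.exp (-2)) * (1 / 2) ≤ A + 1 := by
      calc α u * (Real.exp (-u) * Real.exp (-2)) * (1 / 2)
          ≤ α u * (Real.exp (-u) * Real.exp (-2)) * wiP l 1 := by gcongr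
        _ ≤ A + 1 := by linarith
    have h7 : Real.exp 2 * Real.exp (-2) = 1 := by rw [← Real.exp_add]; simp
    calc α u * Real.exp (-u) = 2 * Real.exp 2 * (α u * (Real.exp (-u) * Real.exp (-2)) * (1 / 2)) := by
          linear_combination (-(α u * Real.exp (-u))) * h7
      _ ≤ 2 * Real.exp 2 * (A + 1) := by gcongr

/-- **Wiener-Ikehara theorem**, Laplace transform form. -/
theorem WIData.tendsto (h : WIData α A H) :
    Tendsto (fun u => α u * Real.exp (-u)) atTop (𝓝 A) := by
  have hA := h.A_nonneg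
  obtain ⟨M, hM⟩ := h.exists_bound
  have hM0 : 0 ≤ M := le_trans (mul_nonneg (h.nonneg 0 le_rfl) (Real.exp_pos _).le) (hM 0 le_rfl)
  rw [tendsto_order]
  constructor
  · intro a ha
    have hc : Continuous fun η : ℝ => Real.exp (-(2 * η)) * (A - η - M * η) := by fun_prop
    have h1 : ∀ᶠ η in 𝓝[>] (0 : ℝ), a < Real.exp (-(2 * η)) * (A - η - M * η) := by
      have := (hc.tendsto 0).mono_left (nhdsWithin_le_nhds (s := Ioi (0 : ℝ)))
      simp only [mul_zero, neg_zero, Real.exp_zero, sub_zero, one_mul] at this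
      exact this.eventually (lt_mem_nhds ha)
    obtain ⟨η, hη1, hη2⟩ := (h1.and (Ioo_mem_nhdsGT (show (0 : ℝ) < 1 by norm_num))).exists
    have hP := (tendsto_P hη2.1).eventually (lt_mem_nhds (show 1 - η < 1 by linarith [hη2.1]))
    obtain ⟨l, hPl, hl⟩ := (hP.and (eventually_gt_atTop 0)).exists
    have hL := (h.tendsto_L hl).eventually (lt_mem_nhds (show A - η < A by linarith [hη2.1]))
    obtain ⟨Y, hY⟩ := eventually_atTop.mp hL
    filter_upwards [eventually_ge_atTop (max Y 0 + 2)] with u hu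
    have hY0 := le_max_left Y 0
    have hY1 := le_max_right Y 0
    have h2 := hY (u - η) (by linarith [hη2.2])
    have h3 := h.lower hl hη2.1 (y := u - η) (by linarith [hη2.2]) hM
    rw [show u - η + η = u by ring, show -(u - η - η) = -u + 2 * η by ring, Real.exp_add] at h3
    have hP1 := wiP_le_one hl hη2.1
    have hu0 : 0 ≤ α u := h.nonneg u (by linarith)
    have h4 : α u * (Real.exp (-u) * Real.exp (2 * η)) * wiP l η
        ≤ α u * Real.exp (-u) * Real.exp (2 * η) := by
      rw [← mul_assoc]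
      exact mul_le_of_le_one_right (by positivity) hP1
    have h5 : M * (1 - wiP l η) ≤ M * η := by
      apply mul_le_mul_of_nonneg_left _ hM0
      linarith
    have h6 : A - η - M * η ≤ α u * Real.exp (-u) * Real.exp (2 * η) := by linarith
    have h7 : Real.exp (-(2 * η)) * Real.exp (2 * η) = 1 := by rw [← Real.exp_add]; simp
    calc a < Real.exp (-(2 * η)) * (A - η - M * η) := hη1
      _ ≤ Real.exp (-(2 * η)) * (α u * Real.exp (-u) * Real.exp (2 * η)) := by gcongr
      _ = α u * Real.exp (-u) := by linear_combination (α u * Real.exp (-u)) * h7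
  · intro a ha
    have hc : ContinuousAt (fun η : ℝ => Real.exp (2 * η) * (A + η) / (1 - η)) 0 := by
      apply ContinuousAt.div (by fun_prop) (by fun_prop) (by norm_num)
    have h1 : ∀ᶠ η in 𝓝[>] (0 : ℝ), Real.exp (2 * η) * (A + η) / (1 - η) < a := by
      have := hc.tendsto.mono_left (nhdsWithin_le_nhds (s := Ioi (0 : ℝ)))
      simp only [mul_zero, Real.exp_zero, sub_zero, one_mul, add_zero, div_one] at this
      exact this.eventually (gt_mem_nhds ha)
    obtain ⟨η, hη1, hη2⟩ := (h1.and (Ioo_mem_nhdsGT (show (0 : ℝ) < 1 by norm_num))).exists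
    have hP := (tendsto_P hη2.1).eventually (lt_mem_nhds (show 1 - η < 1 by linarith [hη2.1]))
    obtain ⟨l, hPl, hl⟩ := (hP.and (eventually_gt_atTop 0)).exists
    have hL := (h.tendsto_L hl).eventually (gt_mem_nhds (show A < A + η by linarith [hη2.1]))
    obtain ⟨Y, hY⟩ := eventually_atTop.mp hL
    filter_upwards [eventually_ge_atTop (max Y 0)] with u hu
    have hY0 := le_max_left Y 0
    have hY1 := le_max_right Y 0
    have h2 := hY (u + η) (by linarith [hη2.1])
    have h3 := h.upper hl hη2.1 (y := u + η) (by linarith)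
    rw [show u + η - η = u by ring, show -(u + η + η) = -u + -(2 * η) by ring, Real.exp_add] at h3
    have hu0 : 0 ≤ α u := h.nonneg u (by linarith)
    have h4 : α u * (Real.exp (-u) * Real.exp (-(2 * η))) * (1 - η)
        ≤ α u * (Real.exp (-u) * Real.exp (-(2 * η))) * wiP l η := by
      apply mul_le_mul_of_nonneg_left hPl.le
      positivity
    have h6 : α u * (Real.exp (-u) * Real.exp (-(2 * η))) * (1 - η) ≤ A + η := by linarith
    have h7 : Real.exp (2 * η) * Real.exp (-(2 * η)) = 1 := by rw [← Real.exp_add]; simp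
    have h8 : 0 < 1 - η := by linarith [hη2.2]
    calc α u * Real.exp (-u)
        = Real.exp (2 * η) * (α u * (Real.exp (-u) * Real.exp (-(2 * η))) * (1 - η)) / (1 - η) := by
          rw [eq_div_iff h8.ne']
          linear_combination (-(α u * Real.exp (-u) * (1 - η))) * h7
      _ ≤ Real.exp (2 * η) * (A + η) / (1 - η) := by gcongr
      _ < a := hη1

end Pool.Agent.Lib.PNT
end

-- from Lib.PNT.Dirichlet
section

/-!
# The Wiener-Ikehara theorem for Dirichlet series
-/

open Complex MeasureTheory Filter Topology Set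

namespace Pool.Agent.Lib.PNT

/-- The summatory function. -/
noncomputable def summ (a : ℕ → ℝ) (x : ℝ) : ℝ := ∑ k ∈ Finset.Icc 1 ⌊x⌋₊, a k

theorem summ_mono {a : ℕ → ℝ} (ha : ∀ n, 0 ≤ a n) : Monotone (summ a) := by
  intro x y hxy
  unfold summ
  apply Finset.sum_le_sum_of_subset_of_nonneg
  · exact Finset.Icc_subset_Icc_right (Nat.floor_le_floor hxy)
  · intro i _ _
    exact ha i

theorem summ_nonneg {a : ℕ → ℝ} (ha : ∀ n, 0 ≤ a n) (x : ℝ) : 0 ≤ summ a x :=
  Finset.sum_nonneg fun i _ => ha i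

theorem summ_le_rpow {a : ℕ → ℝ} (ha : ∀ n, 0 ≤ a n) {r : ℝ} (hr : 0 ≤ r)
    (hS : LSeriesSummable (fun n => (a n : ℂ)) r) :
    ∃ C, 0 ≤ C ∧ ∀ x : ℝ, 1 ≤ x → summ a x ≤ C * x ^ r := by
  have h1 : Summable fun n : ℕ => ‖LSeries.term (fun n => (a n : ℂ)) r n‖ := hS.norm
  refine ⟨∑' n : ℕ, ‖LSeries.term (fun n => (a n : ℂ)) r n‖, tsum_nonneg fun n => norm_nonneg _,
    fun x hx => ?_⟩
  have h2 : ∀ k ∈ Finset.Icc 1 ⌊x⌋₊, a k ≤ x ^ r * ‖LSeries.term (fun n => (a n : ℂ)) r k‖ := by
    intro k hk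
    rw [Finset.mem_Icc] at hk
    have hk0 : k ≠ 0 := by omega
    have hkpos : (0 : ℝ) < k := by exact_mod_cast hk.1
    have hkx : (k : ℝ) ≤ x := (Nat.le_floor_iff (by linarith)).mp hk.2
    rw [LSeries.norm_term_eq, if_neg hk0, Complex.norm_real, Real.norm_of_nonneg (ha k), ofReal_re]
    rw [mul_div_assoc', le_div_iff₀ (Real.rpow_pos_of_pos hkpos _), mul_comm]
    exact mul_le_mul_of_nonneg_right (Real.rpow_le_rpow hkpos.le hkx hr) (ha k)
  calc summ a x ≤ ∑ k ∈ Finset.Icc 1 ⌊x⌋₊, x ^ r * ‖LSeries.term (fun n => (a n : ℂ)) r k‖ :=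
        Finset.sum_le_sum h2
    _ = x ^ r * ∑ k ∈ Finset.Icc 1 ⌊x⌋₊, ‖LSeries.term (fun n => (a n : ℂ)) r k‖ := by
        rw [Finset.mul_sum]
    _ ≤ x ^ r * ∑' n : ℕ, ‖LSeries.term (fun n => (a n : ℂ)) r n‖ := by
        apply mul_le_mul_of_nonneg_left _ (by positivity)
        exact h1.sum_le_tsum _ fun i _ => norm_nonneg _
    _ = _ := mul_comm _ _

theorem wiData_of_dirichlet (a : ℕ → ℝ) (ha : ∀ n, 0 ≤ a n) (A : ℝ) (G : ℂ → ℂ)
    (hS : ∀ σ : ℝ, 1 < σ → LSeriesSummable (fun n => (a n : ℂ)) σ)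
    (hG : ContinuousOn G {s | 1 ≤ s.re})
    (hE : ∀ s : ℂ, 1 < s.re → LSeries (fun n => (a n : ℂ)) s = G s + A / (s - 1)) :
    WIData (fun u => summ a (Real.exp u)) A (fun s => (G s - A) / s) where
  mono := by
    intro u _ v _ huv
    exact summ_mono ha (Real.exp_le_exp.mpr huv)
  nonneg := fun u _ => summ_nonneg ha _
  int := by
    intro σ hσ
    obtain ⟨C, hC0, hC⟩ := summ_le_rpow ha (r := (1 + σ) / 2) (by linarith)
      (hS _ (by linarith))
    have hm : Measurable fun u => summ a (Real.exp u) :=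
      Monotone.measurable fun u v huv => summ_mono ha (Real.exp_le_exp.mpr huv)
    refine Integrable.mono' (g := fun u => C * Real.exp (-((σ - 1) / 2) * u))
      ((integrableOn_exp_mul_Ioi (by linarith) 0).const_mul C) ?_ ?_
    · exact Measurable.aestronglyMeasurable (by fun_prop)
    · filter_upwards [ae_restrict_mem measurableSet_Ioi] with u hu
      have hu0 : (0 : ℝ) < u := hu
      rw [Real.norm_of_nonneg (mul_nonneg (summ_nonneg ha _) (Real.exp_pos _).le)]
      have h1 := hC (Real.exp u) (by rw [Real.one_le_exp_iff]; exact hu0.le)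
      rw [← Real.exp_mul] at h1
      calc summ a (Real.exp u) * Real.exp (-(σ * u))
          ≤ C * Real.exp (u * ((1 + σ) / 2)) * Real.exp (-(σ * u)) := by gcongr
        _ = C * Real.exp (-((σ - 1) / 2) * u) := by
            rw [mul_assoc, ← Real.exp_add]; ring_nf
  cont := by
    apply ContinuousOn.div (hG.sub continuousOn_const) continuousOn_id
    intro s hs h0
    have : (1 : ℝ) ≤ s.re := hs
    rw [id] at h0
    rw [h0] at this
    simp at this
    linarith
  lap := by
    intro s hs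
    have hs0 : s ≠ 0 := by
      intro h0; rw [h0] at hs; simp at hs; linarith
    have hs1 : s - 1 ≠ 0 := by
      intro h0
      have : s = 1 := by linear_combination h0
      rw [this] at hs; simp at hs
    obtain ⟨C, hC0, hC⟩ := summ_le_rpow ha (r := (1 + s.re) / 2) (by linarith)
      (hS _ (by linarith))
    have hO : (fun n : ℕ => ∑ k ∈ Finset.Icc 1 n, a k) =O[atTop]
        fun n : ℕ => (n : ℝ) ^ ((1 + s.re) / 2) := by
      apply Asymptotics.IsBigO.of_bound C
      filter_upwards [eventually_ge_atTop 1] with n hn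
      have h1 := hC n (by exact_mod_cast hn)
      unfold summ at h1
      rw [Nat.floor_natCast] at h1
      rw [Real.norm_of_nonneg (Finset.sum_nonneg fun i _ => ha i),
        Real.norm_of_nonneg (by positivity)]
      exact h1
    have h1 := LSeries_eq_mul_integral_of_nonneg a (r := (1 + s.re) / 2) (by linarith)
      (s := s) (by linarith) hO ha
    have h2 := integral_comp_exp_Ioi
      (fun t : ℝ => (∑ k ∈ Finset.Icc 1 ⌊t⌋₊, (a k : ℂ)) * (t : ℂ) ^ (-(s + 1))) 0
    rw [Real.exp_zero] at h2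
    rw [← h2] at h1
    have h3 : ∫ x in Ioi (0 : ℝ), Real.exp x • ((∑ k ∈ Finset.Icc 1 ⌊Real.exp x⌋₊, (a k : ℂ)) *
        ((Real.exp x : ℝ) : ℂ) ^ (-(s + 1)))
        = ∫ u in Ioi (0 : ℝ), ((summ a (Real.exp u) : ℝ) : ℂ) * cexp (-(s * u)) := by
      apply integral_congr_ae
      refine Eventually.of_forall fun u => ?_
      simp only [summ, real_smul]
      push_cast
      have h4 : (cexp u) ^ (-(s + 1)) = cexp (-(s + 1) * u) := by
        rw [← ofReal_exp, Complex.cpow_def_of_ne_zero (by exact_mod_cast (Real.exp_pos u).ne'),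
          ← Complex.ofReal_log (Real.exp_pos u).le, Real.log_exp, mul_comm]
      rw [h4]
      have h5 : cexp (-(s * u)) = cexp u * cexp (-(s + 1) * u) := by
        rw [← Complex.exp_add]; ring_nf
      rw [h5]
      ring
    rw [h3, hE s hs] at h1
    have h6 : ∫ u in Ioi (0 : ℝ), ((summ a (Real.exp u) : ℝ) : ℂ) * cexp (-(s * u))
        = (G s + A / (s - 1)) / s := by
      rw [h1]; field_simp
    rw [h6]
    field_simp
    ring

/-- **Wiener-Ikehara theorem** for Dirichlet series with nonnegative coefficients. -/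
theorem wiener_ikehara (a : ℕ → ℝ) (ha : ∀ n, 0 ≤ a n) (A : ℝ) (G : ℂ → ℂ)
    (hS : ∀ σ : ℝ, 1 < σ → LSeriesSummable (fun n => (a n : ℂ)) σ)
    (hG : ContinuousOn G {s | 1 ≤ s.re})
    (hE : ∀ s : ℂ, 1 < s.re → LSeries (fun n => (a n : ℂ)) s = G s + A / (s - 1)) :
    Tendsto (fun x : ℝ => summ a x / x) atTop (𝓝 A) := by
  have h := (wiData_of_dirichlet a ha A G hS hG hE).tendsto
  refine (h.comp Real.tendsto_log_atTop).congr' ?_
  filter_upwards [eventually_gt_atTop 0] with x hx
  simp only [Function.comp]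
  rw [Real.exp_neg, Real.exp_log hx, div_eq_mul_inv]


end Pool.Agent.Lib.PNT
end

-- from Lib.PNT.PNT
section

/-!
# The prime number theorem, also in arithmetic progressions
-/

open Complex MeasureTheory Filter Topology Set

namespace Pool.Agent.Lib.PNT

/-- Chebyshev's theta function for the primes with property `P`. -/
noncomputable def thetaP (P : ℕ → Prop) [DecidablePred P] (x : ℝ) : ℝ :=
  ∑ p ∈ Finset.Ioc 0 ⌊x⌋₊ with p.Prime ∧ P p, Real.log p

/-- The number of primes up to `x` with property `P`. -/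
noncomputable def piP (P : ℕ → Prop) [DecidablePred P] (x : ℝ) : ℕ :=
  (Finset.filter (fun p => p.Prime ∧ P p) (Finset.Ioc 0 ⌊x⌋₊)).card

variable {P : ℕ → Prop} [DecidablePred P]




theorem thetaP_le (x : ℝ) : thetaP P x ≤ piP P x * Real.log x := by
  unfold thetaP piP
  rw [← nsmul_eq_mul, ← Finset.sum_const]
  apply Finset.sum_le_sum
  intro p hp
  rw [Finset.mem_filter, Finset.mem_Ioc] at hp
  have h0 : 0 < p := hp.1.1
  have hx : (p : ℝ) ≤ x := by
    have h1 : 0 < ⌊x⌋₊ := lt_of_lt_of_le h0 hp.1.2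
    have h2 : 0 ≤ x := by
      by_contra h
      rw [Nat.floor_of_nonpos (by linarith)] at h1
      exact lt_irrefl _ h1
    exact (Nat.le_floor_iff h2).mp hp.1.2
  exact Real.log_le_log (by exact_mod_cast h0) hx

theorem piP_le {x δ : ℝ} (hx : 1 < x) (hδ : δ < 1) :
    (piP P x : ℝ) ≤ x ^ (1 - δ) + thetaP P x / ((1 - δ) * Real.log x) := by
  have hlog : 0 < Real.log x := Real.log_pos hx
  have h1δ : 0 < 1 - δ := by linarith
  have hden : 0 < (1 - δ) * Real.log x := mul_pos h1δ hlog
  have h1 : (piP P x : ℝ) ≤ ∑ p ∈ Finset.Ioc 0 ⌊x⌋₊ with p.Prime ∧ P p,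
      ((if p ≤ ⌊x ^ (1 - δ)⌋₊ then (1 : ℝ) else 0) + Real.log p / ((1 - δ) * Real.log x)) := by
    unfold piP
    rw [Finset.card_eq_sum_ones, Nat.cast_sum]
    apply Finset.sum_le_sum
    intro p hp
    rw [Finset.mem_filter] at hp
    have hp1 : (0 : ℝ) < p := by exact_mod_cast hp.2.1.pos
    have hlp : 0 ≤ Real.log p / ((1 - δ) * Real.log x) :=
      div_nonneg (Real.log_natCast_nonneg p) hden.le
    split_ifs with h
    · push_cast; linarith
    · push Not at h
      have h2 : x ^ (1 - δ) < p := by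
        exact (Nat.floor_lt (by positivity)).mp h
      have h3 : (1 - δ) * Real.log x ≤ Real.log p := by
        rw [← Real.log_rpow (by linarith)]
        exact Real.log_le_log (by positivity) h2.le
      rw [zero_add, Nat.cast_one, le_div_iff₀ hden, one_mul]
      exact h3
  refine h1.trans ?_
  rw [Finset.sum_add_distrib]
  apply add_le_add
  · calc (∑ p ∈ Finset.Ioc 0 ⌊x⌋₊ with p.Prime ∧ P p, if p ≤ ⌊x ^ (1 - δ)⌋₊ then (1 : ℝ) else 0)
        ≤ ∑ p ∈ Finset.Ioc 0 ⌊x⌋₊, if p ≤ ⌊x ^ (1 - δ)⌋₊ then (1 : ℝ) else 0 := by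
          apply Finset.sum_le_sum_of_subset_of_nonneg (Finset.filter_subset _ _)
          intro i _ _
          split_ifs <;> norm_num
      _ = ((Finset.Ioc 0 ⌊x⌋₊).filter (fun p => p ≤ ⌊x ^ (1 - δ)⌋₊)).card := by
          rw [← Finset.sum_filter, Finset.sum_const, nsmul_eq_mul, mul_one]
      _ ≤ (Finset.Ioc 0 ⌊x ^ (1 - δ)⌋₊).card := by
          exact_mod_cast Finset.card_le_card (fun p hp => by
            rw [Finset.mem_filter, Finset.mem_Ioc] at hp
            rw [Finset.mem_Ioc]
            exact ⟨hp.1.1, hp.2⟩)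
      _ = (⌊x ^ (1 - δ)⌋₊ : ℝ) := by simp
      _ ≤ x ^ (1 - δ) := Nat.floor_le (by positivity)
  · rw [thetaP, Finset.sum_div]

theorem tendsto_piP {c : ℝ} (h : Tendsto (fun x : ℝ => thetaP P x / x) atTop (𝓝 c)) :
    Tendsto (fun x : ℝ => (piP P x : ℝ) * Real.log x / x) atTop (𝓝 c) := by
  rw [tendsto_order]
  constructor
  · intro a ha
    filter_upwards [h.eventually (lt_mem_nhds ha), eventually_gt_atTop 0] with x hx hx0
    refine hx.trans_le ?_
    exact div_le_div_of_nonneg_right (thetaP_le x) hx0.le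
  · intro a ha
    have hc : ContinuousAt (fun δ : ℝ => c / (1 - δ)) 0 :=
      ContinuousAt.div (by fun_prop) (by fun_prop) (by norm_num)
    have h1 : ∀ᶠ δ in 𝓝[>] (0 : ℝ), c / (1 - δ) < a := by
      have := hc.tendsto.mono_left (nhdsWithin_le_nhds (s := Ioi (0 : ℝ)))
      simp only [sub_zero, div_one] at this
      exact this.eventually (gt_mem_nhds ha)
    obtain ⟨δ, hδ1, hδ2⟩ := (h1.and (Ioo_mem_nhdsGT (show (0 : ℝ) < 1 by norm_num))).exists
    have h2 : Tendsto (fun x : ℝ => Real.log x / x ^ δ + thetaP P x / x / (1 - δ)) atTop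
        (𝓝 (0 + c / (1 - δ))) :=
      ((isLittleO_log_rpow_atTop hδ2.1).tendsto_div_nhds_zero).add (h.div_const _)
    rw [zero_add] at h2
    filter_upwards [h2.eventually (gt_mem_nhds hδ1), eventually_gt_atTop 1] with x hx hx1
    refine lt_of_le_of_lt ?_ hx
    have hlog : 0 < Real.log x := Real.log_pos hx1
    have hx0 : 0 < x := by linarith
    have h3 := piP_le (P := P) hx1 hδ2.2
    have h1δ : 0 < 1 - δ := by linarith [hδ2.2]
    have h4 : (piP P x : ℝ) * Real.log x / x
        ≤ (x ^ (1 - δ) + thetaP P x / ((1 - δ) * Real.log x)) * Real.log x / x := by gcongr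
    refine h4.trans (le_of_eq ?_)
    rw [Real.rpow_sub hx0, Real.rpow_one]
    have : x ^ δ ≠ 0 := (Real.rpow_pos_of_pos hx0 _).ne'
    field_simp






section AP

variable {q : ℕ} [NeZero q] {a : ZMod q}

open ArithmeticFunction ArithmeticFunction.vonMangoldt

theorem summ_residueClass_tendsto (ha : IsUnit a) :
    Tendsto (fun x : ℝ => summ (residueClass a) x / x) atTop (𝓝 (q.totient : ℝ)⁻¹) := by
  apply wiener_ikehara _ (fun n => residueClass_nonneg a n) _ (LFunctionResidueClassAux a)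
  · intro σ hσ
    apply LSeriesSummable_of_abscissaOfAbsConv_lt_re
    refine (abscissaOfAbsConv_residueClass_le_one a).trans_lt ?_
    rw [ofReal_re]
    exact_mod_cast hσ
  · exact continuousOn_LFunctionResidueClassAux a
  · intro s hs
    have h := eqOn_LFunctionResidueClassAux ha hs
    rw [h]
    push_cast
    ring

theorem summ_residueClass_sub_thetaP (x : ℝ) :
    |summ (residueClass a) x - thetaP (fun p => (p : ZMod q) = a) x|
      ≤ Chebyshev.psi x - Chebyshev.theta x := by
  have h1 : summ (residueClass a) x - thetaP (fun p => (p : ZMod q) = a) x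
      = ∑ n ∈ Finset.Ioc 0 ⌊x⌋₊ with ¬ n.Prime, residueClass a n := by
    unfold summ thetaP
    rw [show Finset.Icc 1 ⌊x⌋₊ = Finset.Ioc 0 ⌊x⌋₊ from rfl,
      ← Finset.sum_filter_add_sum_filter_not (Finset.Ioc 0 ⌊x⌋₊) (fun p => p.Prime)]
    have : ∑ n ∈ Finset.Ioc 0 ⌊x⌋₊ with n.Prime, residueClass a n
        = ∑ p ∈ Finset.filter (fun p : ℕ => p.Prime ∧ (p : ZMod q) = a) (Finset.Ioc 0 ⌊x⌋₊),
          Real.log p := by
      rw [Finset.sum_filter, Finset.sum_filter]
      apply Finset.sum_congr rfl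
      intro p _
      by_cases hp : p.Prime
      · by_cases h2 : (p : ZMod q) = a
        · rw [if_pos hp, if_pos ⟨hp, h2⟩]
          simp only [residueClass]
          rw [Set.indicator_of_mem (by exact h2), vonMangoldt_apply_prime hp]
        · rw [if_pos hp, if_neg (fun h => h2 h.2)]
          simp only [residueClass]
          rw [Set.indicator_of_notMem (by exact h2)]
      · rw [if_neg hp, if_neg (fun h => hp h.1)]
    rw [this]
    ring
  rw [h1, Chebyshev.psi_sub_theta_eq_sum_not_prime, abs_of_nonneg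
    (Finset.sum_nonneg fun n _ => residueClass_nonneg a n)]
  exact Finset.sum_le_sum fun n _ => residueClass_le a n

theorem psi_sub_theta_div_tendsto :
    Tendsto (fun x : ℝ => (Chebyshev.psi x - Chebyshev.theta x) / x) atTop (𝓝 0) := by
  obtain ⟨C, hC⟩ := Chebyshev.psi_sub_theta_le_mul_sqrt
  have h1 : Tendsto (fun x : ℝ => C * (x ^ (1 / 2 : ℝ))⁻¹) atTop (𝓝 (C * 0)) :=
    ((tendsto_rpow_atTop (by norm_num)).inv_tendsto_atTop).const_mul C
  rw [mul_zero] at h1
  refine squeeze_zero' ?_ ?_ h1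
  · filter_upwards [eventually_gt_atTop 0] with x hx
    have := Chebyshev.theta_le_psi x
    exact div_nonneg (by linarith) hx.le
  · filter_upwards [eventually_gt_atTop 0] with x hx
    rw [← Real.sqrt_eq_rpow, div_le_iff₀ hx]
    refine (hC x).trans (le_of_eq ?_)
    have h2 : √x ≠ 0 := (Real.sqrt_pos.mpr hx).ne'
    have h3 : √x * √x = x := Real.mul_self_sqrt hx.le
    field_simp
    linear_combination C * h3

/-- **Prime number theorem in arithmetic progressions**, theta form. -/
theorem thetaAP_tendsto (ha : IsUnit a) :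
    Tendsto (fun x : ℝ => thetaP (fun p => (p : ZMod q) = a) x / x) atTop
      (𝓝 (q.totient : ℝ)⁻¹) := by
  have h1 := summ_residueClass_tendsto ha
  have h2 : Tendsto (fun x : ℝ => (summ (residueClass a) x
      - thetaP (fun p => (p : ZMod q) = a) x) / x) atTop (𝓝 0) := by
    rw [tendsto_zero_iff_abs_tendsto_zero]
    refine squeeze_zero' (Eventually.of_forall fun x => abs_nonneg _) ?_ psi_sub_theta_div_tendsto
    filter_upwards [eventually_gt_atTop 0] with x hx
    simp only [Function.comp]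
    rw [abs_div, abs_of_pos hx]
    exact div_le_div_of_nonneg_right (summ_residueClass_sub_thetaP x) hx.le
  have h3 := h1.sub h2
  rw [sub_zero] at h3
  refine h3.congr fun x => ?_
  ring



end AP

/-- **Prime number theorem**, theta form. -/
theorem theta_tendsto : Tendsto (fun x : ℝ => Chebyshev.theta x / x) atTop (𝓝 1) := by
  have h := thetaAP_tendsto (q := 1) (a := 0) (by rw [isUnit_iff_eq_one]; rfl)
  simp only [Nat.totient_one, Nat.cast_one, inv_one] at h
  refine h.congr fun x => ?_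
  congr 1
  unfold thetaP Chebyshev.theta
  apply Finset.sum_congr _ fun _ _ => rfl
  ext p
  rw [Finset.mem_filter, Finset.mem_filter]
  constructor
  · rintro ⟨h1, h2, _⟩; exact ⟨h1, h2⟩
  · rintro ⟨h1, h2⟩; exact ⟨h1, h2, Subsingleton.elim _ _⟩


theorem piP_true (x : ℝ) : piP (fun _ => True) x = Nat.primeCounting ⌊x⌋₊ := by
  unfold piP
  rw [Nat.primeCounting, Nat.primeCounting', Nat.count_eq_card_filter_range]
  congr 1
  ext p
  rw [Finset.mem_filter, Finset.mem_filter, Finset.mem_Ioc, Finset.mem_range]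
  constructor
  · rintro ⟨h1, h2, _⟩; exact ⟨by omega, h2⟩
  · rintro ⟨h1, h2⟩; exact ⟨⟨h2.pos, by omega⟩, h2, trivial⟩

theorem thetaP_true (x : ℝ) : thetaP (fun _ => True) x = Chebyshev.theta x := by
  unfold thetaP Chebyshev.theta
  apply Finset.sum_congr _ fun _ _ => rfl
  ext p
  rw [Finset.mem_filter, Finset.mem_filter]
  constructor
  · rintro ⟨h1, h2, _⟩; exact ⟨h1, h2⟩
  · rintro ⟨h1, h2⟩; exact ⟨h1, h2, trivial⟩

theorem thetaP_true_tendsto :
    Tendsto (fun x : ℝ => thetaP (fun _ => True) x / x) atTop (𝓝 1) := by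
  simp_rw [thetaP_true]
  exact theta_tendsto

/-- **Prime number theorem**, counting form. -/
theorem primeCounting_tendsto :
    Tendsto (fun x : ℝ => (Nat.primeCounting ⌊x⌋₊ : ℝ) * Real.log x / x) atTop (𝓝 1) := by
  have h := tendsto_piP thetaP_true_tendsto
  simp_rw [piP_true] at h
  exact h

/-- **Prime number theorem**, counting form, along the natural numbers. -/
theorem primeCounting_nat_tendsto :
    Tendsto (fun n : ℕ => (Nat.primeCounting n : ℝ) * Real.log n / n) atTop (𝓝 1) := by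
  have h := primeCounting_tendsto.comp tendsto_natCast_atTop_atTop
  refine h.congr fun n => ?_
  simp



end Pool.Agent.Lib.PNT
end
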