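import Pool.Agent.Lib.H59M.M2.M001

/-! Merged copies (to shorten the build) of Lib.H44W.U1, Lib.H44W.U3, Lib.H44W.U4. -/

-- from Lib.H44W.U1
section
/-!
CHUNK U1 (M). Replacement of g by a dual function (abstract kernel TF).
D(y) := sum_{x in [1,n]} f x * F(x+y) * W(x-y), so TF n F W f g = sum_{y in [1,n]} g y * D y. For y in [1,n]:
|D y| <= sum_{x in [1,n]} |F(x+y)| <= sum_{m in [1,2n]} |F m| <= ka n (x -> x + y injective into Icc 1 (2n)).
g' y := conj(D y)/(ka n) if y in [1,n], else 0: |g'| <= 1. TF n F W f g' = sum_y |D y|^2/(ka n) (real and nonnegative).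
Cauchy-Schwarz: (de n^2)^2 <= |sum g D|^2 <= n * sum |D|^2 (|g| <= 1, card (Icc 1 n) = n). Hence
|TF n F W f g'| >= de^2 n^4/(n * ka n) = (de^2/ka) n^2. By hypothesis hinv there is w, WL l w, with ph * n <= |sum g' w|.
conj w is again WL l (WL_conj: ep -> conj ep, th -> -th, ee_neg), and TF n F W f (conj w) = sum_y conj(w y) D y, whose norm is
|sum_y w y * conj(D y)| = ka n |sum_y g' y * w y| >= ka ph n^2.
-/
namespace Pool.Agent.H44W
open Finset

/-- The dual function. -/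
noncomputable def u1D (n : ℕ) (F W f : ℤ → ℂ) (y : ℤ) : ℂ := ∑ x ∈ Icc (1:ℤ) n, f x * F (x + y) * W (x - y)

theorem u1_TF (n : ℕ) (F W f g : ℤ → ℂ) : TF n F W f g = ∑ y ∈ Icc (1:ℤ) n, g y * u1D n F W f y := by
  rw [TF, Finset.sum_comm]
  refine Finset.sum_congr rfl fun y _ => ?_
  rw [u1D, Finset.mul_sum]
  exact Finset.sum_congr rfl fun x _ => by ring

theorem u1_bd (n : ℕ) (F W f : ℤ → ℂ) (hW : ∀ x, ‖W x‖ ≤ 1) (hf : ∀ x, ‖f x‖ ≤ 1) (K : ℝ)
    (hF : ∑ m ∈ Icc (1:ℤ) (2 * n), ‖F m‖ ≤ K) (y : ℤ) (hy : y ∈ Icc (1:ℤ) n) : ‖u1D n F W f y‖ ≤ K := by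
  have hy' := Finset.mem_Icc.1 hy
  calc ‖u1D n F W f y‖ ≤ ∑ x ∈ Icc (1:ℤ) n, ‖f x * F (x + y) * W (x - y)‖ := norm_sum_le _ _
    _ ≤ ∑ x ∈ Icc (1:ℤ) n, ‖F (x + y)‖ := by
        refine Finset.sum_le_sum fun x _ => ?_
        rw [norm_mul, norm_mul]
        calc ‖f x‖ * ‖F (x + y)‖ * ‖W (x - y)‖ ≤ 1 * ‖F (x + y)‖ * 1 := by
              gcongr
              · exact hf x
              · exact hW _
          _ = ‖F (x + y)‖ := by ring
    _ = ∑ m ∈ (Icc (1:ℤ) n).image (fun x => x + y), ‖F m‖ := by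
        rw [Finset.sum_image]
        intro a _ b _ h
        exact add_right_cancel h
    _ ≤ ∑ m ∈ Icc (1:ℤ) (2 * n), ‖F m‖ := by
        refine Finset.sum_le_sum_of_subset_of_nonneg ?_ fun _ _ _ => norm_nonneg _
        intro m hm
        obtain ⟨x, hx, rfl⟩ := Finset.mem_image.1 hm
        have hx' := Finset.mem_Icc.1 hx
        exact Finset.mem_Icc.2 ⟨by omega, by omega⟩
    _ ≤ K := hF

theorem u1_sq (z : ℂ) : (starRingEnd ℂ) z * z = ((‖z‖ ^ 2 : ℝ) : ℂ) := by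
  rw [mul_comm, Complex.mul_conj, Complex.normSq_eq_norm_sq]

theorem WL_conj (l : ℕ) (w : ℤ → ℂ) (h : WL l w) : WL l (fun y => (starRingEnd ℂ) (w y)) := by
  obtain ⟨r, ep, th, h1, h2⟩ := h
  refine ⟨r, fun k => (starRingEnd ℂ) (ep k), fun k => -th k, fun k => ?_, fun y => ?_⟩
  · rw [Complex.norm_conj]
    exact h1 k
  · show (starRingEnd ℂ) (w y) = (starRingEnd ℂ) (ep ((y - r) / l)) * ee (-th ((y - r) / l) * y)
    rw [h2 y, map_mul, ← ee_neg, neg_mul]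

theorem norm_WL (l : ℕ) (w : ℤ → ℂ) (h : WL l w) (y : ℤ) : ‖w y‖ ≤ 1 := by
  obtain ⟨r, ep, th, h1, h2⟩ := h
  rw [h2 y, norm_mul, norm_ee, mul_one]
  exact h1 _

theorem dual_step (n l : ℕ) (hn : 1 ≤ n) (F W f : ℤ → ℂ) (hW : ∀ x, ‖W x‖ ≤ 1)
    (hf : ∀ x, ‖f x‖ ≤ 1) (ka : ℝ) (hka : 0 < ka)
    (hF : ∑ m ∈ Icc (1:ℤ) (2 * n), ‖F m‖ ≤ ka * n) (de ph : ℝ) (hde : 0 ≤ de)
    (hinv : ∀ g : ℤ → ℂ, (∀ x, ‖g x‖ ≤ 1) → de ^ 2 / ka * (n:ℝ) ^ 2 ≤ ‖TF n F W f g‖ →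
      ∃ w : ℤ → ℂ, WL l w ∧ ph * n ≤ ‖∑ y ∈ Icc (1:ℤ) n, g y * w y‖)
    (g : ℤ → ℂ) (hg : ∀ x, ‖g x‖ ≤ 1) (hT : de * (n:ℝ) ^ 2 ≤ ‖TF n F W f g‖) :
    ∃ w : ℤ → ℂ, WL l w ∧ ka * ph * (n:ℝ) ^ 2 ≤ ‖TF n F W f w‖ := by
  have hn0 : (0:ℝ) < n := by exact_mod_cast hn
  have hK : 0 < ka * n := mul_pos hka hn0
  set D : ℤ → ℂ := u1D n F W f with hD
  have hDb : ∀ y ∈ Icc (1:ℤ) n, ‖D y‖ ≤ ka * n := fun y hy => u1_bd n F W f hW hf _ hF y hy
  set S : ℝ := ∑ y ∈ Icc (1:ℤ) n, ‖D y‖ ^ 2 with hS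
  have hS0 : 0 ≤ S := Finset.sum_nonneg fun _ _ => by positivity
  obtain ⟨g', hg'⟩ : ∃ g' : ℤ → ℂ, ∀ y, g' y = if y ∈ Icc (1:ℤ) n then (starRingEnd ℂ) (D y) / ((ka * n : ℝ) : ℂ) else 0 :=
    ⟨_, fun _ => rfl⟩
  have h1 : ∀ y, ‖g' y‖ ≤ 1 := by
    intro y
    rw [hg' y]
    split_ifs with hy
    · rw [norm_div, Complex.norm_conj, Complex.norm_real, Real.norm_of_nonneg hK.le, div_le_one hK]
      exact hDb y hy
    · rw [norm_zero]
      exact zero_le_one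
  have h2 : TF n F W f g' = ((S / (ka * n) : ℝ) : ℂ) := by
    rw [u1_TF, Complex.ofReal_div, hS, Complex.ofReal_sum, Finset.sum_div]
    refine Finset.sum_congr rfl fun y hy => ?_
    rw [hg' y, if_pos hy, ← hD, div_mul_eq_mul_div, u1_sq]
  have h3 : ‖TF n F W f g'‖ = S / (ka * n) := by
    rw [h2, Complex.norm_real, Real.norm_of_nonneg (div_nonneg hS0 hK.le)]
  have h4 : (de * (n:ℝ) ^ 2) ^ 2 ≤ n * S := by
    have h5 : ‖TF n F W f g‖ ≤ ∑ y ∈ Icc (1:ℤ) n, ‖D y‖ := by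
      rw [u1_TF]
      refine (norm_sum_le _ _).trans (Finset.sum_le_sum fun y _ => ?_)
      rw [norm_mul]
      exact mul_le_of_le_one_left (norm_nonneg _) (hg y)
    have h6 : (∑ y ∈ Icc (1:ℤ) n, ‖D y‖) ^ 2 ≤ ((Icc (1:ℤ) n).card : ℝ) * S := sq_sum_le_card_mul_sum_sq
    have h7 : ((Icc (1:ℤ) n).card : ℝ) = n := by
      rw [Int.card_Icc]
      simp
    rw [h7] at h6
    exact (pow_le_pow_left₀ (by positivity) (hT.trans h5) 2).trans h6
  have h8 : de ^ 2 / ka * (n:ℝ) ^ 2 ≤ ‖TF n F W f g'‖ := by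
    rw [h3, le_div_iff₀ hK]
    have h9 : de ^ 2 / ka * (n:ℝ) ^ 2 * (ka * n) = de ^ 2 * (n:ℝ) ^ 3 := by
      field_simp
    rw [h9]
    have h10 : (n:ℝ) * (de ^ 2 * (n:ℝ) ^ 3) ≤ n * S := by
      calc (n:ℝ) * (de ^ 2 * (n:ℝ) ^ 3) = (de * (n:ℝ) ^ 2) ^ 2 := by ring
        _ ≤ _ := h4
    exact le_of_mul_le_mul_left h10 hn0
  obtain ⟨w, hw, h11⟩ := hinv g' h1 h8
  refine ⟨fun y => (starRingEnd ℂ) (w y), WL_conj l w hw, ?_⟩
  have h12 : TF n F W f (fun y => (starRingEnd ℂ) (w y)) =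
      (starRingEnd ℂ) (((ka * n : ℝ) : ℂ) * ∑ y ∈ Icc (1:ℤ) n, g' y * w y) := by
    rw [u1_TF, map_mul, Complex.conj_ofReal, map_sum, Finset.mul_sum]
    refine Finset.sum_congr rfl fun y hy => ?_
    have h13 : ((ka * n : ℝ) : ℂ) ≠ 0 := Complex.ofReal_ne_zero.2 hK.ne'
    rw [hg' y, if_pos hy, map_mul, map_div₀, Complex.conj_conj, Complex.conj_ofReal, ← hD]
    field_simp
  rw [h12, Complex.norm_conj, norm_mul, Complex.norm_real, Real.norm_of_nonneg hK.le]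
  calc ka * ph * (n:ℝ) ^ 2 = (ka * n) * (ph * n) := by ring
    _ ≤ _ := mul_le_mul_of_nonneg_left h11 hK.le

end Pool.Agent.H44W
end

-- from Lib.H44W.U3
section
/-!
CHUNK U3 (M). One pair of windows.
Let v be fixed. Claim (one_pair_v): for windows J = Ico u1 (u1 + l), I = Ico u2 (u2 + l) (meaning x in J, y in I) and real al, be,
|sum over x in [1,n] cap J, with x - v in [1,n] cap I, of F(2x - v) * ee(al x + be (x - v))| <= l * tau.
Proof: x runs over an interval Ico c (c + r) with 0 <= r <= l (intersection of intervals), m = 2x - v runs over the m in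
Ico (2c - v) (2c + 2r - v) with m = v mod 2 and x + y = m in [2, 2n]. If the x-interval is empty the sum is 0. Otherwise cut the
m-interval to u = 2c - v >= 1 and v' = 2(c + r) - v - 1 <= 2n + 1 (the last m is 2(c+r-1) - v <= 2n): the sum over m in Ico u v' with
m = v mod 2 of F m * ee(al (m+v)/2 + be (m-v)/2) = ee((al-be) v/2) * sum of F m ee((al+be)/2 * m) [m = v mod 2], and the indicator
of m = v mod 2 is (1 + ee((m-v)/2))/2 (ee_half), so the sum is the mean of two sums of the type in hF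
(gamma = (al+be)/2 and gamma = (al+be)/2 + 1/2), each <= l tau, v' - u <= 2 l.
-/
namespace Pool.Agent.H44W
open Finset

theorem u3_term (v m : ℤ) (al be : ℝ) (z : ℂ) :
    (if Even (m - v) then z * ee (al * ((m + v) / 2) + be * ((m - v) / 2)) else 0)
      = (1 / 2) * ee ((al - be) * (v / 2)) * (z * ee ((al + be) / 2 * m))
        + (1 / 2) * (ee ((al - be) * (v / 2)) * ee (-((v:ℝ) / 2))) * (z * ee (((al + be) / 2 + 1 / 2) * m)) := by
  have e1 : ee (((al + be) / 2 + 1 / 2) * m) = ee ((al + be) / 2 * m) * ee ((m:ℝ) / 2) := by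
    rw [← ee_add]
    congr 1
    ring
  have e2 : ee (-((v:ℝ) / 2)) * ee ((m:ℝ) / 2) = if Even (m - v) then 1 else -1 := by
    rw [← ee_half, ← ee_add]
    congr 1
    push_cast
    ring
  have e3 : ee (al * ((m + v) / 2) + be * ((m - v) / 2)) = ee ((al - be) * (v / 2)) * ee ((al + be) / 2 * m) := by
    rw [← ee_add]
    congr 1
    ring
  have e4 : (1 / 2) * (ee ((al - be) * (v / 2)) * ee (-((v:ℝ) / 2))) * (z * (ee ((al + be) / 2 * m) * ee ((m:ℝ) / 2)))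
      = (1 / 2) * ee ((al - be) * (v / 2)) * (z * ee ((al + be) / 2 * m)) * (ee (-((v:ℝ) / 2)) * ee ((m:ℝ) / 2)) := by
    ring
  rw [e1, e4, e2, e3]
  split_ifs
  · ring
  · ring

theorem one_pair_v (n l : ℕ) (F : ℤ → ℂ) (tau : ℝ) (htau : 0 ≤ tau)
    (hF : ∀ u v : ℤ, 1 ≤ u → u ≤ v → v ≤ 2 * n + 1 → v - u ≤ 2 * l → ∀ ga : ℝ,
      ‖∑ m ∈ Ico u v, F m * ee (ga * m)‖ ≤ l * tau)
    (v u1 u2 : ℤ) (al be : ℝ) :
    ‖∑ x ∈ (Icc (1:ℤ) n).filter (fun x => x ∈ Ico u1 (u1 + l) ∧ x - v ∈ Icc (1:ℤ) n ∧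
        x - v ∈ Ico u2 (u2 + l)), F (2 * x - v) * ee (al * x + be * (x - v))‖ ≤ l * tau := by
  have hlt : 0 ≤ (l:ℝ) * tau := mul_nonneg (Nat.cast_nonneg _) htau
  obtain ⟨c, hc⟩ : ∃ c : ℤ, c = max (max 1 u1) (max (v + 1) (v + u2)) := ⟨_, rfl⟩
  obtain ⟨d, hd⟩ : ∃ d : ℤ, d = min (min ((n:ℤ) + 1) (u1 + l)) (min (v + n + 1) (v + u2 + l)) := ⟨_, rfl⟩
  have hcd : (Icc (1:ℤ) n).filter (fun x => x ∈ Ico u1 (u1 + l) ∧ x - v ∈ Icc (1:ℤ) n ∧
        x - v ∈ Ico u2 (u2 + l)) = Ico c d := by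
    ext x
    simp only [Finset.mem_filter, Finset.mem_Icc, Finset.mem_Ico]
    omega
  rw [hcd]
  rcases le_or_gt d c with hle | hgt
  · rw [Finset.Ico_eq_empty (by omega), Finset.sum_empty, norm_zero]
    exact hlt
  have e1 : ∑ x ∈ Ico c d, F (2 * x - v) * ee (al * x + be * (x - v))
      = ∑ m ∈ (Ico (2 * c - v) (2 * d - v - 1)).filter (fun m => Even (m - v)),
          F m * ee (al * ((m + v) / 2) + be * ((m - v) / 2)) := by
    refine Finset.sum_nbij' (fun x => 2 * x - v) (fun m => (m + v) / 2) ?_ ?_ ?_ ?_ ?_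
    · intro x hx
      have h3 := Finset.mem_Ico.1 hx
      refine Finset.mem_filter.2 ⟨Finset.mem_Ico.2 ⟨by omega, by omega⟩, ?_⟩
      exact ⟨x - v, by ring⟩
    · intro m hm
      obtain ⟨h3, k, hk⟩ := Finset.mem_filter.1 hm
      have h4 := Finset.mem_Ico.1 h3
      exact Finset.mem_Ico.2 ⟨by omega, by omega⟩
    · intro x _
      omega
    · intro m hm
      obtain ⟨h3, k, hk⟩ := Finset.mem_filter.1 hm
      omega
    · intro x _
      congr 2
      push_cast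
      ring
  rw [e1, Finset.sum_filter, Finset.sum_congr rfl fun m _ => u3_term v m al be (F m), Finset.sum_add_distrib,
    ← Finset.mul_sum, ← Finset.mul_sum]
  have h5 := hF (2 * c - v) (2 * d - v - 1) (by omega) (by omega) (by omega) (by omega)
  refine (norm_add_le _ _).trans ?_
  rw [norm_mul, norm_mul, norm_mul, norm_mul, norm_mul, norm_ee, norm_ee, norm_div, norm_one, Complex.norm_ofNat]
  have h6 := h5 ((al + be) / 2)
  have h7 := h5 ((al + be) / 2 + 1 / 2)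
  linarith

end Pool.Agent.H44W
end

-- from Lib.H44W.U4
section
/-!
CHUNK U4 (M). The form at two window-linear functions.
w1 y = ep1 (j) ee(th1 j * y), j = (y - r1)/l; w2 y = ep2 (k) ee(th2 k * y), k = (y - r2)/l (floor division by l >= 1).
The sum over x in [1,n], y in [1,n] is split according to j = (x - r1)/l, k = (y - r2)/l and v = x - y:
for given j, k: x in Ico (r1 + j l) (r1 + (j+1) l) and y in Ico (r2 + k l) (r2 + (k+1) l), so v = x - y takes at most 2 l values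
(v lies in Ico (c - l) (c + l), c = r1 + j l - r2 - k l), and for given j, k, v the sum over x is
ep1 j * ep2 k * W v * sum of F (2x - v) ee(th1 j x + th2 k (x - v)) over the set of one_pair_v: norm <= l tau (|W| <= 1, |ep| <= 1).
The number of j (windows meeting [1,n]) is at most n/l + 2 <= 3 n/l (l <= n), the same for k. Total <= (3n/l)^2 * 2l * l tau
= 18 n^2 tau.
Suggestion: image of Icc 1 n under x -> (x - r1)/l is contained in Icc ((1-r1)/l) ((n-r1)/l), whose cardinality is <= n/l + 2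
(Int.ediv facts); use Finset.sum_fiberwise_of_maps_to for (x,y) -> (j,k,v) on the product Icc x Icc, and card of a set of triples
contained in a sigma/product.
-/
namespace Pool.Agent.H44W
open Finset

theorem u4_div (l : ℕ) (hl : 1 ≤ l) (a j : ℤ) : a / (l:ℤ) = j ↔ j * l ≤ a ∧ a < j * l + l := by
  have hl' : (0:ℤ) < l := by exact_mod_cast hl
  constructor
  · rintro rfl
    constructor
    · exact Int.ediv_mul_le a hl'.ne'
    · have := Int.lt_ediv_add_one_mul_self a hl'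
      linarith
  · rintro ⟨h1, h2⟩
    apply le_antisymm
    · have : a / (l:ℤ) < j + 1 := Int.ediv_lt_of_lt_mul hl' (by linarith)
      omega
    · exact Int.le_ediv_of_mul_le hl' h1

theorem u4_card (n l : ℕ) (hl : 1 ≤ l) (hln : l ≤ n) (r : ℤ) :
    ((Icc ((1 - r) / (l:ℤ)) (((n:ℤ) - r) / l)).card : ℝ) ≤ 3 * n / l := by
  have hl' : (0:ℤ) < l := by exact_mod_cast hl
  have hlr : (0:ℝ) < l := by exact_mod_cast hl
  rw [le_div_iff₀ hlr, Int.card_Icc]
  obtain ⟨A, hAd⟩ : ∃ A, A = ((n:ℤ) - r) / l := ⟨_, rfl⟩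
  obtain ⟨B, hBd⟩ : ∃ B, B = (1 - r) / (l:ℤ) := ⟨_, rfl⟩
  rw [← hAd, ← hBd]
  have hA : A * l ≤ n - r := by
    rw [hAd]
    exact Int.ediv_mul_le _ hl'.ne'
  have hB : 1 - r < (B + 1) * l := by
    rw [hBd]
    exact Int.lt_ediv_add_one_mul_self _ hl'
  have hln' : (l:ℤ) ≤ n := by exact_mod_cast hln
  have key : ((A + 1 - B).toNat : ℤ) * l ≤ 3 * n := by
    rcases le_total 0 (A + 1 - B) with h | h
    · rw [Int.toNat_of_nonneg h]
      have e1 : (A + 1 - B) * (l:ℤ) = A * l + l - B * l := by ring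
      have e2 : (B + 1) * (l:ℤ) = B * l + l := by ring
      rw [e1]
      rw [e2] at hB
      linarith
    · rw [Int.toNat_of_nonpos h]
      simp
  exact_mod_cast key

theorem TF_WL (n l : ℕ) (hl : 1 ≤ l) (hln : l ≤ n) (F W : ℤ → ℂ) (hW : ∀ x, ‖W x‖ ≤ 1) (tau : ℝ)
    (htau : 0 ≤ tau)
    (hF : ∀ u v : ℤ, 1 ≤ u → u ≤ v → v ≤ 2 * n + 1 → v - u ≤ 2 * l → ∀ ga : ℝ,
      ‖∑ m ∈ Ico u v, F m * ee (ga * m)‖ ≤ l * tau)
    (w1 w2 : ℤ → ℂ) (h1 : WL l w1) (h2 : WL l w2) :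
    ‖TF n F W w1 w2‖ ≤ 18 * (n:ℝ) ^ 2 * tau := by
  classical
  obtain ⟨r1, ep1, th1, he1, hw1⟩ := h1
  obtain ⟨r2, ep2, th2, he2, hw2⟩ := h2
  have hl' : (0:ℤ) < l := by exact_mod_cast hl
  have hlr : (0:ℝ) < l := by exact_mod_cast hl
  let S : Finset (ℤ × ℤ) := Icc (1:ℤ) n ×ˢ Icc (1:ℤ) n
  let f : ℤ × ℤ → ℂ := fun p => w1 p.1 * w2 p.2 * F (p.1 + p.2) * W (p.1 - p.2)
  let cc : ℤ → ℤ → ℤ := fun j k => (r1 + j * l) - (r2 + k * l)
  let g : ℤ × ℤ → ℤ × ℤ × ℤ := fun p =>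
    ((p.1 - r1) / l, (p.2 - r2) / l, p.1 - p.2 - cc ((p.1 - r1) / l) ((p.2 - r2) / l))
  let J := Icc ((1 - r1) / (l:ℤ)) (((n:ℤ) - r1) / l)
  let K := Icc ((1 - r2) / (l:ℤ)) (((n:ℤ) - r2) / l)
  let T : Finset (ℤ × ℤ × ℤ) := J ×ˢ K ×ˢ Ico (-(l:ℤ)) l
  have hTF : TF n F W w1 w2 = ∑ p ∈ S, f p := by
    unfold TF
    simp only [S, f]
    rw [Finset.sum_product]
  have hmaps : ∀ p ∈ S, g p ∈ T := by
    intro p hp
    rw [Finset.mem_product, mem_Icc, mem_Icc] at hp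
    obtain ⟨⟨a1, a2⟩, b1, b2⟩ := hp
    have e1 := (u4_div l hl (p.1 - r1) _).1 rfl
    have e2 := (u4_div l hl (p.2 - r2) _).1 rfl
    simp only [T, g, J, K, Finset.mem_product, mem_Icc, mem_Ico]
    refine ⟨⟨Int.ediv_le_ediv hl' (by linarith), Int.ediv_le_ediv hl' (by linarith)⟩,
      ⟨Int.ediv_le_ediv hl' (by linarith), Int.ediv_le_ediv hl' (by linarith)⟩, ?_, ?_⟩
    · simp only [cc]
      linarith [e1.1, e1.2, e2.1, e2.2]
    · simp only [cc]
      linarith [e1.1, e1.2, e2.1, e2.2]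
  have hfib : ∀ τ ∈ T, ‖∑ p ∈ S with g p = τ, f p‖ ≤ l * tau := by
    rintro ⟨j, k, u⟩ _
    obtain ⟨v, hv⟩ : ∃ v, v = u + cc j k := ⟨_, rfl⟩
    have hsum : ∑ p ∈ S with g p = (j, k, u), f p = (ep1 j * ep2 k * W v) *
        ∑ x ∈ (Icc (1:ℤ) n).filter (fun x => x ∈ Ico (r1 + j * l) (r1 + j * l + l) ∧
          x - v ∈ Icc (1:ℤ) n ∧ x - v ∈ Ico (r2 + k * l) (r2 + k * l + l)),
          F (2 * x - v) * ee (th1 j * x + th2 k * (x - v)) := by
      rw [Finset.mul_sum]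
      have hkey : ∀ p : ℤ × ℤ, g p = (j, k, u) ↔ ((p.1 - r1) / l = j ∧ (p.2 - r2) / l = k ∧
          p.2 = p.1 - v) := by
        intro p
        simp only [g, Prod.mk.injEq]
        constructor
        · rintro ⟨c1, c2, c3⟩
          refine ⟨c1, c2, ?_⟩
          rw [c1, c2] at c3
          rw [hv]
          linarith
        · rintro ⟨c1, c2, c3⟩
          refine ⟨c1, c2, ?_⟩
          rw [c1, c2, c3, hv]
          ring
      refine Finset.sum_bij' (fun p _ => p.1) (fun x _ => (x, x - v)) ?_ ?_ ?_ ?_ ?_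
      · intro p hp
        rw [Finset.mem_filter, hkey] at hp
        obtain ⟨hpS, c1, c2, c3⟩ := hp
        rw [Finset.mem_product] at hpS
        have d1 := (u4_div l hl _ _).1 c1
        have d2 := (u4_div l hl _ _).1 c2
        rw [Finset.mem_filter, mem_Ico, mem_Ico, ← c3]
        refine ⟨hpS.1, ⟨by linarith [d1.1], by linarith [d1.2]⟩, hpS.2,
          by linarith [d2.1], by linarith [d2.2]⟩
      · intro x hx
        rw [Finset.mem_filter, mem_Ico, mem_Ico] at hx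
        obtain ⟨hx1, ⟨hx2, hx3⟩, hx4, hx5, hx6⟩ := hx
        rw [Finset.mem_filter, hkey]
        refine ⟨Finset.mem_product.2 ⟨hx1, hx4⟩, ?_, ?_, rfl⟩
        · exact (u4_div l hl _ _).2 ⟨by linarith, by linarith⟩
        · exact (u4_div l hl _ _).2 ⟨by linarith, by linarith⟩
      · intro p hp
        rw [Finset.mem_filter, hkey] at hp
        exact Prod.ext rfl hp.2.2.2.symm
      · intro x hx
        rfl
      · intro p hp
        rw [Finset.mem_filter, hkey] at hp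
        obtain ⟨hpS, c1, c2, c3⟩ := hp
        simp only [f]
        rw [hw1 p.1, hw2 p.2, c1, c2, ee_add]
        have g1 : p.1 + p.2 = 2 * p.1 - v := by
          rw [c3]
          ring
        have g2 : p.1 - p.2 = v := by
          rw [c3]
          ring
        have g3 : (p.2 : ℝ) = (p.1 : ℝ) - (v : ℝ) := by
          rw [c3]
          push_cast
          ring
        rw [g1, g2, g3]
        ring
    rw [hsum, norm_mul, norm_mul, norm_mul]
    have hone := one_pair_v n l F tau htau hF v (r1 + j * l) (r2 + k * l) (th1 j) (th2 k)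
    have hc : ‖ep1 j‖ * ‖ep2 k‖ * ‖W v‖ ≤ 1 :=
      mul_le_one₀ (mul_le_one₀ (he1 j) (norm_nonneg _) (he2 k)) (norm_nonneg _) (hW v)
    calc ‖ep1 j‖ * ‖ep2 k‖ * ‖W v‖ * _ ≤ 1 * (l * tau) := by
          exact mul_le_mul hc hone (norm_nonneg _) zero_le_one
      _ = l * tau := one_mul _
  rw [hTF, ← Finset.sum_fiberwise_of_maps_to hmaps f]
  refine (norm_sum_le _ _).trans ?_
  refine (Finset.sum_le_sum hfib).trans ?_
  rw [Finset.sum_const, nsmul_eq_mul]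
  have hJ : (J.card : ℝ) ≤ 3 * n / l := u4_card n l hl hln r1
  have hK : (K.card : ℝ) ≤ 3 * n / l := u4_card n l hl hln r2
  have hTc : (T.card : ℝ) = J.card * (K.card * (2 * l)) := by
    simp only [T]
    rw [Finset.card_product, Finset.card_product, Int.card_Ico]
    have : ((l:ℤ) - -(l:ℤ)).toNat = 2 * l := by omega
    rw [this]
    push_cast
    ring
  rw [hTc]
  calc (J.card : ℝ) * (K.card * (2 * l)) * (l * tau)
      ≤ (3 * n / l) * ((3 * n / l) * (2 * l)) * (l * tau) := by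
        gcongr
    _ = 18 * (n:ℝ) ^ 2 * tau := by
        field_simp
        ring

end Pool.Agent.H44W
end
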