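import Pool.Agent.Lib.H59M.M2.M001

/-! Merged copies (to shorten the build) of Lib.H44W.U2, Lib.H81E.C1, Lib.H81E.C2, Lib.H81E.C3, Lib.H81E.C4, Lib.H81W.Defs. -/

-- from Lib.H44W.U2
section
/-!
CHUNK U2 (S). Algebra of TF.
TF_swap: exchange the sums, x + y = y + x, W' v = W (-v). TF_add / TF_sub / TF_smul / TF_sum: linearity in F.
-/
namespace Pool.Agent.H44W
open Finset

theorem TF_swap (n : ℕ) (F W f g : ℤ → ℂ) :
    TF n F W f g = TF n F (fun v => W (-v)) g f := by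
  unfold TF
  rw [Finset.sum_comm]
  refine Finset.sum_congr rfl fun y _ => Finset.sum_congr rfl fun x _ => ?_
  have h1 : x + y = y + x := add_comm x y
  have h2 : x - y = -(y - x) := by ring
  rw [h1, h2]
  ring

theorem TF_sum_sub {ι : Type*} (n : ℕ) (Q : Finset ι) (ga : ι → ℂ) (P M : ι → ℤ → ℂ)
    (W f g : ℤ → ℂ) :
    TF n (fun m => ∑ q ∈ Q, ga q * (P q m - M q m)) W f g =
      ∑ q ∈ Q, ga q * (TF n (P q) W f g - TF n (M q) W f g) := by
  unfold TF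
  have h : ∀ q ∈ Q, ga q * ((∑ x ∈ Icc (1:ℤ) n, ∑ y ∈ Icc (1:ℤ) n, f x * g y * P q (x + y) * W (x - y)) -
      ∑ x ∈ Icc (1:ℤ) n, ∑ y ∈ Icc (1:ℤ) n, f x * g y * M q (x + y) * W (x - y)) =
      ∑ x ∈ Icc (1:ℤ) n, ∑ y ∈ Icc (1:ℤ) n, ga q * (f x * g y * (P q (x + y) - M q (x + y)) * W (x - y)) := by
    intro q _
    rw [← Finset.sum_sub_distrib, Finset.mul_sum]
    refine Finset.sum_congr rfl fun x _ => ?_
    rw [← Finset.sum_sub_distrib, Finset.mul_sum]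
    refine Finset.sum_congr rfl fun y _ => ?_
    ring
  rw [Finset.sum_congr rfl h]
  refine Eq.trans ?_ Finset.sum_comm
  refine Finset.sum_congr rfl fun x _ => ?_
  refine Eq.trans ?_ Finset.sum_comm
  refine Finset.sum_congr rfl fun y _ => ?_
  rw [Finset.mul_sum, Finset.sum_mul]
  refine Finset.sum_congr rfl fun q _ => ?_
  ring

end Pool.Agent.H44W
end

-- from Lib.H81E.C1
section

/-!
# H81E (MP_443e5f, candidate T, module C), part 1: the algebra of functions with small Fourier norm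

`Rep n A F`: on `[2, 2 n]` the function `F` is a combination of characters `m ↦ ee (α m)` with total coefficient mass `≤ A`.
-/

namespace Pool.Agent.H81E

open Finset Pool.Agent.H44W

theorem norm_ee (x : ℝ) : ‖ee x‖ = 1 := by
  unfold ee
  rw [show (2 * (Real.pi : ℂ) * (x : ℂ) * Complex.I) = ((2 * Real.pi * x : ℝ) : ℂ) * Complex.I by push_cast; ring, Complex.norm_exp_ofReal_mul_I]

theorem ee_add (x y : ℝ) : ee (x + y) = ee x * ee y := by
  unfold ee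
  rw [← Complex.exp_add]
  congr 1
  push_cast
  ring

theorem ee_zero : ee 0 = 1 := by
  unfold ee
  simp

theorem ee_int (m : ℤ) : ee m = 1 := by
  unfold ee
  rw [Complex.exp_eq_one_iff]
  exact ⟨m, by push_cast; ring⟩

theorem ee_neg (x : ℝ) : ee (-x) = (starRingEnd ℂ) (ee x) := by
  unfold ee
  rw [← Complex.exp_conj]
  congr 1
  simp only [map_mul, Complex.conj_I, Complex.conj_ofReal, map_ofNat]
  push_cast
  ring

theorem ee_ne_one {x : ℝ} (h0 : 0 < x) (h1 : x < 1) : ee x ≠ 1 := by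
  intro h
  unfold ee at h
  rw [Complex.exp_eq_one_iff] at h
  obtain ⟨k, hk⟩ := h
  have h2 : (x : ℂ) = (k : ℂ) := by
    have h3 : (2 * (Real.pi : ℂ) * Complex.I) ≠ 0 := Complex.two_pi_I_ne_zero
    apply mul_left_cancel₀ h3
    rw [show (2 * (Real.pi : ℂ) * Complex.I) * (x : ℂ) = 2 * (Real.pi : ℂ) * (x : ℂ) * Complex.I by ring, hk]
    ring
  have h3 : x = (k : ℝ) := by exact_mod_cast h2
  rw [h3] at h0 h1
  have h4 : (0 : ℤ) < k := by exact_mod_cast h0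
  have h5 : k < (1 : ℤ) := by exact_mod_cast h1
  omega

theorem ee_orth (l : ℕ) (hl : 0 < l) (m : ℤ) :
    ∑ k ∈ range l, ee ((k : ℝ) * m / l) = if (l : ℤ) ∣ m then (l : ℂ) else 0 := by
  have hl0 : (l : ℝ) ≠ 0 := by exact_mod_cast hl.ne'
  have hpow : ∀ k : ℕ, ee ((k : ℝ) * m / l) = ee ((m : ℝ) / l) ^ k := by
    intro k
    induction k with
    | zero => simp [ee_zero]
    | succ k ih => rw [pow_succ, ← ih, ← ee_add]; congr 1; push_cast; ring
  split_ifs with h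
  · obtain ⟨t, rfl⟩ := h
    have h1 : ee (((l * t : ℤ) : ℝ) / l) = 1 := by
      rw [show (((l * t : ℤ) : ℝ) / l) = (t : ℝ) by push_cast; field_simp, ee_int]
    simp_rw [hpow, h1, one_pow]
    simp
  · simp_rw [hpow]
    have h1 : ee ((m : ℝ) / l) ≠ 1 := by
      intro h1
      apply h
      unfold ee at h1
      rw [Complex.exp_eq_one_iff] at h1
      obtain ⟨k, hk⟩ := h1
      have h2 : (((m : ℝ) / l : ℝ) : ℂ) = (k : ℂ) := by
        apply mul_left_cancel₀ Complex.two_pi_I_ne_zero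
        rw [show (2 * (Real.pi : ℂ) * Complex.I) * (((m : ℝ) / l : ℝ) : ℂ) = 2 * (Real.pi : ℂ) * (((m : ℝ) / l : ℝ) : ℂ) * Complex.I by ring, hk]
        ring
      have h3 : (m : ℝ) / l = (k : ℝ) := by exact_mod_cast h2
      rw [div_eq_iff hl0] at h3
      exact ⟨k, by rw [mul_comm]; exact_mod_cast h3⟩
    rw [geom_sum_eq h1, ← hpow, show ((l : ℝ) * m / l) = (m : ℝ) by field_simp, ee_int, sub_self, zero_div]

/-- `F` is a combination of characters on `[2, 2 n]` with coefficient mass at most `A`. -/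
def Rep (n : ℕ) (A : ℝ) (F : ℤ → ℂ) : Prop :=
  ∃ (J : ℕ) (c : ℕ → ℂ) (al : ℕ → ℝ), (∑ j ∈ range J, ‖c j‖ ≤ A) ∧ ∀ m : ℤ, 2 ≤ m → m ≤ 2 * n → F m = ∑ j ∈ range J, c j * ee (al j * m)

theorem Rep.nonneg {n : ℕ} {A : ℝ} {F : ℤ → ℂ} (h : Rep n A F) : 0 ≤ A := by
  obtain ⟨J, c, al, h1, _⟩ := h
  exact (sum_nonneg fun j _ => norm_nonneg _).trans h1

theorem Rep.mono {n : ℕ} {A B : ℝ} {F : ℤ → ℂ} (h : Rep n A F) (hAB : A ≤ B) : Rep n B F := by
  obtain ⟨J, c, al, h1, h2⟩ := h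
  exact ⟨J, c, al, h1.trans hAB, h2⟩

theorem Rep.congr {n : ℕ} {A : ℝ} {F G : ℤ → ℂ} (h : Rep n A F) (hFG : ∀ m : ℤ, 2 ≤ m → m ≤ 2 * n → G m = F m) : Rep n A G := by
  obtain ⟨J, c, al, h1, h2⟩ := h
  exact ⟨J, c, al, h1, fun m h3 h4 => by rw [hFG m h3 h4, h2 m h3 h4]⟩

/-- A finite family indexed by any finite set. -/
theorem Rep.of_finset {n : ℕ} {A : ℝ} {F : ℤ → ℂ} {ι : Type*} (s : Finset ι) (c : ι → ℂ) (al : ι → ℝ) (h1 : ∑ j ∈ s, ‖c j‖ ≤ A)
    (h2 : ∀ m : ℤ, 2 ≤ m → m ≤ 2 * n → F m = ∑ j ∈ s, c j * ee (al j * m)) : Rep n A F := by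
  classical
  let e := s.equivFin
  have key : ∀ {M : Type} [AddCommMonoid M] (φ : ι → M), ∑ j ∈ s, φ j = ∑ k ∈ range s.card, if h : k < s.card then φ (e.symm ⟨k, h⟩) else 0 := by
    intro M _ φ
    rw [← Finset.sum_coe_sort s, ← Equiv.sum_comp e.symm, Finset.sum_fin_eq_sum_range]
  refine ⟨s.card, fun k => if h : k < s.card then c (e.symm ⟨k, h⟩) else 0, fun k => if h : k < s.card then al (e.symm ⟨k, h⟩) else 0, ?_, ?_⟩
  · rw [key] at h1
    refine le_of_eq_of_le (sum_congr rfl fun k _ => ?_) h1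
    dsimp only
    by_cases h : k < s.card
    · rw [dif_pos h, dif_pos h]
    · rw [dif_neg h, dif_neg h, norm_zero]
  · intro m h3 h4
    rw [h2 m h3 h4, key]
    refine sum_congr rfl fun k _ => ?_
    dsimp only
    by_cases h : k < s.card
    · rw [dif_pos h, dif_pos h, dif_pos h]
    · rw [dif_neg h, dif_neg h, zero_mul]

theorem Rep.zero (n : ℕ) : Rep n 0 (fun _ => 0) := ⟨0, fun _ => 0, fun _ => 0, by simp, fun m _ _ => by simp⟩

theorem Rep.ee (n : ℕ) (al : ℝ) : Rep n 1 (fun m => ee (al * m)) :=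
  ⟨1, fun _ => 1, fun _ => al, by simp, fun m _ _ => by simp⟩

theorem Rep.const (n : ℕ) (c : ℂ) : Rep n ‖c‖ (fun _ => c) :=
  ⟨1, fun _ => c, fun _ => 0, by simp, fun m _ _ => by simp [ee_zero]⟩

theorem Rep.add {n : ℕ} {A B : ℝ} {F G : ℤ → ℂ} (hF : Rep n A F) (hG : Rep n B G) : Rep n (A + B) (fun m => F m + G m) := by
  obtain ⟨J, c, al, h1, h2⟩ := hF
  obtain ⟨K, d, be, h3, h4⟩ := hG
  refine Rep.of_finset ((range J).disjSum (range K)) (Sum.elim c d) (Sum.elim al be) ?_ ?_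
  · rw [sum_disjSum]
    exact add_le_add h1 h3
  · intro m hm1 hm2
    rw [sum_disjSum, h2 m hm1 hm2, h4 m hm1 hm2]
    rfl

theorem Rep.smul {n : ℕ} {A : ℝ} {F : ℤ → ℂ} (c : ℂ) (hF : Rep n A F) : Rep n (‖c‖ * A) (fun m => c * F m) := by
  obtain ⟨J, d, al, h1, h2⟩ := hF
  refine ⟨J, fun j => c * d j, al, ?_, fun m hm1 hm2 => ?_⟩
  · simp_rw [norm_mul]
    rw [← mul_sum]
    exact mul_le_mul_of_nonneg_left h1 (norm_nonneg _)
  · dsimp only
    rw [h2 m hm1 hm2, mul_sum]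
    exact sum_congr rfl fun j _ => by ring

theorem Rep.mul {n : ℕ} {A B : ℝ} {F G : ℤ → ℂ} (hF : Rep n A F) (hG : Rep n B G) : Rep n (A * B) (fun m => F m * G m) := by
  have hA := hF.nonneg
  obtain ⟨J, c, al, h1, h2⟩ := hF
  obtain ⟨K, d, be, h3, h4⟩ := hG
  refine Rep.of_finset (range J ×ˢ range K) (fun p => c p.1 * d p.2) (fun p => al p.1 + be p.2) ?_ ?_
  · simp_rw [norm_mul]
    rw [sum_product]
    simp_rw [← mul_sum]
    rw [← sum_mul]
    exact mul_le_mul h1 h3 (sum_nonneg fun j _ => norm_nonneg _) hA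
  · intro m hm1 hm2
    rw [h2 m hm1 hm2, h4 m hm1 hm2, sum_mul_sum, sum_product]
    refine sum_congr rfl fun i _ => sum_congr rfl fun j _ => ?_
    rw [add_mul, ee_add]
    ring

theorem Rep.sum {n : ℕ} {ι : Type*} (s : Finset ι) (A : ι → ℝ) (F : ι → ℤ → ℂ) (h : ∀ i ∈ s, Rep n (A i) (F i)) :
    Rep n (∑ i ∈ s, A i) (fun m => ∑ i ∈ s, F i m) := by
  classical
  induction s using Finset.induction_on with
  | empty => simpa using Rep.zero n
  | insert i s hi ih =>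
    rw [sum_insert hi]
    refine ((h i (mem_insert_self i s)).add (ih fun j hj => h j (mem_insert_of_mem hj))).congr fun m _ _ => ?_
    rw [sum_insert hi]

/-- The indicator of the multiples of `q`. -/
theorem Rep.dvd (n q : ℕ) (hq : 0 < q) : Rep n 1 (fun m => if (q : ℤ) ∣ m then 1 else 0) := by
  have hq0 : (q : ℝ) ≠ 0 := by exact_mod_cast hq.ne'
  have hq1 : (q : ℂ) ≠ 0 := by exact_mod_cast hq.ne'
  refine ⟨q, fun _ => 1 / (q : ℂ), fun j => (j : ℝ) / q, ?_, fun m _ _ => ?_⟩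
  · rw [sum_const, card_range, nsmul_eq_mul, norm_div, norm_one, Complex.norm_natCast, mul_one_div_cancel hq0]
  · rw [← mul_sum]
    have h1 : ∑ j ∈ range q, Pool.Agent.H44W.ee ((j : ℝ) / q * m) = ∑ j ∈ range q, Pool.Agent.H44W.ee ((j : ℝ) * m / q) :=
      sum_congr rfl fun j _ => by rw [div_mul_eq_mul_div]
    rw [h1, ee_orth q hq m]
    dsimp only
    by_cases h : (q : ℤ) ∣ m
    · rw [if_pos h, if_pos h, one_div_mul_cancel hq1]
    · rw [if_neg h, if_neg h, mul_zero]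

end Pool.Agent.H81E
end

-- from Lib.H81E.C2
section

/-!
# H81E (MP_443e5f, candidate T, module C), part 2: intervals and functions of bounded variation
-/

namespace Pool.Agent.H81E

open Finset Pool.Agent.H44W

theorem norm_ee_sub_one_ge {t : ℝ} (h0 : 0 < t) (h1 : t < 1) : 4 * min t (1 - t) ≤ ‖ee t - 1‖ := by
  have hpi := Real.pi_pos
  have h2 : ‖ee t - 1‖ = ‖2 * Real.sin (Real.pi * t)‖ := by
    have h3 := Complex.norm_exp_I_mul_ofReal_sub_one (2 * Real.pi * t)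
    rw [show (2 * Real.pi * t) / 2 = Real.pi * t by ring] at h3
    rw [← h3]
    unfold ee
    congr 3
    push_cast
    ring
  have h3 : 2 * min t (1 - t) ≤ Real.sin (Real.pi * t) := by
    rcases le_total t (1 / 2) with h | h
    · rw [min_eq_left (by linarith)]
      have h4 := Real.mul_le_sin (x := Real.pi * t) (by positivity) (by nlinarith)
      calc 2 * t = 2 / Real.pi * (Real.pi * t) := by field_simp
        _ ≤ _ := h4
    · rw [min_eq_right (by linarith)]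
      have h4 := Real.mul_le_sin (x := Real.pi * (1 - t)) (mul_nonneg hpi.le (by linarith)) (by nlinarith)
      have h5 : Real.sin (Real.pi * (1 - t)) = Real.sin (Real.pi * t) := by
        rw [show Real.pi * (1 - t) = Real.pi - Real.pi * t by ring, Real.sin_pi_sub]
      calc 2 * (1 - t) = 2 / Real.pi * (Real.pi * (1 - t)) := by field_simp
        _ ≤ _ := h4
        _ = _ := h5
  rw [h2, Real.norm_eq_abs]
  calc 4 * min t (1 - t) = 2 * (2 * min t (1 - t)) := by ring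
    _ ≤ 2 * Real.sin (Real.pi * t) := by linarith
    _ ≤ _ := le_abs_self _

theorem ee_natmul (k : ℕ) (x : ℝ) : ee ((k : ℝ) * x) = ee x ^ k := by
  induction k with
  | zero => simp [ee_zero]
  | succ k ih => rw [pow_succ, ← ih, ← ee_add]; congr 1; push_cast; ring

/-- The geometric sum over an interval. -/
theorem geom_le (a b : ℕ) (t : ℝ) (h : ee t ≠ 1) : ‖∑ s ∈ Ico a b, ee ((s : ℝ) * t)‖ ≤ 2 / ‖ee t - 1‖ := by
  have h0 : 0 < ‖ee t - 1‖ := norm_pos_iff.2 (sub_ne_zero.2 h)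
  rcases le_or_gt b a with hab | hab
  · rw [Ico_eq_empty_of_le hab, sum_empty, norm_zero]
    positivity
  · simp_rw [ee_natmul]
    rw [geom_sum_Ico h hab.le, norm_div]
    refine div_le_div_of_nonneg_right ?_ h0.le
    refine (norm_sub_le _ _).trans ?_
    rw [norm_pow, norm_pow, norm_ee, one_pow, one_pow]
    norm_num

/-- The Fourier coefficients of an interval. -/
theorem sum_coeff_le (n a b : ℕ) (hn : 1 ≤ n) (hb : b ≤ 2 * n + 1) :
    ∑ k ∈ range (2 * n + 1), ‖(1 / ((2 * n + 1 : ℕ) : ℂ)) * ∑ s ∈ Ico a b, ee (-((k : ℝ) * (s : ℝ) / (2 * n + 1 : ℕ)))‖ ≤ 3 + Real.log n := by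
  set M : ℕ := 2 * n + 1 with hM
  have hM0 : (0 : ℝ) < (M : ℝ) := by exact_mod_cast (by omega : 0 < M)
  rw [range_eq_Ico, sum_eq_sum_Ico_succ_bot (by omega : 0 < M)]
  have h1 : ‖(1 / (M : ℂ)) * ∑ s ∈ Ico a b, ee (-(((0 : ℕ) : ℝ) * (s : ℝ) / M))‖ ≤ 1 := by
    rw [norm_mul, norm_div, norm_one, Complex.norm_natCast]
    have h2 : ‖∑ s ∈ Ico a b, ee (-(((0 : ℕ) : ℝ) * (s : ℝ) / M))‖ ≤ M := by
      refine (norm_sum_le _ _).trans ?_
      simp_rw [norm_ee]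
      rw [sum_const, Nat.card_Ico, nsmul_eq_mul, mul_one]
      exact_mod_cast (by omega : b - a ≤ M)
    calc 1 / (M : ℝ) * _ ≤ 1 / (M : ℝ) * M := mul_le_mul_of_nonneg_left h2 (by positivity)
      _ = 1 := by field_simp
  have h2 : ∀ k ∈ Ico (0 + 1) M, ‖(1 / (M : ℂ)) * ∑ s ∈ Ico a b, ee (-((k : ℝ) * (s : ℝ) / M))‖ ≤ 1 / 2 * ((k : ℝ)⁻¹ + ((M - k : ℕ) : ℝ)⁻¹) := by
    intro k hk
    rw [mem_Ico] at hk
    have hk0 : (0 : ℝ) < k := by exact_mod_cast (by omega : 0 < k)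
    have hkM : (k : ℝ) < M := by exact_mod_cast hk.2
    have hMk : ((M - k : ℕ) : ℝ) = M - k := by rw [Nat.cast_sub hk.2.le]
    have ht0 : 0 < (k : ℝ) / M := by positivity
    have ht1 : (k : ℝ) / M < 1 := by rw [div_lt_one hM0]; exact hkM
    have h3 : ∑ s ∈ Ico a b, ee (-((k : ℝ) * (s : ℝ) / M)) = (starRingEnd ℂ) (∑ s ∈ Ico a b, ee ((s : ℝ) * ((k : ℝ) / M))) := by
      rw [map_sum]
      refine sum_congr rfl fun s _ => ?_
      rw [ee_neg]
      congr 2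
      ring
    have h4 := geom_le a b ((k : ℝ) / M) (ee_ne_one ht0 ht1)
    have h5 := norm_ee_sub_one_ge ht0 ht1
    have h6 : 0 < min ((k : ℝ) / M) (1 - (k : ℝ) / M) := lt_min ht0 (by linarith)
    rw [norm_mul, norm_div, norm_one, Complex.norm_natCast, h3, RCLike.norm_conj]
    calc 1 / (M : ℝ) * ‖∑ s ∈ Ico a b, ee ((s : ℝ) * ((k : ℝ) / M))‖ ≤ 1 / (M : ℝ) * (2 / (4 * min ((k : ℝ) / M) (1 - (k : ℝ) / M))) := by
          refine mul_le_mul_of_nonneg_left (h4.trans ?_) (by positivity)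
          exact div_le_div_of_nonneg_left (by norm_num) (by positivity) h5
      _ ≤ 1 / 2 * ((k : ℝ)⁻¹ + ((M - k : ℕ) : ℝ)⁻¹) := by
          rw [hMk]
          have hMk0 : 0 < (M : ℝ) - k := by linarith
          rcases le_total ((k : ℝ) / M) (1 - (k : ℝ) / M) with h | h
          · rw [min_eq_left h]
            have : 1 / (M : ℝ) * (2 / (4 * ((k : ℝ) / M))) = 1 / 2 * (k : ℝ)⁻¹ := by field_simp; ring
            rw [this]
            have : 0 < ((M : ℝ) - k)⁻¹ := inv_pos.2 hMk0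
            linarith
          · rw [min_eq_right h]
            have : 1 / (M : ℝ) * (2 / (4 * (1 - (k : ℝ) / M))) = 1 / 2 * ((M : ℝ) - k)⁻¹ := by
              rw [show (1 - (k : ℝ) / M) = (M - k) / M by field_simp]
              field_simp
              ring
            rw [this]
            have : 0 < (k : ℝ)⁻¹ := inv_pos.2 hk0
            linarith
  have h3 : ∑ k ∈ Ico (0 + 1) M, (1 / 2 * ((k : ℝ)⁻¹ + ((M - k : ℕ) : ℝ)⁻¹)) = ∑ k ∈ range (2 * n), ((k + 1 : ℕ) : ℝ)⁻¹ := by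
    rw [← mul_sum, sum_add_distrib]
    have h4 : ∑ k ∈ Ico (0 + 1) M, (k : ℝ)⁻¹ = ∑ k ∈ range (2 * n), ((k + 1 : ℕ) : ℝ)⁻¹ := by
      rw [sum_Ico_eq_sum_range, hM]
      refine sum_congr (by congr 1) fun k _ => ?_
      rw [show (0 + 1 + k) = k + 1 by ring]
    have h5 : ∑ k ∈ Ico (0 + 1) M, ((M - k : ℕ) : ℝ)⁻¹ = ∑ k ∈ range (2 * n), ((k + 1 : ℕ) : ℝ)⁻¹ := by
      rw [← h4]
      refine sum_bij' (fun k _ => M - k) (fun k _ => M - k) ?_ ?_ ?_ ?_ ?_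
      · intro k hk
        rw [mem_Ico] at hk ⊢
        omega
      · intro k hk
        rw [mem_Ico] at hk ⊢
        omega
      · intro k hk
        rw [mem_Ico] at hk
        omega
      · intro k hk
        rw [mem_Ico] at hk
        omega
      · intro k hk
        rfl
    rw [h4, h5]
    ring
  have h4 : ∑ k ∈ range (2 * n), ((k + 1 : ℕ) : ℝ)⁻¹ ≤ 1 + Real.log ((2 * n : ℕ) : ℝ) := by
    have h5 := harmonic_le_one_add_log (2 * n)
    refine le_trans (le_of_eq ?_) h5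
    unfold harmonic
    push_cast
    rfl
  have h5 : Real.log ((2 * n : ℕ) : ℝ) ≤ 1 + Real.log n := by
    have hn0 : (n : ℝ) ≠ 0 := by exact_mod_cast (by omega : n ≠ 0)
    push_cast
    rw [Real.log_mul (by norm_num) hn0]
    have := Real.log_two_lt_d9
    linarith
  have h6 := sum_le_sum h2
  rw [h3] at h6
  linarith

/-- Indicators of intervals. -/
theorem Rep.interval (n : ℕ) (hn : 1 ≤ n) (u v : ℤ) : Rep n (3 + Real.log n) (fun m => if u ≤ m ∧ m < v then 1 else 0) := by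
  set M : ℕ := 2 * n + 1 with hM
  have hM1 : (M : ℂ) ≠ 0 := by exact_mod_cast (by omega : M ≠ 0)
  have hM2 : (M : ℝ) ≠ 0 := by exact_mod_cast (by omega : M ≠ 0)
  set a : ℕ := u.toNat with ha
  set b : ℕ := min v.toNat M with hb
  refine ⟨M, fun k => (1 / (M : ℂ)) * ∑ s ∈ Ico a b, Pool.Agent.H44W.ee (-((k : ℝ) * (s : ℝ) / M)), fun k => (k : ℝ) / M, sum_coeff_le n a b hn (min_le_right _ _), ?_⟩
  intro m hm1 hm2
  dsimp only
  have h1 : ∀ k ∈ range M, (1 / (M : ℂ)) * (∑ s ∈ Ico a b, Pool.Agent.H44W.ee (-((k : ℝ) * (s : ℝ) / M))) * Pool.Agent.H44W.ee ((k : ℝ) / M * m) =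
      ∑ s ∈ Ico a b, (1 / (M : ℂ)) * Pool.Agent.H44W.ee ((k : ℝ) * ((m - (s : ℤ) : ℤ) : ℝ) / M) := by
    intro k _
    rw [mul_sum, sum_mul]
    refine sum_congr rfl fun s _ => ?_
    rw [mul_assoc, ← ee_add]
    congr 2
    push_cast
    ring
  rw [sum_congr rfl h1, sum_comm]
  have h2 : ∀ s ∈ Ico a b, ∑ k ∈ range M, (1 / (M : ℂ)) * Pool.Agent.H44W.ee ((k : ℝ) * ((m - (s : ℤ) : ℤ) : ℝ) / M) = if (s : ℤ) = m then 1 else 0 := by
    intro s hs
    rw [mem_Ico] at hs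
    have hsM : s < M := lt_of_lt_of_le hs.2 (min_le_right _ _)
    rw [← mul_sum, ee_orth M (by omega)]
    by_cases h : (s : ℤ) = m
    · rw [if_pos h, if_pos (by rw [h, sub_self]; exact dvd_zero _), one_div_mul_cancel hM1]
    · rw [if_neg h, if_neg, mul_zero]
      intro h3
      apply h
      have h4 : m - (s : ℤ) = 0 := Int.eq_zero_of_abs_lt_dvd h3 (by rw [abs_lt]; constructor <;> omega)
      omega
  rw [sum_congr rfl h2]
  by_cases h : u ≤ m ∧ m < v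
  · rw [if_pos h, Finset.sum_eq_single m.toNat]
    · rw [if_pos (by omega)]
    · intro s _ hs
      rw [if_neg]
      omega
    · intro hs
      exfalso
      apply hs
      rw [mem_Ico, ha, hb]
      constructor
      · omega
      · rw [lt_min_iff]
        omega
  · rw [if_neg h, Finset.sum_eq_zero]
    intro s hs
    rw [mem_Ico, ha, hb, lt_min_iff] at hs
    rw [if_neg]
    intro h3
    apply h
    omega

/-- Functions of bounded variation. -/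
theorem Rep.bv (n : ℕ) (hn : 1 ≤ n) (F : ℤ → ℂ) :
    Rep n (‖F 2‖ + (3 + Real.log n) * ∑ j ∈ range (2 * n), ‖F ((j : ℤ) + 3) - F ((j : ℤ) + 2)‖) F := by
  have h1 := Rep.sum (n := n) (range (2 * n)) (fun j => ‖F ((j : ℤ) + 3) - F ((j : ℤ) + 2)‖ * (3 + Real.log n))
    (fun j m => (F ((j : ℤ) + 3) - F ((j : ℤ) + 2)) * (if ((j : ℤ) + 3) ≤ m ∧ m < 2 * n + 1 then 1 else 0))
    fun j _ => (Rep.interval n hn ((j : ℤ) + 3) (2 * n + 1)).smul _
  have h2 := (Rep.const n (F 2)).add h1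
  rw [← sum_mul, mul_comm (∑ j ∈ range (2 * n), ‖F ((j : ℤ) + 3) - F ((j : ℤ) + 2)‖)] at h2
  refine h2.congr fun m hm1 hm2 => ?_
  obtain ⟨d, rfl⟩ : ∃ d : ℕ, m = d + 2 := ⟨(m - 2).toNat, by omega⟩
  have hd : d ≤ 2 * n := by omega
  have h3 : ∑ j ∈ range (2 * n), (F ((j : ℤ) + 3) - F ((j : ℤ) + 2)) * (if ((j : ℤ) + 3) ≤ (d : ℤ) + 2 ∧ (d : ℤ) + 2 < 2 * n + 1 then (1 : ℂ) else 0) =
      ∑ j ∈ range d, (F ((j : ℤ) + 3) - F ((j : ℤ) + 2)) := by
    rw [← sum_subset (range_subset_range.2 hd)]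
    · refine sum_congr rfl fun j hj => ?_
      rw [mem_range] at hj
      rw [if_pos, mul_one]
      omega
    · intro j _ hj
      rw [mem_range] at hj
      rw [if_neg, mul_zero]
      omega
  rw [h3]
  have h4 : ∑ j ∈ range d, (F ((j : ℤ) + 3) - F ((j : ℤ) + 2)) = F ((d : ℤ) + 2) - F 2 := by
    have h5 := Finset.sum_range_sub (fun j : ℕ => F ((j : ℤ) + 2)) d
    simp only [Nat.cast_zero, zero_add] at h5
    rw [← h5]
    refine sum_congr rfl fun j _ => ?_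
    rw [show (((j + 1 : ℕ) : ℤ) + 2) = (j : ℤ) + 3 by push_cast; ring]
  rw [h4]
  ring

end Pool.Agent.H81E
end

-- from Lib.H81E.C3
section

/-!
# H81E (MP_443e5f, candidate T, module C), part 3: the bilinear form `TF`, additive characters, Type I pieces
-/

namespace Pool.Agent.H81E

open Finset Pool.Agent.H44W

theorem TF_congr (n : ℕ) {F G : ℤ → ℂ} (W f g : ℤ → ℂ) (h : ∀ m : ℤ, 2 ≤ m → m ≤ 2 * n → F m = G m) : TF n F W f g = TF n G W f g := by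
  unfold TF
  refine sum_congr rfl fun x hx => sum_congr rfl fun y hy => ?_
  rw [mem_Icc] at hx hy
  rw [h (x + y) (by omega) (by omega)]

theorem TF_sum (n : ℕ) {ι : Type*} (s : Finset ι) (F : ι → ℤ → ℂ) (W f g : ℤ → ℂ) :
    TF n (fun m => ∑ i ∈ s, F i m) W f g = ∑ i ∈ s, TF n (F i) W f g := by
  unfold TF
  rw [sum_comm]
  have h1 : ∀ y ∈ Icc (1 : ℤ) n, ∑ x ∈ Icc (1 : ℤ) n, f x * g y * (∑ i ∈ s, F i (x + y)) * W (x - y) =
      ∑ i ∈ s, ∑ x ∈ Icc (1 : ℤ) n, f x * g y * F i (x + y) * W (x - y) := by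
    intro y _
    rw [sum_comm]
    refine sum_congr rfl fun x _ => ?_
    rw [mul_sum, sum_mul]
  rw [sum_congr rfl h1, sum_comm]
  refine sum_congr rfl fun i _ => ?_
  rw [sum_comm]

theorem TF_smul (n : ℕ) (c : ℂ) (F W f g : ℤ → ℂ) : TF n (fun m => c * F m) W f g = c * TF n F W f g := by
  unfold TF
  rw [mul_sum]
  refine sum_congr rfl fun x _ => ?_
  rw [mul_sum]
  refine sum_congr rfl fun y _ => ?_
  ring

theorem TF_ee (n : ℕ) (th : ℝ) (G W f g : ℤ → ℂ) :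
    TF n (fun m => ee (th * m) * G m) W f g = TF n G W (fun x => f x * ee (th * x)) (fun y => g y * ee (th * y)) := by
  unfold TF
  refine sum_congr rfl fun x _ => sum_congr rfl fun y _ => ?_
  dsimp only
  rw [show th * ((x + y : ℤ) : ℝ) = th * x + th * y by push_cast; ring, ee_add]
  ring

/-- A factor with small Fourier norm is absorbed by `f` and `g`. -/
theorem Rep.TF {n : ℕ} {A : ℝ} {F : ℤ → ℂ} (h : Rep n A F) (G W f g : ℤ → ℂ) :
    ∃ th : ℝ, ‖Pool.Agent.H44W.TF n (fun m => F m * G m) W f g‖ ≤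
      A * ‖Pool.Agent.H44W.TF n G W (fun x => f x * Pool.Agent.H44W.ee (th * x)) (fun y => g y * Pool.Agent.H44W.ee (th * y))‖ := by
  have hA := h.nonneg
  obtain ⟨J, c, al, h1, h2⟩ := h
  have h3 : Pool.Agent.H44W.TF n (fun m => F m * G m) W f g =
      ∑ j ∈ range J, c j * Pool.Agent.H44W.TF n G W (fun x => f x * Pool.Agent.H44W.ee (al j * x)) (fun y => g y * Pool.Agent.H44W.ee (al j * y)) := by
    rw [TF_congr n (G := fun m => ∑ j ∈ range J, c j * (Pool.Agent.H44W.ee (al j * m) * G m)), TF_sum]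
    · refine sum_congr rfl fun j _ => ?_
      rw [TF_smul, TF_ee]
    · intro m hm1 hm2
      rw [h2 m hm1 hm2, sum_mul]
      exact sum_congr rfl fun j _ => by ring
  rcases Nat.eq_zero_or_pos J with rfl | hJ
  · refine ⟨0, ?_⟩
    rw [h3, sum_range_zero, norm_zero]
    exact mul_nonneg hA (norm_nonneg _)
  · obtain ⟨j0, _, hj0⟩ := exists_max_image (range J) (fun j => ‖Pool.Agent.H44W.TF n G W (fun x => f x * Pool.Agent.H44W.ee (al j * x)) (fun y => g y * Pool.Agent.H44W.ee (al j * y))‖)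
      ⟨0, mem_range.2 hJ⟩
    refine ⟨al j0, ?_⟩
    rw [h3]
    refine (norm_sum_le _ _).trans ?_
    refine (sum_le_sum (g := fun j => ‖c j‖ * ‖Pool.Agent.H44W.TF n G W (fun x => f x * Pool.Agent.H44W.ee (al j0 * x)) (fun y => g y * Pool.Agent.H44W.ee (al j0 * y))‖) fun j hj => ?_).trans ?_
    · rw [norm_mul]
      exact mul_le_mul_of_nonneg_left (hj0 j hj) (norm_nonneg _)
    · rw [← sum_mul]
      exact mul_le_mul_of_nonneg_right h1 (norm_nonneg _)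

/-- Parseval on the group `ℤ / M`. -/
theorem parseval (M : ℕ) (hM : 0 < M) (S : Finset ℤ) (hS : ∀ s ∈ S, ∀ t ∈ S, (M : ℤ) ∣ s - t → s = t) (a : ℤ → ℂ) :
    ∑ k ∈ range M, ‖∑ s ∈ S, a s * ee ((k : ℝ) * s / M)‖ ^ 2 = M * ∑ s ∈ S, ‖a s‖ ^ 2 := by
  have h1 : ∀ k : ℕ, ((‖∑ s ∈ S, a s * ee ((k : ℝ) * s / M)‖ ^ 2 : ℝ) : ℂ) =
      ∑ s ∈ S, ∑ t ∈ S, a s * (starRingEnd ℂ) (a t) * ee ((k : ℝ) * ((s - t : ℤ) : ℝ) / M) := by
    intro k
    rw [Complex.ofReal_pow, ← Complex.mul_conj', map_sum, sum_mul_sum]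
    refine sum_congr rfl fun s _ => sum_congr rfl fun t _ => ?_
    rw [map_mul, ← ee_neg, show (k : ℝ) * ((s - t : ℤ) : ℝ) / M = (k : ℝ) * s / M + -((k : ℝ) * t / M) by push_cast; ring, ee_add]
    ring
  have h2 : ((∑ k ∈ range M, ‖∑ s ∈ S, a s * ee ((k : ℝ) * s / M)‖ ^ 2 : ℝ) : ℂ) = ((M * ∑ s ∈ S, ‖a s‖ ^ 2 : ℝ) : ℂ) := by
    rw [Complex.ofReal_sum, sum_congr rfl fun k _ => h1 k, sum_comm, sum_congr rfl fun s _ => sum_comm]
    rw [Complex.ofReal_mul, Complex.ofReal_sum, Complex.ofReal_natCast, mul_sum]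
    refine sum_congr rfl fun s hs => ?_
    rw [Finset.sum_eq_single s]
    · rw [← mul_sum, ee_orth M hM, if_pos (by rw [sub_self]; exact dvd_zero _), Complex.mul_conj', Complex.ofReal_pow]
      ring
    · intro t ht hts
      rw [← mul_sum, ee_orth M hM, if_neg, mul_zero]
      intro h
      exact hts (hS s hs t ht h).symm
    · intro h
      exact absurd hs h
  exact_mod_cast h2

/-- The form with kernel `1`. -/
theorem TF_one (n : ℕ) (W f g : ℤ → ℂ) (hW : ∀ x, ‖W x‖ ≤ 1) (hf : ∀ x, ‖f x‖ ≤ 1) :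
    ∃ th : ℝ, ‖TF n (fun _ => 1) W f g‖ ≤ 2 * n * ‖∑ y ∈ Icc (1 : ℤ) n, g y * ee (th * y)‖ := by
  rcases Nat.eq_zero_or_pos n with rfl | hn
  · refine ⟨0, ?_⟩
    simp [TF]
  set M : ℕ := 2 * n with hM
  have hM0 : 0 < M := by omega
  have hMr : (M : ℝ) ≠ 0 := by exact_mod_cast hM0.ne'
  have hMc : (M : ℂ) ≠ 0 := by exact_mod_cast hM0.ne'
  set w : ℕ → ℂ := fun k => (1 / (M : ℂ)) * ∑ v ∈ Ioo (-(n : ℤ)) n, W v * ee (-((k : ℝ) * v / M)) with hw
  set F : ℕ → ℂ := fun k => ∑ x ∈ Icc (1 : ℤ) n, f x * ee ((k : ℝ) * x / M) with hF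
  set G : ℕ → ℂ := fun k => ∑ y ∈ Icc (1 : ℤ) n, g y * ee (-((k : ℝ) / M) * y) with hG
  -- inversion
  have h1 : ∀ v0 ∈ Ioo (-(n : ℤ)) n, W v0 = ∑ k ∈ range M, w k * ee ((k : ℝ) * v0 / M) := by
    intro v0 hv0
    rw [mem_Ioo] at hv0
    have h2 : ∀ k ∈ range M, w k * ee ((k : ℝ) * v0 / M) = ∑ v ∈ Ioo (-(n : ℤ)) n, (1 / (M : ℂ)) * W v * ee ((k : ℝ) * ((v0 - v : ℤ) : ℝ) / M) := by
      intro k _
      rw [hw]
      dsimp only
      rw [mul_sum, sum_mul]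
      refine sum_congr rfl fun v _ => ?_
      rw [show (k : ℝ) * ((v0 - v : ℤ) : ℝ) / M = -((k : ℝ) * v / M) + (k : ℝ) * v0 / M by push_cast; ring, ee_add]
      ring
    rw [sum_congr rfl h2, sum_comm, Finset.sum_eq_single v0]
    · rw [← mul_sum, ee_orth M hM0, if_pos (by rw [sub_self]; exact dvd_zero _)]
      field_simp
    · intro v hv hvv
      rw [mem_Ioo] at hv
      rw [← mul_sum, ee_orth M hM0, if_neg, mul_zero]
      intro h
      apply hvv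
      have h4 : v0 - v = 0 := Int.eq_zero_of_abs_lt_dvd h (by rw [abs_lt]; constructor <;> omega)
      omega
    · intro h
      exact absurd (mem_Ioo.2 hv0) h
  have h2 : TF n (fun _ => 1) W f g = ∑ k ∈ range M, w k * F k * G k := by
    unfold TF
    have h3 : ∀ x ∈ Icc (1 : ℤ) n, ∀ y ∈ Icc (1 : ℤ) n, f x * g y * 1 * W (x - y) =
        ∑ k ∈ range M, w k * (f x * ee ((k : ℝ) * x / M)) * (g y * ee (-((k : ℝ) / M) * y)) := by
      intro x hx y hy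
      rw [mem_Icc] at hx hy
      rw [h1 (x - y) (by rw [mem_Ioo]; omega), mul_sum]
      refine sum_congr rfl fun k _ => ?_
      rw [show (k : ℝ) * ((x - y : ℤ) : ℝ) / M = (k : ℝ) * x / M + -((k : ℝ) / M) * y by push_cast; ring, ee_add]
      ring
    rw [sum_congr rfl fun x hx => sum_congr rfl fun y hy => h3 x hx y hy]
    rw [sum_congr rfl fun x _ => sum_comm, sum_comm]
    refine sum_congr rfl fun k _ => ?_
    rw [hF, hG]
    dsimp only
    rw [mul_assoc, sum_mul_sum, mul_sum]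
    refine sum_congr rfl fun x _ => ?_
    rw [mul_sum]
    refine sum_congr rfl fun y _ => ?_
    ring
  have hwsq : ∑ k ∈ range M, ‖w k‖ ^ 2 ≤ 1 := by
    have h3 : ∀ k ∈ range M, ‖w k‖ ^ 2 = (1 / (M : ℝ)) ^ 2 * ‖∑ v ∈ Ioo (-(n : ℤ)) n, (starRingEnd ℂ) (W v) * ee ((k : ℝ) * v / M)‖ ^ 2 := by
      intro k _
      rw [hw]
      dsimp only
      rw [norm_mul, mul_pow, norm_div, norm_one, Complex.norm_natCast, ← RCLike.norm_conj (∑ v ∈ Ioo (-(n : ℤ)) n, W v * ee (-((k : ℝ) * v / M))), map_sum]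
      congr 3
      refine sum_congr rfl fun v _ => ?_
      rw [map_mul, ee_neg, Complex.conj_conj]
    rw [sum_congr rfl h3, ← mul_sum, parseval M hM0]
    · have h4 : ∑ v ∈ Ioo (-(n : ℤ)) n, ‖(starRingEnd ℂ) (W v)‖ ^ 2 ≤ M := by
        refine (sum_le_sum (g := fun _ => (1 : ℝ)) fun v _ => ?_).trans ?_
        · rw [RCLike.norm_conj]
          exact pow_le_one₀ (norm_nonneg _) (hW v)
        · rw [sum_const, nsmul_eq_mul, mul_one, Int.card_Ioo]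
          exact_mod_cast (by omega : ((n : ℤ) - -(n : ℤ) - 1).toNat ≤ M)
      calc (1 / (M : ℝ)) ^ 2 * (M * ∑ v ∈ Ioo (-(n : ℤ)) n, ‖(starRingEnd ℂ) (W v)‖ ^ 2) ≤ (1 / (M : ℝ)) ^ 2 * (M * M) := by gcongr
        _ = 1 := by field_simp
    · intro s hs t ht h
      rw [mem_Ioo] at hs ht
      have h4 : s - t = 0 := Int.eq_zero_of_abs_lt_dvd h (by rw [abs_lt]; constructor <;> omega)
      omega
  have hFsq : ∑ k ∈ range M, ‖F k‖ ^ 2 ≤ (M : ℝ) * n := by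
    rw [hF]
    dsimp only
    rw [parseval M hM0]
    · refine mul_le_mul_of_nonneg_left ?_ (Nat.cast_nonneg _)
      refine (sum_le_sum (g := fun _ => (1 : ℝ)) fun v _ => pow_le_one₀ (norm_nonneg _) (hf v)).trans ?_
      rw [sum_const, nsmul_eq_mul, mul_one, Int.card_Icc]
      exact_mod_cast (by omega : ((n : ℤ) + 1 - 1).toNat ≤ n)
    · intro s hs t ht h
      rw [mem_Icc] at hs ht
      have h4 : s - t = 0 := Int.eq_zero_of_abs_lt_dvd h (by rw [abs_lt]; constructor <;> omega)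
      omega
  have hCS : ∑ k ∈ range M, ‖w k‖ * ‖F k‖ ≤ 2 * n := by
    have h3 := sum_mul_sq_le_sq_mul_sq (range M) (fun k => ‖w k‖) (fun k => ‖F k‖)
    have h4 : (∑ k ∈ range M, ‖w k‖ * ‖F k‖) ^ 2 ≤ (2 * (n : ℝ)) ^ 2 := by
      refine h3.trans ((mul_le_mul hwsq hFsq (sum_nonneg fun k _ => by positivity) zero_le_one).trans ?_)
      rw [hM]
      push_cast
      nlinarith [sq_nonneg (n : ℝ)]
    exact le_of_sq_le_sq h4 (by positivity)
  obtain ⟨k0, _, hk0⟩ := exists_max_image (range M) (fun k => ‖G k‖) ⟨0, mem_range.2 hM0⟩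
  refine ⟨-((k0 : ℝ) / M), ?_⟩
  rw [h2]
  calc ‖∑ k ∈ range M, w k * F k * G k‖ ≤ ∑ k ∈ range M, ‖w k * F k * G k‖ := norm_sum_le _ _
    _ ≤ ∑ k ∈ range M, ‖w k‖ * ‖F k‖ * ‖G k0‖ := by
        refine sum_le_sum fun k hk => ?_
        rw [norm_mul, norm_mul]
        exact mul_le_mul_of_nonneg_left (hk0 k hk) (by positivity)
    _ = (∑ k ∈ range M, ‖w k‖ * ‖F k‖) * ‖G k0‖ := by rw [sum_mul]
    _ ≤ 2 * n * ‖G k0‖ := mul_le_mul_of_nonneg_right hCS (norm_nonneg _)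

/-- A kernel with small Fourier norm: `TF` is controlled by the exponential sums of `g`. -/
theorem Rep.TF_le {n : ℕ} {A : ℝ} {F : ℤ → ℂ} (h : Rep n A F) (W f g : ℤ → ℂ) (hW : ∀ x, ‖W x‖ ≤ 1) (hf : ∀ x, ‖f x‖ ≤ 1) :
    ∃ th : ℝ, ‖Pool.Agent.H44W.TF n F W f g‖ ≤ A * (2 * n * ‖∑ y ∈ Icc (1 : ℤ) n, g y * Pool.Agent.H44W.ee (th * y)‖) := by
  obtain ⟨th1, h1⟩ := h.TF (fun _ => 1) W f g
  obtain ⟨th2, h2⟩ := TF_one n W (fun x => f x * Pool.Agent.H44W.ee (th1 * x)) (fun y => g y * Pool.Agent.H44W.ee (th1 * y)) hW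
    (fun x => by rw [norm_mul, norm_ee, mul_one]; exact hf x)
  refine ⟨th1 + th2, ?_⟩
  have h3 : ∑ y ∈ Icc (1 : ℤ) n, g y * Pool.Agent.H44W.ee ((th1 + th2) * y) = ∑ y ∈ Icc (1 : ℤ) n, g y * Pool.Agent.H44W.ee (th1 * y) * Pool.Agent.H44W.ee (th2 * y) := by
    refine sum_congr rfl fun y _ => ?_
    rw [add_mul, ee_add]
    ring
  rw [h3]
  have h4 : Pool.Agent.H44W.TF n F W f g = Pool.Agent.H44W.TF n (fun m => F m * 1) W f g := TF_congr n W f g fun m _ _ => (mul_one _).symm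
  rw [h4]
  exact h1.trans (mul_le_mul_of_nonneg_left h2 h.nonneg)

end Pool.Agent.H81E
end

-- from Lib.H81E.C4
section

/-!
# H81E (MP_443e5f, candidate T, module C), part 4: Type I pieces
-/

namespace Pool.Agent.H81E

open Finset Pool.Agent.H44W

/-- The indicator of `{q b : B₁ ≤ b < B₂}`. -/
theorem Rep.prog (n : ℕ) (hn : 1 ≤ n) (q : ℕ) (hq : 0 < q) (B₁ B₂ : ℕ) :
    Rep n (3 + Real.log n) (fun m => if (q : ℤ) ∣ m ∧ ((q * B₁ : ℕ) : ℤ) ≤ m ∧ m < ((q * B₂ : ℕ) : ℤ) then 1 else 0) := by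
  have h := (Rep.dvd n q hq).mul (Rep.interval n hn ((q * B₁ : ℕ) : ℤ) ((q * B₂ : ℕ) : ℤ))
  rw [one_mul] at h
  refine h.congr fun m _ _ => ?_
  by_cases h1 : (q : ℤ) ∣ m
  · by_cases h2 : ((q * B₁ : ℕ) : ℤ) ≤ m ∧ m < ((q * B₂ : ℕ) : ℤ)
    · rw [if_pos ⟨h1, h2⟩, if_pos h1, if_pos h2, mul_one]
    · rw [if_neg fun h3 => h2 h3.2, if_neg h2, mul_zero]
  · rw [if_neg fun h3 => h1 h3.1, if_neg h1, zero_mul]

/-- The Type I piece as a sum of indicators of progressions. -/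
theorem typeI_eq (R : ℕ) (ga : ℕ → ℂ) (hR : ∀ q, ga q ≠ 0 → q ≤ R) (B₁ B₂ : ℕ) (m : ℤ) (hm : 1 ≤ m) :
    ∑ x ∈ m.toNat.divisorsAntidiagonal, ga x.1 * (if B₁ ≤ x.2 ∧ x.2 < B₂ then 1 else 0) =
      ∑ q ∈ Icc 1 R, ga q * (if (q : ℤ) ∣ m ∧ ((q * B₁ : ℕ) : ℤ) ≤ m ∧ m < ((q * B₂ : ℕ) : ℤ) then 1 else 0) := by
  obtain ⟨k, rfl⟩ : ∃ k : ℕ, m = k := ⟨m.toNat, by omega⟩
  have hk : 0 < k := by omega
  rw [Int.toNat_natCast, Nat.sum_divisorsAntidiagonal (fun a b => ga a * (if B₁ ≤ b ∧ b < B₂ then (1 : ℂ) else 0))]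
  have h1 : ∑ q ∈ Icc 1 R, ga q * (if (q : ℤ) ∣ (k : ℤ) ∧ ((q * B₁ : ℕ) : ℤ) ≤ (k : ℤ) ∧ (k : ℤ) < ((q * B₂ : ℕ) : ℤ) then (1 : ℂ) else 0) =
      ∑ q ∈ (Icc 1 R).filter (fun q => q ∣ k), ga q * (if B₁ ≤ k / q ∧ k / q < B₂ then (1 : ℂ) else 0) := by
    rw [sum_filter]
    refine sum_congr rfl fun q hq => ?_
    rw [mem_Icc] at hq
    by_cases h2 : q ∣ k
    · rw [if_pos h2]
      congr 1
      obtain ⟨b, rfl⟩ := h2
      have hq0 : 0 < q := by omega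
      rw [Nat.mul_div_cancel_left b hq0]
      by_cases h3 : B₁ ≤ b ∧ b < B₂
      · rw [if_pos h3, if_pos]
        refine ⟨?_, ?_, ?_⟩
        · exact_mod_cast Dvd.intro b rfl
        · exact_mod_cast Nat.mul_le_mul_left q h3.1
        · exact_mod_cast Nat.mul_lt_mul_of_pos_left h3.2 hq0
      · rw [if_neg h3, if_neg]
        intro h4
        apply h3
        refine ⟨?_, ?_⟩
        · exact Nat.le_of_mul_le_mul_left (by exact_mod_cast h4.2.1) hq0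
        · exact Nat.lt_of_mul_lt_mul_left (a := q) (by exact_mod_cast h4.2.2)
    · rw [if_neg h2, if_neg, mul_zero]
      intro h3
      exact h2 (by exact_mod_cast h3.1)
  rw [h1]
  symm
  refine sum_subset ?_ ?_
  · intro q hq
    rw [mem_filter] at hq
    exact Nat.mem_divisors.2 ⟨hq.2, hk.ne'⟩
  · intro q hq hq2
    rw [Nat.mem_divisors] at hq
    by_cases h2 : ga q = 0
    · rw [h2, zero_mul]
    · exfalso
      apply hq2
      rw [mem_filter, mem_Icc]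
      exact ⟨⟨Nat.pos_of_dvd_of_pos hq.1 hk, hR q h2⟩, hq.1⟩

/-- Type I pieces have small Fourier norm. -/
theorem Rep.typeI (n : ℕ) (hn : 1 ≤ n) (R : ℕ) (ga : ℕ → ℂ) (hga : ∀ q, ‖ga q‖ ≤ 1) (hR : ∀ q, ga q ≠ 0 → q ≤ R) (B₁ B₂ : ℕ) :
    Rep n (R * (3 + Real.log n)) (fun m => ∑ x ∈ m.toNat.divisorsAntidiagonal, ga x.1 * (if B₁ ≤ x.2 ∧ x.2 < B₂ then 1 else 0)) := by
  have hl : 0 ≤ 3 + Real.log n := (Rep.interval n hn 0 0).nonneg
  have h := Rep.sum (n := n) (Icc 1 R) (fun q => ‖ga q‖ * (3 + Real.log n))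
    (fun q m => ga q * (if (q : ℤ) ∣ m ∧ ((q * B₁ : ℕ) : ℤ) ≤ m ∧ m < ((q * B₂ : ℕ) : ℤ) then 1 else 0))
    fun q hq => (Rep.prog n hn q (by rw [mem_Icc] at hq; omega) B₁ B₂).smul (ga q)
  refine (h.congr fun m hm _ => typeI_eq R ga hR B₁ B₂ m (by omega)).mono ?_
  refine (sum_le_sum (g := fun _ => 3 + Real.log n) fun q _ => ?_).trans ?_
  · exact mul_le_of_le_one_left hl (hga q)
  · rw [sum_const, Nat.card_Icc, Nat.add_sub_cancel, nsmul_eq_mul]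

/-- Module C: Type I pieces are controlled by the exponential sums of `g`. -/
theorem type_one (n : ℕ) (hn : 1 ≤ n) (R : ℕ) (ga : ℕ → ℂ) (hga : ∀ q, ‖ga q‖ ≤ 1) (hR : ∀ q, ga q ≠ 0 → q ≤ R) (B₁ B₂ : ℕ)
    (W f g : ℤ → ℂ) (hW : ∀ x, ‖W x‖ ≤ 1) (hf : ∀ x, ‖f x‖ ≤ 1) :
    ∃ th : ℝ, ‖TF n (fun m => ∑ x ∈ m.toNat.divisorsAntidiagonal, ga x.1 * (if B₁ ≤ x.2 ∧ x.2 < B₂ then 1 else 0)) W f g‖ ≤
      6 * R * (1 + Real.log n) * n * ‖∑ y ∈ Icc (1 : ℤ) n, g y * ee (th * y)‖ := by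
  obtain ⟨th, h⟩ := (Rep.typeI n hn R ga hga hR B₁ B₂).TF_le W f g hW hf
  refine ⟨th, h.trans ?_⟩
  have hlog : 0 ≤ Real.log n := Real.log_natCast_nonneg n
  have h0 : 0 ≤ (R : ℝ) * n * ‖∑ y ∈ Icc (1 : ℤ) n, g y * ee (th * y)‖ := by positivity
  calc (R : ℝ) * (3 + Real.log n) * (2 * n * ‖∑ y ∈ Icc (1 : ℤ) n, g y * ee (th * y)‖) =
        (6 + 2 * Real.log n) * ((R : ℝ) * n * ‖∑ y ∈ Icc (1 : ℤ) n, g y * ee (th * y)‖) := by ring
    _ ≤ (6 + 6 * Real.log n) * ((R : ℝ) * n * ‖∑ y ∈ Icc (1 : ℤ) n, g y * ee (th * y)‖) := mul_le_mul_of_nonneg_right (by linarith) h0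
    _ = _ := by ring

/-- The same with real coefficients, exactly in the form of `H81A.H1`. -/
theorem type_one_real (n : ℕ) (hn : 1 ≤ n) (R : ℕ) (ga : ℕ → ℝ) (hga : ∀ q, |ga q| ≤ 1) (hR : ∀ q, ga q ≠ 0 → q ≤ R) (B₁ B₂ : ℕ)
    (W f g : ℤ → ℂ) (hW : ∀ x, ‖W x‖ ≤ 1) (hf : ∀ x, ‖f x‖ ≤ 1) :
    ∃ th : ℝ, ‖TF n (fun m => ((∑ x ∈ m.toNat.divisorsAntidiagonal, ga x.1 * (if B₁ ≤ x.2 ∧ x.2 < B₂ then 1 else 0) : ℝ) : ℂ)) W f g‖ ≤
      6 * R * (1 + Real.log n) * n * ‖∑ y ∈ Icc (1 : ℤ) n, g y * ee (th * y)‖ := by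
  obtain ⟨th, h⟩ := type_one n hn R (fun q => (ga q : ℂ)) (fun q => by rw [Complex.norm_real]; exact hga q)
    (fun q hq => hR q fun h0 => hq (by rw [h0, Complex.ofReal_zero])) B₁ B₂ W f g hW hf
  refine ⟨th, ?_⟩
  have h2 : TF n (fun m => ((∑ x ∈ m.toNat.divisorsAntidiagonal, ga x.1 * (if B₁ ≤ x.2 ∧ x.2 < B₂ then 1 else 0) : ℝ) : ℂ)) W f g =
      TF n (fun m => ∑ x ∈ m.toNat.divisorsAntidiagonal, (ga x.1 : ℂ) * (if B₁ ≤ x.2 ∧ x.2 < B₂ then 1 else 0)) W f g := by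
    refine TF_congr n W f g fun m _ _ => ?_
    rw [Complex.ofReal_sum]
    refine sum_congr rfl fun x _ => ?_
    rw [Complex.ofReal_mul]
    congr 1
    split_ifs <;> simp
  rw [h2]
  exact h

end Pool.Agent.H81E
end

-- from Lib.H81W.Defs
section

/-!
# H81W (MP_443e5f, candidate T, module B, helper3's short proof), definitions and facts for steps 3 and 4

All functions live on `Icc (1:ℤ) n`.
-/

open Finset

namespace Pool.Agent.Lib.H81W

open Pool.Agent.H44W (ee TF cut)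

/-- The multiplicative derivative. -/
noncomputable def Gd (g : ℤ → ℂ) (d y : ℤ) : ℂ := g y * (starRingEnd ℂ) (g (y + d))

/-- The sum of `u` over one residue class. -/
noncomputable def Sr (n m : ℕ) (u : ℤ → ℂ) (r : ℤ) : ℂ := ∑ y ∈ (Icc (1 : ℤ) n).filter (fun y => y % m = r), u y

/-- The energy of `u` modulo `m`. -/
noncomputable def En (n m : ℕ) (u : ℤ → ℂ) : ℝ := ∑ r ∈ Ico (0 : ℤ) m, ‖Sr n m u r‖ ^ 2

/-- `m`-periodic functions. -/
def Per (m : ℕ) (p : ℤ → ℂ) : Prop := ∀ y z : ℤ, (m : ℤ) ∣ y - z → p y = p z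

theorem En_nonneg (n m : ℕ) (u : ℤ → ℂ) : 0 ≤ En n m u := sum_nonneg fun _ _ => by positivity

theorem norm_Gd_le {g : ℤ → ℂ} (hg : ∀ x, ‖g x‖ ≤ 1) (d y : ℤ) : ‖Gd g d y‖ ≤ 1 := by
  unfold Gd
  rw [norm_mul, RCLike.norm_conj]
  exact mul_le_one₀ (hg _) (norm_nonneg _) (hg _)

theorem sum_eq_sum_Sr (n m : ℕ) (hm : 0 < m) (u p : ℤ → ℂ) (hp : Per m p) :
    ∑ y ∈ Icc (1 : ℤ) n, u y * p y = ∑ r ∈ Ico (0 : ℤ) m, Sr n m u r * p r := by
  have hm0 : (0 : ℤ) < m := by exact_mod_cast hm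
  have hmaps : ∀ y ∈ Icc (1 : ℤ) n, y % m ∈ Ico (0 : ℤ) m := fun y _ => mem_Ico.2 ⟨Int.emod_nonneg _ hm0.ne', Int.emod_lt_of_pos _ hm0⟩
  rw [← sum_fiberwise_of_maps_to hmaps]
  refine sum_congr rfl fun r _ => ?_
  unfold Sr
  rw [sum_mul]
  refine sum_congr rfl fun y hy => ?_
  rw [mem_filter] at hy
  rw [hp y r]
  rw [← hy.2]
  exact Int.dvd_self_sub_emod

/-- (PC) -/
theorem PC (n m : ℕ) (hm : 0 < m) (u p : ℤ → ℂ) (hp : Per m p) (hp1 : ∀ y, ‖p y‖ ≤ 1) :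
    ‖∑ y ∈ Icc (1 : ℤ) n, u y * p y‖ ^ 2 ≤ m * En n m u := by
  rw [sum_eq_sum_Sr n m hm u p hp]
  have h1 : ‖∑ r ∈ Ico (0 : ℤ) m, Sr n m u r * p r‖ ≤ ∑ r ∈ Ico (0 : ℤ) m, 1 * ‖Sr n m u r‖ := by
    refine (norm_sum_le _ _).trans (sum_le_sum fun r _ => ?_)
    rw [norm_mul, one_mul]
    exact mul_le_of_le_one_right (norm_nonneg _) (hp1 r)
  have h2 := sum_mul_sq_le_sq_mul_sq (Ico (0 : ℤ) m) (fun _ => (1 : ℝ)) (fun r => ‖Sr n m u r‖)
  calc ‖∑ r ∈ Ico (0 : ℤ) m, Sr n m u r * p r‖ ^ 2 ≤ (∑ r ∈ Ico (0 : ℤ) m, 1 * ‖Sr n m u r‖) ^ 2 := pow_le_pow_left₀ (norm_nonneg _) h1 2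
    _ ≤ _ := h2
    _ = m * En n m u := by
      unfold En
      simp

/-- The number of elements of a residue class. -/
theorem card_res (n m : ℕ) (hm : 0 < m) (hmn : m ≤ n) (r : ℤ) : (((Icc (1 : ℤ) n).filter (fun y => y % m = r)).card : ℝ) ≤ 2 * n / m := by
  have hm0 : (0 : ℤ) < m := by exact_mod_cast hm
  have hmr : (0 : ℝ) < m := by exact_mod_cast hm
  have h1 : ((Icc (1 : ℤ) n).filter (fun y => y % m = r)).card ≤ (Icc (0 : ℤ) (n / m : ℤ)).card := by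
    refine card_le_card_of_injOn (fun y => y / m) ?_ ?_
    · intro y hy
      rw [mem_coe, mem_filter, mem_Icc] at hy
      rw [mem_coe, mem_Icc]
      exact ⟨Int.ediv_nonneg (by omega) hm0.le, Int.ediv_le_ediv hm0 hy.1.2⟩
    · intro y hy z hz h
      rw [mem_coe, mem_filter] at hy hz
      have h2 := Int.mul_ediv_add_emod y m
      have h3 := Int.mul_ediv_add_emod z m
      simp only at h
      rw [← h2, ← h3, h, hy.2, hz.2]
  have h2 : ((Icc (0 : ℤ) (n / m : ℤ)).card : ℝ) ≤ (n : ℝ) / m + 1 := by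
    rw [Int.card_Icc]
    have h3 : ((n : ℤ) / m + 1 - 0).toNat = n / m + 1 := by
      rw [sub_zero]
      have : ((n : ℤ) / m + 1) = ((n / m + 1 : ℕ) : ℤ) := by push_cast; rfl
      rw [this, Int.toNat_natCast]
    rw [h3]
    push_cast
    have := @Nat.cast_div_le ℝ _ _ _ n m
    linarith
  have h3 : (1 : ℝ) ≤ (n : ℝ) / m := by
    rw [le_div_iff₀ hmr, one_mul]
    exact_mod_cast hmn
  calc (((Icc (1 : ℤ) n).filter (fun y => y % m = r)).card : ℝ) ≤ ((Icc (0 : ℤ) (n / m : ℤ)).card : ℝ) := by exact_mod_cast h1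
    _ ≤ (n : ℝ) / m + 1 := h2
    _ ≤ (n : ℝ) / m + (n : ℝ) / m := by linarith
    _ = 2 * n / m := by ring

theorem norm_Sr_le (n m : ℕ) (hm : 0 < m) (hmn : m ≤ n) (u : ℤ → ℂ) (hu : ∀ y, ‖u y‖ ≤ 1) (r : ℤ) : ‖Sr n m u r‖ ≤ 2 * n / m := by
  unfold Sr
  refine (norm_sum_le _ _).trans ?_
  refine (sum_le_card_nsmul _ _ 1 fun y _ => hu y).trans ?_
  rw [nsmul_eq_mul, mul_one]
  exact card_res n m hm hmn r

theorem En_le (n m : ℕ) (hm : 0 < m) (hmn : m ≤ n) (u : ℤ → ℂ) (hu : ∀ y, ‖u y‖ ≤ 1) : En n m u ≤ 4 * n ^ 2 / m := by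
  have hmr : (0 : ℝ) < m := by exact_mod_cast hm
  unfold En
  refine (sum_le_card_nsmul _ _ ((2 * n / m : ℝ) ^ 2) fun r _ => pow_le_pow_left₀ (norm_nonneg _) (norm_Sr_le n m hm hmn u hu r) 2).trans ?_
  rw [nsmul_eq_mul, Int.card_Ico, sub_zero, Int.toNat_natCast]
  apply le_of_eq
  field_simp
  ring

/-- (PX) -/
theorem PX (n m : ℕ) (hm : 0 < m) (hmn : m ≤ n) (u : ℤ → ℂ) (hu : ∀ y, ‖u y‖ ≤ 1) :
    ∃ p : ℤ → ℂ, Per m p ∧ (∀ y, ‖p y‖ ≤ 1) ∧ ∑ y ∈ Icc (1 : ℤ) n, u y * p y = ((m / (2 * n) * En n m u : ℝ) : ℂ) := by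
  have hmr : (0 : ℝ) < m := by exact_mod_cast hm
  have hnr : (0 : ℝ) < n := by exact_mod_cast (by omega : 0 < n)
  have hper : Per m (fun y => ((m / (2 * n) : ℝ) : ℂ) * (starRingEnd ℂ) (Sr n m u (y % m))) := by
    intro y z h
    have h1 : y % m = z % m := Int.emod_eq_emod_iff_emod_sub_eq_zero.2 (Int.emod_eq_zero_of_dvd h)
    dsimp only
    rw [h1]
  refine ⟨_, hper, ?_, ?_⟩
  · intro y
    rw [norm_mul, RCLike.norm_conj, Complex.norm_real, Real.norm_eq_abs, abs_of_nonneg (by positivity)]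
    calc (m : ℝ) / (2 * n) * ‖Sr n m u (y % m)‖ ≤ (m : ℝ) / (2 * n) * (2 * n / m) := mul_le_mul_of_nonneg_left (norm_Sr_le n m hm hmn u hu _) (by positivity)
      _ = 1 := by field_simp
  · rw [sum_eq_sum_Sr n m hm u _ hper]
    unfold En
    rw [mul_sum, Complex.ofReal_sum]
    refine sum_congr rfl fun r hr => ?_
    rw [mem_Ico] at hr
    rw [Int.emod_eq_of_lt hr.1 hr.2]
    rw [Complex.ofReal_mul, Complex.ofReal_pow, ← Complex.mul_conj']
    ring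

end Pool.Agent.Lib.H81W
end
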