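import Mathlib
import Pool.Agent.Lib.H59M.M2.M002

/-! Merged copies (to shorten the build) of Lib.H33N.AD, Lib.H33N.SD, Lib.H33N.S1, Lib.SZW.D0, Lib.SZW.A1, Lib.H59T.G2, Lib.H59T.G3, Lib.H59T.G4, Lib.SZW.A4, Lib.SZW.A5. -/

-- from Lib.H33N.AD
section

/-!
# H33N, module A: definitions (pure algebra; see PROOF.md section 3)
-/

namespace Pool.Agent.Lib.H33N

noncomputable section






/-- `n (n - 1) / 2 = 0 + 1 + ... + (n - 1)`. -/
def tri (n : ℕ) : ℕ := ∑ i : Fin n, (i : ℕ)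

/-- Chains `l 0 ∣ l 1 ∣ ...` of positive integers prime to `N`. -/
def IsCh (n N : ℕ) (l : Fin n → ℕ) : Prop :=
  (∀ i, 0 < l i) ∧ (∀ i, (l i).Coprime N) ∧ ∀ i j : Fin n, i ≤ j → l i ∣ l j

open scoped Classical in
/-- The multiplicative strips: `∏ e i = r`, `e i * l i ∣ l (i + 1)`. -/
def strips (n r : ℕ) (l : Fin n → ℕ) : Finset (Fin n → ℕ) :=
  (Fintype.piFinset fun _ : Fin n => r.divisors).filter fun e =>
    ∏ i, e i = r ∧ ∀ i j : Fin n, (i : ℕ) + 1 = j → e i * l i ∣ l j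

/-- The (multiplicative) Pieri rule `(PI)`. -/
def PI (n N : ℕ) (L : ℕ → ℂ) (V : (Fin n → ℕ) → ℂ) : Prop :=
  ∀ r, 0 < r → r.Coprime N → ∀ l, IsCh n N l → L r * V l = ∑ e ∈ strips n r l, V (e * l)

open scoped Classical in
/-- The tuples with product `M`. -/
def facs (n M : ℕ) : Finset (Fin n → ℕ) :=
  (Fintype.piFinset fun _ : Fin n => M.divisors).filter fun r => ∏ i, r i = M

/-- `∑_{∏ r i = M} ∏ |L (r i)|`. -/
def Bd (n : ℕ) (L : ℕ → ℂ) (M : ℕ) : ℝ := ∑ r ∈ facs n M, ∏ i, ‖L (r i)‖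

end

end Pool.Agent.Lib.H33N
end

-- from Lib.H33N.SD
section

/-!
# H33N, module S: definitions (pure arithmetic; see PROOF.md section 3)
-/

namespace Pool.Agent.Lib.H33N

noncomputable section

/-- The hypotheses on the coefficients: `A 1 = 1`, the Pieri rule, and the behaviour under scalars. -/
structure Sys (n N : ℕ) (L : ℕ → ℂ) (A : (Fin n → ℕ) → ℂ) : Prop where
  one : A 1 = 1
  pi : PI n N L A
  sc : ∀ e, 0 < e → e.Coprime N → ∀ l, IsCh n N l → ‖A (fun i => e * l i)‖ = (e : ℝ) ^ tri n * ‖A l‖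

/-- `|A l|² |l| ^ (-(n-1) - s)`, `|l| = ∏ l i`. -/
def wA (n : ℕ) (A : (Fin n → ℕ) → ℂ) (s : ℝ) (l : Fin n → ℕ) : ENNReal :=
  ENNReal.ofReal (‖A l‖ ^ 2 * ((∏ i, l i : ℕ) : ℝ) ^ (-((n : ℝ) - 1) - s))

open scoped Classical in
/-- `∑_{(r,N)=1} |L r|² r ^ (-(n-1) - s)`. -/
def SS (n N : ℕ) (L : ℕ → ℂ) (s : ℝ) : ENNReal :=
  ∑' r : ℕ, if 0 < r ∧ r.Coprime N then ENNReal.ofReal (‖L r‖ ^ 2 * (r : ℝ) ^ (-((n : ℝ) - 1) - s)) else 0


open scoped Classical in
/-- The sum over the chains with `l 0 = 1`. -/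
def DD (n N : ℕ) (A : (Fin n → ℕ) → ℂ) (s : ℝ) : ENNReal :=
  ∑' l : Fin n → ℕ, if IsCh n N l ∧ ∀ i : Fin n, (i : ℕ) = 0 → l i = 1 then wA n A s l else 0

end

end Pool.Agent.Lib.H33N
end

-- from Lib.H33N.S1
section

/-!
# Chunk S1: divisor bounds
-/

namespace Pool.Agent.Lib.H33N

noncomputable section

theorem s1_fac {K ε : ℝ} (hε : 0 < ε) (hK1 : 1 ≤ K) (hK2 : 1 ≤ K * (ε * Real.log 2)) {P : ℕ}
    (hP : (2 : ℝ) ^ (1 / ε) < P) (p v : ℕ) (hp : 2 ≤ p) :
    ((v : ℝ) + 1) ≤ (if p < P then K else 1) * ((p : ℝ) ^ ε) ^ v := by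
  have hp' : (2 : ℝ) ≤ p := by exact_mod_cast hp
  have hp0 : (0 : ℝ) < p := by linarith
  have hv : (0 : ℝ) ≤ v := Nat.cast_nonneg v
  split_ifs with h
  · -- Bernoulli
    have h1 : 1 + (v : ℝ) * (ε * Real.log 2) ≤ ((p : ℝ) ^ ε) ^ v := by
      have h2 : ((p : ℝ) ^ ε) ^ v = Real.exp ((v : ℝ) * (ε * Real.log p)) := by
        rw [Real.exp_nat_mul, Real.rpow_def_of_pos hp0, mul_comm (Real.log _)]
      have h3 : (v : ℝ) * (ε * Real.log 2) ≤ (v : ℝ) * (ε * Real.log p) := by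
        refine mul_le_mul_of_nonneg_left (mul_le_mul_of_nonneg_left ?_ hε.le) hv
        exact Real.log_le_log (by norm_num) hp'
      rw [h2]
      have h4 := Real.add_one_le_exp ((v : ℝ) * (ε * Real.log p))
      linarith
    have h5 : K * (1 + (v : ℝ) * (ε * Real.log 2)) ≤ K * ((p : ℝ) ^ ε) ^ v :=
      mul_le_mul_of_nonneg_left h1 (by linarith)
    nlinarith
  · have h1 : (2 : ℝ) ≤ (p : ℝ) ^ ε := by
      have h2 : (2 : ℝ) ^ (1 / ε) ≤ p := by
        have : (P : ℝ) ≤ p := by exact_mod_cast not_lt.1 h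
        linarith
      have h3 := Real.rpow_le_rpow (by positivity) h2 hε.le
      rwa [← Real.rpow_mul (by norm_num), one_div, inv_mul_cancel₀ hε.ne', Real.rpow_one] at h3
    rw [one_mul]
    have h4 : (2 : ℝ) ^ v ≤ ((p : ℝ) ^ ε) ^ v := pow_le_pow_left₀ (by norm_num) h1 v
    have h5 : ((v : ℝ) + 1) ≤ 2 ^ v := by
      have : v + 1 ≤ 2 ^ v := Nat.succ_le_of_lt Nat.lt_two_pow_self
      exact_mod_cast this
    linarith

/-- The divisor bound. `τ(m) / m ^ ε = ∏_p (v_p + 1) / p ^ (ε v_p)`; the factors with `p ^ ε ≥ 2` are at most `1` (`v + 1 ≤ 2 ^ v`), the others (finitely many primes) are at most `sup_v (v + 1) 2 ^ (-ε v)`, finite. -/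
theorem s1_div {ε : ℝ} (hε : 0 < ε) : ∃ C : ℝ, 1 ≤ C ∧ ∀ m : ℕ, 0 < m → (m.divisors.card : ℝ) ≤ C * (m : ℝ) ^ ε := by
  have hl : 0 < Real.log 2 := Real.log_pos (by norm_num)
  obtain ⟨K, hK1, hK2⟩ : ∃ K : ℝ, 1 ≤ K ∧ 1 ≤ K * (ε * Real.log 2) := by
    refine ⟨max 1 (1 / (ε * Real.log 2)), le_max_left _ _, ?_⟩
    have h := mul_le_mul_of_nonneg_right (le_max_right 1 (1 / (ε * Real.log 2))) (mul_pos hε hl).le
    have e : 1 / (ε * Real.log 2) * (ε * Real.log 2) = 1 := by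
      rw [one_div, inv_mul_cancel₀ (mul_pos hε hl).ne']
    rw [e] at h
    exact h
  obtain ⟨P, hP⟩ := exists_nat_gt ((2 : ℝ) ^ (1 / ε))
  refine ⟨K ^ P, one_le_pow₀ hK1, fun m hm => ?_⟩
  have h1 : (m.divisors.card : ℝ) = ∏ p ∈ m.primeFactors, ((m.factorization p : ℝ) + 1) := by
    rw [Nat.card_divisors hm.ne']
    push_cast
    rfl
  have h2 : (m : ℝ) ^ ε = ∏ p ∈ m.primeFactors, ((p : ℝ) ^ ε) ^ (m.factorization p) := by
    have e : (m : ℝ) = ∏ p ∈ m.primeFactors, (p : ℝ) ^ (m.factorization p) := by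
      conv_lhs => rw [← Nat.prod_factorization_pow_eq_self hm.ne']
      rw [Finsupp.prod, Nat.support_factorization]
      push_cast
      rfl
    rw [e, ← Real.finsetProd_rpow _ _ (fun p _ => by positivity)]
    refine Finset.prod_congr rfl fun p _ => ?_
    rw [← Real.rpow_natCast, ← Real.rpow_natCast, ← Real.rpow_mul (Nat.cast_nonneg p),
      ← Real.rpow_mul (Nat.cast_nonneg p), mul_comm]
  have h3 : ∏ p ∈ m.primeFactors, (if p < P then K else 1) ≤ K ^ P := by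
    rw [Finset.prod_ite, Finset.prod_const_one, mul_one, Finset.prod_const]
    refine pow_le_pow_right₀ hK1 ?_
    calc (m.primeFactors.filter fun p => p < P).card ≤ (Finset.range P).card := by
          refine Finset.card_le_card fun p hp => ?_
          rw [Finset.mem_filter] at hp
          exact Finset.mem_range.2 hp.2
      _ = P := Finset.card_range P
  calc (m.divisors.card : ℝ) = ∏ p ∈ m.primeFactors, ((m.factorization p : ℝ) + 1) := h1
    _ ≤ ∏ p ∈ m.primeFactors, ((if p < P then K else 1) * ((p : ℝ) ^ ε) ^ (m.factorization p)) :=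
        Finset.prod_le_prod (fun p _ => by positivity)
          fun p hp => s1_fac hε hK1 hK2 hP p _ (Nat.prime_of_mem_primeFactors hp).two_le
    _ = (∏ p ∈ m.primeFactors, (if p < P then K else 1)) * (m : ℝ) ^ ε := by
        rw [Finset.prod_mul_distrib, h2]
    _ ≤ K ^ P * (m : ℝ) ^ ε := mul_le_mul_of_nonneg_right h3 (by positivity)



end

end Pool.Agent.Lib.H33N
end

-- from Lib.SZW.D0
section

/-!
# Weyl sums over a commutative ring with a finite basis over the integers: definitions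

`R` is a commutative ring with a `ℤ`-basis `b : Basis ι ℤ R`, `ι` finite, `d = card ι`. For
`x : ι → ℤ` let `E b x = ∑ x i • b i`. Boxes are products of intervals `a i ≤ x i < c i`. The phases
are values of additive maps `θ : R →+ ℝ`, modulo `1`; `nn t` is the distance from `t` to the nearest
integer, `ee t = exp (2 π i t)`.
-/

set_option autoImplicit false

namespace Pool.Agent.SZW

/-- `exp (2 π i t)` -/
noncomputable def ee (t : ℝ) : ℂ := Complex.exp (2 * Real.pi * t * Complex.I)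

/-- the distance from `t` to the nearest integer -/
noncomputable def nn (t : ℝ) : ℝ := |t - round t|

variable {ι : Type*} [Fintype ι] [DecidableEq ι]

/-- the box `a i ≤ x i < c i` -/
noncomputable def box (a c : ι → ℤ) : Finset (ι → ℤ) := Fintype.piFinset fun i => Finset.Ico (a i) (c i)

/-- the sides of the box are at most `P` -/
def Side (a c : ι → ℤ) (P : ℕ) : Prop := ∀ i, c i - a i ≤ P

/-- the element with coordinates `x` -/
noncomputable def E {R : Type*} [CommRing R] (b : Module.Basis ι ℤ R) (x : ι → ℤ) : R := ∑ i, x i • b i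

/-- the value of the affine form with coefficients `γ` and constant term `γ₀` -/
def aff (γ : ι → ℝ) (γ₀ : ℝ) (x : ι → ℤ) : ℝ := ∑ i, (x i : ℝ) * γ i + γ₀

/-- the exponential sum with phase `φ` over a box -/
noncomputable def sm (a c : ι → ℤ) (φ : (ι → ℤ) → ℝ) : ℂ := ∑ x ∈ box a c, ee (φ x)

end Pool.Agent.SZW
end

-- from Lib.SZW.A1
section

/-!
# A1 (S): the distance to the nearest integer
-/

set_option autoImplicit false

namespace Pool.Agent.SZW

theorem nn_nonneg (t : ℝ) : 0 ≤ nn t := abs_nonneg _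

theorem nn_le_half (t : ℝ) : nn t ≤ 1 / 2 := abs_sub_round t

/-- `round_le` -/
theorem nn_le (t : ℝ) (k : ℤ) : nn t ≤ |t - k| := round_le t k

theorem nn_neg (t : ℝ) : nn (-t) = nn t := by
  have h1 : ∀ t : ℝ, nn (-t) ≤ nn t := by
    intro t
    have h2 := nn_le (-t) (-round t)
    have h3 : (-t) - ((-round t : ℤ) : ℝ) = -(t - (round t : ℝ)) := by push_cast; ring
    rw [h3, abs_neg] at h2
    exact h2
  refine le_antisymm (h1 t) ?_
  have h4 := h1 (-t)
  rwa [neg_neg] at h4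

theorem nn_add (s t : ℝ) : nn (s + t) ≤ nn s + nn t := by
  have h2 := nn_le (s + t) (round s + round t)
  have h3 : (s + t) - ((round s + round t : ℤ) : ℝ) = (s - (round s : ℝ)) + (t - (round t : ℝ)) := by push_cast; ring
  rw [h3] at h2
  exact h2.trans (abs_add_le _ _)

theorem nn_sub (s t : ℝ) : nn (s - t) ≤ nn s + nn t := by
  have h := nn_add s (-t)
  rwa [nn_neg, ← sub_eq_add_neg] at h

theorem nn_int_add (t : ℝ) (k : ℤ) : nn (t + k) = nn t := by
  unfold nn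
  rw [round_add_intCast]
  congr 1
  push_cast
  ring

theorem a1_small {s : ℝ} (hs : |s| ≤ 1 / 2) : nn s = |s| := by
  refine le_antisymm ?_ ?_
  · have h3 := nn_le s 0
    rwa [Int.cast_zero, sub_zero] at h3
  · by_cases h0 : round s = 0
    · unfold nn
      rw [h0, Int.cast_zero, sub_zero]
    · have h1 : (1 : ℝ) ≤ |(round s : ℝ)| := by
        have h2 : (1 : ℤ) ≤ |round s| := Int.one_le_abs h0
        have h3 : ((1 : ℤ) : ℝ) ≤ ((|round s| : ℤ) : ℝ) := by exact_mod_cast h2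
        rwa [Int.cast_one, Int.cast_abs] at h3
      have h4 : |(round s : ℝ)| ≤ |s| + |s - (round s : ℝ)| := by
        have h5 := abs_sub_abs_le_abs_sub (round s : ℝ) s
        rw [abs_sub_comm (round s : ℝ) s] at h5
        linarith
      unfold nn
      linarith

/-- multiples: for `k * nn t ≤ 1 / 2` the distance is multiplied exactly -/
theorem nn_mul (t : ℝ) (k : ℕ) (h : k * nn t ≤ 1 / 2) : nn (k * t) = k * nn t := by
  have h1 : (k : ℝ) * t = (k : ℝ) * (t - (round t : ℝ)) + (((k : ℤ) * round t : ℤ) : ℝ) := by push_cast; ring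
  have h2 : |(k : ℝ) * (t - (round t : ℝ))| = (k : ℝ) * nn t := by
    rw [abs_mul, Nat.abs_cast]
    rfl
  rw [h1, nn_int_add, ← h2]
  exact a1_small (by rw [h2]; exact h)


end Pool.Agent.SZW
end

-- from Lib.H59T.G2
section

/-!
# Project H59T, chunk G2 (M): characters modulo prime powers near 1
-/

open Finset

namespace Pool.Agent.Lib.H59T

theorem g2_pow (l a k : ℕ) (h : a ≤ k) : (l : ZMod (l ^ a)) ^ k = 0 := by
  have h1 : ((l ^ k : ℕ) : ZMod (l ^ a)) = 0 := (ZMod.natCast_eq_zero_iff _ _).2 (pow_dvd_pow l h)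
  rw [← h1]
  push_cast
  rfl

/-- `t ↦ χ(1 + l^m t)` is additive if `l^(2m) = 0`. Proof. `(1 + l^m t)(1 + l^m t') = 1 + l^m (t + t')`. -/
theorem G2_add (l a m : ℕ) (h2 : a ≤ 2 * m) (χ : DirichletCharacter ℂ (l ^ a)) (t t' : ZMod (l ^ a)) :
    χ (1 + (l : ZMod (l ^ a)) ^ m * (t + t')) =
      χ (1 + (l : ZMod (l ^ a)) ^ m * t) * χ (1 + (l : ZMod (l ^ a)) ^ m * t') := by
  have h : (l : ZMod (l ^ a)) ^ m * (l : ZMod (l ^ a)) ^ m = 0 := by
    rw [← pow_add]
    exact g2_pow l a (m + m) (by omega)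
  rw [← map_mul]
  congr 1
  linear_combination (-(t * t')) * h

theorem g2_top (l a : ℕ) (hl : l.Prime) (ha : 1 ≤ a) [NeZero (l ^ a)] (χ : DirichletCharacter ℂ (l ^ a)) (hχ : χ.IsPrimitive)
    (h : ∀ t : ZMod (l ^ a), χ (1 + (l : ZMod (l ^ a)) ^ (a - 1) * t) = 1) : False := by
  have hd : l ^ (a - 1) ∣ l ^ a := pow_dvd_pow l (by omega)
  have hf : χ.FactorsThrough (l ^ (a - 1)) := by
    rw [DirichletCharacter.factorsThrough_iff_ker_unitsMap hd]
    intro u hu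
    rw [MonoidHom.mem_ker] at hu ⊢
    have h1 : (ZMod.castHom hd (ZMod (l ^ (a - 1)))) (u : ZMod (l ^ a)) = 1 := by
      have h2 := congrArg (fun w : (ZMod (l ^ (a - 1)))ˣ => (w : ZMod (l ^ (a - 1)))) hu
      exact h2
    have h3 : (ZMod.castHom hd (ZMod (l ^ (a - 1)))) ((u : ZMod (l ^ a)) - 1) = 0 := by
      rw [map_sub, h1, map_one, sub_self]
    obtain ⟨w, hw⟩ : ∃ w : ZMod (l ^ a), w = (u : ZMod (l ^ a)) - 1 := ⟨_, rfl⟩
    rw [← hw] at h3
    have h4 : ((w.val : ℕ) : ZMod (l ^ (a - 1))) = 0 := by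
      have h5 : (ZMod.castHom hd (ZMod (l ^ (a - 1)))) ((w.val : ℕ) : ZMod (l ^ a)) = 0 := by
        rw [ZMod.natCast_zmod_val]
        exact h3
      rw [map_natCast] at h5
      exact h5
    obtain ⟨t, ht⟩ := (ZMod.natCast_eq_zero_iff _ _).1 h4
    have h6 : w = (l : ZMod (l ^ a)) ^ (a - 1) * (t : ZMod (l ^ a)) := by
      rw [← ZMod.natCast_zmod_val w, ht]
      push_cast
      rfl
    have h7 : (u : ZMod (l ^ a)) = 1 + (l : ZMod (l ^ a)) ^ (a - 1) * (t : ZMod (l ^ a)) := by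
      rw [← h6, hw]
      ring
    have h8 := h t
    rw [← h7] at h8
    exact Units.ext h8
  have h1 : χ.conductor ≤ l ^ (a - 1) := Nat.sInf_le hf
  rw [(DirichletCharacter.isPrimitive_def χ).1 hχ] at h1
  have h2 : l ^ (a - 1) < l ^ a := Nat.pow_lt_pow_right hl.one_lt (by omega)
  omega

/-- The mean over `v` vanishes unless `l^n ∣ K`, `a = m + n`. Proof. `ψ(v) = χ(1 + l^m K v)` is additive in `v` (`G2_add`), with
values of absolute value `1` (`1 + l^m K v` is a unit since `l` is nilpotent, `m ≥ 1`). If `ψ(v0) ≠ 1` for some `v0`, the sum `S`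
satisfies `ψ(v0) S = S` (shift `v` by `v0`), so `S = 0`. If `ψ = 1` identically and `l^n ∤ K.val`, then `K = l^j u` with
`j < n`, `u` a unit (`K.val = l^j u'`, `l ∤ u'`), so `χ(1 + l^(a-1) t) = 1` for all `t` (take
`v = l^(n-1-j) u⁻¹ t`); hence `χ` factors through `l^(a-1)` (`DirichletCharacter.factorsThrough_iff_ker_unitsMap`: the kernel
of `(ZMod (l^a))ˣ → (ZMod (l^(a-1)))ˣ` consists of the units `≡ 1` modulo `l^(a-1)`), contradicting primitivity
(`DirichletCharacter.isPrimitive_def`, `conductor_dvd...`/`FactorsThrough`). -/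
theorem G2_mean (l a m n : ℕ) (hl : l.Prime) (ha : a = m + n) (hn : 1 ≤ n) (hmn : n ≤ m)
    [NeZero (l ^ a)] (χ : DirichletCharacter ℂ (l ^ a)) (hχ : χ.IsPrimitive) (K : ZMod (l ^ a))
    (hK : ¬ l ^ n ∣ K.val) :
    ∑ v : ZMod (l ^ a), χ (1 + (l : ZMod (l ^ a)) ^ m * (K * v)) = 0 := by
  by_cases hall : ∀ v : ZMod (l ^ a), χ (1 + (l : ZMod (l ^ a)) ^ m * (K * v)) = 1
  · exfalso
    refine g2_top l a hl (by omega) χ hχ fun t => ?_
    have hK0 : K.val ≠ 0 := fun h => hK (h ▸ dvd_zero _)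
    obtain ⟨j, u, hu, hKu⟩ := Nat.exists_eq_pow_mul_and_not_dvd hK0 l hl.ne_one
    have hj : j < n := by
      by_contra hj
      exact hK (hKu ▸ (pow_dvd_pow l (not_lt.1 hj)).trans (dvd_mul_right _ _))
    have hcop : Nat.Coprime u (l ^ a) := ((hl.coprime_iff_not_dvd.2 hu).symm).pow_right a
    obtain ⟨w, hw⟩ : ∃ w : (ZMod (l ^ a))ˣ, w = ZMod.unitOfCoprime u hcop := ⟨_, rfl⟩
    have hwu : (w : ZMod (l ^ a)) = (u : ZMod (l ^ a)) := by rw [hw, ZMod.coe_unitOfCoprime]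
    have hKe : K = (l : ZMod (l ^ a)) ^ j * (w : ZMod (l ^ a)) := by
      rw [← ZMod.natCast_zmod_val K, hKu, hwu]
      push_cast
      rfl
    have h1 := hall ((l : ZMod (l ^ a)) ^ (n - 1 - j) * ((w⁻¹ : (ZMod (l ^ a))ˣ) : ZMod (l ^ a)) * t)
    have h2 : (l : ZMod (l ^ a)) ^ m * (K * ((l : ZMod (l ^ a)) ^ (n - 1 - j) * ((w⁻¹ : (ZMod (l ^ a))ˣ) : ZMod (l ^ a)) * t)) =
        (l : ZMod (l ^ a)) ^ (a - 1) * t := by
      have h3 : (l : ZMod (l ^ a)) ^ (a - 1) = (l : ZMod (l ^ a)) ^ m * ((l : ZMod (l ^ a)) ^ j * (l : ZMod (l ^ a)) ^ (n - 1 - j)) := by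
        rw [← pow_add, ← pow_add]
        congr 1
        omega
      have h4 : (w : ZMod (l ^ a)) * ((w⁻¹ : (ZMod (l ^ a))ˣ) : ZMod (l ^ a)) = 1 := Units.mul_inv w
      rw [hKe, h3]
      linear_combination ((l : ZMod (l ^ a)) ^ m * (l : ZMod (l ^ a)) ^ j * (l : ZMod (l ^ a)) ^ (n - 1 - j) * t) * h4
    rw [h2] at h1
    exact h1
  · push Not at hall
    obtain ⟨v0, hv0⟩ := hall
    obtain ⟨S, hS⟩ : ∃ S : ℂ, S = ∑ v : ZMod (l ^ a), χ (1 + (l : ZMod (l ^ a)) ^ m * (K * v)) := ⟨_, rfl⟩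
    rw [← hS]
    have h1 : S = χ (1 + (l : ZMod (l ^ a)) ^ m * (K * v0)) * S := by
      rw [hS, Finset.mul_sum]
      rw [← Equiv.sum_comp (Equiv.addLeft v0)]
      refine Finset.sum_congr rfl fun v _ => ?_
      rw [← G2_add l a m (by omega), Equiv.coe_addLeft, mul_add]
    have h2 : (1 - χ (1 + (l : ZMod (l ^ a)) ^ m * (K * v0))) * S = 0 := by
      linear_combination h1
    rcases mul_eq_zero.1 h2 with h3 | h3
    · exact absurd (sub_eq_zero.1 h3).symm hv0
    · exact h3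

end Pool.Agent.Lib.H59T
end

-- from Lib.H59T.G3
section

/-!
# Project H59T, chunk G3 (M): the shift in the four corners
-/

open Finset

namespace Pool.Agent.Lib.H59T

private theorem g3_sq (l a m n : ℕ) (ha : a = m + n) (hmn : n ≤ m) :
    (l : ZMod (l ^ a)) ^ m * (l : ZMod (l ^ a)) ^ m = 0 := by
  have h1 : ((l ^ a : ℕ) : ZMod (l ^ a)) = 0 := ZMod.natCast_self _
  have h2 : (l : ZMod (l ^ a)) ^ a = 0 := by
    rw [← Nat.cast_pow]; exact h1
  rw [← pow_add]
  have h3 : m + m = a + (m - n) := by omega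
  rw [h3, pow_add, h2, zero_mul]

/-- units are stable under the shift by multiples of `l ^ m` -/
private theorem g3_unit (l a m n : ℕ) (ha : a = m + n) (hmn : n ≤ m) (s t : ZMod (l ^ a)) :
    IsUnit (s + (l : ZMod (l ^ a)) ^ m * t) ↔ IsUnit s := by
  have key : ∀ s t : ZMod (l ^ a), IsUnit s → IsUnit (s + (l : ZMod (l ^ a)) ^ m * t) := by
    intro s t hs
    obtain ⟨u, hu⟩ := hs
    have hsu : s * (↑(u⁻¹) : ZMod (l ^ a)) = 1 := by rw [← hu]; exact u.mul_inv
    refine IsUnit.of_mul_eq_one (((↑(u⁻¹) : ZMod (l ^ a))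
      - (l : ZMod (l ^ a)) ^ m * t * (↑(u⁻¹) : ZMod (l ^ a)) * (↑(u⁻¹) : ZMod (l ^ a)))) ?_
    have hq := g3_sq l a m n ha hmn
    set L := (l : ZMod (l ^ a)) ^ m
    set w := (↑(u⁻¹) : ZMod (l ^ a))
    linear_combination (1 - L * t * w) * hsu - t ^ 2 * w ^ 2 * hq
  constructor
  · intro h
    have h1 := key _ (-t) h
    have h2 : s + (l : ZMod (l ^ a)) ^ m * t + (l : ZMod (l ^ a)) ^ m * -t = s := by ring
    rwa [h2] at h1
  · exact key s t

private theorem g3_star (q : ℕ) [NeZero q] (χ : DirichletCharacter ℂ q) (w w' : ZMod q)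
    (h : χ w * χ w' = 1) : star (χ w) = χ w' := by
  have h3 : χ w ≠ 0 := by
    intro h0
    rw [h0, zero_mul] at h
    exact zero_ne_one h
  have hu : IsUnit w := by
    by_contra hw
    exact h3 (MulChar.map_nonunit χ hw)
  obtain ⟨u, rfl⟩ := hu
  have h1 : ‖χ (u : ZMod q)‖ = 1 := DirichletCharacter.unit_norm_eq_one χ u
  have h2 : χ (u : ZMod q) * star (χ (u : ZMod q)) = 1 := by
    have h2 : star (χ (u : ZMod q)) = (starRingEnd ℂ) (χ (u : ZMod q)) := rfl
    rw [h2, Complex.mul_conj, Complex.normSq_eq_norm_sq, h1]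
    norm_num
  exact mul_left_cancel₀ h3 (h2.trans h.symm)

/-- The sum over the common shift. Proof. If one of the four arguments `s_ij = z_i + y_j` is not a unit, all terms vanish (`s_ij + 2 l^m v` is
not a unit either, `m ≥ 1`). Otherwise `χ(s + 2 l^m v) = χ(s) χ(1 + l^m (2 s⁻¹ v))`, `star χ(s + ..)` similarly with
`-2 s⁻¹` (`star χ(u) = χ(u)⁻¹`; `χ(1 + l^m t)⁻¹ = χ(1 - l^m t)` by `G2_add`), so by `G2_add` the product of the four is a
constant times `χ(1 + l^m (K v))`, `K = 2 (1/s11 - 1/s12 - 1/s21 + 1/s22)`, and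
`K s11 s12 s21 s22 = 2 (z1+z2+y1+y2)(z1-z2)(y1-y2)` (`field_simp; ring` is not available in `ZMod`: use units and
`linear_combination`). So if `l^n` does not divide `2 (z1+z2+y1+y2)(z1-z2)(y1-y2)` it does not divide `K` and `G2_mean`
applies. -/
theorem G3 (l a m n : ℕ) (hl : l.Prime) (ha : a = m + n) (hn : 1 ≤ n) (hmn : n ≤ m)
    [NeZero (l ^ a)] (χ : DirichletCharacter ℂ (l ^ a)) (hχ : χ.IsPrimitive)
    (z1 z2 y1 y2 : ZMod (l ^ a))
    (hK : ¬ l ^ n ∣ (2 * (z1 + z2 + y1 + y2) * (z1 - z2) * (y1 - y2)).val) :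
    ∑ v : ZMod (l ^ a), χ (z1 + y1 + 2 * (l : ZMod (l ^ a)) ^ m * v) *
      star (χ (z2 + y1 + 2 * (l : ZMod (l ^ a)) ^ m * v)) *
      star (χ (z1 + y2 + 2 * (l : ZMod (l ^ a)) ^ m * v)) *
      χ (z2 + y2 + 2 * (l : ZMod (l ^ a)) ^ m * v) = 0 := by
  have hz : ∀ s v : ZMod (l ^ a), ¬ IsUnit s →
      χ (s + 2 * (l : ZMod (l ^ a)) ^ m * v) = 0 := by
    intro s v hs
    refine MulChar.map_nonunit χ ?_
    have e : s + 2 * (l : ZMod (l ^ a)) ^ m * v = s + (l : ZMod (l ^ a)) ^ m * (2 * v) := by ring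
    rw [e, g3_unit l a m n ha hmn]
    exact hs
  by_cases h11 : IsUnit (z1 + y1)
  swap
  · refine Finset.sum_eq_zero (fun v _ => ?_)
    rw [hz _ v h11]; simp
  by_cases h21 : IsUnit (z2 + y1)
  swap
  · refine Finset.sum_eq_zero (fun v _ => ?_)
    rw [hz _ v h21]; simp
  by_cases h12 : IsUnit (z1 + y2)
  swap
  · refine Finset.sum_eq_zero (fun v _ => ?_)
    rw [hz _ v h12]; simp
  by_cases h22 : IsUnit (z2 + y2)
  swap
  · refine Finset.sum_eq_zero (fun v _ => ?_)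
    rw [hz _ v h22]; simp
  have hinv : ∀ s : ZMod (l ^ a), IsUnit s → ∃ u : ZMod (l ^ a), s * u = 1 := by
    rintro s ⟨u, rfl⟩
    exact ⟨_, u.mul_inv⟩
  obtain ⟨u11, e11⟩ := hinv _ h11
  obtain ⟨u21, e21⟩ := hinv _ h21
  obtain ⟨u12, e12⟩ := hinv _ h12
  obtain ⟨u22, e22⟩ := hinv _ h22
  have hadd := G2_add l a m (by omega) χ
  have hsplit : ∀ s u v : ZMod (l ^ a), s * u = 1 →
      χ (s + 2 * (l : ZMod (l ^ a)) ^ m * v)
        = χ s * χ (1 + (l : ZMod (l ^ a)) ^ m * (2 * u * v)) := by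
    intro s u v hsu
    rw [← map_mul]
    refine congrArg χ ?_
    linear_combination (-2 * (l : ZMod (l ^ a)) ^ m * v) * hsu
  have hst : ∀ t : ZMod (l ^ a), star (χ (1 + (l : ZMod (l ^ a)) ^ m * t))
      = χ (1 + (l : ZMod (l ^ a)) ^ m * (-t)) := by
    intro t
    refine g3_star _ χ _ _ ?_
    rw [← hadd, add_neg_cancel, mul_zero, add_zero, map_one]
  have hterm : ∀ v : ZMod (l ^ a), χ (z1 + y1 + 2 * (l : ZMod (l ^ a)) ^ m * v) *
      star (χ (z2 + y1 + 2 * (l : ZMod (l ^ a)) ^ m * v)) *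
      star (χ (z1 + y2 + 2 * (l : ZMod (l ^ a)) ^ m * v)) *
      χ (z2 + y2 + 2 * (l : ZMod (l ^ a)) ^ m * v)
      = (χ (z1 + y1) * star (χ (z2 + y1)) * star (χ (z1 + y2)) * χ (z2 + y2)) *
        χ (1 + (l : ZMod (l ^ a)) ^ m * ((2 * (u11 - u21 - u12 + u22)) * v)) := by
    intro v
    have hs : (2 * (u11 - u21 - u12 + u22)) * v
        = ((2 * u11 * v + -(2 * u21 * v)) + -(2 * u12 * v)) + 2 * u22 * v := by ring
    rw [hs, hadd, hadd, hadd, hsplit _ _ v e11, hsplit _ _ v e21, hsplit _ _ v e12,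
      hsplit _ _ v e22, star_mul', star_mul', hst, hst]
    ring
  rw [Finset.sum_congr rfl (fun v _ => hterm v), ← Finset.mul_sum]
  have hK' : ¬ l ^ n ∣ (2 * (u11 - u21 - u12 + u22)).val := by
    intro hd
    apply hK
    have e : 2 * (z1 + z2 + y1 + y2) * (z1 - z2) * (y1 - y2)
        = (2 * (u11 - u21 - u12 + u22)) * ((z1 + y1) * (z2 + y1) * (z1 + y2) * (z2 + y2)) := by
      have f1 : (z1 + y1) * (z2 + y1) * (u11 - u21) = z2 - z1 := by
        linear_combination (z2 + y1) * e11 - (z1 + y1) * e21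
      have f2 : (z1 + y2) * (z2 + y2) * (u22 - u12) = z1 - z2 := by
        linear_combination (z1 + y2) * e22 - (z2 + y2) * e12
      linear_combination (-2 * (z1 + y2) * (z2 + y2)) * f1 - 2 * (z1 + y1) * (z2 + y1) * f2
    rw [e, ZMod.val_mul]
    have hna : l ^ n ∣ l ^ a := pow_dvd_pow l (by omega)
    exact (Nat.dvd_mod_iff hna).mpr (Dvd.dvd.mul_right hd _)
  rw [G2_mean l a m n hl ha hn hmn χ hχ _ hK', mul_zero]

end Pool.Agent.Lib.H59T
end

-- from Lib.H59T.G4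
section

/-!
# Project H59T, chunk G4 (M): counting
-/

open Finset

namespace Pool.Agent.Lib.H59T

/-- Proof. Multiples of `l^j` in `ZMod (l^a)`: `l^(a-j)` of them (`ZMod.val` between `0` and `l^a`). -/
theorem G4_one (l a j : ℕ) (hl : l.Prime) (hj : j ≤ a) [NeZero (l ^ a)] :
    ((univ : Finset (ZMod (l ^ a))).filter (fun x => l ^ j ∣ x.val)).card = l ^ (a - j) := by
  have hlj : 0 < l ^ j := Nat.pow_pos hl.pos
  have hsplit : l ^ a = l ^ j * l ^ (a - j) := by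
    rw [← pow_add]
    congr 1
    omega
  rw [← card_range (l ^ (a - j))]
  refine Finset.card_bij' (fun x _ => x.val / l ^ j) (fun m _ => ((l ^ j * m : ℕ) : ZMod (l ^ a))) ?_ ?_ ?_ ?_
  · intro x _
    rw [mem_range, Nat.div_lt_iff_lt_mul hlj, mul_comm, ← hsplit]
    exact ZMod.val_lt x
  · intro m hm
    rw [mem_range] at hm
    rw [mem_filter]
    refine ⟨mem_univ _, ?_⟩
    have h1 : l ^ j * m < l ^ a := by
      rw [hsplit]
      exact Nat.mul_lt_mul_of_pos_left hm hlj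
    rw [ZMod.val_natCast, Nat.mod_eq_of_lt h1]
    exact Dvd.intro m rfl
  · intro x hx
    have h1 := (mem_filter.1 hx).2
    rw [Nat.mul_div_cancel' h1]
    exact ZMod.natCast_zmod_val x
  · intro m hm
    rw [mem_range] at hm
    have h1 : l ^ j * m < l ^ a := by
      rw [hsplit]
      exact Nat.mul_lt_mul_of_pos_left hm hlj
    rw [ZMod.val_natCast, Nat.mod_eq_of_lt h1, Nat.mul_div_cancel_left _ hlj]

/-- one of three factors is divisible by a large power -/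
theorem g4_three (l n j u1 u2 u3 : ℕ) (hl : l.Prime)
    (hj : 3 * j ≤ n + 2) (hj2 : l = 2 → 3 * j ≤ n + 1) (h : l ^ n ∣ 2 * u1 * u2 * u3) :
    l ^ j ∣ u1 ∨ l ^ j ∣ u2 ∨ l ^ j ∣ u3 := by
  by_contra hcon
  push Not at hcon
  obtain ⟨h1, h2, h3⟩ := hcon
  have : Fact l.Prime := ⟨hl⟩
  have hj0 : 1 ≤ j := by
    rcases Nat.eq_zero_or_pos j with h0 | h0
    · rw [h0, pow_zero] at h1
      exact absurd (one_dvd _) h1
    · exact h0
  have hne : ∀ u, ¬ l ^ j ∣ u → u ≠ 0 ∧ padicValNat l u < j := by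
    intro u hu
    have hu0 : u ≠ 0 := fun h0 => hu (h0 ▸ dvd_zero _)
    refine ⟨hu0, ?_⟩
    rw [padicValNat_dvd_iff_le hu0, not_le] at hu
    exact hu
  obtain ⟨a1, b1⟩ := hne u1 h1
  obtain ⟨a2, b2⟩ := hne u2 h2
  obtain ⟨a3, b3⟩ := hne u3 h3
  have h20 : (2 : ℕ) ≠ 0 := by norm_num
  rw [padicValNat_dvd_iff_le (mul_ne_zero (mul_ne_zero (mul_ne_zero h20 a1) a2) a3),
    padicValNat.mul (mul_ne_zero (mul_ne_zero h20 a1) a2) a3,
    padicValNat.mul (mul_ne_zero h20 a1) a2, padicValNat.mul h20 a1] at h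
  by_cases hl2 : l = 2
  · have h4 := hj2 hl2
    have h5 : padicValNat l 2 = 1 := by
      rw [hl2]
      exact padicValNat_self
    omega
  · have h5 : padicValNat l 2 = 0 := by
      refine padicValNat.eq_zero_of_not_dvd fun h6 => ?_
      exact hl2 ((Nat.prime_dvd_prime_iff_eq hl Nat.prime_two).1 h6)
    omega


theorem g4_val2 (l a n : ℕ) (hn : n ≤ a) (x y z : ZMod (l ^ a))
    (h : l ^ n ∣ (2 * x * y * z).val) : l ^ n ∣ 2 * x.val * y.val * z.val := by
  have h2 : (2 : ZMod (l ^ a)) = ((2 : ℕ) : ZMod (l ^ a)) := by norm_num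
  have hd : l ^ n ∣ l ^ a := pow_dvd_pow l hn
  rw [h2] at h
  have h3 : (((2 : ℕ) : ZMod (l ^ a)) * x * y * z).val = 2 * x.val * y.val * z.val % l ^ a := by
    rw [ZMod.val_mul, ZMod.val_mul, ZMod.val_mul, ZMod.val_natCast]
    simp only [Nat.mod_mul_mod, Nat.mod_mul_mod]
  rw [h3] at h
  exact (Nat.dvd_mod_iff hd).1 h

/-- Proof. If `l^n ∣ 2 x1 x2 x3` with `l^n ∣ l^a` then (for `l` odd; for `l = 2` with `n - 1` in place of `n`) one of
the `x_i` is divisible by `l^j`, `j = ⌈n/3⌉` (`⌈(n-1)/3⌉`); each of the three linear forms takes each value `(l^a)³`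
times: so the count is at most `3 l^(3a) l^(a - j)` (`G4_one`), and `l^(-j) ≤ 2 l^(-n/3)` in both cases. -/
theorem G4 (l a n : ℕ) (hl : l.Prime) (hn : n ≤ a) [NeZero (l ^ a)] :
    (((univ : Finset (ZMod (l ^ a) × ZMod (l ^ a) × ZMod (l ^ a) × ZMod (l ^ a))).filter
      (fun x => l ^ n ∣ (2 * (x.1 + x.2.1 + x.2.2.1 + x.2.2.2) * (x.1 - x.2.1) *
        (x.2.2.1 - x.2.2.2)).val)).card : ℝ) ≤ 6 * ((l ^ a : ℕ) : ℝ) ^ 4 * (l : ℝ) ^ (-(n / 3 : ℝ)) := by
  classical
  obtain ⟨j, hj1, hj2, hj3⟩ : ∃ j : ℕ, 3 * j ≤ n + 2 ∧ (l = 2 → 3 * j ≤ n + 1) ∧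
      n ≤ 3 * j + (if l = 2 then 1 else 0) := by
    by_cases h2 : l = 2
    · refine ⟨(n + 1) / 3, by omega, fun _ => by omega, ?_⟩
      rw [if_pos h2]
      omega
    · refine ⟨(n + 2) / 3, by omega, fun h => absurd h h2, ?_⟩
      rw [if_neg h2]
      omega
  have hja : j ≤ a := by
    rcases Nat.eq_zero_or_pos n with h0 | h0
    · omega
    · omega
  have hlr : (2 : ℝ) ≤ l := by exact_mod_cast hl.two_le
  have hl0 : (0 : ℝ) < l := by linarith
  set T := ZMod (l ^ a) × ZMod (l ^ a) × ZMod (l ^ a) × ZMod (l ^ a) with hT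
  set S : Finset (ZMod (l ^ a)) := univ.filter (fun x => l ^ j ∣ x.val) with hS
  have hSc : S.card = l ^ (a - j) := G4_one l a j hl hja
  -- one linear form
  have hform : ∀ (L : T → ZMod (l ^ a)) (R : T → ZMod (l ^ a) × ZMod (l ^ a) × ZMod (l ^ a)),
      Function.Injective (fun x => (L x, R x)) →
      ((univ : Finset T).filter (fun x => l ^ j ∣ (L x).val)).card ≤ l ^ (a - j) * (l ^ a) ^ 3 := by
    intro L R hLR
    have h1 : ((univ : Finset T).filter (fun x => l ^ j ∣ (L x).val)).card ≤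
        (S ×ˢ (univ : Finset (ZMod (l ^ a) × ZMod (l ^ a) × ZMod (l ^ a)))).card := by
      refine card_le_card_of_injOn (fun x => (L x, R x)) ?_ hLR.injOn
      intro x hx
      rw [mem_coe, mem_filter] at hx
      rw [mem_coe, mem_product, hS, mem_filter]
      exact ⟨⟨mem_univ _, hx.2⟩, mem_univ _⟩
    rw [card_product, hSc, card_univ, Fintype.card_prod, Fintype.card_prod, ZMod.card] at h1
    calc _ ≤ _ := h1
      _ = _ := by ring
  have i1 : Function.Injective (fun x : T => (x.1 + x.2.1 + x.2.2.1 + x.2.2.2, (x.2.1, x.2.2.1, x.2.2.2))) := by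
    rintro ⟨z1, z2, y1, y2⟩ ⟨z1', z2', y1', y2'⟩ h
    simp only [Prod.mk.injEq] at h
    obtain ⟨h1, rfl, rfl, rfl⟩ := h
    have : z1 = z1' := by linear_combination h1
    rw [this]
  have i2 : Function.Injective (fun x : T => (x.1 - x.2.1, (x.2.1, x.2.2.1, x.2.2.2))) := by
    rintro ⟨z1, z2, y1, y2⟩ ⟨z1', z2', y1', y2'⟩ h
    simp only [Prod.mk.injEq] at h
    obtain ⟨h1, rfl, rfl, rfl⟩ := h
    have : z1 = z1' := by linear_combination h1
    rw [this]
  have i3 : Function.Injective (fun x : T => (x.2.2.1 - x.2.2.2, (x.1, x.2.1, x.2.2.2))) := by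
    rintro ⟨z1, z2, y1, y2⟩ ⟨z1', z2', y1', y2'⟩ h
    simp only [Prod.mk.injEq] at h
    obtain ⟨h1, rfl, rfl, rfl⟩ := h
    have : y1 = y1' := by linear_combination h1
    rw [this]
  have hsub : (univ : Finset T).filter
      (fun x => l ^ n ∣ (2 * (x.1 + x.2.1 + x.2.2.1 + x.2.2.2) * (x.1 - x.2.1) *
        (x.2.2.1 - x.2.2.2)).val) ⊆
      (univ : Finset T).filter (fun x => l ^ j ∣ (x.1 + x.2.1 + x.2.2.1 + x.2.2.2).val) ∪
      ((univ : Finset T).filter (fun x => l ^ j ∣ (x.1 - x.2.1).val) ∪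
      (univ : Finset T).filter (fun x => l ^ j ∣ (x.2.2.1 - x.2.2.2).val)) := by
    intro x hx
    rw [mem_filter] at hx
    rw [mem_union, mem_union, mem_filter, mem_filter, mem_filter]
    rcases g4_three l n j _ _ _ hl hj1 hj2 (g4_val2 l a n hn _ _ _ hx.2) with h | h | h
    · exact Or.inl ⟨mem_univ _, h⟩
    · exact Or.inr (Or.inl ⟨mem_univ _, h⟩)
    · exact Or.inr (Or.inr ⟨mem_univ _, h⟩)
  have hcard : ((univ : Finset T).filter
      (fun x => l ^ n ∣ (2 * (x.1 + x.2.1 + x.2.2.1 + x.2.2.2) * (x.1 - x.2.1) *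
        (x.2.2.1 - x.2.2.2)).val)).card ≤ 3 * (l ^ (a - j) * (l ^ a) ^ 3) := by
    refine (card_le_card hsub).trans ((card_union_le _ _).trans ?_)
    have h1 := hform _ _ i1
    have h2 := hform _ _ i2
    have h3 := hform _ _ i3
    have h4 := card_union_le ((univ : Finset T).filter (fun x => l ^ j ∣ (x.1 - x.2.1).val))
      ((univ : Finset T).filter (fun x => l ^ j ∣ (x.2.2.1 - x.2.2.2).val))
    omega
  have hcard' : (((univ : Finset T).filter
      (fun x => l ^ n ∣ (2 * (x.1 + x.2.1 + x.2.2.1 + x.2.2.2) * (x.1 - x.2.1) *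
        (x.2.2.1 - x.2.2.2)).val)).card : ℝ) ≤ 3 * ((l : ℝ) ^ (a - j) * ((l : ℝ) ^ a) ^ 3) := by
    exact_mod_cast hcard
  refine hcard'.trans ?_
  have h5 : (l : ℝ) ^ (a - j) = (l : ℝ) ^ a * (l : ℝ) ^ (-(j : ℝ)) := by
    rw [← Real.rpow_natCast, ← Real.rpow_natCast, ← Real.rpow_add hl0]
    congr 1
    rw [Nat.cast_sub hja]
    ring
  have h6 : (l : ℝ) ^ (-(j : ℝ)) ≤ 2 * (l : ℝ) ^ (-(n / 3 : ℝ)) := by
    by_cases h2 : l = 2
    · rw [if_pos h2] at hj3
      have h7 : (n : ℝ) ≤ 3 * j + 1 := by exact_mod_cast hj3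
      have h8 : (l : ℝ) ^ (-(j : ℝ)) ≤ (l : ℝ) ^ (1 - (n / 3 : ℝ)) :=
        Real.rpow_le_rpow_of_exponent_le (by linarith) (by linarith)
      refine h8.trans (le_of_eq ?_)
      rw [sub_eq_add_neg, Real.rpow_add hl0, Real.rpow_one, h2]
      norm_num
    · rw [if_neg h2] at hj3
      have h7 : (n : ℝ) ≤ 3 * j := by exact_mod_cast hj3
      have h8 : (l : ℝ) ^ (-(j : ℝ)) ≤ (l : ℝ) ^ (-(n / 3 : ℝ)) :=
        Real.rpow_le_rpow_of_exponent_le (by linarith) (by linarith)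
      have h9 : 0 ≤ (l : ℝ) ^ (-(n / 3 : ℝ)) := Real.rpow_nonneg hl0.le _
      linarith
  rw [h5]
  push_cast
  have h10 : 0 ≤ 3 * ((l : ℝ) ^ a) ^ 4 := by positivity
  calc 3 * ((l : ℝ) ^ a * (l : ℝ) ^ (-(j : ℝ)) * ((l : ℝ) ^ a) ^ 3)
      = 3 * ((l : ℝ) ^ a) ^ 4 * (l : ℝ) ^ (-(j : ℝ)) := by ring
    _ ≤ 3 * ((l : ℝ) ^ a) ^ 4 * (2 * (l : ℝ) ^ (-(n / 3 : ℝ))) := mul_le_mul_of_nonneg_left h6 h10
    _ = _ := by ring

end Pool.Agent.Lib.H59T
end

-- from Lib.SZW.A4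
section

/-!
# A4 (M): elements of `A` in one window
-/

set_option autoImplicit false

namespace Pool.Agent.SZW

/-- Let `η = nn (q α) > 0`, `w = ⌊1 / (2 η)⌋`. Elements `n < n'` of `A` with `n ≡ n' mod q` and
`n / q / w = n' / q / w` have `n' = n + t q` with `t < w`, so `t η ≤ 1 / 2`, and
`t η = nn (t q α) ≤ nn (n' α + β) + nn (n α + β) ≤ 2 ε`. So the elements of `A` with given
`n % q` and `n / q / w` are among `n₀, n₀ + q, ..., n₀ + ⌊2 ε / η⌋ q`, `n₀` the smallest of them. -/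
theorem fibre_card {A : Finset ℕ} {q : ℕ} {α β ε : ℝ} (hq : 1 ≤ q) (hη : 0 < nn (q * α))
    (hε : 0 ≤ ε) (hA : ∀ n ∈ A, nn (n * α + β) ≤ ε) (r k : ℕ) :
    ((A.filter fun n => n % q = r ∧ n / q / ⌊1 / (2 * nn (q * α))⌋₊ = k).card : ℝ) ≤
      2 * ε / nn (q * α) + 1 := by
  classical
  set η : ℝ := nn (q * α) with hηd
  set w : ℕ := ⌊1 / (2 * η)⌋₊ with hw
  set S : Finset ℕ := A.filter fun n => n % q = r ∧ n / q / w = k with hS
  have hq0 : 0 < q := hq
  have hwη : (w : ℝ) * η ≤ 1 / 2 := by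
    have h1 : (w : ℝ) ≤ 1 / (2 * η) := Nat.floor_le (by positivity)
    calc (w : ℝ) * η ≤ 1 / (2 * η) * η := mul_le_mul_of_nonneg_right h1 hη.le
      _ = 1 / 2 := by field_simp
  have hw1 : 1 ≤ w := by
    rw [hw]
    refine Nat.le_floor ?_
    rw [Nat.cast_one, le_div_iff₀ (by positivity)]
    have := nn_le_half (q * α)
    linarith
  rcases S.eq_empty_or_nonempty with h | h
  · rw [h, Finset.card_empty, Nat.cast_zero]
    positivity
  set n₀ : ℕ := S.min' h with hn₀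
  have hn₀S : n₀ ∈ S := S.min'_mem h
  have hmin : ∀ n ∈ S, n₀ ≤ n := fun n hn => S.min'_le n hn
  have hmem : ∀ n ∈ S, n ∈ A ∧ n % q = r ∧ n / q / w = k := by
    intro n hn
    rw [hS, Finset.mem_filter] at hn
    exact hn
  obtain ⟨h1, h2, h3⟩ := hmem n₀ hn₀S
  have hkey : ∀ n ∈ S, n / q - n₀ / q ∈ Finset.range (⌊2 * ε / η⌋₊ + 1) := by
    intro n hn
    obtain ⟨g1, g2, g3⟩ := hmem n hn
    have hle : n₀ / q ≤ n / q := Nat.div_le_div_right (hmin n hn)
    set t : ℕ := n / q - n₀ / q with ht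
    have htw : t ≤ w := by
      have e1 := Nat.div_add_mod (n / q) w
      have e2 := Nat.div_add_mod (n₀ / q) w
      rw [g3] at e1
      rw [h3] at e2
      have e3 := Nat.mod_lt (n / q) (by omega : w > 0)
      omega
    have hnt : (n : ℝ) = n₀ + t * q := by
      have e1 := Nat.div_add_mod n q
      have e2 := Nat.div_add_mod n₀ q
      rw [g2] at e1
      rw [h2] at e2
      have e4 : n = n₀ + t * q := by
        have e5 : n / q = n₀ / q + t := by omega
        rw [e5] at e1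
        rw [← e1]
        nth_rewrite 2 [← e2]
        ring
      exact_mod_cast e4
    have hth : (t : ℝ) * η ≤ 1 / 2 := by
      have : (t : ℝ) ≤ w := by exact_mod_cast htw
      exact (mul_le_mul_of_nonneg_right this hη.le).trans hwη
    have hmul := nn_mul (q * α) t hth
    have hsub := nn_sub (n * α + β) (n₀ * α + β)
    have e : (n : ℝ) * α + β - (n₀ * α + β) = t * (q * α) := by
      rw [hnt]
      ring
    rw [e, hmul] at hsub
    have h5 := hA n g1
    have h6 := hA n₀ h1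
    have h7 : (t : ℝ) * η ≤ 2 * ε := by linarith
    rw [Finset.mem_range]
    refine Nat.lt_succ_of_le (Nat.le_floor ?_)
    rw [le_div_iff₀ hη]
    exact h7
  have hcard : S.card ≤ ⌊2 * ε / η⌋₊ + 1 := by
    have h4 := Finset.card_le_card_of_injOn (s := S) (t := Finset.range (⌊2 * ε / η⌋₊ + 1))
      (fun n => n / q - n₀ / q) (fun n hn => hkey n hn) ?_
    · rwa [Finset.card_range] at h4
    · intro n hn n' hn' hnn
      obtain ⟨g1, g2, g3⟩ := hmem n hn
      obtain ⟨g1', g2', g3'⟩ := hmem n' hn'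
      have hle : n₀ / q ≤ n / q := Nat.div_le_div_right (hmin n hn)
      have hle' : n₀ / q ≤ n' / q := Nat.div_le_div_right (hmin n' hn')
      have e0 : n / q - n₀ / q = n' / q - n₀ / q := hnn
      have e1 := Nat.div_add_mod n q
      have e2 := Nat.div_add_mod n' q
      have e3 : n / q = n' / q := by omega
      rw [← e1, ← e2, e3, g2, g2']
  have h8 : (⌊2 * ε / η⌋₊ : ℝ) ≤ 2 * ε / η := Nat.floor_le (by positivity)
  have h9 : (S.card : ℝ) ≤ ⌊2 * ε / η⌋₊ + 1 := by exact_mod_cast hcard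
  linarith

end Pool.Agent.SZW
end

-- from Lib.SZW.A5
section

/-!
# A5 (M): the number of elements of `A`
-/

set_option autoImplicit false

namespace Pool.Agent.SZW

/-- Count `A` by the pairs `(n % q, n / q / w)`, `w = ⌊1 / (2 η)⌋ ≥ 1`: there are at most
`q ((N / q) / w + 1)` of them (`N / q`, `/ w` natural divisions), so
`|A| ≤ (2 ε / η + 1) (N / w + q) ≤ (2 ε / η + 1) (4 η N + q)`, as `1 / w ≤ 4 η` (`⌊x⌋ ≥ x / 2` for
`x ≥ 1`). -/
theorem card_bound {A : Finset ℕ} {N q : ℕ} {α β ε : ℝ} (hq : 1 ≤ q) (hη : 0 < nn (q * α))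
    (hN : ∀ n ∈ A, n < N) (hε : 0 ≤ ε) (hA : ∀ n ∈ A, nn (n * α + β) ≤ ε) :
    (A.card : ℝ) ≤ (2 * ε / nn (q * α) + 1) * (4 * nn (q * α) * N + q) := by
  classical
  set η : ℝ := nn (q * α) with hηd
  set w : ℕ := ⌊1 / (2 * η)⌋₊ with hw
  have hq0 : (0 : ℝ) < q := by exact_mod_cast hq
  have hηh : η ≤ 1 / 2 := nn_le_half (q * α)
  have hx1 : 1 ≤ 1 / (2 * η) := by
    rw [le_div_iff₀ (by positivity)]
    linarith
  have hw1 : 1 ≤ w := by
    rw [hw]
    exact Nat.le_floor (by simpa using hx1)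
  have hw1' : (1 : ℝ) ≤ w := by exact_mod_cast hw1
  have hw2 : 1 / (4 * η) ≤ w := by
    have h1 := Nat.lt_floor_add_one (1 / (2 * η))
    have h2 : 1 / (2 * η) = 2 * (1 / (4 * η)) := by
      field_simp
      ring
    rw [← hw, h2] at h1
    linarith
  have hmaps : ∀ n ∈ A, (n % q, n / q / w) ∈ Finset.range q ×ˢ Finset.range (N / q / w + 1) := by
    intro n hn
    rw [Finset.mem_product, Finset.mem_range, Finset.mem_range]
    refine ⟨Nat.mod_lt _ hq, Nat.lt_succ_of_le ?_⟩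
    exact Nat.div_le_div_right (Nat.div_le_div_right (hN n hn).le)
  have hcard := Finset.card_eq_sum_card_fiberwise (f := fun n => (n % q, n / q / w)) (s := A)
    (t := Finset.range q ×ˢ Finset.range (N / q / w + 1)) hmaps
  have hfib : ∀ p ∈ Finset.range q ×ˢ Finset.range (N / q / w + 1),
      ((A.filter fun n => (n % q, n / q / w) = p).card : ℝ) ≤ 2 * ε / η + 1 := by
    intro p _
    have h1 := fibre_card (A := A) (q := q) (α := α) (β := β) (ε := ε) hq hη hε hA p.1 p.2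
    have h2 : (A.filter fun n => (n % q, n / q / w) = p) =
        A.filter fun n => n % q = p.1 ∧ n / q / w = p.2 := by
      refine Finset.filter_congr (fun n _ => ?_)
      rw [Prod.ext_iff]
    rw [h2]
    exact h1
  have hB : 0 ≤ 2 * ε / η + 1 := by positivity
  have h3 : (A.card : ℝ) ≤ ((q * (N / q / w + 1) : ℕ) : ℝ) * (2 * ε / η + 1) := by
    rw [hcard]
    push_cast
    calc ∑ p ∈ Finset.range q ×ˢ Finset.range (N / q / w + 1),
          ((A.filter fun n => (n % q, n / q / w) = p).card : ℝ)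
        ≤ ∑ _p ∈ Finset.range q ×ˢ Finset.range (N / q / w + 1), (2 * ε / η + 1) :=
          Finset.sum_le_sum hfib
      _ = (q : ℝ) * (((N / q / w : ℕ) : ℝ) + 1) * (2 * ε / η + 1) := by
          rw [Finset.sum_const, Finset.card_product, Finset.card_range, Finset.card_range,
            nsmul_eq_mul]
          push_cast
          ring
  have h4 : ((q * (N / q / w + 1) : ℕ) : ℝ) ≤ 4 * η * N + q := by
    push_cast
    have h5 : ((N / q / w : ℕ) : ℝ) ≤ ((N / q : ℕ) : ℝ) / w := Nat.cast_div_le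
    have h6 : ((N / q : ℕ) : ℝ) ≤ (N : ℝ) / q := Nat.cast_div_le
    have h7 : ((N / q : ℕ) : ℝ) / w ≤ (N : ℝ) / q / w :=
      div_le_div_of_nonneg_right h6 (by linarith)
    have h8 : (q : ℝ) * ((N : ℝ) / q / w) = N / w := by
      field_simp
    have h9 : (N : ℝ) / w ≤ 4 * η * N := by
      rw [div_le_iff₀ (by linarith)]
      have h10 : 1 ≤ 4 * η * w := by
        rw [div_le_iff₀ (by positivity)] at hw2
        linarith
      have h11 : (0 : ℝ) ≤ N := Nat.cast_nonneg _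
      nlinarith
    have h12 : (q : ℝ) * ((N / q / w : ℕ) : ℝ) ≤ 4 * η * N := by
      calc (q : ℝ) * ((N / q / w : ℕ) : ℝ) ≤ q * ((N : ℝ) / q / w) :=
            mul_le_mul_of_nonneg_left (h5.trans h7) hq0.le
        _ = N / w := h8
        _ ≤ _ := h9
    linarith
  calc (A.card : ℝ) ≤ ((q * (N / q / w + 1) : ℕ) : ℝ) * (2 * ε / η + 1) := h3
    _ ≤ (4 * η * N + q) * (2 * ε / η + 1) := mul_le_mul_of_nonneg_right h4 hB
    _ = (2 * ε / η + 1) * (4 * η * N + q) := by ring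

end Pool.Agent.SZW
end
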