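import Pool.Agent.Lib.H59M.M2.M002

/-! Merged copies (to shorten the build) of Lib.H59T.K4. -/

-- from Lib.H59T.K4
section

/-!
# Project H59T, chunk K4 (S/M): the energy and the four-point sums
-/

open Finset

namespace Pool.Agent.Lib.H59T

/-- Proof. `l (l-1) En χ 0 1 ≤ ∑_{α,β} En χ α β ≤ 8 l⁴` (`K3`, `K3_inv`, `K2_sq`, `En ≥ 0`), and `8 l⁴/(l(l-1)) ≤ 12 l²` for
`l ≥ 3`. -/
theorem K4_En (l : ℕ) [Fact l.Prime] (hl : l ≠ 2) (χ : DirichletCharacter ℂ l) (hχ : χ ≠ 1) :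
    En χ 0 1 ≤ 12 * (l : ℝ) ^ 2 := by
  classical
  have hp : l.Prime := Fact.out
  have h2 := hp.two_le
  have h3 : (3 : ℝ) ≤ l := by
    have : 3 ≤ l := by omega
    exact_mod_cast this
  have hl0 : (0 : ℝ) < l := by linarith
  have hEn : ∀ α β, 0 ≤ En χ α β := fun α β => Finset.sum_nonneg fun b _ => by positivity
  have h1 : ∀ α : ZMod l, ((l : ℝ) - 1) * En χ 0 1 ≤ ∑ β : ZMod l, En χ α β := by
    intro α
    calc ((l : ℝ) - 1) * En χ 0 1 = ∑ _β ∈ Finset.univ.erase α, En χ 0 1 := by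
          rw [Finset.sum_const, Finset.card_erase_of_mem (Finset.mem_univ _), Finset.card_univ, ZMod.card,
            nsmul_eq_mul, Nat.cast_sub (by omega), Nat.cast_one]
      _ = ∑ β ∈ Finset.univ.erase α, En χ α β := by
          refine Finset.sum_congr rfl fun β hβ => ?_
          exact (K3_inv l χ α β (Finset.ne_of_mem_erase hβ).symm).symm
      _ ≤ ∑ β : ZMod l, En χ α β :=
          Finset.sum_le_sum_of_subset_of_nonneg (Finset.subset_univ _) fun β _ _ => hEn α β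
  have h4 : (l : ℝ) * (((l : ℝ) - 1) * En χ 0 1) ≤ l * (8 * (l : ℝ) ^ 3) := by
    calc (l : ℝ) * (((l : ℝ) - 1) * En χ 0 1) = ∑ _α : ZMod l, ((l : ℝ) - 1) * En χ 0 1 := by
          rw [Finset.sum_const, Finset.card_univ, ZMod.card, nsmul_eq_mul]
      _ ≤ ∑ α : ZMod l, ∑ β : ZMod l, En χ α β := Finset.sum_le_sum fun α _ => h1 α
      _ = l * ∑ p : ZMod l, ∑ r : ZMod l, ‖Wc χ (p ^ 2) (r ^ 2)‖ ^ 2 := K3 l hl χ
      _ ≤ l * (8 * (l : ℝ) ^ 3) := mul_le_mul_of_nonneg_left (K2_sq l χ hχ) hl0.le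
  have h5 : ((l : ℝ) - 1) * En χ 0 1 ≤ 8 * (l : ℝ) ^ 3 := le_of_mul_le_mul_left h4 hl0
  have h6 : 8 * (l : ℝ) ^ 3 ≤ ((l : ℝ) - 1) * (12 * (l : ℝ) ^ 2) := by
    have : 0 ≤ (l : ℝ) ^ 2 * (4 * l - 12) := mul_nonneg (by positivity) (by linarith)
    nlinarith
  exact le_of_mul_le_mul_left (h5.trans h6) (by linarith)

/-- Proof. For `a ≠ 0`: `∑_b ‖U4 χ a b‖² = En χ 0 (-a) = En χ 0 1` (definitions, `K3_inv`), at most `12 l²`; for `a = 0`:
`‖U4‖ ≤ l`, so `∑_b ≤ l³`. -/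
theorem K4 (l : ℕ) [Fact l.Prime] (hl : l ≠ 2) (χ : DirichletCharacter ℂ l) (hχ : χ ≠ 1) :
    ∑ a : ZMod l, ∑ b : ZMod l, ‖U4 χ a b‖ ^ 2 ≤ 13 * (l : ℝ) ^ 3 := by
  classical
  have hp : l.Prime := Fact.out
  have h2 := hp.two_le
  have hl0 : (0 : ℝ) < l := by exact_mod_cast hp.pos
  have hU : ∀ a b, ‖U4 χ a b‖ ≤ l := by
    intro a b
    unfold U4
    refine (norm_sum_le _ _).trans ?_
    calc _ ≤ ∑ _s : ZMod l, (1 : ℝ) := by
          refine Finset.sum_le_sum fun s _ => ?_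
          rw [norm_mul, norm_mul, norm_mul, norm_star, norm_star]
          have e := fun x : ZMod l => DirichletCharacter.norm_le_one χ x
          exact mul_le_one₀ (mul_le_one₀ (mul_le_one₀ (e _) (norm_nonneg _) (e _)) (norm_nonneg _) (e _))
            (norm_nonneg _) (e _)
      _ = l := by rw [Finset.sum_const, Finset.card_univ, ZMod.card, nsmul_eq_mul, mul_one]
  have h0 : ∑ b : ZMod l, ‖U4 χ 0 b‖ ^ 2 ≤ (l : ℝ) ^ 3 := by
    calc ∑ b : ZMod l, ‖U4 χ 0 b‖ ^ 2 ≤ ∑ _b : ZMod l, (l : ℝ) ^ 2 :=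
          Finset.sum_le_sum fun b _ => pow_le_pow_left₀ (norm_nonneg _) (hU 0 b) 2
      _ = (l : ℝ) ^ 3 := by
          rw [Finset.sum_const, Finset.card_univ, ZMod.card, nsmul_eq_mul]
          ring
  have h1 : ∀ a : ZMod l, a ≠ 0 → ∑ b : ZMod l, ‖U4 χ a b‖ ^ 2 ≤ 12 * (l : ℝ) ^ 2 := by
    intro a ha
    have e1 : ∑ b : ZMod l, ‖U4 χ a b‖ ^ 2 = En χ 0 (-a) := by
      unfold En U4
      refine Finset.sum_congr rfl fun b _ => ?_
      apply congrArg (fun z : ℂ => ‖z‖ ^ 2)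
      refine Finset.sum_congr rfl fun v _ => ?_
      rw [sub_zero, sub_zero, sub_neg_eq_add, sub_neg_eq_add, star_mul, star_star,
        show v + b + a = v + a + b by ring]
      ring
    rw [e1, K3_inv l χ 0 (-a) (fun h => ha (by rw [← neg_neg a, ← h, neg_zero]))]
    exact K4_En l hl χ hχ
  rw [← Finset.add_sum_erase _ _ (Finset.mem_univ (0 : ZMod l))]
  have h4 : ∑ a ∈ Finset.univ.erase (0 : ZMod l), ∑ b : ZMod l, ‖U4 χ a b‖ ^ 2 ≤
      ∑ _a ∈ Finset.univ.erase (0 : ZMod l), 12 * (l : ℝ) ^ 2 :=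
    Finset.sum_le_sum fun a ha => h1 a (Finset.ne_of_mem_erase ha)
  rw [Finset.sum_const, Finset.card_erase_of_mem (Finset.mem_univ _), Finset.card_univ, ZMod.card,
    nsmul_eq_mul, Nat.cast_sub (by omega), Nat.cast_one] at h4
  have h5 : ((l : ℝ) - 1) * (12 * (l : ℝ) ^ 2) ≤ 12 * (l : ℝ) ^ 3 := by
    have : 0 ≤ (l : ℝ) ^ 2 := by positivity
    nlinarith
  linarith

end Pool.Agent.Lib.H59T
end
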