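import Pool.Agent.Lib.H59M.M2.M006

/-! Merged copies (to shorten the build) of Lib.H68T.CQ1, Lib.H68T.CQ2, Lib.H68T.CG1, Lib.H68T.V1. -/

-- from Lib.H68T.CQ1
section

/-!
# Chunk CQ1; part of CQ: Ramanujan sums
-/

open Finset

namespace Pool.Agent.Lib.H68T

theorem CQ1_moebius (n : ℕ) :
    ∑ d ∈ n.divisors, (ArithmeticFunction.moebius d : ℂ) = if n = 1 then 1 else 0 := by
  have h := ArithmeticFunction.coe_mul_zeta_apply (R := ℂ)
    (f := ((ArithmeticFunction.moebius : ArithmeticFunction ℤ) : ArithmeticFunction ℂ)) (x := n)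
  rw [ArithmeticFunction.coe_moebius_mul_coe_zeta] at h
  rw [ArithmeticFunction.one_apply] at h
  simp only [ArithmeticFunction.intCoe_apply] at h
  exact h.symm

theorem CQ1_e_add (x y : ℝ) : e (x + y) = e x * e y := by
  unfold e
  rw [← Complex.exp_add]
  congr 1
  push_cast
  ring

theorem CQ1_e_int (m : ℤ) : e m = 1 := by
  unfold e
  rw [Complex.exp_eq_one_iff]
  exact ⟨m, by push_cast; ring⟩

theorem CQ1_e_eq_one (x : ℝ) (h : e x = 1) : ∃ m : ℤ, x = m := by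
  unfold e at h
  rw [Complex.exp_eq_one_iff] at h
  obtain ⟨m, hm⟩ := h
  refine ⟨m, ?_⟩
  have h1 : (2 * Real.pi * Complex.I : ℂ) ≠ 0 := Complex.two_pi_I_ne_zero
  have h2 : (x : ℂ) = m := by
    apply mul_right_cancel₀ h1
    rw [← hm]
    ring
  exact_mod_cast h2

theorem CQ1_e_nat_mul (x : ℝ) (n : ℕ) : e (n * x) = e x ^ n := by
  unfold e
  rw [← Complex.exp_nat_mul]
  congr 1
  push_cast
  ring

theorem CQ1_geom (n : ℕ) (hn : 0 < n) (m : ℤ) :
    ∑ b ∈ range n, e (b * (m / n)) = if (n : ℤ) ∣ m then (n : ℂ) else 0 := by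
  have hn0 : (n : ℝ) ≠ 0 := by exact_mod_cast hn.ne'
  have h1 : ∀ b ∈ range n, e (b * (m / n)) = (e (m / n)) ^ b := fun b _ => CQ1_e_nat_mul _ _
  rw [sum_congr rfl h1]
  have h2 : (e ((m : ℝ) / n)) ^ n = 1 := by
    rw [← CQ1_e_nat_mul, mul_div_cancel₀ _ hn0]
    exact CQ1_e_int m
  split_ifs with h
  · obtain ⟨k, hk⟩ := h
    have h3 : e ((m : ℝ) / n) = 1 := by
      rw [hk]
      have : (((n : ℤ) * k : ℤ) : ℝ) / n = ((k : ℤ) : ℝ) := by
        push_cast
        field_simp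
      rw [this]
      exact CQ1_e_int k
    rw [h3]
    simp
  · have h3 : e ((m : ℝ) / n) ≠ 1 := by
      intro h4
      obtain ⟨k, hk⟩ := CQ1_e_eq_one _ h4
      apply h
      refine ⟨k, ?_⟩
      rw [div_eq_iff hn0] at hk
      have : (m : ℝ) = ((n * k : ℤ) : ℝ) := by rw [hk]; push_cast; ring
      exact_mod_cast this
    rw [geom_sum_eq h3, h2, sub_self, zero_div]

/-- `c_q(m) = ∑_{a mod q, (a,q) = 1} e(a m / q)`: Möbius inversion from
`∑_{a mod q} e(a m/q) = q [q ∣ m]`. -/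
theorem cq_eq_sum (q : ℕ) (hq : 0 < q) (m : ℤ) :
    (cq q m : ℂ) = ∑ a ∈ (range q).filter (fun a => Nat.Coprime a q), e (a * m / q) := by
  have hind : ∀ a : ℕ, ∑ d ∈ q.divisors.filter (fun d => d ∣ a),
      (ArithmeticFunction.moebius d : ℂ) = if Nat.Coprime a q then 1 else 0 := by
    intro a
    have hg : 0 < Nat.gcd a q := Nat.gcd_pos_of_pos_right _ hq
    have h1 : q.divisors.filter (fun d => d ∣ a) = (Nat.gcd a q).divisors := by
      ext d
      simp only [mem_filter, Nat.mem_divisors, Nat.dvd_gcd_iff]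
      constructor
      · rintro ⟨⟨h1, _⟩, h3⟩
        exact ⟨⟨h3, h1⟩, hg.ne'⟩
      · rintro ⟨⟨h1, h2⟩, _⟩
        exact ⟨⟨h2, hq.ne'⟩, h1⟩
    rw [h1, CQ1_moebius _]
  have h1 : ∑ a ∈ (range q).filter (fun a => Nat.Coprime a q), e (a * m / q)
      = ∑ a ∈ range q, ∑ d ∈ q.divisors, if d ∣ a then
        (ArithmeticFunction.moebius d : ℂ) * e (a * m / q) else 0 := by
    rw [sum_filter]
    refine sum_congr rfl fun a _ => ?_
    have h2 := hind a
    rw [← sum_filter, ← sum_mul, h2]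
    split_ifs <;> simp
  rw [h1, sum_comm]
  have h3 : ∀ d ∈ q.divisors, (∑ a ∈ range q, if d ∣ a then
      (ArithmeticFunction.moebius d : ℂ) * e (a * m / q) else 0)
      = (ArithmeticFunction.moebius d : ℂ) * (if ((q / d : ℕ) : ℤ) ∣ m then ((q / d : ℕ) : ℂ) else 0) := by
    intro d hd
    rw [Nat.mem_divisors] at hd
    obtain ⟨k, hk⟩ := hd.1
    have hd0 : 0 < d := Nat.pos_of_dvd_of_pos hd.1 hq
    have hk0 : 0 < k := by
      rcases Nat.eq_zero_or_pos k with h | h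
      · rw [h, mul_zero] at hk
        exact absurd hk hq.ne'
      · exact h
    have hqd : q / d = k := by rw [hk]; exact Nat.mul_div_cancel_left _ hd0
    rw [hqd, ← CQ1_geom k hk0 m, mul_sum, ← sum_filter]
    symm
    refine sum_bij (fun b _ => d * b) ?_ ?_ ?_ ?_
    · intro b hb
      rw [mem_range] at hb
      rw [mem_filter, mem_range]
      refine ⟨?_, dvd_mul_right _ _⟩
      rw [hk]
      exact Nat.mul_lt_mul_of_pos_left hb hd0
    · intro a _ b _ h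
      exact Nat.eq_of_mul_eq_mul_left hd0 h
    · intro a ha
      rw [mem_filter, mem_range] at ha
      obtain ⟨b, hb⟩ := ha.2
      refine ⟨b, ?_, hb.symm⟩
      rw [mem_range]
      rw [hb, hk] at ha
      exact Nat.lt_of_mul_lt_mul_left ha.1
    · intro b _
      congr 2
      rw [hk]
      have : (d : ℝ) ≠ 0 := by exact_mod_cast hd0.ne'
      have : (k : ℝ) ≠ 0 := by exact_mod_cast hk0.ne'
      push_cast
      field_simp
  rw [sum_congr rfl h3]
  rw [← Nat.sum_div_divisors q (fun d => (ArithmeticFunction.moebius d : ℂ)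
    * (if ((q / d : ℕ) : ℤ) ∣ m then ((q / d : ℕ) : ℂ) else 0))]
  unfold cq
  rw [sum_filter, Complex.ofReal_sum]
  refine sum_congr rfl fun d hd => ?_
  rw [Nat.mem_divisors] at hd
  have h4 : q / (q / d) = d := Nat.div_div_self hd.1 hd.2
  simp only [h4]
  split_ifs with h
  · push_cast
    ring
  · simp

/-- `c_q` is even. -/
theorem cq_neg (q : ℕ) (m : ℤ) : cq q (-m) = cq q m := by
  unfold cq
  simp only [dvd_neg]

end Pool.Agent.Lib.H68T
end

-- from Lib.H68T.CQ2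
section

/-!
# Chunk CQ2; part of CQ: Ramanujan sums
-/

open Finset

namespace Pool.Agent.Lib.H68T



/-- product of `P/(P-1)` over a finite set of integers `≥ 2` -/
theorem CQ2_prod (S : Finset ℕ) (hS : ∀ p ∈ S, 2 ≤ p) :
    ∏ p ∈ S, ((p : ℝ) / (p - 1)) ≤ S.card + 1 := by
  induction S using Finset.induction_on_max with
  | empty => simp
  | insert P s hmax ih =>
    have hP : P ∉ s := fun h => lt_irrefl _ (hmax P h)
    rw [prod_insert hP, card_insert_of_notMem hP]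
    have h1 := ih fun p hp => hS p (mem_insert_of_mem hp)
    have h2 : 2 ≤ P := hS P (mem_insert_self _ _)
    have h3 : s.card + 1 ≤ P - 1 := by
      have h4 : s ⊆ Ico 2 P := by
        intro p hp
        rw [mem_Ico]
        exact ⟨hS p (mem_insert_of_mem hp), hmax p hp⟩
      have h5 := card_le_card h4
      rw [Nat.card_Ico] at h5
      omega
    have h6 : ((s.card : ℝ) + 1) ≤ (P : ℝ) - 1 := by
      have : ((s.card + 1 : ℕ) : ℝ) ≤ ((P - 1 : ℕ) : ℝ) := by exact_mod_cast h3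
      rw [Nat.cast_sub (by omega)] at this
      push_cast at this
      exact this
    have h7 : (0 : ℝ) < s.card + 1 := by positivity
    have h8 : (P : ℝ) / (P - 1) ≤ (s.card + 1 + 1) / (s.card + 1) := by
      rw [div_le_div_iff₀ (by linarith) h7]
      nlinarith
    calc (P : ℝ) / (P - 1) * ∏ p ∈ s, ((p : ℝ) / (p - 1))
        ≤ (s.card + 1 + 1) / (s.card + 1) * (s.card + 1) := by
          apply mul_le_mul h8 h1 _ (by positivity)
          exact prod_nonneg fun p hp => by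
            have : (2 : ℝ) ≤ p := by exact_mod_cast hS p (mem_insert_of_mem hp)
            apply div_nonneg <;> linarith
      _ = ((s.card + 1 : ℕ) : ℝ) + 1 := by
          rw [div_mul_cancel₀ _ h7.ne']
          push_cast
          ring

theorem CQ2_card (q : ℕ) (hq : 0 < q) : (q.primeFactors.card : ℝ) ≤ 3 / 2 * Real.log q := by
  have h1 : 2 ^ q.primeFactors.card ≤ q := by
    have h2 : ∏ p ∈ q.primeFactors, 2 ≤ ∏ p ∈ q.primeFactors, p :=
      prod_le_prod' fun p hp => (Nat.prime_of_mem_primeFactors hp).two_le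
    rw [prod_const] at h2
    exact h2.trans (Nat.le_of_dvd hq (Nat.prod_primeFactors_dvd q))
  have h3 : (2 : ℝ) ^ q.primeFactors.card ≤ q := by exact_mod_cast h1
  have h4 := Real.log_le_log (by positivity) h3
  rw [Real.log_pow] at h4
  have h5 := Real.log_two_gt_d9
  have h6 : (0 : ℝ) ≤ q.primeFactors.card := by positivity
  nlinarith

theorem CQ2_ratio (q : ℕ) (hq : 0 < q) : (1 : ℝ) / Nat.totient q ≤ 3 / 2 * (1 + Real.log q) / q := by
  have hq' : (0 : ℝ) < q := by exact_mod_cast hq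
  have h1 : (Nat.totient q : ℝ) = q * ∏ p ∈ q.primeFactors, (1 - (p : ℝ)⁻¹) := by
    have := Nat.totient_eq_mul_prod_factors q
    have h2 : ((Nat.totient q : ℚ) : ℝ) = ((q * ∏ p ∈ q.primeFactors, (1 - (p : ℚ)⁻¹) : ℚ) : ℝ) := by
      rw [this]
    push_cast at h2
    exact h2
  have h2 : (∏ p ∈ q.primeFactors, ((p : ℝ) / (p - 1))) * ∏ p ∈ q.primeFactors, (1 - (p : ℝ)⁻¹) = 1 := by
    rw [← prod_mul_distrib]
    refine prod_eq_one fun p hp => ?_
    have h3 : (2 : ℝ) ≤ p := by exact_mod_cast (Nat.prime_of_mem_primeFactors hp).two_le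
    have h4 : (p : ℝ) ≠ 0 := by linarith
    have h5 : (p : ℝ) - 1 ≠ 0 := by intro h; linarith
    field_simp
  have h3 := CQ2_prod q.primeFactors fun p hp => (Nat.prime_of_mem_primeFactors hp).two_le
  have h4 := CQ2_card q hq
  have h5 : 0 < (Nat.totient q : ℝ) := by exact_mod_cast Nat.totient_pos.2 hq
  have h6 : 0 ≤ Real.log q := Real.log_natCast_nonneg q
  have h7 : (q : ℝ) / Nat.totient q = ∏ p ∈ q.primeFactors, ((p : ℝ) / (p - 1)) := by
    rw [div_eq_iff h5.ne', h1]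
    calc (q : ℝ) = q * ((∏ p ∈ q.primeFactors, ((p : ℝ) / (p - 1))) *
          ∏ p ∈ q.primeFactors, (1 - (p : ℝ)⁻¹)) := by rw [h2, mul_one]
      _ = _ := by ring
  rw [div_le_div_iff₀ h5 hq']
  have h8 : (q : ℝ) / Nat.totient q ≤ 3 / 2 * (1 + Real.log q) := by
    rw [h7]
    linarith
  rw [div_le_iff₀ h5] at h8
  linarith

/-- `∑_{q ≤ Q} 1/φ(q) ≤ 10 (1 + log Q)^2` (crude). For instance
`q/φ(q) = ∑_{d ∣ q} μ²(d)/φ(d)` and `φ(d) ≥ c d/(1 + log d)`, or
`q/φ(q) = ∏_{p ∣ q} (1 + 1/(p-1)) ≤ 4 (1 + log q)` etc. Any constant instead of `10` is fine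
as long as it is absolute. -/
theorem sum_inv_totient (Q : ℕ) :
    ∑ q ∈ Icc 1 Q, (1 : ℝ) / Nat.totient q ≤ 10 * (1 + Real.log Q) ^ 2 := by
  have h0 : 0 ≤ Real.log Q := Real.log_natCast_nonneg Q
  have h1 : ∑ q ∈ Icc 1 Q, (1 : ℝ) / Nat.totient q
      ≤ ∑ q ∈ Icc 1 Q, 3 / 2 * (1 + Real.log Q) * (1 / q) := by
    refine sum_le_sum fun q hq => ?_
    rw [mem_Icc] at hq
    have hq' : (0 : ℝ) < q := by exact_mod_cast hq.1
    refine (CQ2_ratio q hq.1).trans ?_
    rw [div_eq_mul_one_div]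
    apply mul_le_mul_of_nonneg_right _ (by positivity)
    have : Real.log q ≤ Real.log Q := Real.log_le_log hq' (by exact_mod_cast hq.2)
    linarith
  rw [← mul_sum] at h1
  have h2 : ∑ q ∈ Icc 1 Q, (1 : ℝ) / q ≤ 1 + Real.log Q := by
    have h3 := harmonic_le_one_add_log Q
    have h4 : ((harmonic Q : ℚ) : ℝ) = ∑ q ∈ Icc 1 Q, (1 : ℝ) / q := by
      rw [harmonic_eq_sum_Icc]
      push_cast
      exact sum_congr rfl fun q _ => by rw [one_div]
    rw [← h4]
    exact h3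
  refine h1.trans ?_
  calc 3 / 2 * (1 + Real.log Q) * ∑ q ∈ Icc 1 Q, (1 : ℝ) / q
      ≤ 3 / 2 * (1 + Real.log Q) * (1 + Real.log Q) :=
        mul_le_mul_of_nonneg_left h2 (by positivity)
    _ ≤ 10 * (1 + Real.log Q) ^ 2 := by nlinarith


end Pool.Agent.Lib.H68T
end

-- from Lib.H68T.CG1
section

/-!
# Chunk CG1: correlations of the model `G` along a class
-/

open Finset

namespace Pool.Agent.Lib.H68T

/-! ### Counting -/

theorem cg1_count_mod (M L v : ℕ) (hL : 0 < L) :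
    |((((range M).filter (fun c => c ≡ v [MOD L])).card : ℕ) : ℝ) - (M : ℝ) / L| ≤ 1 := by
  rw [← Nat.count_eq_card_filter_range, Nat.count_modEq_card _ hL]
  have hL' : (0 : ℝ) < L := by exact_mod_cast hL
  have h1 : (M : ℝ) / L = ((M / L : ℕ) : ℝ) + ((M % L : ℕ) : ℝ) / L := by
    have : (M : ℝ) = ((L * (M / L) + M % L : ℕ) : ℝ) := by rw [Nat.div_add_mod]
    rw [this]
    push_cast
    field_simp
  have h2 : ((M % L : ℕ) : ℝ) / L < 1 := by
    rw [div_lt_one hL']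
    exact_mod_cast Nat.mod_lt _ hL
  have h3 : 0 ≤ ((M % L : ℕ) : ℝ) / L := by positivity
  rw [h1, Nat.cast_add, abs_le]
  split_ifs <;> constructor <;> push_cast <;> linarith

theorem cg1_count (d₁ d₂ W b s s' M : ℕ) (hd₁ : 0 < d₁) (hd₂ : 0 < d₂)
    (h₁ : Nat.Coprime d₁ W) (h₂ : Nat.Coprime d₂ W) :
    |((((range M).filter (fun c : ℕ => (d₁ : ℤ) ∣ (b : ℤ) + W * (s + c : ℕ) ∧
      (d₂ : ℤ) ∣ (b : ℤ) + W * (s' + c : ℕ))).card : ℕ) : ℝ) -
      (if ((Nat.gcd d₁ d₂ : ℕ) : ℤ) ∣ (s : ℤ) - s' then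
        (M : ℝ) * (Nat.gcd d₁ d₂ : ℝ) / ((d₁ : ℝ) * d₂) else 0)| ≤ 1 := by
  have hc₁ : IsCoprime (d₁ : ℤ) (W : ℤ) := Nat.isCoprime_iff_coprime.mpr h₁
  have hc₂ : IsCoprime (d₂ : ℤ) (W : ℤ) := Nat.isCoprime_iff_coprime.mpr h₂
  by_cases hex : ∃ c₀ : ℕ, (d₁ : ℤ) ∣ (b : ℤ) + W * (s + c₀ : ℕ) ∧
      (d₂ : ℤ) ∣ (b : ℤ) + W * (s' + c₀ : ℕ)
  · obtain ⟨c₀, e₁, e₂⟩ := hex
    have hg : ((Nat.gcd d₁ d₂ : ℕ) : ℤ) ∣ (s : ℤ) - s' := by
      have hg1 : ((Nat.gcd d₁ d₂ : ℕ) : ℤ) ∣ (d₁ : ℤ) :=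
        Int.natCast_dvd_natCast.mpr (Nat.gcd_dvd_left _ _)
      have hg2 : ((Nat.gcd d₁ d₂ : ℕ) : ℤ) ∣ (d₂ : ℤ) :=
        Int.natCast_dvd_natCast.mpr (Nat.gcd_dvd_right _ _)
      have h3 : ((Nat.gcd d₁ d₂ : ℕ) : ℤ) ∣ (W : ℤ) * ((s : ℤ) - s') := by
        have := dvd_sub (hg1.trans e₁) (hg2.trans e₂)
        have h4 : (b : ℤ) + W * (s + c₀ : ℕ) - ((b : ℤ) + W * (s' + c₀ : ℕ)) =
            (W : ℤ) * ((s : ℤ) - s') := by push_cast; ring
        rwa [h4] at this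
      exact (IsCoprime.of_isCoprime_of_dvd_left hc₁ hg1).dvd_of_dvd_mul_left h3
    rw [if_pos hg]
    have hset : (range M).filter (fun c : ℕ => (d₁ : ℤ) ∣ (b : ℤ) + W * (s + c : ℕ) ∧
        (d₂ : ℤ) ∣ (b : ℤ) + W * (s' + c : ℕ)) =
        (range M).filter (fun c => c ≡ c₀ [MOD (Nat.lcm d₁ d₂)]) := by
      apply filter_congr
      intro c _
      have key : ∀ (d t : ℕ), IsCoprime (d : ℤ) (W : ℤ) → (d : ℤ) ∣ (b : ℤ) + W * (t + c₀ : ℕ) →
          ((d : ℤ) ∣ (b : ℤ) + W * (t + c : ℕ) ↔ (d : ℤ) ∣ (c : ℤ) - c₀) := by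
        intro d t hc hd
        have h5 : (b : ℤ) + W * (t + c : ℕ) = ((b : ℤ) + W * (t + c₀ : ℕ)) +
            (W : ℤ) * ((c : ℤ) - c₀) := by push_cast; ring
        rw [h5, dvd_add_right hd]
        exact ⟨fun h => hc.dvd_of_dvd_mul_left h, fun h => dvd_mul_of_dvd_right h _⟩
      rw [key d₁ s hc₁ e₁, key d₂ s' hc₂ e₂, Nat.ModEq.comm, ← Int.natCast_modEq_iff,
        Int.modEq_iff_dvd]
      rw [Int.natCast_dvd, Int.natCast_dvd, Int.natCast_dvd, Nat.lcm_dvd_iff]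
    rw [hset]
    have hl : 0 < Nat.lcm d₁ d₂ := Nat.lcm_pos hd₁ hd₂
    have h6 := cg1_count_mod M (Nat.lcm d₁ d₂) c₀ hl
    have h7 : (M : ℝ) * (Nat.gcd d₁ d₂ : ℝ) / ((d₁ : ℝ) * d₂) = (M : ℝ) / (Nat.lcm d₁ d₂ : ℕ) := by
      have h8 : ((d₁ : ℝ) * d₂) = (Nat.gcd d₁ d₂ : ℝ) * (Nat.lcm d₁ d₂ : ℕ) := by
        exact_mod_cast (Nat.gcd_mul_lcm d₁ d₂).symm
      have h9 : (0 : ℝ) < (Nat.gcd d₁ d₂ : ℝ) := by
        exact_mod_cast Nat.gcd_pos_of_pos_left _ hd₁
      have h10 : (0 : ℝ) < (Nat.lcm d₁ d₂ : ℕ) := by exact_mod_cast hl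
      rw [h8]
      field_simp
    rw [h7]
    exact h6
  · have hg : ¬ ((Nat.gcd d₁ d₂ : ℕ) : ℤ) ∣ (s : ℤ) - s' := by
      rintro ⟨t, ht⟩
      apply hex
      have hcc : IsCoprime ((d₁ : ℤ) * d₂) (W : ℤ) := hc₁.mul_left hc₂
      obtain ⟨x, u, hu⟩ := hcc
      -- x * (d₁ d₂) + u * W = 1
      have hbz := Nat.gcd_eq_gcd_ab d₁ d₂
      set y₁ := Nat.gcdA d₁ d₂
      set y₂ := Nat.gcdB d₁ d₂
      set c : ℤ := -(b * u) - s + d₁ * y₁ * t with hc
      have hpos : (0 : ℤ) < (d₁ : ℤ) * d₂ := by positivity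
      refine ⟨(c % ((d₁ : ℤ) * d₂)).toNat, ?_, ?_⟩
      · have hcn : ((c % ((d₁ : ℤ) * d₂)).toNat : ℤ) = c - ((d₁ : ℤ) * d₂) * (c / ((d₁ : ℤ) * d₂)) := by
          rw [Int.toNat_of_nonneg (Int.emod_nonneg _ hpos.ne')]
          exact Int.emod_def _ _
        have : (b : ℤ) + W * (s + (c % ((d₁ : ℤ) * d₂)).toNat : ℕ) =
            d₁ * (b * x * d₂ + W * y₁ * t - W * d₂ * (c / ((d₁ : ℤ) * d₂))) := by
          rw [Nat.cast_add, hcn]
          have : (b : ℤ) = b * (x * (d₁ * d₂) + u * W) := by rw [hu]; ring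
          linear_combination this + W * hc
        rw [this]
        exact dvd_mul_right _ _
      · have hcn : ((c % ((d₁ : ℤ) * d₂)).toNat : ℤ) = c - ((d₁ : ℤ) * d₂) * (c / ((d₁ : ℤ) * d₂)) := by
          rw [Int.toNat_of_nonneg (Int.emod_nonneg _ hpos.ne')]
          exact Int.emod_def _ _
        have : (b : ℤ) + W * (s' + (c % ((d₁ : ℤ) * d₂)).toNat : ℕ) =
            d₂ * (b * x * d₁ - W * y₂ * t - W * d₁ * (c / ((d₁ : ℤ) * d₂))) := by
          rw [Nat.cast_add, hcn]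
          have h0 : (b : ℤ) = b * (x * (d₁ * d₂) + u * W) := by rw [hu]; ring
          linear_combination h0 + W * hc - W * ht - W * t * hbz
        rw [this]
        exact dvd_mul_right _ _
    rw [if_neg hg]
    have hempty : (range M).filter (fun c : ℕ => (d₁ : ℤ) ∣ (b : ℤ) + W * (s + c : ℕ) ∧
        (d₂ : ℤ) ∣ (b : ℤ) + W * (s' + c : ℕ)) = ∅ := by
      rw [filter_eq_empty_iff]
      intro c _ h
      exact hex ⟨c, h⟩
    rw [hempty]
    simp

/-! ### Möbius inversion -/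

theorem cg1_moebius (f g : ℕ → ℝ) (h : ∀ n > 0, ∑ i ∈ n.divisors, f i = g n) (n : ℕ) (hn : 0 < n) :
    ∑ d ∈ n.divisors, (ArithmeticFunction.moebius (n / d) : ℝ) * g d = f n := by
  have h1 := (ArithmeticFunction.sum_eq_iff_sum_mul_moebius_eq.mp h) n hn
  rw [Nat.sum_divisorsAntidiagonal' (fun i j => (ArithmeticFunction.moebius i : ℝ) * g j)] at h1
  exact h1

theorem cg1_indicator (e n : ℕ) (hn : 0 < n) :
    ∑ d ∈ n.divisors, (ArithmeticFunction.moebius (n / d) : ℝ) * (if e ∣ d then 1 else 0) =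
      if n = e then 1 else 0 := by
  apply cg1_moebius (fun i => if i = e then 1 else 0) (fun d => if e ∣ d then 1 else 0) _ n hn
  intro m hm
  rw [sum_ite_eq' m.divisors e (fun _ => (1 : ℝ))]
  simp [Nat.mem_divisors, hm.ne']

theorem cg1_cq_sum (n : ℕ) (hn : 0 < n) (D : ℤ) :
    ∑ e ∈ n.divisors, cq e D = if (n : ℤ) ∣ D then (n : ℝ) else 0 := by
  revert n
  rw [ArithmeticFunction.sum_eq_iff_sum_mul_moebius_eq
    (f := fun e => cq e D) (g := fun n : ℕ => if (n : ℤ) ∣ D then (n : ℝ) else 0)]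
  intro n hn
  rw [Nat.sum_divisorsAntidiagonal' (fun i j : ℕ => (ArithmeticFunction.moebius i : ℝ) *
    (if (j : ℤ) ∣ D then (j : ℝ) else 0))]
  unfold cq
  rw [sum_filter]
  apply sum_congr rfl
  intro d _
  split_ifs <;> ring

theorem cg1_pair_sum (r₁ r₂ : ℕ) (h₁ : 0 < r₁) (h₂ : 0 < r₂) (D : ℤ) :
    ∑ d₁ ∈ r₁.divisors, ∑ d₂ ∈ r₂.divisors, (ArithmeticFunction.moebius (r₁ / d₁) : ℝ) *
      (ArithmeticFunction.moebius (r₂ / d₂) : ℝ) *
      (if ((Nat.gcd d₁ d₂ : ℕ) : ℤ) ∣ D then (Nat.gcd d₁ d₂ : ℝ) else 0) =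
    if r₁ = r₂ then cq r₁ D else 0 := by
  have hexp : ∀ d₁ ∈ r₁.divisors, ∀ d₂ ∈ r₂.divisors,
      (if ((Nat.gcd d₁ d₂ : ℕ) : ℤ) ∣ D then (Nat.gcd d₁ d₂ : ℝ) else 0) =
      ∑ e ∈ r₁.divisors, cq e D * (if e ∣ d₁ then 1 else 0) * (if e ∣ d₂ then 1 else 0) := by
    intro d₁ hd₁ d₂ hd₂
    have hd₁' : 0 < d₁ := Nat.pos_of_mem_divisors hd₁
    rw [← cg1_cq_sum (Nat.gcd d₁ d₂) (Nat.gcd_pos_of_pos_left _ hd₁') D]
    have hsub : (Nat.gcd d₁ d₂).divisors = r₁.divisors.filter (fun e => e ∣ d₁ ∧ e ∣ d₂) := by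
      ext e
      simp only [Nat.mem_divisors, mem_filter, Nat.dvd_gcd_iff]
      constructor
      · rintro ⟨⟨a, b⟩, -⟩
        exact ⟨⟨a.trans (Nat.dvd_of_mem_divisors hd₁), h₁.ne'⟩, a, b⟩
      · rintro ⟨-, a, b⟩
        exact ⟨⟨a, b⟩, (Nat.gcd_pos_of_pos_left _ hd₁').ne'⟩
    rw [hsub, sum_filter]
    apply sum_congr rfl
    intro e _
    by_cases a : e ∣ d₁ <;> by_cases b : e ∣ d₂ <;> simp [a, b]
  calc ∑ d₁ ∈ r₁.divisors, ∑ d₂ ∈ r₂.divisors, (ArithmeticFunction.moebius (r₁ / d₁) : ℝ) *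
      (ArithmeticFunction.moebius (r₂ / d₂) : ℝ) *
      (if ((Nat.gcd d₁ d₂ : ℕ) : ℤ) ∣ D then (Nat.gcd d₁ d₂ : ℝ) else 0)
      = ∑ d₁ ∈ r₁.divisors, ∑ d₂ ∈ r₂.divisors, ∑ e ∈ r₁.divisors,
        (ArithmeticFunction.moebius (r₁ / d₁) : ℝ) *
        (ArithmeticFunction.moebius (r₂ / d₂) : ℝ) *
        (cq e D * (if e ∣ d₁ then 1 else 0) * (if e ∣ d₂ then 1 else 0)) := by
        apply sum_congr rfl
        intro d₁ hd₁
        apply sum_congr rfl
        intro d₂ hd₂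
        rw [hexp d₁ hd₁ d₂ hd₂, mul_sum]
    _ = ∑ e ∈ r₁.divisors, cq e D *
        ((∑ d₁ ∈ r₁.divisors, (ArithmeticFunction.moebius (r₁ / d₁) : ℝ) * (if e ∣ d₁ then 1 else 0)) *
        (∑ d₂ ∈ r₂.divisors, (ArithmeticFunction.moebius (r₂ / d₂) : ℝ) *
          (if e ∣ d₂ then 1 else 0))) := by
        rw [sum_congr rfl (fun d₁ _ => sum_comm), sum_comm]
        apply sum_congr rfl
        intro e _
        rw [sum_mul_sum, mul_sum]
        apply sum_congr rfl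
        intro d₁ _
        rw [mul_sum]
        apply sum_congr rfl
        intro d₂ _
        ring
    _ = ∑ e ∈ r₁.divisors, cq e D * ((if r₁ = e then 1 else 0) * (if r₂ = e then 1 else 0)) := by
        apply sum_congr rfl
        intro e _
        rw [cg1_indicator e r₁ h₁, cg1_indicator e r₂ h₂]
    _ = if r₁ = r₂ then cq r₁ D else 0 := by
        rw [sum_eq_single r₁]
        · by_cases h : r₁ = r₂
          · simp [h]
          · simp [h, Ne.symm h]
        · intro e _ he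
          simp [Ne.symm he]
        · intro h
          exact absurd (Nat.mem_divisors_self r₁ h₁.ne') h

/-! ### Correlations of Ramanujan sums along a class -/

theorem cg1_abs_moebius_le (n : ℕ) : |(ArithmeticFunction.moebius n : ℝ)| ≤ 1 := by
  exact_mod_cast ArithmeticFunction.abs_moebius_le_one (n := n)

theorem cg1_corr (r₁ r₂ W b s s' M : ℕ) (h₁ : 0 < r₁) (h₂ : 0 < r₂)
    (c₁ : Nat.Coprime r₁ W) (c₂ : Nat.Coprime r₂ W) :
    |∑ c ∈ range M, cq r₁ ((b : ℤ) + W * (s + c : ℕ)) * cq r₂ ((b : ℤ) + W * (s' + c : ℕ)) -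
      M * (if r₁ = r₂ then cq r₁ ((s : ℤ) - s') else 0)| ≤
      (∑ d ∈ r₁.divisors, (d : ℝ)) * ∑ d ∈ r₂.divisors, (d : ℝ) := by
  have hA : ∑ c ∈ range M, cq r₁ ((b : ℤ) + W * (s + c : ℕ)) * cq r₂ ((b : ℤ) + W * (s' + c : ℕ)) =
      ∑ d₁ ∈ r₁.divisors, ∑ d₂ ∈ r₂.divisors, (ArithmeticFunction.moebius (r₁ / d₁) : ℝ) *
      (ArithmeticFunction.moebius (r₂ / d₂) : ℝ) * ((d₁ : ℝ) * d₂) *
      ((((range M).filter (fun c : ℕ => (d₁ : ℤ) ∣ (b : ℤ) + W * (s + c : ℕ) ∧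
      (d₂ : ℤ) ∣ (b : ℤ) + W * (s' + c : ℕ))).card : ℕ) : ℝ) := by
    have h3 : ∀ c ∈ range M, cq r₁ ((b : ℤ) + W * (s + c : ℕ)) * cq r₂ ((b : ℤ) + W * (s' + c : ℕ)) =
        ∑ d₁ ∈ r₁.divisors, ∑ d₂ ∈ r₂.divisors, (ArithmeticFunction.moebius (r₁ / d₁) : ℝ) *
        (ArithmeticFunction.moebius (r₂ / d₂) : ℝ) * ((d₁ : ℝ) * d₂) *
        (if (d₁ : ℤ) ∣ (b : ℤ) + W * (s + c : ℕ) ∧
          (d₂ : ℤ) ∣ (b : ℤ) + W * (s' + c : ℕ) then 1 else 0) := by
      intro c _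
      unfold cq
      rw [sum_filter, sum_filter, sum_mul_sum]
      apply sum_congr rfl
      intro d₁ _
      apply sum_congr rfl
      intro d₂ _
      by_cases a : (d₁ : ℤ) ∣ (b : ℤ) + W * (s + c : ℕ) <;>
        by_cases a' : (d₂ : ℤ) ∣ (b : ℤ) + W * (s' + c : ℕ)
      · rw [if_pos a, if_pos a', if_pos ⟨a, a'⟩]; ring
      · rw [if_neg a', mul_zero, if_neg (fun h : _ ∧ _ => a' h.2), mul_zero]
      · rw [if_neg a, zero_mul, if_neg (fun h : _ ∧ _ => a h.1), mul_zero]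
      · rw [if_neg a, zero_mul, if_neg (fun h : _ ∧ _ => a h.1), mul_zero]
    rw [sum_congr rfl h3, sum_comm]
    apply sum_congr rfl
    intro d₁ _
    rw [sum_comm]
    apply sum_congr rfl
    intro d₂ _
    rw [← mul_sum, card_filter]
    push_cast
    rfl
  have hB : (M : ℝ) * (if r₁ = r₂ then cq r₁ ((s : ℤ) - s') else 0) =
      ∑ d₁ ∈ r₁.divisors, ∑ d₂ ∈ r₂.divisors, (ArithmeticFunction.moebius (r₁ / d₁) : ℝ) *
      (ArithmeticFunction.moebius (r₂ / d₂) : ℝ) * ((d₁ : ℝ) * d₂) *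
      (if ((Nat.gcd d₁ d₂ : ℕ) : ℤ) ∣ (s : ℤ) - s' then
        (M : ℝ) * (Nat.gcd d₁ d₂ : ℝ) / ((d₁ : ℝ) * d₂) else 0) := by
    rw [← cg1_pair_sum r₁ r₂ h₁ h₂, mul_sum]
    apply sum_congr rfl
    intro d₁ hd₁
    rw [mul_sum]
    apply sum_congr rfl
    intro d₂ hd₂
    have e₁ : (0 : ℝ) < d₁ := by exact_mod_cast Nat.pos_of_mem_divisors hd₁
    have e₂ : (0 : ℝ) < d₂ := by exact_mod_cast Nat.pos_of_mem_divisors hd₂
    split_ifs
    · field_simp
    · ring
  rw [hA, hB, ← sum_sub_distrib, sum_mul_sum]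
  refine (abs_sum_le_sum_abs _ _).trans (sum_le_sum fun d₁ hd₁ => ?_)
  rw [← sum_sub_distrib]
  refine (abs_sum_le_sum_abs _ _).trans (sum_le_sum fun d₂ hd₂ => ?_)
  rw [← mul_sub, abs_mul, abs_mul, abs_mul]
  have e₁ : 0 < d₁ := Nat.pos_of_mem_divisors hd₁
  have e₂ : 0 < d₂ := Nat.pos_of_mem_divisors hd₂
  have i₁ : Nat.Coprime d₁ W := Nat.Coprime.coprime_dvd_left (Nat.dvd_of_mem_divisors hd₁) c₁
  have i₂ : Nat.Coprime d₂ W := Nat.Coprime.coprime_dvd_left (Nat.dvd_of_mem_divisors hd₂) c₂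
  have h5 := cg1_count d₁ d₂ W b s s' M e₁ e₂ i₁ i₂
  have h6 : |(d₁ : ℝ) * d₂| = (d₁ : ℝ) * d₂ := abs_of_nonneg (by positivity)
  rw [h6]
  have h7 := cg1_abs_moebius_le (r₁ / d₁)
  have h8 := cg1_abs_moebius_le (r₂ / d₂)
  have h9 : |(ArithmeticFunction.moebius (r₁ / d₁) : ℝ)| *
      |(ArithmeticFunction.moebius (r₂ / d₂) : ℝ)| ≤ 1 :=
    mul_le_one₀ h7 (abs_nonneg _) h8
  calc _ ≤ 1 * ((d₁ : ℝ) * d₂) * 1 := by
        apply mul_le_mul _ h5 (abs_nonneg _) (by positivity)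
        exact mul_le_mul_of_nonneg_right h9 (by positivity)
    _ = (d₁ : ℝ) * d₂ := by ring



















theorem cg1_class_coprime {W b : ℕ} (hb : Nat.Coprime b W) (t : ℕ) :
    IsCoprime ((b : ℤ) + W * (t : ℕ)) (W : ℤ) := by
  have h : IsCoprime (b : ℤ) (W : ℤ) := Nat.isCoprime_iff_coprime.mpr hb
  exact IsCoprime.add_mul_left_left h _


end Pool.Agent.Lib.H68T
end

-- from Lib.H68T.V1
section

/-!
# Chunk V1: type I sums
-/

open Finset

namespace Pool.Agent.Lib.H68T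


/-- For `2 d ≤ q` the multiple `d θ` is at distance at least `1/(2q)` from the integers. -/
theorem V1_nd_ge {θ : ℝ} {q : ℕ} {a : ℤ} (hco : IsCoprime a (q : ℤ))
    (hθ : |θ - a / q| ≤ 1 / (q : ℝ) ^ 2) {d : ℕ} (hd : 1 ≤ d) (hdq : 2 * d ≤ q) :
    1 / (2 * q : ℝ) ≤ nd (d * θ) := by
  have hq' : (0 : ℝ) < q := by
    have : 0 < q := by omega
    exact_mod_cast this
  set m : ℤ := round ((d : ℝ) * θ) with hm
  have h1 : (1 : ℝ) ≤ |(d : ℝ) * a - m * q| := by
    have h2 : (d : ℤ) * a - m * q ≠ 0 := by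
      intro h
      have h3 : (q : ℤ) ∣ (d : ℤ) * a := ⟨m, by linarith [mul_comm m (q : ℤ)]⟩
      have h4 : (q : ℤ) ∣ (d : ℤ) := (hco.symm).dvd_of_dvd_mul_right h3
      have h5 := Int.le_of_dvd (by omega) h4
      omega
    have h3 : (1 : ℤ) ≤ |(d : ℤ) * a - m * q| := Int.one_le_abs h2
    have h4 : ((1 : ℤ) : ℝ) ≤ ((|(d : ℤ) * a - m * q| : ℤ) : ℝ) := by exact_mod_cast h3
    push_cast at h4
    exact h4
  have h2 : |(d : ℝ) * a - m * q| ≤ q * nd (d * θ) + d / q := by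
    have e1 : (d : ℝ) * a - m * q = q * ((d : ℝ) * θ - m) - d * (q * (θ - a / q)) := by
      field_simp
      ring
    rw [e1]
    refine (abs_sub _ _).trans ?_
    rw [abs_mul, abs_of_pos hq', abs_mul, abs_mul, abs_of_pos hq', abs_of_nonneg (by positivity :
      (0 : ℝ) ≤ d)]
    have e2 : (q : ℝ) * |θ - a / q| ≤ 1 / q := by
      calc (q : ℝ) * |θ - a / q| ≤ q * (1 / (q : ℝ) ^ 2) :=
            mul_le_mul_of_nonneg_left hθ hq'.le
        _ = 1 / q := by field_simp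
    have e3 : (d : ℝ) * (q * |θ - a / q|) ≤ d / q := by
      calc (d : ℝ) * (q * |θ - a / q|) ≤ d * (1 / q) := by gcongr
        _ = d / q := by ring
    unfold nd
    rw [← hm]
    linarith
  have h3 : (d : ℝ) / q ≤ 1 / 2 := by
    rw [div_le_div_iff₀ hq' (by norm_num)]
    have : ((2 * d : ℕ) : ℝ) ≤ q := by exact_mod_cast hdq
    push_cast at this
    linarith
  rw [div_le_iff₀ (by positivity)]
  linarith

/-- **Type I.** For `A ≤ N` and any intervals `[u_a, v_a)` of length at most `N/a`: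
`∑_{a ≤ A} |∑_{n ∈ [u_a, v_a)} e(a n θ)| ≤ C (N/q + A + q) (log N)²`. Split `a` dyadically,
`a ∈ [2^j, 2^(j+1))`: each inner sum is at most `min (N/2^j, 1/(2‖aθ‖))`, and `block` gives
`C (2^j/q + 1)(N/2^j + q log 2q)`; sum over `j ≤ log A/log 2`. This loses the term `N` from small
`j` when `2^j < q`: for `a ≤ q/2` one has `‖aθ‖ ≥ 1/(2q)`, and the values `aθ` are `1/(2q)`-spaced,
so `∑_{a ≤ q/2} 1/‖aθ‖ ≤ C q log q`; use `block` only for `2^j ≥ q/4`, where `1 ≤ 4·2^j/q`. -/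
theorem type_one : ∃ C : ℝ, 0 < C ∧ ∀ (θ : ℝ) (q : ℕ) (a : ℤ), 1 ≤ q → IsCoprime a (q : ℤ) →
    |θ - a / q| ≤ 1 / (q : ℝ) ^ 2 → ∀ (N A : ℕ), 2 ≤ N → q ≤ N → A ≤ N → ∀ (u v : ℕ → ℤ),
    (∀ d, u d ≤ v d) → (∀ d, (v d - u d : ℝ) ≤ N / d + 1) →
    ∑ d ∈ Icc 1 A, ‖∑ n ∈ Ico (u d) (v d), e (d * n * θ)‖ ≤
      C * ((N : ℝ) / q + A + q) * (Real.log N) ^ 2 := by
  obtain ⟨C, hC, hblock⟩ := block
  refine ⟨2 * (24 + 50 * C), by positivity, ?_⟩
  intro θ q a hq hco hθ N A hN hqN hAN u v huv hlen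
  have hq' : (0 : ℝ) < q := by exact_mod_cast hq
  have hN' : (2 : ℝ) ≤ N := by exact_mod_cast hN
  have hN0 : (0 : ℝ) < N := by linarith
  have hlogN : Real.log 2 ≤ Real.log N := Real.log_le_log (by norm_num) hN'
  have hlog2 := Real.log_two_gt_d9
  have hlog2' := Real.log_two_lt_d9
  have hL : 1 ≤ 2 * Real.log N := by linarith
  have hlog2q : Real.log (2 * q) ≤ 2 * Real.log N := by
    rw [Real.log_mul (by norm_num) hq'.ne']
    have : Real.log q ≤ Real.log N := Real.log_le_log hq' (by exact_mod_cast hqN)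
    linarith
  have hlog2q0 : 0 ≤ Real.log (2 * q) := Real.log_nonneg (by
    have : (1 : ℝ) ≤ q := by exact_mod_cast hq
    linarith)
  set F : ℕ → ℝ := fun d => ‖∑ n ∈ Ico (u d) (v d), e (d * n * θ)‖ with hF
  have hF0 : ∀ d, 0 ≤ F d := fun d => norm_nonneg _
  have hgeo : ∀ d : ℕ, F d ≤ N / d + 1 ∧ F d * (2 * nd (d * θ)) ≤ 1 := by
    intro d
    have h1 : ∑ n ∈ Ico (u d) (v d), e (d * n * θ) = ∑ n ∈ Ico (u d) (v d), e (n * (d * θ)) := by
      refine Finset.sum_congr rfl fun n _ => ?_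
      congr 1
      ring
    obtain ⟨h2, h3⟩ := geo_le (u d) (v d) (huv d) ((d : ℝ) * θ)
    rw [← h1] at h2 h3
    exact ⟨h2.trans (hlen d), h3⟩
  have hFf : ∀ (d : ℕ) (B : ℝ), F d ≤ B → F d ≤ VB_f B (d * θ) := by
    intro d B hdB
    unfold VB_f
    split_ifs with h0
    · exact hdB
    · refine le_min hdB ?_
      have hpos : 0 < nd (d * θ) := lt_of_le_of_ne (VB_nd_nonneg _) (Ne.symm h0)
      rw [le_div_iff₀ (by positivity)]
      exact (hgeo d).2
  -- split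
  have hsplit : ∑ d ∈ Icc 1 A, F d = ∑ d ∈ (Icc 1 A).filter (fun d => 2 * d ≤ q), F d +
      ∑ d ∈ (Icc 1 A).filter (fun d => ¬ 2 * d ≤ q), F d :=
    (Finset.sum_filter_add_sum_filter_not _ _ _).symm
  -- part 1
  have hpart1 : ∑ d ∈ (Icc 1 A).filter (fun d => 2 * d ≤ q), F d ≤ 24 * (q * Real.log N) := by
    have h1 : ∀ d ∈ (Icc 1 A).filter (fun d => 2 * d ≤ q), F d ≤ VB_f q (((d : ℤ) : ℝ) * θ) := by
      intro d hd
      rw [mem_filter, mem_Icc] at hd
      have h2 := V1_nd_ge hco hθ hd.1.1 hd.2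
      have hpos : 0 < nd (d * θ) := lt_of_lt_of_le (by positivity) h2
      have h3 : F d ≤ q := by
        have h4 := (hgeo d).2
        have h5 : F d ≤ 1 / (2 * nd (d * θ)) := by
          rw [le_div_iff₀ (by positivity)]
          exact h4
        refine h5.trans ?_
        rw [div_le_iff₀ (by positivity)]
        rw [div_le_iff₀ (by positivity)] at h2
        linarith
      have := hFf d q h3
      push_cast
      exact this
    refine (Finset.sum_le_sum h1).trans ?_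
    have h2 : ∑ d ∈ (Icc 1 A).filter (fun d => 2 * d ≤ q), VB_f q (((d : ℤ) : ℝ) * θ) ≤
        ∑ n ∈ Ico (1 : ℤ) (1 + q), VB_f q (n * θ) := by
      rw [← Finset.sum_image (f := fun n : ℤ => VB_f q ((n : ℝ) * θ))
        (g := fun d : ℕ => (d : ℤ)) (s := (Icc 1 A).filter (fun d => 2 * d ≤ q))
        (fun x _ y _ h => Nat.cast_injective h)]
      refine Finset.sum_le_sum_of_subset_of_nonneg ?_ (fun n _ _ => VB_f_nonneg (by positivity) _)
      intro n hn
      rw [mem_image] at hn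
      obtain ⟨d, hd, rfl⟩ := hn
      rw [mem_filter, mem_Icc] at hd
      rw [mem_Ico]
      omega
    refine h2.trans ?_
    have h3 := VB_one hq hco hθ 1 (B := (q : ℝ)) (by positivity)
    refine h3.trans ?_
    have h4 := VB_one_add_log_le hq
    nlinarith
  -- part 2
  have hpart2 : ∑ d ∈ (Icc 1 A).filter (fun d => ¬ 2 * d ≤ q), F d ≤
      C * (30 * (N / q) + 20 * A) * Real.log N := by
    rcases Nat.eq_zero_or_pos A with hA0 | hA0
    · subst hA0
      simp only [Nat.cast_zero]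
      have : (Icc 1 0).filter (fun d => ¬ 2 * d ≤ q) = ∅ := by simp
      rw [this, Finset.sum_empty]
      have : 0 ≤ Real.log N := by linarith
      positivity
    set J := Nat.log 2 A with hJ
    have hmaps : ∀ d ∈ (Icc 1 A).filter (fun d => ¬ 2 * d ≤ q), Nat.log 2 d ∈ range (J + 1) := by
      intro d hd
      rw [mem_filter, mem_Icc] at hd
      rw [mem_range]
      have := Nat.log_mono_right (b := 2) hd.1.2
      omega
    rw [← Finset.sum_fiberwise_of_maps_to hmaps]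
    have hj : ∀ j ∈ range (J + 1), ∑ d ∈ ((Icc 1 A).filter (fun d => ¬ 2 * d ≤ q)).filter
        (fun d => Nat.log 2 d = j), F d ≤ C * (10 * (N / q) + 10 * 2 ^ j * Real.log N) := by
      intro j hj
      rw [mem_range] at hj
      have h2j : 2 ^ j ≤ A := by
        calc 2 ^ j ≤ 2 ^ J := Nat.pow_le_pow_right (by norm_num) (by omega)
          _ ≤ A := Nat.pow_log_le_self 2 (by omega)
      have h2jN : ((2 : ℝ) ^ j) ≤ N := by
        have : 2 ^ j ≤ N := h2j.trans hAN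
        exact_mod_cast this
      have h2j0 : (0 : ℝ) < 2 ^ j := by positivity
      have hBge : (1 : ℝ) ≤ N / 2 ^ j + 1 := by
        have : (0 : ℝ) ≤ N / 2 ^ j := by positivity
        linarith
      rcases (((Icc 1 A).filter (fun d => ¬ 2 * d ≤ q)).filter
        (fun d => Nat.log 2 d = j)).eq_empty_or_nonempty with h0 | ⟨d0, hd0⟩
      · rw [h0, Finset.sum_empty]
        have : 0 ≤ Real.log N := by linarith
        positivity
      rw [mem_filter, mem_filter, mem_Icc] at hd0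
      obtain ⟨⟨⟨hd1, hd2⟩, hd3⟩, hd4⟩ := hd0
      have hq4 : (q : ℝ) ≤ 4 * 2 ^ j := by
        have h1 : d0 < 2 ^ (j + 1) := by
          rw [← hd4]
          exact Nat.lt_pow_succ_log_self (by norm_num) d0
        have h2 : q ≤ 4 * 2 ^ j := by
          rw [pow_succ] at h1
          omega
        exact_mod_cast h2
      have h1 : ∑ d ∈ ((Icc 1 A).filter (fun d => ¬ 2 * d ≤ q)).filter
        (fun d => Nat.log 2 d = j), F d ≤
          ∑ n ∈ Ico ((2 ^ j : ℕ) : ℤ) (((2 ^ j : ℕ) : ℤ) + (2 ^ j : ℕ)),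
            VB_f (N / 2 ^ j + 1) (n * θ) := by
        have h2 : ∀ d ∈ ((Icc 1 A).filter (fun d => ¬ 2 * d ≤ q)).filter
            (fun d => Nat.log 2 d = j), F d ≤ VB_f (N / 2 ^ j + 1) (((d : ℤ) : ℝ) * θ) := by
          intro d hd
          rw [mem_filter, mem_filter, mem_Icc] at hd
          obtain ⟨⟨⟨he1, he2⟩, he3⟩, he4⟩ := hd
          have h3 : 2 ^ j ≤ d := by
            rw [← he4]
            exact Nat.pow_log_le_self 2 (by omega)
          have h3' : (2 : ℝ) ^ j ≤ d := by exact_mod_cast h3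
          have h4 : F d ≤ N / 2 ^ j + 1 := by
            refine (hgeo d).1.trans ?_
            gcongr
          have := hFf d _ h4
          push_cast
          exact this
        refine (Finset.sum_le_sum h2).trans ?_
        rw [← Finset.sum_image (f := fun n : ℤ => VB_f (N / 2 ^ j + 1) ((n : ℝ) * θ))
          (g := fun d : ℕ => (d : ℤ)) (s := ((Icc 1 A).filter (fun d => ¬ 2 * d ≤ q)).filter
            (fun d => Nat.log 2 d = j)) (fun x _ y _ h => Nat.cast_injective h)]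
        refine Finset.sum_le_sum_of_subset_of_nonneg ?_
          (fun n _ _ => VB_f_nonneg (by linarith) _)
        intro n hn
        rw [mem_image] at hn
        obtain ⟨d, hd, rfl⟩ := hn
        rw [mem_filter, mem_filter, mem_Icc] at hd
        obtain ⟨⟨⟨he1, he2⟩, he3⟩, he4⟩ := hd
        have h3 : 2 ^ j ≤ d := by
          rw [← he4]
          exact Nat.pow_log_le_self 2 (by omega)
        have h4 : d < 2 ^ (j + 1) := by
          rw [← he4]
          exact Nat.lt_pow_succ_log_self (by norm_num) d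
        rw [pow_succ] at h4
        rw [mem_Ico]
        omega
      refine h1.trans ((hblock θ q a hq hco hθ _ _ _ hBge).trans ?_)
      have h5 : ((2 ^ j : ℕ) : ℝ) / q + 1 ≤ 5 * 2 ^ j / q := by
        push_cast
        rw [le_div_iff₀ hq', add_mul, div_mul_cancel₀ _ hq'.ne']
        linarith
      have h6 : (N : ℝ) / 2 ^ j + 1 + q * Real.log (2 * q) ≤ 2 * (N / 2 ^ j) + q * (2 * Real.log N) := by
        have e1 : (1 : ℝ) ≤ N / 2 ^ j := by
          rw [le_div_iff₀ h2j0]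
          linarith
        have e2 : (q : ℝ) * Real.log (2 * q) ≤ q * (2 * Real.log N) := by gcongr
        linarith
      have h7 : 0 ≤ (N : ℝ) / 2 ^ j + 1 + q * Real.log (2 * q) := by positivity
      calc C * (((2 ^ j : ℕ) : ℝ) / q + 1) * (N / 2 ^ j + 1 + q * Real.log (2 * q))
          ≤ C * (5 * 2 ^ j / q) * (2 * (N / 2 ^ j) + q * (2 * Real.log N)) := by
            refine mul_le_mul (mul_le_mul_of_nonneg_left h5 hC.le) h6 h7 (by positivity)
        _ = C * (10 * (N / q) + 10 * 2 ^ j * Real.log N) := by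
            field_simp
            ring
    refine (Finset.sum_le_sum hj).trans ?_
    rw [← Finset.mul_sum, Finset.sum_add_distrib, Finset.sum_const, card_range, nsmul_eq_mul]
    have hgeom : ∑ j ∈ range (J + 1), (10 * (2 : ℝ) ^ j * Real.log N) ≤ 20 * A * Real.log N := by
      have h1 : ∑ j ∈ range (J + 1), (2 : ℝ) ^ j ≤ 2 * A := by
        have h2 : ∑ j ∈ range (J + 1), (2 : ℝ) ^ j = 2 ^ (J + 1) - 1 := by
          rw [geom_sum_eq (by norm_num)]
          norm_num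
        rw [h2]
        have h3 : 2 ^ J ≤ A := Nat.pow_log_le_self 2 (by omega)
        have h4 : ((2 : ℝ) ^ J) ≤ A := by exact_mod_cast h3
        rw [pow_succ]
        linarith
      have h3 : ∑ j ∈ range (J + 1), (10 * (2 : ℝ) ^ j * Real.log N) =
          10 * Real.log N * ∑ j ∈ range (J + 1), (2 : ℝ) ^ j := by
        rw [Finset.mul_sum]
        exact Finset.sum_congr rfl fun j _ => by ring
      rw [h3]
      have h4 : 0 ≤ Real.log N := by linarith
      nlinarith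
    have hJ1 : ((J + 1 : ℕ) : ℝ) ≤ 3 * Real.log N := by
      have h1 : 2 ^ J ≤ N := (Nat.pow_log_le_self 2 (by omega)).trans hAN
      have h2 : ((2 : ℝ) ^ J) ≤ N := by exact_mod_cast h1
      have h3 : (J : ℝ) * Real.log 2 ≤ Real.log N := by
        rw [← Real.log_pow]
        exact Real.log_le_log (by positivity) h2
      push_cast
      nlinarith
    have hNq : 0 ≤ (N : ℝ) / q := by positivity
    have hlogN0 : 0 ≤ Real.log N := by linarith
    have h8 : ((J + 1 : ℕ) : ℝ) * (10 * (N / q)) ≤ 3 * Real.log N * (10 * (N / q)) :=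
      mul_le_mul_of_nonneg_right hJ1 (by positivity)
    calc C * (((J + 1 : ℕ) : ℝ) * (10 * (N / q)) + ∑ j ∈ range (J + 1), (10 * (2 : ℝ) ^ j * Real.log N))
        ≤ C * (3 * Real.log N * (10 * (N / q)) + 20 * A * Real.log N) := by
          refine mul_le_mul_of_nonneg_left (add_le_add h8 hgeom) hC.le
      _ = C * (30 * (N / q) + 20 * A) * Real.log N := by ring
  change ∑ d ∈ Icc 1 A, F d ≤ _
  rw [hsplit]
  have hlogN0 : 0 ≤ Real.log N := by linarith
  have hNq : 0 ≤ (N : ℝ) / q := by positivity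
  have hA0 : (0 : ℝ) ≤ A := by positivity
  have htot : 24 * (q * Real.log N) + C * (30 * (N / q) + 20 * A) * Real.log N ≤
      (24 + 50 * C) * (N / q + A + q) * Real.log N := by
    have h1 : 24 * (q : ℝ) + C * (30 * (N / q) + 20 * A) ≤ (24 + 50 * C) * (N / q + A + q) := by
      have e1 : 0 ≤ C * (N / q) := by positivity
      have e2 : 0 ≤ C * A := by positivity
      have e3 : 0 ≤ C * (q : ℝ) := by positivity
      nlinarith
    calc 24 * (q * Real.log N) + C * (30 * (N / q) + 20 * A) * Real.log N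
        = (24 * (q : ℝ) + C * (30 * (N / q) + 20 * A)) * Real.log N := by ring
      _ ≤ _ := mul_le_mul_of_nonneg_right h1 hlogN0
  refine (add_le_add hpart1 hpart2).trans (htot.trans ?_)
  have h2 : Real.log N ≤ 2 * (Real.log N) ^ 2 := by nlinarith
  calc (24 + 50 * C) * (N / q + A + q) * Real.log N
      ≤ (24 + 50 * C) * (N / q + A + q) * (2 * (Real.log N) ^ 2) := by
        refine mul_le_mul_of_nonneg_left h2 (by positivity)
    _ = _ := by ring

end Pool.Agent.Lib.H68T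
end
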