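import Pool.Agent.Lib.H59M.M2.M006

/-! Merged copies (to shorten the build) of Lib.H68T.GL2, Lib.H68T.LAB1, Lib.H68T.LAB2. -/

-- from Lib.H68T.GL2
section

/-!
# Chunk GL2; part of GL: growth of L-functions and zeta
-/

open Finset

namespace Pool.Agent.Lib.H68T

/-- the terms of the continuation of `(s-1) ζ(s) - 1` -/
noncomputable def gl2_B (n : ℕ) (s : ℂ) : ℂ :=
  (s - 1) * (((n : ℝ) + 1 : ℝ) : ℂ) ^ (-s) +
    ((((n : ℝ) + 2 : ℝ) : ℂ) ^ (-(s - 1)) - (((n : ℝ) + 1 : ℝ) : ℂ) ^ (-(s - 1)))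

theorem gl2_aux (s : ℂ) (a : ℝ) (ha : 0 < a) (D : ℝ)
    (hD : ∀ x ∈ Set.Icc a (a + 1), ‖(x : ℂ) ^ (-s) - (a : ℂ) ^ (-s)‖ ≤ D) :
    ‖(s - 1) * (a : ℂ) ^ (-s) + (((a + 1 : ℝ) : ℂ) ^ (-(s - 1)) - (a : ℂ) ^ (-(s - 1)))‖ ≤
      ‖s - 1‖ * D := by
  have hpos : ∀ x ∈ Set.Icc a (a + 1), 0 < x := fun x hx => lt_of_lt_of_le ha hx.1
  have key := norm_image_sub_le_of_norm_deriv_le_segment'
    (f := fun x : ℝ => (s - 1) * (a : ℂ) ^ (-s) * (x : ℂ) + (x : ℂ) ^ (-(s - 1)))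
    (a := a) (b := a + 1) (f' := fun x => (s - 1) * (a : ℂ) ^ (-s) * 1 +
      -(s - 1) * (x : ℂ) ^ (-(s - 1) - 1)) (C := ‖s - 1‖ * D) ?_ ?_ (a + 1) ⟨by linarith, le_rfl⟩
  · have e1 : a + 1 - a = 1 := by ring
    rw [e1, mul_one] at key
    refine le_trans (le_of_eq ?_) key
    congr 1
    push_cast
    ring
  · intro x hx
    apply HasDerivAt.hasDerivWithinAt
    apply HasDerivAt.add
    · exact (Complex.ofRealCLM.hasDerivAt (x := x)).const_mul _
    · exact gl1_hasDerivAt (s - 1) (hpos x hx)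
  · intro x hx
    have h1 : (s - 1) * (a : ℂ) ^ (-s) * 1 + -(s - 1) * (x : ℂ) ^ (-(s - 1) - 1) =
        (s - 1) * ((a : ℂ) ^ (-s) - (x : ℂ) ^ (-s)) := by
      have e : -(s - 1) - 1 = -s := by ring
      rw [e]
      ring
    rw [h1, norm_mul, norm_sub_rev ((a : ℂ) ^ (-s))]
    exact mul_le_mul_of_nonneg_left (hD x ⟨hx.1, hx.2.le⟩) (norm_nonneg _)

theorem gl2_B_norm (n : ℕ) (s : ℂ) (hs : 0 < s.re) : ‖gl2_B n s‖ ≤
    ‖s - 1‖ * ‖s‖ / s.re * (((n : ℝ) + 1) ^ (-s.re) - ((n : ℝ) + 2) ^ (-s.re)) := by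
  have h1 := gl2_aux s ((n : ℝ) + 1) (by positivity)
    (‖s‖ / s.re * (((n : ℝ) + 1) ^ (-s.re) - ((n : ℝ) + 2) ^ (-s.re))) (by
      intro x hx
      refine (gl1_diff s hs (by positivity) hx.1).trans ?_
      refine mul_le_mul_of_nonneg_left ?_ (by positivity)
      have h2 : ((n : ℝ) + 2) ^ (-s.re) ≤ x ^ (-s.re) := by
        apply Real.rpow_le_rpow_of_nonpos
        · have : 0 < (n : ℝ) + 1 := by positivity
          linarith [hx.1]
        · linarith [hx.2]
        · linarith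
      linarith)
  have e : (n : ℝ) + 1 + 1 = (n : ℝ) + 2 := by ring
  rw [e] at h1
  rw [gl2_B]
  refine h1.trans (le_of_eq ?_)
  ring

theorem gl2_B_norm' (n : ℕ) (s : ℂ) (hs : 0 < s.re) : ‖gl2_B n s‖ ≤
    ‖s - 1‖ * ‖s‖ * ((n : ℝ) + 1) ^ (-s.re - 1) := by
  have h1 := gl2_aux s ((n : ℝ) + 1) (by positivity)
    (‖s‖ * ((n : ℝ) + 1) ^ (-s.re - 1)) (by
      intro x hx
      refine (gl1_diff' s hs (by positivity) hx.1).trans ?_
      have h2 : 0 ≤ ‖s‖ * ((n : ℝ) + 1) ^ (-s.re - 1) := by positivity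
      have h3 : x - ((n : ℝ) + 1) ≤ 1 := by linarith [hx.2]
      nlinarith)
  have e : (n : ℝ) + 1 + 1 = (n : ℝ) + 2 := by ring
  rw [e] at h1
  rw [gl2_B]
  refine h1.trans (le_of_eq ?_)
  ring

theorem gl2_eq (s : ℂ) (hs : 1 < s.re) : (s - 1) * riemannZeta s = 1 + ∑' n, gl2_B n s := by
  have hs0 : 0 < s.re := by linarith
  have hsumB := (gl1_tele s.re hs0 (‖s - 1‖ * ‖s‖ / s.re) (by positivity) (fun n => gl2_B n s)
    (fun n => gl2_B_norm n s hs0)).1
  have h1 : Summable fun n : ℕ => 1 / ((n : ℂ) + 1) ^ s := by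
    have h2 := Complex.summable_one_div_nat_cpow.2 hs
    have h3 := (summable_nat_add_iff 1).2 h2
    simpa using h3
  have h2 : Filter.Tendsto (fun K => ∑ n ∈ range K, 1 / ((n : ℂ) + 1) ^ s) Filter.atTop
      (nhds (riemannZeta s)) := by
    rw [zeta_eq_tsum_one_div_nat_add_one_cpow hs]
    exact h1.hasSum.tendsto_sum_nat
  have h3 : Filter.Tendsto (fun K : ℕ => (((K : ℝ) + 1 : ℝ) : ℂ) ^ (-(s - 1))) Filter.atTop
      (nhds 0) := by
    have h6 : Filter.Tendsto (fun K : ℕ => ((K : ℝ) + 1) ^ (-(s.re - 1))) Filter.atTop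
        (nhds 0) := by
      have h7 := tendsto_rpow_neg_atTop (y := s.re - 1) (by linarith)
      have h8 : Filter.Tendsto (fun K : ℕ => (K : ℝ) + 1) Filter.atTop Filter.atTop :=
        Filter.tendsto_atTop_add_const_right _ _ tendsto_natCast_atTop_atTop
      exact h7.comp h8
    refine squeeze_zero_norm (fun K => ?_) h6
    rw [Complex.norm_cpow_eq_rpow_re_of_pos (by positivity)]
    simp
  have h4 : ∀ K : ℕ, ∑ n ∈ range K, gl2_B n s = (s - 1) * ∑ n ∈ range K, 1 / ((n : ℂ) + 1) ^ s +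
      ((((K : ℝ) + 1 : ℝ) : ℂ) ^ (-(s - 1)) - 1) := by
    intro K
    induction K with
    | zero => simp
    | succ K ih =>
      rw [sum_range_succ, sum_range_succ, ih, gl2_B]
      have e1 : (((K : ℝ) + 1 : ℝ) : ℂ) ^ (-s) = 1 / ((K : ℂ) + 1) ^ s := by
        rw [Complex.cpow_neg, one_div]
        push_cast
        rfl
      have e2 : (((K + 1 : ℕ) : ℝ) + 1 : ℝ) = (K : ℝ) + 2 := by
        push_cast
        ring
      rw [e1, e2]
      ring
  have h5 : Filter.Tendsto (fun K => ∑ n ∈ range K, gl2_B n s) Filter.atTop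
      (nhds ((s - 1) * riemannZeta s + (0 - 1))) := by
    refine ((h2.const_mul (s - 1)).add (h3.sub_const 1)).congr fun K => ?_
    rw [h4]
  have h6 := tendsto_nhds_unique hsumB.hasSum.tendsto_sum_nat h5
  rw [h6]
  ring

/-- `(s-1) ζ(s)`, the entire function -/
noncomputable def gl2_Z : ℂ → ℂ := DirichletCharacter.LFunctionTrivChar₁ 1

theorem gl2_Z_differentiable : Differentiable ℂ gl2_Z :=
  DirichletCharacter.differentiable_LFunctionTrivChar₁ 1

theorem gl2_Z_eq (s : ℂ) (hs : s ≠ 1) : gl2_Z s = (s - 1) * riemannZeta s := by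
  unfold gl2_Z
  rw [DirichletCharacter.LFunctionTrivChar₁, Function.update_of_ne hs,
    DirichletCharacter.LFunctionTrivChar, DirichletCharacter.LFunction_modOne_eq]

theorem gl2_Z_one : gl2_Z 1 = 1 := by
  unfold gl2_Z
  rw [DirichletCharacter.LFunctionTrivChar₁, Function.update_self]
  simp

theorem gl2_eqOn (s : ℂ) (hs : 0 < s.re) : gl2_Z s = 1 + ∑' n, gl2_B n s := by
  have hop : IsOpen {s : ℂ | 0 < s.re} := isOpen_lt continuous_const Complex.continuous_re
  have h1 : AnalyticOnNhd ℂ (fun s => 1 + ∑' n, gl2_B n s) {s | 0 < s.re} := by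
    apply DifferentiableOn.analyticOnNhd _ hop
    refine DifferentiableOn.const_add 1 ?_
    apply gl1_analytic
    · intro n
      unfold gl2_B
      have h : ∀ (x : ℝ) (a : ℂ), 0 < x → Differentiable ℂ fun s : ℂ => (x : ℂ) ^ (-(s - a)) := by
        intro x a hx s
        refine DifferentiableAt.const_cpow ((differentiableAt_id.sub_const a).neg) (Or.inl ?_)
        exact_mod_cast hx.ne'
      have h0 : ∀ (x : ℝ), 0 < x → Differentiable ℂ fun s : ℂ => (x : ℂ) ^ (-s) := by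
        intro x hx
        simpa using h x 0 hx
      exact ((differentiable_id.sub_const 1).mul (h0 _ (by positivity))).add
        ((h _ 1 (by positivity)).sub (h _ 1 (by positivity)))
    · intro R
      refine ⟨(|R| + 1) * |R|, fun n s hs hR => ?_⟩
      refine (gl2_B_norm' n s hs).trans ?_
      apply mul_le_mul_of_nonneg_right _ (Real.rpow_nonneg (by positivity) _)
      have hR' : ‖s‖ ≤ |R| := hR.trans (le_abs_self R)
      have h2 : ‖s - 1‖ ≤ |R| + 1 := by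
        refine (norm_sub_le _ _).trans ?_
        rw [norm_one]
        linarith
      exact mul_le_mul h2 hR' (norm_nonneg _) (by positivity)
  have h2 : AnalyticOnNhd ℂ gl2_Z {s | 0 < s.re} :=
    (gl2_Z_differentiable.differentiableOn).analyticOnNhd hop
  have h3 : IsPreconnected {s : ℂ | 0 < s.re} :=
    (convex_halfSpace_re_gt 0).isPreconnected
  have h4 := h2.eqOn_of_preconnected_of_eventuallyEq h1 h3 (z₀ := 2) (by simp) ?_
  · exact h4 hs
  · have h5 : {s : ℂ | 1 < s.re} ∈ nhds (2 : ℂ) :=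
      (isOpen_lt continuous_const Complex.continuous_re).mem_nhds (by simp)
    filter_upwards [h5] with s hs
    have hs' : 1 < s.re := hs
    rw [gl2_Z_eq s (by rintro rfl; simp at hs'), gl2_eq s hs]

theorem gl2_Z_bound (s : ℂ) (h1 : 1 / 2 ≤ s.re) (h3 : s.re ≤ 3) :
    ‖gl2_Z s‖ ≤ 4 * (|s.im| + 3) ^ 2 := by
  have hs0 : 0 < s.re := by linarith
  rw [gl2_eqOn s hs0]
  have h4 := (gl1_tele s.re hs0 (‖s - 1‖ * ‖s‖ / s.re) (by positivity) (fun n => gl2_B n s)
    (fun n => gl2_B_norm n s hs0)).2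
  have h5 : ‖s‖ ≤ |s.im| + 3 := by
    refine (Complex.norm_le_abs_re_add_abs_im s).trans ?_
    rw [abs_of_pos hs0]
    linarith
  have h6 : ‖s - 1‖ ≤ |s.im| + 4 := by
    refine (norm_sub_le _ _).trans ?_
    rw [norm_one]
    linarith
  have h7 : ‖s - 1‖ * ‖s‖ / s.re ≤ 2 * ((|s.im| + 4) * (|s.im| + 3)) := by
    rw [div_le_iff₀ hs0]
    have h8 : ‖s - 1‖ * ‖s‖ ≤ (|s.im| + 4) * (|s.im| + 3) :=
      mul_le_mul h6 h5 (norm_nonneg _) (by positivity)
    have h9 : 0 ≤ (|s.im| + 4) * (|s.im| + 3) := by positivity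
    nlinarith
  have h8 : ‖1 + ∑' n, gl2_B n s‖ ≤ 1 + 2 * ((|s.im| + 4) * (|s.im| + 3)) := by
    refine (norm_add_le _ _).trans ?_
    rw [norm_one]
    linarith
  have h9 : 0 ≤ |s.im| := abs_nonneg _
  nlinarith


end Pool.Agent.Lib.H68T
end

-- from Lib.H68T.LAB1
section

/-!
# Chunk LAB1; part of LAB: real parts of logarithmic derivatives
-/

open Finset ArithmeticFunction

namespace Pool.Agent.Lib.H68T

/-! ### The series of the von Mangoldt function and the logarithmic derivatives -/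

theorem lab1_zeta (s : ℂ) (hs : 1 < s.re) :
    LSeries (fun n => (vonMangoldt n : ℂ)) s = - logDeriv riemannZeta s := by
  rw [logDeriv_apply, ← neg_div]
  exact ArithmeticFunction.LSeries_vonMangoldt_eq_deriv_riemannZeta_div hs

theorem lab1_Z (s : ℂ) (hs : 1 < s.re) :
    LSeries (fun n => (vonMangoldt n : ℂ)) s = 1 / (s - 1) - logDeriv gl2_Z s := by
  have hs1 : s ≠ 1 := by
    rintro rfl
    simp at hs
  have hz : riemannZeta s ≠ 0 := riemannZeta_ne_zero_of_one_le_re hs.le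
  have h1 : gl2_Z =ᶠ[nhds s] fun z => (z - 1) * riemannZeta z := by
    filter_upwards [isOpen_compl_singleton.mem_nhds (show s ∈ ({1}ᶜ : Set ℂ) from hs1)] with z hz
    exact gl2_Z_eq z hz
  have h2 := (logDeriv_congr_nhds h1).eq_of_nhds
  rw [h2, logDeriv_mul (f := fun z : ℂ => z - 1) (g := riemannZeta) s (sub_ne_zero.2 hs1) hz
    (by fun_prop) (differentiableAt_riemannZeta hs1), lab1_zeta s hs]
  have h3 : logDeriv (fun z : ℂ => z - 1) s = 1 / (s - 1) := by
    rw [logDeriv_apply]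
    simp
  rw [h3]
  ring

theorem lab1_char (N : ℕ) [NeZero N] (χ : DirichletCharacter ℂ N) (s : ℂ) (hs : 1 < s.re) :
    LSeries (fun n => (vonMangoldt n : ℂ) * χ (n : ZMod N)) s = - logDeriv χ.LFunction s := by
  have h1 := DirichletCharacter.LSeries_twist_vonMangoldt_eq χ hs
  have h2 : (fun n : ℕ => (vonMangoldt n : ℂ) * χ (n : ZMod N)) =
      (fun n : ℕ => χ (n : ZMod N)) * fun n : ℕ => (vonMangoldt n : ℂ) := by
    funext n
    simp [mul_comm]
  rw [h2, h1, logDeriv_apply, DirichletCharacter.deriv_LFunction_eq_deriv_LSeries χ hs,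
    DirichletCharacter.LFunction_eq_LSeries χ hs, neg_div]

theorem lab1_term_norm (N : ℕ) (χ : DirichletCharacter ℂ N) (s : ℂ) (n : ℕ) :
    ‖LSeries.term (fun n => (vonMangoldt n : ℂ) * χ (n : ZMod N)) s n‖ ≤
      ‖LSeries.term (fun n => (vonMangoldt n : ℂ)) s n‖ := by
  apply LSeries.norm_term_le
  rw [norm_mul]
  calc ‖(vonMangoldt n : ℂ)‖ * ‖χ (n : ZMod N)‖ ≤ ‖(vonMangoldt n : ℂ)‖ * 1 :=
        mul_le_mul_of_nonneg_left (DirichletCharacter.norm_le_one χ _) (norm_nonneg _)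
    _ = _ := mul_one _

theorem lab1_term_re (s : ℂ) (n : ℕ) :
    ‖LSeries.term (fun n => (vonMangoldt n : ℂ)) s n‖ =
      (LSeries.term (fun n => (vonMangoldt n : ℂ)) s.re n).re := by
  rcases Nat.eq_zero_or_pos n with rfl | hn
  · simp
  · rw [LSeries.term_of_ne_zero hn.ne', LSeries.term_of_ne_zero hn.ne', norm_div,
      Complex.norm_natCast_cpow_of_pos hn, Complex.norm_real, Real.norm_of_nonneg
      vonMangoldt_nonneg]
    have h1 : ((n : ℂ) ^ ((s.re : ℝ) : ℂ)) = (((n : ℝ) ^ s.re : ℝ) : ℂ) := by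
      rw [Complex.ofReal_cpow (Nat.cast_nonneg n)]
      simp
    rw [h1, ← Complex.ofReal_div, Complex.ofReal_re]

/-- `|L_Λχ(s)| ≤ L_Λ(σ)` -/
theorem norm_LSeries_vM_le (N : ℕ) (χ : DirichletCharacter ℂ N) (s : ℂ) (hs : 1 < s.re) :
    ‖LSeries (fun n => (vonMangoldt n : ℂ) * χ (n : ZMod N)) s‖ ≤
      (LSeries (fun n => (vonMangoldt n : ℂ)) s.re).re := by
  have h1 : Summable (LSeries.term (fun n => (vonMangoldt n : ℂ)) s) :=
    ArithmeticFunction.LSeriesSummable_vonMangoldt hs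
  have h2 : Summable (LSeries.term (fun n => (vonMangoldt n : ℂ)) (s.re : ℂ)) :=
    ArithmeticFunction.LSeriesSummable_vonMangoldt (by simpa using hs)
  have h3 : Summable fun n => ‖LSeries.term (fun n => (vonMangoldt n : ℂ) * χ (n : ZMod N)) s n‖ :=
    Summable.of_nonneg_of_le (fun n => norm_nonneg _) (lab1_term_norm N χ s) h1.norm
  have h4 : (LSeries (fun n => (vonMangoldt n : ℂ)) s.re).re =
      ∑' n, (LSeries.term (fun n => (vonMangoldt n : ℂ)) s.re n).re := Complex.re_tsum h2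
  rw [h4]
  refine (norm_tsum_le_tsum_norm h3).trans ?_
  have h5 : (fun n => (LSeries.term (fun n => (vonMangoldt n : ℂ)) s.re n).re) =
      fun n => ‖LSeries.term (fun n => (vonMangoldt n : ℂ)) s n‖ := by
    funext n
    rw [lab1_term_re]
  rw [h5]
  exact Summable.tsum_le_tsum (lab1_term_norm N χ s) h3 h1.norm

/-- `∑ Λ(n) n^(-σ) ≤ 1/(σ-1) + C` for `1 < σ ≤ 2` (`ζ(σ)(σ-1)` is continuous and positive on
`[1, 2]`, Mathlib has `riemannZeta` near `1`; or special case `t = 0`, `S = ∅` of a cruder lemma). -/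
theorem vonMangoldt_le : ∃ C : ℝ, 0 < C ∧ ∀ σ : ℝ, 1 < σ → σ ≤ 2 →
    (LSeries (fun n => (vonMangoldt n : ℂ)) σ).re ≤ 1 / (σ - 1) + C := by
  have hcont : ContinuousOn (fun σ : ℝ => logDeriv gl2_Z (σ : ℂ)) (Set.Icc 1 2) := by
    have h1 := DirichletCharacter.continuousOn_neg_logDeriv_LFunctionTrivChar₁ 1
    have h2 : ContinuousOn (fun σ : ℝ => (σ : ℂ)) (Set.Icc 1 2) :=
      Complex.continuous_ofReal.continuousOn
    have h3 := (h1.comp h2 (fun σ hσ => ?_)).neg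
    · refine h3.congr fun σ _ => ?_
      simp only [logDeriv_apply, Pi.neg_apply, Function.comp_apply, neg_div, neg_neg]
      rfl
    · by_cases h4 : σ = 1
      · left
        rw [h4]
        simp
      · right
        rw [DirichletCharacter.LFunctionTrivChar, DirichletCharacter.LFunction_modOne_eq]
        exact riemannZeta_ne_zero_of_one_le_re (by simpa using hσ.1)
  obtain ⟨C, hC⟩ := (isCompact_Icc.exists_bound_of_continuousOn hcont)
  refine ⟨|C| + 1, by positivity, fun σ h1 h2 => ?_⟩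
  rw [lab1_Z (σ : ℂ) (by simpa using h1), Complex.sub_re]
  have h3 : (1 / ((σ : ℂ) - 1)).re = 1 / (σ - 1) := by
    have : (1 / ((σ : ℂ) - 1)) = ((1 / (σ - 1) : ℝ) : ℂ) := by push_cast; rfl
    rw [this, Complex.ofReal_re]
  rw [h3]
  have h4 := hC σ ⟨h1.le, h2⟩
  have h5 : -(logDeriv gl2_Z (σ : ℂ)).re ≤ ‖logDeriv gl2_Z (σ : ℂ)‖ := by
    have := Complex.abs_re_le_norm (logDeriv gl2_Z (σ : ℂ))
    linarith [neg_abs_le (logDeriv gl2_Z (σ : ℂ)).re]
  linarith [le_abs_self C]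

/-! ### Principal characters -/

theorem lab1_factor (p : ℕ) (hp : 2 ≤ p) (s : ℂ) (hs : 1 < s.re) :
    ‖(p : ℂ) ^ (-s)‖ ≤ 1 / 2 := by
  rw [Complex.norm_natCast_cpow_of_pos (by omega)]
  have h1 : (p : ℝ) ^ (-s).re ≤ (p : ℝ) ^ (-1 : ℝ) := by
    apply Real.rpow_le_rpow_of_exponent_le
    · exact_mod_cast (by omega : 1 ≤ p)
    · simp
      linarith
  refine h1.trans ?_
  rw [Real.rpow_neg_one]
  have h2 : (2 : ℝ) ≤ p := by exact_mod_cast hp
  rw [inv_eq_one_div]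
  exact one_div_le_one_div_of_le (by norm_num) h2

theorem lab1_factor_ne (p : ℕ) (hp : 2 ≤ p) (s : ℂ) (hs : 1 < s.re) :
    1 - (p : ℂ) ^ (-s) ≠ 0 := by
  intro h
  have h1 := lab1_factor p hp s hs
  rw [← sub_eq_zero.1 h, norm_one] at h1
  norm_num at h1

theorem lab1_factor_deriv (p : ℕ) (hp : 2 ≤ p) (s : ℂ) :
    HasDerivAt (fun s : ℂ => 1 - (p : ℂ) ^ (-s)) ((p : ℂ) ^ (-s) * Complex.log p) s := by
  have hp0 : (p : ℂ) ≠ 0 := by
    have : p ≠ 0 := by omega
    exact_mod_cast this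
  have h1 := ((hasDerivAt_id s).neg.const_cpow (c := (p : ℂ)) (Or.inl hp0)).const_sub 1
  have e : -((p : ℂ) ^ (-s) * Complex.log p * -1) = (p : ℂ) ^ (-s) * Complex.log p := by ring
  simp only [Pi.neg_apply, id_eq] at h1
  rw [← e]
  exact h1

theorem lab1_factor_log (p : ℕ) (hp : 2 ≤ p) (s : ℂ) (hs : 1 < s.re) :
    ‖logDeriv (fun s : ℂ => 1 - (p : ℂ) ^ (-s)) s‖ ≤ Real.log p := by
  rw [logDeriv_apply, (lab1_factor_deriv p hp s).deriv, norm_div, norm_mul]
  have h1 := lab1_factor p hp s hs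
  have h2 : 1 / 2 ≤ ‖1 - (p : ℂ) ^ (-s)‖ := by
    have := norm_sub_norm_le (1 : ℂ) ((p : ℂ) ^ (-s))
    rw [norm_one] at this
    linarith
  have h3 : ‖Complex.log p‖ = Real.log p := by
    rw [← Complex.natCast_log, Complex.norm_real, Real.norm_of_nonneg]
    exact Real.log_natCast_nonneg p
  have h4 : 0 ≤ Real.log p := Real.log_natCast_nonneg p
  rw [h3, div_le_iff₀ (by linarith)]
  nlinarith

/-- Principal characters: the Euler factors at `p ∣ r` change `L_Λ` by at most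
`∑_{p ∣ r} log p/(p-1) ≤ log r`. -/
theorem principal_sub (r : ℕ) [NeZero r] (s : ℂ) (hs : 1 < s.re) :
    ‖LSeries (fun n => (vonMangoldt n : ℂ) * (1 : DirichletCharacter ℂ r) (n : ZMod r)) s -
      LSeries (fun n => (vonMangoldt n : ℂ)) s‖ ≤ Real.log r := by
  have hs1 : s ≠ 1 := by
    rintro rfl
    simp at hs
  have hz : riemannZeta s ≠ 0 := riemannZeta_ne_zero_of_one_le_re hs.le
  have hp2 : ∀ p ∈ r.primeFactors, 2 ≤ p := fun p hp => (Nat.prime_of_mem_primeFactors hp).two_le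
  rw [lab1_char r 1 s hs, lab1_zeta s hs]
  have h1 : (1 : DirichletCharacter ℂ r).LFunction =ᶠ[nhds s]
      fun z => (∏ p ∈ r.primeFactors, (1 - (p : ℂ) ^ (-z))) * riemannZeta z := by
    filter_upwards [isOpen_compl_singleton.mem_nhds (show s ∈ ({1}ᶜ : Set ℂ) from hs1)] with z hz
    exact DirichletCharacter.LFunctionTrivChar_eq_mul_riemannZeta hz
  have h2 := (logDeriv_congr_nhds h1).eq_of_nhds
  have hprod : (∏ p ∈ r.primeFactors, (1 - (p : ℂ) ^ (-s))) ≠ 0 :=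
    prod_ne_zero_iff.2 fun p hp => lab1_factor_ne p (hp2 p hp) s hs
  have hdiff : ∀ p ∈ r.primeFactors, DifferentiableAt ℂ (fun z : ℂ => 1 - (p : ℂ) ^ (-z)) s :=
    fun p hp => (lab1_factor_deriv p (hp2 p hp) s).differentiableAt
  have hdiffp : DifferentiableAt ℂ (fun z : ℂ => ∏ p ∈ r.primeFactors, (1 - (p : ℂ) ^ (-z))) s := by
    have := DifferentiableAt.fun_finsetProd hdiff
    exact this
  rw [h2, logDeriv_mul s hprod hz hdiffp (differentiableAt_riemannZeta hs1),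
    logDeriv_prod (fun p hp => lab1_factor_ne p (hp2 p hp) s hs) hdiff]
  have h3 : -((∑ p ∈ r.primeFactors, logDeriv (fun z : ℂ => 1 - (p : ℂ) ^ (-z)) s) +
      logDeriv riemannZeta s) - -logDeriv riemannZeta s =
      -∑ p ∈ r.primeFactors, logDeriv (fun z : ℂ => 1 - (p : ℂ) ^ (-z)) s := by ring
  rw [h3, norm_neg]
  refine (norm_sum_le _ _).trans ?_
  refine (sum_le_sum fun p hp => lab1_factor_log p (hp2 p hp) s hs).trans ?_
  rw [← Real.log_prod (fun p hp => by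
    have := hp2 p hp
    have : p ≠ 0 := by omega
    exact_mod_cast this)]
  apply Real.log_le_log
  · refine prod_pos fun p hp => ?_
    have := hp2 p hp
    exact_mod_cast (by omega : 0 < p)
  · have h4 := Nat.le_of_dvd (Nat.pos_of_ne_zero (NeZero.ne r)) (Nat.prod_primeFactors_dvd r)
    have h5 : ((∏ p ∈ r.primeFactors, p : ℕ) : ℝ) ≤ (r : ℝ) := Nat.cast_le.2 h4
    rw [Nat.cast_prod] at h5
    exact h5

end Pool.Agent.Lib.H68T
end

-- from Lib.H68T.LAB2
section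

/-!
# Chunk LAB2; part of LAB: real parts of logarithmic derivatives
-/

open Finset ArithmeticFunction

namespace Pool.Agent.Lib.H68T

/-- `ζ(σ) ≤ σ/(σ-1)` -/
theorem lab2_zeta_le (σ : ℝ) (hσ : 1 < σ) : ‖riemannZeta (σ : ℂ)‖ ≤ σ / (σ - 1) := by
  have hs : 1 < ((σ : ℂ)).re := by simpa using hσ
  have h1 := gl2_eq (σ : ℂ) hs
  have h2 := (gl1_tele σ (by linarith) (‖(σ : ℂ) - 1‖ * ‖(σ : ℂ)‖ / σ) (by positivity)
    (fun n => gl2_B n (σ : ℂ)) (fun n => by simpa using gl2_B_norm n (σ : ℂ) (by simp; linarith))).2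
  have e1 : ‖(σ : ℂ) - 1‖ = σ - 1 := by
    rw [← Complex.ofReal_one, ← Complex.ofReal_sub, Complex.norm_real, Real.norm_of_nonneg]
    linarith
  have e2 : ‖(σ : ℂ)‖ = σ := by
    rw [Complex.norm_real, Real.norm_of_nonneg]
    linarith
  rw [e1, e2, mul_div_assoc, div_self (by linarith), mul_one] at h2
  have h3 : ‖((σ : ℂ) - 1) * riemannZeta (σ : ℂ)‖ ≤ σ := by
    rw [h1]
    refine (norm_add_le _ _).trans ?_
    rw [norm_one]
    linarith
  rw [norm_mul, e1] at h3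
  rw [le_div_iff₀ (by linarith)]
  linarith

/-- lower bound for `L(s,χ)`, `Re s > 1` -/
theorem lab2_lower (N : ℕ) (χ : DirichletCharacter ℂ N) (s : ℂ) (hs : 1 < s.re) :
    (s.re - 1) / s.re ≤ ‖LSeries (fun n => χ (n : ZMod N)) s‖ := by
  have h1 := DirichletCharacter.LSeries.mul_mu_eq_one χ hs
  have h2 : ‖LSeries ((fun n : ℕ => χ (n : ZMod N)) * fun n : ℕ => ((moebius n : ℤ) : ℂ)) s‖ ≤
      s.re / (s.re - 1) := by
    refine le_trans ?_ (lab2_zeta_le s.re hs)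
    have hs' : 1 < ((s.re : ℂ)).re := by simpa using hs
    have h3 : Summable fun n : ℕ => 1 / ((n : ℝ) + 1) ^ s.re := by
      have h4 := (Real.summable_one_div_nat_rpow (p := s.re)).2 hs
      have h5 := (summable_nat_add_iff 1).2 h4
      simpa using h5
    have hle : ∀ n, ‖LSeries.term ((fun n : ℕ => χ (n : ZMod N)) *
        fun n : ℕ => ((moebius n : ℤ) : ℂ)) s (n + 1)‖ ≤ 1 / ((n : ℝ) + 1) ^ s.re := by
      intro n
      rw [LSeries.term_of_ne_zero (by omega), norm_div,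
        Complex.norm_natCast_cpow_of_pos (by omega)]
      push_cast
      refine div_le_div_of_nonneg_right ?_ (Real.rpow_nonneg (by positivity) _)
      rw [Pi.mul_apply, norm_mul]
      have h6 := DirichletCharacter.norm_le_one χ ((n + 1 : ℕ) : ZMod N)
      have h7 : ‖((moebius (n + 1) : ℤ) : ℂ)‖ ≤ 1 := by
        rw [Complex.norm_intCast]
        exact_mod_cast abs_moebius_le_one
      calc _ ≤ (1 : ℝ) * 1 := mul_le_mul h6 h7 (norm_nonneg _) zero_le_one
        _ = 1 := one_mul _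
    have hsum : Summable fun n => ‖LSeries.term ((fun n : ℕ => χ (n : ZMod N)) *
        fun n : ℕ => ((moebius n : ℤ) : ℂ)) s (n + 1)‖ :=
      Summable.of_nonneg_of_le (fun n => norm_nonneg _) hle h3
    have hL : LSeries ((fun n : ℕ => χ (n : ZMod N)) * fun n : ℕ => ((moebius n : ℤ) : ℂ)) s =
        ∑' n, LSeries.term ((fun n : ℕ => χ (n : ZMod N)) *
          fun n : ℕ => ((moebius n : ℤ) : ℂ)) s (n + 1) := by
      rw [LSeries, ((summable_nat_add_iff 1).1 hsum.of_norm).tsum_eq_zero_add]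
      simp
    have hzeta : ‖riemannZeta (s.re : ℂ)‖ = ∑' n : ℕ, 1 / ((n : ℝ) + 1) ^ s.re := by
      rw [zeta_eq_tsum_one_div_nat_add_one_cpow hs']
      have e : (fun n : ℕ => 1 / ((n : ℂ) + 1) ^ ((s.re : ℝ) : ℂ)) =
          fun n : ℕ => ((1 / ((n : ℝ) + 1) ^ s.re : ℝ) : ℂ) := by
        funext n
        push_cast
        rw [Complex.ofReal_cpow (by positivity)]
        push_cast
        rfl
      rw [e, ← Complex.ofReal_tsum, Complex.norm_real, Real.norm_of_nonneg]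
      exact tsum_nonneg fun n => by positivity
    rw [hL, hzeta]
    exact (norm_tsum_le_tsum_norm hsum).trans (Summable.tsum_le_tsum hle hsum h3)
  have h3 := congrArg norm h1
  rw [norm_mul, norm_one] at h3
  have h4 : 0 < s.re - 1 := by linarith
  have h5 : 0 < s.re := by linarith
  have h6 : 1 ≤ ‖LSeries (fun n => χ (n : ZMod N)) s‖ * (s.re / (s.re - 1)) := by
    exact h3.symm.le.trans (mul_le_mul_of_nonneg_left h2 (norm_nonneg _))
  rw [div_le_iff₀ h5]
  rw [← mul_div_assoc, le_div_iff₀ h4] at h6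
  linarith

/-- the consequence of Landau's lemma used for all L-functions -/
theorem lab2_core : ∃ A : ℝ, 0 < A ∧ ∀ (f : ℂ → ℂ) (s₀ : ℂ) (M : ℝ), 0 ≤ M →
    AnalyticOnNhd ℂ f (Metric.closedBall s₀ (1 / 2)) → f s₀ ≠ 0 →
    (∀ s ∈ Metric.closedBall s₀ (1 / 2), ‖f s‖ ≤ Real.exp M * ‖f s₀‖) →
    (∀ ρ, f ρ = 0 → ρ.re < s₀.re) → ∀ S : Finset ℂ, (∀ ρ ∈ S, f ρ = 0 ∧ ‖ρ - s₀‖ ≤ 1 / 4) →
      -(logDeriv f s₀).re ≤ A * (M + 1) - ∑ ρ ∈ S, (1 / (s₀ - ρ)).re := by
  obtain ⟨A, hA, hlan⟩ := landau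
  refine ⟨2 * A, by positivity, fun f s₀ M hM hf h0 hb hre S hS => ?_⟩
  obtain ⟨Z, hZ1, hZ2, hZ3⟩ := hlan f s₀ (1 / 2) M (by norm_num) hM hf h0 hb
  have h1 := hZ3 s₀ (Metric.mem_closedBall_self (by norm_num)) h0
  have hSZ : S.val ≤ Z := by
    rw [Finset.val_le_iff_val_subset]
    intro ρ hρ
    have h2 := hS ρ hρ
    exact hZ2 ρ (by linarith [h2.2]) h2.1
  obtain ⟨Z', hZ'⟩ := Multiset.le_iff_exists_add.1 hSZ
  have hpos : ∀ ρ ∈ Z, 0 ≤ (1 / (s₀ - ρ)).re := by
    intro ρ hρ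
    have h2 := hre ρ (hZ1 ρ hρ).2
    rw [one_div, Complex.inv_re, Complex.sub_re]
    apply div_nonneg (by linarith) (Complex.normSq_nonneg _)
  have hsum : ((Z.map (fun ρ => 1 / (s₀ - ρ))).sum).re =
      ∑ ρ ∈ S, (1 / (s₀ - ρ)).re + (Z'.map (fun ρ => (1 / (s₀ - ρ)).re)).sum := by
    rw [hZ', Multiset.map_add, Multiset.sum_add, Complex.add_re]
    congr 1
    · change (∑ ρ ∈ S, 1 / (s₀ - ρ)).re = _
      rw [Complex.re_sum]
    · have := (Multiset.sum_hom (Z'.map fun ρ => 1 / (s₀ - ρ)) Complex.reAddGroupHom)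
      rw [Multiset.map_map] at this
      exact this.symm
  have hZ'pos : 0 ≤ (Z'.map (fun ρ => (1 / (s₀ - ρ)).re)).sum := by
    apply Multiset.sum_nonneg
    intro x hx
    obtain ⟨ρ, hρ, rfl⟩ := Multiset.mem_map.1 hx
    exact hpos ρ (by rw [hZ']; exact Multiset.mem_add.2 (Or.inr hρ))
  have h3 : -(deriv f s₀ / f s₀ - (Z.map (fun ρ => 1 / (s₀ - ρ))).sum).re ≤
      A * (M + 1) / (1 / 2) := by
    refine le_trans ?_ h1
    have := Complex.abs_re_le_norm (deriv f s₀ / f s₀ - (Z.map (fun ρ => 1 / (s₀ - ρ))).sum)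
    linarith [neg_abs_le (deriv f s₀ / f s₀ - (Z.map (fun ρ => 1 / (s₀ - ρ))).sum).re]
  rw [Complex.sub_re, hsum] at h3
  rw [logDeriv_apply]
  have e : A * (M + 1) / (1 / 2) = 2 * A * (M + 1) := by ring
  rw [e] at h3
  linarith

/-- **Upper bound for `-Re L'/L`**, `χ ≠ 1` mod `N`, `S` any finite set of zeros near
`s₀ = σ + it`. `landau` with `f = L(·,χ)`, `R = 1/2`: on the disc `‖f‖ ≤ 2N(|t|+3)`
(`LFunction_bound`), `‖f(s₀)‖ ≥ 1/ζ(σ) ≥ (σ-1)/σ`; `LSeries (Λχ) = -f'/f`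
(`DirichletCharacter.LSeries_twist_vonMangoldt_eq`); every zero has real part `< 1`
(`DirichletCharacter.LFunction_ne_zero_of_one_le_re`), so all terms `Re 1/(s₀-ρ)` are positive and
the others can be dropped. -/
theorem re_char : ∃ C : ℝ, 0 < C ∧ ∀ (N : ℕ) [NeZero N] (χ : DirichletCharacter ℂ N), χ ≠ 1 →
    ∀ σ t : ℝ, 1 < σ → σ ≤ 5 / 4 → ∀ S : Finset ℂ,
    (∀ ρ ∈ S, χ.LFunction ρ = 0 ∧ ‖ρ - (σ + t * Complex.I)‖ ≤ 1 / 4) →
    (LSeries (fun n => (vonMangoldt n : ℂ) * χ (n : ZMod N)) (σ + t * Complex.I)).re ≤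
      C * (Real.log N + Real.log (|t| + 3) + Real.log (1 / (σ - 1)) + 1) -
        ∑ ρ ∈ S, (1 / (σ + t * Complex.I - ρ)).re := by
  obtain ⟨A, hA, hcore⟩ := lab2_core
  refine ⟨3 * A, by positivity, fun N _ χ hχ σ t h1 h2 S hS => ?_⟩
  have hN : (1 : ℝ) ≤ N := by exact_mod_cast NeZero.one_le
  set s₀ : ℂ := σ + t * Complex.I with hs₀
  have hre : s₀.re = σ := by simp [hs₀]
  have him : s₀.im = t := by simp [hs₀]
  have hs1 : 1 < s₀.re := by rw [hre]; exact h1
  have hlow := lab2_lower N χ s₀ hs1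
  rw [← DirichletCharacter.LFunction_eq_LSeries χ hs1, hre] at hlow
  have hσ0 : 0 < σ := by linarith
  have hσ1 : 0 < σ - 1 := by linarith
  have hf0 : 0 < ‖χ.LFunction s₀‖ := lt_of_lt_of_le (by positivity) hlow
  have ht : 0 ≤ |t| := abs_nonneg t
  set T : ℝ := 2 * N * (|t| + 3) * (σ / (σ - 1)) with hT
  have hq1 : 1 ≤ σ / (σ - 1) := by
    rw [le_div_iff₀ hσ1]
    linarith
  have hT1 : 1 ≤ T := by
    have e1 : 1 ≤ 2 * (N : ℝ) * (|t| + 3) := by nlinarith
    calc (1 : ℝ) = 1 * 1 := (one_mul 1).symm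
      _ ≤ T := mul_le_mul e1 hq1 zero_le_one (by positivity)
  have hb : ∀ s ∈ Metric.closedBall s₀ (1 / 2), ‖χ.LFunction s‖ ≤
      Real.exp (Real.log T) * ‖χ.LFunction s₀‖ := by
    intro s hs
    rw [Real.exp_log (by linarith)]
    rw [Metric.mem_closedBall, dist_eq_norm] at hs
    have e1 : |s.re - s₀.re| ≤ 1 / 2 := by
      have := Complex.abs_re_le_norm (s - s₀)
      rw [Complex.sub_re] at this
      linarith
    have e2 : 1 / 2 ≤ s.re := by
      rw [hre] at e1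
      linarith [(abs_le.1 e1).1]
    refine (LFunction_bound N χ hχ s e2).trans ?_
    have e3 : ‖s‖ ≤ |t| + 3 := by
      have h5 : ‖s‖ ≤ ‖s₀‖ + ‖s - s₀‖ := by
        have := norm_add_le s₀ (s - s₀)
        simpa using this
      have h6 : ‖s₀‖ ≤ σ + |t| := by
        refine (Complex.norm_le_abs_re_add_abs_im s₀).trans ?_
        rw [hre, him, abs_of_pos hσ0]
      linarith
    have e4 : 2 * (N : ℝ) * ‖s‖ ≤ 2 * N * (|t| + 3) :=
      mul_le_mul_of_nonneg_left e3 (by positivity)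
    refine e4.trans ?_
    have e5 : 1 ≤ σ / (σ - 1) * ‖χ.LFunction s₀‖ := by
      have e6 : σ / (σ - 1) * ((σ - 1) / σ) = 1 := by field_simp
      exact e6.symm.le.trans (mul_le_mul_of_nonneg_left hlow (by positivity))
    calc 2 * (N : ℝ) * (|t| + 3) = 2 * N * (|t| + 3) * 1 := (mul_one _).symm
      _ ≤ 2 * N * (|t| + 3) * (σ / (σ - 1) * ‖χ.LFunction s₀‖) :=
          mul_le_mul_of_nonneg_left e5 (by positivity)
      _ = T * ‖χ.LFunction s₀‖ := by rw [hT]; ring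
  have han : AnalyticOnNhd ℂ χ.LFunction (Metric.closedBall s₀ (1 / 2)) := fun z _ =>
    ((DirichletCharacter.differentiable_LFunction hχ).analyticAt z)
  have hzero : ∀ ρ, χ.LFunction ρ = 0 → ρ.re < s₀.re := by
    intro ρ hρ
    by_contra hcon
    push Not at hcon
    exact DirichletCharacter.LFunction_ne_zero_of_one_le_re χ (Or.inl hχ) (by linarith) hρ
  have h3 := hcore χ.LFunction s₀ (Real.log T) (Real.log_nonneg hT1) han (norm_pos_iff.1 hf0) hb
    hzero S hS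
  rw [lab1_char N χ s₀ hs1, Complex.neg_re]
  refine h3.trans ?_
  have hlogT : Real.log T = Real.log 2 + Real.log N + Real.log (|t| + 3) +
      (Real.log σ + Real.log (1 / (σ - 1))) := by
    have e1 : T = 2 * N * (|t| + 3) * (σ * (1 / (σ - 1))) := by rw [hT]; ring
    rw [e1, Real.log_mul (by positivity) (by positivity), Real.log_mul (by positivity)
      (by positivity), Real.log_mul (by positivity) (by positivity),
      Real.log_mul (by positivity) (by positivity)]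
  have l1 : Real.log 2 ≤ 1 := by linarith [Real.log_two_lt_d9]
  have l2 : Real.log σ ≤ 1 := by
    have := Real.log_le_sub_one_of_pos hσ0
    linarith
  have l3 : 0 ≤ Real.log N := Real.log_nonneg hN
  have l4 : 0 ≤ Real.log (|t| + 3) := Real.log_nonneg (by linarith)
  have l5 : 0 ≤ Real.log (1 / (σ - 1)) := by
    apply Real.log_nonneg
    rw [le_div_iff₀ hσ1]
    linarith
  have l6 : A * (Real.log T + 1) ≤ 3 * A * (Real.log N + Real.log (|t| + 3) +
      Real.log (1 / (σ - 1)) + 1) := by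
    have : Real.log T + 1 ≤ 3 * (Real.log N + Real.log (|t| + 3) +
      Real.log (1 / (σ - 1)) + 1) := by
      rw [hlogT]
      linarith
    nlinarith
  linarith

end Pool.Agent.Lib.H68T
end
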