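import Mathlib
import Pool.Agent.Lib.H59M.M2.M006

/-! Merged copies (to shorten the build) of Lib.H68T.RegL, Lib.H68T.T341, Lib.H68T.V2, Lib.H68X.XRH, Lib.H68X.XRL. -/

-- from Lib.H68T.RegL
section

/-!
# Project H68T: consequences of `Reg K Q X`

Use these lemmas to absorb constants and powers: every statement of the project has the form
`∃ K, ∀ Q X, Reg K Q X → ...`; take `K` to be the sum (or maximum) of the constants you need,
and `Reg.mono`.
-/

namespace Pool.Agent.Lib.H68T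

open Real

theorem Reg.mono {K K' : ℝ} {Q X : ℕ} (h : Reg K Q X) (h0 : 0 ≤ K) (hK : K' ≤ K) :
    Reg K' Q X := by
  obtain ⟨h1, h2, h3⟩ := h
  have hll : 0 ≤ log (log X) := h0.trans h1
  have hQ : 0 ≤ log Q := by positivity
  exact ⟨hK.trans h1, (mul_le_mul_of_nonneg_right hK hll).trans h2,
    (mul_le_mul_of_nonneg_right hK (mul_nonneg hQ hll)).trans h3⟩


theorem Reg.logX_ge {K : ℝ} {Q X : ℕ} (h : Reg K Q X) (hK : 0 < K) : exp K ≤ log X := by
  have h1 : 0 < log (log X) := hK.trans_le h.1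
  have h2 : 0 < log X := by
    by_contra hc
    push Not at hc
    have h3 : (0:ℝ) ≤ log X := by positivity
    have h4 : log (X:ℝ) = 0 := le_antisymm hc h3
    rw [h4] at h1
    simp at h1
  exact (Real.le_log_iff_exp_le h2).mp h.1

theorem Reg.logX_pos {K : ℝ} {Q X : ℕ} (h : Reg K Q X) (hK : 0 < K) : 0 < log X :=
  (exp_pos K).trans_le (h.logX_ge hK)

theorem Reg.X_pos {K : ℝ} {Q X : ℕ} (h : Reg K Q X) (hK : 0 < K) : 0 < X := by
  rcases Nat.eq_zero_or_pos X with h0 | h0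
  · have := h.logX_pos hK
    rw [h0] at this
    simp at this
  · exact h0

theorem Reg.logX_ge_one {K : ℝ} {Q X : ℕ} (h : Reg K Q X) (hK : 0 < K) : 1 ≤ log X := by
  have h1 := h.logX_ge hK
  have h2 : (1:ℝ) ≤ exp K := Real.one_le_exp hK.le
  linarith

theorem Reg.X_ge {K : ℝ} {Q X : ℕ} (h : Reg K Q X) (hK : 0 < K) : K ≤ X := by
  have h1 := h.logX_ge hK
  have h2 : K + 1 ≤ exp K := Real.add_one_le_exp K
  have h3 : log X ≤ X := (Real.log_le_sub_one_of_pos (by exact_mod_cast h.X_pos hK)).trans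
    (by linarith)
  linarith


theorem Reg.logQ_ge {K : ℝ} {Q X : ℕ} (h : Reg K Q X) (hK : 1 ≤ K) : K ≤ log Q := by
  have h1 : 1 ≤ log (log X) := hK.trans h.1
  have := h.2.1
  nlinarith

theorem Reg.Q_ge {K : ℝ} {Q X : ℕ} (h : Reg K Q X) (hK : 1 ≤ K) : K ≤ Q := by
  have h1 := h.logQ_ge hK
  have h3 : log Q ≤ Q := by
    rcases Nat.eq_zero_or_pos Q with h0 | h0
    · rw [h0]; simp
    · exact (Real.log_le_sub_one_of_pos (by exact_mod_cast h0)).trans (by linarith)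
  linarith

theorem Reg.Q_pos {K : ℝ} {Q X : ℕ} (h : Reg K Q X) (hK : 1 ≤ K) : 0 < Q := by
  have h1 := h.Q_ge hK
  have h2 : (0:ℝ) < Q := by linarith
  exact_mod_cast h2

/-- `K log Q ≤ log X` -/
theorem Reg.logQ_le {K : ℝ} {Q X : ℕ} (h : Reg K Q X) (hK : 1 ≤ K) : K * log Q ≤ log X := by
  have h1 : 1 ≤ log (log X) := hK.trans h.1
  have h2 := h.logQ_ge hK
  have h3 := h.2.2
  have h4 : K * log Q ≤ K * (log Q * log (log X)) := by
    apply mul_le_mul_of_nonneg_left _ (by linarith)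
    nlinarith
  linarith




end Pool.Agent.Lib.H68T
end

-- from Lib.H68T.T341
section

/-!
# Chunk T341: positivity
-/

open Finset ArithmeticFunction

namespace Pool.Agent.Lib.H68T

theorem T341_summable (h : ℕ → ℂ) (hh : ∀ n, ‖h n‖ ≤ 1) (s : ℂ) (hs : 1 < s.re) :
    LSeriesSummable (fun n => (vonMangoldt n : ℂ) * h n) s := by
  have h1 := (LSeriesSummable_vonMangoldt hs).norm
  refine Summable.of_norm_bounded h1 (fun n => ?_)
  rcases eq_or_ne n 0 with rfl | hn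
  · simp
  · rw [LSeries.term_of_ne_zero hn, LSeries.term_of_ne_zero hn, norm_div, norm_div, norm_mul]
    have : ‖((vonMangoldt n : ℝ) : ℂ)‖ * ‖h n‖ ≤ ‖((vonMangoldt n : ℝ) : ℂ)‖ * 1 :=
      mul_le_mul_of_nonneg_left (hh n) (norm_nonneg _)
    rw [mul_one] at this
    exact div_le_div_of_nonneg_right this (norm_nonneg _)

theorem T341_hasSum (h : ℕ → ℂ) (hh : ∀ n, ‖h n‖ ≤ 1) (σ u : ℝ) (hσ : 1 < σ) :
    HasSum (fun n : ℕ => ((vonMangoldt n : ℝ) * (n : ℝ) ^ (-σ)) *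
      (h n * (n : ℂ) ^ (-(u * Complex.I))).re)
      (LSeries (fun n => (vonMangoldt n : ℂ) * h n) (σ + u * Complex.I)).re := by
  have hs : 1 < ((σ : ℂ) + u * Complex.I).re := by simpa using hσ
  have h1 : HasSum (LSeries.term (fun n => (vonMangoldt n : ℂ) * h n) (σ + u * Complex.I))
      (LSeries (fun n => (vonMangoldt n : ℂ) * h n) (σ + u * Complex.I)) :=
    (T341_summable h hh _ hs).hasSum
  have h2 := Complex.hasSum_re h1
  convert h2 using 1
  funext n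
  rcases eq_or_ne n 0 with rfl | hn
  · simp
  · rw [LSeries.term_of_ne_zero hn]
    have hn0 : (n : ℂ) ≠ 0 := by exact_mod_cast hn
    have e1 : (vonMangoldt n : ℂ) * h n / (n : ℂ) ^ ((σ : ℂ) + u * Complex.I) =
        (((vonMangoldt n : ℝ) * (n : ℝ) ^ (-σ) : ℝ) : ℂ) * (h n * (n : ℂ) ^ (-(u * Complex.I))) := by
      rw [Complex.cpow_add _ _ hn0, Complex.cpow_neg]
      push_cast
      rw [Complex.ofReal_cpow (Nat.cast_nonneg n)]
      push_cast
      rw [Complex.cpow_neg]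
      have a1 : (n : ℂ) ^ (σ : ℂ) ≠ 0 := by
        rw [Complex.cpow_ne_zero_iff]; left; exact hn0
      have a2 : (n : ℂ) ^ ((u : ℂ) * Complex.I) ≠ 0 := by
        rw [Complex.cpow_ne_zero_iff]; left; exact hn0
      field_simp
    rw [e1, Complex.re_ofReal_mul]

theorem T341_weight_nonneg (σ : ℝ) (n : ℕ) : 0 ≤ (vonMangoldt n : ℝ) * (n : ℝ) ^ (-σ) :=
  mul_nonneg vonMangoldt_nonneg (Real.rpow_nonneg (Nat.cast_nonneg n) _)

theorem T341_alg (z : ℂ) (hz : ‖z‖ ≤ 1) : 0 ≤ 3 + 4 * z.re + (z ^ 2).re := by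
  have h1 : z.re ^ 2 + z.im ^ 2 ≤ 1 := by
    have := Complex.sq_norm z
    rw [Complex.normSq_apply] at this
    have h3 : ‖z‖ ^ 2 ≤ 1 := by
      have := norm_nonneg z
      nlinarith
    nlinarith
  have h2 : (z ^ 2).re = z.re ^ 2 - z.im ^ 2 := by
    rw [pow_two, Complex.mul_re]; ring
  rw [h2]
  nlinarith [sq_nonneg (z.re + 1)]

theorem T341_norm_cpow (n : ℕ) (u : ℝ) : ‖(n : ℂ) ^ (-((u : ℂ) * Complex.I))‖ ≤ 1 := by
  rcases eq_or_ne n 0 with rfl | hn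
  · rcases eq_or_ne u 0 with rfl | hu
    · simp
    · rw [Nat.cast_zero, Complex.zero_cpow]
      · simp
      · intro h
        rw [neg_eq_zero, mul_eq_zero] at h
        rcases h with h | h
        · exact hu (by exact_mod_cast h)
        · exact Complex.I_ne_zero h
  · have hpos : 0 < n := Nat.pos_of_ne_zero hn
    rw [Complex.norm_natCast_cpow_of_pos hpos]
    simp

theorem T341_main (h₁ h₂ : ℕ → ℂ) (hh₁ : ∀ n, ‖h₁ n‖ ≤ 1) (hh₂ : ∀ n, h₂ n = h₁ n ^ 2)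
    (σ t : ℝ) (hσ : 1 < σ) :
    0 ≤ 3 * (LSeries (fun n => (vonMangoldt n : ℂ)) σ).re +
      4 * (LSeries (fun n => (vonMangoldt n : ℂ) * h₁ n) (σ + t * Complex.I)).re +
      (LSeries (fun n => (vonMangoldt n : ℂ) * h₂ n) (σ + 2 * t * Complex.I)).re := by
  have A0 := T341_hasSum (fun _ => 1) (fun n => by simp) σ 0 hσ
  have A1 := T341_hasSum h₁ hh₁ σ t hσ
  have A2 := T341_hasSum h₂ (fun n => by
    rw [hh₂, norm_pow]
    exact pow_le_one₀ (norm_nonneg _) (hh₁ n)) σ (2 * t) hσ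
  have e0 : (fun n : ℕ => (vonMangoldt n : ℂ) * (fun _ : ℕ => (1 : ℂ)) n) =
      (fun n => (vonMangoldt n : ℂ)) := by
    funext n; simp
  simp only [Complex.ofReal_zero, zero_mul, add_zero, mul_one, one_mul] at A0
  push_cast at A2
  have A := ((A0.mul_left 3).add (A1.mul_left 4)).add A2
  refine A.nonneg (fun n => ?_)
  rcases eq_or_ne n 0 with rfl | hn
  · simp
  have hn0 : (n : ℂ) ≠ 0 := by exact_mod_cast hn
  set z : ℂ := h₁ n * (n : ℂ) ^ (-((t : ℂ) * Complex.I)) with hz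
  have hz1 : ‖z‖ ≤ 1 := by
    rw [hz, norm_mul]
    exact mul_le_one₀ (hh₁ n) (norm_nonneg _) (T341_norm_cpow n t)
  have hz2 : h₂ n * (n : ℂ) ^ (-(2 * (t : ℂ) * Complex.I)) = z ^ 2 := by
    rw [hz, mul_pow, hh₂, ← Complex.cpow_nat_mul]
    congr 2
    push_cast
    ring
  have h3 := T341_alg z hz1
  have h4 := mul_nonneg (T341_weight_nonneg σ n) h3
  have e5 : ((n : ℂ) ^ (-(0 : ℂ))).re = 1 := by simp
  simp only [hz2, e5]
  nlinarith [h4]

/-- `3 + 4 cos θ + cos 2θ ≥ 0` summed against `Λ(n) n^(-σ)`; for `(n, N) > 1` the terms are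
`3 Λ(n) n^(-σ) ≥ 0`. -/
theorem three_four_one (N : ℕ) [NeZero N] (χ : DirichletCharacter ℂ N) (σ t : ℝ) (hσ : 1 < σ) :
    0 ≤ 3 * (LSeries (fun n => (vonMangoldt n : ℂ)) σ).re +
      4 * (LSeries (fun n => (vonMangoldt n : ℂ) * χ (n : ZMod N)) (σ + t * Complex.I)).re +
      (LSeries (fun n => (vonMangoldt n : ℂ) * (χ ^ 2) (n : ZMod N))
        (σ + 2 * t * Complex.I)).re := by
  exact T341_main (fun n => χ (n : ZMod N)) (fun n => (χ ^ 2) (n : ZMod N))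
    (fun n => DirichletCharacter.norm_le_one χ _)
    (fun n => MulChar.pow_apply' χ two_ne_zero _) σ t hσ

/-- The same for `ζ`. -/
theorem three_four_one_zeta (σ t : ℝ) (hσ : 1 < σ) :
    0 ≤ 3 * (LSeries (fun n => (vonMangoldt n : ℂ)) σ).re +
      4 * (LSeries (fun n => (vonMangoldt n : ℂ)) (σ + t * Complex.I)).re +
      (LSeries (fun n => (vonMangoldt n : ℂ)) (σ + 2 * t * Complex.I)).re := by
  have h := T341_main (fun _ => 1) (fun _ => 1) (fun n => by simp) (fun n => by simp) σ t hσ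
  simpa using h

theorem T341_real_value (N : ℕ) (ψ : DirichletCharacter ℂ N) (hψ : ψ ^ 2 = 1) (n : ℕ) :
    ∃ x : ℝ, -1 ≤ x ∧ x ≤ 1 ∧ ψ (n : ZMod N) = (x : ℂ) := by
  by_cases hu : IsUnit (n : ZMod N)
  · have h1 : (ψ ^ 2) (n : ZMod N) = 1 := by
      rw [hψ]; exact MulChar.one_apply hu
    rw [MulChar.pow_apply' ψ two_ne_zero] at h1
    have h2 : ψ (n : ZMod N) = 1 ∨ ψ (n : ZMod N) = -1 := sq_eq_one_iff.mp h1
    rcases h2 with h | h
    · exact ⟨1, by norm_num, le_refl _, by rw [h]; simp⟩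
    · exact ⟨-1, le_refl _, by norm_num, by rw [h]; simp⟩
  · exact ⟨0, by norm_num, by norm_num, by rw [MulChar.map_nonunit ψ hu]; simp⟩

/-- `1 + ψ(n) ≥ 0` for real `ψ`. -/
theorem one_add_real (N : ℕ) [NeZero N] (ψ : DirichletCharacter ℂ N) (hψ : ψ ^ 2 = 1) (σ : ℝ)
    (hσ : 1 < σ) :
    0 ≤ (LSeries (fun n => (vonMangoldt n : ℂ)) σ).re +
      (LSeries (fun n => (vonMangoldt n : ℂ) * ψ (n : ZMod N)) σ).re := by
  have A0 := T341_hasSum (fun _ => 1) (fun n => by simp) σ 0 hσ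
  have A1 := T341_hasSum (fun n => ψ (n : ZMod N)) (fun n => DirichletCharacter.norm_le_one ψ _)
    σ 0 hσ
  simp only [Complex.ofReal_zero, zero_mul, add_zero, mul_one, one_mul] at A0 A1
  refine (A0.add A1).nonneg (fun n => ?_)
  obtain ⟨x, hx, -, hx2⟩ := T341_real_value N ψ hψ n
  have e5 : (n : ℂ) ^ (-(0 : ℂ)) = 1 := by simp
  have h4 := mul_nonneg (T341_weight_nonneg σ n) (by linarith : 0 ≤ 1 + x)
  simp only [e5, hx2, mul_one, Complex.ofReal_re, Complex.one_re]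
  nlinarith [h4]

/-- `(1 + ψ₁(n)) (1 + ψ₂(n)) ≥ 0` for real characters; the product character has level `r₁ r₂`. -/
theorem product_real (r₁ r₂ : ℕ) [NeZero r₁] [NeZero r₂] (ψ₁ : DirichletCharacter ℂ r₁)
    (ψ₂ : DirichletCharacter ℂ r₂) (h₁ : ψ₁ ^ 2 = 1) (h₂ : ψ₂ ^ 2 = 1) (σ : ℝ) (hσ : 1 < σ) :
    0 ≤ (LSeries (fun n => (vonMangoldt n : ℂ)) σ).re +
      (LSeries (fun n => (vonMangoldt n : ℂ) * ψ₁ (n : ZMod r₁)) σ).re +
      (LSeries (fun n => (vonMangoldt n : ℂ) * ψ₂ (n : ZMod r₂)) σ).re +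
      (LSeries (fun n => (vonMangoldt n : ℂ) *
        (DirichletCharacter.changeLevel (Dvd.intro r₂ rfl) ψ₁ *
          DirichletCharacter.changeLevel (Dvd.intro_left r₁ rfl) ψ₂ :
            DirichletCharacter ℂ (r₁ * r₂)) (n : ZMod (r₁ * r₂))) σ).re := by
  set ψ₃ : DirichletCharacter ℂ (r₁ * r₂) :=
    DirichletCharacter.changeLevel (Dvd.intro r₂ rfl) ψ₁ *
          DirichletCharacter.changeLevel (Dvd.intro_left r₁ rfl) ψ₂ with hψ₃
  have key : ∀ n : ℕ, ψ₃ (n : ZMod (r₁ * r₂)) = ψ₁ (n : ZMod r₁) * ψ₂ (n : ZMod r₂) := by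
    intro n
    rw [hψ₃, MulChar.mul_apply]
    by_cases hu : IsUnit (n : ZMod (r₁ * r₂))
    · have e1 := DirichletCharacter.changeLevel_eq_cast_of_dvd ψ₁ (Dvd.intro r₂ rfl) hu.unit
      have e2 := DirichletCharacter.changeLevel_eq_cast_of_dvd ψ₂ (Dvd.intro_left r₁ rfl) hu.unit
      rw [IsUnit.unit_spec] at e1 e2
      rw [e1, e2]
      simp [ZMod.cast_natCast]
    · rw [MulChar.map_nonunit _ hu, zero_mul]
      rw [ZMod.isUnit_iff_coprime, Nat.coprime_mul_iff_right] at hu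
      rcases not_and_or.mp hu with h | h
      · rw [MulChar.map_nonunit ψ₁ (fun h' => h ((ZMod.isUnit_iff_coprime _ _).mp h')), zero_mul]
      · rw [MulChar.map_nonunit ψ₂ (fun h' => h ((ZMod.isUnit_iff_coprime _ _).mp h')), mul_zero]
  have A0 := T341_hasSum (fun _ => 1) (fun n => by simp) σ 0 hσ
  have A1 := T341_hasSum (fun n => ψ₁ (n : ZMod r₁))
    (fun n => DirichletCharacter.norm_le_one ψ₁ _) σ 0 hσ
  have A2 := T341_hasSum (fun n => ψ₂ (n : ZMod r₂))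
    (fun n => DirichletCharacter.norm_le_one ψ₂ _) σ 0 hσ
  have A3 := T341_hasSum (fun n => ψ₃ (n : ZMod (r₁ * r₂)))
    (fun n => DirichletCharacter.norm_le_one ψ₃ _) σ 0 hσ
  simp only [Complex.ofReal_zero, zero_mul, add_zero, mul_one, one_mul] at A0 A1 A2 A3
  refine (((A0.add A1).add A2).add A3).nonneg (fun n => ?_)
  obtain ⟨x, hx, -, hx2⟩ := T341_real_value r₁ ψ₁ h₁ n
  obtain ⟨y, hy, -, hy2⟩ := T341_real_value r₂ ψ₂ h₂ n
  have e5 : (n : ℂ) ^ (-(0 : ℂ)) = 1 := by simp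
  have e6 : ψ₃ (n : ZMod (r₁ * r₂)) = ((x * y : ℝ) : ℂ) := by
    rw [key, hx2, hy2]; push_cast; ring
  have h4 := mul_nonneg (T341_weight_nonneg σ n)
    (mul_nonneg (by linarith : 0 ≤ 1 + x) (by linarith : 0 ≤ 1 + y))
  simp only [e5, e6, hx2, hy2, mul_one, Complex.ofReal_re, Complex.one_re]
  nlinarith [h4]

end Pool.Agent.Lib.H68T
end

-- from Lib.H68T.V2
section

/-!
# Chunk V2: type II sums
-/

open Finset

namespace Pool.Agent.Lib.H68T

theorem V2_interval {B : ℕ} (S : Finset ℕ) (hS : ∀ x ∈ S, ∀ z ∈ S, ∀ y, x ≤ y → y ≤ z → y ∈ S)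
    (hB : S ⊆ Icc 1 B) (θ : ℝ) : ‖∑ y ∈ S, e (y * θ)‖ ≤ VB_f B θ := by
  rcases S.eq_empty_or_nonempty with rfl | hne
  · simp only [sum_empty, norm_zero]
    exact VB_f_nonneg (by positivity) _
  set m := S.min' hne with hm
  set M := S.max' hne with hM
  have hmM : m ≤ M := S.min'_le_max' hne
  have hSeq : ∑ y ∈ S, e (y * θ) = ∑ n ∈ Ico (m : ℤ) (M + 1 : ℤ), e (n * θ) := by
    refine Finset.sum_bij (fun y _ => (y : ℤ)) ?_ ?_ ?_ ?_
    · intro y hy
      rw [mem_Ico]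
      have h1 := S.min'_le y hy
      have h2 := S.le_max' y hy
      rw [← hm] at h1
      rw [← hM] at h2
      omega
    · intro y _ z _ h
      exact_mod_cast h
    · intro n hn
      rw [mem_Ico] at hn
      refine ⟨n.toNat, ?_, ?_⟩
      · exact hS m (S.min'_mem hne) M (S.max'_mem hne) _ (by omega) (by omega)
      · omega
    · intro y _
      push_cast
      rfl
  rw [hSeq]
  obtain ⟨h1, h2⟩ := geo_le (m : ℤ) (M + 1 : ℤ) (by omega) θ
  have h3 : ((M + 1 : ℤ) : ℝ) - ((m : ℤ) : ℝ) ≤ B := by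
    have e1 := hB (S.min'_mem hne)
    have e2 := hB (S.max'_mem hne)
    rw [mem_Icc] at e1 e2
    rw [← hm] at e1
    rw [← hM] at e2
    have e3 : ((m : ℕ) : ℝ) ≥ 1 := by exact_mod_cast e1.1
    have e4 : ((M : ℕ) : ℝ) ≤ B := by exact_mod_cast e2.2
    push_cast
    linarith
  unfold VB_f
  split_ifs with h0
  · exact h1.trans h3
  · refine le_min (h1.trans h3) ?_
    have hpos : 0 < nd θ := lt_of_le_of_ne (VB_nd_nonneg θ) (Ne.symm h0)
    rw [le_div_iff₀ (by positivity)]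
    exact h2

/-- **Type II**, one dyadic block `a ∈ [A, 2A)`, `b ≤ B`, `u ≤ a b < v`. Cauchy-Schwarz over `b`:
`|T|² ≤ ∑_b |β_b|² ∑_{b ≤ B} |∑_a α_a e(abθ)|²`, open the square: for each pair `a, a'` the sum
over `b` runs over an interval of length at most `B`, hence is at most
`min (B, 1/(2‖(a-a')θ‖))`; `∑_{|h| < A}` by `block`. -/
theorem type_two : ∃ C : ℝ, 0 < C ∧ ∀ (θ : ℝ) (q : ℕ) (a : ℤ), 1 ≤ q → IsCoprime a (q : ℤ) →
    |θ - a / q| ≤ 1 / (q : ℝ) ^ 2 → ∀ (A B u v : ℕ), 1 ≤ A → 1 ≤ B → ∀ (α β : ℕ → ℂ),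
    (∀ n, ‖α n‖ ≤ 1) →
    ‖∑ x ∈ Ico A (2 * A), ∑ y ∈ (Icc 1 B).filter (fun y => u ≤ x * y ∧ x * y < v),
      α x * β y * e (x * y * θ)‖ ^ 2 ≤
      C * A * ((A : ℝ) / q + 1) * (B + q * Real.log (2 * q)) * ∑ y ∈ Icc 1 B, ‖β y‖ ^ 2 := by
  obtain ⟨C, hC, hblock⟩ := block
  refine ⟨C, hC, ?_⟩
  intro θ q a hq hco hθ A B u v hA hB α β hα
  set g : ℕ → ℂ := fun y => ∑ x ∈ (Ico A (2 * A)).filter (fun x => u ≤ x * y ∧ x * y < v),
    α x * e (x * y * θ) with hg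
  have hT : ∑ x ∈ Ico A (2 * A), ∑ y ∈ (Icc 1 B).filter (fun y => u ≤ x * y ∧ x * y < v),
      α x * β y * e (x * y * θ) = ∑ y ∈ Icc 1 B, β y * g y := by
    simp_rw [Finset.sum_filter]
    rw [Finset.sum_comm]
    refine Finset.sum_congr rfl fun y _ => ?_
    rw [hg]
    simp only
    rw [Finset.sum_filter, Finset.mul_sum]
    refine Finset.sum_congr rfl fun x _ => ?_
    split_ifs
    · ring
    · simp
  rw [hT]
  have hCS : ‖∑ y ∈ Icc 1 B, β y * g y‖ ^ 2 ≤ (∑ y ∈ Icc 1 B, ‖β y‖ ^ 2) *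
      ∑ y ∈ Icc 1 B, ‖g y‖ ^ 2 := by
    have h1 : ‖∑ y ∈ Icc 1 B, β y * g y‖ ≤ ∑ y ∈ Icc 1 B, ‖β y‖ * ‖g y‖ := by
      refine (norm_sum_le _ _).trans (le_of_eq ?_)
      simp_rw [norm_mul]
    refine (pow_le_pow_left₀ (norm_nonneg _) h1 2).trans ?_
    exact Finset.sum_mul_sq_le_sq_mul_sq _ _ _
  refine hCS.trans ?_
  have hsum : ∑ y ∈ Icc 1 B, ‖g y‖ ^ 2 ≤ A * (C * ((A : ℝ) / q + 1) * (B + q * Real.log (2 * q))) := by
    -- open the square
    have h1 : ((∑ y ∈ Icc 1 B, ‖g y‖ ^ 2 : ℝ) : ℂ) = ∑ x' ∈ Ico A (2 * A), ∑ x ∈ Ico A (2 * A),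
        (α x * (starRingEnd ℂ) (α x')) * ∑ y ∈ (Icc 1 B).filter (fun y => (u ≤ x * y ∧ x * y < v) ∧
          (u ≤ x' * y ∧ x' * y < v)), e (y * (((x : ℝ) - x') * θ)) := by
      push_cast
      have h2 : ∀ y ∈ Icc 1 B, ((‖g y‖ : ℂ)) ^ 2 = ∑ x' ∈ Ico A (2 * A), ∑ x ∈ Ico A (2 * A),
          if (u ≤ x * y ∧ x * y < v) ∧ (u ≤ x' * y ∧ x' * y < v) then
            (α x * (starRingEnd ℂ) (α x')) * e (y * (((x : ℝ) - x') * θ)) else 0 := by
        intro y _
        rw [← Complex.mul_conj']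
        rw [hg]
        simp only
        rw [map_sum, Finset.sum_mul_sum, Finset.sum_comm, Finset.sum_filter]
        refine Finset.sum_congr rfl fun x' _ => ?_
        by_cases hx' : u ≤ x' * y ∧ x' * y < v
        · rw [if_pos hx', Finset.sum_filter]
          refine Finset.sum_congr rfl fun x _ => ?_
          by_cases hx : u ≤ x * y ∧ x * y < v
          · rw [if_pos hx, if_pos ⟨hx, hx'⟩]
            rw [map_mul]
            have hconj : (starRingEnd ℂ) (e (x' * y * θ)) = e (-(x' * y * θ)) := by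
              unfold e
              rw [← Complex.exp_conj]
              congr 1
              simp only [map_mul, Complex.conj_ofReal, Complex.conj_I, map_ofNat]
              push_cast
              ring
            rw [hconj]
            have hee : e (y * (((x : ℝ) - x') * θ)) = e (x * y * θ) * e (-(x' * y * θ)) := by
              rw [← VB_e_add]
              congr 1
              ring
            rw [hee]
            ring
          · rw [if_neg hx, if_neg (fun h => hx h.1)]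
        · rw [if_neg hx']
          symm
          refine Finset.sum_eq_zero fun x _ => ?_
          rw [if_neg (fun h => hx' h.2)]
      rw [Finset.sum_congr rfl h2, Finset.sum_comm]
      refine Finset.sum_congr rfl fun x' _ => ?_
      rw [Finset.sum_comm]
      refine Finset.sum_congr rfl fun x _ => ?_
      rw [← Finset.sum_filter, Finset.mul_sum]
    have h3 : ∑ y ∈ Icc 1 B, ‖g y‖ ^ 2 = ‖((∑ y ∈ Icc 1 B, ‖g y‖ ^ 2 : ℝ) : ℂ)‖ := by
      rw [Complex.norm_real, Real.norm_eq_abs, abs_of_nonneg]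
      positivity
    rw [h3, h1]
    refine (norm_sum_le _ _).trans ?_
    have h4 : ∀ x' ∈ Ico A (2 * A), ‖∑ x ∈ Ico A (2 * A),
        (α x * (starRingEnd ℂ) (α x')) * ∑ y ∈ (Icc 1 B).filter (fun y => (u ≤ x * y ∧ x * y < v) ∧
          (u ≤ x' * y ∧ x' * y < v)), e (y * (((x : ℝ) - x') * θ))‖ ≤
          C * ((A : ℝ) / q + 1) * (B + q * Real.log (2 * q)) := by
      intro x' _
      refine (norm_sum_le _ _).trans ?_
      have h5 : ∀ x ∈ Ico A (2 * A), ‖(α x * (starRingEnd ℂ) (α x')) *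
          ∑ y ∈ (Icc 1 B).filter (fun y => (u ≤ x * y ∧ x * y < v) ∧
          (u ≤ x' * y ∧ x' * y < v)), e (y * (((x : ℝ) - x') * θ))‖ ≤
          VB_f B ((((x : ℤ) - x' : ℤ) : ℝ) * θ) := by
        intro x _
        rw [norm_mul, norm_mul, RCLike.norm_conj]
        have e1 : ‖α x‖ * ‖α x'‖ ≤ 1 := by
          have := hα x
          have := hα x'
          nlinarith [norm_nonneg (α x), norm_nonneg (α x')]
        have e2 := V2_interval (B := B) ((Icc 1 B).filter (fun y => (u ≤ x * y ∧ x * y < v) ∧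
          (u ≤ x' * y ∧ x' * y < v))) (by
            intro y1 h1 y3 h3 y2 h12 h23
            rw [mem_filter, mem_Icc] at h1 h3 ⊢
            obtain ⟨⟨a1, a2⟩, ⟨a3, a4⟩, a5, a6⟩ := h1
            obtain ⟨⟨b1, b2⟩, ⟨b3, b4⟩, b5, b6⟩ := h3
            have c1 : x * y1 ≤ x * y2 := Nat.mul_le_mul_left _ h12
            have c2 : x * y2 ≤ x * y3 := Nat.mul_le_mul_left _ h23
            have c3 : x' * y1 ≤ x' * y2 := Nat.mul_le_mul_left _ h12
            have c4 : x' * y2 ≤ x' * y3 := Nat.mul_le_mul_left _ h23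
            exact ⟨⟨by omega, by omega⟩, ⟨by omega, by omega⟩, by omega, by omega⟩)
          (Finset.filter_subset _ _) (((x : ℝ) - x') * θ)
        have e3 : (((x : ℤ) - x' : ℤ) : ℝ) * θ = ((x : ℝ) - x') * θ := by push_cast; ring
        rw [e3]
        calc ‖α x‖ * ‖α x'‖ * _ ≤ 1 * VB_f B (((x : ℝ) - x') * θ) := by
              refine mul_le_mul e1 e2 (norm_nonneg _) zero_le_one
          _ = _ := one_mul _
      refine (Finset.sum_le_sum h5).trans ?_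
      have h6 : ∑ x ∈ Ico A (2 * A), VB_f B ((((x : ℤ) - x' : ℤ) : ℝ) * θ) =
          ∑ n ∈ Ico ((A : ℤ) - x') ((A : ℤ) - x' + A), VB_f B (n * θ) := by
        refine Finset.sum_bij (fun x _ => (x : ℤ) - x') ?_ ?_ ?_ ?_
        · intro x hx
          rw [mem_Ico] at hx ⊢
          omega
        · intro x _ z _ h
          have : (x : ℤ) - x' = (z : ℤ) - x' := h
          omega
        · intro n hn
          rw [mem_Ico] at hn
          refine ⟨(n + x').toNat, ?_, ?_⟩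
          · rw [mem_Ico]; omega
          · show ((n + x').toNat : ℤ) - x' = n
            omega
        · intro x _
          rfl
      rw [h6]
      exact hblock θ q a hq hco hθ _ A B (by exact_mod_cast hB)
    refine (Finset.sum_le_sum h4).trans ?_
    rw [Finset.sum_const, Nat.card_Ico, nsmul_eq_mul]
    have : ((2 * A - A : ℕ) : ℝ) = A := by
      congr 1
      omega
    rw [this]
  have h0 : 0 ≤ ∑ y ∈ Icc 1 B, ‖β y‖ ^ 2 := by positivity
  calc (∑ y ∈ Icc 1 B, ‖β y‖ ^ 2) * ∑ y ∈ Icc 1 B, ‖g y‖ ^ 2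
      ≤ (∑ y ∈ Icc 1 B, ‖β y‖ ^ 2) * (A * (C * ((A : ℝ) / q + 1) * (B + q * Real.log (2 * q)))) :=
        mul_le_mul_of_nonneg_left hsum h0
    _ = _ := by ring

end Pool.Agent.Lib.H68T
end

-- from Lib.H68X.XRH
section

/-!
# Chunk XRH: the hyperbola method
-/

open Finset

namespace Pool.Agent.Lib.H68T

theorem XRH_int (r : ℕ) [NeZero r] (ψ : DirichletCharacter ℂ r) (hψ : ψ ≠ 1) (a n : ℕ) :
    ‖∑ k ∈ range n, ψ ((a + k + 1 : ℕ) : ZMod r)‖ ≤ r := by
  have hN : 0 < r := Nat.pos_of_ne_zero (NeZero.ne r)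
  induction n using Nat.strong_induction_on with
  | _ n ih =>
    rcases lt_or_ge n r with h | h
    · refine (norm_sum_le _ _).trans ?_
      refine (sum_le_sum fun k _ => DirichletCharacter.norm_le_one ψ _).trans ?_
      rw [sum_const, card_range, nsmul_eq_mul, mul_one]
      exact_mod_cast h.le
    · obtain ⟨m, rfl⟩ := Nat.exists_eq_add_of_le' h
      have h1 : ∑ k ∈ range (m + r), ψ ((a + k + 1 : ℕ) : ZMod r) =
          ∑ k ∈ range m, ψ ((a + k + 1 : ℕ) : ZMod r) := by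
        rw [sum_range_add]
        have h2 := gl1_period r ψ hψ (a + m)
        have h3 : ∑ k ∈ range r, ψ ((a + (m + k) + 1 : ℕ) : ZMod r) = 0 := by
          rw [← h2]
          refine sum_congr rfl fun k _ => ?_
          congr 2
          ring
        rw [h3, add_zero]
      rw [h1]
      exact ih m (by omega)

theorem XRH_Ioc (r : ℕ) [NeZero r] (ψ : DirichletCharacter ℂ r) (hψ : ψ ≠ 1) (a b : ℕ) :
    ‖∑ d ∈ Ioc a b, ψ (d : ZMod r)‖ ≤ r := by
  have h1 : Ioc a b = Ico (a + 1) (b + 1) := by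
    ext x
    simp only [mem_Ioc, mem_Ico]
    omega
  rw [h1, sum_Ico_eq_sum_range]
  have h2 := XRH_int r ψ hψ a (b + 1 - (a + 1))
  refine (le_of_eq ?_).trans h2
  congr 1
  refine sum_congr rfl fun k _ => ?_
  congr 2
  ring

/-- tail of the series of `L(1,ψ)` -/
theorem XRH_tail (r : ℕ) [NeZero r] (ψ : DirichletCharacter ℂ r) (hψ : ψ ≠ 1) (D : ℕ) :
    ‖ψ.LFunction 1 - ∑ d ∈ Ioc 0 D, ψ (d : ZMod r) / d‖ ≤ 2 * r / (D + 1) := by
  have hsum := (gl1_tele 1 one_pos (r * ‖(1 : ℂ)‖ / (1 : ℂ).re) (by simp) (fun n => gl1_A ψ n 1)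
    (fun n => by simpa using gl1_A_norm r ψ hψ n 1 (by simp))).1
  have h1 : ψ.LFunction 1 = ∑' n, gl1_A ψ n 1 := gl1_eqOn r ψ hψ 1 (by simp)
  have hA : ∀ n : ℕ, gl1_A ψ n 1 =
      gl1_T ψ (n + 1) * ((1 : ℂ) / (n + 1) - 1 / (n + 1 + 1)) := by
    intro n
    unfold gl1_A
    rw [Complex.cpow_neg_one, Complex.cpow_neg_one]
    congr 1
    push_cast
    rw [one_div, one_div]
    congr 2
    ring
  have h2 := gl1_parts ψ (fun n => (1 : ℂ) / (n + 1)) D
  have h3 : ∑ d ∈ Ioc 0 D, ψ (d : ZMod r) / d =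
      ∑ n ∈ range D, ψ ((n + 1 : ℕ) : ZMod r) * ((1 : ℂ) / (n + 1)) := by
    have h4 : Ioc 0 D = Ico 1 (D + 1) := by
      ext x
      simp only [mem_Ioc, mem_Ico]
      omega
    rw [h4, sum_Ico_eq_sum_range]
    refine sum_congr rfl fun n _ => ?_
    rw [add_comm 1 n]
    push_cast
    ring
  have h5 : ∑ n ∈ range D, gl1_T ψ (n + 1) * ((1 : ℂ) / (n + 1) - 1 / ((n + 1 : ℕ) + 1)) =
      ∑ n ∈ range D, gl1_A ψ n 1 := by
    refine sum_congr rfl fun n _ => ?_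
    rw [hA n]
    push_cast
    ring
  rw [h5] at h2
  have h6 := hsum.sum_add_tsum_nat_add D
  rw [h1, h3, h2, ← h6]
  have h7 : ∑ i ∈ range D, gl1_A ψ i 1 + ∑' i, gl1_A ψ (i + D) 1 -
      (gl1_T ψ D * (1 / ((D : ℂ) + 1)) + ∑ n ∈ range D, gl1_A ψ n 1) =
      ∑' i, gl1_A ψ (i + D) 1 - gl1_T ψ D * (1 / ((D : ℂ) + 1)) := by ring
  rw [h7]
  have h8 : ‖∑' i, gl1_A ψ (i + D) 1‖ ≤ r / (D + 1) := by
    have hg : HasSum (fun i : ℕ => (r : ℝ) * (1 / ((i : ℝ) + D + 1) - 1 / ((i : ℝ) + D + 2)))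
        (r / (D + 1)) := by
      rw [hasSum_iff_tendsto_nat_of_nonneg]
      · have h9 : ∀ K : ℕ, ∑ i ∈ range K, (r : ℝ) * (1 / ((i : ℝ) + D + 1) - 1 / ((i : ℝ) + D + 2)) =
            r * (1 / ((D : ℝ) + 1) - 1 / ((K : ℝ) + D + 1)) := by
          intro K
          induction K with
          | zero => simp
          | succ K ih =>
            rw [sum_range_succ, ih]
            push_cast
            ring
        simp only [h9]
        have h10 : Filter.Tendsto (fun K : ℕ => 1 / ((K : ℝ) + D + 1)) Filter.atTop (nhds 0) := by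
          have h11 := tendsto_one_div_add_atTop_nhds_zero_nat (𝕜 := ℝ)
          have h12 := (Filter.tendsto_add_atTop_iff_nat D).2 h11
          refine h12.congr fun K => ?_
          push_cast
          rfl
        have h13 := (h10.const_sub (1 / ((D : ℝ) + 1))).const_mul (r : ℝ)
        rw [sub_zero, mul_one_div] at h13
        exact h13
      · intro i
        refine mul_nonneg (Nat.cast_nonneg _) (sub_nonneg.2 ?_)
        exact one_div_le_one_div_of_le (by positivity) (by linarith)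
    refine tsum_of_norm_bounded hg fun i => ?_
    rw [hA, norm_mul]
    refine mul_le_mul (gl1_T_bound r ψ hψ _) ?_ (norm_nonneg _) (Nat.cast_nonneg _)
    have h14 : (1 : ℂ) / (((i + D : ℕ) : ℂ) + 1) - 1 / (((i + D : ℕ) : ℂ) + 1 + 1) =
        ((1 / ((i : ℝ) + D + 1) - 1 / ((i : ℝ) + D + 2) : ℝ) : ℂ) := by
      push_cast
      congr 2
      ring
    rw [h14, Complex.norm_real, Real.norm_of_nonneg]
    refine sub_nonneg.2 ?_
    exact one_div_le_one_div_of_le (by positivity) (by linarith)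
  have h15 : ‖gl1_T ψ D * (1 / ((D : ℂ) + 1))‖ ≤ r / (D + 1) := by
    rw [norm_mul, mul_comm]
    have h16 : ‖1 / ((D : ℂ) + 1)‖ = 1 / ((D : ℝ) + 1) := by
      have : 1 / ((D : ℂ) + 1) = ((1 / ((D : ℝ) + 1) : ℝ) : ℂ) := by push_cast; rfl
      rw [this, Complex.norm_real, Real.norm_of_nonneg (by positivity)]
    rw [h16, one_div_mul_eq_div]
    exact div_le_div_of_nonneg_right (gl1_T_bound r ψ hψ _) (by positivity)
  refine (norm_sub_le _ _).trans ?_
  have : 2 * (r : ℝ) / (D + 1) = r / (D + 1) + r / (D + 1) := by ring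
  rw [this]
  exact add_le_add h8 h15

/-- `∑_{m ≤ y} ∑_{d ∣ m} ψ(d) = y L(1,ψ) + O(r √y)`. With `D = ⌊√y⌋`: the sum is
`∑_{d ≤ D} ψ(d) ⌊y/d⌋ + ∑_{e ≤ y/(D+1)} (S(y/e) - S(D))`, sums of `ψ` over intervals are at most `r`;
`∑_{d > D} ψ(d)/d` is at most `r/(D+1)` (`L(1,ψ)` is the sum of the conditionally convergent
series). Total error `≤ D + r y/(D+1) + r y/(D+1) ≤ 4 r √y`. -/
theorem hyperbola (r : ℕ) [NeZero r] (ψ : DirichletCharacter ℂ r) (hψ : ψ ≠ 1) (y : ℕ) :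
    ‖(∑ m ∈ Icc 1 y, ∑ d ∈ m.divisors, ψ (d : ZMod r)) - y * ψ.LFunction 1‖ ≤
      4 * r * Real.sqrt y := by
  have hr : (1 : ℝ) ≤ r := by
    exact_mod_cast Nat.one_le_iff_ne_zero.2 (NeZero.ne r)
  have e1 : ∑ m ∈ Icc 1 y, ∑ d ∈ m.divisors, ψ (d : ZMod r) =
      ∑ d ∈ Ioc 0 y, ψ (d : ZMod r) * ((y / d : ℕ) : ℂ) := by
    have h1 := ArithmeticFunction.sum_Ioc_mul_zeta_eq_sum
      (⟨fun n => if n = 0 then (0 : ℂ) else ψ (n : ZMod r), by simp⟩ : ArithmeticFunction ℂ) y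
    have h2 : Icc 1 y = Ioc 0 y := by
      ext x
      simp only [mem_Ioc, mem_Icc]
      omega
    rw [h2]
    refine Eq.trans ?_ (h1.trans ?_)
    · refine sum_congr rfl fun m hm => ?_
      rw [ArithmeticFunction.coe_mul_zeta_apply]
      refine sum_congr rfl fun d hd => ?_
      rw [ArithmeticFunction.coe_mk, if_neg (Nat.pos_of_mem_divisors hd).ne']
    · refine sum_congr rfl fun d hd => ?_
      rw [ArithmeticFunction.coe_mk, if_neg (by have := (mem_Ioc.1 hd).1; omega)]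
  rw [e1]
  set D := Nat.sqrt y with hD
  have hDy : D ≤ y := Nat.sqrt_le_self y
  have hD1 : (D : ℝ) ≤ √y := Real.nat_sqrt_le_real_sqrt
  have hD2 : √y ≤ D + 1 := Real.real_sqrt_le_nat_sqrt_succ
  have hs0 : 0 ≤ √(y : ℝ) := Real.sqrt_nonneg _
  have hyy : √(y : ℝ) * √y = y := Real.mul_self_sqrt (Nat.cast_nonneg _)
  have hyD : (y : ℝ) / (D + 1) ≤ √y := by
    rw [div_le_iff₀ (by positivity)]
    nlinarith
  have e2 : ∑ d ∈ Ioc 0 y, ψ (d : ZMod r) * ((y / d : ℕ) : ℂ) =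
      ∑ d ∈ Ioc 0 D, ψ (d : ZMod r) * ((y / d : ℕ) : ℂ) +
      ∑ d ∈ Ioc D y, ψ (d : ZMod r) * ((y / d : ℕ) : ℂ) :=
    (sum_Ioc_consecutive _ (Nat.zero_le _) hDy).symm
  -- the second part
  have e3 : ∑ d ∈ Ioc D y, ψ (d : ZMod r) * ((y / d : ℕ) : ℂ) =
      ∑ e ∈ Ioc 0 (y / (D + 1)), ∑ d ∈ Ioc D (y / e), ψ (d : ZMod r) := by
    have h1 : ∀ d ∈ Ioc D y, ψ (d : ZMod r) * ((y / d : ℕ) : ℂ) =
        ∑ e ∈ Ioc 0 (y / (D + 1)), if d * e ≤ y then ψ (d : ZMod r) else 0 := by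
      intro d hd
      obtain ⟨hd1, hd2⟩ := mem_Ioc.1 hd
      have hd0 : 0 < d := by omega
      rw [← sum_filter, sum_const, nsmul_eq_mul, mul_comm]
      congr 2
      have h2 : (Ioc 0 (y / (D + 1))).filter (fun e => d * e ≤ y) = Ioc 0 (y / d) := by
        ext e
        simp only [mem_filter, mem_Ioc]
        have h3 : e ≤ y / d ↔ d * e ≤ y := by
          rw [Nat.le_div_iff_mul_le hd0, mul_comm]
        constructor
        · rintro ⟨⟨ha, hb⟩, hc⟩
          exact ⟨ha, h3.2 hc⟩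
        · rintro ⟨ha, hb⟩
          refine ⟨⟨ha, hb.trans (Nat.div_le_div_left hd1 (by omega))⟩, h3.1 hb⟩
      rw [h2, Nat.card_Ioc, Nat.sub_zero]
    rw [sum_congr rfl h1, sum_comm]
    refine sum_congr rfl fun e he => ?_
    have he0 : 0 < e := (mem_Ioc.1 he).1
    rw [← sum_filter]
    refine sum_congr ?_ fun _ _ => rfl
    ext d
    simp only [mem_filter, mem_Ioc]
    have h3 : d ≤ y / e ↔ d * e ≤ y := by
      rw [Nat.le_div_iff_mul_le he0]
    constructor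
    · rintro ⟨⟨ha, hb⟩, hc⟩
      exact ⟨ha, h3.2 hc⟩
    · rintro ⟨ha, hb⟩
      refine ⟨⟨ha, hb.trans (Nat.div_le_self _ _)⟩, h3.1 hb⟩
  have b3 : ‖∑ d ∈ Ioc D y, ψ (d : ZMod r) * ((y / d : ℕ) : ℂ)‖ ≤ r * √y := by
    rw [e3]
    refine (norm_sum_le _ _).trans ((sum_le_sum fun e _ => XRH_Ioc r ψ hψ D (y / e)).trans ?_)
    rw [sum_const, Nat.card_Ioc, Nat.sub_zero, nsmul_eq_mul, mul_comm]
    refine mul_le_mul_of_nonneg_left ?_ (by linarith)
    refine Nat.cast_div_le.trans ?_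
    push_cast
    exact hyD
  -- the first part
  have b4 : ‖∑ d ∈ Ioc 0 D, ψ (d : ZMod r) * ((y / d : ℕ) : ℂ) -
      y * ∑ d ∈ Ioc 0 D, ψ (d : ZMod r) / d‖ ≤ √y := by
    rw [mul_sum, ← sum_sub_distrib]
    refine (norm_sum_le _ _).trans (le_trans (sum_le_sum (g := fun _ => (1 : ℝ)) ?_) ?_)
    · intro d hd
      have hd0 : 0 < d := (mem_Ioc.1 hd).1
      have h1 : ψ (d : ZMod r) * ((y / d : ℕ) : ℂ) - y * (ψ (d : ZMod r) / d) =
          ψ (d : ZMod r) * (((((y / d : ℕ) : ℝ) - y / d : ℝ)) : ℂ) := by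
        push_cast
        ring
      rw [h1, norm_mul, Complex.norm_real]
      have h2 : ‖((y / d : ℕ) : ℝ) - y / d‖ ≤ 1 := by
        rw [Real.norm_eq_abs, abs_le]
        have h3 : ((y / d : ℕ) : ℝ) ≤ y / d := Nat.cast_div_le
        have h4 : (y : ℝ) / d < ((y / d : ℕ) : ℝ) + 1 := by
          rw [div_lt_iff₀ (by exact_mod_cast hd0)]
          have := Nat.lt_mul_div_succ y hd0
          have h5 : (y : ℝ) < d * (((y / d : ℕ) : ℝ) + 1) := by exact_mod_cast this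
          linarith
        constructor <;> linarith
      calc _ ≤ 1 * 1 := mul_le_mul (DirichletCharacter.norm_le_one ψ _) h2 (norm_nonneg _) (by norm_num)
        _ = 1 := by norm_num
    · rw [sum_const, Nat.card_Ioc, Nat.sub_zero, nsmul_eq_mul, mul_one]
      exact hD1
  have b5 : ‖(y : ℂ) * (ψ.LFunction 1 - ∑ d ∈ Ioc 0 D, ψ (d : ZMod r) / d)‖ ≤ 2 * r * √y := by
    rw [norm_mul, Complex.norm_natCast]
    calc (y : ℝ) * ‖ψ.LFunction 1 - ∑ d ∈ Ioc 0 D, ψ (d : ZMod r) / d‖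
        ≤ y * (2 * r / (D + 1)) :=
          mul_le_mul_of_nonneg_left (XRH_tail r ψ hψ D) (Nat.cast_nonneg _)
      _ = 2 * r * (y / (D + 1)) := by ring
      _ ≤ _ := mul_le_mul_of_nonneg_left hyD (by positivity)
  rw [e2]
  have e6 : ∑ d ∈ Ioc 0 D, ψ (d : ZMod r) * ((y / d : ℕ) : ℂ) +
      ∑ d ∈ Ioc D y, ψ (d : ZMod r) * ((y / d : ℕ) : ℂ) - y * ψ.LFunction 1 =
      (∑ d ∈ Ioc 0 D, ψ (d : ZMod r) * ((y / d : ℕ) : ℂ) -
        y * ∑ d ∈ Ioc 0 D, ψ (d : ZMod r) / d) +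
      ∑ d ∈ Ioc D y, ψ (d : ZMod r) * ((y / d : ℕ) : ℂ) -
      (y : ℂ) * (ψ.LFunction 1 - ∑ d ∈ Ioc 0 D, ψ (d : ZMod r) / d) := by ring
  rw [e6]
  refine (norm_sub_le _ _).trans ((add_le_add (norm_add_le _ _) le_rfl).trans ?_)
  nlinarith

end Pool.Agent.Lib.H68T
end

-- from Lib.H68X.XRL
section

/-!
# Chunk XRL: a zero close to `1` makes `L(1,ψ)` small
-/

open Finset

namespace Pool.Agent.Lib.H68T

/-- summation by parts, split at `K` -/
theorem XRL_split (r : ℕ) [NeZero r] (ψ : DirichletCharacter ℂ r) (hψ : ψ ≠ 1) (s : ℂ)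
    (hs : 0 < s.re) (K : ℕ) :
    ψ.LFunction s = ∑ n ∈ range K, ψ ((n + 1 : ℕ) : ZMod r) * (((n : ℝ) + 1 : ℝ) : ℂ) ^ (-s)
      - gl1_T ψ K * (((K : ℝ) + 1 : ℝ) : ℂ) ^ (-s) + ∑' n, gl1_A ψ (n + K) s := by
  have hsum := (gl1_tele s.re hs (r * ‖s‖ / s.re) (by positivity) (fun n => gl1_A ψ n s)
    (fun n => gl1_A_norm r ψ hψ n s hs)).1
  rw [gl1_eqOn r ψ hψ s hs, ← hsum.sum_add_tsum_nat_add K]
  have h9 := gl1_parts ψ (fun n => (((n : ℝ) + 1 : ℝ) : ℂ) ^ (-s)) K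
  have h10 : ∀ n : ℕ, gl1_T ψ (n + 1) * ((((n : ℝ) + 1 : ℝ) : ℂ) ^ (-s) -
      ((((n + 1 : ℕ) : ℝ) + 1 : ℝ) : ℂ) ^ (-s)) = gl1_A ψ n s := by
    intro n
    rw [gl1_A]
    congr 3
    push_cast
    ring_nf
  simp only [h10] at h9
  rw [h9]
  ring

/-- telescoping tail -/
theorem XRL_tele (σ : ℝ) (D : ℝ) (hD : 0 ≤ D) (K : ℕ) (f : ℕ → ℂ)
    (hf : ∀ n : ℕ, ‖f n‖ ≤ D * ((((n + K : ℕ) : ℝ) + 1) ^ (-σ) -
      (((n + K : ℕ) : ℝ) + 2) ^ (-σ))) :
    ‖∑' n, f n‖ ≤ D * ((K : ℝ) + 1) ^ (-σ) := by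
  have hsum : ∀ M : ℕ, ∑ n ∈ range M, ‖f n‖ ≤ D * ((K : ℝ) + 1) ^ (-σ) := by
    intro M
    have h1 : ∑ n ∈ range M, ‖f n‖ ≤
        D * (((K : ℝ) + 1) ^ (-σ) - (((M + K : ℕ) : ℝ) + 1) ^ (-σ)) := by
      induction M with
      | zero => simp
      | succ M ih =>
        rw [sum_range_succ]
        have h2 := hf M
        have e : (((M + 1 + K : ℕ) : ℝ) + 1) = ((M + K : ℕ) : ℝ) + 2 := by
          push_cast
          ring
        rw [e]
        linarith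
    have h3 : 0 ≤ (((M + K : ℕ) : ℝ) + 1) ^ (-σ) := Real.rpow_nonneg (by positivity) _
    nlinarith
  have hs : Summable fun n => ‖f n‖ := summable_of_sum_range_le (fun n => norm_nonneg _) hsum
  refine (norm_tsum_le_tsum_norm hs).trans ?_
  exact hs.tsum_le_of_sum_range_le hsum

/-- powers of `n ≤ r` near `1` -/
theorem XRL_pow (r : ℕ) (hr : 100 ≤ r) (σ : ℝ) (hσ : 1 - 2 / Real.log r ≤ σ) (x : ℝ)
    (hx1 : 1 ≤ x) (hxr : x ≤ r) : x ^ (-σ) ≤ Real.exp 2 * x⁻¹ := by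
  have hr1 : (1 : ℝ) < r := by
    have : (100 : ℝ) ≤ r := by exact_mod_cast hr
    linarith
  have hlog : 0 < Real.log r := Real.log_pos hr1
  have hx0 : 0 < x := by linarith
  have h1 : x ^ (-σ) ≤ x ^ (2 / Real.log r - 1) :=
    Real.rpow_le_rpow_of_exponent_le hx1 (by linarith)
  refine h1.trans ?_
  rw [Real.rpow_sub hx0, Real.rpow_one, div_eq_mul_inv]
  refine mul_le_mul_of_nonneg_right ?_ (by positivity)
  have h2 : x ^ (2 / Real.log r) ≤ (r : ℝ) ^ (2 / Real.log r) :=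
    Real.rpow_le_rpow hx0.le hxr (by positivity)
  refine h2.trans ?_
  rw [Real.rpow_def_of_pos (by linarith)]
  apply Real.exp_le_exp.2
  rw [mul_div_cancel₀ _ hlog.ne']

theorem XRL_harm (r : ℕ) : ∑ n ∈ range r, (((n : ℝ) + 1))⁻¹ ≤ 1 + Real.log r := by
  have h := harmonic_le_one_add_log r
  have e : ((harmonic r : ℚ) : ℝ) = ∑ n ∈ range r, (((n : ℝ) + 1))⁻¹ := by
    rw [harmonic]
    push_cast
    rfl
  rw [← e]
  exact h

/-- `‖L(s,ψ)‖ ≤ C log r` for `|s - 1| ≤ 2/log r`, `ψ ≠ 1` mod `r`, `r ≥ 100`: for `Re s > 1`, and then by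
analytic continuation for `Re s > 0` (cf. `LFunction_bound` in `H68T/GL1.lean`),
`L(s) = ∑_{n ≤ r} ψ(n) n^(-s) + s ∫_r^∞ (S(u) - S(r)) u^(-s-1) du`, `S(u) = ∑_{n ≤ u} ψ(n)`,
`|S(u) - S(r)| ≤ r`; `|n^(-s)| ≤ e²/n` for `n ≤ r`, and the integral is at most
`r r^(-σ)/σ ≤ 2 e²`. -/
theorem LFunction_near_one : ∃ C : ℝ, 0 < C ∧ ∀ (r : ℕ) [NeZero r]
    (ψ : DirichletCharacter ℂ r), 100 ≤ r → ψ ≠ 1 → ∀ s : ℂ, ‖s - 1‖ ≤ 2 / Real.log r →
    ‖ψ.LFunction s‖ ≤ C * Real.log r := by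
  refine ⟨6 * Real.exp 2, by positivity, fun r _ ψ hr hψ s hs => ?_⟩
  have hrR : (100 : ℝ) ≤ r := by exact_mod_cast hr
  have hlog4 : 4 ≤ Real.log r := by
    have h1 : Real.log 100 ≤ Real.log r := Real.log_le_log (by norm_num) hrR
    have h2 : (4 : ℝ) ≤ Real.log 100 := by
      rw [Real.le_log_iff_exp_le (by norm_num)]
      have h3 : Real.exp 4 = Real.exp 1 ^ 4 := by
        rw [← Real.exp_nat_mul]
        norm_num
      rw [h3]
      have h4 := Real.exp_one_lt_d9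
      calc Real.exp 1 ^ 4 ≤ (2.7182818286 : ℝ) ^ 4 :=
            pow_le_pow_left₀ (Real.exp_pos 1).le h4.le 4
        _ ≤ 100 := by norm_num
    linarith
  have hδ : 2 / Real.log r ≤ 1 / 2 := by
    rw [div_le_iff₀ (by linarith)]
    linarith
  have hre : |s.re - 1| ≤ ‖s - 1‖ := by
    have := Complex.abs_re_le_norm (s - 1)
    simpa using this
  have hσ : 1 - 2 / Real.log r ≤ s.re := by
    have := (abs_le.1 (hre.trans hs)).1
    linarith
  have hσ2 : 1 / 2 ≤ s.re := by linarith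
  have hσ0 : 0 < s.re := by linarith
  have hns : ‖s‖ ≤ 3 / 2 := by
    have h1 : ‖s‖ ≤ ‖s - 1‖ + ‖(1 : ℂ)‖ := by
      have := norm_add_le (s - 1) 1
      simpa using this
    rw [norm_one] at h1
    linarith
  have hE : 0 < Real.exp 2 := Real.exp_pos 2
  have hrpos : (0 : ℝ) < r := by linarith
  -- the power of `r + 1`
  have hK : ((r : ℝ) + 1) ^ (-s.re) ≤ Real.exp 2 * (r : ℝ)⁻¹ := by
    refine le_trans ?_ (XRL_pow r hr s.re hσ r (by linarith) le_rfl)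
    exact Real.rpow_le_rpow_of_nonpos hrpos (by linarith) (by linarith)
  have hK0 : 0 ≤ ((r : ℝ) + 1) ^ (-s.re) := Real.rpow_nonneg (by positivity) _
  rw [XRL_split r ψ hψ s hσ0 r]
  have h1 : ‖∑ n ∈ range r, ψ ((n + 1 : ℕ) : ZMod r) * (((n : ℝ) + 1 : ℝ) : ℂ) ^ (-s)‖ ≤
      Real.exp 2 * (1 + Real.log r) := by
    refine (norm_sum_le _ _).trans ?_
    refine le_trans (sum_le_sum fun n hn => ?_)
      (le_of_eq_of_le (mul_sum (range r) (fun n : ℕ => ((n : ℝ) + 1)⁻¹) (Real.exp 2)).symm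
        (mul_le_mul_of_nonneg_left (XRL_harm r) hE.le))
    rw [norm_mul, Complex.norm_cpow_eq_rpow_re_of_pos (by positivity), Complex.neg_re]
    have hn' : (n : ℝ) + 1 ≤ r := by
      have := mem_range.1 hn
      exact_mod_cast this
    have h2 := XRL_pow r hr s.re hσ ((n : ℝ) + 1) (by linarith [Nat.cast_nonneg (α := ℝ) n]) hn'
    have h3 := DirichletCharacter.norm_le_one ψ ((n + 1 : ℕ) : ZMod r)
    have h4 : 0 ≤ ((n : ℝ) + 1) ^ (-s.re) := Real.rpow_nonneg (by positivity) _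
    calc _ ≤ 1 * ((n : ℝ) + 1) ^ (-s.re) := mul_le_mul_of_nonneg_right h3 h4
      _ ≤ _ := by rw [one_mul]; exact h2
  have h2 : ‖gl1_T ψ r * (((r : ℝ) + 1 : ℝ) : ℂ) ^ (-s)‖ ≤ Real.exp 2 := by
    rw [norm_mul, Complex.norm_cpow_eq_rpow_re_of_pos (by positivity), Complex.neg_re]
    calc _ ≤ (r : ℝ) * (Real.exp 2 * (r : ℝ)⁻¹) :=
          mul_le_mul (gl1_T_bound r ψ hψ r) hK hK0 hrpos.le
      _ = Real.exp 2 := by field_simp
  have h3 : ‖∑' n, gl1_A ψ (n + r) s‖ ≤ 3 * Real.exp 2 := by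
    have h4 := XRL_tele s.re (r * ‖s‖ / s.re) (by positivity) r (fun n => gl1_A ψ (n + r) s)
      (fun n => gl1_A_norm r ψ hψ (n + r) s hσ0)
    refine h4.trans ?_
    have h5 : (r : ℝ) * ‖s‖ / s.re ≤ 3 * r := by
      rw [div_le_iff₀ hσ0]
      nlinarith
    calc _ ≤ (3 * r) * (Real.exp 2 * (r : ℝ)⁻¹) := mul_le_mul h5 hK hK0 (by positivity)
      _ = 3 * Real.exp 2 := by field_simp
  have h6 : ‖∑ n ∈ range r, ψ ((n + 1 : ℕ) : ZMod r) * (((n : ℝ) + 1 : ℝ) : ℂ) ^ (-s)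
      - gl1_T ψ r * (((r : ℝ) + 1 : ℝ) : ℂ) ^ (-s) + ∑' n, gl1_A ψ (n + r) s‖ ≤
      Real.exp 2 * (1 + Real.log r) + Real.exp 2 + 3 * Real.exp 2 := by
    refine (norm_add_le _ _).trans (add_le_add ((norm_sub_le _ _).trans (add_le_add h1 h2)) h3)
  refine h6.trans ?_
  nlinarith

/-- `L(1) = L(1) - L(β)` is at most `(1-β) sup_{[β,1]} |L'|`, and `|L'| ≤ C (log r)²` there by Cauchy's
inequality on circles of radius `1/log r`. -/
theorem L1_upper : ∃ C : ℝ, 0 < C ∧ ∀ (r : ℕ) [NeZero r] (ψ : DirichletCharacter ℂ r),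
    100 ≤ r → ψ ≠ 1 → ∀ β : ℝ, 1 - 1 / Real.log r ≤ β → β ≤ 1 → ψ.LFunction (β : ℂ) = 0 →
    ‖ψ.LFunction 1‖ ≤ C * (1 - β) * (Real.log r) ^ 2 := by
  obtain ⟨C, hC, H⟩ := LFunction_near_one
  refine ⟨C, hC, fun r _ ψ hr hψ β hβ1 hβ2 hz => ?_⟩
  have hrR : (100 : ℝ) ≤ r := by exact_mod_cast hr
  have hlog : 0 < Real.log r := Real.log_pos (by linarith)
  have hρ : 0 < 1 / Real.log r := by positivity
  have hdiff := DirichletCharacter.differentiable_LFunction hψ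
  have hder : ∀ z ∈ Metric.closedBall (1 : ℂ) (1 / Real.log r),
      ‖deriv ψ.LFunction z‖ ≤ C * Real.log r ^ 2 := by
    intro z hz
    have h1 := Complex.norm_deriv_le_of_forall_mem_sphere_norm_le (c := z)
      (C := C * Real.log r) (f := ψ.LFunction) hρ hdiff.diffContOnCl (fun w hw => by
        apply H r ψ hr hψ w
        have h2 : ‖w - z‖ = 1 / Real.log r := by simpa [dist_eq_norm] using hw
        have h3 : ‖z - 1‖ ≤ 1 / Real.log r := by simpa [dist_eq_norm] using hz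
        have h4 : ‖w - 1‖ ≤ ‖w - z‖ + ‖z - 1‖ := by
          have := norm_add_le (w - z) (z - 1)
          simpa using this
        have h5 : 2 / Real.log r = 1 / Real.log r + 1 / Real.log r := by ring
        rw [h5]
        linarith)
    refine h1.trans (le_of_eq ?_)
    field_simp
  have hmem1 : (1 : ℂ) ∈ Metric.closedBall (1 : ℂ) (1 / Real.log r) :=
    Metric.mem_closedBall_self hρ.le
  have hnorm : ‖(1 : ℂ) - (β : ℂ)‖ = 1 - β := by
    rw [← Complex.ofReal_one, ← Complex.ofReal_sub, Complex.norm_real, Real.norm_eq_abs,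
      abs_of_nonneg (by linarith)]
  have hmemβ : (β : ℂ) ∈ Metric.closedBall (1 : ℂ) (1 / Real.log r) := by
    rw [Metric.mem_closedBall, dist_comm, dist_eq_norm, hnorm]
    linarith
  have h := Convex.norm_image_sub_le_of_norm_deriv_le (f := ψ.LFunction)
    (C := C * Real.log r ^ 2) (s := Metric.closedBall (1 : ℂ) (1 / Real.log r))
    (x := (β : ℂ)) (y := 1) (fun z _ => hdiff z) hder (convex_closedBall _ _) hmemβ hmem1
  rw [hz, sub_zero, hnorm] at h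
  linarith [h]

end Pool.Agent.Lib.H68T
end
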