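import Pool.Agent.Lib.H59M.M2.M009

/-! Merged copies (to shorten the build) of Lib.H44W.D2. -/

-- from Lib.H44W.D2
section
/-!
CHUNK D2 (S/M). THEOREM D12: choice of the parameters.
Let be = beta. If TF = 0 nothing to prove. Otherwise some x, y in [1,n] and (a,b) in the boxes have q a b = x + y <= 2n, so
q A1 A2 <= 2n; in particular A1 A2 <= 2n (pd_ne_zero).
L := ceil(576/be^2), H := ceil(165888/be^4), N := floor(l/(4 q L^2 (1+H))). Then L <= 577/be^2, 1 + H <= 165890/be^4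
(be <= 1), 4 q L^2 (1+H) <= 4 q * 577^2 * 165890/be^8 <= 10^12 q/be^8 <= l, so N >= 1 and N >= l/(8 q L^2 (1+H)).
2 L <= 1154/be^2 <= A1, H L <= 165889 * 577/be^6 <= 10^8/be^6 <= A1, the same for A2.
two_steps with V0 = A1 A2 <= 2n: be^2 n^4 <= |TF|^2 <= 24 n^2 (12 n^2/L + M1), so M1 >= be^2 n^2/24 - 12 n^2/L >= be^2 n^2/48.
M1^2 = 9 n V0 (n V0/H + M2) <= 18 n^2 (2 n^2/H + M2), so M2 >= be^4 n^2/41472 - 2 n^2/H >= be^4 n^2/82944.
M2 = 4 n N L (A1 + A2) + V0 l m/N. First term: N L (A1+A2) <= l (A1+A2)/(4 q L (1+H)) <= n/(4 * 576/be^2 * 165888/be^4)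
<= be^4 n/663552 so the first term is <= be^4 n^2/165888. Hence V0 l m/N >= be^4 n^2/165888, V0 <= 2n/q:
m >= be^4 n q N/(331776 l) >= be^4 n/(331776 * 8 L^2 (1+H)) >= be^12 n/(2654208 * 332929 * 165890) >= be^12 n/10^18.
-/
namespace Pool.Agent.H44W
open Finset

theorem pd_ne_zero (n q A1 A2 B1 B2 : ℕ) (W f g : ℤ → ℂ)
    (h : TF n (pd q (Ico (A1:ℤ) B1) (Ico (A2:ℤ) B2)) W f g ≠ 0) : q * (A1 * A2) ≤ 2 * n := by
  unfold TF at h
  obtain ⟨x, hx, hx2⟩ := Finset.exists_ne_zero_of_sum_ne_zero h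
  obtain ⟨y, hy, hy2⟩ := Finset.exists_ne_zero_of_sum_ne_zero hx2
  have h3 : pd q (Ico (A1:ℤ) B1) (Ico (A2:ℤ) B2) (x + y) ≠ 0 := by
    intro h0
    apply hy2
    rw [h0]
    ring
  unfold pd at h3
  have h4 : ((Ico (A1:ℤ) B1 ×ˢ Ico (A2:ℤ) B2).filter (fun p => (q:ℤ) * p.1 * p.2 = x + y)).card ≠ 0 := by
    intro h0
    apply h3
    rw [h0]
    simp
  obtain ⟨p, hp⟩ := Finset.card_ne_zero.1 h4
  rw [Finset.mem_filter, Finset.mem_product, Finset.mem_Ico, Finset.mem_Ico] at hp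
  obtain ⟨⟨hp1, hp2⟩, hp3⟩ := hp
  rw [Finset.mem_Icc] at hx hy
  have h5 : (A1:ℤ) * A2 ≤ p.1 * p.2 := by
    apply mul_le_mul hp1.1 hp2.1 (by positivity)
    exact le_trans (by positivity) hp1.1
  have h6 : (q:ℤ) * (A1 * A2) ≤ 2 * n := by
    have h7 : (q:ℤ) * (A1 * A2) ≤ q * (p.1 * p.2) := mul_le_mul_of_nonneg_left h5 (by positivity)
    rw [← mul_assoc (q:ℤ) p.1, hp3] at h7
    linarith [hx.2, hy.2]
  exact_mod_cast h6

theorem d2_num (n A1 A2 q l N L H m b : ℝ) (hb : 0 < b) (hb1 : b ≤ 1) (hn : 1 ≤ n) (hq : 1 ≤ q)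
    (hA1 : 0 ≤ A1) (hA2 : 0 ≤ A2) (hm : 0 ≤ m) (hL : 0 < L) (hH : 0 < H) (hN : 1 ≤ N) (hl : 0 < l)
    (hV : q * (A1 * A2) ≤ 2 * n) (hlA : l * (A1 + A2) ≤ n)
    (hL1 : 576 ≤ L * b ^ 2) (hL2 : L * b ^ 2 ≤ 577) (hH1 : 165888 ≤ H * b ^ 4)
    (hH2 : (1 + H) * b ^ 4 ≤ 165890) (hl1 : 4 * q * L ^ 2 * (1 + H) * N ≤ l)
    (hl2 : l ≤ 8 * q * L ^ 2 * (1 + H) * N)
    (hT : (b * n ^ 2) ^ 2 ≤ 12 * n * A1 * A2 * (6 * n * A1 * A2 / L + Real.sqrt (9 * n * A1 * A2 *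
        (n * A1 * A2 / H + (4 * n * N * L * (A1 + A2) + A1 * A2 * l * m / N))))) :
    b ^ 12 * n ≤ 10 ^ 18 * m := by
  have hn0 : 0 < n := by linarith
  have hN0 : 0 < N := by linarith
  have hq0 : 0 < q := by linarith
  obtain ⟨V, hVd⟩ : ∃ V, V = A1 * A2 := ⟨_, rfl⟩
  have hV0 : 0 ≤ V := by rw [hVd]; positivity
  have hqV : q * V ≤ 2 * n := by rw [hVd]; exact hV
  have hV2 : V ≤ 2 * n := le_trans (by nlinarith) hqV
  obtain ⟨M2, hM2⟩ : ∃ M2, M2 = 4 * n * N * L * (A1 + A2) + A1 * A2 * l * m / N := ⟨_, rfl⟩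
  have hM20 : 0 ≤ M2 := by rw [hM2]; positivity
  rw [← hM2] at hT
  obtain ⟨S, hS⟩ : ∃ S, S = Real.sqrt (18 * n ^ 2 * (2 * n ^ 2 / H + M2)) := ⟨_, rfl⟩
  have hS0 : 0 ≤ S := by rw [hS]; exact Real.sqrt_nonneg _
  have hSle : Real.sqrt (9 * n * A1 * A2 * (n * A1 * A2 / H + M2)) ≤ S := by
    rw [hS]
    apply Real.sqrt_le_sqrt
    have e1 : 9 * n * A1 * A2 = 9 * n * V := by rw [hVd]; ring
    have e2 : n * A1 * A2 / H = n * V / H := by rw [hVd]; ring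
    rw [e1, e2]
    have e3 : 9 * n * V ≤ 18 * n ^ 2 := by nlinarith
    have e4 : n * V / H ≤ 2 * n ^ 2 / H := by
      apply div_le_div_of_nonneg_right _ hH.le
      nlinarith
    apply mul_le_mul e3 (by linarith) (by positivity) (by positivity)
  have h1 : (b * n ^ 2) ^ 2 ≤ 24 * n ^ 2 * (12 * n ^ 2 / L + S) := by
    refine hT.trans ?_
    have e1 : 12 * n * A1 * A2 = 12 * n * V := by rw [hVd]; ring
    have e2 : 6 * n * A1 * A2 / L = 6 * n * V / L := by rw [hVd]; ring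
    rw [e1, e2]
    have e3 : 12 * n * V ≤ 24 * n ^ 2 := by nlinarith
    have e4 : 6 * n * V / L ≤ 12 * n ^ 2 / L := by
      apply div_le_div_of_nonneg_right _ hL.le
      nlinarith
    apply mul_le_mul e3 (by linarith) _ (by positivity)
    have := Real.sqrt_nonneg (9 * n * A1 * A2 * (n * A1 * A2 / H + M2))
    positivity
  have h2 : 12 * n ^ 2 / L ≤ b ^ 2 * n ^ 2 / 48 := by
    rw [div_le_iff₀ hL]
    have : b ^ 2 * n ^ 2 / 48 * L = n ^ 2 * (L * b ^ 2) / 48 := by ring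
    rw [this]
    nlinarith [sq_nonneg n, mul_le_mul_of_nonneg_left hL1 (sq_nonneg n)]
  have h3 : b ^ 2 * n ^ 2 / 48 ≤ S := by
    have e1 : (b * n ^ 2) ^ 2 = n ^ 2 * (b ^ 2 * n ^ 2) := by ring
    rw [e1] at h1
    have e2 : n ^ 2 * (b ^ 2 * n ^ 2) ≤ n ^ 2 * (24 * (b ^ 2 * n ^ 2 / 48 + S)) := by
      refine h1.trans ?_
      have : n ^ 2 * (24 * (b ^ 2 * n ^ 2 / 48 + S)) = 24 * n ^ 2 * (b ^ 2 * n ^ 2 / 48 + S) := by ring
      rw [this]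
      apply mul_le_mul_of_nonneg_left _ (by positivity)
      linarith
    have e3 := le_of_mul_le_mul_left e2 (by positivity)
    linarith
  have h4 : b ^ 4 * n ^ 4 / 2304 ≤ 18 * n ^ 2 * (2 * n ^ 2 / H + M2) := by
    have e0 : 0 ≤ 18 * n ^ 2 * (2 * n ^ 2 / H + M2) := by positivity
    have e1 : S ^ 2 = 18 * n ^ 2 * (2 * n ^ 2 / H + M2) := by rw [hS]; exact Real.sq_sqrt e0
    rw [← e1]
    have e2 : (b ^ 2 * n ^ 2 / 48) ^ 2 ≤ S ^ 2 := pow_le_pow_left₀ (by positivity) h3 2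
    have e3 : (b ^ 2 * n ^ 2 / 48) ^ 2 = b ^ 4 * n ^ 4 / 2304 := by ring
    linarith
  have h5 : b ^ 4 * n ^ 2 / 41472 ≤ 2 * n ^ 2 / H + M2 := by
    have e1 : b ^ 4 * n ^ 4 / 2304 = 18 * n ^ 2 * (b ^ 4 * n ^ 2 / 41472) := by ring
    rw [e1] at h4
    exact le_of_mul_le_mul_left h4 (by positivity)
  have h6 : 2 * n ^ 2 / H ≤ b ^ 4 * n ^ 2 / 82944 := by
    rw [div_le_iff₀ hH]
    have : b ^ 4 * n ^ 2 / 82944 * H = n ^ 2 * (H * b ^ 4) / 82944 := by ring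
    rw [this]
    nlinarith [mul_le_mul_of_nonneg_left hH1 (sq_nonneg n)]
  have h7 : b ^ 4 * n ^ 2 / 82944 ≤ M2 := by linarith
  have hLH : 576 * 165888 ≤ (L * H) * b ^ 6 := by
    have : (L * H) * b ^ 6 = (L * b ^ 2) * (H * b ^ 4) := by ring
    rw [this]
    exact mul_le_mul hL1 hH1 (by norm_num) (by positivity)
  have h8 : 4 * n * N * L * (A1 + A2) ≤ b ^ 4 * n ^ 2 / 165888 := by
    have e1 : (4 * L * (1 + H)) * (N * L * (A1 + A2)) ≤ n := by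
      have e2 : (4 * L * (1 + H)) * (N * L) ≤ l := by
        refine le_trans ?_ hl1
        have e3 : 4 * q * L ^ 2 * (1 + H) * N = q * ((4 * L * (1 + H)) * (N * L)) := by ring
        rw [e3]
        have e4 : 0 ≤ (4 * L * (1 + H)) * (N * L) := by positivity
        nlinarith
      calc (4 * L * (1 + H)) * (N * L * (A1 + A2)) = ((4 * L * (1 + H)) * (N * L)) * (A1 + A2) := by ring
        _ ≤ l * (A1 + A2) := mul_le_mul_of_nonneg_right e2 (by linarith)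
        _ ≤ n := hlA
    have e5 : (4 * (L * H)) * (N * L * (A1 + A2)) ≤ n := by
      refine le_trans ?_ e1
      apply mul_le_mul_of_nonneg_right _ (by positivity)
      nlinarith
    have e6 : 4 * (576 * 165888) * (N * L * (A1 + A2)) ≤ n * b ^ 6 := by
      have e7 : 4 * (576 * 165888) * (N * L * (A1 + A2)) ≤ 4 * ((L * H) * b ^ 6) * (N * L * (A1 + A2)) := by
        apply mul_le_mul_of_nonneg_right _ (by positivity)
        linarith
      refine e7.trans ?_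
      have e8 : 4 * ((L * H) * b ^ 6) * (N * L * (A1 + A2)) = ((4 * (L * H)) * (N * L * (A1 + A2))) * b ^ 6 := by ring
      rw [e8]
      exact mul_le_mul_of_nonneg_right e5 (by positivity)
    have e9 : b ^ 6 ≤ b ^ 4 := pow_le_pow_of_le_one hb.le hb1 (by norm_num)
    have e10 : 4 * (576 * 165888) * (N * L * (A1 + A2)) ≤ n * b ^ 4 :=
      e6.trans (mul_le_mul_of_nonneg_left e9 hn0.le)
    have e11 : 4 * n * N * L * (A1 + A2) = 4 * n * (N * L * (A1 + A2)) := by ring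
    rw [e11]
    have e12 : N * L * (A1 + A2) ≤ n * b ^ 4 / (4 * (576 * 165888)) := by
      rw [le_div_iff₀ (by norm_num)]
      linarith
    calc 4 * n * (N * L * (A1 + A2)) ≤ 4 * n * (n * b ^ 4 / (4 * (576 * 165888))) :=
          mul_le_mul_of_nonneg_left e12 (by positivity)
      _ = b ^ 4 * n ^ 2 * (4 / (4 * (576 * 165888))) := by ring
      _ ≤ b ^ 4 * n ^ 2 * (1 / 165888) := by
          apply mul_le_mul_of_nonneg_left _ (by positivity)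
          norm_num
      _ = b ^ 4 * n ^ 2 / 165888 := by ring
  have h9 : b ^ 4 * n ^ 2 / 165888 ≤ V * l * m / N := by
    have : V * l * m / N = A1 * A2 * l * m / N := by rw [hVd]
    rw [this]
    have e1 : b ^ 4 * n ^ 2 / 82944 = b ^ 4 * n ^ 2 / 165888 + b ^ 4 * n ^ 2 / 165888 := by ring
    linarith
  have h10 : b ^ 4 * n ^ 2 / 165888 ≤ 16 * n * (L ^ 2 * (1 + H)) * m := by
    refine h9.trans ?_
    rw [div_le_iff₀ hN0]
    calc V * l * m ≤ V * (8 * q * L ^ 2 * (1 + H) * N) * m := by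
          apply mul_le_mul_of_nonneg_right _ hm
          exact mul_le_mul_of_nonneg_left hl2 hV0
      _ = (q * V) * (8 * (L ^ 2 * (1 + H)) * N * m) := by ring
      _ ≤ (2 * n) * (8 * (L ^ 2 * (1 + H)) * N * m) := by
          apply mul_le_mul_of_nonneg_right hqV
          positivity
      _ = 16 * n * (L ^ 2 * (1 + H)) * m * N := by ring
  have h11 : b ^ 4 * n / 165888 ≤ 16 * (L ^ 2 * (1 + H)) * m := by
    have e1 : b ^ 4 * n ^ 2 / 165888 = n * (b ^ 4 * n / 165888) := by ring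
    have e2 : 16 * n * (L ^ 2 * (1 + H)) * m = n * (16 * (L ^ 2 * (1 + H)) * m) := by ring
    rw [e1, e2] at h10
    exact le_of_mul_le_mul_left h10 hn0
  have h12 : (L ^ 2 * (1 + H)) * b ^ 8 ≤ 577 ^ 2 * 165890 := by
    have e1 : (L ^ 2 * (1 + H)) * b ^ 8 = (L * b ^ 2) ^ 2 * ((1 + H) * b ^ 4) := by ring
    rw [e1]
    apply mul_le_mul _ hH2 (by positivity) (by norm_num)
    exact pow_le_pow_left₀ (by positivity) hL2 2
  have h13 : b ^ 12 * n / 165888 ≤ 16 * (577 ^ 2 * 165890) * m := by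
    calc b ^ 12 * n / 165888 = (b ^ 4 * n / 165888) * b ^ 8 := by ring
      _ ≤ (16 * (L ^ 2 * (1 + H)) * m) * b ^ 8 := mul_le_mul_of_nonneg_right h11 (by positivity)
      _ = 16 * ((L ^ 2 * (1 + H)) * b ^ 8) * m := by ring
      _ ≤ 16 * (577 ^ 2 * 165890) * m := by
          apply mul_le_mul_of_nonneg_right _ hm
          linarith
  have h14 : b ^ 12 * n ≤ 165888 * (16 * (577 ^ 2 * 165890) * m) := by
    have := mul_le_mul_of_nonneg_left h13 (by norm_num : (0:ℝ) ≤ 165888)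
    have e : 165888 * (b ^ 12 * n / 165888) = b ^ 12 * n := by ring
    linarith
  refine h14.trans ?_
  nlinarith

theorem D12 (n q l A1 A2 B1 B2 : ℕ) (hn : 1 ≤ n) (hq : 1 ≤ q) (be : ℝ) (hbe : 0 < be)
    (hbe1 : be ≤ 1) (hB1 : B1 ≤ 2 * A1) (hB2 : B2 ≤ 2 * A2) (hA1 : (10:ℝ) ^ 8 ≤ A1 * be ^ 6)
    (hA2 : (10:ℝ) ^ 8 ≤ A2 * be ^ 6) (hl : (10:ℝ) ^ 12 * q ≤ l * be ^ 8)
    (hlA : l * (A1 + A2) ≤ n) (W f g : ℤ → ℂ) (hW : ∀ x, ‖W x‖ ≤ 1) (hf : ∀ x, ‖f x‖ ≤ 1)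
    (hg : ∀ x, ‖g x‖ ≤ 1) (hT : be * (n:ℝ) ^ 2 ≤ ‖TF n (pd q (Ico (A1:ℤ) B1) (Ico (A2:ℤ) B2)) W f g‖)
    (m : ℝ) (hm : ∀ w : ℤ → ℂ, WL l w → ‖∑ y ∈ Icc (1:ℤ) n, g y * w y‖ ≤ m) :
    be ^ 12 * n ≤ 10 ^ 18 * m := by
  have hnR : (1:ℝ) ≤ n := by exact_mod_cast hn
  have hqR : (1:ℝ) ≤ q := by exact_mod_cast hq
  have hm0 : 0 ≤ m := by
    have h0 : WL l (fun _ => 0) := ⟨0, fun _ => 0, fun _ => 0, by simp, by simp⟩
    exact (norm_nonneg _).trans (hm _ h0)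
  have hTpos : 0 < ‖TF n (pd q (Ico (A1:ℤ) B1) (Ico (A2:ℤ) B2)) W f g‖ :=
    lt_of_lt_of_le (by positivity) hT
  have hV := pd_ne_zero n q A1 A2 B1 B2 W f g (norm_pos_iff.1 hTpos)
  have hb2 : (1:ℝ) ≤ 1 / be ^ 2 := by
    rw [le_div_iff₀ (by positivity), one_mul]
    exact pow_le_one₀ hbe.le hbe1
  have hb4 : (1:ℝ) ≤ 1 / be ^ 4 := by
    rw [le_div_iff₀ (by positivity), one_mul]
    exact pow_le_one₀ hbe.le hbe1
  obtain ⟨L, hLd⟩ : ∃ L : ℕ, L = ⌈576 / be ^ 2⌉₊ := ⟨_, rfl⟩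
  obtain ⟨H, hHd⟩ : ∃ H : ℕ, H = ⌈165888 / be ^ 4⌉₊ := ⟨_, rfl⟩
  have hL1 : 576 / be ^ 2 ≤ (L:ℝ) := by rw [hLd]; exact Nat.le_ceil _
  have hL2 : (L:ℝ) ≤ 577 / be ^ 2 := by
    rw [hLd]
    have h1 := (Nat.ceil_lt_add_one (show (0:ℝ) ≤ 576 / be ^ 2 by positivity)).le
    have h2 : (577:ℝ) / be ^ 2 = 576 / be ^ 2 + 1 / be ^ 2 := by ring
    linarith
  have hH1 : 165888 / be ^ 4 ≤ (H:ℝ) := by rw [hHd]; exact Nat.le_ceil _
  have hH2 : (H:ℝ) ≤ 165889 / be ^ 4 := by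
    rw [hHd]
    have h1 := (Nat.ceil_lt_add_one (show (0:ℝ) ≤ 165888 / be ^ 4 by positivity)).le
    have h2 : (165889:ℝ) / be ^ 4 = 165888 / be ^ 4 + 1 / be ^ 4 := by ring
    linarith
  have k1 : 576 ≤ (L:ℝ) * be ^ 2 := by rw [div_le_iff₀ (by positivity)] at hL1; exact hL1
  have k2 : (L:ℝ) * be ^ 2 ≤ 577 := by rw [le_div_iff₀ (by positivity)] at hL2; exact hL2
  have k3 : 165888 ≤ (H:ℝ) * be ^ 4 := by rw [div_le_iff₀ (by positivity)] at hH1; exact hH1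
  have k4' : (H:ℝ) * be ^ 4 ≤ 165889 := by rw [le_div_iff₀ (by positivity)] at hH2; exact hH2
  have hbp4 : be ^ 4 ≤ 1 := pow_le_one₀ hbe.le hbe1
  have k4 : (1 + (H:ℝ)) * be ^ 4 ≤ 165890 := by nlinarith
  have hL0 : (0:ℝ) < L := by
    have : (0:ℝ) < 576 / be ^ 2 := by positivity
    linarith
  have hH0 : (0:ℝ) < H := by
    have : (0:ℝ) < 165888 / be ^ 4 := by positivity
    linarith
  have hLn : 1 ≤ L := by exact_mod_cast hL0
  have hHn : 1 ≤ H := by exact_mod_cast hH0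
  obtain ⟨P, hPd⟩ : ∃ P : ℕ, P = 4 * q * L ^ 2 * (1 + H) := ⟨_, rfl⟩
  have hP0 : 0 < P := by rw [hPd]; positivity
  have hPR : (P:ℝ) = 4 * q * (L:ℝ) ^ 2 * (1 + H) := by rw [hPd]; push_cast; ring
  have hPl : P ≤ l := by
    have e1 : (P:ℝ) * be ^ 8 ≤ 10 ^ 12 * q := by
      have e2 : (P:ℝ) * be ^ 8 = 4 * q * (((L:ℝ) * be ^ 2) ^ 2 * ((1 + (H:ℝ)) * be ^ 4)) := by rw [hPR]; ring
      rw [e2]
      have e3 : ((L:ℝ) * be ^ 2) ^ 2 * ((1 + (H:ℝ)) * be ^ 4) ≤ 577 ^ 2 * 165890 := by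
        apply mul_le_mul _ k4 (by positivity) (by norm_num)
        exact pow_le_pow_left₀ (by positivity) k2 2
      have e4 : 4 * (q:ℝ) * (((L:ℝ) * be ^ 2) ^ 2 * ((1 + (H:ℝ)) * be ^ 4)) ≤ 4 * q * (577 ^ 2 * 165890) :=
        mul_le_mul_of_nonneg_left e3 (by positivity)
      refine e4.trans ?_
      nlinarith
    have e5 : (P:ℝ) ≤ l := by
      have := e1.trans hl
      exact le_of_mul_le_mul_right this (by positivity)
    exact_mod_cast e5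
  obtain ⟨N, hNd⟩ : ∃ N : ℕ, N = l / P := ⟨_, rfl⟩
  have hN1 : 1 ≤ N := by rw [hNd]; exact (Nat.one_le_div_iff hP0).2 hPl
  have hNl : P * N ≤ l := by rw [hNd, mul_comm]; exact Nat.div_mul_le_self l P
  have hNl2 : l < P * (N + 1) := by
    rw [hNd]
    exact Nat.lt_mul_div_succ l hP0
  have hA : ∀ A : ℕ, (10:ℝ) ^ 8 ≤ A * be ^ 6 → 2 * L ≤ A ∧ H * L ≤ A := by
    intro A hA
    have hb6 : (0:ℝ) < be ^ 6 := by positivity
    constructor
    · have e1 : ((2 * L : ℕ):ℝ) * be ^ 6 ≤ A * be ^ 6 := by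
        refine le_trans ?_ hA
        push_cast
        have e2 : be ^ 6 ≤ be ^ 2 := pow_le_pow_of_le_one hbe.le hbe1 (by norm_num)
        have e3 : 2 * (L:ℝ) * be ^ 6 ≤ 2 * L * be ^ 2 := mul_le_mul_of_nonneg_left e2 (by positivity)
        nlinarith
      exact_mod_cast le_of_mul_le_mul_right e1 hb6
    · have e1 : ((H * L : ℕ):ℝ) * be ^ 6 ≤ A * be ^ 6 := by
        refine le_trans ?_ hA
        push_cast
        have e2 : (H:ℝ) * L * be ^ 6 = (H * be ^ 4) * (L * be ^ 2) := by ring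
        rw [e2]
        have e3 : ((H:ℝ) * be ^ 4) * (L * be ^ 2) ≤ 165889 * 577 :=
          mul_le_mul k4' k2 (by positivity) (by norm_num)
        refine e3.trans (by norm_num)
      exact_mod_cast le_of_mul_le_mul_right e1 hb6
  have hts := two_steps n q l N L H A1 A2 B1 B2 hn hq hN1 hLn hHn (by rw [← hPd]; exact hNl)
    (hA A1 hA1).1 (hA A2 hA2).1 (hA A1 hA1).2 (hA A2 hA2).2 hB1 hB2 W f g hW hf hg m hm
  have hN1R : (1:ℝ) ≤ N := by exact_mod_cast hN1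
  have hl0 : (0:ℝ) < l := by
    have : 0 < l := lt_of_lt_of_le hP0 hPl
    exact_mod_cast this
  refine d2_num n A1 A2 q l N L H m be hbe hbe1 hnR hqR (by positivity) (by positivity) hm0 hL0 hH0
    hN1R hl0 (by exact_mod_cast hV) (by exact_mod_cast hlA) k1 k2 k3 k4 ?_ ?_ ?_
  · have : ((P * N : ℕ):ℝ) ≤ l := by exact_mod_cast hNl
    push_cast at this
    rw [hPR] at this
    exact this
  · have h1 : ((l:ℕ):ℝ) ≤ ((P * (N + 1) : ℕ):ℝ) := by exact_mod_cast hNl2.le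
    push_cast at h1
    have h2 : (P:ℝ) * ((N:ℝ) + 1) ≤ P * (2 * N) := by
      apply mul_le_mul_of_nonneg_left _ (by positivity)
      linarith
    refine h1.trans (h2.trans ?_)
    rw [hPR]
    apply le_of_eq
    ring
  · refine le_trans ?_ hts
    exact pow_le_pow_left₀ (by positivity) hT 2

end Pool.Agent.H44W
end
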