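import Pool.Agent.Lib.H59M.M2.M007
import Pool.Agent.Lib.H59M.M2.M011

/-! Merged copies (to shorten the build) of Lib.H81A.DY, Lib.H81A.HB, Lib.H81W.S3. -/

-- from Lib.H81A.DY
section

/-!
# H81A, chunk DY (M): dyadic decomposition of a product
-/

namespace Pool.Agent.Lib.H81A

open Finset ArithmeticFunction

theorem dy_sum (f : ArithmeticFunction ℝ) (L n : ℕ) (hn : n < 2 ^ L) : f n = (∑ k ∈ range L, dy k f) n := by
  have hs : (∑ k ∈ range L, dy k f) n = ∑ k ∈ range L, dy k f n := by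
    induction L with
    | zero => simp
    | succ L ih =>
      clear ih hn
      induction (L + 1) with
      | zero => simp
      | succ M ih => rw [Finset.sum_range_succ, Finset.sum_range_succ, ArithmeticFunction.add_apply, ih]
  rw [hs]
  rcases Nat.eq_zero_or_pos n with rfl | hpos
  · simp
  have hlog : Nat.log 2 n < L := Nat.log_lt_of_lt_pow hpos.ne' hn
  rw [Finset.sum_eq_single_of_mem (Nat.log 2 n) (mem_range.2 hlog)]
  · rw [dy_apply, if_pos ⟨Nat.pow_log_le_self 2 hpos.ne', Nat.lt_pow_succ_log_self (by norm_num) n⟩]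
  · intro k _ hk
    rw [dy_apply, if_neg]
    rintro ⟨h1, h2⟩
    apply hk
    exact ((Nat.log_eq_iff (Or.inr ⟨by norm_num, hpos.ne'⟩)).2 ⟨h1, h2⟩).symm

theorem dy_agree {ι : Type} (s : Finset ι) (F G : ι → ArithmeticFunction ℝ) (M : ℕ) (h : ∀ i ∈ s, ∀ n < M, F i n = G i n) :
    ∀ n < M, (∏ i ∈ s, F i) n = (∏ i ∈ s, G i) n := by
  classical
  induction s using Finset.induction_on with
  | empty => intro n _; simp
  | insert a s ha ih =>
    intro n hn
    rw [Finset.prod_insert ha, Finset.prod_insert ha, mul_apply, mul_apply]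
    refine Finset.sum_congr rfl fun x hx => ?_
    rw [Nat.mem_divisorsAntidiagonal] at hx
    have hpos : 0 < n := Nat.pos_of_ne_zero hx.2
    have h1 : x.1 ≤ n := Nat.le_of_dvd hpos ⟨x.2, hx.1.symm⟩
    have h2 : x.2 ≤ n := Nat.le_of_dvd hpos ⟨x.1, by rw [mul_comm]; exact hx.1.symm⟩
    rw [h a (Finset.mem_insert_self a s) x.1 (lt_of_le_of_lt h1 hn),
      ih (fun i hi => h i (Finset.mem_insert_of_mem hi)) x.2 (lt_of_le_of_lt h2 hn)]

theorem dy_sum_apply {κ : Type} (s : Finset κ) (f : κ → ArithmeticFunction ℝ) (m : ℕ) : (∑ k ∈ s, f k) m = ∑ k ∈ s, f k m := by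
  classical
  induction s using Finset.induction_on with
  | empty => simp
  | insert a s ha ih => rw [Finset.sum_insert ha, Finset.sum_insert ha, ArithmeticFunction.add_apply, ih]

/-- PROOF. For `n < 2 ^ L`: `F i n = ∑ k ∈ range L, dy k (F i) n` (`dy_apply`; for `n ≥ 1` exactly one `k`, namely `Nat.log 2 n`; for `n = 0` both sides are `0`). Two families of arithmetic functions which agree on `n < M` have products which agree on
`n < M` (induction over the finset; `ArithmeticFunction.mul_apply`, divisors of `m` are `≤ m`). Then `Finset.prod_univ_sum`. -/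
theorem dyadic {ι : Type} [Fintype ι] [DecidableEq ι] (F : ι → ArithmeticFunction ℝ) (L m : ℕ) (hm : m < 2 ^ L) :
    (∏ i, F i) m = ∑ k ∈ Fintype.piFinset (fun _ : ι => range L), (∏ i, dy (k i) (F i)) m := by
  have h1 := dy_agree (Finset.univ : Finset ι) F (fun i => ∑ k ∈ range L, dy k (F i)) (2 ^ L)
    (fun i _ n hn => dy_sum (F i) L n hn) m hm
  rw [h1, Finset.prod_univ_sum, dy_sum_apply]

end Pool.Agent.Lib.H81A
end

-- from Lib.H81A.HB
section

/-!
# H81A, chunk HB (M): Heath-Brown's identity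
-/

namespace Pool.Agent.Lib.H81A

open Finset ArithmeticFunction

theorem hb_one1 : one1 = ((zeta : ArithmeticFunction ℕ) : ArithmeticFunction ℝ) := by
  ext n
  simp only [one1, af, coe_mk, natCoe_apply, zeta_apply]
  split_ifs <;> simp

theorem hb_logf : logf = ArithmeticFunction.log := by
  ext n
  simp only [logf, af, coe_mk, log_apply]
  split_ifs with h
  · simp [h]
  · rfl

theorem hb_vanish (f g : ArithmeticFunction ℝ) (a b : ℕ) (hf : ∀ n < a, f n = 0)
    (hg : ∀ n < b, g n = 0) : ∀ n < a * b, (f * g) n = 0 := by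
  intro n hn
  rw [mul_apply]
  refine Finset.sum_eq_zero fun p hp => ?_
  rw [Nat.mem_divisorsAntidiagonal] at hp
  by_cases h1 : p.1 < a
  · rw [hf _ h1, zero_mul]
  · by_cases h2 : p.2 < b
    · rw [hg _ h2, mul_zero]
    · exfalso
      have := Nat.mul_le_mul (not_lt.1 h1) (not_lt.1 h2)
      rw [hp.1] at this
      omega

theorem hb_sub (f g : ArithmeticFunction ℝ) (n : ℕ) : (f - g) n = f n - g n := by
  have h : (f - g + g) n = f n := by rw [sub_add_cancel]
  rw [ArithmeticFunction.add_apply] at h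
  linarith

theorem hb_eps (V n : ℕ) (hn : n < V + 1) : (1 - muV V * one1 : ArithmeticFunction ℝ) n = 0 := by
  rcases Nat.eq_zero_or_pos n with rfl | hpos
  · simp
  have h1 : (muV V * one1 : ArithmeticFunction ℝ) n =
      ((moebius : ArithmeticFunction ℝ) * (zeta : ArithmeticFunction ℝ)) n := by
    rw [mul_apply, mul_apply]
    refine Finset.sum_congr rfl fun p hp => ?_
    rw [Nat.mem_divisorsAntidiagonal] at hp
    have hp1 : p.1 ≠ 0 := by
      intro h
      rw [h, zero_mul] at hp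
      exact hp.2 hp.1.symm
    have hle : p.1 ≤ V := by
      have : p.1 ≤ n := Nat.le_of_dvd hpos ⟨p.2, hp.1.symm⟩
      omega
    rw [hb_one1]
    congr 1
    simp only [muV, af, coe_mk, if_neg hp1, if_pos hle, intCoe_apply]
  rw [hb_sub, h1, coe_moebius_mul_coe_zeta]
  simp

theorem hb_pow (f : ArithmeticFunction ℝ) (a : ℕ) (hf : ∀ n < a, f n = 0) (J : ℕ) :
    ∀ n < a ^ J, (f ^ J * vonMangoldt) n = 0 := by
  induction J with
  | zero =>
    intro n hn
    have : n = 0 := by simpa using hn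
    rw [this, ArithmeticFunction.map_zero]
  | succ J ih =>
    intro n hn
    have h := hb_vanish f (f ^ J * vonMangoldt) a (a ^ J) hf ih n (by rwa [pow_succ'] at hn)
    rw [pow_succ', mul_assoc]
    exact h

/-- Evaluation at `m` as an additive map. -/
noncomputable def hb_ev (m : ℕ) : ArithmeticFunction ℝ →+ ℝ where
  toFun f := f m
  map_zero' := rfl
  map_add' _ _ := rfl

theorem hb_scal (f : ArithmeticFunction ℝ) (j c m : ℕ) : hb_ev m ((-1) ^ j * (c : ArithmeticFunction ℝ) * f) = (-1 : ℝ) ^ j * (c : ℝ) * f m := by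
  have h1 : hb_ev m ((c : ArithmeticFunction ℝ) * f) = (c : ℝ) * f m := by
    rw [← nsmul_eq_mul, map_nsmul, nsmul_eq_mul]
    rfl
  induction j with
  | zero => rw [pow_zero, pow_zero, one_mul, one_mul, h1]
  | succ j ih =>
    have e : (-1) ^ (j + 1) * (c : ArithmeticFunction ℝ) * f = -((-1) ^ j * (c : ArithmeticFunction ℝ) * f) := by ring
    rw [e, map_neg, ih]
    ring

/-- PROOF. As `heath_brown` in Lib/H68T/HBI.lean (there `J = 3`, same definitions: its lemmas HBI_one1, HBI_logf, HBI_vanish, HBI_sub, HBI_eps may be copied with names hb_..). `e = 1 - muV z * one1` vanishes on `n ≤ z`, so `e ^ J` vanishes on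
`n < (z + 1) ^ J` (induction on `J`, hb_vanish), so `e ^ J * Λ` vanishes there. The binomial theorem (`add_pow` for `(-(muV z * one1) + 1) ^ J`, commutative ring; `Finset.sum_range_succ'` separates the term `1`) and `Λ * one1 = logf` (`vonMangoldt_mul_zeta`) give
`e ^ J * Λ = Λ - ∑ j ∈ range J, (-1) ^ j (J choose (j + 1)) muV ^ (j + 1) one1 ^ j logf`. (Scalars: natural numbers / integers as elements of the ring, or evaluate at `m` with `ArithmeticFunction.sum_apply`-type lemmas; a real constant times an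
arithmetic function may be avoided by working in the ring.) -/
theorem hb_identity (z J m : ℕ) (hm : m < (z + 1) ^ J) :
    vonMangoldt m = ∑ j ∈ range J, (-1 : ℝ) ^ j * (J.choose (j + 1) : ℝ) * (muV z ^ (j + 1) * one1 ^ j * logf) m := by
  have hlog : logf = vonMangoldt * one1 := by
    rw [hb_logf, hb_one1, vonMangoldt_mul_zeta]
  have key : (vonMangoldt : ArithmeticFunction ℝ) = (1 - muV z * one1) ^ J * vonMangoldt +
      ∑ j ∈ range J, (-1) ^ j * ((J.choose (j + 1) : ℕ) : ArithmeticFunction ℝ) * (muV z ^ (j + 1) * one1 ^ j * logf) := by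
    have e1 : (1 - muV z * one1 : ArithmeticFunction ℝ) = -(muV z * one1) + 1 := by ring
    rw [e1, add_pow, Finset.sum_range_succ', add_mul, Finset.sum_mul]
    have e2 : ∀ j ∈ range J, (-1) ^ j * ((J.choose (j + 1) : ℕ) : ArithmeticFunction ℝ) * (muV z ^ (j + 1) * one1 ^ j * logf) =
        -((-(muV z * one1)) ^ (j + 1) * 1 ^ (J - (j + 1)) * ((J.choose (j + 1) : ℕ) : ArithmeticFunction ℝ) * vonMangoldt) := by
      intro j _
      rw [hlog, neg_pow (muV z * one1), mul_pow]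
      ring
    rw [Finset.sum_congr rfl e2, Finset.sum_neg_distrib]
    simp
  have h0 : ((1 - muV z * one1) ^ J * vonMangoldt : ArithmeticFunction ℝ) m = 0 :=
    hb_pow _ (z + 1) (hb_eps z) J m hm
  have h1 : hb_ev m (vonMangoldt : ArithmeticFunction ℝ) = hb_ev m ((1 - muV z * one1) ^ J * vonMangoldt) +
      ∑ j ∈ range J, hb_ev m ((-1) ^ j * ((J.choose (j + 1) : ℕ) : ArithmeticFunction ℝ) * (muV z ^ (j + 1) * one1 ^ j * logf)) := by
    rw [← map_sum, ← map_add, ← key]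
  have h2 : hb_ev m ((1 - muV z * one1) ^ J * vonMangoldt) = 0 := h0
  have h3 : hb_ev m (vonMangoldt : ArithmeticFunction ℝ) = vonMangoldt m := rfl
  rw [h3, h2, zero_add] at h1
  rw [h1]
  exact Finset.sum_congr rfl fun j _ => hb_scal _ _ _ _

end Pool.Agent.Lib.H81A
end

-- from Lib.H81W.S3
section

/-!
# H81W, step 3 for one pair `(j, k)`
-/

open Finset

namespace Pool.Agent.Lib.H81W

open Pool.Agent.H44W (ee TF cut)
open Pool.Agent.H81E (norm_ee ee_add ee_neg)

theorem Per.mul {m : ℕ} {p q : ℤ → ℂ} (hp : Per m p) (hq : Per m q) : Per m (fun y => p y * q y) := fun y z h => by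
  dsimp only
  rw [hp y z h, hq y z h]

theorem Per.conj {m : ℕ} {p : ℤ → ℂ} (hp : Per m p) : Per m (fun y => (starRingEnd ℂ) (p y)) := fun y z h => by
  dsimp only
  rw [hp y z h]

theorem Per.shift {m : ℕ} {p : ℤ → ℂ} (hp : Per m p) (t : ℤ) : Per m (fun y => p (y - t)) := fun y z h =>
  hp _ _ (by rw [show y - t - (z - t) = y - z by ring]; exact h)

/-- A sum over a big interval of a function vanishing outside a shifted interval. -/
theorem sum_shift (n : ℕ) (Q q : ℤ) (hq : |q| + n ≤ Q) (F : ℤ → ℂ) (hF : ∀ y, y + q ∉ Icc (1 : ℤ) n → F y = 0) :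
    ∑ y ∈ Icc (-Q) Q, F y = ∑ z ∈ Icc (1 : ℤ) n, F (z - q) := by
  have hq1 := abs_le.1 (show |q| ≤ |q| from le_rfl)
  rw [← sum_subset (s₁ := Icc (1 - q) (n - q))]
  · refine sum_bij' (fun y _ => y + q) (fun z _ => z - q) ?_ ?_ ?_ ?_ ?_
    · intro y hy
      rw [mem_Icc] at hy ⊢
      omega
    · intro y hy
      rw [mem_Icc] at hy ⊢
      omega
    · intro y _
      ring
    · intro y _
      ring
    · intro y _
      rw [add_sub_cancel_right]
  · intro y hy
    rw [mem_Icc] at hy ⊢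
    omega
  · intro y _ hy
    apply hF
    rw [mem_Icc] at hy ⊢
    omega

/-- Step 3 for one pair. -/
theorem step3 (n m : ℕ) (hm : 0 < m) (hmn : m ≤ n) (g : ℤ → ℂ) (hg : ∀ x, ‖g x‖ ≤ 1) (hs : ∀ y, y ∉ Icc (1 : ℤ) n → g y = 0) {ι : Type*} (A : Finset ι) (q : ι → ℤ)
    (th : ℝ) (X : ℝ) (hX0 : 0 ≤ X) (hX : X ≤ ∑ a ∈ A, En n m (fun y => Gd g (q a) y * ee (th * y))) :
    X ^ 4 * m ^ 3 ≤ 16 * n ^ 6 * (A.card : ℝ) ^ 2 * ∑ a ∈ A, ∑ b ∈ A, En n m (Gd g (q b - q a)) := by
  classical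
  have hmr : (0 : ℝ) < m := by exact_mod_cast hm
  have hnr : (0 : ℝ) < n := by exact_mod_cast (by omega : 0 < n)
  have h1 : ∀ a : ι, ∃ p : ℤ → ℂ, Per m p ∧ (∀ y, ‖p y‖ ≤ 1) ∧
      ∑ y ∈ Icc (1 : ℤ) n, (Gd g (q a) y * ee (th * y)) * p y = ((m / (2 * n) * En n m (fun y => Gd g (q a) y * ee (th * y)) : ℝ) : ℂ) :=
    fun a => PX n m hm hmn _ fun y => by
      rw [norm_mul, norm_ee, mul_one]
      exact norm_Gd_le hg _ _
  choose p hp1 hp2 hp3 using h1
  set T : ℤ → ℂ := fun y => ∑ a ∈ A, (starRingEnd ℂ) (g (y + q a)) * p a y with hT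
  set Q : ℤ := n + ∑ a ∈ A, |q a| with hQ
  have hQa : ∀ a ∈ A, |q a| + n ≤ Q := by
    intro a ha
    have := single_le_sum (f := fun a => |q a|) (fun i _ => abs_nonneg (q i)) ha
    rw [hQ]
    linarith
  have hQn : (n : ℤ) ≤ Q := by
    rw [hQ]
    have : 0 ≤ ∑ a ∈ A, |q a| := sum_nonneg fun i _ => abs_nonneg _
    linarith
  -- first Cauchy-Schwarz
  have h2 : (m / (2 * n) * X) ^ 2 ≤ n * ∑ y ∈ Icc (-Q) Q, ‖T y‖ ^ 2 := by
    have h3 : m / (2 * n) * X ≤ ∑ y ∈ Icc (1 : ℤ) n, 1 * ‖T y‖ := by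
      have h4 : ((m / (2 * n) * ∑ a ∈ A, En n m (fun y => Gd g (q a) y * ee (th * y)) : ℝ) : ℂ) = ∑ y ∈ Icc (1 : ℤ) n, g y * ee (th * y) * T y := by
        rw [mul_sum, Complex.ofReal_sum]
        simp_rw [← hp3]
        rw [sum_comm]
        refine sum_congr rfl fun y _ => ?_
        rw [hT]
        dsimp only
        rw [mul_sum]
        refine sum_congr rfl fun a _ => ?_
        unfold Gd
        ring
      have h5 : ‖((m / (2 * n) * ∑ a ∈ A, En n m (fun y => Gd g (q a) y * ee (th * y)) : ℝ) : ℂ)‖ ≤ ∑ y ∈ Icc (1 : ℤ) n, 1 * ‖T y‖ := by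
        rw [h4]
        refine (norm_sum_le _ _).trans (sum_le_sum fun y _ => ?_)
        rw [norm_mul, norm_mul, norm_ee, mul_one]
        exact mul_le_mul_of_nonneg_right (hg y) (norm_nonneg _)
      rw [Complex.norm_real, Real.norm_eq_abs] at h5
      calc m / (2 * n) * X ≤ m / (2 * n) * ∑ a ∈ A, En n m (fun y => Gd g (q a) y * ee (th * y)) := mul_le_mul_of_nonneg_left hX (by positivity)
        _ ≤ _ := (le_abs_self _).trans h5
    have h4 := sum_mul_sq_le_sq_mul_sq (Icc (1 : ℤ) n) (fun _ => (1 : ℝ)) (fun y => ‖T y‖)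
    calc (m / (2 * n) * X) ^ 2 ≤ (∑ y ∈ Icc (1 : ℤ) n, 1 * ‖T y‖) ^ 2 := pow_le_pow_left₀ (by positivity) h3 2
      _ ≤ _ := h4
      _ = n * ∑ y ∈ Icc (1 : ℤ) n, ‖T y‖ ^ 2 := by simp
      _ ≤ n * ∑ y ∈ Icc (-Q) Q, ‖T y‖ ^ 2 := by
          refine mul_le_mul_of_nonneg_left (sum_le_sum_of_subset_of_nonneg ?_ fun _ _ _ => by positivity) hnr.le
          intro y hy
          rw [mem_Icc] at hy ⊢
          omega
  -- expansion
  have h3 : ∑ y ∈ Icc (-Q) Q, ‖T y‖ ^ 2 ≤ ∑ a ∈ A, ∑ b ∈ A, Real.sqrt (m * En n m (Gd g (q b - q a))) := by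
    have h4 : ((∑ y ∈ Icc (-Q) Q, ‖T y‖ ^ 2 : ℝ) : ℂ) =
        ∑ a ∈ A, ∑ b ∈ A, ∑ y ∈ Icc (-Q) Q, (starRingEnd ℂ) (g (y + q a)) * g (y + q b) * (p a y * (starRingEnd ℂ) (p b y)) := by
      rw [Complex.ofReal_sum]
      have h5 : ∀ y, ((‖T y‖ ^ 2 : ℝ) : ℂ) = ∑ a ∈ A, ∑ b ∈ A, (starRingEnd ℂ) (g (y + q a)) * g (y + q b) * (p a y * (starRingEnd ℂ) (p b y)) := by
        intro y
        rw [Complex.ofReal_pow, ← Complex.mul_conj', hT]
        dsimp only
        rw [map_sum, sum_mul_sum]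
        refine sum_congr rfl fun a _ => sum_congr rfl fun b _ => ?_
        rw [map_mul, Complex.conj_conj]
        ring
      simp_rw [h5]
      rw [sum_comm]
      refine sum_congr rfl fun a _ => ?_
      rw [sum_comm]
    have h5 : ∀ a ∈ A, ∀ b ∈ A, ‖∑ y ∈ Icc (-Q) Q, (starRingEnd ℂ) (g (y + q a)) * g (y + q b) * (p a y * (starRingEnd ℂ) (p b y))‖ ≤
        Real.sqrt (m * En n m (Gd g (q b - q a))) := by
      intro a ha b hb
      rw [sum_shift n Q (q a) (hQa a ha)]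
      · have h6 : ∑ z ∈ Icc (1 : ℤ) n, (starRingEnd ℂ) (g (z - q a + q a)) * g (z - q a + q b) * (p a (z - q a) * (starRingEnd ℂ) (p b (z - q a))) =
            (starRingEnd ℂ) (∑ z ∈ Icc (1 : ℤ) n, Gd g (q b - q a) z * ((starRingEnd ℂ) (p a (z - q a)) * p b (z - q a))) := by
          rw [map_sum]
          refine sum_congr rfl fun z _ => ?_
          unfold Gd
          rw [map_mul, map_mul, map_mul, Complex.conj_conj, Complex.conj_conj, sub_add_cancel, show z - q a + q b = z + (q b - q a) by ring]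
        rw [h6, RCLike.norm_conj]
        apply Real.le_sqrt_of_sq_le
        refine PC n m hm _ _ (((hp1 a).shift (q a)).conj.mul ((hp1 b).shift (q a))) ?_
        intro y
        rw [norm_mul, RCLike.norm_conj]
        exact mul_le_one₀ (hp2 a _) (norm_nonneg _) (hp2 b _)
      · intro y hy
        rw [hs _ hy, map_zero, zero_mul, zero_mul]
    have h6 : ∑ y ∈ Icc (-Q) Q, ‖T y‖ ^ 2 = ‖((∑ y ∈ Icc (-Q) Q, ‖T y‖ ^ 2 : ℝ) : ℂ)‖ := by
      rw [Complex.norm_real, Real.norm_eq_abs, abs_of_nonneg (sum_nonneg fun _ _ => by positivity)]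
    rw [h6, h4]
    refine (norm_sum_le _ _).trans (sum_le_sum fun a ha => ?_)
    exact (norm_sum_le _ _).trans (sum_le_sum fun b hb => h5 a ha b hb)
  -- second Cauchy-Schwarz
  have h4 : (∑ a ∈ A, ∑ b ∈ A, Real.sqrt (m * En n m (Gd g (q b - q a)))) ^ 2 ≤ (A.card : ℝ) ^ 2 * (m * ∑ a ∈ A, ∑ b ∈ A, En n m (Gd g (q b - q a))) := by
    have h5 := sum_mul_sq_le_sq_mul_sq (A ×ˢ A) (fun _ => (1 : ℝ)) (fun x => Real.sqrt (m * En n m (Gd g (q x.2 - q x.1))))
    have h6 : ∑ x ∈ A ×ˢ A, 1 * Real.sqrt (m * En n m (Gd g (q x.2 - q x.1))) = ∑ a ∈ A, ∑ b ∈ A, Real.sqrt (m * En n m (Gd g (q b - q a))) := by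
      rw [sum_product]
      simp
    have h7 : ∑ x ∈ A ×ˢ A, Real.sqrt (m * En n m (Gd g (q x.2 - q x.1))) ^ 2 = m * ∑ a ∈ A, ∑ b ∈ A, En n m (Gd g (q b - q a)) := by
      rw [sum_product, mul_sum]
      refine sum_congr rfl fun a _ => ?_
      rw [mul_sum]
      refine sum_congr rfl fun b _ => ?_
      rw [Real.sq_sqrt (mul_nonneg hmr.le (En_nonneg _ _ _))]
    have h8 : ∑ i ∈ A ×ˢ A, (1 : ℝ) ^ 2 = (A.card : ℝ) ^ 2 := by
      rw [one_pow, sum_const, card_product, nsmul_eq_mul, mul_one, Nat.cast_mul, sq]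
    rw [h6, h7, h8] at h5
    exact h5
  set SS := ∑ a ∈ A, ∑ b ∈ A, En n m (Gd g (q b - q a)) with hSig
  have h5 : (m / (2 * n) * X) ^ 4 ≤ n ^ 2 * ((A.card : ℝ) ^ 2 * (m * SS)) := by
    calc (m / (2 * n) * X) ^ 4 = ((m / (2 * n) * X) ^ 2) ^ 2 := by ring
      _ ≤ (n * ∑ a ∈ A, ∑ b ∈ A, Real.sqrt (m * En n m (Gd g (q b - q a)))) ^ 2 :=
          pow_le_pow_left₀ (by positivity) (h2.trans (mul_le_mul_of_nonneg_left h3 hnr.le)) 2
      _ = n ^ 2 * (∑ a ∈ A, ∑ b ∈ A, Real.sqrt (m * En n m (Gd g (q b - q a)))) ^ 2 := by ring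
      _ ≤ _ := mul_le_mul_of_nonneg_left h4 (by positivity)
  have h6 : (m / (2 * n) * X) ^ 4 = m * (X ^ 4 * m ^ 3) / (16 * n ^ 4) := by
    field_simp
    ring
  rw [h6, div_le_iff₀ (by positivity)] at h5
  have h7 : m * (X ^ 4 * m ^ 3) ≤ m * (16 * n ^ 6 * (A.card : ℝ) ^ 2 * SS) := by
    refine h5.trans (le_of_eq ?_)
    ring
  exact le_of_mul_le_mul_left h7 hmr

end Pool.Agent.Lib.H81W
end
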