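import Mathlib
import Pool.Agent.Lib.H59M.M2.M001
import Pool.Agent.Lib.H59M.M2.M012

/-! Merged copies (to shorten the build) of Lib.H15P.Defs, Lib.H56G.Defs, Lib.H84V.Defs, Lib.H15P.PB1, Lib.H59.ChebLite, Lib.H59.PolyKey, Lib.SZW.C1, Lib.H3B.Defs, Lib.H3B.A2, Lib.SZW.A2, Lib.SZW.A3. -/

-- from Lib.H15P.Defs
section

/-!
# H15P: definitions

`ι` = index type of the primes, `J` = index type of the forms `b j + M t`, `I` = labels (scales).
-/

open Finset

namespace Pool.Agent.Lib.H15P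

/-- Bernoulli weight of the set `A` (the element `i` is chosen with probability `q i`). -/
noncomputable def bw {ι : Type} [Fintype ι] [DecidableEq ι] (q : ι → ℝ) (A : Finset ι) : ℝ :=
  ∏ i, if i ∈ A then q i else 1 - q i

/-- Expectation of a function of one random set. -/
noncomputable def ex {ι : Type} [Fintype ι] [DecidableEq ι] (q : ι → ℝ)
    (F : Finset ι → ℝ) : ℝ := ∑ A : Finset ι, F A * bw q A

/-- Expectation of a function of a family of independent random sets. -/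
noncomputable def EX {ι J : Type} [Fintype ι] [DecidableEq ι] [Fintype J] [DecidableEq J]
    (q : ι → ℝ) (F : (J → Finset ι) → ℝ) : ℝ :=
  ∑ S : J → Finset ι, F S * ∏ j, bw q (S j)

/-- Number of the forms with label `i`. -/
def cnt {J I : Type} [Fintype J] [DecidableEq I] (l : J → Option I) (i : I) : ℕ :=
  (univ.filter (fun j => l j = some i)).card

/-- Admissible labelings: only forms of `B` are labelled, at most `m i` of them with label `i`. -/
def adm {J I : Type} [Fintype J] [DecidableEq J] [Fintype I] [DecidableEq I]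
    (B : Finset J) (m : I → ℕ) : Finset (J → Option I) :=
  univ.filter (fun l => (∀ j, j ∉ B → l j = none) ∧ ∀ i, cnt l i ≤ m i)








/-! ## Forms -/

/-- The primes of `P` which divide `e`. -/
def hit (P : Finset ℕ) (e : ℕ) : Finset {p // p ∈ P} := univ.filter (fun p => p.1 ∣ e)

/-- The probabilities: `1/p`, slightly increased (`K` = bound for the number of forms). -/
noncomputable def qq (P : Finset ℕ) (K : ℕ) (p : {p // p ∈ P}) : ℝ :=
  (1 / (p.1 : ℝ) + 2 * K / (p.1 : ℝ) ^ 2) / (1 + 2 * K / (p.1 : ℝ) ^ 2)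

/-- Hypotheses on the primes `P` and the forms `b j + M t`. -/
structure Forms {J : Type} [Fintype J] (P : Finset ℕ) (W K M : ℕ) (b : J → ℕ) : Prop where
  prime : ∀ p ∈ P, p.Prime
  big : ∀ p ∈ P, W < p
  cop : ∀ p ∈ P, ¬ p ∣ M
  dist : ∀ p ∈ P, ∀ j j', j ≠ j' → ¬ (b j ≡ b j' [MOD p])
  one_le : 1 ≤ K
  card : Fintype.card J ≤ K
  KW : 4 * K ^ 2 ≤ W

/-- Mean value over a full period. -/
noncomputable def EP {J : Type} (P : Finset ℕ) (M : ℕ) (b : J → ℕ)
    (F : (J → Finset {p // p ∈ P}) → ℝ) : ℝ :=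
  (∑ t ∈ range (∏ p ∈ P, p), F (fun j => hit P (b j + M * t))) / ((∏ p ∈ P, p : ℕ) : ℝ)

/-- `G` is a finite sum of functions `g` with periods `d ∣ Q` such that `Σ d ‖g‖ ≤ K`. -/
inductive Lev (Q : ℕ) : (ℕ → ℝ) → ℝ → Prop
  | base (g : ℕ → ℝ) (d : ℕ) (c : ℝ) (hd0 : 0 < d) (hd : d ∣ Q) (hper : Function.Periodic g d)
      (hc : ∀ t, |g t| ≤ c) : Lev Q g (d * c)
  | add (G G' : ℕ → ℝ) (K K' : ℝ) (h : Lev Q G K) (h' : Lev Q G' K') :
      Lev Q (fun t => G t + G' t) (K + K')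
  | mono (G : ℕ → ℝ) (K K' : ℝ) (h : Lev Q G K) (hK : K ≤ K') : Lev Q G K'

/-- Level of a function of the set of the primes dividing a form. -/
def LevS (P : Finset ℕ) (F : Finset {p // p ∈ P} → ℝ) (K : ℝ) : Prop :=
  ∀ M b : ℕ, Lev (∏ p ∈ P, p) (fun t => F (hit P (b + M * t))) K

/-! ## Blocks of primes and Brun-Hooley functions -/

/-- The part of `A` in the block `b`. -/
def AB {ι : Type} (blk : ι → ℕ) (b : ℕ) (A : Finset ι) : Finset ι := A.filter (fun i => blk i = b)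


/-- Probability that no element of the block `b` is chosen. -/
noncomputable def p0 {ι : Type} [Fintype ι] (q : ι → ℝ) (blk : ι → ℕ) (b : ℕ) : ℝ :=
  ∏ i ∈ univ.filter (fun i => blk i = b), (1 - q i)







end Pool.Agent.Lib.H15P
end

-- from Lib.H56G.Defs
section

/-!
# H56G: definitions (linear forms `b j + M t`, `t = 1, 2, ..`, and divisor-type functions of them)

`ι` = (index type of) a finite set of primes `pr i`; `J` = index type of the linear forms.
A configuration `κ : ι → Option J` gives to a form `j` the primes `i` with `κ i = some j`;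
`κ i = none` means that the prime `i` is not used.
-/

open Finset

namespace Pool.Agent.Lib.H56G

/-- Distinct primes `pr i` and linear forms `b j + M * t` such that no `pr i` divides `M` or
one of the differences `b j - b j'`. -/
structure Sys (ι J : Type) where
  pr : ι → ℕ
  prime : ∀ i, (pr i).Prime
  inj : Function.Injective pr
  M : ℕ
  b : J → ℕ
  copM : ∀ i, ¬ pr i ∣ M
  dist : ∀ i j j', j ≠ j' → ¬ (b j ≡ b j' [MOD pr i])

variable {ι J : Type} [Fintype ι] [DecidableEq ι] [Fintype J] [DecidableEq J]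

/-- the primes which are used -/
def supp (κ : ι → Option J) : Finset ι := univ.filter (fun i => (κ i).isSome)


/-- the primes given to the form `j` -/
def part (κ : ι → Option J) (j : J) : Finset ι := univ.filter (fun i => κ i = some j)



namespace Sys

variable (s : Sys ι J)

/-- `u_p^j(t) = 1 - p [p ∣ f_j(t)]` -/
noncomputable def u (i : ι) (j : J) (t : ℕ) : ℝ :=
  if s.pr i ∣ s.b j + s.M * t then 1 - (s.pr i : ℝ) else 1

/-- product of the `u_p^j` over the used primes -/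
noncomputable def U (κ : ι → Option J) (t : ℕ) : ℝ :=
  ∏ i, (κ i).elim 1 (fun j => s.u i j t)

/-- product of a set of primes -/
noncomputable def rho (A : Finset ι) : ℝ := ∏ i ∈ A, (s.pr i : ℝ)

/-- Euler function of a product of primes -/
noncomputable def phi (A : Finset ι) : ℝ := ∏ i ∈ A, ((s.pr i : ℝ) - 1)

/-- level of a configuration -/
noncomputable def r (κ : ι → Option J) : ℝ := s.rho (supp κ)





end Sys


/-- one form part of the coefficients -/
noncomputable def gam (bb : Finset ι → ℝ) (A : Finset ι) : ℝ := if A = ∅ then 1 else - bb A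

/-- the coefficients -/
noncomputable def cc (s : Sys ι J) (bb : Finset ι → ℝ) (D : ℝ) (κ : ι → Option J) : ℝ :=
  if s.r κ ≤ D then ∏ j, gam bb (part κ j) else 0




/-- `Σ 1/(φ(A) log ρ(A))` over the nonempty sets of primes with product at most `z` -/
noncomputable def SS (s : Sys ι J) (z : ℝ) : ℝ :=
  ∑ A ∈ (univ : Finset (Finset ι)).filter (fun A => A ≠ ∅ ∧ s.rho A ≤ z),
    1 / (s.phi A * Real.log (s.rho A))

/-- the weight `1/(S φ(A) log ρ(A))` -/
noncomputable def bw (s : Sys ι J) (z : ℝ) (A : Finset ι) : ℝ :=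
  if A ≠ ∅ ∧ s.rho A ≤ z then 1 / (SS s z * (s.phi A * Real.log (s.rho A))) else 0

end Pool.Agent.Lib.H56G
end

-- from Lib.H84V.Defs
section

/-!
# H84V: Vinogradov's lemma and Lemma P (part of the inverse theorem, MP_443e5f candidate T). Owner: helper84.

`nd x`: distance to the nearest integer. `Idx X κ K δ`: a finite set with a map `κ` to `[K, 2K)` whose fibres have at most
`|X| / (δ K)` elements. `ec R A B`: number of pairs in `A × B` which are related.
-/

open Finset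

namespace Pool.Agent.Lib.H84V

/-- Distance to the nearest integer. -/
noncomputable def nd (x : ℝ) : ℝ := |x - round x|

/-- An index set: `κ` takes values in `[K, 2K)` and every value at most `|X| / (δ K)` times. -/
structure Idx {ι : Type} (X : Finset ι) (κ : ι → ℕ) (K : ℕ) (δ : ℝ) : Prop where
  lo : ∀ x ∈ X, K ≤ κ x
  hi : ∀ x ∈ X, κ x < 2 * K
  fib : ∀ k : ℕ, δ * (((X.filter fun x => κ x = k).card : ℝ) * K) ≤ X.card

open Classical in
/-- The number of related pairs in `A × B`. -/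
noncomputable def ec {ι ι' : Type} (R : ι → ι' → Prop) (A : Finset ι) (B : Finset ι') : ℕ :=
  ((A ×ˢ B).filter fun p => R p.1 p.2).card

theorem nd_nonneg (x : ℝ) : 0 ≤ nd x := abs_nonneg _


theorem nd_le_int (x : ℝ) (m : ℤ) : nd x ≤ |x - m| := round_le x m

theorem nd_le_abs (x : ℝ) : nd x ≤ |x| := by
  have h := nd_le_int x 0
  simpa using h

theorem exists_nd (x : ℝ) : ∃ m : ℤ, nd x = |x - m| := ⟨round x, rfl⟩

theorem nd_add_int (x : ℝ) (m : ℤ) : nd (x + m) = nd x := by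
  apply le_antisymm
  · obtain ⟨k, hk⟩ := exists_nd x
    have h := nd_le_int (x + m) (k + m)
    have e : x + m - ((k + m : ℤ) : ℝ) = x - k := by push_cast; ring
    rw [e] at h
    rw [hk]
    exact h
  · obtain ⟨k, hk⟩ := exists_nd (x + m)
    have h := nd_le_int x (k - m)
    have e : x - ((k - m : ℤ) : ℝ) = x + m - k := by push_cast; ring
    rw [e] at h
    rw [hk]
    exact h


theorem nd_neg (x : ℝ) : nd (-x) = nd x := by
  apply le_antisymm
  · obtain ⟨k, hk⟩ := exists_nd x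
    have h := nd_le_int (-x) (-k)
    have e : -x - ((-k : ℤ) : ℝ) = -(x - k) := by push_cast; ring
    rw [e, abs_neg] at h
    rw [hk]
    exact h
  · obtain ⟨k, hk⟩ := exists_nd (-x)
    have h := nd_le_int x (-k)
    have e : x - ((-k : ℤ) : ℝ) = -(-x - k) := by push_cast; ring
    rw [e, abs_neg] at h
    rw [hk]
    exact h

theorem nd_add_le (x y : ℝ) : nd (x + y) ≤ nd x + nd y := by
  obtain ⟨k, hk⟩ := exists_nd x
  obtain ⟨l, hl⟩ := exists_nd y
  have h := nd_le_int (x + y) (k + l)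
  have e : x + y - ((k + l : ℤ) : ℝ) = (x - k) + (y - l) := by push_cast; ring
  rw [e] at h
  rw [hk, hl]
  exact h.trans (abs_add_le _ _)

theorem nd_sub_le (x y : ℝ) : nd (x - y) ≤ nd x + nd y := by
  have h := nd_add_le x (-y)
  rw [nd_neg] at h
  exact h


theorem nd_nat_mul_le (n : ℕ) (x : ℝ) : nd (n * x) ≤ n * nd x := by
  obtain ⟨k, hk⟩ := exists_nd x
  have h := nd_le_int (n * x) (n * k)
  have e : (n : ℝ) * x - ((n * k : ℤ) : ℝ) = n * (x - k) := by push_cast; ring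
  rw [e, abs_mul, Nat.abs_cast] at h
  rw [hk]
  exact h






/-- The two functions are close to linear functions of `κ` on `A` and on `B`, with nearly the same slope, and many pairs of
`A × B` are related. -/
structure St {ι ι' : Type} (X : Finset ι) (X' : Finset ι') (κ : ι → ℕ) (κ' : ι' → ℕ) (R : ι → ι' → Prop) (u : ι → ℝ)
    (v : ι' → ℝ) (δ Z : ℝ) (A : Finset ι) (B : Finset ι') (φ r φ' r' : ℝ) : Prop where
  hA : A ⊆ X
  hB : B ⊆ X'
  hc : δ * ((X.card : ℝ) * X'.card) ≤ ec R A B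
  hu : ∀ x ∈ A, |u x - κ x * φ - r| ≤ Z
  hv : ∀ y ∈ B, |v y - κ' y * φ' - r'| ≤ Z
  hφ : |φ - φ'| ≤ 2 * Z

theorem St.mono {ι ι' : Type} {X : Finset ι} {X' : Finset ι'} {κ : ι → ℕ} {κ' : ι' → ℕ} {R : ι → ι' → Prop} {u : ι → ℝ}
    {v : ι' → ℝ} {δ Z : ℝ} {A : Finset ι} {B : Finset ι'} {φ r φ' r' : ℝ} (h : St X X' κ κ' R u v δ Z A B φ r φ' r')
    {δ₁ Z₁ : ℝ} (hd : δ₁ ≤ δ) (hZ : Z ≤ Z₁) : St X X' κ κ' R u v δ₁ Z₁ A B φ r φ' r' :=
  ⟨h.hA, h.hB, (mul_le_mul_of_nonneg_right hd (by positivity)).trans h.hc, fun x hx => (h.hu x hx).trans hZ,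
    fun y hy => (h.hv y hy).trans hZ, h.hφ.trans (by linarith)⟩

theorem Idx.mono {ι : Type} {X : Finset ι} {κ : ι → ℕ} {K : ℕ} {δ δ' : ℝ} (h : Idx X κ K δ) (hd : δ' ≤ δ) :
    Idx X κ K δ' :=
  ⟨h.lo, h.hi, fun k => (mul_le_mul_of_nonneg_right hd (by positivity)).trans (h.fib k)⟩

end Pool.Agent.Lib.H84V
end

-- from Lib.H15P.PB1
section

/-!
# Chunk PB1: expectations
-/

open Finset

namespace Pool.Agent.Lib.H15P

variable {ι J : Type} [Fintype ι] [DecidableEq ι] [Fintype J] [DecidableEq J]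

theorem bw_nonneg (q : ι → ℝ) (h0 : ∀ i, 0 ≤ q i) (h1 : ∀ i, q i ≤ 1) (A : Finset ι) :
    0 ≤ bw q A := by
  unfold bw
  refine prod_nonneg fun i _ => ?_
  split_ifs
  · exact h0 i
  · linarith [h1 i]

/-- `∏ (q i + (1 - q i)) = 1` (`Finset.prod_add`). -/
theorem sum_bw (q : ι → ℝ) : ∑ A : Finset ι, bw q A = 1 := by
  have h := Finset.prod_add (fun i => q i) (fun i => 1 - q i) (univ : Finset ι)
  have h1 : ∏ i : ι, (q i + (1 - q i)) = 1 := prod_eq_one fun i _ => by ring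
  rw [h1, powerset_univ] at h
  rw [h]
  refine sum_congr rfl fun A _ => ?_
  unfold bw
  rw [← prod_mul_prod_compl A (fun i => if i ∈ A then q i else 1 - q i), compl_eq_univ_sdiff]
  congr 1
  · exact prod_congr rfl fun i hi => by rw [if_pos hi]
  · exact prod_congr rfl fun i hi => by rw [if_neg (mem_sdiff.1 hi).2]

theorem ex_one (q : ι → ℝ) : ex q (fun _ => 1) = 1 := by
  unfold ex
  simp only [one_mul]
  exact sum_bw q




theorem ex_nonneg (q : ι → ℝ) (h0 : ∀ i, 0 ≤ q i) (h1 : ∀ i, q i ≤ 1) (F : Finset ι → ℝ)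
    (h : ∀ A, 0 ≤ F A) : 0 ≤ ex q F := by
  unfold ex
  exact sum_nonneg fun A _ => mul_nonneg (h A) (bw_nonneg q h0 h1 A)

/-- Independence (`Finset.prod_univ_sum`, `Fintype.piFinset_univ`). -/
theorem EX_prod (q : ι → ℝ) (F : J → Finset ι → ℝ) :
    EX q (fun S : J → Finset ι => ∏ j, F j (S j)) = ∏ j, ex q (F j) := by
  unfold EX ex
  rw [Finset.prod_univ_sum, Fintype.piFinset_univ]
  exact sum_congr rfl fun S _ => by rw [prod_mul_distrib]


theorem EX_sum {α : Type} (q : ι → ℝ) (s : Finset α) (F : α → (J → Finset ι) → ℝ) :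
    EX q (fun S => ∑ a ∈ s, F a S) = ∑ a ∈ s, EX q (F a) := by
  unfold EX
  rw [sum_comm]
  exact sum_congr rfl fun S _ => by rw [sum_mul]

theorem EX_const_mul (q : ι → ℝ) (c : ℝ) (F : (J → Finset ι) → ℝ) :
    EX q (fun S => c * F S) = c * EX q F := by
  unfold EX
  rw [mul_sum]
  exact sum_congr rfl fun A _ => by ring


theorem EX_nonneg (q : ι → ℝ) (h0 : ∀ i, 0 ≤ q i) (h1 : ∀ i, q i ≤ 1)
    (F : (J → Finset ι) → ℝ) (h : ∀ S, 0 ≤ F S) : 0 ≤ EX q F := by
  unfold EX
  exact sum_nonneg fun S _ => mul_nonneg (h S)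
    (prod_nonneg fun j _ => bw_nonneg q h0 h1 (S j))


end Pool.Agent.Lib.H15P
end

-- from Lib.H59.ChebLite
section

/-!
# Elementary estimates for sums over primes

-/

open Finset Real

noncomputable section

namespace Pool.Agent.Lib.H59

theorem half_rpow_le {σ : ℝ} (h0 : 0 ≤ σ) (h1 : σ ≤ 1) : (1 / 2 : ℝ) ^ σ ≤ 1 - σ / 2 := by
  have := _root_.rpow_one_add_le_one_add_mul_self (s := -(1 / 2 : ℝ)) (by norm_num) h0 h1
  calc (1 / 2 : ℝ) ^ σ = (1 + -(1 / 2 : ℝ)) ^ σ := by norm_num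
    _ ≤ 1 + σ * -(1 / 2) := this
    _ = 1 - σ / 2 := by ring

theorem sum_log_prime_lt (j : ℕ) (T : Finset ℕ) (hT : ∀ p ∈ T, p.Prime)
    (hj : ∀ p ∈ T, p < 2 ^ j) : ∑ p ∈ T, Real.log p ≤ Real.log 4 * 2 ^ j := by
  have h1 := Chebyshev.theta_le_log4_mul_x (x := (2 : ℝ) ^ j) (by positivity)
  refine le_trans ?_ h1
  rw [Chebyshev.theta]
  refine Finset.sum_le_sum_of_subset_of_nonneg ?_ ?_
  · intro p hp
    have hpp := hT p hp
    have hlt := hj p hp
    rw [Finset.mem_filter, Finset.mem_Ioc]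
    refine ⟨⟨hpp.pos, Nat.le_floor ?_⟩, hpp⟩
    have : (p : ℝ) < (2 : ℝ) ^ j := by exact_mod_cast hlt
    exact this.le
  · intro p hp _
    rw [Finset.mem_filter, Finset.mem_Ioc] at hp
    exact Real.log_nonneg (by exact_mod_cast hp.1.1)

/-- `∑ log p / p ^ (1 + σ) ≤ C / σ`. -/
theorem sum_log_div_rpow_le (T : Finset ℕ) (hT : ∀ p ∈ T, p.Prime) {σ : ℝ} (h0 : 0 < σ)
    (h1 : σ ≤ 1) : ∑ p ∈ T, Real.log p * (p : ℝ) ^ (-(1 + σ)) ≤ 4 * Real.log 4 / σ := by
  classical
  -- group by the dyadic size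
  have hmap : ∀ p ∈ T, Nat.log 2 p ∈ Finset.range (T.sup (Nat.log 2) + 1) := fun p hp => by
    rw [Finset.mem_range]
    exact Nat.lt_succ_of_le (Finset.le_sup (f := Nat.log 2) hp)
  rw [← Finset.sum_fiberwise_of_maps_to hmap]
  have hlog4 : 0 < Real.log 4 := Real.log_pos (by norm_num)
  have hfib : ∀ j ∈ Finset.range (T.sup (Nat.log 2) + 1),
      ∑ p ∈ T with Nat.log 2 p = j, Real.log p * (p : ℝ) ^ (-(1 + σ)) ≤
        2 * Real.log 4 * ((1 / 2 : ℝ) ^ σ) ^ j := by
    intro j _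
    have hb : ∀ p ∈ T.filter (fun p => Nat.log 2 p = j), Real.log p * (p : ℝ) ^ (-(1 + σ)) ≤
        Real.log p * ((2 : ℝ) ^ j) ^ (-(1 + σ)) := by
      intro p hp
      rw [Finset.mem_filter] at hp
      have hpp := hT p hp.1
      have h2 : 2 ^ j ≤ p := by
        rw [← hp.2]
        exact Nat.pow_log_le_self 2 hpp.ne_zero
      have h3 : ((2 : ℝ) ^ j) ≤ p := by exact_mod_cast h2
      have h4 : 0 ≤ Real.log p := Real.log_nonneg (by exact_mod_cast hpp.one_le)
      refine mul_le_mul_of_nonneg_left ?_ h4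
      exact Real.rpow_le_rpow_of_nonpos (by positivity) h3 (by linarith)
    refine (Finset.sum_le_sum hb).trans ?_
    rw [← Finset.sum_mul]
    have h5 := sum_log_prime_lt (j + 1) (T.filter (fun p => Nat.log 2 p = j))
      (fun p hp => hT p (Finset.mem_filter.mp hp).1) (fun p hp => by
        rw [Finset.mem_filter] at hp
        rw [← hp.2]
        exact Nat.lt_pow_succ_log_self (by norm_num) p)
    have hpos : 0 ≤ ((2 : ℝ) ^ j) ^ (-(1 + σ)) := by positivity
    refine (mul_le_mul_of_nonneg_right h5 hpos).trans (le_of_eq ?_)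
    have e1 : ((2 : ℝ) ^ j) ^ (-(1 + σ)) = ((2 : ℝ) ^ j)⁻¹ * ((1 / 2 : ℝ) ^ σ) ^ j := by
      rw [neg_add, Real.rpow_add (by positivity), Real.rpow_neg_one]
      congr 1
      rw [one_div, Real.inv_rpow (by norm_num), ← Real.rpow_natCast, ← Real.rpow_natCast,
        ← Real.rpow_mul (by norm_num), Real.rpow_natCast, inv_pow, ← Real.rpow_natCast,
        ← Real.rpow_mul (by norm_num), ← Real.rpow_neg (by norm_num)]
      congr 1
      ring
    rw [e1, pow_succ]
    have : (2 : ℝ) ^ j ≠ 0 := by positivity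
    field_simp
  refine (Finset.sum_le_sum hfib).trans ?_
  rw [← Finset.mul_sum]
  have hq0 : 0 ≤ (1 / 2 : ℝ) ^ σ := by positivity
  have hq1 : (1 / 2 : ℝ) ^ σ ≤ 1 - σ / 2 := half_rpow_le h0.le h1
  have hlt : (1 / 2 : ℝ) ^ σ < 1 := by linarith
  have hgeo : ∑ j ∈ Finset.range (T.sup (Nat.log 2) + 1), ((1 / 2 : ℝ) ^ σ) ^ j ≤
      (1 - (1 / 2 : ℝ) ^ σ)⁻¹ := by
    rw [← tsum_geometric_of_lt_one hq0 hlt]
    exact (summable_geometric_of_lt_one hq0 hlt).sum_le_tsum _ (fun i _ => by positivity)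
  have h6 : (1 - (1 / 2 : ℝ) ^ σ)⁻¹ ≤ 2 / σ := by
    rw [inv_le_comm₀ (by linarith) (by positivity), inv_div]
    linarith
  calc 2 * Real.log 4 * ∑ j ∈ Finset.range (T.sup (Nat.log 2) + 1), ((1 / 2 : ℝ) ^ σ) ^ j
      ≤ 2 * Real.log 4 * (2 / σ) := by gcongr; exact hgeo.trans h6
    _ = 4 * Real.log 4 / σ := by ring

/-- `∑_{p ≤ z} log p / p ≤ C log z`. -/
theorem sum_log_div_le (T : Finset ℕ) (hT : ∀ p ∈ T, p.Prime) {z : ℝ} (hz : 2 ≤ z)
    (hTz : ∀ p ∈ T, (p : ℝ) ≤ z) :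
    ∑ p ∈ T, Real.log p / p ≤ 14 * Real.log 4 * Real.log z := by
  have hlog4 : 0 < Real.log 4 := Real.log_pos (by norm_num)
  have hlogz : 0 < Real.log z := Real.log_pos (by linarith)
  have hlog2 : 0.6931471803 < Real.log 2 := Real.log_two_gt_d9
  have hlogz2 : Real.log 2 ≤ Real.log z := Real.log_le_log (by norm_num) hz
  set σ : ℝ := 1 / (2 * Real.log z) with hσ
  have hσ0 : 0 < σ := by positivity
  have hσ1 : σ ≤ 1 := by
    rw [hσ, div_le_one (by positivity)]
    linarith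
  have h1 := sum_log_div_rpow_le T hT hσ0 hσ1
  have h2 : ∀ p ∈ T, Real.log p / p ≤ Real.exp (1 / 2) * (Real.log p * (p : ℝ) ^ (-(1 + σ))) := by
    intro p hp
    have hpp := hT p hp
    have hp0 : (0 : ℝ) < p := by exact_mod_cast hpp.pos
    have hlp : 0 ≤ Real.log p := Real.log_nonneg (by exact_mod_cast hpp.one_le)
    have h3 : (p : ℝ) ^ (-(1 + σ)) = (p : ℝ)⁻¹ * (p : ℝ) ^ (-σ) := by
      rw [neg_add, Real.rpow_add hp0, Real.rpow_neg_one]
    have h4 : Real.exp (-(1 / 2)) ≤ (p : ℝ) ^ (-σ) := by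
      rw [Real.rpow_def_of_pos hp0]
      apply Real.exp_le_exp.mpr
      have h5 : Real.log p ≤ Real.log z := Real.log_le_log hp0 (hTz p hp)
      have h6 : Real.log p * σ ≤ 1 / 2 := by
        calc Real.log p * σ ≤ Real.log z * σ := by gcongr
          _ = 1 / 2 := by rw [hσ]; field_simp
      linarith
    rw [h3]
    calc Real.log p / p = Real.exp (1 / 2) * (Real.log p * ((p : ℝ)⁻¹ * Real.exp (-(1 / 2)))) := by
          rw [div_eq_mul_inv]
          have : Real.exp (1 / 2) * Real.exp (-(1 / 2)) = 1 := by rw [← Real.exp_add]; norm_num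
          calc Real.log p * (p : ℝ)⁻¹ = Real.log p * (p : ℝ)⁻¹ * 1 := by ring
            _ = Real.log p * (p : ℝ)⁻¹ * (Real.exp (1 / 2) * Real.exp (-(1 / 2))) := by rw [this]
            _ = _ := by ring
      _ ≤ _ := by gcongr
  calc ∑ p ∈ T, Real.log p / p ≤ ∑ p ∈ T, Real.exp (1 / 2) * (Real.log p * (p : ℝ) ^ (-(1 + σ))) :=
        Finset.sum_le_sum h2
    _ = Real.exp (1 / 2) * ∑ p ∈ T, (Real.log p * (p : ℝ) ^ (-(1 + σ))) := by rw [Finset.mul_sum]
    _ ≤ Real.exp (1 / 2) * (4 * Real.log 4 / σ) := by gcongr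
    _ = Real.exp (1 / 2) * 8 * Real.log 4 * Real.log z := by rw [hσ]; field_simp; ring
    _ ≤ 14 * Real.log 4 * Real.log z := by
        have h7 : Real.exp (1 / 2) * 8 ≤ 14 := by
          have h8 : Real.exp (1 / 2) ^ 2 ≤ 1.6875 ^ 2 := by
            rw [← Real.exp_nat_mul]
            have := Real.exp_one_lt_d9
            norm_num at this ⊢
            linarith
          have h9 : Real.exp (1 / 2) ≤ 1.6875 := by
            exact le_of_sq_le_sq h8 (by norm_num)
          linarith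
        gcongr

end Pool.Agent.Lib.H59
end
end

-- from Lib.H59.PolyKey
section

/-!
# A uniform Mertens upper bound for the roots modulo primes of an irreducible polynomial

-/

open Set Module Filter Topology NumberField IsDedekindDomain Polynomial
open scoped NNReal nonZeroDivisors ENNReal
open Ideal (absNorm)

noncomputable section

namespace Pool.Agent.Lib.H59

/-- The number of residues `a` modulo `p` with `f a ≡ 0`. -/
def rootCount (f : ℤ[X]) (p : ℕ) : ℕ :=
  ((Finset.range p).filter fun a : ℕ => (p : ℤ) ∣ f.eval (a : ℤ)).card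



theorem map_zmod_ne_zero {f : ℤ[X]} (hf : f.IsPrimitive) {p : ℕ} (hp : p.Prime) :
    f.map (Int.castRingHom (ZMod p)) ≠ 0 := by
  intro h
  have h1 : C (p : ℤ) ∣ f := by
    rw [C_dvd_iff_dvd_coeff]
    intro i
    have := congrArg (fun q => q.coeff i) h
    simp only [coeff_map, coeff_zero, eq_intCast] at this
    exact (ZMod.intCast_zmod_eq_zero_iff_dvd _ _).mp this
  have h2 := hf _ h1
  exact (Nat.prime_iff_prime_int.mp hp).not_isUnit h2

theorem rootCount_le_natDegree {f : ℤ[X]} (hf : f.IsPrimitive) {p : ℕ} (hp : p.Prime) :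
    rootCount f p ≤ f.natDegree := by
  classical
  have : Fact p.Prime := ⟨hp⟩
  set g := f.map (Int.castRingHom (ZMod p)) with hg
  have hg0 : g ≠ 0 := map_zmod_ne_zero hf hp
  have h1 : rootCount f p ≤ g.roots.toFinset.card := by
    unfold rootCount
    refine Finset.card_le_card_of_injOn (fun a : ℕ => (a : ZMod p)) ?_ ?_
    · intro a ha
      rw [Finset.mem_coe, Finset.mem_filter] at ha
      rw [Finset.mem_coe, Multiset.mem_toFinset, mem_roots hg0, IsRoot.def, hg]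
      have h2 : ((f.eval (a : ℤ) : ℤ) : ZMod p) = 0 :=
        (ZMod.intCast_zmod_eq_zero_iff_dvd _ _).mpr ha.2
      rw [eval_map, eval₂_eq_eval_map] at *
      have h3 := eval_intCast_map (Int.castRingHom (ZMod p)) f (a : ℤ)
      simp only [Int.cast_natCast, eq_intCast] at h3
      rw [h3]
      exact h2
    · intro a ha b hb hab
      rw [Finset.mem_coe, Finset.mem_filter, Finset.mem_range] at ha hb
      have := (ZMod.natCast_eq_natCast_iff' a b p).mp hab
      rwa [Nat.mod_eq_of_lt ha.1, Nat.mod_eq_of_lt hb.1] at this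
  refine h1.trans ((Multiset.toFinset_card_le _).trans ((card_roots' g).trans ?_))
  rw [hg]
  exact natDegree_map_le




end Pool.Agent.Lib.H59
end
end

-- from Lib.SZW.C1
section

/-!
# C1 (S/M): algebra of the phases
-/

set_option autoImplicit false

namespace Pool.Agent.SZW

variable {ι : Type*} [Fintype ι] [DecidableEq ι] {R : Type*} [CommRing R]
  (b : Module.Basis ι ℤ R)

theorem E_add (x y : ι → ℤ) : E b (x + y) = E b x + E b y := by
  simp only [E, Pi.add_apply, add_smul, Finset.sum_add_distrib]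

theorem E_smul (n : ℤ) (x : ι → ℤ) : E b (n • x) = n • E b x := by
  simp only [E, Pi.smul_apply, smul_eq_mul, mul_smul, Finset.smul_sum]

/-- coordinates of one -/
theorem E_repr (r : R) : E b (fun i => b.repr r i) = r := by
  exact b.sum_repr r

/-- an additive map, in coordinates -/
theorem map_E (θ : R →+ ℝ) (r : R) (x : ι → ℤ) :
    θ (r * E b x) = ∑ i, (x i : ℝ) * θ (r * b i) := by
  rw [E, Finset.mul_sum, map_sum]
  refine Finset.sum_congr rfl fun i _ => ?_
  rw [mul_smul_comm, map_zsmul, zsmul_eq_mul]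

/-- the difference of a quadratic phase is affine -/
theorem diff_two (θ : R →+ ℝ) (γ : ι → ℝ) (γ₀ : ℝ) (k : ι → ℤ) :
    ∃ γ' : ℝ, (fun x : ι → ℤ => (θ (E b (x + k) ^ 2) + aff γ γ₀ (x + k)) -
      (θ (E b x ^ 2) + aff γ γ₀ x)) = aff (fun i => θ (2 * E b k * b i)) γ' := by
  refine ⟨θ (E b k ^ 2) + ∑ i, (k i : ℝ) * γ i, ?_⟩
  funext x
  have h1 : E b (x + k) ^ 2 = 2 * E b k * E b x + E b k ^ 2 + E b x ^ 2 := by
    rw [E_add]; ring
  have h2 : ∑ i, (((x + k) i : ℤ) : ℝ) * γ i = ∑ i, (x i : ℝ) * γ i + ∑ i, (k i : ℝ) * γ i := by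
    rw [← Finset.sum_add_distrib]
    refine Finset.sum_congr rfl fun i _ => ?_
    rw [Pi.add_apply]; push_cast; ring
  have h3 := map_E b θ (2 * E b k) x
  simp only [aff]
  rw [h1, map_add, map_add, h2, h3]
  ring


end Pool.Agent.SZW
end

-- from Lib.H3B.Defs
section

/-!
# H3B (MP_443e5f, candidate T, module B): the inverse theorem for class II kernels. Definitions.

All sums over the integers are `tsum`s of finitely supported functions. `ee x = exp (2 pi i x)`.
See `PROOF.md`.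
-/

namespace Pool.Agent.H3B

open Finset
open Pool.Agent.H44W (ee TF cut)

noncomputable section

/-- `u` vanishes outside `[-N, N]`. -/
def Sp (N : ℕ) (u : ℤ → ℂ) : Prop := ∀ y : ℤ, u y ≠ 0 → |y| ≤ (N : ℤ)

/-- `G_d(y) = g(y) conj g(y + d)`. -/
def Gd (g : ℤ → ℂ) (d y : ℤ) : ℂ := g y * (starRingEnd ℂ) (g (y + d))

/-- The modulation `u(y) e(-θ y)`. -/
def tw (θ : ℝ) (u : ℤ → ℂ) (y : ℤ) : ℂ := u y * ee (-(θ * y))

/-- The autocorrelation. -/
def R (u : ℤ → ℂ) (k : ℤ) : ℂ := ∑' y : ℤ, u y * (starRingEnd ℂ) (u (y + k))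

/-- `E_m(u)`: the sum over the residue classes modulo `m` of the squares of the sums of `u`. -/
def E (m : ℕ) (u : ℤ → ℂ) : ℝ := ∑ r ∈ range m, ‖∑' v : ℤ, u (r + m * v)‖ ^ 2

/-- The `a` in `[K, 2K)` with `a + j` in `[K, 2K)`. -/
def Ij (K : ℕ) (j : ℤ) : Finset ℕ :=
  (Ico K (2 * K)).filter (fun a => (K : ℤ) ≤ a + j ∧ (a : ℤ) + j < 2 * K)


theorem Sp.finite {N : ℕ} {u : ℤ → ℂ} (h : Sp N u) : (Function.support u).Finite := by
  refine (Set.finite_Icc (-(N : ℤ)) N).subset fun y hy => ?_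
  exact abs_le.1 (h y hy)

theorem Sp.summable {N : ℕ} {u : ℤ → ℂ} (h : Sp N u) : Summable u := summable_of_hasFiniteSupport h.finite

theorem Sp.zero {N : ℕ} {u : ℤ → ℂ} (h : Sp N u) {y : ℤ} (hy : (N : ℤ) < |y|) : u y = 0 := by
  by_contra h0
  exact absurd (h y h0) (not_le.2 hy)


theorem Sp.mul_left {N : ℕ} {u : ℤ → ℂ} (h : Sp N u) (w : ℤ → ℂ) : Sp N (fun y => w y * u y) :=
  fun y hy => h y (right_ne_zero_of_mul hy)

theorem Sp.mul_right {N : ℕ} {u : ℤ → ℂ} (h : Sp N u) (w : ℤ → ℂ) : Sp N (fun y => u y * w y) :=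
  fun y hy => h y (left_ne_zero_of_mul hy)

theorem Sp.Gd {N : ℕ} {g : ℤ → ℂ} (h : Sp N g) (d : ℤ) : Sp N (Gd g d) := h.mul_right _

theorem Sp.tw {N : ℕ} {u : ℤ → ℂ} (h : Sp N u) (θ : ℝ) : Sp N (tw θ u) := h.mul_right _

theorem Sp.shift {N : ℕ} {u : ℤ → ℂ} (h : Sp N u) (t : ℤ) : Sp (N + t.natAbs) (fun y => u (y + t)) := by
  intro y hy
  have h1 := h (y + t) hy
  have h2 : |y| ≤ |y + t| + |t| := by
    have := abs_sub (y + t) t
    simpa using this
  push_cast
  linarith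

theorem Sp.tsum_eq {N : ℕ} {u : ℤ → ℂ} (h : Sp N u) : ∑' y, u y = ∑ y ∈ Icc (-(N : ℤ)) N, u y := by
  refine tsum_eq_sum fun y hy => ?_
  by_contra h0
  exact hy (mem_Icc.2 (abs_le.1 (h y h0)))

theorem Sp.norm_tsum_le {N : ℕ} {u : ℤ → ℂ} (h : Sp N u) {b : ℝ} (hb : ∀ y, ‖u y‖ ≤ b) :
    ‖∑' y, u y‖ ≤ (2 * N + 1) * b := by
  rw [h.tsum_eq]
  refine (norm_sum_le_of_le _ fun y _ => hb y).trans ?_
  rw [sum_const, Int.card_Icc, nsmul_eq_mul]
  have h1 : (N : ℤ) + 1 - -(N : ℤ) = ((2 * N + 1 : ℕ) : ℤ) := by push_cast; ring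
  rw [h1, Int.toNat_natCast]
  push_cast
  exact le_rfl

theorem ee_zero : ee 0 = 1 := by simp [ee]

theorem ee_add (x y : ℝ) : ee (x + y) = ee x * ee y := by
  unfold ee
  rw [← Complex.exp_add]
  congr 1
  push_cast
  ring

theorem ee_norm (x : ℝ) : ‖ee x‖ = 1 := by
  unfold ee
  have : (2 * Real.pi * x * Complex.I : ℂ) = ((2 * Real.pi * x : ℝ) : ℂ) * Complex.I := by push_cast; ring
  rw [this, Complex.norm_exp_ofReal_mul_I]

theorem ee_conj (x : ℝ) : (starRingEnd ℂ) (ee x) = ee (-x) := by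
  unfold ee
  rw [← Complex.exp_conj]
  congr 1
  have h2 : (starRingEnd ℂ) 2 = 2 := by
    have := Complex.conj_ofReal 2
    exact_mod_cast this
  rw [map_mul, map_mul, map_mul, h2, Complex.conj_ofReal, Complex.conj_ofReal, Complex.conj_I]
  push_cast
  ring

theorem ee_int (k : ℤ) : ee k = 1 := by
  unfold ee
  rw [Complex.exp_eq_one_iff]
  exact ⟨k, by push_cast; ring⟩

theorem tw_norm (θ : ℝ) (u : ℤ → ℂ) (y : ℤ) : ‖tw θ u y‖ = ‖u y‖ := by
  unfold tw
  rw [norm_mul, ee_norm, mul_one]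

theorem Gd_norm {g : ℤ → ℂ} (h : ∀ z, ‖g z‖ ≤ 1) (d y : ℤ) : ‖Gd g d y‖ ≤ 1 := by
  unfold Gd
  rw [norm_mul, RCLike.norm_conj]
  exact mul_le_one₀ (h _) (norm_nonneg _) (h _)

theorem E_nonneg (m : ℕ) (u : ℤ → ℂ) : 0 ≤ E m u := sum_nonneg fun _ _ => sq_nonneg _

theorem cut_Sp (n : ℕ) (g : ℤ → ℂ) : Sp n (cut n g) := by
  intro y hy
  unfold cut at hy
  split_ifs at hy with h
  · rw [mem_Icc] at h
    rw [abs_le]
    omega
  · exact absurd rfl hy

theorem cut_norm {n : ℕ} {g : ℤ → ℂ} (h : ∀ z, ‖g z‖ ≤ 1) (z : ℤ) : ‖cut n g z‖ ≤ 1 := by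
  unfold cut
  split_ifs
  · exact h z
  · simp

end

end Pool.Agent.H3B
end

-- from Lib.H3B.A2
section

/-! # H3B (MP_443e5f, candidate T, module B), chunk A2 -/

namespace Pool.Agent.H3B

open Finset
open Pool.Agent.H44W (ee TF cut)

/-- Chunk A2a (S/M). The sum over the residue classes modulo m. PROOF. `Int.divModEquiv` (or: both sides are finite sums; the map (r, v) ↦ r + m v from range m × ℤ to ℤ is a
bijection, inverse y ↦ (y mod m, y / m)). Summability: everything has finite support (Sp). -/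
theorem tsum_res {N : ℕ} {u : ℤ → ℂ} (h : Sp N u) {m : ℕ} (hm : 0 < m) :
    ∑' y, u y = ∑ r ∈ range m, ∑' v : ℤ, u (r + m * v) := by
  have hne : NeZero m := ⟨hm.ne'⟩
  have e1 : ∑' y, u y = ∑' p : Fin m × ℤ, u (((Int.divModEquiv m).symm.trans (Equiv.refl ℤ)) (p.2, p.1)) := by
    rw [← Equiv.tsum_eq ((Equiv.prodComm (Fin m) ℤ).trans (Int.divModEquiv m).symm)]
    rfl
  have hs : Summable fun p : Fin m × ℤ => u (((Int.divModEquiv m).symm.trans (Equiv.refl ℤ)) (p.2, p.1)) := by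
    have h1 := (Equiv.summable_iff ((Equiv.prodComm (Fin m) ℤ).trans (Int.divModEquiv m).symm)).2 h.summable
    exact h1
  rw [e1, hs.tsum_prod, tsum_fintype, Finset.sum_range]
  refine Finset.sum_congr rfl fun r _ => tsum_congr fun v => ?_
  congr 1
  simp only [Int.divModEquiv, Equiv.trans_apply, Equiv.refl_apply, Equiv.coe_fn_symm_mk]
  ring

/-- the sum over a range as a sum over `ZMod m` -/
theorem a2_range (m : ℕ) [NeZero m] (F : ZMod m → ℝ) : ∑ r ∈ range m, F (r : ZMod m) = ∑ x, F x := by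
  refine Finset.sum_bij' (fun (j : ℕ) _ => (j : ZMod m)) (fun (z : ZMod m) _ => z.val)
    (fun _ _ => mem_univ _) (fun z _ => mem_range.2 (ZMod.val_lt z)) (fun j hj => ?_)
    (fun z _ => ZMod.natCast_zmod_val z) (fun _ _ => rfl)
  rw [ZMod.val_natCast, Nat.mod_eq_of_lt (mem_range.1 hj)]

/-- the inner sum depends on the residue class only -/
theorem a2_class (m : ℕ) [NeZero m] (u : ℤ → ℂ) (s : ℤ) :
    ‖∑' v : ℤ, u (s + m * v)‖ ^ 2 = ‖∑' v : ℤ, u (((s : ZMod m).val : ℤ) + m * v)‖ ^ 2 := by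
  have e1 : ((s : ZMod m).val : ℤ) = s % m := by
    rw [ZMod.val_intCast]
  have e2 : ∑' v : ℤ, u (s + m * v) = ∑' v : ℤ, u (s % m + m * v) := by
    rw [← Equiv.tsum_eq (Equiv.addRight (s / m)) (fun v => u (s % m + m * v))]
    refine tsum_congr fun v => ?_
    congr 1
    simp only [Equiv.coe_addRight]
    have := Int.emod_add_mul_ediv s m
    linear_combination -this
  rw [e1, e2]

theorem a2_E (m : ℕ) [NeZero m] (u : ℤ → ℂ) (t : ℤ) : E m (fun y => u (y + t)) =
    ∑ x : ZMod m, ‖∑' v : ℤ, u (((x + (t : ZMod m)).val : ℤ) + m * v)‖ ^ 2 := by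
  rw [← a2_range]
  unfold E
  refine Finset.sum_congr rfl fun r _ => ?_
  have e1 : ((r : ZMod m) + (t : ZMod m)) = (((r : ℤ) + t : ℤ) : ZMod m) := by push_cast; rfl
  rw [e1, ← a2_class]
  have e2 : ∀ v : ℤ, (r : ℤ) + m * v + t = (r : ℤ) + t + m * v := fun v => by ring
  simp only [e2]

/-- Chunk A2b (S/M). `E` does not change under translation. PROOF. It suffices to treat t = 1 and t = -1, or: r + t = r' + m s with r' = (r + t) mod m; r ↦ r' is a permutation of range m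
and ∑' v, u (r + t + m v) = ∑' v, u (r' + m (v + s)) = ∑' v, u (r' + m v) (Equiv.addRight, tsum_eq). No support condition is needed. -/
theorem E_shift (m : ℕ) (u : ℤ → ℂ) (t : ℤ) : E m (fun y => u (y + t)) = E m u := by
  rcases Nat.eq_zero_or_pos m with hm | hm
  · subst hm
    simp [E]
  have hne : NeZero m := ⟨hm.ne'⟩
  have h0 : E m u = ∑ x : ZMod m, ‖∑' v : ℤ, u ((x.val : ℤ) + m * v)‖ ^ 2 := by
    have h1 := a2_E m u 0
    simpa using h1
  rw [a2_E, h0]
  exact Equiv.sum_comp (Equiv.addRight (t : ZMod m)) (fun x : ZMod m => ‖∑' v : ℤ, u ((x.val : ℤ) + m * v)‖ ^ 2)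

/-- Chunk A2c (S). -/
theorem E_conj (m : ℕ) (u : ℤ → ℂ) : E m (fun y => (starRingEnd ℂ) (u y)) = E m u := by
  unfold E
  refine Finset.sum_congr rfl fun r _ => ?_
  rw [← Complex.conj_tsum, RCLike.norm_conj]

/-- Chunk A2d (S). -/
theorem E_const (m : ℕ) (u : ℤ → ℂ) {c : ℂ} (hc : ‖c‖ = 1) : E m (fun y => c * u y) = E m u := by
  unfold E
  refine Finset.sum_congr rfl fun r _ => ?_
  rw [tsum_mul_left, norm_mul, hc, one_mul]

end Pool.Agent.H3B
end

-- from Lib.SZW.A2
section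

/-!
# A2 (S/M): the exponential function and geometric sums
-/

set_option autoImplicit false

namespace Pool.Agent.SZW

theorem ee_add (s t : ℝ) : ee (s + t) = ee s * ee t := by
  unfold ee
  rw [← Complex.exp_add]
  congr 1
  push_cast
  ring

theorem ee_zero : ee 0 = 1 := by
  unfold ee
  simp

theorem norm_ee (t : ℝ) : ‖ee t‖ = 1 := by
  unfold ee
  have h : 2 * (Real.pi : ℂ) * (t : ℂ) * Complex.I = ((2 * Real.pi * t : ℝ) : ℂ) * Complex.I := by
    push_cast
    ring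
  rw [h, Complex.norm_exp_ofReal_mul_I]

theorem ee_int (k : ℤ) : ee k = 1 := by
  unfold ee
  have h : 2 * (Real.pi : ℂ) * ((k : ℝ) : ℂ) * Complex.I = k * (2 * Real.pi * Complex.I) := by
    push_cast
    ring
  rw [h, Complex.exp_int_mul_two_pi_mul_I]

/-- complex conjugation -/
theorem conj_ee (t : ℝ) : (starRingEnd ℂ) (ee t) = ee (-t) := by
  unfold ee
  rw [← Complex.exp_conj]
  congr 1
  have h2 : (starRingEnd ℂ) 2 = 2 := Complex.conj_ofNat 2
  rw [map_mul, map_mul, map_mul, h2, Complex.conj_ofReal, Complex.conj_ofReal, Complex.conj_I]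
  push_cast
  ring

theorem ee_sum {κ : Type*} (s : Finset κ) (f : κ → ℝ) : ee (∑ i ∈ s, f i) = ∏ i ∈ s, ee (f i) := by
  classical
  induction s using Finset.induction_on with
  | empty => simp [ee_zero]
  | insert a s ha ih => rw [Finset.sum_insert ha, Finset.prod_insert ha, ee_add, ih]

/-- `‖1 - ee t‖ = 2 |sin (π t)| ≥ 4 nn t` (Jordan's inequality `Real.mul_le_sin`) -/
theorem norm_one_sub_ee (t : ℝ) : 4 * nn t ≤ ‖1 - ee t‖ := by
  have h1 : ee t = ee (t - round t) := by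
    have h2 : t = (t - round t) + ((round t : ℤ) : ℝ) := by ring
    conv_lhs => rw [h2]
    rw [ee_add, ee_int, mul_one]
  have h3 : |t - round t| ≤ 1 / 2 := abs_sub_round t
  rw [h1]
  unfold nn
  set s := t - round t with hs
  have h4 : ‖1 - ee s‖ = ‖2 * Real.sin (Real.pi * s)‖ := by
    rw [norm_sub_rev]
    have h5 := Complex.norm_exp_I_mul_ofReal_sub_one (2 * Real.pi * s)
    have h6 : 2 * Real.pi * s / 2 = Real.pi * s := by ring
    rw [h6] at h5
    rw [← h5]
    unfold ee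
    congr 3
    push_cast
    ring
  rw [h4, Real.norm_eq_abs, abs_mul, abs_two]
  have h7 : |Real.sin (Real.pi * s)| = |Real.sin (Real.pi * |s|)| := by
    rcases le_or_gt 0 s with h | h
    · rw [abs_of_nonneg h]
    · rw [abs_of_neg h, mul_neg, Real.sin_neg, abs_neg]
  have h8 : 2 / Real.pi * (Real.pi * |s|) ≤ Real.sin (Real.pi * |s|) := by
    refine Real.mul_le_sin (by positivity) ?_
    have := Real.pi_pos
    nlinarith
  have h9 : 2 / Real.pi * (Real.pi * |s|) = 2 * |s| := by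
    field_simp
  rw [h9] at h8
  rw [h7]
  have h10 := le_abs_self (Real.sin (Real.pi * |s|))
  linarith

/-- Geometric sums: `S (1 - ee t) = ee (a t) - ee (c t)`. -/
theorem geom_bound (a c : ℤ) (t : ℝ) : ‖∑ n ∈ Finset.Ico a c, ee (n * t)‖ * (2 * nn t) ≤ 1 := by
  have key : ∀ k : ℕ, (∑ n ∈ Finset.Ico a (a + k), ee (n * t)) * (1 - ee t) =
      ee (a * t) - ee ((a + k : ℝ) * t) := by
    intro k
    induction k with
    | zero => simp
    | succ k ih =>
      have h1 : Finset.Ico a (a + ((k + 1 : ℕ) : ℤ)) = insert (a + (k : ℤ)) (Finset.Ico a (a + k)) := by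
        ext n
        simp only [Finset.mem_Ico, Finset.mem_insert]
        push_cast
        omega
      rw [h1, Finset.sum_insert (by simp), add_mul, ih]
      have h2 : ee ((a + ((k + 1 : ℕ) : ℝ)) * t) = ee ((a + k : ℝ) * t) * ee t := by
        rw [← ee_add]
        congr 1
        push_cast
        ring
      rw [h2]
      push_cast
      ring
  rcases le_or_gt c a with h | h
  · rw [Finset.Ico_eq_empty (by omega), Finset.sum_empty, norm_zero, zero_mul]
    exact zero_le_one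
  · obtain ⟨k, hk⟩ : ∃ k : ℕ, c = a + k := ⟨(c - a).toNat, by omega⟩
    subst hk
    have h1 := norm_one_sub_ee t
    have h2 : ‖∑ n ∈ Finset.Ico a (a + k), ee (n * t)‖ * ‖1 - ee t‖ ≤ 2 := by
      rw [← norm_mul, key k]
      refine (norm_sub_le _ _).trans ?_
      rw [norm_ee, norm_ee]
      norm_num
    have h3 := mul_le_mul_of_nonneg_left h1 (norm_nonneg (∑ n ∈ Finset.Ico a (a + k), ee (n * t)))
    linarith

/-- trivial bound -/
theorem geom_le (a c : ℤ) (t : ℝ) (P : ℕ) (h : c - a ≤ P) :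
    ‖∑ n ∈ Finset.Ico a c, ee (n * t)‖ ≤ P := by
  refine (norm_sum_le _ _).trans ?_
  have h1 : ∀ n ∈ Finset.Ico a c, ‖ee (n * t)‖ = 1 := fun n _ => norm_ee _
  rw [Finset.sum_congr rfl h1, Finset.sum_const, nsmul_eq_mul, mul_one, Int.card_Ico]
  have h2 : (c - a).toNat ≤ P := by omega
  exact_mod_cast h2

end Pool.Agent.SZW
end

-- from Lib.SZW.A3
section

/-!
# A3 (S/M): two elements of a dense set with a small difference
-/

set_option autoImplicit false

namespace Pool.Agent.SZW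

/-- Let `s = ⌊2 / ρ⌋ + 1`. If no two elements of `A` are in the same interval
`[k s, (k + 1) s)`, then `|A| ≤ N / s + 1 < ρ N / 2 + 1 ≤ ρ N`. (Pigeonhole for the map `n ↦ n / s`.) -/
theorem exists_gap {A : Finset ℕ} {N : ℕ} {ρ : ℝ} (hρ : 0 < ρ) (h2 : 2 ≤ ρ * N)
    (hA : ∀ n ∈ A, n < N) (hc : ρ * N ≤ A.card) :
    ∃ n ∈ A, ∃ n' ∈ A, n < n' ∧ ((n' - n : ℕ) : ℝ) ≤ 2 / ρ := by
  obtain ⟨s, hs⟩ : ∃ s : ℕ, s = ⌊2 / ρ⌋₊ + 1 := ⟨_, rfl⟩
  have hs0 : 0 < s := by omega
  have hs1 : 2 / ρ < (s : ℝ) := by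
    rw [hs]
    push_cast
    exact Nat.lt_floor_add_one _
  have hN : (0 : ℝ) < (N : ℝ) := by
    by_contra hcon
    have h3 : ρ * (N : ℝ) ≤ 0 := mul_nonpos_of_nonneg_of_nonpos hρ.le (not_lt.1 hcon)
    linarith
  have hmap : ∀ n ∈ A, n / s ∈ Finset.range (N / s + 1) := by
    intro n hn
    rw [Finset.mem_range]
    have h4 : n / s ≤ N / s := Nat.div_le_div_right (hA n hn).le
    omega
  have hcard : (Finset.range (N / s + 1)).card < A.card := by
    rw [Finset.card_range]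
    have h5 : ((N / s : ℕ) : ℝ) ≤ (N : ℝ) / (s : ℝ) := Nat.cast_div_le
    have hs0' : (0 : ℝ) < (s : ℝ) := by exact_mod_cast hs0
    have h6 : (N : ℝ) / (s : ℝ) < ρ * N / 2 := by
      rw [div_lt_iff₀ hs0']
      have h7 : 2 < (s : ℝ) * ρ := (div_lt_iff₀ hρ).1 hs1
      nlinarith
    have h8 : (((N / s + 1 : ℕ) : ℕ) : ℝ) < (A.card : ℝ) := by
      push_cast
      linarith
    exact_mod_cast h8
  obtain ⟨x, hx, y, hy, hxy, hxy'⟩ := Finset.exists_ne_map_eq_of_card_lt_of_maps_to hcard hmap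
  have key : ∀ x ∈ A, ∀ y ∈ A, x < y → x / s = y / s → ∃ n ∈ A, ∃ n' ∈ A, n < n' ∧ ((n' - n : ℕ) : ℝ) ≤ 2 / ρ := by
    intro x hx y hy hlt heq
    refine ⟨x, hx, y, hy, hlt, ?_⟩
    have h1 := Nat.div_add_mod x s
    have h2 := Nat.div_add_mod y s
    have h3 := Nat.mod_lt x hs0
    have h4 := Nat.mod_lt y hs0
    rw [heq] at h1
    have h5 : y - x ≤ ⌊2 / ρ⌋₊ := by omega
    have h6 : ((y - x : ℕ) : ℝ) ≤ ((⌊2 / ρ⌋₊ : ℕ) : ℝ) := by exact_mod_cast h5
    exact h6.trans (Nat.floor_le (by positivity))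
  rcases lt_or_gt_of_ne hxy with h | h
  · exact key x hx y hy h hxy'
  · exact key y hy x hx h hxy'.symm

end Pool.Agent.SZW
end
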