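import Pool.Agent.Lib.H59M.M2.M006
import Pool.Agent.Lib.H59M.M2.M015
import Pool.Agent.Lib.H59M.M2.M016

/-! Merged copies (to shorten the build) of Lib.H68T.INVS, Lib.H68X.XDefs, Lib.H18Q.QDefs, Lib.H51D.DHDefs, Lib.H51D.DHE, Lib.H51D.DHA, Lib.H68T.LAB3, Lib.H68T.ZF1. -/

-- from Lib.H68T.INVS
section

/-!
# Statements of the zero-free region part (chunks INV, INVZ), used by MS and PNTE
-/

open Finset

namespace Pool.Agent.Lib.H68T

/-- Control of `1/L(s, ψ)` in the rectangle `Rg c' Q`: there is `g`, analytic on the rectangle and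
bounded there by `C log Q`, equal to the Dirichlet series of `μ ψ` for `Re s > 1`. -/
def InvStmt (c' C : ℝ) (Q : ℕ) (p : Σ r : ℕ, DirichletCharacter ℂ r) : Prop :=
  ∃ g : ℂ → ℂ, AnalyticOnNhd ℂ g (Rg c' Q) ∧
    (∀ s : ℂ, 1 < s.re → g s = LSeries (fun n => (ArithmeticFunction.moebius n : ℂ) *
      p.2 (n : ZMod p.1)) s) ∧ ∀ s ∈ Rg c' Q, ‖g s‖ ≤ C * Real.log Q


end Pool.Agent.Lib.H68T
end

-- from Lib.H68X.XDefs
section

/-!
# Project H68X: exceptional zeros included (definitions)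

All statements of this project are about the same objects as in `Lib/H68T`; errors are measured
by `sw K Q X = exp (-log X/(K log Q)) + Q^(-1/K)`.
-/

open Finset

namespace Pool.Agent.Lib.H68T

noncomputable section


/-- `β` is a real zero, close to `1`, of the real primitive character `ψ ≠ 1` of conductor
`r ≤ Q`. -/
def Exc (c : ℝ) (Q r : ℕ) [NeZero r] (ψ : DirichletCharacter ℂ r) (β : ℝ) : Prop :=
  r ≤ Q ∧ ψ.IsPrimitive ∧ ψ ≠ 1 ∧ ψ ^ 2 = 1 ∧ 1 - c / Real.log Q ≤ β ∧ β < 1 ∧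
    ψ.LFunction (β : ℂ) = 0

/-- As `InvStmt`, only for `|Im s| ≥ 1`. -/
def InvHigh (c' C : ℝ) (Q : ℕ) (p : Σ r : ℕ, DirichletCharacter ℂ r) : Prop :=
  ∃ g : ℂ → ℂ, AnalyticOnNhd ℂ g (Rg c' Q ∩ {s | 1 ≤ |s.im|}) ∧
    (∀ s : ℂ, 1 < s.re → g s = LSeries (fun n => (ArithmeticFunction.moebius n : ℂ) *
      p.2 (n : ZMod p.1)) s) ∧ ∀ s ∈ Rg c' Q, 1 ≤ |s.im| → ‖g s‖ ≤ C * Real.log Q

/-- Control of `-L'/L(s,ψ) + 1/(s-β)` in the rectangle. -/
def LogStmt (c' C : ℝ) (Q : ℕ) (p : Σ r : ℕ, DirichletCharacter ℂ r) (β : ℝ) : Prop :=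
  ∃ g : ℂ → ℂ, AnalyticOnNhd ℂ g (Rg c' Q) ∧
    (∀ s : ℂ, 1 < s.re → g s = LSeries (fun n => (ArithmeticFunction.vonMangoldt n : ℂ) *
      p.2 (n : ZMod p.1)) s + 1 / (s - β)) ∧ ∀ s ∈ Rg c' Q, ‖g s‖ ≤ C * Real.log Q


/-- `∑ m^(β-1) v(m) m^(-1-it)` -/
def Fb (X : ℕ) (β t : ℝ) : ℂ := FF X (fun m => (((m : ℝ) ^ (β - 1) : ℝ) : ℂ)) t



/-- `∑_{w ∣ W, w q ≤ Q} μ²(w)/φ(w)` -/
def TW (Q W q : ℕ) : ℝ :=
  ∑ w ∈ W.divisors.filter (fun w => w * q ≤ Q),
    (ArithmeticFunction.moebius w : ℝ) ^ 2 / (Nat.totient w : ℝ)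






end

/-! ## Monotonicity -/

theorem Rg_mono {c c' : ℝ} {Q : ℕ} (h : c ≤ c') : Rg c Q ⊆ Rg c' Q := by
  rintro s ⟨h1, h2, h3⟩
  refine ⟨?_, h2, h3⟩
  have : c / Real.log Q ≤ c' / Real.log Q := div_le_div_of_nonneg_right h (by positivity)
  linarith

theorem InvStmt.mono {c c' C C' : ℝ} {Q : ℕ} {p : Σ r : ℕ, DirichletCharacter ℂ r}
    (h : InvStmt c' C Q p) (hc : c ≤ c') (hC : C ≤ C') : InvStmt c C' Q p := by
  obtain ⟨g, h1, h2, h3⟩ := h
  refine ⟨g, h1.mono (Rg_mono hc), h2, fun s hs => (h3 s (Rg_mono hc hs)).trans ?_⟩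
  exact mul_le_mul_of_nonneg_right hC (by positivity)

theorem InvHigh.mono {c c' C C' : ℝ} {Q : ℕ} {p : Σ r : ℕ, DirichletCharacter ℂ r}
    (h : InvHigh c' C Q p) (hc : c ≤ c') (hC : C ≤ C') : InvHigh c C' Q p := by
  obtain ⟨g, h1, h2, h3⟩ := h
  refine ⟨g, h1.mono (Set.inter_subset_inter_left _ (Rg_mono hc)), h2, fun s hs hi =>
    (h3 s (Rg_mono hc hs) hi).trans ?_⟩
  exact mul_le_mul_of_nonneg_right hC (by positivity)

theorem LogStmt.mono {c c' C C' : ℝ} {Q : ℕ} {p : Σ r : ℕ, DirichletCharacter ℂ r} {β : ℝ}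
    (h : LogStmt c' C Q p β) (hc : c ≤ c') (hC : C ≤ C') : LogStmt c C' Q p β := by
  obtain ⟨g, h1, h2, h3⟩ := h
  refine ⟨g, h1.mono (Rg_mono hc), h2, fun s hs => (h3 s (Rg_mono hc hs)).trans ?_⟩
  exact mul_le_mul_of_nonneg_right hC (by positivity)


theorem Good.mono {c c' : ℝ} {Q : ℕ} (h : Good c' Q) (hc : c ≤ c') : Good c Q := by
  intro r _ ψ hr h1 h2 h3 σ hσ hσ1
  refine h r ψ hr h1 h2 h3 σ (le_trans ?_ hσ) hσ1
  have : c / Real.log Q ≤ c' / Real.log Q := div_le_div_of_nonneg_right hc (by positivity)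
  linarith

theorem Exc.mono {c c' : ℝ} {Q r : ℕ} [NeZero r] {ψ : DirichletCharacter ℂ r} {β : ℝ}
    (h : Exc c Q r ψ β) (hc : c ≤ c') : Exc c' Q r ψ β := by
  obtain ⟨h1, h2, h3, h4, h5, h6, h7⟩ := h
  refine ⟨h1, h2, h3, h4, le_trans ?_ h5, h6, h7⟩
  have : c / Real.log Q ≤ c' / Real.log Q := div_le_div_of_nonneg_right hc (by positivity)
  linarith







end Pool.Agent.Lib.H68T
end

-- from Lib.H18Q.QDefs
section

/-!
# Project H18Q: definitions for the zeros of L-functions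

`od f ρ` order of vanishing, `ZD f c R` zeros in a closed disc, `ZR f σ T` zeros in a rectangle,
`Lp p` the entire function attached to a primitive character (`(s-1)ζ(s)` for the trivial one),
`Lx r ψ β p` the same with the zero `β` of `L(s, ψ)` removed, `Jk lam k n` the weights of the
power sum method, `LDat C0 ℓ T f` growth data.
-/

open Finset

namespace Pool.Agent.Lib.H18Q

open Pool.Agent.Lib.H68T

noncomputable section

/-- Order of vanishing of `f` at `ρ`. -/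
def od (f : ℂ → ℂ) (ρ : ℂ) : ℕ := analyticOrderNatAt f ρ

open Classical in
/-- The zeros of `f` in a set, if there are finitely many of them. -/
def ZS (f : ℂ → ℂ) (S : Set ℂ) : Finset ℂ :=
  if h : ({ρ : ℂ | f ρ = 0 ∧ ρ ∈ S}).Finite then h.toFinset else ∅

/-- The zeros of `f` in the closed disc with centre `c` and radius `R`. -/
def ZD (f : ℂ → ℂ) (c : ℂ) (R : ℝ) : Finset ℂ := ZS f (Metric.closedBall c R)

/-- The zeros of `f` with `σ ≤ Re ρ ≤ 1` and `|Im ρ| ≤ T`. -/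
def ZR (f : ℂ → ℂ) (σ T : ℝ) : Finset ℂ := ZS f {ρ | σ ≤ ρ.re ∧ ρ.re ≤ 1 ∧ |ρ.im| ≤ T}

/-- The entire function attached to a character: `(s-1) ζ(s)` for the trivial character modulo
`1`, else `L(s, χ)`. -/
def Lp (p : Σ r : ℕ, DirichletCharacter ℂ r) : ℂ → ℂ :=
  open Classical in
  if p = p0 then gl2_Z else
    if h : p.1 = 0 then fun _ => 1 else
      haveI : NeZero p.1 := ⟨h⟩
      p.2.LFunction

/-- `Lp p` with the zero `β` of `L(s, ψ)` removed for `p = (r, ψ)`. -/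
def Lx (r : ℕ) (ψ : DirichletCharacter ℂ r) (β : ℝ) (p : Σ r : ℕ, DirichletCharacter ℂ r) :
    ℂ → ℂ :=
  open Classical in
  if p = ⟨r, ψ⟩ then dslope (Lp ⟨r, ψ⟩) (β : ℂ) else Lp p

/-- The weights of the power sum method: `lam^(k+1) (log n)^k / k! n^(-1-lam)`. -/
def Jk (lam : ℝ) (k n : ℕ) : ℝ :=
  lam ^ (k + 1) * Real.log n ^ k / (k.factorial : ℝ) * (n : ℝ) ^ (-1 - lam)

/-- Growth data of an entire function near the line `Re s = 1`: zeros only in `Re s < 1`, growth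
`exp (C0 ℓ)` in discs of radius `1/2` about the points `1 + lam + i v`, `1/ℓ ≤ lam ≤ 1/8`,
`|v| ≤ T`, and logarithmic derivative at these points at most `C0 / lam`. -/
structure LDat (C0 ℓ T : ℝ) (f : ℂ → ℂ) : Prop where
  diff : Differentiable ℂ f
  zre : ∀ ρ : ℂ, f ρ = 0 → ρ.re < 1
  growth : ∀ lam v : ℝ, 1 / ℓ ≤ lam → lam ≤ 1 / 8 → |v| ≤ T →
    ∀ s ∈ Metric.closedBall (1 + lam + v * Complex.I : ℂ) (1 / 2),
      ‖f s‖ ≤ Real.exp (C0 * ℓ) * ‖f (1 + lam + v * Complex.I)‖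
  ld : ∀ lam v : ℝ, 1 / ℓ ≤ lam → lam ≤ 1 / 8 → |v| ≤ T →
    ‖logDeriv f (1 + lam + v * Complex.I)‖ ≤ C0 / lam

/-- The threshold for the width of the region in which zeros are detected. -/
def th0 : ℝ := 1 / 10 ^ 9

end

theorem Lp_p0 : Lp p0 = gl2_Z := by
  unfold Lp
  rw [if_pos rfl]

theorem Lp_mk (r : ℕ) [NeZero r] (ψ : DirichletCharacter ℂ r)
    (h : (⟨r, ψ⟩ : Σ r : ℕ, DirichletCharacter ℂ r) ≠ p0) : Lp ⟨r, ψ⟩ = ψ.LFunction := by
  unfold Lp
  rw [if_neg h, dif_neg (NeZero.ne r)]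

theorem Lx_mk (r : ℕ) (ψ : DirichletCharacter ℂ r) (β : ℝ) :
    Lx r ψ β ⟨r, ψ⟩ = dslope (Lp ⟨r, ψ⟩) (β : ℂ) := by
  unfold Lx
  rw [if_pos rfl]

theorem Lx_of_ne (r : ℕ) (ψ : DirichletCharacter ℂ r) (β : ℝ)
    (p : Σ r : ℕ, DirichletCharacter ℂ r) (h : p ≠ ⟨r, ψ⟩) : Lx r ψ β p = Lp p := by
  unfold Lx
  rw [if_neg h]

/-- A member of `PC Q` different from `p0` is a character different from `1`. -/
theorem ne_one_of_ne_p0 {Q : ℕ} {p : Σ r : ℕ, DirichletCharacter ℂ r} (hp : p ∈ PC Q)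
    (h : p ≠ p0) : p.2 ≠ 1 := by
  intro h1
  apply h
  obtain ⟨r, ψ⟩ := p
  have hp' := (mem_PC.mp hp).2.2
  have hr := (mem_PC.mp hp).1
  simp only at h1 hp' hr
  have hne : NeZero r := ⟨by omega⟩
  have h2 : r = 1 := by
    have h3 := hp'
    unfold DirichletCharacter.IsPrimitive at h3
    rw [h1, DirichletCharacter.conductor_one] at h3
    exact h3.symm
  subst h2
  rw [h1]
  rfl

theorem Lp_mem {Q : ℕ} {p : Σ r : ℕ, DirichletCharacter ℂ r} (hp : p ∈ PC Q) (h : p ≠ p0) :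
    ∃ _h : NeZero p.1, Lp p = p.2.LFunction := by
  have h1 := (mem_PC.mp hp).1
  have hne : NeZero p.1 := ⟨by omega⟩
  refine ⟨hne, ?_⟩
  obtain ⟨r, ψ⟩ := p
  exact Lp_mk r ψ h

end Pool.Agent.Lib.H18Q
end

-- from Lib.H51D.DHDefs
section

/-!
# Project H51D (MP_f686a1_nt): definitions

Objects of the Deuring-Heilbronn part (module DH).
-/

open Finset

namespace Pool.Agent.Lib.H68T

noncomputable section

/-! ## Objects of the Deuring-Heilbronn part -/

/-- `λ = 1 * ψ` for a real character `ψ`. -/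
def lam {r : ℕ} (ψ : DirichletCharacter ℂ r) (n : ℕ) : ℝ :=
  ∑ d ∈ n.divisors, (ψ (d : ZMod r)).re






end

end Pool.Agent.Lib.H68T
end

-- from Lib.H51D.DHE
section

/-!
# Chunk DHE: Dirichlet series at a zero of their analytic continuation
-/

open Finset

namespace Pool.Agent.Lib.H68T

/-- the error term -/
noncomputable def DHE_E (f : ℕ → ℂ) (κ : ℂ) (n : ℕ) : ℂ := (∑ k ∈ Icc 1 n, f k) - κ * n

/-- `(n+1)^(-s)` -/
noncomputable def DHE_p (n : ℕ) (s : ℂ) : ℂ := (((n : ℝ) + 1 : ℝ) : ℂ) ^ (-s)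

/-- the terms of the continuation -/
noncomputable def DHE_A (f : ℕ → ℂ) (κ : ℂ) (n : ℕ) (s : ℂ) : ℂ :=
  DHE_E f κ (n + 1) * ((((n : ℝ) + 1 : ℝ) : ℂ) ^ (-s) - (((n : ℝ) + 2 : ℝ) : ℂ) ^ (-s))

theorem DHE_p_succ (n : ℕ) (s : ℂ) : DHE_p (n + 1) s = (((n : ℝ) + 2 : ℝ) : ℂ) ^ (-s) := by
  have e : (((n + 1 : ℕ) : ℝ) + 1 : ℝ) = (n : ℝ) + 2 := by
    push_cast
    ring
  rw [DHE_p, e]

theorem DHE_abel (f : ℕ → ℂ) (κ : ℂ) (s : ℂ) (K : ℕ) :
    ∑ n ∈ range K, f (n + 1) * DHE_p n s =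
      DHE_E f κ K * DHE_p K s + κ * ∑ n ∈ range K, DHE_p n s + ∑ n ∈ range K, DHE_A f κ n s := by
  induction K with
  | zero => simp [DHE_E]
  | succ K ih =>
    rw [sum_range_succ, ih, sum_range_succ, sum_range_succ (fun n => DHE_A f κ n s)]
    have h1 : DHE_E f κ (K + 1) = DHE_E f κ K + f (K + 1) - κ := by
      rw [DHE_E, DHE_E, sum_Icc_succ_top (by omega)]
      push_cast
      ring
    have h2 : DHE_A f κ K s = DHE_E f κ (K + 1) * (DHE_p K s - DHE_p (K + 1) s) := by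
      rw [DHE_A, DHE_p_succ, DHE_p]
    rw [h2, h1]
    ring

theorem DHE_A_norm (f : ℕ → ℂ) (κ : ℂ) (D : ℝ)
    (hM : ∀ u : ℕ, ‖(∑ n ∈ Icc 1 u, f n) - κ * u‖ ≤ D * Real.sqrt u) (n : ℕ) (s : ℂ)
    (hs : 0 < s.re) :
    ‖DHE_A f κ n s‖ ≤ D * ‖s‖ * ((n : ℝ) + 1) ^ (-s.re - 1 / 2) := by
  have hn : (0 : ℝ) < (n : ℝ) + 1 := by positivity
  rw [DHE_A, norm_mul, norm_sub_rev]
  have h1 : ‖DHE_E f κ (n + 1)‖ ≤ D * ((n : ℝ) + 1) ^ (1 / 2 : ℝ) := by
    have := hM (n + 1)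
    rw [Real.sqrt_eq_rpow] at this
    push_cast at this ⊢
    rw [DHE_E]
    push_cast
    exact this
  have h2 := gl1_diff' s hs (a := (n : ℝ) + 1) (b := (n : ℝ) + 2) hn (by linarith)
  have e : (n : ℝ) + 2 - ((n : ℝ) + 1) = 1 := by ring
  rw [e, mul_one] at h2
  calc _ ≤ (D * ((n : ℝ) + 1) ^ (1 / 2 : ℝ)) * (‖s‖ * ((n : ℝ) + 1) ^ (-s.re - 1)) :=
        mul_le_mul h1 h2 (norm_nonneg _) ((norm_nonneg _).trans h1)
    _ = D * ‖s‖ * (((n : ℝ) + 1) ^ (1 / 2 : ℝ) * ((n : ℝ) + 1) ^ (-s.re - 1)) := by ring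
    _ = _ := by
      rw [← Real.rpow_add hn]
      congr 2
      ring

theorem DHE_diff (f : ℕ → ℂ) (κ : ℂ) (n : ℕ) : Differentiable ℂ (DHE_A f κ n) := by
  have h0 : ∀ (x : ℝ), 0 < x → Differentiable ℂ fun s : ℂ => (x : ℂ) ^ (-s) := by
    intro x hx s
    refine DifferentiableAt.const_cpow differentiableAt_id.neg (Or.inl ?_)
    exact_mod_cast hx.ne'
  unfold DHE_A
  exact ((h0 _ (by positivity)).sub (h0 _ (by positivity))).const_mul _

theorem DHE_analytic (f : ℕ → ℂ) (κ : ℂ) (D : ℝ) (hD : 0 ≤ D)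
    (hM : ∀ u : ℕ, ‖(∑ n ∈ Icc 1 u, f n) - κ * u‖ ≤ D * Real.sqrt u) :
    AnalyticOnNhd ℂ (fun s => ∑' n, DHE_A f κ n s) {s | 1 / 2 < s.re} := by
  have h1 : DifferentiableOn ℂ (fun s => ∑' n, DHE_A f κ n (s + 1 / 2)) {s | 0 < s.re} := by
    apply gl1_analytic (fun n s => DHE_A f κ n (s + 1 / 2))
    · intro n
      exact (DHE_diff f κ n).comp (by fun_prop)
    · intro R
      refine ⟨D * (|R| + 1), fun n s hs hR => ?_⟩
      have h2 : 0 < (s + 1 / 2).re := by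
        simp
        linarith
      refine (DHE_A_norm f κ D hM n _ h2).trans ?_
      have e1 : -(s + 1 / 2).re - 1 / 2 = -s.re - 1 := by
        simp
        ring
      rw [e1]
      apply mul_le_mul_of_nonneg_right _ (Real.rpow_nonneg (by positivity) _)
      apply mul_le_mul_of_nonneg_left _ hD
      refine (norm_add_le _ _).trans ?_
      have h3 : ‖(1 / 2 : ℂ)‖ = 1 / 2 := by simp
      rw [h3]
      linarith [hR.trans (le_abs_self R)]
  have hop : IsOpen {s : ℂ | 1 / 2 < s.re} := isOpen_lt continuous_const Complex.continuous_re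
  apply DifferentiableOn.analyticOnNhd _ hop
  have h4 : DifferentiableOn ℂ ((fun s => ∑' n, DHE_A f κ n (s + 1 / 2)) ∘ fun s => s - 1 / 2)
      {s | 1 / 2 < s.re} := by
    refine h1.comp (by fun_prop) ?_
    intro s hs
    have hs' : 1 / 2 < s.re := hs
    change 0 < (s - 1 / 2).re
    simp
    linarith
  refine h4.congr fun s _ => ?_
  simp

theorem DHE_summable (f : ℕ → ℂ) (κ : ℂ) (D : ℝ)
    (hM : ∀ u : ℕ, ‖(∑ n ∈ Icc 1 u, f n) - κ * u‖ ≤ D * Real.sqrt u) (s : ℂ)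
    (hs : 1 / 2 < s.re) : Summable fun n => DHE_A f κ n s := by
  refine Summable.of_norm_bounded (g := fun n : ℕ => D * ‖s‖ * ((n : ℝ) + 1) ^ (-s.re - 1 / 2)) ?_
    (fun n => DHE_A_norm f κ D hM n s (by linarith))
  apply Summable.mul_left
  have h1 : Summable fun n : ℕ => (n : ℝ) ^ (-s.re - 1 / 2) :=
    Real.summable_nat_rpow.2 (by linarith)
  have h2 := (summable_nat_add_iff 1).2 h1
  simpa using h2

/-- the continuation -/
theorem DHE_series (f : ℕ → ℂ) (κ : ℂ) (D : ℝ)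
    (hM : ∀ u : ℕ, ‖(∑ n ∈ Icc 1 u, f n) - κ * u‖ ≤ D * Real.sqrt u)
    (hsum : ∀ s : ℂ, 1 < s.re → LSeriesSummable f s) (s : ℂ) (hs : 1 < s.re) :
    LSeries f s = κ * riemannZeta s + ∑' n, DHE_A f κ n s := by
  have h2 : Filter.Tendsto (fun K => ∑ n ∈ range K, f (n + 1) * DHE_p n s) Filter.atTop
      (nhds (LSeries f s)) := by
    have h3 := (hsum s hs).hasSum.tendsto_sum_nat
    have h4 := (Filter.tendsto_add_atTop_iff_nat 1).2 h3
    refine h4.congr fun K => ?_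
    rw [sum_range_succ']
    simp only [LSeries.term_zero, add_zero]
    refine sum_congr rfl fun n _ => ?_
    rw [LSeries.term_of_ne_zero (by omega), DHE_p, Complex.cpow_neg, div_eq_mul_inv]
    push_cast
    rfl
  have h5 : Filter.Tendsto (fun K => DHE_E f κ K * DHE_p K s) Filter.atTop (nhds 0) := by
    have h6 : Filter.Tendsto (fun K : ℕ => |D| * ((K : ℝ) + 1) ^ (-(s.re - 1 / 2))) Filter.atTop
        (nhds (|D| * 0)) := by
      refine Filter.Tendsto.const_mul _ ?_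
      have h7 := tendsto_rpow_neg_atTop (y := s.re - 1 / 2) (by linarith)
      have h8 : Filter.Tendsto (fun K : ℕ => (K : ℝ) + 1) Filter.atTop Filter.atTop :=
        Filter.tendsto_atTop_add_const_right _ _ tendsto_natCast_atTop_atTop
      exact h7.comp h8
    rw [mul_zero] at h6
    refine squeeze_zero_norm (fun K => ?_) h6
    have hK : (0 : ℝ) < (K : ℝ) + 1 := by positivity
    rw [norm_mul, DHE_p, Complex.norm_cpow_eq_rpow_re_of_pos hK]
    have h9 : ‖DHE_E f κ K‖ ≤ |D| * ((K : ℝ) + 1) ^ (1 / 2 : ℝ) := by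
      refine (hM K).trans ?_
      rw [Real.sqrt_eq_rpow]
      refine (mul_le_mul_of_nonneg_right (le_abs_self D) (Real.rpow_nonneg (by positivity) _)).trans ?_
      apply mul_le_mul_of_nonneg_left _ (abs_nonneg D)
      exact Real.rpow_le_rpow (by positivity) (by linarith) (by norm_num)
    calc ‖DHE_E f κ K‖ * ((K : ℝ) + 1) ^ (-s).re
        ≤ |D| * ((K : ℝ) + 1) ^ (1 / 2 : ℝ) * ((K : ℝ) + 1) ^ (-s).re :=
          mul_le_mul_of_nonneg_right h9 (Real.rpow_nonneg hK.le _)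
      _ = |D| * (((K : ℝ) + 1) ^ (1 / 2 : ℝ) * ((K : ℝ) + 1) ^ (-s).re) := by ring
      _ = _ := by
        rw [← Real.rpow_add hK]
        congr 2
        simp
        ring
  have h10 : Filter.Tendsto (fun K => ∑ n ∈ range K, DHE_p n s) Filter.atTop
      (nhds (riemannZeta s)) := by
    have h1 : Summable fun n : ℕ => 1 / ((n : ℂ) + 1) ^ s := by
      have h2 := Complex.summable_one_div_nat_cpow.2 hs
      have h3 := (summable_nat_add_iff 1).2 h2
      simpa using h3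
    rw [zeta_eq_tsum_one_div_nat_add_one_cpow hs]
    refine h1.hasSum.tendsto_sum_nat.congr fun K => ?_
    refine sum_congr rfl fun n _ => ?_
    rw [DHE_p, Complex.cpow_neg, one_div]
    push_cast
    rfl
  have h11 := (DHE_summable f κ D hM s (by linarith)).hasSum.tendsto_sum_nat
  have h12 := (h5.add (h10.const_mul κ)).add h11
  rw [zero_add] at h12
  refine tendsto_nhds_unique h2 (h12.congr fun K => ?_)
  exact (DHE_abel f κ s K).symm

theorem DHE_mvt (p x : ℝ) (hp : 0 < p) (hx : 0 < x) :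
    p * (x + 1) ^ (-p - 1) ≤ x ^ (-p) - (x + 1) ^ (-p) := by
  have hx1 : 0 < x + 1 := by linarith
  have h1 : Real.log x ≤ Real.log (x + 1) - 1 / (x + 1) := by
    have h2 : Real.log (x / (x + 1)) ≤ x / (x + 1) - 1 :=
      Real.log_le_sub_one_of_pos (by positivity)
    rw [Real.log_div hx.ne' hx1.ne'] at h2
    have h3 : x / (x + 1) - 1 = -(1 / (x + 1)) := by
      field_simp
      ring
    linarith
  have h4 : (x + 1) ^ (-p) * (1 + p / (x + 1)) ≤ x ^ (-p) := by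
    rw [Real.rpow_def_of_pos hx, Real.rpow_def_of_pos hx1]
    calc Real.exp (Real.log (x + 1) * -p) * (1 + p / (x + 1))
        ≤ Real.exp (Real.log (x + 1) * -p) * Real.exp (p / (x + 1)) := by
          apply mul_le_mul_of_nonneg_left _ (Real.exp_pos _).le
          linarith [Real.add_one_le_exp (p / (x + 1))]
      _ = Real.exp (Real.log (x + 1) * -p + p / (x + 1)) := by rw [Real.exp_add]
      _ ≤ _ := by
          apply Real.exp_le_exp.mpr
          have h5 := mul_le_mul_of_nonneg_left h1 hp.le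
          have h6 : p / (x + 1) = p * (1 / (x + 1)) := by ring
          rw [h6]
          linarith
  have h7 : (x + 1) ^ (-p) * (p / (x + 1)) = p * (x + 1) ^ (-p - 1) := by
    rw [Real.rpow_sub hx1, Real.rpow_one]
    ring
  linarith


end Pool.Agent.Lib.H68T
end

-- from Lib.H51D.DHA
section

/-!
# Chunk DHA: the arithmetic functions `λ = 1 * ψ` and `g = μ * μψ`, `ψ` real
-/

open Finset

namespace Pool.Agent.Lib.H68T

open ArithmeticFunction in
theorem dha_val (r : ℕ) (ψ : DirichletCharacter ℂ r) (h2 : ψ ^ 2 = 1) (n : ℕ) :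
    ψ (n : ZMod r) = ((ψ (n : ZMod r)).re : ℂ) ∧
      ((ψ (n : ZMod r)).re = 0 ∨ (ψ (n : ZMod r)).re = 1 ∨ (ψ (n : ZMod r)).re = -1) := by
  by_cases hu : IsUnit (n : ZMod r)
  · have h1 : (ψ ^ 2) (n : ZMod r) = 1 := by
      rw [h2]; exact MulChar.one_apply hu
    rw [MulChar.pow_apply' ψ two_ne_zero] at h1
    have h3 : ψ (n : ZMod r) = 1 ∨ ψ (n : ZMod r) = -1 := sq_eq_one_iff.mp h1
    rcases h3 with h | h
    · rw [h]
      simp
    · rw [h]
      simp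
  · rw [MulChar.map_nonunit ψ hu]
    simp

theorem dha_mul (r : ℕ) (ψ : DirichletCharacter ℂ r) (h2 : ψ ^ 2 = 1) (m n : ℕ) :
    (ψ ((m * n : ℕ) : ZMod r)).re = (ψ (m : ZMod r)).re * (ψ (n : ZMod r)).re := by
  rw [Nat.cast_mul, map_mul]
  rw [(dha_val r ψ h2 m).1, (dha_val r ψ h2 n).1, ← Complex.ofReal_mul, Complex.ofReal_re,
    Complex.ofReal_re, Complex.ofReal_re]

/-- `ψ` as an arithmetic function -/
noncomputable def dha_P {r : ℕ} (ψ : DirichletCharacter ℂ r) : ArithmeticFunction ℝ :=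
  ⟨fun n => if n = 0 then 0 else (ψ (n : ZMod r)).re, by simp⟩

theorem dha_P_apply {r : ℕ} (ψ : DirichletCharacter ℂ r) {n : ℕ} (hn : n ≠ 0) :
    dha_P ψ n = (ψ (n : ZMod r)).re := by
  change (if n = 0 then 0 else (ψ (n : ZMod r)).re) = _
  rw [if_neg hn]

theorem dha_P_mult (r : ℕ) (ψ : DirichletCharacter ℂ r) (h2 : ψ ^ 2 = 1) :
    (dha_P ψ).IsMultiplicative := by
  rw [ArithmeticFunction.IsMultiplicative.iff_ne_zero]
  refine ⟨?_, ?_⟩
  · rw [dha_P_apply ψ one_ne_zero]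
    simp
  · intro m n hm hn _
    rw [dha_P_apply ψ (mul_ne_zero hm hn), dha_P_apply ψ hm, dha_P_apply ψ hn, dha_mul r ψ h2]

theorem dha_lam {r : ℕ} (ψ : DirichletCharacter ℂ r) (n : ℕ) :
    lam ψ n = (dha_P ψ * (ArithmeticFunction.zeta : ArithmeticFunction ℝ)) n := by
  rw [ArithmeticFunction.coe_mul_zeta_apply]
  unfold lam
  refine sum_congr rfl fun d hd => ?_
  rw [dha_P_apply ψ (Nat.pos_of_mem_divisors hd).ne']


theorem dha_lam_mult (r : ℕ) (ψ : DirichletCharacter ℂ r) (h2 : ψ ^ 2 = 1) :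
    (dha_P ψ * (ArithmeticFunction.zeta : ArithmeticFunction ℝ)).IsMultiplicative :=
  (dha_P_mult r ψ h2).mul ArithmeticFunction.isMultiplicative_zeta.natCast


theorem dha_pow (r : ℕ) (ψ : DirichletCharacter ℂ r) (h2 : ψ ^ 2 = 1) (p k : ℕ) :
    (ψ ((p ^ k : ℕ) : ZMod r)).re = (ψ (p : ZMod r)).re ^ k := by
  induction k with
  | zero => simp
  | succ k ih =>
    rw [pow_succ, dha_mul r ψ h2, ih, pow_succ]

theorem dha_lam_pp (r : ℕ) (ψ : DirichletCharacter ℂ r) (h2 : ψ ^ 2 = 1) (p k : ℕ)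
    (hp : p.Prime) : lam ψ (p ^ k) = ∑ i ∈ range (k + 1), (ψ (p : ZMod r)).re ^ i := by
  unfold lam
  rw [Nat.divisors_prime_pow hp, sum_map]
  refine sum_congr rfl fun i _ => ?_
  exact dha_pow r ψ h2 p i


theorem dha_geom_nonneg (v : ℝ) (hv : v = 0 ∨ v = 1 ∨ v = -1) (n : ℕ) :
    0 ≤ ∑ i ∈ range n, v ^ i := by
  rcases hv with h | h | h
  · rw [h]
    exact sum_nonneg fun i _ => pow_nonneg le_rfl i
  · rw [h]
    exact sum_nonneg fun i _ => by simp
  · rw [h, neg_one_geom_sum]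
    split <;> norm_num

/-- `λ(n) ≥ 0`: `λ` is multiplicative (`ArithmeticFunction.IsMultiplicative.mul` for the functions
`n ↦ 1` and `n ↦ (ψ n).re`; `ψ n` is real by `T341_real_value` or because `ψ(n)^2 ∈ {0, 1}`), and
`λ(p^k) = 1 + ψ(p) + ... + ψ(p)^k ≥ 0` for `ψ(p) ∈ {-1, 0, 1}`. -/
theorem lam_nonneg (r : ℕ) [NeZero r] (ψ : DirichletCharacter ℂ r) (h2 : ψ ^ 2 = 1) (n : ℕ) :
    0 ≤ lam ψ n := by
  induction n using Nat.recOnPosPrimePosCoprime with
  | zero => simp [lam]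
  | one => simp [lam]
  | prime_pow p k hp hk =>
    rw [dha_lam_pp r ψ h2 p k hp]
    exact dha_geom_nonneg _ (dha_val r ψ h2 p).2 _
  | coprime a b ha hb hab iha ihb =>
    rw [dha_lam, (dha_lam_mult r ψ h2).map_mul_of_coprime hab, ← dha_lam, ← dha_lam]
    exact mul_nonneg iha ihb




/-- `λ` as a sum of complex values: `ψ(d)` is real. -/
theorem lam_cast (r : ℕ) [NeZero r] (ψ : DirichletCharacter ℂ r) (h2 : ψ ^ 2 = 1) (n : ℕ) :
    (lam ψ n : ℂ) = ∑ d ∈ n.divisors, ψ (d : ZMod r) := by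
  unfold lam
  rw [Complex.ofReal_sum]
  refine sum_congr rfl fun d _ => ?_
  exact ((dha_val r ψ h2 d).1).symm

end Pool.Agent.Lib.H68T
end

-- from Lib.H68T.LAB3
section

/-!
# Chunk LAB3; part of LAB: real parts of logarithmic derivatives
-/

open Finset ArithmeticFunction

namespace Pool.Agent.Lib.H68T

theorem lab3_Z_zero (ρ : ℂ) (h : gl2_Z ρ = 0) : riemannZeta ρ = 0 := by
  have h1 : ρ ≠ 1 := by
    rintro rfl
    rw [gl2_Z_one] at h
    exact one_ne_zero h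
  rw [gl2_Z_eq ρ h1] at h
  exact (mul_eq_zero.1 h).resolve_left (sub_ne_zero.2 h1)

theorem lab3_zeta_zero (ρ : ℂ) (h : riemannZeta ρ = 0) : gl2_Z ρ = 0 := by
  have h1 : ρ ≠ 1 := by
    rintro rfl
    exact riemannZeta_ne_zero_of_one_le_re (by simp) h
  rw [gl2_Z_eq ρ h1, h, mul_zero]

/-- The same for `ζ`, with `f(s) = (s-1) ζ(s)` (value `1` at `s = 1`), `zeta_bound`,
`‖f(s₀)‖ ≥ (σ-1)²/σ`. -/
theorem re_zeta : ∃ C : ℝ, 0 < C ∧ ∀ σ t : ℝ, 1 < σ → σ ≤ 5 / 4 → ∀ S : Finset ℂ,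
    (∀ ρ ∈ S, riemannZeta ρ = 0 ∧ ‖ρ - (σ + t * Complex.I)‖ ≤ 1 / 4) →
    (LSeries (fun n => (vonMangoldt n : ℂ)) (σ + t * Complex.I)).re ≤
      (1 / (σ + t * Complex.I - 1)).re +
      C * (Real.log (|t| + 3) + Real.log (1 / (σ - 1)) + 1) -
        ∑ ρ ∈ S, (1 / (σ + t * Complex.I - ρ)).re := by
  obtain ⟨A, hA, hcore⟩ := lab2_core
  refine ⟨5 * A, by positivity, fun σ t h1 h2 S hS => ?_⟩
  set s₀ : ℂ := σ + t * Complex.I with hs₀
  have hre : s₀.re = σ := by simp [hs₀]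
  have him : s₀.im = t := by simp [hs₀]
  have hs1 : 1 < s₀.re := by rw [hre]; exact h1
  have hne1 : s₀ ≠ 1 := by
    intro h
    rw [h] at hs1
    simp at hs1
  have hσ0 : 0 < σ := by linarith
  have hσ1 : 0 < σ - 1 := by linarith
  have hlow : (σ - 1) * ((σ - 1) / σ) ≤ ‖gl2_Z s₀‖ := by
    have e1 := lab2_lower 1 1 s₀ hs1
    have e2 : LSeries (fun n => (1 : DirichletCharacter ℂ 1) (n : ZMod 1)) s₀ =
        riemannZeta s₀ := by
      rw [← DirichletCharacter.LFunction_eq_LSeries (1 : DirichletCharacter ℂ 1) hs1,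
        DirichletCharacter.LFunction_modOne_eq]
    rw [e2, hre] at e1
    rw [gl2_Z_eq s₀ hne1, norm_mul]
    refine mul_le_mul ?_ e1 (by positivity) (norm_nonneg _)
    have e3 := Complex.abs_re_le_norm (s₀ - 1)
    rw [Complex.sub_re, hre, Complex.one_re, abs_of_pos hσ1] at e3
    exact e3
  have hf0 : 0 < ‖gl2_Z s₀‖ := lt_of_lt_of_le (by positivity) hlow
  have ht : 0 ≤ |t| := abs_nonneg t
  set T : ℝ := 16 * ((|t| + 3) * (|t| + 3)) * (σ * (1 / (σ - 1)) * (1 / (σ - 1))) with hT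
  have hq0 : 1 ≤ 1 / (σ - 1) := by
    rw [le_div_iff₀ hσ1]
    linarith
  have hq1 : 1 ≤ σ * (1 / (σ - 1)) * (1 / (σ - 1)) := by
    have e1 : 1 ≤ σ * (1 / (σ - 1)) := by nlinarith
    nlinarith
  have hT1 : 1 ≤ T := by
    have e1 : 1 ≤ 16 * ((|t| + 3) * (|t| + 3)) := by nlinarith
    calc (1 : ℝ) = 1 * 1 := (one_mul 1).symm
      _ ≤ T := mul_le_mul e1 hq1 zero_le_one (by positivity)
  have hb : ∀ s ∈ Metric.closedBall s₀ (1 / 2), ‖gl2_Z s‖ ≤
      Real.exp (Real.log T) * ‖gl2_Z s₀‖ := by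
    intro s hs
    rw [Real.exp_log (by linarith)]
    rw [Metric.mem_closedBall, dist_eq_norm] at hs
    have e1 : |s.re - σ| ≤ 1 / 2 := by
      have := Complex.abs_re_le_norm (s - s₀)
      rw [Complex.sub_re, hre] at this
      linarith
    have e1' := abs_le.1 e1
    have e2 : |s.im - t| ≤ 1 / 2 := by
      have := Complex.abs_im_le_norm (s - s₀)
      rw [Complex.sub_im, him] at this
      linarith
    refine (gl2_Z_bound s (by linarith [e1'.1]) (by linarith [e1'.2])).trans ?_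
    have e3 : |s.im| ≤ |t| + 1 / 2 := by
      have := abs_sub_abs_le_abs_sub s.im t
      linarith
    have e4 : 4 * (|s.im| + 3) ^ 2 ≤ 16 * ((|t| + 3) * (|t| + 3)) := by
      have e5 : |s.im| + 3 ≤ 2 * (|t| + 3) := by linarith
      have e6 : 0 ≤ |s.im| + 3 := by positivity
      nlinarith
    refine e4.trans ?_
    have e5 : 1 ≤ (σ * (1 / (σ - 1)) * (1 / (σ - 1))) * ‖gl2_Z s₀‖ := by
      have e6 : (σ * (1 / (σ - 1)) * (1 / (σ - 1))) * ((σ - 1) * ((σ - 1) / σ)) = 1 := by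
        field_simp
      exact e6.symm.le.trans (mul_le_mul_of_nonneg_left hlow (by positivity))
    calc 16 * ((|t| + 3) * (|t| + 3)) = 16 * ((|t| + 3) * (|t| + 3)) * 1 := (mul_one _).symm
      _ ≤ 16 * ((|t| + 3) * (|t| + 3)) * ((σ * (1 / (σ - 1)) * (1 / (σ - 1))) * ‖gl2_Z s₀‖) :=
          mul_le_mul_of_nonneg_left e5 (by positivity)
      _ = T * ‖gl2_Z s₀‖ := by rw [hT]; ring
  have han : AnalyticOnNhd ℂ gl2_Z (Metric.closedBall s₀ (1 / 2)) := fun z _ =>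
    gl2_Z_differentiable.analyticAt z
  have hzero : ∀ ρ, gl2_Z ρ = 0 → ρ.re < s₀.re := by
    intro ρ hρ
    by_contra hcon
    push Not at hcon
    exact riemannZeta_ne_zero_of_one_le_re (by linarith) (lab3_Z_zero ρ hρ)
  have h3 := hcore gl2_Z s₀ (Real.log T) (Real.log_nonneg hT1) han (norm_pos_iff.1 hf0) hb
    hzero S (fun ρ hρ => ⟨lab3_zeta_zero ρ (hS ρ hρ).1, (hS ρ hρ).2⟩)
  rw [lab1_Z s₀ hs1, Complex.sub_re]
  have hlogT : Real.log T = Real.log 16 + (Real.log (|t| + 3) + Real.log (|t| + 3)) +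
      (Real.log σ + Real.log (1 / (σ - 1)) + Real.log (1 / (σ - 1))) := by
    rw [hT, Real.log_mul (by positivity) (by positivity), Real.log_mul (by positivity)
      (by positivity), Real.log_mul (by positivity) (by positivity),
      Real.log_mul (by positivity) (by positivity), Real.log_mul (by positivity) (by positivity)]
  have l1 : Real.log 16 ≤ 3 := by
    have e1 : (16 : ℝ) = 2 ^ 4 := by norm_num
    rw [e1, Real.log_pow]
    have := Real.log_two_lt_d9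
    push_cast
    linarith
  have l2 : Real.log σ ≤ 1 := by
    have := Real.log_le_sub_one_of_pos hσ0
    linarith
  have l4 : 0 ≤ Real.log (|t| + 3) := Real.log_nonneg (by linarith)
  have l5 : 0 ≤ Real.log (1 / (σ - 1)) := Real.log_nonneg hq0
  have l6 : A * (Real.log T + 1) ≤ 5 * A * (Real.log (|t| + 3) +
      Real.log (1 / (σ - 1)) + 1) := by
    have : Real.log T + 1 ≤ 5 * (Real.log (|t| + 3) +
      Real.log (1 / (σ - 1)) + 1) := by
      rw [hlogT]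
      linarith
    nlinarith
  linarith

end Pool.Agent.Lib.H68T
end

-- from Lib.H68T.ZF1
section

/-!
# Chunk ZF1; part of ZF1, ZF2, ZF3: zero-free regions
(`L := log Q`; all `log N, log(|t|+3), log(1/(σ-1))` in `re_char` are `O(L)` for `N ≤ Q^2`,
`|t| ≤ 2 Q^12 + 2`, `σ = 1 + a/L`.)
-/

open Finset ArithmeticFunction

namespace Pool.Agent.Lib.H68T

/-- Bracket estimate: everything in `re_char` and `re_zeta` is `O(log Q)`. -/
theorem ZF1_bracket (a : ℝ) (ha : 0 < a) : ∃ K : ℝ, ∀ Q : ℕ, K ≤ Q →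
    1 ≤ Real.log Q ∧ 8 * a ≤ Real.log Q ∧
    (∀ N : ℕ, 1 ≤ N → N ≤ Q → ∀ t : ℝ, |t| ≤ 2 * ((Q : ℝ) ^ 12 + 1) →
      Real.log N + Real.log (|t| + 3) +
        Real.log (1 / (1 + a / Real.log Q - 1)) + 1 ≤ 17 * Real.log Q) := by
  refine ⟨Real.exp (1 + 8 * a + |Real.log a|) + 3, fun Q hQ => ?_⟩
  have h0 : 0 < Real.exp (1 + 8 * a + |Real.log a|) := Real.exp_pos _
  have hQ3 : (3 : ℝ) ≤ Q := by linarith
  have hQ0 : (0 : ℝ) < Q := by linarith
  have hL : 1 + 8 * a + |Real.log a| ≤ Real.log Q := by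
    rw [Real.le_log_iff_exp_le hQ0]; linarith
  have habs := abs_nonneg (Real.log a)
  have hL1 : 1 ≤ Real.log Q := by linarith
  have hL0 : 0 < Real.log Q := by linarith
  refine ⟨hL1, by linarith, fun N hN1 hNQ t ht => ?_⟩
  have h1 : Real.log N ≤ Real.log Q :=
    Real.log_le_log (by exact_mod_cast hN1) (by exact_mod_cast hNQ)
  have h2 : Real.log (|t| + 3) ≤ 13 * Real.log Q := by
    have e1 : |t| + 3 ≤ (Q : ℝ) ^ 13 := by
      have e2 : (1 : ℝ) ≤ (Q : ℝ) ^ 12 := one_le_pow₀ (by linarith)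
      have e3 : (Q : ℝ) ^ 13 = (Q : ℝ) ^ 12 * Q := by ring
      rw [e3]
      have e4 : (Q : ℝ) ^ 12 * 3 ≤ (Q : ℝ) ^ 12 * Q :=
        mul_le_mul_of_nonneg_left hQ3 (by positivity)
      have e5 : (5 : ℝ) ≤ (Q : ℝ) ^ 12 := by
        have : (3 : ℝ) ^ 12 ≤ (Q : ℝ) ^ 12 := pow_le_pow_left₀ (by norm_num) hQ3 12
        norm_num at this
        linarith
      linarith
    have e6 := Real.log_le_log (by positivity : 0 < |t| + 3) e1
    rw [Real.log_pow] at e6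
    push_cast at e6
    linarith
  have h3 : Real.log (1 / (1 + a / Real.log Q - 1)) ≤ 2 * Real.log Q := by
    have e1 : 1 / (1 + a / Real.log Q - 1) = Real.log Q / a := by
      rw [add_sub_cancel_left, one_div, inv_div]
    rw [e1, Real.log_div hL0.ne' ha.ne']
    have e2 : Real.log (Real.log Q) ≤ Real.log Q := by
      have := Real.log_le_sub_one_of_pos hL0
      linarith
    have e3 : -Real.log a ≤ |Real.log a| := neg_le_abs _
    linarith
  linarith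

/-- **ZF1**, complex characters. `ρ = β + iγ` a zero, suppose `β ≥ 1 - c₁/L`, `σ = 1 + a/L`.
`three_four_one` at `t = γ`, `vonMangoldt_le`, `re_char` for `ψ` with `S = {ρ}` and for
`ψ² ≠ 1` with `S = ∅`: `0 ≤ 3 L/a + C' L - 4 L/(a + c₁)`, i.e. `4/(a + c₁) ≤ 3/a + C'`, false for
`a = 1/(2C')`, `c₁ = a/8` (`3/a + C' = 3.5/a`). -/
theorem zero_free_complex : ∃ c₁ K : ℝ, 0 < c₁ ∧ ∀ Q : ℕ, K ≤ Q → ∀ (r : ℕ) [NeZero r]
    (ψ : DirichletCharacter ℂ r), r ≤ Q → ψ ^ 2 ≠ 1 → ∀ ρ : ℂ, ψ.LFunction ρ = 0 →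
    |ρ.im| ≤ (Q : ℝ) ^ 12 + 1 → ρ.re < 1 - c₁ / Real.log Q := by
  obtain ⟨Cv, hCv, hv⟩ := vonMangoldt_le
  obtain ⟨Cc, hCc, hc⟩ := re_char
  set C' : ℝ := 3 * Cv + 85 * Cc with hC'
  have hC'0 : 0 < C' := by positivity
  set a : ℝ := 1 / (2 * C') with ha
  have ha0 : 0 < a := by positivity
  have haC : a * C' = 1 / 2 := by rw [ha]; field_simp
  obtain ⟨K, hK⟩ := ZF1_bracket a ha0
  refine ⟨a / 8, K, by positivity, fun Q hQ r _ ψ hr hψ ρ hρ him => ?_⟩
  obtain ⟨hL1, hL8, hbr⟩ := hK Q hQ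
  set L : ℝ := Real.log Q with hLdef
  have hL0 : 0 < L := by linarith
  by_contra hcon
  push Not at hcon
  have hψ1 : ψ ≠ 1 := by
    rintro rfl
    exact hψ (one_pow 2)
  have hβ1 : ρ.re < 1 := by
    by_contra h
    push Not at h
    exact DirichletCharacter.LFunction_ne_zero_of_one_le_re ψ (Or.inl hψ1) h hρ
  set σ : ℝ := 1 + a / L with hσ
  have haL : 0 < a / L := by positivity
  have haL8 : a / L ≤ 1 / 8 := by
    rw [div_le_iff₀ hL0]; linarith
  have hσ1 : 1 < σ := by linarith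
  have hσ2 : σ ≤ 5 / 4 := by linarith
  have hc8 : a / 8 / L = a / L / 8 := by ring
  rw [hc8] at hcon
  have hr1 : 1 ≤ r := Nat.one_le_iff_ne_zero.mpr (NeZero.ne r)
  have e0 : (σ : ℂ) + ρ.im * Complex.I - ρ = ((σ - ρ.re : ℝ) : ℂ) := by
    apply Complex.ext <;> simp
  -- the three terms
  have T0 := hv σ hσ1 (by linarith)
  have T1 := hc r ψ hψ1 σ ρ.im hσ1 hσ2 {ρ} (by
    intro ρ' hρ'
    rw [Finset.mem_singleton] at hρ'
    subst hρ'
    refine ⟨hρ, ?_⟩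
    rw [norm_sub_rev, e0, Complex.norm_real, Real.norm_eq_abs, abs_of_pos (by linarith)]
    linarith)
  rw [Finset.sum_singleton, e0] at T1
  have e1 : (1 / ((σ - ρ.re : ℝ) : ℂ)).re = 1 / (σ - ρ.re) := by
    rw [← Complex.ofReal_one, ← Complex.ofReal_div, Complex.ofReal_re]
  rw [e1] at T1
  have T2 := hc r (ψ ^ 2) hψ σ (2 * ρ.im) hσ1 hσ2 ∅ (by simp)
  rw [Finset.sum_empty] at T2
  have T3 := three_four_one r ψ σ ρ.im hσ1
  have B1 := hbr r hr1 hr ρ.im (by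
    have := abs_nonneg ρ.im
    linarith)
  have B2 := hbr r hr1 hr (2 * ρ.im) (by
    rw [abs_mul, abs_of_pos (by norm_num : (0 : ℝ) < 2)]
    linarith)
  have B1' := mul_le_mul_of_nonneg_left B1 hCc.le
  have B2' := mul_le_mul_of_nonneg_left B2 hCc.le
  push_cast at T2
  have e2 : 1 / (σ - 1) = L / a := by
    rw [hσ, add_sub_cancel_left, one_div, inv_div]
  rw [e2] at T0
  have e3 : L / (9 * a / 8) ≤ 1 / (σ - ρ.re) := by
    rw [div_le_div_iff₀ (by positivity) (by linarith)]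
    have : L * (a / L) = a := by field_simp
    have h5 : L * (σ - ρ.re) ≤ L * (9 * (a / L) / 8) :=
      mul_le_mul_of_nonneg_left (by linarith) hL0.le
    have h6 : L * (9 * (a / L) / 8) = 9 * a / 8 := by
      rw [show L * (9 * (a / L) / 8) = 9 * (L * (a / L)) / 8 by ring, this]
    linarith
  have e4 : L / (9 * a / 8) = (8 / 9) * (L / a) := by
    field_simp
  rw [e4] at e3
  have e5 : C' * L = (L / a) / 2 := by
    have : C' = 1 / (2 * a) := by
      rw [eq_div_iff (by positivity)]; linarith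
    rw [this]; field_simp
  have hLa : 0 < L / a := by positivity
  have hCvL : Cv ≤ Cv * L := le_mul_of_one_le_right hCv.le hL1
  have : 0 ≤ 3 * (L / a) + C' * L - 4 * (8 / 9 * (L / a)) := by
    rw [hC']
    linarith
  rw [e5] at this
  linarith

end Pool.Agent.Lib.H68T
end
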