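import Mathlib
import Pool.Agent.Lib.H59M.M2.M001
import Pool.Agent.Lib.H59M.M2.M006
import Pool.Agent.Lib.H59M.M2.M007
import Pool.Agent.Lib.H59M.M2.M011
import Pool.Agent.Lib.H59M.M2.M016

/-! Merged copies (to shorten the build) of Lib.H37T.A0, Lib.H37T.A1, Lib.H44W.W1, Lib.H37T.A2, Lib.H37T.A3, Lib.H81W.S4, Lib.H59C.Defs, Lib.H59C.LSB, Lib.H9S.Defs, Lib.H9S.K1, Lib.H9S.K2, Lib.H68T.FINP. -/

-- from Lib.H37T.A0
section
/-!
H37T (MP_443e5f, candidate T): assembly of the modules A (Heath-Brown's identity in seminorm form), B (bilinear pieces), C (one smooth variable), D (near-diagonal pieces) to the inverse theorem for the von Mangoldt function.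

This file: the map P -> |TF n (P o toNat) W f g| is a seminorm which sees only the values at 1, ..., 2 n.
-/
namespace Pool.Agent.H37T
open Finset Pool.Agent.H44W

/-- The function on the integers given by a function on the natural numbers. -/
noncomputable def lft (P : ℕ → ℝ) (m : ℤ) : ℂ := ((P m.toNat : ℝ) : ℂ)

/-- TF as a linear map in the kernel. -/
noncomputable def tfL (n : ℕ) (W f g : ℤ → ℂ) : (ℕ → ℝ) →ₗ[ℝ] ℂ where
  toFun P := TF n (lft P) W f g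
  map_add' P Q := by
    unfold TF lft
    rw [← Finset.sum_add_distrib]
    refine Finset.sum_congr rfl fun x _ => ?_
    rw [← Finset.sum_add_distrib]
    refine Finset.sum_congr rfl fun y _ => ?_
    rw [Pi.add_apply]
    push_cast
    ring
  map_smul' c P := by
    unfold TF lft
    rw [RingHom.id_apply, Finset.smul_sum]
    refine Finset.sum_congr rfl fun x _ => ?_
    rw [Finset.smul_sum]
    refine Finset.sum_congr rfl fun y _ => ?_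
    rw [Pi.smul_apply, Complex.real_smul, smul_eq_mul]
    push_cast
    ring

/-- The seminorm. -/
noncomputable def tfS (n : ℕ) (W f g : ℤ → ℂ) : Seminorm ℝ (ℕ → ℝ) := (normSeminorm ℝ ℂ).comp (tfL n W f g)

theorem tfS_apply (n : ℕ) (W f g : ℤ → ℂ) (P : ℕ → ℝ) : tfS n W f g P = ‖TF n (lft P) W f g‖ := rfl

theorem TF_congr (n : ℕ) {F G : ℤ → ℂ} (W f g : ℤ → ℂ) (h : ∀ m : ℤ, 2 ≤ m → m ≤ 2 * n → F m = G m) :
    TF n F W f g = TF n G W f g := by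
  unfold TF
  refine Finset.sum_congr rfl fun x hx => Finset.sum_congr rfl fun y hy => ?_
  rw [Finset.mem_Icc] at hx hy
  rw [h (x + y) (by omega) (by omega)]

theorem tfS_loc (n : ℕ) (W f g : ℤ → ℂ) : Pool.Agent.Lib.H81A.Loc (2 * n) (tfS n W f g) := by
  intro P hP
  rw [tfS_apply, TF_congr n (G := fun _ => 0) W f g]
  · unfold TF
    simp
  · intro m h1 h2
    unfold lft
    rw [hP m.toNat (by omega) (by omega), Complex.ofReal_zero]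

end Pool.Agent.H37T
end

-- from Lib.H37T.A1
section
/-!
H37T: Dirichlet convolutions as sums over finite sets.
-/
namespace Pool.Agent.H37T
open Finset Pool.Agent.H44W

theorem conv_eq (m : ℕ) (hm : m ≠ 0) (S T : Finset ℕ) (α β : ℕ → ℝ) (hS : ∀ a, α a ≠ 0 → a ∈ S) (hT : ∀ b, β b ≠ 0 → b ∈ T) :
    ∑ x ∈ m.divisorsAntidiagonal, α x.1 * β x.2 = ∑ a ∈ S, ∑ b ∈ T, if a * b = m then α a * β b else 0 := by
  classical
  rw [← Finset.sum_product (s := S) (t := T) (f := fun x : ℕ × ℕ => if x.1 * x.2 = m then α x.1 * β x.2 else 0),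
    ← Finset.sum_filter]
  symm
  refine Finset.sum_subset_zero_on_sdiff ?_ ?_ (fun _ _ => rfl)
  · intro x hx
    rw [Finset.mem_filter] at hx
    exact Nat.mem_divisorsAntidiagonal.2 ⟨hx.2, hm⟩
  · intro x hx
    rw [Finset.mem_sdiff, Finset.mem_filter, Finset.mem_product] at hx
    by_contra h
    have h1 : α x.1 ≠ 0 := fun h0 => h (by rw [h0, zero_mul])
    have h2 : β x.2 ≠ 0 := fun h0 => h (by rw [h0, mul_zero])
    exact hx.2 ⟨⟨hS _ h1, hT _ h2⟩, (Nat.mem_divisorsAntidiagonal.1 hx.1).1⟩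

end Pool.Agent.H37T
end

-- from Lib.H44W.W1
section
/-!
H44W: Type II pieces and the interface of module B (class_two).
-/
namespace Pool.Agent.H44W
open Finset

/-- Type II piece: a in [K, 2K), b in [M, 2M), arbitrary coefficients. -/
noncomputable def tII (K M : ℕ) (al be : ℕ → ℂ) (m : ℤ) : ℂ :=
  ∑ a ∈ Ico K (2 * K), ∑ b ∈ Ico M (2 * M), if ((a * b : ℕ) : ℤ) = m then al a * be b else 0

/-- Type I sum with divisors up to A. -/
noncomputable def psi (A : ℕ) (al : ℕ → ℂ) (m : ℤ) : ℂ :=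
  ∑ a ∈ Icc 1 A, if (a:ℤ) ∣ m then al a else 0

/-- The statement of module B (helper3's form, with the divisor hypothesis). -/
def ClassTwo (C : ℕ) : Prop :=
  ∀ (n K M : ℕ) (D : ℝ), 2 ≤ D → (∀ m : ℕ, 1 ≤ m → m ≤ 2 * n → (m.divisors.card : ℝ) ≤ D) →
    D ^ C ≤ K → (K:ℝ) ^ 2 * D ^ C ≤ n →
    ∀ al be : ℕ → ℂ, (∀ a, ‖al a‖ ≤ 1) → (∀ b, ‖be b‖ ≤ 1) →
    ∀ W f g : ℤ → ℂ, (∀ x, ‖W x‖ ≤ 1) → (∀ x, ‖f x‖ ≤ 1) → (∀ x, ‖g x‖ ≤ 1) →
    (n:ℝ) ^ 2 / D ≤ ‖TF n (tII K M al be) W f g‖ →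
    ∃ th : ℝ, (n:ℝ) / D ^ C ≤ ‖∑ z ∈ Icc (1:ℤ) n, g z * ee (th * z)‖

end Pool.Agent.H44W
end

-- from Lib.H37T.A2
section
/-!
H37T: the hypothesis H2 of Heath-Brown's identity (module A) from module B (ClassTwo).
-/
namespace Pool.Agent.H37T
open Finset Pool.Agent.H44W

theorem TF_add (n : ℕ) (F G W f g : ℤ → ℂ) : TF n (fun m => F m + G m) W f g = TF n F W f g + TF n G W f g := by
  unfold TF
  rw [← Finset.sum_add_distrib]
  refine Finset.sum_congr rfl fun x _ => ?_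
  rw [← Finset.sum_add_distrib]
  refine Finset.sum_congr rfl fun y _ => ?_
  ring

/-- A convolution with supports in `[K, 4K)`, `[M, 4M)` is a sum of four pieces. -/
theorem conv_tII (m : ℤ) (hm : 1 ≤ m) (K M : ℕ) (α β : ℕ → ℝ) (hS : ∀ a, α a ≠ 0 → K ≤ a ∧ a < 4 * K)
    (hT : ∀ b, β b ≠ 0 → M ≤ b ∧ b < 4 * M) :
    lft (fun m => ∑ x ∈ m.divisorsAntidiagonal, α x.1 * β x.2) m =
      (tII K M (fun a => (α a : ℂ)) (fun b => (β b : ℂ)) m + tII K (2 * M) (fun a => (α a : ℂ)) (fun b => (β b : ℂ)) m) +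
      (tII (2 * K) M (fun a => (α a : ℂ)) (fun b => (β b : ℂ)) m + tII (2 * K) (2 * M) (fun a => (α a : ℂ)) (fun b => (β b : ℂ)) m) := by
  have h0 : ((m.toNat : ℕ) : ℤ) = m := Int.toNat_of_nonneg (by omega)
  have h1 : m.toNat ≠ 0 := by omega
  have e1 : ∀ (K M : ℕ), tII K M (fun a => (α a : ℂ)) (fun b => (β b : ℂ)) m =
      ((∑ a ∈ Ico K (2 * K), ∑ b ∈ Ico M (2 * M), if a * b = m.toNat then α a * β b else 0 : ℝ) : ℂ) := by
    intro K M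
    unfold tII
    push_cast
    refine Finset.sum_congr rfl fun a _ => Finset.sum_congr rfl fun b _ => ?_
    by_cases h : a * b = m.toNat
    · rw [if_pos h, if_pos (by omega), Complex.ofReal_mul]
    · rw [if_neg h, if_neg (by intro h2; apply h; omega), Complex.ofReal_zero]
  show ((∑ x ∈ m.toNat.divisorsAntidiagonal, α x.1 * β x.2 : ℝ) : ℂ) = _
  rw [conv_eq m.toNat h1 (Ico K (4 * K)) (Ico M (4 * M)) α β (fun a ha => Finset.mem_Ico.2 (hS a ha)) (fun b hb => Finset.mem_Ico.2 (hT b hb)),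
    e1, e1, e1, e1]
  rw [← Finset.sum_Ico_consecutive (m := K) (n := 2 * K) (k := 4 * K) _ (by omega) (by omega)]
  have e2 : ∀ (a : ℕ), ∑ b ∈ Ico M (4 * M), (if a * b = m.toNat then α a * β b else 0) =
      ∑ b ∈ Ico M (2 * M), (if a * b = m.toNat then α a * β b else 0) + ∑ b ∈ Ico (2 * M) (2 * (2 * M)), (if a * b = m.toNat then α a * β b else 0) := by
    intro a
    rw [show 2 * (2 * M) = 4 * M by ring]
    exact (Finset.sum_Ico_consecutive _ (by omega) (by omega)).symm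
  rw [Finset.sum_congr rfl fun a _ => e2 a, Finset.sum_congr (rfl : Ico (2 * K) (4 * K) = _) fun a _ => e2 a, Finset.sum_add_distrib, Finset.sum_add_distrib,
    show 4 * K = 2 * (2 * K) by ring]
  push_cast
  ring

/-- **H2** from module B. -/
theorem h2_of (η : ℝ) (hη : 0 < η) (C : ℕ) (h : ClassTwo C) : ∃ n0 : ℕ, ∀ n : ℕ, n0 ≤ n → ∀ c D : ℝ,
    2 ≤ D → (∀ m : ℕ, 1 ≤ m → m ≤ 2 * n → (m.divisors.card : ℝ) ≤ D) → D ^ C ≤ ((2 * n : ℕ) : ℝ) ^ c → D ^ C ≤ (n:ℝ) ^ η →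
    ∀ W f g : ℤ → ℂ, (∀ x, ‖W x‖ ≤ 1) → (∀ x, ‖f x‖ ≤ 1) → (∀ x, ‖g x‖ ≤ 1) →
    (∀ th : ℝ, ‖∑ z ∈ Icc (1:ℤ) n, g z * ee (th * z)‖ < (n:ℝ) / D ^ C) →
      Pool.Agent.Lib.H81A.H2 c η (2 * n) (tfS n W f g) (4 * ((n:ℝ) ^ 2 / D)) := by
  have hlim : ∀ᶠ n : ℕ in Filter.atTop, (32 : ℝ) ≤ (n : ℝ) ^ η :=
    ((tendsto_rpow_atTop hη).comp tendsto_natCast_atTop_atTop).eventually_ge_atTop 32
  obtain ⟨n1, hn1⟩ := Filter.eventually_atTop.1 hlim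
  refine ⟨max n1 1, fun n hn c D hD hdiv hDK hDη W f g hW hf hg hth => ?_⟩
  have hn2 : (32 : ℝ) ≤ (n : ℝ) ^ η := hn1 n (le_trans (le_max_left _ _) hn)
  have hn3 : (1 : ℝ) ≤ n := by exact_mod_cast le_trans (le_max_right n1 1) hn
  have hn0 : (0 : ℝ) < n := by linarith
  intro K M hK1 hK2 hM1 α β hα hβ hαs hβs
  set K' : ℕ := ⌈K⌉₊ with hK'
  set M' : ℕ := ⌈M⌉₊ with hM'
  have hDC : (1 : ℝ) ≤ D ^ C := one_le_pow₀ (by linarith)
  have hK0 : (1 : ℝ) ≤ K := le_trans hDC (le_trans hDK hK1)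
  have hK'1 : 1 ≤ K' := Nat.one_le_ceil_iff.2 (by linarith)
  have hM'1 : 1 ≤ M' := Nat.one_le_ceil_iff.2 (by linarith)
  have hKc : K ≤ K' := Nat.le_ceil K
  have hMc : M ≤ M' := Nat.le_ceil M
  have hS : ∀ a, α a ≠ 0 → K' ≤ a ∧ a < 4 * K' := by
    intro a ha
    obtain ⟨h1, h2⟩ := hαs a ha
    refine ⟨Nat.ceil_le.2 h1, ?_⟩
    have : (a : ℝ) ≤ 2 * K' := le_trans h2 (by linarith)
    have h3 : a ≤ 2 * K' := by exact_mod_cast this
    omega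
  have hT : ∀ b, β b ≠ 0 → M' ≤ b ∧ b < 4 * M' := by
    intro b hb
    obtain ⟨h1, h2⟩ := hβs b hb
    refine ⟨Nat.ceil_le.2 h1, ?_⟩
    have : (b : ℝ) ≤ 2 * M' := le_trans h2 (by linarith)
    have h3 : b ≤ 2 * M' := by exact_mod_cast this
    omega
  have hup : (2 * (K' : ℝ)) ^ 2 * D ^ C ≤ n := by
    have h1 : (K' : ℝ) ≤ 2 * K := by
      have := Nat.ceil_lt_add_one (by linarith : (0:ℝ) ≤ K)
      linarith
    have h2n : (0:ℝ) < ((2 * n : ℕ) : ℝ) := by push_cast; linarith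
    have h2 : K ^ 2 ≤ ((2 * n : ℕ) : ℝ) ^ (1 - 2 * η) := by
      have h3 : ((2 * n : ℕ) : ℝ) ^ (1 - 2 * η) = (((2 * n : ℕ) : ℝ) ^ (1 / 2 - η)) ^ 2 := by
        rw [← Real.rpow_natCast, ← Real.rpow_mul h2n.le]
        congr 1
        push_cast
        ring
      rw [h3]
      exact pow_le_pow_left₀ (by linarith) hK2 2
    have h3 : ((2 * n : ℕ) : ℝ) ^ (1 - 2 * η) ≤ 2 * (n : ℝ) ^ (1 - 2 * η) := by
      push_cast
      rw [Real.mul_rpow (by norm_num) (by linarith)]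
      refine mul_le_mul_of_nonneg_right ?_ (Real.rpow_nonneg (by linarith) _)
      calc (2:ℝ) ^ (1 - 2 * η) ≤ 2 ^ (1 : ℝ) := Real.rpow_le_rpow_of_exponent_le (by norm_num) (by linarith)
        _ = 2 := Real.rpow_one 2
    have h4 : (2 * (K' : ℝ)) ^ 2 ≤ 32 * (n : ℝ) ^ (1 - 2 * η) := by
      have h5 : (2 * (K' : ℝ)) ^ 2 ≤ (4 * K) ^ 2 := pow_le_pow_left₀ (by positivity) (by linarith) 2
      have h6 : (4 * K) ^ 2 = 16 * K ^ 2 := by ring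
      linarith
    have h7 : (0:ℝ) ≤ (n : ℝ) ^ (1 - 2 * η) := Real.rpow_nonneg hn0.le _
    calc (2 * (K' : ℝ)) ^ 2 * D ^ C ≤ (32 * (n : ℝ) ^ (1 - 2 * η)) * (n:ℝ) ^ η := by
          refine mul_le_mul h4 hDη (by positivity) (by positivity)
      _ ≤ ((n:ℝ) ^ η * (n : ℝ) ^ (1 - 2 * η)) * (n:ℝ) ^ η := by gcongr
      _ = (n:ℝ) ^ (1:ℝ) := by
          rw [← Real.rpow_add hn0, ← Real.rpow_add hn0]
          congr 1
          ring
      _ = n := Real.rpow_one _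
  have hlow : D ^ C ≤ (K' : ℝ) := le_trans hDK (le_trans hK1 hKc)
  have hpc : ∀ K1 M1 : ℕ, D ^ C ≤ (K1 : ℝ) → (K1 : ℝ) ≤ 2 * K' →
      ‖TF n (tII K1 M1 (fun a => (α a : ℂ)) (fun b => (β b : ℂ))) W f g‖ ≤ (n:ℝ) ^ 2 / D := by
    intro K1 M1 h1 h2
    by_contra hcon
    obtain ⟨th, hth'⟩ := h n K1 M1 D hD hdiv h1 (by
        refine le_trans ?_ hup
        gcongr) (fun a => (α a : ℂ)) (fun b => (β b : ℂ))
      (fun a => by rw [Complex.norm_real]; exact hα a) (fun b => by rw [Complex.norm_real]; exact hβ b) W f g hW hf hg (le_of_lt (not_le.1 hcon))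
    exact absurd (hth th) (not_lt.2 hth')
  rw [tfS_apply, TF_congr n W f g (fun m hm1 hm2 => conv_tII m (by omega) K' M' α β hS hT), TF_add, TF_add, TF_add]
  have c1 := hpc K' M' hlow (by linarith [Nat.cast_nonneg (α := ℝ) K'])
  have c2 := hpc K' (2 * M') hlow (by linarith [Nat.cast_nonneg (α := ℝ) K'])
  have c3 := hpc (2 * K') M' (by push_cast; linarith [Nat.cast_nonneg (α := ℝ) K']) (by push_cast; exact le_refl _)
  have c4 := hpc (2 * K') (2 * M') (by push_cast; linarith [Nat.cast_nonneg (α := ℝ) K']) (by push_cast; exact le_refl _)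
  refine (norm_add_le _ _).trans ?_
  have d1 := norm_add_le (TF n (tII K' M' (fun a => (α a : ℂ)) (fun b => (β b : ℂ))) W f g) (TF n (tII K' (2 * M') (fun a => (α a : ℂ)) (fun b => (β b : ℂ))) W f g)
  have d2 := norm_add_le (TF n (tII (2 * K') M' (fun a => (α a : ℂ)) (fun b => (β b : ℂ))) W f g) (TF n (tII (2 * K') (2 * M') (fun a => (α a : ℂ)) (fun b => (β b : ℂ))) W f g)
  linarith

end Pool.Agent.H37T
end

-- from Lib.H37T.A3
section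
/-!
H37T: the hypothesis H1 of Heath-Brown's identity from module C (H81E.type_one_real), and H3 from module D (DOut).
-/
namespace Pool.Agent.H37T
open Finset Pool.Agent.H44W

/-- The statement of module D. -/
def DOut (et0 : ℝ) (C n0 : ℕ) : Prop :=
  ∀ n : ℕ, n0 ≤ n → ∀ D : ℝ, (1 + Real.log n) ^ 10 ≤ D → (∀ m : ℕ, 1 ≤ m → m ≤ 2 * n → (m.divisors.card : ℝ) ≤ D) → D ^ C ≤ n → ∀ R : ℕ, (R : ℝ) ≤ D → ∀ A1 A2 B1 B2 : ℕ,
    ((2 * n : ℕ) : ℝ) ^ (1 / 2 - 2 * et0) ≤ A1 → ((2 * n : ℕ) : ℝ) ^ (1 / 2 - 2 * et0) ≤ B1 → A2 ≤ 2 * A1 → B2 ≤ 2 * B1 →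
    ∀ ga : ℕ → ℂ, (∀ q, ‖ga q‖ ≤ 1) → ∀ W f g : ℤ → ℂ, (∀ x, ‖W x‖ ≤ 1) → (∀ x, ‖f x‖ ≤ 1) → (∀ x, ‖g x‖ ≤ 1) →
    (n:ℝ) ^ 2 / D ≤ ‖TF n (fun m => ∑ q ∈ Icc 1 R, ga q * pd q (Ico (A1:ℤ) A2) (Ico (B1:ℤ) B2) m) W f g‖ →
    ∃ th : ℝ, (n:ℝ) / D ^ C ≤ ‖∑ z ∈ Icc (1:ℤ) n, g z * ee (th * z)‖

/-- **H1** from module C. -/
theorem h1_of (n : ℕ) (hn : 1 ≤ n) (c : ℝ) (W f g : ℤ → ℂ) (hW : ∀ x, ‖W x‖ ≤ 1) (hf : ∀ x, ‖f x‖ ≤ 1)
    (s : ℝ) (hth : ∀ th : ℝ, ‖∑ z ∈ Icc (1:ℤ) n, g z * ee (th * z)‖ ≤ s) :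
      Pool.Agent.Lib.H81A.H1 c (2 * n) (tfS n W f g) (20 * ((2 * n : ℕ) : ℝ) ^ (2 * c) * (1 + Real.log n) * n * s) := by
  intro B1 B2 hB1 hB2 γ hγ hγs
  set R : ℕ := ⌊((2 * n : ℕ) : ℝ) ^ (2 * c)⌋₊ with hR
  have hR1 : (R : ℝ) ≤ ((2 * n : ℕ) : ℝ) ^ (2 * c) := Nat.floor_le (Real.rpow_nonneg (Nat.cast_nonneg _) _)
  obtain ⟨th, h1⟩ := Pool.Agent.H81E.type_one_real n hn R γ hγ (fun q hq => Nat.le_floor (hγs q hq).2) B1 B2 W f g hW hf
  have hlog : 0 ≤ Real.log n := Real.log_natCast_nonneg n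
  have e : tfS n W f g (fun m => ∑ x ∈ m.divisorsAntidiagonal, γ x.1 * (if B1 ≤ x.2 ∧ x.2 < B2 then 1 else 0)) =
      ‖TF n (fun m => ((∑ x ∈ m.toNat.divisorsAntidiagonal, γ x.1 * (if B1 ≤ x.2 ∧ x.2 < B2 then 1 else 0) : ℝ) : ℂ)) W f g‖ := rfl
  rw [e]
  refine h1.trans ?_
  have h2 : 0 ≤ ‖∑ z ∈ Icc (1:ℤ) n, g z * ee (th * z)‖ := norm_nonneg _
  have h3 : (0:ℝ) ≤ n := Nat.cast_nonneg n
  gcongr
  · norm_num
  · exact hth th

/-- The count of the near-diagonal piece over the natural numbers. -/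
theorem pd_nat (m q A1 A2 B1 B2 : ℕ) :
    pd q (Ico (A1:ℤ) A2) (Ico (B1:ℤ) B2) (m:ℤ) =
      ((∑ a ∈ Ico A1 A2, ∑ b ∈ Ico B1 B2, if q * (a * b) = m then (1:ℝ) else 0 : ℝ) : ℂ) := by
  unfold pd
  rw [Finset.card_filter, Finset.sum_product]
  push_cast
  have h1 : ∀ (u v : ℕ) (F : ℤ → ℂ), ∑ a ∈ Ico (u:ℤ) v, F a = ∑ a ∈ Ico u v, F (a : ℤ) := by
    intro u v F
    refine (Finset.sum_bij (fun (a : ℕ) _ => (a : ℤ)) ?_ ?_ ?_ ?_).symm
    · intro a ha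
      rw [Finset.mem_Ico] at ha ⊢
      omega
    · intro a _ b _ hab
      exact_mod_cast hab
    · intro b hb
      rw [Finset.mem_Ico] at hb
      exact ⟨b.toNat, by rw [Finset.mem_Ico]; omega, by omega⟩
    · intro a _
      rfl
  rw [h1]
  refine Finset.sum_congr rfl fun a _ => ?_
  rw [h1]
  refine Finset.sum_congr rfl fun b _ => ?_
  by_cases h : q * (a * b) = m
  · rw [if_pos h, if_pos (by rw [← h]; push_cast; ring), Complex.ofReal_one]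
  · rw [if_neg h, if_neg, Complex.ofReal_zero]
    intro h2
    apply h
    have h3 : ((q * (a * b) : ℕ) : ℤ) = (m : ℤ) := by
      rw [← h2]
      push_cast
      ring
    exact_mod_cast h3

theorem box_eq (k A1 A2 B1 B2 : ℕ) (hk : k ≠ 0) :
    (∑ y ∈ k.divisorsAntidiagonal, (if A1 ≤ y.1 ∧ y.1 < A2 then (1:ℝ) else 0) * (if B1 ≤ y.2 ∧ y.2 < B2 then (1:ℝ) else 0)) =
      ∑ a ∈ Ico A1 A2, ∑ b ∈ Ico B1 B2, if a * b = k then (1:ℝ) else 0 := by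
  rw [conv_eq k hk (Ico A1 A2) (Ico B1 B2) (fun a => if A1 ≤ a ∧ a < A2 then (1:ℝ) else 0) (fun b => if B1 ≤ b ∧ b < B2 then (1:ℝ) else 0)]
  · refine Finset.sum_congr rfl fun a ha => Finset.sum_congr rfl fun b hb => ?_
    rw [Finset.mem_Ico] at ha hb
    rw [if_pos ha, if_pos hb, mul_one]
  · intro a ha
    rw [Finset.mem_Ico]
    by_contra h
    exact ha (if_neg h)
  · intro b hb
    rw [Finset.mem_Ico]
    by_contra h
    exact hb (if_neg h)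

/-- The pieces of H3 in terms of `pd`. -/
theorem conv_pd (m : ℕ) (hm : 1 ≤ m) (R A1 A2 B1 B2 : ℕ) (γ : ℕ → ℝ) (hγ : ∀ q, γ q ≠ 0 → 1 ≤ q ∧ q ≤ R) :
    ((∑ x ∈ m.divisorsAntidiagonal, γ x.1 * ∑ y ∈ x.2.divisorsAntidiagonal,
        (if A1 ≤ y.1 ∧ y.1 < A2 then (1:ℝ) else 0) * (if B1 ≤ y.2 ∧ y.2 < B2 then (1:ℝ) else 0) : ℝ) : ℂ) =
      ∑ q ∈ Icc 1 R, (γ q : ℂ) * pd q (Ico (A1:ℤ) A2) (Ico (B1:ℤ) B2) (m:ℤ) := by
  have e1 : ∀ q ∈ Icc 1 R, (γ q : ℂ) * pd q (Ico (A1:ℤ) A2) (Ico (B1:ℤ) B2) (m:ℤ) =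
      ((γ q * ∑ a ∈ Ico A1 A2, ∑ b ∈ Ico B1 B2, (if q * (a * b) = m then (1:ℝ) else 0) : ℝ) : ℂ) := by
    intro q _
    rw [pd_nat m q A1 A2 B1 B2, Complex.ofReal_mul]
  rw [Finset.sum_congr rfl e1, ← Complex.ofReal_sum]
  congr 1
  rw [Nat.sum_divisorsAntidiagonal (fun q k => γ q * ∑ y ∈ k.divisorsAntidiagonal,
        (if A1 ≤ y.1 ∧ y.1 < A2 then (1:ℝ) else 0) * (if B1 ≤ y.2 ∧ y.2 < B2 then (1:ℝ) else 0))]
  have e2 : ∀ q ∈ m.divisors, γ q * ∑ y ∈ (m / q).divisorsAntidiagonal,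
        (if A1 ≤ y.1 ∧ y.1 < A2 then (1:ℝ) else 0) * (if B1 ≤ y.2 ∧ y.2 < B2 then (1:ℝ) else 0) =
      γ q * ∑ a ∈ Ico A1 A2, ∑ b ∈ Ico B1 B2, (if q * (a * b) = m then (1:ℝ) else 0) := by
    intro q hq
    obtain ⟨⟨k, hk⟩, hm0⟩ := Nat.mem_divisors.1 hq
    have hq0 : 0 < q := Nat.pos_of_mem_divisors hq
    have hk0 : k ≠ 0 := by
      rintro rfl
      exact hm0 (by rw [hk, mul_zero])
    rw [hk, Nat.mul_div_cancel_left k hq0, box_eq k A1 A2 B1 B2 hk0]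
    congr 1
    refine Finset.sum_congr rfl fun a _ => Finset.sum_congr rfl fun b _ => ?_
    by_cases h : a * b = k
    · rw [if_pos h, if_pos (by rw [h])]
    · rw [if_neg h, if_neg (fun h2 => h (Nat.eq_of_mul_eq_mul_left hq0 h2))]
  rw [Finset.sum_congr rfl e2]
  classical
  have e3 : ∀ q, q ∉ m.divisors ∩ Icc 1 R → γ q * ∑ a ∈ Ico A1 A2, ∑ b ∈ Ico B1 B2, (if q * (a * b) = m then (1:ℝ) else 0) = 0 := by
    intro q hq
    by_cases h : γ q = 0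
    · rw [h, zero_mul]
    · have h1 : q ∈ Icc 1 R := Finset.mem_Icc.2 (hγ q h)
      have h2 : q ∉ m.divisors := fun h3 => hq (Finset.mem_inter.2 ⟨h3, h1⟩)
      have h3 : ¬ q ∣ m := fun h4 => h2 (Nat.mem_divisors.2 ⟨h4, by omega⟩)
      have h4 : ∑ a ∈ Ico A1 A2, ∑ b ∈ Ico B1 B2, (if q * (a * b) = m then (1:ℝ) else 0) = 0 := by
        refine Finset.sum_eq_zero fun a _ => Finset.sum_eq_zero fun b _ => if_neg ?_
        intro h5
        exact h3 ⟨a * b, h5.symm⟩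
      rw [h4, mul_zero]
  rw [← Finset.sum_subset (Finset.inter_subset_left : m.divisors ∩ Icc 1 R ⊆ m.divisors) (fun q _ hq => e3 q hq),
    ← Finset.sum_subset (Finset.inter_subset_right : m.divisors ∩ Icc 1 R ⊆ Icc 1 R) (fun q _ hq => e3 q hq)]

/-- **H3** from module D. -/
theorem h3_of (et0 : ℝ) (C n0 : ℕ) (h : DOut et0 C n0) (η : ℝ) (hη : η ≤ et0) (n : ℕ) (hn : n0 ≤ n) (hn1 : 1 ≤ n) (c D : ℝ)
    (hD : (1 + Real.log n) ^ 10 ≤ D) (hdiv : ∀ m : ℕ, 1 ≤ m → m ≤ 2 * n → (m.divisors.card : ℝ) ≤ D) (hDC : D ^ C ≤ n) (hcD : ((2 * n : ℕ) : ℝ) ^ (2 * c) ≤ D)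
    (W f g : ℤ → ℂ) (hW : ∀ x, ‖W x‖ ≤ 1) (hf : ∀ x, ‖f x‖ ≤ 1) (hg : ∀ x, ‖g x‖ ≤ 1)
    (hth : ∀ th : ℝ, ‖∑ z ∈ Icc (1:ℤ) n, g z * ee (th * z)‖ < (n:ℝ) / D ^ C) :
      Pool.Agent.Lib.H81A.H3 c η (2 * n) (tfS n W f g) ((n:ℝ) ^ 2 / D) := by
  intro A1 A2 B1 B2 hA1 hA2 hB1 hB2 hA hB γ hγ hγs
  set R : ℕ := ⌊((2 * n : ℕ) : ℝ) ^ (2 * c)⌋₊ with hR
  have hR1 : (R : ℝ) ≤ ((2 * n : ℕ) : ℝ) ^ (2 * c) := Nat.floor_le (Real.rpow_nonneg (Nat.cast_nonneg _) _)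
  have hmono : ((2 * n : ℕ) : ℝ) ^ (1 / 2 - 2 * et0) ≤ ((2 * n : ℕ) : ℝ) ^ (1 / 2 - 2 * η) := by
    refine Real.rpow_le_rpow_of_exponent_le ?_ (by linarith)
    have : 1 ≤ 2 * n := by omega
    exact_mod_cast this
  have e : tfS n W f g (fun m => ∑ x ∈ m.divisorsAntidiagonal, γ x.1 *
        ∑ y ∈ x.2.divisorsAntidiagonal, (if A1 ≤ y.1 ∧ y.1 < A2 then 1 else 0) * (if B1 ≤ y.2 ∧ y.2 < B2 then 1 else 0)) =
      ‖TF n (fun m => ∑ q ∈ Icc 1 R, (γ q : ℂ) * pd q (Ico (A1:ℤ) A2) (Ico (B1:ℤ) B2) m) W f g‖ := by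
    rw [tfS_apply]
    congr 1
    refine TF_congr n W f g fun m hm1 hm2 => ?_
    have h0 : ((m.toNat : ℕ) : ℤ) = m := Int.toNat_of_nonneg (by omega)
    have h1 := conv_pd m.toNat (by omega) R A1 A2 B1 B2 γ (fun q hq => ⟨(hγs q hq).1, Nat.le_floor (hγs q hq).2⟩)
    rw [h0] at h1
    exact h1
  rw [e]
  by_contra hcon
  obtain ⟨th, hth'⟩ := h n hn D hD hdiv hDC R (hR1.trans hcD) A1 A2 B1 B2 (hmono.trans hA1) (hmono.trans hB1) hA hB (fun q => (γ q : ℂ))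
    (fun q => by rw [Complex.norm_real]; exact hγ q) W f g hW hf hg (le_of_lt (not_le.1 hcon))
  exact absurd (hth th) (not_lt.2 hth')

end Pool.Agent.H37T
end

-- from Lib.H81W.S4
section

/-!
# H81W, step 4: the sum of the energies over all differences, Parseval
-/

open Finset

namespace Pool.Agent.Lib.H81W

open Pool.Agent.H44W (ee TF cut)
open Pool.Agent.H81E (norm_ee ee_add ee_neg parseval)

/-- The autocorrelation. -/
noncomputable def Au (n : ℕ) (g : ℤ → ℂ) (d : ℤ) : ℂ := ∑ y ∈ Icc (1 : ℤ) n, g y * (starRingEnd ℂ) (g (y + d))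

/-- Energy as a sum over pairs. -/
theorem En_eq (n m : ℕ) (hm : 0 < m) (u : ℤ → ℂ) :
    ((En n m u : ℝ) : ℂ) = ∑ y ∈ Icc (1 : ℤ) n, ∑ z ∈ Icc (1 : ℤ) n, if (m : ℤ) ∣ z - y then u y * (starRingEnd ℂ) (u z) else 0 := by
  have hm0 : (0 : ℤ) < m := by exact_mod_cast hm
  unfold En
  rw [Complex.ofReal_sum]
  have h1 : ∀ r : ℤ, ((‖Sr n m u r‖ ^ 2 : ℝ) : ℂ) = ∑ y ∈ Icc (1 : ℤ) n, ∑ z ∈ Icc (1 : ℤ) n, if y % m = r then (if z % m = r then u y * (starRingEnd ℂ) (u z) else 0) else 0 := by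
    intro r
    rw [Complex.ofReal_pow, ← Complex.mul_conj']
    unfold Sr
    rw [map_sum, sum_mul_sum, sum_filter]
    refine sum_congr rfl fun y _ => ?_
    split_ifs with h
    · rw [sum_filter]
    · rw [sum_const_zero]
  simp_rw [h1]
  rw [sum_comm]
  refine sum_congr rfl fun y _ => ?_
  rw [sum_comm]
  refine sum_congr rfl fun z _ => ?_
  rw [Finset.sum_ite_eq]
  rw [if_pos (mem_Ico.2 ⟨Int.emod_nonneg _ hm0.ne', Int.emod_lt_of_pos _ hm0⟩)]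
  by_cases h : (m : ℤ) ∣ z - y
  · rw [if_pos h, if_pos (Int.emod_eq_emod_iff_emod_sub_eq_zero.2 (Int.emod_eq_zero_of_dvd h))]
  · rw [if_neg h, if_neg]
    intro h2
    exact h (Int.dvd_of_emod_eq_zero (Int.emod_eq_emod_iff_emod_sub_eq_zero.1 h2))

/-- Change of variable in a sum over `Icc 1 n`. -/
theorem shiftsum (n : ℕ) (y : ℤ) (hy : y ∈ Icc (1 : ℤ) n) (F : ℤ → ℂ) (hF : ∀ z, z ∉ Icc (1 : ℤ) n → F z = 0) :
    ∑ z ∈ Icc (1 : ℤ) n, F z = ∑ d ∈ Ioo (-(n : ℤ)) n, F (y + d) := by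
  rw [mem_Icc] at hy
  have h1 : ∑ d ∈ Ioo (-(n : ℤ)) n, F (y + d) = ∑ z ∈ Ioo (y - n) (y + n), F z := by
    refine sum_bij' (fun d _ => y + d) (fun z _ => z - y) ?_ ?_ ?_ ?_ ?_
    · intro d hd
      rw [mem_Ioo] at hd ⊢
      omega
    · intro d hd
      rw [mem_Ioo] at hd ⊢
      omega
    · intro d _
      ring
    · intro d _
      ring
    · intro d _
      rfl
  rw [h1]
  refine sum_subset ?_ fun z _ hz => hF z hz
  intro z hz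
  rw [mem_Icc] at hz
  rw [mem_Ioo]
  omega

/-- The sum of all energies. -/
theorem sum_En (n m : ℕ) (hm : 0 < m) (g : ℤ → ℂ) (hs : ∀ y, y ∉ Icc (1 : ℤ) n → g y = 0) :
    ∑ e ∈ Ioo (-(n : ℤ)) n, En n m (Gd g e) = ∑ d ∈ (Ioo (-(n : ℤ)) n).filter (fun d => (m : ℤ) ∣ d), ‖Au n g d‖ ^ 2 := by
  have key : ((∑ e ∈ Ioo (-(n : ℤ)) n, En n m (Gd g e) : ℝ) : ℂ) = ((∑ d ∈ (Ioo (-(n : ℤ)) n).filter (fun d => (m : ℤ) ∣ d), ‖Au n g d‖ ^ 2 : ℝ) : ℂ) := by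
    rw [Complex.ofReal_sum]
    simp_rw [En_eq n m hm]
    rw [sum_comm]
    have h1 : ∀ y ∈ Icc (1 : ℤ) n, ∑ e ∈ Ioo (-(n : ℤ)) n, ∑ z ∈ Icc (1 : ℤ) n, (if (m : ℤ) ∣ z - y then Gd g e y * (starRingEnd ℂ) (Gd g e z) else 0) =
        ∑ d ∈ Ioo (-(n : ℤ)) n, (if (m : ℤ) ∣ d then g y * (starRingEnd ℂ) (g (y + d)) * (starRingEnd ℂ) (Au n g d) else 0) := by
      intro y hy
      rw [sum_comm]
      have h2 : ∀ z ∈ Icc (1 : ℤ) n, ∑ e ∈ Ioo (-(n : ℤ)) n, (if (m : ℤ) ∣ z - y then Gd g e y * (starRingEnd ℂ) (Gd g e z) else 0) =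
          if (m : ℤ) ∣ z - y then g y * (starRingEnd ℂ) (g z) * (starRingEnd ℂ) (Au n g (z - y)) else 0 := by
        intro z _
        split_ifs with h
        · have h3 : (starRingEnd ℂ) (Au n g (z - y)) = ∑ e ∈ Ioo (-(n : ℤ)) n, (starRingEnd ℂ) (g (y + e)) * g (z + e) := by
            unfold Au
            rw [map_sum, shiftsum n y hy (fun w => (starRingEnd ℂ) (g w * (starRingEnd ℂ) (g (w + (z - y)))))]
            · refine sum_congr rfl fun e _ => ?_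
              rw [map_mul, Complex.conj_conj, show y + e + (z - y) = z + e by ring]
            · intro w hw
              rw [hs w hw, zero_mul, map_zero]
          rw [h3, mul_sum]
          refine sum_congr rfl fun e _ => ?_
          unfold Gd
          rw [map_mul, Complex.conj_conj]
          ring
        · rw [sum_const_zero]
      rw [sum_congr rfl h2, shiftsum n y hy]
      · refine sum_congr rfl fun d _ => ?_
        rw [add_sub_cancel_left]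
      · intro z hz
        split_ifs
        · rw [hs z hz, map_zero, mul_zero, zero_mul]
        · rfl
    rw [sum_congr rfl h1, sum_comm, Complex.ofReal_sum, sum_filter]
    refine sum_congr rfl fun d _ => ?_
    split_ifs
    · rw [← sum_mul, Complex.ofReal_pow, ← Complex.mul_conj']
      rfl
    · rw [sum_const_zero]
  exact_mod_cast key

/-- The fourth moment of the exponential sum. -/
theorem sum_Au (n : ℕ) (hn : 1 ≤ n) (g : ℤ → ℂ) (hg : ∀ x, ‖g x‖ ≤ 1) (hs : ∀ y, y ∉ Icc (1 : ℤ) n → g y = 0) :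
    ∃ th : ℝ, ∑ d ∈ Ioo (-(n : ℤ)) n, ‖Au n g d‖ ^ 2 ≤ n * ‖∑ y ∈ Icc (1 : ℤ) n, g y * ee (th * y)‖ ^ 2 := by
  set M : ℕ := 2 * n with hM
  have hM0 : 0 < M := by omega
  have hMr : (0 : ℝ) < M := by exact_mod_cast hM0
  have h1 := parseval M hM0 (Ioo (-(n : ℤ)) n) (by
    intro s hs' t ht h
    rw [mem_Ioo] at hs' ht
    have h4 : s - t = 0 := Int.eq_zero_of_abs_lt_dvd h (by rw [abs_lt]; constructor <;> omega)
    omega) (Au n g)
  have h2 := parseval M hM0 (Icc (1 : ℤ) n) (by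
    intro s hs' t ht h
    rw [mem_Icc] at hs' ht
    have h4 : s - t = 0 := Int.eq_zero_of_abs_lt_dvd h (by rw [abs_lt]; constructor <;> omega)
    omega) (fun y => (starRingEnd ℂ) (g y))
  set G : ℕ → ℂ := fun k => ∑ z ∈ Icc (1 : ℤ) n, (starRingEnd ℂ) (g z) * ee ((k : ℝ) * z / M) with hG
  have h3 : ∀ k : ℕ, ∑ d ∈ Ioo (-(n : ℤ)) n, Au n g d * ee ((k : ℝ) * d / M) = (starRingEnd ℂ) (G k) * G k := by
    intro k
    rw [hG]
    dsimp only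
    rw [map_sum, sum_mul]
    have h4 : ∀ d ∈ Ioo (-(n : ℤ)) n, Au n g d * ee ((k : ℝ) * d / M) = ∑ y ∈ Icc (1 : ℤ) n, g y * (starRingEnd ℂ) (g (y + d)) * ee ((k : ℝ) * d / M) := by
      intro d _
      unfold Au
      rw [sum_mul]
    rw [sum_congr rfl h4, sum_comm]
    refine sum_congr rfl fun y hy => ?_
    rw [shiftsum n y hy (fun z => (starRingEnd ℂ) (g z) * ee ((k : ℝ) * z / M))]
    · rw [mul_sum]
      refine sum_congr rfl fun d _ => ?_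
      rw [map_mul, Complex.conj_conj, ← ee_neg, show (k : ℝ) * ((y + d : ℤ) : ℝ) / M = (k : ℝ) * y / M + (k : ℝ) * d / M by push_cast; ring, ee_add]
      have h5 : ee (-((k : ℝ) * y / M)) * ee ((k : ℝ) * y / M) = 1 := by
        rw [← ee_add, neg_add_cancel, Pool.Agent.H81E.ee_zero]
      calc g y * (starRingEnd ℂ) (g (y + d)) * ee ((k : ℝ) * d / M) = g y * (starRingEnd ℂ) (g (y + d)) * ee ((k : ℝ) * d / M) * 1 := by rw [mul_one]
        _ = g y * (starRingEnd ℂ) (g (y + d)) * ee ((k : ℝ) * d / M) * (ee (-((k : ℝ) * y / M)) * ee ((k : ℝ) * y / M)) := by rw [h5]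
        _ = _ := by ring
    · intro z hz
      rw [hs z hz, map_zero, zero_mul]
  obtain ⟨k0, _, hk0⟩ := exists_max_image (range M) (fun k => ‖G k‖) ⟨0, mem_range.2 hM0⟩
  refine ⟨-((k0 : ℝ) / M), ?_⟩
  have h4 : ∑ y ∈ Icc (1 : ℤ) n, g y * ee (-((k0 : ℝ) / M) * y) = (starRingEnd ℂ) (G k0) := by
    rw [hG]
    dsimp only
    rw [map_sum]
    refine sum_congr rfl fun y _ => ?_
    rw [map_mul, Complex.conj_conj, ← ee_neg]
    congr 2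
    ring
  rw [h4, RCLike.norm_conj]
  have h5 : ∑ k ∈ range M, ‖∑ d ∈ Ioo (-(n : ℤ)) n, Au n g d * ee ((k : ℝ) * d / M)‖ ^ 2 ≤ ‖G k0‖ ^ 2 * ∑ k ∈ range M, ‖G k‖ ^ 2 := by
    rw [mul_sum]
    refine sum_le_sum fun k hk => ?_
    rw [h3, norm_mul, RCLike.norm_conj, mul_pow]
    exact mul_le_mul_of_nonneg_right (pow_le_pow_left₀ (norm_nonneg _) (hk0 k hk) 2) (by positivity)
  rw [h1, h2] at h5
  have h6 : ∑ s ∈ Icc (1 : ℤ) n, ‖(starRingEnd ℂ) (g s)‖ ^ 2 ≤ n := by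
    refine (sum_le_card_nsmul _ _ 1 fun y _ => ?_).trans ?_
    · rw [RCLike.norm_conj]
      exact pow_le_one₀ (norm_nonneg _) (hg y)
    · simp
  have h7 : (M : ℝ) * ∑ d ∈ Ioo (-(n : ℤ)) n, ‖Au n g d‖ ^ 2 ≤ M * (n * ‖G k0‖ ^ 2) := by
    calc (M : ℝ) * ∑ d ∈ Ioo (-(n : ℤ)) n, ‖Au n g d‖ ^ 2 ≤ ‖G k0‖ ^ 2 * (M * ∑ s ∈ Icc (1 : ℤ) n, ‖(starRingEnd ℂ) (g s)‖ ^ 2) := h5
      _ ≤ ‖G k0‖ ^ 2 * (M * n) := by gcongr
      _ = _ := by ring
  exact le_of_mul_le_mul_left h7 hMr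

theorem norm_Au_le (n : ℕ) (g : ℤ → ℂ) (hg : ∀ x, ‖g x‖ ≤ 1) (d : ℤ) : ‖Au n g d‖ ≤ n := by
  unfold Au
  refine (norm_sum_le _ _).trans ((sum_le_card_nsmul _ _ 1 fun y _ => norm_Gd_le hg d y).trans ?_)
  simp

/-- Summation over the moduli `m < K`: every `d ≠ 0` is counted at most `d(|d|)` times. -/
theorem sum_sum_Au (n K : ℕ) (D : ℝ) (hD : ∀ m : ℕ, 1 ≤ m → m ≤ 2 * n → (m.divisors.card : ℝ) ≤ D) (g : ℤ → ℂ) (hg : ∀ x, ‖g x‖ ≤ 1) :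
    ∑ m ∈ Ico 1 K, ∑ d ∈ (Ioo (-(n : ℤ)) n).filter (fun d => (m : ℤ) ∣ d), ‖Au n g d‖ ^ 2 ≤ K * n ^ 2 + D * ∑ d ∈ Ioo (-(n : ℤ)) n, ‖Au n g d‖ ^ 2 := by
  simp_rw [sum_filter]
  rw [sum_comm]
  have h1 : ∀ d ∈ Ioo (-(n : ℤ)) n, ∑ m ∈ Ico 1 K, (if (m : ℤ) ∣ d then ‖Au n g d‖ ^ 2 else 0) ≤ (if d = 0 then (K : ℝ) * n ^ 2 else 0) + D * ‖Au n g d‖ ^ 2 := by
    intro d hd
    rw [mem_Ioo] at hd
    have hD0 : 0 ≤ D := (Nat.cast_nonneg _).trans (hD 1 le_rfl (by omega))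
    rw [← sum_filter, sum_const, nsmul_eq_mul]
    split_ifs with h0
    · have h2 : (((Ico 1 K).filter (fun m : ℕ => (m : ℤ) ∣ d)).card : ℝ) ≤ K := by
        have := card_filter_le (Ico 1 K) (fun m : ℕ => (m : ℤ) ∣ d)
        rw [Nat.card_Ico] at this
        exact_mod_cast this.trans (Nat.sub_le _ _)
      have h3 : ‖Au n g d‖ ^ 2 ≤ (n : ℝ) ^ 2 := pow_le_pow_left₀ (norm_nonneg _) (norm_Au_le n g hg d) 2
      have h4 := mul_le_mul h2 h3 (by positivity) (Nat.cast_nonneg K)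
      have h5 : 0 ≤ D * ‖Au n g d‖ ^ 2 := by positivity
      linarith
    · rw [zero_add]
      refine mul_le_mul_of_nonneg_right ?_ (by positivity)
      refine le_trans ?_ (hD d.natAbs (by omega) (by omega))
      have h2 : (Ico 1 K).filter (fun m : ℕ => (m : ℤ) ∣ d) ⊆ d.natAbs.divisors := by
        intro m hm
        rw [mem_filter] at hm
        rw [Nat.mem_divisors]
        exact ⟨Int.natCast_dvd.1 hm.2, by omega⟩
      exact_mod_cast card_le_card h2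
  refine (sum_le_sum h1).trans ?_
  rw [sum_add_distrib, ← mul_sum]
  refine add_le_add ?_ le_rfl
  rw [Finset.sum_ite_eq']
  split_ifs
  · exact le_rfl
  · positivity

end Pool.Agent.Lib.H81W
end

-- from Lib.H59C.Defs
section

/-!
# Project H59C (MP_443e5f_co, Goldbach graphs): definitions

See `PROOF.md` in this folder. `PC Q`: the primitive characters of conductor at most `Q`
(pairs `⟨r, χ⟩`), `p0` the trivial one, `e x = exp (2 π i x)` (`Lib/H68T/Defs.lean`).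
-/

open Finset

namespace Pool.Agent.Lib.H59C

noncomputable section

open Pool.Agent.Lib.H68T (PC p0 e)

/-- Primitive characters with their conductors. -/
abbrev PCh : Type := Σ r : ℕ, DirichletCharacter ℂ r

open Classical in
/-- The primitive characters of conductor in `(R, 2 R]`. -/
def PD (R : ℕ) : Finset PCh := (PC (2 * R)).filter (fun p => R < p.1)


/-- `∑ log q` over the primes `q ≤ y`. -/
def th (y : ℕ) : ℝ := ∑ q ∈ (Icc 1 y).filter Nat.Prime, Real.log q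






/-- Rosser's condition on a decreasing list of primes (`true`: upper bound sieve, `false`: lower
bound sieve). -/
def adm : Bool → ℝ → List ℕ → Prop
  | _, _, [] => True
  | true, D, p :: l => (p : ℝ) ^ 3 < D ∧ adm false (D / p) l
  | false, D, p :: l => adm true (D / p) l

open Classical in
/-- Rosser's weights. -/
def lamR (b : Bool) (D : ℝ) (A : Finset ℕ) : ℝ :=
  if adm b D (A.sort (· ≥ ·)) then (-1) ^ A.card else 0

/-- `∑_{A ⊆ P} λ(A) ∏_{q ∈ A} h(q)` -/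
def SS (b : Bool) (D : ℝ) (P : Finset ℕ) (h : ℕ → ℝ) : ℝ :=
  ∑ A ∈ P.powerset, lamR b D A * ∏ q ∈ A, h q

/-- The comparison function. -/
def hh (s : ℝ) : ℝ := Real.exp (-(11 / 10) * max s 2)






end

end Pool.Agent.Lib.H59C
end

-- from Lib.H59C.LSB
section

/-!
# LSB: from primitive characters to additive characters
-/

open Finset

namespace Pool.Agent.Lib.H59C

open Pool.Agent.Lib.H68T (PC p0 e)


/-- abstract Parseval -/
theorem lsb_parseval {X B : Type*} [Fintype X] [Fintype B] [DecidableEq B] (u : X → B → ℂ) (c : ℝ)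
    (h : ∀ b b', ∑ x, (starRingEnd ℂ) (u x b) * u x b' = if b = b' then (c : ℂ) else 0)
    (f : B → ℂ) : ∑ x, ‖∑ b, u x b * f b‖ ^ 2 = c * ∑ b, ‖f b‖ ^ 2 := by
  have h1 : ∀ x, ((‖∑ b, u x b * f b‖ ^ 2 : ℝ) : ℂ) =
      ∑ b, ∑ b', (starRingEnd ℂ) (f b) * f b' * ((starRingEnd ℂ) (u x b) * u x b') := by
    intro x
    rw [Complex.ofReal_pow, ← Complex.conj_mul', map_sum, sum_mul_sum]
    refine sum_congr rfl fun b _ => sum_congr rfl fun b' _ => ?_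
    rw [map_mul]
    ring
  have h2 : ((∑ x, ‖∑ b, u x b * f b‖ ^ 2 : ℝ) : ℂ) = ((c * ∑ b, ‖f b‖ ^ 2 : ℝ) : ℂ) := by
    rw [Complex.ofReal_sum, sum_congr rfl fun x _ => h1 x, sum_comm, Complex.ofReal_mul,
      Complex.ofReal_sum, mul_sum]
    refine sum_congr rfl fun b _ => ?_
    rw [sum_comm, sum_congr rfl fun b' _ => (mul_sum _ _ _).symm]
    simp_rw [h]
    simp only [mul_ite, mul_zero, sum_ite_eq, mem_univ, if_true]
    rw [Complex.conj_mul', Complex.ofReal_pow, mul_comm]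
  exact_mod_cast h2

theorem lsb_sum_units (q : ℕ) [NeZero q] (G : ZMod q → ℂ) (hG : ∀ b, ¬ IsUnit b → G b = 0) :
    ∑ b, G b = ∑ b : (ZMod q)ˣ, G b := by
  classical
  have h1 : ∑ b : (ZMod q)ˣ, G b =
      ∑ b ∈ (univ : Finset (ZMod q)ˣ).map ⟨fun u : (ZMod q)ˣ => (u : ZMod q), fun _ _ h => Units.ext h⟩, G b := by
    rw [sum_map]
    rfl
  rw [h1]
  symm
  apply sum_subset (subset_univ _)
  intro b _ hb
  apply hG
  rintro ⟨u, rfl⟩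
  apply hb
  rw [mem_map]
  exact ⟨u, mem_univ _, rfl⟩



theorem lsb_card (q : ℕ) [NeZero q] (χ : DirichletCharacter ℂ q) :
    ∑ b : ZMod q, ‖χ b‖ ^ 2 = (Nat.totient q : ℝ) := by
  classical
  have h1 : ∑ b : ZMod q, ((‖χ b‖ ^ 2 : ℝ) : ℂ) = ∑ b : (ZMod q)ˣ, ((‖χ (b : ZMod q)‖ ^ 2 : ℝ) : ℂ) :=
    lsb_sum_units q (fun b => ((‖χ b‖ ^ 2 : ℝ) : ℂ)) (fun b hb => by
      rw [MulChar.map_nonunit _ hb]
      norm_num)
  have h2 : ∑ b : ZMod q, ‖χ b‖ ^ 2 = ∑ b : (ZMod q)ˣ, ‖χ (b : ZMod q)‖ ^ 2 := by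
    exact_mod_cast h1
  rw [h2]
  have h3 : ∀ b : (ZMod q)ˣ, ‖χ (b : ZMod q)‖ ^ 2 = 1 := by
    intro b
    rw [χ.unit_norm_eq_one b, one_pow]
  rw [sum_congr rfl fun b _ => h3 b, sum_const, card_univ, ZMod.card_units_eq_totient, nsmul_one]

theorem lsb_gauss (q : ℕ) [NeZero q] {χ : DirichletCharacter ℂ q} (h : χ.IsPrimitive) :
    ‖gaussSum χ (ZMod.stdAddChar (N := q))‖ ^ 2 = q := by
  classical
  have hq : (0 : ℝ) < Nat.totient q := by exact_mod_cast Nat.totient_pos.2 (NeZero.pos q)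
  have h1 := lsb_parseval (fun (m b : ZMod q) => (ZMod.stdAddChar (b * m) : ℂ)) (q : ℝ) (by
    intro b b'
    have h2 := AddChar.sum_mulShift (b' - b) (ZMod.isPrimitive_stdAddChar q)
    rw [ZMod.card] at h2
    have h3 : ∀ x : ZMod q, (starRingEnd ℂ) (ZMod.stdAddChar (b * x) : ℂ) *
        ZMod.stdAddChar (b' * x) = ZMod.stdAddChar (x * (b' - b)) := by
      intro x
      rw [← AddChar.map_neg_eq_conj, ← AddChar.map_add_eq_mul]
      congr 1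
      ring
    rw [sum_congr rfl fun x _ => h3 x, h2]
    by_cases hb : b = b'
    · rw [if_pos hb, if_pos (by rw [hb, sub_self])]
      norm_cast
    · rw [if_neg hb, if_neg (by rw [sub_eq_zero]; exact fun h => hb h.symm)]
      norm_cast) (fun b => χ b)
  rw [lsb_card] at h1
  have h4 : ∀ m : ZMod q, ‖∑ b, (ZMod.stdAddChar (b * m) : ℂ) * χ b‖ ^ 2 =
      ‖χ⁻¹ m‖ ^ 2 * ‖gaussSum χ (ZMod.stdAddChar (N := q))‖ ^ 2 := by
    intro m
    rw [← mul_pow, ← norm_mul, ← gaussSum_mulShift_of_isPrimitive _ h, gaussSum]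
    congr 2
    refine sum_congr rfl fun b _ => ?_
    rw [AddChar.mulShift_apply, mul_comm, mul_comm b]
  rw [sum_congr rfl fun m _ => h4 m, ← sum_mul, lsb_card] at h1
  exact mul_left_cancel₀ hq.ne' (h1.trans (mul_comm _ _))




end Pool.Agent.Lib.H59C
end

-- from Lib.H9S.Defs
section

/-!
# Project H9S (MP_443e5f_co, candidate T, module STAR): from the inverse theorem for `Λ` to the operator bound

`INV`: if `T(Λ; W, f, g)` is large, `g` has a large Fourier coefficient (module A + B + C + D, proved in `H37T`).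
Here: the same for `lp`, for the projections `Lk Q' Y = lp * kern` of low level `Q'` (translation), hence (with
`H59T.LK_box`) for `E = lp - Lk Q (X / Q^2)`; dual functions; exponential sums of `E`. See `PROOF.md`.
-/

namespace Pool.Agent.H9S

open Finset Pool.Agent.H44W
open Pool.Agent.Lib.H68T (lp Lk kern tent cq)

noncomputable section

/-- Functions bounded by `1`. -/
def Bd (f : ℤ → ℂ) : Prop := ∀ x, ‖f x‖ ≤ 1

/-- All Fourier coefficients of `g` over `T` are at most `κ`. -/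
def FB (T : Finset ℤ) (g : ℤ → ℂ) (κ : ℝ) : Prop := ∀ th : ℝ, ‖∑ z ∈ T, g z * ee (th * z)‖ ≤ κ

/-- The bilinear form over `S × T`. -/
def BF (S T : Finset ℤ) (F W f g : ℤ → ℂ) : ℂ := ∑ x ∈ S, ∑ y ∈ T, f x * g y * F (x + y) * W (x - y)

/-- The inverse theorem for the von Mangoldt function (proved in `H37T`, the same proposition). -/
def INV : Prop :=
  ∀ c1 : ℝ, 0 < c1 → ∃ c2 : ℝ, 0 < c2 ∧ ∃ n0 : ℕ, ∀ n : ℕ, n0 ≤ n → ∀ W f g : ℤ → ℂ,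
    (∀ x, ‖W x‖ ≤ 1) → (∀ x, ‖f x‖ ≤ 1) → (∀ x, ‖g x‖ ≤ 1) →
    (∀ th : ℝ, ‖∑ z ∈ Icc (1:ℤ) n, g z * ee (th * z)‖ ≤ (n:ℝ) ^ (1 - c1)) →
    ‖TF n (fun m => ((ArithmeticFunction.vonMangoldt m.toNat : ℝ) : ℂ)) W f g‖ ≤ (n:ℝ) ^ (2 - c2)

/-- `lp` with complex values. -/
def lc (m : ℤ) : ℂ := ((lp m : ℝ) : ℂ)

/-- The projection with complex values. -/
def Lc (Q Y : ℕ) (m : ℤ) : ℂ := ((Lk Q Y m : ℝ) : ℂ)

/-- The error `E = lp - Lk Q (X / Q^2)`. -/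
def Ec (Q X : ℕ) (m : ℤ) : ℂ := lc m - Lc Q (X / Q ^ 2) m

/-- The range of `x`. -/
def Sx (X : ℕ) : Finset ℤ := Ico (2 * (X:ℤ)) (3 * X)

/-- The range of `y`. -/
def Sy (X : ℕ) : Finset ℤ := Ioo (-(X:ℤ)) X

/-- The inverse theorem for `lp`: `f` or `g` without large Fourier coefficient. -/
def INVL : Prop :=
  ∀ c1 : ℝ, 0 < c1 → ∃ c2 : ℝ, 0 < c2 ∧ ∃ n0 : ℕ, ∀ n : ℕ, n0 ≤ n → ∀ W f g : ℤ → ℂ,
    Bd W → Bd f → Bd g →
    (FB (Icc (1:ℤ) n) g ((n:ℝ) ^ (1 - c1)) ∨ FB (Icc (1:ℤ) n) f ((n:ℝ) ^ (1 - c1))) →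
    ‖TF n lc W f g‖ ≤ (n:ℝ) ^ (2 - c2)

/-- The inverse theorem for `lp` on boxes. -/
def INVB : Prop :=
  ∀ c1 : ℝ, 0 < c1 → ∃ c2 : ℝ, 0 < c2 ∧ ∃ n0 : ℕ, ∀ n : ℕ, n0 ≤ n → ∀ (a : ℤ) (S T : Finset ℤ),
    (∀ x ∈ S, a + 1 ≤ x ∧ x ≤ a + 4 * n) → (∀ y ∈ T, 1 - a ≤ y ∧ y ≤ 4 * n - a) → ∀ W f g : ℤ → ℂ,
    Bd W → Bd f → Bd g → (FB T g ((n:ℝ) ^ (1 - c1)) ∨ FB S f ((n:ℝ) ^ (1 - c1))) →
    ‖BF S T lc W f g‖ ≤ (n:ℝ) ^ (2 - c2)

/-- The inverse theorem for `lp` and for the projections of level `Q'` (loss `Q'^3`). -/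
def INVK : Prop :=
  ∀ c1 : ℝ, 0 < c1 → ∃ c2 : ℝ, 0 < c2 ∧ ∃ n0 : ℕ, ∀ n : ℕ, n0 ≤ n → ∀ X : ℕ, 1 ≤ X → X ≤ n →
    ∀ W f g : ℤ → ℂ, Bd W → Bd f → Bd g →
    (FB (Sy X) g ((n:ℝ) ^ (1 - c1)) ∨ FB (Sx X) f ((n:ℝ) ^ (1 - c1))) →
    ‖BF (Sx X) (Sy X) lc W f g‖ ≤ (n:ℝ) ^ (2 - c2) ∧
    ∀ Q Y : ℕ, Y < X → ‖BF (Sx X) (Sy X) (Lc Q Y) W f g‖ ≤ (Q:ℝ) ^ 3 * (n:ℝ) ^ (2 - c2)

/-- The difference of the projections of the levels `Q` and `Q' ≤ Q` (theorem `H59T.LK_box`) at fixed `Q`, `X`. -/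
def LKd (C : ℝ) (Q X : ℕ) : Prop :=
  ∀ Q' : ℕ, 1 ≤ Q' → Q' ≤ Q → ∀ W f g : ℤ → ℂ, Bd W → Bd f → Bd g →
    ‖BF (Sx X) (Sy X) (fun m => Lc Q (X / Q ^ 2) m - Lc Q' (X / Q ^ 2) m) W f g‖ ≤
      C * (X:ℝ) ^ 2 * (Q':ℝ) ^ (-(1 / 1152 : ℝ))

/-- The inverse theorem for `E`. The constant `c2` depends only on `Cr` (`log n ≤ Cr log Q`), `C` and `c1`. -/
def INVE : Prop :=
  ∀ Cr C c1 : ℝ, 1 ≤ Cr → 0 < C → 0 < c1 → ∃ c2 : ℝ, 0 < c2 ∧ ∃ n0 : ℕ, ∀ n : ℕ, n0 ≤ n →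
    ∀ Q X : ℕ, 2 ≤ Q → Real.log n ≤ Cr * Real.log Q → 1 ≤ X → X ≤ n → LKd C Q X →
    ∀ W f g : ℤ → ℂ, Bd W → Bd f → Bd g →
    (FB (Sy X) g ((n:ℝ) ^ (1 - c1)) ∨ FB (Sx X) f ((n:ℝ) ^ (1 - c1))) →
    ‖BF (Sx X) (Sy X) (Ec Q X) W f g‖ ≤ (n:ℝ) ^ (2 - c2)

/-- The operator bound for one weight `W` bounded by `n^c`. -/
def OPW : Prop :=
  ∀ Cr C : ℝ, 1 ≤ Cr → 0 < C → ∃ c : ℝ, 0 < c ∧ ∃ n0 : ℕ, ∀ n : ℕ, n0 ≤ n →
    ∀ Q X : ℕ, 2 ≤ Q → Real.log n ≤ Cr * Real.log Q → 1 ≤ X → X ≤ n → LKd C Q X →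
    (∀ th : ℝ, ∀ u v : ℤ, (X:ℤ) ≤ u → v ≤ 4 * X →
      ‖∑ m ∈ Ico u v, Ec Q X m * ee (th * m)‖ ≤ X * (Q:ℝ) ^ (-(1 / 4) : ℝ)) →
    (∀ m : ℤ, (X:ℤ) ≤ m → m ≤ 4 * X → ‖Ec Q X m‖ ≤ (n:ℝ) ^ c) →
    ∀ W f g : ℤ → ℂ, (∀ v : ℤ, (X:ℤ) < v → v < 4 * X → ‖W v‖ ≤ (n:ℝ) ^ c) → Bd f → Bd g →
    ‖BF (Sx X) (Sy X) (Ec Q X) W f g‖ ≤ (n:ℝ) ^ (2 - c)

end

end Pool.Agent.H9S
end

-- from Lib.H9S.K1
section
/-!
CHUNK K1 (S/M). Mass of the kernel. `kern Q Y z = tent Y z * ∑_{q ∈ Icc 1 Q} cq q z`. `0 ≤ tent Y z`, `∑_{|z| < Y} tent Y z = 1` for `Y ≥ 1` (copy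
the short proof of `H68T.DB_tent_count`, `DB_tent_sum` in Lib/H68T/DB.lean lines 44 to 100, that file is heavy: do not import it). `Y = 0`: empty
sum. `|cq q z| ≤ ∑_{d ∣ q} d ≤ q * q` (`|μ| ≤ 1`, `d ≤ q`, at most `q` divisors: `Nat.card_divisors_le_self` or `divisors ⊆ Icc 1 q`), so
`|∑_{q ≤ Q} cq q z| ≤ ∑_{q ≤ Q} q² ≤ Q * Q² = Q³`.
-/
namespace Pool.Agent.H9S
open Finset Pool.Agent.H44W
open Pool.Agent.Lib.H68T (lp Lk kern tent cq)

theorem k1_tent_count (Y : ℕ) : ∑ z ∈ Ioo (-(Y : ℤ)) Y, ((Y : ℝ) - |(z : ℝ)|) = (Y : ℝ) ^ 2 := by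
  induction Y with
  | zero => simp
  | succ Y ih =>
    have e1 : Ioo (-((Y + 1 : ℕ) : ℤ)) ((Y + 1 : ℕ) : ℤ) = Icc (-(Y : ℤ)) Y := by
      ext z
      simp only [mem_Ioo, mem_Icc]
      push_cast
      omega
    rw [e1]
    have e2 : ∑ z ∈ Icc (-(Y : ℤ)) Y, (((Y + 1 : ℕ) : ℝ) - |(z : ℝ)|) =
        ∑ z ∈ Icc (-(Y : ℤ)) Y, ((Y : ℝ) - |(z : ℝ)|) + ∑ z ∈ Icc (-(Y : ℤ)) Y, (1 : ℝ) := by
      rw [← sum_add_distrib]
      refine sum_congr rfl fun z _ => ?_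
      push_cast
      ring
    rw [e2]
    have e3 : ∑ z ∈ Icc (-(Y : ℤ)) Y, ((Y : ℝ) - |(z : ℝ)|) =
        ∑ z ∈ Ioo (-(Y : ℤ)) Y, ((Y : ℝ) - |(z : ℝ)|) := by
      symm
      apply sum_subset
      · intro z hz
        rw [mem_Ioo] at hz
        rw [mem_Icc]
        omega
      · intro z hz hz'
        rw [mem_Icc] at hz
        rw [mem_Ioo] at hz'
        have h1 : z = Y ∨ z = -Y := by omega
        rcases h1 with h | h
        · rw [h]; simp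
        · rw [h]; simp
    rw [e3, ih, sum_const, Int.card_Icc, nsmul_eq_mul, mul_one]
    have e4 : ((((Y : ℤ) + 1 - -(Y : ℤ)).toNat : ℕ) : ℝ) = 2 * Y + 1 := by
      have : ((Y : ℤ) + 1 - -(Y : ℤ)).toNat = 2 * Y + 1 := by omega
      rw [this]; push_cast; ring
    rw [e4]
    push_cast
    ring

theorem k1_tent_sum (Y : ℕ) (hY : 1 ≤ Y) : ∑ z ∈ Ioo (-(Y : ℤ)) Y, tent Y z = 1 := by
  have hY0 : (0 : ℝ) < Y := by exact_mod_cast hY
  have h1 : ∑ z ∈ Ioo (-(Y : ℤ)) Y, tent Y z =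
      (∑ z ∈ Ioo (-(Y : ℤ)) Y, ((Y : ℝ) - |(z : ℝ)|)) / (Y : ℝ) ^ 2 := by
    rw [sum_div]
    refine sum_congr rfl fun z hz => ?_
    rw [mem_Ioo] at hz
    unfold tent
    rw [max_eq_right]
    have : |(z : ℝ)| ≤ Y := by
      rw [abs_le]
      constructor
      · exact_mod_cast hz.1.le
      · exact_mod_cast hz.2.le
    linarith
  rw [h1, k1_tent_count]
  exact div_self (by positivity)

theorem k1_tent_nonneg (Y : ℕ) (z : ℤ) : 0 ≤ tent Y z := by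
  unfold tent
  exact div_nonneg (le_max_left _ _) (sq_nonneg _)

theorem k1_cq (q : ℕ) (z : ℤ) : |cq q z| ≤ (q : ℝ) * q := by
  unfold cq
  refine (abs_sum_le_sum_abs _ _).trans ?_
  have h1 : ∀ d ∈ q.divisors.filter (fun d : ℕ => (d : ℤ) ∣ z),
      |(d : ℝ) * (ArithmeticFunction.moebius (q / d) : ℝ)| ≤ q := by
    intro d hd
    have hd1 := Nat.divisor_le (mem_filter.1 hd).1
    rw [abs_mul, Nat.abs_cast]
    have h2 : |(ArithmeticFunction.moebius (q / d) : ℝ)| ≤ 1 := by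
      have := ArithmeticFunction.abs_moebius_le_one (n := q / d)
      exact_mod_cast this
    have h3 : (d : ℝ) ≤ q := by exact_mod_cast hd1
    calc (d : ℝ) * |(ArithmeticFunction.moebius (q / d) : ℝ)| ≤ q * 1 :=
          mul_le_mul h3 h2 (abs_nonneg _) (Nat.cast_nonneg q)
      _ = q := mul_one _
  refine (sum_le_card_nsmul _ _ _ h1).trans ?_
  rw [nsmul_eq_mul]
  refine mul_le_mul_of_nonneg_right ?_ (Nat.cast_nonneg q)
  have h2 : (q.divisors.filter (fun d : ℕ => (d : ℤ) ∣ z)).card ≤ q :=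
    (card_filter_le _ _).trans (Nat.card_divisors_le_self q)
  exact_mod_cast h2

theorem K1_mass (Q Y : ℕ) : ∑ z ∈ Ioo (-(Y:ℤ)) Y, |kern Q Y z| ≤ (Q:ℝ) ^ 3 := by
  have h1 : ∀ z : ℤ, |∑ q ∈ Icc 1 Q, cq q z| ≤ (Q : ℝ) ^ 3 := by
    intro z
    refine (abs_sum_le_sum_abs _ _).trans ?_
    have h2 : ∀ q ∈ Icc 1 Q, |cq q z| ≤ (Q : ℝ) ^ 2 := by
      intro q hq
      have h3 : (q : ℝ) ≤ Q := by exact_mod_cast (mem_Icc.1 hq).2
      have h4 := k1_cq q z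
      have h5 : (0 : ℝ) ≤ q := Nat.cast_nonneg q
      nlinarith
    refine (sum_le_card_nsmul _ _ _ h2).trans (le_of_eq ?_)
    rw [nsmul_eq_mul, Nat.card_Icc, Nat.add_sub_cancel]
    ring
  rcases Nat.eq_zero_or_pos Y with hY | hY
  · subst hY
    have e1 : Ioo (-((0 : ℕ) : ℤ)) ((0 : ℕ) : ℤ) = ∅ := by
      rw [Nat.cast_zero, neg_zero]
      exact Ioo_self _
    rw [e1, sum_empty]
    positivity
  · have h2 : ∀ z ∈ Ioo (-(Y:ℤ)) Y, |kern Q Y z| ≤ tent Y z * (Q : ℝ) ^ 3 := by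
      intro z _
      unfold kern
      rw [abs_mul, abs_of_nonneg (k1_tent_nonneg Y z)]
      exact mul_le_mul_of_nonneg_left (h1 z) (k1_tent_nonneg Y z)
    refine (sum_le_sum h2).trans ?_
    rw [← sum_mul, k1_tent_sum Y hY, one_mul]

end Pool.Agent.H9S
end

-- from Lib.H9S.K2
section
/-!
CHUNK K2 (S/M). Translation. `Lc Q Y m = ∑_{z} kern Q Y z * lc (m - z)` (definition of `Lk`). In
`∑_{x ∈ S} ∑_{y ∈ T} f x g y lc(x + y - z) W(x - y)` put `x = x' + z`, `x' ∈ S - z` (`Finset.sum_image`, `x ↦ x - z` is injective):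
`x + y - z = x' + y`, `x - y = (x' - y) + z`. Exchange the sums (`Finset.sum_comm`, `Finset.mul_sum`).
`K2_FB`: `∑_{x' ∈ S - z} f(x' + z) ee(th x') = ee(-(th z)) ∑_{x ∈ S} f x ee(th x)` (`ee_add`, `norm_ee` in H44W/E1).
-/
namespace Pool.Agent.H9S
open Finset Pool.Agent.H44W
open Pool.Agent.Lib.H68T (lp Lk kern tent cq)

theorem K2_trans (Q Y : ℕ) (S T : Finset ℤ) (W f g : ℤ → ℂ) :
    BF S T (Lc Q Y) W f g = ∑ z ∈ Ioo (-(Y:ℤ)) Y, ((kern Q Y z : ℝ) : ℂ) *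
      BF (S.image (fun x => x - z)) T lc (fun v => W (v + z)) (fun x => f (x + z)) g := by
  have h1 : ∀ z : ℤ, BF (S.image (fun x => x - z)) T lc (fun v => W (v + z)) (fun x => f (x + z)) g =
      ∑ x ∈ S, ∑ y ∈ T, f x * g y * lc (x + y - z) * W (x - y) := by
    intro z
    unfold BF
    rw [Finset.sum_image fun a _ b _ h => sub_left_injective h]
    refine Finset.sum_congr rfl fun x _ => Finset.sum_congr rfl fun y _ => ?_
    have e1 : x - z + z = x := by ring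
    have e2 : x - z + y = x + y - z := by ring
    have e3 : x - z - y + z = x - y := by ring
    simp only [e1, e2, e3]
  simp only [h1]
  have h2 : ∀ z ∈ Ioo (-(Y:ℤ)) Y, ((kern Q Y z : ℝ) : ℂ) * ∑ x ∈ S, ∑ y ∈ T, f x * g y * lc (x + y - z) * W (x - y) =
      ∑ x ∈ S, ∑ y ∈ T, f x * g y * (((kern Q Y z : ℝ) : ℂ) * lc (x + y - z)) * W (x - y) := by
    intro z _
    rw [Finset.mul_sum]
    refine Finset.sum_congr rfl fun x _ => ?_
    rw [Finset.mul_sum]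
    refine Finset.sum_congr rfl fun y _ => ?_
    ring
  rw [Finset.sum_congr rfl h2, Finset.sum_comm]
  unfold BF
  refine Finset.sum_congr rfl fun x _ => ?_
  rw [Finset.sum_comm]
  refine Finset.sum_congr rfl fun y _ => ?_
  rw [← Finset.sum_mul, ← Finset.mul_sum]
  congr 2
  unfold Lc Lk lc
  push_cast
  rfl

theorem K2_FB (S : Finset ℤ) (z : ℤ) (f : ℤ → ℂ) (κ : ℝ) (h : FB S f κ) :
    FB (S.image (fun x => x - z)) (fun x => f (x + z)) κ := by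
  intro th
  rw [Finset.sum_image fun a _ b _ h => sub_left_injective h]
  have h1 : ∑ x ∈ S, f (x - z + z) * ee (th * ((x - z : ℤ) : ℝ)) = ee (-(th * z)) * ∑ x ∈ S, f x * ee (th * x) := by
    rw [Finset.mul_sum]
    refine Finset.sum_congr rfl fun x _ => ?_
    have e1 : x - z + z = x := by ring
    have e2 : th * ((x - z : ℤ) : ℝ) = -(th * z) + th * x := by
      push_cast
      ring
    rw [e1, e2, ee_add]
    ring
  have h2 : ‖∑ x ∈ S, f (x - z + z) * ee (th * ((x - z : ℤ) : ℝ))‖ ≤ κ := by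
    rw [h1, norm_mul, norm_ee, one_mul]
    exact h th
  exact h2

end Pool.Agent.H9S
end

-- from Lib.H68T.FINP
section

/-!
# Chunk FIN, part 1: choice of the parameters
-/

open Finset Filter Real

namespace Pool.Agent.Lib.H68T


theorem ev_log (C r : ℝ) (h : 0 < r) : ∀ᶠ L : ℝ in atTop, C * Real.log L ≤ L ^ r := by
  have h1 := (isLittleO_log_rpow_atTop h).bound (c := (|C| + 1)⁻¹) (by positivity)
  filter_upwards [h1, eventually_ge_atTop (1:ℝ)] with L hL hL1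
  have hL0 : 0 < L := by linarith
  rw [Real.norm_of_nonneg (Real.log_nonneg hL1), Real.norm_of_nonneg (rpow_nonneg hL0.le _)] at hL
  have hlog := Real.log_nonneg hL1
  have hC : C ≤ |C| + 1 := by linarith [le_abs_self C]
  calc C * Real.log L ≤ (|C| + 1) * Real.log L := mul_le_mul_of_nonneg_right hC hlog
    _ ≤ (|C| + 1) * ((|C| + 1)⁻¹ * L ^ r) := mul_le_mul_of_nonneg_left hL (by positivity)
    _ = L ^ r := by
        rw [← mul_assoc, mul_inv_cancel₀ (by positivity), one_mul]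



end Pool.Agent.Lib.H68T
end
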