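import Pool.Agent.Lib.H59M.M2.M006
import Pool.Agent.Lib.H59M.M2.M016

/-! Merged copies (to shorten the build) of Lib.H68T.TENT, Lib.H68T.BPS. -/

-- from Lib.H68T.TENT
section

/-!
# Chunk TENT: Mellin representation of the tent
-/

open Finset MeasureTheory

namespace Pool.Agent.Lib.H68T

/-- Mellin transform of `max 0 (1 - y)`. -/
theorem TENT_hasMellin (s : ℂ) (hs : 0 < s.re) :
    HasMellin (fun y : ℝ => ((max 0 (1 - y) : ℝ) : ℂ)) s (1 / (s * (s + 1))) := by
  have h1 := hasMellin_one_Ioc hs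
  have h2 := hasMellin_cpow_Ioc (a := 1) (s := s) (by simp; linarith)
  have h3 := hasMellin_sub h1.1 h2.1
  have hfun : ∀ y ∈ Set.Ioi (0 : ℝ),
      (Set.indicator (Set.Ioc 0 1) (fun _ => 1 : ℝ → ℂ) y -
        Set.indicator (Set.Ioc 0 1) (fun t => (t : ℂ) ^ (1 : ℂ) : ℝ → ℂ) y) =
      ((max 0 (1 - y) : ℝ) : ℂ) := by
    intro y hy
    have hy' : (0 : ℝ) < y := hy
    by_cases h : y ≤ 1
    · have hm : y ∈ Set.Ioc (0 : ℝ) 1 := ⟨hy', h⟩
      rw [Set.indicator_of_mem hm, Set.indicator_of_mem hm, Complex.cpow_one,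
        max_eq_right (by linarith)]
      push_cast
      ring
    · have hm : y ∉ Set.Ioc (0 : ℝ) 1 := fun h' => h h'.2
      rw [Set.indicator_of_notMem hm, Set.indicator_of_notMem hm, max_eq_left (by linarith)]
      simp
  have hs0 : s ≠ 0 := by
    intro h
    rw [h] at hs
    simp at hs
  have hs1 : s + 1 ≠ 0 := by
    intro h
    have := congrArg Complex.re h
    simp at this
    linarith
  refine ⟨?_, ?_⟩
  · have := h3.1
    refine MeasureTheory.IntegrableOn.congr_fun this (fun y hy => ?_) measurableSet_Ioi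
    simp only
    rw [hfun y hy]
  · have := h3.2
    rw [h1.2, h2.2] at this
    have e : 1 / s - 1 / (s + 1) = 1 / (s * (s + 1)) := by
      field_simp
      ring
    rw [e] at this
    rw [← this]
    refine MeasureTheory.setIntegral_congr_fun measurableSet_Ioi (fun y hy => ?_)
    simp only
    rw [hfun y hy]

/-- `‖1/((σ+it)(σ+1+it))‖` is integrable. -/
theorem TENT_integrable (σ : ℝ) (hσ : 0 < σ) :
    Integrable (fun t : ℝ => 1 / ((σ + t * Complex.I) * (σ + t * Complex.I + 1))) := by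
  have h1 : Integrable (fun t : ℝ => (1 + σ⁻¹ ^ 2) * (1 + t ^ 2)⁻¹) :=
    integrable_inv_one_add_sq.const_mul _
  have hne : ∀ t : ℝ, (σ + t * Complex.I : ℂ) ≠ 0 := by
    intro t h
    have := congrArg Complex.re h
    simp at this
    linarith
  have hne1 : ∀ t : ℝ, (σ + t * Complex.I + 1 : ℂ) ≠ 0 := by
    intro t h
    have := congrArg Complex.re h
    simp at this
    linarith
  refine h1.mono' ?_ ?_
  · refine Continuous.aestronglyMeasurable ?_
    refine Continuous.div continuous_const (by fun_prop) (fun t => mul_ne_zero (hne t) (hne1 t))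
  · refine Filter.Eventually.of_forall (fun t => ?_)
    have hn : ∀ a : ℝ, ‖(a + t * Complex.I : ℂ)‖ ^ 2 = a ^ 2 + t ^ 2 := by
      intro a
      rw [← Complex.normSq_eq_norm_sq, Complex.normSq_add_mul_I]
    have h2 : ‖(σ + t * Complex.I : ℂ)‖ ^ 2 = σ ^ 2 + t ^ 2 := hn σ
    have h3 : ‖(σ + t * Complex.I + 1 : ℂ)‖ ^ 2 = (σ + 1) ^ 2 + t ^ 2 := by
      have := hn (σ + 1)
      rw [← this]
      congr 2
      push_cast
      ring
    have h4 : ‖(σ + t * Complex.I : ℂ)‖ ≤ ‖(σ + t * Complex.I + 1 : ℂ)‖ := by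
      refine le_of_sq_le_sq ?_ (norm_nonneg _)
      rw [h2, h3]
      nlinarith
    have h5 : σ ^ 2 + t ^ 2 ≤ ‖(σ + t * Complex.I : ℂ)‖ * ‖(σ + t * Complex.I + 1 : ℂ)‖ := by
      rw [← h2, sq]
      exact mul_le_mul_of_nonneg_left h4 (norm_nonneg _)
    have h6 : 0 < σ ^ 2 + t ^ 2 := by positivity
    rw [norm_div, norm_one, norm_mul, ← div_eq_mul_inv]
    rw [div_le_div_iff₀ (lt_of_lt_of_le h6 h5) (by positivity)]
    calc 1 * (1 + t ^ 2) ≤ (1 + σ⁻¹ ^ 2) * (σ ^ 2 + t ^ 2) := by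
          have : σ⁻¹ ^ 2 * σ ^ 2 = 1 := by
            field_simp
          nlinarith [sq_nonneg (σ⁻¹ * t), sq_nonneg σ]
      _ ≤ _ := mul_le_mul_of_nonneg_left h5 (by positivity)

/-- Mellin inversion for the hinge on the line `Re s = σ`. -/
theorem TENT_hinge (σ : ℝ) (hσ : 0 < σ) (y : ℝ) (hy : 0 < y) :
    ((max 0 (1 - y) : ℝ) : ℂ) = 1 / (2 * Real.pi) *
      ∫ t : ℝ, (y : ℂ) ^ (-(σ + t * Complex.I)) /
        ((σ + t * Complex.I) * (σ + t * Complex.I + 1)) := by
  have hf : MellinConvergent (fun y : ℝ => ((max 0 (1 - y) : ℝ) : ℂ)) σ :=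
    (TENT_hasMellin σ (by simpa using hσ)).1
  have hm : ∀ t : ℝ, mellin (fun y : ℝ => ((max 0 (1 - y) : ℝ) : ℂ)) (σ + t * Complex.I) =
      1 / ((σ + t * Complex.I) * (σ + t * Complex.I + 1)) := by
    intro t
    exact (TENT_hasMellin (σ + t * Complex.I) (by simpa using hσ)).2
  have hv : Complex.VerticalIntegrable (mellin (fun y : ℝ => ((max 0 (1 - y) : ℝ) : ℂ))) σ := by
    unfold Complex.VerticalIntegrable
    refine (TENT_integrable σ hσ).congr (Filter.Eventually.of_forall (fun t => ?_))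
    simp only
    rw [hm t]
  have h := mellinInv_mellin_eq σ (fun y : ℝ => ((max 0 (1 - y) : ℝ) : ℂ)) hy hf hv
    (Continuous.continuousAt (by fun_prop))
  rw [← h, mellinInv, Complex.real_smul]
  push_cast
  congr 1
  refine integral_congr_ae (Filter.Eventually.of_forall (fun t => ?_))
  simp only
  rw [hm t, smul_eq_mul, mul_one_div]

/-- The kernel formula: for `z > 0`, `n ≥ 1`,
`max 0 (z - n) = (1/2π) ∫ z^(2+it) n^(-1-it) / ((1+it)(2+it)) dt`. It is the Mellin inversion of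
`y ↦ max 0 (1 - y)` (`y = n/z`), whose Mellin transform at `s` is `1/(s(s+1))` (`Re s > 0`), on the
line `Re s = 1` (`mellin_inversion`). -/
theorem mellin_hinge (z : ℝ) (hz : 0 < z) (n : ℝ) (hn : 0 < n) :
    Integrable (fun t : ℝ => (z : ℂ) ^ (2 + t * Complex.I) * (n : ℂ) ^ (-(1 + t * Complex.I)) /
      ((1 + t * Complex.I) * (2 + t * Complex.I))) ∧
    ((max 0 (z - n) : ℝ) : ℂ) = 1 / (2 * Real.pi) *
      ∫ t : ℝ, (z : ℂ) ^ (2 + t * Complex.I) * (n : ℂ) ^ (-(1 + t * Complex.I)) /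
        ((1 + t * Complex.I) * (2 + t * Complex.I)) := by
  have hzC : (z : ℂ) ≠ 0 := by exact_mod_cast hz.ne'
  have hnC : (n : ℂ) ≠ 0 := by exact_mod_cast hn.ne'
  have hpow : ∀ t : ℝ, (z : ℂ) ^ (2 + t * Complex.I) * (n : ℂ) ^ (-(1 + t * Complex.I)) =
      z * ((n / z : ℝ) : ℂ) ^ (-(1 + t * Complex.I)) := by
    intro t
    rw [div_eq_mul_inv, Complex.ofReal_mul, Complex.mul_cpow_ofReal_nonneg hn.le (by positivity),
      Complex.ofReal_inv, Complex.inv_cpow_eq_ite, if_neg]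
    · rw [← Complex.cpow_neg, neg_neg, show (2 + t * Complex.I : ℂ) = 1 + (1 + t * Complex.I) by ring,
        Complex.cpow_add _ _ hzC, Complex.cpow_one]
      ring
    · rw [Complex.arg_ofReal_of_nonneg hz.le]
      exact Real.pi_pos.ne
  have hden : ∀ t : ℝ, ((1 + t * Complex.I) * (2 + t * Complex.I) : ℂ) =
      (((1 : ℝ) + t * Complex.I) * ((1 : ℝ) + t * Complex.I + 1)) := by
    intro t
    push_cast
    ring
  have hnz : 0 < n / z := by positivity
  refine ⟨?_, ?_⟩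
  · have h1 := (TENT_integrable 1 one_pos).norm.const_mul (z * (n / z) ^ (-1 : ℝ))
    refine h1.mono' ?_ ?_
    · refine Continuous.aestronglyMeasurable ?_
      refine Continuous.div ?_ (by fun_prop) ?_
      · refine Continuous.mul ?_ ?_
        · exact Continuous.const_cpow (by fun_prop) (Or.inl hzC)
        · exact Continuous.const_cpow (by fun_prop) (Or.inl hnC)
      · intro t
        refine mul_ne_zero ?_ ?_
        · intro h
          have := congrArg Complex.re h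
          simp at this
        · intro h
          have := congrArg Complex.re h
          simp at this
    · refine Filter.Eventually.of_forall (fun t => ?_)
      rw [hpow t, hden t, norm_div, norm_mul, norm_div, norm_one, Complex.norm_real,
        Complex.norm_cpow_eq_rpow_re_of_pos hnz, Real.norm_of_nonneg hz.le]
      have : (-(1 + (t : ℂ) * Complex.I)).re = -1 := by simp
      rw [this, mul_one_div]
  · have h2 := TENT_hinge 1 one_pos (n / z) hnz
    have h3 : ((max 0 (z - n) : ℝ) : ℂ) = z * ((max 0 (1 - n / z) : ℝ) : ℂ) := by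
      rw [← Complex.ofReal_mul]
      congr 1
      rw [mul_max_of_nonneg _ _ hz.le]
      congr 1
      · ring
      · field_simp
    rw [h3, h2, mul_left_comm, ← integral_const_mul]
    congr 1
    refine integral_congr_ae (Filter.Eventually.of_forall (fun t => ?_))
    simp only
    rw [hpow t, hden t, mul_div_assoc]
    push_cast
    rfl

/-- The second difference of the hinge is the tent. -/
theorem TENT_second_diff (Y z : ℝ) (hY : 0 ≤ Y) :
    max 0 (Y - |z|) = max 0 (z + Y) - 2 * max 0 z + max 0 (z - Y) := by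
  rcases le_total 0 z with h | h
  · rw [abs_of_nonneg h, max_eq_right (show (0 : ℝ) ≤ z + Y by linarith), max_eq_right h]
    rcases le_total z Y with h' | h'
    · rw [max_eq_right (by linarith), max_eq_left (by linarith)]
      ring
    · rw [max_eq_left (by linarith), max_eq_right (by linarith)]
      ring
  · rw [abs_of_nonpos h, max_eq_left h, max_eq_left (show z - Y ≤ 0 by linarith)]
    rw [show Y - -z = z + Y by ring]
    ring

/-- The second difference of `z^(2+it)` as a double integral. -/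
theorem TENT_double (t : ℝ) (a Y : ℝ) (ha : 0 < a) (hY : 0 ≤ Y) :
    ((a + 2 * Y : ℝ) : ℂ) ^ (2 + t * Complex.I) - 2 * ((a + Y : ℝ) : ℂ) ^ (2 + t * Complex.I) +
      (a : ℂ) ^ (2 + t * Complex.I) =
    ((1 + t * Complex.I) * (2 + t * Complex.I)) *
      ∫ x in (0 : ℝ)..Y, ∫ y in (0 : ℝ)..Y, ((a + x + y : ℝ) : ℂ) ^ (t * Complex.I) := by
  have hd : ∀ c : ℂ, ∀ x : ℝ, 0 < x →
      HasDerivAt (fun x : ℝ => (x : ℂ) ^ (c + 1)) ((c + 1) * (x : ℂ) ^ c) x := by
    intro c x hx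
    have h1 := (hasDerivAt_id (x : ℂ)).cpow_const (c := c + 1)
      (Or.inl (by simpa using hx))
    have h2 := h1.comp_ofReal
    simpa using h2
  have hcont : ∀ c : ℂ, ∀ b : ℝ, 0 < b → ContinuousOn (fun y : ℝ => ((b + y : ℝ) : ℂ) ^ c)
      (Set.Ici 0) := by
    intro c b hb y hy
    have hy' : (0 : ℝ) ≤ y := hy
    refine ContinuousAt.continuousWithinAt ?_
    refine ContinuousAt.cpow (by fun_prop) continuousAt_const (Or.inl ?_)
    rw [Complex.ofReal_re]
    linarith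
  have hint : ∀ c : ℂ, c + 1 ≠ 0 → ∀ b : ℝ, 0 < b →
      (c + 1) * ∫ y in (0 : ℝ)..Y, ((b + y : ℝ) : ℂ) ^ c =
        ((b + Y : ℝ) : ℂ) ^ (c + 1) - (b : ℂ) ^ (c + 1) := by
    intro c hc b hb
    have h := intervalIntegral.integral_eq_sub_of_hasDerivAt (a := 0) (b := Y)
      (f := fun y : ℝ => ((b + y : ℝ) : ℂ) ^ (c + 1))
      (f' := fun y : ℝ => (c + 1) * ((b + y : ℝ) : ℂ) ^ c) ?_ ?_
    · rw [intervalIntegral.integral_const_mul] at h
      rw [h]
      simp
    · intro y hy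
      rw [Set.uIcc_of_le hY] at hy
      have := hd c (b + y) (by linarith [hy.1])
      exact this.comp_const_add b y
    · refine ContinuousOn.intervalIntegrable ?_
      rw [Set.uIcc_of_le hY]
      exact (continuousOn_const.mul (hcont c b hb)).mono Set.Icc_subset_Ici_self
  have hne1 : (t * Complex.I + 1 : ℂ) ≠ 0 := by
    intro h
    have := congrArg Complex.re h
    simp at this
  have hne2 : (1 + t * Complex.I + 1 : ℂ) ≠ 0 := by
    intro h
    have := congrArg Complex.re h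
    norm_num at this
  have hinner : ∀ x : ℝ, x ∈ Set.uIcc 0 Y →
      (1 + t * Complex.I : ℂ) * ∫ y in (0 : ℝ)..Y, ((a + x + y : ℝ) : ℂ) ^ (t * Complex.I) =
        ((a + Y + x : ℝ) : ℂ) ^ (1 + t * Complex.I) - ((a + x : ℝ) : ℂ) ^ (1 + t * Complex.I) := by
    intro x hx
    rw [Set.uIcc_of_le hY] at hx
    have := hint (t * Complex.I) hne1 (a + x) (by linarith [hx.1])
    rw [add_comm (t * Complex.I) 1] at this
    rw [this, show a + Y + x = a + x + Y by ring]
  have h1 := hint (1 + t * Complex.I) hne2 (a + Y) (by linarith)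
  have h2 := hint (1 + t * Complex.I) hne2 a ha
  rw [show (1 + t * Complex.I + 1 : ℂ) = 2 + t * Complex.I by ring] at h1 h2
  have hi1 : IntervalIntegrable (fun x : ℝ => ((a + Y + x : ℝ) : ℂ) ^ (1 + t * Complex.I)) volume 0 Y := by
    refine ContinuousOn.intervalIntegrable ?_
    rw [Set.uIcc_of_le hY]
    exact (hcont _ (a + Y) (by linarith)).mono Set.Icc_subset_Ici_self
  have hi2 : IntervalIntegrable (fun x : ℝ => ((a + x : ℝ) : ℂ) ^ (1 + t * Complex.I)) volume 0 Y := by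
    refine ContinuousOn.intervalIntegrable ?_
    rw [Set.uIcc_of_le hY]
    exact (hcont _ a ha).mono Set.Icc_subset_Ici_self
  calc _ = ((a + Y + Y : ℝ) : ℂ) ^ (2 + t * Complex.I) - ((a + Y : ℝ) : ℂ) ^ (2 + t * Complex.I) -
      (((a + Y : ℝ) : ℂ) ^ (2 + t * Complex.I) - (a : ℂ) ^ (2 + t * Complex.I)) := by
        rw [show a + Y + Y = a + 2 * Y by ring]
        ring
    _ = (2 + t * Complex.I) * ((∫ x in (0 : ℝ)..Y, ((a + Y + x : ℝ) : ℂ) ^ (1 + t * Complex.I)) -
        ∫ x in (0 : ℝ)..Y, ((a + x : ℝ) : ℂ) ^ (1 + t * Complex.I)) := by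
        rw [← h1, ← h2]
        ring
    _ = (2 + t * Complex.I) * (∫ x in (0 : ℝ)..Y, (((a + Y + x : ℝ) : ℂ) ^ (1 + t * Complex.I) -
        ((a + x : ℝ) : ℂ) ^ (1 + t * Complex.I))) := by
        rw [intervalIntegral.integral_sub hi1 hi2]
    _ = (2 + t * Complex.I) * (∫ x in (0 : ℝ)..Y, (1 + t * Complex.I : ℂ) *
        ∫ y in (0 : ℝ)..Y, ((a + x + y : ℝ) : ℂ) ^ (t * Complex.I)) := by
        congr 1
        refine intervalIntegral.integral_congr (fun x hx => ?_)
        exact (hinner x hx).symm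
    _ = _ := by
        rw [intervalIntegral.integral_const_mul]
        ring

/-- **Representation of the tent** as second difference of the hinge:
`tent(m - n) = Y^(-2) (h(m+Y-n) - 2 h(m-n) + h(m-Y-n))`, `h(z) = max 0 z`. So
`gt t = (1/2π) Δ²_Y [z^(2+it)] (m) / (Y² (1+it)(2+it))`; `‖gt t‖ ≤ 4 (2m)²/(2π Y² (1+t²))`, and
`‖gt t‖ ≤ 1` because `Δ²_Y [z^(2+it)]/((1+it)(2+it)) = ∫_0^Y ∫_0^Y (m - Y + x + y)^(it) dx dy`
(with the appropriate order of differences). -/
theorem tent_rep (Y : ℕ) (m : ℤ) (hY : 1 ≤ Y) (hm : 2 * (Y : ℤ) ≤ m) :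
    ∃ gt : ℝ → ℂ, Continuous gt ∧ (∀ t, ‖gt t‖ ≤ 1) ∧
      (∀ t, ‖gt t‖ ≤ 10 * ((m : ℝ) / Y) ^ 2 / (1 + t ^ 2)) ∧
      ∀ n : ℕ, 1 ≤ n → ((tent Y (m - n) : ℝ) : ℂ) =
        ∫ t : ℝ, gt t * (n : ℂ) ^ (-(1 + t * Complex.I)) := by
  have hYr : (1 : ℝ) ≤ Y := by exact_mod_cast hY
  have hmr : 2 * (Y : ℝ) ≤ m := by exact_mod_cast hm
  have ha : 0 < (m : ℝ) - Y := by linarith
  have hm0 : 0 < (m : ℝ) := by linarith
  have hmY : 0 < (m : ℝ) + Y := by linarith
  set D : ℝ → ℂ := fun t => (((m : ℝ) + Y : ℝ) : ℂ) ^ (2 + t * Complex.I) -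
    2 * ((m : ℝ) : ℂ) ^ (2 + t * Complex.I) + (((m : ℝ) - Y : ℝ) : ℂ) ^ (2 + t * Complex.I) with hD
  have hPne : ∀ t : ℝ, ((1 + t * Complex.I) * (2 + t * Complex.I) : ℂ) ≠ 0 := by
    intro t
    refine mul_ne_zero ?_ ?_
    · intro h
      have := congrArg Complex.re h
      simp at this
    · intro h
      have := congrArg Complex.re h
      simp at this
  have hYne : ((Y : ℂ) ^ 2) ≠ 0 := by
    have : (Y : ℂ) ≠ 0 := by exact_mod_cast (by omega : Y ≠ 0)
    positivity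
  have hpi := Real.pi_gt_three
  refine ⟨fun t => 1 / (2 * Real.pi) * (D t / ((Y : ℂ) ^ 2 * ((1 + t * Complex.I) * (2 + t * Complex.I)))),
    ?_, ?_, ?_, ?_⟩
  · refine continuous_const.mul (Continuous.div ?_ (by fun_prop)
      (fun t => mul_ne_zero hYne (hPne t)))
    have hc : ∀ z : ℝ, 0 < z → Continuous (fun t : ℝ => (z : ℂ) ^ (2 + t * Complex.I)) := by
      intro z hz
      exact Continuous.const_cpow (by fun_prop) (Or.inl (by exact_mod_cast hz.ne'))
    exact ((hc _ hmY).sub (continuous_const.mul (hc _ hm0))).add (hc _ ha)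
  · intro t
    have h := TENT_double t ((m : ℝ) - Y) Y ha (by linarith)
    rw [show (m : ℝ) - Y + 2 * Y = m + Y by ring, show (m : ℝ) - Y + Y = m by ring] at h
    have h' : D t / ((Y : ℂ) ^ 2 * ((1 + t * Complex.I) * (2 + t * Complex.I))) =
        (∫ x in (0 : ℝ)..Y, ∫ y in (0 : ℝ)..Y, (((m : ℝ) - Y + x + y : ℝ) : ℂ) ^ (t * Complex.I)) /
          (Y : ℂ) ^ 2 := by
      rw [hD]
      simp only
      rw [h, mul_comm ((Y : ℂ) ^ 2), mul_div_mul_left _ _ (hPne t)]
    change ‖1 / (2 * Real.pi : ℂ) * (D t / ((Y : ℂ) ^ 2 *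
      ((1 + t * Complex.I) * (2 + t * Complex.I))))‖ ≤ 1
    rw [h']
    have hn1 : ∀ x : ℝ, x ∈ Set.uIoc 0 (Y : ℝ) →
        ‖∫ y in (0 : ℝ)..Y, (((m : ℝ) - Y + x + y : ℝ) : ℂ) ^ (t * Complex.I)‖ ≤ 1 * |(Y : ℝ) - 0| := by
      intro x hx
      rw [Set.uIoc_of_le (by linarith)] at hx
      refine intervalIntegral.norm_integral_le_of_norm_le_const (fun y hy => ?_)
      rw [Set.uIoc_of_le (by linarith)] at hy
      rw [Complex.norm_cpow_eq_rpow_re_of_pos (by linarith [hx.1, hy.1])]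
      simp
    have hn2 := intervalIntegral.norm_integral_le_of_norm_le_const hn1
    rw [sub_zero, abs_of_nonneg (by linarith)] at hn2
    rw [norm_mul, norm_div, norm_div, norm_pow, Complex.norm_natCast, norm_one, norm_mul]
    rw [Complex.norm_real, Real.norm_of_nonneg Real.pi_pos.le]
    have h2 : ‖(2 : ℂ)‖ = 2 := by simp
    rw [h2]
    have hq : ‖∫ x in (0 : ℝ)..Y, ∫ y in (0 : ℝ)..Y,
        (((m : ℝ) - Y + x + y : ℝ) : ℂ) ^ (t * Complex.I)‖ / (Y : ℝ) ^ 2 ≤ 1 := by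
      rw [div_le_one (by positivity)]
      nlinarith
    have hp1 : 1 / (2 * Real.pi) ≤ 1 := by
      rw [div_le_one (by positivity)]
      linarith
    calc 1 / (2 * Real.pi) * _ ≤ 1 * 1 := by
          refine mul_le_mul hp1 hq (by positivity) zero_le_one
      _ = 1 := one_mul 1
  · intro t
    have hnorm : ∀ z : ℝ, 0 < z → ‖(z : ℂ) ^ (2 + t * Complex.I)‖ = z ^ 2 := by
      intro z hz
      rw [Complex.norm_cpow_eq_rpow_re_of_pos hz]
      simp
    have hDn : ‖D t‖ ≤ 9 * (m : ℝ) ^ 2 := by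
      calc ‖D t‖ ≤ ‖(((m : ℝ) + Y : ℝ) : ℂ) ^ (2 + t * Complex.I)‖ +
            ‖2 * ((m : ℝ) : ℂ) ^ (2 + t * Complex.I)‖ +
            ‖(((m : ℝ) - Y : ℝ) : ℂ) ^ (2 + t * Complex.I)‖ := by
            refine (norm_add_le _ _).trans ?_
            gcongr
            exact norm_sub_le _ _
        _ = ((m : ℝ) + Y) ^ 2 + 2 * (m : ℝ) ^ 2 + ((m : ℝ) - Y) ^ 2 := by
            rw [norm_mul, hnorm _ hmY, hnorm _ hm0, hnorm _ ha]
            simp
        _ ≤ 9 * (m : ℝ) ^ 2 := by nlinarith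
    have hden : 1 + t ^ 2 ≤ ‖((1 + t * Complex.I) * (2 + t * Complex.I) : ℂ)‖ := by
      have hn : ∀ a : ℝ, ‖(a + t * Complex.I : ℂ)‖ ^ 2 = a ^ 2 + t ^ 2 := by
        intro a
        rw [← Complex.normSq_eq_norm_sq, Complex.normSq_add_mul_I]
      have h1 := hn 1
      have h2 := hn 2
      push_cast at h1 h2
      rw [norm_mul]
      have h4 : ‖(1 + t * Complex.I : ℂ)‖ ≤ ‖(2 + t * Complex.I : ℂ)‖ := by
        refine le_of_sq_le_sq ?_ (norm_nonneg _)
        rw [h1, h2]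
        nlinarith
      nlinarith [norm_nonneg (1 + t * Complex.I : ℂ)]
    change ‖1 / (2 * Real.pi : ℂ) * (D t / ((Y : ℂ) ^ 2 *
      ((1 + t * Complex.I) * (2 + t * Complex.I))))‖ ≤ _
    rw [norm_mul, norm_div, norm_div, norm_mul, norm_mul ((Y : ℂ) ^ 2), norm_pow,
      Complex.norm_natCast, norm_one,
      Complex.norm_real, Real.norm_of_nonneg Real.pi_pos.le]
    have h2 : ‖(2 : ℂ)‖ = 2 := by simp
    rw [h2]
    have hp1 : 1 / (2 * Real.pi) ≤ 1 := by
      rw [div_le_one (by positivity)]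
      linarith
    have hYpos : (0 : ℝ) < Y := by linarith
    calc 1 / (2 * Real.pi) * (‖D t‖ / ((Y : ℝ) ^ 2 * ‖((1 + t * Complex.I) * (2 + t * Complex.I) : ℂ)‖))
        ≤ 1 * (9 * (m : ℝ) ^ 2 / ((Y : ℝ) ^ 2 * (1 + t ^ 2))) := by
          gcongr
      _ ≤ 10 * ((m : ℝ) / Y) ^ 2 / (1 + t ^ 2) := by
          rw [one_mul, div_pow, mul_div_assoc', div_div]
          gcongr
          norm_num
  · intro n hn
    have hnr : 0 < (n : ℝ) := by exact_mod_cast hn
    obtain ⟨hi1, he1⟩ := mellin_hinge ((m : ℝ) + Y) hmY n hnr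
    obtain ⟨hi2, he2⟩ := mellin_hinge (m : ℝ) hm0 n hnr
    obtain ⟨hi3, he3⟩ := mellin_hinge ((m : ℝ) - Y) ha n hnr
    have ht : tent Y (m - n) = (max 0 ((m : ℝ) + Y - n) - 2 * max 0 ((m : ℝ) - n) +
        max 0 ((m : ℝ) - Y - n)) / (Y : ℝ) ^ 2 := by
      unfold tent
      push_cast
      rw [TENT_second_diff (Y : ℝ) ((m : ℝ) - n) (by linarith)]
      rw [show (m : ℝ) - n + Y = m + Y - n by ring, show (m : ℝ) - n - Y = m - Y - n by ring]
    have hpi' : (2 * Real.pi : ℂ) ≠ 0 := by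
      simp [Real.pi_ne_zero]
    simp only [Complex.ofReal_natCast] at hi1 hi2 hi3 he1 he2 he3
    rw [ht, Complex.ofReal_div, Complex.ofReal_add, Complex.ofReal_sub, Complex.ofReal_mul, he1,
      he2, he3, Complex.ofReal_pow, Complex.ofReal_natCast, Complex.ofReal_ofNat]
    have hABC : ∀ A B C : ℂ, (1 / (2 * (Real.pi : ℂ)) * A - 2 * (1 / (2 * (Real.pi : ℂ)) * B) +
      1 / (2 * (Real.pi : ℂ)) * C) / (Y : ℂ) ^ 2 =
      1 / (2 * (Real.pi : ℂ)) / (Y : ℂ) ^ 2 * (A - 2 * B + C) := by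
      intro A B C
      ring
    rw [hABC]
    set F1 : ℝ → ℂ := fun t => (((m : ℝ) + Y : ℝ) : ℂ) ^ (2 + t * Complex.I) *
      (n : ℂ) ^ (-(1 + t * Complex.I)) / ((1 + t * Complex.I) * (2 + t * Complex.I)) with hF1
    set F2 : ℝ → ℂ := fun t => ((m : ℝ) : ℂ) ^ (2 + t * Complex.I) *
      (n : ℂ) ^ (-(1 + t * Complex.I)) / ((1 + t * Complex.I) * (2 + t * Complex.I)) with hF2
    set F3 : ℝ → ℂ := fun t => (((m : ℝ) - Y : ℝ) : ℂ) ^ (2 + t * Complex.I) *
      (n : ℂ) ^ (-(1 + t * Complex.I)) / ((1 + t * Complex.I) * (2 + t * Complex.I)) with hF3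
    have hs : (∫ t, F1 t) - 2 * (∫ t, F2 t) + ∫ t, F3 t = ∫ t, (F1 t - 2 * F2 t + F3 t) := by
      have hi12 : Integrable (fun t => F1 t - 2 * F2 t) := hi1.sub (hi2.const_mul 2)
      rw [integral_add hi12 hi3, integral_sub hi1 (hi2.const_mul 2), integral_const_mul]
    rw [hs, ← integral_const_mul]
    refine integral_congr_ae (Filter.Eventually.of_forall (fun t => ?_))
    simp only [hD, hF1, hF2, hF3]
    have := hPne t
    field_simp

end Pool.Agent.Lib.H68T
end

-- from Lib.H68T.BPS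
section

/-!
# Chunk BPS: the local averages `B_ψ(m)` bounded by the `L¹` norm of `F_ψ`
-/

open Finset MeasureTheory

namespace Pool.Agent.Lib.H68T

/-! ### The weight `v` -/

theorem BPS_w_nonneg (y : ℝ) : 0 ≤ w y :=
  mul_nonneg (Real.smoothTransition.nonneg _) (Real.smoothTransition.nonneg _)

theorem BPS_w_le_one (y : ℝ) : w y ≤ 1 :=
  mul_le_one₀ (Real.smoothTransition.le_one _) (Real.smoothTransition.nonneg _)
    (Real.smoothTransition.le_one _)

theorem BPS_w_eq_one {y : ℝ} (h1 : -1 ≤ y) (h2 : y ≤ 3) : w y = 1 := by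
  unfold w
  rw [Real.smoothTransition.one_of_one_le (by linarith),
    Real.smoothTransition.one_of_one_le (by linarith), one_mul]

theorem BPS_w_eq_zero {y : ℝ} (h1 : y ≤ -2) : w y = 0 := by
  unfold w
  rw [Real.smoothTransition.zero_of_nonpos (by linarith), zero_mul]

theorem BPS_v_nonneg (X m : ℕ) : 0 ≤ v X m := BPS_w_nonneg _

theorem BPS_v_le_one (X m : ℕ) : v X m ≤ 1 := BPS_w_le_one _

/-- `v(m)/m ≤ 9/X` -/
theorem BPS_v_div_le {X m : ℕ} (hX : 1 ≤ X) (hm : 1 ≤ m) : v X m / m ≤ 9 / X := by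
  have hX' : (0:ℝ) < X := by exact_mod_cast hX
  have hm' : (0:ℝ) < m := by exact_mod_cast hm
  rcases le_or_gt (Real.log ((m:ℝ) / X)) (-2) with h | h
  · have : v X m = 0 := BPS_w_eq_zero h
    rw [this, zero_div]; positivity
  · have h1 : Real.exp (-2) < (m:ℝ) / X := (Real.lt_log_iff_exp_lt (by positivity)).mp h
    have h2 : (1:ℝ) / 9 ≤ Real.exp (-2) := by
      rw [Real.exp_neg, one_div]
      apply inv_anti₀ (Real.exp_pos _)
      have : Real.exp 2 = Real.exp 1 ^ 2 := by rw [← Real.exp_nat_mul]; norm_num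
      rw [this]
      have h3 := Real.exp_one_lt_d9
      have h4 := Real.exp_pos 1
      nlinarith
    have h3 : (1:ℝ) / 9 < (m:ℝ) / X := lt_of_le_of_lt h2 h1
    rw [div_lt_div_iff₀ (by norm_num) hX'] at h3
    rw [div_le_div_iff₀ hm' hX']
    have := BPS_v_le_one X m
    have h0 := BPS_v_nonneg X m
    nlinarith

theorem BPS_norm_cpow {m : ℕ} (hm : 1 ≤ m) (t : ℝ) :
    ‖(m : ℂ) ^ (-(1 + t * Complex.I))‖ = 1 / (m:ℝ) := by
  have hm' : (0:ℝ) < m := by exact_mod_cast hm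
  have h := Complex.norm_cpow_eq_rpow_re_of_pos hm' (-(1 + t * Complex.I))
  have h2 : ((m:ℝ) : ℂ) = (m : ℂ) := by norm_cast
  rw [h2] at h
  rw [h]
  have : (-(1 + (t:ℂ) * Complex.I)).re = -1 := by simp
  rw [this, Real.rpow_neg_one, one_div]

/-- A general bound for the weighted polynomials. -/
theorem BPS_FF_le {X : ℕ} (hX : 1 ≤ X) (h : ℕ → ℂ) {D : ℝ}
    (hD : ∑ m ∈ Icc 1 (60 * X), ‖h m‖ ≤ D * X) (t : ℝ) : ‖FF X h t‖ ≤ 9 * D := by
  have hX' : (0:ℝ) < X := by exact_mod_cast hX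
  unfold FF
  calc ‖∑ m ∈ Icc 1 (60 * X), h m * (v X m : ℂ) * (m : ℂ) ^ (-(1 + t * Complex.I))‖
      ≤ ∑ m ∈ Icc 1 (60 * X), ‖h m * (v X m : ℂ) * (m : ℂ) ^ (-(1 + t * Complex.I))‖ :=
        norm_sum_le _ _
    _ ≤ ∑ m ∈ Icc 1 (60 * X), ‖h m‖ * (9 / X) := by
        apply Finset.sum_le_sum
        intro m hm
        rw [mem_Icc] at hm
        rw [norm_mul, norm_mul, BPS_norm_cpow hm.1, mul_assoc]
        apply mul_le_mul_of_nonneg_left _ (norm_nonneg _)
        rw [Complex.norm_real, Real.norm_of_nonneg (BPS_v_nonneg X m), mul_one_div]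
        exact BPS_v_div_le hX hm.1
    _ = (∑ m ∈ Icc 1 (60 * X), ‖h m‖) * (9 / X) := by rw [Finset.sum_mul]
    _ ≤ (D * X) * (9 / X) := mul_le_mul_of_nonneg_right hD (by positivity)
    _ = 9 * D := by field_simp

/-- Chebyshev -/
theorem BPS_sum_vM {X : ℕ} : ∑ m ∈ Icc 1 (60 * X), ArithmeticFunction.vonMangoldt m ≤ 600 * X := by
  have h1 := Chebyshev.psi_le_const_mul_self (x := ((60 * X : ℕ) : ℝ)) (by positivity)
  have h2 : Chebyshev.psi ((60 * X : ℕ) : ℝ) =
      ∑ m ∈ Icc 1 (60 * X), ArithmeticFunction.vonMangoldt m := by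
    unfold Chebyshev.psi
    rw [Nat.floor_natCast]
    rfl
  rw [← h2]
  refine h1.trans ?_
  have h4 : Real.log 4 ≤ 2 := by
    have : (4:ℝ) = 2 ^ 2 := by norm_num
    rw [this, Real.log_pow]
    have := Real.log_two_lt_d9
    push_cast
    linarith
  push_cast
  have : (0:ℝ) ≤ X := by positivity
  nlinarith

theorem BPS_sum_norm {X : ℕ} (p : Σ r : ℕ, DirichletCharacter ℂ r) :
    ∑ m ∈ Icc 1 (60 * X), ‖(ArithmeticFunction.vonMangoldt m : ℂ) * p.2 (m : ZMod p.1)‖ ≤
      600 * X := by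
  refine le_trans (Finset.sum_le_sum fun m _ => ?_) (BPS_sum_vM (X := X))
  rw [norm_mul, Complex.norm_real, Real.norm_of_nonneg ArithmeticFunction.vonMangoldt_nonneg]
  calc _ ≤ ArithmeticFunction.vonMangoldt m * 1 :=
        mul_le_mul_of_nonneg_left (DirichletCharacter.norm_le_one _ _)
          ArithmeticFunction.vonMangoldt_nonneg
    _ = _ := mul_one _


theorem BPS_continuous_cpow {m : ℕ} (hm : 1 ≤ m) :
    Continuous fun t : ℝ => (m : ℂ) ^ (-(1 + t * Complex.I)) := by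
  have hm' : (m : ℂ) ≠ 0 := by
    have : m ≠ 0 := by omega
    exact_mod_cast this
  exact Continuous.const_cpow (by fun_prop) (Or.inl hm')

theorem continuous_FF (X : ℕ) (h : ℕ → ℂ) : Continuous (FF X h) := by
  unfold FF
  apply continuous_finsetSum
  intro m hm
  rw [mem_Icc] at hm
  exact continuous_const.mul (BPS_continuous_cpow hm.1)

/-! ### Integrability -/

theorem BPS_integrable_inv {g : ℝ → ℂ} (hg : Continuous g) {D : ℝ}
    (hD : ∀ t, ‖g t‖ ≤ D / (1 + t ^ 2)) : Integrable g := by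
  have h1 : Integrable fun t : ℝ => D * (1 + t ^ 2)⁻¹ := integrable_inv_one_add_sq.const_mul D
  refine h1.mono' hg.aestronglyMeasurable (Filter.Eventually.of_forall fun t => ?_)
  rw [← div_eq_mul_inv]
  exact hD t

/-- Tail of `1/(1+t²)`. -/
theorem BPS_tail {T : ℝ} (hT : 0 < T) :
    ∫ t in (Set.Icc (-T) T)ᶜ, (1 + t ^ 2)⁻¹ ≤ 2 / T := by
  have h1 : (Set.Icc (-T) T)ᶜ = Set.Iio (-T) ∪ Set.Ioi T := by
    ext t
    simp only [Set.mem_compl_iff, Set.mem_Icc, not_and_or, not_le, Set.mem_union, Set.mem_Iio,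
      Set.mem_Ioi]
  have hI : Integrable fun t : ℝ => (1 + t ^ 2)⁻¹ := integrable_inv_one_add_sq
  rw [h1, setIntegral_union _ measurableSet_Ioi hI.integrableOn hI.integrableOn]
  · have hpos : ∫ t in Set.Ioi T, (1 + t ^ 2)⁻¹ ≤ 1 / T := by
      have hi : IntegrableOn (fun t : ℝ => t ^ (-2 : ℝ)) (Set.Ioi T) :=
        integrableOn_Ioi_rpow_of_lt (by norm_num) hT
      have e := integral_Ioi_rpow_of_lt (a := -2) (by norm_num) hT
      calc ∫ t in Set.Ioi T, (1 + t ^ 2)⁻¹ ≤ ∫ t in Set.Ioi T, t ^ (-2 : ℝ) := by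
            apply setIntegral_mono_on hI.integrableOn hi measurableSet_Ioi
            intro t ht
            have ht' : 0 < t := hT.trans ht
            rw [Real.rpow_neg ht'.le, show (2:ℝ) = ((2:ℕ):ℝ) by norm_num, Real.rpow_natCast]
            apply inv_anti₀ (by positivity)
            linarith
        _ = 1 / T := by
            rw [e]
            have : (-2 + 1 : ℝ) = -1 := by norm_num
            rw [this, Real.rpow_neg_one]
            field_simp
    have hneg : ∫ t in Set.Iio (-T), (1 + t ^ 2)⁻¹ = ∫ t in Set.Ioi T, (1 + t ^ 2)⁻¹ := by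
      have := integral_comp_neg_Ioi (c := T) (f := fun t : ℝ => (1 + t ^ 2)⁻¹)
      rw [← integral_Iic_eq_integral_Iio, ← this]
      apply integral_congr_ae
      exact Filter.Eventually.of_forall fun t => by simp
    rw [hneg]
    have : 2 / T = 1 / T + 1 / T := by ring
    linarith
  · rw [Set.disjoint_left]
    intro t ht1 ht2
    simp only [Set.mem_Iio, Set.mem_Ioi] at ht1 ht2
    linarith

theorem BPS_tent_nonneg (Y : ℕ) (z : ℤ) : 0 ≤ tent Y z := by
  unfold tent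
  positivity

theorem BPS_tent_le (Y : ℕ) (z : ℤ) : tent Y z ≤ 1 / Y := by
  unfold tent
  rcases Nat.eq_zero_or_pos Y with h | h
  · subst h; simp
  have hY : (0:ℝ) < Y := by exact_mod_cast h
  rw [div_le_div_iff₀ (by positivity) hY]
  have : max 0 ((Y : ℝ) - |(z : ℝ)|) ≤ Y := max_le hY.le (by linarith [abs_nonneg (z:ℝ)])
  nlinarith

theorem BPS_tent_zero {Y : ℕ} {z : ℤ} (h : (Y:ℤ) ≤ |z|) : tent Y z = 0 := by
  unfold tent
  have h' : (Y:ℝ) ≤ |(z:ℝ)| := by exact_mod_cast h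
  rw [max_eq_left (by linarith), zero_div]

/-- The weight is `1` on the support of the tent. -/
theorem BPS_v_mul_tent {X Y : ℕ} (hX : 1 ≤ X) (hYX : 2 * Y ≤ X) {m : ℤ} (hm1 : (X : ℤ) ≤ m)
    (hm2 : m ≤ 4 * X) (n : ℕ) : v X n * tent Y (m - n) = tent Y (m - n) := by
  rcases le_or_gt (Y:ℤ) |m - n| with h | h
  · rw [BPS_tent_zero h, mul_zero]
  · rw [abs_lt] at h
    have hX' : (0:ℝ) < X := by exact_mod_cast hX
    have h1 : (X:ℤ) ≤ 2 * n := by omega
    have h2 : (n:ℤ) ≤ 5 * X := by omega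
    have h1' : (X:ℝ) ≤ 2 * n := by exact_mod_cast h1
    have h2' : (n:ℝ) ≤ 5 * X := by exact_mod_cast h2
    have h3 : (1:ℝ) / 2 ≤ (n:ℝ) / X := by
      rw [div_le_div_iff₀ (by norm_num) hX']; linarith
    have h4 : (n:ℝ) / X ≤ 5 := by rw [div_le_iff₀ hX']; linarith
    have h5 : v X n = 1 := by
      apply BPS_w_eq_one
      · have := Real.log_le_log (by norm_num) h3
        rw [one_div, Real.log_inv] at this
        have := Real.log_two_lt_d9
        linarith
      · have := Real.log_le_log (by linarith) h4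
        have h8 : Real.log 5 ≤ Real.log (2 ^ 3) := Real.log_le_log (by norm_num) (by norm_num)
        rw [Real.log_pow] at h8
        have := Real.log_two_lt_d9
        push_cast at h8
        linarith
    rw [h5, one_mul]

/-- General statement: the average of `h` against the tent. -/
theorem BPS_general {Q X Y : ℕ} (hQ : 1 ≤ Q) (hX : 1 ≤ X) (hY : 1 ≤ Y)
    (hYX : 2 * Y ≤ X) (hYQ : (X : ℝ) ≤ 2 * Q ^ 2 * Y) (h : ℕ → ℂ) {D : ℝ} (hD0 : 0 ≤ D)
    (hD : ∑ n ∈ Icc 1 (60 * X), ‖h n‖ ≤ D * X) (m : ℤ) (hm1 : (X : ℤ) ≤ m) (hm2 : m ≤ 4 * X) :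
    ‖∑ n ∈ Icc 1 (60 * X), h n * (tent Y (m - n) : ℂ)‖ ≤
      (∫ t in (-(Q : ℝ) ^ 7)..((Q : ℝ) ^ 7), ‖FF X h t‖) + 11520 * D / (Q : ℝ) ^ 3 := by
  have hQ' : (0:ℝ) < Q := by exact_mod_cast hQ
  have hX' : (0:ℝ) < X := by exact_mod_cast hX
  have hY' : (0:ℝ) < Y := by exact_mod_cast hY
  have hm1' : (X:ℝ) ≤ m := by exact_mod_cast hm1
  have hm2' : (m:ℝ) ≤ 4 * X := by exact_mod_cast hm2
  obtain ⟨gt, hc, hb1, hb2, hrep⟩ := tent_rep Y m hY (by omega)
  set E : ℝ := 10 * ((m : ℝ) / Y) ^ 2 with hE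
  have hE0 : 0 ≤ E := by positivity
  have hmY : (m:ℝ) / Y ≤ 8 * Q ^ 2 := by
    rw [div_le_iff₀ hY']; nlinarith
  have hE1 : E ≤ 640 * Q ^ 4 := by
    have h0 : 0 ≤ (m:ℝ) / Y := div_nonneg (by linarith) hY'.le
    have : ((m:ℝ) / Y) ^ 2 ≤ (8 * Q ^ 2) ^ 2 := by gcongr
    rw [hE]; nlinarith
  have hFF := BPS_FF_le hX h hD
  have hFc := continuous_FF X h
  -- the identity
  have key : ∑ n ∈ Icc 1 (60 * X), h n * (tent Y (m - n) : ℂ) = ∫ t : ℝ, gt t * FF X h t := by
    have h1 : ∀ n ∈ Icc 1 (60 * X), h n * (tent Y (m - n) : ℂ) =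
        ∫ t : ℝ, gt t * (h n * (v X n : ℂ) * (n : ℂ) ^ (-(1 + t * Complex.I))) := by
      intro n hn
      rw [mem_Icc] at hn
      have h2 : (tent Y (m - n) : ℂ) = (v X n : ℂ) * (tent Y (m - n) : ℂ) := by
        rw [← Complex.ofReal_mul, BPS_v_mul_tent hX hYX hm1 hm2]
      rw [h2, hrep n hn.1, ← mul_assoc, ← integral_const_mul]
      apply integral_congr_ae
      exact Filter.Eventually.of_forall fun t => by ring
    rw [Finset.sum_congr rfl h1, ← integral_finsetSum]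
    · apply integral_congr_ae
      refine Filter.Eventually.of_forall fun t => ?_
      simp only [FF]
      rw [Finset.mul_sum]
    · intro n hn
      rw [mem_Icc] at hn
      have hcc := BPS_continuous_cpow hn.1
      apply BPS_integrable_inv (D := E * ‖h n * (v X n : ℂ)‖)
      · fun_prop
      · intro t
        rw [norm_mul, norm_mul (h n * (v X n : ℂ)), BPS_norm_cpow hn.1]
        have hn' : (1:ℝ) ≤ n := by exact_mod_cast hn.1
        have h3 : 1 / (n:ℝ) ≤ 1 := by rw [div_le_one (by linarith)]; exact hn'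
        calc ‖gt t‖ * (‖h n * (v X n : ℂ)‖ * (1 / (n:ℝ)))
            ≤ (E / (1 + t ^ 2)) * (‖h n * (v X n : ℂ)‖ * 1) := by
              apply mul_le_mul (hb2 t) _ (by positivity) (by positivity)
              exact mul_le_mul_of_nonneg_left h3 (norm_nonneg _)
          _ = _ := by ring
  have hint : Integrable fun t : ℝ => gt t * FF X h t := by
    apply BPS_integrable_inv (D := E * (9 * D)) (by fun_prop)
    intro t
    rw [norm_mul]
    calc ‖gt t‖ * ‖FF X h t‖ ≤ (E / (1 + t ^ 2)) * (9 * D) :=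
          mul_le_mul (hb2 t) (hFF t) (norm_nonneg _) (by positivity)
      _ = _ := by ring
  set T : ℝ := (Q:ℝ) ^ 7 with hT
  have hT0 : 0 < T := by positivity
  rw [key, ← integral_add_compl (measurableSet_Icc (a := -T) (b := T)) hint]
  refine (norm_add_le _ _).trans ?_
  apply add_le_add
  · rw [intervalIntegral.integral_of_le (by linarith), ← integral_Icc_eq_integral_Ioc]
    refine (norm_integral_le_integral_norm _).trans ?_
    apply setIntegral_mono_on hint.norm.integrableOn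
    · exact (hFc.norm.continuousOn).integrableOn_compact isCompact_Icc
    · exact measurableSet_Icc
    · intro t _
      rw [norm_mul]
      calc ‖gt t‖ * ‖FF X h t‖ ≤ 1 * ‖FF X h t‖ :=
            mul_le_mul_of_nonneg_right (hb1 t) (norm_nonneg _)
        _ = _ := one_mul _
  · have hI : Integrable fun t : ℝ => E * (9 * D) * (1 + t ^ 2)⁻¹ :=
      integrable_inv_one_add_sq.const_mul _
    calc ‖∫ t in (Set.Icc (-T) T)ᶜ, gt t * FF X h t‖
        ≤ ∫ t in (Set.Icc (-T) T)ᶜ, ‖gt t * FF X h t‖ := norm_integral_le_integral_norm _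
      _ ≤ ∫ t in (Set.Icc (-T) T)ᶜ, E * (9 * D) * (1 + t ^ 2)⁻¹ := by
          apply setIntegral_mono_on hint.norm.integrableOn hI.integrableOn
            measurableSet_Icc.compl
          intro t _
          rw [norm_mul]
          calc ‖gt t‖ * ‖FF X h t‖ ≤ (E / (1 + t ^ 2)) * (9 * D) :=
                mul_le_mul (hb2 t) (hFF t) (norm_nonneg _) (by positivity)
            _ = _ := by ring
      _ = E * (9 * D) * ∫ t in (Set.Icc (-T) T)ᶜ, (1 + t ^ 2)⁻¹ := integral_const_mul _ _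
      _ ≤ (640 * Q ^ 4) * (9 * D) * (2 / T) := by
          apply mul_le_mul _ (BPS_tail hT0)
          · apply setIntegral_nonneg measurableSet_Icc.compl
            intro t _; positivity
          · positivity
          · exact mul_le_mul_of_nonneg_right hE1 (by positivity)
      _ = 11520 * D / (Q:ℝ) ^ 3 := by
          rw [hT]
          field_simp
          ring

/-! ### Total mass of the tent -/

theorem BPS_mass_aux (N : ℕ) : ∀ Y : ℕ, Y ≤ N →
    ∑ z ∈ Ioo (-(N : ℤ)) N, max 0 ((Y : ℝ) - |(z : ℝ)|) = (Y : ℝ) ^ 2 := by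
  intro Y
  induction Y with
  | zero =>
    intro _
    simp
  | succ Y ih =>
    intro hY
    have ih' := ih (by omega)
    have h1 : ∀ z ∈ Ioo (-(N : ℤ)) N, max 0 (((Y + 1 : ℕ) : ℝ) - |(z : ℝ)|) =
        max 0 ((Y : ℝ) - |(z : ℝ)|) + if |z| ≤ (Y:ℤ) then (1:ℝ) else 0 := by
      intro z _
      have hc : ((Y + 1 : ℕ) : ℝ) = (Y:ℝ) + 1 := by push_cast; ring
      rw [hc]
      split_ifs with h
      · have h' : |(z:ℝ)| ≤ Y := by exact_mod_cast h
        rw [max_eq_right (by linarith), max_eq_right (by linarith)]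
        ring
      · have h2 : (Y:ℤ) + 1 ≤ |z| := by omega
        have h' : (Y:ℝ) + 1 ≤ |(z:ℝ)| := by exact_mod_cast h2
        rw [max_eq_left (by linarith), max_eq_left (by linarith)]
        ring
    rw [Finset.sum_congr rfl h1, Finset.sum_add_distrib, ih', ← Finset.sum_filter]
    have h2 : (Ioo (-(N : ℤ)) N).filter (fun z => |z| ≤ (Y:ℤ)) = Icc (-(Y:ℤ)) Y := by
      ext z
      simp only [mem_filter, mem_Ioo, mem_Icc, abs_le]
      omega
    rw [h2, Finset.sum_const, Int.card_Icc, nsmul_eq_mul, mul_one]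
    have h3 : (Y:ℤ) + 1 - -(Y:ℤ) = ((2 * Y + 1 : ℕ) : ℤ) := by push_cast; ring
    rw [h3, Int.toNat_natCast]
    push_cast; ring

theorem BPS_mass {X Y : ℕ} (hY : 1 ≤ Y) (hYX : 2 * Y ≤ X) {m : ℤ} (hm1 : (X : ℤ) ≤ m)
    (hm2 : m ≤ 4 * X) : ∑ n ∈ Icc 1 (60 * X), tent Y (m - n) = 1 := by
  have hY' : (0:ℝ) < Y := by exact_mod_cast hY
  have h0 : ∑ z ∈ Ioo (-(Y : ℤ)) Y, tent Y z = 1 := by
    unfold tent
    rw [← Finset.sum_div, BPS_mass_aux Y Y le_rfl]
    field_simp
  rw [← h0]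
  have h1 : ∑ n ∈ (Icc 1 (60 * X)).filter (fun n : ℕ => |m - n| < Y), tent Y (m - n) =
      ∑ n ∈ Icc 1 (60 * X), tent Y (m - n) := by
    apply Finset.sum_subset (Finset.filter_subset _ _)
    intro n hn hn'
    rw [mem_filter, not_and, not_lt] at hn'
    exact BPS_tent_zero (hn' hn)
  rw [← h1]
  apply Finset.sum_nbij' (fun n : ℕ => m - n) (fun z => (m - z).toNat)
  · intro n hn
    rw [mem_filter, abs_lt] at hn
    rw [mem_Ioo]
    omega
  · intro z hz
    rw [mem_Ioo] at hz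
    rw [mem_filter, mem_Icc, abs_lt]
    omega
  · intro n hn
    rw [mem_filter, abs_lt] at hn
    omega
  · intro z hz
    rw [mem_Ioo] at hz
    omega
  · intro n _
    rfl

/-! ### Prime powers -/

theorem BPS_lp_le (n : ℕ) : lp n ≤ ArithmeticFunction.vonMangoldt n := by
  unfold lp
  split_ifs with h
  · rw [Int.toNat_natCast] at h
    rw [ArithmeticFunction.vonMangoldt_apply_prime h]
    simp
  · exact ArithmeticFunction.vonMangoldt_nonneg

theorem BPS_prime_powers (X : ℕ) (hX : 1 ≤ X) :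
    ∑ n ∈ Icc 1 (60 * X), (ArithmeticFunction.vonMangoldt n - lp n) ≤
      2 * √((60 * X : ℕ) : ℝ) * Real.log ((60 * X : ℕ) : ℝ) := by
  have h1 := Chebyshev.psi_sub_theta_le (x := ((60 * X : ℕ) : ℝ)) (by
    have : 1 ≤ 60 * X := by omega
    exact_mod_cast this)
  rw [Chebyshev.psi_sub_theta_eq_sum_not_prime, Nat.floor_natCast] at h1
  refine le_trans (le_of_eq ?_) h1
  rw [Finset.sum_filter]
  apply Finset.sum_congr rfl
  intro n _
  unfold lp
  rw [Int.toNat_natCast]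
  by_cases h : n.Prime
  · simp [h, ArithmeticFunction.vonMangoldt_apply_prime h]
  · simp [h]

/-- Replacing the primes by the von Mangoldt function. -/
theorem BPS_replace {X Y : ℕ} (hX : 1 ≤ X) (u : ℕ → ℂ) (hu : ∀ n, ‖u n‖ ≤ 1) (m : ℤ) :
    ‖∑ n ∈ Icc 1 (60 * X), ((lp n * tent Y (m - n) : ℝ) : ℂ) * u n -
      ∑ n ∈ Icc 1 (60 * X), (ArithmeticFunction.vonMangoldt n : ℂ) * u n * (tent Y (m - n) : ℂ)‖ ≤
      (1 / Y) * (2 * √((60 * X : ℕ) : ℝ) * Real.log ((60 * X : ℕ) : ℝ)) := by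
  rw [← Finset.sum_sub_distrib]
  refine (norm_sum_le _ _).trans ?_
  refine le_trans ?_ (mul_le_mul_of_nonneg_left (BPS_prime_powers X hX) (by positivity))
  rw [Finset.mul_sum]
  apply Finset.sum_le_sum
  intro n _
  have h1 : ((lp n * tent Y (m - n) : ℝ) : ℂ) * u n -
      (ArithmeticFunction.vonMangoldt n : ℂ) * u n * (tent Y (m - n) : ℂ) =
      ((tent Y (m - n) * (lp n - ArithmeticFunction.vonMangoldt n) : ℝ) : ℂ) * u n := by
    push_cast; ring
  rw [h1, norm_mul, Complex.norm_real, norm_mul, Real.norm_of_nonneg (BPS_tent_nonneg _ _),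
    Real.norm_of_nonpos (by linarith [BPS_lp_le n]), neg_sub]
  calc tent Y (m - n) * (ArithmeticFunction.vonMangoldt n - lp n) * ‖u n‖
      ≤ tent Y (m - n) * (ArithmeticFunction.vonMangoldt n - lp n) * 1 := by
        apply mul_le_mul_of_nonneg_left (hu n)
        exact mul_nonneg (BPS_tent_nonneg _ _) (by linarith [BPS_lp_le n])
    _ ≤ 1 / Y * (ArithmeticFunction.vonMangoldt n - lp n) := by
        rw [mul_one]
        exact mul_le_mul_of_nonneg_right (BPS_tent_le _ _) (by linarith [BPS_lp_le n])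




end Pool.Agent.Lib.H68T
end
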