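import Pool.Agent.Lib.H59M.M2.M006
import Pool.Agent.Lib.H59M.M2.M014
import Pool.Agent.Lib.H59M.M2.M016

/-! Merged copies (to shorten the build) of Lib.H68T.CG2, Lib.H68T.HBI, Lib.H68T.HDEC, Lib.H68T.KER, Lib.H68T.GAM1, Lib.H68T.GAM2. -/

-- from Lib.H68T.CG2
section

/-!
# Chunk CG2: mean of the model `G` along a class, and the second moment of `dQ`
-/

open Finset

namespace Pool.Agent.Lib.H68T



theorem cg2_sum_inv (Q : ℕ) : ∑ e ∈ Icc 1 Q, 1 / (e : ℝ) ≤ 1 + Real.log Q := by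
  have h := harmonic_le_one_add_log Q
  rw [harmonic_eq_sum_Icc] at h
  push_cast at h
  simpa [one_div] using h

theorem cg2_sum_multiples (Q g : ℕ) (hg : 0 < g) :
    ∑ e ∈ Icc 1 Q, (if g ∣ e then 1 / (e : ℝ) else 0) ≤ 1 / (g : ℝ) * (1 + Real.log Q) := by
  rw [← sum_filter]
  have hsub : (Icc 1 Q).filter (fun e => g ∣ e) ⊆ (Icc 1 Q).image (fun k => g * k) := by
    intro e he
    rw [mem_filter, mem_Icc] at he
    obtain ⟨⟨h1, h2⟩, k, hk⟩ := he
    rw [mem_image]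
    refine ⟨k, ?_, hk.symm⟩
    rw [mem_Icc]
    subst hk
    refine ⟨Nat.pos_of_mul_pos_left h1 |> fun h => ?_, ?_⟩
    · rcases Nat.eq_zero_or_pos k with h0 | h0
      · subst h0
        omega
      · exact h0
    · exact (Nat.le_mul_of_pos_left k hg).trans h2
  have hinj : Set.InjOn (fun k : ℕ => g * k) (Icc 1 Q : Finset ℕ) := by
    intro x _ y _ hxy
    exact Nat.eq_of_mul_eq_mul_left hg hxy
  calc ∑ e ∈ (Icc 1 Q).filter (fun e => g ∣ e), 1 / (e : ℝ)
      ≤ ∑ e ∈ (Icc 1 Q).image (fun k => g * k), 1 / (e : ℝ) := by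
        apply sum_le_sum_of_subset_of_nonneg hsub
        intro i _ _
        positivity
    _ = ∑ k ∈ Icc 1 Q, 1 / ((g * k : ℕ) : ℝ) := sum_image hinj
    _ = 1 / (g : ℝ) * ∑ k ∈ Icc 1 Q, 1 / (k : ℝ) := by
        rw [mul_sum]
        apply sum_congr rfl
        intro k _
        push_cast
        rw [one_div_mul_one_div]
    _ ≤ _ := mul_le_mul_of_nonneg_left (cg2_sum_inv Q) (by positivity)

theorem cg2_gcd_sum (Q : ℕ) :
    ∑ e₁ ∈ Icc 1 Q, ∑ e₂ ∈ Icc 1 Q, ((Nat.gcd e₁ e₂ : ℝ) / ((e₁ : ℝ) * e₂)) ≤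
      (1 + Real.log Q) ^ 3 := by
  have hlog : 0 ≤ Real.log Q := by positivity
  have h1 : ∀ e₁ ∈ Icc 1 Q, ∀ e₂ ∈ Icc 1 Q, ((Nat.gcd e₁ e₂ : ℝ) / ((e₁ : ℝ) * e₂)) =
      ∑ g ∈ Icc 1 Q, (Nat.totient g : ℝ) * ((if g ∣ e₁ then 1 / (e₁ : ℝ) else 0) *
        (if g ∣ e₂ then 1 / (e₂ : ℝ) else 0)) := by
    intro e₁ he₁ e₂ he₂
    rw [mem_Icc] at he₁ he₂
    have h2 : ((Nat.gcd e₁ e₂ : ℕ) : ℝ) = ∑ g ∈ (Nat.gcd e₁ e₂).divisors, (Nat.totient g : ℝ) := by
      have := congrArg (fun n : ℕ => (n : ℝ)) (Nat.sum_totient (Nat.gcd e₁ e₂)).symm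
      push_cast at this
      exact_mod_cast this
    have h3 : (Nat.gcd e₁ e₂).divisors = (Icc 1 Q).filter (fun g => g ∣ e₁ ∧ g ∣ e₂) := by
      ext g
      simp only [Nat.mem_divisors, mem_filter, mem_Icc, Nat.dvd_gcd_iff]
      constructor
      · rintro ⟨⟨a, b⟩, -⟩
        exact ⟨⟨Nat.pos_of_dvd_of_pos a he₁.1, (Nat.le_of_dvd he₁.1 a).trans he₁.2⟩, a, b⟩
      · rintro ⟨-, a, b⟩
        exact ⟨⟨a, b⟩, (Nat.gcd_pos_of_pos_left _ he₁.1).ne'⟩
    rw [h2, h3, sum_filter, sum_div]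
    apply sum_congr rfl
    intro g _
    have hp₁ : (0 : ℝ) < e₁ := by exact_mod_cast he₁.1
    have hp₂ : (0 : ℝ) < e₂ := by exact_mod_cast he₂.1
    by_cases a : g ∣ e₁ <;> by_cases b : g ∣ e₂ <;> simp [a, b]
    field_simp
  have h4 : ∑ e₁ ∈ Icc 1 Q, ∑ e₂ ∈ Icc 1 Q, ((Nat.gcd e₁ e₂ : ℝ) / ((e₁ : ℝ) * e₂)) =
      ∑ g ∈ Icc 1 Q, (Nat.totient g : ℝ) *
        ((∑ e ∈ Icc 1 Q, if g ∣ e then 1 / (e : ℝ) else 0) *
        (∑ e ∈ Icc 1 Q, if g ∣ e then 1 / (e : ℝ) else 0)) := by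
    rw [sum_congr rfl (fun e₁ he₁ => sum_congr rfl (fun e₂ he₂ => h1 e₁ he₁ e₂ he₂))]
    rw [sum_congr rfl (fun e₁ _ => sum_comm), sum_comm]
    apply sum_congr rfl
    intro g _
    rw [sum_mul_sum, mul_sum]
    apply sum_congr rfl
    intro e₁ _
    rw [mul_sum]
  rw [h4]
  calc _ ≤ ∑ g ∈ Icc 1 Q, 1 / (g : ℝ) * (1 + Real.log Q) ^ 2 := by
        apply sum_le_sum
        intro g hg
        rw [mem_Icc] at hg
        have hg0 : (0 : ℝ) < g := by exact_mod_cast hg.1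
        have h5 := cg2_sum_multiples Q g hg.1
        have h6 : 0 ≤ ∑ e ∈ Icc 1 Q, (if g ∣ e then 1 / (e : ℝ) else 0) := by
          apply sum_nonneg
          intro e _
          positivity
        have h7 : (Nat.totient g : ℝ) ≤ g := by exact_mod_cast Nat.totient_le g
        calc _ ≤ (g : ℝ) * ((1 / (g : ℝ) * (1 + Real.log Q)) * (1 / (g : ℝ) * (1 + Real.log Q))) := by
              gcongr
          _ = _ := by field_simp
    _ = (∑ g ∈ Icc 1 Q, 1 / (g : ℝ)) * (1 + Real.log Q) ^ 2 := by rw [sum_mul]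
    _ ≤ (1 + Real.log Q) * (1 + Real.log Q) ^ 2 := by
        apply mul_le_mul_of_nonneg_right (cg2_sum_inv Q) (by positivity)
    _ = _ := by ring

/-- Second moment of `dQ` along a class: only divisors coprime to `W` occur, and for
`D = lcm(e₁, e₂)` coprime to `W` at most `M/D + 1` of the `c < M` have `D ∣ b + W (s + c)`;
`∑_{e₁, e₂ ≤ Q} 1/lcm(e₁,e₂) = ∑ gcd/(e₁ e₂) ≤ ∑_{g ≤ Q} φ(g)/g² (1 + log Q)² ≤ (1 + log Q)³`. -/
theorem dQ_moment (Q M W b s : ℕ) (hW : 0 < W) (hb : Nat.Coprime b W) :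
    ∑ c ∈ range M, (dQ Q ((b : ℤ) + W * (s + c : ℕ))) ^ 2 ≤
      M * (1 + Real.log Q) ^ 3 + (Q : ℝ) ^ 2 := by
  have hlog : 0 ≤ Real.log Q := by positivity
  have h1 : ∀ c ∈ range M, (dQ Q ((b : ℤ) + W * (s + c : ℕ))) ^ 2 =
      ∑ e₁ ∈ Icc 1 Q, ∑ e₂ ∈ Icc 1 Q, if (e₁ : ℤ) ∣ (b : ℤ) + W * (s + c : ℕ) ∧
        (e₂ : ℤ) ∣ (b : ℤ) + W * (s + c : ℕ) then (1 : ℝ) else 0 := by
    intro c _
    unfold dQ
    rw [card_filter, sq]
    push_cast
    rw [sum_mul_sum]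
    apply sum_congr rfl
    intro e₁ _
    apply sum_congr rfl
    intro e₂ _
    rw [ite_and]
    split_ifs <;> simp
  rw [sum_congr rfl h1, sum_comm]
  have h2 : ∀ e₁ ∈ Icc 1 Q, ∑ c ∈ range M, ∑ e₂ ∈ Icc 1 Q,
      (if (e₁ : ℤ) ∣ (b : ℤ) + W * (s + c : ℕ) ∧
        (e₂ : ℤ) ∣ (b : ℤ) + W * (s + c : ℕ) then (1 : ℝ) else 0) ≤
      ∑ e₂ ∈ Icc 1 Q, ((M : ℝ) * ((Nat.gcd e₁ e₂ : ℝ) / ((e₁ : ℝ) * e₂)) + 1) := by
    intro e₁ he₁
    rw [sum_comm]
    apply sum_le_sum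
    intro e₂ he₂
    rw [mem_Icc] at he₁ he₂
    have hp₁ : (0 : ℝ) < e₁ := by exact_mod_cast he₁.1
    have hp₂ : (0 : ℝ) < e₂ := by exact_mod_cast he₂.1
    have hnn : 0 ≤ (M : ℝ) * ((Nat.gcd e₁ e₂ : ℝ) / ((e₁ : ℝ) * e₂)) + 1 := by positivity
    have hcast : ∑ c ∈ range M, (if (e₁ : ℤ) ∣ (b : ℤ) + W * (s + c : ℕ) ∧
        (e₂ : ℤ) ∣ (b : ℤ) + W * (s + c : ℕ) then (1 : ℝ) else 0) =
        ((((range M).filter (fun c : ℕ => (e₁ : ℤ) ∣ (b : ℤ) + W * (s + c : ℕ) ∧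
        (e₂ : ℤ) ∣ (b : ℤ) + W * (s + c : ℕ))).card : ℕ) : ℝ) := by
      rw [card_filter]
      push_cast
      rfl
    rw [hcast]
    by_cases hcop : Nat.Coprime e₁ W ∧ Nat.Coprime e₂ W
    · have h3 := cg1_count e₁ e₂ W b s s M he₁.1 he₂.1 hcop.1 hcop.2
      rw [if_pos (by simp)] at h3
      have h4 := (abs_le.mp h3).2
      have h5 : (M : ℝ) * ((Nat.gcd e₁ e₂ : ℝ) / ((e₁ : ℝ) * e₂)) =
          (M : ℝ) * (Nat.gcd e₁ e₂ : ℝ) / ((e₁ : ℝ) * e₂) := by ring
      rw [h5]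
      linarith
    · have hempty : (range M).filter (fun c : ℕ => (e₁ : ℤ) ∣ (b : ℤ) + W * (s + c : ℕ) ∧
          (e₂ : ℤ) ∣ (b : ℤ) + W * (s + c : ℕ)) = ∅ := by
        rw [filter_eq_empty_iff]
        intro c _ hc
        apply hcop
        have hcc := cg1_class_coprime hb (s + c)
        exact ⟨Nat.isCoprime_iff_coprime.mp (hcc.of_isCoprime_of_dvd_left hc.1),
          Nat.isCoprime_iff_coprime.mp (hcc.of_isCoprime_of_dvd_left hc.2)⟩
      rw [hempty]
      simpa using hnn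
  refine le_trans (b := ∑ e₁ ∈ Icc 1 Q, ∑ e₂ ∈ Icc 1 Q,
    ((M : ℝ) * ((Nat.gcd e₁ e₂ : ℝ) / ((e₁ : ℝ) * e₂)) + 1)) ?_ ?_
  · exact sum_le_sum h2
  simp_rw [sum_add_distrib, ← mul_sum]
  have h6 : ∑ _e₁ ∈ Icc 1 Q, ∑ _e₂ ∈ Icc 1 Q, (1 : ℝ) = (Q : ℝ) ^ 2 := by
    simp [sq]
  rw [h6]
  have h7 : ∑ e₁ ∈ Icc 1 Q, ∑ e₂ ∈ Icc 1 Q, ((Nat.gcd e₁ e₂ : ℝ) / ((e₁ : ℝ) * e₂)) ≤
      (1 + Real.log Q) ^ 3 := cg2_gcd_sum Q
  have h8 : (M : ℝ) * ∑ e₁ ∈ Icc 1 Q, ∑ e₂ ∈ Icc 1 Q, ((Nat.gcd e₁ e₂ : ℝ) / ((e₁ : ℝ) * e₂)) ≤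
      M * (1 + Real.log Q) ^ 3 := mul_le_mul_of_nonneg_left h7 (by positivity)
  linarith


end Pool.Agent.Lib.H68T
end

-- from Lib.H68T.HBI
section

/-!
# Chunk HBI: Heath-Brown's identity with three factors
-/

open Finset ArithmeticFunction

namespace Pool.Agent.Lib.H68T

/-- Truncated Möbius function. -/
noncomputable def muV (V : ℕ) : ArithmeticFunction ℝ :=
  af (fun a => if a ≤ V then (moebius a : ℝ) else 0)

/-- Arithmetic function `n ↦ 1` and `n ↦ log n`, real valued. -/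
noncomputable def one1 : ArithmeticFunction ℝ := af (fun _ => 1)
noncomputable def logf : ArithmeticFunction ℝ := af (fun n => Real.log n)







end Pool.Agent.Lib.H68T
end

-- from Lib.H68T.HDEC
section

/-!
# Chunk HDEC: splitting off the long smooth variables
-/

open Finset ArithmeticFunction

namespace Pool.Agent.Lib.H68T








/-- the weighted norm -/
noncomputable def hdN (N : ℕ) (f : ArithmeticFunction ℝ) : ℝ := ∑ a ∈ Icc 1 N, |f a| / a









noncomputable def hdl (Q : ℕ) : ArithmeticFunction ℝ := af (fun n => 1 - rho Q n)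






















end Pool.Agent.Lib.H68T
end

-- from Lib.H68T.KER
section

/-!
# Chunk KER: the kernel in terms of primitive characters
-/

open Finset

namespace Pool.Agent.Lib.H68T

theorem KER_sigma_eq {d r r' : ℕ} [NeZero d] (hr : r ∣ d) (hr' : r' ∣ d)
    (ψ : DirichletCharacter ℂ r) (ψ' : DirichletCharacter ℂ r') (h : r = r')
    (he : DirichletCharacter.changeLevel hr ψ = DirichletCharacter.changeLevel hr' ψ') :
    (⟨r, ψ⟩ : Σ r : ℕ, DirichletCharacter ℂ r) = ⟨r', ψ'⟩ := by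
  subst h
  rw [DirichletCharacter.changeLevel_injective hr he]

theorem KER_sum (Q d : ℕ) [NeZero d] [Fintype (DirichletCharacter ℂ d)] (hd : d ≤ Q)
    (F : (Σ r : ℕ, DirichletCharacter ℂ r) → ℂ) :
    ∑ χ : DirichletCharacter ℂ d, F ⟨χ.conductor, χ.primitiveCharacter⟩ =
      ∑ p ∈ (PC Q).filter (fun p => p.1 ∣ d), F p := by
  refine Finset.sum_bij (fun χ _ => ⟨χ.conductor, χ.primitiveCharacter⟩) ?_ ?_ ?_ ?_
  · intro χ _
    rw [mem_filter, mem_PC]
    have h1 := χ.conductor_dvd_level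
    have h2 := χ.conductor_ne_zero
    have h3 := Nat.le_of_dvd (Nat.pos_of_ne_zero (NeZero.ne d)) h1
    exact ⟨⟨Nat.one_le_iff_ne_zero.mpr h2, h3.trans hd, χ.primitiveCharacter_isPrimitive⟩, h1⟩
  · intro χ₁ _ χ₂ _ h
    rw [← χ₁.changeLevel_primitiveCharacter, ← χ₂.changeLevel_primitiveCharacter]
    have : ∀ (p p' : Σ r : ℕ, DirichletCharacter ℂ r) (hp : p.1 ∣ d) (hp' : p'.1 ∣ d), p = p' →
        DirichletCharacter.changeLevel hp p.2 = DirichletCharacter.changeLevel hp' p'.2 := by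
      rintro p p' hp hp' rfl
      rfl
    exact this _ _ χ₁.conductor_dvd_level χ₂.conductor_dvd_level h
  · rintro ⟨r, ψ⟩ hp
    rw [mem_filter, mem_PC] at hp
    obtain ⟨⟨h1, h2, h3⟩, h4⟩ := hp
    have hr : NeZero r := ⟨by simp only at h1; omega⟩
    refine ⟨DirichletCharacter.changeLevel h4 ψ, mem_univ _, ?_⟩
    have hc := DirichletCharacter.conductor_changeLevel ψ h4
    rw [h3] at hc
    refine KER_sigma_eq (DirichletCharacter.conductor_dvd_level _) h4 _ _ hc ?_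
    rw [DirichletCharacter.changeLevel_primitiveCharacter]
  · intro χ _
    rfl

theorem KER_orth (Q d n : ℕ) (m : ℤ) (hd0 : d ≠ 0) (hd : d ≤ Q) (hn : n.Coprime d)
    (hm : IsCoprime (d : ℤ) m) :
    ∑ p ∈ (PC Q).filter (fun p => p.1 ∣ d), p.2 (n : ZMod p.1) *
        (starRingEnd ℂ) (p.2 (m : ZMod p.1)) =
      if (d : ℤ) ∣ (n : ℤ) - m then (d.totient : ℂ) else 0 := by
  have hne : NeZero d := ⟨hd0⟩
  rw [← KER_sum Q d hd (fun p => p.2 (n : ZMod p.1) * (starRingEnd ℂ) (p.2 (m : ZMod p.1)))]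
  have hnz : IsCoprime (n : ℤ) (d : ℤ) := Nat.isCoprime_iff_coprime.mpr hn
  have hu : IsUnit ((m : ℤ) : ZMod d) := by
    rw [← ZMod.coe_unitOfIsCoprime m hm.symm]
    exact Units.isUnit _
  have h1 : ∀ χ : DirichletCharacter ℂ d,
      χ.primitiveCharacter (n : ZMod χ.conductor) *
        (starRingEnd ℂ) (χ.primitiveCharacter (m : ZMod χ.conductor)) =
      χ ((m : ZMod d)⁻¹) * χ (n : ZMod d) := by
    intro χ
    have h2 := χ.primitiveCharacter_apply_of_isCoprime (a := (n : ℤ)) hnz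
    have h3 := χ.primitiveCharacter_apply_of_isCoprime (a := m) hm.symm
    rw [Int.cast_natCast, Int.cast_natCast] at h2
    rw [h2, h3, mul_comm]
    congr 1
    have h5 : (starRingEnd ℂ) (χ (m : ZMod d)) = χ⁻¹ (m : ZMod d) := MulChar.star_apply' χ _
    have hone : χ ((m : ZMod d)⁻¹) * χ (m : ZMod d) = 1 := by
      rw [← map_mul, ZMod.inv_mul_of_unit _ hu, map_one]
    rw [h5, MulChar.inv_apply_eq_inv']
    exact (eq_inv_of_mul_eq_one_left hone).symm
  simp_rw [h1]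
  rw [DirichletCharacter.sum_char_inv_mul_char_eq ℂ hu (n : ZMod d)]
  have h4 : ((m : ZMod d) = (n : ZMod d)) ↔ (d : ℤ) ∣ (n : ℤ) - m := by
    rw [← ZMod.intCast_eq_intCast_iff_dvd_sub, Int.cast_natCast]
  simp only [h4]

/-- For a prime `n > Q` and any integer `m`,
`∑_{q ≤ Q} c_q(n - m) = ∑_{ψ primitive, conductor r ≤ Q} Γ_r(m) ψ(n) conj ψ(m)`.

Proof. `c_q(n-m) = ∑_{d ∣ q, d ∣ n - m} d μ(q/d)`. Here `d ≤ Q < n` so `(n, d) = 1`, and
`d ∣ n - m` forces `(m, d) = 1`; for `(m,d) = (n,d) = 1`,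
`[d ∣ n - m] = (1/φ(d)) ∑_{χ mod d} χ(n) conj χ(m)`
(`DirichletCharacter.sum_char_inv_mul_char_eq`). Every `χ` mod `d` is `changeLevel` of the
primitive character `χ.primitiveCharacter` of conductor `r ∣ d`
(`changeLevel_primitiveCharacter`, `conductor_changeLevel`), with the same values at integers
coprime to `d`; this is a bijection between the characters mod `d` and the pairs `(r, ψ)`,
`r ∣ d`, `ψ` primitive mod `r`. Exchange the sums. -/
theorem kernel_char (Q : ℕ) (n : ℕ) (hn : n.Prime) (hQn : Q < n) (m : ℤ) :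
    ((∑ q ∈ Icc 1 Q, cq q ((n : ℤ) - m) : ℝ) : ℂ) =
      ∑ p ∈ PC Q, (Gam Q p.1 m : ℂ) * (p.2 (n : ZMod p.1) *
        (starRingEnd ℂ) (p.2 (m : ZMod p.1))) := by
  set E : (Σ r : ℕ, DirichletCharacter ℂ r) → ℂ := fun p => p.2 (n : ZMod p.1) *
        (starRingEnd ℂ) (p.2 (m : ZMod p.1)) with hE
  -- the left side
  have hL : ∀ q ∈ Icc 1 Q, ((cq q ((n : ℤ) - m) : ℝ) : ℂ) =
      ∑ d ∈ q.divisors.filter (fun d : ℕ => IsCoprime (d : ℤ) m),
        ((ArithmeticFunction.moebius (q / d) : ℝ) : ℂ) * ((d : ℂ) / (Nat.totient d : ℂ)) *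
          ∑ p ∈ (PC Q).filter (fun p => p.1 ∣ d), E p := by
    intro q hq
    rw [mem_Icc] at hq
    unfold cq
    rw [Complex.ofReal_sum, Finset.sum_filter, Finset.sum_filter]
    refine Finset.sum_congr rfl fun d hd => ?_
    rw [Nat.mem_divisors] at hd
    have hd0 : d ≠ 0 := by
      rintro rfl
      exact hd.2 (Nat.eq_zero_of_zero_dvd hd.1)
    have hdq : d ≤ q := Nat.le_of_dvd (by omega) hd.1
    have hdn : n.Coprime d := by
      rw [Nat.Prime.coprime_iff_not_dvd hn]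
      intro h
      have := Nat.le_of_dvd (Nat.pos_of_ne_zero hd0) h
      omega
    have hphi : (d.totient : ℂ) ≠ 0 := by
      have := Nat.totient_pos.mpr (Nat.pos_of_ne_zero hd0)
      exact_mod_cast this.ne'
    by_cases hm : IsCoprime (d : ℤ) m
    · rw [if_pos hm, KER_orth Q d n m hd0 (hdq.trans hq.2) hdn hm]
      by_cases hdv : (d : ℤ) ∣ (n : ℤ) - m
      · rw [if_pos hdv, if_pos hdv]
        push_cast
        field_simp
      · rw [if_neg hdv, if_neg hdv]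
        simp
    · rw [if_neg hm, if_neg]
      intro hdv
      apply hm
      have h1 : IsCoprime (d : ℤ) (n : ℤ) := (Nat.isCoprime_iff_coprime.mpr hdn).symm
      obtain ⟨c, hc⟩ := hdv
      have h2 : m = (n : ℤ) + (d : ℤ) * (-c) := by linear_combination -hc
      rw [h2]
      exact IsCoprime.add_mul_left_right h1 (-c)
  rw [Complex.ofReal_sum, Finset.sum_congr rfl hL]
  -- exchange
  simp_rw [Finset.mul_sum, Finset.sum_filter]
  have hswap : ∀ q ∈ Icc 1 Q,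
      (∑ d ∈ q.divisors, if IsCoprime (d : ℤ) m then ∑ p ∈ PC Q, if p.1 ∣ d then
        ((ArithmeticFunction.moebius (q / d) : ℝ) : ℂ) * ((d : ℂ) / (Nat.totient d : ℂ)) * E p
          else 0 else 0) =
      ∑ p ∈ PC Q, ((∑ d ∈ q.divisors.filter (fun d : ℕ => p.1 ∣ d ∧ IsCoprime (d : ℤ) m),
        (ArithmeticFunction.moebius (q / d) : ℝ) * ((d : ℝ) / (Nat.totient d : ℝ)) : ℝ) : ℂ)
          * E p := by
    intro q _
    have h1 : ∀ d ∈ q.divisors, (if IsCoprime (d : ℤ) m then ∑ p ∈ PC Q, if p.1 ∣ d then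
        ((ArithmeticFunction.moebius (q / d) : ℝ) : ℂ) * ((d : ℂ) / (Nat.totient d : ℂ)) * E p
          else 0 else 0) = ∑ p ∈ PC Q, if p.1 ∣ d ∧ IsCoprime (d : ℤ) m then
        ((ArithmeticFunction.moebius (q / d) : ℝ) : ℂ) * ((d : ℂ) / (Nat.totient d : ℂ)) * E p
          else 0 := by
      intro d _
      by_cases hm : IsCoprime (d : ℤ) m
      · simp [hm]
      · simp [hm]
    rw [Finset.sum_congr rfl h1, Finset.sum_comm]
    refine Finset.sum_congr rfl fun p _ => ?_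
    rw [Complex.ofReal_sum, Finset.sum_mul, Finset.sum_filter]
    refine Finset.sum_congr rfl fun d _ => ?_
    split_ifs <;> push_cast <;> ring
  rw [Finset.sum_congr rfl hswap, Finset.sum_comm]
  refine Finset.sum_congr rfl fun p hp => ?_
  rw [← Finset.sum_mul]
  congr 1
  unfold Gam
  rw [Complex.ofReal_sum, Finset.sum_filter]
  refine Finset.sum_congr rfl fun q hq => ?_
  split_ifs with hpq
  · rfl
  · rw [Finset.filter_false_of_mem]
    · simp
    · intro d hd h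
      rw [Nat.mem_divisors] at hd
      exact hpq (h.1.trans hd.1)

end Pool.Agent.Lib.H68T
end

-- from Lib.H68T.GAM1
section

/-!
# Chunk GAM1; part of GAM: the coefficients `Γ_r(m)`
-/

open Finset

namespace Pool.Agent.Lib.H68T

/-- `n/φ(n) = ∏_{p ∣ n} p/(p-1)` -/
theorem GAM_ratio (n : ℕ) (hn : n ≠ 0) :
    (n : ℝ) / Nat.totient n = ∏ p ∈ n.primeFactors, ((p : ℝ) / (p - 1)) := by
  have h := Nat.totient_eq_mul_prod_factors n
  have h' : (Nat.totient n : ℝ) = n * ∏ p ∈ n.primeFactors, (1 - (p : ℝ)⁻¹) := by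
    have := congrArg (fun x : ℚ => (x : ℝ)) h
    simpa using this
  have hn' : (n : ℝ) ≠ 0 := by exact_mod_cast hn
  rw [h', ← div_div, div_self hn', one_div, ← Finset.prod_inv_distrib]
  refine Finset.prod_congr rfl (fun p hp => ?_)
  have hp1 := (Nat.prime_of_mem_primeFactors hp).one_lt
  have hp2 : (1 : ℝ) < p := by exact_mod_cast hp1
  have h1 : (p : ℝ) ≠ 0 := by linarith
  have h2 : (p : ℝ) - 1 ≠ 0 := by linarith
  have h3 : 1 - (p : ℝ)⁻¹ = (p - 1) / p := by field_simp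
  rw [h3, inv_div]

theorem GAM_ratio_mul (r d : ℕ) (hr : r ≠ 0) (hd : d ≠ 0) :
    ((r * d : ℕ) : ℝ) / Nat.totient (r * d) = (r : ℝ) / Nat.totient r *
      ∏ p ∈ d.primeFactors.filter (fun p => ¬ p ∣ r), ((p : ℝ) / (p - 1)) := by
  rw [GAM_ratio _ (mul_ne_zero hr hd), GAM_ratio r hr, Nat.primeFactors_mul hr hd]
  have h : r.primeFactors ∪ d.primeFactors =
      r.primeFactors ∪ d.primeFactors.filter (fun p => ¬ p ∣ r) := by
    ext p
    simp only [mem_union, mem_filter, Nat.mem_primeFactors]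
    tauto
  rw [h, Finset.prod_union]
  rw [Finset.disjoint_left]
  intro p hp hp'
  rw [mem_filter] at hp'
  exact hp'.2 (Nat.dvd_of_mem_primeFactors hp)

/-- The normalised ratio `(r d/φ(r d))/(r/φ(r))` for `d` coprime to `m`. -/
noncomputable def GAM_g (r : ℕ) (m : ℤ) : ArithmeticFunction ℝ :=
  ⟨fun d => if d = 0 then 0 else if IsCoprime (d : ℤ) m then
    ∏ p ∈ d.primeFactors.filter (fun p => ¬ p ∣ r), ((p : ℝ) / (p - 1)) else 0, by simp⟩

theorem GAM_g_apply (r : ℕ) (m : ℤ) (d : ℕ) (hd : d ≠ 0) : GAM_g r m d =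
    if IsCoprime (d : ℤ) m then
      ∏ p ∈ d.primeFactors.filter (fun p => ¬ p ∣ r), ((p : ℝ) / (p - 1)) else 0 := by
  change (if d = 0 then 0 else _) = _
  rw [if_neg hd]

theorem GAM_g_mult (r : ℕ) (m : ℤ) : (GAM_g r m).IsMultiplicative := by
  rw [ArithmeticFunction.IsMultiplicative.iff_ne_zero]
  refine ⟨?_, ?_⟩
  · rw [GAM_g_apply _ _ _ one_ne_zero]
    simp [isCoprime_one_left]
  · intro a b ha hb hab
    rw [GAM_g_apply _ _ _ (mul_ne_zero ha hb), GAM_g_apply _ _ _ ha, GAM_g_apply _ _ _ hb]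
    have hc : IsCoprime ((a * b : ℕ) : ℤ) m ↔ IsCoprime (a : ℤ) m ∧ IsCoprime (b : ℤ) m := by
      rw [Nat.cast_mul, IsCoprime.mul_left_iff]
    by_cases h1 : IsCoprime (a : ℤ) m
    · by_cases h2 : IsCoprime (b : ℤ) m
      · rw [if_pos (hc.mpr ⟨h1, h2⟩), if_pos h1, if_pos h2, hab.primeFactors_mul, Finset.filter_union,
          Finset.prod_union]
        exact Finset.disjoint_filter_filter hab.disjoint_primeFactors
      · rw [if_neg (fun h => h2 (hc.mp h).2), if_neg h2, mul_zero]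
    · rw [if_neg (fun h => h1 (hc.mp h).1), if_neg h1, zero_mul]

theorem GAM_g_prime_pow (r : ℕ) (m : ℤ) (p k : ℕ) (hp : p.Prime) :
    GAM_g r m (p ^ (k + 1)) = if (p : ℤ) ∣ m then 0 else if p ∣ r then 1 else (p : ℝ) / (p - 1) := by
  rw [GAM_g_apply _ _ _ (pow_ne_zero _ hp.ne_zero)]
  have h1 : IsCoprime ((p ^ (k + 1) : ℕ) : ℤ) m ↔ ¬ (p : ℤ) ∣ m := by
    rw [Nat.cast_pow, IsCoprime.pow_left_iff (Nat.succ_pos k)]
    exact (Nat.prime_iff_prime_int.mp hp).coprime_iff_not_dvd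
  by_cases h : (p : ℤ) ∣ m
  · rw [if_neg (by rw [h1]; exact fun h' => h' h), if_pos h]
  · rw [if_pos (h1.mpr h), if_neg h, Nat.primeFactors_prime_pow (Nat.succ_ne_zero k) hp]
    by_cases h2 : p ∣ r
    · rw [if_pos h2, Finset.filter_singleton, if_neg (fun h => h h2), Finset.prod_empty]
    · rw [if_neg h2, Finset.filter_singleton, if_pos h2, Finset.prod_singleton]

/-- The convolution of `GAM_g` with the Möbius function. -/
noncomputable def GAM_F (r : ℕ) (m : ℤ) : ArithmeticFunction ℝ :=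
  (ArithmeticFunction.moebius : ArithmeticFunction ℝ) * GAM_g r m

theorem GAM_F_mult (r : ℕ) (m : ℤ) : (GAM_F r m).IsMultiplicative :=
  ArithmeticFunction.isMultiplicative_moebius.intCast.mul (GAM_g_mult r m)

theorem GAM_F_apply (r : ℕ) (m : ℤ) (q : ℕ) : GAM_F r m q =
    ∑ d ∈ q.divisors, (ArithmeticFunction.moebius (q / d) : ℝ) * GAM_g r m d := by
  unfold GAM_F
  rw [ArithmeticFunction.mul_apply]
  exact Nat.sum_divisorsAntidiagonal'
    (fun a b => ((ArithmeticFunction.moebius a : ℤ) : ℝ) * GAM_g r m b)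

theorem GAM_mu_conv (f : ℕ → ℝ) (p k : ℕ) (hp : p.Prime) :
    ∑ d ∈ (p ^ (k + 1)).divisors, (ArithmeticFunction.moebius (p ^ (k + 1) / d) : ℝ) * f d =
      f (p ^ (k + 1)) - f (p ^ k) := by
  rw [Nat.sum_divisors_prime_pow hp, Finset.sum_range_succ, Finset.sum_range_succ,
    Finset.sum_eq_zero]
  · rw [Nat.div_self (pow_pos hp.pos _), pow_succ p k, Nat.mul_div_cancel_left _ (pow_pos hp.pos _)]
    rw [ArithmeticFunction.moebius_apply_one, ArithmeticFunction.moebius_apply_prime hp]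
    push_cast
    ring
  · intro j hj
    rw [mem_range] at hj
    rw [Nat.pow_div (by omega) hp.pos, ArithmeticFunction.moebius_apply_prime_pow hp (by omega),
      if_neg (by omega)]
    simp

theorem GAM_F_prime (r : ℕ) (m : ℤ) (p : ℕ) (hp : p.Prime) : GAM_F r m p =
    if (p : ℤ) ∣ m then -1 else if p ∣ r then 0 else 1 / ((p : ℝ) - 1) := by
  have h := GAM_F_apply r m (p ^ (0 + 1))
  rw [GAM_mu_conv _ _ _ hp, GAM_g_prime_pow _ _ _ _ hp, pow_zero, (GAM_g_mult r m).1, zero_add,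
    pow_one] at h
  rw [h]
  have hp2 : (1 : ℝ) < p := by exact_mod_cast hp.one_lt
  have h2 : (p : ℝ) - 1 ≠ 0 := by linarith
  split_ifs
  · ring
  · ring
  · field_simp
    ring

theorem GAM_F_prime_pow (r : ℕ) (m : ℤ) (p k : ℕ) (hp : p.Prime) :
    GAM_F r m (p ^ (k + 2)) = 0 := by
  rw [GAM_F_apply r m (p ^ (k + 1 + 1)), GAM_mu_conv _ _ _ hp, GAM_g_prime_pow _ _ _ _ hp,
    GAM_g_prime_pow _ _ _ _ hp, sub_self]

/-- For `r` coprime to `m` the inner sum of `Γ_r`. -/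
theorem GAM_inner (r : ℕ) (m : ℤ) (hr : r ≠ 0) (hrm : IsCoprime (r : ℤ) m) (q : ℕ) (hq : q ≠ 0) :
    ∑ d ∈ (r * q).divisors.filter (fun d => r ∣ d ∧ IsCoprime (d : ℤ) m),
      (ArithmeticFunction.moebius (r * q / d) : ℝ) * ((d : ℝ) / (Nat.totient d : ℝ)) =
    (r : ℝ) / Nat.totient r * GAM_F r m q := by
  rw [GAM_F_apply, Finset.mul_sum]
  have himg : (r * q).divisors.filter (fun d => r ∣ d ∧ IsCoprime (d : ℤ) m) =
      (q.divisors.filter (fun d : ℕ => IsCoprime (d : ℤ) m)).image (fun d => r * d) := by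
    ext d
    simp only [mem_filter, Nat.mem_divisors, mem_image]
    constructor
    · rintro ⟨⟨h1, h2⟩, ⟨e, rfl⟩, h4⟩
      refine ⟨e, ⟨⟨(Nat.mul_dvd_mul_iff_left (Nat.pos_of_ne_zero hr)).mp h1, hq⟩, ?_⟩, rfl⟩
      rw [Nat.cast_mul, IsCoprime.mul_left_iff] at h4
      exact h4.2
    · rintro ⟨e, ⟨⟨h1, h2⟩, h3⟩, rfl⟩
      refine ⟨⟨Nat.mul_dvd_mul_left r h1, mul_ne_zero hr hq⟩, Dvd.intro _ rfl, ?_⟩
      rw [Nat.cast_mul, IsCoprime.mul_left_iff]
      exact ⟨hrm, h3⟩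
  rw [himg, Finset.sum_image (fun a _ b _ h => Nat.eq_of_mul_eq_mul_left (Nat.pos_of_ne_zero hr) h),
    Finset.sum_filter]
  refine Finset.sum_congr rfl (fun d hd => ?_)
  have hd0 : d ≠ 0 := (Nat.pos_of_mem_divisors hd).ne'
  rw [GAM_g_apply _ _ _ hd0, Nat.mul_div_mul_left _ _ (Nat.pos_of_ne_zero hr)]
  split_ifs
  · rw [GAM_ratio_mul r d hr hd0]
    ring
  · simp

/-- `h(d) = d` if `d ∣ m` -/
noncomputable def GAM_h (m : ℤ) : ArithmeticFunction ℝ :=
  ⟨fun d => if (d : ℤ) ∣ m then (d : ℝ) else 0, by simp⟩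

theorem GAM_h_apply (m : ℤ) (d : ℕ) : GAM_h m d = if (d : ℤ) ∣ m then (d : ℝ) else 0 := rfl

theorem GAM_h_mult (m : ℤ) : (GAM_h m).IsMultiplicative := by
  refine ⟨by simp [GAM_h_apply], ?_⟩
  intro a b hab
  rw [GAM_h_apply, GAM_h_apply, GAM_h_apply]
  have h : ((a * b : ℕ) : ℤ) ∣ m ↔ (a : ℤ) ∣ m ∧ (b : ℤ) ∣ m := by
    rw [Nat.cast_mul]
    constructor
    · intro h
      exact ⟨(Dvd.intro _ rfl).trans h, (Dvd.intro_left _ rfl).trans h⟩
    · rintro ⟨h1, h2⟩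
      exact IsCoprime.mul_dvd (Nat.isCoprime_iff_coprime.mpr hab) h1 h2
  by_cases h1 : (a : ℤ) ∣ m
  · by_cases h2 : (b : ℤ) ∣ m
    · rw [if_pos (h.mpr ⟨h1, h2⟩), if_pos h1, if_pos h2]
      push_cast
      ring
    · rw [if_neg (fun h' => h2 (h.mp h').2), if_neg h2, mul_zero]
  · rw [if_neg (fun h' => h1 (h.mp h').1), if_neg h1, zero_mul]

/-- `c_q(m)` as an arithmetic function of `q` -/
noncomputable def GAM_c (m : ℤ) : ArithmeticFunction ℝ :=
  (ArithmeticFunction.moebius : ArithmeticFunction ℝ) * GAM_h m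

theorem GAM_c_apply (m : ℤ) (q : ℕ) : GAM_c m q = cq q m := by
  unfold GAM_c cq
  rw [ArithmeticFunction.mul_apply, Finset.sum_filter]
  rw [Nat.sum_divisorsAntidiagonal'
    (fun a b => ((ArithmeticFunction.moebius : ArithmeticFunction ℝ) a) * GAM_h m b)]
  refine Finset.sum_congr rfl (fun d hd => ?_)
  rw [GAM_h_apply]
  split_ifs
  · rw [mul_comm]
    rfl
  · simp

theorem GAM_c_mult (m : ℤ) : (GAM_c m).IsMultiplicative :=
  ArithmeticFunction.isMultiplicative_moebius.intCast.mul (GAM_h_mult m)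

/-- The totient as a real arithmetic function. -/
noncomputable def GAM_phi : ArithmeticFunction ℝ := ⟨fun n => (Nat.totient n : ℝ), by simp⟩

theorem GAM_phi_mult : GAM_phi.IsMultiplicative := by
  refine ⟨by simp [GAM_phi], ?_⟩
  intro a b hab
  change ((Nat.totient (a * b) : ℕ) : ℝ) = (Nat.totient a : ℝ) * (Nat.totient b : ℝ)
  rw [Nat.totient_mul hab]
  push_cast
  ring

theorem GAM_identity (m : ℤ) : GAM_F 1 m =
    (((ArithmeticFunction.moebius : ArithmeticFunction ℤ) : ArithmeticFunction ℝ).pmul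
      (GAM_c m)).pdiv GAM_phi := by
  rw [ArithmeticFunction.IsMultiplicative.eq_iff_eq_on_prime_powers _ (GAM_F_mult 1 m) _
    ((ArithmeticFunction.isMultiplicative_moebius.intCast.pmul (GAM_c_mult m)).pdiv GAM_phi_mult)]
  intro p i hp
  rcases i with _ | _ | k
  · rw [pow_zero, (GAM_F_mult 1 m).1]
    exact ((ArithmeticFunction.isMultiplicative_moebius.intCast.pmul (GAM_c_mult m)).pdiv
      GAM_phi_mult).1.symm
  · rw [zero_add, pow_one, GAM_F_prime _ _ _ hp, ArithmeticFunction.pdiv_apply,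
      ArithmeticFunction.pmul_apply, GAM_c_apply]
    have hc : cq p m = -1 + if (p : ℤ) ∣ m then (p : ℝ) else 0 := by
      unfold cq
      rw [Finset.sum_filter, hp.divisors, Finset.sum_pair hp.one_lt.ne, Nat.div_one,
        Nat.div_self hp.pos, ArithmeticFunction.moebius_apply_one,
        ArithmeticFunction.moebius_apply_prime hp]
      simp
    have hphi : GAM_phi p = (p : ℝ) - 1 := by
      change ((Nat.totient p : ℕ) : ℝ) = _
      rw [Nat.totient_prime hp, Nat.cast_sub hp.one_lt.le, Nat.cast_one]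
    have hmu : ((ArithmeticFunction.moebius : ArithmeticFunction ℤ) : ArithmeticFunction ℝ) p = -1 := by
      rw [ArithmeticFunction.intCoe_apply, ArithmeticFunction.moebius_apply_prime hp]
      simp
    rw [hc, hphi, hmu]
    have hp2 : (1 : ℝ) < p := by exact_mod_cast hp.one_lt
    have h2 : (p : ℝ) - 1 ≠ 0 := by linarith
    have h3 : ¬ p ∣ 1 := fun h => hp.one_lt.ne' (Nat.dvd_one.mp h)
    split_ifs
    · field_simp
      ring
    · field_simp
      ring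
  · rw [GAM_F_prime_pow _ _ _ _ hp, ArithmeticFunction.pdiv_apply,
      ArithmeticFunction.pmul_apply, ArithmeticFunction.intCoe_apply,
      ArithmeticFunction.moebius_apply_prime_pow hp (by omega), if_neg (by omega)]
    simp


end Pool.Agent.Lib.H68T
end

-- from Lib.H68T.GAM2
section

/-!
# Chunk GAM2; part of GAM: the coefficients `Γ_r(m)`
-/

open Finset

namespace Pool.Agent.Lib.H68T

/-- `∏_{s ∈ S} s/(s-1) ≤ |S| + 1` for a finite set of integers `≥ 2`. -/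
theorem GAM_prod_le (S : Finset ℕ) (hS : ∀ s ∈ S, 2 ≤ s) :
    ∏ s ∈ S, ((s : ℝ) / (s - 1)) ≤ (S.card : ℝ) + 1 := by
  induction S using Finset.induction_on_max with
  | empty => simp
  | insert a s hlt ih =>
    have ha : a ∉ s := fun h => lt_irrefl _ (hlt a h)
    have ih' := ih (fun x hx => hS x (mem_insert_of_mem hx))
    rw [Finset.prod_insert ha, Finset.card_insert_of_notMem ha]
    have hcard : s.card + 2 ≤ a := by
      have h1 : s ⊆ Ico 2 a := by
        intro x hx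
        rw [mem_Ico]
        exact ⟨hS x (mem_insert_of_mem hx), hlt x hx⟩
      have h2 := Finset.card_le_card h1
      rw [Nat.card_Ico] at h2
      have h3 := hS a (mem_insert_self a s)
      omega
    have hc : (s.card : ℝ) + 2 ≤ a := by exact_mod_cast hcard
    have hs0 : (0 : ℝ) ≤ s.card := Nat.cast_nonneg _
    have ha1 : (0 : ℝ) < (a : ℝ) - 1 := by linarith
    have h4 : (a : ℝ) / (a - 1) ≤ ((s.card : ℝ) + 2) / (s.card + 1) := by
      rw [div_le_div_iff₀ ha1 (by linarith)]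
      nlinarith
    calc (a : ℝ) / (a - 1) * ∏ x ∈ s, ((x : ℝ) / (x - 1))
        ≤ ((s.card : ℝ) + 2) / (s.card + 1) * ((s.card : ℝ) + 1) := by
          refine mul_le_mul h4 ih' (Finset.prod_nonneg (fun x hx => ?_)) (by positivity)
          have hx2 : (2 : ℝ) ≤ x := by exact_mod_cast hS x (mem_insert_of_mem hx)
          exact div_nonneg (by linarith) (by linarith)
      _ = (s.card : ℝ) + 2 := by
          rw [div_mul_cancel₀]
          linarith
      _ = _ := by push_cast; ring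

/-- `r/φ(r) ≤ 1 + log r/log 2` -/
theorem GAM_ratio_le (r : ℕ) (hr : r ≠ 0) :
    (r : ℝ) / Nat.totient r ≤ 10 * (1 + Real.log r) := by
  rw [GAM_ratio r hr]
  have h1 := GAM_prod_le r.primeFactors (fun p hp => (Nat.prime_of_mem_primeFactors hp).two_le)
  have h2 : 2 ^ r.primeFactors.card ≤ r := by
    calc 2 ^ r.primeFactors.card ≤ ∏ p ∈ r.primeFactors, p :=
          Finset.pow_card_le_prod _ _ _ (fun p hp => (Nat.prime_of_mem_primeFactors hp).two_le)
      _ ≤ r := Nat.le_of_dvd (Nat.pos_of_ne_zero hr) (Nat.prod_primeFactors_dvd r)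
  have h3 : (r.primeFactors.card : ℝ) * Real.log 2 ≤ Real.log r := by
    rw [← Real.log_pow]
    refine Real.log_le_log (by positivity) ?_
    exact_mod_cast h2
  have h4 := Real.log_two_gt_d9
  have h5 : (0 : ℝ) ≤ r.primeFactors.card := Nat.cast_nonneg _
  nlinarith

/-- absolute value of `F` at squarefree arguments -/
theorem GAM_F_abs (r : ℕ) (m : ℤ) (q : ℕ) (hq : q ≠ 0) :
    |GAM_F r m q| ≤ if Squarefree q then
      1 / (Nat.totient (q / Nat.gcd q m.natAbs) : ℝ) else 0 := by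
  by_cases hsq : Squarefree q
  · rw [if_pos hsq, ← (GAM_F_mult r m).prod_primeFactors hsq, Finset.abs_prod]
    set g := Nat.gcd q m.natAbs with hg
    have hgq : g ∣ q := Nat.gcd_dvd_left _ _
    have hqg : q = g * (q / g) := (Nat.mul_div_cancel' hgq).symm
    have hsq' : Squarefree (q / g) := hsq.squarefree_of_dvd (Nat.div_dvd_of_dvd hgq)
    have hpf : (q / g).primeFactors = q.primeFactors.filter (fun p : ℕ => ¬ (p : ℤ) ∣ m) := by
      ext p
      rw [mem_filter, Nat.mem_primeFactors, Nat.mem_primeFactors]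
      constructor
      · rintro ⟨hp, hpq, -⟩
        refine ⟨⟨hp, hpq.trans (Nat.div_dvd_of_dvd hgq), hq⟩, ?_⟩
        intro hpm
        have h1 : p ∣ g := by
          rw [hg]
          exact Nat.dvd_gcd (hpq.trans (Nat.div_dvd_of_dvd hgq)) (Int.natCast_dvd.mp hpm)
        have h2 : p * p ∣ q := by
          rw [hqg]
          exact Nat.mul_dvd_mul h1 hpq
        exact hp.one_lt.ne' (Nat.isUnit_iff.mp (hsq p h2))
      · rintro ⟨⟨hp, hpq, -⟩, hpm⟩
        refine ⟨hp, ?_, hsq'.ne_zero⟩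
        rw [hqg] at hpq
        rcases hp.dvd_mul.mp hpq with h | h
        · exfalso
          exact hpm (Int.natCast_dvd.mpr (h.trans (Nat.gcd_dvd_right _ _)))
        · exact h
    have hphi : (Nat.totient (q / g) : ℝ) = ∏ p ∈ (q / g).primeFactors, ((p : ℝ) - 1) := by
      have := GAM_phi_mult.prod_primeFactors hsq'
      change _ = ((Nat.totient (q / g) : ℕ) : ℝ) at this
      rw [← this]
      refine Finset.prod_congr rfl (fun p hp => ?_)
      change ((Nat.totient p : ℕ) : ℝ) = _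
      have hp' := Nat.prime_of_mem_primeFactors hp
      rw [Nat.totient_prime hp', Nat.cast_sub hp'.one_lt.le, Nat.cast_one]
    rw [hphi, hpf, one_div, ← Finset.prod_inv_distrib, Finset.prod_filter]
    refine Finset.prod_le_prod (fun p _ => abs_nonneg _) (fun p hp => ?_)
    have hp' := Nat.prime_of_mem_primeFactors hp
    have hp2 : (2 : ℝ) ≤ p := by exact_mod_cast hp'.two_le
    rw [GAM_F_prime r m p hp']
    by_cases h : (p : ℤ) ∣ m
    · simp [h]
    · rw [if_neg h, if_pos h]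
      split_ifs
      · rw [abs_zero]
        exact inv_nonneg.mpr (by linarith)
      · rw [one_div, abs_of_nonneg (inv_nonneg.mpr (by linarith))]
  · rw [if_neg hsq, abs_nonpos_iff, (GAM_F_mult r m).multiplicative_factorization _ hq]
    have hex : ∃ p ∈ q.primeFactors, 2 ≤ q.factorization p := by
      by_contra hcon
      push Not at hcon
      refine hsq ((Nat.squarefree_iff_factorization_le_one hq).mpr (fun p => ?_))
      by_cases hp : p ∈ q.primeFactors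
      · have := hcon p hp
        omega
      · rw [← Nat.support_factorization, Finsupp.notMem_support_iff] at hp
        omega
    obtain ⟨p, hp, h2⟩ := hex
    refine Finset.prod_eq_zero (i := p) (by rwa [Nat.support_factorization]) ?_
    obtain ⟨k, hk⟩ := Nat.exists_eq_add_of_le h2
    change GAM_F r m (p ^ q.factorization p) = 0
    rw [hk, add_comm 2 k]
    exact GAM_F_prime_pow r m p k (Nat.prime_of_mem_primeFactors hp)

theorem GAM_sum_F (r : ℕ) (m : ℤ) (Q N : ℕ) (hN : N ≤ Q) :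
    ∑ q ∈ Icc 1 N, |GAM_F r m q| ≤ dQ Q m * ∑ q ∈ Icc 1 Q, (1 : ℝ) / Nat.totient q := by
  have h1 : ∑ q ∈ Icc 1 N, |GAM_F r m q| ≤
      ∑ q ∈ (Icc 1 N).filter Squarefree, 1 / (Nat.totient (q / Nat.gcd q m.natAbs) : ℝ) := by
    rw [Finset.sum_filter]
    refine Finset.sum_le_sum (fun q hq => ?_)
    rw [mem_Icc] at hq
    exact GAM_F_abs r m q (by omega)
  refine h1.trans ?_
  have h2 : ∑ q ∈ (Icc 1 N).filter Squarefree, 1 / (Nat.totient (q / Nat.gcd q m.natAbs) : ℝ) =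
      ∑ x ∈ ((Icc 1 N).filter Squarefree).image (fun q => (Nat.gcd q m.natAbs, q / Nat.gcd q m.natAbs)),
        1 / (Nat.totient x.2 : ℝ) := by
    rw [Finset.sum_image]
    intro a ha b hb hab
    simp only [Prod.mk.injEq] at hab
    have ha' := Nat.mul_div_cancel' (Nat.gcd_dvd_left a m.natAbs)
    have hb' := Nat.mul_div_cancel' (Nat.gcd_dvd_left b m.natAbs)
    rw [hab.2, hab.1] at ha'
    exact ha'.symm.trans hb'
  rw [h2]
  have h3 : dQ Q m * ∑ q ∈ Icc 1 Q, (1 : ℝ) / Nat.totient q =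
      ∑ x ∈ ((Icc 1 Q).filter (fun d : ℕ => (d : ℤ) ∣ m)) ×ˢ (Icc 1 Q),
        1 / (Nat.totient x.2 : ℝ) := by
    rw [Finset.sum_product]
    unfold dQ
    simp only
    rw [Finset.sum_const, nsmul_eq_mul]
  rw [h3]
  refine Finset.sum_le_sum_of_subset_of_nonneg ?_ (fun _ _ _ => by positivity)
  intro x hx
  rw [mem_image] at hx
  obtain ⟨q, hq, rfl⟩ := hx
  rw [mem_filter, mem_Icc] at hq
  have hg1 : 0 < Nat.gcd q m.natAbs := Nat.gcd_pos_of_pos_left _ (by omega)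
  have hg2 : Nat.gcd q m.natAbs ≤ q := Nat.gcd_le_left _ (by omega)
  have hg3 : 0 < q / Nat.gcd q m.natAbs := Nat.div_pos hg2 hg1
  rw [mem_product, mem_filter, mem_Icc, mem_Icc]
  refine ⟨⟨⟨hg1, by simp only; omega⟩, ?_⟩, hg3, ?_⟩
  · exact Int.natCast_dvd.mpr (Nat.gcd_dvd_right _ _)
  · exact (Nat.div_le_self _ _).trans (by omega)

/-- `|Γ_r(m)| ≤ 100 (1 + log Q)^3 dQ(m)`. If `(r, m) ≠ 1` it is `0`. Otherwise write `q = r q'`,
`d = r d'`; `d' ↦ [(d',m)=1] (r d'/φ(r d')) / (r/φ(r))` is multiplicative, equal at `p^j` (`j ≥ 1`)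
to `1` if `p ∣ r`, `p/(p-1)` if `p ∤ r m`, `0` if `p ∣ m`; so its Dirichlet convolution with `μ` is
`0` at `q'` not squarefree or not coprime to `r`, and at squarefree `q'` coprime to `r` it is
`∏_{p ∣ q', p ∤ m} 1/(p-1) ∏_{p ∣ q', p ∣ m} (-1)`, of absolute value `φ((q',m))/φ(q')`. Hence
`|Γ_r(m)| ≤ (r/φ(r)) ∑_{g ∣ m, g ≤ Q} ∑_{q'' ≤ Q} 1/φ(q'')`, and `r/φ(r) ≤ 10 (1 + log Q)` for
`r ≤ Q` (e.g. `r/φ(r) = ∏_{p ∣ r} (1 - 1/p)^{-1} ≤ ∏_{j ≤ ω(r)} (1 + 1/j) ≤ ω(r) + 1`, `2^ω(r) ≤ r`). -/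
theorem abs_Gam_le (Q r : ℕ) (hr : 1 ≤ r) (hrQ : r ≤ Q) (m : ℤ) :
    |Gam Q r m| ≤ 100 * (1 + Real.log Q) ^ 3 * dQ Q m := by
  have hQ1 : (1 : ℝ) ≤ Q := by exact_mod_cast hr.trans hrQ
  have hL : 0 ≤ Real.log Q := Real.log_nonneg hQ1
  have hd0 : 0 ≤ dQ Q m := by unfold dQ; positivity
  by_cases hrm : IsCoprime (r : ℤ) m
  swap
  · have : Gam Q r m = 0 := by
      unfold Gam
      refine Finset.sum_eq_zero (fun q _ => ?_)
      rw [Finset.filter_false_of_mem, Finset.sum_empty]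
      rintro d _ ⟨⟨e, rfl⟩, h⟩
      rw [Nat.cast_mul, IsCoprime.mul_left_iff] at h
      exact hrm h.1
    rw [this, abs_zero]
    positivity
  have hr0 : r ≠ 0 := by omega
  have himg : (Icc 1 Q).filter (fun q => r ∣ q) = (Icc 1 (Q / r)).image (fun q => r * q) := by
    ext q
    simp only [mem_filter, mem_Icc, mem_image]
    constructor
    · rintro ⟨⟨h1, h2⟩, ⟨e, rfl⟩⟩
      refine ⟨e, ⟨?_, ?_⟩, rfl⟩
      · rcases Nat.eq_zero_or_pos e with rfl | h
        · simp at h1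
        · exact h
      · rw [Nat.le_div_iff_mul_le (by omega), mul_comm]
        exact h2
    · rintro ⟨e, ⟨h1, h2⟩, rfl⟩
      refine ⟨⟨Nat.mul_pos (by omega) (by omega), ?_⟩, Dvd.intro _ rfl⟩
      rw [Nat.le_div_iff_mul_le (by omega), mul_comm] at h2
      exact h2
  have hGam : Gam Q r m = (r : ℝ) / Nat.totient r * ∑ q ∈ Icc 1 (Q / r), GAM_F r m q := by
    unfold Gam
    rw [himg, Finset.sum_image (fun a _ b _ h => Nat.eq_of_mul_eq_mul_left (by omega) h),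
      Finset.mul_sum]
    refine Finset.sum_congr rfl (fun q hq => ?_)
    rw [mem_Icc] at hq
    exact GAM_inner r m hr0 hrm q (by omega)
  have hρ := GAM_ratio_le r hr0
  have hρ0 : 0 ≤ (r : ℝ) / Nat.totient r := by positivity
  have hlogr : Real.log r ≤ Real.log Q :=
    Real.log_le_log (by exact_mod_cast hr) (by exact_mod_cast hrQ)
  rw [hGam, abs_mul, abs_of_nonneg hρ0]
  have h1 : |∑ q ∈ Icc 1 (Q / r), GAM_F r m q| ≤
      dQ Q m * ∑ q ∈ Icc 1 Q, (1 : ℝ) / Nat.totient q :=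
    (Finset.abs_sum_le_sum_abs _ _).trans (GAM_sum_F r m Q (Q / r) (Nat.div_le_self _ _))
  have h2 := sum_inv_totient Q
  calc (r : ℝ) / Nat.totient r * |∑ q ∈ Icc 1 (Q / r), GAM_F r m q|
      ≤ (10 * (1 + Real.log Q)) * (dQ Q m * (10 * (1 + Real.log Q) ^ 2)) := by
        refine mul_le_mul (hρ.trans (by linarith)) (h1.trans ?_) (abs_nonneg _) (by positivity)
        exact mul_le_mul_of_nonneg_left h2 hd0
    _ = _ := by ring

end Pool.Agent.Lib.H68T
end
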