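import Mathlib
import Pool.Agent.Lib.H59M.M2.M001
import Pool.Agent.Lib.H59M.M2.M003
import Pool.Agent.Lib.H59M.M2.M006
import Pool.Agent.Lib.H59M.M2.M021

/-! Merged copies (to shorten the build) of Lib.H56G.Crt, Lib.H15P.LV1, Lib.H15P.TR1, Lib.H92G.Defs, Lib.H92G.G0, Lib.H92G.G3, Lib.H15P.TR2, Lib.H92G.WG, Lib.Helper57.Mertens, Lib.Helper57.PairCount, Lib.H92G.CDefs, Lib.H92G.G1, Lib.H92G.G5, Lib.H92G.W1, Lib.H57M.Defs, Lib.H57M.Sc, Lib.H92G.W2, Lib.H92G.K5. -/

-- from Lib.H56G.Crt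
section

/-!
# Chunk CRT: sums of periodic functions with coprime periods
-/

open Finset

namespace Pool.Agent.Lib.H56G

/-- Chinese remainder theorem. Proof: `t ↦ (t mod m, t mod n)` is a bijection from `range (m*n)`
to `range m ×ˢ range n` (`Nat.chineseRemainder`, or injectivity + cardinality); `f t = f (t % m)`,
`g t = g (t % n)` (`Function.Periodic.map_mod_nat`); then `Finset.sum_mul_sum`. -/
theorem sum_range_mul {m n : ℕ} (hmn : Nat.Coprime m n) (hm : 0 < m) (hn : 0 < n)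
    (f g : ℕ → ℝ) (hf : Function.Periodic f m) (hg : Function.Periodic g n) :
    ∑ t ∈ range (m * n), f t * g t = (∑ t ∈ range m, f t) * ∑ t ∈ range n, g t := by
  rw [Finset.sum_mul_sum, ← Finset.sum_product']
  refine Finset.sum_bij' (fun t _ => (t % m, t % n))
    (fun x _ => (Nat.chineseRemainder hmn x.1 x.2 : ℕ)) ?_ ?_ ?_ ?_ ?_
  · intro t _
    simp only [Finset.mem_product, Finset.mem_range]
    exact ⟨Nat.mod_lt _ hm, Nat.mod_lt _ hn⟩
  · intro x _
    simp only [Finset.mem_range]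
    exact Nat.chineseRemainder_lt_mul hmn x.1 x.2 hm.ne' hn.ne'
  · intro t ht
    simp only [Finset.mem_range] at ht
    have h := (Nat.chineseRemainder hmn (t % m) (t % n)).2
    have h1 : (Nat.chineseRemainder hmn (t % m) (t % n) : ℕ) ≡ t [MOD m] :=
      h.1.trans (Nat.mod_modEq t m)
    have h2 : (Nat.chineseRemainder hmn (t % m) (t % n) : ℕ) ≡ t [MOD n] :=
      h.2.trans (Nat.mod_modEq t n)
    have h3 := (Nat.modEq_and_modEq_iff_modEq_mul hmn).1 ⟨h1, h2⟩
    exact Nat.ModEq.eq_of_lt_of_lt h3 (Nat.chineseRemainder_lt_mul hmn _ _ hm.ne' hn.ne') ht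
  · intro x hx
    simp only [Finset.mem_product, Finset.mem_range] at hx
    have h := (Nat.chineseRemainder hmn x.1 x.2).2
    apply Prod.ext
    · have := h.1
      rw [Nat.ModEq, Nat.mod_eq_of_lt hx.1] at this
      exact this
    · have := h.2
      rw [Nat.ModEq, Nat.mod_eq_of_lt hx.2] at this
      exact this
  · intro t _
    simp only
    rw [hf.map_mod_nat, hg.map_mod_nat]

/-- Product version. Induction on `A` with `sum_range_mul` (the product over `A` is periodic with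
period `∏ p i`; coprimality: distinct primes, `Nat.Coprime.prod_right`). -/
theorem sum_range_prod {ι : Type} [DecidableEq ι] (p : ι → ℕ) (hp : ∀ i, (p i).Prime)
    (hinj : Function.Injective p) (A : Finset ι) (F : ι → ℕ → ℝ)
    (hF : ∀ i, Function.Periodic (F i) (p i)) :
    ∑ t ∈ range (∏ i ∈ A, p i), ∏ i ∈ A, F i t = ∏ i ∈ A, ∑ t ∈ range (p i), F i t := by
  induction A using Finset.induction_on with
  | empty => simp
  | insert a A ha ih =>
    rw [Finset.prod_insert ha, Finset.prod_insert ha, ← ih]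
    have hcop : Nat.Coprime (p a) (∏ i ∈ A, p i) := by
      apply Nat.Coprime.prod_right
      intro i hi
      rw [Nat.coprime_primes (hp a) (hp i)]
      intro h
      exact ha (hinj h ▸ hi)
    have hper : Function.Periodic (fun t => ∏ i ∈ A, F i t) (∏ i ∈ A, p i) := by
      intro t
      apply Finset.prod_congr rfl
      intro i hi
      obtain ⟨k, hk⟩ := Finset.dvd_prod_of_mem p hi
      rw [hk]
      have := (hF i).nat_mul k
      have h2 := this t
      simpa [mul_comm] using h2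
    rw [← sum_range_mul hcop (hp a).pos (Finset.prod_pos fun i _ => (hp i).pos) (F a)
      (fun t => ∏ i ∈ A, F i t) (hF a) hper]
    apply Finset.sum_congr rfl
    intro t _
    rw [Finset.prod_insert ha]

theorem crt_sum_Icc_period (q : ℕ) (F : ℕ → ℝ) (hF : Function.Periodic F q) (a : ℕ) :
    ∑ t ∈ Ico a (a + q), F t = ∑ t ∈ range q, F t := by
  induction a with
  | zero => simp [Nat.Ico_zero_eq_range]
  | succ a ih =>
    rcases Nat.eq_zero_or_pos q with hq | hq
    · subst hq; simp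
    · have h1 : ∑ t ∈ Ico a (a + 1 + q), F t = F a + ∑ t ∈ Ico (a + 1) (a + 1 + q), F t :=
        Finset.sum_eq_sum_Ico_succ_bot (by omega) F
      have h2 : ∑ t ∈ Ico a (a + q + 1), F t = ∑ t ∈ Ico a (a + q), F t + F (a + q) :=
        Finset.sum_Ico_succ_top (by omega) F
      have h3 : a + 1 + q = a + q + 1 := by omega
      have h4 : F (a + q) = F a := hF a
      rw [h3] at h1
      rw [h3]
      linarith

theorem crt_sum_Icc_mul (q : ℕ) (F : ℕ → ℝ) (hF : Function.Periodic F q) (k : ℕ) :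
    ∑ t ∈ Ico 1 (1 + k * q), F t = k * ∑ t ∈ range q, F t := by
  induction k with
  | zero => simp
  | succ k ih =>
    have h1 : 1 + (k + 1) * q = (1 + k * q) + q := by ring
    rw [h1, ← Finset.sum_Ico_consecutive F (by omega : 1 ≤ 1 + k * q) (by omega), ih,
      crt_sum_Icc_period q F hF]
    push_cast
    ring

/-- Incomplete sums of a periodic function. Proof: write `Y = k q + l`, `l < q`; the sum over
`Icc 1 (k q)` is `k` times the full period sum `Σ` (`|Σ| ≤ q K`), the remaining `l` terms are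
at most `l K`; `|Y/q - k| ≤ 1`. -/
theorem abs_sum_Icc_sub_le (q : ℕ) (hq : 0 < q) (F : ℕ → ℝ) (hF : Function.Periodic F q)
    (K : ℝ) (hK : ∀ t, |F t| ≤ K) (Y : ℕ) :
    |∑ t ∈ Icc 1 Y, F t - Y * ((∑ t ∈ range q, F t) / q)| ≤ 2 * q * K := by
  have hq' : (0 : ℝ) < q := by exact_mod_cast hq
  have hK0 : 0 ≤ K := le_trans (abs_nonneg _) (hK 0)
  obtain ⟨k, l, hl, hY⟩ : ∃ k l, l < q ∧ Y = k * q + l :=
    ⟨Y / q, Y % q, Nat.mod_lt _ hq, by rw [mul_comm]; exact (Nat.div_add_mod Y q).symm⟩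
  have hI : Icc 1 Y = Ico 1 (1 + Y) := by
    ext t; simp only [Finset.mem_Icc, Finset.mem_Ico]; omega
  have hS : |∑ t ∈ range q, F t| ≤ q * K := by
    calc |∑ t ∈ range q, F t| ≤ ∑ t ∈ range q, |F t| := Finset.abs_sum_le_sum_abs _ _
      _ ≤ ∑ t ∈ range q, K := Finset.sum_le_sum fun t _ => hK t
      _ = q * K := by simp
  have hR : |∑ t ∈ Ico (1 + k * q) (1 + Y), F t| ≤ l * K := by
    calc |∑ t ∈ Ico (1 + k * q) (1 + Y), F t| ≤ ∑ t ∈ Ico (1 + k * q) (1 + Y), |F t| :=
          Finset.abs_sum_le_sum_abs _ _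
      _ ≤ ∑ t ∈ Ico (1 + k * q) (1 + Y), K := Finset.sum_le_sum fun t _ => hK t
      _ = l * K := by
        rw [Finset.sum_const, Nat.card_Ico, nsmul_eq_mul]
        congr 2
        omega
  have hsum : ∑ t ∈ Icc 1 Y, F t
      = k * ∑ t ∈ range q, F t + ∑ t ∈ Ico (1 + k * q) (1 + Y), F t := by
    rw [hI, ← Finset.sum_Ico_consecutive F (by omega : 1 ≤ 1 + k * q) (by omega),
      crt_sum_Icc_mul q F hF]
  have hYr : (Y : ℝ) = k * q + l := by rw [hY]; push_cast; ring
  have hlq : (l : ℝ) ≤ q := by exact_mod_cast hl.le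
  have hl0 : (0 : ℝ) ≤ l := by positivity
  set S := ∑ t ∈ range q, F t with hSdef
  set R := ∑ t ∈ Ico (1 + k * q) (1 + Y), F t with hRdef
  have hid : k * S + R - Y * (S / q) = R - (l / q) * S := by
    rw [hYr]
    field_simp
    ring
  rw [hsum, hid]
  calc |R - (l / q) * S| ≤ |R| + |(l / q) * S| := abs_sub _ _
    _ = |R| + (l / q) * |S| := by rw [abs_mul, abs_of_nonneg (by positivity : (0:ℝ) ≤ l / q)]
    _ ≤ l * K + (l / q) * (q * K) := by gcongr
    _ = 2 * (l * K) := by field_simp; ring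
    _ ≤ 2 * (q * K) := by gcongr
    _ = 2 * q * K := by ring

end Pool.Agent.Lib.H56G
end

-- from Lib.H15P.LV1
section

/-!
# Chunk LV1: the level norm
-/

open Finset

namespace Pool.Agent.Lib.H15P

variable {Q : ℕ}

theorem Lev.nonneg {G : ℕ → ℝ} {K : ℝ} (h : Lev Q G K) : 0 ≤ K := by
  induction h with
  | base g d c hd0 hd hper hc =>
    have hc0 : 0 ≤ c := le_trans (abs_nonneg _) (hc 0)
    positivity
  | add G G' K K' h h' ih ih' => exact add_nonneg ih ih'
  | mono G K K' h hK ih => exact ih.trans hK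

theorem Lev.const (hQ : 0 < Q) (c : ℝ) : Lev Q (fun _ => c) |c| := by
  have h := Lev.base (Q := Q) (fun _ => c) 1 |c| one_pos (one_dvd Q) (fun _ => rfl)
    (fun _ => le_rfl)
  exact Lev.mono _ _ _ h (by simp)

theorem Lev.const_mul {G : ℕ → ℝ} {K : ℝ} (h : Lev Q G K) (c : ℝ) :
    Lev Q (fun t => c * G t) (|c| * K) := by
  induction h with
  | base g d c' hd0 hd hper hc =>
    have h1 := Lev.base (Q := Q) (fun t => c * g t) d (|c| * c') hd0 hd
      (fun t => by simp only [hper t]) (fun t => by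
        rw [abs_mul]
        exact mul_le_mul_of_nonneg_left (hc t) (abs_nonneg c))
    exact Lev.mono _ _ _ h1 (by nlinarith)
  | add G G' K K' h h' ih ih' =>
    have h1 := Lev.add _ _ _ _ ih ih'
    have h2 : (fun t => c * G t + c * G' t) = fun t => c * (G t + G' t) := by
      funext t
      ring
    rw [h2] at h1
    exact Lev.mono _ _ _ h1 (by nlinarith)
  | mono G K K' h hK ih =>
    exact Lev.mono _ _ _ ih (mul_le_mul_of_nonneg_left hK (abs_nonneg c))

theorem lv1_mul_base {g : ℕ → ℝ} {d : ℕ} {c : ℝ} (hd0 : 0 < d) (hd : d ∣ Q)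
    (hper : Function.Periodic g d) (hc : ∀ t, |g t| ≤ c) {G' : ℕ → ℝ} {K' : ℝ}
    (h' : Lev Q G' K') : Lev Q (fun t => g t * G' t) (d * c * K') := by
  have hc0 : 0 ≤ c := le_trans (abs_nonneg _) (hc 0)
  induction h' with
  | base g' d' c' hd0' hd' hper' hc' =>
    have hc0' : 0 ≤ c' := le_trans (abs_nonneg _) (hc' 0)
    have hl : 0 < Nat.lcm d d' := Nat.lcm_pos hd0 hd0'
    have hl' : Nat.lcm d d' ∣ Q := Nat.lcm_dvd hd hd'
    have hp : Function.Periodic (fun t => g t * g' t) (Nat.lcm d d') := by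
      intro t
      obtain ⟨k, hk⟩ := Nat.dvd_lcm_left d d'
      obtain ⟨k', hk'⟩ := Nat.dvd_lcm_right d d'
      have h1 : g (t + Nat.lcm d d') = g t := by
        rw [hk, mul_comm]
        simpa using (hper.nat_mul k) t
      have h2 : g' (t + Nat.lcm d d') = g' t := by
        rw [hk', mul_comm]
        simpa using (hper'.nat_mul k') t
      show g (t + Nat.lcm d d') * g' (t + Nat.lcm d d') = g t * g' t
      rw [h1, h2]
    have h1 := Lev.base (Q := Q) (fun t => g t * g' t) (Nat.lcm d d') (c * c') hl hl' hp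
      (fun t => by
        rw [abs_mul]
        exact mul_le_mul (hc t) (hc' t) (abs_nonneg _) hc0)
    refine Lev.mono _ _ _ h1 ?_
    have h2 : ((Nat.lcm d d' : ℕ) : ℝ) ≤ d * d' := by
      exact_mod_cast Nat.le_of_dvd (Nat.mul_pos hd0 hd0') (Nat.lcm_dvd_mul d d')
    calc ((Nat.lcm d d' : ℕ) : ℝ) * (c * c') ≤ (d * d') * (c * c') :=
          mul_le_mul_of_nonneg_right h2 (mul_nonneg hc0 hc0')
      _ = d * c * (d' * c') := by ring
  | add G G' K K' h h' ih ih' =>
    have h1 := Lev.add _ _ _ _ ih ih'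
    have h2 : (fun t => g t * G t + g t * G' t) = fun t => g t * (G t + G' t) := by
      funext t
      ring
    rw [h2] at h1
    exact Lev.mono _ _ _ h1 (by nlinarith)
  | mono G K K' h hK ih =>
    exact Lev.mono _ _ _ ih (mul_le_mul_of_nonneg_left hK (by positivity))

/-- Double induction; the product of functions with periods `d, d' ∣ Q` has the period
`lcm d d' ∣ Q`, `lcm d d' ≤ d d'`. -/
theorem Lev.mul (hQ : 0 < Q) {G G' : ℕ → ℝ} {K K' : ℝ} (h : Lev Q G K) (h' : Lev Q G' K') :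
    Lev Q (fun t => G t * G' t) (K * K') := by
  have hK0' := h'.nonneg
  induction h with
  | base g d c hd0 hd hper hc => exact lv1_mul_base hd0 hd hper hc h'
  | add G1 G2 K1 K2 h1 h2 ih1 ih2 =>
    have h3 := Lev.add _ _ _ _ ih1 ih2
    have h4 : (fun t => G1 t * G' t + G2 t * G' t) = fun t => (G1 t + G2 t) * G' t := by
      funext t
      ring
    rw [h4] at h3
    exact Lev.mono _ _ _ h3 (by nlinarith)
  | mono G K1 K2 h hK ih =>
    exact Lev.mono _ _ _ ih (mul_le_mul_of_nonneg_right hK hK0')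


theorem Lev.prod {α : Type} (s : Finset α) (G : α → ℕ → ℝ) (K : α → ℝ)
    (hQ : 0 < Q) (h : ∀ a ∈ s, Lev Q (G a) (K a)) :
    Lev Q (fun t => ∏ a ∈ s, G a t) (∏ a ∈ s, K a) := by
  classical
  induction s using Finset.induction_on with
  | empty =>
    have h1 := Lev.const hQ 1
    rw [abs_one] at h1
    simpa using h1
  | insert a s ha ih =>
    have h1 := Lev.mul hQ (h a (Finset.mem_insert_self a s))
      (ih fun b hb => h b (Finset.mem_insert_of_mem hb))
    rw [Finset.prod_insert ha]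
    have h2 : (fun t => ∏ b ∈ insert a s, G b t) = fun t => G a t * ∏ b ∈ s, G b t := by
      funext t
      rw [Finset.prod_insert ha]
    rw [h2]
    exact h1

theorem Lev.pow (hQ : 0 < Q) {G : ℕ → ℝ} {K : ℝ} (h : Lev Q G K) (n : ℕ) :
    Lev Q (fun t => G t ^ n) (K ^ n) := by
  have h1 := Lev.prod (Finset.range n) (fun _ => G) (fun _ => K) hQ (fun _ _ => h)
  simpa using h1

theorem lv1_range_mul (d : ℕ) (g : ℕ → ℝ) (hg : Function.Periodic g d) (k : ℕ) :
    ∑ t ∈ range (k * d), g t = k * ∑ t ∈ range d, g t := by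
  rw [← H56G.crt_sum_Icc_mul d g hg k]
  have h1 : Function.Periodic g (k * d) := by
    have := hg.nat_mul k
    simpa using this
  rw [← H56G.crt_sum_Icc_period (k * d) g h1 1]

theorem lv1_avg_base {g : ℕ → ℝ} {d : ℕ} {c : ℝ} (hQ : 0 < Q) (hd0 : 0 < d) (hd : d ∣ Q)
    (hper : Function.Periodic g d) (hc : ∀ t, |g t| ≤ c) (a Y : ℕ) :
    |∑ t ∈ Ico a (a + Y), g t - Y * ((∑ t ∈ range Q, g t) / Q)| ≤ 2 * (d * c) := by
  have hF : Function.Periodic (fun t => g (t + (a + (d - 1)))) d := by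
    intro t
    show g (t + d + (a + (d - 1))) = g (t + (a + (d - 1)))
    have h1 : t + d + (a + (d - 1)) = t + (a + (d - 1)) + d := by ring
    rw [h1]
    exact hper _
  have h := H56G.abs_sum_Icc_sub_le d hd0 (fun t => g (t + (a + (d - 1)))) hF c
    (fun t => hc _) Y
  have h1 : ∑ t ∈ Icc 1 Y, g (t + (a + (d - 1))) = ∑ t ∈ Ico a (a + Y), g t := by
    have h2 : Ico a (a + Y) = (range Y).image (fun t => t + a) := by
      ext t
      simp only [Finset.mem_Ico, Finset.mem_image, Finset.mem_range]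
      constructor
      · rintro ⟨h3, h4⟩
        exact ⟨t - a, by omega, by omega⟩
      · rintro ⟨u, h3, rfl⟩
        omega
    have h3 : Icc 1 Y = (range Y).image (fun t => t + 1) := by
      ext t
      simp only [Finset.mem_Icc, Finset.mem_image, Finset.mem_range]
      constructor
      · rintro ⟨h3, h4⟩
        exact ⟨t - 1, by omega, by omega⟩
      · rintro ⟨u, h3, rfl⟩
        omega
    rw [h2, h3, Finset.sum_image (fun x _ y _ h => by simpa using h),
      Finset.sum_image (fun x _ y _ h => by simpa using h)]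
    apply Finset.sum_congr rfl
    intro t _
    have h4 : t + 1 + (a + (d - 1)) = t + a + d := by omega
    rw [h4]
    exact hper _
  have h2 : ∑ t ∈ range d, g (t + (a + (d - 1))) = ∑ t ∈ range d, g t := by
    rw [← H56G.crt_sum_Icc_period d g hper (a + (d - 1))]
    have h3 : Ico (a + (d - 1)) (a + (d - 1) + d) =
        (range d).image (fun t => t + (a + (d - 1))) := by
      ext t
      simp only [Finset.mem_Ico, Finset.mem_image, Finset.mem_range]
      constructor
      · rintro ⟨h3, h4⟩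
        exact ⟨t - (a + (d - 1)), by omega, by omega⟩
      · rintro ⟨u, h3, rfl⟩
        omega
    rw [h3, Finset.sum_image (fun x _ y _ h => by simpa using h)]
  obtain ⟨k, hk⟩ := hd
  have hk0 : 0 < k := by
    rcases Nat.eq_zero_or_pos k with h3 | h3
    · subst h3
      omega
    · exact h3
  have h3 : (∑ t ∈ range Q, g t) / (Q : ℝ) = (∑ t ∈ range d, g t) / d := by
    rw [hk, mul_comm d k, lv1_range_mul d g hper k]
    push_cast
    have hk' : (k : ℝ) ≠ 0 := by exact_mod_cast hk0.ne'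
    have hd' : (d : ℝ) ≠ 0 := by exact_mod_cast hd0.ne'
    field_simp
  rw [h1, h2] at h
  rw [h3]
  refine h.trans (le_of_eq ?_)
  ring

/-- Incomplete sums. Each term `g` (period `d`, `|g| ≤ c`) contributes at most `2 d c`:
`H56G.abs_sum_Icc_sub_le` for the translate `t ↦ g (t + a - 1)` (or directly), and the mean value
over `range Q` is the mean value over `range d` as `d ∣ Q`. Induction over `Lev`. -/
theorem Lev.avg (hQ : 0 < Q) {G : ℕ → ℝ} {K : ℝ} (h : Lev Q G K) (a Y : ℕ) :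
    |∑ t ∈ Ico a (a + Y), G t - Y * ((∑ t ∈ range Q, G t) / Q)| ≤ 2 * K := by
  induction h with
  | base g d c hd0 hd hper hc => exact lv1_avg_base hQ hd0 hd hper hc a Y
  | add G G' K K' h h' ih ih' =>
    have h1 : ∑ t ∈ Ico a (a + Y), (G t + G' t) -
        Y * ((∑ t ∈ range Q, (G t + G' t)) / Q) =
        (∑ t ∈ Ico a (a + Y), G t - Y * ((∑ t ∈ range Q, G t) / Q)) +
        (∑ t ∈ Ico a (a + Y), G' t - Y * ((∑ t ∈ range Q, G' t) / Q)) := by
      rw [Finset.sum_add_distrib, Finset.sum_add_distrib]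
      ring
    rw [h1]
    refine (abs_add_le _ _).trans ?_
    linarith
  | mono G K K' h hK ih => linarith

end Pool.Agent.Lib.H15P
end

-- from Lib.H15P.TR1
section

/-!
# Chunk TR1: the mean value over a full period, as a sum over exclusive configurations
-/

open Finset

namespace Pool.Agent.Lib.H15P

variable {J : Type} [Fintype J] [DecidableEq J]

/-- Probabilities at the prime `p`: `1/p` for each form, the rest for none of them. -/
noncomputable def ww (J : Type) [Fintype J] (p : ℕ) : Option J → ℝ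
  | none => 1 - (Fintype.card J : ℝ) / p
  | some _ => 1 / p

/-- The sets of primes of the forms in the configuration `κ`. -/
def cfg {P : Finset ℕ} (κ : {p // p ∈ P} → Option J) (j : J) : Finset {p // p ∈ P} :=
  univ.filter (fun i => κ i = some j)

theorem tr1_T (M b p : ℕ) (hp : p.Prime) (hM : ¬ p ∣ M) : ∃ T, T < p ∧
    ∀ t < p, (p ∣ b + M * t ↔ t = T) := by
  have : Fact p.Prime := ⟨hp⟩
  have hM' : (M : ZMod p) ≠ 0 := by
    rw [Ne, ZMod.natCast_eq_zero_iff]
    exact hM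
  refine ⟨(-(b : ZMod p) * (M : ZMod p)⁻¹).val, ZMod.val_lt _, fun t ht => ?_⟩
  rw [← ZMod.natCast_eq_zero_iff]
  push_cast
  constructor
  · intro h
    have h1 : (t : ZMod p) = -(b : ZMod p) * (M : ZMod p)⁻¹ := by
      field_simp
      linear_combination h
    rw [← h1, ZMod.val_cast_of_lt ht]
  · intro h
    have h1 : (t : ZMod p) = -(b : ZMod p) * (M : ZMod p)⁻¹ := by
      rw [h, ZMod.natCast_zmod_val]
    rw [h1]
    field_simp
    ring

/-- Indicator that the prime `p` has the state `o` at `t`. -/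
noncomputable def tr1_ind (M : ℕ) (b : J → ℕ) (p : ℕ) (t : ℕ) : Option J → ℝ
  | none => 1 - ∑ j, (if p ∣ b j + M * t then (1 : ℝ) else 0)
  | some j => if p ∣ b j + M * t then 1 else 0

/-- At most one form is divisible by a prime of `P`. -/
theorem tr1_unique {P : Finset ℕ} {W K M : ℕ} {b : J → ℕ} (hF : Forms P W K M b)
    {p : ℕ} (hp : p ∈ P) (t : ℕ) {j j' : J} (h1 : p ∣ b j + M * t) (h2 : p ∣ b j' + M * t) :
    j = j' := by
  by_contra hne
  apply hF.dist p hp j j' hne
  have h3 : b j + M * t ≡ b j' + M * t [MOD p] :=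
    ((Nat.modEq_zero_iff_dvd.2 h1).trans (Nat.modEq_zero_iff_dvd.2 h2).symm)
  exact Nat.ModEq.add_right_cancel' _ h3

theorem tr1_sum_one {P : Finset ℕ} {W K M : ℕ} {b : J → ℕ} (hF : Forms P W K M b)
    {p : ℕ} (hp : p ∈ P) (t : ℕ) {j : J} (h1 : p ∣ b j + M * t) :
    ∑ j', (if p ∣ b j' + M * t then (1 : ℝ) else 0) = 1 := by
  rw [Finset.sum_eq_single j]
  · rw [if_pos h1]
  · intro j' _ hj'
    rw [if_neg]
    intro h2
    exact hj' (tr1_unique hF hp t h2 h1)
  · intro h
    exact absurd (Finset.mem_univ j) h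

theorem tr1_expand {P : Finset ℕ} {W K M : ℕ} {b : J → ℕ} (hF : Forms P W K M b)
    (F : (J → Finset {p // p ∈ P}) → ℝ) (t : ℕ) :
    F (fun j => hit P (b j + M * t)) = ∑ κ : {p // p ∈ P} → Option J, F (cfg κ) *
      ∏ i, tr1_ind M b i.1 t (κ i) := by
  classical
  set κ0 : {p // p ∈ P} → Option J := fun i =>
    if h : ∃ j, i.1 ∣ b j + M * t then some h.choose else none with hκ0
  have hsome : ∀ i j, κ0 i = some j ↔ i.1 ∣ b j + M * t := by
    intro i j
    by_cases h : ∃ j, i.1 ∣ b j + M * t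
    · have e : κ0 i = some h.choose := by simp only [hκ0]; rw [dif_pos h]
      rw [e, Option.some_inj]
      constructor
      · intro hj
        rw [← hj]
        exact h.choose_spec
      · intro hj
        exact tr1_unique hF i.2 t h.choose_spec hj
    · have e : κ0 i = none := by simp only [hκ0]; rw [dif_neg h]
      rw [e]
      constructor
      · intro h'; exact absurd h' (by simp)
      · intro hj; exact absurd ⟨j, hj⟩ h
  have hnone : ∀ i, κ0 i = none → ∀ j, ¬ i.1 ∣ b j + M * t := by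
    intro i hi j hj
    rw [← hsome i j, hi] at hj
    exact absurd hj (by simp)
  rw [Finset.sum_eq_single κ0]
  · have h1 : (fun j => hit P (b j + M * t)) = cfg κ0 := by
      funext j
      unfold hit cfg
      apply Finset.filter_congr
      intro i _
      exact (hsome i j).symm
    have h2 : ∏ i, tr1_ind M b i.1 t (κ0 i) = 1 := by
      apply Finset.prod_eq_one
      intro i _
      rcases h : κ0 i with _ | j
      · unfold tr1_ind
        simp only
        rw [Finset.sum_eq_zero]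
        · ring
        · intro j _
          rw [if_neg (hnone i h j)]
      · unfold tr1_ind
        simp only
        rw [if_pos ((hsome i j).1 h)]
    rw [h1, h2, mul_one]
  · intro κ _ hκ
    obtain ⟨i, hi⟩ : ∃ i, κ i ≠ κ0 i := by
      by_contra hcon
      push Not at hcon
      exact hκ (funext hcon)
    have : tr1_ind M b i.1 t (κ i) = 0 := by
      rcases h : κ i with _ | j
      · rcases h' : κ0 i with _ | j'
        · rw [h, h'] at hi
          exact absurd rfl hi
        · unfold tr1_ind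
          simp only
          rw [tr1_sum_one hF i.2 t ((hsome i j').1 h')]
          ring
      · unfold tr1_ind
        simp only
        rw [if_neg]
        intro hd
        rw [h, (hsome i j).2 hd] at hi
        exact absurd rfl hi
    rw [Finset.prod_eq_zero (Finset.mem_univ i) this, mul_zero]
  · intro h
    exact absurd (Finset.mem_univ κ0) h

theorem tr1_periodic (M : ℕ) (b : J → ℕ) (p : ℕ) (o : Option J) :
    Function.Periodic (fun t => tr1_ind M b p t o) p := by
  intro t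
  have h : ∀ j, (p ∣ b j + M * (t + p)) ↔ (p ∣ b j + M * t) := by
    intro j
    have e : b j + M * (t + p) = (b j + M * t) + p * M := by ring
    rw [e]
    exact (Nat.dvd_add_left (Dvd.intro M rfl))
  rcases o with _ | j
  · simp only [tr1_ind, h]
  · simp only [tr1_ind, h]

theorem tr1_sum_some {P : Finset ℕ} {W K M : ℕ} {b : J → ℕ} (hF : Forms P W K M b)
    {p : ℕ} (hp : p ∈ P) (j : J) :
    ∑ t ∈ range p, (if p ∣ b j + M * t then (1 : ℝ) else 0) = 1 := by
  obtain ⟨T, hT, hT'⟩ := tr1_T M (b j) p (hF.prime p hp) (hF.cop p hp)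
  rw [Finset.sum_eq_single T]
  · rw [if_pos ((hT' T hT).2 rfl)]
  · intro t ht hne
    rw [if_neg]
    intro h
    exact hne ((hT' t (Finset.mem_range.1 ht)).1 h)
  · intro h
    exact absurd (Finset.mem_range.2 hT) h

theorem tr1_sum_period {P : Finset ℕ} {W K M : ℕ} {b : J → ℕ} (hF : Forms P W K M b)
    {p : ℕ} (hp : p ∈ P) (o : Option J) :
    ∑ t ∈ range p, tr1_ind M b p t o = p * ww J p o := by
  have hp0 : (p : ℝ) ≠ 0 := by
    have := (hF.prime p hp).pos
    positivity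
  rcases o with _ | j
  · simp only [tr1_ind, ww]
    rw [Finset.sum_sub_distrib, Finset.sum_comm]
    rw [Finset.sum_congr rfl (fun j _ => tr1_sum_some hF hp j)]
    simp only [sum_const, card_range, nsmul_eq_mul, mul_one, card_univ]
    field_simp
  · simp only [tr1_ind, ww]
    rw [tr1_sum_some hF hp j]
    field_simp

/-- Let `κ_t(p)` be the form divisible by `p` at `t` (at most one by `dist`), or `none`. Then
`F(hit ..) = Σ_κ F(cfg κ) ∏_p 1[κ_t(p) = κ p]`; the factor of `p` has period `p`, and by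
`H56G.sum_range_prod` (index type `{p // p ∈ P}`) the sum over a full period is
`∏_p #{t < p : κ_t(p) = κ p}`, where the factor is `1` if `κ p = some j` (`p ∤ M`: exactly one class,
see `H56G.gram1_T`), and `p - |J|` if `κ p = none`. -/
theorem EP_eq (P : Finset ℕ) (W K M : ℕ) (b : J → ℕ) (hF : Forms P W K M b)
    (F : (J → Finset {p // p ∈ P}) → ℝ) :
    EP P M b F = ∑ κ : {p // p ∈ P} → Option J, F (cfg κ) * ∏ i, ww J i.1 (κ i) := by
  classical
  have hprod : (∏ p ∈ P, p) = ∏ i : {p // p ∈ P}, i.1 := by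
    rw [← Finset.prod_coe_sort P (fun p => p)]
  have hpos : (0 : ℝ) < ((∏ p ∈ P, p : ℕ) : ℝ) := by
    have : 0 < ∏ p ∈ P, p := Finset.prod_pos (fun p hp => (hF.prime p hp).pos)
    exact_mod_cast this
  unfold EP
  rw [div_eq_iff hpos.ne', Finset.sum_mul]
  rw [Finset.sum_congr rfl (fun t _ => tr1_expand hF F t), Finset.sum_comm]
  refine Finset.sum_congr rfl (fun κ _ => ?_)
  rw [← Finset.mul_sum, mul_assoc]
  congr 1
  rw [hprod, H56G.sum_range_prod (fun i : {p // p ∈ P} => i.1) (fun i => hF.prime i.1 i.2)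
    Subtype.val_injective univ (fun i t => tr1_ind M b i.1 t (κ i))
    (fun i => tr1_periodic M b i.1 (κ i))]
  rw [Finset.prod_congr rfl (fun i _ => tr1_sum_period hF i.2 (κ i))]
  rw [Finset.prod_mul_distrib]
  push_cast
  ring

end Pool.Agent.Lib.H15P
end

-- from Lib.H92G.Defs
section

/-!
# H92G: definitions

Weights with form dependent one form functions. `ι` = index type of the primes, `J` = index type of
the forms `b j + M t`, `I` = labels. `ex`, `EX`, `bw`, `cnt`, `adm`, `hit`, `qq`, `Forms`, `EP`,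
`Lev`, `LevS` are those of `Lib/H15P/Defs`; `PC`, `p0`, `v` those of `Lib/H68T/Defs`.
-/

open Finset

namespace Pool.Agent.Lib.H92G

open Pool.Agent.Lib.H15P

/-! ## Weights (Part II) -/

/-- Factor of the form `j` with the label `o`. -/
noncomputable def dg {ι J I : Type} (D : J → I → Finset ι → ℝ) (j : J) :
    Option I → Finset ι → ℝ
  | none, _ => 1
  | some i, A => D j i A

/-- Sum over the labelings of `s` with coefficients `w`. -/
noncomputable def LW {ι J I : Type} [Fintype J] (D : J → I → Finset ι → ℝ)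
    (s : Finset (J → Option I)) (w : (J → Option I) → ℝ) (S : J → Finset ι) : ℝ :=
  ∑ l ∈ s, w l * ∏ j, dg D j (l j) (S j)

/-- The weight function (before squaring). -/
noncomputable def LG {ι J I : Type} [Fintype J] [DecidableEq J] [Fintype I] [DecidableEq I]
    (D : J → I → Finset ι → ℝ) (m : I → ℕ) (B : Finset J) (S : J → Finset ι) : ℝ :=
  LW D (adm B m) (fun _ => 1) S

/-- Second moments of the factors of the form `j`. -/
noncomputable def GJ {ι J I : Type} [Fintype ι] [DecidableEq ι] (q : ι → ℝ)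
    (D : J → I → Finset ι → ℝ) (j : J) : Option I → ℝ
  | none => 1
  | some i => ex q (fun A => D j i A ^ 2)

/-- Total weight of all labelings of `B`. -/
noncomputable def ZG {ι J I : Type} [Fintype ι] [DecidableEq ι] [Fintype I] (q : ι → ℝ)
    (D : J → I → Finset ι → ℝ) (B : Finset J) : ℝ :=
  ∏ j ∈ B, (1 + ∑ i, GJ q D j (some i))

/-- The hypotheses on the one form functions `D j i` (some of them may be `0`). -/
structure GoodJ {ι J I : Type} [Fintype ι] [DecidableEq ι] (q : ι → ℝ)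
    (D : J → I → Finset ι → ℝ) (h : ℝ) : Prop where
  q0 : ∀ i, 0 ≤ q i
  q1 : ∀ i, q i ≤ 1
  mean : ∀ j i, ex q (D j i) = 0
  orth : ∀ j i i', i ≠ i' → ex q (fun A => D j i A * D j i' A) = 0
  sq : ∀ j i, ex q (fun A => D j i A ^ 2) ≤ h
  fourth : ∀ j i, ex q (fun A => D j i A ^ 4) ≤ h

/-- Coefficient of the labeling `l` (outside `Z`) if no prime divides the forms of `Z`: sum over
the labelings `o` of `Z` such that `l` and `o` together are admissible. -/
noncomputable def wZ {ι J I : Type} [Fintype J] [DecidableEq J] [Fintype I] [DecidableEq I]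
    (D : J → I → Finset ι → ℝ) (m : I → ℕ) (Z : Finset J) (l : J → Option I) : ℝ :=
  ∑ o ∈ univ.filter (fun o : J → Option I => (∀ j, j ∉ Z → o j = none) ∧
      ∀ i, cnt l i + cnt o i ≤ m i), ∏ j ∈ Z, dg D j (o j) ∅


/-- The weight of a prime `m`: `log m v(m)/m`, `0` if `m` is not a prime. -/
noncomputable def lpv (X m : ℕ) : ℝ :=
  if m.Prime then Real.log m * H68T.v X m / m else 0






end Pool.Agent.Lib.H92G
end

-- from Lib.H92G.G0
section

/-!
# Chunk G0: sums over labelings with form dependent factors, tails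

Compare `H15P/PB3` (`sum_supp`, `tail_supp`: the same with factors independent of the form).
-/

open Finset

namespace Pool.Agent.Lib.H92G

open Pool.Agent.Lib.H15P

variable {J I : Type} [Fintype J] [DecidableEq J] [Fintype I] [DecidableEq I]

/-- `Finset.prod_univ_sum` with the sets `univ` (`j ∈ B`) and `{none}` (`j ∉ B`). -/
theorem sum_suppJ (a : J → Option I → ℝ) (h0 : ∀ j, a j none = 1) (B : Finset J) :
    ∑ l ∈ univ.filter (fun l : J → Option I => ∀ j, j ∉ B → l j = none), ∏ j, a j (l j)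
      = ∏ j ∈ B, (1 + ∑ i, a j (some i)) := by
  classical
  set t : J → Finset (Option I) := fun j => if j ∈ B then univ else {none} with ht
  have h1 : univ.filter (fun l : J → Option I => ∀ j, j ∉ B → l j = none) =
      Fintype.piFinset t := by
    ext l
    simp only [mem_filter, mem_univ, true_and, Fintype.mem_piFinset, ht]
    constructor
    · intro h j
      by_cases hj : j ∈ B
      · rw [if_pos hj]; exact mem_univ _
      · rw [if_neg hj, mem_singleton]; exact h j hj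
    · intro h j hj
      have := h j
      rw [if_neg hj, mem_singleton] at this
      exact this
  rw [h1, ← Finset.prod_univ_sum t (fun j o => a j o)]
  have h2 : ∀ j, ∑ o ∈ t j, a j o = if j ∈ B then (1 + ∑ i, a j (some i)) else 1 := by
    intro j
    by_cases hj : j ∈ B
    · simp only [ht, if_pos hj]
      rw [Fintype.sum_option, h0]
    · simp only [ht, if_neg hj, sum_singleton, h0]
  rw [Finset.prod_congr rfl (fun j _ => h2 j), Finset.prod_ite_mem, Finset.univ_inter]



end Pool.Agent.Lib.H92G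
end

-- from Lib.H92G.G3
section

/-!
# Chunk G3: configurations where no prime divides the forms of `Z`
-/

open Finset

namespace Pool.Agent.Lib.H92G

open Pool.Agent.Lib.H15P

variable {ι J I : Type} [Fintype J] [DecidableEq J] [Fintype I] [DecidableEq I]

omit [DecidableEq J] [Fintype I] in
theorem g3_cnt (Z : Finset J) (L l o : J → Option I) (h1 : ∀ j ∈ Z, l j = none)
    (h2 : ∀ j, j ∉ Z → l j = L j) (h3 : ∀ j ∈ Z, o j = L j) (h4 : ∀ j, j ∉ Z → o j = none) (i : I) :
    cnt L i = cnt l i + cnt o i := by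
  classical
  unfold cnt
  rw [← Finset.card_union_of_disjoint]
  · congr 1
    ext j
    simp only [mem_union, mem_filter, mem_univ, true_and]
    by_cases hj : j ∈ Z
    · rw [h1 j hj, h3 j hj]
      simp
    · rw [h2 j hj, h4 j hj]
      simp
  · rw [Finset.disjoint_left]
    intro j hj hj'
    simp only [mem_filter, mem_univ, true_and] at hj hj'
    by_cases hjZ : j ∈ Z
    · rw [h1 j hjZ] at hj
      simp at hj
    · rw [h4 j hjZ] at hj'
      simp at hj'

/-- A labeling `L ∈ adm B m` is the same as a pair (`l` = `L` outside `Z`, `none` in `Z`; `o` = `L`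
in `Z`, `none` outside `Z`) with `l` supported in `B \ Z`, `o` supported in `Z` and
`cnt L = cnt l + cnt o ≤ m`; then `l ∈ adm (B \ Z) m`. The product over all `j` of the factors of `L`
is the product of the factors of `l` over all `j` (`1` on `Z`) times the product of the factors of
`o` over `Z`, where `S j = ∅`. -/
theorem LG_restrict (D : J → I → Finset ι → ℝ) (m : I → ℕ) (B Z : Finset J) (hZ : Z ⊆ B)
    (S : J → Finset ι) (hS : ∀ j ∈ Z, S j = ∅) :
    LG D m B S = LW D (adm (B \ Z) m) (wZ D m Z) S := by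
  classical
  unfold LG LW wZ
  simp only [one_mul]
  have e1 : ∀ l : J → Option I, (∑ o ∈ univ.filter (fun o : J → Option I =>
      (∀ j, j ∉ Z → o j = none) ∧ ∀ i, cnt l i + cnt o i ≤ m i), ∏ j ∈ Z, dg D j (o j) ∅) *
      ∏ j, dg D j (l j) (S j) =
      ∑ o ∈ univ.filter (fun o : J → Option I =>
      (∀ j, j ∉ Z → o j = none) ∧ ∀ i, cnt l i + cnt o i ≤ m i),
        (∏ j ∈ Z, dg D j (o j) ∅) * ∏ j, dg D j (l j) (S j) := fun l => Finset.sum_mul _ _ _
  rw [Finset.sum_congr rfl (fun l _ => e1 l), Finset.sum_sigma']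
  refine Finset.sum_bij' (fun L _ => ⟨fun j => if j ∈ Z then none else L j,
    fun j => if j ∈ Z then L j else none⟩) (fun p _ => fun j => if j ∈ Z then p.2 j else p.1 j)
    ?_ ?_ ?_ ?_ ?_
  · intro L hL
    unfold adm at hL
    rw [mem_filter] at hL
    have hc := fun i => g3_cnt Z L (fun j => if j ∈ Z then none else L j)
      (fun j => if j ∈ Z then L j else none) (fun j hj => if_pos hj) (fun j hj => if_neg hj)
      (fun j hj => if_pos hj) (fun j hj => if_neg hj) i
    rw [mem_sigma]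
    constructor
    · unfold adm
      rw [mem_filter]
      refine ⟨mem_univ _, ?_, ?_⟩
      · intro j hj
        show (if j ∈ Z then none else L j) = none
        by_cases hjZ : j ∈ Z
        · rw [if_pos hjZ]
        · rw [if_neg hjZ]
          apply hL.2.1
          intro hjB
          exact hj (mem_sdiff.2 ⟨hjB, hjZ⟩)
      · intro i
        have := hL.2.2 i
        rw [hc i] at this
        show cnt (fun j => if j ∈ Z then none else L j) i ≤ m i
        omega
    · rw [mem_filter]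
      refine ⟨mem_univ _, fun j hj => if_neg hj, ?_⟩
      intro i
      have := hL.2.2 i
      rw [hc i] at this
      exact this
  · rintro ⟨l, o⟩ hp
    rw [mem_sigma] at hp
    obtain ⟨hl, ho⟩ := hp
    simp only at hl ho
    unfold adm at hl
    rw [mem_filter] at hl ho
    have hl0 : ∀ j ∈ Z, l j = none := fun j hj => hl.2.1 j (fun h => (mem_sdiff.1 h).2 hj)
    have hc := fun i => g3_cnt Z (fun j => if j ∈ Z then o j else l j) l o hl0
      (fun j hj => (if_neg hj).symm) (fun j hj => (if_pos hj).symm) ho.2.1 i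
    unfold adm
    rw [mem_filter]
    refine ⟨mem_univ _, ?_, ?_⟩
    · intro j hj
      show (if j ∈ Z then o j else l j) = none
      have hjZ : j ∉ Z := fun h => hj (hZ h)
      rw [if_neg hjZ]
      exact hl.2.1 j (fun h => hj (mem_sdiff.1 h).1)
    · intro i
      show cnt (fun j => if j ∈ Z then o j else l j) i ≤ m i
      rw [hc i]
      exact ho.2.2 i
  · intro L hL
    funext j
    show (if j ∈ Z then (if j ∈ Z then L j else none) else (if j ∈ Z then none else L j)) = L j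
    by_cases hj : j ∈ Z
    · rw [if_pos hj, if_pos hj]
    · rw [if_neg hj, if_neg hj]
  · rintro ⟨l, o⟩ hp
    rw [mem_sigma] at hp
    obtain ⟨hl, ho⟩ := hp
    simp only at hl ho
    unfold adm at hl
    rw [mem_filter] at hl ho
    have hl0 : ∀ j ∈ Z, l j = none := fun j hj => hl.2.1 j (fun h => (mem_sdiff.1 h).2 hj)
    have e2 : (fun j => if j ∈ Z then none else if j ∈ Z then o j else l j) = l := by
      funext j
      by_cases hj : j ∈ Z
      · rw [if_pos hj, hl0 j hj]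
      · rw [if_neg hj, if_neg hj]
    have e3 : (fun j => if j ∈ Z then (if j ∈ Z then o j else l j) else none) = o := by
      funext j
      by_cases hj : j ∈ Z
      · rw [if_pos hj, if_pos hj]
      · rw [if_neg hj, ho.2.1 j hj]
    simp only [e2, e3]
  · intro L hL
    show ∏ j, dg D j (L j) (S j) = (∏ j ∈ Z, dg D j (if j ∈ Z then L j else none) ∅) *
      ∏ j, dg D j (if j ∈ Z then none else L j) (S j)
    rw [← Finset.prod_mul_prod_compl Z (fun j => dg D j (L j) (S j)),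
      ← Finset.prod_mul_prod_compl Z (fun j => dg D j (if j ∈ Z then none else L j) (S j))]
    have a1 : ∏ j ∈ Z, dg D j (if j ∈ Z then none else L j) (S j) = 1 := by
      apply Finset.prod_eq_one
      intro j hj
      rw [if_pos hj]
      rfl
    have a2 : ∏ j ∈ Zᶜ, dg D j (if j ∈ Z then none else L j) (S j) =
        ∏ j ∈ Zᶜ, dg D j (L j) (S j) := by
      apply Finset.prod_congr rfl
      intro j hj
      rw [if_neg (mem_compl.1 hj)]
    have a3 : ∏ j ∈ Z, dg D j (if j ∈ Z then L j else none) ∅ =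
        ∏ j ∈ Z, dg D j (L j) (S j) := by
      apply Finset.prod_congr rfl
      intro j hj
      rw [if_pos hj, hS j hj]
    rw [a1, a2, a3, one_mul]

/-- If the values `D j i ∅` are nonnegative (`j ∈ Z`), all terms are nonnegative and the sum is at
most the sum over all labelings `o` supported in `Z`, which is the product
(`Finset.prod_univ_sum`, compare `sum_suppJ` in `G0`). -/
theorem wZ_bounds (D : J → I → Finset ι → ℝ) (m : I → ℕ) (Z : Finset J) (l : J → Option I)
    (hD : ∀ j ∈ Z, ∀ i, 0 ≤ D j i ∅) :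
    0 ≤ wZ D m Z l ∧ wZ D m Z l ≤ ∏ j ∈ Z, (1 + ∑ i, D j i ∅) := by
  classical
  have h0 : ∀ o : J → Option I, 0 ≤ ∏ j ∈ Z, dg D j (o j) ∅ := by
    intro o
    apply Finset.prod_nonneg
    intro j hj
    cases o j with
    | none => exact zero_le_one
    | some i => exact hD j hj i
  unfold wZ
  constructor
  · exact Finset.sum_nonneg fun o _ => h0 o
  · have h1 := sum_suppJ (fun j o => dg D j o ∅) (fun j => rfl) Z
    have h2 : ∏ j ∈ Z, (1 + ∑ i, D j i ∅) =
        ∑ o ∈ univ.filter (fun o : J → Option I => ∀ j, j ∉ Z → o j = none),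
          ∏ j ∈ Z, dg D j (o j) ∅ := by
      refine h1.symm.trans ?_
      apply Finset.sum_congr rfl
      intro o ho
      rw [mem_filter] at ho
      rw [← Finset.prod_mul_prod_compl Z (fun j => dg D j (o j) ∅)]
      have : ∏ j ∈ Zᶜ, dg D j (o j) ∅ = 1 := by
        apply Finset.prod_eq_one
        intro j hj
        rw [ho.2 j (mem_compl.1 hj)]
        rfl
      rw [this, mul_one]
    rw [h2]
    apply Finset.sum_le_sum_of_subset_of_nonneg
    · intro o ho
      rw [mem_filter] at ho ⊢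
      exact ⟨ho.1, ho.2.1⟩
    · intro o _ _
      exact h0 o


end Pool.Agent.Lib.H92G
end

-- from Lib.H15P.TR2
section

/-!
# Chunk TR2: upper bound for the mean value over a period by the independent model
-/

open Finset

namespace Pool.Agent.Lib.H15P

variable {J : Type} [Fintype J] [DecidableEq J]

/-- The numbers of `P` are distinct and `> W`: `Σ p^-2 ≤ 1/W` (see `H56G.cnt_sum_inv_sq`). -/
theorem sum_inv_sq_le (P : Finset ℕ) (W : ℕ) (hW : 1 ≤ W) (hb : ∀ p ∈ P, W < p) :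
    ∑ p ∈ P, 1 / (p : ℝ) ^ 2 ≤ 1 / (W : ℝ) := by
  obtain ⟨N, hN⟩ : ∃ N, W ≤ N ∧ ∀ p ∈ P, p ≤ N :=
    ⟨max W (P.sup id), le_max_left _ _, fun p hp =>
      (Finset.le_sup (f := id) hp).trans (le_max_right _ _)⟩
  have hsub : P ⊆ Ioc W N := fun n hn => Finset.mem_Ioc.2 ⟨hb n hn, hN.2 n hn⟩
  have h0 : ∑ p ∈ P, 1 / (p : ℝ) ^ 2 = ∑ p ∈ P, ((p : ℝ) ^ 2)⁻¹ :=
    Finset.sum_congr rfl (fun p _ => one_div _)
  rw [h0, one_div]
  calc ∑ n ∈ P, ((n : ℝ) ^ 2)⁻¹
      ≤ ∑ n ∈ Ioc W N, ((n : ℝ) ^ 2)⁻¹ :=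
        Finset.sum_le_sum_of_subset_of_nonneg hsub (fun _ _ _ => by positivity)
    _ ≤ (W : ℝ)⁻¹ - (N : ℝ)⁻¹ := sum_Ioc_inv_sq_le_sub (by omega) hN.1
    _ ≤ (W : ℝ)⁻¹ := by
        have : (0 : ℝ) ≤ (N : ℝ)⁻¹ := by positivity
        linarith

theorem qq_nonneg (P : Finset ℕ) (K : ℕ) (p : {p // p ∈ P}) : 0 ≤ qq P K p := by
  unfold qq
  positivity

theorem tr2_big (P : Finset ℕ) (W K : ℕ) (hK : 1 ≤ K) (hKW : 4 * K ^ 2 ≤ W)
    (hb : ∀ p ∈ P, W < p) (p : {p // p ∈ P}) : 4 * (K : ℝ) ≤ (p.1 : ℝ) ∧ (1 : ℝ) ≤ (p.1 : ℝ) := by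
  have h1 := hb p.1 p.2
  have h2 : 4 * K ≤ p.1 := by nlinarith
  have h3 : 1 ≤ p.1 := by omega
  exact ⟨by exact_mod_cast h2, by exact_mod_cast h3⟩

/-- `qq ≤ 2/p`, in particular `≤ 1` (`p ≥ W ≥ 4 K^2 ≥ 4 K`). -/
theorem qq_le (P : Finset ℕ) (W K : ℕ) (hK : 1 ≤ K) (hKW : 4 * K ^ 2 ≤ W)
    (hb : ∀ p ∈ P, W < p) (p : {p // p ∈ P}) : qq P K p ≤ 2 / (p.1 : ℝ) := by
  obtain ⟨h1, h2⟩ := tr2_big P W K hK hKW hb p
  unfold qq
  have hp : (0 : ℝ) < (p.1 : ℝ) := by linarith
  have hK0 : (0 : ℝ) ≤ K := by positivity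
  have hc : (1 : ℝ) ≤ 1 + 2 * K / (p.1 : ℝ) ^ 2 := by
    have : (0 : ℝ) ≤ 2 * K / (p.1 : ℝ) ^ 2 := by positivity
    linarith
  have ha : 1 / (p.1 : ℝ) + 2 * K / (p.1 : ℝ) ^ 2 ≤ 2 / (p.1 : ℝ) := by
    have e : 2 / (p.1 : ℝ) - (1 / (p.1 : ℝ) + 2 * K / (p.1 : ℝ) ^ 2)
        = ((p.1 : ℝ) - 2 * K) / (p.1 : ℝ) ^ 2 := by
      field_simp
      ring
    have : (0 : ℝ) ≤ ((p.1 : ℝ) - 2 * K) / (p.1 : ℝ) ^ 2 :=
      div_nonneg (by linarith) (by positivity)
    linarith
  refine (div_le_self (by positivity) hc).trans ha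

theorem tr2_qq_le_one (P : Finset ℕ) (W K : ℕ) (hK : 1 ≤ K) (hKW : 4 * K ^ 2 ≤ W)
    (hb : ∀ p ∈ P, W < p) (p : {p // p ∈ P}) : qq P K p ≤ 1 := by
  obtain ⟨h1, h2⟩ := tr2_big P W K hK hKW hb p
  refine (qq_le P W K hK hKW hb p).trans ?_
  have hp : (0 : ℝ) < (p.1 : ℝ) := by linarith
  rw [div_le_one hp]
  have : (1 : ℝ) ≤ K := by exact_mod_cast hK
  linarith

/-- One prime: `ww (κ p) ≤ ∏_j (factor of j)`, where the factor is `α = 1/p + 2K/p^2` for the form
`κ p` and `β = 1 - 1/p` for the other forms: `1 - k/p ≤ (1 - 1/p)^k` (Bernoulli) and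
`1/p ≤ α (1 - 1/p)^(k-1)` since `(1 + 2K/p)(1 - 1/p)^(k-1) ≥ (1 + 2K/p)(1 - K/p) ≥ 1` for
`2 K ≤ p`. -/
theorem ww_le (P : Finset ℕ) (W K : ℕ) (hK : 1 ≤ K) (hKW : 4 * K ^ 2 ≤ W)
    (hb : ∀ p ∈ P, W < p) (hJ : Fintype.card J ≤ K) (p : {p // p ∈ P}) (o : Option J) :
    ww J p.1 o ≤ ∏ j : J, (if o = some j then 1 / (p.1 : ℝ) + 2 * K / (p.1 : ℝ) ^ 2
      else 1 - 1 / (p.1 : ℝ)) := by
  obtain ⟨h1, h2⟩ := tr2_big P W K hK hKW hb p
  have hp : (0 : ℝ) < (p.1 : ℝ) := by linarith
  have hinv : 1 / (p.1 : ℝ) ≤ 1 := by rw [div_le_one hp]; exact h2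
  have hinv0 : 0 ≤ 1 / (p.1 : ℝ) := by positivity
  have hJr : (Fintype.card J : ℝ) ≤ K := by exact_mod_cast hJ
  have hK0 : (0 : ℝ) ≤ K := by positivity
  rcases o with _ | j0
  · have e : ∏ j : J, (if (none : Option J) = some j then 1 / (p.1 : ℝ) + 2 * K / (p.1 : ℝ) ^ 2
        else 1 - 1 / (p.1 : ℝ)) = (1 - 1 / (p.1 : ℝ)) ^ Fintype.card J := by
      rw [Finset.prod_congr rfl (g := fun _ => 1 - 1 / (p.1 : ℝ))]
      · rw [Finset.prod_const, Finset.card_univ]
      · intro j _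
        rw [if_neg (by simp)]
    rw [e]
    have hB := one_add_mul_le_pow (a := -(1 / (p.1 : ℝ))) (by linarith) (Fintype.card J)
    have e2 : ww J p.1 none = 1 + (Fintype.card J : ℝ) * (-(1 / (p.1 : ℝ))) := by
      unfold ww
      ring
    rw [e2]
    calc 1 + (Fintype.card J : ℝ) * (-(1 / (p.1 : ℝ))) ≤ (1 + -(1 / (p.1 : ℝ))) ^ Fintype.card J := hB
      _ = (1 - 1 / (p.1 : ℝ)) ^ Fintype.card J := by rw [← sub_eq_add_neg]
  · have e : ∏ j : J, (if (some j0 : Option J) = some j then 1 / (p.1 : ℝ) + 2 * K / (p.1 : ℝ) ^ 2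
        else 1 - 1 / (p.1 : ℝ)) = (1 / (p.1 : ℝ) + 2 * K / (p.1 : ℝ) ^ 2) *
          (1 - 1 / (p.1 : ℝ)) ^ (Fintype.card J - 1) := by
      rw [← Finset.mul_prod_erase univ _ (Finset.mem_univ j0), if_pos rfl]
      congr 1
      rw [Finset.prod_congr rfl (g := fun _ => 1 - 1 / (p.1 : ℝ))]
      · rw [Finset.prod_const, Finset.card_erase_of_mem (Finset.mem_univ j0), Finset.card_univ]
      · intro j hj
        rw [if_neg]
        intro h
        exact (Finset.ne_of_mem_erase hj) (Option.some_inj.1 h).symm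
    rw [e]
    have hB := one_add_mul_le_pow (a := -(1 / (p.1 : ℝ))) (by linarith) (Fintype.card J - 1)
    have hc1 : ((Fintype.card J - 1 : ℕ) : ℝ) ≤ K := by
      have : Fintype.card J - 1 ≤ K := by omega
      exact_mod_cast this
    have hlow : 1 - K * (1 / (p.1 : ℝ)) ≤ (1 - 1 / (p.1 : ℝ)) ^ (Fintype.card J - 1) := by
      have h3 : 1 - K * (1 / (p.1 : ℝ)) ≤ 1 + ((Fintype.card J - 1 : ℕ) : ℝ) * (-(1 / (p.1 : ℝ))) := by
        nlinarith
      have h4 : (1 + -(1 / (p.1 : ℝ))) = 1 - 1 / (p.1 : ℝ) := by ring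
      rw [h4] at hB
      exact h3.trans hB
    have hα : 0 ≤ 1 / (p.1 : ℝ) + 2 * K / (p.1 : ℝ) ^ 2 := by positivity
    have e2 : ww J p.1 (some j0) = 1 / (p.1 : ℝ) := rfl
    rw [e2]
    refine le_trans ?_ (mul_le_mul_of_nonneg_left hlow hα)
    have e3 : (1 / (p.1 : ℝ) + 2 * K / (p.1 : ℝ) ^ 2) * (1 - K * (1 / (p.1 : ℝ))) - 1 / (p.1 : ℝ)
        = K * ((p.1 : ℝ) - 2 * K) / (p.1 : ℝ) ^ 3 := by
      field_simp
      ring
    have : 0 ≤ K * ((p.1 : ℝ) - 2 * K) / (p.1 : ℝ) ^ 3 :=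
      div_nonneg (mul_nonneg hK0 (by linarith)) (by positivity)
    linarith

omit [Fintype J] in
theorem tr2_cfg_injective {P : Finset ℕ} :
    Function.Injective (cfg : ({p // p ∈ P} → Option J) → J → Finset {p // p ∈ P}) := by
  intro κ κ' h
  funext i
  apply Option.ext
  intro j
  have h1 : i ∈ cfg κ j ↔ i ∈ cfg κ' j := by rw [h]
  unfold cfg at h1
  simp only [mem_filter, mem_univ, true_and] at h1
  exact h1

theorem tr2_factor (P : Finset ℕ) (K : ℕ) (hb : ∀ p ∈ P, 0 < p) (κ : {p // p ∈ P} → Option J) :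
    ∏ i : {p // p ∈ P}, ∏ j : J, (if κ i = some j then 1 / (i.1 : ℝ) + 2 * K / (i.1 : ℝ) ^ 2
      else 1 - 1 / (i.1 : ℝ))
      = (∏ i : {p // p ∈ P}, (1 + 2 * K / (i.1 : ℝ) ^ 2)) ^ Fintype.card J *
        ∏ j, bw (qq P K) (cfg κ j) := by
  rw [Finset.prod_comm, ← Finset.card_univ, ← Finset.prod_const, ← Finset.prod_mul_distrib]
  refine Finset.prod_congr rfl (fun j _ => ?_)
  unfold bw
  rw [← Finset.prod_mul_distrib]
  refine Finset.prod_congr rfl (fun i _ => ?_)
  have hi : (0 : ℝ) < (i.1 : ℝ) := by exact_mod_cast hb i.1 i.2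
  have hc : (1 + 2 * K / (i.1 : ℝ) ^ 2) ≠ 0 := by
    have : (0 : ℝ) ≤ 2 * K / (i.1 : ℝ) ^ 2 := by positivity
    linarith
  have hmem : i ∈ cfg κ j ↔ κ i = some j := by
    unfold cfg
    simp only [mem_filter, mem_univ, true_and]
  by_cases h : κ i = some j
  · rw [if_pos h, if_pos (hmem.2 h)]
    unfold qq
    rw [mul_div_cancel₀]
    exact hc
  · rw [if_neg h, if_neg (fun h' => h (hmem.1 h'))]
    unfold qq
    rw [mul_sub, mul_one, mul_div_cancel₀]
    · ring
    · exact hc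

/-- `α = (1 + 2K/p^2) qq`, `β = (1 + 2K/p^2) (1 - qq)`. Multiply `ww_le` over the primes:
`∏_p ww (κ p) ≤ ∏_p (1 + 2K/p^2)^|J| ∏_j bw (cfg κ j)`, the first factor is at most
`exp (2 K |J| Σ p^-2) ≤ exp (2 K^2/W)`; `κ ↦ cfg κ` is injective and all terms are
nonnegative. -/
theorem EP_le (P : Finset ℕ) (W K M : ℕ) (b : J → ℕ) (hF : Forms P W K M b)
    (F : (J → Finset {p // p ∈ P}) → ℝ) (h0 : ∀ S, 0 ≤ F S) :
    EP P M b F ≤ Real.exp (2 * (K : ℝ) ^ 2 / W) * EX (qq P K) F := by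
  classical
  have hW1 : 1 ≤ W := by
    have := hF.KW
    have := hF.one_le
    nlinarith
  have hWr : (0 : ℝ) < W := by exact_mod_cast hW1
  have hpos : ∀ p ∈ P, 0 < p := fun p hp => (hF.prime p hp).pos
  have hbw : ∀ A, 0 ≤ bw (qq P K) A := bw_nonneg _ (qq_nonneg P K)
    (tr2_qq_le_one P W K hF.one_le hF.KW hF.big)
  have hc : (∏ i : {p // p ∈ P}, (1 + 2 * K / (i.1 : ℝ) ^ 2)) ^ Fintype.card J
      ≤ Real.exp (2 * (K : ℝ) ^ 2 / W) := by
    have h1 : ∏ i : {p // p ∈ P}, (1 + 2 * K / (i.1 : ℝ) ^ 2) ≤ Real.exp (2 * K / W) := by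
      calc ∏ i : {p // p ∈ P}, (1 + 2 * K / (i.1 : ℝ) ^ 2)
          ≤ ∏ i : {p // p ∈ P}, Real.exp (2 * K / (i.1 : ℝ) ^ 2) := by
            apply Finset.prod_le_prod
            · intro i _
              positivity
            · intro i _
              rw [add_comm]
              exact Real.add_one_le_exp _
        _ = Real.exp (∑ i : {p // p ∈ P}, 2 * K / (i.1 : ℝ) ^ 2) := by rw [Real.exp_sum]
        _ ≤ Real.exp (2 * K / W) := by
            apply Real.exp_le_exp.2
            have e1 : ∑ i : {p // p ∈ P}, 2 * (K : ℝ) / (i.1 : ℝ) ^ 2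
                = ∑ p ∈ P, 2 * (K : ℝ) / (p : ℝ) ^ 2 :=
              Finset.sum_coe_sort P (fun p => 2 * (K : ℝ) / (p : ℝ) ^ 2)
            rw [e1]
            have e2 : ∑ p ∈ P, 2 * (K : ℝ) / (p : ℝ) ^ 2 = 2 * (K : ℝ) * ∑ p ∈ P, 1 / (p : ℝ) ^ 2 := by
              rw [Finset.mul_sum]
              refine Finset.sum_congr rfl (fun p _ => ?_)
              ring
            rw [e2]
            calc 2 * (K : ℝ) * ∑ p ∈ P, 1 / (p : ℝ) ^ 2 ≤ 2 * K * (1 / W) :=
                  mul_le_mul_of_nonneg_left (sum_inv_sq_le P W hW1 hF.big) (by positivity)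
              _ = 2 * K / W := by ring
    calc (∏ i : {p // p ∈ P}, (1 + 2 * K / (i.1 : ℝ) ^ 2)) ^ Fintype.card J
        ≤ (Real.exp (2 * K / W)) ^ Fintype.card J := by
          apply pow_le_pow_left₀ _ h1
          apply Finset.prod_nonneg
          intro i _
          positivity
      _ = Real.exp (Fintype.card J * (2 * K / W)) := by rw [← Real.exp_nat_mul]
      _ ≤ Real.exp (2 * (K : ℝ) ^ 2 / W) := by
          apply Real.exp_le_exp.2
          have hJr : (Fintype.card J : ℝ) ≤ K := by exact_mod_cast hF.card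
          calc (Fintype.card J : ℝ) * (2 * K / W) ≤ K * (2 * K / W) :=
                mul_le_mul_of_nonneg_right hJr (by positivity)
            _ = 2 * (K : ℝ) ^ 2 / W := by ring
  have hww : ∀ κ : {p // p ∈ P} → Option J, ∏ i, ww J i.1 (κ i)
      ≤ Real.exp (2 * (K : ℝ) ^ 2 / W) * ∏ j, bw (qq P K) (cfg κ j) := by
    intro κ
    calc ∏ i, ww J i.1 (κ i)
        ≤ ∏ i : {p // p ∈ P}, ∏ j : J, (if κ i = some j then
            1 / (i.1 : ℝ) + 2 * K / (i.1 : ℝ) ^ 2 else 1 - 1 / (i.1 : ℝ)) := by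
          apply Finset.prod_le_prod
          · intro i _
            have h2 := tr2_big P W K hF.one_le hF.KW hF.big i
            have hJr : (Fintype.card J : ℝ) ≤ K := by exact_mod_cast hF.card
            rcases h : κ i with _ | j
            · have hp : (0 : ℝ) < (i.1 : ℝ) := by linarith [h2.2]
              have : (Fintype.card J : ℝ) / (i.1 : ℝ) ≤ 1 := by
                rw [div_le_one hp]
                linarith [h2.1, (Nat.cast_nonneg K : (0 : ℝ) ≤ K)]
              simp only [ww]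
              linarith
            · simp only [ww]
              positivity
          · intro i _
            exact ww_le P W K hF.one_le hF.KW hF.big hF.card i (κ i)
      _ = _ := tr2_factor P K hpos κ
      _ ≤ _ := mul_le_mul_of_nonneg_right hc (Finset.prod_nonneg (fun j _ => hbw _))
  rw [EP_eq P W K M b hF F]
  calc ∑ κ : {p // p ∈ P} → Option J, F (cfg κ) * ∏ i, ww J i.1 (κ i)
      ≤ ∑ κ : {p // p ∈ P} → Option J, F (cfg κ) *
          (Real.exp (2 * (K : ℝ) ^ 2 / W) * ∏ j, bw (qq P K) (cfg κ j)) :=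
        Finset.sum_le_sum (fun κ _ => mul_le_mul_of_nonneg_left (hww κ) (h0 _))
    _ = Real.exp (2 * (K : ℝ) ^ 2 / W) *
          ∑ κ : {p // p ∈ P} → Option J, F (cfg κ) * ∏ j, bw (qq P K) (cfg κ j) := by
        rw [Finset.mul_sum]
        refine Finset.sum_congr rfl (fun κ _ => ?_)
        ring
    _ ≤ Real.exp (2 * (K : ℝ) ^ 2 / W) * EX (qq P K) F := by
        apply mul_le_mul_of_nonneg_left _ (Real.exp_pos _).le
        unfold EX
        have e : ∑ κ : {p // p ∈ P} → Option J, F (cfg κ) * ∏ j, bw (qq P K) (cfg κ j)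
            = ∑ S ∈ (univ : Finset ({p // p ∈ P} → Option J)).image cfg,
                F S * ∏ j, bw (qq P K) (S j) := by
          rw [Finset.sum_image (fun a _ b _ h => tr2_cfg_injective h)]
        rw [e]
        exact Finset.sum_le_sum_of_subset_of_nonneg (Finset.subset_univ _)
          (fun S _ _ => mul_nonneg (h0 S) (Finset.prod_nonneg (fun j _ => hbw _)))

end Pool.Agent.Lib.H15P
end

-- from Lib.H92G.WG
section

/-!
# The data of the weights for one value of `x`, the weight `nu`, the classes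
-/

open Finset

namespace Pool.Agent.Lib.H92G

open Pool.Agent.Lib.H15P

/-- All data of the weight function and the inequalities between them. `KA` = bound for the number
of allowed forms, `K` = bound for the number of all forms. Allowed forms (`true`) use the labels
`inl i`, disallowed forms (`false`) the labels `inr i`. -/
structure WG where
  P : Finset ℕ
  W : ℕ
  KA : ℕ
  K : ℕ
  nA : ℕ
  nD : ℕ
  DJ : Bool → (Fin nA ⊕ Fin nD) → Finset {p // p ∈ P} → ℝ
  m : (Fin nA ⊕ Fin nD) → ℕ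
  R : (Fin nA ⊕ Fin nD) → ℝ
  lm : Finset {p // p ∈ P} → ℝ
  cA : ℝ
  h : ℝ
  C : ℝ
  lv : ℝ
  e : ℝ
  el : ℝ
  prime : ∀ p ∈ P, p.Prime
  big : ∀ p ∈ P, W < p
  nDpos : 0 < nD
  Kpos : 1 ≤ K
  KW : 4 * K ^ 2 ≤ W
  cA0 : 0 ≤ cA
  good : GoodJ (qq P K) DJ h
  h0 : 0 ≤ h
  trl : ∀ i, DJ true (Sum.inl i) ∅ = cA
  trr : ∀ i A, DJ true (Sum.inr i) A = 0
  fll : ∀ i A, DJ false (Sum.inl i) A = 0
  flr : ∀ i, DJ false (Sum.inr i) ∅ = -1 / (nD : ℝ)
  hm : ∀ i, 2 * (KA * GJ (qq P K) DJ true (some i) + K * GJ (qq P K) DJ false (some i)) + R i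
    ≤ m i
  hR : ∑ i, Real.exp (-R i) ≤ 1 / 4
  hG : ∀ a, ∑ i, GJ (qq P K) DJ a (some i) ≤ 1
  lm0 : ∀ A, 0 ≤ lm A
  lm1 : lm ∅ = 1
  lmel : ex (qq P K) lm ≤ el
  el0 : 0 < el
  el1 : el ≤ 1
  e0 : 0 < e
  e1 : e ≤ 1 / 10
  hlm : K * (∑ i : Fin nD, Real.exp (-R (Sum.inr i))) * el ≤ e
  hC : Real.exp ((((nA + nD : ℕ) : ℝ) + 1) ^ 4 * h * K) ≤ C
  hKW : Real.exp (2 * (K : ℝ) ^ 2 / W) ≤ 1 + e
  lv1 : 1 ≤ lv
  levL : ∀ (J : Type) [Fintype J] [DecidableEq J] (al : J → Bool) (B : Finset J) (M : ℕ)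
    (b : J → ℕ) (wt : (J → Option (Fin nA ⊕ Fin nD)) → ℝ),
    Fintype.card J ≤ K → (∀ l, |wt l| ≤ 1) →
      Lev (∏ p ∈ P, p)
        (fun t => LW (fun j => DJ (al j)) (adm B m) wt (fun j => hit P (b j + M * t))) lv
  levlm : LevS P lm lv

/-- The factors of the forms `b + M t`, `b ∈ B`, if the elements of `A` are allowed. -/
def WG.Df (w : WG) (A B : Finset ℕ) :
    {b // b ∈ B} → (Fin w.nA ⊕ Fin w.nD) → Finset {p // p ∈ w.P} → ℝ :=
  fun j => w.DJ (decide (j.1 ∈ A))

/-- The weight at `t` of the system of the forms `b + M t`, `b ∈ B`. -/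
noncomputable def WG.nu (w : WG) (A B : Finset ℕ) (M t : ℕ) : ℝ :=
  LG (w.Df A B) w.m univ (fun j : {b // b ∈ B} => hit w.P (j.1 + M * t)) ^ 2 /
    ZG (qq w.P w.K) (w.Df A B) univ

/-- The value `1 + nA cA`: the gain at a prime of an allowed form. -/
noncomputable def WG.g (w : WG) : ℝ := 1 + w.nA * w.cA

/-- Hypotheses on a system of forms. -/
structure WG.Sys (w : WG) (A B : Finset ℕ) (M : ℕ) : Prop where
  AB : A ⊆ B
  cardA : A.card ≤ w.KA
  cardB : B.card ≤ w.K
  dist : ∀ b ∈ B, ∀ b' ∈ B, b ≤ b' + w.W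
  cop : ∀ p ∈ w.P, ¬ p ∣ M

/-- Hypothesis on the length of the sums. -/
def WG.Long (w : WG) (Y : ℕ) : Prop := 8 * w.K * w.g ^ 4 * w.lv ^ 4 ≤ w.e * w.el ^ 2 * Y

end Pool.Agent.Lib.H92G
end

-- from Lib.Helper57.Mertens
section

/-!
# Mertens-type upper bounds
-/

namespace Pool.Agent.Lib.Helper57

open Finset Pool.Agent.Lib.Sieve

/-- Partial sums of `log p / p`. -/
noncomputable def SL (n : ℕ) : ℝ := ∑ p ∈ primesUpTo n, Real.log p / p

lemma primesUpTo_succ (n : ℕ) :
    primesUpTo (n + 1) = if (n + 1).Prime then insert (n + 1) (primesUpTo n) else primesUpTo n := by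
  unfold primesUpTo
  rw [Finset.range_add_one, Finset.filter_insert]

lemma sum_primesUpTo_succ (n : ℕ) (f : ℕ → ℝ) :
    ∑ p ∈ primesUpTo (n + 1), f p =
      ∑ p ∈ primesUpTo n, f p + if (n + 1).Prime then f (n + 1) else 0 := by
  rw [primesUpTo_succ]
  split_ifs with h
  · rw [Finset.sum_insert, add_comm]
    rw [mem_primesUpTo]; omega
  · simp

lemma primesUpTo_one : primesUpTo 1 = ∅ := by
  ext p; rw [mem_primesUpTo]; constructor
  · rintro ⟨h1, h2⟩; have := h1.two_le; omega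
  · intro h; simp at h

/-- Abel summation. -/
lemma sum_inv_eq (n : ℕ) (hn : 2 ≤ n) :
    ∑ p ∈ primesUpTo n, (1 : ℝ) / p = SL n / Real.log n +
      ∑ m ∈ Finset.Ico 2 n, SL m * (1 / Real.log m - 1 / Real.log (m + 1 : ℕ)) := by
  induction n, hn using Nat.le_induction with
  | base =>
    have h1 := sum_primesUpTo_succ 1 (fun p => (1 : ℝ) / p)
    have h2 := sum_primesUpTo_succ 1 (fun p => Real.log p / p)
    rw [primesUpTo_one] at h1 h2
    norm_num at h1 h2
    unfold SL
    rw [h2]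
    have h3 : Real.log 2 ≠ 0 := (Real.log_pos (by norm_num)).ne'
    simp only [Finset.Ico_self, Finset.sum_empty, add_zero]
    simp only [one_div]
    rw [h1]
    push_cast
    field_simp
  | succ n hn ih =>
    rw [sum_primesUpTo_succ, Finset.sum_Ico_succ_top hn, ih]
    have h2 : SL (n + 1) = SL n + if (n + 1).Prime then Real.log (n + 1 : ℕ) / (n + 1 : ℕ) else 0 := by
      unfold SL
      rw [sum_primesUpTo_succ n (fun p => Real.log p / p)]
    rw [h2]
    have h3 : Real.log (n + 1 : ℕ) ≠ 0 := by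
      apply (Real.log_pos _).ne'
      have : (2 : ℝ) ≤ n := by exact_mod_cast hn
      push_cast; linarith
    have h4 : Real.log (n : ℕ) ≠ 0 := by
      apply (Real.log_pos _).ne'
      have : (2 : ℝ) ≤ n := by exact_mod_cast hn
      linarith
    split_ifs with hp
    · field_simp
      ring
    · field_simp
      ring

/-- `∑_{p ≤ n} 1/p ≤ log log n + 4`. -/
lemma sum_inv_primes_le (n : ℕ) (hn : 2 ≤ n) :
    ∑ p ∈ primesUpTo n, (1 : ℝ) / p ≤ Real.log (Real.log n) + 4 := by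
  rw [sum_inv_eq n hn]
  have hn' : (2 : ℝ) ≤ n := by exact_mod_cast hn
  have hlog2 : 0 < Real.log 2 := Real.log_pos (by norm_num)
  have hlogn : 0 < Real.log n := Real.log_pos (by linarith)
  have h0 : SL n / Real.log n ≤ 1 + Real.log 4 / Real.log n := by
    rw [div_le_iff₀ hlogn]
    have := sum_log_div_le n (by omega)
    unfold SL
    field_simp
    linarith
  have h1 : ∀ m ∈ Finset.Ico 2 n, SL m * (1 / Real.log m - 1 / Real.log (m + 1 : ℕ)) ≤
      (Real.log (Real.log (m + 1 : ℕ)) - Real.log (Real.log m)) +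
        Real.log 4 * (1 / Real.log m - 1 / Real.log (m + 1 : ℕ)) := by
    intro m hm
    rw [Finset.mem_Ico] at hm
    have hm' : (2 : ℝ) ≤ m := by exact_mod_cast hm.1
    have hlm : 0 < Real.log m := Real.log_pos (by linarith)
    have hlm1 : Real.log m < Real.log (m + 1 : ℕ) := by
      apply Real.log_lt_log (by linarith)
      push_cast; linarith
    have hlm2 : 0 < Real.log (m + 1 : ℕ) := hlm.trans hlm1
    have h2 : 0 ≤ 1 / Real.log m - 1 / Real.log (m + 1 : ℕ) := by
      rw [sub_nonneg]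
      exact one_div_le_one_div_of_le hlm hlm1.le
    have h3 : SL m ≤ Real.log m + Real.log 4 := sum_log_div_le m (by omega)
    calc SL m * (1 / Real.log m - 1 / Real.log (m + 1 : ℕ))
        ≤ (Real.log m + Real.log 4) * (1 / Real.log m - 1 / Real.log (m + 1 : ℕ)) :=
          mul_le_mul_of_nonneg_right h3 h2
      _ = (1 - Real.log m / Real.log (m + 1 : ℕ)) +
          Real.log 4 * (1 / Real.log m - 1 / Real.log (m + 1 : ℕ)) := by
          field_simp
      _ ≤ _ := by
          have h5 := Real.one_sub_inv_le_log_of_pos (x := Real.log (m + 1 : ℕ) / Real.log m)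
            (by positivity)
          rw [Real.log_div hlm2.ne' hlm.ne', inv_div] at h5
          linarith
  have h2 := Finset.sum_le_sum h1
  rw [Finset.sum_add_distrib, ← Finset.mul_sum] at h2
  have h3 : ∀ f : ℕ → ℝ, ∑ m ∈ Finset.Ico 2 n, (f (m + 1) - f m) = f n - f 2 := by
    intro f
    exact Finset.sum_Ico_sub f hn
  have h4 := h3 (fun m => Real.log (Real.log m))
  have h5 := h3 (fun m => -(1 / Real.log m))
  have h6 : ∑ m ∈ Finset.Ico 2 n, (1 / Real.log m - 1 / Real.log (m + 1 : ℕ)) =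
      1 / Real.log 2 - 1 / Real.log n := by
    rw [← sub_eq_zero]
    have : ∑ m ∈ Finset.Ico 2 n, (1 / Real.log m - 1 / Real.log (m + 1 : ℕ)) =
      ∑ m ∈ Finset.Ico 2 n, (-(1 / Real.log (m + 1 : ℕ)) - -(1 / Real.log m)) := by
      apply Finset.sum_congr rfl
      intro m _
      ring
    rw [this, h5]
    push_cast
    ring
  rw [h4, h6] at h2
  have h7 : Real.log 4 = 2 * Real.log 2 := by
    rw [show (4 : ℝ) = 2 ^ 2 by norm_num, Real.log_pow]; push_cast; ring
  have h8 : Real.log 4 * (1 / Real.log 2 - 1 / Real.log n) = 2 - Real.log 4 / Real.log n := by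
    rw [h7]; field_simp
  rw [h8] at h2
  -- `- log log 2 ≤ 1/2`
  have h9 : -(1 : ℝ) ≤ Real.log (Real.log 2) := by
    rw [Real.le_log_iff_exp_le hlog2]
    have h10 := Real.exp_neg_one_lt_d9
    have h11 := Real.log_two_gt_d9
    linarith
  push_cast at h2 ⊢
  have h2' : ∑ m ∈ Finset.Ico 2 n, SL m * (1 / Real.log m - 1 / Real.log (m + 1)) ≤
      (Real.log (Real.log n) - Real.log (Real.log 2)) + (2 - Real.log 4 / Real.log n) := h2
  linarith

lemma neg_log_one_sub_le {t : ℝ} (h0 : 0 ≤ t) (h1 : t ≤ 1 / 2) :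
    -Real.log (1 - t) ≤ t + 2 * t ^ 2 := by
  have _ := h0
  have h2 : 0 < 1 - t := by linarith
  rw [← Real.log_inv]
  have h3 := Real.log_le_sub_one_of_pos (inv_pos.mpr h2)
  refine h3.trans ?_
  rw [show (1 - t)⁻¹ - 1 = t / (1 - t) by field_simp; ring]
  rw [div_le_iff₀ h2]
  nlinarith [mul_nonneg h0 h0, mul_nonneg (mul_nonneg h0 h0) h0]

lemma sum_inv_sq_primes_le (S : Finset ℕ) (m : ℕ) (hm : 1 ≤ m) (hS : ∀ p ∈ S, m < p) :
    ∑ p ∈ S, (1 : ℝ) / (p : ℝ) ^ 2 ≤ 1 / m := by
  obtain ⟨N, hN⟩ : ∃ N, ∀ p ∈ S, p ≤ N := ⟨S.sup id, fun p hp => Finset.le_sup (f := id) hp⟩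
  have h1 : ∀ n : ℕ, m ≤ n → ∑ p ∈ Finset.Ioc m n, (1 : ℝ) / (p : ℝ) ^ 2 ≤ 1 / m - 1 / n := by
    intro n hn
    induction n, hn using Nat.le_induction with
    | base => simp
    | succ n hn ih =>
      rw [← Finset.insert_Ioc_right_eq_Ioc_add_one (by omega), Finset.sum_insert (by simp)]
      have hn' : (0 : ℝ) < n := by
        have : 1 ≤ n := hm.trans hn
        exact_mod_cast this
      have h3 : (1 : ℝ) / ((n + 1 : ℕ) : ℝ) ^ 2 ≤ 1 / n - 1 / (n + 1 : ℕ) := by
        push_cast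
        rw [div_sub_div _ _ hn'.ne' (by positivity), div_le_div_iff₀ (by positivity) (by positivity)]
        nlinarith
      linarith
  rcases le_or_gt m N with h | h
  · calc ∑ p ∈ S, (1 : ℝ) / (p : ℝ) ^ 2 ≤ ∑ p ∈ Finset.Ioc m N, (1 : ℝ) / (p : ℝ) ^ 2 := by
          apply Finset.sum_le_sum_of_subset_of_nonneg
          · intro p hp
            rw [Finset.mem_Ioc]
            exact ⟨hS p hp, hN p hp⟩
          · intro p _ _
            positivity
      _ ≤ 1 / m - 1 / N := h1 N h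
      _ ≤ 1 / m := by
          have : (0 : ℝ) ≤ 1 / N := by positivity
          linarith
  · have : S = ∅ := by
      rw [Finset.eq_empty_iff_forall_notMem]
      intro p hp
      have := hS p hp
      have := hN p hp
      omega
    rw [this]
    simp

/-- `∏_{p ≤ n} (1 - 1/p)⁻¹ ≤ 500 log n`. -/
lemma prod_one_sub_inv_inv_le (n : ℕ) (hn : 2 ≤ n) :
    ∏ p ∈ primesUpTo n, (1 - 1 / (p : ℝ))⁻¹ ≤ 500 * Real.log n := by
  have hn' : (2 : ℝ) ≤ n := by exact_mod_cast hn
  have hlogn : 0 < Real.log n := Real.log_pos (by linarith)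
  have h1 : ∀ p ∈ primesUpTo n, (1 - 1 / (p : ℝ))⁻¹ ≤
      Real.exp (1 / p + 2 * (1 / (p : ℝ) ^ 2)) := by
    intro p hp
    have hp2 : (2 : ℝ) ≤ p := by exact_mod_cast (mem_primesUpTo.mp hp).1.two_le
    have h2 : (1 : ℝ) / p ≤ 1 / 2 := one_div_le_one_div_of_le (by norm_num) hp2
    have h3 := neg_log_one_sub_le (t := 1 / (p : ℝ)) (by positivity) h2
    have h4 : 0 < 1 - 1 / (p : ℝ) := by linarith
    rw [← Real.log_le_iff_le_exp (inv_pos.mpr h4), Real.log_inv]
    calc _ ≤ _ := h3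
      _ = _ := by ring
  calc ∏ p ∈ primesUpTo n, (1 - 1 / (p : ℝ))⁻¹
      ≤ ∏ p ∈ primesUpTo n, Real.exp (1 / p + 2 * (1 / (p : ℝ) ^ 2)) := by
        apply Finset.prod_le_prod
        · intro p hp
          have hp2 : (2 : ℝ) ≤ p := by exact_mod_cast (mem_primesUpTo.mp hp).1.two_le
          have h2 : (1 : ℝ) / p ≤ 1 / 2 := one_div_le_one_div_of_le (by norm_num) hp2
          have h4 : 0 < 1 - 1 / (p : ℝ) := by linarith
          exact (inv_pos.mpr h4).le
        · exact h1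
    _ = Real.exp (∑ p ∈ primesUpTo n, (1 : ℝ) / p + 2 * ∑ p ∈ primesUpTo n, 1 / (p : ℝ) ^ 2) := by
        rw [← Real.exp_sum, Finset.sum_add_distrib, ← Finset.mul_sum]
    _ ≤ Real.exp (Real.log (Real.log n) + 6) := by
        apply Real.exp_le_exp.mpr
        have h5 := sum_inv_primes_le n hn
        have h6 := sum_inv_sq_primes_le (primesUpTo n) 1 le_rfl
          (fun p hp => (mem_primesUpTo.mp hp).1.one_lt)
        norm_num at h6 ⊢
        norm_num at h5
        linarith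
    _ = Real.exp 6 * Real.log n := by
        rw [Real.exp_add, Real.exp_log hlogn]; ring
    _ ≤ 500 * Real.log n := by
        apply mul_le_mul_of_nonneg_right _ hlogn.le
        have h7 : Real.exp 1 ≤ 2.7183 := by linarith [Real.exp_one_lt_d9]
        have h8 : Real.exp 6 = Real.exp 1 ^ 6 := by rw [← Real.exp_nat_mul]; norm_num
        rw [h8]
        calc Real.exp 1 ^ 6 ≤ 2.7183 ^ 6 := pow_le_pow_left₀ (Real.exp_pos 1).le h7 6
          _ ≤ 500 := by norm_num

end Pool.Agent.Lib.Helper57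
end

-- from Lib.Helper57.PairCount
section

/-!
# Counting primes and pairs of primes in short intervals, and moments of `h / φ(h)`
-/

namespace Pool.Agent.Lib.Helper57

open Finset Pool.Agent.Lib.Sieve

/-- `h / φ(h)`, written as a product over the prime factors. -/
noncomputable def G (h : ℕ) : ℝ := ∏ p ∈ h.primeFactors, (1 - 1 / (p : ℝ))⁻¹
















end Pool.Agent.Lib.Helper57
end

-- from Lib.H92G.CDefs
section

/-!
# Definitions for the second half: the modulus, the classes, the allowed intervals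
-/

open Finset

namespace Pool.Agent.Lib.H92G

open Pool.Agent.Lib.H15P


/-- The numbers `a + h`, `h ∈ S`, which are prime to `M`. -/
def Ac (M : ℕ) (S : Finset ℕ) (a : ℕ) : Finset ℕ :=
  (S.filter (fun h => (a + h).Coprime M)).image (fun h => a + h)



/-- The class of `a` is good: not too many forms, `S` = allowed shifts. -/
def okc (w : WG) (M H : ℕ) (S : Finset ℕ) (a : ℕ) : Prop :=
  (Ac M S a).card ≤ w.KA ∧ (Ac M (Icc 1 H) a).card ≤ w.K

instance (w : WG) (M H : ℕ) (S : Finset ℕ) (a : ℕ) : Decidable (okc w M H S a) := by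
  unfold okc; infer_instance


/-- `n + h` is prime to `M` and to the primes of `P`. -/
def rg (w : WG) (M n h : ℕ) : Prop := (n + h).Coprime M ∧ hit w.P (n + h) = ∅

instance (w : WG) (M n h : ℕ) : Decidable (rg w M n h) := by
  unfold rg; infer_instance



/-- Hypotheses on the classes. -/
structure CS (w : WG) (M H Y : ℕ) (S : Finset ℕ) : Prop where
  M0 : 0 < M
  sqf : Squarefree M
  SH : S ⊆ Icc 1 H
  HW : H ≤ w.W
  cop : ∀ p ∈ w.P, ¬ p ∣ M
  long : w.Long Y





end Pool.Agent.Lib.H92G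
end

-- from Lib.H92G.G1
section

/-!
# Chunk G1: second moments

Compare `H15P/PB2` (`ex_dd_dd`, `EX_sq_mul`).
-/

open Finset

namespace Pool.Agent.Lib.H92G

open Pool.Agent.Lib.H15P

variable {ι J I : Type} [Fintype ι] [DecidableEq ι] [Fintype J] [DecidableEq J] [Fintype I]
  [DecidableEq I]

omit [Fintype J] [DecidableEq J] [Fintype I] in
/-- Mean `0`, orthogonality. -/
theorem ex_dg_dg (q : ι → ℝ) (D : J → I → Finset ι → ℝ) (h : ℝ) (hg : GoodJ q D h) (j : J)
    (o o' : Option I) :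
    ex q (fun A => dg D j o A * dg D j o' A) = if o = o' then GJ q D j o else 0 := by
  rcases o with _ | i <;> rcases o' with _ | i'
  · simp only [dg, mul_one, if_true, GJ]
    exact ex_one q
  · simp only [dg, one_mul, reduceCtorEq, if_false]
    exact hg.mean j i'
  · simp only [dg, mul_one, reduceCtorEq, if_false]
    exact hg.mean j i
  · simp only [dg, Option.some.injEq, GJ]
    by_cases hii : i = i'
    · subst hii
      rw [if_pos rfl]
      congr 1
      funext A
      ring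
    · rw [if_neg hii]
      exact hg.orth j i i' hii

omit [Fintype J] [DecidableEq J] [Fintype I] [DecidableEq I] in
theorem GJ_nonneg (q : ι → ℝ) (D : J → I → Finset ι → ℝ) (h : ℝ) (hg : GoodJ q D h) (j : J)
    (o : Option I) : 0 ≤ GJ q D j o := by
  rcases o with _ | i
  · exact zero_le_one
  · exact ex_nonneg q hg.q0 hg.q1 _ fun A => sq_nonneg _

omit [DecidableEq I] in
theorem one_le_ZG (q : ι → ℝ) (D : J → I → Finset ι → ℝ) (h : ℝ) (hg : GoodJ q D h)
    (B : Finset J) : 1 ≤ ZG q D B := by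
  unfold ZG
  have h1 : ∀ j ∈ B, (1 : ℝ) ≤ 1 + ∑ i, GJ q D j (some i) := by
    intro j _
    have : 0 ≤ ∑ i, GJ q D j (some i) := Finset.sum_nonneg fun i _ => GJ_nonneg q D h hg j _
    linarith
  calc (1 : ℝ) = ∏ _j ∈ B, 1 := Finset.prod_const_one.symm
    _ ≤ ∏ j ∈ B, (1 + ∑ i, GJ q D j (some i)) :=
        Finset.prod_le_prod (fun _ _ => zero_le_one) h1

omit [DecidableEq I] in
theorem ZG_mono (q : ι → ℝ) (D : J → I → Finset ι → ℝ) (h : ℝ) (hg : GoodJ q D h)
    {B B' : Finset J} (hB : B ⊆ B') : ZG q D B ≤ ZG q D B' := by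
  unfold ZG
  have h1 : ∀ j, (1 : ℝ) ≤ 1 + ∑ i, GJ q D j (some i) := by
    intro j
    have : 0 ≤ ∑ i, GJ q D j (some i) := Finset.sum_nonneg fun i _ => GJ_nonneg q D h hg j _
    linarith
  apply Finset.prod_le_prod_of_subset_of_one_le hB
  · intro j _
    exact zero_le_one.trans (h1 j)
  · intro j _ _
    exact h1 j

/-- Square out, exchange, `EX_prod`; for `l ≠ l'` some factor `ex_dg_dg` is `0` (at the forms of
`Z` both labels are `none`, the factor is `ex F`). -/
theorem EX_LW_sq_mul (q : ι → ℝ) (D : J → I → Finset ι → ℝ) (h : ℝ) (hg : GoodJ q D h)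
    (s : Finset (J → Option I)) (w : (J → Option I) → ℝ) (Z : Finset J)
    (hZ : ∀ l ∈ s, ∀ j ∈ Z, l j = none) (F : Finset ι → ℝ) :
    EX q (fun S : J → Finset ι => LW D s w S ^ 2 * ∏ j ∈ Z, F (S j))
      = (∑ l ∈ s, w l ^ 2 * ∏ j, GJ q D j (l j)) * ex q F ^ Z.card := by
  have h1 : ∀ S : J → Finset ι,
      LW D s w S ^ 2 * ∏ j ∈ Z, F (S j) =
      ∑ l ∈ s, ∑ l' ∈ s, w l * w l' * ∏ j,
        (dg D j (l j) (S j) * dg D j (l' j) (S j) * if j ∈ Z then F (S j) else 1) := by
    intro S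
    unfold LW
    rw [sq, sum_mul_sum, sum_mul]
    refine sum_congr rfl fun l _ => ?_
    rw [sum_mul]
    refine sum_congr rfl fun l' _ => ?_
    rw [prod_mul_distrib, prod_mul_distrib]
    have e : ∏ j, (if j ∈ Z then F (S j) else 1) = ∏ j ∈ Z, F (S j) := by
      rw [Finset.prod_ite_mem, Finset.univ_inter]
    rw [e]
    ring
  simp only [h1]
  rw [EX_sum, sum_mul]
  refine sum_congr rfl fun l hl => ?_
  rw [EX_sum]
  have h3 : ∀ l' ∈ s, EX q (fun S : J → Finset ι => w l * w l' * ∏ j,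
      (dg D j (l j) (S j) * dg D j (l' j) (S j) * if j ∈ Z then F (S j) else 1)) =
      if l' = l then w l ^ 2 * (∏ j, GJ q D j (l j)) * ex q F ^ Z.card else 0 := by
    intro l' hl'
    rw [EX_const_mul, EX_prod q (fun j A => dg D j (l j) A * dg D j (l' j) A *
      if j ∈ Z then F A else 1)]
    by_cases hll : l' = l
    · subst hll
      rw [if_pos rfl]
      have e2 : ∏ j, ex q (fun A => dg D j (l' j) A * dg D j (l' j) A *
          if j ∈ Z then F A else 1) =
          ∏ j, (GJ q D j (l' j) * if j ∈ Z then ex q F else 1) := by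
        refine prod_congr rfl fun j _ => ?_
        by_cases hj : j ∈ Z
        · rw [if_pos hj, hZ l' hl' j hj]
          have e3 : (fun A => dg D j none A * dg D j none A * if j ∈ Z then F A else 1) = F := by
            funext A
            rw [if_pos hj]
            simp [dg]
          rw [e3]
          simp [GJ]
        · rw [if_neg hj, mul_one]
          have e3 : (fun A => dg D j (l' j) A * dg D j (l' j) A * if j ∈ Z then F A else 1) =
              fun A => dg D j (l' j) A * dg D j (l' j) A := by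
            funext A
            rw [if_neg hj, mul_one]
          rw [e3, ex_dg_dg q D h hg, if_pos rfl]
      rw [e2, prod_mul_distrib, Finset.prod_ite_mem, Finset.univ_inter, Finset.prod_const]
      ring
    · rw [if_neg hll]
      obtain ⟨j, hj⟩ := Function.ne_iff.1 hll
      have hjZ : j ∉ Z := by
        intro hjZ
        exact hj (by rw [hZ l hl j hjZ, hZ l' hl' j hjZ])
      have e1 : ex q (fun A => dg D j (l j) A * dg D j (l' j) A * if j ∈ Z then F A else 1) =
          0 := by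
        have e3 : (fun A => dg D j (l j) A * dg D j (l' j) A * if j ∈ Z then F A else 1) =
            fun A => dg D j (l j) A * dg D j (l' j) A := by
          funext A
          rw [if_neg hjZ, mul_one]
        rw [e3, ex_dg_dg q D h hg, if_neg (fun hh => hj hh.symm)]
      rw [prod_eq_zero (mem_univ j) e1, mul_zero]
  rw [sum_congr rfl h3, sum_ite_eq' s l, if_pos hl]


end Pool.Agent.Lib.H92G
end

-- from Lib.H92G.G5
section

/-!
# Chunk G5: the main moments of the weight
-/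

open Finset

namespace Pool.Agent.Lib.H92G

open Pool.Agent.Lib.H15P

variable {ι J I : Type} [Fintype ι] [DecidableEq ι] [Fintype J] [DecidableEq J] [Fintype I]
  [DecidableEq I]

theorem g5_mem_adm {B : Finset J} {m : I → ℕ} {l : J → Option I} :
    l ∈ adm B m ↔ (∀ j, j ∉ B → l j = none) ∧ ∀ i, cnt l i ≤ m i := by
  unfold adm
  simp

theorem g5_prod_nonneg (q : ι → ℝ) (D : J → I → Finset ι → ℝ) (h : ℝ) (hg : GoodJ q D h)
    (l : J → Option I) : 0 ≤ ∏ j, GJ q D j (l j) :=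
  Finset.prod_nonneg fun j _ => GJ_nonneg q D h hg j _

/-- Sums over admissible labelings. -/
theorem g5_sum_adm_le (q : ι → ℝ) (D : J → I → Finset ι → ℝ) (h : ℝ) (hg : GoodJ q D h)
    (m : I → ℕ) (B : Finset J) : ∑ l ∈ adm B m, ∏ j, GJ q D j (l j) ≤ ZG q D B := by
  unfold ZG
  rw [← sum_suppJ (fun j o => GJ q D j o) (fun j => rfl) B]
  apply Finset.sum_le_sum_of_subset_of_nonneg
  · intro l hl
    rw [g5_mem_adm] at hl
    rw [mem_filter]
    exact ⟨mem_univ _, hl.1⟩
  · intro l _ _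
    exact g5_prod_nonneg q D h hg l


/-- The majorant used if no prime divides the forms of `Z`: `EX_LW_sq_mul` with `F = lm`;
`w^2 ≤ wm^2`; `sum_suppJ`; `ZG (B \ Z) ≤ ZG B`. -/
theorem EX_maj_le (q : ι → ℝ) (D : J → I → Finset ι → ℝ) (h : ℝ) (hg : GoodJ q D h)
    (m : I → ℕ) (B Z : Finset J) (wm : ℝ) (hw : ∀ l, |wZ D m Z l| ≤ wm)
    (lm : Finset ι → ℝ) (hlm : ∀ A, 0 ≤ lm A) :
    EX q (fun S : J → Finset ι => LW D (adm (B \ Z) m) (wZ D m Z) S ^ 2 * ∏ j ∈ Z, lm (S j))
      ≤ wm ^ 2 * ZG q D B * ex q lm ^ Z.card := by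
  have hZ : ∀ l ∈ adm (B \ Z) m, ∀ j ∈ Z, l j = none := by
    intro l hl j hj
    rw [g5_mem_adm] at hl
    exact hl.1 j (fun h => (mem_sdiff.1 h).2 hj)
  rw [EX_LW_sq_mul q D h hg (adm (B \ Z) m) (wZ D m Z) Z hZ lm]
  apply mul_le_mul_of_nonneg_right _ (pow_nonneg (ex_nonneg q hg.q0 hg.q1 _ hlm) _)
  calc ∑ l ∈ adm (B \ Z) m, wZ D m Z l ^ 2 * ∏ j, GJ q D j (l j)
      ≤ ∑ l ∈ adm (B \ Z) m, wm ^ 2 * ∏ j, GJ q D j (l j) := by
        apply Finset.sum_le_sum
        intro l _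
        apply mul_le_mul_of_nonneg_right _ (g5_prod_nonneg q D h hg l)
        rw [← sq_abs]
        exact pow_le_pow_left₀ (abs_nonneg _) (hw l) 2
    _ = wm ^ 2 * ∑ l ∈ adm (B \ Z) m, ∏ j, GJ q D j (l j) := by rw [Finset.mul_sum]
    _ ≤ wm ^ 2 * ZG q D B := by
        apply mul_le_mul_of_nonneg_left _ (sq_nonneg _)
        exact (g5_sum_adm_le q D h hg m _).trans (ZG_mono q D h hg sdiff_subset)





end Pool.Agent.Lib.H92G
end

-- from Lib.H92G.W1
section

/-!
# Chunk W1: basic facts on a system of forms, mean value and mean square of the weight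

Compare `H15P/WIN1`, `H15P/WIN2`.
-/

open Finset

namespace Pool.Agent.Lib.H92G

open Pool.Agent.Lib.H15P

/-- Distinct `b, b' ∈ B` differ by at most `W < p`. -/
theorem WG.Sys.forms {w : WG} {A B : Finset ℕ} {M : ℕ} (h : w.Sys A B M) :
    Forms w.P w.W w.K M (fun j : {b // b ∈ B} => j.1) := by
  refine ⟨w.prime, w.big, h.cop, ?_, w.Kpos, ?_, w.KW⟩
  · intro p hp j j' hne hm
    apply hne
    apply Subtype.ext
    have h1 := h.dist j.1 j.2 j'.1 j'.2
    have h2 := h.dist j'.1 j'.2 j.1 j.2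
    have h3 := w.big p hp
    rcases le_total j.1 j'.1 with h4 | h4
    · have h5 := (Nat.modEq_iff_dvd' h4).1 hm
      have h6 := Nat.eq_zero_of_dvd_of_lt h5 (by omega)
      omega
    · have h5 := (Nat.modEq_iff_dvd' h4).1 hm.symm
      have h6 := Nat.eq_zero_of_dvd_of_lt h5 (by omega)
      omega
  · rw [Fintype.card_coe]
    exact h.cardB

theorem WG.good_Df (w : WG) (A B : Finset ℕ) : GoodJ (qq w.P w.K) (w.Df A B) w.h where
  q0 := w.good.q0
  q1 := w.good.q1
  mean := fun _ i => w.good.mean _ i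
  orth := fun _ i i' hi => w.good.orth _ i i' hi
  sq := fun _ i => w.good.sq _ i
  fourth := fun _ i => w.good.fourth _ i

theorem WG.one_le_g (w : WG) : 1 ≤ w.g := by
  unfold WG.g
  have h1 := mul_nonneg (Nat.cast_nonneg w.nA : (0 : ℝ) ≤ w.nA) w.cA0
  linarith


theorem w1_GJ (w : WG) (A B : Finset ℕ) (j : {b // b ∈ B}) (o : Option (Fin w.nA ⊕ Fin w.nD)) :
    GJ (qq w.P w.K) (w.Df A B) j o = GJ (qq w.P w.K) w.DJ (decide (j.1 ∈ A)) o := by
  cases o <;> rfl

theorem w1_GJ_nonneg (w : WG) (a : Bool) (o : Option (Fin w.nA ⊕ Fin w.nD)) :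
    0 ≤ GJ (qq w.P w.K) w.DJ a o := GJ_nonneg _ _ _ w.good _ _

theorem w1_card_filter (A B : Finset ℕ) (hAB : A ⊆ B) :
    ((univ : Finset {b // b ∈ B}).filter (fun j => j.1 ∈ A)).card = A.card := by
  rw [← Finset.card_map (Function.Embedding.subtype (fun b => b ∈ B))]
  congr 1
  ext x
  simp only [Finset.mem_map, Finset.mem_filter, Finset.mem_univ, true_and,
    Function.Embedding.coe_subtype]
  constructor
  · rintro ⟨a, ha, rfl⟩
    exact ha
  · intro hx
    exact ⟨⟨x, hAB hx⟩, hx, rfl⟩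

/-- The sums of second moments: at most `KA` forms are allowed, at most `K` are not. -/
theorem WG.Sys.hm {w : WG} {A B : Finset ℕ} {M : ℕ} (h : w.Sys A B M)
    (i : Fin w.nA ⊕ Fin w.nD) :
    2 * ∑ j ∈ (univ : Finset {b // b ∈ B}), GJ (qq w.P w.K) (w.Df A B) j (some i) + w.R i
      ≤ w.m i := by
  refine le_trans ?_ (w.hm i)
  have h0 : ∑ j ∈ (univ : Finset {b // b ∈ B}), GJ (qq w.P w.K) (w.Df A B) j (some i) ≤
      w.KA * GJ (qq w.P w.K) w.DJ true (some i) + w.K * GJ (qq w.P w.K) w.DJ false (some i) := by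
    rw [← Finset.sum_filter_add_sum_filter_not (univ : Finset {b // b ∈ B}) (fun j => j.1 ∈ A)]
    have h1 : ∑ j ∈ (univ : Finset {b // b ∈ B}).filter (fun j => j.1 ∈ A),
        GJ (qq w.P w.K) (w.Df A B) j (some i) =
          (A.card : ℝ) * GJ (qq w.P w.K) w.DJ true (some i) := by
      rw [← w1_card_filter A B h.AB, ← nsmul_eq_mul]
      refine Finset.sum_eq_card_nsmul fun j hj => ?_
      rw [w1_GJ, decide_eq_true (Finset.mem_filter.1 hj).2]
    have h2 : ∑ j ∈ (univ : Finset {b // b ∈ B}).filter (fun j => ¬ j.1 ∈ A),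
        GJ (qq w.P w.K) (w.Df A B) j (some i) =
          (((univ : Finset {b // b ∈ B}).filter (fun j => ¬ j.1 ∈ A)).card : ℝ) *
            GJ (qq w.P w.K) w.DJ false (some i) := by
      rw [← nsmul_eq_mul]
      refine Finset.sum_eq_card_nsmul fun j hj => ?_
      rw [w1_GJ, decide_eq_false (Finset.mem_filter.1 hj).2]
    rw [h1, h2]
    have h3 : (A.card : ℝ) ≤ w.KA := by exact_mod_cast h.cardA
    have h4 : ((((univ : Finset {b // b ∈ B}).filter (fun j => ¬ j.1 ∈ A)).card : ℕ) : ℝ) ≤ w.K := by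
      have h5 := Finset.card_filter_le (univ : Finset {b // b ∈ B}) (fun j => ¬ j.1 ∈ A)
      rw [Finset.card_univ, Fintype.card_coe] at h5
      exact_mod_cast h5.trans h.cardB
    exact add_le_add (mul_le_mul_of_nonneg_right h3 (w1_GJ_nonneg w _ _))
      (mul_le_mul_of_nonneg_right h4 (w1_GJ_nonneg w _ _))
  linarith

/-- The values at `∅` of the factors of an allowed form. -/
theorem WG.sum_allowed (w : WG) (A B : Finset ℕ) (j : {b // b ∈ B}) (hj : j.1 ∈ A) :
    (∀ i, 0 ≤ w.Df A B j i ∅) ∧ 1 + ∑ i, w.Df A B j i ∅ = w.g := by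
  have h1 : w.Df A B j = w.DJ true := by
    unfold WG.Df
    rw [decide_eq_true hj]
  rw [h1]
  constructor
  · rintro (i | i)
    · rw [w.trl]
      exact w.cA0
    · rw [w.trr]
  · rw [Fintype.sum_sum_type]
    simp only [w.trl, w.trr]
    rw [Finset.sum_const, Finset.sum_const_zero, Finset.card_univ, Fintype.card_fin, nsmul_eq_mul,
      add_zero]
    rfl

theorem w1_Qpos (w : WG) : 0 < ∏ p ∈ w.P, p :=
  Finset.prod_pos fun p hp => (w.prime p hp).pos

/-- Sum over `t < Y` of a nonnegative function of the configuration of level `L`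
(`Lev.avg` with `a = 0`, `EP_le`, `w.hKW`). -/
theorem WG.Sys.avg_le {w : WG} {A B : Finset ℕ} {M : ℕ} (h : w.Sys A B M)
    (F : ({b // b ∈ B} → Finset {p // p ∈ w.P}) → ℝ) (h0 : ∀ S, 0 ≤ F S) (L : ℝ)
    (hL : Lev (∏ p ∈ w.P, p) (fun t => F (fun j => hit w.P (j.1 + M * t))) L) (Y : ℕ) :
    ∑ t ∈ range Y, F (fun j => hit w.P (j.1 + M * t)) ≤
      Y * ((1 + w.e) * EX (qq w.P w.K) F) + 2 * L := by
  have h1 := Lev.avg (w1_Qpos w) hL 0 Y
  rw [zero_add, ← Finset.range_eq_Ico] at h1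
  have h2 : EP w.P M (fun j : {b // b ∈ B} => j.1) F ≤ (1 + w.e) * EX (qq w.P w.K) F :=
    (EP_le w.P w.W w.K M _ h.forms F h0).trans
      (mul_le_mul_of_nonneg_right w.hKW (EX_nonneg _ w.good.q0 w.good.q1 F h0))
  have h3 := mul_le_mul_of_nonneg_left h2 (Nat.cast_nonneg Y : (0 : ℝ) ≤ Y)
  have h4 : |∑ t ∈ range Y, F (fun j => hit w.P (j.1 + M * t)) -
      Y * EP w.P M (fun j : {b // b ∈ B} => j.1) F| ≤ 2 * L := h1
  rw [abs_le] at h4
  linarith [h4.2]

theorem w1_one_le_ZG (w : WG) (A B : Finset ℕ) : 1 ≤ ZG (qq w.P w.K) (w.Df A B) univ :=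
  one_le_ZG _ _ _ (w.good_Df A B) _



/-- the error terms -/
theorem w1_err (w : WG) (Y : ℕ) (hY : w.Long Y) (a k : ℕ) (ha : a ≤ 4) (hk : k ≤ 4) :
    2 * w.K * (w.g ^ a * w.lv ^ k) ≤ w.e * w.el ^ 2 * Y / 4 ∧
      2 * (w.g ^ a * w.lv ^ k) ≤ w.e * w.el ^ 2 * Y / 4 := by
  have h1 : w.g ^ a * w.lv ^ k ≤ w.g ^ 4 * w.lv ^ 4 :=
    mul_le_mul (pow_le_pow_right₀ w.one_le_g ha) (pow_le_pow_right₀ w.lv1 hk)
      (pow_nonneg (zero_le_one.trans w.lv1) _) (pow_nonneg (zero_le_one.trans w.one_le_g) _)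
  have h2 : (1 : ℝ) ≤ w.K := by exact_mod_cast w.Kpos
  have h3 : 0 ≤ w.g ^ a * w.lv ^ k := mul_nonneg (pow_nonneg (zero_le_one.trans w.one_le_g) _)
    (pow_nonneg (zero_le_one.trans w.lv1) _)
  have h4 : (w.K : ℝ) * (w.g ^ a * w.lv ^ k) ≤ w.K * (w.g ^ 4 * w.lv ^ 4) :=
    mul_le_mul_of_nonneg_left h1 (by linarith)
  have h5 : w.g ^ a * w.lv ^ k ≤ w.K * (w.g ^ a * w.lv ^ k) := le_mul_of_one_le_left h3 h2
  have h6 : 8 * w.K * w.g ^ 4 * w.lv ^ 4 ≤ w.e * w.el ^ 2 * Y := hY
  constructor <;> nlinarith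




end Pool.Agent.Lib.H92G
end

-- from Lib.H57M.Defs
section

/-!
# Project H57M (MP_0bf1d2_nt): Maynard-Tao for Schinzel's hypothesis. Definitions

See `PROOF.md` in this folder.
-/

open Finset

namespace Pool.Agent.Lib.H57M

open Pool.Agent.Lib.H15P Pool.Agent.Lib.H92G

/-! ## The weights -/

/-- The data of the weight for one scale; `K` = number of the forms. `D i` = one form function of
the label `i`, `c` = its value at `∅`, `s i` = bound for its second moment, `m i` = bound for the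
number of the forms with label `i`. -/
structure Par (K : ℕ) where
  P : Finset ℕ
  W : ℕ
  n : ℕ
  D : Fin n → Finset {p // p ∈ P} → ℝ
  m : Fin n → ℕ
  R : Fin n → ℝ
  s : Fin n → ℝ
  c : ℝ
  h : ℝ
  Dt : ℝ
  lv : ℝ
  prime : ∀ p ∈ P, p.Prime
  big : ∀ p ∈ P, W < p
  Kpos : 1 ≤ K
  KW : 4 * K ^ 2 ≤ W
  c0 : 0 ≤ c
  good : GoodJ (qq P K) (fun _ : Unit => D) h
  h0 : 0 ≤ h
  emp : ∀ i, D i ∅ = c
  s0 : ∀ i, 0 ≤ s i
  hs : ∑ i, s i ≤ 1
  hm : ∀ i, 2 * (K * s i) + R i ≤ m i
  hR : ∑ i, Real.exp (-R i) ≤ 1 / 4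
  Dt1 : 1 ≤ Dt
  tilt : ∀ i (T : Finset {p // p ∈ P}),
    ex (qq P K) (fun A => D i A ^ 2 * (if T ⊆ A then 1 else 0)) ≤
      Dt ^ T.card * (∏ p ∈ T, qq P K p) * s i
  lv1 : 1 ≤ lv
  lev : ∀ (J : Type) [Fintype J] [DecidableEq J] (M : ℕ) (b : J → ℕ), Fintype.card J = K →
    Lev (∏ p ∈ P, p) (fun t => LG (fun _ : J => D) m univ (fun j => hit P (b j + M * t))) lv


/-- The weight function before squaring, as a function of the configuration. -/
noncomputable def Par.L {K : ℕ} (w : Par K) {J : Type} [Fintype J] [DecidableEq J]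
    (S : J → Finset {p // p ∈ w.P}) : ℝ := LG (fun _ : J => w.D) w.m univ S

/-- `1 + ∑ E D_i^2` -/
noncomputable def Par.z {K : ℕ} (w : Par K) : ℝ :=
  1 + ∑ i, ex (qq w.P K) (fun A => w.D i A ^ 2)



/-! ## Residues -/

/-- The residues `v` modulo `P` for which all `v + h`, `h ∈ H`, are prime to `P`. -/
def cF (H : Finset ℕ) (P : ℕ) : Finset ℕ :=
  (range P).filter (fun v => (∏ h ∈ H, (v + h)).Coprime P)

/-- `H` is admissible: the product of the `x + h` has no fixed prime divisor. -/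
def Adm (H : Finset ℕ) : Prop := ∀ p : ℕ, p.Prime → ∃ v : ℕ, ¬ p ∣ ∏ h ∈ H, (v + h)


end Pool.Agent.Lib.H57M
end

-- from Lib.H57M.Sc
section

/-!
# Everything that is needed at one scale, and the weight `wf`
-/

open Finset

namespace Pool.Agent.Lib.H57M

open Pool.Agent.Lib.H15P Pool.Agent.Lib.H92G

/-- The forms `v + h + M t`. -/
structure Sc {K : ℕ} (w : Par K) (H : Finset ℕ) (M X g : ℕ) : Prop where
  cardH : H.card = K
  g1 : 1 ≤ g
  M0 : 0 < M
  X0 : 0 < X
  sqf : Squarefree M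
  cop : ∀ p ∈ w.P, ¬ p ∣ M
  HW : ∀ h ∈ H, h ≤ w.W
  HX : ∀ h ∈ H, 8 * (M + h) ≤ X
  KW : 400 * K ^ 2 ≤ w.W
  long : 100 * K * w.lv ^ 4 * M * Real.exp (2 * Real.sqrt (Real.log X)) ≤ X
  prime : ∀ v ∈ cF H M, ∀ h0 ∈ H, w.z ^ K * (1 + w.n * w.c) ^ 2 / (16 * (M.totient : ℝ)) ≤
    ∑ t ∈ range (60 * X / M + 1),
      w.L (fun h : {h // h ∈ H} => hit w.P (v + h.1 + M * t)) ^ 2 * lpv X (v + h0 + M * t)
  gain : 10 ^ 5 * g * Real.log (60 * X) * M.totient ≤ K * (1 + w.n * w.c) ^ 2 * M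



theorem Sc.card {K : ℕ} {w : Par K} {H : Finset ℕ} {M X g : ℕ} (hS : Sc w H M X g) :
    Fintype.card {h // h ∈ H} = K := by
  rw [Fintype.card_coe, hS.cardH]


end Pool.Agent.Lib.H57M
end

-- from Lib.H92G.W2
section

/-!
# Chunk W2: upper bounds for the elements without prime factor in `P`

Compare `H15P/WIN3` (`win_rough`).
-/

open Finset

namespace Pool.Agent.Lib.H92G

open Pool.Agent.Lib.H15P

/-- Level of the majorant. -/
theorem w2_lev {w : WG} {A B : Finset ℕ} {M : ℕ} (h : w.Sys A B M)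
    (Zs : Finset {b // b ∈ B}) (wm : ℝ) (hwm : 0 < wm)
    (hw : ∀ l ∈ adm (univ \ Zs) w.m, |wZ (w.Df A B) w.m Zs l| ≤ wm) :
    Lev (∏ p ∈ w.P, p) (fun t =>
      LW (w.Df A B) (adm (univ \ Zs) w.m) (wZ (w.Df A B) w.m Zs)
        (fun j : {b // b ∈ B} => hit w.P (j.1 + M * t)) ^ 2 *
          ∏ j ∈ Zs, w.lm (hit w.P (j.1 + M * t)))
      (wm ^ 2 * w.lv ^ 2 * w.lv ^ Zs.card) := by
  have h1 : Lev (∏ p ∈ w.P, p) (fun t => ∏ j ∈ Zs, w.lm (hit w.P (j.1 + M * t)))
      (w.lv ^ Zs.card) := by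
    have h2 := Lev.prod Zs (fun (j : {b // b ∈ B}) (t : ℕ) => w.lm (hit w.P (j.1 + M * t)))
      (fun _ => w.lv) (w1_Qpos w) (fun j _ => w.levlm M j.1)
    rw [Finset.prod_const] at h2
    exact h2
  have h3 := w.levL {b // b ∈ B} (fun j => decide (j.1 ∈ A)) (univ \ Zs) M (fun j => j.1)
    (fun l => if l ∈ adm (univ \ Zs) w.m then wZ (w.Df A B) w.m Zs l / wm else 0)
    (by rw [Fintype.card_coe]; exact h.cardB) (by
      intro l
      split_ifs with hl
      · rw [abs_div, abs_of_pos hwm, div_le_one hwm]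
        exact hw l hl
      · rw [abs_zero]
        exact zero_le_one)
  have h4 := Lev.const_mul h3 wm
  rw [abs_of_pos hwm] at h4
  have h5 : (fun t : ℕ => wm * LW (fun j : {b // b ∈ B} => w.DJ (decide (j.1 ∈ A)))
      (adm (univ \ Zs) w.m)
      (fun l => if l ∈ adm (univ \ Zs) w.m then wZ (w.Df A B) w.m Zs l / wm else 0)
      (fun j => hit w.P (j.1 + M * t))) = fun t : ℕ =>
      LW (w.Df A B) (adm (univ \ Zs) w.m) (wZ (w.Df A B) w.m Zs)
        (fun j : {b // b ∈ B} => hit w.P (j.1 + M * t)) := by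
    funext t
    unfold LW
    rw [Finset.mul_sum]
    refine Finset.sum_congr rfl fun l hl => ?_
    beta_reduce
    rw [if_pos hl, ← mul_assoc, mul_div_cancel₀ _ hwm.ne']
    rfl
  rw [h5] at h4
  have h6 := Lev.mul (w1_Qpos w) (Lev.pow (w1_Qpos w) h4 2) h1
  rw [mul_pow] at h6
  exact h6

/-- General bound for the configurations where no prime divides the forms of `Zs`. -/
theorem w2_gen {w : WG} {A B : Finset ℕ} {M : ℕ} (h : w.Sys A B M) (Y : ℕ)
    (Zs : Finset {b // b ∈ B}) (wm : ℝ) (hwm : 0 < wm)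
    (hw : ∀ l ∈ adm (univ \ Zs) w.m, |wZ (w.Df A B) w.m Zs l| ≤ wm) (E : ℝ)
    (hE : EX (qq w.P w.K) (fun S : {b // b ∈ B} → Finset {p // p ∈ w.P} =>
      LW (w.Df A B) (adm (univ \ Zs) w.m) (wZ (w.Df A B) w.m Zs) S ^ 2 *
        ∏ j ∈ Zs, w.lm (S j)) ≤ E * ZG (qq w.P w.K) (w.Df A B) univ) :
    ∑ t ∈ range Y, w.nu A B M t *
        (if ∀ j ∈ Zs, hit w.P (j.1 + M * t) = ∅ then 1 else 0) ≤
      Y * ((1 + w.e) * E) + 2 * (wm ^ 2 * w.lv ^ 2 * w.lv ^ Zs.card) := by
  set Z := ZG (qq w.P w.K) (w.Df A B) univ with hZ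
  have hZ1 : 1 ≤ Z := w1_one_le_ZG w A B
  have hZpos : 0 < Z := by linarith
  set F : ({b // b ∈ B} → Finset {p // p ∈ w.P}) → ℝ := fun S =>
    LW (w.Df A B) (adm (univ \ Zs) w.m) (wZ (w.Df A B) w.m Zs) S ^ 2 *
        ∏ j ∈ Zs, w.lm (S j) with hF
  have hF0 : ∀ S, 0 ≤ F S := fun S =>
    mul_nonneg (sq_nonneg _) (Finset.prod_nonneg fun j _ => w.lm0 _)
  have hterm : ∀ t, w.nu A B M t * (if ∀ j ∈ Zs, hit w.P (j.1 + M * t) = ∅ then 1 else 0) ≤
      F (fun j => hit w.P (j.1 + M * t)) / Z := by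
    intro t
    split_ifs with hh
    · rw [mul_one]
      unfold WG.nu
      rw [← hZ]
      apply div_le_div_of_nonneg_right _ hZpos.le
      rw [LG_restrict (w.Df A B) w.m univ Zs (Finset.subset_univ _)
        (fun j => hit w.P (j.1 + M * t)) hh]
      show _ ≤ LW (w.Df A B) (adm (univ \ Zs) w.m) (wZ (w.Df A B) w.m Zs)
        (fun j => hit w.P (j.1 + M * t)) ^ 2 * ∏ j ∈ Zs, w.lm (hit w.P (j.1 + M * t))
      rw [Finset.prod_congr rfl (fun j hj => by rw [hh j hj, w.lm1]), Finset.prod_const_one,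
        mul_one]
    · rw [mul_zero]
      exact div_nonneg (hF0 _) hZpos.le
  have havg := h.avg_le F hF0 _ (w2_lev h Zs wm hwm hw) Y
  refine (Finset.sum_le_sum fun t _ => hterm t).trans ?_
  rw [← Finset.sum_div, div_le_iff₀ hZpos]
  refine havg.trans ?_
  have he0 := w.e0
  have h1 := mul_le_mul_of_nonneg_left hE (by linarith : 0 ≤ 1 + w.e)
  have h2 := mul_le_mul_of_nonneg_left h1 (Nat.cast_nonneg Y : (0 : ℝ) ≤ Y)
  have h3 : 0 ≤ 2 * (wm ^ 2 * w.lv ^ 2 * w.lv ^ Zs.card) := by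
    have := zero_le_one.trans w.lv1
    positivity
  have h4 := mul_le_mul_of_nonneg_left hZ1 h3
  nlinarith


/-- Allowed forms. -/
theorem w2_allowed {w : WG} {A B : Finset ℕ} {M : ℕ} (h : w.Sys A B M) (Y : ℕ)
    (Zs : Finset {b // b ∈ B}) (hZs : ∀ j ∈ Zs, j.1 ∈ A) :
    ∑ t ∈ range Y, w.nu A B M t *
        (if ∀ j ∈ Zs, hit w.P (j.1 + M * t) = ∅ then 1 else 0) ≤
      Y * ((1 + w.e) * ((w.g ^ Zs.card) ^ 2 * w.el ^ Zs.card)) +
        2 * ((w.g ^ Zs.card) ^ 2 * w.lv ^ 2 * w.lv ^ Zs.card) := by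
  have hg0 : 0 < w.g := zero_lt_one.trans_le w.one_le_g
  have hX0 : 0 ≤ ex (qq w.P w.K) w.lm := ex_nonneg _ w.good.q0 w.good.q1 _ w.lm0
  have hw : ∀ l, |wZ (w.Df A B) w.m Zs l| ≤ w.g ^ Zs.card := by
    intro l
    obtain ⟨h1, h2⟩ := wZ_bounds (w.Df A B) w.m Zs l
      (fun j hj => (w.sum_allowed A B j (hZs j hj)).1)
    rw [abs_of_nonneg h1]
    refine h2.trans (le_of_eq ?_)
    rw [Finset.prod_congr rfl (fun j hj => (w.sum_allowed A B j (hZs j hj)).2),
      Finset.prod_const]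
  refine w2_gen h Y Zs (w.g ^ Zs.card) (pow_pos hg0 _) (fun l _ => hw l) _ ?_
  refine (EX_maj_le (qq w.P w.K) (w.Df A B) w.h (w.good_Df A B) w.m univ Zs (w.g ^ Zs.card) hw
    w.lm w.lm0).trans ?_
  have h1 := w1_one_le_ZG w A B
  have h2 : ex (qq w.P w.K) w.lm ^ Zs.card ≤ w.el ^ Zs.card :=
    pow_le_pow_left₀ hX0 w.lmel _
  have h3 : 0 ≤ (w.g ^ Zs.card) ^ 2 * ZG (qq w.P w.K) (w.Df A B) univ :=
    mul_nonneg (sq_nonneg _) (by linarith)
  have h4 := mul_le_mul_of_nonneg_left h2 h3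
  nlinarith


/-- Two allowed forms: `Z = {b, b'}`, `wZ ≤ g^2`, `EX_maj_le`: mean value at most
`g^4 ZG el^2`; level `g^4 lv^2 lv^2`. -/
theorem WG.Sys.two_le {w : WG} {A B : Finset ℕ} {M : ℕ} (h : w.Sys A B M) (Y : ℕ)
    (hY : w.Long Y) (b b' : ℕ) (hb : b ∈ A) (hb' : b' ∈ A) (hne : b ≠ b') :
    ∑ t ∈ range Y, w.nu A B M t *
        (if hit w.P (b + M * t) = ∅ ∧ hit w.P (b' + M * t) = ∅ then 1 else 0) ≤
      2 * w.g ^ 4 * w.el ^ 2 * Y := by
  have h1 := w2_allowed h Y {(⟨b, h.AB hb⟩ : {b // b ∈ B}), ⟨b', h.AB hb'⟩} (by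
    intro j hj
    rcases Finset.mem_insert.1 hj with hj | hj
    · rw [hj]
      exact hb
    · rw [Finset.mem_singleton.1 hj]
      exact hb')
  have hc : ({(⟨b, h.AB hb⟩ : {b // b ∈ B}), ⟨b', h.AB hb'⟩} : Finset {b // b ∈ B}).card = 2 := by
    apply Finset.card_pair
    intro hh
    exact hne (congrArg Subtype.val hh)
  rw [hc] at h1
  simp only [Finset.mem_insert, Finset.mem_singleton, forall_eq_or_imp, forall_eq] at h1
  refine h1.trans ?_
  have herr := (w1_err w Y hY 4 4 le_rfl le_rfl).2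
  have hg := w.one_le_g
  have hg4 : 1 ≤ w.g ^ 4 := one_le_pow₀ hg
  have he0 := w.e0
  have he1 := w.e1
  have hYr : (0 : ℝ) ≤ Y := Nat.cast_nonneg Y
  have h0 : 0 ≤ w.el ^ 2 * Y := mul_nonneg (sq_nonneg _) hYr
  have h2 : w.el ^ 2 * Y ≤ w.g ^ 4 * (w.el ^ 2 * Y) := le_mul_of_one_le_left h0 hg4
  have h3 : w.e * (w.g ^ 4 * (w.el ^ 2 * Y)) ≤ 1 / 10 * (w.g ^ 4 * (w.el ^ 2 * Y)) :=
    mul_le_mul_of_nonneg_right he1 (by positivity)
  have h4 : w.e * (w.el ^ 2 * Y) ≤ 1 / 10 * (w.el ^ 2 * Y) := mul_le_mul_of_nonneg_right he1 h0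
  have h5 : (w.g ^ 2) ^ 2 * w.lv ^ 2 * w.lv ^ 2 = w.g ^ 4 * w.lv ^ 4 := by ring
  rw [h5]
  nlinarith

end Pool.Agent.Lib.H92G
end

-- from Lib.H92G.K5
section

/-!
# Chunk K5: sums over all `n < M Y`

`n = a + M t` with `a = n % M`, `t = n / M` (compare `H15P.sum_classes`).
-/

open Finset

namespace Pool.Agent.Lib.H92G

open Pool.Agent.Lib.H15P


/-- The forms of a good class are a system; distinct elements of `Ac M (Icc 1 H) a` differ by at
most `H ≤ W`. -/
theorem CS.sys {w : WG} {M H Y : ℕ} {S : Finset ℕ} (h : CS w M H Y S) (a : ℕ)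
    (ha : okc w M H S a) : w.Sys (Ac M S a) (Ac M (Icc 1 H) a) M := by
  refine ⟨?_, ha.1, ha.2, ?_, h.cop⟩
  · unfold Ac
    exact image_subset_image (filter_subset_filter _ h.SH)
  · intro b hb b' hb'
    obtain ⟨x, hx, rfl⟩ := mem_image.1 hb
    obtain ⟨y, hy, rfl⟩ := mem_image.1 hb'
    have h1 := (mem_Icc.1 (mem_filter.1 hx).1)
    have h2 := (mem_Icc.1 (mem_filter.1 hy).1)
    have h3 := h.HW
    omega













end Pool.Agent.Lib.H92G
end
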