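import Pool.Agent.Lib.H59M.M2.M012
import Pool.Agent.Lib.H59M.M2.M021

/-! Merged copies (to shorten the build) of Lib.SZW.A6, Lib.H21T.Defs, Lib.H21T.F3, Lib.H21T.S1, Lib.H21T.S4, Lib.H21T.F2, Lib.H21T.S2. -/

-- from Lib.SZW.A6
section

/-!
# A6 (M): the one-dimensional recurrence lemma
-/

set_option autoImplicit false

namespace Pool.Agent.SZW

/-- Take `n < n'` in `A` with `q = n' - n ≤ 2 / ρ` (`exists_gap`). Then `η = nn (q α_j) ≤ 2 ε` for all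
`j` (`nn_sub`). If `η > 0`, `card_bound` gives
`ρ N ≤ (2 ε / η + 1) (4 η N + q) = 8 ε N + 4 η N + 2 ε q / η + q ≤ 16 ε N + q + 2 ε q / η`, where
`16 ε N ≤ ρ N / 2` and `q ≤ 2 / ρ ≤ ρ N / 4`; so `ρ N / 4 ≤ 2 ε q / η` and
`η ≤ 8 ε q / (ρ N) ≤ 16 ε / (ρ ^ 2 N)`. -/
theorem recurrence {κ : Type*} {A : Finset ℕ} {N : ℕ} {ρ ε : ℝ} {α β : κ → ℝ} (hρ : 0 < ρ)
    (hρ1 : ρ ≤ 1) (hN : 8 / ρ ^ 2 ≤ N) (hε : 0 ≤ ε) (hε' : 32 * ε ≤ ρ) (hA : ∀ n ∈ A, n < N)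
    (hc : ρ * N ≤ A.card) (h : ∀ n ∈ A, ∀ j, nn (n * α j + β j) ≤ ε) :
    ∃ q : ℕ, 1 ≤ q ∧ (q : ℝ) ≤ 2 / ρ ∧ ∀ j, nn (q * α j) ≤ 16 * ε / (ρ ^ 2 * N) := by
  have hN0 : (0 : ℝ) < N := lt_of_lt_of_le (by positivity) hN
  have hN1 : 8 ≤ N * ρ ^ 2 := by rwa [div_le_iff₀ (by positivity)] at hN
  have hN2 : 8 ≤ ρ * N := by nlinarith [mul_pos hρ hN0]
  obtain ⟨n, hn, n', hn', hlt, hq⟩ := exists_gap hρ (by linarith) hA hc
  refine ⟨n' - n, by omega, hq, ?_⟩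
  intro j
  set q : ℕ := n' - n with hqd
  have hqc : (q : ℝ) = n' - n := by
    rw [hqd, Nat.cast_sub hlt.le]
  have hη2 : nn (q * α j) ≤ 2 * ε := by
    have h1 := nn_sub (n' * α j + β j) (n * α j + β j)
    have h2 : (n' * α j + β j) - (n * α j + β j) = q * α j := by
      rw [hqc]
      ring
    rw [h2] at h1
    have h3 := h n' hn' j
    have h4 := h n hn j
    linarith
  rcases (nn_nonneg (q * α j)).eq_or_lt with h0 | h0
  · rw [← h0]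
    positivity
  · have hq1 : 1 ≤ q := by omega
    have hq0 : (0 : ℝ) < q := by exact_mod_cast hq1
    have hcb := card_bound hq1 h0 hA hε (fun n hn => h n hn j)
    set η : ℝ := nn (q * α j) with hη
    have h1 : ρ * N ≤ (2 * ε / η + 1) * (4 * η * N + q) := hc.trans hcb
    have h2 : (2 * ε / η + 1) * (4 * η * N + q) = 8 * ε * N + 4 * η * N + 2 * ε * q / η + q := by
      field_simp
      ring
    rw [h2] at h1
    have h3 : 4 * η * N ≤ 8 * ε * N := by nlinarith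
    have h4 : 16 * ε * N ≤ ρ * N / 2 := by nlinarith
    have h5 : (q : ℝ) ≤ ρ * N / 4 := by
      refine hq.trans ?_
      rw [div_le_iff₀ hρ]
      nlinarith
    have h6 : ρ * N / 4 ≤ 2 * ε * q / η := by linarith
    rw [le_div_iff₀ h0] at h6
    rw [le_div_iff₀ (by positivity)]
    have h7 : (q : ℝ) * ρ ≤ 2 := by rwa [le_div_iff₀ hρ] at hq
    have h8 : η * (ρ * N) ≤ 8 * ε * q := by linarith
    have h9 : ρ * (η * (ρ * N)) ≤ ρ * (8 * ε * q) := mul_le_mul_of_nonneg_left h8 hρ.le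
    have h10 : 8 * ε * (q * ρ) ≤ 8 * ε * 2 := mul_le_mul_of_nonneg_left h7 (by positivity)
    calc η * (ρ ^ 2 * N) = ρ * (η * (ρ * N)) := by ring
      _ ≤ ρ * (8 * ε * q) := h9
      _ = 8 * ε * (q * ρ) := by ring
      _ ≤ 8 * ε * 2 := h10
      _ = 16 * ε := by ring

end Pool.Agent.SZW
end

-- from Lib.H21T.Defs
section

/-!
# H21T (MP_443e5f, candidate T, module D, parts D3 + D4): exponential sums over pieces of the divisor function in intervals of length about the square root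

`ee x = exp (2 π i x)` and `nn x = |x - round x|` are those of `Lib/SZW/D0.lean` (lemmas `nn_le`, `nn_add`, `nn_sub`, `nn_int_add`, `nn_mul_le`
in `SZW/A1`, `ee_add`, `norm_ee`, `ee_int`, `norm_one_sub_ee`, `geom_bound` in `SZW/A2`, Vinogradov's lemma `recurrence` in `SZW/A6`).

* `dbox A1 A2 B1 B2 m`: number of pairs `A1 ≤ a < A2`, `B1 ≤ b < B2` with `a b = m`.
* `lbox`: logarithmic length of the interval of the possible `a` (`m / B2 < a ≤ m / B1`, `A1 ≤ a < A2`).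
* `lam Q d = ∑_{r ≤ Q / d} μ(r) / r`, `gQ Q m = ∑_{d ∣ m, d ≤ Q} lam Q d`, `Mbox Q A1 A2 B1 B2 m = lbox m * gQ Q m`.
* `Rg A1 A2 x H`: the pairs `(a, b)` with `A1 ≤ a < A2`, `x ≤ a b < x + H`; `SR α` the sum of `ee (α a b)` over it.
* `Geo A x X S Λ`: the conditions on the parameters: `A` size of `a`, `x` position of the interval, `x ≤ X A²`, `S` bound of the
  directions, `Λ` (about `A³ / (2 x S²)`) length of the pieces of the range of `a`.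
* `Dir A1 Λ x S n s t`: for `i < n` the direction `(s i, t i)` of the `i`-th piece: `|s ρ - t| ≤ 1 / S`, `ρ = x / (A1 + i Λ)²`.
-/

namespace Pool.Agent.Lib.H21T

open Finset Pool.Agent.SZW

/-- the number of pairs `A1 ≤ a < A2`, `B1 ≤ b < B2` with `a b = m` -/
def dbox (A1 A2 B1 B2 m : ℕ) : ℕ := (((Ico A1 A2) ×ˢ (Ico B1 B2)).filter fun p => p.1 * p.2 = m).card

/-- the logarithmic length of the range of `a` -/
noncomputable def lbox (A1 A2 B1 B2 m : ℕ) : ℝ :=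
  max 0 (min (Real.log A2) (Real.log m - Real.log B1) - max (Real.log A1) (Real.log m - Real.log B2))

/-- `∑_{r ≤ Q / d} μ(r) / r` -/
noncomputable def lam (Q d : ℕ) : ℝ := ∑ r ∈ Icc 1 (Q / d), (ArithmeticFunction.moebius r : ℝ) / r

/-- `∑_{d ∣ m, d ≤ Q} lam Q d` -/
noncomputable def gQ (Q m : ℕ) : ℝ := ∑ d ∈ (Icc 1 Q).filter (fun d => d ∣ m), lam Q d

/-- the model of `dbox` -/
noncomputable def Mbox (Q A1 A2 B1 B2 m : ℕ) : ℝ := lbox A1 A2 B1 B2 m * gQ Q m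

/-- the pairs `(a, b)` with `A1 ≤ a < A2`, `x ≤ a b < x + H` (used for `1 ≤ A1`, `1 ≤ x`) -/
def Rg (A1 A2 x H : ℕ) : Finset (ℕ × ℕ) :=
  ((Ico A1 A2) ×ˢ (range (x + H))).filter fun p => x ≤ p.1 * p.2 ∧ p.1 * p.2 < x + H

/-- the exponential sum over `Rg` -/
noncomputable def SR (α : ℝ) (A1 A2 x H : ℕ) : ℂ := ∑ p ∈ Rg A1 A2 x H, ee (α * ((p.1 : ℝ) * p.2))

/-- conditions on the parameters -/
structure Geo (A x X S Λ : ℕ) : Prop where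
  hA : 1 ≤ A
  hX1 : 1 ≤ X
  hS : 1 ≤ S
  hΛ : 1 ≤ Λ
  hx : A ^ 2 ≤ 2 * x
  hX : x ≤ X * A ^ 2
  hup : 2 * x * Λ * S ^ 2 ≤ A ^ 3
  hlo : A ^ 3 ≤ 4 * x * Λ * S ^ 2

/-- left end of the `i`-th piece -/
def pa (A1 Λ i : ℕ) : ℕ := A1 + i * Λ

/-- right end of the `i`-th piece -/
def pb (A1 A2 Λ i : ℕ) : ℕ := min A2 (A1 + (i + 1) * Λ)

/-- number of pieces -/
def nJ (A1 A2 Λ : ℕ) : ℕ := (A2 - A1) / Λ + 1

/-- the direction `(s, t)` is good for the point `a` -/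
def Ap (x S a s t : ℕ) : Prop := |(s : ℝ) * (x / (a : ℝ) ^ 2) - t| ≤ 1 / S

/-- directions of the first `n` pieces -/
structure Dir (A1 Λ x S n : ℕ) (s t : ℕ → ℕ) : Prop where
  s1 : ∀ i < n, 1 ≤ s i
  sS : ∀ i < n, s i ≤ S
  co : ∀ i < n, Nat.Coprime (s i) (t i)
  ap : ∀ i < n, Ap x S (pa A1 Λ i) (s i) (t i)

/-- `⌈y⌉ - y` -/
noncomputable def Fr (y : ℝ) : ℝ := (⌈y⌉ : ℝ) - y

/-- `(x / a - r) / q` -/
noncomputable def yv (x q r a : ℕ) : ℝ := ((x : ℝ) / a - r) / q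

/-- `α` is close to a rational with small denominator; `u` is `N ^ (1 / 20000)` -/
def Maj (u α : ℝ) : Prop := ∃ q : ℕ, 1 ≤ q ∧ (q : ℝ) ≤ u ^ 131 ∧ nn (q * α) * u ^ 9754 ≤ 1

/-- the number of pairs of `Rg` in the residue classes `r1`, `r2` modulo `q` -/
def cnt (A1 A2 x H q r1 r2 : ℕ) : ℕ := ((Rg A1 A2 x H).filter fun p => p.1 % q = r1 ∧ p.2 % q = r2).card

/-- `Rg` as a set of pairs of integers -/
def RZ (A1 A2 x H : ℕ) : Finset (ℤ × ℤ) := (Rg A1 A2 x H).image fun p => ((p.1 : ℤ), (p.2 : ℤ))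

theorem mem_Rg {A1 A2 x H : ℕ} (hA : 1 ≤ A1) {p : ℕ × ℕ} :
    p ∈ Rg A1 A2 x H ↔ A1 ≤ p.1 ∧ p.1 < A2 ∧ x ≤ p.1 * p.2 ∧ p.1 * p.2 < x + H := by
  unfold Rg
  rw [mem_filter, mem_product, mem_Ico, mem_range]
  constructor
  · rintro ⟨⟨⟨h1, h2⟩, _⟩, h4, h5⟩
    exact ⟨h1, h2, h4, h5⟩
  · rintro ⟨h1, h2, h3, h4⟩
    exact ⟨⟨⟨h1, h2⟩, lt_of_le_of_lt (Nat.le_mul_of_pos_left _ (by omega)) h4⟩, h3, h4⟩

theorem mem_RZ {A1 A2 x H : ℕ} (hA : 1 ≤ A1) (hx : 1 ≤ x) {p : ℤ × ℤ} :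
    p ∈ RZ A1 A2 x H ↔ (A1 : ℤ) ≤ p.1 ∧ p.1 < A2 ∧ (x : ℤ) ≤ p.1 * p.2 ∧ p.1 * p.2 < x + H := by
  unfold RZ
  rw [mem_image]
  constructor
  · rintro ⟨r, hr, rfl⟩
    obtain ⟨h1, h2, h3, h4⟩ := (mem_Rg hA).1 hr
    simp only
    exact ⟨by exact_mod_cast h1, by exact_mod_cast h2, by exact_mod_cast h3, by exact_mod_cast h4⟩
  · rintro ⟨h1, h2, h3, h4⟩
    have h5 : 0 < p.1 := by omega
    have h6 : 0 < p.2 := by
      by_contra hcon
      have h7 : p.1 * p.2 ≤ 0 := mul_nonpos_of_nonneg_of_nonpos h5.le (not_lt.1 hcon)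
      omega
    obtain ⟨a, ha⟩ := Int.eq_ofNat_of_zero_le h5.le
    obtain ⟨b, hb⟩ := Int.eq_ofNat_of_zero_le h6.le
    refine ⟨(a, b), (mem_Rg hA).2 ⟨?_, ?_, ?_, ?_⟩, ?_⟩
    · rw [ha] at h1; exact_mod_cast h1
    · rw [ha] at h2; exact_mod_cast h2
    · rw [ha, hb] at h3; exact_mod_cast h3
    · rw [ha, hb] at h4; exact_mod_cast h4
    · exact Prod.ext ha.symm hb.symm

end Pool.Agent.Lib.H21T
end

-- from Lib.H21T.F3
section

/-!
# Chunk F3 (S/M): values of a sequence with gaps in a short interval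
-/

namespace Pool.Agent.Lib.H21T

open Finset Pool.Agent.SZW

/-- Let `i < j` be the smallest and the largest element of the set (if it has at least two elements). Summing `hf`: `f j + (j - i) g ≤ f i`, and
`f i - f j ≤ 2 r`; so `(j - i) g ≤ 2 r`, and the set is contained in `Icc i j`, of cardinality `j - i + 1`. -/
theorem f3 (f : ℕ → ℝ) (g r c : ℝ) (n : ℕ) (hg : 0 < g) (hr : 0 ≤ r) (hf : ∀ i, i + 1 < n → f (i + 1) + g ≤ f i) :
    (((range n).filter fun i => |f i - c| ≤ r).card : ℝ) ≤ 2 * r / g + 1 := by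
  rcases Finset.eq_empty_or_nonempty ((range n).filter fun i => |f i - c| ≤ r) with he | hne
  · rw [he, card_empty, Nat.cast_zero]
    positivity
  have hsum : ∀ d i : ℕ, i + d < n → f (i + d) + d * g ≤ f i := by
    intro d
    induction d with
    | zero => intro i _; simp
    | succ d ih =>
      intro i hi
      have h1 := ih i (by omega)
      have h2 := hf (i + d) (by omega)
      have h3 : i + (d + 1) = i + d + 1 := by ring
      rw [h3]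
      push_cast
      linarith
  set T := (range n).filter fun i => |f i - c| ≤ r with hT
  obtain ⟨h1, h2⟩ := mem_filter.1 (T.min'_mem hne)
  obtain ⟨h3, h4⟩ := mem_filter.1 (T.max'_mem hne)
  have hle : T.min' hne ≤ T.max' hne := T.min'_le_max' hne
  obtain ⟨d, hd⟩ := Nat.exists_eq_add_of_le hle
  have h5 : f (T.min' hne + d) + d * g ≤ f (T.min' hne) := by
    apply hsum
    rw [← hd]
    exact mem_range.1 h3
  rw [← hd] at h5
  have h6 := (abs_le.1 h2).2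
  have h7 := (abs_le.1 h4).1
  have h8 : (d : ℝ) ≤ 2 * r / g := by
    rw [le_div_iff₀ hg]
    linarith
  have h9 : T ⊆ Icc (T.min' hne) (T.max' hne) := fun i hi => mem_Icc.2 ⟨T.min'_le i hi, T.le_max' i hi⟩
  have h10 : T.card ≤ d + 1 := by
    refine (card_le_card h9).trans ?_
    rw [Nat.card_Icc]
    omega
  have h11 : (T.card : ℝ) ≤ d + 1 := by exact_mod_cast h10
  linarith

end Pool.Agent.Lib.H21T
end

-- from Lib.H21T.S1
section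

/-!
# Chunk S1 (M): averaging over shifts
-/

namespace Pool.Agent.Lib.H21T

open Finset Pool.Agent.SZW

theorem s1_one (R : Finset (ℤ × ℤ)) (φ : ℤ × ℤ → ℂ) (hφ : ∀ p, ‖φ p‖ ≤ 1) (τ : (ℤ × ℤ) ≃ (ℤ × ℤ)) (E : ℝ)
    (h1 : ((R.filter fun p => τ p ∉ R).card : ℝ) ≤ E)
    (h2 : ((R.filter fun p => τ.symm p ∉ R).card : ℝ) ≤ E) :
    ‖∑ p ∈ R, φ p - ∑ p ∈ R, φ (τ p)‖ ≤ 2 * E := by
  have e1 : ∑ p ∈ R, φ (τ p) = ∑ p ∈ R.map τ.toEmbedding, φ p := by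
    rw [Finset.sum_map]
    rfl
  have e2 : (R.map τ.toEmbedding \ R).card = (R.filter fun p => τ p ∉ R).card := by
    have h3 : R.map τ.toEmbedding \ R = (R.filter fun p => τ p ∉ R).map τ.toEmbedding := by
      ext p
      simp only [Finset.mem_sdiff, Finset.mem_map, Finset.mem_filter, Equiv.coe_toEmbedding]
      constructor
      · rintro ⟨⟨a, ha, rfl⟩, h⟩
        exact ⟨a, ⟨ha, h⟩, rfl⟩
      · rintro ⟨a, ⟨ha, h⟩, rfl⟩
        exact ⟨⟨a, ha, rfl⟩, h⟩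
    rw [h3, Finset.card_map]
  have e3 : R \ R.map τ.toEmbedding = R.filter fun p => τ.symm p ∉ R := by
    ext p
    rw [Finset.mem_sdiff, Finset.mem_filter, Finset.mem_map_equiv]
  have hb : ∀ T : Finset (ℤ × ℤ), ‖∑ p ∈ T, φ p‖ ≤ T.card := by
    intro T
    calc ‖∑ p ∈ T, φ p‖ ≤ ∑ p ∈ T, ‖φ p‖ := norm_sum_le _ _
      _ ≤ ∑ p ∈ T, (1 : ℝ) := Finset.sum_le_sum fun p _ => hφ p
      _ = T.card := by simp
  rw [e1, ← Finset.sum_sdiff_sub_sum_sdiff]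
  have h5 := norm_sub_le (∑ p ∈ R \ R.map τ.toEmbedding, φ p) (∑ p ∈ R.map τ.toEmbedding \ R, φ p)
  have h6 := hb (R \ R.map τ.toEmbedding)
  have h7 := hb (R.map τ.toEmbedding \ R)
  rw [e2] at h7
  rw [e3] at h6 h5 ⊢
  linarith

/-- For fixed `k < K` let `τ p = (p.1 + k s, p.2 - k t)` (a bijection of `ℤ × ℤ`). `∑_{p ∈ R} φ (τ p) = ∑_{p ∈ τ R} φ p`, and
`∑_{p ∈ R} φ p - ∑_{p ∈ τ R} φ p = ∑_{R \ τ R} φ - ∑_{τ R \ R} φ`, where `|R \ τ R| = |{p ∈ R : τ⁻¹ p ∉ R}| ≤ E` (`h2`) and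
`|τ R \ R| = |{p ∈ R : τ p ∉ R}| ≤ E` (`h1`). So `‖∑_R φ p - ∑_R φ (τ p)‖ ≤ 2 E`; sum over `k < K`, exchange the two sums. -/
theorem s1 (R : Finset (ℤ × ℤ)) (φ : ℤ × ℤ → ℂ) (hφ : ∀ p, ‖φ p‖ ≤ 1) (s t : ℤ) (K : ℕ) (E : ℝ)
    (h1 : ∀ k : ℕ, k < K → ((R.filter fun p => (p.1 + (k : ℤ) * s, p.2 - (k : ℤ) * t) ∉ R).card : ℝ) ≤ E)
    (h2 : ∀ k : ℕ, k < K → ((R.filter fun p => (p.1 - (k : ℤ) * s, p.2 + (k : ℤ) * t) ∉ R).card : ℝ) ≤ E) :
    (K : ℝ) * ‖∑ p ∈ R, φ p‖ ≤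
      ∑ p ∈ R, ‖∑ k ∈ range K, φ (p.1 + (k : ℤ) * s, p.2 - (k : ℤ) * t)‖ + 2 * K * E := by
  have key : ∀ k ∈ range K, ‖∑ p ∈ R, φ p - ∑ p ∈ R, φ (p.1 + (k : ℤ) * s, p.2 - (k : ℤ) * t)‖ ≤ 2 * E := by
    intro k hk
    rw [Finset.mem_range] at hk
    let τ : (ℤ × ℤ) ≃ (ℤ × ℤ) :=
      { toFun := fun p => (p.1 + (k : ℤ) * s, p.2 - (k : ℤ) * t)
        invFun := fun p => (p.1 - (k : ℤ) * s, p.2 + (k : ℤ) * t)
        left_inv := fun p => by simp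
        right_inv := fun p => by simp }
    exact s1_one R φ hφ τ E (h1 k hk) (h2 k hk)
  have e1 : (K : ℂ) * ∑ p ∈ R, φ p = ∑ k ∈ range K, (∑ p ∈ R, φ p - ∑ p ∈ R, φ (p.1 + (k : ℤ) * s, p.2 - (k : ℤ) * t)) +
      ∑ p ∈ R, ∑ k ∈ range K, φ (p.1 + (k : ℤ) * s, p.2 - (k : ℤ) * t) := by
    rw [Finset.sum_sub_distrib, Finset.sum_comm (s := R), Finset.sum_const, Finset.card_range, nsmul_eq_mul]
    ring
  have e2 : (K : ℝ) * ‖∑ p ∈ R, φ p‖ = ‖(K : ℂ) * ∑ p ∈ R, φ p‖ := by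
    rw [norm_mul, Complex.norm_natCast]
  rw [e2, e1]
  have h3 := norm_add_le (∑ k ∈ range K, (∑ p ∈ R, φ p - ∑ p ∈ R, φ (p.1 + (k : ℤ) * s, p.2 - (k : ℤ) * t)))
    (∑ p ∈ R, ∑ k ∈ range K, φ (p.1 + (k : ℤ) * s, p.2 - (k : ℤ) * t))
  have h4 : ‖∑ k ∈ range K, (∑ p ∈ R, φ p - ∑ p ∈ R, φ (p.1 + (k : ℤ) * s, p.2 - (k : ℤ) * t))‖ ≤ K * (2 * E) := by
    refine (norm_sum_le _ _).trans ((Finset.sum_le_sum key).trans (le_of_eq ?_))
    rw [Finset.sum_const, Finset.card_range, nsmul_eq_mul]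
  have h5 := norm_sum_le R (fun p => ∑ k ∈ range K, φ (p.1 + (k : ℤ) * s, p.2 - (k : ℤ) * t))
  linarith

end Pool.Agent.Lib.H21T
end

-- from Lib.H21T.S4
section

/-!
# Chunk S4 (S/M): counting pairs
-/

namespace Pool.Agent.Lib.H21T

open Finset Pool.Agent.SZW

/-- The `b` are the integers of the half open interval from `x / a` to `(x + H) / a`, of length `H / a`. -/
theorem s4_fib (x H a : ℕ) (ha : 1 ≤ a) :
    (((range (x + H)).filter fun b => x ≤ a * b ∧ a * b < x + H).card : ℝ) ≤ (H : ℝ) / a + 1 := by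
  classical
  set S := (range (x + H)).filter fun b => x ≤ a * b ∧ a * b < x + H with hS
  have ha' : (0 : ℝ) < a := by exact_mod_cast ha
  rcases S.eq_empty_or_nonempty with h | h
  · rw [h, card_empty, Nat.cast_zero]
    positivity
  · have h0 := S.min'_mem h
    have h1 := S.max'_mem h
    set b0 := S.min' h with hb0
    set b1 := S.max' h with hb1
    have hle : b0 ≤ b1 := S.min'_le_max' h
    have hsub : S ⊆ Icc b0 b1 := fun b hb => mem_Icc.2 ⟨S.min'_le b hb, S.le_max' b hb⟩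
    have hc : S.card ≤ b1 + 1 - b0 := by
      have := card_le_card hsub
      rwa [Nat.card_Icc] at this
    rw [hS, mem_filter] at h0 h1
    have h2 : a * b1 < a * b0 + H := by
      have := h1.2.2
      have := h0.2.1
      omega
    have h3 : (a : ℝ) * b1 < a * b0 + H := by exact_mod_cast h2
    have h4 : (b1 : ℝ) - b0 < H / a := by
      rw [lt_div_iff₀ ha']
      nlinarith
    have h5 : (S.card : ℝ) ≤ (b1 : ℝ) + 1 - b0 := by
      have : S.card + b0 ≤ b1 + 1 := by omega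
      have h6 : ((S.card : ℝ)) + b0 ≤ b1 + 1 := by exact_mod_cast this
      linarith
    linarith

/-- Fibres over the first coordinate: for each `a ∈ T` with `A ≤ A1 ≤ a` at most `H / a + 1 ≤ H / A + 1` values of `b` (`s4_fib`). -/
theorem s4_card {A A1 A2 x H : ℕ} (hA : 1 ≤ A) (h1 : A ≤ A1) (T : Finset ℕ) :
    (((Rg A1 A2 x H).filter fun p => p.1 ∈ T).card : ℝ) ≤ T.card * ((H : ℝ) / A + 1) := by
  classical
  have hA' : (0 : ℝ) < A := by exact_mod_cast hA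
  have h2 : ((Rg A1 A2 x H).filter fun p => p.1 ∈ T).card =
      ∑ a ∈ T, (((Rg A1 A2 x H).filter fun p => p.1 ∈ T).filter fun p => p.1 = a).card :=
    card_eq_sum_card_fiberwise (fun p hp => (mem_filter.1 hp).2)
  rw [h2, Nat.cast_sum, ← nsmul_eq_mul]
  refine sum_le_card_nsmul _ _ _ fun a haT => ?_
  by_cases ha : A1 ≤ a
  · have h3 : (((Rg A1 A2 x H).filter fun p => p.1 ∈ T).filter fun p => p.1 = a).card ≤
        ((range (x + H)).filter fun b => x ≤ a * b ∧ a * b < x + H).card := by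
      refine card_le_card_of_injOn (fun p => p.2) ?_ ?_
      · intro p hp
        have hp' := mem_filter.1 (mem_coe.1 hp)
        have hp'' := mem_filter.1 hp'.1
        have h4 := hp''.1
        rw [Rg, mem_filter, mem_product] at h4
        rw [mem_coe, mem_filter]
        have h5 := hp'.2
        subst h5
        exact ⟨h4.1.2, h4.2⟩
      · intro p hp q hq hpq
        have hp' := (mem_filter.1 (mem_coe.1 hp)).2
        have hq' := (mem_filter.1 (mem_coe.1 hq)).2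
        exact Prod.ext (hp'.trans hq'.symm) hpq
    have h4 : ((((Rg A1 A2 x H).filter fun p => p.1 ∈ T).filter fun p => p.1 = a).card : ℝ) ≤
        (H : ℝ) / a + 1 := le_trans (by exact_mod_cast h3) (s4_fib x H a (by omega))
    refine h4.trans ?_
    have h5 : (H : ℝ) / a ≤ H / A := by
      apply div_le_div_of_nonneg_left (by positivity) hA'
      exact_mod_cast h1.trans ha
    linarith
  · have h3 : (((Rg A1 A2 x H).filter fun p => p.1 ∈ T).filter fun p => p.1 = a) = ∅ := by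
      rw [filter_eq_empty_iff]
      intro p hp hpa
      have h4 := (mem_filter.1 hp).1
      rw [Rg, mem_filter, mem_product, mem_Ico] at h4
      have h5 := h4.1.1.1
      omega
    rw [h3, card_empty, Nat.cast_zero]
    positivity

/-- The case `T = Ico A1 A2`. -/
theorem s4_all {A A1 A2 x H : ℕ} (hA : 1 ≤ A) (h1 : A ≤ A1) (h2 : A1 ≤ A2) :
    ((Rg A1 A2 x H).card : ℝ) ≤ ((A2 : ℝ) - A1) * ((H : ℝ) / A + 1) := by
  classical
  have h := s4_card (A2 := A2) (x := x) (H := H) hA h1 (Ico A1 A2)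
  rw [Nat.card_Ico, Nat.cast_sub h2] at h
  have h3 : (Rg A1 A2 x H).filter (fun p => p.1 ∈ Ico A1 A2) = Rg A1 A2 x H := by
    rw [filter_eq_self]
    intro p hp
    rw [Rg, mem_filter, mem_product] at hp
    exact hp.1.1
  rwa [h3] at h

/-- Fibres over the product: for `m ∈ U` (with `x ≤ m < x + H`) the pairs with `a b = m` inject into the divisors of `m` by `(a, b) ↦ a`. -/
theorem s4_div {A1 A2 x H τ : ℕ} (hA : 1 ≤ A1) (hx : 1 ≤ x) (hτ : ∀ m : ℕ, 1 ≤ m → m < x + H → m.divisors.card ≤ τ) (U : Finset ℕ) :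
    ((Rg A1 A2 x H).filter fun p => p.1 * p.2 ∈ U).card ≤ τ * U.card := by
  classical
  have h2 : ((Rg A1 A2 x H).filter fun p => p.1 * p.2 ∈ U).card =
      ∑ m ∈ U, (((Rg A1 A2 x H).filter fun p => p.1 * p.2 ∈ U).filter fun p => p.1 * p.2 = m).card :=
    card_eq_sum_card_fiberwise (fun p hp => (mem_filter.1 hp).2)
  rw [h2, mul_comm, ← smul_eq_mul]
  refine sum_le_card_nsmul _ _ _ fun m hmU => ?_
  by_cases hm : x ≤ m ∧ m < x + H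
  · refine le_trans ?_ (hτ m (hx.trans hm.1) hm.2)
    refine card_le_card_of_injOn (fun p => p.1) ?_ ?_
    · intro p hp
      have h3 := (mem_filter.1 (mem_coe.1 hp)).2
      rw [mem_coe, Nat.mem_divisors]
      exact ⟨⟨p.2, h3.symm⟩, by omega⟩
    · intro p hp q hq hpq
      have h3 := (mem_filter.1 (mem_coe.1 hp)).2
      have h4 := (mem_filter.1 (mem_coe.1 hq)).2
      have h5 := (mem_filter.1 (mem_filter.1 (mem_coe.1 hp)).1).1
      rw [Rg, mem_filter, mem_product, mem_Ico] at h5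
      have h6 : 0 < p.1 := by have := h5.1.1.1; omega
      have hpq' : p.1 = q.1 := hpq
      refine Prod.ext hpq' ?_
      rw [← hpq'] at h4
      exact Nat.eq_of_mul_eq_mul_left h6 (h3.trans h4.symm)
  · have h3 : (((Rg A1 A2 x H).filter fun p => p.1 * p.2 ∈ U).filter fun p => p.1 * p.2 = m) = ∅ := by
      rw [filter_eq_empty_iff]
      intro p hp hpm
      have h4 := (mem_filter.1 hp).1
      rw [Rg, mem_filter] at h4
      exact hm (hpm ▸ h4.2)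
    rw [h3, card_empty]
    exact Nat.zero_le _

/-- `s4_div` with `U = Ico x (x + D) ∪ Ico (x + H - D) (x + H)`, `|U| ≤ 2 D`. -/
theorem s4_bdry {A1 A2 x H τ : ℕ} (hA : 1 ≤ A1) (hx : 1 ≤ x) (hτ : ∀ m : ℕ, 1 ≤ m → m < x + H → m.divisors.card ≤ τ) (D : ℕ) :
    ((Rg A1 A2 x H).filter fun p => p.1 * p.2 < x + D ∨ x + H ≤ p.1 * p.2 + D).card ≤ 2 * τ * D := by
  classical
  have h1 := s4_div (A2 := A2) hA hx hτ (Ico x (x + D) ∪ Ico (x + H - D) (x + H))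
  have h2 : (Ico x (x + D) ∪ Ico (x + H - D) (x + H)).card ≤ 2 * D := by
    refine (card_union_le _ _).trans ?_
    rw [Nat.card_Ico, Nat.card_Ico]
    omega
  refine le_trans (card_le_card ?_) (h1.trans ?_)
  · intro p hp
    rw [mem_filter] at hp ⊢
    have h3 := hp.1
    rw [Rg, mem_filter] at h3
    refine ⟨hp.1, ?_⟩
    rw [mem_union, mem_Ico, mem_Ico]
    rcases hp.2 with h | h
    · exact Or.inl ⟨h3.2.1, h⟩
    · exact Or.inr ⟨by omega, h3.2.2⟩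
  · calc τ * (Ico x (x + D) ∪ Ico (x + H - D) (x + H)).card ≤ τ * (2 * D) := Nat.mul_le_mul_left _ h2
      _ = 2 * τ * D := by ring

end Pool.Agent.Lib.H21T
end

-- from Lib.H21T.F2
section

/-!
# Chunk F2 (S/M): variation of the slope x / a^2
-/

namespace Pool.Agent.Lib.H21T

open Finset Pool.Agent.SZW

/-- From `hup` and `hx`: `A ^ 2 Λ S ^ 2 ≤ 2 x Λ S ^ 2 ≤ A ^ 3`, and `A ≥ 1`. -/
theorem f2_small {A x X S Λ : ℕ} (G : Geo A x X S Λ) : Λ * S ^ 2 ≤ A := by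
  have h1 := G.hup
  have h2 := G.hx
  have h3 := G.hA
  have h4 : A ^ 2 * (Λ * S ^ 2) ≤ A ^ 2 * A := by
    calc A ^ 2 * (Λ * S ^ 2) ≤ (2 * x) * (Λ * S ^ 2) := Nat.mul_le_mul_right _ h2
      _ = 2 * x * Λ * S ^ 2 := by ring
      _ ≤ A ^ 3 := h1
      _ = A ^ 2 * A := by ring
  exact Nat.le_of_mul_le_mul_left h4 (by positivity)

theorem f2_real {A x X S Λ : ℕ} (G : Geo A x X S Λ) : (1 : ℝ) ≤ A ∧ (1 : ℝ) ≤ S ∧ (1 : ℝ) ≤ Λ ∧ (Λ : ℝ) ≤ A ∧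
    2 * (x : ℝ) * Λ * S ^ 2 ≤ (A : ℝ) ^ 3 ∧ (A : ℝ) ^ 3 ≤ 4 * x * Λ * S ^ 2 := by
  have hS := G.hS
  have h5 : Λ ≤ A := by
    have h6 := f2_small G
    have h7 : Λ * 1 ≤ Λ * S ^ 2 := Nat.mul_le_mul_left _ (Nat.one_le_pow _ _ hS)
    omega
  have h1 := G.hA
  have h2 := G.hΛ
  have h3 := G.hup
  have h4 := G.hlo
  exact ⟨by exact_mod_cast h1, by exact_mod_cast hS, by exact_mod_cast h2, by exact_mod_cast h5, by exact_mod_cast h3,
    by exact_mod_cast h4⟩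

/-- `x / a ^ 2 - x / (a + Λ) ^ 2 = x Λ (2 a + Λ) / (a ^ 2 (a + Λ) ^ 2) ≥ x Λ / (a ^ 2 (a + Λ)) ≥ x Λ / (4 A ^ 2 * 3 A)` (`Λ ≤ A` by `f2_small`)
`≥ 1 / (48 S ^ 2)` by `hlo`. -/
theorem f2_gap {A x X S Λ : ℕ} (G : Geo A x X S Λ) {a : ℕ} (h1 : A ≤ a) (h2 : a ≤ 2 * A) :
    1 / (48 * (S : ℝ) ^ 2) ≤ (x : ℝ) / (a : ℝ) ^ 2 - (x : ℝ) / ((a : ℝ) + Λ) ^ 2 := by
  obtain ⟨hA, hS, hΛ, hΛA, hup, hlo⟩ := f2_real G
  have h1' : (A : ℝ) ≤ a := by exact_mod_cast h1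
  have h2' : (a : ℝ) ≤ 2 * A := by exact_mod_cast h2
  have hx0 : (0 : ℝ) ≤ x := Nat.cast_nonneg x
  have ha0 : (0 : ℝ) < a := by linarith
  have haΛ : (0 : ℝ) < (a : ℝ) + Λ := by linarith
  have hS0 : (0 : ℝ) < S := by linarith
  have e1 : (x : ℝ) / (a : ℝ) ^ 2 - (x : ℝ) / ((a : ℝ) + Λ) ^ 2 =
      x * Λ * (2 * a + Λ) / ((a : ℝ) ^ 2 * ((a : ℝ) + Λ) ^ 2) := by
    field_simp
    ring
  rw [e1]
  have e2 : (x : ℝ) * Λ / ((a : ℝ) ^ 2 * ((a : ℝ) + Λ)) ≤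
      x * Λ * (2 * a + Λ) / ((a : ℝ) ^ 2 * ((a : ℝ) + Λ) ^ 2) := by
    rw [div_le_div_iff₀ (by positivity) (by positivity)]
    have h3 : (0 : ℝ) ≤ x * Λ * (a : ℝ) ^ 2 * ((a : ℝ) + Λ) * a := by positivity
    nlinarith [h3]
  refine le_trans ?_ e2
  have e3 : (a : ℝ) ^ 2 * ((a : ℝ) + Λ) ≤ 4 * A ^ 2 * (3 * A) := by
    apply mul_le_mul
    · calc (a : ℝ) ^ 2 ≤ (2 * A) ^ 2 := pow_le_pow_left₀ ha0.le h2' 2
        _ = 4 * A ^ 2 := by ring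
    · linarith
    · linarith
    · positivity
  rw [div_le_div_iff₀ (by positivity) (by positivity)]
  have e4 : (4 : ℝ) * A ^ 2 * (3 * A) = 12 * (A : ℝ) ^ 3 := by ring
  have e5 : (x : ℝ) * Λ * (48 * (S : ℝ) ^ 2) = 12 * (4 * (x : ℝ) * Λ * (S : ℝ) ^ 2) := by ring
  rw [e4] at e3
  rw [e5]
  linarith

/-- `x / (a a')` lies between `x / (a0 + Λ) ^ 2` and `x / a0 ^ 2`, whose difference is
`x Λ (2 a0 + Λ) / (a0 ^ 2 (a0 + Λ) ^ 2) ≤ 2 x Λ / (a0 ^ 2 (a0 + Λ)) ≤ 2 x Λ / A ^ 3 ≤ 1 / S ^ 2` (`hup`). -/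
theorem f2_var {A x X S Λ : ℕ} (G : Geo A x X S Λ) {a0 a a' : ℕ} (h1 : A ≤ a0) (h2 : a0 ≤ a) (h3 : a ≤ a0 + Λ) (h4 : a0 ≤ a')
    (h5 : a' ≤ a0 + Λ) : |(x : ℝ) / (a0 : ℝ) ^ 2 - (x : ℝ) / ((a : ℝ) * a')| ≤ 1 / (S : ℝ) ^ 2 := by
  obtain ⟨hA, hS, hΛ, hΛA, hup, hlo⟩ := f2_real G
  have h1' : (A : ℝ) ≤ a0 := by exact_mod_cast h1
  have h2' : (a0 : ℝ) ≤ a := by exact_mod_cast h2
  have h3' : (a : ℝ) ≤ a0 + Λ := by exact_mod_cast h3
  have h4' : (a0 : ℝ) ≤ a' := by exact_mod_cast h4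
  have h5' : (a' : ℝ) ≤ a0 + Λ := by exact_mod_cast h5
  have hx0 : (0 : ℝ) ≤ x := Nat.cast_nonneg x
  have ha0 : (0 : ℝ) < a0 := by linarith
  have ha : (0 : ℝ) < a := by linarith
  have ha' : (0 : ℝ) < a' := by linarith
  have haΛ : (0 : ℝ) < (a0 : ℝ) + Λ := by linarith
  have hS0 : (0 : ℝ) < S := by linarith
  have hA0 : (0 : ℝ) < A := by linarith
  have u1 : (x : ℝ) / ((a : ℝ) * a') ≤ (x : ℝ) / (a0 : ℝ) ^ 2 := by
    apply div_le_div_of_nonneg_left hx0 (by positivity)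
    calc (a0 : ℝ) ^ 2 = a0 * a0 := by ring
      _ ≤ a * a' := mul_le_mul h2' h4' ha0.le ha.le
  have u2 : (x : ℝ) / ((a0 : ℝ) + Λ) ^ 2 ≤ (x : ℝ) / ((a : ℝ) * a') := by
    apply div_le_div_of_nonneg_left hx0 (by positivity)
    calc (a : ℝ) * a' ≤ ((a0 : ℝ) + Λ) * ((a0 : ℝ) + Λ) := mul_le_mul h3' h5' ha'.le haΛ.le
      _ = ((a0 : ℝ) + Λ) ^ 2 := by ring
  have e1 : (x : ℝ) / (a0 : ℝ) ^ 2 - (x : ℝ) / ((a0 : ℝ) + Λ) ^ 2 =
      x * Λ * (2 * a0 + Λ) / ((a0 : ℝ) ^ 2 * ((a0 : ℝ) + Λ) ^ 2) := by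
    field_simp
    ring
  have e2 : x * Λ * (2 * a0 + Λ) / ((a0 : ℝ) ^ 2 * ((a0 : ℝ) + Λ) ^ 2) ≤
      2 * (x : ℝ) * Λ / ((a0 : ℝ) ^ 2 * ((a0 : ℝ) + Λ)) := by
    rw [div_le_div_iff₀ (by positivity) (by positivity)]
    have h3 : (0 : ℝ) ≤ x * Λ * (a0 : ℝ) ^ 2 * ((a0 : ℝ) + Λ) * Λ := by positivity
    nlinarith [h3]
  have e3 : 2 * (x : ℝ) * Λ / ((a0 : ℝ) ^ 2 * ((a0 : ℝ) + Λ)) ≤ 1 / (S : ℝ) ^ 2 := by
    rw [div_le_div_iff₀ (by positivity) (by positivity)]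
    calc 2 * (x : ℝ) * Λ * S ^ 2 ≤ A ^ 3 := hup
      _ = A ^ 2 * A := by ring
      _ ≤ (a0 : ℝ) ^ 2 * ((a0 : ℝ) + Λ) := by
          apply mul_le_mul
          · exact pow_le_pow_left₀ hA0.le h1' 2
          · linarith
          · exact hA0.le
          · positivity
      _ = 1 * ((a0 : ℝ) ^ 2 * ((a0 : ℝ) + Λ)) := by ring
  rw [abs_of_nonneg (by linarith)]
  linarith

end Pool.Agent.Lib.H21T
end

-- from Lib.H21T.S2
section

/-!
# Chunk S2 (S/M): the size of s b - t a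
-/

namespace Pool.Agent.Lib.H21T

open Finset Pool.Agent.SZW

/-- `s b - t a = s (b - x / a) + a (s x / a ^ 2 - t)`, `0 ≤ b - x / a ≤ H / a ≤ H / A`, `a ≤ 2 A` and
`|s x / a ^ 2 - t| ≤ 1 / S + s |x / a0 ^ 2 - x / a ^ 2| ≤ 1 / S + S / S ^ 2 = 2 / S` (`Ap`, `f2_var` with `a = a'`). -/
theorem s2 {A x X S Λ : ℕ} (G : Geo A x X S Λ) {a0 s t a b H : ℕ} (h0 : A ≤ a0) (hsS : s ≤ S) (hap : Ap x S a0 s t)
    (h1 : a0 ≤ a) (h2 : a ≤ a0 + Λ) (h3 : a ≤ 2 * A) (h4 : x ≤ a * b) (h5 : a * b ≤ x + H) :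
    |(s : ℝ) * b - t * a| ≤ 4 * A / S + S * H / A := by
  have hA : (1 : ℝ) ≤ A := by exact_mod_cast G.hA
  have hS : (1 : ℝ) ≤ S := by exact_mod_cast G.hS
  have hA0 : (0 : ℝ) < A := by linarith
  have hS0 : (0 : ℝ) < S := by linarith
  have hAa : (A : ℝ) ≤ a := by exact_mod_cast h0.trans h1
  have ha0 : (0 : ℝ) < a := by linarith
  have haA : (a : ℝ) ≤ 2 * A := by exact_mod_cast h3
  have hs0 : (0 : ℝ) ≤ s := Nat.cast_nonneg s
  have hsS' : (s : ℝ) ≤ S := by exact_mod_cast hsS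
  have hH0 : (0 : ℝ) ≤ H := Nat.cast_nonneg H
  have h4' : (x : ℝ) ≤ a * b := by exact_mod_cast h4
  have h5' : (a : ℝ) * b ≤ x + H := by exact_mod_cast h5
  have e : (s : ℝ) * b - t * a = s * (b - x / a) + a * (s * (x / ((a : ℝ) * a)) - t) := by
    field_simp
    ring
  have k1 : (0 : ℝ) ≤ b - x / a := by
    rw [sub_nonneg, div_le_iff₀ ha0]
    linarith [mul_comm (a : ℝ) b]
  have k2 : (b : ℝ) - x / a ≤ H / A := by
    have k3 : (b : ℝ) - x / a ≤ H / a := by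
      rw [sub_le_iff_le_add, ← add_div, le_div_iff₀ ha0]
      linarith [mul_comm (a : ℝ) b]
    exact k3.trans (div_le_div_of_nonneg_left hH0 hA0 hAa)
  have k4 : |(s : ℝ) * (b - x / a)| ≤ S * H / A := by
    rw [abs_of_nonneg (mul_nonneg hs0 k1), mul_div_assoc]
    exact mul_le_mul hsS' k2 k1 hS0.le
  have k5 := f2_var G h0 h1 h2 h1 h2
  have k6 : |(s : ℝ) * (x / ((a : ℝ) * a)) - t| ≤ 2 / S := by
    have k7 : (s : ℝ) * (x / ((a : ℝ) * a)) - t = (s * (x / (a0 : ℝ) ^ 2) - t) - s * (x / (a0 : ℝ) ^ 2 - x / ((a : ℝ) * a)) := by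
      ring
    rw [k7]
    refine (abs_sub _ _).trans ?_
    have k8 : |(s : ℝ) * (x / (a0 : ℝ) ^ 2 - x / ((a : ℝ) * a))| ≤ 1 / S := by
      rw [abs_mul, abs_of_nonneg hs0]
      refine (mul_le_mul hsS' k5 (abs_nonneg _) hS0.le).trans (le_of_eq ?_)
      field_simp
    have k9 : |(s : ℝ) * (x / (a0 : ℝ) ^ 2) - t| ≤ 1 / S := hap
    have k10 : (2 : ℝ) / S = 1 / S + 1 / S := by ring
    rw [k10]
    exact add_le_add k9 k8
  have k11 : |(a : ℝ) * (s * (x / ((a : ℝ) * a)) - t)| ≤ 4 * A / S := by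
    rw [abs_mul, abs_of_pos ha0]
    refine (mul_le_mul haA k6 (abs_nonneg _) (by linarith)).trans (le_of_eq ?_)
    ring
  rw [e, add_comm (4 * (A : ℝ) / S)]
  exact (abs_add_le _ _).trans (add_le_add k4 k11)

/-- `t ≤ s x / a0 ^ 2 + 1 / S ≤ S X + 1 ≤ 2 X S` (`hX`, `A ≤ a0`). -/
theorem s2_t {A x X S Λ : ℕ} (G : Geo A x X S Λ) {a0 s t : ℕ} (h0 : A ≤ a0) (hsS : s ≤ S) (hap : Ap x S a0 s t) :
    t ≤ 2 * X * S := by
  have hA : (1 : ℝ) ≤ A := by exact_mod_cast G.hA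
  have hS : (1 : ℝ) ≤ S := by exact_mod_cast G.hS
  have hX1 : (1 : ℝ) ≤ X := by exact_mod_cast G.hX1
  have hX : (x : ℝ) ≤ X * (A : ℝ) ^ 2 := by exact_mod_cast G.hX
  have hAa : (A : ℝ) ≤ a0 := by exact_mod_cast h0
  have hs0 : (0 : ℝ) ≤ s := Nat.cast_nonneg s
  have hsS' : (s : ℝ) ≤ S := by exact_mod_cast hsS
  have ha0 : (0 : ℝ) < (a0 : ℝ) ^ 2 := by
    have : (0 : ℝ) < a0 := by linarith
    positivity
  have k1 : (x : ℝ) / (a0 : ℝ) ^ 2 ≤ X := by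
    rw [div_le_iff₀ ha0]
    have k2 : (A : ℝ) ^ 2 ≤ (a0 : ℝ) ^ 2 := pow_le_pow_left₀ (by linarith) hAa 2
    nlinarith
  have k2 : |(s : ℝ) * (x / (a0 : ℝ) ^ 2) - t| ≤ 1 / S := hap
  have k3 := (abs_le.1 k2).1
  have k4 : 1 / (S : ℝ) ≤ 1 := by
    rw [div_le_one (by linarith)]
    exact hS
  have k5 : (s : ℝ) * (x / (a0 : ℝ) ^ 2) ≤ S * X :=
    mul_le_mul hsS' k1 (by positivity) (by linarith)
  have k6 : (t : ℝ) ≤ 2 * X * S := by nlinarith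
  exact_mod_cast k6

/-- `x / a0 ^ 2 ≥ x / (4 A ^ 2) ≥ 1 / 8` (`hx`), so `t ≥ s / 8 - 1 / S > 0` for `s ≥ 9`. -/
theorem s2_t1 {A x X S Λ : ℕ} (G : Geo A x X S Λ) {a0 s t : ℕ} (h0 : A ≤ a0) (h1 : a0 ≤ 2 * A) (hs : 9 ≤ s) (hap : Ap x S a0 s t) :
    1 ≤ t := by
  have hA : (1 : ℝ) ≤ A := by exact_mod_cast G.hA
  have hS : (1 : ℝ) ≤ S := by exact_mod_cast G.hS
  have hx : (A : ℝ) ^ 2 ≤ 2 * x := by exact_mod_cast G.hx
  have hAa : (A : ℝ) ≤ a0 := by exact_mod_cast h0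
  have haA : (a0 : ℝ) ≤ 2 * A := by exact_mod_cast h1
  have hs9 : (9 : ℝ) ≤ s := by exact_mod_cast hs
  have ha0 : (0 : ℝ) < (a0 : ℝ) ^ 2 := by
    have : (0 : ℝ) < a0 := by linarith
    positivity
  have k1 : 1 / 8 ≤ (x : ℝ) / (a0 : ℝ) ^ 2 := by
    rw [le_div_iff₀ ha0]
    have k2 : (a0 : ℝ) ^ 2 ≤ (2 * A) ^ 2 := pow_le_pow_left₀ (by linarith) haA 2
    nlinarith
  have k2 : |(s : ℝ) * (x / (a0 : ℝ) ^ 2) - t| ≤ 1 / S := hap
  have k3 := (abs_le.1 k2).2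
  have k4 : 1 / (S : ℝ) ≤ 1 := by
    rw [div_le_one (by linarith)]
    exact hS
  have k5 : 9 * (1 / 8) ≤ (s : ℝ) * (x / (a0 : ℝ) ^ 2) :=
    mul_le_mul hs9 k1 (by norm_num) (by linarith)
  have k6 : (0 : ℝ) < t := by linarith
  exact_mod_cast k6

end Pool.Agent.Lib.H21T
end
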