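import Mathlib
import Pool.Agent.Lib.H59M.M2.D_H59_SchinzelDefs
import Pool.Agent.Lib.H59M.M2.M003
import Pool.Agent.Lib.H59M.M2.M006
import Pool.Agent.Lib.H59M.M2.M012
import Pool.Agent.Lib.H59M.M2.M021

/-! Merged copies (to shorten the build) of Lib.H59.SieveRankin, Lib.H59.PolySieve, Lib.H33B.Defs, Lib.H59.SchinzelCount, Lib.H33B.AC, Lib.H59.SchinzelUpper, Lib.H33B.V1, Lib.SZW.B1, Lib.SZW.B2, Lib.SZW.B3, Lib.SZW.B4. -/

-- from Lib.H59.SieveRankin
section

/-!
# Lower bound for the Selberg sum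

-/

open Finset ArithmeticFunction
open scoped ArithmeticFunction.Moebius ArithmeticFunction.zeta

noncomputable section

namespace Pool.Agent.Lib.H59

variable {s : BoundingSieve}

theorem selbergTerms_prime {p : ℕ} (hp : p.Prime) :
    s.selbergTerms p = s.nu p * (1 - s.nu p)⁻¹ := by
  rw [BoundingSieve.selbergTerms_apply, hp.primeFactors, prod_singleton]

theorem selS_lower {κ y R : ℝ} (hκ : 0 ≤ κ) (hy : 2 ≤ y) (hR : 1 ≤ R)
    (hP : ∀ p : ℕ, p.Prime → p ∣ s.prodPrimes → (p : ℝ) ≤ y)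
    (hnu : ∀ p : ℕ, p.Prime → p ∣ s.prodPrimes → s.nu p ≤ κ / p)
    (hRy : (Real.log 2 + 28 * κ * Real.log 4) * Real.log y ≤ Real.log R) :
    1 / 2 * ∏ p ∈ s.prodPrimes.primeFactors, (1 - s.nu p)⁻¹ ≤ selS s R := by
  have hlogy : 0 < Real.log y := Real.log_pos (by linarith)
  have hR0 : 0 < R := by linarith
  set P := s.prodPrimes with hPdef
  have hsq : Squarefree P := s.prodPrimes_squarefree
  have hP0 : P ≠ 0 := hsq.ne_zero
  set g := s.selbergTerms with hg
  have hprime : ∀ p ∈ P.primeFactors, p.Prime ∧ p ∣ P := fun p hp =>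
    ⟨Nat.prime_of_mem_primeFactors hp, Nat.dvd_of_mem_primeFactors hp⟩
  have hone : ∀ p ∈ P.primeFactors, 1 + g p = (1 - s.nu p)⁻¹ := by
    intro p hp
    obtain ⟨h1, h2⟩ := hprime p hp
    have h3 := s.nu_lt_one_of_prime p h1 h2
    have h4 : 1 - s.nu p ≠ 0 := by linarith
    rw [hg, selbergTerms_prime h1]
    field_simp
    ring
  have htot : ∑ l ∈ P.divisors, g l = ∏ p ∈ P.primeFactors, (1 - s.nu p)⁻¹ := by
    rw [← IsMultiplicative.prodPrimeFactors_one_add_of_squarefree
      BoundingSieve.selbergTerms_isMultiplicative hsq]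
    exact prod_congr rfl hone
  set ε : ℝ := 1 / Real.log y with hε
  have hε0 : 0 < ε := by positivity
  set F : ArithmeticFunction ℝ := ArithmeticFunction.prodPrimeFactors
    (fun p => g p * (p : ℝ) ^ ε) with hF
  have hFmult : F.IsMultiplicative := IsMultiplicative.prodPrimeFactors _
  have hFl : ∀ l ∈ P.divisors, F l = g l * (l : ℝ) ^ ε := by
    intro l hl
    have hlP := Nat.dvd_of_mem_divisors hl
    have hlsq : Squarefree l := hsq.squarefree_of_dvd hlP
    rw [hF, prodPrimeFactors_apply hlsq.ne_zero, prod_mul_distrib]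
    congr 1
    · rw [← BoundingSieve.selbergTerms_isMultiplicative.map_prod_of_subset_primeFactors _ _
        subset_rfl, Nat.prod_primeFactors_of_squarefree hlsq]
    · rw [Real.finsetProd_rpow _ _ (fun p _ => by positivity), ← Nat.cast_prod,
        Nat.prod_primeFactors_of_squarefree hlsq]
  have hFp : ∀ p ∈ P.primeFactors, F p = g p * (p : ℝ) ^ ε := by
    intro p hp
    exact hFl p (Nat.mem_divisors.mpr ⟨(hprime p hp).2, hP0⟩)
  have hFsum : ∑ l ∈ P.divisors, g l * (l : ℝ) ^ ε =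
      ∏ p ∈ P.primeFactors, (1 + g p * (p : ℝ) ^ ε) := by
    rw [← sum_congr rfl hFl, ← IsMultiplicative.prodPrimeFactors_one_add_of_squarefree hFmult hsq]
    exact prod_congr rfl fun p hp => by rw [hFp p hp]
  have hgpos : ∀ l ∈ P.divisors, 0 < g l := fun l hl =>
    BoundingSieve.selbergTerms_pos (Nat.dvd_of_mem_divisors hl)
  -- the tail
  have htail : ∑ l ∈ P.divisors.filter (fun l : ℕ => ¬ (l : ℝ) ≤ R), g l ≤
      R ^ (-ε) * ∏ p ∈ P.primeFactors, (1 + g p * (p : ℝ) ^ ε) := by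
    rw [← hFsum, mul_sum]
    refine le_trans (sum_le_sum fun l hl => ?_)
      (sum_le_sum_of_subset_of_nonneg (filter_subset _ _) fun l hl _ => ?_)
    · rw [mem_filter, not_le] at hl
      have h1 := hgpos l hl.1
      have h2 : 1 ≤ R ^ (-ε) * (l : ℝ) ^ ε := by
        rw [Real.rpow_neg hR0.le, ← div_eq_inv_mul, one_le_div (by positivity)]
        exact Real.rpow_le_rpow hR0.le hl.2.le hε0.le
      calc g l = g l * 1 := (mul_one _).symm
        _ ≤ g l * (R ^ (-ε) * (l : ℝ) ^ ε) := by gcongr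
        _ = _ := by ring
    · have h1 := hgpos l hl
      positivity
  -- the ratio
  have hratio : ∏ p ∈ P.primeFactors, (1 + g p * (p : ℝ) ^ ε) ≤
      (∏ p ∈ P.primeFactors, (1 - s.nu p)⁻¹) * Real.exp (28 * κ * Real.log 4) := by
    have h1 : ∀ p ∈ P.primeFactors, 1 + g p * (p : ℝ) ^ ε ≤
        (1 - s.nu p)⁻¹ * Real.exp (2 * κ / Real.log y * (Real.log p / p)) := by
      intro p hp
      obtain ⟨hpp, hpP⟩ := hprime p hp
      have hp0 : (0 : ℝ) < p := by exact_mod_cast hpp.pos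
      have hp1 : (1 : ℝ) ≤ p := by exact_mod_cast hpp.one_le
      have h3 := s.nu_lt_one_of_prime p hpp hpP
      have h3' := s.nu_pos_of_prime p hpp hpP
      have h4 : 1 - s.nu p ≠ 0 := by linarith
      have h4' : 0 < 1 - s.nu p := by linarith
      have e : 1 + g p * (p : ℝ) ^ ε =
          (1 - s.nu p)⁻¹ * (s.nu p * ((p : ℝ) ^ ε - 1) + 1) := by
        rw [hg, selbergTerms_prime hpp]
        field_simp
        ring
      rw [e]
      refine mul_le_mul_of_nonneg_left ?_ (inv_nonneg.mpr h4'.le)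
      refine (Real.add_one_le_exp _).trans (Real.exp_le_exp.mpr ?_)
      have hlogp : 0 ≤ Real.log p := Real.log_nonneg hp1
      have hlogpy : Real.log p ≤ Real.log y := Real.log_le_log hp0 (hP p hpp hpP)
      have h5 : (p : ℝ) ^ ε - 1 ≤ 2 * (Real.log p * ε) := by
        rw [Real.rpow_def_of_pos hp0]
        have h6 : 0 ≤ Real.log p * ε := by positivity
        have h7 : Real.log p * ε ≤ 1 := by
          rw [hε, mul_one_div, div_le_one hlogy]
          exact hlogpy
        have h8 := Real.abs_exp_sub_one_le (x := Real.log p * ε) (by rw [abs_of_nonneg h6]; exact h7)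
        rw [abs_of_nonneg h6] at h8
        exact (le_abs_self _).trans h8
      have h9 : 0 ≤ (p : ℝ) ^ ε - 1 := by
        have := Real.one_le_rpow hp1 hε0.le
        linarith
      calc s.nu p * ((p : ℝ) ^ ε - 1) ≤ (κ / p) * (2 * (Real.log p * ε)) :=
            mul_le_mul (hnu p hpp hpP) h5 h9 (by positivity)
        _ = _ := by rw [hε]; field_simp
    calc ∏ p ∈ P.primeFactors, (1 + g p * (p : ℝ) ^ ε)
        ≤ ∏ p ∈ P.primeFactors,
          ((1 - s.nu p)⁻¹ * Real.exp (2 * κ / Real.log y * (Real.log p / p))) := by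
          refine prod_le_prod (fun p hp => ?_) h1
          have := hgpos p (Nat.mem_divisors.mpr ⟨(hprime p hp).2, hP0⟩)
          positivity
      _ = (∏ p ∈ P.primeFactors, (1 - s.nu p)⁻¹) *
          Real.exp (2 * κ / Real.log y * ∑ p ∈ P.primeFactors, Real.log p / p) := by
          rw [prod_mul_distrib, mul_sum, Real.exp_sum]
      _ ≤ _ := by
          have h2 := sum_log_div_le P.primeFactors (fun p hp => (hprime p hp).1) hy
            (fun p hp => hP p (hprime p hp).1 (hprime p hp).2)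
          have h3 : 2 * κ / Real.log y * ∑ p ∈ P.primeFactors, Real.log p / p ≤
              28 * κ * Real.log 4 := by
            calc 2 * κ / Real.log y * ∑ p ∈ P.primeFactors, Real.log p / p
                ≤ 2 * κ / Real.log y * (14 * Real.log 4 * Real.log y) := by gcongr
              _ = _ := by field_simp; ring
          have h4 : 0 ≤ ∏ p ∈ P.primeFactors, (1 - s.nu p)⁻¹ := by
            refine prod_nonneg fun p hp => inv_nonneg.mpr ?_
            have := s.nu_lt_one_of_prime p (hprime p hp).1 (hprime p hp).2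
            linarith
          gcongr
  set W : ℝ := ∏ p ∈ P.primeFactors, (1 - s.nu p)⁻¹ with hW
  have hW0 : 0 ≤ W := by
    refine prod_nonneg fun p hp => inv_nonneg.mpr ?_
    have := s.nu_lt_one_of_prime p (hprime p hp).1 (hprime p hp).2
    linarith
  have hhalf : R ^ (-ε) * Real.exp (28 * κ * Real.log 4) ≤ 1 / 2 := by
    rw [Real.rpow_def_of_pos hR0, ← Real.exp_add]
    have h1 : Real.log 2 + 28 * κ * Real.log 4 ≤ Real.log R * ε := by
      rw [hε, mul_one_div, le_div_iff₀ hlogy]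
      exact hRy
    calc Real.exp (Real.log R * -ε + 28 * κ * Real.log 4) ≤ Real.exp (-Real.log 2) := by
          apply Real.exp_le_exp.mpr
          linarith
      _ = 1 / 2 := by
          rw [Real.exp_neg, Real.exp_log (by norm_num), one_div]
  have hsplit := sum_filter_add_sum_filter_not P.divisors (fun l : ℕ => (l : ℝ) ≤ R) (fun l => g l)
  rw [htot] at hsplit
  have hSdef : selS s R = ∑ l ∈ P.divisors.filter (fun l : ℕ => (l : ℝ) ≤ R), g l := rfl
  rw [← hSdef] at hsplit
  have hfin : ∑ l ∈ P.divisors.filter (fun l : ℕ => ¬ (l : ℝ) ≤ R), g l ≤ 1 / 2 * W := by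
    calc ∑ l ∈ P.divisors.filter (fun l : ℕ => ¬ (l : ℝ) ≤ R), g l
        ≤ R ^ (-ε) * (W * Real.exp (28 * κ * Real.log 4)) :=
          htail.trans (mul_le_mul_of_nonneg_left hratio (by positivity))
      _ = (R ^ (-ε) * Real.exp (28 * κ * Real.log 4)) * W := by ring
      _ ≤ 1 / 2 * W := mul_le_mul_of_nonneg_right hhalf hW0
  linarith

/-- Trivial upper bound for the Selberg sum. -/
theorem selS_le {R : ℝ} (hR : 1 ≤ R)
    (hnu : ∀ p : ℕ, p.Prime → p ∣ s.prodPrimes → (1 - s.nu p)⁻¹ ≤ p) :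
    selS s R ≤ R ^ 2 := by
  unfold selS
  have h1 : ∀ l ∈ lvl s R, s.selbergTerms l ≤ R := by
    intro l hl
    obtain ⟨hlP, hlR⟩ := mem_lvl.mp hl
    have hsq := BoundingSieve.squarefree_of_dvd_prodPrimes hlP
    have hnu1 : s.nu l ≤ 1 := by
      by_cases h : l = 1
      · rw [h, s.nu_mult.map_one]
      · exact (BoundingSieve.nu_lt_one_of_dvd_prodPrimes hlP h).le
    have h0 := BoundingSieve.nu_pos_of_dvd_prodPrimes hlP
    rw [BoundingSieve.selbergTerms_apply]
    have h2 : ∏ p ∈ l.primeFactors, (1 - s.nu p)⁻¹ ≤ l := by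
      calc ∏ p ∈ l.primeFactors, (1 - s.nu p)⁻¹ ≤ ∏ p ∈ l.primeFactors, (p : ℝ) := by
            refine prod_le_prod (fun p hp => ?_) (fun p hp => ?_)
            · have := s.nu_lt_one_of_prime p (Nat.prime_of_mem_primeFactors hp)
                ((Nat.dvd_of_mem_primeFactors hp).trans hlP)
              exact inv_nonneg.mpr (by linarith)
            · exact hnu p (Nat.prime_of_mem_primeFactors hp)
                ((Nat.dvd_of_mem_primeFactors hp).trans hlP)
        _ = l := by
            rw [← Nat.cast_prod, Nat.prod_primeFactors_of_squarefree hsq]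
    have h3 : 0 ≤ ∏ p ∈ l.primeFactors, (1 - s.nu p)⁻¹ := by
      refine prod_nonneg fun p hp => ?_
      have := s.nu_lt_one_of_prime p (Nat.prime_of_mem_primeFactors hp)
        ((Nat.dvd_of_mem_primeFactors hp).trans hlP)
      exact inv_nonneg.mpr (by linarith)
    calc s.nu l * ∏ p ∈ l.primeFactors, (1 - s.nu p)⁻¹ ≤ 1 * l := by gcongr
      _ ≤ R := by rw [one_mul]; exact hlR
  refine (sum_le_sum h1).trans ?_
  rw [sum_const, nsmul_eq_mul, sq]
  exact mul_le_mul_of_nonneg_right (card_lvl_le hR) (by linarith)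

/-- The Selberg sieve in final form. -/
theorem selberg_final {κ y R : ℝ} (hκ : 0 ≤ κ) (hy : 2 ≤ y) (hR : 1 ≤ R)
    (hP : ∀ p : ℕ, p.Prime → p ∣ s.prodPrimes → (p : ℝ) ≤ y)
    (hnu : ∀ p : ℕ, p.Prime → p ∣ s.prodPrimes → s.nu p ≤ κ / p)
    (hRy : (Real.log 2 + 28 * κ * Real.log 4) * Real.log y ≤ Real.log R)
    (hrem : ∀ d : ℕ, d ∣ s.prodPrimes → |s.rem d| ≤ d)
    (hnu2 : ∀ p : ℕ, p.Prime → p ∣ s.prodPrimes → (1 - s.nu p)⁻¹ ≤ p)
    (hX : R ^ 12 ≤ s.totalMass) :
    s.siftedSum ≤ 4 * s.totalMass * ∏ p ∈ s.prodPrimes.primeFactors, (1 - s.nu p) ∧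
    R ^ 10 ≤ 2 * s.totalMass * ∏ p ∈ s.prodPrimes.primeFactors, (1 - s.nu p) := by
  have h1 := selberg_sieve (s := s) hR hrem hnu2
  have h2 := selS_lower (s := s) hκ hy hR hP hnu hRy
  have h3 := selS_le (s := s) hR hnu2
  have hS := one_le_selS (s := s) hR
  have hR0 : 0 < R := by linarith
  have hM0 : 0 < s.totalMass := lt_of_lt_of_le (by positivity) hX
  rw [prod_inv_distrib] at h2
  set W : ℝ := ∏ p ∈ s.prodPrimes.primeFactors, (1 - s.nu p) with hW
  have hW0 : 0 < W := by
    refine prod_pos fun p hp => ?_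
    have := s.nu_lt_one_of_prime p (Nat.prime_of_mem_primeFactors hp)
      (Nat.dvd_of_mem_primeFactors hp)
    linarith
  have h4 : s.totalMass / selS s R ≤ 2 * s.totalMass * W := by
    rw [div_le_iff₀ (by linarith)]
    have h5 : 1 ≤ 2 * W * selS s R := by
      have h6 : 1 / 2 * W⁻¹ * (2 * W) ≤ selS s R * (2 * W) :=
        mul_le_mul_of_nonneg_right h2 (by positivity)
      have h7 : 1 / 2 * W⁻¹ * (2 * W) = 1 := by field_simp
      linarith
    nlinarith
  have h5 : R ^ 10 ≤ s.totalMass / selS s R := by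
    rw [le_div_iff₀ (by linarith)]
    calc R ^ 10 * selS s R ≤ R ^ 10 * R ^ 2 := by gcongr
      _ = R ^ 12 := by ring
      _ ≤ _ := hX
  have h6 : R ^ 6 ≤ R ^ 10 := pow_le_pow_right₀ hR (by norm_num)
  constructor
  · linarith
  · linarith

end Pool.Agent.Lib.H59
end
end

-- from Lib.H59.PolySieve
section

/-!
# Sieving the values of an integer polynomial

-/

open Finset ArithmeticFunction Polynomial

noncomputable section

namespace Pool.Agent.Lib.H59

theorem dvd_eval_mod_iff (H : ℤ[X]) (d a : ℕ) :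
    (d : ℤ) ∣ H.eval ((a % d : ℕ) : ℤ) ↔ (d : ℤ) ∣ H.eval (a : ℤ) := by
  have h1 : (d : ℤ) ∣ (a : ℤ) - ((a % d : ℕ) : ℤ) := by
    rw [Int.natCast_mod]
    exact Int.dvd_self_sub_emod
  have h2 : (d : ℤ) ∣ H.eval (a : ℤ) - H.eval ((a % d : ℕ) : ℤ) :=
    h1.trans (Polynomial.sub_dvd_eval_sub _ _ _)
  constructor
  · intro h
    have := dvd_add h2 h
    simpa using this
  · intro h
    have := dvd_sub h h2
    simpa using this


theorem rootCount_one (H : ℤ[X]) : rootCount H 1 = 1 := by simp [rootCount]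

theorem rootCount_mul (H : ℤ[X]) {m n : ℕ} (hmn : m.Coprime n) :
    rootCount H (m * n) = rootCount H m * rootCount H n := by
  classical
  rcases Nat.eq_zero_or_pos m with rfl | hm
  · simp [rootCount]
  rcases Nat.eq_zero_or_pos n with rfl | hn
  · simp [rootCount]
  unfold rootCount
  rw [← card_product]
  refine card_bij (fun a _ => (a % m, a % n)) ?_ ?_ ?_
  · intro a ha
    rw [mem_filter] at ha
    rw [mem_product, mem_filter, mem_filter, mem_range, mem_range]
    refine ⟨⟨Nat.mod_lt _ hm, ?_⟩, Nat.mod_lt _ hn, ?_⟩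
    · rw [dvd_eval_mod_iff]
      exact (Int.natCast_dvd_natCast.mpr (dvd_mul_right m n)).trans ha.2
    · rw [dvd_eval_mod_iff]
      exact (Int.natCast_dvd_natCast.mpr (dvd_mul_left n m)).trans ha.2
  · intro a ha b hb hab
    rw [mem_filter, mem_range] at ha hb
    rw [Prod.mk.injEq] at hab
    have h : a ≡ b [MOD m * n] := (Nat.modEq_and_modEq_iff_modEq_mul hmn).mp hab
    have h' : a % (m * n) = b % (m * n) := h
    rwa [Nat.mod_eq_of_lt ha.1, Nat.mod_eq_of_lt hb.1] at h'
  · intro b hb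
    rw [mem_product, mem_filter, mem_filter, mem_range, mem_range] at hb
    obtain ⟨⟨hb1, hb2⟩, hb3, hb4⟩ := hb
    obtain ⟨c, hc1, hc2⟩ := Nat.chineseRemainder hmn b.1 b.2
    have e1 : c % (m * n) % m = b.1 := by
      rw [Nat.mod_mul_right_mod]
      have : c % m = b.1 % m := hc1
      rw [this, Nat.mod_eq_of_lt hb1]
    have e2 : c % (m * n) % n = b.2 := by
      rw [Nat.mod_mul_left_mod]
      have : c % n = b.2 % n := hc2
      rw [this, Nat.mod_eq_of_lt hb3]
    refine ⟨c % (m * n), ?_, by rw [e1, e2]⟩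
    rw [mem_filter, mem_range]
    refine ⟨Nat.mod_lt _ (Nat.mul_pos hm hn), ?_⟩
    have h1 : (m : ℤ) ∣ H.eval ((c % (m * n) : ℕ) : ℤ) := by
      rw [← dvd_eval_mod_iff, e1]
      exact hb2
    have h2 : (n : ℤ) ∣ H.eval ((c % (m * n) : ℕ) : ℤ) := by
      rw [← dvd_eval_mod_iff, e2]
      exact hb4
    rw [Nat.cast_mul]
    exact (Nat.isCoprime_iff_coprime.mpr hmn).mul_dvd h1 h2

theorem rootCount_le_self (H : ℤ[X]) (d : ℕ) : rootCount H d ≤ d := by
  unfold rootCount
  calc _ ≤ (range d).card := card_le_card (filter_subset _ _)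
    _ = d := card_range d

/-- The density function. -/
def nuPoly (H : ℤ[X]) : ArithmeticFunction ℝ :=
  ⟨fun d => (rootCount H d : ℝ) / d, by simp⟩

theorem nuPoly_apply (H : ℤ[X]) (d : ℕ) : nuPoly H d = (rootCount H d : ℝ) / d := rfl

theorem nuPoly_mult (H : ℤ[X]) : (nuPoly H).IsMultiplicative := by
  refine ⟨by simp [nuPoly_apply, rootCount_one], fun {m n} hmn => ?_⟩
  rw [nuPoly_apply, nuPoly_apply, nuPoly_apply, rootCount_mul H hmn]
  push_cast
  exact mul_div_mul_comm _ _ _ _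

theorem card_blocks (p : ℕ → Prop) [DecidablePred p] {a : ℕ} (hp : Function.Periodic p a)
    (n₀ q : ℕ) : ((Ico n₀ (n₀ + q * a)).filter p).card = q * Nat.count p a := by
  induction q with
  | zero => simp
  | succ q ih =>
    have h1 : Ico n₀ (n₀ + (q + 1) * a) =
        Ico n₀ (n₀ + q * a) ∪ Ico (n₀ + q * a) (n₀ + q * a + a) := by
      rw [Ico_union_Ico_eq_Ico (by omega) (by omega)]
      congr 1
      ring
    have h2 : Disjoint ((Ico n₀ (n₀ + q * a)).filter p)
        ((Ico (n₀ + q * a) (n₀ + q * a + a)).filter p) :=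
      disjoint_filter_filter (Ico_disjoint_Ico_consecutive _ _ _)
    rw [h1, filter_union, card_union_of_disjoint h2, ih, Nat.filter_Ico_card_eq_of_periodic _ _ _ hp]
    ring

theorem abs_card_sub_le (H : ℤ[X]) {d : ℕ} (hd : 0 < d) (X : ℕ) :
    |(((Icc 1 X).filter fun n : ℕ => (d : ℤ) ∣ H.eval (n : ℤ)).card : ℝ) -
      nuPoly H d * X| ≤ d := by
  classical
  set p : ℕ → Prop := fun n => (d : ℤ) ∣ H.eval (n : ℤ) with hp
  have hper : Function.Periodic p d := by
    intro n
    apply propext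
    change (d : ℤ) ∣ H.eval ((n + d : ℕ) : ℤ) ↔ (d : ℤ) ∣ H.eval (n : ℤ)
    rw [← dvd_eval_mod_iff H d (n + d), Nat.add_mod_right, dvd_eval_mod_iff]
  have hcount : Nat.count p d = rootCount H d := by
    rw [Nat.count_eq_card_filter_range]
    rfl
  have hIcc : Icc 1 X = Ico 1 (1 + X) := by
    ext n
    simp only [mem_Icc, mem_Ico]
    omega
  set q := X / d with hq
  have hlo : ((Ico 1 (1 + q * d)).filter p).card ≤ ((Icc 1 X).filter p).card := by
    rw [hIcc]
    refine card_le_card (filter_subset_filter _ (Ico_subset_Ico_right ?_))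
    have : q * d ≤ X := Nat.div_mul_le_self X d
    omega
  have hhi : ((Icc 1 X).filter p).card ≤ ((Ico 1 (1 + (q + 1) * d)).filter p).card := by
    rw [hIcc]
    refine card_le_card (filter_subset_filter _ (Ico_subset_Ico_right ?_))
    have h0 : X < d * (q + 1) := Nat.lt_mul_div_succ X hd
    rw [mul_comm] at h0
    omega
  rw [card_blocks p hper, hcount] at hlo hhi
  have hd' : (0 : ℝ) < d := by exact_mod_cast hd
  have hlo' : (q : ℝ) * rootCount H d ≤ ((Icc 1 X).filter p).card := by exact_mod_cast hlo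
  have hhi' : (((Icc 1 X).filter p).card : ℝ) ≤ (q + 1) * rootCount H d := by exact_mod_cast hhi
  have hq1 : (q : ℝ) * d ≤ X := by exact_mod_cast Nat.div_mul_le_self X d
  have hq2 : (X : ℝ) ≤ (q + 1) * d := by
    have := (Nat.lt_mul_div_succ X hd).le
    rw [mul_comm] at this
    exact_mod_cast this
  have hr : (rootCount H d : ℝ) ≤ d := by exact_mod_cast rootCount_le_self H d
  have hr0 : (0 : ℝ) ≤ rootCount H d := by positivity
  rw [nuPoly_apply]
  have h1 : (q : ℝ) * rootCount H d ≤ rootCount H d / d * X := by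
    rw [div_mul_eq_mul_div, le_div_iff₀ hd']
    nlinarith
  have h2 : (rootCount H d : ℝ) / d * X ≤ (q + 1) * rootCount H d := by
    rw [div_mul_eq_mul_div, div_le_iff₀ hd']
    nlinarith
  rw [abs_le]
  constructor <;> linarith

/-- The primes to be sieved out. -/
def sievePrimes (H : ℤ[X]) (Y : ℕ) : Finset ℕ :=
  (Nat.primesBelow Y).filter fun p => 0 < rootCount H p

theorem mem_sievePrimes {H : ℤ[X]} {Y p : ℕ} :
    p ∈ sievePrimes H Y ↔ (p < Y ∧ p.Prime) ∧ 0 < rootCount H p := by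
  unfold sievePrimes
  rw [mem_filter, Nat.mem_primesBelow]

theorem prime_dvd_prod_iff {T : Finset ℕ} (hT : ∀ p ∈ T, p.Prime) {p : ℕ} (hp : p.Prime) :
    p ∣ ∏ q ∈ T, q ↔ p ∈ T := by
  constructor
  · intro h
    obtain ⟨q, hq, hpq⟩ := (hp.prime.dvd_finsetProd_iff _).mp h
    rwa [(Nat.prime_dvd_prime_iff_eq hp (hT q hq)).mp hpq]
  · intro h
    exact dvd_prod_of_mem _ h

theorem squarefree_prod_primes {T : Finset ℕ} (hT : ∀ p ∈ T, p.Prime) :
    Squarefree (∏ q ∈ T, q) := by
  refine Finset.squarefree_prod_of_pairwise_isCoprime (fun a ha b hb hab => ?_)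
    fun p hp => (hT p hp).squarefree
  simp only [← Nat.coprime_iff_isRelPrime]
  exact (Nat.coprime_primes (hT a ha) (hT b hb)).mpr hab

theorem primeFactors_prod {T : Finset ℕ} (hT : ∀ p ∈ T, p.Prime) :
    (∏ q ∈ T, q).primeFactors = T := Nat.primeFactors_prod hT

/-- The sieve problem. -/
def polySieve (H : ℤ[X]) (Y X : ℕ) (hadm : ∀ p : ℕ, p.Prime → p < Y → rootCount H p < p) :
    BoundingSieve where
  support := (Icc 1 X).image fun n : ℕ => (H.eval (n : ℤ)).natAbs
  prodPrimes := ∏ p ∈ sievePrimes H Y, p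
  prodPrimes_squarefree := squarefree_prod_primes fun p hp => (mem_sievePrimes.mp hp).1.2
  weights m := (((Icc 1 X).filter fun n : ℕ => (H.eval (n : ℤ)).natAbs = m).card : ℝ)
  weights_nonneg _ := by positivity
  totalMass := X
  nu := nuPoly H
  nu_mult := nuPoly_mult H
  nu_pos_of_prime := by
    intro p hp hd
    rw [prime_dvd_prod_iff (fun p hp => (mem_sievePrimes.mp hp).1.2) hp, mem_sievePrimes] at hd
    rw [nuPoly_apply]
    have h1 : (0 : ℝ) < rootCount H p := by exact_mod_cast hd.2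
    have h2 : (0 : ℝ) < p := by exact_mod_cast hp.pos
    positivity
  nu_lt_one_of_prime := by
    intro p hp hd
    rw [prime_dvd_prod_iff (fun p hp => (mem_sievePrimes.mp hp).1.2) hp, mem_sievePrimes] at hd
    rw [nuPoly_apply]
    have h2 : (0 : ℝ) < p := by exact_mod_cast hp.pos
    rw [div_lt_one h2]
    exact_mod_cast hadm p hp hd.1.1

theorem multSum_polySieve (H : ℤ[X]) (Y X : ℕ)
    (hadm : ∀ p : ℕ, p.Prime → p < Y → rootCount H p < p) (d : ℕ) :
    (polySieve H Y X hadm).multSum d =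
      (((Icc 1 X).filter fun n : ℕ => (d : ℤ) ∣ H.eval (n : ℤ)).card : ℝ) := by
  classical
  rw [BoundingSieve.multSum]
  change ∑ m ∈ (Icc 1 X).image (fun n : ℕ => (H.eval (n : ℤ)).natAbs),
    (if d ∣ m then (((Icc 1 X).filter fun n : ℕ => (H.eval (n : ℤ)).natAbs = m).card : ℝ) else 0) = _
  have h := card_eq_sum_card_image (fun n : ℕ => (H.eval (n : ℤ)).natAbs)
    ((Icc 1 X).filter fun n : ℕ => (d : ℤ) ∣ H.eval (n : ℤ))
  rw [h]
  push_cast
  rw [← sum_filter]
  have himg : ((Icc 1 X).image (fun n : ℕ => (H.eval (n : ℤ)).natAbs)).filter (d ∣ ·) =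
      ((Icc 1 X).filter fun n : ℕ => (d : ℤ) ∣ H.eval (n : ℤ)).image
        (fun n : ℕ => (H.eval (n : ℤ)).natAbs) := by
    ext m
    simp only [mem_filter, mem_image]
    constructor
    · rintro ⟨⟨n, hn, rfl⟩, hd⟩
      exact ⟨n, ⟨hn, Int.natCast_dvd.mpr hd⟩, rfl⟩
    · rintro ⟨n, ⟨hn, hd⟩, rfl⟩
      exact ⟨⟨n, hn, rfl⟩, Int.natCast_dvd.mp hd⟩
  rw [himg]
  refine sum_congr rfl fun m hm => ?_
  congr 2
  ext n
  simp only [mem_filter]
  constructor
  · rintro ⟨hn, rfl⟩
    refine ⟨⟨hn, ?_⟩, rfl⟩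
    rw [mem_image] at hm
    obtain ⟨n', hn', he⟩ := hm
    rw [mem_filter] at hn'
    have := Int.natCast_dvd.mp hn'.2
    rw [he] at this
    exact Int.natCast_dvd.mpr this
  · rintro ⟨⟨hn, _⟩, rfl⟩
    exact ⟨hn, rfl⟩

theorem le_siftedSum_polySieve (H : ℤ[X]) (Y X : ℕ)
    (hadm : ∀ p : ℕ, p.Prime → p < Y → rootCount H p < p) :
    ((((Icc 1 X).filter fun n : ℕ => ∀ p ∈ Nat.primesBelow Y, ¬ (p : ℤ) ∣ H.eval (n : ℤ)).card) : ℝ)
      ≤ (polySieve H Y X hadm).siftedSum := by
  classical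
  rw [BoundingSieve.siftedSum]
  change _ ≤ ∑ m ∈ (Icc 1 X).image (fun n : ℕ => (H.eval (n : ℤ)).natAbs),
    (if Nat.Coprime (∏ p ∈ sievePrimes H Y, p) m then
      (((Icc 1 X).filter fun n : ℕ => (H.eval (n : ℤ)).natAbs = m).card : ℝ) else 0)
  set T := (Icc 1 X).filter fun n : ℕ => ∀ p ∈ Nat.primesBelow Y, ¬ (p : ℤ) ∣ H.eval (n : ℤ) with hT
  have h := card_eq_sum_card_image (fun n : ℕ => (H.eval (n : ℤ)).natAbs) T
  rw [h]
  push_cast
  have hsub : T.image (fun n : ℕ => (H.eval (n : ℤ)).natAbs) ⊆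
      (Icc 1 X).image (fun n : ℕ => (H.eval (n : ℤ)).natAbs) :=
    image_subset_image (filter_subset _ _)
  refine le_trans (sum_le_sum fun m hm => ?_)
    (sum_le_sum_of_subset_of_nonneg hsub fun m _ _ => ?_)
  · rw [mem_image] at hm
    obtain ⟨n, hn, rfl⟩ := hm
    rw [hT, mem_filter] at hn
    have hcop : Nat.Coprime (∏ p ∈ sievePrimes H Y, p) (H.eval (n : ℤ)).natAbs := by
      refine Nat.Coprime.prod_left fun p hp => ?_
      obtain ⟨⟨h1, h2⟩, _⟩ := mem_sievePrimes.mp hp
      rw [h2.coprime_iff_not_dvd]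
      intro hd
      exact hn.2 p (Nat.mem_primesBelow.mpr ⟨h1, h2⟩) (Int.natCast_dvd.mpr hd)
    rw [if_pos hcop]
    have : (T.filter fun n' : ℕ => (H.eval (n' : ℤ)).natAbs = (H.eval (n : ℤ)).natAbs).card ≤
      ((Icc 1 X).filter fun n' : ℕ => (H.eval (n' : ℤ)).natAbs = (H.eval (n : ℤ)).natAbs).card :=
      card_le_card (filter_subset_filter _ (filter_subset _ _))
    exact_mod_cast this
  · split_ifs <;> positivity

/-- The upper bound sieve for polynomial values. -/
theorem poly_sieve (H : ℤ[X]) {κ Y X : ℕ} {R : ℝ}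
    (hκ : ∀ p : ℕ, p.Prime → p < Y → rootCount H p ≤ κ)
    (hadm : ∀ p : ℕ, p.Prime → p < Y → rootCount H p < p)
    (hY : 2 ≤ Y) (hR : 1 ≤ R)
    (hRY : (Real.log 2 + 28 * κ * Real.log 4) * Real.log Y ≤ Real.log R) (hX : R ^ 12 ≤ X) :
    ((((Icc 1 X).filter fun n : ℕ => ∀ p ∈ Nat.primesBelow Y, ¬ (p : ℤ) ∣ H.eval (n : ℤ)).card) : ℝ)
      ≤ 4 * X * ∏ p ∈ Nat.primesBelow Y, (1 - (rootCount H p : ℝ) / p) ∧
    R ^ 10 ≤ 2 * X * ∏ p ∈ Nat.primesBelow Y, (1 - (rootCount H p : ℝ) / p) := by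
  classical
  set s := polySieve H Y X hadm with hs
  have hTprime : ∀ p ∈ sievePrimes H Y, p.Prime := fun p hp => (mem_sievePrimes.mp hp).1.2
  have hPd : ∀ p : ℕ, p.Prime → p ∣ s.prodPrimes → p ∈ sievePrimes H Y := by
    intro p hp hd
    exact (prime_dvd_prod_iff hTprime hp).mp hd
  have hfin := selberg_final (s := s) (κ := κ) (y := Y) (R := R) (by positivity)
    (by exact_mod_cast hY) hR
    (fun p hp hd => by
      have := (mem_sievePrimes.mp (hPd p hp hd)).1.1
      exact_mod_cast this.le)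
    (fun p hp hd => by
      have h1 := (mem_sievePrimes.mp (hPd p hp hd)).1.1
      change (rootCount H p : ℝ) / p ≤ κ / p
      have h2 : (rootCount H p : ℝ) ≤ κ := by exact_mod_cast hκ p hp h1
      gcongr)
    hRY
    (fun d hd => by
      have hd0 : 0 < d := Nat.pos_of_ne_zero
        (ne_zero_of_dvd_ne_zero s.prodPrimes_squarefree.ne_zero hd)
      rw [BoundingSieve.rem, hs, multSum_polySieve]
      exact abs_card_sub_le H hd0 X)
    (fun p hp hd => by
      have h1 := (mem_sievePrimes.mp (hPd p hp hd)).1.1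
      have h2 := hadm p hp h1
      have hp0 : (0 : ℝ) < p := by exact_mod_cast hp.pos
      change (1 - (rootCount H p : ℝ) / p)⁻¹ ≤ p
      have h3 : (rootCount H p : ℝ) + 1 ≤ p := by exact_mod_cast h2
      have h4 : (1 : ℝ) / p ≤ 1 - (rootCount H p : ℝ) / p := by
        rw [le_sub_iff_add_le, ← add_div, div_le_one hp0]
        linarith
      calc (1 - (rootCount H p : ℝ) / p)⁻¹ ≤ (1 / (p : ℝ))⁻¹ := by gcongr
        _ = p := by rw [one_div, inv_inv])
    hX
  have hprod : ∏ p ∈ s.prodPrimes.primeFactors, (1 - s.nu p) =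
      ∏ p ∈ Nat.primesBelow Y, (1 - (rootCount H p : ℝ) / p) := by
    have e1 : s.prodPrimes.primeFactors = sievePrimes H Y := primeFactors_prod hTprime
    rw [e1]
    change ∏ p ∈ (Nat.primesBelow Y).filter (fun p => 0 < rootCount H p),
      (1 - (rootCount H p : ℝ) / p) = _
    refine prod_subset (filter_subset _ _) fun p hp hnp => ?_
    have : rootCount H p = 0 := by
      by_contra h
      exact hnp (mem_filter.mpr ⟨hp, Nat.pos_of_ne_zero h⟩)
    rw [this]
    simp
  rw [hprod] at hfin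
  exact ⟨(le_siftedSum_polySieve H Y X hadm).trans hfin.1, hfin.2⟩

end Pool.Agent.Lib.H59
end
end

-- from Lib.H33B.Defs
section

/-!
# Project H33B (MP_0bf1d2_nt): definitions

See `PROOF.md` in this folder.
-/

open Finset Polynomial Filter Topology

namespace Pool.Agent.Lib.H33B

open Pool.Agent.Lib.H59 (argSet argCount Admissible primeCount omegaN seriesTrunc rootCount)
open Pool.Agent.Lib.H68T (lp e cq Lk dQ Reg Good)

noncomputable section

/-! ## The engine -/

/-- `∏_{p < w} p`. -/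
def PW (w : ℕ) : ℕ := ∏ p ∈ Nat.primesBelow w, p

/-- The periodic model: `(q/φ(q)) 1[(m,q) = 1]`. -/
def Lq (q : ℕ) (m : ℤ) : ℝ :=
  if IsCoprime m (q : ℤ) then (q : ℝ) / (Nat.totient q : ℝ) else 0

/-- The local model of the primes at level `w`. -/
def Lw (w : ℕ) (m : ℤ) : ℝ := Lq (PW w) m

/-- `X / log^g X` with `X = argCount G Y`. -/
def dens (G : ℤ[X]) (g Y : ℕ) : ℝ := (argCount G Y : ℝ) / (Real.log (argCount G Y)) ^ g

/-- Sieve-type weights on `[1, X]` of total mass at most `S`: bounded by a power of `log Y`, with the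
upper bound `D^(ω(q)) S/q` in all residue classes to squarefree moduli `q ≤ (log Y)^K`, and `S` not much
smaller than `X`. -/
structure SieveWt (D : ℕ) (C K : ℝ) (Y X : ℕ) (S : ℝ) (f : ℕ → ℝ) : Prop where
  nonneg : ∀ n ∈ Icc 1 X, 0 ≤ f n
  le : ∀ n ∈ Icc 1 X, f n ≤ (Real.log Y) ^ C
  cls : ∀ q b : ℕ, Squarefree q → (q : ℝ) ≤ (Real.log Y) ^ K →
    ∑ n ∈ (Icc 1 X).filter (fun n => n ≡ b [MOD q]), f n ≤
      (D : ℝ) ^ q.primeFactors.card * S / q
  large : (X : ℝ) ≤ S * (Real.log Y) ^ C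

/-- Correlation of a function supported in `[1, M]`. -/
def cor (u : ℤ → ℝ) (M : ℕ) (d : ℤ) : ℝ := ∑ m ∈ Icc (1 : ℤ) M, u m * u (m + d)


/-! ## The systems `F` -/

/-- The hypotheses of the problem on `F_1, …, F_g`. -/
structure Sys {g : ℕ} (F : Fin g → ℤ[X]) : Prop where
  pos : 1 ≤ g
  irr : ∀ i, Irreducible (F i)
  deg : ∀ i, 1 ≤ (F i).natDegree
  lead : ∀ i, 0 < (F i).leadingCoeff
  inj : Function.Injective F

/-- `F_1 ⋯ F_g` has no fixed prime divisor. -/
def NoFix {g : ℕ} (F : Fin g → ℤ[X]) : Prop :=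
  ∀ p : ℕ, p.Prime → ∃ n : ℤ, ¬ (p : ℤ) ∣ (∏ i, F i).eval n








/-- `𝔖(N)`: the product over all primes in increasing order. -/
def SS {g : ℕ} (F : Fin g → ℤ[X]) (G : ℤ[X]) (N : ℕ) : ℝ := limUnder atTop (seriesTrunc F G N)





end

end Pool.Agent.Lib.H33B
end

-- from Lib.H59.SchinzelCount
section

/-!
# Counting the arguments in the quantitative Goldbach-type hypothesis of Schinzel

-/

open Finset Polynomial Filter Topology

noncomputable section

namespace Pool.Agent.Lib.H59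

theorem eval_map_real (G : ℤ[X]) (n : ℕ) :
    (G.map (Int.castRingHom ℝ)).eval (n : ℝ) = ((G.eval (n : ℤ) : ℤ) : ℝ) := by
  simp

theorem exists_strictMono {G : ℤ[X]} (hn : 1 ≤ G.natDegree) (hl : 0 < G.leadingCoeff) :
    ∃ n₁ : ℕ, ∀ a b : ℕ, n₁ ≤ a → a < b → G.eval (a : ℤ) < G.eval (b : ℤ) := by
  set P : ℝ[X] := G.map (Int.castRingHom ℝ) with hP
  have hinj : Function.Injective (Int.castRingHom ℝ) := RingHom.injective_int _
  have hdeg : P.natDegree = G.natDegree := natDegree_map_eq_of_injective hinj _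
  have hlc : P.leadingCoeff = (G.leadingCoeff : ℝ) := by
    rw [hP, leadingCoeff_map_of_injective hinj]
    simp
  have hlc0 : 0 < P.leadingCoeff := by rw [hlc]; exact_mod_cast hl
  -- the derivative is eventually positive
  have hder : ∀ᶠ x in atTop, 0 < P.derivative.eval x := by
    have hdd : P.derivative.natDegree = P.natDegree - 1 := natDegree_derivative P
    have hdl : P.derivative.leadingCoeff = P.leadingCoeff * P.natDegree := by
      rw [leadingCoeff, hdd, coeff_derivative]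
      have : P.natDegree - 1 + 1 = P.natDegree := by omega
      rw [this]
      have h2 : ((P.natDegree - 1 : ℕ) : ℝ) + 1 = P.natDegree := by
        exact_mod_cast congrArg (fun k : ℕ => (k : ℝ)) this
      rw [h2]
      rfl
    have hdl0 : 0 < P.derivative.leadingCoeff := by
      rw [hdl]
      have : (0 : ℝ) < P.natDegree := by exact_mod_cast (by omega : 0 < P.natDegree)
      positivity
    rcases Nat.eq_zero_or_pos P.derivative.natDegree with h0 | h0
    · have h1 : P.derivative = C (P.derivative.coeff 0) := eq_C_of_natDegree_eq_zero h0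
      have h2 : P.derivative.leadingCoeff = P.derivative.coeff 0 := by rw [leadingCoeff, h0]
      refine Eventually.of_forall fun x => ?_
      rw [h1, eval_C, ← h2]
      exact hdl0
    · have h1 : Tendsto (fun x => P.derivative.eval x) atTop atTop :=
        tendsto_atTop_of_leadingCoeff_nonneg _ (natDegree_pos_iff_degree_pos.mp h0) hdl0.le
      exact h1.eventually_gt_atTop 0
  obtain ⟨x₁, hx₁⟩ := eventually_atTop.mp hder
  have hmono : StrictMonoOn (fun x => P.eval x) (Set.Ici x₁) := by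
    refine strictMonoOn_of_deriv_pos (convex_Ici x₁) P.continuous.continuousOn fun x hx => ?_
    rw [interior_Ici] at hx
    rw [Polynomial.deriv]
    exact hx₁ x (le_of_lt hx)
  refine ⟨⌈x₁⌉₊, fun a b ha hab => ?_⟩
  have ha' : x₁ ≤ a := (Nat.le_ceil x₁).trans (by exact_mod_cast ha)
  have hab' : (a : ℝ) < b := by exact_mod_cast hab
  have h := hmono (Set.mem_Ici.mpr ha') (Set.mem_Ici.mpr (ha'.trans hab'.le)) hab'
  simp only [hP, eval_map_real] at h
  exact_mod_cast h

/-- For large `N` the arguments form an initial segment. -/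
theorem argSet_eq {G : ℤ[X]} (hn : 1 ≤ G.natDegree) (hl : 0 < G.leadingCoeff) :
    ∀ᶠ N : ℕ in atTop, argSet G N = ↑(Finset.Icc 1 (argCount G N)) := by
  classical
  obtain ⟨n₁, hn₁⟩ := exists_strictMono hn hl
  -- a bound for the initial values
  set M : ℕ := (Finset.range (n₁ + 1)).sup (fun a => (G.eval (a : ℤ)).natAbs) with hM
  have hMb : ∀ a ≤ n₁, G.eval (a : ℤ) ≤ M := by
    intro a ha
    have h1 : (G.eval (a : ℤ)).natAbs ≤ M :=
      Finset.le_sup (f := fun a : ℕ => (G.eval (a : ℤ)).natAbs) (Finset.mem_range.mpr (by omega))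
    omega
  filter_upwards [eventually_gt_atTop M] with N hN
  -- growth
  have hgrow : ∀ k : ℕ, G.eval (n₁ : ℤ) + k ≤ G.eval ((n₁ + k : ℕ) : ℤ) := by
    intro k
    induction k with
    | zero => simp
    | succ k ih =>
      have := hn₁ (n₁ + k) (n₁ + (k + 1)) (by omega) (by omega)
      push_cast at *
      omega
  -- finiteness
  have hfin : (argSet G N).Finite := by
    refine (Set.finite_Iic (n₁ + (N + M))).subset fun n hn' => ?_
    obtain ⟨_, h2⟩ := hn'
    rw [Set.mem_Iic]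
    by_contra hcon
    push Not at hcon
    obtain ⟨k, hk⟩ : ∃ k, n = n₁ + k := ⟨n - n₁, by omega⟩
    have h3 := hgrow k
    rw [← hk] at h3
    have h4 : -(M : ℤ) ≤ G.eval (n₁ : ℤ) := by
      have h1 : (G.eval (n₁ : ℤ)).natAbs ≤ M :=
        Finset.le_sup (f := fun a : ℕ => (G.eval (a : ℤ)).natAbs) (Finset.mem_range.mpr (by omega))
      omega
    omega
  -- downward closed
  have hdown : ∀ a b : ℕ, 0 < a → a < b → b ∈ argSet G N → a ∈ argSet G N := by
    intro a b ha hab hb
    refine ⟨ha, ?_⟩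
    rcases le_or_gt a n₁ with h | h
    · have := hMb a h
      omega
    · have := hn₁ a b h.le hab
      have := hb.2
      omega
  -- conclusion
  set T := hfin.toFinset with hT
  have hTmem : ∀ n, n ∈ T ↔ n ∈ argSet G N := fun n => by simp [hT]
  have hcard : argCount G N = T.card := Set.ncard_eq_toFinset_card _ hfin
  have hTeq : T = Finset.Icc 1 T.card := by
    by_cases hemp : T = ∅
    · rw [hemp]; simp
    · have hne : T.Nonempty := Finset.nonempty_iff_ne_empty.mpr hemp
      set m := T.max' hne with hm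
      have hmT : m ∈ T := T.max'_mem hne
      have h1 : T = Finset.Icc 1 m := by
        ext a
        rw [Finset.mem_Icc]
        constructor
        · intro ha
          exact ⟨((hTmem a).mp ha).1, T.le_max' a ha⟩
        · rintro ⟨ha1, ha2⟩
          rcases ha2.lt_or_eq with h | h
          · exact (hTmem a).mpr (hdown a m ha1 h ((hTmem m).mp hmT))
          · rw [h]; exact hmT
      have h2 : T.card = m := by rw [h1, Nat.card_Icc]; omega
      rw [h2]
      exact h1
  rw [hcard, ← hTeq]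
  ext n
  rw [Finset.mem_coe, hTmem]

theorem argCount_tendsto {G : ℤ[X]} (hn : 1 ≤ G.natDegree) (hl : 0 < G.leadingCoeff) :
    Tendsto (argCount G) atTop atTop := by
  rw [tendsto_atTop]
  intro m
  have h1 := argSet_eq hn hl
  filter_upwards [h1, eventually_gt_atTop ((G.eval (m : ℤ)).natAbs)] with N hN hNm
  rcases Nat.eq_zero_or_pos m with rfl | hm
  · exact Nat.zero_le _
  have : m ∈ argSet G N := ⟨hm, by omega⟩
  rw [hN, Finset.mem_coe, Finset.mem_Icc] at this
  exact this.2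


theorem natDegree_C_sub' (G : ℤ[X]) (N : ℕ) : (C (N : ℤ) - G).natDegree = G.natDegree := by
  rw [← natDegree_neg, neg_sub, natDegree_sub_C]



end Pool.Agent.Lib.H59
end
end

-- from Lib.H33B.AC
section

/-!
# Chunk AC: the size of `argCount`
-/

open Finset Polynomial Filter Topology

namespace Pool.Agent.Lib.H33B

open Pool.Agent.Lib.H59 (argSet argCount argSet_eq argCount_tendsto eval_map_real)

theorem AC_ratio (G : ℤ[X]) :
    Tendsto (fun n : ℕ => ((G.eval (n : ℤ) : ℤ) : ℝ) / (n : ℝ) ^ G.natDegree) atTop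
      (𝓝 (G.leadingCoeff : ℝ)) := by
  set P : ℝ[X] := G.map (Int.castRingHom ℝ) with hP
  have hinj : Function.Injective (Int.castRingHom ℝ) := RingHom.injective_int _
  have hdeg : P.natDegree = G.natDegree := natDegree_map_eq_of_injective hinj _
  have hlc : P.leadingCoeff = (G.leadingCoeff : ℝ) := by
    rw [hP, leadingCoeff_map_of_injective hinj]
    simp
  have h1 : Tendsto (fun x : ℝ => P.eval x / x ^ P.natDegree) atTop (𝓝 P.leadingCoeff) := by
    have h2 := P.div_tendsto_atTop_leadingCoeff_div_of_degree_eq (X ^ P.natDegree : ℝ[X])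
    by_cases hP0 : P = 0
    · rw [hP0]
      simp
    · have h3 : P.degree = (X ^ P.natDegree : ℝ[X]).degree := by
        rw [degree_X_pow, degree_eq_natDegree hP0]
      have h4 := h2 h3
      simpa using h4
  have h5 := h1.comp (tendsto_natCast_atTop_atTop (R := ℝ))
  rw [hlc] at h5
  refine h5.congr fun n => ?_
  simp only [Function.comp_apply]
  rw [hdeg, hP, eval_map_real]

/-- `X(Y)^k / Y → 1/a` for `k = deg G`, `a = lc G`: for large `Y` the set `argSet G Y` is `[1, X]`
(`H59.argSet_eq`), so `G(X) < Y ≤ G(X+1)`, and `G(n)/n^k → a`, `X(Y) → ∞` (`H59.argCount_tendsto`). -/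
theorem argCount_pow (G : ℤ[X]) (hk : 1 ≤ G.natDegree) (hl : 0 < G.leadingCoeff) :
    Tendsto (fun Y : ℕ => (argCount G Y : ℝ) ^ G.natDegree / Y) atTop
      (𝓝 ((G.leadingCoeff : ℝ)⁻¹)) := by
  have hl' : (0 : ℝ) < G.leadingCoeff := by exact_mod_cast hl
  have hX := argCount_tendsto hk hl
  have hr := AC_ratio G
  have h1 : Tendsto (fun Y : ℕ => (Y : ℝ) / (argCount G Y : ℝ) ^ G.natDegree) atTop
      (𝓝 (G.leadingCoeff : ℝ)) := by
    have hlow : Tendsto (fun Y : ℕ => ((G.eval (argCount G Y : ℤ) : ℤ) : ℝ) /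
        (argCount G Y : ℝ) ^ G.natDegree) atTop (𝓝 (G.leadingCoeff : ℝ)) := hr.comp hX
    have hup : Tendsto (fun Y : ℕ => ((G.eval ((argCount G Y + 1 : ℕ) : ℤ) : ℤ) : ℝ) /
        ((argCount G Y + 1 : ℕ) : ℝ) ^ G.natDegree *
          (1 + 1 / (argCount G Y : ℝ)) ^ G.natDegree) atTop (𝓝 (G.leadingCoeff : ℝ)) := by
      have h2 : Tendsto (fun Y : ℕ => argCount G Y + 1) atTop atTop :=
        (tendsto_add_atTop_nat 1).comp hX
      have h3 := hr.comp h2
      have h4 : Tendsto (fun Y : ℕ => (1 + 1 / (argCount G Y : ℝ)) ^ G.natDegree) atTop (𝓝 1) := by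
        have h5 : Tendsto (fun Y : ℕ => 1 / (argCount G Y : ℝ)) atTop (𝓝 0) :=
          (tendsto_one_div_atTop_nhds_zero_nat (𝕜 := ℝ)).comp hX
        have h6 := (h5.const_add 1).pow G.natDegree
        simpa using h6
      have h7 := h3.mul h4
      rw [mul_one] at h7
      exact h7
    refine tendsto_of_tendsto_of_tendsto_of_le_of_le' hlow hup ?_ ?_
    · filter_upwards [argSet_eq hk hl, hX.eventually_ge_atTop 1] with Y hY h1
      have h2 : argCount G Y ∈ argSet G Y := by
        rw [hY]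
        simp [h1]
      have h3 : G.eval (argCount G Y : ℤ) < Y := by
        have := h2.2
        omega
      have h4 : ((G.eval (argCount G Y : ℤ) : ℤ) : ℝ) ≤ Y := by exact_mod_cast h3.le
      exact div_le_div_of_nonneg_right h4 (by positivity)
    · filter_upwards [argSet_eq hk hl, hX.eventually_ge_atTop 1] with Y hY h1
      have h1' : (0 : ℝ) < argCount G Y := by exact_mod_cast h1
      have h2 : argCount G Y + 1 ∉ argSet G Y := by
        rw [hY]
        simp
      have h3 : (Y : ℤ) ≤ G.eval ((argCount G Y + 1 : ℕ) : ℤ) := by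
        by_contra h
        exact h2 ⟨by omega, by omega⟩
      have h4 : (Y : ℝ) ≤ ((G.eval ((argCount G Y + 1 : ℕ) : ℤ) : ℤ) : ℝ) := by exact_mod_cast h3
      have h5 : (1 + 1 / (argCount G Y : ℝ)) ^ G.natDegree =
          ((argCount G Y + 1 : ℕ) : ℝ) ^ G.natDegree / (argCount G Y : ℝ) ^ G.natDegree := by
        rw [← div_pow]
        congr 1
        push_cast
        field_simp
      rw [h5]
      have h6 : (0 : ℝ) < ((argCount G Y + 1 : ℕ) : ℝ) ^ G.natDegree := by positivity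
      calc (Y : ℝ) / (argCount G Y : ℝ) ^ G.natDegree ≤
            ((G.eval ((argCount G Y + 1 : ℕ) : ℤ) : ℤ) : ℝ) / (argCount G Y : ℝ) ^ G.natDegree :=
            div_le_div_of_nonneg_right h4 (by positivity)
        _ = _ := by
            rw [div_mul_div_comm, mul_comm (((argCount G Y + 1 : ℕ) : ℝ) ^ G.natDegree),
              mul_div_mul_right _ _ h6.ne']
  have h2 := h1.inv₀ hl'.ne'
  refine h2.congr fun Y => ?_
  rw [inv_div]


theorem AC_mono (G : ℤ[X]) (hk : 1 ≤ G.natDegree) (hl : 0 < G.leadingCoeff) : ∃ Y₀ : ℕ,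
    ∀ N Y : ℕ, Y₀ ≤ Y → N ≤ Y → argCount G N ≤ argCount G Y := by
  obtain ⟨Y₀, hY₀⟩ := eventually_atTop.1 (argSet_eq hk hl)
  refine ⟨Y₀, fun N Y hY hNY => ?_⟩
  unfold argCount
  refine Set.ncard_le_ncard ?_ ?_
  · intro n hn
    have h1 : 0 < n ∧ 0 < (N : ℤ) - G.eval (n : ℤ) := hn
    exact ⟨h1.1, by omega⟩
  · rw [hY₀ Y hY]
    exact Finset.finite_toSet _



end Pool.Agent.Lib.H33B
end

-- from Lib.H59.SchinzelUpper
section

/-!
# The upper bound in the quantitative Goldbach-type hypothesis of Schinzel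

-/

open Finset Polynomial Filter Topology

noncomputable section

namespace Pool.Agent.Lib.H59

theorem card_value_le {P : ℤ[X]} (hP : 1 ≤ P.natDegree) (q : ℤ) (X : ℕ) :
    ((Icc 1 X).filter fun n : ℕ => P.eval (n : ℤ) = q).card ≤ P.natDegree := by
  classical
  have hne : P - C q ≠ 0 := by
    intro h
    have h1 : P = C q := sub_eq_zero.mp h
    rw [h1, natDegree_C] at hP
    omega
  have h1 : ((Icc 1 X).filter fun n : ℕ => P.eval (n : ℤ) = q).card ≤
      (P - C q).roots.toFinset.card := by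
    refine card_le_card_of_injOn (fun n : ℕ => (n : ℤ)) (fun n hn => ?_)
      (fun a _ b _ hab => by simpa using hab)
    rw [mem_coe, mem_filter] at hn
    rw [mem_coe, Multiset.mem_toFinset, mem_roots hne, IsRoot.def, eval_sub, eval_C, hn.2, sub_self]
  refine h1.trans ((Multiset.toFinset_card_le _).trans ((card_roots' _).trans ?_))
  rw [natDegree_sub_C]

theorem rootCount_mul_le (P Q : ℤ[X]) {p : ℕ} (hp : p.Prime) :
    rootCount (P * Q) p ≤ rootCount P p + rootCount Q p := by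
  classical
  unfold rootCount
  refine le_trans (card_le_card ?_) (card_union_le _ _)
  intro a ha
  rw [mem_filter, eval_mul] at ha
  rw [mem_union, mem_filter, mem_filter]
  rcases (Nat.prime_iff_prime_int.mp hp).dvd_or_dvd ha.2 with h | h
  · exact Or.inl ⟨ha.1, h⟩
  · exact Or.inr ⟨ha.1, h⟩

theorem rootCount_prod_le {ι : Type*} (T : Finset ι) (F : ι → ℤ[X]) {p : ℕ} (hp : p.Prime) :
    rootCount (∏ i ∈ T, F i) p ≤ ∑ i ∈ T, rootCount (F i) p := by
  classical
  induction T using Finset.induction_on with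
  | empty =>
    rw [prod_empty, sum_empty, Nat.le_zero, rootCount, card_eq_zero, filter_eq_empty_iff]
    intro a _
    rw [eval_one]
    exact (Nat.prime_iff_prime_int.mp hp).not_dvd_one
  | insert i T hi ih =>
    rw [prod_insert hi, sum_insert hi]
    exact (rootCount_mul_le _ _ hp).trans (by omega)


theorem omegaN_eq {g : ℕ} (F : Fin g → ℤ[X]) (G : ℤ[X]) (N p : ℕ) :
    omegaN F G N p = rootCount ((∏ i, F i) * (C (N : ℤ) - G)) p := rfl

theorem omegaN_le_sum {g : ℕ} (F : Fin g → ℤ[X]) (G : ℤ[X]) (N : ℕ) {p : ℕ} (hp : p.Prime) :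
    omegaN F G N p ≤ ∑ i, rootCount (F i) p + rootCount (C (N : ℤ) - G) p := by
  rw [omegaN_eq]
  exact (rootCount_mul_le _ _ hp).trans (Nat.add_le_add_right (rootCount_prod_le _ _ hp) _)

theorem omegaN_lt {g : ℕ} {F : Fin g → ℤ[X]} {G : ℤ[X]} {N : ℕ} (hadm : Admissible F G N) {p : ℕ}
    (hp : p.Prime) : omegaN F G N p < p := by
  classical
  by_contra hcon
  push Not at hcon
  apply hadm.2 p hp
  intro n
  have h1 : ((Finset.range p).filter fun a : ℕ =>
      (p : ℤ) ∣ ((∏ i, F i) * (C (N : ℤ) - G)).eval (a : ℤ)) = Finset.range p := by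
    refine eq_of_subset_of_card_le (filter_subset _ _) ?_
    rw [card_range]
    exact hcon
  have hp0 : (0 : ℤ) < p := by exact_mod_cast hp.pos
  set a : ℕ := (n % p).toNat with ha
  have ha0 : 0 ≤ n % (p : ℤ) := Int.emod_nonneg _ hp0.ne'
  have ha1 : n % (p : ℤ) < p := Int.emod_lt_of_pos _ hp0
  have haa : (a : ℤ) = n % p := Int.toNat_of_nonneg ha0
  have hmem : a ∈ Finset.range p := by
    rw [Finset.mem_range]
    omega
  rw [← h1, mem_filter] at hmem
  have h2 : (p : ℤ) ∣ n - (a : ℤ) := by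
    rw [haa]
    exact Int.dvd_self_sub_emod
  have h3 := h2.trans (Polynomial.sub_dvd_eval_sub n (a : ℤ) ((∏ i, F i) * (C (N : ℤ) - G)))
  have := dvd_add h3 hmem.2
  simpa using this


end Pool.Agent.Lib.H59
end
end

-- from Lib.H33B.V1
section

/-!
# Chunk V1: correlations, elementary facts
-/

open Finset

namespace Pool.Agent.Lib.H33B

theorem V1_tsum (u : ℤ → ℝ) (M : ℕ) (hu : ∀ m, m ∉ Icc (1 : ℤ) M → u m = 0) (d : ℤ) :
    cor u M d = ∑' m : ℤ, u m * u (m + d) := by
  unfold cor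
  rw [tsum_eq_sum (s := Icc (1 : ℤ) M)]
  intro m hm
  rw [hu m hm, zero_mul]

theorem V1_sq_le (u : ℤ → ℝ) (M : ℕ) (hu : ∀ m, m ∉ Icc (1 : ℤ) M → u m = 0) (T : Finset ℤ) :
    ∑ m ∈ T, u m ^ 2 ≤ ∑ m ∈ Icc (1 : ℤ) M, u m ^ 2 := by
  have h1 : ∑ m ∈ T, u m ^ 2 = ∑ m ∈ T.filter (fun m => m ∈ Icc (1 : ℤ) M), u m ^ 2 := by
    rw [Finset.sum_filter]
    refine Finset.sum_congr rfl fun m _ => ?_
    split_ifs with h
    · rfl
    · rw [hu m h]
      norm_num
  rw [h1]
  refine Finset.sum_le_sum_of_subset_of_nonneg (fun m hm => (Finset.mem_filter.1 hm).2) ?_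
  intro m _ _
  exact sq_nonneg _

/-- `|∑ u(m) u(m+d)| ≤ ∑ u(m)^2` (Cauchy-Schwarz, or `2|xy| ≤ x² + y²`; `m + d` runs over a
translate of `[1,M]`, outside `[1,M]` the terms vanish). -/
theorem cor_le (u : ℤ → ℝ) (M : ℕ) (hu : ∀ m, m ∉ Icc (1 : ℤ) M → u m = 0) (d : ℤ) :
    |cor u M d| ≤ ∑ m ∈ Icc (1 : ℤ) M, u m ^ 2 := by
  unfold cor
  have h1 : ∑ m ∈ Icc (1 : ℤ) M, u (m + d) ^ 2 ≤ ∑ m ∈ Icc (1 : ℤ) M, u m ^ 2 := by
    have h2 := V1_sq_le u M hu ((Icc (1 : ℤ) M).image (fun m => m + d))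
    rwa [Finset.sum_image (fun a _ b _ h => by simpa using h)] at h2
  calc |∑ m ∈ Icc (1 : ℤ) M, u m * u (m + d)| ≤ ∑ m ∈ Icc (1 : ℤ) M, |u m * u (m + d)| :=
        Finset.abs_sum_le_sum_abs _ _
    _ ≤ ∑ m ∈ Icc (1 : ℤ) M, (u m ^ 2 + u (m + d) ^ 2) / 2 := by
        refine Finset.sum_le_sum fun m _ => ?_
        rw [abs_le]
        constructor
        · nlinarith [sq_nonneg (u m + u (m + d))]
        · nlinarith [sq_nonneg (u m - u (m + d))]
    _ = (∑ m ∈ Icc (1 : ℤ) M, u m ^ 2 + ∑ m ∈ Icc (1 : ℤ) M, u (m + d) ^ 2) / 2 := by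
        rw [← Finset.sum_add_distrib, Finset.sum_div]
    _ ≤ ∑ m ∈ Icc (1 : ℤ) M, u m ^ 2 := by linarith

/-- Substitution `m ↦ m - d`. -/
theorem cor_neg (u : ℤ → ℝ) (M : ℕ) (hu : ∀ m, m ∉ Icc (1 : ℤ) M → u m = 0) (d : ℤ) :
    cor u M (-d) = cor u M d := by
  rw [V1_tsum u M hu, V1_tsum u M hu, ← (Equiv.addRight d).tsum_eq]
  refine tsum_congr fun m => ?_
  simp only [Equiv.coe_addRight, add_neg_cancel_right]
  ring

/-- For `|d| ≥ M` all terms vanish. -/
theorem cor_eq_zero (u : ℤ → ℝ) (M : ℕ) (hu : ∀ m, m ∉ Icc (1 : ℤ) M → u m = 0) (d : ℤ)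
    (hd : (M : ℤ) ≤ |d|) : cor u M d = 0 := by
  unfold cor
  refine Finset.sum_eq_zero fun m hm => ?_
  rw [hu (m + d), mul_zero]
  rw [Finset.mem_Icc] at hm ⊢
  rintro ⟨h1, h2⟩
  rcases abs_cases d with ⟨h3, _⟩ | ⟨h3, _⟩ <;> omega



end Pool.Agent.Lib.H33B
end

-- from Lib.SZW.B1
section

/-!
# B1 (M): linear phases
-/

set_option autoImplicit false

namespace Pool.Agent.SZW

variable {ι : Type*} [Fintype ι] [DecidableEq ι]

/-- `Finset.prod_univ_sum` -/
theorem sm_aff (a c : ι → ℤ) (γ : ι → ℝ) (γ₀ : ℝ) :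
    sm a c (aff γ γ₀) = ee γ₀ * ∏ i, ∑ n ∈ Finset.Ico (a i) (c i), ee (n * γ i) := by
  unfold sm box
  rw [Finset.prod_univ_sum, Finset.mul_sum]
  apply Finset.sum_congr rfl
  intro x _
  unfold aff
  rw [ee_add, ee_sum, mul_comm]

/-- trivial bound for a box with sides at most `P` -/
theorem box_card {a c : ι → ℤ} {P : ℕ} (h : Side a c P) :
    (box a c).card ≤ P ^ Fintype.card ι := by
  unfold box
  rw [Fintype.card_piFinset]
  calc ∏ i, (Finset.Ico (a i) (c i)).card ≤ ∏ _i : ι, P := by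
        apply Finset.prod_le_prod'
        intro i _
        rw [Int.card_Ico]
        have := h i
        omega
    _ = P ^ Fintype.card ι := by rw [Finset.prod_const, Finset.card_univ]

theorem sm_le {a c : ι → ℤ} {P : ℕ} (h : Side a c P) (φ : (ι → ℤ) → ℝ) :
    ‖sm a c φ‖ ≤ (P : ℝ) ^ Fintype.card ι := by
  unfold sm
  refine (norm_sum_le _ _).trans ?_
  have h1 : ∀ x ∈ box a c, ‖ee (φ x)‖ = 1 := fun x _ => norm_ee _
  rw [Finset.sum_congr rfl h1, Finset.sum_const, nsmul_eq_mul, mul_one]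
  exact_mod_cast box_card h

/-- The modulus of the sum is the product of the moduli of the one-dimensional sums; all of them are
at most `P`, so each of them is at least `δ P`; use `geom_bound`. -/
theorem lin_inv {a c : ι → ℤ} {P : ℕ} (hP : 1 ≤ P) (h : Side a c P) {γ : ι → ℝ} {γ₀ δ : ℝ}
    (hδ : 0 < δ) (hs : δ * (P : ℝ) ^ Fintype.card ι ≤ ‖sm a c (aff γ γ₀)‖) (j : ι) :
    nn (γ j) ≤ 1 / (2 * δ * P) := by
  have hP0 : (0 : ℝ) < P := by exact_mod_cast hP
  rw [sm_aff, norm_mul, norm_ee, one_mul, norm_prod, ← Finset.mul_prod_erase _ _ (Finset.mem_univ j)] at hs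
  set S : ℝ := ‖∑ n ∈ Finset.Ico (a j) (c j), ee (n * γ j)‖ with hS
  have h1 : ∏ i ∈ Finset.univ.erase j, ‖∑ n ∈ Finset.Ico (a i) (c i), ee (n * γ i)‖ ≤
      (P : ℝ) ^ (Fintype.card ι - 1) := by
    calc ∏ i ∈ Finset.univ.erase j, ‖∑ n ∈ Finset.Ico (a i) (c i), ee (n * γ i)‖ ≤
          ∏ _i ∈ Finset.univ.erase j, (P : ℝ) := by
          apply Finset.prod_le_prod
          · intro i _
            exact norm_nonneg _
          · intro i _
            exact geom_le _ _ _ _ (h i)
      _ = (P : ℝ) ^ (Fintype.card ι - 1) := by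
          rw [Finset.prod_const, Finset.card_erase_of_mem (Finset.mem_univ j), Finset.card_univ]
  have h2 : δ * (P : ℝ) ^ Fintype.card ι ≤ S * (P : ℝ) ^ (Fintype.card ι - 1) :=
    hs.trans (mul_le_mul_of_nonneg_left h1 (norm_nonneg _))
  have hd : 1 ≤ Fintype.card ι := Fintype.card_pos_iff.mpr ⟨j⟩
  have h3 : (P : ℝ) ^ Fintype.card ι = P * (P : ℝ) ^ (Fintype.card ι - 1) := by
    rw [← pow_succ']
    congr 1
    omega
  rw [h3, ← mul_assoc] at h2
  have h4 : δ * P ≤ S := le_of_mul_le_mul_right h2 (by positivity)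
  have h5 := geom_bound (a j) (c j) (γ j)
  have h6 : δ * P * (2 * nn (γ j)) ≤ 1 :=
    (mul_le_mul_of_nonneg_right h4 (by have := nn_nonneg (γ j); positivity)).trans h5
  rw [le_div_iff₀ (by positivity)]
  linarith

end Pool.Agent.SZW
end

-- from Lib.SZW.B2
section

/-!
# B2 (M): Weyl differencing on a box
-/

set_option autoImplicit false

namespace Pool.Agent.SZW

variable {ι : Type*} [Fintype ι] [DecidableEq ι]

/-- the intersection of a box and its translate -/
theorem box_inter (a c h : ι → ℤ) :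
    ((box a c).filter fun x => x + h ∈ box a c) =
      box (fun i => max (a i) (a i - h i)) (fun i => min (c i) (c i - h i)) := by
  ext x
  unfold box
  simp only [Finset.mem_filter, Fintype.mem_piFinset, Finset.mem_Ico, Pi.add_apply]
  constructor
  · rintro ⟨h1, h2⟩ i
    have := h1 i
    have := h2 i
    constructor
    · rw [max_le_iff]
      omega
    · rw [lt_min_iff]
      omega
  · intro h1
    constructor
    · intro i
      have := h1 i
      rw [max_le_iff, lt_min_iff] at this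
      omega
    · intro i
      have := h1 i
      rw [max_le_iff, lt_min_iff] at this
      omega

theorem side_inter {a c : ι → ℤ} {P : ℕ} (h : Side a c P) (k : ι → ℤ) :
    Side (fun i => max (a i) (a i - k i)) (fun i => min (c i) (c i - k i)) P := by
  intro i
  have h1 := h i
  have h2 : min (c i) (c i - k i) ≤ c i := min_le_left _ _
  have h3 : a i ≤ max (a i) (a i - k i) := le_max_left _ _
  show min (c i) (c i - k i) - max (a i) (a i - k i) ≤ P
  omega

/-- `‖S‖ ^ 2 = ∑ x y, ee (φ y - φ x)`, and `y = x + h` with `h` in the box with sides from `- P` to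
`P`; for given `h` the `x` are those of `box_inter`. -/
theorem differencing {a c : ι → ℤ} {P : ℕ} (h : Side a c P) (φ : (ι → ℤ) → ℝ) :
    ‖sm a c φ‖ ^ 2 ≤ ∑ k ∈ box (fun _ => -(P : ℤ)) (fun _ => (P : ℤ)),
      ‖sm (fun i => max (a i) (a i - k i)) (fun i => min (c i) (c i - k i))
        (fun x => φ (x + k) - φ x)‖ := by
  set K : Finset (ι → ℤ) := box (fun _ => -(P : ℤ)) (fun _ => (P : ℤ)) with hK
  have hmemK : ∀ x ∈ box a c, ∀ y ∈ box a c, y - x ∈ K := by
    intro x hx y hy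
    rw [hK]
    unfold box at hx hy ⊢
    rw [Fintype.mem_piFinset] at hx hy ⊢
    intro i
    have h1 := hx i
    have h2 := hy i
    have h3 := h i
    rw [Finset.mem_Ico] at h1 h2 ⊢
    rw [Pi.sub_apply]
    show -(P : ℤ) ≤ y i - x i ∧ y i - x i < (P : ℤ)
    omega
  have hinner : ∀ x ∈ box a c, ∑ y ∈ box a c, ee (φ y - φ x) =
      ∑ k ∈ K, if x + k ∈ box a c then ee (φ (x + k) - φ x) else 0 := by
    intro x hx
    rw [← Finset.sum_filter]
    symm
    refine Finset.sum_nbij' (fun k => x + k) (fun y => y - x) ?_ ?_ ?_ ?_ ?_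
    · intro k hk
      exact (Finset.mem_filter.1 hk).2
    · intro y hy
      rw [Finset.mem_filter]
      refine ⟨hmemK x hx y hy, ?_⟩
      rw [add_sub_cancel]
      exact hy
    · intro k _
      show x + k - x = k
      rw [add_sub_cancel_left]
    · intro y _
      show x + (y - x) = y
      rw [add_sub_cancel]
    · intro k _
      rfl
  have hsq : ((‖sm a c φ‖ ^ 2 : ℝ) : ℂ) = ∑ x ∈ box a c, ∑ y ∈ box a c, ee (φ y - φ x) := by
    have h1 : ((‖sm a c φ‖ ^ 2 : ℝ) : ℂ) = sm a c φ * (starRingEnd ℂ) (sm a c φ) := by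
      rw [Complex.mul_conj, Complex.normSq_eq_norm_sq]
    rw [h1]
    unfold sm
    rw [map_sum, Finset.sum_mul_sum, Finset.sum_comm]
    refine Finset.sum_congr rfl (fun x _ => Finset.sum_congr rfl (fun y _ => ?_))
    rw [conj_ee, ← ee_add, sub_eq_add_neg]
  have hfin : ((‖sm a c φ‖ ^ 2 : ℝ) : ℂ) = ∑ k ∈ K,
      sm (fun i => max (a i) (a i - k i)) (fun i => min (c i) (c i - k i))
        (fun x => φ (x + k) - φ x) := by
    rw [hsq, Finset.sum_congr rfl hinner, Finset.sum_comm]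
    refine Finset.sum_congr rfl (fun k _ => ?_)
    unfold sm
    rw [← box_inter, Finset.sum_filter]
  have h2 : ‖((‖sm a c φ‖ ^ 2 : ℝ) : ℂ)‖ = ‖sm a c φ‖ ^ 2 := by
    rw [Complex.norm_real, Real.norm_of_nonneg (by positivity)]
  rw [← h2, hfin]
  exact norm_sum_le _ _

end Pool.Agent.SZW
end

-- from Lib.SZW.B3
section

/-!
# B3 (M): many shifts with a large sum
-/

set_option autoImplicit false

namespace Pool.Agent.SZW

variable {ι : Type*} [Fintype ι] [DecidableEq ι]

/-- the box of the shifts -/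
noncomputable def shifts (ι : Type*) [Fintype ι] [DecidableEq ι] (P : ℕ) : Finset (ι → ℤ) :=
  box (fun _ => -(P : ℤ)) (fun _ => (P : ℤ))

theorem shifts_card (P : ℕ) : (shifts ι P).card = (2 * P) ^ Fintype.card ι := by
  unfold shifts box
  rw [Fintype.card_piFinset]
  have h1 : ∀ i : ι, (Finset.Ico (-(P : ℤ)) (P : ℤ)).card = 2 * P := by
    intro _
    rw [Int.card_Ico]
    omega
  rw [Finset.prod_congr rfl (fun i _ => h1 i), Finset.prod_const, Finset.card_univ]

/-- Averaging: if `∑ T ≥ δ ^ 2 P ^ (2 d)`, `T ≤ P ^ d` and there are `(2 P) ^ d` shifts, then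
`T ≥ δ ^ 2 P ^ d / 2 ^ (d + 1)` for at least `δ ^ 2 P ^ d / 2` shifts. (The sum over the other shifts is
at most `δ ^ 2 P ^ (2 d) / 2`.) -/
theorem popular {a c : ι → ℤ} {P : ℕ} (hP : 1 ≤ P) (h : Side a c P) {φ : (ι → ℤ) → ℝ} {δ : ℝ}
    (hδ : 0 < δ) (hs : δ * (P : ℝ) ^ Fintype.card ι ≤ ‖sm a c φ‖) :
    δ ^ 2 / 2 * (P : ℝ) ^ Fintype.card ι ≤ (((shifts ι P).filter fun k =>
      δ ^ 2 / 2 ^ (Fintype.card ι + 1) * (P : ℝ) ^ Fintype.card ι ≤
      ‖sm (fun i => max (a i) (a i - k i)) (fun i => min (c i) (c i - k i))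
        (fun x => φ (x + k) - φ x)‖).card : ℝ) := by
  classical
  set d : ℕ := Fintype.card ι with hd
  set T : (ι → ℤ) → ℝ := fun k => ‖sm (fun i => max (a i) (a i - k i))
    (fun i => min (c i) (c i - k i)) (fun x => φ (x + k) - φ x)‖ with hT
  have hP0 : (0 : ℝ) < (P : ℝ) ^ d := by
    have : (0 : ℝ) < P := by exact_mod_cast hP
    positivity
  set θ : ℝ := δ ^ 2 / 2 ^ (d + 1) * (P : ℝ) ^ d with hθ
  have hθ0 : 0 ≤ θ := by positivity
  show δ ^ 2 / 2 * (P : ℝ) ^ d ≤ (((shifts ι P).filter fun k => θ ≤ T k).card : ℝ)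
  have h1 : ‖sm a c φ‖ ^ 2 ≤ ∑ k ∈ shifts ι P, T k := differencing h φ
  have h2 : (δ * (P : ℝ) ^ d) ^ 2 ≤ ‖sm a c φ‖ ^ 2 := pow_le_pow_left₀ (by positivity) hs 2
  have h3 : ∑ k ∈ shifts ι P, T k =
      ∑ k ∈ (shifts ι P).filter (fun k => θ ≤ T k), T k +
        ∑ k ∈ (shifts ι P).filter (fun k => ¬ θ ≤ T k), T k :=
    (Finset.sum_filter_add_sum_filter_not _ _ _).symm
  have h4 : ∑ k ∈ (shifts ι P).filter (fun k => θ ≤ T k), T k ≤
      (((shifts ι P).filter fun k => θ ≤ T k).card : ℝ) * (P : ℝ) ^ d := by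
    rw [← nsmul_eq_mul, ← Finset.sum_const]
    refine Finset.sum_le_sum (fun k _ => ?_)
    exact sm_le (side_inter h k) _
  have h5 : ∑ k ∈ (shifts ι P).filter (fun k => ¬ θ ≤ T k), T k ≤
      (2 * (P : ℝ)) ^ d * θ := by
    calc ∑ k ∈ (shifts ι P).filter (fun k => ¬ θ ≤ T k), T k
        ≤ ∑ _k ∈ (shifts ι P).filter (fun k => ¬ θ ≤ T k), θ := by
          refine Finset.sum_le_sum (fun k hk => ?_)
          have := (Finset.mem_filter.1 hk).2
          exact (not_le.1 this).le
      _ = (((shifts ι P).filter (fun k => ¬ θ ≤ T k)).card : ℝ) * θ := by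
          rw [Finset.sum_const, nsmul_eq_mul]
      _ ≤ (2 * (P : ℝ)) ^ d * θ := by
          refine mul_le_mul_of_nonneg_right ?_ hθ0
          have h6 := Finset.card_filter_le (shifts ι P) (fun k => ¬ θ ≤ T k)
          rw [shifts_card, ← hd] at h6
          exact_mod_cast h6
  have h7 : (2 * (P : ℝ)) ^ d * θ = δ ^ 2 / 2 * ((P : ℝ) ^ d) ^ 2 := by
    have e0 : (2 : ℝ) ^ (d + 1) = 2 ^ d * 2 := pow_succ 2 d
    rw [hθ, e0, mul_pow]
    field_simp
  have h8 : δ ^ 2 / 2 * (P : ℝ) ^ d * (P : ℝ) ^ d ≤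
      (((shifts ι P).filter fun k => θ ≤ T k).card : ℝ) * (P : ℝ) ^ d := by
    have e1 : (δ * (P : ℝ) ^ d) ^ 2 = δ ^ 2 * ((P : ℝ) ^ d) ^ 2 := by ring
    have e2 : δ ^ 2 / 2 * (P : ℝ) ^ d * (P : ℝ) ^ d = δ ^ 2 / 2 * ((P : ℝ) ^ d) ^ 2 := by ring
    rw [e2]
    rw [h7] at h5
    rw [e1] at h2
    linarith
  exact le_of_mul_le_mul_right h8 hP0

end Pool.Agent.SZW
end

-- from Lib.SZW.B4
section

/-!
# B4 (M): a line with many points of a dense set
-/

set_option autoImplicit false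

namespace Pool.Agent.SZW

variable {ι : Type*} [Fintype ι] [DecidableEq ι]

/-- Count the pairs `(h₀, n)` with `n < P` and `h₀ + n u ∈ H`, for `h₀` in the box with sides from
`- (1 + U) P` to `(1 + U) P`: for every `n` there are `|H|` of them (translates of points of `H`), so
some `h₀` has at least `P |H| / ((2 + 2 U) P) ^ d` numbers `n`. -/
theorem exists_line {P U : ℕ} (hP : 1 ≤ P) {u : ι → ℤ} (hu : ∀ i, |u i| ≤ U)
    {H : Finset (ι → ℤ)} (hH : H ⊆ shifts ι P) {ρ : ℝ}
    (hρ : ρ * (P : ℝ) ^ Fintype.card ι ≤ H.card) :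
    ∃ h₀ : ι → ℤ, ρ / (2 + 2 * U) ^ Fintype.card ι * P ≤
      (((Finset.range P).filter fun n : ℕ => h₀ + (n : ℤ) • u ∈ H).card : ℝ) := by
  classical
  set B : Finset (ι → ℤ) := box (fun _ => -((1 + (U : ℤ)) * P)) (fun _ => (1 + (U : ℤ)) * P) with hB
  have hcard : B.card = ((2 + 2 * U) * P) ^ Fintype.card ι := by
    rw [hB, box, Fintype.card_piFinset, Finset.prod_const, Finset.card_univ]
    congr 1
    rw [Int.card_Ico]
    have : (1 + (U : ℤ)) * P - -((1 + (U : ℤ)) * P) = (((2 + 2 * U) * P : ℕ) : ℤ) := by push_cast; ring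
    rw [this, Int.toNat_natCast]
  have hBne : B.Nonempty := by
    rw [← Finset.card_pos, hcard]
    positivity
  have hslice : ∀ n ∈ Finset.range P, (B.filter fun h₀ => h₀ + (n : ℤ) • u ∈ H).card = H.card := by
    intro n hn
    rw [Finset.mem_range] at hn
    have : (B.filter fun h₀ => h₀ + (n : ℤ) • u ∈ H) = H.image (fun h => h - (n : ℤ) • u) := by
      ext x
      rw [Finset.mem_filter, Finset.mem_image]
      constructor
      · rintro ⟨-, h⟩
        exact ⟨_, h, add_sub_cancel_right _ _⟩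
      · rintro ⟨h, hh, rfl⟩
        refine ⟨?_, by rwa [sub_add_cancel]⟩
        have h1 := hH hh
        rw [shifts, box, Fintype.mem_piFinset] at h1
        rw [hB, box, Fintype.mem_piFinset]
        intro i
        have h2 := Finset.mem_Ico.1 (h1 i)
        have h3 := abs_le.1 (hu i)
        rw [Finset.mem_Ico, Pi.sub_apply, Pi.smul_apply, smul_eq_mul]
        have hn' : (n : ℤ) ≤ P := by exact_mod_cast hn.le
        have hn0 : (0 : ℤ) ≤ n := by positivity
        have h4 : (n : ℤ) * u i ≤ P * U := by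
          calc (n : ℤ) * u i ≤ n * U := mul_le_mul_of_nonneg_left h3.2 hn0
            _ ≤ P * U := mul_le_mul_of_nonneg_right hn' (by positivity)
        have h5 : -((P : ℤ) * U) ≤ (n : ℤ) * u i := by
          have h6 : (n : ℤ) * (-U) ≤ n * u i := mul_le_mul_of_nonneg_left h3.1 hn0
          have h7 : (n : ℤ) * U ≤ P * U := mul_le_mul_of_nonneg_right hn' (by positivity)
          linarith
        constructor <;> nlinarith [h2.1, h2.2]
    rw [this, Finset.card_image_of_injective _ (sub_left_injective)]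
  have hsum : ∑ h₀ ∈ B, (((Finset.range P).filter fun n : ℕ => h₀ + (n : ℤ) • u ∈ H).card : ℝ) = P * H.card := by
    have h1 : ∑ h₀ ∈ B, ((Finset.range P).filter fun n : ℕ => h₀ + (n : ℤ) • u ∈ H).card = P * H.card := by
      simp only [Finset.card_filter]
      rw [Finset.sum_comm]
      simp only [← Finset.card_filter]
      rw [Finset.sum_congr rfl hslice, Finset.sum_const, Finset.card_range, smul_eq_mul]
    exact_mod_cast h1
  have hP0 : (0 : ℝ) < P := by exact_mod_cast hP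
  obtain ⟨h₀, -, h⟩ := Finset.exists_le_of_sum_le (f := fun _ => ρ / (2 + 2 * U) ^ Fintype.card ι * (P : ℝ)) hBne (by
    rw [hsum, Finset.sum_const, hcard, nsmul_eq_mul]
    have h1 : (0 : ℝ) < (2 + 2 * U) ^ Fintype.card ι := by positivity
    have h2 : (((((2 + 2 * U) * P) ^ Fintype.card ι : ℕ)) : ℝ) * (ρ / (2 + 2 * U) ^ Fintype.card ι * P) = P * (ρ * (P : ℝ) ^ Fintype.card ι) := by
      push_cast
      rw [mul_pow]
      field_simp
    rw [h2]
    exact mul_le_mul_of_nonneg_left hρ hP0.le)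
  exact ⟨h₀, h⟩

end Pool.Agent.SZW
end
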