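import Mathlib
import Pool.Agent.Lib.H59M.M2.M021

/-! Merged copies (to shorten the build) of Lib.H3B.CS, Lib.H3B.SY, Lib.H3B.TP, Lib.H3B.S2A. -/

-- from Lib.H3B.CS
section

/-! # H3B (MP_443e5f, candidate T, module B), chunk CS -/

namespace Pool.Agent.H3B

open Finset
open Pool.Agent.H44W (ee TF cut)

theorem cs_sq {n : ℕ} (hn : 1 ≤ n) {g : ℤ → ℂ} (hg : ∀ z, ‖g z‖ ≤ 1) (hs : Sp n g) (Z : Finset ℤ)
    (hZ : Icc (-(n : ℤ)) n ⊆ Z) : ∑ y ∈ Z, ‖g y‖ ^ 2 ≤ 3 * (n : ℝ) := by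
  have h1 : ∑ y ∈ Z, ‖g y‖ ^ 2 = ∑ y ∈ Icc (-(n : ℤ)) n, ‖g y‖ ^ 2 := by
    symm
    refine sum_subset hZ fun y _ hy => ?_
    have h2 : g y = 0 := by
      by_contra h0
      exact hy (mem_Icc.2 (abs_le.1 (hs y h0)))
    rw [h2]
    simp
  have h2 : ∑ y ∈ Icc (-(n : ℤ)) n, ‖g y‖ ^ 2 ≤ ∑ _y ∈ Icc (-(n : ℤ)) n, (1 : ℝ) :=
    sum_le_sum fun y _ => pow_le_one₀ (norm_nonneg _) (hg y)
  rw [h1]
  refine h2.trans ?_
  rw [sum_const, Int.card_Icc, nsmul_eq_mul, mul_one]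
  have h3 : (n : ℤ) + 1 - -(n : ℤ) = ((2 * n + 1 : ℕ) : ℤ) := by push_cast; ring
  rw [h3, Int.toNat_natCast]
  push_cast
  have h4 : (1 : ℝ) ≤ n := by exact_mod_cast hn
  linarith

/-- Chunk CS (M). Cauchy-Schwarz removing g(y). PROOF. The left side is |∑' y, g y * V y|², V y = ∑_{a in s} conj g (y + q a) * v a y (finite sums). ≤ (∑ |g|²)(∑' y, |V y|²), ∑ |g|² ≤ 2 n + 1 ≤ 3 n,
and ∑' y, |V y|² = ∑_{a, a'} ∑' y, conj g (y + q a) g (y + q a') v a y conj v a' y (all have finite support, Sp.shift). -/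
theorem CSg {n : ℕ} (hn : 1 ≤ n) {g : ℤ → ℂ} (hg : ∀ z, ‖g z‖ ≤ 1) (hs : Sp n g) {ι : Type} (s : Finset ι) (q : ι → ℤ) (v : ι → ℤ → ℂ) :
    ‖∑ a ∈ s, ∑' y : ℤ, Gd g (q a) y * v a y‖ ^ 2 ≤ 3 * n * ∑ a ∈ s, ∑ a' ∈ s,
      ‖∑' y : ℤ, (starRingEnd ℂ) (g (y + q a)) * g (y + q a') * (v a y * (starRingEnd ℂ) (v a' y))‖ := by
  obtain ⟨T, hT⟩ : ∃ T : ℕ, ∀ a ∈ s, (q a).natAbs ≤ T :=
    ⟨∑ a ∈ s, (q a).natAbs, fun a ha => single_le_sum (f := fun a => (q a).natAbs) (fun _ _ => Nat.zero_le _) ha⟩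
  obtain ⟨Z, hZd⟩ : ∃ Z : Finset ℤ, Z = Icc (-((n + T : ℕ) : ℤ)) ((n + T : ℕ) : ℤ) := ⟨_, rfl⟩
  have hZ : Icc (-(n : ℤ)) n ⊆ Z := by
    rw [hZd]
    apply Icc_subset_Icc <;> push_cast <;> omega
  have hz : ∀ y ∉ Z, g y = 0 := by
    intro y hy
    by_contra h0
    exact hy (hZ (mem_Icc.2 (abs_le.1 (hs y h0))))
  have hzq : ∀ a ∈ s, ∀ y ∉ Z, g (y + q a) = 0 := by
    intro a ha y hy
    by_contra h0
    have h1 := abs_le.1 (hs _ h0)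
    have h2 := hT a ha
    apply hy
    rw [hZd, mem_Icc]
    push_cast
    omega
  have e1 : ∑ a ∈ s, ∑' y : ℤ, Gd g (q a) y * v a y =
      ∑ y ∈ Z, g y * ∑ a ∈ s, (starRingEnd ℂ) (g (y + q a)) * v a y := by
    have h1 : ∀ a ∈ s, ∑' y : ℤ, Gd g (q a) y * v a y = ∑ y ∈ Z, Gd g (q a) y * v a y := by
      intro a _
      refine tsum_eq_sum fun y hy => ?_
      unfold Gd
      rw [hz y hy]
      ring
    rw [sum_congr rfl h1, sum_comm]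
    refine sum_congr rfl fun y _ => ?_
    rw [mul_sum]
    refine sum_congr rfl fun a _ => ?_
    unfold Gd
    ring
  obtain ⟨V, hV⟩ : ∃ V : ℤ → ℂ, ∀ y, V y = ∑ a ∈ s, (starRingEnd ℂ) (g (y + q a)) * v a y := ⟨_, fun _ => rfl⟩
  have e1' : ∑ a ∈ s, ∑' y : ℤ, Gd g (q a) y * v a y = ∑ y ∈ Z, g y * V y := by
    rw [e1]
    exact sum_congr rfl fun y _ => by rw [hV y]
  have e2 : ((∑ y ∈ Z, ‖V y‖ ^ 2 : ℝ) : ℂ) = ∑ a ∈ s, ∑ a' ∈ s,
      ∑' y : ℤ, (starRingEnd ℂ) (g (y + q a)) * g (y + q a') * (v a y * (starRingEnd ℂ) (v a' y)) := by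
    have h1 : ∀ a ∈ s, ∀ a' ∈ s,
        ∑' y : ℤ, (starRingEnd ℂ) (g (y + q a)) * g (y + q a') * (v a y * (starRingEnd ℂ) (v a' y)) =
        ∑ y ∈ Z, (starRingEnd ℂ) (g (y + q a)) * g (y + q a') * (v a y * (starRingEnd ℂ) (v a' y)) := by
      intro a ha a' _
      refine tsum_eq_sum fun y hy => ?_
      rw [hzq a ha y hy]
      simp
    rw [sum_congr rfl fun a ha => sum_congr rfl fun a' ha' => h1 a ha a' ha']
    push_cast
    have h2 : ∀ y ∈ Z, ((‖V y‖ : ℝ) : ℂ) ^ 2 =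
        ∑ a ∈ s, ∑ a' ∈ s, (starRingEnd ℂ) (g (y + q a)) * g (y + q a') * (v a y * (starRingEnd ℂ) (v a' y)) := by
      intro y _
      rw [← Complex.mul_conj', hV y, map_sum, sum_mul_sum]
      refine sum_congr rfl fun a _ => sum_congr rfl fun a' _ => ?_
      rw [map_mul, Complex.conj_conj]
      ring
    rw [sum_congr rfl h2, sum_comm]
    refine sum_congr rfl fun a _ => ?_
    rw [sum_comm]
  have e3 : ∑ y ∈ Z, ‖V y‖ ^ 2 ≤ ∑ a ∈ s, ∑ a' ∈ s,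
      ‖∑' y : ℤ, (starRingEnd ℂ) (g (y + q a)) * g (y + q a') * (v a y * (starRingEnd ℂ) (v a' y))‖ := by
    have h0 : 0 ≤ ∑ y ∈ Z, ‖V y‖ ^ 2 := sum_nonneg fun _ _ => sq_nonneg _
    have h1 : ∑ y ∈ Z, ‖V y‖ ^ 2 = ‖((∑ y ∈ Z, ‖V y‖ ^ 2 : ℝ) : ℂ)‖ := by
      rw [Complex.norm_real, Real.norm_of_nonneg h0]
    rw [h1, e2]
    refine (norm_sum_le _ _).trans (sum_le_sum fun a _ => ?_)
    exact norm_sum_le _ _
  have e4 : ‖∑ y ∈ Z, g y * V y‖ ^ 2 ≤ (∑ y ∈ Z, ‖g y‖ ^ 2) * ∑ y ∈ Z, ‖V y‖ ^ 2 := by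
    have h1 : ‖∑ y ∈ Z, g y * V y‖ ≤ ∑ y ∈ Z, ‖g y‖ * ‖V y‖ := by
      refine (norm_sum_le _ _).trans (le_of_eq (sum_congr rfl fun y _ => ?_))
      rw [norm_mul]
    exact (pow_le_pow_left₀ (norm_nonneg _) h1 2).trans (sum_mul_sq_le_sq_mul_sq _ _ _)
  rw [e1']
  refine e4.trans ?_
  have h5 : 0 ≤ ∑ y ∈ Z, ‖V y‖ ^ 2 := sum_nonneg fun _ _ => sq_nonneg _
  calc (∑ y ∈ Z, ‖g y‖ ^ 2) * ∑ y ∈ Z, ‖V y‖ ^ 2 ≤ 3 * n * ∑ y ∈ Z, ‖V y‖ ^ 2 :=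
        mul_le_mul_of_nonneg_right (cs_sq hn hg hs Z hZ) h5
    _ ≤ _ := mul_le_mul_of_nonneg_left e3 (by positivity)

end Pool.Agent.H3B
end

-- from Lib.H3B.SY
section

/-! # H3B (MP_443e5f, candidate T, module B), chunk SY -/

namespace Pool.Agent.H3B

open Finset
open Pool.Agent.H44W (ee TF cut)

/-- Chunk SYa (S). PROOF. tsum_congr; both terms are g y conj g (y + d) conj g (y + q) g (y + d + q). -/
theorem R_symm (g : ℤ → ℂ) (d q : ℤ) : R (Gd g d) q = R (Gd g q) d := by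
  unfold R Gd
  refine tsum_congr fun y => ?_
  rw [map_mul, map_mul, Complex.conj_conj, Complex.conj_conj]
  have h1 : y + q + d = y + d + q := by ring
  rw [h1]
  ring

/-- Chunk SYb (S). -/
theorem R_bound {n : ℕ} {g : ℤ → ℂ} (h : Sp n g) (hg : ∀ z, ‖g z‖ ≤ 1) (hn : 1 ≤ n) (d q : ℤ) : ‖R (Gd g d) q‖ ≤ 3 * n := by
  have h1 : Sp n (fun y => Gd g d y * (starRingEnd ℂ) (Gd g d (y + q))) := (h.Gd d).mul_right _
  have h2 := h1.norm_tsum_le (b := 1) (fun y => by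
    rw [norm_mul, RCLike.norm_conj]
    exact mul_le_one₀ (Gd_norm hg _ _) (norm_nonneg _) (Gd_norm hg _ _))
  unfold R
  refine h2.trans ?_
  have h3 : (1 : ℝ) ≤ n := by exact_mod_cast hn
  linarith

/-- Chunk SYc (S). g y and g (y + q) are not both nonzero. -/
theorem R_zero {n : ℕ} {g : ℤ → ℂ} (h : Sp n g) {d q : ℤ} (hq : 2 * (n : ℤ) < |q|) : R (Gd g d) q = 0 := by
  unfold R
  have h1 : ∀ y, Gd g d y * (starRingEnd ℂ) (Gd g d (y + q)) = 0 := by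
    intro y
    by_contra h0
    have h2 : Gd g d y ≠ 0 := left_ne_zero_of_mul h0
    have h3 : Gd g d (y + q) ≠ 0 := by
      intro h4
      apply h0
      rw [h4, map_zero, mul_zero]
    have h4 := h.Gd d y h2
    have h5 := h.Gd d (y + q) h3
    have h6 : |q| ≤ |y + q| + |y| := by
      have := abs_sub (y + q) y
      simpa using this
    omega
  simp only [h1, tsum_zero]


end Pool.Agent.H3B
end

-- from Lib.H3B.TP
section

/-! # H3B (MP_443e5f, candidate T, module B), chunk TP -/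

namespace Pool.Agent.H3B

open Finset
open Pool.Agent.H44W (ee TF cut)

theorem tp_pow (x : ℝ) (i : ℕ) : ee (i * x) = ee x ^ i := by
  induction i with
  | zero => simp [ee_zero]
  | succ i ih =>
    rw [pow_succ, ← ih, ← ee_add]
    congr 1
    push_cast
    ring

/-- orthogonality -/
theorem tp_orth (Q : ℕ) (hQ : 0 < Q) (t : ℤ) (ht : |t| < Q) :
    ∑ i ∈ range Q, ee ((i : ℝ) / Q * t) = if t = 0 then (Q : ℂ) else 0 := by
  have hQ0 : (Q : ℝ) ≠ 0 := by exact_mod_cast hQ.ne'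
  have e1 : ∀ i : ℕ, ee ((i : ℝ) / Q * t) = ee (t / Q) ^ i := by
    intro i
    rw [← tp_pow]
    congr 1
    ring
  rw [Finset.sum_congr rfl fun i _ => e1 i]
  split_ifs with h
  · rw [h]
    simp [ee_zero]
  · have h1 : ee ((t : ℝ) / Q) ≠ 1 := by
      intro h2
      unfold ee at h2
      rw [Complex.exp_eq_one_iff] at h2
      obtain ⟨k, hk⟩ := h2
      have h3 : ((t : ℝ) / Q : ℝ) = k := by
        have h4 : (2 * Real.pi * Complex.I : ℂ) ≠ 0 := by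
          have hpi : (Real.pi : ℂ) ≠ 0 := by exact_mod_cast Real.pi_ne_zero
          exact mul_ne_zero (mul_ne_zero two_ne_zero hpi) Complex.I_ne_zero
        have h5 : (((t : ℝ) / Q : ℝ) : ℂ) * (2 * Real.pi * Complex.I) = k * (2 * Real.pi * Complex.I) := by
          rw [← hk]
          ring
        have h6 := mul_right_cancel₀ h4 h5
        exact_mod_cast h6
      rw [div_eq_iff hQ0] at h3
      have h4 : t = k * Q := by exact_mod_cast h3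
      rw [h4, abs_mul, Nat.abs_cast] at ht
      have h5 : |k| < 1 := by
        by_contra h6
        have h7 : 1 ≤ |k| := not_lt.1 h6
        nlinarith
      have h6 : k = 0 := Int.abs_lt_one_iff.1 h5
      rw [h6, zero_mul] at h4
      exact h h4
    rw [geom_sum_eq h1, ← tp_pow]
    have e2 : (Q : ℝ) * ((t : ℝ) / Q) = t := by field_simp
    rw [e2, ee_int, sub_self, zero_div]

/-- Parseval -/
theorem tp_pars (Q : ℕ) (hQ : 0 < Q) (S : Finset ℤ) (B : ℤ → ℂ) (hS : ∀ b ∈ S, ∀ b' ∈ S, |b' - b| < (Q : ℤ)) :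
    ∑ i ∈ range Q, ‖∑ b ∈ S, B b * ee ((i : ℝ) / Q * b)‖ ^ 2 = Q * ∑ b ∈ S, ‖B b‖ ^ 2 := by
  have e0 : ((∑ i ∈ range Q, ‖∑ b ∈ S, B b * ee ((i : ℝ) / Q * b)‖ ^ 2 : ℝ) : ℂ) =
      ((Q * ∑ b ∈ S, ‖B b‖ ^ 2 : ℝ) : ℂ) := by
    rw [Complex.ofReal_sum]
    have e1 : ∀ i ∈ range Q, ((‖∑ b ∈ S, B b * ee ((i : ℝ) / Q * b)‖ ^ 2 : ℝ) : ℂ) =
        ∑ b' ∈ S, ∑ b ∈ S, (B b' * (starRingEnd ℂ) (B b)) * ee ((i : ℝ) / Q * ((b' - b : ℤ) : ℝ)) := by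
      intro i _
      rw [← Complex.normSq_eq_norm_sq, ← Complex.mul_conj, map_sum, Finset.sum_mul_sum]
      refine Finset.sum_congr rfl fun b' _ => Finset.sum_congr rfl fun b _ => ?_
      rw [map_mul, ee_conj]
      have e2 : ee ((i : ℝ) / Q * ((b' - b : ℤ) : ℝ)) = ee ((i : ℝ) / Q * b') * ee (-((i : ℝ) / Q * b)) := by
        rw [← ee_add]
        congr 1
        push_cast
        ring
      rw [e2]
      ring
    rw [Finset.sum_congr rfl e1, Finset.sum_comm]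
    have e3 : ∀ b' ∈ S, ∑ i ∈ range Q, ∑ b ∈ S, (B b' * (starRingEnd ℂ) (B b)) *
        ee ((i : ℝ) / Q * ((b' - b : ℤ) : ℝ)) = Q * (B b' * (starRingEnd ℂ) (B b')) := by
      intro b' hb'
      rw [Finset.sum_comm]
      have e4 : ∀ b ∈ S, ∑ i ∈ range Q, (B b' * (starRingEnd ℂ) (B b)) *
          ee ((i : ℝ) / Q * ((b' - b : ℤ) : ℝ)) = if b = b' then Q * (B b' * (starRingEnd ℂ) (B b')) else 0 := by
        intro b hb
        rw [← Finset.mul_sum, tp_orth Q hQ (b' - b) (hS b hb b' hb')]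
        by_cases h : b = b'
        · rw [if_pos (sub_eq_zero.2 h.symm), if_pos h, h]
          ring
        · rw [if_neg (fun h' => h (sub_eq_zero.1 h').symm), if_neg h, mul_zero]
      rw [Finset.sum_congr rfl e4, Finset.sum_ite_eq' S b', if_pos hb']
    rw [Finset.sum_congr rfl e3, ← Finset.mul_sum]
    push_cast
    congr 1
    refine Finset.sum_congr rfl fun b _ => ?_
    rw [Complex.mul_conj, Complex.normSq_eq_norm_sq]
    push_cast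
    rfl
  exact_mod_cast e0

/-- inversion -/
theorem tp_inv (Q : ℕ) (hQ : 0 < Q) {N : ℕ} {ρ : ℤ → ℂ} (hρ : ∀ l, l ∉ Icc (-(N : ℤ)) N → ρ l = 0) (En : ℝ → ℝ)
    (hexp : ∀ φ, ((En φ : ℝ) : ℂ) = ∑ l ∈ Icc (-(N : ℤ)) N, ρ l * ee (φ * l)) (h : ℤ)
    (hh : ∀ l ∈ Icc (-(N : ℤ)) N, |l - h| < (Q : ℤ)) :
    ∑ i ∈ range Q, ((En ((i : ℝ) / Q) : ℝ) : ℂ) * ee (-((i : ℝ) / Q * h)) = Q * ρ h := by
  have e1 : ∀ i ∈ range Q, ((En ((i : ℝ) / Q) : ℝ) : ℂ) * ee (-((i : ℝ) / Q * h)) =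
      ∑ l ∈ Icc (-(N : ℤ)) N, ρ l * ee ((i : ℝ) / Q * ((l - h : ℤ) : ℝ)) := by
    intro i _
    rw [hexp, Finset.sum_mul]
    refine Finset.sum_congr rfl fun l _ => ?_
    rw [mul_assoc, ← ee_add]
    congr 2
    push_cast
    ring
  rw [Finset.sum_congr rfl e1, Finset.sum_comm]
  have e2 : ∀ l ∈ Icc (-(N : ℤ)) N, ∑ i ∈ range Q, ρ l * ee ((i : ℝ) / Q * ((l - h : ℤ) : ℝ)) =
      if l = h then Q * ρ h else 0 := by
    intro l hl
    rw [← Finset.mul_sum, tp_orth Q hQ (l - h) (hh l hl)]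
    by_cases h1 : l = h
    · rw [if_pos (sub_eq_zero.2 h1), if_pos h1, h1]
      ring
    · rw [if_neg (fun h' => h1 (sub_eq_zero.1 h')), if_neg h1, mul_zero]
  rw [Finset.sum_congr rfl e2, Finset.sum_ite_eq']
  split_ifs with h3
  · rfl
  · rw [hρ h h3, mul_zero]

/-- an upper bound for the elements -/
theorem tp_size (T : Finset ℤ) (h : ℤ) (hh : h ∈ T) : |h| ≤ ((∑ x ∈ T, x.natAbs : ℕ) : ℤ) := by
  have h1 : h.natAbs ≤ ∑ x ∈ T, x.natAbs := Finset.single_le_sum (f := fun x : ℤ => x.natAbs) (fun _ _ => Nat.zero_le _) hh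
  have h2 : |h| = (h.natAbs : ℤ) := Int.abs_eq_natAbs h
  rw [h2]
  exact_mod_cast h1

/-- Chunk TP1 (M). PROOF. Choose Q = 2 N + 1 + (bound for the elements of T) large: Q greater than |l - h| for all l in Icc (-N) N and h in T or in Icc (-N) N. Orthogonality:
∑_{i < Q} ee (i t / Q) = Q if Q divides t, else 0 (geometric sum); so ρ h = (1/Q) ∑_i En (i/Q) ee (-i h/Q) for h in T (both sides 0 if h is not in Icc (-N) N).
∑_{h in T} c h ρ h = (1/Q) ∑_i En(i/Q) C_i, C_i = ∑_{h in T} c h ee (-i h/Q). |C_i| ≤ η L + |C_i|²/(η L). (1/Q) ∑_i En (i/Q) = ρ 0 (so ρ 0 is real, equal to its norm);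
(1/Q) ∑_i |C_i|² = ∑_{h in T} |c h|² ≤ L (distinct elements of T are distinct modulo Q). Take φ = i/Q with En maximal (exists_max_image on range Q): the sum is at most
η L ρ 0 + En φ (1/(η L)) L. -/
theorem TP1 {N : ℕ} {ρ : ℤ → ℂ} (hρ : ∀ l, l ∉ Icc (-(N : ℤ)) N → ρ l = 0) (En : ℝ → ℝ) (hE : ∀ φ, 0 ≤ En φ)
    (hexp : ∀ φ, ((En φ : ℝ) : ℂ) = ∑ l ∈ Icc (-(N : ℤ)) N, ρ l * ee (φ * l)) (T : Finset ℤ) (c : ℤ → ℂ) (hc : ∀ h, ‖c h‖ ≤ 1)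
    {η L : ℝ} (hη : 0 < η) (hL0 : 0 < L) (hL : (T.card : ℝ) ≤ L) :
    ∃ φ : ℝ, ‖∑ h ∈ T, c h * ρ h‖ ≤ η * L * ‖ρ 0‖ + En φ / η := by
  obtain ⟨Q, hQd⟩ : ∃ Q : ℕ, Q = 2 * N + 1 + 2 * ∑ x ∈ T, x.natAbs := ⟨_, rfl⟩
  have hQ : 0 < Q := by omega
  have hQR : (0 : ℝ) < Q := by exact_mod_cast hQ
  have hT : ∀ h ∈ T, ∀ l ∈ Icc (-(N : ℤ)) N, |l - h| < (Q : ℤ) := by
    intro h hh l hl
    have h1 := tp_size T h hh
    rw [mem_Icc] at hl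
    rw [abs_le] at h1
    rw [abs_lt]
    push_cast [hQd]
    push_cast at h1
    constructor <;> omega
  have hTT : ∀ h ∈ T, ∀ h' ∈ T, |h' - h| < (Q : ℤ) := by
    intro h hh h' hh'
    have h1 := tp_size T h hh
    have h2 := tp_size T h' hh'
    rw [abs_le] at h1 h2
    rw [abs_lt]
    push_cast [hQd]
    push_cast at h1 h2
    constructor <;> omega
  have h0 : ∀ l ∈ Icc (-(N : ℤ)) N, |l - 0| < (Q : ℤ) := by
    intro l hl
    rw [mem_Icc] at hl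
    have hNQ : (N : ℤ) < Q := by
      have h5 : N < Q := by omega
      exact_mod_cast h5
    rw [abs_lt]
    constructor <;> omega
  obtain ⟨i0, hi0, hmax⟩ := exists_max_image (range Q) (fun i : ℕ => En ((i : ℝ) / Q)) ⟨0, mem_range.2 hQ⟩
  refine ⟨(i0 : ℝ) / Q, ?_⟩
  set C : ℕ → ℂ := fun i => ∑ h ∈ T, c h * ee (-((i : ℝ) / Q * h)) with hC
  have s1 : (Q : ℂ) * ∑ h ∈ T, c h * ρ h = ∑ i ∈ range Q, ((En ((i : ℝ) / Q) : ℝ) : ℂ) * C i := by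
    rw [Finset.mul_sum]
    have e1 : ∀ h ∈ T, (Q : ℂ) * (c h * ρ h) =
        ∑ i ∈ range Q, ((En ((i : ℝ) / Q) : ℝ) : ℂ) * (c h * ee (-((i : ℝ) / Q * h))) := by
      intro h hh
      have e2 := tp_inv Q hQ hρ En hexp h (hT h hh)
      calc (Q : ℂ) * (c h * ρ h) = c h * (Q * ρ h) := by ring
        _ = _ := by
          rw [← e2, Finset.mul_sum]
          refine Finset.sum_congr rfl fun i _ => ?_
          ring
    rw [Finset.sum_congr rfl e1, Finset.sum_comm]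
    refine Finset.sum_congr rfl fun i _ => ?_
    rw [hC, Finset.mul_sum]
  have s2 : ∑ i ∈ range Q, En ((i : ℝ) / Q) = Q * ‖ρ 0‖ := by
    have e2 := tp_inv Q hQ hρ En hexp 0 h0
    have e3 : ((∑ i ∈ range Q, En ((i : ℝ) / Q) : ℝ) : ℂ) = Q * ρ 0 := by
      rw [← e2, Complex.ofReal_sum]
      refine Finset.sum_congr rfl fun i _ => ?_
      simp [ee_zero]
    have e4 := congrArg norm e3
    rw [Complex.norm_real, Real.norm_of_nonneg (Finset.sum_nonneg fun _ _ => hE _), norm_mul,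
      Complex.norm_natCast] at e4
    exact e4
  have s3 : ∑ i ∈ range Q, ‖C i‖ ^ 2 = Q * ∑ h ∈ T, ‖c h‖ ^ 2 := by
    have e1 := tp_pars Q hQ T (fun h => (starRingEnd ℂ) (c h)) hTT
    have e2 : ∀ i : ℕ, ‖∑ h ∈ T, (starRingEnd ℂ) (c h) * ee ((i : ℝ) / Q * h)‖ = ‖C i‖ := by
      intro i
      have e3 : ∑ h ∈ T, (starRingEnd ℂ) (c h) * ee ((i : ℝ) / Q * h) = (starRingEnd ℂ) (C i) := by
        rw [hC, map_sum]
        refine Finset.sum_congr rfl fun h _ => ?_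
        rw [map_mul, ee_conj, neg_neg]
      rw [e3, RCLike.norm_conj]
    simp only [e2, RCLike.norm_conj] at e1
    exact e1
  have s4 : ∑ h ∈ T, ‖c h‖ ^ 2 ≤ L := by
    refine le_trans ?_ hL
    calc ∑ h ∈ T, ‖c h‖ ^ 2 ≤ ∑ _h ∈ T, (1 : ℝ) :=
          Finset.sum_le_sum fun h _ => pow_le_one₀ (norm_nonneg _) (hc h)
      _ = T.card := by simp
  have hηL : 0 < η * L := mul_pos hη hL0
  have s5 : ∀ i, ‖C i‖ ≤ η * L + ‖C i‖ ^ 2 / (η * L) := by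
    intro i
    rw [← sub_le_iff_le_add', le_div_iff₀ hηL]
    nlinarith [sq_nonneg (‖C i‖ - η * L), norm_nonneg (C i), mul_nonneg hηL.le (norm_nonneg (C i))]
  have s6 : Q * ‖∑ h ∈ T, c h * ρ h‖ ≤ Q * (η * L * ‖ρ 0‖ + En ((i0 : ℝ) / Q) / η) := by
    have e1 : Q * ‖∑ h ∈ T, c h * ρ h‖ = ‖(Q : ℂ) * ∑ h ∈ T, c h * ρ h‖ := by
      rw [norm_mul, Complex.norm_natCast]
    rw [e1, s1]
    calc _ ≤ ∑ i ∈ range Q, En ((i : ℝ) / Q) * ‖C i‖ := by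
          refine (norm_sum_le _ _).trans (Finset.sum_le_sum fun i _ => ?_)
          rw [norm_mul, Complex.norm_real, Real.norm_of_nonneg (hE _)]
      _ ≤ ∑ i ∈ range Q, (En ((i : ℝ) / Q) * (η * L) + En ((i0 : ℝ) / Q) * (‖C i‖ ^ 2 / (η * L))) := by
          refine Finset.sum_le_sum fun i hi => ?_
          calc _ ≤ En ((i : ℝ) / Q) * (η * L + ‖C i‖ ^ 2 / (η * L)) :=
                mul_le_mul_of_nonneg_left (s5 i) (hE _)
            _ = En ((i : ℝ) / Q) * (η * L) + En ((i : ℝ) / Q) * (‖C i‖ ^ 2 / (η * L)) := by ring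
            _ ≤ _ := by
              have e2 : En ((i : ℝ) / Q) * (‖C i‖ ^ 2 / (η * L)) ≤ En ((i0 : ℝ) / Q) * (‖C i‖ ^ 2 / (η * L)) :=
                mul_le_mul_of_nonneg_right (hmax i hi) (by positivity)
              linarith
      _ = η * L * (Q * ‖ρ 0‖) + En ((i0 : ℝ) / Q) / (η * L) * (Q * ∑ h ∈ T, ‖c h‖ ^ 2) := by
          rw [Finset.sum_add_distrib, ← Finset.sum_mul, s2, ← s3, ← Finset.mul_sum, ← Finset.sum_div]
          ring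
      _ ≤ η * L * (Q * ‖ρ 0‖) + En ((i0 : ℝ) / Q) / (η * L) * (Q * L) := by
          have e3 : 0 ≤ En ((i0 : ℝ) / Q) / (η * L) := div_nonneg (hE _) hηL.le
          have e4 : (Q : ℝ) * ∑ h ∈ T, ‖c h‖ ^ 2 ≤ Q * L := mul_le_mul_of_nonneg_left s4 hQR.le
          have e5 := mul_le_mul_of_nonneg_left e4 e3
          linarith
      _ = Q * (η * L * ‖ρ 0‖ + En ((i0 : ℝ) / Q) / η) := by
          field_simp
  exact le_of_mul_le_mul_left s6 hQR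

/-- Chunk TP2 (M). PROOF. As in TP1 with Q larger than N + |b' - b| for all b, b' in S: ∑_{b, b'} B b conj B b' ρ (b' - b) = (1/Q) ∑_i En (i/Q) |∑_b B b ee (i b/Q)|²
(ee (-i (b' - b)/Q) = ee (i b/Q) conj ee (i b'/Q)), and (1/Q) ∑_i |∑_b B b ee (i b/Q)|² = ∑_b |B b|². -/
theorem TP2 {N : ℕ} {ρ : ℤ → ℂ} (hρ : ∀ l, l ∉ Icc (-(N : ℤ)) N → ρ l = 0) (En : ℝ → ℝ) (hE : ∀ φ, 0 ≤ En φ)
    (hexp : ∀ φ, ((En φ : ℝ) : ℂ) = ∑ l ∈ Icc (-(N : ℤ)) N, ρ l * ee (φ * l)) (S : Finset ℤ) (B : ℤ → ℂ) :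
    ∃ φ : ℝ, ‖∑ b ∈ S, ∑ b' ∈ S, B b * (starRingEnd ℂ) (B b') * ρ (b' - b)‖ ≤ (∑ b ∈ S, ‖B b‖ ^ 2) * En φ := by
  obtain ⟨Q, hQd⟩ : ∃ Q : ℕ, Q = 2 * N + 1 + 2 * ∑ x ∈ S, x.natAbs := ⟨_, rfl⟩
  have hQ : 0 < Q := by omega
  have hQR : (0 : ℝ) < Q := by exact_mod_cast hQ
  have hSS : ∀ h ∈ S, ∀ h' ∈ S, |h' - h| < (Q : ℤ) := by
    intro h hh h' hh'
    have h1 := tp_size S h hh
    have h2 := tp_size S h' hh'
    rw [abs_le] at h1 h2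
    rw [abs_lt]
    push_cast [hQd]
    push_cast at h1 h2
    constructor <;> omega
  have hS : ∀ b ∈ S, ∀ b' ∈ S, ∀ l ∈ Icc (-(N : ℤ)) N, |l - (b' - b)| < (Q : ℤ) := by
    intro h hh h' hh' l hl
    have h1 := tp_size S h hh
    have h2 := tp_size S h' hh'
    rw [mem_Icc] at hl
    rw [abs_le] at h1 h2
    rw [abs_lt]
    push_cast [hQd]
    push_cast at h1 h2
    constructor <;> omega
  obtain ⟨i0, hi0, hmax⟩ := exists_max_image (range Q) (fun i : ℕ => En ((i : ℝ) / Q)) ⟨0, mem_range.2 hQ⟩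
  refine ⟨(i0 : ℝ) / Q, ?_⟩
  have s1 : (Q : ℂ) * ∑ b ∈ S, ∑ b' ∈ S, B b * (starRingEnd ℂ) (B b') * ρ (b' - b) =
      ((∑ i ∈ range Q, En ((i : ℝ) / Q) * ‖∑ b ∈ S, B b * ee ((i : ℝ) / Q * b)‖ ^ 2 : ℝ) : ℂ) := by
    rw [Complex.ofReal_sum]
    have e1 : ∀ i ∈ range Q, ((En ((i : ℝ) / Q) * ‖∑ b ∈ S, B b * ee ((i : ℝ) / Q * b)‖ ^ 2 : ℝ) : ℂ) =
        ∑ b ∈ S, ∑ b' ∈ S, B b * (starRingEnd ℂ) (B b') *
          (((En ((i : ℝ) / Q) : ℝ) : ℂ) * ee (-((i : ℝ) / Q * ((b' - b : ℤ) : ℝ)))) := by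
      intro i _
      rw [Complex.ofReal_mul, ← Complex.normSq_eq_norm_sq, ← Complex.mul_conj, map_sum, Finset.sum_mul_sum]
      rw [Finset.mul_sum]
      refine Finset.sum_congr rfl fun b _ => ?_
      rw [Finset.mul_sum]
      refine Finset.sum_congr rfl fun b' _ => ?_
      rw [map_mul, ee_conj]
      have e2 : ee (-((i : ℝ) / Q * ((b' - b : ℤ) : ℝ))) = ee ((i : ℝ) / Q * b) * ee (-((i : ℝ) / Q * b')) := by
        rw [← ee_add]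
        congr 1
        push_cast
        ring
      rw [e2]
      ring
    symm
    rw [Finset.sum_congr rfl e1, Finset.sum_comm, Finset.mul_sum]
    refine Finset.sum_congr rfl fun b hb => ?_
    rw [Finset.sum_comm, Finset.mul_sum]
    refine Finset.sum_congr rfl fun b' hb' => ?_
    rw [← Finset.mul_sum, tp_inv Q hQ hρ En hexp (b' - b) (hS b hb b' hb')]
    ring
  have s3 := tp_pars Q hQ S B hSS
  have s6 : Q * ‖∑ b ∈ S, ∑ b' ∈ S, B b * (starRingEnd ℂ) (B b') * ρ (b' - b)‖ ≤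
      Q * ((∑ b ∈ S, ‖B b‖ ^ 2) * En ((i0 : ℝ) / Q)) := by
    have e1 : Q * ‖∑ b ∈ S, ∑ b' ∈ S, B b * (starRingEnd ℂ) (B b') * ρ (b' - b)‖ =
        ‖(Q : ℂ) * ∑ b ∈ S, ∑ b' ∈ S, B b * (starRingEnd ℂ) (B b') * ρ (b' - b)‖ := by
      rw [norm_mul, Complex.norm_natCast]
    rw [e1, s1, Complex.norm_real, Real.norm_of_nonneg (Finset.sum_nonneg fun _ _ => mul_nonneg (hE _) (by positivity))]
    calc _ ≤ ∑ i ∈ range Q, En ((i0 : ℝ) / Q) * ‖∑ b ∈ S, B b * ee ((i : ℝ) / Q * b)‖ ^ 2 :=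
          Finset.sum_le_sum fun i hi => mul_le_mul_of_nonneg_right (hmax i hi) (by positivity)
      _ = Q * ((∑ b ∈ S, ‖B b‖ ^ 2) * En ((i0 : ℝ) / Q)) := by
          rw [← Finset.mul_sum, s3]
          ring
  exact le_of_mul_le_mul_left s6 hQR

end Pool.Agent.H3B
end

-- from Lib.H3B.S2A
section

/-! # H3B (MP_443e5f, candidate T, module B), chunk S2A -/

namespace Pool.Agent.H3B

open Finset
open Pool.Agent.H44W (ee TF cut)

theorem s2a_icc (m : ℕ) : ((Icc (-(m : ℤ)) m).card : ℝ) = 2 * m + 1 := by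
  rw [Int.card_Icc]
  have h1 : ((m : ℤ) + 1 - -(m : ℤ)).toNat = 2 * m + 1 := by omega
  rw [h1]
  push_cast
  ring

theorem s2a_union {α : Type*} [DecidableEq α] (A B : Finset α) (f : α → ℝ) (hf : ∀ x, 0 ≤ f x) :
    ∑ x ∈ A ∪ B, f x ≤ ∑ x ∈ A, f x + ∑ x ∈ B, f x := by
  rw [← Finset.sum_union_inter]
  have : 0 ≤ ∑ x ∈ A ∩ B, f x := Finset.sum_nonneg fun x _ => hf x
  linarith

/-- Chunk S2A (M). Counting. PROOF. C₁ = A + 5: P = the pairs (j, k) with K / D^(A+5) ≤ |j| < K, k ≠ 0, K² |k| ≤ 2 n, ‖v j k‖ ≥ K M n / D^(A+6). There are at most 4 n/K² values k ≠ 0 with K² |k| ≤ 2 n and (with k = 0)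
at most 4 n/K² + 1 ≤ 5 n/K². Pairs with |j| < K/D^(A+5): at most 2 K/D^(A+5) + 1 ≤ 3 K/D^(A+5) values of j (K ≥ D^C), contribution ≤ 3 K/D^(A+5) · 5 n/K² · 6 K M n = 90 M n²/D^(A+5) ... take C₁ larger if necessary
(90 ≤ 2^7): use |j| ≥ K/D^(A+9): contribution ≤ 90 M n²/D^(A+9) ≤ M n²/(4 D^A). Pairs with k = 0: ≤ 2 K · 6 K M n = 12 K² M n ≤ M n²/(4 D^A) if K² D^(A+6) ≤ n. Pairs with small v: at most 2K · 4n/K² = 8 n/K pairs,
contribution ≤ (8 n/K) K M n/D^(A+5) ≤ M n²/(4 D^A). The rest is ≥ M n²/(4 D^A), each term ≤ 6 K M n: card P ≥ n/(24 K D^A) ≥ n/(K D^(A+5)). So C₁ = A + 9 works everywhere. (M ≥ 1.) -/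
theorem step2a (A : ℕ) : ∃ C₁ C : ℕ, ∀ (n K M : ℕ) (D : ℝ), 2 ≤ D → 1 ≤ M → D ^ C ≤ K → (K : ℝ) ^ 2 * D ^ C ≤ n → ∀ v : ℤ → ℤ → ℂ,
    (∀ j k, ‖v j k‖ ≤ 6 * K * M * n) → (∀ j k, 2 * (n : ℤ) < K ^ 2 * |k| → v j k = 0) →
    (M : ℝ) * n ^ 2 / D ^ A ≤ ∑ j ∈ Ioo (-(K : ℤ)) K, ∑ k ∈ Icc (-(2 * n : ℤ)) (2 * n), ‖v j k‖ →
    ∃ P : Finset (ℤ × ℤ), (n : ℝ) / (K * D ^ C₁) ≤ P.card ∧
      ∀ p ∈ P, (K : ℝ) / D ^ C₁ ≤ |(p.1 : ℝ)| ∧ |p.1| < K ∧ p.2 ≠ 0 ∧ (K : ℝ) * M * n / D ^ C₁ ≤ ‖v p.1 p.2‖ := by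
  classical
  refine ⟨A + 8, A + 8, ?_⟩
  intro n K M D hD hM hK hn v hv hv0 hsum
  obtain ⟨c, hc⟩ : ∃ c, c = A + 8 := ⟨_, rfl⟩
  rw [← hc] at hK hn ⊢
  have hD0 : 0 < D := by linarith
  have hD1 : 1 ≤ D := by linarith
  have hDc : 0 < D ^ c := by positivity
  have hDA : 0 < D ^ A := by positivity
  have hDc1 : 1 ≤ D ^ c := one_le_pow₀ hD1
  have hD8 : (256 : ℝ) ≤ D ^ 8 := by
    calc (256 : ℝ) = 2 ^ 8 := by norm_num
      _ ≤ D ^ 8 := pow_le_pow_left₀ (by norm_num) hD 8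
  have hDcA : D ^ c = D ^ A * D ^ 8 := by rw [hc, pow_add]
  have hK1 : (1 : ℝ) ≤ K := hDc1.trans hK
  have hK0 : (0 : ℝ) < K := by linarith
  have hM1 : (1 : ℝ) ≤ M := by exact_mod_cast hM
  have hM0 : (0 : ℝ) < M := by linarith
  have hnK : (K : ℝ) ^ 2 ≤ n := by
    calc (K : ℝ) ^ 2 = (K : ℝ) ^ 2 * 1 := (mul_one _).symm
      _ ≤ (K : ℝ) ^ 2 * D ^ c := mul_le_mul_of_nonneg_left hDc1 (by positivity)
      _ ≤ n := hn
  have hn1 : (1 : ℝ) ≤ n := by nlinarith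
  have hn0 : (0 : ℝ) < n := by linarith
  obtain ⟨E, hE⟩ : ∃ E : ℝ, E = 6 * K * M * n := ⟨_, rfl⟩
  have hE0 : 0 ≤ E := by rw [hE]; positivity
  rw [← hE] at hv
  set J : Finset ℤ := Ioo (-(K : ℤ)) K with hJ
  set I : Finset ℤ := Icc (-(2 * n : ℤ)) (2 * n) with hI
  set W : Finset ℤ := I.filter (fun k => (K : ℤ) ^ 2 * |k| ≤ 2 * n) with hW
  set J' : Finset ℤ := J.filter (fun j => |(j : ℝ)| < K / D ^ c) with hJ'
  set P : Finset (ℤ × ℤ) := (J ×ˢ W).filter (fun p => (K : ℝ) / D ^ c ≤ |(p.1 : ℝ)| ∧ p.2 ≠ 0 ∧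
    (K : ℝ) * M * n / D ^ c ≤ ‖v p.1 p.2‖) with hP
  set Rs : Finset (ℤ × ℤ) := (J ×ˢ W).filter (fun p => ‖v p.1 p.2‖ < (K : ℝ) * M * n / D ^ c) with hR
  -- cardinalities
  have cJ : (J.card : ℝ) ≤ 2 * K := by
    rw [hJ, Int.card_Ioo]
    have h1 : ((K : ℤ) - -(K : ℤ) - 1).toNat ≤ 2 * K := by omega
    exact_mod_cast h1
  have cW : (W.card : ℝ) ≤ 5 * n / (K : ℝ) ^ 2 := by
    have h1 : W ⊆ Icc (-((2 * n / K ^ 2 : ℕ) : ℤ)) ((2 * n / K ^ 2 : ℕ) : ℤ) := by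
      intro k hk
      have h2 := (mem_filter.1 hk).2
      have hKn : 0 < K ^ 2 := by
        have : 0 < K := by exact_mod_cast hK0
        positivity
      have h3 : K ^ 2 * k.natAbs ≤ 2 * n := by
        have h4 : ((K ^ 2 * k.natAbs : ℕ) : ℤ) ≤ ((2 * n : ℕ) : ℤ) := by
          push_cast
          exact h2
        exact_mod_cast h4
      have h4 : k.natAbs ≤ 2 * n / K ^ 2 := by
        rw [Nat.le_div_iff_mul_le hKn, mul_comm]
        exact h3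
      rw [mem_Icc, ← abs_le]
      rw [Int.abs_eq_natAbs]
      exact_mod_cast h4
    have h2 : (W.card : ℝ) ≤ 2 * ((2 * n / K ^ 2 : ℕ) : ℝ) + 1 := by
      rw [← s2a_icc]
      exact_mod_cast card_le_card h1
    have h3 : ((2 * n / K ^ 2 : ℕ) : ℝ) ≤ (2 * n) / (K : ℝ) ^ 2 := by
      have := @Nat.cast_div_le ℝ _ _ _ (2 * n) (K ^ 2)
      push_cast at this
      exact this
    have h4 : 1 ≤ (n : ℝ) / (K : ℝ) ^ 2 := by
      rw [le_div_iff₀ (by positivity), one_mul]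
      exact hnK
    calc (W.card : ℝ) ≤ 2 * ((2 * n) / (K : ℝ) ^ 2) + (n : ℝ) / (K : ℝ) ^ 2 := by linarith
      _ = 5 * n / (K : ℝ) ^ 2 := by ring
  have cJ' : (J'.card : ℝ) ≤ 3 * K / D ^ c := by
    have h1 : J' ⊆ Icc (-((⌊(K : ℝ) / D ^ c⌋₊ : ℕ) : ℤ)) ((⌊(K : ℝ) / D ^ c⌋₊ : ℕ) : ℤ) := by
      intro j hj
      have h2 := (mem_filter.1 hj).2
      have h3 : j.natAbs ≤ ⌊(K : ℝ) / D ^ c⌋₊ := by
        refine Nat.le_floor ?_
        rw [Nat.cast_natAbs, Int.cast_abs]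
        exact h2.le
      rw [mem_Icc, ← abs_le, Int.abs_eq_natAbs]
      exact_mod_cast h3
    have h2 : (J'.card : ℝ) ≤ 2 * ((⌊(K : ℝ) / D ^ c⌋₊ : ℕ) : ℝ) + 1 := by
      rw [← s2a_icc]
      exact_mod_cast card_le_card h1
    have h3 : ((⌊(K : ℝ) / D ^ c⌋₊ : ℕ) : ℝ) ≤ (K : ℝ) / D ^ c := Nat.floor_le (by positivity)
    have h4 : 1 ≤ (K : ℝ) / D ^ c := by
      rw [le_div_iff₀ hDc, one_mul]
      exact hK
    calc (J'.card : ℝ) ≤ 2 * ((K : ℝ) / D ^ c) + (K : ℝ) / D ^ c := by linarith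
      _ = 3 * K / D ^ c := by ring
  -- the sum is over the union
  have hcov : ∑ j ∈ J, ∑ k ∈ I, ‖v j k‖ ≤
      ∑ p ∈ P ∪ ((J' ×ˢ W) ∪ ((J ×ˢ {0}) ∪ Rs)), ‖v p.1 p.2‖ := by
    rw [← Finset.sum_product']
    rw [← Finset.sum_filter_ne_zero (s := J ×ˢ I) (f := fun p : ℤ × ℤ => ‖v p.1 p.2‖)]
    refine Finset.sum_le_sum_of_subset_of_nonneg (fun p hp' => ?_) (fun p _ _ => norm_nonneg _)
    obtain ⟨hp, hne⟩ := mem_filter.1 hp'
    obtain ⟨hp1, hp2⟩ := mem_product.1 hp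
    have hpW : p.2 ∈ W := by
      refine mem_filter.2 ⟨hp2, ?_⟩
      by_contra h
      push Not at h
      exact hne (by rw [hv0 _ _ h, norm_zero])
    by_cases h1 : |((p.1 : ℤ) : ℝ)| < K / D ^ c
    · exact mem_union_right _ (mem_union_left _ (mem_product.2 ⟨mem_filter.2 ⟨hp1, h1⟩, hpW⟩))
    by_cases h2 : p.2 = 0
    · exact mem_union_right _ (mem_union_right _ (mem_union_left _
        (mem_product.2 ⟨hp1, mem_singleton.2 h2⟩)))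
    by_cases h3 : ‖v p.1 p.2‖ < (K : ℝ) * M * n / D ^ c
    · exact mem_union_right _ (mem_union_right _ (mem_union_right _
        (mem_filter.2 ⟨mem_product.2 ⟨hp1, hpW⟩, h3⟩)))
    · exact mem_union_left _ (mem_filter.2 ⟨mem_product.2 ⟨hp1, hpW⟩, not_lt.1 h1, h2, not_lt.1 h3⟩)
  have hnn : ∀ p : ℤ × ℤ, 0 ≤ ‖v p.1 p.2‖ := fun p => norm_nonneg _
  have hsplit : ∑ p ∈ P ∪ ((J' ×ˢ W) ∪ ((J ×ˢ {0}) ∪ Rs)), ‖v p.1 p.2‖ ≤
      ∑ p ∈ P, ‖v p.1 p.2‖ + (∑ p ∈ J' ×ˢ W, ‖v p.1 p.2‖ + (∑ p ∈ J ×ˢ ({0} : Finset ℤ), ‖v p.1 p.2‖ +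
        ∑ p ∈ Rs, ‖v p.1 p.2‖)) := by
    refine (s2a_union _ _ _ hnn).trans (add_le_add le_rfl ?_)
    refine (s2a_union _ _ _ hnn).trans (add_le_add le_rfl ?_)
    exact s2a_union _ _ _ hnn
  have hbd : ∀ (S : Finset (ℤ × ℤ)) (e : ℝ), (∀ p ∈ S, ‖v p.1 p.2‖ ≤ e) →
      ∑ p ∈ S, ‖v p.1 p.2‖ ≤ S.card * e := by
    intro S e h
    refine (Finset.sum_le_sum h).trans (le_of_eq ?_)
    rw [Finset.sum_const, nsmul_eq_mul]
  have b1 := hbd P E fun p _ => hv _ _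
  have b2 : ∑ p ∈ J' ×ˢ W, ‖v p.1 p.2‖ ≤ 90 * (M * n ^ 2 / D ^ c) := by
    refine (hbd (J' ×ˢ W) E fun p _ => hv _ _).trans ?_
    rw [card_product, Nat.cast_mul]
    calc (J'.card : ℝ) * W.card * E ≤ (3 * K / D ^ c) * (5 * n / (K : ℝ) ^ 2) * E := by
          refine mul_le_mul_of_nonneg_right ?_ hE0
          exact mul_le_mul cJ' cW (Nat.cast_nonneg _) (by positivity)
      _ = 90 * (M * n ^ 2 / D ^ c) := by
          rw [hE]
          field_simp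
          ring
  have b3 : ∑ p ∈ J ×ˢ ({0} : Finset ℤ), ‖v p.1 p.2‖ ≤ 12 * (M * n ^ 2 / D ^ c) := by
    refine (hbd (J ×ˢ ({0} : Finset ℤ)) E fun p _ => hv _ _).trans ?_
    rw [card_product, card_singleton, mul_one]
    have h1 : (K : ℝ) ^ 2 ≤ n / D ^ c := by
      rw [le_div_iff₀ hDc]
      exact hn
    calc (J.card : ℝ) * E ≤ (2 * K) * E := mul_le_mul_of_nonneg_right cJ hE0
      _ = 12 * (M * n * (K : ℝ) ^ 2) := by
          rw [hE]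
          ring
      _ ≤ 12 * (M * n * (n / D ^ c)) := by
          refine mul_le_mul_of_nonneg_left ?_ (by norm_num)
          exact mul_le_mul_of_nonneg_left h1 (by positivity)
      _ = 12 * (M * n ^ 2 / D ^ c) := by ring
  have b4 : ∑ p ∈ Rs, ‖v p.1 p.2‖ ≤ 10 * (M * n ^ 2 / D ^ c) := by
    refine (hbd Rs ((K : ℝ) * M * n / D ^ c) fun p hp => (mem_filter.1 hp).2.le).trans ?_
    have h1 : (Rs.card : ℝ) ≤ (2 * K) * (5 * n / (K : ℝ) ^ 2) := by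
      have h2 : (Rs.card : ℝ) ≤ (J ×ˢ W).card := by exact_mod_cast card_filter_le _ _
      rw [card_product, Nat.cast_mul] at h2
      exact h2.trans (mul_le_mul cJ cW (Nat.cast_nonneg _) (by positivity))
    calc (Rs.card : ℝ) * ((K : ℝ) * M * n / D ^ c)
        ≤ (2 * K) * (5 * n / (K : ℝ) ^ 2) * ((K : ℝ) * M * n / D ^ c) :=
          mul_le_mul_of_nonneg_right h1 (by positivity)
      _ = 10 * (M * n ^ 2 / D ^ c) := by
          field_simp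
          ring
  have hX : 112 * ((M : ℝ) * n ^ 2 / D ^ c) ≤ 1 / 2 * (M * n ^ 2 / D ^ A) := by
    rw [hDcA, ← div_div]
    obtain ⟨Y, hY⟩ : ∃ Y : ℝ, Y = (M : ℝ) * n ^ 2 / D ^ A := ⟨_, rfl⟩
    have hY0 : 0 ≤ Y := by rw [hY]; positivity
    rw [← hY, mul_div_assoc', div_le_iff₀ (by positivity)]
    nlinarith
  have hfin : 1 / 2 * ((M : ℝ) * n ^ 2 / D ^ A) ≤ P.card * E := by linarith
  refine ⟨P, ?_, fun p hp => ?_⟩
  · have h1 : (n : ℝ) / (12 * K * D ^ A) ≤ P.card := by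
      have h2 : (n : ℝ) / (12 * K * D ^ A) * E = 1 / 2 * ((M : ℝ) * n ^ 2 / D ^ A) := by
        rw [hE]
        field_simp
        ring
      rw [← h2] at hfin
      exact le_of_mul_le_mul_right hfin (by rw [hE]; positivity)
    refine le_trans ?_ h1
    refine div_le_div_of_nonneg_left hn0.le (by positivity) ?_
    rw [hDcA]
    have h3 : 0 < K * D ^ A := by positivity
    nlinarith
  · obtain ⟨h1, h2, h3, h4⟩ := mem_filter.1 hp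
    have h5 := mem_Ioo.1 (mem_product.1 h1).1
    exact ⟨h2, abs_lt.2 h5, h3, h4⟩

end Pool.Agent.H3B
end
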