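import Mathlib
import Pool.Agent.Lib.H59M.M2.M021

/-! Merged copies (to shorten the build) of Lib.H3B.PC. -/

-- from Lib.H3B.PC
section

/-! # H3B (MP_443e5f, candidate T, module B), chunk PC -/

namespace Pool.Agent.H3B

open Finset
open Pool.Agent.H44W (ee TF cut)

theorem pc_per {p : ℤ → ℂ} {m : ℕ} (hper : ∀ y, p (y + m) = p y) (r v : ℤ) : p (r + m * v) = p r := by
  have h1 : Function.Periodic p (m : ℤ) := hper
  have h2 := h1.int_mul v r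
  rw [mul_comm (m : ℤ) v]
  exact h2

theorem pc_split {N : ℕ} {u p : ℤ → ℂ} (h : Sp N u) {m : ℕ} (hm : 0 < m) (hper : ∀ y, p (y + m) = p y) :
    ∑' y, u y * p y = ∑ r ∈ range m, (∑' v : ℤ, u (r + m * v)) * p r := by
  have h1 := tsum_res (h.mul_right p) hm
  rw [h1]
  refine sum_congr rfl fun r _ => ?_
  rw [← tsum_mul_right]
  refine tsum_congr fun v => ?_
  rw [pc_per hper]

/-- Chunk PC (S/M). PROOF. tsum_res for u p: ∑' v, u (r + m v) p (r + m v) = p r ∑' v, u (r + m v) (p is periodic: p (r + m v) = p r for all integers v, induction). Norm at most the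
sum over r of ‖∑' v, u (r + m v)‖; Cauchy-Schwarz (sq_sum_le_card_mul_sum_sq). -/
theorem PC {N : ℕ} {u p : ℤ → ℂ} (h : Sp N u) {m : ℕ} (hm : 0 < m) (hp : ∀ y, ‖p y‖ ≤ 1) (hper : ∀ y, p (y + m) = p y) :
    ‖∑' y, u y * p y‖ ^ 2 ≤ m * E m u := by
  rw [pc_split h hm hper]
  have h1 : ‖∑ r ∈ range m, (∑' v : ℤ, u (r + m * v)) * p r‖ ≤ ∑ r ∈ range m, ‖∑' v : ℤ, u (r + m * v)‖ := by
    refine norm_sum_le_of_le _ fun r _ => ?_
    rw [norm_mul]
    exact mul_le_of_le_one_right (norm_nonneg _) (hp _)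
  have h2 := sq_sum_le_card_mul_sum_sq (s := range m) (f := fun r : ℕ => ‖∑' v : ℤ, u (r + m * v)‖)
  rw [card_range] at h2
  refine le_trans (pow_le_pow_left₀ (norm_nonneg _) h1 2) ?_
  exact h2

theorem pc_card {N m : ℕ} (hm : 0 < m) (hmN : m ≤ N) (y : ℤ) :
    (m : ℤ) * ((Icc (-((N + y) / (m : ℤ))) ((N - y) / (m : ℤ))).card : ℤ) ≤ 3 * N := by
  have hm' : (0 : ℤ) < m := by exact_mod_cast hm
  have h1 : (m : ℤ) * ((N - y) / (m : ℤ)) ≤ N - y := Int.mul_ediv_self_le hm'.ne'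
  have h2 : (m : ℤ) * ((N + y) / (m : ℤ)) ≤ N + y := Int.mul_ediv_self_le hm'.ne'
  rw [Int.card_Icc]
  rcases le_or_gt 0 ((N - y) / (m : ℤ) + 1 - -((N + y) / (m : ℤ))) with h3 | h3
  · rw [Int.toNat_of_nonneg h3]
    have h4 : (m : ℤ) * ((N - y) / (m : ℤ) + 1 - -((N + y) / (m : ℤ))) = (m : ℤ) * ((N - y) / (m : ℤ)) + (m : ℤ) * ((N + y) / (m : ℤ)) + m := by ring
    rw [h4]
    have h5 : (m : ℤ) ≤ N := by exact_mod_cast hmN
    linarith
  · rw [Int.toNat_of_nonpos h3.le]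
    simp

theorem pc_bound {N : ℕ} {u : ℤ → ℂ} (h : Sp N u) (hu : ∀ y, ‖u y‖ ≤ 1) {m : ℕ} (hm : 0 < m) (hmN : m ≤ N) (y : ℤ) :
    (m : ℝ) * ‖∑' v : ℤ, u (y + m * v)‖ ≤ 3 * N := by
  have hm' : (0 : ℤ) < m := by exact_mod_cast hm
  have h1 : ∑' v : ℤ, u (y + m * v) = ∑ v ∈ Icc (-((N + y) / (m : ℤ))) ((N - y) / (m : ℤ)), u (y + m * v) := by
    refine tsum_eq_sum fun v hv => ?_
    by_contra h0
    apply hv
    have h2 := abs_le.1 (h _ h0)
    rw [mem_Icc]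
    constructor
    · rw [neg_le, Int.le_ediv_iff_mul_le hm']
      have h3 : -v * (m : ℤ) = -(m * v) := by ring
      rw [h3]
      linarith [h2.1]
    · rw [Int.le_ediv_iff_mul_le hm']
      have h3 : v * (m : ℤ) = m * v := by ring
      rw [h3]
      linarith [h2.2]
  rw [h1]
  have h2 : ‖∑ v ∈ Icc (-((N + y) / (m : ℤ))) ((N - y) / (m : ℤ)), u (y + m * v)‖ ≤ (Icc (-((N + y) / (m : ℤ))) ((N - y) / (m : ℤ))).card := by
    refine (norm_sum_le_of_le _ fun v _ => hu _).trans ?_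
    simp
  have h3 : (m : ℝ) * ((Icc (-((N + y) / (m : ℤ))) ((N - y) / (m : ℤ))).card : ℝ) ≤ 3 * N := by
    exact_mod_cast pc_card hm hmN y
  exact (mul_le_mul_of_nonneg_left h2 (Nat.cast_nonneg _)).trans h3

/-- Chunk PX (S/M). PROOF. p y = (m / (3 N)) conj (∑' v, u (y + m v)). Periodic: v ↦ v + 1 (Equiv.tsum_eq). Norm at most 1: at most 2 N / m + 1 ≤ 3 N / m of the y + m v lie in [-N, N].
∑' y, u y p y = ∑ r, ∑' v, u (r + m v) p (r + m v) (tsum_res) = ∑ r, p r ∑' v, u (r + m v) = (m / (3 N)) ∑ r, ‖∑' v, u (r + m v)‖². -/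
theorem PX {N : ℕ} {u : ℤ → ℂ} (h : Sp N u) (hu : ∀ y, ‖u y‖ ≤ 1) {m : ℕ} (hm : 0 < m) (hmN : m ≤ N) :
    ∃ p : ℤ → ℂ, (∀ y, ‖p y‖ ≤ 1) ∧ (∀ y, p (y + m) = p y) ∧
      ∑' y, u y * p y = (((m : ℝ) / (3 * N) * E m u : ℝ) : ℂ) := by
  have hN : 0 < N := lt_of_lt_of_le hm hmN
  have hN' : (0 : ℝ) < 3 * N := by positivity
  have hper : ∀ y : ℤ, (fun y : ℤ => (((m : ℝ) / (3 * N) : ℝ) : ℂ) * (starRingEnd ℂ) (∑' v : ℤ, u (y + m * v))) (y + m) =
      (fun y : ℤ => (((m : ℝ) / (3 * N) : ℝ) : ℂ) * (starRingEnd ℂ) (∑' v : ℤ, u (y + m * v))) y := by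
    intro y
    simp only []
    have h1 : ∑' v : ℤ, u (y + m + m * v) = ∑' v : ℤ, u (y + m * v) := by
      have h2 := (Equiv.addRight (1 : ℤ)).tsum_eq (fun v : ℤ => u (y + m * v))
      rw [← h2]
      refine tsum_congr fun v => ?_
      have h3 : y + m + m * v = y + m * ((Equiv.addRight (1 : ℤ)) v) := by
        simp only [Equiv.coe_addRight]
        ring
      rw [h3]
    rw [h1]
  refine ⟨fun y : ℤ => (((m : ℝ) / (3 * N) : ℝ) : ℂ) * (starRingEnd ℂ) (∑' v : ℤ, u (y + m * v)), ?_, hper, ?_⟩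
  · intro y
    rw [norm_mul, RCLike.norm_conj, Complex.norm_real, Real.norm_of_nonneg (by positivity), div_mul_eq_mul_div, div_le_one hN']
    exact pc_bound h hu hm hmN y
  · rw [pc_split h hm hper]
    unfold E
    rw [Complex.ofReal_mul, Complex.ofReal_sum, mul_sum]
    refine sum_congr rfl fun r _ => ?_
    have h1 : (∑' v : ℤ, u (r + m * v)) * (starRingEnd ℂ) (∑' v : ℤ, u (r + m * v)) = ((‖∑' v : ℤ, u (r + m * v)‖ ^ 2 : ℝ) : ℂ) := by
      rw [Complex.mul_conj, Complex.normSq_eq_norm_sq]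
    rw [← h1]
    ring

end Pool.Agent.H3B
end
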