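import Pool.Agent.Lib.H59M.M2.M001
import Pool.Agent.Lib.H59M.M2.M016
import Pool.Agent.Lib.H59M.M2.M021

/-! Merged copies (to shorten the build) of Lib.H5C.Defs, Lib.HUK.Defs, Lib.HUK.BDefs, Lib.HUK.P0, Lib.HUK.E0, Lib.HUK.E1, Lib.HUK.K0, Lib.HUK.KA1. -/

-- from Lib.H5C.Defs
section

/-!
# Project H5C (MP_f9960f_nt, chains of large gaps): definitions

See `PROOF.md` in this folder. Analytic objects (`PC`, `p0`, `FL`, `Mu`, `v`, `lp`) are those of
`Lib/H68T/Defs.lean`, sieve objects (`Sys`, `noJ`, `cp`, `cc`, `bw`, `ZZ`, ..) those of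
`Lib/H56G/Defs.lean`.
-/

open Finset Filter
open Pool.Agent.Lib.H68T (PC p0 FL Mu v lp)
open Pool.Agent.Lib.H56G

namespace Pool.Agent.Lib.H5C

noncomputable section

/-- Primitive characters with their conductors. -/
abbrev PCh : Type := Σ r : ℕ, DirichletCharacter ℂ r

/-! ## Analytic side -/

open Classical in
/-- The primitive characters `≠ 1` of conductor `≤ Q`. -/
def PC1 (Q : ℕ) : Finset PCh := (PC Q).filter (fun p => p ≠ p0)

open Classical in
/-- The bad characters: the Möbius polynomial is large at some `|t| ≤ (log X)^10`. -/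
def Bad (Q X : ℕ) : Finset PCh :=
  (PC1 Q).filter (fun p => ∃ t : ℝ, |t| ≤ (Real.log X) ^ 10 ∧ ((Real.log X) ^ 10)⁻¹ < ‖Mu X p t‖)





/-! ## Characters of the sieve primes -/

variable {ι J : Type} [Fintype ι] [DecidableEq ι] [Fintype J] [DecidableEq J]




instance (s : Sys ι J) (i : ι) : NeZero (s.pr i) := ⟨(s.prime i).ne_zero⟩





/-! ## Weights -/

/-- The weights `θ bw`. -/
def tb (s : Sys ι J) (z θ : ℝ) (A : Finset ι) : ℝ := θ * bw s z A

end

end Pool.Agent.Lib.H5C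
end

-- from Lib.HUK.Defs
section

/-!
# Project HUK: power saving for all Gowers norms of the primes. Definitions for modules A and B

Paper proof: `PROOF.md`. `ee θ = exp(2πiθ)` (`H44W/W0`, rules in `H44W/E1`), `nd x` the distance to the nearest integer
(`H84V/Defs`, with rules).
-/

open Finset

namespace Pool.Agent.HUK

open Pool.Agent.H44W (ee)
open Pool.Agent.Lib.H84V (nd)

noncomputable section

/-- The difference operator `f(y) conj f(y + h)`. -/
def DD {G : Type*} [Add G] (h : G) (f : G → ℂ) : G → ℂ := fun y => f y * (starRingEnd ℂ) (f (y + h))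

/-- Iterated differences. -/
def DL {G : Type*} [Add G] : List G → (G → ℂ) → G → ℂ
  | [], f => f
  | h :: l, f => DL l (DD h f)

/-- The box `(-H, H)^s`. -/
def bxS (s H : ℕ) : Finset (Fin s → ℤ) := Fintype.piFinset fun _ => Ioo (-(H : ℤ)) H

/-- Differences of a function on `ℤ` in the directions `h 0, …, h (s-1)`. -/
def DV {s : ℕ} (h : Fin s → ℤ) (f : ℤ → ℂ) : ℤ → ℂ := DL (List.ofFn h) f

/-- Bounded by `1` and supported in `[-X, X)`. -/
structure Bdd (X : ℕ) (f : ℤ → ℂ) : Prop where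
  le : ∀ y, ‖f y‖ ≤ 1
  sup : ∀ y, y ∉ Ico (-(X : ℤ)) X → f y = 0

/-- `∑_y Δ_h f(y)` for `f` supported in `[-X, X)`. -/
def FF (X : ℕ) {s : ℕ} (h : Fin s → ℤ) (f : ℤ → ℂ) : ℂ := ∑ y ∈ Ico (-(X : ℤ)) X, DV h f y

/-- `∑_{h ∈ ℤ^s} ∑_y Δ_h f(y)` (all `h` with a non-zero term) for `f` supported in `[-X, X)`: the power `2^s` of the
unnormalised `U^s` norm. -/
def GG (X s : ℕ) (f : ℤ → ℂ) : ℝ := (∑ h ∈ bxS s (2 * X), FF X h f).re

/-- The Fejer weight. -/
def fw (M : ℕ) (t : ℤ) : ℝ := max 0 (1 - |(t : ℝ)| / M)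

/-- Product of Fejer weights. -/
def FW (M : ℕ) {s : ℕ} (t : Fin s → ℤ) : ℝ := ∏ i, fw M (t i)

/-- Normalised `U^s` norm (power `2^s`, times `X`) along the progressions `d [0, M)`, Fejer weights. -/
def NU (X s M : ℕ) (d : ℤ) (f : ℤ → ℂ) : ℝ :=
  (∑ t ∈ bxS s M, ((FW M t : ℝ) : ℂ) * FF X (fun i => d * t i) f).re / (M : ℝ) ^ s

/-- Normalised average of differences over mixed progressions: the entry `(m, d)` stands for the differences `d t`,
`|t| < m`, with Fejer weights. `NU X s M d f = (MQ X (List.replicate s (M, d)) f).re`. -/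
def MQ (X : ℕ) : List (ℕ × ℤ) → (ℤ → ℂ) → ℂ
  | [], f => ∑ y ∈ Ico (-(X : ℤ)) X, f y
  | p :: l, f => (∑ t ∈ Ioo (-(p.1 : ℤ)) p.1, ((fw p.1 t : ℝ) : ℂ) * MQ X l (DD (p.2 * t) f)) / p.1

/-- The weights of the elimination lemma without absolute values. -/
def WT (H : ℕ) {r : ℕ} (j : Fin r → ℤ) : ℝ := ∏ i : Fin r, fw H (j i) ^ (2 ^ (r - 1 - (i : ℕ)))

/-- Number of coordinates equal to `true`. -/
def sg {s : ℕ} (ω : Fin s → Bool) : ℕ := (univ.filter fun i => ω i = true).card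

/-- Complex conjugation iterated `n` times. -/
def cj (n : ℕ) (z : ℂ) : ℂ := if Even n then z else (starRingEnd ℂ) z

/-- The vertex `ω · h`. -/
def vt {G : Type*} [AddCommMonoid G] {s : ℕ} (ω : Fin s → Bool) (h : Fin s → G) : G := ∑ i, if ω i then h i else 0

/-! ### Quasi-periodic weights -/

/-- The product of all vertices `a + ω · j`. -/
def Qf : List ℤ → ℤ → ℤ
  | [], a => a
  | j :: l, a => Qf l a * Qf l (a + j)

/-- `Qf` times the alternating sum of the `1 / (a + ω · j)`. -/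
def Df : List ℤ → ℤ → ℤ
  | [], _ => 1
  | j :: l, a => Df l a * Qf l (a + j) - Df l (a + j) * Qf l a

/-- All vertices `a + ω · j` are in `(K, 2K]`. -/
def Vt (K : ℕ) : List ℤ → ℤ → Prop
  | [], a => (K : ℤ) < a ∧ a ≤ 2 * K
  | j :: l, a => Vt K l a ∧ Vt K l (a + j)

/-- Quasi-periodic weights `c (z, a)`: a translation of `z` by `a k` multiplies by `ee (ψ k)`, up to `k / H`. -/
structure QP (X K H : ℕ) (ψ : ℝ) (c : ℤ × ℤ → ℂ) : Prop where
  le : ∀ p, ‖c p‖ ≤ 1
  supz : ∀ z a : ℤ, z ∉ Ico (-(3 * X : ℤ)) (3 * X) → c (z, a) = 0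
  supa : ∀ z a : ℤ, ¬ ((K : ℤ) < a ∧ a ≤ 2 * K) → c (z, a) = 0
  qp : ∀ (z a : ℤ) (k : ℕ), (K : ℤ) < a → a ≤ 2 * K → ‖c (z + a * k, a) - ee (ψ * k) * c (z, a)‖ ≤ k / H

/-- Mean square of the averages of `g` times a phase over progressions of length `M` and difference `a`. -/
def TQ (X M : ℕ) (a : ℤ) (ψ : ℝ) (g : ℤ → ℂ) : ℝ :=
  ∑ z ∈ Ico (-(2 * X : ℤ)) (2 * X), ‖(∑ j ∈ range M, g (z + a * j) * ee (ψ * j)) / M‖ ^ 2

/-- The dual function of the forms `n - (k - j) h`, `j < k`, `f j` supported in `[-X, X)`, `k ≥ 2`. -/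
def Psi (X k : ℕ) (f : ℕ → ℤ → ℂ) (n : ℤ) : ℂ :=
  ∑ h ∈ Ioo (-(2 * X : ℤ)) (2 * X), ∏ j ∈ range k, f j (n - ((k : ℤ) - j) * h)

/-- The exponent up to which factors are treated as small in type II sums for `k + 1` forms. -/
def cs (k : ℕ) : ℝ := (1 / 2) ^ (2 ^ (k - 1) + 4)

/-- **Interface of module A: type II sums with a small factor.** -/
def TII (k : ℕ) : Prop := ∀ θ κ : ℝ, 0 < θ → 0 < κ → ∃ κ' ε : ℝ, 0 < κ' ∧ 0 < ε ∧ ∃ X0 : ℕ, ∀ X : ℕ, X0 ≤ X →
  ∀ α β : ℕ → ℂ, (∀ a, ‖α a‖ ≤ (X : ℝ) ^ ε) → (∀ b, ‖β b‖ ≤ (X : ℝ) ^ ε) →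
  (∀ a : ℕ, α a ≠ 0 → (X : ℝ) ^ θ ≤ a ∧ (a : ℝ) ≤ (X : ℝ) ^ cs k) →
  ∀ f : ℕ → ℤ → ℂ, (∀ j, j < k → Bdd X (f j)) → GG X (k - 1) (f 0) ≤ (X : ℝ) ^ (k - κ) →
  ‖∑ a ∈ Icc 1 (2 * k * X), ∑ b ∈ Icc 1 (2 * k * X), α a * β b * Psi X k f ((a : ℤ) * b)‖ ≤ (X : ℝ) ^ (2 - κ')

end

end Pool.Agent.HUK
end

-- from Lib.HUK.BDefs
section

/-!
# Project HUK, module B: replacing a smooth variable by a tiny prime times a smooth variable (definitions)

`PA A` = the primes in `(A, 4A]` (not `(A, 2A]`: Chebyshev of Mathlib is enough), `SA A` = the sum of their reciprocals.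
For `d ≥ 1`: `1 = sml d + ∑_{p e = d} uu p * vv e + eta d`.
-/

open Finset

namespace Pool.Agent.HUK

noncomputable section

/-- The primes in `(A, 4A]`. -/
def PA (A : ℕ) : Finset ℕ := (Ioc A (4 * A)).filter Nat.Prime

/-- The sum of the reciprocals of these primes. -/
def SA (A : ℕ) : ℝ := ∑ p ∈ PA A, 1 / (p : ℝ)

/-- One prime: `1_{pD < dA} (1_{p ∣ d} - 1/p)`. -/
def eprime (A D p d : ℕ) : ℝ := if p * D < d * A then ((if p ∣ d then 1 else 0) - 1 / (p : ℝ)) else 0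

/-- The error `η = ℓ - ν`, supported on `d > D`. -/
def eta (A D d : ℕ) : ℝ := -(1 / SA A) * ∑ p ∈ PA A, eprime A D p d

/-- The smooth cutoff `ℓ`: `0` for `d ≤ D`, `1` for `d > 4 D`. -/
def ell (A D d : ℕ) : ℝ := (1 / SA A) * ∑ p ∈ PA A, if p * D < d * A then 1 / (p : ℝ) else 0

/-- `s = 1 - ℓ`, supported on `d ≤ 4 D`, values in `[0,1]`. -/
def sml (A D d : ℕ) : ℝ := 1 - ell A D d

/-- `u = S⁻¹ 1_P`. -/
def uu (A p : ℕ) : ℝ := if p ∈ PA A then 1 / SA A else 0

/-- `v(e) = 1` for `e > D / A`. -/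
def vv (A D e : ℕ) : ℝ := if D < e * A then 1 else 0

/-- One prime, on the integers, cut to the interval `(lo, hi]`. -/
def gp (A D p : ℕ) (lo hi : ℤ) (d : ℤ) : ℝ :=
  if lo < d ∧ d ≤ hi ∧ (p : ℤ) * D < d * A then ((if (p : ℤ) ∣ d then 1 else 0) - 1 / (p : ℝ)) else 0

/-- `η` on the integers, cut to `(lo, hi]`. -/
def ge (A D : ℕ) (lo hi : ℤ) (d : ℤ) : ℝ := -(1 / SA A) * ∑ p ∈ PA A, gp A D p lo hi d

/-- The shift `∑_{i ∈ w} c_i j_i`. -/
def sgb {k : ℕ} (c j : Fin k → ℤ) (w : Finset (Fin k)) : ℤ := ∑ i ∈ w, c i * j i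

/-- The non-empty subsets of `Fin k`. -/
def NE (k : ℕ) : Finset (Finset (Fin k)) := univ.erase ∅

end

end Pool.Agent.HUK
end

-- from Lib.HUK.P0
section

/-!
# Project HUK, chunk P0 (M): rules for iterated differences (only `Defs`)
-/

open Finset

namespace Pool.Agent.HUK

theorem p0_DD_DD {G : Type*} [AddCommMonoid G] (a h : G) (f : G → ℂ) : DD a (DD h f) = DD h (DD a f) := by
  funext y
  simp only [DD, map_mul, Complex.conj_conj, add_right_comm y a h]
  ring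

theorem p0_DD_mul {G : Type*} [AddCommMonoid G] (h : G) (f g : G → ℂ) :
    DD h (fun z => f z * g z) = fun z => DD h f z * DD h g z := by
  funext y
  simp only [DD, map_mul]
  ring

theorem p0_cj_mul (n : ℕ) (a b : ℂ) : cj n (a * b) = cj n a * cj n b := by
  unfold cj
  split_ifs
  · rfl
  · exact map_mul _ _ _

theorem p0_cj_conj (n : ℕ) (a : ℂ) : cj n ((starRingEnd ℂ) a) = cj (n + 1) a := by
  unfold cj
  by_cases h : Even n
  · rw [if_pos h, if_neg (by rw [Nat.even_add_one]; exact not_not.mpr h)]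
  · rw [if_neg h, if_pos (Nat.even_add_one.mpr h), Complex.conj_conj]

theorem p0_sg_cons {s : ℕ} (b : Bool) (ω : Fin s → Bool) :
    sg (Fin.cons b ω : Fin (s + 1) → Bool) = sg ω + (if b then 1 else 0) := by
  unfold sg
  rw [Finset.card_filter, Finset.card_filter, Fin.sum_univ_succ]
  simp only [Fin.cons_zero, Fin.cons_succ]
  rw [add_comm]

theorem p0_vt_cons {G : Type*} [AddCommMonoid G] {s : ℕ} (b : Bool) (ω : Fin s → Bool) (h : Fin (s + 1) → G) :
    vt (Fin.cons b ω : Fin (s + 1) → Bool) h = (if b then h 0 else 0) + vt ω (fun i => h i.succ) := by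
  unfold vt
  rw [Fin.sum_univ_succ]
  simp only [Fin.cons_zero, Fin.cons_succ]

/-- Differences commute. Induction on `l` (commutative addition). -/
theorem DL_DD {G : Type*} [AddCommMonoid G] (l : List G) (h : G) (f : G → ℂ) : DL l (DD h f) = DD h (DL l f) := by
  induction l generalizing f with
  | nil => rfl
  | cons a l ih =>
    change DL l (DD a (DD h f)) = DD h (DL l (DD a f))
    rw [p0_DD_DD, ih]


/-- Multiplicativity. -/
theorem DL_mul {G : Type*} [AddCommMonoid G] (l : List G) (f g : G → ℂ) :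
    DL l (fun z => f z * g z) = fun z => DL l f z * DL l g z := by
  induction l generalizing f g with
  | nil => rfl
  | cons a l ih =>
    change DL l (DD a (fun z => f z * g z)) = fun z => DL l (DD a f) z * DL l (DD a g) z
    rw [p0_DD_mul, ih]

theorem DL_smul {G : Type*} [AddCommMonoid G] (l : List G) (w : ℝ) (f : G → ℂ) :
    DL l (fun z => (w : ℂ) * f z) = fun z => ((w ^ (2 ^ l.length) : ℝ) : ℂ) * DL l f z := by
  induction l generalizing w f with
  | nil =>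
    funext z
    simp only [DL, List.length_nil, pow_zero, pow_one]
  | cons a l ih =>
    change DL l (DD a (fun z => (w : ℂ) * f z)) = _
    have h1 : DD a (fun z => (w : ℂ) * f z) = fun z => ((w ^ 2 : ℝ) : ℂ) * DD a f z := by
      funext z
      simp only [DD, map_mul, Complex.conj_ofReal]
      push_cast
      ring
    rw [h1, ih (w ^ 2) (DD a f)]
    funext z
    change _ = _ * DL l (DD a f) z
    rw [List.length_cons, ← pow_mul, pow_succ, mul_comm 2]

theorem DL_norm {G : Type*} [AddCommMonoid G] (l : List G) (f : G → ℂ) (hf : ∀ z, ‖f z‖ ≤ 1) (z : G) :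
    ‖DL l f z‖ ≤ 1 := by
  induction l generalizing f with
  | nil => exact hf z
  | cons a l ih =>
    refine ih (DD a f) ?_
    intro y
    unfold DD
    rw [norm_mul, RCLike.norm_conj]
    exact mul_le_one₀ (hf y) (norm_nonneg _) (hf _)

/-- If `DL l f z ≠ 0` then `f z ≠ 0`. -/
theorem DL_supp {G : Type*} [AddCommMonoid G] (l : List G) (f : G → ℂ) (z : G) (h : f z = 0) : DL l f z = 0 := by
  induction l generalizing f with
  | nil => exact h
  | cons a l ih =>
    refine ih (DD a f) ?_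
    unfold DD
    rw [h, zero_mul]

/-- Product over the vertices of the cube. Induction on `s`: `List.ofFn_succ`, `DL (h 0 :: l) f = DL l (DD (h 0) f)`, and the vertices of
`{0,1}^(s+1)` are `Fin.cons false ω`, `Fin.cons true ω` (`vt (Fin.cons true ω) h = h 0 + vt ω (Fin.tail h)`, `sg (Fin.cons true ω) = sg ω + 1`). -/
theorem DL_prod {G : Type*} [AddCommMonoid G] (s : ℕ) (h : Fin s → G) (f : G → ℂ) (y : G) :
    DL (List.ofFn h) f y = ∏ ω : Fin s → Bool, cj (sg ω) (f (y + vt ω h)) := by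
  induction s generalizing f y with
  | zero =>
    rw [List.ofFn_zero, Fintype.prod_unique]
    have h1 : ∀ ω : Fin 0 → Bool, sg ω = 0 := by
      intro ω
      unfold sg
      simp
    have h2 : ∀ ω : Fin 0 → Bool, vt ω h = 0 := by
      intro ω
      unfold vt
      simp
    rw [h1, h2, add_zero]
    simp [cj, DL]
  | succ s ih =>
    rw [List.ofFn_succ]
    change DL (List.ofFn fun i : Fin s => h i.succ) (DD (h 0) f) y = _
    rw [ih]
    rw [← (Fin.consEquiv fun _ : Fin (s + 1) => Bool).prod_comp, Fintype.prod_prod_type, Fintype.prod_bool,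
      ← Finset.prod_mul_distrib]
    refine Finset.prod_congr rfl fun ω _ => ?_
    change _ = cj (sg (Fin.cons true ω : Fin (s + 1) → Bool)) (f (y + vt (Fin.cons true ω : Fin (s + 1) → Bool) h)) *
      cj (sg (Fin.cons false ω : Fin (s + 1) → Bool)) (f (y + vt (Fin.cons false ω : Fin (s + 1) → Bool) h))
    rw [p0_sg_cons, p0_sg_cons, p0_vt_cons, p0_vt_cons]
    simp only [if_true, Bool.false_eq_true, if_false, add_zero, zero_add]
    unfold DD
    rw [p0_cj_mul, p0_cj_conj, mul_comm]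
    congr 3
    rw [add_assoc, add_comm (h 0)]

end Pool.Agent.HUK
end

-- from Lib.HUK.E0
section

/-!
# Project HUK, chunk E0 (S/M): one Cauchy-Schwarz step in an additive group (only `Defs`)
-/

open Finset

namespace Pool.Agent.HUK

theorem e0_inv {G : Type*} [AddCommGroup G] (v : G) (g : G → ℂ) (hinv : ∀ z, g (z + v) = g z) (h : ℕ) (z : G) :
    g (z + h • v) = g z := by
  induction h with
  | zero => rw [zero_smul, add_zero]
  | succ n ih => rw [succ_nsmul, ← add_assoc, hinv, ih]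

/-- Substitution of `z + h • v`. -/
theorem e0_shift {G : Type*} [AddCommGroup G] [DecidableEq G] (B B' : Finset G) (H : ℕ) (v : G) (F : G → ℂ)
    (hB : ∀ z, ∀ h : ℕ, h < H → z + h • v ∈ B → z ∈ B') (hF : ∀ z, z ∉ B → F z = 0) (h : ℕ) (hh : h < H) :
    ∑ z ∈ B', F (z + h • v) = ∑ z ∈ B, F z := by
  have h1 : ∑ z ∈ B', F (z + h • v) = ∑ z ∈ B'.filter (fun z => z + h • v ∈ B), F (z + h • v) := by
    rw [Finset.sum_filter]
    refine Finset.sum_congr rfl fun z _ => ?_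
    by_cases h2 : z + h • v ∈ B
    · rw [if_pos h2]
    · rw [if_neg h2, hF _ h2]
  rw [h1]
  refine Finset.sum_nbij' (fun z => z + h • v) (fun w => w - h • v) ?_ ?_ ?_ ?_ ?_
  · intro z hz
    exact (mem_filter.1 hz).2
  · intro w hw
    have e1 : w - h • v + h • v = w := sub_add_cancel _ _
    rw [mem_filter]
    refine ⟨hB _ h hh ?_, ?_⟩
    · rw [e1]
      exact hw
    · rw [e1]
      exact hw
  · intro z _
    exact add_sub_cancel_right _ _
  · intro w _
    exact sub_add_cancel _ _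
  · intro z _
    rfl

theorem e0_card (H : ℕ) (j : ℤ) (hj : j ∈ Ioo (-(H : ℤ)) H) :
    (((range H ×ˢ range H).filter fun p : ℕ × ℕ => (p.2 : ℤ) - p.1 = j).card : ℝ) = H * fw H j := by
  rw [mem_Ioo] at hj
  have h1 : ((range H ×ˢ range H).filter fun p : ℕ × ℕ => (p.2 : ℤ) - p.1 = j).card = (range (H - j.natAbs)).card := by
    refine Finset.card_nbij' (fun p => min p.1 p.2) (fun m => if 0 ≤ j then (m, m + j.natAbs) else (m + j.natAbs, m))
      ?_ ?_ ?_ ?_
    · intro p hp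
      simp only [coe_filter, mem_product, mem_range, Set.mem_ofPred_eq, coe_range, Set.mem_Iio] at hp ⊢
      omega
    · intro m hm
      simp only [coe_filter, mem_product, mem_range, Set.mem_ofPred_eq, coe_range, Set.mem_Iio] at hm ⊢
      by_cases h0 : 0 ≤ j
      · rw [if_pos h0]
        simp only [Nat.cast_add]
        omega
      · rw [if_neg h0]
        simp only [Nat.cast_add]
        omega
    · intro p hp
      simp only [coe_filter, mem_product, mem_range, Set.mem_ofPred_eq] at hp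
      by_cases h0 : 0 ≤ j
      · simp only [if_pos h0]
        refine Prod.ext ?_ ?_
        · simp only
          omega
        · simp only
          omega
      · simp only [if_neg h0]
        refine Prod.ext ?_ ?_
        · simp only
          omega
        · simp only
          omega
    · intro m hm
      by_cases h0 : 0 ≤ j
      · simp only [if_pos h0]
        omega
      · simp only [if_neg h0]
        omega
  rw [h1, card_range]
  have h2 : j.natAbs ≤ H := by omega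
  have hH : (0 : ℝ) < H := by
    have : 0 < H := by omega
    exact_mod_cast this
  have h3 : |(j : ℝ)| = (j.natAbs : ℝ) := by
    rw [Nat.cast_natAbs, Int.cast_abs]
  have h4 : ((j.natAbs : ℕ) : ℝ) ≤ H := by exact_mod_cast h2
  rw [Nat.cast_sub h2]
  unfold fw
  rw [h3, max_eq_right]
  · field_simp
  · rw [sub_nonneg, div_le_one hH]
    exact h4

/-- Pairs with difference `j`. -/
theorem e0_pairs (H : ℕ) (φ : ℤ → ℂ) : ∑ h ∈ range H, ∑ h' ∈ range H, φ ((h' : ℤ) - h) =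
    H * ∑ j ∈ Ioo (-(H : ℤ)) H, ((fw H j : ℝ) : ℂ) * φ j := by
  rw [← Finset.sum_product' (range H) (range H) (fun h h' : ℕ => φ ((h' : ℤ) - h))]
  rw [← Finset.sum_fiberwise_of_maps_to (t := Ioo (-(H : ℤ)) H) (g := fun p : ℕ × ℕ => (p.2 : ℤ) - p.1)]
  · rw [Finset.mul_sum]
    refine Finset.sum_congr rfl fun j hj => ?_
    have h1 : ∀ p ∈ (range H ×ˢ range H).filter (fun p : ℕ × ℕ => (p.2 : ℤ) - p.1 = j),
        φ ((p.2 : ℤ) - p.1) = φ j := by
      intro p hp
      rw [(mem_filter.1 hp).2]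
    rw [Finset.sum_congr rfl h1, Finset.sum_const, nsmul_eq_mul, ← mul_assoc]
    congr 1
    have h2 := e0_card H j hj
    have h3 : ((((range H ×ˢ range H).filter fun p : ℕ × ℕ => (p.2 : ℤ) - p.1 = j).card : ℝ) : ℂ) =
        ((H * fw H j : ℝ) : ℂ) := by rw [h2]
    push_cast at h3
    exact h3
  · intro p hp
    simp only [mem_product, mem_range] at hp
    rw [mem_Ioo]
    omega

theorem e0_sq (s : Finset ℕ) (a : ℕ → ℂ) : ((‖∑ h ∈ s, a h‖ ^ 2 : ℝ) : ℂ) =
    ∑ h ∈ s, ∑ h' ∈ s, a h * (starRingEnd ℂ) (a h') := by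
  have h1 : ((‖∑ h ∈ s, a h‖ ^ 2 : ℝ) : ℂ) = (∑ h ∈ s, a h) * (starRingEnd ℂ) (∑ h ∈ s, a h) := by
    rw [Complex.mul_conj, Complex.normSq_eq_norm_sq]
  rw [h1, map_sum, Finset.sum_mul_sum]

/-- Proof. For every `h < H`, substituting `z + h • v` for `z` and `g (z + h • v) = g z`: `∑_{z ∈ B} g z u z = ∑_{z ∈ B'} g z u (z + h • v)`
(terms which are not `0` have `z + h • v ∈ B`, so `z ∈ B'`). Average over `h < H`, Cauchy-Schwarz over `z ∈ B'` (`‖g‖ ≤ 1`):
`‖S‖² ≤ (|B'| / H²) ∑_{z ∈ B'} ‖∑_{h<H} u (z + h • v)‖²`, and the last sum is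
`∑_{h,h'<H} ∑_{z ∈ B'} u (z + h • v) conj u (z + h' • v) = ∑_{h,h'<H} ∑_{w ∈ B} u w conj u (w + (h' - h) • v)`. Every `j = h' - h ∈ (-H, H)` occurs
`H - |j|` times, i.e. `H * fw H j` times. First the form without absolute values. -/
theorem E0_real {G : Type*} [AddCommGroup G] [DecidableEq G] (B B' : Finset G) (N : ℝ) (hN : (B'.card : ℝ) ≤ N) (H : ℕ)
    (hH : 0 < H) (v : G) (g u : G → ℂ) (hg : ∀ z, ‖g z‖ ≤ 1) (hinv : ∀ z, g (z + v) = g z) (hu : ∀ z, z ∉ B → u z = 0)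
    (hB : ∀ z, ∀ h : ℕ, h < H → z + h • v ∈ B → z ∈ B') :
    ‖∑ z ∈ B, g z * u z‖ ^ 2 ≤
      N / H * (∑ j ∈ Ioo (-(H : ℤ)) H, ((fw H j : ℝ) : ℂ) * ∑ z ∈ B, DD (j • v) u z).re := by
  have hHr : (0 : ℝ) < H := by exact_mod_cast hH
  have hHc : (H : ℂ) ≠ 0 := by exact_mod_cast hH.ne'
  -- the averaged sum
  have h1 : (H : ℂ) * ∑ z ∈ B, g z * u z = ∑ z ∈ B', g z * ∑ h ∈ range H, u (z + h • v) := by
    have h2 : ∀ h ∈ range H, ∑ z ∈ B', g z * u (z + h • v) = ∑ z ∈ B, g z * u z := by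
      intro h hh
      rw [← e0_shift B B' H v (fun z => g z * u z) hB (fun z hz => by simp only [hu z hz, mul_zero]) h
        (mem_range.1 hh)]
      refine Finset.sum_congr rfl fun z _ => ?_
      simp only [e0_inv v g hinv]
    calc (H : ℂ) * ∑ z ∈ B, g z * u z = ∑ h ∈ range H, ∑ z ∈ B', g z * u (z + h • v) := by
          rw [Finset.sum_congr rfl h2, Finset.sum_const, card_range, nsmul_eq_mul]
      _ = ∑ z ∈ B', g z * ∑ h ∈ range H, u (z + h • v) := by
          rw [Finset.sum_comm]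
          refine Finset.sum_congr rfl fun z _ => ?_
          rw [Finset.mul_sum]
  -- Cauchy-Schwarz
  have h3 : (H : ℝ) ^ 2 * ‖∑ z ∈ B, g z * u z‖ ^ 2 ≤ N * ∑ z ∈ B', ‖∑ h ∈ range H, u (z + h • v)‖ ^ 2 := by
    have h4 : (H : ℝ) * ‖∑ z ∈ B, g z * u z‖ ≤ ∑ z ∈ B', 1 * ‖∑ h ∈ range H, u (z + h • v)‖ := by
      have h5 : (H : ℝ) * ‖∑ z ∈ B, g z * u z‖ = ‖(H : ℂ) * ∑ z ∈ B, g z * u z‖ := by
        rw [norm_mul, Complex.norm_natCast]
      rw [h5, h1]
      refine (norm_sum_le _ _).trans (Finset.sum_le_sum fun z _ => ?_)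
      rw [norm_mul]
      exact mul_le_mul_of_nonneg_right (hg z) (norm_nonneg _)
    have h6 : (∑ z ∈ B', 1 * ‖∑ h ∈ range H, u (z + h • v)‖) ^ 2 ≤
        (∑ z ∈ B', (1 : ℝ) ^ 2) * ∑ z ∈ B', ‖∑ h ∈ range H, u (z + h • v)‖ ^ 2 :=
      Finset.sum_mul_sq_le_sq_mul_sq _ _ _
    have h7 : (∑ z ∈ B', (1 : ℝ) ^ 2) = B'.card := by
      rw [Finset.sum_const, one_pow, nsmul_eq_mul, mul_one]
    rw [h7] at h6
    calc (H : ℝ) ^ 2 * ‖∑ z ∈ B, g z * u z‖ ^ 2 = ((H : ℝ) * ‖∑ z ∈ B, g z * u z‖) ^ 2 := by ring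
      _ ≤ (∑ z ∈ B', 1 * ‖∑ h ∈ range H, u (z + h • v)‖) ^ 2 := by
          refine pow_le_pow_left₀ (by positivity) h4 2
      _ ≤ _ := h6
      _ ≤ _ := mul_le_mul_of_nonneg_right hN (Finset.sum_nonneg fun z _ => by positivity)
  -- the squares
  have h8 : ((∑ z ∈ B', ‖∑ h ∈ range H, u (z + h • v)‖ ^ 2 : ℝ) : ℂ) =
      H * ∑ j ∈ Ioo (-(H : ℤ)) H, ((fw H j : ℝ) : ℂ) * ∑ z ∈ B, DD (j • v) u z := by
    rw [Complex.ofReal_sum, ← e0_pairs H (fun j => ∑ z ∈ B, DD (j • v) u z)]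
    have h9 : ∀ z ∈ B', ((‖∑ h ∈ range H, u (z + h • v)‖ ^ 2 : ℝ) : ℂ) =
        ∑ h ∈ range H, ∑ h' ∈ range H, u (z + h • v) * (starRingEnd ℂ) (u (z + h' • v)) := by
      intro z _
      exact e0_sq _ _
    rw [Finset.sum_congr rfl h9, Finset.sum_comm]
    refine Finset.sum_congr rfl fun h hh => ?_
    rw [Finset.sum_comm]
    refine Finset.sum_congr rfl fun h' _ => ?_
    rw [← e0_shift B B' H v (fun z => DD (((h' : ℤ) - h) • v) u z) hB (fun z hz => by
      simp only [DD, hu z hz, zero_mul]) h (mem_range.1 hh)]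
    refine Finset.sum_congr rfl fun z _ => ?_
    simp only [DD]
    congr 2
    rw [sub_smul, natCast_zsmul, natCast_zsmul]
    abel_nf
  have h10 : ∑ z ∈ B', ‖∑ h ∈ range H, u (z + h • v)‖ ^ 2 =
      H * (∑ j ∈ Ioo (-(H : ℤ)) H, ((fw H j : ℝ) : ℂ) * ∑ z ∈ B, DD (j • v) u z).re := by
    have h11 := congrArg Complex.re h8
    rw [Complex.ofReal_re, ← Complex.ofReal_natCast, Complex.re_ofReal_mul] at h11
    exact h11
  rw [h10] at h3
  have h12 : N / H * (∑ j ∈ Ioo (-(H : ℤ)) H, ((fw H j : ℝ) : ℂ) * ∑ z ∈ B, DD (j • v) u z).re =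
      (N * (H * (∑ j ∈ Ioo (-(H : ℤ)) H, ((fw H j : ℝ) : ℂ) * ∑ z ∈ B, DD (j • v) u z).re)) / (H : ℝ) ^ 2 := by
    field_simp
  rw [h12, le_div_iff₀ (by positivity), mul_comm]
  exact h3

theorem e0_fw_nonneg (H : ℕ) (j : ℤ) : 0 ≤ fw H j := le_max_left _ _

theorem e0_fw_le (H : ℕ) (j : ℤ) : fw H j ≤ 1 := by
  unfold fw
  refine max_le zero_le_one ?_
  have : 0 ≤ |(j : ℝ)| / H := by positivity
  linarith

/-- From `E0_real`: the real part is at most the sum of the absolute values, `0 ≤ fw H j ≤ 1`. -/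
theorem E0_step {G : Type*} [AddCommGroup G] [DecidableEq G] (B B' : Finset G) (N : ℝ) (hN : (B'.card : ℝ) ≤ N) (H : ℕ)
    (hH : 0 < H) (v : G) (g u : G → ℂ) (hg : ∀ z, ‖g z‖ ≤ 1) (hinv : ∀ z, g (z + v) = g z) (hu : ∀ z, z ∉ B → u z = 0)
    (hB : ∀ z, ∀ h : ℕ, h < H → z + h • v ∈ B → z ∈ B') :
    ‖∑ z ∈ B, g z * u z‖ ^ 2 ≤ N / H * ∑ j ∈ Ioo (-(H : ℤ)) H, ‖∑ z ∈ B, DD (j • v) u z‖ := by
  have hN0 : 0 ≤ N := (Nat.cast_nonneg _).trans hN
  refine (E0_real B B' N hN H hH v g u hg hinv hu hB).trans ?_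
  refine mul_le_mul_of_nonneg_left ?_ (by positivity)
  refine (Complex.re_le_norm _).trans ((norm_sum_le _ _).trans (Finset.sum_le_sum fun j _ => ?_))
  rw [norm_mul, Complex.norm_real, Real.norm_of_nonneg (e0_fw_nonneg H j)]
  exact (mul_le_mul_of_nonneg_right (e0_fw_le H j) (norm_nonneg _)).trans (one_mul _).le

end Pool.Agent.HUK
end

-- from Lib.HUK.E1
section

/-!
# Project HUK, chunk E1 (M): the elimination lemma with absolute values
-/

open Finset

namespace Pool.Agent.HUK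

theorem e1_box_succ {M : Type*} [AddCommMonoid M] (r H : ℕ) (F : (Fin (r + 1) → ℤ) → M) :
    ∑ j ∈ bxS (r + 1) H, F j = ∑ j0 ∈ Ioo (-(H : ℤ)) H, ∑ j' ∈ bxS r H, F (Fin.cons j0 j') := by
  rw [← Finset.sum_product' (Ioo (-(H : ℤ)) H) (bxS r H) (fun j0 j' => F (Fin.cons j0 j'))]
  refine Finset.sum_nbij' (fun j => (j 0, fun i => j i.succ)) (fun p => Fin.cons p.1 p.2) ?_ ?_ ?_ ?_ ?_
  · intro j hj
    unfold bxS at hj ⊢
    rw [Fintype.mem_piFinset] at hj
    rw [mem_product, Fintype.mem_piFinset]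
    exact ⟨hj 0, fun i => hj i.succ⟩
  · intro p hp
    unfold bxS at hp ⊢
    rw [mem_product, Fintype.mem_piFinset] at hp
    rw [Fintype.mem_piFinset]
    refine Fin.cases ?_ ?_
    · exact hp.1
    · exact fun i => hp.2 i
  · intro j _
    exact Fin.cons_self_tail j
  · intro p _
    rfl
  · intro j _
    exact congrArg F (Fin.cons_self_tail j).symm

theorem e1_DD_prod {G : Type*} [Add G] {r : ℕ} (h : G) (g : Fin r → G → ℂ) (c : G → ℂ) (z : G) :
    DD h (fun z => (∏ i, g i z) * c z) z = (∏ i, DD h (g i) z) * DD h c z := by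
  simp only [DD, map_mul, map_prod, Finset.prod_mul_distrib]
  ring

theorem e1_DD_le {G : Type*} [Add G] (h : G) (g : G → ℂ) (hg : ∀ z, ‖g z‖ ≤ 1) (z : G) : ‖DD h g z‖ ≤ 1 := by
  simp only [DD, norm_mul, RCLike.norm_conj]
  exact mul_le_one₀ (hg _) (norm_nonneg _) (hg _)

theorem e1_DD_inv {G : Type*} [AddCommGroup G] (h v : G) (g : G → ℂ) (hg : ∀ z, g (z + v) = g z) (z : G) :
    DD h g (z + v) = DD h g z := by
  simp only [DD, hg, add_right_comm z v h]

/-- Power mean over the `2H - 1` values of `j`. -/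
theorem e1_mean (H : ℕ) (hH : 0 < H) (n : ℕ) (y : ℤ → ℝ) (hy : ∀ j, 0 ≤ y j) :
    ((∑ j ∈ Ioo (-(H : ℤ)) H, y j) / H) ^ (n + 1) ≤ 2 ^ n / H * ∑ j ∈ Ioo (-(H : ℤ)) H, y j ^ (n + 1) := by
  have hHr : (0 : ℝ) < H := by exact_mod_cast hH
  have h1 := pow_sum_div_card_le_sum_pow (s := Ioo (-(H : ℤ)) H) (f := y) (fun j _ => hy j) n
  have hc : ((Ioo (-(H : ℤ)) H).card : ℝ) ≤ 2 * H := by
    have h2 : (Ioo (-(H : ℤ)) H).card ≤ 2 * H := by
      rw [Int.card_Ioo]
      omega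
    exact_mod_cast h2
  have hc0 : (0 : ℝ) < (Ioo (-(H : ℤ)) H).card := by
    have h2 : 0 < (Ioo (-(H : ℤ)) H).card := by
      rw [Int.card_Ioo]
      omega
    exact_mod_cast h2
  rw [div_le_iff₀ (pow_pos hc0 n)] at h1
  rw [div_pow, div_le_iff₀ (by positivity)]
  refine h1.trans ?_
  have h3 : ((Ioo (-(H : ℤ)) H).card : ℝ) ^ n ≤ (2 * H) ^ n := pow_le_pow_left₀ hc0.le hc n
  have h4 : 0 ≤ ∑ j ∈ Ioo (-(H : ℤ)) H, y j ^ (n + 1) := Finset.sum_nonneg fun j _ => pow_nonneg (hy j) _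
  refine (mul_le_mul_of_nonneg_left h3 h4).trans (le_of_eq ?_)
  rw [mul_pow, pow_succ]
  field_simp

/-- Proof by induction on `r` (generalise `c`, `g`, `v`). `r = 0`: clear (`DL [] c = c`, one `j`, `2 ≥ 1`). Step: `x = ‖S‖/N`. `E0_step` with
`v 0`, `g 0` and `u z = (∏_{i} g i.succ z) * c z`: `x² ≤ (1/H) ∑_{|j| < H} y_j`, `y_j = ‖∑_z DD (j • v 0) u z‖ / N`, and
`DD (j • v 0) u z = (∏_i DD (j • v 0) (g i.succ) z) * DD (j • v 0) c z`; the new functions are bounded by `1` and invariant under `v i.succ`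
(commutative group), and `DD (j • v 0) c` vanishes outside `B`. Hoelder (power mean) with `p = 2^r`:
`x^(2^(r+1)) ≤ ((1/H) ∑_j y_j)^p ≤ (2^(p-1)/H) ∑_j y_j^p` (at most `2H` values of `j`), induction hypothesis for each `j`, and
`∑_{j ∈ Ioo} ∑_{j' ∈ bxS r H} = ∑_{bxS (r+1) H}` via `Fin.cons` (`List.ofFn_succ`, `DL (h :: l) c = DL l (DD h c)`). -/
theorem E1_elim {G : Type*} [AddCommGroup G] [DecidableEq G] (B B' : Finset G) (N : ℝ) (hN : (B'.card : ℝ) ≤ N)
    (hN0 : 0 < N) (H : ℕ) (hH : 0 < H) (r : ℕ) (v : Fin r → G) (g : Fin r → G → ℂ) (c : G → ℂ)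
    (hg : ∀ i z, ‖g i z‖ ≤ 1) (hinv : ∀ i z, g i (z + v i) = g i z) (hc : ∀ z, z ∉ B → c z = 0)
    (hB : ∀ i z, ∀ h : ℕ, h < H → z + h • v i ∈ B → z ∈ B') :
    (‖∑ z ∈ B, (∏ i, g i z) * c z‖ / N) ^ (2 ^ r) ≤
      2 ^ (2 ^ r) / (H : ℝ) ^ r * ∑ j ∈ bxS r H, ‖∑ z ∈ B, DL (List.ofFn fun i => j i • v i) c z‖ / N := by
  have hHr : (0 : ℝ) < H := by exact_mod_cast hH
  induction r generalizing c with
  | zero =>
    have h1 : ∑ j ∈ bxS 0 H, ‖∑ z ∈ B, DL (List.ofFn fun i => j i • v i) c z‖ / N = ‖∑ z ∈ B, c z‖ / N := by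
      have h2 : bxS 0 H = {fun i => i.elim0} := by
        unfold bxS
        rw [Fintype.piFinset_of_isEmpty]
        ext j
        simp only [mem_univ, mem_singleton, true_iff]
        exact Subsingleton.elim _ _
      rw [h2, Finset.sum_singleton]
      simp only [List.ofFn_zero, DL]
    rw [h1, pow_zero, pow_one, pow_one, pow_zero, div_one]
    have h3 : ∑ z ∈ B, (∏ i : Fin 0, g i z) * c z = ∑ z ∈ B, c z := by
      refine Finset.sum_congr rfl fun z _ => ?_
      rw [Finset.univ_eq_empty, Finset.prod_empty, one_mul]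
    rw [h3]
    have h4 : 0 ≤ ‖∑ z ∈ B, c z‖ / N := by positivity
    linarith
  | succ r ih =>
    -- one step
    have h1 := E0_step B B' N hN H hH (v 0) (g 0) (fun z => (∏ i : Fin r, g i.succ z) * c z) (hg 0) (hinv 0)
      (fun z hz => by simp only [hc z hz, mul_zero]) (hB 0)
    have h2 : ∑ z ∈ B, (∏ i, g i z) * c z = ∑ z ∈ B, g 0 z * ((∏ i : Fin r, g i.succ z) * c z) := by
      refine Finset.sum_congr rfl fun z _ => ?_
      rw [Fin.prod_univ_succ, mul_assoc]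
    rw [h2]
    obtain ⟨x, hx⟩ : ∃ x : ℝ, x = ‖∑ z ∈ B, g 0 z * ((∏ i : Fin r, g i.succ z) * c z)‖ / N := ⟨_, rfl⟩
    obtain ⟨y, hy⟩ : ∃ y : ℤ → ℝ, ∀ j, y j =
        ‖∑ z ∈ B, (∏ i : Fin r, DD (j • v 0) (g i.succ) z) * DD (j • v 0) c z‖ / N := ⟨_, fun _ => rfl⟩
    have hx0 : 0 ≤ x := by rw [hx]; positivity
    have hy0 : ∀ j, 0 ≤ y j := by
      intro j
      rw [hy]
      positivity
    rw [← hx]
    have h3 : x ^ 2 ≤ (∑ j ∈ Ioo (-(H : ℤ)) H, y j) / H := by
      rw [hx, div_pow, div_le_iff₀ (by positivity)]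
      refine h1.trans (le_of_eq ?_)
      have h4 : ∑ j ∈ Ioo (-(H : ℤ)) H, y j = (∑ j ∈ Ioo (-(H : ℤ)) H,
          ‖∑ z ∈ B, DD (j • v 0) (fun z => (∏ i : Fin r, g i.succ z) * c z) z‖) / N := by
        rw [Finset.sum_div]
        refine Finset.sum_congr rfl fun j _ => ?_
        rw [hy]
        congr 2
        exact Finset.sum_congr rfl fun z _ => (e1_DD_prod _ _ _ _).symm
      rw [h4]
      field_simp
    obtain ⟨n, hn⟩ : ∃ n : ℕ, 2 ^ r = n + 1 := ⟨2 ^ r - 1, by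
      have := Nat.one_le_two_pow (n := r)
      omega⟩
    have h5 : x ^ (2 ^ (r + 1)) ≤ 2 ^ n / H * ∑ j ∈ Ioo (-(H : ℤ)) H, y j ^ (2 ^ r) := by
      calc x ^ (2 ^ (r + 1)) = (x ^ 2) ^ (n + 1) := by
            rw [← hn, ← pow_mul, pow_succ, mul_comm]
        _ ≤ ((∑ j ∈ Ioo (-(H : ℤ)) H, y j) / H) ^ (n + 1) := pow_le_pow_left₀ (by positivity) h3 _
        _ ≤ 2 ^ n / H * ∑ j ∈ Ioo (-(H : ℤ)) H, y j ^ (n + 1) := e1_mean H hH n y hy0
        _ = _ := by rw [hn]
    refine h5.trans ?_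
    -- induction hypothesis
    have h6 : ∀ j ∈ Ioo (-(H : ℤ)) H, y j ^ (2 ^ r) ≤ 2 ^ (2 ^ r) / (H : ℝ) ^ r *
        ∑ j' ∈ bxS r H, ‖∑ z ∈ B, DL (List.ofFn fun i => (Fin.cons j j' : Fin (r + 1) → ℤ) i • v i) c z‖ / N := by
      intro j _
      rw [hy]
      refine (ih (fun i => v i.succ) (fun i => DD (j • v 0) (g i.succ)) (DD (j • v 0) c)
        (fun i z => e1_DD_le _ _ (hg i.succ) z) (fun i z => e1_DD_inv _ _ _ (hinv i.succ) z)
        (fun z hz => by simp only [DD, hc z hz, zero_mul]) (fun i => hB i.succ)).trans (le_of_eq ?_)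
      congr 1
      refine Finset.sum_congr rfl fun j' _ => ?_
      rw [List.ofFn_succ]
      simp only [Fin.cons_zero, Fin.cons_succ, DL]
    calc 2 ^ n / (H : ℝ) * ∑ j ∈ Ioo (-(H : ℤ)) H, y j ^ (2 ^ r)
        ≤ 2 ^ n / (H : ℝ) * ∑ j ∈ Ioo (-(H : ℤ)) H, 2 ^ (2 ^ r) / (H : ℝ) ^ r *
        ∑ j' ∈ bxS r H, ‖∑ z ∈ B, DL (List.ofFn fun i => (Fin.cons j j' : Fin (r + 1) → ℤ) i • v i) c z‖ / N := by
          refine mul_le_mul_of_nonneg_left (Finset.sum_le_sum h6) (by positivity)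
      _ = 2 ^ n * 2 ^ (2 ^ r) / (H : ℝ) ^ (r + 1) * ∑ j ∈ bxS (r + 1) H,
          ‖∑ z ∈ B, DL (List.ofFn fun i => j i • v i) c z‖ / N := by
          rw [e1_box_succ, ← Finset.mul_sum, ← mul_assoc]
          congr 1
          rw [pow_succ (H : ℝ) r]
          field_simp
      _ ≤ _ := by
          refine mul_le_mul_of_nonneg_right ?_ (Finset.sum_nonneg fun j _ => by positivity)
          refine div_le_div_of_nonneg_right ?_ (by positivity)
          rw [← pow_add]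
          refine pow_le_pow_right₀ one_le_two ?_
          rw [pow_succ]
          omega

end Pool.Agent.HUK
end

-- from Lib.HUK.K0
section

/-!
# Project HUK, module K (`LKP k`, PROOF.md section 6): definitions for the Gowers norms of characters on `ZMod r`
-/

open Finset

namespace Pool.Agent.HUK

noncomputable section

/-- The product of all vertices `a + ω · j`, in a commutative ring. -/
def QG {A : Type*} [CommRing A] : List A → A → A
  | [], a => a
  | j :: l, a => QG l a * QG l (a + j)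

/-- `QG` times the alternating sum of the inverses of the vertices `a + ω · j`, in a commutative ring. -/
def DG {A : Type*} [CommRing A] : List A → A → A
  | [], _ => 1
  | j :: l, a => DG l a * QG l (a + j) - DG l (a + j) * QG l a

/-- The Fourier coefficient `(1/r) ∑_y f(y) e(-xy/r)`. -/
def ft {r : ℕ} [NeZero r] (f : ZMod r → ℂ) (x : ZMod r) : ℂ := (∑ y, f y * ZMod.stdAddChar (-(x * y))) / r

/-- The power `2^s` of the normalised `U^s` norm on `ZMod r`. -/
def uG {r : ℕ} [NeZero r] (s : ℕ) (f : ZMod r → ℂ) : ℝ :=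
  (∑ h : Fin s → ZMod r, ∑ y, DL (List.ofFn h) f y).re / (r : ℝ) ^ (s + 1)

end

end Pool.Agent.HUK
end

-- from Lib.HUK.KA1
section

/-!
# Project HUK, chunk KA1 (S/M): degree and leading coefficient of `QG` and `DG`
-/

open Finset

namespace Pool.Agent.HUK

/-- Proof by induction on `l` (generalise `a`). Empty list: `QG [] a = a`, `DG [] a = 1`. Step:
`QG (j :: l) a = QG l a * QG l (a + j)`, degrees at most `2^n + 2^n = 2^(n+1)`, and `Polynomial.coeff_mul_of_natDegree_le` for the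
coefficient; `(a + j).coeff 1 = a.coeff 1 + j.coeff 1`. `DG (j :: l) a = DG l a * QG l (a + j) - DG l (a + j) * QG l a`, degrees at most
`(2^n - 1) + 2^n = 2^(n+1) - 1` (`2^n ≥ 1`), the coefficients in the same way (`add_comm` for the second product). -/
theorem KA1_deg (l : List (Polynomial ℤ)) (hl : ∀ j ∈ l, j.natDegree ≤ 1) (a : Polynomial ℤ) (ha : a.natDegree ≤ 1) :
    (QG l a).natDegree ≤ 2 ^ l.length ∧ (QG l a).coeff (2 ^ l.length) = QG (l.map fun j => j.coeff 1) (a.coeff 1) ∧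
    (DG l a).natDegree ≤ 2 ^ l.length - 1 ∧
    (DG l a).coeff (2 ^ l.length - 1) = DG (l.map fun j => j.coeff 1) (a.coeff 1) := by
  induction l generalizing a with
  | nil =>
    simp only [QG, DG, List.length_nil, pow_zero, List.map_nil]
    refine ⟨ha, trivial, ?_, ?_⟩
    · simp
    · simp
  | cons j l ih =>
    have hj : j.natDegree ≤ 1 := hl j (List.mem_cons_self ..)
    have hl' : ∀ j ∈ l, j.natDegree ≤ 1 := fun x hx => hl x (List.mem_cons_of_mem _ hx)
    have haj : (a + j).natDegree ≤ 1 := Polynomial.natDegree_add_le_of_degree_le ha hj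
    obtain ⟨q1, q2, d1, d2⟩ := ih hl' a ha
    obtain ⟨q3, q4, d3, d4⟩ := ih hl' (a + j) haj
    rw [Polynomial.coeff_add] at q4 d4
    have hpos : 1 ≤ 2 ^ l.length := Nat.one_le_two_pow
    have e1 : 2 ^ (j :: l).length = 2 ^ l.length + 2 ^ l.length := by
      rw [List.length_cons, pow_succ]
      ring
    have e2 : 2 ^ (j :: l).length - 1 = (2 ^ l.length - 1) + 2 ^ l.length := by
      rw [e1]
      omega
    rw [e2, e1]
    refine ⟨?_, ?_, ?_, ?_⟩
    · change (QG l a * QG l (a + j)).natDegree ≤ _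
      exact Polynomial.natDegree_mul_le_of_le q1 q3
    · change (QG l a * QG l (a + j)).coeff _ = _
      rw [Polynomial.coeff_mul_add_eq_of_natDegree_le q1 q3, q2, q4]
      rfl
    · change (DG l a * QG l (a + j) - DG l (a + j) * QG l a).natDegree ≤ _
      refine (Polynomial.natDegree_sub_le _ _).trans (max_le ?_ ?_)
      · exact Polynomial.natDegree_mul_le_of_le d1 q3
      · exact Polynomial.natDegree_mul_le_of_le d3 q1
    · change (DG l a * QG l (a + j) - DG l (a + j) * QG l a).coeff _ = _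
      rw [Polynomial.coeff_sub, Polynomial.coeff_mul_add_eq_of_natDegree_le d1 q3, Polynomial.coeff_mul_add_eq_of_natDegree_le d3 q1, q2, q4, d2, d4]
      rfl

/-- Ring homomorphisms. Induction on `l` (generalise `a`). -/
theorem KA1_map {A B : Type*} [CommRing A] [CommRing B] (φ : A →+* B) (l : List A) (a : A) :
    φ (QG l a) = QG (l.map φ) (φ a) ∧ φ (DG l a) = DG (l.map φ) (φ a) := by
  induction l generalizing a with
  | nil => exact ⟨rfl, map_one φ⟩
  | cons j l ih =>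
    obtain ⟨h1, h2⟩ := ih a
    obtain ⟨h3, h4⟩ := ih (a + j)
    rw [map_add] at h3 h4
    constructor
    · change φ (QG l a * QG l (a + j)) = _
      rw [map_mul, h1, h3]
      rfl
    · change φ (DG l a * QG l (a + j) - DG l (a + j) * QG l a) = _
      rw [map_sub, map_mul, map_mul, h1, h2, h3, h4]
      rfl

theorem ka1_main (n : ℕ) : ∀ a : ℤ, 1 ≤ a → 0 < QG (List.replicate n (1 : ℤ)) a ∧
    (∏ i ∈ range (n + 1), (a + i)) * DG (List.replicate n (1 : ℤ)) a = (n.factorial : ℤ) * QG (List.replicate n (1 : ℤ)) a := by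
  induction n with
  | zero =>
    intro a ha
    simp only [List.replicate_zero, QG, DG, zero_add, Finset.prod_range_one, Nat.factorial_zero]
    refine ⟨by omega, ?_⟩
    push_cast
    ring
  | succ n ih =>
    intro a ha
    obtain ⟨h1, h2⟩ := ih a ha
    obtain ⟨h3, h4⟩ := ih (a + 1) (by omega)
    have hQ : QG (List.replicate (n + 1) (1 : ℤ)) a = QG (List.replicate n (1 : ℤ)) a * QG (List.replicate n (1 : ℤ)) (a + 1) := rfl
    have hD : DG (List.replicate (n + 1) (1 : ℤ)) a = DG (List.replicate n (1 : ℤ)) a * QG (List.replicate n (1 : ℤ)) (a + 1) -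
      DG (List.replicate n (1 : ℤ)) (a + 1) * QG (List.replicate n (1 : ℤ)) a := rfl
    have hp1 : ∏ i ∈ range (n + 1 + 1), (a + (i : ℤ)) = (∏ i ∈ range (n + 1), (a + (i : ℤ))) * (a + n + 1) := by
      rw [Finset.prod_range_succ]
      push_cast
      ring
    have hp2 : ∏ i ∈ range (n + 1 + 1), (a + (i : ℤ)) = a * ∏ i ∈ range (n + 1), (a + 1 + (i : ℤ)) := by
      rw [Finset.prod_range_succ']
      push_cast
      rw [add_zero, mul_comm]
      congr 1
      refine Finset.prod_congr rfl fun i _ => ?_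
      ring
    refine ⟨by rw [hQ]; exact mul_pos h1 h3, ?_⟩
    rw [hQ, hD, mul_sub]
    have e1 : (∏ i ∈ range (n + 1 + 1), (a + (i : ℤ))) * (DG (List.replicate n (1 : ℤ)) a * QG (List.replicate n (1 : ℤ)) (a + 1)) =
        (a + n + 1) * ((n.factorial : ℤ) * QG (List.replicate n (1 : ℤ)) a) * QG (List.replicate n (1 : ℤ)) (a + 1) := by
      rw [hp1, ← h2]
      ring
    have e2 : (∏ i ∈ range (n + 1 + 1), (a + (i : ℤ))) * (DG (List.replicate n (1 : ℤ)) (a + 1) * QG (List.replicate n (1 : ℤ)) a) =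
        a * ((n.factorial : ℤ) * QG (List.replicate n (1 : ℤ)) (a + 1)) * QG (List.replicate n (1 : ℤ)) a := by
      rw [hp2, ← h4]
      ring
    rw [e1, e2, Nat.factorial_succ]
    push_cast
    ring

/-- The leading coefficient is not zero. Proof. For all `n` and all integers `a ≥ 1`: `0 < QG (replicate n 1) a` and
`(∏ i ∈ range (n + 1), (a + i)) * DG (replicate n 1) a = n ! * QG (replicate n 1) a`. Induction on `n`: put
`π_n(a) = ∏ i ∈ range (n + 1), (a + i)`, `π_(n+1)(a) = π_n(a) (a + n + 1) = a π_n(a + 1)`, so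
`π_(n+1)(a) D_(n+1)(a) = (a + n + 1) (π_n(a) D_n(a)) Q_n(a + 1) - a (π_n(a + 1) D_n(a + 1)) Q_n(a) = (n + 1) n! Q_n(a) Q_n(a + 1)`.
Take `a = 1`. -/
theorem KA1_pos (n : ℕ) : DG (List.replicate n (1 : ℤ)) 1 ≠ 0 := by
  intro h
  obtain ⟨h1, h2⟩ := ka1_main n 1 le_rfl
  rw [h, mul_zero] at h2
  have h3 : (0 : ℤ) < (n.factorial : ℤ) := by exact_mod_cast n.factorial_pos
  have h4 := mul_pos h3 h1
  omega

end Pool.Agent.HUK
end
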