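import Mathlib
import Pool.Agent.Lib.H59M.M2.M001
import Pool.Agent.Lib.H59M.M2.M006
import Pool.Agent.Lib.H59M.M2.M014
import Pool.Agent.Lib.H59M.M2.M015
import Pool.Agent.Lib.H59M.M2.M016
import Pool.Agent.Lib.H59M.M2.M023

/-! Merged copies (to shorten the build) of Lib.GoldbachGraph.Proportion, Lib.H18E.PG, Lib.H18Q.S2, Lib.H18Q.R0, Lib.H68X.XL1, Lib.H68X.XSIE, Lib.H18Q.Z5A. -/

-- from Lib.GoldbachGraph.Proportion
section

/-!
# A positive proportion of pairs have a common neighbour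
-/

namespace Pool.Agent.Lib.GoldbachGraph

open Finset Filter Pool.Agent.Lib.Sieve

/-- Degree inside `[1, n]`. -/
def hdeg (n x : ℕ) : ℕ := ((Finset.Icc 1 n).filter fun u => hadj x u).card










/-- The proportion of good pairs. -/
noncomputable def c0 : ℝ := 1 / (1024 ^ 2 * C2)




end Pool.Agent.Lib.GoldbachGraph
end

-- from Lib.H18E.PG
section

/-!
# Chunk PG: weighted correlations of Ramanujan sums along a progression
-/

open Finset Pool.Agent.Lib.H68T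

namespace Pool.Agent.Lib.H18E

theorem pg_cq_congr {q : ℕ} {m m' : ℤ} (h : (q : ℤ) ∣ m - m') : cq q m = cq q m' := by
  unfold cq
  refine sum_congr (filter_congr fun d hd => ?_) fun _ _ => rfl
  have hdq : (d : ℤ) ∣ m - m' :=
    (Int.natCast_dvd_natCast.mpr (Nat.dvd_of_mem_divisors hd)).trans h
  constructor
  · intro h1
    have := dvd_sub h1 hdq
    simpa using this
  · intro h1
    have := dvd_add hdq h1
    simpa using this

theorem pg_cq_mul {q W : ℕ} (h : Nat.Coprime q W) (m : ℤ) : cq q (W * m) = cq q m := by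
  unfold cq
  refine sum_congr (filter_congr fun d hd => ?_) fun _ _ => rfl
  have hc : IsCoprime (d : ℤ) (W : ℤ) :=
    Nat.isCoprime_iff_coprime.mpr (Nat.Coprime.coprime_dvd_left (Nat.dvd_of_mem_divisors hd) h)
  exact ⟨fun h1 => hc.dvd_of_dvd_mul_left h1, fun h1 => dvd_mul_of_dvd_right h1 _⟩

theorem pg_exists {q W : ℕ} (hq : 0 < q) (h : Nat.Coprime q W) (x : ℤ) :
    ∃ s : ℕ, (q : ℤ) ∣ x - W * s := by
  obtain ⟨a, b, hab⟩ := Nat.isCoprime_iff_coprime.mpr h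
  have hq' : (0 : ℤ) < q := by exact_mod_cast hq
  refine ⟨((x * b) % q).toNat, ?_⟩
  rw [Int.toNat_of_nonneg (Int.emod_nonneg _ hq'.ne'), Int.emod_def]
  refine ⟨x * a + W * (x * b / q), ?_⟩
  linear_combination (-x) * hab

/-- As `cg1_corr` (file `H68T/CG1.lean`, with `cg1_count`), for arbitrary starting points: `x + W c`
instead of `b + W (s + c)`, `y + W c` instead of `b + W (s' + c)`; the condition
`gcd(d₁,d₂) ∣ s - s'` becomes `gcd(d₁,d₂) ∣ x - y`. -/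
theorem corr_gen (q₁ q₂ W N : ℕ) (x y : ℤ) (h₁ : 0 < q₁) (h₂ : 0 < q₂)
    (c₁ : Nat.Coprime q₁ W) (c₂ : Nat.Coprime q₂ W) :
    |∑ c ∈ range N, cq q₁ (x + W * (c : ℕ)) * cq q₂ (y + W * (c : ℕ)) -
      N * (if q₁ = q₂ then cq q₁ (x - y) else 0)| ≤
      (∑ d ∈ q₁.divisors, (d : ℝ)) * ∑ d ∈ q₂.divisors, (d : ℝ) := by
  obtain ⟨s, hs⟩ := pg_exists h₁ c₁ x
  obtain ⟨s', hs'⟩ := pg_exists h₂ c₂ y
  have h := cg1_corr q₁ q₂ W 0 s s' N h₁ h₂ c₁ c₂
  have e1 : ∑ c ∈ range N, cq q₁ (x + W * (c : ℕ)) * cq q₂ (y + W * (c : ℕ)) =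
      ∑ c ∈ range N, cq q₁ (((0 : ℕ) : ℤ) + W * (s + c : ℕ)) *
        cq q₂ (((0 : ℕ) : ℤ) + W * (s' + c : ℕ)) := by
    refine sum_congr rfl fun c _ => ?_
    congr 1
    · apply pg_cq_congr
      have : x + W * (c : ℕ) - (((0 : ℕ) : ℤ) + W * (s + c : ℕ)) = x - W * s := by push_cast; ring
      rw [this]; exact hs
    · apply pg_cq_congr
      have : y + W * (c : ℕ) - (((0 : ℕ) : ℤ) + W * (s' + c : ℕ)) = y - W * s' := by
        push_cast; ring
      rw [this]; exact hs'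
  have e2 : (if q₁ = q₂ then cq q₁ (x - y) else 0) =
      (if q₁ = q₂ then cq q₁ ((s : ℤ) - s') else 0) := by
    split_ifs with hq
    · subst hq
      rw [← pg_cq_mul c₁ ((s : ℤ) - s')]
      apply pg_cq_congr
      have := dvd_sub hs hs'
      have e : x - y - W * ((s : ℤ) - s') = x - W * s - (y - W * s') := by ring
      rw [e]; exact this
    · rfl
  rw [e1, e2]
  exact h

end Pool.Agent.Lib.H18E
end

-- from Lib.H18Q.S2
section

/-!
# Project H18Q, chunk S2: the mean value of the sieve majorant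
-/

open Finset

namespace Pool.Agent.Lib.H18Q

open Pool.Agent.Lib.H68T

/-- `V z = ∑_{q ≤ z} μ²(q)/φ(q)`. -/
noncomputable def Vz (z : ℕ) : ℝ :=
  ∑ q ∈ Icc 1 z, (ArithmeticFunction.moebius q : ℝ) ^ 2 / (Nat.totient q : ℝ)

theorem s2_rad (n : ℕ) (hn : n ≠ 0) : Squarefree (∏ p ∈ n.primeFactors, p) ∧
    (∏ p ∈ n.primeFactors, p).primeFactors = n.primeFactors := by
  refine ⟨?_, Nat.primeFactors_prod fun p hp => Nat.prime_of_mem_primeFactors hp⟩
  rw [← Nat.radical_eq_prod_primeFactors]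
  exact UniqueFactorizationMonoid.squarefree_radical

/-- The sum of `1/n` over numbers with radical `q`. -/
theorem s2_fiber (q z : ℕ) (hq : Squarefree q) :
    ∑ n ∈ (Icc 1 z).filter (fun n => ∏ p ∈ n.primeFactors, p = q), (1 : ℝ) / n ≤
      1 / (Nat.totient q : ℝ) := by
  classical
  have hq0 : q ≠ 0 := hq.ne_zero
  have hqR : (0 : ℝ) < q := by exact_mod_cast Nat.pos_of_ne_zero hq0
  let f : ℕ →* ℝ :=
    { toFun := fun n => (n : ℝ)⁻¹
      map_one' := by simp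
      map_mul' := fun a b => by push_cast; rw [mul_inv] }
  have hf : ∀ {p : ℕ}, p.Prime → ‖f p‖ < 1 := by
    intro p hp
    have h2 : (1 : ℝ) < p := by exact_mod_cast hp.one_lt
    change ‖(p : ℝ)⁻¹‖ < 1
    rw [Real.norm_of_nonneg (by positivity)]
    exact inv_lt_one_of_one_lt₀ h2
  obtain ⟨hs, hS⟩ :=
    EulerProduct.summable_and_hasSum_factoredNumbers_prod_filter_prime_geometric hf q.primeFactors
  have hprod : ∏ p ∈ q.primeFactors with p.Prime, (1 - f p)⁻¹ = (q : ℝ) / (Nat.totient q : ℝ) := by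
    have h1 : q.primeFactors.filter (fun p => p.Prime) = q.primeFactors :=
      Finset.filter_true_of_mem fun p hp => Nat.prime_of_mem_primeFactors hp
    have h2 : (Nat.totient q : ℝ) = q * ∏ p ∈ q.primeFactors, (1 - (p : ℝ)⁻¹) := by
      have := Nat.totient_eq_mul_prod_factors q
      have h3 : ((Nat.totient q : ℚ) : ℝ) = ((q * ∏ p ∈ q.primeFactors, (1 - (p : ℚ)⁻¹) : ℚ) : ℝ) := by
        rw [this]
      push_cast at h3
      exact h3
    rw [h1, h2, Finset.prod_inv_distrib]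
    have h3 : ∏ p ∈ q.primeFactors, (1 - f p) = ∏ p ∈ q.primeFactors, (1 - (p : ℝ)⁻¹) := rfl
    rw [h3]
    have h4 : ∏ p ∈ q.primeFactors, (1 - (p : ℝ)⁻¹) ≠ 0 := by
      rw [Finset.prod_ne_zero_iff]
      intro p hp
      have hp' := Nat.prime_of_mem_primeFactors hp
      have h5 : (1 : ℝ) < p := by exact_mod_cast hp'.one_lt
      have h6 : (p : ℝ)⁻¹ < 1 := inv_lt_one_of_one_lt₀ h5
      linarith
    field_simp
  rw [hprod] at hS
  set A := (Icc 1 z).filter (fun n => ∏ p ∈ n.primeFactors, p = q) with hA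
  have hmem : ∀ n ∈ A, q ∣ n ∧ n ≠ 0 ∧ n / q ∈ Nat.factoredNumbers q.primeFactors := by
    intro n hn
    rw [hA, Finset.mem_filter, Finset.mem_Icc] at hn
    obtain ⟨⟨h1, -⟩, h2⟩ := hn
    have hn0 : n ≠ 0 := by omega
    have hd : q ∣ n := by
      rw [← h2]; exact Nat.prod_primeFactors_dvd n
    refine ⟨hd, hn0, ?_⟩
    rw [Nat.mem_factoredNumbers_iff_primeFactors_subset]
    have h3 : n / q ≠ 0 := (Nat.div_pos (Nat.le_of_dvd (by omega) hd) (by omega)).ne'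
    refine ⟨h3, ?_⟩
    have h4 : (n / q).primeFactors ⊆ n.primeFactors :=
      Nat.primeFactors_mono (Nat.div_dvd_of_dvd hd) hn0
    refine h4.trans ?_
    rw [← (s2_rad n hn0).2, h2]
  -- compare with the sum over the factored numbers
  have hle : ∑ n ∈ A, (1 : ℝ) / ((n / q : ℕ) : ℝ) ≤ (q : ℝ) / (Nat.totient q : ℝ) := by
    let g : A → Nat.factoredNumbers q.primeFactors := fun n => ⟨n.1 / q, (hmem n.1 n.2).2.2⟩
    have hg : Function.Injective g := by
      intro a b hab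
      have h1 : a.1 / q = b.1 / q := congrArg Subtype.val hab
      have h2 := Nat.div_mul_cancel (hmem a.1 a.2).1
      have h3 := Nat.div_mul_cancel (hmem b.1 b.2).1
      apply Subtype.ext
      rw [← h2, ← h3, h1]
    have h1 : ∑ n ∈ A, (1 : ℝ) / ((n / q : ℕ) : ℝ) = ∑ n : A, f (g n) := by
      rw [← Finset.sum_coe_sort A]
      refine Finset.sum_congr rfl fun n _ => ?_
      change (1 : ℝ) / ((n.1 / q : ℕ) : ℝ) = (((n.1 / q : ℕ)) : ℝ)⁻¹
      rw [one_div]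
    have h2 : ∑ n : A, f (g n) =
        ∑ m ∈ (Finset.univ : Finset A).map ⟨g, hg⟩, f m := by
      rw [Finset.sum_map]
      rfl
    rw [h1, h2]
    refine sum_le_hasSum _ (fun m _ => ?_) hS
    change (0 : ℝ) ≤ ((m : ℕ) : ℝ)⁻¹
    positivity
  have h1 : ∑ n ∈ A, (1 : ℝ) / n = (1 / q) * ∑ n ∈ A, (1 : ℝ) / ((n / q : ℕ) : ℝ) := by
    rw [Finset.mul_sum]
    refine Finset.sum_congr rfl fun n hn => ?_
    have h2 := Nat.div_mul_cancel (hmem n hn).1
    have h3 : (n : ℝ) = ((n / q : ℕ) : ℝ) * q := by exact_mod_cast h2.symm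
    rw [div_mul_div_comm, one_mul, mul_comm (q : ℝ), ← h3]
  rw [h1]
  calc (1 / (q : ℝ)) * ∑ n ∈ A, (1 : ℝ) / ((n / q : ℕ) : ℝ)
      ≤ (1 / (q : ℝ)) * ((q : ℝ) / (Nat.totient q : ℝ)) :=
        mul_le_mul_of_nonneg_left hle (by positivity)
    _ = 1 / (Nat.totient q : ℝ) := by field_simp

/-- `V z ≥ log z`: `∑_{q ≤ z} μ²(q)/φ(q) ≥ ∑_{n ≤ z} 1/n ≥ log z`
(`1/φ(q) = ∑_{n : rad n = q} 1/n` for squarefree `q`; `n ≤ z` has `rad n ≤ z`). See `ss_low` or
`SS1_sum` in `Lib/H18E`, or Mathlib's Selberg sieve, if helpful. -/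
theorem Vz_ge (z : ℕ) (hz : 1 ≤ z) : Real.log z ≤ Vz z := by
  classical
  have h1 : Real.log z ≤ ∑ n ∈ Icc 1 z, (1 : ℝ) / n := by
    have h2 := log_add_one_le_harmonic z
    have h3 : (harmonic z : ℝ) = ∑ n ∈ Icc 1 z, (1 : ℝ) / n := by
      rw [harmonic_eq_sum_Icc]
      push_cast
      exact Finset.sum_congr rfl fun n _ => by rw [one_div]
    rw [h3] at h2
    refine le_trans (Real.log_le_log (by exact_mod_cast hz) ?_) h2
    push_cast
    linarith
  refine h1.trans ?_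
  have hmaps : ∀ n ∈ Icc 1 z, (∏ p ∈ n.primeFactors, p) ∈ (Icc 1 z).filter Squarefree := by
    intro n hn
    rw [Finset.mem_Icc] at hn
    rw [Finset.mem_filter, Finset.mem_Icc]
    have hn0 : n ≠ 0 := by omega
    have h2 := (s2_rad n hn0).1
    refine ⟨⟨Nat.pos_of_ne_zero h2.ne_zero, ?_⟩, h2⟩
    exact (Nat.le_of_dvd (by omega) (Nat.prod_primeFactors_dvd n)).trans hn.2
  rw [← Finset.sum_fiberwise_of_maps_to hmaps]
  have h2 : ∑ q ∈ (Icc 1 z).filter Squarefree, (1 : ℝ) / (Nat.totient q : ℝ) = Vz z := by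
    unfold Vz
    rw [Finset.sum_filter]
    refine Finset.sum_congr rfl fun q _ => ?_
    by_cases hq : Squarefree q
    · rw [if_pos hq]
      have h3 : (ArithmeticFunction.moebius q : ℤ) ^ 2 = 1 := by
        rw [ArithmeticFunction.moebius_sq, if_pos hq]
      have h4 : (ArithmeticFunction.moebius q : ℝ) ^ 2 = 1 := by exact_mod_cast h3
      rw [h4]
    · rw [if_neg hq, ArithmeticFunction.moebius_eq_zero_of_not_squarefree hq]
      simp
  rw [← h2]
  refine Finset.sum_le_sum fun q hq => ?_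
  exact s2_fiber q z (Finset.mem_filter.1 hq).2

theorem Vz_ge_one (z : ℕ) (hz : 1 ≤ z) : 1 ≤ Vz z := by
  unfold Vz
  have h1 : (1 : ℝ) = ∑ q ∈ ({1} : Finset ℕ),
      (ArithmeticFunction.moebius q : ℝ) ^ 2 / (Nat.totient q : ℝ) := by simp
  rw [h1]
  refine Finset.sum_le_sum_of_subset_of_nonneg ?_ fun q _ _ => by positivity
  intro q hq
  rw [Finset.mem_singleton] at hq
  rw [hq, Finset.mem_Icc]
  omega

/-- For a prime `n > z`: `c_q(n) = μ(q)` for `q ≤ z` (only `d = 1` divides both), so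
`G z n = V z`. -/
theorem G_prime (z n : ℕ) (hn : n.Prime) (hzn : z < n) : G z n = Vz z := by
  unfold G Vz
  refine Finset.sum_congr rfl fun q hq => ?_
  rw [Finset.mem_Icc] at hq
  have h1 : cq q (n : ℤ) = (ArithmeticFunction.moebius q : ℝ) := by
    unfold cq
    have h2 : q.divisors.filter (fun d : ℕ => (d : ℤ) ∣ (n : ℤ)) = {1} := by
      ext d
      rw [Finset.mem_filter, Nat.mem_divisors, Finset.mem_singleton, Int.natCast_dvd_natCast]
      constructor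
      · rintro ⟨⟨h3, h4⟩, h5⟩
        rcases (Nat.dvd_prime hn).1 h5 with h6 | h6
        · exact h6
        · exfalso
          have := Nat.le_of_dvd (by omega) h3
          omega
      · rintro rfl
        exact ⟨⟨one_dvd _, by omega⟩, one_dvd _⟩
    rw [h2, Finset.sum_singleton]
    simp
  rw [h1]
  ring

/-- Mean square of `G z` over an interval: `∑_{n ∈ (M, M+N]} G(z,n)² ≤ N V + z^8`.

Proof. `c_q(n) = ∑_{a mod q, (a,q)=1} e(a n/q)`-free proof: `∑_{n ∈ (M, M+N]} c_q(n) c_q'(n) =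
∑_{d ∣ q, d' ∣ q'} d d' μ(q/d) μ(q'/d') #{n : lcm(d,d') ∣ n}`, and `# = N/lcm(d,d') + θ`,
`|θ| ≤ 1`. The main part is `N ∑_{d ∣ q} ∑_{d' ∣ q'} μ(q/d) μ(q'/d') gcd(d,d') = N φ(q) 1[q = q']`
(`gcd(d,d') = ∑_{e ∣ d, e ∣ d'} φ(e)` and Möbius inversion: `∑_{d ∣ q} μ(q/d) 1[e ∣ d] = 1[e = q]`);
the error is at most `(∑_{d ∣ q} d)(∑_{d' ∣ q'} d') ≤ (z²)(z²) = z^4`. Then
`∑ G² = ∑_{q,q'} μ(q) μ(q')/(φ(q) φ(q')) ∑_n c_q c_q' ≤ N ∑_q μ²(q)/φ(q) + z² z^4`. (The same
computation, for shifted arguments, is in `H68T` (search `corr`, file `CG1`) and `H18E`.) -/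
theorem G_sq_sum (z M N : ℕ) :
    ∑ n ∈ Ioc M (M + N), G z n ^ 2 ≤ N * Vz z + (z : ℝ) ^ 8 := by
  have hcast : ∀ k : ℕ, (ArithmeticFunction.moebius k : ℝ) ^ 2 ≤ 1 := by
    intro k
    have := cg1_abs_moebius_le k
    rw [sq_le_one_iff_abs_le_one]
    exact this
  have hsum : ∑ n ∈ Ioc M (M + N), G z n ^ 2 =
      ∑ c ∈ range N, G z (((M + 1 : ℕ) : ℤ) + (1 : ℕ) * (c : ℕ)) ^ 2 := by
    have h1 : Ioc M (M + N) = (range N).image (fun c => M + 1 + c) := by
      ext n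
      rw [Finset.mem_Ioc, Finset.mem_image]
      constructor
      · rintro ⟨h1, h2⟩
        exact ⟨n - (M + 1), Finset.mem_range.2 (by omega), by omega⟩
      · rintro ⟨c, hc, rfl⟩
        rw [Finset.mem_range] at hc
        omega
    rw [h1, Finset.sum_image]
    · refine Finset.sum_congr rfl fun c _ => ?_
      congr 2
      push_cast
      ring
    · intro a _ b _ hab
      simpa using hab
  rw [hsum]
  set x : ℤ := ((M + 1 : ℕ) : ℤ) with hx
  set a : ℕ → ℝ := fun q => (ArithmeticFunction.moebius q : ℝ) / (Nat.totient q : ℝ) with ha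
  have hexp : ∑ c ∈ range N, G z (x + (1 : ℕ) * (c : ℕ)) ^ 2 =
      ∑ q₁ ∈ Icc 1 z, ∑ q₂ ∈ Icc 1 z, a q₁ * a q₂ *
        ∑ c ∈ range N, cq q₁ (x + (1 : ℕ) * (c : ℕ)) * cq q₂ (x + (1 : ℕ) * (c : ℕ)) := by
    have h1 : ∀ c ∈ range N, G z (x + (1 : ℕ) * (c : ℕ)) ^ 2 =
        ∑ q₁ ∈ Icc 1 z, ∑ q₂ ∈ Icc 1 z, a q₁ * a q₂ *
          (cq q₁ (x + (1 : ℕ) * (c : ℕ)) * cq q₂ (x + (1 : ℕ) * (c : ℕ))) := by
      intro c _
      unfold G
      rw [sq, Finset.sum_mul_sum]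
      refine Finset.sum_congr rfl fun q₁ _ => Finset.sum_congr rfl fun q₂ _ => ?_
      simp only [ha]
      ring
    rw [Finset.sum_congr rfl h1, Finset.sum_comm]
    refine Finset.sum_congr rfl fun q₁ _ => ?_
    rw [Finset.sum_comm]
    refine Finset.sum_congr rfl fun q₂ _ => ?_
    rw [Finset.mul_sum]
  rw [hexp]
  have hsig : ∀ q ∈ Icc 1 z, ∑ d ∈ q.divisors, (d : ℝ) ≤ (z : ℝ) ^ 2 := by
    intro q hq
    rw [Finset.mem_Icc] at hq
    have hqz : (q : ℝ) ≤ z := by exact_mod_cast hq.2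
    calc ∑ d ∈ q.divisors, (d : ℝ) ≤ ∑ d ∈ q.divisors, (q : ℝ) :=
          Finset.sum_le_sum fun d hd => by exact_mod_cast Nat.divisor_le hd
      _ = (q.divisors.card : ℝ) * q := by rw [Finset.sum_const, nsmul_eq_mul]
      _ ≤ (q : ℝ) * q := by
          refine mul_le_mul_of_nonneg_right ?_ (by positivity)
          exact_mod_cast Nat.card_divisors_le_self q
      _ ≤ (z : ℝ) ^ 2 := by
          rw [sq]
          exact mul_le_mul hqz hqz (by positivity) (by positivity)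
  have hsig0 : ∀ q : ℕ, 0 ≤ ∑ d ∈ q.divisors, (d : ℝ) := fun q =>
    Finset.sum_nonneg fun d _ => by positivity
  have ha1 : ∀ q ∈ Icc 1 z, |a q| ≤ 1 := by
    intro q hq
    rw [Finset.mem_Icc] at hq
    simp only [ha]
    rw [abs_div]
    have h1 : (1 : ℝ) ≤ (Nat.totient q : ℝ) := by
      exact_mod_cast Nat.totient_pos.2 (by omega)
    rw [abs_of_nonneg (by linarith : (0 : ℝ) ≤ (Nat.totient q : ℝ)), div_le_one (by linarith)]
    exact (cg1_abs_moebius_le q).trans h1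
  have hcq0 : ∀ q ∈ Icc 1 z, cq q 0 = (Nat.totient q : ℝ) := by
    intro q hq
    rw [Finset.mem_Icc] at hq
    have h2 := cg1_moebius (fun i => (Nat.totient i : ℝ)) (fun n => (n : ℝ))
      (fun n _ => by exact_mod_cast Nat.sum_totient n) q (by omega)
    rw [← h2]
    unfold cq
    simp only [dvd_zero, Finset.filter_true]
    exact Finset.sum_congr rfl fun d _ => mul_comm _ _
  have hterm : ∀ q₁ ∈ Icc 1 z, ∀ q₂ ∈ Icc 1 z, a q₁ * a q₂ *
        ∑ c ∈ range N, cq q₁ (x + (1 : ℕ) * (c : ℕ)) * cq q₂ (x + (1 : ℕ) * (c : ℕ)) ≤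
      a q₁ * a q₂ * (N * (if q₁ = q₂ then cq q₁ (x - x) else 0)) + (z : ℝ) ^ 4 := by
    intro q₁ h₁ q₂ h₂
    have h₁' := Finset.mem_Icc.1 h₁
    have h₂' := Finset.mem_Icc.1 h₂
    have h3 := Pool.Agent.Lib.H18E.corr_gen q₁ q₂ 1 N x x (by omega) (by omega)
      (Nat.coprime_one_right _) (Nat.coprime_one_right _)
    set S := ∑ c ∈ range N, cq q₁ (x + (1 : ℕ) * (c : ℕ)) * cq q₂ (x + (1 : ℕ) * (c : ℕ)) with hS
    set T := N * (if q₁ = q₂ then cq q₁ (x - x) else 0) with hT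
    have h4 : a q₁ * a q₂ * S - a q₁ * a q₂ * T ≤ (z : ℝ) ^ 4 := by
      calc a q₁ * a q₂ * S - a q₁ * a q₂ * T = (a q₁ * a q₂) * (S - T) := by ring
        _ ≤ |(a q₁ * a q₂) * (S - T)| := le_abs_self _
        _ = |a q₁| * |a q₂| * |S - T| := by rw [abs_mul, abs_mul]
        _ ≤ 1 * 1 * ((z : ℝ) ^ 2 * (z : ℝ) ^ 2) := by
            refine mul_le_mul (mul_le_mul (ha1 q₁ h₁) (ha1 q₂ h₂) (abs_nonneg _) zero_le_one)
              (h3.trans (mul_le_mul (hsig q₁ h₁) (hsig q₂ h₂) (hsig0 q₂) (by positivity)))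
              (abs_nonneg _) (by norm_num)
        _ = (z : ℝ) ^ 4 := by ring
    linarith
  refine (Finset.sum_le_sum fun q₁ h₁ => Finset.sum_le_sum fun q₂ h₂ =>
    hterm q₁ h₁ q₂ h₂).trans ?_
  have hmain : ∑ q₁ ∈ Icc 1 z, ∑ q₂ ∈ Icc 1 z, (a q₁ * a q₂ *
      (N * (if q₁ = q₂ then cq q₁ (x - x) else 0)) + (z : ℝ) ^ 4) =
      N * Vz z + (z : ℝ) ^ 2 * (z : ℝ) ^ 4 := by
    simp only [Finset.sum_add_distrib, Finset.sum_const, Nat.card_Icc, nsmul_eq_mul,
      add_tsub_cancel_right]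
    congr 1
    · unfold Vz
      rw [Finset.mul_sum]
      refine Finset.sum_congr rfl fun q₁ h₁ => ?_
      rw [Finset.sum_eq_single q₁]
      · rw [if_pos rfl, sub_self, hcq0 q₁ h₁]
        simp only [ha]
        have h1 : (0 : ℝ) < (Nat.totient q₁ : ℝ) := by
          exact_mod_cast Nat.totient_pos.2 (by have := Finset.mem_Icc.1 h₁; omega)
        field_simp
      · intro q₂ _ h
        rw [if_neg (Ne.symm h)]
        ring
      · intro h
        exact absurd h₁ h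
    · ring
  rw [hmain]
  have h5 : (z : ℝ) ^ 2 * (z : ℝ) ^ 4 ≤ (z : ℝ) ^ 8 := by
    rcases Nat.eq_zero_or_pos z with h0 | h0
    · subst h0; norm_num
    · have h1 : (1 : ℝ) ≤ z := by exact_mod_cast h0
      calc (z : ℝ) ^ 2 * (z : ℝ) ^ 4 = (z : ℝ) ^ 6 := by ring
        _ ≤ (z : ℝ) ^ 8 := pow_le_pow_right₀ h1 (by norm_num)
  linarith

end Pool.Agent.Lib.H18Q
end

-- from Lib.H18Q.R0
section

/-!
# Project H18Q: the power regime

`RegP K Q X`: `(log X)^K ≤ Q` and `Q^K ≤ X`, `X` large. The lemmas are those of `H68T/RegL.lean` with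
the same proofs.
-/

namespace Pool.Agent.Lib.H18Q

open Real Pool.Agent.Lib.H68T

/-- The regime of the parameters: `(log X)^K ≤ Q` and `Q^K ≤ X`, `X` large. -/
def RegP (K : ℝ) (Q X : ℕ) : Prop :=
  K ≤ Real.log (Real.log X) ∧ K * Real.log (Real.log X) ≤ Real.log Q ∧
    K * Real.log Q ≤ Real.log X

theorem RegP.mono {K K' : ℝ} {Q X : ℕ} (h : RegP K Q X) (h0 : 0 ≤ K) (hK : K' ≤ K) :
    RegP K' Q X := by
  obtain ⟨h1, h2, h3⟩ := h
  have hll : 0 ≤ log (log X) := h0.trans h1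
  have hQ : 0 ≤ log Q := by positivity
  exact ⟨hK.trans h1, (mul_le_mul_of_nonneg_right hK hll).trans h2,
    (mul_le_mul_of_nonneg_right hK hQ).trans h3⟩


theorem RegP.logX_ge {K : ℝ} {Q X : ℕ} (h : RegP K Q X) (hK : 0 < K) : exp K ≤ log X := by
  have h1 : 0 < log (log X) := hK.trans_le h.1
  have h2 : 0 < log X := by
    by_contra hc
    push Not at hc
    have h3 : (0:ℝ) ≤ log X := by positivity
    have h4 : log (X:ℝ) = 0 := le_antisymm hc h3
    rw [h4] at h1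
    simp at h1
  exact (Real.le_log_iff_exp_le h2).mp h.1

theorem RegP.logX_pos {K : ℝ} {Q X : ℕ} (h : RegP K Q X) (hK : 0 < K) : 0 < log X :=
  (exp_pos K).trans_le (h.logX_ge hK)

theorem RegP.X_pos {K : ℝ} {Q X : ℕ} (h : RegP K Q X) (hK : 0 < K) : 0 < X := by
  rcases Nat.eq_zero_or_pos X with h0 | h0
  · have := h.logX_pos hK
    rw [h0] at this
    simp at this
  · exact h0

theorem RegP.logX_ge_one {K : ℝ} {Q X : ℕ} (h : RegP K Q X) (hK : 0 < K) : 1 ≤ log X := by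
  have h1 := h.logX_ge hK
  have h2 : (1:ℝ) ≤ exp K := Real.one_le_exp hK.le
  linarith

theorem RegP.X_ge {K : ℝ} {Q X : ℕ} (h : RegP K Q X) (hK : 0 < K) : K ≤ X := by
  have h1 := h.logX_ge hK
  have h2 : K + 1 ≤ exp K := Real.add_one_le_exp K
  have h3 : log X ≤ X := (Real.log_le_sub_one_of_pos (by exact_mod_cast h.X_pos hK)).trans
    (by linarith)
  linarith


theorem RegP.logQ_ge {K : ℝ} {Q X : ℕ} (h : RegP K Q X) (hK : 1 ≤ K) : K ≤ log Q := by
  have h1 : 1 ≤ log (log X) := hK.trans h.1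
  have := h.2.1
  nlinarith

theorem RegP.Q_ge {K : ℝ} {Q X : ℕ} (h : RegP K Q X) (hK : 1 ≤ K) : K ≤ Q := by
  have h1 := h.logQ_ge hK
  have h3 : log Q ≤ Q := by
    rcases Nat.eq_zero_or_pos Q with h0 | h0
    · rw [h0]; simp
    · exact (Real.log_le_sub_one_of_pos (by exact_mod_cast h0)).trans (by linarith)
  linarith

theorem RegP.Q_pos {K : ℝ} {Q X : ℕ} (h : RegP K Q X) (hK : 1 ≤ K) : 0 < Q := by
  have h1 := h.Q_ge hK
  have h2 : (0:ℝ) < Q := by linarith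
  exact_mod_cast h2

/-- `K log Q ≤ log X` -/
theorem RegP.logQ_le {K : ℝ} {Q X : ℕ} (h : RegP K Q X) (_hK : 1 ≤ K) : K * log Q ≤ log X := h.2.2


/-- Absorb constants and powers of `log X` into a power of `Q`. -/
theorem regp_log_le (C A ε : ℝ) (hε : 0 < ε) : ∃ K : ℝ, 1 ≤ K ∧ ∀ Q X : ℕ, RegP K Q X →
    C * (log X) ^ A ≤ (Q : ℝ) ^ ε := by
  refine ⟨1 + |A| / ε + (1 + |C|) / ε, by
    have : 0 ≤ |A| / ε := by positivity
    have : 0 ≤ (1 + |C|) / ε := by positivity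
    linarith, fun Q X h => ?_⟩
  set K := 1 + |A| / ε + (1 + |C|) / ε with hKdef
  have hA : 0 ≤ |A| / ε := by positivity
  have hC : 0 ≤ (1 + |C|) / ε := by positivity
  have hK : 1 ≤ K := by rw [hKdef]; linarith
  have hK0 : 0 < K := by linarith
  have hlX := h.logX_pos hK0
  have hll : 1 ≤ log (log X) := hK.trans h.1
  have hQ : (0:ℝ) < Q := by exact_mod_cast h.Q_pos hK
  rcases le_or_gt C 0 with hC0 | hC0
  · have : C * (log X) ^ A ≤ 0 :=
      mul_nonpos_of_nonpos_of_nonneg hC0 (Real.rpow_nonneg hlX.le _)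
    exact this.trans (Real.rpow_nonneg hQ.le _)
  rw [Real.rpow_def_of_pos hlX, Real.rpow_def_of_pos hQ]
  have h1 : C ≤ exp (log (log X) * (1 + |C|)) := by
    have : C ≤ exp C := by linarith [Real.add_one_le_exp C]
    refine this.trans (Real.exp_le_exp.mpr ?_)
    have : C ≤ |C| := le_abs_self C
    nlinarith [abs_nonneg C]
  calc C * exp (log (log X) * A) ≤ exp (log (log X) * (1 + |C|)) * exp (log (log X) * A) :=
        mul_le_mul_of_nonneg_right h1 (exp_pos _).le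
    _ = exp (log (log X) * (1 + |C| + A)) := by rw [← Real.exp_add]; ring_nf
    _ ≤ exp (log Q * ε) := by
        apply Real.exp_le_exp.mpr
        have h2 : K * log (log X) ≤ log Q := h.2.1
        have h3 : (1 + |C| + A) ≤ K * ε := by
          rw [hKdef]
          have e1 : |A| / ε * ε = |A| := div_mul_cancel₀ _ hε.ne'
          have e2 : (1 + |C|) / ε * ε = 1 + |C| := div_mul_cancel₀ _ hε.ne'
          have : A ≤ |A| := le_abs_self A
          nlinarith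
        calc log (log X) * (1 + |C| + A) ≤ log (log X) * (K * ε) :=
              mul_le_mul_of_nonneg_left h3 (by linarith)
          _ = (K * log (log X)) * ε := by ring
          _ ≤ log Q * ε := mul_le_mul_of_nonneg_right h2 hε.le

/-- Absorb constants and powers of `Q` into a power of `X`. -/
theorem regp_pow_le (C A ε : ℝ) (hε : 0 < ε) : ∃ K : ℝ, 1 ≤ K ∧ ∀ Q X : ℕ, RegP K Q X →
    C * (Q : ℝ) ^ A ≤ (X : ℝ) ^ ε := by
  refine ⟨1 + |A| / ε + (1 + |C|) / ε, by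
    have : 0 ≤ |A| / ε := by positivity
    have : 0 ≤ (1 + |C|) / ε := by positivity
    linarith, fun Q X h => ?_⟩
  set K := 1 + |A| / ε + (1 + |C|) / ε with hKdef
  have hA : 0 ≤ |A| / ε := by positivity
  have hC : 0 ≤ (1 + |C|) / ε := by positivity
  have hK : 1 ≤ K := by rw [hKdef]; linarith
  have hK0 : 0 < K := by linarith
  have hQ : (0:ℝ) < Q := by exact_mod_cast h.Q_pos hK
  have hX : (0:ℝ) < X := by exact_mod_cast h.X_pos hK0
  have hlQ : 1 ≤ log Q := hK.trans (h.logQ_ge hK)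
  rcases le_or_gt C 0 with hC0 | hC0
  · have : C * (Q:ℝ) ^ A ≤ 0 :=
      mul_nonpos_of_nonpos_of_nonneg hC0 (Real.rpow_nonneg hQ.le _)
    exact this.trans (Real.rpow_nonneg hX.le _)
  rw [Real.rpow_def_of_pos hQ, Real.rpow_def_of_pos hX]
  have h1 : C ≤ exp (log Q * (1 + |C|)) := by
    have : C ≤ exp C := by linarith [Real.add_one_le_exp C]
    refine this.trans (Real.exp_le_exp.mpr ?_)
    have : C ≤ |C| := le_abs_self C
    nlinarith [abs_nonneg C]
  calc C * exp (log Q * A) ≤ exp (log Q * (1 + |C|)) * exp (log Q * A) :=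
        mul_le_mul_of_nonneg_right h1 (exp_pos _).le
    _ = exp (log Q * (1 + |C| + A)) := by rw [← Real.exp_add]; ring_nf
    _ ≤ exp (log X * ε) := by
        apply Real.exp_le_exp.mpr
        have h2 : K * log Q ≤ log X := h.logQ_le hK
        have h3 : (1 + |C| + A) ≤ K * ε := by
          rw [hKdef]
          have e1 : |A| / ε * ε = |A| := div_mul_cancel₀ _ hε.ne'
          have e2 : (1 + |C|) / ε * ε = 1 + |C| := div_mul_cancel₀ _ hε.ne'
          have : A ≤ |A| := le_abs_self A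
          nlinarith
        calc log Q * (1 + |C| + A) ≤ log Q * (K * ε) :=
              mul_le_mul_of_nonneg_left h3 (by linarith)
          _ = (K * log Q) * ε := by ring
          _ ≤ log X * ε := mul_le_mul_of_nonneg_right h2 hε.le


end Pool.Agent.Lib.H18Q
end

-- from Lib.H68X.XL1
section

/-!
# Chunk XL1: an elementary lower bound for `L(1,ψ)`
-/

open Finset

namespace Pool.Agent.Lib.H68T

section zetaMul

open scoped ComplexOrder
open ArithmeticFunction hiding log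
open DirichletCharacter

theorem XL1_zm_prime {N : ℕ} {χ : DirichletCharacter ℂ N} (hχ : χ ^ 2 = 1) {p : ℕ}
    (hp : p.Prime) (k : ℕ) : 1 ≤ zetaMul χ (p ^ (2 * k)) := by
  have h0 : zetaMul χ (p ^ (2 * k)) = ∑ i ∈ range (2 * k + 1), (χ (p : ZMod N)) ^ i := by
    rw [zetaMul, coe_zeta_mul_apply, Nat.sum_divisors_prime_pow hp]
    refine sum_congr rfl fun i _ => ?_
    show (if p ^ i = 0 then (0 : ℂ) else χ ((p ^ i : ℕ) : ZMod N)) = _
    rw [if_neg (pow_ne_zero _ hp.ne_zero)]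
    push_cast
    rw [map_pow]
  rw [h0]
  rcases MulChar.isQuadratic_iff_sq_eq_one.mpr hχ p with h | h | h
  · rw [h, sum_range_succ']
    simp
  · rw [h]
    simp only [one_pow, sum_const, card_range, nsmul_eq_mul, mul_one]
    have : (1 : ℂ) ≤ ((2 * k + 1 : ℕ) : ℂ) := by
      rw [← Nat.cast_one]
      exact_mod_cast (by omega : 1 ≤ 2 * k + 1)
    exact this
  · rw [h, neg_one_geom_sum, if_neg]
    rw [Nat.not_even_iff_odd]
    exact ⟨k, rfl⟩

theorem XL1_zm_sq {N : ℕ} {χ : DirichletCharacter ℂ N} (hχ : χ ^ 2 = 1) {m : ℕ} (hm : m ≠ 0) :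
    1 ≤ zetaMul χ (m ^ 2) := by
  rw [χ.isMultiplicative_zetaMul.multiplicative_factorization _ (pow_ne_zero 2 hm)]
  rw [Finsupp.prod]
  refine Finset.prod_induction _ (fun z : ℂ => 1 ≤ z) ?_ le_rfl ?_
  · intro a b ha hb
    exact one_le_mul_of_one_le_of_one_le ha hb
  · intro p hp
    rw [Nat.support_factorization] at hp
    have h1 : (m ^ 2).factorization p = 2 * m.factorization p := by
      rw [Nat.factorization_pow]
      rfl
    rw [h1]
    exact XL1_zm_prime hχ (Nat.prime_of_mem_primeFactors hp) _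

theorem XL1_zm_re {N : ℕ} {χ : DirichletCharacter ℂ N} (hχ : χ ^ 2 = 1) (n : ℕ) :
    0 ≤ (zetaMul χ n).re := by
  have := (Complex.le_def.1 (zetaMul_nonneg hχ n)).1
  simpa using this

theorem XL1_zm_sq_re {N : ℕ} {χ : DirichletCharacter ℂ N} (hχ : χ ^ 2 = 1) {m : ℕ} (hm : m ≠ 0) :
    1 ≤ (zetaMul χ (m ^ 2)).re := by
  have := (Complex.le_def.1 (XL1_zm_sq hχ hm)).1
  simpa using this

theorem XL1_zm_eq {N : ℕ} (χ : DirichletCharacter ℂ N) (n : ℕ) :
    zetaMul χ n = ∑ d ∈ n.divisors, χ (d : ZMod N) := by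
  rw [zetaMul, coe_zeta_mul_apply]
  refine sum_congr rfl fun d hd => ?_
  show (if d = 0 then (0 : ℂ) else χ (d : ZMod N)) = _
  rw [if_neg (Nat.pos_of_mem_divisors hd).ne']

end zetaMul

theorem XL1_swap (K : ℕ) (f : ℕ → ℕ → ℂ) :
    ∑ n ∈ Ioc 0 K, ∑ d ∈ n.divisors, f d n = ∑ d ∈ Ioc 0 K, ∑ e ∈ Ioc 0 (K / d), f d (d * e) := by
  have h1 : ∀ n ∈ Ioc 0 K, ∑ d ∈ n.divisors, f d n =
      ∑ d ∈ Ioc 0 K, if d ∣ n then f d n else 0 := by
    intro n hn
    obtain ⟨hn1, hn2⟩ := mem_Ioc.1 hn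
    rw [← sum_filter]
    refine sum_congr ?_ fun _ _ => rfl
    ext d
    simp only [Nat.mem_divisors, mem_filter, mem_Ioc]
    constructor
    · rintro ⟨h1, h2⟩
      exact ⟨⟨Nat.pos_of_dvd_of_pos h1 hn1, (Nat.le_of_dvd hn1 h1).trans hn2⟩, h1⟩
    · rintro ⟨-, h1⟩
      exact ⟨h1, by omega⟩
  rw [sum_congr rfl h1, sum_comm]
  refine sum_congr rfl fun d hd => ?_
  have hd0 : 0 < d := (mem_Ioc.1 hd).1
  rw [← sum_filter]
  symm
  refine sum_nbij (fun e => d * e) ?_ ?_ ?_ ?_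
  · intro e he
    obtain ⟨he1, he2⟩ := mem_Ioc.1 he
    rw [mem_filter, mem_Ioc]
    refine ⟨⟨Nat.mul_pos hd0 he1, ?_⟩, dvd_mul_right _ _⟩
    have := (Nat.le_div_iff_mul_le hd0).1 he2
    rwa [mul_comm] at this
  · intro e _ e' _ h
    exact Nat.eq_of_mul_eq_mul_left hd0 h
  · intro n hn
    rw [mem_coe, mem_filter, mem_Ioc] at hn
    obtain ⟨⟨h1, h2⟩, e, rfl⟩ := hn
    refine ⟨e, ?_, rfl⟩
    rw [mem_coe, mem_Ioc]
    refine ⟨Nat.pos_of_mul_pos_left h1, ?_⟩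
    rw [Nat.le_div_iff_mul_le hd0, mul_comm]
    exact h2
  · intro e _
    rfl

/-- `1 + t + ... + t^(n-1) ≥ n s^(n-1)`, `t = s²` -/
theorem XL1_geom (s : ℝ) (n : ℕ) :
    (n : ℝ) * s ^ (n - 1) ≤ ∑ i ∈ range n, (s ^ 2) ^ i := by
  have h1 : ∑ i ∈ range n, (s ^ 2) ^ (n - 1 - i) = ∑ i ∈ range n, (s ^ 2) ^ i :=
    sum_range_reflect (fun i => (s ^ 2) ^ i) n
  have h2 : ∑ i ∈ range n, (2 * s ^ (n - 1)) ≤
      ∑ i ∈ range n, ((s ^ 2) ^ i + (s ^ 2) ^ (n - 1 - i)) := by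
    refine sum_le_sum fun i hi => ?_
    have hi' := mem_range.1 hi
    have h3 : s ^ (n - 1) = s ^ i * s ^ (n - 1 - i) := by
      rw [← pow_add]
      congr 1
      omega
    rw [h3, ← pow_mul, ← pow_mul, mul_comm 2 i, mul_comm 2 (n - 1 - i), pow_mul, pow_mul]
    nlinarith [sq_nonneg (s ^ i - s ^ (n - 1 - i))]
  rw [sum_add_distrib, h1, sum_const, card_range, nsmul_eq_mul] at h2
  linarith

/-- the coefficients of Monsky's proof -/
noncomputable def XL1_b (t : ℝ) (k : ℕ) : ℝ :=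
  1 / ((k + 1) * (1 - t)) - t ^ (k + 1) / (1 - t ^ (k + 1))

theorem XL1_b_zero {t : ℝ} (ht1 : t < 1) : XL1_b t 0 = 1 := by
  unfold XL1_b
  have : 1 - t ≠ 0 := by linarith
  simp only [Nat.cast_zero, zero_add, one_mul, pow_one]
  field_simp

theorem XL1_g {t : ℝ} (ht1 : t < 1) (n : ℕ) :
    1 - t ^ n = (1 - t) * ∑ i ∈ range n, t ^ i := by
  have := mul_neg_geom_sum t n
  rw [← this]

theorem XL1_b_anti {t : ℝ} (ht0 : 0 < t) (ht1 : t < 1) (k : ℕ) :
    XL1_b t (k + 1) ≤ XL1_b t k := by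
  set s := √t with hs
  have hs2 : s ^ 2 = t := Real.sq_sqrt ht0.le
  have hs0 : 0 < s := Real.sqrt_pos.2 ht0
  have hs1 : s ≤ 1 := Real.sqrt_le_one.2 ht1.le
  have h1 := XL1_geom s (k + 1)
  have h2 := XL1_geom s (k + 2)
  rw [hs2] at h1 h2
  set g1 := ∑ i ∈ range (k + 1), t ^ i with hg1
  set g2 := ∑ i ∈ range (k + 2), t ^ i with hg2
  have e1 : 1 - t ^ (k + 1) = (1 - t) * g1 := XL1_g ht1 _
  have e2 : 1 - t ^ (k + 2) = (1 - t) * g2 := XL1_g ht1 _
  have ht' : 0 < 1 - t := by linarith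
  have hg1p : 0 < g1 := sum_pos (fun i _ => pow_pos ht0 i) ⟨0, mem_range.2 (by omega)⟩
  have hg2p : 0 < g2 := sum_pos (fun i _ => pow_pos ht0 i) ⟨0, mem_range.2 (by omega)⟩
  have h3 : ((k : ℝ) + 1) * (k + 2) * t ^ (k + 1) ≤ g1 * g2 := by
    have h4 : ((k : ℝ) + 1) * s ^ k ≤ g1 := by
      have : k + 1 - 1 = k := rfl
      rw [this] at h1
      push_cast at h1
      exact h1
    have h5 : ((k : ℝ) + 2) * s ^ (k + 1) ≤ g2 := by
      have : k + 2 - 1 = k + 1 := rfl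
      rw [this] at h2
      push_cast at h2
      exact h2
    have h6 : (((k : ℝ) + 1) * s ^ k) * (((k : ℝ) + 2) * s ^ (k + 1)) ≤ g1 * g2 :=
      mul_le_mul h4 h5 (by positivity) hg1p.le
    refine le_trans ?_ h6
    have h7 : t ^ (k + 1) ≤ s ^ k * s ^ (k + 1) := by
      rw [← hs2, ← pow_mul, ← pow_add]
      exact pow_le_pow_of_le_one hs0.le hs1 (by omega)
    calc ((k : ℝ) + 1) * (k + 2) * t ^ (k + 1) ≤ ((k : ℝ) + 1) * (k + 2) * (s ^ k * s ^ (k + 1)) :=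
          mul_le_mul_of_nonneg_left h7 (by positivity)
      _ = _ := by ring
  unfold XL1_b
  have e3 : k + 1 + 1 = k + 2 := rfl
  rw [e3, e1, e2]
  push_cast
  have h8 : t ^ (k + 1) / ((1 - t) * g1) - t ^ (k + 2) / ((1 - t) * g2) =
      t ^ (k + 1) / ((1 - t) * (g1 * g2)) := by
    have h9 : t ^ (k + 1) * g2 - t ^ (k + 2) * g1 = t ^ (k + 1) := by
      have h10 : g2 = g1 + t ^ (k + 1) := by rw [hg2, hg1, sum_range_succ]
      have h11 : t ^ (k + 2) = t ^ (k + 1) * t := pow_succ _ _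
      rw [h10, h11]
      have : t ^ (k + 1) * (g1 + t ^ (k + 1)) - t ^ (k + 1) * t * g1 =
          t ^ (k + 1) * ((1 - t) * g1 + t ^ (k + 1)) := by ring
      rw [this, ← e1]
      ring
    rw [div_sub_div _ _ (by positivity) (by positivity), div_eq_div_iff (by positivity) (by positivity)]
    calc (t ^ (k + 1) * ((1 - t) * g2) - (1 - t) * g1 * t ^ (k + 2)) * ((1 - t) * (g1 * g2))
        = (t ^ (k + 1) * g2 - t ^ (k + 2) * g1) * ((1 - t) * ((1 - t) * (g1 * g2))) := by ring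
      _ = _ := by rw [h9]; ring
  have h12 : t ^ (k + 1) / ((1 - t) * (g1 * g2)) ≤ 1 / ((1 - t) * (((k : ℝ) + 1) * (k + 2))) := by
    rw [div_le_div_iff₀ (by positivity) (by positivity)]
    nlinarith
  have h13 : 1 / (((k : ℝ) + 1) * (1 - t)) - 1 / (((k : ℝ) + 1 + 1) * (1 - t)) =
      1 / ((1 - t) * (((k : ℝ) + 1) * (k + 2))) := by
    have : (k : ℝ) + 1 + 1 = k + 2 := by ring
    rw [this, div_sub_div _ _ (by positivity) (by positivity),
      div_eq_div_iff (by positivity) (by positivity)]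
    ring
  linarith

theorem XL1_b_nonneg {t : ℝ} (ht0 : 0 < t) (ht1 : t < 1) (k : ℕ) : 0 ≤ XL1_b t k := by
  unfold XL1_b
  have ht' : 0 < 1 - t := by linarith
  set g1 := ∑ i ∈ range (k + 1), t ^ i with hg1
  have e1 : 1 - t ^ (k + 1) = (1 - t) * g1 := XL1_g ht1 _
  have hg1p : 0 < g1 := sum_pos (fun i _ => pow_pos ht0 i) ⟨0, mem_range.2 (by omega)⟩
  have h1 : ((k : ℝ) + 1) * t ^ (k + 1) ≤ g1 := by
    have : ∑ i ∈ range (k + 1), t ^ (k + 1) ≤ g1 := by
      refine sum_le_sum fun i hi => ?_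
      exact pow_le_pow_of_le_one ht0.le ht1.le (mem_range.1 hi).le
    rw [sum_const, card_range, nsmul_eq_mul] at this
    push_cast at this
    exact this
  rw [e1, sub_nonneg, div_le_div_iff₀ (by positivity) (by positivity)]
  nlinarith

theorem XL1_abel (r : ℕ) [NeZero r] (ψ : DirichletCharacter ℂ r) (hψ : ψ ≠ 1) {t : ℝ}
    (ht0 : 0 < t) (ht1 : t < 1) (K : ℕ) :
    ‖∑ k ∈ range K, ψ ((k + 1 : ℕ) : ZMod r) * (XL1_b t k : ℂ)‖ ≤ r := by
  rw [gl1_parts ψ (fun k => (XL1_b t k : ℂ)) K]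
  have h1 : ‖gl1_T ψ K * (XL1_b t K : ℂ)‖ ≤ r * XL1_b t K := by
    rw [norm_mul, Complex.norm_real, Real.norm_of_nonneg (XL1_b_nonneg ht0 ht1 K)]
    exact mul_le_mul_of_nonneg_right (gl1_T_bound r ψ hψ K) (XL1_b_nonneg ht0 ht1 K)
  have h2 : ‖∑ n ∈ range K, gl1_T ψ (n + 1) * ((XL1_b t n : ℂ) - (XL1_b t (n + 1) : ℂ))‖ ≤
      r * (XL1_b t 0 - XL1_b t K) := by
    refine (norm_sum_le _ _).trans ?_
    have h3 : XL1_b t 0 - XL1_b t K = ∑ n ∈ range K, (XL1_b t n - XL1_b t (n + 1)) :=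
      (sum_range_sub' _ _).symm
    rw [h3, mul_sum]
    refine sum_le_sum fun n _ => ?_
    have h4 : (XL1_b t n : ℂ) - (XL1_b t (n + 1) : ℂ) = ((XL1_b t n - XL1_b t (n + 1) : ℝ) : ℂ) := by
      push_cast; rfl
    have h5 : 0 ≤ XL1_b t n - XL1_b t (n + 1) := sub_nonneg.2 (XL1_b_anti ht0 ht1 n)
    rw [h4, norm_mul, Complex.norm_real, Real.norm_of_nonneg h5]
    exact mul_le_mul_of_nonneg_right (gl1_T_bound r ψ hψ _) h5
  refine (norm_add_le _ _).trans ((add_le_add h1 h2).trans (le_of_eq ?_))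
  rw [XL1_b_zero ht1]
  ring

theorem XL1_F (r : ℕ) (ψ : DirichletCharacter ℂ r)
    (hψ2 : ψ ^ 2 = 1) {t : ℝ} (ht0 : 0 < t) (ht1 : t < 1) {K M : ℕ} (hK : M ^ 2 ≤ K) :
    (∑ m ∈ Ioc 0 M, t ^ (m ^ 2)) - K * (t ^ K / (1 - t)) ≤
      (∑ k ∈ range K, ψ ((k + 1 : ℕ) : ZMod r) * ((t ^ (k + 1) / (1 - t ^ (k + 1)) : ℝ) : ℂ)).re := by
  have ht' : 0 < 1 - t := by linarith
  -- reindex
  have e0 : ∑ k ∈ range K, ψ ((k + 1 : ℕ) : ZMod r) * ((t ^ (k + 1) / (1 - t ^ (k + 1)) : ℝ) : ℂ) =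
      ∑ d ∈ Ioc 0 K, ψ (d : ZMod r) * ((t ^ d / (1 - t ^ d) : ℝ) : ℂ) := by
    have h4 : Ioc 0 K = Ico 1 (K + 1) := by
      ext x
      simp only [mem_Ioc, mem_Ico]
      omega
    rw [h4, sum_Ico_eq_sum_range]
    refine sum_congr rfl fun n _ => ?_
    rw [add_comm 1 n]
  have e1 : ∀ d ∈ Ioc 0 K, ψ (d : ZMod r) * ((t ^ d / (1 - t ^ d) : ℝ) : ℂ) =
      ∑ e ∈ Ioc 0 (K / d), ψ (d : ZMod r) * ((t ^ (d * e) : ℝ) : ℂ) +
        ψ (d : ZMod r) * ((t ^ (d * (K / d + 1)) / (1 - t ^ d) : ℝ) : ℂ) := by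
    intro d hd
    have hd0 : d ≠ 0 := by have := (mem_Ioc.1 hd).1; omega
    have htd : t ^ d < 1 := pow_lt_one₀ ht0.le ht1 hd0
    have htd' : 1 - t ^ d ≠ 0 := by linarith
    rw [← mul_sum, ← mul_add]
    congr 1
    rw [← Complex.ofReal_sum, ← Complex.ofReal_add]
    congr 1
    have h4 : Ioc 0 (K / d) = Ico 1 (K / d + 1) := by
      ext x
      simp only [mem_Ioc, mem_Ico]
      omega
    rw [h4, sum_Ico_eq_sum_range, Nat.add_sub_cancel]
    have h5 : ∑ k ∈ range (K / d), t ^ (d * (1 + k)) = t ^ d * ∑ k ∈ range (K / d), (t ^ d) ^ k := by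
      rw [mul_sum]
      refine sum_congr rfl fun k _ => ?_
      rw [← pow_mul, ← pow_add]
      congr 1
      ring
    have h6 := mul_neg_geom_sum (t ^ d) (K / d)
    have h7 : ∑ k ∈ range (K / d), (t ^ d) ^ k = (1 - (t ^ d) ^ (K / d)) / (1 - t ^ d) := by
      rw [eq_div_iff htd', mul_comm, h6]
    rw [h5, h7, mul_add, pow_add, mul_one, pow_mul]
    field_simp
    ring
  rw [e0, sum_congr rfl e1, sum_add_distrib,
    ← XL1_swap K (fun d n => ψ (d : ZMod r) * ((t ^ n : ℝ) : ℂ)), Complex.add_re]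
  have h1 : ∑ m ∈ Ioc 0 M, t ^ (m ^ 2) ≤
      (∑ n ∈ Ioc 0 K, ∑ d ∈ n.divisors, ψ (d : ZMod r) * ((t ^ n : ℝ) : ℂ)).re := by
    have h2 : (∑ n ∈ Ioc 0 K, ∑ d ∈ n.divisors, ψ (d : ZMod r) * ((t ^ n : ℝ) : ℂ)).re =
        ∑ n ∈ Ioc 0 K, (DirichletCharacter.zetaMul ψ n).re * t ^ n := by
      rw [Complex.re_sum]
      refine sum_congr rfl fun n _ => ?_
      rw [← sum_mul, ← XL1_zm_eq, Complex.re_mul_ofReal]
    rw [h2]
    have h3 : ∑ n ∈ (Ioc 0 M).image (fun m => m ^ 2), (DirichletCharacter.zetaMul ψ n).re * t ^ n ≤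
        ∑ n ∈ Ioc 0 K, (DirichletCharacter.zetaMul ψ n).re * t ^ n := by
      refine sum_le_sum_of_subset_of_nonneg ?_ ?_
      · intro n hn
        obtain ⟨m, hm, rfl⟩ := mem_image.1 hn
        obtain ⟨hm1, hm2⟩ := mem_Ioc.1 hm
        rw [mem_Ioc]
        exact ⟨by positivity, (Nat.pow_le_pow_left hm2 2).trans hK⟩
      · intro n _ _
        exact mul_nonneg (XL1_zm_re hψ2 n) (by positivity)
    refine le_trans ?_ h3
    rw [sum_image]
    · refine sum_le_sum fun m hm => ?_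
      have hm1 := (mem_Ioc.1 hm).1
      have := XL1_zm_sq_re hψ2 (m := m) (by omega)
      exact le_mul_of_one_le_left (by positivity) this
    · intro a _ b _ hab
      exact Nat.pow_left_injective (n := 2) (by norm_num) hab
  have h8 : -(K * (t ^ K / (1 - t))) ≤
      (∑ d ∈ Ioc 0 K, ψ (d : ZMod r) * ((t ^ (d * (K / d + 1)) / (1 - t ^ d) : ℝ) : ℂ)).re := by
    refine le_trans ?_ (neg_le_of_abs_le (Complex.abs_re_le_norm _))
    rw [neg_le_neg_iff]
    refine (norm_sum_le _ _).trans ((sum_le_sum (g := fun _ => t ^ K / (1 - t)) ?_).trans ?_)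
    · intro d hd
      have hd1 : 0 < d := (mem_Ioc.1 hd).1
      have hd0 : d ≠ 0 := by omega
      have htd : t ^ d < 1 := pow_lt_one₀ ht0.le ht1 hd0
      have htd' : 0 < 1 - t ^ d := by linarith
      rw [norm_mul, Complex.norm_real, Real.norm_of_nonneg (by positivity)]
      have h9 : t ^ (d * (K / d + 1)) / (1 - t ^ d) ≤ t ^ K / (1 - t) := by
        refine div_le_div₀ (by positivity) ?_ ht' ?_
        · exact pow_le_pow_of_le_one ht0.le ht1.le (Nat.lt_mul_div_succ K hd1).le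
        · have : t ^ d ≤ t := pow_le_of_le_one ht0.le ht1.le hd0
          linarith
      calc _ ≤ 1 * (t ^ K / (1 - t)) :=
            mul_le_mul (DirichletCharacter.norm_le_one ψ _) h9 (by positivity) (by norm_num)
        _ = _ := one_mul _
    · rw [sum_const, Nat.card_Ioc, Nat.sub_zero, nsmul_eq_mul]
  linarith

/-- `|L(1,ψ)| ≥ 1/(100 r)` for a real character `ψ ≠ 1` mod `r`.

Proof (Lambert series). `a(n) = ∑_{d ∣ n} ψ(d) ≥ 0` (real part; multiplicative), `a(n) ≥ 1` for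
squares (`DirichletCharacter` file on `BadChar`/nonvanishing has `zetaMul_nonneg`). For `x ≥ 1`:
`∑_n a(n) e^(-n/x) = ∑_d ψ(d)/(e^(d/x) - 1) = x L(1,ψ) + ∑_d ψ(d) g(d/x)`,
`g(u) = 1/(e^u - 1) - 1/u`, increasing from `-1/2` to `0` on `(0, ∞)`; the partial sums of `ψ` are
at most `r` in norm, so the last sum is at most `r/2·1`... (Abel summation: `≤ r · 1/2`). The left
side is at least `∑_{m ≤ √x} e^(-1) ≥ (√x - 1)/e`. With `x = 16 r²`:
`16 r² L(1,ψ) ≥ (4r - 1)/e - r/2 ≥ r/2`. (`L(1,ψ) = ∑ ψ(d)/d`, conditionally convergent: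
`DirichletCharacter.LFunction` at `1` is the limit of the partial sums; or work with `e^(-n/x)` and
`s → 1+`, any argument is fine. The constant `100` is not important.) -/
theorem L1_lower (r : ℕ) [NeZero r] (ψ : DirichletCharacter ℂ r) (hψ : ψ ≠ 1)
    (hψ2 : ψ ^ 2 = 1) : 1 / (100 * (r : ℝ)) ≤ ‖ψ.LFunction 1‖ := by
  have hr1 : 1 ≤ r := Nat.one_le_iff_ne_zero.2 (NeZero.ne r)
  have hr : (1 : ℝ) ≤ r := by exact_mod_cast hr1
  set N : ℝ := 64 * (r : ℝ) ^ 2 with hN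
  have hN0 : 0 < N := by positivity
  have hN64 : 64 ≤ N := by rw [hN]; nlinarith
  set t : ℝ := 1 - 1 / N with ht
  have htN : 1 - t = 1 / N := by rw [ht]; ring
  have hNi : 1 / N ≤ 1 / 64 := one_div_le_one_div_of_le (by norm_num) hN64
  have hNi0 : 0 < 1 / N := by positivity
  have ht0 : 0 < t := by rw [ht]; linarith
  have ht1 : t < 1 := by rw [ht]; linarith
  have hinv : 1 / (1 - t) = N := by rw [htN, one_div_one_div]
  -- powers of t
  have hpow : (1 / 4 : ℝ) ≤ t ^ (64 * r ^ 2) := by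
    have h1 := one_add_mul_le_pow (a := -(1 / N)) (by linarith) (32 * r ^ 2)
    have h2 : 1 + ((32 * r ^ 2 : ℕ) : ℝ) * -(1 / N) = 1 / 2 := by
      push_cast
      rw [hN]
      have : (r : ℝ) ^ 2 ≠ 0 := by positivity
      field_simp
      norm_num
    rw [h2] at h1
    have h3 : 1 + -(1 / N) = t := by rw [ht]; ring
    rw [h3] at h1
    have h4 : t ^ (64 * r ^ 2) = (t ^ (32 * r ^ 2)) ^ 2 := by
      rw [← pow_mul]
      congr 1
      ring
    rw [h4]
    nlinarith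
  have hsum : 2 * (r : ℝ) ≤ ∑ m ∈ Ioc 0 (8 * r), t ^ (m ^ 2) := by
    have h1 : ∑ m ∈ Ioc 0 (8 * r), (1 / 4 : ℝ) ≤ ∑ m ∈ Ioc 0 (8 * r), t ^ (m ^ 2) := by
      refine sum_le_sum fun m hm => hpow.trans ?_
      refine pow_le_pow_of_le_one ht0.le ht1.le ?_
      have := (mem_Ioc.1 hm).2
      nlinarith
    rw [sum_const, Nat.card_Ioc, Nat.sub_zero, nsmul_eq_mul] at h1
    push_cast at h1
    linarith
  have key : ∀ K : ℕ, 64 * r ^ 2 ≤ K →
      (r : ℝ) - N * (K * t ^ K) - N * (2 * r / (K + 1)) ≤ N * ‖ψ.LFunction 1‖ := by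
    intro K hK
    have h1 := XL1_abel r ψ hψ ht0 ht1 K
    have h2 := XL1_F r ψ hψ2 ht0 ht1 (K := K) (M := 8 * r) (by nlinarith)
    have h3 := XRH_tail r ψ hψ K
    set FK := ∑ k ∈ range K, ψ ((k + 1 : ℕ) : ZMod r) * ((t ^ (k + 1) / (1 - t ^ (k + 1)) : ℝ) : ℂ)
      with hFK
    set SK := ∑ d ∈ Ioc 0 K, ψ (d : ZMod r) / d with hSK
    have h4 : ∑ k ∈ range K, ψ ((k + 1 : ℕ) : ZMod r) * (XL1_b t k : ℂ) = (N : ℂ) * SK - FK := by
      have h5 : SK = ∑ n ∈ range K, ψ ((n + 1 : ℕ) : ZMod r) * ((1 : ℂ) / (n + 1)) := by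
        have h4 : Ioc 0 K = Ico 1 (K + 1) := by
          ext x
          simp only [mem_Ioc, mem_Ico]
          omega
        rw [hSK, h4, sum_Ico_eq_sum_range]
        refine sum_congr rfl fun n _ => ?_
        rw [add_comm 1 n]
        push_cast
        ring
      rw [h5, hFK, mul_sum, ← sum_sub_distrib]
      refine sum_congr rfl fun k _ => ?_
      have h6 : XL1_b t k = N * (1 / ((k : ℝ) + 1)) - t ^ (k + 1) / (1 - t ^ (k + 1)) := by
        unfold XL1_b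
        rw [← hinv]
        congr 1
        rw [div_mul_div_comm, one_mul, mul_comm]
      rw [h6]
      push_cast
      ring
    rw [h4] at h1
    have h7 : FK.re ≤ r + N * ‖SK‖ := by
      have h8 : ‖FK‖ ≤ ‖(N : ℂ) * SK - FK‖ + ‖(N : ℂ) * SK‖ := by
        have : FK = (N : ℂ) * SK - ((N : ℂ) * SK - FK) := by ring
        nth_rewrite 1 [this]
        refine (norm_sub_le _ _).trans (le_of_eq (add_comm _ _))
      have h9 : ‖(N : ℂ) * SK‖ = N * ‖SK‖ := by
        rw [norm_mul, Complex.norm_real, Real.norm_of_nonneg hN0.le]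
      have h10 := Complex.re_le_norm FK
      linarith
    have h11 : ‖SK‖ ≤ ‖ψ.LFunction 1‖ + 2 * r / (K + 1) := by
      have : SK = ψ.LFunction 1 - (ψ.LFunction 1 - SK) := by ring
      rw [this]
      refine (norm_sub_le _ _).trans (by linarith)
    have h12 : (K : ℝ) * (t ^ K / (1 - t)) = N * (K * t ^ K) := by
      rw [← hinv]
      ring
    rw [h12] at h2
    have h13 := mul_le_mul_of_nonneg_left h11 hN0.le
    rw [mul_add] at h13
    linarith
  have hlim : Filter.Tendsto (fun K : ℕ => (r : ℝ) - N * (K * t ^ K) - N * (2 * r / (K + 1)))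
      Filter.atTop (nhds ((r : ℝ) - N * 0 - N * 0)) := by
    refine ((tendsto_const_nhds).sub (Filter.Tendsto.const_mul _ ?_)).sub
      (Filter.Tendsto.const_mul _ ?_)
    · exact tendsto_self_mul_const_pow_of_lt_one ht0.le ht1
    · have h1 := (tendsto_one_div_add_atTop_nhds_zero_nat (𝕜 := ℝ)).const_mul (2 * (r : ℝ))
      rw [mul_zero] at h1
      refine h1.congr fun K => ?_
      ring
  have hfin : (r : ℝ) - N * 0 - N * 0 ≤ N * ‖ψ.LFunction 1‖ :=
    le_of_tendsto hlim ((Filter.eventually_ge_atTop (64 * r ^ 2)).mono fun K hK => key K hK)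
  have h1 : (r : ℝ) ≤ 64 * (r : ℝ) ^ 2 * ‖ψ.LFunction 1‖ := by
    rw [← hN]; linarith
  rw [div_le_iff₀ (by positivity)]
  have h2 : (r : ℝ) * 1 ≤ r * (64 * (r : ℝ) * ‖ψ.LFunction 1‖) := by nlinarith
  have h3 := le_of_mul_le_mul_left h2 (by linarith)
  have h4 : 0 ≤ (r : ℝ) * ‖ψ.LFunction 1‖ := by positivity
  nlinarith

end Pool.Agent.Lib.H68T
end

-- from Lib.H68X.XSIE
section

/-!
# Chunk XSIE: real zeros, elementary bound
-/

open Finset

namespace Pool.Agent.Lib.H68T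

/-- Cauchy estimate for the derivative of `L(·,ψ)` near `1`. -/
theorem XSIE_deriv (r : ℕ) [NeZero r] (ψ : DirichletCharacter ℂ r) (hψ : ψ ≠ 1) (σ : ℝ)
    (h1 : 3 / 4 ≤ σ) (h2 : σ ≤ 1) : ‖deriv ψ.LFunction (σ : ℂ)‖ ≤ 10 * r := by
  have hd : Differentiable ℂ ψ.LFunction := DirichletCharacter.differentiable_LFunction hψ
  have hr : (0 : ℝ) ≤ r := Nat.cast_nonneg r
  have hb : ∀ z ∈ Metric.sphere (σ : ℂ) (1 / 4), ‖ψ.LFunction z‖ ≤ 5 / 2 * r := by
    intro z hz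
    rw [mem_sphere_iff_norm] at hz
    have hre : |z.re - σ| ≤ 1 / 4 := by
      have := Complex.abs_re_le_norm (z - σ)
      rw [hz] at this
      simpa using this
    have hre1 : (1 : ℝ) / 2 ≤ z.re := by
      have := (abs_le.1 hre).1
      linarith
    have hz2 : ‖z‖ ≤ 5 / 4 := by
      have h3 : ‖z‖ ≤ ‖z - σ‖ + ‖(σ : ℂ)‖ := by
        have := norm_add_le (z - σ) (σ : ℂ)
        simpa using this
      rw [hz, Complex.norm_real, Real.norm_eq_abs, abs_of_nonneg (by linarith)] at h3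
      linarith
    have h4 := LFunction_bound r ψ hψ z (by linarith)
    refine h4.trans ?_
    nlinarith
  have := Complex.norm_deriv_le_of_forall_mem_sphere_norm_le (c := (σ : ℂ)) (R := 1 / 4)
    (C := 5 / 2 * r) (f := ψ.LFunction) (by norm_num) hd.diffContOnCl hb
  refine this.trans (le_of_eq ?_)
  ring

/-- A real zero `β < 1` of `L(·,ψ)` satisfies `1 - β ≥ c/r²`. If `β ≤ 3/4` clear. Otherwise
`|L(1)| = |L(1) - L(β)| ≤ (1-β) sup_{[β,1]} |L'|`, and `|L'(σ)| ≤ 4 sup_{|s-σ|=1/4} |L(s)| ≤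
4 · 2 r · 5/4 = 10 r` by Cauchy and `LFunction_bound`; `L1_lower`. -/
theorem zero_elementary : ∃ c : ℝ, 0 < c ∧ ∀ (r : ℕ) [NeZero r] (ψ : DirichletCharacter ℂ r),
    ψ ≠ 1 → ψ ^ 2 = 1 → ∀ β : ℝ, β < 1 → ψ.LFunction (β : ℂ) = 0 → c / (r : ℝ) ^ 2 ≤ 1 - β := by
  refine ⟨1 / 1000, by norm_num, ?_⟩
  intro r _ ψ hψ hψ2 β hβ h0
  have hr : (1 : ℝ) ≤ r := by
    have : 0 < r := Nat.pos_of_ne_zero (NeZero.ne r)
    exact_mod_cast this
  have hr2 : (1 : ℝ) ≤ (r : ℝ) ^ 2 := one_le_pow₀ hr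
  by_cases hb : β ≤ 3 / 4
  · have : (1 / 1000 : ℝ) / (r : ℝ) ^ 2 ≤ 1 / 1000 := div_le_self (by norm_num) hr2
    linarith
  · have hb' : 3 / 4 < β := not_le.1 hb
    have hd : Differentiable ℂ ψ.LFunction := DirichletCharacter.differentiable_LFunction hψ
    have hseg : ∀ z ∈ segment ℝ (β : ℂ) 1, ∃ t : ℝ, z = t ∧ β ≤ t ∧ t ≤ 1 := by
      rintro z ⟨a, b, ha, hb1, hab, rfl⟩
      refine ⟨a * β + b, ?_, ?_, ?_⟩
      · simp
      · have : b = 1 - a := by linarith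
        subst this
        nlinarith
      · have : b = 1 - a := by linarith
        subst this
        nlinarith
    have hmv := (convex_segment (β : ℂ) (1 : ℂ)).norm_image_sub_le_of_norm_deriv_le
      (𝕜 := ℂ) (f := ψ.LFunction) (C := 10 * r) (s := segment ℝ (β : ℂ) 1)
      (x := (β : ℂ)) (y := 1) (fun z _ => hd z) ?_ (left_mem_segment ℝ _ _)
      (right_mem_segment ℝ _ _)
    · rw [h0, sub_zero] at hmv
      have h1 := L1_lower r ψ hψ hψ2
      have h2 : ‖(1 : ℂ) - (β : ℂ)‖ = 1 - β := by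
        have : (1 : ℂ) - (β : ℂ) = ((1 - β : ℝ) : ℂ) := by push_cast; ring
        rw [this, Complex.norm_real, Real.norm_eq_abs, abs_of_pos (by linarith)]
      rw [h2] at hmv
      have h3 := h1.trans hmv
      rw [div_le_iff₀ (by positivity)] at h3
      rw [div_le_iff₀ (by positivity)]
      nlinarith
    · intro z hz
      obtain ⟨t, rfl, ht1, ht2⟩ := hseg z hz
      exact XSIE_deriv r ψ hψ t (by linarith) ht2

end Pool.Agent.Lib.H68T
end

-- from Lib.H18Q.Z5A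
section

/-!
# Project H18Q, chunk Z5A: growth data of the primitive L-functions
-/

open Finset

namespace Pool.Agent.Lib.H18Q

open Pool.Agent.Lib.H68T

/-- Products. Proof: `f s₀ ≠ 0`, `g s₀ ≠ 0` at `s₀ = 1 + lam + i v` (`zre`), `logDeriv_mul`, the
rest is multiplication and the triangle inequality. -/
theorem LDat.mul {C0 C0' ℓ T : ℝ} {f g : ℂ → ℂ} (hf : LDat C0 ℓ T f) (hg : LDat C0' ℓ T g) :
    LDat (C0 + C0') ℓ T (fun s => f s * g s) := by
  refine ⟨hf.diff.mul hg.diff, ?_, ?_, ?_⟩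
  · intro ρ h
    rcases mul_eq_zero.1 h with h | h
    · exact hf.zre ρ h
    · exact hg.zre ρ h
  · intro lam v h1 h2 h3 s hs
    have h4 := hf.growth lam v h1 h2 h3 s hs
    have h5 := hg.growth lam v h1 h2 h3 s hs
    simp only [norm_mul]
    rw [add_mul, Real.exp_add]
    calc ‖f s‖ * ‖g s‖ ≤ (Real.exp (C0 * ℓ) * ‖f (1 + lam + v * Complex.I)‖) *
          (Real.exp (C0' * ℓ) * ‖g (1 + lam + v * Complex.I)‖) :=
          mul_le_mul h4 h5 (norm_nonneg _) (by positivity)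
      _ = _ := by ring
  · intro lam v h1 h2 h3
    have h4 := hf.ld lam v h1 h2 h3
    have h5 := hg.ld lam v h1 h2 h3
    set s₀ : ℂ := 1 + lam + v * Complex.I with hs₀
    by_cases h0 : f s₀ * g s₀ = 0
    · rw [logDeriv_apply, h0, div_zero, norm_zero, add_div]
      have := norm_nonneg (logDeriv f s₀)
      have := norm_nonneg (logDeriv g s₀)
      linarith
    · replace h0 := mul_ne_zero_iff.1 h0
      rw [logDeriv_mul s₀ h0.1 h0.2 hf.diff.differentiableAt hg.diff.differentiableAt, add_div]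
      exact (norm_add_le _ _).trans (add_le_add h4 h5)

theorem LDat.mono {C0 C0' ℓ T T' : ℝ} {f : ℂ → ℂ} (h : LDat C0 ℓ T f) (hC : C0 ≤ C0')
    (hT : T' ≤ T) (hℓ : 0 ≤ ℓ) : LDat C0' ℓ T' f := by
  refine ⟨h.diff, h.zre, ?_, ?_⟩
  · intro lam v h1 h2 h3 s hs
    refine (h.growth lam v h1 h2 (h3.trans hT) s hs).trans ?_
    apply mul_le_mul_of_nonneg_right _ (norm_nonneg _)
    exact Real.exp_le_exp.2 (mul_le_mul_of_nonneg_right hC hℓ)
  · intro lam v h1 h2 h3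
    refine (h.ld lam v h1 h2 (h3.trans hT)).trans ?_
    apply div_le_div_of_nonneg_right hC
    exact le_trans (by positivity) h1

/-- facts on `s₀` and on `s` in the disc -/
theorem z5a_pt {lam v η X : ℝ} (hl : 0 < lam) (hl8 : lam ≤ 1 / 8) (hv : |v| ≤ X) (hη : 0 ≤ η)
    (hη8 : η ≤ 1 / 8) {s : ℂ} (hs : s ∈ Metric.closedBall (1 + lam + v * Complex.I : ℂ) (1 / 2)) :
    1 / 2 ≤ (s + η).re ∧ (s + η).re ≤ 3 ∧ |(s + η).im| ≤ X + 1 ∧ ‖s + η‖ ≤ X + 3 := by
  rw [Metric.mem_closedBall, Complex.dist_eq] at hs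
  have h1 := (Complex.abs_re_le_norm _).trans hs
  have h2 := (Complex.abs_im_le_norm _).trans hs
  simp only [Complex.sub_re, Complex.sub_im, Complex.add_re, Complex.add_im, Complex.one_re,
    Complex.one_im, Complex.ofReal_re, Complex.ofReal_im, Complex.mul_re, Complex.mul_im,
    Complex.I_re, Complex.I_im, mul_zero, mul_one, sub_zero, zero_add, add_zero] at h1 h2
  rw [abs_le] at h1 h2 hv
  have e1 : (s + η).re = s.re + η := by simp
  have e2 : (s + η).im = s.im := by simp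
  rw [e1, e2]
  have h3 : |s.im| ≤ X + 1 := by
    rw [abs_le]
    constructor <;> linarith [h2.1, h2.2, hv.1, hv.2]
  have h5 : ‖s + η‖ ≤ X + 3 := by
    have h6 := Complex.norm_le_abs_re_add_abs_im (s + η)
    rw [e1, e2] at h6
    have h7 : |s.re + η| ≤ 2 := by
      rw [abs_le]
      constructor <;> linarith [h1.1, h1.2]
    linarith
  exact ⟨by linarith [h1.1], by linarith [h1.2], h3, h5⟩

theorem z5a_re (lam v η : ℝ) : ((1 + lam + v * Complex.I : ℂ) + η).re = 1 + lam + η := by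
  simp

theorem z5a_ld : ∃ C : ℝ, 0 < C ∧ ∀ (N : ℕ) [NeZero N] (χ : DirichletCharacter ℂ N) (lam v η : ℝ),
    0 < lam → lam ≤ 1 / 8 → 0 ≤ η → η ≤ 1 / 8 →
    ‖logDeriv χ.LFunction ((1 + lam + v * Complex.I : ℂ) + η)‖ ≤ 1 / lam + C := by
  obtain ⟨C, hC, h⟩ := vonMangoldt_le
  refine ⟨C, hC, fun N _ χ lam v η hl hl8 hη hη8 => ?_⟩
  have hre := z5a_re lam v η
  have h1 := lab1_char N χ ((1 + lam + v * Complex.I : ℂ) + η) (by rw [hre]; linarith)
  have h2 := norm_LSeries_vM_le N χ ((1 + lam + v * Complex.I : ℂ) + η) (by rw [hre]; linarith)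
  rw [h1, norm_neg, hre] at h2
  have h3 := h (1 + lam + η) (by linarith) (by linarith)
  refine h2.trans (h3.trans ?_)
  have h4 : 1 / (1 + lam + η - 1) ≤ 1 / lam :=
    one_div_le_one_div_of_le hl (by linarith)
  linarith

theorem z5a_low (N : ℕ) [NeZero N] (χ : DirichletCharacter ℂ N) (lam v η : ℝ)
    (hl : 0 < lam) (hl8 : lam ≤ 1 / 8) (hη : 0 ≤ η) :
    lam / 2 ≤ ‖χ.LFunction ((1 + lam + v * Complex.I : ℂ) + η)‖ := by
  have hre := z5a_re lam v η
  have h1 := lab2_lower N χ ((1 + lam + v * Complex.I : ℂ) + η) (by rw [hre]; linarith)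
  rw [DirichletCharacter.LFunction_eq_LSeries χ (by rw [hre]; linarith)]
  refine le_trans ?_ h1
  rw [hre, div_le_div_iff₀ (by norm_num) (by linarith)]
  nlinarith

theorem z5a_logQ {Q : ℕ} (hQ : (4 : ℝ) ≤ Q) : 0 < Real.log Q ∧ Real.log Q ≤ Q := by
  refine ⟨Real.log_pos (by linarith), ?_⟩
  have := Real.log_le_sub_one_of_pos (by linarith : (0 : ℝ) < Q)
  linarith

theorem z5a_exp {Q : ℕ} (hQ : (4 : ℝ) ≤ Q) (k : ℕ) (C : ℝ) (hC : k ≤ C) :
    (Q : ℝ) ^ k ≤ Real.exp (C * Real.log Q) := by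
  have h1 : (Q : ℝ) ^ k = Real.exp (k * Real.log Q) := by
    rw [mul_comm, Real.exp_mul, Real.exp_log (by linarith), Real.rpow_natCast]
  rw [h1]
  exact Real.exp_le_exp.2 (mul_le_mul_of_nonneg_right hC (z5a_logQ hQ).1.le)

theorem z5a_logDeriv_shift (f : ℂ → ℂ) (η : ℝ) (s : ℂ) :
    logDeriv (fun s => f (s + η)) s = logDeriv f (s + η) := by
  rw [logDeriv_apply, logDeriv_apply, deriv_comp_add_const]

/-- Growth data of `L(s + η, χ)`, `χ ≠ 1` modulo `N ≤ Q²`, `0 ≤ η ≤ 1/8`.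

Proof. `ℓ = log Q`, `T = Q^10`, `s₀ = 1 + lam + i v`. Entire:
`DirichletCharacter.differentiable_LFunction`. `zre`: `LFunction (ρ + η) = 0` implies
`Re (ρ + η) < 1` (`DirichletCharacter.LFunction_ne_zero_of_one_le_re`, `χ ≠ 1`). Growth: `|s - s₀| ≤
1/2` gives `Re (s + η) ≥ 1/2`, so `LFunction_bound`: `|L(s + η)| ≤ 2 N |s + η| ≤ 2 Q² (Q^10 + 3)`,
and `|L(s₀ + η)| ≥ (lam + η)/(1 + lam + η) ≥ lam/2 ≥ 1/(2 log Q)` (`lab2_lower`, with
`DirichletCharacter.LFunction_eq_LSeries` for `Re > 1`; `x/(1+x)` is increasing). So the quotient is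
at most `4 Q² (Q^10 + 3) log Q ≤ exp (20 log Q)` for `Q ≥ 4`. Logarithmic derivative: `lab1_char`,
`norm_LSeries_vM_le`, `vonMangoldt_le`: `≤ 1/(lam + η) + C ≤ (1 + C)/lam`; use `logDeriv` of
the composition with the translation (`logDeriv_comp` or `deriv_comp_add_const`). -/
theorem LDat_shift : ∃ C0 K : ℝ, 1 ≤ C0 ∧ ∀ Q : ℕ, K ≤ Q → ∀ (N : ℕ) [NeZero N]
    (χ : DirichletCharacter ℂ N), N ≤ Q ^ 2 → χ ≠ 1 → ∀ η : ℝ, 0 ≤ η → η ≤ 1 / 8 →
    LDat C0 (Real.log Q) ((Q : ℝ) ^ 10) (fun s => χ.LFunction (s + η)) := by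
  obtain ⟨C, hC, hld⟩ := z5a_ld
  refine ⟨20 + C, 4, by linarith, fun Q hQ N _ χ hN hχ η hη hη8 => ?_⟩
  obtain ⟨hlog, hlogQ⟩ := z5a_logQ hQ
  refine ⟨?_, ?_, ?_, ?_⟩
  · exact (DirichletCharacter.differentiable_LFunction hχ).comp
      (differentiable_id.add (differentiable_const _))
  · intro ρ h
    by_contra hcon
    have h1 : 1 ≤ (ρ + η).re := by
      have : (ρ + η).re = ρ.re + η := by simp
      rw [this]
      linarith [not_lt.1 hcon]
    exact DirichletCharacter.LFunction_ne_zero_of_one_le_re χ (Or.inl hχ) h1 h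
  · intro lam v h1 h2 h3 s hs
    have hl : 0 < lam := lt_of_lt_of_le (by positivity) h1
    obtain ⟨p1, p2, p3, p4⟩ := z5a_pt hl h2 h3 hη hη8 hs
    have q1 := LFunction_bound N χ hχ (s + η) p1
    have q2 := z5a_low N χ lam v η hl h2 hη
    have hN' : (N : ℝ) ≤ (Q : ℝ) ^ 2 := by exact_mod_cast hN
    have q3 : ‖χ.LFunction (s + η)‖ ≤ (Q : ℝ) ^ 18 * (1 / (2 * Q)) := by
      refine q1.trans ?_
      have hQ0 : (0 : ℝ) < Q := by linarith
      have r1 : 2 * (N : ℝ) * ‖s + η‖ ≤ 2 * (Q : ℝ) ^ 2 * ((Q : ℝ) ^ 10 + 3) := by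
        apply mul_le_mul _ p4 (norm_nonneg _) (by positivity)
        linarith
      refine r1.trans ?_
      have r2 : (1 : ℝ) ≤ (Q : ℝ) ^ 10 := one_le_pow₀ (by linarith)
      have r3 : (4 : ℝ) ^ 2 ≤ (Q : ℝ) ^ 2 := pow_le_pow_left₀ (by norm_num) hQ 2
      have r4 : (1 : ℝ) ≤ (Q : ℝ) ^ 3 := one_le_pow₀ (by linarith)
      have r5 : (Q : ℝ) ^ 18 * (1 / (2 * Q)) = (Q : ℝ) ^ 2 * (Q : ℝ) ^ 10 * (Q : ℝ) ^ 2 * (Q : ℝ) ^ 3 / 2 := by
        field_simp
      rw [r5]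
      have r6 : 2 * (Q : ℝ) ^ 2 * ((Q : ℝ) ^ 10 + 3) ≤ (Q : ℝ) ^ 2 * (Q : ℝ) ^ 10 * 8 := by
        nlinarith [pow_pos hQ0 2]
      have r7 : (Q : ℝ) ^ 2 * (Q : ℝ) ^ 10 * 8 ≤ (Q : ℝ) ^ 2 * (Q : ℝ) ^ 10 * (Q : ℝ) ^ 2 * (Q : ℝ) ^ 3 / 2 := by
        have t1 : 0 < (Q : ℝ) ^ 2 * (Q : ℝ) ^ 10 := by positivity
        have t2 : (16 : ℝ) ≤ (Q : ℝ) ^ 2 * (Q : ℝ) ^ 3 := by nlinarith
        nlinarith [mul_le_mul_of_nonneg_left t2 t1.le]
      exact r6.trans r7
    have q4 : 1 / (2 * (Q : ℝ)) ≤ ‖χ.LFunction ((1 + lam + v * Complex.I : ℂ) + η)‖ := by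
      refine le_trans ?_ q2
      have r1 : 1 / (Q : ℝ) ≤ 1 / Real.log Q := one_div_le_one_div_of_le hlog hlogQ
      have r2 : 1 / (2 * (Q : ℝ)) = (1 / Q) / 2 := by field_simp
      rw [r2]
      linarith
    refine q3.trans ?_
    exact mul_le_mul (z5a_exp hQ 18 (20 + C) (by push_cast; linarith)) q4 (by positivity) (by positivity)
  · intro lam v h1 h2 h3
    have hl : 0 < lam := lt_of_lt_of_le (by positivity) h1
    rw [z5a_logDeriv_shift]
    refine (hld N χ lam v η hl h2 hη hη8).trans ?_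
    rw [le_div_iff₀ hl, add_mul, div_mul_cancel₀ _ hl.ne']
    nlinarith

/-- the trivial character -/
theorem z5a_triv_eq (N : ℕ) [NeZero N] (s : ℂ) : DirichletCharacter.LFunctionTrivChar₁ N s =
    gl2_Z s * ∏ p ∈ N.primeFactors, (1 - (p : ℂ) ^ (-s)) := by
  by_cases hs : s = 1
  · subst hs
    rw [gl2_Z_one, one_mul]
    unfold DirichletCharacter.LFunctionTrivChar₁
    rw [Function.update_self]
    refine Finset.prod_congr rfl fun p _ => ?_
    rw [Complex.cpow_neg_one]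
  · rw [gl2_Z_eq s hs, DirichletCharacter.LFunctionTrivChar₁, Function.update_of_ne hs,
      DirichletCharacter.LFunctionTrivChar_eq_mul_riemannZeta hs]
    ring

theorem z5a_prod (N : ℕ) [NeZero N] (s : ℂ) (hs : 0 ≤ s.re) :
    ‖∏ p ∈ N.primeFactors, (1 - (p : ℂ) ^ (-s))‖ ≤ N := by
  rw [norm_prod]
  have h1 : ∏ p ∈ N.primeFactors, ‖1 - (p : ℂ) ^ (-s)‖ ≤ ∏ p ∈ N.primeFactors, (p : ℝ) := by
    refine Finset.prod_le_prod (fun _ _ => norm_nonneg _) fun p hp => ?_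
    have hp2 : 2 ≤ p := (Nat.prime_of_mem_primeFactors hp).two_le
    have hp2' : (2 : ℝ) ≤ p := by exact_mod_cast hp2
    have h2 : ‖(p : ℂ) ^ (-s)‖ ≤ 1 := by
      rw [Complex.norm_natCast_cpow_of_pos (by omega), Complex.neg_re]
      exact Real.rpow_le_one_of_one_le_of_nonpos (by linarith) (by linarith)
    calc ‖1 - (p : ℂ) ^ (-s)‖ ≤ ‖(1 : ℂ)‖ + ‖(p : ℂ) ^ (-s)‖ := norm_sub_le _ _
      _ ≤ 2 := by rw [norm_one]; linarith
      _ ≤ p := hp2'
  refine h1.trans ?_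
  have h3 : ∏ p ∈ N.primeFactors, p ≤ N := Nat.le_of_dvd (Nat.pos_of_ne_zero (NeZero.ne N)) (Nat.prod_primeFactors_dvd N)
  have h4 : ((∏ p ∈ N.primeFactors, p : ℕ) : ℝ) ≤ (N : ℝ) := Nat.cast_le.2 h3
  rw [Nat.cast_prod] at h4
  exact h4

/-- Growth data of `(s + η - 1) L(s + η, 1_N)` for the trivial character modulo `N ≤ Q²`
(`DirichletCharacter.LFunctionTrivChar₁ N`, entire).

Proof. As `LDat_shift`. For `s ≠ 1`, `LFunctionTrivChar₁ N s = (s - 1) L(s, 1_N) =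
gl2_Z s ∏_{p ∣ N} (1 - p^(-s))` (`gl2_Z = LFunctionTrivChar₁ 1`;
`DirichletCharacter.LFunctionTrivChar_eq_mul_riemannZeta`), at `1` by continuity; the product has
absolute value at most `∏_{p ∣ N} 2 ≤ N` for `Re s ≥ 0`; `gl2_Z_bound` for `Re s ≤ 3`. Zeros: a zero
`ρ + η` of `LFunctionTrivChar₁` with `Re ≥ 1` is impossible (`riemannZeta_ne_zero_of_one_le_re`,
`gl2_Z_one`, `|p^(-s)| < 1`, `LFunctionTrivChar₁_apply_one_ne_zero`). Lower bound at `s₀ + η`:
`|s₀ + η - 1| ≥ lam + η`, `|L(s₀ + η, 1_N)| ≥ (lam + η)/(1 + lam + η)` (`lab2_lower`), product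
`≥ lam²/2`. Logarithmic derivative: `1/(s-1)` (at most `1/(lam+η)`) plus that of `L(s, 1_N)`
(`lab1_char`, `norm_LSeries_vM_le`, `vonMangoldt_le`). -/
theorem LDat_shift_triv : ∃ C0 K : ℝ, 1 ≤ C0 ∧ ∀ Q : ℕ, K ≤ Q → ∀ (N : ℕ) [NeZero N],
    N ≤ Q ^ 2 → ∀ η : ℝ, 0 ≤ η → η ≤ 1 / 8 →
    LDat C0 (Real.log Q) ((Q : ℝ) ^ 10)
      (fun s => DirichletCharacter.LFunctionTrivChar₁ N (s + η)) := by
  obtain ⟨C, hC, hld⟩ := z5a_ld
  refine ⟨30 + C, 4, by linarith, fun Q hQ N _ hN η hη hη8 => ?_⟩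
  obtain ⟨hlog, hlogQ⟩ := z5a_logQ hQ
  refine ⟨?_, ?_, ?_, ?_⟩
  · exact (DirichletCharacter.differentiable_LFunctionTrivChar₁ N).comp
      (differentiable_id.add (differentiable_const _))
  · intro ρ h
    by_contra hcon
    have h1 : 1 ≤ (ρ + η).re := by
      have : (ρ + η).re = ρ.re + η := by simp
      rw [this]
      linarith [not_lt.1 hcon]
    by_cases hs : ρ + (η : ℂ) = 1
    · simp only [hs] at h
      exact DirichletCharacter.LFunctionTrivChar₁_apply_one_ne_zero N h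
    · simp only [DirichletCharacter.LFunctionTrivChar₁, Function.update_of_ne hs] at h
      rcases mul_eq_zero.1 h with h2 | h2
      · exact sub_ne_zero.2 hs h2
      · exact DirichletCharacter.LFunction_ne_zero_of_one_le_re _ (Or.inr hs) h1 h2
  · intro lam v h1 h2 h3 s hs
    have hl : 0 < lam := lt_of_lt_of_le (by positivity) h1
    obtain ⟨p1, p2, p3, p4⟩ := z5a_pt hl h2 h3 hη hη8 hs
    have q1 := gl2_Z_bound (s + η) p1 p2
    have q1' := z5a_prod N (s + η) (by linarith)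
    have q2 := z5a_low N (1 : DirichletCharacter ℂ N) lam v η hl h2 hη
    have hN' : (N : ℝ) ≤ (Q : ℝ) ^ 2 := by exact_mod_cast hN
    have hQ0 : (0 : ℝ) < Q := by linarith
    have q3 : ‖DirichletCharacter.LFunctionTrivChar₁ N (s + η)‖ ≤ (Q : ℝ) ^ 30 * (1 / (2 * Q ^ 2)) := by
      rw [z5a_triv_eq, norm_mul]
      have r0 : 4 * (|(s + η).im| + 3) ^ 2 ≤ 4 * (5 * (Q : ℝ) ^ 10) ^ 2 := by
        have r2 : (1 : ℝ) ≤ (Q : ℝ) ^ 10 := one_le_pow₀ (by linarith)
        have r3 : |(s + η).im| + 3 ≤ 5 * (Q : ℝ) ^ 10 := by linarith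
        have r4 : (|(s + η).im| + 3) ^ 2 ≤ (5 * (Q : ℝ) ^ 10) ^ 2 := pow_le_pow_left₀ (by positivity) r3 2
        linarith
      have r1 := mul_le_mul (q1.trans r0) (q1'.trans hN') (norm_nonneg _) (by positivity)
      refine r1.trans ?_
      have r5 : (Q : ℝ) ^ 30 * (1 / (2 * Q ^ 2)) = (Q : ℝ) ^ 22 * (Q : ℝ) ^ 6 / 2 := by
        field_simp
      have r6 : 4 * (5 * (Q : ℝ) ^ 10) ^ 2 * (Q : ℝ) ^ 2 = 100 * (Q : ℝ) ^ 22 := by ring
      rw [r5, r6]
      have r7 : (4 : ℝ) ^ 6 ≤ (Q : ℝ) ^ 6 := pow_le_pow_left₀ (by norm_num) hQ 6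
      have r8 : (0 : ℝ) < (Q : ℝ) ^ 22 := by positivity
      nlinarith [mul_le_mul_of_nonneg_left r7 r8.le]
    have q4 : 1 / (2 * (Q : ℝ) ^ 2) ≤
        ‖DirichletCharacter.LFunctionTrivChar₁ N ((1 + lam + v * Complex.I : ℂ) + η)‖ := by
      have hne : (1 + lam + v * Complex.I : ℂ) + η ≠ 1 := by
        intro h
        have := congrArg Complex.re h
        rw [z5a_re, Complex.one_re] at this
        linarith
      rw [DirichletCharacter.LFunctionTrivChar₁, Function.update_of_ne hne, norm_mul]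
      have t1 : lam ≤ ‖(1 + lam + v * Complex.I : ℂ) + η - 1‖ := by
        refine le_trans ?_ (Complex.re_le_norm _)
        rw [Complex.sub_re, z5a_re, Complex.one_re]
        linarith
      have t2 : 1 / (Q : ℝ) ≤ lam := (one_div_le_one_div_of_le hlog hlogQ).trans h1
      have t3 : lam * (lam / 2) ≤ ‖(1 + lam + v * Complex.I : ℂ) + η - 1‖ *
          ‖(1 : DirichletCharacter ℂ N).LFunction ((1 + lam + v * Complex.I : ℂ) + η)‖ :=
        mul_le_mul t1 q2 (by positivity) (norm_nonneg _)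
      refine le_trans ?_ t3
      have t4 : 1 / (2 * (Q : ℝ) ^ 2) = (1 / Q) * (1 / Q) / 2 := by field_simp
      have t5 : (1 / (Q : ℝ)) * (1 / Q) ≤ lam * lam := mul_le_mul t2 t2 (by positivity) hl.le
      rw [t4]
      linarith
    refine q3.trans ?_
    exact mul_le_mul (z5a_exp hQ 30 (30 + C) (by push_cast; linarith)) q4 (by positivity) (by positivity)
  · intro lam v h1 h2 h3
    have hl : 0 < lam := lt_of_lt_of_le (by positivity) h1
    have hne : (1 + lam + v * Complex.I : ℂ) + η ≠ 1 := by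
      intro h
      have := congrArg Complex.re h
      rw [z5a_re, Complex.one_re] at this
      linarith
    rw [z5a_logDeriv_shift]
    have hL := z5a_low N (1 : DirichletCharacter ℂ N) lam v η hl h2 hη
    have hLne : (1 : DirichletCharacter ℂ N).LFunction ((1 + lam + v * Complex.I : ℂ) + η) ≠ 0 := by
      intro h
      rw [h, norm_zero] at hL
      linarith
    have hs1 : (1 + lam + v * Complex.I : ℂ) + η - 1 ≠ 0 := sub_ne_zero.2 hne
    have hsplit : logDeriv (DirichletCharacter.LFunctionTrivChar₁ N) ((1 + lam + v * Complex.I : ℂ) + η) =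
        logDeriv (1 : DirichletCharacter ℂ N).LFunction ((1 + lam + v * Complex.I : ℂ) + η) +
          1 / ((1 + lam + v * Complex.I : ℂ) + η - 1) := by
      rw [logDeriv_apply, logDeriv_apply,
        DirichletCharacter.deriv_LFunctionTrivChar₁_apply_of_ne_one N hne,
        DirichletCharacter.LFunctionTrivChar₁, Function.update_of_ne hne]
      simp only [DirichletCharacter.LFunctionTrivChar]
      field_simp
    rw [hsplit]
    have t1 : lam ≤ ‖(1 + lam + v * Complex.I : ℂ) + η - 1‖ := by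
      refine le_trans ?_ (Complex.re_le_norm _)
      rw [Complex.sub_re, z5a_re, Complex.one_re]
      linarith
    have t2 : ‖1 / ((1 + lam + v * Complex.I : ℂ) + η - 1)‖ ≤ 1 / lam := by
      rw [norm_div, norm_one]
      exact one_div_le_one_div_of_le hl t1
    refine (norm_add_le _ _).trans ?_
    have t3 := hld N (1 : DirichletCharacter ℂ N) lam v η hl h2 hη hη8
    refine (add_le_add t3 t2).trans ?_
    rw [le_div_iff₀ hl, add_mul, add_mul, div_mul_cancel₀ _ hl.ne']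
    nlinarith

/-- Growth data of `Lp p`: `LDat_shift` with `η = 0` for `p ≠ p0` (`Lp_mem`, `ne_one_of_ne_p0`),
`LDat_shift_triv` with `N = 1`, `η = 0` for `p = p0` (`Lp_p0`, `gl2_Z` is by definition
`LFunctionTrivChar₁ 1`). -/
theorem LDat_Lp : ∃ C0 K : ℝ, 1 ≤ C0 ∧ ∀ Q : ℕ, K ≤ Q → ∀ p ∈ PC Q,
    LDat C0 (Real.log Q) ((Q : ℝ) ^ 10) (Lp p) := by
  obtain ⟨C1, K1, hC1, h1⟩ := LDat_shift
  obtain ⟨C2, K2, hC2, h2⟩ := LDat_shift_triv
  refine ⟨max C1 C2, max 4 (max K1 K2), hC1.trans (le_max_left _ _), fun Q hQ p hp => ?_⟩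
  have hQ4 : (4 : ℝ) ≤ Q := (le_max_left _ _).trans hQ
  have hQ1 : K1 ≤ (Q : ℝ) := ((le_max_left _ _).trans (le_max_right _ _)).trans hQ
  have hQ2 : K2 ≤ (Q : ℝ) := ((le_max_right _ _).trans (le_max_right _ _)).trans hQ
  have hQ4' : 4 ≤ Q := by exact_mod_cast hQ4
  have hlog := (z5a_logQ hQ4).1
  by_cases h : p = p0
  · have h3 := h2 Q hQ2 1 (by nlinarith) 0 le_rfl (by norm_num)
    rw [h, Lp_p0]
    have h4 : (fun s : ℂ => DirichletCharacter.LFunctionTrivChar₁ 1 (s + ((0 : ℝ) : ℂ))) = gl2_Z := by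
      funext s
      rw [Complex.ofReal_zero, add_zero]
      rfl
    rw [h4] at h3
    exact h3.mono (le_max_right _ _) le_rfl hlog.le
  · obtain ⟨hne, hLp⟩ := Lp_mem hp h
    have hmem := mem_PC.mp hp
    have h3 := h1 Q hQ1 p.1 p.2 (by nlinarith [hmem.2.1]) (ne_one_of_ne_p0 hp h) 0 le_rfl (by norm_num)
    have h4 : (fun s : ℂ => p.2.LFunction (s + ((0 : ℝ) : ℂ))) = p.2.LFunction := by
      funext s
      rw [Complex.ofReal_zero, add_zero]
    rw [h4] at h3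
    rw [hLp]
    exact h3.mono (le_max_left _ _) le_rfl hlog.le

end Pool.Agent.Lib.H18Q
end
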