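import Pool.Agent.Lib.H59M.M2.M001
import Pool.Agent.Lib.H59M.M2.M006
import Pool.Agent.Lib.H59M.M2.M023

/-! Merged copies (to shorten the build) of Lib.H18Q.Z0, Lib.H18Q.Z1, Lib.H18Q.Z2, Lib.H18Q.Z4. -/

-- from Lib.H18Q.Z0
section

/-!
# Project H18Q, chunk Z0: zeros of entire functions
-/

open Finset

namespace Pool.Agent.Lib.H18Q

/-- An entire function, not identically zero, has finitely many zeros in a bounded set.
Proof: `AnalyticOnNhd.eqOn_zero_or_eventually_ne_zero_of_preconnected` on `Set.univ`, the zero set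
is closed and discrete, its intersection with the (compact) closure of the bounded set is finite. -/
theorem zeros_finite {f : ℂ → ℂ} (hf : Differentiable ℂ f) (hne : ∃ c, f c ≠ 0) {S : Set ℂ}
    (hS : Bornology.IsBounded S) : ({ρ : ℂ | f ρ = 0 ∧ ρ ∈ S}).Finite := by
  by_contra hinf
  have hinf' : ({ρ : ℂ | f ρ = 0 ∧ ρ ∈ S}).Infinite := hinf
  obtain ⟨x, -, hx⟩ := hinf'.exists_accPt_of_subset_isCompact hS.isCompact_closure
    (fun z hz => subset_closure hz.2)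
  have hfa : AnalyticOnNhd ℂ f Set.univ := fun z _ => hf.analyticAt z
  have hfr : ∃ᶠ z in nhdsWithin x {x}ᶜ, f z = 0 :=
    (accPt_iff_frequently_nhdsNE.1 hx).mono (fun z hz => hz.1)
  obtain ⟨c, hc⟩ := hne
  exact hc (hfa.eqOn_zero_of_preconnected_of_frequently_eq_zero isPreconnected_univ
    (Set.mem_univ x) hfr (Set.mem_univ c))

theorem mem_ZS {f : ℂ → ℂ} (hf : Differentiable ℂ f) (hne : ∃ c, f c ≠ 0) {S : Set ℂ}
    (hS : Bornology.IsBounded S) {ρ : ℂ} : ρ ∈ ZS f S ↔ f ρ = 0 ∧ ρ ∈ S := by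
  unfold ZS
  rw [dif_pos (zeros_finite hf hne hS), Set.Finite.mem_toFinset]
  rfl

theorem mem_ZD {f : ℂ → ℂ} (hf : Differentiable ℂ f) (hne : ∃ c, f c ≠ 0) {c : ℂ} {R : ℝ}
    {ρ : ℂ} : ρ ∈ ZD f c R ↔ f ρ = 0 ∧ ‖ρ - c‖ ≤ R := by
  unfold ZD
  rw [mem_ZS hf hne Metric.isBounded_closedBall, mem_closedBall_iff_norm]

theorem mem_ZR {f : ℂ → ℂ} (hf : Differentiable ℂ f) (hne : ∃ c, f c ≠ 0) {σ T : ℝ}
    {ρ : ℂ} : ρ ∈ ZR f σ T ↔ f ρ = 0 ∧ σ ≤ ρ.re ∧ ρ.re ≤ 1 ∧ |ρ.im| ≤ T := by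
  unfold ZR
  rw [mem_ZS hf hne]
  · rfl
  · refine (Metric.isBounded_closedBall (x := (0 : ℂ)) (r := |σ| + 1 + |T|)).subset ?_
    intro z hz
    obtain ⟨h1, h2, h3⟩ := hz
    rw [mem_closedBall_zero_iff]
    refine (Complex.norm_le_abs_re_add_abs_im z).trans ?_
    have h4 : |z.re| ≤ |σ| + 1 := by
      rw [abs_le]
      constructor
      · have := neg_abs_le σ
        linarith
      · have := abs_nonneg σ
        linarith
    have h5 : T ≤ |T| := le_abs_self T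
    linarith

/-- The order at a point is finite, and positive at a zero
(`AnalyticAt.analyticOrderAt_ne_zero`, `analyticOrderAt_ne_top` from the identity theorem). -/
theorem order_ne_top {f : ℂ → ℂ} (hf : Differentiable ℂ f) (hne : ∃ c, f c ≠ 0) (ρ : ℂ) :
    analyticOrderAt f ρ ≠ ⊤ := by
  intro h
  rw [analyticOrderAt_eq_top] at h
  have hfa : AnalyticOnNhd ℂ f Set.univ := fun z _ => hf.analyticAt z
  obtain ⟨c, hc⟩ := hne
  exact hc (hfa.eqOn_zero_of_preconnected_of_eventuallyEq_zero isPreconnected_univ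
    (Set.mem_univ ρ) h (Set.mem_univ c))

theorem od_pos {f : ℂ → ℂ} (hf : Differentiable ℂ f) (hne : ∃ c, f c ≠ 0) {ρ : ℂ}
    (h : f ρ = 0) : 1 ≤ od f ρ := by
  have h1 : analyticOrderAt f ρ ≠ 0 := (hf.analyticAt ρ).analyticOrderAt_ne_zero.2 h
  have h2 : analyticOrderAt f ρ ≠ ⊤ := order_ne_top hf hne ρ
  have h3 : ((od f ρ : ℕ) : ℕ∞) = analyticOrderAt f ρ := Nat.cast_analyticOrderNatAt h2
  rw [Nat.one_le_iff_ne_zero]
  intro h4
  rw [← h3, h4] at h1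
  exact h1 rfl

theorem od_zero {f : ℂ → ℂ} (hf : Differentiable ℂ f) {ρ : ℂ}
    (h : f ρ ≠ 0) : od f ρ = 0 := by
  have h1 : analyticOrderAt f ρ = 0 := (hf.analyticAt ρ).analyticOrderAt_eq_zero.2 h
  unfold od analyticOrderNatAt
  rw [h1]
  rfl

theorem od_mul {f g : ℂ → ℂ} (hf : Differentiable ℂ f) (hg : Differentiable ℂ g)
    (hfn : ∃ c, f c ≠ 0) (hgn : ∃ c, g c ≠ 0) (ρ : ℂ) :
    od (fun s => f s * g s) ρ = od f ρ + od g ρ := by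
  exact analyticOrderNatAt_mul (hf.analyticAt ρ) (hg.analyticAt ρ) (order_ne_top hf hfn ρ)
    (order_ne_top hg hgn ρ)

/-- Zeros in a finite set can be divided out (with `od` as exponents); the quotient does not
vanish at the points of the set. Proof: induction on `S`; for one point
`AnalyticAt.analyticOrderNatAt_eq_iff` gives `f = (z - ρ)^(od f ρ) g` near `ρ`; the function equal
to `g` near `ρ` and to `f(z)/(z-ρ)^(od f ρ)` away from `ρ` is entire, its zeros and orders away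
from `ρ` are those of `f` (`od_mul`, `od_zero`). `LAN_remove` of `H68T/LAN` (import it if you like)
is the one-point statement. -/
theorem od_factor {f : ℂ → ℂ} (hf : Differentiable ℂ f) (hne : ∃ c, f c ≠ 0) (S : Finset ℂ) :
    ∃ h : ℂ → ℂ, Differentiable ℂ h ∧ (∀ ρ ∈ S, h ρ ≠ 0) ∧
      ∀ s, f s = (∏ ρ ∈ S, (s - ρ) ^ od f ρ) * h s := by
  classical
  induction S using Finset.induction_on with
  | empty => exact ⟨f, hf, by simp, by simp⟩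
  | insert a S ha ih =>
    obtain ⟨h, hd, h0, hfac⟩ := ih
    have hhne : ∃ c, h c ≠ 0 := by
      obtain ⟨c, hc⟩ := hne
      refine ⟨c, fun h1 => hc ?_⟩
      rw [hfac, h1, mul_zero]
    have hPd : Differentiable ℂ (fun s => ∏ ρ ∈ S, (s - ρ) ^ od f ρ) := by
      fun_prop
    have hPa : (∏ ρ ∈ S, (a - ρ) ^ od f ρ) ≠ 0 := by
      rw [Finset.prod_ne_zero_iff]
      intro ρ hρ
      refine pow_ne_zero _ (sub_ne_zero.2 ?_)
      rintro rfl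
      exact ha hρ
    have hod : od h a = od f a := by
      have h1 := od_mul hPd hd ⟨a, hPa⟩ hhne a
      have h2 : (fun s => (∏ ρ ∈ S, (s - ρ) ^ od f ρ) * h s) = f := by
        funext s
        exact (hfac s).symm
      rw [h2, od_zero hPd hPa, zero_add] at h1
      exact h1.symm
    have hane : ¬ ∀ᶠ z in nhds a, h z = 0 := by
      rw [← analyticOrderAt_eq_top]
      exact order_ne_top hd hhne a
    obtain ⟨n, g, hg, hga, hhg⟩ := Pool.Agent.Lib.H68T.LAN_remove (U := Set.univ)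
      (fun z _ => hd.analyticAt z) (Set.mem_univ a) hane
    have hgd : Differentiable ℂ g := fun z => (hg z (Set.mem_univ z)).differentiableAt
    have hn : n = od f a := by
      rw [← hod]
      have h1 : analyticOrderAt h a = n := by
        rw [(hd.analyticAt a).analyticOrderAt_eq_natCast]
        exact ⟨g, hg a (Set.mem_univ a), hga, Filter.Eventually.of_forall fun z => by
          rw [smul_eq_mul]; exact hhg z⟩
      unfold od analyticOrderNatAt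
      rw [h1]
      rfl
    refine ⟨g, hgd, ?_, ?_⟩
    · intro ρ hρ
      rcases Finset.mem_insert.1 hρ with rfl | hρ
      · exact hga
      · intro h1
        apply h0 ρ hρ
        rw [hhg, h1, mul_zero]
    · intro s
      rw [Finset.prod_insert ha, hfac s, hhg s, hn]
      ring

/-- Removing a zero: `f s = (s - a) (dslope f a s)`, so the orders of `dslope f a` are at most
those of `f`, and its zeros are zeros of `f`. -/
theorem od_dslope_le {f : ℂ → ℂ} (hf : Differentiable ℂ f) (hne : ∃ c, f c ≠ 0) {a : ℂ}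
    (ha : f a = 0) (ρ : ℂ) : od (dslope f a) ρ ≤ od f ρ := by
  have hd : Differentiable ℂ (dslope f a) := by
    rw [← differentiableOn_univ]
    exact (Complex.differentiableOn_dslope Filter.univ_mem).2 hf.differentiableOn
  have hfs : (fun s => (s - a) * dslope f a s) = f := by
    funext s
    have h1 := sub_smul_dslope f a s
    rw [smul_eq_mul, ha, sub_zero] at h1
    exact h1
  have hdn : ∃ c, dslope f a c ≠ 0 := by
    obtain ⟨c, hc⟩ := hne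
    refine ⟨c, fun h1 => hc ?_⟩
    rw [← hfs]
    simp only [h1, mul_zero]
  have h1 := od_mul (f := fun s => s - a) (by fun_prop) hd ⟨a + 1, by simp⟩ hdn ρ
  rw [hfs] at h1
  omega

theorem dslope_zero {f : ℂ → ℂ} {a : ℂ} (ha : f a = 0) {ρ : ℂ}
    (h : dslope f a ρ = 0) : f ρ = 0 := by
  have h1 := sub_smul_dslope f a ρ
  rw [h, smul_zero, ha, sub_zero] at h1
  exact h1.symm

end Pool.Agent.Lib.H18Q
end

-- from Lib.H18Q.Z1
section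

/-!
# Project H18Q, chunk Z1: derivatives of the logarithmic derivative
-/

open Finset

namespace Pool.Agent.Lib.H18Q

/-- Derivatives of `1/(s - ρ)`. -/
theorem z1_inv (ρ s₀ : ℂ) (k : ℕ) :
    iteratedDeriv k (fun s => (s - ρ)⁻¹) s₀ =
      (k.factorial : ℂ) * ((-1) ^ k * (1 / (s₀ - ρ)) ^ (k + 1)) := by
  have h1 := iter_deriv_inv_linear_sub k (1 : ℂ) ρ
  have h2 : (fun s : ℂ => (s - ρ)⁻¹) = (fun s : ℂ => (1 * s - ρ)⁻¹) := by
    funext s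
    rw [one_mul]
  rw [iteratedDeriv_eq_iterate, h2, h1]
  simp only [one_pow, mul_one, one_mul]
  have h3 : (-1 - (k : ℤ)) = -((k + 1 : ℕ) : ℤ) := by push_cast; ring
  rw [h3, zpow_neg, zpow_natCast, one_div, inv_pow]
  ring

/-- Higher derivatives of `f'/f` and the zeros near `s₀`.

Proof. Let `S = ZD f s₀ (R/2)` and `f = P h`, `P(s) = ∏_{ρ ∈ S} (s - ρ)^(od f ρ)` (`od_factor`).
Then `h ≠ 0` on `closedBall s₀ (R/2)`: a zero of `h` there is a zero of `f`, so in `S`, where `h`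
does not vanish. For `|s - s₀| = R` and `ρ ∈ S`: `|s - ρ| ≥ R - R/2 = R/2 ≥ |s₀ - ρ|`, so
`|P(s)| ≥ |P(s₀)| > 0` and `|h(s)| ≤ exp M |h(s₀)|` on the sphere, hence in the ball (maximum
principle, `Complex.norm_le_of_forall_mem_frontier_norm_le`). By `LAN_zero_free` (file `H68T/LAN`)
`|h'/h| ≤ 48 (M+1)/R` on `closedBall s₀ (R/4)`. Cauchy's estimate for the `k`-th derivative of the
function `logDeriv h` (analytic near that ball, `h ≠ 0` on `closedBall s₀ (R/2)`):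
`|iteratedDeriv k (logDeriv h) s₀| ≤ k! 48 (M+1)/R (4/R)^k`
(`Complex.norm_iteratedDeriv_le_of_forall_mem_sphere_norm_le`). Near `s₀`, `logDeriv f = ∑_{ρ ∈ S}
od f ρ / (s - ρ) + logDeriv h` (`f s₀ ≠ 0`; `logDeriv_mul`, `logDeriv_prod`, `logDeriv_pow`), and
`iteratedDeriv k (fun s => 1/(s - ρ)) s₀ = (-1)^k k! / (s₀ - ρ)^(k+1)`
(`iteratedDeriv_inv`-type lemmas or induction). -/
theorem landau_k : ∃ A : ℝ, 0 < A ∧ ∀ (f : ℂ → ℂ) (s₀ : ℂ) (R M : ℝ), 0 < R → 0 ≤ M →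
    Differentiable ℂ f → f s₀ ≠ 0 →
    (∀ s ∈ Metric.closedBall s₀ R, ‖f s‖ ≤ Real.exp M * ‖f s₀‖) → ∀ k : ℕ,
    ‖iteratedDeriv k (logDeriv f) s₀ / (k.factorial : ℂ) -
      (-1) ^ k * ∑ ρ ∈ ZD f s₀ (R / 2), (od f ρ : ℂ) * (1 / (s₀ - ρ)) ^ (k + 1)‖ ≤
        A * (M + 1) / R * (4 / R) ^ k := by
  refine ⟨48, by norm_num, ?_⟩
  intro f s₀ R M hR hM hf hfs hb k
  classical
  have hne : ∃ c, f c ≠ 0 := ⟨s₀, hfs⟩
  obtain ⟨S, hSdef⟩ : ∃ S : Finset ℂ, S = ZD f s₀ (R / 2) := ⟨_, rfl⟩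
  rw [← hSdef]
  have hmem : ∀ ρ, ρ ∈ S ↔ f ρ = 0 ∧ ‖ρ - s₀‖ ≤ R / 2 := by
    intro ρ
    rw [hSdef]
    exact mem_ZD hf hne
  obtain ⟨h, hd, h0, hfac⟩ := od_factor hf hne S
  set P : ℂ → ℂ := fun s => ∏ ρ ∈ S, (s - ρ) ^ od f ρ with hP
  have hfac' : ∀ s, f s = P s * h s := hfac
  have hPs : P s₀ ≠ 0 := by
    intro h1
    apply hfs
    rw [hfac', h1, zero_mul]
  have hhs : h s₀ ≠ 0 := by
    intro h1
    apply hfs
    rw [hfac', h1, mul_zero]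
  have hh0 : ∀ s ∈ Metric.closedBall s₀ (R / 2), h s ≠ 0 := by
    intro s hs h1
    rw [mem_closedBall_iff_norm] at hs
    exact h0 s ((hmem s).2 ⟨by rw [hfac', h1, mul_zero], hs⟩) h1
  have hPmono : ∀ s ∈ Metric.sphere s₀ R, ‖P s₀‖ ≤ ‖P s‖ := by
    intro s hs
    rw [mem_sphere_iff_norm] at hs
    simp only [hP]
    rw [norm_prod, norm_prod]
    refine Finset.prod_le_prod (fun ρ _ => norm_nonneg _) fun ρ hρ => ?_
    rw [norm_pow, norm_pow]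
    refine pow_le_pow_left₀ (norm_nonneg _) ?_ _
    have h1 := ((hmem ρ).1 hρ).2
    have h2 : ‖s - s₀‖ ≤ ‖s - ρ‖ + ‖ρ - s₀‖ := by
      have := norm_add_le (s - ρ) (ρ - s₀)
      rwa [sub_add_sub_cancel] at this
    rw [norm_sub_rev s₀ ρ]
    linarith
  have hPpos : 0 < ‖P s₀‖ := norm_pos_iff.2 hPs
  have hsph : ∀ s ∈ Metric.sphere s₀ R, ‖h s‖ ≤ Real.exp M * ‖h s₀‖ := by
    intro s hs
    have h1 := hb s (Metric.sphere_subset_closedBall hs)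
    rw [hfac' s, hfac' s₀, norm_mul, norm_mul] at h1
    have h2 := hPmono s hs
    have h3 : 0 < ‖P s‖ := lt_of_lt_of_le hPpos h2
    have h4 : ‖P s‖ * ‖h s‖ ≤ ‖P s‖ * (Real.exp M * ‖h s₀‖) := by
      calc ‖P s‖ * ‖h s‖ ≤ Real.exp M * (‖P s₀‖ * ‖h s₀‖) := h1
        _ = ‖P s₀‖ * (Real.exp M * ‖h s₀‖) := by ring
        _ ≤ ‖P s‖ * (Real.exp M * ‖h s₀‖) := by
            refine mul_le_mul_of_nonneg_right h2 ?_
            positivity
    exact le_of_mul_le_mul_left h4 h3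
  have hball : ∀ s ∈ Metric.closedBall s₀ R, ‖h s‖ ≤ Real.exp M * ‖h s₀‖ := by
    intro s hs
    refine Complex.norm_le_of_forall_mem_frontier_norm_le (U := Metric.ball s₀ R)
      Metric.isBounded_ball hd.diffContOnCl ?_ ?_
    · intro z hz
      rw [frontier_ball _ hR.ne'] at hz
      exact hsph z hz
    · rw [closure_ball _ hR.ne']
      exact hs
  have hLAN := Pool.Agent.Lib.H68T.LAN_zero_free h s₀ R M hR hM
    (fun z _ => hd.analyticAt z) hh0 hball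
  have hdiff : DifferentiableOn ℂ (logDeriv h) (Metric.ball s₀ (R / 2)) := by
    intro s hs
    have h1 : DifferentiableAt ℂ (fun s => deriv h s / h s) s :=
      ((hd.analyticAt s).deriv.differentiableAt).div (hd s) (hh0 s (Metric.ball_subset_closedBall hs))
    exact h1.differentiableWithinAt
  have hcl : DiffContOnCl ℂ (logDeriv h) (Metric.ball s₀ (R / 4)) := by
    refine DifferentiableOn.diffContOnCl ?_
    rw [closure_ball _ (by positivity)]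
    exact hdiff.mono (Metric.closedBall_subset_ball (by linarith))
  have hcau := Complex.norm_iteratedDeriv_le_of_forall_mem_sphere_norm_le k
    (by positivity : 0 < R / 4) hcl (C := 48 * (M + 1) / R)
    (fun z hz => by
      rw [logDeriv_apply]
      exact hLAN z (Metric.sphere_subset_closedBall hz))
  -- the formula near `s₀`
  have hSne : ∀ ρ ∈ S, s₀ - ρ ≠ 0 := by
    intro ρ hρ h1
    rw [sub_eq_zero] at h1
    apply hfs
    rw [h1]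
    exact ((hmem ρ).1 hρ).1
  have hev : logDeriv f =ᶠ[nhds s₀]
      fun s => (∑ ρ ∈ S, (od f ρ : ℂ) * (s - ρ)⁻¹) + logDeriv h s := by
    have hPd : Differentiable ℂ P := by
      simp only [hP]
      fun_prop
    have e1 : ∀ᶠ s in nhds s₀, P s ≠ 0 := hPd.continuous.continuousAt.eventually_ne hPs
    have e2 : ∀ᶠ s in nhds s₀, h s ≠ 0 := hd.continuous.continuousAt.eventually_ne hhs
    have e3 : ∀ᶠ s in nhds s₀, ∀ ρ ∈ S, s - ρ ≠ 0 := by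
      rw [Filter.eventually_all_finset]
      intro ρ hρ
      exact (continuous_id.sub continuous_const).continuousAt.eventually_ne (hSne ρ hρ)
    filter_upwards [e1, e2, e3] with s hs1 hs2 hs3
    have h1 : f = fun s => P s * h s := funext hfac'
    have h2 : logDeriv P s = ∑ ρ ∈ S, (od f ρ : ℂ) * (s - ρ)⁻¹ := by
      have h3 : P = fun s => ∏ ρ ∈ S, (fun z : ℂ => (z - ρ) ^ od f ρ) s := rfl
      rw [h3, logDeriv_prod]
      · refine Finset.sum_congr rfl fun ρ _ => ?_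
        rw [logDeriv_fun_pow (by fun_prop)]
        congr 1
        rw [logDeriv_apply]
        simp
      · intro ρ hρ
        exact pow_ne_zero _ (hs3 ρ hρ)
      · intro ρ _
        fun_prop
    rw [← h2]
    conv_lhs => rw [h1]
    exact logDeriv_mul s hs1 hs2 (hPd s) (hd s)
  have hana : ∀ ρ ∈ S, ContDiffAt ℂ k (fun s => (od f ρ : ℂ) * (s - ρ)⁻¹) s₀ := by
    intro ρ hρ
    refine contDiffAt_const.mul ?_
    exact (contDiffAt_id.sub contDiffAt_const).inv (hSne ρ hρ)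
  have hanah : ContDiffAt ℂ k (logDeriv h) s₀ := by
    refine AnalyticAt.contDiffAt ?_
    exact (hd.analyticAt s₀).deriv.div (hd.analyticAt s₀) hhs
  have hiter : iteratedDeriv k (logDeriv f) s₀ =
      (k.factorial : ℂ) * ((-1) ^ k * ∑ ρ ∈ S, (od f ρ : ℂ) * (1 / (s₀ - ρ)) ^ (k + 1)) +
        iteratedDeriv k (logDeriv h) s₀ := by
    rw [(hev.iteratedDeriv_eq k)]
    have h1 : (fun s => (∑ ρ ∈ S, (od f ρ : ℂ) * (s - ρ)⁻¹) + logDeriv h s) =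
        (fun s => ∑ ρ ∈ S, (od f ρ : ℂ) * (s - ρ)⁻¹) + logDeriv h := rfl
    rw [h1, iteratedDeriv_add (ContDiffAt.sum hana) hanah, iteratedDeriv_fun_sum hana]
    congr 1
    rw [Finset.mul_sum, Finset.mul_sum]
    refine Finset.sum_congr rfl fun ρ hρ => ?_
    rw [iteratedDeriv_const_mul_field, z1_inv]
    ring
  have hk0 : (k.factorial : ℂ) ≠ 0 := by exact_mod_cast k.factorial_ne_zero
  have hkp : (0 : ℝ) < (k.factorial : ℝ) := by exact_mod_cast k.factorial_pos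
  have hdiv : iteratedDeriv k (logDeriv f) s₀ / (k.factorial : ℂ) -
      (-1) ^ k * ∑ ρ ∈ S, (od f ρ : ℂ) * (1 / (s₀ - ρ)) ^ (k + 1) =
      iteratedDeriv k (logDeriv h) s₀ / (k.factorial : ℂ) := by
    rw [hiter]
    field_simp
    ring
  rw [hdiv, norm_div, Complex.norm_natCast]
  rw [div_le_iff₀ hkp]
  refine hcau.trans (le_of_eq ?_)
  rw [div_pow, div_pow]
  have hR4 : (4 : ℝ) ^ k ≠ 0 := by positivity
  have hRk : R ^ k ≠ 0 := by positivity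
  field_simp

end Pool.Agent.Lib.H18Q
end

-- from Lib.H18Q.Z2
section

/-!
# Project H18Q, chunk Z2: sums over the zeros near a point
-/

open Finset

namespace Pool.Agent.Lib.H18Q

/-- If all zeros `ρ` of `f` in the disc of radius `R/2` about `s₀` have `Re ρ ≤ Re s₀ - lam`, then
`∑ od(ρ) lam / |s₀ - ρ|² ≤ |f'/f (s₀)| + A (M+1)/R`.

Proof: `landau_k` with `k = 0` and the real part: `Re (1/(s₀ - ρ)) = Re (s₀ - ρ)/|s₀ - ρ|² ≥
lam/|s₀ - ρ|²`. -/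
theorem zero_sum_sq : ∃ A : ℝ, 0 < A ∧ ∀ (f : ℂ → ℂ) (s₀ : ℂ) (R M lam : ℝ), 0 < R → 0 ≤ M →
    Differentiable ℂ f → f s₀ ≠ 0 →
    (∀ s ∈ Metric.closedBall s₀ R, ‖f s‖ ≤ Real.exp M * ‖f s₀‖) →
    (∀ ρ, f ρ = 0 → ‖ρ - s₀‖ ≤ R / 2 → ρ.re ≤ s₀.re - lam) →
    ∑ ρ ∈ ZD f s₀ (R / 2), (od f ρ : ℝ) * (lam / ‖s₀ - ρ‖ ^ 2) ≤
      ‖logDeriv f s₀‖ + A * (M + 1) / R := by
  obtain ⟨A, hA, H⟩ := landau_k
  refine ⟨A, hA, ?_⟩
  intro f s₀ R M lam hR hM hf hs0 hgr hz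
  have h1 := H f s₀ R M hR hM hf hs0 hgr 0
  simp only [iteratedDeriv_zero, Nat.factorial_zero, Nat.cast_one, div_one, pow_zero, one_mul,
    zero_add, pow_one, mul_one] at h1
  have h2 : (∑ ρ ∈ ZD f s₀ (R / 2), (od f ρ : ℂ) * (1 / (s₀ - ρ))).re ≤
      ‖logDeriv f s₀‖ + A * (M + 1) / R := by
    have h3 : ‖∑ ρ ∈ ZD f s₀ (R / 2), (od f ρ : ℂ) * (1 / (s₀ - ρ))‖ ≤
        ‖logDeriv f s₀‖ + A * (M + 1) / R := by
      have h4 : ∑ ρ ∈ ZD f s₀ (R / 2), (od f ρ : ℂ) * (1 / (s₀ - ρ)) = logDeriv f s₀ -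
          (logDeriv f s₀ - ∑ ρ ∈ ZD f s₀ (R / 2), (od f ρ : ℂ) * (1 / (s₀ - ρ))) := by ring
      rw [h4]
      exact (norm_sub_le _ _).trans (add_le_add_right h1 _)
    exact (Complex.re_le_norm _).trans h3
  refine le_trans ?_ h2
  rw [Complex.re_sum]
  refine sum_le_sum fun ρ hρ => ?_
  rw [mem_ZD hf ⟨s₀, hs0⟩] at hρ
  have h5 := hz ρ hρ.1 hρ.2
  have h6 : ((od f ρ : ℂ) * (1 / (s₀ - ρ))).re = (od f ρ : ℝ) * ((s₀ - ρ).re / ‖s₀ - ρ‖ ^ 2) := by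
    rw [one_div, ← Complex.ofReal_natCast, Complex.re_ofReal_mul, Complex.inv_re,
      Complex.normSq_eq_norm_sq]
  rw [h6]
  apply mul_le_mul_of_nonneg_left _ (Nat.cast_nonneg _)
  apply div_le_div_of_nonneg_right _ (sq_nonneg _)
  rw [Complex.sub_re]
  linarith

theorem z2_re (lam v : ℝ) : (1 + lam + v * Complex.I : ℂ).re = 1 + lam := by
  simp

theorem z2_im (lam v : ℝ) : (1 + lam + v * Complex.I : ℂ).im = v := by
  simp

theorem z2_ne {C0 ℓ T : ℝ} {f : ℂ → ℂ} (h : LDat C0 ℓ T f) {lam v : ℝ} (hl : 0 ≤ lam) :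
    f (1 + lam + v * Complex.I) ≠ 0 := by
  intro h0
  have h1 := h.zre _ h0
  rw [z2_re] at h1
  linarith

/-- The sum for a function with growth data: at `s₀ = 1 + lam + i v`,
`∑_{|ρ - s₀| ≤ 1/4} od(ρ) (lam/|s₀ - ρ|)² ≤ C1 lam ℓ`.

Proof: `zero_sum_sq` with `R = 1/2`, `M = C0 ℓ` (`f s₀ ≠ 0` and `Re ρ ≤ 1 = Re s₀ - lam` by `zre`),
times `lam`: at most `lam (C0/lam + 2 A (C0 ℓ + 1)) ≤ (C0 + 2 A (C0 + 1)) lam ℓ`, as
`lam ℓ ≥ 1`, `ℓ ≥ 8`. (`f s₀ ≠ 0` gives `hne` for `mem_ZD`.) -/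
theorem ldat_sum (C0 : ℝ) (h0 : 1 ≤ C0) : ∃ C1 : ℝ, 1 ≤ C1 ∧ ∀ (ℓ T : ℝ) (f : ℂ → ℂ), 8 ≤ ℓ →
    LDat C0 ℓ T f → ∀ lam v : ℝ, 1 / ℓ ≤ lam → lam ≤ 1 / 8 → |v| ≤ T →
    ∑ ρ ∈ ZD f (1 + lam + v * Complex.I) (1 / 4),
      (od f ρ : ℝ) * (lam / ‖1 + lam + v * Complex.I - ρ‖) ^ 2 ≤ C1 * (lam * ℓ) := by
  obtain ⟨A, hA, H⟩ := zero_sum_sq
  refine ⟨C0 + 2 * A * (C0 + 1), by nlinarith, ?_⟩
  intro ℓ T f hℓ hf lam v hl1 hl2 hv
  have hℓ0 : 0 < ℓ := by linarith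
  have hlam : 0 < lam := lt_of_lt_of_le (by positivity) hl1
  have hlamℓ : 1 ≤ lam * ℓ := by
    rw [div_le_iff₀ hℓ0] at hl1
    exact hl1
  have hs0 : f (1 + lam + v * Complex.I) ≠ 0 := z2_ne hf hlam.le
  have h1 := H f (1 + lam + v * Complex.I) (1 / 2) (C0 * ℓ) lam (by norm_num)
    (by positivity) hf.diff hs0 (hf.growth lam v hl1 hl2 hv) (by
      intro ρ hρ _
      have h2 := hf.zre ρ hρ
      rw [z2_re]
      linarith)
  have h3 := hf.ld lam v hl1 hl2 hv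
  have h4 : (1 / 2 / 2 : ℝ) = 1 / 4 := by norm_num
  rw [h4] at h1
  have h5 : ∑ ρ ∈ ZD f (1 + lam + v * Complex.I) (1 / 4),
      (od f ρ : ℝ) * (lam / ‖1 + lam + v * Complex.I - ρ‖) ^ 2 =
      lam * ∑ ρ ∈ ZD f (1 + lam + v * Complex.I) (1 / 4),
      (od f ρ : ℝ) * (lam / ‖1 + lam + v * Complex.I - ρ‖ ^ 2) := by
    rw [mul_sum]
    refine sum_congr rfl fun ρ _ => ?_
    rw [div_pow]
    ring
  rw [h5]
  have h6 : lam * ∑ ρ ∈ ZD f (1 + lam + v * Complex.I) (1 / 4),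
      (od f ρ : ℝ) * (lam / ‖1 + lam + v * Complex.I - ρ‖ ^ 2) ≤
      lam * (C0 / lam + A * (C0 * ℓ + 1) / (1 / 2)) :=
    mul_le_mul_of_nonneg_left (h1.trans (add_le_add_left h3 _)) hlam.le
  refine h6.trans ?_
  have h7 : lam * (C0 / lam + A * (C0 * ℓ + 1) / (1 / 2)) =
      C0 + 2 * A * (C0 * (lam * ℓ) + lam) := by
    field_simp
  rw [h7]
  have h8 : lam ≤ lam * ℓ := by nlinarith
  have h9 : C0 ≤ C0 * (lam * ℓ) := by nlinarith
  have h10 : 2 * A * (C0 * (lam * ℓ) + lam) ≤ 2 * A * (C0 * (lam * ℓ) + lam * ℓ) := by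
    apply mul_le_mul_of_nonneg_left _ (by positivity)
    linarith
  nlinarith

/-- Few zeros near a point. Proof: in `ldat_sum` the zeros with `|s₀ - ρ| ≤ D lam ≤ 1/4` have
`(lam/|s₀ - ρ|)² ≥ 1/D²` (`|s₀ - ρ| > 0`). -/
theorem ldat_near (C0 : ℝ) (h0 : 1 ≤ C0) : ∃ C1 : ℝ, 1 ≤ C1 ∧ ∀ (ℓ T : ℝ) (f : ℂ → ℂ), 8 ≤ ℓ →
    LDat C0 ℓ T f → ∀ lam v D : ℝ, 1 / ℓ ≤ lam → lam ≤ 1 / 8 → |v| ≤ T → 1 ≤ D →
    D * lam ≤ 1 / 4 →
    ∑ ρ ∈ ZD f (1 + lam + v * Complex.I) (D * lam), (od f ρ : ℝ) ≤ C1 * D ^ 2 * (lam * ℓ) := by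
  obtain ⟨C1, hC1, H⟩ := ldat_sum C0 h0
  refine ⟨C1, hC1, ?_⟩
  intro ℓ T f hℓ hf lam v D hl1 hl2 hv hD hDl
  have hℓ0 : 0 < ℓ := by linarith
  have hlam : 0 < lam := lt_of_lt_of_le (by positivity) hl1
  have hs0 : f (1 + lam + v * Complex.I) ≠ 0 := z2_ne hf hlam.le
  have h1 := H ℓ T f hℓ hf lam v hl1 hl2 hv
  have hsub : ZD f (1 + lam + v * Complex.I) (D * lam) ⊆
      ZD f (1 + lam + v * Complex.I) (1 / 4) := by
    intro ρ hρ
    rw [mem_ZD hf.diff ⟨_, hs0⟩] at hρ ⊢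
    exact ⟨hρ.1, hρ.2.trans hDl⟩
  have h2 : ∑ ρ ∈ ZD f (1 + lam + v * Complex.I) (D * lam), (od f ρ : ℝ) ≤
      ∑ ρ ∈ ZD f (1 + lam + v * Complex.I) (D * lam),
        D ^ 2 * ((od f ρ : ℝ) * (lam / ‖1 + lam + v * Complex.I - ρ‖) ^ 2) := by
    refine sum_le_sum fun ρ hρ => ?_
    rw [mem_ZD hf.diff ⟨_, hs0⟩] at hρ
    have h3 : ‖(1 + lam + v * Complex.I : ℂ) - ρ‖ ≤ D * lam := by
      rw [norm_sub_rev]
      exact hρ.2
    have h4 : 0 < ‖(1 + lam + v * Complex.I : ℂ) - ρ‖ := by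
      rw [norm_pos_iff, sub_ne_zero]
      intro h5
      rw [h5] at hs0
      exact hs0 hρ.1
    have h5 : 1 ≤ D * (lam / ‖(1 + lam + v * Complex.I : ℂ) - ρ‖) := by
      rw [← mul_div_assoc, le_div_iff₀ h4, one_mul]
      exact h3
    have h6 : 1 ≤ (D * (lam / ‖(1 + lam + v * Complex.I : ℂ) - ρ‖)) ^ 2 := one_le_pow₀ h5
    have h7 : (0 : ℝ) ≤ od f ρ := Nat.cast_nonneg _
    calc (od f ρ : ℝ) = (od f ρ : ℝ) * 1 := (mul_one _).symm
      _ ≤ (od f ρ : ℝ) * (D * (lam / ‖(1 + lam + v * Complex.I : ℂ) - ρ‖)) ^ 2 :=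
        mul_le_mul_of_nonneg_left h6 h7
      _ = D ^ 2 * ((od f ρ : ℝ) * (lam / ‖(1 + lam + v * Complex.I : ℂ) - ρ‖) ^ 2) := by ring
  refine h2.trans ?_
  rw [← mul_sum]
  have h3 : ∑ ρ ∈ ZD f (1 + lam + v * Complex.I) (D * lam),
      (od f ρ : ℝ) * (lam / ‖1 + lam + v * Complex.I - ρ‖) ^ 2 ≤ C1 * (lam * ℓ) :=
    (sum_le_sum_of_subset_of_nonneg hsub fun ρ _ _ => by positivity).trans h1
  calc D ^ 2 * ∑ ρ ∈ ZD f (1 + lam + v * Complex.I) (D * lam),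
      (od f ρ : ℝ) * (lam / ‖1 + lam + v * Complex.I - ρ‖) ^ 2
      ≤ D ^ 2 * (C1 * (lam * ℓ)) := mul_le_mul_of_nonneg_left h3 (by positivity)
    _ = C1 * D ^ 2 * (lam * ℓ) := by ring

/-- Few zeros in a box: the zeros `ρ` in a finite set `S` with `Re ρ ≥ 1 - lam` and
`|Im ρ - v| ≤ lam` have `|s₀ - ρ| ≤ 3 lam ≤ 1/4` for `lam ≤ 1/12` (`ldat_near` with `D = 3`). -/
theorem ldat_box (C0 : ℝ) (h0 : 1 ≤ C0) : ∃ C1 : ℝ, 1 ≤ C1 ∧ ∀ (ℓ T : ℝ) (f : ℂ → ℂ), 8 ≤ ℓ →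
    LDat C0 ℓ T f → ∀ lam v : ℝ, 1 / ℓ ≤ lam → lam ≤ 1 / 12 → |v| ≤ T →
    ∀ S : Finset ℂ, (∀ ρ ∈ S, f ρ = 0 ∧ 1 - lam ≤ ρ.re ∧ |ρ.im - v| ≤ lam) →
    ∑ ρ ∈ S, (od f ρ : ℝ) ≤ C1 * (lam * ℓ) := by
  obtain ⟨C1, hC1, H⟩ := ldat_near C0 h0
  refine ⟨C1 * 9, by linarith, ?_⟩
  intro ℓ T f hℓ hf lam v hl1 hl2 hv S hS
  have hℓ0 : 0 < ℓ := by linarith
  have hlam : 0 < lam := lt_of_lt_of_le (by positivity) hl1
  have hs0 : f (1 + lam + v * Complex.I) ≠ 0 := z2_ne hf hlam.le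
  have h1 := H ℓ T f hℓ hf lam v 3 hl1 (by linarith) hv (by norm_num) (by linarith)
  have hsub : S ⊆ ZD f (1 + lam + v * Complex.I) (3 * lam) := by
    intro ρ hρ
    obtain ⟨h2, h3, h4⟩ := hS ρ hρ
    have h5 := hf.zre ρ h2
    rw [mem_ZD hf.diff ⟨_, hs0⟩]
    refine ⟨h2, ?_⟩
    have h6 := Complex.norm_le_abs_re_add_abs_im (ρ - (1 + lam + v * Complex.I))
    rw [Complex.sub_re, Complex.sub_im, z2_re, z2_im] at h6
    have h7 : |ρ.re - (1 + lam)| ≤ 2 * lam := by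
      rw [abs_le]
      constructor <;> linarith
    linarith
  refine (sum_le_sum_of_subset_of_nonneg hsub fun ρ _ _ => Nat.cast_nonneg _).trans ?_
  refine h1.trans ?_
  have h8 : C1 * 3 ^ 2 * (lam * ℓ) = C1 * 9 * (lam * ℓ) := by norm_num
  rw [h8]

end Pool.Agent.Lib.H18Q
end

-- from Lib.H18Q.Z4
section

/-!
# Project H18Q, chunk Z4: a zero makes a high derivative of the logarithmic derivative large
-/

open Finset

namespace Pool.Agent.Lib.H18Q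

/-- Numerical facts for `detect`: with `D = exp 10`, for all `K1 ≥ C3 κ`, `κ ≥ 1`,
`K1 ≤ e < 2 K1` (only `e ≥ K1` is used), `C3` large in terms of `B`:
`B κ D^2 D^(-e) ≤ (1/4) 4096^(-K1)` and `B κ (1/D)^(e-1) ≤ (1/4) 4096^(-K1)`.
(`log 4096 < 8.4`; `exp (1.6 K1) ≥ 4 B κ exp 30` for `K1 ≥ C3 κ`.) -/
theorem detect_num (B : ℝ) (hB : 1 ≤ B) : ∃ C3 : ℝ, 1 ≤ C3 ∧ ∀ (κ : ℝ) (K1 e : ℕ), 1 ≤ κ →
    C3 * κ ≤ K1 → K1 ≤ e →
    B * κ * (Real.exp 10) ^ 2 * (1 / Real.exp 10) ^ e ≤ 1 / 4 * (1 / 4096) ^ K1 ∧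
    B * κ * (1 / Real.exp 10) ^ (e - 1) ≤ 1 / 4 * (1 / 4096) ^ K1 := by
  have hD0 : 0 < Real.exp 10 := Real.exp_pos _
  have hD1 : 1 ≤ Real.exp 10 := Real.one_le_exp (by norm_num)
  refine ⟨4 * B * (Real.exp 10) ^ 2, by nlinarith [one_le_pow₀ hD1 (n := 2)], ?_⟩
  intro κ K1 e hκ hK1 he
  have hK1' : 1 ≤ K1 := by
    by_contra h
    have h1 : K1 = 0 := by omega
    rw [h1, Nat.cast_zero] at hK1
    have : 0 < 4 * B * (Real.exp 10) ^ 2 * κ := by positivity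
    linarith
  have h9 : (4096 : ℝ) ≤ Real.exp 9 := by
    have h1 : (2.7 : ℝ) ≤ Real.exp 1 := by
      have := Real.exp_one_gt_d9
      linarith
    have h2 : Real.exp 9 = Real.exp 1 ^ 9 := by
      rw [← Real.exp_nat_mul]
      norm_num
    rw [h2]
    calc (4096 : ℝ) ≤ 2.7 ^ 9 := by norm_num
      _ ≤ Real.exp 1 ^ 9 := pow_le_pow_left₀ (by norm_num) h1 9
  have h10 : (4096 : ℝ) * Real.exp 1 ≤ Real.exp 10 := by
    have h1 : Real.exp 10 = Real.exp 9 * Real.exp 1 := by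
      rw [← Real.exp_add]
      norm_num
    rw [h1]
    exact mul_le_mul_of_nonneg_right h9 (Real.exp_pos _).le
  have hkey : B * κ * (Real.exp 10) ^ 2 * (1 / Real.exp 10) ^ K1 ≤
      1 / 4 * (1 / 4096) ^ K1 := by
    have h1 : (4096 * Real.exp 1) ^ K1 ≤ (Real.exp 10) ^ K1 :=
      pow_le_pow_left₀ (by positivity) h10 K1
    have h2 : (K1 : ℝ) ≤ Real.exp 1 ^ K1 := by
      rw [← Real.exp_nat_mul, mul_one]
      have := Real.add_one_le_exp (K1 : ℝ)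
      linarith
    have h3 : 4 * (B * κ * (Real.exp 10) ^ 2) ≤ Real.exp 1 ^ K1 := by
      refine le_trans ?_ (hK1.trans h2)
      have : 4 * (B * κ * (Real.exp 10) ^ 2) = 4 * B * (Real.exp 10) ^ 2 * κ := by ring
      rw [this]
    have h4 : (4096 : ℝ) ^ K1 * (4 * (B * κ * (Real.exp 10) ^ 2)) ≤ (Real.exp 10) ^ K1 := by
      rw [mul_pow] at h1
      exact (mul_le_mul_of_nonneg_left h3 (by positivity)).trans h1
    rw [one_div_pow, one_div_pow, mul_one_div, div_le_iff₀ (by positivity), mul_one_div,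
      div_mul_eq_mul_div, le_div_iff₀ (by positivity)]
    nlinarith
  have h1 : (1 / Real.exp 10) ^ e ≤ (1 / Real.exp 10) ^ K1 := by
    apply pow_le_pow_of_le_one (by positivity) _ he
    rw [div_le_one hD0]
    exact hD1
  have hfirst : B * κ * (Real.exp 10) ^ 2 * (1 / Real.exp 10) ^ e ≤
      1 / 4 * (1 / 4096) ^ K1 :=
    (mul_le_mul_of_nonneg_left h1 (by positivity)).trans hkey
  refine ⟨hfirst, ?_⟩
  refine le_trans ?_ hfirst
  obtain ⟨e', rfl⟩ : ∃ e', e = e' + 1 := ⟨e - 1, by omega⟩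
  rw [Nat.add_sub_cancel, mul_assoc (B * κ)]
  apply mul_le_mul_of_nonneg_left _ (by positivity)
  have h5 : (Real.exp 10) ^ 2 * (1 / Real.exp 10) ^ (e' + 1) =
      Real.exp 10 * (1 / Real.exp 10) ^ e' := by
    rw [pow_succ (1 / Real.exp 10)]
    field_simp
  rw [h5]
  have h6 : 0 ≤ (1 / Real.exp 10) ^ e' := by positivity
  nlinarith

/-- Detection of zeros. Let `f` have growth data, `lam = κ/ℓ`, `1 ≤ κ ≤ th0 ℓ`, `s₀ = 1 + lam + i v`,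
and let `f` have a zero `ρ₀` with `Re ρ₀ ≥ 1 - lam`, `|Im ρ₀ - v| ≤ lam`. Then for `K1 ≥ C3 κ` there
is `K1 ≤ e < 2 K1` with `|lam^e (f'/f)^(e-1)(s₀)/(e-1)!| ≥ (1/2) 4096^(-K1)`.

Proof. `D = exp 10`; `D lam ≤ 1/4` and `8 lam ≤ 1/D` (`th0 = 10^(-9)`, `exp 10 < 22027`), `lam ≤ 1/8`,
`1/ℓ ≤ lam`, `ℓ ≥ 1/th0 ≥ 8`. Let `S = ZD f s₀ (D lam)`, `z_ρ = lam/(s₀ - ρ)`, `m_ρ = od f ρ`
(`≥ 1`, `od_pos`). `Re (s₀ - ρ) > lam` for zeros `ρ` (`zre`), so `|z_ρ| ≤ 1`. By `ldat_near`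
`#S ≤ ∑_S m_ρ ≤ C1 D² κ ≤ K1` if `C3 ≥ C1 D²`. `ρ₀ ∈ S`: `lam < Re (s₀ - ρ₀) ≤ 2 lam`,
`|Im| ≤ lam`, so `|s₀ - ρ₀| ≤ 3 lam`, `|z_{ρ₀}| ≥ 1/3`. `turan` gives `K1 ≤ e < 2 K1` with
`|∑_S m_ρ z_ρ^e| ≥ 4096^(-K1)`. The other zeros in `ZD f s₀ (1/4)`: `|z_ρ| < 1/D`, so
`|z_ρ|^e ≤ (1/D)^(e-2) |z_ρ|²` (`e ≥ 2`), total `≤ D² D^(-e) C1 κ` (`ldat_sum`). `landau_k` with
`R = 1/2`, `M = C0 ℓ`, `k = e - 1`, times `lam^e`: error `≤ 2 A (C0 ℓ + 1) 8^(e-1) lam^e ≤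
2 A (C0 + 1) κ (8 lam)^(e-1)`. Both errors are `≤ (1/4) 4096^(-K1)` by `detect_num` with
`B = max 1 (C1) (2 A (C0+1))`. -/
theorem detect (C0 : ℝ) (h0 : 1 ≤ C0) : ∃ C3 : ℝ, 1 ≤ C3 ∧ ∀ (ℓ T : ℝ) (f : ℂ → ℂ),
    LDat C0 ℓ T f → ∀ κ v : ℝ, 1 ≤ κ → κ ≤ th0 * ℓ → |v| ≤ T → ∀ K1 : ℕ, C3 * κ ≤ K1 →
    (∃ ρ : ℂ, f ρ = 0 ∧ 1 - κ / ℓ ≤ ρ.re ∧ |ρ.im - v| ≤ κ / ℓ) →
    ∃ e : ℕ, K1 ≤ e ∧ e < 2 * K1 ∧ 1 / 2 * (1 / 4096 : ℝ) ^ K1 ≤
      ‖((κ / ℓ : ℝ) : ℂ) ^ e * (iteratedDeriv (e - 1) (logDeriv f)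
        (1 + (κ / ℓ : ℝ) + v * Complex.I) / ((e - 1).factorial : ℂ))‖ := by
  obtain ⟨A, hA, HL⟩ := landau_k
  obtain ⟨C1, hC1, Hsum⟩ := ldat_sum C0 h0
  obtain ⟨C2, hC2, Hnear⟩ := ldat_near C0 h0
  obtain ⟨C3, hC3, Hnum⟩ := detect_num (C1 + 2 * A * (C0 + 1)) (by nlinarith)
  have hD0 : 0 < Real.exp 10 := Real.exp_pos _
  have hD1 : 1 ≤ Real.exp 10 := Real.one_le_exp (by norm_num)
  have hD3 : 3 ≤ Real.exp 10 := by
    have := Real.add_one_le_exp (10 : ℝ)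
    linarith
  have hD5 : Real.exp 10 < 22027 := by
    have h1 : Real.exp 10 = Real.exp 1 ^ 10 := by
      rw [← Real.exp_nat_mul]
      norm_num
    rw [h1]
    calc Real.exp 1 ^ 10 ≤ 2.7182818286 ^ 10 :=
        pow_le_pow_left₀ (Real.exp_pos _).le Real.exp_one_lt_d9.le 10
      _ < 22027 := by norm_num
  refine ⟨C3 + C2 * (Real.exp 10) ^ 2, by nlinarith [sq_nonneg (Real.exp 10)], ?_⟩
  intro ℓ T f hf κ v hκ1 hκ2 hv K1 hK1 hρ
  obtain ⟨ρ₀, hρ0, hρ1, hρ2⟩ := hρ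
  have hℓ : 10 ^ 9 ≤ ℓ := by
    unfold th0 at hκ2
    rw [div_mul_eq_mul_div, one_mul, le_div_iff₀ (by norm_num)] at hκ2
    nlinarith
  have hℓ0 : 0 < ℓ := by linarith
  have hℓ8 : 8 ≤ ℓ := by linarith
  have hlamle : κ / ℓ ≤ 1 / 10 ^ 9 := by
    rw [div_le_iff₀ hℓ0]
    exact hκ2
  have hlam1 : 1 / ℓ ≤ κ / ℓ := div_le_div_of_nonneg_right hκ1 hℓ0.le
  have hlamℓ : κ / ℓ * ℓ = κ := div_mul_cancel₀ _ hℓ0.ne'
  generalize κ / ℓ = lam at *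
  have hlam0 : 0 < lam := lt_of_lt_of_le (by positivity) hlam1
  have hlam8 : lam ≤ 1 / 8 := hlamle.trans (by norm_num)
  have hs0 : f (1 + lam + v * Complex.I) ≠ 0 := z2_ne hf hlam0.le
  have hDlam : Real.exp 10 * lam ≤ 1 / 4 := by
    have h1 : Real.exp 10 * lam ≤ 22027 * (1 / 10 ^ 9) :=
      mul_le_mul hD5.le hlamle hlam0.le (by norm_num)
    exact h1.trans (by norm_num)
  have h8lam : 8 * lam ≤ 1 / Real.exp 10 := by
    rw [le_div_iff₀ hD0]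
    have h1 : Real.exp 10 * lam ≤ 22027 * (1 / 10 ^ 9) :=
      mul_le_mul hD5.le hlamle hlam0.le (by norm_num)
    have h2 : 8 * lam * Real.exp 10 = 8 * (Real.exp 10 * lam) := by ring
    rw [h2]
    linarith
  have hnear := Hnear ℓ T f hℓ8 hf lam v (Real.exp 10) hlam1 hlam8 hv hD1 hDlam
  have hsum := Hsum ℓ T f hℓ8 hf lam v hlam1 hlam8 hv
  rw [hlamℓ] at hnear hsum
  have hgr := hf.growth lam v hlam1 hlam8 hv
  have hrep := z2_re lam v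
  have himp := z2_im lam v
  generalize (1 + lam + v * Complex.I : ℂ) = s₀ at *
  have hne : ∃ c, f c ≠ 0 := ⟨s₀, hs0⟩
  have hmem : ∀ (R : ℝ) (ρ : ℂ), ρ ∈ ZD f s₀ R ↔ f ρ = 0 ∧ ‖ρ - s₀‖ ≤ R :=
    fun R ρ => mem_ZD hf.diff hne
  -- the distance from the zeros
  have hdist : ∀ ρ : ℂ, f ρ = 0 → lam < ‖s₀ - ρ‖ := by
    intro ρ h1
    have h2 := hf.zre ρ h1
    have h3 := Complex.re_le_norm (s₀ - ρ)
    rw [Complex.sub_re, hrep] at h3
    linarith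
  let z : ℂ → ℂ := fun ρ => (lam : ℂ) / (s₀ - ρ)
  have hznorm : ∀ ρ, ‖z ρ‖ = lam / ‖s₀ - ρ‖ := by
    intro ρ
    simp only [z]
    rw [norm_div, Complex.norm_real, Real.norm_of_nonneg hlam0.le]
  have hz1 : ∀ ρ, f ρ = 0 → ‖z ρ‖ ≤ 1 := by
    intro ρ h1
    rw [hznorm, div_le_one (hlam0.trans (hdist ρ h1))]
    exact (hdist ρ h1).le
  have hK1C : C3 * κ ≤ K1 ∧ C2 * (Real.exp 10) ^ 2 * κ ≤ K1 := by
    have h1 : (C3 + C2 * (Real.exp 10) ^ 2) * κ = C3 * κ + C2 * (Real.exp 10) ^ 2 * κ := by ring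
    have h2 : 0 ≤ C3 * κ := by positivity
    have h3 : 0 ≤ C2 * (Real.exp 10) ^ 2 * κ := by positivity
    constructor <;> linarith
  have hK12 : 2 ≤ K1 := by
    have h1 : (2 : ℝ) ≤ K1 := by
      refine le_trans ?_ hK1C.2
      have h2 : (9 : ℝ) ≤ (Real.exp 10) ^ 2 := by nlinarith
      have h3 : (9 : ℝ) ≤ C2 * (Real.exp 10) ^ 2 := by nlinarith
      nlinarith
    exact_mod_cast h1
  have hcard : (ZD f s₀ (Real.exp 10 * lam)).card ≤ K1 := by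
    have h1 : ((ZD f s₀ (Real.exp 10 * lam)).card : ℝ) ≤ K1 := by
      refine le_trans ?_ (hnear.trans hK1C.2)
      rw [card_eq_sum_ones, Nat.cast_sum]
      refine sum_le_sum fun ρ hρ => ?_
      rw [hmem] at hρ
      exact_mod_cast od_pos hf.diff hne hρ.1
    exact_mod_cast h1
  have hρ₀d : ‖s₀ - ρ₀‖ ≤ 3 * lam := by
    have h5 := hf.zre ρ₀ hρ0
    have h6 := Complex.norm_le_abs_re_add_abs_im (s₀ - ρ₀)
    rw [Complex.sub_re, Complex.sub_im, hrep, himp] at h6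
    have h7 : |1 + lam - ρ₀.re| ≤ 2 * lam := by
      rw [abs_le]
      constructor <;> linarith
    have h8 : |v - ρ₀.im| ≤ lam := by
      rw [abs_sub_comm]
      exact hρ2
    linarith
  have hρ₀S : ρ₀ ∈ ZD f s₀ (Real.exp 10 * lam) := by
    rw [hmem]
    refine ⟨hρ0, ?_⟩
    rw [norm_sub_rev]
    exact hρ₀d.trans (mul_le_mul_of_nonneg_right hD3 hlam0.le)
  have hρ₀z : 1 / 3 ≤ ‖z ρ₀‖ := by
    rw [hznorm, le_div_iff₀ (hlam0.trans (hdist ρ₀ hρ0))]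
    linarith
  obtain ⟨e, he1, he2, hT⟩ := turan (ZD f s₀ (Real.exp 10 * lam)) (od f) z K1 (by omega) hcard
    (fun ρ hρ => hz1 ρ ((hmem _ _).1 hρ).1) ρ₀ hρ₀S (od_pos hf.diff hne hρ0) hρ₀z
  refine ⟨e, he1, he2, ?_⟩
  obtain ⟨hn1, hn2⟩ := Hnum κ K1 e hκ1 hK1C.1 he1
  have hsub : ZD f s₀ (Real.exp 10 * lam) ⊆ ZD f s₀ (1 / 4) := by
    intro ρ hρ
    rw [hmem] at hρ ⊢
    exact ⟨hρ.1, hρ.2.trans hDlam⟩
  -- the far zeros
  have hfar : ‖∑ ρ ∈ ZD f s₀ (1 / 4) \ ZD f s₀ (Real.exp 10 * lam), (od f ρ : ℂ) * z ρ ^ e‖ ≤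
      C1 * κ * (Real.exp 10) ^ 2 * (1 / Real.exp 10) ^ e := by
    have h1 : ∀ ρ ∈ ZD f s₀ (1 / 4) \ ZD f s₀ (Real.exp 10 * lam),
        ‖(od f ρ : ℂ) * z ρ ^ e‖ ≤ ((Real.exp 10) ^ 2 * (1 / Real.exp 10) ^ e) *
          ((od f ρ : ℝ) * (lam / ‖s₀ - ρ‖) ^ 2) := by
      intro ρ hρ
      rw [mem_sdiff, hmem, hmem] at hρ
      have h2 : Real.exp 10 * lam < ‖s₀ - ρ‖ := by
        rw [norm_sub_rev]
        by_contra h
        exact hρ.2 ⟨hρ.1.1, not_lt.1 h⟩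
      have h3 : ‖z ρ‖ ≤ 1 / Real.exp 10 := by
        rw [hznorm, div_le_div_iff₀ (hlam0.trans (hdist ρ hρ.1.1)) hD0]
        linarith
      have h4 : ‖z ρ‖ ^ e ≤ (1 / Real.exp 10) ^ (e - 2) * ‖z ρ‖ ^ 2 := by
        have h5 : ‖z ρ‖ ^ e = ‖z ρ‖ ^ (e - 2) * ‖z ρ‖ ^ 2 := by
          rw [← pow_add]
          congr 1
          omega
        rw [h5]
        exact mul_le_mul_of_nonneg_right (pow_le_pow_left₀ (norm_nonneg _) h3 _) (by positivity)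
      have h6 : (1 / Real.exp 10) ^ (e - 2) = (Real.exp 10) ^ 2 * (1 / Real.exp 10) ^ e := by
        obtain ⟨e', rfl⟩ : ∃ e', e = e' + 2 := ⟨e - 2, by omega⟩
        rw [Nat.add_sub_cancel, pow_add]
        field_simp
      rw [norm_mul, norm_pow, Complex.norm_natCast]
      rw [h6, hznorm] at h4
      rw [hznorm]
      calc (od f ρ : ℝ) * (lam / ‖s₀ - ρ‖) ^ e ≤ (od f ρ : ℝ) *
          ((Real.exp 10) ^ 2 * (1 / Real.exp 10) ^ e * (lam / ‖s₀ - ρ‖) ^ 2) :=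
            mul_le_mul_of_nonneg_left h4 (Nat.cast_nonneg _)
        _ = _ := by ring
    refine (norm_sum_le_of_le _ h1).trans ?_
    rw [← mul_sum]
    have h2 : ∑ ρ ∈ ZD f s₀ (1 / 4) \ ZD f s₀ (Real.exp 10 * lam),
        (od f ρ : ℝ) * (lam / ‖s₀ - ρ‖) ^ 2 ≤ C1 * κ :=
      (sum_le_sum_of_subset_of_nonneg sdiff_subset fun ρ _ _ => by positivity).trans hsum
    calc _ ≤ (Real.exp 10) ^ 2 * (1 / Real.exp 10) ^ e * (C1 * κ) :=
          mul_le_mul_of_nonneg_left h2 (by positivity)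
      _ = _ := by ring
  have hall : (1 / 4096 : ℝ) ^ K1 - C1 * κ * (Real.exp 10) ^ 2 * (1 / Real.exp 10) ^ e ≤
      ‖∑ ρ ∈ ZD f s₀ (1 / 4), (od f ρ : ℂ) * z ρ ^ e‖ := by
    rw [← sum_sdiff hsub]
    have h1 := norm_sub_norm_le (∑ ρ ∈ ZD f s₀ (Real.exp 10 * lam), (od f ρ : ℂ) * z ρ ^ e)
      (-∑ ρ ∈ ZD f s₀ (1 / 4) \ ZD f s₀ (Real.exp 10 * lam), (od f ρ : ℂ) * z ρ ^ e)
    rw [norm_neg, sub_neg_eq_add] at h1
    rw [add_comm]
    linarith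
  -- the approximation of the logarithmic derivative
  have hLk := HL f s₀ (1 / 2) (C0 * ℓ) (by norm_num) (by positivity) hf.diff hs0 hgr (e - 1)
  have h4 : (1 / 2 / 2 : ℝ) = 1 / 4 := by norm_num
  have h8 : (4 / (1 / 2) : ℝ) = 8 := by norm_num
  have hee : e - 1 + 1 = e := by omega
  rw [h4, h8, hee] at hLk
  have hmul : ‖(lam : ℂ) ^ e * (iteratedDeriv (e - 1) (logDeriv f) s₀ / ((e - 1).factorial : ℂ)) -
      (-1) ^ (e - 1) * ∑ ρ ∈ ZD f s₀ (1 / 4), (od f ρ : ℂ) * z ρ ^ e‖ ≤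
      lam ^ e * (A * (C0 * ℓ + 1) / (1 / 2) * 8 ^ (e - 1)) := by
    have h1 : (lam : ℂ) ^ e * (iteratedDeriv (e - 1) (logDeriv f) s₀ / ((e - 1).factorial : ℂ)) -
      (-1) ^ (e - 1) * ∑ ρ ∈ ZD f s₀ (1 / 4), (od f ρ : ℂ) * z ρ ^ e =
      (lam : ℂ) ^ e * (iteratedDeriv (e - 1) (logDeriv f) s₀ / ((e - 1).factorial : ℂ) -
      (-1) ^ (e - 1) * ∑ ρ ∈ ZD f s₀ (1 / 4), (od f ρ : ℂ) * (1 / (s₀ - ρ)) ^ e) := by
      rw [mul_sub, mul_left_comm ((lam : ℂ) ^ e) ((-1) ^ (e - 1))]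
      congr 2
      rw [mul_sum]
      refine sum_congr rfl fun ρ _ => ?_
      simp only [z]
      rw [div_eq_mul_one_div, mul_pow]
      ring
    rw [h1, norm_mul, norm_pow, Complex.norm_real, Real.norm_of_nonneg hlam0.le]
    exact mul_le_mul_of_nonneg_left hLk (by positivity)
  have herr : lam ^ e * (A * (C0 * ℓ + 1) / (1 / 2) * 8 ^ (e - 1)) ≤
      2 * A * (C0 + 1) * κ * (1 / Real.exp 10) ^ (e - 1) := by
    obtain ⟨e', rfl⟩ : ∃ e', e = e' + 1 := ⟨e - 1, by omega⟩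
    rw [Nat.add_sub_cancel]
    have h1 : lam ^ (e' + 1) * (A * (C0 * ℓ + 1) / (1 / 2) * 8 ^ e') =
        2 * A * (C0 * (lam * ℓ) + lam) * (8 * lam) ^ e' := by
      rw [mul_pow, pow_succ]
      ring
    rw [h1, hlamℓ]
    have h2 : (8 * lam) ^ e' ≤ (1 / Real.exp 10) ^ e' :=
      pow_le_pow_left₀ (by positivity) h8lam e'
    have h3 : C0 * κ + lam ≤ (C0 + 1) * κ := by
      rw [add_mul, one_mul]
      exact add_le_add_right (hlam8.trans (le_trans (by norm_num) hκ1)) _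
    have h5 : 2 * A * (C0 * κ + lam) ≤ 2 * A * (C0 + 1) * κ := by
      have : 2 * A * (C0 + 1) * κ = 2 * A * ((C0 + 1) * κ) := by ring
      rw [this]
      exact mul_le_mul_of_nonneg_left h3 (by positivity)
    exact mul_le_mul h5 h2 (by positivity) (by positivity)
  have hsplit1 : C1 * κ * (Real.exp 10) ^ 2 * (1 / Real.exp 10) ^ e ≤
      1 / 4 * (1 / 4096) ^ K1 := by
    refine le_trans ?_ hn1
    have h1 : C1 * κ ≤ (C1 + 2 * A * (C0 + 1)) * κ :=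
      mul_le_mul_of_nonneg_right (le_add_of_nonneg_right (by positivity))
        (zero_le_one.trans hκ1)
    exact mul_le_mul_of_nonneg_right (mul_le_mul_of_nonneg_right h1 (by positivity))
      (by positivity)
  have hsplit2 : 2 * A * (C0 + 1) * κ * (1 / Real.exp 10) ^ (e - 1) ≤
      1 / 4 * (1 / 4096) ^ K1 := by
    refine le_trans ?_ hn2
    have h1 : 2 * A * (C0 + 1) * κ ≤ (C1 + 2 * A * (C0 + 1)) * κ :=
      mul_le_mul_of_nonneg_right (le_add_of_nonneg_left (zero_le_one.trans hC1))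
        (zero_le_one.trans hκ1)
    exact mul_le_mul_of_nonneg_right h1 (by positivity)
  have hfin := norm_sub_norm_le
    ((-1) ^ (e - 1) * ∑ ρ ∈ ZD f s₀ (1 / 4), (od f ρ : ℂ) * z ρ ^ e)
    ((-1) ^ (e - 1) * ∑ ρ ∈ ZD f s₀ (1 / 4), (od f ρ : ℂ) * z ρ ^ e -
      (lam : ℂ) ^ e * (iteratedDeriv (e - 1) (logDeriv f) s₀ / ((e - 1).factorial : ℂ)))
  rw [sub_sub_cancel, norm_sub_rev, norm_mul, norm_pow, norm_neg, norm_one, one_pow, one_mul]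
    at hfin
  linarith

end Pool.Agent.Lib.H18Q
end
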