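import Pool.Agent.Lib.H59M.M2.M016
import Pool.Agent.Lib.H59M.M2.M023

/-! Merged copies (to shorten the build) of Lib.H51D.DHC, Lib.H68T.LONG1, Lib.H68T.LONG2, Lib.H68X.XFB. -/

-- from Lib.H51D.DHC
section

/-!
# Chunk DHC: sums of `λ`
-/

open Finset

namespace Pool.Agent.Lib.H68T





/-- Partial summation from `hyperbola` (`H68X/XRH.lean`): with `M(u) = ∑_{n ≤ u} λ(n)`,
`|M(u) - u L(1)| ≤ 4 r √u` (take real parts or norms; `lam_cast`),
`∑_{y < n ≤ N} λ(n)/n = M(N)/N - M(y)/(y+1) + ∑_{y < n < N} M(n)/(n(n+1))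
≤ ‖L(1)‖ + 4r/√N + ‖L(1)‖ ∑_{y<n<N} 1/(n+1) + 4 r ∑_{n > y} n^(-3/2)`. -/
theorem lam_tail (r : ℕ) [NeZero r] (ψ : DirichletCharacter ℂ r) (hψ : ψ ≠ 1) (h2 : ψ ^ 2 = 1)
    (y N : ℕ) (hy : 1 ≤ y) (hyN : y ≤ N) :
    ∑ n ∈ Ioc y N, lam ψ n / n ≤
      ‖ψ.LFunction 1‖ * (2 + Real.log N) + 20 * r / Real.sqrt y := by
  have hr : (0 : ℝ) ≤ r := Nat.cast_nonneg _
  have hL : 0 ≤ ‖ψ.LFunction 1‖ := norm_nonneg _
  set M : ℕ → ℝ := fun u => ∑ n ∈ Icc 1 u, lam ψ n with hM
  have hM0 : ∀ u, 0 ≤ M u := fun u => sum_nonneg fun n _ => lam_nonneg r ψ h2 n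
  have hMs : ∀ u, M (u + 1) = M u + lam ψ (u + 1) := by
    intro u
    simp only [hM]
    rw [sum_Icc_succ_top (by omega)]
  have hMb : ∀ u, M u ≤ u * ‖ψ.LFunction 1‖ + 4 * r * Real.sqrt u := by
    intro u
    have h1 := hyperbola r ψ hψ u
    have h3 : (∑ m ∈ Icc 1 u, ∑ d ∈ m.divisors, ψ (d : ZMod r)) = ((M u : ℝ) : ℂ) := by
      simp only [hM]
      push_cast
      exact sum_congr rfl fun m _ => (lam_cast r ψ h2 m).symm
    rw [h3] at h1
    have h4 : M u ≤ ‖((M u : ℝ) : ℂ)‖ := by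
      rw [Complex.norm_real]
      exact Real.le_norm_self _
    have h5 : ‖((M u : ℝ) : ℂ)‖ ≤ ‖((M u : ℝ) : ℂ) - u * ψ.LFunction 1‖ +
        ‖(u : ℂ) * ψ.LFunction 1‖ := by
      have := norm_add_le (((M u : ℝ) : ℂ) - u * ψ.LFunction 1) ((u : ℂ) * ψ.LFunction 1)
      rwa [sub_add_cancel] at this
    rw [norm_mul, Complex.norm_natCast] at h5
    linarith
  -- summation by parts
  have hab : ∀ K, y ≤ K → ∑ n ∈ Ioc y K, lam ψ n / n =
      M K / (K + 1) - M y / (y + 1) + ∑ n ∈ Ioc y K, M n / (n * (n + 1)) := by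
    intro K hK
    induction K, hK using Nat.le_induction with
    | base => simp
    | succ K hK ih =>
      rw [sum_Ioc_succ_top (by omega), sum_Ioc_succ_top (by omega), ih, hMs K]
      have h1 : (0 : ℝ) < K + 1 := by positivity
      have h2 : (0 : ℝ) < (K : ℝ) + 1 + 1 := by positivity
      push_cast
      field_simp
      ring
  have hsum : ∀ K, y ≤ K → ∑ n ∈ Ioc y K, M n / (n * (n + 1)) ≤
      ‖ψ.LFunction 1‖ * (Real.log (K + 1) - Real.log (y + 1)) +
        8 * r * (1 / Real.sqrt (y + 1) - 1 / Real.sqrt (K + 1)) := by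
    intro K hK
    induction K, hK using Nat.le_induction with
    | base => simp
    | succ K hK ih =>
      rw [sum_Ioc_succ_top (by omega)]
      have hK1 : (0 : ℝ) < (K : ℝ) + 1 := by positivity
      have hK2 : (0 : ℝ) < (K : ℝ) + 1 + 1 := by positivity
      have h1 := hMb (K + 1)
      have h2 : M (K + 1) / (((K + 1 : ℕ) : ℝ) * (((K + 1 : ℕ) : ℝ) + 1)) ≤
          ‖ψ.LFunction 1‖ * (1 / ((K : ℝ) + 1 + 1)) +
            4 * r * (1 / (Real.sqrt (K + 1) * ((K : ℝ) + 1 + 1))) := by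
        rw [div_le_iff₀ (by positivity)]
        refine h1.trans (le_of_eq ?_)
        push_cast
        have h3 : 0 < Real.sqrt ((K : ℝ) + 1) := Real.sqrt_pos.2 hK1
        have h4 : Real.sqrt ((K : ℝ) + 1) * Real.sqrt ((K : ℝ) + 1) = (K : ℝ) + 1 :=
          Real.mul_self_sqrt hK1.le
        field_simp
        linear_combination (4 * (r : ℝ)) * h4
      have h3 : 1 / ((K : ℝ) + 1 + 1) ≤ Real.log (K + 1 + 1) - Real.log (K + 1) := by
        have h4 := Real.one_sub_inv_le_log_of_pos (x := ((K : ℝ) + 1 + 1) / (K + 1)) (by positivity)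
        rw [Real.log_div hK2.ne' hK1.ne'] at h4
        refine le_trans (le_of_eq ?_) h4
        rw [inv_div]
        field_simp
        ring
      have h5 : 1 / (Real.sqrt ((K : ℝ) + 1) * ((K : ℝ) + 1 + 1)) ≤
          2 * (1 / Real.sqrt ((K : ℝ) + 1) - 1 / Real.sqrt ((K : ℝ) + 1 + 1)) := by
        have ha : 0 < Real.sqrt ((K : ℝ) + 1) := Real.sqrt_pos.2 hK1
        have hb : 0 < Real.sqrt ((K : ℝ) + 1 + 1) := Real.sqrt_pos.2 hK2
        have hab : Real.sqrt ((K : ℝ) + 1) ≤ Real.sqrt ((K : ℝ) + 1 + 1) :=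
          Real.sqrt_le_sqrt (by linarith)
        have ha2 : Real.sqrt ((K : ℝ) + 1) ^ 2 = (K : ℝ) + 1 := Real.sq_sqrt hK1.le
        have hb2 : Real.sqrt ((K : ℝ) + 1 + 1) ^ 2 = (K : ℝ) + 1 + 1 := Real.sq_sqrt hK2.le
        set a := Real.sqrt ((K : ℝ) + 1) with ha'
        set b := Real.sqrt ((K : ℝ) + 1 + 1) with hb'
        have h6 : 2 * (1 / a - 1 / b) = 2 * (b - a) / (a * b) := by
          field_simp
        rw [h6, ← hb2, div_le_div_iff₀ (by positivity) (by positivity)]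
        have h7 : (b - a) * (b + a) = 1 := by nlinarith
        have h8 : 1 ≤ 2 * (b - a) * b := by nlinarith
        have h9 : 0 < a * b := by positivity
        nlinarith [mul_le_mul_of_nonneg_left h8 h9.le]
      have h10 : (((K + 1 : ℕ) : ℝ)) = (K : ℝ) + 1 := by push_cast; ring
      rw [h10] at h2 ⊢
      have h11 := mul_le_mul_of_nonneg_left h3 hL
      have h12 := mul_le_mul_of_nonneg_left h5 (by positivity : (0 : ℝ) ≤ 4 * r)
      linarith
  rw [hab N hyN]
  have hN1 : 1 ≤ N := hy.trans hyN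
  have hN0 : (1 : ℝ) ≤ N := by exact_mod_cast hN1
  have hy0 : (1 : ℝ) ≤ y := by exact_mod_cast hy
  have hyN' : (y : ℝ) ≤ N := by exact_mod_cast hyN
  have hsy : 0 < Real.sqrt (y : ℝ) := Real.sqrt_pos.2 (by linarith)
  have hsN : 0 < Real.sqrt (N : ℝ) := Real.sqrt_pos.2 (by linarith)
  have hsyN : Real.sqrt (y : ℝ) ≤ Real.sqrt N := Real.sqrt_le_sqrt hyN'
  have k1 := hsum N hyN
  have k2 : M N / (N + 1) ≤ ‖ψ.LFunction 1‖ + 4 * r * (1 / Real.sqrt y) := by
    rw [div_le_iff₀ (by positivity)]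
    refine (hMb N).trans ?_
    have h3 : Real.sqrt N ≤ 1 / Real.sqrt y * (N + 1) := by
      rw [one_div, inv_mul_eq_div, le_div_iff₀ hsy]
      have h4 : Real.sqrt (N : ℝ) * Real.sqrt N = N := Real.mul_self_sqrt (by positivity)
      nlinarith
    have h5 := mul_le_mul_of_nonneg_left h3 (by positivity : (0 : ℝ) ≤ 4 * r)
    nlinarith
  have k3 : 0 ≤ M y / (y + 1) := div_nonneg (hM0 y) (by positivity)
  have k4 : Real.log (N + 1) - Real.log (y + 1) ≤ Real.log N := by
    have h3 : Real.log (N + 1) ≤ Real.log (N * (y + 1)) :=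
      Real.log_le_log (by positivity) (by nlinarith)
    rw [Real.log_mul (by positivity) (by positivity)] at h3
    linarith
  have k5 : 1 / Real.sqrt ((y : ℝ) + 1) - 1 / Real.sqrt ((N : ℝ) + 1) ≤ 1 / Real.sqrt y := by
    have h3 : 0 ≤ 1 / Real.sqrt ((N : ℝ) + 1) := by positivity
    have h4 : 1 / Real.sqrt ((y : ℝ) + 1) ≤ 1 / Real.sqrt y :=
      one_div_le_one_div_of_le hsy (Real.sqrt_le_sqrt (by linarith))
    linarith
  have k6 := mul_le_mul_of_nonneg_left k4 hL
  have k7 := mul_le_mul_of_nonneg_left k5 (by positivity : (0 : ℝ) ≤ 8 * r)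
  have k8 : 20 * (r : ℝ) / Real.sqrt y = 20 * r * (1 / Real.sqrt y) := by ring
  have k9 : 0 ≤ (r : ℝ) * (1 / Real.sqrt y) := by positivity
  rw [k8]
  nlinarith


end Pool.Agent.Lib.H68T
end

-- from Lib.H68T.LONG1
section

/-!
# Chunk LONG1; part of LONG: long smooth sums
-/

open Finset

namespace Pool.Agent.Lib.H68T

/-- `smoothTransition` has bounded first and second derivatives, supported in `[0,1]`. -/
theorem LONG_sT : ∃ B : ℝ, 1 ≤ B ∧ (∀ x, |deriv Real.smoothTransition x| ≤ B) ∧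
    (∀ x, |deriv (deriv Real.smoothTransition) x| ≤ B) ∧
    (∀ x, x ∉ Set.Icc (0:ℝ) 1 → deriv Real.smoothTransition x = 0) ∧
    (∀ x, x ∉ Set.Icc (0:ℝ) 1 → deriv (deriv Real.smoothTransition) x = 0) := by
  have hc : ContDiff ℝ ((2 : ℕ∞) : WithTop ℕ∞) Real.smoothTransition := Real.smoothTransition.contDiff
  have hc1 : ContDiff ℝ 1 (deriv Real.smoothTransition) := by
    have h2 : ContDiff ℝ (1 + 1) Real.smoothTransition := by exact_mod_cast hc
    exact (contDiff_succ_iff_deriv.mp h2).2.2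
  have hc2 : Continuous (deriv (deriv Real.smoothTransition)) := hc1.continuous_deriv le_rfl
  have z1 : ∀ x, x ∉ Set.Icc (0:ℝ) 1 → deriv Real.smoothTransition x = 0 := by
    intro x hx
    rw [Set.mem_Icc, not_and_or, not_le, not_le] at hx
    rcases hx with hx | hx
    · have : Real.smoothTransition =ᶠ[nhds x] fun _ => (0:ℝ) := by
        filter_upwards [Iio_mem_nhds hx] with y hy
        exact Real.smoothTransition.zero_of_nonpos (le_of_lt hy)
      rw [this.deriv_eq]; simp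
    · have : Real.smoothTransition =ᶠ[nhds x] fun _ => (1:ℝ) := by
        filter_upwards [Ioi_mem_nhds hx] with y hy
        exact Real.smoothTransition.one_of_one_le (le_of_lt hy)
      rw [this.deriv_eq]; simp
  have z2 : ∀ x, x ∉ Set.Icc (0:ℝ) 1 → deriv (deriv Real.smoothTransition) x = 0 := by
    intro x hx
    have hx' := hx
    rw [Set.mem_Icc, not_and_or, not_le, not_le] at hx
    have hopen : IsOpen (Set.Icc (0:ℝ) 1)ᶜ := isClosed_Icc.isOpen_compl
    have : deriv Real.smoothTransition =ᶠ[nhds x] fun _ => (0:ℝ) := by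
      filter_upwards [hopen.mem_nhds hx'] with y hy
      exact z1 y hy
    rw [this.deriv_eq]; simp
  obtain ⟨C1, hC1⟩ := (isCompact_Icc (a := (0:ℝ)) (b := 1)).exists_bound_of_continuousOn
    hc1.continuous.continuousOn
  obtain ⟨C2, hC2⟩ := (isCompact_Icc (a := (0:ℝ)) (b := 1)).exists_bound_of_continuousOn
    hc2.continuousOn
  refine ⟨max 1 (max C1 C2), le_max_left _ _, ?_, ?_, z1, z2⟩
  · intro x
    by_cases hx : x ∈ Set.Icc (0:ℝ) 1
    · exact (hC1 x hx).trans (le_max_of_le_right (le_max_left _ _))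
    · rw [z1 x hx, abs_zero]; positivity
  · intro x
    by_cases hx : x ∈ Set.Icc (0:ℝ) 1
    · exact (hC2 x hx).trans (le_max_of_le_right (le_max_right _ _))
    · rw [z2 x hx, abs_zero]; positivity

theorem LONG_sT_diff : ContDiff ℝ 2 Real.smoothTransition := by
  have hc : ContDiff ℝ ((2 : ℕ∞) : WithTop ℕ∞) Real.smoothTransition := Real.smoothTransition.contDiff
  exact_mod_cast hc


theorem LONG_w_nonneg (y : ℝ) : 0 ≤ w y :=
  mul_nonneg (Real.smoothTransition.nonneg _) (Real.smoothTransition.nonneg _)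

theorem LONG_w_le_one (y : ℝ) : w y ≤ 1 :=
  mul_le_one₀ (Real.smoothTransition.le_one _) (Real.smoothTransition.nonneg _)
    (Real.smoothTransition.le_one _)







theorem LONG_cpow_norm (t u : ℝ) (hu : 0 < u) : ‖(u : ℂ) ^ (-(1 + t * Complex.I))‖ = u⁻¹ := by
  rw [Complex.norm_cpow_eq_rpow_re_of_pos hu]
  simp [Real.rpow_neg_one]

theorem LONG_cpow_diff (t u u' : ℝ) (hu : 0 < u) (huu : u ≤ u') :
    ‖(u' : ℂ) ^ (-(1 + t * Complex.I)) - (u : ℂ) ^ (-(1 + t * Complex.I))‖ ≤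
      (1 + |t|) * (u' - u) / u ^ 2 := by
  have hder : ∀ x ∈ Set.Icc u u', HasDerivWithinAt (fun x : ℝ => (x : ℂ) ^ (-(1 + t * Complex.I)))
      ((-(1 + t * Complex.I)) * (x : ℂ) ^ (-(1 + t * Complex.I) - 1)) (Set.Icc u u') x := by
    intro x hx
    have hx0 : 0 < x := lt_of_lt_of_le hu hx.1
    have h1 : HasDerivAt (fun z : ℂ => z ^ (-(1 + t * Complex.I)))
        ((-(1 + t * Complex.I)) * (x : ℂ) ^ (-(1 + t * Complex.I) - 1)) (x : ℂ) := by
      have := (hasDerivAt_id (x : ℂ)).cpow_const (c := -(1 + t * Complex.I))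
        (Or.inl (by simpa using hx0))
      simpa using this
    exact h1.comp_ofReal.hasDerivWithinAt
  have hb : ∀ x ∈ Set.Ico u u', ‖(-(1 + t * Complex.I)) * (x : ℂ) ^ (-(1 + t * Complex.I) - 1)‖ ≤
      (1 + |t|) / u ^ 2 := by
    intro x hx
    have hx0 : 0 < x := lt_of_lt_of_le hu hx.1
    rw [norm_mul, norm_neg, Complex.norm_cpow_eq_rpow_re_of_pos hx0]
    have e1 : (-(1 + t * Complex.I) - 1 : ℂ).re = ((-2 : ℤ) : ℝ) := by simp; norm_num
    rw [e1, Real.rpow_intCast]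
    have e2 : ‖(1 + t * Complex.I : ℂ)‖ ≤ 1 + |t| := by
      refine (norm_add_le _ _).trans ?_
      simp
    have e3 : x ^ (-2 : ℤ) ≤ (u ^ 2)⁻¹ := by
      rw [zpow_neg]
      have : u ^ 2 ≤ x ^ (2:ℤ) := by
        have := hx.1
        exact_mod_cast pow_le_pow_left₀ hu.le this 2
      exact inv_anti₀ (by positivity) this
    calc _ ≤ (1 + |t|) * (u ^ 2)⁻¹ := by
          apply mul_le_mul e2 e3 (by positivity) (by positivity)
      _ = _ := by rw [div_eq_mul_inv]
  have := norm_image_sub_le_of_norm_deriv_le_segment' hder hb u' (Set.right_mem_Icc.mpr huu)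
  calc _ ≤ _ := this
    _ = _ := by ring







theorem LONG_sum_inv_sq (N0 N : ℕ) (h0 : 1 ≤ N0) :
    ∑ n ∈ Ico N0 N, 1 / (n : ℝ) ^ 2 ≤ 2 / (N0 : ℝ) := by
  rcases le_or_gt N N0 with h | h
  · rw [Ico_eq_empty (by omega), sum_empty]; positivity
  have key : ∀ k : ℕ, N0 ≤ k → ∑ n ∈ Ico N0 (k + 1), 1 / (n : ℝ) ^ 2 ≤ 2 / (N0 : ℝ) - 1 / (k : ℝ) := by
    intro k hk
    induction k, hk using Nat.le_induction with
    | base =>
      have : (1:ℝ) ≤ N0 := by exact_mod_cast h0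
      rw [Ico_add_one_right_eq_Icc, Icc_self, sum_singleton]
      have e : (2:ℝ) / N0 - 1 / N0 = 1 / N0 := by ring
      rw [e]
      exact one_div_le_one_div_of_le (by linarith) (by nlinarith)
    | succ k hk ih =>
      rw [sum_Ico_succ_top (by omega)]
      have hk0 : (0:ℝ) < k := by exact_mod_cast (by omega : 0 < k)
      have : 1 / ((k + 1 : ℕ) : ℝ) ^ 2 ≤ 1 / k - 1 / ((k + 1 : ℕ) : ℝ) := by
        push_cast
        rw [div_sub_div _ _ hk0.ne' (by positivity), div_le_div_iff₀ (by positivity) (by positivity)]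
        nlinarith
      linarith
  have := key (N - 1) (by omega)
  rw [Nat.sub_add_cancel (by omega)] at this
  have h3 : (0:ℝ) ≤ 1 / ((N - 1 : ℕ) : ℝ) := by positivity
  linarith


end Pool.Agent.Lib.H68T
end

-- from Lib.H68T.LONG2
section

/-!
# Chunk LONG2; part of LONG: long smooth sums
-/

open Finset

namespace Pool.Agent.Lib.H68T

theorem LONG2_smooth : Differentiable ℝ Real.smoothTransition ∧
    Differentiable ℝ (deriv Real.smoothTransition) ∧
    Continuous (deriv (deriv Real.smoothTransition)) := by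
  have h2 : ContDiff ℝ (1 + 1) Real.smoothTransition := by exact_mod_cast LONG_sT_diff
  have hc1 : ContDiff ℝ 1 (deriv Real.smoothTransition) := (contDiff_succ_iff_deriv.mp h2).2.2
  exact ⟨LONG_sT_diff.differentiable (by norm_num), hc1.differentiable (by norm_num),
    hc1.continuous_deriv le_rfl⟩

/-- derivative of `smoothTransition` -/
noncomputable def LONG2_s1 (x : ℝ) : ℝ := deriv Real.smoothTransition x

/-- second derivative of `smoothTransition` -/
noncomputable def LONG2_s2 (x : ℝ) : ℝ := deriv (deriv Real.smoothTransition) x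

theorem LONG2_h0 (x : ℝ) : HasDerivAt Real.smoothTransition (LONG2_s1 x) x :=
  (LONG2_smooth.1 x).hasDerivAt

theorem LONG2_h1 (x : ℝ) : HasDerivAt LONG2_s1 (LONG2_s2 x) x :=
  (LONG2_smooth.2.1 x).hasDerivAt

theorem LONG2_c0 : Continuous Real.smoothTransition := LONG2_smooth.1.continuous
theorem LONG2_c1 : Continuous LONG2_s1 := LONG2_smooth.2.1.continuous
theorem LONG2_c2 : Continuous LONG2_s2 := LONG2_smooth.2.2

theorem LONG2_comp {f f' : ℝ → ℝ} (hf : ∀ x, HasDerivAt f (f' x) x) {g : ℝ → ℝ} {g' y : ℝ}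
    (hg : HasDerivAt g g' y) : HasDerivAt (fun y => f (g y)) (f' (g y) * g') y :=
  (hf (g y)).comp y hg

/-- `V = w (· + c)` and its derivatives -/
noncomputable def LONG2_V1 (c y : ℝ) : ℝ :=
  LONG2_s1 (y + c + 2) * Real.smoothTransition (4 - (y + c)) -
    Real.smoothTransition (y + c + 2) * LONG2_s1 (4 - (y + c))

noncomputable def LONG2_V2 (c y : ℝ) : ℝ :=
  LONG2_s2 (y + c + 2) * Real.smoothTransition (4 - (y + c)) -
    2 * (LONG2_s1 (y + c + 2) * LONG2_s1 (4 - (y + c))) +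
    Real.smoothTransition (y + c + 2) * LONG2_s2 (4 - (y + c))

theorem LONG2_in1 (c y : ℝ) : HasDerivAt (fun y : ℝ => y + c + 2) 1 y := by
  simpa using ((hasDerivAt_id' y).add_const c).add_const 2

theorem LONG2_in2 (c y : ℝ) : HasDerivAt (fun y : ℝ => 4 - (y + c)) (-1) y := by
  simpa using ((hasDerivAt_id' y).add_const c).const_sub 4

theorem LONG2_hV (c y : ℝ) : HasDerivAt (fun y => w (y + c)) (LONG2_V1 c y) y := by
  unfold w LONG2_V1
  have h1 : HasDerivAt (fun y : ℝ => Real.smoothTransition (y + c + 2))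
      (LONG2_s1 (y + c + 2) * 1) y := LONG2_comp LONG2_h0 (LONG2_in1 c y)
  have h2 : HasDerivAt (fun y : ℝ => Real.smoothTransition (4 - (y + c)))
      (LONG2_s1 (4 - (y + c)) * (-1)) y := LONG2_comp LONG2_h0 (LONG2_in2 c y)
  refine HasDerivAt.congr_deriv (h1.mul h2) ?_
  ring

theorem LONG2_hV1 (c y : ℝ) : HasDerivAt (LONG2_V1 c) (LONG2_V2 c y) y := by
  unfold LONG2_V1 LONG2_V2
  have h1 : HasDerivAt (fun y : ℝ => Real.smoothTransition (y + c + 2))
      (LONG2_s1 (y + c + 2) * 1) y := LONG2_comp LONG2_h0 (LONG2_in1 c y)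
  have h2 : HasDerivAt (fun y : ℝ => Real.smoothTransition (4 - (y + c)))
      (LONG2_s1 (4 - (y + c)) * (-1)) y := LONG2_comp LONG2_h0 (LONG2_in2 c y)
  have h3 : HasDerivAt (fun y : ℝ => LONG2_s1 (y + c + 2))
      (LONG2_s2 (y + c + 2) * 1) y := LONG2_comp LONG2_h1 (LONG2_in1 c y)
  have h4 : HasDerivAt (fun y : ℝ => LONG2_s1 (4 - (y + c)))
      (LONG2_s2 (4 - (y + c)) * (-1)) y := LONG2_comp LONG2_h1 (LONG2_in2 c y)
  refine HasDerivAt.congr_deriv ((h3.mul h2).sub (h1.mul h4)) ?_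
  ring








theorem LONG2_cw : Continuous w := by
  unfold w
  exact (LONG2_c0.comp (by fun_prop)).mul (LONG2_c0.comp (by fun_prop))

















end Pool.Agent.Lib.H68T
end

-- from Lib.H68X.XFB
section

/-!
# Chunk XFB: the polynomial `Fb`
-/

open Finset

namespace Pool.Agent.Lib.H68T

/-- A smooth amplitude with compact support. -/
structure XFB_Amp (A M : ℝ) (O O1 O2 : ℝ → ℝ) : Prop where
  d0 : ∀ y, HasDerivAt O (O1 y) y
  d1 : ∀ y, HasDerivAt O1 (O2 y) y
  c2 : Continuous O2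
  b0 : ∀ y, |O y| ≤ M
  b1 : ∀ y, |O1 y| ≤ M
  b2 : ∀ y, |O2 y| ≤ M
  z0 : ∀ y, y ∉ Set.Icc A (A + 6) → O y = 0
  z1 : ∀ y, y ∉ Set.Icc A (A + 6) → O1 y = 0
  z2 : ∀ y, y ∉ Set.Icc A (A + 6) → O2 y = 0

theorem XFB_Amp.c0 {A M : ℝ} {O O1 O2 : ℝ → ℝ} (h : XFB_Amp A M O O1 O2) : Continuous O :=
  continuous_iff_continuousAt.mpr (fun y => (h.d0 y).continuousAt)

theorem XFB_Amp.c1 {A M : ℝ} {O O1 O2 : ℝ → ℝ} (h : XFB_Amp A M O O1 O2) : Continuous O1 :=
  continuous_iff_continuousAt.mpr (fun y => (h.d1 y).continuousAt)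



/-- The summand. -/
noncomputable def XFB_W (O : ℝ → ℝ) (t u : ℝ) : ℂ :=
  (O (Real.log u) : ℂ) * (u : ℂ) ^ (-(1 + t * Complex.I))

theorem XFB_lip {A M : ℝ} {O O1 O2 : ℝ → ℝ} (h : XFB_Amp A M O O1 O2) (x y : ℝ) :
    |O y - O x| ≤ M * |y - x| := by
  have := Convex.norm_image_sub_le_of_norm_hasDerivWithin_le (f := O) (f' := O1) (s := Set.univ)
    (C := M) (x := x) (y := y) (fun z _ => (h.d0 z).hasDerivWithinAt) (fun z _ => h.b1 z)
    convex_univ (Set.mem_univ _) (Set.mem_univ _)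
  simpa [Real.norm_eq_abs] using this

theorem XFB_diff {A M : ℝ} {O O1 O2 : ℝ → ℝ} (h : XFB_Amp A M O O1 O2) (hM : 0 ≤ M)
    (t u u' : ℝ) (hu : 1 ≤ u) (huu : u ≤ u') :
    ‖XFB_W O t u' - XFB_W O t u‖ ≤ M * (2 + |t|) * ((u' - u) / u ^ 2) := by
  have hu0 : 0 < u := by linarith
  have hu0' : 0 < u' := by linarith
  have hll : Real.log u ≤ Real.log u' := Real.log_le_log hu0 huu
  have hd : Real.log u' - Real.log u ≤ (u' - u) / u := by
    rw [← Real.log_div hu0'.ne' hu0.ne']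
    refine (Real.log_le_sub_one_of_pos (by positivity)).trans ?_
    rw [sub_div, div_self hu0.ne']
  have h1 := XFB_lip h (Real.log u) (Real.log u')
  rw [abs_of_nonneg (by linarith : 0 ≤ Real.log u' - Real.log u)] at h1
  have h2 := h.b0 (Real.log u)
  have h3 := LONG_cpow_norm t u' hu0'
  have h4 := LONG_cpow_diff t u u' hu0 huu
  unfold XFB_W
  have e : (O (Real.log u') : ℂ) * (u' : ℂ) ^ (-(1 + t * Complex.I)) -
      (O (Real.log u) : ℂ) * (u : ℂ) ^ (-(1 + t * Complex.I)) =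
      ((O (Real.log u') - O (Real.log u) : ℝ) : ℂ) *
        (u' : ℂ) ^ (-(1 + t * Complex.I)) +
      (O (Real.log u) : ℂ) * ((u' : ℂ) ^ (-(1 + t * Complex.I)) -
        (u : ℂ) ^ (-(1 + t * Complex.I))) := by push_cast; ring
  rw [e]
  refine (norm_add_le _ _).trans ?_
  rw [norm_mul, norm_mul, Complex.norm_real, Complex.norm_real, h3, Real.norm_eq_abs,
    Real.norm_eq_abs]
  have b1 : |O (Real.log u') - O (Real.log u)| * u'⁻¹ ≤ (M * ((u' - u) / u)) * u⁻¹ := by
    have : M * (Real.log u' - Real.log u) ≤ M * ((u' - u) / u) :=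
      mul_le_mul_of_nonneg_left hd hM
    apply mul_le_mul (h1.trans this) (inv_anti₀ hu0 huu) (by positivity)
    exact le_trans (abs_nonneg _) (h1.trans this)
  have b2 : |O (Real.log u)| * ‖(u' : ℂ) ^ (-(1 + t * Complex.I)) -
        (u : ℂ) ^ (-(1 + t * Complex.I))‖ ≤ M * ((1 + |t|) * (u' - u) / u ^ 2) := by
    apply mul_le_mul h2 h4 (norm_nonneg _) hM
  calc _ ≤ (M * ((u' - u) / u)) * u⁻¹ + M * ((1 + |t|) * (u' - u) / u ^ 2) := add_le_add b1 b2
    _ = _ := by field_simp; ring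

theorem XFB_W_cont (O : ℝ → ℝ) (hO : Continuous O) (t : ℝ) (u : ℝ) (hpos : 0 < u) :
    ContinuousAt (XFB_W O t) u := by
  unfold XFB_W
  apply ContinuousAt.mul
  · apply Complex.continuous_ofReal.continuousAt.comp
    exact ContinuousAt.comp (f := Real.log) (g := O) hO.continuousAt
      (Real.continuousAt_log hpos.ne')
  · have h1 : ContinuousAt (fun z : ℂ => z ^ (-(1 + t * Complex.I))) ((u : ℝ) : ℂ) :=
      continuousAt_cpow_const (Or.inl (by simpa using hpos))
    exact ContinuousAt.comp (f := fun x : ℝ => (x : ℂ)) h1 Complex.continuous_ofReal.continuousAt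

theorem XFB_W_ii (O : ℝ → ℝ) (hO : Continuous O) (t : ℝ) (a b : ℝ) (ha : 0 < a) (hab : a ≤ b) :
    IntervalIntegrable (XFB_W O t) MeasureTheory.volume a b :=
  ContinuousOn.intervalIntegrable_of_Icc hab
    (fun u hu => (XFB_W_cont O hO t u (lt_of_lt_of_le ha hu.1)).continuousWithinAt)

/-- Substitution `u = e^y`. -/
theorem XFB_subst (O : ℝ → ℝ) (hO : Continuous O) (t : ℝ) (N : ℝ) (hN : 1 ≤ N) :
    ∫ u in (1:ℝ)..N, XFB_W O t u =
      ∫ y in (0:ℝ)..Real.log N, (O y : ℂ) * Complex.exp (-(t * Complex.I) * y) := by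
  have hN0 : 0 < N := by linarith
  have h := intervalIntegral.integral_deriv_smul_comp' (f := Real.exp) (f' := Real.exp)
    (g := XFB_W O t) (a := 0) (b := Real.log N) (fun x _ => Real.hasDerivAt_exp x)
    Real.continuous_exp.continuousOn ?_
  · rw [Real.exp_zero, Real.exp_log hN0] at h
    rw [← h]
    apply intervalIntegral.integral_congr
    intro y _
    simp only [Function.comp_apply, XFB_W, Real.log_exp, Complex.real_smul]
    rw [Complex.cpow_def_of_ne_zero (by exact_mod_cast (Real.exp_pos y).ne'),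
      ← Complex.ofReal_log (Real.exp_pos y).le, Real.log_exp, Complex.ofReal_exp,
      mul_left_comm, ← Complex.exp_add]
    congr 2
    ring
  · intro u hu
    obtain ⟨y, -, rfl⟩ := hu
    exact (XFB_W_cont O hO t _ (Real.exp_pos y)).continuousWithinAt


/-- The amplitude of `Fb`. -/
noncomputable def XFB_O (c β y : ℝ) : ℝ := w (y + c) * Real.exp ((β - 1) * y)

noncomputable def XFB_O1 (c β y : ℝ) : ℝ :=
  (LONG2_V1 c y + (β - 1) * w (y + c)) * Real.exp ((β - 1) * y)

noncomputable def XFB_O2 (c β y : ℝ) : ℝ :=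
  (LONG2_V2 c y + 2 * ((β - 1) * LONG2_V1 c y) + (β - 1) ^ 2 * w (y + c)) *
    Real.exp ((β - 1) * y)

theorem XFB_amp : ∃ M : ℝ, 0 ≤ M ∧ ∀ c β : ℝ, c ≤ -2 → 1 / 2 ≤ β → β ≤ 1 →
    XFB_Amp (-c - 2) M (XFB_O c β) (XFB_O1 c β) (XFB_O2 c β) := by
  obtain ⟨B, hB1, hs1, hs2, hz1, hz2⟩ := LONG_sT
  have hs1' : ∀ x, |LONG2_s1 x| ≤ B := hs1
  have hs2' : ∀ x, |LONG2_s2 x| ≤ B := hs2
  have hB0 : 0 ≤ B := by linarith
  refine ⟨9 * B ^ 2, by positivity, fun c β hc hβ hβ1 => ?_⟩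
  have t1 : ∀ x, |Real.smoothTransition x| ≤ 1 := fun x => by
    rw [abs_of_nonneg (Real.smoothTransition.nonneg _)]; exact Real.smoothTransition.le_one _
  have tw : ∀ x, |w x| ≤ 1 := fun x => by
    rw [abs_of_nonneg (LONG_w_nonneg _)]; exact LONG_w_le_one _
  have V1 : ∀ y, |LONG2_V1 c y| ≤ 2 * B := by
    intro y
    unfold LONG2_V1
    refine (abs_sub _ _).trans ?_
    rw [abs_mul, abs_mul]
    calc _ ≤ B * 1 + 1 * B := by
          gcongr
          · exact hs1' _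
          · exact t1 _
          · exact t1 _
          · exact hs1' _
      _ = _ := by ring
  have V2 : ∀ y, |LONG2_V2 c y| ≤ 2 * B + 2 * B ^ 2 := by
    intro y
    unfold LONG2_V2
    refine (abs_add_le _ _).trans ?_
    have h1 := abs_sub (LONG2_s2 (y + c + 2) * Real.smoothTransition (4 - (y + c)))
      (2 * (LONG2_s1 (y + c + 2) * LONG2_s1 (4 - (y + c))))
    rw [abs_mul, abs_mul, abs_mul, abs_two] at h1
    rw [abs_mul (Real.smoothTransition (y + c + 2))]
    have h2 : |LONG2_s2 (y + c + 2)| * |Real.smoothTransition (4 - (y + c))| ≤ B * 1 := by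
      gcongr
      · exact hs2' _
      · exact t1 _
    have h3 : |LONG2_s1 (y + c + 2)| * |LONG2_s1 (4 - (y + c))| ≤ B * B := by
      gcongr
      · exact hs1' _
      · exact hs1' _
    have h4 : |Real.smoothTransition (y + c + 2)| * |LONG2_s2 (4 - (y + c))| ≤ 1 * B := by
      gcongr
      · exact t1 _
      · exact hs2' _
    nlinarith
  have hout : ∀ y, y ∉ Set.Icc (-c - 2) (-c - 2 + 6) →
      w (y + c) = 0 ∧ LONG2_V1 c y = 0 ∧ LONG2_V2 c y = 0 := by
    intro y hy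
    rw [Set.mem_Icc, not_and_or, not_le, not_le] at hy
    rcases hy with hy | hy
    · have e0 : Real.smoothTransition (y + c + 2) = 0 :=
        Real.smoothTransition.zero_of_nonpos (by linarith)
      have e1 : LONG2_s1 (y + c + 2) = 0 := hz1 _ (by rw [Set.mem_Icc]; intro h; linarith [h.1])
      have e2 : LONG2_s2 (y + c + 2) = 0 := hz2 _ (by rw [Set.mem_Icc]; intro h; linarith [h.1])
      unfold w LONG2_V1 LONG2_V2
      rw [e0, e1, e2]
      simp
    · have e0 : Real.smoothTransition (4 - (y + c)) = 0 :=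
        Real.smoothTransition.zero_of_nonpos (by linarith)
      have e1 : LONG2_s1 (4 - (y + c)) = 0 := hz1 _ (by rw [Set.mem_Icc]; intro h; linarith [h.1])
      have e2 : LONG2_s2 (4 - (y + c)) = 0 := hz2 _ (by rw [Set.mem_Icc]; intro h; linarith [h.1])
      unfold w LONG2_V1 LONG2_V2
      rw [e0, e1, e2]
      simp
  have hbeta : |β - 1| ≤ 1 := by rw [abs_le]; constructor <;> linarith
  have hexp : ∀ y, y ∈ Set.Icc (-c - 2) (-c - 2 + 6) → |Real.exp ((β - 1) * y)| ≤ 1 := by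
    intro y hy
    rw [abs_of_pos (Real.exp_pos _), Real.exp_le_one_iff]
    have : 0 ≤ y := by linarith [hy.1]
    nlinarith
  have hE : ∀ y : ℝ, HasDerivAt (fun y : ℝ => Real.exp ((β - 1) * y))
      (Real.exp ((β - 1) * y) * (β - 1)) y := by
    intro y
    have := ((hasDerivAt_id' y).const_mul (β - 1)).exp
    simpa using this
  have gen : ∀ (f : ℝ → ℝ) (D : ℝ), 0 ≤ D → (∀ y, |f y| ≤ D) →
      (∀ y, y ∉ Set.Icc (-c - 2) (-c - 2 + 6) → f y = 0) → ∀ y,
      |f y * Real.exp ((β - 1) * y)| ≤ D := by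
    intro f D hD hf hz y
    by_cases h : y ∈ Set.Icc (-c - 2) (-c - 2 + 6)
    · rw [abs_mul]
      calc _ ≤ D * 1 := mul_le_mul (hf y) (hexp y h) (abs_nonneg _) hD
        _ = D := mul_one D
    · rw [hz y h]; simpa using hD
  refine ⟨?_, ?_, ?_, ?_, ?_, ?_, ?_, ?_, ?_⟩
  · intro y
    unfold XFB_O XFB_O1
    refine HasDerivAt.congr_deriv ((LONG2_hV c y).mul (hE y)) ?_
    ring
  · intro y
    unfold XFB_O1 XFB_O2
    refine HasDerivAt.congr_deriv
      (((LONG2_hV1 c y).add ((LONG2_hV c y).const_mul (β - 1))).mul (hE y)) ?_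
    simp only [Pi.add_apply]
    ring
  · unfold XFB_O2 LONG2_V1 LONG2_V2
    have := LONG2_cw
    have := LONG2_c0
    have := LONG2_c1
    have := LONG2_c2
    fun_prop
  · intro y
    unfold XFB_O
    refine (gen (fun y => w (y + c)) 1 zero_le_one (fun y => tw _) (fun y hy => (hout y hy).1)
      y).trans ?_
    nlinarith
  · intro y
    unfold XFB_O1
    refine (gen (fun y => LONG2_V1 c y + (β - 1) * w (y + c)) (2 * B + 1) (by linarith)
      (fun y => ?_) (fun y hy => ?_) y).trans ?_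
    · refine (abs_add_le _ _).trans (add_le_add (V1 y) ?_)
      rw [abs_mul]
      calc _ ≤ (1:ℝ) * 1 := mul_le_mul hbeta (tw _) (abs_nonneg _) zero_le_one
        _ = 1 := one_mul 1
    · rw [(hout y hy).1, (hout y hy).2.1]; simp
    · nlinarith
  · intro y
    unfold XFB_O2
    refine (gen (fun y => LONG2_V2 c y + 2 * ((β - 1) * LONG2_V1 c y) + (β - 1) ^ 2 * w (y + c))
      ((2 * B + 2 * B ^ 2) + 2 * (2 * B) + 1) (by positivity)
      (fun y => ?_) (fun y hy => ?_) y).trans ?_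
    · refine (abs_add_three _ _ _).trans ?_
      have h1 : |2 * ((β - 1) * LONG2_V1 c y)| ≤ 2 * (2 * B) := by
        rw [abs_mul, abs_mul, abs_two]
        have := mul_le_mul hbeta (V1 y) (abs_nonneg _) zero_le_one
        linarith
      have h2 : |(β - 1) ^ 2 * w (y + c)| ≤ 1 := by
        rw [abs_mul, abs_pow]
        calc _ ≤ (1:ℝ) ^ 2 * 1 := by
              apply mul_le_mul _ (tw _) (abs_nonneg _) (by norm_num)
              exact pow_le_pow_left₀ (abs_nonneg _) hbeta 2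
          _ = 1 := by norm_num
      exact add_le_add (add_le_add (V2 y) h1) h2
    · rw [(hout y hy).1, (hout y hy).2.1, (hout y hy).2.2]; simp
    · nlinarith
  · intro y hy
    unfold XFB_O
    rw [(hout y hy).1]; simp
  · intro y hy
    unfold XFB_O1
    rw [(hout y hy).1, (hout y hy).2.1]; simp
  · intro y hy
    unfold XFB_O2
    rw [(hout y hy).1, (hout y hy).2.1, (hout y hy).2.2]; simp

theorem XFB_eq (X : ℕ) (β t : ℝ) (hX : 1 ≤ X) :
    Fb X β t = ∑ n ∈ Icc 1 (60 * X), XFB_W (XFB_O (-Real.log X) β) t n := by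
  unfold Fb FF
  apply sum_congr rfl
  intro m hm
  rw [mem_Icc] at hm
  have hm0 : (0:ℝ) < m := by exact_mod_cast hm.1
  have hX0 : (0:ℝ) < X := by exact_mod_cast hX
  unfold XFB_W XFB_O v
  show (((m : ℝ) ^ (β - 1) : ℝ) : ℂ) * _ * _ = _
  rw [Real.log_div hm0.ne' hX0.ne', ← sub_eq_add_neg, Real.rpow_def_of_pos hm0,
    mul_comm (Real.log (m:ℝ)) (β - 1)]
  push_cast
  ring



end Pool.Agent.Lib.H68T
end
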