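import Pool.Agent.Lib.H59M.M2.M017
import Pool.Agent.Lib.H59M.M2.M018
import Pool.Agent.Lib.H59M.M2.M020
import Pool.Agent.Lib.H59M.M2.M024

/-! Merged copies (to shorten the build) of Lib.H81A.SM, Lib.H81A.Final, Lib.H37T.A4. -/

-- from Lib.H81A.SM
section

/-!
# H81A, chunk SM (M): one term of Heath-Brown's identity
-/

namespace Pool.Agent.Lib.H81A

open Finset ArithmeticFunction

/-- The factors of the `j`-th term. -/
noncomputable def sm_G (z j : ℕ) : Fin (j + 1) ⊕ (Fin j ⊕ Unit) → ArithmeticFunction ℝ :=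
  Sum.elim (fun _ => muV z) (Sum.elim (fun _ => one1) (fun _ => logf))

theorem sm_prod (z j : ℕ) : ∏ i, sm_G z j i = muV z ^ (j + 1) * one1 ^ j * logf := by
  rw [Fintype.prod_sum_type, Fintype.prod_sum_type]
  simp only [sm_G, Sum.elim_inl, Sum.elim_inr, Finset.prod_const, Finset.card_univ, Fintype.card_fin, Fintype.card_unit, pow_one]
  rw [mul_assoc]

theorem sm_bound {z j N : ℕ} {V : ℝ} (hN : 1 ≤ N) (hV : 1 ≤ V) (hVlog : Real.log N ≤ V) (i : Fin (j + 1) ⊕ (Fin j ⊕ Unit)) (n : ℕ)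
    (h1 : 1 ≤ n) (h2 : n ≤ N) : |sm_G z j i n| ≤ V := by
  have hn : n ≠ 0 := by omega
  rcases i with i | i | i
  · show |muV z n| ≤ V
    unfold muV
    rw [af_apply _ hn]
    split_ifs
    · have h3 : |((moebius n : ℤ) : ℝ)| ≤ 1 := by
        rw [← Int.cast_abs]
        exact_mod_cast abs_moebius_le_one
      exact h3.trans hV
    · rw [abs_zero]
      exact zero_le_one.trans hV
  · show |one1 n| ≤ V
    unfold one1
    rw [af_apply _ hn, abs_one]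
    exact hV
  · show |logf n| ≤ V
    unfold logf
    rw [af_apply _ hn, abs_of_nonneg (Real.log_natCast_nonneg n)]
    exact (Real.log_le_log (by exact_mod_cast h1) (by exact_mod_cast h2)).trans hVlog

theorem sm_sum {α : Type} (p : Seminorm ℝ (ℕ → ℝ)) (s : Finset α) (f : α → ℕ → ℝ) {Y : ℝ} (h : ∀ a ∈ s, p (f a) ≤ Y) :
    p (∑ a ∈ s, f a) ≤ s.card * Y := by
  classical
  induction s using Finset.induction_on with
  | empty =>
    rw [Finset.sum_empty, _root_.map_zero, Finset.card_empty, Nat.cast_zero, zero_mul]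
  | insert a s ha ih =>
    rw [Finset.sum_insert ha, Finset.card_insert_of_notMem ha]
    refine (map_add_le_add p _ _).trans ?_
    have h1 := h a (Finset.mem_insert_self a s)
    have h2 := ih fun b hb => h b (Finset.mem_insert_of_mem hb)
    push_cast
    linarith

/-- PROOF. `ι = Fin (j + 1) ⊕ (Fin j ⊕ Unit)`, `G = Sum.elim (fun _ => muV z) (Sum.elim (fun _ => one1) (fun _ => logf))`: the product is `∏ i, G i` (`Fintype.prod_sum_type`, `Finset.prod_const`). `dyadic` for `m ≤ N < 2 ^ L` (`Loc.congr`), subadditivity: the sum over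
`k ∈ Fintype.piFinset (range L)`, at most `L ^ (2 j + 2) ≤ V ^ (2 J)` terms. If some `i = inl _` has `z < 2 ^ k i` then `dy (k i) (muV z) = 0` and the product is `0`; otherwise `2 ^ k i ≤ z < 2 ^ u`, `k i < u`: `box` with `r = 2 J`. `|muV| ≤ 1 ≤ V` (`abs_moebius_le_one`), `|one1| ≤ 1`, `|logf n| ≤ log N ≤ V`. -/
theorem term {c η : ℝ} {N L u v J z : ℕ} {V : ℝ} (par : Par c η N L u v (2 * J) V) (hz : z < 2 ^ u) (p : Seminorm ℝ (ℕ → ℝ)) (hp : Loc N p)
    {X : ℝ} (h2 : H2 c η N p X) (h1 : H1 c N p X) (h3 : H3 c η N p X) {j : ℕ} (hj : j < J) :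
    p (fun m => (muV z ^ (j + 1) * one1 ^ j * logf) m) ≤ V ^ (6 * J + 2) * X := by
  classical
  have hX := t1_X h1
  have hV0 : 0 ≤ V := zero_le_one.trans par.hV
  have hcard : Fintype.card (Fin (j + 1) ⊕ (Fin j ⊕ Unit)) = 2 * j + 2 := by
    rw [Fintype.card_sum, Fintype.card_sum, Fintype.card_fin, Fintype.card_fin, Fintype.card_unit]
    omega
  have h4 : p (fun m => (muV z ^ (j + 1) * one1 ^ j * logf) m) =
      p (∑ k ∈ Fintype.piFinset (fun _ : Fin (j + 1) ⊕ (Fin j ⊕ Unit) => range L), fun m => (∏ i, dy (k i) (sm_G z j i)) m) := by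
    refine hp.congr fun m _ hm => ?_
    rw [← sm_prod, dyadic _ L m (lt_of_le_of_lt hm par.hL), Finset.sum_apply]
  have hY : 0 ≤ V ^ (2 * (2 * J) + 2) * X := mul_nonneg (pow_nonneg hV0 _) hX
  rw [h4]
  have h5 : ∀ k ∈ Fintype.piFinset (fun _ : Fin (j + 1) ⊕ (Fin j ⊕ Unit) => range L),
      p (fun m => (∏ i, dy (k i) (sm_G z j i)) m) ≤ V ^ (2 * (2 * J) + 2) * X := by
    intro k _
    by_cases hk : ∃ i : Fin (j + 1), z < 2 ^ k (Sum.inl i)
    · obtain ⟨i, hi⟩ := hk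
      have h6 : dy (k (Sum.inl i)) (sm_G z j (Sum.inl i)) = 0 := by
        ext n
        rw [dy_apply, ArithmeticFunction.zero_apply]
        split_ifs with h
        · show muV z n = 0
          have hn : n ≠ 0 := by
            have := h.1
            have h7 : 0 < 2 ^ k (Sum.inl i) := pow_pos (by norm_num) _
            omega
          unfold muV
          rw [af_apply _ hn, if_neg (by omega)]
        · rfl
      have h7 : (fun m => (∏ i, dy (k i) (sm_G z j i)) m) = 0 := by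
        funext m
        rw [Finset.prod_eq_zero (Finset.mem_univ (Sum.inl i)) h6]
        rfl
      rw [h7, _root_.map_zero]
      exact hY
    · push Not at hk
      refine box par (by rw [hcard]; omega) p hp h2 h1 h3 k (sm_G z j) (sm_bound par.hN par.hV par.hVlog) fun i => ?_
      rcases i with i | i | i
      · refine Or.inr (Or.inr ?_)
        have h6 : 2 ^ k (Sum.inl i) < 2 ^ u := lt_of_le_of_lt (hk i) hz
        exact (Nat.pow_lt_pow_iff_right (by norm_num)).1 h6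
      · exact Or.inl rfl
      · exact Or.inr (Or.inl rfl)
  refine (sm_sum p _ _ h5).trans ?_
  rw [Fintype.card_piFinset, Finset.prod_const, Finset.card_univ, hcard, Finset.card_range]
  have hL1 : (L : ℝ) ≤ V := by
    have := par.hVL
    linarith
  have h6 : ((L ^ (2 * j + 2) : ℕ) : ℝ) ≤ V ^ (2 * J) := by
    push_cast
    exact (pow_le_pow_left₀ (Nat.cast_nonneg L) hL1 _).trans (pow_le_pow_right₀ par.hV (by omega))
  calc ((L ^ (2 * j + 2) : ℕ) : ℝ) * (V ^ (2 * (2 * J) + 2) * X) ≤ V ^ (2 * J) * (V ^ (2 * (2 * J) + 2) * X) := mul_le_mul_of_nonneg_right h6 hY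
    _ = V ^ (6 * J + 2) * X := by ring

end Pool.Agent.Lib.H81A
end

-- from Lib.H81A.Final
section

/-!
# H81A, the final theorem
-/

namespace Pool.Agent.Lib.H81A

open Finset ArithmeticFunction

/-- **Module A**: Heath-Brown's identity in seminorm form. -/
theorem hb_seminorm (c η ε : ℝ) (hc : 0 < c) (hη : 0 < η) (hcη : 4 * c + 4 * η ≤ 1 / 3) (hε : 0 < ε) : ∃ N₀ : ℕ, ∀ N : ℕ, N₀ ≤ N →
    ∀ p : Seminorm ℝ (ℕ → ℝ), Loc N p → ∀ X : ℝ, H2 c η N p X → H1 c N p X → H3 c η N p X → p (fun m => vonMangoldt m) ≤ (N : ℝ) ^ ε * X := by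
  obtain ⟨J, N₀, h⟩ := params c η ε hc hη hcη hε
  refine ⟨N₀, fun N hN p hp X h2 h1 h3 => ?_⟩
  obtain ⟨L, u, v, z, V, par, hz1, hz2, hV⟩ := h N hN
  have hX : 0 ≤ X := by
    refine le_trans ?_ (h1 1 1 le_rfl (by norm_num) (fun _ => 0) (fun _ => by rw [abs_zero]; exact zero_le_one) (fun q hq => absurd rfl hq))
    exact apply_nonneg p _
  have h4 : p (fun m => vonMangoldt m) = p (∑ j ∈ range J, ((-1 : ℝ) ^ j * (J.choose (j + 1) : ℝ)) • (fun m => (muV z ^ (j + 1) * one1 ^ j * logf) m)) := by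
    refine hp.congr fun m _ hm => ?_
    rw [hb_identity z J m (lt_of_le_of_lt hm hz1), Finset.sum_apply]
    exact Finset.sum_congr rfl fun j _ => rfl
  rw [h4]
  have h5 : ∀ s : Finset ℕ, s ⊆ range J → p (∑ j ∈ s, ((-1 : ℝ) ^ j * (J.choose (j + 1) : ℝ)) • (fun m => (muV z ^ (j + 1) * one1 ^ j * logf) m)) ≤
      ∑ j ∈ s, (J.choose (j + 1) : ℝ) * (V ^ (6 * J + 2) * X) := by
    intro s
    induction s using Finset.induction_on with
    | empty =>
      intro _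
      rw [Finset.sum_empty, Finset.sum_empty, _root_.map_zero]
    | insert j s hj ih =>
      intro hs
      rw [Finset.sum_insert hj, Finset.sum_insert hj]
      refine (map_add_le_add p _ _).trans (add_le_add ?_ (ih fun i hi => hs (Finset.mem_insert_of_mem hi)))
      rw [map_smul_eq_mul, norm_mul, norm_pow, norm_neg, norm_one, one_pow, one_mul, Real.norm_natCast]
      exact mul_le_mul_of_nonneg_left (term par hz2 p hp h2 h1 h3 (Finset.mem_range.1 (hs (Finset.mem_insert_self j s)))) (Nat.cast_nonneg _)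
  refine (h5 (range J) (Finset.Subset.refl _)).trans ?_
  rw [← Finset.sum_mul]
  have h6 : (∑ j ∈ range J, (J.choose (j + 1) : ℝ)) ≤ 2 ^ J := by
    have h7 : (∑ j ∈ range J, J.choose (j + 1)) ≤ 2 ^ J := by
      rw [← Nat.sum_range_choose J, Finset.sum_range_succ' (fun i => J.choose i) J]
      exact Nat.le_add_right _ _
    exact_mod_cast h7
  have hV0 : 0 ≤ V ^ (6 * J + 2) := pow_nonneg (zero_le_one.trans par.hV) _
  calc (∑ j ∈ range J, (J.choose (j + 1) : ℝ)) * (V ^ (6 * J + 2) * X) ≤ 2 ^ J * (V ^ (6 * J + 2) * X) :=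
        mul_le_mul_of_nonneg_right h6 (mul_nonneg hV0 hX)
    _ = (2 ^ J * V ^ (6 * J + 2)) * X := by ring
    _ ≤ (N : ℝ) ^ ε * X := mul_le_mul_of_nonneg_right hV hX

end Pool.Agent.Lib.H81A
end

-- from Lib.H37T.A4
section
/-!
H37T: A + B + C + D give the inverse theorem for the von Mangoldt function.
-/
namespace Pool.Agent.H37T
open Finset Pool.Agent.H44W

theorem H1_mono {c : ℝ} {N : ℕ} {p : Seminorm ℝ (ℕ → ℝ)} {X Y : ℝ} (h : Pool.Agent.Lib.H81A.H1 c N p X) (hXY : X ≤ Y) :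
    Pool.Agent.Lib.H81A.H1 c N p Y := fun B1 B2 h1 h2 γ h3 h4 => (h B1 B2 h1 h2 γ h3 h4).trans hXY


theorem H3_mono {c η : ℝ} {N : ℕ} {p : Seminorm ℝ (ℕ → ℝ)} {X Y : ℝ} (h : Pool.Agent.Lib.H81A.H3 c η N p X) (hXY : X ≤ Y) :
    Pool.Agent.Lib.H81A.H3 c η N p Y := fun A1 A2 B1 B2 h1 h2 h3 h4 h5 h6 γ h7 h8 => (h A1 A2 B1 B2 h1 h2 h3 h4 h5 h6 γ h7 h8).trans hXY

/-- The divisor bound. -/
theorem div_bound (b : ℝ) (hb : 0 < b) : ∃ n0 : ℕ, ∀ n : ℕ, n0 ≤ n → ∀ m : ℕ, 1 ≤ m → m ≤ 2 * n → (m.divisors.card : ℝ) ≤ (n:ℝ) ^ b := by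
  obtain ⟨C, hC, hdiv⟩ := Pool.Agent.Lib.H21AP.divisor_bound (ε := b / 2) (by positivity)
  have t : ∀ᶠ n : ℕ in Filter.atTop, C * 2 ^ (b / 2) ≤ (n : ℝ) ^ (b / 2) :=
    ((tendsto_rpow_atTop (by positivity : 0 < b / 2)).comp tendsto_natCast_atTop_atTop).eventually_ge_atTop _
  obtain ⟨n0, hn0⟩ := Filter.eventually_atTop.1 t
  refine ⟨max n0 1, fun n hn m hm1 hm2 => (hdiv m hm1).trans ?_⟩
  have h1 := hn0 n (by omega)
  have hn1 : (0:ℝ) < n := by
    have : 0 < n := by omega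
    exact_mod_cast this
  have h2 : (m:ℝ) ^ (b / 2) ≤ 2 ^ (b / 2) * (n:ℝ) ^ (b / 2) := by
    rw [← Real.mul_rpow (by norm_num) hn1.le]
    refine Real.rpow_le_rpow (Nat.cast_nonneg m) ?_ (by positivity)
    exact_mod_cast hm2
  calc C * (m:ℝ) ^ (b / 2) ≤ C * (2 ^ (b / 2) * (n:ℝ) ^ (b / 2)) := mul_le_mul_of_nonneg_left h2 hC.le
    _ = (C * 2 ^ (b / 2)) * (n:ℝ) ^ (b / 2) := by ring
    _ ≤ (n:ℝ) ^ (b / 2) * (n:ℝ) ^ (b / 2) := mul_le_mul_of_nonneg_right h1 (Real.rpow_nonneg hn1.le _)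
    _ = (n:ℝ) ^ b := by
      rw [← Real.rpow_add hn1]
      congr 1
      ring

/-- The inverse theorem for the von Mangoldt function (the same proposition as in `H9S`). -/
def INV : Prop :=
  ∀ c1 : ℝ, 0 < c1 → ∃ c2 : ℝ, 0 < c2 ∧ ∃ n0 : ℕ, ∀ n : ℕ, n0 ≤ n → ∀ W f g : ℤ → ℂ,
    (∀ x, ‖W x‖ ≤ 1) → (∀ x, ‖f x‖ ≤ 1) → (∀ x, ‖g x‖ ≤ 1) →
    (∀ th : ℝ, ‖∑ z ∈ Icc (1:ℤ) n, g z * ee (th * z)‖ ≤ (n:ℝ) ^ (1 - c1)) →
    ‖TF n (fun m => ((ArithmeticFunction.vonMangoldt m.toNat : ℝ) : ℂ)) W f g‖ ≤ (n:ℝ) ^ (2 - c2)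

theorem inv_of (hB : ∃ C : ℕ, ClassTwo C)
    (hD : ∃ et0 : ℝ, 0 < et0 ∧ ∃ C n0 : ℕ, DOut et0 C n0) : INV := by
  intro c0 hc0
  obtain ⟨et0, het0, CD, nD, hDO⟩ := hD
  set c1 : ℝ := min c0 1 with hc1d
  have hc1 : 0 < c1 := lt_min hc0 one_pos
  have hc1' : c1 ≤ 1 := min_le_right _ _
  have hc1'' : c1 ≤ c0 := min_le_left _ _
  set η : ℝ := min et0 (1 / 24) with hηd
  have hη : 0 < η := lt_min het0 (by norm_num)
  have hη1 : η ≤ et0 := min_le_left _ _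
  have hη2 : η ≤ 1 / 24 := min_le_right _ _
  obtain ⟨CB, hCB⟩ := hB
  obtain ⟨nB, hnB⟩ := h2_of η hη CB hCB
  set d : ℝ := c1 / (2 * ((CD : ℝ) + 1)) with hdd
  have hCD0 : (0:ℝ) ≤ CD := Nat.cast_nonneg _
  have hCB0 : (0:ℝ) ≤ CB := Nat.cast_nonneg _
  have hd : 0 < d := by positivity
  have hd1 : d * (2 * ((CD : ℝ) + 1)) = c1 := div_mul_cancel₀ _ (by positivity)
  have hdC : d * CD < c1 := by nlinarith
  have hd2 : d ≤ c1 / 2 := by nlinarith
  set c : ℝ := min (d / 12) η with hcd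
  have hc : 0 < c := lt_min (by positivity) hη
  have hc12 : c ≤ d / 12 := min_le_left _ _
  have hcη : c ≤ η := min_le_right _ _
  have hc24 : c ≤ 1 / 24 := by linarith
  set b : ℝ := c / (2 * ((CB : ℝ) + 1)) with hbd
  have hb : 0 < b := by positivity
  have hb1 : b * (2 * ((CB : ℝ) + 1)) = c := div_mul_cancel₀ _ (by positivity)
  have hbC : b * CB < c := by nlinarith
  have hb2 : b ≤ c / 2 := by nlinarith
  obtain ⟨nA, hnA⟩ := Pool.Agent.Lib.H81A.hb_seminorm c η (b / 4) hc hη (by linarith) (by positivity)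
  -- large n
  have t1 : ∀ᶠ n : ℕ in Filter.atTop, (2 : ℝ) ≤ (n : ℝ) ^ b :=
    ((tendsto_rpow_atTop hb).comp tendsto_natCast_atTop_atTop).eventually_ge_atTop 2
  have t2 : ∀ᶠ n : ℕ in Filter.atTop, (4 : ℝ) ≤ (n : ℝ) ^ (b / 4) :=
    ((tendsto_rpow_atTop (by positivity : 0 < b / 4)).comp tendsto_natCast_atTop_atTop).eventually_ge_atTop 4
  have t3 : ∀ᶠ n : ℕ in Filter.atTop, (1 + Real.log n) ^ 10 ≤ (n : ℝ) ^ d := by
    have h1 : ∀ᶠ x : ℝ in Filter.atTop, 1 + Real.log x ≤ x ^ (d / 10) := by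
      have h2 := (isLittleO_log_rpow_atTop (by positivity : 0 < d / 10)).def (by norm_num : (0:ℝ) < 1 / 2)
      have h3 : ∀ᶠ x : ℝ in Filter.atTop, (2 : ℝ) ≤ x ^ (d / 10) := (tendsto_rpow_atTop (by positivity : 0 < d / 10)).eventually_ge_atTop 2
      filter_upwards [h2, h3, Filter.eventually_ge_atTop (1:ℝ)] with x h4 h5 h6
      rw [Real.norm_of_nonneg (Real.log_nonneg h6), Real.norm_of_nonneg (Real.rpow_nonneg (by linarith) _)] at h4
      linarith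
    filter_upwards [tendsto_natCast_atTop_atTop.eventually h1, Filter.eventually_ge_atTop 1] with n h4 h5
    have h6 : (0:ℝ) ≤ n := Nat.cast_nonneg n
    have h7 : (n : ℝ) ^ d = ((n : ℝ) ^ (d / 10)) ^ 10 := by
      rw [← Real.rpow_natCast, ← Real.rpow_mul h6]
      congr 1
      push_cast
      ring
    rw [h7]
    have h8 : 0 ≤ Real.log n := Real.log_natCast_nonneg n
    exact pow_le_pow_left₀ (by linarith) h4 10
  have t4 : ∀ᶠ n : ℕ in Filter.atTop, 5 * (1 + Real.log n) ≤ (n : ℝ) ^ (c1 / 3) := by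
    have h1 : ∀ᶠ x : ℝ in Filter.atTop, 5 * (1 + Real.log x) ≤ x ^ (c1 / 3) := by
      have h2 := (isLittleO_log_rpow_atTop (by positivity : 0 < c1 / 3)).def (by norm_num : (0:ℝ) < 1 / 10)
      have h3 : ∀ᶠ x : ℝ in Filter.atTop, (10 : ℝ) ≤ x ^ (c1 / 3) := (tendsto_rpow_atTop (by positivity : 0 < c1 / 3)).eventually_ge_atTop 10
      filter_upwards [h2, h3, Filter.eventually_ge_atTop (1:ℝ)] with x h4 h5 h6
      rw [Real.norm_of_nonneg (Real.log_nonneg h6), Real.norm_of_nonneg (Real.rpow_nonneg (by linarith) _)] at h4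
      linarith
    exact tendsto_natCast_atTop_atTop.eventually h1
  obtain ⟨nT, hnT⟩ := Filter.eventually_atTop.1 (t1.and (t2.and (t3.and t4)))
  obtain ⟨nV, hnV⟩ := div_bound b hb
  refine ⟨b / 4, by positivity, max (max nA nB) (max (max nD nT) (max nV 2)), fun n hn W f g hW hf hg hth => ?_⟩
  have hnA' : nA ≤ 2 * n := by omega
  have hnB' : nB ≤ n := by omega
  have hnD' : nD ≤ n := by omega
  have hn2 : 2 ≤ n := by omega
  obtain ⟨u1, u2, u3, u4⟩ := hnT n (by omega)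
  have hdvb := hnV n (by omega)
  have hnR : (2:ℝ) ≤ n := by exact_mod_cast hn2
  have hn0 : (0:ℝ) < n := by linarith
  have hn1 : (1:ℝ) ≤ n := by linarith
  have hlog : 0 ≤ Real.log n := Real.log_natCast_nonneg n
  have hth1 : ∀ th : ℝ, ‖∑ z ∈ Icc (1:ℤ) n, g z * ee (th * z)‖ ≤ (n:ℝ) ^ (1 - c1) := fun th =>
    (hth th).trans (Real.rpow_le_rpow_of_exponent_le hn1 (by linarith))
  have hlt : ∀ e : ℝ, ∀ C : ℕ, e * C < c1 → ∀ th : ℝ, ‖∑ z ∈ Icc (1:ℤ) n, g z * ee (th * z)‖ < (n:ℝ) / ((n:ℝ) ^ e) ^ C := by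
    intro e C he th
    refine lt_of_le_of_lt (hth1 th) ?_
    have h1 : (n:ℝ) / ((n:ℝ) ^ e) ^ C = (n:ℝ) ^ (1 - e * C) := by
      rw [← Real.rpow_natCast, ← Real.rpow_mul hn0.le, Real.rpow_sub hn0, Real.rpow_one]
    rw [h1]
    exact Real.rpow_lt_rpow_of_exponent_lt (by linarith) (by linarith)
  have h2n : ∀ e : ℝ, 0 ≤ e → ((2 * n : ℕ) : ℝ) ^ e ≤ (n:ℝ) ^ (2 * e) := by
    intro e he
    rw [Real.rpow_mul hn0.le]
    refine Real.rpow_le_rpow (Nat.cast_nonneg _) ?_ he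
    push_cast
    rw [Real.rpow_two]
    nlinarith
  have hn2n : ∀ e : ℝ, 0 ≤ e → (n:ℝ) ^ e ≤ ((2 * n : ℕ) : ℝ) ^ e := by
    intro e he
    refine Real.rpow_le_rpow hn0.le ?_ he
    push_cast
    linarith
  have hdiv : ∀ e : ℝ, (n:ℝ) ^ 2 / (n:ℝ) ^ e = (n:ℝ) ^ (2 - e) := by
    intro e
    rw [Real.rpow_sub hn0, Real.rpow_two]
  set X : ℝ := 4 * (n:ℝ) ^ (2 - b) with hX
  have hbb : b ≤ d := by linarith
  have k2 : Pool.Agent.Lib.H81A.H2 c η (2 * n) (tfS n W f g) X := by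
    have h0 : ((n:ℝ) ^ b) ^ CB ≤ (n:ℝ) ^ c := by
      rw [← Real.rpow_natCast, ← Real.rpow_mul hn0.le]
      exact Real.rpow_le_rpow_of_exponent_le hn1 hbC.le
    have h1 := hnB n hnB' c ((n:ℝ) ^ b) u1 hdvb (h0.trans (hn2n c hc.le))
      (h0.trans (Real.rpow_le_rpow_of_exponent_le hn1 hcη)) W f g hW hf hg (hlt b CB (by linarith))
    rw [hdiv] at h1
    exact h1
  have k3 : Pool.Agent.Lib.H81A.H3 c η (2 * n) (tfS n W f g) X := by
    have h1 := h3_of et0 CD nD hDO η hη1 n hnD' (by omega) c ((n:ℝ) ^ d) u3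
      (fun m hm1 hm2 => (hdvb m hm1 hm2).trans (Real.rpow_le_rpow_of_exponent_le hn1 hbb)) (by
      rw [← Real.rpow_natCast, ← Real.rpow_mul hn0.le]
      calc (n:ℝ) ^ (d * CD) ≤ (n:ℝ) ^ (1:ℝ) := Real.rpow_le_rpow_of_exponent_le hn1 (by linarith)
        _ = n := Real.rpow_one _) (by
      refine (h2n (2 * c) (by positivity)).trans (Real.rpow_le_rpow_of_exponent_le hn1 ?_)
      linarith) W f g hW hf hg (hlt d CD hdC)
    rw [hdiv] at h1
    refine H3_mono h1 ?_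
    have h2 : (n:ℝ) ^ (2 - d) ≤ (n:ℝ) ^ (2 - b) := Real.rpow_le_rpow_of_exponent_le hn1 (by linarith)
    have h3 : 0 ≤ (n:ℝ) ^ (2 - b) := Real.rpow_nonneg hn0.le _
    rw [hX]
    linarith
  have k1 : Pool.Agent.Lib.H81A.H1 c (2 * n) (tfS n W f g) X := by
    refine H1_mono (h1_of n (by omega) c W f g hW hf ((n:ℝ) ^ (1 - c1)) hth1) ?_
    have h1 : ((2 * n : ℕ) : ℝ) ^ (2 * c) ≤ (n:ℝ) ^ (d / 3) := by
      refine (h2n (2 * c) (by positivity)).trans (Real.rpow_le_rpow_of_exponent_le hn1 ?_)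
      linarith
    have h2 : (0:ℝ) ≤ (n:ℝ) ^ (1 - c1) := Real.rpow_nonneg hn0.le _
    have h3 : (0:ℝ) ≤ (n:ℝ) ^ (d / 3) := Real.rpow_nonneg hn0.le _
    calc 20 * ((2 * n : ℕ) : ℝ) ^ (2 * c) * (1 + Real.log n) * n * (n:ℝ) ^ (1 - c1)
        ≤ 20 * (n:ℝ) ^ (d / 3) * (1 + Real.log n) * n * (n:ℝ) ^ (1 - c1) := by gcongr
      _ = 4 * ((n:ℝ) ^ (d / 3) * (5 * (1 + Real.log n)) * (n ^ (1:ℝ) * (n:ℝ) ^ (1 - c1))) := by rw [Real.rpow_one]; ring
      _ ≤ 4 * ((n:ℝ) ^ (d / 3) * (n:ℝ) ^ (c1 / 3) * (n ^ (1:ℝ) * (n:ℝ) ^ (1 - c1))) := by gcongr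
      _ = 4 * (n:ℝ) ^ (d / 3 + c1 / 3 + (1 + (1 - c1))) := by
          rw [← Real.rpow_add hn0, ← Real.rpow_add hn0, ← Real.rpow_add hn0]
      _ ≤ X := by
          rw [hX]
          refine mul_le_mul_of_nonneg_left (Real.rpow_le_rpow_of_exponent_le hn1 ?_) (by norm_num)
          linarith
  have h := hnA (2 * n) hnA' (tfS n W f g) (tfS_loc n W f g) X k2 k1 k3
  have e : tfS n W f g (fun m => ArithmeticFunction.vonMangoldt m) =
      ‖TF n (fun m => ((ArithmeticFunction.vonMangoldt m.toNat : ℝ) : ℂ)) W f g‖ := rfl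
  rw [e] at h
  refine h.trans ?_
  have h1 := h2n (b / 4) (by positivity)
  have h2 : 0 ≤ (n:ℝ) ^ (2 - b) := Real.rpow_nonneg hn0.le _
  have h3 : 0 ≤ (n:ℝ) ^ (2 * (b / 4)) := Real.rpow_nonneg hn0.le _
  calc ((2 * n : ℕ) : ℝ) ^ (b / 4) * X ≤ (n:ℝ) ^ (2 * (b / 4)) * ((n:ℝ) ^ (b / 4) * (n:ℝ) ^ (2 - b)) := by
        rw [hX]
        gcongr
    _ = (n:ℝ) ^ (2 - b / 4) := by
        rw [← Real.rpow_add hn0, ← Real.rpow_add hn0]
        congr 1
        ring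

end Pool.Agent.H37T
end
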