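import Mathlib
import Pool.Agent.Lib.H59M.M2.M021
import Pool.Agent.Lib.H59M.M2.M024

/-! Merged copies (to shorten the build) of Lib.H3B.D0, Lib.H3B.S0B, Lib.H3B.S0A, Lib.H3B.S0C, Lib.H3B.S0D. -/

-- from Lib.H3B.D0
section

/-! # H3B: definitions for step 0 -/

namespace Pool.Agent.H3B

open Finset
open Pool.Agent.H44W (ee TF cut tII)

noncomputable section

/-- The β with M ≤ 2β + ε < 2M. -/
def SS (M : ℕ) (ε : ℤ) : Finset ℤ := (Ico (0 : ℤ) (2 * M)).filter (fun b => (M : ℤ) ≤ 2 * b + ε ∧ 2 * b + ε < 2 * M)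

/-- The part of the form with given `a` and `b = 2β + ε`. -/
def Tt (M : ℕ) (a ε : ℤ) (be W f g : ℤ → ℂ) : ℂ :=
  ∑ b ∈ SS M ε, be (2 * b + ε) * ∑' x : ℤ, f x * g (a * (2 * b + ε) - x) * W (2 * x - a * (2 * b + ε))

/-- `β_b conj β_{b + 2h}`, `b = 2β + ε`. -/
def BB (M : ℕ) (ε : ℤ) (be : ℤ → ℂ) (h b : ℤ) : ℂ :=
  if b + h ∈ SS M ε then be (2 * b + ε) * (starRingEnd ℂ) (be (2 * (b + h) + ε)) else 0

/-- The inner sum after the first Cauchy-Schwarz inequality. -/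
def Zh (M : ℕ) (a ε : ℤ) (be g : ℤ → ℂ) (h w : ℤ) : ℂ :=
  ∑ b ∈ SS M ε, if (2 : ℤ) ∣ a * (2 * b + ε) - w then
    BB M ε be h b * Gd g (a * (2 * h)) ((a * (2 * b + ε) - w) / 2) else 0

/-- The quantity `val(j, k)` of step 1. -/
def val (g : ℤ → ℂ) (K M : ℕ) (ψ : ℤ → ℝ) (j k : ℤ) : ℂ :=
  ∑ h ∈ Ioo (-(M : ℤ)) M, ee (-(ψ h * j * k)) * ∑ a ∈ Ij K j, R (Gd g (a * (a + j) * k)) (j * (2 * h))

end

end Pool.Agent.H3B
end

-- from Lib.H3B.S0B
section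

/-! # H3B (MP_443e5f, candidate T, module B), chunk S0B -/

namespace Pool.Agent.H3B

open Finset
open Pool.Agent.H44W (ee TF cut tII)

theorem s0b_SS {M : ℕ} {ε b : ℤ} (hb : b ∈ SS M ε) : (M : ℤ) ≤ 2 * b + ε ∧ 2 * b + ε < 2 * M :=
  (mem_filter.1 hb).2

theorem s0b_A {n M : ℕ} {a ε b : ℤ} (ha : 1 ≤ a) (haM : a * (2 * M) ≤ 8 * n) (hb : b ∈ SS M ε) :
    0 ≤ a * (2 * b + ε) ∧ a * (2 * b + ε) ≤ 8 * n := by
  obtain ⟨h1, h2⟩ := s0b_SS hb
  constructor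
  · exact mul_nonneg (by omega) (by omega)
  · exact (mul_le_mul_of_nonneg_left h2.le (by omega)).trans haM

theorem s0b_re {M : ℕ} {ε : ℤ} (F : ℤ → ℂ) {b : ℤ} (hb : b ∈ SS M ε) :
    ∑ b' ∈ SS M ε, F b' = ∑ h ∈ Ioo (-(M : ℤ)) M, if b + h ∈ SS M ε then F (b + h) else 0 := by
  rw [← sum_filter]
  symm
  refine Finset.sum_nbij' (fun h => b + h) (fun b' => b' - b) ?_ ?_ ?_ ?_ ?_
  · intro h hh
    exact (mem_filter.1 hh).2
  · intro b' hb'
    have h1 := s0b_SS hb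
    have h2 := s0b_SS hb'
    rw [mem_filter, mem_Ioo]
    refine ⟨by constructor <;> omega, ?_⟩
    have h3 : b + (b' - b) = b' := by ring
    rw [h3]
    exact hb'
  · intro h _
    ring
  · intro b' _
    ring
  · intro h _
    rfl

theorem s0b_tsum (A : ℤ) (H : ℤ → ℂ) :
    ∑' x : ℤ, H (2 * x - A) = ∑' w : ℤ, if (2 : ℤ) ∣ A - w then H w else 0 := by
  have hinj : Function.Injective (fun x : ℤ => 2 * x - A) := by
    intro x y hxy
    simp only at hxy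
    omega
  have h1 := hinj.tsum_eq (f := fun w : ℤ => if (2 : ℤ) ∣ A - w then H w else 0) (by
    intro w hw
    rw [Function.mem_support] at hw
    have h2 : (2 : ℤ) ∣ A - w := by
      by_contra h3
      rw [if_neg h3] at hw
      exact hw rfl
    obtain ⟨y, hy⟩ := h2
    refine ⟨A - y, ?_⟩
    simp only
    omega)
  rw [← h1]
  refine tsum_congr fun x => ?_
  have h2 : (2 : ℤ) ∣ A - (2 * x - A) := ⟨A - x, by ring⟩
  rw [if_pos h2]

/-- One pair `b, b + h`. -/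
theorem s0b_pair {n M : ℕ} {a ε : ℤ} (ha : 1 ≤ a) (haM : a * (2 * M) ≤ 8 * n) {W g : ℤ → ℂ}
    (hgs : Sp n g) {b : ℤ} (hb : b ∈ SS M ε) (h : ℤ) :
    ∑ x ∈ Icc (-(9 * n : ℤ)) (9 * n), (g (a * (2 * b + ε) - x) * W (2 * x - a * (2 * b + ε))) *
      (starRingEnd ℂ) (g (a * (2 * (b + h) + ε) - x) * W (2 * x - a * (2 * (b + h) + ε))) =
    ∑ w ∈ Icc (-(10 * n : ℤ)) (10 * n), (W w * (starRingEnd ℂ) (W (w - a * (2 * h)))) *
      (if (2 : ℤ) ∣ a * (2 * b + ε) - w then Gd g (a * (2 * h)) ((a * (2 * b + ε) - w) / 2) else 0) := by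
  obtain ⟨A, hA⟩ : ∃ A : ℤ, A = a * (2 * b + ε) := ⟨_, rfl⟩
  have hA0 := s0b_A ha haM hb
  have hA' : a * (2 * (b + h) + ε) = A + a * (2 * h) := by rw [hA]; ring
  rw [hA', ← hA]
  rw [← hA] at hA0
  have e1 : ∀ x : ℤ, (g (A - x) * W (2 * x - A)) *
      (starRingEnd ℂ) (g (A + a * (2 * h) - x) * W (2 * x - (A + a * (2 * h)))) =
      (fun w : ℤ => (W w * (starRingEnd ℂ) (W (w - a * (2 * h)))) * Gd g (a * (2 * h)) ((A - w) / 2)) (2 * x - A) := by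
    intro x
    have h1 : (A - (2 * x - A)) / 2 = A - x := by omega
    have h2 : A + a * (2 * h) - x = A - x + a * (2 * h) := by ring
    have h3 : 2 * x - (A + a * (2 * h)) = 2 * x - A - a * (2 * h) := by ring
    simp only [h1, h2, h3, Gd, map_mul]
    ring
  have e2 : ∑ x ∈ Icc (-(9 * n : ℤ)) (9 * n), (g (A - x) * W (2 * x - A)) *
      (starRingEnd ℂ) (g (A + a * (2 * h) - x) * W (2 * x - (A + a * (2 * h)))) =
      ∑' x : ℤ, (g (A - x) * W (2 * x - A)) *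
      (starRingEnd ℂ) (g (A + a * (2 * h) - x) * W (2 * x - (A + a * (2 * h)))) := by
    symm
    refine tsum_eq_sum fun x hx => ?_
    have h1 : g (A - x) = 0 := by
      refine hgs.zero ?_
      by_contra h2
      rw [not_lt, abs_le] at h2
      apply hx
      rw [mem_Icc]
      constructor <;> omega
    rw [h1, zero_mul, zero_mul]
  rw [e2, (tsum_congr e1).trans (s0b_tsum A (fun w : ℤ =>
    (W w * (starRingEnd ℂ) (W (w - a * (2 * h)))) * Gd g (a * (2 * h)) ((A - w) / 2)))]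
  rw [tsum_eq_sum (s := Icc (-(10 * n : ℤ)) (10 * n))]
  · refine sum_congr rfl fun w _ => ?_
    split_ifs
    · rfl
    · rw [mul_zero]
  · intro w hw
    split_ifs with h1
    · have h3 : g ((A - w) / 2) = 0 := by
        refine hgs.zero ?_
        by_contra h2
        rw [not_lt, abs_le] at h2
        apply hw
        rw [mem_Icc]
        constructor <;> omega
      unfold Gd
      rw [h3, zero_mul, mul_zero]
    · rfl

/-- Chunk S0B (M). The first two steps: Cauchy-Schwarz in x, expansion. PROOF. Tt = ∑' x, f x * U x with U x = ∑_{b in SS} be(2b+ε) g(a(2b+ε) - x) W(2x - a(2b+ε)) (finite sums; exchange).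
Cauchy-Schwarz: |Tt|² ≤ (∑ |f|²)(∑' x, |U x|²), ∑ |f|² ≤ 2 n + 1 ≤ 3 n. |U x|² = ∑_{b, b'} ..; put b' = b + h (h in Ioo (-M) M: the elements of SS lie in an interval of length less than M), A = a(2b+ε),
y = A - x, w = 2x - A = A - 2y: g(A - x) conj g(A + 2ah - x) = Gd g (2ah) y, W(2x - A) conj W(2x - A - 2ah) = W w conj W(w - 2ah). For given b the map x ↦ w = 2x - A is a bijection of ℤ onto
the w with 2 | A - w, and y = (A - w)/2. So ∑' x, |U x|² = ∑_h ∑' w, W w conj W(w - 2ah) Zh h w ≤ ∑_h ∑_w |Zh h w|, and Zh h w ≠ 0 only if |y| ≤ n for some b, that is |w| ≤ A + 2n ≤ 10 n. -/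
theorem s0_cs1 {n M : ℕ} (hn : 1 ≤ n) {a ε : ℤ} (ha : 1 ≤ a) (haM : a * (2 * M) ≤ 8 * n) (hε : ε = 0 ∨ ε = 1) {be W f g : ℤ → ℂ}
    (hW : ∀ x, ‖W x‖ ≤ 1) (hf : ∀ x, ‖f x‖ ≤ 1) (hfs : Sp n f) (hgs : Sp n g) :
    ‖Tt M a ε be W f g‖ ^ 2 ≤ 3 * n * ∑ h ∈ Ioo (-(M : ℤ)) M, ∑ w ∈ Icc (-(10 * n : ℤ)) (10 * n), ‖Zh M a ε be g h w‖ := by
  classical
  have hnR : (1 : ℝ) ≤ n := by exact_mod_cast hn
  obtain ⟨u, hu⟩ : ∃ u : ℤ → ℤ → ℂ, u = fun b x => g (a * (2 * b + ε) - x) * W (2 * x - a * (2 * b + ε)) := ⟨_, rfl⟩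
  obtain ⟨U, hU⟩ : ∃ U : ℤ → ℂ, U = fun x => ∑ b ∈ SS M ε, be (2 * b + ε) * u b x := ⟨_, rfl⟩
  -- the form as a finite sum
  have hTt : Tt M a ε be W f g = ∑ x ∈ Icc (-(n : ℤ)) n, f x * U x := by
    unfold Tt
    have e1 : ∀ b : ℤ, ∑' x : ℤ, f x * g (a * (2 * b + ε) - x) * W (2 * x - a * (2 * b + ε)) =
        ∑ x ∈ Icc (-(n : ℤ)) n, f x * u b x := by
      intro b
      have h1 : Sp n (fun x => f x * g (a * (2 * b + ε) - x) * W (2 * x - a * (2 * b + ε))) :=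
        (hfs.mul_right _).mul_right _
      rw [h1.tsum_eq]
      refine sum_congr rfl fun x _ => ?_
      rw [hu]
      ring
    simp only [e1, mul_sum]
    rw [sum_comm]
    refine sum_congr rfl fun x _ => ?_
    rw [hU]
    simp only [mul_sum]
    refine sum_congr rfl fun b _ => ?_
    ring
  -- Cauchy-Schwarz
  have hcs : ‖Tt M a ε be W f g‖ ^ 2 ≤ 3 * n * ∑ x ∈ Icc (-(9 * n : ℤ)) (9 * n), ‖U x‖ ^ 2 := by
    rw [hTt]
    have h1 : ‖∑ x ∈ Icc (-(n : ℤ)) n, f x * U x‖ ≤ ∑ x ∈ Icc (-(n : ℤ)) n, ‖f x‖ * ‖U x‖ := by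
      refine norm_sum_le_of_le _ fun x _ => ?_
      rw [norm_mul]
    have h2 := sum_mul_sq_le_sq_mul_sq (Icc (-(n : ℤ)) n) (fun x => ‖f x‖) (fun x => ‖U x‖)
    have h3 : ∑ x ∈ Icc (-(n : ℤ)) n, ‖f x‖ ^ 2 ≤ 3 * n := by
      refine (sum_le_sum (g := fun _ => (1 : ℝ)) fun x _ => ?_).trans ?_
      · exact pow_le_one₀ (norm_nonneg _) (hf x)
      · rw [sum_const, Int.card_Icc, nsmul_eq_mul, mul_one]
        have h4 : (n : ℤ) + 1 - -(n : ℤ) = ((2 * n + 1 : ℕ) : ℤ) := by push_cast; ring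
        rw [h4, Int.toNat_natCast]
        push_cast
        linarith
    have h5 : ∑ x ∈ Icc (-(n : ℤ)) n, ‖U x‖ ^ 2 ≤ ∑ x ∈ Icc (-(9 * n : ℤ)) (9 * n), ‖U x‖ ^ 2 := by
      refine sum_le_sum_of_subset_of_nonneg ?_ fun x _ _ => sq_nonneg _
      intro x hx
      rw [mem_Icc] at hx ⊢
      constructor <;> omega
    calc _ ≤ (∑ x ∈ Icc (-(n : ℤ)) n, ‖f x‖ * ‖U x‖) ^ 2 := pow_le_pow_left₀ (norm_nonneg _) h1 2
      _ ≤ _ := h2
      _ ≤ _ := mul_le_mul h3 h5 (sum_nonneg fun x _ => sq_nonneg _) (by positivity)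
  refine hcs.trans (mul_le_mul_of_nonneg_left ?_ (by positivity))
  -- expansion
  have hexp : ((∑ x ∈ Icc (-(9 * n : ℤ)) (9 * n), ‖U x‖ ^ 2 : ℝ) : ℂ) =
      ∑ h ∈ Ioo (-(M : ℤ)) M, ∑ w ∈ Icc (-(10 * n : ℤ)) (10 * n),
        (W w * (starRingEnd ℂ) (W (w - a * (2 * h)))) * Zh M a ε be g h w := by
    rw [Complex.ofReal_sum]
    have e1 : ∀ x : ℤ, ((‖U x‖ ^ 2 : ℝ) : ℂ) = ∑ b ∈ SS M ε, ∑ b' ∈ SS M ε,
        (be (2 * b + ε) * (starRingEnd ℂ) (be (2 * b' + ε))) * (u b x * (starRingEnd ℂ) (u b' x)) := by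
      intro x
      rw [← Complex.normSq_eq_norm_sq, ← Complex.mul_conj, hU]
      simp only [map_sum, sum_mul_sum, map_mul]
      refine sum_congr rfl fun b _ => sum_congr rfl fun b' _ => ?_
      ring
    simp only [e1]
    rw [sum_comm]
    have e2 : ∀ b ∈ SS M ε, ∑ x ∈ Icc (-(9 * n : ℤ)) (9 * n), ∑ b' ∈ SS M ε,
        (be (2 * b + ε) * (starRingEnd ℂ) (be (2 * b' + ε))) * (u b x * (starRingEnd ℂ) (u b' x)) =
        ∑ h ∈ Ioo (-(M : ℤ)) M, ∑ w ∈ Icc (-(10 * n : ℤ)) (10 * n),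
          (W w * (starRingEnd ℂ) (W (w - a * (2 * h)))) *
          (if (2 : ℤ) ∣ a * (2 * b + ε) - w then BB M ε be h b * Gd g (a * (2 * h)) ((a * (2 * b + ε) - w) / 2) else 0) := by
      intro b hb
      rw [sum_comm]
      rw [s0b_re (fun b' => ∑ x ∈ Icc (-(9 * n : ℤ)) (9 * n),
        (be (2 * b + ε) * (starRingEnd ℂ) (be (2 * b' + ε))) * (u b x * (starRingEnd ℂ) (u b' x))) hb]
      refine sum_congr rfl fun h _ => ?_
      unfold BB
      by_cases hh : b + h ∈ SS M ε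
      · simp only [if_pos hh]
        rw [← mul_sum, hu]
        dsimp only
        rw [s0b_pair ha haM hgs hb h, mul_sum]
        refine sum_congr rfl fun w _ => ?_
        split_ifs
        · ring
        · ring
      · simp only [if_neg hh, zero_mul, ite_self, mul_zero, sum_const_zero]
    rw [sum_congr rfl e2, sum_comm]
    refine sum_congr rfl fun h _ => ?_
    rw [sum_comm]
    refine sum_congr rfl fun w _ => ?_
    unfold Zh
    rw [mul_sum]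
  have hnorm : (∑ x ∈ Icc (-(9 * n : ℤ)) (9 * n), ‖U x‖ ^ 2 : ℝ) =
      ‖((∑ x ∈ Icc (-(9 * n : ℤ)) (9 * n), ‖U x‖ ^ 2 : ℝ) : ℂ)‖ := by
    rw [Complex.norm_real, Real.norm_of_nonneg (sum_nonneg fun x _ => sq_nonneg _)]
  rw [hnorm, hexp]
  refine norm_sum_le_of_le _ fun h _ => norm_sum_le_of_le _ fun w _ => ?_
  rw [norm_mul, norm_mul, RCLike.norm_conj]
  exact mul_le_of_le_one_left (norm_nonneg _) (mul_le_one₀ (hW _) (norm_nonneg _) (hW _))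

end Pool.Agent.H3B
end

-- from Lib.H3B.S0A
section

/-! # H3B (MP_443e5f, candidate T, module B), chunk S0A -/

namespace Pool.Agent.H3B

open Finset
open Pool.Agent.H44W (ee TF cut tII)

/-- The inner sum. -/
noncomputable def s0aIn (n : ℕ) (W f g : ℤ → ℂ) (c : ℤ) : ℂ :=
  ∑ x ∈ Icc (1:ℤ) n, cut n f x * cut n g (c - x) * W (2 * x - c)

theorem s0a_tsum (n : ℕ) (W f g : ℤ → ℂ) (c : ℤ) :
    ∑' x : ℤ, cut n f x * cut n g (c - x) * W (2 * x - c) = s0aIn n W f g c := by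
  unfold s0aIn
  refine tsum_eq_sum fun x hx => ?_
  have h : cut n f x = 0 := if_neg hx
  rw [h, zero_mul, zero_mul]

theorem s0a_inner (n : ℕ) (W f g : ℤ → ℂ) (c : ℤ) :
    ∑ x ∈ Icc (1:ℤ) n, ∑ y ∈ Icc (1:ℤ) n, (if c = x + y then f x * g y * W (x - y) else 0) = s0aIn n W f g c := by
  unfold s0aIn
  refine sum_congr rfl fun x hx => ?_
  have h1 : cut n f x = f x := if_pos hx
  have h2 : ∀ y ∈ Icc (1:ℤ) n, (if c = x + y then f x * g y * W (x - y) else 0) =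
      if y = c - x then f x * g y * W (x - y) else 0 := by
    intro y _
    by_cases h : c = x + y
    · rw [if_pos h, if_pos (by omega)]
    · rw [if_neg h, if_neg (by omega)]
  rw [sum_congr rfl h2, sum_ite_eq', h1]
  by_cases h3 : c - x ∈ Icc (1:ℤ) n
  · have h4 : cut n g (c - x) = g (c - x) := if_pos h3
    rw [if_pos h3, h4]
    congr 2
    ring
  · have h4 : cut n g (c - x) = 0 := if_neg h3
    rw [if_neg h3, h4, mul_zero, zero_mul]

theorem s0a_exp (n K M : ℕ) (al be : ℕ → ℂ) (W f g : ℤ → ℂ) :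
    TF n (tII K M al be) W f g = ∑ a ∈ Ico K (2 * K), al a * ∑ b ∈ Ico M (2 * M), be b * s0aIn n W f g ((a * b : ℕ) : ℤ) := by
  unfold TF tII
  have h1 : ∀ x ∈ Icc (1:ℤ) n, ∑ y ∈ Icc (1:ℤ) n, f x * g y *
      (∑ a ∈ Ico K (2 * K), ∑ b ∈ Ico M (2 * M), if ((a * b : ℕ) : ℤ) = x + y then al a * be b else 0) * W (x - y) =
      ∑ a ∈ Ico K (2 * K), ∑ b ∈ Ico M (2 * M), ∑ y ∈ Icc (1:ℤ) n,
        al a * be b * (if ((a * b : ℕ) : ℤ) = x + y then f x * g y * W (x - y) else 0) := by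
    intro x _
    have h2 : ∀ y ∈ Icc (1:ℤ) n, f x * g y *
        (∑ a ∈ Ico K (2 * K), ∑ b ∈ Ico M (2 * M), if ((a * b : ℕ) : ℤ) = x + y then al a * be b else 0) * W (x - y) =
        ∑ a ∈ Ico K (2 * K), ∑ b ∈ Ico M (2 * M),
          al a * be b * (if ((a * b : ℕ) : ℤ) = x + y then f x * g y * W (x - y) else 0) := by
      intro y _
      rw [Finset.mul_sum, Finset.sum_mul]
      refine sum_congr rfl fun a _ => ?_
      rw [Finset.mul_sum, Finset.sum_mul]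
      refine sum_congr rfl fun b _ => ?_
      split_ifs
      · ring
      · ring
    rw [sum_congr rfl h2, Finset.sum_comm]
    refine sum_congr rfl fun a _ => ?_
    rw [Finset.sum_comm]
  rw [sum_congr rfl h1, Finset.sum_comm]
  refine sum_congr rfl fun a _ => ?_
  rw [Finset.sum_comm, Finset.mul_sum]
  refine sum_congr rfl fun b _ => ?_
  rw [← s0a_inner, ← mul_assoc, Finset.mul_sum]
  refine sum_congr rfl fun x _ => ?_
  rw [Finset.mul_sum]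

theorem s0a_par0 (M : ℕ) (F : ℤ → ℂ) (ε : ℤ) (hε : 0 ≤ ε ∧ ε < 2) :
    ∑ b ∈ SS M ε, F (2 * b + ε) = ∑ b ∈ (Ico (M:ℤ) (2 * M)).filter (fun b => b % 2 = ε), F b := by
  refine Finset.sum_nbij' (fun b => 2 * b + ε) (fun b => b / 2) ?_ ?_ ?_ ?_ ?_
  · intro b hb
    unfold SS at hb
    rw [mem_filter, mem_Ico] at hb
    rw [mem_filter, mem_Ico]
    obtain ⟨⟨h1, h2⟩, h3, h4⟩ := hb
    refine ⟨⟨h3, h4⟩, ?_⟩
    omega
  · intro b hb
    unfold SS
    rw [mem_filter, mem_Ico] at hb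
    rw [mem_filter, mem_Ico]
    obtain ⟨⟨h1, h2⟩, h3⟩ := hb
    have hM : (0:ℤ) ≤ M := Int.natCast_nonneg M
    omega
  · intro b hb
    omega
  · intro b hb
    rw [mem_filter] at hb
    omega
  · intro b _
    rfl

theorem s0a_par (M : ℕ) (F : ℤ → ℂ) :
    ∑ b ∈ Ico M (2 * M), F (b:ℤ) = ∑ ε ∈ ({0, 1} : Finset ℤ), ∑ b ∈ SS M ε, F (2 * b + ε) := by
  have h1 : ∑ b ∈ Ico M (2 * M), F (b:ℤ) = ∑ b ∈ Ico (M:ℤ) (2 * M), F b := by
    refine Finset.sum_nbij' (fun b : ℕ => (b:ℤ)) (fun b : ℤ => b.toNat) ?_ ?_ ?_ ?_ ?_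
    · intro b hb
      rw [mem_Ico] at hb ⊢
      omega
    · intro b hb
      rw [mem_Ico] at hb ⊢
      omega
    · intro b _
      exact Int.toNat_natCast b
    · intro b hb
      rw [mem_Ico] at hb
      exact Int.toNat_of_nonneg (by omega)
    · intro b _
      rfl
  rw [h1, Finset.sum_pair (by norm_num), s0a_par0 M F 0 (by norm_num), s0a_par0 M F 1 (by norm_num),
    ← Finset.sum_filter_add_sum_filter_not (Ico (M:ℤ) (2 * M)) (fun b => b % 2 = 0)]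
  congr 1
  refine Finset.sum_congr ?_ fun _ _ => rfl
  refine Finset.filter_congr fun b _ => ?_
  omega

theorem s0a_norm_cut (n : ℕ) (f : ℤ → ℂ) (hf : ∀ x, ‖f x‖ ≤ 1) (x : ℤ) : ‖cut n f x‖ ≤ 1 := by
  unfold cut
  split_ifs
  · exact hf x
  · rw [norm_zero]
    exact zero_le_one

theorem s0a_In_le (n : ℕ) (W f g : ℤ → ℂ) (hW : ∀ x, ‖W x‖ ≤ 1) (hf : ∀ x, ‖f x‖ ≤ 1) (hg : ∀ x, ‖g x‖ ≤ 1) (c : ℤ) :
    ‖s0aIn n W f g c‖ ≤ n := by
  unfold s0aIn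
  refine (norm_sum_le_of_le (f := fun x => cut n f x * cut n g (c - x) * W (2 * x - c)) (n := fun _ => (1:ℝ)) _ fun x _ => ?_).trans ?_
  · rw [norm_mul, norm_mul]
    exact mul_le_one₀ (mul_le_one₀ (s0a_norm_cut n f hf x) (norm_nonneg _) (s0a_norm_cut n g hg _)) (norm_nonneg _) (hW _)
  · simp

/-- Chunk S0Aa (M). PROOF. TF n F W f g = ∑' x, ∑' y of cut n f x * cut n g y * F (x + y) * W (x - y) (or keep the finite sums). Insert the definition of tII, exchange the sums: for given a, b the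
sum over x, y in [1, n] with x + y = a b of f x g y W (x - y) is ∑' x, cut n f x * cut n g (a b - x) * W (2 x - a b). b = 2β + ε with ε = b mod 2 gives a bijection of Ico M (2M) with the pairs
(ε, β), ε in {0, 1}, β in SS M ε. Triangle inequality, |al a| ≤ 1. -/
theorem TF_le_Tt (n K M : ℕ) (al be : ℕ → ℂ) (hal : ∀ a, ‖al a‖ ≤ 1) (W f g : ℤ → ℂ) :
    ‖TF n (tII K M al be) W f g‖ ≤ ∑ ε ∈ ({0, 1} : Finset ℤ), ∑ a ∈ Ico K (2 * K),
      ‖Tt M a ε (fun b => be b.toNat) W (cut n f) (cut n g)‖ := by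
  have h1 : ∀ a : ℕ, ∑ b ∈ Ico M (2 * M), be b * s0aIn n W f g ((a * b : ℕ) : ℤ) =
      ∑ ε ∈ ({0, 1} : Finset ℤ), Tt M a ε (fun b => be b.toNat) W (cut n f) (cut n g) := by
    intro a
    have h2 := s0a_par M (fun b => be b.toNat * s0aIn n W f g ((a:ℤ) * b))
    have h3 : ∑ b ∈ Ico M (2 * M), be b * s0aIn n W f g ((a * b : ℕ) : ℤ) =
        ∑ b ∈ Ico M (2 * M), (fun b : ℤ => be b.toNat * s0aIn n W f g ((a:ℤ) * b)) (b:ℤ) := by
      refine sum_congr rfl fun b _ => ?_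
      change _ = be (Int.toNat (b:ℤ)) * s0aIn n W f g ((a:ℤ) * (b:ℤ))
      rw [Int.toNat_natCast, Nat.cast_mul]
    rw [h3, h2]
    refine sum_congr rfl fun ε _ => ?_
    unfold Tt
    refine sum_congr rfl fun b _ => ?_
    rw [s0a_tsum]
  rw [s0a_exp, Finset.sum_comm]
  refine norm_sum_le_of_le _ fun a _ => ?_
  rw [norm_mul, h1 a]
  exact (mul_le_of_le_one_left (norm_nonneg _) (hal a)).trans (norm_sum_le _ _)

/-- Chunk S0Ab (S/M). PROOF. Trivial bound: for given a, b and x there is at most one y. -/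
theorem TF_le (n K M : ℕ) (al be : ℕ → ℂ) (hal : ∀ a, ‖al a‖ ≤ 1) (hbe : ∀ b, ‖be b‖ ≤ 1) (W f g : ℤ → ℂ)
    (hW : ∀ x, ‖W x‖ ≤ 1) (hf : ∀ x, ‖f x‖ ≤ 1) (hg : ∀ x, ‖g x‖ ≤ 1) :
    ‖TF n (tII K M al be) W f g‖ ≤ K * M * n := by
  rw [s0a_exp]
  have h1 : ∀ a ∈ Ico K (2 * K), ‖al a * ∑ b ∈ Ico M (2 * M), be b * s0aIn n W f g ((a * b : ℕ) : ℤ)‖ ≤ M * n := by
    intro a _
    rw [norm_mul]
    refine (mul_le_of_le_one_left (norm_nonneg _) (hal a)).trans ?_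
    have h2 : ∀ b ∈ Ico M (2 * M), ‖be b * s0aIn n W f g ((a * b : ℕ) : ℤ)‖ ≤ n := by
      intro b _
      rw [norm_mul]
      exact (mul_le_of_le_one_left (norm_nonneg _) (hbe b)).trans (s0a_In_le n W f g hW hf hg _)
    refine (norm_sum_le_of_le _ h2).trans ?_
    rw [Finset.sum_const, Nat.card_Ico, nsmul_eq_mul]
    have e : 2 * M - M = M := by omega
    rw [e]
  refine (norm_sum_le_of_le _ h1).trans ?_
  rw [Finset.sum_const, Nat.card_Ico, nsmul_eq_mul]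
  have e : 2 * K - K = K := by omega
  rw [e, mul_assoc]

/-- Chunk S0Ac (S). PROOF. If K M > 2 n then tII (x + y) = 0 because a b ≥ K M > 2 n ≥ x + y. -/
theorem KM_le (n K M : ℕ) (al be : ℕ → ℂ) (W f g : ℤ → ℂ) (h : TF n (tII K M al be) W f g ≠ 0) : K * M ≤ 2 * n := by
  by_contra hc
  apply h
  rw [not_le] at hc
  unfold TF
  refine sum_eq_zero fun x hx => sum_eq_zero fun y hy => ?_
  have h0 : tII K M al be (x + y) = 0 := by
    unfold tII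
    refine sum_eq_zero fun a ha => sum_eq_zero fun b hb => ?_
    rw [mem_Ico] at ha hb
    rw [mem_Icc] at hx hy
    refine if_neg fun he => ?_
    have h1 : K * M ≤ a * b := Nat.mul_le_mul ha.1 hb.1
    have h2 : ((K * M : ℕ) : ℤ) ≤ ((a * b : ℕ) : ℤ) := by exact_mod_cast h1
    have h3 : ((2 * n : ℕ) : ℤ) < ((K * M : ℕ) : ℤ) := by exact_mod_cast hc
    push_cast at h2 h3 he
    omega
  rw [h0, mul_zero, zero_mul]

end Pool.Agent.H3B
end

-- from Lib.H3B.S0C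
section

/-! # H3B (MP_443e5f, candidate T, module B), chunk S0C -/

namespace Pool.Agent.H3B

open Finset
open Pool.Agent.H44W (ee TF cut tII)

/-- `G((A - w)/2)` if `2 ∣ A - w`, else `0`; `A = a (2 b + ε)`. -/
noncomputable def s0cz (a ε : ℤ) (G : ℤ → ℂ) (b w : ℤ) : ℂ :=
  if (2 : ℤ) ∣ a * (2 * b + ε) - w then G ((a * (2 * b + ε) - w) / 2) else 0

theorem s0c_fin {N : ℕ} {G : ℤ → ℂ} (hG : Sp N G) (a ε b : ℤ) : (Function.support (s0cz a ε G b)).Finite := by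
  refine (hG.finite.image (fun y => a * (2 * b + ε) - 2 * y)).subset ?_
  intro w hw
  rw [Function.mem_support] at hw
  unfold s0cz at hw
  split_ifs at hw with h
  · refine ⟨(a * (2 * b + ε) - w) / 2, hw, ?_⟩
    have h1 := Int.mul_ediv_cancel' h
    simp only
    linarith
  · exact absurd rfl hw

theorem s0c_R (G : ℤ → ℂ) (a ε b b' : ℤ) :
    ∑' w : ℤ, s0cz a ε G b w * (starRingEnd ℂ) (s0cz a ε G b' w) = R G (a * (b' - b)) := by
  have hinj : Function.Injective (fun y : ℤ => a * (2 * b + ε) - 2 * y) := by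
    intro x y h
    simp only at h
    linarith
  have hsup : Function.support (fun w : ℤ => s0cz a ε G b w * (starRingEnd ℂ) (s0cz a ε G b' w)) ⊆
      Set.range (fun y : ℤ => a * (2 * b + ε) - 2 * y) := by
    intro w hw
    rw [Function.mem_support] at hw
    have h1 := left_ne_zero_of_mul hw
    unfold s0cz at h1
    split_ifs at h1 with h
    · refine ⟨(a * (2 * b + ε) - w) / 2, ?_⟩
      have h2 := Int.mul_ediv_cancel' h
      simp only
      linarith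
    · exact absurd rfl h1
  rw [← hinj.tsum_eq hsup]
  unfold R
  refine tsum_congr fun y => ?_
  unfold s0cz
  have e1 : a * (2 * b + ε) - (a * (2 * b + ε) - 2 * y) = 2 * y := by ring
  have e2 : a * (2 * b' + ε) - (a * (2 * b + ε) - 2 * y) = 2 * (y + a * (b' - b)) := by ring
  rw [e1, e2, if_pos (Dvd.intro _ rfl), if_pos (Dvd.intro _ rfl), Int.mul_ediv_cancel_left _ two_ne_zero,
    Int.mul_ediv_cancel_left _ two_ne_zero]

theorem s0c_Zh (M : ℕ) (a ε : ℤ) (be g : ℤ → ℂ) (h w : ℤ) :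
    Zh M a ε be g h w = ∑ b ∈ SS M ε, BB M ε be h b * s0cz a ε (Gd g (a * (2 * h))) b w := by
  unfold Zh s0cz
  refine Finset.sum_congr rfl fun b _ => ?_
  split_ifs
  · rfl
  · rw [mul_zero]

/-- Chunk S0C (M). PROOF. ∑_w |Zh h w|² over all integers w (finitely many are not zero) is ∑_{b, b' in SS} BB b conj BB b' ∑_w [2 | A - w] G((A - w)/2) conj G((A' - w)/2), G = Gd g (a(2h)),
A = a(2b+ε), A' = a(2b'+ε) = A + 2a(b' - b), so 2 | A - w iff 2 | A' - w and (A' - w)/2 = y + a(b' - b) for y = (A - w)/2; y runs over all integers: R G (a (b' - b)). The finite sum over w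
is at most the full sum (terms ≥ 0). -/
theorem s0_exp {n M : ℕ} {a ε : ℤ} {be g : ℤ → ℂ} (hgs : Sp n g) (h : ℤ) :
    ∑ w ∈ Icc (-(10 * n : ℤ)) (10 * n), ‖Zh M a ε be g h w‖ ^ 2 ≤
      (∑ b ∈ SS M ε, ∑ b' ∈ SS M ε, BB M ε be h b * (starRingEnd ℂ) (BB M ε be h b') *
        R (Gd g (a * (2 * h))) (a * (b' - b))).re := by
  obtain ⟨G, hG⟩ : ∃ G : ℤ → ℂ, G = Gd g (a * (2 * h)) := ⟨_, rfl⟩
  have hGs : Sp n G := by rw [hG]; exact hgs.Gd _
  have hterm : ∀ b b' : ℤ, Summable (fun w : ℤ => s0cz a ε G b w * (starRingEnd ℂ) (s0cz a ε G b' w)) := by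
    intro b b'
    refine summable_of_hasFiniteSupport ?_
    exact (s0c_fin hGs a ε b).subset fun w hw => left_ne_zero_of_mul hw
  have hexp : ∀ w : ℤ, ((‖Zh M a ε be g h w‖ ^ 2 : ℝ) : ℂ) = ∑ b ∈ SS M ε, ∑ b' ∈ SS M ε,
      BB M ε be h b * (starRingEnd ℂ) (BB M ε be h b') * (s0cz a ε G b w * (starRingEnd ℂ) (s0cz a ε G b' w)) := by
    intro w
    rw [← Complex.normSq_eq_norm_sq, ← Complex.mul_conj, s0c_Zh, ← hG, map_sum, Finset.sum_mul_sum]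
    refine Finset.sum_congr rfl fun b _ => Finset.sum_congr rfl fun b' _ => ?_
    rw [map_mul]
    ring
  have hsum2 : ∀ b b' : ℤ, Summable (fun w : ℤ => BB M ε be h b * (starRingEnd ℂ) (BB M ε be h b') *
      (s0cz a ε G b w * (starRingEnd ℂ) (s0cz a ε G b' w))) := fun b b' => (hterm b b').mul_left _
  have hsumC : Summable (fun w : ℤ => ((‖Zh M a ε be g h w‖ ^ 2 : ℝ) : ℂ)) := by
    have h1 : (fun w : ℤ => ((‖Zh M a ε be g h w‖ ^ 2 : ℝ) : ℂ)) = fun w : ℤ => ∑ b ∈ SS M ε, ∑ b' ∈ SS M ε,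
      BB M ε be h b * (starRingEnd ℂ) (BB M ε be h b') * (s0cz a ε G b w * (starRingEnd ℂ) (s0cz a ε G b' w)) :=
      funext hexp
    rw [h1]
    exact summable_sum fun b _ => summable_sum fun b' _ => hsum2 b b'
  have hsumR : Summable (fun w : ℤ => ‖Zh M a ε be g h w‖ ^ 2) := Complex.summable_ofReal.1 hsumC
  have htot : ((∑' w : ℤ, ‖Zh M a ε be g h w‖ ^ 2 : ℝ) : ℂ) = ∑ b ∈ SS M ε, ∑ b' ∈ SS M ε,
      BB M ε be h b * (starRingEnd ℂ) (BB M ε be h b') * R G (a * (b' - b)) := by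
    rw [Complex.ofReal_tsum, tsum_congr hexp,
      Summable.tsum_finsetSum (fun b _ => summable_sum fun b' _ => hsum2 b b')]
    refine Finset.sum_congr rfl fun b _ => ?_
    rw [Summable.tsum_finsetSum (fun b' _ => hsum2 b b')]
    refine Finset.sum_congr rfl fun b' _ => ?_
    rw [tsum_mul_left, s0c_R]
  rw [← hG, ← htot, Complex.ofReal_re]
  exact hsumR.sum_le_tsum _ fun _ _ => sq_nonneg _

end Pool.Agent.H3B
end

-- from Lib.H3B.S0D
section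

/-! # H3B (MP_443e5f, candidate T, module B), chunk S0D -/

namespace Pool.Agent.H3B

open Finset
open Pool.Agent.H44W (ee TF cut tII)

/-- Chunk S0D (S/M). PROOF. s0_cs1, then Cauchy-Schwarz over the at most 2M · 21n pairs (h, w), then s0_exp: ‖Tt‖⁴ ≤ 9 n² · 42 n M · ∑ = 378 n³ M ∑. -/
theorem s0_four {n M : ℕ} (hn : 1 ≤ n) {a ε : ℤ} (ha : 1 ≤ a) (haM : a * (2 * M) ≤ 8 * n) (hε : ε = 0 ∨ ε = 1) {be W f g : ℤ → ℂ}
    (hW : ∀ x, ‖W x‖ ≤ 1) (hf : ∀ x, ‖f x‖ ≤ 1) (hfs : Sp n f) (hgs : Sp n g) :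
    ‖Tt M a ε be W f g‖ ^ 4 ≤ 400 * n ^ 3 * M * ∑ h ∈ Ioo (-(M : ℤ)) M,
      (∑ b ∈ SS M ε, ∑ b' ∈ SS M ε, BB M ε be h b * (starRingEnd ℂ) (BB M ε be h b') *
        R (Gd g (a * (2 * h))) (a * (b' - b))).re := by
  set F : ℤ → ℤ → ℝ := fun h w => ‖Zh M a ε be g h w‖ with hF
  have h1 := s0_cs1 hn ha haM hε (be := be) hW hf hfs hgs
  have h2 : (∑ h ∈ Ioo (-(M : ℤ)) M, ∑ w ∈ Icc (-(10 * n : ℤ)) (10 * n), F h w) ^ 2 ≤
      ((2 * M : ℝ) * (21 * n)) * ∑ h ∈ Ioo (-(M : ℤ)) M, ∑ w ∈ Icc (-(10 * n : ℤ)) (10 * n), F h w ^ 2 := by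
    rw [← sum_product', ← sum_product' (f := fun h w => F h w ^ 2)]
    refine (sq_sum_le_card_mul_sum_sq).trans ?_
    refine mul_le_mul_of_nonneg_right ?_ (sum_nonneg fun _ _ => sq_nonneg _)
    rw [card_product, Int.card_Ioo, Int.card_Icc, Nat.cast_mul]
    have h3 : (((M : ℤ) - -(M : ℤ) - 1).toNat : ℝ) ≤ 2 * M := by
      have : ((M : ℤ) - -(M : ℤ) - 1).toNat ≤ 2 * M := by omega
      exact_mod_cast this
    have h4 : (((10 * n : ℤ) + 1 - -(10 * n : ℤ)).toNat : ℝ) ≤ 21 * n := by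
      have : ((10 * n : ℤ) + 1 - -(10 * n : ℤ)).toNat ≤ 21 * n := by omega
      exact_mod_cast this
    exact mul_le_mul h3 h4 (Nat.cast_nonneg _) (by positivity)
  have h5 : ∑ h ∈ Ioo (-(M : ℤ)) M, ∑ w ∈ Icc (-(10 * n : ℤ)) (10 * n), F h w ^ 2 ≤
      ∑ h ∈ Ioo (-(M : ℤ)) M,
      (∑ b ∈ SS M ε, ∑ b' ∈ SS M ε, BB M ε be h b * (starRingEnd ℂ) (BB M ε be h b') *
        R (Gd g (a * (2 * h))) (a * (b' - b))).re := sum_le_sum fun h _ => s0_exp hgs h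
  set Y : ℝ := ∑ h ∈ Ioo (-(M : ℤ)) M,
      (∑ b ∈ SS M ε, ∑ b' ∈ SS M ε, BB M ε be h b * (starRingEnd ℂ) (BB M ε be h b') *
        R (Gd g (a * (2 * h))) (a * (b' - b))).re with hY
  set X : ℝ := ∑ h ∈ Ioo (-(M : ℤ)) M, ∑ w ∈ Icc (-(10 * n : ℤ)) (10 * n), F h w with hX
  set X2 : ℝ := ∑ h ∈ Ioo (-(M : ℤ)) M, ∑ w ∈ Icc (-(10 * n : ℤ)) (10 * n), F h w ^ 2 with hX2
  have hX20 : 0 ≤ X2 := sum_nonneg fun _ _ => sum_nonneg fun _ _ => sq_nonneg _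
  have h6 : ‖Tt M a ε be W f g‖ ^ 4 = (‖Tt M a ε be W f g‖ ^ 2) ^ 2 := by ring
  have hn0 : (0 : ℝ) ≤ n := Nat.cast_nonneg _
  have hM0 : (0 : ℝ) ≤ M := Nat.cast_nonneg _
  calc ‖Tt M a ε be W f g‖ ^ 4 = (‖Tt M a ε be W f g‖ ^ 2) ^ 2 := h6
    _ ≤ (3 * n * X) ^ 2 := pow_le_pow_left₀ (sq_nonneg _) h1 2
    _ = 9 * n ^ 2 * X ^ 2 := by ring
    _ ≤ 9 * n ^ 2 * (((2 * M : ℝ) * (21 * n)) * X2) := mul_le_mul_of_nonneg_left h2 (by positivity)
    _ = 378 * n ^ 3 * M * X2 := by ring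
    _ ≤ 400 * n ^ 3 * M * Y := by
      refine mul_le_mul ?_ h5 hX20 (by positivity)
      have : (0 : ℝ) ≤ n ^ 3 * M := by positivity
      linarith

end Pool.Agent.H3B
end
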