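import Pool.Agent.Lib.H59M.M2.M001
import Pool.Agent.Lib.H59M.M2.M011
import Pool.Agent.Lib.H59M.M2.M021
import Pool.Agent.Lib.H59M.M2.M024

/-! Merged copies (to shorten the build) of Lib.H44W.M1, Lib.H84V.V1, Lib.H84V.V2, Lib.H84V.V3, Lib.H9U.U1A. -/

-- from Lib.H44W.M1
section
/-!
CHUNK M1 (M). Type I sums have the inverse property with polynomial loss, uniformly in their level (from class_two and type_one).
Hypothesis hone (proved in H81E): |TF n (psi A' al') W f g| <= 20 A' (1 + log n) n |ghat(th)| for some th.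
Proof. Let I = Nat.log 2 (2n) + 1, so 2n < 2^I and I <= 2 (1 + log n) (1/log 2 < 1.45). For m in [2, 2n] the sum psi A al m splits
according to a in [2^i, 2^(i+1)), i < I (A <= n < 2^I by hA4, n^(1/4) <= n): psi A al m = sum_{i<I} psi_i m, psi_i m =
sum over a in Ico (2^i) (2^(i+1)), a <= A, of [a | m] al a. TF is linear, so some i < I has n^2/(D I) <= |TF n psi_i W f g|; in
particular psi_i is not 0, so 2^i <= A. Put D1 = D I^2.
Case 1: D1^C <= 2^i. For m in [2,2n]: psi_i m = sum_{j<I} tII (2^i) (2^j) al' 1 m with al' a = al a if a <= A, else 0 (a | m, b = m/a lies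
in [1,2n], hence in exactly one [2^j, 2^(j+1))). Some j < I has n^2/D1 <= |TF n (tII (2^i) (2^j) al' 1) W f g|. ClassTwo C with
K = 2^i <= A <= n^(1/4), D1^C <= K, K^2 D1^C <= K^3 <= n^(3/4) <= n, D1 >= D >= 2 (divisor hypothesis: hdiv) gives n/D1^C <= |ghat|.
Case 2: 2^i < D1^C. psi_i = psi (2^(i+1)) al'' with al'' a = al a if 2^i <= a < 2^(i+1) and a <= A, else 0. hone: n^2/(D I) <=
20 * 2^(i+1) (1 + log n) n |ghat| <= 40 D1^C (1+log n) n |ghat|, so |ghat| >= n/(40 D I (1+log n) D1^C).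
In both cases, with D2 = 80 D (1+log n)^2: D1 <= 4 D (1+log n)^2 <= D2 and 40 D I (1+log n) <= D2, so |ghat| >= n/D2^(C+1).
(TF n F only depends on F at the points x + y in [2, 2n]: Finset.sum_congr.)
-/
namespace Pool.Agent.H44W
open Finset

theorem m1_pigeon (I : ℕ) (hI : 1 ≤ I) (z : ℕ → ℂ) (x : ℝ) (h : x ≤ ‖∑ i ∈ range I, z i‖) :
    ∃ i < I, x / I ≤ ‖z i‖ := by
  by_contra hcon
  push Not at hcon
  have hI' : (0:ℝ) < I := by exact_mod_cast hI
  have h1 : ‖∑ i ∈ range I, z i‖ < x := by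
    calc ‖∑ i ∈ range I, z i‖ ≤ ∑ i ∈ range I, ‖z i‖ := norm_sum_le _ _
      _ < ∑ _i ∈ range I, x / I := by
          apply Finset.sum_lt_sum_of_nonempty
          · exact ⟨0, mem_range.2 (by omega)⟩
          · intro i hi
            exact hcon i (mem_range.1 hi)
      _ = x := by
          rw [Finset.sum_const, card_range, nsmul_eq_mul]
          field_simp
  linarith

theorem m1_dyadic (I : ℕ) (F : ℕ → ℂ) :
    ∑ j ∈ range I, ∑ b ∈ Ico (2 ^ j) (2 * 2 ^ j), F b = ∑ b ∈ Ico 1 (2 ^ I), F b := by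
  induction I with
  | zero => simp
  | succ I ih =>
    rw [Finset.sum_range_succ, ih, show 2 * 2 ^ I = 2 ^ (I + 1) by ring]
    exact Finset.sum_Ico_consecutive F Nat.one_le_two_pow (Nat.pow_le_pow_right (by norm_num) (by omega))

/-- the part of the coefficients with `Nat.log 2 a = i` -/
noncomputable def m1_al (A : ℕ) (al : ℕ → ℂ) (i a : ℕ) : ℂ :=
  if 1 ≤ a ∧ a ≤ A ∧ Nat.log 2 a = i then al a else 0

theorem m1_al_supp {A : ℕ} {al : ℕ → ℂ} {i a : ℕ} (h : m1_al A al i a ≠ 0) :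
    1 ≤ a ∧ a ≤ A ∧ 2 ^ i ≤ a ∧ a < 2 ^ (i + 1) := by
  unfold m1_al at h
  by_cases h1 : 1 ≤ a ∧ a ≤ A ∧ Nat.log 2 a = i
  · refine ⟨h1.1, h1.2.1, ?_, ?_⟩
    · rw [← h1.2.2]
      exact Nat.pow_log_le_self 2 (by omega)
    · rw [← h1.2.2]
      exact Nat.lt_pow_succ_log_self (by norm_num) a
  · rw [if_neg h1] at h
    exact absurd rfl h

theorem m1_split (A I : ℕ) (hAI : A < 2 ^ I) (al : ℕ → ℂ) (m : ℤ) :
    psi A al m = ∑ i ∈ range I, psi (2 ^ (i + 1)) (m1_al A al i) m := by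
  have h1 : ∀ i ∈ range I, psi (2 ^ (i + 1)) (m1_al A al i) m =
      ∑ a ∈ Icc 1 A, if (a:ℤ) ∣ m then m1_al A al i a else 0 := by
    intro i _
    unfold psi
    refine Finset.sum_congr_of_eq_on_inter ?_ ?_ ?_
    · intro a ha ha2
      by_contra h
      have h3 : m1_al A al i a ≠ 0 := by
        intro h0
        apply h
        rw [h0, ite_self]
      have := m1_al_supp h3
      exact ha2 (mem_Icc.2 ⟨this.1, this.2.1⟩)
    · intro a ha ha2
      by_contra h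
      have h3 : m1_al A al i a ≠ 0 := by
        intro h0
        apply h
        rw [h0, ite_self]
      have := m1_al_supp h3
      exact ha2 (mem_Icc.2 ⟨this.1, this.2.2.2.le⟩)
    · intro a _ _
      rfl
  rw [Finset.sum_congr rfl h1, Finset.sum_comm]
  unfold psi
  refine Finset.sum_congr rfl fun a ha => ?_
  rw [mem_Icc] at ha
  by_cases h : (a:ℤ) ∣ m
  · simp only [if_pos h]
    have h2 : ∀ i ∈ range I, m1_al A al i a = if Nat.log 2 a = i then al a else 0 := by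
      intro i _
      unfold m1_al
      by_cases h3 : Nat.log 2 a = i
      · rw [if_pos h3, if_pos ⟨ha.1, ha.2, h3⟩]
      · rw [if_neg h3, if_neg fun h4 => h3 h4.2.2]
    rw [Finset.sum_congr rfl h2, Finset.sum_ite_eq, if_pos]
    rw [mem_range]
    exact Nat.log_lt_of_lt_pow (by omega) (by omega)
  · simp only [if_neg h]
    simp

theorem m1_tII (n A I i : ℕ) (hI : 2 * n < 2 ^ I) (al : ℕ → ℂ) (m : ℤ) (hm1 : 2 ≤ m)
    (hm2 : m ≤ 2 * n) :
    psi (2 ^ (i + 1)) (m1_al A al i) m =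
      ∑ j ∈ range I, tII (2 ^ i) (2 ^ j) (m1_al A al i) (fun _ => 1) m := by
  obtain ⟨k, rfl⟩ := Int.eq_ofNat_of_zero_le (show 0 ≤ m by omega)
  have hk1 : 1 ≤ k := by omega
  have hk2 : k < 2 ^ I := by omega
  unfold tII
  rw [Finset.sum_comm]
  have h1 : ∀ a ∈ Ico (2 ^ i) (2 * 2 ^ i), ∑ j ∈ range I, ∑ b ∈ Ico (2 ^ j) (2 * 2 ^ j),
      (if ((a * b : ℕ) : ℤ) = (k:ℤ) then m1_al A al i a * 1 else 0) =
      if (a:ℤ) ∣ (k:ℤ) then m1_al A al i a else 0 := by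
    intro a ha
    rw [mem_Ico] at ha
    have ha0 : 0 < a := lt_of_lt_of_le (by positivity) ha.1
    rw [m1_dyadic I (fun b => if ((a * b : ℕ) : ℤ) = (k:ℤ) then m1_al A al i a * 1 else 0)]
    by_cases h : (a:ℤ) ∣ (k:ℤ)
    · rw [if_pos h]
      have h' : a ∣ k := by exact_mod_cast h
      obtain ⟨b, hb⟩ := h'
      have hb1 : 1 ≤ b := by
        rcases Nat.eq_zero_or_pos b with h0 | h0
        · rw [h0, mul_zero] at hb
          omega
        · exact h0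
      have hb2 : b ≤ k := by rw [hb]; exact Nat.le_mul_of_pos_left b ha0
      rw [Finset.sum_eq_single b]
      · rw [if_pos (by rw [hb]), mul_one]
      · intro b' _ hb'
        rw [if_neg]
        intro h2
        apply hb'
        have h3 : a * b' = a * b := by rw [← hb]; exact_mod_cast h2
        exact Nat.eq_of_mul_eq_mul_left ha0 h3
      · intro h2
        exact absurd (mem_Ico.2 ⟨hb1, by omega⟩) h2
    · rw [if_neg h]
      refine Finset.sum_eq_zero fun b _ => ?_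
      rw [if_neg]
      intro h2
      apply h
      exact ⟨b, by rw [← h2]; push_cast; ring⟩
  rw [Finset.sum_congr rfl h1]
  unfold psi
  refine Finset.sum_congr_of_eq_on_inter ?_ ?_ ?_
  · intro a ha ha2
    by_contra h
    have h3 : m1_al A al i a ≠ 0 := by
      intro h0
      apply h
      rw [h0, ite_self]
    have := m1_al_supp h3
    refine ha2 (mem_Ico.2 ⟨this.2.2.1, ?_⟩)
    have h4 : 2 * 2 ^ i = 2 ^ (i + 1) := by ring
    omega
  · intro a ha ha2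
    by_contra h
    have h3 : m1_al A al i a ≠ 0 := by
      intro h0
      apply h
      rw [h0, ite_self]
    have := m1_al_supp h3
    exact ha2 (mem_Icc.2 ⟨this.1, this.2.2.2.le⟩)
  · intro a _ _
    rfl

theorem psi_cf (C : ℕ) (h2 : ClassTwo C)
    (hone : ∀ (n A : ℕ) (al : ℕ → ℂ), 1 ≤ n → (∀ a, ‖al a‖ ≤ 1) → ∀ W f g : ℤ → ℂ,
      (∀ x, ‖W x‖ ≤ 1) → (∀ x, ‖f x‖ ≤ 1) → (∀ x, ‖g x‖ ≤ 1) →
      ∃ th : ℝ, ‖TF n (psi A al) W f g‖ ≤
        20 * A * (1 + Real.log n) * n * ‖∑ z ∈ Icc (1:ℤ) n, g z * ee (th * z)‖)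
    (n A : ℕ) (hn : 2 ≤ n) (hA4 : (A:ℝ) ≤ (n:ℝ) ^ (1 / 4 : ℝ)) (D : ℝ) (hD : 2 ≤ D)
    (hdiv : ∀ m : ℕ, 1 ≤ m → m ≤ 2 * n → (m.divisors.card : ℝ) ≤ D)
    (al : ℕ → ℂ) (hal : ∀ a, ‖al a‖ ≤ 1) (W f g : ℤ → ℂ) (hW : ∀ x, ‖W x‖ ≤ 1)
    (hf : ∀ x, ‖f x‖ ≤ 1) (hg : ∀ x, ‖g x‖ ≤ 1)
    (hT : (n:ℝ) ^ 2 / D ≤ ‖TF n (psi A al) W f g‖) :
    ∃ th : ℝ, (n:ℝ) / (80 * D * (1 + Real.log n) ^ 2) ^ (C + 1) ≤
      ‖∑ z ∈ Icc (1:ℤ) n, g z * ee (th * z)‖ := by
  obtain ⟨I, hId⟩ : ∃ I : ℕ, I = Nat.log 2 (2 * n) + 1 := ⟨_, rfl⟩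
  have hI1 : 1 ≤ I := by omega
  have hI2 : 2 * n < 2 ^ I := by rw [hId]; exact Nat.lt_pow_succ_log_self (by norm_num) _
  have hnR : (2:ℝ) ≤ n := by exact_mod_cast hn
  have hn0 : (0:ℝ) < n := by linarith
  have hlog : 0 ≤ Real.log n := Real.log_natCast_nonneg n
  have hI3 : (I:ℝ) ≤ 2 * (1 + Real.log n) := by
    have h1 : ((2:ℝ)) ^ (Nat.log 2 (2 * n)) ≤ 2 * n := by
      have := Nat.pow_log_le_self 2 (show 2 * n ≠ 0 by omega)
      exact_mod_cast this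
    have h2 := Real.log_le_log (by positivity) h1
    rw [Real.log_pow, Real.log_mul (by norm_num) hn0.ne'] at h2
    have h3 := Real.log_two_gt_d9
    have h4 : ((Nat.log 2 (2 * n) : ℕ):ℝ) ≤ 1 + 2 * Real.log n := by
      by_contra h5
      push Not at h5
      have h6 : (1 + 2 * Real.log n) * Real.log 2 < (Nat.log 2 (2 * n) : ℕ) * Real.log 2 :=
        mul_lt_mul_of_pos_right h5 (by linarith)
      have h7 : Real.log n * 1 ≤ Real.log n * (2 * Real.log 2) :=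
        mul_le_mul_of_nonneg_left (by linarith) hlog
      nlinarith
    rw [hId]
    push_cast
    linarith
  have hA0 : (A:ℝ) ≤ n := by
    refine hA4.trans ?_
    calc (n:ℝ) ^ (1 / 4 : ℝ) ≤ (n:ℝ) ^ (1:ℝ) :=
          Real.rpow_le_rpow_of_exponent_le (by linarith) (by norm_num)
      _ = n := Real.rpow_one _
  have hAn : A ≤ n := by exact_mod_cast hA0
  have hIR : (1:ℝ) ≤ I := by exact_mod_cast hI1
  have hD0 : 0 < D := by linarith
  -- first pigeonhole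
  have e1 : TF n (psi A al) W f g = ∑ i ∈ range I, TF n (psi (2 ^ (i + 1)) (m1_al A al i)) W f g := by
    rw [← Pool.Agent.H81E.TF_sum]
    exact Pool.Agent.H81E.TF_congr n W f g fun m _ _ => m1_split A I (by omega) al m
  rw [e1] at hT
  obtain ⟨i, hi, hTi⟩ := m1_pigeon I hI1 _ _ hT
  have hpos : 0 < (n:ℝ) ^ 2 / D / I := by positivity
  have hali : ∀ a, ‖m1_al A al i a‖ ≤ 1 := by
    intro a
    unfold m1_al
    by_cases h : 1 ≤ a ∧ a ≤ A ∧ Nat.log 2 a = i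
    · rw [if_pos h]; exact hal a
    · rw [if_neg h, norm_zero]; exact zero_le_one
  have hiA : 2 ^ i ≤ A := by
    by_contra hcon
    have h0 : ∀ a, m1_al A al i a = 0 := by
      intro a
      by_contra h
      have := m1_al_supp h
      omega
    have h1 : TF n (psi (2 ^ (i + 1)) (m1_al A al i)) W f g = 0 := by
      unfold TF psi
      simp only [h0]
      simp
    rw [h1, norm_zero] at hTi
    linarith
  obtain ⟨D1, hD1⟩ : ∃ D1, D1 = D * (I:ℝ) ^ 2 := ⟨_, rfl⟩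
  obtain ⟨D2, hD2⟩ : ∃ D2, D2 = 80 * D * (1 + Real.log n) ^ 2 := ⟨_, rfl⟩
  have hDD1 : D ≤ D1 := by
    rw [hD1]
    have : (1:ℝ) ≤ (I:ℝ) ^ 2 := one_le_pow₀ hIR
    nlinarith
  have hI4 : (I:ℝ) ^ 2 ≤ 4 * (1 + Real.log n) ^ 2 := by
    have := pow_le_pow_left₀ (by positivity) hI3 2
    calc (I:ℝ) ^ 2 ≤ (2 * (1 + Real.log n)) ^ 2 := this
      _ = 4 * (1 + Real.log n) ^ 2 := by ring
  have hD12 : D1 ≤ D2 := by
    rw [hD1, hD2]
    have h1 : D * (I:ℝ) ^ 2 ≤ D * (4 * (1 + Real.log n) ^ 2) := mul_le_mul_of_nonneg_left hI4 hD0.le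
    have h2 : 0 ≤ D * (1 + Real.log n) ^ 2 := by positivity
    linarith
  have hD21 : 1 ≤ D2 := by linarith
  have hD1p : 0 < D1 := by linarith
  have hD2p : 0 < D2 := by linarith
  rw [← hD2]
  by_cases hc : D1 ^ C ≤ ((2 ^ i : ℕ):ℝ)
  · -- case 1
    have e2 : TF n (psi (2 ^ (i + 1)) (m1_al A al i)) W f g =
        ∑ j ∈ range I, TF n (tII (2 ^ i) (2 ^ j) (m1_al A al i) (fun _ => 1)) W f g := by
      rw [← Pool.Agent.H81E.TF_sum]
      exact Pool.Agent.H81E.TF_congr n W f g fun m h1 h2 => m1_tII n A I i hI2 al m h1 h2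
    rw [e2] at hTi
    obtain ⟨j, hj, hTj⟩ := m1_pigeon I hI1 _ _ hTi
    have e3 : (n:ℝ) ^ 2 / D / I / I = (n:ℝ) ^ 2 / D1 := by
      rw [hD1]
      field_simp
    rw [e3] at hTj
    have hK1 : (1:ℝ) ≤ ((2 ^ i : ℕ):ℝ) := by exact_mod_cast Nat.one_le_two_pow
    have hK4 : ((2 ^ i : ℕ):ℝ) ≤ (n:ℝ) ^ (1 / 4 : ℝ) := le_trans (by exact_mod_cast hiA) hA4
    have hK : ((2 ^ i : ℕ):ℝ) ^ 4 ≤ n := by
      have h1 := pow_le_pow_left₀ (by positivity) hK4 4
      have h2 : ((n:ℝ) ^ (1 / 4 : ℝ)) ^ 4 = n := by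
        rw [← Real.rpow_natCast, ← Real.rpow_mul hn0.le]
        norm_num
      linarith
    have hK3 : ((2 ^ i : ℕ):ℝ) ^ 2 * D1 ^ C ≤ n := by
      calc ((2 ^ i : ℕ):ℝ) ^ 2 * D1 ^ C ≤ ((2 ^ i : ℕ):ℝ) ^ 2 * ((2 ^ i : ℕ):ℝ) :=
            mul_le_mul_of_nonneg_left hc (by positivity)
        _ = ((2 ^ i : ℕ):ℝ) ^ 3 := by ring
        _ ≤ ((2 ^ i : ℕ):ℝ) ^ 4 := pow_le_pow_right₀ hK1 (by norm_num)
        _ ≤ n := hK
    obtain ⟨th, hth⟩ := h2 n (2 ^ i) (2 ^ j) D1 (by linarith) (fun m h1 h2 => (hdiv m h1 h2).trans hDD1)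
      hc hK3 (m1_al A al i) (fun _ => 1) hali (by simp) W f g hW hf hg hTj
    refine ⟨th, le_trans ?_ hth⟩
    apply div_le_div_of_nonneg_left hn0.le (by positivity)
    calc D1 ^ C ≤ D2 ^ C := pow_le_pow_left₀ hD1p.le hD12 C
      _ ≤ D2 ^ (C + 1) := pow_le_pow_right₀ hD21 (by omega)
  · -- case 2
    push Not at hc
    obtain ⟨th, hth⟩ := hone n (2 ^ (i + 1)) (m1_al A al i) (by omega) hali W f g hW hf hg
    refine ⟨th, ?_⟩
    obtain ⟨G, hG⟩ : ∃ G, G = ‖∑ z ∈ Icc (1:ℤ) n, g z * ee (th * z)‖ := ⟨_, rfl⟩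
    rw [← hG] at hth ⊢
    have hG0 : 0 ≤ G := by rw [hG]; exact norm_nonneg _
    have h1 : (n:ℝ) ^ 2 / D / I ≤ 40 * D1 ^ C * (1 + Real.log n) * n * G := by
      refine hTi.trans (hth.trans ?_)
      have h2 : ((2 ^ (i + 1) : ℕ):ℝ) ≤ 2 * D1 ^ C := by
        have : ((2 ^ (i + 1) : ℕ):ℝ) = 2 * ((2 ^ i : ℕ):ℝ) := by push_cast; ring
        rw [this]
        linarith
      calc 20 * ((2 ^ (i + 1) : ℕ):ℝ) * (1 + Real.log n) * n * G ≤
          20 * (2 * D1 ^ C) * (1 + Real.log n) * n * G := by gcongr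
        _ = 40 * D1 ^ C * (1 + Real.log n) * n * G := by ring
    have h3 : (n:ℝ) ^ 2 ≤ (40 * D * I * (1 + Real.log n) * D1 ^ C) * n * G := by
      rw [div_div, div_le_iff₀ (by positivity)] at h1
      linarith
    have h4 : (n:ℝ) ≤ (40 * D * I * (1 + Real.log n) * D1 ^ C) * G := by
      have h5 : (n:ℝ) * n ≤ n * ((40 * D * I * (1 + Real.log n) * D1 ^ C) * G) := by nlinarith
      exact le_of_mul_le_mul_left h5 hn0
    have h6 : 40 * D * I * (1 + Real.log n) ≤ D2 := by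
      rw [hD2]
      have h7 : 40 * D * I * (1 + Real.log n) ≤ 40 * D * (2 * (1 + Real.log n)) * (1 + Real.log n) := by gcongr
      refine h7.trans (le_of_eq (by ring))
    have h8 : (40 * D * I * (1 + Real.log n)) * D1 ^ C ≤ D2 ^ (C + 1) := by
      rw [pow_succ, mul_comm (D2 ^ C)]
      apply mul_le_mul h6 (pow_le_pow_left₀ hD1p.le hD12 C) (by positivity) hD2p.le
    rw [div_le_iff₀ (by positivity)]
    calc (n:ℝ) ≤ (40 * D * I * (1 + Real.log n) * D1 ^ C) * G := h4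
      _ ≤ D2 ^ (C + 1) * G := mul_le_mul_of_nonneg_right h8 hG0
      _ = G * D2 ^ (C + 1) := mul_comm _ _

end Pool.Agent.H44W
end

-- from Lib.H84V.V1
section

/-!
# H84V, chunk V1: two close elements
-/

open Finset

namespace Pool.Agent.Lib.H84V

/-- PROOF. Let `m = ⌊2 / η⌋₊`, blocks of length `m + 1 > 2 / η`: the map `s ↦ (s - a) / (m + 1)` (integer division) maps `S` to `Ico 0 b`, `b = (N - 1) / (m + 1) + 1 ≤ N / (m + 1) + 1 < η N / 2 + 1 ≤ η N ≤ |S|` (`η N ≥ 2`), so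
two different elements of `S` have the same image (`Finset.exists_ne_map_eq_of_card_lt_of_maps_to`); their difference is at most `m ≤ 2 / η`. Take the smaller one for `s`. -/
theorem v1_close {N : ℕ} {a : ℤ} {η : ℝ} (hη : 0 < η) (hη1 : η ≤ 1) (hN : 2 / η ≤ N) (S : Finset ℤ)
    (hS : S ⊆ Finset.Ico a (a + N)) (h : η * N ≤ S.card) :
    ∃ s ∈ S, ∃ t ∈ S, s < t ∧ ((t - s : ℤ) : ℝ) ≤ 2 / η := by
  obtain ⟨m, hm⟩ : ∃ m : ℕ, m = ⌊2 / η⌋₊ := ⟨_, rfl⟩
  have hpos : (0 : ℝ) ≤ 2 / η := by positivity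
  have hm1 : (m : ℝ) ≤ 2 / η := by rw [hm]; exact Nat.floor_le hpos
  have hm2 : 2 / η < (m : ℝ) + 1 := by rw [hm]; exact Nat.lt_floor_add_one _
  have hN2 : (2 : ℝ) ≤ η * N := by
    have := (div_le_iff₀ hη).1 hN
    linarith
  have hNp : (1 : ℝ) ≤ N := by
    have h0 : (0 : ℝ) ≤ N := Nat.cast_nonneg _
    nlinarith
  have hN1 : 1 ≤ N := by exact_mod_cast hNp
  have hM : (0 : ℤ) < (m : ℤ) + 1 := by positivity
  obtain ⟨b, hb⟩ : ∃ b : ℤ, b = ((N : ℤ) - 1) / ((m : ℤ) + 1) + 1 := ⟨_, rfl⟩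
  have hb0 : 0 ≤ b := by
    have : 0 ≤ ((N : ℤ) - 1) / ((m : ℤ) + 1) := Int.ediv_nonneg (by omega) hM.le
    omega
  have hMR : (0 : ℝ) < (m : ℝ) + 1 := by positivity
  have hbR : (b : ℝ) < η * N := by
    have h1 : ((((N : ℤ) - 1) / ((m : ℤ) + 1) : ℤ) : ℝ) * ((m : ℝ) + 1) ≤ (N : ℝ) - 1 := by
      have h2 : (((N : ℤ) - 1) / ((m : ℤ) + 1)) * ((m : ℤ) + 1) ≤ (N : ℤ) - 1 := Int.ediv_mul_le _ (ne_of_gt hM)
      have h3 : (((((N : ℤ) - 1) / ((m : ℤ) + 1)) * ((m : ℤ) + 1) : ℤ) : ℝ) ≤ (((N : ℤ) - 1 : ℤ) : ℝ) :=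
        Int.cast_le.2 h2
      push_cast at h3
      exact h3
    have h4 : ((((N : ℤ) - 1) / ((m : ℤ) + 1) : ℤ) : ℝ) < η * N / 2 := by
      by_contra hcon
      push Not at hcon
      have h5 : η * N / 2 * ((m : ℝ) + 1) ≤ (N : ℝ) - 1 := (mul_le_mul_of_nonneg_right hcon hMR.le).trans h1
      have h6 : 2 < ((m : ℝ) + 1) * η := (div_lt_iff₀ hη).1 hm2
      nlinarith
    have h7 : (b : ℝ) = ((((N : ℤ) - 1) / ((m : ℤ) + 1) : ℤ) : ℝ) + 1 := by rw [hb]; push_cast; ring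
    rw [h7]
    linarith
  have hcard : (Finset.Ico (0 : ℤ) b).card < S.card := by
    have h1 : (Finset.Ico (0 : ℤ) b).card = b.toNat := by simp
    rw [h1]
    have h2 : ((b.toNat : ℕ) : ℝ) < (S.card : ℝ) := by
      have h3 : ((b.toNat : ℕ) : ℝ) = (b : ℝ) := by
        have : ((b.toNat : ℕ) : ℤ) = b := Int.toNat_of_nonneg hb0
        exact_mod_cast this
      rw [h3]
      exact hbR.trans_le h
    exact_mod_cast h2
  have hmaps : ∀ s ∈ S, (s - a) / ((m : ℤ) + 1) ∈ Finset.Ico (0 : ℤ) b := by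
    intro s hs
    have hs' := Finset.mem_Ico.1 (hS hs)
    rw [Finset.mem_Ico]
    refine ⟨Int.ediv_nonneg (by omega) hM.le, ?_⟩
    have : (s - a) / ((m : ℤ) + 1) ≤ ((N : ℤ) - 1) / ((m : ℤ) + 1) := Int.ediv_le_ediv hM (by omega)
    omega
  obtain ⟨x, hx, y, hy, hne, hxy⟩ := Finset.exists_ne_map_eq_of_card_lt_of_maps_to hcard hmaps
  have key : ∀ s t : ℤ, (s - a) / ((m : ℤ) + 1) = (t - a) / ((m : ℤ) + 1) → s < t → ((t - s : ℤ) : ℝ) ≤ 2 / η := by
    intro s t hst _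
    have e1 := Int.emod_add_mul_ediv (s - a) ((m : ℤ) + 1)
    have e2 := Int.emod_add_mul_ediv (t - a) ((m : ℤ) + 1)
    have b1 := Int.emod_nonneg (s - a) (ne_of_gt hM)
    have b2 := Int.emod_lt_of_pos (t - a) hM
    rw [hst] at e1
    have h1 : t - s ≤ (m : ℤ) := by linarith
    have h2 : ((t - s : ℤ) : ℝ) ≤ ((m : ℤ) : ℝ) := Int.cast_le.2 h1
    refine h2.trans ?_
    rw [Int.cast_natCast]
    exact hm1
  rcases lt_or_gt_of_ne hne with hlt | hgt
  · exact ⟨x, hx, y, hy, hlt, key x y hxy hlt⟩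
  · exact ⟨y, hy, x, hx, hgt, key y x hxy.symm hgt⟩

end Pool.Agent.Lib.H84V
end

-- from Lib.H84V.V2
section

/-!
# H84V, chunk V2: counting in an arithmetic progression
-/

open Finset

namespace Pool.Agent.Lib.H84V

theorem v2_card_int (S : Finset ℤ) (x y : ℝ) (hxy : x ≤ y) (h : ∀ j ∈ S, x ≤ (j : ℝ) ∧ (j : ℝ) ≤ y) :
    (S.card : ℝ) ≤ y - x + 1 := by
  have hsub : S ⊆ Finset.Icc ⌈x⌉ ⌊y⌋ := by
    intro j hj
    rw [Finset.mem_Icc]
    exact ⟨Int.ceil_le.2 (h j hj).1, Int.le_floor.2 (h j hj).2⟩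
  have h1 := Finset.card_le_card hsub
  rw [Int.card_Icc] at h1
  have h2 : (S.card : ℝ) ≤ (((⌊y⌋ + 1 - ⌈x⌉).toNat : ℕ) : ℝ) := by exact_mod_cast h1
  refine h2.trans ?_
  have h3 : (((⌊y⌋ + 1 - ⌈x⌉).toNat : ℕ) : ℝ) = ((((⌊y⌋ + 1 - ⌈x⌉).toNat : ℕ) : ℤ) : ℝ) := by push_cast; rfl
  rw [h3, Int.toNat_eq_max, Int.cast_max]
  apply max_le
  · push_cast
    have := Int.floor_le y
    have := Int.le_ceil x
    linarith
  · push_cast
    linarith

theorem v2_card_nat (S : Finset ℕ) (x y : ℝ) (hxy : x ≤ y) (h : ∀ j ∈ S, x ≤ (j : ℝ) ∧ (j : ℝ) ≤ y) :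
    (S.card : ℝ) ≤ y - x + 1 := by
  have h1 := v2_card_int (S.map Nat.castEmbedding) x y hxy (by
    intro j hj
    rw [Finset.mem_map] at hj
    obtain ⟨i, hi, rfl⟩ := hj
    have := h i hi
    simpa using this)
  rwa [Finset.card_map] at h1

/-- PROOF. For `j` in the set let `m_j = round (γ + j θ)`, `|γ + j θ - m_j| ≤ e` and `≤ 1/2`. All `m_j` are in a closed interval of length `(L - 1) |θ| + 1` (the numbers `γ + j θ`, `j < L`, are between `γ` and `γ + (L - 1) θ`), so there are at most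
`L |θ| + 2` values of `m`. For each integer `m` the `j` with `|γ + j θ - m| ≤ e` are in a closed interval of length `2 e / |θ|`: at most `2 e / |θ| + 1` of them. `Finset.card_le_mul_card_image` (or `card_eq_sum_card_fiberwise`). -/
theorem v2_count (L : ℕ) (hL : 1 ≤ L) (γ θ e : ℝ) (hθ : θ ≠ 0) (he : 0 ≤ e) :
    (((Finset.range L).filter fun j : ℕ => nd (γ + j * θ) ≤ e).card : ℝ) ≤ (L * |θ| + 2) * (2 * e / |θ| + 1) := by
  have hθ0 : 0 < |θ| := abs_pos.2 hθ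
  have hL1 : (1 : ℝ) ≤ L := by exact_mod_cast hL
  obtain ⟨F, hF⟩ : ∃ F : Finset ℕ, F = (Finset.range L).filter fun j : ℕ => nd (γ + j * θ) ≤ e := ⟨_, rfl⟩
  rw [← hF]
  have hmem : ∀ j ∈ F, j < L ∧ nd (γ + j * θ) ≤ e := by
    intro j hj
    rw [hF, Finset.mem_filter, Finset.mem_range] at hj
    exact hj
  have hq : 0 ≤ 2 * e / |θ| + 1 := by positivity
  -- the fibres
  have hfib : ∀ m ∈ F.image (fun j : ℕ => round (γ + j * θ)),
      (F.filter fun j : ℕ => round (γ + j * θ) = m).card ≤ ⌊2 * e / |θ| + 1⌋₊ := by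
    intro m _
    apply Nat.le_floor
    have h1 := v2_card_nat (F.filter fun j : ℕ => round (γ + j * θ) = m) (((m : ℝ) - γ) / θ - e / |θ|)
      (((m : ℝ) - γ) / θ + e / |θ|) (by
        have : 0 ≤ e / |θ| := by positivity
        linarith) (by
        intro j hj
        rw [Finset.mem_filter] at hj
        have h2 := (hmem j hj.1).2
        unfold nd at h2
        rw [hj.2] at h2
        have h3 : γ + (j : ℝ) * θ - m = ((j : ℝ) - ((m : ℝ) - γ) / θ) * θ := by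
          field_simp
          ring
        rw [h3, abs_mul] at h2
        have h4 : |(j : ℝ) - ((m : ℝ) - γ) / θ| ≤ e / |θ| := (le_div_iff₀ hθ0).2 h2
        have h5 := abs_le.1 h4
        constructor
        · linarith [h5.1]
        · linarith [h5.2])
    refine h1.trans (le_of_eq ?_)
    ring
  have h1 := Finset.card_le_mul_card_image F ⌊2 * e / |θ| + 1⌋₊ hfib
  have h2 : ((F.image (fun j : ℕ => round (γ + j * θ))).card : ℝ) ≤ L * |θ| + 2 := by
    have h3 := v2_card_int (F.image (fun j : ℕ => round (γ + j * θ))) (min γ (γ + (L - 1) * θ) - 1 / 2)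
      (max γ (γ + (L - 1) * θ) + 1 / 2) (by
        have := min_le_max (a := γ) (b := γ + (L - 1) * θ)
        linarith) (by
        intro m hm
        rw [Finset.mem_image] at hm
        obtain ⟨j, hj, rfl⟩ := hm
        have hjL := (hmem j hj).1
        have h4 := abs_le.1 (abs_sub_round (γ + (j : ℝ) * θ))
        have hj0 : (0 : ℝ) ≤ j := Nat.cast_nonneg _
        have hj1 : (j : ℝ) ≤ L - 1 := by
          have : (j : ℝ) + 1 ≤ L := by exact_mod_cast hjL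
          linarith
        rcases le_total 0 θ with hθp | hθn
        · have e1 : min γ (γ + (L - 1) * θ) ≤ γ := min_le_left _ _
          have e2 : γ + (L - 1) * θ ≤ max γ (γ + (L - 1) * θ) := le_max_right _ _
          have e3 : 0 ≤ (j : ℝ) * θ := mul_nonneg hj0 hθp
          have e4 : (j : ℝ) * θ ≤ (L - 1) * θ := mul_le_mul_of_nonneg_right hj1 hθp
          constructor
          · linarith [h4.2]
          · linarith [h4.1]
        · have e1 : min γ (γ + (L - 1) * θ) ≤ γ + (L - 1) * θ := min_le_right _ _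
          have e2 : γ ≤ max γ (γ + (L - 1) * θ) := le_max_left _ _
          have e3 : (j : ℝ) * θ ≤ 0 := mul_nonpos_of_nonneg_of_nonpos hj0 hθn
          have e4 : (L - 1) * θ ≤ (j : ℝ) * θ := mul_le_mul_of_nonpos_right hj1 hθn
          constructor
          · linarith [h4.2]
          · linarith [h4.1])
    refine h3.trans ?_
    have h5 : max γ (γ + (L - 1) * θ) - min γ (γ + (L - 1) * θ) = (L - 1) * |θ| := by
      rw [max_sub_min_eq_abs]
      have : γ + (L - 1) * θ - γ = (L - 1) * θ := by ring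
      rw [this, abs_mul, abs_of_nonneg (by linarith : (0 : ℝ) ≤ L - 1)]
    have h6 : max γ (γ + (L - 1) * θ) + 1 / 2 - (min γ (γ + (L - 1) * θ) - 1 / 2) + 1 = (L - 1) * |θ| + 2 := by
      rw [← h5]
      ring
    rw [h6]
    nlinarith
  calc (F.card : ℝ) ≤ ((⌊2 * e / |θ| + 1⌋₊ * (F.image (fun j : ℕ => round (γ + j * θ))).card : ℕ) : ℝ) := by
        exact_mod_cast h1
    _ = (⌊2 * e / |θ| + 1⌋₊ : ℝ) * ((F.image (fun j : ℕ => round (γ + j * θ))).card : ℝ) := by push_cast; ring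
    _ ≤ (2 * e / |θ| + 1) * (L * |θ| + 2) := by
        apply mul_le_mul (Nat.floor_le hq) h2 (Nat.cast_nonneg _) hq
    _ = (L * |θ| + 2) * (2 * e / |θ| + 1) := by ring

end Pool.Agent.Lib.H84V
end

-- from Lib.H84V.V3
section

/-!
# H84V, chunk V3: Vinogradov lemma
-/

open Finset

namespace Pool.Agent.Lib.H84V

/-- Residue classes: the counting step. -/
theorem v3_card {N : ℕ} {a : ℤ} {α β ε : ℝ} (hε : 0 ≤ ε) (hN : 1 ≤ N) (S : Finset ℤ) (hS : S ⊆ Finset.Ico a (a + N))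
    (hw : ∀ w ∈ S, nd (w * α + β) ≤ ε) (q : ℕ) (hq : 1 ≤ q) (θ : ℝ) (m : ℤ) (hθ : (q : ℝ) * α = θ + m) (hθ0 : θ ≠ 0) :
    (S.card : ℝ) ≤ ((((N - 1) / q + 1 : ℕ) : ℝ) * |θ| + 2) * (2 * ε / |θ| + 1) * q := by
  have habs : 0 < |θ| := abs_pos.2 hθ0
  have hB : 0 ≤ ((((N - 1) / q + 1 : ℕ) : ℝ) * |θ| + 2) * (2 * ε / |θ| + 1) := by positivity
  have hz : ∀ w ∈ S, (((w - a).toNat : ℕ) : ℤ) = w - a ∧ (w - a).toNat < N := by
    intro w hwS
    have h1 := Finset.mem_Ico.1 (hS hwS)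
    constructor
    · exact Int.toNat_of_nonneg (by omega)
    · omega
  have hmaps : ∀ w ∈ S, (w - a).toNat % q ∈ Finset.range q := by
    intro w _
    rw [Finset.mem_range]
    exact Nat.mod_lt _ hq
  have hfib : ∀ ρ ∈ Finset.range q, (S.filter fun w : ℤ => (w - a).toNat % q = ρ).card ≤
      ⌊((((N - 1) / q + 1 : ℕ) : ℝ) * |θ| + 2) * (2 * ε / |θ| + 1)⌋₊ := by
    intro ρ _
    apply Nat.le_floor
    refine le_trans ?_ (v2_count ((N - 1) / q + 1) (Nat.le_add_left 1 _) (((a : ℝ) + ρ) * α + β) θ ε hθ0 hε)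
    have hle : (S.filter fun w : ℤ => (w - a).toNat % q = ρ).card ≤
        ((Finset.range ((N - 1) / q + 1)).filter fun j : ℕ => nd (((a : ℝ) + ρ) * α + β + j * θ) ≤ ε).card := by
      refine Finset.card_le_card_of_injOn (fun w : ℤ => (w - a).toNat / q) ?_ ?_
      · intro w hwF
        rw [Finset.mem_coe, Finset.mem_filter] at hwF
        obtain ⟨hwS, hρ⟩ := hwF
        obtain ⟨hz1, hz2⟩ := hz w hwS
        rw [Finset.mem_coe, Finset.mem_filter, Finset.mem_range]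
        refine ⟨?_, ?_⟩
        · have : (w - a).toNat / q ≤ (N - 1) / q := Nat.div_le_div_right (by omega)
          exact Nat.lt_succ_of_le this
        · have h1 := hw w hwS
          have h2 : (w - a).toNat = ρ + q * ((w - a).toNat / q) := by
            have := Nat.mod_add_div (w - a).toNat q
            rw [hρ] at this
            exact this.symm
          show nd (((a : ℝ) + ρ) * α + β + (((w - a).toNat / q : ℕ) : ℝ) * θ) ≤ ε
          obtain ⟨j, hj⟩ : ∃ j : ℕ, j = (w - a).toNat / q := ⟨_, rfl⟩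
          rw [← hj] at h2 ⊢
          have h3 : w = a + ρ + q * (j : ℤ) := by
            have h4 : (((w - a).toNat : ℕ) : ℤ) = ρ + q * (j : ℤ) := by exact_mod_cast h2
            rw [hz1] at h4
            linarith
          have h5 : (w : ℝ) = a + ρ + q * (j : ℝ) := by
            have := congrArg (fun x : ℤ => (x : ℝ)) h3
            push_cast at this
            exact this
          have h7 : (q : ℝ) * (j : ℝ) * α = (j : ℝ) * (θ + m) := by
            rw [← hθ]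
            ring
          have h8 : (w : ℝ) * α = ((a : ℝ) + ρ) * α + (q : ℝ) * (j : ℝ) * α := by
            rw [h5]
            ring
          have h6 : (w : ℝ) * α + β = (((a : ℝ) + ρ) * α + β + (j : ℝ) * θ) + (((j : ℤ) * m : ℤ) : ℝ) := by
            rw [h8, h7]
            push_cast
            ring
          rw [h6, nd_add_int] at h1
          exact h1
      · intro w hwF w' hwF' hww
        rw [Finset.mem_coe, Finset.mem_filter] at hwF hwF'
        obtain ⟨hz1, _⟩ := hz w hwF.1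
        obtain ⟨hz1', _⟩ := hz w' hwF'.1
        have h1 := Nat.mod_add_div (w - a).toNat q
        have h2 := Nat.mod_add_div (w' - a).toNat q
        have hww' : (w - a).toNat / q = (w' - a).toNat / q := hww
        rw [hwF.2, hww'] at h1
        rw [hwF'.2] at h2
        have h3 : (w - a).toNat = (w' - a).toNat := h1.symm.trans h2
        have h4 : w - a = w' - a := by rw [← hz1, ← hz1', h3]
        linarith
    exact_mod_cast hle
  have h1 := Finset.card_le_mul_card_image_of_maps_to hmaps _ hfib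
  rw [Finset.card_range] at h1
  calc (S.card : ℝ) ≤ ((⌊((((N - 1) / q + 1 : ℕ) : ℝ) * |θ| + 2) * (2 * ε / |θ| + 1)⌋₊ * q : ℕ) : ℝ) := by
        exact_mod_cast h1
    _ = (⌊((((N - 1) / q + 1 : ℕ) : ℝ) * |θ| + 2) * (2 * ε / |θ| + 1)⌋₊ : ℝ) * q := by
        rw [Nat.cast_mul]
    _ ≤ ((((N - 1) / q + 1 : ℕ) : ℝ) * |θ| + 2) * (2 * ε / |θ| + 1) * q :=
        mul_le_mul_of_nonneg_right (Nat.floor_le hB) (Nat.cast_nonneg _)

/-- PROOF. Let `S` be the set. `v1_close` gives `s < t` in `S`, `q = t - s ≤ 2 / η`; `nd (q α) ≤ 2 ε` (`nd_sub_le`, `q α = (t α + β) - (s α + β)`). Let `θ = q α - round (q α)`, `|θ| = nd (q α)`. If `θ = 0` we are done. Let `L = (N - 1) / q + 1 ≤ N / q + 1`. Every `w` in `S` is `a + ρ + j q`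
with `0 ≤ ρ < q`, `0 ≤ j < L` (division with remainder), and `nd (w α + β) = nd (((a + ρ) α + β) + j θ)` (`nd_add_int`). By `v2_count`: `η N ≤ |S| ≤ q (L |θ| + 2) (2 ε / |θ| + 1) ≤ ((N + q) |θ| + 2 q) (2 ε / |θ| + 1) ≤ 4 ε (N + q) + 2 q + 4 q ε / |θ|`
(`|θ| ≤ 2 ε`); `4 ε N ≤ η N / 4`, `4 ε q + 2 q ≤ 1/2 + 4 / η ≤ 6 / η ≤ η N / 4`, so `η N / 2 ≤ 4 q ε / |θ|`, `|θ| ≤ 8 q ε / (η N) ≤ 16 ε / (η ^ 2 N)`. -/
theorem vino {N : ℕ} {a : ℤ} {α β ε η : ℝ} (hη : 0 < η) (hη1 : η ≤ 1) (hε : 0 ≤ ε) (hε1 : ε ≤ η / 16)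
    (hN : 24 / η ^ 2 ≤ N) (S : Finset ℤ) (hS : S ⊆ Finset.Ico a (a + N)) (h : η * N ≤ S.card)
    (hw : ∀ w ∈ S, nd (w * α + β) ≤ ε) :
    ∃ q : ℕ, 1 ≤ q ∧ (q : ℝ) ≤ 2 / η ∧ nd (q * α) ≤ 16 * ε / (η ^ 2 * N) := by
  have hη2 : 0 < η ^ 2 := by positivity
  have hN24 : 24 ≤ (N : ℝ) * η ^ 2 := (div_le_iff₀ hη2).1 hN
  have hN0 : (0 : ℝ) ≤ N := Nat.cast_nonneg _
  have hNη : 24 ≤ η * ((N : ℝ) * η) := by linarith [show (N : ℝ) * η ^ 2 = η * ((N : ℝ) * η) by ring]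
  have hNη0 : 0 ≤ (N : ℝ) * η := by positivity
  have hNη1 : 24 ≤ (N : ℝ) * η := by nlinarith
  have hN24' : (24 : ℝ) ≤ N := by nlinarith
  have hNpos : (0 : ℝ) < N := by linarith
  have hN1 : 1 ≤ N := by
    have : (1 : ℝ) ≤ N := by linarith
    exact_mod_cast this
  have hN2 : 2 / η ≤ N := by
    rw [div_le_iff₀ hη]
    linarith
  obtain ⟨s, hs, t, ht, hst, hts⟩ := v1_close hη hη1 hN2 S hS h
  obtain ⟨q, hq⟩ : ∃ q : ℕ, (q : ℤ) = t - s := ⟨(t - s).toNat, Int.toNat_of_nonneg (by omega)⟩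
  have hq1 : 1 ≤ q := by omega
  have hqR : (q : ℝ) = (t : ℝ) - s := by
    have := congrArg (fun x : ℤ => (x : ℝ)) hq
    push_cast at this
    exact this
  have hq2 : (q : ℝ) ≤ 2 / η := by
    rw [hqR]
    push_cast at hts
    exact hts
  have hq1R : (1 : ℝ) ≤ q := by exact_mod_cast hq1
  have hqη : (q : ℝ) * η ≤ 2 := (le_div_iff₀ hη).1 hq2
  refine ⟨q, hq1, hq2, ?_⟩
  have hnd : nd (q * α) ≤ 2 * ε := by
    have h1 : (q : ℝ) * α = (t * α + β) - (s * α + β) := by rw [hqR]; ring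
    rw [h1]
    have h2 := nd_sub_le (t * α + β) (s * α + β)
    have h3 := hw t ht
    have h4 := hw s hs
    linarith
  obtain ⟨θ, hθ⟩ : ∃ θ : ℝ, θ = q * α - round (q * α) := ⟨_, rfl⟩
  have hndθ : nd (q * α) = |θ| := by rw [hθ]; rfl
  rw [hndθ]
  rw [hndθ] at hnd
  by_cases hθ0 : θ = 0
  · rw [hθ0, abs_zero]
    positivity
  have habs : 0 < |θ| := abs_pos.2 hθ0
  have hcard := v3_card hε hN1 S hS hw q hq1 θ (round (q * α)) (by rw [hθ]; ring) hθ0
  have hL : (((N - 1) / q + 1 : ℕ) : ℝ) * q ≤ N + q := by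
    have h1 : ((N - 1) / q + 1) * q ≤ N + q := by
      have h2 : (N - 1) / q * q ≤ N - 1 := Nat.div_mul_le_self _ _
      have h3 : ((N - 1) / q + 1) * q = (N - 1) / q * q + q := by ring
      omega
    exact_mod_cast h1
  obtain ⟨L, hLdef⟩ : ∃ L : ℝ, L = (((N - 1) / q + 1 : ℕ) : ℝ) := ⟨_, rfl⟩
  rw [← hLdef] at hcard hL
  have hL0 : 0 ≤ L := by rw [hLdef]; positivity
  -- `x = ε / |θ|`
  obtain ⟨x, hx⟩ : ∃ x : ℝ, x = ε / |θ| := ⟨_, rfl⟩
  have hx0 : 0 ≤ x := by rw [hx]; positivity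
  have hxθ : x * |θ| = ε := by rw [hx]; field_simp
  have h2x : 2 * ε / |θ| = 2 * x := by rw [hx]; ring
  rw [h2x] at hcard
  have hstep : η * N ≤ 4 * ε * (N + q) + 2 * q + 4 * q * x := by
    have h1 : (L * |θ| + 2) * (2 * x + 1) * q = (L * q * |θ| + 2 * q) * (2 * x + 1) := by ring
    have h2 : (L * q * |θ| + 2 * q) * (2 * x + 1) ≤ ((N + q) * |θ| + 2 * q) * (2 * x + 1) := by
      apply mul_le_mul_of_nonneg_right _ (by positivity)
      have := mul_le_mul_of_nonneg_right hL habs.le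
      linarith
    have h3 : ((N + q) * |θ| + 2 * q) * (2 * x + 1) = 2 * (N + q) * (x * |θ|) + (N + q) * |θ| + 4 * q * x + 2 * q := by
      ring
    have h4 : ((N : ℝ) + q) * |θ| ≤ (N + q) * (2 * ε) := mul_le_mul_of_nonneg_left hnd (by positivity)
    rw [hxθ] at h3
    linarith
  have h4 : 4 * ε * N ≤ η * N / 4 := by
    have := mul_le_mul_of_nonneg_right hε1 hN0
    linarith
  have h5 : 4 * ε * q ≤ 1 / 2 := by
    have := mul_le_mul_of_nonneg_right hε1 (by linarith : (0 : ℝ) ≤ q)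
    linarith
  have h6 : 1 / 2 + 2 * (q : ℝ) ≤ η * N / 4 := by
    -- multiply by `η`
    have h7 : (1 / 2 + 2 * (q : ℝ)) * η ≤ (η * N / 4) * η := by nlinarith
    exact le_of_mul_le_mul_right h7 hη
  have h8 : η * N / 2 ≤ 4 * q * x := by linarith
  -- now multiply by `|θ|`
  have h9 : η * N / 2 * |θ| ≤ 4 * q * ε := by
    calc η * N / 2 * |θ| ≤ 4 * q * x * |θ| := mul_le_mul_of_nonneg_right h8 habs.le
      _ = 4 * q * (x * |θ|) := by ring
      _ = 4 * q * ε := by rw [hxθ]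
  rw [le_div_iff₀ (by positivity)]
  have h10 : η * (η * N / 2 * |θ|) ≤ η * (4 * q * ε) := mul_le_mul_of_nonneg_left h9 hη.le
  have h11 : (q : ℝ) * η * (4 * ε) ≤ 2 * (4 * ε) := mul_le_mul_of_nonneg_right hqη (by positivity)
  nlinarith

end Pool.Agent.Lib.H84V
end

-- from Lib.H9U.U1A
section

/-!
# H9U, chunk U1A (M): Fourier expansion of the indicator function of an interval
-/

open Finset

namespace Pool.Agent.H9U

open Pool.Agent.H44W (ee)

theorem u1a_tel (θ : ℝ) (a : ℤ) (n : ℕ) :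
    (1 - ee θ) * ∑ s ∈ Ico a (a + n), ee (θ * s) = ee (θ * a) - ee (θ * (a + n)) := by
  induction n with
  | zero => simp
  | succ n ih =>
    have h1 : Ico a (a + ((n + 1 : ℕ) : ℤ)) = insert (a + n) (Ico a (a + n)) := by
      ext x
      simp only [mem_insert, mem_Ico]
      push_cast
      omega
    rw [h1, sum_insert (by simp), mul_add, ih]
    have h2 : ee (θ * (a + ((n + 1 : ℕ) : ℝ))) = ee θ * ee (θ * ((a + n : ℤ) : ℝ)) := by
      rw [← Pool.Agent.H44W.ee_add]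
      congr 1
      push_cast
      ring
    rw [h2]
    push_cast
    ring

theorem u1a_norm (θ : ℝ) : ‖1 - ee θ‖ = 2 * |Real.sin (Real.pi * θ)| := by
  have h := Complex.norm_exp_I_mul_ofReal_sub_one (2 * Real.pi * θ)
  have h1 : Complex.I * ((2 * Real.pi * θ : ℝ) : ℂ) = 2 * Real.pi * θ * Complex.I := by
    push_cast; ring
  rw [h1] at h
  rw [norm_sub_rev, ee, h]
  have h2 : 2 * Real.pi * θ / 2 = Real.pi * θ := by ring
  rw [h2, norm_mul, Real.norm_eq_abs, Real.norm_eq_abs, abs_of_pos (by norm_num : (0:ℝ) < 2)]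

theorem u1a_sin {x : ℝ} (h0 : 0 ≤ x) (h1 : x ≤ 1) :
    1 ≤ |Real.sin (Real.pi * x)| * (1 / (2 * x) + 1 / (2 * (1 - x))) ∨ x = 0 ∨ x = 1 := by
  by_cases hx0 : x = 0
  · exact Or.inr (Or.inl hx0)
  by_cases hx1 : x = 1
  · exact Or.inr (Or.inr hx1)
  left
  have hp0 : 0 < x := lt_of_le_of_ne h0 (Ne.symm hx0)
  have hp1 : 0 < 1 - x := by
    have := lt_of_le_of_ne h1 hx1
    linarith
  have hpi := Real.pi_pos
  rcases le_total x (1 / 2) with h | h
  · have h2 : 2 / Real.pi * (Real.pi * x) ≤ Real.sin (Real.pi * x) :=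
      Real.mul_le_sin (by positivity) (by nlinarith)
    have h3 : 2 / Real.pi * (Real.pi * x) = 2 * x := by field_simp
    rw [h3] at h2
    have h4 : 2 * x ≤ |Real.sin (Real.pi * x)| := le_trans h2 (le_abs_self _)
    have h5 : 1 = 2 * x * (1 / (2 * x)) := by field_simp
    have h6 : 0 ≤ 1 / (2 * (1 - x)) := by positivity
    have h7 : 0 ≤ 1 / (2 * x) := by positivity
    calc (1:ℝ) = 2 * x * (1 / (2 * x)) := h5
      _ ≤ |Real.sin (Real.pi * x)| * (1 / (2 * x)) := mul_le_mul_of_nonneg_right h4 h7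
      _ ≤ _ := mul_le_mul_of_nonneg_left (by linarith) (abs_nonneg _)
  · have h2 : 2 / Real.pi * (Real.pi * (1 - x)) ≤ Real.sin (Real.pi * (1 - x)) :=
      Real.mul_le_sin (by positivity) (by nlinarith)
    have h3 : 2 / Real.pi * (Real.pi * (1 - x)) = 2 * (1 - x) := by field_simp
    have h3' : Real.sin (Real.pi * (1 - x)) = Real.sin (Real.pi * x) := by
      rw [← Real.sin_pi_sub]; congr 1; ring
    rw [h3, h3'] at h2
    have h4 : 2 * (1 - x) ≤ |Real.sin (Real.pi * x)| := le_trans h2 (le_abs_self _)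
    have h5 : 1 = 2 * (1 - x) * (1 / (2 * (1 - x))) := by field_simp
    have h6 : 0 ≤ 1 / (2 * (1 - x)) := by positivity
    have h7 : 0 ≤ 1 / (2 * x) := by positivity
    calc (1:ℝ) = 2 * (1 - x) * (1 / (2 * (1 - x))) := h5
      _ ≤ |Real.sin (Real.pi * x)| * (1 / (2 * (1 - x))) := mul_le_mul_of_nonneg_right h4 h6
      _ ≤ _ := mul_le_mul_of_nonneg_left (by linarith) (abs_nonneg _)

theorem u1a_geo (M j : ℕ) (hj : 0 < j) (hjM : j < M) (a b : ℤ) :
    ‖∑ s ∈ Ico a b, ee (-((j : ℝ) * s / M))‖ ≤ M * (1 / (2 * (j : ℝ)) + 1 / (2 * ((M : ℝ) - j))) := by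
  have hM0 : (0:ℝ) < M := by exact_mod_cast lt_trans hj hjM
  have hj0 : (0:ℝ) < j := by exact_mod_cast hj
  have hjM' : (0:ℝ) < (M:ℝ) - j := by
    have : (j:ℝ) < M := by exact_mod_cast hjM
    linarith
  rcases le_total b a with hab | hab
  · rw [Ico_eq_empty (by omega), sum_empty, norm_zero]
    positivity
  obtain ⟨n, hn⟩ := Int.le.dest hab
  have hθ : ∀ s : ℤ, ee (-((j : ℝ) * s / M)) = ee (-((j:ℝ) / M) * s) := by
    intro s; congr 1; ring
  rw [sum_congr rfl fun s _ => hθ s, ← hn]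
  have h1 := congrArg norm (u1a_tel (-((j:ℝ) / M)) a n)
  rw [norm_mul, u1a_norm] at h1
  have h2 : ‖ee (-((j:ℝ) / M) * a) - ee (-((j:ℝ) / M) * (a + n))‖ ≤ 2 := by
    refine le_trans (norm_sub_le _ _) ?_
    rw [Pool.Agent.H44W.norm_ee, Pool.Agent.H44W.norm_ee]; norm_num
  have h3 : |Real.sin (Real.pi * -((j:ℝ) / M))| = |Real.sin (Real.pi * ((j:ℝ) / M))| := by
    rw [mul_neg, Real.sin_neg, abs_neg]
  rw [h3] at h1
  set S := ‖∑ s ∈ Ico a (a + n), ee (-((j:ℝ) / M) * s)‖ with hS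
  have hx1 : (j:ℝ) / M < 1 := by rw [div_lt_one hM0]; linarith
  rcases u1a_sin (x := (j:ℝ) / M) (by positivity) hx1.le with h4 | h4 | h4
  · have h5 : (1 / (2 * ((j:ℝ) / M)) + 1 / (2 * (1 - (j:ℝ) / M))) = M * (1 / (2 * (j : ℝ)) + 1 / (2 * ((M : ℝ) - j))) := by
      have : 1 - (j:ℝ) / M = ((M:ℝ) - j) / M := by field_simp
      rw [this]
      field_simp
    rw [h5] at h4
    set R := M * (1 / (2 * (j : ℝ)) + 1 / (2 * ((M : ℝ) - j))) with hR
    have hR0 : 0 ≤ R := by positivity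
    have hS0 : 0 ≤ S := norm_nonneg _
    have h6 : |Real.sin (Real.pi * ((j:ℝ) / M))| * S ≤ 1 := by linarith
    calc S = 1 * S := (one_mul _).symm
      _ ≤ |Real.sin (Real.pi * ((j:ℝ) / M))| * R * S := mul_le_mul_of_nonneg_right h4 hS0
      _ = |Real.sin (Real.pi * ((j:ℝ) / M))| * S * R := by ring
      _ ≤ 1 * R := mul_le_mul_of_nonneg_right h6 hR0
      _ = R := one_mul _
  · exfalso
    have : 0 < (j:ℝ) / M := by positivity
    linarith
  · exfalso; linarith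

/-- Proof. `c_j = (1/M) ∑_{s ∈ A} ee(-j s/M)`, `A = {0 ≤ s < M, u ≤ s < v}` (an interval `Ico u' v'`). Orthogonality (`ee_orth`): the sum over `j`
is `∑_{s ∈ A} [M ∣ m - s]`, i.e. the indicator of `A` at `m` for `0 ≤ m < M`. Size: `|c_0| ≤ 1`; for `0 < j < M` the geometric sum is at
most `2/|1 - ee(-j/M)|` and `|1 - ee(x)| = 2 |sin (π x)| ≥ 4 min(j, M-j)/M` (Jordan), so `‖c_j‖ ≤ 1/(2 min(j, M - j))
≤ 1/(2j) + 1/(2(M-j))`; the sum over `0 < j < M` is at most `∑_{0<j<M} 1/j ≤ 1 + log M` (`harmonic_le_one_add_log`). -/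
theorem U1A_ind (M : ℕ) (hM : 1 ≤ M) (u v : ℤ) : ∃ c : ℕ → ℂ,
    (∀ m : ℤ, 0 ≤ m → m < M → (if u ≤ m ∧ m < v then (1 : ℂ) else 0) = ∑ j ∈ range M, c j * ee ((j : ℝ) * m / M)) ∧
    ∑ j ∈ range M, ‖c j‖ ≤ 4 * (1 + Real.log M) := by
  have hM0 : (0:ℝ) < M := by exact_mod_cast hM
  have hMc : (M:ℂ) ≠ 0 := by
    have : (M:ℝ) ≠ 0 := hM0.ne'
    exact_mod_cast this
  set A : Finset ℤ := Ico (max u 0) (min v M) with hA
  refine ⟨fun j => (1 / (M:ℂ)) * ∑ s ∈ A, ee (-((j : ℝ) * s / M)), ?_, ?_⟩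
  · intro m hm0 hmM
    have h1 : ∀ j ∈ range M, (1 / (M:ℂ)) * (∑ s ∈ A, ee (-((j : ℝ) * s / M))) * ee ((j : ℝ) * m / M) =
        ∑ s ∈ A, (1 / (M:ℂ)) * ee ((j:ℝ) * ((m - s : ℤ) : ℝ) / M) := by
      intro j _
      rw [mul_assoc, sum_mul, mul_sum]
      refine sum_congr rfl fun s _ => ?_
      rw [← Pool.Agent.H44W.ee_add]
      congr 2
      push_cast
      ring
    rw [sum_congr rfl h1, sum_comm]
    have h2 : ∀ s ∈ A, ∑ j ∈ range M, (1 / (M:ℂ)) * ee ((j:ℝ) * ((m - s : ℤ) : ℝ) / M) = if s = m then 1 else 0 := by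
      intro s hs
      rw [← mul_sum, Pool.Agent.H44W.ee_orth M hM]
      rw [hA, mem_Ico] at hs
      have hs0 : 0 ≤ s := le_trans (le_max_right _ _) hs.1
      have hs1 : s < M := lt_of_lt_of_le hs.2 (min_le_right _ _)
      by_cases h : s = m
      · rw [if_pos h, if_pos (by rw [h, sub_self]; exact dvd_zero _), one_div, inv_mul_cancel₀ hMc]
      · rw [if_neg h, if_neg, mul_zero]
        intro hd
        apply h
        have h3 : m - s = 0 := Int.eq_zero_of_abs_lt_dvd hd (by rw [abs_lt]; constructor <;> omega)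
        omega
    rw [sum_congr rfl h2, sum_ite_eq' A m (fun _ => (1:ℂ))]
    by_cases h : u ≤ m ∧ m < v
    · rw [if_pos h, if_pos]
      rw [hA, mem_Ico]
      exact ⟨max_le h.1 hm0, lt_min h.2 hmM⟩
    · rw [if_neg h, if_neg]
      rw [hA, mem_Ico]
      intro h3
      exact h ⟨le_trans (le_max_left _ _) h3.1, lt_of_lt_of_le h3.2 (min_le_left _ _)⟩
  · obtain ⟨K, rfl⟩ : ∃ K, M = K + 1 := ⟨M - 1, by omega⟩
    have hlog : 0 ≤ Real.log ((K + 1 : ℕ) : ℝ) := Real.log_nonneg (by exact_mod_cast hM)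
    have hnorm : ∀ j : ℕ, ‖(1 / ((K + 1 : ℕ):ℂ)) * ∑ s ∈ A, ee (-((j : ℝ) * s / ((K + 1 : ℕ) : ℝ)))‖ =
        (1 / ((K + 1 : ℕ) : ℝ)) * ‖∑ s ∈ A, ee (-((j : ℝ) * s / ((K + 1 : ℕ) : ℝ)))‖ := by
      intro j
      rw [norm_mul, norm_div, norm_one, Complex.norm_natCast]
    rw [sum_range_succ']
    have h0 : ‖(1 / ((K + 1 : ℕ):ℂ)) * ∑ s ∈ A, ee (-(((0 : ℕ) : ℝ) * s / ((K + 1 : ℕ) : ℝ)))‖ ≤ 1 := by
      rw [hnorm]
      have h1 : ‖∑ s ∈ A, ee (-(((0 : ℕ) : ℝ) * s / ((K + 1 : ℕ) : ℝ)))‖ ≤ ((K + 1 : ℕ) : ℝ) := by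
        refine le_trans (norm_sum_le _ _) ?_
        rw [sum_congr rfl fun s _ => Pool.Agent.H44W.norm_ee _, sum_const, nsmul_eq_mul, mul_one]
        have h2 : A.card ≤ K + 1 := by
          rw [hA, Int.card_Ico]
          have e1 : (0:ℤ) ≤ max u 0 := le_max_right _ _
          have e2 : min v ((K + 1 : ℕ) : ℤ) ≤ ((K + 1 : ℕ) : ℤ) := min_le_right _ _
          omega
        exact_mod_cast h2
      calc (1 / ((K + 1 : ℕ) : ℝ)) * ‖∑ s ∈ A, ee (-(((0 : ℕ) : ℝ) * s / ((K + 1 : ℕ) : ℝ)))‖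
          ≤ (1 / ((K + 1 : ℕ) : ℝ)) * ((K + 1 : ℕ) : ℝ) := mul_le_mul_of_nonneg_left h1 (by positivity)
        _ = 1 := by rw [one_div, inv_mul_cancel₀ hM0.ne']
    have h1 : ∀ j ∈ range K, ‖(1 / ((K + 1 : ℕ):ℂ)) * ∑ s ∈ A, ee (-(((j + 1 : ℕ) : ℝ) * s / ((K + 1 : ℕ) : ℝ)))‖ ≤
        1 / 2 * (1 / ((j:ℝ) + 1)) + 1 / 2 * (1 / (((K - 1 - j : ℕ) : ℝ) + 1)) := by
      intro j hj
      rw [mem_range] at hj
      rw [hnorm]
      have h2 := u1a_geo (K + 1) (j + 1) (by omega) (by omega) (max u 0) (min v ((K + 1 : ℕ) : ℤ))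
      rw [← hA] at h2
      calc (1 / ((K + 1 : ℕ) : ℝ)) * ‖∑ s ∈ A, ee (-(((j + 1 : ℕ) : ℝ) * s / ((K + 1 : ℕ) : ℝ)))‖
          ≤ (1 / ((K + 1 : ℕ) : ℝ)) * (((K + 1 : ℕ) : ℝ) * (1 / (2 * ((j + 1 : ℕ) : ℝ)) + 1 / (2 * (((K + 1 : ℕ) : ℝ) - ((j + 1 : ℕ) : ℝ))))) :=
            mul_le_mul_of_nonneg_left h2 (by positivity)
        _ = 1 / (2 * ((j + 1 : ℕ) : ℝ)) + 1 / (2 * (((K + 1 : ℕ) : ℝ) - ((j + 1 : ℕ) : ℝ))) := by
            rw [← mul_assoc, one_div, inv_mul_cancel₀ hM0.ne', one_mul]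
        _ = _ := by
            have e1 : ((K - 1 - j : ℕ) : ℝ) + 1 = (K:ℝ) - j := by
              rw [Nat.cast_sub (by omega), Nat.cast_sub (by omega)]
              push_cast; ring
            rw [e1]
            push_cast
            rw [show (K:ℝ) + 1 - ((j:ℝ) + 1) = (K:ℝ) - j by ring, one_div_mul_one_div, one_div_mul_one_div]
    have hharm : ∑ j ∈ range K, 1 / ((j:ℝ) + 1) ≤ 1 + Real.log ((K + 1 : ℕ) : ℝ) := by
      have e1 := harmonic_le_one_add_log K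
      have e2 : ((harmonic K : ℚ) : ℝ) = ∑ j ∈ range K, 1 / ((j:ℝ) + 1) := by
        rw [harmonic]
        push_cast
        exact sum_congr rfl fun j _ => by rw [one_div]
      rw [← e2]
      refine le_trans e1 ?_
      rcases Nat.eq_zero_or_pos K with hK | hK
      · subst hK
        simp
      · have : Real.log K ≤ Real.log ((K + 1 : ℕ) : ℝ) :=
          Real.log_le_log (by exact_mod_cast hK) (by push_cast; linarith)
        linarith
    have hrefl : ∑ j ∈ range K, 1 / (((K - 1 - j : ℕ) : ℝ) + 1) = ∑ j ∈ range K, 1 / ((j:ℝ) + 1) :=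
      sum_range_reflect (fun j => 1 / ((j:ℝ) + 1)) K
    have h3 := sum_le_sum h1
    rw [sum_add_distrib, ← mul_sum, ← mul_sum, hrefl] at h3
    linarith

end Pool.Agent.H9U
end
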