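import Pool.Agent.Lib.H59M.M2.M030

/-! Merged copies (to shorten the build) of Lib.H21T.B1, Lib.H21T.B2, Lib.H21T.B3, Lib.H21T.B4. -/

-- from Lib.H21T.B1
section

/-!
# Chunk B1 (S/M): a ceiling identity
-/

namespace Pool.Agent.Lib.H21T

open Finset Pool.Agent.SZW

/-- `⌈(u - t j) / s⌉` depends only on `⌈u⌉`. -/
theorem b1_red (s : ℕ) (hs : 1 ≤ s) (m : ℤ) (u : ℝ) : ⌈(u - m) / s⌉ = ⌈((⌈u⌉ : ℝ) - m) / s⌉ := by
  have hs0 : (0 : ℝ) < s := by exact_mod_cast hs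
  apply eq_of_forall_ge_iff
  intro k
  rw [Int.ceil_le, Int.ceil_le, div_le_iff₀ hs0, div_le_iff₀ hs0, sub_le_iff_le_add, sub_le_iff_le_add]
  have h1 : (k : ℝ) * s + m = ((k * s + m : ℤ) : ℝ) := by push_cast; ring
  rw [h1, Int.cast_le, Int.ceil_le]

/-- the ceiling of an integer quotient -/
theorem b1_int (s : ℕ) (hs : 1 ≤ s) (n : ℤ) : ⌈(n : ℝ) / s⌉ = -((-n) / (s : ℤ)) := by
  have hs0 : (0 : ℝ) < s := by exact_mod_cast hs
  have hs1 : (0 : ℤ) < s := by exact_mod_cast hs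
  apply eq_of_forall_ge_iff
  intro k
  rw [Int.ceil_le, div_le_iff₀ hs0]
  have h1 : (k : ℝ) * s = ((k * s : ℤ) : ℝ) := by push_cast; ring
  rw [h1, Int.cast_le, neg_le, Int.le_ediv_iff_mul_le hs1, neg_mul, neg_le_neg_iff]

/-- one step -/
theorem b1_step (s : ℕ) (hs : 1 ≤ s) (n : ℤ) :
    ⌈((n + 1 : ℤ) : ℝ) / s⌉ - ⌈(n : ℝ) / s⌉ = if (s : ℤ) ∣ n then 1 else 0 := by
  have hs1 : (0 : ℤ) < s := by exact_mod_cast hs
  rw [b1_int s hs, b1_int s hs]
  split_ifs with h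
  · obtain ⟨k, rfl⟩ := h
    have h1 : (-((s : ℤ) * k)) / (s : ℤ) = -k := by
      rw [← mul_neg, Int.mul_ediv_cancel_left _ hs1.ne']
    have h2 : (-((s : ℤ) * k + 1)) / (s : ℤ) = -k - 1 := by
      have h3 : -((s : ℤ) * k + 1) = (s - 1) + (-k - 1) * s := by ring
      rw [h3, Int.add_mul_ediv_right _ _ hs1.ne', Int.ediv_eq_zero_of_lt (by omega) (by omega), zero_add]
    rw [h1, h2]
    ring
  · have h4 := Int.emod_add_mul_ediv (-n) s
    have h5 := Int.emod_nonneg (-n) hs1.ne'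
    have h6 : (-n) % (s : ℤ) ≠ 0 := by
      intro h7
      apply h
      exact (dvd_neg).1 (Int.dvd_of_emod_eq_zero h7)
    have h8 := Int.emod_lt_of_pos (-n) hs1
    have h2 : (-(n + 1)) / (s : ℤ) = (-n) / s := by
      have h3 : -(n + 1) = ((-n) % s - 1) + ((-n) / s) * s := by linarith [h4, mul_comm (s : ℤ) ((-n) / s)]
      rw [h3, Int.add_mul_ediv_right _ _ hs1.ne', Int.ediv_eq_zero_of_lt (by omega) (by omega), zero_add]
    rw [h2]
    ring

/-- exactly one `j < s` has `s ∣ n - t j` -/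
theorem b1_one (s t : ℕ) (hs : 1 ≤ s) (hco : Nat.Coprime s t) (n : ℤ) :
    ∑ j ∈ range s, (if (s : ℤ) ∣ n - t * j then (1 : ℤ) else 0) = 1 := by
  have hs1 : (0 : ℤ) < s := by exact_mod_cast hs
  rw [Finset.sum_boole]
  have hco' : IsCoprime (t : ℤ) (s : ℤ) := (Nat.isCoprime_iff_coprime.2 hco).symm
  obtain ⟨a, b, hab⟩ := hco'
  have h1 : (range s).filter (fun j : ℕ => (s : ℤ) ∣ n - t * j) = {((n * a) % s).toNat} := by
    have h5 := Int.emod_nonneg (n * a) hs1.ne'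
    have h6 := Int.emod_lt_of_pos (n * a) hs1
    ext j
    rw [mem_filter, mem_range, mem_singleton]
    constructor
    · rintro ⟨h2, h3⟩
      have h4 : (j : ℤ) % s = (n * a) % s := by
        apply Int.emod_emod_of_dvd _ (dvd_refl _) |>.symm.trans
        rw [Int.emod_emod_of_dvd _ (dvd_refl _)]
        apply (Int.emod_emod_of_dvd _ (dvd_refl _)).symm.trans
        rw [Int.emod_emod_of_dvd _ (dvd_refl _)]
        apply Int.ModEq.symm
        rw [Int.modEq_iff_dvd]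
        have h7 : (j : ℤ) - n * a = (s : ℤ) * (b * j) - a * (n - t * j) := by
          linear_combination (-(j : ℤ)) * hab
        rw [h7]
        exact dvd_sub (Dvd.intro _ rfl) (Dvd.dvd.mul_left h3 _)
      have h8 : (j : ℤ) % s = j := Int.emod_eq_of_lt (by omega) (by exact_mod_cast h2)
      omega
    · rintro rfl
      refine ⟨by omega, ?_⟩
      rw [Int.toNat_of_nonneg h5]
      have h9 := Int.emod_add_mul_ediv (n * a) s
      have h10 : n - t * ((n * a) % s) = (s : ℤ) * (n * b + t * ((n * a) / s)) := by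
        linear_combination (-n) * hab - t * h9
      rw [h10]
      exact Dvd.intro _ rfl
  rw [h1, card_singleton]
  rfl

/-- `c = ∑_{j < s} ⌈- t j / s⌉`. For an integer `k`: `s k ≥ u - t j` iff `s k ≥ ⌈u⌉ - t j`, so `⌈(u - t j) / s⌉ = ⌈(⌈u⌉ - t j) / s⌉` and one may assume `u = n ∈ ℤ`.
For integers `⌈(n + 1 - t j) / s⌉ - ⌈(n - t j) / s⌉` is `1` if `s ∣ n - t j` and `0` otherwise, and as `t` is prime to `s` exactly one `j < s` has `s ∣ n - t j`.
Induction (in both directions) from `n = 0`. -/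
theorem b1 (s t : ℕ) (hs : 1 ≤ s) (hco : Nat.Coprime s t) :
    ∃ c : ℤ, ∀ u : ℝ, ∑ j ∈ range s, ⌈(u - t * j) / s⌉ = ⌈u⌉ + c := by
  have hstep : ∀ n : ℤ, ∑ j ∈ range s, ⌈(((n + 1 : ℤ) : ℝ) - ((t * j : ℤ) : ℝ)) / s⌉ =
      ∑ j ∈ range s, ⌈((n : ℝ) - ((t * j : ℤ) : ℝ)) / s⌉ + 1 := by
    intro n
    have h0 : ∑ j ∈ range s, ⌈(((n + 1 : ℤ) : ℝ) - ((t * j : ℤ) : ℝ)) / s⌉ =
        ∑ j ∈ range s, (⌈((n : ℝ) - ((t * j : ℤ) : ℝ)) / s⌉ + (if (s : ℤ) ∣ n - t * j then (1 : ℤ) else 0)) := by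
      refine Finset.sum_congr rfl fun j _ => ?_
      have h1 := b1_step s hs (n - t * j)
      have h2 : ((n - t * j + 1 : ℤ) : ℝ) = ((n + 1 : ℤ) : ℝ) - ((t * j : ℤ) : ℝ) := by push_cast; ring
      have h3 : ((n - t * j : ℤ) : ℝ) = (n : ℝ) - ((t * j : ℤ) : ℝ) := by push_cast; ring
      rw [h2, h3] at h1
      omega
    rw [h0, Finset.sum_add_distrib, b1_one s t hs hco n]
  have hall : ∀ n : ℤ, ∑ j ∈ range s, ⌈((n : ℝ) - ((t * j : ℤ) : ℝ)) / s⌉ =
      n + ∑ j ∈ range s, ⌈(((0 : ℤ) : ℝ) - ((t * j : ℤ) : ℝ)) / s⌉ := by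
    intro n
    induction n using Int.induction_on with
    | zero => rw [zero_add]
    | succ n ih =>
      rw [hstep, ih]
      ring
    | pred n ih =>
      have h1 := hstep (-(n : ℤ) - 1)
      have h2 : (-(n : ℤ) - 1 + 1) = -(n : ℤ) := by ring
      rw [h2, ih] at h1
      linarith
  refine ⟨∑ j ∈ range s, ⌈(((0 : ℤ) : ℝ) - ((t * j : ℤ) : ℝ)) / s⌉, fun u => ?_⟩
  rw [← hall]
  refine Finset.sum_congr rfl fun j _ => ?_
  have h1 := b1_red s hs (t * j) u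
  have h2 : ((t * j : ℤ) : ℝ) = (t : ℝ) * j := by push_cast; ring
  rw [h2] at h1
  rw [h1, h2]

end Pool.Agent.Lib.H21T
end

-- from Lib.H21T.B2
section

/-!
# Chunk B2 (S): one block
-/

namespace Pool.Agent.Lib.H21T

open Finset Pool.Agent.SZW

/-- With `c` of `b1` let `C = c + t (s - 1) / 2`. `y j ≤ y0 + η - t j / s = (s (y0 + η) - t j) / s`, so `∑ ⌈y j⌉ ≤ ⌈s (y0 + η)⌉ + c ≤ s (y0 + η) + 1 + c`, and
`∑ y j ≥ s y0 - t (s - 1) / 2 - s η`. Lower bound: `∑ ⌈y j⌉ ≥ ⌈s (y0 - η)⌉ + c ≥ s (y0 - η) + c`, `∑ y j ≤ s y0 - t (s - 1) / 2 + s η`. -/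
theorem b2 (s t : ℕ) (hs : 1 ≤ s) (hco : Nat.Coprime s t) :
    ∃ C : ℝ, ∀ (y : ℕ → ℝ) (y0 η : ℝ), (∀ j < s, |y j - (y0 - (t : ℝ) * j / s)| ≤ η) →
      C - 2 * s * η ≤ ∑ j ∈ range s, Fr (y j) ∧ ∑ j ∈ range s, Fr (y j) ≤ C + 1 + 2 * s * η := by
  obtain ⟨c, hc⟩ := b1 s t hs hco
  have hs0 : (0:ℝ) < s := by exact_mod_cast hs
  have hsum : ∑ j ∈ range s, ((t : ℝ) * j / s) = t * (s - 1) / 2 := by
    have h1 : ∑ j ∈ range s, ((t : ℝ) * j / s) = (t : ℝ) / s * ∑ j ∈ range s, (j : ℝ) := by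
      rw [Finset.mul_sum]
      refine Finset.sum_congr rfl fun j _ => ?_
      ring
    have h2 : (∑ j ∈ range s, (j : ℝ)) * 2 = s * (s - 1) := by
      have h3 := Finset.sum_range_id_mul_two s
      have h4 : (((∑ j ∈ range s, j) * 2 : ℕ) : ℝ) = ((s * (s - 1) : ℕ) : ℝ) := by rw [h3]
      rw [Nat.cast_mul, Nat.cast_mul, Nat.cast_sub hs, Nat.cast_sum] at h4
      exact_mod_cast h4
    have h3 : ∑ j ∈ range s, (j : ℝ) = s * (s - 1) / 2 := by linarith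
    rw [h1, h3]
    field_simp
  refine ⟨c + t * (s - 1) / 2, fun y y0 η hy => ?_⟩
  have hup : ∑ j ∈ range s, y j ≤ s * y0 - t * (s - 1) / 2 + s * η := by
    have h1 : ∀ j ∈ range s, y j ≤ y0 - (t : ℝ) * j / s + η := by
      intro j hj
      have := (abs_le.1 (hy j (Finset.mem_range.1 hj))).2
      linarith
    refine (Finset.sum_le_sum h1).trans ?_
    rw [Finset.sum_add_distrib, Finset.sum_sub_distrib, hsum, Finset.sum_const, Finset.sum_const, Finset.card_range,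
      nsmul_eq_mul, nsmul_eq_mul]
  have hlo : s * y0 - t * (s - 1) / 2 - s * η ≤ ∑ j ∈ range s, y j := by
    have h1 : ∀ j ∈ range s, y0 - (t : ℝ) * j / s - η ≤ y j := by
      intro j hj
      have := (abs_le.1 (hy j (Finset.mem_range.1 hj))).1
      linarith
    refine le_trans ?_ (Finset.sum_le_sum h1)
    rw [Finset.sum_sub_distrib, Finset.sum_sub_distrib, hsum, Finset.sum_const, Finset.sum_const, Finset.card_range,
      nsmul_eq_mul, nsmul_eq_mul]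
  have hcup : ∑ j ∈ range s, ((⌈y j⌉ : ℤ) : ℝ) ≤ s * (y0 + η) + 1 + c := by
    have h1 : ∑ j ∈ range s, ⌈y j⌉ ≤ ∑ j ∈ range s, ⌈(s * (y0 + η) - t * j) / (s : ℝ)⌉ := by
      refine Finset.sum_le_sum fun j hj => Int.ceil_le_ceil ?_
      have := (abs_le.1 (hy j (Finset.mem_range.1 hj))).2
      have h2 : (s * (y0 + η) - t * j) / (s : ℝ) = y0 - (t : ℝ) * j / s + η := by field_simp; ring
      rw [h2]
      linarith
    rw [hc] at h1
    have h2 : ∑ j ∈ range s, ((⌈y j⌉ : ℤ) : ℝ) ≤ ((⌈(s : ℝ) * (y0 + η)⌉ : ℤ) : ℝ) + c := by exact_mod_cast h1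
    have h3 := Int.ceil_lt_add_one ((s : ℝ) * (y0 + η))
    linarith
  have hclo : s * (y0 - η) + c ≤ ∑ j ∈ range s, ((⌈y j⌉ : ℤ) : ℝ) := by
    have h1 : ∑ j ∈ range s, ⌈(s * (y0 - η) - t * j) / (s : ℝ)⌉ ≤ ∑ j ∈ range s, ⌈y j⌉ := by
      refine Finset.sum_le_sum fun j hj => Int.ceil_le_ceil ?_
      have := (abs_le.1 (hy j (Finset.mem_range.1 hj))).1
      have h2 : (s * (y0 - η) - t * j) / (s : ℝ) = y0 - (t : ℝ) * j / s - η := by field_simp; ring
      rw [h2]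
      linarith
    rw [hc] at h1
    have h2 : ((⌈(s : ℝ) * (y0 - η)⌉ : ℤ) : ℝ) + c ≤ ∑ j ∈ range s, ((⌈y j⌉ : ℤ) : ℝ) := by exact_mod_cast h1
    have h3 := Int.le_ceil ((s : ℝ) * (y0 - η))
    linarith
  have hF : ∑ j ∈ range s, Fr (y j) = ∑ j ∈ range s, ((⌈y j⌉ : ℤ) : ℝ) - ∑ j ∈ range s, y j := by
    rw [← Finset.sum_sub_distrib]
    rfl
  rw [hF]
  constructor <;> nlinarith

end Pool.Agent.Lib.H21T
end

-- from Lib.H21T.B3
section

/-!
# Chunk B3 (S/M): a sequence of blocks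
-/

namespace Pool.Agent.Lib.H21T

open Finset Pool.Agent.SZW

theorem b3_fr (y z : ℝ) : |Fr z - Fr y| ≤ 1 := by
  unfold Fr
  have h1 := Int.le_ceil y
  have h2 := Int.ceil_lt_add_one y
  have h3 := Int.le_ceil z
  have h4 := Int.ceil_lt_add_one z
  rw [abs_le]
  constructor <;> linarith

theorem b3_blocks (s : ℕ) (f : ℕ → ℝ) (B : ℝ) (n : ℕ) (h : ∀ l < n, |∑ j ∈ range s, f (l * s + j)| ≤ B) :
    |∑ j ∈ range (n * s), f j| ≤ n * B := by
  induction n with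
  | zero => simp
  | succ n ih =>
    have h1 := ih fun l hl => h l (by omega)
    have h2 := h n (by omega)
    rw [Nat.succ_mul, Finset.sum_range_add]
    refine (abs_add_le _ _).trans ?_
    push_cast
    linarith

/-- Cut `range W` into `W / s` blocks of length `s` and a rest of fewer than `s` terms. On a block `b2` holds for `z` and for `y` with the same constant `C`
(`y0 = y (l s)`), so the difference is at most `1 + 4 s η` in absolute value; every single term is at most `1` in absolute value (`0 ≤ Fr < 1`). -/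
theorem b3 (s t W : ℕ) (hs : 1 ≤ s) (hco : Nat.Coprime s t) (y z : ℕ → ℝ) (η : ℝ) (hη : 0 ≤ η)
    (hy : ∀ l j, (l + 1) * s ≤ W → j < s → |y (l * s + j) - (y (l * s) - (t : ℝ) * j / s)| ≤ η)
    (hz : ∀ l j, (l + 1) * s ≤ W → j < s → |z (l * s + j) - (z (l * s) - (t : ℝ) * j / s)| ≤ η) :
    |∑ j ∈ range W, (Fr (z j) - Fr (y j))| ≤ (W : ℝ) / s * (1 + 4 * s * η) + s := by
  obtain ⟨C, hC⟩ := b2 s t hs hco
  have hs' : (0 : ℝ) < s := by exact_mod_cast hs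
  have hbl : ∀ l < W / s, |∑ j ∈ range s, (Fr (z (l * s + j)) - Fr (y (l * s + j)))| ≤ 1 + 4 * s * η := by
    intro l hl
    have hl2 : (l + 1) * s ≤ W := by
      calc (l + 1) * s ≤ (W / s) * s := Nat.mul_le_mul_right s hl
        _ ≤ W := Nat.div_mul_le_self W s
    have h1 := hC (fun j => y (l * s + j)) (y (l * s)) η fun j hj => hy l j hl2 hj
    have h2 := hC (fun j => z (l * s + j)) (z (l * s)) η fun j hj => hz l j hl2 hj
    rw [Finset.sum_sub_distrib, abs_le]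
    constructor
    · linarith [h1.1, h1.2, h2.1, h2.2]
    · linarith [h1.1, h1.2, h2.1, h2.2]
  have h3 := b3_blocks s (fun j => Fr (z j) - Fr (y j)) (1 + 4 * s * η) (W / s) hbl
  have h4 : |∑ j ∈ range (W % s), (Fr (z (W / s * s + j)) - Fr (y (W / s * s + j)))| ≤ s := by
    refine (Finset.abs_sum_le_sum_abs _ _).trans ?_
    have h5 : ∑ j ∈ range (W % s), |Fr (z (W / s * s + j)) - Fr (y (W / s * s + j))| ≤ ∑ _j ∈ range (W % s), (1 : ℝ) :=
      Finset.sum_le_sum fun j _ => b3_fr _ _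
    refine h5.trans ?_
    rw [Finset.sum_const, card_range, nsmul_eq_mul, mul_one]
    exact_mod_cast (Nat.mod_lt W hs).le
  have h6 : W = W / s * s + W % s := by
    rw [Nat.mul_comm]
    exact (Nat.div_add_mod W s).symm
  have h7 : ∑ j ∈ range W, (Fr (z j) - Fr (y j)) = ∑ j ∈ range (W / s * s), (Fr (z j) - Fr (y j)) +
      ∑ j ∈ range (W % s), (Fr (z (W / s * s + j)) - Fr (y (W / s * s + j))) := by
    rw [← Finset.sum_range_add (fun j => Fr (z j) - Fr (y j)), ← h6]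
  rw [h7]
  refine (abs_add_le _ _).trans ?_
  have h8 : ((W / s : ℕ) : ℝ) ≤ (W : ℝ) / s := Nat.cast_div_le
  have h9 : (0 : ℝ) ≤ 1 + 4 * s * η := by positivity
  have h10 := mul_le_mul_of_nonneg_right h8 h9
  linarith

end Pool.Agent.Lib.H21T
end

-- from Lib.H21T.B4
section

/-!
# Chunk B4 (S/M): the slope along a progression
-/

namespace Pool.Agent.Lib.H21T

open Finset Pool.Agent.SZW

/-- For `a' = a + q j`: `yv x' q r a' - yv x' q r a = (x' / a' - x' / a) / q = - x' j / (a a')`, so the expression is `(j / s) (t - s x' / (a a'))`, at most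
`|t - s x' / (a a')| ≤ |t - s x / a0 ^ 2| + s |x / a0 ^ 2 - x / (a a')| + s (x' - x) / (a a') ≤ 1 / S + S / S ^ 2 + S H / A ^ 2 ≤ 3 / S`
(`Ap`, `f2_var`, `hH`). Here `x' = x` or `x' = x + H`, so `0 ≤ x' - x ≤ H`. -/
theorem b4 {A x X S Λ : ℕ} (G : Geo A x X S Λ) {a0 s t x' H q r a j : ℕ} (h0 : A ≤ a0) (hs1 : 1 ≤ s) (hsS : s ≤ S) (hap : Ap x S a0 s t)
    (hx1 : x ≤ x') (hx2 : x' ≤ x + H) (hH : H * S ^ 2 ≤ A ^ 2) (hq : 1 ≤ q) (h1 : a0 ≤ a) (h2 : a + q * j ≤ a0 + Λ) (hj : j ≤ s) :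
    |yv x' q r (a + q * j) - (yv x' q r a - (t : ℝ) * j / s)| ≤ 3 / S := by
  have hA := G.hA
  have hS := G.hS
  have hq' : (0 : ℝ) < q := by exact_mod_cast hq
  have hs' : (0 : ℝ) < s := by exact_mod_cast hs1
  have hS' : (0 : ℝ) < S := by exact_mod_cast hS
  have hA' : (0 : ℝ) < A := by exact_mod_cast hA
  have hAa : (A : ℝ) ≤ a := by exact_mod_cast h0.trans h1
  have ha' : (0 : ℝ) < a := lt_of_lt_of_le hA' hAa
  have hsS' : (s : ℝ) ≤ S := by exact_mod_cast hsS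
  have hj' : (j : ℝ) ≤ s := by exact_mod_cast hj
  have hj0 : (0 : ℝ) ≤ j := by positivity
  obtain ⟨b, hb⟩ : ∃ b : ℕ, b = a + q * j := ⟨_, rfl⟩
  have hbr : (b : ℝ) = a + q * j := by
    rw [hb]
    push_cast
    ring
  rw [← hb] at h2 ⊢
  have hab : a ≤ b := by
    rw [hb]
    exact Nat.le_add_right _ _
  have hab' : (a : ℝ) ≤ b := by exact_mod_cast hab
  have hb0 : (0 : ℝ) < b := lt_of_lt_of_le ha' hab'
  have e1 : yv x' q r b - (yv x' q r a - (t : ℝ) * j / s) = (j / s) * (t - s * ((x' : ℝ) / (a * b))) := by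
    unfold yv
    have e2 : (x' : ℝ) / b - x' / a = - (x' * (q * j)) / (a * b) := by
      field_simp
      rw [hbr]
      ring
    have e3 : ((x' : ℝ) / b - r) / q - ((x' / a - r) / q - (t : ℝ) * j / s) = ((x' : ℝ) / b - x' / a) / q + (t : ℝ) * j / s := by
      ring
    rw [e3, e2]
    field_simp
    ring
  have hv := f2_var G h0 h1 (by omega : a ≤ a0 + Λ) (h1.trans hab) h2
  unfold Ap at hap
  have hxx : (0 : ℝ) ≤ (x' : ℝ) - x := by
    have : (x : ℝ) ≤ x' := by exact_mod_cast hx1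
    linarith
  have hxH : (x' : ℝ) - x ≤ H := by
    have : (x' : ℝ) ≤ ((x + H : ℕ) : ℝ) := by exact_mod_cast hx2
    push_cast at this
    linarith
  have hH' : (H : ℝ) * S ^ 2 ≤ A ^ 2 := by exact_mod_cast hH
  have hAA : (A : ℝ) ^ 2 ≤ a * b := by
    have := mul_le_mul hAa (hAa.trans hab') hA'.le ha'.le
    nlinarith
  have h3 : s * (((x' : ℝ) - x) / (a * b)) ≤ 1 / S := by
    have h4 : ((x' : ℝ) - x) / (a * b) ≤ H / A ^ 2 := by
      apply div_le_div₀ (by positivity) hxH (by positivity) hAA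
    have h5 : (H : ℝ) / A ^ 2 ≤ 1 / S ^ 2 := by
      rw [div_le_div_iff₀ (by positivity) (by positivity)]
      linarith
    have h6 : (0 : ℝ) ≤ ((x' : ℝ) - x) / (a * b) := by positivity
    calc s * (((x' : ℝ) - x) / (a * b)) ≤ S * (1 / S ^ 2) := mul_le_mul hsS' (h4.trans h5) h6 hS'.le
      _ = 1 / S := by field_simp
  have h3' : 0 ≤ s * (((x' : ℝ) - x) / (a * b)) := by positivity
  have h7 : |(s : ℝ) * ((x : ℝ) / (a0 : ℝ) ^ 2 - (x : ℝ) / ((a : ℝ) * b))| ≤ 1 / S := by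
    rw [abs_mul, abs_of_pos hs']
    calc (s : ℝ) * |(x : ℝ) / (a0 : ℝ) ^ 2 - (x : ℝ) / ((a : ℝ) * b)| ≤ S * (1 / S ^ 2) :=
          mul_le_mul hsS' hv (abs_nonneg _) hS'.le
      _ = 1 / S := by field_simp
  have e4 : (t : ℝ) - s * ((x' : ℝ) / (a * b)) = - (s * (x / (a0 : ℝ) ^ 2) - t) +
      s * ((x : ℝ) / (a0 : ℝ) ^ 2 - (x : ℝ) / ((a : ℝ) * b)) - s * (((x' : ℝ) - x) / (a * b)) := by
    rw [sub_div]
    ring
  have h8 : |(t : ℝ) - s * ((x' : ℝ) / (a * b))| ≤ 3 / S := by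
    have e5 : (3 : ℝ) / S = 1 / S + 1 / S + 1 / S := by ring
    rw [e4, e5]
    rw [abs_le] at hap h7 ⊢
    constructor
    · linarith [hap.1, hap.2, h7.1, h7.2]
    · linarith [hap.1, hap.2, h7.1, h7.2]
  rw [e1, abs_mul]
  have h9 : |(j : ℝ) / s| ≤ 1 := by
    rw [abs_of_nonneg (by positivity), div_le_one hs']
    exact hj'
  calc |(j : ℝ) / s| * |(t : ℝ) - s * ((x' : ℝ) / (a * b))| ≤ 1 * |(t : ℝ) - s * ((x' : ℝ) / (a * b))| :=
        mul_le_mul_of_nonneg_right h9 (abs_nonneg _)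
    _ ≤ 3 / S := by rw [one_mul]; exact h8

end Pool.Agent.Lib.H21T
end
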