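import Pool.Agent.Lib.H59M.M2.M030

/-! Merged copies (to shorten the build) of Lib.H21T.F1, Lib.H21T.G1, Lib.H21T.F4, Lib.H21T.S7, Lib.H21T.S3, Lib.H21T.S5, Lib.H21T.S6. -/

-- from Lib.H21T.F1
section

/-!
# Chunk F1 (S): Dirichlet directions
-/

namespace Pool.Agent.Lib.H21T

open Finset Pool.Agent.SZW

/-- `Real.exists_nat_abs_mul_sub_round_le` gives `k` with `0 < k ≤ S` and `|k ρ - round (k ρ)| ≤ 1 / (S + 1)`. `round (k ρ) ≥ 0` because `k ρ ≥ 0`.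
Divide `k` and `round (k ρ)` by their gcd `g ≥ 1`: `|s ρ - t| ≤ 1 / (g (S + 1)) ≤ 1 / S`. -/
theorem f1 (ρ : ℝ) (hρ : 0 ≤ ρ) (S : ℕ) (hS : 1 ≤ S) :
    ∃ s t : ℕ, 1 ≤ s ∧ s ≤ S ∧ Nat.Coprime s t ∧ |(s : ℝ) * ρ - t| ≤ 1 / S := by
  obtain ⟨k, hk0, hkS, hk⟩ := Real.exists_nat_abs_mul_sub_round_le ρ (n := S) (by omega)
  have hr : 0 ≤ round ((k : ℝ) * ρ) := by
    rw [round_eq]
    apply Int.floor_nonneg.2
    positivity
  obtain ⟨m, hm⟩ := Int.eq_ofNat_of_zero_le hr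
  rw [hm] at hk
  have hg : 0 < Nat.gcd k m := Nat.gcd_pos_of_pos_left _ hk0
  have hSr : (1 : ℝ) ≤ S := by exact_mod_cast hS
  refine ⟨k / Nat.gcd k m, m / Nat.gcd k m, ?_, ?_, ?_, ?_⟩
  · exact Nat.div_pos (Nat.le_of_dvd hk0 (Nat.gcd_dvd_left k m)) hg
  · exact (Nat.div_le_self _ _).trans hkS
  · exact Nat.coprime_div_gcd_div_gcd hg
  · have hg1 : (1 : ℝ) ≤ (Nat.gcd k m : ℕ) := by exact_mod_cast hg
    have hg0 : (0 : ℝ) < (Nat.gcd k m : ℕ) := by linarith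
    rw [Nat.cast_div (Nat.gcd_dvd_left k m) hg0.ne', Nat.cast_div (Nat.gcd_dvd_right k m) hg0.ne']
    have he : (k : ℝ) / (Nat.gcd k m : ℕ) * ρ - (m : ℝ) / (Nat.gcd k m : ℕ) = (k * ρ - m) / (Nat.gcd k m : ℕ) := by
      field_simp
    rw [he, abs_div, abs_of_pos hg0]
    have hk' : |(k : ℝ) * ρ - m| ≤ 1 / (S + 1) := by
      have h2 : (((m : ℕ) : ℤ) : ℝ) = (m : ℝ) := by push_cast; rfl
      rw [← h2]
      exact hk
    calc |(k : ℝ) * ρ - m| / (Nat.gcd k m : ℕ) ≤ |(k : ℝ) * ρ - m| := div_le_self (abs_nonneg _) hg1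
      _ ≤ 1 / (S + 1) := hk'
      _ ≤ 1 / S := one_div_le_one_div_of_le (by linarith) (by linarith)

theorem exists_dir (A1 Λ x S : ℕ) (hS : 1 ≤ S) : ∃ s t : ℕ → ℕ, ∀ n, Dir A1 Λ x S n s t := by
  have h : ∀ i : ℕ, ∃ p : ℕ × ℕ, 1 ≤ p.1 ∧ p.1 ≤ S ∧ Nat.Coprime p.1 p.2 ∧ Ap x S (pa A1 Λ i) p.1 p.2 := by
    intro i
    obtain ⟨s, t, h1, h2, h3, h4⟩ := f1 ((x : ℝ) / ((pa A1 Λ i : ℕ) : ℝ) ^ 2) (by positivity) S hS
    exact ⟨(s, t), h1, h2, h3, h4⟩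
  choose p hp using h
  exact ⟨fun i => (p i).1, fun i => (p i).2, fun n => ⟨fun i _ => (hp i).1, fun i _ => (hp i).2.1, fun i _ => (hp i).2.2.1,
    fun i _ => (hp i).2.2.2⟩⟩

end Pool.Agent.Lib.H21T
end

-- from Lib.H21T.G1
section

/-!
# Chunk G1 (S/M): the geometric parameters
-/

namespace Pool.Agent.Lib.H21T

open Finset Pool.Agent.SZW

/-- `X = ⌈4 u ^ 2⌉₊`, `S = ⌊u ^ 2500⌋₊` (at least `u ^ 2500 / 2`), `Λ = A ^ 3 / (2 * x * S ^ 2)` (natural division). `2 x S ^ 2 ≤ 8 u ^ 5002 A ^ 2 ≤ A ^ 3` as `A ≥ u ^ 9999`, so `Λ ≥ 1`, and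
`⌊y⌋ ≥ y / 2` for `y ≥ 1` gives `hlo`. `Λ ≤ A ^ 3 / (2 x S ^ 2) ≤ A / S ^ 2 ≤ 4 u ^ 5000`; `hlo` gives `A ^ 3 ≤ 4 x Λ S ^ 2 ≤ 16 u ^ 2 A ^ 2 Λ u ^ 5000`. (Never unfold the powers;
products with `← pow_add`, comparisons with `pow_le_pow_right₀`.) -/
theorem g1 (u : ℝ) (hu : 10 ≤ u) (A x : ℕ) (h1 : u ^ 9999 ≤ A) (h2 : (A : ℝ) ≤ u ^ 10000) (h3 : A ^ 2 ≤ 2 * x)
    (h4 : (x : ℝ) ≤ 4 * u ^ 2 * (A : ℝ) ^ 2) :
    ∃ X S Λ : ℕ, Geo A x X S Λ ∧ 4 * u ^ 2 ≤ X ∧ (X : ℝ) ≤ 5 * u ^ 2 ∧ (S : ℝ) ≤ u ^ 2500 ∧ u ^ 2500 ≤ 2 * S ∧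
      (Λ : ℝ) ≤ 4 * u ^ 5000 ∧ (A : ℝ) ≤ 16 * u ^ 5002 * Λ := by
  have hu0 : (0 : ℝ) < u := by linarith
  have hu1 : (1 : ℝ) ≤ u := by linarith
  obtain ⟨v, hv⟩ : ∃ v : ℝ, v = u ^ 2500 := ⟨_, rfl⟩
  have hv1 : 1 ≤ v := by rw [hv]; exact one_le_pow₀ hu1
  have hv0 : 0 < v := by linarith
  have hvv : v ^ 2 = u ^ 5000 := by rw [hv, ← pow_mul]
  obtain ⟨X, hXd⟩ : ∃ X : ℕ, X = ⌈4 * u ^ 2⌉₊ := ⟨_, rfl⟩
  obtain ⟨S, hSd⟩ : ∃ S : ℕ, S = ⌊v⌋₊ := ⟨_, rfl⟩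
  have hX1 : 4 * u ^ 2 ≤ X := by rw [hXd]; exact Nat.le_ceil _
  have hX2 : (X : ℝ) ≤ 5 * u ^ 2 := by
    have h := (Nat.ceil_lt_add_one (show 0 ≤ 4 * u ^ 2 by positivity)).le
    rw [← hXd] at h
    nlinarith
  have hS1 : (S : ℝ) ≤ v := by rw [hSd]; exact Nat.floor_le hv0.le
  have hS2 : v < S + 1 := by rw [hSd]; exact Nat.lt_floor_add_one v
  have hSn : 1 ≤ S := by
    have : (0 : ℝ) < S := by linarith
    have h2 : 0 < S := by exact_mod_cast this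
    omega
  have hSr : (1 : ℝ) ≤ S := by exact_mod_cast hSn
  have hS3 : v ≤ 2 * S := by linarith
  have hA0 : (0 : ℝ) < A := lt_of_lt_of_le (by positivity) h1
  have hAn : 1 ≤ A := by
    have h2 : 0 < A := by exact_mod_cast hA0
    omega
  have h3' : (A : ℝ) ^ 2 ≤ 2 * x := by exact_mod_cast h3
  have hx0 : (0 : ℝ) < x := by
    have : (0 : ℝ) < (A : ℝ) ^ 2 := by positivity
    linarith
  have hxn : 0 < x := by exact_mod_cast hx0
  have hM0 : 0 < 2 * x * S ^ 2 := by positivity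
  have key : 2 * (x : ℝ) * (S : ℝ) ^ 2 ≤ (A : ℝ) ^ 3 := by
    have k1 : (S : ℝ) ^ 2 ≤ u ^ 5000 := by
      rw [← hvv]
      exact pow_le_pow_left₀ (by linarith) hS1 2
    have k2 : 2 * (x : ℝ) * (S : ℝ) ^ 2 ≤ 2 * (4 * u ^ 2 * (A : ℝ) ^ 2) * u ^ 5000 := by
      apply mul_le_mul _ k1 (by positivity) (by positivity)
      linarith
    have k3 : 8 * u ^ 5002 ≤ (A : ℝ) := by
      have k4 : (8 : ℝ) * u ^ 5002 ≤ u * u ^ 5002 := by
        apply mul_le_mul_of_nonneg_right (by linarith) (by positivity)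
      have k5 : u * u ^ 5002 = u ^ 5003 := by rw [← pow_succ']
      have k6 : u ^ 5003 ≤ u ^ 9999 := pow_le_pow_right₀ hu1 (by norm_num)
      linarith
    have k7 : 2 * (4 * u ^ 2 * (A : ℝ) ^ 2) * u ^ 5000 = 8 * u ^ 5002 * (A : ℝ) ^ 2 := by
      have : u ^ 5002 = u ^ 2 * u ^ 5000 := by rw [← pow_add]
      rw [this]
      ring
    have k8 : 8 * u ^ 5002 * (A : ℝ) ^ 2 ≤ (A : ℝ) * (A : ℝ) ^ 2 :=
      mul_le_mul_of_nonneg_right k3 (by positivity)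
    calc 2 * (x : ℝ) * (S : ℝ) ^ 2 ≤ 2 * (4 * u ^ 2 * (A : ℝ) ^ 2) * u ^ 5000 := k2
      _ = 8 * u ^ 5002 * (A : ℝ) ^ 2 := k7
      _ ≤ (A : ℝ) * (A : ℝ) ^ 2 := k8
      _ = (A : ℝ) ^ 3 := by ring
  have keyn : 2 * x * S ^ 2 ≤ A ^ 3 := by exact_mod_cast key
  obtain ⟨L, hLd⟩ : ∃ L : ℕ, L = A ^ 3 / (2 * x * S ^ 2) := ⟨_, rfl⟩
  have hL1 : 1 ≤ L := by
    rw [hLd]
    exact Nat.div_pos keyn hM0
  have hL2 : L * (2 * x * S ^ 2) ≤ A ^ 3 := by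
    rw [hLd]
    exact Nat.div_mul_le_self _ _
  have hL3 : A ^ 3 < (L + 1) * (2 * x * S ^ 2) := by
    rw [hLd, mul_comm]
    exact Nat.lt_mul_div_succ _ hM0
  have hL4 : A ^ 3 ≤ 4 * x * L * S ^ 2 := by
    have h5 : (L + 1) * (2 * x * S ^ 2) ≤ (2 * L) * (2 * x * S ^ 2) := Nat.mul_le_mul_right _ (by omega)
    have h6 : (2 * L) * (2 * x * S ^ 2) = 4 * x * L * S ^ 2 := by ring
    omega
  have hL2r : (L : ℝ) * (2 * x * S ^ 2) ≤ (A : ℝ) ^ 3 := by exact_mod_cast hL2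
  have hL4r : (A : ℝ) ^ 3 ≤ 4 * x * L * S ^ 2 := by exact_mod_cast hL4
  have hLr : (1 : ℝ) ≤ L := by exact_mod_cast hL1
  refine ⟨X, S, L, ⟨hAn, ?_, hSn, hL1, h3, ?_, ?_, hL4⟩, hX1, hX2, ?_, ?_, ?_, ?_⟩
  · have : (0 : ℝ) < X := lt_of_lt_of_le (by positivity) hX1
    have h2 : 0 < X := by exact_mod_cast this
    omega
  · have : (x : ℝ) ≤ X * (A : ℝ) ^ 2 := h4.trans (mul_le_mul_of_nonneg_right hX1 (by positivity))
    exact_mod_cast this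
  · calc 2 * x * L * S ^ 2 = L * (2 * x * S ^ 2) := by ring
      _ ≤ A ^ 3 := hL2
  · rw [← hv]; exact hS1
  · rw [← hv]; exact hS3
  · -- L ≤ 4 u ^ 5000
    have m1 : (L : ℝ) * (S : ℝ) ^ 2 * (A : ℝ) ^ 2 ≤ (A : ℝ) * (A : ℝ) ^ 2 := by
      calc (L : ℝ) * (S : ℝ) ^ 2 * (A : ℝ) ^ 2 ≤ (L : ℝ) * (S : ℝ) ^ 2 * (2 * x) :=
            mul_le_mul_of_nonneg_left h3' (by positivity)
        _ = L * (2 * x * S ^ 2) := by ring
        _ ≤ (A : ℝ) ^ 3 := hL2r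
        _ = (A : ℝ) * (A : ℝ) ^ 2 := by ring
    have m2 : (L : ℝ) * (S : ℝ) ^ 2 ≤ A := le_of_mul_le_mul_right m1 (by positivity)
    have m3 : v ^ 2 ≤ 4 * (S : ℝ) ^ 2 := by
      calc v ^ 2 ≤ (2 * (S : ℝ)) ^ 2 := pow_le_pow_left₀ hv0.le hS3 2
        _ = 4 * (S : ℝ) ^ 2 := by ring
    have m4 : (L : ℝ) * v ^ 2 ≤ 4 * u ^ 5000 * v ^ 2 := by
      calc (L : ℝ) * v ^ 2 ≤ L * (4 * (S : ℝ) ^ 2) := mul_le_mul_of_nonneg_left m3 (by linarith)
        _ = 4 * (L * (S : ℝ) ^ 2) := by ring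
        _ ≤ 4 * u ^ 10000 := by linarith
        _ = 4 * u ^ 5000 * v ^ 2 := by
            rw [hvv, mul_assoc, ← pow_add]
    exact le_of_mul_le_mul_right m4 (by positivity)
  · -- A ≤ 16 u ^ 5002 L
    have k1 : (S : ℝ) ^ 2 ≤ u ^ 5000 := by
      rw [← hvv]
      exact pow_le_pow_left₀ (by linarith) hS1 2
    have m1 : (A : ℝ) * (A : ℝ) ^ 2 ≤ 16 * u ^ 5002 * L * (A : ℝ) ^ 2 := by
      have m0 : (A : ℝ) * (A : ℝ) ^ 2 = (A : ℝ) ^ 3 := by ring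
      rw [m0]
      calc (A : ℝ) ^ (3 : ℕ) ≤ 4 * (x : ℝ) * L * (S : ℝ) ^ (2 : ℕ) := hL4r
        _ ≤ 4 * (x : ℝ) * L * u ^ (5000 : ℕ) := mul_le_mul_of_nonneg_left k1 (by positivity)
        _ = (x : ℝ) * (4 * L * u ^ (5000 : ℕ)) := by ring
        _ ≤ 4 * u ^ 2 * (A : ℝ) ^ 2 * (4 * L * u ^ 5000) := mul_le_mul_of_nonneg_right h4 (by positivity)
        _ = 16 * (u ^ 2 * u ^ 5000) * L * (A : ℝ) ^ 2 := by ring
        _ = 16 * u ^ 5002 * L * (A : ℝ) ^ 2 := by rw [← pow_add]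
    exact le_of_mul_le_mul_right m1 (by positivity)

end Pool.Agent.Lib.H21T
end

-- from Lib.H21T.F4
section

/-!
# Chunk F4 (M): how many pieces have a given direction
-/

namespace Pool.Agent.Lib.H21T

open Finset Pool.Agent.SZW

/-- `f3` with `f i = x / (pa A1 Λ i) ^ 2`, `c = t1 / s1`, `r = 1 / (s1 S)`, `g = 1 / (48 S ^ 2)`, `n = nJ A1 A2 Λ`. If `i < n` then `i ≤ (A2 - A1) / Λ`, so
`pa A1 Λ i = A1 + i Λ ≤ A2 ≤ 2 A`; `hf` is `f2_gap` for `a = pa A1 Λ i` (`pa A1 Λ (i + 1) = pa A1 Λ i + Λ`). If `s i = s1`, `t i = t1`, then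
`|f i - t1 / s1| ≤ 1 / (s1 S)` from `Ap`. `2 r / g = 96 S / s1`. -/
theorem f4 {A x X S Λ A1 A2 : ℕ} (G : Geo A x X S Λ) (h1 : A ≤ A1) (h2 : A1 ≤ A2) (h3 : A2 ≤ 2 * A) {s t : ℕ → ℕ}
    (hD : Dir A1 Λ x S (nJ A1 A2 Λ) s t) (s1 t1 : ℕ) (hs1 : 1 ≤ s1) :
    (((range (nJ A1 A2 Λ)).filter fun i => s i = s1 ∧ t i = t1).card : ℝ) ≤ 96 * S / s1 + 1 := by
  have hS0 : (0 : ℝ) < S := by exact_mod_cast G.hS
  have hs0 : (0 : ℝ) < s1 := by exact_mod_cast hs1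
  have h := f3 (fun i => (x : ℝ) / ((pa A1 Λ i : ℕ) : ℝ) ^ 2) (1 / (48 * (S : ℝ) ^ 2))
    (1 / (s1 * S)) ((t1 : ℝ) / s1) (nJ A1 A2 Λ) (by positivity) (by positivity) (fun i hi => by
      have h4 : i + 1 ≤ (A2 - A1) / Λ := by
        unfold nJ at hi
        omega
      have h5 : (i + 1) * Λ ≤ A2 - A1 := (Nat.le_div_iff_mul_le G.hΛ).1 h4
      have h6 : pa A1 Λ i ≤ 2 * A := by
        unfold pa
        have : i * Λ ≤ (i + 1) * Λ := Nat.mul_le_mul_right _ (Nat.le_succ i)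
        omega
      have h7 : A ≤ pa A1 Λ i := by
        unfold pa
        omega
      have h8 := f2_gap G h7 h6
      have e : ((pa A1 Λ (i + 1) : ℕ) : ℝ) = ((pa A1 Λ i : ℕ) : ℝ) + Λ := by
        unfold pa
        push_cast
        ring
      rw [e]
      linarith)
  have e : 2 * (1 / ((s1 : ℝ) * S)) / (1 / (48 * (S : ℝ) ^ 2)) = 96 * S / s1 := by
    field_simp
    ring
  rw [e] at h
  refine le_trans ?_ h
  have hsub : (range (nJ A1 A2 Λ)).filter (fun i => s i = s1 ∧ t i = t1) ⊆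
      (range (nJ A1 A2 Λ)).filter
        (fun i => |(x : ℝ) / ((pa A1 Λ i : ℕ) : ℝ) ^ 2 - (t1 : ℝ) / s1| ≤ 1 / (s1 * S)) := by
    intro i hi
    rw [mem_filter, mem_range] at hi
    refine mem_filter.2 ⟨mem_range.2 hi.1, ?_⟩
    have h4 := hD.ap i hi.1
    unfold Ap at h4
    rw [hi.2.1, hi.2.2] at h4
    have e2 : (x : ℝ) / ((pa A1 Λ i : ℕ) : ℝ) ^ 2 - (t1 : ℝ) / s1 =
        ((s1 : ℝ) * (x / ((pa A1 Λ i : ℕ) : ℝ) ^ 2) - t1) / s1 := by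
      rw [sub_div, mul_div_cancel_left₀ _ hs0.ne']
    have e3 : 1 / ((s1 : ℝ) * S) = 1 / S / s1 := by
      rw [div_div, mul_comm]
    rw [e2, abs_div, abs_of_pos hs0, e3]
    exact div_le_div_of_nonneg_right h4 hs0.le
  exact_mod_cast card_le_card hsub

/-- `t i ≤ s i x / a ^ 2 + 1 / S ≤ s i X + 1` (`a = pa A1 Λ i ≥ A`, `hX`). So for `s i = s1` there are at most `s1 X + 2 ≤ 3 s1 X` values `t1` of `t i`, each
(`f4`) for at most `96 S / s1 + 1` indices: at most `288 X S + 3 s1 X ≤ 291 X S` indices with `s i = s1` (`s1 ≤ S`), and there are fewer than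
`s0` values `s1 < s0`. -/
theorem f4_small {A x X S Λ A1 A2 : ℕ} (G : Geo A x X S Λ) (h1 : A ≤ A1) (h2 : A1 ≤ A2) (h3 : A2 ≤ 2 * A) {s t : ℕ → ℕ}
    (hD : Dir A1 Λ x S (nJ A1 A2 Λ) s t) (s0 : ℕ) :
    (((range (nJ A1 A2 Λ)).filter fun i => s i < s0).card : ℝ) ≤ 291 * X * s0 * S := by
  have hS0 : (0 : ℝ) < S := by exact_mod_cast G.hS
  have hS1 : (1 : ℝ) ≤ S := by exact_mod_cast G.hS
  have hX1 : (1 : ℝ) ≤ X := by exact_mod_cast G.hX1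
  have hA0 : (0 : ℝ) < A := by exact_mod_cast G.hA
  have hone : ∀ s1 : ℕ, (((range (nJ A1 A2 Λ)).filter fun i => s i = s1).card : ℝ) ≤
      291 * X * S := by
    intro s1
    by_cases hs : 1 ≤ s1 ∧ s1 ≤ S
    · have hs0 : (1 : ℝ) ≤ s1 := by exact_mod_cast hs.1
      have hsS : (s1 : ℝ) ≤ S := by exact_mod_cast hs.2
      have h4 := card_eq_sum_card_fiberwise (f := t)
        (s := (range (nJ A1 A2 Λ)).filter fun i => s i = s1) (t := range (s1 * X + 2)) (by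
          intro i hi
          rw [mem_coe, mem_filter, mem_range] at hi
          rw [mem_coe, mem_range]
          have h5 := hD.ap i hi.1
          unfold Ap at h5
          rw [hi.2] at h5
          have h6 := (abs_le.1 h5).1
          have h7 : (1 : ℝ) / S ≤ 1 := by
            rw [div_le_one hS0]
            exact hS1
          have h8 : (A : ℝ) ≤ ((pa A1 Λ i : ℕ) : ℝ) := by
            have : A ≤ pa A1 Λ i := by
              unfold pa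
              omega
            exact_mod_cast this
          have h9 : (x : ℝ) / ((pa A1 Λ i : ℕ) : ℝ) ^ 2 ≤ X := by
            rw [div_le_iff₀ (pow_pos (lt_of_lt_of_le hA0 h8) 2)]
            have h10 : (x : ℝ) ≤ X * (A : ℝ) ^ 2 := by exact_mod_cast G.hX
            refine h10.trans ?_
            exact mul_le_mul_of_nonneg_left (pow_le_pow_left₀ hA0.le h8 2) (by linarith)
          have h11 : (t i : ℝ) ≤ s1 * X + 1 := by
            have := mul_le_mul_of_nonneg_left h9 (by linarith : (0 : ℝ) ≤ s1)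
            linarith
          have h12 : t i ≤ s1 * X + 1 := by exact_mod_cast h11
          omega)
      rw [h4]
      push_cast
      have h5 : ∀ t1 ∈ range (s1 * X + 2),
          ((((range (nJ A1 A2 Λ)).filter fun i => s i = s1).filter fun i => t i = t1).card : ℝ) ≤
            96 * S / s1 + 1 := by
        intro t1 _
        rw [filter_filter]
        exact f4 G h1 h2 h3 hD s1 t1 hs.1
      refine (sum_le_card_nsmul _ _ _ h5).trans ?_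
      rw [card_range, nsmul_eq_mul]
      push_cast
      have h6 : (s1 : ℝ) * X + 2 ≤ 3 * (s1 * X) := by nlinarith
      have h7 : 0 ≤ 96 * (S : ℝ) / s1 + 1 := by positivity
      refine (mul_le_mul_of_nonneg_right h6 h7).trans ?_
      have e : 3 * ((s1 : ℝ) * X) * (96 * S / s1 + 1) = 288 * X * S + 3 * s1 * X := by
        field_simp
        ring
      rw [e]
      nlinarith
    · have h4 : (range (nJ A1 A2 Λ)).filter (fun i => s i = s1) = ∅ := by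
        rw [filter_eq_empty_iff]
        intro i hi hi2
        rw [mem_range] at hi
        apply hs
        rw [← hi2]
        exact ⟨hD.s1 i hi, hD.sS i hi⟩
      rw [h4, card_empty]
      push_cast
      positivity
  have h4 := card_eq_sum_card_fiberwise (f := s)
    (s := (range (nJ A1 A2 Λ)).filter fun i => s i < s0) (t := range s0) (by
      intro i hi
      rw [mem_coe, mem_filter] at hi
      exact mem_coe.2 (mem_range.2 hi.2))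
  rw [h4]
  push_cast
  have h5 : ∀ s1 ∈ range s0,
      ((((range (nJ A1 A2 Λ)).filter fun i => s i < s0).filter fun i => s i = s1).card : ℝ) ≤
        291 * X * S := by
    intro s1 _
    refine le_trans ?_ (hone s1)
    have : ((range (nJ A1 A2 Λ)).filter fun i => s i < s0).filter (fun i => s i = s1) ⊆
        (range (nJ A1 A2 Λ)).filter fun i => s i = s1 :=
      filter_subset_filter _ (filter_subset _ _)
    exact_mod_cast card_le_card this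
  refine (sum_le_card_nsmul _ _ _ h5).trans (le_of_eq ?_)
  rw [card_range, nsmul_eq_mul]
  ring

end Pool.Agent.Lib.H21T
end

-- from Lib.H21T.S7
section

/-!
# Chunk S7 (S/M): the bad directions
-/

namespace Pool.Agent.Lib.H21T

open Finset Pool.Agent.SZW

/-- `Bd` = image of `{i ∈ Bs : s0 ≤ s i}` under `i ↦ (s i, t i)`. `1 ≤ s i ≤ S`; `1 ≤ t i ≤ 2 X S` by `s2_t`, `s2_t1` (`pa A1 Λ i ≤ A2 ≤ 2 A` for `i < nJ`). At most
`291 X s0 S ≤ |Bs| / 2` of the `i` have `s i < s0` (`f4_small`), each pair `(s1, t1)` with `s1 ≥ s0` comes from at most `96 S / s1 + 1 ≤ 96 S / s0 + 1` indices (`f4`). -/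
theorem s7 {A x X S Λ A1 A2 : ℕ} (G : Geo A x X S Λ) (h1 : A ≤ A1) (h2 : A1 ≤ A2) (h3 : A2 ≤ 2 * A) {s t : ℕ → ℕ}
    (hDir : Dir A1 Λ x S (nJ A1 A2 Λ) s t) {s0 : ℕ} (hs0 : 9 ≤ s0) (Bs : Finset ℕ) (hBs : Bs ⊆ range (nJ A1 A2 Λ))
    (hbig : 582 * (X : ℝ) * s0 * S ≤ Bs.card) :
    ∃ Bd : Finset (ℕ × ℕ), (∀ p ∈ Bd, 1 ≤ p.1 ∧ p.1 ≤ S ∧ 1 ≤ p.2 ∧ p.2 ≤ 2 * X * S) ∧
      (∀ p ∈ Bd, ∃ i ∈ Bs, p = (s i, t i)) ∧ (Bs.card : ℝ) ≤ 2 * (96 * S / s0 + 1) * Bd.card := by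
  classical
  have hA : ∀ i, A ≤ pa A1 Λ i := fun i => by
    unfold pa
    exact h1.trans (Nat.le_add_right _ _)
  have hpa : ∀ i < nJ A1 A2 Λ, pa A1 Λ i ≤ 2 * A := by
    intro i hi
    unfold nJ at hi
    have h4 : i ≤ (A2 - A1) / Λ := by omega
    have h5 : i * Λ ≤ A2 - A1 := (Nat.le_div_iff_mul_le G.hΛ).1 h4
    unfold pa
    omega
  have hlt : ∀ i ∈ Bs, i < nJ A1 A2 Λ := fun i hi => mem_range.1 (hBs hi)
  have hcard1 : (Bs.card : ℝ) ≤ 2 * (Bs.filter fun i => s0 ≤ s i).card := by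
    have h4 : (Bs.filter fun i => s0 ≤ s i).card + (Bs.filter fun i => ¬ s0 ≤ s i).card = Bs.card :=
      card_filter_add_card_filter_not _
    have h5 : (Bs.filter fun i => ¬ s0 ≤ s i).card ≤ ((range (nJ A1 A2 Λ)).filter fun i => s i < s0).card := by
      refine card_le_card fun i hi => ?_
      rw [mem_filter] at hi ⊢
      exact ⟨hBs hi.1, not_le.1 hi.2⟩
    have h6 := f4_small G h1 h2 h3 hDir s0
    have h7 : (((Bs.filter fun i => ¬ s0 ≤ s i).card : ℕ) : ℝ) ≤ 291 * X * s0 * S :=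
      le_trans (by exact_mod_cast h5) h6
    have h8 : (((Bs.filter fun i => s0 ≤ s i).card : ℕ) : ℝ) + ((Bs.filter fun i => ¬ s0 ≤ s i).card : ℕ) = Bs.card := by
      exact_mod_cast h4
    linarith
  refine ⟨(Bs.filter fun i => s0 ≤ s i).image fun i => (s i, t i), ?_, ?_, ?_⟩
  · intro p hp
    rw [mem_image] at hp
    obtain ⟨i, hi, rfl⟩ := hp
    rw [mem_filter] at hi
    have hin := hlt i hi.1
    exact ⟨hDir.s1 i hin, hDir.sS i hin, s2_t1 G (hA i) (hpa i hin) (hs0.trans hi.2) (hDir.ap i hin),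
      s2_t G (hA i) (hDir.sS i hin) (hDir.ap i hin)⟩
  · intro p hp
    rw [mem_image] at hp
    obtain ⟨i, hi, rfl⟩ := hp
    exact ⟨i, (mem_filter.1 hi).1, rfl⟩
  · have hs00 : (0 : ℝ) < s0 := by
      have : (9 : ℝ) ≤ s0 := by exact_mod_cast hs0
      linarith
    have h4 : (((Bs.filter fun i => s0 ≤ s i).card : ℕ) : ℝ) ≤
        (96 * S / s0 + 1) * ((Bs.filter fun i => s0 ≤ s i).image fun i => (s i, t i)).card := by
      rw [card_eq_sum_card_image (fun i => (s i, t i)) (Bs.filter fun i => s0 ≤ s i)]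
      rw [Nat.cast_sum, mul_comm, ← nsmul_eq_mul, ← sum_const]
      refine sum_le_sum fun p hp => ?_
      rw [mem_image] at hp
      obtain ⟨i, hi, rfl⟩ := hp
      rw [mem_filter] at hi
      have hin := hlt i hi.1
      have h5 : ((Bs.filter fun i => s0 ≤ s i).filter fun j => (s j, t j) = (s i, t i)).card ≤
          ((range (nJ A1 A2 Λ)).filter fun j => s j = s i ∧ t j = t i).card := by
        refine card_le_card fun j hj => ?_
        rw [mem_filter, mem_filter] at hj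
        rw [mem_filter]
        exact ⟨hBs hj.1.1, (Prod.mk.injEq _ _ _ _ ▸ hj.2 : s j = s i ∧ t j = t i)⟩
      have h6 := f4 G h1 h2 h3 hDir (s i) (t i) (hDir.s1 i hin)
      refine le_trans (by exact_mod_cast h5) (h6.trans ?_)
      have h7 : (s0 : ℝ) ≤ s i := by exact_mod_cast hi.2
      have h8 : 96 * (S : ℝ) / s i ≤ 96 * S / s0 := div_le_div_of_nonneg_left (by positivity) hs00 h7
      linarith
    linarith

end Pool.Agent.Lib.H21T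
end

-- from Lib.H21T.S3
section

/-!
# Chunk S3 (M): the pairs which leave the region
-/

namespace Pool.Agent.Lib.H21T

open Finset Pool.Agent.SZW

/-- The change of the product. -/
theorem s3_dev {A x X S Λ : ℕ} (G : Geo A x X S Λ) {a0 a1 s t H K D k a b : ℕ} (h0 : A ≤ a0) (h1 : a1 ≤ a0 + Λ)
    (h2 : a1 ≤ 2 * A) (hsS : s ≤ S) (hap : Ap x S a0 s t)
    (hD : (K : ℝ) * (4 * A / S + S * H / A) + 2 * (K : ℝ) ^ 2 * (S : ℝ) ^ 2 * X ≤ D) (hk : k < K)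
    (ha0 : a0 ≤ a) (ha1 : a < a1) (hx1 : x ≤ a * b) (hx2 : a * b < x + H) :
    |(k : ℤ) * ((s : ℤ) * b - t * a)| + (k : ℤ) ^ 2 * s * t ≤ D := by
  have r1 := s2 G h0 hsS hap ha0 (by omega) (by omega) hx1 hx2.le
  have r2 := s2_t G h0 hsS hap
  have hkK : (k : ℝ) ≤ K := by exact_mod_cast hk.le
  have hk0 : (0 : ℝ) ≤ k := Nat.cast_nonneg _
  have hs : (s : ℝ) ≤ S := by exact_mod_cast hsS
  have hs0 : (0 : ℝ) ≤ s := Nat.cast_nonneg _
  have ht : (t : ℝ) ≤ 2 * X * S := by exact_mod_cast r2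
  have ht0 : (0 : ℝ) ≤ t := Nat.cast_nonneg _
  have r3 : |(k : ℝ) * ((s : ℝ) * b - t * a)| ≤ K * (4 * A / S + S * H / A) := by
    rw [abs_mul, abs_of_nonneg hk0]
    exact mul_le_mul hkK r1 (abs_nonneg _) (Nat.cast_nonneg _)
  have r4 : (k : ℝ) ^ 2 * s * t ≤ 2 * (K : ℝ) ^ 2 * (S : ℝ) ^ 2 * X := by
    calc (k : ℝ) ^ 2 * s * t ≤ (K : ℝ) ^ 2 * S * (2 * X * S) := by gcongr
      _ = 2 * (K : ℝ) ^ 2 * (S : ℝ) ^ 2 * X := by ring
  have r5 : |(k : ℝ) * ((s : ℝ) * b - t * a)| + (k : ℝ) ^ 2 * s * t ≤ D := by linarith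
  have r6 : ((|(k : ℤ) * ((s : ℤ) * b - t * a)| + (k : ℤ) ^ 2 * s * t : ℤ) : ℝ) ≤ ((D : ℤ) : ℝ) := by
    push_cast
    exact r5
  exact_mod_cast r6

/-- `RZ` as an image: number of the pairs with a property. -/
theorem s3_card {a0 a1 x H : ℕ} (P : ℤ × ℤ → Prop) [DecidablePred P] :
    ((RZ a0 a1 x H).filter P).card = ((Rg a0 a1 x H).filter fun p => P ((p.1 : ℤ), (p.2 : ℤ))).card := by
  unfold RZ
  rw [Finset.filter_image, Finset.card_image_of_injective]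
  rintro ⟨a, b⟩ ⟨c, d⟩ h
  rw [Prod.mk.injEq] at h
  simp only [Nat.cast_inj] at h
  rw [h.1, h.2]

/-- `(a + k s) (b - k t) = a b + k (s b - t a) - k ^ 2 s t`, and `|k (s b - t a) - k ^ 2 s t| ≤ K (4 A / S + S H / A) + K ^ 2 S (2 X S) ≤ D` by `s2`, `s2_t`
and `hD`. If `(a, b) ∈ RZ a0 a1 x H` (`mem_RZ`), `a + k s < a1`, `x + D ≤ a b` and `a b + D < x + H`, then the shifted pair is in `RZ`. So a pair which leaves
has `a1 - k s ≤ a < a1` (at most `k s ≤ K S` values of `a`: `s4_card`) or is in the boundary set. (`RZ` is the image of `Rg` under the injective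
map to `ℤ × ℤ`.) -/
theorem s3p {A x X S Λ : ℕ} (G : Geo A x X S Λ) {a0 a1 s t H K D k : ℕ} (h0 : A ≤ a0) (h1 : a1 ≤ a0 + Λ) (h2 : a1 ≤ 2 * A)
    (hsS : s ≤ S) (hap : Ap x S a0 s t)
    (hD : (K : ℝ) * (4 * A / S + S * H / A) + 2 * (K : ℝ) ^ 2 * (S : ℝ) ^ 2 * X ≤ D) (hk : k < K) :
    (((RZ a0 a1 x H).filter fun p => (p.1 + (k : ℤ) * s, p.2 - (k : ℤ) * t) ∉ RZ a0 a1 x H).card : ℝ) ≤
      K * S * ((H : ℝ) / A + 1) + ((Rg a0 a1 x H).filter fun p => p.1 * p.2 < x + D ∨ x + H ≤ p.1 * p.2 + D).card := by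
  classical
  have hx : 1 ≤ x := by
    have := G.hx
    have h3 : 1 ≤ A ^ 2 := Nat.one_le_pow _ _ G.hA
    omega
  have ha01 : 1 ≤ a0 := G.hA.trans h0
  rw [s3_card]
  have hsub : (Rg a0 a1 x H).filter (fun p => (((p.1 : ℤ) + (k : ℤ) * s, (p.2 : ℤ) - (k : ℤ) * t) : ℤ × ℤ) ∉ RZ a0 a1 x H) ⊆
      ((Rg a0 a1 x H).filter fun p => p.1 ∈ Ico (a1 - k * s) a1) ∪
        ((Rg a0 a1 x H).filter fun p => p.1 * p.2 < x + D ∨ x + H ≤ p.1 * p.2 + D) := by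
    rintro ⟨a, b⟩ hp
    rw [mem_filter] at hp
    obtain ⟨hp1, hp2⟩ := hp
    have hp3 := (mem_Rg ha01).1 hp1
    simp only at hp2 hp3
    obtain ⟨g1, g2, g3, g4⟩ := hp3
    rw [mem_union, mem_filter, mem_filter]
    by_contra hcon
    rw [not_or] at hcon
    obtain ⟨c1, c2⟩ := hcon
    have c3 : a + k * s < a1 := by
      by_contra hc
      apply c1
      refine ⟨hp1, ?_⟩
      simp only [mem_Ico]
      omega
    have c4 : x + D ≤ a * b ∧ a * b + D < x + H := by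
      by_contra hc
      apply c2
      refine ⟨hp1, ?_⟩
      simp only
      by_contra hc2
      exact hc (by omega)
    have hdev := s3_dev G h0 h1 h2 hsS hap hD hk g1 g2 g3 g4
    apply hp2
    rw [mem_RZ ha01 hx]
    simp only
    have e1 : ((a : ℤ) + (k : ℤ) * s) * ((b : ℤ) - (k : ℤ) * t) =
        (a : ℤ) * b + (k : ℤ) * ((s : ℤ) * b - t * a) - (k : ℤ) ^ 2 * s * t := by ring
    have e2 := neg_abs_le ((k : ℤ) * ((s : ℤ) * b - t * a))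
    have e3 := le_abs_self ((k : ℤ) * ((s : ℤ) * b - t * a))
    have e4 : (0 : ℤ) ≤ (k : ℤ) ^ 2 * s * t := by positivity
    have c5 : (x : ℤ) + D ≤ (a : ℤ) * b := by exact_mod_cast c4.1
    have c6 : (a : ℤ) * b + D < (x : ℤ) + H := by exact_mod_cast c4.2
    have c7 : (a : ℤ) + (k : ℤ) * s < a1 := by exact_mod_cast c3
    have c8 : (0 : ℤ) ≤ (k : ℤ) * s := by positivity
    have c9 : (a0 : ℤ) ≤ a := by exact_mod_cast g1
    rw [e1]
    refine ⟨by linarith, c7, by linarith, by linarith⟩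
  have hc := (card_le_card hsub).trans (card_union_le _ _)
  have hc2 : ((((Rg a0 a1 x H).filter fun p => p.1 ∈ Ico (a1 - k * s) a1).card : ℕ) : ℝ) ≤ K * S * ((H : ℝ) / A + 1) := by
    refine (s4_card G.hA h0 _).trans ?_
    refine mul_le_mul_of_nonneg_right ?_ (by positivity)
    rw [Nat.card_Ico]
    have h3 : a1 - (a1 - k * s) ≤ K * S := by
      have h4 : k * s ≤ K * S := Nat.mul_le_mul hk.le hsS
      omega
    exact_mod_cast h3
  have hc3 : ((((Rg a0 a1 x H).filter (fun p => (((p.1 : ℤ) + (k : ℤ) * s, (p.2 : ℤ) - (k : ℤ) * t) : ℤ × ℤ) ∉ RZ a0 a1 x H)).card : ℕ) : ℝ) ≤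
      (((Rg a0 a1 x H).filter fun p => p.1 ∈ Ico (a1 - k * s) a1).card : ℝ) +
        (((Rg a0 a1 x H).filter fun p => p.1 * p.2 < x + D ∨ x + H ≤ p.1 * p.2 + D).card : ℝ) := by
    exact_mod_cast hc
  linarith

/-- The same for the inverse shift: a pair which leaves has `a0 ≤ a < a0 + k s` or is in the boundary set. -/
theorem s3m {A x X S Λ : ℕ} (G : Geo A x X S Λ) {a0 a1 s t H K D k : ℕ} (h0 : A ≤ a0) (h1 : a1 ≤ a0 + Λ) (h2 : a1 ≤ 2 * A)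
    (hsS : s ≤ S) (hap : Ap x S a0 s t)
    (hD : (K : ℝ) * (4 * A / S + S * H / A) + 2 * (K : ℝ) ^ 2 * (S : ℝ) ^ 2 * X ≤ D) (hk : k < K) :
    (((RZ a0 a1 x H).filter fun p => (p.1 - (k : ℤ) * s, p.2 + (k : ℤ) * t) ∉ RZ a0 a1 x H).card : ℝ) ≤
      K * S * ((H : ℝ) / A + 1) + ((Rg a0 a1 x H).filter fun p => p.1 * p.2 < x + D ∨ x + H ≤ p.1 * p.2 + D).card := by
  classical
  have hx : 1 ≤ x := by
    have := G.hx
    have h3 : 1 ≤ A ^ 2 := Nat.one_le_pow _ _ G.hA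
    omega
  have ha01 : 1 ≤ a0 := G.hA.trans h0
  rw [s3_card]
  have hsub : (Rg a0 a1 x H).filter (fun p => (((p.1 : ℤ) - (k : ℤ) * s, (p.2 : ℤ) + (k : ℤ) * t) : ℤ × ℤ) ∉ RZ a0 a1 x H) ⊆
      ((Rg a0 a1 x H).filter fun p => p.1 ∈ Ico a0 (a0 + k * s)) ∪
        ((Rg a0 a1 x H).filter fun p => p.1 * p.2 < x + D ∨ x + H ≤ p.1 * p.2 + D) := by
    rintro ⟨a, b⟩ hp
    rw [mem_filter] at hp
    obtain ⟨hp1, hp2⟩ := hp
    have hp3 := (mem_Rg ha01).1 hp1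
    simp only at hp2 hp3
    obtain ⟨g1, g2, g3, g4⟩ := hp3
    rw [mem_union, mem_filter, mem_filter]
    by_contra hcon
    rw [not_or] at hcon
    obtain ⟨c1, c2⟩ := hcon
    have c3 : a0 + k * s ≤ a := by
      by_contra hc
      apply c1
      refine ⟨hp1, ?_⟩
      simp only [mem_Ico]
      omega
    have c4 : x + D ≤ a * b ∧ a * b + D < x + H := by
      by_contra hc
      apply c2
      refine ⟨hp1, ?_⟩
      simp only
      by_contra hc2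
      exact hc (by omega)
    have hdev := s3_dev G h0 h1 h2 hsS hap hD hk g1 g2 g3 g4
    apply hp2
    rw [mem_RZ ha01 hx]
    simp only
    have e1 : ((a : ℤ) - (k : ℤ) * s) * ((b : ℤ) + (k : ℤ) * t) =
        (a : ℤ) * b - (k : ℤ) * ((s : ℤ) * b - t * a) - (k : ℤ) ^ 2 * s * t := by ring
    have e2 := neg_abs_le ((k : ℤ) * ((s : ℤ) * b - t * a))
    have e3 := le_abs_self ((k : ℤ) * ((s : ℤ) * b - t * a))
    have e4 : (0 : ℤ) ≤ (k : ℤ) ^ 2 * s * t := by positivity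
    have c5 : (x : ℤ) + D ≤ (a : ℤ) * b := by exact_mod_cast c4.1
    have c6 : (a : ℤ) * b + D < (x : ℤ) + H := by exact_mod_cast c4.2
    have c7 : (a0 : ℤ) + (k : ℤ) * s ≤ a := by exact_mod_cast c3
    have c8 : (0 : ℤ) ≤ (k : ℤ) * s := by positivity
    have c9 : (a : ℤ) < a1 := by exact_mod_cast g2
    rw [e1]
    refine ⟨by linarith, by linarith, by linarith, by linarith⟩
  have hc := (card_le_card hsub).trans (card_union_le _ _)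
  have hc2 : ((((Rg a0 a1 x H).filter fun p => p.1 ∈ Ico a0 (a0 + k * s)).card : ℕ) : ℝ) ≤ K * S * ((H : ℝ) / A + 1) := by
    refine (s4_card G.hA h0 _).trans ?_
    refine mul_le_mul_of_nonneg_right ?_ (by positivity)
    rw [Nat.card_Ico]
    have h3 : a0 + k * s - a0 ≤ K * S := by
      have h4 : k * s ≤ K * S := Nat.mul_le_mul hk.le hsS
      omega
    exact_mod_cast h3
  have hc3 : ((((Rg a0 a1 x H).filter (fun p => (((p.1 : ℤ) - (k : ℤ) * s, (p.2 : ℤ) + (k : ℤ) * t) : ℤ × ℤ) ∉ RZ a0 a1 x H)).card : ℕ) : ℝ) ≤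
      (((Rg a0 a1 x H).filter fun p => p.1 ∈ Ico a0 (a0 + k * s)).card : ℝ) +
        (((Rg a0 a1 x H).filter fun p => p.1 * p.2 < x + D ∨ x + H ≤ p.1 * p.2 + D).card : ℝ) := by
    exact_mod_cast hc
  linarith

end Pool.Agent.Lib.H21T
end

-- from Lib.H21T.S5
section

/-!
# Chunk S5 (S/M): the exponential sum over one piece
-/

namespace Pool.Agent.Lib.H21T

open Finset Pool.Agent.SZW

/-- `SR α a0 a1 x H = ∑_{p ∈ RZ a0 a1 x H} φ p`, `φ p = ee (α p.1 p.2)`. `s1` with `E` = the right side of `s3p`, `s3m`; for `p = (a, b)`: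
`φ (a + k s, b - k t) = ee (α a b) ee (α (s b - t a) k - α s t k ^ 2)`, so by `hgood` (`β = α (s b - t a)`) the inner sum has norm `≤ δ K`. Divide by `K`. -/
theorem s5 {A x X S Λ : ℕ} (G : Geo A x X S Λ) {a0 a1 s t H K D : ℕ} (h0 : A ≤ a0) (h1 : a1 ≤ a0 + Λ) (h2 : a1 ≤ 2 * A)
    (hsS : s ≤ S) (hap : Ap x S a0 s t) (hK : 1 ≤ K)
    (hD : (K : ℝ) * (4 * A / S + S * H / A) + 2 * (K : ℝ) ^ 2 * (S : ℝ) ^ 2 * X ≤ D) (α δ : ℝ)
    (hgood : ∀ β : ℝ, ‖∑ k ∈ range K, ee (β * k + (-(((s : ℝ) * t) * α)) * (k : ℝ) ^ 2)‖ ≤ δ * K) :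
    ‖SR α a0 a1 x H‖ ≤ δ * (Rg a0 a1 x H).card + 2 * (K * S * ((H : ℝ) / A + 1) +
      ((Rg a0 a1 x H).filter fun p => p.1 * p.2 < x + D ∨ x + H ≤ p.1 * p.2 + D).card) := by
  classical
  have hinj : Function.Injective (fun p : ℕ × ℕ => (((p.1 : ℤ), (p.2 : ℤ)) : ℤ × ℤ)) := by
    rintro ⟨a, b⟩ ⟨c, d⟩ h
    rw [Prod.mk.injEq] at h
    simp only [Nat.cast_inj] at h
    rw [h.1, h.2]
  have hcard : (RZ a0 a1 x H).card = (Rg a0 a1 x H).card := by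
    unfold RZ
    exact Finset.card_image_of_injective _ hinj
  have hSR : SR α a0 a1 x H = ∑ p ∈ RZ a0 a1 x H, ee (α * ((p.1 : ℝ) * p.2)) := by
    unfold SR RZ
    rw [Finset.sum_image fun a _ b _ h => hinj h]
    refine Finset.sum_congr rfl fun p _ => ?_
    push_cast
    rfl
  have hK0 : (0 : ℝ) < K := by exact_mod_cast hK
  have hmain := s1 (RZ a0 a1 x H) (fun p => ee (α * ((p.1 : ℝ) * p.2))) (fun p => (norm_ee _).le) (s : ℤ) (t : ℤ) K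
    (K * S * ((H : ℝ) / A + 1) + ((Rg a0 a1 x H).filter fun p => p.1 * p.2 < x + D ∨ x + H ≤ p.1 * p.2 + D).card)
    (fun k hk => s3p G h0 h1 h2 hsS hap hD hk) (fun k hk => s3m G h0 h1 h2 hsS hap hD hk)
  have hin : ∀ p ∈ RZ a0 a1 x H, ‖∑ k ∈ range K,
      (fun p : ℤ × ℤ => ee (α * ((p.1 : ℝ) * p.2))) (p.1 + (k : ℤ) * s, p.2 - (k : ℤ) * t)‖ ≤ δ * K := by
    intro p _
    have e1 : ∑ k ∈ range K, (fun p : ℤ × ℤ => ee (α * ((p.1 : ℝ) * p.2))) (p.1 + (k : ℤ) * s, p.2 - (k : ℤ) * t) =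
        ee (α * ((p.1 : ℝ) * p.2)) * ∑ k ∈ range K,
          ee ((α * ((s : ℝ) * p.2 - t * p.1)) * k + (-(((s : ℝ) * t) * α)) * (k : ℝ) ^ 2) := by
      rw [Finset.mul_sum]
      refine Finset.sum_congr rfl fun k _ => ?_
      rw [← ee_add]
      change ee (α * (((p.1 + (k : ℤ) * s : ℤ) : ℝ) * ((p.2 - (k : ℤ) * t : ℤ) : ℝ))) = _
      congr 1
      push_cast
      ring
    rw [e1, norm_mul, norm_ee, one_mul]
    exact hgood _
  have h5 := Finset.sum_le_sum hin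
  rw [Finset.sum_const, nsmul_eq_mul, hcard] at h5
  rw [hSR]
  have h6 := hmain.trans (add_le_add h5 le_rfl)
  refine le_of_mul_le_mul_left ?_ hK0
  refine h6.trans (le_of_eq ?_)
  ring

end Pool.Agent.Lib.H21T
end

-- from Lib.H21T.S6
section

/-!
# Chunk S6 (M): the exponential sum over all pieces
-/

namespace Pool.Agent.Lib.H21T

open Finset Pool.Agent.SZW

/-- The pieces `Ico (pa A1 Λ i) (pb A1 A2 Λ i)`, `i < nJ A1 A2 Λ`, are a partition of `Ico A1 A2` (`i = (a - A1) / Λ`). -/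
theorem s6_part {A1 A2 Λ : ℕ} (hΛ : 1 ≤ Λ) (h : A1 ≤ A2) {M : Type*} [AddCommMonoid M] (f : ℕ → M) :
    ∑ a ∈ Ico A1 A2, f a = ∑ i ∈ range (nJ A1 A2 Λ), ∑ a ∈ Ico (pa A1 Λ i) (pb A1 A2 Λ i), f a := by
  classical
  have hL : 0 < Λ := hΛ
  rw [← sum_fiberwise_of_maps_to (g := fun a => (a - A1) / Λ) (t := range (nJ A1 A2 Λ))
    (s := Ico A1 A2) (fun a ha => by
      rw [mem_Ico] at ha
      rw [mem_range]
      unfold nJ
      exact Nat.lt_succ_of_le (Nat.div_le_div_right (by omega)))]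
  refine sum_congr rfl fun i _ => ?_
  refine sum_congr ?_ fun _ _ => rfl
  ext a
  have e1 : (i + 1) * Λ = i * Λ + Λ := by ring
  rw [mem_filter, mem_Ico, mem_Ico]
  unfold pa pb
  rw [lt_min_iff]
  constructor
  · rintro ⟨⟨h1, h2⟩, h3⟩
    have h4 : i * Λ ≤ a - A1 := (Nat.le_div_iff_mul_le hL).1 (le_of_eq h3.symm)
    have h5 : a - A1 < (i + 1) * Λ := (Nat.div_lt_iff_lt_mul hL).1 (by omega)
    exact ⟨by omega, h2, by omega⟩
  · rintro ⟨h1, h2, h3⟩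
    have h4 : i ≤ (a - A1) / Λ := (Nat.le_div_iff_mul_le hL).2 (by omega)
    have h5 : (a - A1) / Λ < i + 1 := (Nat.div_lt_iff_lt_mul hL).2 (by omega)
    exact ⟨⟨by omega, h2⟩, by omega⟩

/-- The same for sums over `Rg` (`Rg` is a union of fibres over the first coordinate; `mem_Rg`). -/
theorem s6_Rg {A1 A2 Λ x H : ℕ} (hΛ : 1 ≤ Λ) (hA : 1 ≤ A1) (h : A1 ≤ A2) {M : Type*} [AddCommMonoid M] (f : ℕ × ℕ → M) :
    ∑ p ∈ Rg A1 A2 x H, f p = ∑ i ∈ range (nJ A1 A2 Λ), ∑ p ∈ Rg (pa A1 Λ i) (pb A1 A2 Λ i) x H, f p := by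
  unfold Rg
  simp only [sum_filter, sum_product]
  exact s6_part hΛ h (fun a => ∑ b ∈ range (x + H),
    if x ≤ a * b ∧ a * b < x + H then f (a, b) else 0)

/-- Good pieces (`i ∉ Bs`): `s5`; the other pieces: `‖SR‖ ≤ |Rg| ≤ Λ (H / A + 1)` (`s4_all`; `pb - pa ≤ Λ`; if `pb < pa` the set is empty, here `pa ≤ A2`). Sum over `i`:
`∑ |Rg_i| = |Rg| ≤ A (H / A + 1)` (`A2 - A1 ≤ A`), and the boundary sets add up to the boundary set of `Rg A1 A2 x H`, at most `2 τ D` (`s4_bdry`). -/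
theorem s6 {A x X S Λ A1 A2 : ℕ} (G : Geo A x X S Λ) (h1 : A ≤ A1) (h2 : A1 ≤ A2) (h3 : A2 ≤ 2 * A) {s t : ℕ → ℕ}
    (hDir : Dir A1 Λ x S (nJ A1 A2 Λ) s t) {H K D τ : ℕ} (hK : 1 ≤ K)
    (hτ : ∀ m : ℕ, 1 ≤ m → m < x + H → m.divisors.card ≤ τ)
    (hD : (K : ℝ) * (4 * A / S + S * H / A) + 2 * (K : ℝ) ^ 2 * (S : ℝ) ^ 2 * X ≤ D) (α δ : ℝ) (hδ : 0 ≤ δ) (Bs : Finset ℕ)
    (hgood : ∀ i ∈ range (nJ A1 A2 Λ), i ∉ Bs →
      ∀ β : ℝ, ‖∑ k ∈ range K, ee (β * k + (-(((s i : ℝ) * t i) * α)) * (k : ℝ) ^ 2)‖ ≤ δ * K) :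
    ‖SR α A1 A2 x H‖ ≤ Bs.card * (Λ * ((H : ℝ) / A + 1)) + δ * (A * ((H : ℝ) / A + 1)) +
      2 * (nJ A1 A2 Λ * (K * S * ((H : ℝ) / A + 1))) + 4 * τ * D := by
  classical
  have hA1 : 1 ≤ A := G.hA
  have hA1' : 1 ≤ A1 := by omega
  have hx1 : 1 ≤ x := by
    have h4 := G.hx
    have h5 : 1 ≤ A ^ 2 := Nat.one_le_pow _ _ hA1
    omega
  obtain ⟨W, hW⟩ : ∃ W : ℝ, W = (H : ℝ) / A + 1 := ⟨_, rfl⟩
  have hW0 : 0 ≤ W := by
    rw [hW]
    positivity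
  have hpab : ∀ i ∈ range (nJ A1 A2 Λ), pa A1 Λ i ≤ pb A1 A2 Λ i := by
    intro i hi
    rw [mem_range] at hi
    unfold nJ at hi
    have h4 : i ≤ (A2 - A1) / Λ := by omega
    have h5 : i * Λ ≤ A2 - A1 := (Nat.le_div_iff_mul_le G.hΛ).1 h4
    have e1 : (i + 1) * Λ = i * Λ + Λ := by ring
    unfold pa pb
    refine le_min ?_ ?_
    · omega
    · omega
  have hpbL : ∀ i, pb A1 A2 Λ i ≤ pa A1 Λ i + Λ := by
    intro i
    have e1 : (i + 1) * Λ = i * Λ + Λ := by ring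
    unfold pa pb
    exact (min_le_right _ _).trans (by omega)
  have hpbA : ∀ i, pb A1 A2 Λ i ≤ A2 := fun i => min_le_left _ _
  have hpaA : ∀ i, A ≤ pa A1 Λ i := by
    intro i
    unfold pa
    omega
  obtain ⟨bd, hbd⟩ : ∃ bd : ℕ → ℕ, bd = fun i => ((Rg (pa A1 Λ i) (pb A1 A2 Λ i) x H).filter
    fun p => p.1 * p.2 < x + D ∨ x + H ≤ p.1 * p.2 + D).card := ⟨_, rfl⟩
  have hstep : ∀ i ∈ range (nJ A1 A2 Λ), ‖SR α (pa A1 Λ i) (pb A1 A2 Λ i) x H‖ ≤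
      (if i ∈ Bs then (Λ : ℝ) * W else 0) + δ * (Rg (pa A1 Λ i) (pb A1 A2 Λ i) x H).card +
        2 * (K * S * W) + 2 * (bd i : ℝ) := by
    intro i hi
    have hc0 : (0 : ℝ) ≤ (Rg (pa A1 Λ i) (pb A1 A2 Λ i) x H).card := Nat.cast_nonneg _
    have hb0 : (0 : ℝ) ≤ bd i := Nat.cast_nonneg _
    by_cases hB : i ∈ Bs
    · rw [if_pos hB]
      have h4 : ‖SR α (pa A1 Λ i) (pb A1 A2 Λ i) x H‖ ≤
          (Rg (pa A1 Λ i) (pb A1 A2 Λ i) x H).card := by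
        unfold SR
        refine (norm_sum_le _ _).trans (le_of_eq ?_)
        rw [sum_congr rfl fun p _ => norm_ee _, sum_const, nsmul_eq_mul, mul_one]
      have h5 := s4_all (x := x) (H := H) hA1 (hpaA i) (hpab i hi)
      rw [← hW] at h5
      have h6 : ((pb A1 A2 Λ i : ℕ) : ℝ) - (pa A1 Λ i : ℕ) ≤ Λ := by
        have : ((pb A1 A2 Λ i : ℕ) : ℝ) ≤ ((pa A1 Λ i + Λ : ℕ) : ℝ) := by exact_mod_cast hpbL i
        push_cast at this
        linarith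
      have h7 := mul_le_mul_of_nonneg_right h6 hW0
      have h8 := mul_nonneg hδ hc0
      have h9 : (0 : ℝ) ≤ K * S * W := by positivity
      linarith
    · rw [if_neg hB]
      rw [mem_range] at hi
      have h4 := s5 G (hpaA i) (hpbL i) ((hpbA i).trans h3) (hDir.sS i hi) (hDir.ap i hi) hK hD α δ
        (hgood i (mem_range.2 hi) hB)
      rw [← hW] at h4
      have h5 : (bd i : ℝ) = (((Rg (pa A1 Λ i) (pb A1 A2 Λ i) x H).filter
        fun p => p.1 * p.2 < x + D ∨ x + H ≤ p.1 * p.2 + D).card : ℝ) := by rw [hbd]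
      rw [h5]
      linarith
  have hSR : SR α A1 A2 x H = ∑ i ∈ range (nJ A1 A2 Λ), SR α (pa A1 Λ i) (pb A1 A2 Λ i) x H := by
    unfold SR
    exact s6_Rg G.hΛ hA1' h2 _
  have hcard : ((Rg A1 A2 x H).card : ℝ) =
      ∑ i ∈ range (nJ A1 A2 Λ), ((Rg (pa A1 Λ i) (pb A1 A2 Λ i) x H).card : ℝ) := by
    have h4 := s6_Rg (x := x) (H := H) G.hΛ hA1' h2 (fun _ : ℕ × ℕ => (1 : ℝ))
    simp only [sum_const, nsmul_eq_mul, mul_one] at h4
    exact h4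
  have hbdc : (((Rg A1 A2 x H).filter
      fun p => p.1 * p.2 < x + D ∨ x + H ≤ p.1 * p.2 + D).card : ℝ) =
      ∑ i ∈ range (nJ A1 A2 Λ), (bd i : ℝ) := by
    have h4 := s6_Rg (x := x) (H := H) G.hΛ hA1' h2 (fun p : ℕ × ℕ =>
      if p.1 * p.2 < x + D ∨ x + H ≤ p.1 * p.2 + D then (1 : ℝ) else 0)
    simp only [sum_boole] at h4
    rw [hbd]
    exact h4
  have hc1 := s4_all (x := x) (H := H) hA1 h1 h2
  rw [← hW] at hc1
  have hc2 : ((A2 : ℝ) - A1) * W ≤ A * W := by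
    refine mul_le_mul_of_nonneg_right ?_ hW0
    have h4 : (A2 : ℝ) ≤ 2 * A := by exact_mod_cast h3
    have h5 : (A : ℝ) ≤ A1 := by exact_mod_cast h1
    linarith
  have hb1 : (((Rg A1 A2 x H).filter
      fun p => p.1 * p.2 < x + D ∨ x + H ≤ p.1 * p.2 + D).card : ℝ) ≤ 2 * τ * D := by
    have := s4_bdry (A2 := A2) hA1' hx1 hτ D
    exact_mod_cast this
  have hBs : ∑ i ∈ range (nJ A1 A2 Λ), (if i ∈ Bs then (Λ : ℝ) * W else 0) ≤ Bs.card * (Λ * W) := by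
    rw [← sum_filter, sum_const, nsmul_eq_mul]
    refine mul_le_mul_of_nonneg_right ?_ (by positivity)
    have : (range (nJ A1 A2 Λ)).filter (fun i => i ∈ Bs) ⊆ Bs := fun i hi => (mem_filter.1 hi).2
    exact_mod_cast card_le_card this
  rw [hSR]
  refine (norm_sum_le _ _).trans ((sum_le_sum hstep).trans ?_)
  have hs : ∑ i ∈ range (nJ A1 A2 Λ), ((if i ∈ Bs then (Λ : ℝ) * W else 0) +
      δ * (Rg (pa A1 Λ i) (pb A1 A2 Λ i) x H).card + 2 * (K * S * W) + 2 * (bd i : ℝ)) =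
      ∑ i ∈ range (nJ A1 A2 Λ), (if i ∈ Bs then (Λ : ℝ) * W else 0) +
      δ * (∑ i ∈ range (nJ A1 A2 Λ), ((Rg (pa A1 Λ i) (pb A1 A2 Λ i) x H).card : ℝ)) +
      nJ A1 A2 Λ * (2 * (K * S * W)) + 2 * ∑ i ∈ range (nJ A1 A2 Λ), (bd i : ℝ) := by
    rw [sum_add_distrib, sum_add_distrib, sum_add_distrib, mul_sum, mul_sum, sum_const, card_range,
      nsmul_eq_mul]
  rw [hs, ← hcard, ← hbdc]
  have h6 := mul_le_mul_of_nonneg_left (hc1.trans hc2) hδ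
  rw [← hW]
  nlinarith [hBs, hb1, h6]

end Pool.Agent.Lib.H21T
end
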