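import Pool.Agent.Lib.H59M.M2.M030
import Pool.Agent.Lib.H59M.M2.M035

/-! Merged copies (to shorten the build) of Lib.H21T.M1, Lib.H21T.M3, Lib.H21T.M7, Lib.H21T.Z7, Lib.HUK.KB0, Lib.HUK.KB1, Lib.HUK.KB2, Lib.HUK.A3. -/

-- from Lib.H21T.M1
section

/-!
# Chunk M1 (S/M): the coefficients of the model
-/

namespace Pool.Agent.Lib.H21T

open Finset Pool.Agent.SZW

/-- `|μ| ≤ 1` and the harmonic sum up to `Q / d ≤ Q`. -/
theorem m1 (Q d : ℕ) (hQ : 1 ≤ Q) : |lam Q d| ≤ 1 + Real.log Q := by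
  have h1 : |lam Q d| ≤ ∑ r ∈ Icc 1 (Q / d), 1 / (r : ℝ) := by
    refine (Finset.abs_sum_le_sum_abs _ _).trans (Finset.sum_le_sum fun r hr => ?_)
    have hr0 : (0 : ℝ) < r := by exact_mod_cast (mem_Icc.1 hr).1
    rw [abs_div, abs_of_pos hr0]
    have h2 : |((ArithmeticFunction.moebius r : ℤ) : ℝ)| ≤ 1 := by
      have h3 : |ArithmeticFunction.moebius r| ≤ 1 := ArithmeticFunction.abs_moebius_le_one
      exact_mod_cast h3
    gcongr
  have h2 : ∑ r ∈ Icc 1 (Q / d), 1 / (r : ℝ) ≤ ∑ r ∈ Icc 1 Q, 1 / (r : ℝ) := by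
    apply Finset.sum_le_sum_of_subset_of_nonneg
    · exact Finset.Icc_subset_Icc_right (Nat.div_le_self _ _)
    · intro i _ _
      positivity
  have h3 : ∑ r ∈ Icc 1 Q, 1 / (r : ℝ) ≤ 1 + Real.log Q := by
    have h4 := harmonic_le_one_add_log Q
    rw [harmonic_eq_sum_Icc] at h4
    push_cast at h4
    simpa only [one_div] using h4
  linarith

/-- `|gQ Q m| ≤ (number of divisors of m) (1 + log Q)`. -/
theorem m1_g (Q m : ℕ) (hQ : 1 ≤ Q) (hm : 1 ≤ m) : |gQ Q m| ≤ m.divisors.card * (1 + Real.log Q) := by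
  unfold gQ
  refine (Finset.abs_sum_le_sum_abs _ _).trans ?_
  refine (Finset.sum_le_sum fun d _ => m1 Q d hQ).trans ?_
  rw [Finset.sum_const, nsmul_eq_mul]
  have hlog : 0 ≤ 1 + Real.log Q := by
    have : 0 ≤ Real.log Q := Real.log_natCast_nonneg Q
    linarith
  refine mul_le_mul_of_nonneg_right ?_ hlog
  exact_mod_cast Finset.card_le_card (fun d hd => by
    rw [mem_filter] at hd
    exact Nat.mem_divisors.2 ⟨hd.2, by omega⟩)

/-- `∑_{d ≤ Q, q ∣ d} (1 / d) ∑_{r ≤ Q / d} μ(r) / r = ∑_{n ≤ Q, q ∣ n} (1 / n) ∑_{r ∣ n / q} μ(r)` (`n = d r`; `q ∣ d` means that `r` divides `n / q`), and the inner sum is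
`1` if `n = q` and `0` otherwise. -/
theorem m2 (Q q : ℕ) (hq : 1 ≤ q) :
    ∑ d ∈ (Icc 1 Q).filter (fun d => q ∣ d), lam Q d / d = if q ≤ Q then 1 / (q : ℝ) else 0 := by
  have h1 : ∑ d ∈ (Icc 1 Q).filter (fun d => q ∣ d), lam Q d / d =
      ∑ p ∈ ((Icc 1 Q).filter (fun d => q ∣ d)).sigma (fun d => Icc 1 (Q / d)),
        (ArithmeticFunction.moebius p.2 : ℝ) / (p.1 * p.2) := by
    rw [Finset.sum_sigma]
    refine Finset.sum_congr rfl fun d _ => ?_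
    unfold lam
    rw [Finset.sum_div]
    refine Finset.sum_congr rfl fun r _ => ?_
    rw [div_div, mul_comm (r : ℝ)]
  have h2 : ∑ n ∈ (Icc 1 Q).filter (fun n => q ∣ n), (1 / (n : ℝ)) * ∑ r ∈ (n / q).divisors, (ArithmeticFunction.moebius r : ℝ) =
      ∑ p ∈ ((Icc 1 Q).filter (fun n => q ∣ n)).sigma (fun n => (n / q).divisors),
        (ArithmeticFunction.moebius p.2 : ℝ) / p.1 := by
    rw [Finset.sum_sigma]
    refine Finset.sum_congr rfl fun n _ => ?_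
    rw [Finset.mul_sum]
    refine Finset.sum_congr rfl fun r _ => ?_
    ring
  have h3 : ∑ p ∈ ((Icc 1 Q).filter (fun d => q ∣ d)).sigma (fun d => Icc 1 (Q / d)),
        (ArithmeticFunction.moebius p.2 : ℝ) / (p.1 * p.2) =
      ∑ p ∈ ((Icc 1 Q).filter (fun n => q ∣ n)).sigma (fun n => (n / q).divisors),
        (ArithmeticFunction.moebius p.2 : ℝ) / p.1 := by
    refine Finset.sum_bij' (fun p _ => (⟨p.1 * p.2, p.2⟩ : Σ _ : ℕ, ℕ)) (fun p _ => (⟨p.1 / p.2, p.2⟩ : Σ _ : ℕ, ℕ)) ?_ ?_ ?_ ?_ ?_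
    · rintro ⟨d, r⟩ hp
      simp only [mem_sigma, mem_filter, mem_Icc] at hp ⊢
      obtain ⟨⟨⟨h4, h5⟩, h6⟩, h7, h8⟩ := hp
      have h9 : d * r ≤ Q := by
        rw [mul_comm]
        exact (Nat.le_div_iff_mul_le (by omega)).1 h8
      refine ⟨⟨⟨Nat.mul_pos h4 h7, h9⟩, Dvd.dvd.mul_right h6 r⟩, ?_⟩
      obtain ⟨k, rfl⟩ := h6
      have hk : 0 < k := Nat.pos_of_ne_zero (by rintro rfl; simp at h4)
      rw [mul_assoc, Nat.mul_div_cancel_left _ hq]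
      exact Nat.mem_divisors.2 ⟨Dvd.intro_left k rfl, (Nat.mul_pos hk h7).ne'⟩
    · rintro ⟨n, r⟩ hp
      simp only [mem_sigma, mem_filter, mem_Icc] at hp ⊢
      obtain ⟨⟨⟨h4, h5⟩, h6⟩, h7⟩ := hp
      obtain ⟨k, rfl⟩ := h6
      rw [Nat.mul_div_cancel_left _ hq, Nat.mem_divisors] at h7
      obtain ⟨⟨l, rfl⟩, h8⟩ := h7
      have hr : 0 < r := Nat.pos_of_ne_zero (by rintro rfl; simp at h8)
      have hl : 0 < l := Nat.pos_of_ne_zero (by rintro rfl; simp at h8)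
      have h9 : q * (r * l) / r = q * l := by
        rw [show q * (r * l) = r * (q * l) by ring, Nat.mul_div_cancel_left _ hr]
      rw [h9]
      have h10 : q * l * r ≤ Q := by
        rw [show q * l * r = q * (r * l) by ring]
        exact h5
      have h11 : 0 < q * l := Nat.mul_pos hq hl
      refine ⟨⟨⟨h11, (Nat.le_mul_of_pos_right _ hr).trans h10⟩, Dvd.intro l rfl⟩, hr, ?_⟩
      rw [Nat.le_div_iff_mul_le h11, mul_comm]
      exact h10
    · rintro ⟨d, r⟩ hp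
      simp only [mem_sigma, mem_filter, mem_Icc] at hp
      have hr : 0 < r := hp.2.1
      simp only [Nat.mul_div_cancel _ hr]
    · rintro ⟨n, r⟩ hp
      simp only [mem_sigma, mem_filter, mem_Icc, Nat.mem_divisors] at hp
      obtain ⟨⟨_, h6⟩, h7, _⟩ := hp
      have h8 : r ∣ n := h7.trans (Nat.div_dvd_of_dvd h6)
      simp only [Nat.div_mul_cancel h8]
    · rintro ⟨d, r⟩ _
      simp only
      push_cast
      rfl
  rw [h1, h3, ← h2]
  have h4 : ∀ n ∈ (Icc 1 Q).filter (fun n => q ∣ n), (1 / (n : ℝ)) * ∑ r ∈ (n / q).divisors, (ArithmeticFunction.moebius r : ℝ) =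
      if n = q then 1 / (n : ℝ) else 0 := by
    intro n hn
    rw [mem_filter, mem_Icc] at hn
    obtain ⟨⟨h5, h6⟩, k, rfl⟩ := hn
    have hk : 0 < k := Nat.pos_of_ne_zero (by rintro rfl; simp at h5)
    rw [Nat.mul_div_cancel_left _ hq]
    have h7 : ∑ r ∈ k.divisors, (ArithmeticFunction.moebius r : ℝ) = if k = 1 then 1 else 0 := by
      have h8 : ∑ r ∈ k.divisors, ArithmeticFunction.moebius r = if k = 1 then 1 else 0 := by
        have h9 := congrArg (fun f => f k) ArithmeticFunction.coe_zeta_mul_moebius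
        simp only [ArithmeticFunction.coe_zeta_mul_apply, ArithmeticFunction.one_apply] at h9
        exact h9
      have h10 := congrArg (fun z : ℤ => (z : ℝ)) h8
      push_cast at h10
      exact h10
    rw [h7]
    by_cases hk1 : k = 1
    · subst hk1
      simp
    · rw [if_neg hk1, mul_zero, if_neg]
      intro h
      apply hk1
      have : q * k = q * 1 := by rw [h, mul_one]
      exact Nat.eq_of_mul_eq_mul_left hq this
  rw [Finset.sum_congr rfl h4, Finset.sum_ite_eq']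
  by_cases hqQ : q ≤ Q
  · rw [if_pos hqQ, if_pos]
    exact mem_filter.2 ⟨mem_Icc.2 ⟨hq, hqQ⟩, dvd_refl _⟩
  · rw [if_neg hqQ, if_neg]
    intro h
    exact hqQ (mem_Icc.1 (mem_filter.1 h).1).2

end Pool.Agent.Lib.H21T
end

-- from Lib.H21T.M3
section

/-!
# Chunk M3 (S/M): the model at a rational
-/

namespace Pool.Agent.Lib.H21T

open Finset Pool.Agent.SZW

theorem m3_ceil (x d : ℕ) (hd : 1 ≤ d) : ∃ a : ℕ, x ≤ a * d ∧ a * d < x + d ∧ ∀ j, x ≤ j * d ↔ a ≤ j := by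
  refine ⟨(x + d - 1) / d, ?_, ?_, fun j => ?_⟩
  · have h1 := Nat.lt_div_mul_add (a := x + d - 1) hd
    omega
  · have h1 := Nat.div_mul_le_self (x + d - 1) d
    omega
  · have e1 : (x + d - 1) / d ≤ j ↔ (x + d - 1) / d < j + 1 := Nat.lt_succ_iff.symm
    rw [e1, Nat.div_lt_iff_lt_mul hd, Nat.succ_mul]
    omega

theorem m3_nn (d q : ℕ) (p : ℤ) (hq : 1 ≤ q) (hp : IsCoprime p (q : ℤ)) (h : ¬ q ∣ d) :
    1 / (q : ℝ) ≤ nn ((p : ℝ) / q * d) := by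
  have hq0 : (0 : ℝ) < q := by exact_mod_cast hq
  unfold nn
  generalize round ((p : ℝ) / q * d) = k
  have e1 : (p : ℝ) / q * d - k = ((p * d - k * q : ℤ) : ℝ) / q := by
    push_cast
    field_simp
  rw [e1, abs_div, abs_of_pos hq0]
  refine div_le_div_of_nonneg_right ?_ hq0.le
  have h1 : p * d - k * q ≠ 0 := by
    intro h0
    apply h
    have h2 : (q : ℤ) ∣ p * d := ⟨k, by linarith⟩
    have h3 := hp.symm.dvd_of_dvd_mul_left h2
    exact_mod_cast h3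
  have h2 := Int.one_le_abs h1
  exact_mod_cast h2

theorem m3_par (x H d : ℕ) (hd : 1 ≤ d) : ∃ a c : ℕ, a ≤ c ∧ |((c : ℝ) - a) - (H : ℝ) / d| ≤ 1 ∧
    ∀ f : ℕ → ℂ, ∑ m ∈ (Ico x (x + H)).filter (fun m => d ∣ m), f m = ∑ j ∈ Ico a c, f (j * d) := by
  obtain ⟨a, ha1, ha2, ha3⟩ := m3_ceil x d hd
  obtain ⟨c, hc1, hc2, hc3⟩ := m3_ceil (x + H) d hd
  have hac : a ≤ c := (ha3 c).1 (by omega)
  refine ⟨a, c, hac, ?_, fun f => ?_⟩
  · have hd0 : (0 : ℝ) < d := by exact_mod_cast hd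
    have h1 : (x : ℝ) ≤ a * d := by exact_mod_cast ha1
    have h2 : (a : ℝ) * d < x + d := by exact_mod_cast ha2
    have h3 : (x : ℝ) + H ≤ c * d := by exact_mod_cast hc1
    have h4 : (c : ℝ) * d < x + H + d := by exact_mod_cast hc2
    have e1 : ((c : ℝ) - a) - (H : ℝ) / d = (c * d - a * d - H) / d := by
      field_simp
    rw [e1, abs_div, abs_of_pos hd0, div_le_one hd0, abs_le]
    constructor <;> linarith
  · have e1 : (Ico x (x + H)).filter (fun m => d ∣ m) = (Ico a c).image (fun j => j * d) := by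
      ext m
      rw [mem_filter, mem_Ico, mem_image]
      constructor
      · rintro ⟨⟨h1, h2⟩, j, rfl⟩
        refine ⟨j, ?_, Nat.mul_comm _ _⟩
        rw [mem_Ico]
        refine ⟨(ha3 j).1 (by rwa [Nat.mul_comm]), ?_⟩
        by_contra hcon
        have h3 := (hc3 j).2 (not_lt.1 hcon)
        rw [Nat.mul_comm] at h3
        omega
      · rintro ⟨j, hj, rfl⟩
        rw [mem_Ico] at hj
        refine ⟨⟨(ha3 j).2 hj.1, ?_⟩, Dvd.intro_left _ rfl⟩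
        by_contra hcon
        have h3 := (hc3 j).1 (not_lt.1 hcon)
        omega
    rw [e1, sum_image]
    intro j _ k _ hjk
    exact Nat.eq_of_mul_eq_mul_right hd hjk

/-- If `q ∣ d` all terms are `1` (`ee_int`: `p m / q` is an integer) and the number of multiples of `d` in the interval is `H / d` up to `1`. If not: `m = d j`,
`j` in an interval of integers, geometric sum with `nn (p d / q) ≥ 1 / q` (`geom_bound`): norm at most `q / 2`. -/
theorem m3 (x H d q : ℕ) (p : ℤ) (hd : 1 ≤ d) (hq : 1 ≤ q) (hp : IsCoprime p (q : ℤ)) :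
    ‖∑ m ∈ (Ico x (x + H)).filter (fun m => d ∣ m), ee ((p : ℝ) / q * m) - (((if q ∣ d then (H : ℝ) / d else 0) : ℝ) : ℂ)‖ ≤ q := by
  have hq0 : (0 : ℝ) < q := by exact_mod_cast hq
  have hq1 : (1 : ℝ) ≤ q := by exact_mod_cast hq
  obtain ⟨a, c, hac, hcount, hpar⟩ := m3_par x H d hd
  rw [hpar]
  by_cases hqd : q ∣ d
  · rw [if_pos hqd]
    have h1 : ∀ j ∈ Ico a c, ee ((p : ℝ) / q * ((j * d : ℕ) : ℝ)) = 1 := by
      intro j _
      obtain ⟨k, hk⟩ := hqd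
      have e1 : (p : ℝ) / q * ((j * d : ℕ) : ℝ) = ((p * (j * k : ℕ) : ℤ) : ℝ) := by
        rw [hk]
        push_cast
        field_simp
      rw [e1, ee_int]
    rw [sum_congr rfl h1, sum_const, Nat.card_Ico, nsmul_eq_mul, mul_one]
    have e2 : ((c - a : ℕ) : ℂ) - (((H : ℝ) / d : ℝ) : ℂ) = ((((c : ℝ) - a) - (H : ℝ) / d : ℝ) : ℂ) := by
      rw [Nat.cast_sub hac]
      push_cast
      ring
    rw [e2, Complex.norm_real, Real.norm_eq_abs]
    linarith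
  · rw [if_neg hqd]
    have e1 : ∑ j ∈ Ico a c, ee ((p : ℝ) / q * ((j * d : ℕ) : ℝ)) =
        ∑ n ∈ Ico (a : ℤ) (c : ℤ), ee ((n : ℝ) * ((p : ℝ) / q * d)) := by
      have e9 : Ico (a : ℤ) (c : ℤ) = (Ico a c).image (fun j : ℕ => (j : ℤ)) := by
        ext n
        rw [mem_Ico, mem_image]
        constructor
        · rintro ⟨h1, h2⟩
          obtain ⟨k, hk⟩ := Int.eq_ofNat_of_zero_le (le_trans (Int.natCast_nonneg a) h1)
          refine ⟨k, ?_, hk.symm⟩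
          rw [mem_Ico]
          omega
        · rintro ⟨k, hk, rfl⟩
          rw [mem_Ico] at hk
          omega
      rw [e9, sum_image]
      · refine sum_congr rfl fun j _ => ?_
        congr 1
        push_cast
        ring
      · intro j _ k _ hjk
        have h8 : (j : ℤ) = (k : ℤ) := hjk
        exact_mod_cast h8
    rw [e1, Complex.ofReal_zero, sub_zero]
    have h1 := geom_bound (a : ℤ) (c : ℤ) ((p : ℝ) / q * d)
    have h2 := m3_nn d q p hq hp hqd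
    generalize ‖∑ n ∈ Ico (a : ℤ) (c : ℤ), ee ((n : ℝ) * ((p : ℝ) / q * d))‖ = M at h1 ⊢
    by_contra hcon
    have h3 : (q : ℝ) < M := not_le.1 hcon
    have h4 : (q : ℝ) * (2 * (1 / q)) ≤ M * (2 * nn ((p : ℝ) / q * d)) := by
      refine mul_le_mul h3.le (by linarith) (by positivity) (by linarith)
    have h5 : (q : ℝ) * (2 * (1 / q)) = 2 := by
      field_simp
    linarith

/-- Exchange the sums over `m` and `d`, `m3` for each `d`, `m1` for the coefficients, `m2` for the main term. -/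
theorem m4 (x H Q q : ℕ) (p : ℤ) (hQ : 1 ≤ Q) (hq : 1 ≤ q) (hp : IsCoprime p (q : ℤ)) :
    ‖∑ m ∈ Ico x (x + H), (gQ Q m : ℂ) * ee ((p : ℝ) / q * m) - (((if q ≤ Q then (H : ℝ) / q else 0) : ℝ) : ℂ)‖ ≤
      Q * (1 + Real.log Q) * q := by
  have e1 : ∑ m ∈ Ico x (x + H), (gQ Q m : ℂ) * ee ((p : ℝ) / q * m) =
      ∑ d ∈ Icc 1 Q, (lam Q d : ℂ) * ∑ m ∈ (Ico x (x + H)).filter (fun m => d ∣ m), ee ((p : ℝ) / q * m) := by
    have e2 : ∀ m ∈ Ico x (x + H), (gQ Q m : ℂ) * ee ((p : ℝ) / q * m) =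
        ∑ d ∈ Icc 1 Q, (if d ∣ m then (lam Q d : ℂ) * ee ((p : ℝ) / q * m) else 0) := by
      intro m _
      unfold gQ
      rw [← sum_filter, ← sum_mul, Complex.ofReal_sum]
    rw [sum_congr rfl e2, sum_comm]
    refine sum_congr rfl fun d _ => ?_
    rw [mul_sum, sum_filter]
  have e3 : (((if q ≤ Q then (H : ℝ) / q else 0) : ℝ) : ℂ) =
      ∑ d ∈ Icc 1 Q, (lam Q d : ℂ) * (((if q ∣ d then (H : ℝ) / d else 0) : ℝ) : ℂ) := by
    have e4 : (if q ≤ Q then (H : ℝ) / q else 0) = ∑ d ∈ Icc 1 Q, lam Q d * (if q ∣ d then (H : ℝ) / d else 0) := by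
      have e5 := m2 Q q hq
      have e6 : ∑ d ∈ Icc 1 Q, lam Q d * (if q ∣ d then (H : ℝ) / d else 0) =
          H * ∑ d ∈ (Icc 1 Q).filter (fun d => q ∣ d), lam Q d / d := by
        rw [mul_sum, sum_filter]
        refine sum_congr rfl fun d _ => ?_
        split_ifs
        · ring
        · ring
      rw [e6, e5]
      split_ifs
      · ring
      · ring
    rw [e4, Complex.ofReal_sum]
    refine sum_congr rfl fun d _ => ?_
    rw [Complex.ofReal_mul]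
  rw [e1, e3, ← sum_sub_distrib]
  have h1 : ∀ d ∈ Icc 1 Q, ‖(lam Q d : ℂ) * ∑ m ∈ (Ico x (x + H)).filter (fun m => d ∣ m), ee ((p : ℝ) / q * m) -
      (lam Q d : ℂ) * (((if q ∣ d then (H : ℝ) / d else 0) : ℝ) : ℂ)‖ ≤ (1 + Real.log Q) * q := by
    intro d hd
    rw [← mul_sub, norm_mul, Complex.norm_real, Real.norm_eq_abs]
    exact mul_le_mul (m1 Q d hQ) (m3 x H d q p (mem_Icc.1 hd).1 hq hp) (norm_nonneg _)
      (add_nonneg zero_le_one (Real.log_nonneg (by exact_mod_cast hQ)))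
  refine (norm_sum_le _ _).trans ((sum_le_sum h1).trans (le_of_eq ?_))
  rw [sum_const, nsmul_eq_mul, Nat.card_Icc, Nat.add_sub_cancel]
  ring

end Pool.Agent.Lib.H21T
end

-- from Lib.H21T.M7
section

/-!
# Chunk M7 (S/M): the model away from rationals
-/

namespace Pool.Agent.Lib.H21T

open Finset Pool.Agent.SZW

/-- the sum over the multiples of `d` in an interval -/
theorem m7_mult (x H d : ℕ) (α : ℝ) (hd : 1 ≤ d) :
    ∃ a c : ℤ, ∑ m ∈ (Ico x (x + H)).filter (fun m => d ∣ m), ee (α * m) = ∑ n ∈ Finset.Ico a c, ee (n * (d * α)) := by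
  refine ⟨((x + d - 1) / d : ℕ), ((x + H + d - 1) / d : ℕ), ?_⟩
  symm
  refine Finset.sum_bij (fun (n : ℤ) _ => (d * n).toNat) ?_ ?_ ?_ ?_
  · intro n hn
    rw [Finset.mem_Ico] at hn
    obtain ⟨k, hk⟩ := Int.eq_ofNat_of_zero_le (le_trans (Nat.cast_nonneg _) hn.1)
    subst hk
    have h1 : (x + d - 1) / d ≤ k := by exact_mod_cast hn.1
    have h2 : k < (x + H + d - 1) / d := by exact_mod_cast hn.2
    have h3 : ((d : ℤ) * (k : ℤ)).toNat = d * k := by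
      rw [← Nat.cast_mul]
      exact Int.toNat_natCast _
    show ((d : ℤ) * (k : ℤ)).toNat ∈ _
    rw [h3, mem_filter, mem_Ico]
    refine ⟨⟨?_, ?_⟩, Dvd.intro k rfl⟩
    · have h4 : x + d - 1 < d * (k + 1) := by
        have h5 : (x + d - 1) / d < k + 1 := by omega
        rw [mul_comm]
        exact (Nat.div_lt_iff_lt_mul (by omega)).1 h5
      rw [mul_add, mul_one] at h4
      omega
    · have h4 : (k + 1) * d ≤ x + H + d - 1 := (Nat.le_div_iff_mul_le (by omega)).1 h2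
      rw [add_mul, one_mul, mul_comm] at h4
      omega
  · intro n hn n' hn' h
    rw [Finset.mem_Ico] at hn hn'
    have h0 : 0 ≤ n := le_trans (Nat.cast_nonneg _) hn.1
    have h0' : 0 ≤ n' := le_trans (Nat.cast_nonneg _) hn'.1
    have hd0 : (0 : ℤ) < d := by exact_mod_cast hd
    have h1 : (d : ℤ) * n = d * n' := by
      have h2 : (((d * n).toNat : ℕ) : ℤ) = (((d * n').toNat : ℕ) : ℤ) := congrArg (fun z : ℕ => (z : ℤ)) h
      rwa [Int.toNat_of_nonneg (by positivity), Int.toNat_of_nonneg (by positivity)] at h2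
    exact mul_left_cancel₀ hd0.ne' h1
  · intro m hm
    rw [mem_filter, mem_Ico] at hm
    obtain ⟨⟨h1, h2⟩, k, rfl⟩ := hm
    refine ⟨(k : ℤ), ?_, ?_⟩
    · rw [Finset.mem_Ico]
      constructor
      · have h3 : (x + d - 1) / d < k + 1 := by
          rw [Nat.div_lt_iff_lt_mul (by omega)]
          rw [add_mul, one_mul, mul_comm]
          omega
        exact_mod_cast Nat.lt_succ_iff.1 h3
      · have h3 : k + 1 ≤ (x + H + d - 1) / d := by
          rw [Nat.le_div_iff_mul_le (by omega), add_mul, one_mul, mul_comm]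
          omega
        exact_mod_cast h3
    · rw [← Nat.cast_mul]
      exact Int.toNat_natCast _
  · intro n hn
    rw [Finset.mem_Ico] at hn
    have h0 : 0 ≤ n := le_trans (Nat.cast_nonneg _) hn.1
    have h1 : (((d * n).toNat : ℕ) : ℝ) = (d : ℝ) * n := by
      have h2 : (((d * n).toNat : ℕ) : ℤ) = d * n := Int.toNat_of_nonneg (by positivity)
      exact_mod_cast congrArg (fun z : ℤ => (z : ℝ)) h2
    rw [h1]
    congr 1
    ring

/-- `m = d j` with `j` in an interval of integers; `geom_bound` for `d α`; `m1`. -/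
theorem m7 (x H Q : ℕ) (α c : ℝ) (hQ : 1 ≤ Q) (hc : 0 < c) (hα : ∀ d : ℕ, 1 ≤ d → d ≤ Q → c ≤ nn (d * α)) :
    ‖∑ m ∈ Ico x (x + H), (gQ Q m : ℂ) * ee (α * m)‖ ≤ Q * (1 + Real.log Q) / (2 * c) := by
  have h1 : ∑ m ∈ Ico x (x + H), (gQ Q m : ℂ) * ee (α * m) =
      ∑ d ∈ Icc 1 Q, (lam Q d : ℂ) * ∑ m ∈ (Ico x (x + H)).filter (fun m => d ∣ m), ee (α * m) := by
    simp only [gQ, Finset.sum_filter, Complex.ofReal_sum, Finset.sum_mul, Finset.mul_sum]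
    rw [Finset.sum_comm]
    refine Finset.sum_congr rfl fun d _ => Finset.sum_congr rfl fun m _ => ?_
    by_cases h : d ∣ m
    · rw [if_pos h, if_pos h]
    · rw [if_neg h, if_neg h, Complex.ofReal_zero, zero_mul, mul_zero]
  rw [h1]
  have hlog : 0 ≤ 1 + Real.log Q := by
    have : 0 ≤ Real.log Q := Real.log_natCast_nonneg Q
    linarith
  have h2 : ∀ d ∈ Icc 1 Q, ‖(lam Q d : ℂ) * ∑ m ∈ (Ico x (x + H)).filter (fun m => d ∣ m), ee (α * m)‖ ≤
      (1 + Real.log Q) * (1 / (2 * c)) := by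
    intro d hd
    rw [mem_Icc] at hd
    rw [norm_mul]
    refine mul_le_mul ?_ ?_ (norm_nonneg _) hlog
    · rw [Complex.norm_real, Real.norm_eq_abs]
      exact m1 Q d hQ
    · obtain ⟨a, b, hab⟩ := m7_mult x H d α hd.1
      rw [hab]
      have h3 := geom_bound a b (d * α)
      have h4 := hα d hd.1 hd.2
      rw [le_div_iff₀ (by positivity)]
      refine le_trans ?_ h3
      exact mul_le_mul_of_nonneg_left (by linarith) (norm_nonneg _)
  refine (norm_sum_le _ _).trans ((Finset.sum_le_sum h2).trans ?_)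
  rw [Finset.sum_const, Nat.card_Icc, nsmul_eq_mul]
  apply le_of_eq
  push_cast [Nat.add_sub_cancel]
  ring

end Pool.Agent.Lib.H21T
end

-- from Lib.H21T.Z7
section

/-!
# Chunk Z7 (S): long intervals
-/

namespace Pool.Agent.Lib.H21T

open Finset Pool.Agent.SZW

/-- Strong induction on `H`: if `H ≤ 3 h0` it is the hypothesis; otherwise split off an interval of length `⌈h0⌉₊` (`h0 ≤ ⌈h0⌉₊ ≤ h0 + 1 ≤ 2 h0`), the rest has length
`> 3 h0 - 2 h0`. -/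
theorem z7 (F : ℕ → ℂ) (h0 c : ℝ) (h1 : 1 ≤ h0) (hc : 0 ≤ c)
    (h : ∀ y k : ℕ, h0 ≤ k → (k : ℝ) ≤ 3 * h0 → ‖∑ m ∈ Ico y (y + k), F m‖ ≤ c * k) (x H : ℕ) (hH : h0 ≤ H) :
    ‖∑ m ∈ Ico x (x + H), F m‖ ≤ c * H := by
  induction H using Nat.strong_induction_on generalizing x with
  | _ H ih =>
    by_cases h3 : (H : ℝ) ≤ 3 * h0
    · exact h x H hH h3
    · push Not at h3
      set k := ⌈h0⌉₊ with hk
      have hk0 : h0 ≤ k := Nat.le_ceil h0
      have hk1 : (k : ℝ) < h0 + 1 := Nat.ceil_lt_add_one (by linarith)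
      have hkH : k ≤ H := by
        have : (k : ℝ) ≤ H := by linarith
        exact_mod_cast this
      have hkpos : 1 ≤ k := by
        have : (1 : ℝ) ≤ k := by linarith
        exact_mod_cast this
      obtain ⟨j, hj⟩ := Nat.exists_eq_add_of_le hkH
      have hjr : (H : ℝ) = k + j := by rw [hj]; push_cast; ring
      have hj1 : h0 ≤ (j : ℝ) := by linarith
      have hjH : j < H := by omega
      have hsum : ∑ m ∈ Ico x (x + H), F m
          = ∑ m ∈ Ico x (x + k), F m + ∑ m ∈ Ico (x + k) (x + k + j), F m := by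
        rw [hj, ← Nat.add_assoc]
        exact (Finset.sum_Ico_consecutive F (by omega) (by omega)).symm
      rw [hsum]
      calc ‖∑ m ∈ Ico x (x + k), F m + ∑ m ∈ Ico (x + k) (x + k + j), F m‖
          ≤ ‖∑ m ∈ Ico x (x + k), F m‖ + ‖∑ m ∈ Ico (x + k) (x + k + j), F m‖ := norm_add_le _ _
        _ ≤ c * k + c * j := add_le_add (h x k hk0 (by linarith)) (ih j hjH (x + k) hj1)
        _ = c * H := by rw [hjr]; ring

end Pool.Agent.Lib.H21T
end

-- from Lib.HUK.KB0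
section

/-!
# Project HUK, module K, part 2: averages over complete periods (definitions; only `P0`)
-/

open Finset

namespace Pool.Agent.HUK

noncomputable section

/-- The coefficients `k - i`. -/
def lam (k : ℕ) (i : Fin k) : ℤ := (k : ℤ) - (i : ℕ)

/-- The vertex `∑_{ω i} (k - i) h_i`. -/
def vl {k : ℕ} (ω : Fin k → Bool) (h : Fin k → ℤ) : ℤ := vt ω (fun i => lam k i * h i)

/-- Periodic modulo `M` in all variables. -/
def Pe {k : ℕ} (M : ℕ) (φ : ℤ → (Fin k → ℤ) → ℂ) : Prop :=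
  ∀ (y y' : ℤ) (h h' : Fin k → ℤ), (M : ℤ) ∣ y - y' → (∀ i, (M : ℤ) ∣ h i - h' i) → φ y h = φ y' h'

/-- The average over a period of the absolute value of the average over `y`. -/
def Av (k M : ℕ) (φ : ℤ → (Fin k → ℤ) → ℂ) : ℝ :=
  (∑ h ∈ Fintype.piFinset (fun _ : Fin k => Ico (0 : ℤ) M), ‖∑ y ∈ Ico (0 : ℤ) M, φ y h‖) / (M : ℝ) ^ (k + 1)

end

end Pool.Agent.HUK
end

-- from Lib.HUK.KB1
section

/-!
# Project HUK, chunk KB1 (M): Chinese remainder theorem for averages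
-/

open Finset

namespace Pool.Agent.HUK

theorem kb1_inj (M1 M2 : ℕ) (hc : Nat.Coprime M1 M2) {x y : ℤ}
    (hx : x ∈ Ico (0 : ℤ) ((M1 * M2 : ℕ) : ℤ)) (hy : y ∈ Ico (0 : ℤ) ((M1 * M2 : ℕ) : ℤ))
    (e1 : x % (M1 : ℤ) = y % (M1 : ℤ)) (e2 : x % (M2 : ℤ) = y % (M2 : ℤ)) : x = y := by
  have d1 : (M1 : ℤ) ∣ x - y := Int.ModEq.dvd (show y ≡ x [ZMOD M1] from e1.symm)
  have d2 : (M2 : ℤ) ∣ x - y := Int.ModEq.dvd (show y ≡ x [ZMOD M2] from e2.symm)
  have hc' : IsCoprime (M1 : ℤ) (M2 : ℤ) := Nat.isCoprime_iff_coprime.2 hc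
  have d : (M1 : ℤ) * M2 ∣ x - y := hc'.mul_dvd d1 d2
  rw [mem_Ico] at hx hy
  push_cast at hx hy
  have h0 : x - y = 0 := Int.eq_zero_of_abs_lt_dvd d (by rw [abs_lt]; constructor <;> linarith [hx.1, hx.2, hy.1, hy.2])
  linarith

theorem kb1_surj (M1 M2 : ℕ) (h1 : 1 ≤ M1) (h2 : 1 ≤ M2) (hc : Nat.Coprime M1 M2) {a b : ℤ}
    (ha : a ∈ Ico (0 : ℤ) M1) (hb : b ∈ Ico (0 : ℤ) M2) :
    ∃ x ∈ Ico (0 : ℤ) ((M1 * M2 : ℕ) : ℤ), x % (M1 : ℤ) = a ∧ x % (M2 : ℤ) = b := by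
  rw [mem_Ico] at ha hb
  have hk := (Nat.chineseRemainder hc a.toNat b.toNat).2
  have hlt := Nat.chineseRemainder_lt_mul hc a.toNat b.toNat (by omega) (by omega)
  set k : ℕ := (Nat.chineseRemainder hc a.toNat b.toNat : ℕ) with hkd
  refine ⟨(k : ℤ), ?_, ?_, ?_⟩
  · rw [mem_Ico]
    exact ⟨by positivity, by exact_mod_cast hlt⟩
  · have e := hk.1
    have e' : (k : ℤ) % (M1 : ℤ) = (a.toNat : ℤ) % (M1 : ℤ) := by
      have := congrArg (fun n : ℕ => (n : ℤ)) (show k % M1 = a.toNat % M1 from e)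
      simpa using this
    rw [e', Int.toNat_of_nonneg ha.1, Int.emod_eq_of_lt ha.1 ha.2]
  · have e := hk.2
    have e' : (k : ℤ) % (M2 : ℤ) = (b.toNat : ℤ) % (M2 : ℤ) := by
      have := congrArg (fun n : ℕ => (n : ℤ)) (show k % M2 = b.toNat % M2 from e)
      simpa using this
    rw [e', Int.toNat_of_nonneg hb.1, Int.emod_eq_of_lt hb.1 hb.2]

theorem kb1_mem (M : ℕ) (h : 1 ≤ M) (x : ℤ) : x % (M : ℤ) ∈ Ico (0 : ℤ) M := by
  rw [mem_Ico]
  have : (0 : ℤ) < M := by exact_mod_cast h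
  exact ⟨Int.emod_nonneg _ this.ne', Int.emod_lt_of_pos _ this⟩

theorem kb1_sum1 (M1 M2 : ℕ) (h1 : 1 ≤ M1) (h2 : 1 ≤ M2) (hc : Nat.Coprime M1 M2) (F : ℤ → ℤ → ℂ) :
    ∑ x ∈ Ico (0 : ℤ) ((M1 * M2 : ℕ) : ℤ), F (x % (M1 : ℤ)) (x % (M2 : ℤ)) =
      ∑ a ∈ Ico (0 : ℤ) M1, ∑ b ∈ Ico (0 : ℤ) M2, F a b := by
  rw [← sum_product' (Ico (0 : ℤ) M1) (Ico (0 : ℤ) M2) F]
  refine sum_bij (fun x _ => (x % (M1 : ℤ), x % (M2 : ℤ))) ?_ ?_ ?_ ?_
  · intro x _
    exact mem_product.2 ⟨kb1_mem M1 h1 x, kb1_mem M2 h2 x⟩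
  · intro x hx y hy e
    rw [Prod.mk.injEq] at e
    exact kb1_inj M1 M2 hc hx hy e.1 e.2
  · rintro ⟨a, b⟩ hab
    rw [mem_product] at hab
    obtain ⟨x, hx, e1, e2⟩ := kb1_surj M1 M2 h1 h2 hc hab.1 hab.2
    exact ⟨x, hx, by rw [e1, e2]⟩
  · intro x _; rfl

theorem kb1_sumk (k M1 M2 : ℕ) (h1 : 1 ≤ M1) (h2 : 1 ≤ M2) (hc : Nat.Coprime M1 M2)
    (F : (Fin k → ℤ) → (Fin k → ℤ) → ℝ) :
    ∑ h ∈ Fintype.piFinset (fun _ : Fin k => Ico (0 : ℤ) ((M1 * M2 : ℕ) : ℤ)),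
      F (fun i => h i % (M1 : ℤ)) (fun i => h i % (M2 : ℤ)) =
      ∑ a ∈ Fintype.piFinset (fun _ : Fin k => Ico (0 : ℤ) M1),
        ∑ b ∈ Fintype.piFinset (fun _ : Fin k => Ico (0 : ℤ) M2), F a b := by
  rw [← sum_product' _ _ F]
  refine sum_bij (fun h _ => (fun i => h i % (M1 : ℤ), fun i => h i % (M2 : ℤ))) ?_ ?_ ?_ ?_
  · intro h _
    exact mem_product.2 ⟨Fintype.mem_piFinset.2 fun i => kb1_mem M1 h1 _,
      Fintype.mem_piFinset.2 fun i => kb1_mem M2 h2 _⟩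
  · intro x hx y hy e
    rw [Prod.mk.injEq] at e
    funext i
    exact kb1_inj M1 M2 hc (Fintype.mem_piFinset.1 hx i) (Fintype.mem_piFinset.1 hy i)
      (congrFun e.1 i) (congrFun e.2 i)
  · rintro ⟨a, b⟩ hab
    rw [mem_product, Fintype.mem_piFinset, Fintype.mem_piFinset] at hab
    choose x hx e1 e2 using fun i => kb1_surj M1 M2 h1 h2 hc (hab.1 i) (hab.2 i)
    refine ⟨x, Fintype.mem_piFinset.2 hx, ?_⟩
    rw [Prod.mk.injEq]
    exact ⟨funext e1, funext e2⟩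
  · intro x _; rfl

/-- Proof. The map `x ↦ (x % M1, x % M2)` is a bijection from `Ico 0 (M1 * M2)` to `Ico 0 M1 ×ˢ Ico 0 M2` (injective by coprimality, and both sides
have `M1 * M2` elements; or surjective by `Nat.chineseRemainder`), and for `h : Fin k → ℤ` coordinatewise. For fixed `h` with residues `h1`, `h2`
(modulo `M1`, `M2`): `∑_{y ∈ Ico 0 (M1 M2)} φ1 y h * φ2 y h = ∑_{y1} ∑_{y2} φ1 y1 h1 * φ2 y2 h2 = (∑_{y1} φ1 y1 h1) (∑_{y2} φ2 y2 h2)` (periodicity);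
take norms and sum over `h` in the same way; `(M1 M2)^(k+1) = M1^(k+1) M2^(k+1)`. -/
theorem KB1_mul {k : ℕ} (M1 M2 : ℕ) (h1 : 1 ≤ M1) (h2 : 1 ≤ M2) (hc : Nat.Coprime M1 M2)
    (φ1 φ2 : ℤ → (Fin k → ℤ) → ℂ) (hp1 : Pe M1 φ1) (hp2 : Pe M2 φ2) :
    Av k (M1 * M2) (fun y h => φ1 y h * φ2 y h) = Av k M1 φ1 * Av k M2 φ2 := by
  have e1 : ∀ (M : ℕ) (φ : ℤ → (Fin k → ℤ) → ℂ), Pe M φ → ∀ y h,
      φ y h = φ (y % (M : ℤ)) (fun i => h i % (M : ℤ)) := by
    intro M φ hp y h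
    apply hp
    · exact Int.dvd_self_sub_emod
    · intro i; exact Int.dvd_self_sub_emod
  have e2 : ∀ h : Fin k → ℤ, ‖∑ y ∈ Ico (0 : ℤ) ((M1 * M2 : ℕ) : ℤ), φ1 y h * φ2 y h‖ =
      ‖∑ y ∈ Ico (0 : ℤ) M1, φ1 y (fun i => h i % (M1 : ℤ))‖ * ‖∑ y ∈ Ico (0 : ℤ) M2, φ2 y (fun i => h i % (M2 : ℤ))‖ := by
    intro h
    rw [← norm_mul, sum_mul_sum]
    congr 1
    rw [← kb1_sum1 M1 M2 h1 h2 hc
      (fun a b => φ1 a (fun i => h i % (M1 : ℤ)) * φ2 b (fun i => h i % (M2 : ℤ)))]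
    apply sum_congr rfl; intro y _
    rw [e1 M1 φ1 hp1 y h, e1 M2 φ2 hp2 y h]
  simp only [Av]
  rw [sum_congr rfl fun h _ => e2 h]
  rw [kb1_sumk k M1 M2 h1 h2 hc (fun a b => ‖∑ y ∈ Ico (0 : ℤ) M1, φ1 y a‖ * ‖∑ y ∈ Ico (0 : ℤ) M2, φ2 y b‖)]
  rw [← sum_mul_sum, div_mul_div_comm]
  congr 1
  push_cast
  rw [mul_pow]

/-- Rules for `Pe` and `Av` (short). -/
theorem KB1_per {k : ℕ} (M1 M2 : ℕ) (φ1 φ2 : ℤ → (Fin k → ℤ) → ℂ) (hp1 : Pe M1 φ1) (hp2 : Pe M2 φ2) :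
    Pe (M1 * M2) (fun y h => φ1 y h * φ2 y h) := by
  intro y y' h h' hy hh
  have hm : ((M1 * M2 : ℕ) : ℤ) = (M1 : ℤ) * M2 := by push_cast; rfl
  rw [hm] at hy
  have a1 := hp1 y y' h h' ((dvd_mul_right _ _).trans hy) fun i => (dvd_mul_right _ _).trans (hm ▸ hh i)
  have a2 := hp2 y y' h h' ((dvd_mul_left _ _).trans hy) fun i => (dvd_mul_left _ _).trans (hm ▸ hh i)
  simp only [a1, a2]

theorem KB1_nn (k M : ℕ) (φ : ℤ → (Fin k → ℤ) → ℂ) : 0 ≤ Av k M φ := by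
  rw [Av]
  positivity

theorem KB1_smul (k M : ℕ) (a : ℂ) (φ : ℤ → (Fin k → ℤ) → ℂ) : Av k M (fun y h => a * φ y h) = ‖a‖ * Av k M φ := by
  rw [Av, Av, mul_div_assoc', mul_sum]
  congr 1
  apply sum_congr rfl; intro h _
  rw [← mul_sum, norm_mul]

theorem KB1_one (k : ℕ) (M : ℕ) (hM : 1 ≤ M) (φ : ℤ → (Fin k → ℤ) → ℂ) (h : ∀ y h, ‖φ y h‖ ≤ 1) : Av k M φ ≤ 1 := by
  have hM' : (0 : ℝ) < M := by exact_mod_cast hM
  rw [Av]
  apply div_le_one_of_le₀ _ (by positivity)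
  have h1 : ∀ a : Fin k → ℤ, ‖∑ y ∈ Ico (0 : ℤ) M, φ y a‖ ≤ M := by
    intro a
    refine (norm_sum_le _ _).trans ?_
    refine (sum_le_sum fun y _ => h y a).trans ?_
    simp
  refine (sum_le_sum fun a _ => h1 a).trans ?_
  rw [sum_const, Fintype.card_piFinset]
  simp only [Int.card_Ico, sub_zero, Int.toNat_natCast, prod_const, card_univ, Fintype.card_fin, nsmul_eq_mul]
  push_cast
  rw [pow_succ]

end Pool.Agent.HUK
end

-- from Lib.HUK.KB2
section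

/-!
# Project HUK, chunk KB2 (S/M): products over primes
-/

open Finset

namespace Pool.Agent.HUK

/-- Proof. Induction on `P` (`Finset.induction_on`): `P = ∅`: `r * 1 = r`, `φ0 * 1 = φ0`. Step `insert q P`: `r * (q * ∏ l ∈ P, l) = (r * ∏ l ∈ P, l) * q`,
the numbers `r * ∏ l ∈ P, l` and `q` are coprime (distinct primes; `Nat.Coprime.prod_left`), `KB1_mul`, `KB1_per`. -/
theorem KB2_prod {k : ℕ} (r : ℕ) (hr : 1 ≤ r) (P : Finset ℕ) (hP : ∀ l ∈ P, l.Prime) (hPr : ∀ l ∈ P, Nat.Coprime l r)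
    (φ0 : ℤ → (Fin k → ℤ) → ℂ) (h0 : Pe r φ0) (φ : ℕ → ℤ → (Fin k → ℤ) → ℂ) (hφ : ∀ l ∈ P, Pe l (φ l)) :
    Pe (r * ∏ l ∈ P, l) (fun y h => φ0 y h * ∏ l ∈ P, φ l y h) ∧
    Av k (r * ∏ l ∈ P, l) (fun y h => φ0 y h * ∏ l ∈ P, φ l y h) = Av k r φ0 * ∏ l ∈ P, Av k l (φ l) := by
  classical
  revert hP hPr hφ
  refine Finset.induction_on P ?_ ?_
  · intro _ _ _
    simp only [Finset.prod_empty, mul_one]
    exact ⟨h0, trivial⟩
  · intro q S hq ih hP hPr hφ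
    have hqS : q ∈ insert q S := mem_insert_self _ _
    obtain ⟨ih1, ih2⟩ := ih (fun l hl => hP l (mem_insert_of_mem hl)) (fun l hl => hPr l (mem_insert_of_mem hl))
      (fun l hl => hφ l (mem_insert_of_mem hl))
    have hqp := hP q hqS
    have hM : 1 ≤ r * ∏ l ∈ S, l := Nat.mul_pos hr (Finset.prod_pos fun l hl => (hP l (mem_insert_of_mem hl)).pos)
    have hco : Nat.Coprime (r * ∏ l ∈ S, l) q := by
      refine Nat.Coprime.mul_left (hPr q hqS).symm ?_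
      refine Nat.Coprime.prod_left fun l hl => ?_
      exact (Nat.coprime_primes (hP l (mem_insert_of_mem hl)) hqp).2 (fun h => hq (h ▸ hl))
    have e1 : r * ∏ l ∈ insert q S, l = (r * ∏ l ∈ S, l) * q := by
      rw [prod_insert hq]
      ring
    have e2 : (fun y h => φ0 y h * ∏ l ∈ insert q S, φ l y h) = fun y h => (φ0 y h * ∏ l ∈ S, φ l y h) * φ q y h := by
      funext y h
      rw [prod_insert hq]
      ring
    rw [e1, e2]
    refine ⟨KB1_per _ _ _ _ ih1 (hφ q hqS), ?_⟩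
    rw [KB1_mul _ _ hM hqp.pos hco _ _ ih1 (hφ q hqS), ih2, prod_insert hq]
    ring

end Pool.Agent.HUK
end

-- from Lib.HUK.A3
section

/-!
# Project HUK, chunk A3 (M): elimination of all values of `f`
-/

open Finset

namespace Pool.Agent.HUK

/-- Vertex sum `∑_l [ω l] t l`. -/
def ws {n : ℕ} (t : Fin n → ℤ) (ω : Fin n → Bool) : ℤ := ∑ l, if ω l then t l else 0

theorem a3_ws_abs (n H : ℕ) (t : Fin n → ℤ) (ht : ∀ i, |t i| ≤ (H : ℤ)) (ω : Fin n → Bool) :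
    |ws t ω| ≤ (n : ℤ) * H := by
  unfold ws
  refine (Finset.abs_sum_le_sum_abs _ _).trans ?_
  have h1 : ∀ l ∈ (univ : Finset (Fin n)), |if ω l then t l else 0| ≤ (H : ℤ) := by
    intro l _
    split_ifs
    · exact ht l
    · simp
  refine (Finset.sum_le_sum h1).trans ?_
  simp

theorem a3_vt (n : ℕ) (t : Fin n → ℤ) (a : ℤ) (ω : Fin n → Bool) :
    vt ω (fun i => a * t i) = a * ws t ω := by
  unfold vt ws
  rw [Finset.mul_sum]
  refine Finset.sum_congr rfl fun i _ => ?_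
  split_ifs <;> simp

theorem a3_prod (n : ℕ) (t : Fin n → ℤ) (e : Fin (2 ^ n) ≃ (Fin n → Bool)) (f : ℤ → ℂ) (z a : ℤ) :
    (∏ i, cj (sg (e i)) (f (z + a * ws t (e i)))) = DV (fun i => a * t i) f z := by
  unfold DV
  rw [DL_prod]
  rw [← Equiv.prod_comp e (fun ω => cj (sg ω) (f (z + vt ω fun i => a * t i)))]
  refine Finset.prod_congr rfl fun i _ => ?_
  rw [a3_vt]

theorem a3_cj_norm (n : ℕ) (z : ℂ) : ‖cj n z‖ = ‖z‖ := by
  unfold cj
  split_ifs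
  · rfl
  · exact RCLike.norm_conj z

/-- Proof. `E1_elim` in `ℤ × ℤ`, `r = 2^n`, `B = Ico (-3X) (3X) ×ˢ Ioc K (2K)`, `B' = Ico (-4X) (4X) ×ˢ Ioc 0 (2K)`, `N = 16 X K`, vectors
`v i = (-(ws t (e i)), 1)`, functions `g i (z, a) = cj (sg (e i)) (f (z + a ws t (e i)))`: invariant under `v i`; their product is `DL (ofFn (a • t)) f z`
(`DL_prod`; `vt ω (a • t) = a ws t ω`; reindex by `e`). The sum over `(z, a) ∈ B` is the sum of the hypothesis (for `z ∉ [-X, X)` the factor of the vertex `0`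
vanishes). Windows: `|j ws| ≤ H2 n H ≤ X`, `H2 ≤ K`. `‖∑_{(z,a)}‖ ≤ ∑_a ‖∑_z‖`. Constants: `(ρ/16)^(2^r) ≤ 2^(2^r)/H2^r · (1/(16 X K)) ∑ …`. -/
theorem A3_elim (n X K H H2 : ℕ) (hX : 1 ≤ X) (hK : 1 ≤ K) (hH2 : 1 ≤ H2) (hHK : H2 ≤ K) (hHH : n * H * H2 ≤ X) (ψ : ℝ)
    (c : ℤ × ℤ → ℂ) (hc : QP X K H ψ c) (t : Fin n → ℤ) (ht : ∀ i, |t i| ≤ H) (e : Fin (2 ^ n) ≃ (Fin n → Bool))
    (f : ℤ → ℂ) (hf : Bdd X f) (ρ : ℝ) (hρ : 0 < ρ)
    (h : ρ * (K * X) ≤ ‖∑ a ∈ Ioc (K : ℤ) (2 * K), ∑ z ∈ Ico (-(X : ℤ)) X, DV (fun i => a * t i) f z * c (z, a)‖) :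
    (ρ / 32) ^ (2 ^ 2 ^ n) * (K * X * (H2 : ℝ) ^ (2 ^ n)) ≤ ∑ j ∈ bxS (2 ^ n) H2, ∑ a ∈ Ioc (K : ℤ) (2 * K),
      ‖∑ z ∈ Ico (-(3 * X : ℤ)) (3 * X), DL (List.ofFn fun i => (-(j i * ws t (e i)), j i)) c (z, a)‖ := by
  set B : Finset (ℤ × ℤ) := Ico (-(3 * X : ℤ)) (3 * X) ×ˢ Ioc (K : ℤ) (2 * K) with hB
  set B' : Finset (ℤ × ℤ) := Ico (-(4 * X : ℤ)) (4 * X) ×ˢ Ioc (0 : ℤ) (2 * K) with hB'
  set N : ℝ := 16 * X * K with hN
  have hXr : (1 : ℝ) ≤ X := by exact_mod_cast hX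
  have hKr : (1 : ℝ) ≤ K := by exact_mod_cast hK
  have hHr : (1 : ℝ) ≤ H2 := by exact_mod_cast hH2
  have hN0 : 0 < N := by
    rw [hN]
    positivity
  have hcard : (B'.card : ℝ) ≤ N := by
    rw [hB', Finset.card_product, Int.card_Ico, Int.card_Ioc, hN]
    have e1 : (4 * (X : ℤ) - -(4 * (X : ℤ))).toNat = 8 * X := by omega
    have e2 : (2 * (K : ℤ) - 0).toNat = 2 * K := by omega
    rw [e1, e2]
    push_cast
    apply le_of_eq
    ring
  have hcB : ∀ z, z ∉ B → c z = 0 := by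
    rintro ⟨z, a⟩ hz
    by_cases h1 : z ∈ Ico (-(3 * X : ℤ)) (3 * X)
    · apply hc.supa
      rintro ⟨h2, h3⟩
      apply hz
      rw [hB, Finset.mem_product]
      exact ⟨h1, Finset.mem_Ioc.2 ⟨h2, h3⟩⟩
    · exact hc.supz z a h1
  have hwin : ∀ i (z : ℤ × ℤ), ∀ h : ℕ, h < H2 →
      z + h • ((-(ws t (e i)), 1) : ℤ × ℤ) ∈ B → z ∈ B' := by
    rintro i ⟨z, a⟩ h hh hz
    rw [hB, Finset.mem_product, Finset.mem_Ico, Finset.mem_Ioc] at hz
    simp only [Prod.smul_mk, Prod.mk_add_mk, nsmul_eq_mul, mul_one] at hz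
    obtain ⟨⟨h1, h2⟩, h3, h4⟩ := hz
    have hw : |(h : ℤ) * -(ws t (e i))| ≤ X := by
      rw [abs_mul, abs_neg, Nat.abs_cast]
      have h5 := a3_ws_abs n H t ht (e i)
      calc (h : ℤ) * |ws t (e i)| ≤ (H2 : ℤ) * ((n : ℤ) * H) := by
            apply mul_le_mul
            · exact_mod_cast hh.le
            · exact h5
            · exact abs_nonneg _
            · positivity
        _ = ((n * H * H2 : ℕ) : ℤ) := by push_cast; ring
        _ ≤ X := by exact_mod_cast hHH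
    rw [abs_le] at hw
    have hhK : (h : ℤ) < K := by exact_mod_cast lt_of_lt_of_le hh hHK
    have hh0 : (0 : ℤ) ≤ h := by positivity
    rw [hB', Finset.mem_product, Finset.mem_Ico, Finset.mem_Ioc]
    obtain ⟨hw1, hw2⟩ := hw
    refine ⟨⟨?_, ?_⟩, ?_, ?_⟩
    · show -(4 * X : ℤ) ≤ z
      linarith
    · show z < 4 * X
      linarith
    · show 0 < a
      linarith
    · show a ≤ 2 * K
      linarith
  have main := E1_elim B B' N hcard hN0 H2 hH2 (2 ^ n) (fun i => ((-(ws t (e i)), 1) : ℤ × ℤ))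
    (fun i z => cj (sg (e i)) (f (z.1 + z.2 * ws t (e i)))) c
    (fun i z => by
      show ‖cj (sg (e i)) (f (z.1 + z.2 * ws t (e i)))‖ ≤ 1
      rw [a3_cj_norm]
      exact hf.le _)
    (fun i z => by
      show cj (sg (e i)) (f ((z.1 + -(ws t (e i))) + (z.2 + 1) * ws t (e i))) =
        cj (sg (e i)) (f (z.1 + z.2 * ws t (e i)))
      congr 2
      ring)
    hcB hwin
  have hS : ∑ z ∈ B, (∏ i, cj (sg (e i)) (f (z.1 + z.2 * ws t (e i)))) * c z =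
      ∑ a ∈ Ioc (K : ℤ) (2 * K), ∑ z ∈ Ico (-(X : ℤ)) X, DV (fun i => a * t i) f z * c (z, a) := by
    rw [hB, Finset.sum_product_right]
    refine Finset.sum_congr rfl fun a _ => ?_
    have hsub : Ico (-(X : ℤ)) X ⊆ Ico (-(3 * X : ℤ)) (3 * X) := by
      apply Finset.Ico_subset_Ico
      · have : (0 : ℤ) ≤ X := by positivity
        linarith
      · have : (0 : ℤ) ≤ X := by positivity
        linarith
    rw [← Finset.sum_subset hsub]
    · refine Finset.sum_congr rfl fun z _ => ?_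
      rw [a3_prod]
    · intro z _ hz
      rw [a3_prod]
      unfold DV
      rw [DL_supp _ _ _ (hf.sup z hz), zero_mul]
  rw [hS] at main
  have hvec : ∀ j : Fin (2 ^ n) → ℤ,
      (List.ofFn fun i => j i • ((-(ws t (e i)), 1) : ℤ × ℤ)) =
      List.ofFn fun i => (-(j i * ws t (e i)), j i) := by
    intro j
    congr 1
    funext i
    simp
  have hT : ∀ j : Fin (2 ^ n) → ℤ, ‖∑ z ∈ B, DL (List.ofFn fun i => j i • ((-(ws t (e i)), 1) : ℤ × ℤ)) c z‖ ≤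
      ∑ a ∈ Ioc (K : ℤ) (2 * K),
      ‖∑ z ∈ Ico (-(3 * X : ℤ)) (3 * X), DL (List.ofFn fun i => (-(j i * ws t (e i)), j i)) c (z, a)‖ := by
    intro j
    rw [hvec, hB, Finset.sum_product_right]
    exact norm_sum_le _ _
  set SS : ℝ := ∑ j ∈ bxS (2 ^ n) H2, ∑ a ∈ Ioc (K : ℤ) (2 * K),
      ‖∑ z ∈ Ico (-(3 * X : ℤ)) (3 * X), DL (List.ofFn fun i => (-(j i * ws t (e i)), j i)) c (z, a)‖ with hSS
  have h1 : ∑ j ∈ bxS (2 ^ n) H2, ‖∑ z ∈ B, DL (List.ofFn fun i => j i • ((-(ws t (e i)), 1) : ℤ × ℤ)) c z‖ / N ≤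
      SS / N := by
    rw [← Finset.sum_div]
    apply div_le_div_of_nonneg_right _ hN0.le
    exact Finset.sum_le_sum fun j _ => hT j
  have h2 : (ρ / 16) ^ (2 ^ 2 ^ n) ≤ 2 ^ (2 ^ 2 ^ n) / (H2 : ℝ) ^ (2 ^ n) * (SS / N) := by
    refine le_trans ?_ (main.trans (mul_le_mul_of_nonneg_left h1 (by positivity)))
    apply pow_le_pow_left₀ (by positivity)
    rw [le_div_iff₀ hN0, hN]
    refine le_trans (le_of_eq ?_) h
    ring
  have h3 : (ρ / 32) ^ (2 ^ 2 ^ n) = (ρ / 16) ^ (2 ^ 2 ^ n) / 2 ^ (2 ^ 2 ^ n) := by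
    rw [← div_pow]
    congr 1
    ring
  have hp2 : (0 : ℝ) < 2 ^ (2 ^ 2 ^ n) := by positivity
  have hpH : (0 : ℝ) < (H2 : ℝ) ^ (2 ^ n) := by positivity
  have h4 : (ρ / 32) ^ (2 ^ 2 ^ n) * (N * (H2 : ℝ) ^ (2 ^ n)) ≤ SS := by
    rw [h3]
    calc (ρ / 16) ^ (2 ^ 2 ^ n) / 2 ^ (2 ^ 2 ^ n) * (N * (H2 : ℝ) ^ (2 ^ n))
        ≤ (2 ^ (2 ^ 2 ^ n) / (H2 : ℝ) ^ (2 ^ n) * (SS / N)) / 2 ^ (2 ^ 2 ^ n) * (N * (H2 : ℝ) ^ (2 ^ n)) := by
          gcongr
      _ = SS := by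
          field_simp
  refine le_trans ?_ h4
  apply mul_le_mul_of_nonneg_left _ (by positivity)
  apply mul_le_mul_of_nonneg_right _ hpH.le
  rw [hN]
  nlinarith [mul_nonneg (by linarith : (0 : ℝ) ≤ K) (by linarith : (0 : ℝ) ≤ X)]

end Pool.Agent.HUK
end
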