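import Mathlib.NumberTheory.Chebyshev
import Pool.Agent.Lib.H59M.M2.M030
import Pool.Agent.Lib.H59M.M2.M035

/-! Merged copies (to shorten the build) of Lib.H21T.M6, Lib.H21T.Z0, Lib.H21T.Z2, Lib.HUK.B12, Lib.HUK.B14, Lib.HUK.B05, Lib.HUK.B06, Lib.HUK.B07, Lib.HUK.B04, Lib.HUK.B08, Lib.HUK.B09, Lib.HUK.B10, Lib.HUK.B01, Lib.HUK.B03, Lib.HUK.B11, Lib.HUK.B13, Lib.HUK.B15, Lib.HUK.B16, Lib.HUK.B02, Lib.HUK.BFin. -/

-- from Lib.H21T.M6
section

/-!
# Chunk M6 (S): freezing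
-/

namespace Pool.Agent.Lib.H21T

open Finset Pool.Agent.SZW

theorem m6_ee (s t : ℝ) : ‖ee s - ee t‖ ≤ 2 * Real.pi * |s - t| := by
  have h1 : ee s - ee t = ee t * (ee (s - t) - 1) := by
    rw [mul_sub, ← ee_add, mul_one]
    congr 2
    ring
  rw [h1, norm_mul, norm_ee, one_mul]
  have h2 : ee (s - t) = Complex.exp (Complex.I * ((2 * Real.pi * (s - t) : ℝ) : ℂ)) := by
    unfold ee
    congr 1
    push_cast
    ring
  rw [h2]
  refine Real.norm_exp_I_mul_ofReal_sub_one_le.trans (le_of_eq ?_)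
  rw [Real.norm_eq_abs, abs_mul, abs_of_pos (by positivity : (0 : ℝ) < 2 * Real.pi)]

theorem m6_freeze (x H : ℕ) (θ : ℝ) (m : ℕ) (h1 : x ≤ m) (h2 : m < x + H) :
    ‖ee (θ * m) - ee (θ * x)‖ ≤ 2 * Real.pi * |θ| * H := by
  refine (m6_ee _ _).trans ?_
  have e1 : θ * (m : ℝ) - θ * x = θ * ((m : ℝ) - x) := by ring
  rw [e1, abs_mul]
  have h3 : |(m : ℝ) - x| ≤ H := by
    have h4 : (x : ℝ) ≤ m := by exact_mod_cast h1
    have h5 : (m : ℝ) < x + H := by exact_mod_cast h2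
    rw [abs_le]
    constructor <;> linarith [Nat.cast_nonneg (α := ℝ) H]
  have h4 : |θ| * |(m : ℝ) - x| ≤ |θ| * H := mul_le_mul_of_nonneg_left h3 (abs_nonneg _)
  calc 2 * Real.pi * (|θ| * |(m : ℝ) - x|) ≤ 2 * Real.pi * (|θ| * H) :=
        mul_le_mul_of_nonneg_left h4 (by positivity)
    _ = 2 * Real.pi * |θ| * H := by ring

/-- `‖ee (θ m) - ee (θ x)‖ ≤ 2 π |θ| H` for `x ≤ m < x + H`; `ee ((β + θ) m) = ee (β m) ee (θ m)`; `|l m - L| ≤ ε`, `|g m| ≤ B`, `|L| ≤ 1`. -/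
theorem m6 (x H : ℕ) (β θ L ε B : ℝ) (l g : ℕ → ℝ) (hL : |L| ≤ 1) (hε : 0 ≤ ε) (hB : 0 ≤ B)
    (hl : ∀ m, x ≤ m → m < x + H → |l m - L| ≤ ε) (hg : ∀ m, x ≤ m → m < x + H → |g m| ≤ B) :
    ‖∑ m ∈ Ico x (x + H), ((l m * g m : ℝ) : ℂ) * ee ((β + θ) * m) -
      (L : ℂ) * ee (θ * x) * ∑ m ∈ Ico x (x + H), (g m : ℂ) * ee (β * m)‖ ≤ H * B * (ε + 2 * Real.pi * |θ| * H) := by
  rw [mul_sum, ← sum_sub_distrib]
  have h1 : ∀ m ∈ Ico x (x + H), ‖((l m * g m : ℝ) : ℂ) * ee ((β + θ) * m) -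
      (L : ℂ) * ee (θ * x) * ((g m : ℂ) * ee (β * m))‖ ≤ B * (ε + 2 * Real.pi * |θ| * H) := by
    intro m hm
    rw [mem_Ico] at hm
    have e1 : ((l m * g m : ℝ) : ℂ) * ee ((β + θ) * m) - (L : ℂ) * ee (θ * x) * ((g m : ℂ) * ee (β * m)) =
        (g m : ℂ) * ee (β * m) * (((l m - L : ℝ) : ℂ) * ee (θ * m) + (L : ℂ) * (ee (θ * m) - ee (θ * x))) := by
      have e2 : ee ((β + θ) * m) = ee (β * m) * ee (θ * m) := by
        rw [← ee_add]
        congr 1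
        ring
      rw [e2]
      push_cast
      ring
    rw [e1, norm_mul, norm_mul, norm_ee, mul_one, Complex.norm_real, Real.norm_eq_abs]
    have h2 : ‖((l m - L : ℝ) : ℂ) * ee (θ * m) + (L : ℂ) * (ee (θ * m) - ee (θ * x))‖ ≤
        ε + 2 * Real.pi * |θ| * H := by
      refine (norm_add_le _ _).trans (add_le_add ?_ ?_)
      · rw [norm_mul, norm_ee, mul_one, Complex.norm_real, Real.norm_eq_abs]
        exact hl m hm.1 hm.2
      · rw [norm_mul, Complex.norm_real, Real.norm_eq_abs]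
        calc |L| * ‖ee (θ * m) - ee (θ * x)‖ ≤ 1 * (2 * Real.pi * |θ| * H) :=
              mul_le_mul hL (m6_freeze x H θ m hm.1 hm.2) (norm_nonneg _) zero_le_one
          _ = 2 * Real.pi * |θ| * H := one_mul _
    exact mul_le_mul (hg m hm.1 hm.2) h2 (norm_nonneg _) hB
  refine (norm_sum_le _ _).trans ((sum_le_sum h1).trans (le_of_eq ?_))
  rw [sum_const, nsmul_eq_mul, Nat.card_Ico, Nat.add_sub_cancel_left]
  ring

/-- The same for the pairs: `‖ee (θ a b) - ee (θ x)‖ ≤ 2 π |θ| H`. -/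
theorem m6_SR (A1 A2 x H : ℕ) (hA : 1 ≤ A1) (β θ : ℝ) :
    ‖SR (β + θ) A1 A2 x H - ee (θ * x) * SR β A1 A2 x H‖ ≤ (Rg A1 A2 x H).card * (2 * Real.pi * |θ| * H) := by
  unfold SR
  rw [mul_sum, ← sum_sub_distrib]
  have h1 : ∀ p ∈ Rg A1 A2 x H, ‖ee ((β + θ) * ((p.1 : ℝ) * p.2)) - ee (θ * x) * ee (β * ((p.1 : ℝ) * p.2))‖ ≤
      2 * Real.pi * |θ| * H := by
    intro p hp
    obtain ⟨_, _, h3, h4⟩ := (mem_Rg hA).1 hp
    have e1 : ee ((β + θ) * ((p.1 : ℝ) * p.2)) - ee (θ * x) * ee (β * ((p.1 : ℝ) * p.2)) =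
        ee (β * ((p.1 : ℝ) * p.2)) * (ee (θ * ((p.1 * p.2 : ℕ) : ℝ)) - ee (θ * x)) := by
      have e2 : ee ((β + θ) * ((p.1 : ℝ) * p.2)) = ee (β * ((p.1 : ℝ) * p.2)) * ee (θ * ((p.1 * p.2 : ℕ) : ℝ)) := by
        rw [← ee_add]
        congr 1
        push_cast
        ring
      rw [e2]
      ring
    rw [e1, norm_mul, norm_ee, one_mul]
    exact m6_freeze x H θ _ h3 h4
  refine (norm_sum_le _ _).trans ((sum_le_sum h1).trans (le_of_eq ?_))
  rw [sum_const, nsmul_eq_mul]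

end Pool.Agent.Lib.H21T
end

-- from Lib.H21T.Z0
section

/-!
# Chunk Z0 (S): symmetry and vanishing outside
-/

namespace Pool.Agent.Lib.H21T

open Finset Pool.Agent.SZW

theorem dbox_symm (A1 A2 B1 B2 m : ℕ) : dbox A1 A2 B1 B2 m = dbox B1 B2 A1 A2 m := by
  unfold dbox
  refine Finset.card_bij (fun p _ => p.swap) ?_ ?_ ?_
  · intro p hp
    rw [mem_filter, mem_product] at hp ⊢
    refine ⟨⟨hp.1.2, hp.1.1⟩, ?_⟩
    rw [← hp.2]
    exact Nat.mul_comm _ _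
  · intro p _ q _ h
    exact Prod.swap_injective h
  · intro p hp
    refine ⟨p.swap, ?_, Prod.swap_swap p⟩
    rw [mem_filter, mem_product] at hp ⊢
    refine ⟨⟨hp.1.2, hp.1.1⟩, ?_⟩
    rw [← hp.2]
    exact Nat.mul_comm _ _

theorem z0_aux (a a' b b' t : ℝ) : min a (t - b) - max a' (t - b') = min b' (t - a') - max b (t - a) := by
  rw [min_def, max_def, min_def, max_def]
  split_ifs <;> linarith

theorem z0_pos {A B m : ℕ} (hA : 1 ≤ A) (hB : 1 ≤ B) (h : m < A * B) : Real.log m ≤ Real.log A + Real.log B := by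
  have hA0 : (A : ℝ) ≠ 0 := by
    have : (1 : ℝ) ≤ A := by exact_mod_cast hA
    positivity
  have hB0 : (B : ℝ) ≠ 0 := by
    have : (1 : ℝ) ≤ B := by exact_mod_cast hB
    positivity
  rw [← Real.log_mul hA0 hB0]
  rcases Nat.eq_zero_or_pos m with hm | hm
  · rw [hm, Nat.cast_zero, Real.log_zero]
    refine Real.log_nonneg ?_
    have : 1 ≤ A * B := Nat.mul_pos hA hB
    exact_mod_cast this
  · refine Real.log_le_log (by exact_mod_cast hm) ?_
    exact_mod_cast h.le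

/-- `min (log A2) (t - log B1) = t - max (t - log A2) (log B1)`, and so on (`t = log m`). -/
theorem lbox_symm (A1 A2 B1 B2 m : ℕ) : lbox A1 A2 B1 B2 m = lbox B1 B2 A1 A2 m := by
  unfold lbox
  rw [z0_aux]

theorem Mbox_symm (Q A1 A2 B1 B2 m : ℕ) : Mbox Q A1 A2 B1 B2 m = Mbox Q B1 B2 A1 A2 m := by
  unfold Mbox
  rw [lbox_symm]

/-- If `m < A1 B1` there are no pairs, and `min (..) - max (..) ≤ (log m - log B1) - log A1 ≤ 0` (also for `m = 0`, `log 0 = 0`). -/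
theorem z0_low {A1 A2 B1 B2 m : ℕ} (hA : 1 ≤ A1) (hB : 1 ≤ B1) (h : m < A1 * B1) : dbox A1 A2 B1 B2 m = 0 ∧ lbox A1 A2 B1 B2 m = 0 := by
  constructor
  · unfold dbox
    rw [card_eq_zero, filter_eq_empty_iff]
    intro p hp hpm
    rw [mem_product, mem_Ico, mem_Ico] at hp
    have h1 : A1 * B1 ≤ p.1 * p.2 := Nat.mul_le_mul hp.1.1 hp.2.1
    omega
  · unfold lbox
    refine max_eq_left ?_
    have h1 := z0_pos hA hB h
    have h2 := min_le_right (Real.log A2) (Real.log m - Real.log B1)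
    have h3 := le_max_left (Real.log A1) (Real.log m - Real.log B2)
    linarith

/-- If `m ≥ A2 B2` there are no pairs, and `min (..) - max (..) ≤ log A2 - (log m - log B2) ≤ 0`. -/
theorem z0_high {A1 A2 B1 B2 m : ℕ} (hA : 1 ≤ A2) (hB : 1 ≤ B2) (h : A2 * B2 ≤ m) : dbox A1 A2 B1 B2 m = 0 ∧ lbox A1 A2 B1 B2 m = 0 := by
  constructor
  · unfold dbox
    rw [card_eq_zero, filter_eq_empty_iff]
    intro p hp hpm
    rw [mem_product, mem_Ico, mem_Ico] at hp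
    have h1 : p.1 * p.2 < A2 * B2 := Nat.mul_lt_mul'' hp.1.2 hp.2.2
    omega
  · unfold lbox
    refine max_eq_left ?_
    have hA0 : (0 : ℝ) < A2 := by exact_mod_cast hA
    have hB0 : (0 : ℝ) < B2 := by exact_mod_cast hB
    have h1 : Real.log A2 + Real.log B2 ≤ Real.log m := by
      rw [← Real.log_mul hA0.ne' hB0.ne']
      refine Real.log_le_log (mul_pos hA0 hB0) ?_
      exact_mod_cast h
    have h2 := min_le_left (Real.log A2) (Real.log m - Real.log B1)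
    have h3 := le_max_right (Real.log A1) (Real.log m - Real.log B2)
    linarith

end Pool.Agent.Lib.H21T
end

-- from Lib.H21T.Z2
section

/-!
# Chunk Z2 (S/M): the logarithmic length is almost constant
-/

namespace Pool.Agent.Lib.H21T

open Finset Pool.Agent.SZW

theorem z2_add {x h : ℝ} (hx : 0 < x) (hh : 0 ≤ h) : Real.log (x + h) ≤ Real.log x + h / x := by
  have h1 : x + h = x * (1 + h / x) := by field_simp
  have h2 : 0 ≤ h / x := by positivity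
  rw [h1, Real.log_mul hx.ne' (by positivity)]
  have h3 := Real.log_le_sub_one_of_pos (show 0 < 1 + h / x by positivity)
  linarith

theorem z2_log {x m B H : ℕ} (hB : 1 ≤ B) (hx : 1 ≤ x) (h1 : x ≤ m) (h2 : m < x + H) :
    |(Real.log m - Real.log B) - Real.log ((x / B + 1 : ℕ) : ℝ)| ≤ (B : ℝ) / x + H / x := by
  have hBr : (0 : ℝ) < B := by exact_mod_cast hB
  have hxr : (0 : ℝ) < x := by exact_mod_cast hx
  have hf : (0 : ℝ) < ((x / B + 1 : ℕ) : ℝ) := by positivity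
  have a1 : (x : ℝ) ≤ ((x / B + 1 : ℕ) : ℝ) * B := by
    have := (Nat.div_lt_iff_lt_mul hB).1 (Nat.lt_succ_self (x / B))
    exact_mod_cast this.le
  have a2 : ((x / B + 1 : ℕ) : ℝ) * B ≤ x + B := by
    have h3 : x / B * B ≤ x := Nat.div_mul_le_self x B
    have h4 : (x / B + 1) * B ≤ x + B := by
      rw [add_mul, one_mul]
      omega
    exact_mod_cast h4
  have a3 : Real.log x ≤ Real.log ((x / B + 1 : ℕ) : ℝ) + Real.log B := by
    rw [← Real.log_mul hf.ne' hBr.ne']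
    exact Real.log_le_log hxr a1
  have a4 : Real.log ((x / B + 1 : ℕ) : ℝ) + Real.log B ≤ Real.log x + B / x := by
    rw [← Real.log_mul hf.ne' hBr.ne']
    exact (Real.log_le_log (by positivity) a2).trans (z2_add hxr hBr.le)
  have a5 : Real.log x ≤ Real.log m := Real.log_le_log hxr (by exact_mod_cast h1)
  have a6 : Real.log m ≤ Real.log x + H / x := by
    refine (Real.log_le_log (by exact_mod_cast (lt_of_lt_of_le hx h1)) ?_).trans (z2_add hxr (Nat.cast_nonneg H))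
    exact_mod_cast h2.le
  have a7 : 0 ≤ (B : ℝ) / x := by positivity
  have a8 : 0 ≤ (H : ℝ) / x := by positivity
  rw [abs_le]
  constructor <;> linarith

/-- `log` is monotone, so `log (max A1 (x / B2 + 1)) = max (log A1) (log (⌊x / B2⌋ + 1))`, the same for `min`; `max 0`, `min`, `max` are 1-Lipschitz. For `y = x / B2 ≥ A1 / 4`:
`0 ≤ log (⌊y⌋ + 1) - log y ≤ 1 / y ≤ 4 / A1`; for `y = x / B1 ≥ A1 / 2`: `≤ 2 / A1`; `0 ≤ log m - log x ≤ H / x ≤ 6 / A1` (`x ≥ A1 B1 / 2`, `A1 ≤ B1`, `H ≤ 3 A1`). Total at most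
`(4 + 6 + 2 + 6) / A1`. -/
theorem z2 (A1 A2 B1 B2 x H m : ℕ) (hA : 8 ≤ A1) (hAB : A1 ≤ B1) (hA2 : A1 ≤ A2) (hB2 : B1 ≤ B2) (hB2' : B2 ≤ 2 * B1) (hx : A1 * B1 ≤ 2 * x)
    (hH : H ≤ 3 * A1) (h1 : x ≤ m) (h2 : m < x + H) :
    |lbox A1 A2 B1 B2 m - max 0 (Real.log (min A2 (x / B1 + 1) : ℕ) - Real.log (max A1 (x / B2 + 1) : ℕ))| ≤ 24 / A1 := by
  have hxpos : 1 ≤ x := by
    have h3 : 1 * 1 ≤ A1 * B1 := Nat.mul_le_mul (by omega) (by omega)
    omega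
  have hxr : (0 : ℝ) < x := by exact_mod_cast hxpos
  have hAr : (0 : ℝ) < A1 := by
    have : 0 < A1 := by omega
    exact_mod_cast this
  have hmax : Real.log ((max A1 (x / B2 + 1) : ℕ) : ℝ) = max (Real.log A1) (Real.log ((x / B2 + 1 : ℕ) : ℝ)) := by
    rcases le_total A1 (x / B2 + 1) with h | h
    · rw [max_eq_right h, max_eq_right]
      exact Real.log_le_log hAr (by exact_mod_cast h)
    · rw [max_eq_left h, max_eq_left]
      exact Real.log_le_log (by positivity) (by exact_mod_cast h)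
  have hA2r : (0 : ℝ) < A2 := by
    have : 0 < A2 := by omega
    exact_mod_cast this
  have hmin : Real.log ((min A2 (x / B1 + 1) : ℕ) : ℝ) = min (Real.log A2) (Real.log ((x / B1 + 1 : ℕ) : ℝ)) := by
    rcases le_total A2 (x / B1 + 1) with h | h
    · rw [min_eq_left h, min_eq_left]
      exact Real.log_le_log hA2r (by exact_mod_cast h)
    · rw [min_eq_right h, min_eq_right]
      exact Real.log_le_log (by positivity) (by exact_mod_cast h)
  rw [hmax, hmin]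
  have e1 := z2_log (B := B1) (by omega) hxpos h1 h2
  have e2 := z2_log (B := B2) (by omega) hxpos h1 h2
  have hxAB : (A1 : ℝ) * B1 ≤ 2 * x := by exact_mod_cast hx
  have hABr : (A1 : ℝ) ≤ B1 := by exact_mod_cast hAB
  have hB2r : (B2 : ℝ) ≤ 2 * B1 := by exact_mod_cast hB2'
  have hHr : (H : ℝ) ≤ 3 * A1 := by exact_mod_cast hH
  have f1 : (B1 : ℝ) / x ≤ 2 / A1 := by
    rw [div_le_div_iff₀ hxr hAr]
    linarith
  have f2 : (B2 : ℝ) / x ≤ 4 / A1 := by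
    rw [div_le_div_iff₀ hxr hAr]
    nlinarith
  have f3 : (H : ℝ) / x ≤ 6 / A1 := by
    rw [div_le_div_iff₀ hxr hAr]
    have h3 : (H : ℝ) * A1 ≤ 3 * A1 * B1 := mul_le_mul hHr hABr hAr.le (by positivity)
    linarith
  have g1 : |min (Real.log A2) (Real.log m - Real.log B1) - min (Real.log A2) (Real.log ((x / B1 + 1 : ℕ) : ℝ))| ≤
      |(Real.log m - Real.log B1) - Real.log ((x / B1 + 1 : ℕ) : ℝ)| := by
    have h3 := abs_min_sub_min_le_max (Real.log A2) (Real.log m - Real.log B1) (Real.log A2) (Real.log ((x / B1 + 1 : ℕ) : ℝ))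
    rw [sub_self, abs_zero, max_eq_right (abs_nonneg _)] at h3
    exact h3
  have g2 : |max (Real.log A1) (Real.log m - Real.log B2) - max (Real.log A1) (Real.log ((x / B2 + 1 : ℕ) : ℝ))| ≤
      |(Real.log m - Real.log B2) - Real.log ((x / B2 + 1 : ℕ) : ℝ)| := by
    have h3 := abs_max_sub_max_le_max (Real.log A1) (Real.log m - Real.log B2) (Real.log A1) (Real.log ((x / B2 + 1 : ℕ) : ℝ))
    refine h3.trans (max_le ?_ le_rfl)
    rw [sub_self, abs_zero]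
    exact abs_nonneg _
  unfold lbox
  set a := min (Real.log A2) (Real.log m - Real.log B1) with ha
  set a' := min (Real.log A2) (Real.log ((x / B1 + 1 : ℕ) : ℝ)) with ha'
  set b := max (Real.log A1) (Real.log m - Real.log B2) with hb
  set b' := max (Real.log A1) (Real.log ((x / B2 + 1 : ℕ) : ℝ)) with hb'
  have g3 : |max 0 (a - b) - max 0 (a' - b')| ≤ |(a - b) - (a' - b')| := by
    refine (abs_max_sub_max_le_max 0 (a - b) 0 (a' - b')).trans (max_le ?_ le_rfl)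
    rw [sub_self, abs_zero]
    exact abs_nonneg _
  have g4 : |(a - b) - (a' - b')| ≤ |a - a'| + |b - b'| := by
    have h3 : (a - b) - (a' - b') = (a - a') - (b - b') := by ring
    rw [h3]
    exact abs_sub _ _
  have f4 : (2 : ℝ) / A1 + 6 / A1 + (4 / A1 + 6 / A1) ≤ 24 / A1 := by
    rw [← add_div, ← add_div, ← add_div, div_le_div_iff_of_pos_right hAr]
    norm_num
  linarith

end Pool.Agent.Lib.H21T
end

-- from Lib.HUK.B12
section

/-!
# HUK B12 (S/M, only Mathlib): support and bounds of the dual function `Psi`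

PROOFS. In `Psi X k f n` a non-zero term has `n - k h ∈ [-X, X)` (`j = 0`) and `n - (k-1) h ∈ [-X, X)` would need the index `j = 1 < k`
(as `k ≥ 2`). Then `n = k (n - (k-1) h) - (k-1) (n - k h)`, so `|n| ≤ k X + (k-1) X < 2 k X`.
`b12_log`: for `1 ≤ d ≤ Y`, `log d = ∑_{1 ≤ i < d} log(1 + 1/i)`, so
`∑_{d ∈ [1,Y]} a(d) log d = ∑_{i ∈ [1,Y]} log(1+1/i) ∑_{d ∈ (i, Y]} a(d)`, and `∑_{i ≤ Y} log (1+1/i) = log (Y+1)`.
-/

open Finset

namespace Pool.Agent.HUK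

theorem b12_psi_zero (X k : ℕ) (hk : 2 ≤ k) (f : ℕ → ℤ → ℂ) (hf : ∀ j, j < k → Bdd X (f j)) (n : ℤ)
    (hn : (2 * k * X : ℤ) < n) : Psi X k f n = 0 := by
  unfold Psi
  refine Finset.sum_eq_zero fun h _ => ?_
  by_contra hne
  rw [← ne_eq, Finset.prod_ne_zero_iff] at hne
  have h0 := hne 0 (Finset.mem_range.2 (by omega))
  have h1 := hne 1 (Finset.mem_range.2 (by omega))
  have e0 : n - ((k : ℤ) - ((0 : ℕ) : ℤ)) * h ∈ Ico (-(X : ℤ)) X := by
    by_contra hc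
    exact h0 ((hf 0 (by omega)).sup _ hc)
  have e1 : n - ((k : ℤ) - ((1 : ℕ) : ℤ)) * h ∈ Ico (-(X : ℤ)) X := by
    by_contra hc
    exact h1 ((hf 1 (by omega)).sup _ hc)
  rw [Finset.mem_Ico] at e0 e1
  push_cast at e0 e1
  have hk' : (2 : ℤ) ≤ k := by exact_mod_cast hk
  have hX : (0 : ℤ) ≤ X := by positivity
  obtain ⟨a0, a1⟩ := e0
  obtain ⟨b0, b1⟩ := e1
  have hid : n = k * (n - ((k : ℤ) - 1) * h) - (k - 1) * (n - ((k : ℤ) - 0) * h) := by ring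
  have i1 : (k : ℤ) * (n - ((k : ℤ) - 1) * h) ≤ k * X :=
    mul_le_mul_of_nonneg_left b1.le (by linarith)
  have i2 : ((k : ℤ) - 1) * (-X) ≤ (k - 1) * (n - ((k : ℤ) - 0) * h) :=
    mul_le_mul_of_nonneg_left a0 (by linarith)
  nlinarith

theorem b12_ind (Y : ℕ) (a : ℕ → ℂ) :
    ∑ d ∈ Icc 1 Y, a d * ((Real.log d : ℝ) : ℂ) =
      ∑ i ∈ Icc 1 Y, (((Real.log (i + 1) - Real.log i : ℝ)) : ℂ) * ∑ d ∈ Ioc i Y, a d := by
  have hlog : ∀ d : ℕ, 1 ≤ d → Real.log d = ∑ i ∈ Ico 1 d, (Real.log ((i : ℝ) + 1) - Real.log i) := by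
    intro d hd
    induction d, hd using Nat.le_induction with
    | base => simp
    | succ m hm ih =>
      rw [Finset.sum_Ico_succ_top hm, ← ih]
      push_cast
      ring
  have h1 : ∀ d ∈ Icc 1 Y, a d * ((Real.log d : ℝ) : ℂ) =
      ∑ i ∈ Icc 1 Y, if i < d then (((Real.log (i + 1) - Real.log i : ℝ)) : ℂ) * a d else 0 := by
    intro d hd
    rw [Finset.mem_Icc] at hd
    rw [hlog d hd.1, ← Finset.sum_filter]
    have hs : (Icc 1 Y).filter (fun i => i < d) = Ico 1 d := by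
      ext i
      simp only [Finset.mem_filter, Finset.mem_Icc, Finset.mem_Ico]
      omega
    rw [hs]
    push_cast
    rw [Finset.mul_sum]
    refine Finset.sum_congr rfl fun i _ => ?_
    ring
  rw [Finset.sum_congr rfl h1, Finset.sum_comm]
  refine Finset.sum_congr rfl fun i hi => ?_
  rw [Finset.mem_Icc] at hi
  rw [← Finset.sum_filter, Finset.mul_sum]
  refine Finset.sum_congr ?_ fun d _ => rfl
  ext d
  simp only [Finset.mem_filter, Finset.mem_Icc, Finset.mem_Ioc]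
  omega

theorem b12_log (Y : ℕ) (a : ℕ → ℂ) (E : ℝ) (hE : ∀ i : ℕ, ‖∑ d ∈ Ioc i Y, a d‖ ≤ E) :
    ‖∑ d ∈ Icc 1 Y, a d * ((Real.log d : ℝ) : ℂ)‖ ≤ E * Real.log (Y + 1) := by
  rw [b12_ind]
  have hmono : ∀ i ∈ Icc 1 Y, 0 ≤ Real.log ((i : ℝ) + 1) - Real.log i := by
    intro i hi
    rw [Finset.mem_Icc] at hi
    have : (0 : ℝ) < i := by exact_mod_cast hi.1
    have := Real.log_le_log this (by linarith : (i : ℝ) ≤ i + 1)
    linarith
  have htel : ∑ i ∈ Icc 1 Y, (Real.log ((i : ℝ) + 1) - Real.log i) = Real.log (Y + 1) := by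
    have : Icc 1 Y = Ico 1 (Y + 1) := by
      ext i
      simp only [Finset.mem_Icc, Finset.mem_Ico]
      omega
    rw [this]
    have h := Finset.sum_Ico_sub (fun i : ℕ => Real.log (i : ℝ)) (by omega : 1 ≤ Y + 1)
    push_cast at h
    rw [h]
    simp
  calc ‖∑ i ∈ Icc 1 Y, (((Real.log (i + 1) - Real.log i : ℝ)) : ℂ) * ∑ d ∈ Ioc i Y, a d‖
      ≤ ∑ i ∈ Icc 1 Y, (Real.log ((i : ℝ) + 1) - Real.log i) * E := by
        refine (norm_sum_le _ _).trans (Finset.sum_le_sum fun i hi => ?_)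
        rw [norm_mul, Complex.norm_real, Real.norm_of_nonneg (hmono i hi)]
        exact mul_le_mul_of_nonneg_left (hE i) (hmono i hi)
    _ = E * Real.log (Y + 1) := by
        rw [← Finset.sum_mul, htel, mul_comm]

end Pool.Agent.HUK
end

-- from Lib.HUK.B14
section

/-!
# HUK B14 (M, only Mathlib): the numbers

PROOF. Put `ε = τ / 2^(k+4)`. For large `X`: `1/S ≤ 8 log(4 X^τ) ≤ X^ε` and `(1/S)(2 log(2kX)) + 1 ≤ X^(2ε)` (logarithms are
`o(X^ε)`: `isLittleO_log_rpow_atTop`, or `Real.add_one_le_exp` / `Real.log_le_rpow_div`), `X^τ / 2 ≤ ⌊X^τ⌋ ≤ X^τ`, `X^θ / 2 ≤ ⌊X^θ⌋ ≤ L`.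
First term: `≤ C X^(2^k ε) 4^(2^(k+1)) X^(2^(k+1) τ)`, and `X^(2^(k+1) τ) = X^(2^(k+3) τ) X^(-3 * 2^(k+1) τ) ≤ 2 L X^(-6 τ)` (as `2^(k+3) τ ≤ θ`,
`3 * 2^(k+1) ≥ 6`), so the first term is `≤ 2 C 4^(2^(k+1)) X^(τ/16) L X^(-6τ) ≤ (L/2) X^(-τ/2)`.
Second term: `≤ 27 C 2^k X^(2^(k+1) ε) X^(2ε) 2 L X^(-τ) ≤ (L/2) X^(-τ/2)` as `2^(k+1) ε + 2 ε ≤ τ/8 + τ/8 < τ/2`.
-/

open Finset

namespace Pool.Agent.HUK

theorem b14_log (a b e : ℝ) (he : 0 < e) : ∀ᶠ x : ℝ in Filter.atTop, a + b * Real.log x ≤ x ^ e := by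
  have h1 := (isLittleO_log_rpow_atTop he).bound (c := 1 / (2 * (|b| + 1))) (by positivity)
  have h2 : ∀ᶠ x : ℝ in Filter.atTop, 2 * a ≤ x ^ e := (tendsto_rpow_atTop he).eventually_ge_atTop _
  filter_upwards [h1, h2, Filter.eventually_ge_atTop (1 : ℝ)] with x h1 h2 hx
  have hxe : 0 < x ^ e := Real.rpow_pos_of_pos (by linarith) e
  rw [Real.norm_eq_abs, Real.norm_eq_abs, abs_of_pos hxe] at h1
  have h3 : b * Real.log x ≤ |b| * |Real.log x| := by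
    rw [← abs_mul]
    exact le_abs_self _
  have h4 : |b| * |Real.log x| ≤ |b| * (1 / (2 * (|b| + 1)) * x ^ e) :=
    mul_le_mul_of_nonneg_left h1 (abs_nonneg b)
  have h5 : |b| * (1 / (2 * (|b| + 1)) * x ^ e) ≤ x ^ e / 2 := by
    have hb := abs_nonneg b
    have h6 : |b| * (1 / (2 * (|b| + 1)) * x ^ e) = (|b| / (|b| + 1)) * (x ^ e / 2) := by
      field_simp
    rw [h6]
    exact mul_le_of_le_one_left (by positivity) (div_le_one_of_le₀ (by linarith) (by linarith))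
  linarith

theorem b14_floor {y : ℝ} (hy : 2 ≤ y) : y / 2 ≤ (⌊y⌋₊ : ℝ) := by
  have h1 := Nat.lt_floor_add_one y
  linarith

/-- The estimate for one x. -/
theorem b14_core (k : ℕ) (θ τ C x : ℝ) (hτ : 0 < τ) (hθτ : 2 ^ (k + 3) * τ ≤ θ) (hC : 1 ≤ C) (hx : 1 ≤ x)
    (h2 : 2 ≤ x ^ τ) (h3 : C * 4 ^ (2 ^ (k + 1) + 1) ≤ x ^ τ) (h4 : 108 * C * 2 ^ k ≤ x ^ (τ / 4))
    {a B L : ℝ} (ha : 0 < a) (haE : a ≤ x ^ (τ / 2 ^ (k + 4))) (hB : 0 ≤ B) (hBE : B ≤ x ^ (2 * (τ / 2 ^ (k + 4))))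
    (hL : (⌊x ^ θ⌋₊ : ℝ) ≤ L) :
    C * (a ^ (2 ^ k) * (4 * ⌊x ^ τ⌋₊ : ℝ) ^ (2 ^ (k + 1)) + 27 * 2 ^ k * B ^ (2 ^ k) * a ^ 2 * L / ⌊x ^ τ⌋₊) ≤
      L * x ^ (-(τ / 2)) := by
  have hx0 : 0 < x := by linarith
  have hp1 : (1 : ℝ) ≤ 2 ^ k := one_le_pow₀ (by norm_num)
  have hp : (0 : ℝ) < 2 ^ k := by positivity
  have e4 : (2 : ℝ) ^ (k + 4) = 16 * 2 ^ k := by ring
  have e3 : (2 : ℝ) ^ (k + 3) = 8 * 2 ^ k := by ring
  have e1 : (2 : ℝ) ^ (k + 1) = 2 * 2 ^ k := by ring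
  have hT1 : (⌊x ^ τ⌋₊ : ℝ) ≤ x ^ τ := Nat.floor_le (by positivity)
  have hT2 : x ^ τ / 2 ≤ (⌊x ^ τ⌋₊ : ℝ) := b14_floor h2
  have hτθ : τ ≤ θ := by nlinarith
  have hxθ : 2 ≤ x ^ θ := h2.trans (Real.rpow_le_rpow_of_exponent_le hx hτθ)
  have hL1 : x ^ (8 * 2 ^ k * τ) / 2 ≤ L := by
    have h5 : x ^ (8 * 2 ^ k * τ) ≤ x ^ θ := Real.rpow_le_rpow_of_exponent_le hx (by rw [← e3]; exact hθτ)
    have h6 := b14_floor hxθ
    linarith
  have hL0 : 0 < L := lt_of_lt_of_le (by positivity) hL1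
  -- powers
  have hnat : ∀ (y : ℝ) (n : ℕ), (x ^ y) ^ n = x ^ (y * n) := fun y n => by
    rw [← Real.rpow_natCast, ← Real.rpow_mul hx0.le]
  have hA : a ^ (2 ^ k) ≤ x ^ (τ / 16) := by
    have h5 : a ^ (2 ^ k) ≤ (x ^ (τ / 2 ^ (k + 4))) ^ (2 ^ k) := pow_le_pow_left₀ ha.le haE _
    rw [hnat] at h5
    have e5 : τ / 2 ^ (k + 4) * ((2 ^ k : ℕ) : ℝ) = τ / 16 := by
      push_cast
      rw [e4]
      field_simp
    rwa [e5] at h5
  have hA2 : a ^ 2 ≤ x ^ (τ / 8) := by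
    have h5 : a ^ 2 ≤ (x ^ (τ / 2 ^ (k + 4))) ^ 2 := pow_le_pow_left₀ ha.le haE _
    rw [hnat] at h5
    refine h5.trans (Real.rpow_le_rpow_of_exponent_le hx ?_)
    rw [e4]
    push_cast
    rw [div_mul_eq_mul_div, div_le_div_iff₀ (by positivity) (by norm_num)]
    nlinarith
  have hB1 : B ^ (2 ^ k) ≤ x ^ (τ / 8) := by
    have h5 : B ^ (2 ^ k) ≤ (x ^ (2 * (τ / 2 ^ (k + 4)))) ^ (2 ^ k) := pow_le_pow_left₀ hB hBE _
    rw [hnat] at h5
    have e5 : 2 * (τ / 2 ^ (k + 4)) * ((2 ^ k : ℕ) : ℝ) = τ / 8 := by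
      push_cast
      rw [e4]
      field_simp
      ring
    rwa [e5] at h5
  have hT3 : (4 * (⌊x ^ τ⌋₊ : ℝ)) ^ (2 ^ (k + 1)) ≤ 4 ^ (2 ^ (k + 1)) * x ^ (τ * (2 * 2 ^ k)) := by
    have h5 : (4 * (⌊x ^ τ⌋₊ : ℝ)) ^ (2 ^ (k + 1)) ≤ (4 * x ^ τ) ^ (2 ^ (k + 1)) :=
      pow_le_pow_left₀ (by positivity) (by linarith) _
    rw [mul_pow 4 (x ^ τ), hnat] at h5
    have e5 : τ * ((2 ^ (k + 1) : ℕ) : ℝ) = τ * (2 * 2 ^ k) := by
      push_cast
      rw [e1]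
    rwa [e5] at h5
  -- first term
  have hfirst : C * (a ^ (2 ^ k) * (4 * ⌊x ^ τ⌋₊ : ℝ) ^ (2 ^ (k + 1))) ≤ L / 2 * x ^ (-(τ / 2)) := by
    have h5 : a ^ (2 ^ k) * (4 * ⌊x ^ τ⌋₊ : ℝ) ^ (2 ^ (k + 1)) ≤
        x ^ (τ / 16) * (4 ^ (2 ^ (k + 1)) * x ^ (τ * (2 * 2 ^ k))) :=
      mul_le_mul hA hT3 (by positivity) (by positivity)
    have h6 : C * (a ^ (2 ^ k) * (4 * ⌊x ^ τ⌋₊ : ℝ) ^ (2 ^ (k + 1))) ≤
        C * (x ^ (τ / 16) * (4 ^ (2 ^ (k + 1)) * x ^ (τ * (2 * 2 ^ k)))) :=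
      mul_le_mul_of_nonneg_left h5 (by linarith)
    have h7 : C * (x ^ (τ / 16) * (4 ^ (2 ^ (k + 1)) * x ^ (τ * (2 * 2 ^ k)))) =
        (C * 4 ^ (2 ^ (k + 1) + 1)) * (x ^ (τ / 16) * x ^ (τ * (2 * 2 ^ k))) / 4 := by
      rw [pow_succ (4 : ℝ) (2 ^ (k + 1))]
      ring
    have h8 : (C * 4 ^ (2 ^ (k + 1) + 1)) * (x ^ (τ / 16) * x ^ (τ * (2 * 2 ^ k))) ≤
        x ^ τ * (x ^ (τ / 16) * x ^ (τ * (2 * 2 ^ k))) :=
      mul_le_mul_of_nonneg_right h3 (by positivity)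
    have h9 : x ^ τ * (x ^ (τ / 16) * x ^ (τ * (2 * 2 ^ k))) ≤ x ^ (8 * 2 ^ k * τ) * x ^ (-(τ / 2)) := by
      rw [← Real.rpow_add hx0, ← Real.rpow_add hx0, ← Real.rpow_add hx0]
      apply Real.rpow_le_rpow_of_exponent_le hx
      nlinarith
    have h10 : x ^ (8 * 2 ^ k * τ) / 2 * x ^ (-(τ / 2)) ≤ L * x ^ (-(τ / 2)) :=
      mul_le_mul_of_nonneg_right hL1 (by positivity)
    rw [h7] at h6
    linarith
  -- second term
  have hsecond : C * (27 * 2 ^ k * B ^ (2 ^ k) * a ^ 2 * L / ⌊x ^ τ⌋₊) ≤ L / 2 * x ^ (-(τ / 2)) := by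
    have hT0 : (0 : ℝ) < x ^ τ / 2 := by positivity
    have h5 : 27 * 2 ^ k * B ^ (2 ^ k) * a ^ 2 * L / ⌊x ^ τ⌋₊ ≤
        27 * 2 ^ k * x ^ (τ / 8) * x ^ (τ / 8) * L / (x ^ τ / 2) := by
      apply div_le_div₀ (by positivity) _ hT0 hT2
      apply mul_le_mul_of_nonneg_right _ hL0.le
      apply mul_le_mul _ hA2 (by positivity) (by positivity)
      exact mul_le_mul_of_nonneg_left hB1 (by positivity)
    have h6 : C * (27 * 2 ^ k * B ^ (2 ^ k) * a ^ 2 * L / ⌊x ^ τ⌋₊) ≤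
        C * (27 * 2 ^ k * x ^ (τ / 8) * x ^ (τ / 8) * L / (x ^ τ / 2)) :=
      mul_le_mul_of_nonneg_left h5 (by linarith)
    have h7 : C * (27 * 2 ^ k * x ^ (τ / 8) * x ^ (τ / 8) * L / (x ^ τ / 2)) =
        (108 * C * 2 ^ k) * (x ^ (τ / 8) * x ^ (τ / 8) * x ^ (-τ)) * (L / 2) := by
      rw [Real.rpow_neg hx0.le]
      field_simp
      ring
    have h8 : (108 * C * 2 ^ k) * (x ^ (τ / 8) * x ^ (τ / 8) * x ^ (-τ)) ≤
        x ^ (τ / 4) * (x ^ (τ / 8) * x ^ (τ / 8) * x ^ (-τ)) :=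
      mul_le_mul_of_nonneg_right h4 (by positivity)
    have h9 : x ^ (τ / 4) * (x ^ (τ / 8) * x ^ (τ / 8) * x ^ (-τ)) = x ^ (-(τ / 2)) := by
      rw [← Real.rpow_add hx0, ← Real.rpow_add hx0, ← Real.rpow_add hx0]
      congr 1
      ring
    rw [h9] at h8
    rw [h7] at h6
    have h10 := mul_le_mul_of_nonneg_right h8 (by positivity : (0 : ℝ) ≤ L / 2)
    linarith
  have e6 : C * (a ^ (2 ^ k) * (4 * ⌊x ^ τ⌋₊ : ℝ) ^ (2 ^ (k + 1)) + 27 * 2 ^ k * B ^ (2 ^ k) * a ^ 2 * L / ⌊x ^ τ⌋₊) =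
      C * (a ^ (2 ^ k) * (4 * ⌊x ^ τ⌋₊ : ℝ) ^ (2 ^ (k + 1))) + C * (27 * 2 ^ k * B ^ (2 ^ k) * a ^ 2 * L / ⌊x ^ τ⌋₊) := by
    ring
  rw [e6]
  linarith

theorem b14_num (k : ℕ) (θ τ C : ℝ) (hτ : 0 < τ) (hθτ : 2 ^ (k + 3) * τ ≤ θ) (hθ : θ ≤ 1) (hC : 1 ≤ C) :
    ∃ X0 : ℕ, ∀ X : ℕ, X0 ≤ X → ∀ S : ℝ, 0 < S → 1 / S ≤ 8 * Real.log (4 * ⌊(X : ℝ) ^ τ⌋₊) →
    ∀ L : ℝ, (⌊(X : ℝ) ^ θ⌋₊ : ℝ) ≤ L →
    C * ((1 / S) ^ (2 ^ k) * (4 * ⌊(X : ℝ) ^ τ⌋₊ : ℝ) ^ (2 ^ (k + 1))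
        + 27 * 2 ^ k * ((1 / S) * (2 * Real.log (2 * k * X)) + 1) ^ (2 ^ k) * (1 / S) ^ 2 * L / ⌊(X : ℝ) ^ τ⌋₊) ≤
      L * (X : ℝ) ^ (-(τ / 2)) := by
  have he : 0 < τ / 2 ^ (k + 4) := by positivity
  have k1 := b14_log (8 * Real.log 4) (8 * τ) _ he
  have k2 := b14_log (2 * Real.log (2 * k + 1) + 1) 2 _ he
  have k3 : ∀ᶠ x : ℝ in Filter.atTop, max 2 (C * 4 ^ (2 ^ (k + 1) + 1)) ≤ x ^ τ :=
    (tendsto_rpow_atTop hτ).eventually_ge_atTop _
  have k4 : ∀ᶠ x : ℝ in Filter.atTop, 108 * C * 2 ^ k ≤ x ^ (τ / 4) :=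
    (tendsto_rpow_atTop (by positivity)).eventually_ge_atTop _
  have k5 := (((k1.and k2).and (k3.and k4)).and (Filter.eventually_ge_atTop (1 : ℝ)))
  have k6 := tendsto_natCast_atTop_atTop (R := ℝ) |>.eventually k5
  obtain ⟨X0, hX0⟩ := Filter.eventually_atTop.1 k6
  refine ⟨X0, fun X hX S hS hS1 L hL => ?_⟩
  obtain ⟨⟨⟨g1, g2⟩, g3, g4⟩, hx⟩ := hX0 X hX
  have hx0 : (0 : ℝ) < X := by linarith
  have h2 := (le_max_left _ _).trans g3
  have h3 := (le_max_right _ _).trans g3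
  have ha : 0 < 1 / S := by positivity
  have haE : 1 / S ≤ (X : ℝ) ^ (τ / 2 ^ (k + 4)) := by
    refine hS1.trans ?_
    have hT1 : (⌊(X : ℝ) ^ τ⌋₊ : ℝ) ≤ (X : ℝ) ^ τ := Nat.floor_le (by positivity)
    have hT2 : (X : ℝ) ^ τ / 2 ≤ (⌊(X : ℝ) ^ τ⌋₊ : ℝ) := b14_floor h2
    have h5 : Real.log (4 * ⌊(X : ℝ) ^ τ⌋₊) ≤ Real.log (4 * (X : ℝ) ^ τ) := by
      apply Real.log_le_log
      · linarith
      · linarith
    have h6 : Real.log (4 * (X : ℝ) ^ τ) = Real.log 4 + τ * Real.log X := by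
      rw [Real.log_mul (by norm_num) (by positivity), Real.log_rpow hx0]
    rw [h6] at h5
    linarith
  have hlog0 : 0 ≤ Real.log (2 * k * X) := by
    rcases Nat.eq_zero_or_pos k with hk | hk
    · rw [hk]
      simp
    · apply Real.log_nonneg
      have : (1 : ℝ) ≤ k := by exact_mod_cast hk
      nlinarith
  have hlog1 : Real.log (2 * k * X) ≤ Real.log (2 * k + 1) + Real.log X := by
    rw [← Real.log_mul (by positivity) (by positivity)]
    rcases Nat.eq_zero_or_pos k with hk | hk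
    · rw [hk]
      simp only [Nat.cast_zero, mul_zero, zero_mul, Real.log_zero, zero_add, one_mul]
      exact Real.log_nonneg hx
    · apply Real.log_le_log
      · have : (1 : ℝ) ≤ k := by exact_mod_cast hk
        positivity
      · nlinarith
  have hE1 : 1 ≤ (X : ℝ) ^ (τ / 2 ^ (k + 4)) := Real.one_le_rpow hx he.le
  have hB : 0 ≤ (1 / S) * (2 * Real.log (2 * k * X)) + 1 := by positivity
  have hBE : (1 / S) * (2 * Real.log (2 * k * X)) + 1 ≤ (X : ℝ) ^ (2 * (τ / 2 ^ (k + 4))) := by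
    have h5 : (1 / S) * (2 * Real.log (2 * k * X)) ≤ (X : ℝ) ^ (τ / 2 ^ (k + 4)) * (2 * Real.log (2 * k * X)) :=
      mul_le_mul_of_nonneg_right haE (by positivity)
    have h6 : 2 * Real.log (2 * k * X) + 1 ≤ (X : ℝ) ^ (τ / 2 ^ (k + 4)) := by linarith
    have h7 : (X : ℝ) ^ (2 * (τ / 2 ^ (k + 4))) = (X : ℝ) ^ (τ / 2 ^ (k + 4)) * (X : ℝ) ^ (τ / 2 ^ (k + 4)) := by
      rw [← Real.rpow_add hx0]
      congr 1
      ring
    rw [h7]
    nlinarith
  exact b14_core k θ τ C X hτ hθτ hC hx h2 h3 g4 ha haE hB hBE hL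

end Pool.Agent.HUK
end

-- from Lib.HUK.B05
section

/-!
# HUK B05 (M, only Mathlib): incomplete sums of a product of two periodic functions with coprime periods

PROOF. Let `F = a b`, periodic modulo `P = p R`. Over a complete period `∑_{x < P} a(x) b(x) = (∑_{x < p} a)(∑_{y < R} b) = 0` (Chinese
remainder theorem: `x ↦ (x mod p, x mod R)` is a bijection `range P → range p × range R`; `Nat.chineseRemainder`, or `ZMod.chineseRemainder`,
or: write `x = i + p j`, `i < p`, `j < R`; for fixed `i` the map `j ↦ i + p j mod R` is a bijection, so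
`∑_x a(x) b(x) = ∑_{i<p} a(i) ∑_{j<R} b(i + p j) = ∑_i a(i) (∑_{y<R} b(y)) = 0`). By periodicity the sum over any `P` consecutive
integers is `0` (`Function.Periodic`, or induction moving the window by one). Cut `[u, v)` in blocks of `P` consecutive integers and a rest of
fewer than `P` integers, where each term is at most `1` in absolute value (strong induction on `v - u`: if `v - u < P` trivial bound, else
remove the first `P` terms).
-/

open Finset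

namespace Pool.Agent.HUK

theorem b05_zmod (R : ℕ) [NeZero R] (h : ZMod R → ℝ) :
    ∑ w ∈ range R, h (w : ZMod R) = ∑ z, h z := by
  refine Finset.sum_nbij' (fun w => (w : ZMod R)) (fun z => z.val) ?_ ?_ ?_ ?_ ?_
  · intro _ _
    exact Finset.mem_univ _
  · intro z _
    exact Finset.mem_range.2 (ZMod.val_lt z)
  · intro w hw
    exact ZMod.val_natCast_of_lt (Finset.mem_range.1 hw)
  · intro z _
    exact ZMod.natCast_zmod_val z
  · intro _ _
    rfl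

theorem b05_lift (R : ℕ) [NeZero R] (b : ℤ → ℝ) (hb : ∀ x, b (x + R) = b x) (x : ℤ) :
    b ((((x : ZMod R).val : ℕ) : ℤ)) = b x := by
  have hper : Function.Periodic b (R : ℤ) := hb
  rw [ZMod.val_intCast]
  have h1 := hper.int_mul (x / R) (x % R)
  rw [Int.cast_id] at h1
  rw [show x % (R : ℤ) + x / R * R = x by rw [mul_comm]; exact Int.emod_add_mul_ediv x R] at h1
  exact h1.symm

theorem b05_bsum (p R : ℕ) (hR : 0 < R) (hc : Nat.Coprime p R) (b : ℤ → ℝ)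
    (hb : ∀ x, b (x + R) = b x) (t : ℤ) :
    ∑ w ∈ range R, b (t + w * p) = ∑ y ∈ range R, b y := by
  have : NeZero R := ⟨hR.ne'⟩
  have h1 : ∀ w : ℕ, b (t + w * p) =
      (fun z : ZMod R => b (((z.val : ℕ) : ℤ))) ((t : ZMod R) + (w : ZMod R) * p) := by
    intro w
    have h2 := b05_lift R b hb (t + w * p)
    push_cast at h2
    exact h2.symm
  have h1' : ∀ w : ℕ, b (w : ℤ) = (fun z : ZMod R => b (((z.val : ℕ) : ℤ))) (w : ZMod R) := by
    intro w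
    have h2 := b05_lift R b hb (w : ℤ)
    push_cast at h2
    exact h2.symm
  rw [Finset.sum_congr rfl fun w _ => h1 w, Finset.sum_congr rfl fun w _ => h1' w,
    b05_zmod R (fun z => (fun z : ZMod R => b (((z.val : ℕ) : ℤ))) ((t : ZMod R) + z * p)),
    b05_zmod R (fun z : ZMod R => b (((z.val : ℕ) : ℤ)))]
  have hu : IsUnit (p : ZMod R) := (ZMod.isUnit_iff_coprime p R).2 hc
  obtain ⟨u, hu⟩ := hu
  rw [← hu]
  exact Equiv.sum_comp (Equiv.trans (Units.mulRight u) (Equiv.addLeft (t : ZMod R)))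
    (fun z : ZMod R => b (((z.val : ℕ) : ℤ)))

theorem b05_blocks (p : ℕ) (a : ℤ → ℝ) (ha : ∀ x, a (x + p) = a x)
    (ha0 : ∑ x ∈ range p, a x = 0) (n : ℕ) : ∑ x ∈ range (p * n), a x = 0 := by
  induction n with
  | zero => simp
  | succ n ih =>
    rw [Nat.mul_succ, Finset.sum_range_add, ih, zero_add, ← ha0]
    refine Finset.sum_congr rfl fun t _ => ?_
    have hper : Function.Periodic a (p : ℤ) := ha
    have h1 := hper.nat_mul n (t : ℤ)
    rw [← h1]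
    push_cast
    congr 1
    ring

theorem b05_shift (P : ℕ) (F : ℤ → ℝ) (hF : ∀ x, F (x + P) = F x) (u : ℤ) :
    ∑ t ∈ range P, F (u + t) = ∑ t ∈ range P, F t := by
  have h1 : ∀ v : ℤ, ∑ t ∈ range P, F (v + 1 + t) = ∑ t ∈ range P, F (v + t) := by
    intro v
    have h2 := Finset.sum_range_succ (fun t : ℕ => F (v + t)) P
    have h3 := Finset.sum_range_succ' (fun t : ℕ => F (v + t)) P
    rw [h2] at h3
    push_cast at h3
    rw [hF, add_zero] at h3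
    have h4 : ∑ t ∈ range P, F (v + 1 + t) = ∑ t ∈ range P, F (v + ((t : ℤ) + 1)) := by
      refine Finset.sum_congr rfl fun t _ => ?_
      congr 1
      ring
    rw [h4]
    linarith
  induction u using Int.induction_on with
  | zero => simp
  | succ i ih => rw [h1, ih]
  | pred i ih =>
    rw [← ih, ← h1 (-(i : ℤ) - 1)]
    refine Finset.sum_congr rfl fun t _ => ?_
    congr 1
    ring

theorem b05_full (p R : ℕ) (hR : 0 < R) (hc : Nat.Coprime p R) (a b : ℤ → ℝ)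
    (ha : ∀ x, a (x + p) = a x) (hb : ∀ x, b (x + R) = b x) (ha0 : ∑ x ∈ range p, a x = 0) (u : ℤ) :
    ∑ t ∈ range (p * R), a (u + t) * b (u + t) = 0 := by
  have hpa : Function.Periodic a (p : ℤ) := ha
  have hpb : Function.Periodic b (R : ℤ) := hb
  have hF : ∀ x, (fun x => a x * b x) (x + (p * R : ℕ)) = (fun x => a x * b x) x := by
    intro x
    change a (x + (p * R : ℕ)) * b (x + (p * R : ℕ)) = a x * b x
    have h1 := hpa.nat_mul R x
    have h2 := hpb.nat_mul p x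
    rw [show x + ((p * R : ℕ) : ℤ) = x + (R : ℤ) * p by push_cast; ring, h1,
      show x + (R : ℤ) * p = x + (p : ℤ) * R by ring, h2]
  have hsh := b05_shift (p * R) (fun x => a x * b x) hF
  have hS : ∀ w : ℤ, ∑ t ∈ range (p * R), a t * b (t + w * p) =
      ∑ t ∈ range (p * R), a (t : ℤ) * b (t : ℤ) := by
    intro w
    rw [← hsh (w * p)]
    refine Finset.sum_congr rfl fun t _ => ?_
    change a t * b (t + w * p) = a (w * p + t) * b (w * p + t)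
    have h1 := hpa.int_mul w (t : ℤ)
    rw [Int.cast_id] at h1
    rw [show w * (p : ℤ) + t = t + w * p by ring, h1]
  have h3 : (R : ℝ) * ∑ t ∈ range (p * R), a (t : ℤ) * b (t : ℤ) = 0 := by
    calc (R : ℝ) * ∑ t ∈ range (p * R), a (t : ℤ) * b (t : ℤ)
        = ∑ w ∈ range R, ∑ t ∈ range (p * R), a t * b (t + (w : ℤ) * p) := by
          rw [Finset.sum_congr rfl fun (w : ℕ) _ => hS (w : ℤ), Finset.sum_const, Finset.card_range,
            nsmul_eq_mul]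
      _ = ∑ t ∈ range (p * R), a t * ∑ w ∈ range R, b (t + (w : ℤ) * p) := by
          rw [Finset.sum_comm]
          refine Finset.sum_congr rfl fun t _ => ?_
          rw [Finset.mul_sum]
      _ = ∑ t ∈ range (p * R), a t * ∑ y ∈ range R, b y := by
          refine Finset.sum_congr rfl fun t _ => ?_
          rw [b05_bsum p R hR hc b hb]
      _ = 0 := by
          rw [← Finset.sum_mul, b05_blocks p a ha ha0, zero_mul]
  have hR0 : (R : ℝ) ≠ 0 := by exact_mod_cast hR.ne'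
  have h4 := (mul_eq_zero.1 h3).resolve_left hR0
  rw [← h4]
  exact hsh u

theorem b05_range (P : ℕ) (hP : 0 < P) (F : ℤ → ℝ) (hF : ∀ u : ℤ, ∑ t ∈ range P, F (u + t) = 0)
    (h1 : ∀ x, |F x| ≤ 1) (n : ℕ) : ∀ u : ℤ, |∑ t ∈ range n, F (u + t)| ≤ P := by
  induction n using Nat.strong_induction_on with
  | _ n ih =>
    intro u
    rcases lt_or_ge n P with h | h
    · calc |∑ t ∈ range n, F (u + t)| ≤ ∑ t ∈ range n, |F (u + t)| :=
            Finset.abs_sum_le_sum_abs _ _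
        _ ≤ ∑ _t ∈ range n, (1 : ℝ) := Finset.sum_le_sum fun t _ => h1 _
        _ = n := by rw [Finset.sum_const, Finset.card_range, nsmul_eq_mul, mul_one]
        _ ≤ P := by exact_mod_cast h.le
    · obtain ⟨m, rfl⟩ := Nat.exists_eq_add_of_le h
      rw [Finset.sum_range_add, hF, zero_add]
      have h2 := ih m (by omega) (u + P)
      have h3 : ∑ x ∈ range m, F (u + ((P + x : ℕ) : ℤ)) = ∑ x ∈ range m, F (u + P + x) := by
        refine Finset.sum_congr rfl fun x _ => ?_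
        congr 1
        push_cast
        ring
      rw [h3]
      exact h2

theorem b05_conv (F : ℤ → ℝ) (u v : ℤ) :
    ∑ x ∈ Ico u v, F x = ∑ t ∈ range (v - u).toNat, F (u + t) := by
  refine Finset.sum_nbij' (fun x => (x - u).toNat) (fun t => u + t) ?_ ?_ ?_ ?_ ?_
  · intro x hx
    rw [Finset.mem_Ico] at hx
    rw [Finset.mem_range]
    omega
  · intro t ht
    rw [Finset.mem_range] at ht
    rw [Finset.mem_Ico]
    omega
  · intro x hx
    rw [Finset.mem_Ico] at hx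
    omega
  · intro t ht
    omega
  · intro x hx
    rw [Finset.mem_Ico] at hx
    have h1 : u + ((x - u).toNat : ℤ) = x := by omega
    rw [h1]

theorem b05_per (p R : ℕ) (hp : 0 < p) (hR : 0 < R) (hc : Nat.Coprime p R) (a b : ℤ → ℝ) (ha : ∀ x, a (x + p) = a x)
    (hb : ∀ x, b (x + R) = b x) (ha0 : ∑ x ∈ range p, a x = 0) (ha1 : ∀ x, |a x| ≤ 1) (hb1 : ∀ x, |b x| ≤ 1) (u v : ℤ) :
    |∑ x ∈ Ico u v, a x * b x| ≤ (p : ℝ) * R := by
  rw [b05_conv]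
  have h1 := b05_range (p * R) (Nat.mul_pos hp hR) (fun x => a x * b x)
    (fun u => b05_full p R hR hc a b ha hb ha0 u)
    (fun x => by
      rw [abs_mul]
      exact mul_le_one₀ (ha1 x) (abs_nonneg _) (hb1 x)) (v - u).toNat u
  push_cast at h1
  exact h1

end Pool.Agent.HUK
end

-- from Lib.HUK.B06
section

/-!
# HUK B06 (M): one tuple of primes

PROOF. By the definition of `gp` the product is `1_J(d) (1_{p∣d} - 1/p) ∏_w (1_{q_w ∣ d + σ_w} - 1/q_w)` with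
`J = {d ∈ (lo, hi] : pD < dA, and for all w ∈ W: lo < d + σ_w ≤ hi, q_w D < (d + σ_w) A}`, a finite set of integers which is order connected
(each condition is monotone in `d` because `A > 0`), hence `J = Ico u v` for some `u v` (if empty trivial; else `u = min`, `v = max + 1`;
or show: a finite set `J` of integers such that `x, z ∈ J`, `x ≤ y ≤ z` imply `y ∈ J` is an `Icc`). Apply `b05_per` with
`a(d) = 1_{p∣d} - 1/p` (period `p`, sum over a period `1 - p/p = 0`, `|a| ≤ 1`) and `b(d) = ∏_w (1_{q_w ∣ d+σ_w} - 1/q_w)`, period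
`R = ∏_{w ∈ W} q_w`, coprime to `p` (distinct primes; `Nat.Coprime.prod_right`), `|b| ≤ 1` (each factor has absolute value `≤ 1`).
-/

open Finset

namespace Pool.Agent.HUK

theorem b06_cond (A m : ℕ) (hA : 0 < A) (lo hi σ d : ℤ) :
    (lo < d + σ ∧ d + σ ≤ hi ∧ (m : ℤ) < (d + σ) * A) ↔
      (max lo ((m : ℤ) / A) - σ < d ∧ d ≤ hi - σ) := by
  have hA' : (0 : ℤ) < A := by exact_mod_cast hA
  rw [← Int.ediv_lt_iff_lt_mul hA']
  constructor
  · rintro ⟨h1, h2, h3⟩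
    refine ⟨?_, by omega⟩
    have h4 : max lo ((m : ℤ) / A) < d + σ := max_lt h1 h3
    omega
  · rintro ⟨h1, h2⟩
    have h4 : max lo ((m : ℤ) / A) < d + σ := by omega
    exact ⟨(le_max_left _ _).trans_lt h4, by omega, (le_max_right _ _).trans_lt h4⟩

theorem b06_int {ι : Type*} (A D p : ℕ) (hA : 0 < A) (W : Finset ι) (q : ι → ℕ) (σ : ι → ℤ)
    (lo hi : ℤ) : ∃ u v : ℤ, ∀ d : ℤ, ((lo < d ∧ d ≤ hi ∧ (p : ℤ) * D < d * A) ∧
      ∀ w ∈ W, (lo < d + σ w ∧ d + σ w ≤ hi ∧ (q w : ℤ) * D < (d + σ w) * A)) ↔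
      (u < d ∧ d ≤ v) := by
  classical
  induction W using Finset.induction_on with
  | empty =>
    refine ⟨max lo (((p * D : ℕ) : ℤ) / A) - 0, hi - 0, fun d => ?_⟩
    have h1 := b06_cond A (p * D) hA lo hi 0 d
    rw [add_zero, Nat.cast_mul] at h1
    rw [Nat.cast_mul, ← h1]
    constructor
    · exact fun h => h.1
    · exact fun h => ⟨h, fun w hw => absurd hw (Finset.notMem_empty w)⟩
  | insert w W hw ih =>
    obtain ⟨u, v, h⟩ := ih
    refine ⟨max u (max lo (((q w * D : ℕ) : ℤ) / A) - σ w), min v (hi - σ w), fun d => ?_⟩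
    have h1 := b06_cond A (q w * D) hA lo hi (σ w) d
    rw [Nat.cast_mul] at h1
    rw [Nat.cast_mul, max_lt_iff, le_min_iff]
    have h2 := h d
    constructor
    · rintro ⟨h3, h4⟩
      have h5 := h2.1 ⟨h3, fun w' hw' => h4 w' (Finset.mem_insert_of_mem hw')⟩
      have h6 := h1.1 (h4 w (Finset.mem_insert_self _ _))
      exact ⟨⟨h5.1, h6.1⟩, h5.2, h6.2⟩
    · rintro ⟨⟨h3, h4⟩, h5, h6⟩
      have h7 := h2.2 ⟨h3, h5⟩
      have h8 := h1.2 ⟨h4, h6⟩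
      refine ⟨h7.1, fun w' hw' => ?_⟩
      rcases Finset.mem_insert.1 hw' with rfl | hw'
      · exact h8
      · exact h7.2 w' hw'

theorem b06_abs (q : ℕ) (hq : 0 < q) (x : ℤ) :
    |(if (q : ℤ) ∣ x then (1 : ℝ) else 0) - 1 / (q : ℝ)| ≤ 1 := by
  have h1 : (1 : ℝ) ≤ q := by exact_mod_cast hq
  have h2 : (0 : ℝ) < 1 / (q : ℝ) := by positivity
  have h3 : 1 / (q : ℝ) ≤ 1 := by
    rw [div_le_one (by linarith)]
    exact h1
  rw [abs_le]
  split_ifs <;> constructor <;> linarith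

theorem b06_tuple {ι : Type*} (A D p : ℕ) (hA : 0 < A) (hp : p.Prime) (W : Finset ι) (q : ι → ℕ)
    (hq : ∀ w ∈ W, (q w).Prime ∧ q w ≠ p) (σ : ι → ℤ) (lo hi : ℤ) :
    |∑ d ∈ Ioc lo hi, gp A D p lo hi d * ∏ w ∈ W, gp A D (q w) lo hi (d + σ w)| ≤ (p : ℝ) * ∏ w ∈ W, (q w : ℝ) := by
  classical
  obtain ⟨u, v, huv⟩ := b06_int A D p hA W q σ lo hi
  let a : ℤ → ℝ := fun d => (if (p : ℤ) ∣ d then 1 else 0) - 1 / (p : ℝ)
  let b : ℤ → ℝ := fun d => ∏ w ∈ W, ((if (q w : ℤ) ∣ d + σ w then 1 else 0) - 1 / (q w : ℝ))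
  have hterm : ∀ d : ℤ, gp A D p lo hi d * ∏ w ∈ W, gp A D (q w) lo hi (d + σ w) =
      if u < d ∧ d ≤ v then a d * b d else 0 := by
    intro d
    by_cases hd : u < d ∧ d ≤ v
    · rw [if_pos hd]
      obtain ⟨h1, h2⟩ := (huv d).2 hd
      have h3 : gp A D p lo hi d = a d := by
        unfold gp
        rw [if_pos h1]
      have h4 : ∏ w ∈ W, gp A D (q w) lo hi (d + σ w) = b d := by
        refine Finset.prod_congr rfl fun w hw => ?_
        unfold gp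
        rw [if_pos (h2 w hw)]
      rw [h3, h4]
    · rw [if_neg hd]
      by_cases h1 : lo < d ∧ d ≤ hi ∧ (p : ℤ) * D < d * A
      · have h2 : ¬ ∀ w ∈ W, (lo < d + σ w ∧ d + σ w ≤ hi ∧ (q w : ℤ) * D < (d + σ w) * A) :=
          fun h => hd ((huv d).1 ⟨h1, h⟩)
        push Not at h2
        obtain ⟨w, hw, h3⟩ := h2
        have h4 : gp A D (q w) lo hi (d + σ w) = 0 := by
          unfold gp
          rw [if_neg]
          rintro ⟨h5, h6, h7⟩
          exact absurd h7 (not_lt.2 (h3 h5 h6))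
        rw [Finset.prod_eq_zero hw h4, mul_zero]
      · have h2 : gp A D p lo hi d = 0 := by
          unfold gp
          rw [if_neg h1]
        rw [h2, zero_mul]
  rw [Finset.sum_congr rfl fun d _ => hterm d]
  have hsum : ∑ d ∈ Ioc lo hi, (if u < d ∧ d ≤ v then a d * b d else 0) =
      ∑ d ∈ Ico (u + 1) (v + 1), a d * b d := by
    rw [← Finset.sum_filter]
    refine Finset.sum_congr ?_ fun _ _ => rfl
    ext d
    rw [Finset.mem_filter, Finset.mem_Ioc, Finset.mem_Ico]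
    constructor
    · rintro ⟨-, h1, h2⟩
      omega
    · rintro ⟨h1, h2⟩
      have h3 : u < d ∧ d ≤ v := by omega
      have h4 := ((huv d).2 h3).1
      exact ⟨⟨h4.1, h4.2.1⟩, h3⟩
  rw [hsum]
  have hpp : 0 < p := hp.pos
  have hR : 0 < ∏ w ∈ W, q w := Finset.prod_pos fun w hw => (hq w hw).1.pos
  have h := b05_per p (∏ w ∈ W, q w) hpp hR
    (Nat.Coprime.prod_right fun w hw => (Nat.coprime_primes hp (hq w hw).1).2 (hq w hw).2.symm)
    a b
    (by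
      intro x
      have h1 : (p : ℤ) ∣ x + p ↔ (p : ℤ) ∣ x := dvd_add_self_right
      simp only [a, h1])
    (by
      intro x
      refine Finset.prod_congr rfl fun w hw => ?_
      have h1 : (q w : ℤ) ∣ ((∏ w ∈ W, q w : ℕ) : ℤ) := by
        exact_mod_cast Finset.dvd_prod_of_mem q hw
      have h2 : (q w : ℤ) ∣ x + ((∏ w ∈ W, q w : ℕ) : ℤ) + σ w ↔ (q w : ℤ) ∣ x + σ w := by
        have h3 : x + ((∏ w ∈ W, q w : ℕ) : ℤ) + σ w = (x + σ w) + ((∏ w ∈ W, q w : ℕ) : ℤ) := by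
          ring
        rw [h3]
        exact (Int.dvd_add_left h1)
      simp only [h2])
    (by
      have h1 : ∑ x ∈ range p, (if (p : ℤ) ∣ ((x : ℕ) : ℤ) then (1 : ℝ) else 0) = 1 := by
        rw [Finset.sum_eq_single 0]
        · simp
        · intro x hx hx0
          rw [Finset.mem_range] at hx
          rw [if_neg]
          intro h2
          rw [Int.natCast_dvd_natCast] at h2
          exact hx0 (Nat.eq_zero_of_dvd_of_lt h2 hx)
        · intro h2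
          exact absurd (Finset.mem_range.2 hpp) h2
      simp only [a]
      rw [Finset.sum_sub_distrib, h1, Finset.sum_const, Finset.card_range, nsmul_eq_mul]
      have h2 : (p : ℝ) ≠ 0 := by exact_mod_cast hpp.ne'
      field_simp
      ring)
    (fun x => b06_abs p hpp x)
    (by
      intro x
      simp only [b]
      rw [Finset.abs_prod]
      exact Finset.prod_le_one (fun w _ => abs_nonneg _) fun w hw => b06_abs (q w) (hq w hw).1.pos _)
    (u + 1) (v + 1)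
  refine h.trans (le_of_eq ?_)
  push_cast
  rfl

end Pool.Agent.HUK
end

-- from Lib.HUK.B07
section

/-!
# HUK B07 (M): expansion over all tuples of primes different from `p`

PROOF. `∏_{w ∈ W} ∑_{q ∈ (PA A).erase p} gp q (d + σ_w) = ∑_{q : functions} ∏_w gp (q_w) (d + σ_w)` (`Finset.prod_sum` with `pi`, or
`Finset.prod_univ_sum` on the subtype; `Finset.prod_sum` gives `W.pi fun _ => (PA A).erase p` and `W.attach`; alternatively induction on `W`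
with a GENERAL statement: for every finite multiset of already chosen `(q, σ)`. The expansion is easiest.) Exchange the sums, apply `b06_tuple` to
each function `q` (all values are primes `≠ p`, `≤ 4A`): `≤ p ∏ q_w ≤ (4A)^(#W+1)`. The number of functions is `(#(PA A) - 1)^(#W) ≤ (#PA)^(#W)`,
and `#(PA A) ≤ 3 A ≤ 4 A`.
-/

open Finset

namespace Pool.Agent.HUK

theorem b07_main {ι : Type*} (A D p : ℕ) (hA : 0 < A) (hp : p ∈ PA A) (W : Finset ι) (σ : ι → ℤ) (lo hi : ℤ) :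
    |∑ d ∈ Ioc lo hi, gp A D p lo hi d * ∏ w ∈ W, ∑ q ∈ (PA A).erase p, gp A D q lo hi (d + σ w)| ≤
      (4 * A : ℝ) ^ (2 * #W + 1) := by
  classical
  have hPA : ∀ q ∈ PA A, q.Prime ∧ q ≤ 4 * A := by
    intro q hq
    rw [PA, Finset.mem_filter, Finset.mem_Ioc] at hq
    exact ⟨hq.2, hq.1.2⟩
  have hcardPA : #(PA A) ≤ 4 * A := by
    have h1 : #(PA A) ≤ #(Ioc A (4 * A)) := Finset.card_filter_le _ _
    rw [Nat.card_Ioc] at h1
    omega
  have hA1 : (0 : ℝ) ≤ 4 * A := by positivity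
  have hpA : (p : ℝ) ≤ 4 * A := by exact_mod_cast (hPA p hp).2
  have hexp : ∑ d ∈ Ioc lo hi, gp A D p lo hi d *
      ∏ w ∈ W, ∑ q ∈ (PA A).erase p, gp A D q lo hi (d + σ w) =
      ∑ f ∈ W.pi fun _ => (PA A).erase p, ∑ d ∈ Ioc lo hi, gp A D p lo hi d *
        ∏ x ∈ W.attach, gp A D (f x.1 x.2) lo hi (d + σ x.1) := by
    rw [Finset.sum_comm]
    refine Finset.sum_congr rfl fun d _ => ?_
    rw [Finset.prod_sum, Finset.mul_sum]
  rw [hexp]
  refine (Finset.abs_sum_le_sum_abs _ _).trans ?_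
  have hone : ∀ f ∈ W.pi fun _ => (PA A).erase p, |∑ d ∈ Ioc lo hi, gp A D p lo hi d *
        ∏ x ∈ W.attach, gp A D (f x.1 x.2) lo hi (d + σ x.1)| ≤ (4 * A : ℝ) ^ (#W + 1) := by
    intro f hf
    rw [Finset.mem_pi] at hf
    have h1 := b06_tuple A D p hA (hPA p hp).1 W.attach (fun x => f x.1 x.2)
      (fun x _ => by
        have h2 := Finset.mem_erase.1 (hf x.1 x.2)
        exact ⟨(hPA _ h2.2).1, h2.1⟩) (fun x => σ x.1) lo hi
    refine h1.trans ?_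
    have h3 : ∏ x ∈ W.attach, (f x.1 x.2 : ℝ) ≤ (4 * A : ℝ) ^ #W := by
      rw [← Finset.card_attach, ← Finset.prod_const]
      refine Finset.prod_le_prod (fun x _ => Nat.cast_nonneg _) fun x _ => ?_
      exact_mod_cast (hPA _ (Finset.mem_erase.1 (hf x.1 x.2)).2).2
    rw [pow_succ']
    exact mul_le_mul hpA h3 (Finset.prod_nonneg fun x _ => Nat.cast_nonneg _) hA1
  refine (Finset.sum_le_sum hone).trans ?_
  rw [Finset.sum_const, nsmul_eq_mul, Finset.card_pi, Finset.prod_const]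
  have h4 : ((#((PA A).erase p) ^ #W : ℕ) : ℝ) ≤ (4 * A : ℝ) ^ #W := by
    have h5 : #((PA A).erase p) ≤ 4 * A := (Finset.card_le_card (Finset.erase_subset _ _)).trans hcardPA
    have h6 : #((PA A).erase p) ^ #W ≤ (4 * A) ^ #W := Nat.pow_le_pow_left h5 _
    exact_mod_cast h6
  calc ((#((PA A).erase p) ^ #W : ℕ) : ℝ) * (4 * A : ℝ) ^ (#W + 1)
      ≤ (4 * A : ℝ) ^ #W * (4 * A : ℝ) ^ (#W + 1) :=
        mul_le_mul_of_nonneg_right h4 (pow_nonneg hA1 _)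
    _ = (4 * A : ℝ) ^ (2 * #W + 1) := by rw [← pow_add]; congr 1; ring

end Pool.Agent.HUK
end

-- from Lib.HUK.B04
section

/-!
# HUK B04 (M, only Mathlib): bounds for `η` and partial sums

PROOF. For `1 ≤ d` (integer) and `T ⊆ PA A`: `|gp p d| ≤ 1_{p ∣ d} + 1/p`, and `∑_{p ∈ T} 1/p ≤ S`. The primes of `T` dividing `d`:
their product divides `d` (distinct primes: `Finset.prod_primes_dvd` or `Nat.prod_primeFactors_dvd`), each is `≥ 2`, so
`2 ^ #{p ∈ T : p ∣ d} ≤ d`, `#{..} ≤ log d / log 2 ≤ 2 log d` (`log 2 > 1/2`: `Real.log_two_gt_d9`). For `d ≤ 0` (resp. `d ∉ (lo,hi]`)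
with `0 ≤ lo` all terms are `0`.
`b04_eta_abs` is the same for `eta`.
-/

open Finset

namespace Pool.Agent.HUK

theorem b04_mem (A p : ℕ) (hp : p ∈ PA A) : A < p ∧ p ≤ 4 * A ∧ p.Prime := by
  unfold PA at hp
  rw [mem_filter, mem_Ioc] at hp
  exact ⟨hp.1.1, hp.1.2, hp.2⟩

theorem b04_card (A : ℕ) (T : Finset ℕ) (hT : T ⊆ PA A) (d : ℕ) (hd : 1 ≤ d) :
    ((T.filter (fun p => p ∣ d)).card : ℝ) ≤ 2 * Real.log d := by
  have hsub : T.filter (fun p => p ∣ d) ⊆ d.primeFactors := by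
    intro p hp
    rw [mem_filter] at hp
    rw [Nat.mem_primeFactors]
    exact ⟨(b04_mem A p (hT hp.1)).2.2, hp.2, by omega⟩
  have h1 : 2 ^ (T.filter (fun p => p ∣ d)).card ≤ d := by
    calc 2 ^ (T.filter (fun p => p ∣ d)).card ≤ 2 ^ d.primeFactors.card :=
          Nat.pow_le_pow_right (by norm_num) (card_le_card hsub)
      _ = ∏ p ∈ d.primeFactors, 2 := by rw [prod_const]
      _ ≤ ∏ p ∈ d.primeFactors, p := by
          refine prod_le_prod' fun p hp => ?_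
          exact (Nat.prime_of_mem_primeFactors hp).two_le
      _ ≤ d := Nat.le_of_dvd (by omega) (Nat.prod_primeFactors_dvd d)
  have h2 : Real.log ((2 : ℝ) ^ (T.filter (fun p => p ∣ d)).card) ≤ Real.log d := by
    refine Real.log_le_log (by positivity) ?_
    exact_mod_cast h1
  rw [Real.log_pow] at h2
  have h3 := Real.log_two_gt_d9
  have h4 : (0 : ℝ) ≤ ((T.filter (fun p => p ∣ d)).card : ℝ) := Nat.cast_nonneg _
  nlinarith

theorem b04_sum (A : ℕ) (hS : 0 < SA A) (T : Finset ℕ) (hT : T ⊆ PA A) (d : ℕ) (hd : 1 ≤ d) (g : ℕ → ℝ)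
    (hg : ∀ p ∈ T, |g p| ≤ (if p ∣ d then 1 else 0) + 1 / (p : ℝ)) :
    (1 / SA A) * ∑ p ∈ T, |g p| ≤ (1 / SA A) * (2 * Real.log d) + 1 := by
  have hinv : 0 ≤ 1 / SA A := by positivity
  have h1 : ∑ p ∈ T, |g p| ≤ 2 * Real.log d + SA A := by
    calc ∑ p ∈ T, |g p| ≤ ∑ p ∈ T, ((if p ∣ d then (1 : ℝ) else 0) + 1 / (p : ℝ)) := sum_le_sum hg
      _ = ((T.filter (fun p => p ∣ d)).card : ℝ) + ∑ p ∈ T, 1 / (p : ℝ) := by
          rw [sum_add_distrib, sum_boole]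
      _ ≤ 2 * Real.log d + SA A := by
          refine add_le_add (b04_card A T hT d hd) ?_
          unfold SA
          exact sum_le_sum_of_subset_of_nonneg hT fun p _ _ => by positivity
  calc (1 / SA A) * ∑ p ∈ T, |g p| ≤ (1 / SA A) * (2 * Real.log d + SA A) := mul_le_mul_of_nonneg_left h1 hinv
    _ = (1 / SA A) * (2 * Real.log d) + 1 := by
        rw [mul_add]
        congr 1
        field_simp

theorem b04_term (b : Prop) [Decidable b] (p : ℕ) (hp : 1 ≤ p) :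
    |(if b then (1 : ℝ) else 0) - 1 / (p : ℝ)| ≤ (if b then 1 else 0) + 1 / (p : ℝ) := by
  have h1 : (0 : ℝ) ≤ 1 / (p : ℝ) := by positivity
  rw [abs_le]
  split_ifs <;> constructor <;> linarith


/-- Partial sums over `T ⊆ PA A`, on `(lo, hi]` with `hi ≤ Y`. -/
theorem b04_part (A D : ℕ) (hA : 2 ≤ A) (hS : 0 < SA A) (T : Finset ℕ) (hT : T ⊆ PA A) (lo hi d : ℤ) (hlo : 0 ≤ lo)
    (Y : ℝ) (hY : 1 ≤ Y) (hhi : (hi : ℝ) ≤ Y) :
    (1 / SA A) * ∑ p ∈ T, |gp A D p lo hi d| ≤ (1 / SA A) * (2 * Real.log Y) + 1 := by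
  have hinv : 0 ≤ 1 / SA A := by positivity
  by_cases hd : lo < d ∧ d ≤ hi
  · obtain ⟨e, he⟩ : ∃ e : ℕ, d = (e : ℤ) := ⟨d.toNat, by omega⟩
    have he1 : 1 ≤ e := by omega
    have h1 := b04_sum A hS T hT e he1 (fun p => gp A D p lo hi d) (fun p hp => by
      have hp1 : 1 ≤ p := by
        have := (b04_mem A p (hT hp)).1
        omega
      show |gp A D p lo hi d| ≤ _
      unfold gp
      by_cases h1 : lo < d ∧ d ≤ hi ∧ (p : ℤ) * D < d * A
      · rw [if_pos h1]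
        have h2 := b04_term ((p : ℤ) ∣ d) p hp1
        by_cases h3 : p ∣ e
        · have h4 : (p : ℤ) ∣ d := by
            rw [he]
            exact_mod_cast h3
          rw [if_pos h4] at h2 ⊢
          rw [if_pos h3]
          exact h2
        · have h4 : ¬ (p : ℤ) ∣ d := by
            intro h5
            rw [he] at h5
            exact h3 (by exact_mod_cast h5)
          rw [if_neg h4] at h2 ⊢
          rw [if_neg h3]
          exact h2
      · rw [if_neg h1, abs_zero]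
        split_ifs <;> positivity)
    refine le_trans h1 ?_
    have he2 : (e : ℝ) ≤ Y := by
      have h5 : (d : ℝ) ≤ (hi : ℝ) := by exact_mod_cast hd.2
      rw [he] at h5
      push_cast at h5
      linarith
    have h6 : Real.log e ≤ Real.log Y := Real.log_le_log (by exact_mod_cast he1) he2
    have h7 : (1 / SA A) * (2 * Real.log e) ≤ (1 / SA A) * (2 * Real.log Y) :=
      mul_le_mul_of_nonneg_left (by linarith) hinv
    linarith
  · have h0 : ∑ p ∈ T, |gp A D p lo hi d| = 0 := by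
      refine sum_eq_zero fun p _ => ?_
      unfold gp
      rw [if_neg, abs_zero]
      intro h5
      exact hd ⟨h5.1, h5.2.1⟩
    rw [h0, mul_zero]
    have h1 : 0 ≤ Real.log Y := Real.log_nonneg hY
    positivity

end Pool.Agent.HUK
end

-- from Lib.HUK.B08
section

/-!
# HUK B08 (S/M, only Mathlib): difference of two products

PROOF. Induction on `W` (`Finset.induction_on`): with `x = ∏_{W}(a+b)`, `y = ∏_W a`,
`(a_i + b_i) x - a_i y = b_i x + a_i (x - y)`, `|b_i x| ≤ |b_i| G^{#W}`, `|a_i (x - y)| ≤ G * G^{#W - 1} ∑ ...`. To avoid `#W - 1` the bound has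
`G^{#W}` (`G ≥ 1`).
-/

open Finset

namespace Pool.Agent.HUK

theorem b08_prod {ι : Type*} (W : Finset ι) (a b : ι → ℝ) (G : ℝ) (hG : 1 ≤ G) (ha : ∀ i ∈ W, |a i| ≤ G)
    (hab : ∀ i ∈ W, |a i + b i| ≤ G) :
    |∏ i ∈ W, (a i + b i) - ∏ i ∈ W, a i| ≤ G ^ #W * ∑ i ∈ W, |b i| := by
  classical
  have hG0 : (0 : ℝ) ≤ G := le_trans zero_le_one hG
  induction W using Finset.induction_on with
  | empty => simp
  | insert i W hi ih =>
    have ih' := ih (fun j hj => ha j (Finset.mem_insert_of_mem hj))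
      (fun j hj => hab j (Finset.mem_insert_of_mem hj))
    rw [Finset.prod_insert hi, Finset.prod_insert hi, Finset.sum_insert hi,
      Finset.card_insert_of_notMem hi]
    set x := ∏ j ∈ W, (a j + b j) with hx
    set y := ∏ j ∈ W, a j with hy
    have h1 : |x| ≤ G ^ #W := by
      rw [hx, Finset.abs_prod]
      calc ∏ j ∈ W, |a j + b j| ≤ ∏ _j ∈ W, G :=
            Finset.prod_le_prod (fun j _ => abs_nonneg _)
              (fun j hj => hab j (Finset.mem_insert_of_mem hj))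
        _ = G ^ #W := by rw [Finset.prod_const]
    have h2 : |a i| ≤ G := ha i (Finset.mem_insert_self i W)
    have h3 : (a i + b i) * x - a i * y = b i * x + a i * (x - y) := by ring
    have h4 : (0 : ℝ) ≤ G ^ #W := pow_nonneg hG0 _
    have h5 : (0 : ℝ) ≤ ∑ j ∈ W, |b j| := Finset.sum_nonneg fun j _ => abs_nonneg _
    rw [h3]
    calc |b i * x + a i * (x - y)| ≤ |b i * x| + |a i * (x - y)| := abs_add_le _ _
      _ = |b i| * |x| + |a i| * |x - y| := by rw [abs_mul, abs_mul]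
      _ ≤ |b i| * G ^ #W + G * (G ^ #W * ∑ j ∈ W, |b j|) := by
          apply add_le_add
          · exact mul_le_mul_of_nonneg_left h1 (abs_nonneg _)
          · exact mul_le_mul h2 ih' (abs_nonneg _) hG0
      _ ≤ G ^ (#W + 1) * (|b i| + ∑ j ∈ W, |b j|) := by
          rw [pow_succ]
          have h6 : |b i| * G ^ #W ≤ |b i| * G ^ #W * G :=
            le_mul_of_one_le_right (mul_nonneg (abs_nonneg _) h4) hG
          nlinarith [h6]

end Pool.Agent.HUK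
end

-- from Lib.HUK.B09
section

/-!
# HUK B09 (M, only Mathlib): two multiples of `p`

PROOFS. `b09_line`: `p ∤ c` so the `t ∈ (-H, H)` with `p ∣ x + c t` lie in one residue class mod `p`: at most `(2H-1)/p + 1 ≤ 2H/p + 1 ≤ 3H/p`
of them (`p ≤ H`; `Int.Ioc_filter_modEq_card`, or injectivity of `t ↦ t / p`), and `∑ 1/p ≤ 2H/p`.
`b09_int`: the multiples of `p` in `(lo, hi]` are at most `L/p + 1 ≤ 2L/p`.
`b09_pair`: `|gp p d| ≤ (1_{p∣d} + 1/p) 1_{(lo,hi]}(d)`. Choose `i0 ∈ w`. For fixed `d` and fixed `j_i`, `i ≠ i0`, the sum over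
`j_{i0} ∈ (-H, H)` of `1_{p ∣ d + σ_w(j)} + 1/p` is `≤ 5H/p` by `b09_line` (`p ∤ c_{i0}` because `1 ≤ c_{i0} ≤ k < p`); summing over the other
`k - 1` coordinates: `≤ (2H)^(k-1) * 5H/p ≤ (2H)^k * 3/p`. (`bxS k H` is a `Fintype.piFinset`; to isolate a coordinate use
`Fintype.piFinset` and `Finset.sum_comm'` / `Fin.insertNthEquiv`, or `Function.update`; or reindex by `Equiv.funSplitAt i0`.)
Then `∑_d (1_{p∣d} + 1/p) ≤ 3L/p` by `b09_int`.
-/

open Finset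

namespace Pool.Agent.HUK

theorem b09_cnt (p : ℕ) (hp : 0 < p) (a b : ℤ) (hab : a ≤ b) (S : Finset ℤ) (hS : ∀ t ∈ S, a < t ∧ t ≤ b)
    (hd : ∀ s ∈ S, ∀ t ∈ S, (p : ℤ) ∣ s - t) : (S.card : ℝ) ≤ (b - a) / p + 1 := by
  have hp' : (0 : ℝ) < p := by exact_mod_cast hp
  rcases S.eq_empty_or_nonempty with h | ⟨t0, ht0⟩
  · rw [h, card_empty]
    have h1 : (0 : ℝ) ≤ (b - a) / p := div_nonneg (by
      have : (a : ℝ) ≤ b := by exact_mod_cast hab
      linarith) hp'.le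
    push_cast
    linarith
  · have hsub : S ⊆ (Ioc a b).filter fun x => x ≡ t0 [ZMOD (p : ℤ)] := by
      intro t ht
      rw [mem_filter, mem_Ioc]
      exact ⟨hS t ht, (Int.modEq_iff_dvd.2 (hd t0 ht0 t ht))⟩
    have hc := card_le_card hsub
    have hcard : (((Ioc a b).filter fun x => x ≡ t0 [ZMOD (p : ℤ)]).card : ℤ) =
        max (⌊((b : ℚ) - t0) / (((p : ℤ) : ℤ) : ℚ)⌋ - ⌊((a : ℚ) - t0) / (((p : ℤ) : ℤ) : ℚ)⌋) 0 := by
      exact_mod_cast Int.Ioc_filter_modEq_card a b (by exact_mod_cast hp) t0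
    have h1 : ((⌊((b : ℚ) - t0) / (((p : ℤ) : ℤ) : ℚ)⌋ - ⌊((a : ℚ) - t0) / (((p : ℤ) : ℤ) : ℚ)⌋ : ℤ) : ℚ) ≤
        ((b : ℚ) - a) / p + 1 := by
      have e1 := Int.floor_le (((b : ℚ) - t0) / (((p : ℤ) : ℤ) : ℚ))
      have e2 := Int.lt_floor_add_one (((a : ℚ) - t0) / (((p : ℤ) : ℤ) : ℚ))
      have e3 : ((b : ℚ) - a) / p = ((b : ℚ) - t0) / (((p : ℤ) : ℤ) : ℚ) - ((a : ℚ) - t0) / (((p : ℤ) : ℤ) : ℚ) := by
        push_cast
        ring
      push_cast at e1 e2 e3 ⊢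
      linarith
    have h2 : (0 : ℚ) ≤ ((b : ℚ) - a) / p + 1 := by
      have h3 : (0 : ℚ) ≤ ((b : ℚ) - a) / p := div_nonneg (by
        have : (a : ℚ) ≤ b := by exact_mod_cast hab
        linarith) (by positivity)
      linarith
    have h3 : (((Ioc a b).filter fun x => x ≡ t0 [ZMOD (p : ℤ)]).card : ℚ) ≤ ((b : ℚ) - a) / p + 1 := by
      have h4 : (((Ioc a b).filter fun x => x ≡ t0 [ZMOD (p : ℤ)]).card : ℚ) =
          ((max (⌊((b : ℚ) - t0) / (((p : ℤ) : ℤ) : ℚ)⌋ - ⌊((a : ℚ) - t0) / (((p : ℤ) : ℤ) : ℚ)⌋) 0 : ℤ) : ℚ) := by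
        rw [← hcard]
        push_cast
        rfl
      rw [h4]
      rcases max_choice (⌊((b : ℚ) - t0) / (((p : ℤ) : ℤ) : ℚ)⌋ - ⌊((a : ℚ) - t0) / (((p : ℤ) : ℤ) : ℚ)⌋) 0 with h5 | h5
      · rw [h5]
        exact h1
      · rw [h5]
        exact_mod_cast h2
    have h6 : (S.card : ℚ) ≤ ((b : ℚ) - a) / p + 1 := le_trans (by exact_mod_cast hc) h3
    exact_mod_cast h6

theorem b09_line (p H : ℕ) (hp : p.Prime) (hH : p ≤ H) (c x : ℤ) (hc : ¬ (p : ℤ) ∣ c) :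
    ∑ t ∈ Ioo (-(H : ℤ)) H, ((if (p : ℤ) ∣ x + c * t then (1 : ℝ) else 0) + 1 / p) ≤ 5 * H / p := by
  have hp' : (0 : ℝ) < p := by exact_mod_cast hp.pos
  have hpH : (p : ℝ) ≤ H := by exact_mod_cast hH
  have hH1 : (1 : ℝ) ≤ H / p := (one_le_div hp').2 hpH
  rw [sum_add_distrib, sum_const, ← sum_filter, sum_const, nsmul_eq_mul, nsmul_eq_mul, mul_one]
  have h1 := b09_cnt p hp.pos (-(H : ℤ)) H (by omega) ((Ioo (-(H : ℤ)) H).filter fun t => (p : ℤ) ∣ x + c * t)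
    (fun t ht => by
      rw [mem_filter, mem_Ioo] at ht
      exact ⟨ht.1.1, ht.1.2.le⟩)
    (fun s hs t ht => by
      rw [mem_filter] at hs ht
      have h2 : (p : ℤ) ∣ c * (s - t) := by
        have h3 := dvd_sub hs.2 ht.2
        have e : x + c * s - (x + c * t) = c * (s - t) := by ring
        rwa [e] at h3
      exact ((Nat.prime_iff_prime_int.1 hp).dvd_or_dvd h2).resolve_left hc)
  have h2 : ((Ioo (-(H : ℤ)) H).card : ℝ) ≤ 2 * H := by
    rw [Int.card_Ioo]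
    have : ((H : ℤ) - -(H : ℤ) - 1).toNat ≤ 2 * H := by omega
    exact_mod_cast this
  have h3 : ((Ioo (-(H : ℤ)) H).card : ℝ) * (1 / p) ≤ 2 * H / p := by
    rw [mul_one_div]
    exact div_le_div_of_nonneg_right h2 hp'.le
  push_cast at h1
  have e1 : ((H : ℝ) - -(H : ℝ)) / p = 2 * (H / p) := by ring
  have e2 : 2 * (H : ℝ) / p = 2 * (H / p) := by ring
  have e3 : 5 * (H : ℝ) / p = 5 * (H / p) := by ring
  rw [e1] at h1
  rw [e2] at h3
  rw [e3]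
  linarith

theorem b09_int (p L : ℕ) (hp : p.Prime) (hL : p ≤ L) (lo hi : ℤ) (h : hi - lo ≤ L) :
    ∑ d ∈ Ioc lo hi, ((if (p : ℤ) ∣ d then (1 : ℝ) else 0) + 1 / p) ≤ 3 * L / p := by
  have hp' : (0 : ℝ) < p := by exact_mod_cast hp.pos
  have hpL : (p : ℝ) ≤ L := by exact_mod_cast hL
  have hL1 : (1 : ℝ) ≤ L / p := (one_le_div hp').2 hpL
  have e3 : 3 * (L : ℝ) / p = 3 * (L / p) := by ring
  rcases lt_or_ge hi lo with hlt | hge
  · rw [Ioc_eq_empty (by omega), sum_empty]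
    positivity
  rw [sum_add_distrib, sum_const, ← sum_filter, sum_const, nsmul_eq_mul, nsmul_eq_mul, mul_one]
  have h1 := b09_cnt p hp.pos lo hi hge ((Ioc lo hi).filter fun t => (p : ℤ) ∣ t)
    (fun t ht => by
      rw [mem_filter, mem_Ioc] at ht
      exact ht.1)
    (fun s hs t ht => by
      rw [mem_filter] at hs ht
      exact dvd_sub hs.2 ht.2)
  have h0 : (hi : ℝ) - lo ≤ L := by exact_mod_cast h
  have h2 : ((Ioc lo hi).card : ℝ) ≤ L := by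
    rw [Int.card_Ioc]
    have : (hi - lo).toNat ≤ L := by omega
    exact_mod_cast this
  have h3 : ((Ioc lo hi).card : ℝ) * (1 / p) ≤ L / p := by
    rw [mul_one_div]
    exact div_le_div_of_nonneg_right h2 hp'.le
  have h4 : ((hi : ℝ) - lo) / p ≤ L / p := div_le_div_of_nonneg_right h0 hp'.le
  rw [e3]
  linarith

theorem b09_gp (A D p : ℕ) (lo hi d : ℤ) :
    |gp A D p lo hi d| ≤ (if (p : ℤ) ∣ d then (1 : ℝ) else 0) + 1 / p := by
  have h0 : (0 : ℝ) ≤ 1 / p := by positivity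
  unfold gp
  by_cases h1 : lo < d ∧ d ≤ hi ∧ (p : ℤ) * D < d * A
  · rw [if_pos h1]
    by_cases h2 : (p : ℤ) ∣ d
    · rw [if_pos h2, abs_le]
      constructor <;> linarith
    · rw [if_neg h2, abs_le]
      constructor <;> linarith
  · rw [if_neg h1, abs_zero]
    by_cases h2 : (p : ℤ) ∣ d
    · rw [if_pos h2]
      linarith
    · rw [if_neg h2]
      linarith

theorem b09_box (k H p : ℕ) (hp : p.Prime) (hk : k < p) (hH : p ≤ H) (c : Fin k → ℤ) (hc : ∀ i, 1 ≤ c i ∧ c i ≤ k)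
    (w : Finset (Fin k)) (hw : w.Nonempty) (d : ℤ) :
    ∑ j ∈ bxS k H, ((if (p : ℤ) ∣ d + sgb c j w then (1 : ℝ) else 0) + 1 / p) ≤ (2 * H : ℝ) ^ k * (3 / p) := by
  have hp' : (0 : ℝ) < p := by exact_mod_cast hp.pos
  obtain ⟨i0, hi0⟩ := hw
  rcases k with _ | k
  · exact i0.elim0
  have hci : ¬ (p : ℤ) ∣ c i0 := by
    intro h1
    have h2 := Int.le_of_dvd (by have := (hc i0).1; omega) h1
    have h3 := (hc i0).2
    omega
  have key : ∑ j ∈ bxS (k + 1) H, ((if (p : ℤ) ∣ d + sgb c j w then (1 : ℝ) else 0) + 1 / p) =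
      ∑ j' ∈ bxS k H, ∑ t ∈ Ioo (-(H : ℤ)) H, ((if (p : ℤ) ∣ (d + ∑ i ∈ w.erase i0, c i * (i0.insertNth 0 j' : Fin (k + 1) → ℤ) i) +
        c i0 * t then (1 : ℝ) else 0) + 1 / p) := by
    rw [← sum_product']
    refine sum_nbij' (fun j => (i0.removeNth j, j i0)) (fun q => (i0.insertNth q.2 q.1 : Fin (k + 1) → ℤ)) ?_ ?_ ?_ ?_ ?_
    · intro j hj
      rw [bxS, Fintype.mem_piFinset] at hj
      rw [mem_product, bxS, Fintype.mem_piFinset]
      exact ⟨fun i => hj _, hj _⟩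
    · intro q hq
      rw [mem_product, bxS, Fintype.mem_piFinset] at hq
      rw [bxS, Fintype.mem_piFinset]
      intro i
      rcases eq_or_ne i i0 with rfl | hne
      · rw [Fin.insertNth_apply_same]
        exact hq.2
      · obtain ⟨m, rfl⟩ := Fin.exists_succAbove_eq hne
        rw [Fin.insertNth_apply_succAbove]
        exact hq.1 m
    · intro j _
      exact Fin.insertNth_self_removeNth i0 j
    · intro q _
      refine Prod.ext ?_ ?_
      · exact Fin.removeNth_insertNth (α := fun _ => ℤ) i0 q.2 q.1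
      · exact Fin.insertNth_apply_same (α := fun _ => ℤ) i0 q.2 q.1
    · intro j _
      have e : d + sgb c j w = (d + ∑ i ∈ w.erase i0, c i * (i0.insertNth 0 (i0.removeNth j) : Fin (k + 1) → ℤ) i) +
          c i0 * j i0 := by
        rw [sgb, ← add_sum_erase w (fun i => c i * j i) hi0]
        have e2 : ∑ i ∈ w.erase i0, c i * (i0.insertNth 0 (i0.removeNth j) : Fin (k + 1) → ℤ) i =
            ∑ i ∈ w.erase i0, c i * j i := by
          refine sum_congr rfl fun i hi => ?_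
          obtain ⟨m, rfl⟩ := Fin.exists_succAbove_eq (ne_of_mem_erase hi)
          rw [Fin.insertNth_apply_succAbove]
          rfl
        rw [e2]
        ring
      rw [e]
  rw [key]
  have hcb : ((bxS k H).card : ℝ) ≤ (2 * H : ℝ) ^ k := by
    rw [bxS, Fintype.card_piFinset, prod_const, card_univ, Fintype.card_fin, Int.card_Ioo]
    push_cast
    have : ((H : ℤ) - -(H : ℤ) - 1).toNat ≤ 2 * H := by omega
    exact pow_le_pow_left₀ (by positivity) (by exact_mod_cast this) k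
  calc _ ≤ ∑ j' ∈ bxS k H, (5 * H / p : ℝ) := sum_le_sum fun j' _ => b09_line p H hp hH (c i0) _ hci
    _ = (bxS k H).card * (5 * H / p : ℝ) := by rw [sum_const, nsmul_eq_mul]
    _ ≤ (2 * H : ℝ) ^ k * (5 * H / p : ℝ) := by
        refine mul_le_mul_of_nonneg_right hcb (by positivity)
    _ ≤ (2 * H : ℝ) ^ (k + 1) * (3 / p) := by
        rw [pow_succ]
        have h1 : (2 * H : ℝ) ^ k * (2 * H) * (3 / p) = (2 * H : ℝ) ^ k * (6 * H / p) := by ring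
        rw [h1]
        refine mul_le_mul_of_nonneg_left ?_ (by positivity)
        refine div_le_div_of_nonneg_right ?_ hp'.le
        have : (0 : ℝ) ≤ H := by positivity
        linarith

theorem b09_pair (k A D p H L : ℕ) (hp : p.Prime) (hk : k < p) (hH : p ≤ H) (hL : p ≤ L) (lo hi : ℤ) (h : hi - lo ≤ L)
    (c : Fin k → ℤ) (hc : ∀ i, 1 ≤ c i ∧ c i ≤ k) (w : Finset (Fin k)) (hw : w.Nonempty) :
    ∑ j ∈ bxS k H, ∑ d ∈ Ioc lo hi, |gp A D p lo hi d| * |gp A D p lo hi (d + sgb c j w)| ≤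
      (2 * H : ℝ) ^ k * (9 * L / (p : ℝ) ^ 2) := by
  have hp' : (0 : ℝ) < p := by exact_mod_cast hp.pos
  rw [sum_comm]
  have hnn : ∀ d : ℤ, (0 : ℝ) ≤ (if (p : ℤ) ∣ d then (1 : ℝ) else 0) + 1 / p := fun d =>
    (abs_nonneg _).trans (b09_gp 0 0 p 0 0 d)
  calc _ ≤ ∑ d ∈ Ioc lo hi, ((if (p : ℤ) ∣ d then (1 : ℝ) else 0) + 1 / p) * ((2 * H : ℝ) ^ k * (3 / p)) := by
        refine sum_le_sum fun d _ => ?_
        rw [← mul_sum]
        refine mul_le_mul (b09_gp A D p lo hi d) ?_ (sum_nonneg fun _ _ => abs_nonneg _) (hnn d)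
        exact (sum_le_sum fun j _ => b09_gp A D p lo hi _).trans (b09_box k H p hp hk hH c hc w hw d)
    _ = (∑ d ∈ Ioc lo hi, ((if (p : ℤ) ∣ d then (1 : ℝ) else 0) + 1 / p)) * ((2 * H : ℝ) ^ k * (3 / p)) := by
        rw [sum_mul]
    _ ≤ (3 * L / p) * ((2 * H : ℝ) ^ k * (3 / p)) :=
        mul_le_mul_of_nonneg_right (b09_int p L hp hL lo hi h) (by positivity)
    _ = (2 * H : ℝ) ^ k * (9 * L / (p : ℝ) ^ 2) := by
        field_simp
        ring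

end Pool.Agent.HUK
end

-- from Lib.HUK.B10
section

/-!
# HUK B10 (M/L): the correlation of `η` along the cubes

Write `g = ge A D lo hi`, `σ_w = sgb c j w`, `S = SA A`, `N = NE k` (the `2^k - 1` non-empty subsets), and for `p ∈ PA A`
`g_p = -(1/S) gp p`, `g^(p) = -(1/S) ∑_{q ∈ (PA A).erase p} gp q`, so `g = g^(p) + g_p`. `G = (1/S) 2 log Y + 1 ≥ 1` bounds `|g|`, `|g^(p)|` and `|g_p|`
everywhere (`b04_part` with `T = PA A`, `(PA A).erase p`, `{p}`).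

PROOF. Fix `j`. `∏_{w ⊆ univ} g(d + σ_w) = g(d) ∏_{w ∈ N} g(d + σ_w)` (`σ_∅ = 0`) `= ∑_{p ∈ PA A} g_p(d) ∏_{w ∈ N} g(d + σ_w)`. For each `p`
`∏_{w∈N} g = ∏_{w∈N} g^(p) + Δ`, `|Δ| ≤ G^(2^k - 1) ∑_{w∈N} |g_p(d + σ_w)|` (`b08_prod`). The main part is
`(-1/S)^(2^k) ∑_d gp p d ∏_{w∈N} ∑_{q≠p} gp q (d+σ_w)`, at most `S^(-2^k) (4A)^(2(2^k-1)+1)` by `b07_main`; sum over the at most `3A ≤ 4A`
primes: `≤ S^(-2^k) (4A)^(2^(k+1))`. The rest, summed over `p`, `d`, `j`: `G^(2^k) S^(-2) ∑_p ∑_{w∈N} ∑_j ∑_d |gp p d| |gp p (d+σ_w)|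
≤ G^(2^k) S^(-2) 3A 2^k (2H)^k 9L/A^2` by `b09_pair` (`p > A`, `p ≤ 4A ≤ H, L`). The sum over `d ∈ ℤ` of the product is a sum over
`Ioc lo hi` as `g(d) = 0` outside. `#(bxS k H) ≤ (2H)^k`.
-/

open Finset

namespace Pool.Agent.HUK

theorem b10_card_PA (A : ℕ) : (#(PA A) : ℝ) ≤ 3 * A := by
  have h1 : #(PA A) ≤ #(Ioc A (4 * A)) := Finset.card_filter_le _ _
  rw [Nat.card_Ioc] at h1
  have h2 : #(PA A) ≤ 3 * A := by omega
  exact_mod_cast h2

theorem b10_card_NE (k : ℕ) : #(NE k) + 1 = 2 ^ k := by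
  unfold NE
  rw [Finset.card_erase_of_mem (Finset.mem_univ _), Finset.card_univ, Fintype.card_finset,
    Fintype.card_fin]
  have : 0 < 2 ^ k := pow_pos (by norm_num) _
  omega

theorem b10_card_bx (k H : ℕ) : (#(bxS k H) : ℝ) ≤ (2 * H : ℝ) ^ k := by
  have h1 : #(bxS k H) ≤ (2 * H) ^ k := by
    unfold bxS
    rw [Fintype.card_piFinset]
    calc ∏ _i : Fin k, #(Ioo (-(H : ℤ)) H) ≤ ∏ _i : Fin k, 2 * H := by
          refine Finset.prod_le_prod' fun i _ => ?_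
          rw [Int.card_Ioo]
          omega
      _ = (2 * H) ^ k := by
          rw [Finset.prod_const, Finset.card_univ, Fintype.card_fin]
  calc (#(bxS k H) : ℝ) ≤ (((2 * H) ^ k : ℕ) : ℝ) := by exact_mod_cast h1
    _ = (2 * H : ℝ) ^ k := by push_cast; ring

/-- One prime, one shift vector. -/
theorem b10_one (k A D p : ℕ) (hA : 2 ≤ A) (hS : 0 < SA A) (hp : p ∈ PA A) (lo hi : ℤ) (hlo : 0 ≤ lo)
    (Y : ℝ) (hY : 1 ≤ Y) (hhi : (hi : ℝ) ≤ Y) (σ : Finset (Fin k) → ℤ) :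
    |∑ d ∈ Ioc lo hi, gp A D p lo hi d * ∏ w ∈ NE k, ge A D lo hi (d + σ w)| ≤
      (1 / SA A) ^ #(NE k) * (4 * A : ℝ) ^ (2 * #(NE k) + 1) +
      ((1 / SA A) * (2 * Real.log Y) + 1) ^ #(NE k) * ((1 / SA A) *
        ∑ w ∈ NE k, ∑ d ∈ Ioc lo hi, |gp A D p lo hi d| * |gp A D p lo hi (d + σ w)|) := by
  obtain ⟨G, hG⟩ : ∃ G : ℝ, G = (1 / SA A) * (2 * Real.log Y) + 1 := ⟨_, rfl⟩
  obtain ⟨a, ha⟩ : ∃ a : ℤ → ℝ, ∀ x, a x = -(1 / SA A) * ∑ q ∈ (PA A).erase p, gp A D q lo hi x :=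
    ⟨_, fun _ => rfl⟩
  obtain ⟨b, hb⟩ : ∃ b : ℤ → ℝ, ∀ x, b x = -(1 / SA A) * gp A D p lo hi x := ⟨_, fun _ => rfl⟩
  have hS1 : 0 ≤ 1 / SA A := by positivity
  have hG1 : 1 ≤ G := by
    rw [hG]
    have h1 : 0 ≤ Real.log Y := Real.log_nonneg hY
    have h2 : 0 ≤ (1 / SA A) * (2 * Real.log Y) := mul_nonneg hS1 (by linarith)
    linarith
  have hab : ∀ x, ge A D lo hi x = a x + b x := by
    intro x
    rw [ha, hb, ge, ← Finset.add_sum_erase _ _ hp]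
    ring
  have haG : ∀ x, |a x| ≤ G := by
    intro x
    rw [ha, abs_mul, abs_neg, abs_of_nonneg hS1, hG]
    refine le_trans (mul_le_mul_of_nonneg_left (Finset.abs_sum_le_sum_abs _ _) hS1) ?_
    exact b04_part A D hA hS ((PA A).erase p) (Finset.erase_subset _ _) lo hi x hlo Y hY hhi
  have hgG : ∀ x, |a x + b x| ≤ G := by
    intro x
    rw [← hab, ge, abs_mul, abs_neg, abs_of_nonneg hS1, hG]
    refine le_trans (mul_le_mul_of_nonneg_left (Finset.abs_sum_le_sum_abs _ _) hS1) ?_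
    exact b04_part A D hA hS (PA A) (Finset.Subset.refl _) lo hi x hlo Y hY hhi
  have hdec : ∀ d, gp A D p lo hi d * ∏ w ∈ NE k, ge A D lo hi (d + σ w) =
      gp A D p lo hi d * ∏ w ∈ NE k, a (d + σ w) +
      gp A D p lo hi d * (∏ w ∈ NE k, (a (d + σ w) + b (d + σ w)) - ∏ w ∈ NE k, a (d + σ w)) := by
    intro d
    rw [Finset.prod_congr rfl fun w _ => hab (d + σ w)]
    ring
  have hmain : |∑ d ∈ Ioc lo hi, gp A D p lo hi d * ∏ w ∈ NE k, a (d + σ w)| ≤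
      (1 / SA A) ^ #(NE k) * (4 * A : ℝ) ^ (2 * #(NE k) + 1) := by
    have h1 : ∑ d ∈ Ioc lo hi, gp A D p lo hi d * ∏ w ∈ NE k, a (d + σ w) =
        (-(1 / SA A)) ^ #(NE k) * ∑ d ∈ Ioc lo hi, gp A D p lo hi d *
          ∏ w ∈ NE k, ∑ q ∈ (PA A).erase p, gp A D q lo hi (d + σ w) := by
      rw [Finset.mul_sum]
      refine Finset.sum_congr rfl fun d _ => ?_
      rw [Finset.prod_congr rfl fun w _ => ha (d + σ w), Finset.prod_mul_distrib,
        Finset.prod_const]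
      ring
    rw [h1, abs_mul, abs_pow, abs_neg, abs_of_nonneg hS1]
    exact mul_le_mul_of_nonneg_left (b07_main A D p (by omega) hp (NE k) σ lo hi)
      (pow_nonneg hS1 _)
  have hrest : |∑ d ∈ Ioc lo hi, gp A D p lo hi d *
      (∏ w ∈ NE k, (a (d + σ w) + b (d + σ w)) - ∏ w ∈ NE k, a (d + σ w))| ≤
      G ^ #(NE k) * ((1 / SA A) *
        ∑ w ∈ NE k, ∑ d ∈ Ioc lo hi, |gp A D p lo hi d| * |gp A D p lo hi (d + σ w)|) := by
    calc |∑ d ∈ Ioc lo hi, gp A D p lo hi d *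
          (∏ w ∈ NE k, (a (d + σ w) + b (d + σ w)) - ∏ w ∈ NE k, a (d + σ w))|
        ≤ ∑ d ∈ Ioc lo hi, |gp A D p lo hi d *
          (∏ w ∈ NE k, (a (d + σ w) + b (d + σ w)) - ∏ w ∈ NE k, a (d + σ w))| :=
          Finset.abs_sum_le_sum_abs _ _
      _ ≤ ∑ d ∈ Ioc lo hi, G ^ #(NE k) * ((1 / SA A) *
          ∑ w ∈ NE k, |gp A D p lo hi d| * |gp A D p lo hi (d + σ w)|) := by
          refine Finset.sum_le_sum fun d _ => ?_
          rw [abs_mul]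
          have h2 := b08_prod (NE k) (fun w => a (d + σ w)) (fun w => b (d + σ w)) G hG1
            (fun w _ => haG _) (fun w _ => hgG _)
          calc |gp A D p lo hi d| *
                |∏ w ∈ NE k, (a (d + σ w) + b (d + σ w)) - ∏ w ∈ NE k, a (d + σ w)|
              ≤ |gp A D p lo hi d| * (G ^ #(NE k) * ∑ w ∈ NE k, |b (d + σ w)|) :=
                mul_le_mul_of_nonneg_left h2 (abs_nonneg _)
            _ = G ^ #(NE k) * ((1 / SA A) *
                ∑ w ∈ NE k, |gp A D p lo hi d| * |gp A D p lo hi (d + σ w)|) := by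
                have h3 : ∀ w, |b (d + σ w)| = (1 / SA A) * |gp A D p lo hi (d + σ w)| := by
                  intro w
                  rw [hb, abs_mul, abs_neg, abs_of_nonneg hS1]
                rw [Finset.sum_congr rfl fun w _ => h3 w, ← Finset.mul_sum, ← Finset.mul_sum]
                ring
      _ = G ^ #(NE k) * ((1 / SA A) *
          ∑ w ∈ NE k, ∑ d ∈ Ioc lo hi, |gp A D p lo hi d| * |gp A D p lo hi (d + σ w)|) := by
          rw [← Finset.mul_sum, ← Finset.mul_sum, Finset.sum_comm]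
  rw [Finset.sum_congr rfl fun d _ => hdec d, Finset.sum_add_distrib, ← hG]
  exact le_trans (abs_add_le _ _) (add_le_add hmain hrest)

/-- One shift vector, all primes. -/
theorem b10_all (k A D : ℕ) (hA : 2 ≤ A) (hS : 0 < SA A) (lo hi : ℤ) (hlo : 0 ≤ lo)
    (Y : ℝ) (hY : 1 ≤ Y) (hhi : (hi : ℝ) ≤ Y) (c j : Fin k → ℤ) :
    |∑ d ∈ Ioc lo hi, ∏ w : Finset (Fin k), ge A D lo hi (d + sgb c j w)| ≤
      (1 / SA A) * ∑ p ∈ PA A, ((1 / SA A) ^ #(NE k) * (4 * A : ℝ) ^ (2 * #(NE k) + 1) +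
      ((1 / SA A) * (2 * Real.log Y) + 1) ^ #(NE k) * ((1 / SA A) *
        ∑ w ∈ NE k, ∑ d ∈ Ioc lo hi, |gp A D p lo hi d| * |gp A D p lo hi (d + sgb c j w)|)) := by
  have hS1 : 0 ≤ 1 / SA A := by positivity
  have h1 : ∑ d ∈ Ioc lo hi, ∏ w : Finset (Fin k), ge A D lo hi (d + sgb c j w) =
      -(1 / SA A) * ∑ p ∈ PA A, ∑ d ∈ Ioc lo hi, gp A D p lo hi d *
        ∏ w ∈ NE k, ge A D lo hi (d + sgb c j w) := by
    rw [Finset.sum_comm, Finset.mul_sum]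
    refine Finset.sum_congr rfl fun d _ => ?_
    rw [← Finset.mul_prod_erase Finset.univ (fun w => ge A D lo hi (d + sgb c j w))
      (Finset.mem_univ (∅ : Finset (Fin k)))]
    have h2 : sgb c j (∅ : Finset (Fin k)) = 0 := by
      unfold sgb
      exact Finset.sum_empty
    change ge A D lo hi (d + sgb c j ∅) * ∏ w ∈ NE k, ge A D lo hi (d + sgb c j w) = _
    rw [h2, add_zero, ← Finset.sum_mul]
    conv_lhs => rw [ge]
    ring
  rw [h1, abs_mul, abs_neg, abs_of_nonneg hS1]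
  refine mul_le_mul_of_nonneg_left ?_ hS1
  refine le_trans (Finset.abs_sum_le_sum_abs _ _) ?_
  exact Finset.sum_le_sum fun p hp => b10_one k A D p hA hS hp lo hi hlo Y hY hhi (sgb c j)

theorem b10_corr (k A D H L : ℕ) (hA : 2 ≤ A) (hkA : k ≤ A) (hH : 4 * A ≤ H) (hL : 4 * A ≤ L) (hS : 0 < SA A) (lo hi : ℤ)
    (hlo : 0 ≤ lo) (h : hi - lo ≤ L) (Y : ℝ) (hY : 1 ≤ Y) (hhi : (hi : ℝ) ≤ Y)
    (c : Fin k → ℤ) (hc : ∀ i, 1 ≤ c i ∧ c i ≤ k) :
    ∑ j ∈ bxS k H, |∑ d ∈ Ioc lo hi, ∏ w : Finset (Fin k), ge A D lo hi (d + sgb c j w)| ≤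
      (2 * H : ℝ) ^ k * ((1 / SA A) ^ (2 ^ k) * (4 * A : ℝ) ^ (2 ^ (k + 1))
        + 27 * 2 ^ k * ((1 / SA A) * (2 * Real.log Y) + 1) ^ (2 ^ k) * (1 / SA A) ^ 2 * L / A) := by
  obtain ⟨N, hN⟩ : ∃ N : ℕ, N = #(NE k) := ⟨_, rfl⟩
  have hN1 : N + 1 = 2 ^ k := by rw [hN]; exact b10_card_NE k
  obtain ⟨s, hs⟩ : ∃ s : ℝ, s = 1 / SA A := ⟨_, rfl⟩
  obtain ⟨G, hG⟩ : ∃ G : ℝ, G = s * (2 * Real.log Y) + 1 := ⟨_, rfl⟩
  have hs0 : 0 < s := by rw [hs]; positivity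
  have hG1 : 1 ≤ G := by
    rw [hG]
    have h1 : 0 ≤ Real.log Y := Real.log_nonneg hY
    have h2 : 0 ≤ s * (2 * Real.log Y) := mul_nonneg hs0.le (by linarith)
    linarith
  have hA0 : (0 : ℝ) < A := by
    have : 0 < A := by omega
    exact_mod_cast this
  obtain ⟨B, hB⟩ : ∃ B : ℝ, B = (2 * H : ℝ) ^ k := ⟨_, rfl⟩
  have hB0 : 0 ≤ B := by rw [hB]; positivity
  have hcard := b10_card_bx k H
  rw [← hB] at hcard
  -- the sum over the shift vectors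
  have h1 : ∑ j ∈ bxS k H, |∑ d ∈ Ioc lo hi, ∏ w : Finset (Fin k), ge A D lo hi (d + sgb c j w)| ≤
      s * ∑ p ∈ PA A, (B * (s ^ N * (4 * A : ℝ) ^ (2 * N + 1)) +
        G ^ N * (s * ∑ w ∈ NE k, (B * (9 * L / (p : ℝ) ^ 2)))) := by
    calc ∑ j ∈ bxS k H, |∑ d ∈ Ioc lo hi, ∏ w : Finset (Fin k), ge A D lo hi (d + sgb c j w)|
        ≤ ∑ j ∈ bxS k H, s * ∑ p ∈ PA A, (s ^ N * (4 * A : ℝ) ^ (2 * N + 1) +
          G ^ N * (s * ∑ w ∈ NE k, ∑ d ∈ Ioc lo hi,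
            |gp A D p lo hi d| * |gp A D p lo hi (d + sgb c j w)|)) := by
          refine Finset.sum_le_sum fun j _ => ?_
          have h2 := b10_all k A D hA hS lo hi hlo Y hY hhi c j
          rw [← hs, ← hG, ← hN] at h2
          exact h2
      _ = s * ∑ p ∈ PA A, ((#(bxS k H) : ℝ) * (s ^ N * (4 * A : ℝ) ^ (2 * N + 1)) +
          G ^ N * (s * ∑ w ∈ NE k, ∑ j ∈ bxS k H, ∑ d ∈ Ioc lo hi,
            |gp A D p lo hi d| * |gp A D p lo hi (d + sgb c j w)|)) := by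
          rw [← Finset.mul_sum, Finset.sum_comm]
          congr 1
          refine Finset.sum_congr rfl fun p _ => ?_
          rw [Finset.sum_add_distrib, Finset.sum_const, nsmul_eq_mul, ← Finset.mul_sum,
            ← Finset.mul_sum, Finset.sum_comm]
      _ ≤ s * ∑ p ∈ PA A, (B * (s ^ N * (4 * A : ℝ) ^ (2 * N + 1)) +
          G ^ N * (s * ∑ w ∈ NE k, (B * (9 * L / (p : ℝ) ^ 2)))) := by
          refine mul_le_mul_of_nonneg_left (Finset.sum_le_sum fun p hp => ?_) hs0.le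
          refine add_le_add (mul_le_mul_of_nonneg_right hcard (by positivity)) ?_
          refine mul_le_mul_of_nonneg_left (mul_le_mul_of_nonneg_left
            (Finset.sum_le_sum fun w hw => ?_) hs0.le) (by positivity)
          unfold PA at hp
          rw [Finset.mem_filter, Finset.mem_Ioc] at hp
          unfold NE at hw
          rw [Finset.mem_erase] at hw
          rw [hB]
          exact b09_pair k A D p H L hp.2 (by omega) (by omega) (by omega) lo hi h c hc w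
            (Finset.nonempty_iff_ne_empty.2 hw.1)
  refine le_trans h1 ?_
  -- the sum over the primes
  have h3 : ∑ p ∈ PA A, (B * (s ^ N * (4 * A : ℝ) ^ (2 * N + 1)) +
      G ^ N * (s * ∑ w ∈ NE k, (B * (9 * L / (p : ℝ) ^ 2)))) ≤
      (3 * A) * (B * (s ^ N * (4 * A : ℝ) ^ (2 * N + 1)) +
      G ^ N * (s * (N * (B * (9 * L / (A : ℝ) ^ 2))))) := by
    have h4 : ∀ p ∈ PA A, (B * (s ^ N * (4 * A : ℝ) ^ (2 * N + 1)) +
        G ^ N * (s * ∑ w ∈ NE k, (B * (9 * L / (p : ℝ) ^ 2)))) ≤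
        B * (s ^ N * (4 * A : ℝ) ^ (2 * N + 1)) +
        G ^ N * (s * (N * (B * (9 * L / (A : ℝ) ^ 2)))) := by
      intro p hp
      unfold PA at hp
      rw [Finset.mem_filter, Finset.mem_Ioc] at hp
      have hpA : (A : ℝ) ≤ p := by exact_mod_cast hp.1.1.le
      rw [Finset.sum_const, nsmul_eq_mul, ← hN]
      refine add_le_add le_rfl (mul_le_mul_of_nonneg_left (mul_le_mul_of_nonneg_left
        (mul_le_mul_of_nonneg_left (mul_le_mul_of_nonneg_left ?_ hB0) (by positivity)) hs0.le)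
        (by positivity))
      exact div_le_div_of_nonneg_left (by positivity) (by positivity)
        (pow_le_pow_left₀ hA0.le hpA 2)
    refine le_trans (Finset.sum_le_sum h4) ?_
    rw [Finset.sum_const, nsmul_eq_mul]
    exact mul_le_mul_of_nonneg_right (b10_card_PA A) (by positivity)
  refine le_trans (mul_le_mul_of_nonneg_left h3 hs0.le) ?_
  have hNk : (N : ℝ) ≤ 2 ^ k := by
    have : N ≤ 2 ^ k := by omega
    exact_mod_cast this
  have h5 : s * ((3 * A) * (B * (s ^ N * (4 * A : ℝ) ^ (2 * N + 1)))) ≤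
      B * (s ^ (2 ^ k) * (4 * A : ℝ) ^ (2 ^ (k + 1))) := by
    rw [show 2 ^ (k + 1) = 2 * N + 1 + 1 by rw [pow_succ, ← hN1]; ring, ← hN1, pow_succ s N,
      pow_succ (4 * A : ℝ) (2 * N + 1)]
    have h6 : 0 ≤ B * (s ^ N * s * (4 * A : ℝ) ^ (2 * N + 1)) * A := by positivity
    nlinarith [h6]
  have h7 : s * ((3 * A) * (G ^ N * (s * (N * (B * (9 * L / (A : ℝ) ^ 2)))))) ≤
      B * (27 * 2 ^ k * G ^ (2 ^ k) * s ^ 2 * L / A) := by
    have h8 : s * ((3 * A) * (G ^ N * (s * (N * (B * (9 * L / (A : ℝ) ^ 2)))))) =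
        (G ^ N * N) * (B * (27 * s ^ 2 * L / A)) := by
      field_simp
      ring
    have h9 : B * (27 * 2 ^ k * G ^ (2 ^ k) * s ^ 2 * L / A) =
        (G ^ (2 ^ k) * 2 ^ k) * (B * (27 * s ^ 2 * L / A)) := by
      field_simp
    rw [h8, h9]
    refine mul_le_mul_of_nonneg_right ?_ (by positivity)
    exact mul_le_mul (pow_le_pow_right₀ hG1 (by omega)) hNk (by positivity) (by positivity)
  rw [← hs, ← hG, ← hB]
  calc s * ((3 * A) * (B * (s ^ N * (4 * A : ℝ) ^ (2 * N + 1)) +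
        G ^ N * (s * (N * (B * (9 * L / (A : ℝ) ^ 2))))))
      = s * ((3 * A) * (B * (s ^ N * (4 * A : ℝ) ^ (2 * N + 1)))) +
        s * ((3 * A) * (G ^ N * (s * (N * (B * (9 * L / (A : ℝ) ^ 2)))))) := by ring
    _ ≤ B * (s ^ (2 ^ k) * (4 * A : ℝ) ^ (2 ^ (k + 1))) +
        B * (27 * 2 ^ k * G ^ (2 ^ k) * s ^ 2 * L / A) := add_le_add h5 h7
    _ = B * (s ^ (2 ^ k) * (4 * A : ℝ) ^ (2 ^ (k + 1)) +
        27 * 2 ^ k * G ^ (2 ^ k) * s ^ 2 * L / A) := by ring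

end Pool.Agent.HUK
end

-- from Lib.HUK.B01
section

/-!
# HUK B01 (M, only Mathlib): the reciprocals of the primes in `(A, 4A]`

PROOF. `θ(x) = ∑_{p ≤ x} log p` (`Chebyshev.theta`). Mathlib: `Chebyshev.theta_ge (n) : n log 2 - log (n+1) - 2 √n log n ≤ θ n`
and `Chebyshev.theta_le_log4_mul_x : θ x ≤ log 4 * x`. So
`∑_{p ∈ PA A} log p = θ(4A) - θ(A) ≥ 4A log 2 - log(4A+1) - 2 √(4A) log(4A) - 2A log 2 = 2A log 2 - small ≥ A` for large `A`
(`2 log 2 > 1.38`). Every `p ∈ PA A` has `log p ≤ log(4A)` and `1/p ≥ 1/(4A)`, so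
`SA A ≥ ∑ log p /(4A log(4A)) ≥ 1/(4 log (4A)) ≥ 1/(8 log(4A))`.
-/

open Finset

namespace Pool.Agent.HUK

theorem b01_split (A : ℕ) : Chebyshev.theta ((4 * A : ℕ) : ℝ) =
    Chebyshev.theta (A : ℝ) + ∑ p ∈ PA A, Real.log p := by
  unfold Chebyshev.theta PA
  rw [Nat.floor_natCast, Nat.floor_natCast, Finset.sum_filter, Finset.sum_filter,
    Finset.sum_filter, Finset.sum_Ioc_consecutive _ (Nat.zero_le _) (by omega)]

theorem b01_small : ∃ X0 : ℝ, 1 ≤ X0 ∧ ∀ x : ℝ, X0 ≤ x →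
    Real.log (x + 1) + 2 * √x * Real.log x ≤ 1 + 3 / 100 * x := by
  have h1 := (isLittleO_log_rpow_atTop (r := (1 / 4 : ℝ)) (by norm_num)).def
    (c := 1 / 100) (by norm_num)
  rw [Filter.eventually_atTop] at h1
  obtain ⟨X1, hX1⟩ := h1
  refine ⟨max X1 1, le_max_right _ _, fun x hx => ?_⟩
  have hx1 : 1 ≤ x := le_trans (le_max_right _ _) hx
  have hx0 : 0 < x := by linarith
  have h2 := hX1 x (le_trans (le_max_left _ _) hx)
  rw [Real.norm_eq_abs, Real.norm_eq_abs, abs_of_nonneg (Real.log_nonneg hx1),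
    abs_of_nonneg (Real.rpow_nonneg hx0.le _)] at h2
  have h3 : x ^ (1 / 4 : ℝ) ≤ x := by
    calc x ^ (1 / 4 : ℝ) ≤ x ^ (1 : ℝ) := Real.rpow_le_rpow_of_exponent_le hx1 (by norm_num)
      _ = x := Real.rpow_one x
  have h4 : √x * x ^ (1 / 4 : ℝ) ≤ x := by
    rw [Real.sqrt_eq_rpow, ← Real.rpow_add hx0]
    calc x ^ (1 / 2 + 1 / 4 : ℝ) ≤ x ^ (1 : ℝ) :=
          Real.rpow_le_rpow_of_exponent_le hx1 (by norm_num)
      _ = x := Real.rpow_one x
  have h5 : √x * Real.log x ≤ 1 / 100 * x := by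
    calc √x * Real.log x ≤ √x * (1 / 100 * x ^ (1 / 4 : ℝ)) :=
          mul_le_mul_of_nonneg_left h2 (Real.sqrt_nonneg _)
      _ = 1 / 100 * (√x * x ^ (1 / 4 : ℝ)) := by ring
      _ ≤ 1 / 100 * x := by linarith
  have h6 : Real.log (x + 1) ≤ 1 + Real.log x := by
    have h7 : Real.log (x + 1) ≤ Real.log (2 * x) := Real.log_le_log (by linarith) (by linarith)
    rw [Real.log_mul (by norm_num) hx0.ne'] at h7
    have h8 := Real.log_two_lt_d9
    linarith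
  linarith

/-- For large `A` the sum of the reciprocals of the primes in `(A, 4A]` is at least `1/(8 log 4A)`. -/
theorem b01_sa : ∃ A0 : ℕ, 2 ≤ A0 ∧ ∀ A : ℕ, A0 ≤ A → 1 / (8 * Real.log (4 * A)) ≤ SA A := by
  obtain ⟨X0, hX0, hX⟩ := b01_small
  refine ⟨max ⌈X0⌉₊ 10, le_trans (by norm_num) (le_max_right _ _), fun A hA => ?_⟩
  have hA10 : 10 ≤ A := le_trans (le_max_right _ _) hA
  have hA10' : (10 : ℝ) ≤ A := by exact_mod_cast hA10
  have hA1 : X0 ≤ (A : ℝ) := by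
    have := le_trans (le_max_left _ _) hA
    exact le_trans (Nat.le_ceil _) (by exact_mod_cast this)
  have h1 := hX (4 * A) (by linarith)
  have h2 := Chebyshev.theta_ge (4 * A)
  have h3 := Chebyshev.theta_le_log4_mul_x (x := (A : ℝ)) (by positivity)
  rw [b01_split] at h2
  push_cast at h2
  have h4 : Real.log 4 = 2 * Real.log 2 := by
    rw [show (4 : ℝ) = 2 ^ 2 by norm_num, Real.log_pow]
    norm_num
  rw [h4] at h3
  have h5 := Real.log_two_gt_d9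
  have h6 : (A : ℝ) ≤ ∑ p ∈ PA A, Real.log p := by nlinarith
  have h7 : 1 ≤ Real.log (4 * A) := by
    have h8 : Real.log (Real.exp 1) ≤ Real.log (4 * A) := by
      apply Real.log_le_log (Real.exp_pos 1)
      have := Real.exp_one_lt_d9
      linarith
    rwa [Real.log_exp] at h8
  have h9 : ∑ p ∈ PA A, Real.log p ≤ 4 * A * Real.log (4 * A) * SA A := by
    unfold SA
    rw [Finset.mul_sum]
    refine Finset.sum_le_sum fun p hp => ?_
    unfold PA at hp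
    rw [Finset.mem_filter, Finset.mem_Ioc] at hp
    have hp0 : (0 : ℝ) < p := by exact_mod_cast hp.2.pos
    have hp1 : (p : ℝ) ≤ 4 * A := by exact_mod_cast hp.1.2
    have h10 : Real.log p ≤ Real.log (4 * A) := Real.log_le_log hp0 hp1
    rw [mul_one_div, le_div_iff₀ hp0]
    have hlog : 0 ≤ Real.log p := Real.log_natCast_nonneg p
    calc Real.log p * p ≤ Real.log (4 * A) * (4 * A) := by
          apply mul_le_mul h10 hp1 hp0.le (by linarith)
      _ = 4 * A * Real.log (4 * A) := by ring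
  have h11 : 0 < 8 * Real.log (4 * A) := by linarith
  rw [div_le_iff₀ h11]
  have h12 : (A : ℝ) ≤ A * (4 * Real.log (4 * A) * SA A) := by
    calc (A : ℝ) ≤ _ := h6
      _ ≤ _ := h9
      _ = A * (4 * Real.log (4 * A) * SA A) := by ring
  have h13 : 1 ≤ 4 * Real.log (4 * A) * SA A := by
    by_contra h
    push Not at h
    have : (A : ℝ) * (4 * Real.log (4 * A) * SA A) < A * 1 :=
      mul_lt_mul_of_pos_left h (by linarith)
    linarith
  nlinarith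

end Pool.Agent.HUK
end

-- from Lib.HUK.B03
section

/-!
# HUK B03 (S/M, only Mathlib): simple properties of `s`, `u`, `v`, `η`

PROOFS. `sml`: for `d > 4D` every `p ∈ PA A` has `p D ≤ 4 A D < d A` (`A > 0` as `SA A > 0` forces `PA A` non-empty; if `D = 0`
the claim is `0 < dA`), so `ell = (1/S) S = 1`. `0 ≤ ell ≤ 1`: the sum is over a subset of terms of `S`, all `≥ 0`.
`eta_supp`: some term is non-zero, so `p D < d A` with `p > A`, hence `D < d`.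
`b03_ge`: for `0 ≤ lo` the two definitions agree term by term (casts of `<`, `∣`).
-/

open Finset

namespace Pool.Agent.HUK

theorem b03_mem (A p : ℕ) (hp : p ∈ PA A) : A < p ∧ p ≤ 4 * A ∧ p.Prime := by
  unfold PA at hp
  rw [mem_filter, mem_Ioc] at hp
  exact ⟨hp.1.1, hp.1.2, hp.2⟩

theorem b03_ell_mem (A D d : ℕ) (hS : 0 < SA A) : 0 ≤ ell A D d ∧ ell A D d ≤ 1 := by
  unfold ell
  have hinv : 0 ≤ 1 / SA A := by positivity
  have h1 : (∑ p ∈ PA A, if p * D < d * A then 1 / (p : ℝ) else 0) ≤ SA A := by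
    unfold SA
    refine sum_le_sum fun p _ => ?_
    split_ifs
    · exact le_rfl
    · positivity
  refine ⟨mul_nonneg hinv (sum_nonneg fun p _ => by split_ifs <;> positivity), ?_⟩
  calc 1 / SA A * (∑ p ∈ PA A, if p * D < d * A then 1 / (p : ℝ) else 0) ≤ 1 / SA A * SA A :=
        mul_le_mul_of_nonneg_left h1 hinv
    _ = 1 := by field_simp

theorem b03_sml_zero (A D d : ℕ) (hS : 0 < SA A) (hd : 4 * D < d) : sml A D d = 0 := by
  have hell : ell A D d = 1 := by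
    unfold ell
    have h1 : (∑ p ∈ PA A, if p * D < d * A then 1 / (p : ℝ) else 0) = SA A := by
      unfold SA
      refine sum_congr rfl fun p hp => ?_
      obtain ⟨h1, h2, h3⟩ := b03_mem A p hp
      have hA : 0 < A := by omega
      have h4 : p * D < d * A := by
        calc p * D ≤ 4 * A * D := Nat.mul_le_mul_right _ h2
          _ = 4 * D * A := by ring
          _ < d * A := Nat.mul_lt_mul_of_pos_right hd hA
      rw [if_pos h4]
    rw [h1]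
    field_simp
  unfold sml
  rw [hell]
  norm_num

theorem b03_sml_mem (A D d : ℕ) (hS : 0 < SA A) : 0 ≤ sml A D d ∧ sml A D d ≤ 1 := by
  obtain ⟨h1, h2⟩ := b03_ell_mem A D d hS
  unfold sml
  constructor <;> linarith

theorem b03_uu_supp (A p : ℕ) (h : uu A p ≠ 0) : A < p ∧ p ≤ 4 * A := by
  unfold uu at h
  by_cases hp : p ∈ PA A
  · exact ⟨(b03_mem A p hp).1, (b03_mem A p hp).2.1⟩
  · rw [if_neg hp] at h
    exact absurd rfl h

theorem b03_uu_mem (A p : ℕ) : 0 ≤ uu A p ∧ uu A p ≤ 1 / SA A := by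
  have hS : 0 ≤ SA A := by
    unfold SA
    exact sum_nonneg fun p _ => by positivity
  have hinv : 0 ≤ 1 / SA A := by positivity
  unfold uu
  split_ifs
  · exact ⟨hinv, le_rfl⟩
  · exact ⟨le_rfl, hinv⟩

theorem b03_vv_mem (A D e : ℕ) : 0 ≤ vv A D e ∧ vv A D e ≤ 1 := by
  unfold vv
  split_ifs
  · exact ⟨zero_le_one, le_rfl⟩
  · exact ⟨le_rfl, zero_le_one⟩

/-- `η` is supported on `d > D`. -/
theorem b03_eta_supp (A D d : ℕ) (h : eta A D d ≠ 0) : D < d := by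
  by_contra hc
  apply h
  unfold eta
  have h0 : ∑ p ∈ PA A, eprime A D p d = 0 := by
    refine sum_eq_zero fun p hp => ?_
    obtain ⟨h1, h2, h3⟩ := b03_mem A p hp
    unfold eprime
    have h4 : ¬ (p * D < d * A) := by
      push Not at hc ⊢
      calc d * A ≤ D * p := Nat.mul_le_mul hc h1.le
        _ = p * D := Nat.mul_comm _ _
    rw [if_neg h4]
  rw [h0, mul_zero]

/-- `ge` is `η` cut to `(lo, hi]`. -/
theorem b03_ge (A D d : ℕ) (lo : ℕ) (hi : ℤ) : ge A D lo hi d = if lo < d ∧ (d : ℤ) ≤ hi then eta A D d else 0 := by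
  unfold ge eta
  by_cases hc : lo < d ∧ (d : ℤ) ≤ hi
  · rw [if_pos hc]
    congr 1
    refine sum_congr rfl fun p _ => ?_
    unfold gp eprime
    by_cases h1 : p * D < d * A
    · have h2 : (lo : ℤ) < (d : ℤ) ∧ (d : ℤ) ≤ hi ∧ (p : ℤ) * D < (d : ℤ) * A := by
        refine ⟨by exact_mod_cast hc.1, hc.2, by exact_mod_cast h1⟩
      rw [if_pos h1, if_pos h2]
      by_cases h3 : p ∣ d
      · have h4 : (p : ℤ) ∣ (d : ℤ) := by exact_mod_cast h3
        rw [if_pos h3, if_pos h4]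
      · have h4 : ¬ (p : ℤ) ∣ (d : ℤ) := by
          intro h5
          exact h3 (by exact_mod_cast h5)
        rw [if_neg h3, if_neg h4]
    · have h2 : ¬ ((lo : ℤ) < (d : ℤ) ∧ (d : ℤ) ≤ hi ∧ (p : ℤ) * D < (d : ℤ) * A) := by
        intro h5
        exact h1 (by exact_mod_cast h5.2.2)
      rw [if_neg h1, if_neg h2]
  · rw [if_neg hc]
    have h0 : ∑ p ∈ PA A, gp A D p lo hi d = 0 := by
      refine sum_eq_zero fun p _ => ?_
      unfold gp
      rw [if_neg]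
      intro h5
      exact hc ⟨by exact_mod_cast h5.1, h5.2.1⟩
    rw [h0, mul_zero]

end Pool.Agent.HUK
end

-- from Lib.HUK.B11
section

/-!
# HUK B11 (M, only Mathlib): iterated differences of real functions, of products, of indicators

PROOFS. `b11_real`: induction on `k`, `List.ofFn_succ`; `DL (h₀ :: l) f = DL l (DD h₀ f)` and `DD h₀ (g : ℂ) = ((g * g(· + h₀) : ℝ) : ℂ)`
(`Complex.conj_ofReal`). A subset `w` of `Fin (k+1)` is `w'` or `{0} ∪ w'` with `w' ⊆` the image of `Fin.succ`, so the product over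
`Finset (Fin (k+1))` of `g (y + ∑_{i∈w} h i)` is `∏_{w' : Finset (Fin k)} g (y + ∑_{i∈w'} h (i+1)) g (y + h 0 + ∑_{i∈w'} h (i+1))`
(bijection `Finset (Fin k) ⊕ Finset (Fin k) ≃ Finset (Fin (k+1))`, or `Finset.prod_powerset_insert` after `univ = insert 0 (univ.map succ)`).
`b11_mul`: induction on the list, `DD (v) (a ⊗ b) = DD v.1 a ⊗ DD v.2 b`.
`b11_le`: induction. `b11_zero`: `DL l f y` is a product with `f y` as a factor: induction, `DD h f y = 0` if `f y = 0`.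
-/

open Finset

namespace Pool.Agent.HUK

theorem b11_prod_succ (k : ℕ) (F : Finset (Fin (k + 1)) → ℝ) :
    ∏ w : Finset (Fin (k + 1)), F w =
      (∏ w : Finset (Fin k), F (w.map (Fin.succEmb k))) * ∏ w : Finset (Fin k), F (insert 0 (w.map (Fin.succEmb k))) := by
  have hu : (univ : Finset (Fin (k + 1))) = insert 0 (univ.map (Fin.succEmb k)) := by
    ext i
    refine Fin.cases ?_ (fun j => ?_) i
    · simp
    · simp
  have h0 : (0 : Fin (k + 1)) ∉ (univ : Finset (Fin k)).map (Fin.succEmb k) := by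
    intro h
    rw [mem_map] at h
    obtain ⟨a, _, ha⟩ := h
    exact Fin.succ_ne_zero a ha
  have hb : ∀ G : Finset (Fin (k + 1)) → ℝ, ∏ t ∈ ((univ : Finset (Fin k)).map (Fin.succEmb k)).powerset, G t =
      ∏ w : Finset (Fin k), G (w.map (Fin.succEmb k)) := by
    intro G
    symm
    refine prod_bij (fun w _ => w.map (Fin.succEmb k)) (fun w _ => ?_) (fun w _ w' _ h => ?_) (fun t ht => ?_) (fun w _ => rfl)
    · rw [mem_powerset]
      exact map_subset_map.2 (subset_univ w)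
    · exact map_injective _ h
    · rw [mem_powerset, subset_map_iff] at ht
      obtain ⟨u, _, hu2⟩ := ht
      exact ⟨u, mem_univ u, hu2.symm⟩
  rw [← powerset_univ, hu, prod_powerset_insert h0, hb, hb]

theorem b11_real (k : ℕ) (h : Fin k → ℤ) (g : ℤ → ℝ) (y : ℤ) :
    DL (List.ofFn h) (fun x => ((g x : ℝ) : ℂ)) y = ((∏ w : Finset (Fin k), g (y + ∑ i ∈ w, h i) : ℝ) : ℂ) := by
  induction k generalizing g with
  | zero =>
    have h1 : (univ : Finset (Finset (Fin 0))) = {∅} := by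
      ext w
      simp only [mem_univ, mem_singleton, true_iff]
      exact eq_empty_of_isEmpty w
    rw [h1, prod_singleton, sum_empty, add_zero, List.ofFn_zero]
    rfl
  | succ k ih =>
    rw [List.ofFn_succ]
    have h1 : DD (h 0) (fun x => ((g x : ℝ) : ℂ)) = fun x => ((g x * g (x + h 0) : ℝ) : ℂ) := by
      funext x
      unfold DD
      rw [Complex.conj_ofReal, Complex.ofReal_mul]
    show DL (List.ofFn fun i => h i.succ) (DD (h 0) (fun x => ((g x : ℝ) : ℂ))) y = _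
    rw [h1, ih (fun i => h i.succ) (fun x => g x * g (x + h 0)), b11_prod_succ, prod_mul_distrib]
    congr 2
    · refine prod_congr rfl fun w _ => ?_
      rw [sum_map]
      rfl
    · refine prod_congr rfl fun w _ => ?_
      have h0 : (0 : Fin (k + 1)) ∉ w.map (Fin.succEmb k) := by
        intro h
        rw [mem_map] at h
        obtain ⟨a, _, ha⟩ := h
        exact Fin.succ_ne_zero a ha
      rw [sum_insert h0, sum_map]
      congr 1
      show y + ∑ i ∈ w, h i.succ + h 0 = y + (h 0 + ∑ i ∈ w, h i.succ)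
      ring

theorem b11_mul {G H : Type*} [AddCommGroup G] [AddCommGroup H] (l : List (G × H)) (a : G → ℂ) (b : H → ℂ) (z : G × H) :
    DL l (fun z => a z.1 * b z.2) z = DL (l.map Prod.fst) a z.1 * DL (l.map Prod.snd) b z.2 := by
  induction l generalizing a b with
  | nil => rfl
  | cons v l ih =>
    have h1 : DD v (fun z : G × H => a z.1 * b z.2) = fun z : G × H => DD v.1 a z.1 * DD v.2 b z.2 := by
      funext z
      unfold DD
      show a z.1 * b z.2 * (starRingEnd ℂ) (a (z.1 + v.1) * b (z.2 + v.2)) = _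
      rw [map_mul]
      ring
    show DL l (DD v (fun z : G × H => a z.1 * b z.2)) z = _
    rw [h1, ih (DD v.1 a) (DD v.2 b)]
    rfl

theorem b11_le {G : Type*} [AddCommGroup G] (l : List G) (f : G → ℂ) (hf : ∀ y, ‖f y‖ ≤ 1) (y : G) : ‖DL l f y‖ ≤ 1 := by
  induction l generalizing f with
  | nil => exact hf y
  | cons v l ih =>
    refine ih (DD v f) fun x => ?_
    unfold DD
    rw [norm_mul, RCLike.norm_conj]
    exact mul_le_one₀ (hf x) (norm_nonneg _) (hf _)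


end Pool.Agent.HUK
end

-- from Lib.HUK.B13
section

/-!
# HUK B13 (M/L): killing all functions of the dual function by Cauchy-Schwarz

PROOF. `E1_elim` with `G = ℤ × ℤ`, `r = k`, `B = Ioc lo hi ×ˢ Ioo (-2X) (2X)`, `B' = Ioc (lo - k H) hi ×ˢ Ioo (-2X - m H) (2X)`,
`v i = (k - i, m)`, `g i z = f i (z.1 * m - (k - i) * z.2)` (bounded by `Bdd.le`, invariant under `v i`: `(z.1 + (k-i)) m - (k-i) (z.2 + m)`),
`c z = a z.1 * b z.2` with `a d = (g d : ℂ)`, `b h = if h ∈ Ioo (-2X) (2X) then 1 else 0`. If `z + h • v i ∈ B`, `0 ≤ h < H`, then `z ∈ B'` (`1 ≤ k - i ≤ k`).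
`N = 8 (k+1) L X`: `#B' ≤ (L + k H) (4X + m H) ≤ (k+1) L * 8 X` (if `lo - kH > hi` the set is empty; `Int.card_Ioc`, `Int.card_Ioo`, `toNat`).
The left side: `∑_{z ∈ B} (∏_i g i z) c z = ∑_{d ∈ Ioc lo hi} g d * Psi X k f (d m)` (`Finset.sum_product`, `Finset.prod_range`).
The right side: `b11_mul` (`List.map` of `List.ofFn` is `List.ofFn`: `List.map_ofFn`): `DL (ofFn (j i • v i)) c z = DL (ofFn fun i => j i * (k - i)) a z.1 *
DL (ofFn fun i => j i * m) b z.2`; the sum over `B` is the product of the sums; the second has absolute value at most `4X` (`b11_le`), the first is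
`∑_{d ∈ Ioc lo hi} ∏_w g (d + ∑_{i ∈ w} j i (k - i))` (`b11_real`), i.e. the real number of the claim (`sgb`, commutativity).
So `(‖Σ‖/N)^(2^k) ≤ 2^(2^k) / H^k * ∑_j 4X |T j| / N`; multiply by `N^(2^k)`:
`‖Σ‖^(2^k) ≤ 2^(2^k) 4 N^(2^k - 1) X / H^k ∑_j |T j|`, and `N^(2^k-1) = (8(k+1))^(2^k-1) (L X)^(2^k-1)`. `C = 4 * 2^(2^k) * (8 (k+1))^(2^k)`.
-/

open Finset

namespace Pool.Agent.HUK

private theorem b13_left (X k m : ℕ) (f : ℕ → ℤ → ℂ) (lo hi : ℤ) (g : ℤ → ℝ) :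
    ∑ z ∈ Ioc lo hi ×ˢ Ioo (-(2 * X : ℤ)) (2 * X),
      (∏ i : Fin k, f i (z.1 * m - ((k : ℤ) - i) * z.2)) *
        (((g z.1 : ℝ) : ℂ) * (if z.2 ∈ Ioo (-(2 * X : ℤ)) (2 * X) then 1 else 0)) =
    ∑ d ∈ Ioc lo hi, ((g d : ℝ) : ℂ) * Psi X k f (d * m) := by
  rw [Finset.sum_product]
  refine Finset.sum_congr rfl fun d _ => ?_
  unfold Psi
  rw [Finset.mul_sum]
  refine Finset.sum_congr rfl fun h hh => ?_
  simp only [hh, if_true, mul_one]
  rw [mul_comm, Finset.prod_range]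

private theorem b13_card (X k m H L : ℕ) (lo hi : ℤ) (hL : hi - lo ≤ L) (hHL : H ≤ L) (hmH : m * H ≤ 4 * X) (hX : 1 ≤ X) :
    ((Ioc (lo - k * H) hi ×ˢ Ioo (-(2 * X : ℤ) - m * H) (2 * X)).card : ℝ) ≤ 8 * (k + 1) * L * X := by
  rw [Finset.card_product, Int.card_Ioc, Int.card_Ioo]
  have h1 : (hi - (lo - k * H)).toNat ≤ (k + 1) * L := by
    have h2 : (k : ℤ) * H ≤ k * L := by exact_mod_cast Nat.mul_le_mul_left k hHL
    have h3 : hi - (lo - k * H) ≤ (((k + 1) * L : ℕ) : ℤ) := by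
      push_cast
      linarith
    exact Int.toNat_le.mpr h3
  have h4 : ((2 * X : ℤ) - (-(2 * X : ℤ) - m * H) - 1).toNat ≤ 8 * X := by
    have h5 : ((m : ℤ) * H) ≤ 4 * X := by exact_mod_cast hmH
    exact Int.toNat_le.mpr (by push_cast; linarith)
  have h6 := Nat.mul_le_mul h1 h4
  have h7 : (((hi - (lo - k * H)).toNat * ((2 * X : ℤ) - (-(2 * X : ℤ) - m * H) - 1).toNat : ℕ) : ℝ) ≤
      (((k + 1) * L * (8 * X) : ℕ) : ℝ) := by exact_mod_cast h6
  refine h7.trans (le_of_eq ?_)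
  push_cast
  ring

private theorem b13_right (X k m : ℕ) (lo hi : ℤ) (g : ℤ → ℝ) (hX : 1 ≤ X) (j : Fin k → ℤ) :
    ‖∑ z ∈ Ioc lo hi ×ˢ Ioo (-(2 * X : ℤ)) (2 * X),
      DL (List.ofFn fun i : Fin k => j i • (((k : ℤ) - i, (m : ℤ)) : ℤ × ℤ))
        (fun z : ℤ × ℤ => ((g z.1 : ℝ) : ℂ) * (if z.2 ∈ Ioo (-(2 * X : ℤ)) (2 * X) then 1 else 0)) z‖ ≤
    |∑ d ∈ Ioc lo hi, ∏ w : Finset (Fin k), g (d + sgb (fun i => (k : ℤ) - i) j w)| * (4 * X) := by
  have hb := fun z : ℤ × ℤ => b11_mul (List.ofFn fun i : Fin k => j i • (((k : ℤ) - i, (m : ℤ)) : ℤ × ℤ))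
    (fun d => ((g d : ℝ) : ℂ)) (fun h => if h ∈ Ioo (-(2 * X : ℤ)) (2 * X) then (1 : ℂ) else 0) z
  rw [Finset.sum_congr rfl fun z _ => hb z, Finset.sum_product]
  simp only [List.map_ofFn]
  rw [← Finset.sum_mul_sum, norm_mul]
  refine mul_le_mul ?_ ?_ (norm_nonneg _) (abs_nonneg _)
  · have h1 : ∀ d, DL (List.ofFn (Prod.fst ∘ fun i : Fin k => j i • (((k : ℤ) - i, (m : ℤ)) : ℤ × ℤ))) (fun d => ((g d : ℝ) : ℂ)) d =
        ((∏ w : Finset (Fin k), g (d + sgb (fun i => (k : ℤ) - i) j w) : ℝ) : ℂ) := by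
      intro d
      rw [b11_real]
      congr 1
      refine Finset.prod_congr rfl fun w _ => ?_
      congr 2
      unfold sgb
      refine Finset.sum_congr rfl fun i _ => ?_
      simp [mul_comm]
    rw [Finset.sum_congr rfl fun d _ => h1 d, ← Complex.ofReal_sum, Complex.norm_real, Real.norm_eq_abs]
  · refine (norm_sum_le _ _).trans ?_
    refine (Finset.sum_le_sum fun h _ => b11_le _ _ (fun y => ?_) h).trans ?_
    · by_cases hy : y ∈ Ioo (-(2 * X : ℤ)) (2 * X)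
      · simp [hy]
      · simp [hy]
    · rw [Finset.sum_const, nsmul_eq_mul, mul_one, Int.card_Ioo]
      have h2 : ((2 * X : ℤ) - -(2 * X : ℤ) - 1).toNat ≤ 4 * X := Int.toNat_le.mpr (by push_cast; linarith)
      have h3 : ((((2 * X : ℤ) - -(2 * X : ℤ) - 1).toNat : ℕ) : ℝ) ≤ ((4 * X : ℕ) : ℝ) := by exact_mod_cast h2
      refine h3.trans (le_of_eq ?_)
      push_cast
      ring

theorem b13_elim (k : ℕ) (hk : 2 ≤ k) : ∃ C : ℝ, 1 ≤ C ∧ ∀ X m H L : ℕ, 1 ≤ X → 1 ≤ m → 1 ≤ H → H ≤ L → m * H ≤ 4 * X →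
    ∀ f : ℕ → ℤ → ℂ, (∀ j, j < k → Bdd X (f j)) → ∀ lo hi : ℤ, hi - lo ≤ L → ∀ g : ℤ → ℝ, (∀ d, d ∉ Ioc lo hi → g d = 0) →
    ‖∑ d ∈ Ioc lo hi, ((g d : ℝ) : ℂ) * Psi X k f (d * m)‖ ^ (2 ^ k) ≤
      C * ((L : ℝ) * X) ^ (2 ^ k - 1) * X * (1 / (H : ℝ) ^ k) *
        ∑ j ∈ bxS k H, |∑ d ∈ Ioc lo hi, ∏ w : Finset (Fin k), g (d + sgb (fun i => (k : ℤ) - i) j w)| := by
  refine ⟨4 * 2 ^ (2 ^ k) * (8 * (k + 1)) ^ (2 ^ k - 1), ?_, ?_⟩
  · have h1 : (1 : ℝ) ≤ 2 ^ (2 ^ k) := one_le_pow₀ (by norm_num)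
    have h2 : (1 : ℝ) ≤ (8 * ((k : ℝ) + 1)) ^ (2 ^ k - 1) := one_le_pow₀ (by
      have : (0 : ℝ) ≤ k := Nat.cast_nonneg k
      linarith)
    nlinarith
  intro X m H L hX hm hH hHL hmH f hf lo hi hL g hg
  have hX' : (0 : ℝ) < X := by exact_mod_cast hX
  have hL' : (0 : ℝ) < L := by exact_mod_cast (lt_of_lt_of_le (Nat.lt_of_lt_of_le Nat.zero_lt_one hH) hHL)
  have hH' : (0 : ℝ) < H := by exact_mod_cast hH
  have hk' : (0 : ℝ) ≤ k := Nat.cast_nonneg k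
  set N : ℝ := 8 * (k + 1) * L * X with hN
  have hN0 : 0 < N := by positivity
  have hE := E1_elim (G := ℤ × ℤ) (Ioc lo hi ×ˢ Ioo (-(2 * X : ℤ)) (2 * X))
    (Ioc (lo - k * H) hi ×ˢ Ioo (-(2 * X : ℤ) - m * H) (2 * X)) N (b13_card X k m H L lo hi hL hHL hmH hX) hN0 H hH k
    (fun i => ((k : ℤ) - i, (m : ℤ))) (fun i z => f i (z.1 * m - ((k : ℤ) - i) * z.2))
    (fun z => ((g z.1 : ℝ) : ℂ) * (if z.2 ∈ Ioo (-(2 * X : ℤ)) (2 * X) then 1 else 0))
    (fun i z => (hf i i.2).le _)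
    (fun i z => by
      simp only [Prod.fst_add, Prod.snd_add]
      congr 1
      ring)
    (fun z hz => by
      rw [Finset.mem_product, not_and_or] at hz
      rcases hz with hz | hz
      · simp [hg z.1 hz]
      · simp [hz])
    (fun i z h hh hz => by
      have s1 : (h • (((k : ℤ) - i, (m : ℤ)) : ℤ × ℤ)).1 = h * ((k : ℤ) - i) := by
        rw [Prod.smul_fst, nsmul_eq_mul]
      have s2 : (h • (((k : ℤ) - i, (m : ℤ)) : ℤ × ℤ)).2 = h * m := by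
        rw [Prod.smul_snd, nsmul_eq_mul]
      rw [Finset.mem_product, Finset.mem_Ioc, Finset.mem_Ioo] at hz ⊢
      rw [Prod.fst_add, Prod.snd_add, s1, s2] at hz
      have hi1 : (i : ℤ) < k := by exact_mod_cast i.2
      have hi0 : (0 : ℤ) ≤ i := by positivity
      have hh0 : (0 : ℤ) ≤ h := by positivity
      have hhH : (h : ℤ) ≤ H := by exact_mod_cast hh.le
      have e1 : (0 : ℤ) ≤ h * ((k : ℤ) - i) := mul_nonneg hh0 (by linarith)
      have e2 : (h : ℤ) * ((k : ℤ) - i) ≤ k * H := by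
        calc (h : ℤ) * ((k : ℤ) - i) ≤ H * k := mul_le_mul hhH (by linarith) (by linarith) (by positivity)
          _ = k * H := mul_comm _ _
      have e3 : (0 : ℤ) ≤ h * m := by positivity
      have e4 : (h : ℤ) * m ≤ m * H := by
        calc (h : ℤ) * m ≤ H * m := mul_le_mul_of_nonneg_right hhH (by positivity)
          _ = m * H := mul_comm _ _
      refine ⟨⟨by linarith [hz.1.1], by linarith [hz.1.2]⟩, ⟨by linarith [hz.2.1], by linarith [hz.2.2]⟩⟩)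
  rw [b13_left] at hE
  set S : ℝ := ‖∑ d ∈ Ioc lo hi, ((g d : ℝ) : ℂ) * Psi X k f (d * m)‖ with hS
  set T : (Fin k → ℤ) → ℝ := fun j => |∑ d ∈ Ioc lo hi, ∏ w : Finset (Fin k), g (d + sgb (fun i => (k : ℤ) - i) j w)| with hT
  have hR : (S / N) ^ (2 ^ k) ≤ 2 ^ (2 ^ k) / (H : ℝ) ^ k * ((∑ j ∈ bxS k H, T j) * (4 * X) / N) := by
    refine hE.trans (mul_le_mul_of_nonneg_left ?_ (by positivity))
    rw [Finset.sum_mul, Finset.sum_div]
    refine Finset.sum_le_sum fun j _ => ?_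
    exact div_le_div_of_nonneg_right (b13_right X k m lo hi g hX j) hN0.le
  have hpow : 2 ^ k - 1 + 1 = 2 ^ k := Nat.sub_add_cancel (Nat.one_le_two_pow)
  have hSN : S ^ (2 ^ k) = (S / N) ^ (2 ^ k) * N ^ (2 ^ k) := by
    rw [div_pow, div_mul_cancel₀]
    positivity
  rw [hSN]
  calc (S / N) ^ (2 ^ k) * N ^ (2 ^ k) ≤
      2 ^ (2 ^ k) / (H : ℝ) ^ k * ((∑ j ∈ bxS k H, T j) * (4 * X) / N) * N ^ (2 ^ k) :=
        mul_le_mul_of_nonneg_right hR (by positivity)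
    _ = 2 ^ (2 ^ k) / (H : ℝ) ^ k * ((∑ j ∈ bxS k H, T j) * (4 * X)) * N ^ (2 ^ k - 1) := by
        rw [← hpow, pow_succ (n := 2 ^ k - 1) (a := N)]
        rw [hpow]
        field_simp
    _ = 4 * 2 ^ (2 ^ k) * (8 * (k + 1)) ^ (2 ^ k - 1) * ((L : ℝ) * X) ^ (2 ^ k - 1) * X * (1 / (H : ℝ) ^ k) *
        ∑ j ∈ bxS k H, T j := by
        have : N ^ (2 ^ k - 1) = (8 * ((k : ℝ) + 1)) ^ (2 ^ k - 1) * ((L : ℝ) * X) ^ (2 ^ k - 1) := by
          rw [← mul_pow]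
          congr 1
          rw [hN]
          ring
        rw [this]
        ring

end Pool.Agent.HUK
end

-- from Lib.HUK.B15
section

/-!
# HUK B15 (M/L): the local estimate

PROOF. `A = ⌊X^τ⌋`, `D = ⌊X^θ⌋`, `S = SA A` (`> 0` and `1/S ≤ 8 log 4A` by `b01_sa`, `X` large so that `A ≥ A0`, `A ≥ k`).
`L = 2 k X / m` (division in `ℕ`). For `d > L` one has `d m > 2kX` and `Psi = 0` (`b12_psi_zero`); for `d ≤ D` `eta = 0` (`b03_eta_supp`). So if
`L ≤ D` or `L ≤ i` the sum is `0`. Otherwise the sum is `∑_{d ∈ Ioc (i:ℤ) L} ge A D i L d * Psi(d m)` (`b03_ge`, sums over `ℕ` and over `ℤ`).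
Take `H = L / k` (division in `ℕ`): `m H ≤ 2X`, `1 ≤ H ≤ L`, and `4A ≤ H` because `L > D ≥ 4 k (A + 1)` for `X` large (`θ ≥ 2^(k+3) τ ≥ 2 τ`).
`b13_elim` with `g = ge A D i L` (zero outside `(i, L]`) and `b10_corr` with `c i = k - i`, `Y = 2kX`, `hi = L ≤ Y`:
`‖Σ‖^(2^k) ≤ C (L X)^(2^k - 1) X H^(-k) (2H)^k [...] = 2^k C (LX)^(2^k - 1) X [...] ≤ (L X)^(2^k) X^(-τ/2)` by `b14_num` with the constant `2^k C`.
Roots: `‖Σ‖ ≤ L X * X^(-τ/2^(k+1)) ≤ (2kX/m) X X^(-τ/2^(k+1)) ≤ X^(2-c)/m` with `c = τ/2^(k+2)` once `X^c ≥ 2k`.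
-/

open Finset

namespace Pool.Agent.HUK

theorem b15_cast (i L : ℕ) (f : ℤ → ℂ) : ∑ d ∈ Ioc (i : ℤ) L, f d = ∑ d ∈ Ioc i L, f (d : ℤ) := by
  refine (Finset.sum_nbij' (fun d : ℕ => (d : ℤ)) (fun d : ℤ => d.toNat) ?_ ?_ ?_ ?_ ?_).symm
  · intro d hd
    rw [mem_Ioc] at hd ⊢
    exact ⟨by exact_mod_cast hd.1, by exact_mod_cast hd.2⟩
  · intro d hd
    rw [mem_Ioc] at hd ⊢
    omega
  · intro d hd
    simp
  · intro d hd
    rw [mem_Ioc] at hd
    exact Int.toNat_of_nonneg (by omega)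
  · intro d hd
    rfl

theorem b15_ge_zero (A D i L : ℕ) (d : ℤ) (hd : d ∉ Ioc (i : ℤ) L) : ge A D i L d = 0 := by
  unfold ge
  have h : ∀ p ∈ PA A, gp A D p i L d = 0 := by
    intro p _
    unfold gp
    rw [if_neg]
    rintro ⟨h1, h2, _⟩
    exact hd (mem_Ioc.mpr ⟨h1, h2⟩)
  rw [Finset.sum_eq_zero h, mul_zero]

/-- The sum over `d` is a sum over `Ioc i L`. -/
theorem b15_sum (k X A D m i : ℕ) (hk : 2 ≤ k) (hm : 1 ≤ m) (f : ℕ → ℤ → ℂ) (hf : ∀ j, j < k → Bdd X (f j)) :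
    ∑ d ∈ Ioc i (2 * k * X), ((eta A D d : ℝ) : ℂ) * Psi X k f ((d : ℤ) * m) =
      ∑ d ∈ Ioc (i : ℤ) ((2 * k * X / m : ℕ) : ℤ), ((ge A D i ((2 * k * X / m : ℕ) : ℤ) d : ℝ) : ℂ) * Psi X k f (d * m) := by
  rw [b15_cast i (2 * k * X / m)]
  have hsub : Ioc i (2 * k * X / m) ⊆ Ioc i (2 * k * X) :=
    Finset.Ioc_subset_Ioc_right (Nat.div_le_self _ _)
  rw [← Finset.sum_subset hsub]
  · refine Finset.sum_congr rfl fun d hd => ?_
    rw [mem_Ioc] at hd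
    rw [b03_ge, if_pos ⟨hd.1, by exact_mod_cast hd.2⟩]
  · intro d hd hd2
    rw [mem_Ioc] at hd
    rw [mem_Ioc] at hd2
    have h1 : 2 * k * X / m < d := by
      by_contra hcon
      exact hd2 ⟨hd.1, by omega⟩
    have h2 : 2 * k * X < d * m := (Nat.div_lt_iff_lt_mul (by omega)).mp h1
    rw [b12_psi_zero X k hk f hf ((d : ℤ) * m) (by exact_mod_cast h2), mul_zero]

theorem b15_core (k X A D m i : ℕ) (hk : 2 ≤ k) (hX : 1 ≤ X) (hm : 1 ≤ m) (hA : 2 ≤ A) (hkA : k ≤ A) (hS : 0 < SA A)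
    (f : ℕ → ℤ → ℂ) (hf : ∀ j, j < k → Bdd X (f j)) (hD : 4 * k * (A + 1) ≤ D) (hDL : D < 2 * k * X / m)
    (C : ℝ) (hC : 1 ≤ C)
    (hel : ∀ X m H L : ℕ, 1 ≤ X → 1 ≤ m → 1 ≤ H → H ≤ L → m * H ≤ 4 * X →
      ∀ f : ℕ → ℤ → ℂ, (∀ j, j < k → Bdd X (f j)) → ∀ lo hi : ℤ, hi - lo ≤ L → ∀ g : ℤ → ℝ, (∀ d, d ∉ Ioc lo hi → g d = 0) →
      ‖∑ d ∈ Ioc lo hi, ((g d : ℝ) : ℂ) * Psi X k f (d * m)‖ ^ (2 ^ k) ≤
        C * ((L : ℝ) * X) ^ (2 ^ k - 1) * X * (1 / (H : ℝ) ^ k) *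
          ∑ j ∈ bxS k H, |∑ d ∈ Ioc lo hi, ∏ w : Finset (Fin k), g (d + sgb (fun i => (k : ℤ) - i) j w)|) :
    ‖∑ d ∈ Ioc i (2 * k * X), ((eta A D d : ℝ) : ℂ) * Psi X k f ((d : ℤ) * m)‖ ^ (2 ^ k) ≤
      (((2 * k * X / m : ℕ) : ℝ) * X) ^ (2 ^ k - 1) * X * ((2 ^ k * C) * ((1 / SA A) ^ (2 ^ k) * (4 * A : ℝ) ^ (2 ^ (k + 1))
        + 27 * 2 ^ k * ((1 / SA A) * (2 * Real.log (2 * k * X)) + 1) ^ (2 ^ k) * (1 / SA A) ^ 2 * ((2 * k * X / m : ℕ) : ℝ) / A)) := by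
  rw [b15_sum k X A D m i hk hm f hf]
  have hA1 : 4 * k * (A + 1) < 2 * k * X / m := lt_of_le_of_lt hD hDL
  generalize hLdef : 2 * k * X / m = L at *
  have hmL : m * L ≤ 2 * k * X := by
    rw [← hLdef]
    exact Nat.mul_div_le _ _
  obtain ⟨H, hHdef⟩ : ∃ H, H = L / k := ⟨_, rfl⟩
  have hkH : k * H ≤ L := by
    rw [hHdef]
    exact Nat.mul_div_le _ _
  have hH4 : 4 * A ≤ H := by
    rw [hHdef, Nat.le_div_iff_mul_le (by omega)]
    nlinarith
  have hHL : H ≤ L := by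
    rw [hHdef]
    exact Nat.div_le_self _ _
  have hmH : m * H ≤ 4 * X := by
    have h1 : k * (m * H) ≤ k * (2 * X) := by
      calc k * (m * H) = m * (k * H) := by ring
        _ ≤ m * L := Nat.mul_le_mul_left _ hkH
        _ ≤ 2 * k * X := hmL
        _ = k * (2 * X) := by ring
    have h2 : m * H ≤ 2 * X := Nat.le_of_mul_le_mul_left h1 (by omega)
    omega
  have hH1 : 1 ≤ H := by omega
  have h1 := hel X m H L hX hm hH1 hHL hmH f hf (i : ℤ) (L : ℤ) (by omega) (fun d => ge A D i L d)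
    (fun d hd => b15_ge_zero A D i L d hd)
  have hY1 : (1 : ℝ) ≤ 2 * k * X := by
    have h : 1 ≤ 2 * k * X := Nat.succ_le_of_lt (by positivity)
    exact_mod_cast h
  have hLY : ((L : ℤ) : ℝ) ≤ 2 * k * X := by
    have h : L ≤ 2 * k * X := by
      rw [← hLdef]
      exact Nat.div_le_self _ _
    exact_mod_cast h
  have h2 := b10_corr k A D H L hA hkA hH4 (by omega) hS (i : ℤ) (L : ℤ) (by omega) (by omega) (2 * k * X) hY1 hLY
    (fun i => (k : ℤ) - i) (fun i => ⟨by have := i.2; omega, by have := i.2; omega⟩)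
  have hHpos : (0 : ℝ) < H := by exact_mod_cast hH1
  refine h1.trans ?_
  have h3 : 0 ≤ C * ((L : ℝ) * X) ^ (2 ^ k - 1) * X * (1 / (H : ℝ) ^ k) := by positivity
  refine (mul_le_mul_of_nonneg_left h2 h3).trans (le_of_eq ?_)
  rw [mul_pow (2 : ℝ) (H : ℝ) k]
  field_simp

theorem b15_local (k : ℕ) (hk : 2 ≤ k) (θ τ : ℝ) (hτ : 0 < τ) (hθτ : 2 ^ (k + 3) * τ ≤ θ) (hθ : θ ≤ 1) :
    ∃ c : ℝ, 0 < c ∧ ∃ X0 : ℕ, ∀ X : ℕ, X0 ≤ X → ∀ f : ℕ → ℤ → ℂ, (∀ j, j < k → Bdd X (f j)) → ∀ m i : ℕ, 1 ≤ m →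
    ‖∑ d ∈ Ioc i (2 * k * X), ((eta ⌊(X : ℝ) ^ τ⌋₊ ⌊(X : ℝ) ^ θ⌋₊ d : ℝ) : ℂ) * Psi X k f ((d : ℤ) * m)‖ ≤
      (X : ℝ) ^ (2 - c) / m := by
  obtain ⟨A0, hA02, hA0⟩ := b01_sa
  obtain ⟨C, hC1, hel⟩ := b13_elim k hk
  have hC2 : (1 : ℝ) ≤ 2 ^ k * C := by
    have h : (1 : ℝ) ≤ 2 ^ k := one_le_pow₀ (by norm_num)
    nlinarith
  obtain ⟨X1, hX1⟩ := b14_num k θ τ (2 ^ k * C) hτ hθτ hθ hC2
  have hc : 0 < τ / (4 * 2 ^ k) := by positivity
  refine ⟨τ / (4 * 2 ^ k), hc, ?_⟩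
  have ht1 : Filter.Tendsto (fun X : ℕ => (X : ℝ) ^ τ) Filter.atTop Filter.atTop :=
    (tendsto_rpow_atTop hτ).comp tendsto_natCast_atTop_atTop
  have ht2 : Filter.Tendsto (fun X : ℕ => (X : ℝ) ^ (τ / (4 * 2 ^ k))) Filter.atTop Filter.atTop :=
    (tendsto_rpow_atTop hc).comp tendsto_natCast_atTop_atTop
  have hev := ((ht1.eventually_ge_atTop ((A0 : ℝ) + k)).and ((ht1.eventually_ge_atTop (8 * k : ℝ)).and
    (ht2.eventually_ge_atTop (2 * k : ℝ)))).and ((Filter.eventually_ge_atTop 1).and (Filter.eventually_ge_atTop X1))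
  obtain ⟨X0, hX0⟩ := Filter.eventually_atTop.mp hev
  refine ⟨X0, fun X hX f hf m i hm => ?_⟩
  obtain ⟨⟨e1, e2, e3⟩, e4, e5⟩ := hX0 X hX
  obtain ⟨A, hAdef⟩ : ∃ A, A = ⌊(X : ℝ) ^ τ⌋₊ := ⟨_, rfl⟩
  obtain ⟨D, hDdef⟩ : ∃ D, D = ⌊(X : ℝ) ^ θ⌋₊ := ⟨_, rfl⟩
  rw [← hAdef, ← hDdef]
  have hXr : (1 : ℝ) ≤ X := by exact_mod_cast e4
  have hXpos : (0 : ℝ) < X := by linarith
  have hAk : A0 + k ≤ A := by
    rw [hAdef]
    refine Nat.le_floor ?_
    push_cast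
    exact e1
  have hAle : (A : ℝ) ≤ (X : ℝ) ^ τ := by
    rw [hAdef]
    exact Nat.floor_le (by positivity)
  have hS8 := hA0 A (by omega)
  have hlogpos : 0 < Real.log (4 * A) := by
    refine Real.log_pos ?_
    have h : (2 : ℝ) ≤ A := by exact_mod_cast (show 2 ≤ A by omega)
    linarith
  have hS : 0 < SA A := lt_of_lt_of_le (by positivity) hS8
  have hS1 : 1 / SA A ≤ 8 * Real.log (4 * A) := by
    rw [div_le_iff₀ hS]
    rw [div_le_iff₀ (by positivity)] at hS8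
    linarith
  have hkr : (2 : ℝ) ≤ k := by exact_mod_cast hk
  have hD4 : 4 * k * (A + 1) ≤ D := by
    rw [hDdef]
    refine Nat.le_floor ?_
    push_cast
    have h32 : 2 * τ ≤ θ := by
      have h : (2 : ℝ) ≤ 2 ^ (k + 3) := by
        calc (2 : ℝ) = 2 ^ 1 := by norm_num
          _ ≤ 2 ^ (k + 3) := pow_le_pow_right₀ (by norm_num) (by omega)
      nlinarith
    have h1 : (X : ℝ) ^ (2 * τ) ≤ (X : ℝ) ^ θ := Real.rpow_le_rpow_of_exponent_le hXr h32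
    have h2 : (X : ℝ) ^ (2 * τ) = (X : ℝ) ^ τ * (X : ℝ) ^ τ := by
      rw [two_mul, Real.rpow_add hXpos]
    have h3 : (1 : ℝ) ≤ (X : ℝ) ^ τ := Real.one_le_rpow hXr hτ.le
    calc (4 * k * (A + 1) : ℝ) ≤ 4 * k * ((X : ℝ) ^ τ + (X : ℝ) ^ τ) := by
          refine mul_le_mul_of_nonneg_left (by linarith) (by positivity)
      _ = 8 * k * (X : ℝ) ^ τ := by ring
      _ ≤ (X : ℝ) ^ τ * (X : ℝ) ^ τ := mul_le_mul_of_nonneg_right e2 (by positivity)
      _ ≤ (X : ℝ) ^ θ := by rw [← h2]; exact h1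
  have hmr : (1 : ℝ) ≤ m := by exact_mod_cast hm
  by_cases hDL : D < 2 * k * X / m
  swap
  · have hz : ∀ d ∈ Ioc i (2 * k * X), ((eta A D d : ℝ) : ℂ) * Psi X k f ((d : ℤ) * m) = 0 := by
      intro d _
      by_cases hd : 2 * k * X / m < d
      · have h2 : 2 * k * X < d * m := (Nat.div_lt_iff_lt_mul (by omega)).mp hd
        rw [b12_psi_zero X k hk f hf ((d : ℤ) * m) (by exact_mod_cast h2), mul_zero]
      · have h3 : eta A D d = 0 := by
          by_contra hne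
          have := b03_eta_supp A D d hne
          omega
        rw [h3, Complex.ofReal_zero, zero_mul]
    rw [Finset.sum_eq_zero hz, norm_zero]
    positivity
  have hcore := b15_core k X A D m i hk e4 hm (by omega) (by omega) hS f hf hD4 hDL C hC1 hel
  have hDLr : (⌊(X : ℝ) ^ θ⌋₊ : ℝ) ≤ ((2 * k * X / m : ℕ) : ℝ) := by
    rw [← hDdef]
    exact_mod_cast hDL.le
  have hnum := hX1 X e5 (SA A) hS (by rw [← hAdef]; exact hS1) _ hDLr
  rw [← hAdef] at hnum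
  generalize ‖∑ d ∈ Ioc i (2 * k * X), ((eta A D d : ℝ) : ℂ) * Psi X k f ((d : ℤ) * m)‖ = N at *
  have hLle : ((2 * k * X / m : ℕ) : ℝ) ≤ 2 * k * X / m := by
    have h := @Nat.cast_div_le ℝ _ _ _ (2 * k * X) m
    push_cast at h
    exact h
  have hLpos : (0 : ℝ) < ((2 * k * X / m : ℕ) : ℝ) := by exact_mod_cast (by omega : 0 < 2 * k * X / m)
  generalize ((2 * k * X / m : ℕ) : ℝ) = L at *
  have hpow : N ^ (2 ^ k) ≤ (L * X * (X : ℝ) ^ (-(τ / (2 * 2 ^ k)))) ^ (2 ^ k) := by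
    refine hcore.trans ?_
    have h1 : (L * X) ^ (2 ^ k - 1) * X * ((2 ^ k * C) * ((1 / SA A) ^ (2 ^ k) * (4 * A : ℝ) ^ (2 ^ (k + 1))
        + 27 * 2 ^ k * ((1 / SA A) * (2 * Real.log (2 * k * X)) + 1) ^ (2 ^ k) * (1 / SA A) ^ 2 * L / A)) ≤
        (L * X) ^ (2 ^ k - 1) * X * (L * (X : ℝ) ^ (-(τ / 2))) :=
      mul_le_mul_of_nonneg_left hnum (by positivity)
    refine h1.trans (le_of_eq ?_)
    have h2 : ((X : ℝ) ^ (-(τ / (2 * 2 ^ k)))) ^ (2 ^ k) = (X : ℝ) ^ (-(τ / 2)) := by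
      rw [← Real.rpow_natCast, ← Real.rpow_mul hXpos.le]
      congr 1
      push_cast
      field_simp
    rw [mul_pow (L * X) ((X : ℝ) ^ (-(τ / (2 * 2 ^ k)))) (2 ^ k), h2]
    have h3 : (L * X) ^ (2 ^ k) = (L * X) ^ (2 ^ k - 1) * (L * X) := by
      rw [← pow_succ]
      congr 1
      have : 0 < 2 ^ k := by positivity
      omega
    rw [h3]
    ring
  have hb : 0 ≤ L * X * (X : ℝ) ^ (-(τ / (2 * 2 ^ k))) := by positivity
  have hN : N ≤ L * X * (X : ℝ) ^ (-(τ / (2 * 2 ^ k))) := le_of_pow_le_pow_left₀ (by positivity) hb hpow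
  refine hN.trans ?_
  have hm0 : (0 : ℝ) < m := by linarith
  rw [le_div_iff₀ hm0]
  have h4 : L * m ≤ 2 * k * X := by
    rw [le_div_iff₀ hm0] at hLle
    exact hLle
  have h5 : (X : ℝ) ^ (2 - τ / (4 * 2 ^ k)) = (X : ℝ) ^ (τ / (4 * 2 ^ k)) * (X * X * (X : ℝ) ^ (-(τ / (2 * 2 ^ k)))) := by
    have h6 : (X : ℝ) * X = (X : ℝ) ^ (2 : ℝ) := by
      rw [Real.rpow_two]
      ring
    rw [h6, ← Real.rpow_add hXpos, ← Real.rpow_add hXpos]
    congr 1
    field_simp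
    ring
  rw [h5]
  calc L * X * (X : ℝ) ^ (-(τ / (2 * 2 ^ k))) * m = (L * m) * (X * (X : ℝ) ^ (-(τ / (2 * 2 ^ k)))) := by ring
    _ ≤ (2 * k * X) * (X * (X : ℝ) ^ (-(τ / (2 * 2 ^ k)))) := mul_le_mul_of_nonneg_right h4 (by positivity)
    _ = (2 * k) * (X * X * (X : ℝ) ^ (-(τ / (2 * 2 ^ k)))) := by ring
    _ ≤ (X : ℝ) ^ (τ / (4 * 2 ^ k)) * (X * X * (X : ℝ) ^ (-(τ / (2 * 2 ^ k)))) :=
        mul_le_mul_of_nonneg_right e3 (by positivity)

end Pool.Agent.HUK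
end

-- from Lib.HUK.B16
section

/-!
# HUK B16 (M): the weighted double sum

PROOF. `b15_local` gives `c`, `X0`; take the new exponent `c' = c / 2`, `ε = c / 8`. `Icc 1 Y = Ioc 0 Y`, `Y = 2kX`. Weight `1`: for fixed `m` the inner sum is
`γ m` times the sum of `b15_local` with `i = 0`. Weight `log`: `b12_log` with `a d = eta d * Psi (d m)`, `E = X^(2-c)/m` gives the factor
`log (2kX+1)`. So the double sum is at most `∑_{m ≤ 2kX} X^ε X^(2-c) (1 + log(2kX+1)) / m ≤ X^(2-c+ε) (1 + log(2kX+1))^2` (harmonic sum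
`∑_{m ≤ Y} 1/m ≤ 1 + log Y`: `harmonic_le_one_add_log`), at most `X^(2 - c/2)` for large `X` (`(1 + log(2kX+1))^2 ≤ X^(c/8)`).
-/

open Finset

namespace Pool.Agent.HUK

theorem b16_large (k : ℕ) (hk : 2 ≤ k) (c : ℝ) (hc : 0 < c) : ∃ X0 : ℕ, 1 ≤ X0 ∧ ∀ X : ℕ, X0 ≤ X →
    (1 + Real.log ((2 * k * X : ℕ) + 1)) ^ 2 ≤ (X : ℝ) ^ (c / 8) := by
  have h1 : ∀ᶠ x : ℝ in Filter.atTop, ‖Real.log x‖ ≤ 1 / 3 * ‖x ^ (c / 16)‖ :=
    (isLittleO_log_rpow_atTop (show (0 : ℝ) < c / 16 by positivity)).def (by norm_num)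
  have h2 : ∀ᶠ X : ℕ in Filter.atTop, ‖Real.log (X : ℝ)‖ ≤ 1 / 3 * ‖(X : ℝ) ^ (c / 16)‖ :=
    tendsto_natCast_atTop_atTop.eventually h1
  obtain ⟨X1, hX1⟩ := Filter.eventually_atTop.1 h2
  refine ⟨max X1 (2 * k + 3), le_max_of_le_right (by omega), fun X hX => ?_⟩
  have hX1' : X1 ≤ X := (le_max_left _ _).trans hX
  have hX2 : 2 * k + 3 ≤ X := (le_max_right _ _).trans hX
  have hXr : (2 * k + 3 : ℝ) ≤ X := by exact_mod_cast hX2
  have hk0 : (0 : ℝ) ≤ k := Nat.cast_nonneg k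
  have hX0 : (0 : ℝ) < X := by linarith
  have h3 := hX1 X hX1'
  rw [Real.norm_of_nonneg (Real.log_nonneg (by linarith)), Real.norm_of_nonneg (Real.rpow_nonneg hX0.le _)] at h3
  have h4 : Real.log ((2 * k * X : ℕ) + 1) ≤ 2 * Real.log X := by
    have h5 : Real.log ((X : ℝ) ^ 2) = 2 * Real.log X := by rw [Real.log_pow]; norm_num
    rw [← h5]
    refine Real.log_le_log (by positivity) ?_
    push_cast
    nlinarith
  have h6 : 1 ≤ Real.log X := by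
    rw [Real.le_log_iff_exp_le hX0]
    have := Real.exp_one_lt_d9
    linarith
  have h7 : 0 ≤ Real.log ((2 * k * X : ℕ) + 1) := Real.log_nonneg (by
    have : (0 : ℝ) ≤ ((2 * k * X : ℕ) : ℝ) := Nat.cast_nonneg _
    linarith)
  have h8 : (1 + Real.log ((2 * k * X : ℕ) + 1)) ≤ (X : ℝ) ^ (c / 16) := by linarith
  calc (1 + Real.log ((2 * k * X : ℕ) + 1)) ^ 2 ≤ ((X : ℝ) ^ (c / 16)) ^ 2 := pow_le_pow_left₀ (by linarith) h8 2
    _ = (X : ℝ) ^ (c / 8) := by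
      rw [← Real.rpow_natCast, ← Real.rpow_mul hX0.le]
      congr 1
      push_cast
      ring

theorem b16_harm (Y : ℕ) : ∑ m ∈ Icc 1 Y, 1 / (m : ℝ) ≤ 1 + Real.log (Y + 1) := by
  have h1 := harmonic_le_one_add_log Y
  have h2 : ((harmonic Y : ℚ) : ℝ) = ∑ m ∈ Icc 1 Y, 1 / (m : ℝ) := by
    rw [harmonic_eq_sum_Icc]
    push_cast
    exact sum_congr rfl fun m _ => (one_div _).symm
  rw [← h2]
  refine h1.trans ?_
  rcases Nat.eq_zero_or_pos Y with h | h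
  · subst h
    simp
  · have h3 : Real.log Y ≤ Real.log (Y + 1) := Real.log_le_log (by exact_mod_cast h) (by linarith)
    linarith

/-- **Main statement of the eta part.** Weight `1` or `log`. `A = ⌊X^τ⌋`, `D = ⌊X^θ⌋`. -/
theorem b16_eta_sum (k : ℕ) (hk : 2 ≤ k) (θ τ : ℝ) (hτ : 0 < τ) (hθτ : 2 ^ (k + 3) * τ ≤ θ) (hθ : θ ≤ 1) :
    ∃ c ε : ℝ, 0 < c ∧ 0 < ε ∧ ∃ X0 : ℕ, ∀ X : ℕ, X0 ≤ X → ∀ f : ℕ → ℤ → ℂ, (∀ j, j < k → Bdd X (f j)) →
    ∀ γ : ℕ → ℂ, (∀ m, ‖γ m‖ ≤ (X : ℝ) ^ ε) →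
    ∀ ω : ℕ → ℝ, ((∀ d, ω d = 1) ∨ (∀ d : ℕ, ω d = Real.log d)) →
    ‖∑ m ∈ Icc 1 (2 * k * X), ∑ d ∈ Icc 1 (2 * k * X),
      γ m * ((eta ⌊(X : ℝ) ^ τ⌋₊ ⌊(X : ℝ) ^ θ⌋₊ d * ω d : ℝ) : ℂ) * Psi X k f ((d : ℤ) * m)‖ ≤ (X : ℝ) ^ (2 - c) := by
  obtain ⟨c, hc, X1, hX1⟩ := b15_local k hk θ τ hτ hθτ hθ
  obtain ⟨X2, hX2, hX2'⟩ := b16_large k hk c hc
  refine ⟨c / 2, c / 8, by positivity, by positivity, max X1 X2, ?_⟩
  intro X hX f hf γ hγ ω hω
  have hXa : X1 ≤ X := (le_max_left _ _).trans hX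
  have hXb : X2 ≤ X := (le_max_right _ _).trans hX
  have hXc : (1 : ℝ) ≤ X := by exact_mod_cast hX2.trans hXb
  have hX0 : (0 : ℝ) < X := by linarith
  have hlarge := hX2' X hXb
  set Y : ℕ := 2 * k * X with hY
  set Lg : ℝ := 1 + Real.log ((Y : ℕ) + 1) with hLg
  have hlog : 0 ≤ Real.log ((Y : ℝ) + 1) := Real.log_nonneg (by
    have : (0 : ℝ) ≤ (Y : ℝ) := Nat.cast_nonneg _
    linarith)
  have hLg0 : 0 ≤ Lg := by rw [hLg]; linarith
  have hinner : ∀ m ∈ Icc 1 Y, ‖∑ d ∈ Icc 1 Y,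
      γ m * ((eta ⌊(X : ℝ) ^ τ⌋₊ ⌊(X : ℝ) ^ θ⌋₊ d * ω d : ℝ) : ℂ) * Psi X k f ((d : ℤ) * m)‖ ≤
      (X : ℝ) ^ (c / 8) * ((X : ℝ) ^ (2 - c) * Lg) * (1 / (m : ℝ)) := by
    intro m hm
    have hm1 : 1 ≤ m := (mem_Icc.1 hm).1
    have hm0 : (0 : ℝ) < m := by exact_mod_cast hm1
    have hE := fun i => hX1 X hXa f hf m i hm1
    have hE0 : 0 ≤ (X : ℝ) ^ (2 - c) / m := div_nonneg (Real.rpow_nonneg hX0.le _) hm0.le
    have key : ‖∑ d ∈ Icc 1 Y, ((eta ⌊(X : ℝ) ^ τ⌋₊ ⌊(X : ℝ) ^ θ⌋₊ d : ℝ) : ℂ) * Psi X k f ((d : ℤ) * m) * ((ω d : ℝ) : ℂ)‖ ≤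
        (X : ℝ) ^ (2 - c) / m * Lg := by
      rcases hω with h | h
      · have h1 : ∑ d ∈ Icc 1 Y, ((eta ⌊(X : ℝ) ^ τ⌋₊ ⌊(X : ℝ) ^ θ⌋₊ d : ℝ) : ℂ) * Psi X k f ((d : ℤ) * m) * ((ω d : ℝ) : ℂ) =
            ∑ d ∈ Ioc 0 Y, ((eta ⌊(X : ℝ) ^ τ⌋₊ ⌊(X : ℝ) ^ θ⌋₊ d : ℝ) : ℂ) * Psi X k f ((d : ℤ) * m) := by
          refine sum_congr ?_ fun d _ => ?_
          · ext d
            rw [mem_Icc, mem_Ioc]
            omega
          · rw [h d, Complex.ofReal_one, mul_one]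
        rw [h1]
        refine (hE 0).trans ?_
        rw [hLg]
        nlinarith
      · have h1 := b12_log Y (fun d => ((eta ⌊(X : ℝ) ^ τ⌋₊ ⌊(X : ℝ) ^ θ⌋₊ d : ℝ) : ℂ) * Psi X k f ((d : ℤ) * m))
          ((X : ℝ) ^ (2 - c) / m) hE
        have h2 : ∑ d ∈ Icc 1 Y, ((eta ⌊(X : ℝ) ^ τ⌋₊ ⌊(X : ℝ) ^ θ⌋₊ d : ℝ) : ℂ) * Psi X k f ((d : ℤ) * m) * ((ω d : ℝ) : ℂ) =
            ∑ d ∈ Icc 1 Y, ((eta ⌊(X : ℝ) ^ τ⌋₊ ⌊(X : ℝ) ^ θ⌋₊ d : ℝ) : ℂ) * Psi X k f ((d : ℤ) * m) * ((Real.log d : ℝ) : ℂ) :=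
          sum_congr rfl fun d _ => by rw [h d]
        rw [h2]
        refine h1.trans ?_
        rw [hLg]
        nlinarith
    have h3 : ∑ d ∈ Icc 1 Y, γ m * ((eta ⌊(X : ℝ) ^ τ⌋₊ ⌊(X : ℝ) ^ θ⌋₊ d * ω d : ℝ) : ℂ) * Psi X k f ((d : ℤ) * m) =
        γ m * ∑ d ∈ Icc 1 Y, ((eta ⌊(X : ℝ) ^ τ⌋₊ ⌊(X : ℝ) ^ θ⌋₊ d : ℝ) : ℂ) * Psi X k f ((d : ℤ) * m) * ((ω d : ℝ) : ℂ) := by
      rw [mul_sum]
      refine sum_congr rfl fun d _ => ?_
      rw [Complex.ofReal_mul]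
      ring
    rw [h3, norm_mul]
    calc ‖γ m‖ * ‖∑ d ∈ Icc 1 Y, ((eta ⌊(X : ℝ) ^ τ⌋₊ ⌊(X : ℝ) ^ θ⌋₊ d : ℝ) : ℂ) * Psi X k f ((d : ℤ) * m) * ((ω d : ℝ) : ℂ)‖
        ≤ (X : ℝ) ^ (c / 8) * ((X : ℝ) ^ (2 - c) / m * Lg) :=
          mul_le_mul (hγ m) key (norm_nonneg _) (Real.rpow_nonneg hX0.le _)
      _ = (X : ℝ) ^ (c / 8) * ((X : ℝ) ^ (2 - c) * Lg) * (1 / (m : ℝ)) := by ring
  calc ‖∑ m ∈ Icc 1 Y, ∑ d ∈ Icc 1 Y,
      γ m * ((eta ⌊(X : ℝ) ^ τ⌋₊ ⌊(X : ℝ) ^ θ⌋₊ d * ω d : ℝ) : ℂ) * Psi X k f ((d : ℤ) * m)‖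
      ≤ ∑ m ∈ Icc 1 Y, (X : ℝ) ^ (c / 8) * ((X : ℝ) ^ (2 - c) * Lg) * (1 / (m : ℝ)) :=
        (norm_sum_le _ _).trans (sum_le_sum hinner)
    _ = (X : ℝ) ^ (c / 8) * ((X : ℝ) ^ (2 - c) * Lg) * ∑ m ∈ Icc 1 Y, 1 / (m : ℝ) := by rw [mul_sum]
    _ ≤ (X : ℝ) ^ (c / 8) * ((X : ℝ) ^ (2 - c) * Lg) * Lg :=
        mul_le_mul_of_nonneg_left (b16_harm Y) (mul_nonneg (Real.rpow_nonneg hX0.le _)
          (mul_nonneg (Real.rpow_nonneg hX0.le _) hLg0))
    _ = (X : ℝ) ^ (c / 8) * (X : ℝ) ^ (2 - c) * Lg ^ 2 := by ring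
    _ ≤ (X : ℝ) ^ (c / 8) * (X : ℝ) ^ (2 - c) * (X : ℝ) ^ (c / 8) :=
        mul_le_mul_of_nonneg_left hlarge (mul_nonneg (Real.rpow_nonneg hX0.le _) (Real.rpow_nonneg hX0.le _))
    _ = (X : ℝ) ^ (c / 8 + (2 - c) + c / 8) := by rw [Real.rpow_add hX0, Real.rpow_add hX0]
    _ ≤ (X : ℝ) ^ (2 - c / 2) := Real.rpow_le_rpow_of_exponent_le hXc (by linarith)

end Pool.Agent.HUK
end

-- from Lib.HUK.B02
section

/-!
# HUK B02 (M, only Mathlib): the decomposition `1 = s + u * v + η`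

PROOF. For `d ≥ 1` the pairs `(p, e)` with `p e = d`, `p ∈ PA A` are the `p ∈ PA A` with `p ∣ d`, `e = d / p`, and then
`D < e A ↔ p D < d A` (multiply by `p > 0`). So
`∑_{(p,e)} uu p * vv e = (1/S) ∑_{p ∈ PA, p ∣ d} 1_{pD < dA}` (`Nat.sum_divisorsAntidiagonal`, or `Finset.sum_bij`), and
`sml + this + eta = 1 - (1/S) ∑_p 1_{pD<dA}/p + (1/S) ∑_p 1_{pD<dA} 1_{p∣d} - (1/S) ∑_p 1_{pD<dA} (1_{p∣d} - 1/p) = 1`.
`b02_log`: multiply by `log d` and use `log d = log p + log e` for `p e = d` (all non-zero).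
-/

open Finset

namespace Pool.Agent.HUK

/-- The divisor sum of a function of the first factor times `v` of the second. -/
theorem b02_sum (A D d : ℕ) (hd : 1 ≤ d) (f : ℕ → ℕ → ℝ) :
    ∑ x ∈ d.divisorsAntidiagonal, uu A x.1 * vv A D x.2 * f x.1 x.2 =
      (1 / SA A) * ∑ p ∈ PA A, if p * D < d * A then (if p ∣ d then f p (d / p) else 0) else 0 := by
  have h1 : ∀ x ∈ d.divisorsAntidiagonal, uu A x.1 * vv A D x.2 * f x.1 x.2 =
      if x.1 ∈ PA A then (1 / SA A) * (if x.1 * D < d * A then f x.1 x.2 else 0) else 0 := by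
    intro x hx
    obtain ⟨hx1, hx2⟩ := Nat.mem_divisorsAntidiagonal.1 hx
    have hp : 0 < x.1 := Nat.pos_of_ne_zero (by rintro h; rw [h, zero_mul] at hx1; omega)
    have hiff : D < x.2 * A ↔ x.1 * D < d * A := by
      rw [← hx1, mul_assoc]
      exact (Nat.mul_lt_mul_left hp).symm
    by_cases h : x.1 ∈ PA A
    · by_cases h' : D < x.2 * A
      · rw [uu, vv, if_pos h, if_pos h', if_pos h, if_pos (hiff.1 h'), mul_one]
      · rw [uu, vv, if_pos h, if_neg h', if_pos h, if_neg (fun h2 => h' (hiff.2 h2))]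
        ring
    · rw [uu, if_neg h, if_neg h, zero_mul, zero_mul]
  rw [Finset.sum_congr rfl h1]
  have h2 := Nat.sum_divisorsAntidiagonal (f := fun p e => if p ∈ PA A then (1 / SA A) * (if p * D < d * A then f p e else 0) else 0) (n := d)
  rw [h2, Finset.mul_sum, ← Finset.sum_filter]
  have h3 : (∑ p ∈ PA A, (1 / SA A) * (if p * D < d * A then (if p ∣ d then f p (d / p) else 0) else 0)) =
      ∑ p ∈ (PA A).filter (fun p => p ∣ d), (1 / SA A) * (if p * D < d * A then f p (d / p) else 0) := by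
    rw [Finset.sum_filter]
    refine Finset.sum_congr rfl fun p _ => ?_
    by_cases h : p ∣ d
    · simp [h]
    · simp [h]
  rw [h3]
  refine Finset.sum_congr ?_ fun _ _ => rfl
  ext p
  simp only [Finset.mem_filter, Nat.mem_divisors]
  constructor
  · rintro ⟨⟨h, _⟩, h'⟩
    exact ⟨h', h⟩
  · rintro ⟨h, h'⟩
    exact ⟨⟨h', by omega⟩, h⟩

/-- `1 = s + u * v + η`. -/
theorem b02_one (A D d : ℕ) (hS : 0 < SA A) (hd : 1 ≤ d) :
    (1 : ℝ) = sml A D d + ∑ x ∈ d.divisorsAntidiagonal, uu A x.1 * vv A D x.2 + eta A D d := by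
  have h1 : ∑ x ∈ d.divisorsAntidiagonal, uu A x.1 * vv A D x.2 =
      (1 / SA A) * ∑ p ∈ PA A, if p * D < d * A then (if p ∣ d then (1 : ℝ) else 0) else 0 := by
    have h := b02_sum A D d hd (fun _ _ => 1)
    simp only [mul_one] at h
    exact h
  have h2 : ∑ p ∈ PA A, eprime A D p d =
      (∑ p ∈ PA A, if p * D < d * A then (if p ∣ d then (1 : ℝ) else 0) else 0) -
        ∑ p ∈ PA A, if p * D < d * A then 1 / (p : ℝ) else 0 := by
    rw [← Finset.sum_sub_distrib]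
    refine Finset.sum_congr rfl fun p _ => ?_
    rw [eprime]
    by_cases h : p * D < d * A
    · rw [if_pos h, if_pos h, if_pos h]
    · rw [if_neg h, if_neg h, if_neg h, sub_zero]
  rw [h1, sml, ell, eta, h2]
  ring

/-- `log = s log + (u log) * v + u * (v log) + η log`. -/
theorem b02_log (A D d : ℕ) (hS : 0 < SA A) (hd : 1 ≤ d) :
    Real.log d = sml A D d * Real.log d
      + ∑ x ∈ d.divisorsAntidiagonal, uu A x.1 * Real.log x.1 * vv A D x.2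
      + ∑ x ∈ d.divisorsAntidiagonal, uu A x.1 * (vv A D x.2 * Real.log x.2) + eta A D d * Real.log d := by
  have h1 := b02_one A D d hS hd
  have h2 : (∑ x ∈ d.divisorsAntidiagonal, uu A x.1 * Real.log x.1 * vv A D x.2) +
      ∑ x ∈ d.divisorsAntidiagonal, uu A x.1 * (vv A D x.2 * Real.log x.2) =
      (∑ x ∈ d.divisorsAntidiagonal, uu A x.1 * vv A D x.2) * Real.log d := by
    rw [← Finset.sum_add_distrib, Finset.sum_mul]
    refine Finset.sum_congr rfl fun x hx => ?_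
    obtain ⟨hx1, hx2⟩ := Nat.mem_divisorsAntidiagonal.1 hx
    have ha : (x.1 : ℝ) ≠ 0 := by
      rintro h
      rw [Nat.cast_eq_zero] at h
      rw [h, zero_mul] at hx1
      omega
    have hb : (x.2 : ℝ) ≠ 0 := by
      rintro h
      rw [Nat.cast_eq_zero] at h
      rw [h, mul_zero] at hx1
      omega
    have h3 : Real.log d = Real.log x.1 + Real.log x.2 := by
      rw [← hx1, Nat.cast_mul, Real.log_mul ha hb]
    rw [h3]
    ring
  have h4 : Real.log d = (sml A D d + ∑ x ∈ d.divisorsAntidiagonal, uu A x.1 * vv A D x.2 + eta A D d) * Real.log d := by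
    rw [← h1, one_mul]
  calc Real.log d = (sml A D d + ∑ x ∈ d.divisorsAntidiagonal, uu A x.1 * vv A D x.2 + eta A D d) * Real.log d := h4
    _ = sml A D d * Real.log d + (∑ x ∈ d.divisorsAntidiagonal, uu A x.1 * vv A D x.2) * Real.log d
        + eta A D d * Real.log d := by ring
    _ = _ := by rw [← h2]; ring

end Pool.Agent.HUK
end

-- from Lib.HUK.BFin
section

/-!
# Project HUK, module B: the interface of the eta part (helper5) used by the Heath-Brown part (helper68)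
-/

open Finset

namespace Pool.Agent.HUK

noncomputable section

/-- For large `A` the sum of the reciprocals of the primes in `(A, 4A]` is at least `1/(8 log 4A)`. -/
theorem sa_ge : ∃ A0 : ℕ, 2 ≤ A0 ∧ ∀ A : ℕ, A0 ≤ A → 1 / (8 * Real.log (4 * A)) ≤ SA A := b01_sa

/-- `1 = s + u * v + η`. -/
theorem b_one (A D d : ℕ) (hS : 0 < SA A) (hd : 1 ≤ d) :
    (1 : ℝ) = sml A D d + ∑ x ∈ d.divisorsAntidiagonal, uu A x.1 * vv A D x.2 + eta A D d := b02_one A D d hS hd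

/-- `log = s log + (u log) * v + u * (v log) + η log`. -/
theorem b_log (A D d : ℕ) (hS : 0 < SA A) (hd : 1 ≤ d) :
    Real.log d = sml A D d * Real.log d
      + ∑ x ∈ d.divisorsAntidiagonal, uu A x.1 * Real.log x.1 * vv A D x.2
      + ∑ x ∈ d.divisorsAntidiagonal, uu A x.1 * (vv A D x.2 * Real.log x.2) + eta A D d * Real.log d :=
  b02_log A D d hS hd

theorem sml_zero (A D d : ℕ) (hS : 0 < SA A) (hd : 4 * D < d) : sml A D d = 0 := b03_sml_zero A D d hS hd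

theorem sml_mem (A D d : ℕ) (hS : 0 < SA A) : 0 ≤ sml A D d ∧ sml A D d ≤ 1 := b03_sml_mem A D d hS

theorem uu_supp (A p : ℕ) (h : uu A p ≠ 0) : A < p ∧ p ≤ 4 * A := b03_uu_supp A p h

theorem uu_mem (A p : ℕ) : 0 ≤ uu A p ∧ uu A p ≤ 1 / SA A := b03_uu_mem A p

theorem vv_mem (A D e : ℕ) : 0 ≤ vv A D e ∧ vv A D e ≤ 1 := b03_vv_mem A D e



/-- **Main statement of the eta part.** Weight `1` or `log`. `A = ⌊X^τ⌋`, `D = ⌊X^θ⌋`. -/
theorem eta_sum (k : ℕ) (hk : 2 ≤ k) (θ τ : ℝ) (hτ : 0 < τ) (hθτ : 2 ^ (k + 3) * τ ≤ θ) (hθ : θ ≤ 1) :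
    ∃ c ε : ℝ, 0 < c ∧ 0 < ε ∧ ∃ X0 : ℕ, ∀ X : ℕ, X0 ≤ X → ∀ f : ℕ → ℤ → ℂ, (∀ j, j < k → Bdd X (f j)) →
    ∀ γ : ℕ → ℂ, (∀ m, ‖γ m‖ ≤ (X : ℝ) ^ ε) →
    ∀ ω : ℕ → ℝ, ((∀ d, ω d = 1) ∨ (∀ d : ℕ, ω d = Real.log d)) →
    ‖∑ m ∈ Icc 1 (2 * k * X), ∑ d ∈ Icc 1 (2 * k * X),
      γ m * ((eta ⌊(X : ℝ) ^ τ⌋₊ ⌊(X : ℝ) ^ θ⌋₊ d * ω d : ℝ) : ℂ) * Psi X k f ((d : ℤ) * m)‖ ≤ (X : ℝ) ^ (2 - c) :=
  b16_eta_sum k hk θ τ hτ hθτ hθ

end

end Pool.Agent.HUK
end
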