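import Pool.Agent.Lib.H59M.M2.M001
import Pool.Agent.Lib.H59M.M2.M003
import Pool.Agent.Lib.H59M.M2.M005
import Pool.Agent.Lib.H59M.M2.M011
import Pool.Agent.Lib.H59M.M2.M020
import Pool.Agent.Lib.H59M.M2.M021
import Pool.Agent.Lib.H59M.M2.M024
import Pool.Agent.Lib.H59M.M2.M030
import Pool.Agent.Lib.H59M.M2.M035

/-! Merged copies (to shorten the build) of Lib.H81W.S5, Lib.H81W.S6, Lib.H3B.S34, Lib.HUK.KA9, Lib.HUK.KA10, Lib.HUK.KA0, Lib.HUK.KA6, Lib.HUK.KA7, Lib.HUK.KA8, Lib.HUK.KA11, Lib.HUK.KA13, Lib.H44W.M3, Lib.H44W.W2, Lib.H44W.M4. -/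

-- from Lib.H81W.S5
section

/-!
# H81W, steps 3 and 4 together
-/

open Finset

namespace Pool.Agent.Lib.H81W

open Pool.Agent.H44W (ee TF cut)
open Pool.Agent.H81E (norm_ee ee_add ee_neg parseval)

/-- The `a` with `a` and `a + j` in `[K, 2K)`. -/
noncomputable def Aj (K : ℕ) (j : ℤ) : Finset ℤ := (Ico (K : ℤ) (2 * K)).filter (fun a => a + j ∈ Ico (K : ℤ) (2 * K))

theorem mem_Aj {K : ℕ} {j a : ℤ} : a ∈ Aj K j ↔ (K : ℤ) ≤ a ∧ a < 2 * K ∧ (K : ℤ) ≤ a + j ∧ a + j < 2 * K := by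
  unfold Aj
  rw [mem_filter, mem_Ico, mem_Ico]
  tauto

theorem card_Aj (K : ℕ) (j : ℤ) : (Aj K j).card ≤ K := by
  refine (card_filter_le _ _).trans ?_
  rw [Int.card_Ico]
  omega

theorem En_zero (n m : ℕ) (g : ℤ → ℂ) (hs : ∀ y, y ∉ Icc (1 : ℤ) n → g y = 0) (e : ℤ) (he : e ∉ Ioo (-(n : ℤ)) n) : En n m (Gd g e) = 0 := by
  unfold En Sr
  refine sum_eq_zero fun r _ => ?_
  rw [sum_eq_zero, norm_zero, sq, mul_zero]
  intro y hy
  rw [mem_filter, mem_Icc] at hy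
  rw [mem_Ioo] at he
  unfold Gd
  rw [hs (y + e) (by rw [mem_Icc]; omega), map_zero, mul_zero]

/-- The fibre bound: for fixed `j` and `e ≠ 0` there are at most `2 D ^ 2` triples `(k, a, b)` with `k (b - a) (b + a + j) = e`. -/
theorem fibre (K : ℕ) (j e : ℤ) (he : e ≠ 0) (D : ℝ) (hD : (e.natAbs.divisors.card : ℝ) ≤ D) (S : Finset (ℤ × ℤ × ℤ))
    (hS : ∀ t ∈ S, t.2.1 ∈ Aj K j ∧ t.2.2 ∈ Aj K j ∧ t.1 * (t.2.2 - t.2.1) * (t.2.2 + t.2.1 + j) = e) : (S.card : ℝ) ≤ 2 * D ^ 2 := by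
  have h1 : S.card ≤ ((e.natAbs.divisors ×ˢ e.natAbs.divisors) ×ˢ (univ : Finset Bool)).card := by
    refine card_le_card_of_injOn (fun t => (((t.2.2 - t.2.1).natAbs, (t.2.2 + t.2.1 + j).natAbs), decide (t.2.1 < t.2.2))) ?_ ?_
    · intro t ht
      rw [mem_coe] at ht
      obtain ⟨h1, h2, h3⟩ := hS t ht
      rw [mem_coe, mem_product, mem_product, Nat.mem_divisors, Nat.mem_divisors]
      refine ⟨⟨⟨?_, by omega⟩, ⟨?_, by omega⟩⟩, mem_univ _⟩
      · exact Int.natAbs_dvd_natAbs.2 ⟨t.1 * (t.2.2 + t.2.1 + j), by rw [← h3]; ring⟩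
      · exact Int.natAbs_dvd_natAbs.2 ⟨t.1 * (t.2.2 - t.2.1), by rw [← h3]; ring⟩
    · intro t ht t' ht' h
      rw [mem_coe] at ht ht'
      obtain ⟨h1, h2, h3⟩ := hS t ht
      obtain ⟨h1', h2', h3'⟩ := hS t' ht'
      rw [mem_Aj] at h1 h2 h1' h2'
      simp only [Prod.mk.injEq, decide_eq_decide] at h
      obtain ⟨⟨h4, h5⟩, h6⟩ := h
      have h7 : t.2.2 + t.2.1 + j = t'.2.2 + t'.2.1 + j := by omega
      have h8 : t.2.2 - t.2.1 = t'.2.2 - t'.2.1 := by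
        by_cases h9 : t.2.1 < t.2.2
        · have h10 := h6.1 h9
          omega
        · have h10 : ¬ t'.2.1 < t'.2.2 := fun h => h9 (h6.2 h)
          omega
      have h9 : t.1 = t'.1 := by
        have h10 : (t.2.2 - t.2.1) * (t.2.2 + t.2.1 + j) ≠ 0 := by
          intro h0
          apply he
          rw [← h3, mul_assoc, h0, mul_zero]
        apply mul_right_cancel₀ h10
        rw [← mul_assoc, h3, h7, h8, ← mul_assoc, h3']
      refine Prod.ext h9 (Prod.ext ?_ ?_)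
      · omega
      · omega
  have h2 : ((((e.natAbs.divisors ×ˢ e.natAbs.divisors) ×ˢ (univ : Finset Bool)).card : ℕ) : ℝ) = (e.natAbs.divisors.card : ℝ) ^ 2 * 2 := by
    rw [card_product, card_product]
    simp [sq]
  calc (S.card : ℝ) ≤ ((((e.natAbs.divisors ×ˢ e.natAbs.divisors) ×ˢ (univ : Finset Bool)).card : ℕ) : ℝ) := by exact_mod_cast h1
    _ = (e.natAbs.divisors.card : ℝ) ^ 2 * 2 := h2
    _ ≤ D ^ 2 * 2 := by gcongr
    _ = 2 * D ^ 2 := by ring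

/-- The off-diagonal sum over `P`. -/
theorem offdiag (n K : ℕ) (D : ℝ) (hD : ∀ m : ℕ, 1 ≤ m → m ≤ 2 * n → (m.divisors.card : ℝ) ≤ D) (g : ℤ → ℂ)
    (hs : ∀ y, y ∉ Icc (1 : ℤ) n → g y = 0) (P : Finset (ℤ × ℤ)) (hP : ∀ p ∈ P, 0 < |p.1| ∧ |p.1| < K ∧ p.2 ≠ 0) :
    ∑ p ∈ P, ∑ x ∈ (Aj K p.1 ×ˢ Aj K p.1).filter (fun x => x.1 ≠ x.2), En n p.1.natAbs (Gd g (p.2 * (x.2 - x.1) * (x.2 + x.1 + p.1))) ≤
      4 * D ^ 2 * ∑ m ∈ Ico 1 K, ∑ e ∈ Ioo (-(n : ℤ)) n, En n m (Gd g e) := by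
  classical
  rcases Nat.eq_zero_or_pos n with rfl | hn
  · have h0 : ∀ (m : ℕ) (u : ℤ → ℂ), En 0 m u = 0 := by
      intro m u
      unfold En Sr
      simp
    simp [h0]
  have hD0 : 0 ≤ D := (Nat.cast_nonneg _).trans (hD 1 le_rfl (by omega))
  -- all tuples
  set T : Finset ((ℤ × ℤ) × (ℤ × ℤ)) := (P ×ˢ ((Ico (K : ℤ) (2 * K)) ×ˢ (Ico (K : ℤ) (2 * K)))).filter
    (fun t => t.2.1 ∈ Aj K t.1.1 ∧ t.2.2 ∈ Aj K t.1.1 ∧ t.2.1 ≠ t.2.2) with hT
  have h1 : ∑ p ∈ P, ∑ x ∈ (Aj K p.1 ×ˢ Aj K p.1).filter (fun x => x.1 ≠ x.2), En n p.1.natAbs (Gd g (p.2 * (x.2 - x.1) * (x.2 + x.1 + p.1))) =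
      ∑ t ∈ T, En n t.1.1.natAbs (Gd g (t.1.2 * (t.2.2 - t.2.1) * (t.2.2 + t.2.1 + t.1.1))) := by
    rw [hT, sum_filter, sum_product]
    refine sum_congr rfl fun p _ => ?_
    rw [← sum_filter]
    refine sum_congr ?_ fun x _ => rfl
    ext x
    simp only [mem_filter, mem_product]
    constructor
    · rintro ⟨⟨h2, h3⟩, h4⟩
      refine ⟨⟨?_, ?_⟩, h2, h3, h4⟩
      · rw [mem_Aj] at h2
        rw [mem_Ico]
        omega
      · rw [mem_Aj] at h3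
        rw [mem_Ico]
        omega
    · rintro ⟨_, h2, h3, h4⟩
      exact ⟨⟨h2, h3⟩, h4⟩
  rw [h1]
  -- restrict to `|e| < n`
  set T' : Finset ((ℤ × ℤ) × (ℤ × ℤ)) := T.filter (fun t => t.1.2 * (t.2.2 - t.2.1) * (t.2.2 + t.2.1 + t.1.1) ∈ Ioo (-(n : ℤ)) n) with hT'
  have h2 : ∑ t ∈ T, En n t.1.1.natAbs (Gd g (t.1.2 * (t.2.2 - t.2.1) * (t.2.2 + t.2.1 + t.1.1))) =
      ∑ t ∈ T', En n t.1.1.natAbs (Gd g (t.1.2 * (t.2.2 - t.2.1) * (t.2.2 + t.2.1 + t.1.1))) := by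
    symm
    refine sum_subset (filter_subset _ _) fun t ht ht' => ?_
    rw [hT', mem_filter] at ht'
    exact En_zero n _ g hs _ fun h => ht' ⟨ht, h⟩
  rw [h2]
  set J : Finset ℤ := (Ioo (-(K : ℤ)) K).filter (fun j => j ≠ 0) with hJ
  set E : Finset ℤ := (Ioo (-(n : ℤ)) n).filter (fun e => e ≠ 0) with hE
  have hne : ∀ t ∈ T, t.1.2 * (t.2.2 - t.2.1) * (t.2.2 + t.2.1 + t.1.1) ≠ 0 := by
    intro t ht
    rw [hT, mem_filter, mem_product] at ht
    obtain ⟨⟨h3, _⟩, h4, h5, h6⟩ := ht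
    rw [mem_Aj] at h4 h5
    have h7 := hP _ h3
    refine mul_ne_zero (mul_ne_zero h7.2.2 (by omega)) (by omega)
  have hmaps : ∀ t ∈ T', (t.1.1, t.1.2 * (t.2.2 - t.2.1) * (t.2.2 + t.2.1 + t.1.1)) ∈ J ×ˢ E := by
    intro t ht
    rw [hT', mem_filter] at ht
    have h3 := hne t ht.1
    have h4 := ht.1
    rw [hT, mem_filter, mem_product] at h4
    have h5 := hP _ h4.1.1
    rw [mem_product, hJ, hE, mem_filter, mem_filter]
    refine ⟨⟨?_, ?_⟩, ht.2, h3⟩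
    · rw [mem_Ioo]
      have := abs_lt.1 h5.2.1
      exact this
    · exact abs_pos.1 h5.1
  rw [← sum_fiberwise_of_maps_to hmaps]
  have h3 : ∀ x ∈ J ×ˢ E, ∑ t ∈ T'.filter (fun t => (t.1.1, t.1.2 * (t.2.2 - t.2.1) * (t.2.2 + t.2.1 + t.1.1)) = x),
      En n t.1.1.natAbs (Gd g (t.1.2 * (t.2.2 - t.2.1) * (t.2.2 + t.2.1 + t.1.1))) ≤ 2 * D ^ 2 * En n x.1.natAbs (Gd g x.2) := by
    intro x hx
    rw [mem_product, hJ, hE, mem_filter, mem_filter, mem_Ioo, mem_Ioo] at hx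
    have h4 : ∀ t ∈ T'.filter (fun t => (t.1.1, t.1.2 * (t.2.2 - t.2.1) * (t.2.2 + t.2.1 + t.1.1)) = x),
        En n t.1.1.natAbs (Gd g (t.1.2 * (t.2.2 - t.2.1) * (t.2.2 + t.2.1 + t.1.1))) = En n x.1.natAbs (Gd g x.2) := by
      intro t ht
      rw [mem_filter] at ht
      rw [← ht.2]
    rw [sum_congr rfl h4, sum_const, nsmul_eq_mul]
    refine mul_le_mul_of_nonneg_right ?_ (En_nonneg _ _ _)
    set S' : Finset (ℤ × ℤ × ℤ) := (T'.filter (fun t => (t.1.1, t.1.2 * (t.2.2 - t.2.1) * (t.2.2 + t.2.1 + t.1.1)) = x)).image (fun t => (t.1.2, t.2.1, t.2.2)) with hS'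
    have h5 : (T'.filter (fun t => (t.1.1, t.1.2 * (t.2.2 - t.2.1) * (t.2.2 + t.2.1 + t.1.1)) = x)).card = S'.card := by
      rw [hS', card_image_of_injOn]
      intro t ht t' ht' h
      rw [mem_coe, mem_filter] at ht ht'
      have h6 := congrArg Prod.fst (ht.2.trans ht'.2.symm)
      simp only [Prod.mk.injEq] at h h6
      exact Prod.ext (Prod.ext h6 h.1) (Prod.ext h.2.1 h.2.2)
    rw [h5]
    refine fibre K x.1 x.2 hx.2.2 D (hD _ (by omega) (by omega)) S' ?_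
    intro s hs'
    rw [hS', mem_image] at hs'
    obtain ⟨t, ht, rfl⟩ := hs'
    rw [mem_filter] at ht
    have h6 := ht.1
    rw [hT', mem_filter, hT, mem_filter] at h6
    have h7 : t.1.1 = x.1 := (Prod.ext_iff.1 ht.2).1
    have h8 : t.1.2 * (t.2.2 - t.2.1) * (t.2.2 + t.2.1 + t.1.1) = x.2 := (Prod.ext_iff.1 ht.2).2
    refine ⟨?_, ?_, ?_⟩
    · rw [← h7]; exact h6.1.2.1
    · rw [← h7]; exact h6.1.2.2.1
    · rw [← h8, ← h7]
  refine (sum_le_sum h3).trans ?_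
  rw [← mul_sum, sum_product]
  have h4 : ∑ j ∈ J, ∑ e ∈ E, En n j.natAbs (Gd g e) ≤ 2 * ∑ m ∈ Ico 1 K, ∑ e ∈ Ioo (-(n : ℤ)) n, En n m (Gd g e) := by
    have h5 : ∀ j ∈ J, ∑ e ∈ E, En n j.natAbs (Gd g e) ≤ ∑ e ∈ Ioo (-(n : ℤ)) n, En n j.natAbs (Gd g e) := fun j _ =>
      sum_le_sum_of_subset_of_nonneg (filter_subset _ _) fun _ _ _ => En_nonneg _ _ _
    refine (sum_le_sum h5).trans ?_
    have hmaps2 : ∀ j ∈ J, j.natAbs ∈ Ico 1 K := by
      intro j hj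
      rw [hJ, mem_filter, mem_Ioo] at hj
      rw [mem_Ico]
      omega
    rw [← sum_fiberwise_of_maps_to hmaps2, mul_sum]
    refine sum_le_sum fun m hm => ?_
    have h6 : ∀ j ∈ J.filter (fun j => j.natAbs = m), ∑ e ∈ Ioo (-(n : ℤ)) n, En n j.natAbs (Gd g e) = ∑ e ∈ Ioo (-(n : ℤ)) n, En n m (Gd g e) := by
      intro j hj
      rw [mem_filter] at hj
      rw [hj.2]
    rw [sum_congr rfl h6, sum_const, nsmul_eq_mul]
    refine mul_le_mul_of_nonneg_right ?_ (sum_nonneg fun _ _ => En_nonneg _ _ _)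
    have h7 : J.filter (fun j => j.natAbs = m) ⊆ {(m : ℤ), -(m : ℤ)} := by
      intro j hj
      rw [mem_filter] at hj
      rw [mem_insert, mem_singleton]
      omega
    have h8 := (card_le_card h7).trans card_le_two
    exact_mod_cast h8
  calc 2 * D ^ 2 * ∑ j ∈ J, ∑ e ∈ E, En n j.natAbs (Gd g e) ≤ 2 * D ^ 2 * (2 * ∑ m ∈ Ico 1 K, ∑ e ∈ Ioo (-(n : ℤ)) n, En n m (Gd g e)) :=
        mul_le_mul_of_nonneg_left h4 (by positivity)
    _ = _ := by ring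

end Pool.Agent.Lib.H81W
end

-- from Lib.H81W.S6
section

/-!
# H81W, steps 3 and 4 together: the constants
-/

open Finset

namespace Pool.Agent.Lib.H81W

open Pool.Agent.H44W (ee TF cut)
open Pool.Agent.H81E (norm_ee ee_add ee_neg parseval)

/-- Real arithmetic 1. -/
theorem r1 (n K m A F D : ℝ) (c : ℕ) (hn : 0 < n) (hK : 0 < K) (hD : 0 < D) (hA0 : 0 ≤ A) (hA : A ≤ K) (hF : 0 ≤ F) (h1 : K / D ^ c ≤ m)
    (h3 : (n ^ 2 / D ^ c) ^ 4 * m ^ 3 ≤ 16 * n ^ 6 * A ^ 2 * F) : n ^ 2 * K / (16 * D ^ (7 * c)) ≤ F := by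
  have hd : 0 < D ^ c := by positivity
  rw [show D ^ (7 * c) = (D ^ c) ^ 7 by rw [← pow_mul, mul_comm]]
  generalize D ^ c = d at *
  have h0 : 0 < K / d := by positivity
  have h5 : (n ^ 2 / d) ^ 4 * (K / d) ^ 3 ≤ 16 * n ^ 6 * K ^ 2 * F := by
    have h6 : (K / d) ^ 3 ≤ m ^ 3 := pow_le_pow_left₀ h0.le h1 3
    have h7 : A ^ 2 ≤ K ^ 2 := pow_le_pow_left₀ hA0 hA 2
    have h8 : (n ^ 2 / d) ^ 4 * (K / d) ^ 3 ≤ (n ^ 2 / d) ^ 4 * m ^ 3 := mul_le_mul_of_nonneg_left h6 (by positivity)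
    have h9 : 16 * n ^ 6 * A ^ 2 * F ≤ 16 * n ^ 6 * K ^ 2 * F :=
      mul_le_mul_of_nonneg_right (mul_le_mul_of_nonneg_left h7 (by positivity)) hF
    exact h8.trans (h3.trans h9)
  have h6 : (n ^ 2 / d) ^ 4 * (K / d) ^ 3 = (16 * n ^ 6 * K ^ 2) * (n ^ 2 * K / (16 * d ^ 7)) := by
    field_simp
  rw [h6] at h5
  exact le_of_mul_le_mul_left h5 (by positivity)

/-- Real arithmetic 2. -/
theorem r2 (n K D : ℝ) (c : ℕ) (hn : 0 < n) (h2 : 2 ≤ D) (hK : D ^ (8 * c + 11) ≤ K) : 4 * n ^ 2 * D ^ c ≤ n ^ 2 * K / (32 * D ^ (7 * c)) := by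
  have hD0 : 0 < D := by linarith
  rw [le_div_iff₀ (by positivity)]
  have h8 : 128 * D ^ (8 * c) ≤ K := by
    calc 128 * D ^ (8 * c) ≤ D ^ 11 * D ^ (8 * c) := by
          refine mul_le_mul_of_nonneg_right ?_ (by positivity)
          calc (128 : ℝ) ≤ 2 ^ 11 := by norm_num
            _ ≤ D ^ 11 := pow_le_pow_left₀ (by norm_num) h2 11
      _ = D ^ (8 * c + 11) := by rw [pow_add]; ring
      _ ≤ K := hK
  calc 4 * n ^ 2 * D ^ c * (32 * D ^ (7 * c)) = n ^ 2 * (128 * D ^ (8 * c)) := by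
        rw [show 8 * c = c + 7 * c by ring, pow_add]
        ring
    _ ≤ n ^ 2 * K := mul_le_mul_of_nonneg_left h8 (by positivity)

/-- The off-diagonal part for one pair. -/
theorem one_pair (n K c : ℕ) (D : ℝ) (hn : 1 ≤ n) (hK1 : 1 ≤ K) (h2 : 2 ≤ D) (hK : D ^ (8 * c + 11) ≤ K) (hKn : K ≤ n)
    (g : ℤ → ℂ) (hg : ∀ x, ‖g x‖ ≤ 1) (hs : ∀ y, y ∉ Icc (1 : ℤ) n → g y = 0) (j k : ℤ) (m : ℕ) (hm : (m : ℤ) = |j|) (h1 : (K : ℝ) / D ^ c ≤ |(j : ℝ)|) (hp : |j| < K)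
    (th : ℝ) (hth : (n : ℝ) ^ 2 / D ^ c ≤ ∑ a ∈ Aj K j, En n m (fun y => Gd g (a * (a + j) * k) y * ee (th * y))) :
    (n : ℝ) ^ 2 * K / (32 * D ^ (7 * c)) ≤
      ∑ x ∈ (Aj K j ×ˢ Aj K j).filter (fun x => x.1 ≠ x.2), En n m (Gd g (k * (x.2 - x.1) * (x.2 + x.1 + j))) := by
  classical
  have hD0 : (0 : ℝ) < D := by linarith
  have hnr : (0 : ℝ) < n := by exact_mod_cast (by omega : 0 < n)
  have hKr : (0 : ℝ) < K := by exact_mod_cast (by omega : 0 < K)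
  have hmabs : (m : ℝ) = |(j : ℝ)| := by
    rw [← Int.cast_abs, ← hm, Int.cast_natCast]
  rw [← hmabs] at h1
  have hm0 : (0 : ℝ) < m := lt_of_lt_of_le (by positivity) h1
  have hm1 : 0 < m := by exact_mod_cast hm0
  have hmK : m < K := by
    rw [← hm] at hp
    exact_mod_cast hp
  have h3 := step3 n m hm1 (by omega) g hg hs (Aj K j) (fun a => a * (a + j) * k) th ((n : ℝ) ^ 2 / D ^ c) (by positivity) hth
  have hcard : ((Aj K j).card : ℝ) ≤ K := by exact_mod_cast card_Aj K j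
  have hF0 : 0 ≤ ∑ a ∈ Aj K j, ∑ b ∈ Aj K j, En n m (Gd g (b * (b + j) * k - a * (a + j) * k)) :=
    sum_nonneg fun _ _ => sum_nonneg fun _ _ => En_nonneg _ _ _
  have h4 := r1 n K m _ _ D c hnr hKr hD0 (Nat.cast_nonneg _) hcard hF0 h1 h3
  have h5 : ∑ a ∈ Aj K j, ∑ b ∈ Aj K j, En n m (Gd g (b * (b + j) * k - a * (a + j) * k)) =
      ∑ x ∈ (Aj K j ×ˢ Aj K j).filter (fun x => x.1 ≠ x.2), En n m (Gd g (k * (x.2 - x.1) * (x.2 + x.1 + j))) +
      ∑ x ∈ (Aj K j ×ˢ Aj K j).filter (fun x => ¬ x.1 ≠ x.2), En n m (Gd g (k * (x.2 - x.1) * (x.2 + x.1 + j))) := by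
    rw [sum_filter_add_sum_filter_not, sum_product]
    refine sum_congr rfl fun a _ => sum_congr rfl fun b _ => ?_
    rw [show b * (b + j) * k - a * (a + j) * k = k * (b - a) * (b + a + j) by ring]
  have h6 : ∑ x ∈ (Aj K j ×ˢ Aj K j).filter (fun x => ¬ x.1 ≠ x.2), En n m (Gd g (k * (x.2 - x.1) * (x.2 + x.1 + j))) ≤ 4 * n ^ 2 * D ^ c := by
    have h7 : ∀ x ∈ (Aj K j ×ˢ Aj K j).filter (fun x => ¬ x.1 ≠ x.2), En n m (Gd g (k * (x.2 - x.1) * (x.2 + x.1 + j))) ≤ 4 * n ^ 2 * D ^ c / K := by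
      intro x _
      refine (En_le n m hm1 (by omega) _ (norm_Gd_le hg _)).trans ?_
      rw [div_le_div_iff₀ hm0 hKr]
      have h8 : (K : ℝ) ≤ m * D ^ c := by
        rwa [div_le_iff₀ (by positivity)] at h1
      calc 4 * (n : ℝ) ^ 2 * K ≤ 4 * (n : ℝ) ^ 2 * (m * D ^ c) := mul_le_mul_of_nonneg_left h8 (by positivity)
        _ = _ := by ring
    refine (sum_le_card_nsmul _ _ _ h7).trans ?_
    have h8 : ((Aj K j ×ˢ Aj K j).filter (fun x => ¬ x.1 ≠ x.2)).card ≤ K := by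
      refine le_trans ?_ (card_Aj K j)
      refine card_le_card_of_injOn (fun x => x.1) ?_ ?_
      · intro x hx
        rw [mem_coe, mem_filter, mem_product] at hx
        exact hx.1.1
      · intro x hx y hy h
        rw [mem_coe, mem_filter] at hx hy
        have hx2 := not_not.1 hx.2
        have hy2 := not_not.1 hy.2
        refine Prod.ext h ?_
        rw [← hx2, ← hy2]
        exact h
    rw [nsmul_eq_mul]
    calc (((Aj K j ×ˢ Aj K j).filter (fun x => ¬ x.1 ≠ x.2)).card : ℝ) * (4 * n ^ 2 * D ^ c / K) ≤ K * (4 * n ^ 2 * D ^ c / K) := by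
          refine mul_le_mul_of_nonneg_right (by exact_mod_cast h8) (by positivity)
      _ = 4 * n ^ 2 * D ^ c := by field_simp
  have h7 := r2 n K D c hnr h2 hK
  have h8 : (n : ℝ) ^ 2 * K / (16 * D ^ (7 * c)) = (n : ℝ) ^ 2 * K / (32 * D ^ (7 * c)) + (n : ℝ) ^ 2 * K / (32 * D ^ (7 * c)) := by
    field_simp
    ring
  rw [h8, h5] at h4
  linarith

/-- Real arithmetic 3. -/
theorem r3 (n K G D : ℝ) (c : ℕ) (hn : 0 < n) (hK : 0 < K) (h2 : 2 ≤ D) (hG : 0 ≤ G) (hKn1 : K * D ^ (8 * c + 11) ≤ n)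
    (h7 : n ^ 3 / (32 * D ^ (8 * c)) ≤ 4 * D ^ 2 * (K * n ^ 2 + D * (n * G ^ 2))) : n / D ^ (4 * c + 6) ≤ G := by
  have hD0 : 0 < D := by linarith
  have h8 : 4 * D ^ 2 * (K * n ^ 2) ≤ n ^ 3 / (64 * D ^ (8 * c)) := by
    rw [le_div_iff₀ (by positivity)]
    have h9 : 256 * D ^ (8 * c + 2) * K ≤ n := by
      calc 256 * D ^ (8 * c + 2) * K ≤ D ^ 9 * D ^ (8 * c + 2) * K := by
            refine mul_le_mul_of_nonneg_right (mul_le_mul_of_nonneg_right ?_ (by positivity)) hK.le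
            calc (256 : ℝ) ≤ 2 ^ 9 := by norm_num
              _ ≤ D ^ 9 := pow_le_pow_left₀ (by norm_num) h2 9
        _ = K * D ^ (8 * c + 11) := by rw [← pow_add, show 9 + (8 * c + 2) = 8 * c + 11 by ring]; ring
        _ ≤ n := hKn1
    calc 4 * D ^ 2 * (K * n ^ 2) * (64 * D ^ (8 * c)) = n ^ 2 * (256 * D ^ (8 * c + 2) * K) := by
          rw [pow_add]
          ring
      _ ≤ n ^ 2 * n := mul_le_mul_of_nonneg_left h9 (by positivity)
      _ = n ^ 3 := by ring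
  have h9 : n ^ 3 / (32 * D ^ (8 * c)) = n ^ 3 / (64 * D ^ (8 * c)) + n ^ 3 / (64 * D ^ (8 * c)) := by
    field_simp
    ring
  have h10 : n ^ 3 / (64 * D ^ (8 * c)) ≤ 4 * D ^ 3 * (n * G ^ 2) := by
    have h11 : 4 * D ^ 2 * (K * n ^ 2 + D * (n * G ^ 2)) = 4 * D ^ 2 * (K * n ^ 2) + 4 * D ^ 3 * (n * G ^ 2) := by ring
    rw [h11] at h7
    linarith
  have h11 : (n / D ^ (4 * c + 6)) ^ 2 ≤ G ^ 2 := by
    rw [div_le_iff₀ (by positivity)] at h10
    have h12 : n ^ 2 ≤ G ^ 2 * (256 * D ^ (8 * c + 3)) := by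
      have h13 : n * n ^ 2 ≤ n * (G ^ 2 * (256 * D ^ (8 * c + 3))) := by
        calc n * n ^ 2 = n ^ 3 := by ring
          _ ≤ 4 * D ^ 3 * (n * G ^ 2) * (64 * D ^ (8 * c)) := h10
          _ = n * (G ^ 2 * (256 * D ^ (8 * c + 3))) := by rw [pow_add]; ring
      exact le_of_mul_le_mul_left h13 hn
    rw [div_pow, div_le_iff₀ (by positivity)]
    refine h12.trans (mul_le_mul_of_nonneg_left ?_ (by positivity))
    calc 256 * D ^ (8 * c + 3) ≤ D ^ 9 * D ^ (8 * c + 3) := by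
          refine mul_le_mul_of_nonneg_right ?_ (by positivity)
          calc (256 : ℝ) ≤ 2 ^ 9 := by norm_num
            _ ≤ D ^ 9 := pow_le_pow_left₀ (by norm_num) h2 9
      _ = (D ^ (4 * c + 6)) ^ 2 := by rw [← pow_add, ← pow_mul]; congr 1; ring
  exact le_of_sq_le_sq h11 hG

/-- Steps 3 and 4. -/
theorem step34 (c n K : ℕ) (D : ℝ) (h2 : 2 ≤ D) (hD : ∀ m : ℕ, 1 ≤ m → m ≤ 2 * n → (m.divisors.card : ℝ) ≤ D)
    (hK : D ^ (8 * c + 11) ≤ K) (hKn : (K : ℝ) ^ 2 * D ^ (8 * c + 11) ≤ n) (g : ℤ → ℂ) (hg : ∀ x, ‖g x‖ ≤ 1) (hs : ∀ y, y ∉ Icc (1 : ℤ) n → g y = 0)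
    (P : Finset (ℤ × ℤ)) (hPc : (n : ℝ) / (K * D ^ c) ≤ P.card) (hP : ∀ p ∈ P, (K : ℝ) / D ^ c ≤ |(p.1 : ℝ)| ∧ |p.1| < K ∧ p.2 ≠ 0 ∧
      ∃ th : ℝ, (n : ℝ) ^ 2 / D ^ c ≤ ∑ a ∈ Aj K p.1, En n p.1.natAbs (fun y => Gd g (a * (a + p.1) * p.2) y * ee (th * y))) :
    ∃ th : ℝ, (n : ℝ) / D ^ (4 * c + 6) ≤ ‖∑ y ∈ Icc (1 : ℤ) n, g y * ee (th * y)‖ := by
  have hD0 : (0 : ℝ) < D := by linarith
  have hD1 : (1 : ℝ) ≤ D := by linarith
  have hKr : (0 : ℝ) < K := lt_of_lt_of_le (by positivity) hK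
  have hK1 : 1 ≤ K := by
    have : 0 < K := by exact_mod_cast hKr
    omega
  have hK1r : (1 : ℝ) ≤ K := by exact_mod_cast hK1
  have hnr : (0 : ℝ) < n := lt_of_lt_of_le (by positivity) hKn
  have hn : 1 ≤ n := by
    have : 0 < n := by exact_mod_cast hnr
    omega
  have hKn1 : (K : ℝ) * D ^ (8 * c + 11) ≤ n := by
    refine le_trans ?_ hKn
    refine mul_le_mul_of_nonneg_right ?_ (by positivity)
    nlinarith
  have hKn2 : (K : ℝ) ≤ n := by
    refine le_trans ?_ hKn1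
    exact le_mul_of_one_le_right hKr.le (one_le_pow₀ hD1)
  have hKn3 : K ≤ n := by exact_mod_cast hKn2
  have h3 : (P.card : ℝ) * ((n : ℝ) ^ 2 * K / (32 * D ^ (7 * c))) ≤
      ∑ p ∈ P, ∑ x ∈ (Aj K p.1 ×ˢ Aj K p.1).filter (fun x => x.1 ≠ x.2), En n p.1.natAbs (Gd g (p.2 * (x.2 - x.1) * (x.2 + x.1 + p.1))) := by
    rw [← nsmul_eq_mul]
    refine card_nsmul_le_sum _ _ _ fun p hp => ?_
    obtain ⟨h4, h5, h6, th, h7⟩ := hP p hp
    exact one_pair n K c D hn hK1 h2 hK hKn3 g hg hs p.1 p.2 p.1.natAbs (Int.natCast_natAbs p.1) h4 h5 th h7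
  have h4 := offdiag n K D hD g hs P fun p hp => by
    obtain ⟨h4, h5, h6, _⟩ := hP p hp
    refine ⟨?_, h5, h6⟩
    have h7 : (0 : ℝ) < |(p.1 : ℝ)| := lt_of_lt_of_le (by positivity) h4
    exact abs_pos.2 (by exact_mod_cast abs_pos.1 h7)
  have h5 : ∑ m ∈ Ico 1 K, ∑ e ∈ Ioo (-(n : ℤ)) n, En n m (Gd g e) ≤ K * n ^ 2 + D * ∑ d ∈ Ioo (-(n : ℤ)) n, ‖Au n g d‖ ^ 2 := by
    refine le_trans (le_of_eq ?_) (sum_sum_Au n K D hD g hg)
    refine sum_congr rfl fun m hm => ?_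
    rw [mem_Ico] at hm
    exact sum_En n m (by omega) g hs
  obtain ⟨th, h6⟩ := sum_Au n hn g hg hs
  refine ⟨th, ?_⟩
  refine r3 n K _ D c hnr hKr h2 (norm_nonneg _) hKn1 ?_
  have e1 : (n : ℝ) ^ 3 / (32 * D ^ (8 * c)) = (n : ℝ) / (K * D ^ c) * ((n : ℝ) ^ 2 * K / (32 * D ^ (7 * c))) := by
    rw [show 8 * c = c + 7 * c by ring, pow_add]
    field_simp
  rw [e1]
  have e2 : (n : ℝ) / (K * D ^ c) * ((n : ℝ) ^ 2 * K / (32 * D ^ (7 * c))) ≤ (P.card : ℝ) * ((n : ℝ) ^ 2 * K / (32 * D ^ (7 * c))) :=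
    mul_le_mul_of_nonneg_right hPc (by positivity)
  have e3 : 4 * D ^ 2 * ∑ m ∈ Ico 1 K, ∑ e ∈ Ioo (-(n : ℤ)) n, En n m (Gd g e) ≤
      4 * D ^ 2 * (K * n ^ 2 + D * (n * ‖∑ y ∈ Icc (1 : ℤ) n, g y * ee (th * y)‖ ^ 2)) := by
    refine mul_le_mul_of_nonneg_left (h5.trans ?_) (by positivity)
    have := mul_le_mul_of_nonneg_left h6 hD0.le
    linarith
  exact e2.trans (h3.trans (h4.trans e3))

end Pool.Agent.Lib.H81W
end

-- from Lib.H3B.S34
section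

/-!
# H3B, steps 3 and 4 (from many pairs `(j, k)` with large energies to one large exponential sum). Proof: library H81W.
-/

namespace Pool.Agent.H3B

open Finset
open Pool.Agent.H44W (ee TF cut)

/-- The two definitions of the energy agree. -/
theorem s34_E (n m : ℕ) (hm : 0 < m) (u : ℤ → ℂ) (hu : ∀ y, y ∉ Icc (1 : ℤ) n → u y = 0) : E m u = Pool.Agent.Lib.H81W.En n m u := by
  classical
  have hm0 : (0 : ℤ) < m := by exact_mod_cast hm
  unfold E Pool.Agent.Lib.H81W.En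
  have h1 : ∑ r ∈ Ico (0 : ℤ) m, ‖Pool.Agent.Lib.H81W.Sr n m u r‖ ^ 2 = ∑ r ∈ range m, ‖Pool.Agent.Lib.H81W.Sr n m u (r : ℤ)‖ ^ 2 := by
    symm
    refine sum_bij' (fun r _ => (r : ℤ)) (fun r _ => r.toNat) ?_ ?_ ?_ ?_ ?_
    · intro r hr
      rw [mem_range] at hr
      rw [mem_Ico]
      omega
    · intro r hr
      rw [mem_Ico] at hr
      rw [mem_range]
      omega
    · intro r _
      omega
    · intro r hr
      rw [mem_Ico] at hr
      omega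
    · intro r _
      rfl
  rw [h1]
  refine sum_congr rfl fun r hr => ?_
  rw [mem_range] at hr
  have hr0 : ((r : ℤ)) % m = r := Int.emod_eq_of_lt (by omega) (by omega)
  congr 2
  unfold Pool.Agent.Lib.H81W.Sr
  rw [tsum_eq_sum (s := ((Icc (1 : ℤ) (n : ℤ)).filter (fun y : ℤ => y % (m : ℤ) = (r : ℤ))).image (fun y : ℤ => y / (m : ℤ)))]
  · rw [sum_image]
    · refine sum_congr rfl fun y hy => ?_
      rw [mem_filter] at hy
      rw [← hy.2, add_comm, Int.mul_ediv_add_emod]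
    · intro y hy z hz h
      rw [mem_coe, mem_filter] at hy hz
      have h2 := Int.mul_ediv_add_emod y m
      have h3 := Int.mul_ediv_add_emod z m
      simp only at h
      rw [← h2, ← h3, h, hy.2, hz.2]
  · intro v hv
    apply hu
    intro h
    apply hv
    rw [mem_image]
    refine ⟨(r : ℤ) + m * v, ?_, ?_⟩
    · rw [mem_filter]
      exact ⟨h, by rw [Int.add_mul_emod_self_left, hr0]⟩
    · rw [Int.add_mul_ediv_left _ _ hm0.ne', Int.ediv_eq_zero_of_lt (by omega) (by omega), zero_add]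

theorem s34_sum (K : ℕ) (j : ℤ) (F : ℤ → ℝ) : ∑ a ∈ Ij K j, F a = ∑ a ∈ Pool.Agent.Lib.H81W.Aj K j, F a := by
  refine sum_bij' (fun a _ => (a : ℤ)) (fun a _ => a.toNat) ?_ ?_ ?_ ?_ ?_
  · intro a ha
    unfold Ij at ha
    rw [mem_filter, mem_Ico] at ha
    rw [Pool.Agent.Lib.H81W.mem_Aj]
    omega
  · intro a ha
    rw [Pool.Agent.Lib.H81W.mem_Aj] at ha
    unfold Ij
    rw [mem_filter, mem_Ico]
    omega
  · intro a _
    omega
  · intro a ha
    rw [Pool.Agent.Lib.H81W.mem_Aj] at ha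
    omega
  · intro a _
    rfl

/-- Steps 3 and 4. -/
theorem step34 (A : ℕ) : ∃ C : ℕ, ∀ (n K : ℕ) (D : ℝ), 2 ≤ D → (∀ m : ℕ, 1 ≤ m → m ≤ 2 * n → (m.divisors.card : ℝ) ≤ D) →
    D ^ C ≤ K → (K : ℝ) ^ 2 * D ^ C ≤ n → ∀ g : ℤ → ℂ, (∀ z, ‖g z‖ ≤ 1) → (∀ y : ℤ, y ∉ Icc (1 : ℤ) n → g y = 0) →
    ∀ P : Finset (ℤ × ℤ), (n : ℝ) / (K * D ^ A) ≤ P.card →
    (∀ p ∈ P, (K : ℝ) / D ^ A ≤ |(p.1 : ℝ)| ∧ |p.1| < K ∧ p.2 ≠ 0 ∧
      ∃ θ : ℝ, (n : ℝ) ^ 2 / D ^ A ≤ ∑ a ∈ Ij K p.1, E p.1.natAbs (tw θ (Gd g (a * (a + p.1) * p.2)))) →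
    ∃ θ : ℝ, (n : ℝ) / D ^ C ≤ ‖∑' y : ℤ, g y * ee (-(θ * y))‖ := by
  refine ⟨8 * A + 11, fun n K D h2 hD hK hKn g hg hs P hPc hP => ?_⟩
  have hD1 : (1 : ℝ) ≤ D := by linarith
  have hD0 : (0 : ℝ) < D := by linarith
  have hKr : (0 : ℝ) < K := lt_of_lt_of_le (by positivity) hK
  obtain ⟨th, h⟩ := Pool.Agent.Lib.H81W.step34 A n K D h2 hD hK hKn g hg hs P hPc fun p hp => by
    obtain ⟨h3, h4, h5, θ, h6⟩ := hP p hp
    refine ⟨h3, h4, h5, -θ, ?_⟩
    have h7 : (0 : ℝ) < |(p.1 : ℝ)| := lt_of_lt_of_le (by positivity) h3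
    have h8 : p.1 ≠ 0 := by
      intro h0
      rw [h0, Int.cast_zero, abs_zero] at h7
      exact lt_irrefl _ h7
    refine h6.trans (le_of_eq ?_)
    rw [s34_sum K p.1 (fun a => E p.1.natAbs (tw θ (Gd g (a * (a + p.1) * p.2))))]
    refine sum_congr rfl fun a _ => ?_
    rw [s34_E n p.1.natAbs (by omega)]
    · congr 1
      funext y
      unfold tw
      rw [neg_mul]
      rfl
    · intro y hy
      unfold tw Gd
      rw [hs y hy, zero_mul, zero_mul]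
  refine ⟨-th, ?_⟩
  have h3 : ∑' y : ℤ, g y * ee (-(-th * y)) = ∑ y ∈ Icc (1 : ℤ) n, g y * ee (th * y) := by
    rw [tsum_eq_sum (s := Icc (1 : ℤ) n)]
    · refine sum_congr rfl fun y _ => ?_
      rw [neg_mul, neg_neg]
    · intro y hy
      rw [hs y hy, zero_mul]
  rw [h3]
  refine le_trans ?_ h
  exact div_le_div_of_nonneg_left (Nat.cast_nonneg n) (by positivity) (pow_le_pow_right₀ hD1 (by omega))

end Pool.Agent.H3B
end

-- from Lib.HUK.KA9
section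

/-!
# Project HUK, chunk KA9 (M): Parseval and the `U²` norm on `ZMod r`
-/

open Finset

namespace Pool.Agent.HUK

theorem ka9_sq {r : ℕ} [NeZero r] (g : ZMod r → ℂ) (x : ZMod r) :
    ((‖ft g x‖ ^ 2 : ℝ) : ℂ) = (∑ z, ZMod.stdAddChar (x * z) * ∑ y, DD z g y) / (r : ℂ) ^ 2 := by
  have h1 : ((‖ft g x‖ ^ 2 : ℝ) : ℂ) = ft g x * (starRingEnd ℂ) (ft g x) := by
    rw [Complex.mul_conj, Complex.normSq_eq_norm_sq]
  rw [h1, ft, map_div₀, map_natCast, div_mul_div_comm, ← sq, map_sum]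
  congr 1
  have h2 : ∀ w, (starRingEnd ℂ) (g w * ZMod.stdAddChar (-(x * w))) =
      (starRingEnd ℂ) (g w) * ZMod.stdAddChar (x * w) := by
    intro w
    rw [map_mul, ← AddChar.map_neg_eq_conj, neg_neg]
  rw [Finset.sum_congr rfl fun w _ => h2 w, Finset.sum_mul]
  have h3 : ∀ y, g y * ZMod.stdAddChar (-(x * y)) *
      ∑ w, (starRingEnd ℂ) (g w) * ZMod.stdAddChar (x * w) =
      ∑ z, ZMod.stdAddChar (x * z) * DD z g y := by
    intro y
    rw [← Equiv.sum_comp (Equiv.addLeft y)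
      (fun w => (starRingEnd ℂ) (g w) * ZMod.stdAddChar (x * w)), Finset.mul_sum]
    refine Finset.sum_congr rfl fun z _ => ?_
    change g y * ZMod.stdAddChar (-(x * y)) *
      ((starRingEnd ℂ) (g (y + z)) * ZMod.stdAddChar (x * (y + z))) =
      ZMod.stdAddChar (x * z) * (g y * (starRingEnd ℂ) (g (y + z)))
    have h4 : (ZMod.stdAddChar (x * z) : ℂ) =
        ZMod.stdAddChar (-(x * y)) * ZMod.stdAddChar (x * (y + z)) := by
      rw [← AddChar.map_add_eq_mul]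
      congr 1
      ring
    rw [h4]
    ring
  rw [Finset.sum_congr rfl fun y _ => h3 y, Finset.sum_comm]
  refine Finset.sum_congr rfl fun z _ => ?_
  rw [Finset.mul_sum]

/-- Parseval. Expand the square and use `∑_x stdAddChar (x * (z - y)) = r` if `z = y`, else `0` (`AddChar.sum_mulShift`, `ZMod.isPrimitive_stdAddChar`). -/
theorem KA9_parseval {r : ℕ} [NeZero r] (f : ZMod r → ℂ) : ∑ x, ‖ft f x‖ ^ 2 = (∑ y, ‖f y‖ ^ 2) / r := by
  have hr : (r : ℂ) ≠ 0 := Nat.cast_ne_zero.2 (NeZero.ne r)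
  have h1 : ((∑ x, ‖ft f x‖ ^ 2 : ℝ) : ℂ) = (((∑ y, ‖f y‖ ^ 2) / r : ℝ) : ℂ) := by
    push_cast
    have h2 : ∀ x, ((‖ft f x‖ : ℂ)) ^ 2 =
        (∑ z, ZMod.stdAddChar (x * z) * ∑ y, DD z f y) / (r : ℂ) ^ 2 := by
      intro x
      rw [← ka9_sq f x]
      push_cast
      rfl
    rw [Finset.sum_congr rfl fun x _ => h2 x, ← Finset.sum_div, Finset.sum_comm]
    have h3 : ∀ z : ZMod r, ∑ x : ZMod r, (ZMod.stdAddChar (x * z) : ℂ) * ∑ y, DD z f y =
        if z = 0 then (r : ℂ) * ∑ y, DD z f y else 0 := by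
      intro z
      rw [← Finset.sum_mul, AddChar.sum_mulShift z (ZMod.isPrimitive_stdAddChar r), ZMod.card]
      split_ifs <;> simp
    rw [Finset.sum_congr rfl fun z _ => h3 z, Finset.sum_ite_eq' Finset.univ (0 : ZMod r),
      if_pos (Finset.mem_univ _)]
    have h4 : ∀ y, DD (0 : ZMod r) f y = ((‖f y‖ : ℂ)) ^ 2 := by
      intro y
      rw [DD, add_zero, Complex.mul_conj, Complex.normSq_eq_norm_sq]
      push_cast
      rfl
    rw [Finset.sum_congr rfl fun y _ => h4 y]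
    field_simp
  exact_mod_cast h1

/-- Proof. Let `A h = ∑_y f y * conj (f (y + h))`. `ft A (-x) = (1/r) ∑_h ∑_y f y conj f(y+h) e(x h) = (1/r) (∑_y f y e(-x y)) (∑_z conj (f z) e(x z))
= r ‖ft f x‖²`. For fixed `h2`: `∑_{h1} ∑_y DD h1 (DD h2 f) y = (∑_y DD h2 f y) (∑_y conj (DD h2 f y)) = ‖A h2‖²`. So the left side is
`∑_h ‖A h‖² = r ∑_x ‖ft A x‖²` (`KA9_parseval`) `= r ∑_x r² ‖ft f x‖⁴` (`x ↦ -x`, `Equiv.sum_comp (Equiv.neg _)`). -/
theorem KA9_U2 {r : ℕ} [NeZero r] (f : ZMod r → ℂ) :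
    ∑ h1 : ZMod r, ∑ h2 : ZMod r, ∑ y, DD h1 (DD h2 f) y = (((r : ℝ) ^ 3 * ∑ x, ‖ft f x‖ ^ 4 : ℝ) : ℂ) := by
  have hr : (r : ℂ) ≠ 0 := Nat.cast_ne_zero.2 (NeZero.ne r)
  obtain ⟨A, hA⟩ : ∃ A : ZMod r → ℂ, ∀ h, A h = ∑ y, DD h f y := ⟨_, fun _ => rfl⟩
  have h1 : ∀ h2 : ZMod r, ∑ h1 : ZMod r, ∑ y, DD h1 (DD h2 f) y = ((‖A h2‖ ^ 2 : ℝ) : ℂ) := by
    intro h2
    have h3 : ((‖A h2‖ ^ 2 : ℝ) : ℂ) = A h2 * (starRingEnd ℂ) (A h2) := by
      rw [Complex.mul_conj, Complex.normSq_eq_norm_sq]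
    rw [h3, hA, map_sum, Finset.sum_comm, Finset.sum_mul]
    refine Finset.sum_congr rfl fun y _ => ?_
    rw [← Equiv.sum_comp (Equiv.addLeft y) (fun w => (starRingEnd ℂ) (DD h2 f w)), Finset.mul_sum]
    exact Finset.sum_congr rfl fun z _ => rfl
  have h2 : ∀ x, ft A (-x) = (r : ℂ) * ((‖ft f x‖ ^ 2 : ℝ) : ℂ) := by
    intro x
    rw [ka9_sq f x, ft]
    have h3 : ∀ y, A y * ZMod.stdAddChar (-(-x * y)) =
        ZMod.stdAddChar (x * y) * ∑ w, DD y f w := by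
      intro y
      rw [hA, neg_mul, neg_neg, mul_comm]
    rw [Finset.sum_congr rfl fun y _ => h3 y]
    field_simp
  have h3 : ∑ h : ZMod r, ‖A h‖ ^ 2 = r * ∑ x, ‖ft A x‖ ^ 2 := by
    have hr' : (r : ℝ) ≠ 0 := Nat.cast_ne_zero.2 (NeZero.ne r)
    rw [KA9_parseval A]
    field_simp
  have h4 : ∑ x, ‖ft A x‖ ^ 2 = (r : ℝ) ^ 2 * ∑ x, ‖ft f x‖ ^ 4 := by
    rw [← Equiv.sum_comp (Equiv.neg (ZMod r)) (fun x => ‖ft A x‖ ^ 2), Finset.mul_sum]
    refine Finset.sum_congr rfl fun x _ => ?_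
    change ‖ft A (-x)‖ ^ 2 = _
    rw [h2, norm_mul, Complex.norm_real, Complex.norm_natCast, Real.norm_eq_abs,
      abs_of_nonneg (by positivity)]
    ring
  rw [Finset.sum_comm, Finset.sum_congr rfl fun h _ => h1 h, ← Complex.ofReal_sum, h3, h4]
  push_cast
  ring

/-- The square of a Fourier coefficient: `‖ft g x‖² = (1/r²) ∑_z e(x z) ∑_y DD z g y`. (`conj (stdAddChar u) = stdAddChar (-u)`; substitution
of the second variable by `y + z`.) -/
theorem KA9_sq {r : ℕ} [NeZero r] (g : ZMod r → ℂ) (x : ZMod r) :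
    ((‖ft g x‖ ^ 2 : ℝ) : ℂ) = (∑ z, ZMod.stdAddChar (x * z) * ∑ y, DD z g y) / (r : ℂ) ^ 2 := by
  exact ka9_sq g x

end Pool.Agent.HUK
end

-- from Lib.HUK.KA10
section

/-!
# Project HUK, chunk KA10 (M): recursions for the Gowers norms on `ZMod r`
-/

open Finset

namespace Pool.Agent.HUK

theorem KA10_dd {r : ℕ} [NeZero r] (g : ZMod r → ℂ) : ∑ z : ZMod r, ∑ y, DD z g y = ((‖∑ y, g y‖ ^ 2 : ℝ) : ℂ) := by
  rw [Finset.sum_comm]
  have h : ∀ y : ZMod r, ∑ z : ZMod r, DD z g y = g y * (starRingEnd ℂ) (∑ w, g w) := by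
    intro y
    unfold DD
    rw [← Finset.mul_sum, map_sum]
    congr 1
    exact Equiv.sum_comp (Equiv.addLeft y) (fun w => (starRingEnd ℂ) (g w))
  rw [Finset.sum_congr rfl fun y _ => h y, ← Finset.sum_mul, Complex.mul_conj']
  push_cast
  rfl

/-- Sums over `Fin (s + 1) → ZMod r`: first coordinate. (`Fin.consEquiv`, `List.ofFn_succ`, `DL (h :: l) f = DL l (DD h f)`.) -/
theorem KA10_sum {r : ℕ} [NeZero r] (s : ℕ) (f : ZMod r → ℂ) :
    ∑ t : Fin (s + 1) → ZMod r, ∑ y, DL (List.ofFn t) f y =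
      ∑ z : ZMod r, ∑ t : Fin s → ZMod r, ∑ y, DL (List.ofFn t) (DD z f) y := by
  rw [← (Fin.consEquiv (fun _ : Fin (s + 1) => ZMod r)).sum_comp, Fintype.sum_prod_type]
  refine Finset.sum_congr rfl fun z _ => Finset.sum_congr rfl fun t _ => ?_
  have h : List.ofFn ((Fin.consEquiv (fun _ : Fin (s + 1) => ZMod r)) (z, t)) = z :: List.ofFn t := by
    rw [List.ofFn_succ]
    simp [Fin.consEquiv]
  rw [h]
  rfl

/-- Proof. `KA10_sum`, `DL l (DD z f) = DD z (DL l f)` (`DL_DD` in `P0.lean`), and `∑_z ∑_y DD z g y = ‖∑_y g y‖²` (substitution `y + z`). -/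
theorem KA10_sq {r : ℕ} [NeZero r] (s : ℕ) (f : ZMod r → ℂ) :
    ∑ t : Fin (s + 1) → ZMod r, ∑ y, DL (List.ofFn t) f y =
      ((∑ t : Fin s → ZMod r, ‖∑ y, DL (List.ofFn t) f y‖ ^ 2 : ℝ) : ℂ) := by
  rw [KA10_sum, Finset.sum_comm, Complex.ofReal_sum]
  refine Finset.sum_congr rfl fun t _ => ?_
  rw [← KA10_dd]
  refine Finset.sum_congr rfl fun z _ => ?_
  rw [DL_DD]


/-- From `KA10_sum`. -/
theorem KA10_succ {r : ℕ} [NeZero r] (s : ℕ) (f : ZMod r → ℂ) : uG (s + 1) f = (∑ z, uG s (DD z f)) / r := by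
  have hr : (r : ℝ) ≠ 0 := Nat.cast_ne_zero.mpr (NeZero.ne r)
  unfold uG
  rw [KA10_sum, Complex.re_sum, ← Finset.sum_div, div_div, ← pow_succ]

/-- Proof. `KA10_sum` twice, `DL_DD`, `KA9_U2` for `DL (List.ofFn t) f`. -/
theorem KA10_four {r : ℕ} [NeZero r] (s : ℕ) (f : ZMod r → ℂ) :
    uG (s + 2) f = (∑ t : Fin s → ZMod r, ∑ x, ‖ft (DL (List.ofFn t) f) x‖ ^ 4) / (r : ℝ) ^ s := by
  have hr : (r : ℝ) ≠ 0 := Nat.cast_ne_zero.mpr (NeZero.ne r)
  have h1 : ∑ t : Fin (s + 2) → ZMod r, ∑ y, DL (List.ofFn t) f y =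
      ((∑ t : Fin s → ZMod r, (r : ℝ) ^ 3 * ∑ x, ‖ft (DL (List.ofFn t) f) x‖ ^ 4 : ℝ) : ℂ) := by
    rw [KA10_sum (s + 1) f, Complex.ofReal_sum]
    have h2 : ∀ z : ZMod r, ∑ t : Fin (s + 1) → ZMod r, ∑ y, DL (List.ofFn t) (DD z f) y =
        ∑ t : Fin s → ZMod r, ∑ w : ZMod r, ∑ y, DD w (DD z (DL (List.ofFn t) f)) y := by
      intro z
      rw [KA10_sum s, Finset.sum_comm]
      refine Finset.sum_congr rfl fun t _ => Finset.sum_congr rfl fun w _ => ?_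
      rw [DL_DD, DL_DD]
    rw [Finset.sum_congr rfl fun z _ => h2 z, Finset.sum_comm]
    refine Finset.sum_congr rfl fun t _ => ?_
    rw [← KA9_U2, Finset.sum_comm]
  unfold uG
  rw [h1, Complex.ofReal_re, ← Finset.mul_sum, show s + 2 + 1 = s + 3 by ring, pow_add]
  field_simp

/-- Proof. `KA9_sq` for `g = DL (List.ofFn t) f` and `DD z g = DL (List.ofFn t) (DD z f)`: the sum over `t` of the squares is
`(1/r²) ∑_z e(x z) (∑_t ∑_y DL (List.ofFn t) (DD z f) y)`, the inner sums are real and non-negative (`KA10_sq`), equal to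
`r^(s+2) uG (s+1) (DD z f)`; so it is at most `(1/r²) ∑_z r^(s+2) uG (s+1) (DD z f) = r^(s+1) uG (s+2) f` (`KA10_succ`). -/
theorem KA10_le {r : ℕ} [NeZero r] (s : ℕ) (f : ZMod r → ℂ) (x : ZMod r) :
    ∑ t : Fin (s + 1) → ZMod r, ‖ft (DL (List.ofFn t) f) x‖ ^ 2 ≤ (r : ℝ) ^ (s + 1) * uG (s + 2) f := by
  have hr : (0 : ℝ) < r := Nat.cast_pos.mpr (Nat.pos_of_ne_zero (NeZero.ne r))
  have hA : ∀ z : ZMod r, ∃ A : ℝ, 0 ≤ A ∧ ∑ t : Fin (s + 1) → ZMod r, ∑ y, DL (List.ofFn t) (DD z f) y = (A : ℂ) ∧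
      A = (r : ℝ) ^ (s + 2) * uG (s + 1) (DD z f) := by
    intro z
    refine ⟨_, ?_, KA10_sq s (DD z f), ?_⟩
    · positivity
    · unfold uG
      rw [KA10_sq, Complex.ofReal_re]
      field_simp
  choose A hA0 hA1 hA2 using hA
  have h1 : ((∑ t : Fin (s + 1) → ZMod r, ‖ft (DL (List.ofFn t) f) x‖ ^ 2 : ℝ) : ℂ) =
      (∑ z : ZMod r, ZMod.stdAddChar (x * z) * (A z : ℂ)) / (r : ℂ) ^ 2 := by
    rw [Complex.ofReal_sum, Finset.sum_congr rfl fun t _ => KA9_sq (DL (List.ofFn t) f) x, ← Finset.sum_div,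
      Finset.sum_comm]
    congr 1
    refine Finset.sum_congr rfl fun z _ => ?_
    rw [← hA1 z, Finset.mul_sum]
    refine Finset.sum_congr rfl fun t _ => ?_
    rw [DL_DD]
  have h0 : 0 ≤ ∑ t : Fin (s + 1) → ZMod r, ‖ft (DL (List.ofFn t) f) x‖ ^ 2 := by positivity
  have h2 : ∑ t : Fin (s + 1) → ZMod r, ‖ft (DL (List.ofFn t) f) x‖ ^ 2 ≤ (∑ z : ZMod r, A z) / (r : ℝ) ^ 2 := by
    rw [← Real.norm_of_nonneg h0, ← Complex.norm_real, h1, norm_div, norm_pow, Complex.norm_natCast]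
    refine div_le_div_of_nonneg_right ((norm_sum_le _ _).trans (Finset.sum_le_sum fun z _ => ?_)) (by positivity)
    rw [norm_mul, AddChar.norm_apply, one_mul, Complex.norm_real, Real.norm_of_nonneg (hA0 z)]
  refine h2.trans (le_of_eq ?_)
  rw [Finset.sum_congr rfl fun z _ => hA2 z, ← Finset.mul_sum, KA10_succ (s + 1) f]
  rw [show s + 2 = s + 1 + 1 by ring, pow_succ (r : ℝ) (s + 1)]
  field_simp

end Pool.Agent.HUK
end

-- from Lib.HUK.KA0
section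

/-!
# Project HUK, chunk KA0 (S/M): elimination in a finite module over `ZMod q`
-/

open Finset

namespace Pool.Agent.HUK

private theorem ka0_two {q : ℕ} [NeZero q] (t : ZMod q) (x : ℤ) (h1 : -(q : ℤ) < x) (h2 : x < q) (hx : (x : ZMod q) = t) :
    x = (t.val : ℤ) ∨ x = (t.val : ℤ) - q := by
  have hq : (0 : ℤ) < q := by exact_mod_cast Nat.pos_of_ne_zero (NeZero.ne q)
  have h3 : ((t.val : ℤ) : ZMod q) = t := by
    rw [Int.cast_natCast, ZMod.natCast_zmod_val]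
  have h4 : (x : ZMod q) = ((t.val : ℤ) : ZMod q) := by rw [hx, h3]
  rw [ZMod.intCast_eq_intCast_iff_dvd_sub] at h4
  obtain ⟨c, hc⟩ := h4
  have h5 : (t.val : ℤ) < q := by exact_mod_cast ZMod.val_lt t
  have h6 : (0 : ℤ) ≤ (t.val : ℤ) := by positivity
  have h7 : c < 2 := by
    by_contra h
    push Not at h
    nlinarith
  have h8 : -1 < c := by
    by_contra h
    push Not at h
    nlinarith
  have h9 : c = 0 ∨ c = 1 := by omega
  rcases h9 with rfl | rfl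
  · left
    linarith
  · right
    linarith

private theorem ka0_fibre {q : ℕ} [NeZero q] (r : ℕ) (t : Fin r → ZMod q) :
    ((bxS r q).filter fun j => (fun i => ((j i : ℤ) : ZMod q)) = t).card ≤ 2 ^ r := by
  have h1 : ((bxS r q).filter fun j => (fun i => ((j i : ℤ) : ZMod q)) = t) ⊆
      Fintype.piFinset fun i => ({((t i).val : ℤ), ((t i).val : ℤ) - q} : Finset ℤ) := by
    intro j hj
    rw [Finset.mem_filter, bxS, Fintype.mem_piFinset] at hj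
    rw [Fintype.mem_piFinset]
    intro i
    rw [Finset.mem_insert, Finset.mem_singleton]
    have h2 := Finset.mem_Ioo.1 (hj.1 i)
    exact ka0_two (t i) (j i) h2.1 h2.2 (congrFun hj.2 i)
  refine (Finset.card_le_card h1).trans ?_
  rw [Fintype.card_piFinset]
  refine (Finset.prod_le_prod (fun _ _ => Nat.zero_le _) fun i _ => Finset.card_le_two).trans ?_
  simp

private theorem ka0_sum {q : ℕ} [NeZero q] (r : ℕ) (F : (Fin r → ZMod q) → ℝ) (hF : ∀ t, 0 ≤ F t) :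
    ∑ j ∈ bxS r q, F (fun i => ((j i : ℤ) : ZMod q)) ≤ 2 ^ r * ∑ t, F t := by
  classical
  rw [← Finset.sum_fiberwise_of_maps_to (s := bxS r q) (t := univ)
    (g := fun j : Fin r → ℤ => (fun i => ((j i : ℤ) : ZMod q))) (fun _ _ => Finset.mem_univ _), Finset.mul_sum]
  refine Finset.sum_le_sum fun t _ => ?_
  have h1 : ∑ j ∈ (bxS r q).filter (fun j => (fun i => ((j i : ℤ) : ZMod q)) = t), F (fun i => ((j i : ℤ) : ZMod q)) =
      ∑ j ∈ (bxS r q).filter (fun j => (fun i => ((j i : ℤ) : ZMod q)) = t), F t := by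
    refine Finset.sum_congr rfl fun j hj => ?_
    rw [(Finset.mem_filter.1 hj).2]
  rw [h1, Finset.sum_const, nsmul_eq_mul]
  refine mul_le_mul_of_nonneg_right ?_ (hF t)
  exact_mod_cast ka0_fibre r t

/-- Proof. `E1_elim` with `B = B' = univ`, `N = card Z`, `H = q`: the left side is the same, the right side is
`2^(2^r) / q^r * ∑_{j ∈ bxS r q} ‖∑_z DL (List.ofFn fun i => j i • v i) c z‖ / card Z` with integers `-q < j i < q`, and
`(j i : ℤ) • v i = ((j i : ℤ) : ZMod q) • v i` (`Int.cast_smul_eq_zsmul`). The map `bxS r q → (Fin r → ZMod q)` (cast of every coordinate)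
has at most `2^r` elements in every fibre: in `(-q, q)` there are at most two representatives of a class modulo `q`
(`Finset.sum_fiberwise_of_maps_to` or `Finset.card_le_mul_card_image`; or by induction on `r`; or compare with the product structure:
the fibre over `t` is contained in the `piFinset` of the sets of the two integers `(t i).val`, `(t i).val - q`). -/
theorem KA0_elim {q : ℕ} [NeZero q] {Z : Type*} [AddCommGroup Z] [Module (ZMod q) Z] [Fintype Z] [DecidableEq Z]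
    (r : ℕ) (v : Fin r → Z) (g : Fin r → Z → ℂ) (c : Z → ℂ) (hg : ∀ i z, ‖g i z‖ ≤ 1)
    (hinv : ∀ i z, g i (z + v i) = g i z) :
    (‖∑ z, (∏ i, g i z) * c z‖ / Fintype.card Z) ^ (2 ^ r) ≤
      2 ^ (2 ^ r + r) / (q : ℝ) ^ r *
        ∑ j : Fin r → ZMod q, ‖∑ z, DL (List.ofFn fun i => j i • v i) c z‖ / Fintype.card Z := by
  have hE := E1_elim (univ : Finset Z) univ (Fintype.card Z : ℝ) (by rw [Finset.card_univ])
    (by exact_mod_cast Fintype.card_pos) q (Nat.pos_of_ne_zero (NeZero.ne q)) r v g c hg hinv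
    (fun z hz => absurd (Finset.mem_univ z) hz) (fun _ _ _ _ _ => Finset.mem_univ _)
  refine hE.trans ?_
  have hs := ka0_sum (q := q) r (fun t => ‖∑ z, DL (List.ofFn fun i => t i • v i) c z‖ / Fintype.card Z)
    (fun t => by positivity)
  have he : ∑ j ∈ bxS r q, ‖∑ z, DL (List.ofFn fun i => j i • v i) c z‖ / (Fintype.card Z : ℝ) =
      ∑ j ∈ bxS r q, (fun t : Fin r → ZMod q => ‖∑ z, DL (List.ofFn fun i => t i • v i) c z‖ / (Fintype.card Z : ℝ))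
        (fun i => ((j i : ℤ) : ZMod q)) := by
    refine Finset.sum_congr rfl fun j _ => ?_
    simp only [Int.cast_smul_eq_zsmul]
  rw [he]
  refine (mul_le_mul_of_nonneg_left hs (by positivity)).trans (le_of_eq ?_)
  rw [pow_add]
  ring

end Pool.Agent.HUK
end

-- from Lib.HUK.KA6
section

/-!
# Project HUK, chunk KA6 (M): zeros of `DG` modulo `r`
-/

open Finset

namespace Pool.Agent.HUK

theorem ka6_poly (n : ℕ) (h : Fin n → ℤ) (a : ℤ) :
    (DG (List.ofFn fun i => Polynomial.C (h i) + Polynomial.X) (Polynomial.C a + Polynomial.X)).natDegree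
      ≤ 2 ^ n - 1 ∧
    (DG (List.ofFn fun i => Polynomial.C (h i) + Polynomial.X) (Polynomial.C a + Polynomial.X)).coeff
      (2 ^ n - 1) = DG (List.replicate n (1 : ℤ)) 1 := by
  have hdeg : ∀ x : ℤ, (Polynomial.C x + Polynomial.X : Polynomial ℤ).natDegree ≤ 1 := fun x =>
    (Polynomial.natDegree_add_le _ _).trans
      (max_le (by rw [Polynomial.natDegree_C]; exact zero_le_one) Polynomial.natDegree_X_le)
  have hco : ∀ x : ℤ, (Polynomial.C x + Polynomial.X : Polynomial ℤ).coeff 1 = 1 := fun x => by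
    rw [Polynomial.coeff_add, Polynomial.coeff_X_one, Polynomial.coeff_C_of_ne_zero one_ne_zero, zero_add]
  obtain ⟨-, -, h3, h4⟩ := KA1_deg (List.ofFn fun i => Polynomial.C (h i) + Polynomial.X) (by
    intro j hj
    rw [List.mem_ofFn] at hj
    obtain ⟨i, rfl⟩ := hj
    exact hdeg _) (Polynomial.C a + Polynomial.X) (hdeg a)
  rw [List.length_ofFn] at h3 h4
  refine ⟨h3, ?_⟩
  rw [h4, List.map_ofFn, hco]
  have h5 : ((fun j : Polynomial ℤ => j.coeff 1) ∘ fun i => Polynomial.C (h i) + Polynomial.X) =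
      fun _ : Fin n => (1 : ℤ) := by
    funext i
    exact hco _
  rw [h5, List.ofFn_const]

theorem ka6_eval (n : ℕ) (h : Fin n → ℤ) (a : ℤ) (r : ℕ) (k : ℤ) :
    (((DG (List.ofFn fun i => Polynomial.C (h i) + Polynomial.X)
      (Polynomial.C a + Polynomial.X)).eval k : ℤ) : ZMod r) =
      DG (List.ofFn fun i => (h i : ZMod r) + k) ((a : ZMod r) + k) := by
  obtain ⟨φ, hφ⟩ : ∃ φ : Polynomial ℤ →+* ZMod r,
    φ = (Int.castRingHom (ZMod r)).comp (Polynomial.evalRingHom k) := ⟨_, rfl⟩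
  have h1 : ∀ x : ℤ, φ (Polynomial.C x + Polynomial.X) = (x : ZMod r) + k := by
    intro x
    rw [hφ, RingHom.comp_apply, Polynomial.coe_evalRingHom, Polynomial.eval_add, Polynomial.eval_C,
      Polynomial.eval_X, map_add, eq_intCast, eq_intCast]
  have h2 := (KA1_map φ (List.ofFn fun i => Polynomial.C (h i) + Polynomial.X)
    (Polynomial.C a + Polynomial.X)).2
  rw [List.map_ofFn, h1] at h2
  have h3 : (φ ∘ fun i => Polynomial.C (h i) + Polynomial.X) = fun i => (h i : ZMod r) + k := by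
    funext i
    exact h1 _
  rw [h3] at h2
  rw [← h2, hφ, RingHom.comp_apply, Polynomial.coe_evalRingHom]
  rfl

theorem ka6_fibre {n r : ℕ} [NeZero r] (ψ : ZMod r) (p : (Fin n → ZMod r) × ZMod r) {C e : ℝ}
    (hC : ∀ P : Polynomial ℤ, P.natDegree ≤ 2 ^ n - 1 → P.coeff (2 ^ n - 1) = DG (List.replicate n (1 : ℤ)) 1 →
      ∀ m r : ℕ, 1 ≤ m → m ≤ r →
      (((range r).filter fun k : ℕ => (m : ℤ) ∣ P.eval (k : ℤ)).card : ℝ) ≤ C * r * (m : ℝ) ^ (-e)) :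
    ((univ.filter fun κ : ZMod r => ψ * DG (List.ofFn fun i => p.1 i + κ) (p.2 + κ) = 0).card : ℝ) ≤
      C * r * (addOrderOf ψ : ℝ) ^ (-e) := by
  obtain ⟨h1, h2⟩ := ka6_poly n (fun i => ((p.1 i).val : ℤ)) (p.2.val : ℤ)
  have hm : 1 ≤ addOrderOf ψ := addOrderOf_pos ψ
  have hmr : addOrderOf ψ ≤ r := by
    have h := addOrderOf_le_card_univ (x := ψ)
    rwa [ZMod.card] at h
  have h3 := hC _ h1 h2 (addOrderOf ψ) r hm hmr
  refine le_trans ?_ h3
  have h4 : (univ.filter fun κ : ZMod r => ψ * DG (List.ofFn fun i => p.1 i + κ) (p.2 + κ) = 0).card ≤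
      ((range r).filter fun k : ℕ => ((addOrderOf ψ : ℕ) : ℤ) ∣
        (DG (List.ofFn fun i => Polynomial.C (((p.1 i).val : ℤ)) + Polynomial.X)
          (Polynomial.C ((p.2.val : ℤ)) + Polynomial.X)).eval (k : ℤ)).card := by
    refine card_le_card_of_injOn (fun κ => κ.val) ?_ (fun x _ y _ hxy => ZMod.val_injective r hxy)
    intro κ hκ
    have h5 : ψ * DG (List.ofFn fun i => p.1 i + κ) (p.2 + κ) = 0 := (mem_filter.1 (mem_coe.1 hκ)).2
    refine mem_coe.2 (mem_filter.2 ⟨mem_range.2 (ZMod.val_lt κ), ?_⟩)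
    rw [addOrderOf_dvd_iff_zsmul_eq_zero, zsmul_eq_mul, ka6_eval]
    have h6 : ∀ x : ZMod r, (((x.val : ℕ) : ℤ) : ZMod r) = x := fun x => by
      rw [Int.cast_natCast, ZMod.natCast_zmod_val]
    simp only [h6]
    rw [mul_comm]
    exact h5
  exact_mod_cast h4

theorem ka6_avg {n r : ℕ} [NeZero r] (ψ : ZMod r) :
    (univ.filter fun p : (Fin n → ZMod r) × ZMod r => ψ * DG (List.ofFn p.1) p.2 = 0).card * r =
      ∑ p : (Fin n → ZMod r) × ZMod r,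
        (univ.filter fun κ : ZMod r => ψ * DG (List.ofFn fun i => p.1 i + κ) (p.2 + κ) = 0).card := by
  simp only [card_filter]
  rw [sum_comm]
  have h1 : ∀ κ : ZMod r, (∑ p : (Fin n → ZMod r) × ZMod r,
      if ψ * DG (List.ofFn fun i => p.1 i + κ) (p.2 + κ) = 0 then 1 else 0) =
      ∑ p : (Fin n → ZMod r) × ZMod r, if ψ * DG (List.ofFn p.1) p.2 = 0 then 1 else 0 := by
    intro κ
    exact Equiv.sum_comp (Equiv.addRight ((fun _ => κ, κ) : (Fin n → ZMod r) × ZMod r))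
      (fun p => if ψ * DG (List.ofFn p.1) p.2 = 0 then 1 else 0)
  rw [sum_congr rfl fun κ _ => h1 κ, sum_const, card_univ, ZMod.card, smul_eq_mul, mul_comm]

/-- Proof. Let `d = 2^n - 1 ≥ 1`, `c = DG (replicate n 1) 1 ≠ 0` (`KA1_pos`), `C`, `e` from `KA5_count`, `m = addOrderOf ψ` (`1 ≤ m ≤ r`, it divides
`r`). For every `k : ZMod r` the map `p ↦ (fun i => p.1 i + k, p.2 + k)` is a permutation of `(Fin n → ZMod r) × ZMod r`, so
`r * card = ∑_p #{k : ZMod r | ψ * DG (List.ofFn fun i => p.1 i + k) (p.2 + k) = 0}`. Fix `p` and let `P = DG (List.ofFn fun i => C ((p.1 i).val : ℤ) + X)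
(C (p.2.val : ℤ) + X)` in `Polynomial ℤ`. `KA1_deg`: `P.natDegree ≤ d`, `P.coeff d = c` (the coefficients at `1` are `1`:
`List.map_ofFn`, `List.ofFn_const`). For `k : ℕ` the ring homomorphism `Polynomial.eval₂RingHom (Int.castRingHom (ZMod r)) (k : ZMod r)` maps `P` to
`DG (List.ofFn fun i => p.1 i + k) (p.2 + k)` (`KA1_map`, `ZMod.natCast_zmod_val`), and it is the cast of `P.eval (k : ℤ)`; so the condition is
`ψ * ((P.eval (k : ℤ) : ℤ) : ZMod r) = 0`, i.e. `P.eval k • ψ = 0`, i.e. `(m : ℤ) ∣ P.eval k` (`addOrderOf_dvd_iff_zsmul_eq_zero`). The elements of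
`ZMod r` are the casts of `range r`; so the number of `k` is at most `C r m^(-e)` (`KA5_count`), and there are `r^(n+1)` values of `p`. -/
theorem KA6_prob (n : ℕ) (hn : 1 ≤ n) : ∃ C e : ℝ, 0 < C ∧ 0 < e ∧ e ≤ 1 ∧ ∀ (r : ℕ) [NeZero r] (ψ : ZMod r),
    ((univ.filter fun p : (Fin n → ZMod r) × ZMod r => ψ * DG (List.ofFn p.1) p.2 = 0).card : ℝ) ≤
      C * (r : ℝ) ^ (n + 1) * (addOrderOf ψ : ℝ) ^ (-e) := by
  have hd : 1 ≤ 2 ^ n - 1 := by
    have h : 2 ^ 1 ≤ 2 ^ n := Nat.pow_le_pow_right (by norm_num) hn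
    omega
  obtain ⟨C, e, hC, he, he1, hcount⟩ := KA5_count (2 ^ n - 1) hd _ (KA1_pos n)
  refine ⟨C, e, hC, he, he1, fun r _ ψ => ?_⟩
  have hr : (0 : ℝ) < r := by
    exact_mod_cast Nat.pos_of_ne_zero (NeZero.ne r)
  have h1 := ka6_avg (n := n) ψ
  have h2 : ((univ.filter fun p : (Fin n → ZMod r) × ZMod r => ψ * DG (List.ofFn p.1) p.2 = 0).card : ℝ) * r =
      ∑ p : (Fin n → ZMod r) × ZMod r,
        ((univ.filter fun κ : ZMod r => ψ * DG (List.ofFn fun i => p.1 i + κ) (p.2 + κ) = 0).card : ℝ) := by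
    exact_mod_cast h1
  have h3 : ∑ p : (Fin n → ZMod r) × ZMod r,
        ((univ.filter fun κ : ZMod r => ψ * DG (List.ofFn fun i => p.1 i + κ) (p.2 + κ) = 0).card : ℝ) ≤
      ∑ p : (Fin n → ZMod r) × ZMod r, C * r * (addOrderOf ψ : ℝ) ^ (-e) :=
    sum_le_sum fun p _ => ka6_fibre ψ p hcount
  rw [← h2, sum_const, card_univ, Fintype.card_prod, Fintype.card_fun, Fintype.card_fin, ZMod.card,
    nsmul_eq_mul] at h3
  push_cast at h3
  refine le_of_mul_le_mul_right (h3.trans (le_of_eq ?_)) hr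
  ring

end Pool.Agent.HUK
end

-- from Lib.HUK.KA7
section

/-!
# Project HUK, chunk KA7 (M): iterated differences of the phase `e(ψ y / (a r))`
-/

open Finset

namespace Pool.Agent.HUK

/-- The claim on iterated differences. -/
theorem ka7_claim {r : ℕ} [NeZero r] (ψ : ZMod r) (c : ZMod r × ZMod r → ℂ)
    (hc : ∀ z : ZMod r × ZMod r, c z = (if IsUnit z.2 then (1 : ℂ) else 0) *
      ZMod.stdAddChar (ψ * z.2⁻¹ * z.1)) (l : List (ZMod r × ZMod r)) :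
    ∃ (A : ZMod r → ℂ) (B : ZMod r → ZMod r),
      (∀ z : ZMod r × ZMod r, DL (l.map fun p => p.2 • ((-p.1, 1) : ZMod r × ZMod r)) c z =
        A z.2 * ZMod.stdAddChar (B z.2 * z.1)) ∧ (∀ a, ‖A a‖ ≤ 1) ∧
      ∀ a, A a ≠ 0 → B a * QG (l.map Prod.snd) a = ψ * DG (l.map Prod.snd) a := by
  classical
  induction l with
  | nil =>
    refine ⟨fun a => if IsUnit a then 1 else 0, fun a => ψ * a⁻¹, fun z => hc z, fun a => ?_,
      fun a ha => ?_⟩
    · change ‖(if IsUnit a then (1 : ℂ) else 0)‖ ≤ 1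
      split_ifs <;> simp
    · have hu : IsUnit a := by
        by_contra h
        exact ha (if_neg h)
      change ψ * a⁻¹ * a = ψ * 1
      rw [mul_assoc, ZMod.inv_mul_of_unit a hu]
  | cons p l ih =>
    obtain ⟨A, B, h1, h2, h3⟩ := ih
    obtain ⟨b, j⟩ := p
    refine ⟨fun a => A a * (starRingEnd ℂ) (A (a + j)) * ZMod.stdAddChar (B (a + j) * (j * b)),
      fun a => B a - B (a + j), fun z => ?_, fun a => ?_, fun a ha => ?_⟩
    · change DL (l.map fun p => p.2 • ((-p.1, 1) : ZMod r × ZMod r))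
        (DD (j • ((-b, 1) : ZMod r × ZMod r)) c) z = _
      rw [DL_DD]
      change DL (l.map fun p => p.2 • ((-p.1, 1) : ZMod r × ZMod r)) c z *
        (starRingEnd ℂ) (DL (l.map fun p => p.2 • ((-p.1, 1) : ZMod r × ZMod r)) c
          (z + j • ((-b, 1) : ZMod r × ZMod r))) = _
      rw [h1, h1]
      have h7 : ∀ u x : ZMod r, (starRingEnd ℂ) (A u * ZMod.stdAddChar x) =
          (starRingEnd ℂ) (A u) * ZMod.stdAddChar (-x) := by
        intro u x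
        rw [RingHom.map_mul, ← AddChar.map_neg_eq_conj]
      rw [h7]
      change _ = A z.2 * (starRingEnd ℂ) (A (z.2 + j)) * ZMod.stdAddChar (B (z.2 + j) * (j * b)) *
            ZMod.stdAddChar ((B z.2 - B (z.2 + j)) * z.1)
      have h4 : (z + j • ((-b, 1) : ZMod r × ZMod r)).2 = z.2 + j := by
        change z.2 + j * 1 = z.2 + j
        rw [mul_one]
      have h5 : (z + j • ((-b, 1) : ZMod r × ZMod r)).1 = z.1 + j * (-b) := rfl
      rw [h4, h5]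
      have h6 : (ZMod.stdAddChar (B z.2 * z.1) : ℂ) *
          ZMod.stdAddChar (-(B (z.2 + j) * (z.1 + j * (-b)))) =
          ZMod.stdAddChar (B (z.2 + j) * (j * b)) *
            ZMod.stdAddChar ((B z.2 - B (z.2 + j)) * z.1) := by
        rw [← AddChar.map_add_eq_mul, ← AddChar.map_add_eq_mul]
        congr 1
        ring
      calc A z.2 * ZMod.stdAddChar (B z.2 * z.1) * ((starRingEnd ℂ) (A (z.2 + j)) *
            ZMod.stdAddChar (-(B (z.2 + j) * (z.1 + j * (-b)))))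
          = A z.2 * (starRingEnd ℂ) (A (z.2 + j)) * ((ZMod.stdAddChar (B z.2 * z.1) : ℂ) *
            ZMod.stdAddChar (-(B (z.2 + j) * (z.1 + j * (-b))))) := by ring
        _ = A z.2 * (starRingEnd ℂ) (A (z.2 + j)) * ZMod.stdAddChar (B (z.2 + j) * (j * b)) *
            ZMod.stdAddChar ((B z.2 - B (z.2 + j)) * z.1) := by
            rw [h6]
            ring
    · change ‖A a * (starRingEnd ℂ) (A (a + j)) * ZMod.stdAddChar (B (a + j) * (j * b))‖ ≤ 1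
      rw [norm_mul, norm_mul, AddChar.norm_apply, mul_one, RCLike.norm_conj]
      exact mul_le_one₀ (h2 a) (norm_nonneg _) (h2 _)
    · have ha1 : A a ≠ 0 := by
        intro h
        apply ha
        change A a * _ * _ = 0
        rw [h, zero_mul, zero_mul]
      have ha2 : A (a + j) ≠ 0 := by
        intro h
        apply ha
        change _ * (starRingEnd ℂ) (A (a + j)) * _ = 0
        rw [h, map_zero, mul_zero, zero_mul]
      have h4 := h3 a ha1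
      have h5 := h3 (a + j) ha2
      change (B a - B (a + j)) * (QG (l.map Prod.snd) a * QG (l.map Prod.snd) (a + j)) =
        ψ * (DG (l.map Prod.snd) a * QG (l.map Prod.snd) (a + j) -
          DG (l.map Prod.snd) (a + j) * QG (l.map Prod.snd) a)
      linear_combination QG (l.map Prod.snd) (a + j) * h4 - QG (l.map Prod.snd) a * h5

open Classical in
/-- Proof. Let `c` be the function. CLAIM, by induction on a list `l` of pairs `(b, j)`: there are `A : ZMod r → ℂ`, `B : ZMod r → ZMod r` with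
`DL (l.map fun p => p.2 • ((-p.1, 1) : ZMod r × ZMod r)) c (y, a) = A a * stdAddChar (B a * y)` for all `y`, `a`, `‖A a‖ ≤ 1`, and `A a ≠ 0` implies
`B a * QG (l.map Prod.snd) a = ψ * DG (l.map Prod.snd) a`. Empty list: `A a = 1` if `a` is a unit, else `0`, `B a = ψ * a⁻¹`
(`ZMod.inv_mul_of_unit`). Step: `DL ((b,j) :: l) c = DD (j • (-b, 1)) (DL l c)` (`DL_DD` in `P0.lean`), whose value at `(y, a)` is
`A a e(B a y) conj (A (a+j) e(B (a+j) (y - j b))) = A' a * e((B a - B (a+j)) y)`, `A' a = A a * conj (A (a+j)) * e(B (a+j) * (j * b))`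
(`‖stdAddChar x‖ = 1`, `conj (stdAddChar x) = stdAddChar (-x)`: `AddChar.map_neg_eq_conj`), and
`(B a - B (a+j)) * (QG l a * QG l (a+j)) = (ψ DG l a) QG l (a+j) - (ψ DG l (a+j)) QG l a`. The statement: with `l = List.ofFn fun i => (b i, j i)`
(`List.map_ofFn`) the sum is `∑_a A a ∑_y stdAddChar (B a * y)`, the inner sum is `r` if `B a = 0` and `0` else
(`AddChar.sum_mulShift` with `ZMod.isPrimitive_stdAddChar`), and `A a ≠ 0`, `B a = 0` imply `ψ * DG (List.ofFn j) a = 0`. -/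
theorem KA7_phase {r : ℕ} [NeZero r] (n : ℕ) (b : Fin n → ZMod r) (ψ : ZMod r) (j : Fin n → ZMod r) :
    ‖∑ z : ZMod r × ZMod r, DL (List.ofFn fun i => j i • ((-(b i), 1) : ZMod r × ZMod r))
      (fun z : ZMod r × ZMod r => if IsUnit z.2 then (ZMod.stdAddChar (ψ * z.2⁻¹ * z.1) : ℂ) else 0) z‖ ≤
      r * ((univ.filter fun a : ZMod r => ψ * DG (List.ofFn j) a = 0).card : ℝ) := by
  obtain ⟨c, hc⟩ : ∃ c : ZMod r × ZMod r → ℂ, c = fun z : ZMod r × ZMod r =>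
      if IsUnit z.2 then (ZMod.stdAddChar (ψ * z.2⁻¹ * z.1) : ℂ) else 0 := ⟨_, rfl⟩
  obtain ⟨A, B, h1, h2, h3⟩ := ka7_claim ψ c (fun z => by
    rw [hc]
    by_cases h : IsUnit z.2
    · simp only [if_pos h, one_mul]
    · simp only [if_neg h, zero_mul]) (List.ofFn fun i => (b i, j i))
  rw [List.map_ofFn] at h1
  rw [List.map_ofFn] at h3
  rw [← hc]
  have h4 : ∑ z : ZMod r × ZMod r, DL (List.ofFn fun i => j i • ((-(b i), 1) : ZMod r × ZMod r)) c z =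
      ∑ a : ZMod r, A a * ∑ y : ZMod r, ZMod.stdAddChar (B a * y) := by
    rw [Fintype.sum_prod_type_right]
    refine Finset.sum_congr rfl fun a _ => ?_
    rw [Finset.mul_sum]
    exact Finset.sum_congr rfl fun y _ => h1 (y, a)
  rw [h4]
  refine le_trans (norm_sum_le _ _) ?_
  rw [Finset.natCast_card_filter, Finset.mul_sum]
  refine Finset.sum_le_sum fun a _ => ?_
  have h5 : ∑ y : ZMod r, (ZMod.stdAddChar (B a * y) : ℂ) = if B a = 0 then (r : ℂ) else 0 := by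
    have h6 := AddChar.sum_mulShift (B a) (ZMod.isPrimitive_stdAddChar r)
    rw [ZMod.card] at h6
    rw [← Finset.sum_congr rfl fun y _ => congrArg ZMod.stdAddChar (mul_comm y (B a)), h6]
    split_ifs <;> simp
  rw [h5, norm_mul]
  by_cases hA : A a = 0
  · rw [hA, norm_zero, zero_mul]
    positivity
  · by_cases hB : B a = 0
    · have h7 : ψ * DG (List.ofFn j) a = 0 := by
        have h8 := h3 a hA
        rw [hB, zero_mul] at h8
        exact h8.symm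
      rw [if_pos hB, if_pos h7, mul_one]
      have h9 : ‖(r : ℂ)‖ = r := by simp
      rw [h9]
      calc ‖A a‖ * r ≤ 1 * r := mul_le_mul_of_nonneg_right (h2 a) (Nat.cast_nonneg r)
        _ = r := one_mul _
    · rw [if_neg hB, norm_zero, mul_zero]
      positivity

end Pool.Agent.HUK
end

-- from Lib.HUK.KA8
section

/-!
# Project HUK, chunk KA8 (M/L): Fourier coefficients of the differences of a character
-/

open Finset

namespace Pool.Agent.HUK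

/-- The vertices of the cube of dimension `s + 1`: for `u` of absolute value `1` the factors cancel. Proof. `cj (sg ω) u` is `u` or `conj u = u⁻¹`
according to the parity of `sg ω`; pair `Fin.cons false ω` with `Fin.cons true ω` (`Fin.consEquiv`, `p0_sg_cons` in `P0.lean`), the product of a pair is
`u conj u = 1`. -/
theorem KA8_one (s : ℕ) (u : ℂ) (hu : ‖u‖ = 1) : ∏ ω : Fin (s + 1) → Bool, cj (sg ω) u = 1 := by
  rw [← (Fin.consEquiv fun _ : Fin (s + 1) => Bool).prod_comp, Fintype.prod_prod_type,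
    Fintype.prod_bool, ← Finset.prod_mul_distrib]
  refine Finset.prod_eq_one fun ω _ => ?_
  change cj (sg (Fin.cons true ω : Fin (s + 1) → Bool)) u *
    cj (sg (Fin.cons false ω : Fin (s + 1) → Bool)) u = 1
  rw [p0_sg_cons, p0_sg_cons]
  simp only [if_true, Bool.false_eq_true, if_false, add_zero]
  rw [← p0_cj_conj, ← p0_cj_mul, mul_comm, Complex.mul_conj, Complex.normSq_eq_norm_sq, hu]
  unfold cj
  split_ifs <;> simp

theorem ka8_vt {r : ℕ} {s : ℕ} (ω : Fin s → Bool) (t : Fin s → ZMod r) (a : ZMod r) :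
    vt ω (fun i => a * t i) = a * vt ω t := by
  unfold vt
  rw [Finset.mul_sum]
  refine Finset.sum_congr rfl fun i _ => ?_
  split_ifs
  · rfl
  · rw [mul_zero]

/-- Proof. Let `a` be the class of the unit. `DL_prod` (`P0.lean`): both sides are products over the vertices;
`χ (a y + vt ω (a t)) = χ a * χ (y + vt ω t)`, `cj n (u v) = cj n u * cj n v`, `‖χ a‖ = 1` for a unit (`DirichletCharacter.unit_norm_eq_one`), `KA8_one`. -/
theorem KA8_dil {r : ℕ} [NeZero r] (s : ℕ) (χ : DirichletCharacter ℂ r) (t : Fin (s + 1) → ZMod r) (a y : ZMod r)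
    (ha : IsUnit a) : DL (List.ofFn fun i => a * t i) (fun y => χ y) (a * y) = DL (List.ofFn t) (fun y => χ y) y := by
  rw [DL_prod, DL_prod]
  have h1 : ∀ ω : Fin (s + 1) → Bool, cj (sg ω) (χ (a * y + vt ω fun i => a * t i)) =
      cj (sg ω) (χ a) * cj (sg ω) (χ (y + vt ω t)) := by
    intro ω
    rw [← p0_cj_mul, ← map_mul]
    congr 2
    rw [mul_add, ka8_vt]
  rw [Finset.prod_congr rfl fun ω _ => h1 ω, Finset.prod_mul_distrib]
  have h2 : ‖χ a‖ = 1 := by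
    obtain ⟨u, rfl⟩ := ha
    exact χ.unit_norm_eq_one u
  rw [KA8_one s (χ a) h2, one_mul]

theorem ka8_inner {r : ℕ} [NeZero r] (s : ℕ) (χ : DirichletCharacter ℂ r)
    (t : Fin (s + 1) → ZMod r) (ψ a : ZMod r) (ha : IsUnit a) :
    ∑ y, DL (List.ofFn fun i => a * t i) (fun y => χ y) y * ZMod.stdAddChar ((-ψ) * a⁻¹ * y) =
      (r : ℂ) * ft (DL (List.ofFn t) fun y => χ y) ψ := by
  have hr : (r : ℂ) ≠ 0 := Nat.cast_ne_zero.2 (NeZero.ne r)
  have hinv := ZMod.inv_mul_of_unit a ha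
  obtain ⟨u, hu⟩ := ha
  rw [ft, mul_comm (r : ℂ), div_mul_cancel₀ _ hr, ← Equiv.sum_comp (Units.mulLeft u)]
  refine Finset.sum_congr rfl fun x _ => ?_
  rw [Units.mulLeft_apply, hu, KA8_dil s χ t a x ⟨u, hu⟩]
  congr 2
  calc (-ψ) * a⁻¹ * (a * x) = (-ψ) * (a⁻¹ * a) * x := by ring
    _ = -(ψ * x) := by rw [hinv]; ring

theorem ka8_units {r : ℕ} [NeZero r] (K : ℂ) (F : ZMod r → ℂ) (h1 : ∀ a, IsUnit a → F a = K)
    (h2 : ∀ a, ¬ IsUnit a → F a = 0) : ∑ a, F a = (Nat.totient r : ℂ) * K := by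
  have h3 := MulChar.sum_one_eq_card_units (R := ZMod r) (R' := ℂ)
  rw [ZMod.card_units_eq_totient] at h3
  rw [← h3, Finset.sum_mul]
  refine Finset.sum_congr rfl fun a _ => ?_
  by_cases h : IsUnit a
  · rw [h1 a h, MulChar.one_apply h, one_mul]
  · rw [h2 a h, MulChar.map_nonunit _ h, zero_mul]

theorem ka8_cj_norm (n : ℕ) (z : ℂ) : ‖cj n z‖ = ‖z‖ := by
  unfold cj
  split_ifs
  · rfl
  · exact RCLike.norm_conj z

open Classical in
theorem ka8_key (s : ℕ) {r : ℕ} [NeZero r] (χ : DirichletCharacter ℂ r)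
    (t : Fin (s + 1) → ZMod r) (ψ : ZMod r) (n : ℕ) (hn : n = 2 ^ (s + 1)) :
    (‖ft (DL (List.ofFn t) fun y => χ y) ψ‖ * ((Nat.totient r : ℝ) / r)) ^ (2 ^ n) ≤
      (2 : ℝ) ^ (2 ^ n + n) / (r : ℝ) ^ (n + 1) *
        ((univ.filter fun p : (Fin n → ZMod r) × ZMod r =>
          (-ψ) * DG (List.ofFn p.1) p.2 = 0).card : ℝ) := by
  have hr : (0 : ℝ) < r := Nat.cast_pos.2 (Nat.pos_of_ne_zero (NeZero.ne r))
  obtain ⟨σ⟩ : Nonempty (Fin n ≃ (Fin (s + 1) → Bool)) := by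
    refine ⟨(Fintype.equivFinOfCardEq ?_).symm⟩
    rw [Fintype.card_fun, Fintype.card_bool, Fintype.card_fin, hn]
  obtain ⟨g, hg⟩ : ∃ g : Fin n → ZMod r × ZMod r → ℂ, ∀ i z, g i z =
      cj (sg (σ i)) (χ (z.1 + z.2 * vt (σ i) t)) := ⟨_, fun _ _ => rfl⟩
  obtain ⟨c, hc⟩ : ∃ c : ZMod r × ZMod r → ℂ, c = fun z : ZMod r × ZMod r =>
      if IsUnit z.2 then (ZMod.stdAddChar ((-ψ) * z.2⁻¹ * z.1) : ℂ) else 0 := ⟨_, rfl⟩
  have hE := KA0_elim (q := r) (Z := ZMod r × ZMod r) n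
    (fun i => ((-(vt (σ i) t), 1) : ZMod r × ZMod r)) g c
    (fun i z => by
      rw [hg, ka8_cj_norm]
      exact χ.norm_le_one _)
    (fun i z => by
      rw [hg, hg]
      congr 2
      change z.1 + -(vt (σ i) t) + (z.2 + 1) * vt (σ i) t = z.1 + z.2 * vt (σ i) t
      ring)
  have hprod : ∀ z : ZMod r × ZMod r, ∏ i, g i z =
      DL (List.ofFn fun i => z.2 * t i) (fun y => χ y) z.1 := by
    intro z
    rw [DL_prod, Finset.prod_congr rfl fun i _ => hg i z]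
    rw [Equiv.prod_comp σ (fun ω => cj (sg ω) (χ (z.1 + z.2 * vt ω t)))]
    refine Finset.prod_congr rfl fun ω _ => ?_
    rw [ka8_vt]
  have htot : ∑ z, (∏ i, g i z) * c z =
      (Nat.totient r : ℂ) * ((r : ℂ) * ft (DL (List.ofFn t) fun y => χ y) ψ) := by
    rw [Fintype.sum_prod_type_right]
    refine ka8_units _ _ (fun a ha => ?_) (fun a ha => ?_)
    · rw [← ka8_inner s χ t ψ a ha]
      refine Finset.sum_congr rfl fun y _ => ?_
      rw [hprod, hc]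
      change DL (List.ofFn fun i => a * t i) (fun y => χ y) y *
        (if IsUnit a then (ZMod.stdAddChar ((-ψ) * a⁻¹ * y) : ℂ) else 0) = _
      rw [if_pos ha]
    · refine Finset.sum_eq_zero fun y _ => ?_
      rw [hc]
      change (∏ i, g i (y, a)) *
        (if IsUnit a then (ZMod.stdAddChar ((-ψ) * a⁻¹ * y) : ℂ) else 0) = 0
      rw [if_neg ha, mul_zero]
  have hcard : (Fintype.card (ZMod r × ZMod r) : ℝ) = (r : ℝ) ^ 2 := by
    rw [Fintype.card_prod, ZMod.card]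
    push_cast
    ring
  rw [htot, hcard] at hE
  have hT : ‖(Nat.totient r : ℂ) * ((r : ℂ) * ft (DL (List.ofFn t) fun y => χ y) ψ)‖ / (r : ℝ) ^ 2 =
      ‖ft (DL (List.ofFn t) fun y => χ y) ψ‖ * ((Nat.totient r : ℝ) / r) := by
    rw [norm_mul, norm_mul, Complex.norm_natCast, Complex.norm_natCast]
    field_simp
  rw [hT] at hE
  refine le_trans hE ?_
  have hsum : ∑ j : Fin n → ZMod r, ‖∑ z, DL (List.ofFn fun i => j i •
      ((-(vt (σ i) t), 1) : ZMod r × ZMod r)) c z‖ / (r : ℝ) ^ 2 ≤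
      ((univ.filter fun p : (Fin n → ZMod r) × ZMod r =>
          (-ψ) * DG (List.ofFn p.1) p.2 = 0).card : ℝ) / r := by
    rw [Finset.natCast_card_filter, Fintype.sum_prod_type, Finset.sum_div]
    refine Finset.sum_le_sum fun j _ => ?_
    have h7 := KA7_phase n (fun i => vt (σ i) t) (-ψ) j
    rw [← hc, Finset.natCast_card_filter] at h7
    calc ‖∑ z, DL (List.ofFn fun i => j i • ((-(vt (σ i) t), 1) : ZMod r × ZMod r)) c z‖ /
          (r : ℝ) ^ 2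
        ≤ (r * ∑ a : ZMod r, if (-ψ) * DG (List.ofFn j) a = 0 then (1 : ℝ) else 0) / (r : ℝ) ^ 2 :=
          div_le_div_of_nonneg_right h7 (by positivity)
      _ = (∑ a : ZMod r, if (-ψ) * DG (List.ofFn j) a = 0 then (1 : ℝ) else 0) / r := by
          field_simp
  calc (2 : ℝ) ^ (2 ^ n + n) / (r : ℝ) ^ n * ∑ j : Fin n → ZMod r,
        ‖∑ z, DL (List.ofFn fun i => j i • ((-(vt (σ i) t), 1) : ZMod r × ZMod r)) c z‖ /
          (r : ℝ) ^ 2
      ≤ (2 : ℝ) ^ (2 ^ n + n) / (r : ℝ) ^ n *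
        (((univ.filter fun p : (Fin n → ZMod r) × ZMod r =>
          (-ψ) * DG (List.ofFn p.1) p.2 = 0).card : ℝ) / r) :=
        mul_le_mul_of_nonneg_left hsum (by positivity)
    _ = (2 : ℝ) ^ (2 ^ n + n) / (r : ℝ) ^ (n + 1) *
        ((univ.filter fun p : (Fin n → ZMod r) × ZMod r =>
          (-ψ) * DG (List.ofFn p.1) p.2 = 0).card : ℝ) := by
        rw [pow_succ (r : ℝ) n]
        field_simp

/-- Proof. Let `n = 2^(s+1)`, `σ : Fin n ≃ (Fin (s+1) → Bool)` (`Fintype.equivFinOfCardEq`), `Z = ZMod r × ZMod r`, `F = DL (List.ofFn t) χ`,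
`c (y, a) = stdAddChar ((-ψ) * a⁻¹ * y)` for a unit `a`, `0` else, `g i (y, a) = cj (sg ω) (χ (y + a * vt ω t))` with `ω = σ i`, and
`v i = (-(vt ω t), 1)`; `g i (z + v i) = g i z`, `‖g i z‖ ≤ 1`. For a unit `a` (substitution `y = a x`, `KA8_dil`, `a⁻¹ * (a * x) = x`):
`r * ft F ψ = ∑_x F x stdAddChar (-(ψ x)) = ∑_y DL (List.ofFn fun i => a * t i) χ y * c (y, a)`, and `DL (..) χ y = ∏ i, g i (y, a)` (`DL_prod`,
`vt ω (a t) = a * vt ω t`, `Equiv.prod_comp`). The number of units is `φ(r)` (`ZMod.card_units_eq_totient`), so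
`φ(r) * r * ft F ψ = ∑_z (∏ i, g i z) * c z`, i.e. `‖ft F ψ‖ φ(r) / r = ‖∑_z ..‖ / r^2`. `KA0_elim` (`q = r`, `n` functions) and `KA7_phase`
(for `-ψ`): `(..)^(2^n) ≤ 2^(2^n + n) / r^n * ∑_j r * #{a | (-ψ) * DG (List.ofFn j) a = 0} / r^2 = 2^(2^n + n) / r^(n+1) * #{(j, a)}`, at most
`2^(2^n + n) * C * (addOrderOf (-ψ))^(-e)` by `KA6_prob` (`n ≥ 1`), `addOrderOf_neg`. Take the root of order `2^n`. -/
theorem KA8_ft (s : ℕ) : ∃ C e : ℝ, 0 < C ∧ 0 < e ∧ e ≤ 1 ∧ ∀ (r : ℕ) [NeZero r] (χ : DirichletCharacter ℂ r)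
    (t : Fin (s + 1) → ZMod r) (ψ : ZMod r),
    ‖ft (DL (List.ofFn t) fun y => χ y) ψ‖ * ((Nat.totient r : ℝ) / r) ≤ C * (addOrderOf ψ : ℝ) ^ (-e) := by
  have hn : 1 ≤ 2 ^ (s + 1) := Nat.one_le_two_pow
  obtain ⟨C0, e0, hC0, he0, he1, hprob⟩ := KA6_prob (2 ^ (s + 1)) hn
  obtain ⟨n, hnd⟩ : ∃ n : ℕ, n = 2 ^ (s + 1) := ⟨_, rfl⟩
  rw [← hnd] at hprob
  have hN0 : (0 : ℝ) < (2 : ℝ) ^ n := by positivity
  have hN1 : (1 : ℝ) ≤ (2 : ℝ) ^ n := one_le_pow₀ (by norm_num)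
  refine ⟨((2 : ℝ) ^ (2 ^ n + n) * C0) ^ (1 / (2 : ℝ) ^ n), e0 / (2 : ℝ) ^ n, by positivity,
    by positivity, ?_, ?_⟩
  · rw [div_le_one hN0]
    linarith
  · intro r _ χ t ψ
    have hr : (0 : ℝ) < r := Nat.cast_pos.2 (Nat.pos_of_ne_zero (NeZero.ne r))
    have hkey := ka8_key s χ t ψ n hnd
    have h1 : ((univ.filter fun p : (Fin n → ZMod r) × ZMod r =>
        (-ψ) * DG (List.ofFn p.1) p.2 = 0).card : ℝ) ≤
        C0 * (r : ℝ) ^ (n + 1) * (addOrderOf ψ : ℝ) ^ (-e0) := by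
      have h2 := hprob r (-ψ)
      rw [addOrderOf_neg] at h2
      exact h2
    obtain ⟨T, hT⟩ : ∃ T : ℝ, T = ‖ft (DL (List.ofFn t) fun y => χ y) ψ‖ *
      ((Nat.totient r : ℝ) / r) := ⟨_, rfl⟩
    have hT0 : 0 ≤ T := by rw [hT]; positivity
    rw [← hT] at hkey ⊢
    have hord : (0 : ℝ) < addOrderOf ψ := Nat.cast_pos.2 (addOrderOf_pos ψ)
    have h3 : T ^ (2 ^ n) ≤ (2 : ℝ) ^ (2 ^ n + n) * C0 * (addOrderOf ψ : ℝ) ^ (-e0) := by
      refine le_trans hkey ?_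
      calc (2 : ℝ) ^ (2 ^ n + n) / (r : ℝ) ^ (n + 1) *
            ((univ.filter fun p : (Fin n → ZMod r) × ZMod r =>
              (-ψ) * DG (List.ofFn p.1) p.2 = 0).card : ℝ)
          ≤ (2 : ℝ) ^ (2 ^ n + n) / (r : ℝ) ^ (n + 1) *
            (C0 * (r : ℝ) ^ (n + 1) * (addOrderOf ψ : ℝ) ^ (-e0)) :=
            mul_le_mul_of_nonneg_left h1 (by positivity)
        _ = (2 : ℝ) ^ (2 ^ n + n) * C0 * (addOrderOf ψ : ℝ) ^ (-e0) := by
            field_simp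
    have h4 : T = (T ^ (2 ^ n)) ^ (1 / (2 : ℝ) ^ n) := by
      rw [← Real.rpow_natCast T (2 ^ n), ← Real.rpow_mul hT0]
      push_cast
      rw [mul_one_div_cancel hN0.ne', Real.rpow_one]
    rw [h4]
    calc (T ^ (2 ^ n)) ^ (1 / (2 : ℝ) ^ n)
        ≤ ((2 : ℝ) ^ (2 ^ n + n) * C0 * (addOrderOf ψ : ℝ) ^ (-e0)) ^ (1 / (2 : ℝ) ^ n) :=
          Real.rpow_le_rpow (by positivity) h3 (by positivity)
      _ = ((2 : ℝ) ^ (2 ^ n + n) * C0) ^ (1 / (2 : ℝ) ^ n) *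
          (addOrderOf ψ : ℝ) ^ (-(e0 / (2 : ℝ) ^ n)) := by
          rw [Real.mul_rpow (by positivity) (by positivity), ← Real.rpow_mul hord.le]
          congr 2
          ring

end Pool.Agent.HUK
end

-- from Lib.HUK.KA11
section

/-!
# Project HUK, chunk KA11 (M): Fourier coefficients of a primitive character; the totient; elements of small order
-/

open Finset

namespace Pool.Agent.HUK

theorem ka11_inv {r : ℕ} [NeZero r] (χ : DirichletCharacter ℂ r) (x : ZMod r) : ‖χ⁻¹ x‖ = ‖χ x‖ := by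
  by_cases hx : IsUnit x
  · obtain ⟨u, rfl⟩ := hx
    rw [DirichletCharacter.unit_norm_eq_one, DirichletCharacter.unit_norm_eq_one]
  · rw [MulChar.map_nonunit _ hx, MulChar.map_nonunit _ hx]

/-- Proof. `gaussSum_mulShift_of_isPrimitive` (Mathlib): `∑_y χ y stdAddChar (a y) = χ⁻¹ a * τ`, `τ = gaussSum χ stdAddChar`; so
`ft χ x = χ⁻¹ (-x) τ / r`, of absolute value at most `‖τ‖ / r`, with equality if `x` is a unit. `KA9_parseval`: the sum of the squares is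
`(number of units) / r = φ(r) / r`, and it is `φ(r) ‖τ‖² / r²`; so `‖τ‖² = r`. -/
theorem KA11_gauss {r : ℕ} [NeZero r] (χ : DirichletCharacter ℂ r) (hχ : χ.IsPrimitive) (x : ZMod r) :
    ‖ft (fun y => χ y) x‖ ^ 2 ≤ 1 / r := by
  have hr : (0 : ℝ) < r := Nat.cast_pos.mpr (Nat.pos_of_ne_zero (NeZero.ne r))
  obtain ⟨τ, hτ⟩ : ∃ τ, τ = gaussSum χ (ZMod.stdAddChar (N := r)) := ⟨_, rfl⟩
  have hft : ∀ x : ZMod r, ‖ft (fun y => χ y) x‖ ^ 2 = ‖χ (-x)‖ ^ 2 * (‖τ‖ ^ 2 / (r : ℝ) ^ 2) := by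
    intro x
    have h1 : ∑ y : ZMod r, χ y * ZMod.stdAddChar (-(x * y)) = χ⁻¹ (-x) * τ := by
      rw [hτ, ← gaussSum_mulShift_of_isPrimitive _ hχ (-x)]
      unfold gaussSum
      refine Finset.sum_congr rfl fun y _ => ?_
      rw [AddChar.mulShift_apply, neg_mul]
    unfold ft
    rw [h1, norm_div, norm_mul, Complex.norm_natCast, ka11_inv]
    ring
  have hpar := KA9_parseval (fun y : ZMod r => χ y)
  rw [Finset.sum_congr rfl fun x _ => hft x, ← Finset.sum_mul] at hpar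
  have hneg : ∑ x : ZMod r, ‖χ (-x)‖ ^ 2 = ∑ x : ZMod r, ‖χ x‖ ^ 2 :=
    Equiv.sum_comp (Equiv.neg (ZMod r)) (fun x => ‖χ x‖ ^ 2)
  rw [hneg] at hpar
  have hS : 0 < ∑ x : ZMod r, ‖χ x‖ ^ 2 := by
    refine lt_of_lt_of_le ?_ (Finset.single_le_sum (f := fun x : ZMod r => ‖χ x‖ ^ 2) (fun x _ => by positivity) (Finset.mem_univ (1 : ZMod r)))
    simp only [map_one, norm_one]
    norm_num
  have hτ2 : ‖τ‖ ^ 2 / (r : ℝ) ^ 2 = 1 / r := by
    have h2 : (∑ x : ZMod r, ‖χ x‖ ^ 2) * (‖τ‖ ^ 2 / (r : ℝ) ^ 2) = (∑ x : ZMod r, ‖χ x‖ ^ 2) * (1 / r) := by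
      rw [hpar]
      ring
    exact mul_left_cancel₀ hS.ne' h2
  rw [hft x, hτ2]
  have h3 : ‖χ (-x)‖ ≤ 1 := DirichletCharacter.norm_le_one χ _
  have h4 : ‖χ (-x)‖ ^ 2 ≤ 1 := pow_le_one₀ (norm_nonneg _) h3
  exact mul_le_of_le_one_left (by positivity) h4

/-- Proof. `n ≤ φ(n) d(n)` for `n ≥ 1` (`Nat.recOnPosPrimePosCoprime`: for a prime power `p^a`, `a ≥ 1`:
`p^(a-1) (p-1) (a+1) ≥ p^(a-1) (p-1) 2 ≥ p^a`; both functions are multiplicative), and `divisor_bound`. -/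
theorem KA11_tot (ε : ℝ) (hε : 0 < ε) : ∃ C : ℝ, 0 < C ∧ ∀ r : ℕ, 1 ≤ r → (r : ℝ) / (Nat.totient r : ℝ) ≤ C * (r : ℝ) ^ ε := by
  obtain ⟨C, hC, h⟩ := Pool.Agent.Lib.H21AP.divisor_bound hε
  refine ⟨C, hC, fun r hr => ?_⟩
  have hφ : 0 < Nat.totient r := Nat.totient_pos.mpr (by omega)
  have hφ' : (0 : ℝ) < Nat.totient r := by exact_mod_cast hφ
  refine le_trans ?_ (h r hr)
  rw [div_le_iff₀ hφ']
  have h1 : r ≤ r.divisors.card * Nat.totient r := by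
    calc r = ∑ m ∈ r.divisors, Nat.totient m := (Nat.sum_totient r).symm
      _ ≤ ∑ m ∈ r.divisors, Nat.totient r := Finset.sum_le_sum fun m hm =>
          Nat.le_of_dvd hφ (Nat.totient_dvd_of_dvd (Nat.dvd_of_mem_divisors hm))
      _ = r.divisors.card * Nat.totient r := by rw [Finset.sum_const, smul_eq_mul]
  exact_mod_cast h1

/-- Proof. `addOrderOf x ≤ B` implies `addOrderOf x = m` for some `1 ≤ m ≤ ⌊B⌋₊`; for each `m` with `1 ≤ m` there are at most `m` elements `x` with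
`m • x = 0` in the cyclic group `ZMod r` (`IsAddCyclic.card_nsmul_eq_zero_le` or `card_addOrderOf_eq_totient`), and `∑_{m ≤ M} m ≤ M²`. -/
theorem KA11_ord {r : ℕ} [NeZero r] (B : ℝ) (hB : 0 ≤ B) :
    ((univ.filter fun x : ZMod r => (addOrderOf x : ℝ) ≤ B).card : ℝ) ≤ B ^ 2 := by
  classical
  obtain ⟨M, hM⟩ : ∃ M, M = ⌊B⌋₊ := ⟨_, rfl⟩
  have hsub : (univ.filter fun x : ZMod r => (addOrderOf x : ℝ) ≤ B) ⊆
      (Icc 1 M).biUnion fun m => univ.filter fun x : ZMod r => m • x = 0 := by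
    intro x hx
    rw [mem_filter] at hx
    rw [mem_biUnion]
    refine ⟨addOrderOf x, ?_, ?_⟩
    · rw [mem_Icc]
      exact ⟨addOrderOf_pos x, by rw [hM]; exact Nat.le_floor hx.2⟩
    · rw [mem_filter]
      exact ⟨mem_univ _, addOrderOf_nsmul_eq_zero x⟩
  have h1 : (univ.filter fun x : ZMod r => (addOrderOf x : ℝ) ≤ B).card ≤ M ^ 2 := by
    calc (univ.filter fun x : ZMod r => (addOrderOf x : ℝ) ≤ B).card ≤
          ((Icc 1 M).biUnion fun m => univ.filter fun x : ZMod r => m • x = 0).card := Finset.card_le_card hsub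
      _ ≤ ∑ m ∈ Icc 1 M, (univ.filter fun x : ZMod r => m • x = 0).card := Finset.card_biUnion_le
      _ ≤ ∑ m ∈ Icc 1 M, M := Finset.sum_le_sum fun m hm => by
          rw [mem_Icc] at hm
          exact (IsAddCyclic.card_nsmul_eq_zero_le (by omega)).trans hm.2
      _ = M ^ 2 := by rw [Finset.sum_const, Nat.card_Icc, smul_eq_mul, Nat.add_sub_cancel, pow_two]
  have h2 : (M : ℝ) ≤ B := by rw [hM]; exact Nat.floor_le hB
  calc ((univ.filter fun x : ZMod r => (addOrderOf x : ℝ) ≤ B).card : ℝ) ≤ ((M ^ 2 : ℕ) : ℝ) := Nat.cast_le.mpr h1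
    _ = (M : ℝ) ^ 2 := by push_cast; rfl
    _ ≤ B ^ 2 := pow_le_pow_left₀ (by positivity) h2 2

end Pool.Agent.HUK
end

-- from Lib.HUK.KA13
section

/-!
# Project HUK, chunk KA13 (M): the Gowers norms of primitive characters are small
-/

open Finset

namespace Pool.Agent.HUK

theorem ka13_sq {r : ℕ} [NeZero r] (f : ZMod r → ℂ) (hf : ∀ y, ‖f y‖ ≤ 1) : ∑ x, ‖ft f x‖ ^ 2 ≤ 1 := by
  have hr : (0 : ℝ) < r := by exact_mod_cast Nat.pos_of_ne_zero (NeZero.ne r)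
  rw [KA9_parseval, div_le_one hr]
  calc ∑ y, ‖f y‖ ^ 2 ≤ ∑ y : ZMod r, (1 : ℝ) := sum_le_sum fun y _ => pow_le_one₀ (norm_nonneg _) (hf y)
    _ = r := by simp [ZMod.card]

theorem ka13_one {r : ℕ} [NeZero r] (f : ZMod r → ℂ) (hf : ∀ y, ‖f y‖ ≤ 1) (x : ZMod r) : ‖ft f x‖ ^ 2 ≤ 1 :=
  (single_le_sum (f := fun x => ‖ft f x‖ ^ 2) (fun _ _ => by positivity) (mem_univ x)).trans (ka13_sq f hf)

theorem ka13_t {r : ℕ} [NeZero r] (f : ZMod r → ℂ) (hf : ∀ y, ‖f y‖ ≤ 1) (B M : ℝ)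
    (hM : ∀ x : ZMod r, B < (addOrderOf x : ℝ) → ‖ft f x‖ ^ 2 ≤ M) (hM0 : 0 ≤ M) :
    ∑ x, ‖ft f x‖ ^ 4 ≤ M + ∑ x ∈ univ.filter (fun x : ZMod r => (addOrderOf x : ℝ) ≤ B), ‖ft f x‖ ^ 2 := by
  rw [← Finset.sum_filter_add_sum_filter_not univ (fun x : ZMod r => (addOrderOf x : ℝ) ≤ B), add_comm]
  refine add_le_add ?_ ?_
  · calc ∑ x ∈ univ.filter (fun x : ZMod r => ¬ (addOrderOf x : ℝ) ≤ B), ‖ft f x‖ ^ 4 ≤
          ∑ x ∈ univ.filter (fun x : ZMod r => ¬ (addOrderOf x : ℝ) ≤ B), M * ‖ft f x‖ ^ 2 := by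
          refine sum_le_sum fun x hx => ?_
          have h1 := hM x (not_le.1 (mem_filter.1 hx).2)
          have h2 : ‖ft f x‖ ^ 4 = ‖ft f x‖ ^ 2 * ‖ft f x‖ ^ 2 := by ring
          rw [h2]
          exact mul_le_mul_of_nonneg_right h1 (by positivity)
      _ ≤ ∑ x, M * ‖ft f x‖ ^ 2 := sum_le_sum_of_subset_of_nonneg (filter_subset _ _) fun x _ _ => by positivity
      _ = M * ∑ x, ‖ft f x‖ ^ 2 := by rw [Finset.mul_sum]
      _ ≤ M * 1 := mul_le_mul_of_nonneg_left (ka13_sq f hf) hM0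
      _ = M := mul_one _
  · refine sum_le_sum fun x _ => ?_
    have h1 := ka13_one f hf x
    have h2 : ‖ft f x‖ ^ 4 = ‖ft f x‖ ^ 2 * ‖ft f x‖ ^ 2 := by ring
    rw [h2]
    exact mul_le_of_le_one_left (by positivity) h1

/-- Proof by induction on `s`. `s = 0`: `KA10_four` (`s = 0`, one `t`, `DL [] f = f`): `uG 2 χ = ∑_x ‖ft χ x‖⁴ ≤ (1/r) ∑_x ‖ft χ x‖² ≤ 1/r`
(`KA11_gauss`, `KA9_parseval`, `‖χ y‖ ≤ 1`); `C = e = 1`. Step: `C'`, `e'` for `s`; `C1`, `e1` from `KA8_ft s`; `ε = e1 e' / 8`,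
`C2` from `KA11_tot ε`; `B = r^(e'/4) ≥ 1`. `KA10_four`: `uG (s+3) χ = r^(-(s+1)) ∑_{t : Fin (s+1) → ZMod r} ∑_x ‖ft (D_t χ) x‖⁴`. Terms with
`addOrderOf x > B`: `‖ft‖² ≤ (r/φ(r))² C1² B^(-2 e1)` (`KA8_ft`), the sum over `x` of `‖ft‖²` is at most `1` (`KA9_parseval`, `‖D_t χ‖ ≤ 1`,
`DL_norm` in `P0.lean`), total at most `C2² r^(2ε) C1² r^(-e1 e'/2) = (C1 C2)² r^(-e1 e'/4)`. Terms with `addOrderOf x ≤ B`: at most `B²` values of `x`
(`KA11_ord`), `‖ft‖⁴ ≤ ‖ft‖²` (`‖ft‖ ≤ 1`), the average over `t` is at most `uG (s+2) χ ≤ C' r^(-e')` (`KA10_le`), total at most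
`B² C' r^(-e') = C' r^(-e'/2)`. So `e = e1 e' / 4`, `C = (C1 C2)² + C'`. -/
theorem KA13_u (s : ℕ) : ∃ C e : ℝ, 0 < C ∧ 0 < e ∧ e ≤ 1 ∧ ∀ (r : ℕ) [NeZero r] (χ : DirichletCharacter ℂ r),
    χ.IsPrimitive → uG (s + 2) (fun y => χ y) ≤ C * (r : ℝ) ^ (-e) := by
  induction s with
  | zero =>
    refine ⟨1, 1, one_pos, one_pos, le_refl _, fun r _ χ hχ => ?_⟩
    have hr : (0 : ℝ) < r := by exact_mod_cast Nat.pos_of_ne_zero (NeZero.ne r)
    have hχn : ∀ y, ‖χ y‖ ≤ 1 := fun y => χ.norm_le_one y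
    rw [KA10_four, pow_zero, div_one, Fintype.sum_unique, one_mul, Real.rpow_neg_one]
    have h0 : ∀ t : Fin 0 → ZMod r, DL (List.ofFn t) (fun y => χ y) = fun y => χ y := by
      intro t
      rw [List.ofFn_zero]
      rfl
    rw [h0]
    calc ∑ x, ‖ft (fun y => χ y) x‖ ^ 4 ≤ ∑ x, (1 / (r : ℝ)) * ‖ft (fun y => χ y) x‖ ^ 2 := by
          refine sum_le_sum fun x _ => ?_
          have h1 := KA11_gauss χ hχ x
          have h2 : ‖ft (fun y => χ y) x‖ ^ 4 = ‖ft (fun y => χ y) x‖ ^ 2 * ‖ft (fun y => χ y) x‖ ^ 2 := by ring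
          rw [h2]
          exact mul_le_mul_of_nonneg_right h1 (by positivity)
      _ = 1 / (r : ℝ) * ∑ x, ‖ft (fun y => χ y) x‖ ^ 2 := by rw [Finset.mul_sum]
      _ ≤ 1 / (r : ℝ) * 1 := mul_le_mul_of_nonneg_left (ka13_sq _ hχn) (by positivity)
      _ = (r : ℝ)⁻¹ := by rw [mul_one, one_div]
  | succ s ih =>
    obtain ⟨C', e', hC', he', he'1, h'⟩ := ih
    obtain ⟨C1, e1, hC1, he1, he11, h1⟩ := KA8_ft s
    obtain ⟨C2, hC2, h2⟩ := KA11_tot (e1 * e' / 8) (by positivity)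
    have hee : e1 * e' ≤ e' := mul_le_of_le_one_left he'.le he11
    refine ⟨(C1 * C2) ^ 2 + C', e1 * e' / 4, by positivity, by positivity, by linarith, fun r _ χ hχ => ?_⟩
    have hr1 : 1 ≤ r := Nat.pos_of_ne_zero (NeZero.ne r)
    have hrr : (1 : ℝ) ≤ r := by exact_mod_cast hr1
    have hr0 : (0 : ℝ) < r := by linarith
    have hχn : ∀ y, ‖χ y‖ ≤ 1 := fun y => χ.norm_le_one y
    have hφ : (0 : ℝ) < (Nat.totient r : ℝ) := by exact_mod_cast Nat.totient_pos.2 hr1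
    obtain ⟨B, hB⟩ : ∃ B : ℝ, B = (r : ℝ) ^ (e' / 4) := ⟨_, rfl⟩
    have hB0 : 0 < B := by rw [hB]; positivity
    obtain ⟨M, hM⟩ : ∃ M : ℝ, M = (C1 * C2) ^ 2 * (r : ℝ) ^ (-(e1 * e' / 4)) := ⟨_, rfl⟩
    have hM0 : 0 ≤ M := by rw [hM]; positivity
    have key : ∀ t : Fin (s + 1) → ZMod r, ∀ x : ZMod r, B < (addOrderOf x : ℝ) →
        ‖ft (DL (List.ofFn t) fun y => χ y) x‖ ^ 2 ≤ M := by
      intro t x hx
      have h3 := h1 r χ t x
      have h4 : (addOrderOf x : ℝ) ^ (-e1) ≤ (r : ℝ) ^ (-(e1 * e' / 4)) := by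
        have : (addOrderOf x : ℝ) ^ (-e1) ≤ B ^ (-e1) := Real.rpow_le_rpow_of_nonpos hB0 hx.le (by linarith)
        refine this.trans (le_of_eq ?_)
        rw [hB, ← Real.rpow_mul hr0.le]
        congr 1
        ring
      have h5 := h2 r hr1
      have h6 : ‖ft (DL (List.ofFn t) fun y => χ y) x‖ ≤ C1 * C2 * (r : ℝ) ^ (-(e1 * e' / 8)) := by
        have h7 : ‖ft (DL (List.ofFn t) fun y => χ y) x‖ =
            ‖ft (DL (List.ofFn t) fun y => χ y) x‖ * ((Nat.totient r : ℝ) / r) * ((r : ℝ) / Nat.totient r) := by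
          field_simp
        rw [h7]
        calc _ ≤ C1 * (addOrderOf x : ℝ) ^ (-e1) * (C2 * (r : ℝ) ^ (e1 * e' / 8)) :=
              mul_le_mul h3 h5 (by positivity) (by positivity)
          _ ≤ C1 * (r : ℝ) ^ (-(e1 * e' / 4)) * (C2 * (r : ℝ) ^ (e1 * e' / 8)) :=
              mul_le_mul_of_nonneg_right (mul_le_mul_of_nonneg_left h4 hC1.le) (by positivity)
          _ = C1 * C2 * ((r : ℝ) ^ (-(e1 * e' / 4)) * (r : ℝ) ^ (e1 * e' / 8)) := by ring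
          _ = _ := by
            rw [← Real.rpow_add hr0]
            congr 2
            ring
      calc ‖ft (DL (List.ofFn t) fun y => χ y) x‖ ^ 2 ≤ (C1 * C2 * (r : ℝ) ^ (-(e1 * e' / 8))) ^ 2 :=
            pow_le_pow_left₀ (norm_nonneg _) h6 2
        _ = M := by
          rw [mul_pow, hM, ← Real.rpow_natCast ((r : ℝ) ^ (-(e1 * e' / 8))) 2, ← Real.rpow_mul hr0.le]
          congr 2
          push_cast
          ring
    rw [KA10_four]
    have hsum : ∑ t : Fin (s + 1) → ZMod r, ∑ x, ‖ft (DL (List.ofFn t) fun y => χ y) x‖ ^ 4 ≤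
        (r : ℝ) ^ (s + 1) * M + B ^ 2 * ((r : ℝ) ^ (s + 1) * (C' * (r : ℝ) ^ (-e'))) := by
      calc _ ≤ ∑ t : Fin (s + 1) → ZMod r, (M + ∑ x ∈ univ.filter (fun x : ZMod r => (addOrderOf x : ℝ) ≤ B),
            ‖ft (DL (List.ofFn t) fun y => χ y) x‖ ^ 2) :=
            sum_le_sum fun t _ => ka13_t _ (DL_norm _ _ hχn) B M (key t) hM0
        _ = (r : ℝ) ^ (s + 1) * M + ∑ x ∈ univ.filter (fun x : ZMod r => (addOrderOf x : ℝ) ≤ B),
            ∑ t : Fin (s + 1) → ZMod r, ‖ft (DL (List.ofFn t) fun y => χ y) x‖ ^ 2 := by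
          rw [Finset.sum_add_distrib, Finset.sum_comm, sum_const, card_univ, Fintype.card_fun, ZMod.card, Fintype.card_fin,
            nsmul_eq_mul]
          push_cast
          rfl
        _ ≤ (r : ℝ) ^ (s + 1) * M + ∑ x ∈ univ.filter (fun x : ZMod r => (addOrderOf x : ℝ) ≤ B),
            (r : ℝ) ^ (s + 1) * (C' * (r : ℝ) ^ (-e')) := by
          refine add_le_add le_rfl (sum_le_sum fun x _ => (KA10_le s _ x).trans ?_)
          exact mul_le_mul_of_nonneg_left (h' r χ hχ) (by positivity)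
        _ ≤ _ := by
          rw [sum_const, nsmul_eq_mul]
          exact add_le_add le_rfl (mul_le_mul_of_nonneg_right (KA11_ord B hB0.le) (by positivity))
    rw [div_le_iff₀ (by positivity)]
    refine hsum.trans ?_
    have hB2 : B ^ 2 * (r : ℝ) ^ (-e') ≤ (r : ℝ) ^ (-(e1 * e' / 4)) := by
      rw [hB, ← Real.rpow_natCast, ← Real.rpow_mul hr0.le, ← Real.rpow_add hr0]
      refine Real.rpow_le_rpow_of_exponent_le hrr ?_
      push_cast
      linarith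
    rw [hM]
    calc _ = (r : ℝ) ^ (s + 1) * ((C1 * C2) ^ 2 * (r : ℝ) ^ (-(e1 * e' / 4))) +
          (r : ℝ) ^ (s + 1) * (C' * (B ^ 2 * (r : ℝ) ^ (-e'))) := by ring
      _ ≤ (r : ℝ) ^ (s + 1) * ((C1 * C2) ^ 2 * (r : ℝ) ^ (-(e1 * e' / 4))) +
          (r : ℝ) ^ (s + 1) * (C' * (r : ℝ) ^ (-(e1 * e' / 4))) :=
          add_le_add le_rfl (mul_le_mul_of_nonneg_left (mul_le_mul_of_nonneg_left hB2 hC'.le) (by positivity))
      _ = _ := by ring

end Pool.Agent.HUK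
end

-- from Lib.H44W.M3
section
/-!
CHUNK M3 (M). The factor lbox of the model: expansion in additive characters.
lboxr q .. m is lbox .. (m/q) written with log m - log q (so it makes sense for all m).
(a) lboxr_eq: for k >= 1, q >= 1: lboxr q A1 A2 B1 B2 (q k) = lbox A1 A2 B1 B2 k (Real.log_mul).
(b) lbox_bd: 0 <= lbox <= 1 if A2 <= 2 A1, 1 <= A1 (min (log A2) .. - max (log A1) .. <= log A2 - log A1 <= log 2 <= 1; for A2 = 0 use
log 0 = 0). The same for lboxr.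
(c) lbox_empty: if A2 < A1 (or B2 < B1) then lbox = 0, and lboxr = 0: (min (log A2) s2 - max (log A1) s1 <= log A2 - log A1 <= 0; for
B2 < B1, B2 >= 1: s2 - s1 = log B2 - log B1 <= 0; if B2 = 0, log B2 = 0 <= log B1.)
(d) lboxr_rep: put a1 = log A1 <= a2 = log A2, s1(m) = log m - log q - log B2 <= s2(m) = log m - log q - log B1 and cl s = min a2 (max a1 s).
Then max 0 (min a2 s2 - max a1 s1) = cl s2 - cl s1 (case distinction; a1 <= a2, s1 <= s2). cl s2(m) and cl s1(m) are increasing in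
m >= 1 with values in [a1, a2], so sum over j < 2n of |F (j+3) - F (j+2)| <= 2 (a2 - a1) <= 2 log 2 <= 2 (telescoping, Finset.sum_range_sub).
Rep.bv (H81E): Rep n (|F 2| + (3 + log n) * 2) F, and |F 2| <= 1: 1 + 2 (3 + log n) <= 7 (1 + log n).
-/
namespace Pool.Agent.H44W
open Finset

/-- lbox at m/q. -/
noncomputable def lboxr (q A1 A2 B1 B2 : ℕ) (m : ℤ) : ℝ :=
  max 0 (min (Real.log A2) (Real.log m - Real.log q - Real.log B1) -
    max (Real.log A1) (Real.log m - Real.log q - Real.log B2))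

theorem lboxr_eq (q A1 A2 B1 B2 k : ℕ) (hq : 1 ≤ q) (hk : 1 ≤ k) :
    lboxr q A1 A2 B1 B2 ((q:ℤ) * k) = Pool.Agent.Lib.H21T.lbox A1 A2 B1 B2 k := by
  unfold lboxr Pool.Agent.Lib.H21T.lbox
  have hq0 : (q : ℝ) ≠ 0 := by
    have : (1 : ℝ) ≤ q := by exact_mod_cast hq
    positivity
  have hk0 : (k : ℝ) ≠ 0 := by
    have : (1 : ℝ) ≤ k := by exact_mod_cast hk
    positivity
  have h1 : Real.log (((q : ℤ) * k : ℤ) : ℝ) - Real.log q = Real.log k := by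
    push_cast
    rw [Real.log_mul hq0 hk0]
    ring
  rw [h1]

theorem m3_logle (A B : ℕ) (hB : 1 ≤ B) (h : A ≤ B) : Real.log A ≤ Real.log B := by
  rcases Nat.eq_zero_or_pos A with hA | hA
  · rw [hA, Nat.cast_zero, Real.log_zero]
    exact Real.log_nonneg (by exact_mod_cast hB)
  · exact Real.log_le_log (by exact_mod_cast hA) (by exact_mod_cast h)

theorem m3_two (A1 A2 : ℕ) (hA : 1 ≤ A1) (hA2 : A2 ≤ 2 * A1) : Real.log A2 - Real.log A1 ≤ 1 := by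
  have h1 := m3_logle A2 (2 * A1) (by omega) hA2
  have hA0 : (A1 : ℝ) ≠ 0 := by
    have : (1 : ℝ) ≤ A1 := by exact_mod_cast hA
    positivity
  have h2 : Real.log ((2 * A1 : ℕ) : ℝ) = Real.log 2 + Real.log A1 := by
    push_cast
    rw [Real.log_mul two_ne_zero hA0]
  have h3 : Real.log 2 < 0.6931471808 := Real.log_two_lt_d9
  rw [h2] at h1
  linarith

theorem m3_cl (a1 a2 s1 s2 : ℝ) (ha : a1 ≤ a2) (hs : s1 ≤ s2) :
    max 0 (min a2 s2 - max a1 s1) = min a2 (max a1 s2) - min a2 (max a1 s1) := by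
  rcases le_total s2 a1 with h1 | h1
  · rw [max_eq_left h1, max_eq_left (hs.trans h1), sub_self]
    refine max_eq_left ?_
    have := min_le_right a2 s2
    linarith
  · rw [max_eq_right h1]
    rcases le_total a2 s1 with h2 | h2
    · rw [max_eq_right (ha.trans h2), min_eq_left h2, min_eq_left (h2.trans hs), sub_self]
      exact max_eq_left (by linarith)
    · rw [min_eq_right (max_le ha h2)]
      refine max_eq_right (sub_nonneg.2 ?_)
      exact le_min (max_le ha h2) (max_le h1 hs)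

theorem m3_sum (G : ℕ → ℝ) (a1 a2 : ℝ) (hmono : ∀ j, G j ≤ G (j + 1)) (h1 : a1 ≤ G 0) (h2 : ∀ j, G j ≤ a2) (N : ℕ) :
    ∑ j ∈ range N, |G (j + 1) - G j| ≤ a2 - a1 := by
  have h3 : ∀ j ∈ range N, |G (j + 1) - G j| = G (j + 1) - G j := fun j _ => abs_of_nonneg (by linarith [hmono j])
  rw [sum_congr rfl h3, sum_range_sub]
  linarith [h2 N]

theorem lbox_bd (A1 A2 B1 B2 k : ℕ) (hA : 1 ≤ A1) (hA2 : A2 ≤ 2 * A1) :
    0 ≤ Pool.Agent.Lib.H21T.lbox A1 A2 B1 B2 k ∧ Pool.Agent.Lib.H21T.lbox A1 A2 B1 B2 k ≤ 1 := by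
  unfold Pool.Agent.Lib.H21T.lbox
  refine ⟨le_max_left _ _, max_le zero_le_one ?_⟩
  have h1 := m3_two A1 A2 hA hA2
  have h2 := min_le_left (Real.log A2) (Real.log k - Real.log B1)
  have h3 := le_max_left (Real.log A1) (Real.log k - Real.log B2)
  linarith

theorem lbox_empty (A1 A2 B1 B2 k : ℕ) (hA : 1 ≤ A1) (hB : 1 ≤ B1) (h : A2 < A1 ∨ B2 < B1) :
    Pool.Agent.Lib.H21T.lbox A1 A2 B1 B2 k = 0 := by
  unfold Pool.Agent.Lib.H21T.lbox
  refine max_eq_left ?_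
  rcases h with h | h
  · have h1 := m3_logle A2 A1 hA h.le
    have h2 := min_le_left (Real.log A2) (Real.log k - Real.log B1)
    have h3 := le_max_left (Real.log A1) (Real.log k - Real.log B2)
    linarith
  · have h1 := m3_logle B2 B1 hB h.le
    have h2 := min_le_right (Real.log A2) (Real.log k - Real.log B1)
    have h3 := le_max_right (Real.log A1) (Real.log k - Real.log B2)
    linarith

theorem lboxr_rep (n q A1 A2 B1 B2 : ℕ) (hn : 1 ≤ n) (hq : 1 ≤ q) (hA : 1 ≤ A1) (hA1 : A1 ≤ A2)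
    (hA2 : A2 ≤ 2 * A1) (hB : 1 ≤ B1) (hB1 : B1 ≤ B2) :
    Pool.Agent.H81E.Rep n (7 * (1 + Real.log n)) (fun m => ((lboxr q A1 A2 B1 B2 m : ℝ) : ℂ)) := by
  have ha : Real.log A1 ≤ Real.log A2 := m3_logle A1 A2 (hA.trans hA1) hA1
  have hb : Real.log B1 ≤ Real.log B2 := m3_logle B1 B2 (hB.trans hB1) hB1
  have h2 := m3_two A1 A2 hA hA2
  have hcl : ∀ m : ℤ, lboxr q A1 A2 B1 B2 m =
      min (Real.log A2) (max (Real.log A1) (Real.log m - Real.log q - Real.log B1)) -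
      min (Real.log A2) (max (Real.log A1) (Real.log m - Real.log q - Real.log B2)) := by
    intro m
    unfold lboxr
    exact m3_cl _ _ _ _ ha (by linarith)
  have hbd : ∀ m : ℤ, |lboxr q A1 A2 B1 B2 m| ≤ 1 := by
    intro m
    have h3 : 0 ≤ lboxr q A1 A2 B1 B2 m := le_max_left _ _
    rw [abs_of_nonneg h3, hcl]
    have h4 := min_le_left (Real.log A2) (max (Real.log A1) (Real.log m - Real.log q - Real.log B1))
    have h5 : Real.log A1 ≤ min (Real.log A2) (max (Real.log A1) (Real.log m - Real.log q - Real.log B2)) :=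
      le_min ha (le_max_left _ _)
    linarith
  have hv : ∀ B : ℕ, ∑ j ∈ range (2 * n),
      |min (Real.log A2) (max (Real.log A1) (Real.log (((j : ℤ) + 3 : ℤ) : ℝ) - Real.log q - Real.log B)) -
        min (Real.log A2) (max (Real.log A1) (Real.log (((j : ℤ) + 2 : ℤ) : ℝ) - Real.log q - Real.log B))| ≤ 1 := by
    intro B
    have h3 := m3_sum (fun j : ℕ => min (Real.log A2) (max (Real.log A1) (Real.log (((j : ℤ) + 2 : ℤ) : ℝ) -
      Real.log q - Real.log B))) (Real.log A1) (Real.log A2) (by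
        intro j
        have h4 : Real.log (((j : ℤ) + 2 : ℤ) : ℝ) ≤ Real.log ((((j + 1 : ℕ) : ℤ) + 2 : ℤ) : ℝ) := by
          refine Real.log_le_log ?_ ?_
          · push_cast
            positivity
          · push_cast
            linarith
        exact min_le_min le_rfl (max_le_max le_rfl (by linarith)))
      (le_min ha (le_max_left _ _)) (fun j => min_le_left _ _) (2 * n)
    refine le_trans (le_of_eq (sum_congr rfl fun j _ => ?_)) (h3.trans h2)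
    have e1 : ((j : ℤ) + 3 : ℤ) = (((j + 1 : ℕ) : ℤ) + 2 : ℤ) := by
      push_cast
      ring
    rw [e1]
  have hbv := Pool.Agent.H81E.Rep.bv n hn (fun m => ((lboxr q A1 A2 B1 B2 m : ℝ) : ℂ))
  refine hbv.mono ?_
  have hlog : 0 ≤ Real.log n := Real.log_nonneg (by exact_mod_cast hn)
  have h5 : ‖((lboxr q A1 A2 B1 B2 2 : ℝ) : ℂ)‖ ≤ 1 := by
    rw [Complex.norm_real, Real.norm_eq_abs]
    exact hbd 2
  have h6 : ∑ j ∈ range (2 * n), ‖((lboxr q A1 A2 B1 B2 ((j : ℤ) + 3) : ℝ) : ℂ) -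
      ((lboxr q A1 A2 B1 B2 ((j : ℤ) + 2) : ℝ) : ℂ)‖ ≤ 2 := by
    have h7 : ∀ j ∈ range (2 * n), ‖((lboxr q A1 A2 B1 B2 ((j : ℤ) + 3) : ℝ) : ℂ) -
        ((lboxr q A1 A2 B1 B2 ((j : ℤ) + 2) : ℝ) : ℂ)‖ ≤
        |min (Real.log A2) (max (Real.log A1) (Real.log (((j : ℤ) + 3 : ℤ) : ℝ) - Real.log q - Real.log B1)) -
          min (Real.log A2) (max (Real.log A1) (Real.log (((j : ℤ) + 2 : ℤ) : ℝ) - Real.log q - Real.log B1))| +
        |min (Real.log A2) (max (Real.log A1) (Real.log (((j : ℤ) + 3 : ℤ) : ℝ) - Real.log q - Real.log B2)) -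
          min (Real.log A2) (max (Real.log A1) (Real.log (((j : ℤ) + 2 : ℤ) : ℝ) - Real.log q - Real.log B2))| := by
      intro j _
      rw [← Complex.ofReal_sub, Complex.norm_real, Real.norm_eq_abs, hcl, hcl]
      generalize min (Real.log A2) (max (Real.log A1) (Real.log (((j : ℤ) + 3 : ℤ) : ℝ) - Real.log q - Real.log B1)) = w1
      generalize min (Real.log A2) (max (Real.log A1) (Real.log (((j : ℤ) + 3 : ℤ) : ℝ) - Real.log q - Real.log B2)) = w2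
      generalize min (Real.log A2) (max (Real.log A1) (Real.log (((j : ℤ) + 2 : ℤ) : ℝ) - Real.log q - Real.log B1)) = w3
      generalize min (Real.log A2) (max (Real.log A1) (Real.log (((j : ℤ) + 2 : ℤ) : ℝ) - Real.log q - Real.log B2)) = w4
      have e1 : w1 - w2 - (w3 - w4) = (w1 - w3) - (w2 - w4) := by ring
      rw [e1]
      exact abs_sub _ _
    refine (sum_le_sum h7).trans ?_
    rw [sum_add_distrib]
    linarith [hv B1, hv B2]
  have h8 := mul_le_mul_of_nonneg_left h6 (by linarith : 0 ≤ 3 + Real.log n)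
  linarith

end Pool.Agent.H44W
end

-- from Lib.H44W.W2
section
/-!
H44W: the model of the near-diagonal piece with cofactor q.
-/
namespace Pool.Agent.H44W
open Finset

/-- Model of pd q (Ico A1 A2) (Ico B1 B2). -/
noncomputable def Mq (Q A1 A2 B1 B2 q : ℕ) (m : ℤ) : ℂ :=
  if (q:ℤ) ∣ m then ((Pool.Agent.Lib.H21T.Mbox Q A1 A2 B1 B2 (m / q).toNat : ℝ) : ℂ) else 0

end Pool.Agent.H44W
end

-- from Lib.H44W.M4
section
/-!
CHUNK M4 (M). The local bound (hX) for pd q - Mq from D34.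
(a) pd_eq: for m >= 1, q >= 1: pd q (Ico A1 A2) (Ico B1 B2) m = dbox A1 A2 B1 B2 (m/q) if q | m, else 0 (the pairs (a,b) of integers >= 0;
m = q k: q a b = q k iff a b = k; card of the image under the cast N x N -> Z x Z).
(b) hX_of: the hypothesis h34 is the conclusion of H21T.D34 for N = 2n (with Q = floor((2n)^ep)). Let q >= 1.
Case q A1 B1 > 2n: for m in [u, v), m <= 2n: if q | m then k = m/q < A1 B1 and dbox = 0 = lbox (H21T.z0_low, or directly): the sum is 0.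
Case A2 < A1 or B2 < B1: dbox = 0 (empty Ico) and lbox = 0 (lbox_empty): the sum is 0.
Case q A1 B1 <= 2n, A1 <= A2, B1 <= B2: A1 B1 <= 2n = N. With m = q k the sum is the sum over k in Ico u' v', u' = ceil(u/q), v' = ceil(v/q), of
(dbox - Mbox)(k) ee((th q) k), v' - u' <= (v - u)/q + 1 <= 2l + 1. Let H0 = l (>= N^(1/2 - ka) by hl). Sum over Ico u' v' =
sum over Ico u' (v' + l) - sum over Ico v' (v' + l): both intervals have length >= l >= N^(1/2-ka), so the norm is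
<= ((v' - u' + l) + l) N^(-ep/2) <= (2l + 1 + 2l) N^(-ep/2) <= 5 l (2n)^(-ep/2) <= l (5 n^(-ep/2)).
-/
namespace Pool.Agent.H44W
open Finset

open Pool.Agent.Lib.H21T (dbox Mbox lbox)

theorem pd_eq (q A1 A2 B1 B2 : ℕ) (hq : 1 ≤ q) (m : ℤ) (hm : 1 ≤ m) :
    pd q (Ico (A1:ℤ) A2) (Ico (B1:ℤ) B2) m =
      if (q:ℤ) ∣ m then (Pool.Agent.Lib.H21T.dbox A1 A2 B1 B2 (m / q).toNat : ℂ) else 0 := by
  unfold pd
  have hq0 : (0:ℤ) < q := by exact_mod_cast hq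
  by_cases h : (q:ℤ) ∣ m
  · rw [if_pos h]
    obtain ⟨k, rfl⟩ := h
    have hk : 0 < k := by
      by_contra h0
      have : (q:ℤ) * k ≤ 0 := mul_nonpos_of_nonneg_of_nonpos hq0.le (not_lt.1 h0)
      omega
    rw [Int.mul_ediv_cancel_left k hq0.ne']
    congr 1
    unfold Pool.Agent.Lib.H21T.dbox
    symm
    refine Finset.card_bij (fun (p : ℕ × ℕ) _ => ((p.1:ℤ), (p.2:ℤ))) ?_ ?_ ?_
    · intro p hp
      rw [mem_filter, mem_product, mem_Ico, mem_Ico] at hp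
      rw [mem_filter, mem_product, mem_Ico, mem_Ico]
      refine ⟨⟨⟨Int.ofNat_le.2 hp.1.1.1, Int.ofNat_lt.2 hp.1.1.2⟩, Int.ofNat_le.2 hp.1.2.1, Int.ofNat_lt.2 hp.1.2.2⟩, ?_⟩
      have h2 : ((p.1 * p.2 : ℕ):ℤ) = k := by rw [hp.2]; omega
      push_cast at h2
      show (q:ℤ) * (p.1:ℤ) * (p.2:ℤ) = q * k
      rw [mul_assoc, h2]
    · intro p _ p' _ hpp
      have h1 : (p.1:ℤ) = p'.1 := congrArg Prod.fst hpp
      have h2 : (p.2:ℤ) = p'.2 := congrArg Prod.snd hpp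
      exact Prod.ext (by exact_mod_cast h1) (by exact_mod_cast h2)
    · intro p hp
      rw [mem_filter, mem_product, mem_Ico, mem_Ico] at hp
      obtain ⟨⟨⟨h1, h2⟩, h3, h4⟩, h5⟩ := hp
      have hp1 : 0 ≤ p.1 := le_trans (by positivity) h1
      have hp2 : 0 ≤ p.2 := le_trans (by positivity) h3
      obtain ⟨a, ha⟩ := Int.eq_ofNat_of_zero_le hp1
      obtain ⟨b, hb⟩ := Int.eq_ofNat_of_zero_le hp2
      refine ⟨(a, b), ?_, Prod.ext ha.symm hb.symm⟩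
      rw [mem_filter, mem_product, mem_Ico, mem_Ico]
      rw [ha] at h1 h2
      rw [hb] at h3 h4
      refine ⟨⟨⟨by exact_mod_cast h1, by exact_mod_cast h2⟩, by exact_mod_cast h3, by exact_mod_cast h4⟩, ?_⟩
      rw [ha, hb, mul_assoc] at h5
      have h6 : ((a:ℤ)) * b = k := mul_left_cancel₀ hq0.ne' h5
      have h7 : ((a * b : ℕ):ℤ) = k := by push_cast; exact h6
      show a * b = k.toNat
      omega
  · rw [if_neg h]
    have : ((Ico (A1:ℤ) A2 ×ˢ Ico (B1:ℤ) B2).filter (fun p => (q:ℤ) * p.1 * p.2 = m)) = ∅ := by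
      rw [Finset.filter_eq_empty_iff]
      intro p _ h1
      exact h ⟨p.1 * p.2, by rw [← h1, mul_assoc]⟩
    rw [this]
    simp

theorem m4_dbox_empty (A1 A2 B1 B2 k : ℕ) (h : A2 < A1 ∨ B2 < B1) : dbox A1 A2 B1 B2 k = 0 := by
  unfold Pool.Agent.Lib.H21T.dbox
  rw [Finset.card_eq_zero, Finset.filter_eq_empty_iff]
  intro p hp
  rw [mem_product, mem_Ico, mem_Ico] at hp
  rcases h with h | h <;> omega

theorem m4_dbox_low (A1 A2 B1 B2 k : ℕ) (h : k < A1 * B1) : dbox A1 A2 B1 B2 k = 0 := by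
  unfold Pool.Agent.Lib.H21T.dbox
  rw [Finset.card_eq_zero, Finset.filter_eq_empty_iff]
  intro p hp h1
  rw [mem_product, mem_Ico, mem_Ico] at hp
  have : A1 * B1 ≤ p.1 * p.2 := Nat.mul_le_mul hp.1.1 hp.2.1
  omega

theorem m4_lbox_low (A1 A2 B1 B2 k : ℕ) (hA : 1 ≤ A1) (hB : 1 ≤ B1) (h : k < A1 * B1) :
    lbox A1 A2 B1 B2 k = 0 := by
  unfold Pool.Agent.Lib.H21T.lbox
  apply max_eq_left
  have hA' : (0:ℝ) < A1 := by exact_mod_cast hA
  have hB' : (0:ℝ) < B1 := by exact_mod_cast hB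
  have h1 : Real.log k ≤ Real.log A1 + Real.log B1 := by
    rw [← Real.log_mul hA'.ne' hB'.ne']
    rcases Nat.eq_zero_or_pos k with h0 | h0
    · rw [h0, Nat.cast_zero, Real.log_zero]
      apply Real.log_nonneg
      have : 1 ≤ A1 * B1 := by omega
      exact_mod_cast this
    · apply Real.log_le_log (by exact_mod_cast h0)
      exact_mod_cast h.le
  have h2 : min (Real.log A2) (Real.log k - Real.log B1) ≤ Real.log k - Real.log B1 := min_le_right _ _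
  have h3 : Real.log A1 ≤ max (Real.log A1) (Real.log k - Real.log B2) := le_max_left _ _
  linarith

theorem hX_of (ka ep : ℝ) (n Q A1 A2 B1 B2 l q : ℕ) (hn : 1 ≤ n) (hep : 0 < ep) (hl1 : 1 ≤ l)
    (hA : 1 ≤ A1) (hB : 1 ≤ B1) (hq : 1 ≤ q) (hA2 : A2 ≤ 2 * A1) (hB2 : B2 ≤ 2 * B1)
    (h34 : A1 ≤ A2 → B1 ≤ B2 → A1 * B1 ≤ 2 * n → ∀ (x H : ℕ) (α : ℝ),
      ((2 * n : ℕ):ℝ) ^ (1 / 2 - ka) ≤ H →
      ‖∑ m ∈ Ico x (x + H), ((Pool.Agent.Lib.H21T.dbox A1 A2 B1 B2 m : ℂ) -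
        (Pool.Agent.Lib.H21T.Mbox Q A1 A2 B1 B2 m : ℂ)) * ee (α * m)‖ ≤
        H * ((2 * n : ℕ):ℝ) ^ (-(ep / 2)))
    (hl : ((2 * n : ℕ):ℝ) ^ (1 / 2 - ka) ≤ l)
    (u v : ℤ) (hu : 1 ≤ u) (huv : u ≤ v) (hv : v ≤ 2 * n + 1) (hvu : v - u ≤ 2 * l) (th : ℝ) :
    ‖∑ m ∈ Ico u v, (pd q (Ico (A1:ℤ) A2) (Ico (B1:ℤ) B2) m - Mq Q A1 A2 B1 B2 q m) *
      ee (th * m)‖ ≤ l * (5 * (n:ℝ) ^ (-(ep / 2))) := by
  have hq0 : (0:ℤ) < q := by exact_mod_cast hq
  -- the difference as a function of k = m / q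
  have hdiff : ∀ m : ℤ, 1 ≤ m → pd q (Ico (A1:ℤ) A2) (Ico (B1:ℤ) B2) m - Mq Q A1 A2 B1 B2 q m =
      if (q:ℤ) ∣ m then ((dbox A1 A2 B1 B2 (m / q).toNat : ℂ) - (Mbox Q A1 A2 B1 B2 (m / q).toNat : ℂ)) else 0 := by
    intro m hm
    rw [pd_eq q A1 A2 B1 B2 hq m hm, Mq]
    by_cases h : (q:ℤ) ∣ m
    · rw [if_pos h, if_pos h, if_pos h]
    · rw [if_neg h, if_neg h, if_neg h, sub_zero]
  have hR0 : 0 ≤ (l:ℝ) * (5 * (n:ℝ) ^ (-(ep / 2))) := by positivity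
  have hzero : (∀ k : ℕ, q * k ≤ 2 * n → dbox A1 A2 B1 B2 k = 0 ∧ lbox A1 A2 B1 B2 k = 0) →
      ‖∑ m ∈ Ico u v, (pd q (Ico (A1:ℤ) A2) (Ico (B1:ℤ) B2) m - Mq Q A1 A2 B1 B2 q m) *
      ee (th * m)‖ ≤ l * (5 * (n:ℝ) ^ (-(ep / 2))) := by
    intro hz
    have : ∑ m ∈ Ico u v, (pd q (Ico (A1:ℤ) A2) (Ico (B1:ℤ) B2) m - Mq Q A1 A2 B1 B2 q m) * ee (th * m) = 0 := by
      refine Finset.sum_eq_zero fun m hm => ?_
      rw [mem_Ico] at hm
      rw [hdiff m (by omega)]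
      by_cases h : (q:ℤ) ∣ m
      · rw [if_pos h]
        obtain ⟨k, rfl⟩ := h
        rw [Int.mul_ediv_cancel_left k hq0.ne']
        have hk : 0 < k := by
          by_contra h0
          have : (q:ℤ) * k ≤ 0 := mul_nonpos_of_nonneg_of_nonpos hq0.le (not_lt.1 h0)
          omega
        have h1 : q * k.toNat ≤ 2 * n := by
          have h2 : ((q * k.toNat : ℕ):ℤ) = q * k := by
            push_cast
            rw [Int.toNat_of_nonneg hk.le]
          omega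
        obtain ⟨h3, h4⟩ := hz k.toNat h1
        rw [h3, Pool.Agent.Lib.H21T.Mbox, h4]
        simp
      · rw [if_neg h, zero_mul]
    rw [this, norm_zero]
    exact hR0
  by_cases c1 : A1 ≤ A2 ∧ B1 ≤ B2
  swap
  · apply hzero
    intro k _
    have c2 : A2 < A1 ∨ B2 < B1 := by omega
    exact ⟨m4_dbox_empty A1 A2 B1 B2 k c2, lbox_empty A1 A2 B1 B2 k hA hB c2⟩
  by_cases c2 : q * (A1 * B1) ≤ 2 * n
  swap
  · apply hzero
    intro k hk
    have c3 : k < A1 * B1 := by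
      by_contra h0
      have : q * (A1 * B1) ≤ q * k := Nat.mul_le_mul_left q (not_lt.1 h0)
      omega
    exact ⟨m4_dbox_low A1 A2 B1 B2 k c3, m4_lbox_low A1 A2 B1 B2 k hA hB c3⟩
  have c3 : A1 * B1 ≤ 2 * n := le_trans (Nat.le_mul_of_pos_left _ hq) c2
  have h35 := h34 c1.1 c1.2 c3
  -- change of variables m = q k
  obtain ⟨U, hU⟩ : ∃ U : ℕ, U = (u.toNat + q - 1) / q := ⟨_, rfl⟩
  obtain ⟨V, hV⟩ : ∃ V : ℕ, V = (v.toNat + q - 1) / q := ⟨_, rfl⟩
  have hmem : ∀ k : ℕ, (U ≤ k ∧ k < V) ↔ (u ≤ (q:ℤ) * k ∧ (q:ℤ) * k < v) := by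
    intro k
    have e1 : U ≤ k ↔ u.toNat ≤ q * k := by
      rw [hU, Nat.div_le_iff_le_mul_add_pred hq]
      omega
    have e2 : V ≤ k ↔ v.toNat ≤ q * k := by
      rw [hV, Nat.div_le_iff_le_mul_add_pred hq]
      omega
    have e3 : ((q * k : ℕ):ℤ) = (q:ℤ) * k := by push_cast; ring
    constructor
    · rintro ⟨h1, h2⟩
      have h3 := e1.1 h1
      have h4 : ¬ (v.toNat ≤ q * k) := fun h => absurd (e2.2 h) (by omega)
      constructor
      · rw [← e3]; omega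
      · rw [← e3]; omega
    · rintro ⟨h1, h2⟩
      rw [← e3] at h1 h2
      constructor
      · exact e1.2 (by omega)
      · by_contra h0
        have := e2.1 (by omega)
        omega
  have hUV : U ≤ V := by
    rw [hU, hV]
    apply Nat.div_le_div_right
    omega
  have hVU : V ≤ U + 2 * l + 1 := by
    have e1 : V ≤ U + 2 * l + 1 ↔ v.toNat + q - 1 ≤ q * (U + 2 * l + 1) + (q - 1) := by
      rw [hV, Nat.div_le_iff_le_mul_add_pred hq]
    rw [e1]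
    have e2 : u.toNat ≤ q * U := by
      have : U ≤ U := le_refl _
      rw [hU, Nat.div_le_iff_le_mul_add_pred hq, ← hU] at this
      omega
    have e3 : q * (U + 2 * l + 1) = q * U + q * (2 * l + 1) := by ring
    have e4 : 2 * l + 1 ≤ q * (2 * l + 1) := Nat.le_mul_of_pos_left _ hq
    have e5 : v.toNat ≤ u.toNat + 2 * l := by omega
    rw [e3]
    omega
  obtain ⟨Fk, hFk⟩ : ∃ Fk : ℕ → ℂ, Fk = fun k => ((dbox A1 A2 B1 B2 k : ℂ) - (Mbox Q A1 A2 B1 B2 k : ℂ)) * ee (th * q * k) := ⟨_, rfl⟩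
  have hsum : ∑ m ∈ Ico u v, (pd q (Ico (A1:ℤ) A2) (Ico (B1:ℤ) B2) m - Mq Q A1 A2 B1 B2 q m) * ee (th * m) =
      ∑ k ∈ Ico U V, Fk k := by
    have e1 : ∑ m ∈ Ico u v, (pd q (Ico (A1:ℤ) A2) (Ico (B1:ℤ) B2) m - Mq Q A1 A2 B1 B2 q m) * ee (th * m) =
        ∑ m ∈ (Ico u v).filter (fun m => (q:ℤ) ∣ m), Fk (m / q).toNat := by
      rw [Finset.sum_filter]
      refine Finset.sum_congr rfl fun m hm => ?_
      rw [mem_Ico] at hm
      rw [hdiff m (by omega)]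
      by_cases h : (q:ℤ) ∣ m
      · rw [if_pos h, if_pos h, hFk]
        obtain ⟨k, rfl⟩ := h
        rw [Int.mul_ediv_cancel_left k hq0.ne']
        have hk : 0 < k := by
          by_contra h0
          have : (q:ℤ) * k ≤ 0 := mul_nonpos_of_nonneg_of_nonpos hq0.le (not_lt.1 h0)
          omega
        have hk2 : ((k.toNat : ℕ) : ℝ) = (k:ℝ) := by
          have : ((k.toNat : ℕ) : ℤ) = k := Int.toNat_of_nonneg hk.le
          exact_mod_cast congrArg (fun z : ℤ => (z:ℝ)) this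
        simp only
        rw [hk2]
        congr 2
        push_cast
        ring
      · rw [if_neg h, if_neg h, zero_mul]
    rw [e1]
    symm
    refine Finset.sum_bij (fun (k : ℕ) _ => (q:ℤ) * k) ?_ ?_ ?_ ?_
    · intro k hk
      rw [mem_Ico] at hk
      rw [mem_filter, mem_Ico]
      exact ⟨(hmem k).1 hk, dvd_mul_right _ _⟩
    · intro a _ b _ hab
      have := mul_left_cancel₀ hq0.ne' hab
      exact_mod_cast this
    · intro m hm
      rw [mem_filter, mem_Ico] at hm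
      obtain ⟨hm1, k, rfl⟩ := hm
      have hk : 0 < k := by
        by_contra h0
        have : (q:ℤ) * k ≤ 0 := mul_nonpos_of_nonneg_of_nonpos hq0.le (not_lt.1 h0)
        omega
      obtain ⟨k', hk'⟩ := Int.eq_ofNat_of_zero_le hk.le
      refine ⟨k', ?_, by rw [hk']⟩
      rw [mem_Ico, hmem k']
      rw [hk'] at hm1
      exact hm1
    · intro k _
      rw [Int.mul_ediv_cancel_left _ hq0.ne', Int.toNat_natCast]
  rw [hsum]
  have hsplit : ∑ k ∈ Ico U V, Fk k = ∑ k ∈ Ico U (U + (V - U + l)), Fk k - ∑ k ∈ Ico V (V + l), Fk k := by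
    have e1 : U + (V - U + l) = V + l := by omega
    rw [e1, ← Finset.sum_Ico_consecutive Fk hUV (by omega : V ≤ V + l), add_sub_cancel_right]
  have hFsum : ∀ x H : ℕ, ((2 * n : ℕ):ℝ) ^ (1 / 2 - ka) ≤ H →
      ‖∑ k ∈ Ico x (x + H), Fk k‖ ≤ H * ((2 * n : ℕ):ℝ) ^ (-(ep / 2)) := by
    intro x H hH
    rw [hFk]
    exact h35 x H (th * q) hH
  have b1 := hFsum U (V - U + l) (hl.trans (by exact_mod_cast (by omega : l ≤ V - U + l)))
  have b2 := hFsum V l hl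
  have hpow : ((2 * n : ℕ):ℝ) ^ (-(ep / 2)) ≤ (n:ℝ) ^ (-(ep / 2)) := by
    apply Real.rpow_le_rpow_of_nonpos
    · exact_mod_cast hn
    · exact_mod_cast (by omega : n ≤ 2 * n)
    · linarith
  have hp0 : 0 ≤ ((2 * n : ℕ):ℝ) ^ (-(ep / 2)) := Real.rpow_nonneg (Nat.cast_nonneg _) _
  rw [hsplit]
  refine (norm_sub_le _ _).trans ((add_le_add b1 b2).trans ?_)
  have h7 : ((V - U + l : ℕ):ℝ) + l ≤ 5 * l := by
    have : (V - U + l) + l ≤ 5 * l := by omega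
    exact_mod_cast this
  calc ((V - U + l : ℕ):ℝ) * ((2 * n : ℕ):ℝ) ^ (-(ep / 2)) + l * ((2 * n : ℕ):ℝ) ^ (-(ep / 2))
      = (((V - U + l : ℕ):ℝ) + l) * ((2 * n : ℕ):ℝ) ^ (-(ep / 2)) := by ring
    _ ≤ (5 * l) * (n:ℝ) ^ (-(ep / 2)) := mul_le_mul h7 hpow hp0 (by positivity)
    _ = l * (5 * (n:ℝ) ^ (-(ep / 2))) := by ring

end Pool.Agent.H44W
end
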