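import Pool.Agent.Lib.H59M.M2.M003
import Pool.Agent.Lib.H59M.M2.M035

/-! Merged copies (to shorten the build) of Lib.HPC.Defs, Lib.HPP.Defs, Lib.HPP.A1, Lib.HPP.A2, Lib.HPP.A3, Lib.HPP.C2, Lib.HPP.C3, Lib.HPP.C7a, Lib.HPP.BDefs, Lib.HPP.B1, Lib.HPP.C1, Lib.HPP.C1L, Lib.HPP.C4a, Lib.HPP.C4, Lib.HPP.B2, Lib.HPP.B3, Lib.HPP.B4. -/

-- from Lib.HPC.Defs
section

/-!
# Project HPC: systems of polynomials in one parameter, power saving. Definitions

Paper proof: `PROOF.md`. All functions live on `ZMod M`; a direction is a law `p` on `ZMod M`. `DD` is the difference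
operator `f(y) conj f(y + h)` of `HUK/Defs` (rules in `HUK/P0`).
-/

open Finset Polynomial

namespace Pool.Agent.HPC

open Pool.Agent.HUK (DD Bdd GG)

noncomputable section















/-- The polynomials `R j` of degree at most `D` with coefficients `r j` of `x^D`. -/
def RD {q : ℕ} (D : ℕ) (r : Fin q → ℤ) (R : Fin q → ℤ[X]) : Prop := ∀ j, (R j).natDegree ≤ D ∧ (R j).coeff D = r j




/-- **Theorem P over the integers** (the form used in modules F and G). -/
def ThmPZ (D q : ℕ) (r : Fin q → ℤ) : Prop := ∃ s : ℕ, 2 ≤ s ∧ ∀ (C0 : ℕ) (κ : ℝ), 0 < κ → ∃ δ : ℝ, 0 < δ ∧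
  ∃ X0 : ℕ, ∀ X : ℕ, X0 ≤ X → ∀ R : Fin q → ℤ[X], RD D r R → ∀ n0 L : ℕ, n0 + L ≤ C0 * X →
  ∀ (f0 : ℤ → ℂ) (f : Fin q → ℤ → ℂ) (S : Fin q → Finset ℤ), Bdd (C0 * X ^ D) f0 → (∀ j y, ‖f j y‖ ≤ 1) →
  (∀ j, (S j).card ≤ C0 * X ^ D) → (∀ j y, y ∉ S j → f j y = 0) →
  GG (C0 * X ^ D) s f0 ≤ (X : ℝ) ^ ((D : ℝ) * (s + 1) - κ) →
  ‖∑ t ∈ Ico (-((C0 * X ^ D : ℕ) : ℤ)) ((C0 * X ^ D : ℕ) : ℤ), ∑ n ∈ Ico n0 (n0 + L),
    f0 t * ∏ j, f j (t + (R j).eval (n : ℤ))‖ ≤ (X : ℝ) ^ ((D : ℝ) + 1 - δ)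

end

end Pool.Agent.HPC
end

-- from Lib.HPP.Defs
section

/-!
# Project HPP: systems of polynomials in one parameter. Definitions for modules A (concatenation) and C (energy)

Paper proof: `PROOF.md`. Averages `av`, `avc`; the class `FN N` of functions bounded by `1` with at most `N` nonzero values;
directions `Dir G` (finite families in `G`), the box averages `NN L f` (absolute values inside), adapted families `Ad`.
-/

open Finset

namespace Pool.Agent.HPP

noncomputable section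

/-- The average of a real function on a finite type. -/
def av {ι : Type*} [Fintype ι] (F : ι → ℝ) : ℝ := (∑ x, F x) / Fintype.card ι

/-- The average of a complex function on a finite type. -/
def avc {ι : Type*} [Fintype ι] (F : ι → ℂ) : ℂ := (∑ x, F x) / Fintype.card ι

/-- Bounded by `1`, at most `N` nonzero values. -/
structure FN {G : Type} (N : ℝ) (f : G → ℂ) : Prop where
  le : ∀ y, ‖f y‖ ≤ 1
  sup : ∃ S : Finset G, (S.card : ℝ) ≤ N ∧ ∀ y, y ∉ S → f y = 0

/-- A direction: a finite non-empty family of elements of `G`. -/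
structure Dir (G : Type) where
  ι : Type
  [fin : Fintype ι]
  [non : Nonempty ι]
  a : ι → G

attribute [instance] Dir.fin Dir.non

/-- The family of the differences. -/
def Dir.sub {G : Type} [Sub G] (d e : Dir G) : Dir G := ⟨d.ι × e.ι, fun p => d.a p.1 - e.a p.2⟩

/-- The difference operator with two shifts. -/
def D2 {G : Type} [Add G] (a b : G) (f : G → ℂ) : G → ℂ := fun y => f (y + a) * (starRingEnd ℂ) (f (y + b))

/-- The index set: a pair of indices for every direction. -/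
def Om {G : Type} : List (Dir G) → Type
  | [] => Unit
  | d :: L => (d.ι × d.ι) × Om L

instance omFin {G : Type} : (L : List (Dir G)) → Fintype (Om L)
  | [] => inferInstanceAs (Fintype Unit)
  | d :: L => haveI := omFin L; inferInstanceAs (Fintype ((d.ι × d.ι) × Om L))

instance omNe {G : Type} : (L : List (Dir G)) → Nonempty (Om L)
  | [] => inferInstanceAs (Nonempty Unit)
  | d :: L => haveI := omNe L; inferInstanceAs (Nonempty ((d.ι × d.ι) × Om L))

/-- Iterated differences. -/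
def nab {G : Type} [Add G] : (L : List (Dir G)) → Om L → (G → ℂ) → G → ℂ
  | [], _, f => f
  | d :: L, o, f => D2 (d.a o.1.1) (d.a o.1.2) (nab L o.2 f)

/-- The shift of the first vertex. -/
def sh {G : Type} [AddCommGroup G] : (L : List (Dir G)) → Om L → G
  | [], _ => 0
  | d :: L, o => d.a o.1.1 + sh L o.2

/-- **Box average with absolute values inside** for the directions in the list. -/
def NN {G : Type} [AddCommGroup G] [Fintype G] (L : List (Dir G)) (f : G → ℂ) : ℝ :=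
  av fun o : Om L => ‖∑ y, nab L o f y‖

/-- The product of the vertices other than the first one, relative to the first one (see `A4`). -/
def Phi {G : Type} [AddCommGroup G] : (L : List (Dir G)) → (G → ℂ) → Om L → G → ℂ
  | [], _, _ => fun _ => 1
  | d :: L, f, o => fun y => (starRingEnd ℂ) (f (y + (d.a o.1.2 - d.a o.1.1)) * Phi L f o.2 (y + (d.a o.1.2 - d.a o.1.1))) *
      Phi L f o.2 y

/-- Adapted families of functions. -/
def Ad {G : Type} [AddCommGroup G] (N : ℝ) : (L : List (Dir G)) → (Om L → G → ℂ) → Prop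
  | [], Φ => ∃ ξ : ℂ, ‖ξ‖ ≤ 1 ∧ ∀ o y, Φ o y = ξ
  | d :: L, Φ => ∃ (ξ : (d.ι × d.ι) × Om L → ℂ) (U Φ' : Om L → G → ℂ), (∀ o, ‖ξ o‖ ≤ 1) ∧ (∀ o, FN N (U o)) ∧ Ad N L Φ' ∧
      ∀ (o : (d.ι × d.ι) × Om L) (y : G), Φ o y = ξ o * U o.2 (y + (d.a o.1.2 - d.a o.1.1)) * Φ' o.2 y

/-- The Fourier transform of a direction. -/
def ft {G : Type} [AddCommGroup G] (d : Dir G) (χ : AddChar G ℂ) : ℂ := avc fun x => χ (d.a x)

/-- **The statement `T_p`** (`PROOF.md`, section A): `p` pure directions `α`, `q` extra directions `γ`. -/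
def TP (p q E n : ℕ) (C : ℝ) : Prop := ∀ (I : Type) [Fintype I] [Nonempty I], ∃ (J : Type) (_ : Fintype J) (_ : Nonempty J),
  ∀ (G : Type) [AddCommGroup G] [Fintype G] (α : Fin p → I → Dir G) (γ : Fin q → I → Dir G), ∃ δ : Fin n → J → Dir G,
    (∀ (N : ℝ) (f : G → ℂ), 0 < N → FN N f →
      ((av fun i => NN (List.ofFn (fun l => α l i) ++ List.ofFn (fun l => γ l i)) f) / N) ^ E ≤
        (av fun j => NN (List.ofFn fun k => δ k j) f) / N) ∧
    ∀ (χ : AddChar G ℂ) (B B' : ℝ), 0 ≤ B → 0 ≤ B' → (∀ l, (av fun i => ‖ft (α l i) χ‖ ^ 2) ≤ B) →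
      (∀ l, (av fun i => ‖ft (γ l i) χ‖ ^ 2) ≤ B') → ∀ k, (av fun j => ‖ft (δ k j) χ‖ ^ 2) ≤ C * (B ^ 2 + B')

/-- **The iterated concatenation**: all directions become sums of `2 ^ ν` independent ones. -/
def TN (p ν E n : ℕ) (C : ℝ) : Prop := ∀ (I : Type) [Fintype I] [Nonempty I], ∃ (J : Type) (_ : Fintype J) (_ : Nonempty J),
  ∀ (G : Type) [AddCommGroup G] [Fintype G] (α : Fin p → I → Dir G), ∃ δ : Fin n → J → Dir G,
    (∀ (N : ℝ) (f : G → ℂ), 0 < N → FN N f →
      ((av fun i => NN (List.ofFn fun l => α l i) f) / N) ^ E ≤ (av fun j => NN (List.ofFn fun k => δ k j) f) / N) ∧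
    ∀ (χ : AddChar G ℂ) (B : ℝ), 0 ≤ B → (∀ l, (av fun i => ‖ft (α l i) χ‖ ^ 2) ≤ B) →
      ∀ k, (av fun j => ‖ft (δ k j) χ‖ ^ 2) ≤ C * B ^ (2 ^ ν)

/-- The energy of a direction: the probability that two independent members agree. -/
def en {G : Type} [DecidableEq G] (d : Dir G) : ℝ := av fun p : d.ι × d.ι => if d.a p.1 = d.a p.2 then 1 else 0

/-- The power `2 ^ s` of the unnormalised `U^s` norm on a finite group, `s ≥ 1`. -/
def Gs {G : Type} [AddCommGroup G] [Fintype G] : ℕ → (G → ℂ) → ℝ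
  | 0, f => ‖∑ y, f y‖
  | 1, f => ‖∑ y, f y‖ ^ 2
  | s + 2, f => ∑ u, Gs (s + 1) (D2 0 u f)

/-- The interval `[-X, X]` as a type. -/
abbrev Iv (X : ℕ) : Type := ↥(Icc (-(X : ℤ)) X)

instance ivNe (X : ℕ) : Nonempty (Iv X) := ⟨⟨0, by rw [mem_Icc]; omega⟩⟩

/-- The direction `c m`, `|m| ≤ X`, in `ℤ/M`. -/
def cdir (M X : ℕ) (c : ℤ) : Dir (ZMod M) := ⟨Iv X, fun m => ((c * (m : ℤ) : ℤ) : ZMod M)⟩

/-- Average over the parameters `l ∈ [-X, X]^ρ` (as lists). -/
def AL (X ρ : ℕ) (F : List ℤ → ℝ) : ℝ := av fun v : Fin ρ → Iv X => F (List.ofFn fun i => ((v i : Iv X) : ℤ))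

/-- `KD X χ d x = avg χ (x k_1 ⋯ k_d)`, every `k_i` the difference of two independent elements of `[-X, X]`. -/
def KD {M : ℕ} (X : ℕ) (χ : AddChar (ZMod M) ℂ) : ℕ → ℤ → ℝ
  | 0, _ => 1
  | 1, x => ‖avc fun m : Iv X => χ ((x * (m : ℤ) : ℤ) : ZMod M)‖ ^ 2
  | d + 2, x => av fun p : Iv X × Iv X => KD X χ (d + 1) (x * ((p.1 : ℤ) - (p.2 : ℤ)))

end

end Pool.Agent.HPP
end

-- from Lib.HPP.A1
section

/-!
# Project HPP, A1 (S): rules for averages
-/

open Finset

namespace Pool.Agent.HPP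

variable {ι κ : Type*} [Fintype ι] [Fintype κ]

theorem av_nonneg {F : ι → ℝ} (h : ∀ x, 0 ≤ F x) : 0 ≤ av F := by
  unfold av
  exact div_nonneg (Finset.sum_nonneg fun x _ => h x) (Nat.cast_nonneg _)

theorem av_mono {F H : ι → ℝ} (h : ∀ x, F x ≤ H x) : av F ≤ av H := by
  unfold av
  gcongr with x _
  exact h x

theorem av_const [Nonempty ι] (c : ℝ) : (av fun _ : ι => c) = c := by
  unfold av
  rw [Finset.sum_const, Finset.card_univ, nsmul_eq_mul, mul_div_cancel_left₀]
  exact Nat.cast_ne_zero.2 Fintype.card_ne_zero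

theorem av_le [Nonempty ι] {F : ι → ℝ} {c : ℝ} (h : ∀ x, F x ≤ c) : av F ≤ c :=
  (av_mono h).trans (av_const c).le

theorem av_add (F H : ι → ℝ) : (av fun x => F x + H x) = av F + av H := by
  unfold av
  rw [Finset.sum_add_distrib, add_div]

theorem av_mul_left (c : ℝ) (F : ι → ℝ) : (av fun x => c * F x) = c * av F := by
  unfold av
  rw [← Finset.mul_sum, mul_div_assoc]

theorem av_div (c : ℝ) (F : ι → ℝ) : (av fun x => F x / c) = av F / c := by
  unfold av
  rw [← Finset.sum_div, div_right_comm]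

theorem av_sum {σ : Type*} (s : Finset σ) (F : σ → ι → ℝ) : (av fun x => ∑ k ∈ s, F k x) = ∑ k ∈ s, av (F k) := by
  unfold av
  rw [Finset.sum_comm, Finset.sum_div]

theorem av_prod (F : ι × κ → ℝ) : av F = av fun x => av fun y => F (x, y) := by
  unfold av
  rw [Fintype.sum_prod_type, Fintype.card_prod, Nat.cast_mul, ← Finset.sum_div, div_div, mul_comm]

theorem av_comm (F : ι → κ → ℝ) : (av fun x => av fun y => F x y) = av fun y => av fun x => F x y := by
  unfold av
  rw [← Finset.sum_div, ← Finset.sum_div, Finset.sum_comm, div_right_comm]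

theorem av_equiv (e : ι ≃ κ) (F : κ → ℝ) : (av fun x => F (e x)) = av F := by
  unfold av
  rw [e.sum_comp, Fintype.card_congr e]

/-- Power means (`inner_le_nnorm_mul_nnorm` / `inv_pow_sum_le..`: use `pow_sum_div_card_le_sum_pow`). -/
theorem av_pow [Nonempty ι] (n : ℕ) {F : ι → ℝ} (hF : ∀ x, 0 ≤ F x) : av F ^ n ≤ av fun x => F x ^ n := by
  cases n with
  | zero => simp only [pow_zero, av_const, le_refl]
  | succ n =>
    have h1 := pow_sum_div_card_le_sum_pow (s := (univ : Finset ι)) (f := F) (fun x _ => hF x) n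
    have hc : (0 : ℝ) < Fintype.card ι := Nat.cast_pos.2 Fintype.card_pos
    unfold av
    rw [Finset.card_univ] at h1
    rw [div_pow, pow_succ (Fintype.card ι : ℝ) n, ← div_div]
    gcongr

theorem avc_const [Nonempty ι] (c : ℂ) : (avc fun _ : ι => c) = c := by
  unfold avc
  rw [Finset.sum_const, Finset.card_univ, nsmul_eq_mul, mul_div_cancel_left₀]
  exact Nat.cast_ne_zero.2 Fintype.card_ne_zero

theorem avc_mul_left (c : ℂ) (F : ι → ℂ) : (avc fun x => c * F x) = c * avc F := by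
  unfold avc
  rw [← Finset.mul_sum, mul_div_assoc]

theorem avc_mul_right (c : ℂ) (F : ι → ℂ) : (avc fun x => F x * c) = avc F * c := by
  unfold avc
  rw [← Finset.sum_mul, mul_div_right_comm]

theorem avc_sum {σ : Type*} (s : Finset σ) (F : σ → ι → ℂ) : (avc fun x => ∑ k ∈ s, F k x) = ∑ k ∈ s, avc (F k) := by
  unfold avc
  rw [Finset.sum_comm, Finset.sum_div]

theorem avc_prod (F : ι × κ → ℂ) : avc F = avc fun x => avc fun y => F (x, y) := by
  unfold avc
  rw [Fintype.sum_prod_type, Fintype.card_prod, Nat.cast_mul, ← Finset.sum_div, div_div, mul_comm]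

theorem avc_comm (F : ι → κ → ℂ) : (avc fun x => avc fun y => F x y) = avc fun y => avc fun x => F x y := by
  unfold avc
  rw [← Finset.sum_div, ← Finset.sum_div, Finset.sum_comm, div_right_comm]

theorem avc_equiv (e : ι ≃ κ) (F : κ → ℂ) : (avc fun x => F (e x)) = avc F := by
  unfold avc
  rw [e.sum_comp, Fintype.card_congr e]

theorem norm_avc_le (F : ι → ℂ) : ‖avc F‖ ≤ av fun x => ‖F x‖ := by
  unfold avc av
  rw [norm_div, RCLike.norm_natCast]
  gcongr
  exact norm_sum_le _ _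

theorem avc_star (F : ι → ℂ) : (starRingEnd ℂ) (avc F) = avc fun x => (starRingEnd ℂ) (F x) := by
  unfold avc
  rw [map_div₀, map_sum, map_natCast]

theorem avc_mul_conj (F : ι → ℂ) : avc F * (starRingEnd ℂ) (avc F) = avc fun p : ι × ι => F p.1 * (starRingEnd ℂ) (F p.2) := by
  rw [avc_prod (fun p : ι × ι => F p.1 * (starRingEnd ℂ) (F p.2)), avc_star]
  simp only [avc_mul_left, avc_mul_right]

/-- `‖avc F‖ ^ 2 ≤ av ‖F‖ ^ 2`. -/
theorem norm_avc_sq [Nonempty ι] (F : ι → ℂ) : ‖avc F‖ ^ 2 ≤ av fun x => ‖F x‖ ^ 2 :=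
  (pow_le_pow_left₀ (norm_nonneg _) (norm_avc_le F) 2).trans (av_pow 2 fun _ => norm_nonneg _)

/-- The real average as a complex one. -/
theorem av_ofReal (F : ι → ℝ) : ((av F : ℝ) : ℂ) = avc fun x => ((F x : ℝ) : ℂ) := by
  unfold av avc
  push_cast
  rfl

/-- The phase of a complex number. -/
theorem phase (z : ℂ) : ∃ ξ : ℂ, ‖ξ‖ ≤ 1 ∧ ((‖z‖ : ℝ) : ℂ) = ξ * z := by
  by_cases h : z = 0
  · exact ⟨0, by simp, by simp [h]⟩
  · refine ⟨(‖z‖ : ℂ) / z, ?_, ?_⟩
    · rw [norm_div, Complex.norm_real, norm_norm, div_self (norm_ne_zero_iff.2 h)]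
    · rw [div_mul_cancel₀ _ h]

end Pool.Agent.HPP
end

-- from Lib.HPP.A2
section

/-!
# Project HPP, A2 (S): the class `FN`, Cauchy-Schwarz, translations
-/

open Finset

namespace Pool.Agent.HPP

variable {G : Type} [AddCommGroup G]

theorem FN.mul {N : ℝ} {f g : G → ℂ} (hf : FN N f) (hg : ∀ y, ‖g y‖ ≤ 1) : FN N fun y => f y * g y := by
  obtain ⟨S, hS, h0⟩ := hf.sup
  refine ⟨fun y => ?_, S, hS, fun y hy => ?_⟩
  · rw [norm_mul]
    exact mul_le_one₀ (hf.le y) (norm_nonneg _) (hg y)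
  · show f y * g y = 0
    rw [h0 y hy, zero_mul]

theorem FN.trans {N : ℝ} {f : G → ℂ} (hf : FN N f) (c : G) : FN N fun y => f (y + c) := by
  obtain ⟨S, hS, h0⟩ := hf.sup
  refine ⟨fun y => hf.le _, S.map (Equiv.addRight (-c)).toEmbedding, ?_, fun y hy => h0 _ fun h => hy ?_⟩
  · rw [Finset.card_map]
    exact hS
  · rw [Finset.mem_map]
    exact ⟨y + c, h, by simp⟩

theorem FN.star {N : ℝ} {f : G → ℂ} (hf : FN N f) : FN N fun y => (starRingEnd ℂ) (f y) := by
  obtain ⟨S, hS, h0⟩ := hf.sup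
  refine ⟨fun y => ?_, S, hS, fun y hy => ?_⟩
  · rw [RCLike.norm_conj]
    exact hf.le y
  · show (starRingEnd ℂ) (f y) = 0
    rw [h0 y hy, map_zero]

theorem FN.D2 {N : ℝ} {f : G → ℂ} (hf : FN N f) (a b : G) : FN N (D2 a b f) := by
  refine (hf.trans a).mul (g := fun y => (starRingEnd ℂ) (f (y + b))) fun y => ?_
  rw [RCLike.norm_conj]
  exact hf.le _

theorem FN.nab {N : ℝ} {f : G → ℂ} (hf : FN N f) (L : List (Dir G)) (o : Om L) : FN N (nab L o f) := by
  induction L with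
  | nil => exact hf
  | cons d L ih => exact (ih o.2).D2 _ _

/-- Cauchy-Schwarz. -/
theorem FN.cs [Fintype G] {N : ℝ} {f : G → ℂ} (hf : FN N f) (W : G → ℂ) :
    ‖∑ y, f y * W y‖ ^ 2 ≤ N * ∑ y, ‖W y‖ ^ 2 := by
  obtain ⟨S, hS, h0⟩ := hf.sup
  have h1 : ∑ y, f y * W y = ∑ y ∈ S, f y * W y := by
    symm
    refine Finset.sum_subset (Finset.subset_univ _) fun y _ hy => ?_
    rw [h0 y hy, zero_mul]
  have h2 : ‖∑ y, f y * W y‖ ≤ ∑ y ∈ S, ‖W y‖ := by
    rw [h1]
    refine (norm_sum_le _ _).trans (Finset.sum_le_sum fun y _ => ?_)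
    rw [norm_mul]
    exact mul_le_of_le_one_left (norm_nonneg _) (hf.le y)
  calc ‖∑ y, f y * W y‖ ^ 2 ≤ (∑ y ∈ S, ‖W y‖) ^ 2 := pow_le_pow_left₀ (norm_nonneg _) h2 2
    _ ≤ S.card * ∑ y ∈ S, ‖W y‖ ^ 2 := sq_sum_le_card_mul_sum_sq
    _ ≤ N * ∑ y, ‖W y‖ ^ 2 := by
      refine mul_le_mul hS ?_ (Finset.sum_nonneg fun y _ => sq_nonneg _) ((Nat.cast_nonneg _).trans hS)
      exact Finset.sum_le_sum_of_subset_of_nonneg (Finset.subset_univ _) fun y _ _ => sq_nonneg _

theorem FN.norm_sum [Fintype G] {N : ℝ} {f : G → ℂ} (hf : FN N f) : ‖∑ y, f y‖ ≤ N := by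
  obtain ⟨S, hS, h0⟩ := hf.sup
  have h1 : ∑ y, f y = ∑ y ∈ S, f y := by
    symm
    exact Finset.sum_subset (Finset.subset_univ _) fun y _ hy => h0 y hy
  rw [h1]
  refine (norm_sum_le _ _).trans ((Finset.sum_le_sum fun y _ => hf.le y).trans ?_)
  rw [Finset.sum_const, nsmul_eq_mul, mul_one]
  exact hS

theorem FN.ge {N : ℝ} {f : G → ℂ} (hf : FN N f) : 0 ≤ N := by
  obtain ⟨S, hS, -⟩ := hf.sup
  exact (Nat.cast_nonneg _).trans hS

/-- The differences commute. -/
theorem D2_comm (a b c d : G) (f : G → ℂ) : D2 a b (D2 c d f) = D2 c d (D2 a b f) := by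
  funext y
  simp only [D2, map_mul, Complex.conj_conj]
  rw [add_right_comm y a c, add_right_comm y a d, add_right_comm y b c, add_right_comm y b d]
  ring


theorem D2_trans (a b c : G) (f : G → ℂ) : D2 a b (fun y => f (y + c)) = fun y => D2 a b f (y + c) := by
  funext y
  simp only [D2]
  rw [add_right_comm y a c, add_right_comm y b c]

/-- `D2 a b f` is a translate of `D2 0 (b - a) f`. -/
theorem D2_zero (a b : G) (f : G → ℂ) (y : G) : D2 a b f y = D2 0 (b - a) f (y + a) := by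
  simp only [D2]
  rw [add_zero, add_assoc, add_sub_cancel]

theorem D2_nab (a b : G) (L : List (Dir G)) (o : Om L) (f : G → ℂ) : D2 a b (nab L o f) = nab L o (D2 a b f) := by
  induction L with
  | nil => rfl
  | cons d L ih =>
    show D2 a b (D2 _ _ (nab L o.2 f)) = D2 _ _ (nab L o.2 (D2 a b f))
    rw [D2_comm, ih o.2]

theorem nab_trans (L : List (Dir G)) (o : Om L) (f : G → ℂ) (c : G) :
    nab L o (fun y => f (y + c)) = fun y => nab L o f (y + c) := by
  induction L with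
  | nil => rfl
  | cons d L ih =>
    show D2 _ _ (nab L o.2 (fun y => f (y + c))) = fun y => D2 _ _ (nab L o.2 f) (y + c)
    rw [ih o.2, D2_trans]

theorem sum_trans [Fintype G] (f : G → ℂ) (c : G) : ∑ y, f (y + c) = ∑ y, f y :=
  Equiv.sum_comp (Equiv.addRight c) f

end Pool.Agent.HPP
end

-- from Lib.HPP.A3
section

/-!
# Project HPP, A3 (S/M): rules for the box averages `NN`
-/

open Finset

namespace Pool.Agent.HPP

variable {G : Type} [AddCommGroup G] [Fintype G]

theorem NN_nonneg (L : List (Dir G)) (f : G → ℂ) : 0 ≤ NN L f := by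
  exact av_nonneg fun _ => norm_nonneg _

theorem NN_nil (f : G → ℂ) : NN [] f = ‖∑ y, f y‖ := by
  change av (fun _ : Om ([] : List (Dir G)) => ‖∑ y, f y‖) = _
  exact av_const _

/-- Averages over `Om (d :: L)` are iterated (`av_prod`; `Om (d :: L)` is by definition the product). -/
theorem av_Om_cons (d : Dir G) (L : List (Dir G)) (F : (d.ι × d.ι) × Om L → ℝ) :
    av (ι := Om (d :: L)) F = av fun p : d.ι × d.ι => av fun o : Om L => F (p, o) := by
  exact av_prod (ι := d.ι × d.ι) (κ := Om L) F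


/-- `av_Om_cons`, `D2_nab`. -/
theorem NN_cons (d : Dir G) (L : List (Dir G)) (f : G → ℂ) :
    NN (d :: L) f = av fun p : d.ι × d.ι => NN L (D2 (d.a p.1) (d.a p.2) f) := by
  unfold NN
  refine (av_Om_cons d L _).trans ?_
  refine congrArg av (funext fun p => congrArg av (funext fun o => ?_))
  change ‖∑ y, D2 (d.a p.1) (d.a p.2) (nab L o f) y‖ = _
  rw [D2_nab]

/-- `nab_trans`, `sum_trans`. -/
theorem NN_trans (L : List (Dir G)) (f : G → ℂ) (c : G) : NN L (fun y => f (y + c)) = NN L f := by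
  unfold NN
  refine congrArg av (funext fun o => ?_)
  rw [nab_trans, sum_trans]

/-- Induction on `List.Perm`, generalising `f` (`NN_cons`, `av_comm`, `D2_comm`). -/
theorem NN_perm {L L' : List (Dir G)} (h : L.Perm L') : ∀ f : G → ℂ, NN L f = NN L' f := by
  induction h with
  | nil => exact fun f => rfl
  | cons d h ih =>
    intro f
    rw [NN_cons, NN_cons]
    exact congrArg av (funext fun p => ih _)
  | swap d e L =>
    intro f
    simp only [NN_cons]
    rw [av_comm]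
    refine congrArg av (funext fun p => congrArg av (funext fun q => ?_))
    rw [D2_comm]
  | trans h1 h2 ih1 ih2 => exact fun f => (ih1 f).trans (ih2 f)

/-- Induction on `L` (`NN_cons`, `FN.D2`, `av_le`); `L = []`: `FN.norm_sum`. -/
theorem NN_le {N : ℝ} (L : List (Dir G)) {f : G → ℂ} (hf : FN N f) : NN L f ≤ N := by
  induction L generalizing f with
  | nil =>
    rw [NN_nil]
    exact hf.norm_sum
  | cons d L ih =>
    rw [NN_cons]
    exact av_le fun p => ih (hf.D2 _ _)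

/-- `NN` of an appended list: `NN (L ++ L') f = av_o NN L' (nab L o f)`. Induction on `L`. -/
theorem NN_append (L L' : List (Dir G)) (f : G → ℂ) : NN (L ++ L') f = av fun o : Om L => NN L' (nab L o f) := by
  induction L generalizing f with
  | nil =>
    change NN L' f = av fun _ : Om ([] : List (Dir G)) => NN L' f
    exact (av_const _).symm
  | cons d L ih =>
    rw [List.cons_append, NN_cons]
    refine Eq.trans ?_ (av_Om_cons d L _).symm
    refine congrArg av (funext fun p => ?_)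
    rw [ih]
    refine congrArg av (funext fun o => ?_)
    change _ = NN L' (D2 (d.a p.1) (d.a p.2) (nab L o f))
    rw [D2_nab]

end Pool.Agent.HPP
end

-- from Lib.HPP.C2
section

/-!
# Project HPP, C2 (M): box averages against the Gowers norm and the energies
-/

open Finset

namespace Pool.Agent.HPP

variable {G : Type} [AddCommGroup G] [Fintype G]

theorem c2_nonneg : ∀ (s : ℕ) (f : G → ℂ), 0 ≤ Gs s f
  | 0, _ => norm_nonneg _
  | 1, _ => sq_nonneg _
  | s + 2, _ => sum_nonneg fun _ _ => c2_nonneg (s + 1) _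


theorem Gs_nonneg (s : ℕ) (f : G → ℂ) : 0 ≤ Gs s f := by
  exact c2_nonneg s f


/-- **C2a.** The energy as a mean over characters. Proof. `‖ft d χ‖² = av_{x, x'} χ(a x - a x')` (`avc_mul_conj`), sum over all characters:
`AddChar.sum_apply_eq_ite`; `card (AddChar G ℂ) = card G` (`AddChar.card_eq`). -/
theorem en_ft [DecidableEq G] (d : Dir G) : en d = (∑ χ : AddChar G ℂ, ‖ft d χ‖ ^ 2) / Fintype.card G := by
  have hc : (0 : ℝ) < Fintype.card G := Nat.cast_pos.2 Fintype.card_pos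
  have h1 : ∀ χ : AddChar G ℂ, ((‖ft d χ‖ ^ 2 : ℝ) : ℂ) = avc fun p : d.ι × d.ι => χ (d.a p.1 - d.a p.2) := by
    intro χ
    rw [← Complex.normSq_eq_norm_sq, ← Complex.mul_conj]
    unfold ft
    rw [avc_mul_conj]
    refine congrArg avc (funext fun p => ?_)
    rw [sub_eq_add_neg, AddChar.map_add_eq_mul, AddChar.map_neg_eq_conj]
  have h2 : ((∑ χ : AddChar G ℂ, ‖ft d χ‖ ^ 2 : ℝ) : ℂ) = (Fintype.card G : ℂ) * ((en d : ℝ) : ℂ) := by
    rw [Complex.ofReal_sum, sum_congr rfl fun χ _ => h1 χ, ← avc_sum]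
    unfold en
    rw [av_ofReal, ← avc_mul_left]
    refine congrArg avc (funext fun p => ?_)
    rw [AddChar.sum_apply_eq_ite]
    by_cases h : d.a p.1 = d.a p.2
    · rw [if_pos h, if_pos (sub_eq_zero.2 h)]
      simp
    · rw [if_neg h, if_neg (sub_ne_zero.2 h)]
      simp
  have h3 : (∑ χ : AddChar G ℂ, ‖ft d χ‖ ^ 2) = Fintype.card G * en d := by exact_mod_cast h2
  rw [h3, mul_div_cancel_left₀ _ hc.ne']

/-- The number of pairs with a given difference is at most the number of pairs which agree. -/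
theorem c2_pairs [DecidableEq G] {ι : Type} [Fintype ι] (a : ι → G) (u : G) :
    (∑ p : ι × ι, if a p.2 - a p.1 = u then (1 : ℝ) else 0) ≤ ∑ p : ι × ι, if a p.1 = a p.2 then (1 : ℝ) else 0 := by
  let μ : G → ℝ := fun v => ∑ x, if a x = v then (1 : ℝ) else 0
  have key : ∀ w : G, (∑ p : ι × ι, if a p.2 - a p.1 = w then (1 : ℝ) else 0) = ∑ v, μ v * μ (v + w) := by
    intro w
    have e1 : ∀ v, μ v * μ (v + w) = ∑ x, ∑ x', (if a x = v then (1 : ℝ) else 0) * (if a x' = v + w then (1 : ℝ) else 0) :=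
      fun v => sum_mul_sum _ _ _ _
    rw [sum_congr rfl fun v _ => e1 v, sum_comm, Fintype.sum_prod_type]
    refine sum_congr rfl fun x _ => ?_
    rw [sum_comm]
    refine sum_congr rfl fun x' _ => ?_
    simp only [ite_mul, one_mul, zero_mul]
    rw [sum_ite_eq]
    simp only [mem_univ, if_true]
    refine if_congr ?_ rfl rfl
    constructor
    · intro h
      rw [← h]
      abel
    · intro h
      rw [h]
      abel
  have e2 : (∑ p : ι × ι, if a p.1 = a p.2 then (1 : ℝ) else 0) = ∑ v, μ v * μ v := by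
    have h0 := key 0
    simp only [add_zero] at h0
    rw [← h0]
    refine sum_congr rfl fun p _ => if_congr ?_ rfl rfl
    rw [sub_eq_zero]
    exact eq_comm
  rw [key u, e2]
  have e3 : ∑ v, μ (v + u) * μ (v + u) = ∑ v, μ v * μ v := Equiv.sum_comp (Equiv.addRight u) fun v => μ v * μ v
  have e4 : ∑ v, μ v * μ (v + u) ≤ ∑ v, (μ v * μ v + μ (v + u) * μ (v + u)) / 2 :=
    sum_le_sum fun v _ => by nlinarith [sq_nonneg (μ v - μ (v + u))]
  rw [← sum_div, sum_add_distrib, e3] at e4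
  linarith

/-- **C2b.** One direction: for `Φ ≥ 0` on `G`: `av_{x, x'} Φ(a x' - a x) ≤ (en d) ^ (1/2) (∑_u Φ(u)²) ^ (1/2)`. Proof. With
`ρ(u) = av_{x, x'} [a x' - a x = u]`: `∑_u ρ(u) Φ(u) ≤ (∑ ρ²)^(1/2) (∑ Φ²)^(1/2)` and `∑_u ρ(u)² ≤ en d`, because
`ρ(u) ≤ en d`: `ρ(u) = ∑_v μ(v) μ(v + u) ≤ ∑ μ²  = en d` (Cauchy-Schwarz, `μ(v) = av_x [a x = v]`) and `∑ ρ = 1`. -/
theorem C2_one [DecidableEq G] (d : Dir G) (Φ : G → ℝ) (hΦ : ∀ u, 0 ≤ Φ u) :
    (av fun p : d.ι × d.ι => Φ (d.a p.2 - d.a p.1)) ≤ √(en d) * √(∑ u, Φ u ^ 2) := by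
  have hn : (0 : ℝ) < Fintype.card (d.ι × d.ι) := Nat.cast_pos.2 Fintype.card_pos
  let ρ : G → ℝ := fun u => (∑ p : d.ι × d.ι, if d.a p.2 - d.a p.1 = u then (1 : ℝ) else 0) / Fintype.card (d.ι × d.ι)
  have hρ0 : ∀ u, 0 ≤ ρ u := fun u => div_nonneg (sum_nonneg fun p _ => by split_ifs <;> norm_num) hn.le
  have hρ1 : ∀ u, ρ u ≤ en d := fun u => by
    show _ / _ ≤ av _
    unfold av
    exact div_le_div_of_nonneg_right (c2_pairs d.a u) hn.le
  have hρ2 : ∑ u, ρ u = 1 := by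
    show ∑ u, (∑ p : d.ι × d.ι, if d.a p.2 - d.a p.1 = u then (1 : ℝ) else 0) / Fintype.card (d.ι × d.ι) = 1
    rw [← sum_div, sum_comm, div_eq_one_iff_eq hn.ne']
    simp only [sum_ite_eq, mem_univ, if_true, sum_const, card_univ, nsmul_eq_mul, mul_one]
  have hρ3 : (av fun p : d.ι × d.ι => Φ (d.a p.2 - d.a p.1)) = ∑ u, ρ u * Φ u := by
    show _ = ∑ u, (∑ p : d.ι × d.ι, if d.a p.2 - d.a p.1 = u then (1 : ℝ) else 0) / Fintype.card (d.ι × d.ι) * Φ u
    unfold av
    simp only [div_mul_eq_mul_div]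
    rw [← sum_div]
    congr 1
    simp only [sum_mul]
    rw [sum_comm]
    refine sum_congr rfl fun p _ => ?_
    simp only [ite_mul, one_mul, zero_mul, sum_ite_eq, mem_univ, if_true]
  have hen : 0 ≤ en d := (hρ0 0).trans (hρ1 0)
  rw [hρ3]
  refine (Real.sum_mul_le_sqrt_mul_sqrt univ ρ Φ).trans (mul_le_mul_of_nonneg_right ?_ (Real.sqrt_nonneg _))
  refine Real.sqrt_le_sqrt ?_
  calc ∑ u, ρ u ^ 2 ≤ ∑ u, en d * ρ u := sum_le_sum fun u _ => by
        rw [sq]
        exact mul_le_mul_of_nonneg_right (hρ1 u) (hρ0 u)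
    _ = en d := by rw [← mul_sum, hρ2, mul_one]

/-- **C2.** Proof. Induction on `L` (generalise `f`). `[]`: `Gs 1 f = ‖∑ f‖²`. `d :: L`: `NN_cons`, `D2 (a x) (a x') f` is a translate of
`D2 0 (a x' - a x) f` (`D2_zero`, `NN_trans`); induction hypothesis; `C2_one` with `Φ u = √(Gs (L.length + 1) (D2 0 u f))`,
`∑_u Φ(u)² = Gs (L.length + 2) f`. -/
theorem C2_main [DecidableEq G] (L : List (Dir G)) : ∀ f : G → ℂ,
    NN L f ≤ (L.map fun d => √(en d)).prod * √(Gs (L.length + 1) f) := by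
  induction L with
  | nil =>
    intro f
    rw [NN_nil]
    show ‖∑ y, f y‖ ≤ 1 * √(‖∑ y, f y‖ ^ 2)
    rw [one_mul, Real.sqrt_sq (norm_nonneg _)]
  | cons d L ih =>
    intro f
    have hP : 0 ≤ (L.map fun d => √(en d)).prod := by
      refine List.prod_nonneg fun x hx => ?_
      obtain ⟨e, -, rfl⟩ := List.mem_map.1 hx
      exact Real.sqrt_nonneg _
    have h1 : ∀ p : d.ι × d.ι, NN L (D2 (d.a p.1) (d.a p.2) f) = NN L (D2 0 (d.a p.2 - d.a p.1) f) := by
      intro p
      have e : D2 (d.a p.1) (d.a p.2) f = fun y => D2 0 (d.a p.2 - d.a p.1) f (y + d.a p.1) :=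
        funext fun y => D2_zero _ _ f y
      rw [e, NN_trans]
    rw [NN_cons]
    calc (av fun p : d.ι × d.ι => NN L (D2 (d.a p.1) (d.a p.2) f))
        ≤ av fun p : d.ι × d.ι => (L.map fun d => √(en d)).prod *
            (fun u => √(Gs (L.length + 1) (D2 0 u f))) (d.a p.2 - d.a p.1) :=
          av_mono fun p => by
            rw [h1 p]
            exact ih _
      _ = (L.map fun d => √(en d)).prod * av fun p : d.ι × d.ι =>
            (fun u => √(Gs (L.length + 1) (D2 0 u f))) (d.a p.2 - d.a p.1) := av_mul_left _ _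
      _ ≤ (L.map fun d => √(en d)).prod * (√(en d) * √(∑ u, (fun u => √(Gs (L.length + 1) (D2 0 u f))) u ^ 2)) :=
          mul_le_mul_of_nonneg_left (C2_one d (fun u => √(Gs (L.length + 1) (D2 0 u f))) fun u => Real.sqrt_nonneg _) hP
      _ = ((d :: L).map fun d => √(en d)).prod * √(Gs ((d :: L).length + 1) f) := by
          have e : ∑ u, (fun u => √(Gs (L.length + 1) (D2 0 u f))) u ^ 2 = Gs ((d :: L).length + 1) f := by
            show ∑ u, √(Gs (L.length + 1) (D2 0 u f)) ^ 2 = ∑ u, Gs (L.length + 1) (D2 0 u f)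
            exact sum_congr rfl fun u _ => Real.sq_sqrt (Gs_nonneg _ _)
          rw [e, List.map_cons, List.prod_cons]
          ring

end Pool.Agent.HPP
end

-- from Lib.HPP.C3
section

/-!
# Project HPP, C3 (S/M): Markov
-/

open Finset

namespace Pool.Agent.HPP

variable {G : Type} [AddCommGroup G] [Fintype G]

theorem c3_en_nonneg {G : Type} [DecidableEq G] (d : Dir G) : 0 ≤ en d := by
  unfold en
  refine av_nonneg fun p => ?_
  split_ifs <;> norm_num

/-- **C3.** Proof. For every `j`: if all `en (δ k j) ≤ lam` then `NN ≤ lam ^ (n/2) √(Gs (n+1) f)` (`C2_main`, `List.map_ofFn`,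
`List.prod_ofFn`, product of `n` numbers `≤ √lam`); otherwise `NN ≤ N ≤ N ∑_k en (δ k j) / lam` (`NN_le`; one term is `≥ 1`). So always
`NN / N ≤ (∑_k en (δ k j)) / lam + √lam ^ n √(Gs (n+1) f) / N`; take averages (`av_add`, `av_sum`). -/
theorem C3_markov [DecidableEq G] {N : ℝ} (hN : 0 < N) {J : Type} [Fintype J] [Nonempty J] (n : ℕ) (δ : Fin n → J → Dir G)
    (lam : ℝ) (hlam : 0 < lam) (f : G → ℂ) (hf : FN N f) :
    (av fun j => NN (List.ofFn fun k => δ k j) f) / N ≤
      (∑ k, av fun j => en (δ k j)) / lam + √lam ^ n * √(Gs (n + 1) f) / N := by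
  have hpt : ∀ j, NN (List.ofFn fun k => δ k j) f / N ≤
      (∑ k, en (δ k j)) / lam + √lam ^ n * √(Gs (n + 1) f) / N := by
    intro j
    have hsum : 0 ≤ ∑ k, en (δ k j) := Finset.sum_nonneg fun k _ => c3_en_nonneg _
    have hlast : 0 ≤ √lam ^ n * √(Gs (n + 1) f) / N := by positivity
    by_cases hall : ∀ k, en (δ k j) ≤ lam
    · have h1 := C2_main (List.ofFn fun k => δ k j) f
      rw [List.map_ofFn, List.prod_ofFn, List.length_ofFn] at h1
      have h2 : ∏ k, ((fun d : Dir G => √(en d)) ∘ fun k => δ k j) k ≤ √lam ^ n := by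
        refine (Finset.prod_le_prod (fun k _ => Real.sqrt_nonneg _) fun k _ => Real.sqrt_le_sqrt (hall k)).trans ?_
        simp
      have h3 : NN (List.ofFn fun k => δ k j) f ≤ √lam ^ n * √(Gs (n + 1) f) :=
        h1.trans (mul_le_mul_of_nonneg_right h2 (Real.sqrt_nonneg _))
      have h4 := div_le_div_of_nonneg_right h3 hN.le
      have h5 : 0 ≤ (∑ k, en (δ k j)) / lam := by positivity
      linarith
    · push Not at hall
      obtain ⟨k, hk⟩ := hall
      have h1 : lam ≤ ∑ k, en (δ k j) :=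
        hk.le.trans (Finset.single_le_sum (f := fun k => en (δ k j)) (fun i _ => c3_en_nonneg _) (Finset.mem_univ k))
      have h2 : 1 ≤ (∑ k, en (δ k j)) / lam := by
        rw [le_div_iff₀ hlam]
        linarith
      have h3 : NN (List.ofFn fun k => δ k j) f / N ≤ 1 := by
        rw [div_le_one hN]
        exact NN_le _ hf
      linarith
  rw [← av_div]
  refine (av_mono hpt).trans (le_of_eq ?_)
  rw [av_add, av_div, av_const, av_sum]

end Pool.Agent.HPP
end

-- from Lib.HPP.C7a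
section

/-!
# Project HPP, C7a (M): from `ℤ` to `ℤ/M`
-/

open Finset Polynomial

namespace Pool.Agent.HPP

open Pool.Agent.HUK (DD DL DV bxS FF GG Bdd)

/-- The function on `ℤ/M` with the values of `f` in `(-M/2, M/2]`. -/
noncomputable def lft (M : ℕ) (f : ℤ → ℂ) : ZMod M → ℂ := fun y => f y.valMinAbs

/-- `ZMod.valMinAbs_spec` / `ZMod.valMinAbs_def_pos`: for `2 |z| < M`. -/
theorem lft_val (M : ℕ) [NeZero M] (f : ℤ → ℂ) (z : ℤ) (h : 2 * |z| < M) : lft M f (z : ZMod M) = f z := by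
  unfold lft
  congr 1
  rw [ZMod.valMinAbs_spec]
  refine ⟨rfl, ?_, ?_⟩
  · have := neg_abs_le z
    linarith
  · have := le_abs_self z
    linarith

/-- Support: the image of the finite set under the cast (if `f y = 0` off `S` then `lft M f` vanishes off the image of `S`: `y = valMinAbs y` in `ℤ/M`). -/
theorem lft_FN (M : ℕ) [NeZero M] {N : ℝ} {f : ℤ → ℂ} (hf : FN N f) : FN N (lft M f) := by
  classical
  obtain ⟨S, hS, hS0⟩ := hf.sup
  refine ⟨fun y => hf.le _, S.image (fun z : ℤ => (z : ZMod M)), ?_, fun y hy => ?_⟩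
  · refine le_trans ?_ hS
    exact_mod_cast card_image_le
  · unfold lft
    apply hS0
    intro h
    apply hy
    rw [mem_image]
    exact ⟨_, h, ZMod.coe_valMinAbs y⟩

/-- Sums: for `f` supported in `[-X1, X1)`, `2 X1 < M`. -/
theorem lft_sum (M : ℕ) [NeZero M] (X1 : ℕ) (f : ℤ → ℂ) (g : ZMod M → ℂ) (hf : ∀ y, y ∉ Ico (-(X1 : ℤ)) X1 → f y = 0)
    (hM : 2 * X1 < M) : ∑ y : ZMod M, lft M f y * g y = ∑ t ∈ Ico (-(X1 : ℤ)) X1, f t * g (t : ZMod M) := by
  classical
  have hz : ∀ t ∈ Ico (-(X1 : ℤ)) X1, 2 * |t| < M := by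
    intro t ht
    rw [mem_Ico] at ht
    have h1 : |t| ≤ X1 := abs_le.mpr ⟨ht.1, ht.2.le⟩
    have h2 : (2 * X1 : ℤ) < M := by exact_mod_cast hM
    linarith
  have hinj : Set.InjOn (fun z : ℤ => (z : ZMod M)) (Ico (-(X1 : ℤ)) X1 : Finset ℤ) := by
    intro a ha b hb hab
    have h1 := lft_val M (fun z => (z : ℂ)) a (hz a ha)
    have h2 := lft_val M (fun z => (z : ℂ)) b (hz b hb)
    have h3 : ((a : ZMod M)) = b := hab
    rw [h3, h2] at h1
    exact_mod_cast h1.symm
  calc ∑ y : ZMod M, lft M f y * g y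
      = ∑ y ∈ (Ico (-(X1 : ℤ)) X1).image (fun z : ℤ => (z : ZMod M)), lft M f y * g y := by
        symm
        refine Finset.sum_subset (subset_univ _) fun y _ hy => ?_
        have h0 : lft M f y = 0 := by
          unfold lft
          apply hf
          intro h
          apply hy
          rw [mem_image]
          exact ⟨_, h, ZMod.coe_valMinAbs y⟩
        rw [h0, zero_mul]
    _ = ∑ t ∈ Ico (-(X1 : ℤ)) X1, lft M f (t : ZMod M) * g (t : ZMod M) := Finset.sum_image hinj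
    _ = ∑ t ∈ Ico (-(X1 : ℤ)) X1, f t * g (t : ZMod M) :=
        Finset.sum_congr rfl fun t ht => by rw [lft_val M f t (hz t ht)]

/-- Auxiliary: sums over a box. -/
theorem c7a_bx {R : Type*} [AddCommMonoid R] (s N : ℕ) (F : (Fin (s + 1) → ℤ) → R) :
    ∑ h ∈ bxS (s + 1) N, F h = ∑ a ∈ Ioo (-(N : ℤ)) N, ∑ h ∈ bxS s N, F (Fin.cons a h) := by
  rw [← Finset.sum_product']
  refine Finset.sum_bij' (fun h _ => (h 0, fun i => h i.succ)) (fun p _ => Fin.cons p.1 p.2) ?_ ?_ ?_ ?_ ?_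
  · intro h hh
    unfold bxS at hh ⊢
    rw [Fintype.mem_piFinset] at hh
    rw [mem_product, Fintype.mem_piFinset]
    exact ⟨hh 0, fun i => hh i.succ⟩
  · intro p hp
    unfold bxS at hp ⊢
    rw [mem_product, Fintype.mem_piFinset] at hp
    rw [Fintype.mem_piFinset]
    intro i
    refine Fin.cases ?_ (fun j => ?_) i
    · exact hp.1
    · simp only [Fin.cons_succ]
      exact hp.2 j
  · intro h _
    funext i
    refine Fin.cases ?_ (fun j => ?_) i
    · rfl
    · rfl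
  · intro p _
    rfl
  · intro h _
    congr 1
    funext i
    refine Fin.cases ?_ (fun j => ?_) i
    · rfl
    · rfl

theorem c7a_cons {s : ℕ} (a : ℤ) (h : Fin s → ℤ) (f : ℤ → ℂ) :
    DV (Fin.cons a h : Fin (s + 1) → ℤ) f = DV h (DD a f) := by
  unfold DV
  rw [List.ofFn_succ]
  simp only [Fin.cons_zero, Fin.cons_succ]
  rfl

theorem c7a_succ {X s : ℕ} {f : ℤ → ℂ} :
    GG X (s + 1) f = ∑ a ∈ Ioo (-(2 * X : ℤ)) (2 * X), GG X s (DD a f) := by
  unfold GG
  rw [c7a_bx, Complex.re_sum]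
  push_cast
  refine sum_congr rfl fun a _ => ?_
  congr 1
  refine sum_congr rfl fun h _ => ?_
  unfold FF
  rw [c7a_cons]

theorem c7a_zero (X : ℕ) (f : ℤ → ℂ) : GG X 0 f = (∑ y ∈ Ico (-(X : ℤ)) X, f y).re := by
  simp [GG, bxS, FF, DV, DL]

theorem c7a_sq {X : ℕ} {f : ℤ → ℂ} (hf : ∀ y, y ∉ Ico (-(X : ℤ)) X → f y = 0) :
    ∑ a ∈ Ioo (-(2 * X : ℤ)) (2 * X), ∑ y ∈ Ico (-(X : ℤ)) X, DD a f y =
      ((‖∑ y ∈ Ico (-(X : ℤ)) X, f y‖ ^ 2 : ℝ) : ℂ) := by
  have h1 : ((‖∑ y ∈ Ico (-(X : ℤ)) X, f y‖ ^ 2 : ℝ) : ℂ) =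
      ∑ y ∈ Ico (-(X : ℤ)) X, ∑ u ∈ Ico (-(X : ℤ)) X, f y * (starRingEnd ℂ) (f u) := by
    push_cast
    rw [← Complex.mul_conj', map_sum, Finset.sum_mul]
    refine sum_congr rfl fun y _ => ?_
    rw [Finset.mul_sum]
  rw [h1, Finset.sum_comm]
  refine sum_congr rfl fun y hy => ?_
  have hy' := mem_Ico.1 hy
  have h2 : ∑ u ∈ Ico (-(X : ℤ)) X, f y * (starRingEnd ℂ) (f u) =
      ∑ u ∈ Ioo (y - 2 * X) (y + 2 * X), f y * (starRingEnd ℂ) (f u) := by
    refine Finset.sum_subset (fun u hu => ?_) fun u _ hu => ?_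
    · rw [mem_Ico] at hu
      rw [mem_Ioo]
      omega
    · rw [hf u hu, map_zero, mul_zero]
  rw [h2]
  refine Finset.sum_bij' (fun a _ => y + a) (fun u _ => u - y) ?_ ?_ ?_ ?_ ?_
  · intro a ha
    rw [mem_Ioo] at ha ⊢
    omega
  · intro u hu
    rw [mem_Ioo] at hu ⊢
    omega
  · intro a _
    ring
  · intro u _
    ring
  · intro a _
    rfl

/-- Auxiliary: the difference operators. -/
theorem c7a_D2 (M : ℕ) [NeZero M] (X1 : ℕ) (f : ℤ → ℂ) (hf : Bdd X1 f) (hM : 6 * X1 < M) (z : ℤ)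
    (hz : z ∈ Ioo (-(2 * X1 : ℤ)) (2 * X1)) : D2 0 (z : ZMod M) (lft M f) = lft M (DD z f) := by
  funext y
  show lft M f (y + 0) * (starRingEnd ℂ) (lft M f (y + (z : ZMod M))) =
    f y.valMinAbs * (starRingEnd ℂ) (f (y.valMinAbs + z))
  rw [add_zero]
  by_cases hy : y.valMinAbs ∈ Ico (-(X1 : ℤ)) X1
  · rw [mem_Ico] at hy
    rw [mem_Ioo] at hz
    have h1 : y + (z : ZMod M) = ((y.valMinAbs + z : ℤ) : ZMod M) := by
      rw [Int.cast_add, ZMod.coe_valMinAbs]
    have h2 : 2 * |y.valMinAbs + z| < M := by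
      have h3 : |y.valMinAbs + z| ≤ 3 * X1 := by
        rw [abs_le]
        constructor <;> omega
      have h4 : (6 * X1 : ℤ) < M := by exact_mod_cast hM
      linarith
    rw [h1, lft_val M f _ h2]
    rfl
  · have h0 : f y.valMinAbs = 0 := hf.sup _ hy
    have h1 : lft M f y = 0 := h0
    rw [h1, h0, zero_mul, zero_mul]

theorem c7a_Gs0 {G : Type} [AddCommGroup G] [Fintype G] (s : ℕ) : Gs (s + 1) (fun _ : G => (0 : ℂ)) = 0 := by
  induction s with
  | zero =>
    show ‖∑ _y : G, (0 : ℂ)‖ ^ 2 = 0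
    rw [Finset.sum_const_zero, norm_zero]
    norm_num
  | succ s ih =>
    show ∑ u : G, Gs (s + 1) (D2 0 u (fun _ : G => (0 : ℂ))) = 0
    refine Finset.sum_eq_zero fun u _ => ?_
    have h1 : D2 0 u (fun _ : G => (0 : ℂ)) = fun _ : G => (0 : ℂ) := by
      funext y
      show (0 : ℂ) * (starRingEnd ℂ) 0 = 0
      rw [zero_mul]
    rw [h1]
    exact ih

/-- **C7a. Gowers norms.** Proof. Induction on `s`. `s = 0`: `Gs 1 = ‖∑ f‖² = ∑_h ∑_y f(y) conj f(y + h)` (`|h| < 2 X1`). Step: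
`D2 0 u (lft M f)` is `lft M (DD z f)` for `u = z` in `ℤ/M`, `|z| < 2 X1`, and zero for the other `u` (`6 X1 < M`); `GG X (s + 2) f =
∑_{|z| < 2X} GG X (s + 1) (DD z f)` (grep `GG_step`, `gg_succ` in HUK; or prove it: `bxS (s+2)`, `Fin.cons`, `List.ofFn_succ`). -/
theorem C7_Gs (s : ℕ) : ∀ (M : ℕ) [NeZero M] (X1 : ℕ) (f : ℤ → ℂ), Bdd X1 f → 6 * X1 < M →
    Gs (s + 1) (lft M f) = GG X1 (s + 1) f := by
  classical
  induction s with
  | zero =>
    intro M _ X1 f hf hM
    rw [c7a_succ]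
    have h1 : ∑ a ∈ Ioo (-(2 * X1 : ℤ)) (2 * X1), GG X1 0 (DD a f) =
        (∑ a ∈ Ioo (-(2 * X1 : ℤ)) (2 * X1), ∑ y ∈ Ico (-(X1 : ℤ)) X1, DD a f y).re := by
      rw [Complex.re_sum]
      exact Finset.sum_congr rfl fun a _ => c7a_zero X1 _
    rw [h1, c7a_sq hf.sup, Complex.ofReal_re]
    show ‖∑ y, lft M f y‖ ^ 2 = _
    have h2 := lft_sum M X1 f (fun _ => 1) hf.sup (by omega)
    simp only [mul_one] at h2
    rw [h2]
  | succ s ih =>
    intro M _ X1 f hf hM
    rw [c7a_succ]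
    show ∑ u : ZMod M, Gs (s + 1) (D2 0 u (lft M f)) = _
    have hM4 : (4 * X1 : ℤ) < M := by
      have : 4 * X1 < M := by omega
      exact_mod_cast this
    have hz : ∀ t ∈ Ioo (-(2 * X1 : ℤ)) (2 * X1), 2 * |t| < M := by
      intro t ht
      rw [mem_Ioo] at ht
      have h1 : |t| ≤ 2 * X1 := abs_le.mpr ⟨by linarith [ht.1], ht.2.le⟩
      linarith
    have hinj : Set.InjOn (fun z : ℤ => (z : ZMod M)) (Ioo (-(2 * X1 : ℤ)) (2 * X1) : Finset ℤ) := by
      intro a ha b hb hab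
      have h1 := lft_val M (fun z => (z : ℂ)) a (hz a ha)
      have h2 := lft_val M (fun z => (z : ℂ)) b (hz b hb)
      have h3 : ((a : ZMod M)) = b := hab
      rw [h3, h2] at h1
      exact_mod_cast h1.symm
    have hout : ∀ u : ZMod M, u ∉ (Ioo (-(2 * X1 : ℤ)) (2 * X1)).image (fun z : ℤ => (z : ZMod M)) →
        Gs (s + 1) (D2 0 u (lft M f)) = 0 := by
      intro u hu
      have h1 : D2 0 u (lft M f) = fun _ : ZMod M => (0 : ℂ) := by
        funext y
        show lft M f (y + 0) * (starRingEnd ℂ) (lft M f (y + u)) = 0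
        rw [add_zero]
        by_cases hy : y.valMinAbs ∈ Ico (-(X1 : ℤ)) X1
        · by_cases hw : (y + u).valMinAbs ∈ Ico (-(X1 : ℤ)) X1
          · exfalso
            apply hu
            rw [mem_image]
            refine ⟨(y + u).valMinAbs - y.valMinAbs, ?_, ?_⟩
            · rw [mem_Ico] at hy hw
              rw [mem_Ioo]
              omega
            · show (((y + u).valMinAbs - y.valMinAbs : ℤ) : ZMod M) = u
              rw [Int.cast_sub, ZMod.coe_valMinAbs, ZMod.coe_valMinAbs]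
              ring
          · have h0 : lft M f (y + u) = 0 := hf.sup _ hw
            rw [h0, map_zero, mul_zero]
        · have h0 : lft M f y = 0 := hf.sup _ hy
          rw [h0, zero_mul]
      rw [h1]
      exact c7a_Gs0 s
    calc ∑ u : ZMod M, Gs (s + 1) (D2 0 u (lft M f))
        = ∑ u ∈ (Ioo (-(2 * X1 : ℤ)) (2 * X1)).image (fun z : ℤ => (z : ZMod M)),
            Gs (s + 1) (D2 0 u (lft M f)) := by
          symm
          exact Finset.sum_subset (subset_univ _) fun u _ hu => hout u hu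
      _ = ∑ z ∈ Ioo (-(2 * X1 : ℤ)) (2 * X1), Gs (s + 1) (D2 0 (z : ZMod M) (lft M f)) :=
          Finset.sum_image hinj
      _ = ∑ z ∈ Ioo (-(2 * X1 : ℤ)) (2 * X1), GG X1 (s + 1) (DD z f) := by
          refine Finset.sum_congr rfl fun z hzz => ?_
          rw [c7a_D2 M X1 f hf hM z hzz]
          refine ih M X1 (DD z f) ⟨fun y => ?_, fun y hy => ?_⟩ hM
          · unfold DD
            rw [norm_mul, RCLike.norm_conj]
            exact mul_le_one₀ (hf.le _) (norm_nonneg _) (hf.le _)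
          · unfold DD
            rw [hf.sup y hy, zero_mul]

end Pool.Agent.HPP
end

-- from Lib.HPP.BDefs
section

/-!
# Project HPP, module B (PET). Definitions

A bystander is a function `A t n`, `t ∈ ℤ/M`, `n ∈ ℤ`, which vanishes unless `0 ≤ n < X`. `EO h W A (t, n) = A(t, n) conj A(t + W(n), n + h)`.
-/

open Finset Polynomial

namespace Pool.Agent.HPP

noncomputable section

/-- Degree at most `d`, coefficient of `x ^ d` equal to `r`. -/
def PD (d : ℕ) (r : ℤ) (R : ℤ[X]) : Prop := R.natDegree ≤ d ∧ R.coeff d = r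

/-- The polynomials `W` which occur when a function with a polynomial of degree `≤ d` and leading coefficient `r` is eliminated with
the shift `h`. -/
def PW : ℕ → ℤ → ℤ → ℤ[X] → Prop
  | 0, _, _, W => W = 0
  | d + 1, h, r, W => PD d (-(((d : ℤ) + 1) * h * r)) W

/-- The elementary operator. -/
def EO {M : ℕ} (h : ℤ) (W : ℤ[X]) (A : ZMod M → ℤ → ℂ) : ZMod M → ℤ → ℂ :=
  fun t n => A t n * (starRingEnd ℂ) (A (t + ((W.eval n : ℤ) : ZMod M)) (n + h))

/-- A list of elementary operators (the head is applied first). -/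
def EL {M : ℕ} : List (ℤ × ℤ[X]) → (ZMod M → ℤ → ℂ) → ZMod M → ℤ → ℂ
  | [], A => A
  | p :: l, A => EL l (EO p.1 p.2 A)

/-- Functions with polynomials. -/
abbrev Fam (M : ℕ) : Type := List ((ZMod M → ℂ) × ℤ[X])

/-- The product of the functions `f(t + R(n))`. -/
def pr {M : ℕ} (L : Fam M) (t : ZMod M) (n : ℤ) : ℂ := (L.map fun p => p.1 (t + ((p.2.eval n : ℤ) : ZMod M))).prod

/-- The family after one elementary operator. -/
def XO {M : ℕ} (h : ℤ) (W : ℤ[X]) (L : Fam M) : Fam M :=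
  L ++ L.map fun p => ((fun y => (starRingEnd ℂ) (p.1 y)), W + taylor h p.2)

/-- The family after a list of elementary operators. -/
def XL {M : ℕ} : List (ℤ × ℤ[X]) → Fam M → Fam M
  | [], L => L
  | p :: l, L => XL l (XO p.1 p.2 L)

/-- The sum over `t` and `0 ≤ n < X`. -/
def SS {M : ℕ} [NeZero M] (X : ℕ) (A : ZMod M → ℤ → ℂ) : ℂ := ∑ t : ZMod M, ∑ n ∈ Ico (0 : ℤ) X, A t n

/-- Vanishes unless `0 ≤ n < X`. -/
def Vn {M : ℕ} (X : ℕ) (A : ZMod M → ℤ → ℂ) : Prop := ∀ t n, n ∉ Ico (0 : ℤ) X → A t n = 0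

/-- A class: functions in `FN N`, polynomials of degree `≤ d` with the same coefficient `r` of `x ^ d`. -/
def Cls {M : ℕ} (N : ℝ) (d : ℕ) (r : ℤ) (L : Fam M) : Prop := ∀ p ∈ L, FN N p.1 ∧ PD d r p.2

/-- **Elimination of one class** with `s` functions in `ρ` steps. -/
def KC (d s ρ : ℕ) : Prop := ∀ (M : ℕ) [NeZero M] (X : ℕ) (N : ℝ), 0 < X → 0 < N → ∀ (r : ℤ) (L : Fam M), L.length = s →
  Cls N d r L → ∀ A : ZMod M → ℤ → ℂ, Vn X A → ∃ W : List ℤ → List ℤ[X],
    (∀ l : List ℤ, l.length = ρ → List.Forall₂ (fun h w => PW d h r w) l (W l)) ∧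
    (‖SS X fun t n => A t n * pr L t n‖ / (N * X)) ^ (2 ^ ρ) ≤
      3 ^ (2 ^ ρ - 1) * AL X ρ fun l => ‖SS X (EL (l.zip (W l)) A)‖ / (N * X)

/-- **Elimination of several classes** `C = [(r_1, L_1), …]` with the sizes in the list `sz`; `lab` is the list of the labels
(positions of classes) of the steps. -/
def KF (d : ℕ) (sz lab : List ℕ) : Prop := ∀ (M : ℕ) [NeZero M] (X : ℕ) (N : ℝ), 0 < X → 0 < N → ∀ C : List (ℤ × Fam M),
  (C.map fun c => c.2.length) = sz → (∀ c ∈ C, Cls N d c.1 c.2) → ∀ A : ZMod M → ℤ → ℂ, Vn X A → ∃ W : List ℤ → List ℤ[X],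
    (∀ l : List ℤ, l.length = lab.length → (W l).length = lab.length ∧
      List.Forall₂ (fun (p : ℤ × ℤ[X]) (k : ℕ) => PW d p.1 ((C.map Prod.fst).getD k 0) p.2) (l.zip (W l)) lab) ∧
    (‖SS X fun t n => A t n * (C.map fun c => pr c.2 t n).prod‖ / (N * X)) ^ (2 ^ lab.length) ≤
      3 ^ (2 ^ lab.length - 1) * AL X lab.length fun l => ‖SS X (EL (l.zip (W l)) A)‖ / (N * X)

/-- The coefficients of `x ^ d` of the copies of the target after the elimination of functions of degree `≤ d + 1` with leading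
coefficients `r` (labels `lab`, parameters `l`): copy number `j` (binary digits = set of steps). -/
def rn (d : ℕ) {q : ℕ} (lab : List ℕ) (r : Fin q → ℤ) (l : List ℤ) (j : ℕ) : ℤ :=
  -(((d : ℤ) + 1) * ∑ i ∈ range lab.length, if j.testBit i then l.getD i 0 * (List.ofFn r).getD (lab.getD i 0) 0 else 0)

/-- **The complete elimination** (inequality): `q` functions of degree `≤ d` with leading coefficients `r`; `ρ` parameters, `n` directions
`c r k l`. -/
def FU (d q ρ n E : ℕ) (K : ℝ) (c : (Fin q → ℤ) → Fin n → List ℤ → ℤ) : Prop :=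
  ∀ (M : ℕ) [NeZero M] (X : ℕ) (N : ℝ), 0 < X → 0 < N → ∀ (r : Fin q → ℤ) (f : Fin q → ZMod M → ℂ) (R : Fin q → ℤ[X]),
    (∀ j, FN N (f j) ∧ PD d (r j) (R j)) → ∀ f0 : ZMod M → ℂ, FN N f0 → ∀ a b : ℤ, 0 ≤ a → b ≤ X →
    (‖∑ t : ZMod M, ∑ n ∈ Ico a b, f0 t * ∏ j, f j (t + (((R j).eval n : ℤ) : ZMod M))‖ / (N * X)) ^ E ≤
      K * AL X ρ fun l => NN (List.ofFn fun k => cdir M X (c r k l)) f0 / N

/-- Iterated one-sided differences. -/
def DI {M : ℕ} : List (ZMod M) → (ZMod M → ℂ) → ZMod M → ℂ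
  | [], f => f
  | w :: l, f => DI l (D2 0 w f)

/-- **The energy of the directions.** -/
def EP (d q ρ n : ℕ) (c : (Fin q → ℤ) → Fin n → List ℤ → ℤ) : Prop :=
  ∀ k : Fin n, ∃ κ : ℤ, κ ≠ 0 ∧ ∃ j : Fin q, ∀ (M X : ℕ) [NeZero M] (χ : AddChar (ZMod M) ℂ) (r : Fin q → ℤ),
    (AL X ρ fun l => KD X χ 1 (c r k l)) ≤ (KD X χ d (κ * r j)) ^ ((1 / 2 : ℝ) ^ (d - 1))

end

end Pool.Agent.HPP
end

-- from Lib.HPP.B1
section

/-!
# Project HPP, B1 (M): one Cauchy-Schwarz step; averages over lists of parameters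
-/

open Finset Polynomial

namespace Pool.Agent.HPP

theorem AL_zero (X : ℕ) (F : List ℤ → ℝ) : AL X 0 F = F [] := by
  unfold AL
  have : (fun v : Fin 0 → Iv X => F (List.ofFn fun i => ((v i : Iv X) : ℤ))) = fun _ => F [] := by
    funext v
    rw [List.ofFn_zero]
  rw [this, av_const]

/-- `Fin.consEquiv` / `Fin.insertNthEquiv`, `av_prod`, `av_equiv`, `List.ofFn_succ`. -/
theorem AL_succ (X ρ : ℕ) (F : List ℤ → ℝ) :
    AL X (ρ + 1) F = av fun h : Iv X => AL X ρ fun l => F ((h : ℤ) :: l) := by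
  have e1 : AL X (ρ + 1) F = av fun p : Iv X × (Fin ρ → Iv X) =>
      F (((p.1 : Iv X) : ℤ) :: List.ofFn fun i => ((p.2 i : Iv X) : ℤ)) := by
    unfold AL
    rw [← av_equiv (Fin.consEquiv fun _ : Fin (ρ + 1) => Iv X)]
    refine congrArg av (funext fun p => ?_)
    rw [List.ofFn_succ]
    rfl
  rw [e1, av_prod]
  rfl

/-- Induction on `ρ`. -/
theorem AL_add (X ρ ρ' : ℕ) (F : List ℤ → ℝ) : AL X (ρ + ρ') F = AL X ρ fun l => AL X ρ' fun l' => F (l ++ l') := by
  induction ρ generalizing F with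
  | zero =>
    rw [AL_zero, Nat.zero_add]
    rfl
  | succ ρ ih =>
    rw [show ρ + 1 + ρ' = ρ + ρ' + 1 by omega, AL_succ, AL_succ]
    exact congrArg av (funext fun h => ih _)

/-- Only lists of length `ρ` matter. -/
theorem AL_mono (X ρ : ℕ) {F H : List ℤ → ℝ} (h : ∀ l : List ℤ, l.length = ρ → F l ≤ H l) : AL X ρ F ≤ AL X ρ H := by
  unfold AL
  exact av_mono fun v => h _ (List.length_ofFn)

theorem AL_congr (X ρ : ℕ) {F H : List ℤ → ℝ} (h : ∀ l : List ℤ, l.length = ρ → F l = H l) : AL X ρ F = AL X ρ H :=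
  le_antisymm (AL_mono X ρ fun l hl => (h l hl).le) (AL_mono X ρ fun l hl => (h l hl).ge)

theorem AL_nonneg (X ρ : ℕ) {F : List ℤ → ℝ} (h : ∀ l : List ℤ, l.length = ρ → 0 ≤ F l) : 0 ≤ AL X ρ F := by
  unfold AL
  exact av_nonneg fun v => h _ (List.length_ofFn)


theorem AL_mul_left (X ρ : ℕ) (c : ℝ) (F : List ℤ → ℝ) : (AL X ρ fun l => c * F l) = c * AL X ρ F := by
  unfold AL
  exact av_mul_left c _

/-- `av_pow`. -/
theorem AL_pow (X ρ n : ℕ) {F : List ℤ → ℝ} (h : ∀ l, 0 ≤ F l) : (AL X ρ F) ^ n ≤ AL X ρ fun l => F l ^ n := by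
  unfold AL
  exact av_pow n fun v => h _

theorem b1_shift (X : ℕ) (n : ℤ) (hn : n ∈ Ico (0 : ℤ) X) (G : ℤ → ℂ) (hG : ∀ n', n' ∉ Ico (0 : ℤ) X → G n' = 0) :
    ∑ n' ∈ Ico (0 : ℤ) X, G n' = ∑ h : Iv X, G (n + (h : ℤ)) := by
  rw [Finset.sum_coe_sort (Icc (-(X : ℤ)) X) (fun h => G (n + h))]
  have h1 : ∑ h ∈ Icc (-(X : ℤ)) X, G (n + h) = ∑ n' ∈ Icc (n - X) (n + X), G n' := by
    refine Finset.sum_nbij' (fun h => n + h) (fun n' => n' - n) ?_ ?_ ?_ ?_ ?_
    · intro h hh
      rw [mem_Icc] at hh ⊢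
      constructor <;> linarith [hh.1, hh.2]
    · intro h hh
      rw [mem_Icc] at hh ⊢
      constructor <;> linarith [hh.1, hh.2]
    · intro h _
      ring
    · intro h _
      ring
    · intro h _
      rfl
  rw [h1]
  refine Finset.sum_subset ?_ fun n' _ h => hG n' h
  intro n' hn'
  rw [mem_Ico] at hn hn'
  rw [mem_Icc]
  constructor <;> linarith [hn.1, hn.2, hn'.1, hn'.2]

/-- **B1.** Proof. Put `m(n)` for the value of `P` at `n`. For fixed `n` replace `t` by `t - m(n)`: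
`SS = ∑_t f(t) ∑_n A(t - m(n), n)`. `FN.cs`: `|SS|² ≤ N ∑_t |∑_n A(t - m(n), n)|² = N ∑_{n, n' ∈ [0, X)} ∑_t A(t - m(n), n) conj A(t - m(n'), n')`.
Put `n' = n + h`, `|h| < X` (for `n'` outside `[0, X)` the term is zero, `Vn`), replace `t` by `t + m(n)`: the sum over `t, n` is
`SS X (EO h W A)` with `W(n) = -(m(n + h) - m(n))` (`taylor_eval`). Absolute values for every `h`: `|SS|² ≤ N ∑_{|h| < X} |SS_h|
≤ N (2 X + 1) av_{|h| ≤ X} |SS_h| ≤ 3 N X av_h |SS_h|`. -/
theorem B1_step (M : ℕ) [NeZero M] (X : ℕ) (N : ℝ) (hX : 0 < X) (hN : 0 < N) (f : ZMod M → ℂ) (hf : FN N f) (P : ℤ[X])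
    (A : ZMod M → ℤ → ℂ) (hA : Vn X A) :
    (‖SS X fun t n => A t n * f (t + ((P.eval n : ℤ) : ZMod M))‖ / (N * X)) ^ 2 ≤
      3 * av fun h : Iv X => ‖SS X (EO (h : ℤ) (-(taylor (h : ℤ) P - P)) A)‖ / (N * X) := by
  obtain ⟨m, hm⟩ : ∃ m : ℤ → ZMod M, m = fun n => ((P.eval n : ℤ) : ZMod M) := ⟨_, rfl⟩
  obtain ⟨W, hW⟩ : ∃ W : ZMod M → ℂ, W = fun t => ∑ n ∈ Ico (0 : ℤ) X, A (t - m n) n := ⟨_, rfl⟩
  obtain ⟨S, hS⟩ : ∃ S : Iv X → ℂ, S = fun h : Iv X => SS X (EO (h : ℤ) (-(taylor (h : ℤ) P - P)) A) := ⟨_, rfl⟩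
  have e1 : SS X (fun t n => A t n * f (t + ((P.eval n : ℤ) : ZMod M))) = ∑ t, f t * W t := by
    unfold SS
    rw [Finset.sum_comm]
    have : ∀ n : ℤ, ∑ t : ZMod M, A t n * f (t + ((P.eval n : ℤ) : ZMod M)) = ∑ t, f t * A (t - m n) n := by
      intro n
      rw [hm]
      refine Eq.trans ?_ (Equiv.sum_comp (Equiv.addRight ((P.eval n : ℤ) : ZMod M))
        (fun t => f t * A (t - ((P.eval n : ℤ) : ZMod M)) n))
      refine Finset.sum_congr rfl fun t _ => ?_
      simp only [Equiv.coe_addRight, add_sub_cancel_right]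
      rw [mul_comm]
    rw [Finset.sum_congr rfl fun n _ => this n, Finset.sum_comm, hW]
    refine Finset.sum_congr rfl fun t _ => ?_
    rw [Finset.mul_sum]
  have e2 : ((∑ t, ‖W t‖ ^ 2 : ℝ) : ℂ) = ∑ h, S h := by
    have h1 : ((∑ t, ‖W t‖ ^ 2 : ℝ) : ℂ) = ∑ t, ∑ n ∈ Ico (0 : ℤ) X, ∑ n' ∈ Ico (0 : ℤ) X,
        A (t - m n) n * (starRingEnd ℂ) (A (t - m n') n') := by
      rw [Complex.ofReal_sum]
      refine Finset.sum_congr rfl fun t _ => ?_
      rw [Complex.ofReal_pow, ← Complex.mul_conj', hW, map_sum, Finset.sum_mul_sum]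
    have h2 : ∀ n : ℤ, ∑ t : ZMod M, ∑ n' ∈ Ico (0 : ℤ) X, A (t - m n) n * (starRingEnd ℂ) (A (t - m n') n') =
        ∑ t : ZMod M, ∑ n' ∈ Ico (0 : ℤ) X, A t n * (starRingEnd ℂ) (A (t + (m n - m n')) n') := by
      intro n
      refine (Equiv.sum_comp (Equiv.addRight (m n)) (fun t => ∑ n' ∈ Ico (0 : ℤ) X,
        A (t - m n) n * (starRingEnd ℂ) (A (t - m n') n'))).symm.trans ?_
      refine Finset.sum_congr rfl fun t _ => Finset.sum_congr rfl fun n' _ => ?_
      simp only [Equiv.coe_addRight, add_sub_cancel_right]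
      rw [add_sub_assoc]
    have h3 : ∀ n ∈ Ico (0 : ℤ) X, ∀ t : ZMod M,
        ∑ n' ∈ Ico (0 : ℤ) X, A t n * (starRingEnd ℂ) (A (t + (m n - m n')) n') =
        ∑ h : Iv X, A t n * (starRingEnd ℂ) (A (t + (m n - m (n + (h : ℤ)))) (n + (h : ℤ))) := by
      intro n hn t
      refine b1_shift X n hn (fun n' => A t n * (starRingEnd ℂ) (A (t + (m n - m n')) n')) fun n' hn' => ?_
      rw [hA _ n' hn', map_zero, mul_zero]
    rw [h1, Finset.sum_comm, hS]
    rw [Finset.sum_congr rfl fun n _ => h2 n]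
    rw [Finset.sum_congr rfl fun n hn => Finset.sum_congr rfl fun t _ => h3 n hn t]
    unfold SS EO
    rw [Finset.sum_comm, Finset.sum_comm (s := (univ : Finset (Iv X)))]
    refine Finset.sum_congr rfl fun t _ => ?_
    rw [Finset.sum_comm]
    refine Finset.sum_congr rfl fun h _ => Finset.sum_congr rfl fun n _ => ?_
    have : m n - m (n + (h : ℤ)) = ((((-(taylor (h : ℤ) P - P)).eval n : ℤ)) : ZMod M) := by
      rw [hm, eval_neg, eval_sub, taylor_eval]
      push_cast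
      ring_nf
    rw [this]
  have e3 : ∑ t, ‖W t‖ ^ 2 ≤ 3 * X * av fun h => ‖S h‖ := by
    have h1 : (∑ t, ‖W t‖ ^ 2 : ℝ) ≤ ∑ h, ‖S h‖ := by
      have h0 : 0 ≤ (∑ t, ‖W t‖ ^ 2 : ℝ) := Finset.sum_nonneg fun t _ => sq_nonneg _
      calc (∑ t, ‖W t‖ ^ 2 : ℝ) = ‖((∑ t, ‖W t‖ ^ 2 : ℝ) : ℂ)‖ := by
            rw [Complex.norm_real, Real.norm_of_nonneg h0]
        _ = ‖∑ h, S h‖ := by rw [e2]
        _ ≤ _ := norm_sum_le _ _
    refine h1.trans ?_
    unfold av
    have hc : (Fintype.card (Iv X) : ℝ) = 2 * X + 1 := by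
      rw [Fintype.card_coe, Int.card_Icc]
      have : ((X : ℤ) + 1 - -(X : ℤ)).toNat = 2 * X + 1 := by omega
      rw [this]
      push_cast
      ring
    have hX1 : (1 : ℝ) ≤ X := by exact_mod_cast hX
    have hs : 0 ≤ ∑ h, ‖S h‖ := Finset.sum_nonneg fun h _ => norm_nonneg _
    rw [hc, mul_div_assoc', le_div_iff₀ (by linarith)]
    nlinarith
  have e4 : ‖SS X (fun t n => A t n * f (t + ((P.eval n : ℤ) : ZMod M)))‖ ^ 2 ≤
      N * (3 * X * av fun h => ‖S h‖) := by
    rw [e1]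
    exact (hf.cs W).trans (mul_le_mul_of_nonneg_left e3 hN.le)
  have hX0 : (0 : ℝ) < X := by exact_mod_cast hX
  have e5 : (av fun h : Iv X => ‖SS X (EO (h : ℤ) (-(taylor (h : ℤ) P - P)) A)‖ / (N * X)) =
      (av fun h => ‖S h‖) / (N * X) := by
    rw [hS, av_div]
  rw [e5, div_pow, div_le_iff₀ (by positivity)]
  refine e4.trans (le_of_eq ?_)
  field_simp

end Pool.Agent.HPP
end

-- from Lib.HPP.C1
section

/-!
# Project HPP, C1 (M): the functions `KD`
-/

open Finset

namespace Pool.Agent.HPP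

variable {M : ℕ} [NeZero M] (X : ℕ) (χ : AddChar (ZMod M) ℂ)

/-- a character times a conjugate value -/
theorem c1_char (x a b : ℤ) : χ ((x * a : ℤ) : ZMod M) * (starRingEnd ℂ) (χ ((x * b : ℤ) : ZMod M)) =
    χ ((x * (a - b) : ℤ) : ZMod M) := by
  rw [← AddChar.map_neg_eq_conj, ← AddChar.map_add_eq_mul]
  congr 1
  push_cast
  ring

/-- Adding a first coordinate. -/
theorem c1_cons (d : ℕ) (F : (Fin (d + 1) → Iv X × Iv X) → ℂ) :
    avc F = avc fun p : Iv X × Iv X => avc fun P : Fin d → Iv X × Iv X => F (Fin.cons p P) := by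
  rw [← avc_equiv (Fin.consEquiv fun _ : Fin (d + 1) => Iv X × Iv X) F, avc_prod]
  rfl

theorem c1_consr (d : ℕ) (F : (Fin (d + 1) → Iv X × Iv X) → ℝ) :
    av F = av fun p : Iv X × Iv X => av fun P : Fin d → Iv X × Iv X => F (Fin.cons p P) := by
  rw [← av_equiv (Fin.consEquiv fun _ : Fin (d + 1) => Iv X × Iv X) F, av_prod]
  rfl

/-- The product after adding a first coordinate. -/
theorem c1_prod (d : ℕ) (x : ℤ) (p : Iv X × Iv X) (P : Fin d → Iv X × Iv X) :
    x * ∏ i, ((((Fin.cons p P : Fin (d + 1) → Iv X × Iv X) i).1 : ℤ) -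
      (((Fin.cons p P : Fin (d + 1) → Iv X × Iv X) i).2 : ℤ)) =
    x * ((p.1 : ℤ) - (p.2 : ℤ)) * ∏ i, (((P i).1 : ℤ) - ((P i).2 : ℤ)) := by
  rw [Fin.prod_univ_succ]
  simp only [Fin.cons_zero, Fin.cons_succ]
  ring

/-- `0 ≤ KD ≤ 1`. -/
theorem KD_nonneg (d : ℕ) (x : ℤ) : 0 ≤ KD X χ d x := by
  induction d generalizing x with
  | zero => exact zero_le_one
  | succ d ih =>
    cases d with
    | zero => exact sq_nonneg _
    | succ d => exact av_nonneg fun p => ih _

theorem KD_le (d : ℕ) (x : ℤ) : KD X χ d x ≤ 1 := by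
  induction d generalizing x with
  | zero => exact le_refl _
  | succ d ih =>
    cases d with
    | zero =>
      have h1 : ‖avc fun m : Iv X => χ ((x * (m : ℤ) : ℤ) : ZMod M)‖ ≤ 1 := by
        refine (norm_avc_le _).trans (av_le fun m => ?_)
        rw [AddChar.norm_apply]
      exact pow_le_one₀ (norm_nonneg _) h1
    | succ d => exact av_le fun p => ih _

/-- `KD` as an average of characters: `d ≥ 1`. Induction on `d`: `d = 1`: `avc_mul_conj` (`χ a conj (χ b) = χ (a - b)`); step: `av_ofReal`, `Fin.consEquiv`. -/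
theorem KD_char (d : ℕ) (hd : 1 ≤ d) (x : ℤ) : ((KD X χ d x : ℝ) : ℂ) =
    avc fun P : Fin d → Iv X × Iv X => χ ((x * ∏ i, (((P i).1 : ℤ) - ((P i).2 : ℤ)) : ℤ) : ZMod M) := by
  obtain ⟨e, rfl⟩ : ∃ e, d = e + 1 := ⟨d - 1, by omega⟩
  clear hd
  induction e generalizing x with
  | zero =>
    have h0 : KD X χ (0 + 1) x = ‖avc fun m : Iv X => χ ((x * (m : ℤ) : ℤ) : ZMod M)‖ ^ 2 := rfl
    rw [h0, Complex.ofReal_pow, ← Complex.mul_conj', avc_mul_conj, c1_cons]
    congr 1
    funext p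
    have h1 : ∀ P : Fin 0 → Iv X × Iv X,
        χ ((x * ∏ i, ((((Fin.cons p P : Fin (0 + 1) → Iv X × Iv X) i).1 : ℤ) -
          (((Fin.cons p P : Fin (0 + 1) → Iv X × Iv X) i).2 : ℤ)) : ℤ) : ZMod M) =
        χ ((x * ((p.1 : ℤ) - (p.2 : ℤ)) : ℤ) : ZMod M) := by
      intro P
      rw [c1_prod]
      congr 2
      simp
    simp only [h1]
    rw [avc_const, c1_char]
  | succ e ih =>
    have h0 : KD X χ (e + 1 + 1) x = av fun p : Iv X × Iv X => KD X χ (e + 1) (x * ((p.1 : ℤ) - (p.2 : ℤ))) := rfl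
    rw [h0, av_ofReal, c1_cons]
    congr 1
    funext p
    rw [ih]
    congr 1
    funext P
    rw [c1_prod]

/-- `KD (d + 1)` as an average of `KD 1`. Induction on `d`. -/
theorem KD_one (d : ℕ) (x : ℤ) : KD X χ (d + 1) x =
    av fun P : Fin d → Iv X × Iv X => KD X χ 1 (x * ∏ i, (((P i).1 : ℤ) - ((P i).2 : ℤ))) := by
  induction d generalizing x with
  | zero =>
    have h1 : ∀ P : Fin 0 → Iv X × Iv X, KD X χ 1 (x * ∏ i, (((P i).1 : ℤ) - ((P i).2 : ℤ))) = KD X χ 1 x := by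
      intro P
      rw [Fin.prod_univ_zero, mul_one]
    simp only [h1]
    rw [av_const]
  | succ e ih =>
    have h0 : KD X χ (e + 1 + 1) x = av fun p : Iv X × Iv X => KD X χ (e + 1) (x * ((p.1 : ℤ) - (p.2 : ℤ))) := rfl
    rw [h0, c1_consr]
    congr 1
    funext p
    rw [ih]
    congr 1
    funext P
    rw [c1_prod]

/-- `KD` is even (conjugation). -/
theorem KD_neg (d : ℕ) (x : ℤ) : KD X χ d (-x) = KD X χ d x := by
  induction d generalizing x with
  | zero => rfl
  | succ d ih =>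
    cases d with
    | zero =>
      have h0 : ∀ y : ℤ, KD X χ (0 + 1) y = ‖avc fun m : Iv X => χ ((y * (m : ℤ) : ℤ) : ZMod M)‖ ^ 2 := fun y => rfl
      rw [h0, h0]
      congr 1
      have h1 : (avc fun m : Iv X => χ ((-x * (m : ℤ) : ℤ) : ZMod M)) =
          (starRingEnd ℂ) (avc fun m : Iv X => χ ((x * (m : ℤ) : ℤ) : ZMod M)) := by
        rw [avc_star]
        congr 1
        funext m
        rw [← AddChar.map_neg_eq_conj]
        congr 1
        push_cast
        ring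
      rw [h1, Complex.norm_conj]
    | succ d =>
      have h0 : ∀ y : ℤ, KD X χ (d + 1 + 1) y =
          av fun p : Iv X × Iv X => KD X χ (d + 1) (y * ((p.1 : ℤ) - (p.2 : ℤ))) := fun y => rfl
      rw [h0, h0]
      congr 1
      funext p
      rw [neg_mul, ih]

/-- Jensen for roots: `av (F ^ s) ≤ (av F) ^ s` for `s = (1/2) ^ m`: with `G = F ^ s`, `(av G) ^ (2 ^ m) ≤ av (G ^ (2 ^ m)) = av F` (`AL_pow`). -/
theorem C1_root (X ρ m : ℕ) {F : List ℤ → ℝ} (h : ∀ l, 0 ≤ F l) :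
    (AL X ρ fun l => F l ^ ((1 / 2 : ℝ) ^ m)) ≤ (AL X ρ F) ^ ((1 / 2 : ℝ) ^ m) := by
  set s : ℝ := (1 / 2 : ℝ) ^ m with hs
  have hs0 : 0 ≤ s := by positivity
  have hs1 : s * ((2 ^ m : ℕ) : ℝ) = 1 := by
    rw [hs]
    push_cast
    rw [← mul_pow]
    norm_num
  have hG : ∀ l, 0 ≤ F l ^ s := fun l => Real.rpow_nonneg (h l) s
  have h1 := AL_pow X ρ (2 ^ m) hG
  have h2 : (fun l => (F l ^ s) ^ (2 ^ m)) = F := by
    funext l
    rw [← Real.rpow_natCast, ← Real.rpow_mul (h l), hs1, Real.rpow_one]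
  rw [h2] at h1
  have h3 : 0 ≤ AL X ρ fun l => F l ^ s := AL_nonneg X ρ fun l _ => hG l
  calc (AL X ρ fun l => F l ^ s) = ((AL X ρ fun l => F l ^ s) ^ (2 ^ m)) ^ s := by
        rw [← Real.rpow_natCast, ← Real.rpow_mul h3, mul_comm, hs1, Real.rpow_one]
    _ ≤ (AL X ρ F) ^ s := Real.rpow_le_rpow (pow_nonneg h3 _) h1 hs0

end Pool.Agent.HPP
end

-- from Lib.HPP.C1L
section

/-!
# Project HPP, C1L (M): the linear step for the energies
-/

open Finset

namespace Pool.Agent.HPP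

variable {M : ℕ} [NeZero M] (X : ℕ) (χ : AddChar (ZMod M) ℂ)

/-- Auxiliary: an entry of a list. -/
theorem c1l_getD {ρ : ℕ} (v : Fin ρ → ℤ) (a : ℕ) (ha : a < ρ) : (List.ofFn v).getD a 0 = v ⟨a, ha⟩ := by
  rw [List.getD_eq_getElem _ _ (by rw [List.length_ofFn]; exact ha), List.getElem_ofFn]

/-- Auxiliary: `rn` is affine in the `i`-th parameter. -/
theorem c1l_rn (d : ℕ) {q : ℕ} (lab : List ℕ) (r : Fin q → ℤ) (s i : ℕ) (hi : i < lab.length)
    (hs : s.testBit i = true) (v v' : Fin lab.length → ℤ) (hv : ∀ a, a ≠ ⟨i, hi⟩ → v a = v' a) :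
    rn d lab r (List.ofFn v) s = rn d lab r (List.ofFn v') s -
      ((d : ℤ) + 1) * (List.ofFn r).getD (lab.getD i 0) 0 * (v ⟨i, hi⟩ - v' ⟨i, hi⟩) := by
  have h1 : (∑ a ∈ range lab.length, if s.testBit a then (List.ofFn v).getD a 0 * (List.ofFn r).getD (lab.getD a 0) 0 else 0) -
      (∑ a ∈ range lab.length, if s.testBit a then (List.ofFn v').getD a 0 * (List.ofFn r).getD (lab.getD a 0) 0 else 0) =
      (v ⟨i, hi⟩ - v' ⟨i, hi⟩) * (List.ofFn r).getD (lab.getD i 0) 0 := by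
    rw [← Finset.sum_sub_distrib, Finset.sum_eq_single i]
    · rw [if_pos hs, if_pos hs, c1l_getD v i hi, c1l_getD v' i hi, sub_mul]
    · intro b hb hbi
      have hb' : b < lab.length := mem_range.1 hb
      have h2 : v ⟨b, hb'⟩ = v' ⟨b, hb'⟩ := hv _ fun h => hbi (Fin.mk.inj_iff.1 h)
      rw [c1l_getD v b hb', c1l_getD v' b hb', h2, sub_self]
    · intro h
      exact absurd (mem_range.2 hi) h
  unfold rn
  linear_combination (-((d : ℤ) + 1)) * h1

/-- Auxiliary: Jensen for the square root. -/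
theorem c1l_root {ι : Type*} [Fintype ι] [Nonempty ι] {F : ι → ℝ} (hF : ∀ x, 0 ≤ F x) :
    (av fun x => F x ^ (1 / 2 : ℝ)) ≤ (av F) ^ (1 / 2 : ℝ) := by
  rw [← Real.sqrt_eq_rpow]
  refine Real.le_sqrt_of_sq_le ?_
  refine (av_pow 2 fun x => Real.rpow_nonneg (hF x) _).trans (le_of_eq ?_)
  congr 1
  funext x
  rw [← Real.sqrt_eq_rpow, Real.sq_sqrt (hF x)]

/-- **The linear step.** `i < lab.length` is a digit of `s`. Proof. `KD_char`: `KD d (κ rn(l)) = avc_P χ(κ rn(l) ∏ P)`. `rn d lab r l s` is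
`-(d + 1) r_{lab i} l_i` plus a function of the other `l`'s. For fixed `P` and fixed other `l`'s average over `l_i ∈ [-X, X]` inside:
the absolute value is `‖avc_{h} χ(-(κ (d+1) r_{lab i} ∏ P) h)‖ = (KD 1 (κ (d+1) r_{lab i} ∏ P)) ^ (1/2)` (`KD_neg`); so the left side is
`≤ av_P (KD 1 (..)) ^ (1/2) ≤ (av_P KD 1 (..)) ^ (1/2) = (KD (d + 1) (κ (d+1) r_{lab i})) ^ (1/2)` (`av_pow`, `KD_one`). To average over one coordinate
of `v : Fin ρ → Iv X` use `av_equiv` with `Fin.insertNthEquiv` (or `Equiv.piSplitAt`). -/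
theorem C1_lin (d : ℕ) (hd : 1 ≤ d) {q : ℕ} (lab : List ℕ) (r : Fin q → ℤ) (κ : ℤ) (s i : ℕ) (hi : i < lab.length)
    (hs : s.testBit i = true) :
    (AL X lab.length fun l => KD X χ d (κ * rn d lab r l s)) ≤
      (KD X χ (d + 1) (κ * ((d : ℤ) + 1) * (List.ofFn r).getD (lab.getD i 0) 0)) ^ (1 / 2 : ℝ) := by
  classical
  obtain ⟨i', hi'⟩ : ∃ i' : Fin lab.length, i' = ⟨i, hi⟩ := ⟨_, rfl⟩
  obtain ⟨Rr, hRr⟩ : ∃ Rr : ℤ, Rr = (List.ofFn r).getD (lab.getD i 0) 0 := ⟨_, rfl⟩
  have hint : ∀ a b : ℤ, χ ((a + b : ℤ) : ZMod M) = χ (a : ZMod M) * χ (b : ZMod M) := by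
    intro a b
    rw [Int.cast_add, AddChar.map_add_eq_mul]
  -- one choice of the differences
  have hP : ∀ P : Fin d → Iv X × Iv X,
      ‖avc fun v : Fin lab.length → Iv X =>
        χ ((κ * rn d lab r (List.ofFn fun j => ((v j : Iv X) : ℤ)) s * ∏ j, (((P j).1 : ℤ) - ((P j).2 : ℤ)) : ℤ) : ZMod M)‖ ≤
      (KD X χ 1 (κ * ((d : ℤ) + 1) * Rr * ∏ j, (((P j).1 : ℤ) - ((P j).2 : ℤ)))) ^ (1 / 2 : ℝ) := by
    intro P
    obtain ⟨Pp, hPp⟩ : ∃ Pp : ℤ, Pp = ∏ j, (((P j).1 : ℤ) - ((P j).2 : ℤ)) := ⟨_, rfl⟩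
    rw [← hPp]
    rw [← avc_equiv (Equiv.funSplitAt i' (Iv X)).symm, avc_prod, avc_comm]
    refine (norm_avc_le _).trans (av_le fun w => ?_)
    obtain ⟨z0, hz0⟩ : ∃ z0 : Iv X, (z0 : ℤ) = 0 := ⟨⟨0, by rw [mem_Icc]; omega⟩, rfl⟩
    have hsplit : ∀ h : Iv X,
        χ ((κ * rn d lab r (List.ofFn fun j => ((((Equiv.funSplitAt i' (Iv X)).symm (h, w) : Fin lab.length → Iv X) j : Iv X) : ℤ)) s * Pp : ℤ) : ZMod M) =
        χ ((κ * rn d lab r (List.ofFn fun j => ((((Equiv.funSplitAt i' (Iv X)).symm (z0, w) : Fin lab.length → Iv X) j : Iv X) : ℤ)) s * Pp : ℤ) : ZMod M) *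
          χ ((-(κ * ((d : ℤ) + 1) * Rr * Pp) * (h : ℤ) : ℤ) : ZMod M) := by
      intro h
      rw [← hint]
      congr 2
      rw [c1l_rn d lab r s i hi hs
        (fun j => ((((Equiv.funSplitAt i' (Iv X)).symm (h, w) : Fin lab.length → Iv X) j : Iv X) : ℤ))
        (fun j => ((((Equiv.funSplitAt i' (Iv X)).symm (z0, w) : Fin lab.length → Iv X) j : Iv X) : ℤ)) ?_]
      · rw [← hRr, ← hi']
        have e1 : (((Equiv.funSplitAt i' (Iv X)).symm (h, w) : Fin lab.length → Iv X) i' : Iv X) = h := by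
          simp [Equiv.funSplitAt, Equiv.piSplitAt]
        have e2 : (((Equiv.funSplitAt i' (Iv X)).symm (z0, w) : Fin lab.length → Iv X) i' : Iv X) = z0 := by
          simp [Equiv.funSplitAt, Equiv.piSplitAt]
        rw [e1, e2, hz0]
        ring
      · intro a ha
        rw [← hi'] at ha
        simp [Equiv.funSplitAt, Equiv.piSplitAt, ha]
    have h1 : (avc fun h : Iv X =>
        χ ((κ * rn d lab r (List.ofFn fun j => ((((Equiv.funSplitAt i' (Iv X)).symm (h, w) : Fin lab.length → Iv X) j : Iv X) : ℤ)) s * Pp : ℤ) : ZMod M)) =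
        χ ((κ * rn d lab r (List.ofFn fun j => ((((Equiv.funSplitAt i' (Iv X)).symm (z0, w) : Fin lab.length → Iv X) j : Iv X) : ℤ)) s * Pp : ℤ) : ZMod M) *
          avc fun h : Iv X => χ ((-(κ * ((d : ℤ) + 1) * Rr * Pp) * (h : ℤ) : ℤ) : ZMod M) := by
      rw [← avc_mul_left]
      congr 1
      funext h
      exact hsplit h
    have h2 : ‖avc fun h : Iv X => χ ((-(κ * ((d : ℤ) + 1) * Rr * Pp) * (h : ℤ) : ℤ) : ZMod M)‖ =
        (KD X χ 1 (κ * ((d : ℤ) + 1) * Rr * Pp)) ^ (1 / 2 : ℝ) := by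
      rw [← KD_neg X χ 1 (κ * ((d : ℤ) + 1) * Rr * Pp), ← Real.sqrt_eq_rpow]
      show _ = √(‖avc fun m : Iv X => χ ((-(κ * ((d : ℤ) + 1) * Rr * Pp) * (m : ℤ) : ℤ) : ZMod M)‖ ^ 2)
      rw [Real.sqrt_sq (norm_nonneg _)]
    calc _ = ‖χ ((κ * rn d lab r (List.ofFn fun j => ((((Equiv.funSplitAt i' (Iv X)).symm (z0, w) : Fin lab.length → Iv X) j : Iv X) : ℤ)) s * Pp : ℤ) : ZMod M) *
          avc fun h : Iv X => χ ((-(κ * ((d : ℤ) + 1) * Rr * Pp) * (h : ℤ) : ℤ) : ZMod M)‖ := by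
            rw [← h1]
      _ ≤ (KD X χ 1 (κ * ((d : ℤ) + 1) * Rr * Pp)) ^ (1 / 2 : ℝ) := by
            rw [norm_mul, AddChar.norm_apply, one_mul, h2]
  -- all
  have hre : ((AL X lab.length fun l => KD X χ d (κ * rn d lab r l s) : ℝ) : ℂ) =
      avc fun P : Fin d → Iv X × Iv X => avc fun v : Fin lab.length → Iv X =>
        χ ((κ * rn d lab r (List.ofFn fun j => ((v j : Iv X) : ℤ)) s * ∏ j, (((P j).1 : ℤ) - ((P j).2 : ℤ)) : ℤ) : ZMod M) := by
    unfold AL
    rw [av_ofReal, avc_comm]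
    congr 1
    funext v
    exact KD_char X χ d hd _
  have h0 : 0 ≤ AL X lab.length fun l => KD X χ d (κ * rn d lab r l s) := by
    unfold AL
    exact av_nonneg fun v => KD_nonneg X χ d _
  calc (AL X lab.length fun l => KD X χ d (κ * rn d lab r l s))
      = ‖((AL X lab.length fun l => KD X χ d (κ * rn d lab r l s) : ℝ) : ℂ)‖ := by
        rw [Complex.norm_real, Real.norm_of_nonneg h0]
    _ ≤ av fun P : Fin d → Iv X × Iv X => (KD X χ 1 (κ * ((d : ℤ) + 1) * Rr * ∏ j, (((P j).1 : ℤ) - ((P j).2 : ℤ)))) ^ (1 / 2 : ℝ) := by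
        rw [hre]
        exact (norm_avc_le _).trans (av_mono hP)
    _ ≤ (av fun P : Fin d → Iv X × Iv X => KD X χ 1 (κ * ((d : ℤ) + 1) * Rr * ∏ j, (((P j).1 : ℤ) - ((P j).2 : ℤ)))) ^ (1 / 2 : ℝ) :=
        c1l_root fun P => KD_nonneg X χ 1 _
    _ = (KD X χ (d + 1) (κ * ((d : ℤ) + 1) * (List.ofFn r).getD (lab.getD i 0) 0)) ^ (1 / 2 : ℝ) := by
        rw [← hRr, KD_one]

end Pool.Agent.HPP
end

-- from Lib.HPP.C4a
section

/-!
# Project HPP, C4a (M): products of differences, divisor bound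
-/

open Finset

namespace Pool.Agent.HPP

/-- The law of a product of `d` differences: probability of the value `u`. -/
noncomputable def pv (X d : ℕ) (u : ℤ) : ℝ :=
  av fun P : Fin d → Iv X × Iv X => if ∏ i, (((P i).1 : ℤ) - ((P i).2 : ℤ)) = u then 1 else 0

/-- The average of a product of functions of independent variables. -/
theorem av_pi_prod {d : ℕ} {α : Type*} [Fintype α] (g : Fin d → α → ℝ) :
    (av fun P : Fin d → α => ∏ i, g i (P i)) = ∏ i, av (g i) := by
  classical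
  unfold av
  rw [Finset.prod_div_distrib, Finset.prod_univ_sum, Fintype.piFinset_univ]
  simp [Finset.card_univ]

/-- One difference: `P(k = v) ≤ 1 / X`. -/
theorem C4_one (X : ℕ) (hX : 0 < X) (v : ℤ) :
    (av fun p : Iv X × Iv X => if ((p.1 : ℤ) - (p.2 : ℤ)) = v then (1 : ℝ) else 0) ≤ 1 / X := by
  have hcard : (Fintype.card (Iv X) : ℝ) = 2 * X + 1 := by
    rw [Fintype.card_coe, Int.card_Icc]
    have : ((X : ℤ) + 1 - -(X : ℤ)).toNat = 2 * X + 1 := by omega
    rw [this]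
    push_cast
    ring
  rw [av_prod, av_comm]
  apply av_le
  intro y
  have hX' : (0 : ℝ) < X := by exact_mod_cast hX
  have h1 : (∑ x : Iv X, if ((x : ℤ) - (y : ℤ)) = v then (1 : ℝ) else 0) ≤ 1 := by
    rw [Finset.sum_boole]
    have : (Finset.univ.filter fun x : Iv X => ((x : ℤ) - (y : ℤ)) = v).card ≤ 1 := by
      rw [Finset.card_le_one]
      intro a ha b hb
      rw [Finset.mem_filter] at ha hb
      apply Subtype.ext
      have h2 := ha.2
      have h3 := hb.2
      linarith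
    exact_mod_cast this
  show (∑ x : Iv X, if ((x : ℤ) - (y : ℤ)) = v then (1 : ℝ) else 0) / (Fintype.card (Iv X) : ℝ) ≤ 1 / X
  rw [hcard]
  have h4 : (∑ x : Iv X, if ((x : ℤ) - (y : ℤ)) = v then (1 : ℝ) else 0) / (2 * X + 1 : ℝ) ≤ 1 / (2 * X + 1 : ℝ) := by
    gcongr
  refine h4.trans ?_
  apply one_div_le_one_div_of_le hX'
  linarith

/-- The integers dividing `u`. -/
noncomputable def zdiv (u : ℤ) : Finset ℤ :=
  (u.natAbs.divisors.image fun n : ℕ => (n : ℤ)) ∪ (u.natAbs.divisors.image fun n : ℕ => -(n : ℤ))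

theorem zdiv_card (u : ℤ) : (zdiv u).card ≤ 2 * u.natAbs.divisors.card := by
  unfold zdiv
  refine (Finset.card_union_le _ _).trans ?_
  have h1 := Finset.card_image_le (s := u.natAbs.divisors) (f := fun n : ℕ => (n : ℤ))
  have h2 := Finset.card_image_le (s := u.natAbs.divisors) (f := fun n : ℕ => -(n : ℤ))
  omega

theorem mem_zdiv {u v : ℤ} (hu : u ≠ 0) (h : v ∣ u) : v ∈ zdiv u := by
  unfold zdiv
  rw [Finset.mem_union, Finset.mem_image, Finset.mem_image]
  have h1 : v.natAbs ∈ u.natAbs.divisors := by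
    rw [Nat.mem_divisors]
    exact ⟨Int.natAbs_dvd_natAbs.2 h, Int.natAbs_ne_zero.2 hu⟩
  rcases Int.natAbs_eq v with h2 | h2
  · exact Or.inl ⟨v.natAbs, h1, h2.symm⟩
  · exact Or.inr ⟨v.natAbs, h1, h2.symm⟩

/-- **C4a.** `u ≠ 0`: all factors divide `u`, `|u| ≤ (2X)^d`: at most `τ(|u|) ^ d 2 ^ d ≤ C X^ε` vectors `(k_i)`, each of probability `≤ X^(-d)`
(the pairs for different `i` are independent: `av` of a product). Divisor bound: e.g. `Pool.Agent.Lib...` (grep `card_divisors_le` / `tau_le`). -/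
theorem C4_ne (d : ℕ) (ε : ℝ) (hε : 0 < ε) : ∃ C : ℝ, 0 ≤ C ∧ ∀ X : ℕ, 0 < X → ∀ u : ℤ, u ≠ 0 →
    pv X d u ≤ C * (X : ℝ) ^ (ε - d) := by
  obtain ⟨η, hη⟩ : ∃ η : ℝ, η = ε / ((d : ℝ) ^ 2 + 1) := ⟨_, rfl⟩
  have hd0 : (0 : ℝ) ≤ (d : ℝ) ^ 2 := by positivity
  have hη0 : 0 < η := by rw [hη]; positivity
  obtain ⟨C0, hC0, hdb⟩ := Pool.Agent.Lib.H21AP.divisor_bound hη0
  refine ⟨(2 * C0) ^ d * 2 ^ ε, by positivity, ?_⟩
  intro X hX u hu
  have hX' : (1 : ℝ) ≤ X := by exact_mod_cast hX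
  have hX0 : (0 : ℝ) < X := by linarith
  by_cases hbig : (2 * X) ^ d < u.natAbs
  · -- the value is too large
    have h0 : pv X d u = 0 := by
      unfold pv av
      rw [Finset.sum_eq_zero, zero_div]
      intro P _
      rw [if_neg]
      intro h
      have h1 : u.natAbs ≤ (2 * X) ^ d := by
        have hna : ∀ (s : Finset (Fin d)) (g : Fin d → ℤ), (∏ i ∈ s, g i).natAbs = ∏ i ∈ s, (g i).natAbs :=
          fun s g => map_prod Int.natAbsHom g s
        rw [← h, hna]
        calc ∏ i, (((P i).1 : ℤ) - ((P i).2 : ℤ)).natAbs ≤ ∏ _i : Fin d, (2 * X) := by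
              apply Finset.prod_le_prod' 
              intro i _
              have h2 := Finset.mem_Icc.1 (P i).1.2
              have h3 := Finset.mem_Icc.1 (P i).2.2
              omega
          _ = (2 * X) ^ d := by simp
      omega
    rw [h0]
    positivity
  · push Not at hbig
    have hle : pv X d u ≤ ∑ v ∈ Fintype.piFinset fun _ : Fin d => zdiv u, (1 / (X : ℝ)) ^ d := by
      calc pv X d u ≤ av fun P : Fin d → Iv X × Iv X => ∑ v ∈ Fintype.piFinset fun _ : Fin d => zdiv u,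
            ∏ i, (if (((P i).1 : ℤ) - ((P i).2 : ℤ)) = v i then (1 : ℝ) else 0) := by
            unfold pv
            apply av_mono
            intro P
            split_ifs with h
            · have hmem : (fun i => (((P i).1 : ℤ) - ((P i).2 : ℤ))) ∈ Fintype.piFinset fun _ : Fin d => zdiv u := by
                rw [Fintype.mem_piFinset]
                intro i
                apply mem_zdiv hu
                rw [← h]
                exact Finset.dvd_prod_of_mem _ (Finset.mem_univ i)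
              have h1 := Finset.single_le_sum (f := fun v : Fin d → ℤ =>
                ∏ i, (if (((P i).1 : ℤ) - ((P i).2 : ℤ)) = v i then (1 : ℝ) else 0))
                (fun v _ => Finset.prod_nonneg fun i _ => by split_ifs <;> norm_num) hmem
              refine le_trans ?_ h1
              simp
            · apply Finset.sum_nonneg
              intro v _
              apply Finset.prod_nonneg
              intro i _
              split_ifs <;> norm_num
        _ = ∑ v ∈ Fintype.piFinset fun _ : Fin d => zdiv u, ∏ i, av fun p : Iv X × Iv X =>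
            (if ((p.1 : ℤ) - (p.2 : ℤ)) = v i then (1 : ℝ) else 0) := by
            rw [av_sum]
            apply Finset.sum_congr rfl
            intro v _
            exact av_pi_prod fun i (p : Iv X × Iv X) => (if ((p.1 : ℤ) - (p.2 : ℤ)) = v i then (1 : ℝ) else 0)
        _ ≤ _ := by
            apply Finset.sum_le_sum
            intro v _
            calc _ ≤ ∏ _i : Fin d, (1 / (X : ℝ)) := by
                  apply Finset.prod_le_prod
                  · intro i _
                    apply av_nonneg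
                    intro p
                    split_ifs <;> norm_num
                  · intro i _
                    exact C4_one X hX (v i)
              _ = (1 / (X : ℝ)) ^ d := by simp
    refine hle.trans ?_
    rw [Finset.sum_const, nsmul_eq_mul, Fintype.card_piFinset]
    have hu1 : 1 ≤ u.natAbs := Nat.one_le_iff_ne_zero.2 (Int.natAbs_ne_zero.2 hu)
    have h2 : ((zdiv u).card : ℝ) ≤ (2 * C0) * (((2 * X : ℕ) : ℝ) ^ d) ^ η := by
      have h3 : ((zdiv u).card : ℝ) ≤ 2 * (u.natAbs.divisors.card : ℝ) := by exact_mod_cast zdiv_card u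
      have h4 := hdb u.natAbs hu1
      have h5 : ((u.natAbs : ℕ) : ℝ) ^ η ≤ (((2 * X : ℕ) : ℝ) ^ d) ^ η := by
        apply Real.rpow_le_rpow (by positivity) _ hη0.le
        exact_mod_cast hbig
      nlinarith
    have h6 : ((((zdiv u).card : ℕ) : ℝ)) ^ d ≤ ((2 * C0) * (((2 * X : ℕ) : ℝ) ^ d) ^ η) ^ d :=
      pow_le_pow_left₀ (Nat.cast_nonneg _) h2 d
    have h7 : ((((2 * X : ℕ) : ℝ) ^ d) ^ η) ^ d ≤ 2 ^ ε * (X : ℝ) ^ ε := by
      rw [← Real.mul_rpow (by norm_num) hX0.le]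
      rw [← Real.rpow_natCast, ← Real.rpow_natCast, ← Real.rpow_mul (by positivity), ← Real.rpow_mul (by positivity)]
      push_cast
      apply Real.rpow_le_rpow_of_exponent_le (by linarith)
      rw [hη]
      have h12 : (d : ℝ) * (ε / ((d : ℝ) ^ 2 + 1) * d) = (d : ℝ) ^ 2 * ε / ((d : ℝ) ^ 2 + 1) := by ring
      rw [h12, div_le_iff₀ (by positivity)]
      nlinarith
    have h8 : (1 / (X : ℝ)) ^ d = (X : ℝ) ^ (-(d : ℝ)) := by
      rw [one_div, Real.rpow_neg hX0.le, Real.rpow_natCast, inv_pow]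
    have h9 : (X : ℝ) ^ (ε - d) = (X : ℝ) ^ ε * (X : ℝ) ^ (-(d : ℝ)) := by
      rw [← Real.rpow_add hX0]
      congr 1
    rw [Finset.prod_const, Finset.card_univ, Fintype.card_fin, Nat.cast_pow, h8, h9]
    have h10 : (0 : ℝ) ≤ (X : ℝ) ^ (-(d : ℝ)) := by positivity
    have h11 : ((((zdiv u).card : ℕ) : ℝ)) ^ d ≤ (2 * C0) ^ d * (2 ^ ε * (X : ℝ) ^ ε) := by
      refine h6.trans ?_
      rw [mul_pow]
      gcongr
    calc ((((zdiv u).card : ℕ) : ℝ)) ^ d * (X : ℝ) ^ (-(d : ℝ)) ≤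
        ((2 * C0) ^ d * (2 ^ ε * (X : ℝ) ^ ε)) * (X : ℝ) ^ (-(d : ℝ)) := by gcongr
      _ = _ := by ring

/-- **C4b.** `u = 0`: one factor vanishes. -/
theorem C4_zero (X d : ℕ) (hX : 0 < X) : pv X d 0 ≤ d / X := by
  classical
  calc pv X d 0 ≤ av fun P : Fin d → Iv X × Iv X => ∑ i : Fin d,
        (if (((P i).1 : ℤ) - ((P i).2 : ℤ)) = 0 then (1 : ℝ) else 0) := by
        unfold pv
        apply av_mono
        intro P
        split_ifs with h
        · rw [Finset.prod_eq_zero_iff] at h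
          obtain ⟨i, _, hi⟩ := h
          have h1 := Finset.single_le_sum (f := fun i : Fin d =>
            (if (((P i).1 : ℤ) - ((P i).2 : ℤ)) = 0 then (1 : ℝ) else 0))
            (fun v _ => by split_ifs <;> norm_num) (Finset.mem_univ i)
          refine le_trans ?_ h1
          simp [hi]
        · apply Finset.sum_nonneg
          intro v _
          split_ifs <;> norm_num
    _ = ∑ i : Fin d, av fun P : Fin d → Iv X × Iv X =>
        (if (((P i).1 : ℤ) - ((P i).2 : ℤ)) = 0 then (1 : ℝ) else 0) := av_sum _ _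
    _ ≤ ∑ _i : Fin d, (1 / (X : ℝ)) := by
        apply Finset.sum_le_sum
        intro i _
        have h1 : (av fun P : Fin d → Iv X × Iv X =>
            (if (((P i).1 : ℤ) - ((P i).2 : ℤ)) = 0 then (1 : ℝ) else 0)) =
            ∏ j : Fin d, av fun p : Iv X × Iv X =>
              (if j = i then (if ((p.1 : ℤ) - (p.2 : ℤ)) = 0 then (1 : ℝ) else 0) else 1) := by
          rw [← av_pi_prod fun j (p : Iv X × Iv X) =>
              (if j = i then (if ((p.1 : ℤ) - (p.2 : ℤ)) = 0 then (1 : ℝ) else 0) else 1)]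
          congr 1
          funext P
          rw [Finset.prod_ite_eq' Finset.univ i]
          simp
        rw [h1, ← Finset.mul_prod_erase Finset.univ _ (Finset.mem_univ i)]
        rw [Finset.prod_eq_one]
        · simp only [if_true, mul_one]
          exact C4_one X hX 0
        · intro j hj
          simp only [if_neg (Finset.ne_of_mem_erase hj)]
          exact av_const (1 : ℝ)
    _ = d / X := by
        rw [Finset.sum_const, Finset.card_univ, Fintype.card_fin, nsmul_eq_mul]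
        ring

end Pool.Agent.HPP
end

-- from Lib.HPP.C4
section

/-!
# Project HPP, C4 (M): the sum of products; the mean over the characters
-/

open Finset

namespace Pool.Agent.HPP

/-- The average of a product of complex functions of independent variables. -/
theorem avc_pi_prod {d : ℕ} {α : Type*} [Fintype α] (g : Fin d → α → ℂ) :
    (avc fun P : Fin d → α => ∏ i, g i (P i)) = ∏ i, avc (g i) := by
  classical
  unfold avc
  rw [Finset.prod_div_distrib, Finset.prod_univ_sum, Fintype.piFinset_univ]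
  simp [Finset.card_univ]

/-- One product is nonzero and determined by the others. -/
theorem C4_sum_aux (D : ℕ) (C ε : ℝ) (X : ℕ) (hC : 0 ≤ C)
    (hne : ∀ u : ℤ, u ≠ 0 → pv X D u ≤ C * (X : ℝ) ^ (ε - D)) (a : Fin D) :
    (av fun P : Fin D → Fin D → Iv X × Iv X => if (∏ i, (((P a i).1 : ℤ) - ((P a i).2 : ℤ)) ≠ 0 ∧
      ∑ a, ∏ i, (((P a i).1 : ℤ) - ((P a i).2 : ℤ)) = 0) then (1 : ℝ) else 0) ≤
      C * (X : ℝ) ^ (ε - D) := by
  classical
  have hnn : 0 ≤ C * (X : ℝ) ^ (ε - D) := by positivity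
  obtain ⟨f, hf⟩ : ∃ f : (Fin D → Iv X × Iv X) → ℤ, ∀ x, f x = ∏ i, (((x i).1 : ℤ) - ((x i).2 : ℤ)) := ⟨_, fun _ => rfl⟩
  have h1 : (av fun P : Fin D → Fin D → Iv X × Iv X => if (∏ i, (((P a i).1 : ℤ) - ((P a i).2 : ℤ)) ≠ 0 ∧
      ∑ a, ∏ i, (((P a i).1 : ℤ) - ((P a i).2 : ℤ)) = 0) then (1 : ℝ) else 0) =
      av fun p : (Fin D → Iv X × Iv X) × ({j : Fin D // j ≠ a} → (Fin D → Iv X × Iv X)) =>
        if (f p.1 ≠ 0 ∧ f p.1 + ∑ b, f (p.2 b) = 0) then (1 : ℝ) else 0 := by
    rw [← av_equiv (Equiv.funSplitAt a (Fin D → Iv X × Iv X))]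
    congr 1
    funext P
    have h2 : ∑ a, ∏ i, (((P a i).1 : ℤ) - ((P a i).2 : ℤ)) =
        f (P a) + ∑ b : {j : Fin D // j ≠ a}, f (P b) := by
      rw [Fintype.sum_eq_add_sum_subtype_ne (fun b => ∏ i, (((P b i).1 : ℤ) - ((P b i).2 : ℤ))) a]
      simp only [hf]
    rw [h2, ← hf]
    rfl
  rw [h1, av_prod, av_comm]
  apply av_le
  intro Q
  by_cases hQ : ∑ b, f (Q b) = 0
  · have h3 : (av fun x : Fin D → Iv X × Iv X => if (f x ≠ 0 ∧ f x + ∑ b, f (Q b) = 0) then (1 : ℝ) else 0) = 0 := by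
      unfold av
      rw [Finset.sum_eq_zero, zero_div]
      intro x _
      rw [if_neg]
      rintro ⟨h4, h5⟩
      rw [hQ, add_zero] at h5
      exact h4 h5
    exact h3.le.trans hnn
  · refine le_trans ?_ (hne (-∑ b, f (Q b)) (neg_ne_zero.2 hQ))
    unfold pv
    apply av_mono
    intro x
    split_ifs with h4 h5 h5
    · exact le_refl _
    · exfalso
      apply h5
      rw [← hf]
      linarith [h4.2]
    · norm_num
    · exact le_refl _

/-- **C4c. The sum of `D` independent products vanishes with probability `≤ C X^(ε - D)`.** Proof. If all products vanish: probability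
`(pv X D 0) ^ D ≤ (D / X) ^ D` (independence). Otherwise for some `a` the product number `a` is `≠ 0` and equal to minus the sum of the
others: for fixed others probability `≤ C X^(ε - D)` (`C4_ne`): in total `≤ D C X^(ε - D)`. -/
theorem C4_sum (D : ℕ) (hD : 1 ≤ D) (ε : ℝ) (hε : 0 < ε) : ∃ C : ℝ, 0 ≤ C ∧ ∀ X : ℕ, 0 < X →
    (av fun P : Fin D → Fin D → Iv X × Iv X => if ∑ a, ∏ i, (((P a i).1 : ℤ) - ((P a i).2 : ℤ)) = 0 then (1 : ℝ) else 0) ≤
      C * (X : ℝ) ^ (ε - D) := by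
  classical
  obtain ⟨C, hC, hne⟩ := C4_ne D ε hε
  refine ⟨(D : ℝ) ^ D + D * C, by positivity, ?_⟩
  intro X hX
  have hX' : (1 : ℝ) ≤ X := by exact_mod_cast hX
  have hX0 : (0 : ℝ) < X := by linarith
  have h1 : (av fun P : Fin D → Fin D → Iv X × Iv X =>
      if ∑ a, ∏ i, (((P a i).1 : ℤ) - ((P a i).2 : ℤ)) = 0 then (1 : ℝ) else 0) ≤
      av fun P : Fin D → Fin D → Iv X × Iv X =>
        (∏ a, if ∏ i, (((P a i).1 : ℤ) - ((P a i).2 : ℤ)) = 0 then (1 : ℝ) else 0) +
        ∑ a, if (∏ i, (((P a i).1 : ℤ) - ((P a i).2 : ℤ)) ≠ 0 ∧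
          ∑ a, ∏ i, (((P a i).1 : ℤ) - ((P a i).2 : ℤ)) = 0) then (1 : ℝ) else 0 := by
    apply av_mono
    intro P
    have h2 : (0 : ℝ) ≤ ∏ a, if ∏ i, (((P a i).1 : ℤ) - ((P a i).2 : ℤ)) = 0 then (1 : ℝ) else 0 :=
      Finset.prod_nonneg fun a _ => by split_ifs <;> norm_num
    have h3 : (0 : ℝ) ≤ ∑ a, if (∏ i, (((P a i).1 : ℤ) - ((P a i).2 : ℤ)) ≠ 0 ∧
          ∑ a, ∏ i, (((P a i).1 : ℤ) - ((P a i).2 : ℤ)) = 0) then (1 : ℝ) else 0 :=
      Finset.sum_nonneg fun a _ => by split_ifs <;> norm_num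
    split_ifs with h
    · by_cases h4 : ∀ a, ∏ i, (((P a i).1 : ℤ) - ((P a i).2 : ℤ)) = 0
      · have h5 : (∏ a, if ∏ i, (((P a i).1 : ℤ) - ((P a i).2 : ℤ)) = 0 then (1 : ℝ) else 0) = 1 := by
          apply Finset.prod_eq_one
          intro a _
          rw [if_pos (h4 a)]
        rw [h5]
        linarith
      · push Not at h4
        obtain ⟨a, ha⟩ := h4
        have h6 := Finset.single_le_sum (f := fun a : Fin D => if (∏ i, (((P a i).1 : ℤ) - ((P a i).2 : ℤ)) ≠ 0 ∧
          ∑ a, ∏ i, (((P a i).1 : ℤ) - ((P a i).2 : ℤ)) = 0) then (1 : ℝ) else 0)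
          (fun v _ => by split_ifs <;> norm_num) (Finset.mem_univ a)
        have h7 : (1 : ℝ) ≤ if (∏ i, (((P a i).1 : ℤ) - ((P a i).2 : ℤ)) ≠ 0 ∧
          ∑ a, ∏ i, (((P a i).1 : ℤ) - ((P a i).2 : ℤ)) = 0) then (1 : ℝ) else 0 := by
          rw [if_pos ⟨ha, h⟩]
        have h8 := h7.trans h6
        simp only [h, and_true] at h8 ⊢
        linarith
    · linarith
  refine h1.trans ?_
  rw [av_add, av_sum]
  have h2 : (av fun P : Fin D → Fin D → Iv X × Iv X =>
      ∏ a, if ∏ i, (((P a i).1 : ℤ) - ((P a i).2 : ℤ)) = 0 then (1 : ℝ) else 0) ≤ (D : ℝ) ^ D * (X : ℝ) ^ (ε - D) := by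
    rw [av_pi_prod fun _ (x : Fin D → Iv X × Iv X) => if ∏ i, (((x i).1 : ℤ) - ((x i).2 : ℤ)) = 0 then (1 : ℝ) else 0]
    rw [Finset.prod_const, Finset.card_univ, Fintype.card_fin]
    have h3 : (av fun x : Fin D → Iv X × Iv X => if ∏ i, (((x i).1 : ℤ) - ((x i).2 : ℤ)) = 0 then (1 : ℝ) else 0) ≤
        (D : ℝ) / X := C4_zero X D hX
    have h4 : 0 ≤ (av fun x : Fin D → Iv X × Iv X => if ∏ i, (((x i).1 : ℤ) - ((x i).2 : ℤ)) = 0 then (1 : ℝ) else 0) :=
      av_nonneg fun x => by split_ifs <;> norm_num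
    refine (pow_le_pow_left₀ h4 h3 D).trans ?_
    rw [div_pow, div_eq_mul_inv]
    have h5 : ((X : ℝ) ^ D)⁻¹ ≤ (X : ℝ) ^ (ε - D) := by
      rw [← Real.rpow_natCast, ← Real.rpow_neg hX0.le]
      apply Real.rpow_le_rpow_of_exponent_le hX'
      linarith
    gcongr
  have h3 : ∑ a, (av fun P : Fin D → Fin D → Iv X × Iv X => if (∏ i, (((P a i).1 : ℤ) - ((P a i).2 : ℤ)) ≠ 0 ∧
      ∑ a, ∏ i, (((P a i).1 : ℤ) - ((P a i).2 : ℤ)) = 0) then (1 : ℝ) else 0) ≤ D * (C * (X : ℝ) ^ (ε - D)) := by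
    calc _ ≤ ∑ _a : Fin D, (C * (X : ℝ) ^ (ε - D)) := by
          apply Finset.sum_le_sum
          intro a _
          exact C4_sum_aux D C ε X hC (hne X hX) a
      _ = _ := by rw [Finset.sum_const, Finset.card_univ, Fintype.card_fin, nsmul_eq_mul]
  calc _ ≤ (D : ℝ) ^ D * (X : ℝ) ^ (ε - D) + D * (C * (X : ℝ) ^ (ε - D)) := add_le_add h2 h3
    _ = _ := by ring

/-- **C4d.** Proof. `KD_char`: `(KD D κ) ^ D = avc_{P : Fin D → Fin D → ..} χ(κ ∑_a ∏ ..)` (product of averages, `Finset.prod_univ_sum`; independence),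
sum over `χ`: `AddChar.sum_apply_eq_ite`: `M` times the probability that `κ ∑_a ∏ = 0` in `ℤ/M`. As
`|κ ∑| ≤ |κ| D (2X)^D < M` and `κ ≠ 0` this means `∑ = 0`: `C4_sum`. -/
theorem C4_main (D : ℕ) (hD : 1 ≤ D) (ε : ℝ) (hε : 0 < ε) : ∃ C : ℝ, 0 ≤ C ∧ ∀ (M X : ℕ) [NeZero M] (κ : ℤ), 0 < X → κ ≠ 0 →
    |κ| * D * (2 * X) ^ D < M → (∑ χ : AddChar (ZMod M) ℂ, KD X χ D κ ^ D) / M ≤ C * (X : ℝ) ^ (ε - D) := by
  classical
  obtain ⟨C, hC, hsum⟩ := C4_sum D hD ε hε
  refine ⟨C, hC, ?_⟩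
  intro M X _ κ hX hκ hM
  refine le_trans (le_of_eq ?_) (hsum X hX)
  have hM0 : (M : ℂ) ≠ 0 := Nat.cast_ne_zero.2 (NeZero.ne M)
  have hprod : ∀ x : Fin D → Iv X × Iv X, |∏ i, (((x i).1 : ℤ) - ((x i).2 : ℤ))| ≤ (2 * X) ^ D := by
    intro x
    rw [Finset.abs_prod]
    calc ∏ i, |((x i).1 : ℤ) - ((x i).2 : ℤ)| ≤ ∏ _i : Fin D, (2 * (X : ℤ)) := by
          apply Finset.prod_le_prod
          · intro i _
            exact abs_nonneg _
          · intro i _
            have h2 := Finset.mem_Icc.1 (x i).1.2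
            have h3 := Finset.mem_Icc.1 (x i).2.2
            rw [abs_le]
            constructor <;> linarith [h2.1, h2.2, h3.1, h3.2]
      _ = _ := by simp
  have hiff : ∀ P : Fin D → Fin D → Iv X × Iv X,
      (((κ * ∑ a, ∏ i, (((P a i).1 : ℤ) - ((P a i).2 : ℤ)) : ℤ) : ZMod M) = 0) ↔
        ∑ a, ∏ i, (((P a i).1 : ℤ) - ((P a i).2 : ℤ)) = 0 := by
    intro P
    constructor
    · intro h
      rw [ZMod.intCast_zmod_eq_zero_iff_dvd] at h
      have h1 : |κ * ∑ a, ∏ i, (((P a i).1 : ℤ) - ((P a i).2 : ℤ))| < M := by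
        rw [abs_mul]
        refine lt_of_le_of_lt ?_ hM
        have h2 : |∑ a, ∏ i, (((P a i).1 : ℤ) - ((P a i).2 : ℤ))| ≤ D * (2 * X) ^ D := by
          refine (Finset.abs_sum_le_sum_abs _ _).trans ?_
          calc _ ≤ ∑ _a : Fin D, ((2 * X) ^ D : ℤ) := Finset.sum_le_sum fun a _ => hprod (P a)
            _ = _ := by rw [Finset.sum_const, Finset.card_univ, Fintype.card_fin, nsmul_eq_mul]
        rw [mul_assoc]
        exact mul_le_mul_of_nonneg_left h2 (abs_nonneg κ)
      have h3 := Int.eq_zero_of_abs_lt_dvd h h1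
      rcases mul_eq_zero.1 h3 with h4 | h4
      · exact absurd h4 hκ
      · exact h4
    · intro h
      rw [h]
      simp
  have hchar : ∀ χ : AddChar (ZMod M) ℂ, ((KD X χ D κ ^ D : ℝ) : ℂ) =
      avc fun P : Fin D → Fin D → Iv X × Iv X =>
        χ ((κ * ∑ a, ∏ i, (((P a i).1 : ℤ) - ((P a i).2 : ℤ)) : ℤ) : ZMod M) := by
    intro χ
    rw [Complex.ofReal_pow, KD_char X χ D hD κ]
    have h1 := avc_pi_prod fun (_ : Fin D) (x : Fin D → Iv X × Iv X) =>
      χ ((κ * ∏ i, (((x i).1 : ℤ) - ((x i).2 : ℤ)) : ℤ) : ZMod M)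
    rw [Finset.prod_const, Finset.card_univ, Fintype.card_fin] at h1
    rw [← h1]
    congr 1
    funext P
    rw [Finset.mul_sum, Int.cast_sum]
    exact (map_prod χ.toMonoidHom _ _).symm
  have key : (((∑ χ : AddChar (ZMod M) ℂ, KD X χ D κ ^ D) / M : ℝ) : ℂ) =
      (((av fun P : Fin D → Fin D → Iv X × Iv X =>
        if ∑ a, ∏ i, (((P a i).1 : ℤ) - ((P a i).2 : ℤ)) = 0 then (1 : ℝ) else 0) : ℝ) : ℂ) := by
    rw [av_ofReal]
    push_cast
    simp only [← Complex.ofReal_pow]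
    rw [Finset.sum_congr rfl fun χ _ => hchar χ, ← avc_sum, div_eq_mul_inv, ← avc_mul_right]
    congr 1
    funext P
    rw [AddChar.sum_apply_eq_ite, ZMod.card]
    by_cases h : ∑ a, ∏ i, (((P a i).1 : ℤ) - ((P a i).2 : ℤ)) = 0
    · rw [if_pos ((hiff P).2 h), if_pos h]
      rw [mul_inv_cancel₀ hM0]
      simp
    · rw [if_neg (fun h' => h ((hiff P).1 h')), if_neg h]
      simp
  exact_mod_cast key

end Pool.Agent.HPP
end

-- from Lib.HPP.B2
section

/-!
# Project HPP, B2 (S/M): rules for polynomials and operators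
-/

open Finset Polynomial

namespace Pool.Agent.HPP

theorem PD.add {d : ℕ} {r r' : ℤ} {R R' : ℤ[X]} (h : PD d r R) (h' : PD d r' R') : PD d (r + r') (R + R') := by
  refine ⟨(natDegree_add_le_of_le h.1 h'.1).trans (max_self d).le, ?_⟩
  rw [coeff_add, h.2, h'.2]

theorem PD.sub {d : ℕ} {r r' : ℤ} {R R' : ℤ[X]} (h : PD d r R) (h' : PD d r' R') : PD d (r - r') (R - R') := by
  refine ⟨(natDegree_sub_le_of_le h.1 h'.1).trans (max_self d).le, ?_⟩
  rw [coeff_sub, h.2, h'.2]


theorem PD.up {d : ℕ} {r : ℤ} {R : ℤ[X]} (h : PD d r R) : PD (d + 1) 0 R := by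
  refine ⟨h.1.trans (Nat.le_succ d), ?_⟩
  exact coeff_eq_zero_of_natDegree_lt (Nat.lt_succ_of_le h.1)

theorem PD.down {d : ℕ} {R : ℤ[X]} (h : PD (d + 1) 0 R) : PD d (R.coeff d) R := by
  refine ⟨?_, rfl⟩
  by_contra hcon
  have h1 : R.natDegree = d + 1 := by
    have := h.1
    omega
  have h2 : R.leadingCoeff = 0 := by
    rw [leadingCoeff, h1]
    exact h.2
  rw [leadingCoeff_eq_zero] at h2
  rw [h2, natDegree_zero] at h1
  omega

/-- `taylor_eval`, `natDegree_taylor`, `taylor_coeff` (the coefficient of `x ^ d` of `R(x + h)` is that of `R` if `natDegree ≤ d`). -/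
theorem PD.taylor {d : ℕ} {r : ℤ} {R : ℤ[X]} (h : PD d r R) (a : ℤ) : PD d r (taylor a R) := by
  refine ⟨?_, ?_⟩
  · rw [natDegree_taylor]
    exact h.1
  · have h1 : (hasseDeriv d R).natDegree ≤ 0 := by
      refine (natDegree_hasseDeriv_le R d).trans ?_
      have := h.1
      omega
    rw [taylor_coeff, eq_C_of_natDegree_le_zero h1, eval_C, hasseDeriv_coeff]
    simp [h.2]

/-- The difference of `R(x + h)` and `R`: coefficient `(d + 1) h r` of `x ^ d`. -/
theorem PD.delta {d : ℕ} {r : ℤ} {R : ℤ[X]} (h : PD (d + 1) r R) (a : ℤ) :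
    PD d (((d : ℤ) + 1) * a * r) (Polynomial.taylor a R - R) := by
  have h1 : PD (d + 1) 0 (Polynomial.taylor a R - R) := by
    have := (h.taylor a).sub h
    rwa [sub_self] at this
  refine ⟨h1.down.1, ?_⟩
  have h2 : (hasseDeriv d R).natDegree < 2 := by
    have h3 := natDegree_hasseDeriv_le R d
    have h4 := h.1
    omega
  rw [coeff_sub, taylor_coeff, eval_eq_sum_range' h2, Finset.sum_range_succ, Finset.sum_range_one,
    hasseDeriv_coeff, hasseDeriv_coeff]
  have h5 : R.coeff (1 + d) = r := by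
    rw [add_comm]
    exact h.2
  rw [h5]
  have h6 : (1 + d).choose d = d + 1 := by
    rw [add_comm 1 d, Nat.choose_succ_self_right]
  rw [h6, zero_add, Nat.choose_self]
  push_cast
  ring

theorem PD.const {r : ℤ} {R : ℤ[X]} (h : PD 0 r R) (n : ℤ) : R.eval n = r := by
  rw [eq_C_of_natDegree_le_zero h.1, eval_C]
  exact h.2

/-- `PW (d + 1)` polynomials have degree `≤ d`, `PW 0` is zero: always `PD d 0`. -/
theorem PW.pd {d : ℕ} {h r : ℤ} {W : ℤ[X]} (hW : PW d h r W) : PD d 0 W := by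
  cases d with
  | zero =>
    have hW0 : W = 0 := hW
    subst hW0
    exact ⟨by simp, by simp⟩
  | succ d => exact PD.up hW

variable {M : ℕ}

theorem EO_mul (h : ℤ) (W : ℤ[X]) (A B : ZMod M → ℤ → ℂ) :
    EO h W (fun t n => A t n * B t n) = fun t n => EO h W A t n * EO h W B t n := by
  funext t n
  simp only [EO, map_mul]
  ring

theorem EL_mul (l : List (ℤ × ℤ[X])) (A B : ZMod M → ℤ → ℂ) :
    EL l (fun t n => A t n * B t n) = fun t n => EL l A t n * EL l B t n := by
  induction l generalizing A B with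
  | nil => rfl
  | cons p l ih =>
    simp only [EL]
    rw [EO_mul, ih]

theorem EL_append (l l' : List (ℤ × ℤ[X])) (A : ZMod M → ℤ → ℂ) : EL (l ++ l') A = EL l' (EL l A) := by
  induction l generalizing A with
  | nil => rfl
  | cons p l ih =>
    simp only [List.cons_append, EL]
    rw [ih]

/-- `EO` of the product of a family is the product of the family `XO` (`taylor_eval`, `List.prod_append`, `map_list_prod`, `push_cast`). -/
theorem EO_pr (h : ℤ) (W : ℤ[X]) (L : Fam M) : EO h W (pr L) = pr (XO h W L) := by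
  funext t n
  simp only [EO, pr, XO, List.map_append, List.prod_append, List.map_map, map_list_prod]
  congr 1
  refine congrArg List.prod (List.map_congr_left fun p _ => ?_)
  simp only [Function.comp_apply, eval_add, taylor_eval]
  congr 2
  push_cast
  rw [add_assoc]

theorem EL_pr (l : List (ℤ × ℤ[X])) (L : Fam M) : EL l (pr L) = pr (XL l L) := by
  induction l generalizing L with
  | nil => rfl
  | cons p l ih =>
    simp only [EL, XL]
    rw [EO_pr, ih]

theorem EO_vn {X : ℕ} (h : ℤ) (W : ℤ[X]) {A : ZMod M → ℤ → ℂ} (hA : Vn X A) : Vn X (EO h W A) := by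
  intro t n hn
  simp only [EO]
  rw [hA t n hn, zero_mul]

theorem EL_vn {X : ℕ} (l : List (ℤ × ℤ[X])) {A : ZMod M → ℤ → ℂ} (hA : Vn X A) : Vn X (EL l A) := by
  induction l generalizing A with
  | nil => exact hA
  | cons p l ih =>
    simp only [EL]
    exact ih (EO_vn p.1 p.2 hA)

theorem XL_length (l : List (ℤ × ℤ[X])) (L : Fam M) : (XL l L).length = L.length * 2 ^ l.length := by
  induction l generalizing L with
  | nil => simp [XL]
  | cons p l ih =>
    simp only [XL]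
    rw [ih]
    simp only [XO, List.length_append, List.length_map, List.length_cons]
    ring

/-- A class stays a class (`PD.taylor`, `PD.add` with `PD d 0 W`, `FN.star`). -/
theorem XL_cls {N : ℝ} {d : ℕ} {r : ℤ} (l : List (ℤ × ℤ[X])) (hl : ∀ p ∈ l, PD d 0 p.2) (L : Fam M) (hL : Cls N d r L) :
    Cls N d r (XL l L) := by
  induction l generalizing L with
  | nil => exact hL
  | cons p l ih =>
    simp only [XL]
    refine ih (fun q hq => hl q (List.mem_cons_of_mem _ hq)) _ ?_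
    intro q hq
    simp only [XO, List.mem_append, List.mem_map] at hq
    rcases hq with hq | ⟨q', hq', rfl⟩
    · exact hL q hq
    · have h1 := hL q' hq'
      refine ⟨h1.1.star, ?_⟩
      have h2 := (hl p (List.mem_cons_self)).add (h1.2.taylor p.1)
      rwa [zero_add] at h2

/-- **Recentering.** `A~(t, n) = A(t - P(n), n)`; `EO h W~ A~ = (EO h W A)~` with `W = W~ - (P(x + h) - P)`. -/
theorem EO_rec (h : ℤ) (W P : ℤ[X]) (A : ZMod M → ℤ → ℂ) :
    EO h W (fun t n => A (t - ((P.eval n : ℤ) : ZMod M)) n) =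
      fun t n => EO h (W - (taylor h P - P)) A (t - ((P.eval n : ℤ) : ZMod M)) n := by
  funext t n
  simp only [EO]
  congr 3
  simp only [eval_sub, taylor_eval]
  push_cast
  ring

/-- The sum does not change. -/
theorem SS_rec [NeZero M] (X : ℕ) (P : ℤ[X]) (A : ZMod M → ℤ → ℂ) :
    SS X (fun t n => A (t - ((P.eval n : ℤ) : ZMod M)) n) = SS X A := by
  simp only [SS]
  rw [Finset.sum_comm, Finset.sum_comm (s := (Finset.univ : Finset (ZMod M))) (t := Ico (0 : ℤ) X) (f := fun t n => A t n)]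
  refine Finset.sum_congr rfl fun n _ => ?_
  exact Equiv.sum_comp (Equiv.subRight ((P.eval n : ℤ) : ZMod M)) (fun t => A t n)

end Pool.Agent.HPP
end

-- from Lib.HPP.B3
section

/-!
# Project HPP, B3 (M): elimination of one class
-/

open Finset Polynomial

namespace Pool.Agent.HPP

/-- A product of functions of a nonempty family. -/
theorem b3_prod {M : ℕ} (N : ℝ) (L : Fam M) (hne : L ≠ []) (h : ∀ p ∈ L, FN N p.1) :
    FN N fun y : ZMod M => (L.map fun p => p.1 y).prod := by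
  cases L with
  | nil => exact absurd rfl hne
  | cons p L =>
    have h1 : ∀ y : ZMod M, ‖(L.map fun p => p.1 y).prod‖ ≤ 1 := by
      intro y
      have h2 : ∀ q ∈ L, FN N q.1 := fun q hq => h q (List.mem_cons_of_mem _ hq)
      clear h hne
      induction L with
      | nil => simp
      | cons q L ih =>
        rw [List.map_cons, List.prod_cons, norm_mul]
        have h3 := (h2 q (by simp)).le y
        have h4 := ih fun a ha => h2 a (List.mem_cons_of_mem _ ha)
        calc ‖q.1 y‖ * ‖(L.map fun p => p.1 y).prod‖ ≤ 1 * 1 := mul_le_mul h3 h4 (norm_nonneg _) zero_le_one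
          _ = 1 := one_mul 1
    have h5 := (h p (by simp)).mul h1
    simpa using h5

theorem b3_mem {α β : Type*} {R : α → β → Prop} {a : List α} {b : List β} (h : List.Forall₂ R a b) :
    ∀ x ∈ a, ∃ y, R x y := by
  induction h with
  | nil => intro x hx; simp at hx
  | cons h1 _ ih =>
    intro x hx
    rw [List.mem_cons] at hx
    rcases hx with rfl | hx
    · exact ⟨_, h1⟩
    · exact ih x hx

theorem b3_forall (d : ℕ) (r : ℤ) (P : ℤ[X]) (hP : PD (d + 1) r P) : ∀ (l : List ℤ) (v : List ℤ[X]), l.length = v.length →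
    (∀ p ∈ l.zip v, PD d 0 p.2) →
    List.Forall₂ (fun h w => PW (d + 1) h r w) l (List.zipWith (fun h w => w - (taylor h P - P)) l v) := by
  intro l
  induction l with
  | nil => intro v _ _; exact List.Forall₂.nil
  | cons h l ih =>
    intro v hv hp
    cases v with
    | nil => simp at hv
    | cons w v =>
      rw [List.zipWith_cons_cons]
      refine List.Forall₂.cons ?_ (ih v (by simpa using hv) fun p hp' => hp p (by rw [List.zip_cons_cons]; exact List.mem_cons_of_mem _ hp'))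
      have h1 : PD d 0 w := hp (h, w) (by simp)
      have h2 := h1.sub (hP.delta h)
      rw [zero_sub] at h2
      exact h2

theorem b3_EL {M : ℕ} (P : ℤ[X]) : ∀ (l : List ℤ) (v : List ℤ[X]) (A : ZMod M → ℤ → ℂ),
    EL (l.zip v) (fun t n => A (t - ((P.eval n : ℤ) : ZMod M)) n) =
      fun t n => EL (l.zip (List.zipWith (fun h w => w - (taylor h P - P)) l v)) A (t - ((P.eval n : ℤ) : ZMod M)) n := by
  intro l
  induction l with
  | nil => intro v A; rfl
  | cons h l ih =>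
    intro v A
    cases v with
    | nil => rfl
    | cons w v =>
      rw [List.zipWith_cons_cons, List.zip_cons_cons, List.zip_cons_cons]
      show EL (l.zip v) (EO h w (fun t n => A (t - ((P.eval n : ℤ) : ZMod M)) n)) = _
      rw [EO_rec, ih v (EO h (w - (taylor h P - P)) A)]
      rfl

/-- An empty class: no step. -/
theorem B3_nil (d : ℕ) : KC d 0 0 := by
  intro M _ X N hX hN r L hL hC A hA
  refine ⟨fun _ => [], fun l hl => ?_, ?_⟩
  · rw [List.length_eq_zero_iff] at hl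
    subst hl
    exact List.Forall₂.nil
  · rw [List.length_eq_zero_iff] at hL
    subst hL
    rw [AL_zero]
    have h1 : (fun (t : ZMod M) (n : ℤ) => A t n * pr ([] : Fam M) t n) = A := by
      funext t n
      simp [pr]
    rw [h1]
    simp [EL]

/-- **Constants**: `s + 1` functions `f_j(t + r)`: their product is a function `F(t + r)`, `F = ∏ f_j ∈ FN N`; `B1_step` with the polynomial
`C r` (`taylor h (C r) = C r`, so the polynomial `-(..)` is `0`). One step. -/
theorem B3_zero (s : ℕ) : KC 0 (s + 1) 1 := by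
  intro M _ X N hX hN r L hL hC A hA
  have hne : L ≠ [] := by
    intro h
    rw [h] at hL
    simp at hL
  have hF := b3_prod N L hne fun p hp => (hC p hp).1
  have hpr : (fun (t : ZMod M) (n : ℤ) => A t n * pr L t n) =
      fun t n => A t n * (fun y : ZMod M => (L.map fun p => p.1 y).prod) (t + (((C r : ℤ[X]).eval n : ℤ) : ZMod M)) := by
    funext t n
    have h1 : pr L t n = (L.map fun p => p.1 (t + (((C r : ℤ[X]).eval n : ℤ) : ZMod M))).prod := by
      unfold pr
      congr 1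
      apply List.map_congr_left
      intro p hp
      rw [(hC p hp).2.const n, eval_C]
    rw [h1]
  have hstep := B1_step M X N hX hN (fun y : ZMod M => (L.map fun p => p.1 y).prod) hF (C r) A hA
  refine ⟨fun l => l.map fun _ => 0, fun l hl => ?_, ?_⟩
  · clear hl
    induction l with
    | nil => exact List.Forall₂.nil
    | cons h l ih => exact List.Forall₂.cons rfl ih
  · rw [AL_succ]
    simp only [AL_zero]
    rw [hpr]
    have h2 : ∀ h : Iv X, -(taylor (h : ℤ) (C r : ℤ[X]) - C r) = 0 := by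
      intro h
      rw [taylor_C, sub_self, neg_zero]
    simp only [h2] at hstep
    have h3 : (3 : ℝ) ^ (2 ^ 1 - 1) = 3 := by norm_num
    rw [h3]
    exact hstep

/-- **The step in the degree.** `L = p0 :: L'`, `P = p0.2`. `A~(t, n) = A(t - P(n), n)`; by `SS_rec` the sum is
`SS X (A~ * ∏_j f_j(t + (R_j - P)(n)))`. Every `R_j - P` is `PD (d + 1) 0`, hence `PD d (its coefficient)` (`PD.sub`, `PD.down`): classes with one
element each (`C = L.map fun p => ((p.2 - P).coeff d, [(p.1, p.2 - P)])`, sizes `replicate (s + 1) 1`). The hypothesis gives `W~`; put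
`W l = zipWith (fun h w => w - (taylor h P - P)) l (W~ l)`: `PD d 0 w` (`PW.pd`) minus `PD d ((d+1) h r)` (`PD.delta`). `EO_rec` along the list
(induction) and `SS_rec`. -/
theorem B3_succ (d s : ℕ) (lab : List ℕ) (h : KF d (List.replicate (s + 1) 1) lab) : KC (d + 1) (s + 1) lab.length := by
  intro M _ X N hX hN r L hL hC A hA
  cases L with
  | nil => simp at hL
  | cons p0 L' =>
    have hP : PD (d + 1) r p0.2 := (hC p0 (by simp)).2
    -- the recentered bystander
    have hpd : ∀ p ∈ p0 :: L', PD d ((p.2 - p0.2).coeff d) (p.2 - p0.2) := by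
      intro p hp
      have h1 := PD.sub (hC p hp).2 hP
      rw [sub_self] at h1
      exact h1.down
    have hAn : Vn X fun t n => A (t - ((p0.2.eval n : ℤ) : ZMod M)) n := by
      intro t n hn
      exact hA _ _ hn
    obtain ⟨W, hW1, hW2⟩ := h M X N hX hN
      ((p0 :: L').map fun p => ((p.2 - p0.2).coeff d, [(p.1, p.2 - p0.2)]))
      (by
        rw [List.map_map]
        have h1 : ((fun c : ℤ × Fam M => c.2.length) ∘ fun p : (ZMod M → ℂ) × ℤ[X] => ((p.2 - p0.2).coeff d, [(p.1, p.2 - p0.2)])) =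
            fun _ => 1 := by
          funext p
          rfl
        rw [h1, List.map_const', hL])
      (by
        intro c hc
        rw [List.mem_map] at hc
        obtain ⟨p, hp, rfl⟩ := hc
        intro q hq
        simp only [List.mem_singleton] at hq
        subst hq
        exact ⟨(hC p hp).1, hpd p hp⟩)
      (fun t n => A (t - ((p0.2.eval n : ℤ) : ZMod M)) n) hAn
    refine ⟨fun l => List.zipWith (fun h w => w - (taylor h p0.2 - p0.2)) l (W l), fun l hl => ?_, ?_⟩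
    · obtain ⟨h1, h2⟩ := hW1 l hl
      refine b3_forall d r p0.2 hP l (W l) (by rw [hl, h1]) fun p hp => ?_
      obtain ⟨k, hk⟩ := b3_mem h2 p hp
      exact hk.pd
    · have h1 : SS X (fun t n => A t n * pr (p0 :: L') t n) = SS X (fun t n => A (t - ((p0.2.eval n : ℤ) : ZMod M)) n *
          (((p0 :: L').map fun p => ((p.2 - p0.2).coeff d, [(p.1, p.2 - p0.2)])).map fun c => pr c.2 t n).prod) := by
        rw [← SS_rec X p0.2 (fun t n => A t n * pr (p0 :: L') t n)]
        congr 1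
        funext t n
        congr 1
        rw [List.map_map]
        unfold pr
        congr 1
        apply List.map_congr_left
        intro p _
        have h3 : t - ((p0.2.eval n : ℤ) : ZMod M) + ((p.2.eval n : ℤ) : ZMod M) = t + (((p.2 - p0.2).eval n : ℤ) : ZMod M) := by
          rw [eval_sub]
          push_cast
          ring
        rw [h3]
        simp
      rw [h1]
      refine hW2.trans (le_of_eq ?_)
      congr 1
      apply AL_congr
      intro l _
      rw [b3_EL p0.2 l (W l) A, SS_rec]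

end Pool.Agent.HPP
end

-- from Lib.HPP.B4
section

/-!
# Project HPP, B4 (M/L): elimination of several classes
-/

open Finset Polynomial

namespace Pool.Agent.HPP

/-- No class. -/
theorem B4_nil (d : ℕ) : KF d [] [] := by
  intro M _ X N hX hN C hC hcls A hA
  have hC0 : C = [] := List.map_eq_nil_iff.1 hC
  subst hC0
  refine ⟨fun _ => [], ?_, ?_⟩
  · intro l hl
    have hl0 : l = [] := List.length_eq_zero_iff.1 hl
    subst hl0
    exact ⟨rfl, List.Forall₂.nil⟩
  · simp only [List.length_nil, AL_zero, List.zip_nil_right, List.map_nil, List.prod_nil, mul_one, EL, pow_zero, pow_one, tsub_self,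
      one_mul]
    exact le_refl _

/-- The operators on a bystander times several families. -/
theorem b4_EL {M : ℕ} (l : List (ℤ × ℤ[X])) (A : ZMod M → ℤ → ℂ) : ∀ C : List (ℤ × Fam M),
    EL l (fun t n => A t n * (C.map fun c => pr c.2 t n).prod) =
      fun t n => EL l A t n * ((C.map fun c => ((c.1, XL l c.2) : ℤ × Fam M)).map fun c => pr c.2 t n).prod
  | [] => by
    simp only [List.map_nil, List.prod_nil, mul_one]
  | c :: C => by
    have h : (fun t n => A t n * ((c :: C).map fun c => pr c.2 t n).prod) =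
        fun t n => (A t n * (C.map fun c => pr c.2 t n).prod) * pr c.2 t n := by
      funext t n
      rw [List.map_cons, List.prod_cons]
      ring
    rw [h, EL_mul l (fun t n => A t n * (C.map fun c => pr c.2 t n).prod) (pr c.2), b4_EL l A C, EL_pr]
    funext t n
    simp only [List.map_cons, List.prod_cons]
    ring

theorem b4_rep {α β : Type*} {R : α → β → Prop} {S : α × β → ℕ → Prop} {l : List α} {w : List β} (h : List.Forall₂ R l w)
    (hRS : ∀ a b, R a b → S (a, b) 0) : List.Forall₂ S (l.zip w) (List.replicate l.length 0) := by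
  induction h with
  | nil => exact List.Forall₂.nil
  | cons h1 _ ih =>
    rw [List.zip_cons_cons, List.length_cons, List.replicate_succ]
    exact List.Forall₂.cons (hRS _ _ h1) ih

theorem b4_zip {d : ℕ} {r : ℤ} {l : List ℤ} {w : List ℤ[X]} (h : List.Forall₂ (fun h w => PW d h r w) l w) :
    ∀ p ∈ l.zip w, PD d 0 p.2 := by
  induction h with
  | nil => intro p hp; exact absurd hp (List.not_mem_nil)
  | cons h1 _ ih =>
    intro p hp
    rw [List.zip_cons_cons, List.mem_cons] at hp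
    rcases hp with rfl | hp
    · exact PW.pd h1
    · exact ih p hp

theorem b4_exp (a b : ℕ) : (2 ^ a - 1) * 2 ^ b + (2 ^ b - 1) = 2 ^ (a + b) - 1 := by
  have h1 : 1 ≤ 2 ^ a := Nat.one_le_two_pow
  have h2 : 1 ≤ 2 ^ b := Nat.one_le_two_pow
  rw [pow_add, Nat.sub_mul, one_mul]
  have h3 : 2 ^ b ≤ 2 ^ a * 2 ^ b := Nat.le_mul_of_pos_left _ (by positivity)
  omega

/-- **One more class.** `C = (r, L) :: C'`. `KC` for `L` with the bystander `A' = A * ∏_{c ∈ C'} pr c.2` (`Vn`): `ρ` steps with polynomials `W1 l1`,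
all `PW d h r`. `EL (l1.zip (W1 l1)) A' = EL .. A * ∏ pr (XL .. c.2)` (`EL_mul`, `EL_pr`, induction on the list `C'`), the classes
`(c.1, XL .. c.2)` have the sizes `(c.2.length) * 2 ^ ρ` (`XL_length`) and are classes (`XL_cls`, `PW.pd`). For every `l1` of length `ρ` `KF` for
them with the bystander `EL (l1.zip (W1 l1)) A` gives `W2 l1` (`choose`). `W l = W1 (l.take ρ) ++ W2 (l.take ρ) (l.drop ρ)`,
labels `replicate ρ 0 ++ lab.map (· + 1)`; `List.zip_append`, `EL_append`, `AL_add`, `AL_congr`. Exponents: with `x = ‖SS‖ / (N X)`, `m = 2 ^ lab.length`: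
`x ^ (2 ^ ρ m) ≤ (3 ^ (2 ^ ρ - 1) AL_1 y_l) ^ m ≤ 3 ^ ((2 ^ ρ - 1) m) AL_1 (y_l ^ m) ≤ 3 ^ ((2 ^ ρ - 1) m + m - 1) AL ..` (`AL_pow`). -/
theorem B4_cons (d s ρ : ℕ) (sz lab : List ℕ) (h1 : KC d s ρ) (h2 : KF d (sz.map fun x => x * 2 ^ ρ) lab) :
    KF d (s :: sz) (List.replicate ρ 0 ++ lab.map (· + 1)) := by
  intro M _ X N hX hN C hC hcls A hA
  cases C with
  | nil => exact absurd hC (by simp)
  | cons c0 C =>
  rw [List.map_cons, List.cons.injEq] at hC
  obtain ⟨hs, hsz⟩ := hC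
  have hNX : (0 : ℝ) < N * X := mul_pos hN (Nat.cast_pos.2 hX)
  have hc0 : Cls N d c0.1 c0.2 := hcls c0 List.mem_cons_self
  have hcC : ∀ c ∈ C, Cls N d c.1 c.2 := fun c hc => hcls c (List.mem_cons_of_mem _ hc)
  have hA' : Vn X (fun t n => A t n * (C.map fun c => pr c.2 t n).prod) := by
    intro t n hn
    show A t n * _ = 0
    rw [hA t n hn, zero_mul]
  obtain ⟨W1, hW1, hin1⟩ := h1 M X N hX hN c0.1 c0.2 hs hc0 _ hA'
  have key : ∀ l1 : List ℤ, ∃ W2 : List ℤ → List ℤ[X], l1.length = ρ →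
      (∀ l : List ℤ, l.length = lab.length → (W2 l).length = lab.length ∧
        List.Forall₂ (fun (p : ℤ × ℤ[X]) (k : ℕ) => PW d p.1 ((C.map Prod.fst).getD k 0) p.2) (l.zip (W2 l)) lab) ∧
      (‖SS X (EL (l1.zip (W1 l1)) fun t n => A t n * (C.map fun c => pr c.2 t n).prod)‖ / (N * X)) ^ (2 ^ lab.length) ≤
        3 ^ (2 ^ lab.length - 1) * AL X lab.length fun l => ‖SS X (EL (l.zip (W2 l)) (EL (l1.zip (W1 l1)) A))‖ / (N * X) := by
    intro l1
    by_cases hl1 : l1.length = ρ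
    · have hf := hW1 l1 hl1
      have hlen : (l1.zip (W1 l1)).length = ρ := by
        rw [List.length_zip, ← hf.length_eq, min_self, hl1]
      obtain ⟨W2, hW2, hin2⟩ := h2 M X N hX hN (C.map fun c => ((c.1, XL (l1.zip (W1 l1)) c.2) : ℤ × Fam M))
        (by
          rw [List.map_map, ← hsz, List.map_map]
          refine List.map_congr_left fun c _ => ?_
          show (XL (l1.zip (W1 l1)) c.2).length = c.2.length * 2 ^ ρ
          rw [XL_length, hlen])
        (by
          intro c hc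
          obtain ⟨c', hc', rfl⟩ := List.mem_map.1 hc
          exact XL_cls _ (b4_zip hf) _ (hcC c' hc'))
        (EL (l1.zip (W1 l1)) A) (EL_vn _ hA)
      refine ⟨W2, fun _ => ⟨?_, ?_⟩⟩
      · intro l hl
        have h := hW2 l hl
        rw [List.map_map] at h
        exact h
      · rw [b4_EL]
        exact hin2
    · exact ⟨fun _ => [], fun h => absurd h hl1⟩
  choose W2 hW2 using key
  refine ⟨fun l => W1 (l.take ρ) ++ W2 (l.take ρ) (l.drop ρ), ?_, ?_⟩
  · intro l hl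
    have hl' : l.length = ρ + lab.length := by
      rw [hl, List.length_append, List.length_replicate, List.length_map]
    have ht : (l.take ρ).length = ρ := by
      rw [List.length_take, hl']
      exact min_eq_left (Nat.le_add_right _ _)
    have hd : (l.drop ρ).length = lab.length := by
      rw [List.length_drop, hl']
      exact Nat.add_sub_cancel_left _ _
    have hf := hW1 _ ht
    obtain ⟨hl2, hf2⟩ := (hW2 _ ht).1 _ hd
    refine ⟨?_, ?_⟩
    · show (W1 (l.take ρ) ++ W2 (l.take ρ) (l.drop ρ)).length = _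
      rw [List.length_append, hl2, ← hf.length_eq, ht, List.length_append, List.length_replicate, List.length_map]
    · show List.Forall₂ _ (l.zip (W1 (l.take ρ) ++ W2 (l.take ρ) (l.drop ρ))) _
      have hz : l.zip (W1 (l.take ρ) ++ W2 (l.take ρ) (l.drop ρ)) =
          (l.take ρ).zip (W1 (l.take ρ)) ++ (l.drop ρ).zip (W2 (l.take ρ) (l.drop ρ)) := by
        rw [← List.zip_append hf.length_eq, List.take_append_drop]
      rw [hz]
      refine List.rel_append ?_ ?_
      · have h := b4_rep (S := fun (p : ℤ × ℤ[X]) (k : ℕ) => PW d p.1 (((c0 :: C).map Prod.fst).getD k 0) p.2) hf (fun a b hab => hab)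
        rw [ht] at h
        exact h
      · rw [List.forall₂_map_right_iff]
        exact hf2
  · have hfun : (fun t n => A t n * ((c0 :: C).map fun c => pr c.2 t n).prod) =
        fun t n => (A t n * (C.map fun c => pr c.2 t n).prod) * pr c0.2 t n := by
      funext t n
      rw [List.map_cons, List.prod_cons]
      ring
    rw [hfun]
    have hlen : (List.replicate ρ 0 ++ lab.map (· + 1)).length = ρ + lab.length := by
      rw [List.length_append, List.length_replicate, List.length_map]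
    rw [hlen, AL_add, pow_add, pow_mul]
    have hy : ∀ l1 : List ℤ, (0 : ℝ) ≤
        ‖SS X (EL (l1.zip (W1 l1)) fun t n => A t n * (C.map fun c => pr c.2 t n).prod)‖ / (N * X) := fun l1 => by positivity
    have hstep : (AL X ρ fun l1 => (‖SS X (EL (l1.zip (W1 l1)) fun t n => A t n * (C.map fun c => pr c.2 t n).prod)‖ / (N * X)) ^
        (2 ^ lab.length)) ≤ 3 ^ (2 ^ lab.length - 1) * AL X ρ fun l1 => AL X lab.length fun l2 =>
          ‖SS X (EL ((l1 ++ l2).zip (W1 ((l1 ++ l2).take ρ) ++ W2 ((l1 ++ l2).take ρ) ((l1 ++ l2).drop ρ))) A)‖ / (N * X) := by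
      rw [← AL_mul_left]
      refine AL_mono X ρ fun l1 hl1 => ?_
      refine ((hW2 l1 hl1).2).trans (le_of_eq ?_)
      congr 1
      refine AL_congr X lab.length fun l2 hl2 => ?_
      have e1 : (l1 ++ l2).take ρ = l1 := by rw [← hl1]; exact List.take_left
      have e2 : (l1 ++ l2).drop ρ = l2 := by rw [← hl1]; exact List.drop_left
      rw [e1, e2, List.zip_append (hW1 l1 hl1).length_eq, EL_append]
    calc _ ≤ (3 ^ (2 ^ ρ - 1) * AL X ρ fun l => ‖SS X (EL (l.zip (W1 l)) fun t n => A t n * (C.map fun c => pr c.2 t n).prod)‖ / (N * X)) ^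
          (2 ^ lab.length) := pow_le_pow_left₀ (by positivity) hin1 _
      _ = 3 ^ ((2 ^ ρ - 1) * 2 ^ lab.length) * (AL X ρ fun l => ‖SS X (EL (l.zip (W1 l))
          fun t n => A t n * (C.map fun c => pr c.2 t n).prod)‖ / (N * X)) ^ (2 ^ lab.length) := by rw [mul_pow, ← pow_mul]
      _ ≤ 3 ^ ((2 ^ ρ - 1) * 2 ^ lab.length) * (3 ^ (2 ^ lab.length - 1) * AL X ρ fun l1 => AL X lab.length fun l2 =>
          ‖SS X (EL ((l1 ++ l2).zip (W1 ((l1 ++ l2).take ρ) ++ W2 ((l1 ++ l2).take ρ) ((l1 ++ l2).drop ρ))) A)‖ / (N * X)) := by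
        refine mul_le_mul_of_nonneg_left ?_ (by positivity)
        exact (AL_pow X ρ _ hy).trans hstep
      _ = _ := by
        rw [← mul_assoc, ← pow_add, b4_exp]
        rw [← pow_add]

/-- From one class to several classes. -/
theorem b4_KF (d : ℕ) (h : ∀ s : ℕ, ∃ ρ : ℕ, KC d s ρ) : ∀ (n : ℕ) (sz : List ℕ), sz.length = n →
    ∃ lab : List ℕ, (∀ k ∈ lab, k < sz.length) ∧ KF d sz lab := by
  intro n
  induction n with
  | zero =>
    intro sz hsz
    have h0 : sz = [] := List.length_eq_zero_iff.1 hsz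
    subst h0
    exact ⟨[], fun k hk => absurd hk List.not_mem_nil, B4_nil d⟩
  | succ n ih =>
    intro sz hsz
    cases sz with
    | nil => exact absurd hsz (by simp)
    | cons s sz =>
      obtain ⟨ρ, hρ⟩ := h s
      obtain ⟨lab, hlab, hKF⟩ := ih (sz.map fun x => x * 2 ^ ρ) (by
        rw [List.length_map]
        rw [List.length_cons] at hsz
        omega)
      refine ⟨List.replicate ρ 0 ++ lab.map (· + 1), ?_, B4_cons d s ρ sz lab hρ hKF⟩
      intro k hk
      rw [List.length_cons]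
      rcases List.mem_append.1 hk with hk | hk
      · rw [List.eq_of_mem_replicate hk]
        exact Nat.succ_pos _
      · obtain ⟨k', hk', rfl⟩ := List.mem_map.1 hk
        have h3 := hlab k' hk'
        rw [List.length_map] at h3
        exact Nat.succ_lt_succ h3

/-- **Everything can be eliminated.** Induction on `d`. `KC 0`: `B3_nil`, `B3_zero`. `KF d` from `KC d` (all sizes): induction on the list of
the sizes (for all lists of the same length; `B4_nil`, `B4_cons`; the labels stay below the length). `KC (d + 1)` from `KF d`: `B3_nil`, `B3_succ`. -/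
theorem B4_all (d : ℕ) : (∀ s : ℕ, ∃ ρ : ℕ, KC d s ρ) ∧
    ∀ sz : List ℕ, ∃ lab : List ℕ, (∀ k ∈ lab, k < sz.length) ∧ KF d sz lab := by
  induction d with
  | zero =>
    have h : ∀ s : ℕ, ∃ ρ : ℕ, KC 0 s ρ := by
      intro s
      cases s with
      | zero => exact ⟨0, B3_nil 0⟩
      | succ s => exact ⟨1, B3_zero s⟩
    exact ⟨h, fun sz => b4_KF 0 h _ sz rfl⟩
  | succ d ih =>
    have h : ∀ s : ℕ, ∃ ρ : ℕ, KC (d + 1) s ρ := by
      intro s
      cases s with
      | zero => exact ⟨0, B3_nil (d + 1)⟩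
      | succ s =>
        obtain ⟨lab, _, hKF⟩ := ih.2 (List.replicate (s + 1) 1)
        exact ⟨lab.length, B3_succ d s lab hKF⟩
    exact ⟨h, fun sz => b4_KF (d + 1) h _ sz rfl⟩

end Pool.Agent.HPP
end
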