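import Pool.Agent.Lib.H59M.M2.M006
import Pool.Agent.Lib.H59M.M2.M011
import Pool.Agent.Lib.H59M.M2.M024
import Pool.Agent.Lib.H59M.M2.M030
import Pool.Agent.Lib.H59M.M2.M036

/-! Merged copies (to shorten the build) of Lib.H21T.B10, Lib.H21T.B7, Lib.H21T.B8, Lib.H21T.Z1, Lib.H44W.M0, Lib.H96G.Defs, Lib.H9S.K3. -/

-- from Lib.H21T.B10
section

/-!
# Chunk B10 (S/M): a complete sum
-/

namespace Pool.Agent.Lib.H21T

open Finset Pool.Agent.SZW

theorem b10_pow (t : ℝ) (n : ℕ) : ee (t * n) = ee t ^ n := by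
  induction n with
  | zero => rw [Nat.cast_zero, mul_zero, ee_zero, pow_zero]
  | succ n ih => rw [Nat.cast_succ, mul_add, mul_one, ee_add, ih, pow_succ]

/-- For fixed `r1` the inner sum over `r2` is `q` if `q ∣ p r1` (iff `q ∣ r1` iff `r1 = 0`) and `0` otherwise (geometric sum with ratio `ee (p r1 / q) ≠ 1`,
`ee (p r1 / q) ^ q = 1`; or `norm_one_sub_ee`). -/
theorem b10 (q : ℕ) (p : ℤ) (hq : 1 ≤ q) (hp : IsCoprime p (q : ℤ)) :
    ∑ r1 ∈ range q, ∑ r2 ∈ range q, ee ((p : ℝ) / q * ((r1 : ℝ) * r2)) = q := by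
  have hq0 : (q : ℝ) ≠ 0 := by positivity
  have h1 : ∀ r1 ∈ range q, ∑ r2 ∈ range q, ee ((p : ℝ) / q * ((r1 : ℝ) * r2)) = if r1 = 0 then (q : ℂ) else 0 := by
    intro r1 hr1
    have h2 : ∀ r2 ∈ range q, ee ((p : ℝ) / q * ((r1 : ℝ) * r2)) = ee ((p : ℝ) / q * r1) ^ r2 := by
      intro r2 _
      rw [← b10_pow, mul_assoc]
    rw [Finset.sum_congr rfl h2]
    split_ifs with h0
    · rw [h0]
      simp [ee_zero]
    · have hz : ee ((p : ℝ) / q * r1) ^ q = 1 := by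
        rw [← b10_pow]
        have h3 : (p : ℝ) / q * r1 * q = ((p * r1 : ℤ) : ℝ) := by
          push_cast
          field_simp
        rw [h3, ee_int]
      have hne : ee ((p : ℝ) / q * r1) ≠ 1 := by
        intro h3
        have h4 := norm_one_sub_ee ((p : ℝ) / q * r1)
        rw [h3, sub_self, norm_zero] at h4
        have h5 : nn ((p : ℝ) / q * r1) = 0 := le_antisymm (by linarith) (abs_nonneg _)
        unfold nn at h5
        rw [abs_eq_zero, sub_eq_zero] at h5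
        set k := round ((p : ℝ) / q * r1) with hk
        have h6 : ((p * r1 : ℤ) : ℝ) = ((q * k : ℤ) : ℝ) := by
          push_cast
          rw [← h5]
          field_simp
        have h7 : p * r1 = q * k := by exact_mod_cast h6
        have h8 : (q : ℤ) ∣ p * r1 := ⟨k, h7⟩
        have h9 : (q : ℤ) ∣ r1 := hp.symm.dvd_of_dvd_mul_left h8
        have h10 : q ∣ r1 := by exact_mod_cast h9
        have h11 := Finset.mem_range.1 hr1
        exact h0 (Nat.eq_zero_of_dvd_of_lt h10 h11)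
      have h3 := geom_sum_mul (ee ((p : ℝ) / q * r1)) q
      rw [hz, sub_self] at h3
      exact (mul_eq_zero.1 h3).resolve_right (sub_ne_zero.2 hne)
  rw [Finset.sum_congr rfl h1, Finset.sum_ite_eq', if_pos (Finset.mem_range.2 hq)]

end Pool.Agent.Lib.H21T
end

-- from Lib.H21T.B7
section

/-!
# Chunk B7 (S/M): counting in a residue class
-/

namespace Pool.Agent.Lib.H21T

open Finset Pool.Agent.SZW

theorem b7_le (x q r a : ℕ) (hq : 1 ≤ q) (ha : 1 ≤ a) (k : ℕ) : yv x q r a ≤ (k : ℝ) ↔ x ≤ a * (q * k + r) := by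
  have hq' : (0 : ℝ) < q := by exact_mod_cast hq
  have ha' : (0 : ℝ) < a := by exact_mod_cast ha
  have e : ((k : ℝ) * q + r) * a = ((a * (q * k + r) : ℕ) : ℝ) := by
    push_cast
    ring
  unfold yv
  rw [div_le_iff₀ hq', sub_le_iff_le_add, div_le_iff₀ ha', e]
  exact Nat.cast_le

theorem b7_lt (x q r a : ℕ) (hq : 1 ≤ q) (ha : 1 ≤ a) (k : ℕ) : (k : ℝ) < yv x q r a ↔ a * (q * k + r) < x := by
  rw [← not_le, b7_le x q r a hq ha k, not_le]

theorem b7_nonneg (x q r a : ℕ) (hr : r < q) (k : ℤ) (hk : yv x q r a ≤ (k : ℝ)) : 0 ≤ k := by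
  by_contra hcon
  have h1 : k ≤ -1 := by omega
  have h2 : (k : ℝ) ≤ -1 := by exact_mod_cast h1
  have hq' : (0 : ℝ) < q := by
    have : 0 < q := by omega
    exact_mod_cast this
  unfold yv at hk
  rw [div_le_iff₀ hq'] at hk
  have h3 : (0 : ℝ) ≤ (x : ℝ) / a := by positivity
  have h4 : (r : ℝ) < q := by exact_mod_cast hr
  nlinarith

/-- `b = r + q k` with `k : ℕ` (`b % q = r < q`); `x ≤ a b < x + H` iff `yv x q r a ≤ k < yv (x + H) q r a`; every integer `k` in this range gives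
`b = r + q k ≥ x / a > 0`, so `k ≥ 0` (`r < q`). The number of integers `k` with `y ≤ k < z` is `⌈z⌉ - ⌈y⌉` (`y ≤ z`). -/
theorem b7 (x H q r a : ℕ) (hx : 1 ≤ x) (hq : 1 ≤ q) (hr : r < q) (ha : 1 ≤ a) :
    ((((range (x + H)).filter fun b => (x ≤ a * b ∧ a * b < x + H) ∧ b % q = r).card : ℕ) : ℝ) =
      ((H : ℝ) / (q * a) + (Fr (yv (x + H) q r a) - Fr (yv x q r a))) := by
  have hq' : (0 : ℝ) < q := by exact_mod_cast hq
  have ha' : (0 : ℝ) < a := by exact_mod_cast ha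
  have e1 : yv (x + H) q r a = yv x q r a + (H : ℝ) / (q * a) := by
    unfold yv
    push_cast
    field_simp
    ring
  have e2 : yv x q r a ≤ yv (x + H) q r a := by
    rw [e1]
    have : 0 ≤ (H : ℝ) / (q * a) := by positivity
    linarith
  have hc : ((range (x + H)).filter fun b => (x ≤ a * b ∧ a * b < x + H) ∧ b % q = r).card =
      (Ico ⌈yv x q r a⌉ ⌈yv (x + H) q r a⌉).card := by
    refine Finset.card_bij (fun b _ => ((b / q : ℕ) : ℤ)) ?_ ?_ ?_
    · intro b hb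
      rw [mem_filter] at hb
      obtain ⟨_, ⟨h1, h2⟩, h3⟩ := hb
      have h4 : q * (b / q) + r = b := by
        rw [← h3]
        exact Nat.div_add_mod b q
      rw [mem_Ico, Int.ceil_le, Int.lt_ceil]
      constructor
      · have := (b7_le x q r a hq ha (b / q)).2 (by rw [h4]; exact h1)
        exact_mod_cast this
      · have := (b7_lt (x + H) q r a hq ha (b / q)).2 (by rw [h4]; exact h2)
        exact_mod_cast this
    · intro b1 hb1 b2 hb2 h
      rw [mem_filter] at hb1 hb2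
      have h' : b1 / q = b2 / q := by exact_mod_cast h
      rw [← Nat.div_add_mod b1 q, ← Nat.div_add_mod b2 q, h', hb1.2.2, hb2.2.2]
    · intro k hk
      rw [mem_Ico, Int.ceil_le, Int.lt_ceil] at hk
      obtain ⟨h1, h2⟩ := hk
      have h3 : 0 ≤ k := b7_nonneg x q r a hr k h1
      obtain ⟨n, rfl⟩ := Int.eq_ofNat_of_zero_le h3
      have h1' : yv x q r a ≤ (n : ℝ) := by exact_mod_cast h1
      have h2' : (n : ℝ) < yv (x + H) q r a := by exact_mod_cast h2
      rw [b7_le x q r a hq ha] at h1'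
      rw [b7_lt (x + H) q r a hq ha] at h2'
      refine ⟨q * n + r, ?_, ?_⟩
      · rw [mem_filter, mem_range]
        refine ⟨?_, ⟨h1', h2'⟩, ?_⟩
        · exact lt_of_le_of_lt (Nat.le_mul_of_pos_left _ (by omega)) h2'
        · rw [Nat.mul_add_mod, Nat.mod_eq_of_lt hr]
      · have : (q * n + r) / q = n := by
          rw [Nat.mul_add_div (by omega), Nat.div_eq_of_lt hr, Nat.add_zero]
        rw [this]
  rw [hc, Int.card_Ico]
  have h5 : ⌈yv x q r a⌉ ≤ ⌈yv (x + H) q r a⌉ := Int.ceil_le_ceil e2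
  have h6 : (((⌈yv (x + H) q r a⌉ - ⌈yv x q r a⌉).toNat : ℕ) : ℝ) = (⌈yv (x + H) q r a⌉ : ℝ) - ⌈yv x q r a⌉ := by
    have : (((⌈yv (x + H) q r a⌉ - ⌈yv x q r a⌉).toNat : ℕ) : ℤ) = ⌈yv (x + H) q r a⌉ - ⌈yv x q r a⌉ :=
      Int.toNat_of_nonneg (by omega)
    exact_mod_cast this
  rw [h6]
  unfold Fr
  have e3 : (H : ℝ) / (q * a) = yv (x + H) q r a - yv x q r a := by
    rw [e1]
    ring
  rw [e3]
  ring

end Pool.Agent.Lib.H21T
end

-- from Lib.H21T.B8
section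

/-!
# Chunk B8 (M): sum of 1 / a over a residue class
-/

namespace Pool.Agent.Lib.H21T

open Finset Pool.Agent.SZW

theorem b8_ex (n q r : ℕ) (hq : 1 ≤ q) (hr : r < q) : ∃ c, n ≤ c ∧ c < n + q ∧ c % q = r := by
  refine ⟨q * ((n + q - 1 - r) / q) + r, ?_, ?_, ?_⟩
  · have h1 := Nat.div_add_mod (n + q - 1 - r) q
    have h2 := Nat.mod_lt (n + q - 1 - r) (show q > 0 by omega)
    omega
  · have h1 := Nat.div_add_mod (n + q - 1 - r) q
    omega
  · rw [Nat.mul_add_mod, Nat.mod_eq_of_lt hr]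

/-- the two bounds for one term -/
theorem b8_term (n q : ℕ) (hq : 1 ≤ q) (hn : q < n) :
    (Real.log (n + q) - Real.log n) / q ≤ 1 / (n : ℝ) ∧
      1 / (n : ℝ) ≤ (Real.log n - Real.log (n - q)) / q := by
  have hq0 : (0 : ℝ) < q := by exact_mod_cast hq
  have hn0 : (0 : ℝ) < n := by exact_mod_cast (by omega : 0 < n)
  have hnq : (0 : ℝ) < (n : ℝ) - q := by
    have : (q : ℝ) < n := by exact_mod_cast hn
    linarith
  constructor
  · rw [div_le_iff₀ hq0, ← Real.log_div (by positivity) hn0.ne']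
    have h1 := Real.log_le_sub_one_of_pos (show (0 : ℝ) < (n + q) / n by positivity)
    have h2 : ((n : ℝ) + q) / n - 1 = 1 / n * q := by
      field_simp
      ring
    linarith
  · rw [le_div_iff₀ hq0]
    have h1 := Real.log_le_sub_one_of_pos (show (0 : ℝ) < ((n : ℝ) - q) / n by positivity)
    rw [Real.log_div hnq.ne' hn0.ne'] at h1
    have h2 : ((n : ℝ) - q) / n - 1 = -(1 / n * q) := by
      field_simp
      ring
    linarith

theorem b8_ind (A1 q r : ℕ) (hq : 1 ≤ q) (hr : r < q) (h1 : 2 * q ≤ A1) (c0 : ℕ) (hc0 : A1 ≤ c0) (hc0' : c0 < A1 + q)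
    (hc0r : c0 % q = r) (n : ℕ) (hn : A1 ≤ n) :
    ∃ c, n ≤ c ∧ c < n + q ∧ c % q = r ∧
      (Real.log c - Real.log c0) / q ≤ ∑ a ∈ (Ico A1 n).filter (fun a => a % q = r), 1 / (a : ℝ) ∧
      ∑ a ∈ (Ico A1 n).filter (fun a => a % q = r), 1 / (a : ℝ) ≤
        (Real.log (c - q) - Real.log (c0 - q)) / q := by
  induction n, hn using Nat.le_induction with
  | base => exact ⟨c0, hc0, hc0', hc0r, by simp, by simp⟩
  | succ n hn ih =>
    obtain ⟨c, e1, e2, e3, e4, e5⟩ := ih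
    rw [← Finset.insert_Ico_right_eq_Ico_add_one hn, Finset.filter_insert]
    by_cases h : n % q = r
    · have hcn : c = n := by
        have h6 : (c - n) % q = 0 := Nat.sub_mod_eq_zero_of_mod_eq (e3.trans h.symm)
        rw [Nat.mod_eq_of_lt (by omega)] at h6
        omega
      rw [if_pos h, Finset.sum_insert (by simp)]
      obtain ⟨t1, t2⟩ := b8_term n q hq (by omega)
      subst hcn
      refine ⟨c + q, by omega, by omega, by rw [Nat.add_mod_right]; exact h, ?_, ?_⟩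
      · push_cast
        have h7 : (Real.log ((c : ℝ) + q) - Real.log c0) / q =
            (Real.log (c + q) - Real.log c) / q + (Real.log c - Real.log c0) / q := by ring
        rw [h7]
        linarith
      · push_cast
        have h7 : (Real.log ((c : ℝ) + q - q) - Real.log (c0 - q)) / q =
            (Real.log c - Real.log (c - q)) / q + (Real.log (c - q) - Real.log (c0 - q)) / q := by
          rw [add_sub_cancel_right]
          ring
        rw [h7]
        linarith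
    · rw [if_neg h]
      have hcn : c ≠ n := fun h' => h (h' ▸ e3)
      exact ⟨c, by omega, by omega, e3, e4, e5⟩

/-- If the set is empty then `A2 - A1 < q` (an interval of `q` consecutive integers contains a multiple class), so `log (A2 / A1) ≤ q / A1`, and the claim holds. Otherwise
the elements are `a_0 < .. < a_k`, consecutive differences `q`, `A1 ≤ a_0 < A1 + q`, `A2 ≤ a_k + q`, `a_k < A2`. From `(1 / q) log ((a + q) / a) ≤ 1 / a ≤ (1 / q) log (a / (a - q))`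
and telescoping: `(1 / q) log ((a_k + q) / a_0) ≤ ∑ 1 / a ≤ (1 / q) log (a_k / (a_0 - q))`. Lower bound: `≥ (1 / q) log (A2 / (A1 + q)) ≥ (1 / q) log (A2 / A1) - 1 / A1`.
Upper bound: `≤ (1 / q) log (A2 / (A1 - q)) ≤ (1 / q) log (A2 / A1) + 1 / (A1 - q) ≤ (1 / q) log (A2 / A1) + 2 / A1` (`2 q ≤ A1`). -/
theorem b8 (A1 A2 q r : ℕ) (hq : 1 ≤ q) (hr : r < q) (h1 : 2 * q ≤ A1) (h2 : A1 ≤ A2) :
    |∑ a ∈ (Ico A1 A2).filter (fun a => a % q = r), 1 / (a : ℝ) - (Real.log A2 - Real.log A1) / q| ≤ 2 / A1 := by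
  obtain ⟨c0, hc0, hc0', hc0r⟩ := b8_ex A1 q r hq hr
  obtain ⟨c, e1, e2, e3, e4, e5⟩ := b8_ind A1 q r hq hr h1 c0 hc0 hc0' hc0r A2 h2
  have hq0 : (0 : ℝ) < q := by exact_mod_cast hq
  have hA1 : (0 : ℝ) < A1 := by exact_mod_cast (by omega : 0 < A1)
  have hA12 : (A1 : ℝ) ≤ A2 := by exact_mod_cast h2
  have hA2 : (0 : ℝ) < A2 := by linarith
  have hqA : 2 * (q : ℝ) ≤ A1 := by exact_mod_cast h1
  have k1 : (A2 : ℝ) ≤ c := by exact_mod_cast e1
  have k2 : (c : ℝ) < A2 + q := by exact_mod_cast e2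
  have k3 : (A1 : ℝ) ≤ c0 := by exact_mod_cast hc0
  have k4 : (c0 : ℝ) < A1 + q := by exact_mod_cast hc0'
  -- lower bound
  have l1 : Real.log A2 ≤ Real.log c := Real.log_le_log hA2 k1
  have l2 : Real.log c0 ≤ Real.log (A1 + q) := Real.log_le_log (by linarith) k4.le
  have l3 : Real.log (A1 + q) - Real.log A1 ≤ q / A1 := by
    rw [← Real.log_div (by positivity) hA1.ne']
    have h3 := Real.log_le_sub_one_of_pos (show (0 : ℝ) < ((A1 : ℝ) + q) / A1 by positivity)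
    have h4 : ((A1 : ℝ) + q) / A1 - 1 = q / A1 := by
      field_simp
      ring
    linarith
  have l4 : (Real.log A2 - Real.log A1) / q - 1 / A1 ≤ (Real.log c - Real.log c0) / q := by
    rw [le_div_iff₀ hq0, sub_mul, div_mul_cancel₀ _ hq0.ne']
    have h5 : 1 / (A1 : ℝ) * q = q / A1 := by ring
    rw [h5]
    linarith
  -- upper bound
  have u0 : (0 : ℝ) < (A1 : ℝ) - q := by linarith
  have u1 : Real.log (c - q) ≤ Real.log A2 := Real.log_le_log (by linarith) (by linarith)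
  have u2 : Real.log (A1 - q) ≤ Real.log (c0 - q) := Real.log_le_log u0 (by linarith)
  have u3 : Real.log A1 - Real.log (A1 - q) ≤ 2 * q / A1 := by
    rw [← Real.log_div hA1.ne' u0.ne']
    have h3 := Real.log_le_sub_one_of_pos (show (0 : ℝ) < (A1 : ℝ) / (A1 - q) by positivity)
    have h4 : (A1 : ℝ) / (A1 - q) - 1 = q / (A1 - q) := by
      field_simp
      ring
    have h5 : (q : ℝ) / (A1 - q) ≤ 2 * q / A1 := by
      rw [div_le_div_iff₀ u0 hA1]
      nlinarith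
    linarith
  have u4 : (Real.log (c - q) - Real.log (c0 - q)) / q ≤ (Real.log A2 - Real.log A1) / q + 2 / A1 := by
    rw [div_le_iff₀ hq0, add_mul, div_mul_cancel₀ _ hq0.ne']
    have h5 : 2 / (A1 : ℝ) * q = 2 * q / A1 := by ring
    rw [h5]
    linarith
  have h6 : 1 / (A1 : ℝ) ≤ 2 / A1 := by
    rw [div_le_div_iff_of_pos_right hA1]
    norm_num
  rw [abs_le]
  constructor <;> linarith

end Pool.Agent.Lib.H21T
end

-- from Lib.H21T.Z1
section

/-!
# Chunk Z1 (M): the condition on b becomes a condition on a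
-/

namespace Pool.Agent.Lib.H21T

open Finset Pool.Agent.SZW

/-- Both sides are sums of `ee (α a b)`: over `X = {A1 ≤ a < A2, B1 ≤ b < B2, x ≤ a b < x + H}` (`∑_m dbox m ee (α m)`, fibres over `m = a b`) and over `Y = Rg A1' A2' x H`.
`X \ Y`: for `(a, b) ∈ X`, `a B2 > a b ≥ x`, so `a ≥ x / B2 + 1` (natural division); so `a ≥ x / B1 + 1`, i.e. `a B1 > x`, and `a B1 ≤ a b < x + H`: at most `H / B1 + 1` values of `a`, each (`a ≥ A1`) for at most
`H / A1 + 1` values of `b`. `Y \ X`: `b < B1` is impossible (`a ≤ x / B1` gives `a B1 ≤ x ≤ a b`), so `b ≥ B2`, and `x < a B2 ≤ a b < x + H`: again at most `H / B2 + 1 ≤ H / B1 + 1` values of `a`. -/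
theorem z1 (A1 A2 B1 B2 x H : ℕ) (α : ℝ) (hA : 1 ≤ A1) (hB : 1 ≤ B1) (hB2 : B1 ≤ B2) (hx : 1 ≤ x) :
    ‖∑ m ∈ Ico x (x + H), (dbox A1 A2 B1 B2 m : ℂ) * ee (α * m) - SR α (max A1 (x / B2 + 1)) (min A2 (x / B1 + 1)) x H‖ ≤
      2 * (((H : ℝ) / B1 + 1) * ((H : ℝ) / A1 + 1)) := by
  classical
  set f : ℕ × ℕ → ℂ := fun p => ee (α * ((p.1 : ℝ) * p.2)) with hf
  set X : Finset (ℕ × ℕ) := ((Ico A1 A2) ×ˢ (Ico B1 B2)).filter fun p => x ≤ p.1 * p.2 ∧ p.1 * p.2 < x + H with hX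
  set A1' := max A1 (x / B2 + 1) with hA1'
  set A2' := min A2 (x / B1 + 1) with hA2'
  have hB2' : 0 < B2 := by omega
  have hmX : ∀ p : ℕ × ℕ, p ∈ X ↔ A1 ≤ p.1 ∧ p.1 < A2 ∧ B1 ≤ p.2 ∧ p.2 < B2 ∧ x ≤ p.1 * p.2 ∧ p.1 * p.2 < x + H := by
    intro p
    rw [hX, mem_filter, mem_product, mem_Ico, mem_Ico]
    tauto
  have hA1pos : 1 ≤ A1' := by omega
  have h1 : ∑ m ∈ Ico x (x + H), (dbox A1 A2 B1 B2 m : ℂ) * ee (α * m) = ∑ p ∈ X, f p := by
    rw [← Finset.sum_fiberwise_of_maps_to (s := X) (t := Ico x (x + H)) (g := fun p : ℕ × ℕ => p.1 * p.2)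
      (fun p hp => by
        have := (hmX p).1 hp
        rw [mem_Ico]
        exact ⟨this.2.2.2.2.1, this.2.2.2.2.2⟩)]
    refine Finset.sum_congr rfl fun m hm => ?_
    rw [mem_Ico] at hm
    have h2 : (X.filter fun p => p.1 * p.2 = m) = ((Ico A1 A2) ×ˢ (Ico B1 B2)).filter fun p => p.1 * p.2 = m := by
      rw [hX, Finset.filter_filter]
      refine Finset.filter_congr fun p _ => ?_
      constructor
      · rintro ⟨_, h⟩
        exact h
      · intro h
        rw [h]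
        exact ⟨hm, rfl⟩
    rw [h2]
    have h3 : ∀ p ∈ ((Ico A1 A2) ×ˢ (Ico B1 B2)).filter fun p => p.1 * p.2 = m, f p = ee (α * m) := by
      intro p hp
      rw [mem_filter] at hp
      show ee (α * ((p.1 : ℝ) * p.2)) = _
      rw [← hp.2]
      push_cast
      rfl
    rw [Finset.sum_congr rfl h3, Finset.sum_const, nsmul_eq_mul]
    rfl
  have hSR : SR α A1' A2' x H = ∑ p ∈ Rg A1' A2' x H, f p := rfl
  rw [h1, hSR, ← Finset.sum_sdiff_sub_sum_sdiff]
  have hcard : ∀ (B : ℕ) (U : Finset (ℕ × ℕ)), B1 ≤ B → 1 ≤ B →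
      (∀ p ∈ U, p ∈ Rg A1 A2 x H ∧ x ≤ B * p.1 ∧ B * p.1 < x + H) →
      (U.card : ℝ) ≤ ((H : ℝ) / B1 + 1) * ((H : ℝ) / A1 + 1) := by
    intro B U hB1 hBpos hU
    set T := (range (x + H)).filter fun a => x ≤ B * a ∧ B * a < x + H with hT
    have h2 := s4_card (A := A1) (A1 := A1) (A2 := A2) (x := x) (H := H) hA le_rfl T
    have h3 : U ⊆ (Rg A1 A2 x H).filter fun p => p.1 ∈ T := by
      intro p hp
      obtain ⟨h4, h5, h6⟩ := hU p hp
      rw [mem_filter]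
      refine ⟨h4, ?_⟩
      rw [hT, mem_filter, mem_range]
      refine ⟨?_, h5, h6⟩
      have : p.1 ≤ B * p.1 := Nat.le_mul_of_pos_left _ (by omega)
      omega
    have h4 : (T.card : ℝ) ≤ (H : ℝ) / B + 1 := s4_fib x H B hBpos
    have h5 : (H : ℝ) / B ≤ (H : ℝ) / B1 := by
      have hb1 : (0 : ℝ) < B1 := by exact_mod_cast hB
      have hb2 : (B1 : ℝ) ≤ B := by exact_mod_cast hB1
      exact div_le_div_of_nonneg_left (Nat.cast_nonneg H) hb1 hb2
    have h6 : (U.card : ℝ) ≤ (((Rg A1 A2 x H).filter fun p => p.1 ∈ T).card : ℝ) := by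
      exact_mod_cast Finset.card_le_card h3
    have h7 : (0 : ℝ) ≤ (H : ℝ) / A1 + 1 := by positivity
    calc (U.card : ℝ) ≤ T.card * ((H : ℝ) / A1 + 1) := h6.trans h2
      _ ≤ ((H : ℝ) / B1 + 1) * ((H : ℝ) / A1 + 1) := mul_le_mul_of_nonneg_right (by linarith) h7
  have hnorm : ∀ U : Finset (ℕ × ℕ), ‖∑ p ∈ U, f p‖ ≤ U.card := by
    intro U
    refine (norm_sum_le _ _).trans ?_
    have h2 : ∀ p ∈ U, ‖f p‖ ≤ 1 := fun p _ => (norm_ee _).le
    refine (Finset.sum_le_sum h2).trans ?_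
    rw [Finset.sum_const, nsmul_eq_mul, mul_one]
  have hXY : ((X \ Rg A1' A2' x H).card : ℝ) ≤ ((H : ℝ) / B1 + 1) * ((H : ℝ) / A1 + 1) := by
    refine hcard B1 _ le_rfl hB fun p hp => ?_
    rw [mem_sdiff, hmX, mem_Rg hA1pos] at hp
    obtain ⟨⟨h2, h3, h4, h5, h6, h7⟩, h8⟩ := hp
    have h9 : p.1 * B1 ≤ p.1 * p.2 := Nat.mul_le_mul_left _ h4
    have h10 : p.1 * p.2 < p.1 * B2 := Nat.mul_lt_mul_of_pos_left h5 (by omega)
    have h11 : x / B2 < p.1 := (Nat.div_lt_iff_lt_mul hB2').2 (by omega)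
    have h12 : x / B1 < p.1 := by
      by_contra hcon
      apply h8
      refine ⟨?_, ?_, h6, h7⟩ <;> omega
    have h13 : x < p.1 * B1 := (Nat.div_lt_iff_lt_mul (by omega)).1 h12
    refine ⟨(mem_Rg hA).2 ⟨h2, h3, h6, h7⟩, ?_, ?_⟩
    · rw [mul_comm]
      omega
    · rw [mul_comm]
      omega
  have hYX : ((Rg A1' A2' x H \ X).card : ℝ) ≤ ((H : ℝ) / B1 + 1) * ((H : ℝ) / A1 + 1) := by
    refine hcard B2 _ hB2 hB2' fun p hp => ?_
    rw [mem_sdiff, hmX, mem_Rg hA1pos] at hp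
    obtain ⟨⟨h2, h3, h6, h7⟩, h8⟩ := hp
    have h4 : A1 ≤ p.1 := by omega
    have h5 : p.1 < A2 := by omega
    have h9 : p.1 ≤ x / B1 := by omega
    have h10 : p.1 * B1 ≤ x := (Nat.le_div_iff_mul_le (by omega)).1 h9
    have h11 : x / B2 < p.1 := by omega
    have h12 : x < p.1 * B2 := (Nat.div_lt_iff_lt_mul hB2').1 h11
    have h13 : B1 ≤ p.2 := by
      by_contra hcon
      have h14 : p.1 * p.2 < p.1 * B1 := Nat.mul_lt_mul_of_pos_left (not_le.1 hcon) (by omega)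
      omega
    have h14 : B2 ≤ p.2 := by
      by_contra hcon
      exact h8 ⟨h4, h5, h13, not_le.1 hcon, h6, h7⟩
    have h15 : p.1 * B2 ≤ p.1 * p.2 := Nat.mul_le_mul_left _ h14
    refine ⟨(mem_Rg hA).2 ⟨h4, h5, h6, h7⟩, ?_, ?_⟩
    · rw [mul_comm]
      omega
    · rw [mul_comm]
      omega
  refine (norm_sub_le _ _).trans ?_
  have h2 := hnorm (X \ Rg A1' A2' x H)
  have h3 := hnorm (Rg A1' A2' x H \ X)
  linarith

end Pool.Agent.Lib.H21T
end

-- from Lib.H44W.M0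
section
/-!
M0: module C in the form used by psi_cf.
-/
namespace Pool.Agent.H44W
open Finset

theorem type_one_psi (n A : ℕ) (al : ℕ → ℂ) (hn : 1 ≤ n) (hal : ∀ a, ‖al a‖ ≤ 1) (W f g : ℤ → ℂ)
    (hW : ∀ x, ‖W x‖ ≤ 1) (hf : ∀ x, ‖f x‖ ≤ 1) (_hg : ∀ x, ‖g x‖ ≤ 1) :
    ∃ th : ℝ, ‖TF n (psi A al) W f g‖ ≤
      20 * A * (1 + Real.log n) * n * ‖∑ z ∈ Icc (1:ℤ) n, g z * ee (th * z)‖ := by
  have h1 : Pool.Agent.H81E.Rep n (∑ a ∈ Icc 1 A, ‖al a‖ * 1) (fun m => ∑ a ∈ Icc 1 A, al a * (if (a:ℤ) ∣ m then 1 else 0)) :=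
    Pool.Agent.H81E.Rep.sum (Icc 1 A) _ _ fun a ha =>
      (Pool.Agent.H81E.Rep.dvd n a (by rw [mem_Icc] at ha; omega)).smul (al a)
  have h2 : Pool.Agent.H81E.Rep n A (psi A al) := by
    refine (h1.congr fun m _ _ => ?_).mono ?_
    · unfold psi
      refine sum_congr rfl fun a _ => ?_
      by_cases h : (a:ℤ) ∣ m
      · rw [if_pos h, if_pos h, mul_one]
      · rw [if_neg h, if_neg h, mul_zero]
    · refine (sum_le_sum (g := fun _ => (1:ℝ)) fun a _ => ?_).trans ?_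
      · rw [mul_one]; exact hal a
      · simp
  obtain ⟨th, hth⟩ := h2.TF_le W f g hW hf
  refine ⟨th, hth.trans ?_⟩
  have hlog : 0 ≤ Real.log n := Real.log_natCast_nonneg n
  have h3 : 0 ≤ (A:ℝ) * (n * ‖∑ z ∈ Icc (1:ℤ) n, g z * ee (th * z)‖) := by positivity
  calc (A:ℝ) * (2 * n * ‖∑ z ∈ Icc (1:ℤ) n, g z * ee (th * z)‖)
      = 2 * (A * (n * ‖∑ z ∈ Icc (1:ℤ) n, g z * ee (th * z)‖)) := by ring
    _ ≤ (20 * (1 + Real.log n)) * (A * (n * ‖∑ z ∈ Icc (1:ℤ) n, g z * ee (th * z)‖)) := by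
        apply mul_le_mul_of_nonneg_right _ h3
        linarith
    _ = 20 * A * (1 + Real.log n) * n * ‖∑ z ∈ Icc (1:ℤ) n, g z * ee (th * z)‖ := by ring

end Pool.Agent.H44W
end

-- from Lib.H96G.Defs
section

/-!
# Project H96G (MP_443e5f_co, project T, module G): from the kernel estimates to the graph

`GIn n M L c B b` is the input at the size `n`: scales are multiples of `M`, `L X` is the model of the primes on
`[X, 4X]`, power savings `c`, base scales `Z ≥ n^(1-B)`, losses `n^(-b)`, `100 b ≤ B`, `100 B ≤ c`.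

The graph is `HL lo n` (halved coordinates, `lo = 0` or `1`): `x`, `y` in `[lo, n]` are adjacent iff `x + y` and
`|x - y|` are odd primes (`hadj x y`).
-/

open Finset

namespace Pool.Agent.Lib.H96G

open Pool.Agent.Lib.H68T (lp)
open Pool.Agent.Lib.GoldbachGraph (hadj hadj_comm)

noncomputable section

/-- The kernel of the primes. -/
def kp (x y : ℕ) : ℝ := lp ((x : ℤ) + y) * lp ((x : ℤ) - y)

/-- The kernel of the model `l`. -/
def km (l : ℤ → ℝ) (x y : ℕ) : ℝ := l ((x : ℤ) + y) * l ((x : ℤ) - y)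

/-- The halved graph on `[lo, n]`. -/
def HL (lo n : ℕ) : SimpleGraph ℕ where
  Adj x y := hadj x y ∧ x ∈ Finset.Icc lo n ∧ y ∈ Finset.Icc lo n
  symm := ⟨fun _ _ h => ⟨(hadj_comm _ _).mp h.1, h.2.2, h.2.1⟩⟩
  loopless := ⟨fun x h => by
    have := h.1.2.2.1
    rw [Nat.dist_self] at this
    exact Nat.not_prime_zero this⟩

/-- Same type: same parity, and both or none divisible by `3`. -/
def ST (x y : ℕ) : Prop := x % 2 = y % 2 ∧ (3 ∣ x ↔ 3 ∣ y)


/-- `X` is a scale for `x ∈ [2X, 3X)` and `Z` one for `y ∈ [Z, 2Z)`. -/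
structure Sc (n M : ℕ) (B : ℝ) (X Z : ℕ) : Prop where
  dX : M ∣ X
  dZ : M ∣ Z
  lo : (n : ℝ) ^ (1 - B) ≤ Z
  le : 2 * Z ≤ X
  hi : X ≤ n



/-- Mixed correlation: primes at `x`, model at `x'`. -/
def dx (l' : ℤ → ℝ) (Z x x' : ℕ) : ℝ := ∑ y ∈ Ico Z (2 * Z), kp x y * km l' x' y

open Classical in
/-- The vertices `x' ∈ [2X', 3X')` of the type of `x` with small mixed correlation. -/
def bad (n : ℕ) (L : ℕ → ℤ → ℝ) (b : ℝ) (X' Z x : ℕ) : Finset ℕ :=
  (Ico (2 * X') (3 * X')).filter fun x' => ST x x' ∧ dx (L X') Z x x' < Z * (n : ℝ) ^ (-b) / 2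





end

end Pool.Agent.Lib.H96G
end

-- from Lib.H9S.K3
section
/-!
CHUNK K3 (S/M). `INVB` gives `INVK`, with the same `c2`, `n0`. First part: `INVB` with `a = X`, `S = Sx X`, `T = Sy X`:
`X + 1 ≤ 2X ≤ x < 3X ≤ X + 4n` and `1 - X ≤ y ≤ X - 1 ≤ 4n - X` (`1 ≤ X ≤ n`).
Second part: `K2_trans`; for `|z| < Y < X` the points of `Sx X - z` lie in `(X, 4X)`, so `X + 1 ≤ x' ≤ X + 4n` (`x' < 3X + Y < 4X`); the form for
`z` is at most `n^(2-c2)` by `INVB` (`a = X`; `W (· + z)`, `f (· + z)` bounded; `FB` of `f` by `K2_FB`, `FB` of `g` unchanged). Sum over `z` with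
`K1_mass`: `‖kern‖` has the norm `|kern Q Y z|`.
-/
namespace Pool.Agent.H9S
open Finset Pool.Agent.H44W

theorem K3_inv (h : INVB) : INVK := by
  intro c1 hc1
  obtain ⟨c2, hc2, n0, H⟩ := h c1 hc1
  refine ⟨c2, hc2, n0, ?_⟩
  intro n hn X hX1 hXn W f g hW hf hg hFB
  have hX1' : (1 : ℤ) ≤ X := by exact_mod_cast hX1
  have hXn' : (X : ℤ) ≤ n := by exact_mod_cast hXn
  have hy : ∀ y ∈ Sy X, 1 - (X : ℤ) ≤ y ∧ y ≤ 4 * n - X := by
    intro y hy
    unfold Sy at hy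
    rw [mem_Ioo] at hy
    constructor <;> omega
  refine ⟨H n hn X (Sx X) (Sy X) ?_ hy W f g hW hf hg hFB, ?_⟩
  · intro x hx
    unfold Sx at hx
    rw [mem_Ico] at hx
    constructor <;> omega
  · intro Q Y hY
    have hY' : (Y : ℤ) < X := by exact_mod_cast hY
    rw [K2_trans]
    refine (norm_sum_le _ _).trans ?_
    have hterm : ∀ z ∈ Ioo (-(Y:ℤ)) Y, ‖((Pool.Agent.Lib.H68T.kern Q Y z : ℝ) : ℂ) *
        BF ((Sx X).image (fun x => x - z)) (Sy X) lc (fun v => W (v + z)) (fun x => f (x + z)) g‖ ≤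
        |Pool.Agent.Lib.H68T.kern Q Y z| * (n:ℝ) ^ (2 - c2) := by
      intro z hz
      rw [mem_Ioo] at hz
      rw [norm_mul, Complex.norm_real, Real.norm_eq_abs]
      refine mul_le_mul_of_nonneg_left ?_ (abs_nonneg _)
      refine H n hn X _ (Sy X) ?_ hy _ _ g (fun x => hW _) (fun x => hf _) hg ?_
      · intro x hx
        rw [mem_image] at hx
        obtain ⟨x', hx', rfl⟩ := hx
        unfold Sx at hx'
        rw [mem_Ico] at hx'
        constructor <;> omega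
      · rcases hFB with h1 | h1
        · exact Or.inl h1
        · exact Or.inr (K2_FB (Sx X) z f _ h1)
    refine (sum_le_sum hterm).trans ?_
    rw [← sum_mul]
    exact mul_le_mul_of_nonneg_right (K1_mass Q Y) (Real.rpow_nonneg (Nat.cast_nonneg n) _)

end Pool.Agent.H9S
end
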