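import Pool.Agent.Lib.H59M.M2.M023
import Pool.Agent.Lib.H59M.M2.M036
import Pool.Agent.Lib.H59M.M2.M037
import Pool.Agent.Lib.H59M.M2.M038
import Pool.Agent.Lib.H59M.M2.M039

/-! Merged copies (to shorten the build) of Lib.H18Q.E2, Lib.H18Q.PDefs, Lib.H18Q.PB2, Lib.H18Q.PC1. -/

-- from Lib.H18Q.E2
section

/-!
# Project H18Q, chunk E2: few primes with `ψ(p) = 1`
-/

open Finset

namespace Pool.Agent.Lib.H18Q

open Pool.Agent.Lib.H68T

/-- `(∑_{m ≤ x} λ(m)/m) (∑_{x < p ≤ y, ψ(p) = 1} 2/p) ≤ ∑_{x < n ≤ x y} λ(n)/n`.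

Proof. For `m ≤ x < p`, `p` prime, `ψ(p) = 1`: `p ∤ m`, `λ(m p) = 2 λ(m)` (`λ` is multiplicative;
directly: the divisors of `m p` are `d`, `p d` for `d ∣ m`, and `ψ(p d) = ψ(d)`), `x < m p ≤ x y`,
and `(m, p) ↦ m p` is injective (`m p = m' p'`, `p ≠ p'` gives `p ∣ m' ≤ x < p`). `λ ≥ 0`
(`XRP_nonneg`, or `lam` lemmas in `H51D`). -/
theorem E2_product (r : ℕ) [NeZero r] (ψ : DirichletCharacter ℂ r) (h2 : ψ ^ 2 = 1) (x y : ℕ)
    (hx : 1 ≤ x) :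
    (∑ m ∈ Icc 1 x, lam ψ m / m) *
      (∑ p ∈ (Ioc x y).filter (fun p : ℕ => p.Prime ∧ ψ (p : ZMod r) = 1), 2 / (p : ℝ)) ≤
      ∑ n ∈ Ioc x (x * y), lam ψ n / n := by
  classical
  set P := (Ioc x y).filter (fun p : ℕ => p.Prime ∧ ψ (p : ZMod r) = 1) with hP
  have hPm : ∀ p ∈ P, x < p ∧ p ≤ y ∧ p.Prime ∧ ψ (p : ZMod r) = 1 := by
    intro p hp
    rw [hP, mem_filter, mem_Ioc] at hp
    exact ⟨hp.1.1, hp.1.2, hp.2.1, hp.2.2⟩
  have hval : ∀ q ∈ Icc 1 x ×ˢ P, lam ψ q.1 / q.1 * (2 / (q.2 : ℝ)) = lam ψ (q.1 * q.2) / ((q.1 * q.2 : ℕ) : ℝ) := by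
    rintro ⟨m, p⟩ hq
    rw [mem_product, mem_Icc] at hq
    obtain ⟨h1, h3, h4, h5⟩ := hPm p hq.2
    have hm1 := hq.1.1
    have hm2 := hq.1.2
    simp only at h1 h3 h4 h5 hm1 hm2 ⊢
    have hcop : m.Coprime p := by
      rw [Nat.coprime_comm, Nat.Prime.coprime_iff_not_dvd h4]
      intro hd
      have := Nat.le_of_dvd (by omega) hd
      omega
    have hlp : lam ψ p = 2 := by
      have := dha_lam_pp r ψ h2 p 1 h4
      rw [pow_one, sum_range_succ, sum_range_one, h5] at this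
      rw [this]
      norm_num
    have hmul : lam ψ (m * p) = lam ψ m * 2 := by
      rw [dha_lam ψ (m * p), (dha_lam_mult r ψ h2).map_mul_of_coprime hcop, ← dha_lam, ← dha_lam, hlp]
    rw [hmul]
    push_cast
    rw [mul_comm (m : ℝ) (p : ℝ)]
    have hm0 : (m : ℝ) ≠ 0 := by exact_mod_cast (by omega : m ≠ 0)
    have hp0 : (p : ℝ) ≠ 0 := by exact_mod_cast h4.ne_zero
    field_simp
  have hinj : Set.InjOn (fun q : ℕ × ℕ => q.1 * q.2) (Icc 1 x ×ˢ P : Finset (ℕ × ℕ)) := by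
    rintro ⟨m, p⟩ hq ⟨m', p'⟩ hq' h
    rw [mem_coe, mem_product, mem_Icc] at hq hq'
    obtain ⟨h1, h3, h4, h5⟩ := hPm p hq.2
    obtain ⟨h1', h3', h4', h5'⟩ := hPm p' hq'.2
    simp only at h h1 h1' hq hq' h4 h4'
    have hpp : p = p' := by
      have hd : p ∣ m' * p' := ⟨m, by rw [← h]; ring⟩
      rcases h4.dvd_mul.1 hd with h6 | h6
      · have := Nat.le_of_dvd (by omega) h6
        omega
      · exact (Nat.prime_dvd_prime_iff_eq h4 h4').1 h6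
    subst hpp
    have := Nat.eq_of_mul_eq_mul_right h4.pos h
    rw [this]
  rw [sum_mul_sum, ← sum_product', sum_congr rfl hval]
  have himg : ∑ q ∈ Icc 1 x ×ˢ P, lam ψ (q.1 * q.2) / ((q.1 * q.2 : ℕ) : ℝ) =
      ∑ n ∈ (Icc 1 x ×ˢ P).image (fun q : ℕ × ℕ => q.1 * q.2), lam ψ n / (n : ℝ) :=
    (sum_image (f := fun n : ℕ => lam ψ n / (n : ℝ)) hinj).symm
  rw [himg]
  refine sum_le_sum_of_subset_of_nonneg ?_ fun n _ _ => div_nonneg (lam_nonneg r ψ h2 n) (Nat.cast_nonneg _)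
  intro n hn
  rw [mem_image] at hn
  obtain ⟨⟨m, p⟩, hq, rfl⟩ := hn
  rw [mem_product, mem_Icc] at hq
  obtain ⟨h1, h3, h4, h5⟩ := hPm p hq.2
  simp only at h1 h3 hq ⊢
  rw [mem_Ioc]
  exact ⟨lt_of_lt_of_le h1 (Nat.le_mul_of_pos_left p (by omega)), Nat.mul_le_mul hq.1.2 h3⟩

/-- **Few primes with `ψ(p) = 1`.** Let `β` be a real zero of `L(s, ψ)`, `3/4 ≤ β < 1`,
`η = 1 - β`, `(4000 r)² ≤ x ≤ y`. Then
`∑_{x < p ≤ y, ψ(p) = 1} 1/p ≤ η (2 + log (x y)) + 10 r/√x`.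

Proof. `A = ∑_{m ≤ x} λ(m)/m ≥ 1` (term `m = 1`, `λ ≥ 0`), and `m^(-1) = m^(-β) m^(-η) ≥ m^(-β)
x^(-η)`, so by `E1_lower` `A ≥ x^(-η) ∑ λ(m) m^(-β) ≥ ‖L(1)‖/η - 2000 r x^(-1/2) ≥ ‖L(1)‖/η - 1/2`;
hence `A ≥ (2/3) ‖L(1)‖/η` (if `‖L(1)‖/η ≤ 3/2` from `A ≥ 1`, else from `t - 1/2 ≥ 2 t/3`). By
`E2_product` and `lam_tail` (`H51D/DHC`; `y N` there is `x`, `x y`):
`2 A ∑ 1/p ≤ ‖L(1)‖ (2 + log (x y)) + 20 r/√x`. Divide by `2 A ≥ 2`, `2 A ≥ (4/3) ‖L(1)‖/η`. -/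
theorem E2_primes (r : ℕ) [NeZero r] (ψ : DirichletCharacter ℂ r) (hψ : ψ ≠ 1) (h2 : ψ ^ 2 = 1)
    (β : ℝ) (hβ : 3 / 4 ≤ β) (hβ1 : β < 1) (h0 : ψ.LFunction (β : ℂ) = 0) (x y : ℕ)
    (hx : (4000 * r) ^ 2 ≤ x) (hxy : x ≤ y) :
    ∑ p ∈ (Ioc x y).filter (fun p : ℕ => p.Prime ∧ ψ (p : ZMod r) = 1), 1 / (p : ℝ) ≤
      (1 - β) * (2 + Real.log (x * y : ℕ)) + 10 * r / Real.sqrt x := by
  have hr1 : (1 : ℝ) ≤ r := by exact_mod_cast Nat.one_le_iff_ne_zero.2 (NeZero.ne r)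
  have hrn : 1 ≤ r := Nat.one_le_iff_ne_zero.2 (NeZero.ne r)
  have hx1 : 1 ≤ x := le_trans (Nat.one_le_pow _ _ (by omega)) hx
  have hxR : (0 : ℝ) < x := by exact_mod_cast hx1
  have hη : 0 < 1 - β := by linarith
  obtain ⟨η, hηd⟩ : ∃ η, η = 1 - β := ⟨_, rfl⟩
  obtain ⟨L1, hL1⟩ : ∃ L1, L1 = ‖ψ.LFunction 1‖ := ⟨_, rfl⟩
  have hL0 : 0 ≤ L1 := by rw [hL1]; exact norm_nonneg _
  obtain ⟨A, hA⟩ : ∃ A, A = ∑ m ∈ Icc 1 x, lam ψ m / m := ⟨_, rfl⟩
  obtain ⟨S, hS⟩ : ∃ S, S = ∑ p ∈ (Ioc x y).filter (fun p : ℕ => p.Prime ∧ ψ (p : ZMod r) = 1), 1 / (p : ℝ) := ⟨_, rfl⟩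
  have hS0 : 0 ≤ S := by
    rw [hS]
    exact sum_nonneg fun p _ => by positivity
  have h1 := E2_product r ψ h2 x y hx1
  have h2S : ∑ p ∈ (Ioc x y).filter (fun p : ℕ => p.Prime ∧ ψ (p : ZMod r) = 1), 2 / (p : ℝ) = 2 * S := by
    rw [hS, mul_sum]
    exact sum_congr rfl fun p _ => by ring
  rw [h2S, ← hA] at h1
  have hxy1 : x ≤ x * y := Nat.le_mul_of_pos_right x (by omega)
  have h3 := lam_tail r ψ hψ h2 x (x * y) hx1 hxy1
  rw [← hL1] at h3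
  have hA1 : 1 ≤ A := by
    have h4 : lam ψ 1 / ((1 : ℕ) : ℝ) ≤ A := by
      rw [hA]
      exact single_le_sum (f := fun m : ℕ => lam ψ m / (m : ℝ)) (fun m _ => div_nonneg (lam_nonneg r ψ h2 m) (Nat.cast_nonneg _))
        (mem_Icc.2 ⟨le_rfl, hx1⟩)
    have h5 : lam ψ 1 = 1 := by
      unfold lam
      simp
    rw [h5] at h4
    simpa using h4
  have hsq : 4000 * (r : ℝ) ≤ Real.sqrt x := by
    apply Real.le_sqrt_of_sq_le
    exact_mod_cast hx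
  have hAl : L1 / η - 1 / 2 ≤ A := by
    have h4 := E1_lower r ψ hψ h2 β hβ hβ1 h0 x hx1
    rw [← hL1, ← hηd] at h4
    have h5 : (x : ℝ) ^ (-η) * ∑ m ∈ Icc 1 x, lam ψ m * (m : ℝ) ^ (-β) ≤ A := by
      rw [hA, mul_sum]
      refine sum_le_sum fun m hm => ?_
      rw [mem_Icc] at hm
      have hm0 : (0 : ℝ) < m := by exact_mod_cast (by omega : 0 < m)
      have hmx : (m : ℝ) ≤ x := by exact_mod_cast hm.2
      have h6 : (x : ℝ) ^ (-η) ≤ (m : ℝ) ^ (-η) :=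
        Real.rpow_le_rpow_of_nonpos hm0 hmx (by rw [hηd]; linarith)
      have h7 : (m : ℝ) ^ (-η) * (m : ℝ) ^ (-β) = 1 / m := by
        rw [← Real.rpow_add hm0, hηd]
        have : -(1 - β) + -β = -1 := by ring
        rw [this, Real.rpow_neg_one, one_div]
      calc (x : ℝ) ^ (-η) * (lam ψ m * (m : ℝ) ^ (-β)) ≤ (m : ℝ) ^ (-η) * (lam ψ m * (m : ℝ) ^ (-β)) :=
            mul_le_mul_of_nonneg_right h6 (mul_nonneg (lam_nonneg r ψ h2 m) (Real.rpow_nonneg hm0.le _))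
        _ = lam ψ m * ((m : ℝ) ^ (-η) * (m : ℝ) ^ (-β)) := by ring
        _ = lam ψ m / m := by rw [h7]; ring
    have h6 := mul_le_mul_of_nonneg_left h4 (Real.rpow_nonneg hxR.le (-η))
    have h7 : (x : ℝ) ^ (-η) * (L1 * (x : ℝ) ^ η / η - 2000 * r * (x : ℝ) ^ (1 / 2 - β)) =
        L1 / η - 2000 * r / Real.sqrt x := by
      have e1 : (x : ℝ) ^ (-η) * (x : ℝ) ^ η = 1 := by
        rw [← Real.rpow_add hxR, neg_add_cancel, Real.rpow_zero]
      have e2 : (x : ℝ) ^ (-η) * (x : ℝ) ^ (1 / 2 - β) = 1 / Real.sqrt x := by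
        rw [← Real.rpow_add hxR, Real.sqrt_eq_rpow, one_div ((x : ℝ) ^ (1 / 2 : ℝ)), ← Real.rpow_neg hxR.le, hηd]
        congr 1
        ring
      calc (x : ℝ) ^ (-η) * (L1 * (x : ℝ) ^ η / η - 2000 * r * (x : ℝ) ^ (1 / 2 - β)) =
          L1 * ((x : ℝ) ^ (-η) * (x : ℝ) ^ η) / η - 2000 * r * ((x : ℝ) ^ (-η) * (x : ℝ) ^ (1 / 2 - β)) := by ring
        _ = _ := by rw [e1, e2]; ring
    rw [h7] at h6
    have h8 : 2000 * r / Real.sqrt x ≤ 1 / 2 := by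
      rw [div_le_iff₀ (by linarith)]
      linarith
    linarith
  have hη' : 0 < η := by rw [hηd]; exact hη
  have hLA : L1 ≤ 3 / 2 * η * A := by
    have h5 : L1 = L1 / η * η := by field_simp
    by_cases h6 : L1 / η ≤ 3 / 2
    · rw [h5]
      nlinarith
    · push Not at h6
      rw [h5]
      nlinarith
  obtain ⟨l, hl⟩ : ∃ l, l = Real.log ((x * y : ℕ) : ℝ) := ⟨_, rfl⟩
  rw [← hl] at h3 ⊢
  rw [← hS, ← hηd]
  have hl0 : 0 ≤ l := by
    rw [hl]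
    exact Real.log_natCast_nonneg _
  obtain ⟨z, hz⟩ : ∃ z, z = r / Real.sqrt x := ⟨_, rfl⟩
  have hz0 : 0 ≤ z := by
    rw [hz]
    positivity
  have e20 : 20 * r / Real.sqrt x = 20 * z := by rw [hz]; ring
  have e10 : 10 * r / Real.sqrt x = 10 * z := by rw [hz]; ring
  rw [e20] at h3
  rw [e10]
  have h9 : A * (2 * S) ≤ 3 / 2 * η * A * (2 + l) + 20 * z :=
    (h1.trans h3).trans (add_le_add (mul_le_mul_of_nonneg_right hLA (by linarith)) le_rfl)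
  have hA0 : 0 < A := by linarith
  by_contra hcon
  push Not at hcon
  have h10 : A * (2 * (η * (2 + l) + 10 * z)) < A * (2 * S) := by
    apply mul_lt_mul_of_pos_left _ hA0
    linarith
  have h11 : 20 * z ≤ A * (20 * z) := le_mul_of_one_le_left (by positivity) hA1
  have h12 : 0 ≤ η * A * (2 + l) := by positivity
  nlinarith

end Pool.Agent.Lib.H18Q
end

-- from Lib.H18Q.PDefs
section

/-!
# Project H18Q: definitions for module P
-/

open Finset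

namespace Pool.Agent.Lib.H18Q

open Pool.Agent.Lib.H68T

noncomputable section

/-- The order of the derivative: `⌊log X / 64⌋`. -/
def kX (X : ℕ) : ℕ := ⌊Real.log X / 64⌋₊

/-- The Gamma density `(1/64)^(k+1) u^k e^(-u/64)/k!`. -/
def Wd (k : ℕ) (u : ℝ) : ℝ :=
  (1 / 64 : ℝ) ^ (k + 1) * u ^ k / (k.factorial : ℝ) * Real.exp (-(u / 64))

/-- The weighted series `∑ Λ(n) c(n) n^(-iv) Jk(1/64, k, n)`. -/
def Pk (c : ℕ → ℂ) (k : ℕ) (v : ℝ) : ℂ :=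
  ∑' n : ℕ, ((ArithmeticFunction.vonMangoldt n * Jk (1 / 64) k n : ℝ) : ℂ) * c n *
    (n : ℂ) ^ (-(v * Complex.I))

/-- The main term `((1/64)/(1/64 + 1 - b + iv))^(k+1)`. -/
def Mk (b : ℝ) (k : ℕ) (v : ℝ) : ℂ :=
  ((1 / 64 : ℝ) / ((1 / 64 + 1 - b : ℝ) + v * Complex.I) : ℂ) ^ (k + 1)

/-- The smooth main term `∫ w(u - log X) e^(-(1 - b + it) u) du`. -/
def Mb (X : ℕ) (b t : ℝ) : ℂ :=
  ∫ u : ℝ, (w (u - Real.log X) : ℂ) * Complex.exp (-((1 - b : ℝ) + t * Complex.I) * u)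

/-- A family of entire functions attached to the primitive characters of conductor at most `Q`,
with growth data, whose zeros are among those of the L-functions. -/
structure Fam (C0 : ℝ) (Q : ℕ) (g : (Σ r : ℕ, DirichletCharacter ℂ r) → ℂ → ℂ) : Prop where
  dat : ∀ p ∈ PC Q, LDat C0 (Real.log Q) ((Q : ℝ) ^ 10) (g p)
  zer : ∀ p ∈ PC Q, ∀ ρ, g p ρ = 0 → Lp p ρ = 0
  ord : ∀ p ∈ PC Q, ∀ ρ, od (g p) ρ ≤ od (Lp p) ρ

end

end Pool.Agent.Lib.H18Q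
end

-- from Lib.H18Q.PB2
section

/-!
# Project H18Q, chunk PB2: the quotient of the bump by the Gamma density
-/

open Finset

namespace Pool.Agent.Lib.H18Q

open Pool.Agent.Lib.H68T

/-- One step: a smooth function vanishing outside `[a, b]`. -/
theorem pb2_step (g : ℝ → ℝ) (a b : ℝ) (hg : ContDiff ℝ (⊤ : ℕ∞) g)
    (hz : ∀ y, y ∉ Set.Icc a b → g y = 0) :
    (∀ y, HasDerivAt g (deriv g y) y) ∧ ContDiff ℝ (⊤ : ℕ∞) (deriv g) ∧
    (∀ y, y ∉ Set.Icc a b → deriv g y = 0) ∧ ∃ M : ℝ, ∀ y, |g y| ≤ M := by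
  obtain ⟨h1, h2⟩ := contDiff_infty_iff_deriv.mp hg
  have hsup : Function.support g ⊆ Set.Icc a b := by
    intro y hy
    by_contra h
    exact hy (hz y h)
  have hts : tsupport g ⊆ Set.Icc a b := closure_minimal hsup isClosed_Icc
  refine ⟨fun y => (h1 y).hasDerivAt, h2, ?_, ?_⟩
  · intro y hy
    by_contra h
    exact hy (hts (support_deriv_subset h))
  · have hc : HasCompactSupport g := isCompact_Icc.of_isClosed_subset (isClosed_tsupport _) hts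
    obtain ⟨C, hC⟩ := hc.exists_bound_of_continuous hg.continuous
    exact ⟨C, hC⟩

/-- Three derivatives of `w`: explicit functions, continuous, bounded, zero outside `[-2, 4]`
(`w` is smooth: `Real.smoothTransition.contDiff`; it vanishes outside `[-2, 4]`, so its derivatives
do; take `iteratedDeriv j w`; see `XFB_amp` in `H68X/XFB` for two derivatives). -/
theorem PB2_w : ∃ (w1 w2 w3 : ℝ → ℝ) (M : ℝ), 1 ≤ M ∧ (∀ y, HasDerivAt w (w1 y) y) ∧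
    (∀ y, HasDerivAt w1 (w2 y) y) ∧ (∀ y, HasDerivAt w2 (w3 y) y) ∧ Continuous w3 ∧
    (∀ y, y ∉ Set.Icc (-2 : ℝ) 4 → w y = 0 ∧ w1 y = 0 ∧ w2 y = 0 ∧ w3 y = 0) ∧
    ∀ y, |w y| ≤ M ∧ |w1 y| ≤ M ∧ |w2 y| ≤ M ∧ |w3 y| ≤ M := by
  have hw : ContDiff ℝ (⊤ : ℕ∞) w := by
    unfold w
    have h1 : ContDiff ℝ (⊤ : ℕ∞) (fun y : ℝ => Real.smoothTransition (y + 2)) :=
      Real.smoothTransition.contDiff.comp (contDiff_id.add contDiff_const)
    have h2 : ContDiff ℝ (⊤ : ℕ∞) (fun y : ℝ => Real.smoothTransition (4 - y)) :=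
      Real.smoothTransition.contDiff.comp (contDiff_const.sub contDiff_id)
    exact h1.mul h2
  have hz : ∀ y, y ∉ Set.Icc (-2 : ℝ) 4 → w y = 0 := by
    intro y hy
    rw [Set.mem_Icc, not_and_or, not_le, not_le] at hy
    unfold w
    rcases hy with hy | hy
    · rw [Real.smoothTransition.zero_of_nonpos (by linarith), zero_mul]
    · rw [Real.smoothTransition.zero_of_nonpos (x := 4 - y) (by linarith), mul_zero]
  obtain ⟨a1, a2, a3, M0, hM0⟩ := pb2_step w (-2) 4 hw hz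
  obtain ⟨b1, b2, b3, M1, hM1⟩ := pb2_step (deriv w) (-2) 4 a2 a3
  obtain ⟨c1, c2, c3, M2, hM2⟩ := pb2_step (deriv (deriv w)) (-2) 4 b2 b3
  obtain ⟨d1, d2, d3, M3, hM3⟩ := pb2_step (deriv (deriv (deriv w))) (-2) 4 c2 c3
  refine ⟨deriv w, deriv (deriv w), deriv (deriv (deriv w)), 1 + |M0| + |M1| + |M2| + |M3|, ?_,
    a1, b1, c1, c2.continuous, fun y hy => ⟨hz y hy, a3 y hy, b3 y hy, c3 y hy⟩, fun y => ?_⟩
  · have := abs_nonneg M0
    have := abs_nonneg M1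
    have := abs_nonneg M2
    have := abs_nonneg M3
    linarith
  · have h0 := (hM0 y).trans (le_abs_self M0)
    have h1 := (hM1 y).trans (le_abs_self M1)
    have h2 := (hM2 y).trans (le_abs_self M2)
    have h3 := (hM3 y).trans (le_abs_self M3)
    have := abs_nonneg M0
    have := abs_nonneg M1
    have := abs_nonneg M2
    have := abs_nonneg M3
    refine ⟨?_, ?_, ?_, ?_⟩ <;> linarith

/-- `k! ≤ e √k (k/e)^k`. -/
theorem pb2_fact (k : ℕ) (hk : 1 ≤ k) :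
    (k.factorial : ℝ) ≤ Real.exp 1 * Real.sqrt k * ((k : ℝ) / Real.exp 1) ^ k := by
  obtain ⟨m, rfl⟩ : ∃ m, k = m + 1 := ⟨k - 1, by omega⟩
  have h := Stirling.stirlingSeq'_antitone (Nat.zero_le m)
  simp only [Function.comp, Nat.succ_eq_add_one, zero_add] at h
  rw [Stirling.stirlingSeq_one] at h
  unfold Stirling.stirlingSeq at h
  have hp : (0 : ℝ) < ((m + 1 : ℕ) : ℝ) := by positivity
  have hs : 0 < Real.sqrt (2 * ((m + 1 : ℕ) : ℝ)) * (((m + 1 : ℕ) : ℝ) / Real.exp 1) ^ (m + 1) := by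
    positivity
  rw [div_le_iff₀ hs] at h
  refine h.trans (le_of_eq ?_)
  rw [Real.sqrt_mul (by norm_num)]
  have h2 : Real.sqrt 2 ≠ 0 := by positivity
  field_simp

/-- `1/Wd k U ≤ C √U` for `k = ⌊U/64⌋ ≥ 1`.

Proof. `Wd k U = (1/64) y^k e^(-y)/k!` with `y = U/64 ∈ [k, k+1)`. `y^k e^(-y)` is decreasing for
`y ≥ k`, so it is `≥ (k+1)^k e^(-k-1) ≥ 2 k^k e^(-k)/e` (`(1 + 1/k)^k ≥ 2`), and
`k! ≤ e √k (k/e)^k` (`Stirling.stirlingSeq` is antitone for `n ≥ 1`, value `e/√2` at `1`; or by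
induction). So `1/Wd ≤ 64 (e/2) e √k ≤ 300 √k`. -/
theorem PB2_W (X : ℕ) (hk : 1 ≤ kX X) : 0 < Wd (kX X) (Real.log X) ∧
    1 / Wd (kX X) (Real.log X) ≤ 300 * Real.sqrt (Real.log X) := by
  set k := kX X with hkd
  set U := Real.log X with hU
  have hk1 : (1 : ℝ) ≤ k := by exact_mod_cast hk
  have hU0 : 0 ≤ U := Real.log_natCast_nonneg X
  have hkle : (k : ℝ) ≤ U / 64 := by
    rw [hkd]
    unfold kX
    exact Nat.floor_le (by positivity)
  have hklt : U / 64 < k + 1 := by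
    rw [hkd]
    unfold kX
    exact Nat.lt_floor_add_one _
  have hUp : 0 < U := by linarith
  have hW : 0 < Wd k U := by
    unfold Wd
    positivity
  refine ⟨hW, ?_⟩
  rw [div_le_iff₀ hW]
  -- `1 ≤ 300 √U Wd`
  have hf := pb2_fact k hk
  have hfp : (0 : ℝ) < (k.factorial : ℝ) := by exact_mod_cast k.factorial_pos
  have h1 : (k : ℝ) ^ k ≤ (U / 64) ^ k := pow_le_pow_left₀ (by positivity) hkle k
  have h2 : Real.exp (-((k : ℝ) + 1)) ≤ Real.exp (-(U / 64)) := Real.exp_le_exp.mpr (by linarith)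
  have h3 : Real.sqrt k ≤ Real.sqrt U / 8 := by
    have e : Real.sqrt (U / 64) = Real.sqrt U / 8 := by
      rw [Real.sqrt_div hU0]
      congr 1
      rw [show (64 : ℝ) = 8 ^ 2 by norm_num]
      exact Real.sqrt_sq (by norm_num)
    rw [← e]
    exact Real.sqrt_le_sqrt hkle
  have hWe : Wd k U = (1 / 64) * ((U / 64) ^ k * Real.exp (-(U / 64))) / (k.factorial : ℝ) := by
    unfold Wd
    rw [div_pow, pow_succ, div_pow, one_pow]
    ring
  rw [hWe, mul_div_assoc', le_div_iff₀ hfp, one_mul]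
  have he : Real.exp 1 * Real.exp 1 ≤ 8 := by
    have := Real.exp_one_lt_d9
    have := Real.exp_pos 1
    nlinarith
  have h4 : ((k : ℝ) / Real.exp 1) ^ k = (k : ℝ) ^ k * (Real.exp 1 * Real.exp (-((k : ℝ) + 1))) := by
    rw [div_pow, div_eq_mul_inv]
    congr 1
    rw [← Real.exp_nat_mul, mul_one, ← Real.exp_neg, ← Real.exp_add]
    congr 1
    ring
  calc (k.factorial : ℝ) ≤ Real.exp 1 * Real.sqrt k * ((k : ℝ) / Real.exp 1) ^ k := hf
    _ = (Real.exp 1 * Real.exp 1) * Real.sqrt k * ((k : ℝ) ^ k * Real.exp (-((k : ℝ) + 1))) := by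
        rw [h4]; ring
    _ ≤ 8 * (Real.sqrt U / 8) * ((U / 64) ^ k * Real.exp (-(U / 64))) := by
        gcongr
    _ = 64 * Real.sqrt U * (1 / 64 * ((U / 64) ^ k * Real.exp (-(U / 64)))) := by ring
    _ ≤ _ := by
        gcongr
        norm_num

/-- The exponent `h(u) = (u - U)/64 - k (log u - log U)`. -/
noncomputable def pb2_h (k : ℕ) (U u : ℝ) : ℝ := (u - U) / 64 - k * (Real.log u - Real.log U)

/-- `h'`. -/
noncomputable def pb2_h1 (k : ℕ) (u : ℝ) : ℝ := 1 / 64 - k * u⁻¹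

/-- `h''`. -/
noncomputable def pb2_h2 (k : ℕ) (u : ℝ) : ℝ := k * (u⁻¹) ^ 2

/-- `h'''`. -/
noncomputable def pb2_h3 (k : ℕ) (u : ℝ) : ℝ := -(2 * k * (u⁻¹) ^ 3)

theorem pb2_dh (k : ℕ) (U u : ℝ) (hu : 0 < u) : HasDerivAt (pb2_h k U) (pb2_h1 k u) u := by
  unfold pb2_h pb2_h1
  have h1 : HasDerivAt (fun u : ℝ => (u - U) / 64) (1 / 64) u :=
    ((hasDerivAt_id u).sub_const U).div_const 64
  have h2 : HasDerivAt (fun u : ℝ => (k : ℝ) * (Real.log u - Real.log U)) (k * u⁻¹) u :=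
    ((Real.hasDerivAt_log hu.ne').sub_const _).const_mul _
  exact h1.sub h2

theorem pb2_dh1 (k : ℕ) (u : ℝ) (hu : 0 < u) : HasDerivAt (pb2_h1 k) (pb2_h2 k u) u := by
  unfold pb2_h1 pb2_h2
  have h2 := ((hasDerivAt_inv hu.ne').const_mul (k : ℝ)).const_sub (1 / 64 : ℝ)
  refine h2.congr_deriv ?_
  rw [inv_pow]
  ring

theorem pb2_dh2 (k : ℕ) (u : ℝ) (hu : 0 < u) : HasDerivAt (pb2_h2 k) (pb2_h3 k u) u := by
  unfold pb2_h2 pb2_h3
  have h2 := ((hasDerivAt_inv hu.ne').pow 2).const_mul (k : ℝ)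
  refine h2.congr_deriv ?_
  rw [← inv_pow]
  push_cast
  ring

theorem pb2_dG (k : ℕ) (U u : ℝ) (hu : 0 < u) :
    HasDerivAt (fun u => Real.exp (pb2_h k U u)) (pb2_h1 k u * Real.exp (pb2_h k U u)) u := by
  have := (pb2_dh k U u hu).exp
  rwa [mul_comm] at this

theorem pb2_dG1 (k : ℕ) (U u : ℝ) (hu : 0 < u) :
    HasDerivAt (fun u => pb2_h1 k u * Real.exp (pb2_h k U u))
      ((pb2_h2 k u + pb2_h1 k u ^ 2) * Real.exp (pb2_h k U u)) u := by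
  refine ((pb2_dh1 k u hu).mul (pb2_dG k U u hu)).congr_deriv ?_
  ring

theorem pb2_dG2 (k : ℕ) (U u : ℝ) (hu : 0 < u) :
    HasDerivAt (fun u => (pb2_h2 k u + pb2_h1 k u ^ 2) * Real.exp (pb2_h k U u))
      ((pb2_h3 k u + 3 * pb2_h1 k u * pb2_h2 k u + pb2_h1 k u ^ 3) * Real.exp (pb2_h k U u)) u := by
  refine (((pb2_dh2 k u hu).add ((pb2_dh1 k u hu).pow 2)).mul (pb2_dG k U u hu)).congr_deriv ?_
  simp only [Pi.add_apply, Pi.pow_apply]
  push_cast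
  ring

theorem pb2_cG3 (k : ℕ) (U u : ℝ) (hu : 0 < u) :
    ContinuousAt (fun u => (pb2_h3 k u + 3 * pb2_h1 k u * pb2_h2 k u + pb2_h1 k u ^ 3) *
      Real.exp (pb2_h k U u)) u := by
  have c0 := (pb2_dG k U u hu).continuousAt
  have c1 := (pb2_dh1 k u hu).continuousAt
  have c2 := (pb2_dh2 k u hu).continuousAt
  have c3 : ContinuousAt (pb2_h3 k) u := by
    unfold pb2_h3
    have := continuousAt_inv₀ hu.ne'
    fun_prop (disch := exact hu.ne')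
  exact ((c3.add ((continuousAt_const.mul c1).mul c2)).add (c1.pow 3)).mul c0

/-- Bounds for the exponent on `[U - 2, U + 4]`. -/
theorem pb2_hb (k : ℕ) (U : ℝ) (hU : 100 ≤ U) (h1 : (k : ℝ) ≤ U / 64)
    (u : ℝ) (hu : u ∈ Set.Icc (U - 2) (U + 4)) :
    |pb2_h1 k u| ≤ 1 ∧ |pb2_h2 k u| ≤ 1 ∧ |pb2_h3 k u| ≤ 1 := by
  obtain ⟨hu1, hu2⟩ := Set.mem_Icc.mp hu
  have hu0 : 0 < u := by linarith
  have hi : 0 < u⁻¹ := inv_pos.mpr hu0
  have hk : (0 : ℝ) ≤ k := Nat.cast_nonneg k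
  have hki : k * u⁻¹ ≤ 1 := by
    rw [← div_eq_mul_inv, div_le_one hu0]
    linarith
  have hki0 : 0 ≤ k * u⁻¹ := by positivity
  have hi1 : u⁻¹ ≤ 1 / 2 := by
    rw [inv_eq_one_div]
    exact one_div_le_one_div_of_le (by norm_num) (by linarith)
  refine ⟨?_, ?_, ?_⟩
  · unfold pb2_h1
    rw [abs_le]
    constructor <;> linarith
  · unfold pb2_h2
    rw [abs_of_nonneg (by positivity)]
    calc (k : ℝ) * u⁻¹ ^ 2 = (k * u⁻¹) * u⁻¹ := by ring
      _ ≤ 1 * (1 / 2) := mul_le_mul hki hi1 hi.le (by norm_num)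
      _ ≤ 1 := by norm_num
  · unfold pb2_h3
    rw [abs_neg, abs_of_nonneg (by positivity)]
    calc 2 * (k : ℝ) * u⁻¹ ^ 3 = 2 * ((k * u⁻¹) * (u⁻¹ * u⁻¹)) := by ring
      _ ≤ 2 * (1 * ((1 / 2) * (1 / 2))) := by
          gcongr
      _ ≤ 1 := by norm_num

theorem pb2_hh (k : ℕ) (U : ℝ) (hU : 100 ≤ U) (h1 : (k : ℝ) ≤ U / 64)
    (u : ℝ) (hu : u ∈ Set.Icc (U - 2) (U + 4)) : pb2_h k U u ≤ 4 := by
  have h := Convex.norm_image_sub_le_of_norm_hasDerivWithin_le (f := pb2_h k U)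
    (f' := pb2_h1 k) (s := Set.Icc (U - 2) (U + 4)) (C := 1) (x := U) (y := u)
    (fun z hz => (pb2_dh k U z (by linarith [(Set.mem_Icc.mp hz).1])).hasDerivWithinAt)
    (fun z hz => (pb2_hb k U hU h1 z hz).1) (convex_Icc _ _)
    (Set.mem_Icc.mpr ⟨by linarith, by linarith⟩) hu
  have h0 : pb2_h k U U = 0 := by
    unfold pb2_h
    ring
  rw [h0, sub_zero, one_mul, Real.norm_eq_abs, Real.norm_eq_abs] at h
  obtain ⟨hu1, hu2⟩ := Set.mem_Icc.mp hu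
  refine (le_abs_self _).trans (h.trans ?_)
  rw [abs_le]
  constructor <;> linarith

/-- A function vanishing below `a > 0` with a derivative on `(0, ∞)` has a derivative. -/
theorem pb2_glue (a : ℝ) (ha : 0 < a) (f f1 : ℝ → ℝ) (hz : ∀ y, y < a → f y = 0)
    (hz1 : ∀ y, y < a → f1 y = 0) (hd : ∀ y, 0 < y → HasDerivAt f (f1 y) y) (y : ℝ) :
    HasDerivAt f (f1 y) y := by
  by_cases h : 0 < y
  · exact hd y h
  · have hy : y < a := by linarith [not_lt.mp h]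
    rw [hz1 y hy]
    have he : f =ᶠ[nhds y] fun _ => 0 := by
      filter_upwards [Iio_mem_nhds hy] with z hz'
      exact hz z hz'
    exact (hasDerivAt_const y (0 : ℝ)).congr_of_eventuallyEq he

/-- The quotient `κ(u) = w(u - U)/Wd(k, u)` (`0` for `u ∉ [U-2, U+4]`), `U = log X`, `k = kX X`, has
three derivatives bounded by `C √U`.

Proof. For `u > 0`, `1/Wd k u = (1/Wd k U) e^(h(u))`, `h(u) = (u - U)/64 - k log (u/U)`. On
`[U-2, U+4]` (`U` large, `|k - U/64| ≤ 1`): `|h'(u)| = |1/64 - k/u| = |u/64 - k|/u ≤ 2/u ≤ 1`,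
`|h''| = k/u² ≤ 1`, `|h'''| = 2 k/u³ ≤ 1`, and `h(U) = 0`, so `|h| ≤ 4` there. So `G = e^h` has
`G' = h' G`, `G'' = (h'' + h'²) G`, `G''' = (h''' + 3 h' h'' + h'³) G`, all at most `5 e^4` in
absolute value. `κ = (1/Wd k U) w(u - U) G(u)`: Leibniz with `PB2_w`; outside `[U - 2, U + 4]`
everything is `0` (the functions `κ_j(u)` are defined as the Leibniz expressions for `u > 0` and `0`
for `u ≤ 0`, and `HasDerivAt` at `u ≤ 0` holds since `κ_j = 0` on `(-∞, U-2)`). `PB2_W` for the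
factor `1/Wd k U`. -/
theorem PB2_quot : ∃ C K : ℝ, 0 < C ∧ ∀ X : ℕ, K ≤ X → ∃ f f1 f2 f3 : ℝ → ℝ,
    (∀ y, HasDerivAt f (f1 y) y) ∧ (∀ y, HasDerivAt f1 (f2 y) y) ∧
    (∀ y, HasDerivAt f2 (f3 y) y) ∧ Continuous f3 ∧
    (∀ y, y ∉ Set.Icc (Real.log X - 2) (Real.log X + 4) → f y = 0 ∧ f1 y = 0 ∧ f2 y = 0 ∧
      f3 y = 0) ∧
    (∀ y, |f y| ≤ C * Real.sqrt (Real.log X) ∧ |f3 y| ≤ C * Real.sqrt (Real.log X)) ∧
    ∀ u : ℝ, 0 < u → w (u - Real.log X) = Wd (kX X) u * f u := by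
  obtain ⟨w1, w2, w3, M, hM, d0, d1, d2, c3, hout, hb⟩ := PB2_w
  have hE4 : 1 ≤ Real.exp 4 := Real.one_le_exp (by norm_num)
  refine ⟨300 * (15 * M * Real.exp 4), Real.exp 100, by positivity, fun X hX => ?_⟩
  have hX0 : (0 : ℝ) < X := lt_of_lt_of_le (Real.exp_pos _) hX
  set U := Real.log X with hUd
  have hU : 100 ≤ U := (Real.le_log_iff_exp_le hX0).mpr hX
  set k := kX X with hkd
  have hkle : (k : ℝ) ≤ U / 64 := by
    rw [hkd]
    unfold kX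
    exact Nat.floor_le (by positivity)
  have hklt : U / 64 < k + 1 := by
    rw [hkd]
    unfold kX
    exact Nat.lt_floor_add_one _
  have hk1 : 1 ≤ k := by
    by_contra h
    have : k = 0 := by omega
    rw [this] at hklt
    norm_num at hklt
    linarith
  obtain ⟨hWp, hWb⟩ := PB2_W X hk1
  rw [← hkd, ← hUd] at hWp hWb
  set c := 1 / Wd k U with hc
  have hc0 : 0 < c := by rw [hc]; positivity
  set G : ℝ → ℝ := fun u => Real.exp (pb2_h k U u) with hG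
  set G1 : ℝ → ℝ := fun u => pb2_h1 k u * Real.exp (pb2_h k U u) with hG1
  set G2 : ℝ → ℝ := fun u => (pb2_h2 k u + pb2_h1 k u ^ 2) * Real.exp (pb2_h k U u) with hG2
  set G3 : ℝ → ℝ := fun u => (pb2_h3 k u + 3 * pb2_h1 k u * pb2_h2 k u + pb2_h1 k u ^ 3) *
      Real.exp (pb2_h k U u) with hG3
  have dG : ∀ u, 0 < u → HasDerivAt G (G1 u) u := pb2_dG k U
  have dG1 : ∀ u, 0 < u → HasDerivAt G1 (G2 u) u := pb2_dG1 k U
  have dG2 : ∀ u, 0 < u → HasDerivAt G2 (G3 u) u := pb2_dG2 k U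
  have cG3 : ∀ u, 0 < u → ContinuousAt G3 u := pb2_cG3 k U
  -- the shifted bump
  have e0 : ∀ u, HasDerivAt (fun u => w (u - U)) (w1 (u - U)) u := fun u => by
    simpa using (d0 (u - U)).comp_sub_const u U
  have e1 : ∀ u, HasDerivAt (fun u => w1 (u - U)) (w2 (u - U)) u := fun u => by
    simpa using (d1 (u - U)).comp_sub_const u U
  have e2 : ∀ u, HasDerivAt (fun u => w2 (u - U)) (w3 (u - U)) u := fun u => by
    simpa using (d2 (u - U)).comp_sub_const u U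
  have e3 : ∀ u, ContinuousAt (fun u => w3 (u - U)) u := fun u =>
    (c3.comp (continuous_id.sub continuous_const)).continuousAt
  have hz : ∀ u, u ∉ Set.Icc (U - 2) (U + 4) → w (u - U) = 0 ∧ w1 (u - U) = 0 ∧
      w2 (u - U) = 0 ∧ w3 (u - U) = 0 := by
    intro u hu
    apply hout
    intro h
    apply hu
    rw [Set.mem_Icc] at h ⊢
    constructor <;> linarith [h.1, h.2]
  -- the functions
  set f : ℝ → ℝ := fun u => c * (w (u - U) * G u) with hf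
  set f1 : ℝ → ℝ := fun u => c * (w1 (u - U) * G u + w (u - U) * G1 u) with hf1
  set f2 : ℝ → ℝ := fun u => c * (w2 (u - U) * G u + 2 * (w1 (u - U) * G1 u) +
    w (u - U) * G2 u) with hf2
  set f3 : ℝ → ℝ := fun u => c * (w3 (u - U) * G u + 3 * (w2 (u - U) * G1 u) +
    3 * (w1 (u - U) * G2 u) + w (u - U) * G3 u) with hf3
  have hfz : ∀ y, y ∉ Set.Icc (U - 2) (U + 4) → f y = 0 ∧ f1 y = 0 ∧ f2 y = 0 ∧ f3 y = 0 := by
    intro y hy
    obtain ⟨h0, h1, h2, h3⟩ := hz y hy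
    simp only [hf, hf1, hf2, hf3, h0, h1, h2, h3]
    simp
  have hlow : ∀ y, y < U - 2 → y ∉ Set.Icc (U - 2) (U + 4) := by
    intro y hy h
    linarith [(Set.mem_Icc.mp h).1]
  have ha : 0 < U - 2 := by linarith
  refine ⟨f, f1, f2, f3, ?_, ?_, ?_, ?_, hfz, ?_, ?_⟩
  · refine pb2_glue (U - 2) ha f f1 (fun y hy => (hfz y (hlow y hy)).1)
      (fun y hy => (hfz y (hlow y hy)).2.1) (fun y hy => ?_)
    exact ((e0 y).mul (dG y hy)).const_mul c
  · refine pb2_glue (U - 2) ha f1 f2 (fun y hy => (hfz y (hlow y hy)).2.1)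
      (fun y hy => (hfz y (hlow y hy)).2.2.1) (fun y hy => ?_)
    refine ((((e1 y).mul (dG y hy)).add ((e0 y).mul (dG1 y hy))).const_mul c).congr_deriv ?_
    simp only [hf2]
    ring
  · refine pb2_glue (U - 2) ha f2 f3 (fun y hy => (hfz y (hlow y hy)).2.2.1)
      (fun y hy => (hfz y (hlow y hy)).2.2.2) (fun y hy => ?_)
    refine (((((e2 y).mul (dG y hy)).add (((e1 y).mul (dG1 y hy)).const_mul 2)).add
      ((e0 y).mul (dG2 y hy))).const_mul c).congr_deriv ?_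
    simp only [hf3]
    ring
  · rw [continuous_iff_continuousAt]
    intro y
    by_cases h : 0 < y
    · have g0 := (dG y h).continuousAt
      have g1 := (dG1 y h).continuousAt
      have g2 := (dG2 y h).continuousAt
      have g3 := cG3 y h
      exact continuousAt_const.mul (((((e3 y).mul g0).add
        (continuousAt_const.mul ((e2 y).continuousAt.mul g1))).add
        (continuousAt_const.mul ((e1 y).continuousAt.mul g2))).add ((e0 y).continuousAt.mul g3))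
    · have hy : y < U - 2 := by linarith [not_lt.mp h]
      have he : f3 =ᶠ[nhds y] fun _ => 0 := by
        filter_upwards [Iio_mem_nhds hy] with z hz'
        exact (hfz z (hlow z hz')).2.2.2
      exact (continuousAt_const (y := (0 : ℝ))).congr he.symm
  · intro y
    have hM0 : 0 ≤ M := by linarith
    have hs : 0 ≤ Real.sqrt U := Real.sqrt_nonneg U
    by_cases hy : y ∈ Set.Icc (U - 2) (U + 4)
    · obtain ⟨b0, b1, b2, b3⟩ := hb (y - U)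
      obtain ⟨p1, p2, p3⟩ := pb2_hb k U hU hkle y hy
      have p0 := pb2_hh k U hU hkle y hy
      have q0 : |G y| ≤ Real.exp 4 := by
        simp only [hG]
        rw [abs_of_pos (Real.exp_pos _)]
        exact Real.exp_le_exp.mpr p0
      have q1 : |G1 y| ≤ Real.exp 4 := by
        simp only [hG1]
        rw [abs_mul]
        calc _ ≤ 1 * Real.exp 4 := mul_le_mul p1 q0 (abs_nonneg _) (by norm_num)
          _ = _ := one_mul _
      have q2 : |G2 y| ≤ 2 * Real.exp 4 := by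
        simp only [hG2]
        rw [abs_mul]
        refine mul_le_mul ?_ q0 (abs_nonneg _) (by norm_num)
        refine (abs_add_le _ _).trans ?_
        rw [abs_pow]
        have := pow_le_one₀ (n := 2) (abs_nonneg _) p1
        linarith
      have q3 : |G3 y| ≤ 5 * Real.exp 4 := by
        simp only [hG3]
        rw [abs_mul]
        refine mul_le_mul ?_ q0 (abs_nonneg _) (by norm_num)
        refine (abs_add_three _ _ _).trans ?_
        rw [abs_pow, abs_mul, abs_mul]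
        have h1 := pow_le_one₀ (n := 3) (abs_nonneg _) p1
        have h2 : |(3 : ℝ)| * |pb2_h1 k y| * |pb2_h2 k y| ≤ 3 * 1 * 1 := by
          rw [abs_of_pos (by norm_num : (0 : ℝ) < 3)]
          gcongr
        linarith
      have r : ∀ a b A B : ℝ, |a| ≤ A → |b| ≤ B → |a * b| ≤ A * B := by
        intro a b A B hA hB
        rw [abs_mul]
        exact mul_le_mul hA hB (abs_nonneg _) ((abs_nonneg _).trans hA)
      constructor
      · simp only [hf]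
        rw [abs_mul, abs_of_pos hc0]
        calc c * |w (y - U) * G y| ≤ (300 * Real.sqrt U) * (M * Real.exp 4) :=
              mul_le_mul hWb (r _ _ _ _ b0 q0) (abs_nonneg _) (by positivity)
          _ ≤ (300 * Real.sqrt U) * (15 * (M * Real.exp 4)) := by
              apply mul_le_mul_of_nonneg_left _ (by positivity)
              have : 0 ≤ M * Real.exp 4 := by positivity
              linarith
          _ = _ := by ring
      · simp only [hf3]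
        rw [abs_mul, abs_of_pos hc0]
        have t0 := r _ _ _ _ b3 q0
        have t1 := r _ _ _ _ b2 q1
        have t2 := r _ _ _ _ b1 q2
        have t3 := r _ _ _ _ b0 q3
        have key : |w3 (y - U) * G y + 3 * (w2 (y - U) * G1 y) + 3 * (w1 (y - U) * G2 y) +
            w (y - U) * G3 y| ≤ 15 * (M * Real.exp 4) := by
          refine (abs_add_le _ _).trans ?_
          have s1 := abs_add_three (w3 (y - U) * G y) (3 * (w2 (y - U) * G1 y))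
            (3 * (w1 (y - U) * G2 y))
          rw [abs_mul 3, abs_mul 3, abs_of_pos (by norm_num : (0 : ℝ) < 3)] at s1
          linarith
        calc _ ≤ (300 * Real.sqrt U) * (15 * (M * Real.exp 4)) :=
              mul_le_mul hWb key (abs_nonneg _) (by positivity)
          _ = _ := by ring
    · obtain ⟨h0, -, -, h3⟩ := hfz y hy
      rw [h0, h3, abs_zero]
      constructor <;> positivity
  · intro u hu
    simp only [hf, hG, hc]
    have hW' : Wd k u * Real.exp (pb2_h k U u) = Wd k U := by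
      unfold Wd pb2_h
      have hUp : 0 < U := by linarith
      have h1 : Real.exp ((u - U) / 64 - k * (Real.log u - Real.log U)) =
          Real.exp (u / 64) * Real.exp (-(U / 64)) * (U ^ k / u ^ k) := by
        rw [show (u - U) / 64 - k * (Real.log u - Real.log U) =
          u / 64 + -(U / 64) + (k * Real.log U - k * Real.log u) by ring, Real.exp_add,
          Real.exp_add, Real.exp_sub, Real.exp_nat_mul, Real.exp_nat_mul, Real.exp_log hu,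
          Real.exp_log hUp]
      rw [h1, Real.exp_neg (u / 64)]
      have h2 : Real.exp (u / 64) ≠ 0 := (Real.exp_pos _).ne'
      have h3 : u ^ k ≠ 0 := (pow_pos hu k).ne'
      have h4 : (k.factorial : ℝ) ≠ 0 := by exact_mod_cast k.factorial_ne_zero
      field_simp
    calc w (u - U) = (Wd k U) * (1 / Wd k U * w (u - U)) := by
          field_simp
      _ = _ := by rw [← hW']; ring

end Pool.Agent.Lib.H18Q
end

-- from Lib.H18Q.PC1
section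

/-!
# Project H18Q, chunk PC1: the mean of the contribution of the zeros
-/

open Finset

namespace Pool.Agent.Lib.H18Q

open Pool.Agent.Lib.H68T

theorem pc1_bern {k : ℕ} (hk : 1 ≤ k) (y : ℝ) :
    (1 / Real.sqrt (1 + y ^ 2)) ^ (k + 1) ≤ (1 + (k + 1) / 2 * y ^ 2)⁻¹ := by
  have h0 : (0 : ℝ) < 1 + y ^ 2 := by positivity
  have hk' : (1 : ℝ) ≤ k := by exact_mod_cast hk
  have h1 : 1 + (((k : ℝ) + 1) / 2) * y ^ 2 ≤ (1 + y ^ 2) ^ (((k : ℝ) + 1) / 2) :=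
    one_add_mul_self_le_rpow_one_add (by nlinarith [sq_nonneg y]) (by linarith)
  have h2 : Real.sqrt (1 + y ^ 2) ^ (k + 1) = (1 + y ^ 2) ^ (((k : ℝ) + 1) / 2) := by
    rw [Real.sqrt_eq_rpow, ← Real.rpow_natCast, ← Real.rpow_mul h0.le]
    congr 1
    push_cast
    ring
  rw [one_div, inv_pow, h2]
  exact inv_anti₀ (by positivity) h1

theorem pc1_cauchy {c : ℝ} (hc : 0 < c) :
    MeasureTheory.Integrable (fun y : ℝ => (1 + c * y ^ 2)⁻¹) ∧
    ∫ y : ℝ, (1 + c * y ^ 2)⁻¹ = Real.pi / Real.sqrt c := by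
  have hs : 0 < Real.sqrt c := Real.sqrt_pos.2 hc
  have h1 : (fun y : ℝ => (1 + c * y ^ 2)⁻¹) = fun y : ℝ =>
      (fun x : ℝ => (1 + x ^ 2)⁻¹) (Real.sqrt c * y) := by
    funext y
    simp only [mul_pow, Real.sq_sqrt hc.le]
  constructor
  · rw [h1]
    exact integrable_inv_one_add_sq.comp_mul_left' hs.ne'
  · have h2 := MeasureTheory.Measure.integral_comp_mul_left (fun x : ℝ => (1 + x ^ 2)⁻¹) (Real.sqrt c)
    rw [h1, h2, integral_univ_inv_one_add_sq, abs_of_pos (inv_pos.2 hs), smul_eq_mul]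
    ring

/-- `∫ (1+y²)^(-(k+1)/2) dy ≤ C/√(k+1)` for `k ≥ 1`.

Proof. For `|y| ≤ 1`, `log (1+y²) ≥ y²/2`, so the integrand is `≤ e^(-(k+1) y²/4)`, with integral
`√(4π/(k+1))`. For `|y| > 1` it is at most `2^(-(k-1)/2) (1+y²)^(-1)`, integral
`≤ π 2^(-(k-1)/2) ≤ C/√(k+1)`. -/
theorem PC1_beta : ∃ C : ℝ, 0 < C ∧ ∀ k : ℕ, 1 ≤ k →
    MeasureTheory.Integrable (fun y : ℝ => (1 / Real.sqrt (1 + y ^ 2)) ^ (k + 1)) ∧
    ∫ y : ℝ, (1 / Real.sqrt (1 + y ^ 2)) ^ (k + 1) ≤ C / Real.sqrt (k + 1) := by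
  refine ⟨Real.pi * Real.sqrt 2, by positivity, ?_⟩
  intro k hk
  have hc : (0 : ℝ) < (k + 1) / 2 := by positivity
  obtain ⟨h1, h2⟩ := pc1_cauchy hc
  have h3 : MeasureTheory.Integrable (fun y : ℝ => (1 / Real.sqrt (1 + y ^ 2)) ^ (k + 1)) := by
    refine h1.mono' ?_ ?_
    · apply Continuous.aestronglyMeasurable
      refine Continuous.pow (Continuous.div continuous_const ?_ ?_) _
      · exact Real.continuous_sqrt.comp (by fun_prop)
      · intro y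
        have : 0 < Real.sqrt (1 + y ^ 2) := Real.sqrt_pos.2 (by positivity)
        exact this.ne'
    · refine Filter.Eventually.of_forall fun y => ?_
      rw [Real.norm_of_nonneg (by positivity)]
      exact pc1_bern hk y
  refine ⟨h3, ?_⟩
  refine (MeasureTheory.integral_mono h3 h1 fun y => pc1_bern hk y).trans ?_
  rw [h2]
  have h4 : Real.sqrt ((k + 1) / 2) = Real.sqrt (k + 1) / Real.sqrt 2 :=
    Real.sqrt_div (by positivity) 2
  rw [h4, div_div_eq_mul_div]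

/-- One zero: for `Re ρ ≤ 1`,
`∫_a^b |(1/64)/(1 + 1/64 + iv - ρ)|^(k+1) dv ≤ C/√(k+1) (1/(1 + 64 (1 - Re ρ)))^k`.

Proof. With `A = 1/64 + 1 - Re ρ ≥ 1/64`, `|1 + 1/64 + iv - ρ| = √(A² + (v - Im ρ)²)`; substitute
`v = Im ρ + A y`: `(1/64)^(k+1) A^(-k) ∫ (1+y²)^(-(k+1)/2) dy`, and `(1/64)/A = 1/(1 + 64(1 - Re ρ))`. -/
theorem PC1_one : ∃ C : ℝ, 0 < C ∧ ∀ (k : ℕ) (ρ : ℂ) (a b : ℝ), 1 ≤ k → ρ.re ≤ 1 → a ≤ b →
    ∫ v in a..b, ‖((1 / 64 : ℝ) : ℂ) / (1 + (1 / 64 : ℝ) + v * Complex.I - ρ)‖ ^ (k + 1) ≤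
      C / Real.sqrt (k + 1) * (1 / (1 + 64 * (1 - ρ.re))) ^ k := by
  obtain ⟨C, hC, H⟩ := PC1_beta
  refine ⟨C, hC, ?_⟩
  intro k ρ a b hk hρ hab
  obtain ⟨h1, h2⟩ := H k hk
  set A : ℝ := 1 / 64 + 1 - ρ.re with hA
  have hA0 : 1 / 64 ≤ A := by rw [hA]; linarith
  have hAp : 0 < A := by linarith
  have hform : ∀ v : ℝ, ‖((1 / 64 : ℝ) : ℂ) / (1 + (1 / 64 : ℝ) + v * Complex.I - ρ)‖ ^ (k + 1) =
      ((1 / 64) / A) ^ (k + 1) *
        (fun y : ℝ => (1 / Real.sqrt (1 + y ^ 2)) ^ (k + 1)) (A⁻¹ * (v - ρ.im)) := by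
    intro v
    have h3 : ‖(1 + (1 / 64 : ℝ) + v * Complex.I - ρ : ℂ)‖ =
        A * Real.sqrt (1 + (A⁻¹ * (v - ρ.im)) ^ 2) := by
      rw [Complex.norm_eq_sqrt_sq_add_sq, Complex.sub_re, Complex.sub_im, z2_re, z2_im]
      have h4 : (1 + 1 / 64 - ρ.re) ^ 2 + (v - ρ.im) ^ 2 =
          A ^ 2 * (1 + (A⁻¹ * (v - ρ.im)) ^ 2) := by
        have h5 : (1 + 1 / 64 - ρ.re) = A := by rw [hA]; ring
        rw [h5]
        field_simp
      rw [h4, Real.sqrt_mul (sq_nonneg A), Real.sqrt_sq hAp.le]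
    rw [norm_div, h3, Complex.norm_real, Real.norm_of_nonneg (by norm_num : (0 : ℝ) ≤ 1 / 64)]
    show _ = (1 / 64 / A) ^ (k + 1) * (1 / Real.sqrt (1 + (A⁻¹ * (v - ρ.im)) ^ 2)) ^ (k + 1)
    rw [← mul_pow]
    congr 1
    rw [div_mul_div_comm, mul_one]
  have hint : MeasureTheory.Integrable (fun v : ℝ =>
      (fun y : ℝ => (1 / Real.sqrt (1 + y ^ 2)) ^ (k + 1)) (A⁻¹ * (v - ρ.im))) := by
    have h3 := (h1.comp_mul_left' (inv_ne_zero hAp.ne')).comp_sub_right ρ.im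
    exact h3
  have hval : ∫ v : ℝ, (fun y : ℝ => (1 / Real.sqrt (1 + y ^ 2)) ^ (k + 1)) (A⁻¹ * (v - ρ.im)) =
      A * ∫ y : ℝ, (1 / Real.sqrt (1 + y ^ 2)) ^ (k + 1) := by
    have h3 := MeasureTheory.integral_sub_right_eq_self (μ := MeasureTheory.volume)
      (fun v : ℝ => (fun y : ℝ => (1 / Real.sqrt (1 + y ^ 2)) ^ (k + 1)) (A⁻¹ * v)) ρ.im
    have h4 := MeasureTheory.Measure.integral_comp_mul_left
      (fun y : ℝ => (1 / Real.sqrt (1 + y ^ 2)) ^ (k + 1)) A⁻¹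
    rw [h3, h4, inv_inv, abs_of_pos hAp, smul_eq_mul]
  have hle : ∫ v in a..b, ‖((1 / 64 : ℝ) : ℂ) / (1 + (1 / 64 : ℝ) + v * Complex.I - ρ)‖ ^ (k + 1) ≤
      ((1 / 64) / A) ^ (k + 1) * (A * ∫ y : ℝ, (1 / Real.sqrt (1 + y ^ 2)) ^ (k + 1)) := by
    simp_rw [hform]
    rw [intervalIntegral.integral_const_mul, ← hval, intervalIntegral.integral_of_le hab]
    apply mul_le_mul_of_nonneg_left _ (by positivity)
    apply MeasureTheory.setIntegral_le_integral hint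
    exact Filter.Eventually.of_forall fun v => by
      show (0 : ℝ) ≤ (1 / Real.sqrt (1 + (A⁻¹ * (v - ρ.im)) ^ 2)) ^ (k + 1)
      positivity
  refine hle.trans ?_
  have hq : 1 / (1 + 64 * (1 - ρ.re)) = (1 / 64) / A := by
    rw [div_div]
    congr 1
    rw [hA]
    ring
  rw [hq]
  have hI : 0 ≤ ∫ y : ℝ, (1 / Real.sqrt (1 + y ^ 2)) ^ (k + 1) :=
    MeasureTheory.integral_nonneg fun y => by positivity
  have h5 : ((1 / 64) / A) ^ (k + 1) * (A * ∫ y : ℝ, (1 / Real.sqrt (1 + y ^ 2)) ^ (k + 1)) =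
      (1 / 64) * ((∫ y : ℝ, (1 / Real.sqrt (1 + y ^ 2)) ^ (k + 1)) * ((1 / 64) / A) ^ k) := by
    rw [pow_succ]
    have h6 : (1 / 64) / A * A = 1 / 64 := div_mul_cancel₀ _ hAp.ne'
    calc _ = ((1 / 64) / A * A) * ((∫ y : ℝ, (1 / Real.sqrt (1 + y ^ 2)) ^ (k + 1)) *
        ((1 / 64) / A) ^ k) := by ring
      _ = _ := by rw [h6]
  rw [h5]
  have h7 : 0 ≤ (∫ y : ℝ, (1 / Real.sqrt (1 + y ^ 2)) ^ (k + 1)) * ((1 / 64) / A) ^ k := by
    positivity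
  have h8 : (∫ y : ℝ, (1 / Real.sqrt (1 + y ^ 2)) ^ (k + 1)) * ((1 / 64) / A) ^ k ≤
      C / Real.sqrt (k + 1) * ((1 / 64) / A) ^ k :=
    mul_le_mul_of_nonneg_right h2 (by positivity)
  linarith

/-- The sum over the zeros near `s₀ = 1 + 1/64 + iv`, pointwise, `|v| ≤ Q^8 - 1`: it is at most the
sum over all zeros in `ZR f (7/8) (Q^8)` plus `C log Q (1/9)^k`.

Proof. A zero in `ZD f s₀ (1/4)` has `|Im ρ - v| ≤ 1/4`, so `|Im ρ| ≤ Q^8`. If `Re ρ ≥ 7/8` it is in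
`ZR f (1 - 1/8) (Q^8)`. Otherwise `|s₀ - ρ| ≥ 1/64 + 1/8`, the ratio is `≤ 1/9`, and the number of
zeros in `ZD f s₀ (1/4)` is at most `C log Q` (`ldat_sum` with `lam = 1/64`:
`(lam/|s₀ - ρ|)² ≥ 1/256`). -/
theorem PC1_point (C0 : ℝ) (h0 : 1 ≤ C0) : ∃ C : ℝ, 0 < C ∧ ∀ (Q : ℕ) (f : ℂ → ℂ),
    64 ≤ Real.log Q → LDat C0 (Real.log Q) ((Q : ℝ) ^ 10) f → ∀ (v : ℝ) (k : ℕ),
    |v| ≤ (Q : ℝ) ^ 8 - 1 →
    ‖∑ ρ ∈ ZD f (1 + (1 / 64 : ℝ) + v * Complex.I) (1 / 4),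
      (od f ρ : ℂ) * (((1 / 64 : ℝ) : ℂ) / (1 + (1 / 64 : ℝ) + v * Complex.I - ρ)) ^ (k + 1)‖ ≤
    (∑ ρ ∈ ZR f (1 - 1 / 8) ((Q : ℝ) ^ 8), (od f ρ : ℝ) *
      ‖((1 / 64 : ℝ) : ℂ) / (1 + (1 / 64 : ℝ) + v * Complex.I - ρ)‖ ^ (k + 1)) +
      C * Real.log Q * (1 / 9) ^ k := by
  obtain ⟨C1, hC1, H⟩ := ldat_sum C0 h0
  refine ⟨4 * C1, by positivity, ?_⟩
  intro Q f hQ hf v k hv
  have hQ1 : (1 : ℝ) ≤ Q := by
    rcases Nat.eq_zero_or_pos Q with h | h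
    · rw [h] at hQ
      norm_num at hQ
    · exact_mod_cast h
  have hl1 : 1 / Real.log Q ≤ 1 / 64 := one_div_le_one_div_of_le (by norm_num) hQ
  have hv' : |v| ≤ (Q : ℝ) ^ 10 := by
    have : (Q : ℝ) ^ 8 ≤ (Q : ℝ) ^ 10 := pow_le_pow_right₀ hQ1 (by norm_num)
    linarith
  have h1 := H (Real.log Q) ((Q : ℝ) ^ 10) f (by linarith) hf (1 / 64) v hl1 (by norm_num) hv'
  have hs0 : f (1 + (1 / 64 : ℝ) + v * Complex.I) ≠ 0 := z2_ne hf (by norm_num)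
  set s₀ : ℂ := 1 + (1 / 64 : ℝ) + v * Complex.I with hs
  have hre : s₀.re = 1 + 1 / 64 := z2_re (1 / 64) v
  have him : s₀.im = v := z2_im (1 / 64) v
  have hmem : ∀ ρ ∈ ZD f s₀ (1 / 4), f ρ = 0 ∧ ‖ρ - s₀‖ ≤ 1 / 4 := fun ρ hρ =>
    (mem_ZD hf.diff ⟨_, hs0⟩).1 hρ
  have hpos : ∀ ρ ∈ ZD f s₀ (1 / 4), 0 < ‖s₀ - ρ‖ := by
    intro ρ hρ
    rw [norm_pos_iff, sub_ne_zero]
    intro h5
    rw [h5] at hs0
    exact hs0 (hmem ρ hρ).1
  have hcount : ∑ ρ ∈ ZD f s₀ (1 / 4), (od f ρ : ℝ) ≤ 4 * C1 * Real.log Q := by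
    have h2 : ∑ ρ ∈ ZD f s₀ (1 / 4), (od f ρ : ℝ) ≤
        ∑ ρ ∈ ZD f s₀ (1 / 4), 256 * ((od f ρ : ℝ) * ((1 / 64) / ‖s₀ - ρ‖) ^ 2) := by
      refine sum_le_sum fun ρ hρ => ?_
      have h3 : ‖s₀ - ρ‖ ≤ 1 / 4 := by
        rw [norm_sub_rev]
        exact (hmem ρ hρ).2
      have h4 := hpos ρ hρ
      have h5 : 1 / 16 ≤ (1 / 64) / ‖s₀ - ρ‖ := by
        rw [le_div_iff₀ h4]
        linarith
      have h6 : (1 / 16 : ℝ) ^ 2 ≤ ((1 / 64) / ‖s₀ - ρ‖) ^ 2 := by gcongr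
      have h7 : (0 : ℝ) ≤ od f ρ := Nat.cast_nonneg _
      nlinarith
    refine h2.trans ?_
    rw [← mul_sum]
    linarith
  have hsplit : ‖∑ ρ ∈ ZD f s₀ (1 / 4),
      (od f ρ : ℂ) * (((1 / 64 : ℝ) : ℂ) / (s₀ - ρ)) ^ (k + 1)‖ ≤
      ∑ ρ ∈ ZD f s₀ (1 / 4), (od f ρ : ℝ) * ‖((1 / 64 : ℝ) : ℂ) / (s₀ - ρ)‖ ^ (k + 1) := by
    refine (norm_sum_le _ _).trans (le_of_eq (sum_congr rfl fun ρ _ => ?_))
    rw [norm_mul, norm_pow, Complex.norm_natCast]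
  refine hsplit.trans ?_
  rw [← sum_filter_add_sum_filter_not (ZD f s₀ (1 / 4)) (fun ρ => 7 / 8 ≤ ρ.re)]
  apply add_le_add
  · apply sum_le_sum_of_subset_of_nonneg
    · intro ρ hρ
      rw [mem_filter] at hρ
      obtain ⟨hρ1, hρ2⟩ := hρ
      obtain ⟨h3, h4⟩ := hmem ρ hρ1
      rw [mem_ZR hf.diff ⟨_, hs0⟩]
      refine ⟨h3, by linarith, (hf.zre ρ h3).le, ?_⟩
      have h5 : |ρ.im - v| ≤ 1 / 4 := by
        have h6 := Complex.abs_im_le_norm (ρ - s₀)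
        rw [Complex.sub_im, him] at h6
        exact h6.trans h4
      have h7 : |ρ.im| ≤ |ρ.im - v| + |v| := by
        have := abs_add_le (ρ.im - v) v
        rwa [sub_add_cancel] at this
      linarith
    · intro ρ _ _
      positivity
  · have h3 : ∑ ρ ∈ (ZD f s₀ (1 / 4)).filter (fun ρ => ¬ 7 / 8 ≤ ρ.re),
        (od f ρ : ℝ) * ‖((1 / 64 : ℝ) : ℂ) / (s₀ - ρ)‖ ^ (k + 1) ≤
        ∑ ρ ∈ (ZD f s₀ (1 / 4)).filter (fun ρ => ¬ 7 / 8 ≤ ρ.re), (od f ρ : ℝ) * (1 / 9) ^ k := by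
      refine sum_le_sum fun ρ hρ => ?_
      rw [mem_filter] at hρ
      obtain ⟨hρ1, hρ2⟩ := hρ
      push Not at hρ2
      apply mul_le_mul_of_nonneg_left _ (Nat.cast_nonneg _)
      have h4 : 9 / 64 ≤ ‖s₀ - ρ‖ := by
        have h5 := Complex.re_le_norm (s₀ - ρ)
        rw [Complex.sub_re, hre] at h5
        linarith
      have h6 : ‖((1 / 64 : ℝ) : ℂ) / (s₀ - ρ)‖ ≤ 1 / 9 := by
        rw [norm_div, Complex.norm_real, Real.norm_of_nonneg (by norm_num : (0 : ℝ) ≤ 1 / 64),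
          div_le_iff₀ (by linarith)]
        linarith
      calc ‖((1 / 64 : ℝ) : ℂ) / (s₀ - ρ)‖ ^ (k + 1) ≤ (1 / 9) ^ (k + 1) := by gcongr
        _ ≤ (1 / 9) ^ k := pow_le_pow_of_le_one (by norm_num) (by norm_num) (Nat.le_succ k)
    refine h3.trans ?_
    rw [← sum_mul]
    apply mul_le_mul_of_nonneg_right _ (by positivity)
    exact (sum_le_sum_of_subset_of_nonneg (filter_subset _ _) fun ρ _ _ => Nat.cast_nonneg _).trans
      hcount

end Pool.Agent.Lib.H18Q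
end
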