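import Pool.Agent.Lib.H59M.M2.M023
import Pool.Agent.Lib.H59M.M2.M036
import Pool.Agent.Lib.H59M.M2.M038
import Pool.Agent.Lib.H59M.M2.M040
import Pool.Agent.Lib.H59M.M2.M041

/-! Merged copies (to shorten the build) of Lib.H68X.XZ3, Lib.H68X.XZ4, Lib.H18Q.Z5B, Lib.H18Q.E4. -/

-- from Lib.H68X.XZ3
section

/-!
# Chunk XZ3: the exceptional zero is simple and the only one
-/

open Finset Metric

namespace Pool.Agent.Lib.H68T

private theorem XZ3_diff (N : ℕ) [NeZero N] (χ : DirichletCharacter ℂ N) (hχ : χ ≠ 1) (β : ℝ) :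
    Differentiable ℂ (dslope χ.LFunction (β : ℂ)) := by
  rw [← differentiableOn_univ, Complex.differentiableOn_dslope Filter.univ_mem]
  exact (DirichletCharacter.differentiable_LFunction hχ).differentiableOn

private theorem XZ3_mul (N : ℕ) [NeZero N] (χ : DirichletCharacter ℂ N) (β : ℝ)
    (hL : χ.LFunction (β : ℂ) = 0) (s : ℂ) :
    (s - β) * dslope χ.LFunction (β : ℂ) s = χ.LFunction s := by
  have h := sub_smul_dslope χ.LFunction (β : ℂ) s
  rw [hL, sub_zero, smul_eq_mul] at h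
  exact h

/-- Growth of `F(s) = L(s,ψ)/(s-β)` (`dslope`, entire since `L(·,ψ)` is): for `1 ≥ |s - β| ≥ 1/4`
and outside use `F(s) = L(s)/(s-β)` and `LFunction_bound`; inside the disc `|s - β| ≤ 1/4` the
maximum modulus principle (`Complex.norm_le_of_forall_mem_frontier_norm_le` or similar). -/
theorem dslope_bound (N : ℕ) [NeZero N] (χ : DirichletCharacter ℂ N) (hχ : χ ≠ 1) (β : ℝ)
    (hβ : 3 / 4 ≤ β) (hβ1 : β < 1) (hL : χ.LFunction (β : ℂ) = 0) (s : ℂ) (hs : 1 / 2 ≤ s.re) :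
    ‖dslope χ.LFunction (β : ℂ) s‖ ≤ 16 * N * (1 + ‖s‖) := by
  have hF := XZ3_diff N χ hχ β
  have hN : (1 : ℝ) ≤ N := by exact_mod_cast NeZero.one_le
  have hout : ∀ z : ℂ, 1 / 2 ≤ z.re → 1 / 4 ≤ ‖z - β‖ →
      ‖dslope χ.LFunction (β : ℂ) z‖ ≤ 8 * N * ‖z‖ := by
    intro z hz hzb
    have h1 := LFunction_bound N χ hχ z hz
    rw [← XZ3_mul N χ β hL z, norm_mul] at h1
    have h2 : 1 / 4 * ‖dslope χ.LFunction (β : ℂ) z‖ ≤
        ‖z - β‖ * ‖dslope χ.LFunction (β : ℂ) z‖ :=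
      mul_le_mul_of_nonneg_right hzb (norm_nonneg _)
    linarith
  rcases le_or_gt (1 / 4) ‖s - β‖ with h | h
  · refine (hout s hs h).trans ?_
    have : 0 ≤ (N : ℝ) * ‖s‖ := by positivity
    nlinarith
  · have h1 : ‖dslope χ.LFunction (β : ℂ) s‖ ≤ 10 * N := by
      refine Complex.norm_le_of_forall_mem_frontier_norm_le (U := ball (β : ℂ) (1 / 4))
        isBounded_ball hF.diffContOnCl ?_ (subset_closure (by rwa [mem_ball_iff_norm]))
      intro z hz
      rw [frontier_ball _ (by norm_num), mem_sphere_iff_norm] at hz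
      have h3 := Complex.abs_re_le_norm (z - β)
      rw [hz, Complex.sub_re, Complex.ofReal_re] at h3
      have h4 := (abs_le.1 h3).1
      have h5 : ‖z‖ ≤ 5 / 4 := by
        have h6 : ‖z‖ ≤ ‖z - β‖ + ‖(β : ℂ)‖ := by
          calc ‖z‖ = ‖(z - β) + β‖ := by rw [sub_add_cancel]
            _ ≤ _ := norm_add_le _ _
        rw [hz, Complex.norm_real, Real.norm_of_nonneg (by linarith)] at h6
        linarith
      have h6 := hout z (by linarith) hz.ge
      have h7 : (N : ℝ) * ‖z‖ ≤ N * (5 / 4) := mul_le_mul_of_nonneg_left h5 (by linarith)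
      linarith
    refine h1.trans ?_
    have : 0 ≤ (N : ℝ) * ‖s‖ := by positivity
    nlinarith


end Pool.Agent.Lib.H68T
end

-- from Lib.H68X.XZ4
section

/-!
# Chunk XZ4: the logarithmic derivative of the exceptional L-function
-/

open Finset Metric

namespace Pool.Agent.Lib.H68T

theorem XZ4_dslope_diff {f : ℂ → ℂ} (hf : Differentiable ℂ f) (a : ℂ) :
    Differentiable ℂ (dslope f a) := by
  have h1 := (Complex.differentiableOn_dslope (s := Set.univ) (c := a) Filter.univ_mem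
    (f := f)).2 hf.differentiableOn
  exact differentiableOn_univ.1 h1

/-- The logarithmic derivative of `f(s)/(s-a)` if `f(a) = 0`. -/
theorem XZ4_dslope_logderiv {f : ℂ → ℂ} (hf : Differentiable ℂ f) (a s : ℂ) (ha : f a = 0)
    (hs : s ≠ a) (hfs : f s ≠ 0) :
    deriv (dslope f a) s / dslope f a s = deriv f s / f s - 1 / (s - a) := by
  have hsa : s - a ≠ 0 := sub_ne_zero.2 hs
  have hF : ∀ z : ℂ, dslope f a z * (z - a) = f z := by
    intro z
    rcases eq_or_ne z a with h | h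
    · rw [h, ha, sub_self, mul_zero]
    · rw [dslope_of_ne _ h, slope_def_field, ha, sub_zero]
      have : z - a ≠ 0 := sub_ne_zero.2 h
      field_simp
  have hd := XZ4_dslope_diff hf a
  have h1 : deriv f s = deriv (dslope f a) s * (s - a) + dslope f a s := by
    have h2 : f = fun z => dslope f a z * (z - a) := funext fun z => (hF z).symm
    have h3 : HasDerivAt (fun z => dslope f a z * (z - a))
        (deriv (dslope f a) s * (s - a) + dslope f a s * 1) s :=
      (hd s).hasDerivAt.mul ((hasDerivAt_id s).sub_const a)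
    rw [mul_one] at h3
    rw [← h2] at h3
    exact h3.deriv
  have hFs : dslope f a s ≠ 0 := by
    intro h
    have := hF s
    rw [h, zero_mul] at this
    exact hfs this.symm
  rw [h1, ← hF s]
  field_simp
  ring


end Pool.Agent.Lib.H68T
end

-- from Lib.H18Q.Z5B
section

/-!
# Project H18Q, chunk Z5B: growth data with the exceptional zero removed
-/

open Finset

namespace Pool.Agent.Lib.H18Q

open Pool.Agent.Lib.H68T

/-- Growth data of `L(s, ψ)/(s - β)`.

Proof. `g = dslope ψ.LFunction β` is entire (`XZ4_dslope_diff`), `g s = L(s)/(s - β)` for `s ≠ β`.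
`zre`: `g ρ = 0` implies `L(ρ) = 0` (`ρ ≠ β`: numerator; `ρ = β`: `Re β < 1` anyway). Growth:
`dslope_bound` (`|g s| ≤ 16 N (1 + |s|)` for `Re s ≥ 1/2`, file `H68X/XZ3`), and at `s₀ = 1 + lam +
i v`, `|g s₀| = |L(s₀)|/|s₀ - β| ≥ (lam/2)/(Q^10 + 3)` (`lab2_lower`, `|s₀ - β| ≤ |v| + 2`).
Logarithmic derivative: `XZ4_dslope_logderiv`: `L'/L - 1/(s₀ - β)`, and `|s₀ - β| ≥ 1 + lam - β ≥
lam`. -/
theorem LDat_dslope : ∃ C0 K : ℝ, 1 ≤ C0 ∧ ∀ Q : ℕ, K ≤ Q → ∀ (r : ℕ) [NeZero r]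
    (ψ : DirichletCharacter ℂ r), r ≤ Q → ψ ≠ 1 → ∀ β : ℝ, 3 / 4 ≤ β → β < 1 →
    ψ.LFunction (β : ℂ) = 0 →
    LDat C0 (Real.log Q) ((Q : ℝ) ^ 10) (dslope ψ.LFunction (β : ℂ)) := by
  obtain ⟨C₀, hC₀, hvM⟩ := vonMangoldt_le
  refine ⟨40 + C₀, 32, by linarith, ?_⟩
  intro Q hQ r _ ψ hrQ hψ β hβ hβ1 hβ0
  have hQpos : (0 : ℝ) < Q := by linarith
  set L : ℝ := Real.log Q with hL
  have hQexp : (Q : ℝ) = Real.exp L := (Real.exp_log hQpos).symm
  have hLpos : 0 < L := Real.log_pos (by linarith)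
  have hLQ : L ≤ Q := (Real.log_le_sub_one_of_pos hQpos).trans (by linarith)
  have hf := DirichletCharacter.differentiable_LFunction hψ
  set F : ℂ → ℂ := dslope ψ.LFunction (β : ℂ) with hF
  have hFd : Differentiable ℂ F := XZ4_dslope_diff hf _
  have hLne : ∀ s : ℂ, 1 ≤ s.re → ψ.LFunction s ≠ 0 := fun s hs =>
    DirichletCharacter.LFunction_ne_zero_of_one_le_re ψ (Or.inl hψ) hs
  have hsβ : ∀ s : ℂ, 1 ≤ s.re → s ≠ (β : ℂ) := by
    intro s hs h
    rw [h, Complex.ofReal_re] at hs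
    linarith
  have hFL : ∀ s : ℂ, s ≠ (β : ℂ) → F s * (s - (β : ℂ)) = ψ.LFunction s := by
    intro s hs
    rw [hF, dslope_of_ne _ hs, slope_def_field, hβ0, sub_zero]
    have : s - (β : ℂ) ≠ 0 := sub_ne_zero.2 hs
    field_simp
  refine ⟨hFd, ?_, ?_, ?_⟩
  · intro ρ hρ
    by_contra hcon
    push Not at hcon
    have h1 := hFL ρ (hsβ ρ hcon)
    rw [hρ, zero_mul] at h1
    exact hLne ρ hcon h1.symm
  · intro lam v hlam hlam8 hv s hs
    have hlam0 : 0 < lam := (by positivity : (0 : ℝ) < 1 / L).trans_le hlam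
    set s₀ : ℂ := 1 + lam + v * Complex.I with hs₀
    have hre : s₀.re = 1 + lam := by simp [hs₀]
    have him : s₀.im = v := by simp [hs₀]
    have hQ10 : (1 : ℝ) ≤ (Q : ℝ) ^ 10 := one_le_pow₀ (by linarith)
    have hn0 : ‖s₀‖ ≤ 2 + (Q : ℝ) ^ 10 := by
      have h1 := Complex.norm_le_abs_re_add_abs_im s₀
      rw [hre, him, abs_of_pos (by linarith)] at h1
      linarith
    have hdist : ‖s - s₀‖ ≤ 1 / 2 := by
      rwa [Metric.mem_closedBall, dist_eq_norm] at hs
    have hsre : 1 / 2 ≤ s.re := by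
      have h1 := Complex.abs_re_le_norm (s - s₀)
      rw [Complex.sub_re, hre] at h1
      have h2 := (abs_le.1 (h1.trans hdist)).1
      linarith
    have hns : ‖s‖ ≤ 3 + (Q : ℝ) ^ 10 := by
      have h1 : ‖s‖ ≤ ‖s - s₀‖ + ‖s₀‖ := by
        have := norm_add_le (s - s₀) s₀
        rwa [sub_add_cancel] at this
      linarith
    have hb := dslope_bound r ψ hψ β hβ hβ1 hβ0 s hsre
    have hrQ' : (r : ℝ) ≤ Q := by exact_mod_cast hrQ
    have hup : ‖F s‖ ≤ 16 * Q * (4 + (Q : ℝ) ^ 10) := by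
      refine hb.trans ?_
      have h1 : 0 ≤ 1 + ‖s‖ := by positivity
      have h2 : 16 * (r : ℝ) * (1 + ‖s‖) ≤ 16 * Q * (1 + ‖s‖) :=
        mul_le_mul_of_nonneg_right (by linarith) h1
      refine h2.trans ?_
      apply mul_le_mul_of_nonneg_left _ (by positivity)
      linarith
    -- the lower bound at the centre
    have hs₀gt : 1 < s₀.re := by rw [hre]; linarith
    have hlow := lab2_lower r ψ s₀ hs₀gt
    rw [← DirichletCharacter.LFunction_eq_LSeries ψ hs₀gt, hre] at hlow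
    have hlow2 : lam / 2 ≤ ‖ψ.LFunction s₀‖ := by
      refine le_trans ?_ hlow
      rw [show 1 + lam - 1 = lam by ring, div_le_div_iff₀ (by norm_num) (by linarith)]
      nlinarith
    have hnb : ‖s₀ - (β : ℂ)‖ ≤ 4 + (Q : ℝ) ^ 10 := by
      have h1 := norm_sub_le s₀ (β : ℂ)
      have h2 : ‖(β : ℂ)‖ ≤ 1 := by
        rw [Complex.norm_real, Real.norm_eq_abs, abs_of_pos (by linarith)]
        exact hβ1.le
      linarith
    have hmul := hFL s₀ (hsβ s₀ hs₀gt.le)
    have hlow3 : lam / 2 ≤ ‖F s₀‖ * (4 + (Q : ℝ) ^ 10) := by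
      refine hlow2.trans ?_
      rw [← hmul, norm_mul]
      exact mul_le_mul_of_nonneg_left hnb (norm_nonneg _)
    have hlow4 : 1 ≤ 2 * Q * (4 + (Q : ℝ) ^ 10) * ‖F s₀‖ := by
      have h1 : 1 / (Q : ℝ) ≤ lam :=
        (one_div_le_one_div_of_le hLpos hLQ).trans hlam
      have h2 : 1 ≤ lam * Q := by
        rw [div_le_iff₀ hQpos] at h1
        exact h1
      have h3 : lam * Q ≤ 2 * (‖F s₀‖ * (4 + (Q : ℝ) ^ 10)) * Q :=
        mul_le_mul_of_nonneg_right (by linarith) hQpos.le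
      calc (1 : ℝ) ≤ 2 * (‖F s₀‖ * (4 + (Q : ℝ) ^ 10)) * Q := h2.trans h3
        _ = 2 * Q * (4 + (Q : ℝ) ^ 10) * ‖F s₀‖ := by ring
    have hexp : 16 * Q * (4 + (Q : ℝ) ^ 10) * (2 * Q * (4 + (Q : ℝ) ^ 10)) ≤
        Real.exp ((40 + C₀) * L) := by
      have h1 : (Q : ℝ) ^ 40 ≤ Real.exp ((40 + C₀) * L) := by
        rw [hQexp, ← Real.exp_nat_mul]
        apply Real.exp_le_exp.mpr
        push_cast
        nlinarith
      refine le_trans ?_ h1
      have h2 : 4 + (Q : ℝ) ^ 10 ≤ 5 * (Q : ℝ) ^ 10 := by linarith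
      have h3 : 16 * Q * (4 + (Q : ℝ) ^ 10) * (2 * Q * (4 + (Q : ℝ) ^ 10)) ≤
          16 * Q * (5 * (Q : ℝ) ^ 10) * (2 * Q * (5 * (Q : ℝ) ^ 10)) := by
        apply mul_le_mul
        · exact mul_le_mul_of_nonneg_left h2 (by positivity)
        · exact mul_le_mul_of_nonneg_left h2 (by positivity)
        · positivity
        · positivity
      refine h3.trans ?_
      have h4 : 16 * Q * (5 * (Q : ℝ) ^ 10) * (2 * Q * (5 * (Q : ℝ) ^ 10)) =
          800 * (Q : ℝ) ^ 22 := by ring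
      rw [h4]
      have h5 : (800 : ℝ) ≤ (Q : ℝ) ^ 2 := by nlinarith
      calc 800 * (Q : ℝ) ^ 22 ≤ (Q : ℝ) ^ 2 * (Q : ℝ) ^ 22 :=
            mul_le_mul_of_nonneg_right h5 (by positivity)
        _ = (Q : ℝ) ^ 24 := by ring
        _ ≤ (Q : ℝ) ^ 40 := pow_le_pow_right₀ (by linarith) (by norm_num)
    calc ‖F s‖ ≤ 16 * Q * (4 + (Q : ℝ) ^ 10) := hup
      _ ≤ 16 * Q * (4 + (Q : ℝ) ^ 10) * (2 * Q * (4 + (Q : ℝ) ^ 10) * ‖F s₀‖) :=
          le_mul_of_one_le_right (by positivity) hlow4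
      _ = 16 * Q * (4 + (Q : ℝ) ^ 10) * (2 * Q * (4 + (Q : ℝ) ^ 10)) * ‖F s₀‖ := by ring
      _ ≤ Real.exp ((40 + C₀) * L) * ‖F s₀‖ :=
          mul_le_mul_of_nonneg_right hexp (norm_nonneg _)
  · intro lam v hlam hlam8 _
    have hlam0 : 0 < lam := (by positivity : (0 : ℝ) < 1 / L).trans_le hlam
    set s₀ : ℂ := 1 + lam + v * Complex.I with hs₀
    have hre : s₀.re = 1 + lam := by simp [hs₀]
    have hs₀gt : 1 < s₀.re := by rw [hre]; linarith
    rw [logDeriv_apply, XZ4_dslope_logderiv hf (β : ℂ) s₀ hβ0 (hsβ s₀ hs₀gt.le)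
      (hLne s₀ hs₀gt.le)]
    have h1 : ‖deriv ψ.LFunction s₀ / ψ.LFunction s₀‖ ≤ 1 / lam + C₀ := by
      have h2 := lab1_char r ψ s₀ hs₀gt
      rw [logDeriv_apply] at h2
      have h3 : ‖deriv ψ.LFunction s₀ / ψ.LFunction s₀‖ =
          ‖LSeries (fun n => (ArithmeticFunction.vonMangoldt n : ℂ) * ψ (n : ZMod r)) s₀‖ := by
        rw [h2, norm_neg]
      rw [h3]
      refine (norm_LSeries_vM_le r ψ s₀ hs₀gt).trans ?_
      have h4 := hvM s₀.re hs₀gt (by rw [hre]; linarith)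
      refine h4.trans ?_
      rw [hre, show 1 + lam - 1 = lam by ring]
    have h5 : ‖1 / (s₀ - (β : ℂ))‖ ≤ 1 / lam := by
      rw [norm_div, norm_one]
      apply one_div_le_one_div_of_le hlam0
      have h6 := Complex.re_le_norm (s₀ - (β : ℂ))
      rw [Complex.sub_re, Complex.ofReal_re, hre] at h6
      linarith
    refine (norm_sub_le _ _).trans ((add_le_add h1 h5).trans ?_)
    rw [le_div_iff₀ hlam0]
    have h7 : (1 / lam + C₀ + 1 / lam) * lam = 2 + C₀ * lam := by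
      field_simp
      ring
    rw [h7]
    nlinarith

end Pool.Agent.Lib.H18Q
end

-- from Lib.H18Q.E4
section

/-!
# Project H18Q, chunk E4: the product used for the repulsion
-/

open Finset

namespace Pool.Agent.Lib.H18Q

open ArithmeticFunction Pool.Agent.Lib.H68T

theorem e4_sigma_eq {d r r' : ℕ} [NeZero d] (hr : r ∣ d) (hr' : r' ∣ d)
    (ψ : DirichletCharacter ℂ r) (ψ' : DirichletCharacter ℂ r') (h : r = r')
    (he : DirichletCharacter.changeLevel hr ψ = DirichletCharacter.changeLevel hr' ψ') :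
    (⟨r, ψ⟩ : Σ r : ℕ, DirichletCharacter ℂ r) = ⟨r', ψ'⟩ := by
  subst h
  rw [DirichletCharacter.changeLevel_injective hr he]

theorem e4_shift_diff {f : ℂ → ℂ} (hf : Differentiable ℂ f) (a s : ℂ) :
    DifferentiableAt ℂ (fun z => f (z + a)) s :=
  (hf _).comp s (differentiableAt_id.add_const _)

theorem e4_logDeriv_shift (f : ℂ → ℂ) (a s : ℂ) :
    logDeriv (fun z => f (z + a)) s = logDeriv f (s + a) := by
  rw [logDeriv_apply, logDeriv_apply, deriv_comp_add_const]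

theorem e4_term (f : ℕ → ℂ) (η : ℝ) (s : ℂ) (n : ℕ) :
    LSeries.term f (s + η) n =
      LSeries.term (fun n => f n * ((((n : ℝ) ^ (-η) : ℝ)) : ℂ)) s n := by
  rcases Nat.eq_zero_or_pos n with rfl | hn
  · simp [LSeries.term_zero]
  · have hn0 : n ≠ 0 := hn.ne'
    have hnc : (n : ℂ) ≠ 0 := by exact_mod_cast hn0
    rw [LSeries.term_of_ne_zero hn0, LSeries.term_of_ne_zero hn0, Complex.cpow_add _ _ hnc,
      Complex.ofReal_cpow (Nat.cast_nonneg n)]
    push_cast
    rw [Complex.cpow_neg]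
    have h1 : (n : ℂ) ^ s ≠ 0 := by simp [Complex.cpow_eq_zero_iff, hnc]
    have h2 : (n : ℂ) ^ (η : ℂ) ≠ 0 := by simp [Complex.cpow_eq_zero_iff, hnc]
    field_simp

theorem e4_LS (f : ℕ → ℂ) (η : ℝ) (s : ℂ) :
    LSeries f (s + η) = LSeries (fun n => f n * ((((n : ℝ) ^ (-η) : ℝ)) : ℂ)) s :=
  tsum_congr (e4_term f η s)

theorem e4_sum {f : ℕ → ℂ} {η : ℝ} {s : ℂ} (h : LSeriesSummable f (s + η)) :
    LSeriesSummable (fun n => f n * ((((n : ℝ) ^ (-η) : ℝ)) : ℂ)) s :=
  Summable.congr h (fun n => e4_term f η s n)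

theorem e4_sumΛ {N : ℕ} (χ : DirichletCharacter ℂ N) {s : ℂ} (hs : 1 < s.re) :
    LSeriesSummable (fun n => (Λ n : ℂ) * χ (n : ZMod N)) s := by
  have h := DirichletCharacter.LSeriesSummable_twist_vonMangoldt χ hs
  refine (LSeriesSummable_congr s ?_).1 h
  intro n _
  simp [mul_comm]

/-- The product of the lifts of two characters. -/
theorem e4_lift {q r : ℕ} [NeZero q] [NeZero r] (χ : DirichletCharacter ℂ q)
    (ψ : DirichletCharacter ℂ r) (n : ℕ) :
    (DirichletCharacter.changeLevel (Dvd.intro _ rfl : q ∣ q * r) χ *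
      DirichletCharacter.changeLevel (Dvd.intro_left _ rfl : r ∣ q * r) ψ)
        (n : ZMod (q * r)) = χ (n : ZMod q) * ψ (n : ZMod r) := by
  by_cases h : IsCoprime (n : ℤ) ((q * r : ℕ) : ℤ)
  · have h1 := DirichletCharacter.changeLevel_eq_cast_of_dvd' χ (Dvd.intro _ rfl : q ∣ q * r) h
    have h2 := DirichletCharacter.changeLevel_eq_cast_of_dvd' ψ
      (Dvd.intro_left _ rfl : r ∣ q * r) h
    rw [MulChar.mul_apply]
    push_cast at h1 h2 ⊢
    rw [h1, h2]
  · have h3 : ¬ n.Coprime (q * r) := by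
      intro h4
      exact h (Nat.isCoprime_iff_coprime.2 h4)
    have h5 : (DirichletCharacter.changeLevel (Dvd.intro _ rfl : q ∣ q * r) χ *
      DirichletCharacter.changeLevel (Dvd.intro_left _ rfl : r ∣ q * r) ψ)
        (n : ZMod (q * r)) = 0 := by
      apply MulChar.map_nonunit
      rw [ZMod.isUnit_iff_coprime]
      exact h3
    rw [h5]
    by_cases h6 : n.Coprime q
    · have h7 : ¬ n.Coprime r := fun h8 => h3 (Nat.Coprime.mul_right h6 h8)
      rw [MulChar.map_nonunit ψ (by rw [ZMod.isUnit_iff_coprime]; exact h7), mul_zero]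
    · rw [MulChar.map_nonunit χ (by rw [ZMod.isUnit_iff_coprime]; exact h6), zero_mul]

theorem e4_lift_ne {q r : ℕ} [NeZero q] [NeZero r] (χ : DirichletCharacter ℂ q)
    (ψ : DirichletCharacter ℂ r) (hχ : χ.IsPrimitive) (hψ : ψ.IsPrimitive) (h2 : ψ ^ 2 = 1)
    (hne : (⟨q, χ⟩ : Σ r : ℕ, DirichletCharacter ℂ r) ≠ ⟨r, ψ⟩) :
    DirichletCharacter.changeLevel (Dvd.intro _ rfl : q ∣ q * r) χ *
      DirichletCharacter.changeLevel (Dvd.intro_left _ rfl : r ∣ q * r) ψ ≠ 1 := by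
  intro h
  apply hne
  have h3 : DirichletCharacter.changeLevel (Dvd.intro_left _ rfl : r ∣ q * r) ψ *
      DirichletCharacter.changeLevel (Dvd.intro_left _ rfl : r ∣ q * r) ψ = 1 := by
    rw [← map_mul, ← pow_two, h2, map_one]
  have h4 : DirichletCharacter.changeLevel (Dvd.intro _ rfl : q ∣ q * r) χ =
      DirichletCharacter.changeLevel (Dvd.intro_left _ rfl : r ∣ q * r) ψ := by
    calc DirichletCharacter.changeLevel (Dvd.intro _ rfl : q ∣ q * r) χ
        = DirichletCharacter.changeLevel (Dvd.intro _ rfl : q ∣ q * r) χ *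
          (DirichletCharacter.changeLevel (Dvd.intro_left _ rfl : r ∣ q * r) ψ *
          DirichletCharacter.changeLevel (Dvd.intro_left _ rfl : r ∣ q * r) ψ) := by
          rw [h3, mul_one]
      _ = (DirichletCharacter.changeLevel (Dvd.intro _ rfl : q ∣ q * r) χ *
          DirichletCharacter.changeLevel (Dvd.intro_left _ rfl : r ∣ q * r) ψ) *
          DirichletCharacter.changeLevel (Dvd.intro_left _ rfl : r ∣ q * r) ψ := by
          rw [mul_assoc]
      _ = _ := by rw [h, one_mul]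
  have : NeZero (q * r) := ⟨Nat.mul_ne_zero (NeZero.ne q) (NeZero.ne r)⟩
  have h5 : q = r := by
    have h6 := DirichletCharacter.conductor_changeLevel χ (Dvd.intro _ rfl : q ∣ q * r)
    have h7 := DirichletCharacter.conductor_changeLevel ψ (Dvd.intro_left _ rfl : r ∣ q * r)
    have h8 : χ.conductor = q := hχ
    have h9 : ψ.conductor = r := hψ
    rw [← h8, ← h6, h4, h7, h9]
  exact e4_sigma_eq _ _ χ ψ h5 h4

theorem e4_ld_char {N : ℕ} [NeZero N] (χ : DirichletCharacter ℂ N) (η : ℝ) (hη : 0 ≤ η) (s : ℂ)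
    (hs : 1 < s.re) : logDeriv (fun z => χ.LFunction (z + (η : ℂ))) s =
      -LSeries (fun n => (Λ n : ℂ) * χ (n : ZMod N) * ((((n : ℝ) ^ (-η) : ℝ)) : ℂ)) s := by
  have h1 : 1 < (s + (η : ℂ)).re := by
    rw [Complex.add_re, Complex.ofReal_re]
    linarith
  rw [e4_logDeriv_shift, ← e4_LS (fun n => (Λ n : ℂ) * χ (n : ZMod N)) η s, lab1_char N χ _ h1,
    neg_neg]

theorem e4_sum_char {N : ℕ} (χ : DirichletCharacter ℂ N) (η : ℝ) (hη : 0 ≤ η) (s : ℂ)
    (hs : 1 < s.re) : LSeriesSummable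
      (fun n => (Λ n : ℂ) * χ (n : ZMod N) * ((((n : ℝ) ^ (-η) : ℝ)) : ℂ)) s := by
  have h1 : 1 < (s + (η : ℂ)).re := by
    rw [Complex.add_re, Complex.ofReal_re]
    linarith
  exact e4_sum (e4_sumΛ χ h1)

theorem e4_ld_triv {N : ℕ} [NeZero N] (s : ℂ) (hs : 1 < s.re) :
    logDeriv (DirichletCharacter.LFunctionTrivChar₁ N) s = 1 / (s - 1) -
      LSeries (fun n => (Λ n : ℂ) * (1 : DirichletCharacter ℂ N) (n : ZMod N)) s := by
  have hs1 : s ≠ 1 := by
    rintro rfl
    simp at hs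
  have hs2 : s - 1 ≠ 0 := sub_ne_zero.2 hs1
  have hL : DirichletCharacter.LFunctionTrivChar N s ≠ 0 :=
    DirichletCharacter.LFunction_ne_zero_of_one_le_re (1 : DirichletCharacter ℂ N) (Or.inr hs1)
      hs.le
  rw [logDeriv_apply, DirichletCharacter.deriv_LFunctionTrivChar₁_apply_of_ne_one N hs1,
    lab1_char N 1 s hs, logDeriv_apply]
  have h3 : DirichletCharacter.LFunctionTrivChar₁ N s =
      (s - 1) * DirichletCharacter.LFunctionTrivChar N s := by
    rw [DirichletCharacter.LFunctionTrivChar₁, Function.update_of_ne hs1]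
  rw [h3, sub_neg_eq_add]
  change ((s - 1) * deriv (DirichletCharacter.LFunctionTrivChar N) s +
    DirichletCharacter.LFunctionTrivChar N s) /
    ((s - 1) * DirichletCharacter.LFunctionTrivChar N s) = 1 / (s - 1) +
    deriv (DirichletCharacter.LFunctionTrivChar N) s / DirichletCharacter.LFunctionTrivChar N s
  field_simp
  ring

/-- The coefficients `χ(n) (1 + ψ(n) n^(β-1))`. -/
noncomputable def cE (r : ℕ) (ψ : DirichletCharacter ℂ r) (β : ℝ)
    (p : Σ r : ℕ, DirichletCharacter ℂ r) (n : ℕ) : ℂ :=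
  p.2 (n : ZMod p.1) * (1 + ψ (n : ZMod r) * (((n : ℝ) ^ (β - 1) : ℝ) : ℂ))

theorem cE_norm (r : ℕ) (ψ : DirichletCharacter ℂ r) (β : ℝ) (hβ : β < 1)
    (p : Σ r : ℕ, DirichletCharacter ℂ r) (n : ℕ) : ‖cE r ψ β p n‖ ≤ 2 := by
  unfold cE
  rw [norm_mul]
  have h1 : ‖p.2 (n : ZMod p.1)‖ ≤ 1 := DirichletCharacter.norm_le_one p.2 _
  have h2 : ‖(1 : ℂ) + ψ (n : ZMod r) * (((n : ℝ) ^ (β - 1) : ℝ) : ℂ)‖ ≤ 2 := by
    refine (norm_add_le _ _).trans ?_
    rw [norm_one, norm_mul]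
    have h3 : ‖ψ (n : ZMod r)‖ ≤ 1 := DirichletCharacter.norm_le_one ψ _
    have h4 : ‖(((n : ℝ) ^ (β - 1) : ℝ) : ℂ)‖ ≤ 1 := by
      rw [Complex.norm_real, Real.norm_of_nonneg (Real.rpow_nonneg (Nat.cast_nonneg n) _)]
      rcases Nat.eq_zero_or_pos n with rfl | hn
      · rw [Nat.cast_zero, Real.zero_rpow (by linarith)]
        norm_num
      · exact Real.rpow_le_one_of_one_le_of_nonpos (by exact_mod_cast hn) (by linarith)
    have h5 : ‖ψ (n : ZMod r)‖ * ‖(((n : ℝ) ^ (β - 1) : ℝ) : ℂ)‖ ≤ 1 * 1 :=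
      mul_le_mul h3 h4 (norm_nonneg _) (by norm_num)
    linarith
  calc ‖p.2 (n : ZMod p.1)‖ * ‖(1 : ℂ) + ψ (n : ZMod r) * (((n : ℝ) ^ (β - 1) : ℝ) : ℂ)‖
      ≤ 1 * 2 := mul_le_mul h1 h2 (norm_nonneg _) (by norm_num)
    _ = 2 := by norm_num

/-- For every `p ∈ PC Q` there is an entire function `F` with growth data, vanishing at the zeros
of `Lx r ψ β p`, and with `F'/F = - ∑ Λ(n) χ(n) (1 + ψ(n) n^(-η)) n^(-s)` (`+ 1/(s-1)` for `p0`),
`η = 1 - β`, for `Re s > 1`.

Proof. (1) `p = (q, χ) ≠ p0, (r, ψ)`: `F s = L(s, χ) L(s + η, χψ)`, `χψ` the product of the lifts to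
level `q r ≤ Q²`; it is not `1`: otherwise the lift of `χ` is the inverse of the lift of `ψ`, which
is the lift of `ψ` (`ψ² = 1`), and then `(q, χ) = (r, ψ)` (primitive characters; compare
`KER_sigma_eq` in `H68T/KER`). `LDat_shift` twice (`η = 0` and `η`; `χ ≠ 1` by `ne_one_of_ne_p0`),
`LDat.mul`; `lab1_char` for both factors; `Λ(n) (χψ)(n) n^(-(s+η)) = Λ(n) χ(n) ψ(n) n^(-η) n^(-s)`
(`changeLevel` values at `n` coprime to `q r`, both sides `0` otherwise; `LSeries_add`).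
(2) `p = (r, ψ)`: `F s = dslope L(ψ) β (s) · LFunctionTrivChar₁ r (s + η)`: `LDat_dslope`,
`LDat_shift_triv`. For `Re s > 1`, `logDeriv (dslope L β) = L'/L - 1/(s - β)`
(`XZ4_dslope_logderiv`), and `LFunctionTrivChar₁ r (s+η) = (s + η - 1) L(s + η, 1_r)`, whose
logarithmic derivative is `1/(s + η - 1) + L'/L(s + η, 1_r)`, and `s + η - 1 = s - β`: the two
fractions cancel. `ψ(n) · ψ(n) = 1_r(n)`. (3) `p = p0`: `F s = gl2_Z s · L(s + η, ψ)`
(`LDat_shift_triv` with `N = 1`, `η = 0`, and `LDat_shift`); `lab1_Z` gives `gl2_Z'/gl2_Z =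
1/(s-1) - LSeries Λ`. `C0` is the sum of the two constants. `β ≥ 7/8` gives `η ≤ 1/8`. -/
theorem E4_data : ∃ C0 K : ℝ, 1 ≤ C0 ∧ ∀ Q : ℕ, K ≤ Q → ∀ (r : ℕ) [NeZero r]
    (ψ : DirichletCharacter ℂ r), r ≤ Q → ψ.IsPrimitive → ψ ≠ 1 → ψ ^ 2 = 1 → ∀ β : ℝ,
    7 / 8 ≤ β → β < 1 → ψ.LFunction (β : ℂ) = 0 → ∀ p ∈ PC Q,
    ∃ F : ℂ → ℂ, LDat C0 (Real.log Q) ((Q : ℝ) ^ 10) F ∧ (∀ ρ, Lx r ψ β p ρ = 0 → F ρ = 0) ∧
      ∀ s : ℂ, 1 < s.re → logDeriv F s = -LSeries (fun n => (Λ n : ℂ) * cE r ψ β p n) s +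
        (open Classical in if p = p0 then 1 / (s - 1) else 0) := by
  obtain ⟨C1, K1, hC1, h1⟩ := LDat_shift
  obtain ⟨C2, K2, hC2, h2⟩ := LDat_shift_triv
  obtain ⟨C3, K3, hC3, h3⟩ := LDat_dslope
  refine ⟨C1 + C1 + C2 + C3, max (max K1 K2) (max K3 1), by linarith, ?_⟩
  intro Q hQ r _ ψ hrQ hprim hψ1 hψ2 β hβ hβ1 hzero p hp
  have hK1 : K1 ≤ (Q : ℝ) := le_trans (le_trans (le_max_left _ _) (le_max_left _ _)) hQ
  have hK2 : K2 ≤ (Q : ℝ) := le_trans (le_trans (le_max_right _ _) (le_max_left _ _)) hQ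
  have hK3 : K3 ≤ (Q : ℝ) := le_trans (le_trans (le_max_left _ _) (le_max_right _ _)) hQ
  have hQ1 : (1 : ℝ) ≤ (Q : ℝ) := le_trans (le_trans (le_max_right _ _) (le_max_right _ _)) hQ
  have hQ1' : 1 ≤ Q := by exact_mod_cast hQ1
  have hlog : 0 ≤ Real.log Q := Real.log_nonneg hQ1
  have hη : 0 ≤ 1 - β := by linarith
  have hη8 : 1 - β ≤ 1 / 8 := by linarith
  have hβη : β - 1 = -(1 - β) := by ring
  have hrQ2 : r ≤ Q ^ 2 := hrQ.trans (Nat.le_self_pow (by norm_num) Q)
  have hψp0 : (⟨r, ψ⟩ : Σ r : ℕ, DirichletCharacter ℂ r) ≠ p0 := by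
    intro h
    have hr1 : r = 1 := congrArg Sigma.fst h
    subst hr1
    apply hψ1
    have h' : (⟨1, ψ⟩ : Σ r : ℕ, DirichletCharacter ℂ r) = ⟨1, 1⟩ := h
    exact eq_of_heq (Sigma.mk.inj h').2
  by_cases hpψ : p = ⟨r, ψ⟩
  · -- the exceptional character
    subst hpψ
    refine ⟨fun s => dslope ψ.LFunction (β : ℂ) s *
      DirichletCharacter.LFunctionTrivChar₁ r (s + ((1 - β : ℝ) : ℂ)), ?_, ?_, ?_⟩
    · have hA := h3 Q hK3 r ψ hrQ hψ1 β (by linarith) hβ1 hzero
      have hB := h2 Q hK2 r hrQ2 (1 - β) hη hη8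
      exact (hA.mul hB).mono (by linarith) le_rfl hlog
    · intro ρ hρ
      rw [Lx_mk, Lp_mk r ψ hψp0] at hρ
      simp only [hρ, zero_mul]
    · intro s hs
      rw [if_neg hψp0, add_zero]
      have hsβ : s ≠ (β : ℂ) := by
        rintro rfl
        rw [Complex.ofReal_re] at hs
        linarith
      have hLs : ψ.LFunction s ≠ 0 :=
        DirichletCharacter.LFunction_ne_zero_of_one_le_re ψ (Or.inl hψ1) hs.le
      have hd := DirichletCharacter.differentiable_LFunction hψ1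
      have hs' : 1 < (s + ((1 - β : ℝ) : ℂ)).re := by
        rw [Complex.add_re, Complex.ofReal_re]
        linarith
      have hs'1 : s + ((1 - β : ℝ) : ℂ) ≠ 1 := by
        intro h
        rw [h] at hs'
        simp at hs'
      have hT : DirichletCharacter.LFunctionTrivChar₁ r (s + ((1 - β : ℝ) : ℂ)) ≠ 0 := by
        rw [DirichletCharacter.LFunctionTrivChar₁, Function.update_of_ne hs'1]
        exact mul_ne_zero (sub_ne_zero.2 hs'1)
          (DirichletCharacter.LFunction_ne_zero_of_one_le_re (1 : DirichletCharacter ℂ r)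
            (Or.inr hs'1) hs'.le)
      have hdne : dslope ψ.LFunction (β : ℂ) s ≠ 0 := fun h => hLs (dslope_zero hzero h)
      rw [logDeriv_mul s hdne hT (Pool.Agent.Lib.H68T.XZ4_dslope_diff hd _ s)
        (e4_shift_diff (DirichletCharacter.differentiable_LFunctionTrivChar₁ r) _ s)]
      rw [e4_logDeriv_shift, e4_ld_triv _ hs', logDeriv_apply,
        Pool.Agent.Lib.H68T.XZ4_dslope_logderiv hd _ s hzero hsβ hLs]
      have h10 := lab1_char r ψ s hs
      rw [logDeriv_apply] at h10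
      have h11 : deriv ψ.LFunction s / ψ.LFunction s =
          -LSeries (fun n => (Λ n : ℂ) * ψ (n : ZMod r)) s := by
        rw [h10, neg_neg]
      rw [h11, e4_LS]
      have h12 : s + ((1 - β : ℝ) : ℂ) - 1 = s - (β : ℂ) := by
        push_cast
        ring
      rw [h12]
      have h13 : (fun n => (Λ n : ℂ) * cE r ψ β ⟨r, ψ⟩ n) =
          (fun n => (Λ n : ℂ) * ψ (n : ZMod r)) + (fun n => (Λ n : ℂ) *
            (1 : DirichletCharacter ℂ r) (n : ZMod r) *
              ((((n : ℝ) ^ (-(1 - β)) : ℝ)) : ℂ)) := by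
        funext n
        have h14 : ψ (n : ZMod r) * ψ (n : ZMod r) =
            (1 : DirichletCharacter ℂ r) (n : ZMod r) := by
          rw [← MulChar.mul_apply, ← pow_two, hψ2]
        simp only [cE, Pi.add_apply, hβη]
        rw [← h14]
        ring
      rw [h13, LSeries_add (e4_sumΛ ψ hs) (e4_sum_char 1 (1 - β) hη s hs)]
      ring
  · by_cases hpp : p = p0
    · -- the trivial character
      subst hpp
      refine ⟨fun s => DirichletCharacter.LFunctionTrivChar₁ 1 (s + ((0 : ℝ) : ℂ)) *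
        ψ.LFunction (s + ((1 - β : ℝ) : ℂ)), ?_, ?_, ?_⟩
      · have hA := h2 Q hK2 1 (Nat.one_le_pow _ _ hQ1') 0 le_rfl (by norm_num)
        have hB := h1 Q hK1 r ψ hrQ2 hψ1 (1 - β) hη hη8
        exact (hA.mul hB).mono (by linarith) le_rfl hlog
      · intro ρ hρ
        rw [Lx_of_ne r ψ β p0 hpψ, Lp_p0] at hρ
        have h4 : DirichletCharacter.LFunctionTrivChar₁ 1 (ρ + ((0 : ℝ) : ℂ)) = 0 := by
          rw [Complex.ofReal_zero, add_zero]
          exact hρ
        simp only [h4, zero_mul]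
      · intro s hs
        rw [if_pos rfl]
        have hs' : 1 < (s + ((1 - β : ℝ) : ℂ)).re := by
          rw [Complex.add_re, Complex.ofReal_re]
          linarith
        have hs1 : s ≠ 1 := by
          rintro rfl
          simp at hs
        have hLs : ψ.LFunction (s + ((1 - β : ℝ) : ℂ)) ≠ 0 :=
          DirichletCharacter.LFunction_ne_zero_of_one_le_re ψ (Or.inl hψ1) hs'.le
        have hd := DirichletCharacter.differentiable_LFunction hψ1
        have hT : DirichletCharacter.LFunctionTrivChar₁ 1 (s + ((0 : ℝ) : ℂ)) ≠ 0 := by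
          rw [Complex.ofReal_zero, add_zero, DirichletCharacter.LFunctionTrivChar₁,
            Function.update_of_ne hs1]
          exact mul_ne_zero (sub_ne_zero.2 hs1)
            (DirichletCharacter.LFunction_ne_zero_of_one_le_re (1 : DirichletCharacter ℂ 1)
              (Or.inr hs1) hs.le)
        rw [logDeriv_mul s hT hLs
          (e4_shift_diff (DirichletCharacter.differentiable_LFunctionTrivChar₁ 1) _ s)
          (e4_shift_diff hd _ s)]
        rw [e4_logDeriv_shift, Complex.ofReal_zero, add_zero, e4_ld_triv s hs,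
          e4_ld_char ψ (1 - β) hη s hs]
        have h13 : (fun n => (Λ n : ℂ) * cE r ψ β p0 n) =
            (fun n => (Λ n : ℂ) * (1 : DirichletCharacter ℂ 1) (n : ZMod 1)) +
            (fun n => (Λ n : ℂ) * ψ (n : ZMod r) *
              ((((n : ℝ) ^ (-(1 - β)) : ℝ)) : ℂ)) := by
          funext n
          have h15 : (1 : DirichletCharacter ℂ 1) (n : ZMod 1) = 1 := by
            rw [MulChar.one_apply]
            exact isUnit_of_subsingleton _
          have h16 : p0.2 (n : ZMod p0.1) = 1 := h15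
          simp only [cE, Pi.add_apply, hβη, h16]
          rw [h15]
          ring
        rw [h13, LSeries_add (e4_sumΛ 1 hs) (e4_sum_char ψ (1 - β) hη s hs)]
        ring
    · -- the general case
      obtain ⟨q, χ⟩ := p
      have hq := (mem_PC.mp hp).1
      have hqQ := (mem_PC.mp hp).2.1
      have hχprim := (mem_PC.mp hp).2.2
      have hχ1 : χ ≠ 1 := ne_one_of_ne_p0 hp hpp
      simp only at hq hqQ hχprim
      have hNq : NeZero q := ⟨by omega⟩
      have hNqr : NeZero (q * r) := ⟨Nat.mul_ne_zero (NeZero.ne q) (NeZero.ne r)⟩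
      have hθ := e4_lift_ne χ ψ hχprim hprim hψ2 hpψ
      have hθv := e4_lift χ ψ
      set θ : DirichletCharacter ℂ (q * r) :=
        DirichletCharacter.changeLevel (Dvd.intro _ rfl : q ∣ q * r) χ *
        DirichletCharacter.changeLevel (Dvd.intro_left _ rfl : r ∣ q * r) ψ with hθdef
      have hqr : q * r ≤ Q ^ 2 := by
        rw [pow_two]
        exact Nat.mul_le_mul hqQ hrQ
      have hqQ2 : q ≤ Q ^ 2 := hqQ.trans (Nat.le_self_pow (by norm_num) Q)
      refine ⟨fun s => χ.LFunction (s + ((0 : ℝ) : ℂ)) *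
        θ.LFunction (s + ((1 - β : ℝ) : ℂ)), ?_, ?_, ?_⟩
      · have hA := h1 Q hK1 q χ hqQ2 hχ1 0 le_rfl (by norm_num)
        have hB := h1 Q hK1 (q * r) θ hqr hθ (1 - β) hη hη8
        exact (hA.mul hB).mono (by linarith) le_rfl hlog
      · intro ρ hρ
        rw [Lx_of_ne r ψ β _ hpψ, Lp_mk q χ hpp] at hρ
        have h4 : χ.LFunction (ρ + ((0 : ℝ) : ℂ)) = 0 := by
          rw [Complex.ofReal_zero, add_zero]
          exact hρ
        simp only [h4, zero_mul]
      · intro s hs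
        rw [if_neg hpp, add_zero]
        have hs' : 1 < (s + ((1 - β : ℝ) : ℂ)).re := by
          rw [Complex.add_re, Complex.ofReal_re]
          linarith
        have hLs : θ.LFunction (s + ((1 - β : ℝ) : ℂ)) ≠ 0 :=
          DirichletCharacter.LFunction_ne_zero_of_one_le_re θ (Or.inl hθ) hs'.le
        have hd := DirichletCharacter.differentiable_LFunction hθ
        have hdχ := DirichletCharacter.differentiable_LFunction hχ1
        have hT : χ.LFunction (s + ((0 : ℝ) : ℂ)) ≠ 0 := by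
          rw [Complex.ofReal_zero, add_zero]
          exact DirichletCharacter.LFunction_ne_zero_of_one_le_re χ (Or.inl hχ1) hs.le
        rw [logDeriv_mul s hT hLs (e4_shift_diff hdχ _ s) (e4_shift_diff hd _ s)]
        rw [e4_logDeriv_shift, Complex.ofReal_zero, add_zero, e4_ld_char θ (1 - β) hη s hs]
        have h10 : logDeriv χ.LFunction s =
            -LSeries (fun n => (Λ n : ℂ) * χ (n : ZMod q)) s := by
          rw [lab1_char q χ s hs, neg_neg]
        rw [h10]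
        have h13 : (fun n => (Λ n : ℂ) * cE r ψ β ⟨q, χ⟩ n) =
            (fun n => (Λ n : ℂ) * χ (n : ZMod q)) +
            (fun n => (Λ n : ℂ) * θ (n : ZMod (q * r)) *
              ((((n : ℝ) ^ (-(1 - β)) : ℝ)) : ℂ)) := by
          funext n
          simp only [cE, Pi.add_apply, hβη, hθv]
          ring
        rw [h13, LSeries_add (e4_sumΛ χ hs) (e4_sum_char θ (1 - β) hη s hs)]
        ring

end Pool.Agent.Lib.H18Q
end
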