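import Pool.Agent.Lib.H59M.M2.M003
import Pool.Agent.Lib.H59M.M2.M050
import Pool.Agent.Lib.H59M.M2.M051
import Pool.Agent.Lib.H59M.M2.M052

/-! Merged copies (to shorten the build) of Lib.H21T.S8, Lib.H21T.S9, Lib.H21T.Z3. -/

-- from Lib.H21T.S8
section

/-!
# Chunk S8 (M): large exponential sum implies major arc, explicit form
-/

namespace Pool.Agent.Lib.H21T

open Finset Pool.Agent.SZW

/-- The numerical conditions of `s8` -/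
structure Num (u δ η C h : ℝ) (A X S Λ K D s0 Q1 τ : ℕ) : Prop where
  hu : 1 ≤ u
  hδ : 0 < δ
  hδ1 : δ ≤ 1
  hη : 0 < η
  hη1 : η ≤ 1
  hh : 0 < h
  hK : 1 ≤ K
  hs0 : 9 ≤ s0
  hQ1 : 1 ≤ Q1
  n1 : δ * (A * (h / A + 1)) + 2 * (((A : ℝ) / Λ + 1) * (K * S * (h / A + 1))) + 4 * τ * D ≤ h / (16 * u)
  n2 : 582 * (X : ℝ) * s0 * S * (Λ * (h / A + 1)) ≤ h / (16 * u)
  n3 : η * ((S : ℝ) * (2 * X * S)) * (2 * (96 * S / s0 + 1)) * (Λ * (h / A + 1)) ≤ h / (16 * u)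
  n4 : C / δ ^ 8 ≤ Q1
  n5 : 2 ^ 13 * (Q1 : ℝ) ^ 4 / η ^ 4 ≤ S
  n6 : 2 ^ 18 * (Q1 : ℝ) ^ 4 * (C / (δ ^ 8 * (K : ℝ) ^ 2)) ≤ η ^ 4 * (2 * X * S)
  n7 : 128 * (Q1 : ℝ) * (C / (δ ^ 8 * (K : ℝ) ^ 2)) ≤ η
  n8 : 512 * (Q1 : ℝ) ^ 4 / η ^ 3 ≤ u ^ 131
  n9 : 2 ^ 22 * (Q1 : ℝ) ^ 6 * (C / (δ ^ 8 * (K : ℝ) ^ 2)) / (η ^ 6 * S * (2 * X * S)) * u ^ 9754 ≤ 1

/-- Suppose `‖SR‖ > h / (8 u)`. Directions from `exists_dir`; `Bs` = the set of the `i < nJ` for which some `β` has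
`‖∑_{k < K} ee (β k - s t α k ^ 2)‖ > δ K`. `s6`, `nJ ≤ A / Λ + 1` and `n1`: `|Bs| Λ (H / A + 1) ≥ h / (16 u)`. By `n2` then `|Bs| ≥ 582 X s0 S`; `s7` gives `Bd`, and `n3`
gives `|Bd| ≥ η S (2 X S)`. By `hW` (the property of `w1`) every `(s, t) ∈ Bd` has `q ≥ 1`, `q ≤ C / δ ^ 8 ≤ Q1` with
`nn (q * (-(s t α))) ≤ δ1 := C / (δ ^ 8 K ^ 2)`, and `nn (-x) = nn x` (`nn_neg`). `v2` with `T = 2 X S ≥ S` (`n5`, `n6`, `n7`) gives `r`, and `n8`, `n9` say `Maj u α`. -/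
theorem s8 {u δ η C : ℝ} {A x X S Λ A1 A2 H K D s0 Q1 τ : ℕ} (G : Geo A x X S Λ) (hC : 1 ≤ C)
    (hW : ∀ (K : ℕ) (β γ δ : ℝ), 1 ≤ K → 0 < δ → δ ≤ 1 → δ * K ≤ ‖∑ k ∈ range K, ee (β * k + γ * (k : ℝ) ^ 2)‖ →
      ∃ q : ℕ, 1 ≤ q ∧ (q : ℝ) ≤ C / δ ^ 8 ∧ nn (q * γ) * (K : ℝ) ^ 2 ≤ C / δ ^ 8)
    (h1 : A ≤ A1) (h2 : A1 ≤ A2) (h3 : A2 ≤ 2 * A) (hτ : ∀ m : ℕ, 1 ≤ m → m < x + H → m.divisors.card ≤ τ)
    (hD : (K : ℝ) * (4 * A / S + S * H / A) + 2 * (K : ℝ) ^ 2 * (S : ℝ) ^ 2 * X ≤ D)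
    (N : Num u δ η C H A X S Λ K D s0 Q1 τ) (α : ℝ) (hα : (H : ℝ) / (8 * u) < ‖SR α A1 A2 x H‖) : Maj u α := by
  have hH0 : (0 : ℝ) < H := N.hh
  have hu0 : (0 : ℝ) < u := lt_of_lt_of_le one_pos N.hu
  have hA0 : (0 : ℝ) < A := by exact_mod_cast G.hA
  have hΛ0 : (0 : ℝ) < Λ := by exact_mod_cast G.hΛ
  have hX0 : (0 : ℝ) < X := by exact_mod_cast G.hX1
  have hS0 : (0 : ℝ) < S := by exact_mod_cast G.hS
  have hK0 : (0 : ℝ) < K := by exact_mod_cast N.hK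
  have hs00 : (0 : ℝ) < s0 := by
    have := N.hs0
    exact_mod_cast (by omega : 0 < s0)
  have hHA : (0 : ℝ) < (H : ℝ) / A + 1 := by positivity
  obtain ⟨s, t, hD0⟩ := exists_dir A1 Λ x S G.hS
  have hDir := hD0 (nJ A1 A2 Λ)
  classical
  let Bs : Finset ℕ := (range (nJ A1 A2 Λ)).filter fun i =>
    ∃ β : ℝ, δ * K < ‖∑ k ∈ range K, ee (β * k + (-(((s i : ℝ) * t i) * α)) * (k : ℝ) ^ 2)‖
  have hBs : Bs ⊆ range (nJ A1 A2 Λ) := filter_subset _ _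
  have hgood : ∀ i ∈ range (nJ A1 A2 Λ), i ∉ Bs →
      ∀ β : ℝ, ‖∑ k ∈ range K, ee (β * k + (-(((s i : ℝ) * t i) * α)) * (k : ℝ) ^ 2)‖ ≤ δ * K := by
    intro i hi hiB β
    by_contra hcon
    exact hiB (mem_filter.2 ⟨hi, β, not_le.1 hcon⟩)
  have e6 := s6 G h1 h2 h3 hDir N.hK hτ hD α δ N.hδ.le Bs hgood
  have hnJ : (nJ A1 A2 Λ : ℝ) ≤ (A : ℝ) / Λ + 1 := by
    unfold nJ
    push_cast
    have h4 : (((A2 - A1) / Λ : ℕ) : ℝ) ≤ ((A2 - A1 : ℕ) : ℝ) / Λ := Nat.cast_div_le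
    have h5 : ((A2 - A1 : ℕ) : ℝ) ≤ A := by exact_mod_cast (by omega : A2 - A1 ≤ A)
    have h6 : ((A2 - A1 : ℕ) : ℝ) / Λ ≤ (A : ℝ) / Λ := div_le_div_of_nonneg_right h5 hΛ0.le
    linarith
  have hL0 : (0 : ℝ) < Λ * ((H : ℝ) / A + 1) := by positivity
  have e7 : (nJ A1 A2 Λ : ℝ) * (K * S * ((H : ℝ) / A + 1)) ≤ ((A : ℝ) / Λ + 1) * (K * S * ((H : ℝ) / A + 1)) :=
    mul_le_mul_of_nonneg_right hnJ (by positivity)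
  have e8 := N.n1
  have e9 : (H : ℝ) / (8 * u) = (H : ℝ) / (16 * u) + (H : ℝ) / (16 * u) := by
    field_simp
    ring
  have e10 : (H : ℝ) / (16 * u) ≤ Bs.card * (Λ * ((H : ℝ) / A + 1)) := by
    rw [e9] at hα
    linarith
  have hbig : 582 * (X : ℝ) * s0 * S ≤ Bs.card := by
    have h4 : 582 * (X : ℝ) * s0 * S * (Λ * ((H : ℝ) / A + 1)) ≤ Bs.card * (Λ * ((H : ℝ) / A + 1)) := N.n2.trans e10
    exact le_of_mul_le_mul_right h4 hL0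
  obtain ⟨Bd, b1, b2, b3⟩ := s7 G h1 h2 h3 hDir N.hs0 Bs hBs hbig
  have hM0 : (0 : ℝ) < 2 * (96 * S / s0 + 1) := by positivity
  have hc : η * ((S : ℝ) * (2 * X * S)) ≤ Bd.card := by
    have h4 : η * ((S : ℝ) * (2 * X * S)) * (2 * (96 * S / s0 + 1)) * (Λ * ((H : ℝ) / A + 1)) ≤
        (Bd.card : ℝ) * (2 * (96 * S / s0 + 1)) * (Λ * ((H : ℝ) / A + 1)) := by
      refine (N.n3.trans e10).trans (mul_le_mul_of_nonneg_right ?_ hL0.le)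
      linarith
    have h5 := le_of_mul_le_mul_right h4 hL0
    exact le_of_mul_le_mul_right h5 hM0
  have hT : ((2 * X * S : ℕ) : ℝ) = 2 * X * S := by push_cast; ring
  have hST : (S : ℝ) ≤ 2 * X * S := by
    have h4 : (1 : ℝ) ≤ X := by exact_mod_cast G.hX1
    nlinarith
  have hδ8 : (0 : ℝ) < δ ^ 8 := pow_pos N.hδ 8
  have hδ1 : 0 ≤ C / (δ ^ 8 * (K : ℝ) ^ 2) := by positivity
  have hq : ∀ p ∈ Bd, ∃ q : ℕ, 1 ≤ q ∧ q ≤ Q1 ∧ nn (q * (((p.1 : ℝ) * p.2) * α)) ≤ C / (δ ^ 8 * (K : ℝ) ^ 2) := by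
    intro p hp
    obtain ⟨i, hi, rfl⟩ := b2 p hp
    obtain ⟨_, β, hβ⟩ := mem_filter.1 hi
    obtain ⟨q, q1, q2, q3⟩ := hW K β (-(((s i : ℝ) * t i) * α)) δ N.hK N.hδ N.hδ1 hβ.le
    refine ⟨q, q1, ?_, ?_⟩
    · exact_mod_cast q2.trans N.n4
    · have h4 : nn (q * (((s i : ℝ) * t i) * α)) = nn (q * (-(((s i : ℝ) * t i) * α))) := by
        rw [mul_neg, nn_neg]
      show nn (q * (((s i : ℝ) * t i) * α)) ≤ _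
      rw [h4, le_div_iff₀ (by positivity)]
      rw [le_div_iff₀ hδ8] at q3
      nlinarith
  have hn5 := N.n5
  have hn6 := N.n6
  have hn9 := N.n9
  obtain ⟨r, r1, r2, r3⟩ := v2 Q1 S (2 * X * S) η (C / (δ ^ 8 * (K : ℝ) ^ 2)) α Bd N.hQ1 G.hS
    (Nat.mul_pos (Nat.mul_pos two_pos G.hX1) G.hS) N.hη N.hη1 hδ1 hn5 (by rw [hT]; exact hn5.trans hST) N.n7
    (by rw [hT]; exact hn6) b1 (by rw [hT]; exact hc) hq
  refine ⟨r, r1, r2.trans N.n8, ?_⟩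
  rw [hT] at r3
  refine (mul_le_mul_of_nonneg_right r3 (pow_nonneg hu0.le 9754)).trans ?_
  exact hn9

end Pool.Agent.Lib.H21T
end

-- from Lib.H21T.S9
section

/-!
# Chunk S9 (M): choice of the parameters
-/

namespace Pool.Agent.Lib.H21T

open Finset Pool.Agent.SZW

theorem s9_pw (u : ℝ) {a b c : ℕ} (h : a + b = c) : u ^ a * u ^ b = u ^ c := by
  rw [← pow_add, h]

theorem s9_inv {u : ℝ} (hu : 0 < u) {a b c : ℕ} (h : a + c = b) : u⁻¹ ^ a * u ^ b = u ^ c := by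
  subst h
  rw [pow_add, ← mul_assoc, ← mul_pow, inv_mul_cancel₀ hu.ne', one_pow, one_mul]

theorem s9_floor {y : ℝ} (hy : 1 ≤ y) : y ≤ 2 * (⌊y⌋₊ : ℝ) := by
  have h1 : y < (⌊y⌋₊ : ℝ) + 1 := Nat.lt_floor_add_one y
  have h2 : (1 : ℝ) ≤ (⌊y⌋₊ : ℝ) := by
    have : 1 ≤ ⌊y⌋₊ := by
      rw [Nat.one_le_floor_iff]
      exact hy
    exact_mod_cast this
  linarith

theorem s9_one {u : ℝ} (hu : 1 ≤ u) (n : ℕ) : 1 ≤ u ^ n := one_le_pow₀ hu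

/-- `hD` -/
theorem s9_hD {u A S H K X D : ℝ} (hu : 100 ≤ u) (hA0 : 0 < A) (hS0 : 0 < S) (hH0 : 0 ≤ H) (hK0 : 0 ≤ K) (hX0 : 0 ≤ X)
    (hA2 : A ≤ u ^ 10000) (hHA : H ≤ 3 * A) (hS1 : S ≤ u ^ 2500) (hS2 : u ^ 2500 ≤ 2 * S) (hX2 : X ≤ 5 * u ^ 2)
    (hK1 : K ≤ u ^ 2495) (hD : 9 * u ^ 9995 ≤ D) :
    K * (4 * A / S + S * H / A) + 2 * K ^ 2 * S ^ 2 * X ≤ D := by
  have hu0 : (0 : ℝ) ≤ u := by linarith
  have e1 : 4 * A / S ≤ 8 * u ^ 7500 := by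
    rw [div_le_iff₀ hS0]
    have e : u ^ 7500 * u ^ 2500 = u ^ 10000 := s9_pw u (by norm_num)
    have e' : u ^ 7500 * u ^ 2500 ≤ u ^ 7500 * (2 * S) := mul_le_mul_of_nonneg_left hS2 (pow_nonneg hu0 _)
    rw [e] at e'
    nlinarith [e', hA2]
  have e2 : S * H / A ≤ 3 * u ^ 2500 := by
    rw [div_le_iff₀ hA0]
    calc S * H ≤ u ^ 2500 * (3 * A) := mul_le_mul hS1 hHA hH0 (pow_nonneg hu0 _)
      _ = 3 * u ^ 2500 * A := by ring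
  have e3 : K * (4 * A / S + S * H / A) ≤ u ^ 2495 * (8 * u ^ 7500 + 3 * u ^ 2500) :=
    mul_le_mul hK1 (add_le_add e1 e2) (by positivity) (pow_nonneg hu0 _)
  have e4 : K ^ 2 ≤ u ^ 4990 := by
    calc K ^ 2 ≤ (u ^ 2495) ^ 2 := pow_le_pow_left₀ hK0 hK1 2
      _ = u ^ 4990 := by rw [← pow_mul]
  have e5 : S ^ 2 ≤ u ^ 5000 := by
    calc S ^ 2 ≤ (u ^ 2500) ^ 2 := pow_le_pow_left₀ hS0.le hS1 2
      _ = u ^ 5000 := by rw [← pow_mul]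
  have e6 : K ^ 2 * S ^ 2 * X ≤ u ^ 4990 * u ^ 5000 * (5 * u ^ 2) :=
    mul_le_mul (mul_le_mul e4 e5 (by positivity) (pow_nonneg hu0 _)) hX2 hX0 (by positivity)
  have p1 : u ^ 2495 * u ^ 7500 = u ^ 9995 := s9_pw u (by norm_num)
  have p2 : u ^ 2495 * u ^ 2500 = u ^ 4995 := s9_pw u (by norm_num)
  have p3 : u ^ 4990 * u ^ 5000 = u ^ 9990 := s9_pw u (by norm_num)
  have p4 : u ^ 9990 * u ^ 2 = u ^ 9992 := s9_pw u (by norm_num)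
  have p5 : u ^ 9992 * u ^ 3 = u ^ 9995 := s9_pw u (by norm_num)
  have p6 : u ^ 4995 ≤ u ^ 9992 := pow_le_pow_right₀ (by linarith) (by norm_num)
  have p7 : (13 : ℝ) ≤ u ^ 3 := by
    calc (13 : ℝ) ≤ 100 ^ 3 := by norm_num
      _ ≤ u ^ 3 := pow_le_pow_left₀ (by norm_num) hu 3
  have p8 : 13 * u ^ 9992 ≤ u ^ 9995 := by
    rw [← p5, mul_comm (u ^ 9992)]
    exact mul_le_mul_of_nonneg_right p7 (pow_nonneg hu0 _)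
  have e7 : u ^ 2495 * (8 * u ^ 7500 + 3 * u ^ 2500) = 8 * u ^ 9995 + 3 * u ^ 4995 := by
    rw [← p1, ← p2]; ring
  have e8 : u ^ 4990 * u ^ 5000 * (5 * u ^ 2) = 5 * u ^ 9992 := by
    rw [p3, ← p4]; ring
  rw [e7] at e3
  rw [e8] at e6
  have e9 : 2 * K ^ 2 * S ^ 2 * X = 2 * (K ^ 2 * S ^ 2 * X) := by ring
  rw [e9]
  linarith

/-- `n1` -/
theorem s9_n1 {u δ A R Λ K S τ D h : ℝ} (hu : 2880 ≤ u) (hR0 : 0 ≤ R) (hR : R ≤ 4) (hA2 : A ≤ u ^ 10000)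
    (hδ : δ = u⁻¹ ^ 3) (hΛ0 : 0 < Λ) (hΛ : A ≤ 16 * u ^ 5002 * Λ) (hK0 : 0 ≤ K) (hS0 : 0 ≤ S) (hK1 : K ≤ u ^ 2495)
    (hS1 : S ≤ u ^ 2500) (hτ : τ ≤ u) (hD0 : 0 ≤ D) (hD : D ≤ 10 * u ^ 9995) (hh : u ^ 9998 / 16 ≤ h) :
    δ * (A * R) + 2 * ((A / Λ + 1) * (K * S * R)) + 4 * τ * D ≤ h := by
  have hu0 : (0 : ℝ) < u := by linarith
  have e1 : δ * (A * R) ≤ 4 * u ^ 9997 := by
    have : δ * (A * R) ≤ u⁻¹ ^ 3 * (u ^ 10000 * 4) := by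
      rw [hδ]
      exact mul_le_mul_of_nonneg_left (mul_le_mul hA2 hR hR0 (by positivity)) (by positivity)
    have e : u⁻¹ ^ 3 * u ^ 10000 = u ^ 9997 := s9_inv hu0 (by norm_num)
    calc _ ≤ _ := this
      _ = (u⁻¹ ^ 3 * u ^ 10000) * 4 := by ring
      _ = 4 * u ^ 9997 := by rw [e]; ring
  have e2 : A / Λ + 1 ≤ 17 * u ^ 5002 := by
    have : A / Λ ≤ 16 * u ^ 5002 := by
      rw [div_le_iff₀ hΛ0]; exact hΛ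
    have h1 : 1 ≤ u ^ 5002 := s9_one (by linarith) _
    linarith
  have e3 : K * S * R ≤ u ^ 2495 * u ^ 2500 * 4 :=
    mul_le_mul (mul_le_mul hK1 hS1 hS0 (by positivity)) hR hR0 (by positivity)
  have e4 : (A / Λ + 1) * (K * S * R) ≤ 17 * u ^ 5002 * (u ^ 2495 * u ^ 2500 * 4) :=
    mul_le_mul e2 e3 (by positivity) (by positivity)
  have p1 : u ^ 2495 * u ^ 2500 = u ^ 4995 := s9_pw u (by norm_num)
  have p2 : u ^ 5002 * u ^ 4995 = u ^ 9997 := s9_pw u (by norm_num)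
  have e5 : 17 * u ^ 5002 * (u ^ 2495 * u ^ 2500 * 4) = 68 * u ^ 9997 := by
    rw [p1, ← p2]; ring
  have p3 : u ^ 1 * u ^ 9995 = u ^ 9996 := s9_pw u (by norm_num)
  have e6 : 4 * τ * D ≤ 40 * u ^ 9996 := by
    calc 4 * τ * D ≤ 4 * u * (10 * u ^ 9995) := mul_le_mul (by linarith) hD hD0 (by positivity)
      _ = 40 * (u ^ 1 * u ^ 9995) := by ring
      _ = 40 * u ^ 9996 := by rw [p3]
  have p4 : u ^ 9996 ≤ u ^ 9997 := pow_le_pow_right₀ (by linarith) (by norm_num)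
  have p5 : u ^ 1 * u ^ 9997 = u ^ 9998 := s9_pw u (by norm_num)
  have p6 : 2880 * u ^ 9997 ≤ u ^ 9998 := by
    rw [← p5, pow_one]
    exact mul_le_mul_of_nonneg_right hu (by positivity)
  rw [e5] at e4
  linarith

/-- `n2` -/
theorem s9_n2 {u R Λ X s0 S h : ℝ} (hu : 744960 ≤ u) (hR0 : 0 ≤ R) (hR : R ≤ 4) (hΛ0 : 0 < Λ) (hΛ : Λ ≤ 4 * u ^ 5000)
    (hX : X ≤ 5 * u ^ 2) (hs0 : 0 ≤ s0) (hs1 : s0 ≤ u ^ 2495) (hS0 : 0 ≤ S) (hS1 : S ≤ u ^ 2500)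
    (hh : u ^ 9998 / 16 ≤ h) :
    582 * X * s0 * S * (Λ * R) ≤ h := by
  have hu0 : (0 : ℝ) < u := by linarith
  have e1 : 582 * X * s0 * S * (Λ * R) ≤ 582 * (5 * u ^ 2) * u ^ 2495 * u ^ 2500 * (4 * u ^ 5000 * 4) :=
    mul_le_mul (mul_le_mul (mul_le_mul (by linarith) hs1 hs0 (by positivity)) hS1 hS0 (by positivity))
      (mul_le_mul hΛ hR hR0 (by positivity)) (by positivity) (by positivity)
  have p1 : u ^ 2 * u ^ 2495 = u ^ 2497 := s9_pw u (by norm_num)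
  have p2 : u ^ 2497 * u ^ 2500 = u ^ 4997 := s9_pw u (by norm_num)
  have p3 : u ^ 4997 * u ^ 5000 = u ^ 9997 := s9_pw u (by norm_num)
  have e2 : 582 * (5 * u ^ 2) * u ^ 2495 * u ^ 2500 * (4 * u ^ 5000 * 4) = 46560 * u ^ 9997 := by
    rw [← p3, ← p2, ← p1]; ring
  have p5 : u ^ 1 * u ^ 9997 = u ^ 9998 := s9_pw u (by norm_num)
  have p6 : 744960 * u ^ 9997 ≤ u ^ 9998 := by
    rw [← p5, pow_one]
    exact mul_le_mul_of_nonneg_right hu (by positivity)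
  rw [e2] at e1
  linarith

/-- `n3` -/
theorem s9_n3 {u η R Λ X s0 S h : ℝ} (hu : 988160 ≤ u) (hη : η = u⁻¹ ^ 10) (hR0 : 0 ≤ R) (hR : R ≤ 4) (hΛ0 : 0 < Λ)
    (hΛ : Λ ≤ 4 * u ^ 5000)
    (hX0 : 0 ≤ X) (hX : X ≤ 5 * u ^ 2) (hs0 : 0 < s0) (hs1 : u ^ 2495 ≤ 2 * s0) (hS0 : 0 ≤ S) (hS1 : S ≤ u ^ 2500)
    (hh : u ^ 9998 / 16 ≤ h) :
    η * (S * (2 * X * S)) * (2 * (96 * S / s0 + 1)) * (Λ * R) ≤ h := by
  have hu0 : (0 : ℝ) < u := by linarith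
  have hη0 : 0 < η := by rw [hη]; positivity
  have e1 : S * (2 * X * S) ≤ u ^ 2500 * (2 * (5 * u ^ 2) * u ^ 2500) :=
    mul_le_mul hS1 (mul_le_mul (by linarith) hS1 hS0 (by positivity)) (by positivity) (by positivity)
  have q1 : u ^ 5 * u ^ 2495 = u ^ 2500 := s9_pw u (by norm_num)
  have e2 : 96 * S / s0 ≤ 192 * u ^ 5 := by
    rw [div_le_iff₀ hs0]
    have : u ^ 5 * u ^ 2495 ≤ u ^ 5 * (2 * s0) := mul_le_mul_of_nonneg_left hs1 (by positivity)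
    rw [q1] at this
    linarith
  have e3 : 2 * (96 * S / s0 + 1) ≤ 386 * u ^ 5 := by
    have : 1 ≤ u ^ 5 := s9_one (by linarith) _
    linarith
  have e4 : η * (S * (2 * X * S)) ≤ η * (u ^ 2500 * (2 * (5 * u ^ 2) * u ^ 2500)) :=
    mul_le_mul_of_nonneg_left e1 hη0.le
  have e5 : η * (S * (2 * X * S)) * (2 * (96 * S / s0 + 1)) * (Λ * R) ≤
      η * (u ^ 2500 * (2 * (5 * u ^ 2) * u ^ 2500)) * (386 * u ^ 5) * (4 * u ^ 5000 * 4) :=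
    mul_le_mul (mul_le_mul e4 e3 (by positivity) (by positivity))
      (mul_le_mul hΛ hR hR0 (by positivity)) (by positivity) (by positivity)
  have p1 : u ^ 2 * u ^ 2500 = u ^ 2502 := s9_pw u (by norm_num)
  have p2 : u ^ 2502 * u ^ 2500 = u ^ 5002 := s9_pw u (by norm_num)
  have p3 : u ^ 5002 * u ^ 5 = u ^ 5007 := s9_pw u (by norm_num)
  have p4 : u ^ 5007 * u ^ 5000 = u ^ 10007 := s9_pw u (by norm_num)
  have p7 : u⁻¹ ^ 10 * u ^ 10007 = u ^ 9997 := s9_inv hu0 (by norm_num)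
  have e6 : η * (u ^ 2500 * (2 * (5 * u ^ 2) * u ^ 2500)) * (386 * u ^ 5) * (4 * u ^ 5000 * 4) = 61760 * u ^ 9997 := by
    rw [← p7, ← p4, ← p3, ← p2, ← p1, hη]; ring
  have p5 : u ^ 1 * u ^ 9997 = u ^ 9998 := s9_pw u (by norm_num)
  have p6 : 988160 * u ^ 9997 ≤ u ^ 9998 := by
    rw [← p5, pow_one]
    exact mul_le_mul_of_nonneg_right hu (by positivity)
  rw [e6] at e5
  linarith

/-- the bound for `C / (δ ^ 8 K ^ 2)` -/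
theorem s9_E {u C δ K : ℝ} (hu : 1 ≤ u) (hC : 1 ≤ C) (hδ : δ = u⁻¹ ^ 3) (hK0 : 0 < K) (hK : u ^ 2495 ≤ 2 * K) :
    C / (δ ^ 8 * K ^ 2) * u ^ 4966 ≤ 4 * C := by
  have hu0 : (0 : ℝ) < u := by linarith
  have hδ0 : 0 < δ := by rw [hδ]; positivity
  rw [div_mul_eq_mul_div, div_le_iff₀ (by positivity)]
  have e1 : u ^ 4990 ≤ 4 * K ^ 2 := by
    calc u ^ 4990 = (u ^ 2495) ^ 2 := by rw [← pow_mul]
      _ ≤ (2 * K) ^ 2 := pow_le_pow_left₀ (by positivity) hK 2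
      _ = 4 * K ^ 2 := by ring
  have e2 : u⁻¹ ^ 24 * u ^ 4990 = u ^ 4966 := s9_inv hu0 (by norm_num)
  have e3 : δ ^ 8 = u⁻¹ ^ 24 := by rw [hδ, ← pow_mul]
  rw [e3, ← e2]
  have : u⁻¹ ^ 24 * u ^ 4990 ≤ u⁻¹ ^ 24 * (4 * K ^ 2) := mul_le_mul_of_nonneg_left e1 (by positivity)
  calc C * (u⁻¹ ^ 24 * u ^ 4990) ≤ C * (u⁻¹ ^ 24 * (4 * K ^ 2)) := mul_le_mul_of_nonneg_left this (by linarith)
    _ = 4 * C * (u⁻¹ ^ 24 * K ^ 2) := by ring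

/-- `n5` -/
theorem s9_n5 {u η Q1 S : ℝ} (hu : 10 ^ 8 ≤ u) (hη : η = u⁻¹ ^ 10) (hQ0 : 0 ≤ Q1) (hQ : Q1 ≤ u ^ 25) (hS : u ^ 2500 ≤ 2 * S) :
    2 ^ 13 * Q1 ^ 4 / η ^ 4 ≤ S := by
  have hu0 : (0 : ℝ) < u := by linarith
  have hη0 : 0 < η := by rw [hη]; positivity
  have e1 : Q1 ^ 4 ≤ u ^ 100 := by
    calc Q1 ^ 4 ≤ (u ^ 25) ^ 4 := pow_le_pow_left₀ hQ0 hQ 4
      _ = u ^ 100 := by rw [← pow_mul]
  have e2 : η ^ 4 = u⁻¹ ^ 40 := by rw [hη, ← pow_mul]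
  have e3 : u⁻¹ ^ 40 * u ^ 140 = u ^ 100 := s9_inv hu0 (by norm_num)
  have e4 : u ^ 141 ≤ u ^ 2500 := pow_le_pow_right₀ (by linarith) (by norm_num)
  have e5 : u ^ 1 * u ^ 140 = u ^ 141 := s9_pw u (by norm_num)
  have e6 : 10 ^ 8 * u ^ 140 ≤ u ^ 141 := by
    rw [← e5, pow_one]
    exact mul_le_mul_of_nonneg_right hu (by positivity)
  have e7 : 2 ^ 13 * u ^ 140 ≤ S := by
    have : 0 ≤ u ^ 140 := by positivity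
    linarith
  rw [div_le_iff₀ (by positivity), e2]
  calc 2 ^ 13 * Q1 ^ 4 ≤ 2 ^ 13 * u ^ 100 := by linarith
    _ = 2 ^ 13 * u ^ 140 * u⁻¹ ^ 40 := by rw [← e3]; ring
    _ ≤ S * u⁻¹ ^ 40 := mul_le_mul_of_nonneg_right e7 (by positivity)

/-- `n6` -/
theorem s9_n6 {u C η Q1 S X E : ℝ} (hC : 1 ≤ C) (hu : 10 ^ 8 * C ≤ u) (hη : η = u⁻¹ ^ 10) (hQ0 : 0 ≤ Q1) (hQ : Q1 ≤ u ^ 25)
    (hS : u ^ 2500 ≤ 2 * S) (hX : 4 * u ^ 2 ≤ X) (hE0 : 0 ≤ E) (hE : E * u ^ 4966 ≤ 4 * C) :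
    2 ^ 18 * Q1 ^ 4 * E ≤ η ^ 4 * (2 * X * S) := by
  have hu0 : (0 : ℝ) < u := by linarith
  have hu1 : (1 : ℝ) ≤ u := by linarith
  have hη0 : 0 < η := by rw [hη]; positivity
  have e1 : Q1 ^ 4 ≤ u ^ 100 := by
    calc Q1 ^ 4 ≤ (u ^ 25) ^ 4 := pow_le_pow_left₀ hQ0 hQ 4
      _ = u ^ 100 := by rw [← pow_mul]
  have e2 : η ^ 4 = u⁻¹ ^ 40 := by rw [hη, ← pow_mul]
  have e3 : u⁻¹ ^ 40 * u ^ 140 = u ^ 100 := s9_inv hu0 (by norm_num)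
  have hX0 : 0 ≤ X := le_trans (by positivity) hX
  have e4 : 4 * u ^ 2 * u ^ 2500 ≤ X * (2 * S) := mul_le_mul hX hS (by positivity) hX0
  have e5 : u ^ 140 * u ^ 4826 = u ^ 4966 := s9_pw u (by norm_num)
  have hb : u ^ 1 ≤ u ^ 4826 := pow_le_pow_right₀ hu1 (by norm_num)
  rw [pow_one] at hb
  -- `E * u ^ 140 ≤ 1`
  have e6 : 2 ^ 18 * (E * u ^ 140) ≤ 1 := by
    have h1 : E * u ^ 140 * u ≤ 4 * C := by
      calc E * u ^ 140 * u ≤ E * u ^ 140 * u ^ 4826 := mul_le_mul_of_nonneg_left hb (by positivity)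
        _ = E * (u ^ 140 * u ^ 4826) := by ring
        _ = E * u ^ 4966 := by rw [e5]
        _ ≤ 4 * C := hE
    have h2 : E * u ^ 140 * (10 ^ 8 * C) ≤ 4 * C :=
      le_trans (mul_le_mul_of_nonneg_left hu (by positivity)) h1
    have h3 : (E * u ^ 140 * 10 ^ 8) * C ≤ 4 * C := by
      calc _ = E * u ^ 140 * (10 ^ 8 * C) := by ring
        _ ≤ _ := h2
    have h4 : E * u ^ 140 * 10 ^ 8 ≤ 4 := le_of_mul_le_mul_right h3 (by linarith)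
    linarith
  have e7 : (1 : ℝ) ≤ X * (2 * S) := by
    refine le_trans ?_ e4
    have h1 : 1 ≤ u ^ 2 := s9_one hu1 _
    have h2 : 1 ≤ u ^ 2500 := s9_one hu1 _
    have h3 : (1 : ℝ) * 1 ≤ 4 * u ^ 2 * u ^ 2500 := mul_le_mul (by linarith) h2 (by norm_num) (by positivity)
    linarith
  rw [e2]
  calc 2 ^ 18 * Q1 ^ 4 * E ≤ 2 ^ 18 * u ^ 100 * E := mul_le_mul_of_nonneg_right (by linarith) hE0
    _ = u⁻¹ ^ 40 * (2 ^ 18 * (E * u ^ 140)) := by rw [← e3]; ring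
    _ ≤ u⁻¹ ^ 40 * (X * (2 * S)) := mul_le_mul_of_nonneg_left (le_trans e6 e7) (by positivity)
    _ = u⁻¹ ^ 40 * (2 * X * S) := by ring

/-- `n7` -/
theorem s9_n7 {u C η Q1 E : ℝ} (hC : 1 ≤ C) (hu : 10 ^ 8 * C ≤ u) (hη : η = u⁻¹ ^ 10) (hQ : Q1 ≤ u ^ 25)
    (hE0 : 0 ≤ E) (hE : E * u ^ 4966 ≤ 4 * C) :
    128 * Q1 * E ≤ η := by
  have hu0 : (0 : ℝ) < u := by linarith
  have hu1 : (1 : ℝ) ≤ u := by linarith
  have e3 : u⁻¹ ^ 10 * u ^ 35 = u ^ 25 := s9_inv hu0 (by norm_num)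
  have e5 : u ^ 35 * u ^ 4931 = u ^ 4966 := s9_pw u (by norm_num)
  have hb : u ^ 1 ≤ u ^ 4931 := pow_le_pow_right₀ hu1 (by norm_num)
  rw [pow_one] at hb
  have e6 : 128 * (E * u ^ 35) ≤ 1 := by
    have h1 : E * u ^ 35 * u ≤ 4 * C := by
      calc E * u ^ 35 * u ≤ E * u ^ 35 * u ^ 4931 := mul_le_mul_of_nonneg_left hb (by positivity)
        _ = E * (u ^ 35 * u ^ 4931) := by ring
        _ = E * u ^ 4966 := by rw [e5]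
        _ ≤ 4 * C := hE
    have h2 : E * u ^ 35 * (10 ^ 8 * C) ≤ 4 * C :=
      le_trans (mul_le_mul_of_nonneg_left hu (by positivity)) h1
    have h3 : (E * u ^ 35 * 10 ^ 8) * C ≤ 4 * C := by
      calc _ = E * u ^ 35 * (10 ^ 8 * C) := by ring
        _ ≤ _ := h2
    have h4 : E * u ^ 35 * 10 ^ 8 ≤ 4 := le_of_mul_le_mul_right h3 (by linarith)
    linarith
  rw [hη]
  calc 128 * Q1 * E ≤ 128 * u ^ 25 * E := mul_le_mul_of_nonneg_right (by linarith) hE0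
    _ = u⁻¹ ^ 10 * (128 * (E * u ^ 35)) := by rw [← e3]; ring
    _ ≤ u⁻¹ ^ 10 * 1 := mul_le_mul_of_nonneg_left e6 (by positivity)
    _ = u⁻¹ ^ 10 := mul_one _

/-- `n8` -/
theorem s9_n8 {u η Q1 : ℝ} (hu : 512 ≤ u) (hη : η = u⁻¹ ^ 10) (hQ0 : 0 ≤ Q1) (hQ : Q1 ≤ u ^ 25) :
    512 * Q1 ^ 4 / η ^ 3 ≤ u ^ 131 := by
  have hu0 : (0 : ℝ) < u := by linarith
  have hη0 : 0 < η := by rw [hη]; positivity
  have e1 : Q1 ^ 4 ≤ u ^ 100 := by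
    calc Q1 ^ 4 ≤ (u ^ 25) ^ 4 := pow_le_pow_left₀ hQ0 hQ 4
      _ = u ^ 100 := by rw [← pow_mul]
  have e2 : η ^ 3 = u⁻¹ ^ 30 := by rw [hη, ← pow_mul]
  have e3 : u⁻¹ ^ 30 * u ^ 130 = u ^ 100 := s9_inv hu0 (by norm_num)
  have e5 : u ^ 1 * u ^ 130 = u ^ 131 := s9_pw u (by norm_num)
  have e6 : 512 * u ^ 130 ≤ u ^ 131 := by
    rw [← e5, pow_one]
    exact mul_le_mul_of_nonneg_right hu (by positivity)
  rw [div_le_iff₀ (by positivity), e2]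
  calc 512 * Q1 ^ 4 ≤ 512 * u ^ 100 := by linarith
    _ = 512 * u ^ 130 * u⁻¹ ^ 30 := by rw [← e3]; ring
    _ ≤ u ^ 131 * u⁻¹ ^ 30 := mul_le_mul_of_nonneg_right e6 (by positivity)

/-- `n9` -/
theorem s9_n9 {u C η Q1 S X E : ℝ} (hC : 1 ≤ C) (hu : 10 ^ 8 * C ≤ u) (hη : η = u⁻¹ ^ 10) (hQ0 : 0 ≤ Q1) (hQ : Q1 ≤ u ^ 25)
    (hS0 : 0 < S) (hS : u ^ 2500 ≤ 2 * S) (hX : 4 * u ^ 2 ≤ X) (hE0 : 0 ≤ E) (hE : E * u ^ 4966 ≤ 4 * C) :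
    2 ^ 22 * Q1 ^ 6 * E / (η ^ 6 * S * (2 * X * S)) * u ^ 9754 ≤ 1 := by
  have hu0 : (0 : ℝ) < u := by linarith
  have hu1 : (1 : ℝ) ≤ u := by linarith
  have hη0 : 0 < η := by rw [hη]; positivity
  have hX0 : 0 < X := lt_of_lt_of_le (by positivity) hX
  have e1 : Q1 ^ 6 ≤ u ^ 150 := by
    calc Q1 ^ 6 ≤ (u ^ 25) ^ 6 := pow_le_pow_left₀ hQ0 hQ 6
      _ = u ^ 150 := by rw [← pow_mul]
  have e2 : η ^ 6 = u⁻¹ ^ 60 := by rw [hη, ← pow_mul]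
  have e3 : u⁻¹ ^ 60 * u ^ 210 = u ^ 150 := s9_inv hu0 (by norm_num)
  -- `S * (2 X S) ≥ 2 u ^ 5002`
  have e4 : u ^ 2500 * (4 * u ^ 2 * u ^ 2500) ≤ 2 * S * (X * (2 * S)) :=
    mul_le_mul hS (mul_le_mul hX hS (by positivity) hX0.le) (by positivity) (by positivity)
  have p1 : u ^ 2500 * u ^ 2500 = u ^ 5000 := s9_pw u (by norm_num)
  have p2 : u ^ 5000 * u ^ 2 = u ^ 5002 := s9_pw u (by norm_num)
  have e5 : 2 * u ^ 5002 ≤ S * (2 * X * S) := by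
    have h1 : u ^ 2500 * (4 * u ^ 2 * u ^ 2500) = 4 * u ^ 5002 := by rw [← p2, ← p1]; ring
    rw [h1] at e4
    have h2 : 2 * S * (X * (2 * S)) = 2 * (S * (2 * X * S)) := by ring
    rw [h2] at e4
    linarith
  have p3 : u ^ 210 * u ^ 9754 = u ^ 9964 := s9_pw u (by norm_num)
  have p4 : u ^ 4966 * u ^ 4998 = u ^ 9964 := s9_pw u (by norm_num)
  have p5 : u ^ 4 * u ^ 4998 = u ^ 5002 := s9_pw u (by norm_num)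
  have p6 : u ≤ u ^ 4 := by
    calc u = u ^ 1 := (pow_one u).symm
      _ ≤ u ^ 4 := pow_le_pow_right₀ hu1 (by norm_num)
  have e6 : 2 ^ 22 * (E * u ^ 9964) ≤ 2 * u ^ 5002 := by
    have h1 : E * u ^ 9964 ≤ 4 * C * u ^ 4998 := by
      rw [← p4, ← mul_assoc]
      exact mul_le_mul_of_nonneg_right hE (by positivity)
    have h2 : 10 ^ 8 * C * u ^ 4998 ≤ u ^ 5002 := by
      rw [← p5]
      exact mul_le_mul_of_nonneg_right (le_trans hu p6) (by positivity)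
    have h3 : 0 ≤ C * u ^ 4998 := by positivity
    linarith
  have h0 : 0 < η ^ 6 * S * (2 * X * S) := by positivity
  rw [div_mul_eq_mul_div, div_le_one h0, e2]
  calc 2 ^ 22 * Q1 ^ 6 * E * u ^ 9754 ≤ 2 ^ 22 * u ^ 150 * E * u ^ 9754 := by
        apply mul_le_mul_of_nonneg_right _ (by positivity)
        apply mul_le_mul_of_nonneg_right _ hE0
        linarith
    _ = u⁻¹ ^ 60 * (2 ^ 22 * (E * u ^ 9964)) := by rw [← e3, ← p3]; ring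
    _ ≤ u⁻¹ ^ 60 * (2 * u ^ 5002) := mul_le_mul_of_nonneg_left e6 (by positivity)
    _ ≤ u⁻¹ ^ 60 * (S * (2 * X * S)) := mul_le_mul_of_nonneg_left e5 (by positivity)
    _ = u⁻¹ ^ 60 * S * (2 * X * S) := by ring

/-- `X`, `S`, `Λ` from `g1`; `K = ⌊u ^ 2495⌋₊`, `D = ⌈9 u ^ 9995⌉₊`, `s0 = ⌊u ^ 2495⌋₊`, `Q1 = ⌊u ^ 25⌋₊`, `δ = u⁻¹ ^ 3`, `η = u⁻¹ ^ 10`, `τ = ⌊u⌋₊`; `u ≥ U0` large in terms of `C`
(for instance `U0 = 10 ^ 8 * C`). All floors are at least one half of the number. `u ^ 9999 ≤ A ≤ u ^ 10000`, `u ^ 9999 ≤ H ≤ 3 u ^ 9999`, so `H / A + 1 ≤ 4`, and `H / (16 u) ≥ u ^ 9998 / 16`.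
`hD`: `4 A K / S ≤ 4 u ^ 10000 u ^ 2495 / (u ^ 2500 / 2) = 8 u ^ 9995`, `K S H / A ≤ 3 u ^ 4995`, `2 K ^ 2 S ^ 2 X ≤ 10 u ^ 9992`.
`n1`: `δ A 4 ≤ 4 u ^ 9997`; `A / Λ + 1 ≤ 16 u ^ 5002 + 1 ≤ 17 u ^ 5002`, so the second term is `≤ 2 * 17 u ^ 5002 * u ^ 4995 * 4 = 136 u ^ 9997`; `4 τ D ≤ 40 u ^ 9996`.
`n2`: `582 * 5 u ^ 2 * u ^ 4995 * 16 u ^ 5000` is a constant times `u ^ 9997`. `n3`: `96 S / s0 + 1 ≤ 193 u ^ 5`, so the left side is `≤ u ^ (-10) * 10 u ^ 5002 * 386 u ^ 5 * 16 u ^ 5000`, a constant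
times `u ^ 9997`. `n4`: `C u ^ 24 ≤ u ^ 25 / 2`. `n5`: `2 ^ 13 u ^ 140 ≤ u ^ 2500 / 2`. `C / (δ ^ 8 K ^ 2) ≤ 4 C u ^ 24 / u ^ 4990`. `n6`, `n7` are clear. `n8`: `512 u ^ 130 ≤ u ^ 131`.
`n9`: `2 ^ 22 u ^ 150 * (4 C u ^ 24 / u ^ 4990) * u ^ 60 / (S * 2 X S) * u ^ 9754` with `S * 2 X S ≥ 2 u ^ 5002` is a constant times `C u ^ (-4)`. (All checked numerically. Never unfold the powers; prove each
inequality as a separate lemma s9_.. about real numbers; products with `← pow_add`, comparisons with `pow_le_pow_right₀`, negative powers by multiplying out.) -/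
theorem s9 (C : ℝ) (hC : 1 ≤ C) : ∃ U0 : ℝ, 1 ≤ U0 ∧ ∀ u : ℝ, U0 ≤ u → ∀ A x H : ℕ, u ^ 9999 ≤ A → (A : ℝ) ≤ u ^ 10000 →
    A ^ 2 ≤ 2 * x → (x : ℝ) ≤ 4 * u ^ 2 * (A : ℝ) ^ 2 → u ^ 9999 ≤ H → (H : ℝ) ≤ 3 * u ^ 9999 →
    ∃ (X S Λ K D s0 Q1 τ : ℕ) (δ η : ℝ), Geo A x X S Λ ∧ τ = ⌊u⌋₊ ∧
      (K : ℝ) * (4 * A / S + S * H / A) + 2 * (K : ℝ) ^ 2 * (S : ℝ) ^ 2 * X ≤ D ∧ Num u δ η C H A X S Λ K D s0 Q1 τ := by
  refine ⟨10 ^ 8 * C, by linarith, ?_⟩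
  intro u hu A x H hA1 hA2 hx1 hx2 hH1 hH2
  have hu8 : 10 ^ 8 ≤ u := by linarith
  have hu0 : (0 : ℝ) < u := by linarith
  have hu1 : (1 : ℝ) ≤ u := by linarith
  obtain ⟨X, S, Λ, G, hX1, hX2, hS1, hS2, hL1, hL2⟩ := g1 u (by linarith) A x hA1 hA2 hx1 hx2
  have hK1 : ((⌊u ^ 2495⌋₊ : ℕ) : ℝ) ≤ u ^ 2495 := Nat.floor_le (by positivity)
  have hK2 : u ^ 2495 ≤ 2 * ((⌊u ^ 2495⌋₊ : ℕ) : ℝ) := s9_floor (s9_one hu1 _)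
  have hQ1 : ((⌊u ^ 25⌋₊ : ℕ) : ℝ) ≤ u ^ 25 := Nat.floor_le (by positivity)
  have hQ2 : u ^ 25 ≤ 2 * ((⌊u ^ 25⌋₊ : ℕ) : ℝ) := s9_floor (s9_one hu1 _)
  have hτ : ((⌊u⌋₊ : ℕ) : ℝ) ≤ u := Nat.floor_le hu0.le
  have hD1 : 9 * u ^ 9995 ≤ ((⌈9 * u ^ 9995⌉₊ : ℕ) : ℝ) := Nat.le_ceil _
  have hD2 : ((⌈9 * u ^ 9995⌉₊ : ℕ) : ℝ) ≤ 10 * u ^ 9995 := by
    have h1 : ((⌈9 * u ^ 9995⌉₊ : ℕ) : ℝ) < 9 * u ^ 9995 + 1 := Nat.ceil_lt_add_one (by positivity)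
    have h2 : 1 ≤ u ^ 9995 := s9_one hu1 _
    linarith
  have hA0 : (0 : ℝ) < A := lt_of_lt_of_le (by positivity) hA1
  have hH0 : (0 : ℝ) < H := lt_of_lt_of_le (by positivity) hH1
  have hS0 : (0 : ℝ) < S := by
    have : 0 < u ^ 2500 := by positivity
    linarith
  have hX0 : (0 : ℝ) < X := lt_of_lt_of_le (by positivity) hX1
  have hΛ0 : (0 : ℝ) < Λ := by exact_mod_cast G.hΛ
  have hHA : (H : ℝ) ≤ 3 * A := by linarith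
  have hR0 : (0 : ℝ) ≤ H / A + 1 := by positivity
  have hR : (H : ℝ) / A + 1 ≤ 4 := by
    have : (H : ℝ) / A ≤ 3 := by
      rw [div_le_iff₀ hA0]; exact hHA
    linarith
  have hK0 : (0 : ℝ) < ((⌊u ^ 2495⌋₊ : ℕ) : ℝ) := by
    have : 0 < u ^ 2495 := by positivity
    linarith
  have hh : u ^ 9998 / 16 ≤ (H : ℝ) / (16 * u) := by
    rw [div_le_div_iff₀ (by norm_num) (by positivity)]
    have e : u ^ 1 * u ^ 9998 = u ^ 9999 := s9_pw u (by norm_num)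
    rw [pow_one] at e
    calc u ^ 9998 * (16 * u) = 16 * (u * u ^ 9998) := by ring
      _ = 16 * u ^ 9999 := by rw [e]
      _ ≤ H * 16 := by linarith
  have hE := s9_E (u := u) (C := C) (δ := u⁻¹ ^ 3) (K := ((⌊u ^ 2495⌋₊ : ℕ) : ℝ)) hu1 hC rfl hK0 hK2
  have hE0 : 0 ≤ C / ((u⁻¹ ^ 3) ^ 8 * ((⌊u ^ 2495⌋₊ : ℕ) : ℝ) ^ 2) := by positivity
  have hui : u⁻¹ ≤ 1 := inv_le_one_of_one_le₀ hu1
  refine ⟨X, S, Λ, ⌊u ^ 2495⌋₊, ⌈9 * u ^ 9995⌉₊, ⌊u ^ 2495⌋₊, ⌊u ^ 25⌋₊, ⌊u⌋₊, u⁻¹ ^ 3, u⁻¹ ^ 10, G, rfl, ?_, ?_⟩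
  · exact s9_hD (by linarith) hA0 hS0 hH0.le hK0.le hX0.le hA2 hHA hS1 hS2 hX2 hK1 hD1
  · refine ⟨hu1, by positivity, pow_le_one₀ (by positivity) hui, by positivity, pow_le_one₀ (by positivity) hui, hH0, ?_, ?_, ?_,
      ?_, ?_, ?_, ?_, ?_, ?_, ?_, ?_, ?_⟩
    · rw [Nat.one_le_floor_iff]; exact s9_one hu1 _
    · rw [Nat.le_floor_iff (by positivity)]
      calc ((9 : ℕ) : ℝ) ≤ u := by push_cast; linarith
        _ = u ^ 1 := (pow_one u).symm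
        _ ≤ u ^ 2495 := pow_le_pow_right₀ hu1 (by norm_num)
    · rw [Nat.one_le_floor_iff]; exact s9_one hu1 _
    · exact s9_n1 (by linarith) hR0 hR hA2 rfl hΛ0 hL2 hK0.le hS0.le hK1 hS1 hτ (Nat.cast_nonneg _) hD2 hh
    · exact s9_n2 (by linarith) hR0 hR hΛ0 hL1 hX2 (Nat.cast_nonneg _) hK1 hS0.le hS1 hh
    · exact s9_n3 (by linarith) rfl hR0 hR hΛ0 hL1 hX0.le hX2 hK0 hK2 hS0.le hS1 hh
    · have e1 : (u⁻¹ ^ 3) ^ 8 = u⁻¹ ^ 24 := by rw [← pow_mul]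
      have e2 : u⁻¹ ^ 24 * u ^ 25 = u ^ 1 := s9_inv hu0 (by norm_num)
      rw [pow_one] at e2
      rw [e1, div_le_iff₀ (by positivity)]
      have e3 : u⁻¹ ^ 24 * u ^ 25 ≤ u⁻¹ ^ 24 * (2 * ((⌊u ^ 25⌋₊ : ℕ) : ℝ)) :=
        mul_le_mul_of_nonneg_left hQ2 (by positivity)
      rw [e2] at e3
      calc C ≤ u / 2 := by linarith
        _ ≤ (u⁻¹ ^ 24 * (2 * ((⌊u ^ 25⌋₊ : ℕ) : ℝ))) / 2 := by linarith
        _ = ((⌊u ^ 25⌋₊ : ℕ) : ℝ) * u⁻¹ ^ 24 := by ring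
    · exact s9_n5 hu8 rfl (Nat.cast_nonneg _) hQ1 hS2
    · exact s9_n6 hC hu rfl (Nat.cast_nonneg _) hQ1 hS2 hX1 hE0 hE
    · exact s9_n7 hC hu rfl hQ1 hE0 hE
    · exact s9_n8 (by linarith) rfl (Nat.cast_nonneg _) hQ1
    · exact s9_n9 hC hu rfl (Nat.cast_nonneg _) hQ1 hS0 hS2 hX1 hE0 hE

end Pool.Agent.Lib.H21T
end

-- from Lib.H21T.Z3
section

/-!
# Chunk Z3 (S/M): divisor bound, minor arcs for the pairs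
-/

namespace Pool.Agent.Lib.H21T

open Finset Pool.Agent.SZW

/-- `Pool.Agent.Lib.H21AP.divisor_bound` with `ε = 1 / 40006`: at most `C m ^ ε ≤ C (u ^ 20003) ^ ε = C u ^ (1 / 2) ≤ u - 1` for large `u`. -/
theorem z3_div : ∃ U0 : ℝ, 1 ≤ U0 ∧ ∀ u : ℝ, U0 ≤ u → ∀ m : ℕ, 1 ≤ m → (m : ℝ) ≤ u ^ 20003 → m.divisors.card ≤ ⌊u⌋₊ := by
  obtain ⟨C, hC, h⟩ := Pool.Agent.Lib.H21AP.divisor_bound (ε := 1 / 40006) (by norm_num)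
  refine ⟨(C + 2) ^ 2, ?_, fun u hu m hm hmu => ?_⟩
  · nlinarith
  · have hu0 : 0 < u := lt_of_lt_of_le (by positivity) hu
    have h1 := h m hm
    have h2 : (m : ℝ) ^ (1 / 40006 : ℝ) ≤ (u ^ 20003) ^ (1 / 40006 : ℝ) :=
      Real.rpow_le_rpow (Nat.cast_nonneg m) hmu (by norm_num)
    have h3 : (u ^ 20003) ^ (1 / 40006 : ℝ) = Real.sqrt u := by
      rw [← Real.rpow_natCast u 20003, ← Real.rpow_mul hu0.le, Real.sqrt_eq_rpow]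
      congr 1
      norm_num
    rw [h3] at h2
    have h4 : C + 2 ≤ Real.sqrt u := Real.le_sqrt_of_sq_le hu
    have h5 : Real.sqrt u * Real.sqrt u = u := Real.mul_self_sqrt hu0.le
    apply Nat.le_floor
    have h6 : C * (m : ℝ) ^ (1 / 40006 : ℝ) ≤ C * Real.sqrt u := mul_le_mul_of_nonneg_left h2 hC.le
    have h7 : C * Real.sqrt u ≤ Real.sqrt u * Real.sqrt u :=
      mul_le_mul_of_nonneg_right (by linarith) (Real.sqrt_nonneg u)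
    linarith

/-- `w1`, `s9`, `z3_div` (`x + H ≤ 4 u ^ 2 u ^ 20000 + 3 u ^ 9999 ≤ u ^ 20003`), `s8`. -/
theorem z3 : ∃ U0 : ℝ, 1 ≤ U0 ∧ ∀ u : ℝ, U0 ≤ u → ∀ (A A1 A2 x H : ℕ) (α : ℝ), u ^ 9999 ≤ A → (A : ℝ) ≤ u ^ 10000 →
    A ≤ A1 → A2 ≤ 2 * A → A ^ 2 ≤ 2 * x → (x : ℝ) ≤ 4 * u ^ 2 * (A : ℝ) ^ 2 → u ^ 9999 ≤ H → (H : ℝ) ≤ 3 * u ^ 9999 →
    ¬ Maj u α → ‖SR α A1 A2 x H‖ ≤ H / (8 * u) := by
  obtain ⟨C, hC, hW⟩ := w1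
  obtain ⟨U1, hU1, h9⟩ := s9 C hC
  obtain ⟨U2, hU2, h2⟩ := z3_div
  refine ⟨max (max U1 U2) 7, le_trans (by norm_num) (le_max_right _ _), ?_⟩
  intro u hu A A1 A2 x H α hA1 hA2 hAA1 hAA2 hx1 hx2 hH1 hH2 hmaj
  have hu1 : U1 ≤ u := ((le_max_left _ _).trans (le_max_left _ _)).trans hu
  have hu2 : U2 ≤ u := ((le_max_right _ _).trans (le_max_left _ _)).trans hu
  have hu7 : 7 ≤ u := (le_max_right _ _).trans hu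
  have hu0 : 0 < u := by linarith
  by_contra hcon
  have hα : (H : ℝ) / (8 * u) < ‖SR α A1 A2 x H‖ := not_le.1 hcon
  by_cases h12 : A1 ≤ A2
  · obtain ⟨X, S, Λ, K, D, s0, Q1, τ, δ, η, G, hτ, hD, N⟩ := h9 u hu1 A x H hA1 hA2 hx1 hx2 hH1 hH2
    apply hmaj
    refine s8 G hC hW hAA1 h12 hAA2 ?_ hD N α hα
    intro m hm hmx
    rw [hτ]
    refine h2 u hu2 m hm ?_
    have h3 : (m : ℝ) ≤ x + H := by exact_mod_cast hmx.le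
    have h4 : (A : ℝ) ^ 2 ≤ (u ^ 10000) ^ 2 := pow_le_pow_left₀ (Nat.cast_nonneg A) hA2 2
    have h5 : (x : ℝ) ≤ 4 * u ^ 20002 := by
      refine hx2.trans ?_
      have e1 : 4 * u ^ 20002 = 4 * u ^ 2 * (u ^ 10000) ^ 2 := by
        rw [← pow_mul, mul_assoc, ← pow_add]
      rw [e1]
      exact mul_le_mul_of_nonneg_left h4 (by positivity)
    have h6 : u ^ 9999 ≤ u ^ 20002 := pow_le_pow_right₀ (by linarith) (by norm_num)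
    have h7 : u ^ 20003 = u ^ 20002 * u := pow_succ u 20002
    have h8 : 7 * u ^ 20002 ≤ u ^ 20002 * u := by
      rw [mul_comm]
      exact mul_le_mul_of_nonneg_left hu7 (by positivity)
    rw [h7]
    linarith
  · have h3 : Rg A1 A2 x H = ∅ := by
      unfold Rg
      rw [Ico_eq_empty (fun h => h12 h.le), empty_product, filter_empty]
    unfold SR at hα
    rw [h3, sum_empty, norm_zero] at hα
    have h4 : 0 ≤ (H : ℝ) / (8 * u) := by positivity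
    linarith

end Pool.Agent.Lib.H21T
end
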