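import Pool.Agent.Lib.H59M.M2.M035
import Pool.Agent.Lib.H59M.M2.M053
import Pool.Agent.Lib.H59M.M2.M055
import Pool.Agent.Lib.H59M.M2.M057

/-! Merged copies (to shorten the build) of Lib.H44W.M5, Lib.HUK.E2, Lib.HUK.KB3, Lib.HUK.KB10, Lib.HUP.P3a, Lib.HUP.P3b. -/

-- from Lib.H44W.M5
section
/-!
CHUNK M5 (M). Mass of the difference: sum over m in [1,2n] of |sum_q ga q (pd q m - Mq m)| <= 10 (1 + log n)^4 n.
Proof. By |ga| <= 1 it is at most sum_{q <= R} (sum_m pd q m + sum_m |Mq m|).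
(a) sum_{m in [1,2n]} |pd q m| <= 2n/q: it is the number of (a,b) in the box with 1 <= q a b <= 2n; if q A1 B1 > 2n it is 0; otherwise at
most card Ico A1 A2 * card Ico B1 B2 <= A1 B1 <= 2n/q.
(b) sum_m |Mq m| = sum_{k <= 2n/q} |lbox k| |gQ Q k| <= sum_{k <= 2n/q} sum_{d <= Q, d | k} (1 + log Q) (lbox_bd, H21T.m1)
<= (1 + log Q) sum_{d <= Q} 2n/(q d) <= (2n/q) (1 + log Q)^2 (harmonic sum: sum_{d <= Q} 1/d <= 1 + log Q, harmonic_le_one_add_log).
Sum over q <= R <= n: sum 1/q <= 1 + log n; Q <= n: total <= 2n (1+log n) + 2n (1+log n)^3 <= 10 (1+log n)^4 n.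
-/
namespace Pool.Agent.H44W
open Finset

theorem m5_har (N n : ℕ) (h : N ≤ n) : ∑ d ∈ Icc 1 N, 1 / (d : ℝ) ≤ 1 + Real.log n := by
  have h2 : ∑ r ∈ Icc 1 N, 1 / (r : ℝ) ≤ ∑ r ∈ Icc 1 n, 1 / (r : ℝ) := by
    apply Finset.sum_le_sum_of_subset_of_nonneg
    · exact Finset.Icc_subset_Icc_right h
    · intro i _ _
      positivity
  have h3 : ∑ r ∈ Icc 1 n, 1 / (r : ℝ) ≤ 1 + Real.log n := by
    have h4 := harmonic_le_one_add_log n
    rw [harmonic_eq_sum_Icc] at h4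
    push_cast at h4
    simpa only [one_div] using h4
  linarith

theorem m5_mult (r N : ℕ) (hr : 1 ≤ r) :
    (((Icc (1:ℤ) (N:ℤ)).filter (fun m => (r:ℤ) ∣ m)).card : ℝ) ≤ (N:ℝ) / r := by
  have h1 : (Icc (1:ℤ) (N:ℤ)).filter (fun m => (r:ℤ) ∣ m) ⊆ (Icc 1 (N / r)).image (fun k : ℕ => (r:ℤ) * k) := by
    intro m hm
    rw [mem_filter, mem_Icc] at hm
    obtain ⟨⟨h1, h2⟩, k, rfl⟩ := hm
    have hk : 0 < k := by
      by_contra hc
      have : (r:ℤ) * k ≤ 0 := mul_nonpos_of_nonneg_of_nonpos (by positivity) (not_lt.1 hc)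
      omega
    lift k to ℕ using hk.le
    rw [mem_image]
    refine ⟨k, mem_Icc.2 ⟨by exact_mod_cast hk, ?_⟩, rfl⟩
    rw [Nat.le_div_iff_mul_le (by omega), mul_comm]
    exact_mod_cast h2
  have h2 := (card_le_card h1).trans card_image_le
  rw [Nat.card_Icc, Nat.add_sub_cancel] at h2
  calc _ ≤ ((N / r : ℕ) : ℝ) := by exact_mod_cast h2
    _ ≤ (N:ℝ) / r := Nat.cast_div_le

theorem m5_pd (n q A1 A2 B1 B2 : ℕ) (hq : 1 ≤ q) (hA2 : A2 ≤ 2 * A1) (hB2 : B2 ≤ 2 * B1) :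
    ∑ m ∈ Icc (1:ℤ) (2 * n), ‖pd q (Ico (A1:ℤ) A2) (Ico (B1:ℤ) B2) m‖ ≤ 2 * n / q := by
  classical
  have h0 : ∀ m : ℤ, ‖pd q (Ico (A1:ℤ) A2) (Ico (B1:ℤ) B2) m‖ =
      ((((Ico (A1:ℤ) A2) ×ˢ (Ico (B1:ℤ) B2)).filter (fun p => (q:ℤ) * p.1 * p.2 = m)).card : ℝ) := by
    intro m
    unfold pd
    rw [Complex.norm_natCast]
  rw [sum_congr rfl fun m _ => h0 m]
  have h1 : ∑ m ∈ Icc (1:ℤ) (2 * n), (((Ico (A1:ℤ) A2) ×ˢ (Ico (B1:ℤ) B2)).filter (fun p => (q:ℤ) * p.1 * p.2 = m)).card =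
      (((Ico (A1:ℤ) A2) ×ˢ (Ico (B1:ℤ) B2)).filter (fun p => (q:ℤ) * p.1 * p.2 ∈ Icc (1:ℤ) (2 * n))).card := by
    rw [card_eq_sum_card_fiberwise (f := fun p : ℤ × ℤ => (q:ℤ) * p.1 * p.2) (t := Icc (1:ℤ) (2 * n))
      (by intro p hp; exact (mem_filter.1 hp).2)]
    refine sum_congr rfl fun m hm => ?_
    congr 1
    ext p
    simp only [mem_filter]
    constructor
    · rintro ⟨a, b⟩
      exact ⟨⟨a, b ▸ hm⟩, b⟩
    · rintro ⟨⟨a, _⟩, b⟩
      exact ⟨a, b⟩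
  rw [← Nat.cast_sum, h1]
  by_cases hc : 2 * n < q * A1 * B1
  · have h2 : ((Ico (A1:ℤ) A2) ×ˢ (Ico (B1:ℤ) B2)).filter (fun p => (q:ℤ) * p.1 * p.2 ∈ Icc (1:ℤ) (2 * n)) = ∅ := by
      rw [Finset.filter_eq_empty_iff]
      rintro ⟨a, b⟩ hp hm
      rw [mem_product, mem_Ico, mem_Ico] at hp
      rw [mem_Icc] at hm
      simp only at hp hm
      have h3 : (q:ℤ) * A1 * B1 ≤ (q:ℤ) * a * b := by
        have h4 : (0:ℤ) ≤ A1 := by positivity
        have h5 : (0:ℤ) ≤ B1 := by positivity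
        have h6 : (q:ℤ) * A1 ≤ q * a := mul_le_mul_of_nonneg_left hp.1.1 (by positivity)
        exact mul_le_mul h6 hp.2.1 h5 (mul_nonneg (by positivity) (h4.trans hp.1.1))
      have h7 : (2 * n : ℤ) < (q:ℤ) * A1 * B1 := by exact_mod_cast hc
      omega
    rw [h2, card_empty, Nat.cast_zero]
    positivity
  · have h2 : (((Ico (A1:ℤ) A2) ×ˢ (Ico (B1:ℤ) B2)).filter (fun p => (q:ℤ) * p.1 * p.2 ∈ Icc (1:ℤ) (2 * n))).card ≤ A1 * B1 := by
      refine (card_filter_le _ _).trans ?_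
      rw [card_product, Int.card_Ico, Int.card_Ico]
      exact Nat.mul_le_mul (by omega) (by omega)
    have hq0 : (0:ℝ) < q := by exact_mod_cast hq
    rw [le_div_iff₀ hq0]
    have h3 : A1 * B1 * q ≤ 2 * n := by
      have := not_lt.1 hc
      calc A1 * B1 * q = q * A1 * B1 := by ring
        _ ≤ 2 * n := this
    calc _ ≤ ((A1 * B1 : ℕ) : ℝ) * q := mul_le_mul_of_nonneg_right (by exact_mod_cast h2) hq0.le
      _ ≤ 2 * n := by exact_mod_cast h3

theorem m5_Mq1 (Q A1 A2 B1 B2 q : ℕ) (hQ1 : 1 ≤ Q) (hq : 1 ≤ q) (hA : 1 ≤ A1) (hA2 : A2 ≤ 2 * A1) (m : ℤ) (hm : 1 ≤ m) :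
    ‖Mq Q A1 A2 B1 B2 q m‖ ≤ ∑ d ∈ Icc 1 Q, if (((q * d : ℕ) : ℤ) ∣ m) then (1 + Real.log Q) else 0 := by
  have hL : 0 ≤ 1 + Real.log Q := by
    have := Real.log_natCast_nonneg Q
    linarith
  unfold Mq
  by_cases h : (q:ℤ) ∣ m
  · rw [if_pos h, Complex.norm_real, Real.norm_eq_abs]
    unfold Pool.Agent.Lib.H21T.Mbox
    rw [abs_mul]
    obtain ⟨k, rfl⟩ := h
    have hq0 : (0:ℤ) < q := by exact_mod_cast hq
    have hk : 0 < k := by
      by_contra hc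
      have : (q:ℤ) * k ≤ 0 := mul_nonpos_of_nonneg_of_nonpos hq0.le (not_lt.1 hc)
      omega
    lift k to ℕ using hk.le
    rw [Int.mul_ediv_cancel_left _ hq0.ne', Int.toNat_natCast]
    have h1 := lbox_bd A1 A2 B1 B2 k hA hA2
    rw [abs_of_nonneg h1.1]
    refine (mul_le_of_le_one_left (abs_nonneg _) h1.2).trans ?_
    unfold Pool.Agent.Lib.H21T.gQ
    refine (Finset.abs_sum_le_sum_abs _ _).trans ?_
    rw [Finset.sum_filter]
    refine Finset.sum_le_sum fun d _ => ?_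
    by_cases hd : d ∣ k
    · have h2 : ((q * d : ℕ) : ℤ) ∣ (q:ℤ) * k := by
        exact_mod_cast Nat.mul_dvd_mul_left q hd
      rw [if_pos hd, if_pos h2]
      exact Pool.Agent.Lib.H21T.m1 Q d hQ1
    · rw [if_neg hd]
      split_ifs
      · exact hL
      · exact le_rfl
  · rw [if_neg h, norm_zero]
    refine Finset.sum_nonneg fun d _ => ?_
    split_ifs
    · exact hL
    · exact le_rfl

theorem m5_Mq (n Q A1 A2 B1 B2 q : ℕ) (hQ1 : 1 ≤ Q) (hQ : Q ≤ n) (hq : 1 ≤ q) (hA : 1 ≤ A1) (hA2 : A2 ≤ 2 * A1) :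
    ∑ m ∈ Icc (1:ℤ) (2 * n), ‖Mq Q A1 A2 B1 B2 q m‖ ≤ 2 * n / q * (1 + Real.log n) ^ 2 := by
  have hQr : (0:ℝ) < Q := by exact_mod_cast hQ1
  have hLQ : Real.log Q ≤ Real.log n := Real.log_le_log hQr (by exact_mod_cast hQ)
  have hL : 0 ≤ Real.log Q := Real.log_natCast_nonneg Q
  have hq0 : (0:ℝ) < q := by exact_mod_cast hq
  calc ∑ m ∈ Icc (1:ℤ) (2 * n), ‖Mq Q A1 A2 B1 B2 q m‖
      ≤ ∑ m ∈ Icc (1:ℤ) (2 * n), ∑ d ∈ Icc 1 Q, (if (((q * d : ℕ) : ℤ) ∣ m) then (1 + Real.log Q) else 0) :=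
        Finset.sum_le_sum fun m hm => m5_Mq1 Q A1 A2 B1 B2 q hQ1 hq hA hA2 m (mem_Icc.1 hm).1
    _ = ∑ d ∈ Icc 1 Q, (((Icc (1:ℤ) (((2 * n : ℕ)) : ℤ)).filter (fun m => ((q * d : ℕ) : ℤ) ∣ m)).card : ℝ) * (1 + Real.log Q) := by
        rw [Finset.sum_comm]
        refine Finset.sum_congr rfl fun d _ => ?_
        rw [← Finset.sum_filter, Finset.sum_const, nsmul_eq_mul]
        push_cast
        rfl
    _ ≤ ∑ d ∈ Icc 1 Q, (2 * n / q * (1 + Real.log n)) * (1 / (d:ℝ)) := by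
        refine Finset.sum_le_sum fun d hd => ?_
        have hd1 := (mem_Icc.1 hd).1
        have h1 := m5_mult (q * d) (2 * n) (Nat.mul_pos hq hd1)
        have hd0 : (0:ℝ) < d := by exact_mod_cast hd1
        have e : ((2 * n : ℕ) : ℝ) / ((q * d : ℕ) : ℝ) = 2 * n / q * (1 / d) := by
          push_cast
          field_simp
        rw [e] at h1
        calc _ ≤ (2 * n / q * (1 / (d:ℝ))) * (1 + Real.log n) :=
              mul_le_mul h1 (by linarith) (by linarith) (by positivity)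
          _ = _ := by ring
    _ = (2 * n / q * (1 + Real.log n)) * ∑ d ∈ Icc 1 Q, 1 / (d:ℝ) := by rw [Finset.mul_sum]
    _ ≤ (2 * n / q * (1 + Real.log n)) * (1 + Real.log n) :=
        mul_le_mul_of_nonneg_left (m5_har Q n hQ) (mul_nonneg (by positivity) (by linarith))
    _ = _ := by ring

theorem mass_le (n Q R A1 A2 B1 B2 : ℕ) (hn : 1 ≤ n) (hQ1 : 1 ≤ Q) (hQ : Q ≤ n) (hR : R ≤ n)
    (hA : 1 ≤ A1) (hB : 1 ≤ B1) (hA2 : A2 ≤ 2 * A1) (hB2 : B2 ≤ 2 * B1) (ga : ℕ → ℂ)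
    (hga : ∀ q, ‖ga q‖ ≤ 1) :
    ∑ m ∈ Icc (1:ℤ) (2 * n), ‖∑ q ∈ Icc 1 R, ga q *
      (pd q (Ico (A1:ℤ) A2) (Ico (B1:ℤ) B2) m - Mq Q A1 A2 B1 B2 q m)‖ ≤
      10 * (1 + Real.log n) ^ 4 * n := by
  have hn1 : (1:ℝ) ≤ n := by exact_mod_cast hn
  have hLn : 0 ≤ Real.log n := Real.log_natCast_nonneg n
  have hstep : ∀ m ∈ Icc (1:ℤ) (2 * n), ‖∑ q ∈ Icc 1 R, ga q *
      (pd q (Ico (A1:ℤ) A2) (Ico (B1:ℤ) B2) m - Mq Q A1 A2 B1 B2 q m)‖ ≤
      ∑ q ∈ Icc 1 R, (‖pd q (Ico (A1:ℤ) A2) (Ico (B1:ℤ) B2) m‖ + ‖Mq Q A1 A2 B1 B2 q m‖) := by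
    intro m _
    refine norm_sum_le_of_le _ fun q _ => ?_
    rw [norm_mul]
    exact (mul_le_of_le_one_left (norm_nonneg _) (hga q)).trans (norm_sub_le _ _)
  refine (Finset.sum_le_sum hstep).trans ?_
  rw [Finset.sum_comm]
  have hq : ∀ q ∈ Icc 1 R, ∑ m ∈ Icc (1:ℤ) (2 * n),
      (‖pd q (Ico (A1:ℤ) A2) (Ico (B1:ℤ) B2) m‖ + ‖Mq Q A1 A2 B1 B2 q m‖) ≤
      (2 * n * (1 + (1 + Real.log n) ^ 2)) * (1 / (q:ℝ)) := by
    intro q hq
    have hq1 := (mem_Icc.1 hq).1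
    rw [Finset.sum_add_distrib]
    have h1 := m5_pd n q A1 A2 B1 B2 hq1 hA2 hB2
    have h2 := m5_Mq n Q A1 A2 B1 B2 q hQ1 hQ hq1 hA hA2
    refine (add_le_add h1 h2).trans (le_of_eq ?_)
    ring
  refine (Finset.sum_le_sum hq).trans ?_
  rw [← Finset.mul_sum]
  have h3 := m5_har R n hR
  have h4 : 0 ≤ 2 * (n:ℝ) * (1 + (1 + Real.log n) ^ 2) := by positivity
  refine (mul_le_mul_of_nonneg_left h3 h4).trans ?_
  set L : ℝ := 1 + Real.log n with hLdef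
  have hL1 : 1 ≤ L := by linarith
  have h5 : L ^ 1 ≤ L ^ 4 := pow_le_pow_right₀ hL1 (by norm_num)
  have h6 : L ^ 3 ≤ L ^ 4 := pow_le_pow_right₀ hL1 (by norm_num)
  have h7 : 0 ≤ L ^ 4 := by positivity
  calc 2 * (n:ℝ) * (1 + L ^ 2) * L = n * (2 * L ^ 1 + 2 * L ^ 3) := by ring
    _ ≤ n * (10 * L ^ 4) := mul_le_mul_of_nonneg_left (by linarith) (by linarith)
    _ = _ := by ring

end Pool.Agent.H44W
end

-- from Lib.HUK.E2
section

/-!
# Project HUK, chunk E2 (M): the elimination lemma without absolute values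
-/

open Finset

namespace Pool.Agent.HUK

theorem e2_WT_cons (H r : ℕ) (j : ℤ) (j' : Fin r → ℤ) :
    WT H (Fin.cons j j' : Fin (r + 1) → ℤ) = fw H j ^ (2 ^ r) * WT H j' := by
  unfold WT
  rw [Fin.prod_univ_succ]
  simp only [Fin.cons_zero, Fin.cons_succ, Fin.val_zero, Fin.val_succ, Nat.add_sub_cancel, Nat.sub_zero]
  congr 1
  refine Finset.prod_congr rfl fun i _ => ?_
  congr 2
  omega

/-- One step for a family. -/
theorem e2_step {G ι : Type*} [AddCommGroup G] [DecidableEq G] (B B' : Finset G) (N : ℝ)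
    (hN : (B'.card : ℝ) ≤ N) (hN0 : 0 < N) (H : ℕ) (hH : 0 < H) (r : ℕ) (J : Finset ι) (hJ : 0 < J.card)
    (v : ι → Fin (r + 1) → G) (g : ι → Fin (r + 1) → G → ℂ) (c : ι → G → ℂ)
    (hg : ∀ x i z, ‖g x i z‖ ≤ 1) (hinv : ∀ x i z, g x i (z + v x i) = g x i z) (hc : ∀ x z, z ∉ B → c x z = 0)
    (hB : ∀ x i z, ∀ h : ℕ, h < H → z + h • v x i ∈ B → z ∈ B') :
    (‖∑ x ∈ J, ∑ z ∈ B, (∏ i, g x i z) * c x z‖ / (N * J.card)) ^ 2 ≤
      (∑ p ∈ J ×ˢ Ioo (-(H : ℤ)) H, ∑ z ∈ B, (∏ i : Fin r, DD (p.2 • v p.1 0) (g p.1 i.succ) z) *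
        (((fw H p.2 : ℝ) : ℂ) * DD (p.2 • v p.1 0) (c p.1) z)).re / (H * (N * J.card)) := by
  have hHr : (0 : ℝ) < H := by exact_mod_cast hH
  have hJr : (0 : ℝ) < J.card := by exact_mod_cast hJ
  have h1 : ∀ x ∈ J, ‖∑ z ∈ B, (∏ i, g x i z) * c x z‖ ^ 2 ≤ N / H * (∑ j ∈ Ioo (-(H : ℤ)) H,
      ∑ z ∈ B, (∏ i : Fin r, DD (j • v x 0) (g x i.succ) z) *
        (((fw H j : ℝ) : ℂ) * DD (j • v x 0) (c x) z)).re := by
    intro x _
    have h2 := E0_real B B' N hN H hH (v x 0) (g x 0) (fun z => (∏ i : Fin r, g x i.succ z) * c x z) (hg x 0) (hinv x 0)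
      (fun z hz => by simp only [hc x z hz, mul_zero]) (hB x 0)
    have h3 : ∑ z ∈ B, (∏ i, g x i z) * c x z = ∑ z ∈ B, g x 0 z * ((∏ i : Fin r, g x i.succ z) * c x z) := by
      refine Finset.sum_congr rfl fun z _ => ?_
      rw [Fin.prod_univ_succ, mul_assoc]
    rw [h3]
    refine h2.trans (le_of_eq ?_)
    congr 2
    refine Finset.sum_congr rfl fun j _ => ?_
    rw [Finset.mul_sum]
    refine Finset.sum_congr rfl fun z _ => ?_
    rw [e1_DD_prod]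
    ring
  have h4 : ‖∑ x ∈ J, ∑ z ∈ B, (∏ i, g x i z) * c x z‖ ^ 2 ≤
      J.card * ∑ x ∈ J, ‖∑ z ∈ B, (∏ i, g x i z) * c x z‖ ^ 2 := by
    refine (pow_le_pow_left₀ (norm_nonneg _) (norm_sum_le _ _) 2).trans ?_
    exact sq_sum_le_card_mul_sum_sq
  have h5 := h4.trans (mul_le_mul_of_nonneg_left (Finset.sum_le_sum h1) hJr.le)
  have h6 : ∑ x ∈ J, N / H * (∑ j ∈ Ioo (-(H : ℤ)) H,
      ∑ z ∈ B, (∏ i : Fin r, DD (j • v x 0) (g x i.succ) z) *
        (((fw H j : ℝ) : ℂ) * DD (j • v x 0) (c x) z)).re = N / H *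
      (∑ p ∈ J ×ˢ Ioo (-(H : ℤ)) H, ∑ z ∈ B, (∏ i : Fin r, DD (p.2 • v p.1 0) (g p.1 i.succ) z) *
        (((fw H p.2 : ℝ) : ℂ) * DD (p.2 • v p.1 0) (c p.1) z)).re := by
    rw [← Finset.mul_sum, ← Complex.re_sum, ← Finset.sum_product' J (Ioo (-(H : ℤ)) H) (fun x j =>
      ∑ z ∈ B, (∏ i : Fin r, DD (j • v x 0) (g x i.succ) z) * (((fw H j : ℝ) : ℂ) * DD (j • v x 0) (c x) z))]
  rw [h6] at h5
  rw [div_pow, div_le_div_iff₀ (by positivity) (by positivity)]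
  calc ‖∑ x ∈ J, ∑ z ∈ B, (∏ i, g x i z) * c x z‖ ^ 2 * (H * (N * J.card))
      ≤ (J.card * (N / H * (∑ p ∈ J ×ˢ Ioo (-(H : ℤ)) H, ∑ z ∈ B,
        (∏ i : Fin r, DD (p.2 • v p.1 0) (g p.1 i.succ) z) *
        (((fw H p.2 : ℝ) : ℂ) * DD (p.2 • v p.1 0) (c p.1) z)).re)) * (H * (N * J.card)) :=
        mul_le_mul_of_nonneg_right h5 (by positivity)
    _ = _ := by
        field_simp

/-- The sum on the right after one step and the induction hypothesis. -/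
theorem e2_sum {G ι : Type*} [AddCommGroup G] (B : Finset G) (H : ℕ) (r : ℕ) (J : Finset ι)
    (v : ι → Fin (r + 1) → G) (c : ι → G → ℂ) :
    ∑ j' ∈ bxS r H, ((WT H j' : ℝ) : ℂ) * ∑ p ∈ J ×ˢ Ioo (-(H : ℤ)) H, ∑ z ∈ B,
      DL (List.ofFn fun i => j' i • v p.1 i.succ) (fun z => ((fw H p.2 : ℝ) : ℂ) * DD (p.2 • v p.1 0) (c p.1) z) z =
    ∑ j ∈ bxS (r + 1) H, ((WT H j : ℝ) : ℂ) * ∑ x ∈ J, ∑ z ∈ B, DL (List.ofFn fun i => j i • v x i) (c x) z := by
  rw [e1_box_succ, Finset.sum_comm]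
  refine Finset.sum_congr rfl fun j' _ => ?_
  rw [Finset.sum_product, Finset.sum_comm, Finset.mul_sum]
  refine Finset.sum_congr rfl fun j _ => ?_
  rw [Finset.mul_sum, Finset.mul_sum]
  refine Finset.sum_congr rfl fun x _ => ?_
  rw [Finset.mul_sum, Finset.mul_sum]
  refine Finset.sum_congr rfl fun z _ => ?_
  rw [e2_WT_cons, DL_smul, List.length_ofFn, List.ofFn_succ]
  simp only [Fin.cons_zero, Fin.cons_succ, DL]
  push_cast
  ring

/-- The constants. -/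
theorem e2_const (H r : ℕ) (hH : 0 < H) (N J m : ℝ) (hN : 0 < N) (hJ : 0 < J) (hm : 0 < m) (hm2 : m ≤ 2 * H)
    (x S T : ℝ) (hx : 0 ≤ x) (hT : 0 ≤ T)
    (h1 : x ^ 2 ≤ S / (H * (N * J)))
    (h2 : (S / (N * (J * m))) ^ (2 ^ r) ≤ 2 ^ (2 ^ r) / (H : ℝ) ^ r * (T / (N * (J * m)))) :
    x ^ (2 ^ (r + 1)) ≤ 2 ^ (2 ^ (r + 1)) / (H : ℝ) ^ (r + 1) * (T / (N * J)) := by
  have hH0 : (0 : ℝ) < H := by exact_mod_cast hH
  obtain ⟨n, hn⟩ : ∃ n : ℕ, 2 ^ r = n + 1 := ⟨2 ^ r - 1, by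
    have := Nat.one_le_two_pow (n := r)
    omega⟩
  have h3 : S / (H * (N * J)) = m / H * (S / (N * (J * m))) := by
    field_simp
  have h4 : x ^ (2 ^ (r + 1)) ≤ (m / H) ^ (2 ^ r) * (2 ^ (2 ^ r) / (H : ℝ) ^ r * (T / (N * (J * m)))) := by
    calc x ^ (2 ^ (r + 1)) = (x ^ 2) ^ (2 ^ r) := by rw [← pow_mul, pow_succ, mul_comm]
      _ ≤ (S / (H * (N * J))) ^ (2 ^ r) := pow_le_pow_left₀ (by positivity) h1 _
      _ = (m / H) ^ (2 ^ r) * (S / (N * (J * m))) ^ (2 ^ r) := by rw [h3, mul_pow]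
      _ ≤ _ := mul_le_mul_of_nonneg_left h2 (by positivity)
  refine h4.trans ?_
  have h5 : (m / H) ^ (2 ^ r) * (2 ^ (2 ^ r) / (H : ℝ) ^ r * (T / (N * (J * m)))) =
      m ^ n * (2 ^ (2 ^ r) / ((H : ℝ) ^ (2 ^ r) * (H : ℝ) ^ r) * (T / (N * J))) := by
    rw [div_pow, hn, pow_succ m]
    field_simp
  rw [h5]
  have h6 : m ^ n ≤ (2 * H) ^ n := pow_le_pow_left₀ hm.le hm2 n
  refine (mul_le_mul_of_nonneg_right h6 (by positivity)).trans ?_
  have h7 : (2 * (H : ℝ)) ^ n * (2 ^ (2 ^ r) / ((H : ℝ) ^ (2 ^ r) * (H : ℝ) ^ r) * (T / (N * J))) =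
      2 ^ (n + 2 ^ r) / (H : ℝ) ^ (r + 1) * (T / (N * J)) := by
    rw [mul_pow, pow_add, hn, pow_succ (H : ℝ) n, pow_succ (H : ℝ) r]
    field_simp
  rw [h7]
  refine mul_le_mul_of_nonneg_right ?_ (by positivity)
  refine div_le_div_of_nonneg_right ?_ (by positivity)
  refine pow_le_pow_right₀ one_le_two ?_
  rw [pow_succ]
  omega

theorem e2_card (J H : ℕ) (hH : 0 < H) : ((J * (Ioo (-(H : ℤ)) H).card : ℕ) : ℝ) = J * (2 * H - 1) := by
  have h1 : (Ioo (-(H : ℤ)) H).card = 2 * H - 1 := by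
    rw [Int.card_Ioo]
    omega
  rw [h1, Nat.cast_mul, Nat.cast_sub (by omega)]
  push_cast
  rfl

/-- The version with the real part, at least one function. -/
theorem e2_re {G : Type*} [AddCommGroup G] [DecidableEq G] (B B' : Finset G) (N : ℝ)
    (hN : (B'.card : ℝ) ≤ N) (hN0 : 0 < N) (H : ℕ) (hH : 0 < H) (r : ℕ) : ∀ (ι : Type*) (J : Finset ι), 0 < J.card →
    ∀ (v : ι → Fin (r + 1) → G) (g : ι → Fin (r + 1) → G → ℂ) (c : ι → G → ℂ),
    (∀ x i z, ‖g x i z‖ ≤ 1) → (∀ x i z, g x i (z + v x i) = g x i z) → (∀ x z, z ∉ B → c x z = 0) →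
    (∀ x i z, ∀ h : ℕ, h < H → z + h • v x i ∈ B → z ∈ B') →
    0 ≤ (∑ j ∈ bxS (r + 1) H, ((WT H j : ℝ) : ℂ) *
        ∑ x ∈ J, ∑ z ∈ B, DL (List.ofFn fun i => j i • v x i) (c x) z).re ∧
    (‖∑ x ∈ J, ∑ z ∈ B, (∏ i, g x i z) * c x z‖ / (N * J.card)) ^ (2 ^ (r + 1)) ≤
      2 ^ (2 ^ (r + 1)) / (H : ℝ) ^ (r + 1) * ((∑ j ∈ bxS (r + 1) H, ((WT H j : ℝ) : ℂ) *
        ∑ x ∈ J, ∑ z ∈ B, DL (List.ofFn fun i => j i • v x i) (c x) z).re / (N * J.card)) := by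
  have hHr : (0 : ℝ) < H := by exact_mod_cast hH
  induction r with
  | zero =>
    intro ι J hJ v g c hg hinv hc hB
    have hJr : (0 : ℝ) < J.card := by exact_mod_cast hJ
    have h1 := e2_step B B' N hN hN0 H hH 0 J hJ v g c hg hinv hc hB
    have h2 : ∑ p ∈ J ×ˢ Ioo (-(H : ℤ)) H, ∑ z ∈ B, (∏ i : Fin 0, DD (p.2 • v p.1 0) (g p.1 i.succ) z) *
        (((fw H p.2 : ℝ) : ℂ) * DD (p.2 • v p.1 0) (c p.1) z) =
        ∑ j ∈ bxS (0 + 1) H, ((WT H j : ℝ) : ℂ) * ∑ x ∈ J, ∑ z ∈ B, DL (List.ofFn fun i => j i • v x i) (c x) z := by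
      rw [← e2_sum B H 0 J v c]
      have h3 : bxS 0 H = {fun i => i.elim0} := by
        unfold bxS
        rw [Fintype.piFinset_of_isEmpty]
        ext j
        simp only [mem_univ, mem_singleton, true_iff]
        exact Subsingleton.elim _ _
      rw [h3, Finset.sum_singleton]
      have h4 : WT H (fun i : Fin 0 => (i.elim0 : ℤ)) = 1 := by
        unfold WT
        rw [Finset.univ_eq_empty, Finset.prod_empty]
      rw [h4, Complex.ofReal_one, one_mul]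
      refine Finset.sum_congr rfl fun p _ => Finset.sum_congr rfl fun z _ => ?_
      rw [Finset.univ_eq_empty, Finset.prod_empty, one_mul, List.ofFn_zero]
      simp only [DL]
    rw [h2] at h1
    obtain ⟨T, hT⟩ : ∃ T : ℝ, T = (∑ j ∈ bxS (0 + 1) H, ((WT H j : ℝ) : ℂ) *
      ∑ x ∈ J, ∑ z ∈ B, DL (List.ofFn fun i => j i • v x i) (c x) z).re := ⟨_, rfl⟩
    rw [← hT] at h1 ⊢
    have h5 : 0 ≤ T := by
      have h6 := (sq_nonneg _).trans h1
      rwa [le_div_iff₀ (by positivity), zero_mul] at h6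
    refine ⟨h5, ?_⟩
    have h7 : (2 : ℕ) ^ (0 + 1) = 2 := by norm_num
    rw [h7]
    refine h1.trans ?_
    rw [zero_add, pow_one]
    have h8 : T / (H * (N * J.card)) = 1 / H * (T / (N * J.card)) := by
      field_simp
    rw [h8]
    refine mul_le_mul_of_nonneg_right ?_ (by positivity)
    refine div_le_div_of_nonneg_right ?_ hHr.le
    norm_num
  | succ r ih =>
    intro ι J hJ v g c hg hinv hc hB
    have hJr : (0 : ℝ) < J.card := by exact_mod_cast hJ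
    have h1 := e2_step B B' N hN hN0 H hH (r + 1) J hJ v g c hg hinv hc hB
    have hcard : 0 < (J ×ˢ Ioo (-(H : ℤ)) H).card := by
      rw [card_product]
      refine Nat.mul_pos hJ ?_
      rw [Int.card_Ioo]
      omega
    obtain ⟨h2, h3⟩ := ih (ι × ℤ) (J ×ˢ Ioo (-(H : ℤ)) H) hcard (fun p i => v p.1 i.succ)
      (fun p i => DD (p.2 • v p.1 0) (g p.1 i.succ)) (fun p z => ((fw H p.2 : ℝ) : ℂ) * DD (p.2 • v p.1 0) (c p.1) z)
      (fun p i z => e1_DD_le _ _ (hg p.1 i.succ) z) (fun p i z => e1_DD_inv _ _ _ (hinv p.1 i.succ) z)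
      (fun p z hz => by simp only [DD, hc p.1 z hz, zero_mul, mul_zero]) (fun p i => hB p.1 i.succ)
    rw [e2_sum] at h2 h3
    refine ⟨h2, ?_⟩
    rw [card_product, e2_card _ _ hH] at h3
    have hH1 : (1 : ℝ) ≤ H := by exact_mod_cast hH
    exact e2_const H (r + 1) hH N J.card (2 * H - 1) hN0 hJr (by linarith) (by linarith) _ _ _ (by positivity) h2
      (h1.trans (div_le_div_of_nonneg_right (Complex.re_le_norm _) (by positivity))) h3


/-- `J` a single point; for `r ≥ 1` the sum on the right is real and `≥ 0` (in the last step of the proof it comes from `E0_real`, whose right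
side is `≥ 0`; or: reprove the statement with `.re`). -/
theorem E2_elim {G : Type*} [AddCommGroup G] [DecidableEq G] (B B' : Finset G) (N : ℝ) (hN : (B'.card : ℝ) ≤ N)
    (hN0 : 0 < N) (H : ℕ) (hH : 0 < H) (r : ℕ) (hr : 1 ≤ r) (v : Fin r → G) (g : Fin r → G → ℂ) (c : G → ℂ)
    (hg : ∀ i z, ‖g i z‖ ≤ 1) (hinv : ∀ i z, g i (z + v i) = g i z) (hc : ∀ z, z ∉ B → c z = 0)
    (hB : ∀ i z, ∀ h : ℕ, h < H → z + h • v i ∈ B → z ∈ B') :
    (‖∑ z ∈ B, (∏ i, g i z) * c z‖ / N) ^ (2 ^ r) ≤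
      2 ^ (2 ^ r) / (H : ℝ) ^ r * ((∑ j ∈ bxS r H, ((WT H j : ℝ) : ℂ) *
        ∑ z ∈ B, DL (List.ofFn fun i => j i • v i) c z).re / N) := by
  obtain ⟨r, rfl⟩ : ∃ r' : ℕ, r = r' + 1 := ⟨r - 1, by omega⟩
  have h1 := (e2_re B B' N hN hN0 H hH r Unit {()} (by simp) (fun _ => v) (fun _ => g) (fun _ => c)
    (fun _ => hg) (fun _ => hinv) (fun _ => hc) (fun _ => hB)).2
  simp only [Finset.sum_singleton, Finset.card_singleton, Nat.cast_one, mul_one] at h1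
  exact h1

end Pool.Agent.HUK
end

-- from Lib.HUK.KB3
section

/-!
# Project HUK, chunk KB3 (M): long sums of periodic functions
-/

open Finset

namespace Pool.Agent.HUK

theorem kb3_block (M : ℕ) (hM : 1 ≤ M) (g : ℤ → ℂ) (hg : ∀ y y' : ℤ, (M : ℤ) ∣ y - y' → g y = g y') (a : ℤ) :
    ∑ l ∈ range M, g (a + l) = ∑ y ∈ Ico (0 : ℤ) M, g y := by
  have hM0 : (0 : ℤ) < M := by exact_mod_cast hM
  apply Finset.sum_nbij' (fun l : ℕ => (a + l) % (M : ℤ)) (fun y : ℤ => ((y - a) % (M : ℤ)).toNat)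
  · intro l _
    rw [mem_Ico]
    exact ⟨Int.emod_nonneg _ hM0.ne', Int.emod_lt_of_pos _ hM0⟩
  · intro y _
    rw [mem_range]
    have h1 := Int.emod_nonneg (y - a) hM0.ne'
    have h2 := Int.emod_lt_of_pos (y - a) hM0
    omega
  · intro l hl
    rw [mem_range] at hl
    have h3 : ((a + l) % (M : ℤ) - a) % (M : ℤ) = l := by
      rw [Int.emod_sub_emod, add_sub_cancel_left, Int.emod_eq_of_lt (by omega) (by omega)]
    rw [h3, Int.toNat_natCast]
  · intro y hy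
    rw [mem_Ico] at hy
    have h1 := Int.emod_nonneg (y - a) hM0.ne'
    show (a + (((y - a) % (M : ℤ)).toNat : ℤ)) % (M : ℤ) = y
    rw [Int.toNat_of_nonneg h1, Int.add_emod_emod, add_sub_cancel, Int.emod_eq_of_lt hy.1 hy.2]
  · intro l _
    apply hg
    exact Int.dvd_self_sub_emod

theorem kb3_blocks (M : ℕ) (hM : 1 ≤ M) (g : ℤ → ℂ) (hg : ∀ y y' : ℤ, (M : ℤ) ∣ y - y' → g y = g y') (a : ℤ) (q : ℕ) :
    ∑ l ∈ range (M * q), g (a + l) = q * ∑ y ∈ Ico (0 : ℤ) M, g y := by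
  induction q with
  | zero => simp
  | succ q ih =>
    rw [Nat.mul_succ, Finset.sum_range_add, ih, Nat.cast_add, add_mul, Nat.cast_one, one_mul]
    congr 1
    rw [← kb3_block M hM g hg (a + (M * q : ℕ))]
    apply Finset.sum_congr rfl
    intro l _
    rw [Nat.cast_add, add_assoc]

theorem kb3_one (M H : ℕ) (hM : 1 ≤ M) (g : ℤ → ℂ) (hg : ∀ y y' : ℤ, (M : ℤ) ∣ y - y' → g y = g y')
    (S : ℝ) (hS : ∀ y, ‖g y‖ ≤ S) (a : ℤ) :
    ‖∑ l ∈ range H, g (a + l)‖ ≤ ((H : ℝ) / M) * ‖∑ y ∈ Ico (0 : ℤ) M, g y‖ + M * S := by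
  have hS0 : 0 ≤ S := (norm_nonneg _).trans (hS 0)
  have hM0 : (0 : ℝ) < M := by exact_mod_cast hM
  have h1 : H = M * (H / M) + H % M := (Nat.div_add_mod H M).symm
  rw [h1, Finset.sum_range_add, kb3_blocks M hM g hg a, ← h1]
  refine (norm_add_le _ _).trans (add_le_add ?_ ?_)
  · rw [norm_mul, Complex.norm_natCast]
    apply mul_le_mul_of_nonneg_right _ (norm_nonneg _)
    exact Nat.cast_div_le
  · refine (norm_sum_le _ _).trans ?_
    calc ∑ x ∈ range (H % M), ‖g (a + ((M * (H / M) + x : ℕ) : ℤ))‖ ≤ ∑ x ∈ range (H % M), S :=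
          Finset.sum_le_sum fun x _ => hS _
      _ = (H % M : ℕ) * S := by rw [Finset.sum_const, card_range, nsmul_eq_mul]
      _ ≤ M * S := by
          apply mul_le_mul_of_nonneg_right _ hS0
          exact_mod_cast (Nat.mod_lt H hM).le

theorem kb3_card (M H : ℕ) (hM : 1 ≤ M) (hMH : M ≤ H) (r : ℤ) :
    (((Ioo (-(H : ℤ)) H).filter fun x : ℤ => x % (M : ℤ) = r).card : ℝ) ≤ 4 * H / M := by
  have hM0 : (0 : ℤ) < M := by exact_mod_cast hM
  have hMr : (0 : ℝ) < M := by exact_mod_cast hM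
  have h1 : ((Ioo (-(H : ℤ)) H).filter fun x : ℤ => x % (M : ℤ) = r) ⊆
      (Ico (-(H : ℤ)) H).filter fun x : ℤ => x ≡ r [ZMOD (M : ℤ)] := by
    intro x hx
    rw [mem_filter, mem_Ioo] at hx
    rw [mem_filter, mem_Ico]
    refine ⟨⟨hx.1.1.le, hx.1.2⟩, ?_⟩
    rw [← hx.2]
    exact (Int.mod_modEq x M).symm
  have h2 := Int.Ico_filter_modEq_card (-(H : ℤ)) (H : ℤ) hM0 r
  have h3 : ((((Ico (-(H : ℤ)) H).filter fun x : ℤ => x ≡ r [ZMOD (M : ℤ)]).card : ℤ) : ℚ) ≤ 2 * H / M + 1 := by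
    rw [h2]
    rw [Int.cast_max]
    apply max_le
    · rw [Int.cast_sub]
      have h4 := Int.ceil_lt_add_one (((H : ℤ) - r : ℚ) / ((M : ℤ) : ℚ))
      have h5 := Int.le_ceil (((-(H : ℤ) : ℤ) - r : ℚ) / ((M : ℤ) : ℚ))
      have h6 : ((H : ℤ) - r : ℚ) / ((M : ℤ) : ℚ) - ((-(H : ℤ) : ℤ) - r : ℚ) / ((M : ℤ) : ℚ) = 2 * H / M := by
        rw [← sub_div]
        push_cast
        ring
      linarith
    · simp only [Int.cast_zero]
      positivity
  have h4 : (((Ico (-(H : ℤ)) H).filter fun x : ℤ => x ≡ r [ZMOD (M : ℤ)]).card : ℝ) ≤ 2 * H / M + 1 := by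
    have h3' := (Rat.cast_le (K := ℝ)).mpr h3
    push_cast at h3'
    exact h3'
  have h5 : (1 : ℝ) ≤ H / M := by
    rw [le_div_iff₀ hMr, one_mul]
    exact_mod_cast hMH
  have h6 : ((((Ioo (-(H : ℤ)) H).filter fun x : ℤ => x % (M : ℤ) = r).card : ℕ) : ℝ) ≤
      (((Ico (-(H : ℤ)) H).filter fun x : ℤ => x ≡ r [ZMOD (M : ℤ)]).card : ℝ) := by
    exact_mod_cast Finset.card_le_card h1
  have h7 : (2 * H / M : ℝ) = 2 * (H / M) := by ring
  have h8 : (4 * H / M : ℝ) = 4 * (H / M) := by ring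
  rw [h8]
  rw [h7] at h4
  linarith

theorem kb3_fib {k : ℕ} (M H : ℕ) (hM : 1 ≤ M) (hMH : M ≤ H) (G : (Fin k → ℤ) → ℝ) (hG0 : ∀ h, 0 ≤ G h)
    (hG : ∀ h h' : Fin k → ℤ, (∀ i, (M : ℤ) ∣ h i - h' i) → G h = G h') :
    ∑ j ∈ bxS k H, G j ≤ (4 * H / M : ℝ) ^ k * ∑ h ∈ Fintype.piFinset (fun _ : Fin k => Ico (0 : ℤ) M), G h := by
  have hM0 : (0 : ℤ) < M := by exact_mod_cast hM
  have hmap : ∀ j ∈ bxS k H, (fun i => j i % (M : ℤ)) ∈ Fintype.piFinset (fun _ : Fin k => Ico (0 : ℤ) M) := by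
    intro j _
    rw [Fintype.mem_piFinset]
    intro i
    rw [mem_Ico]
    exact ⟨Int.emod_nonneg _ hM0.ne', Int.emod_lt_of_pos _ hM0⟩
  rw [← Finset.sum_fiberwise_of_maps_to hmap, Finset.mul_sum]
  apply Finset.sum_le_sum
  intro h _
  have h1 : ∑ j ∈ bxS k H with (fun i => j i % (M : ℤ)) = h, G j =
      ((bxS k H).filter fun j => (fun i => j i % (M : ℤ)) = h).card * G h := by
    rw [← nsmul_eq_mul, ← Finset.sum_const]
    apply Finset.sum_congr rfl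
    intro j hj
    rw [mem_filter] at hj
    apply hG
    intro i
    rw [← hj.2]
    exact Int.dvd_self_sub_emod
  rw [h1]
  apply mul_le_mul_of_nonneg_right _ (hG0 h)
  have h2 : ((bxS k H).filter fun j => (fun i => j i % (M : ℤ)) = h) ⊆
      Fintype.piFinset fun i => (Ioo (-(H : ℤ)) H).filter fun x : ℤ => x % (M : ℤ) = h i := by
    intro j hj
    rw [mem_filter, bxS, Fintype.mem_piFinset] at hj
    rw [Fintype.mem_piFinset]
    intro i
    rw [mem_filter]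
    exact ⟨hj.1 i, congrFun hj.2 i⟩
  have h3 : (((bxS k H).filter fun j => (fun i => j i % (M : ℤ)) = h).card : ℝ) ≤
      ∏ i : Fin k, (((Ioo (-(H : ℤ)) H).filter fun x : ℤ => x % (M : ℤ) = h i).card : ℝ) := by
    have := Finset.card_le_card h2
    rw [Fintype.card_piFinset] at this
    exact_mod_cast this
  refine h3.trans ?_
  calc ∏ i : Fin k, (((Ioo (-(H : ℤ)) H).filter fun x : ℤ => x % (M : ℤ) = h i).card : ℝ)
      ≤ ∏ i : Fin k, (4 * H / M : ℝ) := by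
        apply Finset.prod_le_prod
        · intro i _; positivity
        · intro i _; exact kb3_card M H hM hMH (h i)
    _ = (4 * H / M : ℝ) ^ k := by rw [Finset.prod_const, Finset.card_univ, Fintype.card_fin]

/-- Proof. (1) For every `j`: `‖∑ l ∈ range H, φ (n + l) j‖ ≤ (H / M) ‖∑ y ∈ Ico 0 M, φ y j‖ + M S`: write `H = M q + ρ`, `q = H / M ≤ H / M` (real),
`ρ < M`; each of the `q` blocks of `M` consecutive integers gives `∑ y ∈ Ico 0 M, φ y j` by periodicity (a block of `M` consecutive integers is a complete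
system of residues: e.g. `Int.emod` is a bijection from `Ico a (a + M)` to `Ico 0 M`), the rest is at most `ρ S`. (2) `G j = ‖∑ y ∈ Ico 0 M, φ y j‖` is
non-negative and depends only on the residues of `j`; the map `bxS k H → piFinset (Ico 0 M)`, `j ↦ (fun i => j i % M)`, has fibres of size at most
`(4 H / M)^k`: in `(-H, H)` there are at most `2 H / M + 2 ≤ 4 H / M` integers in a residue class (`M ≤ H`). So
`∑_{j ∈ bxS k H} G j ≤ (4 H / M)^k M^(k+1) Av k M φ`. (3) `card (bxS k H) ≤ (2 H)^k`. Total: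
`(H / M) (4 H / M)^k M^(k+1) Av = 4^k H^(k+1) Av`, plus `(2 H)^k M S`. -/
theorem KB3_long {k : ℕ} (M H : ℕ) (hM : 1 ≤ M) (hMH : M ≤ H) (φ : ℤ → (Fin k → ℤ) → ℂ) (hφ : Pe M φ)
    (S : ℝ) (hS : ∀ y h, ‖φ y h‖ ≤ S) (n : ℤ) :
    ∑ j ∈ bxS k H, ‖∑ l ∈ range H, φ (n + l) j‖ ≤
      4 ^ k * (H : ℝ) ^ (k + 1) * Av k M φ + (2 * H) ^ k * M * S := by
  have hMr : (0 : ℝ) < M := by exact_mod_cast hM
  have hS0 : 0 ≤ S := (norm_nonneg _).trans (hS 0 0)
  have h0 : ∀ (y : ℤ) (h h' : Fin k → ℤ), (∀ i, (M : ℤ) ∣ h i - h' i) → φ y h = φ y h' :=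
    fun y h h' hh => hφ y y h h' (by simp) hh
  have h1 : ∀ j ∈ bxS k H, ‖∑ l ∈ range H, φ (n + l) j‖ ≤
      ((H : ℝ) / M) * ‖∑ y ∈ Ico (0 : ℤ) M, φ y j‖ + M * S := by
    intro j _
    exact kb3_one M H hM (fun y => φ y j) (fun y y' hy => hφ y y' j j hy (by simp)) S (fun y => hS y j) n
  refine (Finset.sum_le_sum h1).trans ?_
  rw [Finset.sum_add_distrib, ← Finset.mul_sum, Finset.sum_const, nsmul_eq_mul]
  apply add_le_add
  · have h2 := kb3_fib M H hM hMH (fun j => ‖∑ y ∈ Ico (0 : ℤ) M, φ y j‖) (fun _ => norm_nonneg _)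
      (fun h h' hh => by
        show ‖_‖ = ‖_‖
        congr 1
        exact Finset.sum_congr rfl fun y _ => h0 y h h' hh)
    refine (mul_le_mul_of_nonneg_left h2 (by positivity)).trans (le_of_eq ?_)
    unfold Av
    rw [div_pow, mul_pow]
    field_simp
    ring
  · have h3 : ((bxS k H).card : ℝ) ≤ (2 * H) ^ k := by
      unfold bxS
      rw [Fintype.card_piFinset]
      simp only [Int.card_Ioo, Finset.prod_const, Finset.card_univ, Fintype.card_fin]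
      rw [Nat.cast_pow]
      apply pow_le_pow_left₀ (by positivity)
      have : ((H : ℤ) - -(H : ℤ) - 1).toNat ≤ 2 * H := by omega
      exact_mod_cast this
    rw [mul_assoc]
    exact mul_le_mul_of_nonneg_right h3 (by positivity)

end Pool.Agent.HUK
end

-- from Lib.HUK.KB10
section

/-!
# Project HUK, chunk KB10 (M/L): frozen coefficient, short averages
-/

open Finset

namespace Pool.Agent.HUK

theorem kb10_cjn (n : ℕ) (z : ℂ) : ‖cj n z‖ = ‖z‖ := by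
  unfold cj
  split_ifs
  · rfl
  · exact RCLike.norm_conj z

theorem kb10_cjs (n : ℕ) (a b : ℂ) : cj n (a - b) = cj n a - cj n b := by
  unfold cj
  split_ifs
  · rfl
  · exact map_sub _ _ _

theorem kb10_prod {ι : Type*} [DecidableEq ι] (s : Finset ι) (u u' : ι → ℂ) (S ε : ℝ) (hS : 0 ≤ S) (hε : 0 ≤ ε)
    (hu : ∀ i, ‖u i‖ ≤ S) (hu' : ∀ i, ‖u' i‖ ≤ S) (h : ∀ i, ‖u i - u' i‖ ≤ ε * S) :
    ‖∏ i ∈ s, u i - ∏ i ∈ s, u' i‖ ≤ s.card * ε * S ^ s.card := by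
  induction s using Finset.induction_on with
  | empty => simp
  | insert a t ha ih =>
    rw [prod_insert ha, prod_insert ha, card_insert_of_notMem ha]
    have h1 : u a * ∏ i ∈ t, u i - u' a * ∏ i ∈ t, u' i =
        (u a - u' a) * ∏ i ∈ t, u i + u' a * (∏ i ∈ t, u i - ∏ i ∈ t, u' i) := by ring
    rw [h1]
    have h2 : ‖∏ i ∈ t, u i‖ ≤ S ^ t.card := by
      rw [norm_prod]
      calc _ ≤ ∏ i ∈ t, S := prod_le_prod (fun _ _ => norm_nonneg _) fun i _ => hu i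
        _ = _ := prod_const _
    calc ‖(u a - u' a) * ∏ i ∈ t, u i + u' a * (∏ i ∈ t, u i - ∏ i ∈ t, u' i)‖ ≤
        ‖u a - u' a‖ * ‖∏ i ∈ t, u i‖ + ‖u' a‖ * ‖∏ i ∈ t, u i - ∏ i ∈ t, u' i‖ := by
          refine (norm_add_le _ _).trans ?_
          rw [norm_mul, norm_mul]
      _ ≤ ε * S * S ^ t.card + S * (t.card * ε * S ^ t.card) :=
          add_le_add (mul_le_mul (h a) h2 (norm_nonneg _) (by positivity)) (mul_le_mul (hu' a) ih (norm_nonneg _) hS)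
      _ = _ := by push_cast; ring

/-- Perturbation of the product over the vertices. Proof. `cj n` is multiplicative and an isometry, additive. Replace the factors one by one
(`Finset.prod_add_one..`, or induction over a finset of vertices): for `n` factors `‖∏ u_i - ∏ u'_i‖ ≤ n ε S^n` if all `‖u_i‖, ‖u'_i‖ ≤ S`, `1 ≤ S`,
`‖u_i - u'_i‖ ≤ ε S`; here `u = cj (a ω * b ω)`, `u' = cj (a0 * b ω)`, `n = 2^k`. -/
theorem KB10_pert {k : ℕ} (a b : (Fin k → Bool) → ℂ) (a0 : ℂ) (S ε : ℝ) (hS : 1 ≤ S) (ha : ∀ ω, ‖a ω‖ ≤ 1) (ha0 : ‖a0‖ ≤ 1)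
    (hb : ∀ ω, ‖b ω‖ ≤ S) (hε : ∀ ω, ‖a ω - a0‖ ≤ ε) :
    ‖∏ ω, cj (sg ω) (a ω * b ω) - (∏ ω : Fin k → Bool, cj (sg ω) a0) * ∏ ω, cj (sg ω) (b ω)‖ ≤ 2 ^ k * ε * S ^ (2 ^ k) := by
  have hε0 : 0 ≤ ε := (norm_nonneg _).trans (hε fun _ => false)
  have hS0 : 0 ≤ S := by linarith
  rw [← prod_mul_distrib]
  have hc : (univ : Finset (Fin k → Bool)).card = 2 ^ k := by
    rw [card_univ, Fintype.card_fun, Fintype.card_bool, Fintype.card_fin]
  have h1 := kb10_prod (univ : Finset (Fin k → Bool)) (fun ω => cj (sg ω) (a ω * b ω))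
    (fun ω => cj (sg ω) a0 * cj (sg ω) (b ω)) S ε hS0 hε0 (fun ω => ?_) (fun ω => ?_) (fun ω => ?_)
  · rw [hc] at h1
    push_cast at h1
    exact h1
  · rw [kb10_cjn, norm_mul]
    exact (mul_le_of_le_one_left (norm_nonneg _) (ha ω)).trans (hb ω)
  · rw [norm_mul, kb10_cjn, kb10_cjn]
    exact (mul_le_of_le_one_left (norm_nonneg _) ha0).trans (hb ω)
  · rw [← p0_cj_mul, ← kb10_cjs, kb10_cjn, ← sub_mul, norm_mul]
    exact mul_le_mul (hε ω) (hb ω) (norm_nonneg _) hε0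

/-- `|vl ω j| ≤ k² H` for `j ∈ bxS k H`. -/
theorem KB10_vl {k : ℕ} (H : ℕ) (ω : Fin k → Bool) (j : Fin k → ℤ) (hj : j ∈ bxS k H) : |vl ω j| ≤ (k : ℤ) ^ 2 * H := by
  unfold vl vt
  refine (abs_sum_le_sum_abs _ _).trans ?_
  calc ∑ i, |if ω i = true then lam k i * j i else 0| ≤ ∑ i : Fin k, (k : ℤ) * H := by
        refine sum_le_sum fun i _ => ?_
        have h1 : |j i| ≤ H := by
          have := mem_Ioo.1 (Fintype.mem_piFinset.1 hj i)
          exact abs_le.2 ⟨by omega, by omega⟩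
        have h2 : |lam k i| ≤ k := by
          unfold lam
          have := i.2
          rw [abs_le]
          constructor <;> omega
        split_ifs
        · rw [abs_mul]
          exact mul_le_mul h2 h1 (abs_nonneg _) (by positivity)
        · rw [abs_zero]
          positivity
    _ = (k : ℤ) ^ 2 * H := by
        rw [sum_const, card_univ, Fintype.card_fin, nsmul_eq_mul]
        ring

theorem kb10_lip (β : ℤ → ℂ) (δ : ℝ) (u v : ℤ) (hL : ∀ m, u ≤ m → m + 1 < v → ‖β (m + 1) - β m‖ ≤ δ) (d : ℕ) :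
    ∀ m, u ≤ m → m + d < v → ‖β (m + d) - β m‖ ≤ d * δ := by
  induction d with
  | zero =>
    intro m _ _
    simp
  | succ d ih =>
    intro m h1 h2
    push_cast at h2 ⊢
    have h3 := ih m h1 (by omega)
    have h4 := hL (m + d) (by omega) (by omega)
    have h5 : β (m + (d + 1)) - β m = (β (m + d + 1) - β (m + d)) + (β (m + d) - β m) := by
      rw [← add_assoc]
      ring
    rw [h5]
    calc _ ≤ _ := norm_add_le _ _
      _ ≤ δ + d * δ := add_le_add h4 h3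
      _ = _ := by ring

theorem kb10_lip' (β : ℤ → ℂ) (δ : ℝ) (hδ : 0 ≤ δ) (u v : ℤ) (hL : ∀ m, u ≤ m → m + 1 < v → ‖β (m + 1) - β m‖ ≤ δ)
    (x y D : ℤ) (hx : u ≤ x) (hx' : x < v) (hy : u ≤ y) (hy' : y < v) (hD : |x - y| ≤ D) : ‖β x - β y‖ ≤ (D : ℝ) * δ := by
  have key : ∀ x y : ℤ, u ≤ x → y < v → x ≤ y → y - x ≤ D → ‖β y - β x‖ ≤ (D : ℝ) * δ := by
    intro x y h1 h2 h3 h4
    obtain ⟨d, hd⟩ := Int.eq_ofNat_of_zero_le (sub_nonneg.2 h3)
    have h5 : y = x + d := by omega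
    rw [h5]
    refine (kb10_lip β δ u v hL d x h1 (by omega)).trans (mul_le_mul_of_nonneg_right ?_ hδ)
    have : (d : ℤ) ≤ D := by omega
    exact_mod_cast this
  rw [abs_le] at hD
  rcases le_total x y with h | h
  · rw [norm_sub_rev]
    exact key x y hx hy' h (by omega)
  · exact key y x hy hx' h (by omega)

theorem kb10_shift (G : ℤ → ℂ) (u v : ℤ) (H : ℕ) (hG : ∀ m, m ∉ Ico u v → G m = 0) :
    (H : ℂ) * ∑ m ∈ Ico u v, G m = ∑ n ∈ Ico (u - H) v, ∑ l ∈ range H, G (n + l) := by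
  rw [Finset.sum_comm]
  have h1 : ∀ l ∈ range H, ∑ n ∈ Ico (u - H) v, G (n + l) = ∑ m ∈ Ico u v, G m := by
    intro l hl
    rw [mem_range] at hl
    have h2 : ∑ n ∈ Ico (u - H) v, G (n + l) = ∑ m ∈ Ico (u - H + l) (v + l), G m := by
      refine Finset.sum_bij' (fun n _ => n + l) (fun m _ => m - l) ?_ ?_ ?_ ?_ ?_
      · intro n hn
        rw [mem_Ico] at hn ⊢
        omega
      · intro n hn
        rw [mem_Ico] at hn ⊢
        omega
      · intro n _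
        ring
      · intro n _
        ring
      · intro n _
        rfl
    rw [h2]
    symm
    refine Finset.sum_subset (fun m hm => ?_) fun m _ hm => hG m hm
    rw [mem_Ico] at hm ⊢
    omega
  rw [sum_congr rfl h1, sum_const, card_range, nsmul_eq_mul]

theorem kb10_ite (s t : Finset ℤ) (a : ℤ → ℝ) (ha : ∀ n, 0 ≤ a n) : ∑ n ∈ s, (if n ∈ t then a n else 0) ≤ ∑ n ∈ t, a n := by
  rw [Finset.sum_ite_mem]
  exact sum_le_sum_of_subset_of_nonneg inter_subset_right fun n _ _ => ha n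

theorem kb10_card (a b : ℤ) (h : a ≤ b) : ((Ico a b).card : ℝ) = b - a := by
  rw [Int.card_Ico]
  have h1 : (((b - a).toNat : ℤ) : ℝ) = ((b - a : ℤ) : ℝ) := by rw [Int.toNat_of_nonneg (by omega)]
  push_cast at h1
  exact h1

theorem kb10_DLn {k : ℕ} (F : ℤ → ℂ) (S : ℝ) (hF : ∀ m, ‖F m‖ ≤ S) (h : Fin k → ℤ) (m : ℤ) :
    ‖DL (List.ofFn h) F m‖ ≤ S ^ (2 ^ k) := by
  rw [DL_prod, norm_prod]
  calc _ ≤ ∏ ω : Fin k → Bool, S := prod_le_prod (fun _ _ => norm_nonneg _) fun ω _ => by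
          rw [kb10_cjn]
          exact hF _
    _ = S ^ (2 ^ k) := by rw [prod_const, card_univ, Fintype.card_fun, Fintype.card_bool, Fintype.card_fin]

/-- The good values of `n`. -/
theorem kb10_good {k : ℕ} (β V : ℤ → ℂ) (S δ : ℝ) (u v : ℤ) (H : ℕ) (hS : 1 ≤ S) (hδ : 0 ≤ δ)
    (hβ : ∀ m, u ≤ m → m < v → ‖β m‖ ≤ 1) (hL : ∀ m, u ≤ m → m + 1 < v → ‖β (m + 1) - β m‖ ≤ δ) (hV : ∀ m, ‖V m‖ ≤ S)
    (j : Fin k → ℤ) (hj : j ∈ bxS k H) (n : ℤ) (hn : u + (k : ℤ) ^ 2 * H ≤ n) (hn' : n < v - (k : ℤ) ^ 2 * H - H) :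
    ‖∑ l ∈ range H, DL (List.ofFn fun i => lam k i * j i) (fun m => if m ∈ Ico u v then β m * V m else 0) (n + l)‖ ≤
      ‖∑ l ∈ range H, DL (List.ofFn fun i => lam k i * j i) V (n + l)‖ +
      H * (2 ^ k * ((H + (k : ℝ) ^ 2 * H) * δ) * S ^ (2 ^ k)) := by
  have hH1 : (0 : ℤ) ≤ (k : ℤ) ^ 2 * H := by positivity
  have hβn : ‖β n‖ ≤ 1 := hβ n (by omega) (by omega)
  obtain ⟨P, hP⟩ : ∃ P : ℂ, P = ∏ ω : Fin k → Bool, cj (sg ω) (β n) := ⟨_, rfl⟩
  have hPn : ‖P‖ ≤ 1 := by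
    rw [hP, norm_prod]
    exact prod_le_one (fun _ _ => norm_nonneg _) fun ω _ => by
      rw [kb10_cjn]
      exact hβn
  have key : ∀ l ∈ range H, ‖DL (List.ofFn fun i => lam k i * j i) (fun m => if m ∈ Ico u v then β m * V m else 0) (n + l) -
      P * DL (List.ofFn fun i => lam k i * j i) V (n + l)‖ ≤ 2 ^ k * ((H + (k : ℝ) ^ 2 * H) * δ) * S ^ (2 ^ k) := by
    intro l hl
    rw [mem_range] at hl
    have hin : ∀ ω : Fin k → Bool, u ≤ n + l + vl ω j ∧ n + l + vl ω j < v := by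
      intro ω
      have h1 := abs_le.1 (KB10_vl H ω j hj)
      constructor <;> omega
    have h1 := KB10_pert (fun ω => β (n + l + vl ω j)) (fun ω => V (n + l + vl ω j)) (β n) S ((H + (k : ℝ) ^ 2 * H) * δ) hS
      (fun ω => hβ _ (hin ω).1 (hin ω).2) hβn (fun ω => hV _) (fun ω => ?_)
    · rw [DL_prod, DL_prod, hP]
      refine le_trans (le_of_eq ?_) h1
      congr 2
      refine prod_congr rfl fun ω _ => ?_
      have h2 : n + l + vt ω (fun i => lam k i * j i) ∈ Ico u v := mem_Ico.2 (hin ω)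
      rw [if_pos h2]
      rfl
    · have h2 := kb10_lip' β δ hδ u v hL (n + l + vl ω j) n (H + (k : ℤ) ^ 2 * H) (hin ω).1 (hin ω).2 (by omega) (by omega) (by
        have h1 := abs_le.1 (KB10_vl H ω j hj)
        rw [abs_le]
        constructor <;> omega)
      push_cast at h2
      exact h2
  have h1 : ∑ l ∈ range H, DL (List.ofFn fun i => lam k i * j i) (fun m => if m ∈ Ico u v then β m * V m else 0) (n + l) =
      P * ∑ l ∈ range H, DL (List.ofFn fun i => lam k i * j i) V (n + l) +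
      ∑ l ∈ range H, (DL (List.ofFn fun i => lam k i * j i) (fun m => if m ∈ Ico u v then β m * V m else 0) (n + l) -
        P * DL (List.ofFn fun i => lam k i * j i) V (n + l)) := by
    rw [sum_sub_distrib, ← Finset.mul_sum]
    ring
  rw [h1]
  refine (norm_add_le _ _).trans (add_le_add ?_ ?_)
  · rw [norm_mul]
    exact mul_le_of_le_one_left (norm_nonneg _) hPn
  · refine (norm_sum_le _ _).trans ((sum_le_sum key).trans (le_of_eq ?_))
    rw [sum_const, card_range, nsmul_eq_mul]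

theorem kb10_one {k : ℕ} (β V : ℤ → ℂ) (S δ : ℝ) (u v : ℤ) (H : ℕ) (hH : 1 ≤ H) (huv : u ≤ v) (hS : 1 ≤ S) (hδ : 0 ≤ δ)
    (hβ : ∀ m, u ≤ m → m < v → ‖β m‖ ≤ 1) (hL : ∀ m, u ≤ m → m + 1 < v → ‖β (m + 1) - β m‖ ≤ δ) (hV : ∀ m, ‖V m‖ ≤ S)
    (j : Fin k → ℤ) (hj : j ∈ bxS k H) :
    ‖∑ m ∈ Ico u v, DL (List.ofFn fun i => lam k i * j i) (fun m => if m ∈ Ico u v then β m * V m else 0) m‖ ≤
      (∑ n ∈ Ico u v, ‖∑ l ∈ range H, DL (List.ofFn fun i => lam k i * j i) V (n + l)‖) / H +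
      (2 : ℝ) ^ (k + 1) * (1 + (k : ℝ) ^ 2) * S ^ (2 ^ k) * ((v - u : ℝ) * (H * δ) + H) := by
  have hHr : (1 : ℝ) ≤ H := by exact_mod_cast hH
  have hH0 : (0 : ℝ) < H := by linarith
  have hS0 : 0 < S := by linarith
  obtain ⟨G, hG⟩ : ∃ G : ℤ → ℂ, G = DL (List.ofFn fun i => lam k i * j i) (fun m => if m ∈ Ico u v then β m * V m else 0) :=
    ⟨_, rfl⟩
  have hgood := fun n hn hn' => kb10_good β V S δ u v H hS hδ hβ hL hV j hj n hn hn'
  rw [← hG] at hgood ⊢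
  have hGs : ∀ m, m ∉ Ico u v → G m = 0 := by
    intro m hm
    rw [hG]
    exact DL_supp _ _ _ (if_neg hm)
  have hGn : ∀ m, ‖G m‖ ≤ S ^ (2 ^ k) := by
    intro m
    rw [hG]
    refine kb10_DLn _ S (fun m => ?_) _ m
    split_ifs with h
    · rw [mem_Ico] at h
      rw [norm_mul]
      exact (mul_le_of_le_one_left (norm_nonneg _) (hβ m h.1 h.2)).trans (hV m)
    · rw [norm_zero]
      exact hS0.le
  have hsum := kb10_shift G u v H hGs
  obtain ⟨H1, hH1⟩ : ∃ H1 : ℤ, H1 = (k : ℤ) ^ 2 * H := ⟨_, rfl⟩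
  have hH10 : 0 ≤ H1 := by rw [hH1]; positivity
  have hH1r : (H1 : ℝ) = (k : ℝ) ^ 2 * H := by rw [hH1]; push_cast; ring
  obtain ⟨g, hg⟩ : ∃ g : ℤ → ℝ, g = fun n => ‖∑ l ∈ range H, DL (List.ofFn fun i => lam k i * j i) V (n + l)‖ := ⟨_, rfl⟩
  have hg0 : ∀ n, 0 ≤ g n := by
    intro n
    rw [hg]
    exact norm_nonneg _
  obtain ⟨E1, hE1⟩ : ∃ E1 : ℝ, E1 = H * (2 ^ k * ((H + (k : ℝ) ^ 2 * H) * δ) * S ^ (2 ^ k)) := ⟨_, rfl⟩
  have hE10 : 0 ≤ E1 := by rw [hE1]; positivity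
  obtain ⟨E2, hE2⟩ : ∃ E2 : ℝ, E2 = H * S ^ (2 ^ k) := ⟨_, rfl⟩
  have hE20 : 0 ≤ E2 := by rw [hE2]; positivity
  have hpt : ∀ n ∈ Ico (u - H) v, ‖∑ l ∈ range H, G (n + l)‖ ≤ (if n ∈ Ico u v then g n + E1 else 0) +
      (if n ∈ Ico (u - H) (u + H1) then E2 else 0) + (if n ∈ Ico (v - H1 - H) v then E2 else 0) := by
    intro n hn
    have hn0 := mem_Ico.1 hn
    have hbad : ‖∑ l ∈ range H, G (n + l)‖ ≤ E2 := by
      refine (norm_sum_le _ _).trans ((sum_le_sum fun l _ => hGn _).trans (le_of_eq ?_))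
      rw [sum_const, card_range, nsmul_eq_mul, hE2]
    have h0 : 0 ≤ (if n ∈ Ico u v then g n + E1 else 0) := by
      split_ifs
      · exact add_nonneg (hg0 n) hE10
      · exact le_refl _
    by_cases h1 : n ∈ Ico (u - H) (u + H1)
    · rw [if_pos h1]
      have h2 : 0 ≤ (if n ∈ Ico (v - H1 - H) v then E2 else 0) := by
        split_ifs
        · exact hE20
        · exact le_refl _
      linarith
    · by_cases h2 : n ∈ Ico (v - H1 - H) v
      · rw [if_neg h1, if_pos h2]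
        linarith
      · rw [mem_Ico] at h1 h2
        have h3 : u + H1 ≤ n := by omega
        have h4 : n < v - H1 - H := by omega
        rw [if_pos (mem_Ico.2 ⟨by omega, hn0.2⟩), if_neg (by rw [mem_Ico]; exact h1), if_neg (by rw [mem_Ico]; exact h2),
          add_zero, add_zero, hg, hE1]
        exact hgood n (by rw [← hH1]; exact h3) (by rw [← hH1]; exact h4)
  have hb1 : (H : ℝ) * ‖∑ m ∈ Ico u v, G m‖ ≤ (∑ n ∈ Ico u v, g n) + (v - u : ℝ) * E1 + 2 * ((H + H1) * E2) := by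
    calc (H : ℝ) * ‖∑ m ∈ Ico u v, G m‖ = ‖(H : ℂ) * ∑ m ∈ Ico u v, G m‖ := by rw [norm_mul, Complex.norm_natCast]
      _ = ‖∑ n ∈ Ico (u - H) v, ∑ l ∈ range H, G (n + l)‖ := by rw [hsum]
      _ ≤ ∑ n ∈ Ico (u - H) v, ‖∑ l ∈ range H, G (n + l)‖ := norm_sum_le _ _
      _ ≤ ∑ n ∈ Ico (u - H) v, ((if n ∈ Ico u v then g n + E1 else 0) +
          (if n ∈ Ico (u - H) (u + H1) then E2 else 0) + (if n ∈ Ico (v - H1 - H) v then E2 else 0)) := sum_le_sum hpt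
      _ = ∑ n ∈ Ico (u - H) v, (if n ∈ Ico u v then g n + E1 else 0) +
          ∑ n ∈ Ico (u - H) v, (if n ∈ Ico (u - H) (u + H1) then E2 else 0) +
          ∑ n ∈ Ico (u - H) v, (if n ∈ Ico (v - H1 - H) v then E2 else 0) := by
          rw [sum_add_distrib, sum_add_distrib]
      _ ≤ ∑ n ∈ Ico u v, (g n + E1) + ∑ n ∈ Ico (u - H) (u + H1), E2 + ∑ n ∈ Ico (v - H1 - H) v, E2 :=
          add_le_add (add_le_add (kb10_ite _ _ _ fun n => add_nonneg (hg0 n) hE10) (kb10_ite _ _ _ fun _ => hE20))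
            (kb10_ite _ _ _ fun _ => hE20)
      _ = _ := by
          rw [sum_add_distrib, sum_const, sum_const, sum_const, nsmul_eq_mul, nsmul_eq_mul, nsmul_eq_mul, kb10_card u v huv,
            kb10_card _ _ (by omega), kb10_card _ _ (by omega)]
          push_cast
          ring
  have hvu : (0 : ℝ) ≤ v - u := by
    have : (u : ℝ) ≤ v := by exact_mod_cast huv
    linarith
  have hg' : ∑ n ∈ Ico u v, ‖∑ l ∈ range H, DL (List.ofFn fun i => lam k i * j i) V (n + l)‖ = ∑ n ∈ Ico u v, g n := by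
    rw [hg]
  rw [hg']
  have hb2 : ‖∑ m ∈ Ico u v, G m‖ ≤ (∑ n ∈ Ico u v, g n) / H + ((v - u : ℝ) * E1 + 2 * ((H + H1) * E2)) / H := by
    rw [← add_div, le_div_iff₀ hH0, mul_comm]
    linarith
  refine hb2.trans (add_le_add le_rfl ?_)
  rw [div_le_iff₀ hH0, hE1, hE2, hH1r]
  have hA : (0 : ℝ) ≤ H * S ^ (2 ^ k) * (1 + (k : ℝ) ^ 2) * H := by positivity
  have h2k : (1 : ℝ) ≤ 2 ^ k := one_le_pow₀ (by norm_num)
  have h3 : (v - u : ℝ) * (H * (2 ^ k * ((H + (k : ℝ) ^ 2 * H) * δ) * S ^ (2 ^ k))) +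
      2 * ((H + (k : ℝ) ^ 2 * H) * (H * S ^ (2 ^ k))) =
      (H * S ^ (2 ^ k) * (1 + (k : ℝ) ^ 2) * H) * (2 ^ k * ((v - u : ℝ) * δ) + 2) := by ring
  have h4 : (2 : ℝ) ^ (k + 1) * (1 + (k : ℝ) ^ 2) * S ^ (2 ^ k) * ((v - u : ℝ) * (H * δ) + H) * H =
      (H * S ^ (2 ^ k) * (1 + (k : ℝ) ^ 2) * H) * (2 * 2 ^ k * ((v - u : ℝ) * δ) + 2 * 2 ^ k) := by
    rw [pow_succ]
    ring
  rw [h3, h4]
  refine mul_le_mul_of_nonneg_left ?_ hA
  have h5 : 0 ≤ 2 ^ k * ((v - u : ℝ) * δ) := by positivity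
  linarith

/-- Proof. Fix `j ∈ bxS k H`, `G = DL (..) F`, which vanishes outside `[u, v)` (`DL_supp`), `‖G‖ ≤ S^(2^k)` (`DL_prod`), `H1 = k² H`. Then
`H * ∑_{m ∈ Ico u v} G m = ∑_{n ∈ Ico (u - H) v} ∑_{l < H} G (n + l)`. For `u + H1 ≤ n < v - H1 - H` all the points `n + l + vl ω j` are in `[u, v)`
(`KB10_vl`), and `KB10_pert` with `a ω = β (n + l + vl ω j)`, `a0 = β n`, `b ω = V (n + l + vl ω j)`, `ε = (H + H1) δ` (Lipschitz, step by step):
`‖∑_{l<H} G (n + l)‖ ≤ ‖∑_{l<H} DL (..) V (n + l)‖ + H 2^k (H + H1) δ S^(2^k)` (`‖∏ cj (β n)‖ ≤ 1`). At most `2 (H + H1)` other values of `n`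
(`u - H ≤ n < u + H1` or `v - H1 - H ≤ n < v`), each with `‖∑_{l<H} G‖ ≤ H S^(2^k)`. Divide by `H`, sum over the at most `(2 H)^k` values of `j`;
`H + H1 = (1 + k²) H`, `C = 2^(2k+2) (1 + k²)`. -/
theorem KB10_frozen (k : ℕ) : ∃ C : ℝ, 0 < C ∧ ∀ (β V : ℤ → ℂ) (S δ : ℝ) (u v : ℤ) (H : ℕ), 1 ≤ H → u ≤ v → 1 ≤ S → 0 ≤ δ →
    (∀ m, u ≤ m → m < v → ‖β m‖ ≤ 1) → (∀ m, u ≤ m → m + 1 < v → ‖β (m + 1) - β m‖ ≤ δ) → (∀ m, ‖V m‖ ≤ S) →
    ∑ j ∈ bxS k H, ‖∑ m ∈ Ico u v, DL (List.ofFn fun i => lam k i * j i) (fun m => if m ∈ Ico u v then β m * V m else 0) m‖ ≤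
      (∑ n ∈ Ico u v, ∑ j ∈ bxS k H, ‖∑ l ∈ range H, DL (List.ofFn fun i => lam k i * j i) V (n + l)‖) / H +
      C * (H : ℝ) ^ k * S ^ (2 ^ k) * ((v - u : ℝ) * (H * δ) + H) := by
  refine ⟨(2 : ℝ) ^ k * ((2 : ℝ) ^ (k + 1) * (1 + (k : ℝ) ^ 2)), by positivity, ?_⟩
  intro β V S δ u v H hH huv hS hδ hβ hL hV
  have hH0 : (0 : ℝ) < H := by exact_mod_cast hH
  have hvu : (0 : ℝ) ≤ v - u := by
    have : (u : ℝ) ≤ v := by exact_mod_cast huv
    linarith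
  have hS0 : 0 < S := by linarith
  have hcard : ((bxS k H).card : ℝ) ≤ 2 ^ k * (H : ℝ) ^ k := by
    have h1 : (bxS k H).card ≤ (2 * H) ^ k := by
      unfold bxS
      rw [Fintype.card_piFinset_const, Int.card_Ioo]
      refine Nat.pow_le_pow_left ?_ k
      omega
    calc ((bxS k H).card : ℝ) ≤ (((2 * H) ^ k : ℕ) : ℝ) := by exact_mod_cast h1
      _ = _ := by push_cast; rw [mul_pow]
  calc _ ≤ ∑ j ∈ bxS k H, ((∑ n ∈ Ico u v, ‖∑ l ∈ range H, DL (List.ofFn fun i => lam k i * j i) V (n + l)‖) / H +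
      (2 : ℝ) ^ (k + 1) * (1 + (k : ℝ) ^ 2) * S ^ (2 ^ k) * ((v - u : ℝ) * (H * δ) + H)) :=
        sum_le_sum fun j hj => kb10_one β V S δ u v H hH huv hS hδ hβ hL hV j hj
    _ = (∑ n ∈ Ico u v, ∑ j ∈ bxS k H, ‖∑ l ∈ range H, DL (List.ofFn fun i => lam k i * j i) V (n + l)‖) / H +
      (bxS k H).card * ((2 : ℝ) ^ (k + 1) * (1 + (k : ℝ) ^ 2) * S ^ (2 ^ k) * ((v - u : ℝ) * (H * δ) + H)) := by
        rw [sum_add_distrib, ← Finset.sum_div, Finset.sum_comm, sum_const, nsmul_eq_mul]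
    _ ≤ (∑ n ∈ Ico u v, ∑ j ∈ bxS k H, ‖∑ l ∈ range H, DL (List.ofFn fun i => lam k i * j i) V (n + l)‖) / H +
      (2 ^ k * (H : ℝ) ^ k) * ((2 : ℝ) ^ (k + 1) * (1 + (k : ℝ) ^ 2) * S ^ (2 ^ k) * ((v - u : ℝ) * (H * δ) + H)) :=
        add_le_add le_rfl (mul_le_mul_of_nonneg_right hcard (by positivity))
    _ = _ := by ring

end Pool.Agent.HUK
end

-- from Lib.HUP.P3a
section

/-!
# Project HUP, chunk P3a (M): rules for differences along linear forms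
-/

open Finset

namespace Pool.Agent.HUP

open Pool.Agent.HUK (DD DL DV bxS FF GG fw WT cj sg vt)

noncomputable section

/-- The linear form with coefficients `c`. -/
def lft {d : ℕ} (c : Fin d → ℤ) (t : Fin d → ℤ) : ℤ := ∑ j, c j * t j

/-- The box with corner `b` and sides `s` in `ℤ^d`. -/
def bZ {d : ℕ} (b : Fin d → ℤ) (s : Fin d → ℕ) : Finset (Fin d → ℤ) := Fintype.piFinset fun j => Ico (b j) (b j + s j)

end

theorem p3_lf_add {d : ℕ} (c t u : Fin d → ℤ) : lft c (t + u) = lft c t + lft c u := by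
  unfold lft
  rw [← Finset.sum_add_distrib]
  exact Finset.sum_congr rfl fun j _ => by rw [Pi.add_apply, mul_add]

theorem p3_lf_smul {d : ℕ} (c : Fin d → ℤ) (a : ℤ) (t : Fin d → ℤ) : lft c (a • t) = a * lft c t := by
  unfold lft
  rw [Finset.mul_sum]
  exact Finset.sum_congr rfl fun j _ => by rw [Pi.smul_apply, smul_eq_mul]; ring

/-- Differences of a function of a linear form (induction on `r`, `List.ofFn_succ`). -/
theorem p3_comp {d r : ℕ} (c : Fin d → ℤ) (v : Fin r → Fin d → ℤ) (j : Fin r → ℤ) (f : ℤ → ℂ) (z : Fin d → ℤ) :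
    DL (List.ofFn fun i => j i • v i) (fun z => f (lft c z)) z = DV (fun i => lft c (v i) * j i) f (lft c z) := by
  unfold DV
  induction r generalizing f with
  | zero => rfl
  | succ r ih =>
    rw [List.ofFn_succ, List.ofFn_succ]
    have h1 : DD (j 0 • v 0) (fun z => f (lft c z)) = fun z => (DD (lft c (v 0) * j 0) f) (lft c z) := by
      funext z
      show f (lft c z) * (starRingEnd ℂ) (f (lft c (z + j 0 • v 0))) =
        f (lft c z) * (starRingEnd ℂ) (f (lft c z + lft c (v 0) * j 0))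
      rw [p3_lf_add, p3_lf_smul, mul_comm (j 0)]
    show DL (List.ofFn fun i : Fin r => j i.succ • v i.succ) (DD (j 0 • v 0) (fun z => f (lft c z))) z =
      DL (List.ofFn fun i : Fin r => lft c (v i.succ) * j i.succ) (DD (lft c (v 0) * j 0) f) (lft c z)
    rw [h1]
    exact ih (fun i => v i.succ) (fun i => j i.succ) (DD (lft c (v 0) * j 0) f)

/-- Translation and conjugation. -/
theorem p3_shift {r : ℕ} (h : Fin r → ℤ) (f : ℤ → ℂ) (a y : ℤ) : DV h (fun y => f (y + a)) y = DV h f (y + a) := by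
  unfold DV
  generalize List.ofFn h = l
  induction l generalizing f with
  | nil => rfl
  | cons k l ih =>
    have h1 : DD k (fun y => f (y + a)) = fun y => (DD k f) (y + a) := by
      funext z
      show f (z + a) * (starRingEnd ℂ) (f (z + k + a)) = f (z + a) * (starRingEnd ℂ) (f (z + a + k))
      rw [show z + k + a = z + a + k by ring]
    show DL l (DD k (fun y => f (y + a))) y = DL l (DD k f) (y + a)
    rw [h1]
    exact ih (DD k f)

theorem p3_conj {r : ℕ} (h : Fin r → ℤ) (f : ℤ → ℂ) (y : ℤ) :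
    DV h (fun y => (starRingEnd ℂ) (f y)) y = (starRingEnd ℂ) (DV h f y) := by
  unfold DV
  generalize List.ofFn h = l
  induction l generalizing f with
  | nil => rfl
  | cons k l ih =>
    have h1 : DD k (fun y => (starRingEnd ℂ) (f y)) = fun y => (starRingEnd ℂ) (DD k f y) := by
      funext z
      show (starRingEnd ℂ) (f z) * (starRingEnd ℂ) ((starRingEnd ℂ) (f (z + k))) =
        (starRingEnd ℂ) (f z * (starRingEnd ℂ) (f (z + k)))
      rw [map_mul]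
    show DL l (DD k (fun y => (starRingEnd ℂ) (f y))) y = (starRingEnd ℂ) (DL l (DD k f) y)
    rw [h1]
    exact ih (DD k f)

theorem p3a_zo {G : Type*} [AddCommGroup G] (l : List G) (F : G → ℂ) (hF : ∀ z, F z = 0 ∨ F z = 1) :
    ∀ z, DL l F z = 0 ∨ DL l F z = 1 := by
  induction l generalizing F with
  | nil => exact hF
  | cons k l ih =>
    show ∀ z, DL l (DD k F) z = 0 ∨ DL l (DD k F) z = 1
    refine ih (DD k F) fun z => ?_
    unfold DD
    rcases hF z with h | h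
    · left
      rw [h, zero_mul]
    · rcases hF (z + k) with h' | h'
      · left
        rw [h', map_zero, mul_zero]
      · right
        rw [h, h', map_one, mul_one]

/-- Differences of the indicator of `B` are indicators: `∃ u : G → ℝ` with values `0`, `1`, zero outside `B`. -/
theorem p3_ind {G : Type*} [AddCommGroup G] [DecidableEq G] (B : Finset G) (l : List G) :
    ∃ u : G → ℝ, (∀ z, u z = 0 ∨ u z = 1) ∧ ∀ z, DL l (fun z => if z ∈ B then (1 : ℂ) else 0) z = ((u z : ℝ) : ℂ) := by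
  have h := p3a_zo l (fun z => if z ∈ B then (1 : ℂ) else 0) (fun z => by
    by_cases hz : z ∈ B
    · right
      exact if_pos hz
    · left
      exact if_neg hz)
  have h2 : ∀ z, ∃ w : ℝ, (w = 0 ∨ w = 1) ∧ DL l (fun z => if z ∈ B then (1 : ℂ) else 0) z = ((w : ℝ) : ℂ) := by
    intro z
    rcases h z with h1 | h1
    · exact ⟨0, Or.inl rfl, by rw [h1, Complex.ofReal_zero]⟩
    · exact ⟨1, Or.inr rfl, by rw [h1, Complex.ofReal_one]⟩
  choose u hu hu2 using h2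
  exact ⟨u, hu, hu2⟩


end Pool.Agent.HUP
end

-- from Lib.HUP.P3b
section

/-!
# Project HUP, chunk P3b (M): counting
-/

open Finset

namespace Pool.Agent.HUP

open Pool.Agent.HUK (DD DL DV bxS FF GG fw WT)

/-- A linear form `c ≠ 0` takes every value at most `∏_(j ≠ l) s j` times on the box, where `c l ≠ 0`: a point is determined by
the value and the coordinates `≠ l`. -/
theorem p3_fib {d : ℕ} (b : Fin d → ℤ) (s : Fin d → ℕ) (c : Fin d → ℤ) (l : Fin d) (hl : c l ≠ 0) (a : ℤ) :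
    ((bZ b s).filter (fun z => lft c z = a)).card ≤ ∏ j ∈ univ.erase l, s j := by
  classical
  have hcard : ((Fintype.piFinset fun j : Fin d => if j = l then ({0} : Finset ℤ) else Ico (b j) (b j + s j)).card) = ∏ j ∈ univ.erase l, s j := by
    rw [Fintype.card_piFinset, ← Finset.mul_prod_erase Finset.univ _ (Finset.mem_univ l)]
    have h1 : ∀ x ∈ Finset.univ.erase l, (if x = l then ({0} : Finset ℤ) else Ico (b x) (b x + s x)).card = s x := by
      intro x hx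
      rw [if_neg (Finset.ne_of_mem_erase hx)]
      simp
    rw [Finset.prod_congr rfl h1]
    simp
  rw [← hcard]
  refine Finset.card_le_card_of_injOn (fun z => Function.update z l 0) ?_ ?_
  · intro z hz
    simp only [Finset.coe_filter, Set.mem_ofPred_eq] at hz
    have hz1 := hz.1
    unfold bZ at hz1
    rw [Fintype.mem_piFinset] at hz1
    simp only [Finset.mem_coe]
    rw [Fintype.mem_piFinset]
    intro j
    by_cases hj : j = l
    · subst hj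
      simp
    · rw [if_neg hj, Function.update_of_ne hj]
      exact hz1 j
  · intro z hz z' hz' h
    simp only [Finset.coe_filter, Set.mem_ofPred_eq] at hz hz'
    have h1 : ∀ j, j ≠ l → z j = z' j := by
      intro j hj
      have h2 := congrFun h j
      simp only [Function.update_of_ne hj] at h2
      exact h2
    have h2 : lft c z = lft c z' := by rw [hz.2, hz'.2]
    unfold lft at h2
    rw [← Finset.add_sum_erase Finset.univ _ (Finset.mem_univ l), ← Finset.add_sum_erase Finset.univ (fun j => c j * z' j) (Finset.mem_univ l)] at h2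
    have h3 : ∑ x ∈ Finset.univ.erase l, c x * z x = ∑ x ∈ Finset.univ.erase l, c x * z' x := by
      refine Finset.sum_congr rfl fun x hx => ?_
      rw [h1 x (Finset.ne_of_mem_erase hx)]
    rw [h3] at h2
    have h4 : c l * z l = c l * z' l := by linarith
    have h5 := mul_left_cancel₀ hl h4
    funext j
    by_cases hj : j = l
    · subst hj
      exact h5
    · exact h1 j hj





end Pool.Agent.HUP
end
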