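import Pool.Agent.Lib.H59M.M2.M056
import Pool.Agent.Lib.H59M.M2.M057

/-! Merged copies (to shorten the build) of Lib.HPP.A4, Lib.HPP.A5, Lib.HPP.A6, Lib.HPP.A7a, Lib.HPP.A7, Lib.HPP.A8, Lib.HPP.A9a, Lib.HPP.A9b, Lib.HPP.A9, Lib.HPP.A10, Lib.HPP.B5a, Lib.HPP.B5, Lib.HPP.B6a, Lib.HPP.B6, Lib.HPP.B7a, Lib.HPP.B7, Lib.HPP.C6a, Lib.HPP.C6, Lib.HPP.C7, Lib.HPP.C8. -/

-- from Lib.HPP.A4
section

/-!
# Project HPP, A4 (M): the vertices relative to the first one, adapted families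
-/

open Finset

namespace Pool.Agent.HPP

variable {G : Type} [AddCommGroup G]

/-- **A4.** `nab L o f (y - sh L o) = f(y) Phi_o(y)`.
Proof. Induction on `L`. `d :: L`, `o = ((x, x'), o')`, `δ = a x' - a x`: `nab (d :: L) o f (y - a x - sh L o') =
nab L o' f (y - sh L o') * conj (nab L o' f (y - sh L o' + δ))` (associativity), and by the induction hypothesis for `y` and
`y + δ` it is `f y * Phi L f o' y * conj (f (y + δ) * Phi L f o' (y + δ))`. -/
theorem A4_phi (L : List (Dir G)) (o : Om L) (f : G → ℂ) (y : G) : nab L o f (y - sh L o) = f y * Phi L f o y := by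
  induction L generalizing y with
  | nil =>
    change f (y - 0) = f y * 1
    rw [sub_zero, mul_one]
  | cons d L ih =>
    obtain ⟨p, o'⟩ := o
    change nab L o' f (y - (d.a p.1 + sh L o') + d.a p.1) *
        (starRingEnd ℂ) (nab L o' f (y - (d.a p.1 + sh L o') + d.a p.2)) =
      f y * ((starRingEnd ℂ) (f (y + (d.a p.2 - d.a p.1)) * Phi L f o' (y + (d.a p.2 - d.a p.1))) * Phi L f o' y)
    have h1 : y - (d.a p.1 + sh L o') + d.a p.1 = y - sh L o' := by abel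
    have h2 : y - (d.a p.1 + sh L o') + d.a p.2 = y + (d.a p.2 - d.a p.1) - sh L o' := by abel
    rw [h1, h2, ih, ih]
    ring

/-- Induction on `L`. -/
theorem A4_le (L : List (Dir G)) (f : G → ℂ) (hf : ∀ y, ‖f y‖ ≤ 1) (o : Om L) (y : G) : ‖Phi L f o y‖ ≤ 1 := by
  induction L generalizing y with
  | nil =>
    change ‖(1 : ℂ)‖ ≤ 1
    rw [norm_one]
  | cons d L ih =>
    obtain ⟨p, o'⟩ := o
    change ‖(starRingEnd ℂ) (f (y + (d.a p.2 - d.a p.1)) * Phi L f o' (y + (d.a p.2 - d.a p.1))) * Phi L f o' y‖ ≤ 1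
    rw [norm_mul, RCLike.norm_conj, norm_mul]
    exact mul_le_one₀ (mul_le_one₀ (hf _) (norm_nonneg _) (ih _ _)) (norm_nonneg _) (ih _ _)

/-- **The family `Phi` is adapted.** Proof. Induction on `L`. `[]`: `ξ = 1`. `d :: L`: `ξ = 1`,
`U o' = fun y => conj (f y * Phi L f o' y)` (in `FN N` by `FN.mul`, `FN.star`, `A4_le`), `Φ' = Phi L f`. -/
theorem A4_ad {N : ℝ} (L : List (Dir G)) (f : G → ℂ) (hf : FN N f) : Ad N L (Phi L f) := by
  induction L with
  | nil => exact ⟨1, by rw [norm_one], fun o y => rfl⟩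
  | cons d L ih =>
    refine ⟨fun _ => 1, fun o' y => (starRingEnd ℂ) (f y * Phi L f o' y), Phi L f, fun _ => by rw [norm_one],
      fun o' => (hf.mul (A4_le L f hf.le o')).star, ih, fun o y => ?_⟩
    change (starRingEnd ℂ) (f (y + (d.a o.1.2 - d.a o.1.1)) * Phi L f o.2 (y + (d.a o.1.2 - d.a o.1.1))) *
      Phi L f o.2 y = 1 * (starRingEnd ℂ) (f (y + (d.a o.1.2 - d.a o.1.1)) * Phi L f o.2 (y + (d.a o.1.2 - d.a o.1.1))) *
      Phi L f o.2 y
    rw [one_mul]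

/-- Adapted families are bounded by `1`. Induction on `L`. -/
theorem Ad.le {N : ℝ} {L : List (Dir G)} {Φ : Om L → G → ℂ} (h : Ad N L Φ) (o : Om L) (y : G) : ‖Φ o y‖ ≤ 1 := by
  induction L generalizing y with
  | nil =>
    obtain ⟨ξ, h1, h2⟩ := h
    rw [h2]
    exact h1
  | cons d L ih =>
    obtain ⟨ξ, U, Φ', h1, h2, h3, h4⟩ := h
    rw [h4 o y, norm_mul, norm_mul]
    exact mul_le_one₀ (mul_le_one₀ (h1 o) (norm_nonneg _) ((h2 o.2).le _)) (norm_nonneg _) (ih h3 _ _)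

/-- Multiplication by scalars which depend on the index. `[]`: `Om []` has one element. `d :: L`: multiply `ξ`. -/
theorem Ad.smul {N : ℝ} {L : List (Dir G)} {Φ : Om L → G → ℂ} (h : Ad N L Φ) (ξ : Om L → ℂ) (hξ : ∀ o, ‖ξ o‖ ≤ 1) :
    Ad N L fun o y => ξ o * Φ o y := by
  cases L with
  | nil =>
    obtain ⟨ξ0, h1, h2⟩ := h
    refine ⟨ξ () * ξ0, ?_, fun o y => ?_⟩
    · rw [norm_mul]
      exact mul_le_one₀ (hξ _) (norm_nonneg _) h1
    · exact congrArg (fun z => ξ o * z) (h2 o y)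
  | cons d L =>
    obtain ⟨ξ0, U, Φ', h1, h2, h3, h4⟩ := h
    refine ⟨fun o => ξ o * ξ0 o, U, Φ', fun o => ?_, h2, h3, fun o y => ?_⟩
    · rw [norm_mul]
      exact mul_le_one₀ (hξ _) (norm_nonneg _) (h1 o)
    · refine (congrArg (fun z => ξ o * z) (h4 o y)).trans ?_
      change ξ o * (ξ0 o * U o.2 (y + (d.a o.1.2 - d.a o.1.1)) * Φ' o.2 y) =
        ξ o * ξ0 o * U o.2 (y + (d.a o.1.2 - d.a o.1.1)) * Φ' o.2 y
      ring

/-- Products: induction on `L` (`U o y * V o y`, `FN.mul`). -/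
theorem Ad.mul {N : ℝ} {L : List (Dir G)} {Φ Θ : Om L → G → ℂ} (h : Ad N L Φ) (h' : Ad N L Θ) :
    Ad N L fun o y => Φ o y * Θ o y := by
  induction L with
  | nil =>
    obtain ⟨ξ, h1, h2⟩ := h
    obtain ⟨ζ, h3, h4⟩ := h'
    refine ⟨ξ * ζ, ?_, fun o y => ?_⟩
    · rw [norm_mul]
      exact mul_le_one₀ h1 (norm_nonneg _) h3
    · exact congrArg₂ (fun z w => z * w) (h2 o y) (h4 o y)
  | cons d L ih =>
    obtain ⟨ξ, U, Φ', h1, h2, h3, h4⟩ := h
    obtain ⟨ζ, V, Θ', k1, k2, k3, k4⟩ := h'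
    refine ⟨fun o => ξ o * ζ o, fun o y => U o y * V o y, fun o y => Φ' o y * Θ' o y, fun o => ?_,
      fun o => (h2 o).mul (k2 o).le, ih h3 k3, fun o y => ?_⟩
    · rw [norm_mul]
      exact mul_le_one₀ (h1 o) (norm_nonneg _) (k1 o)
    · refine (congrArg₂ (fun z w => z * w) (h4 o y) (k4 o y)).trans ?_
      change ξ o * U o.2 (y + (d.a o.1.2 - d.a o.1.1)) * Φ' o.2 y *
          (ζ o * V o.2 (y + (d.a o.1.2 - d.a o.1.1)) * Θ' o.2 y) =
        ξ o * ζ o * (U o.2 (y + (d.a o.1.2 - d.a o.1.1)) * V o.2 (y + (d.a o.1.2 - d.a o.1.1))) *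
          (Φ' o.2 y * Θ' o.2 y)
      ring

/-- Translation: induction on `L` (`FN.trans`). -/
theorem Ad.trans {N : ℝ} {L : List (Dir G)} {Φ : Om L → G → ℂ} (h : Ad N L Φ) (c : G) : Ad N L fun o y => Φ o (y + c) := by
  induction L with
  | nil =>
    obtain ⟨ξ, h1, h2⟩ := h
    exact ⟨ξ, h1, fun o y => h2 o (y + c)⟩
  | cons d L ih =>
    obtain ⟨ξ, U, Φ', h1, h2, h3, h4⟩ := h
    refine ⟨ξ, fun o y => U o (y + c), fun o y => Φ' o (y + c), h1, fun o => (h2 o).trans c, ih h3, fun o y => ?_⟩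
    refine (h4 o (y + c)).trans ?_
    change ξ o * U o.2 (y + c + (d.a o.1.2 - d.a o.1.1)) * Φ' o.2 (y + c) =
      ξ o * U o.2 (y + (d.a o.1.2 - d.a o.1.1) + c) * Φ' o.2 (y + c)
    rw [add_right_comm]

/-- Complex conjugation: induction on `L` (`FN.star`). -/
theorem Ad.star {N : ℝ} {L : List (Dir G)} {Φ : Om L → G → ℂ} (h : Ad N L Φ) :
    Ad N L fun o y => (starRingEnd ℂ) (Φ o y) := by
  induction L with
  | nil =>
    obtain ⟨ξ, h1, h2⟩ := h
    refine ⟨(starRingEnd ℂ) ξ, ?_, fun o y => ?_⟩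
    · rw [RCLike.norm_conj]
      exact h1
    · exact congrArg (fun z => (starRingEnd ℂ) z) (h2 o y)
  | cons d L ih =>
    obtain ⟨ξ, U, Φ', h1, h2, h3, h4⟩ := h
    refine ⟨fun o => (starRingEnd ℂ) (ξ o), fun o y => (starRingEnd ℂ) (U o y), fun o y => (starRingEnd ℂ) (Φ' o y),
      fun o => ?_, fun o => (h2 o).star, ih h3, fun o y => ?_⟩
    · rw [RCLike.norm_conj]
      exact h1 o
    · refine (congrArg (fun z => (starRingEnd ℂ) z) (h4 o y)).trans ?_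
      change (starRingEnd ℂ) (ξ o * U o.2 (y + (d.a o.1.2 - d.a o.1.1)) * Φ' o.2 y) =
        (starRingEnd ℂ) (ξ o) * (starRingEnd ℂ) (U o.2 (y + (d.a o.1.2 - d.a o.1.1))) * (starRingEnd ℂ) (Φ' o.2 y)
      rw [map_mul, map_mul]

/-- Differences: `D2 a b Φ_o = (translate by a) * conj (translate by b)`: `Ad.mul`, `Ad.trans`, `Ad.star`. -/
theorem Ad.D2 {N : ℝ} {L : List (Dir G)} {Φ : Om L → G → ℂ} (h : Ad N L Φ) (a b : G) : Ad N L fun o => D2 a b (Φ o) := by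
  exact (h.trans a).mul (h.trans b).star

end Pool.Agent.HPP
end

-- from Lib.HPP.A5
section

/-!
# Project HPP, A5 (S/M): appended lists of directions
-/

open Finset

namespace Pool.Agent.HPP

/-- The two parts of an index of an appended list. -/
def omSplit {G : Type} : (L L' : List (Dir G)) → Om (L ++ L') → Om L × Om L'
  | [], _, o => ((), o)
  | _ :: L, L', o => ((o.1, (omSplit L L' o.2).1), (omSplit L L' o.2).2)

variable {G : Type}

theorem a5_cons (d : Dir G) (L : List (Dir G)) (F : (d.ι × d.ι) × Om L → ℂ) :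
    avc (ι := Om (d :: L)) F = avc fun p : d.ι × d.ι => avc fun o : Om L => F (p, o) := avc_prod F

/-- Averages over `Om (L ++ L')`: induction on `L` (`avc_Om_cons`; `Om (d :: L ++ L')` is the product of `d.ι × d.ι` and `Om (L ++ L')`). -/
theorem avc_split (L L' : List (Dir G)) (F : Om L × Om L' → ℂ) :
    (avc fun o : Om (L ++ L') => F (omSplit L L' o)) = avc fun o : Om L => avc fun o' : Om L' => F (o, o') := by
  induction L with
  | nil => exact (avc_const (ι := Om ([] : List (Dir G))) (avc fun o' : Om L' => F ((), o'))).symm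
  | cons d L ih =>
    have h1 := a5_cons d (L ++ L') (fun o => F (omSplit (d :: L) L' o))
    have h2 := a5_cons d L (fun o => avc fun o' : Om L' => F (o, o'))
    have h3 : ∀ p : d.ι × d.ι, (avc fun o : Om (L ++ L') => F ((p, (omSplit L L' o).1), (omSplit L L' o).2)) =
        avc fun o : Om L => avc fun o' : Om L' => F ((p, o), o') := fun p => ih (fun q => F ((p, q.1), q.2))
    refine h1.trans (Eq.trans ?_ h2.symm)
    have h4 : (fun p : d.ι × d.ι => avc fun o : Om (L ++ L') => F ((p, (omSplit L L' o).1), (omSplit L L' o).2)) =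
        fun p => avc fun o : Om L => avc fun o' : Om L' => F ((p, o), o') := funext h3
    exact congrArg avc h4

/-- **Products of adapted families in independent indices are adapted.** Induction on `L`. `[]`: `Φ = ξ` constant, `Ad.smul`.
`d :: L`: `ξ` and `U` are those of `Φ` (with the part `(omSplit ..).1` of the index), `Φ'` the product of `Φ'` and `Θ` by the induction
hypothesis. -/
theorem A5_append [AddCommGroup G] {N : ℝ} (L L' : List (Dir G)) {Φ : Om L → G → ℂ} {Θ : Om L' → G → ℂ} (h : Ad N L Φ)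
    (h' : Ad N L' Θ) : Ad N (L ++ L') fun o y => Φ (omSplit L L' o).1 y * Θ (omSplit L L' o).2 y := by
  induction L with
  | nil =>
    obtain ⟨ξ, hξ, hΦ⟩ := h
    have h1 := h'.smul (fun _ => ξ) (fun _ => hξ)
    have h2 : (fun (o : Om ([] ++ L')) y => Φ (omSplit [] L' o).1 y * Θ (omSplit [] L' o).2 y) =
        fun (o : Om L') y => ξ * Θ o y := by
      funext o y
      rw [hΦ]
      rfl
    rw [h2]
    exact h1
  | cons d L ih =>
    obtain ⟨ξ, U, Φ', hξ, hU, hΦ', hΦ⟩ := h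
    refine ⟨fun o => ξ (o.1, (omSplit L L' o.2).1), fun o => U (omSplit L L' o).1,
      fun o y => Φ' (omSplit L L' o).1 y * Θ (omSplit L L' o).2 y, fun o => hξ _, fun o => hU _, ih hΦ', ?_⟩
    intro o y
    have h1 := hΦ (o.1, (omSplit L L' o.2).1) y
    show Φ (o.1, (omSplit L L' o.2).1) y * Θ (omSplit L L' o.2).2 y = _
    rw [h1]
    ring

end Pool.Agent.HPP
end

-- from Lib.HPP.A6
section

/-!
# Project HPP, A6 (M): the killing lemma (K)
-/

open Finset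

namespace Pool.Agent.HPP

variable {G : Type} [AddCommGroup G] [Fintype G]

theorem a6_shift (d : Dir G) (L : List (Dir G)) (g : G → ℂ) (ξ : (d.ι × d.ι) × Om L → ℂ)
    (U Φ' : Om L → G → ℂ) (z z' : d.ι) (o : Om L) : (∑ y, g y * (ξ ((z, z'), o) * U o (y + (d.a z' - d.a z)) * Φ' o y)) =
      ∑ w, U o (w + d.a z') * (ξ ((z, z'), o) * g (w + d.a z) * Φ' o (w + d.a z)) := by
  rw [← sum_trans (fun y => g y * (ξ ((z, z'), o) * U o (y + (d.a z' - d.a z)) * Φ' o y)) (d.a z)]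
  refine Finset.sum_congr rfl fun w _ => ?_
  have e : w + d.a z + (d.a z' - d.a z) = w + d.a z' := by abel
  simp only [e]
  ring

theorem a6_T (d : Dir G) (L : List (Dir G)) (g : G → ℂ) (ξ : (d.ι × d.ι) × Om L → ℂ)
    (U Φ' : Om L → G → ℂ) :
    (avc fun o : (d.ι × d.ι) × Om L => ∑ y, g y * (ξ o * U o.2 (y + (d.a o.1.2 - d.a o.1.1)) * Φ' o.2 y)) =
      avc fun t : d.ι × Om L => ∑ w, U t.2 (w + d.a t.1) * avc fun z => ξ ((z, t.1), t.2) * g (w + d.a z) * Φ' t.2 (w + d.a z) := by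
  calc (avc fun o : (d.ι × d.ι) × Om L => ∑ y, g y * (ξ o * U o.2 (y + (d.a o.1.2 - d.a o.1.1)) * Φ' o.2 y))
      = avc fun z : d.ι => avc fun z' : d.ι => avc fun o : Om L => ∑ w, U o (w + d.a z') * (ξ ((z, z'), o) * g (w + d.a z) * Φ' o (w + d.a z)) := by
        rw [avc_prod, avc_prod]
        exact congrArg avc (funext fun z => congrArg avc (funext fun z' => congrArg avc (funext fun o => a6_shift d L g ξ U Φ' z z' o)))
    _ = avc fun z' : d.ι => avc fun o : Om L => avc fun z : d.ι => ∑ w, U o (w + d.a z') * (ξ ((z, z'), o) * g (w + d.a z) * Φ' o (w + d.a z)) := by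
        rw [avc_comm]
        exact congrArg avc (funext fun z' => avc_comm _)
    _ = _ := by
        rw [avc_prod (ι := d.ι) (κ := Om L)]
        refine congrArg avc (funext fun z' => congrArg avc (funext fun o => ?_))
        change _ = ∑ w, U o (w + d.a z') * avc fun z => ξ ((z, z'), o) * g (w + d.a z) * Φ' o (w + d.a z)
        rw [avc_sum]
        simp only [avc_mul_left]

theorem a6_sq (d : Dir G) (L : List (Dir G)) (g : G → ℂ) (ξ : (d.ι × d.ι) × Om L → ℂ) (Φ' : Om L → G → ℂ) (z' : d.ι) (o : Om L) :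
    ((∑ w, ‖avc fun z => ξ ((z, z'), o) * g (w + d.a z) * Φ' o (w + d.a z)‖ ^ 2 : ℝ) : ℂ) = avc fun p : d.ι × d.ι => ∑ w, D2 (d.a p.1) (d.a p.2) g w *
        (ξ ((p.1, z'), o) * (starRingEnd ℂ) (ξ ((p.2, z'), o)) * D2 (d.a p.1) (d.a p.2) (Φ' o) w) := by
  rw [avc_sum, Complex.ofReal_sum]
  refine Finset.sum_congr rfl fun w _ => ?_
  rw [Complex.ofReal_pow, ← Complex.mul_conj', avc_mul_conj]
  refine congrArg avc (funext fun p => ?_)
  simp only [D2, map_mul]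
  ring

theorem a6_fin (d : Dir G) (L : List (Dir G)) (g : G → ℂ) (ξ : (d.ι × d.ι) × Om L → ℂ) (Φ' : Om L → G → ℂ) :
    (av fun t : d.ι × Om L => ∑ w, ‖avc fun z => ξ ((z, t.1), t.2) * g (w + d.a z) * Φ' t.2 (w + d.a z)‖ ^ 2) ≤
      av fun q : d.ι × (d.ι × d.ι) => ‖avc fun o : Om L => ∑ w, D2 (d.a q.2.1) (d.a q.2.2) g w *
        (ξ ((q.2.1, q.1), o) * (starRingEnd ℂ) (ξ ((q.2.2, q.1), o)) * D2 (d.a q.2.1) (d.a q.2.2) (Φ' o) w)‖ := by
  have h6 : ((av fun t : d.ι × Om L => ∑ w, ‖avc fun z => ξ ((z, t.1), t.2) * g (w + d.a z) * Φ' t.2 (w + d.a z)‖ ^ 2 : ℝ) : ℂ) =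
      avc fun q : d.ι × (d.ι × d.ι) => avc fun o : Om L => ∑ w, D2 (d.a q.2.1) (d.a q.2.2) g w *
        (ξ ((q.2.1, q.1), o) * (starRingEnd ℂ) (ξ ((q.2.2, q.1), o)) * D2 (d.a q.2.1) (d.a q.2.2) (Φ' o) w) := by
    rw [av_ofReal, avc_prod, avc_prod (ι := d.ι) (κ := d.ι × d.ι)]
    refine congrArg avc (funext fun z' => ?_)
    refine Eq.trans ?_ (avc_comm _)
    exact congrArg avc (funext fun o => a6_sq d L g ξ Φ' z' o)
  refine (le_abs_self _).trans ?_
  rw [← Real.norm_eq_abs, ← Complex.norm_real, h6]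
  exact norm_avc_le _

/-- One step. Proof. For fixed `o : Om L` and `z' = p.2` put `y = w + a z` (`z = p.1`, `sum_trans`):
`∑_y g y * (ξ U_o (y + (a z' - a z)) Φ'_o y) = ∑_w U_o (w + a z') * (ξ g (w + a z) Φ'_o (w + a z))`. So the left side is
`‖avc_{o, z'} ∑_w U_o (w + a z') * avc_z (ξ ..)‖ ^ 2 ≤ av_{o, z'} ‖∑_w ..‖ ^ 2 ≤ N av_{o, z'} ∑_w ‖avc_z ξ g (w + a z) Φ'_o (w + a z)‖ ^ 2`
(`norm_avc_sq`, `FN.cs`, `FN.trans`) and the square is `avc_{z, z~}` (`avc_mul_conj`) of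
`ξ(z, z', o) conj ξ(z~, z', o) * D2 (a z) (a z~) g w * D2 (a z) (a z~) Φ'_o w`; exchange the averages, `norm_avc_le`. -/
theorem A6_step {N : ℝ} (hN : 0 < N) (d : Dir G) (L : List (Dir G)) (g : G → ℂ) (ξ : (d.ι × d.ι) × Om L → ℂ)
    (U Φ' : Om L → G → ℂ) (hU : ∀ o, FN N (U o)) :
    ‖avc fun o : (d.ι × d.ι) × Om L => ∑ y, g y * (ξ o * U o.2 (y + (d.a o.1.2 - d.a o.1.1)) * Φ' o.2 y)‖ ^ 2 ≤
      N * av fun q : d.ι × (d.ι × d.ι) => ‖avc fun o : Om L => ∑ w, D2 (d.a q.2.1) (d.a q.2.2) g w *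
        (ξ ((q.2.1, q.1), o) * (starRingEnd ℂ) (ξ ((q.2.2, q.1), o)) * D2 (d.a q.2.1) (d.a q.2.2) (Φ' o) w)‖ := by
  rw [a6_T]
  refine (norm_avc_sq _).trans ?_
  refine le_trans (av_mono (H := fun t : d.ι × Om L => N * ∑ w, ‖avc fun z => ξ ((z, t.1), t.2) * g (w + d.a z) * Φ' t.2 (w + d.a z)‖ ^ 2)
    fun t => ((hU t.2).trans (d.a t.1)).cs _) ?_
  rw [av_mul_left]
  exact mul_le_mul_of_nonneg_left (a6_fin d L g ξ Φ') hN.le

/-- **The killing lemma (K).** Proof. Induction on `L`, generalising `g` and `Φ`. `[]`: `Φ = ξ` constant: `‖∑ g ξ‖ ≤ ‖∑ g‖` (`NN_nil`, exponent `1`).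
`d :: L`: `A6_step`; for fixed `q = (z', z, z~)` the family `o ↦ ξ ξ' D2 Φ'_o` is adapted (`Ad.D2`, `Ad.smul`) and `D2 g ∈ FN N`: the
induction hypothesis. With `x = ‖..‖ / N`, `m = 2 ^ L.length`: `x ^ (2 m) ≤ (av_q ‖..‖ / N) ^ m ≤ av_q (‖..‖ / N) ^ m ≤ av_q NN L (D2 g) / N`
(`av_pow`), and `av_q` over `(z', (z, z~))` of a function of `(z, z~)` is `NN (d :: L) g / N` (`av_prod`, `av_const`, `NN_cons`). -/
theorem A6_kill {N : ℝ} (hN : 0 < N) : ∀ (L : List (Dir G)) (g : G → ℂ), FN N g → ∀ Φ : Om L → G → ℂ, Ad N L Φ →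
    (‖avc fun o : Om L => ∑ y, g y * Φ o y‖ / N) ^ (2 ^ L.length) ≤ NN L g / N := by
  intro L
  induction L with
  | nil =>
    rintro g hg Φ ⟨ξ, hξ, e⟩
    have h1 : (avc fun o : Om ([] : List (Dir G)) => ∑ y, g y * Φ o y) = (∑ y, g y) * ξ := by
      simp only [e, ← Finset.sum_mul]
      exact avc_const _
    rw [h1, NN_nil, List.length_nil, pow_zero, pow_one, norm_mul]
    exact div_le_div_of_nonneg_right (mul_le_of_le_one_right (norm_nonneg _) hξ) hN.le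
  | cons d L ih =>
    rintro g hg Φ ⟨ξ, U, Φ', hξ, hU, hΦ', e⟩
    have h0 : (avc fun o : Om (d :: L) => ∑ y, g y * Φ o y) =
        avc fun o : (d.ι × d.ι) × Om L => ∑ y, g y * (ξ o * U o.2 (y + (d.a o.1.2 - d.a o.1.1)) * Φ' o.2 y) := by
      exact congrArg avc (funext fun o => Finset.sum_congr rfl fun y _ => congrArg (fun x => g y * x) (e o y))
    rw [h0]
    have h1 := A6_step hN d L g ξ U Φ' hU
    obtain ⟨X, hX⟩ : ∃ X : ℝ, X = ‖avc fun o : (d.ι × d.ι) × Om L => ∑ y, g y * (ξ o * U o.2 (y + (d.a o.1.2 - d.a o.1.1)) * Φ' o.2 y)‖ := ⟨_, rfl⟩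
    rw [← hX] at h1 ⊢
    have hX0 : 0 ≤ X := by
      rw [hX]
      exact norm_nonneg _
    let Z : d.ι × (d.ι × d.ι) → ℝ := fun q => ‖avc fun o : Om L => ∑ w, D2 (d.a q.2.1) (d.a q.2.2) g w *
        (ξ ((q.2.1, q.1), o) * (starRingEnd ℂ) (ξ ((q.2.2, q.1), o)) * D2 (d.a q.2.1) (d.a q.2.2) (Φ' o) w)‖ / N
    have hZ0 : ∀ q, 0 ≤ Z q := fun q => div_nonneg (norm_nonneg _) hN.le
    have h2 : (X / N) ^ 2 ≤ av Z := by
      have h3 : av Z = (N * av fun q : d.ι × (d.ι × d.ι) => ‖avc fun o : Om L => ∑ w, D2 (d.a q.2.1) (d.a q.2.2) g w *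
        (ξ ((q.2.1, q.1), o) * (starRingEnd ℂ) (ξ ((q.2.2, q.1), o)) * D2 (d.a q.2.1) (d.a q.2.2) (Φ' o) w)‖) / N ^ 2 := by
        rw [show av Z = _ from av_div N _]
        field_simp
      rw [h3, div_pow]
      exact div_le_div_of_nonneg_right h1 (by positivity)
    have h4 : ∀ q, Z q ^ (2 ^ L.length) ≤ NN L (D2 (d.a q.2.1) (d.a q.2.2) g) / N := by
      intro q
      refine ih (D2 (d.a q.2.1) (d.a q.2.2) g) (hg.D2 _ _) (fun o w => ξ ((q.2.1, q.1), o) * (starRingEnd ℂ) (ξ ((q.2.2, q.1), o)) *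
        D2 (d.a q.2.1) (d.a q.2.2) (Φ' o) w) ?_
      refine (hΦ'.D2 (d.a q.2.1) (d.a q.2.2)).smul (fun o => ξ ((q.2.1, q.1), o) * (starRingEnd ℂ) (ξ ((q.2.2, q.1), o))) fun o => ?_
      rw [norm_mul, RCLike.norm_conj]
      exact mul_le_one₀ (hξ _) (norm_nonneg _) (hξ _)
    calc (X / N) ^ 2 ^ (d :: L).length = ((X / N) ^ 2) ^ (2 ^ L.length) := by
          rw [List.length_cons, ← pow_mul, pow_succ']
      _ ≤ (av Z) ^ (2 ^ L.length) := pow_le_pow_left₀ (sq_nonneg _) h2 _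
      _ ≤ av fun q => Z q ^ (2 ^ L.length) := av_pow _ hZ0
      _ ≤ av fun q : d.ι × (d.ι × d.ι) => NN L (D2 (d.a q.2.1) (d.a q.2.2) g) / N := av_mono h4
      _ = NN (d :: L) g / N := by
          rw [av_div, NN_cons, av_prod]
          exact congrArg (fun x => x / N) (av_const (ι := d.ι) (av fun p : d.ι × d.ι => NN L (D2 (d.a p.1) (d.a p.2) g)))

end Pool.Agent.HPP
end

-- from Lib.HPP.A7a
section

/-!
# Project HPP, A7a (M): the concatenation step for two fixed indices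
-/

open Finset

namespace Pool.Agent.HPP

variable {G : Type} [AddCommGroup G] [Fintype G]

/-- **A7a.** Two indices `(i, x, x')` and `(j, u, u')` fixed: `α = d` for `i`, `α = e` for `j`.
`g y = conj f(y + a) f(y + b)`, `a = d.a x' - d.a x`, `b = e.a u' - e.a u`, is a translate of
`D2 (e.a u' - d.a x') (e.a u - d.a x) f`: `g (y + c)` with `c = e.a u - d.a x'` (abelian group computation, `f(y + b + c) = f(y + (e.a u' - d.a x'))`,
`f(y + a + c) = f(y + (e.a u - d.a x))`). The families `Ψ_o(y) = conj (Phi β f o (y + a)) * Phi β f o y` (`β` the list of `i`), and the conjugate of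
the same for `j`, are adapted (`A4_ad`, `Ad.mul`, `Ad.trans`, `Ad.star`); product over the two indices: `A5_append`, scalars `Ad.smul`; `A6_kill` for
`L = β ++ β'`, and `NN_trans`. -/
theorem A7a (N : ℝ) (hN : 0 < N) (f : G → ℂ) (hf : FN N f) (β β' : List (Dir G)) (a b u v : G) (huv : v - u = a - b)
    (ξ : Om β → Om β' → ℂ) (hξ : ∀ o o', ‖ξ o o'‖ ≤ 1) :
    (‖avc fun o : Om β => avc fun o' : Om β' => ∑ y, ((starRingEnd ℂ) (f (y + a)) * f (y + b)) * (ξ o o' *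
        ((starRingEnd ℂ) (Phi β f o (y + a)) * Phi β f o y) *
        (Phi β' f o' (y + b) * (starRingEnd ℂ) (Phi β' f o' y)))‖ / N) ^ (2 ^ (β.length + β'.length)) ≤
      NN (β ++ β') (D2 u v f) / N := by
  have hβ := A4_ad β f hf
  have hβ' := A4_ad β' f hf
  have h1 := ((hβ.trans a).star).mul hβ
  have h2 := (hβ'.trans b).mul hβ'.star
  have h3 := (A5_append β β' h1 h2).smul (fun o => ξ (omSplit β β' o).1 (omSplit β β' o).2) (fun o => hξ _ _)
  have hg : FN N (fun y => (starRingEnd ℂ) (f (y + a)) * f (y + b)) :=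
    FN.mul (FN.star (FN.trans hf a)) (fun y => hf.le (y + b))
  have h4 := A6_kill hN (β ++ β') _ hg _ h3
  have h5 := avc_split β β' (fun p : Om β × Om β' => ∑ y, ((starRingEnd ℂ) (f (y + a)) * f (y + b)) *
    (ξ p.1 p.2 * (((starRingEnd ℂ) (Phi β f p.1 (y + a)) * Phi β f p.1 y) *
      (Phi β' f p.2 (y + b) * (starRingEnd ℂ) (Phi β' f p.2 y)))))
  have h6 : D2 u v f = fun y => (fun y => (starRingEnd ℂ) (f (y + a)) * f (y + b)) (y + (u - b)) := by
    funext y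
    have e1 : y + (u - b) + b = y + u := by abel
    have e2 : y + (u - b) + a = y + v := by
      have : v = u + (a - b) := by
        rw [← huv]
        abel
      rw [this]
      abel
    show f (y + u) * (starRingEnd ℂ) (f (y + v)) = (starRingEnd ℂ) (f (y + (u - b) + a)) * f (y + (u - b) + b)
    rw [e1, e2, mul_comm]
  rw [h6, NN_trans (β ++ β') (fun y => (starRingEnd ℂ) (f (y + a)) * f (y + b)) (u - b)]
  rw [List.length_append] at h4
  refine le_trans (le_of_eq ?_) h4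
  congr 3
  refine Eq.trans ?_ h5.symm
  have h7 : ∀ o : Om β, ∀ o' : Om β', ∑ y, ((starRingEnd ℂ) (f (y + a)) * f (y + b)) * (ξ o o' *
        ((starRingEnd ℂ) (Phi β f o (y + a)) * Phi β f o y) *
        (Phi β' f o' (y + b) * (starRingEnd ℂ) (Phi β' f o' y))) =
      ∑ y, ((starRingEnd ℂ) (f (y + a)) * f (y + b)) * (ξ o o' *
        (((starRingEnd ℂ) (Phi β f o (y + a)) * Phi β f o y) *
        (Phi β' f o' (y + b) * (starRingEnd ℂ) (Phi β' f o' y)))) := by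
    intro o o'
    refine Finset.sum_congr rfl fun y _ => ?_
    rw [mul_assoc (ξ o o')]
  simp only [h7]

end Pool.Agent.HPP
end

-- from Lib.HPP.A7
section

/-!
# Project HPP, A7 (M): the concatenation step (C1)
-/

open Finset

namespace Pool.Agent.HPP

variable {G : Type} [AddCommGroup G] [Fintype G]

/-- The first formula: a sum with the phase. -/
theorem a7_one (d : Dir G) (β : List (Dir G)) (f : G → ℂ) :
    ∃ ξ : (d.ι × d.ι) → Om β → ℂ, (∀ p o, ‖ξ p o‖ ≤ 1) ∧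
      ((NN (d :: β) f : ℝ) : ℂ) = ∑ y, f y * avc fun p : d.ι × d.ι => avc fun o : Om β => ξ p o *
        ((starRingEnd ℂ) (f (y + (d.a p.2 - d.a p.1))) * ((starRingEnd ℂ) (Phi β f o (y + (d.a p.2 - d.a p.1))) * Phi β f o y)) := by
  have h1 : ∀ (p : d.ι × d.ι) (o : Om β), ∃ ξ : ℂ, ‖ξ‖ ≤ 1 ∧ ((‖∑ y, nab β o (D2 (d.a p.1) (d.a p.2) f) y‖ : ℝ) : ℂ) =
      ξ * ∑ y, nab β o (D2 (d.a p.1) (d.a p.2) f) y := fun p o => phase _
  choose ξ hξ hp using h1
  refine ⟨ξ, hξ, ?_⟩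
  have h2 : ∀ (p : d.ι × d.ι) (o : Om β), (∑ y, nab β o (D2 (d.a p.1) (d.a p.2) f) y) =
      ∑ y, f y * ((starRingEnd ℂ) (f (y + (d.a p.2 - d.a p.1))) * ((starRingEnd ℂ) (Phi β f o (y + (d.a p.2 - d.a p.1))) * Phi β f o y)) := by
    intro p o
    have h3 := A4_phi (d :: β) (p, o) f
    rw [← sum_trans (nab β o (D2 (d.a p.1) (d.a p.2) f)) (-(sh (d :: β) ((p, o) : Om (d :: β))))]
    refine Finset.sum_congr rfl fun y _ => ?_
    rw [← sub_eq_add_neg, ← D2_nab]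
    refine (h3 y).trans ?_
    refine congrArg (fun x => f y * x) ?_
    change (starRingEnd ℂ) (f (y + (d.a p.2 - d.a p.1)) * Phi β f o (y + (d.a p.2 - d.a p.1))) * Phi β f o y = _
    rw [map_mul]
    ring
  rw [NN_cons, av_ofReal]
  have h4 : ∀ p : d.ι × d.ι, ((NN β (D2 (d.a p.1) (d.a p.2) f) : ℝ) : ℂ) = avc fun o : Om β => ∑ y, f y * (ξ p o *
      ((starRingEnd ℂ) (f (y + (d.a p.2 - d.a p.1))) * ((starRingEnd ℂ) (Phi β f o (y + (d.a p.2 - d.a p.1))) * Phi β f o y))) := by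
    intro p
    unfold NN
    rw [av_ofReal]
    refine congrArg avc (funext fun o => ?_)
    rw [hp, h2, Finset.mul_sum]
    refine Finset.sum_congr rfl fun y _ => ?_
    ring
  simp only [h4, avc_sum, avc_mul_left]

/-- The square of the average, for two indices. -/
theorem a7_two (d e : Dir G) (β β' : List (Dir G)) (f : G → ℂ) (ξ : (d.ι × d.ι) → Om β → ℂ) (ξ' : (e.ι × e.ι) → Om β' → ℂ) :
    (∑ y, (avc fun p : d.ι × d.ι => avc fun o : Om β => ξ p o *
        ((starRingEnd ℂ) (f (y + (d.a p.2 - d.a p.1))) * ((starRingEnd ℂ) (Phi β f o (y + (d.a p.2 - d.a p.1))) * Phi β f o y))) *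
      (starRingEnd ℂ) (avc fun p : e.ι × e.ι => avc fun o : Om β' => ξ' p o *
        ((starRingEnd ℂ) (f (y + (e.a p.2 - e.a p.1))) * ((starRingEnd ℂ) (Phi β' f o (y + (e.a p.2 - e.a p.1))) * Phi β' f o y)))) =
    avc fun r : (d.ι × d.ι) × (e.ι × e.ι) => avc fun o : Om β => avc fun o' : Om β' => ∑ y,
      ((starRingEnd ℂ) (f (y + (d.a r.1.2 - d.a r.1.1))) * f (y + (e.a r.2.2 - e.a r.2.1))) * ((ξ r.1 o * (starRingEnd ℂ) (ξ' r.2 o')) *
        ((starRingEnd ℂ) (Phi β f o (y + (d.a r.1.2 - d.a r.1.1))) * Phi β f o y) *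
        (Phi β' f o' (y + (e.a r.2.2 - e.a r.2.1)) * (starRingEnd ℂ) (Phi β' f o' y))) := by
  rw [avc_prod (ι := d.ι × d.ι) (κ := e.ι × e.ι)]
  simp only [avc_sum]
  refine Finset.sum_congr rfl fun y _ => ?_
  rw [avc_star, ← avc_mul_right]
  refine congrArg avc (funext fun p => ?_)
  rw [← avc_mul_left]
  refine congrArg avc (funext fun q => ?_)
  rw [avc_star, ← avc_mul_right]
  refine congrArg avc (funext fun o => ?_)
  rw [← avc_mul_left]
  refine congrArg avc (funext fun o' => ?_)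
  simp only [map_mul, Complex.conj_conj]
  ring

theorem a7_sub (d e : Dir G) (L : List (Dir G)) (f : G → ℂ) :
    NN (e.sub d :: L) f = av fun r : (d.ι × d.ι) × (e.ι × e.ι) => NN L (D2 (e.a r.2.2 - d.a r.1.2) (e.a r.2.1 - d.a r.1.1) f) := by
  rw [NN_cons]
  change (av fun p : (e.ι × d.ι) × (e.ι × d.ι) => NN L (D2 (e.a p.1.1 - d.a p.1.2) (e.a p.2.1 - d.a p.2.2) f)) = _
  let E : ((d.ι × d.ι) × (e.ι × e.ι)) ≃ ((e.ι × d.ι) × (e.ι × d.ι)) :=
    ⟨fun r => ((r.2.2, r.1.2), (r.2.1, r.1.1)), fun p => ((p.2.2, p.1.2), (p.2.1, p.1.1)), fun _ => rfl, fun _ => rfl⟩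
  exact (av_equiv E (fun p : (e.ι × d.ι) × (e.ι × d.ι) => NN L (D2 (e.a p.1.1 - d.a p.1.2) (e.a p.2.1 - d.a p.2.2) f))).symm

/-- **A7b. The concatenation step.** Proof. By `A4_phi` for the list `α i :: β i` and `phase`, `sum_trans`:
`NN (α i :: β i) f = av_o ‖∑_y f(y) Phi (α i :: β i) f o y‖` and `Phi (d :: L) f ((x, x'), o) y = conj f(y + a) * (conj (Phi L f o (y + a)) * Phi L f o y)`,
`a = d.a x' - d.a x`. So `av_i NN (α i :: β i) f = ‖∑_y f(y) W(y)‖` with `W(y) = avc_{i, x, x', o} ξ conj f(y + a) (..)`. `FN.cs`: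
its square is `≤ N ∑_y ‖W y‖ ^ 2 = N avc_{(i,x,x',o), (j,u,u',o')} ..` (`avc_mul_conj`); take absolute values outside the averages over `o, o'`. For fixed
`i, x, x', j, u, u'`: `A7a` with `u := e.a u' - d.a x'`, `v := e.a u - d.a x` where `e = α j`, `d = α i` (so `v - u = a - b`), the length is `2 p`.
With `m = 2 ^ (2 p)`: `(.. / N) ^ (2 m) ≤ (av ‖..‖ / N) ^ m ≤ av (‖..‖ / N) ^ m ≤ av NN (β i ++ β j) (D2 ..) / N` and by `NN_cons` for
`(α j).sub (α i)` (index `((u', x'), (u, x))`; reorder the averages, `av_prod`, `av_comm`) this is the right side. -/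
theorem A7b (N : ℝ) (hN : 0 < N) {I : Type} [Fintype I] [Nonempty I] (p : ℕ) (α : I → Dir G) (β : I → List (Dir G))
    (hβ : ∀ i, (β i).length = p) (f : G → ℂ) (hf : FN N f) :
    ((av fun i => NN (α i :: β i) f) / N) ^ (2 ^ (2 * p + 1)) ≤
      (av fun x : I × I => NN ((α x.2).sub (α x.1) :: (β x.1 ++ β x.2)) f) / N := by
  choose ξ hξ hNN using fun i => a7_one (α i) (β i) f
  obtain ⟨V, hV⟩ : ∃ V : I → G → ℂ, V = fun i y => avc fun p : (α i).ι × (α i).ι => avc fun o : Om (β i) => ξ i p o *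
        ((starRingEnd ℂ) (f (y + ((α i).a p.2 - (α i).a p.1))) *
          ((starRingEnd ℂ) (Phi (β i) f o (y + ((α i).a p.2 - (α i).a p.1))) * Phi (β i) f o y)) := ⟨_, rfl⟩
  obtain ⟨X, hX⟩ : ∃ X : ℝ, X = av fun i => NN (α i :: β i) f := ⟨_, rfl⟩
  have hX0 : 0 ≤ X := by
    rw [hX]
    exact av_nonneg fun i => NN_nonneg _ _
  have h1 : (X : ℂ) = ∑ y, f y * avc fun i => V i y := by
    rw [hX, av_ofReal]
    simp only [hNN, avc_sum, avc_mul_left]
    rw [hV]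
  have h2 : X ^ 2 ≤ N * ∑ y, ‖avc fun i => V i y‖ ^ 2 := by
    have h3 := hf.cs fun y => avc fun i => V i y
    rw [← h1, Complex.norm_real, Real.norm_eq_abs, sq_abs] at h3
    exact h3
  obtain ⟨Z, hZ⟩ : ∃ Z : (x : I × I) → ((α x.1).ι × (α x.1).ι) × ((α x.2).ι × (α x.2).ι) → ℝ, Z = fun x r => ‖avc fun o : Om (β x.1) => avc fun o' : Om (β x.2) => ∑ y,
      ((starRingEnd ℂ) (f (y + ((α x.1).a r.1.2 - (α x.1).a r.1.1))) * f (y + ((α x.2).a r.2.2 - (α x.2).a r.2.1))) *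
        ((ξ x.1 r.1 o * (starRingEnd ℂ) (ξ x.2 r.2 o')) *
        ((starRingEnd ℂ) (Phi (β x.1) f o (y + ((α x.1).a r.1.2 - (α x.1).a r.1.1))) * Phi (β x.1) f o y) *
        (Phi (β x.2) f o' (y + ((α x.2).a r.2.2 - (α x.2).a r.2.1)) * (starRingEnd ℂ) (Phi (β x.2) f o' y)))‖ / N := ⟨_, rfl⟩
  have hZ0 : ∀ x r, 0 ≤ Z x r := by
    intro x r
    rw [hZ]
    exact div_nonneg (norm_nonneg _) hN.le
  have h3 : (∑ y, ‖avc fun i => V i y‖ ^ 2) ≤ N * av fun x => av (Z x) := by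
    have h4 : ((∑ y, ‖avc fun i => V i y‖ ^ 2 : ℝ) : ℂ) = avc fun x : I × I => ∑ y, V x.1 y * (starRingEnd ℂ) (V x.2 y) := by
      rw [avc_sum, Complex.ofReal_sum]
      refine Finset.sum_congr rfl fun y _ => ?_
      rw [Complex.ofReal_pow, ← Complex.mul_conj', avc_mul_conj]
    have h5 : (∑ y, ‖avc fun i => V i y‖ ^ 2) ≤ av fun x : I × I => ‖∑ y, V x.1 y * (starRingEnd ℂ) (V x.2 y)‖ := by
      refine (le_abs_self _).trans ?_
      rw [← Real.norm_eq_abs, ← Complex.norm_real, h4]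
      exact norm_avc_le _
    refine h5.trans ?_
    rw [← av_mul_left]
    refine av_mono fun x => ?_
    rw [hV]
    simp only
    rw [a7_two]
    refine (norm_avc_le _).trans ?_
    rw [← av_mul_left]
    refine av_mono fun r => ?_
    rw [hZ]
    exact (mul_div_cancel₀ _ hN.ne').symm.le
  have h6 : (X / N) ^ 2 ≤ av fun x => av (Z x) := by
    rw [div_pow, div_le_iff₀ (by positivity)]
    calc X ^ 2 ≤ N * ∑ y, ‖avc fun i => V i y‖ ^ 2 := h2
      _ ≤ N * (N * av fun x => av (Z x)) := mul_le_mul_of_nonneg_left h3 hN.le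
      _ = _ := by ring
  have h7 : ∀ x r, Z x r ^ (2 ^ (2 * p)) ≤ NN (β x.1 ++ β x.2) (D2 ((α x.2).a r.2.2 - (α x.1).a r.1.2) ((α x.2).a r.2.1 - (α x.1).a r.1.1) f) / N := by
    intro x r
    have h8 := A7a N hN f hf (β x.1) (β x.2) ((α x.1).a r.1.2 - (α x.1).a r.1.1) ((α x.2).a r.2.2 - (α x.2).a r.2.1)
      ((α x.2).a r.2.2 - (α x.1).a r.1.2) ((α x.2).a r.2.1 - (α x.1).a r.1.1) (by abel) (fun o o' => ξ x.1 r.1 o * (starRingEnd ℂ) (ξ x.2 r.2 o')) ?_
    · rw [hβ, hβ, ← two_mul] at h8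
      rw [hZ]
      exact h8
    · intro o o'
      rw [norm_mul, RCLike.norm_conj]
      exact mul_le_one₀ (hξ _ _ _) (norm_nonneg _) (hξ _ _ _)
  rw [← hX]
  calc (X / N) ^ 2 ^ (2 * p + 1) = ((X / N) ^ 2) ^ (2 ^ (2 * p)) := by
        rw [← pow_mul, pow_succ']
    _ ≤ (av fun x => av (Z x)) ^ (2 ^ (2 * p)) := pow_le_pow_left₀ (sq_nonneg _) h6 _
    _ ≤ av fun x => (av (Z x)) ^ (2 ^ (2 * p)) := av_pow _ fun x => av_nonneg (hZ0 x)
    _ ≤ av fun x => av fun r => (Z x r) ^ (2 ^ (2 * p)) := av_mono fun x => av_pow _ (hZ0 x)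
    _ ≤ av fun x : I × I => av fun r : ((α x.1).ι × (α x.1).ι) × ((α x.2).ι × (α x.2).ι) => NN (β x.1 ++ β x.2) (D2 ((α x.2).a r.2.2 - (α x.1).a r.1.2) ((α x.2).a r.2.1 - (α x.1).a r.1.1) f) / N :=
        av_mono fun x => av_mono (h7 x)
    _ = _ := by
        rw [← av_div]
        refine congrArg av (funext fun x => ?_)
        rw [av_div, a7_sub]

end Pool.Agent.HPP
end

-- from Lib.HPP.A8
section

/-!
# Project HPP, A8 (S): common directions; Fourier transforms of directions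
-/

open Finset

namespace Pool.Agent.HPP

variable {G : Type} [AddCommGroup G] [Fintype G]

/-- **Common directions.** If the inequality holds for all `f ∈ FN N` then it holds with the fixed directions `C` added in front.
Proof. `NN_append`: `NN (C ++ A i) f = av_c NN (A i) (nab C c f)`, `nab C c f ∈ FN N` (`FN.nab`). `av_comm`; with
`X_c = (av_i NN (A i) (nab C c f)) / N`: `(av_c X_c) ^ E ≤ av_c X_c ^ E` (`av_pow`) `≤ av_c (av_j NN (B j) (nab C c f)) / N`. -/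
theorem A8_common {N : ℝ} (hN : 0 < N) {I J : Type} [Fintype I] [Nonempty I] [Fintype J] [Nonempty J] (E : ℕ)
    (A : I → List (Dir G)) (B : J → List (Dir G))
    (h : ∀ f : G → ℂ, FN N f → ((av fun i => NN (A i) f) / N) ^ E ≤ (av fun j => NN (B j) f) / N)
    (C : List (Dir G)) (f : G → ℂ) (hf : FN N f) :
    ((av fun i => NN (C ++ A i) f) / N) ^ E ≤ (av fun j => NN (C ++ B j) f) / N := by
  have key : ∀ {K : Type} [Fintype K] [Nonempty K] (A : K → List (Dir G)),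
      (av fun i => NN (C ++ A i) f) / N = av fun c : Om C => (av fun i => NN (A i) (nab C c f)) / N := by
    intro K _ _ A
    simp only [NN_append]
    rw [av_comm, av_div]
  rw [key A, key B]
  refine (av_pow E fun c => ?_).trans (av_mono fun c => h _ (hf.nab C c))
  exact div_nonneg (av_nonneg fun i => NN_nonneg _ _) hN.le


omit [Fintype G] in
/-- `‖ft (d.sub e) χ‖ = ‖ft d χ‖ ‖ft e χ‖` (`χ (a - b) = χ a conj (χ b)` on a finite group, `AddChar.map_neg_eq_conj`; `avc_prod`). -/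
theorem ft_sub (d e : Dir G) (χ : AddChar G ℂ) [Finite G] : ‖ft (d.sub e) χ‖ = ‖ft d χ‖ * ‖ft e χ‖ := by
  have h1 : ft (d.sub e) χ = ft d χ * (starRingEnd ℂ) (ft e χ) := by
    change (avc fun p : d.ι × e.ι => χ (d.a p.1 - e.a p.2)) = _
    unfold ft
    rw [avc_prod, avc_star, ← avc_mul_right]
    refine congrArg avc (funext fun x => ?_)
    rw [← avc_mul_left]
    refine congrArg avc (funext fun y => ?_)
    rw [sub_eq_add_neg, AddChar.map_add_eq_mul, AddChar.map_neg_eq_conj]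
  rw [h1, norm_mul, RCLike.norm_conj]

end Pool.Agent.HPP
end

-- from Lib.HPP.A9a
section

/-!
# Project HPP, A9a (M): the inequality in the step of `T_p`
-/

open Finset

namespace Pool.Agent.HPP

theorem a9a_ofFn {p : ℕ} {D : Type*} (u : Fin (p + 1) → D) :
    List.ofFn u = List.ofFn (fun l : Fin p => u l.castSucc) ++ [u (Fin.last p)] := by
  rw [List.ofFn_succ', List.concat_eq_append]

theorem a9a_perm1 {D : Type*} (A Γ : List D) (a : D) : (A ++ [a] ++ Γ).Perm (a :: (A ++ Γ)) := by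
  rw [List.append_assoc, List.singleton_append]
  exact List.perm_middle

theorem a9a_perm2 {D : Type*} (e : D) (A Γ A' Γ' : List D) :
    (e :: ((A ++ Γ) ++ (A' ++ Γ'))).Perm ((A' ++ Γ') ++ (A ++ (e :: Γ))) := by
  refine List.Perm.trans ?_ List.perm_append_comm
  rw [← List.cons_append]
  exact List.Perm.append_right _ List.perm_middle.symm

theorem a9a_step {N : ℝ} (hN : 0 < N) {I J : Type} [Fintype I] [Nonempty I] [Fintype J] (E : ℕ) (X : I → ℝ)
    (Y : I → J → ℝ) (hX : ∀ i, 0 ≤ X i) (h : ∀ i, (X i / N) ^ E ≤ (av fun j => Y i j) / N) :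
    (av X / N) ^ E ≤ (av fun j => av fun i => Y i j) / N := by
  have h1 : av X / N = av fun i => X i / N := (av_div N X).symm
  have h2 : (av fun i => X i / N) ^ E ≤ av fun i => (X i / N) ^ E :=
    av_pow E fun i => div_nonneg (hX i) hN.le
  have h3 : (av fun i => (X i / N) ^ E) ≤ av fun i => (av fun j => Y i j) / N := av_mono h
  have h4 : (av fun i => (av fun j => Y i j) / N) = (av fun j => av fun i => Y i j) / N := by
    rw [av_div, av_comm]
  rw [h1]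
  exact h2.trans (h3.trans h4.le)

/-- **The inequality in the step.** `A8_common` twice and `A7b` once. Data: for every `i'` a family
`δ1 i' : Fin n2 → J1 → Dir G` (result of `T_p` in the index `i` with the `q + 1` extras `(α_p(i')).sub (α_p(i))`, `γ(i)`), for every `j ∈ J1` a
family `δ2 j : Fin n3 → J2 → Dir G` (result of `T_p` in the index `i'` with the `q + n2` extras `γ(i')`, `δ1 i' k j`).
Proof. Write `A i = ofFn (α_l i, l < p)`, `Γ i = ofFn (γ_l i)`, `a i = α_p(i)` (`α (Fin.last p)`), `e i' i = (a i').sub (a i)`.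
`ofFn (α i) ++ Γ i` is a permutation of `a i :: (A i ++ Γ i)` (`List.ofFn_succ'`, `NN_perm`). `A7b` with `β i = A i ++ Γ i` (length `p + q`), exponent
`2 ^ (2 (p + q) + 1)`: average over `(i, i')` of `NN (e i' i :: ((A i ++ Γ i) ++ (A i' ++ Γ i')))`; by `NN_perm` it is
`NN ((A i' ++ Γ i') ++ (A i ++ ofFn (Fin.cons (e i' i) (γ i))))`. For fixed `i'`: `A8_common` with `h1 i'`: exponent `E2`, average over `j ∈ J1` of
`NN ((A i' ++ Γ i') ++ ofFn (δ1 i' · j))`, which is by `NN_perm` / append `NN (A i' ++ ofFn (Fin.append (γ i') (δ1 i' · j)))`. For fixed `j` `h2 j`: exponent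
`E3`. Between the steps `av_prod`, `av_comm`, `av_pow` (`(av X) ^ E ≤ av (X ^ E)`), everything is `≥ 0`. -/
theorem A9_ineq (p q E2 n2 E3 n3 : ℕ) {I J1 J2 : Type} [Fintype I] [Nonempty I] [Fintype J1] [Nonempty J1] [Fintype J2]
    [Nonempty J2] {G : Type} [AddCommGroup G] [Fintype G] (N : ℝ) (hN : 0 < N) (α : Fin (p + 1) → I → Dir G)
    (γ : Fin q → I → Dir G) (δ1 : I → Fin n2 → J1 → Dir G) (δ2 : J1 → Fin n3 → J2 → Dir G)
    (h1 : ∀ (i' : I) (f : G → ℂ), FN N f → ((av fun i => NN (List.ofFn (fun l : Fin p => α l.castSucc i) ++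
      List.ofFn (Fin.cons ((α (Fin.last p) i').sub (α (Fin.last p) i)) (fun l => γ l i) : Fin (q + 1) → Dir G)) f) / N) ^ E2 ≤
        (av fun j => NN (List.ofFn fun k => δ1 i' k j) f) / N)
    (h2 : ∀ (j : J1) (f : G → ℂ), FN N f → ((av fun i' => NN (List.ofFn (fun l : Fin p => α l.castSucc i') ++
      List.ofFn (Fin.append (fun l => γ l i') (fun k => δ1 i' k j) : Fin (q + n2) → Dir G)) f) / N) ^ E3 ≤
        (av fun j' => NN (List.ofFn fun k => δ2 j k j') f) / N)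
    (f : G → ℂ) (hf : FN N f) :
    ((av fun i => NN (List.ofFn (fun l => α l i) ++ List.ofFn (fun l => γ l i)) f) / N) ^ (2 ^ (2 * (p + q) + 1) * E2 * E3) ≤
      (av fun x : J1 × J2 => NN (List.ofFn fun k => δ2 x.1 k x.2) f) / N := by
  -- notation
  set A : I → List (Dir G) := fun i => List.ofFn (fun l : Fin p => α l.castSucc i) with hA
  set Γ : I → List (Dir G) := fun i => List.ofFn (fun l => γ l i) with hΓ
  have hlen : ∀ i, (A i ++ Γ i).length = p + q := by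
    intro i
    rw [List.length_append, hA, hΓ]
    simp only [List.length_ofFn]
  -- step 0
  have e0 : (av fun i => NN (List.ofFn (fun l => α l i) ++ List.ofFn (fun l => γ l i)) f) =
      av fun i => NN (α (Fin.last p) i :: (A i ++ Γ i)) f := by
    congr 1
    funext i
    rw [a9a_ofFn (fun l => α l i)]
    exact NN_perm (a9a_perm1 _ _ _) f
  -- step 1
  have s1 := A7b N hN (p + q) (fun i => α (Fin.last p) i) (fun i => A i ++ Γ i) hlen f hf
  -- step 2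
  have e1 : (av fun x : I × I => NN ((α (Fin.last p) x.2).sub (α (Fin.last p) x.1) ::
      ((A x.1 ++ Γ x.1) ++ (A x.2 ++ Γ x.2))) f) = av fun i' => av fun i =>
        NN ((A i' ++ Γ i') ++ (A i ++ List.ofFn (Fin.cons ((α (Fin.last p) i').sub (α (Fin.last p) i))
          (fun l => γ l i) : Fin (q + 1) → Dir G))) f := by
    rw [av_prod, av_comm]
    congr 1
    funext i'
    congr 1
    funext i
    rw [List.ofFn_succ (f := (Fin.cons ((α (Fin.last p) i').sub (α (Fin.last p) i))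
          (fun l => γ l i) : Fin (q + 1) → Dir G))]
    simp only [Fin.cons_zero, Fin.cons_succ]
    exact NN_perm (a9a_perm2 _ _ _ _ _) f
  have s2 := a9a_step hN E2 (fun i' => av fun i =>
        NN ((A i' ++ Γ i') ++ (A i ++ List.ofFn (Fin.cons ((α (Fin.last p) i').sub (α (Fin.last p) i))
          (fun l => γ l i) : Fin (q + 1) → Dir G))) f)
    (fun i' j => NN ((A i' ++ Γ i') ++ List.ofFn fun k => δ1 i' k j) f)
    (fun i' => av_nonneg fun i => NN_nonneg _ _)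
    (fun i' => A8_common hN E2 (fun i => A i ++ List.ofFn (Fin.cons ((α (Fin.last p) i').sub (α (Fin.last p) i))
          (fun l => γ l i) : Fin (q + 1) → Dir G)) (fun j => List.ofFn fun k => δ1 i' k j) (h1 i')
      (A i' ++ Γ i') f hf)
  -- step 3
  have e2 : ∀ j, (av fun i' => NN ((A i' ++ Γ i') ++ List.ofFn fun k => δ1 i' k j) f) =
      av fun i' => NN (List.ofFn (fun l : Fin p => α l.castSucc i') ++
      List.ofFn (Fin.append (fun l => γ l i') (fun k => δ1 i' k j) : Fin (q + n2) → Dir G)) f := by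
    intro j
    congr 1
    funext i'
    rw [List.ofFn_fin_append, List.append_assoc]
  have s3 := a9a_step hN E3 (fun j => av fun i' => NN ((A i' ++ Γ i') ++ List.ofFn fun k => δ1 i' k j) f)
    (fun j j' => NN (List.ofFn fun k => δ2 j k j') f)
    (fun j => av_nonneg fun i' => NN_nonneg _ _)
    (fun j => by
      rw [e2 j]
      exact h2 j f hf)
  have e3 : (av fun x : J1 × J2 => NN (List.ofFn fun k => δ2 x.1 k x.2) f) =
      av fun j' => av fun j => NN (List.ofFn fun k => δ2 j k j') f := by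
    rw [av_prod, av_comm]
  -- together
  have p0 : 0 ≤ (av fun i => NN (α (Fin.last p) i :: (A i ++ Γ i)) f) / N :=
    div_nonneg (av_nonneg fun i => NN_nonneg _ _) hN.le
  rw [e0, e3, pow_mul, pow_mul]
  rw [e1] at s1
  refine le_trans (pow_le_pow_left₀ (pow_nonneg (pow_nonneg p0 _) _) ?_ E3) s3
  exact le_trans (pow_le_pow_left₀ (pow_nonneg p0 _) s1 E2) s2

end Pool.Agent.HPP
end

-- from Lib.HPP.A9b
section

/-!
# Project HPP, A9b (S/M): the Fourier bound in the step of `T_p`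
-/

open Finset

namespace Pool.Agent.HPP

/-- **The Fourier bound in the step.** Proof. For fixed `i'` the extras of the first application are bounded by
`B1 i' = B ‖ft (α_p i') χ‖² + B'` (`ft_sub`, `av_mul_left`): `av_j ‖ft (δ1 i' k j)‖² ≤ C2 (B² + B1 i')`; average over `i'`:
`≤ C2 (2 B² + B')`. For fixed `j` the extras of the second one are bounded by `B2 j = B' + ∑_k av_{i'} ‖ft (δ1 i' k j)‖²`: `≤ C3 (B² + B2 j)`;
average over `j` (`av_sum`, `av_comm`): `≤ C3 (B² + B' + n2 C2 (2 B² + B')) ≤ C3 (1 + 2 n2 C2) (B² + B')`. -/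
theorem A9_four (p q n2 n3 : ℕ) (C2 C3 : ℝ) (hC2 : 0 ≤ C2) (hC3 : 0 ≤ C3) {I J1 J2 : Type} [Fintype I] [Nonempty I]
    [Fintype J1] [Nonempty J1] [Fintype J2] [Nonempty J2] {G : Type} [AddCommGroup G] [Fintype G]
    (α : Fin (p + 1) → I → Dir G) (γ : Fin q → I → Dir G) (δ1 : I → Fin n2 → J1 → Dir G) (δ2 : J1 → Fin n3 → J2 → Dir G)
    (χ : AddChar G ℂ) (h1 : ∀ (i' : I) (B B' : ℝ), 0 ≤ B → 0 ≤ B' →
      (∀ l : Fin p, (av fun i => ‖ft (α l.castSucc i) χ‖ ^ 2) ≤ B) →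
      (∀ l : Fin (q + 1), (av fun i => ‖ft ((Fin.cons ((α (Fin.last p) i').sub (α (Fin.last p) i)) (fun l => γ l i) :
        Fin (q + 1) → Dir G) l) χ‖ ^ 2) ≤ B') → ∀ k, (av fun j => ‖ft (δ1 i' k j) χ‖ ^ 2) ≤ C2 * (B ^ 2 + B'))
    (h2 : ∀ (j : J1) (B B' : ℝ), 0 ≤ B → 0 ≤ B' → (∀ l : Fin p, (av fun i => ‖ft (α l.castSucc i) χ‖ ^ 2) ≤ B) →
      (∀ l : Fin (q + n2), (av fun i' => ‖ft ((Fin.append (fun l => γ l i') (fun k => δ1 i' k j) :
        Fin (q + n2) → Dir G) l) χ‖ ^ 2) ≤ B') → ∀ k, (av fun j' => ‖ft (δ2 j k j') χ‖ ^ 2) ≤ C3 * (B ^ 2 + B'))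
    (B B' : ℝ) (hB : 0 ≤ B) (hB' : 0 ≤ B') (hα : ∀ l, (av fun i => ‖ft (α l i) χ‖ ^ 2) ≤ B)
    (hγ : ∀ l, (av fun i => ‖ft (γ l i) χ‖ ^ 2) ≤ B') (k : Fin n3) :
    (av fun x : J1 × J2 => ‖ft (δ2 x.1 k x.2) χ‖ ^ 2) ≤ C3 * (1 + 2 * n2 * C2) * (B ^ 2 + B') := by
  obtain ⟨g, hg⟩ : ∃ g : I → ℝ, g = fun i' => ‖ft (α (Fin.last p) i') χ‖ ^ 2 := ⟨_, rfl⟩
  have hg0 : ∀ i, 0 ≤ g i := fun i => by rw [hg]; exact sq_nonneg _
  have hgB : av g ≤ B := by
    rw [hg]
    exact hα (Fin.last p)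
  -- first application
  have e1 : ∀ (i' : I) (k : Fin n2), (av fun j => ‖ft (δ1 i' k j) χ‖ ^ 2) ≤ C2 * (B ^ 2 + (B * g i' + B')) := by
    intro i' k
    refine h1 i' B (B * g i' + B') hB (add_nonneg (mul_nonneg hB (hg0 i')) hB') (fun l => hα l.castSucc) ?_ k
    intro l
    refine Fin.cases ?_ (fun l => ?_) l
    · have e : (av fun i => ‖ft ((Fin.cons ((α (Fin.last p) i').sub (α (Fin.last p) i)) (fun l => γ l i) :
          Fin (q + 1) → Dir G) 0) χ‖ ^ 2) = g i' * av g := by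
        rw [← av_mul_left]
        refine congrArg av (funext fun i => ?_)
        rw [Fin.cons_zero, ft_sub, mul_pow, hg]
      rw [e]
      have := mul_le_mul_of_nonneg_left hgB (hg0 i')
      linarith
    · have e : (av fun i => ‖ft ((Fin.cons ((α (Fin.last p) i').sub (α (Fin.last p) i)) (fun l => γ l i) :
          Fin (q + 1) → Dir G) l.succ) χ‖ ^ 2) = av fun i => ‖ft (γ l i) χ‖ ^ 2 := by
        refine congrArg av (funext fun i => ?_)
        rw [Fin.cons_succ]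
      rw [e]
      have := hγ l
      have := mul_nonneg hB (hg0 i')
      linarith
  -- second application
  obtain ⟨T, hT⟩ : ∃ T : J1 → ℝ, T = fun j => ∑ k : Fin n2, av fun i' => ‖ft (δ1 i' k j) χ‖ ^ 2 := ⟨_, rfl⟩
  have hT0 : ∀ j, 0 ≤ T j := fun j => by
    rw [hT]
    exact Finset.sum_nonneg fun k _ => av_nonneg fun i => sq_nonneg _
  have hTk : ∀ j (k : Fin n2), (av fun i' => ‖ft (δ1 i' k j) χ‖ ^ 2) ≤ T j := fun j k => by
    rw [hT]
    exact Finset.single_le_sum (f := fun k : Fin n2 => av fun i' => ‖ft (δ1 i' k j) χ‖ ^ 2)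
      (fun k _ => av_nonneg fun i => sq_nonneg _) (Finset.mem_univ k)
  have e2 : ∀ j : J1, (av fun j' => ‖ft (δ2 j k j') χ‖ ^ 2) ≤ C3 * (B ^ 2 + (B' + T j)) := by
    intro j
    refine h2 j B (B' + T j) hB (add_nonneg hB' (hT0 j)) (fun l => hα l.castSucc) ?_ k
    intro l
    refine Fin.addCases (fun l => ?_) (fun l => ?_) l
    · have e : (av fun i' => ‖ft ((Fin.append (fun l => γ l i') (fun k => δ1 i' k j) :
          Fin (q + n2) → Dir G) (Fin.castAdd n2 l)) χ‖ ^ 2) = av fun i => ‖ft (γ l i) χ‖ ^ 2 := by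
        refine congrArg av (funext fun i => ?_)
        rw [Fin.append_left]
      rw [e]
      have := hγ l
      have := hT0 j
      linarith
    · have e : (av fun i' => ‖ft ((Fin.append (fun l => γ l i') (fun k => δ1 i' k j) :
          Fin (q + n2) → Dir G) (Fin.natAdd q l)) χ‖ ^ 2) = av fun i' => ‖ft (δ1 i' l j) χ‖ ^ 2 := by
        refine congrArg av (funext fun i => ?_)
        rw [Fin.append_right]
      rw [e]
      have := hTk j l
      linarith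
  -- the average of `T`
  have e3 : av T ≤ n2 * (C2 * (2 * B ^ 2 + B')) := by
    rw [hT, av_sum]
    have : ∀ k : Fin n2, (av fun j => av fun i' => ‖ft (δ1 i' k j) χ‖ ^ 2) ≤ C2 * (2 * B ^ 2 + B') := by
      intro k
      rw [av_comm]
      refine (av_mono fun i' => e1 i' k).trans ?_
      rw [av_mul_left]
      refine mul_le_mul_of_nonneg_left ?_ hC2
      have e : (av fun i' => B ^ 2 + (B * g i' + B')) = B ^ 2 + (B * av g + B') := by
        rw [av_add, av_add, av_const, av_const, av_mul_left]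
      rw [e]
      have := mul_le_mul_of_nonneg_left hgB hB
      nlinarith
    refine (Finset.sum_le_sum fun k _ => this k).trans (le_of_eq ?_)
    rw [Finset.sum_const, Finset.card_univ, Fintype.card_fin, nsmul_eq_mul]
  have e4 : (av fun x : J1 × J2 => ‖ft (δ2 x.1 k x.2) χ‖ ^ 2) ≤ C3 * (B ^ 2 + (B' + av T)) := by
    rw [av_prod]
    refine (av_mono e2).trans (le_of_eq ?_)
    rw [av_mul_left, av_add, av_add, av_const, av_const]
  refine e4.trans ?_
  rw [mul_assoc]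
  refine mul_le_mul_of_nonneg_left ?_ hC3
  have hn : (0 : ℝ) ≤ n2 * C2 := mul_nonneg (Nat.cast_nonneg _) hC2
  have h5 : 0 ≤ n2 * C2 * B' := mul_nonneg hn hB'
  nlinarith

end Pool.Agent.HPP
end

-- from Lib.HPP.A9
section

/-!
# Project HPP, A9 (M): the statement `T_p`
-/

open Finset

namespace Pool.Agent.HPP

/-- The case without pure directions: `J = I`, `δ = γ`, `E = 1`, `n = q`, `C = 1`. -/
theorem A9_zero (q : ℕ) : TP 0 q 1 q 1 := by
  intro I hI1 hI2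
  refine ⟨I, hI1, hI2, fun G _ _ α γ => ⟨γ, fun N f hN hf => ?_, fun χ B B' hB hB' _ hγ k => ?_⟩⟩
  · simp only [List.ofFn_zero, List.nil_append, pow_one]
    exact le_rfl
  · have h1 := hγ k
    have h2 : 0 ≤ B ^ 2 := sq_nonneg B
    linarith

/-- **The step.** `choose` the data for every `i'` and every `j` (the type `J1` does not depend on `i'`: in `TP` it is chosen before `α, γ`), `J = J1 × J2`,
`δ k x = δ2 x.1 k x.2`, `A9_ineq`, `A9_four`. The extras of the second application as functions of `i'`: `Fin.append γ (fun k i' => δ1 i' k j)`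
(rewrite `Fin.append` at a point by `Fin.addCases` / `funext`). -/
theorem A9_step (p q E2 n2 E3 n3 : ℕ) (C2 C3 : ℝ) (hC2 : 0 ≤ C2) (hC3 : 0 ≤ C3) (h2 : TP p (q + 1) E2 n2 C2)
    (h3 : TP p (q + n2) E3 n3 C3) : TP (p + 1) q (2 ^ (2 * (p + q) + 1) * E2 * E3) n3 (C3 * (1 + 2 * n2 * C2)) := by
  intro I hI1 hI2
  obtain ⟨J1, hJ1, hJ1', H1⟩ := h2 I
  obtain ⟨J2, hJ2, hJ2', H2⟩ := h3 I
  refine ⟨J1 × J2, inferInstance, inferInstance, fun G _ _ α γ => ?_⟩
  have K1 := fun i' : I => H1 G (fun l : Fin p => α l.castSucc)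
    (fun (l : Fin (q + 1)) (i : I) => (Fin.cons ((α (Fin.last p) i').sub (α (Fin.last p) i)) (fun l => γ l i) :
      Fin (q + 1) → Dir G) l)
  choose δ1 hδ1 hδ1' using K1
  have K2 := fun j : J1 => H2 G (fun l : Fin p => α l.castSucc)
    (fun (l : Fin (q + n2)) (i' : I) => (Fin.append (fun l => γ l i') (fun k => δ1 i' k j) : Fin (q + n2) → Dir G) l)
  choose δ2 hδ2 hδ2' using K2
  refine ⟨fun k x => δ2 x.1 k x.2, fun N f hN hf => ?_, fun χ B B' hB hB' hα hγ k => ?_⟩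
  · exact A9_ineq p q E2 n2 E3 n3 N hN α γ δ1 δ2 (fun i' f hf => hδ1 i' N f hN hf) (fun j f hf => hδ2 j N f hN hf) f hf
  · exact A9_four p q n2 n3 C2 C3 hC2 hC3 α γ δ1 δ2 χ (fun i' B B' hB hB' ha hc k => hδ1' i' χ B B' hB hB' ha hc k)
      (fun j B B' hB hB' ha hc k => hδ2' j χ B B' hB hB' ha hc k) B B' hB hB' hα hγ k

/-- **T_p for all `p`, `q`.** Induction on `p` (for all `q`). -/
theorem A9_all (p : ℕ) : ∀ q : ℕ, ∃ (E n : ℕ) (C : ℝ), 0 < E ∧ 0 ≤ C ∧ TP p q E n C := by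
  induction p with
  | zero => exact fun q => ⟨1, q, 1, one_pos, zero_le_one, A9_zero q⟩
  | succ p ih =>
    intro q
    obtain ⟨E2, n2, C2, hE2, hC2, h2⟩ := ih (q + 1)
    obtain ⟨E3, n3, C3, hE3, hC3, h3⟩ := ih (q + n2)
    exact ⟨2 ^ (2 * (p + q) + 1) * E2 * E3, n3, C3 * (1 + 2 * n2 * C2), by positivity, by positivity,
      A9_step p q E2 n2 E3 n3 C2 C3 hC2 hC3 h2 h3⟩

end Pool.Agent.HPP
end

-- from Lib.HPP.A10
section

/-!
# Project HPP, A10 (S/M): the iterated concatenation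
-/

open Finset

namespace Pool.Agent.HPP

/-- **CONC.** Proof. Induction on `ν` (for all `p`). `ν = 0`: `J = I`, `δ = α`, `E = 1`, `C = 1` (`B ^ 1 = B`). Step: `A9_all p 0`
gives `E1, n1, C1`, `J1`, `δ1` (no extras, `B' = 0`, `List.ofFn` of a function on `Fin 0` is `[]`): averages `≤ C1 B²`; the induction hypothesis for `p := n1`,
`I := J1`, `α := δ1`, `B := C1 B²` gives `≤ C2 (C1 B²) ^ (2 ^ ν) = C2 C1 ^ (2 ^ ν) B ^ (2 ^ (ν + 1))`; exponents multiply
(`x ^ (E1 E2) = (x ^ E1) ^ E2 ≤ (av ..) ^ E2`). -/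
theorem A10_conc (ν : ℕ) : ∀ p : ℕ, ∃ (E n : ℕ) (C : ℝ), 0 < E ∧ 0 ≤ C ∧ TN p ν E n C := by
  induction ν with
  | zero =>
    intro p
    refine ⟨1, p, 1, one_pos, zero_le_one, fun I hI1 hI2 => ⟨I, hI1, hI2, fun G _ _ α => ⟨α, fun N f hN hf => ?_,
      fun χ B hB hα k => ?_⟩⟩⟩
    · rw [pow_one]
    · rw [pow_zero, pow_one, one_mul]
      exact hα k
  | succ ν ih =>
    intro p
    obtain ⟨E1, n1, C1, hE1, hC1, h1⟩ := A9_all p 0
    obtain ⟨E2, n2, C2, hE2, hC2, h2⟩ := ih n1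
    refine ⟨E1 * E2, n2, C2 * C1 ^ (2 ^ ν), by positivity, by positivity, fun I hI1 hI2 => ?_⟩
    obtain ⟨J1, hJ1, hJ1', H1⟩ := h1 I
    obtain ⟨J2, hJ2, hJ2', H2⟩ := h2 J1
    refine ⟨J2, hJ2, hJ2', fun G _ _ α => ?_⟩
    obtain ⟨δ1, K1, K1'⟩ := H1 G α (fun l _ => l.elim0)
    obtain ⟨δ2, K2, K2'⟩ := H2 G δ1
    refine ⟨δ2, fun N f hN hf => ?_, fun χ B hB hα k => ?_⟩
    · have a1 := K1 N f hN hf
      have a2 := K2 N f hN hf
      simp only [List.ofFn_zero, List.append_nil] at a1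
      rw [pow_mul]
      refine le_trans ?_ a2
      refine pow_le_pow_left₀ (pow_nonneg (div_nonneg (av_nonneg fun i => NN_nonneg _ _) hN.le) _) a1 E2
    · have b1 := K1' χ B 0 hB le_rfl hα (fun l => l.elim0)
      have b2 := K2' χ (C1 * (B ^ 2 + 0)) (by positivity) b1 k
      refine b2.trans (le_of_eq ?_)
      rw [add_zero, mul_pow, ← pow_mul, mul_assoc]
      congr 3
      ring

end Pool.Agent.HPP
end

-- from Lib.HPP.B5a
section

/-!
# Project HPP, B5a (M): coefficients in the extended family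
-/

open Finset Polynomial

namespace Pool.Agent.HPP

private theorem b5a_step {M : ℕ} (N : ℝ) (d : ℕ) (h : ℤ) (W : ℤ[X]) (w : ℤ) (hW : PD d w W) (L : Fam M) (m : ℕ) (u : ℕ → ℤ)
    (hL : L.length = 2 ^ m) (H : ∀ (j : ℕ) (hj : j < L.length), FN N (L[j]).1 ∧ PD d (u j) (L[j]).2) :
    ∀ (j : ℕ) (hj : j < (XO h W L).length), FN N ((XO h W L)[j]).1 ∧
      PD d (u (j % 2 ^ m) + if j.testBit m then w else 0) ((XO h W L)[j]).2 := by
  intro j hj
  by_cases hjm : j < L.length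
  · have e : (XO h W L)[j] = L[j] := List.getElem_append_left hjm
    have hj2 : j < 2 ^ m := by rw [← hL]; exact hjm
    rw [e, Nat.mod_eq_of_lt hj2, Nat.testBit_lt_two_pow hj2, if_neg (by simp), add_zero]
    exact H j hjm
  · have hjm' : L.length ≤ j := not_lt.mp hjm
    have hlen : j - L.length < L.length := by
      have h1 : (XO h W L).length = L.length + L.length := by
        unfold XO
        rw [List.length_append, List.length_map]
      rw [h1] at hj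
      omega
    have e : (XO h W L)[j] = ((fun y => (starRingEnd ℂ) ((L[j - L.length]).1 y)), W + taylor h (L[j - L.length]).2) := by
      unfold XO
      rw [List.getElem_append_right hjm', List.getElem_map]
    have hj3 : j - L.length < 2 ^ m := by rw [← hL]; exact hlen
    obtain ⟨i, hi⟩ : ∃ i, i = j - L.length := ⟨_, rfl⟩
    have hji : j = 2 ^ m + i := by rw [hi, ← hL]; omega
    have hi2 : i < 2 ^ m := by rw [hi]; exact hj3
    have e1 : j % 2 ^ m = i := by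
      rw [hji, Nat.add_mod_left, Nat.mod_eq_of_lt hi2]
    have e2 : j.testBit m = true := by
      rw [hji, Nat.testBit_two_pow_add_eq, Nat.testBit_lt_two_pow hi2]
      rfl
    have H2 := H (j - L.length) hlen
    rw [e, e1, e2, if_pos rfl]
    refine ⟨⟨fun y => ?_, ?_⟩, ?_⟩
    · rw [RCLike.norm_conj]
      exact H2.1.le y
    · obtain ⟨S, hS, hS2⟩ := H2.1.sup
      refine ⟨S, hS, fun y hy => ?_⟩
      show (starRingEnd ℂ) ((L[j - L.length]).1 y) = 0
      rw [hS2 y hy, map_zero]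
    · rw [add_comm]
      have H3 : PD d (u i) (L[j - L.length]).2 := by
        rw [hi]
        exact H2.2
      exact PD.add hW (PD.taylor H3 h)

/-- **B5a.** Coefficients in the extended family. Proof. Induction on `ops`, generalising `L`, `m`, `u`. Step with `p = (h, W)`: `XO p.1 p.2 L` has length
`2 ^ (m + 1)`; its entry `j < 2 ^ m` is that of `L`, the entry `2 ^ m + j` has the polynomial `W + taylor h V` (`PD.add`, `PD.taylor`) and coefficient
`w + u j`. So the hypothesis holds with `u' j = u (j % 2 ^ m) + if j.testBit m then w else 0`. -/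
theorem B5_coef {M : ℕ} (N : ℝ) (d : ℕ) (ops : List (ℤ × ℤ[X])) : ∀ (ws : List ℤ) (L : Fam M) (m : ℕ) (u : ℕ → ℤ),
    List.Forall₂ (fun (p : ℤ × ℤ[X]) (w : ℤ) => PD d w p.2) ops ws → L.length = 2 ^ m →
    (∀ (j : ℕ) (hj : j < L.length), FN N (L[j]).1 ∧ PD d (u j) (L[j]).2) →
    ∀ (j : ℕ) (hj : j < (XL ops L).length), FN N ((XL ops L)[j]).1 ∧
      PD d (u (j % 2 ^ m) + ∑ i ∈ range ws.length, if j.testBit (m + i) then ws.getD i 0 else 0) ((XL ops L)[j]).2 := by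
  induction ops with
  | nil =>
    intro ws L m u hf hL H j hj
    cases hf
    have hj2 : j < 2 ^ m := by rw [← hL]; exact hj
    rw [List.length_nil, Finset.sum_range_zero, add_zero, Nat.mod_eq_of_lt hj2]
    exact H j hj
  | cons p ops ih =>
    intro ws L m u hf hL H
    cases hf with
    | @cons _ w _ ws' hw hf' =>
      intro j hj
      have hL' : (XO p.1 p.2 L).length = 2 ^ (m + 1) := by
        unfold XO
        rw [List.length_append, List.length_map, hL, pow_succ]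
        ring
      have h1 := ih ws' (XO p.1 p.2 L) (m + 1) (fun j => u (j % 2 ^ m) + if j.testBit m then w else 0) hf' hL'
        (b5a_step N d p.1 p.2 w hw L m u hL H) j hj
      refine ⟨h1.1, ?_⟩
      have h2 := h1.2
      have e1 : j % 2 ^ (m + 1) % 2 ^ m = j % 2 ^ m := Nat.mod_mod_of_dvd j (pow_dvd_pow 2 (Nat.le_succ m))
      have e2 : (j % 2 ^ (m + 1)).testBit m = j.testBit m := by
        rw [Nat.testBit_mod_two_pow]
        simp
      simp only [e1, e2] at h2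
      have e3 : ∑ i ∈ range (w :: ws').length, (if j.testBit (m + i) then (w :: ws').getD i 0 else 0) =
          (∑ i ∈ range ws'.length, if j.testBit (m + 1 + i) then ws'.getD i 0 else 0) + if j.testBit m then w else 0 := by
        rw [List.length_cons, Finset.sum_range_succ']
        congr 1
        refine Finset.sum_congr rfl fun i _ => ?_
        rw [List.getD_cons_succ, show m + (i + 1) = m + 1 + i by omega]
      rw [e3]
      have e4 : u (j % 2 ^ m) + ((∑ i ∈ range ws'.length, if j.testBit (m + 1 + i) then ws'.getD i 0 else 0) +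
          if j.testBit m then w else 0) = (u (j % 2 ^ m) + if j.testBit m then w else 0) +
          ∑ i ∈ range ws'.length, if j.testBit (m + 1 + i) then ws'.getD i 0 else 0 := by ring
      rw [e4]
      exact h2

end Pool.Agent.HPP
end

-- from Lib.HPP.B5
section

/-!
# Project HPP, B5 (M): the family of the copies of the target
-/

open Finset Polynomial

namespace Pool.Agent.HPP

theorem b5_first {M : ℕ} (ops : List (ℤ × ℤ[X])) : ∀ (p : (ZMod M → ℂ) × ℤ[X]) (L : Fam M), ∃ T : Fam M, XL ops (p :: L) = p :: T := by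
  induction ops with
  | nil => intro p L; exact ⟨L, rfl⟩
  | cons o ops ih =>
    intro p L
    exact ih p _

theorem b5_ws (d : ℕ) (R : List ℤ) (l : List ℤ) : ∀ (W : List ℤ[X]) (lab : List ℕ),
    List.Forall₂ (fun (p : ℤ × ℤ[X]) (k : ℕ) => PW (d + 1) p.1 (R.getD k 0) p.2) (l.zip W) lab →
    List.Forall₂ (fun (p : ℤ × ℤ[X]) (w : ℤ) => PD d w p.2) (l.zip W)
      (List.zipWith (fun (h : ℤ) (k : ℕ) => -(((d : ℤ) + 1) * h * R.getD k 0)) l lab) := by
  induction l with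
  | nil =>
    intro W lab _
    simp
  | cons a l ih =>
    intro W lab h
    cases W with
    | nil =>
      cases lab with
      | nil => simp
      | cons k lab => simp at h
    | cons w W =>
      cases lab with
      | nil => simp at h
      | cons k lab =>
        rw [List.zip_cons_cons] at h ⊢
        rw [List.forall₂_cons] at h
        rw [List.zipWith_cons_cons, List.forall₂_cons]
        exact ⟨h.1, ih W lab h.2⟩

theorem b5_rn (d q : ℕ) (lab : List ℕ) (r : Fin q → ℤ) (l : List ℤ) (hl : l.length = lab.length) (j : ℕ) :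
    (∑ i ∈ range (List.zipWith (fun (h : ℤ) (k : ℕ) => -(((d : ℤ) + 1) * h * (List.ofFn r).getD k 0)) l lab).length,
      if j.testBit i then (List.zipWith (fun (h : ℤ) (k : ℕ) => -(((d : ℤ) + 1) * h * (List.ofFn r).getD k 0)) l lab).getD i 0 else 0) =
    rn d lab r l j := by
  have hlen : (List.zipWith (fun (h : ℤ) (k : ℕ) => -(((d : ℤ) + 1) * h * (List.ofFn r).getD k 0)) l lab).length = lab.length := by
    rw [List.length_zipWith, hl, min_self]
  rw [rn, hlen, mul_sum, ← sum_neg_distrib]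
  refine sum_congr rfl fun i hi => ?_
  rw [mem_range] at hi
  split_ifs
  · rw [List.getD_eq_getElem _ _ (by rw [hlen]; exact hi), List.getElem_zipWith, List.getD_eq_getElem l _ (by rw [hl]; exact hi),
      List.getD_eq_getElem lab _ hi]
    ring
  · ring

/-- **B5b.** The family of the copies of `f0`: the first element is `(f0, 0)`, the others are `2 ^ ρ - 1` functions in `FN N` with coefficients
`rn d lab r l (j + 1)`. Proof. `B5_coef` with `L = [(f0, 0)]`, `m = 0`, `u = 0`, `ws = zipWith (fun h k => -((d+1) * h * r_k)) l lab`; the first element of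
`XL ops L` is the first one of `L` (induction). -/
theorem B5_fam {M : ℕ} (N : ℝ) (d q : ℕ) (lab : List ℕ) (r : Fin q → ℤ) (l : List ℤ) (W : List ℤ[X])
    (hl : l.length = lab.length) (hW : W.length = lab.length)
    (h : List.Forall₂ (fun (p : ℤ × ℤ[X]) (k : ℕ) => PW (d + 1) p.1 ((List.ofFn r).getD k 0) p.2) (l.zip W) lab)
    (f0 : ZMod M → ℂ) (hf : FN N f0) :
    ∃ (f : Fin (2 ^ lab.length - 1) → ZMod M → ℂ) (V : Fin (2 ^ lab.length - 1) → ℤ[X]),
      (∀ j, FN N (f j) ∧ PD d (rn d lab r l (j + 1)) (V j)) ∧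
      ∀ t n, EL (l.zip W) (pr [(f0, (0 : ℤ[X]))]) t n = f0 t * ∏ j, f j (t + (((V j).eval n : ℤ) : ZMod M)) := by
  obtain ⟨T, hT⟩ := b5_first (l.zip W) (f0, (0 : ℤ[X])) []
  have hlen := XL_length (l.zip W) [(f0, (0 : ℤ[X]))]
  have hzl : (l.zip W).length = lab.length := by rw [List.length_zip, hl, hW, min_self]
  rw [hT, hzl, List.length_cons, List.length_singleton, one_mul] at hlen
  have hTl : T.length = 2 ^ lab.length - 1 := by omega
  have hco := B5_coef N d (l.zip W) _ [(f0, (0 : ℤ[X]))] 0 (fun _ => 0) (b5_ws d (List.ofFn r) l W lab h) (by simp)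
    (by
      intro j hj
      have hj0 : j = 0 := by simpa using hj
      subst hj0
      refine ⟨hf, ?_⟩
      simp [PD])
  rw [← hTl]
  refine ⟨fun j => (T[j.1]).1, fun j => (T[j.1]).2, fun j => ?_, fun t n => ?_⟩
  · have h1 := hco (j.1 + 1) (by rw [hT, List.length_cons]; omega)
    simp only [hT, List.getElem_cons_succ, zero_add] at h1
    rw [b5_rn d q lab r l hl] at h1
    exact h1
  · rw [EL_pr, hT]
    simp only [pr, List.map_cons, List.prod_cons, eval_zero, Int.cast_zero, add_zero]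
    rw [← Fin.prod_univ_fun_getElem]

theorem b5_step {M : ℕ} (h : ℤ) (W : ℤ[X]) (a b : ℤ) :
    EO (M := M) h W (fun _ n => if n ∈ Ico a b then 1 else 0) =
      fun _ n => if n ∈ Ico (max a (a - h)) (min b (b - h)) then 1 else 0 := by
  funext t n
  simp only [EO, mem_Ico]
  by_cases h1 : a ≤ n ∧ n < b
  · by_cases h2 : a ≤ n + h ∧ n + h < b
    · rw [if_pos h1, if_pos h2, if_pos ⟨max_le h1.1 (by linarith [h2.1]), lt_min h1.2 (by linarith [h2.2])⟩]
      simp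
    · rw [if_pos h1, if_neg h2, if_neg]
      · simp
      · rintro ⟨h3, h4⟩
        rw [max_le_iff] at h3
        rw [lt_min_iff] at h4
        exact h2 ⟨by linarith [h3.2], by linarith [h4.2]⟩
  · rw [if_neg h1, zero_mul, if_neg]
    rintro ⟨h3, h4⟩
    rw [max_le_iff] at h3
    rw [lt_min_iff] at h4
    exact h1 ⟨h3.1, h4.1⟩

/-- **B5c.** The cutoff: products of indicators of intervals. `EL ops` of the indicator of `[a, b)` (as a function of `n` only) is the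
indicator of an interval `[a', b')` with `a ≤ a'`, `b' ≤ b`. Induction on `ops` (one operator: `[max a (a - h), min b (b - h))`). -/
theorem B5_cut {M : ℕ} (ops : List (ℤ × ℤ[X])) : ∀ a b : ℤ, ∃ a' b' : ℤ, a ≤ a' ∧ b' ≤ b ∧
    ∀ (t : ZMod M) (n : ℤ), EL ops (fun _ n => if n ∈ Ico a b then 1 else 0) t n = if n ∈ Ico a' b' then 1 else 0 := by
  induction ops with
  | nil => intro a b; exact ⟨a, b, le_rfl, le_rfl, fun t n => rfl⟩
  | cons p ops ih =>
    intro a b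
    obtain ⟨a', b', ha, hb, hh⟩ := ih (max a (a - p.1)) (min b (b - p.1))
    refine ⟨a', b', le_trans (le_max_left _ _) ha, le_trans hb (min_le_left _ _), fun t n => ?_⟩
    rw [← hh t n, EL, b5_step]

end Pool.Agent.HPP
end

-- from Lib.HPP.B6a
section

/-!
# Project HPP, B6a (S/M): from one-sided to two-sided differences
-/

open Finset Polynomial

namespace Pool.Agent.HPP

theorem b6a_av_iv (X : ℕ) (F : ℤ → ℝ) :
    (av fun h : Iv X => F (h : ℤ)) = (∑ h ∈ Icc (-(X : ℤ)) X, F h) / (2 * X + 1) := by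
  unfold av
  rw [Finset.sum_coe_sort (Icc (-(X : ℤ)) X) F, Fintype.card_coe, Int.card_Icc]
  have h1 : ((((X : ℤ) + 1 - -(X : ℤ)).toNat : ℕ) : ℝ) = 2 * X + 1 := by
    have h2 : ((X : ℤ) + 1 - -(X : ℤ)).toNat = 2 * X + 1 := by omega
    rw [h2]
    push_cast
    ring
  rw [h1]

theorem b6a_card (X : ℕ) (Φ : ℤ → ℝ) (h : ∀ x, 0 ≤ Φ x) :
    ((X : ℝ) + 1) * ∑ y ∈ Icc (-(X : ℤ)) X, Φ y ≤ ∑ x ∈ Icc (-(X : ℤ)) X, ∑ x' ∈ Icc (-(X : ℤ)) X, Φ (x - x') := by
  classical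
  have h1 : ((X : ℝ) + 1) * ∑ y ∈ Icc (-(X : ℤ)) X, Φ y = ∑ q ∈ Icc (-(X : ℤ)) X ×ˢ Icc (0 : ℤ) X, Φ q.1 := by
    rw [Finset.sum_product, Finset.mul_sum]
    refine Finset.sum_congr rfl fun y _ => ?_
    change _ = ∑ _y ∈ Icc (0 : ℤ) X, Φ y
    rw [Finset.sum_const, Int.card_Icc, nsmul_eq_mul]
    have h2 : ((X : ℤ) + 1 - 0).toNat = X + 1 := by omega
    rw [h2]
    push_cast
    ring
  have h3 : ∑ x ∈ Icc (-(X : ℤ)) X, ∑ x' ∈ Icc (-(X : ℤ)) X, Φ (x - x') =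
      ∑ p ∈ Icc (-(X : ℤ)) X ×ˢ Icc (-(X : ℤ)) X, Φ (p.1 - p.2) := by
    rw [Finset.sum_product]
  rw [h1, h3]
  set g : ℤ × ℤ → ℤ × ℤ := fun q => if 0 ≤ q.1 then (q.1 - q.2, -q.2) else (q.1 + q.2, q.2) with hg
  have hinj : Set.InjOn g (Icc (-(X : ℤ)) X ×ˢ Icc (0 : ℤ) X : Finset (ℤ × ℤ)) := by
    rintro ⟨a, b⟩ hab ⟨c, d⟩ hcd he
    rw [Finset.mem_coe, Finset.mem_product, Finset.mem_Icc, Finset.mem_Icc] at hab hcd
    simp only [hg] at he
    simp only at hab hcd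
    by_cases h0 : 0 ≤ a <;> by_cases h1 : 0 ≤ c <;> simp only [h0, h1, if_true, if_false, Prod.mk.injEq] at he <;>
      rw [Prod.mk.injEq] <;> omega
  have h4 : ∑ q ∈ Icc (-(X : ℤ)) X ×ˢ Icc (0 : ℤ) X, Φ q.1 =
      ∑ p ∈ (Icc (-(X : ℤ)) X ×ˢ Icc (0 : ℤ) X).image g, Φ (p.1 - p.2) := by
    rw [Finset.sum_image hinj]
    refine Finset.sum_congr rfl fun q _ => ?_
    simp only [hg]
    by_cases h0 : 0 ≤ q.1
    · simp only [h0, if_true]
      congr 1
      ring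
    · simp only [h0, if_false]
      congr 1
      ring
  rw [h4]
  refine Finset.sum_le_sum_of_subset_of_nonneg ?_ fun _ _ _ => h _
  intro p hp
  rw [Finset.mem_image] at hp
  obtain ⟨⟨a, b⟩, hq, rfl⟩ := hp
  rw [Finset.mem_product, Finset.mem_Icc, Finset.mem_Icc] at hq ⊢
  simp only at hq
  simp only [hg]
  by_cases h0 : 0 ≤ a
  · simp only [h0, if_true]
    omega
  · simp only [h0, if_false]
    omega

/-- **B6a.** One direction: for a non-negative function `Φ` of the difference: `x - x' = h` has at least `X + 1` solutions in `[-X, X]` for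
`|h| ≤ X`, so `av_h Φ(h) ≤ 2 av_{x, x'} Φ(x - x')`. -/
theorem B6_one (X : ℕ) (Φ : ℤ → ℝ) (h : ∀ x, 0 ≤ Φ x) :
    (av fun h : Iv X => Φ (h : ℤ)) ≤ 2 * av fun p : Iv X × Iv X => Φ ((p.1 : ℤ) - (p.2 : ℤ)) := by
  rw [av_prod (fun p : Iv X × Iv X => Φ ((p.1 : ℤ) - (p.2 : ℤ)))]
  have h1 : (av fun x : Iv X => av fun y : Iv X => Φ ((x : ℤ) - (y : ℤ))) =
      (∑ x ∈ Icc (-(X : ℤ)) X, ∑ x' ∈ Icc (-(X : ℤ)) X, Φ (x - x')) / (2 * X + 1) / (2 * X + 1) := by
    have h2 : ∀ x : Iv X, (av fun y : Iv X => Φ ((x : ℤ) - (y : ℤ))) =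
        (fun x : ℤ => (∑ y ∈ Icc (-(X : ℤ)) X, Φ (x - y)) / (2 * X + 1)) (x : ℤ) := fun x =>
      b6a_av_iv X fun y => Φ ((x : ℤ) - y)
    simp only [h2]
    rw [b6a_av_iv X fun x => (∑ y ∈ Icc (-(X : ℤ)) X, Φ (x - y)) / (2 * X + 1), ← Finset.sum_div]
  rw [h1, b6a_av_iv X Φ]
  have h3 := b6a_card X Φ h
  have h4 : 0 ≤ ∑ y ∈ Icc (-(X : ℤ)) X, Φ y := Finset.sum_nonneg fun x _ => h x
  have h5 : (0 : ℝ) < 2 * X + 1 := by positivity
  rw [div_div, ← mul_div_assoc, div_le_div_iff₀ h5 (by positivity)]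
  nlinarith [mul_le_mul_of_nonneg_right h3 h5.le, mul_nonneg h4 h5.le]

/-- **B6b.** All directions. Proof. Induction on `rs` (`AL_succ`, `NN_cons`): for `r :: rs` `B6_one` with
`Φ h = AL X ρ (fun l => ‖∑ DI .. (D2 0 (-(h r)) f)‖)`, induction hypothesis; `D2 (r x) (r x') f` is a translate of `D2 0 (r x' - r x) f` (`D2_zero`, `NN_trans`) and
`r x' - r x = -((x - x') r)`. -/
theorem B6_two {M : ℕ} [NeZero M] (X : ℕ) (rs : List ℤ) : ∀ f : ZMod M → ℂ,
    (AL X rs.length fun l => ‖∑ t, DI (List.zipWith (fun h r : ℤ => ((-(h * r) : ℤ) : ZMod M)) l rs) f t‖) ≤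
      2 ^ rs.length * NN (rs.map fun c => cdir M X c) f := by
  induction rs with
  | nil =>
    intro f
    rw [List.length_nil, AL_zero, List.map_nil, NN_nil, List.zipWith_nil_left]
    simp only [DI, pow_zero, one_mul, le_refl]
  | cons r rs ih =>
    intro f
    rw [List.length_cons, AL_succ]
    simp only [List.zipWith_cons_cons, DI]
    have h1 := B6_one X (fun h : ℤ => AL X rs.length fun l =>
      ‖∑ t, DI (List.zipWith (fun h r : ℤ => ((-(h * r) : ℤ) : ZMod M)) l rs) (D2 0 ((-(h * r) : ℤ) : ZMod M) f) t‖)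
      fun h => AL_nonneg X rs.length fun l _ => norm_nonneg _
    refine h1.trans ?_
    have h2 : ∀ p : Iv X × Iv X, (AL X rs.length fun l =>
        ‖∑ t, DI (List.zipWith (fun h r : ℤ => ((-(h * r) : ℤ) : ZMod M)) l rs)
          (D2 0 ((-(((p.1 : ℤ) - (p.2 : ℤ)) * r) : ℤ) : ZMod M) f) t‖) ≤
        2 ^ rs.length * NN (rs.map fun c => cdir M X c) (D2 ((cdir M X r).a p.1) ((cdir M X r).a p.2) f) := by
      intro p
      refine (ih _).trans (le_of_eq ?_)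
      congr 1
      have h3 : D2 ((cdir M X r).a p.1) ((cdir M X r).a p.2) f =
          fun y => (D2 0 ((-(((p.1 : ℤ) - (p.2 : ℤ)) * r) : ℤ) : ZMod M) f) (y + (cdir M X r).a p.1) := by
        funext y
        rw [D2_zero]
        have h4 : (cdir M X r).a p.2 - (cdir M X r).a p.1 = ((-(((p.1 : ℤ) - (p.2 : ℤ)) * r) : ℤ) : ZMod M) := by
          simp only [cdir]
          push_cast
          ring
        rw [h4]
      rw [h3, NN_trans]
    have h5 : (av fun p : Iv X × Iv X => AL X rs.length fun l =>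
        ‖∑ t, DI (List.zipWith (fun h r : ℤ => ((-(h * r) : ℤ) : ZMod M)) l rs)
          (D2 0 ((-(((p.1 : ℤ) - (p.2 : ℤ)) * r) : ℤ) : ZMod M) f) t‖) ≤
        2 ^ rs.length * NN (cdir M X r :: rs.map fun c => cdir M X c) f := by
      rw [NN_cons, ← av_mul_left]
      exact av_mono h2
    rw [List.map_cons, pow_succ]
    nlinarith [h5]

end Pool.Agent.HPP
end

-- from Lib.HPP.B6
section

/-!
# Project HPP, B6 (M): degree one
-/

open Finset Polynomial

namespace Pool.Agent.HPP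

theorem b6_EL_const {M : ℕ} (ρ : ℕ → ℤ) (ops : List (ℤ × ℤ[X])) : ∀ (lab : List ℕ) (g : ZMod M → ℂ),
    List.Forall₂ (fun (p : ℤ × ℤ[X]) (k : ℕ) => PW 1 p.1 (ρ k) p.2) ops lab →
    EL ops (fun t _ => g t) = fun t _ =>
      DI (List.zipWith (fun h r : ℤ => ((-(h * r) : ℤ) : ZMod M)) (ops.map Prod.fst) (lab.map ρ)) g t := by
  induction ops with
  | nil =>
    intro lab g h
    cases h
    rfl
  | cons p ops ih =>
    intro lab g h
    cases h with
    | @cons _ k _ lab' h1 h2 =>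
      have h3 : EO p.1 p.2 (fun (t : ZMod M) (_ : ℤ) => g t) = fun t _ => D2 0 ((-(p.1 * ρ k) : ℤ) : ZMod M) g t := by
        funext t n
        simp only [EO, D2, add_zero]
        have h4 : p.2.eval n = -(p.1 * ρ k) := by
          rw [PD.const h1 n]
          push_cast
          ring
        rw [h4]
      simp only [EL, h3, List.map_cons, List.zipWith_cons_cons, DI]
      exact ih lab' (D2 0 ((-(p.1 * ρ k) : ℤ) : ZMod M) g) h2

theorem b6_list {M : ℕ} (X : ℕ) (ρ : ℕ → ℤ) (lab : List ℕ) :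
    ((lab.map ρ).map fun c => cdir M X c) = List.ofFn fun k : Fin lab.length => cdir M X (ρ (lab.getD k 0)) := by
  refine List.ext_getElem ?_ fun i h1 h2 => ?_
  · simp only [List.length_map, List.length_ofFn]
  · rw [List.getElem_map, List.getElem_map, List.getElem_ofFn]
    have h3 : i < lab.length := by
      simpa only [List.length_map] using h1
    simp only [List.getD_eq_getElem _ _ h3]

/-- **B6c. Degree 1.** `c r k l = r_{lab k}` (no parameters). Proof. `KF 1` with `C = ofFn fun j => (r j, [(f j, R j)])`,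
`A t n = (if n ∈ Ico a b then 1 else 0) * f0 t` (`Vn`: `0 ≤ a`, `b ≤ X`). All `W` are constants (`PD 0`): `EL` of `f0` is
`DI [w_1, ..] f0 t`, `w_i = -(h_i r_{lab i})` (`PD.const`), times the indicator of an interval (`EL_mul`, `B5_cut`): `‖SS‖ ≤ X ‖∑_t DI .. f0 t‖`. `B6_two`
with `rs = lab.map (fun k => (ofFn r).getD k 0)`. -/
theorem B6_FU (q : ℕ) (lab : List ℕ) (h : KF 1 (List.replicate q 1) lab) :
    FU 1 q 0 lab.length (2 ^ lab.length) (3 ^ (2 ^ lab.length) * 2 ^ lab.length)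
      (fun r k _ => (List.ofFn r).getD (lab.getD k 0) 0) := by
  intro M _ X N hX hN r f R hfR f0 hf0 a b ha hb
  have hXr : (0 : ℝ) < X := Nat.cast_pos.2 hX
  set C : List (ℤ × Fam M) := List.ofFn fun j => (r j, [(f j, R j)]) with hC
  have hC1 : (C.map fun c => c.2.length) = List.replicate q 1 := by
    rw [hC, List.map_ofFn]
    refine List.ext_getElem ?_ fun i h1 h2 => ?_
    · simp only [List.length_ofFn, List.length_replicate]
    · rw [List.getElem_ofFn, List.getElem_replicate]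
      rfl
  have hC2 : C.map Prod.fst = List.ofFn r := by
    rw [hC, List.map_ofFn]
    rfl
  have hC3 : ∀ c ∈ C, Cls N 1 c.1 c.2 := by
    intro c hc
    rw [hC, List.mem_ofFn] at hc
    obtain ⟨j, rfl⟩ := hc
    intro p hp
    rw [List.mem_singleton] at hp
    rw [hp]
    exact hfR j
  have hC4 : ∀ t n, (C.map fun c => pr c.2 t n).prod = ∏ j, f j (t + (((R j).eval n : ℤ) : ZMod M)) := by
    intro t n
    rw [hC, List.map_ofFn, List.prod_ofFn]
    refine Finset.prod_congr rfl fun j _ => ?_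
    simp only [Function.comp_apply, pr, List.map_cons, List.map_nil, List.prod_singleton]
  have hA : Vn X (fun (t : ZMod M) (n : ℤ) => (if n ∈ Ico a b then (1 : ℂ) else 0) * f0 t) := by
    intro t n hn
    have h1 : n ∉ Ico a b := by
      rw [mem_Ico] at hn ⊢
      omega
    simp only [h1, if_false, zero_mul]
  obtain ⟨W, hW1, hW2⟩ := h M X N hX hN C hC1 hC3 _ hA
  have h1 : (SS X fun (t : ZMod M) (n : ℤ) => ((if n ∈ Ico a b then (1 : ℂ) else 0) * f0 t) * (C.map fun c => pr c.2 t n).prod) =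
      ∑ t : ZMod M, ∑ n ∈ Ico a b, f0 t * ∏ j, f j (t + (((R j).eval n : ℤ) : ZMod M)) := by
    unfold SS
    refine Finset.sum_congr rfl fun t _ => ?_
    have h2 : Ico a b ⊆ Ico (0 : ℤ) X := Ico_subset_Ico ha hb
    rw [← Finset.sum_subset h2 (f := fun n => ((if n ∈ Ico a b then (1 : ℂ) else 0) * f0 t) * (C.map fun c => pr c.2 t n).prod)]
    · refine Finset.sum_congr rfl fun n hn => ?_
      rw [hC4]
      simp only [hn, if_true, one_mul]
    · intro n _ hn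
      simp only [hn, if_false, zero_mul]
  rw [h1] at hW2
  refine hW2.trans ?_
  rw [AL_zero]
  set ρ : ℕ → ℤ := fun k => (List.ofFn r).getD k 0 with hρ
  have h3 : (AL X lab.length fun l => ‖SS X (EL (l.zip (W l)) fun (t : ZMod M) (n : ℤ) => (if n ∈ Ico a b then (1 : ℂ) else 0) * f0 t)‖ / (N * X)) ≤
      AL X lab.length fun l => N⁻¹ * ‖∑ t, DI (List.zipWith (fun h r : ℤ => ((-(h * r) : ℤ) : ZMod M)) l (lab.map ρ)) f0 t‖ := by
    refine AL_mono X lab.length fun l hl => ?_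
    obtain ⟨hWl, hWF⟩ := hW1 l hl
    rw [hC2] at hWF
    rw [EL_mul (l.zip (W l)) (fun (_ : ZMod M) (n : ℤ) => if n ∈ Ico a b then (1 : ℂ) else 0) (fun t _ => f0 t)]
    obtain ⟨a', b', _, _, h4⟩ := B5_cut (M := M) (l.zip (W l)) a b
    rw [b6_EL_const ρ (l.zip (W l)) lab f0 hWF, List.map_fst_zip (by rw [hl, hWl])]
    have h5 : (SS X fun (t : ZMod M) (n : ℤ) => EL (l.zip (W l)) (fun (_ : ZMod M) (n : ℤ) => if n ∈ Ico a b then (1 : ℂ) else 0) t n *
        DI (List.zipWith (fun h r : ℤ => ((-(h * r) : ℤ) : ZMod M)) l (lab.map ρ)) f0 t) =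
        (∑ n ∈ Ico (0 : ℤ) X, if n ∈ Ico a' b' then (1 : ℂ) else 0) *
          ∑ t, DI (List.zipWith (fun h r : ℤ => ((-(h * r) : ℤ) : ZMod M)) l (lab.map ρ)) f0 t := by
      unfold SS
      rw [Finset.sum_mul_sum, Finset.sum_comm]
      refine Finset.sum_congr rfl fun n _ => Finset.sum_congr rfl fun t _ => ?_
      rw [h4]
    rw [h5, norm_mul]
    have h6 : ‖∑ n ∈ Ico (0 : ℤ) X, if n ∈ Ico a' b' then (1 : ℂ) else 0‖ ≤ X := by
      refine (norm_sum_le _ _).trans ?_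
      refine (Finset.sum_le_card_nsmul _ _ 1 fun n _ => ?_).trans ?_
      · by_cases h : n ∈ Ico a' b'
        · simp only [h, if_true, norm_one, le_refl]
        · simp only [h, if_false, norm_zero, zero_le_one]
      · rw [Int.card_Ico, nsmul_eq_mul, mul_one]
        have h7 : ((X : ℤ) - 0).toNat = X := by omega
        rw [h7]
    rw [div_le_iff₀ (by positivity)]
    calc _ ≤ (X : ℝ) * ‖∑ t, DI (List.zipWith (fun h r : ℤ => ((-(h * r) : ℤ) : ZMod M)) l (lab.map ρ)) f0 t‖ :=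
          mul_le_mul_of_nonneg_right h6 (norm_nonneg _)
      _ = _ := by
          field_simp
  have h8 := B6_two X (lab.map ρ) f0
  rw [List.length_map, b6_list] at h8
  rw [AL_mul_left] at h3
  have h9 : 0 ≤ NN (List.ofFn fun k : Fin lab.length => cdir M X (ρ (lab.getD k 0))) f0 := NN_nonneg _ _
  have h10 : (3 : ℝ) ^ (2 ^ lab.length - 1) ≤ 3 ^ (2 ^ lab.length) := pow_le_pow_right₀ (by norm_num) (Nat.sub_le _ _)
  calc _ ≤ (3 : ℝ) ^ (2 ^ lab.length - 1) *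
        (N⁻¹ * (2 ^ lab.length * NN (List.ofFn fun k : Fin lab.length => cdir M X (ρ (lab.getD k 0))) f0)) := by
        refine mul_le_mul_of_nonneg_left (h3.trans ?_) (by positivity)
        exact mul_le_mul_of_nonneg_left h8 (by positivity)
    _ ≤ (3 : ℝ) ^ (2 ^ lab.length) *
        (N⁻¹ * (2 ^ lab.length * NN (List.ofFn fun k : Fin lab.length => cdir M X (ρ (lab.getD k 0))) f0)) :=
        mul_le_mul_of_nonneg_right h10 (by positivity)
    _ = _ := by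
        simp only [hρ]
        ring

/-- **B6d.** `κ = 1`, `j = lab k < q`. -/
theorem B6_EP (q : ℕ) (lab : List ℕ) (h : ∀ k ∈ lab, k < q) :
    EP 1 q 0 lab.length (fun r k _ => (List.ofFn r).getD (lab.getD k 0) 0) := by
  intro k
  have h1 : lab.getD k 0 = lab[(k : ℕ)] := List.getD_eq_getElem _ _ k.2
  have h2 : lab[(k : ℕ)] < q := h _ (List.getElem_mem _)
  refine ⟨1, one_ne_zero, ⟨lab[(k : ℕ)], h2⟩, ?_⟩
  intro M X _ χ r
  rw [AL_zero]
  have h3 : (List.ofFn r).getD (lab.getD k 0) 0 = r ⟨lab[(k : ℕ)], h2⟩ := by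
    rw [h1, List.getD_eq_getElem _ _ (by rw [List.length_ofFn]; exact h2), List.getElem_ofFn]
  simp only [h3, one_mul, Nat.sub_self, pow_zero, Real.rpow_one, le_refl]

end Pool.Agent.HPP
end

-- from Lib.HPP.B7a
section

/-!
# Project HPP, B7a (M): the step of the complete elimination, inequality
-/

open Finset Polynomial

namespace Pool.Agent.HPP

/-- The directions in the step. -/
def cnew (d : ℕ) {q n : ℕ} (lab : List ℕ) (c : (Fin (2 ^ lab.length - 1) → ℤ) → Fin n → List ℤ → ℤ) :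
    (Fin q → ℤ) → Fin n → List ℤ → ℤ :=
  fun r k l => c (fun j => rn d lab r (l.take lab.length) (j + 1)) k (l.drop lab.length)

private theorem b7a_sum {M : ℕ} [NeZero M] (X : ℕ) (a b : ℤ) (ha : 0 ≤ a) (hb : b ≤ X) (g : ZMod M → ℤ → ℂ) :
    SS X (fun t n => (if n ∈ Ico a b then 1 else 0) * g t n) = ∑ t : ZMod M, ∑ n ∈ Ico a b, g t n := by
  unfold SS
  refine Finset.sum_congr rfl fun t _ => ?_
  have hsub : Ico a b ⊆ Ico (0 : ℤ) X := Finset.Ico_subset_Ico ha hb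
  rw [← Finset.sum_subset hsub]
  · refine Finset.sum_congr rfl fun n hn => ?_
    show (if n ∈ Ico a b then (1 : ℂ) else 0) * g t n = _
    rw [if_pos hn, one_mul]
  · intro n _ hn
    show (if n ∈ Ico a b then (1 : ℂ) else 0) * g t n = _
    rw [if_neg hn, zero_mul]

private theorem b7a_pr {M : ℕ} (f0 : ZMod M → ℂ) (t : ZMod M) (n : ℤ) : pr [(f0, (0 : ℤ[X]))] t n = f0 t := by
  unfold pr
  simp

/-- **B7a.** Proof. `KF (d + 1)` with the singletons `C = ofFn fun j => (r j, [(f j, R j)])` and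
`A t n = (if n ∈ Ico a b then 1 else 0) * pr [(f0, 0)] t n`. For every `l` of length `lab.length`: `EL_mul`, `B5_cut`, `B5_fam`: the remaining sum is of the
form of `FU d` with the interval `[a', b')` (as a sum over `n ∈ Ico 0 X` of the indicator) and coefficients `rn d lab r l (j + 1)`. With
`x = ‖..‖ / (N X)`, `m = 2 ^ lab.length`: `x ^ (m E) ≤ (3 ^ (m - 1) AL y_l) ^ E ≤ 3 ^ (m E) AL (y_l ^ E) ≤ 3 ^ (m E) K AL (AL ..)` and `AL_add`, `AL_congr`
(`List.take_left'`, `List.drop_left'`). -/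
theorem B7_FU (d q ρ n E : ℕ) (K : ℝ) (hK : 0 ≤ K) (lab : List ℕ)
    (c : (Fin (2 ^ lab.length - 1) → ℤ) → Fin n → List ℤ → ℤ)
    (h1 : KF (d + 1) (List.replicate q 1) lab) (h2 : FU d (2 ^ lab.length - 1) ρ n E K c) :
    FU (d + 1) q (lab.length + ρ) n (2 ^ lab.length * E) (3 ^ (2 ^ lab.length * E) * K) (cnew d lab c) := by
  intro M _ X N hX hN r f R hfR f0 hf0 a b ha hb
  have hNX : (0 : ℝ) < N * X := mul_pos hN (Nat.cast_pos.2 hX)
  have hC1 : (((List.ofFn fun j => ((r j, [(f j, R j)]) : ℤ × Fam M)).map fun c => c.2.length)) = List.replicate q 1 := by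
    rw [List.map_ofFn]
    exact List.ofFn_const q 1
  have hC2 : ∀ c ∈ (List.ofFn fun j => ((r j, [(f j, R j)]) : ℤ × Fam M)), Cls N (d + 1) c.1 c.2 := by
    intro c hc
    rw [List.mem_ofFn] at hc
    obtain ⟨j, rfl⟩ := hc
    intro p hp
    rw [List.mem_singleton] at hp
    subst hp
    exact hfR j
  have hA : Vn X (fun (t : ZMod M) (n : ℤ) => (if n ∈ Ico a b then (1 : ℂ) else 0) * pr [(f0, (0 : ℤ[X]))] t n) := by
    intro t n hn
    have hn2 : n ∉ Ico a b := fun h => hn (Finset.Ico_subset_Ico ha hb h)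
    show (if n ∈ Ico a b then (1 : ℂ) else 0) * _ = 0
    rw [if_neg hn2, zero_mul]
  obtain ⟨W, hW, hin⟩ := h1 M X N hX hN _ hC1 hC2 _ hA
  have hfst : (List.ofFn fun j => ((r j, [(f j, R j)]) : ℤ × Fam M)).map Prod.fst = List.ofFn r := by
    rw [List.map_ofFn]
    rfl
  rw [hfst] at hW
  have hprod : ∀ (t : ZMod M) (n : ℤ), ((List.ofFn fun j => ((r j, [(f j, R j)]) : ℤ × Fam M)).map fun c => pr c.2 t n).prod =
      ∏ j, f j (t + (((R j).eval n : ℤ) : ZMod M)) := by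
    intro t n
    rw [List.map_ofFn, List.prod_ofFn]
    refine Finset.prod_congr rfl fun j _ => ?_
    show pr [(f j, R j)] t n = _
    unfold pr
    simp
  have hSS : (SS X fun (t : ZMod M) (n : ℤ) => ((if n ∈ Ico a b then (1 : ℂ) else 0) * pr [(f0, (0 : ℤ[X]))] t n) *
      ((List.ofFn fun j => ((r j, [(f j, R j)]) : ℤ × Fam M)).map fun c => pr c.2 t n).prod) =
      ∑ t : ZMod M, ∑ n ∈ Ico a b, f0 t * ∏ j, f j (t + (((R j).eval n : ℤ) : ZMod M)) := by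
    rw [← b7a_sum X a b ha hb]
    congr 1
    funext t n
    rw [hprod, b7a_pr, mul_assoc]
  rw [hSS] at hin
  have hy : ∀ l : List ℤ, (0 : ℝ) ≤ ‖SS X (EL (l.zip (W l)) fun (t : ZMod M) (n : ℤ) =>
      (if n ∈ Ico a b then (1 : ℂ) else 0) * pr [(f0, (0 : ℤ[X]))] t n)‖ / (N * X) := fun l => by positivity
  have hstep : ∀ l : List ℤ, l.length = lab.length → (‖SS X (EL (l.zip (W l)) fun (t : ZMod M) (n : ℤ) =>
      (if n ∈ Ico a b then (1 : ℂ) else 0) * pr [(f0, (0 : ℤ[X]))] t n)‖ / (N * X)) ^ E ≤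
      K * AL X ρ fun l' => NN (List.ofFn fun k => cdir M X (cnew d lab c r k (l ++ l'))) f0 / N := by
    intro l hl
    obtain ⟨hWl, hWf⟩ := hW l hl
    obtain ⟨a', b', ha', hb', hcut⟩ := B5_cut (M := M) (l.zip (W l)) a b
    obtain ⟨f', V, hfV, hfam⟩ := B5_fam N d q lab r l (W l) hl hWl hWf f0 hf0
    have e1 : SS X (EL (l.zip (W l)) fun (t : ZMod M) (n : ℤ) =>
        (if n ∈ Ico a b then (1 : ℂ) else 0) * pr [(f0, (0 : ℤ[X]))] t n) =
        ∑ t : ZMod M, ∑ n ∈ Ico a' b', f0 t * ∏ j, f' j (t + (((V j).eval n : ℤ) : ZMod M)) := by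
      rw [← b7a_sum X a' b' (ha.trans ha') (hb'.trans hb)]
      congr 1
      rw [EL_mul]
      funext t n
      rw [hcut t n, hfam t n]
    rw [e1]
    refine (h2 M X N hX hN (fun j => rn d lab r l (j + 1)) f' V hfV f0 hf0 a' b' (ha.trans ha') (hb'.trans hb)).trans (le_of_eq ?_)
    congr 1
    refine AL_congr X ρ fun l' _ => ?_
    have e2 : (l ++ l').take lab.length = l := by rw [← hl]; exact List.take_left
    have e3 : (l ++ l').drop lab.length = l' := by rw [← hl]; exact List.drop_left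
    unfold cnew
    rw [e2, e3]
  have hm : 1 ≤ 2 ^ lab.length := Nat.one_le_two_pow
  rw [pow_mul, AL_add]
  calc _ ≤ (3 ^ (2 ^ lab.length - 1) * AL X lab.length fun l => ‖SS X (EL (l.zip (W l)) fun (t : ZMod M) (n : ℤ) =>
        (if n ∈ Ico a b then (1 : ℂ) else 0) * pr [(f0, (0 : ℤ[X]))] t n)‖ / (N * X)) ^ E :=
      pow_le_pow_left₀ (by positivity) hin E
    _ = 3 ^ ((2 ^ lab.length - 1) * E) * (AL X lab.length fun l => ‖SS X (EL (l.zip (W l)) fun (t : ZMod M) (n : ℤ) =>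
        (if n ∈ Ico a b then (1 : ℂ) else 0) * pr [(f0, (0 : ℤ[X]))] t n)‖ / (N * X)) ^ E := by rw [mul_pow, ← pow_mul]
    _ ≤ 3 ^ (2 ^ lab.length * E) * (K * AL X lab.length fun l => AL X ρ fun l' =>
        NN (List.ofFn fun k => cdir M X (cnew d lab c r k (l ++ l'))) f0 / N) := by
      have h3 : (AL X lab.length fun l => ‖SS X (EL (l.zip (W l)) fun (t : ZMod M) (n : ℤ) =>
          (if n ∈ Ico a b then (1 : ℂ) else 0) * pr [(f0, (0 : ℤ[X]))] t n)‖ / (N * X)) ^ E ≤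
          K * AL X lab.length fun l => AL X ρ fun l' =>
            NN (List.ofFn fun k => cdir M X (cnew d lab c r k (l ++ l'))) f0 / N := by
        rw [← AL_mul_left]
        exact (AL_pow X lab.length E hy).trans (AL_mono X lab.length hstep)
      refine mul_le_mul ?_ h3 (pow_nonneg (AL_nonneg X _ fun l _ => hy l) E) (by positivity)
      refine pow_le_pow_right₀ (by norm_num) (Nat.mul_le_mul_right E (Nat.sub_le _ _))
    _ = _ := by rw [mul_assoc]

end Pool.Agent.HPP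
end

-- from Lib.HPP.B7
section

/-!
# Project HPP, B7 (S/M): the step of the complete elimination, energy
-/

open Finset Polynomial

namespace Pool.Agent.HPP

/-- **B7b.** Proof. Let `κ', j'` be those of `k` for `d`, `s = j' + 1` (`1 ≤ s < 2 ^ lab.length`), `i` with `s.testBit i` (then
`i < lab.length`), `j = lab i`, `κ = κ' (d + 1)`. `AL_add`: the left side is `AL_{l1} AL_{l2} KD 1 (c r'(l1) k l2) ≤
AL_{l1} (KD d (κ' r'_{j'}(l1))) ^ (1/2)^(d-1) ≤ (AL_{l1} KD d (κ' rn d lab r l1 s)) ^ (1/2)^(d-1)` (`C1_root`) and `C1_lin` bounds the average by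
`(KD (d + 1) (κ r_j)) ^ (1/2)`. -/
theorem B7_EP (d q ρ n : ℕ) (hd : 1 ≤ d) (lab : List ℕ) (hlab : ∀ k ∈ lab, k < q)
    (c : (Fin (2 ^ lab.length - 1) → ℤ) → Fin n → List ℤ → ℤ)
    (h2 : EP d (2 ^ lab.length - 1) ρ n c) : EP (d + 1) q (lab.length + ρ) n (cnew (q := q) d lab c) := by
  intro k
  obtain ⟨κ', hκ', j', hE⟩ := h2 k
  have hj' := j'.isLt
  have hslt : (j' : ℕ) + 1 < 2 ^ lab.length := by omega
  obtain ⟨i, hi⟩ : ∃ i, ((j' : ℕ) + 1).testBit i = true := Nat.exists_testBit_of_ne_zero (by omega)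
  have hil : i < lab.length := by
    by_contra hc
    push Not at hc
    have h3 : (j' : ℕ) + 1 < 2 ^ i := lt_of_lt_of_le hslt (Nat.pow_le_pow_right (by norm_num) hc)
    have h4 := Nat.testBit_lt_two_pow h3
    rw [hi] at h4
    exact Bool.noConfusion h4
  have hjq : lab.getD i 0 < q := by
    rw [List.getD_eq_getElem _ _ hil]
    exact hlab _ (List.getElem_mem hil)
  refine ⟨κ' * ((d : ℤ) + 1), mul_ne_zero hκ' (by omega), ⟨lab.getD i 0, hjq⟩, ?_⟩
  intro M X _ χ r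
  have hr : (List.ofFn r).getD (lab.getD i 0) 0 = r ⟨lab.getD i 0, hjq⟩ := by
    rw [List.getD_eq_getElem _ _ (by rw [List.length_ofFn]; exact hjq), List.getElem_ofFn]
  have e1 : (AL X (lab.length + ρ) fun l => KD X χ 1 (cnew (q := q) d lab c r k l)) =
      AL X lab.length fun l1 => AL X ρ fun l2 => KD X χ 1 (c (fun j => rn d lab r l1 (j + 1)) k l2) := by
    rw [AL_add]
    refine AL_congr X _ fun l1 hl1 => AL_congr X _ fun l2 _ => ?_
    unfold cnew
    rw [List.take_left' hl1, List.drop_left' hl1]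
  rw [e1]
  have e2 : (AL X lab.length fun l1 => AL X ρ fun l2 => KD X χ 1 (c (fun j => rn d lab r l1 (j + 1)) k l2)) ≤
      AL X lab.length fun l1 => (KD X χ d (κ' * rn d lab r l1 ((j' : ℕ) + 1))) ^ ((1 / 2 : ℝ) ^ (d - 1)) :=
    AL_mono X _ fun l1 _ => hE M X χ (fun j => rn d lab r l1 (j + 1))
  refine e2.trans ?_
  refine (C1_root X lab.length (d - 1) (F := fun l1 => KD X χ d (κ' * rn d lab r l1 ((j' : ℕ) + 1)))
    fun l => KD_nonneg X χ d _).trans ?_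
  have e3 := C1_lin X χ d hd lab r κ' ((j' : ℕ) + 1) i hil hi
  rw [hr] at e3
  have e4 : 0 ≤ AL X lab.length fun l => KD X χ d (κ' * rn d lab r l ((j' : ℕ) + 1)) :=
    AL_nonneg X _ fun l _ => KD_nonneg X χ d _
  refine (Real.rpow_le_rpow e4 e3 (by positivity)).trans (le_of_eq ?_)
  rw [← Real.rpow_mul (KD_nonneg X χ (d + 1) _)]
  congr 1
  rw [Nat.add_sub_cancel]
  obtain ⟨m, rfl⟩ : ∃ m, d = m + 1 := ⟨d - 1, by omega⟩
  rw [Nat.add_sub_cancel, pow_succ]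
  ring

/-- **B7c. PET and energy.** Induction on `d ≥ 1` (for all `q`): `B4_all`, `B6_FU`, `B6_EP`, `B7_FU`, `B7_EP`. -/
theorem B7_all (d : ℕ) (hd : 1 ≤ d) : ∀ q : ℕ, ∃ (ρ n E : ℕ) (K : ℝ) (c : (Fin q → ℤ) → Fin n → List ℤ → ℤ),
    0 < E ∧ 0 ≤ K ∧ FU d q ρ n E K c ∧ EP d q ρ n c := by
  induction d, hd using Nat.le_induction with
  | base =>
    intro q
    obtain ⟨lab, hlab, hKF⟩ := (B4_all 1).2 (List.replicate q 1)
    rw [List.length_replicate] at hlab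
    exact ⟨0, lab.length, 2 ^ lab.length, 3 ^ (2 ^ lab.length) * 2 ^ lab.length, _, by positivity, by positivity,
      B6_FU q lab hKF, B6_EP q lab hlab⟩
  | succ d hd ih =>
    intro q
    obtain ⟨lab, hlab, hKF⟩ := (B4_all (d + 1)).2 (List.replicate q 1)
    rw [List.length_replicate] at hlab
    obtain ⟨ρ, n, E, K, c, hE, hK, hFU, hEP⟩ := ih (2 ^ lab.length - 1)
    exact ⟨lab.length + ρ, n, 2 ^ lab.length * E, 3 ^ (2 ^ lab.length * E) * K, _, by positivity, by positivity,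
      B7_FU d q ρ n E K hK lab c hKF hFU, B7_EP d q ρ n hd lab hlab c hEP⟩

end Pool.Agent.HPP
end

-- from Lib.HPP.C6a
section

/-!
# Project HPP, C6a (M/L): PET and concatenation together
-/

open Finset Polynomial

namespace Pool.Agent.HPP


theorem c6a_pow (n m : ℕ) (b : Fin n → ℝ) (hb : ∀ k, 0 ≤ b k) (hm : 0 < m) :
    (∑ k, b k) ^ m ≤ (n : ℝ) ^ m * ∑ k, b k ^ m := by
  rcases Nat.eq_zero_or_pos n with rfl | hn
  · simp [hm.ne']
  · haveI : Nonempty (Fin n) := ⟨⟨0, hn⟩⟩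
    obtain ⟨k0, -, hk0⟩ := Finset.exists_max_image (Finset.univ : Finset (Fin n)) b Finset.univ_nonempty
    have h1 : ∑ k, b k ≤ n * b k0 := by
      have h2 := Finset.sum_le_card_nsmul (Finset.univ : Finset (Fin n)) b (b k0) (fun k _ => hk0 k (Finset.mem_univ k))
      rw [Finset.card_univ, Fintype.card_fin, nsmul_eq_mul] at h2
      exact h2
    have h3 : 0 ≤ ∑ k, b k := Finset.sum_nonneg fun k _ => hb k
    calc (∑ k, b k) ^ m ≤ (n * b k0) ^ m := pow_le_pow_left₀ h3 h1 m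
      _ = (n : ℝ) ^ m * b k0 ^ m := mul_pow _ _ _
      _ ≤ (n : ℝ) ^ m * ∑ k, b k ^ m := by
          apply mul_le_mul_of_nonneg_left _ (by positivity)
          exact Finset.single_le_sum (f := fun k => b k ^ m) (fun k _ => pow_nonneg (hb k) m) (Finset.mem_univ k0)

theorem c6a_exp (D : ℕ) (hD : 1 ≤ D) (x : ℝ) (hx : 0 ≤ x) (hx1 : x ≤ 1) :
    (x ^ ((1 / 2 : ℝ) ^ (D - 1))) ^ (2 ^ (2 * D - 1)) ≤ x ^ D := by
  have h1 : ((1 / 2 : ℝ) ^ (D - 1)) * ((2 ^ (2 * D - 1) : ℕ) : ℝ) = ((2 ^ D : ℕ) : ℝ) := by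
    obtain ⟨d, rfl⟩ : ∃ d, D = d + 1 := ⟨D - 1, by omega⟩
    have e1 : 2 * (d + 1) - 1 = d + (d + 1) := by omega
    rw [e1, Nat.add_sub_cancel]
    push_cast
    rw [pow_add (2 : ℝ) d (d + 1), ← mul_assoc, ← mul_pow]
    norm_num
  rw [← Real.rpow_mul_natCast hx, h1, Real.rpow_natCast]
  exact pow_le_pow_of_le_one hx hx1 (Nat.lt_two_pow_self).le

/-- **C6a.** After PET and `2 D - 1` concatenations. `n`, `E`, `K` depend only on `D` and `q`; `ks` are the numbers `κ r_j`.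
Proof. `B7_all` gives `ρ0, n0, E0, K0, c`; index type `I = Fin ρ0 → Iv X`, `α k v = cdir M X (c r k (List.ofFn v))`; `AL` is the average over `I`
(definition). `A10_conc (2 D - 1) n0`: `E1, n, C1`, `J`, `δ`. Inequality: `(K0 AL ..) ^ E1`. Fourier: by `EP`
`av_i ‖ft (α k i) χ‖² ≤ KD D (κ_k r_{j_k}) ^ ((1/2)^(D-1)) ≤ B := ∑_k KD D (κ_k r_{j_k}) ^ ((1/2)^(D-1))`, and
`B ^ (2 ^ (2 D - 1)) ≤ (n0) ^ (2 ^ (2 D - 1)) ∑_k KD ^ (2 ^ D) ≤ n0^.. ∑_k KD ^ D` (exponents: `(1/2)^(D-1) 2^(2D-1) = 2^D ≥ D`, `KD ≤ 1`;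
`inner_le_nnorm..` / `pow_sum_le`: `(∑_{k<n} x_k)^m ≤ n^m max ≤ n^m ∑ x_k^m`). -/
theorem C6_pre (D : ℕ) (hD : 1 ≤ D) (q : ℕ) : ∃ (n0 n E : ℕ) (K : ℝ) (κ : Fin n0 → ℤ) (jj : Fin n0 → Fin q), 0 < E ∧ 0 ≤ K ∧
    (∀ k, κ k ≠ 0) ∧ ∀ (X : ℕ), 0 < X → ∃ (J : Type) (_ : Fintype J) (_ : Nonempty J), ∀ (M : ℕ) [NeZero M] (r : Fin q → ℤ),
      ∃ δ : Fin n → J → Dir (ZMod M), (∀ (χ : AddChar (ZMod M) ℂ) (k : Fin n),
        (av fun j => ‖ft (δ k j) χ‖ ^ 2) ≤ K * ∑ i, KD X χ D (κ i * r (jj i)) ^ D) ∧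
      ∀ (N : ℝ), 0 < N → ∀ (f : Fin q → ZMod M → ℂ) (R : Fin q → ℤ[X]), (∀ j, FN N (f j) ∧ PD D (r j) (R j)) →
        ∀ f0 : ZMod M → ℂ, FN N f0 → ∀ a b : ℤ, 0 ≤ a → b ≤ X →
        (‖∑ t : ZMod M, ∑ n ∈ Ico a b, f0 t * ∏ j, f j (t + (((R j).eval n : ℤ) : ZMod M))‖ / (N * X)) ^ E ≤
          K * ((av fun j => NN (List.ofFn fun k => δ k j) f0) / N) := by
  obtain ⟨ρ0, n0, E0, K0, c, hE0, hK0, hFU, hEP⟩ := B7_all D hD q
  obtain ⟨E1, n, C1, hE1, hC1, hTN⟩ := A10_conc (2 * D - 1) n0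
  choose κ hκ jj hE using hEP
  refine ⟨n0, n, E0 * E1, K0 ^ E1 + C1 * (n0 : ℝ) ^ (2 ^ (2 * D - 1)), κ, jj, Nat.mul_pos hE0 hE1, by positivity, hκ, ?_⟩
  intro X hX
  obtain ⟨J, hJ1, hJ2, hJ⟩ := hTN (Fin ρ0 → Iv X)
  refine ⟨J, hJ1, hJ2, ?_⟩
  intro M _ r
  obtain ⟨δ, hδ1, hδ2⟩ := hJ (ZMod M) (fun k v => cdir M X (c r k (List.ofFn fun i => ((v i : Iv X) : ℤ))))
  refine ⟨δ, ?_, ?_⟩
  · intro χ k
    have hb : ∀ l : Fin n0, 0 ≤ (KD X χ D (κ l * r (jj l))) ^ ((1 / 2 : ℝ) ^ (D - 1)) :=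
      fun l => Real.rpow_nonneg (KD_nonneg X χ D _) _
    have hB : ∀ l : Fin n0, (av fun v : Fin ρ0 → Iv X =>
        ‖ft (cdir M X (c r l (List.ofFn fun i => ((v i : Iv X) : ℤ)))) χ‖ ^ 2) ≤
        ∑ l : Fin n0, (KD X χ D (κ l * r (jj l))) ^ ((1 / 2 : ℝ) ^ (D - 1)) := by
      intro l
      have h1 := hE l M X χ r
      unfold AL at h1
      have h2 : (av fun v : Fin ρ0 → Iv X =>
          ‖ft (cdir M X (c r l (List.ofFn fun i => ((v i : Iv X) : ℤ)))) χ‖ ^ 2) =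
          av fun v : Fin ρ0 → Iv X => KD X χ 1 (c r l (List.ofFn fun i => ((v i : Iv X) : ℤ))) := by
        congr 1
      rw [h2]
      refine h1.trans ?_
      exact Finset.single_le_sum (f := fun l => (KD X χ D (κ l * r (jj l))) ^ ((1 / 2 : ℝ) ^ (D - 1)))
        (fun l _ => hb l) (Finset.mem_univ l)
    have h3 := hδ2 χ _ (Finset.sum_nonneg fun l _ => hb l) hB k
    refine h3.trans ?_
    have h4 := c6a_pow n0 (2 ^ (2 * D - 1)) (fun l => (KD X χ D (κ l * r (jj l))) ^ ((1 / 2 : ℝ) ^ (D - 1))) hb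
      (by positivity)
    have h5 : ∑ l : Fin n0, ((KD X χ D (κ l * r (jj l))) ^ ((1 / 2 : ℝ) ^ (D - 1))) ^ (2 ^ (2 * D - 1)) ≤
        ∑ l : Fin n0, KD X χ D (κ l * r (jj l)) ^ D :=
      Finset.sum_le_sum fun l _ => c6a_exp D hD _ (KD_nonneg X χ D _) (KD_le X χ D _)
    have h6 : 0 ≤ ∑ l : Fin n0, KD X χ D (κ l * r (jj l)) ^ D :=
      Finset.sum_nonneg fun l _ => pow_nonneg (KD_nonneg X χ D _) D
    have h7 : (0 : ℝ) ≤ (n0 : ℝ) ^ (2 ^ (2 * D - 1)) := by positivity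
    calc C1 * (∑ l : Fin n0, (KD X χ D (κ l * r (jj l))) ^ ((1 / 2 : ℝ) ^ (D - 1))) ^ (2 ^ (2 * D - 1))
        ≤ C1 * ((n0 : ℝ) ^ (2 ^ (2 * D - 1)) *
          ∑ l : Fin n0, ((KD X χ D (κ l * r (jj l))) ^ ((1 / 2 : ℝ) ^ (D - 1))) ^ (2 ^ (2 * D - 1))) :=
          mul_le_mul_of_nonneg_left h4 hC1
      _ ≤ C1 * ((n0 : ℝ) ^ (2 ^ (2 * D - 1)) * ∑ l : Fin n0, KD X χ D (κ l * r (jj l)) ^ D) :=
          mul_le_mul_of_nonneg_left (mul_le_mul_of_nonneg_left h5 h7) hC1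
      _ = C1 * (n0 : ℝ) ^ (2 ^ (2 * D - 1)) * ∑ l : Fin n0, KD X χ D (κ l * r (jj l)) ^ D := by ring
      _ ≤ (K0 ^ E1 + C1 * (n0 : ℝ) ^ (2 ^ (2 * D - 1))) * ∑ l : Fin n0, KD X χ D (κ l * r (jj l)) ^ D := by
          apply mul_le_mul_of_nonneg_right _ h6
          have h8 : (0 : ℝ) ≤ K0 ^ E1 := by positivity
          linarith
  · intro N hN f R hf f0 hf0 a b ha hb
    have h1 := hFU M X N hX hN r f R hf f0 hf0 a b ha hb
    have h2 : (AL X ρ0 fun l => NN (List.ofFn fun k => cdir M X (c r k l)) f0 / N) =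
        (av fun v : Fin ρ0 → Iv X =>
          NN (List.ofFn fun k => cdir M X (c r k (List.ofFn fun i => ((v i : Iv X) : ℤ)))) f0) / N := by
      unfold AL
      exact av_div N _
    rw [h2] at h1
    have h3 := hδ1 N f0 hN hf0
    have hNN : ∀ L : List (Dir (ZMod M)), 0 ≤ NN L f0 := fun L => av_nonneg fun o => norm_nonneg _
    have h4 : 0 ≤ (av fun j => NN (List.ofFn fun k => δ k j) f0) / N :=
      div_nonneg (av_nonneg fun j => hNN _) hN.le
    have h5 : 0 ≤ ‖∑ t : ZMod M, ∑ n ∈ Ico a b, f0 t * ∏ j, f j (t + (((R j).eval n : ℤ) : ZMod M))‖ / (N * X) := by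
      positivity
    rw [pow_mul]
    refine (pow_le_pow_left₀ (pow_nonneg h5 _) h1 E1).trans ?_
    rw [mul_pow]
    calc K0 ^ E1 * ((av fun v : Fin ρ0 → Iv X =>
          NN (List.ofFn fun k => cdir M X (c r k (List.ofFn fun i => ((v i : Iv X) : ℤ)))) f0) / N) ^ E1
        ≤ K0 ^ E1 * ((av fun j => NN (List.ofFn fun k => δ k j) f0) / N) :=
          mul_le_mul_of_nonneg_left h3 (by positivity)
      _ ≤ (K0 ^ E1 + C1 * (n0 : ℝ) ^ (2 ^ (2 * D - 1))) * ((av fun j => NN (List.ofFn fun k => δ k j) f0) / N) := by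
          apply mul_le_mul_of_nonneg_right _ h4
          have h8 : (0 : ℝ) ≤ C1 * (n0 : ℝ) ^ (2 ^ (2 * D - 1)) := by positivity
          linarith

end Pool.Agent.HPP
end

-- from Lib.HPP.C6
section

/-!
# Project HPP, C6 (M): PET, concatenation and energy together
-/

open Finset Polynomial

namespace Pool.Agent.HPP

/-- **C6b. Theorem P on `ℤ/M`.** Proof. `C6_pre`, `en_ft`, `C4_main` (with `κ i * r (jj i) ≠ 0`, `M` large): `av_j en (δ k j) ≤
K n0 C X^(ε - D)` for every `k`; `C3_markov` with `lam = X^(-D + 2 ε)`: first term `n K n0 C X^(-ε)`. -/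
theorem C6_main (D : ℕ) (hD : 1 ≤ D) (q : ℕ) (Rm : ℕ) : ∃ (n E : ℕ), 0 < E ∧ ∀ ε : ℝ, 0 < ε → ∃ C : ℝ, 0 ≤ C ∧
    ∀ (M X : ℕ) [NeZero M] (N : ℝ), 0 < X → 0 < N → C * (X : ℝ) ^ D ≤ M →
    ∀ (r : Fin q → ℤ), (∀ j, r j ≠ 0) → (∀ j, |r j| ≤ Rm) → ∀ (f : Fin q → ZMod M → ℂ) (R : Fin q → ℤ[X]),
      (∀ j, FN N (f j) ∧ PD D (r j) (R j)) → ∀ f0 : ZMod M → ℂ, FN N f0 → ∀ a b : ℤ, 0 ≤ a → b ≤ X →
        (‖∑ t : ZMod M, ∑ n ∈ Ico a b, f0 t * ∏ j, f j (t + (((R j).eval n : ℤ) : ZMod M))‖ / (N * X)) ^ E ≤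
          C * ((X : ℝ) ^ (-ε) + (X : ℝ) ^ (n * (ε - D / 2)) * √(Gs (n + 1) f0) / N) := by
  classical
  obtain ⟨n0, n, E, K, κ, jj, hE, hK, hκ, hpre⟩ := C6_pre D hD q
  refine ⟨n, E, hE, fun ε hε => ?_⟩
  obtain ⟨C4, hC4, h4⟩ := C4_main D hD ε hε
  obtain ⟨Km, hKm⟩ : ∃ Km : ℕ, ∀ i, |κ i| ≤ Km := by
    refine ⟨∑ i, (κ i).natAbs, fun i => ?_⟩
    rw [Int.abs_eq_natAbs]
    exact_mod_cast Finset.single_le_sum (f := fun i => (κ i).natAbs) (fun _ _ => Nat.zero_le _) (mem_univ i)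
  obtain ⟨A, hA⟩ : ∃ A : ℝ, A = n * (K * (n0 * C4)) := ⟨_, rfl⟩
  have hA0 : 0 ≤ A := by rw [hA]; positivity
  obtain ⟨c, hc⟩ : ∃ c : ℕ, c = Km * Rm * D * 2 ^ D := ⟨_, rfl⟩
  refine ⟨K * (A + 1) + ((c : ℝ) + 1), by positivity, ?_⟩
  intro M X _ N hX hN hM r hr hrR f R hf f0 hf0 a b ha hb
  obtain ⟨J, hJ1, hJ2, hJ⟩ := hpre X hX
  obtain ⟨δ, hδ1, hδ2⟩ := hJ M r
  have hX0 : (0 : ℝ) < X := by exact_mod_cast hX
  have hMpos : (0 : ℝ) < M := by exact_mod_cast NeZero.pos M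
  have hKA : 0 ≤ K * (A + 1) := mul_nonneg hK (by linarith)
  have hcM : (c + 1) * X ^ D ≤ M := by
    have h1 : ((c : ℝ) + 1) * (X : ℝ) ^ D ≤ (K * (A + 1) + ((c : ℝ) + 1)) * (X : ℝ) ^ D :=
      mul_le_mul_of_nonneg_right (by linarith) (by positivity)
    exact_mod_cast h1.trans hM
  have hsmall : ∀ i, |κ i * r (jj i)| * D * (2 * X) ^ D < (M : ℤ) := by
    intro i
    have h1 : |κ i * r (jj i)| ≤ (Km : ℤ) * Rm := by
      rw [abs_mul]
      exact mul_le_mul (hKm i) (hrR _) (abs_nonneg _) (by positivity)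
    have h2 : |κ i * r (jj i)| * D * (2 * X) ^ D ≤ (Km : ℤ) * Rm * D * (2 * X) ^ D :=
      mul_le_mul_of_nonneg_right (mul_le_mul_of_nonneg_right h1 (by positivity)) (by positivity)
    have h3 : (Km : ℤ) * Rm * D * (2 * X) ^ D = ((c * X ^ D : ℕ) : ℤ) := by
      rw [hc]
      push_cast
      rw [mul_pow]
      ring
    have h4 : c * X ^ D < M := by
      have h5 : 0 < X ^ D := pow_pos hX D
      have h6 : (c + 1) * X ^ D = c * X ^ D + X ^ D := by ring
      omega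
    have h5 : ((c * X ^ D : ℕ) : ℤ) < M := by exact_mod_cast h4
    linarith
  have hen : ∀ k, (av fun j => en (δ k j)) ≤ K * (n0 * (C4 * (X : ℝ) ^ (ε - D))) := by
    intro k
    have h1 : (av fun j => en (δ k j)) = (∑ χ : AddChar (ZMod M) ℂ, av fun j => ‖ft (δ k j) χ‖ ^ 2) / M := by
      rw [← av_sum, ← av_div]
      congr 1
      funext j
      rw [en_ft, ZMod.card]
    rw [h1, div_le_iff₀ hMpos]
    calc ∑ χ : AddChar (ZMod M) ℂ, (av fun j => ‖ft (δ k j) χ‖ ^ 2)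
        ≤ ∑ χ : AddChar (ZMod M) ℂ, K * ∑ i, KD X χ D (κ i * r (jj i)) ^ D := sum_le_sum fun χ _ => hδ1 χ k
      _ = K * ∑ i, ∑ χ : AddChar (ZMod M) ℂ, KD X χ D (κ i * r (jj i)) ^ D := by
          rw [← mul_sum, sum_comm]
      _ ≤ K * ∑ _i : Fin n0, C4 * (X : ℝ) ^ (ε - D) * M := by
          refine mul_le_mul_of_nonneg_left (sum_le_sum fun i _ => ?_) hK
          have h5 := h4 M X (κ i * r (jj i)) hX (mul_ne_zero (hκ i) (hr _)) (hsmall i)
          rwa [div_le_iff₀ hMpos] at h5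
      _ = K * (n0 * (C4 * (X : ℝ) ^ (ε - D))) * M := by
          rw [sum_const, card_univ, Fintype.card_fin, nsmul_eq_mul]
          ring
  have hmk := C3_markov hN n δ ((X : ℝ) ^ (2 * ε - D)) (Real.rpow_pos_of_pos hX0 _) f0 hf0
  have hsq : √((X : ℝ) ^ (2 * ε - D)) ^ n = (X : ℝ) ^ (n * (ε - D / 2)) := by
    rw [Real.sqrt_eq_rpow, ← Real.rpow_natCast, ← Real.rpow_mul hX0.le, ← Real.rpow_mul hX0.le]
    congr 1
    ring
  have hfirst : (∑ k, av fun j => en (δ k j)) / (X : ℝ) ^ (2 * ε - D) ≤ A * (X : ℝ) ^ (-ε) := by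
    rw [div_le_iff₀ (Real.rpow_pos_of_pos hX0 _)]
    have h1 : (X : ℝ) ^ (-ε) * (X : ℝ) ^ (2 * ε - D) = (X : ℝ) ^ (ε - D) := by
      rw [← Real.rpow_add hX0]
      congr 1
      ring
    calc (∑ k, av fun j => en (δ k j)) ≤ ∑ _k : Fin n, K * (n0 * (C4 * (X : ℝ) ^ (ε - D))) :=
          sum_le_sum fun k _ => hen k
      _ = A * (X : ℝ) ^ (ε - D) := by
          rw [sum_const, card_univ, Fintype.card_fin, nsmul_eq_mul, hA]
          ring
      _ = A * (X : ℝ) ^ (-ε) * (X : ℝ) ^ (2 * ε - D) := by rw [mul_assoc, h1]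
  rw [hsq] at hmk
  have hu : 0 ≤ (X : ℝ) ^ (-ε) := by positivity
  obtain ⟨v, hv⟩ : ∃ v : ℝ, v = (X : ℝ) ^ (n * (ε - D / 2)) * √(Gs (n + 1) f0) / N := ⟨_, rfl⟩
  have hv0 : 0 ≤ v := by rw [hv]; positivity
  rw [← hv] at hmk ⊢
  refine (hδ2 N hN f R hf f0 hf0 a b ha hb).trans ?_
  have h5 : K * ((av fun j => NN (List.ofFn fun k => δ k j) f0) / N) ≤ K * (A * (X : ℝ) ^ (-ε) + v) :=
    mul_le_mul_of_nonneg_left (by linarith) hK
  refine h5.trans ?_
  have h6 : K * (A * (X : ℝ) ^ (-ε) + v) ≤ K * ((A + 1) * ((X : ℝ) ^ (-ε) + v)) := by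
    refine mul_le_mul_of_nonneg_left ?_ hK
    have h7 : 0 ≤ A * v := mul_nonneg hA0 hv0
    have h8 : (A + 1) * ((X : ℝ) ^ (-ε) + v) = A * (X : ℝ) ^ (-ε) + v + (A * v + (X : ℝ) ^ (-ε)) := by ring
    linarith
  refine h6.trans ?_
  rw [← mul_assoc]
  refine mul_le_mul_of_nonneg_right ?_ (by linarith)
  have : (0 : ℝ) ≤ c := Nat.cast_nonneg c
  linarith

end Pool.Agent.HPP
end

-- from Lib.HPP.C7
section

/-!
# Project HPP, C7 (M): Theorem P on the integers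
-/

open Finset Polynomial

namespace Pool.Agent.HPP

open Pool.Agent.HUK (DD DL DV bxS FF GG Bdd)

/-- **C7b. Theorem P.** Proof. `C6_main`; choose `M` larger than `C X^D`, `6 X1`, `2 |y|` for all `y` in the supports of the `f j`,
and `2 |t + R_j(n)|` for `t ∈ [-X1, X1)`, `0 ≤ n < X`. Then `lft M (f j) (t + R_j(n)) = f j (t + R_j(n))` (`lft_val`), the sum is that on `ℤ/M`
(`lft_sum`), `C7_Gs`. -/
theorem C7_P (D : ℕ) (hD : 1 ≤ D) (q : ℕ) (Rm : ℕ) : ∃ (n E : ℕ), 0 < E ∧ ∀ ε : ℝ, 0 < ε → ∃ C : ℝ, 0 ≤ C ∧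
    ∀ (X X1 : ℕ) (N : ℝ), 0 < X → 0 < X1 → 0 < N →
    ∀ (r : Fin q → ℤ), (∀ j, r j ≠ 0) → (∀ j, |r j| ≤ Rm) → ∀ (f : Fin q → ℤ → ℂ) (R : Fin q → ℤ[X]),
      (∀ j, FN N (f j) ∧ PD D (r j) (R j)) → ∀ f0 : ℤ → ℂ, FN N f0 → Bdd X1 f0 → ∀ a b : ℤ, 0 ≤ a → b ≤ X →
        (‖∑ t ∈ Ico (-(X1 : ℤ)) X1, ∑ n ∈ Ico a b, f0 t * ∏ j, f j (t + (R j).eval n)‖ / (N * X)) ^ E ≤
          C * ((X : ℝ) ^ (-ε) + (X : ℝ) ^ (n * (ε - D / 2)) * √(GG X1 (n + 1) f0) / N) := by
  obtain ⟨n, E, hE, h⟩ := C6_main D hD q Rm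
  refine ⟨n, E, hE, fun ε hε => ?_⟩
  obtain ⟨C, hC, h⟩ := h ε hε
  refine ⟨C, hC, ?_⟩
  intro X X1 N hX hX1 hN r hr hr' f R hf f0 hf0 hB a b ha hb
  obtain ⟨B, hBd⟩ : ∃ B : ℕ, B = ∑ j : Fin q, ∑ t ∈ Ico (-(X1 : ℤ)) X1, ∑ n ∈ Ico a b, (t + (R j).eval n).natAbs := ⟨_, rfl⟩
  have hBle : ∀ (j : Fin q) (t : ℤ), t ∈ Ico (-(X1 : ℤ)) X1 → ∀ n : ℤ, n ∈ Ico a b → (t + (R j).eval n).natAbs ≤ B := by
    intro j t ht n hn
    rw [hBd]
    calc (t + (R j).eval n).natAbs ≤ ∑ n ∈ Ico a b, (t + (R j).eval n).natAbs :=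
          Finset.single_le_sum (f := fun n => (t + (R j).eval n).natAbs) (fun _ _ => Nat.zero_le _) hn
      _ ≤ ∑ t ∈ Ico (-(X1 : ℤ)) X1, ∑ n ∈ Ico a b, (t + (R j).eval n).natAbs :=
          Finset.single_le_sum (f := fun t => ∑ n ∈ Ico a b, (t + (R j).eval n).natAbs) (fun _ _ => Nat.zero_le _) ht
      _ ≤ _ :=
          Finset.single_le_sum (f := fun j => ∑ t ∈ Ico (-(X1 : ℤ)) X1, ∑ n ∈ Ico a b, (t + (R j).eval n).natAbs)
            (fun _ _ => Nat.zero_le _) (Finset.mem_univ j)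
  obtain ⟨M, hM⟩ : ∃ M : ℕ, M = ⌈C * (X : ℝ) ^ D⌉₊ + 6 * X1 + 2 * B + 1 := ⟨_, rfl⟩
  have : NeZero M := ⟨by omega⟩
  have hCM : C * (X : ℝ) ^ D ≤ M := by
    refine (Nat.le_ceil _).trans ?_
    exact_mod_cast (show ⌈C * (X : ℝ) ^ D⌉₊ ≤ M by omega)
  have h1 := h M X N hX hN hCM r hr hr' (fun j => lft M (f j)) R (fun j => ⟨lft_FN M (hf j).1, (hf j).2⟩)
    (lft M f0) (lft_FN M hf0) a b ha hb
  rw [C7_Gs n M X1 f0 hB (by omega)] at h1
  have h2 : (∑ t : ZMod M, ∑ n ∈ Ico a b, lft M f0 t * ∏ j, lft M (f j) (t + (((R j).eval n : ℤ) : ZMod M))) =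
      ∑ t ∈ Ico (-(X1 : ℤ)) X1, ∑ n ∈ Ico a b, f0 t * ∏ j, f j (t + (R j).eval n) := by
    have h3 : (∑ t : ZMod M, ∑ n ∈ Ico a b, lft M f0 t * ∏ j, lft M (f j) (t + (((R j).eval n : ℤ) : ZMod M))) =
        ∑ t : ZMod M, lft M f0 t * (∑ n ∈ Ico a b, ∏ j, lft M (f j) (t + (((R j).eval n : ℤ) : ZMod M))) := by
      apply Finset.sum_congr rfl
      intro t _
      rw [Finset.mul_sum]
    rw [h3, lft_sum M X1 f0 (fun t => ∑ n ∈ Ico a b, ∏ j, lft M (f j) (t + (((R j).eval n : ℤ) : ZMod M))) hB.sup (by omega)]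
    apply Finset.sum_congr rfl
    intro t ht
    rw [Finset.mul_sum]
    apply Finset.sum_congr rfl
    intro n hn
    congr 1
    apply Finset.prod_congr rfl
    intro j _
    rw [← Int.cast_add]
    apply lft_val
    have h4 := hBle j t ht n hn
    rw [Int.abs_eq_natAbs]
    omega
  rw [h2] at h1
  exact h1

end Pool.Agent.HPP
end

-- from Lib.HPP.C8
section

/-!
# Project HPP, C8: Theorem P in the form `HPC.ThmPZ`
-/

open Finset Polynomial

namespace Pool.Agent.HPP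

open Pool.Agent.HUK (DD DL DV bxS FF GG Bdd GG_succ GG_nonneg GG_one p1_DD_supp)

/-- Monotonicity of the Gowers norms on the integers. -/
theorem C8_mono (X : ℕ) : ∀ (s : ℕ), 1 ≤ s → ∀ (f : ℤ → ℂ), (∀ y, y ∉ Ico (-(X : ℤ)) X → f y = 0) →
    GG X s f ^ 2 ≤ (4 * X : ℝ) ^ s * GG X (s + 1) f := by
  have hcard : (((Ioo (-(2 * X : ℤ)) (2 * X)).card : ℕ) : ℝ) ≤ 4 * X := by
    rw [Int.card_Ioo]
    have : ((2 * X : ℤ) - (-(2 * X : ℤ)) - 1).toNat ≤ 4 * X := by omega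
    exact_mod_cast this
  have hX : (0 : ℝ) ≤ 4 * X := by positivity
  intro s hs
  induction s, hs using Nat.le_induction with
  | base =>
    intro f hf
    have h1 : GG X 1 f ≤ ∑ k ∈ Ioo (-(2 * X : ℤ)) (2 * X), ‖∑ y ∈ Ico (-(X : ℤ)) X, DD k f y‖ := by
      have := GG_succ X 0 f
      simp only [Nat.zero_add] at this
      rw [this]
      refine Finset.sum_le_sum fun k _ => ?_
      have h2 : GG X 0 (DD k f) = (∑ y ∈ Ico (-(X : ℤ)) X, DD k f y).re := by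
        unfold GG
        have : bxS 0 (2 * X) = {fun i => i.elim0} := by
          ext h
          simp only [bxS, Fintype.mem_piFinset, mem_singleton]
          constructor
          · intro _
            funext i
            exact i.elim0
          · intro _ i
            exact i.elim0
        rw [this, Finset.sum_singleton]
        unfold FF
        rfl
      rw [h2]
      exact (Complex.re_le_norm _)
    have h0 : 0 ≤ GG X 1 f := GG_nonneg X 1 le_rfl f hf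
    have h3 : GG X 2 f = ∑ k ∈ Ioo (-(2 * X : ℤ)) (2 * X), ‖∑ y ∈ Ico (-(X : ℤ)) X, DD k f y‖ ^ 2 := by
      rw [GG_succ X 1 f]
      refine Finset.sum_congr rfl fun k _ => ?_
      exact GG_one X _ (p1_DD_supp hf k)
    calc GG X 1 f ^ 2 ≤ (∑ k ∈ Ioo (-(2 * X : ℤ)) (2 * X), ‖∑ y ∈ Ico (-(X : ℤ)) X, DD k f y‖) ^ 2 :=
          pow_le_pow_left₀ h0 h1 2
      _ ≤ ((Ioo (-(2 * X : ℤ)) (2 * X)).card : ℝ) *
          ∑ k ∈ Ioo (-(2 * X : ℤ)) (2 * X), ‖∑ y ∈ Ico (-(X : ℤ)) X, DD k f y‖ ^ 2 := sq_sum_le_card_mul_sum_sq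
      _ ≤ (4 * X : ℝ) ^ 1 * GG X (1 + 1) f := by
          rw [pow_one]
          have h4 : GG X (1 + 1) f = GG X 2 f := rfl
          rw [h4, h3]
          exact mul_le_mul_of_nonneg_right hcard (Finset.sum_nonneg fun k _ => by positivity)
  | succ s hs ih =>
    intro f hf
    have h0 : ∀ k, 0 ≤ GG X (s + 1) (DD k f) := fun k => GG_nonneg X (s + 1) (by omega) _ (p1_DD_supp hf k)
    rw [GG_succ X s f, GG_succ X (s + 1) f]
    calc (∑ k ∈ Ioo (-(2 * X : ℤ)) (2 * X), GG X s (DD k f)) ^ 2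
        ≤ ((Ioo (-(2 * X : ℤ)) (2 * X)).card : ℝ) * ∑ k ∈ Ioo (-(2 * X : ℤ)) (2 * X), GG X s (DD k f) ^ 2 :=
          sq_sum_le_card_mul_sum_sq
      _ ≤ (4 * X : ℝ) * ∑ k ∈ Ioo (-(2 * X : ℤ)) (2 * X), (4 * X : ℝ) ^ s * GG X (s + 1) (DD k f) := by
          refine mul_le_mul hcard (Finset.sum_le_sum fun k _ => ih _ (p1_DD_supp hf k))
            (Finset.sum_nonneg fun k _ => by positivity) hX
      _ = (4 * X : ℝ) ^ (s + 1) * ∑ k ∈ Ioo (-(2 * X : ℤ)) (2 * X), GG X (s + 1) (DD k f) := by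
          rw [← Finset.mul_sum, pow_succ]
          ring

theorem c8_sumint (n0 L : ℕ) (F : ℤ → ℂ) : ∑ n ∈ Ico n0 (n0 + L), F (n : ℤ) =
    ∑ n ∈ Ico ((n0 : ℕ) : ℤ) ((n0 + L : ℕ) : ℤ), F n := by
  refine Finset.sum_bij' (fun n _ => (n : ℤ)) (fun n _ => n.toNat) ?_ ?_ ?_ ?_ ?_
  · intro n hn
    rw [mem_Ico] at hn ⊢
    omega
  · intro n hn
    rw [mem_Ico] at hn ⊢
    omega
  · intro n _
    simp
  · intro n hn
    rw [mem_Ico] at hn
    simp only [Int.toNat_of_nonneg (by omega : 0 ≤ n)]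
  · intro n _
    rfl

/-- The analytic part: from the inequality of `C7_P` to a power saving. `Y = C0 X`, `N = 2 C0 X^D`, `G = GG (n + 1)`. -/
theorem c8_an (D n E C0 : ℕ) (hE : 0 < E) (hC0 : 1 ≤ C0) (hD : 1 ≤ D) (κ : ℝ) (hκ : 0 < κ) (C ε : ℝ) (hC : 0 ≤ C)
    (hε : ε = min κ 1 / (4 * (n + 1))) : ∃ X0 : ℕ, 1 ≤ X0 ∧ ∀ X : ℕ, X0 ≤ X → ∀ S G G2 : ℝ, 0 ≤ S → 0 ≤ G →
    G ^ 2 ≤ (4 * (C0 * X ^ D : ℕ) : ℝ) ^ (n + 1) * G2 → G2 ≤ (X : ℝ) ^ ((D : ℝ) * ((n + 2 : ℕ) + 1) - κ) →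
    (S / ((2 * (C0 * X ^ D : ℕ) : ℝ) * (C0 * X : ℕ))) ^ E ≤
      C * (((C0 * X : ℕ) : ℝ) ^ (-ε) + ((C0 * X : ℕ) : ℝ) ^ (n * (ε - D / 2)) * √G / (2 * (C0 * X ^ D : ℕ) : ℝ)) →
    S ≤ (X : ℝ) ^ ((D : ℝ) + 1 - ε / (2 * E)) := by
  have hε0 : 0 < ε := by
    rw [hε]
    have : 0 < min κ 1 := lt_min hκ one_pos
    positivity
  have hn0 : (0 : ℝ) < (n : ℝ) + 1 := by positivity
  have hε1 : ε * (4 * (n + 1)) = min κ 1 := by
    rw [hε]
    field_simp
  have hεκ : (n + 1) * ε ≤ κ / 4 := by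
    have : min κ 1 ≤ κ := min_le_left _ _
    nlinarith
  have hεD : ε ≤ (D : ℝ) / 2 := by
    have h1 : min κ 1 ≤ 1 := min_le_right _ _
    have h2 : ε ≤ ε * (n + 1) := by nlinarith [(Nat.cast_nonneg n : (0 : ℝ) ≤ n)]
    have h3 : (1 : ℝ) ≤ D := by exact_mod_cast hD
    nlinarith
  have hC0r : (1 : ℝ) ≤ C0 := by exact_mod_cast hC0
  obtain ⟨K, hK⟩ : ∃ K : ℝ, K = (4 * (C0 : ℝ)) ^ (n + 1) := ⟨_, rfl⟩
  have hK1 : 1 ≤ K := by
    rw [hK]
    exact one_le_pow₀ (by linarith)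
  obtain ⟨B, hB⟩ : ∃ B : ℝ, B = C * (1 + K) + 1 := ⟨_, rfl⟩
  have hB1 : 1 ≤ B := by
    rw [hB]
    have : 0 ≤ C * (1 + K) := by positivity
    linarith
  have hEr : (0 : ℝ) < E := by exact_mod_cast hE
  have hδ : 0 < ε / (2 * E) := by positivity
  -- X0
  obtain ⟨X0, hX0⟩ : ∃ X0 : ℕ, ∀ X : ℕ, X0 ≤ X → 2 * (C0 : ℝ) ^ 2 * B ^ ((1 : ℝ) / E) ≤ (X : ℝ) ^ (ε / (2 * E)) := by
    have := (tendsto_rpow_atTop hδ).comp tendsto_natCast_atTop_atTop
    exact Filter.eventually_atTop.mp (this.eventually (Filter.eventually_ge_atTop (2 * (C0 : ℝ) ^ 2 * B ^ ((1 : ℝ) / E))))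
  refine ⟨max X0 1, le_max_right _ _, fun X hX S G G2 hS hG h1 h2 h3 => ?_⟩
  have hX1 : 1 ≤ X := (le_max_right _ _).trans hX
  have hXr : (1 : ℝ) ≤ X := by exact_mod_cast hX1
  have hXp : (0 : ℝ) < X := by linarith
  have hXX := hX0 X ((le_max_left _ _).trans hX)
  -- the square root
  have hG2 : √G ≤ K * (X : ℝ) ^ ((D : ℝ) * (n + 2) / 2 - κ / 4) := by
    have e1 : G ^ 2 ≤ (K * (X : ℝ) ^ ((D : ℝ) * (n + 2) / 2 - κ / 4)) ^ 4 := by
      calc G ^ 2 ≤ (4 * (C0 * X ^ D : ℕ) : ℝ) ^ (n + 1) * G2 := h1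
        _ ≤ (4 * (C0 * X ^ D : ℕ) : ℝ) ^ (n + 1) * (X : ℝ) ^ ((D : ℝ) * ((n + 2 : ℕ) + 1) - κ) :=
            mul_le_mul_of_nonneg_left h2 (by positivity)
        _ = K * ((X : ℝ) ^ ((D : ℝ) * (n + 1)) * (X : ℝ) ^ ((D : ℝ) * ((n + 2 : ℕ) + 1) - κ)) := by
            rw [hK]
            have : (X : ℝ) ^ ((D : ℝ) * (n + 1)) = ((X : ℝ) ^ D) ^ (n + 1) := by
              rw [← pow_mul, ← Real.rpow_natCast]
              congr 1
              push_cast
              ring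
            rw [this]
            push_cast
            rw [show 4 * ((C0 : ℝ) * (X : ℝ) ^ D) = (4 * C0) * (X : ℝ) ^ D by ring, mul_pow]
            ring
        _ = K * (X : ℝ) ^ (4 * ((D : ℝ) * (n + 2) / 2 - κ / 4)) := by
            rw [← Real.rpow_add hXp]
            congr 2
            push_cast
            ring
        _ ≤ K ^ 4 * (X : ℝ) ^ (4 * ((D : ℝ) * (n + 2) / 2 - κ / 4)) := by
            refine mul_le_mul_of_nonneg_right ?_ (by positivity)
            exact le_self_pow₀ hK1 (by norm_num)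
        _ = (K * (X : ℝ) ^ ((D : ℝ) * (n + 2) / 2 - κ / 4)) ^ 4 := by
            rw [mul_pow, ← Real.rpow_natCast ((X : ℝ) ^ ((D : ℝ) * (n + 2) / 2 - κ / 4)) 4, ← Real.rpow_mul hXp.le]
            congr 2
            push_cast
            ring
    have e2 : (√G) ^ 4 = G ^ 2 := by
      rw [show (√G) ^ 4 = ((√G) ^ 2) ^ 2 by ring, Real.sq_sqrt hG]
    rw [← e2] at e1
    exact le_of_pow_le_pow_left₀ (by norm_num) (by positivity) e1
  -- the right hand side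
  have hY : (X : ℝ) ≤ ((C0 * X : ℕ) : ℝ) := by
    push_cast
    nlinarith
  have t1 : ((C0 * X : ℕ) : ℝ) ^ (-ε) ≤ (X : ℝ) ^ (-ε) := Real.rpow_le_rpow_of_nonpos hXp hY (by linarith)
  have t2 : ((C0 * X : ℕ) : ℝ) ^ (n * (ε - D / 2)) ≤ (X : ℝ) ^ (n * (ε - D / 2)) := by
    refine Real.rpow_le_rpow_of_nonpos hXp hY ?_
    have : (0 : ℝ) ≤ n := Nat.cast_nonneg n
    nlinarith
  have t3 : ((C0 * X : ℕ) : ℝ) ^ (n * (ε - D / 2)) * √G / (2 * (C0 * X ^ D : ℕ) : ℝ) ≤ K * (X : ℝ) ^ (-ε) := by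
    have hN : (X : ℝ) ^ D ≤ (2 * (C0 * X ^ D : ℕ) : ℝ) := by
      push_cast
      have : (0 : ℝ) ≤ (X : ℝ) ^ D := by positivity
      nlinarith
    rw [div_le_iff₀ (by have : (0 : ℝ) < (X : ℝ) ^ D := by positivity
                        linarith)]
    calc ((C0 * X : ℕ) : ℝ) ^ (n * (ε - D / 2)) * √G
        ≤ (X : ℝ) ^ (n * (ε - D / 2)) * (K * (X : ℝ) ^ ((D : ℝ) * (n + 2) / 2 - κ / 4)) :=
          mul_le_mul t2 hG2 (Real.sqrt_nonneg _) (by positivity)
      _ = K * (X : ℝ) ^ (n * ε - κ / 4 + D) := by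
          rw [show (X : ℝ) ^ (n * (ε - D / 2)) * (K * (X : ℝ) ^ ((D : ℝ) * (n + 2) / 2 - κ / 4)) =
            K * ((X : ℝ) ^ (n * (ε - D / 2)) * (X : ℝ) ^ ((D : ℝ) * (n + 2) / 2 - κ / 4)) by ring, ← Real.rpow_add hXp]
          congr 2
          ring
      _ ≤ K * (X : ℝ) ^ (-ε + D) := by
          refine mul_le_mul_of_nonneg_left ?_ (by linarith)
          refine Real.rpow_le_rpow_of_exponent_le hXr ?_
          linarith
      _ = K * (X : ℝ) ^ (-ε) * (X : ℝ) ^ D := by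
          rw [Real.rpow_add hXp, Real.rpow_natCast]
          ring
      _ ≤ K * (X : ℝ) ^ (-ε) * (2 * (C0 * X ^ D : ℕ) : ℝ) := mul_le_mul_of_nonneg_left hN (by positivity)
  have t4 : (S / ((2 * (C0 * X ^ D : ℕ) : ℝ) * (C0 * X : ℕ))) ^ E ≤ B * (X : ℝ) ^ (-ε) := by
    refine h3.trans ?_
    calc C * (((C0 * X : ℕ) : ℝ) ^ (-ε) + ((C0 * X : ℕ) : ℝ) ^ (n * (ε - D / 2)) * √G / (2 * (C0 * X ^ D : ℕ) : ℝ))
        ≤ C * ((X : ℝ) ^ (-ε) + K * (X : ℝ) ^ (-ε)) := mul_le_mul_of_nonneg_left (add_le_add t1 t3) hC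
      _ = (C * (1 + K)) * (X : ℝ) ^ (-ε) := by ring
      _ ≤ B * (X : ℝ) ^ (-ε) := mul_le_mul_of_nonneg_right (by rw [hB]; linarith) (by positivity)
  have hden : (0 : ℝ) < (2 * (C0 * X ^ D : ℕ) : ℝ) * (C0 * X : ℕ) := by
    have : 0 < C0 * X ^ D := Nat.mul_pos (by omega) (pow_pos (by omega) D)
    have h' : 0 < C0 * X := Nat.mul_pos (by omega) (by omega)
    have a1 : (0 : ℝ) < ((C0 * X ^ D : ℕ) : ℝ) := by exact_mod_cast this
    have a2 : (0 : ℝ) < ((C0 * X : ℕ) : ℝ) := by exact_mod_cast h'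
    positivity
  have t5 : S / ((2 * (C0 * X ^ D : ℕ) : ℝ) * (C0 * X : ℕ)) ≤ B ^ ((1 : ℝ) / E) * (X : ℝ) ^ (-ε / E) := by
    have a0 : 0 ≤ S / ((2 * (C0 * X ^ D : ℕ) : ℝ) * (C0 * X : ℕ)) := by positivity
    have a1 : S / ((2 * (C0 * X ^ D : ℕ) : ℝ) * (C0 * X : ℕ)) =
        ((S / ((2 * (C0 * X ^ D : ℕ) : ℝ) * (C0 * X : ℕ))) ^ E) ^ ((1 : ℝ) / E) := by
      rw [one_div, Real.pow_rpow_inv_natCast a0 (by omega)]
    rw [a1]
    refine (Real.rpow_le_rpow (by positivity) t4 (by positivity)).trans (le_of_eq ?_)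
    rw [Real.mul_rpow (by linarith) (by positivity), ← Real.rpow_mul hXp.le]
    congr 2
    ring
  rw [div_le_iff₀ hden] at t5
  refine t5.trans ?_
  have hden2 : (2 * (C0 * X ^ D : ℕ) : ℝ) * (C0 * X : ℕ) = 2 * (C0 : ℝ) ^ 2 * (X : ℝ) ^ ((D : ℝ) + 1) := by
    rw [Real.rpow_add hXp, Real.rpow_natCast, Real.rpow_one]
    push_cast
    ring
  rw [hden2]
  calc B ^ ((1 : ℝ) / E) * (X : ℝ) ^ (-ε / E) * (2 * (C0 : ℝ) ^ 2 * (X : ℝ) ^ ((D : ℝ) + 1))
      = (2 * (C0 : ℝ) ^ 2 * B ^ ((1 : ℝ) / E)) * ((X : ℝ) ^ (-ε / E) * (X : ℝ) ^ ((D : ℝ) + 1)) := by ring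
    _ ≤ (X : ℝ) ^ (ε / (2 * E)) * ((X : ℝ) ^ (-ε / E) * (X : ℝ) ^ ((D : ℝ) + 1)) :=
        mul_le_mul_of_nonneg_right hXX (by positivity)
    _ = (X : ℝ) ^ ((D : ℝ) + 1 - ε / (2 * E)) := by
        rw [← Real.rpow_add hXp, ← Real.rpow_add hXp]
        congr 1
        field_simp
        ring

/-- **Theorem P** in the form of `HPC/Defs`. -/
theorem C8_Z (D q : ℕ) (hD : 1 ≤ D) (r : Fin q → ℤ) (hr : ∀ j, r j ≠ 0) : Pool.Agent.HPC.ThmPZ D q r := by
  obtain ⟨n, E, hE, H⟩ := C7_P D hD q (∑ j, (r j).natAbs)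
  have hRm : ∀ j, |r j| ≤ ((∑ j, (r j).natAbs : ℕ) : ℤ) := by
    intro j
    have : (r j).natAbs ≤ ∑ j, (r j).natAbs := Finset.single_le_sum (f := fun j => (r j).natAbs) (fun _ _ => Nat.zero_le _)
      (mem_univ j)
    rw [Int.abs_eq_natAbs]
    exact_mod_cast this
  refine ⟨n + 2, by omega, fun C0 κ hκ => ?_⟩
  rcases Nat.eq_zero_or_pos C0 with hC0 | hC0
  · refine ⟨1, one_pos, 0, fun X _ R _ n0 L _ f0 f S _ _ _ _ _ => ?_⟩
    subst hC0
    simp only [zero_mul, Nat.cast_zero, neg_zero, Ico_self, Finset.sum_empty, norm_zero]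
    positivity
  obtain ⟨ε, hε⟩ : ∃ ε : ℝ, ε = min κ 1 / (4 * (n + 1)) := ⟨_, rfl⟩
  have hε0 : 0 < ε := by
    rw [hε]
    have : 0 < min κ 1 := lt_min hκ one_pos
    positivity
  obtain ⟨C, hC, HC⟩ := H ε hε0
  obtain ⟨X0, hX01, HX⟩ := c8_an D n E C0 hE hC0 hD κ hκ C ε hC hε
  have hEr : (0 : ℝ) < E := by exact_mod_cast hE
  refine ⟨ε / (2 * E), by positivity, X0, fun X hX R hR n0 L hL f0 f S hf0 hf hS hfS hG => ?_⟩
  have hXpos : 0 < X := by omega
  have hN : (0 : ℝ) < 2 * ((C0 * X ^ D : ℕ) : ℝ) := by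
    have : 0 < C0 * X ^ D := Nat.mul_pos hC0 (pow_pos hXpos D)
    have a1 : (0 : ℝ) < ((C0 * X ^ D : ℕ) : ℝ) := by exact_mod_cast this
    linarith
  have hsup : ∀ y, y ∉ Ico (-((C0 * X ^ D : ℕ) : ℤ)) ((C0 * X ^ D : ℕ) : ℤ) → f0 y = 0 := hf0.sup
  refine HX X hX _ (GG (C0 * X ^ D) (n + 1) f0) (GG (C0 * X ^ D) (n + 2) f0) (norm_nonneg _)
    (GG_nonneg _ _ (by omega) f0 hsup) ?_ hG ?_
  · have := C8_mono (C0 * X ^ D) (n + 1) (by omega) f0 hsup
    exact this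
  · have key := HC (C0 * X) (C0 * X ^ D) (2 * ((C0 * X ^ D : ℕ) : ℝ)) (Nat.mul_pos hC0 hXpos)
      (Nat.mul_pos hC0 (pow_pos hXpos D)) hN r hr hRm f R (fun j => ⟨⟨hf j, S j, ?_, hfS j⟩, hR j⟩) f0
      ⟨hf0.le, Ico (-((C0 * X ^ D : ℕ) : ℤ)) ((C0 * X ^ D : ℕ) : ℤ), ?_, hsup⟩ hf0 n0 ((n0 + L : ℕ) : ℤ) (by omega)
      (by exact_mod_cast hL)
    · have e1 : ∀ t : ℤ, ∑ n ∈ Ico n0 (n0 + L), f0 t * ∏ j, f j (t + (R j).eval (n : ℤ)) =
          ∑ n ∈ Ico ((n0 : ℕ) : ℤ) ((n0 + L : ℕ) : ℤ), f0 t * ∏ j, f j (t + (R j).eval n) := fun t =>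
        c8_sumint n0 L fun n => f0 t * ∏ j, f j (t + (R j).eval n)
      rw [Finset.sum_congr rfl fun t _ => e1 t]
      exact key
    · have := hS j
      have h2 : ((S j).card : ℝ) ≤ ((C0 * X ^ D : ℕ) : ℝ) := by exact_mod_cast this
      linarith
    · rw [Int.card_Ico]
      have : (((C0 * X ^ D : ℕ) : ℤ) - -((C0 * X ^ D : ℕ) : ℤ)).toNat = 2 * (C0 * X ^ D) := by omega
      rw [this]
      push_cast
      exact le_rfl

end Pool.Agent.HPP
end
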