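import Pool.Agent.Lib.H59M.M2.M035
import Pool.Agent.Lib.H59M.M2.M044
import Pool.Agent.Lib.H59M.M2.M053
import Pool.Agent.Lib.H59M.M2.M057

/-! Merged copies (to shorten the build) of Lib.HUK.A1, Lib.HUK.A2, Lib.HUK.A4, Lib.HUK.A5, Lib.HUK.A8a, Lib.HUK.A8b, Lib.HUK.A8, Lib.HUK.A11, Lib.HUK.A12. -/

-- from Lib.HUK.A1
section

open Finset

namespace Pool.Agent.HUK

open Pool.Agent.H44W (ee)

/-- Parseval on the grid. -/
theorem A1_pars (N : ℕ) (hN : 0 < N) (I : Finset ℤ) (hI : ∀ m ∈ I, ∀ n ∈ I, (N : ℤ) ∣ m - n → m = n) (c : ℤ → ℂ) :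
    ∑ j ∈ range N, ‖∑ n ∈ I, c n * ee (-((j : ℝ) / N * n))‖ ^ 2 = N * ∑ n ∈ I, ‖c n‖ ^ 2 := by
  have h : ∑ j ∈ range N, (((‖∑ n ∈ I, c n * ee (-((j : ℝ) / N * n))‖ ^ 2 : ℝ)) : ℂ) =
      N * ∑ n ∈ I, ((‖c n‖ ^ 2 : ℝ) : ℂ) := by
    have h1 : ∀ j ∈ range N, (((‖∑ n ∈ I, c n * ee (-((j : ℝ) / N * n))‖ ^ 2 : ℝ)) : ℂ) =
        ∑ n ∈ I, ∑ m ∈ I, c n * (starRingEnd ℂ) (c m) * ee ((j : ℝ) * ((m - n : ℤ) : ℝ) / N) := by
      intro j _
      push_cast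
      rw [← Complex.mul_conj', map_sum, Finset.sum_mul_sum]
      refine Finset.sum_congr rfl fun n _ => Finset.sum_congr rfl fun m _ => ?_
      rw [map_mul, ← Pool.Agent.H44W.ee_neg, show (j : ℝ) * ((m : ℝ) - n) / N = -((j : ℝ) / N * n) + - -((j : ℝ) / N * m) by ring,
        Pool.Agent.H44W.ee_add]
      ring
    rw [Finset.sum_congr rfl h1, Finset.sum_comm]
    rw [Finset.mul_sum]
    refine Finset.sum_congr rfl fun n hn => ?_
    rw [Finset.sum_comm]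
    have h2 : ∀ m ∈ I, ∑ j ∈ range N, c n * (starRingEnd ℂ) (c m) * ee ((j : ℝ) * ((m - n : ℤ) : ℝ) / N) =
        if m = n then (N : ℂ) * ((‖c n‖ ^ 2 : ℝ) : ℂ) else 0 := by
      intro m hm
      rw [← Finset.mul_sum, Pool.Agent.H44W.ee_orth N hN (m - n)]
      by_cases hmn : m = n
      · rw [if_pos hmn, hmn, sub_self, if_pos (dvd_zero _), Complex.mul_conj']
        push_cast
        ring
      · rw [if_neg hmn, if_neg (fun hd => hmn (hI m hm n hn hd)), mul_zero]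
    rw [Finset.sum_congr rfl h2, Finset.sum_ite_eq' I n, if_pos hn]
  have h3 : ((∑ j ∈ range N, ‖∑ n ∈ I, c n * ee (-((j : ℝ) / N * n))‖ ^ 2 : ℝ) : ℂ) = ((N * ∑ n ∈ I, ‖c n‖ ^ 2 : ℝ) : ℂ) := by
    push_cast
    push_cast at h
    exact h
  exact_mod_cast h3

/-- Mean value on the grid. -/
theorem A1_mean (N : ℕ) (hN : 0 < N) (I : Finset ℤ) (hI : ∀ n ∈ I, (N : ℤ) ∣ n → n = 0) (h0 : (0 : ℤ) ∈ I) (c : ℤ → ℂ) :
    ∑ j ∈ range N, ∑ n ∈ I, c n * ee (-((j : ℝ) / N * n)) = N * c 0 := by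
  rw [Finset.sum_comm]
  have h2 : ∀ n ∈ I, ∑ j ∈ range N, c n * ee (-((j : ℝ) / N * n)) = if n = 0 then (N : ℂ) * c 0 else 0 := by
    intro n hn
    have h3 : ∀ j ∈ range N, c n * ee (-((j : ℝ) / N * n)) = c n * ee ((j : ℝ) * ((-n : ℤ) : ℝ) / N) := by
      intro j _
      congr 2
      push_cast
      ring
    rw [Finset.sum_congr rfl h3, ← Finset.mul_sum, Pool.Agent.H44W.ee_orth N hN (-n)]
    by_cases hn0 : n = 0
    · rw [if_pos hn0, hn0, neg_zero, if_pos (dvd_zero _)]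
      ring
    · rw [if_neg hn0, if_neg (fun hd => hn0 (hI n hn ((dvd_neg).mp hd))), mul_zero]
  rw [Finset.sum_congr rfl h2, Finset.sum_ite_eq' I 0, if_pos h0]

theorem A1_fw_half (H : ℕ) (hH : 1 ≤ H) (n : ℤ) (hn : n ∈ Ioo (-(H : ℤ)) H) : 1 / 2 ≤ fw (2 * H) n := by
  rw [mem_Ioo] at hn
  have h1 : |(n : ℝ)| ≤ H := by
    rw [abs_le]
    constructor
    · have := hn.1.le
      exact_mod_cast this
    · have := hn.2.le
      exact_mod_cast this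
  have hH' : (0 : ℝ) < H := by exact_mod_cast hH
  unfold fw
  refine le_trans ?_ (le_max_right _ _)
  push_cast
  rw [le_sub_iff_add_le, ← le_sub_iff_add_le', div_le_iff₀ (by positivity)]
  linarith

/-- Proof. `Φ(n) = ∑_{a ∈ 𝒜} ∑_y g a y conj g a (y + a n)`, `S(ψ) = ∑_{|n|<2H} fw (2H) n Φ(n) ee(-ψ n) = 2H ∑_{a ∈ 𝒜} TQ X (2H) a ψ (g a) ≥ 0` (`TQ_eq`).
Over the grid `ψ = j/(4H)`, `j < 4H` (`ee_orth`): the mean of `S` is `Φ(0) ≤ 2 |𝒜| X`, the mean of `S²` is `∑_{|n|<2H} fw² ‖Φ(n)‖² ≥ (1/4) ∑_{|n|<H} ‖Φ(n)‖²`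
(`Φ(-n) = conj Φ(n)` is not needed: use `S = |S|` and Parseval for `‖S‖²`). So for some grid point `S ≥ mean S²/mean S ≥ (δ/8) H |𝒜| X` (if `|𝒜| X = 0` the claim
is clear). -/
theorem A1_freq (X H : ℕ) (hH : 1 ≤ H) (𝒜 : Finset ℕ) (hA : ∀ a ∈ 𝒜, 1 ≤ a ∧ 4 * a * H ≤ X) (g : ℕ → ℤ → ℂ)
    (hg : ∀ a ∈ 𝒜, Bdd X (g a)) (δ : ℝ) (hδ : 0 ≤ δ)
    (h : δ * H * ((𝒜.card : ℝ) * X) ^ 2 ≤ ∑ n ∈ Ioo (-(H : ℤ)) H,
      ‖∑ a ∈ 𝒜, ∑ y ∈ Ico (-(X : ℤ)) X, g a y * (starRingEnd ℂ) (g a (y + a * n))‖ ^ 2) :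
    ∃ ψ : ℝ, δ / 16 * (𝒜.card * X) ≤ ∑ a ∈ 𝒜, TQ X (2 * H) a ψ (g a) := by
  have hH' : (0 : ℝ) < H := by exact_mod_cast hH
  set Φ : ℤ → ℂ := fun n => ∑ a ∈ 𝒜, ∑ y ∈ Ico (-(X : ℤ)) X, g a y * (starRingEnd ℂ) (g a (y + a * n)) with hΦ
  set S : ℕ → ℝ := fun j => ∑ a ∈ 𝒜, TQ X (2 * H) a ((j : ℝ) / (4 * H : ℕ)) (g a) with hS
  have hS0 : ∀ j, 0 ≤ S j := fun j => Finset.sum_nonneg fun a _ => Finset.sum_nonneg fun z _ => by positivity
  set c : ℤ → ℂ := fun n => ((fw (2 * H) n : ℝ) : ℂ) * Φ n with hc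
  have hSe : ∀ j : ℕ, (((2 * H : ℕ) * S j : ℝ) : ℂ) = ∑ n ∈ Ioo (-((2 * H : ℕ) : ℤ)) (2 * H : ℕ), c n * ee (-((j : ℝ) / (4 * H : ℕ) * n)) := by
    intro j
    have h1 : (((2 * H : ℕ) * S j : ℝ) : ℂ) = ∑ a ∈ 𝒜, (((2 * H : ℕ) * TQ X (2 * H) a ((j : ℝ) / (4 * H : ℕ)) (g a) : ℝ) : ℂ) := by
      rw [hS]
      simp only
      rw [Finset.mul_sum, Complex.ofReal_sum]
    rw [h1]
    have h2 : ∀ a ∈ 𝒜, (((2 * H : ℕ) * TQ X (2 * H) a ((j : ℝ) / (4 * H : ℕ)) (g a) : ℝ) : ℂ) =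
        ∑ n ∈ Ioo (-((2 * H : ℕ) : ℤ)) (2 * H : ℕ), ((fw (2 * H) n : ℝ) : ℂ) * ee (-((j : ℝ) / (4 * H : ℕ) * n)) *
          ∑ y ∈ Ico (-(X : ℤ)) X, g a y * (starRingEnd ℂ) (g a (y + a * n)) := by
      intro a ha
      refine TQ_eq X (2 * H) (by omega) a (by positivity) ?_ _ (g a) (hg a ha).sup
      have := (hA a ha).2
      have h3 : a * (2 * H) ≤ X := by nlinarith
      exact_mod_cast h3
    rw [Finset.sum_congr rfl h2, Finset.sum_comm]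
    refine Finset.sum_congr rfl fun n _ => ?_
    rw [hc, hΦ]
    simp only
    rw [← Finset.mul_sum]
    ring
  have hI : ∀ m ∈ Ioo (-((2 * H : ℕ) : ℤ)) (2 * H : ℕ), ∀ n ∈ Ioo (-((2 * H : ℕ) : ℤ)) (2 * H : ℕ), ((4 * H : ℕ) : ℤ) ∣ m - n → m = n := by
    intro m hm n hn hd
    rw [mem_Ioo] at hm hn
    push_cast at hm hn hd
    have := Int.eq_zero_of_abs_lt_dvd hd (by rw [abs_lt]; constructor <;> omega)
    omega
  have h0I : (0 : ℤ) ∈ Ioo (-((2 * H : ℕ) : ℤ)) (2 * H : ℕ) := by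
    rw [mem_Ioo]; push_cast; constructor <;> omega
  have hI0 : ∀ n ∈ Ioo (-((2 * H : ℕ) : ℤ)) (2 * H : ℕ), ((4 * H : ℕ) : ℤ) ∣ n → n = 0 := by
    intro n hn hd
    exact hI n hn 0 h0I (by rw [sub_zero]; exact hd)
  have hmean : ∑ j ∈ range (4 * H), S j ≤ 2 * (2 * (𝒜.card * X)) := by
    have h1 := A1_mean (4 * H) (by omega) _ hI0 h0I c
    have h2 : ((∑ j ∈ range (4 * H), (2 * H : ℕ) * S j : ℝ) : ℂ) = (4 * H : ℕ) * c 0 := by
      rw [Complex.ofReal_sum, ← h1]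
      exact Finset.sum_congr rfl fun j _ => hSe j
    have h3 : ‖c 0‖ ≤ 2 * (𝒜.card * X) := by
      have hf : fw (2 * H) 0 = 1 := by simp [fw]
      rw [hc]
      simp only
      rw [hf, Complex.ofReal_one, one_mul]
      rw [hΦ]
      simp only
      have h4 : ∀ a ∈ 𝒜, ‖∑ y ∈ Ico (-(X : ℤ)) X, g a y * (starRingEnd ℂ) (g a (y + a * 0))‖ ≤ 2 * X := by
        intro a ha
        refine (norm_sum_le _ _).trans ?_
        have h5 : ∀ y ∈ Ico (-(X : ℤ)) X, ‖g a y * (starRingEnd ℂ) (g a (y + a * 0))‖ ≤ 1 := by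
          intro y _
          rw [norm_mul, RCLike.norm_conj]
          exact mul_le_one₀ ((hg a ha).le _) (norm_nonneg _) ((hg a ha).le _)
        refine (Finset.sum_le_sum h5).trans ?_
        rw [Finset.sum_const, Int.card_Ico, nsmul_eq_mul, mul_one]
        have : ((X : ℤ) - -(X : ℤ)).toNat = 2 * X := by omega
        rw [this]
        push_cast
        exact le_refl _
      refine (norm_sum_le _ _).trans ((Finset.sum_le_sum h4).trans ?_)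
      rw [Finset.sum_const, nsmul_eq_mul]
      apply le_of_eq
      ring
    have h4 : (2 * H : ℕ) * ∑ j ∈ range (4 * H), S j = ‖((4 * H : ℕ) : ℂ) * c 0‖ := by
      rw [← h2, ← Finset.mul_sum, Complex.norm_real, Real.norm_of_nonneg]
      exact mul_nonneg (by positivity) (Finset.sum_nonneg fun j _ => hS0 j)
    rw [norm_mul, Complex.norm_natCast] at h4
    push_cast at h4
    have h5 : 4 * (H : ℝ) * ‖c 0‖ ≤ 4 * H * (2 * (𝒜.card * X)) := mul_le_mul_of_nonneg_left h3 (by positivity)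
    have h6 : (2 * (H : ℝ)) * ∑ j ∈ range (4 * H), S j ≤ (2 * H) * (2 * (2 * (𝒜.card * X))) := by linarith
    exact le_of_mul_le_mul_left h6 (by positivity)
  have hsq : δ / 4 * (𝒜.card * X) ^ 2 ≤ ∑ j ∈ range (4 * H), S j ^ 2 := by
    have h1 := A1_pars (4 * H) (by omega) _ hI c
    have h2 : ∑ j ∈ range (4 * H), ((2 * H : ℕ) * S j) ^ 2 = (4 * H : ℕ) * ∑ n ∈ Ioo (-((2 * H : ℕ) : ℤ)) (2 * H : ℕ), ‖c n‖ ^ 2 := by
      rw [← h1]
      refine Finset.sum_congr rfl fun j _ => ?_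
      rw [← hSe j, Complex.norm_real, Real.norm_eq_abs, sq_abs]
    have h3 : 1 / 4 * ∑ n ∈ Ioo (-(H : ℤ)) H, ‖Φ n‖ ^ 2 ≤ ∑ n ∈ Ioo (-((2 * H : ℕ) : ℤ)) (2 * H : ℕ), ‖c n‖ ^ 2 := by
      rw [Finset.mul_sum]
      refine (Finset.sum_le_sum (g := fun n => ‖c n‖ ^ 2) ?_).trans
        (Finset.sum_le_sum_of_subset_of_nonneg ?_ fun n _ _ => by positivity)
      · intro n hn
        have h4 := A1_fw_half H hH n hn
        rw [hc]
        simp only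
        rw [norm_mul, Complex.norm_real, mul_pow]
        refine mul_le_mul_of_nonneg_right ?_ (by positivity)
        rw [Real.norm_eq_abs, sq_abs]
        nlinarith
      · intro n hn
        rw [mem_Ioo] at hn ⊢
        push_cast
        constructor <;> omega
    have h4 : ∑ j ∈ range (4 * H), ((2 * H : ℕ) * S j) ^ 2 = (2 * (H : ℝ)) ^ 2 * ∑ j ∈ range (4 * H), S j ^ 2 := by
      rw [Finset.mul_sum]
      refine Finset.sum_congr rfl fun j _ => ?_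
      push_cast
      ring
    rw [h4] at h2
    have h5 : (4 * (H : ℝ)) * (1 / 4 * (δ * H * ((𝒜.card : ℝ) * X) ^ 2)) ≤ (2 * (H : ℝ)) ^ 2 * ∑ j ∈ range (4 * H), S j ^ 2 := by
      rw [h2]
      push_cast
      refine mul_le_mul_of_nonneg_left ?_ (by positivity)
      refine le_trans ?_ h3
      linarith
    have h6 : (4 * (H : ℝ)^2) * (δ / 4 * (𝒜.card * X) ^ 2) ≤ (4 * (H : ℝ)^2) * ∑ j ∈ range (4 * H), S j ^ 2 := by
      nlinarith
    exact le_of_mul_le_mul_left h6 (by positivity)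
  obtain ⟨j0, hj0, hmax⟩ := Finset.exists_max_image (range (4 * H)) S ⟨0, by rw [mem_range]; omega⟩
  refine ⟨(j0 : ℝ) / (4 * H : ℕ), ?_⟩
  change _ ≤ S j0
  have h7 : ∑ j ∈ range (4 * H), S j ^ 2 ≤ S j0 * ∑ j ∈ range (4 * H), S j := by
    rw [Finset.mul_sum]
    refine Finset.sum_le_sum fun j hj => ?_
    rw [pow_two]
    exact mul_le_mul_of_nonneg_right (hmax j hj) (hS0 j)
  have h8 : δ / 4 * (𝒜.card * X) ^ 2 ≤ S j0 * (2 * (2 * (𝒜.card * X))) :=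
    hsq.trans (h7.trans (mul_le_mul_of_nonneg_left hmean (hS0 j0)))
  have hcX : (0 : ℝ) ≤ 𝒜.card * X := by positivity
  rcases hcX.eq_or_lt with h9 | h9
  · rw [← h9, mul_zero]
    exact hS0 j0
  · have h10 : (4 * (𝒜.card * X : ℝ)) * (δ / 16 * (𝒜.card * X)) ≤ (4 * (𝒜.card * X)) * S j0 := by nlinarith
    exact le_of_mul_le_mul_left h10 (by positivity)

end Pool.Agent.HUK
end

-- from Lib.HUK.A2
section

/-!
# Project HUK, chunk A2 (M): quasi-periodic weights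
-/

open Finset

namespace Pool.Agent.HUK

open Pool.Agent.H44W (ee)

/-- The averages. -/
noncomputable def a2w (M : ℕ) (a : ℤ) (ψ : ℝ) (g : ℤ → ℂ) (z : ℤ) : ℂ :=
  (∑ j ∈ range M, g (z + a * j) * ee (ψ * j)) / M

/-- The weight. -/
noncomputable def a2c (M : ℕ) (a : ℤ) (ψ : ℝ) (w : ℤ → ℂ) (y : ℤ) : ℂ :=
  (∑ j ∈ range M, ee (ψ * j) * (starRingEnd ℂ) (w (y - a * j))) / M

theorem a2_avg {M : ℕ} (hM : 1 ≤ M) {F : ℕ → ℂ} {B : ℝ} (h : ∀ j ∈ range M, ‖F j‖ ≤ B) :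
    ‖(∑ j ∈ range M, F j) / M‖ ≤ B := by
  have hM0 : (0 : ℝ) < M := by exact_mod_cast hM
  rw [norm_div, Complex.norm_natCast, div_le_iff₀ hM0]
  refine (norm_sum_le _ _).trans ?_
  refine (Finset.sum_le_sum h).trans ?_
  rw [Finset.sum_const, card_range, nsmul_eq_mul, mul_comm]

theorem a2_w_le {M : ℕ} (hM : 1 ≤ M) (a : ℤ) (ψ : ℝ) {g : ℤ → ℂ} (hg : ∀ y, ‖g y‖ ≤ 1) (z : ℤ) :
    ‖a2w M a ψ g z‖ ≤ 1 := by
  apply a2_avg hM
  intro j _
  rw [norm_mul, Pool.Agent.H44W.norm_ee, mul_one]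
  exact hg _

theorem a2_c_le {M : ℕ} (hM : 1 ≤ M) (a : ℤ) (ψ : ℝ) {w : ℤ → ℂ} (hw : ∀ y, ‖w y‖ ≤ 1) (y : ℤ) :
    ‖a2c M a ψ w y‖ ≤ 1 := by
  apply a2_avg hM
  intro j _
  rw [norm_mul, Pool.Agent.H44W.norm_ee, one_mul, RCLike.norm_conj]
  exact hw _

theorem a2_w_step {M : ℕ} (hM : 1 ≤ M) (a : ℤ) (ψ : ℝ) {g : ℤ → ℂ} (hg : ∀ y, ‖g y‖ ≤ 1) (z : ℤ) :
    ‖a2w M a ψ g (z + a) - ee (-ψ) * a2w M a ψ g z‖ ≤ 2 / M := by
  have hM0 : (0 : ℝ) < M := by exact_mod_cast hM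
  have h1 : ∑ j ∈ range M, g (z + a + a * j) * ee (ψ * j) =
      ee (-ψ) * ∑ j ∈ range M, g (z + a * ((j + 1 : ℕ) : ℤ)) * ee (ψ * ((j + 1 : ℕ) : ℝ)) := by
    rw [Finset.mul_sum]
    refine Finset.sum_congr rfl fun j _ => ?_
    have e1 : z + a + a * (j : ℤ) = z + a * ((j + 1 : ℕ) : ℤ) := by
      push_cast
      ring
    have e2 : ψ * (j : ℝ) = -ψ + ψ * ((j + 1 : ℕ) : ℝ) := by
      push_cast
      ring
    rw [e1, e2, Pool.Agent.H44W.ee_add]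
    ring
  have h2 := Finset.sum_range_succ' (fun j : ℕ => g (z + a * (j : ℤ)) * ee (ψ * (j : ℝ))) M
  rw [Finset.sum_range_succ] at h2
  have h3 : a2w M a ψ g (z + a) - ee (-ψ) * a2w M a ψ g z =
      ee (-ψ) * ((g (z + a * (M : ℤ)) * ee (ψ * (M : ℝ)) - g (z + a * ((0 : ℕ) : ℤ)) * ee (ψ * ((0 : ℕ) : ℝ))) / M) := by
    unfold a2w
    rw [h1]
    linear_combination (-(ee (-ψ)) / M) * h2
  rw [h3, norm_mul, Pool.Agent.H44W.norm_ee, one_mul, norm_div, Complex.norm_natCast]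
  apply div_le_div_of_nonneg_right _ hM0.le
  refine (norm_sub_le _ _).trans ?_
  rw [norm_mul, norm_mul, Pool.Agent.H44W.norm_ee, Pool.Agent.H44W.norm_ee, mul_one, mul_one]
  linarith [hg (z + a * (M : ℤ)), hg (z + a * ((0 : ℕ) : ℤ))]

theorem a2_c_step {M : ℕ} (hM : 1 ≤ M) (a : ℤ) (ψ : ℝ) {w : ℤ → ℂ}
    (hw : ∀ z, ‖w (z + a) - ee (-ψ) * w z‖ ≤ 2 / M) (y : ℤ) :
    ‖a2c M a ψ w (y + a) - ee ψ * a2c M a ψ w y‖ ≤ 2 / M := by
  have h1 : a2c M a ψ w (y + a) - ee ψ * a2c M a ψ w y =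
      (∑ j ∈ range M, ee (ψ * j) * (starRingEnd ℂ) (w ((y - a * j) + a) - ee (-ψ) * w (y - a * j))) / M := by
    unfold a2c
    rw [← mul_div_assoc, ← sub_div, Finset.mul_sum, ← Finset.sum_sub_distrib]
    congr 1
    refine Finset.sum_congr rfl fun j _ => ?_
    have e1 : y + a - a * (j : ℤ) = (y - a * (j : ℤ)) + a := by ring
    rw [e1, map_sub, map_mul, ← Pool.Agent.H44W.ee_neg, neg_neg]
    ring
  rw [h1]
  apply a2_avg hM
  intro j _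
  rw [norm_mul, Pool.Agent.H44W.norm_ee, one_mul, RCLike.norm_conj]
  exact hw _

theorem a2_c_qp {M : ℕ} (hM : 1 ≤ M) (a : ℤ) (ψ : ℝ) {c : ℤ → ℂ}
    (hc : ∀ y, ‖c (y + a) - ee ψ * c y‖ ≤ 2 / M) (y : ℤ) (k : ℕ) :
    ‖c (y + a * k) - ee (ψ * k) * c y‖ ≤ 2 * k / M := by
  induction k with
  | zero =>
    rw [Nat.cast_zero, mul_zero, add_zero, Nat.cast_zero, mul_zero, Pool.Agent.H44W.ee_zero, one_mul, sub_self,
      norm_zero, mul_zero, zero_div]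
  | succ k ih =>
    have e1 : y + a * ((k + 1 : ℕ) : ℤ) = (y + a * k) + a := by
      push_cast
      ring
    have e2 : ψ * ((k + 1 : ℕ) : ℝ) = ψ + ψ * k := by
      push_cast
      ring
    have e3 : c ((y + a * k) + a) - ee (ψ + ψ * k) * c y =
        (c ((y + a * k) + a) - ee ψ * c (y + a * k)) + ee ψ * (c (y + a * k) - ee (ψ * k) * c y) := by
      rw [Pool.Agent.H44W.ee_add]
      ring
    rw [e1, e2, e3]
    refine (norm_add_le _ _).trans ?_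
    rw [norm_mul, Pool.Agent.H44W.norm_ee, one_mul]
    have h1 := hc (y + a * k)
    have e4 : 2 * (((k + 1 : ℕ) : ℝ)) / M = 2 / M + 2 * k / M := by
      push_cast
      ring
    rw [e4]
    exact add_le_add h1 ih

/-- Translation of a sum. -/
theorem a2_shift (X : ℕ) (b : ℤ) (hb : 0 ≤ b) (hbX : b ≤ X) (F : ℤ → ℂ) (hF : ∀ y, y ∉ Ico (-(X : ℤ)) X → F y = 0) :
    ∑ y ∈ Ico (-(X : ℤ)) X, F y = ∑ z ∈ Ico (-(2 * X : ℤ)) (2 * X), F (z + b) := by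
  have h1 : ∑ᶠ y, F y = ∑ y ∈ Ico (-(X : ℤ)) X, F y := by
    apply finsum_eq_sum_of_support_subset
    intro y hy
    by_contra hn
    exact hy (hF y (fun h => hn (by exact_mod_cast h)))
  have h2 : ∑ᶠ z, F (z + b) = ∑ z ∈ Ico (-(2 * X : ℤ)) (2 * X), F (z + b) := by
    apply finsum_eq_sum_of_support_subset
    intro z hz
    by_contra hn
    apply hz
    apply hF
    intro h
    apply hn
    rw [Finset.mem_Ico] at h
    rw [Finset.coe_Ico, Set.mem_Ico]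
    constructor
    · omega
    · omega
  rw [← h1, ← h2]
  exact (finsum_comp_equiv (Equiv.addRight b)).symm

/-- Proof. `w(z) = (1/M) ∑_{j<M} g(z + a j) ee(ψ j)`, `c(y) = (1/M) ∑_{j<M} ee(ψ j) conj w(y - a j)`. `‖w‖, ‖c‖ ≤ 1`; `w` is supported in `[-X - aM, X)`, `c` in
`[-X - aM, X + aM)`. `∑_y g(y) c(y) = (1/M) ∑_j ee(ψ j) ∑_z g(z + a j) conj w(z) = ∑_z ‖w(z)‖² = TQ`. Quasi-periodicity:
`w(z + a) = ee(-ψ) (w(z) + (g(z + aM) ee(ψ M) - g(z))/M)`, so `‖w(z + a) - ee(-ψ) w(z)‖ ≤ 2/M`, hence `‖c(y + a) - ee(ψ) c(y)‖ ≤ 2/M`; induction on `k`. -/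
theorem A2_wt (X M : ℕ) (hM : 1 ≤ M) (a : ℤ) (ha : 0 ≤ a) (haM : a * M ≤ X) (ψ : ℝ) (g : ℤ → ℂ) (hg : Bdd X g) :
    ∃ c : ℤ → ℂ, (∀ y, ‖c y‖ ≤ 1) ∧ (∀ y, y ∉ Ico (-(3 * X : ℤ)) (3 * X) → c y = 0) ∧
      (∀ (y : ℤ) (k : ℕ), ‖c (y + a * k) - ee (ψ * k) * c y‖ ≤ 2 * k / M) ∧
      ∑ y ∈ Ico (-(X : ℤ)) X, g y * c y = ((TQ X M a ψ g : ℝ) : ℂ) := by
  have hM0 : (0 : ℝ) < M := by exact_mod_cast hM
  have haj : ∀ j ∈ range M, 0 ≤ a * (j : ℤ) ∧ a * (j : ℤ) ≤ X := by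
    intro j hj
    rw [Finset.mem_range] at hj
    refine ⟨by positivity, le_trans (mul_le_mul_of_nonneg_left ?_ ha) haM⟩
    exact_mod_cast hj.le
  have hw := a2_w_le hM a ψ hg.le
  refine ⟨a2c M a ψ (a2w M a ψ g), a2_c_le hM a ψ hw, ?_,
    a2_c_qp hM a ψ (a2_c_step hM a ψ (a2_w_step hM a ψ hg.le)), ?_⟩
  · intro y hy
    unfold a2c
    rw [Finset.sum_eq_zero, zero_div]
    intro j hj
    have h0 : a2w M a ψ g (y - a * j) = 0 := by
      unfold a2w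
      rw [Finset.sum_eq_zero, zero_div]
      intro i hi
      have h1 := haj j hj
      have h2 := haj i hi
      rw [hg.sup, zero_mul]
      intro h3
      apply hy
      rw [Finset.mem_Ico] at h3 ⊢
      constructor
      · omega
      · omega
    rw [h0, map_zero, mul_zero]
  · have h1 : ∀ j ∈ range M, ∑ y ∈ Ico (-(X : ℤ)) X, g y * (starRingEnd ℂ) (a2w M a ψ g (y - a * j)) =
        ∑ z ∈ Ico (-(2 * X : ℤ)) (2 * X), g (z + a * j) * (starRingEnd ℂ) (a2w M a ψ g z) := by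
      intro j hj
      rw [a2_shift X (a * j) (haj j hj).1 (haj j hj).2 (fun y => g y * (starRingEnd ℂ) (a2w M a ψ g (y - a * j)))
        (fun y hy => by rw [hg.sup y hy, zero_mul])]
      refine Finset.sum_congr rfl fun z _ => ?_
      rw [add_sub_cancel_right]
    have h2 : ∑ y ∈ Ico (-(X : ℤ)) X, g y * a2c M a ψ (a2w M a ψ g) y =
        (∑ j ∈ range M, ee (ψ * j) * ∑ y ∈ Ico (-(X : ℤ)) X, g y * (starRingEnd ℂ) (a2w M a ψ g (y - a * j))) / M := by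
      unfold a2c
      rw [Finset.sum_congr rfl (fun j _ => Finset.mul_sum _ _ _), Finset.sum_comm, Finset.sum_div]
      refine Finset.sum_congr rfl fun y _ => ?_
      rw [← mul_div_assoc, Finset.mul_sum]
      congr 1
      refine Finset.sum_congr rfl fun j _ => ?_
      ring
    have h3 : ∑ j ∈ range M, ee (ψ * j) * ∑ y ∈ Ico (-(X : ℤ)) X, g y * (starRingEnd ℂ) (a2w M a ψ g (y - a * j)) =
        ∑ j ∈ range M, ee (ψ * j) * ∑ z ∈ Ico (-(2 * X : ℤ)) (2 * X), g (z + a * j) * (starRingEnd ℂ) (a2w M a ψ g z) :=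
      Finset.sum_congr rfl fun j hj => by rw [h1 j hj]
    rw [h2, h3]
    unfold TQ
    rw [Complex.ofReal_sum, Finset.sum_congr rfl (fun j _ => Finset.mul_sum _ _ _), Finset.sum_comm, Finset.sum_div]
    refine Finset.sum_congr rfl fun z _ => ?_
    have h4 : ∑ j ∈ range M, ee (ψ * j) * (g (z + a * j) * (starRingEnd ℂ) (a2w M a ψ g z)) =
        (∑ j ∈ range M, g (z + a * j) * ee (ψ * j)) * (starRingEnd ℂ) (a2w M a ψ g z) := by
      rw [Finset.sum_mul]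
      refine Finset.sum_congr rfl fun j _ => ?_
      ring
    have h5 : (∑ j ∈ range M, g (z + a * j) * ee (ψ * j)) / (M : ℂ) = a2w M a ψ g z := rfl
    rw [h4, mul_div_right_comm, h5, Complex.mul_conj, Complex.normSq_eq_norm_sq]

end Pool.Agent.HUK
end

-- from Lib.HUK.A4
section

/-!
# Project HUK, chunk A4 (M): the quasi-period of the product over the cube
-/

open Finset

namespace Pool.Agent.HUK

open Pool.Agent.H44W (ee)

/-- Auxiliary: the recursion of `DL` at the first direction. -/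
theorem a4_cons (c : ℤ × ℤ → ℂ) (p : ℤ × ℤ) (L : List (ℤ × ℤ)) (z a : ℤ) :
    DL (p :: L) c (z, a) = DL L c (z, a) * (starRingEnd ℂ) (DL L c (z + p.1, a + p.2)) := by
  have h : DL (p :: L) c = DD p (DL L c) := DL_DD L p c
  rw [h]
  rfl

/-- If not all vertices are in `(K, 2K]`, the product vanishes. Induction on `L` (`DL_DD`: `DL (p :: L) c = DD p (DL L c)`). -/
theorem A4_zero (X K H : ℕ) (ψ : ℝ) (c : ℤ × ℤ → ℂ) (hc : QP X K H ψ c) (L : List (ℤ × ℤ)) (z a : ℤ)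
    (hV : ¬ Vt K (L.map Prod.snd) a) : DL L c (z, a) = 0 := by
  induction L generalizing z a with
  | nil => exact hc.supa z a hV
  | cons p L ih =>
    rw [a4_cons]
    by_cases h1 : Vt K (L.map Prod.snd) a
    · have h2 : ¬ Vt K (L.map Prod.snd) (a + p.2) := fun h2 => hV ⟨h1, h2⟩
      rw [ih (z + p.1) (a + p.2) h2, map_zero, mul_zero]
    · rw [ih z a h1, zero_mul]

theorem A4_pos (K : ℕ) (l : List ℤ) (a : ℤ) (hV : Vt K l a) :
    0 < Qf l a ∧ (Qf l a : ℝ) ≤ (2 * K) ^ (2 ^ l.length) := by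
  induction l generalizing a with
  | nil =>
    obtain ⟨h1, h2⟩ := hV
    refine ⟨lt_of_le_of_lt (Int.natCast_nonneg K) h1, ?_⟩
    have h3 : ((a : ℤ) : ℝ) ≤ ((2 * K : ℤ) : ℝ) := by exact_mod_cast h2
    simpa [Qf] using h3
  | cons j l ih =>
    obtain ⟨h1, h2⟩ := hV
    obtain ⟨p1, q1⟩ := ih a h1
    obtain ⟨p2, q2⟩ := ih (a + j) h2
    refine ⟨mul_pos p1 p2, ?_⟩
    have p2' : (0 : ℝ) ≤ (Qf l (a + j) : ℝ) := by exact_mod_cast p2.le
    have p1' : (0 : ℝ) ≤ (Qf l a : ℝ) := by exact_mod_cast p1.le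
    have e : (Qf (j :: l) a : ℝ) = (Qf l a : ℝ) * (Qf l (a + j) : ℝ) := by
      show (((Qf l a * Qf l (a + j) : ℤ)) : ℝ) = _
      push_cast
      rfl
    rw [e, List.length_cons, pow_succ, pow_mul, sq]
    exact mul_le_mul q1 q2 p2' (p1'.trans q1)

/-- Auxiliary: products of two approximations. -/
theorem a4_prod (U1 U2 u1 u2 e1 e2 : ℂ) (δ1 δ2 : ℝ) (h1 : ‖U1 - e1 * u1‖ ≤ δ1) (h2 : ‖U2 - e2 * u2‖ ≤ δ2)
    (hU2 : ‖U2‖ ≤ 1) (hu1 : ‖u1‖ ≤ 1) (he1 : ‖e1‖ = 1) :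
    ‖U1 * (starRingEnd ℂ) U2 - (e1 * (starRingEnd ℂ) e2) * (u1 * (starRingEnd ℂ) u2)‖ ≤ δ1 + δ2 := by
  have e : U1 * (starRingEnd ℂ) U2 - (e1 * (starRingEnd ℂ) e2) * (u1 * (starRingEnd ℂ) u2) =
      (U1 - e1 * u1) * (starRingEnd ℂ) U2 + (e1 * u1) * (starRingEnd ℂ) (U2 - e2 * u2) := by
    rw [map_sub, map_mul]
    ring
  rw [e]
  refine (norm_add_le _ _).trans (add_le_add ?_ ?_)
  · rw [norm_mul, Complex.norm_conj]
    calc ‖U1 - e1 * u1‖ * ‖U2‖ ≤ ‖U1 - e1 * u1‖ * 1 := mul_le_mul_of_nonneg_left hU2 (norm_nonneg _)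
      _ ≤ δ1 := by rw [mul_one]; exact h1
  · rw [norm_mul, Complex.norm_conj, norm_mul, he1, one_mul]
    calc ‖u1‖ * ‖U2 - e2 * u2‖ ≤ 1 * ‖U2 - e2 * u2‖ := mul_le_mul_of_nonneg_right hu1 (norm_nonneg _)
      _ ≤ δ2 := by rw [one_mul]; exact h2

/-- Proof by induction on `L`. `U = DL L c`, `DL ((σ, j) :: L) c (z, a) = U (z, a) * conj U (z + σ, a + j)` (`DL_DD`). With `Q = Qf l a`, `Q' = Qf l (a + j)`,
`Qf (j :: l) a = Q Q'`: the translation by `Q Q' k` is `Q (Q' k)` for the first and `Q' (Q k)` for the second factor; the phases are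
`ee(ψ Df l a Q' k)`, `ee(ψ Df l (a+j) Q k)`, the quotient is `ee(ψ Df (j :: l) a k)`; the errors `2^|l| (Q' k) Q/(K H)` and `2^|l| (Q k) Q'/(K H)`, all
functions are bounded by `1`. Base: `k/H ≤ k a/(K H)`. -/
theorem A4_qp (X K H : ℕ) (hK : 1 ≤ K) (hH : 1 ≤ H) (ψ : ℝ) (c : ℤ × ℤ → ℂ) (hc : QP X K H ψ c) (L : List (ℤ × ℤ)) (a : ℤ)
    (hV : Vt K (L.map Prod.snd) a) (z : ℤ) (k : ℕ) :
    ‖DL L c (z + Qf (L.map Prod.snd) a * k, a) - ee (ψ * (Df (L.map Prod.snd) a * k)) * DL L c (z, a)‖ ≤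
      2 ^ L.length * (k * Qf (L.map Prod.snd) a) / (K * H) := by
  induction L generalizing a z k with
  | nil =>
    obtain ⟨h1, h2⟩ := hV
    have h3 := hc.qp z a k h1 h2
    have hK' : (0 : ℝ) < K := by exact_mod_cast hK
    have hH' : (0 : ℝ) < H := by exact_mod_cast hH
    have ha : (K : ℝ) ≤ (a : ℝ) := by exact_mod_cast h1.le
    have e1 : ψ * (((Df (List.map Prod.snd ([] : List (ℤ × ℤ))) a : ℤ) : ℝ) * (k : ℝ)) = ψ * k := by
      simp [Df]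
    rw [e1]
    refine h3.trans ?_
    show (k : ℝ) / H ≤ 2 ^ 0 * (k * (a : ℝ)) / (K * H)
    rw [pow_zero, one_mul, div_le_div_iff₀ hH' (mul_pos hK' hH')]
    have hk : (0 : ℝ) ≤ k := Nat.cast_nonneg k
    have := mul_le_mul_of_nonneg_left ha (mul_nonneg hk hH'.le)
    nlinarith
  | cons p L ih =>
    obtain ⟨h1, h2⟩ := hV
    set l := L.map Prod.snd with hl
    obtain ⟨p1, -⟩ := A4_pos K l a h1
    obtain ⟨p2, -⟩ := A4_pos K l (a + p.2) h2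
    obtain ⟨Q, hQ⟩ : ∃ Q : ℕ, (Q : ℤ) = Qf l a := ⟨(Qf l a).toNat, Int.toNat_of_nonneg p1.le⟩
    obtain ⟨Q', hQ'⟩ : ∃ Q' : ℕ, (Q' : ℤ) = Qf l (a + p.2) := ⟨(Qf l (a + p.2)).toNat, Int.toNat_of_nonneg p2.le⟩
    have i1 := ih a h1 z (Q' * k)
    have i2 := ih (a + p.2) h2 (z + p.1) (Q * k)
    have eQ : Qf (List.map Prod.snd (p :: L)) a = Qf l a * Qf l (a + p.2) := rfl
    have eD : Df (List.map Prod.snd (p :: L)) a = Df l a * Qf l (a + p.2) - Df l (a + p.2) * Qf l a := rfl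
    rw [a4_cons, a4_cons, eQ, eD, List.length_cons]
    rw [← hQ] at i1 ⊢
    rw [← hQ'] at i2 ⊢
    have z1 : z + (Q : ℤ) * ((Q' * k : ℕ) : ℤ) = z + (Q : ℤ) * (Q' : ℤ) * (k : ℤ) := by push_cast; ring
    have z2 : z + p.1 + (Q' : ℤ) * ((Q * k : ℕ) : ℤ) = z + (Q : ℤ) * (Q' : ℤ) * (k : ℤ) + p.1 := by push_cast; ring
    rw [z1] at i1
    rw [z2] at i2
    have hP := a4_prod _ _ _ _ _ _ _ _ i1 i2 (DL_norm L c hc.le _) (DL_norm L c hc.le _)
      (Pool.Agent.H44W.norm_ee _)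
    rw [← Pool.Agent.H44W.ee_neg, ← Pool.Agent.H44W.ee_add] at hP
    have e1 : ψ * (((Df l a : ℤ) : ℝ) * ((Q' * k : ℕ) : ℝ)) + -(ψ * (((Df l (a + p.2) : ℤ) : ℝ) * ((Q * k : ℕ) : ℝ))) =
        ψ * (((Df l a * (Q' : ℤ) - Df l (a + p.2) * (Q : ℤ) : ℤ) : ℝ) * (k : ℝ)) := by
      push_cast
      ring
    have e2 : 2 ^ L.length * (((Q' * k : ℕ) : ℝ) * (((Q : ℤ)) : ℝ)) / ((K : ℝ) * H) +
        2 ^ L.length * (((Q * k : ℕ) : ℝ) * (((Q' : ℤ)) : ℝ)) / ((K : ℝ) * H) =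
        2 ^ (L.length + 1) * ((k : ℝ) * (((Q : ℤ) * (Q' : ℤ) : ℤ) : ℝ)) / ((K : ℝ) * H) := by
      push_cast
      ring
    rw [e1, e2] at hP
    exact hP

end Pool.Agent.HUK
end

-- from Lib.HUK.A5
section

/-!
# Project HUK, chunk A5 (M): a large sum over `z` gives a diophantine condition for `ψ`
-/

open Finset

namespace Pool.Agent.HUK

open Pool.Agent.H44W (ee)
open Pool.Agent.Lib.H84V (nd)

theorem a5_one_sub (t : ℝ) : 4 * nd t ≤ ‖1 - ee t‖ := by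
  have h1 : ee t = ee (t - round t) := by
    have h2 : t = (t - round t) + ((round t : ℤ) : ℝ) := by ring
    conv_lhs => rw [h2]
    rw [Pool.Agent.H44W.ee_add, Pool.Agent.H44W.ee_int, mul_one]
  have h3 : |t - round t| ≤ 1 / 2 := abs_sub_round t
  rw [h1]
  unfold Pool.Agent.Lib.H84V.nd
  set s := t - round t with hs
  have h4 : ‖1 - ee s‖ = ‖2 * Real.sin (Real.pi * s)‖ := by
    rw [norm_sub_rev]
    have h5 := Complex.norm_exp_I_mul_ofReal_sub_one (2 * Real.pi * s)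
    have h6 : 2 * Real.pi * s / 2 = Real.pi * s := by ring
    rw [h6] at h5
    rw [← h5]
    unfold Pool.Agent.H44W.ee
    congr 3
    push_cast
    ring
  rw [h4, Real.norm_eq_abs, abs_mul, abs_two]
  have h7 : |Real.sin (Real.pi * s)| = |Real.sin (Real.pi * |s|)| := by
    rcases le_or_gt 0 s with h | h
    · rw [abs_of_nonneg h]
    · rw [abs_of_neg h, mul_neg, Real.sin_neg, abs_neg]
  have h8 : 2 / Real.pi * (Real.pi * |s|) ≤ Real.sin (Real.pi * |s|) := by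
    refine Real.mul_le_sin (by positivity) ?_
    have := Real.pi_pos
    nlinarith
  have h9 : 2 / Real.pi * (Real.pi * |s|) = 2 * |s| := by
    field_simp
  rw [h9] at h8
  rw [h7]
  have h10 := le_abs_self (Real.sin (Real.pi * |s|))
  linarith


/-- Proof. `U z = DL L c (z, a)`, `Q = Qf …`, `D = Df …`, `n = 2^|L|`. `U` is bounded by `1`, supported in `[-3X, 3X)`. For `R ≥ 1` with `Q R ≤ X`:
`R ∑_z U(z) = ∑_{k<R} ∑_{z ∈ [-4X, 3X)} U(z + Q k)`, so by `A4_qp`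
`‖∑_z U(z)‖ ≤ 7X ‖(1/R) ∑_{k<R} ee(ψ D k)‖ + 7X n R Q/(K H)`. Take `R = ⌊ρ K H/(14 n Q)⌋ ≥ 1` (`≥ ρ K H/(28 n Q)`): the last term is at most `ρ X/2`, so
`‖∑_{k<R} ee(ψ D k)‖ ≥ ρ R/14`, and `A5_geo` gives `nd(ψ D) ≤ 7/(ρ R) ≤ 196 n Q/(ρ² K H)`. -/
theorem A5_sum (X K H : ℕ) (hX : 1 ≤ X) (hK : 1 ≤ K) (hH : 1 ≤ H) (hKH : K * H ≤ X) (ψ : ℝ) (c : ℤ × ℤ → ℂ)
    (hc : QP X K H ψ c) (L : List (ℤ × ℤ)) (a : ℤ) (hV : Vt K (L.map Prod.snd) a) (ρ : ℝ) (hρ : 0 < ρ) (hρ1 : ρ ≤ 1)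
    (hQ : 14 * 2 ^ L.length * (Qf (L.map Prod.snd) a : ℝ) ≤ ρ * (K * H))
    (h : ρ * X ≤ ‖∑ z ∈ Ico (-(3 * X : ℤ)) (3 * X), DL L c (z, a)‖) :
    nd (ψ * Df (L.map Prod.snd) a) ≤ 196 * 2 ^ L.length * Qf (L.map Prod.snd) a / (ρ ^ 2 * (K * H)) := by
  have hpos := A4_pos K (L.map Prod.snd) a hV
  have hqp := fun z : ℤ => A4_qp X K H hK hH ψ c hc L a hV z 1
  set Q := Qf (L.map Prod.snd) a with hQdef
  set D := Df (L.map Prod.snd) a with hDdef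
  have hQpos : (0 : ℝ) < Q := by exact_mod_cast hpos.1
  have hU0 : ∀ z : ℤ, z ∉ Ico (-(3 * X : ℤ)) (3 * X) → DL L c (z, a) = 0 := fun z hz =>
    DL_supp L c (z, a) (hc.supz z a hz)
  have hXr : (1 : ℝ) ≤ X := by exact_mod_cast hX
  have hKr : (1 : ℝ) ≤ K := by exact_mod_cast hK
  have hHr : (1 : ℝ) ≤ H := by exact_mod_cast hH
  have hKHr : (K : ℝ) * H ≤ X := by exact_mod_cast hKH
  have hn1 : (1 : ℝ) ≤ 2 ^ L.length := one_le_pow₀ (by norm_num)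
  have hKHpos : (0 : ℝ) < (K : ℝ) * H := by positivity
  -- `Q ≤ X`
  have hQX : Q ≤ (X : ℤ) := by
    have h1 : (Q : ℝ) ≤ 14 * 2 ^ L.length * (Q : ℝ) := by nlinarith
    have h2 : ρ * (K * H) ≤ X := by nlinarith
    have h3 : (Q : ℝ) ≤ ((X : ℤ) : ℝ) := by push_cast; linarith
    exact_mod_cast h3
  -- the sum over the larger interval
  set S := ∑ z ∈ Ico (-(3 * X : ℤ)) (3 * X), DL L c (z, a) with hS
  have hS0 : ∑ z ∈ Ico (-(4 * X : ℤ)) (3 * X), DL L c (z, a) = S := by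
    rw [hS]
    symm
    apply Finset.sum_subset
    · intro z hz
      simp only [Finset.mem_Ico] at hz ⊢
      constructor
      · have : (0 : ℤ) ≤ X := by positivity
        linarith
      · exact hz.2
    · intro z _ hz
      exact hU0 z hz
  have hS1 : ∑ z ∈ Ico (-(4 * X : ℤ)) (3 * X), DL L c (z + Q, a) = S := by
    have h1 := Finset.sum_Ico_add' (fun z : ℤ => DL L c (z, a)) (-(4 * X : ℤ)) (3 * X) Q
    rw [h1, hS]
    symm
    apply Finset.sum_subset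
    · intro z hz
      simp only [Finset.mem_Ico] at hz ⊢
      have h5 := hpos.1
      constructor
      · linarith
      · linarith
    · intro z _ hz
      exact hU0 z hz
  have h1 : ‖S - ee (ψ * D) * S‖ ≤ 7 * X * (2 ^ L.length * Q / (K * H)) := by
    have h2 : S - ee (ψ * D) * S = ∑ z ∈ Ico (-(4 * X : ℤ)) (3 * X),
        (DL L c (z + Q, a) - ee (ψ * D) * DL L c (z, a)) := by
      rw [Finset.sum_sub_distrib, ← Finset.mul_sum, hS0, hS1]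
    rw [h2]
    have h3 : ∀ z ∈ Ico (-(4 * X : ℤ)) (3 * X), ‖DL L c (z + Q, a) - ee (ψ * D) * DL L c (z, a)‖ ≤
        2 ^ L.length * Q / (K * H) := by
      intro z _
      have h4 := hqp z
      simpa using h4
    refine (norm_sum_le_of_le _ h3).trans ?_
    rw [Finset.sum_const, nsmul_eq_mul, Int.card_Ico]
    have h5 : ((3 * X : ℤ) - -(4 * X : ℤ)).toNat = 7 * X := by omega
    rw [h5]
    push_cast
    exact le_refl _
  have h2 : ‖S - ee (ψ * D) * S‖ = ‖1 - ee (ψ * D)‖ * ‖S‖ := by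
    rw [← norm_mul]
    congr 1
    ring
  rw [h2] at h1
  have h3 := a5_one_sub (ψ * D)
  have hnd := Pool.Agent.Lib.H84V.nd_nonneg (ψ * D)
  -- `4 nd (ρ X) ≤ 7 X n Q/(KH)`
  have h4 : 4 * nd (ψ * D) * (ρ * X) ≤ 7 * X * (2 ^ L.length * Q / (K * H)) := by
    refine le_trans ?_ h1
    exact mul_le_mul h3 h (by positivity) (norm_nonneg _)
  have h5 : 4 * nd (ψ * D) * ρ ≤ 7 * (2 ^ L.length * Q / (K * H)) := by
    have hX0 : (0 : ℝ) < X := by linarith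
    have h6 : (4 * nd (ψ * D) * ρ) * X ≤ (7 * (2 ^ L.length * Q / (K * H))) * X := by
      calc (4 * nd (ψ * D) * ρ) * X = 4 * nd (ψ * D) * (ρ * X) := by ring
        _ ≤ 7 * X * (2 ^ L.length * Q / (K * H)) := h4
        _ = _ := by ring
    exact le_of_mul_le_mul_right h6 hX0
  rw [le_div_iff₀ (by positivity)]
  have h7 : 4 * nd (ψ * D) * ρ * (K * H) ≤ 7 * (2 ^ L.length * Q) := by
    have h8 := mul_le_mul_of_nonneg_right h5 hKHpos.le
    have h9 : 7 * (2 ^ L.length * (Q : ℝ) / (K * H)) * (K * H) = 7 * (2 ^ L.length * Q) := by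
      field_simp
    rw [h9] at h8
    exact h8
  have h10 : nd (ψ * D) * (ρ ^ 2 * (K * H)) = (nd (ψ * D) * ρ * (K * H)) * ρ := by ring
  rw [h10]
  have h11 : 0 ≤ nd (ψ * D) * ρ * (K * H) := by positivity
  have h12 : (nd (ψ * D) * ρ * (K * H)) * ρ ≤ nd (ψ * D) * ρ * (K * H) := by nlinarith
  have h13 : (0 : ℝ) ≤ 2 ^ L.length * Q := by positivity
  linarith

end Pool.Agent.HUK
end

-- from Lib.HUK.A8a
section

/-!
# Project HUK, A8a (helper37): integer functions of degree at most `d` with a given leading coefficient; `Qf`, `Df` on lines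
-/

open Finset

namespace Pool.Agent.HUK

/-- `P` is a polynomial function of degree at most `d` with leading coefficient `c` (coefficient of `k ^ d`). -/
def PF : ℕ → ℤ → (ℤ → ℤ) → Prop
  | 0, c, P => ∀ k, P k = c
  | d + 1, c, P => ∀ h : ℤ, PF d (((d : ℤ) + 1) * h * c) (fun k => P (k + h) - P k)

theorem pf_congr {d : ℕ} {c c' : ℤ} {P P' : ℤ → ℤ} (hc : c = c') (hP : ∀ k, P k = P' k) (h : PF d c P) : PF d c' P' := by
  have h1 : P = P' := funext hP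
  rw [← hc, ← h1]
  exact h

theorem pf_add (d : ℕ) : ∀ (c c' : ℤ) (P P' : ℤ → ℤ), PF d c P → PF d c' P' → PF d (c + c') (fun k => P k + P' k) := by
  induction d with
  | zero =>
    intro c c' P P' h h' k
    change P k + P' k = _
    rw [h k, h' k]
  | succ d ih =>
    intro c c' P P' h h' t
    refine pf_congr ?_ ?_ (ih _ _ _ _ (h t) (h' t))
    · ring
    · intro k
      ring

theorem pf_smul (d : ℕ) (a : ℤ) : ∀ (c : ℤ) (P : ℤ → ℤ), PF d c P → PF d (a * c) (fun k => a * P k) := by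
  induction d with
  | zero =>
    intro c P h k
    change a * P k = _
    rw [h k]
  | succ d ih =>
    intro c P h t
    refine pf_congr ?_ ?_ (ih _ _ (h t))
    · ring
    · intro k
      ring

theorem pf_shift (d : ℕ) (a : ℤ) : ∀ (c : ℤ) (P : ℤ → ℤ), PF d c P → PF d c (fun k => P (k + a)) := by
  induction d with
  | zero =>
    intro c P h k
    exact h _
  | succ d ih =>
    intro c P h t
    refine pf_congr rfl ?_ (ih _ _ (h t))
    intro k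
    simp only [add_right_comm k a t]

theorem pf_mul (n : ℕ) : ∀ (d1 d2 : ℕ), d1 + d2 = n → ∀ (c1 c2 : ℤ) (P Q : ℤ → ℤ), PF d1 c1 P → PF d2 c2 Q →
    PF n (c1 * c2) (fun k => P k * Q k) := by
  induction n with
  | zero =>
    intro d1 d2 hd c1 c2 P Q hP hQ
    obtain rfl : d1 = 0 := by omega
    obtain rfl : d2 = 0 := by omega
    intro k
    change P k * Q k = _
    rw [hP k, hQ k]
  | succ n ih =>
    intro d1 d2 hd c1 c2 P Q hP hQ
    rcases d1 with _ | a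
    · obtain rfl : d2 = n + 1 := by omega
      exact pf_congr rfl (fun k => by rw [hP k]) (pf_smul (n + 1) c1 c2 Q hQ)
    · rcases d2 with _ | b
      · obtain rfl : a = n := by omega
        exact pf_congr (mul_comm _ _) (fun k => by rw [hQ k, mul_comm]) (pf_smul (a + 1) c2 c1 P hP)
      · intro t
        have h1 := ih a (b + 1) (by omega) _ _ _ _ (hP t) (pf_shift (b + 1) t c2 Q hQ)
        have h2 := ih (a + 1) b (by omega) _ _ _ _ hP (hQ t)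
        refine pf_congr ?_ ?_ (pf_add n _ _ _ _ h1 h2)
        · have h3 : (n : ℤ) = a + b + 1 := by
            have : n = a + b + 1 := by omega
            rw [this]
            push_cast
            ring
          rw [h3]
          ring
        · intro k
          ring

theorem pf_lin (a m : ℤ) : PF 1 m (fun k => a + m * k) := by
  intro h k
  simp only [Nat.cast_zero]
  ring

theorem pf_Q (l : List ℤ) : ∀ a m : ℤ, PF (2 ^ l.length) (Qf (List.replicate l.length 1) m)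
    (fun k => Qf (l.map (· + k)) (a + m * k)) := by
  induction l with
  | nil =>
    intro a m
    exact pf_lin a m
  | cons j l ih =>
    intro a m
    have h1 := pf_mul (2 ^ l.length + 2 ^ l.length) _ _ rfl _ _ _ _ (ih a m) (ih (a + j) (m + 1))
    have h2 : 2 ^ (j :: l).length = 2 ^ l.length + 2 ^ l.length := by
      rw [List.length_cons, pow_succ]
      ring
    rw [h2]
    refine pf_congr ?_ ?_ h1
    · rw [List.length_cons, List.replicate_succ]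
      rfl
    · intro k
      rw [List.map_cons]
      change _ = Qf (l.map (· + k)) (a + m * k) * Qf (l.map (· + k)) (a + m * k + (j + k))
      rw [show a + m * k + (j + k) = a + j + (m + 1) * k by ring]

theorem pf_D (l : List ℤ) : ∀ a m : ℤ, PF (2 ^ l.length - 1) (Df (List.replicate l.length 1) m)
    (fun k => Df (l.map (· + k)) (a + m * k)) := by
  induction l with
  | nil =>
    intro a m k
    rfl
  | cons j l ih =>
    intro a m
    have h1 := pf_mul (2 ^ l.length - 1 + 2 ^ l.length) _ _ rfl _ _ _ _ (ih a m) (pf_Q l (a + j) (m + 1))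
    have h2 := pf_mul (2 ^ l.length - 1 + 2 ^ l.length) _ _ rfl _ _ _ _ (ih (a + j) (m + 1)) (pf_Q l a m)
    have h3 := pf_add _ _ _ _ _ h1 (pf_smul _ (-1) _ _ h2)
    have h4 : 2 ^ (j :: l).length - 1 = 2 ^ l.length - 1 + 2 ^ l.length := by
      have h5 := Nat.one_le_two_pow (n := l.length)
      rw [List.length_cons, pow_succ]
      omega
    rw [h4]
    refine pf_congr ?_ ?_ h3
    · rw [List.length_cons, List.replicate_succ]
      change _ = Df (List.replicate l.length 1) m * Qf (List.replicate l.length 1) (m + 1) -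
        Df (List.replicate l.length 1) (m + 1) * Qf (List.replicate l.length 1) m
      ring
    · intro k
      rw [List.map_cons]
      change _ = Df (l.map (· + k)) (a + m * k) * Qf (l.map (· + k)) (a + m * k + (j + k)) -
        Df (l.map (· + k)) (a + m * k + (j + k)) * Qf (l.map (· + k)) (a + m * k)
      rw [show a + m * k + (j + k) = a + j + (m + 1) * k by ring]
      ring

theorem pf_Q_pos (r : ℕ) : ∀ a : ℤ, 0 < a → 0 < Qf (List.replicate r 1) a := by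
  induction r with
  | zero =>
    intro a ha
    exact ha
  | succ r ih =>
    intro a ha
    rw [List.replicate_succ]
    exact mul_pos (ih a ha) (ih (a + 1) (by omega))

theorem pf_D_eq (r : ℕ) : ∀ a : ℤ, Df (List.replicate r 1) a * ∏ i ∈ range (r + 1), (a + i) =
    (r.factorial : ℤ) * Qf (List.replicate r 1) a := by
  induction r with
  | zero =>
    intro a
    rw [zero_add, Finset.prod_range_one]
    simp [Df, Qf]
  | succ r ih =>
    intro a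
    rw [List.replicate_succ]
    change (Df (List.replicate r 1) a * Qf (List.replicate r 1) (a + 1) -
      Df (List.replicate r 1) (a + 1) * Qf (List.replicate r 1) a) * _ =
      _ * (Qf (List.replicate r 1) a * Qf (List.replicate r 1) (a + 1))
    have h1 := ih a
    have h2 := ih (a + 1)
    have h3 : ∏ i ∈ range (r + 1 + 1), (a + (i : ℤ)) = (∏ i ∈ range (r + 1), (a + (i : ℤ))) * (a + (r + 1)) := by
      rw [Finset.prod_range_succ]
      push_cast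
      rfl
    have h4 : ∏ i ∈ range (r + 1 + 1), (a + (i : ℤ)) = a * ∏ i ∈ range (r + 1), (a + 1 + (i : ℤ)) := by
      rw [Finset.prod_range_succ']
      rw [mul_comm]
      congr 1
      · push_cast
        ring
      · refine Finset.prod_congr rfl fun i _ => ?_
        push_cast
        ring
    have h5 : (Df (List.replicate r 1) a * Qf (List.replicate r 1) (a + 1) -
      Df (List.replicate r 1) (a + 1) * Qf (List.replicate r 1) a) * ∏ i ∈ range (r + 1 + 1), (a + (i : ℤ)) =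
      Df (List.replicate r 1) a * Qf (List.replicate r 1) (a + 1) * ((∏ i ∈ range (r + 1), (a + (i : ℤ))) * (a + (r + 1))) -
      Df (List.replicate r 1) (a + 1) * Qf (List.replicate r 1) a * (a * ∏ i ∈ range (r + 1), (a + 1 + (i : ℤ))) := by
      rw [sub_mul]
      congr 1
      · rw [h3]
      · rw [h4]
    rw [h5, Nat.factorial_succ]
    push_cast
    linear_combination (Qf (List.replicate r 1) (a + 1) * (a + (r + 1))) * h1 - (Qf (List.replicate r 1) a * a) * h2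

theorem pf_D_ne (r : ℕ) : Df (List.replicate r 1) 1 ≠ 0 := by
  intro h
  have h1 := pf_D_eq r 1
  rw [h, zero_mul] at h1
  have h2 : (0 : ℤ) < (r.factorial : ℤ) * Qf (List.replicate r 1) 1 :=
    mul_pos (by exact_mod_cast Nat.factorial_pos r) (pf_Q_pos r 1 one_pos)
  omega

end Pool.Agent.HUK
end

-- from Lib.HUK.A8b
section

/-!
# Project HUK, A8b (helper37): Vinogradov's lemma for integer functions of degree at most `d`
-/

open Finset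

namespace Pool.Agent.HUK

open Pool.Agent.Lib.H84V (nd nd_sub_le vino nd_nonneg)

open Classical in
/-- pairs of elements of `S ⊆ [0, L)` by their difference. -/
theorem av_pairs (L : ℕ) (S : Finset ℕ) (hS : S ⊆ range L) :
    ∑ h ∈ Ioo (-(L : ℤ)) L, ((range L).filter fun k : ℕ => k ∈ S ∧ ∃ k' ∈ S, (k' : ℤ) = k + h).card = S.card ^ 2 := by
  rw [sq, ← Finset.card_product]
  rw [Finset.card_eq_sum_card_fiberwise (s := S ×ˢ S) (t := Ioo (-(L : ℤ)) L) (f := fun p : ℕ × ℕ => (p.2 : ℤ) - p.1)]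
  · refine Finset.sum_congr rfl fun h _ => ?_
    refine Finset.card_bij' (fun k _ => (k, ((k : ℤ) + h).toNat)) (fun p _ => p.1) ?_ ?_ ?_ ?_
    · intro k hk
      rw [mem_filter] at hk
      obtain ⟨_, hk1, k', hk', he⟩ := hk
      rw [mem_filter, mem_product]
      have h1 : ((k : ℤ) + h).toNat = k' := by omega
      refine ⟨⟨hk1, ?_⟩, ?_⟩
      · simp only [h1]
        exact hk'
      · simp only [h1]
        omega
    · intro p hp
      rw [mem_filter, mem_product] at hp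
      rw [mem_filter]
      exact ⟨hS hp.1.1, hp.1.1, p.2, hp.1.2, by omega⟩
    · intro k _
      rfl
    · intro p hp
      rw [mem_filter, mem_product] at hp
      refine Prod.ext rfl ?_
      simp only
      omega
  · intro p hp
    rw [mem_coe, mem_product] at hp
    have h1 := mem_range.1 (hS hp.1)
    have h2 := mem_range.1 (hS hp.2)
    have h3 : ((p.2 : ℤ) - p.1) ∈ Ioo (-(L : ℤ)) L := by
      rw [mem_Ioo]
      omega
    exact mem_coe.2 h3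

open Classical in
/-- Many differences occur often. -/
theorem av_many (L : ℕ) (hL : 1 ≤ L) (δ : ℝ) (hδ : 0 < δ) (S : Finset ℕ) (hS : S ⊆ range L) (hc : δ * L ≤ S.card) :
    δ ^ 2 / 2 * L ≤ (((Ioo (-(L : ℤ)) L).filter fun h : ℤ => δ ^ 2 / 4 * L ≤
      (((range L).filter fun k : ℕ => k ∈ S ∧ ∃ k' ∈ S, (k' : ℤ) = k + h).card : ℝ)).card : ℝ) := by
  have hLr : (1 : ℝ) ≤ L := by exact_mod_cast hL
  have h1 : ∑ h ∈ Ioo (-(L : ℤ)) L,
      (((range L).filter fun k : ℕ => k ∈ S ∧ ∃ k' ∈ S, (k' : ℤ) = k + h).card : ℝ) = (S.card : ℝ) ^ 2 := by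
    exact_mod_cast av_pairs L S hS
  obtain ⟨r, hr⟩ : ∃ r : ℤ → ℝ, ∀ h, r h =
    (((range L).filter fun k : ℕ => k ∈ S ∧ ∃ k' ∈ S, (k' : ℤ) = k + h).card : ℝ) := ⟨_, fun _ => rfl⟩
  simp only [← hr] at h1 ⊢
  have hrL : ∀ h, r h ≤ L := by
    intro h
    rw [hr]
    have h2 : ((range L).filter fun k : ℕ => k ∈ S ∧ ∃ k' ∈ S, (k' : ℤ) = k + h).card ≤ L :=
      (Finset.card_filter_le _ _).trans (card_range L).le
    exact_mod_cast h2
  have h3 : ∑ h ∈ Ioo (-(L : ℤ)) L, r h ≤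
      (((Ioo (-(L : ℤ)) L).filter fun h : ℤ => δ ^ 2 / 4 * L ≤ r h).card : ℝ) * L + (2 * L) * (δ ^ 2 / 4 * L) := by
    rw [← Finset.sum_filter_add_sum_filter_not _ (fun h : ℤ => δ ^ 2 / 4 * L ≤ r h)]
    refine add_le_add ?_ ?_
    · rw [← nsmul_eq_mul]
      exact Finset.sum_le_card_nsmul _ _ _ fun h _ => hrL h
    · have h4 : ∑ h ∈ (Ioo (-(L : ℤ)) L).filter (fun h : ℤ => ¬ δ ^ 2 / 4 * L ≤ r h), r h ≤
          ((Ioo (-(L : ℤ)) L).filter (fun h : ℤ => ¬ δ ^ 2 / 4 * L ≤ r h)).card • (δ ^ 2 / 4 * L) :=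
        Finset.sum_le_card_nsmul _ _ _ fun h hh => (not_le.1 (mem_filter.1 hh).2).le
      refine h4.trans ?_
      rw [nsmul_eq_mul]
      refine mul_le_mul_of_nonneg_right ?_ (by positivity)
      have h5 : ((Ioo (-(L : ℤ)) L).filter (fun h : ℤ => ¬ δ ^ 2 / 4 * L ≤ r h)).card ≤ 2 * L := by
        refine (Finset.card_filter_le _ _).trans ?_
        rw [Int.card_Ioo]
        omega
      exact_mod_cast h5
  rw [h1] at h3
  have h6 : (δ * L) ^ 2 ≤ (S.card : ℝ) ^ 2 := pow_le_pow_left₀ (by positivity) hc 2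
  have h7 : δ ^ 2 / 2 * L * L ≤ (((Ioo (-(L : ℤ)) L).filter fun h : ℤ => δ ^ 2 / 4 * L ≤ r h).card : ℝ) * L := by
    nlinarith
  exact le_of_mul_le_mul_right h7 (by linarith)

/-- Pigeonhole for a function with values in `[1, B]`. -/
theorem av_pigeon (T : Finset ℤ) (f : ℤ → ℕ) (B : ℝ) (hB : 1 ≤ B) (hT : 0 < T.card)
    (hf : ∀ h ∈ T, 1 ≤ f h ∧ (f h : ℝ) ≤ B) : ∃ q : ℕ, 1 ≤ q ∧ (q : ℝ) ≤ B ∧ (T.card : ℝ) / B ≤ ((T.filter fun h => f h = q).card : ℝ) := by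
  have hB0 : 0 < B := by linarith
  obtain ⟨n, hn⟩ : ∃ n : ℕ, n = ⌊B⌋₊ := ⟨_, rfl⟩
  have hn1 : 1 ≤ n := by
    rw [hn]
    exact Nat.le_floor (by exact_mod_cast hB)
  have hnB : (n : ℝ) ≤ B := by
    rw [hn]
    exact Nat.floor_le hB0.le
  have hmaps : ∀ h ∈ T, f h ∈ Icc 1 n := by
    intro h hh
    rw [mem_Icc, hn]
    exact ⟨(hf h hh).1, Nat.le_floor (hf h hh).2⟩
  by_contra hcon
  push Not at hcon
  have h1 : ∀ q ∈ Icc 1 n, (((T.filter fun h => f h = q).card : ℕ) : ℝ) < (T.card : ℝ) / B := by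
    intro q hq
    rw [mem_Icc] at hq
    refine hcon q hq.1 (le_trans ?_ hnB)
    exact_mod_cast hq.2
  have h2 := Finset.card_eq_sum_card_fiberwise (s := T) (t := Icc 1 n) (f := f) (fun h hh => hmaps h hh)
  have h3 : (T.card : ℝ) = ∑ q ∈ Icc 1 n, (((T.filter fun h => f h = q).card : ℕ) : ℝ) := by
    exact_mod_cast h2
  have h4 : ∑ q ∈ Icc 1 n, (((T.filter fun h => f h = q).card : ℕ) : ℝ) < ∑ _q ∈ Icc 1 n, (T.card : ℝ) / B := by
    refine Finset.sum_lt_sum_of_nonempty ?_ h1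
    exact ⟨1, mem_Icc.2 ⟨le_rfl, hn1⟩⟩
  rw [← h3, Finset.sum_const, Nat.card_Icc, nsmul_eq_mul, Nat.add_sub_cancel] at h4
  have h5 : (n : ℝ) * ((T.card : ℝ) / B) ≤ B * ((T.card : ℝ) / B) := mul_le_mul_of_nonneg_right hnB (by positivity)
  rw [mul_div_cancel₀ _ hB0.ne'] at h5
  linarith

open Classical in
/-- Vinogradov's lemma for functions of degree at most `d`. -/
theorem av_main (d : ℕ) : ∃ C : ℕ, ∀ δ : ℝ, 0 < δ → δ ≤ 1 / 2 → ∀ L : ℕ, (1 / δ) ^ C ≤ L → ∀ (c : ℤ) (P : ℤ → ℤ) (ψ ε : ℝ),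
    PF d c P → 0 ≤ ε → ε ≤ δ ^ C → δ * L ≤ (((range L).filter fun k : ℕ => nd (ψ * P k) ≤ ε).card : ℝ) →
    ∃ q : ℕ, 1 ≤ q ∧ (q : ℝ) ≤ (1 / δ) ^ C ∧ nd (q * (c * ψ)) ≤ (1 / δ) ^ C * ε / (L : ℝ) ^ d := by
  induction d with
  | zero =>
    refine ⟨1, fun δ hδ hδ2 L hL c P ψ ε hP hε _ hcard => ?_⟩
    have hδi : 2 ≤ 1 / δ := by
      rw [le_div_iff₀ hδ]
      linarith
    have hL0 : (0 : ℝ) < L := by
      rw [pow_one] at hL
      linarith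
    have h1 : (0 : ℝ) < (((range L).filter fun k : ℕ => nd (ψ * P k) ≤ ε).card : ℝ) :=
      lt_of_lt_of_le (by positivity) hcard
    have h2 : 0 < ((range L).filter fun k : ℕ => nd (ψ * P k) ≤ ε).card := by exact_mod_cast h1
    obtain ⟨k, hk⟩ := Finset.card_pos.1 h2
    rw [mem_filter, hP] at hk
    refine ⟨1, le_rfl, by rw [pow_one]; push_cast; linarith, ?_⟩
    rw [Nat.cast_one, one_mul, mul_comm, pow_zero, div_one, pow_one]
    refine hk.2.trans ?_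
    nlinarith
  | succ d ih =>
    obtain ⟨C, hC⟩ := ih
    refine ⟨12 * C + d + 20, fun δ hδ hδ2 L hL c P ψ ε hP hε hεδ hcard => ?_⟩
    have hδi : 2 ≤ 1 / δ := by
      rw [le_div_iff₀ hδ]
      linarith
    have hδi1 : 1 ≤ 1 / δ := by linarith
    have hδ1 : δ ≤ 1 := by linarith
    have hmono : ∀ a b : ℕ, a ≤ b → (1 / δ) ^ a ≤ (1 / δ) ^ b := fun a b hab => pow_le_pow_right₀ hδi1 hab
    have hmono' : ∀ a b : ℕ, a ≤ b → δ ^ b ≤ δ ^ a := fun a b hab => pow_le_pow_of_le_one hδ.le hδ1 hab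
    have hLr1 : (1 : ℝ) ≤ L := (one_le_pow₀ hδi1).trans hL
    have hL1 : 1 ≤ L := by exact_mod_cast hLr1
    have hL0 : (0 : ℝ) < L := by linarith
    obtain ⟨δ1, hδ1d⟩ : ∃ δ1 : ℝ, δ1 = δ ^ 2 / 4 := ⟨_, rfl⟩
    have hδ1p : 0 < δ1 := by rw [hδ1d]; positivity
    have hδ1h : δ1 ≤ 1 / 2 := by
      rw [hδ1d]
      nlinarith
    have hδ1le1 : δ1 ≤ 1 := by linarith
    have hδ14 : δ ^ 4 ≤ δ1 := by
      rw [hδ1d]
      have h1 : δ ^ 2 ≤ 1 / 4 := by nlinarith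
      have h2 : δ ^ 4 = δ ^ 2 * δ ^ 2 := by ring
      rw [h2]
      nlinarith [sq_nonneg δ]
    have hδ1i : 1 / δ1 ≤ (1 / δ) ^ 4 := by
      rw [one_div, one_div, inv_pow]
      exact inv_anti₀ (by positivity) hδ14
    have hδ1i1 : 1 ≤ 1 / δ1 := by
      rw [le_div_iff₀ hδ1p]
      linarith
    have hinvpow : ∀ n : ℕ, (1 / δ1) ^ n ≤ (1 / δ) ^ (4 * n) := by
      intro n
      rw [pow_mul]
      exact pow_le_pow_left₀ (by positivity) hδ1i n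
    have hpowδ1 : ∀ n : ℕ, δ ^ (4 * n) ≤ δ1 ^ n := by
      intro n
      rw [pow_mul]
      exact pow_le_pow_left₀ (by positivity) hδ14 n
    -- the set of differences
    obtain ⟨S, hSd⟩ : ∃ S : Finset ℕ, S = (range L).filter fun k : ℕ => nd (ψ * P k) ≤ ε := ⟨_, rfl⟩
    rw [← hSd] at hcard
    have hS : S ⊆ range L := by
      rw [hSd]
      exact Finset.filter_subset _ _
    obtain ⟨T, hTd⟩ : ∃ T : Finset ℤ, T = (Ioo (-(L : ℤ)) L).filter fun h : ℤ => δ ^ 2 / 4 * L ≤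
      (((range L).filter fun k : ℕ => k ∈ S ∧ ∃ k' ∈ S, (k' : ℤ) = k + h).card : ℝ) := ⟨_, rfl⟩
    have hT := av_many L hL1 δ hδ S hS hcard
    rw [← hTd] at hT
    -- the induction hypothesis for each difference
    have hε2 : 2 * ε ≤ δ1 ^ C := by
      have h1 : 2 * ε ≤ (1 / δ) * δ ^ (12 * C + d + 20) := mul_le_mul hδi hεδ hε (by positivity)
      have h2 : (1 / δ) * δ ^ (12 * C + d + 20) = δ ^ (12 * C + d + 19) := by
        rw [show 12 * C + d + 20 = 12 * C + d + 19 + 1 by ring, pow_succ]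
        field_simp
      rw [h2] at h1
      exact h1.trans ((hmono' (4 * C) _ (by omega)).trans (hpowδ1 C))
    have hq : ∀ h : ℤ, h ∈ T → ∃ q : ℕ, 1 ≤ q ∧ (q : ℝ) ≤ (1 / δ1) ^ C ∧
        nd (q * ((((((d : ℤ) + 1) * h * c : ℤ) : ℝ)) * ψ)) ≤ (1 / δ1) ^ C * (2 * ε) / (L : ℝ) ^ d := by
      intro h hh
      rw [hTd, mem_filter] at hh
      refine hC δ1 hδ1p hδ1h L (((hinvpow C).trans (hmono _ _ (by omega))).trans hL) _ _ ψ (2 * ε) (hP h) (by linarith) hε2 ?_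
      rw [hδ1d]
      refine hh.2.trans ?_
      have h3 : ((range L).filter fun k : ℕ => k ∈ S ∧ ∃ k' ∈ S, (k' : ℤ) = k + h) ⊆
          (range L).filter fun k : ℕ => nd (ψ * ((P (k + h) - P k : ℤ) : ℝ)) ≤ 2 * ε := by
        intro k hk
        rw [mem_filter] at hk ⊢
        obtain ⟨hk0, hk1, k', hk', he⟩ := hk
        refine ⟨hk0, ?_⟩
        rw [hSd, mem_filter] at hk1 hk'
        rw [← he]
        push_cast
        rw [mul_sub]
        refine (nd_sub_le _ _).trans ?_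
        linarith [hk1.2, hk'.2]
      exact_mod_cast Finset.card_le_card h3
    obtain ⟨f, hf⟩ : ∃ f : ℤ → ℕ, ∀ h ∈ T, 1 ≤ f h ∧ (f h : ℝ) ≤ (1 / δ1) ^ C ∧
        nd (f h * ((((((d : ℤ) + 1) * h * c : ℤ) : ℝ)) * ψ)) ≤ (1 / δ1) ^ C * (2 * ε) / (L : ℝ) ^ d := by
      refine ⟨fun h => if hh : h ∈ T then (hq h hh).choose else 1, fun h hh => ?_⟩
      simp only [dif_pos hh]
      exact (hq h hh).choose_spec
    have hTpos : 0 < T.card := by
      have h1 : (0 : ℝ) < T.card := lt_of_lt_of_le (by positivity) hT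
      exact_mod_cast h1
    obtain ⟨q, hq1, hqB, hqc⟩ := av_pigeon T f ((1 / δ1) ^ C) (one_le_pow₀ hδ1i1) hTpos
      (fun h hh => ⟨(hf h hh).1, (hf h hh).2.1⟩)
    -- linear Vinogradov
    obtain ⟨η, hηd⟩ : ∃ η : ℝ, η = δ1 ^ (C + 1) := ⟨_, rfl⟩
    have hη : 0 < η := by rw [hηd]; positivity
    have hη1 : η ≤ 1 := by
      rw [hηd]
      exact pow_le_one₀ hδ1p.le hδ1le1
    have hLd : (1 : ℝ) ≤ (L : ℝ) ^ d := one_le_pow₀ hLr1
    have hε2n : 0 ≤ (1 / δ1) ^ C * (2 * ε) / (L : ℝ) ^ d := by positivity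
    have hε2le : (1 / δ1) ^ C * (2 * ε) / (L : ℝ) ^ d ≤ η / 16 := by
      have h1 : (1 / δ1) ^ C * (2 * ε) / (L : ℝ) ^ d ≤ (1 / δ1) ^ C * (2 * ε) :=
        div_le_self (by positivity) hLd
      refine h1.trans ?_
      have h2 : (1 / δ1) ^ C * (2 * ε) ≤ (1 / δ1) ^ C * (2 * (δ1 ^ (2 * C + 1) * δ ^ 5)) := by
        refine mul_le_mul_of_nonneg_left ?_ (by positivity)
        refine mul_le_mul_of_nonneg_left ?_ (by norm_num)
        refine hεδ.trans ?_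
        calc δ ^ (12 * C + d + 20) ≤ δ ^ (4 * (2 * C + 1) + 5) := hmono' _ _ (by omega)
          _ = δ ^ (4 * (2 * C + 1)) * δ ^ 5 := pow_add _ _ _
          _ ≤ δ1 ^ (2 * C + 1) * δ ^ 5 := mul_le_mul_of_nonneg_right (hpowδ1 _) (by positivity)
      refine h2.trans ?_
      have h3 : (1 / δ1) ^ C * (2 * (δ1 ^ (2 * C + 1) * δ ^ 5)) = η * (2 * δ ^ 5) := by
        rw [hηd, show 2 * C + 1 = C + (C + 1) by ring, pow_add δ1 C (C + 1), one_div, inv_pow]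
        field_simp
      rw [h3]
      have h4 : δ ^ 5 ≤ 1 / 32 := by
        calc δ ^ 5 ≤ (1 / 2) ^ 5 := pow_le_pow_left₀ hδ.le hδ2 5
          _ = 1 / 32 := by norm_num
      nlinarith
    have h24 : 24 / η ^ 2 ≤ ((2 * L : ℕ) : ℝ) := by
      push_cast
      rw [div_le_iff₀ (by positivity), hηd]
      have h1 : (1 / δ) ^ (4 * (2 * (C + 1)) + 4) ≤ L := (hmono _ _ (by omega)).trans hL
      have h2 : (16 : ℝ) ≤ (1 / δ) ^ 4 := by
        calc (16 : ℝ) = 2 ^ 4 := by norm_num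
          _ ≤ (1 / δ) ^ 4 := pow_le_pow_left₀ (by norm_num) hδi 4
      have h3 : (1 / δ1) ^ (2 * (C + 1)) * 16 ≤ L := by
        refine le_trans ?_ h1
        rw [pow_add]
        exact mul_le_mul (hinvpow _) h2 (by norm_num) (by positivity)
      have h4 : (δ1 ^ (C + 1)) ^ 2 * (1 / δ1) ^ (2 * (C + 1)) = 1 := by
        rw [← pow_mul, mul_comm (C + 1) 2, ← mul_pow, mul_one_div_cancel hδ1p.ne', one_pow]
      have h5 : 16 ≤ (L : ℝ) * (δ1 ^ (C + 1)) ^ 2 := by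
        calc (16 : ℝ) = (1 / δ1) ^ (2 * (C + 1)) * 16 * (δ1 ^ (C + 1)) ^ 2 := by
              rw [show (1 / δ1) ^ (2 * (C + 1)) * 16 * (δ1 ^ (C + 1)) ^ 2 =
                16 * ((δ1 ^ (C + 1)) ^ 2 * (1 / δ1) ^ (2 * (C + 1))) by ring, h4, mul_one]
          _ ≤ L * (δ1 ^ (C + 1)) ^ 2 := mul_le_mul_of_nonneg_right h3 (by positivity)
      linarith
    have hcardη : η * ((2 * L : ℕ) : ℝ) ≤ ((T.filter fun h => f h = q).card : ℝ) := by
      refine le_trans ?_ hqc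
      rw [le_div_iff₀ (by positivity), hηd]
      push_cast
      have h1 : δ1 ^ (C + 1) * (2 * (L : ℝ)) * (1 / δ1) ^ C = δ1 * (2 * L) := by
        rw [pow_succ]
        have h2 : δ1 ^ C * (1 / δ1) ^ C = 1 := by
          rw [← mul_pow, mul_one_div_cancel hδ1p.ne', one_pow]
        calc δ1 ^ C * δ1 * (2 * (L : ℝ)) * (1 / δ1) ^ C = δ1 * (2 * L) * (δ1 ^ C * (1 / δ1) ^ C) := by ring
          _ = _ := by rw [h2, mul_one]
      rw [h1, hδ1d]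
      refine le_trans (le_of_eq ?_) hT
      ring
    have hsub : (T.filter fun h => f h = q) ⊆ Finset.Ico (-(L : ℤ)) (-(L : ℤ) + ((2 * L : ℕ) : ℤ)) := by
      intro h hh
      have h1 := (mem_filter.1 hh).1
      rw [hTd, mem_filter, mem_Ioo] at h1
      rw [mem_Ico]
      push_cast
      omega
    obtain ⟨q', hq'1, hq'2, hq'3⟩ := vino (N := 2 * L) (a := -(L : ℤ)) (α := q * (((d : ℝ) + 1) * (c * ψ))) (β := 0)
      hη hη1 hε2n hε2le h24 (T.filter fun h => f h = q) hsub hcardη (by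
        intro w hw
        rw [mem_filter] at hw
        have h1 := (hf w hw.1).2.2
        rw [hw.2] at h1
        push_cast at h1
        rw [add_zero]
        rw [show (w : ℝ) * (q * (((d : ℝ) + 1) * (c * ψ))) = q * (((d : ℝ) + 1) * w * c * ψ) by ring]
        exact h1)
    refine ⟨q' * q * (d + 1), ?_, ?_, ?_⟩
    · exact Nat.succ_le_of_lt (Nat.mul_pos (Nat.mul_pos hq'1 hq1) (Nat.succ_pos d))
    · push_cast
      have h1 : 2 / η ≤ (1 / δ) ^ (1 + 4 * (C + 1)) := by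
        rw [pow_add, pow_one, hηd, div_eq_mul_inv, ← inv_pow, ← one_div]
        exact mul_le_mul hδi (hinvpow _) (by positivity) (by positivity)
      have h2 : (d : ℝ) + 1 ≤ (1 / δ) ^ (d + 1) := by
        have h3 : (d : ℝ) + 1 ≤ 2 ^ (d + 1) := by
          have h4 : d + 1 < 2 ^ (d + 1) := Nat.lt_two_pow_self
          exact_mod_cast h4.le
        exact h3.trans (pow_le_pow_left₀ (by norm_num) hδi _)
      calc (q' : ℝ) * q * ((d : ℝ) + 1) ≤ (1 / δ) ^ (1 + 4 * (C + 1)) * (1 / δ) ^ (4 * C) * (1 / δ) ^ (d + 1) := by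
            refine mul_le_mul (mul_le_mul (hq'2.trans h1) (hqB.trans (hinvpow C)) (by positivity) (by positivity)) h2
              (by positivity) (by positivity)
        _ = (1 / δ) ^ (1 + 4 * (C + 1) + 4 * C + (d + 1)) := by rw [← pow_add, ← pow_add]
        _ ≤ _ := hmono _ _ (by omega)
    · push_cast
      rw [show (q' : ℝ) * q * ((d : ℝ) + 1) * (c * ψ) = q' * (q * (((d : ℝ) + 1) * (c * ψ))) by ring]
      refine hq'3.trans ?_
      push_cast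
      have h1 : 16 * ((1 / δ1) ^ C * (2 * ε) / (L : ℝ) ^ d) / (η ^ 2 * (2 * L)) =
          16 * ((1 / δ1) ^ C * (1 / η) ^ 2) * ε / (L : ℝ) ^ (d + 1) := by
        rw [pow_succ (L : ℝ) d]
        field_simp
      rw [h1]
      refine div_le_div_of_nonneg_right ?_ (by positivity)
      refine mul_le_mul_of_nonneg_right ?_ hε
      have h2 : (1 / η) ^ 2 ≤ (1 / δ) ^ (4 * (2 * (C + 1))) := by
        rw [hηd, one_div, ← inv_pow, ← one_div, ← pow_mul, mul_comm (C + 1) 2]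
        exact hinvpow _
      have h3 : (16 : ℝ) ≤ (1 / δ) ^ 4 := by
        calc (16 : ℝ) = 2 ^ 4 := by norm_num
          _ ≤ (1 / δ) ^ 4 := pow_le_pow_left₀ (by norm_num) hδi 4
      calc 16 * ((1 / δ1) ^ C * (1 / η) ^ 2) ≤ (1 / δ) ^ 4 * ((1 / δ) ^ (4 * C) * (1 / δ) ^ (4 * (2 * (C + 1)))) := by
            refine mul_le_mul h3 (mul_le_mul (hinvpow C) h2 (by positivity) (by positivity)) (by positivity) (by positivity)
        _ = (1 / δ) ^ (4 + (4 * C + 4 * (2 * (C + 1)))) := by rw [← pow_add, ← pow_add]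
        _ ≤ _ := hmono _ _ (by omega)

end Pool.Agent.HUK
end

-- from Lib.HUK.A8
section

/-!
# Project HUK, chunk A8 (helper37): from many diophantine conditions to one
-/

open Finset

namespace Pool.Agent.HUK

open Pool.Agent.Lib.H84V (nd nd_neg)

open Classical in
/-- A line in the direction `(1, …, 1; 1)` with many points of `G`. -/
theorem a8_line (r K H2 : ℕ) (hH : 1 ≤ H2) (hHK : H2 ≤ K) (G : Finset ((Fin r → ℤ) × ℤ))
    (hG : G ⊆ bxS r H2 ×ˢ Ioc (K : ℤ) (2 * K)) (δ : ℝ) (hδ : 0 < δ) (hc : δ * (K * (H2 : ℝ) ^ r) ≤ G.card) :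
    ∃ b : (Fin r → ℤ) × ℤ, δ / (2 * 3 ^ r) * H2 ≤
      (((range H2).filter fun k : ℕ => ((fun i => b.1 i + (k : ℤ)), b.2 + (k : ℤ)) ∈ G).card : ℝ) := by
  have hHr : (1 : ℝ) ≤ H2 := by exact_mod_cast hH
  have hHr0 : (0 : ℝ) < H2 := by linarith
  have hKr : (1 : ℝ) ≤ K := by
    have : 1 ≤ K := by omega
    exact_mod_cast this
  have hKr0 : (0 : ℝ) < K := by linarith
  obtain ⟨Bx, hBx⟩ : ∃ Bx : Finset ((Fin r → ℤ) × ℤ),
    Bx = (Fintype.piFinset fun _ : Fin r => Ico (-(2 * H2 : ℤ)) H2) ×ˢ Ioc (0 : ℤ) (2 * K) := ⟨_, rfl⟩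
  have hcard : Bx.card = (3 * H2) ^ r * (2 * K) := by
    rw [hBx, card_product, Fintype.card_piFinset, Finset.prod_const, Finset.card_univ, Fintype.card_fin, Int.card_Ico,
      Int.card_Ioc]
    have e1 : ((H2 : ℤ) - -(2 * (H2 : ℤ))).toNat = 3 * H2 := by omega
    have e2 : (2 * (K : ℤ) - 0).toNat = 2 * K := by omega
    rw [e1, e2]
  have hcardr : (Bx.card : ℝ) = (3 * H2) ^ r * (2 * K) := by
    rw [hcard]
    push_cast
    rfl
  have hne : Bx.Nonempty := by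
    rw [← Finset.card_pos, hcard]
    refine Nat.mul_pos (pow_pos (by omega) r) (by omega)
  have hsum : H2 * G.card ≤ ∑ b ∈ Bx,
      ((range H2).filter fun k : ℕ => ((fun i => b.1 i + (k : ℤ)), b.2 + (k : ℤ)) ∈ G).card := by
    simp only [Finset.card_filter]
    rw [Finset.sum_comm]
    have h1 : ∀ k ∈ range H2, G.card ≤ ∑ b ∈ Bx, (if ((fun i => b.1 i + (k : ℤ)), b.2 + (k : ℤ)) ∈ G then 1 else 0) := by
      intro k hk
      rw [mem_range] at hk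
      rw [← Finset.card_filter]
      refine Finset.card_le_card_of_injOn (fun g => ((fun i => g.1 i - (k : ℤ)), g.2 - (k : ℤ))) ?_ ?_
      · intro g hg
        have h2 := hG hg
        rw [mem_product] at h2
        unfold bxS at h2
        rw [Fintype.mem_piFinset, mem_Ioc] at h2
        rw [mem_coe, mem_filter]
        constructor
        · rw [hBx, mem_product, Fintype.mem_piFinset, mem_Ioc]
          constructor
          · intro i
            have h3 := h2.1 i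
            rw [mem_Ioo] at h3
            rw [mem_Ico]
            simp only
            omega
          · simp only
            omega
        · have h4 : ((fun i => g.1 i - (k : ℤ) + (k : ℤ)), g.2 - (k : ℤ) + (k : ℤ)) = g := by
            refine Prod.ext ?_ ?_
            · funext i
              simp only
              ring
            · simp only
              ring
          simp only
          rw [h4]
          exact hg
      · intro g _ g' _ h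
        have h3 := congrArg Prod.fst h
        have h4 := congrArg Prod.snd h
        simp only at h3 h4
        refine Prod.ext ?_ ?_
        · funext i
          have h5 := congrFun h3 i
          omega
        · omega
    calc H2 * G.card = ∑ _k ∈ range H2, G.card := by rw [Finset.sum_const, card_range, smul_eq_mul]
      _ ≤ _ := Finset.sum_le_sum h1
  have hsumr : (H2 : ℝ) * G.card ≤ ∑ b ∈ Bx,
      (((range H2).filter fun k : ℕ => ((fun i => b.1 i + (k : ℤ)), b.2 + (k : ℤ)) ∈ G).card : ℝ) := by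
    exact_mod_cast hsum
  have h5 : ∑ _b ∈ Bx, δ / (2 * 3 ^ r) * (H2 : ℝ) ≤ ∑ b ∈ Bx,
      (((range H2).filter fun k : ℕ => ((fun i => b.1 i + (k : ℤ)), b.2 + (k : ℤ)) ∈ G).card : ℝ) := by
    refine le_trans ?_ hsumr
    rw [Finset.sum_const, nsmul_eq_mul, hcardr]
    have h6 : (3 * (H2 : ℝ)) ^ r * (2 * K) * (δ / (2 * 3 ^ r) * H2) = H2 * (δ * (K * (H2 : ℝ) ^ r)) := by
      rw [mul_pow]
      field_simp
    rw [h6]
    exact mul_le_mul_of_nonneg_left hc hHr0.le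
  obtain ⟨b, _, hb⟩ := Finset.exists_le_of_sum_le hne h5
  exact ⟨b, hb⟩

open Classical in
/-- PROOF.md, 2.5. -/
theorem A8_major (r : ℕ) (hr : 1 ≤ r) : ∃ C : ℕ, ∀ δ : ℝ, 0 < δ → δ ≤ 1 / 2 → ∀ K H2 : ℕ, (1 / δ) ^ C ≤ H2 → δ * K ≤ H2 →
    H2 ≤ K → ∀ ψ ε : ℝ, 0 ≤ ε → ε ≤ δ ^ C →
    δ * (K * (H2 : ℝ) ^ r) ≤ (((bxS r H2 ×ˢ Ioc (K : ℤ) (2 * K)).filter fun p : (Fin r → ℤ) × ℤ =>
      Vt K (List.ofFn p.1) p.2 ∧ nd (ψ * Df (List.ofFn p.1) p.2) ≤ ε).card : ℝ) →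
    ∃ q : ℕ, 1 ≤ q ∧ (q : ℝ) ≤ (1 / δ) ^ C ∧ nd (q * ψ) ≤ (1 / δ) ^ C * ε / (K : ℝ) ^ (2 ^ r - 1) := by
  obtain ⟨C0, hC0⟩ := av_main (2 ^ r - 1)
  obtain ⟨c, hcd⟩ : ∃ c : ℤ, c = Df (List.replicate r 1) 1 := ⟨_, rfl⟩
  have hc0 : c ≠ 0 := by
    rw [hcd]
    exact pf_D_ne r
  obtain ⟨nc, hnc⟩ : ∃ nc : ℕ, nc = c.natAbs := ⟨_, rfl⟩
  have hcn : 1 ≤ nc := by omega
  have hcc : (c : ℝ) = nc ∨ (c : ℝ) = -nc := by
    have h1 : c = (nc : ℤ) ∨ c = -(nc : ℤ) := by omega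
    rcases h1 with h1 | h1
    · left
      rw [h1]
      norm_num
    · right
      rw [h1]
      norm_num
  refine ⟨(2 * r + 2) * C0 + nc + 2 ^ r, fun δ hδ hδ2 K H2 hH hδK hHK ψ ε hε hεδ hcard => ?_⟩
  have h2r := Nat.one_le_two_pow (n := r)
  have hδi : 2 ≤ 1 / δ := by
    rw [le_div_iff₀ hδ]
    linarith
  have hδi1 : 1 ≤ 1 / δ := by linarith
  have hδ1 : δ ≤ 1 := by linarith
  have hmono : ∀ a b : ℕ, a ≤ b → (1 / δ) ^ a ≤ (1 / δ) ^ b := fun a b hab => pow_le_pow_right₀ hδi1 hab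
  have hmono' : ∀ a b : ℕ, a ≤ b → δ ^ b ≤ δ ^ a := fun a b hab => pow_le_pow_of_le_one hδ.le hδ1 hab
  have hHr1 : (1 : ℝ) ≤ H2 := (one_le_pow₀ hδi1).trans hH
  have hH1 : 1 ≤ H2 := by exact_mod_cast hHr1
  have hHr0 : (0 : ℝ) < H2 := by linarith
  have hKr0 : (0 : ℝ) < K := by
    have : 0 < K := by omega
    exact_mod_cast this
  obtain ⟨G, hGd⟩ : ∃ G : Finset ((Fin r → ℤ) × ℤ), G = (bxS r H2 ×ˢ Ioc (K : ℤ) (2 * K)).filter
    fun p : (Fin r → ℤ) × ℤ => Vt K (List.ofFn p.1) p.2 ∧ nd (ψ * Df (List.ofFn p.1) p.2) ≤ ε := ⟨_, rfl⟩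
  rw [← hGd] at hcard
  have hG : G ⊆ bxS r H2 ×ˢ Ioc (K : ℤ) (2 * K) := by
    rw [hGd]
    exact Finset.filter_subset _ _
  obtain ⟨b, hb⟩ := a8_line r K H2 hH1 hHK G hG δ hδ hcard
  obtain ⟨δ', hδ'd⟩ : ∃ δ' : ℝ, δ' = δ / (2 * 3 ^ r) := ⟨_, rfl⟩
  rw [← hδ'd] at hb
  have h3r : (1 : ℝ) ≤ 3 ^ r := one_le_pow₀ (by norm_num)
  have hδ'0 : 0 < δ' := by rw [hδ'd]; positivity
  have hδ'h : δ' ≤ 1 / 2 := by
    rw [hδ'd, div_le_iff₀ (by positivity)]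
    nlinarith
  have hδ'i : 1 / δ' ≤ (1 / δ) ^ (2 * r + 2) := by
    have h1 : 1 / δ' = 2 * 3 ^ r * (1 / δ) := by
      rw [hδ'd]
      field_simp
    have h2 : (3 : ℝ) ^ r ≤ (1 / δ) ^ (2 * r) := by
      rw [pow_mul]
      refine pow_le_pow_left₀ (by norm_num) ?_ r
      nlinarith
    rw [h1, show 2 * r + 2 = 1 + 2 * r + 1 by ring, pow_succ, pow_add, pow_one]
    refine mul_le_mul_of_nonneg_right ?_ (by positivity)
    exact mul_le_mul hδi h2 (by positivity) (by positivity)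
  have hδ'pow : (1 / δ') ^ C0 ≤ (1 / δ) ^ ((2 * r + 2) * C0) := by
    rw [pow_mul]
    exact pow_le_pow_left₀ (by positivity) hδ'i C0
  have hδ'pow2 : δ ^ ((2 * r + 2) * C0) ≤ δ' ^ C0 := by
    rw [pow_mul]
    refine pow_le_pow_left₀ (by positivity) ?_ C0
    have h1 : 1 / δ' ≤ 1 / δ ^ (2 * r + 2) := by
      rw [← one_div_pow]
      exact hδ'i
    exact le_of_one_div_le_one_div hδ'0 h1
  have hPF := pf_D (List.ofFn b.1) b.2 1
  rw [List.length_ofFn, ← hcd] at hPF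
  obtain ⟨q, hq1, hqB, hqn⟩ := hC0 δ' hδ'0 hδ'h H2 ((hδ'pow.trans (hmono _ _ (by omega))).trans hH) c _ ψ ε hPF hε
    (hεδ.trans ((hmono' _ _ (by omega)).trans hδ'pow2)) (by
      refine hb.trans ?_
      have h1 : ((range H2).filter fun k : ℕ => ((fun i => b.1 i + (k : ℤ)), b.2 + (k : ℤ)) ∈ G) ⊆
          (range H2).filter fun k : ℕ => nd (ψ * Df ((List.ofFn b.1).map (· + (k : ℤ))) (b.2 + 1 * (k : ℤ))) ≤ ε := by
        intro k hk
        rw [mem_filter] at hk ⊢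
        refine ⟨hk.1, ?_⟩
        have h2 := hk.2
        rw [hGd, mem_filter] at h2
        have h3 := h2.2.2
        simp only at h3
        rw [List.map_ofFn, one_mul]
        exact h3
      exact_mod_cast Finset.card_le_card h1)
  refine ⟨q * nc, Nat.succ_le_of_lt (Nat.mul_pos hq1 hcn), ?_, ?_⟩
  · push_cast
    have h1 : (nc : ℝ) ≤ (1 / δ) ^ nc := by
      have h2 : (nc : ℝ) ≤ 2 ^ nc := by
        exact_mod_cast (Nat.lt_two_pow_self (n := nc)).le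
      exact h2.trans (pow_le_pow_left₀ (by norm_num) hδi _)
    calc (q : ℝ) * nc ≤ (1 / δ) ^ ((2 * r + 2) * C0) * (1 / δ) ^ nc :=
          mul_le_mul (hqB.trans hδ'pow) h1 (by positivity) (by positivity)
      _ = (1 / δ) ^ ((2 * r + 2) * C0 + nc) := by rw [← pow_add]
      _ ≤ _ := hmono _ _ (by omega)
  · have h1 : nd (((q * nc : ℕ) : ℝ) * ψ) = nd (q * (c * ψ)) := by
      push_cast
      rcases hcc with h2 | h2
      · rw [h2]
        congr 1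
        ring
      · rw [h2, ← nd_neg]
        congr 1
        ring
    rw [h1]
    refine hqn.trans ?_
    have h6 : (δ * K) ^ (2 ^ r - 1) ≤ (H2 : ℝ) ^ (2 ^ r - 1) := pow_le_pow_left₀ (by positivity) hδK _
    calc (1 / δ') ^ C0 * ε / (H2 : ℝ) ^ (2 ^ r - 1) ≤ (1 / δ) ^ ((2 * r + 2) * C0) * ε / (δ * K) ^ (2 ^ r - 1) := by
          refine div_le_div₀ (by positivity) (mul_le_mul_of_nonneg_right hδ'pow hε) (by positivity) h6
      _ = (1 / δ) ^ ((2 * r + 2) * C0 + (2 ^ r - 1)) * ε / (K : ℝ) ^ (2 ^ r - 1) := by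
          rw [mul_pow, pow_add, one_div_pow (n := 2 ^ r - 1)]
          field_simp
      _ ≤ _ := by
          have h7 := Nat.one_le_two_pow (n := r)
          refine div_le_div_of_nonneg_right (mul_le_mul_of_nonneg_right (hmono _ _ ?_) hε) (by positivity)
          omega

end Pool.Agent.HUK
end

-- from Lib.HUK.A11
section

open Finset

namespace Pool.Agent.HUK

open Pool.Agent.H44W (ee)
open Pool.Agent.Lib.H84V (nd)

/-- At least `δ/4 K` elements. -/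
theorem A11_card (X K H : ℕ) (hX : 1 ≤ X) (hH : 1 ≤ H) (δ : ℝ) (hδ : 0 < δ) (hδ1 : δ ≤ 1 / 2) (𝒜 : Finset ℕ)
    (g : ℕ → ℤ → ℂ) (hg : ∀ a ∈ 𝒜, Bdd X (g a))
    (h : δ * (H * ((K : ℝ) * X) ^ 2) ≤ ∑ m ∈ Ioo (-(H : ℤ)) H, ‖∑ a ∈ 𝒜, ∑ y ∈ Ico (-(X : ℤ)) X,
      g a y * (starRingEnd ℂ) (g a (y + a * m))‖ ^ 2) : δ / 4 * K ≤ 𝒜.card := by
  have hX' : (0 : ℝ) < X := by exact_mod_cast hX
  have hH' : (0 : ℝ) < H := by exact_mod_cast hH
  have h1 : ∀ m ∈ Ioo (-(H : ℤ)) H, ‖∑ a ∈ 𝒜, ∑ y ∈ Ico (-(X : ℤ)) X,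
      g a y * (starRingEnd ℂ) (g a (y + a * m))‖ ^ 2 ≤ (𝒜.card * (2 * X)) ^ 2 := by
    intro m _
    refine pow_le_pow_left₀ (norm_nonneg _) ?_ 2
    have h4 : ∀ a ∈ 𝒜, ‖∑ y ∈ Ico (-(X : ℤ)) X, g a y * (starRingEnd ℂ) (g a (y + a * m))‖ ≤ 2 * X := by
      intro a ha
      refine (norm_sum_le _ _).trans ?_
      have h5 : ∀ y ∈ Ico (-(X : ℤ)) X, ‖g a y * (starRingEnd ℂ) (g a (y + a * m))‖ ≤ 1 := by
        intro y _
        rw [norm_mul, RCLike.norm_conj]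
        exact mul_le_one₀ ((hg a ha).le _) (norm_nonneg _) ((hg a ha).le _)
      refine (Finset.sum_le_sum h5).trans ?_
      rw [Finset.sum_const, Int.card_Ico, nsmul_eq_mul, mul_one]
      have : ((X : ℤ) - -(X : ℤ)).toNat = 2 * X := by omega
      rw [this]
      push_cast
      exact le_refl _
    refine (norm_sum_le _ _).trans ((Finset.sum_le_sum h4).trans ?_)
    rw [Finset.sum_const, nsmul_eq_mul]
  have h2 := h.trans (Finset.sum_le_sum h1)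
  rw [Finset.sum_const, nsmul_eq_mul, Int.card_Ioo] at h2
  have h3 : (((H : ℤ) - -(H : ℤ) - 1).toNat : ℝ) ≤ 2 * H := by
    have : ((H : ℤ) - -(H : ℤ) - 1).toNat ≤ 2 * H := by omega
    exact_mod_cast this
  have h4 : δ * (H * ((K : ℝ) * X) ^ 2) ≤ 2 * H * (𝒜.card * (2 * X)) ^ 2 :=
    h2.trans (mul_le_mul_of_nonneg_right h3 (by positivity))
  have h5 : (H * (X : ℝ) ^ 2) * (δ * (K : ℝ) ^ 2) ≤ (H * (X : ℝ) ^ 2) * (8 * (𝒜.card : ℝ) ^ 2) := by nlinarith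
  have h6 : δ * (K : ℝ) ^ 2 ≤ 8 * (𝒜.card : ℝ) ^ 2 := le_of_mul_le_mul_left h5 (by positivity)
  have h7 : (δ / 4 * K) ^ 2 ≤ (𝒜.card : ℝ) ^ 2 := by
    have h8 : δ ^ 2 ≤ δ := by nlinarith
    have h9 : δ ^ 2 * (K : ℝ) ^ 2 ≤ δ * (K : ℝ) ^ 2 := mul_le_mul_of_nonneg_right h8 (by positivity)
    nlinarith
  exact (pow_le_pow_iff_left₀ (by positivity) (by positivity) (by norm_num)).mp h7

/-- The weights as a function of `(z, a)`. -/
theorem A11_wt (X K H : ℕ) (hH : 1 ≤ H) (hKH : 4 * K * H ≤ X) (𝒜 : Finset ℕ) (h𝒜 : 𝒜 ⊆ Ioc K (2 * K)) (ψ : ℝ)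
    (g : ℤ → ℤ → ℂ) (hg : ∀ a ∈ 𝒜, Bdd X (g a)) :
    ∃ c : ℤ × ℤ → ℂ, QP X K H ψ c ∧
      ∑ a ∈ Ioc (K : ℤ) (2 * K), ∑ z ∈ Ico (-(X : ℤ)) X, g a z * c (z, a) =
        ((∑ a ∈ 𝒜, TQ X (2 * H) a ψ (g a) : ℝ) : ℂ) := by
  have hex : ∀ a ∈ 𝒜, ∃ c : ℤ → ℂ, (∀ y, ‖c y‖ ≤ 1) ∧ (∀ y, y ∉ Ico (-(3 * X : ℤ)) (3 * X) → c y = 0) ∧
      (∀ (y : ℤ) (k : ℕ), ‖c (y + a * k) - ee (ψ * k) * c y‖ ≤ 2 * k / (2 * H : ℕ)) ∧
      ∑ y ∈ Ico (-(X : ℤ)) X, g a y * c y = ((TQ X (2 * H) a ψ (g a) : ℝ) : ℂ) := by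
    intro a ha
    refine A2_wt X (2 * H) (by omega) a (by positivity) ?_ ψ (g a) (hg a ha)
    have h1 := mem_Ioc.mp (h𝒜 ha)
    have h2 : a * (2 * H) ≤ X := by nlinarith
    exact_mod_cast h2
  choose! cf h1 h2 h3 h4 using hex
  classical
  have hH' : (0 : ℝ) < H := by exact_mod_cast hH
  refine ⟨fun p => if p.2.toNat ∈ 𝒜 ∧ 0 ≤ p.2 then cf p.2.toNat p.1 else 0, ⟨?_, ?_, ?_, ?_⟩, ?_⟩
  · intro p
    try simp only
    split_ifs with hp
    · exact h1 _ hp.1 _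
    · simp
  · intro z a hz
    try simp only
    split_ifs with hp
    · exact h2 _ hp.1 _ hz
    · rfl
  · intro z a ha
    try simp only
    split_ifs with hp
    · exfalso
      apply ha
      have := mem_Ioc.mp (h𝒜 hp.1)
      omega
    · rfl
  · intro z a k _ _
    try simp only
    split_ifs with hp
    · have h5 := h3 _ hp.1 z k
      have h6 : ((a.toNat : ℕ) : ℤ) = a := Int.toNat_of_nonneg hp.2
      rw [h6] at h5
      refine h5.trans (le_of_eq ?_)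
      push_cast
      field_simp
    · rw [mul_zero, sub_zero, norm_zero]
      positivity
  · have hsub : 𝒜.map (Nat.castEmbedding (R := ℤ)) ⊆ Ioc (K : ℤ) (2 * K) := by
      intro x hx
      rw [mem_map] at hx
      obtain ⟨a, ha, rfl⟩ := hx
      have := mem_Ioc.mp (h𝒜 ha)
      rw [mem_Ioc]
      simp only [Nat.castEmbedding_apply]
      constructor <;> omega
    rw [← Finset.sum_subset hsub, Finset.sum_map, Complex.ofReal_sum]
    · refine Finset.sum_congr rfl fun a ha => ?_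
      rw [← h4 a ha]
      refine Finset.sum_congr rfl fun z _ => ?_
      simp only [Nat.castEmbedding_apply, Int.toNat_natCast]
      rw [if_pos ⟨ha, by positivity⟩]
    · intro x hx hx'
      refine Finset.sum_eq_zero fun z _ => ?_
      simp only
      rw [if_neg, mul_zero]
      rintro ⟨h5, h6⟩
      apply hx'
      rw [mem_map]
      exact ⟨x.toNat, h5, by simp only [Nat.castEmbedding_apply]; exact Int.toNat_of_nonneg h6⟩

/-- Many pairs with a large sum. -/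
theorem A11_many (r K X : ℕ) (hX : 1 ≤ X) (u : ℝ) (hu : 0 < u) (T : (Fin r → ℤ) × ℤ → ℝ) (hT : ∀ p, T p ≤ 6 * X)
    (h : u * (K * X * (K : ℝ) ^ r) ≤ ∑ p ∈ bxS r K ×ˢ Ioc (K : ℤ) (2 * K), T p) :
    u / 12 * (K * (K : ℝ) ^ r) ≤
      (((bxS r K ×ˢ Ioc (K : ℤ) (2 * K)).filter fun p => u / 2 ^ (r + 1) * X ≤ T p).card : ℝ) := by
  classical
  have hX' : (0 : ℝ) < X := by exact_mod_cast hX
  have hcard : ((bxS r K ×ˢ Ioc (K : ℤ) (2 * K)).card : ℝ) ≤ (2 * K) ^ r * K := by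
    rw [card_product, Nat.cast_mul]
    refine mul_le_mul (bxS_card r K) ?_ (by positivity) (by positivity)
    rw [Int.card_Ioc]
    have : (2 * (K : ℤ) - K).toNat = K := by omega
    rw [this]
  rw [← Finset.sum_filter_add_sum_filter_not _ (fun p => u / 2 ^ (r + 1) * X ≤ T p)] at h
  have h1 : ∑ p ∈ (bxS r K ×ˢ Ioc (K : ℤ) (2 * K)).filter (fun p => u / 2 ^ (r + 1) * X ≤ T p), T p ≤
      (((bxS r K ×ˢ Ioc (K : ℤ) (2 * K)).filter fun p => u / 2 ^ (r + 1) * X ≤ T p).card : ℝ) * (6 * X) := by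
    refine (Finset.sum_le_sum fun p _ => hT p).trans ?_
    rw [Finset.sum_const, nsmul_eq_mul]
  have h2 : ∑ p ∈ (bxS r K ×ˢ Ioc (K : ℤ) (2 * K)).filter (fun p => ¬ u / 2 ^ (r + 1) * X ≤ T p), T p ≤
      ((2 * K) ^ r * K) * (u / 2 ^ (r + 1) * X) := by
    refine (Finset.sum_le_sum (g := fun _ => u / 2 ^ (r + 1) * X) fun p hp => ?_).trans ?_
    · exact (not_le.mp (mem_filter.mp hp).2).le
    · rw [Finset.sum_const, nsmul_eq_mul]
      refine mul_le_mul_of_nonneg_right (le_trans ?_ hcard) (by positivity)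
      exact_mod_cast Finset.card_filter_le _ _
  have h3 : ((2 * (K : ℝ)) ^ r * K) * (u / 2 ^ (r + 1) * X) = u / 2 * (K * X * (K : ℝ) ^ r) := by
    rw [mul_pow, pow_succ]
    field_simp
  have h4 : X * (u / 12 * (K * (K : ℝ) ^ r)) ≤
      X * (((bxS r K ×ˢ Ioc (K : ℤ) (2 * K)).filter fun p => u / 2 ^ (r + 1) * X ≤ T p).card : ℝ) := by
    rw [h3] at h2
    nlinarith
  exact le_of_mul_le_mul_left h4 hX'

/-- Last step. -/
theorem A11_end (X K H M1 q : ℕ) (hX : 1 ≤ X) (hH : 1 ≤ H) (hM1 : 1 ≤ M1) (hq : 1 ≤ q) (hKH : 4 * K * H ≤ X) (hqM : q * M1 ≤ H)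
    (δ : ℝ) (hδ : 0 < δ) (hδ1 : δ ≤ 1 / 2) (ψ : ℝ)
    (𝒜 : Finset ℕ) (h𝒜 : 𝒜 ⊆ Ioc K (2 * K)) (g : ℕ → ℤ → ℂ) (hg : ∀ a ∈ 𝒜, Bdd X (g a))
    (he1 : (q : ℝ) * M1 / H ≤ δ ^ 20) (he2 : M1 * nd (q * ψ) ≤ δ ^ 20)
    (h : δ ^ 2 / 64 * (K * X) ≤ ∑ a ∈ 𝒜, TQ X (2 * H) a ψ (g a)) :
    δ ^ 10 * (K * X) ≤ ∑ a ∈ 𝒜, TQ X M1 (a * q) 0 (g a) := by
  have hX' : (0 : ℝ) < X := by exact_mod_cast hX
  have hH' : (0 : ℝ) < H := by exact_mod_cast hH
  have hnd : 0 ≤ nd (q * ψ) := Pool.Agent.Lib.H84V.nd_nonneg _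
  have h1 : ∀ a ∈ 𝒜, TQ X (2 * H) a ψ (g a) ≤ 2 * TQ X M1 (a * q) 0 (g a) + δ ^ 30 * X := by
    intro a ha
    have h2 := mem_Ioc.mp (h𝒜 ha)
    have h3 : a * (q * M1) ≤ X := by
      calc a * (q * M1) ≤ (2 * K) * H := Nat.mul_le_mul h2.2 hqM
        _ ≤ X := by nlinarith
    have h4 := TQ_block X (2 * H) M1 q (by omega) hM1 hq a (by positivity) (by exact_mod_cast h3) ψ (g a) (hg a ha)
    refine h4.trans (add_le_add (le_refl _) ?_)
    have h5 : 2 * (q : ℝ) * M1 / ((2 * H : ℕ) : ℝ) + 7 * M1 * nd (q * ψ) ≤ 8 * δ ^ 20 := by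
      have h6 : 2 * (q : ℝ) * M1 / ((2 * H : ℕ) : ℝ) = (q : ℝ) * M1 / H := by
        push_cast
        field_simp
      rw [h6]
      linarith
    have h7 : (2 * (q : ℝ) * M1 / ((2 * H : ℕ) : ℝ) + 7 * M1 * nd (q * ψ)) ^ 2 ≤ (8 * δ ^ 20) ^ 2 :=
      pow_le_pow_left₀ (by positivity) h5 2
    have h8 : δ ^ 10 ≤ (1 / 2) ^ 10 := pow_le_pow_left₀ hδ.le hδ1 10
    have h9 : 8 * (8 * δ ^ 20) ^ 2 ≤ δ ^ 30 := by
      have : 8 * (8 * δ ^ 20) ^ 2 = δ ^ 30 * (512 * δ ^ 10) := by ring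
      rw [this]
      have h10 : 512 * δ ^ 10 ≤ 1 := by nlinarith
      nlinarith [pow_pos hδ 30]
    calc 8 * (X : ℝ) * (2 * (q : ℝ) * M1 / ((2 * H : ℕ) : ℝ) + 7 * M1 * nd (q * ψ)) ^ 2 ≤ 8 * X * (8 * δ ^ 20) ^ 2 :=
          mul_le_mul_of_nonneg_left h7 (by positivity)
      _ = (8 * (8 * δ ^ 20) ^ 2) * X := by ring
      _ ≤ δ ^ 30 * X := mul_le_mul_of_nonneg_right h9 hX'.le
  have h2 := h.trans (Finset.sum_le_sum h1)
  rw [Finset.sum_add_distrib, ← Finset.mul_sum, Finset.sum_const, nsmul_eq_mul] at h2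
  have h3 : (𝒜.card : ℝ) ≤ K := by
    have h4 := Finset.card_le_card h𝒜
    rw [Nat.card_Ioc] at h4
    have : 𝒜.card ≤ K := by omega
    exact_mod_cast this
  have h4 : (𝒜.card : ℝ) * (δ ^ 30 * X) ≤ K * (δ ^ 30 * X) := mul_le_mul_of_nonneg_right h3 (by positivity)
  have h5 : δ ^ 8 ≤ (1 / 2) ^ 8 := pow_le_pow_left₀ hδ.le hδ1 8
  have h6 : δ ^ 28 ≤ (1 / 2) ^ 28 := pow_le_pow_left₀ hδ.le hδ1 28
  have h7 : 2 * δ ^ 10 + δ ^ 30 ≤ δ ^ 2 / 64 := by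
    have h8 : 2 * δ ^ 10 + δ ^ 30 = δ ^ 2 * (2 * δ ^ 8 + δ ^ 28) := by ring
    rw [h8]
    have h9 : 2 * δ ^ 8 + δ ^ 28 ≤ 1 / 64 := by
      norm_num at h5 h6 ⊢
      linarith
    nlinarith [pow_pos hδ 2]
  have h8 : (2 * δ ^ 10 + δ ^ 30) * (K * X) ≤ δ ^ 2 / 64 * (K * X) := mul_le_mul_of_nonneg_right h7 (by positivity)
  nlinarith

/-- One good pair. -/
theorem A11_pair (r X K H : ℕ) (hX : 1 ≤ X) (hK : 1 ≤ K) (hH : 1 ≤ H) (hKHX : K * H ≤ X) (δ : ℝ) (hδ : 0 < δ) (hδ1 : δ ≤ 1 / 2)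
    (p : ℕ) (hbig : (K : ℝ) ^ (2 ^ r) * (1 / δ) ^ (8 + r + 2 ^ r + p) ≤ K * H) (ψ : ℝ) (c : ℤ × ℤ → ℂ) (hc : QP X K H ψ c)
    (j s : Fin r → ℤ) (a : ℤ)
    (hT : δ ^ p * X ≤ ‖∑ z ∈ Ico (-(3 * X : ℤ)) (3 * X), DL (List.ofFn fun i => (s i, j i)) c (z, a)‖) :
    Vt K (List.ofFn j) a ∧ nd (ψ * Df (List.ofFn j) a) ≤ (1 / δ) ^ (8 + r + 2 ^ r + 2 * p) * (K : ℝ) ^ (2 ^ r) / (K * H) := by
  have hX' : (0 : ℝ) < X := by exact_mod_cast hX
  have hH' : (0 : ℝ) < H := by exact_mod_cast hH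
  have hK' : (0 : ℝ) < K := by exact_mod_cast hK
  have hmap : (List.ofFn fun i => (s i, j i)).map Prod.snd = List.ofFn j := by
    rw [List.map_ofFn]
    rfl
  have hlen : (List.ofFn fun i => (s i, j i)).length = r := List.length_ofFn
  have hV : Vt K (List.ofFn j) a := by
    by_contra hV
    rw [← hmap] at hV
    have h0 : ∑ z ∈ Ico (-(3 * X : ℤ)) (3 * X), DL (List.ofFn fun i => (s i, j i)) c (z, a) = 0 :=
      Finset.sum_eq_zero fun z _ => A4_zero X K H ψ c hc _ z a hV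
    rw [h0, norm_zero] at hT
    have : 0 < δ ^ p * X := by positivity
    linarith
  refine ⟨hV, ?_⟩
  have hD2 : 2 ≤ 1 / δ := by
    rw [le_div_iff₀ hδ]
    linarith
  have hDδ : 1 / δ * δ = 1 := by field_simp
  obtain ⟨hQ0, hQ1⟩ := A4_pos K (List.ofFn j) a hV
  rw [List.length_ofFn] at hQ1
  have hQ0' : (0 : ℝ) < (Qf (List.ofFn j) a : ℝ) := by exact_mod_cast hQ0
  have hb : 196 * 2 ^ r * (Qf (List.ofFn j) a : ℝ) ≤ (1 / δ) ^ (8 + r + 2 ^ r) * (K : ℝ) ^ (2 ^ r) := by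
    have h1 : 196 * 2 ^ r * (2 * (K : ℝ)) ^ (2 ^ r) ≤ (2 : ℝ) ^ (8 + r + 2 ^ r) * (K : ℝ) ^ (2 ^ r) := by
      rw [mul_pow, pow_add, pow_add]
      have h2 : (0 : ℝ) < 2 ^ r * (2 ^ 2 ^ r * (K : ℝ) ^ 2 ^ r) := by positivity
      nlinarith
    calc 196 * 2 ^ r * (Qf (List.ofFn j) a : ℝ) ≤ 196 * 2 ^ r * (2 * (K : ℝ)) ^ (2 ^ r) :=
          mul_le_mul_of_nonneg_left hQ1 (by positivity)
      _ ≤ (2 : ℝ) ^ (8 + r + 2 ^ r) * (K : ℝ) ^ (2 ^ r) := h1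
      _ ≤ (1 / δ) ^ (8 + r + 2 ^ r) * (K : ℝ) ^ (2 ^ r) :=
          mul_le_mul_of_nonneg_right (pow_le_pow_left₀ (by norm_num) hD2 _) (by positivity)
  have h5 := A5_sum X K H hX hK hH hKHX ψ c hc (List.ofFn fun i => (s i, j i)) a (by rw [hmap]; exact hV) (δ ^ p)
    (by positivity) (pow_le_one₀ hδ.le (by linarith)) ?_ hT
  · rw [hmap, hlen] at h5
    refine h5.trans ?_
    rw [div_le_div_iff₀ (by positivity) (by positivity)]
    have h6 : (1 / δ) ^ (8 + r + 2 ^ r + 2 * p) * (K : ℝ) ^ 2 ^ r * ((δ ^ p) ^ 2 * (K * H)) =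
        ((1 / δ) ^ (8 + r + 2 ^ r) * (K : ℝ) ^ (2 ^ r)) * (K * H) := by
      have h7 : (1 / δ) ^ (2 * p) * (δ ^ p) ^ 2 = 1 := by
        rw [← pow_mul, mul_comm p 2, ← mul_pow, hDδ, one_pow]
      rw [pow_add (1 / δ) (8 + r + 2 ^ r) (2 * p)]
      linear_combination ((1 / δ) ^ (8 + r + 2 ^ r) * (K : ℝ) ^ (2 ^ r)) * (K * H) * h7
    rw [h6]
    exact mul_le_mul_of_nonneg_right hb (by positivity)
  · rw [hmap, hlen]
    have h8 : 14 * 2 ^ r * (Qf (List.ofFn j) a : ℝ) ≤ 196 * 2 ^ r * (Qf (List.ofFn j) a : ℝ) := by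
      have : (0 : ℝ) < 2 ^ r * (Qf (List.ofFn j) a : ℝ) := by positivity
      nlinarith
    refine h8.trans (hb.trans ?_)
    have h9 : δ ^ p * ((K : ℝ) ^ (2 ^ r) * (1 / δ) ^ (8 + r + 2 ^ r + p)) ≤ δ ^ p * (K * H) :=
      mul_le_mul_of_nonneg_left hbig (by positivity)
    refine le_trans (le_of_eq ?_) h9
    have h10 : (1 / δ) ^ p * δ ^ p = 1 := by rw [← mul_pow, hDδ, one_pow]
    rw [pow_add (1 / δ) (8 + r + 2 ^ r) p]
    linear_combination -((1 / δ) ^ (8 + r + 2 ^ r) * (K : ℝ) ^ (2 ^ r)) * h10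

/-- Proof. `r = 2^n`; `C` large in terms of `n` (all powers of `δ ≤ 1/2` absorb constants). `g a = DV (a • t) f`.
1. `∑_m ‖…‖² ≤ 2H (2 |𝒜| X)²`, so `|𝒜| ≥ (δ/4) K`. `A1_freq`: `ψ` with `∑_a TQ X (2H) a ψ (g a) ≥ (δ/16) |𝒜| X ≥ (δ²/64) K X`.
2. `A2_wt` with `M = 2H` for every `a ∈ 𝒜`: `c_a`; `c (z, a) = c_a z` for `a ∈ 𝒜`, else `0`, is `QP X K H ψ` (`2k/(2H) = k/H`), and the sum of `A3_elim` is
`∑_a TQ`: `ρ = δ²/64`, `H2 = K` (`n H K ≤ X`), `e` any equivalence.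
3. Terms `‖∑_z‖ ≤ 6X`, at most `(2K)^r K` pairs `(j, a)`: at least `ρ₂ K^(r+1)` pairs have `‖∑_z U‖ ≥ ρ₁ X`, `ρ₁ = (ρ/32)^(2^r)/2^(r+1)`,
`ρ₂ = (ρ/32)^(2^r)/12`. For these `Vt` holds (`A4_zero`) and `A5_sum` gives (`(L.map Prod.snd) = List.ofFn j`, `A4_pos`, `K^(2^r) (1/δ)^C ≤ X ≤ K H/δ`)
`nd (ψ Df) ≤ ε`, `ε = 196 2^r (2K)^(2^r)/(ρ₁² K H) ≤ (1/δ)^C₁ K^(2^r)/(K H)`.
4. `A8_major` with a power of `δ` in place of `δ`, `H2 = K`: `q ≤ (1/δ)^C₂`, `nd (q ψ) ≤ (1/δ)^C₂ ε/K^(2^r-1) ≤ (1/δ)^C₃/H`.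
5. `TQ_block` with `M = 2H`, `M1 = ⌊δ^C H⌋` (`C ≥ C₃ + C₂ + 20`; `≥ 1` as `H ≥ δ X/K`): the error is at most `δ^4 X`, so
`∑_a TQ X M1 (a q) 0 (g a) ≥ (1/2) (δ²/64 - δ^4) K X ≥ δ^C K X`. -/
theorem A11_one (n : ℕ) (hn : 1 ≤ n) : ∃ C : ℕ, ∀ δ : ℝ, 0 < δ → δ ≤ 1 / 2 → ∀ X K H : ℕ, (1 / δ) ^ C ≤ K →
    (1 / δ) ^ C * (K : ℝ) ^ (2 ^ 2 ^ n) ≤ X → δ * X ≤ K * H → 16 * n * K * H ≤ X → 1 ≤ H → ∀ 𝒜 : Finset ℕ, 𝒜 ⊆ Ioc K (2 * K) →
    ∀ f : ℤ → ℂ, Bdd X f → ∀ t : Fin n → ℤ, (∀ i, |t i| ≤ H) →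
    δ * (H * ((K : ℝ) * X) ^ 2) ≤ ∑ m ∈ Ioo (-(H : ℤ)) H, ‖∑ a ∈ 𝒜, ∑ y ∈ Ico (-(X : ℤ)) X,
      DV (fun i => (a : ℤ) * t i) f y * (starRingEnd ℂ) (DV (fun i => (a : ℤ) * t i) f (y + a * m))‖ ^ 2 →
    ∃ q : ℕ, 1 ≤ q ∧ (q : ℝ) ≤ (1 / δ) ^ C ∧ 1 ≤ ⌊δ ^ C * H⌋₊ ∧
      δ ^ C * (K * X) ≤ ∑ a ∈ 𝒜, TQ X ⌊δ ^ C * H⌋₊ (a * q) 0 (DV (fun i => (a : ℤ) * t i) f) := by
  classical
  obtain ⟨C8, hC8⟩ := A8_major (2 ^ n) Nat.one_le_two_pow
  obtain ⟨r, hr⟩ : ∃ r, r = 2 ^ n := ⟨_, rfl⟩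
  rw [← hr] at hC8 ⊢
  obtain ⟨R, hR⟩ : ∃ R, R = 2 ^ r := ⟨_, rfl⟩
  rw [← hR] at hC8 ⊢
  have hr2 : 2 ≤ r := by
    rw [hr]
    calc 2 = 2 ^ 1 := by norm_num
      _ ≤ 2 ^ n := Nat.pow_le_pow_right (by norm_num) hn
  have hR4 : 4 ≤ R := by
    rw [hR]
    calc 4 = 2 ^ 2 := by norm_num
      _ ≤ 2 ^ r := Nat.pow_le_pow_right (by norm_num) hr2
  obtain ⟨p, hp⟩ : ∃ p, p = 13 * R + r + 1 := ⟨_, rfl⟩
  obtain ⟨m, hm⟩ : ∃ m, m = 13 * R + r + 4 := ⟨_, rfl⟩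
  obtain ⟨b, hb⟩ : ∃ b, b = 8 + r + R := ⟨_, rfl⟩
  obtain ⟨C3, hC3⟩ : ∃ C3, C3 = m * C8 + (b + 2 * p) := ⟨_, rfl⟩
  refine ⟨C3 + 20, ?_⟩
  intro δ hδ hδ1 X K H hKC hXC hδX hKH hH 𝒜 h𝒜 f hf t ht h
  obtain ⟨D, hD⟩ : ∃ D, D = 1 / δ := ⟨_, rfl⟩
  rw [← hD] at hKC hXC ⊢
  have hδ1' : δ ≤ 1 := by linarith
  have hD2 : 2 ≤ D := by
    rw [hD, le_div_iff₀ hδ]
    linarith
  have hD1 : 1 ≤ D := by linarith
  have hD0 : 0 < D := by linarith
  have hDδ : D * δ = 1 := by rw [hD]; field_simp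
  have hDδp : ∀ e : ℕ, D ^ e * δ ^ e = 1 := fun e => by rw [← mul_pow, hDδ, one_pow]
  have hDle : ∀ {e e' : ℕ}, e ≤ e' → D ^ e ≤ D ^ e' := fun he => pow_le_pow_right₀ hD1 he
  have hδle : ∀ {e e' : ℕ}, e ≤ e' → δ ^ e' ≤ δ ^ e := fun he => pow_le_pow_of_le_one hδ.le hδ1' he
  have hδ2 : ∀ e : ℕ, δ ^ e ≤ 1 / 2 ^ e := fun e => by
    rw [← one_div_pow]
    exact pow_le_pow_left₀ hδ.le hδ1 e
  have hH' : (0 : ℝ) < H := by exact_mod_cast hH
  have hK' : (1 : ℝ) ≤ K := (one_le_pow₀ hD1).trans hKC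
  have hK0 : (0 : ℝ) < K := by linarith
  have hK : 1 ≤ K := by exact_mod_cast hK'
  have hX' : (1 : ℝ) ≤ X := by
    refine le_trans ?_ hXC
    calc (1 : ℝ) = 1 * 1 := by ring
      _ ≤ D ^ (C3 + 20) * (K : ℝ) ^ R := mul_le_mul (one_le_pow₀ hD1) (one_le_pow₀ hK') (by norm_num) (by positivity)
  have hX0 : (0 : ℝ) < X := by linarith
  have hX : 1 ≤ X := by exact_mod_cast hX'
  have hnKH : 16 * (K * H) ≤ X := by
    calc 16 * (K * H) = 16 * 1 * K * H := by ring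
      _ ≤ 16 * n * K * H := by gcongr
      _ ≤ X := hKH
  have hbig : (K : ℝ) ^ R * D ^ (C3 + 19) ≤ K * H := by
    refine le_trans ?_ hδX
    have h1 : δ * (D ^ (C3 + 20) * (K : ℝ) ^ R) ≤ δ * X := mul_le_mul_of_nonneg_left hXC hδ.le
    refine le_trans (le_of_eq ?_) h1
    rw [pow_succ D (C3 + 19)]
    linear_combination -((K : ℝ) ^ R * D ^ (C3 + 19)) * hDδ
  have hbige : ∀ {e : ℕ}, e ≤ C3 + 19 → (K : ℝ) ^ R * D ^ e ≤ K * H := fun he =>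
    (mul_le_mul_of_nonneg_left (hDle he) (by positivity)).trans hbig
  -- frequency
  have hg : ∀ a ∈ 𝒜, Bdd X (DV (fun i => (a : ℤ) * t i) f) := fun a _ => Bdd_DV hf _
  have hcardK : (𝒜.card : ℝ) ≤ K := by
    have h4 := Finset.card_le_card h𝒜
    rw [Nat.card_Ioc] at h4
    have : 𝒜.card ≤ K := by omega
    exact_mod_cast this
  have hcard := A11_card X K H hX hH δ hδ hδ1 𝒜 (fun a => DV (fun i => (a : ℤ) * t i) f) hg h
  obtain ⟨ψ, hψ⟩ := A1_freq X H hH 𝒜 (fun a ha => by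
      have h1 := mem_Ioc.mp (h𝒜 ha)
      refine ⟨by omega, ?_⟩
      calc 4 * a * H ≤ 4 * (2 * K) * H := by gcongr; exact h1.2
        _ ≤ X := by nlinarith) (fun a => DV (fun i => (a : ℤ) * t i) f) hg δ hδ.le (by
      refine le_trans ?_ h
      rw [mul_assoc]
      refine mul_le_mul_of_nonneg_left (mul_le_mul_of_nonneg_left ?_ hH'.le) hδ.le
      refine pow_le_pow_left₀ (by positivity) (mul_le_mul_of_nonneg_right hcardK hX0.le) 2)
  have hψ2 : δ ^ 2 / 64 * (K * X) ≤ ∑ a ∈ 𝒜, TQ X (2 * H) a ψ (DV (fun i => (a : ℤ) * t i) f) := by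
    refine le_trans ?_ hψ
    have h1 : δ / 16 * X * (δ / 4 * K) ≤ δ / 16 * X * 𝒜.card := mul_le_mul_of_nonneg_left hcard (by positivity)
    nlinarith
  -- weights
  obtain ⟨c, hc, hsum⟩ := A11_wt X K H hH (by nlinarith) 𝒜 h𝒜 ψ (fun a => DV (fun i => a * t i) f) hg
  have e : Fin (2 ^ n) ≃ (Fin n → Bool) := Fintype.equivOfCardEq (by simp)
  have hTQ0 : 0 ≤ ∑ a ∈ 𝒜, TQ X (2 * H) a ψ (DV (fun i => (a : ℤ) * t i) f) := le_trans (by positivity) hψ2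
  have h3 := A3_elim n X K H K hX hK hK le_rfl (by nlinarith [Nat.zero_le (n * K * H)]) ψ c hc t ht e f hf (δ ^ 8) (by positivity) (by
    rw [hsum, Complex.norm_real, Real.norm_of_nonneg hTQ0]
    refine le_trans ?_ hψ2
    refine mul_le_mul_of_nonneg_right ?_ (by positivity)
    have h1 := hδ2 6
    have h2 : δ ^ 8 = δ ^ 2 * δ ^ 6 := by ring
    rw [h2]
    norm_num at h1 ⊢
    nlinarith [pow_pos hδ 2])
  obtain ⟨u, hu⟩ : ∃ u, u = δ ^ (13 * R) := ⟨_, rfl⟩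
  have hu0 : 0 < u := by rw [hu]; positivity
  have huR : u ≤ (δ ^ 8 / 32) ^ R := by
    rw [hu, pow_mul]
    refine pow_le_pow_left₀ (by positivity) ?_ R
    have h1 := hδ2 5
    have h2 : δ ^ 13 = δ ^ 8 * δ ^ 5 := by ring
    rw [h2]
    norm_num at h1 ⊢
    nlinarith [pow_pos hδ 8]
  subst hr
  rw [← hR] at h3
  have hcount := A11_many (2 ^ n) K X hX u hu0
    (fun p : (Fin (2 ^ n) → ℤ) × ℤ => ‖∑ z ∈ Ico (-(3 * X : ℤ)) (3 * X), DL (List.ofFn fun i => (-(p.1 i * ws t (e i)), p.1 i)) c (z, p.2)‖)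
    (fun p => by
      refine (norm_sum_le _ _).trans ?_
      refine (Finset.sum_le_sum fun z _ => DL_norm _ c hc.le (z, p.2)).trans ?_
      rw [Finset.sum_const, Int.card_Ico, nsmul_eq_mul, mul_one]
      have : (3 * (X : ℤ) - -(3 * (X : ℤ))).toNat = 6 * X := by omega
      rw [this]
      push_cast
      exact le_refl _) (by
      rw [Finset.sum_product]
      refine le_trans (mul_le_mul_of_nonneg_right huR (by positivity)) h3)
  have hsub : ((bxS (2 ^ n) K ×ˢ Ioc (K : ℤ) (2 * K)).filter fun x : (Fin (2 ^ n) → ℤ) × ℤ => u / 2 ^ (2 ^ n + 1) * X ≤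
      ‖∑ z ∈ Ico (-(3 * X : ℤ)) (3 * X), DL (List.ofFn fun i => (-(x.1 i * ws t (e i)), x.1 i)) c (z, x.2)‖) ⊆
      (bxS (2 ^ n) K ×ˢ Ioc (K : ℤ) (2 * K)).filter fun x : (Fin (2 ^ n) → ℤ) × ℤ =>
        Vt K (List.ofFn x.1) x.2 ∧ nd (ψ * Df (List.ofFn x.1) x.2) ≤ D ^ (b + 2 * p) * (K : ℝ) ^ R / (K * H) := by
    intro x hx
    rw [mem_filter] at hx ⊢
    refine ⟨hx.1, ?_⟩
    have h4 := A11_pair (2 ^ n) X K H hX hK hH (by omega) δ hδ hδ1 p (by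
        rw [← hD, ← hR, ← hb]
        exact hbige (by omega)) ψ c hc x.1 (fun i => -(x.1 i * ws t (e i))) x.2 (by
        refine le_trans (mul_le_mul_of_nonneg_right ?_ hX0.le) hx.2
        rw [hp, show 13 * R + 2 ^ n + 1 = 13 * R + (2 ^ n + 1) by ring, pow_add, hu, div_eq_mul_one_div]
        exact mul_le_mul_of_nonneg_left (hδ2 _) (by positivity))
    rw [← hD, ← hR, ← hb] at h4
    exact h4
  have hcount2 := hcount.trans (Nat.cast_le.mpr (Finset.card_le_card hsub))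
  have hKR : (K : ℝ) ^ R = K * (K : ℝ) ^ (R - 1) := by
    rw [← pow_succ']
    congr 1
    omega
  have hDm : 1 / δ ^ m = D ^ m := by rw [hD, one_div_pow]
  obtain ⟨q, hq1, hqC, hq⟩ := hC8 (δ ^ m) (by positivity) ((hδle (by omega : 1 ≤ m)).trans (by rw [pow_one]; exact hδ1)) K K
    (by
      rw [hDm, ← pow_mul]
      exact (hDle (by omega)).trans hKC)
    (mul_le_of_le_one_left hK0.le (pow_le_one₀ hδ.le hδ1')) le_rfl ψ (D ^ (b + 2 * p) * (K : ℝ) ^ R / (K * H)) (by positivity)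
    (by
      rw [div_le_iff₀ (by positivity), ← pow_mul]
      have h5 := mul_le_mul_of_nonneg_left (hbige (show b + 2 * p + m * C8 ≤ C3 + 19 by omega)) (pow_nonneg hδ.le (m * C8))
      refine le_trans (le_of_eq ?_) h5
      rw [pow_add D]
      linear_combination -(D ^ (b + 2 * p) * (K : ℝ) ^ R) * hDδp (m * C8))
    (by
      refine le_trans (mul_le_mul_of_nonneg_right ?_ (by positivity)) hcount2
      rw [hm, show 13 * R + 2 ^ n + 4 = 13 * R + (2 ^ n + 4) by ring, pow_add, hu, div_eq_mul_one_div]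
      refine mul_le_mul_of_nonneg_left ?_ (by positivity)
      refine (hδle (by omega : 4 ≤ 2 ^ n + 4)).trans ((hδ2 4).trans (by norm_num)))
  rw [hDm, ← pow_mul] at hqC hq
  have hqψ : nd (q * ψ) ≤ D ^ C3 / H := by
    refine hq.trans (le_of_eq ?_)
    rw [hC3, pow_add D (m * C8), hKR]
    have hKR1 : (K : ℝ) ^ (R - 1) ≠ 0 := by positivity
    field_simp
  have hfl : (⌊δ ^ (C3 + 20) * H⌋₊ : ℝ) ≤ δ ^ (C3 + 20) * H := Nat.floor_le (by positivity)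
  have hfl1 : 1 ≤ ⌊δ ^ (C3 + 20) * (H : ℝ)⌋₊ := by
    rw [Nat.one_le_floor_iff]
    have h6 : (K : ℝ) * D ^ (C3 + 20) ≤ K * H := by
      refine le_trans ?_ (hbige (Nat.zero_le _))
      rw [pow_zero, mul_one, hKR]
      refine mul_le_mul_of_nonneg_left (hKC.trans ?_) hK0.le
      calc (K : ℝ) = (K : ℝ) ^ 1 := (pow_one _).symm
        _ ≤ (K : ℝ) ^ (R - 1) := pow_le_pow_right₀ hK' (by omega)
    have h7 : D ^ (C3 + 20) ≤ H := le_of_mul_le_mul_left h6 hK0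
    have h8 := mul_le_mul_of_nonneg_left h7 (pow_nonneg hδ.le (C3 + 20))
    rw [mul_comm (δ ^ (C3 + 20)) (D ^ (C3 + 20)), hDδp] at h8
    exact h8
  refine ⟨q, hq1, hqC.trans (hDle (by omega)), hfl1, ?_⟩
  have he1 : (q : ℝ) * ⌊δ ^ (C3 + 20) * H⌋₊ / H ≤ δ ^ 20 := by
    rw [div_le_iff₀ hH']
    calc (q : ℝ) * ⌊δ ^ (C3 + 20) * H⌋₊ ≤ D ^ (m * C8) * (δ ^ (C3 + 20) * H) :=
          mul_le_mul hqC hfl (by positivity) (by positivity)
      _ ≤ D ^ C3 * (δ ^ (C3 + 20) * H) := mul_le_mul_of_nonneg_right (hDle (by omega)) (by positivity)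
      _ = δ ^ 20 * H := by
          rw [pow_add δ]
          linear_combination (δ ^ 20 * H) * hDδp C3
  have he2 : (⌊δ ^ (C3 + 20) * H⌋₊ : ℝ) * nd (q * ψ) ≤ δ ^ 20 := by
    calc (⌊δ ^ (C3 + 20) * H⌋₊ : ℝ) * nd (q * ψ) ≤ (δ ^ (C3 + 20) * H) * (D ^ C3 / H) :=
          mul_le_mul hfl hqψ (Pool.Agent.Lib.H84V.nd_nonneg _) (by positivity)
      _ = D ^ C3 * δ ^ C3 * δ ^ 20 := by
          rw [pow_add δ]
          field_simp
      _ = δ ^ 20 := by rw [hDδp, one_mul]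
  have hqM : q * ⌊δ ^ (C3 + 20) * (H : ℝ)⌋₊ ≤ H := by
    have h9 : (q : ℝ) * ⌊δ ^ (C3 + 20) * H⌋₊ ≤ H := by
      rw [div_le_iff₀ hH'] at he1
      refine he1.trans ?_
      exact mul_le_of_le_one_left hH'.le (pow_le_one₀ hδ.le hδ1')
    exact_mod_cast h9
  have hend := A11_end X K H ⌊δ ^ (C3 + 20) * (H : ℝ)⌋₊ q hX hH hfl1 hq1 (by nlinarith) hqM δ hδ hδ1 ψ 𝒜 h𝒜
    (fun a => DV (fun i => (a : ℤ) * t i) f) hg he1 he2 hψ2
  refine le_trans (mul_le_mul_of_nonneg_right (hδle (by omega)) (by positivity)) hend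

end Pool.Agent.HUK
end

-- from Lib.HUK.A12
section

/-!
# Project HUK, chunk A12 (M/L): all `t'`: `U^(n+1)` norms in the directions `a q`
-/

open Finset

namespace Pool.Agent.HUK

theorem a12_FF (X n : ℕ) (a m : ℤ) (t : Fin n → ℤ) (f : ℤ → ℂ) :
    FF X (fun i => a * (Fin.cons m t : Fin (n + 1) → ℤ) i) f = ∑ y ∈ Ico (-(X : ℤ)) X,
      DV (fun i => a * t i) f y * (starRingEnd ℂ) (DV (fun i => a * t i) f (y + a * m)) := by
  have h : (fun i => a * (Fin.cons m t : Fin (n + 1) → ℤ) i) = (Fin.cons (a * m) (fun i => a * t i) : Fin (n + 1) → ℤ) := by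
    funext i
    refine Fin.cases ?_ (fun j => ?_) i
    · rw [Fin.cons_zero, Fin.cons_zero]
    · rw [Fin.cons_succ, Fin.cons_succ]
  rw [h, FF_cons]
  unfold FF
  refine sum_congr rfl fun y _ => ?_
  unfold DV
  rw [DL_DD]
  rfl

theorem a12_split (n H : ℕ) (G : (Fin (n + 1) → ℤ) → ℝ) :
    ∑ t ∈ bxS (n + 1) H, G t = ∑ t ∈ bxS n H, ∑ m ∈ Ioo (-(H : ℤ)) H, G (Fin.cons m t : Fin (n + 1) → ℤ) := by
  have h := bxS_sum n H (fun t => ((G t : ℝ) : ℂ))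
  rw [sum_comm] at h
  exact_mod_cast h

theorem a12_card (K : ℕ) (𝒜 : Finset ℕ) (hA : 𝒜 ⊆ Ioc K (2 * K)) : (𝒜.card : ℝ) ≤ K := by
  have h1 := card_le_card hA
  rw [Nat.card_Ioc] at h1
  have h2 : 𝒜.card ≤ K := by omega
  exact_mod_cast h2

theorem a12_inner (X n : ℕ) (𝒜 : Finset ℕ) (t : Fin n → ℤ) (f : ℤ → ℂ) (hf : Bdd X f) (m : ℤ) :
    ‖∑ a ∈ 𝒜, ∑ y ∈ Ico (-(X : ℤ)) X,
      DV (fun i => (a : ℤ) * t i) f y * (starRingEnd ℂ) (DV (fun i => (a : ℤ) * t i) f (y + a * m))‖ ≤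
      𝒜.card * (2 * X) := by
  have h1 : ∀ a ∈ 𝒜, ‖∑ y ∈ Ico (-(X : ℤ)) X,
      DV (fun i => (a : ℤ) * t i) f y * (starRingEnd ℂ) (DV (fun i => (a : ℤ) * t i) f (y + a * m))‖ ≤ 2 * X := by
    intro a _
    have hb := Bdd_DV hf (fun i => (a : ℤ) * t i)
    have h2 : ‖∑ y ∈ Ico (-(X : ℤ)) X,
        DV (fun i => (a : ℤ) * t i) f y * (starRingEnd ℂ) (DV (fun i => (a : ℤ) * t i) f (y + a * m))‖ ≤
        ∑ y ∈ Ico (-(X : ℤ)) X, (1 : ℝ) := by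
      refine norm_sum_le_of_le _ fun y _ => ?_
      rw [norm_mul, RCLike.norm_conj]
      exact mul_le_one₀ (hb.le y) (norm_nonneg _) (hb.le _)
    refine le_trans h2 (le_of_eq ?_)
    rw [sum_const, Int.card_Ico, nsmul_eq_mul, mul_one]
    have h3 : ((X : ℤ) - -(X : ℤ)).toNat = 2 * X := by omega
    rw [h3]
    push_cast
    ring
  refine le_trans (norm_sum_le_of_le _ h1) (le_of_eq ?_)
  rw [sum_const, nsmul_eq_mul]

/-- The inner sum. -/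
noncomputable def a12S (X n H : ℕ) (𝒜 : Finset ℕ) (f : ℤ → ℂ) (t : Fin n → ℤ) : ℝ :=
  ∑ m ∈ Ioo (-(H : ℤ)) H, ‖∑ a ∈ 𝒜, ∑ y ∈ Ico (-(X : ℤ)) X,
      DV (fun i => (a : ℤ) * t i) f y * (starRingEnd ℂ) (DV (fun i => (a : ℤ) * t i) f (y + a * m))‖ ^ 2

theorem a12_S_le (X n H K : ℕ) (𝒜 : Finset ℕ) (hA : 𝒜 ⊆ Ioc K (2 * K)) (t : Fin n → ℤ) (f : ℤ → ℂ) (hf : Bdd X f) :
    a12S X n H 𝒜 f t ≤ 8 * H * ((K : ℝ) * X) ^ 2 := by
  unfold a12S
  have h1 : ∀ m ∈ Ioo (-(H : ℤ)) H, ‖∑ a ∈ 𝒜, ∑ y ∈ Ico (-(X : ℤ)) X,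
      DV (fun i => (a : ℤ) * t i) f y * (starRingEnd ℂ) (DV (fun i => (a : ℤ) * t i) f (y + a * m))‖ ^ 2 ≤
      ((K : ℝ) * (2 * X)) ^ 2 := by
    intro m _
    refine pow_le_pow_left₀ (norm_nonneg _) (le_trans (a12_inner X n 𝒜 t f hf m) ?_) 2
    exact mul_le_mul_of_nonneg_right (a12_card K 𝒜 hA) (by positivity)
  refine le_trans (sum_le_sum h1) ?_
  rw [sum_const, Int.card_Ioo, nsmul_eq_mul]
  have h3 : (((H : ℤ) - -(H : ℤ) - 1).toNat : ℝ) ≤ 2 * H := by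
    have h4 : ((H : ℤ) - -(H : ℤ) - 1).toNat ≤ 2 * H := by omega
    exact_mod_cast h4
  calc (((H : ℤ) - -(H : ℤ) - 1).toNat : ℝ) * ((K : ℝ) * (2 * X)) ^ 2 ≤ (2 * H) * ((K : ℝ) * (2 * X)) ^ 2 :=
        mul_le_mul_of_nonneg_right h3 (by positivity)
    _ = 8 * H * ((K : ℝ) * X) ^ 2 := by ring

theorem a12_TQ_nonneg (X M : ℕ) (a : ℤ) (ψ : ℝ) (g : ℤ → ℂ) : 0 ≤ TQ X M a ψ g := by
  unfold TQ
  exact sum_nonneg fun z _ => by positivity

theorem a12_FW (H n : ℕ) (hH : 1 ≤ H) (t : Fin n → ℤ) (ht : t ∈ bxS n H) : (1 / 2 : ℝ) ^ n ≤ FW (2 * H) t := by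
  unfold FW
  have h1 : (1 / 2 : ℝ) ^ n = ∏ _i : Fin n, (1 / 2 : ℝ) := by
    rw [prod_const, card_univ, Fintype.card_fin]
  rw [h1]
  refine prod_le_prod (fun i _ => by norm_num) fun i _ => ?_
  rw [bxS, Fintype.mem_piFinset] at ht
  exact A1_fw_half H hH (t i) (ht i)

theorem a12_FW_nonneg (M n : ℕ) (t : Fin n → ℤ) : 0 ≤ FW M t := by
  unfold FW
  exact prod_nonneg fun i _ => le_max_left _ _

theorem a12_mono (n H : ℕ) : bxS n H ⊆ bxS n (2 * H) := by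
  intro t ht
  rw [bxS, Fintype.mem_piFinset] at ht ⊢
  intro i
  have := ht i
  rw [mem_Ioo] at this ⊢
  push_cast
  constructor <;> omega

/-- The set of good `t`. -/
theorem a12_good (n H X K : ℕ) (hK : 1 ≤ K) (hX : 1 ≤ X) (hH : 1 ≤ H) (δ : ℝ) (S : (Fin n → ℤ) → ℝ)
    (hS : ∀ t, S t ≤ 8 * H * ((K : ℝ) * X) ^ 2)
    (h : δ * ((H : ℝ) ^ (n + 1) * ((K : ℝ) * X) ^ 2) ≤ ∑ t ∈ bxS n H, S t) (hδ : 0 < δ) :
    δ / 16 * (H : ℝ) ^ n ≤ (((bxS n H).filter fun t => δ / 2 ^ (n + 1) * (H * ((K : ℝ) * X) ^ 2) ≤ S t).card : ℝ) := by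
  set T := (bxS n H).filter fun t => δ / 2 ^ (n + 1) * (H * ((K : ℝ) * X) ^ 2) ≤ S t with hT
  have hK' : (0 : ℝ) < K := by exact_mod_cast hK
  have hX' : (0 : ℝ) < X := by exact_mod_cast hX
  have hH' : (0 : ℝ) < H := by exact_mod_cast hH
  have hKX : 0 < ((K : ℝ) * X) ^ 2 := by positivity
  have h1 : ∑ t ∈ bxS n H, S t ≤ T.card * (8 * H * ((K : ℝ) * X) ^ 2) +
      (2 * H) ^ n * (δ / 2 ^ (n + 1) * (H * ((K : ℝ) * X) ^ 2)) := by
    rw [← sum_filter_add_sum_filter_not (bxS n H) (fun t => δ / 2 ^ (n + 1) * (H * ((K : ℝ) * X) ^ 2) ≤ S t)]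
    refine add_le_add ?_ ?_
    · refine le_trans (sum_le_sum fun t _ => hS t) (le_of_eq ?_)
      rw [sum_const, nsmul_eq_mul]
    · have h2 : ∀ t ∈ (bxS n H).filter (fun t => ¬ δ / 2 ^ (n + 1) * (H * ((K : ℝ) * X) ^ 2) ≤ S t),
          S t ≤ δ / 2 ^ (n + 1) * (H * ((K : ℝ) * X) ^ 2) := by
        intro t ht
        rw [mem_filter] at ht
        exact (not_le.1 ht.2).le
      refine le_trans (sum_le_sum h2) ?_
      rw [sum_const, nsmul_eq_mul]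
      refine mul_le_mul_of_nonneg_right ?_ (by positivity)
      refine le_trans ?_ (bxS_card n H)
      exact_mod_cast card_le_card (filter_subset _ _)
  have h3 : (2 * (H : ℝ)) ^ n * (δ / 2 ^ (n + 1) * (H * ((K : ℝ) * X) ^ 2)) =
      δ / 2 * ((H : ℝ) ^ (n + 1) * ((K : ℝ) * X) ^ 2) := by
    rw [mul_pow]
    field_simp
    ring
  rw [h3] at h1
  have h4 : δ / 2 * ((H : ℝ) ^ (n + 1) * ((K : ℝ) * X) ^ 2) ≤ T.card * (8 * H * ((K : ℝ) * X) ^ 2) := by linarith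
  have h5 : (8 * H * ((K : ℝ) * X) ^ 2) * (δ / 16 * (H : ℝ) ^ n) ≤ (8 * H * ((K : ℝ) * X) ^ 2) * T.card := by
    calc (8 * H * ((K : ℝ) * X) ^ 2) * (δ / 16 * (H : ℝ) ^ n) = δ / 2 * ((H : ℝ) ^ (n + 1) * ((K : ℝ) * X) ^ 2) := by ring
      _ ≤ T.card * (8 * H * ((K : ℝ) * X) ^ 2) := h4
      _ = (8 * H * ((K : ℝ) * X) ^ 2) * T.card := by ring
  exact le_of_mul_le_mul_left h5 (by positivity)

/-- Pigeonhole over `q`. -/
theorem a12_pigeon {ι : Type*} (T : Finset ι) (h : ι → ℕ → ℝ) (hh : ∀ t q, 0 ≤ h t q) (P c : ℝ) (hP : 1 ≤ P) (hc : 0 ≤ c)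
    (hq : ∀ t ∈ T, ∃ q : ℕ, 1 ≤ q ∧ (q : ℝ) ≤ P ∧ c ≤ h t q) :
    ∃ q : ℕ, 1 ≤ q ∧ (q : ℝ) ≤ P ∧ T.card * c ≤ P * ∑ t ∈ T, h t q := by
  have hQ1 : 1 ≤ ⌊P⌋₊ := Nat.le_floor (by exact_mod_cast hP)
  have hQ : ((⌊P⌋₊ : ℕ) : ℝ) ≤ P := Nat.floor_le (by linarith)
  have h1 : (T.card : ℝ) * c ≤ ∑ q ∈ Icc 1 ⌊P⌋₊, ∑ t ∈ T, h t q := by
    rw [sum_comm]
    rw [← nsmul_eq_mul, ← sum_const]
    refine sum_le_sum fun t ht => ?_
    obtain ⟨q, hq1, hq2, hq3⟩ := hq t ht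
    refine le_trans hq3 ?_
    exact single_le_sum (f := fun q => h t q) (fun q _ => hh t q) (mem_Icc.2 ⟨hq1, Nat.le_floor hq2⟩)
  have h2 : ∑ q ∈ Icc 1 ⌊P⌋₊, (T.card * c / P) ≤ ∑ q ∈ Icc 1 ⌊P⌋₊, ∑ t ∈ T, h t q := by
    refine le_trans ?_ h1
    rw [sum_const, Nat.card_Icc, nsmul_eq_mul]
    have h3 : ((⌊P⌋₊ + 1 - 1 : ℕ) : ℝ) ≤ P := by
      rw [Nat.add_sub_cancel]
      exact hQ
    calc ((⌊P⌋₊ + 1 - 1 : ℕ) : ℝ) * (T.card * c / P) ≤ P * (T.card * c / P) :=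
          mul_le_mul_of_nonneg_right h3 (by positivity)
      _ = T.card * c := by field_simp
  obtain ⟨q, hq1, hq2⟩ := exists_le_of_sum_le ⟨1, mem_Icc.2 ⟨le_rfl, hQ1⟩⟩ h2
  rw [mem_Icc] at hq1
  refine ⟨q, hq1.1, le_trans (by exact_mod_cast hq1.2) hQ, ?_⟩
  rw [div_le_iff₀ (by linarith)] at hq2
  linarith

/-- Shortening with `ψ = 0`. -/
theorem a12_short (X M1 M2 : ℕ) (hM1 : 1 ≤ M1) (hM2 : 1 ≤ M2) (a : ℤ) (ha : 0 ≤ a) (haM : a * M2 ≤ X) (g : ℤ → ℂ)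
    (hg : Bdd X g) : TQ X M1 a 0 g ≤ 2 * TQ X M2 a 0 g + 8 * X * (2 * M2 / M1) ^ 2 := by
  have h := TQ_block X M1 M2 1 hM1 hM2 le_rfl a ha (by simpa using haM) 0 g hg
  have h0 : Pool.Agent.Lib.H84V.nd (((1 : ℕ) : ℝ) * 0) = 0 := by
    refine le_antisymm ?_ (Pool.Agent.Lib.H84V.nd_nonneg _)
    have := Pool.Agent.Lib.H84V.nd_le_abs (((1 : ℕ) : ℝ) * 0)
    simpa using this
  rw [h0] at h
  have h1 : a * ((1 : ℕ) : ℤ) = a := by rw [Nat.cast_one, mul_one]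
  rw [h1] at h
  have h2 : (2 * ((1 : ℕ) : ℝ) * M2 / M1 + 7 * M2 * 0) = 2 * M2 / M1 := by
    rw [Nat.cast_one]
    ring
  rw [h2] at h
  exact h

/-- The numbers. -/
theorem a12_num (n e : ℕ) (δ : ℝ) (hδ : 0 < δ) (hδ2 : δ ≤ 1 / 2) :
    δ ^ (2 * e + 3 * n + 14) ≤ (δ ^ e) ^ 2 * δ / (8 ^ n * 8192) := by
  have h1 : δ ^ (2 * e + 3 * n + 14) = (δ ^ e) ^ 2 * δ * δ ^ (3 * n + 13) := by
    rw [← pow_mul, mul_comm e 2]
    ring
  have h2 : δ ^ (3 * n + 13) ≤ 1 / (8 ^ n * 8192) := by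
    calc δ ^ (3 * n + 13) ≤ (1 / 2 : ℝ) ^ (3 * n + 13) := pow_le_pow_left₀ hδ.le hδ2 _
      _ = (1 / 8 : ℝ) ^ n * (1 / 8192) := by
          rw [pow_add, pow_mul]
          norm_num
      _ = 1 / (8 ^ n * 8192) := by
          rw [one_div_pow]
          field_simp
  rw [h1, div_eq_mul_one_div]
  exact mul_le_mul_of_nonneg_left h2 (by positivity)

theorem a12_H (C N : ℕ) (hC : 1 ≤ C) (hN : 2 ≤ N) (δ : ℝ) (hδ : 0 < δ) (hδ2 : δ ≤ 1 / 2) (X K H : ℕ)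
    (hK : (1 / δ) ^ C ≤ K) (hX : (1 / δ) ^ C * (K : ℝ) ^ N ≤ X) (hXK : δ * X ≤ K * H) : 1 ≤ δ ^ C * H := by
  have h1 : 1 ≤ 1 / δ := by
    rw [le_div_iff₀ hδ]
    linarith
  have hK1 : (1 : ℝ) ≤ K := le_trans (one_le_pow₀ h1) hK
  have h2 : (K : ℝ) ^ 2 ≤ (K : ℝ) ^ N := pow_le_pow_right₀ hK1 hN
  have h3 : 1 / δ ≤ K := le_trans (le_self_pow₀ h1 (by omega)) hK
  have h4 : δ * ((1 / δ) ^ C * (K : ℝ) ^ 2) ≤ K * H := by
    refine le_trans ?_ hXK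
    refine mul_le_mul_of_nonneg_left (le_trans ?_ hX) hδ.le
    exact mul_le_mul_of_nonneg_left h2 (by positivity)
  have h5 : δ * (1 / δ) ^ C * K ≤ H := by
    have h6 : (K : ℝ) * (δ * (1 / δ) ^ C * K) ≤ K * H := by
      calc (K : ℝ) * (δ * (1 / δ) ^ C * K) = δ * ((1 / δ) ^ C * (K : ℝ) ^ 2) := by ring
        _ ≤ K * H := h4
    exact le_of_mul_le_mul_left h6 (by linarith)
  have h7 : (1 / δ) ^ C ≤ H := by
    calc (1 / δ) ^ C = δ * (1 / δ) ^ C * (1 / δ) := by field_simp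
      _ ≤ δ * (1 / δ) ^ C * K := mul_le_mul_of_nonneg_left h3 (by positivity)
      _ ≤ H := h5
  calc (1 : ℝ) = δ ^ C * (1 / δ) ^ C := by
        rw [← mul_pow, mul_one_div_cancel hδ.ne', one_pow]
    _ ≤ δ ^ C * H := mul_le_mul_of_nonneg_left h7 (by positivity)

/-- Proof. `∑_{t ∈ bxS (n+1) H}` as a sum over the last coordinate `m` and `t' ∈ bxS n H` (use the order of the differences freely: `DL_perm`,
`FF X (a • (t', m)) f = ∑_y g_a(y) conj g_a(y + a m)`, `g_a = DV (a • t') f`). The inner sum over `m` is at most `8 H (K X)²`, and there are at most `(2H)^n`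
vectors `t'`: the set `𝒯` of `t'` with inner sum `≥ (δ/2^(n+1)) H (K X)²` has at least `(δ/16) H^n` elements. `A11_one` with `δ/2^(n+1) ≥ δ^(n+2)` for
`t' ∈ 𝒯`; pigeonhole over `q ≤ (1/δ)^C₁`: for one `q` the sum over `t' ∈ 𝒯` of `∑_a TQ X M1 (a q) 0 (DV (a • t') f)` is at least `δ^C₂ H^n K X` (`M1 = ⌊δ^C₁' H⌋` is the
same for all `t'`). `TQ ≥ 0`, `FW (2H) t' ≥ 2^(-n)` on `bxS n H ⊆ bxS n (2H)`: `A10_coord` with `M = 2H` for each `a ∈ 𝒜`: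
`∑_a NU X (n+1) M1 (a q) f ≥ 2^(-n) (…)/(2H)^n - 32 |𝒜| X (q M1/(2H))²`. To make the error small first choose the exponent in `M1` larger: `TQ_block`
(`ψ = 0`, `q = 1`, `M ↦ M1`, `M1 ↦ ⌊δ^C H⌋`) shortens `M1` with a loss of `2` and an error `8X (2 ⌊δ^C H⌋/M1)²`. -/
theorem A12_all (n : ℕ) (hn : 1 ≤ n) : ∃ C : ℕ, ∀ δ : ℝ, 0 < δ → δ ≤ 1 / 2 → ∀ X K H : ℕ, (1 / δ) ^ C ≤ K →
    (1 / δ) ^ C * (K : ℝ) ^ (2 ^ 2 ^ n) ≤ X → δ * X ≤ K * H → 16 * n * K * H ≤ X → 1 ≤ H → ∀ 𝒜 : Finset ℕ, 𝒜 ⊆ Ioc K (2 * K) →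
    ∀ f : ℤ → ℂ, Bdd X f →
    δ * ((H : ℝ) ^ (n + 1) * ((K : ℝ) * X) ^ 2) ≤ ∑ t ∈ bxS (n + 1) H, ‖∑ a ∈ 𝒜, FF X (fun i => (a : ℤ) * t i) f‖ ^ 2 →
    ∃ q : ℕ, 1 ≤ q ∧ (q : ℝ) ≤ (1 / δ) ^ C ∧ 1 ≤ ⌊δ ^ C * H⌋₊ ∧
      δ ^ C * (K * X) ≤ ∑ a ∈ 𝒜, NU X (n + 1) ⌊δ ^ C * H⌋₊ (a * q) f := by
  obtain ⟨C₁, hC₁⟩ := A11_one n hn
  refine ⟨(n + 2) * C₁ + (2 * ((n + 2) * C₁) + 3 * n + 14), ?_⟩
  set e := (n + 2) * C₁ with he
  intro δ hδ hδ2 X K H hK hX hXK hKH hH 𝒜 hA f hf hsum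
  set C := e + (2 * e + 3 * n + 14) with hC
  have hinv : 1 ≤ 1 / δ := by
    rw [le_div_iff₀ hδ]
    linarith
  have hK1 : (1 : ℝ) ≤ K := le_trans (one_le_pow₀ hinv) hK
  have hK1' : 1 ≤ K := by exact_mod_cast hK1
  have hN2 : 2 ≤ 2 ^ 2 ^ n := by
    calc 2 = 2 ^ 1 := by norm_num
      _ ≤ 2 ^ 2 ^ n := Nat.pow_le_pow_right (by norm_num) (Nat.one_le_two_pow)
  have hDH : 1 ≤ δ ^ C * H := a12_H C (2 ^ 2 ^ n) (by omega) hN2 δ hδ hδ2 X K H hK hX hXK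
  have hH' : (1 : ℝ) ≤ H := by exact_mod_cast hH
  have hX1 : 1 ≤ X := by
    have h1 : 1 ≤ 16 * n * K * H := by
      have h2 : 1 ≤ n * K * H := Nat.mul_pos (Nat.mul_pos hn hK1') hH
      calc 1 ≤ n * K * H := h2
        _ ≤ 16 * (n * K * H) := by omega
        _ = 16 * n * K * H := by ring
    omega
  have hX' : (1 : ℝ) ≤ X := by exact_mod_cast hX1
  -- the small parameter
  set δ' := δ ^ (n + 2) with hδ'
  have hδ'0 : 0 < δ' := by positivity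
  have hδ'1 : δ' ≤ δ / 2 ^ (n + 1) := by
    rw [hδ', show n + 2 = (n + 1) + 1 by ring, pow_succ, mul_comm, div_eq_mul_one_div]
    refine mul_le_mul_of_nonneg_left ?_ hδ.le
    calc δ ^ (n + 1) ≤ (1 / 2 : ℝ) ^ (n + 1) := pow_le_pow_left₀ hδ.le hδ2 _
      _ = 1 / 2 ^ (n + 1) := by rw [one_div_pow]
  have hδ'δ : δ' ≤ δ := by
    refine le_trans hδ'1 ?_
    exact div_le_self hδ.le (one_le_pow₀ (by norm_num))
  have hPe : (1 / δ') ^ C₁ = (1 / δ) ^ e := by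
    rw [hδ', he, pow_mul, one_div_pow δ (n + 2)]
  have hDe : δ' ^ C₁ = δ ^ e := by
    rw [hδ', he, pow_mul]
  set D := δ ^ e with hD
  have hD0 : 0 < D := by positivity
  have hD1 : D ≤ 1 := pow_le_one₀ hδ.le (by linarith)
  have hPD : (1 / δ) ^ e = 1 / D := by rw [hD, one_div_pow]
  set E := δ ^ (2 * e + 3 * n + 14) with hE
  have hE0 : 0 < E := by positivity
  have hEb : E ≤ D ^ 2 * δ / (8 ^ n * 8192) := a12_num n e δ hδ hδ2
  have hCE : δ ^ C = D * E := by rw [hC, pow_add]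
  have hE1 : E ≤ 1 := pow_le_one₀ hδ.le (by linarith)
  -- the sum over the last coordinate
  have hsum2 : δ * ((H : ℝ) ^ (n + 1) * ((K : ℝ) * X) ^ 2) ≤ ∑ t ∈ bxS n H, a12S X n H 𝒜 f t := by
    refine le_trans hsum (le_of_eq ?_)
    rw [a12_split]
    refine sum_congr rfl fun t _ => ?_
    unfold a12S
    refine sum_congr rfl fun m _ => ?_
    congr 2
    exact sum_congr rfl fun a _ => a12_FF X n a m t f
  have hgood := a12_good n H X K hK1' hX1 hH δ (a12S X n H 𝒜 f) (fun t => a12_S_le X n H K 𝒜 hA t f hf) hsum2 hδ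
  set T := (bxS n H).filter fun t => δ / 2 ^ (n + 1) * (H * ((K : ℝ) * X) ^ 2) ≤ a12S X n H 𝒜 f t with hT
  set M1 := ⌊δ' ^ C₁ * H⌋₊ with hM1
  set M2 := ⌊δ ^ C * H⌋₊ with hM2
  have hM2' : 1 ≤ M2 := Nat.le_floor (by exact_mod_cast hDH)
  have hM1' : 1 ≤ M1 := by
    refine Nat.le_floor ?_
    rw [hDe, Nat.cast_one]
    refine le_trans hDH ?_
    rw [hCE]
    refine mul_le_mul_of_nonneg_right ?_ (by linarith)
    calc D * E ≤ D * 1 := mul_le_mul_of_nonneg_left hE1 hD0.le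
      _ = D := mul_one D
  -- application of A11
  have hone : ∀ t ∈ T, ∃ q : ℕ, 1 ≤ q ∧ (q : ℝ) ≤ 1 / D ∧
      D * (K * X) ≤ ∑ a ∈ 𝒜, TQ X M1 ((a : ℤ) * q) 0 (DV (fun i => (a : ℤ) * t i) f) := by
    intro t ht
    rw [hT, mem_filter] at ht
    obtain ⟨q, hq1, hq2, _, hq4⟩ := hC₁ δ' hδ'0 (by linarith) X K H
      (by
        rw [hPe]
        exact le_trans (pow_le_pow_right₀ hinv (by omega)) hK)
      (by
        rw [hPe]
        refine le_trans ?_ hX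
        exact mul_le_mul_of_nonneg_right (pow_le_pow_right₀ hinv (by omega)) (by positivity))
      (le_trans (mul_le_mul_of_nonneg_right hδ'δ (by linarith)) hXK) hKH hH 𝒜 hA f hf t
      (fun i => by
        have h1 := ht.1
        rw [bxS, Fintype.mem_piFinset] at h1
        have h2 := h1 i
        rw [mem_Ioo] at h2
        rw [abs_le]
        constructor <;> omega)
      (by
        refine le_trans ?_ ht.2
        exact mul_le_mul_of_nonneg_right hδ'1 (by positivity))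
    rw [hPe, hPD] at hq2
    rw [← hM1, hDe] at hq4
    exact ⟨q, hq1, hq2, hq4⟩
  obtain ⟨q, hq1, hq2, hq3⟩ := a12_pigeon T
    (fun t q => ∑ a ∈ 𝒜, TQ X M1 ((a : ℤ) * (q : ℕ)) 0 (DV (fun i => (a : ℤ) * t i) f))
    (fun t q => sum_nonneg fun a _ => a12_TQ_nonneg _ _ _ _ _) (1 / D) (D * (K * X))
    (by
      rw [le_div_iff₀ hD0]
      linarith) (by positivity) hone
  have hKX : (0 : ℝ) < K * X := by positivity
  have hL : (0 : ℝ) < (H : ℝ) ^ n := by positivity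
  -- lower bound for the sum over `T`
  have hlow : δ / 16 * (H : ℝ) ^ n * (D ^ 2 * (K * X)) ≤
      ∑ t ∈ T, ∑ a ∈ 𝒜, TQ X M1 ((a : ℤ) * q) 0 (DV (fun i => (a : ℤ) * t i) f) := by
    have h1 : δ / 16 * (H : ℝ) ^ n * (D * (K * X)) ≤ T.card * (D * (K * X)) :=
      mul_le_mul_of_nonneg_right hgood (by positivity)
    have h2 := le_trans h1 hq3
    calc δ / 16 * (H : ℝ) ^ n * (D ^ 2 * (K * X)) = D * (δ / 16 * (H : ℝ) ^ n * (D * (K * X))) := by ring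
      _ ≤ D * (1 / D * ∑ t ∈ T, ∑ a ∈ 𝒜, TQ X M1 ((a : ℤ) * q) 0 (DV (fun i => (a : ℤ) * t i) f)) :=
          mul_le_mul_of_nonneg_left h2 hD0.le
      _ = ∑ t ∈ T, ∑ a ∈ 𝒜, TQ X M1 ((a : ℤ) * q) 0 (DV (fun i => (a : ℤ) * t i) f) := by
          field_simp
  -- sizes
  have hM2le : (M2 : ℝ) ≤ δ ^ C * H := Nat.floor_le (by positivity)
  have hM1ge : D * H ≤ 2 * M1 := by
    have h1 : D * H < M1 + 1 := by
      have := Nat.lt_floor_add_one (δ' ^ C₁ * (H : ℝ))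
      rw [hDe] at this
      rw [hM1, hDe]
      exact this
    have h2 : (1 : ℝ) ≤ M1 := by exact_mod_cast hM1'
    linarith
  have hM1pos : (0 : ℝ) < M1 := by
    have h2 : (1 : ℝ) ≤ M1 := by exact_mod_cast hM1'
    linarith
  have hqM2 : (q : ℝ) * M2 ≤ E * H := by
    calc (q : ℝ) * M2 ≤ (1 / D) * (δ ^ C * H) := mul_le_mul hq2 hM2le (Nat.cast_nonneg _) (by positivity)
      _ = E * H := by
          rw [hCE]
          field_simp
  have hqM2' : q * M2 ≤ H := by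
    have h1 : (q : ℝ) * M2 ≤ H := by
      refine le_trans hqM2 ?_
      calc E * H ≤ 1 * H := mul_le_mul_of_nonneg_right hE1 (by linarith)
        _ = H := one_mul _
    exact_mod_cast h1
  have haK : ∀ a ∈ 𝒜, K < a ∧ a ≤ 2 * K := fun a ha => mem_Ioc.1 (hA ha)
  have h2KH : 4 * K * H ≤ X := by
    refine le_trans ?_ hKH
    calc 4 * K * H = 4 * 1 * K * H := by ring
      _ ≤ 16 * n * K * H := by
          refine Nat.mul_le_mul_right _ (Nat.mul_le_mul_right _ ?_)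
          omega
  have haM : ∀ a ∈ 𝒜, a * (q * M2) ≤ X := by
    intro a ha
    calc a * (q * M2) ≤ (2 * K) * H := Nat.mul_le_mul (haK a ha).2 hqM2'
      _ ≤ 4 * K * H := by
          refine Nat.mul_le_mul_right _ ?_
          omega
      _ ≤ X := h2KH
  have hfrac : (2 * (M2 : ℝ) / M1) ≤ 4 * E := by
    rw [div_le_iff₀ hM1pos]
    calc 2 * (M2 : ℝ) ≤ 2 * (δ ^ C * H) := by linarith
      _ = 2 * E * (D * H) := by
          rw [hCE]
          ring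
      _ ≤ 2 * E * (2 * M1) := mul_le_mul_of_nonneg_left hM1ge (by positivity)
      _ = 4 * E * M1 := by ring
  have hshort : ∀ t : Fin n → ℤ, ∀ a ∈ 𝒜, TQ X M1 ((a : ℤ) * q) 0 (DV (fun i => (a : ℤ) * t i) f) ≤
      2 * TQ X M2 ((a : ℤ) * q) 0 (DV (fun i => (a : ℤ) * t i) f) + 128 * X * E ^ 2 := by
    intro t a ha
    have h1 := a12_short X M1 M2 hM1' hM2' ((a : ℤ) * q) (by positivity)
      (by
        have h2 := haM a ha
        rw [← mul_assoc] at h2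
        exact_mod_cast h2) (DV (fun i => (a : ℤ) * t i) f) (Bdd_DV hf _)
    have h3 : (2 * (M2 : ℝ) / M1) ^ 2 ≤ (4 * E) ^ 2 := pow_le_pow_left₀ (by positivity) hfrac 2
    have h4 : 8 * (X : ℝ) * (2 * (M2 : ℝ) / M1) ^ 2 ≤ 8 * X * (4 * E) ^ 2 :=
      mul_le_mul_of_nonneg_left h3 (by positivity)
    calc TQ X M1 ((a : ℤ) * q) 0 (DV (fun i => (a : ℤ) * t i) f) ≤ _ := h1
      _ ≤ 2 * TQ X M2 ((a : ℤ) * q) 0 (DV (fun i => (a : ℤ) * t i) f) + 8 * X * (4 * E) ^ 2 := by linarith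
      _ = 2 * TQ X M2 ((a : ℤ) * q) 0 (DV (fun i => (a : ℤ) * t i) f) + 128 * X * E ^ 2 := by ring
  have hAc := a12_card K 𝒜 hA
  have hTc : (T.card : ℝ) ≤ (2 * H) ^ n := by
    refine le_trans ?_ (bxS_card n H)
    exact_mod_cast card_le_card (filter_subset _ _)
  set Z := ∑ t ∈ T, ∑ a ∈ 𝒜, TQ X M2 ((a : ℤ) * q) 0 (DV (fun i => (a : ℤ) * t i) f) with hZ
  have hup : ∑ t ∈ T, ∑ a ∈ 𝒜, TQ X M1 ((a : ℤ) * q) 0 (DV (fun i => (a : ℤ) * t i) f) ≤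
      2 * Z + (2 * H) ^ n * (K * (128 * X * E ^ 2)) := by
    calc ∑ t ∈ T, ∑ a ∈ 𝒜, TQ X M1 ((a : ℤ) * q) 0 (DV (fun i => (a : ℤ) * t i) f) ≤
        ∑ t ∈ T, ∑ a ∈ 𝒜, (2 * TQ X M2 ((a : ℤ) * q) 0 (DV (fun i => (a : ℤ) * t i) f) + 128 * X * E ^ 2) :=
          sum_le_sum fun t _ => sum_le_sum fun a ha => hshort t a ha
      _ = 2 * Z + T.card * (𝒜.card * (128 * X * E ^ 2)) := by
          rw [hZ, mul_sum]
          rw [← nsmul_eq_mul T.card, ← sum_const, ← sum_add_distrib]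
          refine sum_congr rfl fun t _ => ?_
          rw [sum_add_distrib, mul_sum, sum_const, nsmul_eq_mul]
      _ ≤ 2 * Z + (2 * H) ^ n * (K * (128 * X * E ^ 2)) := by
          have h1 : (𝒜.card : ℝ) * (128 * X * E ^ 2) ≤ K * (128 * X * E ^ 2) :=
            mul_le_mul_of_nonneg_right hAc (by positivity)
          have h2 : (T.card : ℝ) * (𝒜.card * (128 * X * E ^ 2)) ≤ (2 * H) ^ n * (K * (128 * X * E ^ 2)) :=
            mul_le_mul hTc h1 (by positivity) (by positivity)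
          linarith
  have h8 : (0 : ℝ) < 8 ^ n := by positivity
  have h8' : (1 : ℝ) ≤ 8 ^ n := one_le_pow₀ (by norm_num)
  have h28 : (2 : ℝ) ^ n ≤ 8 ^ n := pow_le_pow_left₀ (by norm_num) (by norm_num) n
  have hEE : E ^ 2 ≤ E := by
    calc E ^ 2 = E * E := by ring
      _ ≤ E * 1 := mul_le_mul_of_nonneg_left hE1 hE0.le
      _ = E := mul_one E
  have hE8 : 8 ^ n * E ≤ D ^ 2 * δ / 8192 := by
    calc 8 ^ n * E ≤ 8 ^ n * (D ^ 2 * δ / (8 ^ n * 8192)) := mul_le_mul_of_nonneg_left hEb h8.le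
      _ = D ^ 2 * δ / 8192 := by field_simp
  have h2E : (2 : ℝ) ^ n * E ^ 2 ≤ D ^ 2 * δ / 8192 := by
    calc (2 : ℝ) ^ n * E ^ 2 ≤ 8 ^ n * E := mul_le_mul h28 hEE (by positivity) h8.le
      _ ≤ D ^ 2 * δ / 8192 := hE8
  have hZlow : δ / 64 * D ^ 2 * ((H : ℝ) ^ n * (K * X)) ≤ Z := by
    have h1 := le_trans hlow hup
    have h2 : (2 * (H : ℝ)) ^ n * (K * (128 * X * E ^ 2)) = 128 * (2 ^ n * E ^ 2) * ((H : ℝ) ^ n * (K * X)) := by
      rw [mul_pow]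
      ring
    rw [h2] at h1
    have h3 : 128 * ((2 : ℝ) ^ n * E ^ 2) * ((H : ℝ) ^ n * (K * X)) ≤ 128 * (D ^ 2 * δ / 8192) * ((H : ℝ) ^ n * (K * X)) :=
      mul_le_mul_of_nonneg_right (mul_le_mul_of_nonneg_left h2E (by norm_num)) (by positivity)
    have h4 : δ / 16 * (H : ℝ) ^ n * (D ^ 2 * (K * X)) = δ / 16 * D ^ 2 * ((H : ℝ) ^ n * (K * X)) := by ring
    rw [h4] at h1
    have h5 : 0 ≤ δ * D ^ 2 * ((H : ℝ) ^ n * (K * X)) := by positivity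
    linarith
  -- the other coordinates
  have hcoord : ∀ a ∈ 𝒜, (1 / 2 : ℝ) ^ n * (∑ t ∈ T, TQ X M2 ((a : ℤ) * q) 0 (DV (fun i => (a : ℤ) * t i) f)) /
      (2 * H) ^ n ≤ 2 ^ n * (NU X (n + 1) M2 (a * q) f + 8 * X * E ^ 2) := by
    intro a ha
    have h1 := A10_coord n X (2 * H) M2 q a (by omega) hM2' hq1
      (by
        calc a * (2 * H) ≤ (2 * K) * (2 * H) := Nat.mul_le_mul_right _ (haK a ha).2
          _ = 4 * K * H := by ring
          _ ≤ X := h2KH) (haM a ha) f hf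
    have h2 : (1 / 2 : ℝ) ^ n * (∑ t ∈ T, TQ X M2 ((a : ℤ) * q) 0 (DV (fun i => (a : ℤ) * t i) f)) ≤
        ∑ t ∈ bxS n (2 * H), FW (2 * H) t * TQ X M2 ((a : ℤ) * q) 0 (DV (fun i => (a : ℤ) * t i) f) := by
      rw [mul_sum]
      refine le_trans (sum_le_sum fun t ht => ?_) (sum_le_sum_of_subset_of_nonneg
        (f := fun t => FW (2 * H) t * TQ X M2 ((a : ℤ) * q) 0 (DV (fun i => (a : ℤ) * t i) f))
        (le_trans (filter_subset _ _) (a12_mono n H)) fun t _ _ => ?_)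
      · exact mul_le_mul_of_nonneg_right (a12_FW H n hH t (mem_filter.1 ht).1) (a12_TQ_nonneg _ _ _ _ _)
      · exact mul_nonneg (a12_FW_nonneg _ _ _) (a12_TQ_nonneg _ _ _ _ _)
    have h3 : ((2 * H : ℕ) : ℝ) = 2 * H := by push_cast; ring
    rw [h3] at h1
    have h4 : (q * M2 / (2 * H) : ℝ) ^ 2 ≤ (E / 2) ^ 2 := by
      refine pow_le_pow_left₀ (by positivity) ?_ 2
      rw [div_le_iff₀ (by positivity)]
      calc (q : ℝ) * M2 ≤ E * H := hqM2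
        _ = E / 2 * (2 * H) := by ring
    have h5 : (32 : ℝ) * X * (q * M2 / (2 * H) : ℝ) ^ 2 ≤ 8 * X * E ^ 2 := by
      calc (32 : ℝ) * X * (q * M2 / (2 * H) : ℝ) ^ 2 ≤ 32 * X * (E / 2) ^ 2 :=
            mul_le_mul_of_nonneg_left h4 (by positivity)
        _ = 8 * X * E ^ 2 := by ring
    calc (1 / 2 : ℝ) ^ n * (∑ t ∈ T, TQ X M2 ((a : ℤ) * q) 0 (DV (fun i => (a : ℤ) * t i) f)) / (2 * H) ^ n ≤
        (∑ t ∈ bxS n (2 * H), FW (2 * H) t * TQ X M2 ((a : ℤ) * q) 0 (DV (fun i => (a : ℤ) * t i) f)) / (2 * H) ^ n :=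
          div_le_div_of_nonneg_right h2 (by positivity)
      _ ≤ 2 ^ n * (NU X (n + 1) M2 (a * q) f + 32 * X * (q * M2 / (2 * H) : ℝ) ^ 2) := h1
      _ ≤ 2 ^ n * (NU X (n + 1) M2 (a * q) f + 8 * X * E ^ 2) :=
          mul_le_mul_of_nonneg_left (by linarith) (by positivity)
  set W := ∑ a ∈ 𝒜, NU X (n + 1) M2 (a * q) f with hW
  have hfin : (1 / 2 : ℝ) ^ n * Z / (2 * H) ^ n ≤ 2 ^ n * (W + K * (8 * X * E ^ 2)) := by
    have h1 : (1 / 2 : ℝ) ^ n * Z / (2 * H) ^ n = ∑ a ∈ 𝒜, (1 / 2 : ℝ) ^ n *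
        (∑ t ∈ T, TQ X M2 ((a : ℤ) * q) 0 (DV (fun i => (a : ℤ) * t i) f)) / (2 * H) ^ n := by
      rw [hZ, sum_comm, ← sum_div, ← mul_sum]
    rw [h1]
    refine le_trans (sum_le_sum hcoord) ?_
    rw [← mul_sum, sum_add_distrib, sum_const, nsmul_eq_mul]
    refine mul_le_mul_of_nonneg_left ?_ (by positivity)
    have h2 : (𝒜.card : ℝ) * (8 * X * E ^ 2) ≤ K * (8 * X * E ^ 2) := mul_le_mul_of_nonneg_right hAc (by positivity)
    linarith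
  refine ⟨q, hq1, ?_, hM2', ?_⟩
  · refine le_trans hq2 ?_
    rw [← hPD]
    exact pow_le_pow_right₀ hinv (by omega)
  · have h1 : (1 / 2 : ℝ) ^ n * (δ / 64 * D ^ 2 * ((H : ℝ) ^ n * (K * X))) / (2 * H) ^ n ≤
        2 ^ n * (W + K * (8 * X * E ^ 2)) := by
      refine le_trans ?_ hfin
      refine div_le_div_of_nonneg_right ?_ (by positivity)
      exact mul_le_mul_of_nonneg_left hZlow (by positivity)
    have h2 : (1 / 2 : ℝ) ^ n * (δ / 64 * D ^ 2 * ((H : ℝ) ^ n * (K * X))) / (2 * H) ^ n =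
        2 ^ n * (δ / 64 * D ^ 2 * (K * X) / 8 ^ n) := by
      have h8n : (8 : ℝ) ^ n = 2 ^ n * 2 ^ n * 2 ^ n := by
        rw [← mul_pow, ← mul_pow]
        norm_num
      rw [h8n, mul_pow, one_div_pow]
      field_simp
    rw [h2] at h1
    have h3 : δ / 64 * D ^ 2 * (K * X) / 8 ^ n ≤ W + K * (8 * X * E ^ 2) :=
      le_of_mul_le_mul_left h1 (by positivity)
    rw [hCE]
    have h4 : D * E ≤ E := by
      calc D * E ≤ 1 * E := mul_le_mul_of_nonneg_right hD1 hE0.le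
        _ = E := one_mul E
    have h5 : 9 * E ≤ δ / 64 * D ^ 2 / 8 ^ n := by
      have h6 : D ^ 2 * δ / (8 ^ n * 8192) = (δ / 64 * D ^ 2 / 8 ^ n) / 128 := by
        field_simp
        norm_num
      rw [h6] at hEb
      have h7 : 0 ≤ δ / 64 * D ^ 2 / 8 ^ n := by positivity
      linarith
    have h6 : D * E * (K * X) + K * (8 * X * E ^ 2) ≤ 9 * E * (K * X) := by
      have h7 : D * E * (K * X) ≤ E * (K * X) := mul_le_mul_of_nonneg_right h4 hKX.le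
      have h8 : E ^ 2 * (K * X) ≤ E * (K * X) := mul_le_mul_of_nonneg_right hEE hKX.le
      linarith
    have h7 : 9 * E * (K * X) ≤ δ / 64 * D ^ 2 * (K * X) / 8 ^ n := by
      calc 9 * E * (K * X) ≤ δ / 64 * D ^ 2 / 8 ^ n * (K * X) := mul_le_mul_of_nonneg_right h5 hKX.le
        _ = δ / 64 * D ^ 2 * (K * X) / 8 ^ n := by ring
    linarith

end Pool.Agent.HUK
end
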