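import Pool.Agent.Lib.H59M.M2.M004
import Pool.Agent.Lib.H59M.M2.M035
import Pool.Agent.Lib.H59M.M2.M057

/-! Merged copies (to shorten the build) of Lib.HUK.LL4, Lib.HUK.LL3, Lib.HUK.LL7a, Lib.HUK.LL7, Lib.HUK.LL8, Lib.HUK.LL9, Lib.HUK.LL10, Lib.HUK.LL. -/

-- from Lib.HUK.LL4
section

/-!
# Project HUK, chunk LL4 (M): Cauchy-Schwarz over `y`
-/

open Finset

namespace Pool.Agent.HUK

theorem ll4_vt_mul {s : ℕ} (β : ℤ) (ω : Fin s → Bool) (t : Fin s → ℤ) :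
    vt ω (fun i => β * t i) = β * vt ω t := by
  unfold vt
  rw [mul_sum]
  refine sum_congr rfl fun i _ => ?_
  split_ifs
  · rfl
  · rw [mul_zero]

theorem ll4_sg_zv (s : ℕ) : sg (zv s) = 0 := by
  unfold sg zv
  simp

theorem ll4_vt_zv (s : ℕ) (t : Fin s → ℤ) : vt (zv s) t = 0 := by
  unfold vt zv
  simp

theorem ll4_prod_zv (s : ℕ) (a : (Fin s → Bool) → ℂ) :
    ∏ ω : Fin s → Bool, a ω = a (zv s) * ∏ ω : Fin s → Bool, (if ω = zv s then 1 else a ω) := by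
  have h1 : ∏ ω : Fin s → Bool, (if ω = zv s then a (zv s) else 1) = a (zv s) := by
    rw [prod_ite_eq' univ (zv s) (fun _ => a (zv s)), if_pos (mem_univ _)]
  rw [← h1]
  have h2 : ∀ ω : Fin s → Bool, a ω = (if ω = zv s then a (zv s) else 1) * (if ω = zv s then 1 else a ω) := by
    intro ω
    split_ifs with h
    · rw [h, mul_one]
    · rw [one_mul]
  rw [h1]
  calc ∏ ω : Fin s → Bool, a ω = ∏ ω : Fin s → Bool, ((if ω = zv s then a (zv s) else 1) * (if ω = zv s then 1 else a ω)) :=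
        prod_congr rfl fun ω _ => h2 ω
    _ = (∏ ω : Fin s → Bool, (if ω = zv s then a (zv s) else 1)) * ∏ ω : Fin s → Bool, (if ω = zv s then 1 else a ω) :=
        prod_mul_distrib
    _ = a (zv s) * ∏ ω : Fin s → Bool, (if ω = zv s then 1 else a ω) := by rw [h1]

theorem ll4_conj_PV {s : ℕ} (β : ℤ) (U : (Fin s → Bool) → ℤ → ℂ) (t : Fin s → ℤ) (y : ℤ) :
    (starRingEnd ℂ) (PV β U t y) = PV β (cU U) t y := by
  unfold PV cU
  rw [map_prod]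

theorem ll4_FW_cons (M s : ℕ) (t0 : ℤ) (t : Fin s → ℤ) :
    FW M (Fin.cons t0 t : Fin (s + 1) → ℤ) = fw M t0 * FW M t := by
  unfold FW
  rw [Fin.prod_univ_succ]
  simp only [Fin.cons_zero, Fin.cons_succ]

/-- The vertices of the cube `{0,1}^(s+1)` other than `0`: for `t = cons t0 t'`: `DV (β t) f y = f y * PV β (Uf f (β t0)) t' y`.
By `DL_prod` (with `vt ω (fun i => β * t i) = β * vt ω t`) and `Fin.consEquiv`, `p0_sg_cons`: the pair `(cons false ω, cons true ω)`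
gives `cj (sg ω) (f (y + β ω·t')) * cj (sg ω + 1) (f (y + β t0 + β ω·t'))`; the factor `cj 0 (f y)` of `ω = zv s` is taken out. -/
theorem LL4_DV (s : ℕ) (β : ℤ) (f : ℤ → ℂ) (t0 : ℤ) (t : Fin s → ℤ) (y : ℤ) :
    DV (fun i => β * (Fin.cons t0 t : Fin (s + 1) → ℤ) i) f y = f y * PV β (Uf (s := s) f (β * t0)) t y := by
  unfold DV
  rw [DL_prod]
  rw [← (Fin.consEquiv fun _ : Fin (s + 1) => Bool).prod_comp, Fintype.prod_prod_type, Fintype.prod_bool]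
  have h1 : ∀ ω : Fin s → Bool, cj (sg ((Fin.consEquiv fun _ : Fin (s + 1) => Bool) (false, ω)))
      (f (y + vt ((Fin.consEquiv fun _ : Fin (s + 1) => Bool) (false, ω)) (fun i => β * (Fin.cons t0 t : Fin (s + 1) → ℤ) i))) =
      cj (sg ω) (f (y + β * vt ω t)) := by
    intro ω
    change cj (sg (Fin.cons false ω : Fin (s + 1) → Bool)) (f (y + vt (Fin.cons false ω : Fin (s + 1) → Bool) _)) = _
    rw [p0_sg_cons, p0_vt_cons]
    simp only [Bool.false_eq_true, if_false, add_zero, zero_add, Fin.cons_succ]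
    rw [ll4_vt_mul]
  have h2 : ∀ ω : Fin s → Bool, cj (sg ((Fin.consEquiv fun _ : Fin (s + 1) => Bool) (true, ω)))
      (f (y + vt ((Fin.consEquiv fun _ : Fin (s + 1) => Bool) (true, ω)) (fun i => β * (Fin.cons t0 t : Fin (s + 1) → ℤ) i))) =
      cj (sg ω + 1) (f (y + β * vt ω t + β * t0)) := by
    intro ω
    change cj (sg (Fin.cons true ω : Fin (s + 1) → Bool)) (f (y + vt (Fin.cons true ω : Fin (s + 1) → Bool) _)) = _
    rw [p0_sg_cons, p0_vt_cons]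
    simp only [if_true, Fin.cons_succ, Fin.cons_zero]
    rw [ll4_vt_mul, add_assoc y, add_comm (β * t0)]
  rw [prod_congr rfl fun ω _ => h1 ω, prod_congr rfl fun ω _ => h2 ω]
  rw [ll4_prod_zv s (fun ω => cj (sg ω) (f (y + β * vt ω t)))]
  have h3 : cj (sg (zv s)) (f (y + β * vt (zv s) t)) = f y := by
    rw [ll4_sg_zv, ll4_vt_zv, mul_zero, add_zero]
    simp [cj]
  rw [h3]
  unfold PV Uf
  rw [prod_mul_distrib]
  ring

/-- `NU` as an inner product with the dual function (`LL4_DV`, exchange of sums). -/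
theorem LL4_NU (X s M : ℕ) (β : ℤ) (f : ℤ → ℂ) :
    NU X (s + 1) M β f = (∑ y ∈ Ico (-(X : ℤ)) X, f y * Db s M β f y).re := by
  unfold NU FF
  rw [e1_box_succ]
  have h1 : (∑ y ∈ Ico (-(X : ℤ)) X, f y * Db s M β f y) =
      (∑ j0 ∈ Ioo (-(M : ℤ)) M, ∑ j' ∈ bxS s M, ((FW M (Fin.cons j0 j' : Fin (s + 1) → ℤ) : ℝ) : ℂ) *
        ∑ y ∈ Ico (-(X : ℤ)) X, DV (fun i => β * (Fin.cons j0 j' : Fin (s + 1) → ℤ) i) f y) / (((M ^ (s + 1) : ℕ)) : ℂ) := by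
    have h2 : ∀ y ∈ Ico (-(X : ℤ)) X, f y * Db s M β f y =
        (∑ j0 ∈ Ioo (-(M : ℤ)) M, ∑ j' ∈ bxS s M, ((FW M (Fin.cons j0 j' : Fin (s + 1) → ℤ) : ℝ) : ℂ) *
          DV (fun i => β * (Fin.cons j0 j' : Fin (s + 1) → ℤ) i) f y) / (((M ^ (s + 1) : ℕ)) : ℂ) := by
      intro y _
      unfold Db
      rw [← mul_div_assoc, mul_sum]
      push_cast
      congr 1
      refine sum_congr rfl fun j0 _ => ?_
      rw [mul_sum, mul_sum]
      refine sum_congr rfl fun j' _ => ?_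
      rw [LL4_DV, ll4_FW_cons]
      push_cast
      ring
    rw [sum_congr rfl h2, ← sum_div]
    congr 1
    rw [sum_comm]
    refine sum_congr rfl fun j0 _ => ?_
    rw [sum_comm]
    refine sum_congr rfl fun j' _ => ?_
    rw [mul_sum]
  rw [h1, Complex.div_natCast_re]
  push_cast
  rfl

/-- The correlation of two dual functions (`conj (PV β U t y) = PV β (cU U) t y`; exchange of sums). -/
theorem LL4_pair (X s M : ℕ) (β β' : ℤ) (f : ℤ → ℂ) :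
    (∑ y ∈ Ico (-(2 * X : ℕ) : ℤ) (2 * X : ℕ), Db s M β f y * (starRingEnd ℂ) (Db s M β' f y)).re = SPd X s M β β' f := by
  unfold SPd
  congr 1
  have h1 : ∀ y : ℤ, Db s M β f y * (starRingEnd ℂ) (Db s M β' f y) =
      (∑ t ∈ Ioo (-(M : ℤ)) M, ∑ t' ∈ Ioo (-(M : ℤ)) M, ((fw M t * fw M t' : ℝ) : ℂ) *
        ∑ u ∈ bxS s M, ∑ u' ∈ bxS s M, ((FW M u * FW M u' : ℝ) : ℂ) *
          (PV β (Uf (s := s) f (β * t)) u y * PV β' (cU (Uf (s := s) f (β' * t'))) u' y)) / ((M : ℂ) ^ (2 * s) * (M : ℂ) ^ 2) := by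
    intro y
    unfold Db
    rw [map_div₀, map_pow, Complex.conj_natCast, div_mul_div_comm]
    have h2 : (M : ℂ) ^ (s + 1) * (M : ℂ) ^ (s + 1) = (M : ℂ) ^ (2 * s) * (M : ℂ) ^ 2 := by
      ring
    rw [h2]
    congr 1
    rw [map_sum, sum_mul_sum]
    refine sum_congr rfl fun t _ => ?_
    refine sum_congr rfl fun t' _ => ?_
    rw [map_mul, Complex.conj_ofReal, map_sum]
    have h3 : ∀ u' ∈ bxS s M, (starRingEnd ℂ) (((FW M u' : ℝ) : ℂ) * PV β' (Uf (s := s) f (β' * t')) u' y) =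
        ((FW M u' : ℝ) : ℂ) * PV β' (cU (Uf (s := s) f (β' * t'))) u' y := by
      intro u' _
      rw [map_mul, Complex.conj_ofReal, ll4_conj_PV]
    rw [sum_congr rfl h3, mul_mul_mul_comm, sum_mul_sum]
    push_cast
    congr 1
    refine sum_congr rfl fun u _ => ?_
    refine sum_congr rfl fun u' _ => ?_
    ring
  rw [sum_congr rfl fun y _ => h1 y, ← sum_div, ← div_div]
  congr 1
  rw [sum_comm, sum_div]
  have h4 : ∀ t ∈ Ioo (-(M : ℤ)) M, (∑ y ∈ Ico (-((2 * X : ℕ) : ℤ)) ((2 * X : ℕ) : ℤ), ∑ t' ∈ Ioo (-(M : ℤ)) M, ((fw M t * fw M t' : ℝ) : ℂ) *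
        ∑ u ∈ bxS s M, ∑ u' ∈ bxS s M, ((FW M u * FW M u' : ℝ) : ℂ) *
          (PV β (Uf (s := s) f (β * t)) u y * PV β' (cU (Uf (s := s) f (β' * t'))) u' y)) / (M : ℂ) ^ (2 * s) =
      ∑ t' ∈ Ioo (-(M : ℤ)) M, ((fw M t * fw M t' : ℝ) : ℂ) * TT (2 * X) M β β' (Uf (s := s) f (β * t)) (cU (Uf (s := s) f (β' * t'))) := by
    intro t _
    rw [sum_comm, sum_div]
    refine sum_congr rfl fun t' _ => ?_
    rw [← mul_sum, mul_div_assoc]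
    congr 1
    unfold TT
    congr 1
    rw [sum_comm]
    refine sum_congr rfl fun u _ => ?_
    rw [sum_comm]
    refine sum_congr rfl fun u' _ => ?_
    rw [mul_sum]
  exact sum_congr rfl h4

/-- **Cauchy-Schwarz over `y`.** `(∑_b NU)² ≤ ‖∑_y f y ∑_b Db‖² ≤ 2X ∑_{y ∈ [-X,X)} ‖∑_b Db‖² ≤ 2X ∑_{y ∈ [-2X,2X)} ‖∑_b Db‖²`, open the
square, `LL4_pair`. -/
theorem LL4_cs (X s M K q : ℕ) (f : ℤ → ℂ) (hf : Bdd X f) :
    (∑ b ∈ Ioc K (2 * K), NU X (s + 1) M (b * q) f) ^ 2 ≤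
      2 * X * ∑ p ∈ Ioc K (2 * K) ×ˢ Ioc K (2 * K), SPd X s M (p.1 * q) (p.2 * q) f := by
  obtain ⟨G, hG⟩ : ∃ G : ℤ → ℂ, ∀ y, G y = ∑ b ∈ Ioc K (2 * K), Db s M ((b : ℤ) * q) f y := ⟨_, fun _ => rfl⟩
  have h1 : ∑ b ∈ Ioc K (2 * K), NU X (s + 1) M ((b : ℤ) * q) f = (∑ y ∈ Ico (-(X : ℤ)) X, f y * G y).re := by
    rw [sum_congr rfl fun (b : ℕ) _ => LL4_NU X s M ((b : ℤ) * q) f, ← Complex.re_sum]
    congr 1
    rw [sum_comm]
    refine sum_congr rfl fun y _ => ?_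
    rw [hG, mul_sum]
  rw [h1]
  have h2 : (∑ y ∈ Ico (-(X : ℤ)) X, f y * G y).re ^ 2 ≤ 2 * X * ∑ y ∈ Ico (-(X : ℤ)) X, ‖G y‖ ^ 2 := by
    have h3 : |(∑ y ∈ Ico (-(X : ℤ)) X, f y * G y).re| ≤ ∑ y ∈ Ico (-(X : ℤ)) X, 1 * ‖G y‖ := by
      refine (Complex.abs_re_le_norm _).trans ((norm_sum_le _ _).trans ?_)
      refine sum_le_sum fun y _ => ?_
      rw [norm_mul]
      exact mul_le_mul_of_nonneg_right (hf.le y) (norm_nonneg _)
    have h4 := sum_mul_sq_le_sq_mul_sq (Ico (-(X : ℤ)) X) (fun _ => (1 : ℝ)) (fun y => ‖G y‖)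
    have h5 : ∑ y ∈ Ico (-(X : ℤ)) X, ((1 : ℝ)) ^ 2 = 2 * X := by
      rw [sum_const, Int.card_Ico, one_pow, nsmul_eq_mul, mul_one]
      have h6 : ((X : ℤ) - (-(X : ℤ))).toNat = 2 * X := by omega
      rw [h6]
      push_cast
      ring
    rw [h5] at h4
    refine le_trans ?_ h4
    rw [← sq_abs]
    exact pow_le_pow_left₀ (abs_nonneg _) h3 2
  refine h2.trans ?_
  refine mul_le_mul_of_nonneg_left ?_ (by positivity)
  have h7 : ∑ y ∈ Ico (-(X : ℤ)) X, ‖G y‖ ^ 2 ≤ ∑ y ∈ Ico (-((2 * X : ℕ) : ℤ)) ((2 * X : ℕ) : ℤ), ‖G y‖ ^ 2 := by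
    refine sum_le_sum_of_subset_of_nonneg ?_ (fun y _ _ => by positivity)
    intro y hy
    rw [mem_Ico] at hy ⊢
    push_cast
    omega
  refine h7.trans (le_of_eq ?_)
  rw [sum_product]
  have h8 : ∀ b ∈ Ioc K (2 * K), ∀ b' ∈ Ioc K (2 * K), SPd X s M ((b : ℤ) * q) ((b' : ℤ) * q) f =
      ∑ y ∈ Ico (-((2 * X : ℕ) : ℤ)) ((2 * X : ℕ) : ℤ), (Db s M ((b : ℤ) * q) f y * (starRingEnd ℂ) (Db s M ((b' : ℤ) * q) f y)).re := by
    intro b _ b' _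
    rw [← LL4_pair, Complex.re_sum]
  rw [sum_congr rfl fun b hb => sum_congr rfl fun b' hb' => h8 b hb b' hb']
  have h9 : ∀ y : ℤ, ‖G y‖ ^ 2 = ∑ b ∈ Ioc K (2 * K), ∑ b' ∈ Ioc K (2 * K),
      (Db s M ((b : ℤ) * q) f y * (starRingEnd ℂ) (Db s M ((b' : ℤ) * q) f y)).re := by
    intro y
    have h10 : ‖G y‖ ^ 2 = (G y * (starRingEnd ℂ) (G y)).re := by
      rw [Complex.mul_conj, Complex.ofReal_re, Complex.normSq_eq_norm_sq]
    rw [h10, hG, map_sum, sum_mul_sum, Complex.re_sum]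
    refine sum_congr rfl fun b _ => ?_
    rw [Complex.re_sum]
  rw [sum_congr rfl fun y _ => h9 y, sum_comm]
  refine sum_congr rfl fun b _ => ?_
  rw [sum_comm]

end Pool.Agent.HUK
end

-- from Lib.HUK.LL3
section

/-!
# Project HUK, chunk LL3 (M): recursion over the coordinates
-/

open Finset

namespace Pool.Agent.HUK

private theorem ll3_zv (s : ℕ) : (Fin.cons false (zv s) : Fin (s + 1) → Bool) = zv (s + 1) := by
  funext i
  refine Fin.cases ?_ (fun j => ?_) i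
  · rfl
  · rfl

private theorem ll3_bx0 (M : ℕ) : bxS 0 M = {fun i => i.elim0} := by
  ext x
  simp only [bxS, Fintype.mem_piFinset, mem_singleton]
  constructor
  · intro _
    funext i
    exact i.elim0
  · intro _ i
    exact i.elim0

private theorem ll3_TT0 (X M : ℕ) (β β' : ℤ) (U U' : (Fin 0 → Bool) → ℤ → ℂ) :
    TT X M β β' U U' = ∑ y ∈ Ico (-(X : ℤ)) X, U (zv 0) y * U' (zv 0) y := by
  have hPV : ∀ (γ : ℤ) (V : (Fin 0 → Bool) → ℤ → ℂ) (t : Fin 0 → ℤ) (y : ℤ), PV γ V t y = V (zv 0) y := by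
    intro γ V t y
    unfold PV
    rw [Fintype.prod_eq_single (zv 0) (fun ω hω => absurd (Subsingleton.elim ω (zv 0)) hω)]
    simp [vt]
  unfold TT
  rw [ll3_bx0]
  simp only [sum_singleton, hPV, FW, univ_eq_empty, prod_empty, mul_one, Complex.ofReal_one, one_mul, mul_zero, pow_zero,
    div_one]

/-- The sum over `k` of the `NU` of the differences. -/
private theorem ll3_NU (X s H : ℕ) (hH : 1 ≤ H) (d : ℤ) (f : ℤ → ℂ) :
    NU X (s + 1) H d f = (∑ k ∈ Ioo (-(H : ℤ)) H, fw H k * NU X s H d (DD (d * k) f)) / H := by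
  rw [← MQ_NU X (s + 1) H hH d f, List.replicate_succ, mq2_cons_re]
  simp only [MQ_NU X s H hH d]

private theorem ll3_NU0 (X H : ℕ) (hH : 1 ≤ H) (d : ℤ) (f : ℤ → ℂ) :
    NU X 0 H d f = (∑ y ∈ Ico (-(X : ℤ)) X, f y).re := by
  rw [← MQ_NU X 0 H hH d f]
  rfl

private theorem ll3_fam {s : ℕ} (h : ℤ) (U U' : (Fin (s + 1) → Bool) → ℤ → ℂ) (y : ℤ) :
    DD h (U (Fin.cons false (zv s) : Fin (s + 1) → Bool)) y * DD h (U' (Fin.cons false (zv s) : Fin (s + 1) → Bool)) y =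
      DD h (fun y => U (zv (s + 1)) y * U' (zv (s + 1)) y) y := by
  rw [ll3_zv, p0_DD_mul]

/-- `s = 0`: `TT = ∑_y U(y) U'(y)`, hence the sum over `k` in `LL2_rec` is `NU X 1 H d (U U')` (`MQ_NU`, `MQ`). -/
theorem LL3_base (X M H b b' q : ℕ) (hM : 1 ≤ M) (hH : 1 ≤ H) (hd : b * b' * q * H ≤ X)
    (U U' : (Fin 1 → Bool) → ℤ → ℂ) (hU : ∀ ω y, ‖U ω y‖ ≤ 1) (hU' : ∀ ω y, ‖U' ω y‖ ≤ 1)
    (h0 : ∀ y, y ∉ Ico (-(X : ℤ)) X → U (zv 1) y * U' (zv 1) y = 0) :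
    ‖TT X M (b * q) (b' * q) U U'‖ ^ 2 ≤ 8 * X * NU X 1 H (b * b' * q) (fun y => U (zv 1) y * U' (zv 1) y) +
      8 * (X : ℝ) ^ 2 * (2 * (b + b') * H / M) ^ 2 := by
  refine (LL2_rec X M H b b' q 0 hM hH hd U U' hU hU' h0).trans (le_of_eq ?_)
  congr 2
  rw [ll3_NU X 0 H hH]
  congr 1
  refine sum_congr rfl fun k _ => ?_
  rw [ll3_NU0 X H hH, ll3_TT0]
  congr 2
  refine sum_congr rfl fun y _ => ?_
  exact ll3_fam _ U U' y

private theorem ll3_DDle (h : ℤ) (f : ℤ → ℂ) (hf : ∀ y, ‖f y‖ ≤ 1) (y : ℤ) : ‖DD h f y‖ ≤ 1 := by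
  simp only [DD]
  rw [norm_mul, RCLike.norm_conj]
  exact mul_le_one₀ (hf _) (norm_nonneg _) (hf _)

private theorem ll3_pow (a b : ℝ) (ha : 0 ≤ a) (hb : 0 ≤ b) (n : ℕ) : (a + b) ^ n ≤ 2 ^ n * (a ^ n + b ^ n) := by
  have h1 : a + b ≤ 2 * max a b := by
    have := le_max_left a b
    have := le_max_right a b
    linarith
  calc (a + b) ^ n ≤ (2 * max a b) ^ n := pow_le_pow_left₀ (by positivity) h1 n
    _ = 2 ^ n * (max a b) ^ n := mul_pow _ _ _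
    _ ≤ 2 ^ n * (a ^ n + b ^ n) := by
      refine mul_le_mul_of_nonneg_left ?_ (by positivity)
      rcases le_total a b with h | h
      · rw [max_eq_right h]
        have : 0 ≤ a ^ n := by positivity
        linarith
      · rw [max_eq_left h]
        have : 0 ≤ b ^ n := by positivity
        linarith

/-- **Recursion.** Induction on `s` from `LL3_base` (with `e = (b + b') H / M ≤ 1`, `e² ≤ e`). Step: with `n = 2^s`,
`A = 8X (∑_k fw H k ‖TT (DD (d k) ..)‖) / H`, `E = 32 X² e²`: `‖TT‖^(2n) ≤ (A + E)^n ≤ 2^n (A^n + E^n)`, `A^n ≤ (8X)^n (∑_k fw H k ‖TT ..‖^n) / H`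
(Jensen, the weights `fw H k / H` have total `1`: `inner_le_nnorm_mul_nnorm`-free, use `Finset.inner_mul_le_norm_mul_norm` or
`inner_pow_le`: `Real.inner_le_...`; simplest: `Real.pow_arith_mean_le_arith_mean_pow`), induction hypothesis for the families
`DD (d k) (U (cons false ·))` (bounded, product at `zv s` is `DD (d k)` of the product), and
`(∑_k fw H k NU X s H d (DD (d k) Φ)) / H = NU X (s + 1) H d Φ` (`MQ_NU`, `mq2_cons_re`). `E^n ≤ 32^n X^(2n) e`. -/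
theorem LL3_main (s : ℕ) (hs : 1 ≤ s) : ∃ C : ℝ, 1 ≤ C ∧ ∀ X M H b b' q : ℕ, 1 ≤ X → 1 ≤ M → 1 ≤ H → b * b' * q * H ≤ X →
    (b + b') * H ≤ M → ∀ U U' : (Fin s → Bool) → ℤ → ℂ, (∀ ω y, ‖U ω y‖ ≤ 1) → (∀ ω y, ‖U' ω y‖ ≤ 1) →
    (∀ y, y ∉ Ico (-(X : ℤ)) X → U (zv s) y * U' (zv s) y = 0) →
    ‖TT X M (b * q) (b' * q) U U'‖ ^ (2 ^ s) ≤ C * (X : ℝ) ^ (2 ^ s - 1) *
      (NU X s H (b * b' * q) (fun y => U (zv s) y * U' (zv s) y) + X * ((b + b') * H / M)) := by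
  induction s, hs using Nat.le_induction with
  | base =>
    refine ⟨32, by norm_num, ?_⟩
    intro X M H b b' q hX hM hH hd hbM U U' hU hU' h0
    have h1 := LL3_base X M H b b' q hM hH hd U U' hU hU' h0
    have hd' : (b * b' * q : ℤ) * H ≤ X := by exact_mod_cast hd
    have h2 := NU_nonneg X 1 H le_rfl hH (b * b' * q) (by positivity) hd' (fun y => U (zv 1) y * U' (zv 1) y) h0
    set N := NU X 1 H (b * b' * q) (fun y => U (zv 1) y * U' (zv 1) y) with hN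
    have hM' : (0 : ℝ) < M := by exact_mod_cast hM
    have hX' : (0 : ℝ) < X := by exact_mod_cast hX
    have he1 : ((b : ℝ) + b') * H / M ≤ 1 := by
      rw [div_le_one hM']
      exact_mod_cast hbM
    have he0 : 0 ≤ ((b : ℝ) + b') * H / M := by positivity
    set e : ℝ := ((b : ℝ) + b') * H / M with he
    have h3 : (2 * ((b : ℝ) + b') * H / M) ^ 2 ≤ 4 * e := by
      have h4 : 2 * ((b : ℝ) + b') * H / M = 2 * e := by
        rw [he]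
        ring
      rw [h4]
      nlinarith
    have h5 : ‖TT X M (b * q) (b' * q) U U'‖ ^ 2 ≤ 8 * X * N + 8 * (X : ℝ) ^ 2 * (4 * e) :=
      h1.trans (by
        have := mul_le_mul_of_nonneg_left h3 (by positivity : (0 : ℝ) ≤ 8 * (X : ℝ) ^ 2)
        linarith)
    have h6 : 8 * X * N + 8 * (X : ℝ) ^ 2 * (4 * e) ≤ 32 * (X : ℝ) ^ (2 ^ 1 - 1) * (N + X * e) := by
      norm_num
      nlinarith [mul_nonneg hX'.le h2]
    have h7 : (2 : ℕ) ^ 1 = 2 := by norm_num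
    rw [h7] at h6 ⊢
    exact h5.trans h6
  | succ s hs ih =>
    obtain ⟨C, hC1, hC⟩ := ih
    refine ⟨2 ^ (2 ^ s) * (8 ^ (2 ^ s) * C + 32 ^ (2 ^ s)), ?_, ?_⟩
    · have h1 : (1 : ℝ) ≤ 2 ^ (2 ^ s) := one_le_pow₀ (by norm_num)
      have h2 : (1 : ℝ) ≤ 32 ^ (2 ^ s) := one_le_pow₀ (by norm_num)
      have h3 : (0 : ℝ) ≤ 8 ^ (2 ^ s) * C := by positivity
      nlinarith
    intro X M H b b' q hX hM hH hd hbM U U' hU hU' h0
    have hM' : (0 : ℝ) < M := by exact_mod_cast hM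
    have hX' : (0 : ℝ) < X := by exact_mod_cast hX
    have hH' : (0 : ℝ) < H := by exact_mod_cast hH
    have hd' : (b * b' * q : ℤ) * H ≤ X := by exact_mod_cast hd
    have he1 : ((b : ℝ) + b') * H / M ≤ 1 := by
      rw [div_le_one hM']
      exact_mod_cast hbM
    have he0 : 0 ≤ ((b : ℝ) + b') * H / M := by positivity
    set e : ℝ := ((b : ℝ) + b') * H / M with he
    set n : ℕ := 2 ^ s with hn
    have hn1 : 1 ≤ n := Nat.one_le_two_pow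
    set Φ : ℤ → ℂ := fun y => U (zv (s + 1)) y * U' (zv (s + 1)) y with hΦ
    have hNU := NU_nonneg X (s + 1) H (by omega) hH (b * b' * q) (by positivity) hd' Φ h0
    set T : ℤ → ℂ := fun k => TT X M (b * q) (b' * q)
        (fun ω => DD (b * b' * q * k) (U (Fin.cons false ω : Fin (s + 1) → Bool)))
        (fun ω => DD (b * b' * q * k) (U' (Fin.cons false ω : Fin (s + 1) → Bool))) with hT
    have h1 := LL2_rec X M H b b' q s hM hH hd U U' hU hU' h0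
    have hfw : ∀ k, 0 ≤ fw H k := fun k => mq1_fw_nonneg H k
    set A : ℝ := 8 * X * ((∑ k ∈ Ioo (-(H : ℤ)) H, fw H k * ‖T k‖) / H) with hA
    have hA0 : 0 ≤ A := by
      have : 0 ≤ ∑ k ∈ Ioo (-(H : ℤ)) H, fw H k * ‖T k‖ := sum_nonneg fun k _ => mul_nonneg (hfw k) (norm_nonneg _)
      positivity
    have h2 : ‖TT X M (b * q) (b' * q) U U'‖ ^ 2 ≤ A + 32 * (X : ℝ) ^ 2 * e ^ 2 := by
      refine h1.trans ?_
      have h3 : (∑ k ∈ Ioo (-(H : ℤ)) H, fw H k * (T k).re) / H ≤ (∑ k ∈ Ioo (-(H : ℤ)) H, fw H k * ‖T k‖) / H := by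
        refine div_le_div_of_nonneg_right (sum_le_sum fun k _ => ?_) hH'.le
        exact mul_le_mul_of_nonneg_left (Complex.re_le_norm _) (hfw k)
      have h4 : 8 * (X : ℝ) ^ 2 * (2 * ((b : ℝ) + b') * H / M) ^ 2 = 32 * (X : ℝ) ^ 2 * e ^ 2 := by
        have h5 : 2 * ((b : ℝ) + b') * H / M = 2 * e := by
          rw [he]
          ring
        rw [h5]
        ring
      have h6 := mul_le_mul_of_nonneg_left h3 (by positivity : (0 : ℝ) ≤ 8 * X)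
      rw [h4]
      linarith
    have h7 : ‖TT X M (b * q) (b' * q) U U'‖ ^ (2 ^ (s + 1)) ≤ 2 ^ n * (A ^ n + (32 * (X : ℝ) ^ 2 * e ^ 2) ^ n) := by
      have h8 : (2 : ℕ) ^ (s + 1) = 2 * n := by
        rw [hn, pow_succ]
        ring
      rw [h8, pow_mul]
      exact (pow_le_pow_left₀ (by positivity) h2 n).trans (ll3_pow _ _ hA0 (by positivity) n)
    have hw1 : ∑ k ∈ Ioo (-(H : ℤ)) H, fw H k / H = 1 := by
      rw [← sum_div, mq1_fw_sum H hH, div_self hH'.ne']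
    have hAn : A ^ n ≤ (8 * X) ^ n * (C * (X : ℝ) ^ (n - 1) * (NU X (s + 1) H (b * b' * q) Φ + X * e)) := by
      rw [hA, mul_pow]
      refine mul_le_mul_of_nonneg_left ?_ (by positivity)
      have h9 : (∑ k ∈ Ioo (-(H : ℤ)) H, fw H k * ‖T k‖) / H = ∑ k ∈ Ioo (-(H : ℤ)) H, fw H k / H * ‖T k‖ := by
        rw [sum_div]
        exact sum_congr rfl fun k _ => by ring
      rw [h9]
      refine (Real.pow_arith_mean_le_arith_mean_pow _ _ _ (fun k _ => div_nonneg (hfw k) hH'.le) hw1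
        (fun k _ => norm_nonneg _) n).trans ?_
      have h10 : ∀ k ∈ Ioo (-(H : ℤ)) H, fw H k / H * ‖T k‖ ^ n ≤
          fw H k / H * (C * (X : ℝ) ^ (n - 1) * (NU X s H (b * b' * q) (DD (b * b' * q * k) Φ) + X * e)) := by
        intro k _
        refine mul_le_mul_of_nonneg_left ?_ (div_nonneg (hfw k) hH'.le)
        have h11 := hC X M H b b' q hX hM hH hd hbM
          (fun ω => DD (b * b' * q * k) (U (Fin.cons false ω : Fin (s + 1) → Bool)))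
          (fun ω => DD (b * b' * q * k) (U' (Fin.cons false ω : Fin (s + 1) → Bool)))
          (fun ω y => ll3_DDle _ _ (hU _) y) (fun ω y => ll3_DDle _ _ (hU' _) y)
          (fun y hy => by
            rw [ll3_fam]
            exact mq1_DD_supp h0 _ y hy)
        have h12 : (fun y => DD (b * b' * q * k : ℤ) (U (Fin.cons false (zv s) : Fin (s + 1) → Bool)) y *
            DD (b * b' * q * k : ℤ) (U' (Fin.cons false (zv s) : Fin (s + 1) → Bool)) y) = DD (b * b' * q * k : ℤ) Φ := by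
          funext y
          exact ll3_fam _ U U' y
        rw [h12] at h11
        exact h11
      refine (sum_le_sum h10).trans (le_of_eq ?_)
      rw [ll3_NU X s H hH]
      have h13 : ∀ k ∈ Ioo (-(H : ℤ)) H, fw H k / H * (C * (X : ℝ) ^ (n - 1) * (NU X s H (b * b' * q) (DD (b * b' * q * k) Φ) + X * e)) =
          C * (X : ℝ) ^ (n - 1) * (fw H k * NU X s H (b * b' * q) (DD (b * b' * q * k) Φ) / H) +
            C * (X : ℝ) ^ (n - 1) * (X * e) * (fw H k / H) := by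
        intro k _
        ring
      rw [sum_congr rfl h13, sum_add_distrib, ← mul_sum, ← mul_sum, hw1, ← sum_div]
      ring
    have hEn : (32 * (X : ℝ) ^ 2 * e ^ 2) ^ n ≤ 32 ^ n * ((X : ℝ) ^ (2 * n) * e) := by
      rw [mul_pow, mul_pow, ← pow_mul, ← pow_mul, mul_assoc]
      refine mul_le_mul_of_nonneg_left ?_ (by positivity)
      refine mul_le_mul_of_nonneg_left ?_ (by positivity)
      calc e ^ (2 * n) ≤ e ^ 1 := pow_le_pow_of_le_one he0 he1 (by omega)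
        _ = e := pow_one e
    have hXe : 0 ≤ X * e := by positivity
    have h14 : (2 : ℕ) ^ (s + 1) - 1 = n + (n - 1) := by
      rw [pow_succ]
      omega
    have h15 : (X : ℝ) ^ (2 * n) = (X : ℝ) ^ (n + (n - 1)) * X := by
      rw [← pow_succ]
      congr 1
      omega
    rw [h14]
    calc ‖TT X M (b * q) (b' * q) U U'‖ ^ (2 ^ (s + 1)) ≤ 2 ^ n * (A ^ n + (32 * (X : ℝ) ^ 2 * e ^ 2) ^ n) := h7
      _ ≤ 2 ^ n * ((8 * X) ^ n * (C * (X : ℝ) ^ (n - 1) * (NU X (s + 1) H (b * b' * q) Φ + X * e)) +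
          32 ^ n * ((X : ℝ) ^ (2 * n) * e)) := by
        refine mul_le_mul_of_nonneg_left (add_le_add hAn hEn) (by positivity)
      _ = 2 ^ n * (8 ^ n * C * (X : ℝ) ^ (n + (n - 1)) * (NU X (s + 1) H (b * b' * q) Φ + X * e) +
          32 ^ n * (X : ℝ) ^ (n + (n - 1)) * (X * e)) := by
        rw [h15, mul_pow, pow_add]
        ring
      _ ≤ 2 ^ n * (8 ^ n * C * (X : ℝ) ^ (n + (n - 1)) * (NU X (s + 1) H (b * b' * q) Φ + X * e) +
          32 ^ n * (X : ℝ) ^ (n + (n - 1)) * (NU X (s + 1) H (b * b' * q) Φ + X * e)) := by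
        refine mul_le_mul_of_nonneg_left ?_ (by positivity)
        have h16 := mul_le_mul_of_nonneg_left (by linarith : X * e ≤ NU X (s + 1) H (b * b' * q) Φ + X * e)
          (by positivity : (0 : ℝ) ≤ 32 ^ n * (X : ℝ) ^ (n + (n - 1)))
        linarith
      _ = 2 ^ n * (8 ^ n * C + 32 ^ n) * (X : ℝ) ^ (n + (n - 1)) * (NU X (s + 1) H (b * b' * q) Φ + X * e) := by
        ring

end Pool.Agent.HUK
end

-- from Lib.HUK.LL7a
section

/-!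
# Project HUK, chunk LL7a (M): one pair of directions, preparations
-/

open Finset

namespace Pool.Agent.HUK

private theorem ll7_DL {l : List ℤ} (a : ℤ) (g : ℤ → ℂ) : DL l (fun y => g (y + a)) = fun y => DL l g (y + a) := by
  induction l generalizing g with
  | nil => rfl
  | cons h l ih =>
    show DL l (DD h (fun y => g (y + a))) = fun y => DL l (DD h g) (y + a)
    rw [← ih (DD h g)]
    congr 1
    funext y
    show g (y + a) * (starRingEnd ℂ) (g (y + h + a)) = g (y + a) * (starRingEnd ℂ) (g (y + a + h))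
    rw [show y + h + a = y + a + h by ring]

private theorem ll7_FF (X X' s : ℕ) (a : ℤ) (h : Fin s → ℤ) (g : ℤ → ℂ) (hg : ∀ y, y ∉ Ico (-(X : ℤ)) X → g y = 0)
    (hg' : ∀ y, y ∉ Ico (-(X' : ℤ)) X' → g (y + a) = 0) : FF X' h (fun y => g (y + a)) = FF X h g := by
  unfold FF DV
  rw [ll7_DL]
  refine Finset.sum_bij_ne_zero (fun z _ _ => z + a) ?_ ?_ ?_ ?_
  · intro z _ hne
    by_contra hc
    exact hne (DL_supp _ g _ (hg _ hc))
  · intro z _ _ w _ _ hzw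
    have : z + a = w + a := hzw
    omega
  · intro z _ hne
    refine ⟨z - a, ?_, ?_, ?_⟩
    · by_contra hc
      apply hne
      have := hg' _ hc
      rw [sub_add_cancel] at this
      exact DL_supp _ g _ this
    · show DL _ g (z - a + a) ≠ 0
      rwa [sub_add_cancel]
    · show z - a + a = z
      ring
  · intro z _ _
    rfl

private theorem ll7_sg (s : ℕ) : sg (zv s) = 0 := by
  unfold sg zv
  simp

private theorem ll7_bx0 (M : ℕ) : bxS 0 M = {fun i => i.elim0} := by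
  ext x
  simp only [bxS, Fintype.mem_piFinset, mem_singleton]
  constructor
  · intro _
    funext i
    exact i.elim0
  · intro _ i
    exact i.elim0

private theorem ll7_TT0 (X M : ℕ) (β β' : ℤ) (U U' : (Fin 0 → Bool) → ℤ → ℂ) :
    TT X M β β' U U' = ∑ y ∈ Ico (-(X : ℤ)) X, U (zv 0) y * U' (zv 0) y := by
  have hPV : ∀ (γ : ℤ) (V : (Fin 0 → Bool) → ℤ → ℂ) (t : Fin 0 → ℤ) (y : ℤ), PV γ V t y = V (zv 0) y := by
    intro γ V t y
    unfold PV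
    rw [Fintype.prod_eq_single (zv 0) (fun ω hω => absurd (Subsingleton.elim ω (zv 0)) hω)]
    simp [vt]
  unfold TT
  rw [ll7_bx0]
  simp only [sum_singleton, hPV, FW, univ_eq_empty, prod_empty, mul_one, Complex.ofReal_one, one_mul, mul_zero, pow_zero,
    div_one]

/-- Translation (as `GG_shift`; `FF X (h) g = ∑_{y ∈ ℤ} DV h g y` whenever `g` is supported in `[-X, X)`, `DL_supp`). -/
theorem LL7_shift (X X' s H : ℕ) (d a : ℤ) (g : ℤ → ℂ) (hg : ∀ y, y ∉ Ico (-(X : ℤ)) X → g y = 0)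
    (hg' : ∀ y, y ∉ Ico (-(X' : ℤ)) X' → g (y + a) = 0) : NU X' s H d (fun y => g (y + a)) = NU X s H d g := by
  unfold NU
  congr 2
  exact Finset.sum_congr rfl fun t _ => by rw [ll7_FF X X' s a _ g hg hg']

/-- The product at the vertex `0`: `conj f(y + β t) f(y + β' t') = DD (β t - β' t') f (y + β' t')` (`sg (zv s) = 0`). -/
theorem LL7_Uf (s : ℕ) (f : ℤ → ℂ) (z z' y : ℤ) :
    Uf (s := s) f z (zv s) y * cU (Uf (s := s) f z') (zv s) y = DD (z - z') f (y + z') := by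
  unfold cU Uf
  rw [if_pos rfl, ll7_sg, one_mul, one_mul, zero_add]
  have h1 : ∀ w : ℂ, cj 1 w = (starRingEnd ℂ) w := by
    intro w
    unfold cj
    rw [if_neg (by decide)]
  rw [h1, h1, Complex.conj_conj]
  show (starRingEnd ℂ) (f (y + z)) * f (y + z') = f (y + z') * (starRingEnd ℂ) (f (y + z' + (z - z')))
  rw [show y + z' + (z - z') = y + z by ring, mul_comm]

/-- `s = 0`: `TT` is `∑_y Uf .. * cU .. = ∑_{y ∈ [-X,X)} DD (q (b t - b' t')) f y` (`LL7_Uf`, translation by `b' q t'`, `|b q t| ≤ X`), then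
`LL5_last` with `g = f`, and `MQ_one`. -/
theorem LL7_zero (X M K R b b' q : ℕ) (hM : 1 ≤ M) (hK : 1 ≤ K) (hR : 1 ≤ R) (hb : b ∈ Ioc K (2 * K))
    (hb' : b' ∈ Ioc K (2 * K)) (hq : q * Nat.gcd b b' * R ≤ X) (hKM : 2 * q * K * M ≤ X) (f : ℤ → ℂ) (hf : Bdd X f) :
    SPd X 0 M (b * q) (b' * q) f ≤ (MQ X [(R, ((q * Nat.gcd b b' : ℕ) : ℤ))] f).re +
      4 * X * ((4 * K + Nat.gcd b b' * R / K) / M) := by
  have hγ : ((q * Nat.gcd b b' : ℕ) : ℤ) * R ≤ X := by exact_mod_cast hq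
  rw [MQ_one X R hR _ (by positivity) hγ f hf.sup, Complex.ofReal_re]
  refine le_trans (le_of_eq ?_) (LL5_last X M K R b b' q hM hK hR hb hb' hq f hf)
  unfold SPd
  congr 2
  refine Finset.sum_congr rfl fun t _ => Finset.sum_congr rfl fun t' ht' => ?_
  congr 1
  rw [ll7_TT0]
  have hb2 : ((b' * q : ℤ) * t') ≤ X ∧ -(X : ℤ) ≤ ((b' * q : ℤ) * t') := by
    rw [mem_Ioo] at ht'
    rw [mem_Ioc] at hb'
    have h1 : (b' : ℤ) * q * M ≤ X := by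
      have h2 : b' * q * M ≤ 2 * q * K * M := by
        have h3 : b' * q ≤ 2 * K * q := Nat.mul_le_mul_right q hb'.2
        calc b' * q * M ≤ 2 * K * q * M := Nat.mul_le_mul_right M h3
          _ = 2 * q * K * M := by ring
      exact_mod_cast h2.trans hKM
    have h0 : (0 : ℤ) ≤ (b' : ℤ) * q := by positivity
    constructor
    · exact (mul_le_mul_of_nonneg_left ht'.2.le h0).trans h1
    · have h4 := mul_le_mul_of_nonneg_left ht'.1.le h0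
      linarith
  have h5 : ∑ y ∈ Ico (-(X : ℤ)) X, DD ((q : ℤ) * (b * t - b' * t')) f y =
      ∑ z ∈ Ico (-(2 * X : ℤ)) (2 * X), DD ((q : ℤ) * (b * t - b' * t')) f (z + (b' * q : ℤ) * t') :=
    ll5_win (-(X : ℤ)) X (-(2 * X : ℤ)) (2 * X) ((b' * q : ℤ) * t') (DD ((q : ℤ) * (b * t - b' * t')) f)
      (mq1_DD_supp hf.sup _) (by linarith [hb2.1]) (by linarith [hb2.2])
  rw [h5]
  push_cast
  refine Finset.sum_congr rfl fun y _ => ?_
  rw [LL7_Uf 0 f ((b : ℤ) * q * t) ((b' : ℤ) * q * t') y]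
  rw [show (b : ℤ) * q * t - (b' : ℤ) * q * t' = (q : ℤ) * (b * t - b' * t') by ring]

end Pool.Agent.HUK
end

-- from Lib.HUK.LL7
section

/-!
# Project HUK, chunk LL7 (M/L): one pair of directions
-/

open Finset

namespace Pool.Agent.HUK

theorem ll7_swap {ι κ : Type*} (S : Finset ι) (T : Finset κ) (w : ι → ℂ) (v : κ → ℂ) (A : κ → ι → ℂ) (P Q : ℂ) :
    (∑ x ∈ S, w x * ((∑ k ∈ T, v k * A k x) / P)) / Q = (∑ k ∈ T, v k * ((∑ x ∈ S, w x * A k x) / Q)) / P := by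
  simp only [Finset.sum_div, Finset.mul_sum]
  rw [Finset.sum_comm]
  refine sum_congr rfl fun k _ => sum_congr rfl fun x _ => ?_
  ring

theorem ll7_re {ι : Type*} (S : Finset ι) (w : ι → ℝ) (z : ι → ℂ) (M : ℕ) :
    ((∑ x ∈ S, ((w x : ℝ) : ℂ) * z x) / (M : ℂ) ^ 2).re = (∑ x ∈ S, w x * (z x).re) / (M : ℝ) ^ 2 := by
  have h1 : (M : ℂ) ^ 2 = ((M ^ 2 : ℕ) : ℂ) := by
    push_cast
    rfl
  rw [h1, Complex.div_natCast_re, Complex.re_sum]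
  push_cast
  congr 1
  refine sum_congr rfl fun x _ => ?_
  rw [Complex.re_ofReal_mul]

theorem ll7_last (X M K R b b' q : ℕ) (hM : 1 ≤ M) (hK : 1 ≤ K) (hR : 1 ≤ R) (hb : b ∈ Ioc K (2 * K))
    (hb' : b' ∈ Ioc K (2 * K)) (hq : q * Nat.gcd b b' * R ≤ X) (l : List (ℕ × ℤ)) (hp : ∀ p ∈ l, 1 ≤ p.1) :
    ∀ g : ℤ → ℂ, Bdd X g →
    ((∑ x ∈ Ioo (-(M : ℤ)) M ×ˢ Ioo (-(M : ℤ)) M, ((fw M x.1 * fw M x.2 : ℝ) : ℂ) *
      MQ X l (DD ((q : ℤ) * (b * x.1 - b' * x.2)) g)) / (M : ℂ) ^ 2).re ≤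
      (MQ X (l ++ [(R, ((q * Nat.gcd b b' : ℕ) : ℤ))]) g).re + 4 * X * ((4 * K + Nat.gcd b b' * R / K) / M) := by
  induction l with
  | nil =>
    intro g hg
    have h1 := LL5_last X M K R b b' q hM hK hR hb hb' hq g hg
    rw [List.nil_append, MQ_one X R hR _ (by positivity) (by exact_mod_cast hq) g hg.sup, Complex.ofReal_re]
    rw [Finset.sum_product]
    exact h1
  | cons p l ih =>
    intro g hg
    have hp1 : 1 ≤ p.1 := hp p List.mem_cons_self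
    have hp' : (0 : ℝ) < p.1 := by exact_mod_cast hp1
    have ih' := ih fun p' h' => hp p' (List.mem_cons_of_mem _ h')
    rw [List.cons_append, mq2_cons_re]
    obtain ⟨E, hE⟩ : ∃ E : ℝ, E = 4 * X * ((4 * K + Nat.gcd b b' * R / K) / M) := ⟨_, rfl⟩
    rw [← hE] at ih' ⊢
    have h1 : ∀ x ∈ Ioo (-(M : ℤ)) M ×ˢ Ioo (-(M : ℤ)) M, ((fw M x.1 * fw M x.2 : ℝ) : ℂ) *
        MQ X (p :: l) (DD ((q : ℤ) * (b * x.1 - b' * x.2)) g) = ((fw M x.1 * fw M x.2 : ℝ) : ℂ) *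
        ((∑ k ∈ Ioo (-(p.1 : ℤ)) p.1, ((fw p.1 k : ℝ) : ℂ) *
          MQ X l (DD ((q : ℤ) * (b * x.1 - b' * x.2)) (DD (p.2 * k) g))) / (p.1 : ℂ)) := by
      intro x _
      congr 1
      show (∑ t ∈ Ioo (-(p.1 : ℤ)) p.1, ((fw p.1 t : ℝ) : ℂ) *
        MQ X l (DD (p.2 * t) (DD ((q : ℤ) * (b * x.1 - b' * x.2)) g))) / (p.1 : ℂ) = _
      congr 1
      refine sum_congr rfl fun k _ => ?_
      rw [mq1_DD_comm]
    rw [sum_congr rfl h1, ll7_swap, Complex.div_natCast_re, Complex.re_sum]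
    calc (∑ k ∈ Ioo (-(p.1 : ℤ)) p.1, (((fw p.1 k : ℝ) : ℂ) *
          ((∑ x ∈ Ioo (-(M : ℤ)) M ×ˢ Ioo (-(M : ℤ)) M, ((fw M x.1 * fw M x.2 : ℝ) : ℂ) *
            MQ X l (DD ((q : ℤ) * (b * x.1 - b' * x.2)) (DD (p.2 * k) g))) / (M : ℂ) ^ 2)).re) / (p.1 : ℝ) ≤
          (∑ k ∈ Ioo (-(p.1 : ℤ)) p.1, (fw p.1 k * (MQ X (l ++ [(R, ((q * Nat.gcd b b' : ℕ) : ℤ))])
            (DD (p.2 * k) g)).re + fw p.1 k * E)) / (p.1 : ℝ) := by
          refine div_le_div_of_nonneg_right (Finset.sum_le_sum fun k _ => ?_) hp'.le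
          rw [Complex.re_ofReal_mul]
          have h2 := mul_le_mul_of_nonneg_left (ih' _ (Bdd_DD hg (p.2 * k))) (mq2_fw_nonneg p.1 k)
          refine h2.trans (le_of_eq ?_)
          ring
      _ = (∑ k ∈ Ioo (-(p.1 : ℤ)) p.1, fw p.1 k * (MQ X (l ++ [(R, ((q * Nat.gcd b b' : ℕ) : ℤ))])
            (DD (p.2 * k) g)).re) / (p.1 : ℝ) + E := by
          rw [Finset.sum_add_distrib, ← Finset.sum_mul, mq2_fw_sum p.1 hp1]
          field_simp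

theorem ll7_DD0 (h : ℤ) (f : ℤ → ℂ) (y : ℤ) (hy : f y = 0) : DD h f y = 0 := by
  simp only [DD, hy, zero_mul]

theorem ll7_cj (n : ℕ) (z : ℂ) : ‖cj n z‖ = ‖z‖ := by
  unfold cj
  split_ifs
  · rfl
  · exact RCLike.norm_conj z

theorem ll7_Uf_le {s : ℕ} (f : ℤ → ℂ) (hf : ∀ y, ‖f y‖ ≤ 1) (z : ℤ) (ω : Fin s → Bool) (y : ℤ) :
    ‖Uf (s := s) f z ω y‖ ≤ 1 := by
  unfold Uf
  rw [norm_mul, ll7_cj]
  refine mul_le_one₀ ?_ (norm_nonneg _) (hf _)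
  split_ifs
  · rw [norm_one]
  · rw [ll7_cj]
    exact hf _

theorem ll7_num (n : ℕ) (hn : 1 ≤ n) (X C m e1 e2 e3 : ℝ) (hX : 0 ≤ X) (hC : 0 ≤ C) (hm : 0 ≤ m) (he3 : 0 ≤ e3)
    (he : 4 * X * e1 + 2 * X * e2 ≤ 16 * (X * e3)) :
    C * (2 * X) ^ (n - 1) * ((m + 4 * X * e1) + 2 * X * e2) ≤ 16 * 2 ^ n * C * X ^ (n - 1) * (m + X * e3) := by
  have h1 : (2 * X) ^ (n - 1) ≤ 2 ^ n * X ^ (n - 1) := by
    rw [mul_pow]
    refine mul_le_mul_of_nonneg_right ?_ (by positivity)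
    exact pow_le_pow_right₀ (by norm_num) (by omega)
  have h2 : (m + 4 * X * e1) + 2 * X * e2 ≤ 16 * (m + X * e3) := by linarith
  have h3 : 0 ≤ C * (2 * X) ^ (n - 1) := by positivity
  have h4 : 0 ≤ 16 * (m + X * e3) := by positivity
  calc C * (2 * X) ^ (n - 1) * ((m + 4 * X * e1) + 2 * X * e2) ≤ C * (2 * X) ^ (n - 1) * (16 * (m + X * e3)) :=
        mul_le_mul_of_nonneg_left h2 h3
      _ ≤ C * (2 ^ n * X ^ (n - 1)) * (16 * (m + X * e3)) :=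
        mul_le_mul_of_nonneg_right (mul_le_mul_of_nonneg_left h1 hC) h4
      _ = 16 * 2 ^ n * C * X ^ (n - 1) * (m + X * e3) := by ring

/-- `s ≥ 1`. `d = b b' q`, `γ = gcd`. `(max 0 SPd)^n ≤ (∑ fw fw ‖TT‖ / M²)^n ≤ (∑ fw fw ‖TT‖^n) / M²` (`n = 2^s`, Jensen, total weight 1), `LL3_main` for
`2X` in place of `X`: product of the vertices `0` supported in `[-2X, 2X)` (`|b q t| ≤ 2 K q M ≤ X`); `LL7_Uf`, `LL7_shift`:
`NU (2X) s H d (..) = NU X s H d (DD (q (b t - b' t')) f)`; then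
`(∑_{t,t'} fw fw NU X s H d (DD (q (b t - b' t')) f)) / M² = (∑_k FW H k (∑_{t,t'} fw fw ∑_y DD (q (..)) (DV (d k) f) y).re / M²) / H^s` and `LL5_last` for
`g = DV (d k) f` (`Bdd_DV`; `DD h (DV k f) = DV k (DD h f)`, `D0`/`P0`); finally `mq2_rep`, `MQ_one`, `MQ_perm`: the main term is
`MQ X ((R, q γ) :: replicate s (H, d)) f`. Errors: `2X (b + b') H / M ≤ 8 X K H / M` and `4X (4K + γ R / K) / M`. -/
theorem LL7_pair (s : ℕ) : ∃ C : ℝ, 1 ≤ C ∧ ∀ X M K H R b b' q : ℕ, 1 ≤ X → 1 ≤ M → 1 ≤ K → 1 ≤ H → 1 ≤ R →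
    b ∈ Ioc K (2 * K) → b' ∈ Ioc K (2 * K) → q * Nat.gcd b b' * R ≤ X → 2 * q * K * M ≤ X → b * b' * q * H ≤ X →
    4 * K * H ≤ M → ∀ f : ℤ → ℂ, Bdd X f →
    (max 0 (SPd X s M (b * q) (b' * q) f)) ^ (2 ^ s) ≤ C * (X : ℝ) ^ (2 ^ s - 1) *
      ((MQ X ((R, ((q * Nat.gcd b b' : ℕ) : ℤ)) :: List.replicate s (H, ((b * b' * q : ℕ) : ℤ))) f).re +
        X * ((K * H + K + Nat.gcd b b' * R / K) / M)) := by
  rcases Nat.eq_zero_or_pos s with rfl | hs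
  · refine ⟨16, by norm_num, ?_⟩
    intro X M K H R b b' q hX hM hK hH hR hb hb' hq hKM hbH hKH f hf
    have h1 := LL7_zero X M K R b b' q hM hK hR hb hb' hq hKM f hf
    obtain ⟨m, hm0, hm⟩ := MQ_nonneg X [(R, ((q * Nat.gcd b b' : ℕ) : ℤ))] (List.cons_ne_nil _ _) (by
      intro p hp
      rw [List.mem_singleton] at hp
      subst hp
      refine ⟨hR, by positivity, ?_⟩
      show ((q * Nat.gcd b b' : ℕ) : ℤ) * (R : ℤ) ≤ X
      exact_mod_cast hq) f hf.sup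
    rw [hm, Complex.ofReal_re] at h1
    rw [pow_zero, pow_one, List.replicate_zero, hm, Complex.ofReal_re, Nat.sub_self, pow_zero, mul_one]
    have hX0 : (0 : ℝ) < X := by exact_mod_cast hX
    have hM0 : (0 : ℝ) < M := by exact_mod_cast hM
    have hK0 : (0 : ℝ) < K := by exact_mod_cast hK
    have hH0 : (0 : ℝ) < H := by exact_mod_cast hH
    have hg0 : (0 : ℝ) ≤ (Nat.gcd b b' : ℝ) * R / K := by positivity
    have h2 : (4 * (K : ℝ) + Nat.gcd b b' * R / K) / M ≤ 4 * ((K * H + K + Nat.gcd b b' * R / K) / M) := by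
      rw [← mul_div_assoc]
      refine div_le_div_of_nonneg_right ?_ hM0.le
      have : 0 ≤ (K : ℝ) * H := by positivity
      linarith
    have h3 : 0 ≤ ((K : ℝ) * H + K + Nat.gcd b b' * R / K) / M := by positivity
    refine max_le (by positivity) (h1.trans ?_)
    have h4 := mul_le_mul_of_nonneg_left h2 (by positivity : (0 : ℝ) ≤ 4 * X)
    nlinarith
  obtain ⟨C, hC1, hC⟩ := LL3_main s hs
  have hn1 : 1 ≤ 2 ^ s := Nat.one_le_two_pow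
  refine ⟨16 * 2 ^ (2 ^ s) * C, ?_, ?_⟩
  · have h1 : (1 : ℝ) ≤ 2 ^ (2 ^ s) := one_le_pow₀ (by norm_num)
    nlinarith
  intro X M K H R b b' q hX hM hK hH hR hb hb' hq hKM hbH hKH f hf
  have hX0 : (0 : ℝ) < X := by exact_mod_cast hX
  have hM0 : (0 : ℝ) < M := by exact_mod_cast hM
  have hK0 : (0 : ℝ) < K := by exact_mod_cast hK
  have hH0 : (0 : ℝ) < H := by exact_mod_cast hH
  have hb1 := mem_Ioc.1 hb
  have hb2 := mem_Ioc.1 hb'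
  set L : List (ℕ × ℤ) := List.replicate s (H, ((b * b' * q : ℕ) : ℤ)) with hL
  have hLp : ∀ p ∈ L, p = (H, ((b * b' * q : ℕ) : ℤ)) := fun p hp => (List.mem_replicate.1 hp).2
  obtain ⟨m, hm0, hm⟩ := MQ_nonneg X ((R, ((q * Nat.gcd b b' : ℕ) : ℤ)) :: L) (List.cons_ne_nil _ _) (by
    intro p hp
    rcases List.mem_cons.1 hp with h | h
    · subst h
      refine ⟨hR, by positivity, ?_⟩
      show ((q * Nat.gcd b b' : ℕ) : ℤ) * (R : ℤ) ≤ X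
      exact_mod_cast hq
    · rw [hLp p h]
      refine ⟨hH, by positivity, ?_⟩
      show ((b * b' * q : ℕ) : ℤ) * (H : ℤ) ≤ X
      exact_mod_cast hbH) f hf.sup
  rw [hm, Complex.ofReal_re]
  -- the last coordinate
  have hlast := ll7_last X M K R b b' q hM hK hR hb hb' hq L (fun p hp => by rw [hLp p hp]; exact hH) f hf
  rw [← MQ_perm X (List.perm_append_singleton (R, ((q * Nat.gcd b b' : ℕ) : ℤ)) L).symm f, hm, Complex.ofReal_re,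
    ll7_re _ (fun x : ℤ × ℤ => fw M x.1 * fw M x.2)] at hlast
  set S : Finset (ℤ × ℤ) := Ioo (-(M : ℤ)) M ×ˢ Ioo (-(M : ℤ)) M with hS
  set T : ℤ × ℤ → ℂ := fun x => TT (2 * X) M (b * q) (b' * q) (Uf (s := s) f (b * q * x.1))
    (cU (Uf (s := s) f (b' * q * x.2))) with hT
  have hw0 : ∀ x : ℤ × ℤ, 0 ≤ fw M x.1 * fw M x.2 := fun x => mul_nonneg (mq2_fw_nonneg M _) (mq2_fw_nonneg M _)
  have hws : ∑ x ∈ S, fw M x.1 * fw M x.2 = (M : ℝ) ^ 2 := by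
    rw [hS, Finset.sum_product, ← Finset.sum_mul_sum, mq2_fw_sum M hM]
    ring
  have hSP : SPd X s M (b * q) (b' * q) f ≤ ∑ x ∈ S, fw M x.1 * fw M x.2 / (M : ℝ) ^ 2 * ‖T x‖ := by
    unfold SPd
    rw [← Finset.sum_product' (Ioo (-(M : ℤ)) M) (Ioo (-(M : ℤ)) M) (fun t t' => ((fw M t * fw M t' : ℝ) : ℂ) *
      TT (2 * X) M (b * q) (b' * q) (Uf (s := s) f (b * q * t)) (cU (Uf (s := s) f (b' * q * t')))),
      ll7_re _ (fun x : ℤ × ℤ => fw M x.1 * fw M x.2), Finset.sum_div]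
    refine Finset.sum_le_sum fun x _ => ?_
    rw [div_mul_eq_mul_div]
    refine div_le_div_of_nonneg_right ?_ (by positivity)
    exact mul_le_mul_of_nonneg_left (Complex.re_le_norm _) (hw0 x)
  have hSP0 : 0 ≤ ∑ x ∈ S, fw M x.1 * fw M x.2 / (M : ℝ) ^ 2 * ‖T x‖ := by
    refine Finset.sum_nonneg fun x _ => ?_
    have := hw0 x
    positivity
  have hJ := Real.pow_arith_mean_le_arith_mean_pow S (fun x => fw M x.1 * fw M x.2 / (M : ℝ) ^ 2) (fun x => ‖T x‖)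
    (fun x _ => by
      have := hw0 x
      positivity) (by
      rw [← Finset.sum_div, hws]
      exact div_self (by positivity)) (fun x _ => norm_nonneg _) (2 ^ s)
  -- the bound for one pair
  have hbb : (b + b') * H ≤ M := by
    refine le_trans (Nat.mul_le_mul_right H ?_) hKH
    omega
  have hpt : ∀ x ∈ S, ‖T x‖ ^ (2 ^ s) ≤ C * (2 * (X : ℝ)) ^ (2 ^ s - 1) *
      ((MQ X L (DD ((q : ℤ) * (b * x.1 - b' * x.2)) f)).re + 2 * X * (((b : ℝ) + b') * H / M)) := by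
    intro x hx
    rw [hS, mem_product, mem_Ioo, mem_Ioo] at hx
    have hz' : |(b' : ℤ) * q * x.2| ≤ X := by
      rw [abs_mul, abs_of_nonneg (by positivity : (0 : ℤ) ≤ (b' : ℤ) * q)]
      have h1 : |x.2| ≤ M := abs_le.2 ⟨hx.2.1.le, hx.2.2.le⟩
      calc (b' : ℤ) * q * |x.2| ≤ b' * q * M := mul_le_mul_of_nonneg_left h1 (by positivity)
        _ ≤ ((2 * q * K * M : ℕ) : ℤ) := by
          have h2 : b' * q * M ≤ 2 * q * K * M := by
            refine Nat.mul_le_mul_right M ?_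
            calc b' * q ≤ (2 * K) * q := Nat.mul_le_mul_right q hb2.2
              _ = 2 * q * K := by ring
          exact_mod_cast h2
        _ ≤ X := by exact_mod_cast hKM
    have hz'' := abs_le.1 hz'
    have hfun : (fun y => Uf (s := s) f (b * q * x.1) (zv s) y * cU (Uf (s := s) f (b' * q * x.2)) (zv s) y) =
        fun y => DD ((q : ℤ) * (b * x.1 - b' * x.2)) f (y + b' * q * x.2) := by
      funext y
      rw [LL7_Uf]
      congr 1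
      ring
    have hsup : ∀ y, y ∉ Ico (-((2 * X : ℕ) : ℤ)) ((2 * X : ℕ) : ℤ) →
        DD ((q : ℤ) * (b * x.1 - b' * x.2)) f (y + b' * q * x.2) = 0 := by
      intro y hy
      refine ll7_DD0 _ _ _ (hf.sup _ fun h => hy ?_)
      rw [mem_Ico] at h ⊢
      push_cast
      constructor <;> linarith [h.1, h.2]
    have h1 := hC (2 * X) M H b b' q (by omega) hM hH (by omega) hbb (Uf (s := s) f (b * q * x.1))
      (cU (Uf (s := s) f (b' * q * x.2))) (fun ω y => ll7_Uf_le f hf.le _ ω y) (fun ω y => by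
        unfold cU
        rw [RCLike.norm_conj]
        exact ll7_Uf_le f hf.le _ ω y) (fun y hy => (congrFun hfun y).trans (hsup y hy))
    rw [hfun, LL7_shift X (2 * X) s H _ (b' * q * x.2) (DD ((q : ℤ) * (b * x.1 - b' * x.2)) f)
      (fun y hy => ll7_DD0 _ _ _ (hf.sup y hy)) hsup, ← MQ_NU X s H hH] at h1
    push_cast at h1
    have h3 : ((b : ℤ) * b' * q) = ((b * b' * q : ℕ) : ℤ) := by push_cast; rfl
    rw [h3] at h1
    exact h1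
  refine (pow_le_pow_left₀ (le_max_left _ _) (max_le hSP0 hSP) _).trans (hJ.trans ?_)
  have hfin : ∑ x ∈ S, fw M x.1 * fw M x.2 / (M : ℝ) ^ 2 * ‖T x‖ ^ (2 ^ s) ≤ C * (2 * (X : ℝ)) ^ (2 ^ s - 1) *
      ((m + 4 * X * ((4 * K + Nat.gcd b b' * R / K) / M)) + 2 * X * (((b : ℝ) + b') * H / M)) := by
    calc ∑ x ∈ S, fw M x.1 * fw M x.2 / (M : ℝ) ^ 2 * ‖T x‖ ^ (2 ^ s) ≤
        ∑ x ∈ S, fw M x.1 * fw M x.2 / (M : ℝ) ^ 2 * (C * (2 * (X : ℝ)) ^ (2 ^ s - 1) *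
          ((MQ X L (DD ((q : ℤ) * (b * x.1 - b' * x.2)) f)).re + 2 * X * (((b : ℝ) + b') * H / M))) := by
          refine Finset.sum_le_sum fun x hx => mul_le_mul_of_nonneg_left (hpt x hx) ?_
          have := hw0 x
          positivity
      _ = C * (2 * (X : ℝ)) ^ (2 ^ s - 1) * ((∑ x ∈ S, fw M x.1 * fw M x.2 *
          (MQ X L (DD ((q : ℤ) * (b * x.1 - b' * x.2)) f)).re) / (M : ℝ) ^ 2 +
          (∑ x ∈ S, fw M x.1 * fw M x.2) / (M : ℝ) ^ 2 * (2 * X * (((b : ℝ) + b') * H / M))) := by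
          rw [Finset.sum_div, Finset.sum_div, Finset.sum_mul, ← Finset.sum_add_distrib, Finset.mul_sum]
          refine sum_congr rfl fun x _ => ?_
          ring
      _ ≤ C * (2 * (X : ℝ)) ^ (2 ^ s - 1) *
          ((m + 4 * X * ((4 * K + Nat.gcd b b' * R / K) / M)) + 2 * X * (((b : ℝ) + b') * H / M)) := by
          refine mul_le_mul_of_nonneg_left ?_ (by positivity)
          rw [hws, div_self (by positivity), one_mul]
          linarith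
  refine hfin.trans ?_
  refine ll7_num (2 ^ s) hn1 X C m _ _ _ hX0.le (by linarith) hm0 (by positivity) ?_
  have hbr : (b : ℝ) + b' ≤ 4 * K := by
    have : b + b' ≤ 4 * K := by omega
    exact_mod_cast this
  have h5 : ((b : ℝ) + b') * H / M ≤ 4 * (K * H / M) := by
    rw [← mul_div_assoc]
    refine div_le_div_of_nonneg_right ?_ hM0.le
    nlinarith
  have hg0 : (0 : ℝ) ≤ (Nat.gcd b b' : ℝ) * R / K / M := by positivity
  have hk0 : (0 : ℝ) ≤ (K : ℝ) * H / M := by positivity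
  have hk1 : (0 : ℝ) ≤ (K : ℝ) / M := by positivity
  have e1 : (4 * (K : ℝ) + Nat.gcd b b' * R / K) / M = 4 * (K / M) + Nat.gcd b b' * R / K / M := by ring
  have e2 : ((K : ℝ) * H + K + Nat.gcd b b' * R / K) / M = K * H / M + K / M + Nat.gcd b b' * R / K / M := by ring
  rw [e1, e2]
  have h6 := mul_le_mul_of_nonneg_left h5 hX0.le
  have h7 := mul_nonneg hX0.le hg0
  have h8 := mul_nonneg hX0.le hk0
  have h9 := mul_nonneg hX0.le hk1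
  linarith

end Pool.Agent.HUK
end

-- from Lib.HUK.LL8
section

/-!
# Project HUK, chunk LL8 (M/L): all pairs; pigeonhole over the gcd
-/

open Finset

namespace Pool.Agent.HUK

theorem ll8_FW0 (M : ℕ) {s : ℕ} (t : Fin s → ℤ) : 0 ≤ FW M t := Finset.prod_nonneg fun i _ => mq2_fw_nonneg M (t i)

theorem ll8_TT (Y s M : ℕ) (hM : 1 ≤ M) (β β' : ℤ) (U U' : (Fin s → Bool) → ℤ → ℂ) (hU : ∀ ω y, ‖U ω y‖ ≤ 1)
    (hU' : ∀ ω y, ‖U' ω y‖ ≤ 1) : ‖TT Y M β β' U U'‖ ≤ 2 * Y := by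
  have hM0 : (0 : ℝ) < M := by exact_mod_cast hM
  unfold TT
  rw [norm_div, norm_pow, Complex.norm_natCast, div_le_iff₀ (by positivity)]
  have h1 : ∀ t ∈ bxS s M, ∀ t' ∈ bxS s M, ‖((FW M t * FW M t' : ℝ) : ℂ) * ∑ y ∈ Ico (-(Y : ℤ)) Y, PV β U t y * PV β' U' t' y‖ ≤
      FW M t * FW M t' * (2 * Y) := by
    intro t _ t' _
    rw [norm_mul, Complex.norm_real, Real.norm_of_nonneg (mul_nonneg (ll8_FW0 M t) (ll8_FW0 M t'))]
    refine mul_le_mul_of_nonneg_left ?_ (mul_nonneg (ll8_FW0 M t) (ll8_FW0 M t'))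
    refine (norm_sum_le _ _).trans ?_
    calc ∑ y ∈ Ico (-(Y : ℤ)) Y, ‖PV β U t y * PV β' U' t' y‖ ≤ ∑ _y ∈ Ico (-(Y : ℤ)) Y, (1 : ℝ) := by
          refine Finset.sum_le_sum fun y _ => ?_
          rw [norm_mul]
          exact mul_le_one₀ (LL2_le s β U hU t y) (norm_nonneg _) (LL2_le s β' U' hU' t' y)
      _ = 2 * Y := by
          rw [sum_const, Int.card_Ico, nsmul_eq_mul, mul_one]
          have h6 : ((Y : ℤ) - (-(Y : ℤ))).toNat = 2 * Y := by omega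
          rw [h6]
          push_cast
          ring
  calc ‖∑ t ∈ bxS s M, ∑ t' ∈ bxS s M, ((FW M t * FW M t' : ℝ) : ℂ) * ∑ y ∈ Ico (-(Y : ℤ)) Y, PV β U t y * PV β' U' t' y‖ ≤
      ∑ t ∈ bxS s M, ∑ t' ∈ bxS s M, FW M t * FW M t' * (2 * Y) := by
        refine (norm_sum_le _ _).trans (Finset.sum_le_sum fun t ht => ?_)
        exact (norm_sum_le _ _).trans (Finset.sum_le_sum fun t' ht' => h1 t ht t' ht')
    _ = (∑ t ∈ bxS s M, FW M t) * (∑ t' ∈ bxS s M, FW M t') * (2 * Y) := by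
        rw [Finset.sum_mul_sum, Finset.sum_mul]
        refine sum_congr rfl fun t _ => ?_
        rw [Finset.sum_mul]
    _ = 2 * Y * (M : ℝ) ^ (2 * s) := by
        rw [LL2_FW s M hM]
        ring

/-- Trivial bound (`‖PV‖ ≤ 1`, `LL2_FW`, `mq1_fw_sum`; the range of `y` has `4X` elements). -/
theorem LL8_triv (X s M : ℕ) (hM : 1 ≤ M) (β β' : ℤ) (f : ℤ → ℂ) (hf : Bdd X f) : SPd X s M β β' f ≤ 4 * X := by
  have hM0 : (0 : ℝ) < M := by exact_mod_cast hM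
  unfold SPd
  rw [← Finset.sum_product' (Ioo (-(M : ℤ)) M) (Ioo (-(M : ℤ)) M) (fun t t' => ((fw M t * fw M t' : ℝ) : ℂ) *
    TT (2 * X) M β β' (Uf (s := s) f (β * t)) (cU (Uf (s := s) f (β' * t')))),
    ll7_re _ (fun x : ℤ × ℤ => fw M x.1 * fw M x.2), div_le_iff₀ (by positivity)]
  have hw0 : ∀ x : ℤ × ℤ, 0 ≤ fw M x.1 * fw M x.2 := fun x => mul_nonneg (mq2_fw_nonneg M _) (mq2_fw_nonneg M _)
  calc ∑ x ∈ Ioo (-(M : ℤ)) M ×ˢ Ioo (-(M : ℤ)) M, fw M x.1 * fw M x.2 *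
        (TT (2 * X) M β β' (Uf (s := s) f (β * x.1)) (cU (Uf (s := s) f (β' * x.2)))).re ≤
      ∑ x ∈ Ioo (-(M : ℤ)) M ×ˢ Ioo (-(M : ℤ)) M, fw M x.1 * fw M x.2 * (4 * X) := by
        refine Finset.sum_le_sum fun x _ => mul_le_mul_of_nonneg_left ?_ (hw0 x)
        refine (Complex.re_le_norm _).trans ((ll8_TT (2 * X) s M hM β β' _ _ (fun ω y => ll7_Uf_le f hf.le _ ω y)
          (fun ω y => by
            unfold cU
            rw [RCLike.norm_conj]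
            exact ll7_Uf_le f hf.le _ ω y)).trans (le_of_eq ?_))
        push_cast
        ring
    _ = 4 * X * (M : ℝ) ^ 2 := by
        rw [← Finset.sum_mul, Finset.sum_product, ← Finset.sum_mul_sum, mq2_fw_sum M hM]
        ring

theorem ll8_fin (δ : ℝ) (hδ : 0 < δ) (hδ2 : δ ≤ 1 / 2) (n c : ℕ) (hn : 1 ≤ n) (C7 : ℝ) (hC7 : 1 ≤ C7) (hc : C7 ≤ 2 ^ c)
    (K2 X S : ℝ) (hK2 : 0 < K2) (hX : 0 < X)
    (h : K2 * (δ ^ 2 * X / 4) ^ n ≤ C7 * X ^ (n - 1) * (S + K2 * X * (3 * δ ^ (4 * n + c + 3)))) :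
    δ ^ (4 * n + c + 1) * (K2 * X) ≤ S := by
  obtain ⟨n, rfl⟩ : ∃ m, n = m + 1 := ⟨n - 1, by omega⟩
  rw [Nat.add_sub_cancel] at h
  have h1 : (δ ^ 4) ^ (n + 1) ≤ (δ ^ 2 / 4) ^ (n + 1) := by
    refine pow_le_pow_left₀ (by positivity) ?_ _
    have h2 : δ ^ 2 ≤ 1 / 4 := by nlinarith
    have h3 : δ ^ 4 = δ ^ 2 * δ ^ 2 := by ring
    rw [h3]
    nlinarith [sq_nonneg δ]
  have h2 : K2 * (δ ^ 2 * X / 4) ^ (n + 1) = (δ ^ 2 / 4) ^ (n + 1) * (K2 * X) * X ^ n := by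
    have : δ ^ 2 * X / 4 = δ ^ 2 / 4 * X := by ring
    rw [this, mul_pow]
    ring
  have h3 : (δ ^ 4) ^ (n + 1) * (K2 * X) ≤ C7 * (S + K2 * X * (3 * δ ^ (4 * (n + 1) + c + 3))) := by
    have h4 : (δ ^ 4) ^ (n + 1) * (K2 * X) * X ^ n ≤
        C7 * (S + K2 * X * (3 * δ ^ (4 * (n + 1) + c + 3))) * X ^ n := by
      calc (δ ^ 4) ^ (n + 1) * (K2 * X) * X ^ n ≤ (δ ^ 2 / 4) ^ (n + 1) * (K2 * X) * X ^ n := by
            refine mul_le_mul_of_nonneg_right (mul_le_mul_of_nonneg_right h1 (by positivity)) (by positivity)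
        _ ≤ C7 * X ^ n * (S + K2 * X * (3 * δ ^ (4 * (n + 1) + c + 3))) := by
            rw [← h2]
            exact h
        _ = _ := by ring
    exact le_of_mul_le_mul_right h4 (by positivity)
  obtain ⟨t, ht⟩ : ∃ t : ℝ, t = C7 * δ ^ c := ⟨_, rfl⟩
  have ht0 : 0 ≤ t := by
    rw [ht]
    positivity
  have ht1 : t ≤ 1 := by
    rw [ht]
    calc C7 * δ ^ c ≤ 2 ^ c * (1 / 2) ^ c :=
          mul_le_mul hc (pow_le_pow_left₀ hδ.le hδ2 c) (by positivity) (by positivity)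
      _ = 1 := by
          rw [← mul_pow]
          norm_num
  obtain ⟨Y, hY⟩ : ∃ Y : ℝ, Y = (δ ^ 4) ^ (n + 1) * (K2 * X) := ⟨_, rfl⟩
  have hY0 : 0 < Y := by
    rw [hY]
    positivity
  have h5 : C7 * (S + K2 * X * (3 * δ ^ (4 * (n + 1) + c + 3))) = C7 * S + 3 * Y * δ ^ 3 * t := by
    rw [hY, ht, ← pow_mul, pow_add, pow_add]
    ring
  rw [h5, ← hY] at h3
  have h6 : δ ^ 3 * t ≤ 1 / 8 := by
    have h7 : δ ^ 3 ≤ (1 / 2) ^ 3 := pow_le_pow_left₀ hδ.le hδ2 3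
    calc δ ^ 3 * t ≤ (1 / 2) ^ 3 * 1 := mul_le_mul h7 ht1 ht0 (by norm_num)
      _ = 1 / 8 := by norm_num
  have h7 : Y ≤ 2 * (C7 * S) := by nlinarith
  have hS0 : 0 ≤ S := by
    by_contra hS
    push Not at hS
    have : C7 * S < 0 := mul_neg_of_pos_of_neg (by linarith) hS
    linarith
  have h8 : δ ^ (4 * (n + 1) + c + 1) * (K2 * X) = δ ^ c * δ * Y := by
    rw [hY, ← pow_mul, pow_add, pow_add]
    ring
  rw [h8]
  calc δ ^ c * δ * Y ≤ δ ^ c * δ * (2 * (C7 * S)) := mul_le_mul_of_nonneg_left h7 (by positivity)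
    _ = (t * (2 * δ)) * S := by
        rw [ht]
        ring
    _ ≤ 1 * S := by
        refine mul_le_mul_of_nonneg_right ?_ hS0
        nlinarith
    _ = S := one_mul S

theorem ll8_jen {ι : Type*} (P : Finset ι) (x : ι → ℝ) (hx : ∀ p ∈ P, 0 ≤ x p) (n : ℕ) (hn : 1 ≤ n) (k v : ℝ) (hk : 0 < k)
    (hv : 0 ≤ v) (hc : (P.card : ℝ) ≤ k) (h : k * v ≤ ∑ p ∈ P, x p) : k * v ^ n ≤ ∑ p ∈ P, x p ^ n := by
  obtain ⟨n, rfl⟩ : ∃ m, n = m + 1 := ⟨n - 1, by omega⟩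
  have h1 := pow_sum_le_card_mul_sum_pow hx n
  have h2 : (k * v) ^ (n + 1) ≤ (∑ p ∈ P, x p) ^ (n + 1) := pow_le_pow_left₀ (by positivity) h _
  have h3 : (P.card : ℝ) ^ n ≤ k ^ n := pow_le_pow_left₀ (by positivity) hc n
  have h4 : 0 ≤ ∑ p ∈ P, x p ^ (n + 1) := Finset.sum_nonneg fun p hp => pow_nonneg (hx p hp) _
  have h5 : k ^ n * (k * v ^ (n + 1)) ≤ k ^ n * ∑ p ∈ P, x p ^ (n + 1) := by
    calc k ^ n * (k * v ^ (n + 1)) = (k * v) ^ (n + 1) := by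
          rw [mul_pow]
          ring
      _ ≤ (P.card : ℝ) ^ n * ∑ p ∈ P, x p ^ (n + 1) := h2.trans h1
      _ ≤ k ^ n * ∑ p ∈ P, x p ^ (n + 1) := mul_le_mul_of_nonneg_right h3 h4
  exact le_of_mul_le_mul_left h5 (by positivity)

theorem ll8_F0 (X s R H q γ n : ℕ) (hR : 1 ≤ R) (hH : 1 ≤ H) (h1 : q * γ * R ≤ X) (h2 : n * H ≤ X) (f : ℤ → ℂ)
    (hf : Bdd X f) : 0 ≤ (MQ X ((R, ((q * γ : ℕ) : ℤ)) :: List.replicate s (H, (n : ℤ))) f).re := by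
  obtain ⟨m, hm0, hm⟩ := MQ_nonneg X ((R, ((q * γ : ℕ) : ℤ)) :: List.replicate s (H, (n : ℤ))) (List.cons_ne_nil _ _) (by
    intro p hp
    rcases List.mem_cons.1 hp with h | h
    · subst h
      refine ⟨hR, by positivity, ?_⟩
      show ((q * γ : ℕ) : ℤ) * (R : ℤ) ≤ X
      exact_mod_cast h1
    · rw [(List.mem_replicate.1 h).2]
      refine ⟨hH, by positivity, ?_⟩
      show (n : ℤ) * (H : ℤ) ≤ X
      exact_mod_cast h2) f hf.sup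
  rw [hm, Complex.ofReal_re]
  exact hm0

theorem ll8_four (a b c : ℕ) (h : 4 * a * b ≤ c) : a * b ≤ c := by
  refine le_trans ?_ h
  exact Nat.mul_le_mul_right b (by omega)

/-- Pigeonhole. -/
theorem ll8_pig (P : Finset (ℕ × ℕ)) (G : ℕ) (hG : 1 ≤ G) (F : ℕ × ℕ → ℕ → ℝ) (hF : ∀ p ∈ P, ∀ γ ∈ Icc 1 G, 0 ≤ F p γ)
    (hP : ∀ p ∈ P, 1 ≤ Nat.gcd p.1 p.2) (a : ℝ)
    (h : G * a ≤ ∑ p ∈ P.filter (fun p : ℕ × ℕ => ¬ G < Nat.gcd p.1 p.2), F p (Nat.gcd p.1 p.2)) :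
    ∃ γ ∈ Icc 1 G, a ≤ ∑ p ∈ P, F p γ := by
  by_contra hc
  push Not at hc
  have h1 : ∑ p ∈ P.filter (fun p : ℕ × ℕ => ¬ G < Nat.gcd p.1 p.2), F p (Nat.gcd p.1 p.2) ≤
      ∑ γ ∈ Icc 1 G, ∑ p ∈ P, F p γ := by
    rw [Finset.sum_comm]
    calc ∑ p ∈ P.filter (fun p : ℕ × ℕ => ¬ G < Nat.gcd p.1 p.2), F p (Nat.gcd p.1 p.2) ≤
        ∑ p ∈ P.filter (fun p : ℕ × ℕ => ¬ G < Nat.gcd p.1 p.2), ∑ γ ∈ Icc 1 G, F p γ := by
          refine Finset.sum_le_sum fun p hp => ?_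
          rw [mem_filter] at hp
          exact Finset.single_le_sum (f := fun γ => F p γ) (fun γ hγ => hF p hp.1 γ hγ)
            (mem_Icc.2 ⟨hP p hp.1, not_lt.1 hp.2⟩)
      _ ≤ ∑ p ∈ P, ∑ γ ∈ Icc 1 G, F p γ := by
          refine Finset.sum_le_sum_of_subset_of_nonneg (Finset.filter_subset _ _) fun p hp _ => ?_
          exact Finset.sum_nonneg fun γ hγ => hF p hp γ hγ
  have h2 : ∑ γ ∈ Icc 1 G, ∑ p ∈ P, F p γ < ∑ _γ ∈ Icc 1 G, a := by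
    refine Finset.sum_lt_sum_of_nonempty ?_ fun γ hγ => hc γ hγ
    exact ⟨1, mem_Icc.2 ⟨le_rfl, hG⟩⟩
  rw [sum_const, Nat.card_Icc, nsmul_eq_mul, Nat.add_sub_cancel] at h2
  linarith

/-- **All pairs.** `H = ⌊δ^C M / K⌋`, `R = ⌊δ^(C+2) X⌋`, `G = ⌊(1/δ)^9⌋`, `P = (K, 2K]²`.
`δ² K² X / 2 ≤ ∑_{p ∈ P} SPd` (`LL4_cs`); pairs with gcd `> G` contribute at most `4X * 4K²/G ≤ δ² K² X / 4` (`LL6_gcd`, `LL8_triv`,
`G ≥ 64/δ²`); Jensen over the good pairs (at most `K²`): `K² (δ² X / 4)^n ≤ ∑_good (max 0 SPd)^n`, `n = 2^s`; `LL7_pair` (constant `C7`):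
`∑_good (MQ + X err) ≥ K² X (δ²/4)^n / C7`, `err = (K H + K + γ R / K) / M ≤ δ^C + K/M + G δ^(C+2) X / (K M)`, where `X / (K M) ≤ q / δ ≤ 1/δ²`
and `K / M ≤ K² q / (δ X) ≤ K²/(δ² X) ≤ δ^C` (hypothesis): at most half of the main term if `C` is large. Pigeonhole over
`γ ≤ G`; then all pairs are allowed again, because `MQ ≥ 0` (`MQ_nonneg`; `q γ R ≤ X`, `b b' q H ≤ 4 K² q δ^C M / K ≤ X`).
`H ≥ 1`: `δ^C M / K ≥ δ^(C+2) X / K² ≥ 1`. -/
theorem LL8_pairs (s : ℕ) : ∃ C : ℕ, 1 ≤ C ∧ ∀ δ : ℝ, 0 < δ → δ ≤ 1 / 2 → ∀ X K M q : ℕ, 1 ≤ K → 1 ≤ M → 1 ≤ q →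
    (1 / δ) ^ (C + 2) * (K : ℝ) ^ 2 ≤ X → δ * X ≤ q * K * M → 4 * q * K * M ≤ X → (q : ℝ) ≤ 1 / δ → ∀ f : ℤ → ℂ, Bdd X f →
    δ * (K * X) ≤ ∑ b ∈ Ioc K (2 * K), NU X (s + 1) M (b * q) f →
    1 ≤ ⌊δ ^ C * M / K⌋₊ ∧ 1 ≤ ⌊δ ^ (C + 2) * X⌋₊ ∧ ∃ γ : ℕ, 1 ≤ γ ∧ (γ : ℝ) ≤ (1 / δ) ^ C ∧
      4 * (q * γ) * ⌊δ ^ (C + 2) * X⌋₊ ≤ X ∧
      δ ^ C * ((K : ℝ) ^ 2 * X) ≤ ∑ p ∈ Ioc K (2 * K) ×ˢ Ioc K (2 * K),
        (MQ X ((⌊δ ^ (C + 2) * X⌋₊, ((q * γ : ℕ) : ℤ)) ::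
          List.replicate s (⌊δ ^ C * M / K⌋₊, ((p.1 * p.2 * q : ℕ) : ℤ))) f).re := by
  obtain ⟨C7, hC71, hC7⟩ := LL7_pair s
  obtain ⟨c, hc⟩ := pow_unbounded_of_one_lt C7 (by norm_num : (1 : ℝ) < 2)
  have hn1 : 1 ≤ 2 ^ s := Nat.one_le_two_pow
  refine ⟨4 * 2 ^ s + c + 12, by omega, ?_⟩
  intro δ hδ hδ2 X K M q hK hM hq hX hlo hup hqδ f hf hsum
  have hM0 : (0 : ℝ) < M := by exact_mod_cast hM
  have hK0 : (0 : ℝ) < K := by exact_mod_cast hK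
  have hK1 : (1 : ℝ) ≤ K := by exact_mod_cast hK
  have hq0 : (0 : ℝ) < q := by exact_mod_cast hq
  have hδ1 : δ ≤ 1 := by linarith
  obtain ⟨D, hD⟩ : ∃ D : ℕ, D = 4 * 2 ^ s + c := ⟨_, rfl⟩
  rw [← hD] at hX ⊢
  have h2qKM : 2 * q * K * M ≤ X := by
    refine le_trans ?_ hup
    refine Nat.mul_le_mul_right M (Nat.mul_le_mul_right K (Nat.mul_le_mul_right q (by norm_num)))
  -- basic inequalities
  have hk2 : (K : ℝ) ^ 2 ≤ δ ^ (D + 12 + 2) * X := by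
    have h1 := mul_le_mul_of_nonneg_left hX (by positivity : 0 ≤ δ ^ (D + 12 + 2))
    have h2 : δ ^ (D + 12 + 2) * ((1 / δ) ^ (D + 12 + 2) * (K : ℝ) ^ 2) = (K : ℝ) ^ 2 := by
      rw [← mul_assoc, ← mul_pow, mul_one_div_cancel hδ.ne', one_pow, one_mul]
    rw [h2] at h1
    exact h1
  have hX0 : (0 : ℝ) < X := by
    by_contra h
    push Not at h
    have h1 : δ ^ (D + 12 + 2) * (X : ℝ) ≤ 0 := mul_nonpos_of_nonneg_of_nonpos (by positivity) h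
    nlinarith
  have hX1 : 1 ≤ X := by
    have : 0 < X := by exact_mod_cast hX0
    omega
  have hqδ' : (q : ℝ) * δ ≤ 1 := by
    rw [le_div_iff₀ hδ] at hqδ
    exact hqδ
  have hup' : 4 * (q : ℝ) * K * M ≤ X := by exact_mod_cast hup
  have hkm : δ ^ 2 * X ≤ K * M := by
    calc δ ^ 2 * X = δ * (δ * X) := by ring
      _ ≤ δ * (q * K * M) := mul_le_mul_of_nonneg_left hlo hδ.le
      _ = (q * δ) * (K * M) := by ring
      _ ≤ 1 * (K * M) := mul_le_mul_of_nonneg_right hqδ' (by positivity)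
      _ = K * M := one_mul _
  have hkM : (K : ℝ) ≤ δ ^ (D + 12) * M := by
    have h1 : (K : ℝ) * K ≤ K * (δ ^ (D + 12) * M) := by
      calc (K : ℝ) * K = K ^ 2 := by ring
        _ ≤ δ ^ (D + 12 + 2) * X := hk2
        _ = δ ^ (D + 12) * (δ ^ 2 * X) := by ring
        _ ≤ δ ^ (D + 12) * (K * M) := mul_le_mul_of_nonneg_left hkm (by positivity)
        _ = K * (δ ^ (D + 12) * M) := by ring
    exact le_of_mul_le_mul_left h1 hK0
  have hpow : ∀ a b : ℕ, a ≤ b → δ ^ b ≤ δ ^ a := fun a b hab => pow_le_pow_of_le_one hδ.le hδ1 hab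
  obtain ⟨H, hH⟩ : ∃ H : ℕ, H = ⌊δ ^ (D + 12) * M / K⌋₊ := ⟨_, rfl⟩
  obtain ⟨R, hR⟩ : ∃ R : ℕ, R = ⌊δ ^ (D + 12 + 2) * X⌋₊ := ⟨_, rfl⟩
  have hH1 : 1 ≤ H := by
    rw [hH]
    refine Nat.le_floor ?_
    rw [le_div_iff₀ hK0]
    push_cast
    linarith
  have hR1 : 1 ≤ R := by
    rw [hR]
    refine Nat.le_floor ?_
    push_cast
    refine le_trans ?_ hk2
    nlinarith
  have hHle : (H : ℝ) * K ≤ δ ^ (D + 12) * M := by
    have h1 : (H : ℝ) ≤ δ ^ (D + 12) * M / K := by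
      rw [hH]
      exact Nat.floor_le (by positivity)
    rw [le_div_iff₀ hK0] at h1
    exact h1
  have hRle : (R : ℝ) ≤ δ ^ (D + 12 + 2) * X := by
    rw [hR]
    exact Nat.floor_le (by positivity)
  rw [← hH, ← hR]
  refine ⟨hH1, hR1, ?_⟩
  -- the bound for the gcd
  obtain ⟨G, hG⟩ : ∃ G : ℕ, G = ⌊(1 / δ) ^ 9⌋₊ := ⟨_, rfl⟩
  have hGle : (G : ℝ) ≤ (1 / δ) ^ 9 := by
    rw [hG]
    exact Nat.floor_le (by positivity)
  have hG9 : (G : ℝ) * δ ^ 9 ≤ 1 := by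
    calc (G : ℝ) * δ ^ 9 ≤ (1 / δ) ^ 9 * δ ^ 9 := mul_le_mul_of_nonneg_right hGle (by positivity)
      _ = 1 := by rw [← mul_pow, one_div_mul_cancel hδ.ne', one_pow]
  have hG64 : 64 ≤ (G : ℝ) * δ ^ 2 := by
    have h1 : (1 / δ) ^ 9 < G + 1 := by
      rw [hG]
      exact Nat.lt_floor_add_one _
    have h2 : (2 : ℝ) ≤ 1 / δ := by
      rw [le_div_iff₀ hδ]
      linarith
    have h3 : (2 : ℝ) ^ 7 ≤ (1 / δ) ^ 7 := pow_le_pow_left₀ (by norm_num) h2 7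
    have h4 : (1 / δ) ^ 9 * δ ^ 2 = (1 / δ) ^ 7 := by
      have h5 : (1 / δ) ^ 9 * δ ^ 2 = (1 / δ) ^ 7 * ((1 / δ) * δ) ^ 2 := by ring
      rw [h5, one_div_mul_cancel hδ.ne', one_pow, mul_one]
    have h5 : (1 / δ) ^ 9 * δ ^ 2 ≤ (G + 1) * δ ^ 2 := mul_le_mul_of_nonneg_right h1.le (by positivity)
    rw [h4] at h5
    have h6 : δ ^ 2 ≤ 1 := pow_le_one₀ hδ.le hδ1
    have h7 : (2 : ℝ) ^ 7 = 128 := by norm_num
    rw [h7] at h3
    nlinarith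
  have hG0 : (0 : ℝ) < G := by
    by_contra h
    push Not at h
    have : (G : ℝ) * δ ^ 2 ≤ 0 := mul_nonpos_of_nonpos_of_nonneg h (by positivity)
    linarith
  have hG1 : 1 ≤ G := by
    have : 0 < G := by exact_mod_cast hG0
    omega
  have hγR : ∀ γ : ℕ, γ ≤ G → 4 * (q * γ) * R ≤ X := by
    intro γ hγ
    have h1 : (γ : ℝ) * δ ^ 9 ≤ 1 := by
      refine le_trans (mul_le_mul_of_nonneg_right ?_ (by positivity)) hG9
      exact_mod_cast hγ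
    have h2 : (4 : ℝ) * (q * γ) * R ≤ X := by
      calc (4 : ℝ) * (q * γ) * R ≤ 4 * (q * γ) * (δ ^ (D + 12 + 2) * X) := mul_le_mul_of_nonneg_left hRle (by positivity)
        _ = (q * δ) * (γ * δ ^ 9) * (4 * δ ^ (D + 4)) * X := by ring
        _ ≤ 1 * 1 * (4 * δ ^ 2) * X := by
            refine mul_le_mul_of_nonneg_right ?_ hX0.le
            refine mul_le_mul ?_ ?_ (by positivity) (by norm_num)
            · exact mul_le_mul hqδ' h1 (by positivity) (by norm_num)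
            · exact mul_le_mul_of_nonneg_left (hpow 2 (D + 4) (by omega)) (by norm_num)
        _ ≤ X := by
            have h3 : δ ^ 2 ≤ 1 / 4 := by nlinarith
            nlinarith
    exact_mod_cast h2
  have hbH : ∀ b b' : ℕ, b ≤ 2 * K → b' ≤ 2 * K → b * b' * q * H ≤ X := by
    intro b b' hb hb'
    have h1 : b * b' * q * H ≤ (2 * K) * (2 * K) * q * H :=
      Nat.mul_le_mul_right H (Nat.mul_le_mul_right q (Nat.mul_le_mul hb hb'))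
    refine h1.trans ?_
    have h2 : (2 * (K : ℝ)) * (2 * K) * q * H ≤ X := by
      calc (2 * (K : ℝ)) * (2 * K) * q * H = 4 * q * K * (H * K) := by ring
        _ ≤ 4 * q * K * (δ ^ (D + 12) * M) := mul_le_mul_of_nonneg_left hHle (by positivity)
        _ = δ ^ (D + 12) * (4 * q * K * M) := by ring
        _ ≤ 1 * X := mul_le_mul (pow_le_one₀ hδ.le hδ1) hup' (by positivity) (by norm_num)
        _ = X := one_mul _
    exact_mod_cast h2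
  have hKH : 4 * K * H ≤ M := by
    have h1 : 4 * (K : ℝ) * H ≤ M := by
      calc 4 * (K : ℝ) * H = 4 * (H * K) := by ring
        _ ≤ 4 * (δ ^ (D + 12) * M) := by linarith
        _ ≤ 4 * (δ ^ 2 * M) := by
            have := mul_le_mul_of_nonneg_right (hpow 2 (D + 12) (by omega)) hM0.le
            linarith
        _ ≤ M := by
            have h3 : δ ^ 2 ≤ 1 / 4 := by nlinarith
            nlinarith
    exact_mod_cast h1
  -- the sums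
  obtain ⟨P, hP⟩ : ∃ P : Finset (ℕ × ℕ), P = Ioc K (2 * K) ×ˢ Ioc K (2 * K) := ⟨_, rfl⟩
  have hPcard : P.card = K * K := by
    rw [hP, card_product, Nat.card_Ioc]
    congr 1 <;> omega
  have hPmem : ∀ p ∈ P, p.1 ∈ Ioc K (2 * K) ∧ p.2 ∈ Ioc K (2 * K) := by
    intro p hp
    rw [hP, mem_product] at hp
    exact hp
  rw [← hP]
  obtain ⟨F, hF⟩ : ∃ F : ℕ × ℕ → ℕ → ℝ, F = fun p γ => (MQ X ((R, ((q * γ : ℕ) : ℤ)) ::
    List.replicate s (H, ((p.1 * p.2 * q : ℕ) : ℤ))) f).re := ⟨_, rfl⟩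
  have hF0 : ∀ p ∈ P, ∀ γ ∈ Icc 1 G, 0 ≤ F p γ := by
    intro p hp γ hγ
    rw [mem_Icc] at hγ
    have hp' := hPmem p hp
    rw [mem_Ioc, mem_Ioc] at hp'
    rw [hF]
    exact ll8_F0 X s R H q γ _ hR1 hH1 (ll8_four _ _ _ (hγR γ hγ.2)) (hbH p.1 p.2 hp'.1.2 hp'.2.2) f hf
  have hgcd : ∀ p ∈ P, 1 ≤ Nat.gcd p.1 p.2 := by
    intro p hp
    have hp' := hPmem p hp
    rw [mem_Ioc, mem_Ioc] at hp'
    exact Nat.gcd_pos_of_pos_left _ (by omega)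
  -- Cauchy-Schwarz
  have hcs := LL4_cs X s M K q f hf
  rw [← hP] at hcs
  have hS1 : δ ^ 2 * ((K : ℝ) ^ 2 * X) / 2 ≤ ∑ p ∈ P, SPd X s M (p.1 * q) (p.2 * q) f := by
    have h1 : (δ * (K * X)) ^ 2 ≤ 2 * X * ∑ p ∈ P, SPd X s M (p.1 * q) (p.2 * q) f :=
      (pow_le_pow_left₀ (by positivity) hsum 2).trans hcs
    have h2 : (δ * ((K : ℝ) * X)) ^ 2 = 2 * X * (δ ^ 2 * ((K : ℝ) ^ 2 * X) / 2) := by ring
    rw [h2] at h1
    exact le_of_mul_le_mul_left h1 (by positivity)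
  obtain ⟨bad, hbad⟩ : ∃ bad : Finset (ℕ × ℕ), bad = P.filter (fun p : ℕ × ℕ => G < Nat.gcd p.1 p.2) := ⟨_, rfl⟩
  obtain ⟨good, hgood⟩ : ∃ good : Finset (ℕ × ℕ), good = P.filter (fun p : ℕ × ℕ => ¬ G < Nat.gcd p.1 p.2) := ⟨_, rfl⟩
  have hS2 : ∑ p ∈ bad, SPd X s M (p.1 * q) (p.2 * q) f + ∑ p ∈ good, SPd X s M (p.1 * q) (p.2 * q) f =
      ∑ p ∈ P, SPd X s M (p.1 * q) (p.2 * q) f := by
    rw [hbad, hgood]
    exact Finset.sum_filter_add_sum_filter_not _ _ _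
  have hS3 : ∑ p ∈ bad, SPd X s M (p.1 * q) (p.2 * q) f ≤ δ ^ 2 * ((K : ℝ) ^ 2 * X) / 4 := by
    calc ∑ p ∈ bad, SPd X s M (p.1 * q) (p.2 * q) f ≤ ∑ _p ∈ bad, 4 * (X : ℝ) :=
          Finset.sum_le_sum fun p _ => LL8_triv X s M hM _ _ f hf
      _ = bad.card * (4 * X) := by rw [sum_const, nsmul_eq_mul]
      _ ≤ (4 * (K : ℝ) ^ 2 / G) * (4 * X) := by
          refine mul_le_mul_of_nonneg_right ?_ (by positivity)
          rw [hbad, hP]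
          exact LL6_gcd K G hG1
      _ ≤ δ ^ 2 * ((K : ℝ) ^ 2 * X) / 4 := by
          rw [div_mul_eq_mul_div, div_le_div_iff₀ hG0 (by norm_num)]
          have h1 : 0 ≤ (K : ℝ) ^ 2 * X := by positivity
          nlinarith [mul_le_mul_of_nonneg_right hG64 h1]
  have hS4 : (K : ℝ) ^ 2 * (δ ^ 2 * X / 4) ≤ ∑ p ∈ good, max 0 (SPd X s M (p.1 * q) (p.2 * q) f) := by
    calc (K : ℝ) ^ 2 * (δ ^ 2 * X / 4) = δ ^ 2 * ((K : ℝ) ^ 2 * X) / 2 - δ ^ 2 * ((K : ℝ) ^ 2 * X) / 4 := by ring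
      _ ≤ ∑ p ∈ good, SPd X s M (p.1 * q) (p.2 * q) f := by linarith
      _ ≤ ∑ p ∈ good, max 0 (SPd X s M (p.1 * q) (p.2 * q) f) := Finset.sum_le_sum fun p _ => le_max_right _ _
  have hS5 := ll8_jen good (fun p => max 0 (SPd X s M (p.1 * q) (p.2 * q) f)) (fun p _ => le_max_left _ _) (2 ^ s) hn1
    ((K : ℝ) ^ 2) (δ ^ 2 * X / 4) (by positivity) (by positivity) (by
      have h1 : good.card ≤ K * K := by
        rw [hgood, ← hPcard]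
        exact card_filter_le _ _
      have h2 : (good.card : ℝ) ≤ K * K := by exact_mod_cast h1
      rw [sq]
      exact h2) hS4
  -- one pair
  have hpair : ∀ p ∈ good, (max 0 (SPd X s M (p.1 * q) (p.2 * q) f)) ^ (2 ^ s) ≤
      C7 * (X : ℝ) ^ (2 ^ s - 1) * (F p (Nat.gcd p.1 p.2) + X * (3 * δ ^ (D + 3))) := by
    intro p hp
    rw [hgood, mem_filter, not_lt] at hp
    have hp' := hPmem p hp.1
    have hp'' := hp'
    rw [mem_Ioc, mem_Ioc] at hp''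
    have h1 := hC7 X M K H R p.1 p.2 q hX1 hM hK hH1 hR1 hp'.1 hp'.2 (ll8_four _ _ _ (hγR _ hp.2)) h2qKM
      (hbH p.1 p.2 hp''.1.2 hp''.2.2) hKH f hf
    refine h1.trans (mul_le_mul_of_nonneg_left ?_ (by positivity))
    rw [hF]
    show (MQ X _ f).re + _ ≤ (MQ X _ f).re + _
    refine add_le_add le_rfl (mul_le_mul_of_nonneg_left ?_ hX0.le)
    rw [div_le_iff₀ hM0]
    have h2 : (Nat.gcd p.1 p.2 : ℝ) * δ ^ 9 ≤ 1 := by
      refine le_trans (mul_le_mul_of_nonneg_right ?_ (by positivity)) hG9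
      exact_mod_cast hp.2
    have h3 : (Nat.gcd p.1 p.2 : ℝ) * R / K ≤ δ ^ (D + 3) * M := by
      rw [div_le_iff₀ hK0]
      calc (Nat.gcd p.1 p.2 : ℝ) * R ≤ Nat.gcd p.1 p.2 * (δ ^ (D + 12 + 2) * X) :=
            mul_le_mul_of_nonneg_left hRle (by positivity)
        _ = (Nat.gcd p.1 p.2 * δ ^ 9) * (δ ^ (D + 3) * (δ ^ 2 * X)) := by ring
        _ ≤ 1 * (δ ^ (D + 3) * (K * M)) :=
            mul_le_mul h2 (mul_le_mul_of_nonneg_left hkm (by positivity)) (by positivity) (by norm_num)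
        _ = δ ^ (D + 3) * M * K := by ring
    have h4 : δ ^ (D + 12) * M ≤ δ ^ (D + 3) * M :=
      mul_le_mul_of_nonneg_right (hpow (D + 3) (D + 12) (by omega)) hM0.le
    have h5 : (K : ℝ) * H = H * K := mul_comm _ _
    rw [h5]
    linarith
  have hS6 : (K : ℝ) ^ 2 * (δ ^ 2 * X / 4) ^ (2 ^ s) ≤ C7 * (X : ℝ) ^ (2 ^ s - 1) *
      (∑ p ∈ good, F p (Nat.gcd p.1 p.2) + (K : ℝ) ^ 2 * X * (3 * δ ^ (4 * 2 ^ s + c + 3))) := by
    refine hS5.trans ((Finset.sum_le_sum hpair).trans ?_)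
    rw [← Finset.mul_sum, Finset.sum_add_distrib, sum_const, nsmul_eq_mul]
    refine mul_le_mul_of_nonneg_left (add_le_add le_rfl ?_) (by positivity)
    rw [← hD]
    have h1 : (good.card : ℝ) ≤ (K : ℝ) ^ 2 := by
      have h1 : good.card ≤ K * K := by
        rw [hgood, ← hPcard]
        exact card_filter_le _ _
      have h2 : (good.card : ℝ) ≤ K * K := by exact_mod_cast h1
      rw [sq]
      exact h2
    calc (good.card : ℝ) * (X * (3 * δ ^ (D + 3))) ≤ (K : ℝ) ^ 2 * (X * (3 * δ ^ (D + 3))) :=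
          mul_le_mul_of_nonneg_right h1 (by positivity)
      _ = (K : ℝ) ^ 2 * X * (3 * δ ^ (D + 3)) := by ring
  have hS7 := ll8_fin δ hδ hδ2 (2 ^ s) c hn1 C7 hC71 hc.le ((K : ℝ) ^ 2) X _ (by positivity) hX0 hS6
  rw [← hD] at hS7
  -- pigeonhole
  obtain ⟨γ, hγ, hγ2⟩ := ll8_pig P G hG1 F hF0 hgcd (δ ^ (D + 12) * ((K : ℝ) ^ 2 * X)) (by
    rw [← hgood]
    refine le_trans ?_ hS7
    calc (G : ℝ) * (δ ^ (D + 12) * ((K : ℝ) ^ 2 * X)) = (G * δ ^ 9) * (δ ^ (D + 3) * ((K : ℝ) ^ 2 * X)) := by ring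
      _ ≤ 1 * (δ ^ (D + 1) * ((K : ℝ) ^ 2 * X)) := by
          refine mul_le_mul hG9 ?_ (by positivity) (by norm_num)
          exact mul_le_mul_of_nonneg_right (hpow (D + 1) (D + 3) (by omega)) (by positivity)
      _ = _ := one_mul _)
  rw [mem_Icc] at hγ
  refine ⟨γ, hγ.1, ?_, hγR γ hγ.2, ?_⟩
  · have h1 : (γ : ℝ) ≤ G := by exact_mod_cast hγ.2
    refine h1.trans (hGle.trans ?_)
    refine pow_le_pow_right₀ ?_ (by omega)
    rw [le_div_iff₀ hδ]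
    linarith
  · rw [hF] at hγ2
    exact hγ2

end Pool.Agent.HUK
end

-- from Lib.HUK.LL9
section

/-!
# Project HUK, chunk LL9 (M/L): the induction hypothesis for many differences `D_z f`, pigeonhole
-/

open Finset

namespace Pool.Agent.HUK

/-- The statement `L(s)`. -/
def LLP (s : ℕ) : Prop := ∃ C1 C2 : ℕ, ∀ δ : ℝ, 0 < δ → δ ≤ 1 / 2 → ∀ X K M q : ℕ, 1 ≤ K → 1 ≤ M → 1 ≤ q →
    (∀ n : ℕ, 1 ≤ n → n ≤ X → (n.divisors.card : ℝ) ≤ 1 / δ) → (1 / δ) ^ C2 * (K : ℝ) ^ (2 ^ s) ≤ X →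
    δ * X ≤ q * K * M → 4 * q * K * M ≤ X → (q : ℝ) ≤ 1 / δ → ∀ f : ℤ → ℂ, Bdd X f →
    δ * (K * X) ≤ ∑ b ∈ Ioc K (2 * K), NU X s M (b * q) f →
    ∃ q' : ℕ, 1 ≤ q' ∧ (q' : ℝ) ≤ (1 / δ) ^ C1 ∧ 4 * q' * ⌊δ ^ C2 * X⌋₊ ≤ X ∧ 1 ≤ ⌊δ ^ C2 * X⌋₊ ∧
      δ ^ C2 * X ≤ NU X s ⌊δ ^ C2 * X⌋₊ q' f

/-- Weighted pigeonhole: `R = (last entry)`. If the average of `θ(t) ≤ A` with weights `fw R t` (total `R`) is `≥ η A`, then the set of the `t`
with `θ(t) ≥ η A / 2` has weight `≥ η R / 2`. -/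
theorem LL9_pop (R : ℕ) (hR : 1 ≤ R) (A η : ℝ) (hA : 0 < A) (θ : ℤ → ℝ) (hθ : ∀ t, θ t ≤ A)
    (h : η * A * R ≤ ∑ t ∈ Ioo (-(R : ℤ)) R, fw R t * θ t) :
    η * R / 2 ≤ ∑ t ∈ (Ioo (-(R : ℤ)) R).filter (fun t => η * A / 2 ≤ θ t), fw R t := by
  have hR0 : (0 : ℝ) < R := by exact_mod_cast hR
  rcases lt_or_ge η 0 with hη | hη
  · have h1 : η * R / 2 ≤ 0 := by
      have : η * R ≤ 0 := mul_nonpos_of_nonpos_of_nonneg hη.le hR0.le
      linarith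
    exact h1.trans (sum_nonneg fun t _ => mq1_fw_nonneg R t)
  · rw [← sum_filter_add_sum_filter_not (Ioo (-(R : ℤ)) R) (fun t => η * A / 2 ≤ θ t)] at h
    have h1 : ∑ t ∈ (Ioo (-(R : ℤ)) R).filter (fun t => η * A / 2 ≤ θ t), fw R t * θ t ≤
        (∑ t ∈ (Ioo (-(R : ℤ)) R).filter (fun t => η * A / 2 ≤ θ t), fw R t) * A := by
      rw [sum_mul]
      exact sum_le_sum fun t _ => mul_le_mul_of_nonneg_left (hθ t) (mq1_fw_nonneg R t)
    have h2 : ∑ t ∈ (Ioo (-(R : ℤ)) R).filter (fun t => ¬ η * A / 2 ≤ θ t), fw R t * θ t ≤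
        (∑ t ∈ (Ioo (-(R : ℤ)) R).filter (fun t => ¬ η * A / 2 ≤ θ t), fw R t) * (η * A / 2) := by
      rw [sum_mul]
      refine sum_le_sum fun t ht => mul_le_mul_of_nonneg_left ?_ (mq1_fw_nonneg R t)
      rw [mem_filter] at ht
      exact (lt_of_not_ge ht.2).le
    have h3 : ∑ t ∈ (Ioo (-(R : ℤ)) R).filter (fun t => ¬ η * A / 2 ≤ θ t), fw R t ≤ R := by
      rw [← mq1_fw_sum R hR]
      exact sum_le_sum_of_subset_of_nonneg (filter_subset _ _) fun t _ _ => mq1_fw_nonneg R t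
    have h4 : (∑ t ∈ (Ioo (-(R : ℤ)) R).filter (fun t => ¬ η * A / 2 ≤ θ t), fw R t) * (η * A / 2) ≤ R * (η * A / 2) :=
      mul_le_mul_of_nonneg_right h3 (by positivity)
    have h5 : (η * R / 2) * A ≤ (∑ t ∈ (Ioo (-(R : ℤ)) R).filter (fun t => η * A / 2 ≤ θ t), fw R t) * A := by
      have : η * A * R = (η * R / 2) * A + R * (η * A / 2) := by ring
      linarith
    exact le_of_mul_le_mul_right h5 hA

/-- trivial bound -/
theorem ll9_NU_le (X s M : ℕ) (hM : 1 ≤ M) (d : ℤ) (f : ℤ → ℂ) (hf : Bdd X f) : NU X s M d f ≤ 2 * X := by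
  rw [← MQ_NU X s M hM d f]
  refine (Complex.re_le_norm _).trans (MQ_le X _ ?_ f hf)
  intro p hp
  rw [List.eq_of_mem_replicate hp]
  exact hM

/-- the first entry as an average of `NU` -/
theorem ll9_cons (X s H R : ℕ) (hH : 1 ≤ H) (d e : ℤ) (f : ℤ → ℂ) :
    (MQ X ((R, e) :: List.replicate s (H, d)) f).re =
      (∑ t ∈ Ioo (-(R : ℤ)) R, fw R t * NU X s H d (DD (e * t) f)) / R := by
  rw [mq2_cons_re]
  congr 1
  refine sum_congr rfl fun t _ => ?_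
  rw [MQ_NU X s H hH d]

/-- divisor bound: products of pairs -/
theorem ll9_div (X s K H q : ℕ) (D : ℝ) (hs : 1 ≤ s) (hH : 1 ≤ H) (hK : 4 * K ^ 2 ≤ X)
    (hD : ∀ n : ℕ, 1 ≤ n → n ≤ X → (n.divisors.card : ℝ) ≤ D) (hqH : 4 * K ^ 2 * q * H ≤ X) (g : ℤ → ℂ) (hg : Bdd X g) :
    ∑ p ∈ Ioc K (2 * K) ×ˢ Ioc K (2 * K), NU X s H ((p.1 * p.2 * q : ℕ) : ℤ) g ≤
      D * (∑ n ∈ Ioc (K ^ 2) (2 * K ^ 2), NU X s H (n * q) g + ∑ n ∈ (Ioc (2 * K ^ 2) (2 * (2 * K ^ 2)) : Finset ℕ), NU X s H (n * q) g) := by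
  have h0 : ∀ n : ℕ, n ≤ 4 * K ^ 2 → 0 ≤ NU X s H ((n : ℤ) * q) g := by
    intro n hn
    refine NU_nonneg X s H hs hH _ (by positivity) ?_ g hg.sup
    have h1 : n * q * H ≤ X := (Nat.mul_le_mul_right H (Nat.mul_le_mul_right q hn)).trans hqH
    exact_mod_cast h1
  have h1 := LL6_div K D (fun n h1 h2 => hD n h1 (h2.trans hK)) (fun n => max 0 (NU X s H ((n : ℤ) * q) g)) (fun n => le_max_left _ _)
  have h2 : ∀ n ∈ Ioc (K ^ 2) (2 * K ^ 2), max 0 (NU X s H ((n : ℤ) * q) g) = NU X s H (n * q) g := by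
    intro n hn
    rw [mem_Ioc] at hn
    exact max_eq_right (h0 n (by omega))
  have h3 : ∀ n ∈ (Ioc (2 * K ^ 2) (2 * (2 * K ^ 2)) : Finset ℕ), max 0 (NU X s H ((n : ℤ) * q) g) = NU X s H (n * q) g := by
    intro n hn
    rw [mem_Ioc] at hn
    exact max_eq_right (h0 n (by omega))
  rw [sum_congr rfl h2, sum_congr rfl h3] at h1
  refine le_trans (sum_le_sum fun p _ => ?_) h1
  have : ((p.1 * p.2 * q : ℕ) : ℤ) = ((p.1 * p.2 : ℕ) : ℤ) * q := by push_cast; ring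
  rw [this]
  exact le_max_right _ _

/-- one range of `n` -/
theorem ll9_one (s : ℕ) (hs : 1 ≤ s) (C1 C2 : ℕ)
    (hL : ∀ δ : ℝ, 0 < δ → δ ≤ 1 / 2 → ∀ X K M q : ℕ, 1 ≤ K → 1 ≤ M → 1 ≤ q →
      (∀ n : ℕ, 1 ≤ n → n ≤ X → (n.divisors.card : ℝ) ≤ 1 / δ) → (1 / δ) ^ C2 * (K : ℝ) ^ (2 ^ s) ≤ X →
      δ * X ≤ q * K * M → 4 * q * K * M ≤ X → (q : ℝ) ≤ 1 / δ → ∀ f : ℤ → ℂ, Bdd X f →
      δ * (K * X) ≤ ∑ b ∈ Ioc K (2 * K), NU X s M (b * q) f →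
      ∃ q' : ℕ, 1 ≤ q' ∧ (q' : ℝ) ≤ (1 / δ) ^ C1 ∧ 4 * q' * ⌊δ ^ C2 * X⌋₊ ≤ X ∧ 1 ≤ ⌊δ ^ C2 * X⌋₊ ∧
        δ ^ C2 * X ≤ NU X s ⌊δ ^ C2 * X⌋₊ q' f)
    (δ : ℝ) (hδ : 0 < δ) (hδ' : δ ≤ 1 / 2) (X K H q R : ℕ) (hX : 1 ≤ X) (hK : 1 ≤ K) (hH : 1 ≤ H) (hq : 1 ≤ q) (hR : 1 ≤ R)
    (hdiv : ∀ n : ℕ, 1 ≤ n → n ≤ X → (n.divisors.card : ℝ) ≤ 1 / δ) (hKX : (1 / δ) ^ C2 * (K : ℝ) ^ (2 ^ s) ≤ X)
    (h1 : δ * X ≤ q * K * H) (h2 : 4 * q * K * H ≤ X) (hqδ : (q : ℝ) ≤ 1 / δ) (e : ℤ) (f : ℤ → ℂ) (hf : Bdd X f)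
    (hm : (2 * δ) * (2 * K * X) * R ≤ ∑ t ∈ Ioo (-(R : ℤ)) R, fw R t * ∑ b ∈ Ioc K (2 * K), NU X s H (b * q) (DD (e * t) f)) :
    ∃ q' : ℕ, 1 ≤ q' ∧ (q' : ℝ) ≤ (1 / δ) ^ C1 ∧ 4 * q' * ⌊δ ^ C2 * X⌋₊ ≤ X ∧ 1 ≤ ⌊δ ^ C2 * X⌋₊ ∧
      δ ^ (C1 + C2 + 1) * X ≤ (MQ X ((R, e) :: List.replicate s (⌊δ ^ C2 * X⌋₊, (q' : ℤ))) f).re := by
  have hR0 : (0 : ℝ) < R := by exact_mod_cast hR
  have hX0 : (0 : ℝ) < X := by exact_mod_cast hX
  have hK0 : (0 : ℝ) < K := by exact_mod_cast hK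
  -- popular differences
  have hpop := LL9_pop R hR (2 * K * X) (2 * δ) (by positivity) (fun t => ∑ b ∈ Ioc K (2 * K), NU X s H (b * q) (DD (e * t) f))
    (by
      intro t
      refine (sum_le_card_nsmul _ _ (2 * (X : ℝ)) fun b _ => ll9_NU_le X s H hH _ _ (Bdd_DD hf _)).trans ?_
      rw [Nat.card_Ioc, nsmul_eq_mul]
      have : 2 * K - K = K := by omega
      rw [this]
      exact le_of_eq (by ring)) hm
  set G := (Ioo (-(R : ℤ)) R).filter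
    (fun t => 2 * δ * (2 * K * X) / 2 ≤ ∑ b ∈ Ioc K (2 * K), NU X s H (b * q) (DD (e * t) f)) with hG
  have hpop' : δ * R ≤ ∑ t ∈ G, fw R t := by
    refine le_trans (le_of_eq ?_) hpop
    ring
  -- the value `q'` for every popular difference
  have hex : ∀ t ∈ G, ∃ q' : ℕ, 1 ≤ q' ∧ (q' : ℝ) ≤ (1 / δ) ^ C1 ∧ 4 * q' * ⌊δ ^ C2 * X⌋₊ ≤ X ∧ 1 ≤ ⌊δ ^ C2 * X⌋₊ ∧
      δ ^ C2 * X ≤ NU X s ⌊δ ^ C2 * X⌋₊ q' (DD (e * t) f) := by
    intro t ht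
    rw [hG, mem_filter] at ht
    refine hL δ hδ hδ' X K H q hK hH hq hdiv hKX h1 h2 hqδ (DD (e * t) f) (Bdd_DD hf _) (le_trans ?_ ht.2)
    have : (0 : ℝ) ≤ δ * (K * X) := by positivity
    have h3 : 2 * δ * (2 * K * X) / 2 = 2 * (δ * (K * X)) := by ring
    rw [h3]
    linarith
  choose! Q hQ using hex
  have hδ1 : (1 : ℝ) ≤ 1 / δ := by
    rw [le_div_iff₀ hδ]
    linarith
  have hN1 : 1 ≤ ⌊(1 / δ) ^ C1⌋₊ := Nat.le_floor (by exact_mod_cast one_le_pow₀ hδ1)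
  have hmaps : ∀ t ∈ G, Q t ∈ Icc 1 ⌊(1 / δ) ^ C1⌋₊ := by
    intro t ht
    rw [mem_Icc]
    exact ⟨(hQ t ht).1, Nat.le_floor (hQ t ht).2.1⟩
  obtain ⟨q', hq', hfib⟩ := exists_le_sum_fiber_of_maps_to_of_nsmul_le_sum (w := fun t => fw R t) (b := δ ^ (C1 + 1) * (R : ℝ)) hmaps
    ⟨1, by rw [mem_Icc]; exact ⟨le_rfl, hN1⟩⟩ (by
      refine le_trans ?_ hpop'
      rw [Nat.card_Icc, Nat.add_sub_cancel, nsmul_eq_mul]
      have h3 : ((⌊(1 / δ) ^ C1⌋₊ : ℕ) : ℝ) ≤ (1 / δ) ^ C1 := Nat.floor_le (by positivity)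
      calc ((⌊(1 / δ) ^ C1⌋₊ : ℕ) : ℝ) * (δ ^ (C1 + 1) * (R : ℝ)) ≤ (1 / δ) ^ C1 * (δ ^ (C1 + 1) * (R : ℝ)) :=
            mul_le_mul_of_nonneg_right h3 (by positivity)
        _ = δ * R := by
            rw [one_div, inv_pow, pow_succ]
            field_simp)
  -- a representative
  have hpos : 0 < δ ^ (C1 + 1) * (R : ℝ) := by positivity
  have hne : ∃ t0, t0 ∈ G ∧ Q t0 = q' := by
    by_contra hcon
    push Not at hcon
    have : G.filter (fun x => Q x = q') = ∅ := by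
      rw [filter_eq_empty_iff]
      intro x hx
      exact hcon x hx
    rw [this, sum_empty] at hfib
    linarith
  obtain ⟨t0, ht0, hQ0⟩ := hne
  obtain ⟨ha, hb, hc, hd, _⟩ := hQ t0 ht0
  rw [hQ0] at ha hb hc
  refine ⟨q', ha, hb, hc, hd, ?_⟩
  rw [ll9_cons X s _ R hd, le_div_iff₀ hR0]
  have hnn : ∀ t : ℤ, 0 ≤ NU X s ⌊δ ^ C2 * X⌋₊ (q' : ℤ) (DD (e * t) f) := by
    intro t
    refine NU_nonneg X s _ hs hd _ (by positivity) ?_ _ (Bdd_DD hf _).sup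
    have : q' * ⌊δ ^ C2 * X⌋₊ ≤ X := by
      refine le_trans ?_ hc
      rw [mul_assoc]
      exact Nat.le_mul_of_pos_left _ (by norm_num)
    exact_mod_cast this
  have hsub : ∑ t ∈ G.filter (fun x => Q x = q'), fw R t * NU X s ⌊δ ^ C2 * X⌋₊ (q' : ℤ) (DD (e * t) f) ≤
      ∑ t ∈ Ioo (-(R : ℤ)) R, fw R t * NU X s ⌊δ ^ C2 * X⌋₊ (q' : ℤ) (DD (e * t) f) :=
    sum_le_sum_of_subset_of_nonneg ((filter_subset _ _).trans (filter_subset _ _))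
      fun t _ _ => mul_nonneg (mq1_fw_nonneg R t) (hnn t)
  refine le_trans ?_ hsub
  have hlow : (∑ t ∈ G.filter (fun x => Q x = q'), fw R t) * (δ ^ C2 * X) ≤
      ∑ t ∈ G.filter (fun x => Q x = q'), fw R t * NU X s ⌊δ ^ C2 * X⌋₊ (q' : ℤ) (DD (e * t) f) := by
    rw [sum_mul]
    refine sum_le_sum fun t ht => mul_le_mul_of_nonneg_left ?_ (mq1_fw_nonneg R t)
    rw [mem_filter] at ht
    have := (hQ t ht.1).2.2.2.2
    rw [ht.2] at this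
    exact this
  refine le_trans ?_ hlow
  calc δ ^ (C1 + C2 + 1) * X * R = (δ ^ (C1 + 1) * R) * (δ ^ C2 * X) := by ring
    _ ≤ _ := mul_le_mul_of_nonneg_right hfib (by positivity)

/-- **Many differences.** `d = q γ`, `g_t = DD (d t) f` (bounded, `Bdd_DD`). The hypothesis says
`δ^C K² X R ≤ ∑_t fw R t ∑_p NU X s H (p.1 p.2 q) g_t` (`MQ`, `mq2_cons_re`, `MQ_NU`); `LL6_div` with `D = 1/δ` (`4K² ≤ X`, `NU ≥ 0` by `NU_nonneg`:
`n q H ≤ 4 K² q H ≤ X`; for larger `n` use `Φ n = max 0 (NU ..)`): at most `(1/δ) (Θ_1(t) + Θ_2(t))`, `Θ_j(t) = ∑_{n ∈ (K_j, 2K_j]} NU X s H (n q) g_t`,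
`K_1 = K²`, `K_2 = 2K²`, `0 ≤ Θ_j ≤ 2 K_j X`. One `j` has `∑_t fw Θ_j ≥ δ^(C+2) K² X R ≥ δ^(C+3) (2 K_j X) R / 2 ..`; `LL9_pop`: for `t` of weight
`≥ δ^(C+5) R` one has `Θ_j(t) ≥ δ' K_j X`, `δ' = δ^(C+5)`. `L(s)` for `δ'`, `K_j`, `H`, `q`, `g_t` (`δ' X ≤ q K_j H` because
`H ≥ δ^C M / (2K)`, `4 q K_j H ≤ 8 q K² δ^C M / K ≤ X` if `C ≥ 1`): `q'(t) ≤ (1/δ')^C1`. The most frequent value `q'` has weight `≥ δ^(C+5) δ'^C1 R`, and
`NU X s R2 q' g_t ≥ 0` for all `t`, so `MQ X ((R, d) :: replicate s (R2, q')) f ≥ δ^(C+5) δ'^C1 δ'^C2 X`, `R2 = ⌊δ'^C2 X⌋ = ⌊δ^D2 X⌋`. -/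
theorem LL9_many (s : ℕ) (hs : 1 ≤ s) (hL : LLP s) (C : ℕ) (hC : 1 ≤ C) : ∃ D1 D2 : ℕ, ∀ δ : ℝ, 0 < δ → δ ≤ 1 / 2 →
    ∀ X K M q γ R : ℕ, 1 ≤ K → 1 ≤ M → 1 ≤ q → 1 ≤ γ → 1 ≤ R →
    (∀ n : ℕ, 1 ≤ n → n ≤ X → (n.divisors.card : ℝ) ≤ 1 / δ) → (1 / δ) ^ D1 * (K : ℝ) ^ (2 ^ (s + 1)) ≤ X →
    δ * X ≤ q * K * M → 4 * q * K * M ≤ X → (q : ℝ) ≤ 1 / δ → q * γ * R ≤ X → 1 ≤ ⌊δ ^ C * M / K⌋₊ →
    ∀ f : ℤ → ℂ, Bdd X f →
    δ ^ C * ((K : ℝ) ^ 2 * X) ≤ ∑ p ∈ Ioc K (2 * K) ×ˢ Ioc K (2 * K),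
        (MQ X ((R, ((q * γ : ℕ) : ℤ)) :: List.replicate s (⌊δ ^ C * M / K⌋₊, ((p.1 * p.2 * q : ℕ) : ℤ))) f).re →
    ∃ q' : ℕ, 1 ≤ q' ∧ (q' : ℝ) ≤ (1 / δ) ^ D1 ∧ 4 * q' * ⌊δ ^ D2 * X⌋₊ ≤ X ∧ 1 ≤ ⌊δ ^ D2 * X⌋₊ ∧
      δ ^ D1 * X ≤ (MQ X ((R, ((q * γ : ℕ) : ℤ)) :: List.replicate s (⌊δ ^ D2 * X⌋₊, (q' : ℤ))) f).re := by
  obtain ⟨C1, C2, hL⟩ := hL
  refine ⟨(C + 5) * (C1 + C2 + 1) + 2 ^ s + 2, (C + 5) * C2, ?_⟩
  intro δ hδ hδ2 X K M q γ R hK hM hq hγ hR hdiv hKX h1 h2 hqδ hqR hH f hf hmain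
  set D1 := (C + 5) * (C1 + C2 + 1) + 2 ^ s + 2 with hD1
  set H := ⌊δ ^ C * M / K⌋₊ with hHdef
  have hps : 1 ≤ 2 ^ s := Nat.one_le_two_pow
  have hK0 : (0 : ℝ) < K := by exact_mod_cast hK
  have hK1 : (1 : ℝ) ≤ K := by exact_mod_cast hK
  have hM0 : (0 : ℝ) < M := by exact_mod_cast hM
  have hq0 : (0 : ℝ) < q := by exact_mod_cast hq
  have hR0 : (0 : ℝ) < R := by exact_mod_cast hR
  have hi2 : (2 : ℝ) ≤ 1 / δ := by
    rw [le_div_iff₀ hδ]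
    linarith
  have hi1 : (1 : ℝ) ≤ 1 / δ := by linarith
  have hi0 : (0 : ℝ) < 1 / δ := by linarith
  have hδ1 : δ ≤ 1 := by linarith
  have hX1 : (1 : ℝ) ≤ X := by
    refine le_trans ?_ hKX
    exact one_le_mul_of_one_le_of_one_le (one_le_pow₀ hi1) (one_le_pow₀ hK1)
  have hX0 : (0 : ℝ) < X := by linarith
  have hXn : 1 ≤ X := by exact_mod_cast hX1
  -- `4 K² ≤ X`
  have h4K : 4 * K ^ 2 ≤ X := by
    have h3 : (4 : ℝ) * (K : ℝ) ^ 2 ≤ X := by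
      refine le_trans ?_ hKX
      refine mul_le_mul ?_ ?_ (by positivity) (by positivity)
      · calc (4 : ℝ) = 2 ^ 2 := by norm_num
          _ ≤ (1 / δ) ^ 2 := pow_le_pow_left₀ (by norm_num) hi2 2
          _ ≤ (1 / δ) ^ D1 := pow_le_pow_right₀ hi1 (by omega)
      · refine pow_le_pow_right₀ hK1 ?_
        rw [pow_succ]
        have := Nat.one_le_two_pow (n := s)
        omega
    exact_mod_cast h3
  have hδC : δ ^ C ≤ δ := by
    calc δ ^ C ≤ δ ^ 1 := pow_le_pow_of_le_one hδ.le hδ1 hC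
      _ = δ := pow_one δ
  have hδC0 : 0 < δ ^ C := by positivity
  have hHle : (H : ℝ) ≤ δ ^ C * M / K := Nat.floor_le (by positivity)
  have hHge : δ ^ C * M / K / 2 ≤ H := by
    have h3 : δ ^ C * M / K < H + 1 := Nat.lt_floor_add_one _
    have h4 : (1 : ℝ) ≤ H := by exact_mod_cast hH
    linarith
  have h2' : (4 : ℝ) * q * K * M ≤ X := by exact_mod_cast h2
  -- `8 K² q H ≤ X`
  have h8 : (8 : ℝ) * K ^ 2 * q * H ≤ X := by
    calc (8 : ℝ) * K ^ 2 * q * H ≤ 8 * K ^ 2 * q * (δ ^ C * M / K) := mul_le_mul_of_nonneg_left hHle (by positivity)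
      _ = 2 * δ ^ C * (4 * q * K * M) := by
          field_simp
          ring
      _ ≤ 2 * δ ^ C * X := mul_le_mul_of_nonneg_left h2' (by positivity)
      _ ≤ 1 * X := mul_le_mul_of_nonneg_right (by linarith) hX0.le
      _ = X := one_mul _
  have h8n : 8 * K ^ 2 * q * H ≤ X := by exact_mod_cast h8
  -- the sum over the pairs
  have hsum : δ ^ (C + 1) * ((K : ℝ) ^ 2 * X) * R ≤ (∑ t ∈ Ioo (-(R : ℤ)) R, fw R t *
        ∑ n ∈ Ioc (K ^ 2) (2 * K ^ 2), NU X s H (n * q) (DD (((q * γ : ℕ) : ℤ) * t) f)) +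
      ∑ t ∈ Ioo (-(R : ℤ)) R, fw R t *
        ∑ n ∈ (Ioc (2 * K ^ 2) (2 * (2 * K ^ 2)) : Finset ℕ), NU X s H (n * q) (DD (((q * γ : ℕ) : ℤ) * t) f) := by
    have h3 : δ ^ C * ((K : ℝ) ^ 2 * X) * R ≤ ∑ t ∈ Ioo (-(R : ℤ)) R, fw R t *
        ∑ p ∈ Ioc K (2 * K) ×ˢ Ioc K (2 * K), NU X s H ((p.1 * p.2 * q : ℕ) : ℤ) (DD (((q * γ : ℕ) : ℤ) * t) f) := by
      rw [← le_div_iff₀ hR0]
      refine hmain.trans (le_of_eq ?_)
      rw [sum_congr rfl fun p _ => ll9_cons X s H R hH ((p.1 * p.2 * q : ℕ) : ℤ) ((q * γ : ℕ) : ℤ) f, ← sum_div, sum_comm]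
      congr 1
      refine sum_congr rfl fun t _ => ?_
      rw [mul_sum]
    have h5 : ∀ t ∈ Ioo (-(R : ℤ)) R, fw R t *
        ∑ p ∈ Ioc K (2 * K) ×ˢ Ioc K (2 * K), NU X s H ((p.1 * p.2 * q : ℕ) : ℤ) (DD (((q * γ : ℕ) : ℤ) * t) f) ≤
        (1 / δ) * (fw R t * ∑ n ∈ Ioc (K ^ 2) (2 * K ^ 2), NU X s H (n * q) (DD (((q * γ : ℕ) : ℤ) * t) f) +
          fw R t * ∑ n ∈ (Ioc (2 * K ^ 2) (2 * (2 * K ^ 2)) : Finset ℕ), NU X s H (n * q) (DD (((q * γ : ℕ) : ℤ) * t) f)) := by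
      intro t _
      have h6 := ll9_div X s K H q (1 / δ) hs hH h4K hdiv
        (le_trans (Nat.mul_le_mul_right H (Nat.mul_le_mul_right q (Nat.mul_le_mul_right (K ^ 2) (by norm_num)))) h8n)
        (DD (((q * γ : ℕ) : ℤ) * t) f) (Bdd_DD hf _)
      refine (mul_le_mul_of_nonneg_left h6 (mq1_fw_nonneg R t)).trans (le_of_eq ?_)
      ring
    have h7 := h3.trans (sum_le_sum h5)
    rw [← mul_sum, sum_add_distrib] at h7
    have h9 := mul_le_mul_of_nonneg_left h7 hδ.le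
    rw [← mul_assoc δ (1 / δ), mul_one_div_cancel hδ.ne', one_mul] at h9
    refine le_trans (le_of_eq ?_) h9
    ring
  -- `δ' = δ^(C+5)`
  set δ' := δ ^ (C + 5) with hδ'
  have hδ'0 : 0 < δ' := by positivity
  have hδ'1 : δ' ≤ δ := by
    calc δ' ≤ δ ^ 1 := pow_le_pow_of_le_one hδ.le hδ1 (by omega)
      _ = δ := pow_one δ
  have hinv : (1 / δ') = (1 / δ) ^ (C + 5) := by
    rw [hδ', one_div, one_div, inv_pow]
  have hii : 1 / δ ≤ 1 / δ' := one_div_le_one_div_of_le hδ'0 hδ'1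
  have hp2 : δ' ^ C2 = δ ^ ((C + 5) * C2) := by rw [hδ', ← pow_mul]
  have hkey : ∀ Kj : ℕ, K ^ 2 ≤ Kj → Kj ≤ 2 * K ^ 2 →
      (2 * δ') * (2 * Kj * X) * R ≤ ∑ t ∈ Ioo (-(R : ℤ)) R, fw R t *
        ∑ n ∈ Ioc Kj (2 * Kj), NU X s H (n * q) (DD (((q * γ : ℕ) : ℤ) * t) f) →
      ∃ q' : ℕ, 1 ≤ q' ∧ (q' : ℝ) ≤ (1 / δ) ^ D1 ∧ 4 * q' * ⌊δ ^ ((C + 5) * C2) * X⌋₊ ≤ X ∧ 1 ≤ ⌊δ ^ ((C + 5) * C2) * X⌋₊ ∧
      δ ^ D1 * X ≤ (MQ X ((R, ((q * γ : ℕ) : ℤ)) :: List.replicate s (⌊δ ^ ((C + 5) * C2) * X⌋₊, (q' : ℤ))) f).re := by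
    intro Kj hKj1 hKj2 hm
    have hKjr1 : (K : ℝ) ^ 2 ≤ Kj := by exact_mod_cast hKj1
    have hKjr2 : (Kj : ℝ) ≤ 2 * (K : ℝ) ^ 2 := by exact_mod_cast hKj2
    have hKjp : 1 ≤ Kj := le_trans (Nat.one_le_pow _ _ hK) hKj1
    obtain ⟨q', e1, e2, e3, e4, e5⟩ := ll9_one s hs C1 C2 hL δ' hδ'0 (hδ'1.trans hδ2) X Kj H q R hXn hKjp hH hq hR
      (fun n n1 n2 => (hdiv n n1 n2).trans hii)
      (by
        refine le_trans ?_ hKX
        have a1 : (Kj : ℝ) ^ (2 ^ s) ≤ 2 ^ (2 ^ s) * (K : ℝ) ^ (2 ^ (s + 1)) := by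
          calc (Kj : ℝ) ^ (2 ^ s) ≤ (2 * (K : ℝ) ^ 2) ^ (2 ^ s) := pow_le_pow_left₀ (by positivity) hKjr2 _
            _ = 2 ^ (2 ^ s) * (K : ℝ) ^ (2 ^ (s + 1)) := by
                rw [mul_pow, ← pow_mul, pow_succ, mul_comm 2 (2 ^ s)]
        have a2 : (2 : ℝ) ^ (2 ^ s) ≤ (1 / δ) ^ (2 ^ s) := pow_le_pow_left₀ (by norm_num) hi2 _
        calc (1 / δ') ^ C2 * (Kj : ℝ) ^ (2 ^ s) ≤ (1 / δ') ^ C2 * ((1 / δ) ^ (2 ^ s) * (K : ℝ) ^ (2 ^ (s + 1))) := by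
              refine mul_le_mul_of_nonneg_left (a1.trans ?_) (by positivity)
              exact mul_le_mul_of_nonneg_right a2 (by positivity)
          _ = (1 / δ) ^ ((C + 5) * C2 + 2 ^ s) * (K : ℝ) ^ (2 ^ (s + 1)) := by
              rw [hinv, ← pow_mul, pow_add (1 / δ) ((C + 5) * C2) (2 ^ s), mul_assoc]
          _ ≤ (1 / δ) ^ D1 * (K : ℝ) ^ (2 ^ (s + 1)) := by
              refine mul_le_mul_of_nonneg_right (pow_le_pow_right₀ hi1 ?_) (by positivity)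
              rw [hD1]
              have : (C + 5) * C2 ≤ (C + 5) * (C1 + C2 + 1) := Nat.mul_le_mul_left _ (by omega)
              omega)
      (by
        calc δ' * X ≤ δ ^ (C + 2) * X := by
              refine mul_le_mul_of_nonneg_right ?_ hX0.le
              exact pow_le_pow_of_le_one hδ.le hδ1 (by omega)
          _ = (δ * δ ^ C) * (δ * X) := by ring
          _ ≤ (1 / 2 * δ ^ C) * (q * K * M) := by
              refine mul_le_mul ?_ h1 (by positivity) (by positivity)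
              exact mul_le_mul_of_nonneg_right hδ2 hδC0.le
          _ = q * (K : ℝ) ^ 2 * (δ ^ C * M / K / 2) := by
              field_simp
          _ ≤ q * Kj * H := by
              refine mul_le_mul (mul_le_mul_of_nonneg_left hKjr1 hq0.le) hHge (by positivity) (by positivity))
      (by
        calc 4 * q * Kj * H ≤ 4 * q * (2 * K ^ 2) * H :=
              Nat.mul_le_mul_right H (Nat.mul_le_mul_left (4 * q) hKj2)
          _ = 8 * K ^ 2 * q * H := by ring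
          _ ≤ X := h8n)
      (hqδ.trans hii) ((q * γ : ℕ) : ℤ) f hf hm
    rw [hp2] at e3 e4 e5
    refine ⟨q', e1, ?_, e3, e4, le_trans ?_ e5⟩
    · refine e2.trans ?_
      rw [hinv, ← pow_mul]
      refine pow_le_pow_right₀ hi1 ?_
      rw [hD1]
      have : (C + 5) * C1 ≤ (C + 5) * (C1 + C2 + 1) := Nat.mul_le_mul_left _ (by omega)
      omega
    · refine mul_le_mul_of_nonneg_right ?_ hX0.le
      rw [hδ', ← pow_mul]
      refine pow_le_pow_of_le_one hδ.le hδ1 ?_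
      rw [hD1]
      omega
  -- one of the two ranges
  have hA : (4 * δ') ≤ δ ^ (C + 1) / 4 := by
    have a1 : δ ^ 4 ≤ (1 / 2 : ℝ) ^ 4 := pow_le_pow_left₀ hδ.le hδ2 4
    calc 4 * δ' = 4 * (δ ^ (C + 1) * δ ^ 4) := by rw [hδ']; ring
      _ ≤ 4 * (δ ^ (C + 1) * (1 / 2) ^ 4) := by
          refine mul_le_mul_of_nonneg_left ?_ (by norm_num)
          exact mul_le_mul_of_nonneg_left a1 (by positivity)
      _ = δ ^ (C + 1) / 4 := by ring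
  have hKXR : (0 : ℝ) < (K : ℝ) ^ 2 * X * R := by positivity
  have hlow : (4 * δ') * ((K : ℝ) ^ 2 * X * R) ≤ δ ^ (C + 1) * ((K : ℝ) ^ 2 * X) * R / 4 := by
    refine (mul_le_mul_of_nonneg_right hA hKXR.le).trans (le_of_eq ?_)
    ring
  have hpos' : 0 < δ ^ (C + 1) * ((K : ℝ) ^ 2 * X) * R := by positivity
  rcases le_total (δ ^ (C + 1) * ((K : ℝ) ^ 2 * X) * R / 2) (∑ t ∈ Ioo (-(R : ℤ)) R, fw R t *
        ∑ n ∈ Ioc (K ^ 2) (2 * K ^ 2), NU X s H (n * q) (DD (((q * γ : ℕ) : ℤ) * t) f)) with hc | hc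
  · refine hkey (K ^ 2) le_rfl (by omega) (le_trans ?_ hc)
    have : (2 * δ') * (2 * ((K ^ 2 : ℕ) : ℝ) * X) * R = (4 * δ') * ((K : ℝ) ^ 2 * X * R) := by
      push_cast
      ring
    rw [this]
    linarith
  · have hc2 : δ ^ (C + 1) * ((K : ℝ) ^ 2 * X) * R / 2 ≤ ∑ t ∈ Ioo (-(R : ℤ)) R, fw R t *
        ∑ n ∈ (Ioc (2 * K ^ 2) (2 * (2 * K ^ 2)) : Finset ℕ), NU X s H (n * q) (DD (((q * γ : ℕ) : ℤ) * t) f) := by
      linarith
    refine hkey (2 * K ^ 2) (by omega) le_rfl (le_trans ?_ hc2)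
    have : (2 * δ') * (2 * ((2 * K ^ 2 : ℕ) : ℝ) * X) * R = 2 * ((4 * δ') * ((K : ℝ) ^ 2 * X * R)) := by
      push_cast
      ring
    rw [this]
    linarith

end Pool.Agent.HUK
end

-- from Lib.HUK.LL10
section

/-!
# Project HUK, chunk LL10 (M): the induction
-/

open Finset

namespace Pool.Agent.HUK

/-- From two differences to one: `MQ_change` for the first entry (factor `q'`), then `mq2_many` for the others (factor `d = q γ`, `n = s`,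
`m = 1`, `MQ_perm`), `MQ_NU`. `R3 = ⌊δ^E X⌋` with `E` large in terms of `A`. -/
theorem LL10_one (s A : ℕ) : ∃ E : ℕ, A ≤ E ∧ ∀ δ : ℝ, 0 < δ → δ ≤ 1 / 2 → ∀ X d q' R R2 : ℕ, 1 ≤ d → 1 ≤ q' → 1 ≤ R → 1 ≤ R2 →
    (1 / δ) ^ E ≤ X → (d : ℝ) ≤ (1 / δ) ^ A → (q' : ℝ) ≤ (1 / δ) ^ A → δ ^ A * X ≤ R → δ ^ A * X ≤ R2 → d * R ≤ X → q' * R2 ≤ X →
    ∀ f : ℤ → ℂ, Bdd X f → δ ^ A * X ≤ (MQ X ((R, (d : ℤ)) :: List.replicate s (R2, (q' : ℤ))) f).re →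
    4 * (d * q') * ⌊δ ^ E * X⌋₊ ≤ X ∧ 1 ≤ ⌊δ ^ E * X⌋₊ ∧ δ ^ E * X ≤ NU X (s + 1) ⌊δ ^ E * X⌋₊ ((d * q' : ℕ) : ℤ) f := by
  refine ⟨3 * A + s + 7, by omega, ?_⟩
  intro δ hδ hδ2 X d q' R R2 hd hq hR hR2 hX hdA hqA hRA hR2A hdR hqR f hf hmain
  have hX0 : (0 : ℝ) < X := lt_of_lt_of_le (by positivity) hX
  have hR' : (0 : ℝ) < R := by exact_mod_cast hR
  have hR2' : (0 : ℝ) < R2 := by exact_mod_cast hR2
  have hδ1 : δ ≤ 1 := by linarith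
  set E := 3 * A + s + 7 with hE
  have hEX : 1 ≤ δ ^ E * X := by
    calc (1 : ℝ) = δ ^ E * (1 / δ) ^ E := by
          rw [← mul_pow, mul_one_div_cancel hδ.ne', one_pow]
      _ ≤ δ ^ E * X := mul_le_mul_of_nonneg_left hX (by positivity)
  set R3 := ⌊δ ^ E * X⌋₊ with hR3
  have hR3one : 1 ≤ R3 := Nat.le_floor (by exact_mod_cast hEX)
  have hR3le : (R3 : ℝ) ≤ δ ^ E * X := Nat.floor_le (by positivity)
  set u : ℝ := δ ^ (A + s + 7) with hu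
  have hu0 : 0 < u := by positivity
  have hEu : δ ^ E = δ ^ A * δ ^ A * u := by
    rw [hu, ← pow_add, ← pow_add, hE]
    congr 1
    ring
  have hinv : (1 / δ) ^ A * δ ^ A = 1 := by
    rw [← mul_pow, one_div_mul_cancel hδ.ne', one_pow]
  have k1 : ∀ c : ℕ, (c : ℝ) ≤ (1 / δ) ^ A → (c : ℝ) * R3 ≤ u * (δ ^ A * X) := by
    intro c hc
    calc (c : ℝ) * R3 ≤ (1 / δ) ^ A * (δ ^ E * X) :=
          mul_le_mul hc hR3le (by positivity) (by positivity)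
      _ = ((1 / δ) ^ A * δ ^ A) * (u * (δ ^ A * X)) := by
          rw [hEu]
          ring
      _ = u * (δ ^ A * X) := by
          rw [hinv, one_mul]
  have k2 : (q' : ℝ) * R3 / R ≤ u := by
    rw [div_le_iff₀ hR']
    exact (k1 q' hqA).trans (mul_le_mul_of_nonneg_left hRA hu0.le)
  have k3 : (d : ℝ) * R3 / R2 ≤ u := by
    rw [div_le_iff₀ hR2']
    exact (k1 d hdA).trans (mul_le_mul_of_nonneg_left hR2A hu0.le)
  have hu7 : u ≤ 1 / 4 := by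
    have h1 : u ≤ δ ^ 2 := pow_le_pow_of_le_one hδ.le hδ1 (by omega)
    have h2 : δ ^ 2 ≤ (1 / 2) ^ 2 := pow_le_pow_left₀ hδ.le hδ2 2
    calc u ≤ (1 / 2) ^ 2 := h1.trans h2
      _ = 1 / 4 := by norm_num
  have k4 : (d : ℝ) * (q' * R3) ≤ u * X := by
    calc (d : ℝ) * (q' * R3) ≤ (1 / δ) ^ A * (u * (δ ^ A * X)) :=
          mul_le_mul hdA (k1 q' hqA) (by positivity) (by positivity)
      _ = ((1 / δ) ^ A * δ ^ A) * (u * X) := by ring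
      _ = u * X := by rw [hinv, one_mul]
  have k5 : 4 * (d * q') * R3 ≤ X := by
    have h1 : ((4 * (d * q') * R3 : ℕ) : ℝ) ≤ X := by
      push_cast
      have h2 : u * X ≤ 1 / 4 * X := mul_le_mul_of_nonneg_right hu7 hX0.le
      linarith
    exact_mod_cast h1
  have k6 : d * (q' * R3) ≤ X := by nlinarith
  have k7 : q' * (d * R3) ≤ X := by
    calc q' * (d * R3) = d * (q' * R3) := by ring
      _ ≤ X := k6
  refine ⟨k5, hR3one, ?_⟩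
  have h1 := MQ_change X R R3 q' hR hR3one hq (d : ℤ) (by positivity) (by exact_mod_cast hdR)
    (by exact_mod_cast k6) (List.replicate s (R2, (q' : ℤ))) (by
      intro p hp
      rw [(List.mem_replicate.1 hp).2]
      exact hR2) f hf
  have h2 : ((R3, (d : ℤ) * q') :: List.replicate s (R2, (q' : ℤ))).Perm
      (List.replicate s (R2, (q' : ℤ)) ++ List.replicate 1 (R3, (q' : ℤ) * d)) := by
    rw [mul_comm (d : ℤ) q', List.replicate_one]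
    exact (List.perm_append_singleton _ _).symm
  rw [MQ_perm X h2 f] at h1
  have h3 := mq2_many X R2 R3 d hR2 hR3one hd (q' : ℤ) (by positivity) (by exact_mod_cast hqR)
    (by exact_mod_cast k7) f hf s 1
  rw [MQ_NU X (s + 1) R3 hR3one ((q' : ℤ) * d) f] at h3
  have h4 : ((d * q' : ℕ) : ℤ) = (q' : ℤ) * d := by
    push_cast
    ring
  rw [h4]
  set N := NU X (s + 1) R3 ((q' : ℤ) * d) f with hN
  have h5 : (q' * R3 / R : ℝ) ^ 2 ≤ u ^ 2 := pow_le_pow_left₀ (by positivity) k2 2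
  have h6 : (d * R3 / R2 : ℝ) ^ 2 ≤ u ^ 2 := pow_le_pow_left₀ (by positivity) k3 2
  have h7 : (1 : ℝ) ≤ 2 ^ s := one_le_pow₀ (by norm_num)
  have h8 : 32 * X * (q' * R3 / R : ℝ) ^ 2 ≤ 32 * X * u ^ 2 :=
    mul_le_mul_of_nonneg_left h5 (by positivity)
  have h9 : (2 ^ s - 1) * (32 * X * (d * R3 / R2 : ℝ) ^ 2) ≤ (2 ^ s - 1) * (32 * X * u ^ 2) :=
    mul_le_mul_of_nonneg_left (mul_le_mul_of_nonneg_left h6 (by positivity)) (by linarith)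
  have h10 : δ ^ A * X ≤ 2 ^ (s + 1) * N + 2 ^ (s + 1) * (32 * X * u ^ 2) := by
    rw [pow_succ]
    nlinarith [mul_nonneg (mul_nonneg (by norm_num : (0 : ℝ) ≤ 32) hX0.le) (sq_nonneg u)]
  have h11 : 2 ^ (s + 1) * (32 * X * u ^ 2) ≤ δ ^ A * X / 2 := by
    have e1 : u = δ ^ A * δ ^ (s + 7) := by
      rw [hu, ← pow_add]
      congr 1
    have e2 : (2 : ℝ) ^ (s + 7) * δ ^ (s + 7) ≤ 1 := by
      rw [← mul_pow]
      exact pow_le_one₀ (by positivity) (by linarith)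
    have e3 : u ≤ 1 := by linarith
    calc 2 ^ (s + 1) * (32 * X * u ^ 2) = (2 : ℝ) ^ (s + 7) / 2 * u * (u * X) := by
          rw [pow_succ, pow_add]
          ring
      _ = (2 : ℝ) ^ (s + 7) * δ ^ (s + 7) * (δ ^ A * (u * X) / 2) := by
          nth_rewrite 1 [e1]
          ring
      _ ≤ 1 * (δ ^ A * (u * X) / 2) := mul_le_mul_of_nonneg_right e2 (by positivity)
      _ ≤ δ ^ A * X / 2 := by
          rw [one_mul]
          have e4 : u * X ≤ X := by nlinarith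
          have e5 := mul_le_mul_of_nonneg_left e4 (by positivity : 0 ≤ δ ^ A)
          linarith
  have h12 : δ ^ A * X / 2 ≤ 2 ^ (s + 1) * N := by linarith
  have h13 : δ ^ E * X * 2 ^ (s + 2) ≤ δ ^ A * X := by
    have e1 : δ ^ E ≤ δ ^ A * δ ^ (s + 2) := by
      rw [← pow_add]
      exact pow_le_pow_of_le_one hδ.le hδ1 (by omega)
    have e2 : δ ^ (s + 2) * (2 : ℝ) ^ (s + 2) ≤ 1 := by
      rw [← mul_pow]
      exact pow_le_one₀ (by positivity) (by linarith)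
    calc δ ^ E * X * 2 ^ (s + 2) ≤ (δ ^ A * δ ^ (s + 2)) * X * 2 ^ (s + 2) := by gcongr
      _ = (δ ^ A * X) * (δ ^ (s + 2) * (2 : ℝ) ^ (s + 2)) := by ring
      _ ≤ (δ ^ A * X) * 1 := mul_le_mul_of_nonneg_left e2 (by positivity)
      _ = δ ^ A * X := mul_one _
  have h14 : (2 : ℝ) ^ (s + 2) = 2 ^ (s + 1) * 2 := by rw [pow_succ]
  rw [h14] at h13
  have h15 : (0 : ℝ) < 2 ^ (s + 1) := by positivity
  have h16 : 2 ^ (s + 1) * (δ ^ E * X) ≤ 2 ^ (s + 1) * N := by linarith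
  exact le_of_mul_le_mul_left h16 h15

theorem ll10_floor (x : ℝ) (h : 1 ≤ ⌊x⌋₊) : x / 2 ≤ (⌊x⌋₊ : ℝ) := by
  have h1 := Nat.lt_floor_add_one x
  have h2 : (1 : ℝ) ≤ (⌊x⌋₊ : ℝ) := by exact_mod_cast h
  linarith

/-- Base: `LL8_pairs 0` (`K²` equal terms `MQ X [(R, q γ)] f = NU X 1 R (q γ) f`). -/
theorem LL10_base : LLP 1 := by
  obtain ⟨C, hC, h8⟩ := LL8_pairs 0
  refine ⟨C + 1, C + 2, ?_⟩
  intro δ hδ hδ2 X K M q hK hM hq hdiv hX h1 h2 h3 f hf h4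
  have hK' : (0 : ℝ) < K := by exact_mod_cast hK
  have hX0 : (0 : ℝ) < X := lt_of_lt_of_le (by positivity) hX
  obtain ⟨-, hR, γ, hγ, hγC, hγX, hmain⟩ := h8 δ hδ hδ2 X K M q hK hM hq (by simpa using hX) h1 h2 h3 f hf h4
  refine ⟨q * γ, Nat.mul_pos hq hγ, ?_, hγX, hR, ?_⟩
  · push_cast
    calc (q : ℝ) * γ ≤ (1 / δ) * (1 / δ) ^ C := mul_le_mul h3 hγC (by positivity) (by positivity)
      _ = (1 / δ) ^ (C + 1) := by rw [pow_succ, mul_comm]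
  · have e1 : ∀ p ∈ Ioc K (2 * K) ×ˢ Ioc K (2 * K),
        (MQ X ((⌊δ ^ (C + 2) * X⌋₊, ((q * γ : ℕ) : ℤ)) ::
          List.replicate 0 (⌊δ ^ C * M / K⌋₊, ((p.1 * p.2 * q : ℕ) : ℤ))) f).re =
        NU X 1 ⌊δ ^ (C + 2) * X⌋₊ ((q * γ : ℕ) : ℤ) f := by
      intro p _
      exact MQ_NU X 1 _ hR _ f
    rw [Finset.sum_congr rfl e1, Finset.sum_const, card_product, Nat.card_Ioc, nsmul_eq_mul] at hmain
    have e2 : ((((2 * K - K) * (2 * K - K) : ℕ) : ℝ)) = (K : ℝ) ^ 2 := by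
      have : 2 * K - K = K := by omega
      rw [this]
      push_cast
      ring
    rw [e2] at hmain
    have e3 : (K : ℝ) ^ 2 * (δ ^ C * X) ≤ (K : ℝ) ^ 2 * NU X 1 ⌊δ ^ (C + 2) * X⌋₊ ((q * γ : ℕ) : ℤ) f := by
      refine le_trans (le_of_eq ?_) hmain
      ring
    have e4 := le_of_mul_le_mul_left e3 (by positivity)
    refine le_trans ?_ e4
    exact mul_le_mul_of_nonneg_right (pow_le_pow_of_le_one hδ.le (by linarith) (by omega)) hX0.le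

/-- Step: `LL8_pairs s`, `LL9_many`, `LL10_one` (`d = q γ`; `R = ⌊δ^(C+2) X⌋ ≥ δ^(C+3) X`, because `δ^(C+2) X ≥ 1`). -/
theorem LL10_step (s : ℕ) (hs : 1 ≤ s) (hL : LLP s) : LLP (s + 1) := by
  obtain ⟨C, hC, h8⟩ := LL8_pairs s
  obtain ⟨D1, D2, h9⟩ := LL9_many s hs hL C hC
  obtain ⟨E, hE, h10⟩ := LL10_one s (C + 3 + D1 + D2 + 1)
  refine ⟨C + 1 + D1, E, ?_⟩
  intro δ hδ hδ2 X K M q hK hM hq hdiv hX h1 h2 h3 f hf h4
  have hδ1 : δ ≤ 1 := by linarith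
  have hinv : (1 : ℝ) ≤ 1 / δ := by
    rw [le_div_iff₀ hδ]
    linarith
  have hK' : (1 : ℝ) ≤ K := by exact_mod_cast hK
  have hX0 : (0 : ℝ) < X := lt_of_lt_of_le (by positivity) hX
  have hK1 : (1 : ℝ) ≤ (K : ℝ) ^ (2 ^ (s + 1)) := one_le_pow₀ hK'
  have hXE : (1 / δ) ^ E ≤ X := by
    refine le_trans ?_ hX
    exact le_mul_of_one_le_right (by positivity) hK1
  have hX1 : (1 / δ) ^ (C + 2) * (K : ℝ) ^ 2 ≤ X := by
    refine le_trans ?_ hX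
    refine mul_le_mul (pow_le_pow_right₀ hinv (by omega)) ?_ (by positivity) (by positivity)
    refine pow_le_pow_right₀ hK' ?_
    calc 2 = 2 ^ 1 := (pow_one 2).symm
      _ ≤ 2 ^ (s + 1) := Nat.pow_le_pow_right (by norm_num) (by omega)
  have hX2 : (1 / δ) ^ D1 * (K : ℝ) ^ (2 ^ (s + 1)) ≤ X := by
    refine le_trans ?_ hX
    exact mul_le_mul_of_nonneg_right (pow_le_pow_right₀ hinv (by omega)) (by positivity)
  obtain ⟨hH, hR, γ, hγ, hγC, hγX, hmain⟩ := h8 δ hδ hδ2 X K M q hK hM hq hX1 h1 h2 h3 f hf h4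
  have hdR : q * γ * ⌊δ ^ (C + 2) * X⌋₊ ≤ X := by nlinarith
  obtain ⟨q', hq', hq'D, hq'X, hR2, hmain2⟩ := h9 δ hδ hδ2 X K M q γ ⌊δ ^ (C + 2) * X⌋₊ hK hM hq hγ hR
    hdiv hX2 h1 h2 h3 hdR hH f hf hmain
  have hqR2 : q' * ⌊δ ^ D2 * X⌋₊ ≤ X := by nlinarith
  have hfl : ∀ n : ℕ, 1 ≤ ⌊δ ^ n * X⌋₊ → δ ^ (n + 1) * X ≤ (⌊δ ^ n * X⌋₊ : ℝ) := by
    intro n hn
    refine le_trans ?_ (ll10_floor _ hn)
    calc δ ^ (n + 1) * X = δ * (δ ^ n * X) := by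
          rw [pow_succ]
          ring
      _ ≤ 1 / 2 * (δ ^ n * X) := mul_le_mul_of_nonneg_right hδ2 (by positivity)
      _ = δ ^ n * X / 2 := by ring
  have hle : ∀ m n : ℕ, m ≤ n → δ ^ n * X ≤ δ ^ m * X := fun m n hmn =>
    mul_le_mul_of_nonneg_right (pow_le_pow_of_le_one hδ.le hδ1 hmn) hX0.le
  have hdA : ((q * γ : ℕ) : ℝ) ≤ (1 / δ) ^ (C + 1) := by
    push_cast
    calc (q : ℝ) * γ ≤ (1 / δ) * (1 / δ) ^ C := mul_le_mul h3 hγC (by positivity) (by positivity)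
      _ = (1 / δ) ^ (C + 1) := by rw [pow_succ, mul_comm]
  obtain ⟨k1, k2, k3⟩ := h10 δ hδ hδ2 X (q * γ) q' ⌊δ ^ (C + 2) * X⌋₊ ⌊δ ^ D2 * X⌋₊
    (Nat.mul_pos hq hγ) hq' hR hR2 hXE
    (hdA.trans (pow_le_pow_right₀ hinv (by omega)))
    (hq'D.trans (pow_le_pow_right₀ hinv (by omega)))
    ((hle _ _ (by omega)).trans (hfl (C + 2) hR))
    ((hle _ _ (by omega)).trans (hfl D2 hR2)) hdR hqR2 f hf
    ((hle _ _ (by omega)).trans hmain2)
  refine ⟨q * γ * q', Nat.mul_pos (Nat.mul_pos hq hγ) hq', ?_, k1, k2, k3⟩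
  push_cast
  push_cast at hdA
  calc (q : ℝ) * γ * q' ≤ (1 / δ) ^ (C + 1) * (1 / δ) ^ D1 :=
        mul_le_mul hdA hq'D (by positivity) (by positivity)
    _ = (1 / δ) ^ (C + 1 + D1) := (pow_add _ _ _).symm

theorem LL10_all (s : ℕ) (hs : 1 ≤ s) : LLP s := by
  induction s, hs using Nat.le_induction with
  | base => exact LL10_base
  | succ n hn ih => exact LL10_step n hn ih

end Pool.Agent.HUK
end

-- from Lib.HUK.LL
section

/-!
# Project HUK, chunk LL: from the directions `b q`, `b ∈ (K, 2K]`, to one small direction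
-/

open Finset

namespace Pool.Agent.HUK

/-- PROOF.md, 2.7. -/
theorem LL_main (s : ℕ) (hs : 1 ≤ s) : ∃ C1 C2 : ℕ, ∀ δ : ℝ, 0 < δ → δ ≤ 1 / 2 → ∀ X K M q : ℕ, 1 ≤ K → 1 ≤ M → 1 ≤ q →
    (∀ n : ℕ, 1 ≤ n → n ≤ X → (n.divisors.card : ℝ) ≤ 1 / δ) → (1 / δ) ^ C2 * (K : ℝ) ^ (2 ^ s) ≤ X →
    δ * X ≤ q * K * M → 4 * q * K * M ≤ X → (q : ℝ) ≤ 1 / δ → ∀ f : ℤ → ℂ, Bdd X f →
    δ * (K * X) ≤ ∑ b ∈ Ioc K (2 * K), NU X s M (b * q) f →
    ∃ q' : ℕ, 1 ≤ q' ∧ (q' : ℝ) ≤ (1 / δ) ^ C1 ∧ 4 * q' * ⌊δ ^ C2 * X⌋₊ ≤ X ∧ 1 ≤ ⌊δ ^ C2 * X⌋₊ ∧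
      δ ^ C2 * X ≤ NU X s ⌊δ ^ C2 * X⌋₊ q' f :=
  LL10_all s hs

end Pool.Agent.HUK
end
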