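import Pool.Agent.Lib.H59M.M2.M049
import Pool.Agent.Lib.H59M.M2.M050
import Pool.Agent.Lib.H59M.M2.M058

/-! Merged copies (to shorten the build) of Lib.H21T.B5, Lib.H21T.B6, Lib.H21T.B9, Lib.H21T.B11, Lib.H21T.Z5A. -/

-- from Lib.H21T.B5
section

/-!
# Chunk B5 (S/M): one piece
-/

namespace Pool.Agent.Lib.H21T

open Finset Pool.Agent.SZW

/-- A residue class in an interval is a progression: if the set is not empty let `a` be its smallest element and `W` its cardinality; it is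
the image of `range W` under `j ↦ a + q j`. -/
theorem b5_ap (a0 a1 q r : ℕ) (hq : 1 ≤ q) : ∃ a W : ℕ, a0 ≤ a ∧ (∀ j < W, a + q * j < a1) ∧ W ≤ a1 - a0 ∧
    (Ico a0 a1).filter (fun a => a % q = r) = (range W).image fun j => a + q * j := by
  rcases Finset.eq_empty_or_nonempty ((Ico a0 a1).filter (fun a => a % q = r)) with h | h
  · refine ⟨a0, 0, le_refl _, ?_, Nat.zero_le _, ?_⟩
    · intro j hj
      omega
    · rw [h]
      simp
  · obtain ⟨a, ha⟩ : ∃ a, a = ((Ico a0 a1).filter (fun a => a % q = r)).min' h := ⟨_, rfl⟩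
    have ham : a ∈ (Ico a0 a1).filter (fun a => a % q = r) := by
      rw [ha]
      exact Finset.min'_mem _ h
    have hmin : ∀ b ∈ (Ico a0 a1).filter (fun a => a % q = r), a ≤ b := by
      intro b hb
      rw [ha]
      exact Finset.min'_le _ b hb
    rw [mem_filter, mem_Ico] at ham
    obtain ⟨⟨h1, h2⟩, h3⟩ := ham
    have hW : ∀ j, j < (a1 - a - 1) / q + 1 → a + q * j < a1 := by
      intro j hj
      have h4 : j ≤ (a1 - a - 1) / q := by omega
      have h5 : j * q ≤ a1 - a - 1 := (Nat.le_div_iff_mul_le (by omega)).1 h4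
      have h6 : q * j = j * q := Nat.mul_comm q j
      omega
    refine ⟨a, (a1 - a - 1) / q + 1, h1, hW, ?_, ?_⟩
    · have := Nat.div_le_self (a1 - a - 1) q
      omega
    · ext b
      rw [mem_image]
      constructor
      · intro hb
        have h4 := hmin b hb
        rw [mem_filter, mem_Ico] at hb
        have h5 : a ≡ b [MOD q] := by
          unfold Nat.ModEq
          rw [h3, hb.2]
        obtain ⟨j, hj⟩ := (Nat.modEq_iff_dvd' h4).1 h5
        refine ⟨j, ?_, by omega⟩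
        rw [mem_range]
        have h6 : j * q ≤ a1 - a - 1 := by
          rw [Nat.mul_comm]
          omega
        have h7 := (Nat.le_div_iff_mul_le (by omega : 0 < q)).2 h6
        omega
      · rintro ⟨j, hj, rfl⟩
        rw [mem_range] at hj
        rw [mem_filter, mem_Ico]
        refine ⟨⟨by omega, hW j hj⟩, ?_⟩
        rw [Nat.add_mul_mod_self_left]
        exact h3

/-- `b5_ap` and `b3` for `y j = yv x q r' (a + q j)`, `z j = yv (x + H) q r' (a + q j)`, `η = 3 / S` (`b4` with `a + q l s` in place of `a`; for `(l + 1) s ≤ W`, `j < s`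
the point `a + q (l s + j)` is `< a1 ≤ a0 + Λ`). The map `j ↦ a + q j` is injective. `W ≤ Λ`, so the bound is `W / s + 12 W / S + s ≤ Λ (1 / s + 12 / S) + S`. -/
theorem b5 {A x X S Λ : ℕ} (G : Geo A x X S Λ) {a0 a1 s t H q r r' : ℕ} (h0 : A ≤ a0) (h1 : a1 ≤ a0 + Λ) (hs1 : 1 ≤ s) (hsS : s ≤ S)
    (hco : Nat.Coprime s t) (hap : Ap x S a0 s t) (hH : H * S ^ 2 ≤ A ^ 2) (hq : 1 ≤ q) :
    |∑ a ∈ (Ico a0 a1).filter (fun a => a % q = r), (Fr (yv (x + H) q r' a) - Fr (yv x q r' a))| ≤ Λ * (1 / (s : ℝ) + 12 / S) + S := by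
  obtain ⟨a, W, ha, hW1, hW2, hT⟩ := b5_ap a0 a1 q r hq
  have hS := G.hS
  have hS' : (0 : ℝ) < S := by exact_mod_cast hS
  have hs' : (0 : ℝ) < s := by exact_mod_cast hs1
  rw [hT, Finset.sum_image]
  · have hb : ∀ x' : ℕ, x ≤ x' → x' ≤ x + H → ∀ l j, (l + 1) * s ≤ W → j < s →
        |yv x' q r' (a + q * (l * s + j)) - (yv x' q r' (a + q * (l * s)) - (t : ℝ) * j / s)| ≤ 3 / S := by
      intro x' hx1 hx2 l j hl hj
      have e1 : a + q * (l * s + j) = a + q * (l * s) + q * j := by ring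
      have h2 : l * s + j < W := by
        have : (l + 1) * s = l * s + s := by ring
        omega
      have h3 := hW1 _ h2
      rw [e1] at h3 ⊢
      exact b4 G h0 hs1 hsS hap hx1 hx2 hH hq (by omega) (by omega) hj.le
    have h3 := b3 s t W hs1 hco (fun j => yv x q r' (a + q * j)) (fun j => yv (x + H) q r' (a + q * j)) (3 / S) (by positivity)
      (hb x (le_refl _) (Nat.le_add_right _ _)) (hb (x + H) (Nat.le_add_right _ _) (le_refl _))
    refine h3.trans ?_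
    have hWΛ : (W : ℝ) ≤ Λ := by
      have : W ≤ Λ := by omega
      exact_mod_cast this
    have hsS' : (s : ℝ) ≤ S := by exact_mod_cast hsS
    have e2 : (W : ℝ) / s * (1 + 4 * s * (3 / S)) = W * (1 / (s : ℝ) + 12 / S) := by
      field_simp
      ring
    rw [e2]
    have h4 : (W : ℝ) * (1 / (s : ℝ) + 12 / S) ≤ Λ * (1 / (s : ℝ) + 12 / S) :=
      mul_le_mul_of_nonneg_right hWΛ (by positivity)
    linarith
  · intro i _ j _ hij
    have h5 : q * i = q * j := by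
      have : a + q * i = a + q * j := hij
      omega
    exact Nat.eq_of_mul_eq_mul_left (by omega) h5

end Pool.Agent.Lib.H21T
end

-- from Lib.H21T.B6
section

/-!
# Chunk B6 (S/M): all pieces
-/

namespace Pool.Agent.Lib.H21T

open Finset Pool.Agent.SZW

/-- `s6_part` (with `f a = if a % q = r then .. else 0`). Pieces with `s i ≥ s0`: `b5`, at most `Λ (1 / s0 + 12 / S) + S`; the other pieces (at most `291 X s0 S`, `f4_small`):
at most `Λ` terms of absolute value at most `1`. `nJ A1 A2 Λ ≤ A / Λ + 1 ≤ 2 A / Λ` (`A2 - A1 ≤ A`, `Λ ≤ A` by `f2_small`). Directions from `exists_dir`.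
Total: `2 A (1 / s0 + 12 / S) + 2 A S / Λ + 291 X s0 S Λ`. -/
theorem b6 {A x X S Λ A1 A2 : ℕ} (G : Geo A x X S Λ) (h1 : A ≤ A1) (h2 : A1 ≤ A2) (h3 : A2 ≤ 2 * A) {H q r r' s0 : ℕ}
    (hH : H * S ^ 2 ≤ A ^ 2) (hq : 1 ≤ q) (hs0 : 1 ≤ s0) :
    |∑ a ∈ (Ico A1 A2).filter (fun a => a % q = r), (Fr (yv (x + H) q r' a) - Fr (yv x q r' a))| ≤
      2 * A * (1 / (s0 : ℝ) + 12 / S) + 2 * A * S / Λ + 291 * X * s0 * S * Λ := by
  obtain ⟨sd, td, hDall⟩ := exists_dir A1 Λ x S G.hS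
  have hD := hDall (nJ A1 A2 Λ)
  have hS' : (0 : ℝ) < S := by exact_mod_cast G.hS
  have hΛ' : (0 : ℝ) < Λ := by exact_mod_cast G.hΛ
  have hs0' : (0 : ℝ) < s0 := by exact_mod_cast hs0
  have hA' : (0 : ℝ) < A := by exact_mod_cast G.hA
  have e0 : ∑ a ∈ (Ico A1 A2).filter (fun a => a % q = r), (Fr (yv (x + H) q r' a) - Fr (yv x q r' a)) =
      ∑ i ∈ range (nJ A1 A2 Λ), ∑ a ∈ (Ico (pa A1 Λ i) (pb A1 A2 Λ i)).filter (fun a => a % q = r),
        (Fr (yv (x + H) q r' a) - Fr (yv x q r' a)) := by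
    rw [Finset.sum_filter, s6_part G.hΛ h2]
    refine Finset.sum_congr rfl fun i _ => ?_
    rw [Finset.sum_filter]
  obtain ⟨B, hB⟩ : ∃ B : ℝ, B = Λ * (1 / (s0 : ℝ) + 12 / S) + S := ⟨_, rfl⟩
  have hB0 : 0 ≤ B := by
    rw [hB]
    positivity
  have hpb : ∀ i, pb A1 A2 Λ i ≤ pa A1 Λ i + Λ := by
    intro i
    unfold pb pa
    have : (i + 1) * Λ = i * Λ + Λ := by ring
    exact (min_le_right _ _).trans (by omega)
  have hterm : ∀ i ∈ range (nJ A1 A2 Λ), |∑ a ∈ (Ico (pa A1 Λ i) (pb A1 A2 Λ i)).filter (fun a => a % q = r),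
        (Fr (yv (x + H) q r' a) - Fr (yv x q r' a))| ≤ B + (if sd i < s0 then (Λ : ℝ) else 0) := by
    intro i hi
    rw [mem_range] at hi
    by_cases hc : sd i < s0
    · rw [if_pos hc]
      have h4 : |∑ a ∈ (Ico (pa A1 Λ i) (pb A1 A2 Λ i)).filter (fun a => a % q = r),
          (Fr (yv (x + H) q r' a) - Fr (yv x q r' a))| ≤ Λ := by
        refine (Finset.abs_sum_le_sum_abs _ _).trans ?_
        have h5 : ∑ a ∈ (Ico (pa A1 Λ i) (pb A1 A2 Λ i)).filter (fun a => a % q = r),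
            |Fr (yv (x + H) q r' a) - Fr (yv x q r' a)| ≤
            ∑ _a ∈ (Ico (pa A1 Λ i) (pb A1 A2 Λ i)).filter (fun a => a % q = r), (1 : ℝ) :=
          Finset.sum_le_sum fun j _ => b3_fr _ _
        refine h5.trans ?_
        rw [Finset.sum_const, nsmul_eq_mul, mul_one]
        have h6 : ((Ico (pa A1 Λ i) (pb A1 A2 Λ i)).filter (fun a => a % q = r)).card ≤ Λ := by
          refine (Finset.card_filter_le _ _).trans ?_
          rw [Nat.card_Ico]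
          have := hpb i
          omega
        exact_mod_cast h6
      linarith
    · rw [if_neg hc, add_zero]
      have hsi : s0 ≤ sd i := not_lt.1 hc
      have h4 := b5 (r := r) (r' := r') G (show A ≤ pa A1 Λ i from h1.trans (Nat.le_add_right _ _)) (hpb i) (hD.s1 i hi) (hD.sS i hi)
        (hD.co i hi) (hD.ap i hi) hH hq
      refine h4.trans ?_
      rw [hB]
      have h5 : (s0 : ℝ) ≤ sd i := by exact_mod_cast hsi
      have h6 : 1 / (sd i : ℝ) ≤ 1 / s0 := one_div_le_one_div_of_le hs0' h5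
      have h7 : (Λ : ℝ) * (1 / (sd i : ℝ) + 12 / S) ≤ Λ * (1 / (s0 : ℝ) + 12 / S) :=
        mul_le_mul_of_nonneg_left (by linarith) hΛ'.le
      linarith
  have hnJ : (nJ A1 A2 Λ : ℝ) * Λ ≤ 2 * A := by
    have h4 : nJ A1 A2 Λ * Λ ≤ 2 * A := by
      unfold nJ
      have h5 := Nat.div_mul_le_self (A2 - A1) Λ
      have h6 : Λ ≤ A := by
        have h7 := f2_small G
        have h8 : 1 ≤ S ^ 2 := Nat.one_le_pow _ _ G.hS
        calc Λ = Λ * 1 := (Nat.mul_one _).symm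
          _ ≤ Λ * S ^ 2 := Nat.mul_le_mul_left _ h8
          _ ≤ A := h7
      rw [Nat.add_mul, Nat.one_mul]
      omega
    exact_mod_cast h4
  have hsmall := f4_small G h1 h2 h3 hD s0
  rw [e0]
  refine (Finset.abs_sum_le_sum_abs _ _).trans ((Finset.sum_le_sum hterm).trans ?_)
  rw [Finset.sum_add_distrib, Finset.sum_const, card_range, nsmul_eq_mul, ← Finset.sum_filter, Finset.sum_const, nsmul_eq_mul]
  have h8 : (nJ A1 A2 Λ : ℝ) * B ≤ 2 * A * (1 / (s0 : ℝ) + 12 / S) + 2 * A * S / Λ := by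
    have h9 : (nJ A1 A2 Λ : ℝ) * B = (nJ A1 A2 Λ * Λ) * (1 / (s0 : ℝ) + 12 / S) + (nJ A1 A2 Λ * Λ) * (S / Λ) := by
      rw [hB]
      field_simp
    have h10 : (nJ A1 A2 Λ * Λ : ℝ) * (1 / (s0 : ℝ) + 12 / S) ≤ 2 * A * (1 / (s0 : ℝ) + 12 / S) :=
      mul_le_mul_of_nonneg_right hnJ (by positivity)
    have h11 : (nJ A1 A2 Λ * Λ : ℝ) * (S / Λ) ≤ 2 * A * (S / Λ) :=
      mul_le_mul_of_nonneg_right hnJ (by positivity)
    have h12 : 2 * (A : ℝ) * S / Λ = 2 * A * (S / Λ) := by ring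
    rw [h9, h12]
    linarith
  have h13 := mul_le_mul_of_nonneg_right hsmall hΛ'.le
  linarith

end Pool.Agent.Lib.H21T
end

-- from Lib.H21T.B9
section

/-!
# Chunk B9 (S/M): the number of pairs in a residue class
-/

namespace Pool.Agent.Lib.H21T

open Finset Pool.Agent.SZW

theorem b9_cnt (A1 A2 x H q r1 r2 : ℕ) : cnt A1 A2 x H q r1 r2 =
    ∑ a ∈ (Ico A1 A2).filter (fun a => a % q = r1),
      ((range (x + H)).filter fun b => (x ≤ a * b ∧ a * b < x + H) ∧ b % q = r2).card := by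
  unfold cnt Rg
  rw [Finset.filter_filter, Finset.card_filter, Finset.sum_product, Finset.sum_filter]
  refine Finset.sum_congr rfl fun a _ => ?_
  split_ifs with h
  · rw [Finset.card_filter]
    refine Finset.sum_congr rfl fun b _ => ?_
    simp only [h, true_and]
  · refine Finset.sum_eq_zero fun b _ => ?_
    rw [if_neg]
    rintro ⟨-, h1, -⟩
    exact h h1

/-- `cnt = ∑_{a ∈ Ico A1 A2, a % q = r1} #{b : x ≤ a b < x + H, b % q = r2}` (fibres of `Rg`), `b7` for each `a`, then `b8` (times `H / q`) and `b6`. -/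
theorem b9 {A x X S Λ A1 A2 : ℕ} (G : Geo A x X S Λ) (h1 : A ≤ A1) (h2 : A1 ≤ A2) (h3 : A2 ≤ 2 * A) {H q r1 r2 s0 : ℕ}
    (hH : H * S ^ 2 ≤ A ^ 2) (hq : 1 ≤ q) (hqA : 2 * q ≤ A) (hr1 : r1 < q) (hr2 : r2 < q) (hs0 : 1 ≤ s0) :
    |(cnt A1 A2 x H q r1 r2 : ℝ) - (H : ℝ) / q ^ 2 * (Real.log A2 - Real.log A1)| ≤
      2 * A * (1 / (s0 : ℝ) + 12 / S) + 2 * A * S / Λ + 291 * X * s0 * S * Λ + 2 * H / A := by
  have hx : 1 ≤ x := by
    have ha := G.hA
    have hb := G.hx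
    by_contra hcon
    have h4 : x = 0 := by omega
    rw [h4, mul_zero] at hb
    have : 1 ≤ A ^ 2 := Nat.one_le_pow _ _ ha
    omega
  have hq0 : (0:ℝ) < q := by exact_mod_cast hq
  have hA0 : (0:ℝ) < A := by exact_mod_cast G.hA
  have hAA1 : (A:ℝ) ≤ A1 := by exact_mod_cast h1
  have hcnt : (cnt A1 A2 x H q r1 r2 : ℝ) = (H : ℝ) / q * (∑ a ∈ (Ico A1 A2).filter (fun a => a % q = r1), 1 / (a : ℝ)) +
      ∑ a ∈ (Ico A1 A2).filter (fun a => a % q = r1), (Fr (yv (x + H) q r2 a) - Fr (yv x q r2 a)) := by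
    rw [b9_cnt, Nat.cast_sum, Finset.mul_sum, ← Finset.sum_add_distrib]
    refine Finset.sum_congr rfl fun a ha => ?_
    have ha1 : 1 ≤ a := by
      have := (Finset.mem_Ico.1 (Finset.mem_filter.1 ha).1).1
      have := G.hA
      omega
    rw [b7 x H q r2 a hx hq hr2 ha1]
    have ha0 : (a : ℝ) ≠ 0 := by positivity
    congr 1
    field_simp
  have e1 := b6 G h1 h2 h3 (r := r1) (r' := r2) hH hq hs0
  have e2 := b8 A1 A2 q r1 hq hr1 (by omega) h2
  have e3 : (cnt A1 A2 x H q r1 r2 : ℝ) - (H : ℝ) / q ^ 2 * (Real.log A2 - Real.log A1) =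
      (H : ℝ) / q * (∑ a ∈ (Ico A1 A2).filter (fun a => a % q = r1), 1 / (a : ℝ) - (Real.log A2 - Real.log A1) / q) +
      ∑ a ∈ (Ico A1 A2).filter (fun a => a % q = r1), (Fr (yv (x + H) q r2 a) - Fr (yv x q r2 a)) := by
    rw [hcnt]
    field_simp
    ring
  rw [e3]
  refine (abs_add_le _ _).trans ?_
  have e4 : |(H : ℝ) / q * (∑ a ∈ (Ico A1 A2).filter (fun a => a % q = r1), 1 / (a : ℝ) - (Real.log A2 - Real.log A1) / q)| ≤
      2 * H / A := by
    rw [abs_mul, abs_of_nonneg (by positivity : (0:ℝ) ≤ (H : ℝ) / q)]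
    have h5 : (H : ℝ) / q ≤ H := div_le_self (by positivity) (by exact_mod_cast hq)
    have h6 : (2:ℝ) / A1 ≤ 2 / A := by
      apply div_le_div_of_nonneg_left (by norm_num) hA0 hAA1
    calc (H : ℝ) / q * |∑ a ∈ (Ico A1 A2).filter (fun a => a % q = r1), 1 / (a : ℝ) - (Real.log A2 - Real.log A1) / q|
        ≤ H * (2 / A) := mul_le_mul h5 (e2.trans h6) (abs_nonneg _) (by positivity)
      _ = 2 * H / A := by ring
  linarith

end Pool.Agent.Lib.H21T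
end

-- from Lib.H21T.B11
section

/-!
# Chunk B11 (S/M): the exponential sum at a rational
-/

namespace Pool.Agent.Lib.H21T

open Finset Pool.Agent.SZW

theorem b11_ee (q : ℕ) (p : ℤ) (hq : 1 ≤ q) (a b : ℕ) :
    ee ((p : ℝ) / q * ((a : ℝ) * b)) = ee ((p : ℝ) / q * (((a % q : ℕ) : ℝ) * ((b % q : ℕ) : ℝ))) := by
  have hq0 : (q : ℝ) ≠ 0 := by positivity
  have h1 : (a : ℝ) = q * ((a / q : ℕ) : ℝ) + ((a % q : ℕ) : ℝ) := by exact_mod_cast (Nat.div_add_mod a q).symm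
  have h2 : (b : ℝ) = q * ((b / q : ℕ) : ℝ) + ((b % q : ℕ) : ℝ) := by exact_mod_cast (Nat.div_add_mod b q).symm
  generalize a / q = a' at h1
  generalize b / q = b' at h2
  generalize a % q = ra at h1 ⊢
  generalize b % q = rb at h2 ⊢
  have h3 : (p : ℝ) / q * ((a : ℝ) * b) = (p : ℝ) / q * ((ra : ℝ) * (rb : ℝ)) +
      ((p * (q * a' * b' + a' * rb + ra * b') : ℤ) : ℝ) := by
    push_cast
    rw [h1, h2]
    field_simp
    ring
  rw [h3, ee_add, ee_int, mul_one]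

theorem b11_SR (A1 A2 x H q : ℕ) (p : ℤ) (hq : 1 ≤ q) :
    SR ((p : ℝ) / q) A1 A2 x H = ∑ r1 ∈ range q, ∑ r2 ∈ range q, ee ((p : ℝ) / q * ((r1 : ℝ) * r2)) * (cnt A1 A2 x H q r1 r2 : ℂ) := by
  unfold SR
  have hm : ∀ pp ∈ Rg A1 A2 x H, (pp.1 % q, pp.2 % q) ∈ range q ×ˢ range q := by
    intro pp _
    rw [Finset.mem_product, Finset.mem_range, Finset.mem_range]
    exact ⟨Nat.mod_lt _ hq, Nat.mod_lt _ hq⟩
  rw [← Finset.sum_fiberwise_of_maps_to hm, Finset.sum_product]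
  refine Finset.sum_congr rfl fun r1 _ => Finset.sum_congr rfl fun r2 _ => ?_
  have h1 : ∀ pp ∈ (Rg A1 A2 x H).filter (fun pp => (pp.1 % q, pp.2 % q) = (r1, r2)),
      ee ((p : ℝ) / q * ((pp.1 : ℝ) * pp.2)) = ee ((p : ℝ) / q * ((r1 : ℝ) * r2)) := by
    intro pp hpp
    have h2 := (Finset.mem_filter.1 hpp).2
    rw [Prod.mk.injEq] at h2
    rw [b11_ee q p hq, h2.1, h2.2]
  rw [Finset.sum_congr rfl h1, Finset.sum_const, nsmul_eq_mul, mul_comm]
  congr 2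
  unfold cnt
  congr 1
  ext pp
  simp only [Finset.mem_filter, Prod.mk.injEq]

/-- `ee (p a b / q)` depends only on `a % q`, `b % q` (`ee_int`); so `SR (p / q) = ∑_{r1, r2 < q} ee (p r1 r2 / q) cnt(r1, r2)`. Replace `cnt` by the main term of `b9` (`q ^ 2` errors) and
use `b10`: the main term is `q * (H / q ^ 2) (log A2 - log A1)`. -/
theorem b11 {A x X S Λ A1 A2 : ℕ} (G : Geo A x X S Λ) (h1 : A ≤ A1) (h2 : A1 ≤ A2) (h3 : A2 ≤ 2 * A) {H q s0 : ℕ} {p : ℤ}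
    (hH : H * S ^ 2 ≤ A ^ 2) (hq : 1 ≤ q) (hqA : 2 * q ≤ A) (hp : IsCoprime p (q : ℤ)) (hs0 : 1 ≤ s0) :
    ‖SR ((p : ℝ) / q) A1 A2 x H - (((H : ℝ) / q * (Real.log A2 - Real.log A1) : ℝ) : ℂ)‖ ≤
      (q : ℝ) ^ 2 * (2 * A * (1 / (s0 : ℝ) + 12 / S) + 2 * A * S / Λ + 291 * X * s0 * S * Λ + 2 * H / A) := by
  have hq0 : (q : ℝ) ≠ 0 := by positivity
  set c0 : ℝ := (H : ℝ) / q ^ 2 * (Real.log A2 - Real.log A1) with hc0
  have e1 : (((H : ℝ) / q * (Real.log A2 - Real.log A1) : ℝ) : ℂ) =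
      ∑ r1 ∈ range q, ∑ r2 ∈ range q, ee ((p : ℝ) / q * ((r1 : ℝ) * r2)) * (c0 : ℂ) := by
    have h4 := b10 q p hq hp
    have h5 : ∑ r1 ∈ range q, ∑ r2 ∈ range q, ee ((p : ℝ) / q * ((r1 : ℝ) * r2)) * (c0 : ℂ) =
        (∑ r1 ∈ range q, ∑ r2 ∈ range q, ee ((p : ℝ) / q * ((r1 : ℝ) * r2))) * (c0 : ℂ) := by
      rw [Finset.sum_mul]
      refine Finset.sum_congr rfl fun r1 _ => ?_
      rw [Finset.sum_mul]
    rw [h5, h4]
    have h6 : (H : ℝ) / q * (Real.log A2 - Real.log A1) = q * c0 := by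
      rw [hc0]
      field_simp
    rw [h6]
    push_cast
    rfl
  rw [b11_SR A1 A2 x H q p hq, e1, ← Finset.sum_sub_distrib]
  refine (norm_sum_le _ _).trans ?_
  set bd : ℝ := 2 * A * (1 / (s0 : ℝ) + 12 / S) + 2 * A * S / Λ + 291 * X * s0 * S * Λ + 2 * H / A with hbd
  have h4 : ∀ r1 ∈ range q, ‖∑ r2 ∈ range q, ee ((p : ℝ) / q * ((r1 : ℝ) * r2)) * (cnt A1 A2 x H q r1 r2 : ℂ) -
      ∑ r2 ∈ range q, ee ((p : ℝ) / q * ((r1 : ℝ) * r2)) * (c0 : ℂ)‖ ≤ q * bd := by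
    intro r1 hr1
    rw [← Finset.sum_sub_distrib]
    refine (norm_sum_le _ _).trans ?_
    have h5 : ∀ r2 ∈ range q, ‖ee ((p : ℝ) / q * ((r1 : ℝ) * r2)) * (cnt A1 A2 x H q r1 r2 : ℂ) -
        ee ((p : ℝ) / q * ((r1 : ℝ) * r2)) * (c0 : ℂ)‖ ≤ bd := by
      intro r2 hr2
      rw [← mul_sub, norm_mul, norm_ee, one_mul]
      have h6 := b9 G h1 h2 h3 (r1 := r1) (r2 := r2) hH hq hqA (Finset.mem_range.1 hr1) (Finset.mem_range.1 hr2) hs0
      have h7 : ((cnt A1 A2 x H q r1 r2 : ℂ) - (c0 : ℂ)) = (((cnt A1 A2 x H q r1 r2 : ℝ) - c0 : ℝ) : ℂ) := by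
        push_cast
        rfl
      rw [h7, Complex.norm_real, Real.norm_eq_abs]
      exact h6
    refine (Finset.sum_le_sum h5).trans ?_
    rw [Finset.sum_const, Finset.card_range, nsmul_eq_mul]
  refine (Finset.sum_le_sum h4).trans ?_
  rw [Finset.sum_const, Finset.card_range, nsmul_eq_mul]
  apply le_of_eq
  ring

end Pool.Agent.Lib.H21T
end

-- from Lib.H21T.Z5A
section

/-!
# Chunk Z5A (S/M): numbers for the major arcs
-/

namespace Pool.Agent.Lib.H21T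

open Finset Pool.Agent.SZW

/-- `X`, `S`, `Λ` from `g1`, `s0 = ⌊u ^ 1250⌋₊`. `H S ^ 2 ≤ 3 u ^ 14740 ≤ u ^ 19998 ≤ A ^ 2`. The sum is at most
`4 u ^ 8750 + 48 u ^ 7500 + 32 u ^ 7502 + 291 * 5 u ^ 2 u ^ 1250 u ^ 2500 4 u ^ 5000 + 6 ≤ u ^ 8753`. -/
theorem z5_num : ∃ U0 : ℝ, 1 ≤ U0 ∧ ∀ u : ℝ, U0 ≤ u → ∀ A x H : ℕ, u ^ 9999 ≤ A → (A : ℝ) ≤ u ^ 10000 →
    A ^ 2 ≤ 2 * x → (x : ℝ) ≤ 4 * u ^ 2 * (A : ℝ) ^ 2 → (H : ℝ) ≤ 3 * u ^ 9740 →
    ∃ X S Λ s0 : ℕ, Geo A x X S Λ ∧ H * S ^ 2 ≤ A ^ 2 ∧ 1 ≤ s0 ∧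
      2 * A * (1 / (s0 : ℝ) + 12 / S) + 2 * A * S / Λ + 291 * X * s0 * S * Λ + 2 * H / A ≤ u ^ 8753 := by
  refine ⟨10000, by norm_num, ?_⟩
  intro u hu A x H hA1 hA2 hAx hxA hH
  have hu1 : (1 : ℝ) ≤ u := by linarith
  have hu0 : (0 : ℝ) < u := by linarith
  obtain ⟨X, S, Λ, hG, hX1, hX2, hS1, hS2, hL1, hL2⟩ := g1 u (by linarith) A x hA1 hA2 hAx hxA
  have hP1250 : 1 ≤ u ^ 1250 := one_le_pow₀ hu1
  have hP2500 : 1 ≤ u ^ 2500 := one_le_pow₀ hu1
  have hP5000 : 1 ≤ u ^ 5000 := one_le_pow₀ hu1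
  have hs0a : ((⌊u ^ 1250⌋₊ : ℕ) : ℝ) ≤ u ^ 1250 := Nat.floor_le (by positivity)
  have hs0b : u ^ 1250 < (⌊u ^ 1250⌋₊ : ℕ) + 1 := Nat.lt_floor_add_one _
  have hs0c : 1 ≤ ⌊u ^ 1250⌋₊ := by
    rw [Nat.one_le_floor_iff]
    exact hP1250
  obtain ⟨s0, hs0⟩ : ∃ s0 : ℕ, s0 = ⌊u ^ 1250⌋₊ := ⟨_, rfl⟩
  rw [← hs0] at hs0a hs0b hs0c
  have hs0r : (1 : ℝ) ≤ s0 := by exact_mod_cast hs0c
  have hs0d : u ^ 1250 ≤ 2 * s0 := by linarith
  have hSr : (1 : ℝ) ≤ S := by exact_mod_cast hG.hS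
  have hLr : (1 : ℝ) ≤ Λ := by exact_mod_cast hG.hΛ
  have hXr : (1 : ℝ) ≤ X := by exact_mod_cast hG.hX1
  have hA0 : (1 : ℝ) ≤ A := le_trans (one_le_pow₀ hu1) hA1
  have hpos : 0 < u ^ 8752 := pow_pos hu0 _
  have hp1 : u ^ 8750 ≤ u ^ 8752 := pow_le_pow_right₀ hu1 (by norm_num)
  have hp2 : u ^ 7500 ≤ u ^ 8752 := pow_le_pow_right₀ hu1 (by norm_num)
  have hp3 : u ^ 7502 ≤ u ^ 8752 := pow_le_pow_right₀ hu1 (by norm_num)
  have hp4 : 1 ≤ u ^ 8752 := one_le_pow₀ hu1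
  have hp5 : u ^ 8753 = u * u ^ 8752 := by rw [← pow_succ']
  refine ⟨X, S, Λ, s0, hG, ?_, hs0c, ?_⟩
  · have h1 : (H : ℝ) * (S : ℝ) ^ 2 ≤ (A : ℝ) ^ 2 := by
      calc (H : ℝ) * (S : ℝ) ^ 2 ≤ (3 * u ^ 9740) * (u ^ 2500) ^ 2 := by
            apply mul_le_mul hH _ (by positivity) (by positivity)
            exact pow_le_pow_left₀ (by linarith) hS1 2
        _ = 3 * u ^ 14740 := by
            rw [← pow_mul, mul_assoc, ← pow_add]
        _ ≤ u * u ^ 14740 := by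
            apply mul_le_mul_of_nonneg_right (by linarith) (by positivity)
        _ = u ^ 14741 := by rw [← pow_succ']
        _ ≤ u ^ 19998 := pow_le_pow_right₀ hu1 (by norm_num)
        _ = (u ^ 9999) ^ 2 := by rw [← pow_mul]
        _ ≤ (A : ℝ) ^ 2 := pow_le_pow_left₀ (by positivity) hA1 2
    exact_mod_cast h1
  · have t1 : 2 * (A : ℝ) * (1 / (s0 : ℝ)) ≤ 4 * u ^ 8750 := by
      rw [mul_one_div, div_le_iff₀ (by linarith)]
      calc 2 * (A : ℝ) ≤ 2 * u ^ 10000 := by linarith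
        _ = 2 * u ^ 8750 * u ^ 1250 := by rw [mul_assoc, ← pow_add]
        _ ≤ 2 * u ^ 8750 * (2 * s0) := by
            apply mul_le_mul_of_nonneg_left hs0d (by positivity)
        _ = 4 * u ^ 8750 * s0 := by ring
    have t2 : 2 * (A : ℝ) * (12 / (S : ℝ)) ≤ 48 * u ^ 7500 := by
      rw [← mul_div_assoc, div_le_iff₀ (by linarith)]
      calc 2 * (A : ℝ) * 12 ≤ 2 * u ^ 10000 * 12 := by linarith
        _ = 24 * u ^ 7500 * u ^ 2500 := by
            have : u ^ 10000 = u ^ 7500 * u ^ 2500 := by rw [← pow_add]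
            rw [this]; ring
        _ ≤ 24 * u ^ 7500 * (2 * S) := by
            apply mul_le_mul_of_nonneg_left hS2 (by positivity)
        _ = 48 * u ^ 7500 * S := by ring
    have t3 : 2 * (A : ℝ) * S / Λ ≤ 32 * u ^ 7502 := by
      rw [div_le_iff₀ (by linarith)]
      calc 2 * (A : ℝ) * S ≤ 2 * (16 * u ^ 5002 * Λ) * u ^ 2500 := by
            apply mul_le_mul (by linarith) hS1 (by linarith) (by positivity)
        _ = 32 * u ^ 7502 * Λ := by
            have : u ^ 7502 = u ^ 5002 * u ^ 2500 := by rw [← pow_add]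
            rw [this]; ring
    have t4 : 291 * (X : ℝ) * s0 * S * Λ ≤ 5820 * u ^ 8752 := by
      calc 291 * (X : ℝ) * s0 * S * Λ ≤ 291 * (5 * u ^ 2) * u ^ 1250 * u ^ 2500 * (4 * u ^ 5000) := by
            have a1 : 291 * (X : ℝ) ≤ 291 * (5 * u ^ 2) := by linarith
            have a2 : 291 * (X : ℝ) * s0 ≤ 291 * (5 * u ^ 2) * u ^ 1250 :=
              mul_le_mul a1 hs0a (by linarith) (by positivity)
            have a3 : 291 * (X : ℝ) * s0 * S ≤ 291 * (5 * u ^ 2) * u ^ 1250 * u ^ 2500 :=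
              mul_le_mul a2 hS1 (by linarith) (by positivity)
            exact mul_le_mul a3 hL1 (by linarith) (by positivity)
        _ = 5820 * u ^ 8752 := by
            have : u ^ 8752 = u ^ 2 * u ^ 1250 * u ^ 2500 * u ^ 5000 := by
              rw [← pow_add, ← pow_add, ← pow_add]
            rw [this]; ring
    have t5 : 2 * (H : ℝ) / A ≤ 6 := by
      rw [div_le_iff₀ (by linarith)]
      have : u ^ 9740 ≤ u ^ 9999 := pow_le_pow_right₀ hu1 (by norm_num)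
      linarith
    have hfin : 5910 * u ^ 8752 ≤ u ^ 8753 := by
      rw [hp5]
      exact mul_le_mul_of_nonneg_right (by linarith) hpos.le
    have hsplit : 2 * (A : ℝ) * (1 / (s0 : ℝ) + 12 / S) = 2 * (A : ℝ) * (1 / (s0 : ℝ)) + 2 * (A : ℝ) * (12 / (S : ℝ)) := by
      ring
    rw [hsplit]
    linarith

end Pool.Agent.Lib.H21T
end
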