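import Pool.Agent.Lib.H59M.M2.M044
import Pool.Agent.Lib.H59M.M2.M053
import Pool.Agent.Lib.H59M.M2.M055
import Pool.Agent.Lib.H59M.M2.M058

/-! Merged copies (to shorten the build) of Lib.H44W.M2, Lib.H44W.M7. -/

-- from Lib.H44W.M2
section
/-!
CHUNK M2 (S/M). The inverse property for a Type I sum times a slowly varying factor, given by an expansion of the factor in additive
characters with total mass A0.
Proof. On the points m = x + y in [2, 2n] which occur in TF the function Mm is sum_j c j * ee(ph j * m) * psi A al m. TF is linear in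
its kernel, so TF n Mm W f g = sum_j c j * TF n (fun m => ee (ph j * m) * psi A al m) W f g
= sum_j c j * S * TF n (psi A (al/S)) W (fun x => f x * ee (ph j * x)) (fun y => g y * ee (ph j * y))   (ee_add, the factor splits on
x + y). The norm is <= sum_j |c j| * S * (...): if every term |TF n (psi A (al/S)) W f_j g_j| were < n^2/(D A0 S) the total would be
< n^2/D (strict unless all c j = 0, in which case TF = 0 < n^2/D, impossible as n >= 2). So some j has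
n^2/(D A0 S) <= |TF n (psi A (al/S)) W f_j g_j| and psi_cf (M1) with D := D * A0 * S >= 2 gives th with
n/(80 (D A0 S)(1+log n)^2)^(C+1) <= |sum g z ee(ph j z) ee(th z)| = |sum g z ee((ph j + th) z)|.
-/
namespace Pool.Agent.H44W
open Finset

theorem m2_psi (A : ℕ) (al : ℕ → ℂ) (S : ℝ) (hS : 1 ≤ S) (m : ℤ) :
    psi A al m = (S : ℂ) * psi A (fun a => al a / S) m := by
  have hS0 : (S : ℂ) ≠ 0 := by
    have : (0 : ℝ) < S := by linarith
    exact_mod_cast this.ne'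
  unfold psi
  rw [Finset.mul_sum]
  refine Finset.sum_congr rfl fun a _ => ?_
  split_ifs
  · field_simp
  · rw [mul_zero]

theorem m2_expand (n A : ℕ) (S : ℝ) (hS : 1 ≤ S) (J : ℕ) (c : ℕ → ℂ) (ph : ℕ → ℝ) (al : ℕ → ℂ) (Mm : ℤ → ℂ)
    (hM : ∀ m : ℤ, 2 ≤ m → m ≤ 2 * n →
      Mm m = (∑ j ∈ range J, c j * ee (ph j * m)) * psi A al m) (W f g : ℤ → ℂ) :
    TF n Mm W f g = ∑ j ∈ range J, c j * ((S : ℂ) * TF n (psi A (fun a => al a / S)) W
      (fun x => f x * ee (ph j * x)) (fun y => g y * ee (ph j * y))) := by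
  unfold TF
  have e1 : ∀ x ∈ Icc (1:ℤ) n, ∑ y ∈ Icc (1:ℤ) n, f x * g y * Mm (x + y) * W (x - y) =
      ∑ j ∈ range J, ∑ y ∈ Icc (1:ℤ) n, c j * ((S : ℂ) * (f x * ee (ph j * x) * (g y * ee (ph j * y)) *
        psi A (fun a => al a / S) (x + y) * W (x - y))) := by
    intro x hx
    rw [Finset.sum_comm]
    refine Finset.sum_congr rfl fun y hy => ?_
    rw [Finset.mem_Icc] at hx hy
    rw [hM (x + y) (by omega) (by omega), m2_psi A al S hS, Finset.sum_mul, Finset.mul_sum, Finset.sum_mul]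
    refine Finset.sum_congr rfl fun j _ => ?_
    have e2 : ee (ph j * ((x + y : ℤ) : ℝ)) = ee (ph j * x) * ee (ph j * y) := by
      rw [← ee_add]
      congr 1
      push_cast
      ring
    rw [e2]
    ring
  rw [Finset.sum_congr rfl e1, Finset.sum_comm]
  refine Finset.sum_congr rfl fun j _ => ?_
  rw [Finset.mul_sum, Finset.mul_sum]
  refine Finset.sum_congr rfl fun x _ => ?_
  rw [Finset.mul_sum, Finset.mul_sum]

theorem model_cf (C : ℕ) (h2 : ClassTwo C)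
    (hone : ∀ (n A : ℕ) (al : ℕ → ℂ), 1 ≤ n → (∀ a, ‖al a‖ ≤ 1) → ∀ W f g : ℤ → ℂ,
      (∀ x, ‖W x‖ ≤ 1) → (∀ x, ‖f x‖ ≤ 1) → (∀ x, ‖g x‖ ≤ 1) →
      ∃ th : ℝ, ‖TF n (psi A al) W f g‖ ≤
        20 * A * (1 + Real.log n) * n * ‖∑ z ∈ Icc (1:ℤ) n, g z * ee (th * z)‖)
    (n A : ℕ) (hn : 2 ≤ n) (hA4 : (A:ℝ) ≤ (n:ℝ) ^ (1 / 4 : ℝ)) (D A0 S : ℝ) (hD : 2 ≤ D)
    (hdiv : ∀ m : ℕ, 1 ≤ m → m ≤ 2 * n → (m.divisors.card : ℝ) ≤ D)
    (hA0 : 1 ≤ A0) (hS : 1 ≤ S) (J : ℕ) (c : ℕ → ℂ) (ph : ℕ → ℝ)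
    (hc : ∑ j ∈ range J, ‖c j‖ ≤ A0) (al : ℕ → ℂ) (hal : ∀ a, ‖al a‖ ≤ S) (Mm : ℤ → ℂ)
    (hM : ∀ m : ℤ, 2 ≤ m → m ≤ 2 * n →
      Mm m = (∑ j ∈ range J, c j * ee (ph j * m)) * psi A al m)
    (W f g : ℤ → ℂ) (hW : ∀ x, ‖W x‖ ≤ 1) (hf : ∀ x, ‖f x‖ ≤ 1) (hg : ∀ x, ‖g x‖ ≤ 1)
    (hT : (n:ℝ) ^ 2 / D ≤ ‖TF n Mm W f g‖) :
    ∃ th : ℝ, (n:ℝ) / (80 * (D * A0 * S) * (1 + Real.log n) ^ 2) ^ (C + 1) ≤
      ‖∑ z ∈ Icc (1:ℤ) n, g z * ee (th * z)‖ := by
  have hn0 : (0 : ℝ) < n := by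
    have : (2 : ℝ) ≤ n := by exact_mod_cast hn
    linarith
  have hD0 : 0 < D := by linarith
  have hS0 : 0 < S := by linarith
  have hA00 : 0 < A0 := by linarith
  have hpos : 0 < (n:ℝ) ^ 2 / D := by positivity
  have hexp := m2_expand n A S hS J c ph al Mm hM W f g
  have hJ : (range J).Nonempty := by
    rw [Finset.nonempty_range_iff]
    rintro rfl
    rw [Finset.range_zero, Finset.sum_empty] at hexp
    rw [hexp, norm_zero] at hT
    linarith
  obtain ⟨j, hj, hmax⟩ := Finset.exists_max_image (range J) (fun j => ‖TF n (psi A (fun a => al a / S)) W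
      (fun x => f x * ee (ph j * x)) (fun y => g y * ee (ph j * y))‖) hJ
  have h1 : ‖TF n Mm W f g‖ ≤ A0 * (S * ‖TF n (psi A (fun a => al a / S)) W
      (fun x => f x * ee (ph j * x)) (fun y => g y * ee (ph j * y))‖) := by
    rw [hexp]
    refine (norm_sum_le _ _).trans ?_
    have h3 : ∀ i ∈ range J, ‖c i * ((S : ℂ) * TF n (psi A (fun a => al a / S)) W
        (fun x => f x * ee (ph i * x)) (fun y => g y * ee (ph i * y)))‖ ≤
        ‖c i‖ * (S * ‖TF n (psi A (fun a => al a / S)) W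
          (fun x => f x * ee (ph j * x)) (fun y => g y * ee (ph j * y))‖) := by
      intro i hi
      rw [norm_mul, norm_mul, Complex.norm_real, Real.norm_of_nonneg hS0.le]
      exact mul_le_mul_of_nonneg_left (mul_le_mul_of_nonneg_left (hmax i hi) hS0.le) (norm_nonneg _)
    refine (Finset.sum_le_sum h3).trans ?_
    rw [← Finset.sum_mul]
    exact mul_le_mul_of_nonneg_right hc (by positivity)
  have h4 : (n:ℝ) ^ 2 / (D * A0 * S) ≤ ‖TF n (psi A (fun a => al a / S)) W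
      (fun x => f x * ee (ph j * x)) (fun y => g y * ee (ph j * y))‖ := by
    have h3 := hT.trans h1
    rw [div_le_iff₀ (by positivity)] at h3 ⊢
    linarith
  have hDS : 2 ≤ D * A0 * S := by
    have h3 : 2 ≤ D * A0 := by nlinarith
    nlinarith
  have hDD : D ≤ D * A0 * S := by
    have h5 : D ≤ D * A0 := le_mul_of_one_le_right hD0.le hA0
    exact h5.trans (le_mul_of_one_le_right (by positivity) hS)
  obtain ⟨th, hth⟩ := psi_cf C h2 hone n A hn hA4 (D * A0 * S) hDS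
    (fun m h5 h6 => (hdiv m h5 h6).trans hDD) (fun a => al a / S) (fun a => by
      rw [norm_div, Complex.norm_real, Real.norm_of_nonneg hS0.le, div_le_one hS0]
      exact hal a) W (fun x => f x * ee (ph j * x)) (fun y => g y * ee (ph j * y)) hW
    (fun x => by rw [norm_mul, norm_ee, mul_one]; exact hf x) (fun x => by rw [norm_mul, norm_ee, mul_one]; exact hg x) h4
  refine ⟨ph j + th, hth.trans (le_of_eq ?_)⟩
  congr 1
  refine Finset.sum_congr rfl fun z _ => ?_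
  have e2 : ee ((ph j + th) * (z : ℝ)) = ee (ph j * z) * ee (th * z) := by
    rw [← ee_add]
    congr 1
    ring
  rw [e2]
  ring

end Pool.Agent.H44W
end

-- from Lib.H44W.M7
section
/-!
CHUNK M7 (M). The model Mq has the inverse property with polynomial loss, uniformly in its level Q.
Proof. If A2 < A1 or B2 < B1 then lbox = 0 (lbox_empty), so Mq = 0 and TF = 0, impossible (n^2/D > 0). Otherwise lboxr_rep gives
J, c, al' with sum |c j| <= A0 := 7 (1 + log n) (unfold H81E.Rep) and lboxr q .. m = sum_j c j * ee (al' j * m) for 2 <= m <= 2n.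
For 2 <= m <= 2n: Mq Q A1 A2 B1 B2 q m = lboxr q .. m * psi (q Q) al m, with al a = lam Q (a/q) if q | a, else 0: if q does not divide m, then
a | m and q | a are impossible, both sides 0; if m = q k: Mbox k = lbox k * sum_{d <= Q, d | k} lam Q d and a = q d, a | m iff d | k,
a <= q Q iff d <= Q; lbox k = lboxr (q k) (lboxr_eq). |al a| <= S := 1 + log Q (H21T.m1).
model_cf (M2) with hone := type_one_psi (M0), A = q Q: n/(80 (D A0 S)(1+log n)^2)^(C+1) <= |ghat|; and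
80 * 7 * (1+log n) (1 + log Q)(1+log n)^2 * D <= 560 (1+log n)^4 D <= D^2 as Q <= n^(1/4) <= n and 560 (1+log n)^4 <= D (hD2).
So n/D^(2(C+1)) <= |ghat|. (n >= 2 because (1+log n)^4 * 560 <= D and D^(..) .. use hn.)
-/
namespace Pool.Agent.H44W
open Finset

/-- The coefficients of the model with cofactor q. -/
noncomputable def m7_al (Q q : ℕ) (a : ℕ) : ℂ :=
  if q ∣ a then ((Pool.Agent.Lib.H21T.lam Q (a / q) : ℝ) : ℂ) else 0

theorem m7_psi (Q q k : ℕ) (hq : 1 ≤ q) :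
    psi (q * Q) (m7_al Q q) ((q:ℤ) * k) = ((Pool.Agent.Lib.H21T.gQ Q k : ℝ) : ℂ) := by
  unfold psi Pool.Agent.Lib.H21T.gQ
  rw [Complex.ofReal_sum]
  have h1 : ∀ a ∈ Icc 1 (q * Q), (if ((a:ℕ):ℤ) ∣ (q:ℤ) * k then m7_al Q q a else 0) =
      if a ∣ q * k ∧ q ∣ a then ((Pool.Agent.Lib.H21T.lam Q (a / q) : ℝ) : ℂ) else 0 := by
    intro a _
    have h2 : (((a:ℕ):ℤ) ∣ (q:ℤ) * k) ↔ a ∣ q * k := by
      rw [← Int.natCast_dvd_natCast]
      push_cast
      rfl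
    unfold m7_al
    by_cases h3 : a ∣ q * k
    · rw [if_pos (h2.2 h3)]
      by_cases h4 : q ∣ a
      · rw [if_pos h4, if_pos ⟨h3, h4⟩]
      · rw [if_neg h4, if_neg (fun h => h4 h.2)]
    · rw [if_neg (fun h => h3 (h2.1 h)), if_neg (fun h => h3 h.1)]
  rw [sum_congr rfl h1, ← sum_filter]
  symm
  refine sum_nbij' (fun d => q * d) (fun a => a / q) ?_ ?_ ?_ ?_ ?_
  · intro d hd
    rw [mem_filter, mem_Icc] at hd
    rw [mem_filter, mem_Icc]
    exact ⟨⟨Nat.mul_pos hq hd.1.1, Nat.mul_le_mul_left q hd.1.2⟩, Nat.mul_dvd_mul_left q hd.2,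
      Dvd.intro _ rfl⟩
  · intro a ha
    rw [mem_filter, mem_Icc] at ha
    obtain ⟨⟨h2, h3⟩, h4, d, rfl⟩ := ha
    rw [mem_filter, mem_Icc, Nat.mul_div_cancel_left _ hq]
    refine ⟨⟨?_, Nat.le_of_mul_le_mul_left h3 hq⟩, Nat.dvd_of_mul_dvd_mul_left hq h4⟩
    rcases Nat.eq_zero_or_pos d with h5 | h5
    · subst h5
      rw [mul_zero] at h2
      omega
    · exact h5
  · intro d _
    exact Nat.mul_div_cancel_left _ hq
  · intro a ha
    rw [mem_filter] at ha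
    exact Nat.mul_div_cancel' ha.2.2
  · intro d _
    rw [Nat.mul_div_cancel_left _ hq]

theorem m7_psi_zero (Q q : ℕ) (m : ℤ) (h : ¬ (q:ℤ) ∣ m) : psi (q * Q) (m7_al Q q) m = 0 := by
  unfold psi
  refine sum_eq_zero fun a _ => ?_
  by_cases h1 : (a:ℤ) ∣ m
  · rw [if_pos h1]
    unfold m7_al
    rw [if_neg]
    intro h2
    exact h ((Int.natCast_dvd_natCast.2 h2).trans h1)
  · rw [if_neg h1]

theorem m7_Mq (Q A1 A2 B1 B2 q : ℕ) (hq : 1 ≤ q) (m : ℤ) (hm : 1 ≤ m) :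
    Mq Q A1 A2 B1 B2 q m = ((lboxr q A1 A2 B1 B2 m : ℝ) : ℂ) * psi (q * Q) (m7_al Q q) m := by
  unfold Mq
  by_cases h : (q:ℤ) ∣ m
  · rw [if_pos h]
    obtain ⟨z, rfl⟩ := h
    have hq0 : (0:ℤ) < q := by exact_mod_cast hq
    have hz : 1 ≤ z := by
      by_contra hcon
      have h1 : z ≤ 0 := by omega
      have h2 : (q:ℤ) * z ≤ 0 := mul_nonpos_of_nonneg_of_nonpos hq0.le h1
      omega
    obtain ⟨k, rfl⟩ := Int.eq_ofNat_of_zero_le (by omega : 0 ≤ z)
    have hk : 1 ≤ k := by exact_mod_cast hz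
    have h3 : ((q:ℤ) * (k:ℤ) / q).toNat = k := by
      rw [Int.mul_ediv_cancel_left _ hq0.ne']
      exact Int.toNat_natCast k
    rw [h3, m7_psi Q q k hq, lboxr_eq q A1 A2 B1 B2 k hq hk]
    unfold Pool.Agent.Lib.H21T.Mbox
    rw [Complex.ofReal_mul]
  · rw [if_neg h, m7_psi_zero Q q m h, mul_zero]

theorem mq_cf (C : ℕ) (h2 : ClassTwo C) (n Q A1 A2 B1 B2 q : ℕ) (hn : 2 ≤ n) (hQ : 1 ≤ Q)
    (hq : 1 ≤ q) (hqQ : ((q * Q : ℕ):ℝ) ≤ (n:ℝ) ^ (1 / 4 : ℝ)) (hA : 1 ≤ A1) (hB : 1 ≤ B1)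
    (hA2 : A2 ≤ 2 * A1) (D : ℝ) (hD2 : 560 * (1 + Real.log n) ^ 4 ≤ D)
    (hdiv : ∀ m : ℕ, 1 ≤ m → m ≤ 2 * n → (m.divisors.card : ℝ) ≤ D)
    (W f g : ℤ → ℂ) (hW : ∀ x, ‖W x‖ ≤ 1) (hf : ∀ x, ‖f x‖ ≤ 1) (hg : ∀ x, ‖g x‖ ≤ 1)
    (hT : (n:ℝ) ^ 2 / D ≤ ‖TF n (Mq Q A1 A2 B1 B2 q) W f g‖) :
    ∃ th : ℝ, (n:ℝ) / D ^ (2 * (C + 1)) ≤ ‖∑ z ∈ Icc (1:ℤ) n, g z * ee (th * z)‖ := by
  have hL0 : 0 ≤ Real.log n := Real.log_natCast_nonneg n
  have hL1 : 1 ≤ 1 + Real.log n := by linarith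
  have hL4 : 1 ≤ (1 + Real.log n) ^ 4 := one_le_pow₀ hL1
  have hD560 : 560 ≤ D := by linarith
  have hD0 : 0 < D := by linarith
  have hn0 : (0:ℝ) < n := by
    have : 0 < n := by omega
    exact_mod_cast this
  have hn1 : (1:ℝ) ≤ n := by
    have : 1 ≤ n := by omega
    exact_mod_cast this
  by_cases hE : A2 < A1 ∨ B2 < B1
  · exfalso
    have h0 : TF n (Mq Q A1 A2 B1 B2 q) W f g = 0 := by
      unfold TF
      refine sum_eq_zero fun x _ => sum_eq_zero fun y _ => ?_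
      have h1 : Mq Q A1 A2 B1 B2 q (x + y) = 0 := by
        unfold Mq Pool.Agent.Lib.H21T.Mbox
        rw [lbox_empty A1 A2 B1 B2 _ hA hB hE, zero_mul, Complex.ofReal_zero, ite_self]
      rw [h1, mul_zero, zero_mul]
    rw [h0, norm_zero] at hT
    have : 0 < (n:ℝ) ^ 2 / D := by positivity
    linarith
  · rw [not_or, not_lt, not_lt] at hE
    obtain ⟨J, c, ph, hc, hrep⟩ :=
      lboxr_rep n q A1 A2 B1 B2 (by omega) hq hA hE.1 hA2 hB hE.2
    have hlQ0 : 0 ≤ Real.log Q := Real.log_natCast_nonneg Q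
    have hal : ∀ a, ‖m7_al Q q a‖ ≤ 1 + Real.log Q := by
      intro a
      unfold m7_al
      by_cases h : q ∣ a
      · rw [if_pos h, Complex.norm_real, Real.norm_eq_abs]
        exact Pool.Agent.Lib.H21T.m1 Q (a / q) hQ
      · rw [if_neg h, norm_zero]
        linarith
    obtain ⟨th, hth⟩ := model_cf C h2 type_one_psi n (q * Q) hn hqQ D (7 * (1 + Real.log n))
      (1 + Real.log Q) (by linarith) hdiv (by linarith) (by linarith) J c ph hc (m7_al Q q) hal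
      (Mq Q A1 A2 B1 B2 q) (fun m hm hm2 => by
        rw [m7_Mq Q A1 A2 B1 B2 q hq m (by omega)]
        have h5 := hrep m hm hm2
        simp only at h5
        rw [h5]) W f g hW hf hg hT
    refine ⟨th, le_trans ?_ hth⟩
    have hQn : (Q:ℝ) ≤ n := by
      have h1 : (Q:ℝ) ≤ ((q * Q : ℕ):ℝ) := by
        exact_mod_cast Nat.le_mul_of_pos_left Q hq
      have h3 : (n:ℝ) ^ (1 / 4 : ℝ) ≤ n := by
        calc (n:ℝ) ^ (1 / 4 : ℝ) ≤ (n:ℝ) ^ (1 : ℝ) :=
              Real.rpow_le_rpow_of_exponent_le hn1 (by norm_num)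
          _ = n := Real.rpow_one _
      linarith
    have hlogQ : Real.log Q ≤ Real.log n := by
      apply Real.log_le_log _ hQn
      exact_mod_cast hQ
    have hkey : 80 * (D * (7 * (1 + Real.log n)) * (1 + Real.log Q)) * (1 + Real.log n) ^ 2 ≤
        D ^ 2 := by
      have h1 : (1 + Real.log Q) ≤ 1 + Real.log n := by linarith
      calc 80 * (D * (7 * (1 + Real.log n)) * (1 + Real.log Q)) * (1 + Real.log n) ^ 2
          = D * (560 * ((1 + Real.log n) ^ 3 * (1 + Real.log Q))) := by ring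
        _ ≤ D * (560 * ((1 + Real.log n) ^ 3 * (1 + Real.log n))) := by gcongr
        _ = D * (560 * (1 + Real.log n) ^ 4) := by ring
        _ ≤ D * D := by gcongr
        _ = D ^ 2 := by ring
    have hpos : 0 < 80 * (D * (7 * (1 + Real.log n)) * (1 + Real.log Q)) *
        (1 + Real.log n) ^ 2 := by positivity
    rw [pow_mul]
    exact div_le_div_of_nonneg_left hn0.le (pow_pos hpos _) (pow_le_pow_left₀ hpos.le hkey _)

end Pool.Agent.H44W
end
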