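import Mathlib
import Pool.Agent.Lib.H59M.M2.M002
import Pool.Agent.Lib.H59M.M2.M016
import Pool.Agent.Lib.H59M.M2.M023
import Pool.Agent.Lib.H59M.M2.M025
import Pool.Agent.Lib.H59M.M2.M026
import Pool.Agent.Lib.H59M.M2.M036
import Pool.Agent.Lib.H59M.M2.M038
import Pool.Agent.Lib.H59M.M2.M039
import Pool.Agent.Lib.H59M.M2.M040
import Pool.Agent.Lib.H59M.M2.M041
import Pool.Agent.Lib.H59M.M2.M046
import Pool.Agent.Lib.H59M.M2.M059

/-! Merged copies (to shorten the build) of Lib.H18E.CM, Lib.H18Q.CDefs, Lib.H18Q.CA, Lib.H18Q.PF, Lib.H68T.DA, Lib.H18Q.PA, Lib.H18Q.PB3, Lib.H18Q.PG2. -/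

-- from Lib.H18E.CM
section

/-!
# Chunk CM: many classes on which the exceptional character is `-1` twice
-/

open Finset

namespace Pool.Agent.Lib.H18E


theorem CM_ex (r : ℕ) [NeZero r] (ψ : DirichletCharacter ℂ r) (hψ : ψ.IsPrimitive)
    (m : ℕ) (hm : m ∣ r) (hlt : m < r) :
    ∃ u : (ZMod r)ˣ, ZMod.unitsMap hm u = 1 ∧ ψ (u : ZMod r) ≠ 1 := by
  by_contra hcon
  push Not at hcon
  have hm0 : 0 < m := Nat.pos_of_dvd_of_pos hm (NeZero.pos r)
  have hf : DirichletCharacter.FactorsThrough ψ m := by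
    rw [DirichletCharacter.factorsThrough_iff_ker_unitsMap hm]
    intro u hu
    rw [MonoidHom.mem_ker] at hu ⊢
    apply Units.ext
    simpa using hcon u hu
  have h7 : ψ.conductor ≤ m :=
    Nat.le_of_dvd hm0 (DirichletCharacter.conductor_dvd_of_mem_conductorSet _ hf)
  rw [(DirichletCharacter.isPrimitive_def ψ).1 hψ] at h7
  omega



end Pool.Agent.Lib.H18E
end

-- from Lib.H18Q.CDefs
section

/-!
# Project H18Q: definitions for module C (correlations of components)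
-/

open Finset

namespace Pool.Agent.Lib.H18Q

open Pool.Agent.Lib.H68T

noncomputable section

/-- The component of modulus `p.1 k` of `Gam Q p.1 m conj χ(m)`:
`(r/φ(r)) conj χ(m) μ(k) c_k(m)/φ(k)`, `r = p.1`. -/
def gk (p : Σ r : ℕ, DirichletCharacter ℂ r) (k : ℕ) (m : ℤ) : ℂ :=
  (((p.1 : ℝ) / (Nat.totient p.1 : ℝ) : ℝ) : ℂ) * (starRingEnd ℂ) (p.2 (m : ZMod p.1)) *
    (((ArithmeticFunction.moebius k : ℝ) / (Nat.totient k : ℝ) * cq k m : ℝ) : ℂ)

/-- The squarefree `k ≤ Q/r` coprime to `r`. -/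
def KS (Q r : ℕ) : Finset ℕ :=
  open Classical in (Icc 1 (Q / r)).filter (fun k => Squarefree k ∧ Nat.Coprime k r)



/-- The full sum `∑_p Gam_p(m) conj χ_p(m) b_p`. -/
def SG (Q : ℕ) (b : (Σ r : ℕ, DirichletCharacter ℂ r) → ℂ) (m : ℤ) : ℂ :=
  ∑ p ∈ PC Q, (Gam Q p.1 m : ℂ) * (starRingEnd ℂ) (p.2 (m : ZMod p.1)) * b p


end

end Pool.Agent.Lib.H18Q
end

-- from Lib.H18Q.CA
section

/-!
# Project H18Q, chunk CA: the components of the projection
-/

open Finset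

namespace Pool.Agent.Lib.H18Q

open Pool.Agent.Lib.H68T

theorem CA_chi_zero (r : ℕ) (χ : DirichletCharacter ℂ r) (m : ℤ) (h : ¬ IsCoprime (r : ℤ) m) :
    χ (m : ZMod r) = 0 := by
  apply MulChar.map_nonunit
  rw [ZMod.coe_int_isUnit_iff_isCoprime]
  exact h

theorem CA_sum_icc (Q r : ℕ) (hr : 1 ≤ r) (m : ℤ) (hrm : IsCoprime (r : ℤ) m) :
    Gam Q r m = (r : ℝ) / Nat.totient r * ∑ q ∈ Icc 1 (Q / r), GAM_F r m q := by
  have himg : (Icc 1 Q).filter (fun q => r ∣ q) = (Icc 1 (Q / r)).image (fun q => r * q) := by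
    ext q
    simp only [mem_filter, mem_Icc, mem_image]
    constructor
    · rintro ⟨⟨h1, h2⟩, ⟨e, rfl⟩⟩
      refine ⟨e, ⟨?_, ?_⟩, rfl⟩
      · rcases Nat.eq_zero_or_pos e with rfl | h
        · simp at h1
        · exact h
      · rw [Nat.le_div_iff_mul_le (by omega), mul_comm]
        exact h2
    · rintro ⟨e, ⟨h1, h2⟩, rfl⟩
      refine ⟨⟨Nat.mul_pos (by omega) (by omega), ?_⟩, Dvd.intro _ rfl⟩
      rw [Nat.le_div_iff_mul_le (by omega), mul_comm] at h2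
      exact h2
  unfold Gam
  rw [himg, Finset.sum_image (fun a _ b _ h => Nat.eq_of_mul_eq_mul_left (by omega) h),
    Finset.mul_sum]
  refine Finset.sum_congr rfl (fun q hq => ?_)
  rw [mem_Icc] at hq
  exact GAM_inner r m (by omega) hrm q (by omega)

theorem CA_F_zero (r : ℕ) (m : ℤ) (hrm : IsCoprime (r : ℤ) m) (q : ℕ) (hq : q ≠ 0)
    (h : ¬ (Squarefree q ∧ Nat.Coprime q r)) : GAM_F r m q = 0 := by
  by_cases hs : Squarefree q
  · have hc : ¬ Nat.Coprime q r := fun h' => h ⟨hs, h'⟩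
    obtain ⟨l, hl, hlq, hlr⟩ := Nat.Prime.not_coprime_iff_dvd.1 hc
    rw [← (GAM_F_mult r m).prod_primeFactors hs]
    refine Finset.prod_eq_zero (Nat.mem_primeFactors.2 ⟨hl, hlq, hq⟩) ?_
    rw [GAM_F_prime r m l hl, if_neg, if_pos hlr]
    intro hlm
    have h1 : IsCoprime (l : ℤ) m := by
      obtain ⟨c, rfl⟩ := hlr
      rw [Nat.cast_mul, IsCoprime.mul_left_iff] at hrm
      exact hrm.1
    exact (Nat.prime_iff_prime_int.mp hl).not_unit (h1.isUnit_of_dvd' dvd_rfl hlm)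
  · have h1 := GAM_F_abs r m q hq
    rw [if_neg hs, abs_nonpos_iff] at h1
    exact h1

theorem CA_F_one (m : ℤ) (k : ℕ) : GAM_F 1 m k =
    (ArithmeticFunction.moebius k : ℝ) / (Nat.totient k : ℝ) * cq k m := by
  rw [GAM_identity, ArithmeticFunction.pdiv_apply, ArithmeticFunction.pmul_apply, GAM_c_apply,
    ArithmeticFunction.intCoe_apply]
  change _ / ((Nat.totient k : ℕ) : ℝ) = _
  ring

theorem CA_F_eq (r : ℕ) (m : ℤ) (k : ℕ) (hs : Squarefree k) (hc : Nat.Coprime k r) :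
    GAM_F r m k = GAM_F 1 m k := by
  rw [← (GAM_F_mult r m).prod_primeFactors hs, ← (GAM_F_mult 1 m).prod_primeFactors hs]
  refine Finset.prod_congr rfl fun l hl => ?_
  have hl' := Nat.mem_primeFactors.1 hl
  rw [GAM_F_prime r m l hl'.1, GAM_F_prime 1 m l hl'.1]
  have h1 : ¬ l ∣ r := fun h => hl'.1.one_lt.ne' (Nat.dvd_one.1 (hc ▸ Nat.dvd_gcd hl'.2.1 h))
  have h2 : ¬ l ∣ 1 := fun h => hl'.1.one_lt.ne' (Nat.dvd_one.1 h)
  rw [if_neg h1, if_neg h2]

theorem CA_mem_KS {Q r k : ℕ} : k ∈ KS Q r ↔ (1 ≤ k ∧ k ≤ Q / r) ∧ Squarefree k ∧ Nat.Coprime k r := by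
  classical
  unfold KS
  rw [mem_filter, mem_Icc]

theorem CA_F_abs (m : ℤ) (k : ℕ) (hs : Squarefree k) : |GAM_F 1 m k| =
    ∏ l ∈ k.primeFactors, (if (l : ℤ) ∣ m then 1 else 1 / ((l : ℝ) - 1)) := by
  rw [← (GAM_F_mult 1 m).prod_primeFactors hs, Finset.abs_prod]
  refine Finset.prod_congr rfl fun l hl => ?_
  have hl' := Nat.mem_primeFactors.1 hl
  have h2 : ¬ l ∣ 1 := fun h => hl'.1.one_lt.ne' (Nat.dvd_one.1 h)
  have h3 : (2 : ℝ) ≤ l := by exact_mod_cast hl'.1.two_le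
  rw [GAM_F_prime 1 m l hl'.1, if_neg h2]
  split_ifs
  · simp
  · rw [abs_of_nonneg]
    exact div_nonneg zero_le_one (by linarith)

theorem CA_norm (p : Σ r : ℕ, DirichletCharacter ℂ r) (k : ℕ) (m : ℤ) :
    ‖gk p k m‖ = (p.1 : ℝ) / (Nat.totient p.1 : ℝ) * ‖p.2 (m : ZMod p.1)‖ * |GAM_F 1 m k| := by
  unfold gk
  rw [norm_mul, norm_mul, RCLike.norm_conj, Complex.norm_real, Complex.norm_real, Real.norm_eq_abs,
    Real.norm_eq_abs, ← CA_F_one, abs_of_nonneg (by positivity : (0 : ℝ) ≤ (p.1 : ℝ) / (Nat.totient p.1 : ℝ))]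

theorem CA_cq_congr (k : ℕ) (a b : ℤ) (h : (k : ℤ) ∣ a - b) : cq k a = cq k b := by
  unfold cq
  refine Finset.sum_congr ?_ fun _ _ => rfl
  refine Finset.filter_congr fun d hd => ?_
  have h1 : (d : ℤ) ∣ a - b := (Int.natCast_dvd_natCast.2 (Nat.dvd_of_mem_divisors hd)).trans h
  exact (dvd_iff_dvd_of_dvd_sub h1)

theorem CA_cq_mul (a b : ℕ) (n : ℤ) (h : Nat.Coprime a b) : cq (a * b) n = cq a n * cq b n := by
  rw [← GAM_c_apply, ← GAM_c_apply, ← GAM_c_apply]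
  exact (GAM_c_mult n).2 h

theorem CA_cq_prime (l : ℕ) (hl : l.Prime) (n : ℤ) : cq l n = -1 + if (l : ℤ) ∣ n then (l : ℝ) else 0 := by
  unfold cq
  rw [Finset.sum_filter, hl.divisors, Finset.sum_pair hl.one_lt.ne, Nat.div_one,
    Nat.div_self hl.pos, ArithmeticFunction.moebius_apply_one,
    ArithmeticFunction.moebius_apply_prime hl]
  simp

theorem CA_range (l : ℕ) [NeZero l] (g : ZMod l → ℂ) : ∑ j ∈ range l, g (j : ZMod l) = ∑ z, g z := by
  refine Finset.sum_bij' (fun (j : ℕ) _ => (j : ZMod l)) (fun (z : ZMod l) _ => z.val)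
    (fun _ _ => mem_univ _) (fun z _ => mem_range.2 (ZMod.val_lt z)) (fun j hj => ?_)
    (fun z _ => ZMod.natCast_zmod_val z) (fun _ _ => rfl)
  rw [ZMod.val_natCast, Nat.mod_eq_of_lt (mem_range.1 hj)]

theorem CA_shift (l : ℕ) [NeZero l] (f : ℤ → ℂ) (hf : ∀ a b : ℤ, (a : ZMod l) = b → f a = f b)
    (a b : ℤ) (ha : IsUnit (a : ZMod l)) : ∑ j ∈ range l, f (a * j + b) = ∑ j ∈ range l, f j := by
  obtain ⟨F, hF⟩ : ∃ F : ZMod l → ℂ, ∀ n : ℤ, f n = F (n : ZMod l) := by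
    refine ⟨fun z => f (z.val : ℤ), fun n => hf _ _ ?_⟩
    simp
  have h1 : ∑ j ∈ range l, f (a * j + b) = ∑ z : ZMod l, F ((a : ZMod l) * z + b) := by
    rw [← CA_range l fun z => F ((a : ZMod l) * z + b)]
    refine Finset.sum_congr rfl fun j _ => ?_
    rw [hF]
    push_cast
    rfl
  have h2 : ∑ j ∈ range l, f j = ∑ z : ZMod l, F z := by
    rw [← CA_range l F]
    refine Finset.sum_congr rfl fun j _ => ?_
    rw [hF]
    push_cast
    rfl
  rw [h1, h2]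
  have hbij : Function.Bijective fun z : ZMod l => (a : ZMod l) * z + b := by
    rw [← Finite.injective_iff_bijective]
    intro x y hxy
    exact ha.mul_left_cancel (add_right_cancel hxy)
  exact hbij.sum_comp F

/-- Expansion into components. Proof: if `(m, r) ≠ 1`, `r = p.1`, then `χ(m) = 0` and both sides
vanish. Otherwise `Gam Q r m = ∑_{q ≤ Q, r ∣ q} (...)`, `q = r k`, `k ≤ Q/r`, and the inner sum is
`(r/φ(r)) GAM_F r m k` (`GAM_inner` in `H68T/GAM1`). `GAM_F r m` is multiplicative, `0` at squares of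
primes and beyond (`GAM_F_prime_pow`), and at a prime `l` it is `-1` if `l ∣ m`, `0` if `l ∣ r` (then
`l ∤ m`), else `1/(l-1)` (`GAM_F_prime`). So it vanishes unless `k` is squarefree and coprime to
`r`, and then equals `GAM_F 1 m k = μ(k) c_k(m)/φ(k)` (`GAM_identity`; compare prime by prime). -/
theorem gam_expand (Q : ℕ) (p : Σ r : ℕ, DirichletCharacter ℂ r) (hp : p ∈ PC Q) (m : ℤ) :
    (Gam Q p.1 m : ℂ) * (starRingEnd ℂ) (p.2 (m : ZMod p.1)) = ∑ k ∈ KS Q p.1, gk p k m := by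
  obtain ⟨hr1, hrQ, hprim⟩ := mem_PC.1 hp
  by_cases hrm : IsCoprime (p.1 : ℤ) m
  · rw [CA_sum_icc Q p.1 hr1 m hrm]
    have h1 : ∑ q ∈ Icc 1 (Q / p.1), GAM_F p.1 m q = ∑ k ∈ KS Q p.1, GAM_F 1 m k := by
      rw [← Finset.sum_subset (s₁ := KS Q p.1)]
      · refine Finset.sum_congr rfl fun k hk => ?_
        obtain ⟨-, h2, h3⟩ := CA_mem_KS.1 hk
        exact CA_F_eq p.1 m k h2 h3
      · intro k hk
        exact mem_Icc.2 (CA_mem_KS.1 hk).1
      · intro k hk hk'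
        refine CA_F_zero p.1 m hrm k ?_ fun h => hk' (CA_mem_KS.2 ⟨mem_Icc.1 hk, h⟩)
        have := (mem_Icc.1 hk).1
        omega
    rw [h1]
    push_cast
    rw [Finset.mul_sum, Finset.sum_mul]
    refine Finset.sum_congr rfl fun k _ => ?_
    unfold gk
    rw [CA_F_one]
    push_cast
    ring
  · have h0 := CA_chi_zero p.1 p.2 m hrm
    rw [h0, map_zero, mul_zero]
    symm
    refine Finset.sum_eq_zero fun k _ => ?_
    unfold gk
    rw [h0, map_zero, mul_zero, zero_mul]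


/-- `|gk| ≤ Q`: `r/φ(r) ≤ r ≤ Q` and the other factors are at most `1`. -/
theorem gk_bound (Q : ℕ) (p : Σ r : ℕ, DirichletCharacter ℂ r) (hp : p ∈ PC Q) (k : ℕ)
    (hk : k ∈ KS Q p.1) (m : ℤ) : ‖gk p k m‖ ≤ Q := by
  obtain ⟨hr1, hrQ, hprim⟩ := mem_PC.1 hp
  obtain ⟨-, hs, -⟩ := CA_mem_KS.1 hk
  rw [CA_norm, CA_F_abs m k hs]
  have h1 : ∏ l ∈ k.primeFactors, (if (l : ℤ) ∣ m then 1 else 1 / ((l : ℝ) - 1)) ≤ 1 := by
    refine Finset.prod_le_one (fun l hl => ?_) (fun l hl => ?_)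
    · have hl' := Nat.mem_primeFactors.1 hl
      have h3 : (2 : ℝ) ≤ l := by exact_mod_cast hl'.1.two_le
      split_ifs
      · exact zero_le_one
      · exact div_nonneg zero_le_one (by linarith)
    · have hl' := Nat.mem_primeFactors.1 hl
      have h3 : (2 : ℝ) ≤ l := by exact_mod_cast hl'.1.two_le
      split_ifs
      · exact le_rfl
      · rw [div_le_one (by linarith)]
        linarith
  have h0 : 0 ≤ ∏ l ∈ k.primeFactors, (if (l : ℤ) ∣ m then 1 else 1 / ((l : ℝ) - 1)) := by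
    refine Finset.prod_nonneg fun l hl => ?_
    have hl' := Nat.mem_primeFactors.1 hl
    have h3 : (2 : ℝ) ≤ l := by exact_mod_cast hl'.1.two_le
    split_ifs
    · exact zero_le_one
    · exact div_nonneg zero_le_one (by linarith)
  have h2 : (p.1 : ℝ) / (Nat.totient p.1 : ℝ) ≤ Q := by
    have h4 : (1 : ℝ) ≤ (Nat.totient p.1 : ℝ) := by
      exact_mod_cast Nat.totient_pos.2 (by omega)
    refine (div_le_self (by positivity) h4).trans ?_
    exact_mod_cast hrQ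
  have h5 := DirichletCharacter.norm_le_one p.2 (m : ZMod p.1)
  calc (p.1 : ℝ) / (Nat.totient p.1 : ℝ) * ‖p.2 (m : ZMod p.1)‖ *
        ∏ l ∈ k.primeFactors, (if (l : ℤ) ∣ m then 1 else 1 / ((l : ℝ) - 1))
      ≤ (Q : ℝ) * 1 * 1 := by
        refine mul_le_mul (mul_le_mul h2 h5 (norm_nonneg _) (by positivity)) h1 h0 (by positivity)
    _ = Q := by ring

theorem gk_period (p : Σ r : ℕ, DirichletCharacter ℂ r) (k : ℕ) (m j : ℤ) :
    gk p k (m + (p.1 * k : ℕ) * j) = gk p k m := by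
  unfold gk
  have h1 : ((m + (p.1 * k : ℕ) * j : ℤ) : ZMod p.1) = (m : ZMod p.1) := by
    push_cast
    simp
  have h2 : cq k (m + (p.1 * k : ℕ) * j) = cq k m := by
    refine CA_cq_congr k _ _ ⟨p.1 * j, ?_⟩
    push_cast
    ring
  rw [h1, h2]

/-- Primitivity. Let `l` be a prime dividing `p.1 k`, `N = p.1 k / l`. If `l ∣ k` (then `l ∤ r`):
`N = r (k/l)`, `χ` and `c_(k/l)` do not see the shift, `c_k = c_(k/l) c_l`
(`GAM_c_mult`; coprime since `k` is squarefree), and `c_l(n) = l - 1` if `l ∣ n`, `-1` else, so the sum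
of `c_l` over the `l` different classes `m + j N` modulo `l` is `0`. If `l ∣ r` (then `l ∤ k`):
`N = k (r/l)`, `c_k` does not see the shift, and `∑_j conj χ(m + j k r/l) = 0`: the values
`m + j k (r/l)` run through all classes modulo `r` congruent to `m` modulo `r/l` (`k` is a unit
modulo `l`); by primitivity there is a unit `u ≡ 1` modulo `r/l` with `χ(u) ≠ 1` (`CM_ex` in
`H18E/CM`), multiplication by `u` permutes these classes, so the sum `S` satisfies `S = χ(u) S`. -/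
theorem gk_prim (Q : ℕ) (p : Σ r : ℕ, DirichletCharacter ℂ r) (hp : p ∈ PC Q) (k : ℕ)
    (hk : k ∈ KS Q p.1) (l : ℕ) (hl : l.Prime) (hlk : l ∣ p.1 * k) (m : ℤ) :
    ∑ j ∈ range l, gk p k (m + (j : ℤ) * (p.1 * k / l : ℕ)) = 0 := by
  obtain ⟨hr1, hrQ, hprim⟩ := mem_PC.1 hp
  obtain ⟨⟨hk1, -⟩, hs, hcop⟩ := CA_mem_KS.1 hk
  have hl0 : NeZero l := ⟨hl.ne_zero⟩
  have hr0 : NeZero p.1 := ⟨by omega⟩
  by_cases hlk' : l ∣ k
  · obtain ⟨k', rfl⟩ := hlk'
    have hck : Nat.Coprime l k' := by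
      rw [hl.coprime_iff_not_dvd]
      rintro ⟨c, rfl⟩
      exact hl.one_lt.ne' (Nat.isUnit_iff.1 (hs l ⟨c, by ring⟩))
    have hcr : Nat.Coprime l p.1 := Nat.Coprime.coprime_mul_right hcop
    have hN : p.1 * (l * k') / l = p.1 * k' := by
      rw [show p.1 * (l * k') = l * (p.1 * k') by ring, Nat.mul_div_cancel_left _ hl.pos]
    rw [hN]
    have h1 : ∀ j : ℕ, gk p (l * k') (m + (j : ℤ) * (p.1 * k' : ℕ)) =
        ((((p.1 : ℝ) / (Nat.totient p.1 : ℝ) : ℝ) : ℂ) * (starRingEnd ℂ) (p.2 (m : ZMod p.1)) *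
        (((ArithmeticFunction.moebius (l * k') : ℝ) / (Nat.totient (l * k') : ℝ) * cq k' m : ℝ) : ℂ)) *
        ((cq l (((p.1 * k' : ℕ) : ℤ) * j + m) : ℝ) : ℂ) := by
      intro j
      unfold gk
      have e1 : ((m + (j : ℤ) * (p.1 * k' : ℕ) : ℤ) : ZMod p.1) = (m : ZMod p.1) := by
        push_cast
        simp
      have e2 : cq (l * k') (m + (j : ℤ) * (p.1 * k' : ℕ)) = cq l (((p.1 * k' : ℕ) : ℤ) * j + m) * cq k' m := by
        rw [CA_cq_mul l k' _ hck]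
        congr 1
        · congr 1
          ring
        · refine CA_cq_congr k' _ _ ⟨j * p.1, ?_⟩
          push_cast
          ring
      rw [e1, e2]
      push_cast
      ring
    rw [Finset.sum_congr rfl fun j _ => h1 j, ← Finset.mul_sum]
    have h2 := CA_shift l (fun n => ((cq l n : ℝ) : ℂ)) (fun a b hab => by
      rw [CA_cq_congr l a b ((ZMod.intCast_eq_intCast_iff_dvd_sub b a l).1 hab.symm)]) ((p.1 * k' : ℕ) : ℤ) m (by
      rw [Int.cast_natCast, ZMod.isUnit_iff_coprime]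
      exact (Nat.Coprime.mul_right hcr hck).symm)
    rw [h2]
    have h3 : ∑ j ∈ range l, ((cq l (j : ℤ) : ℝ) : ℂ) = 0 := by
      rw [← Complex.ofReal_sum]
      have h4 : ∑ j ∈ range l, cq l (j : ℤ) = 0 := by
        have h5 : ∀ j ∈ range l, cq l (j : ℤ) = -1 + if j = 0 then (l : ℝ) else 0 := by
          intro j hj
          rw [CA_cq_prime l hl]
          congr 1
          have h6 : ((l : ℤ) ∣ (j : ℤ)) ↔ j = 0 := by
            rw [Int.natCast_dvd_natCast]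
            constructor
            · intro h
              exact Nat.eq_zero_of_dvd_of_lt h (mem_range.1 hj)
            · rintro rfl
              exact dvd_zero _
          simp only [h6]
        rw [Finset.sum_congr rfl h5, Finset.sum_add_distrib, Finset.sum_ite_eq' (range l) 0,
          if_pos (mem_range.2 hl.pos), Finset.sum_const, card_range]
        simp
      rw [h4, Complex.ofReal_zero]
    rw [h3, mul_zero]
  · have hlr : l ∣ p.1 := (hl.dvd_mul.1 hlk).resolve_right hlk'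
    obtain ⟨r', hr'⟩ := hlr
    have hr'0 : 0 < r' := by
      rcases Nat.eq_zero_or_pos r' with h | h
      · rw [h, mul_zero] at hr'
        omega
      · exact h
    have hN : p.1 * k / l = r' * k := by
      rw [hr', mul_assoc, Nat.mul_div_cancel_left _ hl.pos]
    rw [hN]
    obtain ⟨f, hf⟩ : ∃ f : ℤ → ℂ, ∀ t, f t = p.2 ((m + t * r' : ℤ) : ZMod p.1) := ⟨_, fun _ => rfl⟩
    have hfc : ∀ a b : ℤ, (a : ZMod l) = b → f a = f b := by
      intro a b hab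
      rw [hf, hf]
      congr 1
      rw [ZMod.intCast_eq_intCast_iff_dvd_sub] at hab ⊢
      obtain ⟨c, hc⟩ := hab
      refine ⟨c, ?_⟩
      rw [hr']
      push_cast
      linear_combination (r' : ℤ) * hc
    have h1 : ∀ j : ℕ, gk p k (m + (j : ℤ) * (r' * k : ℕ)) =
        ((((p.1 : ℝ) / (Nat.totient p.1 : ℝ) : ℝ) : ℂ) *
        (((ArithmeticFunction.moebius k : ℝ) / (Nat.totient k : ℝ) * cq k m : ℝ) : ℂ)) *
        (starRingEnd ℂ) (f ((k : ℤ) * j + 0)) := by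
      intro j
      unfold gk
      have e1 : p.2 ((m + (j : ℤ) * (r' * k : ℕ) : ℤ) : ZMod p.1) = f ((k : ℤ) * j + 0) := by
        rw [hf]
        congr 1
        push_cast
        ring
      have e2 : cq k (m + (j : ℤ) * (r' * k : ℕ)) = cq k m := by
        refine CA_cq_congr k _ _ ⟨j * r', ?_⟩
        push_cast
        ring
      rw [e1, e2]
      ring
    rw [Finset.sum_congr rfl fun j _ => h1 j, ← Finset.mul_sum, ← map_sum]
    have hku : IsUnit ((k : ℤ) : ZMod l) := by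
      rw [Int.cast_natCast, ZMod.isUnit_iff_coprime]
      exact ((hl.coprime_iff_not_dvd).2 hlk').symm
    rw [CA_shift l f hfc (k : ℤ) 0 hku]
    have hlt : r' < p.1 := by
      rw [hr']
      have := hl.two_le
      nlinarith
    have hdvd : r' ∣ p.1 := ⟨l, by rw [hr', mul_comm]⟩
    have hldvd : l ∣ p.1 := ⟨r', hr'⟩
    obtain ⟨u, hu1, hu2⟩ := Pool.Agent.Lib.H18E.CM_ex p.1 p.2 hprim r' hdvd hlt
    obtain ⟨U, hU⟩ : ∃ U : ℤ, U = (((u : ZMod p.1).val : ℕ) : ℤ) := ⟨_, rfl⟩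
    have hUu : ((U : ℤ) : ZMod p.1) = (u : ZMod p.1) := by
      rw [hU, Int.cast_natCast, ZMod.natCast_zmod_val]
    have hU1 : ((U : ℤ) : ZMod r') = 1 := by
      have h3 := congrArg (fun z : (ZMod r')ˣ => (z : ZMod r')) hu1
      have h4 : ZMod.castHom hdvd (ZMod r') (u : ZMod p.1) = 1 := by
        simpa [ZMod.unitsMap_def] using h3
      rw [← hUu, map_intCast] at h4
      exact h4
    have hUl : IsUnit ((U : ℤ) : ZMod l) := by
      have h3 : IsUnit (ZMod.castHom hldvd (ZMod l) (u : ZMod p.1)) := u.isUnit.map _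
      rw [← hUu, map_intCast] at h3
      exact h3
    obtain ⟨s, hs'⟩ : ∃ s : ℤ, U = 1 + s * r' := by
      have h3 : ((1 : ℤ) : ZMod r') = ((U : ℤ) : ZMod r') := by rw [hU1, Int.cast_one]
      rw [ZMod.intCast_eq_intCast_iff_dvd_sub] at h3
      obtain ⟨c, hc⟩ := h3
      exact ⟨c, by linear_combination hc⟩
    have h5 := CA_shift l f hfc U (s * m) hUl
    have h6 : ∀ j : ℕ, f (U * j + s * m) = p.2 (u : ZMod p.1) * f j := by
      intro j
      rw [hf, hf, ← hUu, ← map_mul]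
      congr 1
      rw [← Int.cast_mul]
      congr 1
      linear_combination (-m) * hs'
    rw [Finset.sum_congr rfl fun j _ => h6 j, ← Finset.mul_sum] at h5
    have h7 : ∑ j ∈ range l, f (j : ℤ) = 0 := by
      have h8 : (p.2 (u : ZMod p.1) - 1) * ∑ j ∈ range l, f (j : ℤ) = 0 := by
        linear_combination h5
      exact (mul_eq_zero.1 h8).resolve_left (sub_ne_zero.2 hu2)
    rw [h7, map_zero, mul_zero]

end Pool.Agent.Lib.H18Q
end

-- from Lib.H18Q.PF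
section

/-!
# Project H18Q, chunk PF: the smooth main terms
-/

open Finset

namespace Pool.Agent.Lib.H18Q

open Pool.Agent.Lib.H68T

theorem pf_sum_int {A M t : ℝ} {O O1 O2 : ℝ → ℝ} (h : XFB_Amp A M O O1 O2) (hM : 0 ≤ M)
    (_hA : 0 < A) (N N0 : ℕ) (hN : A + 6 < Real.log N) (hN0 : 1 ≤ N0) (hAN : Real.log N0 < A) :
    ‖∑ n ∈ Icc 1 N, XFB_W O t (n:ℝ) - ∫ u in (1:ℝ)..(N : ℝ), XFB_W O t u‖ ≤
      M * (2 + |t|) * (2 / N0) := by
  have hNpos : 1 ≤ N := by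
    rcases Nat.eq_zero_or_pos N with h0 | h0
    · rw [h0] at hN; simp at hN; linarith
    · exact h0
  have hzero : ∀ u : ℝ, 1 ≤ u → u ≤ N0 → XFB_W O t u = 0 := by
    intro u hu hu'
    unfold XFB_W
    rw [h.z0 _ (by
      rw [Set.mem_Icc]
      intro h'
      have := Real.log_le_log (by linarith) hu'
      linarith [h'.1])]
    simp
  have hNN : N0 ≤ N := by
    by_contra hc
    push Not at hc
    have : Real.log N ≤ Real.log N0 := Real.log_le_log (by exact_mod_cast hNpos)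
      (by exact_mod_cast hc.le)
    linarith
  have hW1 : XFB_W O t ((1 : ℕ) : ℝ) = 0 := hzero _ (by simp) (by exact_mod_cast hN0)
  have hint : ∀ N : ℕ, 1 ≤ N → ∫ u in (1:ℝ)..(N:ℝ), XFB_W O t u =
      ∑ n ∈ Ico 1 N, ∫ u in (n:ℝ)..((n + 1 : ℕ) : ℝ), XFB_W O t u := by
    intro N hN
    induction N, hN using Nat.le_induction with
    | base => simp
    | succ N hN ih =>
      rw [sum_Ico_succ_top hN, ← ih, intervalIntegral.integral_add_adjacent_intervals]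
      · exact XFB_W_ii O h.c0 t 1 N one_pos (by exact_mod_cast hN)
      · exact XFB_W_ii O h.c0 t N _ (by exact_mod_cast hN) (by push_cast; linarith)
  have hsum : ∀ N : ℕ, 1 ≤ N → ∑ n ∈ Icc 1 N, XFB_W O t (n:ℝ) =
      ∑ n ∈ Ico 1 N, XFB_W O t ((n + 1 : ℕ) : ℝ) := by
    intro N hN
    induction N, hN using Nat.le_induction with
    | base => simpa using hW1
    | succ N hN ih =>
      rw [sum_Ico_succ_top hN, ← ih, sum_Icc_succ_top (by omega)]
  have hdiff : ‖∑ n ∈ Icc 1 N, XFB_W O t (n:ℝ) - ∫ u in (1:ℝ)..(N : ℝ), XFB_W O t u‖ ≤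
      M * (2 + |t|) * (2 / N0) := by
    rw [hint _ hNpos, hsum _ hNpos, ← sum_sub_distrib]
    have hz : ∑ n ∈ Ico 1 N, (XFB_W O t ((n + 1 : ℕ) : ℝ) -
        ∫ u in (n:ℝ)..((n + 1 : ℕ) : ℝ), XFB_W O t u) =
        ∑ n ∈ Ico N0 N, (XFB_W O t ((n + 1 : ℕ) : ℝ) -
        ∫ u in (n:ℝ)..((n + 1 : ℕ) : ℝ), XFB_W O t u) := by
      symm
      apply sum_subset
      · intro n hn
        rw [mem_Ico] at hn ⊢
        exact ⟨le_trans hN0 hn.1, hn.2⟩
      · intro n hn hn'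
        rw [mem_Ico] at hn
        rw [mem_Ico, not_and] at hn'
        have hlt : n < N0 := by
          by_contra h
          exact hn' (not_lt.mp h) hn.2
        have hlt' : ((n + 1 : ℕ) : ℝ) ≤ (N0:ℝ) := by exact_mod_cast hlt
        have z2 : XFB_W O t ((n + 1 : ℕ) : ℝ) = 0 := hzero _ (by push_cast; linarith) hlt'
        rw [z2, zero_sub, neg_eq_zero]
        rw [intervalIntegral.integral_congr (g := fun _ => (0:ℂ))]
        · simp
        · intro u hu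
          rw [Set.uIcc_of_le (by push_cast; linarith)] at hu
          have hn1 : (1:ℝ) ≤ n := by exact_mod_cast hn.1
          exact hzero _ (by linarith [hu.1]) (hu.2.trans hlt')
    rw [hz]
    have hterm : ∀ n ∈ Ico N0 N, ‖XFB_W O t ((n + 1 : ℕ) : ℝ) -
        ∫ u in (n:ℝ)..((n + 1 : ℕ) : ℝ), XFB_W O t u‖ ≤ M * (2 + |t|) * (1 / (n : ℝ) ^ 2) := by
      intro n hn
      rw [mem_Ico] at hn
      have hn1 : 1 ≤ n := le_trans hN0 hn.1
      have hn1' : (1:ℝ) ≤ n := by exact_mod_cast hn1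
      have hle : (n:ℝ) ≤ ((n + 1 : ℕ) : ℝ) := by push_cast; linarith
      have h5 : (((n + 1 : ℕ) : ℝ) - n) = 1 := by push_cast; ring
      have hconst : XFB_W O t ((n + 1 : ℕ) : ℝ) =
          ∫ u in (n:ℝ)..((n + 1 : ℕ) : ℝ), XFB_W O t ((n + 1 : ℕ) : ℝ) := by
        rw [intervalIntegral.integral_const, h5, one_smul]
      rw [hconst, ← intervalIntegral.integral_sub (by simp)
        (XFB_W_ii O h.c0 t n _ (by linarith) hle)]
      have := intervalIntegral.norm_integral_le_of_norm_le_const (a := (n:ℝ))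
        (b := ((n + 1 : ℕ) : ℝ)) (C := M * (2 + |t|) * (1 / (n : ℝ) ^ 2))
        (f := fun u => XFB_W O t ((n + 1 : ℕ) : ℝ) - XFB_W O t u) ?_
      · rw [h5, abs_one, mul_one] at this
        exact this
      · intro u hu
        rw [Set.uIoc_of_le hle] at hu
        have hu1 : 1 ≤ u := by linarith [hu.1]
        refine (XFB_diff h hM t u ((n + 1 : ℕ) : ℝ) hu1 hu.2).trans ?_
        have h7 : (((n + 1 : ℕ) : ℝ) - u) / u ^ 2 ≤ 1 / (n:ℝ) ^ 2 := by
          apply div_le_div₀ zero_le_one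
          · have := hu.1; push_cast; linarith
          · positivity
          · exact pow_le_pow_left₀ (by linarith) hu.1.le 2
        have := abs_nonneg t
        exact mul_le_mul_of_nonneg_left h7 (by positivity)
    refine (norm_sum_le _ _).trans ((sum_le_sum hterm).trans ?_)
    rw [← mul_sum]
    have := abs_nonneg t
    exact mul_le_mul_of_nonneg_left (LONG_sum_inv_sq N0 N hN0) (by positivity)
  exact hdiff

/-- The integral `Mb` over the support. -/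
theorem pf_Mb (X : ℕ) (hX : 8 ≤ X) (b t : ℝ) :
    Mb X b t = ∫ y in (0:ℝ)..Real.log ((60 * X : ℕ) : ℝ),
      (XFB_O (-Real.log X) b y : ℂ) * Complex.exp (-(t * Complex.I) * y) := by
  have hX0 : (0:ℝ) < X := by
    have : 0 < X := by omega
    exact_mod_cast this
  have hX8 : (8:ℝ) ≤ X := by exact_mod_cast hX
  have hexp2 : Real.exp 2 ≤ 8 := by
    have h2 : Real.exp 2 = (Real.exp 1) ^ 2 := by rw [← Real.exp_nat_mul]; norm_num
    rw [h2]
    have h1 := Real.exp_one_lt_d9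
    calc (Real.exp 1) ^ 2 ≤ (2.7182818286:ℝ) ^ 2 := pow_le_pow_left₀ (Real.exp_pos 1).le h1.le 2
      _ ≤ 8 := by norm_num
  have hlX : 2 ≤ Real.log X := (Real.le_log_iff_exp_le hX0).mpr (hexp2.trans hX8)
  have hl60 : (4:ℝ) < Real.log 60 := by
    rw [Real.lt_log_iff_exp_lt (by norm_num)]
    have : Real.exp 4 = (Real.exp 1) ^ 4 := by
      rw [← Real.exp_nat_mul]; norm_num
    rw [this]
    have h1 := Real.exp_one_lt_d9
    calc (Real.exp 1) ^ 4 ≤ (2.7182818286:ℝ) ^ 4 :=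
          pow_le_pow_left₀ (Real.exp_pos 1).le h1.le 4
      _ < 60 := by norm_num
  have hlN : Real.log X + 4 < Real.log ((60 * X : ℕ) : ℝ) := by
    push_cast
    rw [Real.log_mul (by norm_num) hX0.ne']
    linarith
  have hpt : ∀ y : ℝ, (w (y - Real.log X) : ℂ) *
      Complex.exp (-((1 - b : ℝ) + t * Complex.I) * y) =
      (XFB_O (-Real.log X) b y : ℂ) * Complex.exp (-(t * Complex.I) * y) := by
    intro y
    unfold XFB_O
    rw [← sub_eq_add_neg]
    push_cast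
    rw [mul_assoc, ← Complex.exp_add]
    congr 2
    ring
  have hz : ∀ y : ℝ, y ∉ Set.Ioc 0 (Real.log ((60 * X : ℕ) : ℝ)) →
      w (y - Real.log X) = 0 := by
    intro y hy
    rw [Set.mem_Ioc, not_and_or, not_lt, not_le] at hy
    unfold w
    rcases hy with hy | hy
    · rw [Real.smoothTransition.zero_of_nonpos (by linarith), zero_mul]
    · rw [Real.smoothTransition.zero_of_nonpos (x := 4 - (y - Real.log X)) (by linarith), mul_zero]
  unfold Mb
  rw [intervalIntegral.integral_of_le (by linarith)]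
  rw [← MeasureTheory.setIntegral_eq_integral_of_forall_compl_eq_zero
    (s := Set.Ioc 0 (Real.log ((60 * X : ℕ) : ℝ)))]
  · exact MeasureTheory.setIntegral_congr_fun measurableSet_Ioc (fun y _ => hpt y)
  · intro y hy
    rw [hz y hy]
    simp

theorem PF_F0 (X : ℕ) (t : ℝ) : F0 X t = Fb X 1 t := by
  unfold F0 Fb
  congr 1
  funext m
  simp

/-- Sum and integral: `|Fb X b t - Mb X b t| ≤ C (1 + |t|)/X` for `1/2 ≤ b ≤ 1`, `X` large.

Proof. `Fb X b t = ∑_{m ≤ 60 X} φ(m)`, `φ(x) = w(log x - log X) x^(b - 2 - it)`, and substituting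
`x = e^u`, `Mb X b t = ∫_0^∞ φ(x) dx = ∫_{X/e²}^{e⁴ X} φ`. `|φ'(x)| ≤ C (1 + |t|) x^(b-3) ≤
C (1+|t|) x^(-2)`. `|∑_{m ∈ (A, B]} φ(m) - ∫_A^B φ| ≤ ∫_A^B |φ'| ≤ C (1+|t|)/A` with `A = ⌊X/8⌋ - 1`
(`φ = 0` below, as `e² < 7.4`), `B = 60 X`. The lemmas `XFB_W`, `XFB_diff`, `XFB_subst`, `XFB_eq` of
`H68X/XFB` do exactly this. -/
theorem PF_main : ∃ C K : ℝ, 0 < C ∧ ∀ X : ℕ, K ≤ X → ∀ b t : ℝ, 1 / 2 ≤ b → b ≤ 1 →
    ‖Fb X b t - Mb X b t‖ ≤ C * (1 + |t|) / X := by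
  obtain ⟨M, hM, hamp⟩ := XFB_amp
  refine ⟨40 * (M + 1), 100, by positivity, fun X hXK b t hb hb1 => ?_⟩
  have hX100 : (100:ℝ) ≤ X := hXK
  have hXn : 100 ≤ X := by exact_mod_cast hX100
  have hX0 : (0:ℝ) < X := by linarith
  rw [XFB_eq X b t (by omega), pf_Mb X (by omega) b t]
  have hexp2 : Real.exp 2 ≤ 8 := by
    have h2 : Real.exp 2 = (Real.exp 1) ^ 2 := by rw [← Real.exp_nat_mul]; norm_num
    rw [h2]
    have h1 := Real.exp_one_lt_d9
    calc (Real.exp 1) ^ 2 ≤ (2.7182818286:ℝ) ^ 2 := pow_le_pow_left₀ (Real.exp_pos 1).le h1.le 2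
      _ ≤ 8 := by norm_num
  have hlX : 3 ≤ Real.log X := by
    have h1 : Real.exp 3 ≤ 100 := by
      have h2 : Real.exp 3 = (Real.exp 1) ^ 3 := by rw [← Real.exp_nat_mul]; norm_num
      rw [h2]
      have h1 := Real.exp_one_lt_d9
      calc (Real.exp 1) ^ 3 ≤ (2.7182818286:ℝ) ^ 3 := pow_le_pow_left₀ (Real.exp_pos 1).le h1.le 3
        _ ≤ 100 := by norm_num
    exact (Real.le_log_iff_exp_le hX0).mpr (h1.trans hX100)
  have hA := hamp (-Real.log X) b (by linarith) hb hb1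
  rw [neg_neg] at hA
  have hN01 : 1 ≤ X / 9 := by omega
  have hN0' : ((X / 9 : ℕ) : ℝ) ≤ X / 9 := by exact_mod_cast Nat.cast_div_le
  have hN0'' : (X : ℝ) / 10 ≤ ((X / 9 : ℕ) : ℝ) := by
    have h1 : X < (X / 9 + 1) * 9 := by omega
    have h2 : (X : ℝ) < (((X / 9 : ℕ) : ℝ) + 1) * 9 := by exact_mod_cast h1
    linarith
  have hN00 : (0:ℝ) < ((X / 9 : ℕ) : ℝ) := by exact_mod_cast hN01
  have hlN0 : Real.log ((X / 9 : ℕ) : ℝ) < Real.log X - 2 := by
    have h1 : Real.log ((X / 9 : ℕ) : ℝ) ≤ Real.log (X / 9) := Real.log_le_log hN00 hN0'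
    rw [Real.log_div hX0.ne' (by norm_num)] at h1
    have h2 : 2 < Real.log 9 := by
      rw [Real.lt_log_iff_exp_lt (by norm_num)]; linarith
    linarith
  have hlN : Real.log X - 2 + 6 < Real.log ((60 * X : ℕ) : ℝ) := by
    push_cast
    rw [Real.log_mul (by norm_num) hX0.ne']
    have hlog60 : (4:ℝ) < Real.log 60 := by
      rw [Real.lt_log_iff_exp_lt (by norm_num)]
      have : Real.exp 4 = (Real.exp 1) ^ 4 := by
        rw [← Real.exp_nat_mul]; norm_num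
      rw [this]
      have h1 := Real.exp_one_lt_d9
      calc (Real.exp 1) ^ 4 ≤ (2.7182818286:ℝ) ^ 4 :=
            pow_le_pow_left₀ (Real.exp_pos 1).le h1.le 4
        _ < 60 := by norm_num
    linarith
  have hmain := pf_sum_int (t := t) hA hM (by linarith) (60 * X) (X / 9) hlN hN01 hlN0
  have h60 : (1:ℝ) ≤ ((60 * X : ℕ) : ℝ) := by
    have : 1 ≤ 60 * X := by omega
    exact_mod_cast this
  rw [XFB_subst _ hA.c0 t _ h60] at hmain
  refine hmain.trans ?_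
  have ht := abs_nonneg t
  calc M * (2 + |t|) * (2 / ((X / 9 : ℕ) : ℝ)) ≤ (M + 1) * (2 * (1 + |t|)) * (20 / X) := by
        apply mul_le_mul _ _ (by positivity) (by positivity)
        · nlinarith
        · rw [div_le_div_iff₀ hN00 hX0]
          linarith
    _ = 40 * (M + 1) * (1 + |t|) / X := by ring

end Pool.Agent.Lib.H18Q
end

-- from Lib.H68T.DA
section

/-!
# Chunk DA: the projection `lp * kern` is close to the model `G`
-/

open Finset

namespace Pool.Agent.Lib.H68T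

/-- change of variables `n = m - z` -/
theorem DA_Lk_eq (Q X Y : ℕ) (m : ℤ) (hm : (X : ℤ) ≤ m) (hm4 : m ≤ 4 * X) (hY : Y < X) :
    Lk Q Y m = ∑ n ∈ Icc 1 (60 * X), (lp n * tent Y (m - n)) *
      ∑ q ∈ Icc 1 Q, cq q ((n : ℤ) - m) := by
  unfold Lk
  have h1 : ∑ n ∈ Icc 1 (60 * X), (lp n * tent Y (m - n)) *
      ∑ q ∈ Icc 1 Q, cq q ((n : ℤ) - m) =
      ∑ n ∈ (Icc 1 (60 * X)).filter (fun n : ℕ => |m - (n : ℤ)| < Y), (lp n * tent Y (m - n)) *
      ∑ q ∈ Icc 1 Q, cq q ((n : ℤ) - m) := by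
    rw [sum_filter]
    refine sum_congr rfl fun n _ => ?_
    split_ifs with h
    · rfl
    · have : tent Y (m - n) = 0 := by
        unfold tent
        have h2 : (Y : ℝ) ≤ |((m - n : ℤ) : ℝ)| := by
          have : (Y : ℤ) ≤ |m - (n : ℤ)| := not_lt.mp h
          exact_mod_cast this
        rw [max_eq_left (by linarith), zero_div]
      rw [this, mul_zero, zero_mul]
  rw [h1]
  symm
  refine sum_nbij' (fun n : ℕ => m - (n : ℤ)) (fun z : ℤ => (m - z).toNat) ?_ ?_ ?_ ?_ ?_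
  · intro n hn
    rw [mem_filter] at hn
    rw [mem_Ioo]
    have := abs_lt.mp hn.2
    constructor <;> linarith [this.1, this.2]
  · intro z hz
    rw [mem_Ioo] at hz
    rw [mem_filter, mem_Icc]
    have h3 : ((m - z).toNat : ℤ) = m - z := Int.toNat_of_nonneg (by omega)
    refine ⟨⟨by omega, by omega⟩, ?_⟩
    rw [h3, abs_lt]
    constructor <;> omega
  · intro n hn
    simp
  · intro z hz
    rw [mem_Ioo] at hz
    have h3 : ((m - z).toNat : ℤ) = m - z := Int.toNat_of_nonneg (by omega)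
    simp only [h3]
    ring
  · intro n hn
    have e1 : m - (m - (n : ℤ)) = n := by ring
    rw [e1]
    unfold kern
    have e2 : ∑ q ∈ Icc 1 Q, cq q (m - (n : ℤ)) = ∑ q ∈ Icc 1 Q, cq q ((n : ℤ) - m) := by
      refine sum_congr rfl fun q _ => ?_
      rw [← cq_neg q ((n : ℤ) - m)]
      congr 1
      ring
    rw [e2]
    ring

/-- expansion of the projection in characters -/
theorem DA_expand (Q X Y : ℕ) (m : ℤ) (hm : (X : ℤ) ≤ m) (hm4 : m ≤ 4 * X) (hY : Y < X)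
    (hQ : Q + Y ≤ X) :
    (Lk Q Y m : ℂ) = ∑ p ∈ PC Q, (Gam Q p.1 m : ℂ) * (starRingEnd ℂ) (p.2 (m : ZMod p.1)) *
      ∑ n ∈ Icc 1 (60 * X), ((lp n * tent Y (m - n) : ℝ) : ℂ) * p.2 (n : ZMod p.1) := by
  rw [DA_Lk_eq Q X Y m hm hm4 hY]
  rw [Complex.ofReal_sum]
  have h1 : ∀ n ∈ Icc 1 (60 * X), (((lp n * tent Y (m - n)) *
      ∑ q ∈ Icc 1 Q, cq q ((n : ℤ) - m) : ℝ) : ℂ) =
      ∑ p ∈ PC Q, ((lp n * tent Y (m - n) : ℝ) : ℂ) * ((Gam Q p.1 m : ℂ) *
        (p.2 (n : ZMod p.1) * (starRingEnd ℂ) (p.2 (m : ZMod p.1)))) := by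
    intro n hn
    rw [← mul_sum]
    by_cases h0 : lp n * tent Y (m - n) = 0
    · rw [h0]; simp
    · have hl : lp n ≠ 0 := fun h => h0 (by rw [h, zero_mul])
      have ht : tent Y (m - n) ≠ 0 := fun h => h0 (by rw [h, mul_zero])
      have hp : n.Prime := by
        unfold lp at hl
        by_contra hc
        apply hl
        simp [hc]
      have hlt : |m - (n : ℤ)| < Y := by
        by_contra hc
        apply ht
        unfold tent
        have h2 : (Y : ℝ) ≤ |((m - n : ℤ) : ℝ)| := by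
          have : (Y : ℤ) ≤ |m - (n : ℤ)| := not_lt.mp hc
          exact_mod_cast this
        rw [max_eq_left (by linarith), zero_div]
      have hQn : Q < n := by
        have := abs_lt.mp hlt
        omega
      rw [Complex.ofReal_mul, kernel_char Q n hp hQn m]
  rw [sum_congr rfl h1, sum_comm]
  refine sum_congr rfl fun p _ => ?_
  rw [mul_sum]
  refine sum_congr rfl fun n _ => ?_
  ring



end Pool.Agent.Lib.H68T
end

-- from Lib.H18Q.PA
section

/-!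
# Project H18Q, chunk PA: the weighted series and the zeros
-/

open Finset

namespace Pool.Agent.Lib.H18Q

open ArithmeticFunction Pool.Agent.Lib.H68T

theorem pa_summable (c : ℕ → ℂ) (hc : ∀ n, ‖c n‖ ≤ 1) {s : ℂ} (hs : 1 < s.re) :
    LSeriesSummable (fun n => (Λ n : ℂ) * c n) s := by
  have h1 : LSeriesSummable (fun n => (Λ n : ℂ)) s :=
    ArithmeticFunction.LSeriesSummable_vonMangoldt hs
  refine Summable.of_norm_bounded (g := fun n => ‖LSeries.term (fun n => (Λ n : ℂ)) s n‖) h1.norm ?_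
  intro n
  rcases eq_or_ne n 0 with rfl | hn
  · simp [LSeries.term_zero]
  · rw [LSeries.term_of_ne_zero hn, LSeries.term_of_ne_zero hn, norm_div, norm_div, norm_mul]
    apply div_le_div_of_nonneg_right _ (norm_nonneg _)
    exact mul_le_of_le_one_right (norm_nonneg _) (hc n)

theorem pa_analytic (c : ℕ → ℂ) (hc : ∀ n, ‖c n‖ ≤ 1) {s : ℂ} (hs : 1 < s.re) :
    AnalyticAt ℂ (LSeries (fun n => (Λ n : ℂ) * c n)) s := by
  apply LSeries_analyticOnNhd
  have h1 : LSeries.abscissaOfAbsConv (fun n => (Λ n : ℂ) * c n) ≤ (1 : ℝ) := by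
    apply LSeries.abscissaOfAbsConv_le_of_forall_lt_LSeriesSummable
    intro y hy
    apply pa_summable c hc
    simpa using hy
  exact lt_of_le_of_lt h1 (EReal.coe_lt_coe_iff.mpr hs)

theorem pa_iter (ε b s₀ : ℂ) (k : ℕ) :
    iteratedDeriv k (fun s : ℂ => ε / (s - b)) s₀ =
      ε * ((-1) ^ k * (k.factorial : ℂ) * (1 / (s₀ - b)) ^ (k + 1)) := by
  have h1 : (fun s : ℂ => ε / (s - b)) = fun s : ℂ => ε * (1 * s - b)⁻¹ := by
    funext s
    rw [one_mul, div_eq_mul_inv]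
  rw [h1, iteratedDeriv_const_mul_field, iteratedDeriv_eq_iterate, iter_deriv_inv_linear_sub]
  simp only [one_pow, mul_one, one_mul]
  have h2 : (-1 - (k : ℤ)) = -((k + 1 : ℕ) : ℤ) := by
    push_cast
    ring
  rw [h2, zpow_neg, zpow_natCast, one_div, inv_pow]

theorem pa_div (a w : ℂ) (k : ℕ) : (a / w) ^ k = a ^ k * (1 / w) ^ k := by
  rw [← mul_pow, mul_one_div]

/-- Proof: `landau_k` at `s₀ = 1 + 1/64 + iv`, `R = 1/2`, `M = C0 ℓ` (`LDat.growth` with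
`lam = 1/64 ≥ 1/ℓ`), times `(1/64)^(k+1)`: error `2 A (C0 ℓ + 1) 8^k 64^(-k-1) ≤ C ℓ 8^(-k)`. Near
`s₀`, `logDeriv f = -LSeries (Λ c) + ε/(s - b)`, whose `k`-th derivative at `s₀` times
`(1/64)^(k+1)/k!` is `-(-1)^k Pk c k v + (-1)^k ε Mk b k v` (`D0_series` with `lam = 1/64`;
`s₀ - b = 1/64 + 1 - b + iv`). Multiply by `(-1)^(k+1)`. -/
theorem PA_formula (C0 : ℝ) (h0 : 1 ≤ C0) : ∃ C : ℝ, 0 < C ∧ ∀ (ℓ T : ℝ) (f : ℂ → ℂ)
    (c : ℕ → ℂ) (ε b : ℝ), 64 ≤ ℓ → LDat C0 ℓ T f → (∀ n, ‖c n‖ ≤ 1) → b ≤ 1 →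
    (∀ s : ℂ, 1 < s.re → logDeriv f s = -LSeries (fun n => (Λ n : ℂ) * c n) s + ε / (s - b)) →
    ∀ v : ℝ, |v| ≤ T → ∀ k : ℕ,
    ‖Pk c k v - ε * Mk b k v + ∑ ρ ∈ ZD f (1 + (1 / 64 : ℝ) + v * Complex.I) (1 / 4),
      (od f ρ : ℂ) * (((1 / 64 : ℝ) : ℂ) / (1 + (1 / 64 : ℝ) + v * Complex.I - ρ)) ^ (k + 1)‖ ≤
      C * ℓ * (1 / 8) ^ k := by
  obtain ⟨A, hA, H⟩ := landau_k
  refine ⟨A * (C0 + 1), by positivity, ?_⟩
  intro ℓ T f c ε b hℓ hf hc hb hld v hv k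
  have hℓ0 : 0 < ℓ := by linarith
  set a : ℂ := ((1 / 64 : ℝ) : ℂ) with ha
  have hanorm : ‖a‖ = 1 / 64 := by
    rw [ha, Complex.norm_real, Real.norm_eq_abs, abs_of_pos (by norm_num)]
  set s₀ : ℂ := 1 + a + v * Complex.I with hs₀
  have hre : s₀.re = 1 + 1 / 64 := by
    rw [hs₀, ha]
    simp
  have hs₀1 : 1 < s₀.re := by rw [hre]; norm_num
  have hlam : 1 / ℓ ≤ (1 / 64 : ℝ) := one_div_le_one_div_of_le (by norm_num) hℓ
  have hf0 : f s₀ ≠ 0 := by
    intro h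
    have := hf.zre _ h
    linarith
  have hgr := hf.growth (1 / 64) v hlam (by norm_num) hv
  have h1 := H f s₀ (1 / 2) (C0 * ℓ) (by norm_num) (by positivity) hf.diff hf0 hgr k
  have hR : (1 / 2 : ℝ) / 2 = 1 / 4 := by norm_num
  rw [hR] at h1
  -- the derivatives
  have h2 : iteratedDeriv k (logDeriv f) s₀ =
      -iteratedDeriv k (LSeries (fun n => (Λ n : ℂ) * c n)) s₀ +
        ε * ((-1) ^ k * (k.factorial : ℂ) * (1 / (s₀ - b)) ^ (k + 1)) := by
    have hopen : IsOpen {s : ℂ | 1 < s.re} := isOpen_lt continuous_const Complex.continuous_re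
    have hev : logDeriv f =ᶠ[nhds s₀]
        (fun s => -LSeries (fun n => (Λ n : ℂ) * c n) s + ε / (s - b)) := by
      filter_upwards [hopen.mem_nhds hs₀1] with s hs
      exact hld s hs
    rw [(hev.iteratedDeriv k).eq_of_nhds]
    have hc1 : ContDiffAt ℂ k (fun s => -LSeries (fun n => (Λ n : ℂ) * c n) s) s₀ :=
      ((pa_analytic c hc hs₀1).neg).contDiffAt
    have hsb : s₀ - b ≠ 0 := by
      intro h
      have h3 := congrArg Complex.re h
      rw [Complex.sub_re, Complex.ofReal_re, hre, Complex.zero_re] at h3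
      linarith
    have hc2 : ContDiffAt ℂ k (fun s : ℂ => (ε : ℂ) / (s - b)) s₀ := by
      apply AnalyticAt.contDiffAt
      exact analyticAt_const.div (analyticAt_id.sub analyticAt_const) hsb
    rw [iteratedDeriv_fun_add hc1 hc2, iteratedDeriv_fun_neg, pa_iter]
  have h3 := D0_series c (fun n => (hc n).trans (by norm_num)) (1 / 64) (by norm_num) k v
  rw [← ha, ← hs₀] at h3
  have hk : (k.factorial : ℂ) ≠ 0 := Nat.cast_ne_zero.mpr (Nat.factorial_ne_zero k)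
  have hM : Mk b k v = (a / (s₀ - b)) ^ (k + 1) := by
    unfold Mk
    rw [← ha]
    have : ((1 / 64 + 1 - b : ℝ) : ℂ) + v * Complex.I = s₀ - b := by
      rw [hs₀, ha]
      push_cast
      ring
    rw [this]
  have hP : a ^ (k + 1) * (iteratedDeriv k (LSeries (fun n => (Λ n : ℂ) * c n)) s₀ /
      (k.factorial : ℂ)) = (-1) ^ k * Pk c k v := h3
  have h4 : a ^ (k + 1) * (iteratedDeriv k (logDeriv f) s₀ / (k.factorial : ℂ)) =
      -((-1) ^ k * Pk c k v) + (-1) ^ k * (ε * Mk b k v) := by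
    rw [h2, hM, ← hP, pa_div a (s₀ - b)]
    generalize (1 / (s₀ - (b : ℂ))) ^ (k + 1) = X
    field_simp
  have hsq : ((-1 : ℂ) ^ k) * (-1) ^ k = 1 := by
    rw [← mul_pow]
    norm_num
  have h5 : Pk c k v - ε * Mk b k v + ∑ ρ ∈ ZD f s₀ (1 / 4),
      (od f ρ : ℂ) * (a / (s₀ - ρ)) ^ (k + 1) =
      -((-1) ^ k * (a ^ (k + 1) * (iteratedDeriv k (logDeriv f) s₀ / (k.factorial : ℂ) -
        (-1) ^ k * ∑ ρ ∈ ZD f s₀ (1 / 4), (od f ρ : ℂ) * (1 / (s₀ - ρ)) ^ (k + 1)))) := by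
    rw [mul_sub, h4]
    have h6 : a ^ (k + 1) * ((-1) ^ k * ∑ ρ ∈ ZD f s₀ (1 / 4),
        (od f ρ : ℂ) * (1 / (s₀ - ρ)) ^ (k + 1)) =
        (-1) ^ k * ∑ ρ ∈ ZD f s₀ (1 / 4), (od f ρ : ℂ) * (a / (s₀ - ρ)) ^ (k + 1) := by
      rw [mul_left_comm, mul_sum]
      congr 1
      apply sum_congr rfl
      intro ρ _
      rw [pa_div a (s₀ - ρ)]
      ring
    rw [h6]
    linear_combination (-(Pk c k v) + ε * Mk b k v - ∑ ρ ∈ ZD f s₀ (1 / 4),
      (od f ρ : ℂ) * (a / (s₀ - ρ)) ^ (k + 1)) * hsq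
  rw [h5, norm_neg, norm_mul, norm_pow, norm_neg, norm_one, one_pow, one_mul, norm_mul, norm_pow,
    hanorm]
  have h7 : (1 / 64 : ℝ) ^ (k + 1) * (A * (C0 * ℓ + 1) / (1 / 2) * (4 / (1 / 2)) ^ k) =
      A * (C0 * ℓ + 1) / 32 * (1 / 8) ^ k := by
    rw [pow_succ]
    have : (1 / 64 : ℝ) ^ k * (4 / (1 / 2)) ^ k = (1 / 8) ^ k := by
      rw [← mul_pow]
      norm_num
    linear_combination (A * (C0 * ℓ + 1) / (1 / 2) / 64) * this
  calc (1 / 64 : ℝ) ^ (k + 1) * _ ≤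
        (1 / 64 : ℝ) ^ (k + 1) * (A * (C0 * ℓ + 1) / (1 / 2) * (4 / (1 / 2)) ^ k) :=
        mul_le_mul_of_nonneg_left h1 (by positivity)
    _ = A * (C0 * ℓ + 1) / 32 * (1 / 8) ^ k := h7
    _ ≤ A * (C0 + 1) * ℓ * (1 / 8) ^ k := by
        apply mul_le_mul_of_nonneg_right _ (by positivity)
        rw [div_le_iff₀ (by norm_num)]
        nlinarith [mul_pos hA hℓ0, mul_nonneg hA.le (by linarith : (0 : ℝ) ≤ ℓ - 1),
          mul_pos (mul_pos hA hℓ0) (by linarith : (0 : ℝ) < C0)]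

theorem pa_term_le (c : ℕ → ℂ) (hc : ∀ n, ‖c n‖ ≤ 1) (k : ℕ) (v : ℝ) (n : ℕ) :
    ‖((Λ n * Jk (1 / 64) k n : ℝ) : ℂ) * c n * (n : ℂ) ^ (-(v * Complex.I))‖ ≤
      Λ n * Jk (1 / 64) k n := by
  have h0 : 0 ≤ Λ n * Jk (1 / 64) k n :=
    mul_nonneg ArithmeticFunction.vonMangoldt_nonneg (Jk_nonneg _ k n (by norm_num))
  rcases eq_or_ne n 0 with rfl | hn
  · simp
  · have h1 : ‖(n : ℂ) ^ (-(v * Complex.I))‖ = 1 := by
      rw [Complex.norm_natCast_cpow_of_pos (Nat.pos_of_ne_zero hn)]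
      simp
    rw [norm_mul, norm_mul, h1, mul_one, Complex.norm_real, Real.norm_eq_abs, abs_of_nonneg h0]
    exact mul_le_of_le_one_right h0 (hc n)

/-- Bounds and continuity: `|Pk| ≤ C` (`Jk_sum`, `Jk_summable`), `|Mk| ≤ 1` for `b ≤ 1`, both
continuous in `v`. -/
theorem PA_bounds : ∃ C : ℝ, 1 ≤ C ∧ ∀ (c : ℕ → ℂ), (∀ n, ‖c n‖ ≤ 1) → ∀ (k : ℕ) (v : ℝ),
    ‖Pk c k v‖ ≤ C := by
  obtain ⟨C, hC, h⟩ := Jk_sum
  refine ⟨max C 1, le_max_right _ _, ?_⟩
  intro c hc k v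
  have hs := Jk_summable (1 / 64) k (by norm_num) (by norm_num)
  unfold Pk
  refine (tsum_of_norm_bounded hs.hasSum (pa_term_le c hc k v)).trans ?_
  refine le_trans ?_ (le_max_left _ _)
  exact hs.tsum_le_of_sum_le fun s => h (1 / 64) k s (by norm_num) (by norm_num)

theorem Pk_continuous (c : ℕ → ℂ) (hc : ∀ n, ‖c n‖ ≤ 1) (k : ℕ) : Continuous (Pk c k) := by
  have hs := Jk_summable (1 / 64) k (by norm_num) (by norm_num)
  unfold Pk
  refine continuous_tsum ?_ hs fun n v => pa_term_le c hc k v n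
  intro n
  rcases eq_or_ne n 0 with rfl | hn
  · have : (fun v : ℝ => ((Λ 0 * Jk (1 / 64) k 0 : ℝ) : ℂ) * c 0 *
        ((0 : ℕ) : ℂ) ^ (-(v * Complex.I))) = fun _ => 0 := by
      funext v
      simp
    rw [this]
    exact continuous_const
  · apply continuous_const.mul
    have hn0 : (n : ℂ) ≠ 0 := Nat.cast_ne_zero.mpr hn
    exact Continuous.const_cpow (by fun_prop) (Or.inl hn0)

theorem pa_re (b v : ℝ) : (((1 / 64 + 1 - b : ℝ) : ℂ) + v * Complex.I).re = 1 / 64 + 1 - b := by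
  simp

theorem Mk_norm (b : ℝ) (hb : b ≤ 1) (k : ℕ) (v : ℝ) : ‖Mk b k v‖ ≤ 1 := by
  unfold Mk
  rw [norm_pow]
  apply pow_le_one₀ (norm_nonneg _)
  rw [norm_div]
  have h1 : ‖((1 / 64 : ℝ) : ℂ)‖ = 1 / 64 := by
    rw [Complex.norm_real, Real.norm_eq_abs, abs_of_pos (by norm_num)]
  have h2 : (1 / 64 : ℝ) ≤ ‖((1 / 64 + 1 - b : ℝ) : ℂ) + v * Complex.I‖ := by
    have h3 := Complex.re_le_norm (((1 / 64 + 1 - b : ℝ) : ℂ) + v * Complex.I)
    rw [pa_re] at h3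
    linarith
  rw [h1]
  exact div_le_one_of_le₀ h2 (norm_nonneg _)

theorem Mk_continuous (b : ℝ) (hb : b ≤ 1) (k : ℕ) : Continuous (Mk b k) := by
  unfold Mk
  apply Continuous.pow
  apply Continuous.div continuous_const (by fun_prop)
  intro v h
  have h1 := congrArg Complex.re h
  rw [pa_re, Complex.zero_re] at h1
  linarith

end Pool.Agent.Lib.H18Q
end

-- from Lib.H18Q.PB3
section

/-!
# Project H18Q, chunk PB3: the bump as a superposition of Gamma densities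
-/

open Finset MeasureTheory

namespace Pool.Agent.Lib.H18Q

open ArithmeticFunction Pool.Agent.Lib.H68T

/-- Proof: `fourier_inv3` for the functions of `PB2_quot` (`b - a = 6`). -/
theorem PB3_repr : ∃ C K : ℝ, 1 ≤ C ∧ ∀ X : ℕ, K ≤ X → ∃ kh : ℝ → ℂ, Continuous kh ∧
    (∀ ξ, ‖kh ξ‖ ≤ C * Real.sqrt (Real.log X) / (1 + |ξ|) ^ 3) ∧
    ∀ u : ℝ, 0 < u → (w (u - Real.log X) : ℂ) =
      (Wd (kX X) u : ℂ) * ∫ ξ : ℝ, kh ξ * Complex.exp (u * ξ * Complex.I) := by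
  obtain ⟨C, K, hC, h⟩ := PB2_quot
  refine ⟨max 1 (12 * C), K, le_max_left _ _, ?_⟩
  intro X hX
  obtain ⟨f, f1, f2, f3, h0, h1, h2, hc, hz, hb, hw⟩ := h X hX
  obtain ⟨g, hgc, hgb, hgf⟩ := fourier_inv3 f f1 f2 f3 (Real.log X - 2) (Real.log X + 4)
    (C * Real.sqrt (Real.log X)) (by linarith) (by positivity) h0 h1 h2 hc
    (fun y hy => (hz y hy).1) (fun y hy => (hz y hy).2.1) (fun y hy => (hz y hy).2.2.1)
    (fun y hy => (hz y hy).2.2.2) (fun y => (hb y).1) (fun y => (hb y).2)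
  refine ⟨g, hgc, ?_, ?_⟩
  · intro ξ
    refine (hgb ξ).trans ?_
    apply div_le_div_of_nonneg_right _ (by positivity)
    have h3 : 12 * C ≤ max 1 (12 * C) := le_max_right _ _
    have h4 := mul_le_mul_of_nonneg_right h3 (Real.sqrt_nonneg (Real.log X))
    linarith
  · intro u hu
    rw [← hgf u, hw u hu]
    push_cast
    ring

/-- Integrability of the Gamma densities. -/
theorem pb3_intOn (k : ℕ) (b : ℝ) (hb : 0 < b) :
    IntegrableOn (fun u : ℝ => u ^ k * Real.exp (-(b * u))) (Set.Ioi 0) := by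
  have h := integrableOn_rpow_mul_exp_neg_mul_rpow (p := 1) (s := (k : ℝ)) (b := b)
    (by have : (0 : ℝ) ≤ k := Nat.cast_nonneg k
        linarith) one_pos hb
  refine h.congr_fun ?_ measurableSet_Ioi
  intro x _
  simp only [Real.rpow_natCast, Real.rpow_one, neg_mul]

theorem pb3_norm (k : ℕ) (z : ℂ) (u : ℝ) (hu : 0 ≤ u) :
    ‖(u : ℂ) ^ k * Complex.exp (-(z * u))‖ = u ^ k * Real.exp (-(z.re * u)) := by
  rw [norm_mul, norm_pow, Complex.norm_real, Real.norm_of_nonneg hu, Complex.norm_exp]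
  congr 2
  simp

theorem pb3_intOnC (k : ℕ) (z : ℂ) (hz : 0 < z.re) :
    IntegrableOn (fun u : ℝ => (u : ℂ) ^ k * Complex.exp (-(z * u))) (Set.Ioi 0) := by
  refine Integrable.mono' (pb3_intOn k z.re hz) ?_ ?_
  · apply Continuous.aestronglyMeasurable
    fun_prop
  · refine (ae_restrict_iff' measurableSet_Ioi).mpr (Filter.Eventually.of_forall ?_)
    intro u hu
    rw [pb3_norm k z u (le_of_lt hu)]

/-- The Gamma integral with complex parameter. -/
theorem pb3_gamma (k : ℕ) (z : ℂ) (hz : 0 < z.re) :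
    ∫ u in Set.Ioi (0 : ℝ), (u : ℂ) ^ k * Complex.exp (-(z * u)) =
      (k.factorial : ℂ) / z ^ (k + 1) := by
  have hz0 : z ≠ 0 := by
    intro h
    rw [h] at hz
    simp at hz
  have htend : ∀ k : ℕ, Filter.Tendsto (fun u : ℝ => (u : ℂ) ^ k * Complex.exp (-(z * u)))
      Filter.atTop (nhds 0) := by
    intro k
    rw [tendsto_zero_iff_norm_tendsto_zero]
    have h1 : Filter.Tendsto (fun u : ℝ => u ^ k * Real.exp (-(z.re * u)))
        Filter.atTop (nhds 0) := by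
      have := tendsto_rpow_mul_exp_neg_mul_atTop_nhds_zero (k : ℝ) z.re hz
      simpa [Real.rpow_natCast, neg_mul] using this
    refine h1.congr' ?_
    filter_upwards [Filter.eventually_ge_atTop 0] with u hu
    rw [pb3_norm k z u hu]
  induction k with
  | zero =>
    have h1 := integral_Ioi_of_hasDerivAt_of_tendsto' (a := (0 : ℝ))
      (f := fun u : ℝ => -(Complex.exp (-(z * u)) / z))
      (f' := fun u : ℝ => (u : ℂ) ^ 0 * Complex.exp (-(z * u))) (m := 0)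
      (fun u _ => by
        have h2 : HasDerivAt (fun u : ℝ => -(z * (u : ℂ))) (-(z * 1)) u :=
          ((Complex.ofRealCLM.hasDerivAt (x := u)).const_mul z).neg
        have h3 := ((h2.cexp).div_const z).neg
        convert! h3 using 1
        field_simp) (pb3_intOnC 0 z hz) (by
        have := ((htend 0).div_const z).neg
        simpa using this)
    rw [h1]
    simp
  | succ k ih =>
    have h1 := integral_Ioi_of_hasDerivAt_of_tendsto' (a := (0 : ℝ))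
      (f := fun u : ℝ => -((u : ℂ) ^ (k + 1) * Complex.exp (-(z * u)) / z))
      (f' := fun u : ℝ => (u : ℂ) ^ (k + 1) * Complex.exp (-(z * u)) -
        ((k : ℂ) + 1) / z * ((u : ℂ) ^ k * Complex.exp (-(z * u)))) (m := 0)
      (fun u _ => by
        have h0 : HasDerivAt (fun u : ℝ => (u : ℂ)) 1 u := Complex.ofRealCLM.hasDerivAt (x := u)
        have h2 : HasDerivAt (fun u : ℝ => -(z * (u : ℂ))) (-(z * 1)) u :=
          (h0.const_mul z).neg
        have h4 := h0.pow (k + 1)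
        have h3 := ((h4.mul h2.cexp).div_const z).neg
        convert! h3 using 1
        field_simp
        push_cast
        simp
        ring) ((pb3_intOnC (k + 1) z hz).sub ((pb3_intOnC k z hz).const_mul _)) (by
        have := ((htend (k + 1)).div_const z).neg
        simpa using this)
    rw [integral_sub (pb3_intOnC (k + 1) z hz) ((pb3_intOnC k z hz).const_mul _),
      integral_const_mul, ih] at h1
    have h5 : ∫ u in Set.Ioi (0 : ℝ), (u : ℂ) ^ (k + 1) * Complex.exp (-(z * u)) =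
        ((k : ℂ) + 1) / z * ((k.factorial : ℂ) / z ^ (k + 1)) := by
      have h6 : (0 : ℂ) - -(((0 : ℝ) : ℂ) ^ (k + 1) * Complex.exp (-(z * ((0 : ℝ) : ℂ))) / z) = 0 := by
        simp
      rw [h6] at h1
      linear_combination h1
    rw [h5, Nat.factorial_succ]
    push_cast
    field_simp
    ring

/-- Integrability of `kh`. -/
theorem pb3_kh_int (kh : ℝ → ℂ) (B : ℝ) (hkc : Continuous kh)
    (hkb : ∀ ξ, ‖kh ξ‖ ≤ B / (1 + |ξ|) ^ 3) : Integrable kh := by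
  have hB : 0 ≤ B := by
    have := (norm_nonneg _).trans (hkb 0)
    simpa using this
  have h1 : Integrable (fun ξ : ℝ => B * (1 + ξ ^ 2)⁻¹) := integrable_inv_one_add_sq.const_mul B
  refine Integrable.mono' h1 hkc.aestronglyMeasurable ?_
  refine Filter.Eventually.of_forall ?_
  intro ξ
  refine (hkb ξ).trans ?_
  rw [div_eq_mul_inv]
  apply mul_le_mul_of_nonneg_left _ hB
  apply inv_anti₀ (by positivity)
  have h2 : 0 ≤ |ξ| := abs_nonneg ξ
  have h3 : ξ ^ 2 = |ξ| ^ 2 := (sq_abs ξ).symm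
  rw [h3]
  nlinarith [pow_nonneg h2 3, pow_nonneg h2 2]

theorem pb3_Jk_eq (k n : ℕ) (hn : 1 ≤ n) : Jk (1 / 64) k n = Wd k (Real.log n) / n := by
  have hn0 : (0 : ℝ) < n := by exact_mod_cast hn
  unfold Jk Wd
  have h1 : (n : ℝ) ^ (-1 - 1 / 64 : ℝ) = Real.exp (-(Real.log n / 64)) / n := by
    rw [Real.rpow_sub hn0, Real.rpow_neg_one, Real.rpow_def_of_pos hn0, Real.exp_neg]
    rw [show Real.log n * (1 / 64) = Real.log n / 64 by ring]
    field_simp
  rw [h1]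
  ring


theorem pb3_v_zero (X m : ℕ) (hX : 1 ≤ X) (hm : 60 * X < m) : v X m = 0 := by
  unfold v w
  have hX0 : (0 : ℝ) < X := by exact_mod_cast hX
  have h60 : (60 : ℝ) ≤ (m : ℝ) / X := by
    rw [le_div_iff₀ hX0]
    exact_mod_cast hm.le
  have h4 : (4 : ℝ) ≤ Real.log ((m : ℝ) / X) := by
    rw [Real.le_log_iff_exp_le (by linarith)]
    refine le_trans ?_ h60
    have h1 : Real.exp 4 = Real.exp 1 ^ 4 := by
      rw [← Real.exp_nat_mul]
      norm_num
    rw [h1]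
    have h2 := Real.exp_one_lt_d9
    have h3 := Real.exp_pos 1
    calc Real.exp 1 ^ 4 ≤ 2.7182818286 ^ 4 := by gcongr
      _ ≤ 60 := by norm_num
  have h5 : Real.smoothTransition (4 - Real.log ((m : ℝ) / X)) = 0 :=
    Real.smoothTransition.zero_of_nonpos (by linarith)
  rw [h5, mul_zero]

/-- `FL(t) = ∫ kh(ξ) Pk(t - ξ) dξ`.

Proof. `Jk (1/64) k n = Wd k (log n)/n` for `n ≥ 1`. Interchange sum and integral (`∑ Λ Jk < ∞`,
`kh` integrable by the bound): for `n ≥ 2` (`Λ 0 = Λ 1 = 0`),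
`∫ kh(ξ) n^(-i(t-ξ)) dξ = n^(-it) ∫ kh(ξ) e^(i ξ log n) dξ`, and times `Wd k (log n)` this is
`n^(-it) w(log n - log X)`. `FL` has the terms `1 ≤ m ≤ 60 X`, `v X m = w(log (m/X))`, and
`w = 0` for `m > 60 X` (`log 60 > 4`). -/
theorem PB3_FL (X : ℕ) (hX : 1 ≤ X) (kh : ℝ → ℂ) (B : ℝ) (hkc : Continuous kh)
    (hkb : ∀ ξ, ‖kh ξ‖ ≤ B / (1 + |ξ|) ^ 3)
    (hk : ∀ u : ℝ, 0 < u → (w (u - Real.log X) : ℂ) =
      (Wd (kX X) u : ℂ) * ∫ ξ : ℝ, kh ξ * Complex.exp (u * ξ * Complex.I))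
    (p : Σ r : ℕ, DirichletCharacter ℂ r) (t : ℝ) :
    FL X p t = ∫ ξ : ℝ, kh ξ * Pk (fun n => p.2 (n : ZMod p.1)) (kX X) (t - ξ) := by
  have hint := pb3_kh_int kh B hkc hkb
  have hX0 : (0 : ℝ) < X := by exact_mod_cast hX
  set k := kX X with hkdef
  set F : ℕ → ℝ → ℂ := fun n ξ => kh ξ *
    (((ArithmeticFunction.vonMangoldt n * Jk (1 / 64) k n : ℝ) : ℂ) * p.2 (n : ZMod p.1) *
      (n : ℂ) ^ (-(((t - ξ : ℝ) : ℂ) * Complex.I))) with hF
  -- the exponential form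
  have hexp : ∀ n : ℕ, 1 ≤ n → ∀ ξ : ℝ, (n : ℂ) ^ (-(((t - ξ : ℝ) : ℂ) * Complex.I)) =
      (n : ℂ) ^ (-((t : ℂ) * Complex.I)) *
        Complex.exp ((Real.log n : ℝ) * ξ * Complex.I) := by
    intro n hn ξ
    have hn0 : (n : ℂ) ≠ 0 := by
      have : n ≠ 0 := by omega
      exact_mod_cast this
    rw [show (-(((t - ξ : ℝ) : ℂ) * Complex.I)) = -((t : ℂ) * Complex.I) + (ξ : ℂ) * Complex.I by
      push_cast; ring, Complex.cpow_add _ _ hn0]
    congr 1
    rw [Complex.cpow_def_of_ne_zero hn0, Complex.natCast_log]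
    congr 1
    ring
  have hnF : ∀ n : ℕ, ∀ ξ : ℝ, ‖F n ξ‖ ≤ (ArithmeticFunction.vonMangoldt n * Jk (1 / 64) k n) *
      ‖kh ξ‖ := by
    intro n ξ
    have hJ : 0 ≤ ArithmeticFunction.vonMangoldt n * Jk (1 / 64) k n :=
      mul_nonneg ArithmeticFunction.vonMangoldt_nonneg (Jk_nonneg _ _ _ (by norm_num))
    rw [hF]
    simp only [norm_mul]
    rw [Complex.norm_real, Real.norm_of_nonneg hJ, mul_comm (‖kh ξ‖)]
    apply mul_le_mul_of_nonneg_right _ (norm_nonneg _)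
    rcases Nat.eq_zero_or_pos n with h0 | hn
    · subst h0
      simp
    · have h1 : ‖(n : ℂ) ^ (-(((t - ξ : ℝ) : ℂ) * Complex.I))‖ = 1 := by
        rw [Complex.norm_natCast_cpow_of_pos hn]
        simp
      rw [h1, mul_one]
      calc _ ≤ (ArithmeticFunction.vonMangoldt n * Jk (1 / 64) k n) * 1 :=
            mul_le_mul_of_nonneg_left (p.2.norm_le_one _) hJ
        _ = _ := mul_one _
  have hcF : ∀ n : ℕ, Continuous (F n) := by
    intro n
    rcases Nat.eq_zero_or_pos n with h0 | hn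
    · subst h0
      have : F 0 = fun _ => 0 := by
        funext ξ
        rw [hF]
        simp
      rw [this]
      exact continuous_const
    · have : F n = fun ξ => kh ξ *
        (((ArithmeticFunction.vonMangoldt n * Jk (1 / 64) k n : ℝ) : ℂ) * p.2 (n : ZMod p.1) *
        ((n : ℂ) ^ (-((t : ℂ) * Complex.I)) *
        Complex.exp ((Real.log n : ℝ) * ξ * Complex.I))) := by
        funext ξ
        rw [hF]
        simp only
        rw [hexp n hn ξ]
      rw [this]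
      fun_prop
  have hiF : ∀ n : ℕ, Integrable (F n) := by
    intro n
    refine Integrable.mono' (hint.norm.const_mul
      (ArithmeticFunction.vonMangoldt n * Jk (1 / 64) k n)) (hcF n).aestronglyMeasurable ?_
    exact Filter.Eventually.of_forall fun ξ => hnF n ξ
  have hsF : Summable fun n : ℕ => ∫ ξ, ‖F n ξ‖ := by
    have hs := (Jk_summable (1 / 64) k (by norm_num) (by norm_num)).mul_right (∫ ξ, ‖kh ξ‖)
    refine Summable.of_nonneg_of_le (fun n => integral_nonneg fun ξ => norm_nonneg _) ?_ hs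
    intro n
    rw [← integral_const_mul]
    exact integral_mono (hiF n).norm (hint.norm.const_mul _) (fun ξ => hnF n ξ)
  have hsw := integral_tsum_of_summable_integral_norm hiF hsF
  have hrhs : (∫ ξ : ℝ, kh ξ * Pk (fun n => p.2 (n : ZMod p.1)) k (t - ξ)) =
      ∫ ξ : ℝ, ∑' n : ℕ, F n ξ := by
    apply integral_congr_ae
    refine Filter.Eventually.of_forall ?_
    intro ξ
    simp only [hF, Pk]
    rw [tsum_mul_left]
  rw [hrhs, ← hsw]
  have hterm : ∀ n : ℕ, 1 ≤ n → ∫ ξ, F n ξ =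
      ((ArithmeticFunction.vonMangoldt n : ℂ) * p.2 (n : ZMod p.1)) * (v X n : ℂ) *
        (n : ℂ) ^ (-(1 + t * Complex.I)) := by
    intro n hn
    have hn0 : (n : ℂ) ≠ 0 := by
      have : n ≠ 0 := by omega
      exact_mod_cast this
    have hnr : (0 : ℝ) < n := by exact_mod_cast hn
    rcases Nat.lt_or_ge 1 n with h2 | h2
    · have hlog : 0 < Real.log n := Real.log_pos (by exact_mod_cast h2)
      have h3 : ∫ ξ, F n ξ = (((ArithmeticFunction.vonMangoldt n * Jk (1 / 64) k n : ℝ) : ℂ) *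
          p.2 (n : ZMod p.1) * (n : ℂ) ^ (-((t : ℂ) * Complex.I))) *
          ∫ ξ : ℝ, kh ξ * Complex.exp ((Real.log n : ℝ) * ξ * Complex.I) := by
        rw [← integral_const_mul]
        apply integral_congr_ae
        refine Filter.Eventually.of_forall ?_
        intro ξ
        simp only [hF]
        rw [hexp n hn ξ]
        ring
      have h4 := hk (Real.log n) hlog
      have h5 : (v X n : ℂ) = (w (Real.log n - Real.log X) : ℂ) := by
        unfold v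
        rw [Real.log_div hnr.ne' hX0.ne']
      rw [h3, h5, h4, pb3_Jk_eq k n hn]
      have h6 : (n : ℂ) ^ (-(1 + (t : ℂ) * Complex.I)) =
          (n : ℂ)⁻¹ * (n : ℂ) ^ (-((t : ℂ) * Complex.I)) := by
        rw [show (-(1 + (t : ℂ) * Complex.I)) = -1 + -((t : ℂ) * Complex.I) by ring,
          Complex.cpow_add _ _ hn0, Complex.cpow_neg_one]
      rw [h6]
      push_cast
      ring
    · have h1 : n = 1 := by omega
      subst h1
      have : ∀ ξ, F 1 ξ = 0 := by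
        intro ξ
        simp [hF]
      simp [this]
  have hterm0 : ∫ ξ, F 0 ξ = 0 := by
    have : ∀ ξ, F 0 ξ = 0 := by
      intro ξ
      simp [hF]
    simp [this]
  rw [tsum_eq_sum (s := Icc 1 (60 * X))]
  · unfold FL FF
    apply Finset.sum_congr rfl
    intro n hn
    rw [hterm n (Finset.mem_Icc.mp hn).1]
  · intro n hn
    rcases Nat.eq_zero_or_pos n with h0 | hn1
    · subst h0
      exact hterm0
    · have h2 : 60 * X < n := by
        by_contra h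
        exact hn (Finset.mem_Icc.mpr ⟨hn1, by omega⟩)
      rw [hterm n hn1, pb3_v_zero X n hX h2]
      simp

/-- The Gamma integral for `Mk`. -/
theorem pb3_Mk (b : ℝ) (hb : b ≤ 1) (k : ℕ) (v : ℝ) :
    Mk b k v = ∫ u in Set.Ioi (0 : ℝ), (Wd k u : ℂ) *
      Complex.exp (-(((1 - b : ℝ) + v * Complex.I) * u)) := by
  have hz : 0 < ((1 / 64 + 1 - b : ℝ) + v * Complex.I : ℂ).re := by
    simp
    linarith
  have h1 := pb3_gamma k _ hz
  have h2 : (∫ u in Set.Ioi (0 : ℝ), (Wd k u : ℂ) *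
      Complex.exp (-(((1 - b : ℝ) + v * Complex.I) * u))) =
      ((1 / 64 : ℂ) ^ (k + 1) / (k.factorial : ℂ)) * ∫ u in Set.Ioi (0 : ℝ), (u : ℂ) ^ k *
        Complex.exp (-(((1 / 64 + 1 - b : ℝ) + v * Complex.I : ℂ) * u)) := by
    rw [← integral_const_mul]
    apply integral_congr_ae
    refine Filter.Eventually.of_forall ?_
    intro u
    simp only [Wd]
    push_cast
    rw [show (-((1 / 64 + 1 - (b : ℂ) + v * Complex.I) * u)) =
      -((u : ℂ) / 64) + -((1 - (b : ℂ) + v * Complex.I) * u) by ring, Complex.exp_add]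
    ring
  rw [h2, h1]
  unfold Mk
  have hk : (k.factorial : ℂ) ≠ 0 := by exact_mod_cast k.factorial_ne_zero
  have hz0 : ((1 / 64 + 1 - b : ℝ) + v * Complex.I : ℂ) ≠ 0 := by
    intro h
    rw [h] at hz
    simp at hz
  rw [div_pow]
  push_cast
  push_cast at hz0
  field_simp

/-- `Mb(t) = ∫ kh(ξ) Mk(t - ξ) dξ` for `b ≤ 1`.

Proof. `Mk b k v = ∫_0^∞ Wd k u e^(-(1-b+iv) u) du` (Gamma integral,
`Complex.integral_cpow_mul_exp_neg_mul_Ioi` with exponent `k + 1`, `Γ(k+1) = k!`). Fubini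
(`|Wd k u e^(..)| ≤ Wd k u`, `∫ Wd = 1`, `kh` integrable), and
`Wd k u ∫ kh(ξ) e^(iξu) dξ = w(u - log X)` for `u > 0`; for `u ≤ 0` the integrand of `Mb` vanishes
(`log X ≥ 2`: `hX`). -/
theorem PB3_Mb (X : ℕ) (hX : 8 ≤ X) (kh : ℝ → ℂ) (B : ℝ) (hkc : Continuous kh)
    (hkb : ∀ ξ, ‖kh ξ‖ ≤ B / (1 + |ξ|) ^ 3)
    (hk : ∀ u : ℝ, 0 < u → (w (u - Real.log X) : ℂ) =
      (Wd (kX X) u : ℂ) * ∫ ξ : ℝ, kh ξ * Complex.exp (u * ξ * Complex.I))
    (b : ℝ) (hb : b ≤ 1) (t : ℝ) :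
    Mb X b t = ∫ ξ : ℝ, kh ξ * Mk b (kX X) (t - ξ) := by
  have hint := pb3_kh_int kh B hkc hkb
  set k := kX X with hkdef
  have hlogX : 2 < Real.log X := by
    rw [Real.lt_log_iff_exp_lt (by positivity)]
    have h1 : Real.exp 2 = Real.exp 1 ^ 2 := by
      rw [← Real.exp_nat_mul]
      norm_num
    rw [h1]
    have h2 := Real.exp_one_lt_d9
    have h3 := Real.exp_pos 1
    have h4 : (8 : ℝ) ≤ X := by exact_mod_cast hX
    calc Real.exp 1 ^ 2 ≤ 2.7182818286 ^ 2 := by gcongr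
      _ < 8 := by norm_num
      _ ≤ X := h4
  -- the left side is an integral over the positive half line
  have hL : Mb X b t = ∫ u in Set.Ioi (0 : ℝ), (w (u - Real.log X) : ℂ) *
      Complex.exp (-((1 - b : ℝ) + t * Complex.I) * u) := by
    unfold Mb
    symm
    apply setIntegral_eq_integral_of_forall_compl_eq_zero
    intro u hu
    have hu' : u ≤ 0 := by simpa using hu
    have h0 : w (u - Real.log X) = 0 := by
      unfold w
      rw [Real.smoothTransition.zero_of_nonpos (by linarith : u - Real.log X + 2 ≤ 0), zero_mul]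
    rw [h0]
    simp
  rw [hL]
  set G : ℝ → ℝ → ℂ := fun u ξ => ((Wd k u : ℂ) *
      Complex.exp (-(((1 - b : ℝ) + t * Complex.I) * u))) * kh ξ *
      Complex.exp (u * ξ * Complex.I) with hG
  have h1 : (∫ u in Set.Ioi (0 : ℝ), (w (u - Real.log X) : ℂ) *
      Complex.exp (-((1 - b : ℝ) + t * Complex.I) * u)) =
      ∫ u in Set.Ioi (0 : ℝ), ∫ ξ : ℝ, G u ξ := by
    apply setIntegral_congr_fun measurableSet_Ioi
    intro u hu
    simp only [hG]
    rw [hk u hu]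
    have : (fun ξ : ℝ => ((Wd k u : ℂ) *
      Complex.exp (-(((1 - b : ℝ) + t * Complex.I) * u))) * kh ξ *
      Complex.exp (u * ξ * Complex.I)) = fun ξ : ℝ => ((Wd k u : ℂ) *
      Complex.exp (-(((1 - b : ℝ) + t * Complex.I) * u))) * (kh ξ *
      Complex.exp (u * ξ * Complex.I)) := by
      funext ξ
      ring
    rw [this, integral_const_mul, neg_mul]
    ring
  rw [h1]
  have hWint : Integrable (fun u : ℝ => (Wd k u : ℂ) *
      Complex.exp (-(((1 - b : ℝ) + t * Complex.I) * u))) (volume.restrict (Set.Ioi 0)) := by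
    have hz : 0 < ((1 / 64 + 1 - b : ℝ) + t * Complex.I : ℂ).re := by
      simp
      linarith
    have h2 := (pb3_intOnC k _ hz).const_mul ((1 / 64 : ℂ) ^ (k + 1) / (k.factorial : ℂ))
    refine h2.congr (Filter.Eventually.of_forall ?_)
    intro u
    simp only [Wd]
    push_cast
    rw [show (-((1 / 64 + 1 - (b : ℂ) + t * Complex.I) * u)) =
      -((u : ℂ) / 64) + -((1 - (b : ℂ) + t * Complex.I) * u) by ring, Complex.exp_add]
    ring
  have hGint : Integrable (Function.uncurry G) ((volume.restrict (Set.Ioi 0)).prod volume) := by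
    have h3 := hWint.mul_prod hint
    refine Integrable.mono h3 ?_ ?_
    · have h4 : AEStronglyMeasurable (fun z : ℝ × ℝ => Complex.exp (z.1 * z.2 * Complex.I))
          ((volume.restrict (Set.Ioi 0)).prod volume) := by
        apply Continuous.aestronglyMeasurable
        fun_prop
      exact h3.1.mul h4
    · refine Filter.Eventually.of_forall ?_
      intro z
      simp only [hG, Function.uncurry]
      rw [norm_mul _ (Complex.exp (z.1 * z.2 * Complex.I))]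
      have h5 : ‖Complex.exp ((z.1 : ℂ) * z.2 * Complex.I)‖ = 1 := by
        rw [← Complex.ofReal_mul]
        exact Complex.norm_exp_ofReal_mul_I _
      rw [h5, mul_one]
  rw [integral_integral_swap hGint]
  apply integral_congr_ae
  refine Filter.Eventually.of_forall ?_
  intro ξ
  simp only
  rw [pb3_Mk b hb, ← integral_const_mul]
  apply setIntegral_congr_fun measurableSet_Ioi
  intro u _
  simp only [hG]
  rw [show (-(((1 - b : ℝ) + ((t - ξ : ℝ) : ℂ) * Complex.I) * (u : ℂ))) =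
    -(((1 - b : ℝ) + (t : ℂ) * Complex.I) * u) + (u * ξ * Complex.I) by push_cast; ring,
    Complex.exp_add]
  ring

end Pool.Agent.Lib.H18Q
end

-- from Lib.H18Q.PG2
section

/-!
# Project H18Q, chunk PG2: L1 norms for a family
-/

open Finset

namespace Pool.Agent.Lib.H18Q

open ArithmeticFunction Pool.Agent.Lib.H68T

theorem pg2_ratio_cont (ρ : ℂ) (hρ : ρ.re ≤ 1) (k : ℕ) : Continuous fun v : ℝ =>
    ‖((1 / 64 : ℝ) : ℂ) / (1 + (1 / 64 : ℝ) + v * Complex.I - ρ)‖ ^ (k + 1) := by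
  refine Continuous.pow (Continuous.norm ?_) _
  refine Continuous.div continuous_const (by fun_prop) fun v h => ?_
  have := congrArg Complex.re h
  simp at this
  linarith

/-- The mean of `Pk - ε Mk` over `|v| ≤ Q^8 - 1` for one member of the family.

Proof: `PA_formula` (`ℓ = log Q`, `T = Q^10`), `PC1_point`, and `PC1_one` for each zero of
`ZR f (7/8) (Q^8)` (`Re ρ ≤ 1`, `mem_ZR`); the errors `C log Q (1/8)^k`, `C log Q (1/9)^k` over a
range of length `≤ 2 Q^8`. -/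
theorem PG2_one (C0 : ℝ) (h0 : 1 ≤ C0) : ∃ C : ℝ, 1 ≤ C ∧ ∀ (Q : ℕ) (f : ℂ → ℂ)
    (c : ℕ → ℂ) (ε b : ℝ), 64 ≤ Real.log Q → LDat C0 (Real.log Q) ((Q : ℝ) ^ 10) f →
    (∀ n, ‖c n‖ ≤ 1) → b ≤ 1 →
    (∀ s : ℂ, 1 < s.re → logDeriv f s = -LSeries (fun n => (Λ n : ℂ) * c n) s + ε / (s - b)) →
    ∀ k : ℕ, 1 ≤ k →
    ∫ v in (-((Q : ℝ) ^ 8 - 1))..((Q : ℝ) ^ 8 - 1), ‖Pk c k v - ε * Mk b k v‖ ≤
      C / Real.sqrt (k + 1) * (∑ ρ ∈ ZR f (1 - 1 / 8) ((Q : ℝ) ^ 8), (od f ρ : ℝ) *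
        (1 / (1 + 64 * (1 - ρ.re))) ^ k) + C * (Q : ℝ) ^ 8 * Real.log Q * (1 / 8) ^ k := by
  obtain ⟨C1, hC1, hA⟩ := PA_formula C0 h0
  obtain ⟨C2, hC2, hP⟩ := PC1_point C0 h0
  obtain ⟨C3, hC3, hO⟩ := PC1_one
  refine ⟨1 + C3 + 2 * (C1 + C2), by linarith, ?_⟩
  intro Q f c ε b hQ hf hc hb hld k hk
  have hQ0 : (0 : ℝ) < Q := by
    rcases Nat.eq_zero_or_pos Q with h | h
    · rw [h] at hQ
      norm_num at hQ
    · exact_mod_cast h
  have hQ1 : (1 : ℝ) ≤ Q := by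
    by_contra hcon
    have := Real.log_nonpos hQ0.le (not_le.1 hcon).le
    linarith
  have hQ8 : (1 : ℝ) ≤ (Q : ℝ) ^ 8 := one_le_pow₀ hQ1
  set R : ℝ := (Q : ℝ) ^ 8 - 1 with hR
  have hR0 : 0 ≤ R := by linarith
  have hne : ∃ c, f c ≠ 0 := ⟨2, fun h => by
    have := hf.zre 2 h
    norm_num at this⟩
  set Z := ZR f (1 - 1 / 8) ((Q : ℝ) ^ 8) with hZ
  have hZ1 : ∀ ρ ∈ Z, ρ.re ≤ 1 := fun ρ hρ => ((mem_ZR hf.diff hne).1 hρ).2.2.1
  set L := Real.log Q with hL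
  have hQ10 : R ≤ (Q : ℝ) ^ 10 := by
    have : (Q : ℝ) ^ 8 ≤ (Q : ℝ) ^ 10 := pow_le_pow_right₀ hQ1 (by norm_num)
    linarith
  have hpt : ∀ v ∈ Set.Icc (-R) R, ‖Pk c k v - ε * Mk b k v‖ ≤
      (∑ ρ ∈ Z, (od f ρ : ℝ) *
        ‖((1 / 64 : ℝ) : ℂ) / (1 + (1 / 64 : ℝ) + v * Complex.I - ρ)‖ ^ (k + 1)) +
      (C1 + C2) * L * (1 / 8) ^ k := by
    intro v hv
    have hv' : |v| ≤ R := abs_le.2 ⟨hv.1, hv.2⟩
    have h1 := hA L ((Q : ℝ) ^ 10) f c ε b hQ hf hc hb hld v (hv'.trans hQ10) k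
    have h2 := hP Q f hQ hf v k hv'
    rw [← hZ, ← hL] at h2
    have h3 : (1 / 9 : ℝ) ^ k ≤ (1 / 8) ^ k := pow_le_pow_left₀ (by norm_num) (by norm_num) k
    have h4 : C2 * L * (1 / 9) ^ k ≤ C2 * L * (1 / 8) ^ k :=
      mul_le_mul_of_nonneg_left h3 (mul_nonneg hC2.le (by linarith))
    have h5 : ‖Pk c k v - ε * Mk b k v‖ ≤
        ‖Pk c k v - ε * Mk b k v + ∑ ρ ∈ ZD f (1 + (1 / 64 : ℝ) + v * Complex.I) (1 / 4),
          (od f ρ : ℂ) * (((1 / 64 : ℝ) : ℂ) / (1 + (1 / 64 : ℝ) + v * Complex.I - ρ)) ^ (k + 1)‖ +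
        ‖∑ ρ ∈ ZD f (1 + (1 / 64 : ℝ) + v * Complex.I) (1 / 4),
          (od f ρ : ℂ) * (((1 / 64 : ℝ) : ℂ) / (1 + (1 / 64 : ℝ) + v * Complex.I - ρ)) ^ (k + 1)‖ := by
      set A := Pk c k v - ε * Mk b k v
      set B := ∑ ρ ∈ ZD f (1 + (1 / 64 : ℝ) + v * Complex.I) (1 / 4),
          (od f ρ : ℂ) * (((1 / 64 : ℝ) : ℂ) / (1 + (1 / 64 : ℝ) + v * Complex.I - ρ)) ^ (k + 1)
      calc ‖A‖ = ‖(A + B) - B‖ := by rw [add_sub_cancel_right]
        _ ≤ ‖A + B‖ + ‖B‖ := norm_sub_le _ _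
    have h6 : (C1 + C2) * L * (1 / 8) ^ k = C1 * L * (1 / 8) ^ k + C2 * L * (1 / 8) ^ k := by ring
    rw [h6]
    linarith
  have hc1 : Continuous fun v : ℝ => ‖Pk c k v - ε * Mk b k v‖ :=
    ((Pk_continuous c hc k).sub (continuous_const.mul (Mk_continuous b hb k))).norm
  have hc2 : ∀ ρ ∈ Z, Continuous fun v : ℝ => (od f ρ : ℝ) *
      ‖((1 / 64 : ℝ) : ℂ) / (1 + (1 / 64 : ℝ) + v * Complex.I - ρ)‖ ^ (k + 1) :=
    fun ρ hρ => continuous_const.mul (pg2_ratio_cont ρ (hZ1 ρ hρ) k)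
  have hc3 : Continuous fun v : ℝ => ∑ ρ ∈ Z, (od f ρ : ℝ) *
      ‖((1 / 64 : ℝ) : ℂ) / (1 + (1 / 64 : ℝ) + v * Complex.I - ρ)‖ ^ (k + 1) :=
    continuous_finsetSum _ hc2
  have hc4 : Continuous fun v : ℝ => (∑ ρ ∈ Z, (od f ρ : ℝ) *
      ‖((1 / 64 : ℝ) : ℂ) / (1 + (1 / 64 : ℝ) + v * Complex.I - ρ)‖ ^ (k + 1)) +
        (C1 + C2) * L * (1 / 8) ^ k := hc3.add continuous_const
  have hint := intervalIntegral.integral_mono_on (μ := MeasureTheory.volume) (by linarith : -R ≤ R)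
    (hc1.intervalIntegrable _ _) (hc4.intervalIntegrable _ _) hpt
  refine hint.trans ?_
  rw [intervalIntegral.integral_add (hc3.intervalIntegrable _ _) (continuous_const.intervalIntegrable _ _),
    intervalIntegral.integral_finsetSum fun ρ hρ => (hc2 ρ hρ).intervalIntegrable _ _,
    intervalIntegral.integral_const]
  have hsq : 0 < Real.sqrt (k + 1) := Real.sqrt_pos.2 (by positivity)
  have h1 : ∑ ρ ∈ Z, ∫ v in (-R)..R, (od f ρ : ℝ) *
      ‖((1 / 64 : ℝ) : ℂ) / (1 + (1 / 64 : ℝ) + v * Complex.I - ρ)‖ ^ (k + 1) ≤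
      C3 / Real.sqrt (k + 1) * ∑ ρ ∈ Z, (od f ρ : ℝ) * (1 / (1 + 64 * (1 - ρ.re))) ^ k := by
    rw [Finset.mul_sum]
    refine Finset.sum_le_sum fun ρ hρ => ?_
    rw [intervalIntegral.integral_const_mul]
    calc (od f ρ : ℝ) * ∫ v in (-R)..R,
          ‖((1 / 64 : ℝ) : ℂ) / (1 + (1 / 64 : ℝ) + v * Complex.I - ρ)‖ ^ (k + 1)
        ≤ (od f ρ : ℝ) * (C3 / Real.sqrt (k + 1) * (1 / (1 + 64 * (1 - ρ.re))) ^ k) :=
          mul_le_mul_of_nonneg_left (hO k ρ (-R) R hk (hZ1 ρ hρ) (by linarith)) (Nat.cast_nonneg _)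
      _ = _ := by ring
  have hsum0 : 0 ≤ ∑ ρ ∈ Z, (od f ρ : ℝ) * (1 / (1 + 64 * (1 - ρ.re))) ^ k := by
    refine Finset.sum_nonneg fun ρ hρ => mul_nonneg (Nat.cast_nonneg _) (pow_nonneg ?_ _)
    have := hZ1 ρ hρ
    apply div_nonneg zero_le_one
    linarith
  have h2 : C3 / Real.sqrt (k + 1) * ∑ ρ ∈ Z, (od f ρ : ℝ) * (1 / (1 + 64 * (1 - ρ.re))) ^ k ≤
      (1 + C3 + 2 * (C1 + C2)) / Real.sqrt (k + 1) *
        ∑ ρ ∈ Z, (od f ρ : ℝ) * (1 / (1 + 64 * (1 - ρ.re))) ^ k := by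
    apply mul_le_mul_of_nonneg_right _ hsum0
    apply div_le_div_of_nonneg_right _ hsq.le
    linarith
  have h3 : (R - -R) • ((C1 + C2) * L * (1 / 8) ^ k) ≤
      (1 + C3 + 2 * (C1 + C2)) * (Q : ℝ) ^ 8 * L * (1 / 8) ^ k := by
    rw [smul_eq_mul]
    have e1 : (R - -R) * ((C1 + C2) * L * (1 / 8) ^ k) = (2 * (C1 + C2)) * R * (L * (1 / 8) ^ k) := by
      ring
    have e2 : (1 + C3 + 2 * (C1 + C2)) * (Q : ℝ) ^ 8 * L * (1 / 8) ^ k =
        (1 + C3 + 2 * (C1 + C2)) * (Q : ℝ) ^ 8 * (L * (1 / 8) ^ k) := by ring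
    rw [e1, e2]
    apply mul_le_mul_of_nonneg_right _ (mul_nonneg (by linarith) (by positivity))
    apply mul_le_mul (by linarith) (by linarith) hR0 (by positivity)
  linarith

theorem pg2_kX {K : ℝ} {Q X : ℕ} (hK : 128 ≤ K) (h : RegP K Q X) :
    1 ≤ kX X ∧ Real.log X / 64 - 1 ≤ kX X ∧ Real.log X / 64 ≤ (kX X : ℝ) + 1 := by
  have h1 := h.logX_ge (by linarith)
  have h2 := Real.add_one_le_exp K
  have h3 : (1 : ℝ) ≤ Real.log X / 64 := by linarith
  unfold kX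
  have h4 := Nat.lt_floor_add_one (Real.log X / 64)
  refine ⟨Nat.le_floor (by exact_mod_cast h3), by linarith, h4.le⟩

/-- the first error -/
theorem pg2_err1 {K : ℝ} {Q X : ℕ} (hK : 1280 ≤ K) (h : RegP K Q X) :
    (Q : ℝ) ^ 2 * (Real.sqrt (Real.log X) * ((Q : ℝ) ^ 8 * Real.log Q * (1 / 8) ^ kX X)) ≤
      640 * (Q : ℝ) ^ (-7 : ℝ) * (1 / Q) := by
  have hK1 : 1 ≤ K := by linarith
  obtain ⟨hk1, hk2, hk3⟩ := pg2_kX (by linarith) h
  have hX1 := h.logX_ge_one (by linarith)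
  have hQ : (0 : ℝ) < Q := by exact_mod_cast h.Q_pos hK1
  have hlQ : 0 < Real.log Q := by linarith [h.logQ_ge hK1]
  have hlQ2 : Real.log Q ≤ Q := by
    have := Real.log_le_sub_one_of_pos hQ
    linarith
  have hlog8 : (2 : ℝ) ≤ Real.log 8 := by
    rw [show (8 : ℝ) = 2 ^ 3 by norm_num, Real.log_pow]
    have := Real.log_two_gt_d9
    push_cast
    linarith
  have h8 : (1 / 8 : ℝ) ^ kX X ≤ Real.exp (2 - Real.log X / 32) := by
    have e1 : (1 / 8 : ℝ) ^ kX X = Real.exp (-(kX X * Real.log 8)) := by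
      rw [Real.exp_neg, mul_comm, Real.exp_mul, Real.exp_log (by norm_num), Real.rpow_natCast,
        one_div, inv_pow]
    rw [e1]
    apply Real.exp_le_exp.2
    have : (kX X : ℝ) * 2 ≤ kX X * Real.log 8 := mul_le_mul_of_nonneg_left hlog8 (Nat.cast_nonneg _)
    linarith
  have he2 : Real.exp 2 ≤ 10 := by
    have : Real.exp 2 = Real.exp 1 * Real.exp 1 := by rw [← Real.exp_add]; norm_num
    rw [this]
    have h1 := Real.exp_one_lt_d9
    have h2 := Real.exp_pos 1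
    nlinarith
  have hsqrt : Real.sqrt (Real.log X) ≤ 64 * Real.exp (Real.log X / 64) := by
    have h1 : Real.sqrt (Real.log X) ≤ Real.log X := by
      rw [Real.sqrt_le_left (by linarith)]
      nlinarith
    have h2 := Real.add_one_le_exp (Real.log X / 64)
    linarith
  have hX2 : Real.exp (-(Real.log X / 64)) ≤ (Q : ℝ) ^ (-20 : ℝ) := by
    rw [Real.rpow_def_of_pos hQ]
    apply Real.exp_le_exp.2
    have h1 := h.logQ_le hK1
    have h2 : 1280 * Real.log Q ≤ K * Real.log Q := mul_le_mul_of_nonneg_right hK hlQ.le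
    linarith
  have hprod : Real.sqrt (Real.log X) * (1 / 8) ^ kX X ≤ 640 * (Q : ℝ) ^ (-20 : ℝ) := by
    calc Real.sqrt (Real.log X) * (1 / 8) ^ kX X ≤
        (64 * Real.exp (Real.log X / 64)) * Real.exp (2 - Real.log X / 32) :=
          mul_le_mul hsqrt h8 (by positivity) (by positivity)
      _ = 64 * Real.exp 2 * Real.exp (-(Real.log X / 64)) := by
          rw [mul_assoc, mul_assoc, ← Real.exp_add, ← Real.exp_add]
          congr 2
          ring
      _ ≤ 64 * 10 * (Q : ℝ) ^ (-20 : ℝ) := by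
          apply mul_le_mul _ hX2 (by positivity) (by norm_num)
          linarith
      _ = _ := by ring
  have hQpow : (Q : ℝ) ^ (-20 : ℝ) = (Q : ℝ) ^ (-7 : ℝ) * (1 / Q) * (1 / Q ^ 12) := by
    rw [Real.rpow_neg hQ.le, Real.rpow_neg hQ.le]
    have e1 : (Q : ℝ) ^ (20 : ℝ) = (Q : ℝ) ^ 20 := by exact_mod_cast Real.rpow_natCast (Q : ℝ) 20
    have e2 : (Q : ℝ) ^ (7 : ℝ) = (Q : ℝ) ^ 7 := by exact_mod_cast Real.rpow_natCast (Q : ℝ) 7
    rw [e1, e2]
    field_simp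
  calc (Q : ℝ) ^ 2 * (Real.sqrt (Real.log X) * ((Q : ℝ) ^ 8 * Real.log Q * (1 / 8) ^ kX X))
      = ((Q : ℝ) ^ 10 * Real.log Q) * (Real.sqrt (Real.log X) * (1 / 8) ^ kX X) := by ring
    _ ≤ ((Q : ℝ) ^ 10 * Q) * (640 * (Q : ℝ) ^ (-20 : ℝ)) := by
        apply mul_le_mul _ hprod (by positivity) (by positivity)
        exact mul_le_mul_of_nonneg_left hlQ2 (by positivity)
    _ = 640 * (Q : ℝ) ^ (-7 : ℝ) * (1 / Q) * (Q ^ 11 / Q ^ 12) := by
        rw [hQpow]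
        ring
    _ ≤ 640 * (Q : ℝ) ^ (-7 : ℝ) * (1 / Q) * 1 := by
        apply mul_le_mul_of_nonneg_left _ (by positivity)
        rw [div_le_one (by positivity)]
        have hQ1 : (1 : ℝ) ≤ Q := by linarith [h.Q_ge hK1]
        exact pow_le_pow_right₀ hQ1 (by norm_num)
    _ = _ := by ring

/-- the second error -/
theorem pg2_err2 {Q : ℕ} (hQ : (4 : ℝ) ≤ Q) {B M : ℝ} (hB : 0 ≤ B) (hM : 0 ≤ M) :
    (Q : ℝ) ^ 2 * (2 * (Q : ℝ) ^ 7 * B * M / ((Q : ℝ) ^ 8 - 1 - (Q : ℝ) ^ 7) ^ 2) ≤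
      8 * (B * M) * (Q : ℝ) ^ (-7 : ℝ) := by
  have hQ0 : (0 : ℝ) < Q := by linarith
  have h7 : (4 : ℝ) ^ 7 ≤ (Q : ℝ) ^ 7 := pow_le_pow_left₀ (by norm_num) hQ 7
  have h1 : (Q : ℝ) ^ 8 / 2 ≤ (Q : ℝ) ^ 8 - 1 - (Q : ℝ) ^ 7 := by
    have : (Q : ℝ) ^ 8 = (Q : ℝ) ^ 7 * Q := by ring
    rw [this]
    nlinarith
  have h2 : ((Q : ℝ) ^ 8 / 2) ^ 2 ≤ ((Q : ℝ) ^ 8 - 1 - (Q : ℝ) ^ 7) ^ 2 :=
    pow_le_pow_left₀ (by positivity) h1 2
  have h3 : 2 * (Q : ℝ) ^ 7 * B * M / ((Q : ℝ) ^ 8 - 1 - (Q : ℝ) ^ 7) ^ 2 ≤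
      2 * (Q : ℝ) ^ 7 * B * M / ((Q : ℝ) ^ 8 / 2) ^ 2 :=
    div_le_div_of_nonneg_left (by positivity) (by positivity) h2
  refine (mul_le_mul_of_nonneg_left h3 (by positivity)).trans (le_of_eq ?_)
  have e2 : (Q : ℝ) ^ (7 : ℝ) = (Q : ℝ) ^ 7 := by exact_mod_cast Real.rpow_natCast (Q : ℝ) 7
  rw [Real.rpow_neg hQ0.le, e2]
  field_simp
  ring

/-- **L1 norms for a family.** Proof. For each `p`: `FL - ε Mb = ∫ kh(ξ) (Pk - ε Mk)(t - ξ) dξ`
(`PB3_repr`, `PB3_FL`, `PB3_Mb`; linearity, both integrable); `PG1_conv` with `S = Q^7`,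
`R = Q^8 - 1`, `B = C √(log X)`, `M = C + 1` (`PA_bounds`, `Mk_norm`, `|ε| ≤ 1`; `Pk_continuous`,
`Mk_continuous`); `PG2_one` with `k = kX X`. `√(log X)/√(k+1) ≤ 8` (`k + 1 ≥ log X/64`). Sum over
`p ∈ PC Q` (`card_PC_le`: at most `Q²`). The remaining errors are, for `K` large,
`Q² · C √(log X) · Q^8 log Q (1/8)^k` with `k ≥ (K/100) log Q`, `(1/8)^k ≤ Q^(-K/50)`, and
`Q² · 2 Q^7 C √(log X) M/(Q^8/2)² ≤ C' √(log X) Q^(-7)`, `log X ≤ Q^(1/K)` (`regp_log_le` in `R0`);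
together `≤ Q^(-6)`. -/
theorem L1_family (C0 : ℝ) (h0 : 1 ≤ C0) : ∃ C K : ℝ, 1 ≤ C ∧ 1 ≤ K ∧ ∀ Q X : ℕ, RegP K Q X →
    ∀ (g : (Σ r : ℕ, DirichletCharacter ℂ r) → ℂ → ℂ)
      (ε b : (Σ r : ℕ, DirichletCharacter ℂ r) → ℝ), Fam C0 Q g →
    (∀ p ∈ PC Q, |ε p| ≤ 1 ∧ b p ≤ 1 ∧ ∀ s : ℂ, 1 < s.re → logDeriv (g p) s =
      -LSeries (fun n => (Λ n : ℂ) * p.2 (n : ZMod p.1)) s + ε p / (s - b p)) →
    ∑ p ∈ PC Q, ∫ t in (-(Q : ℝ) ^ 7)..((Q : ℝ) ^ 7), ‖FL X p t - ε p * Mb X (b p) t‖ ≤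
      C * (∑ p ∈ PC Q, ∑ ρ ∈ ZR (g p) (1 - 1 / 8) ((Q : ℝ) ^ 8), (od (g p) ρ : ℝ) *
        (1 / (1 + 64 * (1 - ρ.re))) ^ kX X) + (Q : ℝ) ^ (-6 : ℝ) := by
  obtain ⟨CA, hCA, hPA⟩ := PA_bounds
  obtain ⟨CB, KB, hCB, hPB⟩ := PB3_repr
  obtain ⟨CG, hCG, hPG⟩ := PG2_one C0 h0
  obtain ⟨K1, hK1, hlog⟩ := regp_log_le (16 * (CB * (CA + 1))) (1 / 2) 1 one_pos
  refine ⟨8 * CB * CG, max (max KB K1) (max 1280 (1280 * (CB * CG))), by nlinarith,
    le_trans (by norm_num) ((le_max_left _ _).trans (le_max_right _ _)), ?_⟩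
  intro Q X hreg g ε b hfam hmain
  set K := max (max KB K1) (max 1280 (1280 * (CB * CG))) with hKdef
  have hKB : KB ≤ K := (le_max_left _ _).trans (le_max_left _ _)
  have hKK1 : K1 ≤ K := (le_max_right _ _).trans (le_max_left _ _)
  have hK1280 : 1280 ≤ K := (le_max_left _ _).trans (le_max_right _ _)
  have hKC : 1280 * (CB * CG) ≤ K := (le_max_right _ _).trans (le_max_right _ _)
  have hK0 : 0 ≤ K := by linarith
  obtain ⟨hk1, hk2, hk3⟩ := pg2_kX (by linarith) hreg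
  have hQK := hreg.Q_ge (by linarith)
  have hQ4 : (4 : ℝ) ≤ Q := by linarith
  have hQ0 : (0 : ℝ) < Q := by linarith
  have hlogQ := hreg.logQ_ge (by linarith)
  have hXK := hreg.X_ge (by linarith)
  have hX8 : 8 ≤ X := by
    have : (8 : ℝ) ≤ X := by linarith
    exact_mod_cast this
  have hlX := hreg.logX_ge_one (by linarith)
  obtain ⟨kh, hkc, hkb, hkr⟩ := hPB X (hKB.trans hXK)
  set B := CB * Real.sqrt (Real.log X) with hBdef
  have hB0 : 0 ≤ B := by positivity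
  have hkint : MeasureTheory.Integrable fun ξ : ℝ => 1 / (1 + |ξ|) ^ 3 := PG1_kernel.1
  have hintD : ∀ D : ℝ → ℂ, Continuous D → ∀ M : ℝ, (∀ v, ‖D v‖ ≤ M) → ∀ t : ℝ,
      MeasureTheory.Integrable fun ξ : ℝ => kh ξ * D (t - ξ) := by
    intro D hD M hM t
    refine MeasureTheory.Integrable.mono' (hkint.const_mul (B * M))
      (hkc.mul (hD.comp (continuous_const.sub continuous_id))).aestronglyMeasurable ?_
    refine Filter.Eventually.of_forall fun ξ => ?_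
    rw [norm_mul]
    calc ‖kh ξ‖ * ‖D (t - ξ)‖ ≤ (B / (1 + |ξ|) ^ 3) * M :=
          mul_le_mul (hkb ξ) (hM _) (norm_nonneg _) (by positivity)
      _ = B * M * (1 / (1 + |ξ|) ^ 3) := by ring
  have hone : ∀ p ∈ PC Q, ∫ t in (-(Q : ℝ) ^ 7)..((Q : ℝ) ^ 7), ‖FL X p t - ε p * Mb X (b p) t‖ ≤
      8 * CB * CG * (∑ ρ ∈ ZR (g p) (1 - 1 / 8) ((Q : ℝ) ^ 8), (od (g p) ρ : ℝ) *
        (1 / (1 + 64 * (1 - ρ.re))) ^ kX X) +
      (CB * CG * (Real.sqrt (Real.log X) * ((Q : ℝ) ^ 8 * Real.log Q * (1 / 8) ^ kX X)) +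
        2 * (Q : ℝ) ^ 7 * B * (CA + 1) / ((Q : ℝ) ^ 8 - 1 - (Q : ℝ) ^ 7) ^ 2) := by
    intro p hp
    obtain ⟨hε, hb, hld⟩ := hmain p hp
    have hc : ∀ n : ℕ, ‖p.2 (n : ZMod p.1)‖ ≤ 1 := fun n => DirichletCharacter.norm_le_one p.2 _
    have hPc := Pk_continuous (fun n => p.2 (n : ZMod p.1)) hc (kX X)
    have hMc := Mk_continuous (b p) hb (kX X)
    have hPb := hPA (fun n => p.2 (n : ZMod p.1)) hc (kX X)
    have hMb := Mk_norm (b p) hb (kX X)
    set D : ℝ → ℂ := fun v => Pk (fun n => p.2 (n : ZMod p.1)) (kX X) v - ε p * Mk (b p) (kX X) v with hD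
    have hDc : Continuous D := hPc.sub (continuous_const.mul hMc)
    have hDb : ∀ v, ‖D v‖ ≤ CA + 1 := by
      intro v
      refine (norm_sub_le _ _).trans (add_le_add (hPb v) ?_)
      rw [norm_mul, Complex.norm_real, Real.norm_eq_abs]
      calc |ε p| * ‖Mk (b p) (kX X) v‖ ≤ 1 * 1 := mul_le_mul hε (hMb v) (norm_nonneg _) zero_le_one
        _ = 1 := one_mul 1
    have hrep : ∀ t : ℝ, FL X p t - ε p * Mb X (b p) t = ∫ ξ : ℝ, kh ξ * D (t - ξ) := by
      intro t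
      rw [PB3_FL X (by omega) kh B hkc hkb hkr p t, PB3_Mb X hX8 kh B hkc hkb hkr (b p) hb t,
        ← MeasureTheory.integral_const_mul, ← MeasureTheory.integral_sub]
      · refine MeasureTheory.integral_congr_ae (Filter.Eventually.of_forall fun ξ => ?_)
        simp only [hD]
        ring
      · exact hintD _ hPc CA hPb t
      · exact (hintD _ hMc 1 hMb t).const_mul _
    have h1 := PG1_conv kh D B (CA + 1) ((Q : ℝ) ^ 7) ((Q : ℝ) ^ 8 - 1) hB0 (by linarith) (by positivity)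
      (by
        have h7 : (4 : ℝ) ^ 7 ≤ (Q : ℝ) ^ 7 := pow_le_pow_left₀ (by norm_num) hQ4 7
        have : (Q : ℝ) ^ 8 = (Q : ℝ) ^ 7 * Q := by ring
        rw [this]
        nlinarith) hkc hkb hDc hDb
    simp only [← hrep] at h1
    have h2 := hPG Q (g p) (fun n => p.2 (n : ZMod p.1)) (ε p) (b p) (by linarith) (hfam.dat p hp)
      hc hb hld (kX X) hk1
    refine h1.trans ?_
    have hsq : 0 < Real.sqrt (kX X + 1) := Real.sqrt_pos.2 (by positivity)
    have h3 : Real.sqrt (Real.log X) ≤ 8 * Real.sqrt (kX X + 1) := by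
      rw [Real.sqrt_le_left (by positivity), mul_pow, Real.sq_sqrt (by positivity)]
      linarith
    set Sg := ∑ ρ ∈ ZR (g p) (1 - 1 / 8) ((Q : ℝ) ^ 8), (od (g p) ρ : ℝ) *
        (1 / (1 + 64 * (1 - ρ.re))) ^ kX X with hSg
    have hSg0 : 0 ≤ Sg := by
      have hne : ∃ c, g p c ≠ 0 := ⟨2, fun h => by
        have := (hfam.dat p hp).zre 2 h
        norm_num at this⟩
      refine Finset.sum_nonneg fun ρ hρ => mul_nonneg (Nat.cast_nonneg _) (pow_nonneg ?_ _)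
      have := ((mem_ZR (hfam.dat p hp).diff hne).1 hρ).2.2.1
      apply div_nonneg zero_le_one
      linarith
    have h4 : B * (CG / Real.sqrt (kX X + 1) * Sg) ≤ 8 * CB * CG * Sg := by
      have e1 : B * (CG / Real.sqrt (kX X + 1) * Sg) =
          (CB * CG) * (Real.sqrt (Real.log X) / Real.sqrt (kX X + 1)) * Sg := by
        rw [hBdef]
        ring
      rw [e1]
      have h5 : Real.sqrt (Real.log X) / Real.sqrt (kX X + 1) ≤ 8 := by
        rw [div_le_iff₀ hsq]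
        exact h3
      have h6 : (CB * CG) * (Real.sqrt (Real.log X) / Real.sqrt (kX X + 1)) ≤ (CB * CG) * 8 :=
        mul_le_mul_of_nonneg_left h5 (by positivity)
      have h7 := mul_le_mul_of_nonneg_right h6 hSg0
      linarith
    have h5 := mul_le_mul_of_nonneg_left h2 hB0
    have e2 : B * (CG / Real.sqrt (kX X + 1) * Sg + CG * (Q : ℝ) ^ 8 * Real.log Q * (1 / 8) ^ kX X) =
        B * (CG / Real.sqrt (kX X + 1) * Sg) +
          CB * CG * (Real.sqrt (Real.log X) * ((Q : ℝ) ^ 8 * Real.log Q * (1 / 8) ^ kX X)) := by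
      rw [hBdef]
      ring
    rw [e2] at h5
    linarith
  refine (Finset.sum_le_sum hone).trans ?_
  rw [Finset.sum_add_distrib, ← Finset.mul_sum, Finset.sum_const, nsmul_eq_mul]
  have hcard : ((PC Q).card : ℝ) ≤ (Q : ℝ) ^ 2 := by exact_mod_cast card_PC_le Q
  set E1 := Real.sqrt (Real.log X) * ((Q : ℝ) ^ 8 * Real.log Q * (1 / 8) ^ kX X) with hE1
  set E2 := 2 * (Q : ℝ) ^ 7 * B * (CA + 1) / ((Q : ℝ) ^ 8 - 1 - (Q : ℝ) ^ 7) ^ 2 with hE2
  have hE10 : 0 ≤ E1 := by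
    have : 0 ≤ Real.log Q := by linarith
    positivity
  have hE20 : 0 ≤ E2 := by positivity
  have he1 : (Q : ℝ) ^ 2 * E1 ≤ 640 * (Q : ℝ) ^ (-7 : ℝ) * (1 / Q) := pg2_err1 hK1280 hreg
  have he2 : (Q : ℝ) ^ 2 * E2 ≤ 8 * (B * (CA + 1)) * (Q : ℝ) ^ (-7 : ℝ) :=
    pg2_err2 hQ4 hB0 (by linarith)
  have hQ76 : (Q : ℝ) ^ (-7 : ℝ) * Q = (Q : ℝ) ^ (-6 : ℝ) := by
    rw [← Real.rpow_add_one hQ0.ne']
    norm_num
  have hp7 : 0 < (Q : ℝ) ^ (-7 : ℝ) := by positivity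
  have hf1 : (Q : ℝ) ^ 2 * (CB * CG * E1) ≤ (Q : ℝ) ^ (-6 : ℝ) / 2 := by
    have hCC : 0 ≤ CB * CG := by positivity
    calc (Q : ℝ) ^ 2 * (CB * CG * E1) = (CB * CG) * ((Q : ℝ) ^ 2 * E1) := by ring
      _ ≤ (CB * CG) * (640 * (Q : ℝ) ^ (-7 : ℝ) * (1 / Q)) := mul_le_mul_of_nonneg_left he1 hCC
      _ = (640 * (CB * CG) * (1 / Q)) * (Q : ℝ) ^ (-7 : ℝ) := by ring
      _ ≤ (Q / 2) * (Q : ℝ) ^ (-7 : ℝ) := by
          apply mul_le_mul_of_nonneg_right _ hp7.le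
          have h1 : 1 / (Q : ℝ) ≤ 1 := by
            rw [div_le_one hQ0]
            linarith
          have h2 : 640 * (CB * CG) * (1 / Q) ≤ 640 * (CB * CG) * 1 :=
            mul_le_mul_of_nonneg_left h1 (by positivity)
          linarith
      _ = (Q : ℝ) ^ (-6 : ℝ) / 2 := by
          rw [← hQ76]
          ring
  have hf2 : (Q : ℝ) ^ 2 * E2 ≤ (Q : ℝ) ^ (-6 : ℝ) / 2 := by
    refine he2.trans ?_
    have h1 := hlog Q X (hreg.mono hK0 hKK1)
    rw [Real.rpow_one, ← Real.sqrt_eq_rpow] at h1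
    have h2 : 8 * (B * (CA + 1)) ≤ Q / 2 := by
      rw [hBdef]
      linarith
    calc 8 * (B * (CA + 1)) * (Q : ℝ) ^ (-7 : ℝ) ≤ (Q / 2) * (Q : ℝ) ^ (-7 : ℝ) :=
          mul_le_mul_of_nonneg_right h2 hp7.le
      _ = (Q : ℝ) ^ (-6 : ℝ) / 2 := by
          rw [← hQ76]
          ring
  have hf3 : ((PC Q).card : ℝ) * (CB * CG * E1 + E2) ≤ (Q : ℝ) ^ 2 * (CB * CG * E1 + E2) :=
    mul_le_mul_of_nonneg_right hcard (by positivity)
  have e3 : (Q : ℝ) ^ 2 * (CB * CG * E1 + E2) = (Q : ℝ) ^ 2 * (CB * CG * E1) + (Q : ℝ) ^ 2 * E2 := by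
    ring
  linarith

end Pool.Agent.Lib.H18Q
end
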