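import Pool.Agent.Lib.H59M.M2.M023
import Pool.Agent.Lib.H59M.M2.M036
import Pool.Agent.Lib.H59M.M2.M040
import Pool.Agent.Lib.H59M.M2.M046
import Pool.Agent.Lib.H59M.M2.M059
import Pool.Agent.Lib.H59M.M2.M061
import Pool.Agent.Lib.H59M.M2.M062

/-! Merged copies (to shorten the build) of Lib.H18Q.E5, Lib.H18Q.PD, Lib.H18Q.E6. -/

-- from Lib.H18Q.E5
section

/-!
# Project H18Q, chunk E5: detection of zeros by `χ(n) (1 + ψ(n) n^(-η))`
-/

open Finset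

namespace Pool.Agent.Lib.H18Q

open ArithmeticFunction Pool.Agent.Lib.H68T

theorem E5_analytic (c : ℕ → ℂ) (hc : ∀ n, ‖c n‖ ≤ 2) (s₀ : ℂ) (h : 1 < s₀.re) :
    AnalyticAt ℂ (LSeries (fun n => (Λ n : ℂ) * c n)) s₀ := by
  apply LSeries_analyticOnNhd (fun n => (Λ n : ℂ) * c n) s₀
  have h2 : ((1 : ℝ) : EReal) < (s₀.re : EReal) := by exact_mod_cast h
  exact lt_of_le_of_lt (d0_abs c hc) h2

theorem E5_series (c : ℕ → ℂ) (hc : ∀ n, ‖c n‖ ≤ 2) (F : ℂ → ℂ) (b : Prop) [Decidable b]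
    (hF : ∀ s : ℂ, 1 < s.re → logDeriv F s = -LSeries (fun n => (Λ n : ℂ) * c n) s +
        (if b then 1 / (s - 1) else 0)) (lam : ℝ)
    (hlam : 0 < lam) (k : ℕ) (v : ℝ) :
    ‖(lam : ℂ) ^ (k + 1) * (iteratedDeriv k (logDeriv F) (1 + lam + v * Complex.I) /
      (k.factorial : ℂ))‖ ≤
    ‖∑' n : ℕ, ((Λ n * Jk lam k n : ℝ) : ℂ) * c n *
      (n : ℂ) ^ (-(v * Complex.I))‖ +
      (if b then ‖(lam : ℂ) / (lam + v * Complex.I)‖ ^ (k + 1) else 0) := by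
  have hre := D1_re lam v hlam
  have hser := D0_series c hc lam hlam k v
  have hnser : ‖(lam : ℂ) ^ (k + 1) * (iteratedDeriv k (LSeries (fun n => (Λ n : ℂ) * c n))
      (1 + lam + v * Complex.I) / (k.factorial : ℂ))‖ =
      ‖∑' n : ℕ, ((Λ n * Jk lam k n : ℝ) : ℂ) * c n *
        (n : ℂ) ^ (-(v * Complex.I))‖ := by
    rw [hser, norm_mul, norm_pow, norm_neg, norm_one, one_pow, one_mul]
  by_cases hb : b
  · rw [if_pos hb]
    have hev : logDeriv F =ᶠ[nhds ((1 : ℂ) + lam + v * Complex.I)]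
        fun s => 1 / (s - 1) - LSeries (fun n => (Λ n : ℂ) * c n) s := by
      filter_upwards [D1_near _ hre] with s hs
      rw [hF s hs, if_pos hb]
      ring
    have hd := (hev.iteratedDeriv k).eq_of_nhds
    have hne : ((1 : ℂ) + lam + v * Complex.I) - 1 ≠ 0 := by
      intro h0
      have := congrArg Complex.re h0
      simp at this
      exact hlam.ne' this
    have hA1 : ContDiffAt ℂ k (fun s : ℂ => 1 / (s - 1)) ((1 : ℂ) + lam + v * Complex.I) := by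
      apply ContDiffAt.div contDiffAt_const
      · exact contDiffAt_id.sub contDiffAt_const
      · exact hne
    have hA2 : ContDiffAt ℂ k (LSeries (fun n => (Λ n : ℂ) * c n))
        ((1 : ℂ) + lam + v * Complex.I) := (E5_analytic c hc _ hre).contDiffAt
    rw [hd, iteratedDeriv_fun_sub hA1 hA2, D1_inv, sub_div, mul_sub]
    have hk : (k.factorial : ℂ) ≠ 0 := by exact_mod_cast k.factorial_ne_zero
    have h3 : (lam : ℂ) ^ (k + 1) * ((-1) ^ k * (k.factorial : ℂ) *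
        (1 / ((1 : ℂ) + lam + v * Complex.I - 1) ^ (k + 1)) / (k.factorial : ℂ)) =
        (-1) ^ k * ((lam : ℂ) / (lam + v * Complex.I)) ^ (k + 1) := by
      have h4 : (1 : ℂ) + lam + v * Complex.I - 1 = lam + v * Complex.I := by ring
      rw [h4] at hne ⊢
      rw [div_pow]
      field_simp
    rw [h3]
    refine (norm_sub_le _ _).trans ?_
    rw [hnser, norm_mul, norm_pow, norm_neg, norm_one, one_pow, one_mul, norm_pow]
    linarith
  · rw [if_neg hb, add_zero]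
    have hev : logDeriv F =ᶠ[nhds ((1 : ℂ) + lam + v * Complex.I)]
        fun s => -LSeries (fun n => (Λ n : ℂ) * c n) s := by
      filter_upwards [D1_near _ hre] with s hs
      rw [hF s hs, if_neg hb, add_zero]
    have hd := (hev.iteratedDeriv k).eq_of_nhds
    rw [hd, iteratedDeriv_fun_neg, neg_div, mul_neg, norm_neg, hnser]

/-- Detection. Proof: as `detect_primes` in chunk `D1`, with `F` of `E4_data` and `c = cE r ψ β p`:
`detect` for `F` (`T = Q^10`, `|v| ≤ Q^9`), `logDeriv F` near `s₀` from `E4_data` (open set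
`Re s > 1`), `D0_series`, `D0_trunc`; the pole of `p0` contributes at most `(2 lam)^K1` as
`|v| ≥ 1/2`. -/
theorem E5_detect : ∃ C3 K : ℝ, 1 ≤ C3 ∧ ∀ Q : ℕ, K ≤ Q → ∀ (r : ℕ) [NeZero r]
    (ψ : DirichletCharacter ℂ r), r ≤ Q → ψ.IsPrimitive → ψ ≠ 1 → ψ ^ 2 = 1 → ∀ β : ℝ,
    7 / 8 ≤ β → β < 1 → ψ.LFunction (β : ℂ) = 0 → ∀ p ∈ PC Q, ∀ κ v : ℝ, 1 ≤ κ →
    κ ≤ th0 * Real.log Q → |v| ≤ (Q : ℝ) ^ 9 → (p = p0 → 1 / 2 ≤ |v|) → ∀ K1 : ℕ,
    C3 * κ ≤ K1 →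
    (∃ ρ : ℂ, Lx r ψ β p ρ = 0 ∧ 1 - κ / Real.log Q ≤ ρ.re ∧ |ρ.im - v| ≤ κ / Real.log Q) →
    ∃ k : ℕ, K1 ≤ k + 1 ∧ k + 1 < 2 * K1 ∧ 1 / 4 * (1 / 4096 : ℝ) ^ K1 ≤
      ‖PP (cE r ψ β p) (κ / Real.log Q) k K1 v‖ := by
  classical
  obtain ⟨C0, K, hC0, hL⟩ := E4_data
  obtain ⟨C3, hC3, hdet⟩ := detect C0 hC0
  obtain ⟨C3', hC3', htr⟩ := D0_trunc
  refine ⟨max C3 C3', K, hC3.trans (le_max_left _ _), ?_⟩
  intro Q hQ r hr0 ψ hrQ hψp hψ1 hψ2 β hβ hβ1 hβ0 p hp κ v hκ hκ2 hv hp0v K1 hK1 hρ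
  obtain ⟨F, hFL, hFz, hFs⟩ := hL Q hQ r ψ hrQ hψp hψ1 hψ2 β hβ hβ1 hβ0 p hp
  have hth : (0 : ℝ) < th0 := by unfold th0; positivity
  have hlog : 0 < Real.log Q := by
    by_contra hcon
    push Not at hcon
    have : th0 * Real.log Q ≤ 0 := mul_nonpos_of_nonneg_of_nonpos hth.le hcon
    linarith
  have hQ1 : (1 : ℝ) ≤ Q := by
    by_contra hcon
    push Not at hcon
    have h0 : Real.log (Q : ℝ) ≤ 0 := Real.log_nonpos (Nat.cast_nonneg Q) hcon.le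
    linarith
  have hlam : 0 < κ / Real.log Q := by positivity
  have hlamth : κ / Real.log Q ≤ th0 := by
    rw [div_le_iff₀ hlog]
    exact hκ2
  have hv10 : |v| ≤ (Q : ℝ) ^ 10 :=
    hv.trans (pow_le_pow_right₀ hQ1 (by norm_num))
  have hκ0 : 0 < κ := by linarith
  have hK1a : C3 * κ ≤ K1 := (mul_le_mul_of_nonneg_right (le_max_left _ _) hκ0.le).trans hK1
  have hK1b : C3' * κ ≤ K1 := (mul_le_mul_of_nonneg_right (le_max_right _ _) hκ0.le).trans hK1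
  have hK1c : C3' ≤ K1 := by
    refine le_trans ?_ hK1b
    nlinarith
  have hK1d : 1 ≤ K1 := by
    have : (1 : ℝ) ≤ K1 := hC3'.trans hK1c
    exact_mod_cast this
  have hρ' : ∃ ρ : ℂ, F ρ = 0 ∧ 1 - κ / Real.log Q ≤ ρ.re ∧ |ρ.im - v| ≤ κ / Real.log Q := by
    obtain ⟨ρ, h1, h2, h3⟩ := hρ
    exact ⟨ρ, hFz ρ h1, h2, h3⟩
  obtain ⟨e, he1, he2, he3⟩ := hdet (Real.log Q) ((Q : ℝ) ^ 10) F hFL κ v hκ hκ2
    hv10 K1 hK1a hρ'
  obtain ⟨k, rfl⟩ : ∃ k, e = k + 1 := ⟨e - 1, by omega⟩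
  refine ⟨k, he1, he2, ?_⟩
  rw [Nat.add_sub_cancel] at he3
  have hser := E5_series (cE r ψ β p) (cE_norm r ψ β hβ1 p) F (p = p0) (fun s hs => by
    rw [hFs s hs]) (κ / Real.log Q) hlam k v
  have htr2 := htr (cE r ψ β p) (cE_norm r ψ β hβ1 p) (κ / Real.log Q) v k K1 hlam
    hlamth hK1c he1 he2
  have h4096 : (0 : ℝ) < (1 / 4096 : ℝ) ^ K1 := by positivity
  have hterm : (if p = p0 then ‖((κ / Real.log Q : ℝ) : ℂ) /
      (((κ / Real.log Q : ℝ) : ℂ) + v * Complex.I)‖ ^ (k + 1) else 0) ≤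
      1 / 8 * (1 / 4096 : ℝ) ^ K1 := by
    split_ifs with hp0
    · have hv2 := hp0v hp0
      set lam := κ / Real.log Q with hlamdef
      have h1 : ‖(lam : ℂ) / ((lam : ℂ) + v * Complex.I)‖ ≤ 2 * th0 := by
        rw [norm_div, Complex.norm_real, Real.norm_of_nonneg hlam.le]
        have h2 : |v| ≤ ‖(lam : ℂ) + v * Complex.I‖ := by
          have := Complex.abs_im_le_norm ((lam : ℂ) + v * Complex.I)
          simpa using this
        have h3 : 1 / 2 ≤ ‖(lam : ℂ) + v * Complex.I‖ := hv2.trans h2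
        rw [div_le_iff₀ (by linarith)]
        nlinarith
      have h2 : ‖(lam : ℂ) / ((lam : ℂ) + v * Complex.I)‖ ^ (k + 1) ≤ (2 * th0) ^ (k + 1) :=
        pow_le_pow_left₀ (norm_nonneg _) h1 _
      have h3 : (2 * th0) ^ (k + 1) ≤ (2 * th0) ^ K1 :=
        pow_le_pow_of_le_one (by positivity) (by unfold th0; norm_num) he1
      have h4 : (2 * th0) ^ K1 = (2 * th0 * 4096) ^ K1 * (1 / 4096) ^ K1 := by
        rw [← mul_pow]
        congr 1
        ring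
      have h5 : (2 * th0 * 4096) ^ K1 ≤ (2 * th0 * 4096) ^ 1 :=
        pow_le_pow_of_le_one (by positivity) (by unfold th0; norm_num) hK1d
      have h6 : (2 * th0 * 4096) ^ 1 ≤ 1 / 8 := by
        unfold th0
        norm_num
      calc _ ≤ (2 * th0) ^ K1 := h2.trans h3
        _ = (2 * th0 * 4096) ^ K1 * (1 / 4096) ^ K1 := h4
        _ ≤ _ := mul_le_mul_of_nonneg_right (h5.trans h6) h4096.le
    · positivity
  have hA : 1 / 2 * (1 / 4096 : ℝ) ^ K1 ≤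
      ‖∑' n : ℕ, ((Λ n * Jk (κ / Real.log Q) k n : ℝ) : ℂ) * cE r ψ β p n *
        (n : ℂ) ^ (-(v * Complex.I))‖ + 1 / 8 * (1 / 4096 : ℝ) ^ K1 := by
    refine (he3.trans hser).trans ?_
    exact add_le_add le_rfl hterm
  have hB := norm_sub_norm_le (∑' n : ℕ, ((Λ n * Jk (κ / Real.log Q) k n : ℝ) : ℂ) *
    cE r ψ β p n * (n : ℂ) ^ (-(v * Complex.I)))
    (PP (cE r ψ β p) (κ / Real.log Q) k K1 v)
  have hC := hB.trans htr2
  linarith

end Pool.Agent.Lib.H18Q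
end

-- from Lib.H18Q.PD
section

/-!
# Project H18Q, chunk PD: sums over the zeros
-/

open Finset

namespace Pool.Agent.Lib.H18Q

open Pool.Agent.Lib.H68T

theorem pd_mono {C0 C1 ℓ T : ℝ} {f : ℂ → ℂ} (h : LDat C0 ℓ T f) (hC : C0 ≤ C1) (hℓ : 0 < ℓ) :
    LDat C1 ℓ T f := by
  refine ⟨h.diff, h.zre, ?_, ?_⟩
  · intro lam v h1 h2 h3 s hs
    refine (h.growth lam v h1 h2 h3 s hs).trans ?_
    exact mul_le_mul_of_nonneg_right (Real.exp_le_exp.2 (mul_le_mul_of_nonneg_right hC hℓ.le))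
      (norm_nonneg _)
  · intro lam v h1 h2 h3
    refine (h.ld lam v h1 h2 h3).trans ?_
    have : 0 < lam := lt_of_lt_of_le (by positivity) h1
    exact div_le_div_of_nonneg_right hC this.le

theorem pd_ne {C0 ℓ T : ℝ} {f : ℂ → ℂ} (h : LDat C0 ℓ T f) : ∃ c, f c ≠ 0 := by
  refine ⟨2, fun h0 => ?_⟩
  have := h.zre 2 h0
  norm_num at this

theorem pd_log {Q : ℕ} (h : (2 : ℝ) ≤ Q) : 0 < Real.log Q := Real.log_pos (by linarith)

theorem Fam_Lp : ∃ C0 K : ℝ, 1 ≤ C0 ∧ ∀ Q : ℕ, K ≤ Q → Fam C0 Q Lp := by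
  obtain ⟨C0, K, h0, h⟩ := LDat_Lp
  exact ⟨C0, K, h0, fun Q hQ => ⟨fun p hp => h Q hQ p hp, fun p _ ρ hρ => hρ, fun p _ ρ => le_refl _⟩⟩

/-- The family with the exceptional zero removed: `LDat_Lp` and `LDat_dslope`; `dslope_zero`,
`od_dslope_le` of `Z0`. (`(r, ψ) ≠ p0` as `ψ ≠ 1`; `Lp ⟨r, ψ⟩ = ψ.LFunction` by `Lp_mk`.) -/
theorem Fam_Lx : ∃ C0 K : ℝ, 1 ≤ C0 ∧ ∀ Q : ℕ, K ≤ Q → ∀ (r : ℕ) [NeZero r]
    (ψ : DirichletCharacter ℂ r), r ≤ Q → ψ ≠ 1 → ∀ β : ℝ, 3 / 4 ≤ β → β < 1 →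
    ψ.LFunction (β : ℂ) = 0 → Fam C0 Q (Lx r ψ β) := by
  obtain ⟨C1, K1, h1, H1⟩ := LDat_Lp
  obtain ⟨C2, K2, h2, H2⟩ := LDat_dslope
  refine ⟨max C1 C2, max (max K1 K2) 2, h1.trans (le_max_left _ _), ?_⟩
  intro Q hQ r _ ψ hr hψ β hβ hβ1 hβ0
  have hQ1 : K1 ≤ Q := ((le_max_left _ _).trans (le_max_left _ _)).trans hQ
  have hQ2 : K2 ≤ Q := ((le_max_right _ _).trans (le_max_left _ _)).trans hQ
  have hQ3 : (2 : ℝ) ≤ Q := (le_max_right _ _).trans hQ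
  have hL := pd_log hQ3
  have hne : (⟨r, ψ⟩ : Σ r : ℕ, DirichletCharacter ℂ r) ≠ p0 := by
    intro h
    unfold p0 at h
    rw [Sigma.mk.injEq] at h
    obtain ⟨h3, h4⟩ := h
    subst h3
    exact hψ (eq_of_heq h4)
  have hLp := Lp_mk r ψ hne
  refine ⟨?_, ?_, ?_⟩
  · intro p hp
    by_cases h : p = ⟨r, ψ⟩
    · subst h
      rw [Lx_mk, hLp]
      exact pd_mono (H2 Q hQ2 r ψ hr hψ β hβ hβ1 hβ0) (le_max_right _ _) hL
    · rw [Lx_of_ne r ψ β p h]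
      exact pd_mono (H1 Q hQ1 p hp) (le_max_left _ _) hL
  · intro p hp ρ hρ
    by_cases h : p = ⟨r, ψ⟩
    · subst h
      rw [Lx_mk] at hρ
      exact dslope_zero (by rw [hLp]; exact hβ0) hρ
    · rwa [Lx_of_ne r ψ β p h] at hρ
  · intro p hp ρ
    by_cases h : p = ⟨r, ψ⟩
    · subst h
      rw [Lx_mk]
      have h5 := H1 Q hQ1 _ hp
      exact od_dslope_le h5.diff (pd_ne h5) (by rw [hLp]; exact hβ0) ρ
    · rw [Lx_of_ne r ψ β p h]

/-- Zero-free region at a good level: `zero_free_complex`, `zero_free_real`, `zero_free_zeta`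
(`lab3_Z_zero`) and `Good` for the real zeros of real characters (a zero `ρ` with `Im ρ = 0` is
`(Re ρ : ℂ)`, `Re ρ ≤ 1`). -/
theorem zero_free_good (c : ℝ) (hc : 0 < c) : ∃ c' K : ℝ, 0 < c' ∧ ∀ Q : ℕ, K ≤ Q → Good c Q →
    ∀ p ∈ PC Q, ∀ ρ : ℂ, Lp p ρ = 0 → |ρ.im| ≤ (Q : ℝ) ^ 8 →
    c' / Real.log Q ≤ 1 - ρ.re := by
  obtain ⟨c1, K1, hc1, H1⟩ := zero_free_complex
  obtain ⟨c2, K2, hc2, H2⟩ := zero_free_real
  obtain ⟨c3, K3, hc3, H3⟩ := zero_free_zeta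
  obtain ⟨C0, K4, h0, H4⟩ := LDat_Lp
  refine ⟨min (min c1 c2) (min c3 c), max (max K1 K2) (max (max K3 K4) 2),
    lt_min (lt_min hc1 hc2) (lt_min hc3 hc), ?_⟩
  intro Q hQ hG p hp ρ hρ him
  have hQ1 : K1 ≤ Q := ((le_max_left _ _).trans (le_max_left _ _)).trans hQ
  have hQ2 : K2 ≤ Q := ((le_max_right _ _).trans (le_max_left _ _)).trans hQ
  have hQ' : max (max K3 K4) 2 ≤ (Q : ℝ) := (le_max_right _ _).trans hQ
  have hQ3 : K3 ≤ Q := ((le_max_left _ _).trans (le_max_left _ _)).trans hQ'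
  have hQ4 : K4 ≤ Q := ((le_max_right _ _).trans (le_max_left _ _)).trans hQ'
  have hQ5 : (2 : ℝ) ≤ Q := (le_max_right _ _).trans hQ'
  have hL := pd_log hQ5
  have him' : |ρ.im| ≤ (Q : ℝ) ^ 12 + 1 := by
    have h1 : (Q : ℝ) ^ 8 ≤ (Q : ℝ) ^ 12 := pow_le_pow_right₀ (by linarith) (by norm_num)
    linarith
  have fin : ∀ c' : ℝ, min (min c1 c2) (min c3 c) ≤ c' → ρ.re < 1 - c' / Real.log Q →
      min (min c1 c2) (min c3 c) / Real.log Q ≤ 1 - ρ.re := by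
    intro c' h1 h2
    have h3 : min (min c1 c2) (min c3 c) / Real.log Q ≤ c' / Real.log Q :=
      div_le_div_of_nonneg_right h1 hL.le
    linarith
  have m1 : min (min c1 c2) (min c3 c) ≤ c1 := (min_le_left _ _).trans (min_le_left _ _)
  have m2 : min (min c1 c2) (min c3 c) ≤ c2 := (min_le_left _ _).trans (min_le_right _ _)
  have m3 : min (min c1 c2) (min c3 c) ≤ c3 := (min_le_right _ _).trans (min_le_left _ _)
  have m4 : min (min c1 c2) (min c3 c) ≤ c := (min_le_right _ _).trans (min_le_right _ _)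
  by_cases hp0 : p = p0
  · rw [hp0, Lp_p0] at hρ
    exact fin c3 m3 (H3 Q hQ3 ρ (lab3_Z_zero ρ hρ) him')
  · have hψ := ne_one_of_ne_p0 hp hp0
    have hre := (H4 Q hQ4 p hp).zre ρ hρ
    obtain ⟨hne, hLp⟩ := Lp_mem hp hp0
    obtain ⟨hr1, hr2, hprim⟩ := mem_PC.1 hp
    rw [hLp] at hρ
    by_cases hsq : p.2 ^ 2 = 1
    · by_cases hi : ρ.im = 0
      · have hρ' : ρ = (ρ.re : ℂ) := by
          apply Complex.ext
          · simp
          · simp [hi]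
        have h5 : ρ.re < 1 - c / Real.log Q := by
          by_contra hcon
          push Not at hcon
          rw [hρ'] at hρ
          exact hG p.1 p.2 hr2 hprim hψ hsq ρ.re hcon hre.le hρ
        exact fin c m4 h5
      · exact fin c2 m2 (H2 Q hQ2 p.1 p.2 hr2 hψ hsq ρ hρ hi him')
    · exact fin c1 m1 (H1 Q hQ1 p.1 p.2 hr2 hsq ρ hρ him')

theorem pd_exp {x : ℝ} (h0 : 0 ≤ x) (h1 : x ≤ 1) : 1 / (1 + x) ≤ Real.exp (-(x / 2)) := by
  have h2 : 1 / (1 + x) ≤ 1 - x / 2 := by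
    rw [div_le_iff₀ (by linarith)]
    nlinarith
  exact h2.trans (Real.one_sub_le_exp_neg (x / 2))

theorem pd_pow {x : ℝ} (h0 : 0 ≤ x) (h1 : x ≤ 1) (k : ℕ) :
    (1 / (1 + x)) ^ k ≤ Real.exp (-(x / 2 * k)) := by
  have h2 := pow_le_pow_left₀ (by positivity) (pd_exp h0 h1) k
  refine h2.trans (le_of_eq ?_)
  rw [← Real.exp_nat_mul]
  congr 1
  ring

theorem pd_geo (C κ : ℝ) (hC : 1 ≤ C) (hκ : C + 1 ≤ κ) (J : ℕ) :
    ∑ j ∈ Finset.range J, Real.exp (-(κ * j)) * (C * Real.exp (C * (j + 1))) ≤ 2 * C * Real.exp C := by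
  have h1 : Real.exp (-1) ≤ 1 / 2 := by
    have h2 : (2 : ℝ) ≤ Real.exp 1 := by
      have := Real.add_one_le_exp (1 : ℝ)
      linarith
    rw [Real.exp_neg, one_div]
    exact inv_anti₀ (by norm_num) h2
  have h3 : ∀ j ∈ Finset.range J, Real.exp (-(κ * j)) * (C * Real.exp (C * (j + 1))) ≤
      C * Real.exp C * (1 / 2) ^ j := by
    intro j _
    have h4 : Real.exp (-(κ * j)) * (C * Real.exp (C * (j + 1))) =
        C * Real.exp C * (Real.exp (C - κ)) ^ j := by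
      rw [← Real.exp_nat_mul]
      have : Real.exp (-(κ * j)) * (C * Real.exp (C * (j + 1))) =
          C * (Real.exp (-(κ * j)) * Real.exp (C * (j + 1))) := by ring
      rw [this, ← Real.exp_add, mul_assoc, ← Real.exp_add]
      congr 2
      ring
    rw [h4]
    apply mul_le_mul_of_nonneg_left _ (by positivity)
    exact pow_le_pow_left₀ (Real.exp_pos _).le ((Real.exp_le_exp.2 (by linarith)).trans h1) j
  calc _ ≤ ∑ j ∈ Finset.range J, C * Real.exp C * (1 / 2) ^ j := Finset.sum_le_sum h3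
    _ = C * Real.exp C * ∑ j ∈ Finset.range J, (1 / 2 : ℝ) ^ j := by rw [Finset.mul_sum]
    _ ≤ C * Real.exp C * 2 := by
        apply mul_le_mul_of_nonneg_left _ (by positivity)
        exact sum_geometric_two_le J
    _ = 2 * C * Real.exp C := by ring


end Pool.Agent.Lib.H18Q
end

-- from Lib.H18Q.E6
section

/-!
# Project H18Q, chunk E6: the detecting sum is small
-/

open Finset

namespace Pool.Agent.Lib.H18Q

open ArithmeticFunction Pool.Agent.Lib.H68T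

/-- `|PP(c_E)| ≤ C K1 η log Q`, `η = 1 - β`, for `C3 κ ≤ K1 ≤ 2 C3 κ`.

Proof. Let `lam = κ/log Q`, `x = xlo K1 lam`, `y = yhi K1 lam`; `log x = (K1 - 1) log Q/(2^20 κ) ≥
100 log Q` if `C3 ≥ 2^28`, so `x ≥ Q^100`, all primes `n ∈ PI x y` are `> Q ≥ r` and
`ψ(n) = ±1`. `|PP| ≤ ∑ log n Jk(n) |1 + ψ(n) n^(-η)|`. If `ψ(n) = -1`:
`1 - n^(-η) ≤ η log n ≤ η log y = 128 η K1/lam`, and `∑ log n Jk(n) ≤ C` (`Jk_sum`, `Λ n = log n`): at
most `C 128 η K1 log Q/κ ≤ C' η log Q` (`K1 ≤ 2 C3 κ`). If `ψ(n) = 1`: factor `≤ 2`,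
`log n Jk(n) ≤ lam log y/n = 128 K1/n` (`Jk_le`), and by `E2_primes` (between `X0 = ⌈x⌉ - 1 ≥ Q^99`
and `Y0 = ⌊y⌋`) `∑ 1/n ≤ η (2 + log (X0 Y0)) + 10 r/√X0 ≤ η (2 + 256 K1/lam) + 10 Q^(-48)`, where
`K1/lam ≤ 2 C3 log Q`, and `10 Q^(-48) ≤ Q^(-3) ≤ η` for `Q` large (`zero_elementary` in
`H68X/XSIE`: `η ≥ c/r² ≥ c/Q²`). Total `≤ 256 K1 (C'' η log Q)`. -/
theorem E6_small (C3 : ℝ) (hC3 : 2 ^ 28 ≤ C3) : ∃ C K : ℝ, 0 < C ∧ ∀ Q : ℕ, K ≤ Q →
    ∀ (r : ℕ) [NeZero r] (ψ : DirichletCharacter ℂ r), r ≤ Q → ψ ≠ 1 → ψ ^ 2 = 1 → ∀ β : ℝ,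
    7 / 8 ≤ β → β < 1 → ψ.LFunction (β : ℂ) = 0 →
    ∀ (p : Σ r : ℕ, DirichletCharacter ℂ r) (κ v : ℝ), 1 ≤ κ →
    κ ≤ th0 * Real.log Q → ∀ K1 k : ℕ, C3 * κ ≤ K1 → (K1 : ℝ) ≤ 2 * C3 * κ →
    ‖PP (cE r ψ β p) (κ / Real.log Q) k K1 v‖ ≤ C * K1 * ((1 - β) * Real.log Q) := by
  obtain ⟨CJ, hCJ, hJ⟩ := Jk_sum
  obtain ⟨c, hc, hel⟩ := H68T.zero_elementary
  refine ⟨128 * CJ + 256 * (3 + 512 * C3), max 3 (10 / c), by positivity, ?_⟩
  intro Q hQ r _ ψ hrQ hψ hψ2 β hβ hβ1 h0 p κ v hκ hκQ K1 k hK1 hK2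
  have hQ3 : (3 : ℝ) ≤ Q := (le_max_left _ _).trans hQ
  have hQc : 10 / c ≤ (Q : ℝ) := (le_max_right _ _).trans hQ
  have hQ3' : 3 ≤ Q := by exact_mod_cast hQ3
  have hQ0 : (0 : ℝ) < Q := by linarith
  have hlogQ : 1 ≤ Real.log Q := by
    rw [Real.le_log_iff_exp_le hQ0]
    exact (lt_trans Real.exp_one_lt_d9 (by norm_num)).le.trans hQ3
  obtain ⟨Lq, hLq⟩ : ∃ Lq, Lq = Real.log Q := ⟨_, rfl⟩
  rw [← hLq] at hlogQ hκQ ⊢
  have hLq0 : 0 < Lq := by linarith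
  obtain ⟨lam, hlam⟩ : ∃ lam, lam = κ / Lq := ⟨_, rfl⟩
  rw [← hlam]
  have hlam0 : 0 < lam := by rw [hlam]; positivity
  have hlamth : lam ≤ th0 := by
    rw [hlam, div_le_iff₀ hLq0]
    exact hκQ
  have hlam1 : lam ≤ 1 := hlamth.trans (by unfold th0; norm_num)
  have hil : 1 / lam ≤ Lq := by
    rw [hlam, one_div_div]
    exact div_le_self hLq0.le hκ
  obtain ⟨η, hη⟩ : ∃ η, η = 1 - β := ⟨_, rfl⟩
  rw [← hη]
  have hη0 : 0 < η := by rw [hη]; linarith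
  have hK1r : 2 ^ 28 ≤ (K1 : ℝ) := hC3.trans ((le_mul_of_one_le_right (by linarith) hκ).trans hK1)
  have hK10 : (0 : ℝ) < K1 := by linarith
  obtain ⟨x, hx⟩ : ∃ x, x = xlo K1 lam := ⟨_, rfl⟩
  obtain ⟨y, hy⟩ : ∃ y, y = yhi K1 lam := ⟨_, rfl⟩
  obtain ⟨Y, hY⟩ : ∃ Y, Y = 128 * K1 / lam := ⟨_, rfl⟩
  have hY0 : 0 < Y := by rw [hY]; positivity
  have hylog : Real.log y = Y := by rw [hy, yhi, Real.log_exp, hY]
  have hy0 : 0 < y := by rw [hy, yhi]; positivity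
  have hx0 : 0 < x := by rw [hx, xlo]; positivity
  -- x is large
  have hlogx : 100 * Lq ≤ Real.log x := by
    rw [hx, xlo, Real.log_exp, le_div_iff₀ (by positivity), hlam]
    have h1 : 100 * Lq * (2 ^ 20 * (κ / Lq)) = 100 * 2 ^ 20 * κ := by field_simp
    rw [h1]
    have h2 : 2 ^ 28 * κ ≤ K1 := (mul_le_mul_of_nonneg_right hC3 (by linarith)).trans hK1
    linarith only [h2, hκ]
  have hxQ : (Q : ℝ) ^ 100 ≤ x := by
    rw [← Real.log_le_log_iff (by positivity) hx0, Real.log_pow, ← hLq]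
    exact_mod_cast hlogx
  have hxy : x ≤ y := by
    rw [hx, hy, xlo, yhi]
    apply Real.exp_le_exp.2
    rw [div_le_div_iff₀ (by positivity) hlam0]
    have h1 : (0 : ℝ) < K1 * lam := by positivity
    linarith only [h1, hlam0]
  obtain ⟨X0, hX0⟩ : ∃ X0, X0 = ⌈x⌉₊ - 1 := ⟨_, rfl⟩
  obtain ⟨Y0, hY0'⟩ : ∃ Y0, Y0 = ⌊y⌋₊ := ⟨_, rfl⟩
  have hceil : 1 ≤ ⌈x⌉₊ := Nat.one_le_iff_ne_zero.2 (by rw [Ne, Nat.ceil_eq_zero, not_le]; exact hx0)
  have hX0r : x - 1 ≤ X0 := by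
    have h1 := Nat.le_ceil x
    have h2 : ((X0 : ℕ) : ℝ) = (⌈x⌉₊ : ℝ) - 1 := by
      rw [hX0, Nat.cast_sub hceil, Nat.cast_one]
    rw [h2]
    linarith
  have hX0x : (X0 : ℝ) ≤ x := by
    have h1 := Nat.ceil_lt_add_one hx0.le
    have h2 : ((X0 : ℕ) : ℝ) = (⌈x⌉₊ : ℝ) - 1 := by
      rw [hX0, Nat.cast_sub hceil, Nat.cast_one]
    rw [h2]
    linarith
  have hX0Y0 : X0 ≤ Y0 := by
    rw [hY0']
    exact Nat.le_floor (hX0x.trans hxy)
  have hQ99 : (Q : ℝ) ^ 99 ≤ X0 := by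
    refine le_trans ?_ hX0r
    have h1 : (Q : ℝ) ^ 100 = Q ^ 99 * Q := pow_succ _ _
    have h2 : (1 : ℝ) ≤ (Q : ℝ) ^ 99 := one_le_pow₀ (by linarith)
    have h3 := mul_le_mul_of_nonneg_left hQ3 (by linarith only [h2] : (0 : ℝ) ≤ (Q : ℝ) ^ 99)
    linarith only [h1, h2, h3, hxQ]
  have hr1 : (1 : ℝ) ≤ r := by
    have : 0 < r := Nat.pos_of_ne_zero (NeZero.ne r)
    exact_mod_cast this
  have hrQr : (r : ℝ) ≤ Q := by exact_mod_cast hrQ
  have hX0big : (4000 * r) ^ 2 ≤ X0 := by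
    have h1 : ((4000 * r) ^ 2 : ℝ) ≤ (Q : ℝ) ^ 99 := by
      have h2 : ((4000 * r) ^ 2 : ℝ) ≤ 16000000 * (Q : ℝ) ^ 2 := by
        have h5 := pow_le_pow_left₀ (by linarith only [hr1] : (0 : ℝ) ≤ r) hrQr 2
        linarith only [h5, mul_pow (4000 : ℝ) r 2]
      have h3 : (16000000 : ℝ) ≤ (Q : ℝ) ^ 97 :=
        le_trans (by norm_num) (pow_le_pow_left₀ (by norm_num) hQ3 97)
      have h4 : (Q : ℝ) ^ 99 = Q ^ 97 * Q ^ 2 := by rw [← pow_add]
      rw [h4]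
      exact h2.trans (mul_le_mul_of_nonneg_right h3 (by positivity))
    exact_mod_cast h1.trans hQ99
  have hE2 := E2_primes r ψ hψ hψ2 β (by linarith) hβ1 h0 X0 Y0 hX0big hX0Y0
  rw [← hη] at hE2
  have hX0pos : (0 : ℝ) < X0 := lt_of_lt_of_le (by positivity) hQ99
  have hY0pos : (0 : ℝ) < Y0 := lt_of_lt_of_le hX0pos (by exact_mod_cast hX0Y0)
  have hlogXY : Real.log ((X0 * Y0 : ℕ) : ℝ) ≤ 512 * C3 * Lq := by
    rw [Nat.cast_mul, Real.log_mul hX0pos.ne' hY0pos.ne']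
    have h1 : Real.log X0 ≤ Y := by
      rw [← hylog]
      exact Real.log_le_log hX0pos (hX0x.trans hxy)
    have h2 : Real.log Y0 ≤ Y := by
      rw [← hylog]
      refine Real.log_le_log hY0pos ?_
      rw [hY0']
      exact Nat.floor_le hy0.le
    have h3 : Y ≤ 256 * C3 * Lq := by
      rw [hY, hlam]
      have h4 : 128 * (K1 : ℝ) / (κ / Lq) = 128 * K1 * Lq / κ := by field_simp
      rw [h4, div_le_iff₀ (by linarith)]
      have h5 := mul_le_mul_of_nonneg_left hK2 (by positivity : 0 ≤ 128 * Lq)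
      linarith only [h5]
    linarith only [h1, h2, h3]
  have hsq : 10 * r / Real.sqrt X0 ≤ η := by
    have h1 : (Q : ℝ) ^ 49 ≤ Real.sqrt X0 := by
      apply Real.le_sqrt_of_sq_le
      refine le_trans ?_ hQ99
      rw [← pow_mul]
      exact pow_le_pow_right₀ (by linarith) (by norm_num)
    have h2 : 10 * (r : ℝ) / Real.sqrt X0 ≤ 10 * Q / (Q : ℝ) ^ 49 :=
      div_le_div₀ (by positivity) (by linarith) (by positivity) h1
    have h3 : 10 * (Q : ℝ) / (Q : ℝ) ^ 49 ≤ c / (Q : ℝ) ^ 2 := by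
      rw [div_le_div_iff₀ (by positivity) (by positivity)]
      have h4 : 10 ≤ c * Q := by
        rw [div_le_iff₀ hc] at hQc
        linarith
      have h5 : (1 : ℝ) ≤ (Q : ℝ) ^ 45 := one_le_pow₀ (by linarith)
      have h6 : c * (Q : ℝ) ^ 49 = (c * Q) * (Q ^ 45 * Q ^ 3) := by ring
      rw [h6]
      have h7 : 10 * (Q : ℝ) * Q ^ 2 = 10 * (1 * Q ^ 3) := by ring
      rw [h7]
      exact mul_le_mul h4 (mul_le_mul_of_nonneg_right h5 (by positivity)) (by positivity) (by positivity)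
    have h4 : c / (Q : ℝ) ^ 2 ≤ c / (r : ℝ) ^ 2 :=
      div_le_div_of_nonneg_left hc.le (by positivity) (pow_le_pow_left₀ (by linarith) hrQr 2)
    have h5 := hel r ψ hψ hψ2 β hβ1 h0
    rw [← hη] at h5
    linarith
  have hprimes : ∑ n ∈ (Ioc X0 Y0).filter (fun n : ℕ => n.Prime ∧ ψ (n : ZMod r) = 1), 1 / (n : ℝ) ≤
      (3 + 512 * C3) * (η * Lq) := by
    refine hE2.trans ?_
    have h1 : η * (2 + Real.log ((X0 * Y0 : ℕ) : ℝ)) ≤ η * (2 + 512 * C3 * Lq) :=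
      mul_le_mul_of_nonneg_left (by linarith) hη0.le
    have h2 : η ≤ η * Lq := le_mul_of_one_le_right hη0.le hlogQ
    linarith only [h1, h2, hsq]
  -- members of the range
  have hmem : ∀ n ∈ PI x y, n.Prime ∧ X0 < n ∧ n ≤ Y0 := by
    intro n hn
    rw [PI, Finset.mem_filter, Finset.mem_Icc] at hn
    refine ⟨hn.2, by omega, by rw [hY0']; exact hn.1.2⟩
  classical
  have hterm : ∀ n ∈ PI x y, ‖((Real.log n * Jk lam k n : ℝ) : ℂ) * cE r ψ β p n *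
      (n : ℂ) ^ (-(v * Complex.I))‖ ≤ Λ n * Jk lam k n * (η * Y) +
        (if ψ (n : ZMod r) = 1 then 256 * K1 * (1 / (n : ℝ)) else 0) := by
    intro n hn
    obtain ⟨hnp, hn1, hn2⟩ := hmem n hn
    have hnpos : 0 < n := hnp.pos
    have hn0 : (0 : ℝ) < n := by exact_mod_cast hnpos
    have hJn : 0 ≤ Jk lam k n := Jk_nonneg lam k n hlam0.le
    have hlogn : 0 ≤ Real.log n := Real.log_natCast_nonneg n
    have hlogY : Real.log n ≤ Y := by
      rw [← hylog]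
      refine Real.log_le_log hn0 ?_
      have h1 : (n : ℝ) ≤ Y0 := by exact_mod_cast hn2
      refine h1.trans ?_
      rw [hY0']
      exact Nat.floor_le hy0.le
    rw [norm_mul, norm_mul, d0_norm n hnpos v, mul_one, Complex.norm_real, Real.norm_eq_abs,
      abs_of_nonneg (mul_nonneg hlogn hJn), vonMangoldt_apply_prime hnp]
    have hcE : ‖cE r ψ β p n‖ ≤ ‖1 + ψ (n : ZMod r) * (((n : ℝ) ^ (β - 1) : ℝ) : ℂ)‖ := by
      unfold cE
      rw [norm_mul]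
      exact mul_le_of_le_one_left (norm_nonneg _) (DirichletCharacter.norm_le_one _ _)
    have hrn : (r : ℝ) < n := by
      have h1 : (X0 : ℝ) < n := by exact_mod_cast hn1
      have h2 : (Q : ℝ) ≤ (Q : ℝ) ^ 99 := le_self_pow₀ (by linarith) (by norm_num)
      linarith
    have hrn' : r < n := by exact_mod_cast hrn
    have hunit : IsUnit (n : ZMod r) := by
      rw [ZMod.isUnit_iff_coprime]
      refine (Nat.Prime.coprime_iff_not_dvd hnp).2 fun hd => ?_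
      exact absurd (Nat.le_of_dvd (Nat.pos_of_ne_zero (NeZero.ne r)) hd) (by omega)
    have hψn : ψ (n : ZMod r) = 1 ∨ ψ (n : ZMod r) = -1 := by
      have h1 : ψ (n : ZMod r) ^ 2 = 1 := by
        rw [← MulChar.pow_apply' ψ two_ne_zero, hψ2, MulChar.one_apply hunit]
      exact sq_eq_one_iff.1 h1
    have hpow : (n : ℝ) ^ (β - 1) = Real.exp (-(η * Real.log n)) := by
      rw [Real.rpow_def_of_pos hn0, hη]
      congr 1
      ring
    have hpow1 : (n : ℝ) ^ (β - 1) ≤ 1 := by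
      rw [hpow]
      exact Real.exp_le_one_iff.2 (neg_nonpos.2 (mul_nonneg hη0.le hlogn))
    have hpow0 : 1 - η * Real.log n ≤ (n : ℝ) ^ (β - 1) := by
      rw [hpow]
      have := Real.add_one_le_exp (-(η * Real.log n))
      linarith
    have hpow2 : 0 ≤ (n : ℝ) ^ (β - 1) := by positivity
    rcases hψn with h1 | h1
    · rw [if_pos h1]
      have h2 : ‖cE r ψ β p n‖ ≤ 2 := cE_norm r ψ β hβ1 p n
      have h3 := Jk_le lam k n hlam0
      have h4 : 0 ≤ Real.log n * Jk lam k n * (η * Y) := by positivity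
      have h5 : Real.log n * Jk lam k n * ‖cE r ψ β p n‖ ≤ 256 * K1 * (1 / (n : ℝ)) := by
        calc Real.log n * Jk lam k n * ‖cE r ψ β p n‖ ≤ Real.log n * Jk lam k n * 2 :=
              mul_le_mul_of_nonneg_left h2 (by positivity)
          _ ≤ Y * Jk lam k n * 2 :=
              mul_le_mul_of_nonneg_right (mul_le_mul_of_nonneg_right hlogY hJn) (by norm_num)
          _ ≤ Y * (lam / n) * 2 := by
              refine mul_le_mul_of_nonneg_right (mul_le_mul_of_nonneg_left ?_ hY0.le) (by norm_num)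
              rw [le_div_iff₀ hn0]
              linarith
          _ = 256 * K1 * (1 / (n : ℝ)) := by
              rw [hY]
              field_simp
              norm_num
      linarith
    · rw [if_neg (by rw [h1]; norm_num), add_zero, mul_assoc, mul_assoc]
      refine mul_le_mul_of_nonneg_left (mul_le_mul_of_nonneg_left (hcE.trans ?_) hJn) hlogn
      rw [h1]
      have h2 : (1 + -1 * (((n : ℝ) ^ (β - 1) : ℝ) : ℂ)) = ((1 - (n : ℝ) ^ (β - 1) : ℝ) : ℂ) := by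
        push_cast
        ring
      rw [h2, Complex.norm_real, Real.norm_eq_abs, abs_of_nonneg (by linarith)]
      have h3 : η * Real.log n ≤ η * Y := mul_le_mul_of_nonneg_left hlogY hη0.le
      linarith
  have hsum1 : ∑ n ∈ PI x y, Λ n * Jk lam k n * (η * Y) ≤ CJ * (η * Y) := by
    rw [← Finset.sum_mul]
    exact mul_le_mul_of_nonneg_right (hJ lam k _ hlam0 hlam1) (by positivity)
  have hsum2 : ∑ n ∈ PI x y, (if ψ (n : ZMod r) = 1 then 256 * K1 * (1 / (n : ℝ)) else 0) ≤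
      256 * K1 * ((3 + 512 * C3) * (η * Lq)) := by
    rw [← Finset.sum_filter, ← Finset.mul_sum]
    refine mul_le_mul_of_nonneg_left (le_trans ?_ hprimes) (by positivity)
    apply Finset.sum_le_sum_of_subset_of_nonneg
    · intro n hn
      rw [Finset.mem_filter] at hn ⊢
      obtain ⟨h1, h2, h3⟩ := hmem n hn.1
      rw [Finset.mem_Ioc]
      exact ⟨⟨h2, h3⟩, h1, hn.2⟩
    · intro n _ _
      positivity
  have hfin : ‖PP (cE r ψ β p) lam k K1 v‖ ≤ CJ * (η * Y) + 256 * K1 * ((3 + 512 * C3) * (η * Lq)) := by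
    unfold PP
    rw [← hx, ← hy]
    refine (norm_sum_le _ _).trans ((Finset.sum_le_sum hterm).trans ?_)
    rw [Finset.sum_add_distrib]
    linarith
  refine hfin.trans ?_
  have hYL : Y ≤ 128 * K1 * Lq := by
    rw [hY, mul_div_assoc, ← mul_one_div, ← mul_assoc]
    exact mul_le_mul_of_nonneg_left hil (by positivity)
  have h1 : CJ * (η * Y) ≤ CJ * (η * (128 * K1 * Lq)) :=
    mul_le_mul_of_nonneg_left (mul_le_mul_of_nonneg_left hYL hη0.le) hCJ.le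
  refine (add_le_add h1 le_rfl).trans (le_of_eq ?_)
  ring

end Pool.Agent.Lib.H18Q
end
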