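import Pool.Agent.Lib.H59M.M2.M053
import Pool.Agent.Lib.H59M.M2.M054
import Pool.Agent.Lib.H59M.M2.M058
import Pool.Agent.Lib.H59M.M2.M064

/-! Merged copies (to shorten the build) of Lib.H21T.Z4A, Lib.H21T.Z4. -/

-- from Lib.H21T.Z4A
section

/-!
# Chunk Z4A (M): the model on the minor arcs
-/

namespace Pool.Agent.Lib.H21T

open Finset Pool.Agent.SZW

/-- `m6` with `β = α`, `θ = 0`, `L = max 0 (..)` of `z2` (at most `log A2 - log A1 ≤ log 2 ≤ 1`), `ε = 24 / A1`, `B = u ^ 2` (`m1_g`, `z3_div`: `x + H ≤ u ^ 20003`; `1 + log Q ≤ 1 + log u ≤ u`),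
and `m7` with `c = 1 / u ^ 9754` (`Q ≤ u ≤ u ^ 131`, `¬ Maj`): norm at most `H * u ^ 2 * 24 / u ^ 9999 + u * u * u ^ 9754 / 2 ≤ H / (4 u)`. -/
theorem z4_model : ∃ U0 : ℝ, 1 ≤ U0 ∧ ∀ u : ℝ, U0 ≤ u → ∀ (Q A1 A2 B1 B2 x H : ℕ) (α : ℝ), 1 ≤ Q → (Q : ℝ) ≤ u → u ^ 9999 ≤ A1 →
    A1 ≤ B1 → A1 ≤ A2 → A2 ≤ 2 * A1 → B1 ≤ B2 → B2 ≤ 2 * B1 → ((A1 * B1 : ℕ) : ℝ) ≤ u ^ 20000 → A1 * B1 ≤ 2 * x → x ≤ 4 * (A1 * B1) →
    u ^ 9999 ≤ H → (H : ℝ) ≤ 3 * u ^ 9999 → ¬ Maj u α →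
    ‖∑ m ∈ Ico x (x + H), (Mbox Q A1 A2 B1 B2 m : ℂ) * ee (α * m)‖ ≤ H / (4 * u) := by
  obtain ⟨U1, hU1, hdiv⟩ := z3_div
  refine ⟨max U1 200, le_max_of_le_left hU1, ?_⟩
  intro u hu Q A1 A2 B1 B2 x H α hQ hQu hA1 hAB hA2 hA2' hB2 hB2' hN hx hx' hH hH' hMaj
  have huU : U1 ≤ u := (le_max_left _ _).trans hu
  have hu2 : (200 : ℝ) ≤ u := (le_max_right _ _).trans hu
  have hu1 : (1 : ℝ) ≤ u := by linarith
  have hu0 : (0 : ℝ) < u := by linarith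
  have hpm : ∀ {a b : ℕ}, a ≤ b → u ^ a ≤ u ^ b := fun h => pow_le_pow_right₀ hu1 h
  have hA1r : (8 : ℝ) ≤ A1 := by
    have h1 : u ^ 1 ≤ u ^ 9999 := hpm (by norm_num)
    rw [pow_one] at h1
    linarith
  have hA18 : 8 ≤ A1 := by exact_mod_cast hA1r
  have hH3 : H ≤ 3 * A1 := by
    have h1 : (H : ℝ) ≤ 3 * A1 := by linarith
    exact_mod_cast h1
  obtain ⟨L, hL⟩ : ∃ L : ℝ, L = max 0 (Real.log (min A2 (x / B1 + 1) : ℕ) -
    Real.log (max A1 (x / B2 + 1) : ℕ)) := ⟨_, rfl⟩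
  have hL0 : 0 ≤ L := by
    rw [hL]
    exact le_max_left _ _
  have hL1 : L ≤ 1 := by
    rw [hL]
    refine max_le zero_le_one ?_
    have h1 : Real.log (min A2 (x / B1 + 1) : ℕ) ≤ Real.log A2 := by
      refine Real.log_le_log ?_ ?_
      · have : 0 < min A2 (x / B1 + 1) := lt_min (by omega) (Nat.succ_pos _)
        exact_mod_cast this
      · exact_mod_cast min_le_left _ _
    have h2 : Real.log A1 ≤ Real.log (max A1 (x / B2 + 1) : ℕ) := by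
      refine Real.log_le_log (by linarith) ?_
      exact_mod_cast le_max_left _ _
    have h3 : Real.log A2 ≤ Real.log 2 + Real.log A1 := by
      rw [← Real.log_mul two_ne_zero (by linarith : (A1 : ℝ) ≠ 0)]
      refine Real.log_le_log ?_ ?_
      · have : 0 < A2 := by omega
        exact_mod_cast this
      · exact_mod_cast hA2'
    have h4 := Real.log_two_lt_d9
    linarith
  have hlogQ : 1 + Real.log Q ≤ u := by
    have h1 : Real.log Q ≤ Real.log u := Real.log_le_log (by exact_mod_cast hQ) hQu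
    have h2 : Real.log u ≤ u - 1 := Real.log_le_sub_one_of_pos hu0
    linarith
  have hlogQ0 : 0 ≤ 1 + Real.log Q := by
    have : 0 ≤ Real.log Q := Real.log_nonneg (by exact_mod_cast hQ)
    linarith
  have hxH : ((x + H : ℕ) : ℝ) ≤ u ^ 20003 := by
    have h1 : (x : ℝ) ≤ 4 * ((A1 * B1 : ℕ) : ℝ) := by exact_mod_cast hx'
    have h2 : u ^ 9999 ≤ u ^ 20000 := hpm (by norm_num)
    have h3 : (x : ℝ) + H ≤ 7 * u ^ 20000 := by linarith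
    have h4 : (7 : ℝ) * u ^ 20000 ≤ u ^ 1 * u ^ 20000 := by
      refine mul_le_mul_of_nonneg_right ?_ (by positivity)
      rw [pow_one]
      linarith
    rw [← pow_add] at h4
    have h5 : u ^ (1 + 20000) ≤ u ^ 20003 := hpm (by norm_num)
    push_cast
    linarith
  have hx1 : 1 ≤ x := by
    have h1 : 1 ≤ A1 * B1 := Nat.mul_pos (by omega) (by omega)
    omega
  have hgb : ∀ m, x ≤ m → m < x + H → |gQ Q m| ≤ u ^ 2 := by
    intro m h1 h2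
    have hm0 : 1 ≤ m := by omega
    have h3 := hdiv u huU m hm0 (by
      have : (m : ℝ) ≤ ((x + H : ℕ) : ℝ) := by exact_mod_cast h2.le
      exact this.trans hxH)
    have h4 : (m.divisors.card : ℝ) ≤ u := by
      have h5 : (m.divisors.card : ℝ) ≤ (⌊u⌋₊ : ℝ) := by exact_mod_cast h3
      exact h5.trans (Nat.floor_le hu0.le)
    refine (m1_g Q m hQ hm0).trans ?_
    rw [pow_two]
    exact mul_le_mul h4 hlogQ hlogQ0 hu0.le
  have hm6 := m6 x H α 0 L (24 / A1) (u ^ 2) (fun m => lbox A1 A2 B1 B2 m) (fun m => gQ Q m)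
    (by rw [abs_of_nonneg hL0]; exact hL1) (by positivity) (by positivity)
    (fun m h1 h2 => by
      rw [hL]
      exact z2 A1 A2 B1 B2 x H m hA18 hAB hA2 hB2 hB2' hx hH3 h1 h2) hgb
  have hm7 := m7 x H Q α (1 / u ^ 9754) hQ (by positivity) (fun d hd1 hd2 => by
    by_contra hcon
    rw [not_le] at hcon
    apply hMaj
    refine ⟨d, hd1, ?_, ?_⟩
    · have h1 : (d : ℝ) ≤ Q := by exact_mod_cast hd2
      have h2 : u ^ 1 ≤ u ^ 131 := hpm (by norm_num)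
      rw [pow_one] at h2
      linarith
    · rw [lt_div_iff₀ (by positivity)] at hcon
      exact hcon.le)
  obtain ⟨Sg, hSg⟩ : ∃ Sg : ℂ, Sg = ∑ m ∈ Ico x (x + H), (gQ Q m : ℂ) * ee (α * m) := ⟨_, rfl⟩
  rw [← hSg] at hm6 hm7
  simp only [add_zero, abs_zero, mul_zero, zero_mul] at hm6
  obtain ⟨Sm, hSm⟩ : ∃ Sm : ℂ, Sm = ∑ m ∈ Ico x (x + H),
    ((lbox A1 A2 B1 B2 m * gQ Q m : ℝ) : ℂ) * ee (α * m) := ⟨_, rfl⟩
  rw [← hSm] at hm6
  have hgoal : ∑ m ∈ Ico x (x + H), (Mbox Q A1 A2 B1 B2 m : ℂ) * ee (α * m) = Sm := by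
    rw [hSm]
    rfl
  rw [hgoal]
  have hLS : ‖(L : ℂ) * ee 0 * Sg‖ ≤ u * u * u ^ 9754 / 2 := by
    rw [norm_mul, norm_mul, norm_ee, Complex.norm_real, Real.norm_eq_abs, abs_of_nonneg hL0, mul_one]
    have h1 : L * ‖Sg‖ ≤ 1 * ‖Sg‖ := mul_le_mul_of_nonneg_right hL1 (norm_nonneg _)
    rw [one_mul] at h1
    refine h1.trans (hm7.trans ?_)
    have e : (Q : ℝ) * (1 + Real.log Q) / (2 * (1 / u ^ 9754)) =
        Q * (1 + Real.log Q) * (u ^ 9754 / 2) := by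
      field_simp
    rw [e, mul_div_assoc]
    refine mul_le_mul_of_nonneg_right ?_ (by positivity)
    exact mul_le_mul hQu hlogQ hlogQ0 hu0.le
  have h1 : ‖Sm‖ ≤ ‖Sm - (L : ℂ) * ee 0 * Sg‖ + ‖(L : ℂ) * ee 0 * Sg‖ := by
    have := norm_add_le (Sm - (L : ℂ) * ee 0 * Sg) ((L : ℂ) * ee 0 * Sg)
    rwa [sub_add_cancel] at this
  have hH0 : (0 : ℝ) ≤ H := Nat.cast_nonneg _
  have h2 : (H : ℝ) * u ^ 2 * (24 / A1) ≤ H / (8 * u) := by
    have h3 : u ^ 2 * (24 / A1) ≤ 1 / (8 * u) := by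
      rw [mul_div_assoc', div_le_div_iff₀ (by linarith) (by positivity)]
      have h4 : u ^ 4 ≤ u ^ 9999 := hpm (by norm_num)
      have h5 : u ^ 2 * 24 * (8 * u) = 192 * u ^ 3 := by ring
      have h6 : 192 * u ^ 3 ≤ u * u ^ 3 := mul_le_mul_of_nonneg_right (by linarith) (by positivity)
      have h7 : u * u ^ 3 = u ^ 4 := by ring
      rw [h5, one_mul]
      linarith
    calc (H : ℝ) * u ^ 2 * (24 / A1) = H * (u ^ 2 * (24 / A1)) := by ring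
      _ ≤ H * (1 / (8 * u)) := mul_le_mul_of_nonneg_left h3 hH0
      _ = H / (8 * u) := by ring
  have h3 : u * u * u ^ 9754 / 2 ≤ H / (8 * u) := by
    rw [div_le_div_iff₀ (by norm_num) (by positivity)]
    have e : u * u * u ^ 9754 * (8 * u) = 8 * u ^ 9757 := by
      have e1 : u ^ 9757 = u ^ 9754 * u ^ 3 := (pow_add u 9754 3)
      obtain ⟨E, hE⟩ : ∃ E, E = u ^ 9754 := ⟨_, rfl⟩
      rw [e1, ← hE]
      ring
    have h4 : 4 * u ^ 9757 ≤ u * u ^ 9757 := mul_le_mul_of_nonneg_right (by linarith) (by positivity)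
    have h5 : u * u ^ 9757 = u ^ 9758 := by
      rw [mul_comm]
      exact (pow_succ u 9757).symm
    have h6 : u ^ 9758 ≤ u ^ 9999 := hpm (by norm_num)
    rw [e]
    linarith
  have h4 : (H : ℝ) / (4 * u) = H / (8 * u) + H / (8 * u) := by
    field_simp
    ring
  rw [h4]
  linarith

end Pool.Agent.Lib.H21T
end

-- from Lib.H21T.Z4
section

/-!
# Chunk Z4 (M): minor arcs
-/

namespace Pool.Agent.Lib.H21T

open Finset Pool.Agent.SZW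

/-- The final inequality. -/
theorem z4_fin {u h : ℝ} (hu : 64 ≤ u) (hh : 64 * u ≤ h) : h / (4 * u) + 32 + h / (8 * u) ≤ h / u := by
  have hu0 : 0 < u := by linarith
  have e : h / u - (h / (4 * u) + h / (8 * u)) = 5 / 8 * (h / u) := by
    field_simp
    ring
  have h1 : 64 ≤ h / u := by
    rw [le_div_iff₀ hu0]
    exact hh
  linarith

/-- `2 (H / B + 1) (H / A + 1) ≤ 32` if `H ≤ 3 A ≤ 3 B`. -/
theorem z4_err {A B H : ℝ} (hA : 0 < A) (hAB : A ≤ B) (hH : H ≤ 3 * A) (h0 : 0 ≤ H) : 2 * ((H / B + 1) * (H / A + 1)) ≤ 32 := by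
  have hB : 0 < B := lt_of_lt_of_le hA hAB
  have h1 : H / A ≤ 3 := by
    rw [div_le_iff₀ hA]
    exact hH
  have h2 : H / B ≤ 3 := by
    rw [div_le_iff₀ hB]
    linarith
  have h3 : 0 ≤ H / A := by positivity
  have h4 : 0 ≤ H / B := by positivity
  nlinarith

/-- The position: if `x < A1 B1 / 2` then the interval is below `A1 B1`. -/
theorem z4_low {P A1 B1 x H : ℝ} (hP : 6 ≤ P) (hA : P ≤ A1) (hB : P ≤ B1) (hx : 2 * x < A1 * B1) (hH : H ≤ 3 * P) : x + H ≤ A1 * B1 := by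
  have h1 : P * P ≤ A1 * B1 := mul_le_mul hA hB (by linarith) (by linarith)
  nlinarith

theorem z4_size {u P R A B : ℝ} (hu : 1 ≤ u) (hR : R = u ^ 2 * (P * P)) (hP : 0 < P) (hA : P ≤ A) (hAB : A * B ≤ R) : A * B ≤ u ^ 2 * A ^ 2 := by
  have h1 : P * P ≤ A * A := mul_le_mul hA hA hP.le (by linarith)
  have h2 : u ^ 2 * (P * P) ≤ u ^ 2 * (A * A) := mul_le_mul_of_nonneg_left h1 (by positivity)
  calc A * B ≤ u ^ 2 * (P * P) := by rw [← hR]; exact hAB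
    _ ≤ u ^ 2 * (A * A) := h2
    _ = u ^ 2 * A ^ 2 := by rw [pow_two A]

theorem z4_sqrt {Q A B : ℝ} (hA : 0 ≤ A) (hQ : 0 ≤ Q) (hAB : A ≤ B) (h : A * B ≤ Q * Q) : A ≤ Q := by
  by_contra hcon
  have h1 : Q < A := not_le.1 hcon
  have h2 : Q * Q < A * A := mul_self_lt_mul_self hQ h1
  have h3 : A * A ≤ A * B := mul_le_mul_of_nonneg_left hAB hA
  linarith

/-- If `2 x < A1 B1` then `x + H ≤ A1 B1` (`A1 B1 ≥ u ^ 19998`) and everything vanishes (`z0_low`); if `x ≥ A2 B2` too (`z0_high`). Otherwise `x ≤ A2 B2 ≤ 4 A1 B1`,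
`A1 ^ 2 ≤ A1 B1 ≤ 2 x`, `A1 ≤ u ^ 10000`, `x ≤ 4 u ^ 20000 ≤ 4 u ^ 2 A1 ^ 2`. `z1` (error at most `2 * 4 * 4`), `z3` with `A = A1` for the modified ends, `z4_model`. -/
theorem z4 : ∃ U0 : ℝ, 1 ≤ U0 ∧ ∀ u : ℝ, U0 ≤ u → ∀ (Q A1 A2 B1 B2 x H : ℕ) (α : ℝ), 1 ≤ Q → (Q : ℝ) ≤ u → u ^ 9999 ≤ A1 →
    A1 ≤ B1 → A1 ≤ A2 → A2 ≤ 2 * A1 → B1 ≤ B2 → B2 ≤ 2 * B1 → ((A1 * B1 : ℕ) : ℝ) ≤ u ^ 20000 →
    u ^ 9999 ≤ H → (H : ℝ) ≤ 3 * u ^ 9999 → ¬ Maj u α →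
    ‖∑ m ∈ Ico x (x + H), ((dbox A1 A2 B1 B2 m : ℂ) - (Mbox Q A1 A2 B1 B2 m : ℂ)) * ee (α * m)‖ ≤ H / u := by
  obtain ⟨Ua, _, ha⟩ := z4_model
  obtain ⟨Ub, _, hb⟩ := z3
  refine ⟨max (max Ua Ub) 64, le_max_of_le_right (by norm_num), ?_⟩
  intro u hu Q A1 A2 B1 B2 x H α hQ hQu hA hAB hA12 hA2 hB12 hB2 hABu hH1 hH2 hmaj
  have hua : Ua ≤ u := ((le_max_left _ _).trans (le_max_left _ _)).trans hu
  have hub : Ub ≤ u := ((le_max_right _ _).trans (le_max_left _ _)).trans hu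
  have hu64 : (64 : ℝ) ≤ u := (le_max_right _ _).trans hu
  have hu1 : (1 : ℝ) ≤ u := by linarith
  have hu0 : (0 : ℝ) < u := by linarith
  have hp1 : 64 * u ≤ u ^ 9999 := by
    have h1 : u ^ 2 ≤ u ^ 9999 := pow_le_pow_right₀ hu1 (by norm_num)
    have h2 : 64 * u ≤ u ^ 2 := by nlinarith
    exact h2.trans h1
  have hp3 : u ^ 20000 = u ^ 2 * (u ^ 9999 * u ^ 9999) := by rw [← pow_add, ← pow_add]
  have hp4 : u ^ 20000 = u ^ 10000 * u ^ 10000 := by rw [← pow_add]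
  have hP0 : 0 < u ^ 9999 := by positivity
  have hQ0 : 0 ≤ u ^ 10000 := by positivity
  have hP6 : 6 ≤ u ^ 9999 := by linarith
  have hABr : (A1 : ℝ) ≤ B1 := by exact_mod_cast hAB
  have hA0 : (0 : ℝ) < A1 := lt_of_lt_of_le hP0 hA
  have hA1n : 1 ≤ A1 := by
    have : 0 < A1 := by exact_mod_cast hA0
    exact this
  have hB1n : 1 ≤ B1 := hA1n.trans hAB
  have hzero : (∀ m ∈ Ico x (x + H), dbox A1 A2 B1 B2 m = 0 ∧ lbox A1 A2 B1 B2 m = 0) →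
      ‖∑ m ∈ Ico x (x + H), ((dbox A1 A2 B1 B2 m : ℂ) - (Mbox Q A1 A2 B1 B2 m : ℂ)) * ee (α * m)‖ ≤ H / u := by
    intro h
    have h1 : ∑ m ∈ Ico x (x + H), ((dbox A1 A2 B1 B2 m : ℂ) - (Mbox Q A1 A2 B1 B2 m : ℂ)) * ee (α * m) = 0 := by
      refine Finset.sum_eq_zero fun m hm => ?_
      obtain ⟨h2, h3⟩ := h m hm
      unfold Mbox
      rw [h2, h3, zero_mul]
      push_cast
      ring
    rw [h1, norm_zero]
    positivity
  by_cases hlow : 2 * x < A1 * B1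
  · refine hzero fun m hm => ?_
    rw [mem_Ico] at hm
    refine z0_low hA1n hB1n ?_
    have h1 : (x : ℝ) + H ≤ A1 * B1 := z4_low hP6 hA (hA.trans hABr) (by exact_mod_cast hlow) hH2
    have h2 : x + H ≤ A1 * B1 := by exact_mod_cast h1
    omega
  by_cases hhigh : A2 * B2 ≤ x
  · refine hzero fun m hm => ?_
    rw [mem_Ico] at hm
    exact z0_high (hA1n.trans hA12) (hB1n.trans hB12) (hhigh.trans hm.1)
  have hx1 : A1 * B1 ≤ 2 * x := not_lt.1 hlow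
  have hx2 : x ≤ 4 * (A1 * B1) := by
    have h1 : A2 * B2 ≤ (2 * A1) * (2 * B1) := Nat.mul_le_mul hA2 hB2
    have h2 : (2 * A1) * (2 * B1) = 4 * (A1 * B1) := by ring
    have h3 : x < A2 * B2 := not_le.1 hhigh
    omega
  have hxpos : 1 ≤ x := by
    have : 1 ≤ A1 * B1 := Nat.mul_pos hA1n hB1n
    omega
  have hABu' : (A1 : ℝ) * B1 ≤ u ^ 20000 := by exact_mod_cast hABu
  have hAu : (A1 : ℝ) ≤ u ^ 10000 := z4_sqrt hA0.le hQ0 hABr (by rw [← hp4]; exact hABu')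
  have hA2x : A1 ^ 2 ≤ 2 * x := by
    have h1 : A1 ^ 2 ≤ A1 * B1 := by
      rw [pow_two]
      exact Nat.mul_le_mul_left _ hAB
    exact h1.trans hx1
  have hx3 : (x : ℝ) ≤ 4 * u ^ 2 * (A1 : ℝ) ^ 2 := by
    have h1 : (x : ℝ) ≤ 4 * ((A1 : ℝ) * B1) := by exact_mod_cast hx2
    have h2 := z4_size hu1 hp3 hP0 hA hABu'
    calc (x : ℝ) ≤ 4 * ((A1 : ℝ) * B1) := h1
      _ ≤ 4 * (u ^ 2 * (A1 : ℝ) ^ 2) := mul_le_mul_of_nonneg_left h2 (by norm_num)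
      _ = 4 * u ^ 2 * (A1 : ℝ) ^ 2 := by rw [mul_assoc]
  have e1 := ha u hua Q A1 A2 B1 B2 x H α hQ hQu hA hAB hA12 hA2 hB12 hB2 hABu hx1 hx2 hH1 hH2 hmaj
  have e2 := hb u hub A1 (max A1 (x / B2 + 1)) (min A2 (x / B1 + 1)) x H α hA hAu (le_max_left _ _)
    ((min_le_left _ _).trans hA2) hA2x hx3 hH1 hH2 hmaj
  have e3 := z1 A1 A2 B1 B2 x H α hA1n hB1n hB12 hxpos
  have e4 : 2 * (((H : ℝ) / B1 + 1) * ((H : ℝ) / A1 + 1)) ≤ 32 :=
    z4_err hA0 hABr (hH2.trans (by linarith)) (Nat.cast_nonneg H)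
  have e5 := z4_fin hu64 (hp1.trans hH1)
  have e6 : ∑ m ∈ Ico x (x + H), ((dbox A1 A2 B1 B2 m : ℂ) - (Mbox Q A1 A2 B1 B2 m : ℂ)) * ee (α * m) =
      (∑ m ∈ Ico x (x + H), (dbox A1 A2 B1 B2 m : ℂ) * ee (α * m) -
        SR α (max A1 (x / B2 + 1)) (min A2 (x / B1 + 1)) x H) +
      SR α (max A1 (x / B2 + 1)) (min A2 (x / B1 + 1)) x H -
      ∑ m ∈ Ico x (x + H), (Mbox Q A1 A2 B1 B2 m : ℂ) * ee (α * m) := by
    rw [sub_add_cancel, ← Finset.sum_sub_distrib]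
    refine Finset.sum_congr rfl fun m _ => ?_
    ring
  rw [e6]
  refine (norm_sub_le _ _).trans ((add_le_add_left (norm_add_le _ _) _).trans ?_)
  linarith

end Pool.Agent.Lib.H21T
end
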