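import Mathlib
import Pool.Agent.Lib.H59M.M2.D_H59_SchinzelDefs
import Pool.Agent.Lib.H59M.M2.M001
import Pool.Agent.Lib.H59M.M2.M005
import Pool.Agent.Lib.H59M.M2.M006
import Pool.Agent.Lib.H59M.M2.M014
import Pool.Agent.Lib.H59M.M2.M016
import Pool.Agent.Lib.H59M.M2.M021
import Pool.Agent.Lib.H59M.M2.M023
import Pool.Agent.Lib.H59M.M2.M025
import Pool.Agent.Lib.H59M.M2.M026
import Pool.Agent.Lib.H59M.M2.M029
import Pool.Agent.Lib.H59M.M2.M031
import Pool.Agent.Lib.H59M.M2.M035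
import Pool.Agent.Lib.H59M.M2.M039
import Pool.Agent.Lib.H59M.M2.M040
import Pool.Agent.Lib.H59M.M2.M041
import Pool.Agent.Lib.H59M.M2.M047
import Pool.Agent.Lib.H59M.M2.M072
import Pool.Agent.Lib.H59M.M2.M073

/-! Merged copies (to shorten the build) of Lib.H68T.BA1, Lib.H33B.V2, Lib.H33B.V4, Lib.H57S.S3, Lib.H57S.S4, Lib.H57M.Q1, Lib.H59X.Defs. -/

-- from Lib.H68T.BA1
section

/-!
# Chunk BA1; part of BA: primes in a class modulo `W`: mean and pair correlations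
-/

open Finset

namespace Pool.Agent.Lib.H68T

theorem BA1_e_add (x y : ℝ) : e (x + y) = e x * e y := by
  unfold e
  rw [← Complex.exp_add]
  congr 1
  push_cast
  ring

theorem BA1_norm_e (x : ℝ) : ‖e x‖ = 1 := by
  unfold e
  have h : (2 * (Real.pi : ℂ) * (x : ℂ) * Complex.I) = ((2 * Real.pi * x : ℝ) : ℂ) * Complex.I := by
    push_cast; ring
  rw [h, Complex.norm_exp_ofReal_mul_I]

theorem BA1_e_pow (x : ℝ) (n : ℕ) : e x ^ n = e (n * x) := by
  unfold e
  rw [← Complex.exp_nat_mul]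
  congr 1
  push_cast
  ring

theorem BA1_e_int (k : ℤ) : e (k : ℝ) = 1 := by
  unfold e
  rw [Complex.exp_eq_one_iff]
  exact ⟨k, by push_cast; ring⟩

theorem BA1_e_eq_one {x : ℝ} (h : e x = 1) : ∃ k : ℤ, x = k := by
  unfold e at h
  rw [Complex.exp_eq_one_iff] at h
  obtain ⟨n, hn⟩ := h
  refine ⟨n, ?_⟩
  have h2 : (2 * (Real.pi : ℂ) * Complex.I) ≠ 0 := Complex.two_pi_I_ne_zero
  have h3 : (x : ℂ) * (2 * (Real.pi : ℂ) * Complex.I) = (n : ℂ) * (2 * (Real.pi : ℂ) * Complex.I) := by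
    rw [← hn]; ring
  have h4 := mul_right_cancel₀ h2 h3
  exact_mod_cast h4

/-- Detection of divisibility by additive characters. -/
theorem BA1_detect (W : ℕ) (hW : 0 < W) (k : ℤ) :
    ∑ j ∈ range W, e ((j : ℝ) * ((k : ℝ) / W)) = if (W : ℤ) ∣ k then (W : ℂ) else 0 := by
  have hW' : (W : ℝ) ≠ 0 := by exact_mod_cast hW.ne'
  split_ifs with h
  · obtain ⟨t, rfl⟩ := h
    have : ∀ j ∈ range W, e ((j : ℝ) * ((((W : ℤ) * t : ℤ) : ℝ) / W)) = 1 := by
      intro j _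
      have h1 : (j : ℝ) * ((((W : ℤ) * t : ℤ) : ℝ) / W) = (((j : ℤ) * t : ℤ) : ℝ) := by
        push_cast
        field_simp
      rw [h1, BA1_e_int]
    rw [sum_congr rfl this]
    simp
  · have hne : e ((k : ℝ) / W) ≠ 1 := by
      intro h1
      obtain ⟨t, ht⟩ := BA1_e_eq_one h1
      apply h
      refine ⟨t, ?_⟩
      rw [div_eq_iff hW'] at ht
      have : (k : ℝ) = ((W : ℤ) * t : ℤ) := by rw [ht]; push_cast; ring
      exact_mod_cast this
    have h2 : ∀ j ∈ range W, e ((j : ℝ) * ((k : ℝ) / W)) = e ((k : ℝ) / W) ^ j := by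
      intro j _
      rw [BA1_e_pow]
    rw [sum_congr rfl h2, geom_sum_eq hne, BA1_e_pow]
    have h3 : (W : ℝ) * ((k : ℝ) / W) = ((k : ℤ) : ℝ) := by field_simp
    rw [h3, BA1_e_int]
    simp

/-- A sum along a progression as a combination of twisted sums over an interval. -/
theorem BA1_prog (u : ℤ → ℂ) (W M : ℕ) (hW : 0 < W) (a : ℤ) (θ : ℝ) :
    (W : ℂ) * ∑ c ∈ range M, u (a + W * c) * e (c * θ) =
      ∑ j ∈ range W, e (-(a : ℝ) * ((j + θ) / W)) *
        ∑ m ∈ Ico a (a + W * M), u m * e (m * ((j + θ) / W)) := by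
  have hW' : (W : ℝ) ≠ 0 := by exact_mod_cast hW.ne'
  have hWi : (0 : ℤ) < W := by exact_mod_cast hW
  have h1 : ∀ j ∈ range W, e (-(a : ℝ) * ((j + θ) / W)) *
        ∑ m ∈ Ico a (a + W * M), u m * e (m * ((j + θ) / W)) =
      ∑ m ∈ Ico a (a + W * M), u m * e (((m - a : ℤ) : ℝ) / W * θ) *
        e ((j : ℝ) * (((m - a : ℤ) : ℝ) / W)) := by
    intro j _
    rw [mul_sum]
    refine sum_congr rfl fun m _ => ?_
    have : e (-(a : ℝ) * ((j + θ) / W)) * e (m * ((j + θ) / W)) =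
        e (((m - a : ℤ) : ℝ) / W * θ) * e ((j : ℝ) * (((m - a : ℤ) : ℝ) / W)) := by
      rw [← BA1_e_add, ← BA1_e_add]
      congr 1
      push_cast
      field_simp
      ring
    calc e (-(a : ℝ) * ((j + θ) / W)) * (u m * e (m * ((j + θ) / W)))
        = u m * (e (-(a : ℝ) * ((j + θ) / W)) * e (m * ((j + θ) / W))) := by ring
      _ = _ := by rw [this]; ring
  rw [sum_congr rfl h1, sum_comm]
  have h2 : ∀ m ∈ Ico a (a + W * M), ∑ j ∈ range W, u m * e (((m - a : ℤ) : ℝ) / W * θ) *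
        e ((j : ℝ) * (((m - a : ℤ) : ℝ) / W)) =
      if (W : ℤ) ∣ m - a then (W : ℂ) * (u m * e (((m - a : ℤ) : ℝ) / W * θ)) else 0 := by
    intro m _
    rw [← mul_sum, BA1_detect W hW (m - a)]
    split_ifs <;> ring
  rw [sum_congr rfl h2, ← sum_filter, mul_sum]
  refine sum_bij (fun c _ => a + W * c) ?_ ?_ ?_ ?_
  · intro c hc
    rw [mem_range] at hc
    rw [mem_filter, mem_Ico]
    refine ⟨⟨?_, ?_⟩, ?_⟩
    · have : (0 : ℤ) ≤ W * c := by positivity
      linarith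
    · have : (c : ℤ) < M := by exact_mod_cast hc
      have := mul_lt_mul_of_pos_left this hWi
      linarith
    · simp
  · intro c _ c' _ h
    have h1 : (W : ℤ) * c = W * c' := by linarith
    have h2 := mul_left_cancel₀ hWi.ne' h1
    exact_mod_cast h2
  · intro m hm
    rw [mem_filter, mem_Ico] at hm
    obtain ⟨⟨hm1, hm2⟩, t, ht⟩ := hm
    have ht0 : 0 ≤ t := by
      by_contra hneg
      push Not at hneg
      have : (W : ℤ) * t < 0 := mul_neg_of_pos_of_neg hWi hneg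
      linarith
    have htM : t < M := by
      have h3 : (W : ℤ) * t < W * M := by linarith
      exact lt_of_mul_lt_mul_left h3 hWi.le
    refine ⟨t.toNat, ?_, ?_⟩
    · rw [mem_range]
      omega
    · have : ((t.toNat : ℕ) : ℤ) = t := Int.toNat_of_nonneg ht0
      rw [this]
      linarith
  · intro c _
    have : (((a + W * c - a : ℤ) : ℝ) / W * θ) = c * θ := by
      push_cast
      field_simp
      ring
    rw [this]


end Pool.Agent.Lib.H68T
end

-- from Lib.H33B.V2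
section

/-!
# Chunk V2: the correlations in mean square
-/

open Finset

namespace Pool.Agent.Lib.H33B

open Pool.Agent.Lib.H68T (e BA1_e_add BA1_norm_e BA1_e_int BA1_detect)

theorem V2_conj (x : ℝ) : (starRingEnd ℂ) (e x) = e (-x) := by
  unfold e
  rw [← Complex.exp_conj]
  congr 1
  simp only [map_mul, Complex.conj_ofReal, Complex.conj_I, map_ofNat, Complex.ofReal_neg]
  ring

theorem V2_sq (u : ℤ → ℝ) (s : Finset ℤ) (x : ℝ) :
    ((‖∑ m ∈ s, (u m : ℂ) * e (m * x)‖ ^ 2 : ℝ) : ℂ) =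
      ∑ m ∈ s, ∑ m' ∈ s, ((u m * u m' : ℝ) : ℂ) * e ((m - m') * x) := by
  have h1 : ((‖∑ m ∈ s, (u m : ℂ) * e (m * x)‖ ^ 2 : ℝ) : ℂ) =
      (∑ m ∈ s, (u m : ℂ) * e (m * x)) * (starRingEnd ℂ) (∑ m ∈ s, (u m : ℂ) * e (m * x)) := by
    rw [Complex.mul_conj', Complex.ofReal_pow]
  rw [h1, map_sum, Finset.sum_mul_sum]
  refine Finset.sum_congr rfl fun m _ => Finset.sum_congr rfl fun m' _ => ?_
  rw [map_mul, Complex.conj_ofReal, V2_conj]
  have h2 : ((m : ℝ) - m') * x = m * x + -(m' * x) := by ring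
  rw [h2, BA1_e_add]
  push_cast
  ring

/-- The finite Bessel inequality. -/
theorem V2_bessel (P : ℕ) (hP : 0 < P) (a : ℕ → ℝ) (M : ℤ) :
    ∑ i ∈ range P, ‖∑ j ∈ range P, (a j : ℂ) * e (j * (((i : ℤ) - M : ℤ) / P))‖ ^ 2 =
      P * ∑ j ∈ range P, a j ^ 2 := by
  have hP' : (P : ℝ) ≠ 0 := by exact_mod_cast hP.ne'
  have h1 : ((∑ i ∈ range P, ‖∑ j ∈ range P, (a j : ℂ) * e (j * (((i : ℤ) - M : ℤ) / P))‖ ^ 2 : ℝ) :
      ℂ) = ((P * ∑ j ∈ range P, a j ^ 2 : ℝ) : ℂ) := by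
    rw [Complex.ofReal_sum]
    have h2 : ∀ i ∈ range P,
        ((‖∑ j ∈ range P, (a j : ℂ) * e (j * (((i : ℤ) - M : ℤ) / P))‖ ^ 2 : ℝ) : ℂ) =
        ∑ j ∈ range P, ∑ j' ∈ range P, ((a j * a j' : ℝ) : ℂ) *
          (e (((j : ℝ) - j') * (-M / P)) * e ((i : ℝ) * ((((j : ℤ) - j' : ℤ) : ℝ) / P))) := by
      intro i _
      have h3 : ∑ j ∈ range P, (a j : ℂ) * e (j * (((i : ℤ) - M : ℤ) / P)) =
          ∑ m ∈ (range P).image (fun j : ℕ => (j : ℤ)), ((a m.toNat : ℝ) : ℂ) *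
            e ((m : ℝ) * (((i : ℤ) - M : ℤ) / P)) := by
        rw [Finset.sum_image (fun x _ y _ h => by simpa using h)]
        simp
      rw [h3, V2_sq (fun m => a m.toNat), Finset.sum_image (fun x _ y _ h => by simpa using h)]
      refine Finset.sum_congr rfl fun j _ => ?_
      rw [Finset.sum_image (fun x _ y _ h => by simpa using h)]
      refine Finset.sum_congr rfl fun j' _ => ?_
      rw [← BA1_e_add]
      simp only [Int.toNat_natCast]
      congr 2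
      push_cast
      ring
    rw [Finset.sum_congr rfl h2, Finset.sum_comm]
    have h4 : ∀ j ∈ range P, ∑ i ∈ range P, ∑ j' ∈ range P, ((a j * a j' : ℝ) : ℂ) *
          (e (((j : ℝ) - j') * (-M / P)) * e ((i : ℝ) * ((((j : ℤ) - j' : ℤ) : ℝ) / P))) =
          ((a j ^ 2 : ℝ) : ℂ) * P := by
      intro j hj
      rw [Finset.sum_comm]
      rw [Finset.sum_eq_single_of_mem j hj]
      · have h5 : ∀ i ∈ range P, ((a j * a j : ℝ) : ℂ) *
          (e (((j : ℝ) - j) * (-M / P)) * e ((i : ℝ) * ((((j : ℤ) - j : ℤ) : ℝ) / P))) =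
            ((a j ^ 2 : ℝ) : ℂ) := by
          intro i _
          have h6 : e 0 = 1 := by
            have := BA1_e_int 0
            simpa using this
          simp only [sub_self, zero_mul, Int.cast_zero, zero_div, mul_zero, h6, mul_one]
          congr 1
          ring
        rw [Finset.sum_congr rfl h5, Finset.sum_const, Finset.card_range, nsmul_eq_mul, mul_comm]
      · intro j' hj' hne
        rw [← Finset.mul_sum, ← Finset.mul_sum, BA1_detect P hP, if_neg, mul_zero, mul_zero]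
        rintro ⟨t, ht⟩
        rw [Finset.mem_range] at hj hj'
        have h7 : |(j : ℤ) - j'| < P := by
          rw [abs_lt]
          constructor <;> omega
        rw [ht, abs_mul] at h7
        have h8 : |(P : ℤ)| = P := abs_of_nonneg (by positivity)
        rw [h8] at h7
        have h9 : |t| < 1 := by
          by_contra h
          have : (P : ℤ) * 1 ≤ P * |t| := mul_le_mul_of_nonneg_left (not_lt.1 h) (by positivity)
          omega
        have h10 : t = 0 := Int.abs_lt_one_iff.1 h9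
        rw [h10, mul_zero] at ht
        apply hne
        omega
    rw [Finset.sum_congr rfl h4, ← Finset.sum_mul, mul_comm, ← Complex.ofReal_sum]
    push_cast
    rfl
  exact_mod_cast h1

/-- **Parseval.** Let `P = 4M + 4`, `U(j) = ∑_m u(m) e(m j/P)`, `0 ≤ j < P`. Orthogonality
(`H68T.BA1_detect`) gives `P cor(d) = ∑_j |U(j)|^2 e(-d j/P)` for `|d| ≤ M` (up to the sign of `d`)
and for all `|d| ≤ 2M` (there `cor = 0` for `|d| ≥ M`), and
`P ∑_{d ∈ [-M, M]} cor(d)^2 ≤ ∑_j |U(j)|^4 ≤ S^2 ∑_j |U(j)|^2 = S^2 P ∑ u(m)^2`. Everything is a finite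
computation with `∑_{j < P} e(j k/P) = P` if `P ∣ k` and `0` otherwise. -/
theorem cor_l2 (u : ℤ → ℝ) (M : ℕ) (hu : ∀ m, m ∉ Icc (1 : ℤ) M → u m = 0) (S : ℝ)
    (hS : ∀ θ : ℝ, ‖∑ m ∈ Icc (1 : ℤ) M, (u m : ℂ) * e (m * θ)‖ ≤ S) :
    ∑ d ∈ Icc (-(M : ℤ)) M, (cor u M d) ^ 2 ≤ S ^ 2 * ∑ m ∈ Icc (1 : ℤ) M, u m ^ 2 := by
  obtain ⟨P, hP⟩ : ∃ P : ℕ, P = 4 * M + 4 := ⟨_, rfl⟩
  have hP0 : 0 < P := by omega
  have hP0' : (0 : ℝ) < P := by exact_mod_cast hP0
  set a : ℕ → ℝ := fun j => ‖∑ m ∈ Icc (1 : ℤ) M, (u m : ℂ) * e (m * (j / P))‖ ^ 2 with ha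
  have key : ∀ d : ℤ, |d| ≤ M → ∑ j ∈ range P, (a j : ℂ) * e (j * ((d : ℝ) / P)) =
      P * ((cor u M d : ℝ) : ℂ) := by
    intro d hd
    have h1 : ∀ j ∈ range P, (a j : ℂ) * e (j * ((d : ℝ) / P)) =
        ∑ m ∈ Icc (1 : ℤ) M, ∑ m' ∈ Icc (1 : ℤ) M, ((u m * u m' : ℝ) : ℂ) *
          e ((j : ℝ) * (((m - m' + d : ℤ) : ℝ) / P)) := by
      intro j _
      simp only [ha]
      rw [V2_sq, Finset.sum_mul]
      refine Finset.sum_congr rfl fun m _ => ?_
      rw [Finset.sum_mul]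
      refine Finset.sum_congr rfl fun m' _ => ?_
      rw [mul_assoc, ← BA1_e_add]
      congr 2
      push_cast
      ring
    rw [Finset.sum_congr rfl h1, Finset.sum_comm]
    have h2 : ∀ m ∈ Icc (1 : ℤ) M, ∑ j ∈ range P, ∑ m' ∈ Icc (1 : ℤ) M, ((u m * u m' : ℝ) : ℂ) *
          e ((j : ℝ) * (((m - m' + d : ℤ) : ℝ) / P)) = P * ((u m * u (m + d) : ℝ) : ℂ) := by
      intro m hm
      rw [Finset.sum_comm]
      have h3 : ∀ m' ∈ Icc (1 : ℤ) M, ∑ j ∈ range P, ((u m * u m' : ℝ) : ℂ) *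
          e ((j : ℝ) * (((m - m' + d : ℤ) : ℝ) / P)) =
          if m' = m + d then P * ((u m * u m' : ℝ) : ℂ) else 0 := by
        intro m' hm'
        rw [← Finset.mul_sum, BA1_detect P hP0]
        rw [Finset.mem_Icc] at hm hm'
        have h4 : ((P : ℤ) ∣ m - m' + d) ↔ m' = m + d := by
          constructor
          · rintro ⟨t, ht⟩
            have h7 : |m - m' + d| < P := by
              rw [abs_le] at hd
              rw [abs_lt]
              constructor <;> omega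
            rw [ht, abs_mul] at h7
            have h8 : |(P : ℤ)| = P := abs_of_nonneg (by positivity)
            rw [h8] at h7
            have h9 : |t| < 1 := by
              by_contra h
              have : (P : ℤ) * 1 ≤ P * |t| := mul_le_mul_of_nonneg_left (not_lt.1 h) (by positivity)
              omega
            have h10 : t = 0 := Int.abs_lt_one_iff.1 h9
            rw [h10, mul_zero] at ht
            omega
          · intro h
            rw [h]
            simp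
        by_cases h5 : m' = m + d
        · rw [if_pos (h4.2 h5), if_pos h5, mul_comm]
        · rw [if_neg (fun h => h5 (h4.1 h)), if_neg h5, mul_zero]
      rw [Finset.sum_congr rfl h3, Finset.sum_ite_eq']
      by_cases h6 : m + d ∈ Icc (1 : ℤ) M
      · rw [if_pos h6]
      · rw [if_neg h6, hu _ h6]
        simp
    rw [Finset.sum_congr rfl h2, ← Finset.mul_sum, ← Complex.ofReal_sum]
    rfl
  have h0 : ∑ j ∈ range P, a j = P * ∑ m ∈ Icc (1 : ℤ) M, u m ^ 2 := by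
    have h1 := key 0 (by simp)
    have h6 : e 0 = 1 := by
      have := BA1_e_int 0
      simpa using this
    simp only [Int.cast_zero, zero_div, mul_zero, h6, mul_one] at h1
    have h2 : cor u M 0 = ∑ m ∈ Icc (1 : ℤ) M, u m ^ 2 := by
      unfold cor
      refine Finset.sum_congr rfl fun m _ => ?_
      rw [add_zero]
      ring
    rw [h2] at h1
    exact_mod_cast h1
  have hb := V2_bessel P hP0 a (M : ℤ)
  have hsub : (P : ℝ) ^ 2 * ∑ d ∈ Icc (-(M : ℤ)) M, (cor u M d) ^ 2 ≤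
      ∑ i ∈ range P, ‖∑ j ∈ range P, (a j : ℂ) * e (j * (((i : ℤ) - (M : ℤ) : ℤ) / P))‖ ^ 2 := by
    have h1 : (P : ℝ) ^ 2 * ∑ d ∈ Icc (-(M : ℤ)) M, (cor u M d) ^ 2 =
        ∑ d ∈ Icc (-(M : ℤ)) M, ‖∑ j ∈ range P, (a j : ℂ) * e (j * ((d : ℝ) / P))‖ ^ 2 := by
      rw [Finset.mul_sum]
      refine Finset.sum_congr rfl fun d hd => ?_
      rw [Finset.mem_Icc] at hd
      rw [key d (abs_le.2 hd), norm_mul, Complex.norm_real, Complex.norm_natCast, mul_pow,
        Real.norm_eq_abs, sq_abs]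
    rw [h1]
    have h2 : ∑ i ∈ range P, ‖∑ j ∈ range P, (a j : ℂ) * e (j * (((i : ℤ) - (M : ℤ) : ℤ) / P))‖ ^ 2 =
        ∑ d ∈ (range P).image (fun i : ℕ => (i : ℤ) - (M : ℤ)),
          ‖∑ j ∈ range P, (a j : ℂ) * e (j * ((d : ℝ) / P))‖ ^ 2 := by
      rw [Finset.sum_image (fun x _ y _ h => by
        have h3 : (x : ℤ) - M = y - M := h
        omega)]
    rw [h2]
    refine Finset.sum_le_sum_of_subset_of_nonneg ?_ fun _ _ _ => sq_nonneg _
    intro d hd
    rw [Finset.mem_Icc] at hd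
    refine Finset.mem_image.2 ⟨(d + M).toNat, ?_, ?_⟩
    · rw [Finset.mem_range]
      omega
    · omega
  have h3 : ∑ j ∈ range P, a j ^ 2 ≤ S ^ 2 * (P * ∑ m ∈ Icc (1 : ℤ) M, u m ^ 2) := by
    rw [← h0, Finset.mul_sum]
    refine Finset.sum_le_sum fun j _ => ?_
    have h4 : 0 ≤ a j := sq_nonneg _
    have h5 : a j ≤ S ^ 2 := pow_le_pow_left₀ (norm_nonneg _) (hS _) 2
    rw [sq (a j)]
    exact mul_le_mul_of_nonneg_right h5 h4
  rw [hb] at hsub
  have h4 : (P : ℝ) ^ 2 * ∑ d ∈ Icc (-(M : ℤ)) M, (cor u M d) ^ 2 ≤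
      (P : ℝ) ^ 2 * (S ^ 2 * ∑ m ∈ Icc (1 : ℤ) M, u m ^ 2) := by
    refine hsub.trans ?_
    have := mul_le_mul_of_nonneg_left h3 hP0'.le
    calc _ ≤ _ := this
      _ = _ := by ring
  exact le_of_mul_le_mul_left h4 (by positivity)

end Pool.Agent.Lib.H33B
end

-- from Lib.H33B.V4
section

/-!
# Chunk V4: the correlations over products `c h_1 ⋯ h_k`
-/

open Finset

namespace Pool.Agent.Lib.H33B

open Pool.Agent.Lib.H68T (e)

theorem V4_abs (u : ℤ → ℝ) (M : ℕ) (hu : ∀ m, m ∉ Icc (1 : ℤ) M → u m = 0) (d : ℤ) :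
    cor u M d = cor u M |d| := by
  rcases abs_cases d with ⟨h, _⟩ | ⟨h, _⟩
  · rw [h]
  · rw [h, cor_neg u M hu]

/-- Cauchy-Schwarz over the products. -/
theorem V4_cs (φ : ℕ → ℝ) (B : ℝ) (k X : ℕ) (hX : 1 ≤ X)
    (hB : ∀ T : Finset ℕ, (∀ t ∈ T, 1 ≤ t) → ∑ t ∈ T, φ t ^ 2 ≤ B ^ 2) (hB0 : 0 ≤ B) :
    ∑ g ∈ Fintype.piFinset (fun _ : Fin k => Icc 1 X), φ (∏ i, g i) ≤
      Real.sqrt ((X : ℝ) ^ k * (1 + Real.log X) ^ (k ^ 2)) * B := by
  classical
  set A := Fintype.piFinset (fun _ : Fin k => Icc 1 X) with hA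
  set T := A.image (fun g : Fin k → ℕ => ∏ i, g i) with hT
  set r : ℕ → ℝ := fun t => ((A.filter (fun g : Fin k → ℕ => ∏ i, g i = t)).card : ℝ) with hr
  have hmaps : ∀ g ∈ A, (∏ i, g i) ∈ T := fun g hg => Finset.mem_image_of_mem _ hg
  have h1 : ∑ g ∈ A, φ (∏ i, g i) = ∑ t ∈ T, r t * φ t := by
    rw [← Finset.sum_fiberwise_of_maps_to hmaps]
    refine Finset.sum_congr rfl fun t _ => ?_
    have h2 : ∀ g ∈ A.filter (fun g : Fin k → ℕ => ∏ i, g i = t), φ (∏ i, g i) = φ t := by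
      intro g hg
      rw [(Finset.mem_filter.1 hg).2]
    rw [Finset.sum_congr rfl h2, Finset.sum_const, nsmul_eq_mul]
  have h3 : ∑ t ∈ T, r t ^ 2 ≤ (X : ℝ) ^ k * (1 + Real.log X) ^ (k ^ 2) := by
    have h4 := prod_energy k X hX
    have h5 : (((A ×ˢ A).filter
        (fun p : (Fin k → ℕ) × (Fin k → ℕ) => ∏ i, p.1 i = ∏ i, p.2 i)).card : ℝ) =
        ∑ t ∈ T, r t ^ 2 := by
      have hm : ∀ p ∈ (A ×ˢ A).filter
          (fun p : (Fin k → ℕ) × (Fin k → ℕ) => ∏ i, p.1 i = ∏ i, p.2 i), (∏ i, p.1 i) ∈ T := by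
        intro p hp
        exact hmaps _ (Finset.mem_product.1 (Finset.mem_filter.1 hp).1).1
      rw [Finset.card_eq_sum_card_fiberwise hm]
      push_cast
      refine Finset.sum_congr rfl fun t _ => ?_
      have h6 : ((A ×ˢ A).filter
          (fun p : (Fin k → ℕ) × (Fin k → ℕ) => ∏ i, p.1 i = ∏ i, p.2 i)).filter
            (fun p => ∏ i, p.1 i = t) = (A.filter (fun g : Fin k → ℕ => ∏ i, g i = t)) ×ˢ
              (A.filter (fun g : Fin k → ℕ => ∏ i, g i = t)) := by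
        ext p
        simp only [Finset.mem_filter, Finset.mem_product]
        constructor
        · rintro ⟨⟨⟨a1, a2⟩, a3⟩, a4⟩
          exact ⟨⟨a1, a4⟩, a2, a3 ▸ a4⟩
        · rintro ⟨⟨a1, a4⟩, a2, a3⟩
          exact ⟨⟨⟨a1, a2⟩, a4.trans a3.symm⟩, a4⟩
      rw [h6, Finset.card_product]
      push_cast
      simp only [hr]
      ring
    rw [← h5]
    exact h4
  have hT1 : ∀ t ∈ T, 1 ≤ t := by
    intro t ht
    obtain ⟨g, hg, rfl⟩ := Finset.mem_image.1 ht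
    rw [hA, Fintype.mem_piFinset] at hg
    exact Nat.one_le_iff_ne_zero.2 (Finset.prod_ne_zero_iff.2 fun i _ => by
      have := (Finset.mem_Icc.1 (hg i)).1
      omega)
  rw [h1]
  have h7 : (∑ t ∈ T, r t * φ t) ^ 2 ≤ ((X : ℝ) ^ k * (1 + Real.log X) ^ (k ^ 2)) * B ^ 2 :=
    (Finset.sum_mul_sq_le_sq_mul_sq _ _ _).trans
      (mul_le_mul h3 (hB T hT1) (Finset.sum_nonneg fun _ _ => sq_nonneg _)
        (le_trans (Finset.sum_nonneg fun _ _ => sq_nonneg _) h3))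
  have h8 : Real.sqrt ((X : ℝ) ^ k * (1 + Real.log X) ^ (k ^ 2)) * B =
      Real.sqrt (((X : ℝ) ^ k * (1 + Real.log X) ^ (k ^ 2)) * B ^ 2) := by
    rw [Real.sqrt_mul' _ (sq_nonneg B), Real.sqrt_sq hB0]
  rw [h8]
  exact Real.le_sqrt_of_sq_le h7

/-- The `h` with some `h_i = 0`: at most `k (2X)^(k-1)`, each term at most `E` (`cor_le`). The others:
`2^k` sign patterns, `cor` is even (`cor_neg`), so their sum is at most
`2^k ∑_{h ∈ [1,X]^k} |cor(c ∏ h_i)| = 2^k ∑_{t ≥ 1} r(t) |cor(c t)|`, `r(t) = #{h ∈ [1,X]^k : ∏ h_i = t}`.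
Cauchy-Schwarz: `∑ r(t)^2` is the left side of `prod_energy`, and `∑_{t ≥ 1} cor(c t)^2 ≤
∑_{d ∈ [-M,M]} cor(d)^2 ≤ S^2 E` (`c ≠ 0`, so the `c t` are different; `cor d = 0` for `|d| ≥ M`;
`cor_l2`). -/
theorem hsum (u : ℤ → ℝ) (M : ℕ) (hu : ∀ m, m ∉ Icc (1 : ℤ) M → u m = 0) (E S : ℝ)
    (hE0 : 0 < E) (hE : ∑ m ∈ Icc (1 : ℤ) M, u m ^ 2 ≤ E) (hS0 : 0 ≤ S)
    (hS : ∀ θ : ℝ, ‖∑ m ∈ Icc (1 : ℤ) M, (u m : ℂ) * e (m * θ)‖ ≤ S) (k X : ℕ) (hk : 1 ≤ k)
    (hX : 1 ≤ X) (c : ℤ) (hc : c ≠ 0) :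
    ∑ h ∈ Fintype.piFinset (fun _ : Fin k => Ioo (-(X : ℤ)) X), |cor u M (c * ∏ i, h i)| ≤
      k * (2 * X) ^ (k - 1) * E +
        2 ^ k * (Real.sqrt ((X : ℝ) ^ k * (1 + Real.log X) ^ (k ^ 2)) * (S * Real.sqrt E)) := by
  classical
  set Z := Fintype.piFinset (fun _ : Fin k => Ioo (-(X : ℤ)) X) with hZ
  set A := Fintype.piFinset (fun _ : Fin k => Icc 1 X) with hA
  set φ : ℕ → ℝ := fun t => |cor u M (|c| * (t : ℤ))| with hφ
  rw [← Finset.sum_filter_add_sum_filter_not Z (fun h => ∃ i, h i = 0)]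
  refine add_le_add ?_ ?_
  · -- some `h_i = 0`
    have h1 : ∀ h ∈ Z.filter (fun h => ∃ i, h i = 0), |cor u M (c * ∏ i, h i)| ≤ E := fun h _ =>
      (cor_le u M hu _).trans hE
    refine (Finset.sum_le_sum h1).trans ?_
    rw [Finset.sum_const, nsmul_eq_mul]
    refine mul_le_mul_of_nonneg_right ?_ hE0.le
    have h2 : Z.filter (fun h => ∃ i, h i = 0) ⊆
        (Finset.univ : Finset (Fin k)).biUnion (fun i => Z.filter (fun h => h i = 0)) := by
      intro h hh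
      rw [Finset.mem_filter] at hh
      obtain ⟨hh, i, hi⟩ := hh
      exact Finset.mem_biUnion.2 ⟨i, Finset.mem_univ _, Finset.mem_filter.2 ⟨hh, hi⟩⟩
    have h3 : ∀ i ∈ (Finset.univ : Finset (Fin k)), (Z.filter (fun h => h i = 0)).card ≤
        (2 * X) ^ (k - 1) := by
      intro i _
      have h4 : Z.filter (fun h => h i = 0) ⊆ Fintype.piFinset
          (fun j : Fin k => if j = i then {0} else Ioo (-(X : ℤ)) X) := by
        intro h hh
        rw [Finset.mem_filter, hZ, Fintype.mem_piFinset] at hh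
        rw [Fintype.mem_piFinset]
        intro j
        by_cases hj : j = i
        · rw [if_pos hj, hj, hh.2]
          exact Finset.mem_singleton_self _
        · rw [if_neg hj]
          exact hh.1 j
      refine (Finset.card_le_card h4).trans ?_
      rw [Fintype.card_piFinset]
      have h5 : ∏ j : Fin k, (if j = i then ({0} : Finset ℤ) else Ioo (-(X : ℤ)) X).card =
          ∏ j ∈ Finset.univ.erase i, (Ioo (-(X : ℤ)) X).card := by
        rw [← Finset.mul_prod_erase Finset.univ _ (Finset.mem_univ i)]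
        rw [if_pos rfl, Finset.card_singleton, one_mul]
        refine Finset.prod_congr rfl fun j hj => ?_
        rw [if_neg (Finset.ne_of_mem_erase hj)]
      rw [h5, Finset.prod_const, Finset.card_erase_of_mem (Finset.mem_univ i), Finset.card_univ,
        Fintype.card_fin]
      refine Nat.pow_le_pow_left ?_ _
      rw [Int.card_Ioo]
      omega
    have h6 := (Finset.card_le_card h2).trans (Finset.card_biUnion_le.trans (Finset.sum_le_sum h3))
    rw [Finset.sum_const, Finset.card_univ, Fintype.card_fin, smul_eq_mul] at h6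
    exact_mod_cast h6
  · -- all `h_i ≠ 0`
    set Z' := Z.filter (fun h => ¬ ∃ i, h i = 0) with hZ'
    have hval : ∀ h ∈ Z', |cor u M (c * ∏ i, h i)| = φ (∏ i, (h i).natAbs) := by
      intro h _
      simp only [hφ]
      rw [V4_abs u M hu, abs_mul]
      congr 3
      rw [Finset.abs_prod]
      push_cast
      rfl
    have hmaps : ∀ h ∈ Z', (fun i => (h i).natAbs) ∈ A := by
      intro h hh
      rw [hZ', Finset.mem_filter, hZ, Fintype.mem_piFinset] at hh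
      obtain ⟨h1, h2⟩ := hh
      push Not at h2
      rw [hA, Fintype.mem_piFinset]
      intro i
      have h3 := Finset.mem_Ioo.1 (h1 i)
      have h4 := h2 i
      rw [Finset.mem_Icc]
      constructor <;> omega
    rw [Finset.sum_congr rfl hval, ← Finset.sum_fiberwise_of_maps_to hmaps]
    have hfib : ∀ g ∈ A, ∑ h ∈ Z'.filter (fun h => (fun i => (h i).natAbs) = g),
        φ (∏ i, (h i).natAbs) ≤ 2 ^ k * φ (∏ i, g i) := by
      intro g _
      have h1 : ∀ h ∈ Z'.filter (fun h => (fun i => (h i).natAbs) = g),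
          φ (∏ i, (h i).natAbs) = φ (∏ i, g i) := by
        intro h hh
        have h2 := (Finset.mem_filter.1 hh).2
        rw [← h2]
      rw [Finset.sum_congr rfl h1, Finset.sum_const, nsmul_eq_mul]
      refine mul_le_mul_of_nonneg_right ?_ (abs_nonneg _)
      have h3 : Z'.filter (fun h => (fun i => (h i).natAbs) = g) ⊆
          Fintype.piFinset (fun i : Fin k => {((g i : ℕ) : ℤ), -((g i : ℕ) : ℤ)}) := by
        intro h hh
        have h2 := (Finset.mem_filter.1 hh).2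
        rw [Fintype.mem_piFinset]
        intro i
        have h4 : (h i).natAbs = g i := congrFun h2 i
        rw [← h4, Finset.mem_insert, Finset.mem_singleton]
        rcases Int.natAbs_eq (h i) with h5 | h5
        · exact Or.inl h5
        · exact Or.inr h5
      have h4 := Finset.card_le_card h3
      rw [Fintype.card_piFinset] at h4
      have h5 : ∏ i : Fin k, ({((g i : ℕ) : ℤ), -((g i : ℕ) : ℤ)} : Finset ℤ).card ≤ 2 ^ k := by
        refine (Finset.prod_le_prod' fun i _ => Finset.card_le_two).trans ?_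
        rw [Finset.prod_const, Finset.card_univ, Fintype.card_fin]
      exact_mod_cast h4.trans h5
    refine (Finset.sum_le_sum hfib).trans ?_
    rw [← Finset.mul_sum]
    refine mul_le_mul_of_nonneg_left ?_ (by positivity)
    refine V4_cs φ (S * Real.sqrt E) k X hX ?_ (by positivity)
    intro T hT
    have h1 : ∑ t ∈ T, φ t ^ 2 = ∑ d ∈ T.image (fun t : ℕ => |c| * (t : ℤ)), (cor u M d) ^ 2 := by
      rw [Finset.sum_image]
      · refine Finset.sum_congr rfl fun t _ => ?_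
        simp only [hφ]
        rw [sq_abs]
      · intro t _ t' _ h
        have h2 : |c| * (t : ℤ) = |c| * (t' : ℤ) := h
        have h3 := mul_left_cancel₀ (abs_ne_zero.2 hc) h2
        exact_mod_cast h3
    rw [h1]
    have h4 : ∑ d ∈ T.image (fun t : ℕ => |c| * (t : ℤ)), (cor u M d) ^ 2 =
        ∑ d ∈ (T.image (fun t : ℕ => |c| * (t : ℤ))).filter (fun d => d ∈ Icc (-(M : ℤ)) M),
          (cor u M d) ^ 2 := by
      rw [Finset.sum_filter]
      refine Finset.sum_congr rfl fun d _ => ?_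
      split_ifs with h
      · rfl
      · rw [cor_eq_zero u M hu d]
        · norm_num
        · by_contra h5
          exact h (Finset.mem_Icc.2 (abs_le.1 (not_le.1 h5).le))
    rw [h4]
    have h5 : ∑ d ∈ (T.image (fun t : ℕ => |c| * (t : ℤ))).filter
        (fun d => d ∈ Icc (-(M : ℤ)) M), (cor u M d) ^ 2 ≤
        ∑ d ∈ Icc (-(M : ℤ)) M, (cor u M d) ^ 2 :=
      Finset.sum_le_sum_of_subset_of_nonneg (fun d hd => (Finset.mem_filter.1 hd).2)
        fun _ _ _ => sq_nonneg _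
    refine h5.trans ((cor_l2 u M hu S hS).trans ?_)
    rw [mul_pow, Real.sq_sqrt hE0.le]
    exact mul_le_mul_of_nonneg_left hE (sq_nonneg _)

end Pool.Agent.Lib.H33B
end

-- from Lib.H57S.S3
section

/-!
# Chunk S3: `L(1,ψ) = O(log r)`
-/

open Finset

namespace Pool.Agent.Lib.H57S

open Pool.Agent.Lib.H68T

/-- For `r ≥ 100` this is `LFunction_near_one` at `s = 1`; for `r < 100`,
`‖L(1,ψ)‖ ≤ 2 r ≤ 200` by `LFunction_bound`. -/
theorem L1_log : ∃ C : ℝ, 0 < C ∧ ∀ (r : ℕ) [NeZero r] (ψ : DirichletCharacter ℂ r), ψ ≠ 1 →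
    ‖ψ.LFunction 1‖ ≤ C * (1 + Real.log r) := by
  obtain ⟨C, hC, H⟩ := LFunction_near_one
  refine ⟨C + 200, by linarith, fun r _ ψ hψ => ?_⟩
  have hr0 : 0 < r := Nat.pos_of_ne_zero (NeZero.ne r)
  have hr1 : (1 : ℝ) ≤ r := by exact_mod_cast hr0
  have hlog : 0 ≤ Real.log r := Real.log_nonneg hr1
  by_cases hr : 100 ≤ r
  · have h1 := H r ψ hr hψ 1 (by
      rw [sub_self, norm_zero]
      positivity)
    nlinarith
  · have h1 := LFunction_bound r ψ hψ 1 (by norm_num)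
    rw [norm_one] at h1
    have h2 : (r : ℝ) ≤ 100 := by
      have : r ≤ 100 := by omega
      exact_mod_cast this
    nlinarith

end Pool.Agent.Lib.H57S
end

-- from Lib.H57S.S4
section

/-!
# Chunk S4: Siegel's theorem
-/

open Finset

namespace Pool.Agent.Lib.H57S

open Pool.Agent.Lib.H68T

theorem S4_log_cube {ε r : ℝ} (hε : 0 < ε) (hr : 1 ≤ r) :
    (Real.log r) ^ 3 * r ^ (ε / 5) ≤ (5 / ε) ^ 3 * r ^ ε := by
  have hr0 : 0 ≤ r := by linarith
  have h1 : Real.log r ≤ r ^ (ε / 5) / (ε / 5) := Real.log_le_rpow_div hr0 (by positivity)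
  have h0 : 0 ≤ Real.log r := Real.log_nonneg hr
  have h2 : (Real.log r) ^ 3 ≤ (r ^ (ε / 5) / (ε / 5)) ^ 3 := pow_le_pow_left₀ h0 h1 3
  have h3 : (r ^ (ε / 5) / (ε / 5)) ^ 3 = (5 / ε) ^ 3 * (r ^ (ε / 5)) ^ 3 := by
    field_simp
  have h4 : (r ^ (ε / 5)) ^ 3 * r ^ (ε / 5) = r ^ (4 * (ε / 5)) := by
    rw [← pow_succ, ← Real.rpow_natCast, ← Real.rpow_mul hr0]
    congr 1; push_cast; ring
  have h5 : r ^ (4 * (ε / 5)) ≤ r ^ ε := Real.rpow_le_rpow_of_exponent_le hr (by linarith)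
  have h6 : 0 ≤ r ^ (ε / 5) := Real.rpow_nonneg hr0 _
  calc (Real.log r) ^ 3 * r ^ (ε / 5) ≤ ((5 / ε) ^ 3 * (r ^ (ε / 5)) ^ 3) * r ^ (ε / 5) := by
        rw [← h3]; exact mul_le_mul_of_nonneg_right h2 h6
    _ = (5 / ε) ^ 3 * r ^ (4 * (ε / 5)) := by rw [← h4]; ring
    _ ≤ _ := mul_le_mul_of_nonneg_left h5 (by positivity)

/-- all real zeros `< 1` are at distance `≥ c / r^ε` from `1` -/
theorem S4_claim (ε : ℝ) (hε : 0 < ε) (hε1 : ε ≤ 1) : ∃ c : ℝ, 0 < c ∧ ∀ (r : ℕ) [NeZero r]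
    (ψ : DirichletCharacter ℂ r), ψ.IsPrimitive → ψ ≠ 1 → ψ ^ 2 = 1 → ∀ σ : ℝ,
    σ < 1 → ψ.LFunction (σ : ℂ) = 0 → c / (r : ℝ) ^ ε ≤ 1 - σ := by
  by_cases hA : ∀ (r : ℕ) [NeZero r] (ψ : DirichletCharacter ℂ r), ψ.IsPrimitive → ψ ≠ 1 →
      ψ ^ 2 = 1 → ∀ σ : ℝ, σ < 1 → ψ.LFunction (σ : ℂ) = 0 → ε / 60 ≤ 1 - σ
  · refine ⟨ε / 60, by positivity, fun r _ ψ hp h1 h2 σ hσ hz => ?_⟩
    have hr : (1 : ℝ) ≤ r := by
      have : 0 < r := Nat.pos_of_ne_zero (NeZero.ne r)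
      exact_mod_cast this
    have h3 : 1 ≤ (r : ℝ) ^ ε := Real.one_le_rpow hr hε.le
    calc ε / 60 / (r : ℝ) ^ ε ≤ ε / 60 := div_le_self (by positivity) h3
      _ ≤ _ := hA r ψ hp h1 h2 σ hσ hz
  · push Not at hA
    obtain ⟨r₁, _, ψ₁, hp₁, hn₁, hs₁, β₁, hβ₁, hz₁, hβ₁e⟩ := hA
    obtain ⟨c₀, hc₀, H0⟩ := zero_elementary
    obtain ⟨C₁, hC₁, H1⟩ := L1_upper
    obtain ⟨C, hC, H2⟩ := L1_log
    have hr₁ : (1 : ℝ) ≤ r₁ := by
      have : 0 < r₁ := Nat.pos_of_ne_zero (NeZero.ne r₁)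
      exact_mod_cast this
    have hl₁ : 0 ≤ Real.log r₁ := Real.log_nonneg hr₁
    set A₁ : ℝ := C * (1 + Real.log r₁) with hA₁
    have hA₁p : 0 < A₁ := by positivity
    set B : ℝ := (10 ^ 6 * (r₁ : ℝ) ^ 2) ^ (ε / 10) with hB
    have hBp : 0 < B := Real.rpow_pos_of_pos (by positivity) _
    set D : ℝ := 4 * A₁ * C₁ * C * (2 + Real.log r₁) * (5 / ε) ^ 3 * B with hD
    have hDp : 0 < D := by positivity
    have hβ0 : 0 < 1 - β₁ := by linarith
    refine ⟨min (c₀ / 10 ^ 4) (min (c₀ / (r₁ : ℝ) ^ 2) (min ε ((1 - β₁) / D))),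
      by positivity, fun r _ ψ hp hn hs σ hσ hz => ?_⟩
    have hr : (1 : ℝ) ≤ r := by
      have : 0 < r := Nat.pos_of_ne_zero (NeZero.ne r)
      exact_mod_cast this
    have h3 : 1 ≤ (r : ℝ) ^ ε := Real.one_le_rpow hr hε.le
    have h3p : 0 < (r : ℝ) ^ ε := by linarith
    set m := min (c₀ / 10 ^ 4) (min (c₀ / (r₁ : ℝ) ^ 2) (min ε ((1 - β₁) / D))) with hm
    have hmp : 0 < m := by positivity
    have m1 : m ≤ c₀ / 10 ^ 4 := min_le_left _ _
    have m2 : m ≤ c₀ / (r₁ : ℝ) ^ 2 := (min_le_right _ _).trans (min_le_left _ _)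
    have m3 : m ≤ ε := (min_le_right _ _).trans ((min_le_right _ _).trans (min_le_left _ _))
    have m4 : m ≤ (1 - β₁) / D :=
      (min_le_right _ _).trans ((min_le_right _ _).trans (min_le_right _ _))
    by_cases hr100 : 100 ≤ r
    swap
    · have h4 := H0 r ψ hn hs σ hσ hz
      have h5 : (r : ℝ) ^ 2 ≤ 10 ^ 4 := by
        have : (r : ℝ) ≤ 100 := by
          have : r ≤ 100 := by omega
          exact_mod_cast this
        nlinarith
      calc m / (r : ℝ) ^ ε ≤ m := div_le_self hmp.le h3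
        _ ≤ c₀ / 10 ^ 4 := m1
        _ ≤ c₀ / (r : ℝ) ^ 2 := div_le_div_of_nonneg_left hc₀.le (by positivity) h5
        _ ≤ _ := h4
    by_cases hsame : (⟨r₁, ψ₁⟩ : Σ r : ℕ, DirichletCharacter ℂ r) = ⟨r, ψ⟩
    · have h4 := H0 r ψ hn hs σ hσ hz
      have h5 : r₁ = r := congrArg Sigma.fst hsame
      calc m / (r : ℝ) ^ ε ≤ m := div_le_self hmp.le h3
        _ ≤ c₀ / (r₁ : ℝ) ^ 2 := m2
        _ = c₀ / (r : ℝ) ^ 2 := by rw [h5]
        _ ≤ _ := h4
    have hrR : (100 : ℝ) ≤ r := by exact_mod_cast hr100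
    have hlog1 : 1 ≤ Real.log r := by
      rw [Real.le_log_iff_exp_le (by linarith)]
      have := Real.exp_one_lt_d9
      linarith
    by_cases hfar : σ < 1 - 1 / Real.log r
    · have h4 : Real.log r ≤ (r : ℝ) ^ ε / ε := Real.log_le_rpow_div (by linarith) hε
      have h5 : ε / (r : ℝ) ^ ε ≤ 1 / Real.log r := by
        rw [div_le_div_iff₀ h3p (by linarith), one_mul]
        rw [le_div_iff₀ hε] at h4
        linarith
      calc m / (r : ℝ) ^ ε ≤ ε / (r : ℝ) ^ ε := div_le_div_of_nonneg_right m3 h3p.le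
        _ ≤ 1 / Real.log r := h5
        _ ≤ 1 - σ := by linarith
    · push Not at hfar
      have hne := prodc_ne_one r₁ r ψ₁ ψ hp₁ hp hs hsame
      have e1 := estermann r₁ r ψ₁ ψ hs₁ hs hn₁ hn hne β₁ (by linarith) hβ₁ hz₁
      have b1 := H2 r₁ ψ₁ hn₁
      have b2 := H1 r ψ hr100 hn σ hfar hσ.le hz
      have b3 := H2 (r₁ * r) (prodc ψ₁ ψ) hne
      have hσ0 : 0 < 1 - σ := by linarith
      have b3' : ‖(prodc ψ₁ ψ).LFunction 1‖ ≤ C * ((2 + Real.log r₁) * Real.log r) := by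
        refine b3.trans (mul_le_mul_of_nonneg_left ?_ hC.le)
        push_cast
        rw [Real.log_mul (by positivity) (by positivity)]
        nlinarith
      have b4 : (10 ^ 6 * ((r₁ : ℝ) * r) ^ 2) ^ (6 * (1 - β₁)) ≤ B * (r : ℝ) ^ (ε / 5) := by
        have h1 : (1 : ℝ) ≤ 10 ^ 6 * ((r₁ : ℝ) * r) ^ 2 := by
          have : (1 : ℝ) ≤ (r₁ : ℝ) * r := one_le_mul_of_one_le_of_one_le hr₁ hr
          nlinarith
        calc (10 ^ 6 * ((r₁ : ℝ) * r) ^ 2) ^ (6 * (1 - β₁))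
            ≤ (10 ^ 6 * ((r₁ : ℝ) * r) ^ 2) ^ (ε / 10) :=
              Real.rpow_le_rpow_of_exponent_le h1 (by linarith)
          _ = ((10 ^ 6 * (r₁ : ℝ) ^ 2) * (r : ℝ) ^ 2) ^ (ε / 10) := by
              congr 1; ring
          _ = B * ((r : ℝ) ^ 2) ^ (ε / 10) := by
              rw [Real.mul_rpow (by positivity) (by positivity)]
          _ = B * (r : ℝ) ^ (ε / 5) := by
              rw [← Real.rpow_natCast, ← Real.rpow_mul (by positivity)]
              congr 2; push_cast; ring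
      have n1 := norm_nonneg (ψ₁.LFunction 1)
      have n2 := norm_nonneg (ψ.LFunction 1)
      have n3 := norm_nonneg ((prodc ψ₁ ψ).LFunction 1)
      have e2 : 1 - β₁ ≤ 4 * (A₁ * (C₁ * (1 - σ) * (Real.log r) ^ 2) *
          (C * ((2 + Real.log r₁) * Real.log r))) * (B * (r : ℝ) ^ (ε / 5)) := by
        refine e1.trans ?_
        have hp4 : 0 ≤ (10 ^ 6 * ((r₁ : ℝ) * r) ^ 2) ^ (6 * (1 - β₁)) :=
          Real.rpow_nonneg (by positivity) _
        gcongr
      have e3 := S4_log_cube (r := (r : ℝ)) hε hr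
      have e4 : 1 - β₁ ≤ D * (r : ℝ) ^ ε * (1 - σ) := by
        have hK : 0 ≤ 4 * A₁ * C₁ * C * (2 + Real.log r₁) * B * (1 - σ) := by positivity
        calc 1 - β₁ ≤ _ := e2
          _ = (4 * A₁ * C₁ * C * (2 + Real.log r₁) * B * (1 - σ)) *
              ((Real.log r) ^ 3 * (r : ℝ) ^ (ε / 5)) := by ring
          _ ≤ (4 * A₁ * C₁ * C * (2 + Real.log r₁) * B * (1 - σ)) *
              ((5 / ε) ^ 3 * (r : ℝ) ^ ε) := mul_le_mul_of_nonneg_left e3 hK
          _ = _ := by rw [hD]; ring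
      calc m / (r : ℝ) ^ ε ≤ ((1 - β₁) / D) / (r : ℝ) ^ ε :=
            div_le_div_of_nonneg_right m4 h3p.le
        _ ≤ 1 - σ := by
            rw [div_div, div_le_iff₀ (by positivity)]
            linarith

/-- **Siegel.** Let `ε ≤ 1` without loss. CASE A: no real primitive `ψ₁ ≠ 1` has a real zero in
`[1 - ε/60, 1)`: take `c = ε/60` (`r^ε ≥ 1`; at `σ = 1` use
`DirichletCharacter.LFunction_ne_zero_of_one_le_re`). CASE B: fix `(r₁, ψ₁, β₁)` with
`1 - ε/60 ≤ β₁ < 1`, a zero. Let `(r, ψ)` be another one, with a zero `σ < 1`. If `r < 100`, or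
`(r, ψ) = (r₁, ψ₁)`, `zero_elementary` gives `1 - σ ≥ c₀/r² ≥ c₀/max(100, r₁)²`. If
`σ < 1 - 1/log r`, then `1 - σ > 1/log r ≥ c r^(-ε)`. Otherwise `L1_upper` gives
`‖L(1,ψ)‖ ≤ C₁ (1-σ) log² r`, and `estermann` (with `ψ₂ = ψ`; `prodc_ne_one`) and `L1_log` give
`1 - β₁ ≤ 4 C(1 + log r₁) · C₁ (1-σ) log² r · C (1 + log r₁ + log r) · (10^6 r₁²)^(ε/10) r^(ε/5)`,
so `1 - σ ≥ c₂ r^(-ε/5)/(1 + log r)^3 ≥ c₃ r^(-ε)` (`Real.log_le_rpow_div`), `c₃` depending on
`ε, r₁, β₁` only. -/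
theorem siegel (ε : ℝ) (hε : 0 < ε) : ∃ c : ℝ, 0 < c ∧ ∀ (r : ℕ) [NeZero r]
    (ψ : DirichletCharacter ℂ r), ψ.IsPrimitive → ψ ≠ 1 → ψ ^ 2 = 1 → ∀ σ : ℝ,
    1 - c / (r : ℝ) ^ ε ≤ σ → σ ≤ 1 → ψ.LFunction (σ : ℂ) ≠ 0 := by
  obtain ⟨c, hc, H⟩ := S4_claim (min ε 1) (by positivity) (min_le_right _ _)
  refine ⟨c / 2, by positivity, fun r _ ψ hp h1 h2 σ hσ hσ1 hz => ?_⟩
  have hr : (1 : ℝ) ≤ r := by
    have : 0 < r := Nat.pos_of_ne_zero (NeZero.ne r)
    exact_mod_cast this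
  rcases hσ1.lt_or_eq with hlt | heq
  · have h3 := H r ψ hp h1 h2 σ hlt hz
    have h4 : (r : ℝ) ^ (min ε 1) ≤ (r : ℝ) ^ ε :=
      Real.rpow_le_rpow_of_exponent_le hr (min_le_left _ _)
    have h5 : 0 < (r : ℝ) ^ (min ε 1) := Real.rpow_pos_of_pos (by linarith) _
    have h6 : c / (r : ℝ) ^ ε ≤ c / (r : ℝ) ^ (min ε 1) :=
      div_le_div_of_nonneg_left hc.le h5 h4
    have h7 : 0 < c / (r : ℝ) ^ ε := div_pos hc (Real.rpow_pos_of_pos (by linarith) _)
    have h8 : c / 2 / (r : ℝ) ^ ε = (c / (r : ℝ) ^ ε) / 2 := by ring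
    rw [h8] at hσ
    linarith
  · subst heq
    exact DirichletCharacter.LFunction_ne_zero_of_one_le_re ψ (Or.inl h1) (by simp) hz

end Pool.Agent.Lib.H57S
end

-- from Lib.H57M.Q1
section

/-!
# Chunk Q1: elementary facts on `argCount`
-/

open Finset Polynomial

namespace Pool.Agent.Lib.H57M

open Pool.Agent.Lib.H59

/-- For large `Y` the set `argSet G Y` is `{1, .., argCount G Y}` (`G` is eventually increasing and tends to
infinity: for `n0` beyond which `G` is strictly increasing and larger than all earlier values, and `Y > G(n0)`);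
compare `Lib/H59` (`argSet`, `argCount` lemmas in `PolyKey`, `SchinzelUpper`). -/
theorem argSet_eq (G : ℤ[X]) (hG : 1 ≤ G.natDegree) (hlc : 0 < G.leadingCoeff) :
    ∃ Y0 : ℕ, ∀ Y : ℕ, Y0 ≤ Y → ∀ n : ℕ, n ∈ argSet G Y ↔ 1 ≤ n ∧ n ≤ argCount G Y := by
  obtain ⟨Y0, h⟩ := Filter.eventually_atTop.1 (Pool.Agent.Lib.H59.argSet_eq hG hlc)
  refine ⟨Y0, fun Y hY n => ?_⟩
  have h1 := h Y hY
  constructor
  · intro hn
    rw [h1, Finset.mem_coe, Finset.mem_Icc] at hn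
    exact hn
  · intro hn
    rw [h1, Finset.mem_coe, Finset.mem_Icc]
    exact hn




end Pool.Agent.Lib.H57M
end

-- from Lib.H59X.Defs
section

/-!
# Project H59X (MP_0bf1d2_nt): Schinzel's formula for almost all constant terms. Definitions

See `PROOF.md` in this folder.
-/

open Finset Polynomial

namespace Pool.Agent.Lib.H59X

open Pool.Agent.Lib.H59 (argSet argCount Admissible primeCount omegaN seriesTrunc rootCount)
open Pool.Agent.Lib.H68T (lp)
open Pool.Agent.Lib.H33B (Lq Lw PW SieveWt)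

/-- The system `P_1 + h_1, …, P_g + h_g`. -/
noncomputable def fam {g : ℕ} (P : Fin g → ℤ[X]) (h : Fin g → ℕ) : Fin g → ℤ[X] :=
  fun i => P i + C (h i : ℤ)




/-- Degrees between `1` and `A`, leading coefficients (of any sign) at most `A` in absolute value. -/
structure Pol (A : ℕ) {g : ℕ} (P : Fin g → ℤ[X]) : Prop where
  deg : ∀ i, 1 ≤ (P i).natDegree
  degA : ∀ i, (P i).natDegree ≤ A
  lc : ∀ i, (P i).leadingCoeff.natAbs ≤ A




/-- `B ∏ (P_i + h_i)` -/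
noncomputable def QQ (B : ℤ[X]) {g : ℕ} (P : Fin g → ℤ[X]) (h : Fin g → ℕ) : ℤ[X] :=
  B * ∏ i, fam P h i









/-- `1` if `m` is a prime and `0` otherwise. -/
noncomputable def pr (m : ℤ) : ℝ := if m.toNat.Prime then 1 else 0


end Pool.Agent.Lib.H59X
end
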