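import Pool.Agent.Lib.H59M.M2.M002
import Pool.Agent.Lib.H59M.M2.M016
import Pool.Agent.Lib.H59M.M2.M023
import Pool.Agent.Lib.H59M.M2.M025
import Pool.Agent.Lib.H59M.M2.M026
import Pool.Agent.Lib.H59M.M2.M036
import Pool.Agent.Lib.H59M.M2.M039
import Pool.Agent.Lib.H59M.M2.M040
import Pool.Agent.Lib.H59M.M2.M041
import Pool.Agent.Lib.H59M.M2.M060
import Pool.Agent.Lib.H59M.M2.M061
import Pool.Agent.Lib.H59M.M2.M072
import Pool.Agent.Lib.H59M.M2.M074

/-! Merged copies (to shorten the build) of Lib.H18Q.E7, Lib.H18Q.PH, Lib.H18Q.CL1, Lib.H59P.Defs, Lib.H59P.MDefs, Lib.H59T.FDefs, Lib.H59T.LKDefs, Lib.H59T.L1, Lib.H59T.L2. -/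

-- from Lib.H18Q.E7
section

/-!
# Project H18Q, chunk E7: strong form of the Deuring-Heilbronn phenomenon
-/

open Finset

namespace Pool.Agent.Lib.H18Q

open ArithmeticFunction Pool.Agent.Lib.H68T

/-- **Repulsion of zeros.** If `L(s, ψ)` has a real zero `β` with `η log Q ≤ c1`, `η = 1 - β`, then
all other zeros `ρ` (`Lx r ψ β p ρ = 0`, `p ∈ PC Q`) with `|Im ρ| ≤ Q^8` have
`1 - Re ρ ≥ log (1/(η log Q))/(C log Q)`.

Proof. Let `Y = log (1/(η log Q)) ≥ log (1/c1)`. `η ≥ c/Q²` (`zero_elementary`), so `Y ≤ 3 log Q` for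
`Q` large. Suppose `1 - Re ρ < Y/(C log Q)` and put `κ = Y/C`: `κ ≥ 1` if `c1 ≤ exp (-C)`, and
`κ ≤ 3 log Q/C ≤ th0 log Q` if `C ≥ 3 · 10^9`; `β ≥ 7/8` for `Q` large. For `p = p0`
(`Lx r ψ β p0 = Lp p0 = gl2_Z`, since `(r, ψ) ≠ p0`): `Re ρ > 1 - 3/C ≥ 1 - δ` with the `δ` of
`zf3_low` (`C ≥ 3/δ`), so `|Im ρ| > 1` (`lab3_Z_zero`). Let `C3 = max (2^28) (C3 of E5_detect)`,
`K1 = ⌈C3 κ⌉ ≤ 2 C3 κ`, `v = Im ρ`. `E5_detect` and `E6_small`: `(1/4) 4096^(-K1) ≤ C' K1 e^(-Y)`, so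
`Y ≤ log (4 C' K1) + K1 log 4096 ≤ C4 K1 ≤ 2 C4 C3 κ = 2 C4 C3 Y/C` with `C4 = 4 C' + 10`
(`log t ≤ t`, `K1 ≥ 1`); a contradiction if `C > 2 C4 C3` (`Y > 0`). -/
theorem repulsion : ∃ C c1 K : ℝ, 1 ≤ C ∧ 0 < c1 ∧ c1 < 1 ∧ ∀ Q : ℕ, K ≤ Q →
    ∀ (r : ℕ) [NeZero r] (ψ : DirichletCharacter ℂ r), r ≤ Q → ψ.IsPrimitive → ψ ≠ 1 →
    ψ ^ 2 = 1 → ∀ β : ℝ, β < 1 → ψ.LFunction (β : ℂ) = 0 → (1 - β) * Real.log Q ≤ c1 →
    ∀ p ∈ PC Q, ∀ ρ : ℂ, Lx r ψ β p ρ = 0 → |ρ.im| ≤ (Q : ℝ) ^ 8 →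
    Real.log (1 / ((1 - β) * Real.log Q)) / (C * Real.log Q) ≤ 1 - ρ.re := by
  obtain ⟨C3', K5, hC3', hdet⟩ := E5_detect
  obtain ⟨C3, hC3⟩ : ∃ C3, C3 = max (2 ^ 28 : ℝ) C3' := ⟨_, rfl⟩
  have hC3a : (2 : ℝ) ^ 28 ≤ C3 := hC3 ▸ le_max_left _ _
  have hC3b : C3' ≤ C3 := hC3 ▸ le_max_right _ _
  obtain ⟨C', K6, hC', hsmall⟩ := E6_small C3 hC3a
  obtain ⟨δ, hδ, hzf⟩ := zf3_low
  obtain ⟨c, hc, hze⟩ := zero_elementary
  have hC30 : 0 < C3 := lt_of_lt_of_le (by positivity) hC3a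
  have hC31 : 1 ≤ C3 := le_trans (by norm_num) hC3a
  obtain ⟨C4, hC4⟩ : ∃ C4, C4 = 4 * C' + 10 := ⟨_, rfl⟩
  have hC40 : 0 < C4 := by rw [hC4]; positivity
  obtain ⟨C, hC⟩ : ∃ C, C = 2 * C4 * C3 + 1 + 3 * 10 ^ 9 + 3 / δ := ⟨_, rfl⟩
  have hd3 : 0 < 3 / δ := by positivity
  have h243 : 0 < 2 * C4 * C3 := by positivity
  have hCa : 2 * C4 * C3 < C := by rw [hC]; linarith
  have hCb : 3 * 10 ^ 9 ≤ C := by rw [hC]; linarith
  have hCc : 3 / δ ≤ C := by rw [hC]; linarith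
  have hC1 : 1 ≤ C := by linarith
  have hC0 : 0 < C := by linarith
  refine ⟨C, Real.exp (-C), K5 ⊔ K6 ⊔ (1 / c) ⊔ Real.exp 8, hC1, Real.exp_pos _, by
    rw [Real.exp_lt_one_iff]; linarith, ?_⟩
  intro Q hQ r hr0 ψ hrQ hψp hψ1 hψ2 β hβ1 hβ0 hηc p hp ρ hρ0 hρi
  have hQ5 : K5 ≤ Q := le_trans (le_trans (le_trans le_sup_left le_sup_left) le_sup_left) hQ
  have hQ6 : K6 ≤ Q := le_trans (le_trans (le_trans le_sup_right le_sup_left) le_sup_left) hQ
  have hQc : 1 / c ≤ Q := le_trans (le_trans le_sup_right le_sup_left) hQ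
  have hQ8 : Real.exp 8 ≤ Q := le_trans le_sup_right hQ
  have hQ0 : (0 : ℝ) < Q := lt_of_lt_of_le (Real.exp_pos _) hQ8
  obtain ⟨l, hl⟩ : ∃ l, l = Real.log Q := ⟨_, rfl⟩
  have hl8 : 8 ≤ l := by
    rw [hl, ← Real.log_exp 8]
    exact Real.log_le_log (Real.exp_pos _) hQ8
  have hl0 : 0 < l := by linarith
  have hQ1 : (1 : ℝ) ≤ Q := le_trans (Real.one_le_exp (by norm_num)) hQ8
  rw [← hl] at hηc ⊢
  obtain ⟨η, hη⟩ : ∃ η, η = 1 - β := ⟨_, rfl⟩
  rw [← hη] at hηc ⊢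
  have hη0 : 0 < η := by rw [hη]; linarith
  have hηl : 0 < η * l := by positivity
  have hr1 : (1 : ℝ) ≤ r := by exact_mod_cast Nat.one_le_iff_ne_zero.2 (NeZero.ne r)
  have hrQ' : (r : ℝ) ≤ Q := by exact_mod_cast hrQ
  have hηlow : c / (Q : ℝ) ^ 2 ≤ η := by
    have h1 := hze r ψ hψ1 hψ2 β hβ1 hβ0
    rw [← hη] at h1
    refine le_trans ?_ h1
    exact div_le_div_of_nonneg_left hc.le (by positivity) (pow_le_pow_left₀ (by linarith) hrQ' 2)
  obtain ⟨Y, hY⟩ : ∃ Y, Y = Real.log (1 / (η * l)) := ⟨_, rfl⟩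
  have hYe : Real.exp (-Y) = η * l := by
    rw [hY, one_div, Real.log_inv, neg_neg, Real.exp_log hηl]
  have hYC : C ≤ Y := by
    have h1 : Real.exp (-Y) ≤ Real.exp (-C) := by rw [hYe]; exact hηc
    have h2 := Real.exp_le_exp.1 h1
    linarith
  have hY3 : Y ≤ 3 * l := by
    have h1 : Real.exp (-(3 * l)) ≤ Real.exp (-Y) := by
      rw [hYe]
      have h2 : Real.exp (-(3 * l)) = 1 / (Q : ℝ) ^ 3 := by
        rw [Real.exp_neg, one_div, hl]
        congr 1
        have : 3 * Real.log Q = Real.log Q * (3 : ℕ) := by push_cast; ring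
        rw [this, Real.exp_mul, Real.exp_log hQ0, Real.rpow_natCast]
      rw [h2]
      have h3 : 1 ≤ c * Q := by
        rw [div_le_iff₀ hc] at hQc
        linarith
      have h4 : 1 / (Q : ℝ) ^ 3 ≤ c / (Q : ℝ) ^ 2 := by
        rw [div_le_div_iff₀ (by positivity) (by positivity)]
        have : c * (Q : ℝ) ^ 3 = (c * Q) * (Q : ℝ) ^ 2 := by ring
        rw [this]
        nlinarith [sq_nonneg (Q : ℝ)]
      have h5 : η ≤ η * l := le_mul_of_one_le_right hη0.le (by linarith)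
      linarith
    have h2 := Real.exp_le_exp.1 h1
    linarith
  rw [← hY]
  by_contra hcon
  push Not at hcon
  obtain ⟨κ, hκ⟩ : ∃ κ, κ = Y / C := ⟨_, rfl⟩
  have hκl : Y / (C * l) = κ / l := by
    rw [hκ]
    field_simp
  rw [hκl] at hcon
  have hκ1 : 1 ≤ κ := by
    rw [hκ, le_div_iff₀ hC0]
    linarith
  have hκ3 : κ ≤ 3 * l / C := by
    rw [hκ]
    exact div_le_div_of_nonneg_right hY3 hC0.le
  have hκth : κ ≤ th0 * Real.log Q := by
    rw [← hl]
    refine hκ3.trans ?_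
    unfold th0
    rw [div_le_iff₀ hC0]
    have : 3 * l = 1 / 10 ^ 9 * l * (3 * 10 ^ 9) := by ring
    rw [this]
    exact mul_le_mul_of_nonneg_left hCb (by positivity)
  have hβ7 : 7 / 8 ≤ β := by
    have h1 : η * l ≤ 1 := hηc.trans (Real.exp_le_one_iff.2 (by linarith))
    have h2 : η * 8 ≤ 1 := le_trans (mul_le_mul_of_nonneg_left hl8 hη0.le) h1
    rw [hη] at h2
    linarith
  have hv9 : |ρ.im| ≤ (Q : ℝ) ^ 9 := hρi.trans (pow_le_pow_right₀ hQ1 (by norm_num))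
  have hκl3 : κ / l ≤ 3 / C := by
    rw [div_le_div_iff₀ hl0 hC0]
    rw [le_div_iff₀ hC0] at hκ3
    linarith
  have hp0v : p = p0 → 1 / 2 ≤ |ρ.im| := by
    intro hp0
    have hne : p ≠ ⟨r, ψ⟩ := by
      intro h
      rw [hp0] at h
      have h1 : r = 1 := (congrArg Sigma.fst h).symm
      subst h1
      apply hψ1
      have h2 : (p0 : Σ r : ℕ, DirichletCharacter ℂ r) = ⟨1, 1⟩ := rfl
      rw [h2] at h
      exact (eq_of_heq (Sigma.mk.inj h).2).symm
    rw [Lx_of_ne r ψ β p hne, hp0, Lp_p0] at hρ0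
    have hz := lab3_Z_zero ρ hρ0
    by_contra hlt
    push Not at hlt
    have h1 := hzf ρ hz (by linarith)
    have h2 : 3 / C ≤ δ := by
      rw [div_le_iff₀ hC0]
      rw [div_le_iff₀ hδ] at hCc
      linarith
    linarith
  obtain ⟨K1, hK1⟩ : ∃ K1 : ℕ, K1 = ⌈C3 * κ⌉₊ := ⟨_, rfl⟩
  have hκ0 : 0 < κ := by linarith
  have hK1a : C3 * κ ≤ K1 := by rw [hK1]; exact Nat.le_ceil _
  have hC3κ : 1 ≤ C3 * κ := by nlinarith
  have hK1b : (K1 : ℝ) ≤ 2 * C3 * κ := by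
    have := Nat.ceil_lt_add_one (show 0 ≤ C3 * κ by positivity)
    rw [← hK1] at this
    linarith
  have hK1c : C3' * κ ≤ K1 := (mul_le_mul_of_nonneg_right hC3b hκ0.le).trans hK1a
  have hK11 : (1 : ℝ) ≤ K1 := hC3κ.trans hK1a
  obtain ⟨k, hk1, hk2, hk3⟩ := hdet Q hQ5 r ψ hrQ hψp hψ1 hψ2 β hβ7 hβ1 hβ0 p hp κ ρ.im hκ1 hκth hv9 hp0v K1 hK1c
    ⟨ρ, hρ0, by rw [← hl]; linarith, by
      rw [sub_self, abs_zero, ← hl]
      positivity⟩
  have h4 := hsmall Q hQ6 r ψ hrQ hψ1 hψ2 β hβ7 hβ1 hβ0 p κ ρ.im hκ1 hκth K1 k hK1a hK1b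
  rw [← hl, ← hη, ← hYe] at h4
  rw [← hl] at hk3
  have h5 : 1 / 4 * (1 / 4096 : ℝ) ^ K1 ≤ C' * K1 * Real.exp (-Y) := hk3.trans h4
  have h6 : Real.exp Y ≤ 4 * C' * K1 * 4096 ^ K1 := by
    have h7 : (1 / 4096 : ℝ) ^ K1 = 1 / 4096 ^ K1 := by rw [div_pow, one_pow]
    rw [h7, Real.exp_neg] at h5
    have h8 : (0 : ℝ) < 4096 ^ K1 := by positivity
    have h9 : 0 < Real.exp Y := Real.exp_pos _
    have h10 : 1 / 4 * (1 / 4096 ^ K1) * (4 * 4096 ^ K1 * Real.exp Y) ≤ C' * K1 * (Real.exp Y)⁻¹ * (4 * 4096 ^ K1 * Real.exp Y) :=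
      mul_le_mul_of_nonneg_right h5 (by positivity)
    have e1 : 1 / 4 * (1 / 4096 ^ K1) * (4 * 4096 ^ K1 * Real.exp Y) = Real.exp Y := by field_simp
    have e2 : C' * K1 * (Real.exp Y)⁻¹ * (4 * 4096 ^ K1 * Real.exp Y) = 4 * C' * K1 * 4096 ^ K1 := by field_simp
    rwa [e1, e2] at h10
  have h7 : Y ≤ C4 * K1 := by
    have h8 : 4 * C' * K1 * 4096 ^ K1 ≤ Real.exp (C4 * K1) := by
      have h9 : 4 * C' * K1 ≤ Real.exp (4 * C' * K1) := by
        have := Real.add_one_le_exp (4 * C' * K1)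
        linarith
      have h10 : (4096 : ℝ) ≤ Real.exp 10 := by
        have h11 : (2.7 : ℝ) ≤ Real.exp 1 := le_trans (by norm_num) (Real.exp_one_gt_d9).le
        have h12 : Real.exp 10 = Real.exp 1 ^ 10 := by
          rw [← Real.exp_nat_mul]
          norm_num
        rw [h12]
        calc (4096 : ℝ) ≤ 2.7 ^ 10 := by norm_num
          _ ≤ _ := pow_le_pow_left₀ (by norm_num) h11 10
      have h11 : (4096 : ℝ) ^ K1 ≤ Real.exp (10 * K1) := by
        have h12 : Real.exp (10 * K1) = Real.exp 10 ^ K1 := by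
          rw [← Real.exp_nat_mul]
          congr 1
          ring
        rw [h12]
        exact pow_le_pow_left₀ (by norm_num) h10 K1
      have h12 : Real.exp (C4 * K1) = Real.exp (4 * C' * K1) * Real.exp (10 * K1) := by
        rw [← Real.exp_add, hC4]
        congr 1
        ring
      rw [h12]
      exact mul_le_mul h9 h11 (by positivity) (Real.exp_pos _).le
    exact Real.exp_le_exp.1 (h6.trans h8)
  have h8 : C4 * K1 ≤ C4 * (2 * C3 * κ) := mul_le_mul_of_nonneg_left hK1b hC40.le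
  have h9 : C4 * (2 * C3 * κ) = 2 * C4 * C3 * κ := by ring
  have h10 : 2 * C4 * C3 * κ < C * κ := mul_lt_mul_of_pos_right hCa hκ0
  have h11 : C * κ = Y := by
    rw [hκ]
    field_simp
  linarith

end Pool.Agent.Lib.H18Q
end

-- from Lib.H18Q.PH
section

/-!
# Project H18Q, chunk PH: the L1 norms at good and at exceptional levels
-/

open Finset

namespace Pool.Agent.Lib.H18Q

open Pool.Agent.Lib.H68T

theorem ph_w_cont : Continuous w := by
  unfold w
  exact (Real.smoothTransition.continuous.comp (by fun_prop)).mul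
    (Real.smoothTransition.continuous.comp (by fun_prop))

theorem ph_w_zero {y : ℝ} (hy : y ∉ Set.Icc (-2 : ℝ) 4) : w y = 0 := by
  unfold w
  rw [Set.mem_Icc, not_and_or, not_le, not_le] at hy
  rcases hy with h | h
  · rw [Real.smoothTransition.zero_of_nonpos (by linarith), zero_mul]
  · rw [Real.smoothTransition.zero_of_nonpos (x := 4 - y) (by linarith), mul_zero]

theorem ph_FF_cont (X : ℕ) (h : ℕ → ℂ) : Continuous (FF X h) := by
  unfold FF
  refine continuous_finsetSum _ fun m hm => ?_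
  have hm0 : (m : ℂ) ≠ 0 := by
    have := (mem_Icc.1 hm).1
    exact_mod_cast (by omega : m ≠ 0)
  exact continuous_const.mul (Continuous.const_cpow (by fun_prop) (Or.inl hm0))

theorem ph_Mb_cont (X : ℕ) (b : ℝ) : Continuous (Mb X b) := by
  have h1 : Mb X b = fun t : ℝ => ∫ u in Set.Icc (Real.log X - 2) (Real.log X + 4),
      (w (u - Real.log X) : ℂ) * Complex.exp (-((1 - b : ℝ) + t * Complex.I) * u) := by
    funext t
    unfold Mb
    symm
    apply MeasureTheory.setIntegral_eq_integral_of_forall_compl_eq_zero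
    intro u hu
    rw [ph_w_zero, Complex.ofReal_zero, zero_mul]
    intro h
    apply hu
    constructor <;> linarith [h.1, h.2]
  rw [h1]
  refine continuous_parametric_integral_of_continuous ?_ isCompact_Icc
  have hw := ph_w_cont
  refine Continuous.mul ?_ ?_
  · exact Complex.continuous_ofReal.comp (hw.comp (by fun_prop))
  · fun_prop

/-- comparison of the L1 norms -/
theorem ph_tri (A M F : ℝ → ℂ) (hA : Continuous A) (hM : Continuous M) (hF : Continuous F)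
    (S E : ℝ) (hS : 0 ≤ S) (hE : ∀ t ∈ Set.Icc (-S) S, ‖F t - M t‖ ≤ E) :
    ∫ t in (-S)..S, ‖A t - F t‖ ≤ (∫ t in (-S)..S, ‖A t - M t‖) + 2 * S * E := by
  have h1 : ∫ t in (-S)..S, ‖A t - F t‖ ≤ ∫ t in (-S)..S, (‖A t - M t‖ + E) := by
    apply intervalIntegral.integral_mono_on (by linarith)
    · exact ((hA.sub hF).norm).intervalIntegrable _ _
    · exact (((hA.sub hM).norm).add continuous_const).intervalIntegrable _ _
    · intro t ht
      have h2 := hE t ht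
      calc ‖A t - F t‖ = ‖(A t - M t) - (F t - M t)‖ := by ring_nf
        _ ≤ ‖A t - M t‖ + ‖F t - M t‖ := norm_sub_le _ _
        _ ≤ _ := by linarith
  refine h1.trans (le_of_eq ?_)
  have h2 : Continuous fun t => ‖A t - M t‖ := (hA.sub hM).norm
  rw [intervalIntegral.integral_add (h2.intervalIntegrable _ _)
    (continuous_const.intervalIntegrable _ _), intervalIntegral.integral_const, smul_eq_mul]
  ring

theorem ph_q6 {Q : ℕ} (hQ : (1 : ℝ) ≤ Q) : (Q : ℝ) ^ (-6 : ℝ) = 1 / (Q : ℝ) ^ 6 := by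
  have e2 : (Q : ℝ) ^ (6 : ℝ) = (Q : ℝ) ^ 6 := by exact_mod_cast Real.rpow_natCast (Q : ℝ) 6
  rw [Real.rpow_neg (by linarith), e2, one_div]

/-- the error of the main term -/
theorem ph_err {CF K : ℝ} {Q X : ℕ} (hCF : 0 < CF) (hK : 21 ≤ K) (hKC : 4 * CF ≤ K)
    (h : RegP K Q X) :
    2 * (Q : ℝ) ^ 7 * (CF * (1 + (Q : ℝ) ^ 7) / X) ≤ 1 / (Q : ℝ) ^ 6 := by
  have hK1 : 1 ≤ K := by linarith
  have hQK := h.Q_ge hK1
  have hQ0 : (0 : ℝ) < Q := by linarith
  have hX0 : (0 : ℝ) < X := by exact_mod_cast h.X_pos (by linarith)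
  have hlQ : 0 ≤ Real.log Q := by linarith [h.logQ_ge hK1]
  have hX : (Q : ℝ) ^ 21 ≤ X := by
    rw [← Real.log_le_log_iff (by positivity) hX0, Real.log_pow]
    have h1 := h.logQ_le hK1
    have h2 : 21 * Real.log Q ≤ K * Real.log Q := mul_le_mul_of_nonneg_right hK hlQ
    push_cast
    linarith
  have h7 : (1 : ℝ) ≤ (Q : ℝ) ^ 7 := one_le_pow₀ (by linarith)
  rw [← mul_div_assoc, div_le_div_iff₀ hX0 (by positivity)]
  calc 2 * (Q : ℝ) ^ 7 * (CF * (1 + (Q : ℝ) ^ 7)) * (Q : ℝ) ^ 6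
      ≤ 2 * (Q : ℝ) ^ 7 * (CF * (2 * (Q : ℝ) ^ 7)) * (Q : ℝ) ^ 6 := by
        apply mul_le_mul_of_nonneg_right _ (by positivity)
        apply mul_le_mul_of_nonneg_left _ (by positivity)
        apply mul_le_mul_of_nonneg_left _ hCF.le
        linarith
    _ = (4 * CF) * (Q : ℝ) ^ 20 := by ring
    _ ≤ Q * (Q : ℝ) ^ 20 := mul_le_mul_of_nonneg_right (hKC.trans hQK) (by positivity)
    _ = (Q : ℝ) ^ 21 := by ring
    _ ≤ X := hX
    _ = 1 * X := (one_mul _).symm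

/-- the logarithmic derivatives -/
theorem ph_ld_p0 (s : ℂ) (hs : 1 < s.re) : logDeriv (Lp p0) s =
    -LSeries (fun n => (ArithmeticFunction.vonMangoldt n : ℂ) * p0.2 (n : ZMod p0.1)) s +
      ((1 : ℝ) : ℂ) / (s - ((1 : ℝ) : ℂ)) := by
  have hfun : (fun n : ℕ => (ArithmeticFunction.vonMangoldt n : ℂ) * (p0.2 (n : ZMod p0.1) : ℂ)) =
      fun n : ℕ => (ArithmeticFunction.vonMangoldt n : ℂ) := by
    funext n
    have h1 : (p0.2 : DirichletCharacter ℂ p0.1) (n : ZMod p0.1) = 1 := by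
      have h2 : (n : ZMod p0.1) = 1 := by
        have : Subsingleton (ZMod p0.1) := by
          change Subsingleton (ZMod 1)
          infer_instance
        exact Subsingleton.elim _ _
      rw [h2, map_one]
    rw [h1, mul_one]
  rw [hfun, Lp_p0, lab1_Z s hs, Complex.ofReal_one]
  ring

theorem ph_ld_ne {Q : ℕ} {p : Σ r : ℕ, DirichletCharacter ℂ r} (hp : p ∈ PC Q) (h : p ≠ p0) (s : ℂ)
    (hs : 1 < s.re) (b : ℝ) : logDeriv (Lp p) s =
    -LSeries (fun n => (ArithmeticFunction.vonMangoldt n : ℂ) * p.2 (n : ZMod p.1)) s +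
      ((0 : ℝ) : ℂ) / (s - (b : ℂ)) := by
  obtain ⟨hne, hLp⟩ := Lp_mem hp h
  rw [hLp, lab1_char p.1 p.2 s hs, Complex.ofReal_zero, zero_div]
  ring

/-- splitting of the sum -/
theorem ph_split {α : Type*} (S : Finset α) (a : α) (ha : a ∈ S) (P : α → Prop) [DecidablePred P]
    (hP : ∀ x, P x ↔ x ≠ a) (f : α → ℝ) : ∑ x ∈ S, f x = f a + ∑ x ∈ S.filter P, f x := by
  classical
  rw [← Finset.add_sum_erase S f ha]
  congr 1
  refine Finset.sum_congr ?_ fun _ _ => rfl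
  ext x
  rw [Finset.mem_erase, Finset.mem_filter, hP]
  tauto



end Pool.Agent.Lib.H18Q
end

-- from Lib.H18Q.CL1
section

/-!
# Project H18Q, chunk CL1: the projection at good and at exceptional levels
-/

open Finset

namespace Pool.Agent.Lib.H18Q

open Pool.Agent.Lib.H68T

/-- `∑_n lp(n) tent(m - n) χ(n)`. -/
noncomputable def Bc (Q X : ℕ) (p : Σ r : ℕ, DirichletCharacter ℂ r) (m : ℤ) : ℂ :=
  ∑ n ∈ Icc 1 (60 * X), ((lp n * tent (X / Q ^ 2) (m - n) : ℝ) : ℂ) * p.2 (n : ZMod p.1)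

theorem cl1_tent_lip {Y : ℕ} (z : ℤ) : |tent Y (z + 1) - tent Y z| ≤ 1 / (Y : ℝ) ^ 2 := by
  unfold tent
  rw [← sub_div, abs_div, abs_of_nonneg (by positivity : (0 : ℝ) ≤ (Y : ℝ) ^ 2)]
  apply div_le_div_of_nonneg_right _ (by positivity)
  rw [max_comm 0 _, max_comm 0 ((Y : ℝ) - |(z : ℝ)|)]
  refine (abs_max_sub_max_le_abs _ _ _).trans ?_
  have h1 : ((Y : ℝ) - |((z + 1 : ℤ) : ℝ)|) - ((Y : ℝ) - |(z : ℝ)|) = |(z : ℝ)| - |((z + 1 : ℤ) : ℝ)| := by
    ring
  rw [h1]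
  refine (abs_abs_sub_abs_le_abs_sub _ _).trans ?_
  push_cast
  rw [show (z : ℝ) - (z + 1) = -1 by ring, abs_neg, abs_one]

theorem cl1_tent_zero {Y : ℕ} {z : ℤ} (h : ¬ (-(Y : ℤ) ≤ z ∧ z < Y)) :
    tent Y (z + 1) - tent Y z = 0 := by
  have h1 : ∀ z' : ℤ, (Y : ℤ) ≤ |z'| → tent Y z' = 0 := by
    intro z' hz'
    unfold tent
    have h2 : (Y : ℝ) ≤ |(z' : ℝ)| := by exact_mod_cast hz'
    rw [max_eq_left (by linarith), zero_div]
  rw [not_and_or, not_le, not_lt] at h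
  rcases h with h | h
  · rw [h1 (z + 1) (by rw [abs_of_nonpos (by omega)]; omega),
      h1 z (by rw [abs_of_nonpos (by omega)]; omega), sub_zero]
  · rw [h1 (z + 1) (by rw [abs_of_nonneg (by omega)]; omega),
      h1 z (by rw [abs_of_nonneg (by omega)]; omega), sub_zero]

/-- Slow variation. Proof: `Y = X / Q²`; `|tent Y (z + 1) - tent Y z| ≤ 1/Y²`, and it vanishes unless
`|z| ≤ Y + 1`; so the difference is at most `(2 Y + 5) log (60 X)/Y² ≤ 7 log (60 X)/Y ≤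
14 Q² log (60 X)/X ≤ Q^3/(2 X)` (`X/Q² ≤ 2 Y`; `log (60 X) ≤ Q/28` for `K` large). -/
theorem Bc_lip : ∃ K : ℝ, 1 ≤ K ∧ ∀ Q X : ℕ, RegP K Q X → ∀ (p : Σ r : ℕ, DirichletCharacter ℂ r)
    (m : ℤ), (X : ℤ) ≤ m → m ≤ 4 * X → ‖Bc Q X p (m + 1) - Bc Q X p m‖ ≤ (Q : ℝ) ^ 3 / (2 * X) := by
  obtain ⟨K1, hK1, h1⟩ := BPS_regimeP
  obtain ⟨K2, hK2, h2⟩ := regp_log_le 48 1 1 one_pos
  refine ⟨max K1 K2, hK1.trans (le_max_left _ _), fun Q X hreg p m hm hm4 => ?_⟩
  have hK0 : 0 ≤ max K1 K2 := by linarith [le_max_left K1 K2]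
  obtain ⟨hQ, hX, hY, hYX, hXY, -⟩ := h1 Q X (hreg.mono hK0 (le_max_left _ _))
  have hlog := h2 Q X (hreg.mono hK0 (le_max_right _ _))
  rw [Real.rpow_one, Real.rpow_one] at hlog
  have hlX := hreg.logX_ge_one (by linarith [le_max_left K1 K2] : 0 < max K1 K2)
  obtain ⟨Y, hYd⟩ : ∃ Y, Y = X / Q ^ 2 := ⟨_, rfl⟩
  have hX0 : (0 : ℝ) < X := by exact_mod_cast hX
  have hQ0 : (0 : ℝ) < Q := by exact_mod_cast hQ
  have hBc : ∀ m, Bc Q X p m = ∑ n ∈ Icc 1 (60 * X), ((lp n * tent Y (m - n) : ℝ) : ℂ) *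
      p.2 (n : ZMod p.1) := by
    intro m
    unfold Bc
    rw [← hYd]
  rw [← hYd] at hY hYX hXY
  have hY0 : (0 : ℝ) < Y := by exact_mod_cast hY
  rw [hBc, hBc, ← Finset.sum_sub_distrib]
  set L := Real.log (60 * X) with hL
  have hLb : L ≤ 6 * Real.log X := by
    rw [hL, Real.log_mul (by norm_num) hX0.ne']
    have h3 : Real.log 60 ≤ 5 := by
      rw [Real.log_le_iff_le_exp (by norm_num)]
      have h4 : (2.7 : ℝ) ≤ Real.exp 1 := by linarith [Real.exp_one_gt_d9]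
      have h5 : Real.exp 5 = Real.exp 1 ^ 5 := by
        rw [← Real.exp_nat_mul]
        norm_num
      rw [h5]
      calc (60 : ℝ) ≤ 2.7 ^ 5 := by norm_num
        _ ≤ Real.exp 1 ^ 5 := pow_le_pow_left₀ (by norm_num) h4 5
    linarith
  have hL0 : 0 ≤ L := by
    rw [hL]
    apply Real.log_nonneg
    have : (1 : ℝ) ≤ X := by exact_mod_cast hX
    linarith
  have hlp : ∀ n ∈ Icc 1 (60 * X), 0 ≤ lp n ∧ lp n ≤ L := by
    intro n hn
    rw [mem_Icc] at hn
    unfold Pool.Agent.Lib.H68T.lp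
    have h3 : (1 : ℝ) ≤ ((n : ℤ) : ℝ) := by exact_mod_cast hn.1
    have h4 : ((n : ℤ) : ℝ) ≤ 60 * X := by exact_mod_cast hn.2
    split_ifs
    · exact ⟨Real.log_nonneg h3, Real.log_le_log (by linarith) h4⟩
    · exact ⟨le_rfl, hL0⟩
  have hterm : ∀ n ∈ Icc 1 (60 * X), ‖((lp n * tent Y (m + 1 - n) : ℝ) : ℂ) * p.2 (n : ZMod p.1) -
      ((lp n * tent Y (m - n) : ℝ) : ℂ) * p.2 (n : ZMod p.1)‖ ≤
      if -(Y : ℤ) ≤ m - n ∧ m - n < Y then L * (1 / (Y : ℝ) ^ 2) else 0 := by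
    intro n hn
    rw [← sub_mul, ← Complex.ofReal_sub, ← mul_sub, norm_mul, Complex.norm_real, Real.norm_eq_abs, abs_mul]
    have e1 : m + 1 - (n : ℤ) = (m - n) + 1 := by ring
    rw [e1]
    have hchi : ‖p.2 (n : ZMod p.1)‖ ≤ 1 := DirichletCharacter.norm_le_one p.2 _
    split_ifs with h
    · calc |lp n| * |tent Y (m - n + 1) - tent Y (m - n)| * ‖p.2 (n : ZMod p.1)‖
          ≤ (L * (1 / (Y : ℝ) ^ 2)) * 1 := by
            apply mul_le_mul _ hchi (norm_nonneg _) (by positivity)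
            apply mul_le_mul _ (cl1_tent_lip _) (abs_nonneg _) hL0
            rw [abs_of_nonneg (hlp n hn).1]
            exact (hlp n hn).2
        _ = _ := mul_one _
    · rw [cl1_tent_zero h, abs_zero, mul_zero, zero_mul]
  refine (norm_sum_le _ _).trans ((Finset.sum_le_sum hterm).trans ?_)
  rw [← Finset.sum_filter, Finset.sum_const, nsmul_eq_mul]
  have hcard : ((Icc 1 (60 * X)).filter (fun n : ℕ => -(Y : ℤ) ≤ m - n ∧ m - n < Y)).card ≤ 2 * Y := by
    have hsub : (Icc 1 (60 * X)).filter (fun n : ℕ => -(Y : ℤ) ≤ m - n ∧ m - n < Y) ⊆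
        Ioc (m.toNat - Y) (m.toNat + Y) := by
      intro n hn
      rw [mem_filter] at hn
      rw [mem_Ioc]
      omega
    refine (Finset.card_le_card hsub).trans ?_
    rw [Nat.card_Ioc]
    omega
  have hcard' : (((Icc 1 (60 * X)).filter (fun n : ℕ => -(Y : ℤ) ≤ m - n ∧ m - n < Y)).card : ℝ) ≤
      2 * Y := by exact_mod_cast hcard
  refine (mul_le_mul_of_nonneg_right hcard' (by positivity)).trans ?_
  have e2 : 2 * (Y : ℝ) * (L * (1 / (Y : ℝ) ^ 2)) = 2 * L / Y := by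
    field_simp
  rw [e2, div_le_div_iff₀ hY0 (by positivity)]
  have h8 : 8 * L ≤ Q := by linarith
  calc 2 * L * (2 * (X : ℝ)) = 4 * L * X := by ring
    _ ≤ 4 * L * (2 * (Q : ℝ) ^ 2 * Y) := mul_le_mul_of_nonneg_left hXY (by linarith)
    _ = (8 * L) * ((Q : ℝ) ^ 2 * Y) := by ring
    _ ≤ Q * ((Q : ℝ) ^ 2 * Y) := mul_le_mul_of_nonneg_right h8 (by positivity)
    _ = (Q : ℝ) ^ 3 * Y := by ring

/-- `Lk` as a sum over the components: `DA_expand` (`Q + X/Q² ≤ X`, `X/Q² < X` for `K` large). -/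
theorem Lk_SG : ∃ K : ℝ, 1 ≤ K ∧ ∀ Q X : ℕ, RegP K Q X → ∀ m : ℤ, (X : ℤ) ≤ m → m ≤ 4 * X →
    (Lk Q (X / Q ^ 2) m : ℂ) = SG Q (fun p => Bc Q X p m) m := by
  obtain ⟨K1, hK1, h1⟩ := BPS_regimeP
  obtain ⟨K2, hK2, h2⟩ := regp_pow_le 2 1 1 one_pos
  refine ⟨max K1 K2, hK1.trans (le_max_left _ _), fun Q X hreg m hm hm4 => ?_⟩
  have hK0 : 0 ≤ max K1 K2 := by linarith [le_max_left K1 K2]
  obtain ⟨hQ, hX, hY, hYX, hXY, -⟩ := h1 Q X (hreg.mono hK0 (le_max_left _ _))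
  have hlog := h2 Q X (hreg.mono hK0 (le_max_right _ _))
  rw [Real.rpow_one, Real.rpow_one] at hlog
  have h3 : 2 * Q ≤ X := by exact_mod_cast hlog
  unfold SG Bc
  exact DA_expand Q X (X / Q ^ 2) m hm hm4 (by omega) (by omega)


theorem cl1_int_nonneg (Q : ℕ) (F : ℝ → ℂ) : 0 ≤ ∫ t in (-(Q : ℝ) ^ 7)..((Q : ℝ) ^ 7), ‖F t‖ := by
  apply intervalIntegral.integral_nonneg
  · have : (0 : ℝ) ≤ (Q : ℝ) ^ 7 := by positivity
    linarith
  · intro t _
    exact norm_nonneg _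

theorem cl1_p0_one (m : ℤ) : (starRingEnd ℂ) (p0.2 (m : ZMod p0.1)) = 1 := by
  have h1 : (m : ZMod p0.1) = 1 := by
    have : Subsingleton (ZMod p0.1) := by
      change Subsingleton (ZMod 1)
      infer_instance
    exact Subsingleton.elim _ _
  rw [h1, map_one, map_one]

/-- the bound for `p0` -/
theorem cl1_B0 : ∃ K : ℝ, 1 ≤ K ∧ ∀ Q X : ℕ, RegP K Q X → ∀ m : ℤ, (X : ℤ) ≤ m → m ≤ 4 * X →
    ‖Bc Q X p0 m - 1‖ ≤
      (∫ t in (-(Q : ℝ) ^ 7)..((Q : ℝ) ^ 7), ‖FL X p0 t - F0 X t‖) +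
        (Q : ℝ) ^ (-(5 / 2) : ℝ) := by
  obtain ⟨K, hK, h⟩ := B0_leP
  refine ⟨K, hK, fun Q X hreg m hm hm4 => ?_⟩
  refine le_trans (le_of_eq ?_) (h Q X hreg m hm hm4)
  have h1 : Bc Q X p0 m - 1 = ((∑ n ∈ Icc 1 (60 * X), lp n * tent (X / Q ^ 2) (m - n) - 1 : ℝ) : ℂ) := by
    unfold Bc
    push_cast
    congr 1
    refine Finset.sum_congr rfl fun n _ => ?_
    have h1 : (n : ZMod p0.1) = 1 := by
      have : Subsingleton (ZMod p0.1) := by
        change Subsingleton (ZMod 1)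
        infer_instance
      exact Subsingleton.elim _ _
    rw [h1, map_one, mul_one]
  rw [h1, Complex.norm_real, Real.norm_eq_abs]

theorem cl1_Qpow {Q : ℕ} (hQ : 1 ≤ Q) : (Q : ℝ) ^ 2 * (Q : ℝ) ^ (-(5 / 2) : ℝ) = 1 / Real.sqrt Q ∧
    (Q : ℝ) ^ (-(3 / 2) : ℝ) ≤ 1 / Real.sqrt Q := by
  have hQ0 : (0 : ℝ) < Q := by exact_mod_cast hQ
  have hQ1 : (1 : ℝ) ≤ Q := by exact_mod_cast hQ
  have h1 : 1 / Real.sqrt Q = (Q : ℝ) ^ (-(1 / 2) : ℝ) := by
    rw [Real.sqrt_eq_rpow, Real.rpow_neg hQ0.le, one_div]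
  rw [h1]
  constructor
  · have h2 : (Q : ℝ) ^ 2 = (Q : ℝ) ^ (2 : ℝ) := by exact_mod_cast (Real.rpow_natCast (Q : ℝ) 2).symm
    rw [h2, ← Real.rpow_add hQ0]
    norm_num
  · exact Real.rpow_le_rpow_of_exponent_le hQ1 (by norm_num)


/-- `m^(β-1)` varies slowly -/
theorem cl1_rpow {x β : ℝ} (hx : 1 ≤ x) (hβ : 0 ≤ β) (hβ1 : β ≤ 1) :
    |(x + 1) ^ (β - 1) - x ^ (β - 1)| ≤ 1 / x ∧ x ^ (β - 1) ≤ 1 ∧ 0 ≤ x ^ (β - 1) := by
  have hx0 : 0 < x := by linarith
  have h1 : x ^ (β - 1) ≤ 1 := Real.rpow_le_one_of_one_le_of_nonpos hx (by linarith)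
  have h0 : 0 ≤ x ^ (β - 1) := Real.rpow_nonneg hx0.le _
  refine ⟨?_, h1, h0⟩
  have h2 : (x + 1) ^ (β - 1) ≤ x ^ (β - 1) :=
    Real.rpow_le_rpow_of_nonpos hx0 (by linarith) (by linarith)
  rw [abs_of_nonpos (by linarith)]
  have h3 : x / (x + 1) ≤ (x / (x + 1)) ^ (1 - β) := by
    have h4 : 0 < x / (x + 1) := by positivity
    have h5 : x / (x + 1) ≤ 1 := by
      rw [div_le_one (by linarith)]
      linarith
    calc x / (x + 1) = (x / (x + 1)) ^ (1 : ℝ) := (Real.rpow_one _).symm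
      _ ≤ (x / (x + 1)) ^ (1 - β) := Real.rpow_le_rpow_of_exponent_ge h4 h5 (by linarith)
  have h4 : (x + 1) ^ (β - 1) = x ^ (β - 1) * (x / (x + 1)) ^ (1 - β) := by
    rw [Real.div_rpow hx0.le (by linarith), mul_div_assoc', ← Real.rpow_add hx0,
      show β - 1 + (1 - β) = 0 by ring, Real.rpow_zero, show β - 1 = -(1 - β) by ring,
      Real.rpow_neg (by linarith), one_div]
  rw [h4]
  have h5 : -(x ^ (β - 1) * (x / (x + 1)) ^ (1 - β) - x ^ (β - 1)) =
      x ^ (β - 1) * (1 - (x / (x + 1)) ^ (1 - β)) := by ring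
  rw [h5]
  have h6 : 1 - (x / (x + 1)) ^ (1 - β) ≤ 1 / x := by
    have h7 : 1 - x / (x + 1) = 1 / (x + 1) := by field_simp; ring
    have h8 : 1 / (x + 1) ≤ 1 / x := one_div_le_one_div_of_le hx0 (by linarith)
    linarith
  have h9 : 0 ≤ 1 - (x / (x + 1)) ^ (1 - β) := by
    have : (x / (x + 1)) ^ (1 - β) ≤ 1 := by
      apply Real.rpow_le_one (by positivity) _ (by linarith)
      rw [div_le_one (by linarith)]
      linarith
    linarith
  calc x ^ (β - 1) * (1 - (x / (x + 1)) ^ (1 - β)) ≤ 1 * (1 - (x / (x + 1)) ^ (1 - β)) :=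
        mul_le_mul_of_nonneg_right h1 h9
    _ ≤ 1 / x := by linarith


end Pool.Agent.Lib.H18Q
end

-- from Lib.H59P.Defs
section

/-!
# Project H59P: power savings for prime k-tuples (MP_f686a1_nt), definitions

See `PROOF.md` in this folder. The arithmetic input is `LevE` (project H18Q made quantitative): on
`[X, 4X]` the projection `Lk` of `lp` at level `Q` is a sum of components with slowly varying
coefficients, `1` at the trivial character, `-th m` at one real character `px`, and small ones.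
-/

open Finset

namespace Pool.Agent.Lib.H59P

open Pool.Agent.Lib.H68T Pool.Agent.Lib.H18Q

noncomputable section

/-- Characters with their modulus. -/
abbrev Ch := Σ r : ℕ, DirichletCharacter ℂ r

open Classical in
/-- The coefficients of the model: `1` at the trivial character, `-th m` at `px`, `0` else.
(For `px = p0`: `1` at `p0`, `0` else.) -/
def MX (px : Ch) (th : ℤ → ℝ) (m : ℤ) (p : Ch) : ℂ :=
  if p = p0 then 1 else if p = px then -((th m : ℝ) : ℂ) else 0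

/-- The projection `Lk` at level `Q` on `[X, 4X]` is the model with coefficients `M m p` up to
coefficients `e m p` of total size `E`; the latter vary slowly. -/
def LevE (Q X : ℕ) (E : ℝ) (M : ℤ → Ch → ℂ) : Prop :=
  ∃ (e : ℤ → Ch → ℂ) (eb : Ch → ℝ), (∀ p ∈ PC Q, 0 ≤ eb p) ∧ ∑ p ∈ PC Q, eb p ≤ E ∧
    ∀ m : ℤ, (X : ℤ) ≤ m → m ≤ 4 * X →
      ((Lk Q (X / Q ^ 2) m : ℝ) : ℂ) = SG Q (fun p => M m p + e m p) m ∧
      ∀ p ∈ PC Q, ‖e m p‖ ≤ eb p ∧ ‖e (m + 1) p - e m p‖ ≤ (Q : ℝ) ^ 3 / X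

/-- Everything the additive part needs about the level `Q` and the length `X`: the level structure
with the model `MX px th`, `px` a real character of small conductor, `0 ≤ th ≤ 1 - η` slowly varying,
and the coefficients of the error at most `η E0` in total. -/
structure Mdl (Q X : ℕ) (η E0 : ℝ) (px : Ch) (th : ℤ → ℝ) : Prop where
  eta_pos : 0 < η
  eta_le : η ≤ 1
  mem : px ∈ PC Q
  real : px.2 ^ 2 = 1
  cond : px.1 ^ 100 ≤ Q
  triv : px = p0 → ∀ m, th m = 0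
  nonneg : ∀ m, (X : ℤ) ≤ m → m ≤ 4 * X → 0 ≤ th m
  le : ∀ m, (X : ℤ) ≤ m → m ≤ 4 * X → th m ≤ 1 - η
  slow : ∀ m, (X : ℤ) ≤ m → m + 1 ≤ 4 * X → |th (m + 1) - th m| ≤ (Q : ℝ) ^ 3 / X
  lev : LevE Q X (η * E0) (MX px th)

/-- The local factor of the expansion of the von Mangoldt function at the prime `l`: `-1` if `l` divides
`m`, else `1/(l-1)`; so `1 + gl l m = l/(l-1)` if `l` does not divide `m`, and `0` else. -/
def gl (l : ℕ) (m : ℤ) : ℝ := if (l : ℤ) ∣ m then -1 else 1 / ((l : ℝ) - 1)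

/-- `∏_{l ∈ P} (1 + gl l m)` -/
def uu (P : Finset ℕ) (m : ℤ) : ℝ := ∏ l ∈ P, (1 + gl l m)

/-- The primes up to `z`. -/
def pr (z : ℕ) : Finset ℕ := (Icc 1 z).filter Nat.Prime

/-- The local factor of the singular series at the prime `l`, minus `1`. -/
def tp {k : ℕ} (l : ℕ) (h : Fin k → ℕ) : ℝ :=
  (∑ n ∈ range l, ∏ i, (1 + gl l ((n : ℤ) + h i))) / l - 1

/-- The product of the local factors of the singular series over the primes in `P`. -/
def SS {k : ℕ} (P : Finset ℕ) (h : Fin k → ℕ) : ℝ := ∏ l ∈ P, (1 + tp l h)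

/-- `∏_i (1 + gl l (n + h_i)) - 1` -/
def Wl {k : ℕ} (l : ℕ) (h : Fin k → ℕ) (n : ℤ) : ℝ := ∏ i, (1 + gl l (n + h i)) - 1

/-- `∏_{l ∣ d} Wl l h n` (`d` squarefree) -/
def Wd {k : ℕ} (d : ℕ) (h : Fin k → ℕ) (n : ℤ) : ℝ := ∏ l ∈ d.primeFactors, Wl l h n

/-- `∏_{l ∣ d} tp l h` (`d` squarefree) -/
def td {k : ℕ} (d : ℕ) (h : Fin k → ℕ) : ℝ := ∏ l ∈ d.primeFactors, tp l h

/-- The squarefree `d ≤ D` coprime to `R`. -/
def SF (D R : ℕ) : Finset ℕ :=
  open Classical in (Icc 1 D).filter (fun d => Squarefree d ∧ Nat.Coprime d R)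

/-- `h` is admissible: for every prime `l` some `n` makes all `n + h_i` prime to `l`. -/
def Adm {k : ℕ} (h : Fin k → ℕ) : Prop :=
  ∀ l : ℕ, l.Prime → ∃ n : ℕ, ∀ i, ¬ l ∣ n + h i





end

end Pool.Agent.Lib.H59P
end

-- from Lib.H59P.MDefs
section

/-!
# Project H59P: definitions for the main terms
-/

open Finset

namespace Pool.Agent.Lib.H59P

open Pool.Agent.Lib.H68T Pool.Agent.Lib.H18Q

noncomputable section

/-- `conj χ_p(m)` -/
def cj (p : Ch) (m : ℤ) : ℂ := (starRingEnd ℂ) (p.2 (m : ZMod p.1))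

/-- The periodic function of the main term: `∏_i conj χ_i(n+h_i) ∏_{l ∈ P} (1 + gl l (n+h_i))`. -/
def Ph {k : ℕ} (p : Fin k → Ch) (P : Finset ℕ) (h : Fin k → ℕ) (n : ℤ) : ℂ :=
  ∏ i, (cj (p i) (n + h i) * ((uu P (n + h i) : ℝ) : ℂ))

/-- Its mean modulo `R` for the primes dividing `R`. -/
def MR {k : ℕ} (p : Fin k → Ch) (R : ℕ) (h : Fin k → ℕ) : ℂ :=
  (∑ n ∈ range R, Ph p R.primeFactors h n) / R

/-- The mean over a complete period `Q!` for all primes up to `Q`. -/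
def MQ {k : ℕ} (Q : ℕ) (p : Fin k → Ch) (h : Fin k → ℕ) : ℂ :=
  (∑ n ∈ range Q.factorial, Ph p (pr Q) h n) / (Q.factorial : ℂ)

/-- The function of the main term: `∏_i uu(n+h_i) (1 - th_i ψ(n+h_i))`, `ψ` the character of `px`
(real). -/
def fP {k : ℕ} (Q : ℕ) (px : Ch) (th : Fin k → ℝ) (h : Fin k → ℕ) (n : ℤ) : ℝ :=
  ∏ i, (uu (pr Q) (n + h i) * (1 - th i * (cj px (n + h i)).re))

/-- The main term: the mean of `fP` over a complete period. -/
def PM {k : ℕ} (Q : ℕ) (px : Ch) (th : Fin k → ℝ) (h : Fin k → ℕ) : ℝ :=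
  (∑ n ∈ range Q.factorial, fP Q px th h n) / (Q.factorial : ℝ)

open Classical in
/-- The tuples of characters with `lcm(px.1, p_1.1, …, p_k.1) ≤ D`. -/
def TS (k Q D : ℕ) (px : Ch) : Finset (Fin k → Ch) :=
  (Fintype.piFinset fun _ : Fin k => PC Q).filter
    (fun p => px.1.lcm (univ.lcm fun i => (p i).1) ≤ D)

/-- The modulus of a tuple of characters. -/
def Rp {k : ℕ} (px : Ch) (p : Fin k → Ch) : ℕ := px.1.lcm (univ.lcm fun i => (p i).1)

end

end Pool.Agent.Lib.H59P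
end

-- from Lib.H59T.FDefs
section

/-!
# Project H59T, second part: mean squares of components over pairs (definitions)

`(y, y')` is random, one sums over `z`. The mean square is a sum over pairs `(κ, κ')` of complete sums in the four
variables `y, y', z, z'`, which factor over the primes.
-/

open Finset

namespace Pool.Agent.Lib.H59T

open Pool.Agent.Lib.H68T Pool.Agent.Lib.H18Q Pool.Agent.Lib.H59P

noncomputable section

/-- The sum over a complete period in four variables. -/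
def S4 (N : ℕ) (F : ℤ → ℤ → ℤ → ℤ → ℂ) : ℂ :=
  ∑ y ∈ range N, ∑ y' ∈ range N, ∑ z ∈ range N, ∑ z' ∈ range N, F y y' z z'

/-- Periodic in each of the four variables. -/
structure Per4 (N : ℕ) (F : ℤ → ℤ → ℤ → ℤ → ℂ) : Prop where
  h1 : ∀ y y' z z' : ℤ, F (y + N) y' z z' = F y y' z z'
  h2 : ∀ y y' z z' : ℤ, F y (y' + N) z z' = F y y' z z'
  h3 : ∀ y y' z z' : ℤ, F y y' (z + N) z' = F y y' z z'
  h4 : ∀ y y' z z' : ℤ, F y y' z (z' + N) = F y y' z z'

/-- Integer functions of `(y, y', z)`. -/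
abbrev Fm (k : ℕ) := Fin k → ℤ → ℤ → ℤ → ℤ

/-- Congruence preserving in each variable. -/
def CpF {k : ℕ} (ψ : Fm k) : Prop := ∀ (i : Fin k) (q y y' z : ℤ),
  q ∣ ψ i (y + q) y' z - ψ i y y' z ∧ q ∣ ψ i y (y' + q) z - ψ i y y' z ∧
    q ∣ ψ i y y' (z + q) - ψ i y y' z



/-- The doubled product `∏ g_i(ψ_i(y,y',z)) conj g'_i(ψ_i(y,y',z'))`. -/
def Db {k : ℕ} (ψ : Fm k) (g g' : Fin k → ℤ → ℂ) (y y' z z' : ℤ) : ℂ :=
  ∏ i, (g i (ψ i y y' z) * (starRingEnd ℂ) (g' i (ψ i y y' z')))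

/-- `F l` is the primitive character modulo the exact power of `l` in `p.1`, for the primes `l ∣ p.1`, and `p` is
their product. -/
def LCh (p : Ch) (F : ℕ → Ch) : Prop :=
  (∀ l ∈ p.1.primeFactors, (F l).1 = l ^ p.1.factorization l ∧ (F l).2.IsPrimitive) ∧
    ∀ n : ℤ, p.2 (n : ZMod p.1) = ∏ l ∈ p.1.primeFactors, (F l).2 (n : ZMod (F l).1)

/-- The local components of a character. -/
def lch (p : Ch) : ℕ → Ch := open Classical in if h : ∃ F : ℕ → Ch, LCh p F then h.choose else fun _ => p0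

/-- The local factor at the prime `l` of the component `gk p κ`. -/
def lf (p : Ch) (κ l : ℕ) (m : ℤ) : ℂ :=
  if l ∣ p.1 then (((l : ℝ) / ((l : ℝ) - 1) : ℝ) : ℂ) * cj (lch p l) m
  else if l ∣ κ then ((gl l m : ℝ) : ℂ) else 1

/-- The least common multiple of the conductors. -/
def Rm {k : ℕ} (p : Fin k → Ch) : ℕ := univ.lcm fun i => (p i).1

/-- Positive conductors, primitive characters. -/
def Pm {k : ℕ} (p : Fin k → Ch) : Prop := ∀ i, 0 < (p i).1 ∧ (p i).2.IsPrimitive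

/-- Squarefree, coprime to the conductors. -/
def Kp {k : ℕ} (p : Fin k → Ch) (κ : Fin k → ℕ) : Prop :=
  ∀ i, Squarefree (κ i) ∧ Nat.Coprime (κ i) (p i).1

/-- The local bounds: gain `(l^b)^(-c)` at the primes `l` dividing the conductors (`l^b` exactly divides their least
common multiple) and `l^(-2)` at the other primes which divide some modulus, up to constants `2^A`. -/
def LocB {k : ℕ} (ψ : Fm k) (A : ℕ) (c : ℝ) : Prop :=
  ∀ p : Fin k → Ch, Pm p → ∀ κ κ' : Fin k → ℕ, Kp p κ → Kp p κ' → ∀ l : ℕ, l.Prime →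
    (l ∣ Rm p → ‖S4 (l ^ (Rm p).factorization l)
        (Db ψ (fun i => lf (p i) (κ i) l) (fun i => lf (p i) (κ' i) l))‖ ≤
      ((l ^ (Rm p).factorization l : ℕ) : ℝ) ^ 4 *
        (2 ^ A * ((l ^ (Rm p).factorization l : ℕ) : ℝ) ^ (-c))) ∧
    (¬ l ∣ Rm p → (∃ i, l ∣ κ i ∨ l ∣ κ' i) →
      ‖S4 l (Db ψ (fun i => lf (p i) (κ i) l) (fun i => lf (p i) (κ' i) l))‖ ≤
        (l : ℝ) ^ 4 * (2 ^ A / (l : ℝ) ^ 2))

open Classical in
/-- The product of the primes dividing some `κ_i` or `κ'_i` but not `R`. -/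
def dof {k : ℕ} (R : ℕ) (κ κ' : Fin k → ℕ) : ℕ :=
  ∏ l ∈ (univ.biUnion fun i => (κ i).primeFactors ∪ (κ' i).primeFactors).filter (fun l => ¬ l ∣ R), l

/-- The number of divisors. -/
def tau (n : ℕ) : ℝ := (n.divisors.card : ℝ)

/-- `gl l` as a function on `ZMod l`. -/
def glz (l : ℕ) (t : ZMod l) : ℝ := if t = 0 then -1 else 1 / ((l : ℝ) - 1)

end

end Pool.Agent.Lib.H59T
end

-- from Lib.H59T.LKDefs
section

/-!
# Project H59T, module LK: the difference of the projections at two levels is negligible (definitions)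
-/

open Finset

namespace Pool.Agent.Lib.H59T

open Pool.Agent.Lib.H68T Pool.Agent.Lib.H18Q Pool.Agent.Lib.H59P

noncomputable section

/-- The forms `2z + e_0`, `2z + y + e_1`, `2z + y' + e_2`, `2z + y + y' + e_3`. -/
def uf (e : Fin 4 → ℤ) : Fm 4 := ![fun _ _ z => 2 * z + e 0, fun y _ z => 2 * z + y + e 1,
  fun _ y' z => 2 * z + y' + e 2, fun y y' z => 2 * z + y + y' + e 3]

/-- The eighth power of the `U³` norm of `f`, times `N⁴`. -/
def UU {N : ℕ} [NeZero N] (f : ZMod N → ℂ) : ℝ :=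
  ∑ A : ZMod N, ∑ B : ZMod N, ‖∑ s : ZMod N, f s * star (f (s + A)) * star (f (s + B)) * f (s + A + B)‖ ^ 2

/-- The part of the components of `p` with moduli between `Q'` and `Q`. -/
def Vl (Q Q' : ℕ) (p : Ch) (m : ℤ) : ℂ := ∑ κ ∈ (KS Q p.1).filter (fun κ => Q' < p.1 * κ), gk p κ m

/-- `F(m+h+k) conj F(m+h'+k) conj F(m+h+k') F(m+h'+k')` -/
def P4 (F : ℤ → ℂ) (h h' k k' m : ℤ) : ℂ :=
  F (m + h + k) * (starRingEnd ℂ) (F (m + h' + k)) * (starRingEnd ℂ) (F (m + h + k')) * F (m + h' + k')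

end

end Pool.Agent.Lib.H59T
end

-- from Lib.H59T.L1
section

/-!
# Project H59T, chunk L1 (M): splitting off a coprime factor of the modulus of a primitive character
-/

open Finset

namespace Pool.Agent.Lib.H59T

theorem l1_prim (N q m : ℕ) (hN : N = q * m) (hq : 0 < q) (hm : 0 < m)
    (χ : DirichletCharacter ℂ N) (hχ : χ.IsPrimitive)
    (χ1 : DirichletCharacter ℂ q) (χ2 : DirichletCharacter ℂ m)
    (h : ∀ n : ℤ, χ (n : ZMod N) = χ1 (n : ZMod q) * χ2 (n : ZMod m)) : χ1.IsPrimitive := by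
  subst hN
  by_contra hne
  have hc : χ1.conductor ∣ q := χ1.conductor_dvd_level
  have hlt : χ1.conductor < q := lt_of_le_of_ne (Nat.le_of_dvd hq hc) hne
  set c := χ1.conductor with hcdef
  set ψ : DirichletCharacter ℂ (c * m) :=
    DirichletCharacter.changeLevel (dvd_mul_right c m) χ1.primitiveCharacter *
      DirichletCharacter.changeLevel (dvd_mul_left m c) χ2 with hψ
  have hdvd : c * m ∣ q * m := mul_dvd_mul_right hc m
  have key : χ = DirichletCharacter.changeLevel hdvd ψ := by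
    apply MulChar.ext
    intro u
    obtain ⟨n, hn⟩ := ZMod.intCast_surjective (u : ZMod (q * m))
    have hu : IsUnit ((n : ℤ) : ZMod (q * m)) := by rw [hn]; exact u.isUnit
    have hcop : IsCoprime (n : ℤ) ((q * m : ℕ) : ℤ) :=
      ((ZMod.coe_int_isUnit_iff_isCoprime n (q * m)).1 hu).symm
    have hcopq : IsCoprime (n : ℤ) ((q : ℕ) : ℤ) := by
      push_cast at hcop
      exact hcop.of_mul_right_left
    have hcopc : IsCoprime (n : ℤ) ((c * m : ℕ) : ℤ) :=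
      hcop.of_isCoprime_of_dvd_right (by exact_mod_cast hdvd)
    rw [← hn, h n, DirichletCharacter.changeLevel_eq_cast_of_dvd' ψ hdvd hcop, hψ, MulChar.mul_apply,
      DirichletCharacter.changeLevel_eq_cast_of_dvd' _ (dvd_mul_right c m) hcopc,
      DirichletCharacter.changeLevel_eq_cast_of_dvd' _ (dvd_mul_left m c) hcopc,
      DirichletCharacter.primitiveCharacter_apply_of_isCoprime χ1 hcopq]
  have hmem : c * m ∈ χ.conductorSet := ⟨hdvd, ψ, key⟩
  have hle : χ.conductor ≤ c * m := Nat.sInf_le hmem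
  have he : χ.conductor = q * m := hχ
  rw [he] at hle
  exact absurd (Nat.mul_lt_mul_of_pos_right hlt hm) (not_lt.2 hle)

/-- Proof. `e = ZMod.chineseRemainder hqm : ZMod (q * m) ≃+* ZMod q × ZMod m` sends the integer `n` to `(n, n)` (`map_intCast`).
Put `χ1 x = χ (e.symm (x, 1))`, `χ2 y = χ (e.symm (1, y))` (`MulChar`: multiplicative, `0` at nonunits because `(x, 1)` is a unit
iff `x` is). Then `χ n = χ1 n χ2 n` since `(n, n) = (n, 1) (1, n)`. If `χ1` were not primitive, `χ1` would factor through a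
proper divisor `c` of `q` (`χ1.factorsThrough_conductor`): `χ1 = changeLevel ξ`, so `χ` agrees with
`changeLevel (changeLevel ξ * changeLevel χ2)`, the inner character of modulus `c m` (equality on units, `MulChar.ext`,
both sides evaluated at integers prime to `q m`: `DirichletCharacter.changeLevel_eq_cast_of_dvd`); so
`χ.FactorsThrough (c * m)`, and the conductor of `χ` is at most `c m < q m` (it is `sInf` of the conductor set,
`Nat.sInf_le`), a contradiction. The same for `χ2`. -/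
theorem L1_split (q m : ℕ) (hq : 0 < q) (hm : 0 < m) (hqm : Nat.Coprime q m)
    (χ : DirichletCharacter ℂ (q * m)) (hχ : χ.IsPrimitive) :
    ∃ (χ1 : DirichletCharacter ℂ q) (χ2 : DirichletCharacter ℂ m), χ1.IsPrimitive ∧ χ2.IsPrimitive ∧
      ∀ n : ℤ, χ (n : ZMod (q * m)) = χ1 (n : ZMod q) * χ2 (n : ZMod m) := by
  classical
  set e := ZMod.chineseRemainder hqm with he
  have hsymm : ∀ n : ℤ, e.symm ((n : ZMod q), (n : ZMod m)) = (n : ZMod (q * m)) := by
    intro n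
    rw [RingEquiv.symm_apply_eq, map_intCast]
    rfl
  let χ1 : DirichletCharacter ℂ q :=
    { toFun := fun x => χ (e.symm (x, 1))
      map_one' := by
        have h1 : e.symm ((1 : ZMod q), (1 : ZMod m)) = 1 := map_one e.symm
        change χ (e.symm ((1 : ZMod q), (1 : ZMod m))) = 1
        rw [h1, map_one]
      map_mul' := by
        intro x y
        change χ (e.symm ((x * y : ZMod q), (1 : ZMod m))) = χ (e.symm (x, 1)) * χ (e.symm (y, 1))
        rw [← map_mul, ← map_mul, Prod.mk_mul_mk, mul_one]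
      map_nonunit' := by
        intro x hx
        change χ (e.symm (x, 1)) = 0
        apply χ.map_nonunit
        intro hu
        apply hx
        have h2 : IsUnit (e (e.symm (x, 1))) := hu.map e
        rw [RingEquiv.apply_symm_apply, Prod.isUnit_iff] at h2
        exact h2.1 }
  let χ2 : DirichletCharacter ℂ m :=
    { toFun := fun y => χ (e.symm (1, y))
      map_one' := by
        have h1 : e.symm ((1 : ZMod q), (1 : ZMod m)) = 1 := map_one e.symm
        change χ (e.symm ((1 : ZMod q), (1 : ZMod m))) = 1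
        rw [h1, map_one]
      map_mul' := by
        intro x y
        change χ (e.symm ((1 : ZMod q), (x * y : ZMod m))) = χ (e.symm (1, x)) * χ (e.symm (1, y))
        rw [← map_mul, ← map_mul, Prod.mk_mul_mk, mul_one]
      map_nonunit' := by
        intro x hx
        change χ (e.symm (1, x)) = 0
        apply χ.map_nonunit
        intro hu
        apply hx
        have h2 : IsUnit (e (e.symm (1, x))) := hu.map e
        rw [RingEquiv.apply_symm_apply, Prod.isUnit_iff] at h2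
        exact h2.2 }
  have h : ∀ n : ℤ, χ (n : ZMod (q * m)) = χ1 (n : ZMod q) * χ2 (n : ZMod m) := by
    intro n
    change χ (n : ZMod (q * m)) = χ (e.symm ((n : ZMod q), 1)) * χ (e.symm (1, (n : ZMod m)))
    rw [← map_mul, ← map_mul, Prod.mk_mul_mk, mul_one, one_mul, hsymm]
  refine ⟨χ1, χ2, ?_, ?_, h⟩
  · exact l1_prim (q * m) q m rfl hq hm χ hχ χ1 χ2 h
  · exact l1_prim (q * m) m q (mul_comm q m) hm hq χ hχ χ2 χ1 (fun n => by rw [h n, mul_comm])

end Pool.Agent.Lib.H59T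
end

-- from Lib.H59T.L2
section

/-!
# Project H59T, chunk L2 (M): a primitive character is the product of primitive characters of prime power moduli
-/

open Finset

namespace Pool.Agent.Lib.H59T

open Pool.Agent.Lib.H68T Pool.Agent.Lib.H18Q Pool.Agent.Lib.H59P

theorem l2_aux (r : ℕ) : 0 < r → ∀ χ : DirichletCharacter ℂ r, χ.IsPrimitive → ∃ F : ℕ → Ch, LCh ⟨r, χ⟩ F := by
  induction r using Nat.recOnPosPrimePosCoprime with
  | zero => intro h; exact absurd h (lt_irrefl 0)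
  | one =>
    intro _ χ _
    refine ⟨fun _ => ⟨1, χ⟩, fun l hl => ?_, fun n => ?_⟩
    · simp at hl
    · change χ (n : ZMod 1) = ∏ l ∈ (1 : ℕ).primeFactors, χ (n : ZMod 1)
      rw [Nat.primeFactors_one, prod_empty, Subsingleton.elim (n : ZMod 1) 1, map_one]
  | prime_pow p n hp hn =>
    intro _ χ hχ
    have h1 : (p ^ n).primeFactors = {p} := Nat.primeFactors_prime_pow hn.ne' hp
    refine ⟨fun _ => ⟨p ^ n, χ⟩, fun l hl => ?_, fun m => ?_⟩
    · change l ∈ (p ^ n).primeFactors at hl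
      rw [h1, mem_singleton] at hl
      refine ⟨?_, hχ⟩
      change p ^ n = l ^ (p ^ n).factorization l
      rw [hl, hp.factorization_pow, Finsupp.single_eq_same]
    · change χ (m : ZMod (p ^ n)) = ∏ l ∈ (p ^ n).primeFactors, χ (m : ZMod (p ^ n))
      rw [h1, prod_singleton]
  | coprime a b ha hb hab iha ihb =>
    intro _ χ hχ
    obtain ⟨χ1, χ2, h1, h2, h3⟩ := L1_split a b (by omega) (by omega) hab χ hχ
    obtain ⟨F1, hF1, hF1'⟩ := iha (by omega) χ1 h1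
    obtain ⟨F2, hF2, hF2'⟩ := ihb (by omega) χ2 h2
    have hdisj : Disjoint a.primeFactors b.primeFactors := hab.disjoint_primeFactors
    have hb2 : ∀ l ∈ b.primeFactors, ¬ l ∈ a.primeFactors := fun l hl hl' => disjoint_left.1 hdisj hl' hl
    refine ⟨fun l => if l ∈ a.primeFactors then F1 l else F2 l, fun l hl => ?_, fun n => ?_⟩
    · change l ∈ (a * b).primeFactors at hl
      change (if l ∈ a.primeFactors then F1 l else F2 l).1 = l ^ (a * b).factorization l ∧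
        (if l ∈ a.primeFactors then F1 l else F2 l).2.IsPrimitive
      rw [hab.primeFactors_mul, mem_union] at hl
      by_cases h4 : l ∈ a.primeFactors
      · rw [if_pos h4, Nat.factorization_eq_of_coprime_left hab (List.mem_toFinset.1 h4)]
        exact hF1 l h4
      · have h5 : l ∈ b.primeFactors := hl.resolve_left h4
        rw [if_neg h4, Nat.factorization_eq_of_coprime_right hab (List.mem_toFinset.1 h5)]
        exact hF2 l h5
    · change χ (n : ZMod (a * b)) = ∏ l ∈ (a * b).primeFactors,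
        (if l ∈ a.primeFactors then F1 l else F2 l).2 (n : ZMod (if l ∈ a.primeFactors then F1 l else F2 l).1)
      rw [h3 n, hab.primeFactors_mul, prod_union hdisj]
      have h6 := hF1' n
      have h7 := hF2' n
      change χ1 (n : ZMod a) = ∏ l ∈ a.primeFactors, (F1 l).2 (n : ZMod (F1 l).1) at h6
      change χ2 (n : ZMod b) = ∏ l ∈ b.primeFactors, (F2 l).2 (n : ZMod (F2 l).1) at h7
      rw [h6, h7]
      refine congrArg₂ _ (prod_congr rfl fun l hl => ?_) (prod_congr rfl fun l hl => ?_)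
      · rw [if_pos hl]
      · rw [if_neg (hb2 l hl)]

/-- Proof. Strong induction on `p.1` (destruct `p = ⟨r, χ⟩`). `r = 1`: `ZMod 1` is a subsingleton, `χ n = χ 1 = 1`, empty product.
`r > 1`: `l = r.minFac`, `r = l^a m` with `a = r.factorization l` (`Nat.ordProj_mul_ordCompl_eq_self`, `m = ordCompl[l] r`, positive,
coprime to `l`); `subst`/generalize so that `L1_split` applies (`q = l^a`); the induction hypothesis for `⟨m, χ2⟩` gives `F'`,
`F = Function.update F' l ⟨l^a, χ1⟩`. The prime factors of `r` are `l` and those of `m`, and the exponents in `r` and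
`m` agree at the primes other than `l` (`Nat.factorization_ordCompl`). -/
theorem L2_family (p : Ch) (h0 : 0 < p.1) (hp : p.2.IsPrimitive) : ∃ F : ℕ → Ch, LCh p F := by
  obtain ⟨r, χ⟩ := p
  exact l2_aux r h0 χ hp

/-- Proof. `Exists.choose_spec`. -/
theorem L2_spec (p : Ch) (h0 : 0 < p.1) (hp : p.2.IsPrimitive) : LCh p (lch p) := by
  have h : ∃ F : ℕ → Ch, LCh p F := L2_family p h0 hp
  unfold lch
  rw [dif_pos h]
  exact h.choose_spec

end Pool.Agent.Lib.H59T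
end
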