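import Pool.Agent.Lib.H59M.M2.M053
import Pool.Agent.Lib.H59M.M2.M054
import Pool.Agent.Lib.H59M.M2.M058
import Pool.Agent.Lib.H59M.M2.M075
import Pool.Agent.Lib.H59M.M2.M076

/-! Merged copies (to shorten the build) of Lib.H21T.Z6, Lib.H21T.Main. -/

-- from Lib.H21T.Z6
section

/-!
# Chunk Z6 (M): major arcs
-/

namespace Pool.Agent.Lib.H21T

open Finset Pool.Agent.SZW

/-- The final inequality. -/
theorem z6_fin {u h : ℝ} (hu : 64 ≤ u) (hh : 64 * u ≤ h) : h / (8 * u) + 8 + h / (8 * u) ≤ h / u := by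
  have hu0 : 0 < u := by linarith
  have e : h / u - (h / (8 * u) + h / (8 * u)) = 3 / 4 * (h / u) := by
    field_simp
    ring
  have h1 : 64 ≤ h / u := by
    rw [le_div_iff₀ hu0]
    exact hh
  linarith

/-- `2 (H / B + 1) (H / A + 1) ≤ 8` if `H ≤ A ≤ B`. -/
theorem z6_err {A B H : ℝ} (hA : 0 < A) (hAB : A ≤ B) (hH : H ≤ A) (h0 : 0 ≤ H) : 2 * ((H / B + 1) * (H / A + 1)) ≤ 8 := by
  have hB : 0 < B := lt_of_lt_of_le hA hAB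
  have h1 : H / A ≤ 1 := by
    rw [div_le_iff₀ hA]
    linarith
  have h2 : H / B ≤ 1 := by
    rw [div_le_iff₀ hB]
    linarith
  have h3 : 0 ≤ H / A := by positivity
  have h4 : 0 ≤ H / B := by positivity
  nlinarith

/-- The position: if `x < A1 B1 / 2` then the interval is below `A1 B1`. -/
theorem z6_low {P A1 B1 x H : ℝ} (hP : 6 ≤ P) (hA : P ≤ A1) (hB : P ≤ B1) (hx : 2 * x < A1 * B1) (hH : H ≤ 3 * P) : x + H ≤ A1 * B1 := by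
  have h1 : P * P ≤ A1 * B1 := mul_le_mul hA hB (by linarith) (by linarith)
  nlinarith

theorem z6_size {u P R A B : ℝ} (hu : 1 ≤ u) (hR : R = u ^ 2 * (P * P)) (hP : 0 < P) (hA : P ≤ A) (hAB : A * B ≤ R) : A * B ≤ u ^ 2 * A ^ 2 := by
  have h1 : P * P ≤ A * A := mul_le_mul hA hA hP.le (by linarith)
  have h2 : u ^ 2 * (P * P) ≤ u ^ 2 * (A * A) := mul_le_mul_of_nonneg_left h1 (by positivity)
  calc A * B ≤ u ^ 2 * (P * P) := by rw [← hR]; exact hAB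
    _ ≤ u ^ 2 * (A * A) := h2
    _ = u ^ 2 * A ^ 2 := by rw [pow_two A]

theorem z6_sqrt {Q A B : ℝ} (hA : 0 ≤ A) (hQ : 0 ≤ Q) (hAB : A ≤ B) (h : A * B ≤ Q * Q) : A ≤ Q := by
  by_contra hcon
  have h1 : Q < A := not_le.1 hcon
  have h2 : Q * Q < A * A := mul_self_lt_mul_self hQ h1
  have h3 : A * A ≤ A * B := mul_le_mul_of_nonneg_left hAB hA
  linarith

/-- The logarithmic length is at most 1. -/
theorem z6_len {A1 A2 a b : ℕ} (hA : 1 ≤ A1) (h2 : A2 ≤ 2 * A1) (ha : A1 ≤ a) (hb : b ≤ A2) (hb0 : 1 ≤ b) :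
    max 0 (Real.log (b : ℕ) - Real.log (a : ℕ)) ≤ 1 := by
  have hA' : (0 : ℝ) < A1 := by exact_mod_cast hA
  have hb' : (0 : ℝ) < b := by exact_mod_cast hb0
  have h1 : Real.log (b : ℕ) ≤ Real.log (2 * A1) := by
    refine Real.log_le_log hb' ?_
    exact_mod_cast hb.trans h2
  have h3 : Real.log (A1 : ℕ) ≤ Real.log (a : ℕ) := by
    refine Real.log_le_log hA' ?_
    exact_mod_cast ha
  have h4 : Real.log (2 * A1) = Real.log 2 + Real.log A1 := Real.log_mul (by norm_num) hA'.ne'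
  have h5 : Real.log 2 ≤ 1 := by
    have := Real.log_two_lt_d9
    linarith
  exact max_le zero_le_one (by linarith)

/-- If `2 x < A1 B1` then `x + H ≤ A1 B1` and everything vanishes (`z0_low`); if `x ≥ A2 B2` too (`z0_high`). Otherwise `z6_maj`, `z1` (error at most `2 * 2 * 2`), `z5` with `A = A1` and the modified ends (`A1 ^ 2 ≤ 2 x`,
`A1 ≤ u ^ 10000`, `x ≤ 4 A1 B1 ≤ 4 u ^ 2 A1 ^ 2`), `z6_model`; the two main terms agree for `q ≤ Q`, and for `q > Q` the main term of `z5` is at most `H / q ≤ H / Q` (`max 0 (..) ≤ log 2 ≤ 1`). -/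
theorem z6 : ∃ U0 : ℝ, 1 ≤ U0 ∧ ∀ u : ℝ, U0 ≤ u → ∀ (Q A1 A2 B1 B2 x H : ℕ) (α : ℝ), 1 ≤ Q → (Q : ℝ) ≤ u → u ^ 9999 ≤ A1 →
    A1 ≤ B1 → A1 ≤ A2 → A2 ≤ 2 * A1 → B1 ≤ B2 → B2 ≤ 2 * B1 → ((A1 * B1 : ℕ) : ℝ) ≤ u ^ 20000 →
    u ^ 9740 ≤ H → (H : ℝ) ≤ 3 * u ^ 9740 → Maj u α →
    ‖∑ m ∈ Ico x (x + H), ((dbox A1 A2 B1 B2 m : ℂ) - (Mbox Q A1 A2 B1 B2 m : ℂ)) * ee (α * m)‖ ≤ H * (1 / Q + 1 / u) := by
  obtain ⟨Ua, _, ha⟩ := z6_model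
  obtain ⟨Ub, _, hb⟩ := z5
  refine ⟨max (max Ua Ub) 64, le_max_of_le_right (by norm_num), ?_⟩
  intro u hu Q A1 A2 B1 B2 x H α hQ hQu hA hAB hA12 hA2 hB12 hB2 hABu hH1 hH2 hmaj
  have hua : Ua ≤ u := ((le_max_left _ _).trans (le_max_left _ _)).trans hu
  have hub : Ub ≤ u := ((le_max_right _ _).trans (le_max_left _ _)).trans hu
  have hu64 : (64 : ℝ) ≤ u := (le_max_right _ _).trans hu
  have hu1 : (1 : ℝ) ≤ u := by linarith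
  have hu0 : (0 : ℝ) < u := by linarith
  obtain ⟨q, p, θ, hq1, hq2, hcop, hα, hθ⟩ := z6_maj hu1 hmaj
  have hp1 : 64 * u ≤ u ^ 9740 := by
    have h1 : u ^ 2 ≤ u ^ 9740 := pow_le_pow_right₀ hu1 (by norm_num)
    have h2 : 64 * u ≤ u ^ 2 := by nlinarith
    exact h2.trans h1
  have hp2 : 3 * u ^ 9740 ≤ u ^ 9999 := by
    have h1 : u ^ 9741 ≤ u ^ 9999 := pow_le_pow_right₀ hu1 (by norm_num)
    have h2 : u ^ 9741 = u * u ^ 9740 := pow_succ' u 9740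
    have h3 : 3 * u ^ 9740 ≤ u * u ^ 9740 := mul_le_mul_of_nonneg_right (by linarith) (by positivity)
    rw [← h2] at h3
    exact h3.trans h1
  have hp3 : u ^ 20000 = u ^ 2 * (u ^ 9999 * u ^ 9999) := by rw [← pow_add, ← pow_add]
  have hp4 : u ^ 20000 = u ^ 10000 * u ^ 10000 := by rw [← pow_add]
  have hP0 : 0 < u ^ 9999 := by positivity
  have hQ0 : 0 ≤ u ^ 10000 := by positivity
  have hP6 : 6 ≤ u ^ 9999 := by linarith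
  have hABr : (A1 : ℝ) ≤ B1 := by exact_mod_cast hAB
  have hA0 : (0 : ℝ) < A1 := lt_of_lt_of_le hP0 hA
  have hA1n : 1 ≤ A1 := by
    have : 0 < A1 := by exact_mod_cast hA0
    exact this
  have hB1n : 1 ≤ B1 := hA1n.trans hAB
  have hHA : (H : ℝ) ≤ A1 := (hH2.trans hp2).trans hA
  have hzero : (∀ m ∈ Ico x (x + H), dbox A1 A2 B1 B2 m = 0 ∧ lbox A1 A2 B1 B2 m = 0) →
      ‖∑ m ∈ Ico x (x + H), ((dbox A1 A2 B1 B2 m : ℂ) - (Mbox Q A1 A2 B1 B2 m : ℂ)) * ee (α * m)‖ ≤ H * (1 / Q + 1 / u) := by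
    intro h
    have h1 : ∑ m ∈ Ico x (x + H), ((dbox A1 A2 B1 B2 m : ℂ) - (Mbox Q A1 A2 B1 B2 m : ℂ)) * ee (α * m) = 0 := by
      refine Finset.sum_eq_zero fun m hm => ?_
      obtain ⟨h2, h3⟩ := h m hm
      unfold Mbox
      rw [h2, h3, zero_mul]
      push_cast
      ring
    rw [h1, norm_zero]
    positivity
  by_cases hlow : 2 * x < A1 * B1
  · refine hzero fun m hm => ?_
    rw [mem_Ico] at hm
    refine z0_low hA1n hB1n ?_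
    have h1 : (x : ℝ) + H ≤ A1 * B1 :=
      z6_low hP6 hA (hA.trans hABr) (by exact_mod_cast hlow) (by linarith)
    have h2 : x + H ≤ A1 * B1 := by exact_mod_cast h1
    omega
  by_cases hhigh : A2 * B2 ≤ x
  · refine hzero fun m hm => ?_
    rw [mem_Ico] at hm
    exact z0_high (hA1n.trans hA12) (hB1n.trans hB12) (hhigh.trans hm.1)
  have hx1 : A1 * B1 ≤ 2 * x := not_lt.1 hlow
  have hx2 : x ≤ 4 * (A1 * B1) := by
    have h1 : A2 * B2 ≤ (2 * A1) * (2 * B1) := Nat.mul_le_mul hA2 hB2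
    have h2 : (2 * A1) * (2 * B1) = 4 * (A1 * B1) := by ring
    have h3 : x < A2 * B2 := not_le.1 hhigh
    omega
  have hxpos : 1 ≤ x := by
    have : 1 ≤ A1 * B1 := Nat.mul_pos hA1n hB1n
    omega
  have hABu' : (A1 : ℝ) * B1 ≤ u ^ 20000 := by exact_mod_cast hABu
  have hAu : (A1 : ℝ) ≤ u ^ 10000 := z6_sqrt hA0.le hQ0 hABr (by rw [← hp4]; exact hABu')
  have hA2x : A1 ^ 2 ≤ 2 * x := by
    have h1 : A1 ^ 2 ≤ A1 * B1 := by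
      rw [pow_two]
      exact Nat.mul_le_mul_left _ hAB
    exact h1.trans hx1
  have hx3 : (x : ℝ) ≤ 4 * u ^ 2 * (A1 : ℝ) ^ 2 := by
    have h1 : (x : ℝ) ≤ 4 * ((A1 : ℝ) * B1) := by exact_mod_cast hx2
    have h2 := z6_size hu1 hp3 hP0 hA hABu'
    calc (x : ℝ) ≤ 4 * ((A1 : ℝ) * B1) := h1
      _ ≤ 4 * (u ^ 2 * (A1 : ℝ) ^ 2) := mul_le_mul_of_nonneg_left h2 (by norm_num)
      _ = 4 * u ^ 2 * (A1 : ℝ) ^ 2 := by rw [mul_assoc]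
  subst hα
  have e1 := ha u hua Q A1 A2 B1 B2 x H q p θ hQ hQu hA hAB hA12 hA2 hB12 hB2 hABu hx1 hx2 hH1 hH2 hq1 hq2 hcop hθ
  have hmin : min A2 (x / B1 + 1) ≠ 0 :=
    Nat.one_le_iff_ne_zero.1 (le_min (hA1n.trans hA12) (Nat.le_add_left 1 (x / B1)))
  have e2 := hb u hub A1 (max A1 (x / B2 + 1)) (min A2 (x / B1 + 1)) x H q p θ hA hAu (le_max_left _ _)
    ((min_le_left _ _).trans hA2) hA2x hx3 hH1 hH2 hq1 hq2 hcop hθ hmin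
  have e3 := z1 A1 A2 B1 B2 x H ((p : ℝ) / q + θ) hA1n hB1n hB12 hxpos
  have e4 : 2 * (((H : ℝ) / B1 + 1) * ((H : ℝ) / A1 + 1)) ≤ 8 := z6_err hA0 hABr hHA (Nat.cast_nonneg H)
  have e5 := z6_fin hu64 (hp1.trans hH1)
  have elen := z6_len hA1n hA2 (le_max_left A1 (x / B2 + 1)) (min_le_left A2 (x / B1 + 1)) (Nat.one_le_iff_ne_zero.2 hmin)
  set lgt : ℝ := max 0 (Real.log (min A2 (x / B1 + 1) : ℕ) - Real.log (max A1 (x / B2 + 1) : ℕ)) with hlgt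
  have hl0 : 0 ≤ lgt := le_max_left _ _
  have hqr : (0 : ℝ) < q := by exact_mod_cast hq1
  have hQr : (0 : ℝ) < Q := by exact_mod_cast hQ
  have e7 : ‖(((H : ℝ) / q * lgt : ℝ) : ℂ) * ee (θ * x) -
      (((if q ≤ Q then (H : ℝ) / q else 0) * lgt : ℝ) : ℂ) * ee (θ * x)‖ ≤ H / Q := by
    rw [← sub_mul, norm_mul, norm_ee, mul_one, ← Complex.ofReal_sub, Complex.norm_real, Real.norm_eq_abs]
    by_cases hqQ : q ≤ Q
    · rw [if_pos hqQ, sub_self, abs_zero]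
      positivity
    · rw [if_neg hqQ, zero_mul, sub_zero, abs_of_nonneg (by positivity)]
      have hQq : (Q : ℝ) ≤ q := by exact_mod_cast (not_le.1 hqQ).le
      have h1 : (H : ℝ) / q ≤ H / Q := div_le_div_of_nonneg_left (Nat.cast_nonneg H) hQr hQq
      have h2 : (H : ℝ) / q * lgt ≤ H / q * 1 := mul_le_mul_of_nonneg_left elen (by positivity)
      linarith
  have e6 : ∑ m ∈ Ico x (x + H), ((dbox A1 A2 B1 B2 m : ℂ) - (Mbox Q A1 A2 B1 B2 m : ℂ)) * ee (((p : ℝ) / q + θ) * m) =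
      (∑ m ∈ Ico x (x + H), (dbox A1 A2 B1 B2 m : ℂ) * ee (((p : ℝ) / q + θ) * m) -
        SR ((p : ℝ) / q + θ) (max A1 (x / B2 + 1)) (min A2 (x / B1 + 1)) x H) +
      (SR ((p : ℝ) / q + θ) (max A1 (x / B2 + 1)) (min A2 (x / B1 + 1)) x H -
        (((H : ℝ) / q * lgt : ℝ) : ℂ) * ee (θ * x)) +
      ((((H : ℝ) / q * lgt : ℝ) : ℂ) * ee (θ * x) -
        (((if q ≤ Q then (H : ℝ) / q else 0) * lgt : ℝ) : ℂ) * ee (θ * x)) -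
      (∑ m ∈ Ico x (x + H), (Mbox Q A1 A2 B1 B2 m : ℂ) * ee (((p : ℝ) / q + θ) * m) -
        (((if q ≤ Q then (H : ℝ) / q else 0) * lgt : ℝ) : ℂ) * ee (θ * x)) := by
    have h1 : ∑ m ∈ Ico x (x + H), ((dbox A1 A2 B1 B2 m : ℂ) - (Mbox Q A1 A2 B1 B2 m : ℂ)) * ee (((p : ℝ) / q + θ) * m) =
        ∑ m ∈ Ico x (x + H), (dbox A1 A2 B1 B2 m : ℂ) * ee (((p : ℝ) / q + θ) * m) -
        ∑ m ∈ Ico x (x + H), (Mbox Q A1 A2 B1 B2 m : ℂ) * ee (((p : ℝ) / q + θ) * m) := by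
      rw [← Finset.sum_sub_distrib]
      refine Finset.sum_congr rfl fun m _ => ?_
      ring
    rw [h1]
    abel
  rw [e6]
  have e8 : (H : ℝ) * (1 / Q + 1 / u) = H / Q + H / u := by ring
  rw [e8]
  have t1 := norm_sub_le
    ((∑ m ∈ Ico x (x + H), (dbox A1 A2 B1 B2 m : ℂ) * ee (((p : ℝ) / q + θ) * m) -
        SR ((p : ℝ) / q + θ) (max A1 (x / B2 + 1)) (min A2 (x / B1 + 1)) x H) +
      (SR ((p : ℝ) / q + θ) (max A1 (x / B2 + 1)) (min A2 (x / B1 + 1)) x H -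
        (((H : ℝ) / q * lgt : ℝ) : ℂ) * ee (θ * x)) +
      ((((H : ℝ) / q * lgt : ℝ) : ℂ) * ee (θ * x) -
        (((if q ≤ Q then (H : ℝ) / q else 0) * lgt : ℝ) : ℂ) * ee (θ * x)))
    (∑ m ∈ Ico x (x + H), (Mbox Q A1 A2 B1 B2 m : ℂ) * ee (((p : ℝ) / q + θ) * m) -
        (((if q ≤ Q then (H : ℝ) / q else 0) * lgt : ℝ) : ℂ) * ee (θ * x))
  have t2 := norm_add₃_le
    (a := ∑ m ∈ Ico x (x + H), (dbox A1 A2 B1 B2 m : ℂ) * ee (((p : ℝ) / q + θ) * m) -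
        SR ((p : ℝ) / q + θ) (max A1 (x / B2 + 1)) (min A2 (x / B1 + 1)) x H)
    (b := SR ((p : ℝ) / q + θ) (max A1 (x / B2 + 1)) (min A2 (x / B1 + 1)) x H -
        (((H : ℝ) / q * lgt : ℝ) : ℂ) * ee (θ * x))
    (c := (((H : ℝ) / q * lgt : ℝ) : ℂ) * ee (θ * x) -
        (((if q ≤ Q then (H : ℝ) / q else 0) * lgt : ℝ) : ℂ) * ee (θ * x))
  linarith

end Pool.Agent.Lib.H21T
end

-- from Lib.H21T.Main
section

/-!
# The main theorem (parts D3 + D4)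
-/

namespace Pool.Agent.Lib.H21T

open Finset Pool.Agent.SZW

theorem main_u : ∃ U0 : ℝ, 1 ≤ U0 ∧ ∀ u : ℝ, U0 ≤ u → ∀ (Q A1 A2 B1 B2 x H : ℕ) (α : ℝ), 1 ≤ Q → (Q : ℝ) ≤ u → u ^ 9999 ≤ A1 → u ^ 9999 ≤ B1 →
    A1 ≤ A2 → A2 ≤ 2 * A1 → B1 ≤ B2 → B2 ≤ 2 * B1 → ((A1 * B1 : ℕ) : ℝ) ≤ u ^ 20000 → u ^ 9999 ≤ H →
    ‖∑ m ∈ Ico x (x + H), ((dbox A1 A2 B1 B2 m : ℂ) - (Mbox Q A1 A2 B1 B2 m : ℂ)) * ee (α * m)‖ ≤ H * (1 / Q + 1 / u) := by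
  obtain ⟨U1, hU1, h1⟩ := z4
  obtain ⟨U2, hU2, h2⟩ := z6
  refine ⟨max U1 U2, le_max_of_le_left hU1, fun u hu => ?_⟩
  have hu1 : U1 ≤ u := (le_max_left _ _).trans hu
  have hu2 : U2 ≤ u := (le_max_right _ _).trans hu
  have hu0 : 1 ≤ u := hU1.trans hu1
  have hu' : 0 < u := by linarith
  have key : ∀ (Q A1 A2 B1 B2 x H : ℕ) (α : ℝ), 1 ≤ Q → (Q : ℝ) ≤ u → u ^ 9999 ≤ A1 →
      A1 ≤ B1 → A1 ≤ A2 → A2 ≤ 2 * A1 → B1 ≤ B2 → B2 ≤ 2 * B1 → ((A1 * B1 : ℕ) : ℝ) ≤ u ^ 20000 → u ^ 9999 ≤ H →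
      ‖∑ m ∈ Ico x (x + H), ((dbox A1 A2 B1 B2 m : ℂ) - (Mbox Q A1 A2 B1 B2 m : ℂ)) * ee (α * m)‖ ≤ H * (1 / Q + 1 / u) := by
    intro Q A1 A2 B1 B2 x H α hQ1 hQu hA hAB hA1 hA2 hB1 hB2 hN hH
    have hQ0 : (0 : ℝ) < Q := by exact_mod_cast hQ1
    have hc : 0 ≤ 1 / (Q : ℝ) + 1 / u := by positivity
    have hpow : ∀ n : ℕ, 1 ≤ u ^ n := fun n => one_le_pow₀ hu0
    by_cases hM : Maj u α
    · have h3 := z7 (fun m => ((dbox A1 A2 B1 B2 m : ℂ) - (Mbox Q A1 A2 B1 B2 m : ℂ)) * ee (α * m)) (u ^ 9740) (1 / (Q : ℝ) + 1 / u)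
        (hpow _) hc (fun y k hk1 hk2 => by
          have h4 := h2 u hu2 Q A1 A2 B1 B2 y k α hQ1 hQu hA hAB hA1 hA2 hB1 hB2 hN hk1 hk2 hM
          rwa [mul_comm] at h4) x H ((pow_le_pow_right₀ hu0 (by norm_num)).trans hH)
      rwa [mul_comm] at h3
    · have h3 := z7 (fun m => ((dbox A1 A2 B1 B2 m : ℂ) - (Mbox Q A1 A2 B1 B2 m : ℂ)) * ee (α * m)) (u ^ 9999) (1 / u)
        (hpow _) (by positivity) (fun y k hk1 hk2 => by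
          have h4 := h1 u hu1 Q A1 A2 B1 B2 y k α hQ1 hQu hA hAB hA1 hA2 hB1 hB2 hN hk1 hk2 hM
          have h5 : (k : ℝ) / u = 1 / u * k := by ring
          rwa [h5] at h4) x H hH
      refine h3.trans ?_
      rw [mul_comm]
      exact mul_le_mul_of_nonneg_left (by linarith [show (0 : ℝ) ≤ 1 / Q by positivity]) (Nat.cast_nonneg _)
  intro Q A1 A2 B1 B2 x H α hQ1 hQu hA hB hA1 hA2 hB1 hB2 hN hH
  rcases le_total A1 B1 with hAB | hAB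
  · exact key Q A1 A2 B1 B2 x H α hQ1 hQu hA hAB hA1 hA2 hB1 hB2 hN hH
  · have h3 := key Q B1 B2 A1 A2 x H α hQ1 hQu hB hAB hB1 hB2 hA1 hA2 (by rwa [mul_comm]) hH
    refine le_trans (le_of_eq ?_) h3
    congr 1
    refine Finset.sum_congr rfl fun m _ => ?_
    rw [dbox_symm, Mbox_symm]

/-- **D3 + D4.** The divisor function of a box minus its model has no large exponential sums on intervals of length at least `N ^ (1 / 2 - κ)`. -/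
theorem D34 : ∃ κ : ℝ, 0 < κ ∧ κ ≤ 1 / 2 ∧ ∀ ε : ℝ, 0 < ε → ε ≤ κ → ∃ N0 : ℕ, ∀ N : ℕ, N0 ≤ N → ∀ A1 A2 B1 B2 : ℕ,
    (N : ℝ) ^ (1 / 2 - κ) ≤ A1 → (N : ℝ) ^ (1 / 2 - κ) ≤ B1 → A1 ≤ A2 → A2 ≤ 2 * A1 → B1 ≤ B2 → B2 ≤ 2 * B1 → A1 * B1 ≤ N →
    ∀ (x H : ℕ) (α : ℝ), (N : ℝ) ^ (1 / 2 - κ) ≤ H →
    ‖∑ m ∈ Ico x (x + H), ((dbox A1 A2 B1 B2 m : ℂ) - (Mbox ⌊(N : ℝ) ^ ε⌋₊ A1 A2 B1 B2 m : ℂ)) * ee (α * m)‖ ≤
      H * (N : ℝ) ^ (-(ε / 2)) := by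
  obtain ⟨U0, hU0, h⟩ := main_u
  refine ⟨1 / 20000, by norm_num, by norm_num, fun ε hε hεκ => ?_⟩
  obtain ⟨N1, hN1⟩ := exists_nat_ge (U0 ^ 20000)
  obtain ⟨N2, hN2⟩ := exists_nat_ge ((3 : ℝ) ^ (2 / ε))
  refine ⟨max (max N1 N2) 1, fun N hN A1 A2 B1 B2 hA hB hA1 hA2 hB1 hB2 hAB x H α hH => ?_⟩
  have hNN1 : N1 ≤ N := (le_max_left _ _).trans ((le_max_left _ _).trans hN)
  have hNN2 : N2 ≤ N := (le_max_right _ _).trans ((le_max_left _ _).trans hN)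
  have hNge : 1 ≤ N := (le_max_right _ _).trans hN
  have hNr : (1 : ℝ) ≤ N := by exact_mod_cast hNge
  have hN0 : (0 : ℝ) < N := by linarith
  set u : ℝ := (N : ℝ) ^ (1 / 20000 : ℝ) with hu
  have hu1 : 1 ≤ u := Real.one_le_rpow hNr (by norm_num)
  have hu0 : 0 < u := by linarith
  have hpow : ∀ k : ℕ, u ^ k = (N : ℝ) ^ ((k : ℝ) / 20000) := by
    intro k
    rw [hu, ← Real.rpow_natCast, ← Real.rpow_mul hN0.le]
    congr 1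
    ring
  have h9999 : u ^ 9999 = (N : ℝ) ^ ((1 : ℝ) / 2 - 1 / 20000) := by
    rw [hpow]
    congr 1
    norm_num
  have h20000 : u ^ 20000 = (N : ℝ) := by
    rw [hpow]
    norm_num
  have hUu : U0 ≤ u := by
    have h5 : U0 ^ 20000 ≤ u ^ 20000 := by
      rw [h20000]
      exact hN1.trans (by exact_mod_cast hNN1)
    exact le_of_pow_le_pow_left₀ (by norm_num) hu0.le h5
  have hε1 : (N : ℝ) ^ ε ≤ u := Real.rpow_le_rpow_of_exponent_le hNr hεκ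
  have hε2 : 1 ≤ (N : ℝ) ^ ε := Real.one_le_rpow hNr hε.le
  set Q : ℕ := ⌊(N : ℝ) ^ ε⌋₊ with hQ
  have hQ1 : 1 ≤ Q := Nat.le_floor (by simpa using hε2)
  have hQu : (Q : ℝ) ≤ u := (Nat.floor_le (by positivity)).trans hε1
  have hQ0 : (0 : ℝ) < Q := by exact_mod_cast hQ1
  have h6 := h u hUu Q A1 A2 B1 B2 x H α hQ1 hQu (by rw [h9999]; exact hA) (by rw [h9999]; exact hB) hA1 hA2 hB1 hB2
    (by rw [h20000]; exact_mod_cast hAB) (by rw [h9999]; exact hH)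
  refine h6.trans (mul_le_mul_of_nonneg_left ?_ (Nat.cast_nonneg _))
  have h7 : (N : ℝ) ^ ε ≤ 2 * Q := by
    have h8 : (N : ℝ) ^ ε < Q + 1 := Nat.lt_floor_add_one _
    have h9 : (1 : ℝ) ≤ Q := by exact_mod_cast hQ1
    linarith
  have hε0 : 0 < (N : ℝ) ^ ε := by positivity
  have h8 : 1 / (Q : ℝ) ≤ 2 / (N : ℝ) ^ ε := by
    rw [div_le_div_iff₀ hQ0 hε0]
    linarith
  have h9 : 1 / u ≤ 1 / (N : ℝ) ^ ε := one_div_le_one_div_of_le hε0 hε1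
  have h10 : 3 ≤ (N : ℝ) ^ (ε / 2) := by
    have h11 : (3 : ℝ) ^ (2 / ε) ≤ N := hN2.trans (by exact_mod_cast hNN2)
    have h12 := Real.rpow_le_rpow (by positivity) h11 (by positivity : 0 ≤ ε / 2)
    rw [← Real.rpow_mul (by norm_num)] at h12
    have h13 : 2 / ε * (ε / 2) = 1 := by field_simp
    rwa [h13, Real.rpow_one] at h12
  have h14 : (N : ℝ) ^ ε = (N : ℝ) ^ (ε / 2) * (N : ℝ) ^ (ε / 2) := by
    rw [← Real.rpow_add hN0]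
    congr 1
    ring
  have h15 : (N : ℝ) ^ (-(ε / 2)) = 1 / (N : ℝ) ^ (ε / 2) := by
    rw [Real.rpow_neg hN0.le, one_div]
  have h16 : 0 < (N : ℝ) ^ (ε / 2) := by positivity
  calc 1 / (Q : ℝ) + 1 / u ≤ 2 / (N : ℝ) ^ ε + 1 / (N : ℝ) ^ ε := add_le_add h8 h9
    _ = 3 / (N : ℝ) ^ ε := by ring
    _ ≤ (N : ℝ) ^ (-(ε / 2)) := by
      rw [h15, h14, div_le_div_iff₀ (by positivity) h16]
      nlinarith

end Pool.Agent.Lib.H21T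
end
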