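import Mathlib
import Pool.Agent.Lib.H59M.M2.M078

/-! Merged copies (to shorten the build) of Lib.H59P.SDefs, Lib.H24P.Defs, Lib.H24P.Defs2, Lib.H59P.C1A, Lib.H59P.C1, Lib.H59P.C2, Lib.H59P.M1A, Lib.H59P.M1, Lib.H59P.M2A, Lib.H59P.M2B, Lib.H59P.M2C, Lib.H59P.M2D. -/

-- from Lib.H59P.SDefs
section

/-!
# Project H59P, definitions for the second moments
-/

open Finset

namespace Pool.Agent.Lib.H59P

open Pool.Agent.Lib.H68T Pool.Agent.Lib.H18Q

noncomputable section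

/-- The box `[0, X)^k`. -/
def bx (k X : ℕ) : Finset (Fin k → ℕ) := Fintype.piFinset fun _ : Fin k => range X


/-- The base point of the cell of `m` for cells of length `H`. -/
def bs (H m : ℕ) : ℕ := m / H * H


/-- Coefficients: total size at most `3`, slowly varying, and the projection is their sum. -/
structure Cf (Q X : ℕ) (B : ℤ → Ch → ℂ) (mb : Ch → ℝ) : Prop where
  nonneg : ∀ p ∈ PC Q, 0 ≤ mb p
  sum : ∑ p ∈ PC Q, mb p ≤ 3
  le : ∀ m : ℤ, (X : ℤ) ≤ m → m ≤ 4 * X → ∀ p ∈ PC Q, ‖B m p‖ ≤ mb p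
  slow : ∀ m : ℤ, (X : ℤ) ≤ m → m + 1 ≤ 4 * X → ∀ p ∈ PC Q, ‖B (m + 1) p - B m p‖ ≤ 2 * (Q : ℝ) ^ 3 / X
  eq : ∀ m : ℤ, (X : ℤ) ≤ m → m ≤ 4 * X → ((Lk Q (X / Q ^ 2) m : ℝ) : ℂ) = SG Q (B m) m

end

end Pool.Agent.Lib.H59P
end

-- from Lib.H24P.Defs
section

/-!
# Project H24P (MP_0bf1d2_nt): power savings for Schinzel's problem with varying constant terms

Definitions. See `PROOF.md`. The notions of H59P (where the coordinates are `n + h_i`) for congruence
preserving maps `φ_i : ℤ → ℤ`.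
-/

open Finset Polynomial

namespace Pool.Agent.Lib.H24P

open Pool.Agent.Lib.H68T Pool.Agent.Lib.H18Q Pool.Agent.Lib.H59P

noncomputable section

/-! ## Local factors, mean values -/

/-- The maps `φ_i` preserve congruences. -/
def Cp {k : ℕ} (φ : Fin k → ℤ → ℤ) : Prop := ∀ (i : Fin k) (q n : ℤ), q ∣ φ i (n + q) - φ i n

/-- The local factor of the singular series at the prime `l`, minus `1`. -/
def tpf {k : ℕ} (l : ℕ) (φ : Fin k → ℤ → ℤ) : ℝ :=
  (∑ n ∈ range l, ∏ i, (1 + gl l (φ i n))) / l - 1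

/-- The product of the local factors over the primes in `P`. -/
def SSf {k : ℕ} (P : Finset ℕ) (φ : Fin k → ℤ → ℤ) : ℝ := ∏ l ∈ P, (1 + tpf l φ)

/-- `∏_{l ∣ d} tpf l φ` -/
def tdf {k : ℕ} (d : ℕ) (φ : Fin k → ℤ → ℤ) : ℝ := ∏ l ∈ d.primeFactors, tpf l φ

/-- `∏_i (1 + gl l (m_i)) - 1` -/
def Wf {k : ℕ} (l : ℕ) (m : Fin k → ℤ) : ℝ := ∏ i, (1 + gl l (m i)) - 1

/-- `∏_{l ∣ d} Wf l m` -/
def Wdf {k : ℕ} (d : ℕ) (m : Fin k → ℤ) : ℝ := ∏ l ∈ d.primeFactors, Wf l m

/-- `∏_i conj χ_i(m_i) ∏_{l ∈ P} (1 + gl l (m_i))` -/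
def Phf {k : ℕ} (p : Fin k → Ch) (P : Finset ℕ) (m : Fin k → ℤ) : ℂ :=
  ∏ i, (cj (p i) (m i) * ((uu P (m i) : ℝ) : ℂ))

/-- The values of the maps at `n`. -/
def at' {k : ℕ} (φ : Fin k → ℤ → ℤ) (n : ℤ) : Fin k → ℤ := fun i => φ i n

/-- The mean modulo `R` for the primes dividing `R`. -/
def MRf {k : ℕ} (p : Fin k → Ch) (R : ℕ) (φ : Fin k → ℤ → ℤ) : ℂ :=
  (∑ n ∈ range R, Phf p R.primeFactors (at' φ n)) / R

/-- The mean over a complete period `Q!` for all primes up to `Q`. -/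
def MQf {k : ℕ} (Q : ℕ) (p : Fin k → Ch) (φ : Fin k → ℤ → ℤ) : ℂ :=
  (∑ n ∈ range Q.factorial, Phf p (pr Q) (at' φ n)) / (Q.factorial : ℂ)

/-- `∏_i uu(m_i) (1 - th_i ψ(m_i))` -/
def fPf {k : ℕ} (Q : ℕ) (px : Ch) (th : Fin k → ℝ) (m : Fin k → ℤ) : ℝ :=
  ∏ i, (uu (pr Q) (m i) * (1 - th i * (cj px (m i)).re))

/-- The main term: the mean of `fPf` over a complete period. -/
def PMf {k : ℕ} (Q : ℕ) (px : Ch) (th : Fin k → ℝ) (φ : Fin k → ℤ → ℤ) : ℝ :=
  (∑ n ∈ range Q.factorial, fPf Q px th (at' φ n)) / (Q.factorial : ℝ)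

open Classical in
/-- The tuples of characters with `lcm(m0, p_1.1, …, p_k.1) ≤ D`. -/
def TSf (k Q D m0 : ℕ) : Finset (Fin k → Ch) :=
  (Fintype.piFinset fun _ : Fin k => PC Q).filter
    (fun p => m0.lcm (univ.lcm fun i => (p i).1) ≤ D)

/-- The modulus of a tuple of characters. -/
def Rf {k : ℕ} (m0 : ℕ) (p : Fin k → Ch) : ℕ := m0.lcm (univ.lcm fun i => (p i).1)

/-- No prime divides the product of the `φ_i(n)` for all `n`. -/
def NoFix {k : ℕ} (φ : Fin k → ℤ → ℤ) : Prop :=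
  ∀ l : ℕ, l.Prime → ∃ n : ℤ, ∀ i, ¬ (l : ℤ) ∣ φ i n

/-! ## Systems of polynomials -/

/-- The random coordinates `P_i + h_i`. -/
def ran {k : ℕ} (P : Fin k → ℤ[X]) (h : Fin k → ℕ) : Fin k → ℤ → ℤ :=
  fun i n => (P i).eval n + h i

/-- The system: the deterministic linear coordinate `B` and the random coordinates `P_i + h_i`. -/
def sys {k : ℕ} (B : ℤ[X]) (P : Fin k → ℤ[X]) (h : Fin k → ℕ) : Fin (k + 1) → ℤ → ℤ :=
  Fin.cons (fun n => B.eval n) (ran P h)

/-- Degrees between `1` and `A`, leading coefficients (of any sign) at most `A` in absolute value. -/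
structure Pol (A : ℕ) {k : ℕ} (P : Fin k → ℤ[X]) : Prop where
  deg : ∀ i, 1 ≤ (P i).natDegree
  degA : ∀ i, (P i).natDegree ≤ A
  lc : ∀ i, (P i).leadingCoeff.natAbs ≤ A

/-- The linear coordinate: degree `1`, leading coefficient at most `A` in absolute value, primitive. -/
structure Lin (A : ℕ) (B : ℤ[X]) : Prop where
  deg : B.natDegree = 1
  lc : B.leadingCoeff.natAbs ≤ A
  cop : IsCoprime (B.coeff 0) (B.coeff 1)

/-- The box `∏ [b_i, b_i + s_i)`. -/
def cub {k : ℕ} (b s : Fin k → ℕ) : Finset (Fin k → ℕ) :=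
  Fintype.piFinset fun i => Ico (b i) (b i + s i)


/-- The component of the character `p` at level `Q`: `Gam Q r m conj χ(m) = ∑_{κ ∈ KS Q r} gk p κ m`. -/
def Fc (Q : ℕ) (p : Ch) (m : ℤ) : ℂ := ∑ κ ∈ KS Q p.1, gk p κ m

/-- The regime: `Q` is a power of `X` between `X^(1/C)` and `X^(1/K)`. -/
def Rg (K C : ℝ) (Q X : ℕ) : Prop :=
  K * Real.log Q ≤ Real.log X ∧ Real.log X ≤ C * Real.log Q

/-- The scale of the values on the dyadic box `∏ [M_i, 2 M_i)`: `Y = 3 M/4` (`8 ∣ M`), the values are in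
`[Y, 3 Y)`. -/
def Ysc (M : ℕ) : ℕ := 3 * (M / 4)

/-- The geometry: range `[X1, 2 X1)` of `n`, dyadic box `∏ [M_i, 2 M_i)` of the `h`; `L` a large
constant. -/
structure Geo (L Q X X1 : ℕ) {k : ℕ} (P : Fin k → ℤ[X]) (M : Fin k → ℕ) : Prop where
  dvd : Q ^ 800 ∣ X1
  pos : 0 < X1
  le : X1 ≤ X
  ge : X ≤ X1 * Q
  dvdM : ∀ i, 8 * Q ^ 8 ∣ M i
  lo : ∀ i, L * X1 ^ (P i).natDegree ≤ M i
  hi : ∀ i, (M i : ℝ) ≤ (X1 : ℝ) ^ (P i).natDegree * (Q : ℝ) ^ (1 / 8 : ℝ)

/-- The values of the linear coordinate on `[X1, 2 X1)` are in `[Y, 3 Y)`. -/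
structure GeoB (A X X1 Y : ℕ) (B : ℤ[X]) : Prop where
  lin : Lin A B
  lo : ∀ n : ℕ, n ∈ Ico X1 (2 * X1) → (Y : ℤ) ≤ B.eval (n : ℤ)
  hi : ∀ n : ℕ, n ∈ Ico X1 (2 * X1) → B.eval (n : ℤ) < 3 * Y
  Ylo : X1 ≤ 2 * Y
  Yhi : Y ≤ A * X

end

end Pool.Agent.Lib.H24P
end

-- from Lib.H24P.Defs2
section

/-!
# Project H24P: definitions for the assembly
-/

open Finset Polynomial

namespace Pool.Agent.Lib.H24P

open Pool.Agent.Lib.H68T Pool.Agent.Lib.H18Q Pool.Agent.Lib.H59P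

noncomputable section

/-- `⌊Q^x⌋` -/
def fl (Q : ℕ) (x : ℝ) : ℕ := ⌊(Q : ℝ) ^ x⌋₊


/-- The sum with the projections in the random coordinates, the weight `w` in the linear one. -/
def Rw {k : ℕ} (Q X1 : ℕ) (P : Fin k → ℤ[X]) (M : Fin k → ℕ) (w : ℕ → ℝ) (h : Fin k → ℕ) : ℝ :=
  ∑ n ∈ Ico X1 (2 * X1), w n * ∏ i, Lk Q (Ysc (M i) / Q ^ 2) ((P i).eval (n : ℤ) + h i)


/-- The complete main term of a cell with coefficients `c`. -/
def MDf {k : ℕ} (Q m0 : ℕ) (c : Fin k → Ch → ℂ) (φ : Fin k → ℤ → ℤ) : ℂ :=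
  ∑ p ∈ TSf k Q (fl Q (1 / 16)) m0, (∏ i, c i (p i)) * MQf Q p φ


end

end Pool.Agent.Lib.H24P
end

-- from Lib.H59P.C1A
section

/-!
# Project H59P, chunk C1a
-/

open Finset

namespace Pool.Agent.Lib.H59P

open Pool.Agent.Lib.H68T Pool.Agent.Lib.H18Q

/-- Sum over a product of coordinates in `J` and outside of `J`. -/
theorem c1a_split {k : ℕ} {ι : Type*} [DecidableEq ι] (S : Finset ι) (J : Finset (Fin k))
    (A : Fin k → ι → ℂ) (c : (Fin k → ι) → ℂ) (v0 : ι)
    (hc : ∀ p : Fin k → ι, c p = c (fun i => if i ∈ J then p i else v0)) :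
    ∑ p ∈ (Fintype.piFinset fun _ : Fin k => S), (∏ i ∈ univ \ J, A i (p i)) * c p =
      (∏ i ∈ univ \ J, ∑ p ∈ S, A i p) *
        ∑ a ∈ (Fintype.piFinset fun _ : {i : Fin k // i ∈ J} => S),
          c (fun i => if h : i ∈ J then a ⟨i, h⟩ else v0) := by
  classical
  have h1 : ∑ p ∈ (Fintype.piFinset fun _ : Fin k => S), (∏ i ∈ univ \ J, A i (p i)) * c p =
      ∑ x ∈ (Fintype.piFinset fun _ : {i : Fin k // i ∈ J} => S) ×ˢ
        (Fintype.piFinset fun _ : {i : Fin k // i ∉ J} => S),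
        (∏ i : {i : Fin k // i ∉ J}, A i (x.2 i)) * c (fun i => if h : i ∈ J then x.1 ⟨i, h⟩ else v0) := by
    refine Finset.sum_nbij' (fun p => (fun i : {i : Fin k // i ∈ J} => p i, fun i : {i : Fin k // i ∉ J} => p i))
      (fun x i => if h : i ∈ J then x.1 ⟨i, h⟩ else x.2 ⟨i, h⟩) ?_ ?_ ?_ ?_ ?_
    · intro p hp
      rw [Fintype.mem_piFinset] at hp
      simp only [Finset.mem_product, Fintype.mem_piFinset]
      exact ⟨fun i => hp i, fun i => hp i⟩
    · intro x hx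
      simp only [Finset.mem_product, Fintype.mem_piFinset] at hx
      rw [Fintype.mem_piFinset]
      intro i
      by_cases h : i ∈ J
      · simp only [h, dif_pos]; exact hx.1 _
      · simp only [h, dif_neg, not_false_eq_true]; exact hx.2 _
    · intro p hp
      funext i
      by_cases h : i ∈ J
      · simp only [h, dif_pos]
      · simp only [h, dif_neg, not_false_eq_true]
    · intro x hx
      refine Prod.ext ?_ ?_
      · funext i
        simp only [i.2, dif_pos]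
      · funext i
        simp only [i.2, dif_neg, not_false_eq_true]
    · intro p hp
      have e1 : (∏ i ∈ univ \ J, A i (p i)) = ∏ i : {i : Fin k // i ∉ J}, A i (p i) := by
        rw [← Finset.prod_subtype (univ \ J) (p := fun i => i ∉ J) (f := fun i => A i (p i))]
        intro i
        simp
      have e2 : (fun i => if i ∈ J then p i else v0) = fun i => if h : i ∈ J then p ((⟨i, h⟩ : {i : Fin k // i ∈ J}) : Fin k) else v0 := by
        funext i
        by_cases h : i ∈ J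
        · simp [h]
        · simp [h]
      rw [e1, hc p, e2]
  rw [h1, Finset.sum_product]
  have e3 : (∏ i ∈ univ \ J, ∑ p ∈ S, A i p) = ∏ i : {i : Fin k // i ∉ J}, ∑ p ∈ S, A i p := by
    rw [← Finset.prod_subtype (univ \ J) (p := fun i => i ∉ J) (f := fun i => ∑ p ∈ S, A i p)]
    intro i
    simp
  rw [e3, Finset.prod_univ_sum, Finset.mul_sum]
  refine Finset.sum_congr rfl fun a _ => ?_
  rw [Finset.sum_mul]

/-- **C1a.** `φ` is a condition on tuples which, for tuples with the coordinates outside of `J` in `V`,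
depends on the coordinates in `J` only; `A i` vanishes outside of `V`.

Proof. If `J` is everything the right side bounds the left side by the triangle inequality. If `V ∩ S = ∅` and
`J` is not everything, both `∏_{i ∉ J} A i (p i)` and one factor `∑_p A i p` vanish. Else fix `v0 ∈ V ∩ S` and
let `φ'(p) = φ(p with the coordinates outside J replaced by v0)`. Since `A i (p i) = 0` unless `p i ∈ V`,
the sum is `∑_{p} [φ'(p)] ∏_{i∉J} A i (p i) ∏_{i∈J} B i (p i)`, `φ'` depends on the coordinates in `J` only, so it is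
`(∏_{i ∉ J} ∑_p A i p) · ∑_{p on J} [φ'] ∏_{i∈J} B i (p i)` (`Equiv.piEquivPiSubtypeProd` /
`Fintype.piFinset` and `Finset.prod_univ_sum`; or induction over the elements outside of `J`:
summing over one coordinate `i0 ∉ J` at a time). The last sum is at most `∏_{i∈J} ∑_p ‖B i p‖`. -/
theorem C1a {k : ℕ} {ι : Type*} [DecidableEq ι] (S V : Finset ι) (φ : (Fin k → ι) → Prop)
    [DecidablePred φ] (A B : Fin k → ι → ℂ) (J : Finset (Fin k))
    (hA : ∀ i, ∀ p ∈ S, p ∉ V → A i p = 0)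
    (dep : ∀ p p' : Fin k → ι, (∀ i ∈ J, p i = p' i) → (∀ i, i ∉ J → p i ∈ V) →
      (∀ i, i ∉ J → p' i ∈ V) → (φ p ↔ φ p')) :
    ‖∑ p ∈ (Fintype.piFinset fun _ : Fin k => S).filter φ,
      (∏ i ∈ univ \ J, A i (p i)) * ∏ i ∈ J, B i (p i)‖ ≤
      (∏ i ∈ univ \ J, ‖∑ p ∈ S, A i p‖) * ∏ i ∈ J, ∑ p ∈ S, ‖B i p‖ := by
  classical
  by_cases hJ : ∃ i, i ∉ J
  swap
  · push Not at hJ
    have hJu : J = univ := Finset.eq_univ_iff_forall.mpr hJ
    subst hJu
    simp only [Finset.sdiff_self, Finset.prod_empty, one_mul]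
    refine (norm_sum_le _ _).trans ?_
    rw [Finset.prod_univ_sum]
    refine (Finset.sum_le_sum_of_subset_of_nonneg (Finset.filter_subset _ _)
      fun p _ _ => norm_nonneg _).trans ?_
    exact Finset.sum_le_sum fun p _ => le_of_eq (norm_prod _ _)
  · obtain ⟨i0, hi0⟩ := hJ
    have hR : 0 ≤ (∏ i ∈ univ \ J, ‖∑ p ∈ S, A i p‖) * ∏ i ∈ J, ∑ p ∈ S, ‖B i p‖ :=
      mul_nonneg (Finset.prod_nonneg fun _ _ => norm_nonneg _)
        (Finset.prod_nonneg fun _ _ => Finset.sum_nonneg fun _ _ => norm_nonneg _)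
    by_cases hVS : ∃ v0, v0 ∈ V ∧ v0 ∈ S
    swap
    · push Not at hVS
      rw [Finset.sum_eq_zero]
      · rw [norm_zero]; exact hR
      · intro p hp
        have hp1 := Fintype.mem_piFinset.mp (Finset.mem_filter.mp hp).1
        rw [Finset.prod_eq_zero (i := i0) (by simp [hi0]) (hA i0 (p i0) (hp1 i0) fun h => hVS _ h (hp1 i0)), zero_mul]
    · obtain ⟨v0, hv0, hv0S⟩ := hVS
      set c : (Fin k → ι) → ℂ := fun p =>
        if φ (fun i => if i ∈ J then p i else v0) then ∏ i ∈ J, B i (p i) else 0 with hc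
      have h1 : ∑ p ∈ (Fintype.piFinset fun _ : Fin k => S).filter φ,
          (∏ i ∈ univ \ J, A i (p i)) * ∏ i ∈ J, B i (p i) =
          ∑ p ∈ (Fintype.piFinset fun _ : Fin k => S), (∏ i ∈ univ \ J, A i (p i)) * c p := by
        rw [Finset.sum_filter]
        refine Finset.sum_congr rfl fun p hp => ?_
        have hp1 := Fintype.mem_piFinset.mp hp
        by_cases hpV : ∀ i, i ∉ J → p i ∈ V
        · have hd : φ p ↔ φ (fun i => if i ∈ J then p i else v0) := by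
            refine dep _ _ (fun i hi => by simp [hi]) hpV fun i hi => ?_
            simp [hi, hv0]
          simp only [hc]
          by_cases hφ : φ p
          · rw [if_pos hφ, if_pos (hd.mp hφ)]
          · rw [if_neg hφ, if_neg (fun h => hφ (hd.mpr h)), mul_zero]
        · push Not at hpV
          obtain ⟨i1, hi1, hi1V⟩ := hpV
          have h0 : ∏ i ∈ univ \ J, A i (p i) = 0 :=
            Finset.prod_eq_zero (i := i1) (by simp [hi1]) (hA i1 (p i1) (hp1 i1) hi1V)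
          rw [h0, zero_mul, zero_mul, ite_self]
      have hcc : ∀ p : Fin k → ι, c p = c (fun i => if i ∈ J then p i else v0) := by
        intro p
        simp only [hc]
        have e1 : (fun i => if i ∈ J then (if i ∈ J then p i else v0) else v0) = fun i => if i ∈ J then p i else v0 := by
          funext i
          by_cases h : i ∈ J <;> simp [h]
        rw [e1]
        have e2 : ∏ i ∈ J, B i (if i ∈ J then p i else v0) = ∏ i ∈ J, B i (p i) :=
          Finset.prod_congr rfl fun i hi => by rw [if_pos hi]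
        rw [e2]
      rw [h1, c1a_split S J A c v0 hcc, norm_mul, norm_prod]
      refine mul_le_mul_of_nonneg_left ?_ (Finset.prod_nonneg fun _ _ => norm_nonneg _)
      refine (norm_sum_le _ _).trans ?_
      have e3 : ∏ i ∈ J, ∑ p ∈ S, ‖B i p‖ = ∏ i : {i : Fin k // i ∈ J}, ∑ p ∈ S, ‖B i p‖ := by
        rw [← Finset.prod_subtype J (p := fun i => i ∈ J) (f := fun i => ∑ p ∈ S, ‖B i p‖)]
        intro i
        simp
      rw [e3, Finset.prod_univ_sum]
      refine Finset.sum_le_sum fun a _ => ?_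
      have e4 : ∏ i : {i : Fin k // i ∈ J}, ‖B i (a i)‖ =
          ‖∏ i ∈ J, B i ((fun i => if h : i ∈ J then a ⟨i, h⟩ else v0) i)‖ := by
        rw [norm_prod, ← Finset.prod_attach J]
        rw [Finset.univ_eq_attach]
        refine Finset.prod_congr rfl fun i _ => ?_
        simp only [i.2, dif_pos]
      rw [e4]
      simp only [hc]
      split_ifs
      · exact le_rfl
      · rw [norm_zero]; exact norm_nonneg _

end Pool.Agent.Lib.H59P
end

-- from Lib.H59P.C1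
section

/-!
# Project H59P, chunk C1
-/

open Finset

namespace Pool.Agent.Lib.H59P

open Pool.Agent.Lib.H68T Pool.Agent.Lib.H18Q

/-- **C1.** Proof. `∏ (A + B) = ∑_J ∏_{i∉J} A ∏_{i∈J} B` (`Finset.prod_add` with the roles of the two subsets).
For `J = ∅`: tuples not satisfying `φ` have a coordinate outside of `V` (`hV`), so the product of the `A`
vanishes, and the sum over all tuples is `∏_i ∑_p A i p`. For `J ≠ ∅` use `C1a`; the sum of the bounds over
all `J ≠ ∅` is `∏_i (‖∑ A‖ + ∑ ‖B‖) - ∏_i ‖∑ A‖`. -/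
theorem C1 {k : ℕ} {ι : Type*} [DecidableEq ι] (S V : Finset ι) (φ : (Fin k → ι) → Prop)
    [DecidablePred φ] (A B : Fin k → ι → ℂ)
    (hA : ∀ i, ∀ p ∈ S, p ∉ V → A i p = 0)
    (dep : ∀ (J : Finset (Fin k)) (p p' : Fin k → ι), (∀ i ∈ J, p i = p' i) →
      (∀ i, i ∉ J → p i ∈ V) → (∀ i, i ∉ J → p' i ∈ V) → (φ p ↔ φ p'))
    (hV : ∀ p : Fin k → ι, (∀ i, p i ∈ V) → φ p) :
    ‖∑ p ∈ (Fintype.piFinset fun _ : Fin k => S).filter φ, ∏ i, (A i (p i) + B i (p i)) -
      ∏ i, ∑ p ∈ S, A i p‖ ≤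
      ∏ i, (‖∑ p ∈ S, A i p‖ + ∑ p ∈ S, ‖B i p‖) - ∏ i, ‖∑ p ∈ S, A i p‖ := by
  classical
  set F : Finset (Fin k) → ℂ := fun J => ∑ p ∈ (Fintype.piFinset fun _ : Fin k => S).filter φ,
      (∏ i ∈ univ \ J, A i (p i)) * ∏ i ∈ J, B i (p i) with hF
  set G : Finset (Fin k) → ℝ := fun J =>
      (∏ i ∈ univ \ J, ‖∑ p ∈ S, A i p‖) * ∏ i ∈ J, ∑ p ∈ S, ‖B i p‖ with hG
  have h1 : ∑ p ∈ (Fintype.piFinset fun _ : Fin k => S).filter φ, ∏ i, (A i (p i) + B i (p i)) =
      ∑ J ∈ (univ : Finset (Fin k)).powerset, F J := by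
    simp only [hF]
    rw [Finset.sum_comm]
    refine Finset.sum_congr rfl fun p _ => ?_
    have : ∀ i, A i (p i) + B i (p i) = B i (p i) + A i (p i) := fun i => add_comm _ _
    simp only [this]
    rw [Finset.prod_add]
    refine Finset.sum_congr rfl fun J _ => mul_comm _ _
  have h2 : ∏ i, (‖∑ p ∈ S, A i p‖ + ∑ p ∈ S, ‖B i p‖) = ∑ J ∈ (univ : Finset (Fin k)).powerset, G J := by
    simp only [hG]
    have : ∀ i, ‖∑ p ∈ S, A i p‖ + ∑ p ∈ S, ‖B i p‖ = ∑ p ∈ S, ‖B i p‖ + ‖∑ p ∈ S, A i p‖ := fun i => add_comm _ _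
    simp only [this]
    rw [Finset.prod_add]
    refine Finset.sum_congr rfl fun J _ => mul_comm _ _
  have h3 : F ∅ = ∏ i, ∑ p ∈ S, A i p := by
    simp only [hF, Finset.sdiff_empty, Finset.prod_empty, mul_one]
    rw [Finset.prod_univ_sum, Finset.sum_filter]
    refine Finset.sum_congr rfl fun p hp => ?_
    by_cases hφ : φ p
    · rw [if_pos hφ]
    · rw [if_neg hφ]
      have : ∃ i, p i ∉ V := by
        by_contra h
        push Not at h
        exact hφ (hV p h)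
      obtain ⟨i, hi⟩ := this
      exact (Finset.prod_eq_zero (Finset.mem_univ i) (hA i (p i) (Fintype.mem_piFinset.mp hp i) hi)).symm
  have h4 : G ∅ = ∏ i, ‖∑ p ∈ S, A i p‖ := by
    simp only [hG, Finset.sdiff_empty, Finset.prod_empty, mul_one]
  have hmem : (∅ : Finset (Fin k)) ∈ (univ : Finset (Fin k)).powerset := Finset.empty_mem_powerset _
  rw [h1, h2, ← h3, ← h4, ← Finset.add_sum_erase _ F hmem, ← Finset.add_sum_erase _ G hmem, add_sub_cancel_left,
    add_sub_cancel_left]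
  refine (norm_sum_le _ _).trans (Finset.sum_le_sum fun J _ => ?_)
  exact C1a S V φ A B J hA (dep J)

end Pool.Agent.Lib.H59P
end

-- from Lib.H59P.C2
section

/-!
# Project H59P, chunk C2: the numerical inequality
-/

open Finset

namespace Pool.Agent.Lib.H59P

open Pool.Agent.Lib.H68T Pool.Agent.Lib.H18Q

/-- **C2.** Proof. `a_i + b_i ≤ a_i (1 + E0)` (`b_i ≤ η E0 ≤ a_i E0`), so the left side is at most
`((1+E0)^k - 1) ∏ a_i`, and `(1+E0)^k ≤ e^(k E0) ≤ e^(1/4) ≤ 3/2`. -/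
theorem C2 {k : ℕ} (a b : Fin k → ℝ) (η E0 : ℝ) (hη : 0 < η) (hE0 : 0 ≤ E0) (hE : 4 * k * E0 ≤ 1)
    (ha : ∀ i, η ≤ a i) (hb0 : ∀ i, 0 ≤ b i) (hb : ∀ i, b i ≤ η * E0) :
    ∏ i, (a i + b i) - ∏ i, a i ≤ 1 / 2 * ∏ i, a i := by
  have ha0 : ∀ i, 0 ≤ a i := fun i => hη.le.trans (ha i)
  have hP : 0 ≤ ∏ i, a i := Finset.prod_nonneg fun i _ => ha0 i
  have h1 : ∏ i, (a i + b i) ≤ ∏ i, (a i * (1 + E0)) := by
    refine Finset.prod_le_prod (fun i _ => add_nonneg (ha0 i) (hb0 i)) fun i _ => ?_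
    have := mul_le_mul_of_nonneg_right (ha i) hE0
    have := hb i
    linarith
  have h2 : ∏ i : Fin k, (a i * (1 + E0)) = (∏ i, a i) * (1 + E0) ^ k := by
    rw [Finset.prod_mul_distrib, Finset.prod_const, Finset.card_univ, Fintype.card_fin]
  have h3 : (1 + E0) ^ k ≤ 3 / 2 := by
    have e1 : (1 + E0) ^ k ≤ Real.exp E0 ^ k :=
      pow_le_pow_left₀ (by linarith) (by linarith [Real.add_one_le_exp E0]) k
    have e2 : Real.exp E0 ^ k = Real.exp (k * E0) := by rw [← Real.exp_nat_mul]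
    have e3 : Real.exp (k * E0) ≤ Real.exp (1 / 4) := Real.exp_le_exp.mpr (by linarith)
    have e4 : Real.exp (1 / 4) ≤ 3 / 2 := by
      have h := Real.exp_one_lt_d9
      have h5 : Real.exp (1 / 4) ^ 4 = Real.exp 1 := by
        rw [← Real.exp_nat_mul]; norm_num
      by_contra hcon
      push Not at hcon
      have h6 : (3 / 2 : ℝ) ^ 4 < Real.exp (1 / 4) ^ 4 := pow_lt_pow_left₀ hcon (by norm_num) (by norm_num)
      rw [h5] at h6
      norm_num at h6
      linarith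
    linarith [e1.trans (e2.le.trans (e3.trans e4))]
  rw [h2] at h1
  have h4 := mul_le_mul_of_nonneg_left h3 hP
  linarith

end Pool.Agent.Lib.H59P
end

-- from Lib.H59P.M1A
section

/-!
# Project H59P, chunk M1a
-/

open Finset

namespace Pool.Agent.Lib.H59P

open Pool.Agent.Lib.H68T Pool.Agent.Lib.H18Q

theorem m1a_sum {R : Type*} [CommRing R] (b : ℕ → R) (d : ℕ) (hd : Squarefree d) :
    ∑ q ∈ d.divisors, ∏ l ∈ q.primeFactors, b l = ∏ l ∈ d.primeFactors, (1 + b l) := by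
  have h := ArithmeticFunction.IsMultiplicative.prodPrimeFactors_one_add_of_squarefree
    (ArithmeticFunction.IsMultiplicative.prodPrimeFactors b) hd
  have h1 : ∏ p ∈ d.primeFactors, (1 + ArithmeticFunction.prodPrimeFactors b p) =
      ∏ l ∈ d.primeFactors, (1 + b l) := by
    refine Finset.prod_congr rfl fun l hl => ?_
    have hp := Nat.prime_of_mem_primeFactors hl
    rw [ArithmeticFunction.prodPrimeFactors_apply hp.ne_zero, hp.primeFactors,
      Finset.prod_singleton]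
  rw [← h1, h]
  refine Finset.sum_congr rfl fun q hq => ?_
  rw [ArithmeticFunction.prodPrimeFactors_apply (Nat.pos_of_mem_divisors hq).ne']

theorem m1a_filter {k : ℕ} (d e : ℕ) (hd : d ≠ 0) (he : e ∣ d) :
    (Fintype.piFinset fun _ : Fin k => d.divisors).filter (fun κ => univ.lcm κ = e) =
    (Fintype.piFinset fun _ : Fin k => e.divisors).filter (fun κ => univ.lcm κ = e) := by
  have he0 : e ≠ 0 := fun h => hd (by rw [h] at he; exact zero_dvd_iff.1 he)
  ext κ
  simp only [Finset.mem_filter, Fintype.mem_piFinset, Nat.mem_divisors]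
  constructor
  · rintro ⟨-, h⟩
    exact ⟨fun i => ⟨h ▸ Finset.dvd_lcm (Finset.mem_univ i), he0⟩, h⟩
  · rintro ⟨h1, h⟩
    exact ⟨fun i => ⟨(h1 i).1.trans he, hd⟩, h⟩

/-- The tuples `κ` of divisors of a squarefree `d` with least common multiple `d`.

Proof. Let `P = d.primeFactors`. `κ ↦ (l ↦ {i | l ∣ κ_i})` is a bijection from the tuples of divisors
of `d` with `lcm κ = d` to the functions `B` on `P` with values in the nonempty subsets of `Fin k` (inverse:
`κ_i = ∏_{l ∈ P, i ∈ B_l} l`), and `∏_i ∏_{l ∣ κ_i} a l i = ∏_{l ∈ P} ∏_{i ∈ B_l} a l i`. Sum: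
`∏_{l ∈ P} ∑_{B ≠ ∅} ∏_{i ∈ B} a l i = ∏_{l ∈ P} (∏_i (1 + a l i) - 1)` (`Finset.prod_one_add`,
`Finset.prod_univ_sum` / `Finset.prod_sum`).
Or by strong induction on `d`: summing both sides over the divisors of `d` gives
`∏_i ∑_{q ∣ d} ∏_{l ∣ q} a l i = ∏_i ∏_{l ∣ d} (1 + a l i)` on both sides
(`Finset.sum_fiberwise_of_maps_to` for `κ ↦ lcm κ`). -/
theorem M1a {k : ℕ} (a : ℕ → Fin k → ℂ) (d : ℕ) (hd : Squarefree d) :
    ∑ κ ∈ (Fintype.piFinset fun _ : Fin k => d.divisors).filter (fun κ => univ.lcm κ = d),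
      ∏ i, ∏ l ∈ (κ i).primeFactors, a l i =
    ∏ l ∈ d.primeFactors, (∏ i, (1 + a l i) - 1) := by
  induction d using Nat.strong_induction_on with
  | _ d ih =>
    have hd0 : d ≠ 0 := hd.ne_zero
    have hA : ∑ e ∈ d.divisors,
        (∑ κ ∈ (Fintype.piFinset fun _ : Fin k => e.divisors).filter (fun κ => univ.lcm κ = e),
          ∏ i, ∏ l ∈ (κ i).primeFactors, a l i) =
        ∏ i, ∏ l ∈ d.primeFactors, (1 + a l i) := by
      have h1 : ∑ κ ∈ (Fintype.piFinset fun _ : Fin k => d.divisors),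
          ∏ i, ∏ l ∈ (κ i).primeFactors, a l i = ∏ i, ∏ l ∈ d.primeFactors, (1 + a l i) := by
        rw [← Finset.prod_univ_sum (fun _ : Fin k => d.divisors)
          (fun i q => ∏ l ∈ q.primeFactors, a l i)]
        exact Finset.prod_congr rfl fun i _ => m1a_sum (fun l => a l i) d hd
      rw [← h1, ← Finset.sum_fiberwise_of_maps_to (s := Fintype.piFinset fun _ : Fin k => d.divisors)
        (t := d.divisors) (g := fun κ => univ.lcm κ)]
      · refine Finset.sum_congr rfl fun e he => ?_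
        rw [m1a_filter d e hd0 (Nat.dvd_of_mem_divisors he)]
      · intro κ hκ
        rw [Fintype.mem_piFinset] at hκ
        rw [Nat.mem_divisors]
        exact ⟨Finset.lcm_dvd fun i _ => Nat.dvd_of_mem_divisors (hκ i), hd0⟩
    have hB : ∑ e ∈ d.divisors, ∏ l ∈ e.primeFactors, (∏ i, (1 + a l i) - 1) =
        ∏ i, ∏ l ∈ d.primeFactors, (1 + a l i) := by
      rw [m1a_sum (fun l => ∏ i, (1 + a l i) - 1) d hd, Finset.prod_comm]
      refine Finset.prod_congr rfl fun l _ => ?_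
      ring
    have hC := hA.trans hB.symm
    rw [← Nat.insert_self_properDivisors hd0, Finset.sum_insert Nat.self_notMem_properDivisors,
      Finset.sum_insert Nat.self_notMem_properDivisors] at hC
    have hD : ∑ e ∈ d.properDivisors,
        (∑ κ ∈ (Fintype.piFinset fun _ : Fin k => e.divisors).filter (fun κ => univ.lcm κ = e),
          ∏ i, ∏ l ∈ (κ i).primeFactors, a l i) =
        ∑ e ∈ d.properDivisors, ∏ l ∈ e.primeFactors, (∏ i, (1 + a l i) - 1) := by
      refine Finset.sum_congr rfl fun e he => ?_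
      rw [Nat.mem_properDivisors] at he
      exact ih e he.2 (hd.squarefree_of_dvd he.1)
    rw [hD] at hC
    exact add_right_cancel hC

end Pool.Agent.Lib.H59P
end

-- from Lib.H59P.M1
section

/-!
# Project H59P, chunk M1
-/

open Finset

namespace Pool.Agent.Lib.H59P

open Pool.Agent.Lib.H68T Pool.Agent.Lib.H18Q

theorem m1_lcm (m n : ℕ) (hm : Squarefree m) (hn : Squarefree n) : Squarefree (lcm m n) := by
  have hm0 := hm.ne_zero
  have hn0 := hn.ne_zero
  have hne : lcm m n ≠ 0 := by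
    rw [Ne, _root_.lcm_eq_zero_iff]
    tauto
  rw [Nat.squarefree_iff_factorization_le_one hne]
  intro p
  change (Nat.lcm m n).factorization p ≤ 1
  rw [Nat.factorization_lcm hm0 hn0, Finsupp.sup_apply]
  exact sup_le (hm.natFactorization_le_one p) (hn.natFactorization_le_one p)

/-- **M1.** Proof. Group the left side by `d = lcm κ` (`Finset.sum_fiberwise_of_maps_to`): `κ_i` are squarefree,
coprime to `R` and nonzero, so `d` is squarefree and coprime to `R`, i.e. `d ∈ SF E R`; for given `d` the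
`κ` are exactly the tuples of divisors of `d` with lcm `d` (divisors of `d ≤ E` are in `SF E R`).
`M1a`. -/
theorem M1 {k : ℕ} (a : ℕ → Fin k → ℂ) (E R : ℕ) :
    ∑ κ ∈ (Fintype.piFinset fun _ : Fin k => SF E R).filter (fun κ => univ.lcm κ ≤ E),
      ∏ i, ∏ l ∈ (κ i).primeFactors, a l i =
    ∑ d ∈ SF E R, ∏ l ∈ d.primeFactors, (∏ i, (1 + a l i) - 1) := by
  have hSF : ∀ q, q ∈ SF E R ↔ (1 ≤ q ∧ q ≤ E) ∧ Squarefree q ∧ Nat.Coprime q R := by
    intro q
    rw [SF, Finset.mem_filter, Finset.mem_Icc]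
  rw [← Finset.sum_fiberwise_of_maps_to
    (s := (Fintype.piFinset fun _ : Fin k => SF E R).filter (fun κ => univ.lcm κ ≤ E))
    (t := SF E R) (g := fun κ => univ.lcm κ)]
  · refine Finset.sum_congr rfl fun d hd => ?_
    have hd' := (hSF d).1 hd
    rw [← M1a a d hd'.2.1]
    refine Finset.sum_congr ?_ fun _ _ => rfl
    ext κ
    simp only [Finset.mem_filter, Fintype.mem_piFinset, Nat.mem_divisors]
    constructor
    · rintro ⟨⟨h1, h2⟩, h3⟩
      refine ⟨fun i => ⟨?_, hd'.2.1.ne_zero⟩, h3⟩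
      rw [← h3]
      exact Finset.dvd_lcm (Finset.mem_univ i)
    · rintro ⟨h1, h3⟩
      refine ⟨⟨fun i => ?_, ?_⟩, h3⟩
      · rw [hSF]
        have hdv := (h1 i).1
        exact ⟨⟨Nat.pos_of_dvd_of_pos hdv hd'.1.1, (Nat.le_of_dvd hd'.1.1 hdv).trans hd'.1.2⟩,
          hd'.2.1.squarefree_of_dvd hdv, hd'.2.2.coprime_dvd_left hdv⟩
      · rw [h3]
        exact hd'.1.2
  · intro κ hκ
    rw [Finset.mem_filter, Fintype.mem_piFinset] at hκ
    obtain ⟨h1, h2⟩ := hκ
    rw [hSF]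
    have hne : univ.lcm κ ≠ 0 := by
      rw [Ne, Finset.lcm_eq_zero_iff]
      rintro ⟨i, -, hi⟩
      have := ((hSF (κ i)).1 (h1 i)).1.1
      omega
    have hsq : ∀ s : Finset (Fin k), Squarefree (s.lcm κ) := by
      intro s
      induction s using Finset.induction_on with
      | empty => rw [Finset.lcm_empty]; exact squarefree_one
      | insert i s his ih =>
        rw [Finset.lcm_insert]
        exact m1_lcm _ _ ((hSF _).1 (h1 i)).2.1 ih
    have hco : ∀ s : Finset (Fin k), Nat.Coprime (s.lcm κ) R := by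
      intro s
      induction s using Finset.induction_on with
      | empty => rw [Finset.lcm_empty]; exact Nat.coprime_one_left R
      | insert i s his ih =>
        rw [Finset.lcm_insert]
        refine Nat.Coprime.coprime_dvd_left (lcm_dvd (Dvd.intro _ rfl) (Dvd.intro_left _ rfl))
          (Nat.Coprime.mul_left ((hSF _).1 (h1 i)).2.2 ih)
    exact ⟨⟨Nat.pos_of_ne_zero hne, h2⟩, hsq _, hco _⟩

end Pool.Agent.Lib.H59P
end

-- from Lib.H59P.M2A
section

/-!
# Project H59P, chunk M2a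
-/

open Finset

namespace Pool.Agent.Lib.H59P

open Pool.Agent.Lib.H68T Pool.Agent.Lib.H18Q

/-- `μ(κ) c_κ(m)/φ(κ) = ∏_{l ∣ κ} gl l m` for squarefree `κ`.

Proof. Induction over the prime factors (`CA_cq_mul`, `CA_cq_prime`, multiplicativity of `μ` and `φ`);
for a prime `l`: `-c_l(m)/(l-1)`, `c_l(m) = l - 1` if `l ∣ m`, else `-1`. -/
theorem M2a (κ : ℕ) (hκ : Squarefree κ) (m : ℤ) :
    (ArithmeticFunction.moebius κ : ℝ) / (Nat.totient κ : ℝ) * cq κ m =
      ∏ l ∈ κ.primeFactors, gl l m := by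
  induction κ using Nat.recOnPosPrimePosCoprime with
  | prime_pow p n hp hn =>
    have hn1 : n = 1 := ((Nat.squarefree_pow_iff hp.ne_one hn.ne').1 hκ).2
    subst hn1
    rw [pow_one, CA_cq_prime p hp, hp.primeFactors, Finset.prod_singleton,
      ArithmeticFunction.moebius_apply_prime hp, Nat.totient_prime hp, Nat.cast_pred hp.pos]
    have h1 : (p : ℝ) - 1 ≠ 0 := by
      have : (1 : ℝ) < p := by exact_mod_cast hp.one_lt
      linarith
    unfold gl
    split_ifs with h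
    · push_cast
      field_simp
      ring
    · push_cast
      field_simp
      ring
  | zero => exact absurd rfl hκ.ne_zero
  | one =>
    have h1 : cq 1 m = 1 := by
      rw [cq, Nat.divisors_one, Finset.sum_filter, Finset.sum_singleton,
        if_pos (by rw [Nat.cast_one]; exact one_dvd m)]
      simp
    rw [h1]
    simp
  | coprime a b ha hb hab iha ihb =>
    have hsa : Squarefree a := hκ.squarefree_of_dvd (Dvd.intro _ rfl)
    have hsb : Squarefree b := hκ.squarefree_of_dvd (Dvd.intro_left _ rfl)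
    rw [Nat.Coprime.primeFactors_mul hab, Finset.prod_union hab.disjoint_primeFactors,
      ← iha hsa, ← ihb hsb, CA_cq_mul a b m hab,
      ArithmeticFunction.isMultiplicative_moebius.map_mul_of_coprime hab,
      Nat.totient_mul hab]
    push_cast
    rw [mul_div_mul_comm]
    ring

end Pool.Agent.Lib.H59P
end

-- from Lib.H59P.M2B
section

/-!
# Project H59P, chunk M2b
-/

open Finset

namespace Pool.Agent.Lib.H59P

open Pool.Agent.Lib.H68T Pool.Agent.Lib.H18Q

theorem m2b_prod (r : ℕ) (hr : 0 < r) (m : ℤ) (h : IsCoprime (r : ℤ) m) :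
    ∏ l ∈ r.primeFactors, (1 + gl l m) = (r : ℝ) / (Nat.totient r : ℝ) := by
  have h0 : ∀ l ∈ r.primeFactors, (l : ℝ) - 1 ≠ 0 := by
    intro l hl
    have : (1 : ℝ) < l := by exact_mod_cast (Nat.prime_of_mem_primeFactors hl).one_lt
    linarith
  have h1 : ∏ l ∈ r.primeFactors, (1 + gl l m) =
      (∏ l ∈ r.primeFactors, (l : ℝ)) / ∏ l ∈ r.primeFactors, ((l : ℝ) - 1) := by
    rw [← Finset.prod_div_distrib]
    refine Finset.prod_congr rfl fun l hl => ?_
    have hp := Nat.prime_of_mem_primeFactors hl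
    have hnd : ¬ (l : ℤ) ∣ m := by
      intro hdm
      have hdr : (l : ℤ) ∣ (r : ℤ) := by exact_mod_cast Nat.dvd_of_mem_primeFactors hl
      exact (Nat.prime_iff_prime_int.mp hp).not_unit (h.isUnit_of_dvd' hdr hdm)
    have := h0 l hl
    rw [gl, if_neg hnd]
    field_simp
    ring
  have h2 := Nat.totient_mul_prod_primeFactors r
  have h3 : (Nat.totient r : ℝ) * ∏ l ∈ r.primeFactors, (l : ℝ) =
      (r : ℝ) * ∏ l ∈ r.primeFactors, ((l : ℝ) - 1) := by
    have h4 := congrArg (fun x : ℕ => (x : ℝ)) h2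
    simp only [Nat.cast_mul, Nat.cast_prod] at h4
    rw [h4]
    congr 1
    refine Finset.prod_congr rfl fun l hl => ?_
    rw [Nat.cast_pred (Nat.prime_of_mem_primeFactors hl).pos]
  have h5 : (∏ l ∈ r.primeFactors, ((l : ℝ) - 1)) ≠ 0 := Finset.prod_ne_zero_iff.2 h0
  have h6 : (Nat.totient r : ℝ) ≠ 0 := by
    exact_mod_cast (Nat.totient_pos.2 hr).ne'
  rw [h1, div_eq_div_iff h5 h6, mul_comm, h3]

/-- For `p.1 ∣ R`, `r = p.1`:
`(r/φ(r)) conj χ(m) ∏_{l ∣ R, l ∤ r} (1 + gl l m) = conj χ(m) ∏_{l ∣ R} (1 + gl l m)`.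

Proof. If `m` is not coprime to `r` both sides are `0` (`CA_chi_zero`). Else for `l ∣ r` `l` does not divide
`m` and `1 + gl l m = l/(l-1)`, and `∏_{l ∣ r} l/(l-1) = r/φ(r)` (`Nat.totient_eq_mul_prod_factors`
or `Nat.totient_mul_prod_primeFactors`). `r` divides `R`, so the prime factors of `r` are among those of
`R` (`R > 0`). -/
theorem M2b (R : ℕ) (hR : 0 < R) (p : Ch) (hd : p.1 ∣ R) (m : ℤ) :
    (((p.1 : ℝ) / (Nat.totient p.1 : ℝ) : ℝ) : ℂ) * cj p m *
      ((∏ l ∈ R.primeFactors.filter (fun l => ¬ l ∣ p.1), (1 + gl l m) : ℝ) : ℂ) =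
    cj p m * ((uu R.primeFactors m : ℝ) : ℂ) := by
  by_cases h : IsCoprime (p.1 : ℤ) m
  · have hr : 0 < p.1 := Nat.pos_of_dvd_of_pos hd hR
    have hset : R.primeFactors.filter (fun l => l ∣ p.1) = p.1.primeFactors := by
      ext l
      rw [Finset.mem_filter, Nat.mem_primeFactors, Nat.mem_primeFactors]
      constructor
      · rintro ⟨⟨h1, -, -⟩, h2⟩
        exact ⟨h1, h2, hr.ne'⟩
      · rintro ⟨h1, h2, -⟩
        exact ⟨⟨h1, h2.trans hd, hR.ne'⟩, h2⟩
    have h1 : uu R.primeFactors m = (p.1 : ℝ) / (Nat.totient p.1 : ℝ) *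
        ∏ l ∈ R.primeFactors.filter (fun l => ¬ l ∣ p.1), (1 + gl l m) := by
      rw [uu, ← Finset.prod_filter_mul_prod_filter_not R.primeFactors (fun l => l ∣ p.1), hset,
        m2b_prod p.1 hr m h]
    rw [h1, Complex.ofReal_mul]
    ring
  · have h0 : cj p m = 0 := by
      rw [cj, CA_chi_zero p.1 p.2 m h, map_zero]
    rw [h0]
    ring

end Pool.Agent.Lib.H59P
end

-- from Lib.H59P.M2C
section

/-!
# Project H59P, chunk M2c: sum over the squarefree divisors of R coprime to r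
-/

open Finset

namespace Pool.Agent.Lib.H59P

open Pool.Agent.Lib.H68T Pool.Agent.Lib.H18Q

/-- The squarefree divisors of `R` coprime to `r`. -/
noncomputable def SD (R r : ℕ) : Finset ℕ :=
  open Classical in R.divisors.filter (fun s => Squarefree s ∧ Nat.Coprime s r)

/-- Proof. `s ↦ s.primeFactors` is a bijection from `SD R r` to the subsets of
`R.primeFactors.filter (¬ l ∣ r)` (inverse `S ↦ ∏ l ∈ S, l`); `Finset.prod_one_add` (or
`Finset.prod_add`). -/
theorem M2c (a : ℕ → ℂ) (R r : ℕ) (hR : 0 < R) :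
    ∑ s ∈ SD R r, ∏ l ∈ s.primeFactors, a l =
      ∏ l ∈ R.primeFactors.filter (fun l => ¬ l ∣ r), (1 + a l) := by
  rw [Finset.prod_one_add]
  have hSD : ∀ q, q ∈ SD R r ↔ (q ∣ R ∧ R ≠ 0) ∧ Squarefree q ∧ Nat.Coprime q r := by
    intro q
    rw [SD, Finset.mem_filter, Nat.mem_divisors]
  have hpr : ∀ S ∈ (R.primeFactors.filter (fun l => ¬ l ∣ r)).powerset, ∀ l ∈ S, l.Prime ∧ l ∣ R ∧
      ¬ l ∣ r := by
    intro S hS l hl
    have h1 := Finset.mem_powerset.1 hS hl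
    rw [Finset.mem_filter, Nat.mem_primeFactors] at h1
    exact ⟨h1.1.1, h1.1.2.1, h1.2⟩
  refine Finset.sum_nbij' (fun s => s.primeFactors) (fun S => ∏ l ∈ S, l) ?_ ?_ ?_ ?_ ?_
  · intro s hs
    rw [hSD] at hs
    rw [Finset.mem_powerset]
    intro l hl
    rw [Finset.mem_filter, Nat.mem_primeFactors]
    have hl' := Nat.mem_primeFactors.1 hl
    refine ⟨⟨hl'.1, hl'.2.1.trans hs.1.1, hs.1.2⟩, fun h => ?_⟩
    exact Nat.Prime.not_coprime_iff_dvd.2 ⟨l, hl'.1, hl'.2.1, h⟩ hs.2.2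
  · intro S hS
    have hS' := hpr S hS
    rw [hSD]
    refine ⟨⟨?_, hR.ne'⟩, ?_, ?_⟩
    · exact Finset.prod_primes_dvd R (fun l hl => (hS' l hl).1.prime) (fun l hl => (hS' l hl).2.1)
    · refine Finset.squarefree_prod_of_pairwise_isCoprime
        (fun x hx y hy hxy => ?_) (fun l hl => (hS' l hl).1.prime.squarefree)
      exact Nat.coprime_iff_isRelPrime.1 ((Nat.coprime_primes (hS' x hx).1 (hS' y hy).1).2 hxy)
    · refine Nat.Coprime.prod_left fun l hl => ?_
      exact (Nat.Prime.coprime_iff_not_dvd (hS' l hl).1).2 (hS' l hl).2.2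
  · intro s hs
    rw [hSD] at hs
    exact Nat.prod_primeFactors_of_squarefree hs.2.1
  · intro S hS
    exact Nat.primeFactors_prod fun l hl => (hpr S hS l hl).1
  · intro s _
    rfl

end Pool.Agent.Lib.H59P
end

-- from Lib.H59P.M2D
section

/-!
# Project H59P, chunk M2d: splitting the tuples into the part dividing R and the part coprime to R
-/

open Finset

namespace Pool.Agent.Lib.H59P

open Pool.Agent.Lib.H68T Pool.Agent.Lib.H18Q

theorem m2d_mem_KS {Q r k : ℕ} : k ∈ KS Q r ↔ (1 ≤ k ∧ k ≤ Q / r) ∧ Squarefree k ∧ Nat.Coprime k r := by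
  unfold KS
  rw [mem_filter, mem_Icc]

theorem m2d_mem_SF {D R d : ℕ} : d ∈ SF D R ↔ (1 ≤ d ∧ d ≤ D) ∧ Squarefree d ∧ Nat.Coprime d R := by
  unfold SF
  rw [mem_filter, mem_Icc]

theorem m2d_mem_SD {R r s : ℕ} : s ∈ SD R r ↔ (s ∣ R ∧ R ≠ 0) ∧ Squarefree s ∧ Nat.Coprime s r := by
  unfold SD
  rw [mem_filter, Nat.mem_divisors]

theorem m2d_lcm_dvd_prod {k : ℕ} (d : Fin k → ℕ) : univ.lcm d ∣ ∏ i, d i :=
  Finset.lcm_dvd (fun i _ => Finset.dvd_prod_of_mem d (mem_univ i))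

theorem m2d_lcm_pos {k : ℕ} (d : Fin k → ℕ) (h : ∀ i, 0 < d i) : 0 < univ.lcm d :=
  Nat.pos_of_dvd_of_pos (m2d_lcm_dvd_prod d) (Finset.prod_pos (fun i _ => h i))

theorem m2d_lcm_coprime {k : ℕ} (R : ℕ) (d : Fin k → ℕ) (h : ∀ i, Nat.Coprime (d i) R) :
    Nat.Coprime R (univ.lcm d) := by
  refine Nat.Coprime.coprime_dvd_right (m2d_lcm_dvd_prod d) ?_
  exact Nat.Coprime.prod_right (fun i _ => (h i).symm)

theorem m2d_dvd_lcm {k : ℕ} (d : Fin k → ℕ) (i : Fin k) : d i ∣ univ.lcm d :=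
  Finset.dvd_lcm (mem_univ i)

/-- **M2d.** For a common multiple `R > 0` of the `r_i ≥ 1`, `D ≤ Q`.

Proof. If `D < R` both sides are `0`: `lcm(R, …) ≥ R > D`, and on the right `D / R = 0`, `SF 0 R = ∅`, and a
tuple in `piFinset` of the empty set does not exist for `k ≥ 1` (for `k = 0` the least common multiple of
the empty tuple is `1 > 0 = D / R`). Else: bijection `κ ↦ (s, d)`, `s_i = gcd(κ_i, R)`, `d_i = κ_i / s_i`, onto
the product of the two sets (`Finset.sum_nbij'`, after writing the right side as a sum over a product: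
`Finset.prod_univ_sum`, `Finset.sum_mul_sum`, `Finset.sum_product'`). `κ_i` is squarefree, so `s_i` is a
squarefree divisor of `R` coprime to `r_i`, `d_i` is squarefree and coprime to `R` and `s_i`; and
`lcm(R, κ_1, …, κ_k) = R lcm(d_1, …, d_k)` (`κ_i ∣ R lcm(d)` since `s_i ∣ R`, and `R`, `lcm(d)` are coprime and
both divide the left side), so the condition is `lcm(d) ≤ D / R`; in particular `d_i ≤ D/R`. Conversely for
`s_i ∈ SD R r_i`, `d_i ∈ SF (D/R) R` with `lcm(d) ≤ D/R` the number `κ_i = s_i d_i` is squarefree, coprime to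
`r_i` (`d_i` is coprime to `R`, hence to `r_i`) and at most `Q / r_i`: `r_i s_i ∣ R` (coprime divisors), so
`r_i κ_i ≤ R d_i ≤ D ≤ Q`; and `gcd(s_i d_i, R) = s_i`. The prime factors of `κ_i` are the disjoint union of
those of `s_i` and `d_i` (`Nat.Coprime.primeFactors_mul`, `Finset.prod_union`). -/
theorem M2d {k : ℕ} (a : ℕ → Fin k → ℂ) (Q D R : ℕ) (hDQ : D ≤ Q) (hR : 0 < R) (r : Fin k → ℕ)
    (hr : ∀ i, 1 ≤ r i) (hd : ∀ i, r i ∣ R) :
    ∑ κ ∈ (Fintype.piFinset fun i => KS Q (r i)).filter (fun κ => R.lcm (univ.lcm κ) ≤ D),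
      ∏ i, ∏ l ∈ (κ i).primeFactors, a l i =
    (∏ i, ∑ s ∈ SD R (r i), ∏ l ∈ s.primeFactors, a l i) *
      ∑ κ ∈ (Fintype.piFinset fun _ : Fin k => SF (D / R) R).filter (fun κ => univ.lcm κ ≤ D / R),
        ∏ i, ∏ l ∈ (κ i).primeFactors, a l i := by
  classical
  rw [Finset.prod_univ_sum, Finset.sum_mul_sum, ← Finset.sum_product']
  refine Finset.sum_bij'
    (i := fun (κ : Fin k → ℕ) _ => ((fun i => Nat.gcd (κ i) R, fun i => κ i / Nat.gcd (κ i) R) :
      (Fin k → ℕ) × (Fin k → ℕ)))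
    (j := fun (x : (Fin k → ℕ) × (Fin k → ℕ)) _ => (fun i => x.1 i * x.2 i : Fin k → ℕ))
    ?_ ?_ ?_ ?_ ?_
  · intro κ hκ
    rw [mem_filter, Fintype.mem_piFinset] at hκ
    obtain ⟨hκ1, hκ2⟩ := hκ
    have hκ3 : ∀ i, (1 ≤ κ i ∧ κ i ≤ Q / r i) ∧ Squarefree (κ i) ∧ Nat.Coprime (κ i) (r i) :=
      fun i => m2d_mem_KS.mp (hκ1 i)
    have hmul : ∀ i, Nat.gcd (κ i) R * (κ i / Nat.gcd (κ i) R) = κ i :=
      fun i => Nat.mul_div_cancel' (Nat.gcd_dvd_left _ _)
    have hgpos : ∀ i, 0 < Nat.gcd (κ i) R := fun i => Nat.gcd_pos_of_pos_right _ hR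
    have hdsq : ∀ i, Squarefree (κ i / Nat.gcd (κ i) R) := fun i =>
      Squarefree.squarefree_of_dvd (Nat.div_dvd_of_dvd (Nat.gcd_dvd_left _ _)) (hκ3 i).2.1
    have hdpos : ∀ i, 0 < κ i / Nat.gcd (κ i) R := fun i => Nat.pos_of_ne_zero (hdsq i).ne_zero
    have hcop : ∀ i, Nat.Coprime (Nat.gcd (κ i) R) (κ i / Nat.gcd (κ i) R) := fun i => by
      refine Nat.coprime_of_squarefree_mul ?_
      rw [hmul i]
      exact (hκ3 i).2.1
    have hdR : ∀ i, Nat.Coprime (κ i / Nat.gcd (κ i) R) R := fun i => by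
      have h1 : Nat.gcd (κ i / Nat.gcd (κ i) R) R ∣ Nat.gcd (κ i) R :=
        Nat.dvd_gcd ((Nat.gcd_dvd_left _ _).trans (Nat.div_dvd_of_dvd (Nat.gcd_dvd_left _ _)))
          (Nat.gcd_dvd_right _ _)
      have h2 := Nat.Coprime.coprime_dvd_left h1 (hcop i)
      have h3 : Nat.gcd (κ i / Nat.gcd (κ i) R) R ∣ κ i / Nat.gcd (κ i) R := Nat.gcd_dvd_left _ _
      exact Nat.Coprime.eq_one_of_dvd h2 h3
    have hle : univ.lcm (fun i => κ i / Nat.gcd (κ i) R) ≤ D / R := by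
      rw [Nat.le_div_iff_mul_le hR]
      have h1 : R * univ.lcm (fun i => κ i / Nat.gcd (κ i) R) ∣ R.lcm (univ.lcm κ) := by
        refine Nat.Coprime.mul_dvd_of_dvd_of_dvd (m2d_lcm_coprime R _ hdR) (Nat.dvd_lcm_left _ _) ?_
        refine Dvd.dvd.trans ?_ (Nat.dvd_lcm_right R (univ.lcm κ))
        refine Finset.lcm_dvd (fun i _ => ?_)
        exact (Nat.div_dvd_of_dvd (Nat.gcd_dvd_left _ _)).trans (m2d_dvd_lcm κ i)
      have h2 : 0 < R.lcm (univ.lcm κ) :=
        Nat.lcm_pos hR (m2d_lcm_pos κ (fun i => (hκ3 i).1.1))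
      calc univ.lcm (fun i => κ i / Nat.gcd (κ i) R) * R
          = R * univ.lcm (fun i => κ i / Nat.gcd (κ i) R) := mul_comm _ _
        _ ≤ R.lcm (univ.lcm κ) := Nat.le_of_dvd h2 h1
        _ ≤ D := hκ2
    rw [mem_product, mem_filter, Fintype.mem_piFinset, Fintype.mem_piFinset]
    refine ⟨fun i => m2d_mem_SD.mpr ⟨⟨Nat.gcd_dvd_right _ _, hR.ne'⟩, ?_, ?_⟩,
      fun i => m2d_mem_SF.mpr ⟨⟨hdpos i, ?_⟩, hdsq i, hdR i⟩, hle⟩
    · exact Squarefree.squarefree_of_dvd (Nat.gcd_dvd_left _ _) (hκ3 i).2.1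
    · exact Nat.Coprime.coprime_dvd_left (Nat.gcd_dvd_left _ _) (hκ3 i).2.2
    · exact (Nat.le_of_dvd (m2d_lcm_pos _ hdpos)
        (m2d_dvd_lcm (fun i => κ i / Nat.gcd (κ i) R) i)).trans hle
  · rintro ⟨s, d⟩ hx
    rw [mem_product, mem_filter, Fintype.mem_piFinset, Fintype.mem_piFinset] at hx
    obtain ⟨hs, hd1, hd2⟩ := hx
    dsimp only at hs hd1 hd2
    have hs3 := fun i => m2d_mem_SD.mp (hs i)
    have hd3 := fun i => m2d_mem_SF.mp (hd1 i)
    have hspos : ∀ i, 0 < s i := fun i => Nat.pos_of_dvd_of_pos (hs3 i).1.1 hR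
    have hsd : ∀ i, Nat.Coprime (s i) (d i) := fun i =>
      (Nat.Coprime.coprime_dvd_right (hs3 i).1.1 (hd3 i).2.2).symm
    have hRD : R * (D / R) ≤ D := Nat.mul_div_le D R
    rw [mem_filter, Fintype.mem_piFinset]
    refine ⟨fun i => m2d_mem_KS.mpr ⟨⟨Nat.mul_pos (hspos i) (hd3 i).1.1, ?_⟩, ?_, ?_⟩, ?_⟩
    · rw [Nat.le_div_iff_mul_le (hr i)]
      have h1 : r i * s i ∣ R :=
        Nat.Coprime.mul_dvd_of_dvd_of_dvd (hs3 i).2.2.symm (hd i) (hs3 i).1.1
      have h2 : r i * s i ≤ R := Nat.le_of_dvd hR h1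
      calc s i * d i * r i = (r i * s i) * d i := by ring
        _ ≤ R * (D / R) := Nat.mul_le_mul h2 (hd3 i).1.2
        _ ≤ D := hRD
        _ ≤ Q := hDQ
    · exact (Nat.squarefree_mul (hsd i)).mpr ⟨(hs3 i).2.1, (hd3 i).2.1⟩
    · exact Nat.Coprime.mul_left (hs3 i).2.2 (Nat.Coprime.coprime_dvd_right (hd i) (hd3 i).2.2)
    · have h1 : R.lcm (univ.lcm (fun i => s i * d i)) ∣ R * univ.lcm d := by
        refine Nat.lcm_dvd (Dvd.intro _ rfl) (Finset.lcm_dvd (fun i _ => ?_))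
        exact Nat.mul_dvd_mul (hs3 i).1.1 (m2d_dvd_lcm d i)
      have h2 : 0 < R * univ.lcm d := Nat.mul_pos hR (m2d_lcm_pos d (fun i => (hd3 i).1.1))
      calc R.lcm (univ.lcm (fun i => s i * d i)) ≤ R * univ.lcm d := Nat.le_of_dvd h2 h1
        _ ≤ R * (D / R) := Nat.mul_le_mul le_rfl hd2
        _ ≤ D := hRD
  · intro κ _
    funext i
    exact Nat.mul_div_cancel' (Nat.gcd_dvd_left _ _)
  · rintro ⟨s, d⟩ hx
    rw [mem_product, mem_filter, Fintype.mem_piFinset, Fintype.mem_piFinset] at hx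
    obtain ⟨hs, hd1, hd2⟩ := hx
    dsimp only at hs hd1 hd2
    have hs3 := fun i => m2d_mem_SD.mp (hs i)
    have hd3 := fun i => m2d_mem_SF.mp (hd1 i)
    have hg : ∀ i, Nat.gcd (s i * d i) R = s i := fun i => by
      rw [Nat.Coprime.gcd_mul_right_cancel (s i) (hd3 i).2.2]
      exact Nat.gcd_eq_left (hs3 i).1.1
    have hspos : ∀ i, 0 < s i := fun i => Nat.pos_of_dvd_of_pos (hs3 i).1.1 hR
    refine Prod.ext ?_ ?_
    · funext i
      exact hg i
    · funext i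
      show s i * d i / Nat.gcd (s i * d i) R = d i
      rw [hg i]
      exact Nat.mul_div_cancel_left _ (hspos i)
  · intro κ hκ
    rw [mem_filter, Fintype.mem_piFinset] at hκ
    have hκ3 : ∀ i, (1 ≤ κ i ∧ κ i ≤ Q / r i) ∧ Squarefree (κ i) ∧ Nat.Coprime (κ i) (r i) :=
      fun i => m2d_mem_KS.mp (hκ.1 i)
    rw [← Finset.prod_mul_distrib]
    refine Finset.prod_congr rfl (fun i _ => ?_)
    have hmul : Nat.gcd (κ i) R * (κ i / Nat.gcd (κ i) R) = κ i :=
      Nat.mul_div_cancel' (Nat.gcd_dvd_left _ _)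
    have hcop : Nat.Coprime (Nat.gcd (κ i) R) (κ i / Nat.gcd (κ i) R) := by
      refine Nat.coprime_of_squarefree_mul ?_
      rw [hmul]
      exact (hκ3 i).2.1
    have h1 : (κ i).primeFactors = (Nat.gcd (κ i) R).primeFactors ∪ (κ i / Nat.gcd (κ i) R).primeFactors := by
      have h2 := Nat.Coprime.primeFactors_mul hcop
      rw [hmul] at h2
      exact h2
    show ∏ l ∈ (κ i).primeFactors, a l i = (∏ l ∈ (Nat.gcd (κ i) R).primeFactors, a l i) *
      ∏ l ∈ (κ i / Nat.gcd (κ i) R).primeFactors, a l i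
    rw [h1, Finset.prod_union hcop.disjoint_primeFactors]

end Pool.Agent.Lib.H59P
end
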