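import Pool.Agent.Lib.H59M.M2.M022
import Pool.Agent.Lib.H59M.M2.M072
import Pool.Agent.Lib.H59M.M2.M078

/-! Merged copies (to shorten the build) of Lib.H59P.M3A, Lib.H59P.M3B, Lib.H59P.M3C, Lib.H59P.M3D, Lib.H59T.C1, Lib.H59T.C2, Lib.H59T.C3, Lib.H59T.L3, Lib.H59T.L4, Lib.H59T.E3, Lib.H59T.E4, Lib.H59T.E7, Lib.H59T.UD. -/

-- from Lib.H59P.M3A
section

/-!
# Project H59P, chunks M3a, M3b: periodicity and bounds of the local functions
-/

open Finset

namespace Pool.Agent.Lib.H59P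

open Pool.Agent.Lib.H68T Pool.Agent.Lib.H18Q

/-- `gl l` has period `l`. -/
theorem gl_per (l : ℕ) (m j : ℤ) : gl l (m + j * l) = gl l m := by
  unfold gl
  have h : ((l : ℤ) ∣ m + j * l) ↔ (l : ℤ) ∣ m := by
    constructor
    · intro h
      have := (dvd_add_left (dvd_mul_left (l : ℤ) j)).1 h
      exact this
    · intro h
      exact dvd_add h (dvd_mul_left _ _)
  simp only [h]

/-- **M3a.** Bounds: for a prime `l`, `0 ≤ 1 + gl l m ≤ l/(l-1)`; `0 ≤ uu P m ≤ R/φ(R)` for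
`P = R.primeFactors`; `‖Ph p P h n‖ ≤ ∏_i uu P (n+h_i)` for a set `P` of primes; `|Wl l h n| ≤ (l/(l-1))^k`,
`|tp l h| ≤ (l/(l-1))^k`, `0 ≤ 1 + tp l h ≤ (l/(l-1))^k`; `|Wd d h n| ≤ (d/φ(d))^k` and
`|td d h| ≤ (d/φ(d))^k` for squarefree `d` (`∏_{l ∣ d} l/(l-1) = d/φ(d)`).

Proof. Directly; `(l/(l-1))^k ≥ 1`; `DirichletCharacter.norm_le_one`. -/
theorem M3a_gl (l : ℕ) (hl : l.Prime) (m : ℤ) : 0 ≤ 1 + gl l m ∧ 1 + gl l m ≤ (l : ℝ) / ((l : ℝ) - 1) := by
  have h2 : (2 : ℝ) ≤ l := by exact_mod_cast hl.two_le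
  have h3 : (0 : ℝ) < (l : ℝ) - 1 := by linarith
  have h4 : (0 : ℝ) ≤ (l : ℝ) / ((l : ℝ) - 1) := by positivity
  unfold gl
  split_ifs with h
  · constructor
    · norm_num
    · linarith
  · have h5 : (1 : ℝ) + 1 / ((l : ℝ) - 1) = (l : ℝ) / ((l : ℝ) - 1) := by
      field_simp
      ring
    rw [h5]
    exact ⟨h4, le_refl _⟩

theorem M3a_ratio (l : ℕ) (hl : l.Prime) : (1 : ℝ) ≤ (l : ℝ) / ((l : ℝ) - 1) := by
  have h2 : (2 : ℝ) ≤ l := by exact_mod_cast hl.two_le
  have h3 : (0 : ℝ) < (l : ℝ) - 1 := by linarith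
  rw [le_div_iff₀ h3]
  linarith

theorem M3a_prod (R : ℕ) (hR : 0 < R) :
    ∏ l ∈ R.primeFactors, ((l : ℝ) / ((l : ℝ) - 1)) = (R : ℝ) / (Nat.totient R : ℝ) := by
  have h1 : ((Nat.totient R : ℕ) : ℝ) = R * ∏ p ∈ R.primeFactors, (1 - (p : ℝ)⁻¹) := by
    have h := Nat.totient_eq_mul_prod_factors R
    have h' : (((Nat.totient R : ℕ) : ℚ) : ℝ) =
        ((R * ∏ p ∈ R.primeFactors, (1 - (p : ℚ)⁻¹) : ℚ) : ℝ) := by rw [h]
    push_cast at h'
    exact h'
  have h2' : (∏ l ∈ R.primeFactors, ((l : ℝ) / ((l : ℝ) - 1))) *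
      ∏ p ∈ R.primeFactors, (1 - (p : ℝ)⁻¹) = 1 := by
    rw [← Finset.prod_mul_distrib]
    apply Finset.prod_eq_one
    intro l hl
    have hl' := Nat.prime_of_mem_primeFactors hl
    have h2 : (2 : ℝ) ≤ l := by exact_mod_cast hl'.two_le
    have h3 : (l : ℝ) - 1 ≠ 0 := by linarith
    have h4 : (l : ℝ) ≠ 0 := by linarith
    field_simp
  have hφ : (0 : ℝ) < (Nat.totient R : ℝ) := by exact_mod_cast Nat.totient_pos.2 hR
  rw [eq_div_iff hφ.ne', h1]
  calc (∏ l ∈ R.primeFactors, ((l : ℝ) / ((l : ℝ) - 1))) *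
      (R * ∏ p ∈ R.primeFactors, (1 - (p : ℝ)⁻¹))
      = R * ((∏ l ∈ R.primeFactors, ((l : ℝ) / ((l : ℝ) - 1))) *
        ∏ p ∈ R.primeFactors, (1 - (p : ℝ)⁻¹)) := by ring
    _ = R := by rw [h2', mul_one]

theorem M3a_uu (R : ℕ) (hR : 0 < R) (m : ℤ) :
    0 ≤ uu R.primeFactors m ∧ uu R.primeFactors m ≤ (R : ℝ) / (Nat.totient R : ℝ) := by
  constructor
  · exact Finset.prod_nonneg fun l hl => (M3a_gl l (Nat.prime_of_mem_primeFactors hl) m).1
  · rw [← M3a_prod R hR]
    exact Finset.prod_le_prod (fun l hl => (M3a_gl l (Nat.prime_of_mem_primeFactors hl) m).1)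
      (fun l hl => (M3a_gl l (Nat.prime_of_mem_primeFactors hl) m).2)

theorem M3a_uu_nonneg (P : Finset ℕ) (hP : ∀ l ∈ P, l.Prime) (m : ℤ) : 0 ≤ uu P m :=
  Finset.prod_nonneg fun l hl => (M3a_gl l (hP l hl) m).1

theorem M3a_Ph {k : ℕ} (p : Fin k → Ch) (P : Finset ℕ) (hP : ∀ l ∈ P, l.Prime) (h : Fin k → ℕ) (n : ℤ) :
    ‖Ph p P h n‖ ≤ ∏ i, uu P (n + h i) := by
  unfold Ph
  rw [norm_prod]
  apply Finset.prod_le_prod (fun i _ => norm_nonneg _)
  intro i _
  have h0 := M3a_uu_nonneg P hP (n + h i)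
  rw [norm_mul, Complex.norm_real, Real.norm_of_nonneg h0]
  have h1 : ‖cj (p i) (n + h i)‖ ≤ 1 := by
    unfold cj
    rw [RCLike.norm_conj]
    exact DirichletCharacter.norm_le_one _ _
  calc ‖cj (p i) (n + h i)‖ * uu P (n + h i) ≤ 1 * uu P (n + h i) :=
        mul_le_mul_of_nonneg_right h1 h0
    _ = uu P (n + h i) := one_mul _

theorem M3a_tp {k : ℕ} (l : ℕ) (hl : l.Prime) (h : Fin k → ℕ) (n : ℤ) :
    |Wl l h n| ≤ ((l : ℝ) / ((l : ℝ) - 1)) ^ k ∧ |tp l h| ≤ ((l : ℝ) / ((l : ℝ) - 1)) ^ k ∧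
      0 ≤ 1 + tp l h ∧ 1 + tp l h ≤ ((l : ℝ) / ((l : ℝ) - 1)) ^ k := by
  have hc : (1 : ℝ) ≤ ((l : ℝ) / ((l : ℝ) - 1)) ^ k := one_le_pow₀ (M3a_ratio l hl)
  have hp : ∀ m : ℤ, 0 ≤ ∏ i, (1 + gl l (m + h i)) ∧
      ∏ i, (1 + gl l (m + h i)) ≤ ((l : ℝ) / ((l : ℝ) - 1)) ^ k := by
    intro m
    constructor
    · exact Finset.prod_nonneg fun i _ => (M3a_gl l hl _).1
    · calc ∏ i, (1 + gl l (m + h i)) ≤ ∏ _i : Fin k, ((l : ℝ) / ((l : ℝ) - 1)) :=
          Finset.prod_le_prod (fun i _ => (M3a_gl l hl _).1) (fun i _ => (M3a_gl l hl _).2)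
        _ = ((l : ℝ) / ((l : ℝ) - 1)) ^ k := by
          rw [Finset.prod_const, Finset.card_univ, Fintype.card_fin]
  have hl0 : (0 : ℝ) < l := by exact_mod_cast hl.pos
  have htp : 0 ≤ 1 + tp l h ∧ 1 + tp l h ≤ ((l : ℝ) / ((l : ℝ) - 1)) ^ k := by
    unfold tp
    rw [add_sub_cancel]
    constructor
    · exact div_nonneg (Finset.sum_nonneg fun n _ => (hp n).1) hl0.le
    · rw [div_le_iff₀ hl0]
      calc ∑ n ∈ range l, ∏ i, (1 + gl l ((n : ℤ) + h i))
          ≤ ∑ _n ∈ range l, ((l : ℝ) / ((l : ℝ) - 1)) ^ k :=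
            Finset.sum_le_sum fun n _ => (hp n).2
        _ = ((l : ℝ) / ((l : ℝ) - 1)) ^ k * l := by
          rw [Finset.sum_const, Finset.card_range, nsmul_eq_mul, mul_comm]
  refine ⟨?_, ?_, htp.1, htp.2⟩
  · unfold Wl
    rw [abs_le]
    have := hp n
    constructor <;> linarith [this.1, this.2]
  · rw [abs_le]
    constructor <;> linarith [htp.1, htp.2]


end Pool.Agent.Lib.H59P
end

-- from Lib.H59P.M3B
section

/-!
# Project H59P, chunk M3b: elementary bound for n/φ(n)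
-/

open Finset

namespace Pool.Agent.Lib.H59P

open Pool.Agent.Lib.H68T Pool.Agent.Lib.H18Q

theorem m3b_prod (S : Finset ℕ) : (∀ l ∈ S, 2 ≤ l) →
    ∏ l ∈ S, ((l : ℝ) / ((l : ℝ) - 1)) ≤ (S.card : ℝ) + 1 := by
  induction S using Finset.induction_on_max with
  | empty => intro _; simp
  | insert a s ha ih =>
    intro h2
    have hns : a ∉ s := fun h => lt_irrefl _ (ha a h)
    have hsub : s ⊆ Finset.Ico 2 a := by
      intro x hx
      rw [Finset.mem_Ico]
      exact ⟨h2 x (Finset.mem_insert_of_mem hx), ha x hx⟩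
    have hcard : s.card ≤ a - 2 := by
      have := Finset.card_le_card hsub
      rwa [Nat.card_Ico] at this
    have ha2 : 2 ≤ a := h2 a (Finset.mem_insert_self _ _)
    have hca : s.card + 2 ≤ a := by omega
    have hca' : (s.card : ℝ) + 2 ≤ a := by exact_mod_cast hca
    have hs0 : (0 : ℝ) ≤ s.card := Nat.cast_nonneg _
    rw [Finset.prod_insert hns, Finset.card_insert_of_notMem hns]
    have ih' := ih (fun l hl => h2 l (Finset.mem_insert_of_mem hl))
    have h3 : (a : ℝ) / ((a : ℝ) - 1) ≤ ((s.card : ℝ) + 2) / ((s.card : ℝ) + 1) := by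
      rw [div_le_div_iff₀ (by linarith) (by linarith)]
      nlinarith
    have h4 : (0 : ℝ) ≤ ∏ l ∈ s, ((l : ℝ) / ((l : ℝ) - 1)) := by
      apply Finset.prod_nonneg
      intro l hl
      have : (2 : ℝ) ≤ l := by exact_mod_cast h2 l (Finset.mem_insert_of_mem hl)
      exact div_nonneg (by linarith) (by linarith)
    calc (a : ℝ) / ((a : ℝ) - 1) * ∏ l ∈ s, ((l : ℝ) / ((l : ℝ) - 1))
        ≤ ((s.card : ℝ) + 2) / ((s.card : ℝ) + 1) * ((s.card : ℝ) + 1) :=
          mul_le_mul h3 ih' h4 (by positivity)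
      _ = ((s.card : ℝ) + 2) := by field_simp
      _ = ((s.card + 1 : ℕ) : ℝ) + 1 := by push_cast; ring

/-- `n/φ(n) ≤ 2 (1 + log n)`.

Proof. `n/φ(n) = ∏_{l ∣ n} l/(l-1) ≤ ∏_{j=2}^{ω+1} j/(j-1) = ω + 1`, `ω = ω(n)` the number of prime factors
(the `j`-th smallest element of a set of integers `≥ 2` is `≥ j + 1`; induction on the cardinality of the
set, removing the maximum, which is at least the cardinality plus one), and `2^ω ≤ n`, so
`ω ≤ log n/log 2 ≤ 2 log n`. -/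
theorem M3b (n : ℕ) (hn : 1 ≤ n) : (n : ℝ) / (Nat.totient n : ℝ) ≤ 2 * (1 + Real.log n) := by
  rw [← M3a_prod n hn]
  have h1 := m3b_prod n.primeFactors (fun l hl => (Nat.prime_of_mem_primeFactors hl).two_le)
  have h2 : 2 ^ n.primeFactors.card ≤ n := by
    calc 2 ^ n.primeFactors.card = ∏ _l ∈ n.primeFactors, 2 := by rw [Finset.prod_const]
      _ ≤ ∏ l ∈ n.primeFactors, l :=
        Finset.prod_le_prod' (fun l hl => (Nat.prime_of_mem_primeFactors hl).two_le)
      _ ≤ n := Nat.le_of_dvd hn (Nat.prod_primeFactors_dvd n)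
  have h3 : (n.primeFactors.card : ℝ) * Real.log 2 ≤ Real.log n := by
    rw [← Real.log_pow]
    apply Real.log_le_log (by positivity)
    exact_mod_cast h2
  have h4 : (0.5 : ℝ) < Real.log 2 := by
    have := Real.log_two_gt_d9
    linarith
  have h5 : (0 : ℝ) ≤ n.primeFactors.card := Nat.cast_nonneg _
  nlinarith

end Pool.Agent.Lib.H59P
end

-- from Lib.H59P.M3C
section

/-!
# Project H59P, chunk M3c
-/

open Finset

namespace Pool.Agent.Lib.H59P

open Pool.Agent.Lib.H68T Pool.Agent.Lib.H18Q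

theorem m3c_per (f : ℤ → ℂ) (P : ℕ) (hf : ∀ m, f (m + P) = f m) (j : ℕ) (m : ℤ) :
    f (m + j * P) = f m := by
  induction j with
  | zero => simp
  | succ j ih =>
    have : m + ((j + 1 : ℕ) : ℤ) * P = (m + j * P) + P := by push_cast; ring
    rw [this, hf, ih]

/-- the sum over a period does not depend on the starting point -/
theorem m3c_start (f : ℤ → ℂ) (P : ℕ) (hf : ∀ m, f (m + P) = f m) (a : ℕ) :
    ∑ n ∈ range P, f ((a : ℤ) + n) = ∑ n ∈ range P, f n := by
  induction a with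
  | zero => simp
  | succ a ih =>
    rw [← ih]
    have h1 : ∑ n ∈ range (P + 1), f ((a : ℤ) + n) =
        ∑ n ∈ range P, f ((a : ℤ) + n) + f ((a : ℤ) + P) := by
      rw [Finset.sum_range_succ]
    have h2 : ∑ n ∈ range (P + 1), f ((a : ℤ) + n) =
        ∑ n ∈ range P, f (((a + 1 : ℕ) : ℤ) + n) + f (a : ℤ) := by
      rw [Finset.sum_range_succ']
      congr 1
      · apply Finset.sum_congr rfl
        intro n _
        congr 1
        push_cast
        ring
    have h3 := hf a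
    rw [h3] at h1
    rw [h1] at h2
    exact (add_right_cancel h2).symm

/-- A periodic function over an interval.

Proof. `H = j P + s`, `s < P`; `j` full periods (each with the same sum, `CB_shift`) and a rest with `s < P`
terms: the difference is at most `s Φ + (s/P) ‖∑‖ ≤ 2 P Φ`. -/
theorem M3c (f : ℤ → ℂ) (P : ℕ) (hP : 0 < P) (hf : ∀ m, f (m + P) = f m) (Φ : ℝ) (hΦ : ∀ m, ‖f m‖ ≤ Φ)
    (a H : ℕ) :
    ‖∑ n ∈ Ico a (a + H), f n - H * ((∑ n ∈ range P, f n) / P)‖ ≤ 2 * P * Φ := by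
  have hP0 : (0 : ℝ) < P := by exact_mod_cast hP
  have hΦ0 : 0 ≤ Φ := le_trans (norm_nonneg _) (hΦ 0)
  have hsum : ‖∑ n ∈ range P, f n‖ ≤ P * Φ := by
    calc ‖∑ n ∈ range P, f n‖ ≤ ∑ n ∈ range P, ‖f n‖ := norm_sum_le _ _
      _ ≤ ∑ _n ∈ range P, Φ := Finset.sum_le_sum fun n _ => hΦ n
      _ = P * Φ := by rw [Finset.sum_const, Finset.card_range, nsmul_eq_mul]
  have hIco : ∀ H : ℕ, ∑ n ∈ Ico a (a + H), f n = ∑ n ∈ range H, f ((a : ℤ) + n) := by
    intro H
    rw [Finset.sum_Ico_eq_sum_range]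
    have : a + H - a = H := by omega
    rw [this]
    apply Finset.sum_congr rfl
    intro n _
    push_cast
    rfl
  have hfull : ∀ j s : ℕ, ∑ n ∈ range (j * P + s), f ((a : ℤ) + n) =
      j * ∑ n ∈ range P, f n + ∑ n ∈ range s, f ((a : ℤ) + n) := by
    intro j
    induction j with
    | zero => intro s; simp
    | succ j ih =>
      intro s
      have e1 : (j + 1) * P + s = (j * P + s) + P := by ring
      rw [e1, Finset.sum_range_add, ih s]
      have e2 : ∑ x ∈ range P, f ((a : ℤ) + ((j * P + s + x : ℕ) : ℤ)) = ∑ n ∈ range P, f n := by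
        have := m3c_start f P hf (a + s)
        rw [← this]
        apply Finset.sum_congr rfl
        intro n _
        have e3 : (a : ℤ) + ((j * P + s + n : ℕ) : ℤ) = (((a + s : ℕ) : ℤ) + n) + j * P := by
          push_cast; ring
        rw [e3, m3c_per f P hf]
      rw [e2]
      push_cast
      ring
  have hH : H = (H / P) * P + H % P := by
    have := Nat.div_add_mod H P
    rw [mul_comm] at this
    exact this.symm
  set j := H / P with hj
  set s := H % P with hs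
  have hsP : s < P := Nat.mod_lt _ hP
  rw [hIco]
  have e1 : ∑ n ∈ range H, f ((a : ℤ) + n) =
      j * ∑ n ∈ range P, f n + ∑ n ∈ range s, f ((a : ℤ) + n) := by
    have := hfull j s
    rw [← hH] at this
    exact this
  rw [e1]
  have hPc : (P : ℂ) ≠ 0 := by exact_mod_cast hP.ne'
  have e2 : (j : ℂ) * ∑ n ∈ range P, f n + ∑ n ∈ range s, f ((a : ℤ) + n) -
      H * ((∑ n ∈ range P, f n) / P) =
      ∑ n ∈ range s, f ((a : ℤ) + n) - (s : ℂ) / P * ∑ n ∈ range P, f n := by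
    have : (H : ℂ) = j * P + s := by exact_mod_cast hH
    rw [this]
    field_simp
    ring
  rw [e2]
  have hrest : ‖∑ n ∈ range s, f ((a : ℤ) + n)‖ ≤ P * Φ := by
    calc ‖∑ n ∈ range s, f ((a : ℤ) + n)‖ ≤ ∑ n ∈ range s, ‖f ((a : ℤ) + n)‖ := norm_sum_le _ _
      _ ≤ ∑ _n ∈ range s, Φ := Finset.sum_le_sum fun n _ => hΦ _
      _ = s * Φ := by rw [Finset.sum_const, Finset.card_range, nsmul_eq_mul]
      _ ≤ P * Φ := by
        apply mul_le_mul_of_nonneg_right _ hΦ0
        exact_mod_cast hsP.le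
  have hfr : ‖(s : ℂ) / P‖ ≤ 1 := by
    rw [norm_div, Complex.norm_natCast, Complex.norm_natCast, div_le_one hP0]
    exact_mod_cast hsP.le
  calc ‖∑ n ∈ range s, f ((a : ℤ) + n) - (s : ℂ) / P * ∑ n ∈ range P, f n‖
      ≤ ‖∑ n ∈ range s, f ((a : ℤ) + n)‖ + ‖(s : ℂ) / P * ∑ n ∈ range P, f n‖ := norm_sub_le _ _
    _ ≤ P * Φ + 1 * (P * Φ) := by
      apply add_le_add hrest
      rw [norm_mul]
      exact mul_le_mul hfr hsum (norm_nonneg _) zero_le_one
    _ = 2 * P * Φ := by ring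

end Pool.Agent.Lib.H59P
end

-- from Lib.H59P.M3D
section

/-!
# Project H59P, chunk M3d
-/

open Finset

namespace Pool.Agent.Lib.H59P

open Pool.Agent.Lib.H68T Pool.Agent.Lib.H18Q

theorem m3d_mod (f : ℤ → ℂ) (P : ℕ) (hf : ∀ m, f (m + P) = f m) (n : ℕ) :
    f ((n % P : ℕ) : ℤ) = f n := by
  have h := m3c_per f P hf (n / P) ((n % P : ℕ) : ℤ)
  rw [← h]
  congr 1
  have := Nat.mod_add_div n P
  rw [mul_comm] at this
  exact_mod_cast this

/-- Chinese remainder theorem for two periodic functions.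

Proof. `c ↦ (c mod a, c mod b)` is a bijection from `range (a b)` to `range a × range b`
(`Nat.chineseRemainder`, compare `cc1_two` in `H18Q/CC1.lean`, same proof for complex values). -/
theorem M3d (f g : ℤ → ℂ) (a b : ℕ) (ha : 0 < a) (hb : 0 < b) (hab : Nat.Coprime a b)
    (hf : ∀ m, f (m + a) = f m) (hg : ∀ m, g (m + b) = g m) :
    ∑ n ∈ range (a * b), f n * g n = (∑ n ∈ range a, f n) * ∑ n ∈ range b, g n := by
  rw [Finset.sum_mul_sum, ← Finset.sum_product']
  apply Finset.sum_bij (fun (n : ℕ) _ => (n % a, n % b))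
  · intro n _
    rw [Finset.mem_product, Finset.mem_range, Finset.mem_range]
    exact ⟨Nat.mod_lt _ ha, Nat.mod_lt _ hb⟩
  · intro n hn m hm h
    rw [Finset.mem_range] at hn hm
    have h1 : n % a = m % a := congrArg Prod.fst h
    have h2 : n % b = m % b := congrArg Prod.snd h
    have h3 : n ≡ m [MOD (a * b)] :=
      (Nat.modEq_and_modEq_iff_modEq_mul hab).1 ⟨h1, h2⟩
    exact Nat.ModEq.eq_of_lt_of_lt h3 hn hm
  · rintro ⟨x, y⟩ hxy
    rw [Finset.mem_product, Finset.mem_range, Finset.mem_range] at hxy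
    refine ⟨(Nat.chineseRemainder hab x y : ℕ), ?_, ?_⟩
    · rw [Finset.mem_range]
      exact Nat.chineseRemainder_lt_mul hab x y ha.ne' hb.ne'
    · have h1 := (Nat.chineseRemainder hab x y).2.1
      have h2 := (Nat.chineseRemainder hab x y).2.2
      have h3 : (Nat.chineseRemainder hab x y : ℕ) % a = x := by
        have := h1
        unfold Nat.ModEq at this
        rw [this, Nat.mod_eq_of_lt hxy.1]
      have h4 : (Nat.chineseRemainder hab x y : ℕ) % b = y := by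
        have := h2
        unfold Nat.ModEq at this
        rw [this, Nat.mod_eq_of_lt hxy.2]
      exact Prod.ext h3 h4
  · intro n _
    show f n * g n = f ((n % a : ℕ) : ℤ) * g ((n % b : ℕ) : ℤ)
    rw [m3d_mod f a hf, m3d_mod g b hg]

end Pool.Agent.Lib.H59P
end

-- from Lib.H59T.C1
section

/-!
# Project H59T, chunk C1 (S/M): Chinese remainder theorem in four variables
-/

open Finset

namespace Pool.Agent.Lib.H59T

/-- Proof. `M3d` (`H59P/M3D.lean`, one variable) from the inside outwards: for fixed `y, y', z` the sum over `z'` is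
`(∑_{z' < a} F) (∑_{z' < b} G)`, again a product of two functions, periodic in the other variables modulo `a` and `b`; etc. -/
theorem C1_two (a b : ℕ) (ha : 0 < a) (hb : 0 < b) (hab : Nat.Coprime a b)
    (F G : ℤ → ℤ → ℤ → ℤ → ℂ) (hF : Per4 a F) (hG : Per4 b G) :
    S4 (a * b) (fun y y' z z' => F y y' z z' * G y y' z z') = S4 a F * S4 b G := by
  have h4 : ∀ y y' z : ℤ, ∑ z' ∈ range (a * b), F y y' z z' * G y y' z z' =
      (∑ z' ∈ range a, F y y' z z') * ∑ z' ∈ range b, G y y' z z' := fun y y' z =>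
    H59P.M3d (F y y' z) (G y y' z) a b ha hb hab (hF.h4 y y' z) (hG.h4 y y' z)
  have h3 : ∀ y y' : ℤ, ∑ z ∈ range (a * b), ∑ z' ∈ range (a * b), F y y' z z' * G y y' z z' =
      (∑ z ∈ range a, ∑ z' ∈ range a, F y y' z z') * ∑ z ∈ range b, ∑ z' ∈ range b, G y y' z z' := by
    intro y y'
    rw [← H59P.M3d (fun z => ∑ z' ∈ range a, F y y' z z') (fun z => ∑ z' ∈ range b, G y y' z z') a b ha hb hab
      (fun m => Finset.sum_congr rfl fun z' _ => hF.h3 y y' m z')
      (fun m => Finset.sum_congr rfl fun z' _ => hG.h3 y y' m z')]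
    exact Finset.sum_congr rfl fun z _ => h4 y y' z
  have h2 : ∀ y : ℤ, ∑ y' ∈ range (a * b), ∑ z ∈ range (a * b), ∑ z' ∈ range (a * b),
      F y y' z z' * G y y' z z' =
      (∑ y' ∈ range a, ∑ z ∈ range a, ∑ z' ∈ range a, F y y' z z') *
        ∑ y' ∈ range b, ∑ z ∈ range b, ∑ z' ∈ range b, G y y' z z' := by
    intro y
    rw [← H59P.M3d (fun y' => ∑ z ∈ range a, ∑ z' ∈ range a, F y y' z z')
      (fun y' => ∑ z ∈ range b, ∑ z' ∈ range b, G y y' z z') a b ha hb hab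
      (fun m => Finset.sum_congr rfl fun z _ => Finset.sum_congr rfl fun z' _ => hF.h2 y m z z')
      (fun m => Finset.sum_congr rfl fun z _ => Finset.sum_congr rfl fun z' _ => hG.h2 y m z z')]
    exact Finset.sum_congr rfl fun y' _ => h3 y y'
  unfold S4
  rw [← H59P.M3d (fun y => ∑ y' ∈ range a, ∑ z ∈ range a, ∑ z' ∈ range a, F y y' z z')
    (fun y => ∑ y' ∈ range b, ∑ z ∈ range b, ∑ z' ∈ range b, G y y' z z') a b ha hb hab
    (fun m => Finset.sum_congr rfl fun y' _ => Finset.sum_congr rfl fun z _ =>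
      Finset.sum_congr rfl fun z' _ => hF.h1 m y' z z')
    (fun m => Finset.sum_congr rfl fun y' _ => Finset.sum_congr rfl fun z _ =>
      Finset.sum_congr rfl fun z' _ => hG.h1 m y' z z')]
  exact Finset.sum_congr rfl fun y _ => h2 y

/-- periodic modulo a multiple -/
theorem c1_mul (N k : ℕ) (F : ℤ → ℤ → ℤ → ℤ → ℂ) (hF : Per4 N F) : Per4 (N * k) F where
  h1 y y' z z' := by
    have h := H59P.m3c_per (fun t => F t y' z z') N (fun m => hF.h1 m y' z z') k y
    rw [← h]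
    congr 1
    push_cast
    ring
  h2 y y' z z' := by
    have h := H59P.m3c_per (fun t => F y t z z') N (fun m => hF.h2 y m z z') k y'
    rw [← h]
    congr 1
    push_cast
    ring
  h3 y y' z z' := by
    have h := H59P.m3c_per (fun t => F y y' t z') N (fun m => hF.h3 y y' m z') k z
    rw [← h]
    congr 1
    push_cast
    ring
  h4 y y' z z' := by
    have h := H59P.m3c_per (fun t => F y y' z t) N (fun m => hF.h4 y y' z m) k z'
    rw [← h]
    congr 1
    push_cast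
    ring

/-- product of periodic functions -/
theorem c1_mulf (N : ℕ) (F G : ℤ → ℤ → ℤ → ℤ → ℂ) (hF : Per4 N F) (hG : Per4 N G) :
    Per4 N (fun y y' z z' => F y y' z z' * G y y' z z') where
  h1 y y' z z' := by
    rw [hF.h1, hG.h1]
  h2 y y' z z' := by
    rw [hF.h2, hG.h2]
  h3 y y' z z' := by
    rw [hF.h3, hG.h3]
  h4 y y' z z' := by
    rw [hF.h4, hG.h4]

/-- Proof. Induction over `P` (`Finset.induction_on`) with `C1_two`; the product of the others is periodic modulo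
the product of the `q l` (a period of each factor divides it), and coprime to `q l` (`Nat.Coprime.prod_right`). -/
theorem C1_prod (P : Finset ℕ) (q : ℕ → ℕ) (hq : ∀ l ∈ P, 0 < q l)
    (hc : ∀ l ∈ P, ∀ l' ∈ P, l ≠ l' → Nat.Coprime (q l) (q l')) (F : ℕ → ℤ → ℤ → ℤ → ℤ → ℂ)
    (hF : ∀ l ∈ P, Per4 (q l) (F l)) :
    Per4 (∏ l ∈ P, q l) (fun y y' z z' => ∏ l ∈ P, F l y y' z z') ∧
    S4 (∏ l ∈ P, q l) (fun y y' z z' => ∏ l ∈ P, F l y y' z z') = ∏ l ∈ P, S4 (q l) (F l) := by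
  classical
  induction P using Finset.induction_on with
  | empty =>
    refine ⟨⟨?_, ?_, ?_, ?_⟩, ?_⟩
    · intro y y' z z'
      simp
    · intro y y' z z'
      simp
    · intro y y' z z'
      simp
    · intro y y' z z'
      simp
    · simp [S4]
  | insert l P hl ih =>
    obtain ⟨i1, i2⟩ := ih (fun m hm => hq m (mem_insert_of_mem hm))
      (fun m hm m' hm' => hc m (mem_insert_of_mem hm) m' (mem_insert_of_mem hm'))
      (fun m hm => hF m (mem_insert_of_mem hm))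
    have hl1 : Per4 (q l) (F l) := hF l (mem_insert_self _ _)
    have e1 : (fun y y' z z' => ∏ m ∈ insert l P, F m y y' z z') =
        fun y y' z z' => F l y y' z z' * ∏ m ∈ P, F m y y' z z' := by
      funext y y' z z'
      rw [Finset.prod_insert hl]
    rw [e1, Finset.prod_insert hl, Finset.prod_insert hl]
    refine ⟨?_, ?_⟩
    · refine c1_mulf _ _ _ (c1_mul _ _ _ hl1) ?_
      rw [mul_comm]
      exact c1_mul _ _ _ i1
    · rw [← i2]
      refine C1_two (q l) (∏ m ∈ P, q m) (hq l (mem_insert_self _ _))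
        (Finset.prod_pos fun m hm => hq m (mem_insert_of_mem hm)) ?_ (F l) _ hl1 i1
      refine Nat.Coprime.prod_right fun m hm => ?_
      refine hc l (mem_insert_self _ _) m (mem_insert_of_mem hm) ?_
      intro h
      rw [h] at hl
      exact hl hm

end Pool.Agent.Lib.H59T
end

-- from Lib.H59T.C2
section

/-!
# Project H59T, chunk C2 (M): boxes and complete periods
-/

open Finset

namespace Pool.Agent.Lib.H59T

/-- one variable, with an approximant -/
theorem c2_step (N L : ℕ) (hN : 0 < N) (hL : 0 < L) (f g : ℤ → ℂ) (hf : ∀ m, f (m + N) = f m) (M : ℝ)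
    (hM : ∀ m, ‖f m‖ ≤ M) (c e : ℝ) (hc : 0 ≤ c) (hg : ∀ m, ‖g m - (c : ℂ) * f m‖ ≤ e) (a s : ℕ)
    (hs : N * L ≤ s) :
    ‖∑ n ∈ Ico a (a + s), g n - ((c * (s / N) : ℝ) : ℂ) * ∑ n ∈ range N, f n‖ ≤ (e + c * (2 * M / L)) * s := by
  have hM0 : 0 ≤ M := (norm_nonneg _).trans (hM 0)
  have hN0 : (0 : ℝ) < N := by exact_mod_cast hN
  have hL0 : (0 : ℝ) < L := by exact_mod_cast hL
  have hs0 : (N : ℝ) * L ≤ s := by exact_mod_cast hs
  have h1 : ‖∑ n ∈ Ico a (a + s), (g n - (c : ℂ) * f n)‖ ≤ s * e := by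
    calc ‖∑ n ∈ Ico a (a + s), (g n - (c : ℂ) * f n)‖ ≤ ∑ n ∈ Ico a (a + s), ‖g n - (c : ℂ) * f n‖ :=
          norm_sum_le _ _
      _ ≤ ∑ _n ∈ Ico a (a + s), e := Finset.sum_le_sum fun n _ => hg n
      _ = s * e := by
        rw [Finset.sum_const, Nat.card_Ico, nsmul_eq_mul]
        congr 2
        omega
  have h2 := H59P.M3c f N hN hf M hM a s
  have h3 : ∑ n ∈ Ico a (a + s), g n - ((c * (s / N) : ℝ) : ℂ) * ∑ n ∈ range N, f n =
      ∑ n ∈ Ico a (a + s), (g n - (c : ℂ) * f n) +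
        (c : ℂ) * (∑ n ∈ Ico a (a + s), f n - s * ((∑ n ∈ range N, f n) / N)) := by
    rw [Finset.sum_sub_distrib, ← Finset.mul_sum]
    push_cast
    ring
  rw [h3]
  refine (norm_add_le _ _).trans ?_
  rw [norm_mul, Complex.norm_real, Real.norm_of_nonneg hc]
  have h4 : 2 * (N : ℝ) * M ≤ 2 * M / L * s := by
    rw [div_mul_eq_mul_div, le_div_iff₀ hL0]
    nlinarith [mul_le_mul_of_nonneg_left hs0 hM0]
  have h5 := mul_le_mul_of_nonneg_left (h2.trans h4) hc
  calc _ ≤ s * e + c * (2 * M / L * s) := add_le_add h1 h5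
    _ = (e + c * (2 * M / L)) * s := by ring

theorem c2_bd (N : ℕ) (f : ℤ → ℂ) (M : ℝ) (hM : ∀ m, ‖f m‖ ≤ M) : ‖∑ n ∈ range N, f n‖ ≤ N * M := by
  calc ‖∑ n ∈ range N, f n‖ ≤ ∑ n ∈ range N, ‖f n‖ := norm_sum_le _ _
    _ ≤ ∑ _n ∈ range N, M := Finset.sum_le_sum fun n _ => hM n
    _ = N * M := by rw [Finset.sum_const, Finset.card_range, nsmul_eq_mul]

/-- Proof. One variable (`M3c` in `H59P/M3C.lean`): for `f` periodic modulo `N`, bounded by `B`,
`‖∑_{n ∈ Ico a (a+s)} f n - (s/N) ∑_{n < N} f n‖ ≤ 2 N B ≤ (2B/L) s` if `N L ≤ s`. Four times, from the inside outwards: replace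
the sum over `z'` by `H/N` times the complete sum (error `(2B/L) H`, summed over the other variables), then the sum over `z` of
`(H/N) ∑_{z' < N} F` (periodic, bounded by `H B`), etc. Total `(8B/L) s s' H H'`. -/
theorem C2_box (N L : ℕ) (hN : 0 < N) (hL : 0 < L) (F : ℤ → ℤ → ℤ → ℤ → ℂ) (hF : Per4 N F) (B : ℝ)
    (hB : ∀ y y' z z', ‖F y y' z z'‖ ≤ B) (a a' b b' s s' H H' : ℕ) (hs : N * L ≤ s) (hs' : N * L ≤ s')
    (hH : N * L ≤ H) (hH' : N * L ≤ H') :
    ‖∑ y ∈ Ico a (a + s), ∑ y' ∈ Ico a' (a' + s'), ∑ z ∈ Ico b (b + H), ∑ z' ∈ Ico b' (b' + H'),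
        F y y' z z' - (((s : ℝ) * s' * H * H' / (N : ℝ) ^ 4 : ℝ) : ℂ) * S4 N F‖ ≤
      8 * B / L * ((s : ℝ) * s' * H * H') := by
  have hN0 : (0 : ℝ) < N := by exact_mod_cast hN
  have hL0 : (0 : ℝ) < L := by exact_mod_cast hL
  have s1 := fun y y' z : ℤ => c2_step N L hN hL (fun z' => F y y' z z') (fun z' => F y y' z z') (hF.h4 y y' z)
    B (hB y y' z) 1 0 zero_le_one (fun m => by simp) b' H' hH'
  have s2 := fun y y' : ℤ => c2_step N L hN hL (fun z => ∑ z' ∈ range N, F y y' z z')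
    (fun z => ∑ z' ∈ Ico b' (b' + H'), F y y' z z')
    (fun m => Finset.sum_congr rfl fun z' _ => hF.h3 y y' m z') (N * B)
    (fun m => c2_bd N (fun z' => F y y' m z') B (hB y y' m)) _ _ (by positivity)
    (fun m => s1 y y' m) b H hH
  have s3 := fun y : ℤ => c2_step N L hN hL (fun y' => ∑ z ∈ range N, ∑ z' ∈ range N, F y y' z z')
    (fun y' => ∑ z ∈ Ico b (b + H), ∑ z' ∈ Ico b' (b' + H'), F y y' z z')
    (fun m => Finset.sum_congr rfl fun z _ => Finset.sum_congr rfl fun z' _ => hF.h2 y m z z') (N * (N * B))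
    (fun m => c2_bd N (fun z => ∑ z' ∈ range N, F y m z z') (N * B)
      (fun z => c2_bd N (fun z' => F y m z z') B (hB y m z))) _ _ (by positivity)
    (fun m => s2 y m) a' s' hs'
  have s4 := c2_step N L hN hL (fun y => ∑ y' ∈ range N, ∑ z ∈ range N, ∑ z' ∈ range N, F y y' z z')
    (fun y => ∑ y' ∈ Ico a' (a' + s'), ∑ z ∈ Ico b (b + H), ∑ z' ∈ Ico b' (b' + H'), F y y' z z')
    (fun m => Finset.sum_congr rfl fun y' _ => Finset.sum_congr rfl fun z _ =>
      Finset.sum_congr rfl fun z' _ => hF.h1 m y' z z') (N * (N * (N * B)))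
    (fun m => c2_bd N (fun y' => ∑ z ∈ range N, ∑ z' ∈ range N, F m y' z z') (N * (N * B))
      (fun y' => c2_bd N (fun z => ∑ z' ∈ range N, F m y' z z') (N * B)
        (fun z => c2_bd N (fun z' => F m y' z z') B (hB m y' z)))) _ _ (by positivity)
    (fun m => s3 m) a s hs
  have e1 : (1 * (H' / N : ℝ) * (H / N) * (s' / N) * (s / N) : ℝ) = (s : ℝ) * s' * H * H' / (N : ℝ) ^ 4 := by
    field_simp
  rw [e1] at s4
  refine s4.trans (le_of_eq ?_)
  field_simp
  ring

end Pool.Agent.Lib.H59T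
end

-- from Lib.H59T.C3
section

/-!
# Project H59T, chunk C3 (S): complete sums over `ZMod N`
-/

open Finset

namespace Pool.Agent.Lib.H59T

open Pool.Agent.Lib.H68T Pool.Agent.Lib.H18Q Pool.Agent.Lib.H59P

theorem C3_nest (N : ℕ) [NeZero N] (G : ZMod N → ZMod N → ZMod N → ZMod N → ℂ) :
    S4 N (fun y y' z z' => G y y' z z') = ∑ y, ∑ y', ∑ z, ∑ z', G y y' z z' := by
  unfold S4
  simp only [Int.cast_natCast]
  rw [← CA_range N (fun y => ∑ y', ∑ z, ∑ z', G y y' z z')]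
  refine Finset.sum_congr rfl fun y _ => ?_
  rw [← CA_range N (fun y' => ∑ z, ∑ z', G y y' z z')]
  refine Finset.sum_congr rfl fun y' _ => ?_
  rw [← CA_range N (fun z => ∑ z', G y y' z z')]
  refine Finset.sum_congr rfl fun z _ => ?_
  rw [← CA_range N (fun z' => G y y' z z')]

theorem C3_fin (N : ℕ) [NeZero N] (G : ZMod N → ZMod N → ZMod N → ZMod N → ℂ) :
    S4 N (fun y y' z z' => G y y' z z') = ∑ x : Fin 4 → ZMod N, G (x 0) (x 1) (x 2) (x 3) := by
  rw [C3_nest]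
  let e : (Fin 4 → ZMod N) ≃ ZMod N × ZMod N × ZMod N × ZMod N :=
    { toFun := fun x => (x 0, x 1, x 2, x 3)
      invFun := fun t => ![t.1, t.2.1, t.2.2.1, t.2.2.2]
      left_inv := fun x => by funext i; fin_cases i <;> rfl
      right_inv := fun t => rfl }
  have h1 : ∑ x : Fin 4 → ZMod N, G (x 0) (x 1) (x 2) (x 3) =
      ∑ t : ZMod N × ZMod N × ZMod N × ZMod N, G t.1 t.2.1 t.2.2.1 t.2.2.2 :=
    Fintype.sum_equiv e _ _ fun x => rfl
  rw [h1, Fintype.sum_prod_type]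
  refine Finset.sum_congr rfl fun y _ => ?_
  rw [Fintype.sum_prod_type]
  refine Finset.sum_congr rfl fun y' _ => ?_
  rw [Fintype.sum_prod_type]

theorem C3_fun (N : ℕ) [NeZero N] (f : ℤ → ℂ) (hf : ∀ m, f (m + N) = f m) :
    ∃ G : ZMod N → ℂ, ∀ m : ℤ, f m = G (m : ZMod N) := by
  refine ⟨fun t => f (t.val : ℤ), fun m => ?_⟩
  have h1 : ∀ (k : ℕ) (m : ℤ), f (m + (k : ℤ) * N) = f m := by
    intro k
    induction k with
    | zero => intro m; simp
    | succ k ih =>
      intro m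
      have : m + ((k + 1 : ℕ) : ℤ) * N = (m + (k : ℤ) * N) + N := by push_cast; ring
      rw [this, hf, ih]
  have h2 : ∀ (k m : ℤ), f (m + k * N) = f m := by
    intro k m
    obtain ⟨n, rfl | rfl⟩ := k.eq_nat_or_neg
    · exact h1 n m
    · have := h1 n (m + (-(n : ℤ)) * N)
      rw [← this]
      congr 1
      ring
  show f m = f (((m : ZMod N).val : ℕ) : ℤ)
  rw [ZMod.val_intCast]
  have h3 : m = m % (N : ℤ) + (m / (N : ℤ)) * N := by
    have := Int.emod_add_mul_ediv m N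
    linarith
  conv_lhs => rw [h3]
  exact h2 _ _

theorem C3_gl (l : ℕ) (m : ℤ) : gl l m = glz l (m : ZMod l) := by
  unfold gl glz
  simp only [ZMod.intCast_zmod_eq_zero_iff_dvd]

theorem C3_triv (N : ℕ) (F : ℤ → ℤ → ℤ → ℤ → ℂ) (B : ℝ) (hB : ∀ y y' z z', ‖F y y' z z'‖ ≤ B) :
    ‖S4 N F‖ ≤ (N : ℝ) ^ 4 * B := by
  have key : ∀ (g : ℕ → ℂ) (C : ℝ), (∀ j, ‖g j‖ ≤ C) → ‖∑ j ∈ range N, g j‖ ≤ N * C := by
    intro g C hg
    calc ‖∑ j ∈ range N, g j‖ ≤ ∑ j ∈ range N, ‖g j‖ := norm_sum_le _ _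
      _ ≤ ∑ _j ∈ range N, C := Finset.sum_le_sum fun j _ => hg j
      _ = N * C := by rw [Finset.sum_const, card_range, nsmul_eq_mul]
  unfold S4
  calc _ ≤ (N : ℝ) * (N * (N * (N * B))) :=
        key _ _ fun y => key _ _ fun y' => key _ _ fun z => key _ _ fun z' => hB _ _ _ _
    _ = (N : ℝ) ^ 4 * B := by ring

end Pool.Agent.Lib.H59T
end

-- from Lib.H59T.L3
section

/-!
# Project H59T, chunk L3 (M): the components as products of local factors
-/

open Finset

namespace Pool.Agent.Lib.H59T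

open Pool.Agent.Lib.H68T Pool.Agent.Lib.H18Q Pool.Agent.Lib.H59P

/-- Proof. `r/φ(r) = ∏_{l ∣ r} l/(l-1)` (`GAM_ratio` in `H68T/GAM1`), `conj χ(m) = ∏ conj χ_l(m)` (`L2_spec`, `map_prod`),
`μ(κ) c_κ(m)/φ(κ) = GAM_F 1 m κ` (`CA_F_one` in `H18Q/CA`), multiplicative (`GAM_F_mult`, `prod_primeFactors` for squarefree
`κ`), with the value `gl l m` at the primes (`GAM_F_prime` for `r = 1`). For `l ∈ P` dividing neither `p.1` nor `κ` the
local factor is `1` (`Finset.prod_subset`); no prime divides both. -/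
theorem L3_gk (p : Ch) (h0 : 0 < p.1) (hp : p.2.IsPrimitive) (κ : ℕ) (hκ : Squarefree κ)
    (hc : Nat.Coprime κ p.1) (P : Finset ℕ) (hP : ∀ l ∈ P, l.Prime) (h1 : p.1.primeFactors ⊆ P)
    (h2 : κ.primeFactors ⊆ P) (m : ℤ) : gk p κ m = ∏ l ∈ P, lf p κ l m := by
  have f1 : P.filter (fun l => l ∣ p.1) = p.1.primeFactors := by
    ext l
    rw [mem_filter, Nat.mem_primeFactors]
    constructor
    · rintro ⟨h, h'⟩
      exact ⟨hP l h, h', h0.ne'⟩
    · rintro ⟨h, h', h''⟩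
      exact ⟨h1 (Nat.mem_primeFactors.2 ⟨h, h', h''⟩), h'⟩
  have f2 : P.filter (fun l => l ∣ κ) = κ.primeFactors := by
    ext l
    rw [mem_filter, Nat.mem_primeFactors]
    constructor
    · rintro ⟨h, h'⟩
      exact ⟨hP l h, h', hκ.ne_zero⟩
    · rintro ⟨h, h', h''⟩
      exact ⟨h2 (Nat.mem_primeFactors.2 ⟨h, h', h''⟩), h'⟩
  have e1 : ∀ l ∈ P, lf p κ l m =
      (if l ∣ p.1 then (((l : ℝ) / ((l : ℝ) - 1) : ℝ) : ℂ) * cj (lch p l) m else 1) *
        (if l ∣ κ then ((gl l m : ℝ) : ℂ) else 1) := by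
    intro l hl
    unfold lf
    by_cases a : l ∣ p.1
    · have b : ¬ l ∣ κ := fun h => (hP l hl).one_lt.ne' (Nat.dvd_one.1 (hc ▸ Nat.dvd_gcd h a))
      rw [if_pos a, if_pos a, if_neg b, mul_one]
    · rw [if_neg a, if_neg a, one_mul]
  have L := L2_spec p h0 hp
  rw [Finset.prod_congr rfl e1, Finset.prod_mul_distrib, ← Finset.prod_filter, ← Finset.prod_filter,
    f1, f2, Finset.prod_mul_distrib]
  unfold gk
  rw [GAM_ratio p.1 h0.ne', ← CA_F_one, ← (GAM_F_mult 1 m).prod_primeFactors hκ, L.2 m, map_prod,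
    Complex.ofReal_prod, Complex.ofReal_prod]
  have e2 : ∀ l ∈ κ.primeFactors, ((GAM_F 1 m l : ℝ) : ℂ) = ((gl l m : ℝ) : ℂ) := by
    intro l hl
    have hl' := (Nat.mem_primeFactors.1 hl).1
    have h2 : ¬ l ∣ 1 := fun h => hl'.one_lt.ne' (Nat.dvd_one.1 h)
    rw [GAM_F_prime 1 m l hl', if_neg h2]
    rfl
  rw [Finset.prod_congr rfl e2]
  rfl

/-- The doubled product. Proof. `L3_gk`, exchange of products (`Finset.prod_comm`), `map_prod`. -/
theorem L3_Db {k : ℕ} (ψ : Fm k) (p : Fin k → Ch) (hp : Pm p) (κ κ' : Fin k → ℕ) (hκ : Kp p κ)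
    (hκ' : Kp p κ') (P : Finset ℕ) (hP : ∀ l ∈ P, l.Prime) (h1 : ∀ i, (p i).1.primeFactors ⊆ P)
    (h2 : ∀ i, (κ i).primeFactors ⊆ P) (h3 : ∀ i, (κ' i).primeFactors ⊆ P) (y y' z z' : ℤ) :
    Db ψ (fun i => gk (p i) (κ i)) (fun i => gk (p i) (κ' i)) y y' z z' =
      ∏ l ∈ P, Db ψ (fun i => lf (p i) (κ i) l) (fun i => lf (p i) (κ' i) l) y y' z z' := by
  unfold Db
  rw [Finset.prod_comm]
  refine Finset.prod_congr rfl fun i _ => ?_
  change gk (p i) (κ i) (ψ i y y' z) * (starRingEnd ℂ) (gk (p i) (κ' i) (ψ i y y' z')) =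
    ∏ x ∈ P, lf (p i) (κ i) x (ψ i y y' z) * (starRingEnd ℂ) (lf (p i) (κ' i) x (ψ i y y' z'))
  rw [L3_gk (p i) (hp i).1 (hp i).2 (κ i) (hκ i).1 (hκ i).2 P hP (h1 i) (h2 i),
    L3_gk (p i) (hp i).1 (hp i).2 (κ' i) (hκ' i).1 (hκ' i).2 P hP (h1 i) (h3 i), map_prod,
    ← Finset.prod_mul_distrib]

end Pool.Agent.Lib.H59T
end

-- from Lib.H59T.L4
section

/-!
# Project H59T, chunk L4 (S/M): size and periods of the local factors
-/

open Finset

namespace Pool.Agent.Lib.H59T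

open Pool.Agent.Lib.H68T Pool.Agent.Lib.H18Q Pool.Agent.Lib.H59P

theorem L4_norm (p : Ch) (κ l : ℕ) (hl : l.Prime) (m : ℤ) : ‖lf p κ l m‖ ≤ 2 := by
  have h2 : (2 : ℝ) ≤ l := by exact_mod_cast hl.two_le
  have h1 : (0 : ℝ) < (l : ℝ) - 1 := by linarith
  unfold lf
  split_ifs with ha hb
  · rw [norm_mul, Complex.norm_real, Real.norm_eq_abs, abs_of_nonneg (by positivity)]
    have h3 : ‖cj (lch p l) m‖ ≤ 1 := by
      unfold cj
      rw [RCLike.norm_conj]
      exact DirichletCharacter.norm_le_one _ _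
    have h4 : (l : ℝ) / ((l : ℝ) - 1) ≤ 2 := by
      rw [div_le_iff₀ h1]
      linarith
    calc (l : ℝ) / ((l : ℝ) - 1) * ‖cj (lch p l) m‖ ≤ 2 * 1 := by
          apply mul_le_mul h4 h3 (norm_nonneg _) (by norm_num)
      _ = 2 := by norm_num
  · rw [Complex.norm_real, Real.norm_eq_abs]
    unfold gl
    split_ifs
    · norm_num
    · rw [abs_of_nonneg (by positivity), div_le_iff₀ h1]
      linarith
  · norm_num

theorem L4_per (p : Ch) (h0 : 0 < p.1) (hp : p.2.IsPrimitive) (κ l b : ℕ) (hl : l.Prime) (hb : 1 ≤ b)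
    (hb' : p.1.factorization l ≤ b) (m t : ℤ) : lf p κ l (m + (l : ℤ) ^ b * t) = lf p κ l m := by
  unfold lf
  split_ifs with ha hc
  · have hs := (L2_spec p h0 hp).1 l (Nat.mem_primeFactors.2 ⟨hl, ha, h0.ne'⟩)
    have h1 : ((m + (l : ℤ) ^ b * t : ℤ) : ZMod (lch p l).1) = (m : ZMod (lch p l).1) := by
      have h2 : ((l ^ b : ℕ) : ZMod (lch p l).1) = 0 := by
        rw [ZMod.natCast_eq_zero_iff, hs.1]
        exact pow_dvd_pow _ hb'
      push_cast at h2 ⊢
      rw [h2]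
      ring
    unfold cj
    rw [h1]
  · have h1 : ((l : ℤ) ∣ m + (l : ℤ) ^ b * t) ↔ (l : ℤ) ∣ m := by
      apply Int.dvd_add_left
      exact Dvd.dvd.mul_right (dvd_pow_self _ (by omega)) _
    unfold gl
    simp only [h1]
  · rfl

theorem L4_char (p : Ch) (h0 : 0 < p.1) (hp : p.2.IsPrimitive) (l : ℕ) (hl : l.Prime) (hd : l ∣ p.1) :
    ∃ χ : DirichletCharacter ℂ (l ^ p.1.factorization l), χ.IsPrimitive ∧ ∀ (κ : ℕ) (m : ℤ),
      lf p κ l m = (((l : ℝ) / ((l : ℝ) - 1) : ℝ) : ℂ) *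
        (starRingEnd ℂ) (χ (m : ZMod (l ^ p.1.factorization l))) := by
  have hs := (L2_spec p h0 hp).1 l (Nat.mem_primeFactors.2 ⟨hl, hd, h0.ne'⟩)
  have hlf : ∀ (κ : ℕ) (m : ℤ), lf p κ l m = (((l : ℝ) / ((l : ℝ) - 1) : ℝ) : ℂ) * cj (lch p l) m := by
    intro κ m
    unfold lf
    rw [if_pos hd]
  generalize lch p l = q at hs hlf
  generalize l ^ p.1.factorization l = N at hs
  obtain ⟨r, χ⟩ := q
  obtain ⟨h1, h2⟩ := hs
  dsimp only at h1 h2
  subst h1
  exact ⟨χ, h2, fun κ m => hlf κ m⟩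

theorem L4_Per4 {k : ℕ} (ψ : Fm k) (hψ : CpF ψ) (p : Fin k → Ch) (hp : Pm p) (κ κ' : Fin k → ℕ) (l b : ℕ)
    (hl : l.Prime) (hb : 1 ≤ b) (hb' : ∀ i, (p i).1.factorization l ≤ b) :
    Per4 (l ^ b) (Db ψ (fun i => lf (p i) (κ i) l) (fun i => lf (p i) (κ' i) l)) := by
  have key : ∀ (i : Fin k) (K : ℕ) (u v : ℤ), (((l ^ b : ℕ) : ℤ) ∣ u - v) → lf (p i) K l u = lf (p i) K l v := by
    intro i K u v h
    obtain ⟨t, ht⟩ := h
    have h1 : u = v + (l : ℤ) ^ b * t := by
      push_cast at ht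
      linarith
    rw [h1]
    exact L4_per (p i) (hp i).1 (hp i).2 K l b hl hb (hb' i) v t
  constructor
  · intro y y' z z'
    unfold Db
    refine Finset.prod_congr rfl fun i _ => ?_
    beta_reduce
    rw [key i _ _ _ (hψ i _ y y' z).1, key i _ _ _ (hψ i _ y y' z').1]
  · intro y y' z z'
    unfold Db
    refine Finset.prod_congr rfl fun i _ => ?_
    beta_reduce
    rw [key i _ _ _ (hψ i _ y y' z).2.1, key i _ _ _ (hψ i _ y y' z').2.1]
  · intro y y' z z'
    unfold Db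
    refine Finset.prod_congr rfl fun i _ => ?_
    beta_reduce
    rw [key i _ _ _ (hψ i _ y y' z).2.2]
  · intro y y' z z'
    unfold Db
    refine Finset.prod_congr rfl fun i _ => ?_
    beta_reduce
    rw [key i _ _ _ (hψ i _ y y' z').2.2]

end Pool.Agent.Lib.H59T
end

-- from Lib.H59T.E3
section

/-!
# Project H59T, chunk E3 (M): two independent linear forms modulo a prime
-/

open Finset

namespace Pool.Agent.Lib.H59T

theorem e3_prod (i j : Fin 4) (hij : i ≠ j) (A B L : ℂ) :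
    ∏ k : Fin 4, (if k = i then A else if k = j then B else L) = L ^ 2 * (A * B) := by
  revert hij
  fin_cases i <;> fin_cases j <;> intro hij <;> first | exact absurd rfl hij | (rw [Fin.prod_univ_four]; simp; try ring)

theorem e3_ij (l : ℕ) [Fact l.Prime] (i j : Fin 4) (hij : i ≠ j) (f g : ZMod l → ℂ) :
    ∑ x : Fin 4 → ZMod l, f (x i) * g (x j) = (l : ℂ) ^ 2 * ((∑ t, f t) * ∑ t, g t) := by
  have h1 : ∀ x : Fin 4 → ZMod l, f (x i) * g (x j) = ∏ k : Fin 4, (if k = i then f (x k) else if k = j then g (x k) else 1) := by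
    intro x
    have h2 : ∏ k : Fin 4, (if k = i then f (x k) else if k = j then g (x k) else 1) =
        ∏ k : Fin 4, (if k = i then f (x i) else if k = j then g (x j) else 1) := by
      refine Finset.prod_congr rfl fun k _ => ?_
      split_ifs with h3 h4
      · rw [h3]
      · rw [h4]
      · rfl
    rw [h2, e3_prod i j hij, one_pow, one_mul]
  rw [Finset.sum_congr rfl fun x _ => h1 x]
  have h3 := Finset.prod_univ_sum (fun _ : Fin 4 => (univ : Finset (ZMod l)))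
    (fun k t => if k = i then f t else if k = j then g t else (1 : ℂ))
  rw [Fintype.piFinset_univ] at h3
  rw [← h3]
  have h4 : ∀ k : Fin 4, ∑ t : ZMod l, (if k = i then f t else if k = j then g t else (1 : ℂ)) =
      if k = i then ∑ t, f t else if k = j then ∑ t, g t else (l : ℂ) := by
    intro k
    split_ifs with h5 h6
    · rfl
    · rfl
    · simp [ZMod.card]
  rw [Finset.prod_congr rfl fun k _ => h4 k, e3_prod i j hij]

/-- Proof. Replace the coordinates `i, j` of `x` by `∑ u_k x_k + c` and `∑ v_k x_k + d`: this map of `Fin 4 → ZMod l` to itself is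
injective (the minor is not `0`), so bijective (`Finite.injective_iff_bijective`), and the sum becomes
`∑_x f (x i) g (x j) = l² (∑ f) (∑ g)` (`Finset.prod_univ_sum`/`Fintype.piFinset_univ`, `i ≠ j` because the minor is not `0`). -/
theorem E3_two (l : ℕ) [Fact l.Prime] (u v : Fin 4 → ZMod l) (c d : ZMod l) (i j : Fin 4)
    (hij : u i * v j - u j * v i ≠ 0) (f g : ZMod l → ℂ) :
    ∑ x : Fin 4 → ZMod l, f (∑ k, u k * x k + c) * g (∑ k, v k * x k + d) =
      (l : ℂ) ^ 2 * ((∑ t, f t) * ∑ t, g t) := by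
  have hne : i ≠ j := by
    rintro rfl
    exact hij (by ring)
  let Φ : (Fin 4 → ZMod l) → (Fin 4 → ZMod l) := fun x =>
    Function.update (Function.update x i (∑ k, u k * x k + c)) j (∑ k, v k * x k + d)
  have hΦi : ∀ x, Φ x i = ∑ k, u k * x k + c := by
    intro x
    simp [Φ, Function.update_of_ne hne]
  have hΦj : ∀ x, Φ x j = ∑ k, v k * x k + d := by
    intro x
    simp [Φ]
  have hΦk : ∀ x k, k ≠ i → k ≠ j → Φ x k = x k := by
    intro x k h1 h2
    simp [Φ, Function.update_of_ne h1, Function.update_of_ne h2]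
  have hinj : Function.Injective Φ := by
    intro x y hxy
    have h1 : ∀ k, k ≠ i → k ≠ j → x k - y k = 0 := by
      intro k h1 h2
      rw [← hΦk x k h1 h2, ← hΦk y k h1 h2, hxy, sub_self]
    have hsum : ∀ w : Fin 4 → ZMod l, ∑ k, w k * (x k - y k) = w i * (x i - y i) + w j * (x j - y j) := by
      intro w
      have : ∑ k, w k * (x k - y k) = ∑ k ∈ ({i, j} : Finset (Fin 4)), w k * (x k - y k) := by
        refine (Finset.sum_subset (Finset.subset_univ _) fun k _ hk => ?_).symm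
        rw [Finset.mem_insert, Finset.mem_singleton] at hk
        push Not at hk
        rw [h1 k hk.1 hk.2, mul_zero]
      rw [this, Finset.sum_pair hne]
    have h2 : ∑ k, u k * (x k - y k) = 0 := by
      have h3 := hΦi x
      rw [hxy, hΦi y] at h3
      simp only [mul_sub, Finset.sum_sub_distrib]
      linear_combination -h3
    have h2' : ∑ k, v k * (x k - y k) = 0 := by
      have h3 := hΦj x
      rw [hxy, hΦj y] at h3
      simp only [mul_sub, Finset.sum_sub_distrib]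
      linear_combination -h3
    rw [hsum u] at h2
    rw [hsum v] at h2'
    have h5 : (u i * v j - u j * v i) * (x i - y i) = 0 := by
      linear_combination v j * h2 - u j * h2'
    have h6 : (u i * v j - u j * v i) * (x j - y j) = 0 := by
      linear_combination -v i * h2 + u i * h2'
    have h5' := (mul_eq_zero.1 h5).resolve_left hij
    have h6' := (mul_eq_zero.1 h6).resolve_left hij
    funext k
    by_cases hki : k = i
    · rw [hki]; exact sub_eq_zero.1 h5'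
    · by_cases hkj : k = j
      · rw [hkj]; exact sub_eq_zero.1 h6'
      · exact sub_eq_zero.1 (h1 k hki hkj)
  have hbij : Function.Bijective Φ := Finite.injective_iff_bijective.1 hinj
  rw [← e3_ij l i j hne f g, ← hbij.sum_comp (fun x => f (x i) * g (x j))]
  refine Finset.sum_congr rfl fun x _ => ?_
  rw [hΦi, hΦj]

/-- Proof. `E3_two` with the form `v = e_j`, `j ≠ i`, and `g = 1`. -/
theorem E3_one (l : ℕ) [Fact l.Prime] (u : Fin 4 → ZMod l) (c : ZMod l) (i : Fin 4) (hi : u i ≠ 0)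
    (f : ZMod l → ℂ) : ∑ x : Fin 4 → ZMod l, f (∑ k, u k * x k + c) = (l : ℂ) ^ 3 * ∑ t, f t := by
  obtain ⟨j, hj⟩ : ∃ j : Fin 4, j ≠ i := exists_ne i
  have h := E3_two l u (Pi.single j 1) c 0 i j (by
    rw [Pi.single_eq_same, Pi.single_eq_of_ne hj.symm]
    simpa using hi) f (fun _ => 1)
  simp only [mul_one] at h
  rw [h]
  simp [ZMod.card]
  ring

/-- The number of the common zeros. Proof. `E3_two` with the indicator function of `0`. -/
theorem E3_zero (l : ℕ) [Fact l.Prime] (u v : Fin 4 → ZMod l) (c d : ZMod l) (i j : Fin 4)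
    (hij : u i * v j - u j * v i ≠ 0) :
    ((univ : Finset (Fin 4 → ZMod l)).filter
      (fun x => ∑ k, u k * x k + c = 0 ∧ ∑ k, v k * x k + d = 0)).card = l ^ 2 := by
  have h := E3_two l u v c d i j hij (fun t => if t = 0 then 1 else 0) (fun t => if t = 0 then 1 else 0)
  have h1 : ∑ t : ZMod l, (if t = 0 then (1 : ℂ) else 0) = 1 := by simp
  rw [h1, mul_one, mul_one] at h
  have h2 : (((univ : Finset (Fin 4 → ZMod l)).filter
      (fun x => ∑ k, u k * x k + c = 0 ∧ ∑ k, v k * x k + d = 0)).card : ℂ) = (l : ℂ) ^ 2 := by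
    rw [← h, Finset.card_filter, Nat.cast_sum]
    refine Finset.sum_congr rfl fun x _ => ?_
    by_cases ha : ∑ k, u k * x k + c = 0 <;> by_cases hb : ∑ k, v k * x k + d = 0 <;> simp [ha, hb]
  exact_mod_cast h2

/-- Proof. `(l - 1) (1/(l-1)) - 1 = 0`. -/
theorem E3_glz (l : ℕ) [Fact l.Prime] : ∑ t : ZMod l, glz l t = 0 := by
  have hl : (l : ℝ) - 1 ≠ 0 := by
    have : 2 ≤ l := (Fact.out : l.Prime).two_le
    have h : (2 : ℝ) ≤ l := by exact_mod_cast this
    linarith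
  have h1 : ∀ t : ZMod l, glz l t = 1 / ((l : ℝ) - 1) + if t = 0 then (-1 - 1 / ((l : ℝ) - 1)) else 0 := by
    intro t
    rw [glz]
    split_ifs <;> ring
  rw [Finset.sum_congr rfl fun t _ => h1 t, Finset.sum_add_distrib]
  simp [ZMod.card]
  field_simp
  ring

end Pool.Agent.Lib.H59T
end

-- from Lib.H59T.E4
section

/-!
# Project H59T, chunk E4 (M): products of the factors `gl` at pairwise independent forms
-/

open Finset

namespace Pool.Agent.Lib.H59T

theorem e4_abs (l : ℕ) [Fact l.Prime] (t : ZMod l) : |glz l t| ≤ 1 := by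
  have : 2 ≤ l := (Fact.out : l.Prime).two_le
  have h : (2 : ℝ) ≤ l := by exact_mod_cast this
  rw [glz]
  split_ifs
  · simp
  · rw [abs_of_nonneg (by apply div_nonneg <;> linarith), div_le_one (by linarith)]
    linarith

theorem e4_ne (l : ℕ) [Fact l.Prime] (t : ZMod l) (ht : t ≠ 0) : |glz l t| = 1 / ((l : ℝ) - 1) := by
  have : 2 ≤ l := (Fact.out : l.Prime).two_le
  have h : (2 : ℝ) ≤ l := by exact_mod_cast this
  rw [glz, if_neg ht, abs_of_nonneg (by apply div_nonneg <;> linarith)]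

theorem e4_three (l : ℕ) [Fact l.Prime] (a b c : ZMod l) :
    |glz l a| * |glz l b| * |glz l c| ≤ (if a = 0 ∧ b = 0 then 1 else 0) + (if a = 0 ∧ c = 0 then 1 else 0) +
      (if b = 0 ∧ c = 0 then 1 else 0) + (1 / ((l : ℝ) - 1)) ^ 2 := by
  have : 2 ≤ l := (Fact.out : l.Prime).two_le
  have h : (2 : ℝ) ≤ l := by exact_mod_cast this
  have hq0 : 0 ≤ 1 / ((l : ℝ) - 1) := by apply div_nonneg <;> linarith
  have hA := e4_abs l a
  have hB := e4_abs l b
  have hC := e4_abs l c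
  have hA0 := abs_nonneg (glz l a)
  have hB0 := abs_nonneg (glz l b)
  have hC0 := abs_nonneg (glz l c)
  have hall : |glz l a| * |glz l b| * |glz l c| ≤ 1 := by
    have := mul_le_one₀ (mul_le_one₀ hA hB0 hB) hC0 hC
    exact this
  have hq2 : 0 ≤ (1 / ((l : ℝ) - 1)) ^ 2 := sq_nonneg _
  by_cases ha : a = 0
  · by_cases hb : b = 0
    · simp only [ha, hb, true_and]
      rw [ha, hb] at hall
      split_ifs <;> linarith
    · by_cases hc : c = 0
      · simp only [ha, hc, hb, and_true, and_false, if_true, if_false]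
        rw [ha, hc] at hall
        linarith
      · simp only [hb, hc, and_false, false_and, if_false]
        rw [e4_ne l b hb, e4_ne l c hc, sq, zero_add, zero_add, zero_add, mul_assoc]
        exact mul_le_of_le_one_left (mul_nonneg hq0 hq0) hA
  · by_cases hb : b = 0
    · by_cases hc : c = 0
      · simp only [ha, hc, hb, and_true, false_and, if_true, if_false]
        rw [hb, hc] at hall
        linarith
      · simp only [ha, hc, and_false, false_and, if_false]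
        rw [e4_ne l a ha, e4_ne l c hc, sq, zero_add, zero_add, zero_add, mul_right_comm]
        exact mul_le_of_le_one_right (mul_nonneg hq0 hq0) hB
    · simp only [ha, hb, false_and, if_false]
      rw [e4_ne l a ha, e4_ne l b hb, sq, zero_add, zero_add, zero_add]
      exact mul_le_of_le_one_right (mul_nonneg hq0 hq0) hC

theorem e4_count (l : ℕ) [Fact l.Prime] (u v : Fin 4 → ZMod l) (c d : ZMod l)
    (huv : ∃ a b, u a * v b - u b * v a ≠ 0) :
    ∑ x : Fin 4 → ZMod l, (if ∑ k, u k * x k + c = 0 ∧ ∑ k, v k * x k + d = 0 then (1 : ℝ) else 0) = (l : ℝ) ^ 2 := by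
  obtain ⟨a, b, h⟩ := huv
  have h1 := E3_zero l u v c d a b h
  rw [← Finset.sum_filter, Finset.sum_const, nsmul_eq_mul, mul_one, h1]
  push_cast
  rfl

/-- Proof. `S` has one element: `0` (`E3_one`, `E3_glz`); two elements: `0` (`E3_two`). At least three: choose three different
`i1, i2, i3 ∈ S`; `|glz| ≤ 1`, so the product is at most `|glz glz glz|` at these three. The number of `x` for which at
least two of the three forms vanish is at most `3 l²` (`E3_zero`); for the others at least two factors are `1/(l-1)`, and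
`l⁴/(l-1)² ≤ 4 l²`. Total `7 l²`. -/
theorem E4_gl (l : ℕ) [Fact l.Prime] (m : ℕ) (u : Fin m → Fin 4 → ZMod l) (c : Fin m → ZMod l)
    (hu : ∀ i j, i ≠ j → ∃ a b, u i a * u j b - u i b * u j a ≠ 0) (hu1 : ∀ i, ∃ a, u i a ≠ 0)
    (S : Finset (Fin m)) (hS : S.Nonempty) :
    ‖∑ x : Fin 4 → ZMod l, ∏ i ∈ S, ((glz l (∑ k, u i k * x k + c i) : ℝ) : ℂ)‖ ≤ 7 * (l : ℝ) ^ 2 := by
  have hl2 : 2 ≤ l := (Fact.out : l.Prime).two_le
  have hl : (2 : ℝ) ≤ l := by exact_mod_cast hl2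
  have hz : (∑ t : ZMod l, ((glz l t : ℝ) : ℂ)) = 0 := by
    rw [← Complex.ofReal_sum, E3_glz, Complex.ofReal_zero]
  have hc0 : 1 ≤ S.card := hS.card_pos
  rcases (by omega : S.card = 1 ∨ S.card = 2 ∨ 3 ≤ S.card) with h1 | h2 | h3
  · obtain ⟨i, rfl⟩ := Finset.card_eq_one.1 h1
    obtain ⟨a, ha⟩ := hu1 i
    have h := E3_one l (u i) (c i) a ha (fun t => ((glz l t : ℝ) : ℂ))
    simp only [Finset.prod_singleton]
    rw [h, hz, mul_zero, norm_zero]
    positivity
  · obtain ⟨i, j, hij, rfl⟩ := Finset.card_eq_two.1 h2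
    obtain ⟨a, b, hab⟩ := hu i j hij
    have h := E3_two l (u i) (u j) (c i) (c j) a b hab (fun t => ((glz l t : ℝ) : ℂ)) (fun t => ((glz l t : ℝ) : ℂ))
    simp only [Finset.prod_pair hij]
    rw [h, hz, mul_zero, mul_zero, norm_zero]
    positivity
  · obtain ⟨T, hTS, hT3⟩ := Finset.exists_subset_card_eq h3
    obtain ⟨i, j, k, hij, hik, hjk, rfl⟩ := Finset.card_eq_three.1 hT3
    have hx : ∀ x : Fin 4 → ZMod l, ‖∏ i ∈ S, ((glz l (∑ k, u i k * x k + c i) : ℝ) : ℂ)‖ ≤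
        |glz l (∑ m, u i m * x m + c i)| * |glz l (∑ m, u j m * x m + c j)| * |glz l (∑ m, u k m * x m + c k)| := by
      intro x
      rw [norm_prod]
      simp only [Complex.norm_real, Real.norm_eq_abs]
      rw [← Finset.prod_sdiff hTS]
      have h4 : ∏ i ∈ S \ {i, j, k}, |glz l (∑ k, u i k * x k + c i)| ≤ 1 :=
        Finset.prod_le_one (fun _ _ => abs_nonneg _) (fun _ _ => e4_abs l _)
      have h5 : ∏ i ∈ ({i, j, k} : Finset (Fin m)), |glz l (∑ k, u i k * x k + c i)| =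
          |glz l (∑ m, u i m * x m + c i)| * |glz l (∑ m, u j m * x m + c j)| * |glz l (∑ m, u k m * x m + c k)| := by
        rw [Finset.prod_insert (by simp [hij, hik]), Finset.prod_pair hjk, mul_assoc]
      rw [h5]
      exact mul_le_of_le_one_left (by positivity) h4
    calc ‖∑ x : Fin 4 → ZMod l, ∏ i ∈ S, ((glz l (∑ k, u i k * x k + c i) : ℝ) : ℂ)‖ ≤
        ∑ x : Fin 4 → ZMod l, ‖∏ i ∈ S, ((glz l (∑ k, u i k * x k + c i) : ℝ) : ℂ)‖ := norm_sum_le _ _
      _ ≤ ∑ x : Fin 4 → ZMod l, ((if (∑ m, u i m * x m + c i = 0 ∧ ∑ m, u j m * x m + c j = 0) then (1 : ℝ) else 0) +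
          (if (∑ m, u i m * x m + c i = 0 ∧ ∑ m, u k m * x m + c k = 0) then 1 else 0) +
          (if (∑ m, u j m * x m + c j = 0 ∧ ∑ m, u k m * x m + c k = 0) then 1 else 0) + (1 / ((l : ℝ) - 1)) ^ 2) :=
        Finset.sum_le_sum fun x _ => (hx x).trans (e4_three l _ _ _)
      _ = 3 * (l : ℝ) ^ 2 + (l : ℝ) ^ 4 * (1 / ((l : ℝ) - 1)) ^ 2 := by
        rw [Finset.sum_add_distrib, Finset.sum_add_distrib, Finset.sum_add_distrib, e4_count l _ _ _ _ (hu i j hij),
          e4_count l _ _ _ _ (hu i k hik), e4_count l _ _ _ _ (hu j k hjk), Finset.sum_const, Finset.card_univ,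
          Fintype.card_fun, ZMod.card, Fintype.card_fin, nsmul_eq_mul]
        push_cast
        ring
      _ ≤ 7 * (l : ℝ) ^ 2 := by
        have h6 : (l : ℝ) * (1 / ((l : ℝ) - 1)) ≤ 2 := by
          rw [mul_one_div, div_le_iff₀ (by linarith)]
          linarith
        have h7 : 0 ≤ (l : ℝ) * (1 / ((l : ℝ) - 1)) := by
          apply mul_nonneg (by linarith)
          apply div_nonneg <;> linarith
        have h8 : ((l : ℝ) * (1 / ((l : ℝ) - 1))) ^ 2 ≤ 4 := by nlinarith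
        have h9 : (l : ℝ) ^ 4 * (1 / ((l : ℝ) - 1)) ^ 2 = (l : ℝ) ^ 2 * ((l : ℝ) * (1 / ((l : ℝ) - 1))) ^ 2 := by ring
        rw [h9]
        have h10 : (0 : ℝ) ≤ (l : ℝ) ^ 2 := by positivity
        nlinarith

end Pool.Agent.Lib.H59T
end

-- from Lib.H59T.E7
section

/-!
# Project H59T, chunk E7 (M): the local bounds for the four forms
-/

open Finset

namespace Pool.Agent.Lib.H59T

open Pool.Agent.Lib.H68T Pool.Agent.Lib.H18Q Pool.Agent.Lib.H59P

theorem e7_lcm {ι : Type*} [DecidableEq ι] (s : Finset ι) (f : ι → ℕ) (l : ℕ) (hf : ∀ i, f i ≠ 0) :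
    s.lcm f ≠ 0 ∧ (s.Nonempty → ∃ i ∈ s, (f i).factorization l = (s.lcm f).factorization l) := by
  induction s using Finset.induction_on with
  | empty =>
    refine ⟨by simp, fun h => ?_⟩
    exact absurd h (by simp)
  | insert a s ha ih =>
    rw [Finset.lcm_insert]
    have h1 : GCDMonoid.lcm (f a) (s.lcm f) = Nat.lcm (f a) (s.lcm f) := rfl
    rw [h1]
    refine ⟨Nat.lcm_ne_zero (hf a) ih.1, fun _ => ?_⟩
    rw [Nat.factorization_lcm (hf a) ih.1, Finsupp.sup_apply]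
    rcases le_total ((s.lcm f).factorization l) ((f a).factorization l) with h2 | h2
    · exact ⟨a, Finset.mem_insert_self _ _, (sup_eq_left.2 h2).symm⟩
    · rcases s.eq_empty_or_nonempty with hs | hs
      · subst hs
        refine ⟨a, Finset.mem_insert_self _ _, ?_⟩
        rw [Finset.lcm_empty, Nat.factorization_one]
        simp
      · obtain ⟨i, hi, he⟩ := ih.2 hs
        refine ⟨i, Finset.mem_insert_of_mem hi, ?_⟩
        rw [he, sup_eq_right.2 h2]

theorem E7_attained {k : ℕ} (p : Fin k → Ch) (hp : Pm p) (l : ℕ) (hl : l.Prime) (hd : l ∣ Rm p) :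
    1 ≤ (Rm p).factorization l ∧ (∀ i, (p i).1.factorization l ≤ (Rm p).factorization l) ∧
      ∃ i, (p i).1.factorization l = (Rm p).factorization l ∧ l ∣ (p i).1 := by
  have h0 : ∀ i, (p i).1 ≠ 0 := fun i => (hp i).1.ne'
  have h1 := e7_lcm (univ : Finset (Fin k)) (fun i => (p i).1) l h0
  have hR : Rm p ≠ 0 := h1.1
  have h2 : 1 ≤ (Rm p).factorization l := (hl.dvd_iff_one_le_factorization hR).1 hd
  refine ⟨h2, fun i => ?_, ?_⟩
  · exact (Nat.factorization_le_iff_dvd (h0 i) hR).2 (Finset.dvd_lcm (Finset.mem_univ i)) l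
  · have hne : (univ : Finset (Fin k)).Nonempty := by
      by_contra hc
      rw [Finset.not_nonempty_iff_eq_empty] at hc
      have h3 : Rm p = 1 := by
        unfold Rm
        rw [hc, Finset.lcm_empty]
      rw [h3] at hd
      exact hl.one_lt.ne' (Nat.dvd_one.1 hd)
    obtain ⟨i, _, hi⟩ := h1.2 hne
    refine ⟨i, hi, ?_⟩
    rw [hl.dvd_iff_one_le_factorization (h0 i)]
    have h4 : (p i).1.factorization l = (Rm p).factorization l := hi
    rw [h4]
    exact h2



end Pool.Agent.Lib.H59T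
end

-- from Lib.H59T.UD
section

/-!
# Project H59T, chunk UD (M): the forms `uf e` at a prime not dividing the conductors
-/

open Finset

namespace Pool.Agent.Lib.H59T

open Pool.Agent.Lib.H68T Pool.Agent.Lib.H18Q Pool.Agent.Lib.H59P

/-- The rows of the eight forms. -/
def ud_U : Fin 8 → Fin 4 → ℤ := ![![0, 0, 2, 0], ![1, 0, 2, 0], ![0, 1, 2, 0], ![1, 1, 2, 0],
  ![0, 0, 0, 2], ![1, 0, 0, 2], ![0, 1, 0, 2], ![1, 1, 0, 2]]

theorem ud_minor : ∀ i j : Fin 8, i ≠ j →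
    ∃ a b, (ud_U i a * ud_U j b - ud_U i b * ud_U j a) ∣ 4 := by
  decide +kernel

theorem ud_row : ∀ i : Fin 8, ∃ a, ud_U i a ∣ 4 := by
  decide +kernel

theorem ud_cast (l : ℕ) (hl : l.Prime) (h2 : l ≠ 2) (v : ℤ) (hv : v ∣ 4) : (v : ZMod l) ≠ 0 := by
  intro h
  rw [ZMod.intCast_zmod_eq_zero_iff_dvd] at h
  have h4 : (l : ℤ) ∣ ((4 : ℕ) : ℤ) := h.trans (by exact_mod_cast hv)
  have h5 : l ∣ 2 ^ 2 := by exact_mod_cast h4
  exact h2 ((Nat.prime_dvd_prime_iff_eq hl Nat.prime_two).1 (hl.dvd_of_dvd_pow h5))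

theorem ud_g (p : Prop) [Decidable p] (x : ℝ) :
    (starRingEnd ℂ) (if p then (x : ℂ) else 1) = if p then (x : ℂ) else 1 := by
  split_ifs
  · exact Complex.conj_ofReal _
  · exact map_one _

theorem ud_two (p : Prop) [Decidable p] (m : ℤ) :
    ‖(if p then ((gl 2 m : ℝ) : ℂ) else 1)‖ ≤ 1 := by
  split_ifs
  · rw [Complex.norm_real]
    unfold gl
    split_ifs <;> norm_num
  · simp

/-- Proof. As `E5_four` (`E5.lean`): `l = 2` trivial (`16 ≤ 28`); `l` odd: `C3_fin`, `C3_gl`, `E4_gl` for the eight forms with linear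
parts `(0,0,2,0), (1,0,2,0), (0,1,2,0), (1,1,2,0), (0,0,0,2), (1,0,0,2), (0,1,0,2), (1,1,0,2)` in `(y,y',z,z')` and the constants
`e i`: each pair has a minor `±1`, `±2` or `±4` (`decide` over the integers). -/
theorem UD_cube (l : ℕ) (hl : l.Prime) (e : Fin 4 → ℤ) (s s' : Fin 4 → Prop) [DecidablePred s]
    [DecidablePred s'] (hs : ∃ i, s i ∨ s' i) :
    ‖S4 l (Db (uf e) (fun i m => if s i then ((gl l m : ℝ) : ℂ) else 1)
      (fun i m => if s' i then ((gl l m : ℝ) : ℂ) else 1))‖ ≤ 7 * (l : ℝ) ^ 2 := by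
  classical
  by_cases h2 : l = 2
  · subst h2
    refine le_trans (C3_triv 2 _ 1 ?_) (by norm_num)
    intro y y' z z'
    unfold Db
    rw [norm_prod]
    refine Finset.prod_le_one (fun i _ => norm_nonneg _) fun i _ => ?_
    rw [norm_mul, RCLike.norm_conj]
    exact mul_le_one₀ (ud_two _ _) (norm_nonneg _) (ud_two _ _)
  have : Fact l.Prime := ⟨hl⟩
  obtain ⟨t, ht⟩ : ∃ t : Fin 8 → Prop, t = ![s 0, s 1, s 2, s 3, s' 0, s' 1, s' 2, s' 3] := ⟨_, rfl⟩
  obtain ⟨w, hw⟩ : ∃ w : Fin 8 → ZMod l, w = ![(e 0 : ZMod l), (e 1 : ZMod l), (e 2 : ZMod l), (e 3 : ZMod l),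
    (e 0 : ZMod l), (e 1 : ZMod l), (e 2 : ZMod l), (e 3 : ZMod l)] := ⟨_, rfl⟩
  have hS : (univ.filter fun j : Fin 8 => t j).Nonempty := by
    obtain ⟨i, hi⟩ := hs
    rw [ht]
    rcases hi with hi | hi
    · fin_cases i
      · exact ⟨0, by simpa using hi⟩
      · exact ⟨1, by simpa using hi⟩
      · exact ⟨2, by simpa using hi⟩
      · exact ⟨3, by simpa using hi⟩
    · fin_cases i
      · exact ⟨4, by simpa using hi⟩
      · exact ⟨5, by simpa using hi⟩
      · exact ⟨6, by simpa using hi⟩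
      · exact ⟨7, by simpa using hi⟩
  have h4 := E4_gl l 8 (fun i k => ((ud_U i k : ℤ) : ZMod l)) w
    (fun i j hij => by
      obtain ⟨a, b, hab⟩ := ud_minor i j hij
      refine ⟨a, b, ?_⟩
      have h := ud_cast l hl h2 _ hab
      push_cast at h
      exact h)
    (fun i => by
      obtain ⟨a, ha⟩ := ud_row i
      exact ⟨a, ud_cast l hl h2 _ ha⟩) (univ.filter fun j : Fin 8 => t j) hS
  have h5 := C3_fin l (fun a b c d => ∏ i ∈ univ.filter (fun j : Fin 8 => t j),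
    ((glz l (∑ k, ((ud_U i k : ℤ) : ZMod l) * ![a, b, c, d] k + w i) : ℝ) : ℂ))
  have h6 : S4 l (Db (uf e) (fun i m => if s i then ((gl l m : ℝ) : ℂ) else 1)
      (fun i m => if s' i then ((gl l m : ℝ) : ℂ) else 1)) =
      S4 l (fun y y' z z' => ∏ i ∈ univ.filter (fun j : Fin 8 => t j),
        ((glz l (∑ k, ((ud_U i k : ℤ) : ZMod l) *
          ![(y : ZMod l), (y' : ZMod l), (z : ZMod l), (z' : ZMod l)] k + w i) : ℝ) : ℂ)) := by
    congr 1
    funext y y' z z'
    rw [Finset.prod_filter, Fin.prod_univ_eight]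
    unfold Db uf
    rw [Fin.prod_univ_four]
    simp only [ud_g, C3_gl, ht, hw, ud_U, Fin.sum_univ_four]
    simp [-mul_ite, -ite_mul]
    ring_nf
  rw [h6, h5]
  have h7 : ∀ x : Fin 4 → ZMod l, ![x 0, x 1, x 2, x 3] = x := by
    intro x
    funext k
    fin_cases k <;> rfl
  simp only [h7]
  exact h4

end Pool.Agent.Lib.H59T
end
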