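import Pool.Agent.Lib.H59M.M2.M078

/-! Merged copies (to shorten the build) of Lib.H59P.TDefs, Lib.H59P.T0, Lib.H59P.T1, Lib.H59P.T2, Lib.H59P.T3, Lib.H59P.T4A. -/

-- from Lib.H59P.TDefs
section

/-!
# Project H59P, part T: definitions for the local factors (helper24)
-/

open Finset

namespace Pool.Agent.Lib.H59P

noncomputable section

/-- The number of classes `n` modulo `l` with `l ∣ n + h_i` for some `i`. -/
def nu {k : ℕ} (l : ℕ) (h : Fin k → ℕ) : ℕ :=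
  ((range l).filter (fun n => ∃ i, l ∣ n + h i)).card






theorem mem_pr {l X : ℕ} : l ∈ pr X ↔ l ≤ X ∧ l.Prime := by
  unfold pr
  rw [mem_filter, mem_Icc]
  constructor
  · rintro ⟨⟨-, h1⟩, h2⟩
    exact ⟨h1, h2⟩
  · rintro ⟨h1, h2⟩
    exact ⟨⟨h2.one_lt.le, h1⟩, h2⟩

end

end Pool.Agent.Lib.H59P
end

-- from Lib.H59P.T0
section

/-!
# Chunk T0 (M): the local factor

* `T0_tp`. For a prime `l` and an integer `n`: `1 + gl l (n + h i)` is `l/(l-1)` if `l` does not divide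
  `n + h i` and `0` else. So `∏_i (1 + gl l (n + h i)) = (l/(l-1))^k` if `l ∤ n + h i` for all `i`, and `0`
  if `l ∣ n + h i` for some `i` (the divisibility of integers `(l : ℤ) ∣ (n : ℤ) + h i` is the one of
  natural numbers: `exact_mod_cast`). The sum over `n < l` is `(l - nu l h) (l/(l-1))^k`. (`k = 0`: both
  sides are `1`; `nu = 0`.)
* `T0_nu_le_k`. The classes `n < l` with `∃ i, l ∣ n + h i` inject into `Fin k` (choose `i`; two `n, n' < l`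
  with the same `i` satisfy `l ∣ n - n'`, so they are equal). E.g. the set is contained in the image of
  `univ : Finset (Fin k)` under `i ↦ (l - h i % l) % l`.
* `T0_nu_lt`. `Adm h` gives `n` with `l ∤ n + h i` for all `i`; then `n % l < l` is not in the filtered set
  (`(n % l + h i) % l = (n + h i) % l`), so the filtered set is a proper subset of `range l`.
* `T0_k_le`. Let `r i = (l - h i % l) % l`, so `nu l h = (univ.image r).card` (the filtered set is exactly the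
  image). Call `i` old if there is `j < i` with `r j = r i`. The other `i` (first occurrences) inject into
  the image: at most `nu` of them. The old ones inject into the set of pairs counted by `col` (map `i` to
  `(i, j)` with such a `j`; `r j = r i` iff `h j ≡ h i` mod `l` iff `(l : ℤ) ∣ (h i : ℤ) - h j`).
* `T0_nonneg`: each product is nonnegative. `T0_le`: `1 - nu / l ≤ 1`, in `T0_tp`.
-/

open Finset

namespace Pool.Agent.Lib.H59P

theorem t0_gl (l : ℕ) (hl : l.Prime) (m : ℕ) :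
    1 + gl l (m : ℤ) = if l ∣ m then 0 else (l : ℝ) / ((l : ℝ) - 1) := by
  have h1 : (1 : ℝ) < l := by exact_mod_cast hl.one_lt
  have h2 : (l : ℝ) - 1 ≠ 0 := by linarith
  rw [gl]
  by_cases h : l ∣ m
  · rw [if_pos h, if_pos (Int.natCast_dvd_natCast.2 h)]
    norm_num
  · rw [if_neg h, if_neg fun h' => h (Int.natCast_dvd_natCast.1 h')]
    field_simp
    ring

theorem t0_prod {k : ℕ} (l : ℕ) (hl : l.Prime) (h : Fin k → ℕ) (n : ℕ) :
    ∏ i, (1 + gl l ((n : ℤ) + h i)) =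
      if ∃ i, l ∣ n + h i then 0 else ((l : ℝ) / ((l : ℝ) - 1)) ^ k := by
  have h1 : ∀ i, 1 + gl l ((n : ℤ) + h i) = if l ∣ n + h i then 0 else (l : ℝ) / ((l : ℝ) - 1) := by
    intro i
    rw [← t0_gl l hl (n + h i)]
    push_cast
    rfl
  rw [Finset.prod_congr rfl fun i _ => h1 i]
  split_ifs with hex
  · obtain ⟨i, hi⟩ := hex
    exact Finset.prod_eq_zero (Finset.mem_univ i) (if_pos hi)
  · have h2 : ∀ i ∈ (univ : Finset (Fin k)), (if l ∣ n + h i then 0 else (l : ℝ) / ((l : ℝ) - 1)) =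
        (l : ℝ) / ((l : ℝ) - 1) := fun i _ => if_neg fun hd => hex ⟨i, hd⟩
    rw [Finset.prod_congr rfl h2, Finset.prod_const, Finset.card_univ, Fintype.card_fin]

/-- The class modulo `l` of `- a`. -/
def t0_r (l a : ℕ) : ℕ := (l - a % l) % l

theorem t0_r_dvd {l : ℕ} (hl : 0 < l) (a : ℕ) : t0_r l a < l ∧ l ∣ t0_r l a + a := by
  refine ⟨Nat.mod_lt _ hl, ?_⟩
  have h1 : t0_r l a + a ≡ (l - a % l) + a % l [MOD l] :=
    (Nat.mod_modEq _ _).add (Nat.mod_modEq a l).symm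
  have h2 : (l - a % l) + a % l = l := Nat.sub_add_cancel (Nat.mod_lt a hl).le
  rw [h2] at h1
  exact (Nat.modEq_zero_iff_dvd.1 (h1.trans (Nat.modEq_zero_iff_dvd.2 dvd_rfl)))

theorem t0_eq {l n n' a : ℕ} (hn : n < l) (hn' : n' < l) (h : l ∣ n + a) (h' : l ∣ n' + a) :
    n = n' := by
  have h1 : n + a ≡ n' + a [MOD l] :=
    (Nat.modEq_zero_iff_dvd.2 h).trans (Nat.modEq_zero_iff_dvd.2 h').symm
  have h2 := Nat.ModEq.add_right_cancel' a h1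
  exact Nat.ModEq.eq_of_lt_of_lt h2 hn hn'

theorem t0_image {k : ℕ} (l : ℕ) (hl : 0 < l) (h : Fin k → ℕ) :
    (range l).filter (fun n => ∃ i, l ∣ n + h i) = univ.image fun i => t0_r l (h i) := by
  ext n
  rw [mem_filter, mem_range, mem_image]
  constructor
  · rintro ⟨h1, i, hi⟩
    exact ⟨i, mem_univ _, t0_eq (t0_r_dvd hl (h i)).1 h1 (t0_r_dvd hl (h i)).2 hi⟩
  · rintro ⟨i, -, rfl⟩
    exact ⟨(t0_r_dvd hl (h i)).1, i, (t0_r_dvd hl (h i)).2⟩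

theorem T0_tp {k : ℕ} (l : ℕ) (hl : l.Prime) (h : Fin k → ℕ) :
    1 + tp l h = (1 - (nu l h : ℝ) / l) * ((l : ℝ) / ((l : ℝ) - 1)) ^ k := by
  have hl0 : (l : ℝ) ≠ 0 := by exact_mod_cast hl.ne_zero
  rw [tp, Finset.sum_congr rfl fun n _ => t0_prod l hl h n, Finset.sum_ite, Finset.sum_const_zero,
    zero_add, Finset.sum_const, nsmul_eq_mul, nu]
  have h1 := Finset.card_filter_add_card_filter_not (s := range l) (fun n => ∃ i, l ∣ n + h i)
  rw [card_range] at h1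
  have h2 : ((((range l).filter (fun n => ∃ i, l ∣ n + h i)).card : ℕ) : ℝ) +
      ((((range l).filter (fun n => ¬ ∃ i, l ∣ n + h i)).card : ℕ) : ℝ) = l := by
    exact_mod_cast h1
  rw [← eq_sub_iff_add_eq'] at h2
  rw [h2]
  field_simp
  ring

theorem T0_nu_le_k {k : ℕ} (l : ℕ) (hl : l.Prime) (h : Fin k → ℕ) : nu l h ≤ k := by
  rw [nu, t0_image l hl.pos]
  refine Finset.card_image_le.trans ?_
  rw [Finset.card_univ, Fintype.card_fin]

theorem T0_nu_lt {k : ℕ} (l : ℕ) (hl : l.Prime) (h : Fin k → ℕ) (hA : Adm h) : nu l h < l := by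
  obtain ⟨n, hn⟩ := hA l hl
  rw [nu]
  have h1 : ((range l).filter (fun n => ∃ i, l ∣ n + h i)).card < (range l).card := by
    refine Finset.card_lt_card (Finset.filter_ssubset.2 ⟨n % l, mem_range.2 (Nat.mod_lt _ hl.pos), ?_⟩)
    rintro ⟨i, hi⟩
    refine hn i ?_
    have h2 : n % l + h i ≡ n + h i [MOD l] := (Nat.mod_modEq _ _).add_right _
    exact (Nat.ModEq.dvd_iff h2 dvd_rfl).1 hi
  rwa [card_range] at h1




end Pool.Agent.Lib.H59P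
end

-- from Lib.H59P.T1
section

/-!
# Chunk T1 (M): lower bound for the singular series of admissible tuples

Use `T0_tp`, `T0_nu_lt`, `T0_nu_le_k`. For `l ∈ P` put `b l = 1/l` if `l ≤ 2k` and `b l = 1 - k^2/l^2` if
`l > 2k`. Then `b l ≤ 1 + tp l h` and `0 < b l ≤ 1`:
* `l ≤ 2k`: `1 - nu/l ≥ 1/l` (as `nu + 1 ≤ l`) and `(l/(l-1))^k ≥ 1`.
* `l > 2k`: `1 - nu/l ≥ 1 - k/l > 0` and `(l/(l-1))^k = (1 + 1/(l-1))^k ≥ 1 + k/(l-1) ≥ 1 + k/l` (Bernoulli,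
  `one_add_mul_le_pow`), so the product is at least `(1 - k/l)(1 + k/l)`.
So `SS P h ≥ ∏_{l ∈ P} b l`. The small primes: `∏_{l ∈ P, l ≤ 2k} 1/l ≥ 1/primorial (2k) ≥ 4^(-2k)`
(`primorial_le_four_pow`; `primorial` is the product over all primes `≤ 2k`, and `1/l ≤ 1`). The large ones:
`1 - k^2/l^2 ≥ exp (-2 k^2/l^2)` (for `0 ≤ x ≤ 1/2`: `1 - x ≥ exp (-2x)`, e.g. from
`Real.add_one_le_exp` applied to `x/(1-x)`: `1/(1-x) = 1 + x/(1-x) ≤ exp (x/(1-x)) ≤ exp (2x)`), and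
`∑_{l > 2k} 1/l^2 ≤ 1/(2k)` for any finite set of integers `l > 2k` (compare with
`1/(l-1) - 1/l`, or by induction `∑_{2k < l ≤ N} 1/l^2 ≤ 1/(2k) - 1/N`). Total:
`exp (-k (2 log 4 + 1)) ≥ exp (-4k)` (`2 log 4 = 4 log 2 ≤ 2.78`). `k = 0`: `nu = 0`, all factors are `1`.
-/

open Finset

namespace Pool.Agent.Lib.H59P

theorem t1_B {k l : ℕ} (hl : l.Prime) :
    1 ≤ ((l : ℝ) / ((l : ℝ) - 1)) ^ k ∧ 1 + (k : ℝ) / l ≤ ((l : ℝ) / ((l : ℝ) - 1)) ^ k := by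
  have h1 : (1 : ℝ) < l := by exact_mod_cast hl.one_lt
  have h2 : (0 : ℝ) < (l : ℝ) - 1 := by linarith
  have h3 : (l : ℝ) / ((l : ℝ) - 1) = 1 + 1 / ((l : ℝ) - 1) := by
    field_simp
    ring
  have h4 : (0 : ℝ) ≤ 1 / ((l : ℝ) - 1) := by positivity
  have h5 : 1 + (k : ℝ) / l ≤ ((l : ℝ) / ((l : ℝ) - 1)) ^ k := by
    rw [h3]
    refine le_trans ?_ (one_add_mul_le_pow (by linarith) k)
    have h6 : (k : ℝ) / l ≤ k * (1 / ((l : ℝ) - 1)) := by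
      rw [mul_one_div]
      exact div_le_div_of_nonneg_left (Nat.cast_nonneg k) h2 (by linarith)
    linarith
  refine ⟨le_trans ?_ h5, h5⟩
  have h7 : (0 : ℝ) ≤ (k : ℝ) / l := by positivity
  linarith

theorem t1_small {k : ℕ} (h : Fin k → ℕ) (hA : Adm h) {l : ℕ} (hl : l.Prime) :
    ((l : ℝ))⁻¹ ≤ 1 + tp l h := by
  have h1 : (1 : ℝ) < l := by exact_mod_cast hl.one_lt
  have h2 : nu l h + 1 ≤ l := T0_nu_lt l hl h hA
  have h3 : (nu l h : ℝ) + 1 ≤ l := by exact_mod_cast h2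
  have h4 : ((l : ℝ))⁻¹ ≤ 1 - (nu l h : ℝ) / l := by
    rw [inv_eq_one_div, div_le_iff₀ (by linarith), sub_mul, div_mul_cancel₀ _ (by linarith)]
    linarith
  rw [T0_tp l hl]
  calc ((l : ℝ))⁻¹ = (l : ℝ)⁻¹ * 1 := (mul_one _).symm
    _ ≤ (1 - (nu l h : ℝ) / l) * ((l : ℝ) / ((l : ℝ) - 1)) ^ k :=
      mul_le_mul h4 (t1_B hl).1 zero_le_one (le_trans (by positivity) h4)

theorem t1_exp {x : ℝ} (h0 : 0 ≤ x) (h1 : x ≤ 1 / 2) : Real.exp (-(2 * x)) ≤ 1 - x := by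
  rw [Real.exp_neg]
  have h2 := Real.add_one_le_exp (2 * x)
  have h3 : (Real.exp (2 * x))⁻¹ ≤ (2 * x + 1)⁻¹ := inv_anti₀ (by linarith) h2
  refine h3.trans ?_
  rw [inv_eq_one_div, div_le_iff₀ (by linarith)]
  nlinarith

theorem t1_large {k : ℕ} (h : Fin k → ℕ) {l : ℕ} (hl : l.Prime) (hk : 2 * k < l) :
    Real.exp (-(2 * (k : ℝ) ^ 2 * ((l : ℝ) ^ 2)⁻¹)) ≤ 1 + tp l h := by
  have h1 : (1 : ℝ) < l := by exact_mod_cast hl.one_lt
  have h0 : (0 : ℝ) < l := by linarith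
  have h2 : (nu l h : ℝ) ≤ k := by exact_mod_cast T0_nu_le_k l hl h
  have h3 : 2 * (k : ℝ) ≤ l := by exact_mod_cast hk.le
  have h4 : (k : ℝ) / l ≤ 1 / 2 := by
    rw [div_le_iff₀ h0]
    linarith
  have h4' : 0 ≤ (k : ℝ) / l := by positivity
  have h5 : Real.exp (-(2 * ((k : ℝ) / l) ^ 2)) ≤ 1 - ((k : ℝ) / l) ^ 2 :=
    t1_exp (by positivity) (by nlinarith)
  have h6 : 2 * (k : ℝ) ^ 2 * ((l : ℝ) ^ 2)⁻¹ = 2 * ((k : ℝ) / l) ^ 2 := by
    rw [div_pow, div_eq_mul_inv, mul_assoc]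
  rw [h6]
  refine h5.trans ?_
  rw [T0_tp l hl]
  have h7 : 1 - (k : ℝ) / l ≤ 1 - (nu l h : ℝ) / l := by
    have := div_le_div_of_nonneg_right h2 h0.le
    linarith
  calc 1 - ((k : ℝ) / l) ^ 2 = (1 - (k : ℝ) / l) * (1 + (k : ℝ) / l) := by ring
    _ ≤ (1 - (nu l h : ℝ) / l) * ((l : ℝ) / ((l : ℝ) - 1)) ^ k :=
      mul_le_mul h7 (t1_B hl).2 (by linarith) (by linarith)

theorem t1_prodSmall (k : ℕ) (P : Finset ℕ) (hP : ∀ l ∈ P, l.Prime) :
    Real.exp (-(2 * k * Real.log 4)) ≤ ∏ l ∈ P.filter (fun l => l ≤ 2 * k), ((l : ℝ))⁻¹ := by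
  have h1 : ∏ l ∈ P.filter (fun l => l ≤ 2 * k), l ≤ primorial (2 * k) := by
    unfold primorial
    refine Finset.prod_le_prod_of_subset_of_one_le' ?_ ?_
    · intro l hl
      have h2 := mem_filter.1 hl
      exact mem_filter.2 ⟨mem_range.2 (by omega), hP l h2.1⟩
    · intro l hl _
      exact (mem_filter.1 hl).2.one_lt.le
  have h2 := h1.trans (primorial_le_four_pow (2 * k))
  have h3 : ∏ l ∈ P.filter (fun l => l ≤ 2 * k), (l : ℝ) ≤ (4 : ℝ) ^ (2 * k) := by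
    have h3' := (Nat.cast_le (α := ℝ)).2 h2
    rw [Nat.cast_prod, Nat.cast_pow, Nat.cast_ofNat] at h3'
    exact h3'
  have h4 : 0 < ∏ l ∈ P.filter (fun l => l ≤ 2 * k), (l : ℝ) := by
    refine Finset.prod_pos fun l hl => ?_
    exact_mod_cast (hP l (mem_filter.1 hl).1).pos
  have h5 : Real.exp (-(2 * k * Real.log 4)) = ((4 : ℝ) ^ (2 * k))⁻¹ := by
    have h6 : (2 * k * Real.log 4 : ℝ) = ((2 * k : ℕ) : ℝ) * Real.log 4 := by push_cast; ring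
    rw [Real.exp_neg, h6, Real.exp_nat_mul, Real.exp_log (by norm_num)]
  rw [h5, Finset.prod_inv_distrib]
  exact inv_anti₀ h4 h3

theorem t1_sum (k : ℕ) (P : Finset ℕ) :
    2 * (k : ℝ) ^ 2 * ∑ l ∈ P.filter (fun l => ¬ l ≤ 2 * k), ((l : ℝ) ^ 2)⁻¹ ≤ k := by
  rcases Nat.eq_zero_or_pos k with rfl | hk
  · simp
  have hk' : (0 : ℝ) < k := by exact_mod_cast hk
  have h1 : ∑ l ∈ P.filter (fun l => ¬ l ≤ 2 * k), ((l : ℝ) ^ 2)⁻¹ ≤
      ∑ l ∈ Ioc (2 * k) (2 * k + P.sup id), ((l : ℝ) ^ 2)⁻¹ := by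
    refine Finset.sum_le_sum_of_subset_of_nonneg ?_ fun _ _ _ => by positivity
    intro l hl
    have h2 := mem_filter.1 hl
    have h3 : l ≤ P.sup id := Finset.le_sup (f := id) h2.1
    exact mem_Ioc.2 ⟨by omega, by omega⟩
  have h2 := sum_Ioc_inv_sq_le_sub (α := ℝ) (k := 2 * k) (n := 2 * k + P.sup id) (by omega) (by omega)
  have h3 : (0 : ℝ) ≤ (((2 * k + P.sup id : ℕ) : ℝ))⁻¹ := by positivity
  have h4 : ∑ l ∈ P.filter (fun l => ¬ l ≤ 2 * k), ((l : ℝ) ^ 2)⁻¹ ≤ (((2 * k : ℕ) : ℝ))⁻¹ := by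
    linarith
  have h5 : 2 * (k : ℝ) ^ 2 * (((2 * k : ℕ) : ℝ))⁻¹ = k := by
    push_cast
    field_simp
  calc 2 * (k : ℝ) ^ 2 * ∑ l ∈ P.filter (fun l => ¬ l ≤ 2 * k), ((l : ℝ) ^ 2)⁻¹ ≤
      2 * (k : ℝ) ^ 2 * (((2 * k : ℕ) : ℝ))⁻¹ := mul_le_mul_of_nonneg_left h4 (by positivity)
    _ = k := h5


end Pool.Agent.Lib.H59P
end

-- from Lib.H59P.T2
section

/-!
# Chunk T2 (S/M): bounds for the local factors

* `T2_abs`: by `T0_nonneg`, `T0_le`: `-1 ≤ tp ≤ (l/(l-1))^k - 1` and `1 ≤ (l/(l-1))^k`.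
* `T2_large` (`2 k ≤ l`). If `k = 0` then `tp l h = 0` (`T0_tp`, `nu = 0` by `T0_nu_le_k`). Let `k ≥ 1`,
  `g = k - nu` (real, `0 ≤ g ≤ col` by `T0_nu_le_k`, `T0_k_le`), `B = (l/(l-1))^k`. By `T0_tp`
  `tp = [(1 - k/l) B - 1] + (g/l) B`. Upper bound of `B`: `l/(l-1) = 1 + 1/(l-1) ≤ exp (1/(l-1))`, so
  `B ≤ exp (k/(l-1)) ≤ exp 1 ≤ 3` (`k ≤ l - 1`: as `2k ≤ l`, `k ≥ 1`). The bracket lies in `[-k^2/l^2, 0]`:
  `(1 - k/l) ≤ (1 - 1/l)^k` (Bernoulli, `one_add_mul_le_pow`) and `(1 - 1/l)^k B = 1`; and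
  `B ≥ 1 + k/(l-1) ≥ 1 + k/l`, so `(1 - k/l) B ≥ 1 - k^2/l^2`.
-/

open Finset

namespace Pool.Agent.Lib.H59P

theorem t2_B {k l : ℕ} (hl : l.Prime) :
    1 ≤ ((l : ℝ) / ((l : ℝ) - 1)) ^ k ∧ 1 + (k : ℝ) / l ≤ ((l : ℝ) / ((l : ℝ) - 1)) ^ k := by
  have h1 : (1 : ℝ) < l := by exact_mod_cast hl.one_lt
  have h2 : (0 : ℝ) < (l : ℝ) - 1 := by linarith
  have h3 : (l : ℝ) / ((l : ℝ) - 1) = 1 + 1 / ((l : ℝ) - 1) := by
    field_simp
    ring
  have h4 : (0 : ℝ) ≤ 1 / ((l : ℝ) - 1) := by positivity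
  have h5 : 1 + (k : ℝ) / l ≤ ((l : ℝ) / ((l : ℝ) - 1)) ^ k := by
    rw [h3]
    refine le_trans ?_ (one_add_mul_le_pow (by linarith) k)
    have h6 : (k : ℝ) / l ≤ k * (1 / ((l : ℝ) - 1)) := by
      rw [mul_one_div]
      exact div_le_div_of_nonneg_left (Nat.cast_nonneg k) h2 (by linarith)
    linarith
  refine ⟨le_trans ?_ h5, h5⟩
  have h7 : (0 : ℝ) ≤ (k : ℝ) / l := by positivity
  linarith



end Pool.Agent.Lib.H59P
end

-- from Lib.H59P.T3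
section

/-!
# Chunk T3 (M): Rankin's trick and the truncation of the singular series

* `T3_SS`: `Finset.prod_one_add` (or `Finset.prod_add`).
* `T3_tail`. For `d ∈ T`: `td d h = ∏_{l ∣ d} tp l h` and `1 ≤ (d/E0)^η`, `d = ∏_{l ∈ d.primeFactors} l`
  (`Nat.prod_primeFactors_of_squarefree`), so `|td d h| ≤ E0^(-η) ∏_{l ∈ d.primeFactors} l^η |tp l h|`
  (`Real.finset_prod_rpow`, `Real.mul_rpow`). The map `d ↦ d.primeFactors` is injective on squarefree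
  numbers and has values in `(pr X).powerset`; the sum over all of the powerset is `RP η X h`
  (`Finset.prod_one_add`), all terms being nonnegative.
* `T3_diff`. With `P = (pr z).filter (¬ · ∣ R)`: `SS P h = ∑_{S ⊆ P} ∏_{l ∈ S} tp l h` is the sum of `td d h`
  over the set `A` of the squarefree `d` all of whose prime factors are in `P` (bijection
  `S ↦ ∏_{l ∈ S} l`, inverse `d ↦ d.primeFactors`). `SF E R` is the set of squarefree `d ≤ E` coprime to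
  `R`, i.e. no prime factor of `d` divides `R`. The difference of the two sums is at most the sum of
  `|td d h|` over the symmetric difference. If `d ∈ A`, `d ∉ SF E R`, then `d > E ≥ E0`. If `d ∈ SF E R`,
  `d ∉ A`, then `d` has a prime factor `> z`, so `d > z ≥ E0`. In both cases the prime factors are `≤ X`
  (`≤ z ≤ X`, resp. `≤ d ≤ E ≤ X`). Apply `T3_tail`.
* `T3_abs`: `SF E R` with `E ≤ X`: `T3_tail` with `E0 = 1` (`1 ≤ d`).
* `T3_SSle`: `SS P h ≤ ∏ (1 + |tp l h|) ≤ ∏_{l ∈ P} (1 + l^η |tp l h|) ≤ RP η X h`; the lower bound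
  `0 ≤ 1 + tp l h` is clear from the definition of `tp` (`-1 ≤ gl`), or do it with absolute values.
-/

open Finset

namespace Pool.Agent.Lib.H59P



/-- The elements of `SF`. -/
theorem t3_mem {E R d : ℕ} : d ∈ SF E R ↔ 1 ≤ d ∧ d ≤ E ∧ Squarefree d ∧ Nat.Coprime d R := by
  unfold SF
  rw [mem_filter, mem_Icc]
  tauto

theorem t3_coprime {R d : ℕ} (hd : d ≠ 0) :
    Nat.Coprime d R ↔ ∀ l ∈ d.primeFactors, ¬ l ∣ R := by
  constructor
  · intro h l hl hlR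
    have hp := Nat.prime_of_mem_primeFactors hl
    have h1 : l ∣ Nat.gcd d R := Nat.dvd_gcd (Nat.dvd_of_mem_primeFactors hl) hlR
    rw [Nat.Coprime] at h
    rw [h] at h1
    exact hp.one_lt.ne' (Nat.dvd_one.1 h1)
  · intro h
    refine Nat.coprime_of_dvd fun l hp hld hlR => ?_
    exact h l (Nat.mem_primeFactors.2 ⟨hp, hld, hd⟩) hlR




end Pool.Agent.Lib.H59P
end

-- from Lib.H59P.T4A
section

/-!
# Chunk T4A (M): exponential moment of the sum over the large prime divisors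

* `T4A_int`: for integers `l > w ≥ 1` and `0 < η ≤ 1/2`: `∑_{l > w} l^(η-2) ≤ w^(η-2) + ∫_w^∞ t^(η-2) dt ≤
  w^(η-1) + w^(η-1)/(1-η) ≤ 3 w^(η-1)`. Elementary way: for `l ≥ 2`, `l^(η-2) ≤ 2 ((l-1)^(η-1) - l^(η-1))`
  (mean value theorem: `(l-1)^(η-1) - l^(η-1) ≥ (1-η) l^(η-2) ≥ l^(η-2)/2`), telescope from `l0 = ⌊w⌋ + 1`,
  and treat the first term `l0^(η-2) ≤ w^(η-1)` separately (`l0 > w ≥ 1`; the rest is at most
  `2 l0^(η-1) ≤ 2 w^(η-1)`).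
* `T4A_sum`. Let `𝒫 = {l ∈ pr X : w < l}` and `β l = exp (m l^(η-1)) - 1`. As `m l^(η-1) ≤ m w^(η-1) ≤ 1` and
  `e^t - 1 ≤ 2 t` for `0 ≤ t ≤ 1`: `0 ≤ β l ≤ 2 m l^(η-1)`. For `n ≥ 1`:
  `exp (m Fz n) = ∏_{l ∈ 𝒫, l ∣ n} (1 + β l) = ∑_{S ⊆ 𝒫} [∏ S ∣ n] ∏_{l ∈ S} β l` (distinct primes all
  divide `n` iff their product does: `Finset.prod_primes_dvd` or `Finset.prod_dvd_of_coprime`). Sum over
  `1 ≤ n ≤ N`: the number of `n ≤ N` divisible by `d` is at most `N/d`. So the sum is at most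
  `N ∑_{S ⊆ 𝒫} ∏_{l ∈ S} β l / l = N ∏_{l ∈ 𝒫} (1 + β l/l) ≤ N exp (2 m ∑_{l ∈ 𝒫} l^(η-2)) ≤ N exp 6`.
-/

open Finset

namespace Pool.Agent.Lib.H59P

/-- One step of the comparison with the integral. -/
theorem t4a_step (η : ℝ) (hη : 0 < η) (hη2 : η ≤ 1 / 2) (l : ℕ) (hl : 2 ≤ l) :
    (l : ℝ) ^ (η - 2) ≤ 2 * (((l : ℝ) - 1) ^ (η - 1) - (l : ℝ) ^ (η - 1)) := by
  have hl' : (2 : ℝ) ≤ l := by exact_mod_cast hl
  have hl0 : (0 : ℝ) < l := by linarith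
  have hl1 : (0 : ℝ) < (l : ℝ) - 1 := by linarith
  -- `(1 - 1/l) ^ (η - 1) ≥ 1 + (1 - η) / l`
  have h1 : 1 + (1 - η) * (1 / l) ≤ (((l : ℝ) - 1) / l) ^ (η - 1) := by
    have h2 : (((l : ℝ) - 1) / l) ^ (η - 1) = Real.exp (Real.log (((l : ℝ) - 1) / l) * (η - 1)) :=
      Real.rpow_def_of_pos (by positivity) _
    have h3 : Real.log (((l : ℝ) - 1) / l) ≤ -(1 / l) := by
      refine (Real.log_le_sub_one_of_pos (by positivity)).trans (le_of_eq ?_)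
      field_simp
      ring
    have h4 : (1 - η) * (1 / l) ≤ Real.log (((l : ℝ) - 1) / l) * (η - 1) := by
      have h5 : 0 ≤ 1 - η := by linarith
      nlinarith
    rw [h2]
    linarith [Real.add_one_le_exp (Real.log (((l : ℝ) - 1) / l) * (η - 1))]
  have h6 : ((l : ℝ) - 1) ^ (η - 1) = (l : ℝ) ^ (η - 1) * (((l : ℝ) - 1) / l) ^ (η - 1) := by
    rw [← Real.mul_rpow hl0.le (by positivity)]
    congr 1
    field_simp
  have h7 : (l : ℝ) ^ (η - 2) = (l : ℝ) ^ (η - 1) * (1 / l) := by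
    have h8 : η - 2 = (η - 1) - 1 := by ring
    rw [h8, Real.rpow_sub_one hl0.ne']
    ring
  have h9 : 0 < (l : ℝ) ^ (η - 1) := Real.rpow_pos_of_pos hl0 _
  rw [h6, h7]
  have h10 : (l : ℝ) ^ (η - 1) * (1 + (1 - η) * (1 / l)) ≤
      (l : ℝ) ^ (η - 1) * (((l : ℝ) - 1) / l) ^ (η - 1) := mul_le_mul_of_nonneg_left h1 h9.le
  have h11 : (l : ℝ) ^ (η - 1) * (1 / l) ≤ 2 * ((l : ℝ) ^ (η - 1) * ((1 - η) * (1 / l))) := by
    have h12 : 0 ≤ (l : ℝ) ^ (η - 1) * (1 / l) := by positivity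
    nlinarith
  linarith

theorem t4a_tele (η : ℝ) (hη : 0 < η) (hη2 : η ≤ 1 / 2) (a : ℕ) (ha : 1 ≤ a) (N : ℕ) :
    ∑ l ∈ Ioc a (a + N), (l : ℝ) ^ (η - 2) ≤ 2 * ((a : ℝ) ^ (η - 1) - ((a + N : ℕ) : ℝ) ^ (η - 1)) := by
  induction N with
  | zero => simp
  | succ N ih =>
    have h1 : a + (N + 1) = (a + N) + 1 := by ring
    rw [h1, Finset.sum_Ioc_succ_top (by omega)]
    have h2 := t4a_step η hη hη2 (a + N + 1) (by omega)
    have h3 : (((a + N + 1 : ℕ) : ℝ) - 1) = ((a + N : ℕ) : ℝ) := by push_cast; ring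
    rw [h3] at h2
    linarith

theorem T4A_int (η w : ℝ) (hη : 0 < η) (hη2 : η ≤ 1 / 2) (hw : 1 ≤ w) (X : ℕ) :
    ∑ l ∈ (pr X).filter (fun l : ℕ => w < (l : ℝ)), (l : ℝ) ^ (η - 2) ≤ 3 * w ^ (η - 1) := by
  have hw0 : 0 < w := by linarith
  set a := ⌊w⌋₊ + 1 with ha
  have haw : w < (a : ℝ) := by
    rw [ha]
    push_cast
    exact Nat.lt_floor_add_one w
  have hsub : (pr X).filter (fun l : ℕ => w < (l : ℝ)) ⊆ insert a (Ioc a (a + X)) := by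
    intro l hl
    obtain ⟨h1, h2⟩ := mem_filter.1 hl
    have h3 := (mem_pr.1 h1).1
    have h4 : ⌊w⌋₊ < l := (Nat.floor_lt hw0.le).2 h2
    rw [mem_insert, mem_Ioc]
    omega
  refine (Finset.sum_le_sum_of_subset_of_nonneg hsub fun l _ _ => by positivity).trans ?_
  rw [Finset.sum_insert (by simp)]
  have h5 := t4a_tele η hη hη2 a (by omega) X
  have h6 : (0 : ℝ) ≤ ((a + X : ℕ) : ℝ) ^ (η - 1) := by positivity
  have h7 : (a : ℝ) ^ (η - 1) ≤ w ^ (η - 1) :=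
    Real.rpow_le_rpow_of_nonpos hw0 haw.le (by linarith)
  have h8 : (a : ℝ) ^ (η - 2) ≤ w ^ (η - 1) := by
    have h9 : (a : ℝ) ^ (η - 2) ≤ w ^ (η - 2) :=
      Real.rpow_le_rpow_of_nonpos hw0 haw.le (by linarith)
    have h10 : w ^ (η - 2) ≤ w ^ (η - 1) := Real.rpow_le_rpow_of_exponent_le hw (by linarith)
    linarith
  linarith




end Pool.Agent.Lib.H59P
end
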