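import Pool.Agent.Lib.H59M.M2.M022
import Pool.Agent.Lib.H59M.M2.M078

/-! Merged copies (to shorten the build) of Lib.H59T.U1, Lib.H59T.U3. -/

-- from Lib.H59T.U1
section

/-!
# Project H59T, chunk U1 (M): the four-point sums of a primitive character of prime power modulus
-/

open Finset

namespace Pool.Agent.Lib.H59T

/-- the change of variables -/
def u1_equiv (R : Type*) [CommRing R] : R × R × R × R ≃ R × R × R × R where
  toFun x := (x.1, x.1 + x.2.2.2, x.2.1 - x.1, x.2.1 - x.1 + x.2.2.1)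
  invFun x := (x.1, x.1 + x.2.2.1, x.2.2.2 - x.2.2.1, x.2.1 - x.1)
  left_inv x := by
    obtain ⟨z, s, A, B⟩ := x
    simp only [Prod.mk.injEq, true_and]
    refine ⟨by ring, by ring, by ring⟩
  right_inv x := by
    obtain ⟨z, s, A, B⟩ := x
    simp only [Prod.mk.injEq, true_and]
    refine ⟨by ring, by ring, by ring⟩

/-- averaging over the shift: `‖U4‖` is at most the number of bad `s` -/
theorem u1_norm (l a m n : ℕ) (hl : l.Prime) (ha : a = m + n) (hn : 1 ≤ n) (hmn : n ≤ m) [NeZero (l ^ a)]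
    (χ : DirichletCharacter ℂ (l ^ a)) (hχ : χ.IsPrimitive) (A B : ZMod (l ^ a)) :
    ‖U4 χ A B‖ ≤ (((univ : Finset (ZMod (l ^ a))).filter
      (fun s => l ^ n ∣ (2 * (2 * s + A + B) * A * B).val)).card : ℝ) := by
  set T : ZMod (l ^ a) → ℂ := fun s => χ s * star (χ (s + A)) * star (χ (s + B)) * χ (s + A + B) with hT
  have hχ1 : ∀ s, ‖χ s‖ ≤ 1 := fun s => DirichletCharacter.norm_le_one χ s
  have hTn : ∀ s, ‖T s‖ ≤ 1 := by
    intro s
    simp only [hT, norm_mul, norm_star]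
    exact mul_le_one₀ (mul_le_one₀ (mul_le_one₀ (hχ1 _) (norm_nonneg _) (hχ1 _)) (norm_nonneg _) (hχ1 _))
      (norm_nonneg _) (hχ1 _)
  have hq0 : (0 : ℝ) < ((l ^ a : ℕ) : ℝ) := by exact_mod_cast Nat.pos_of_ne_zero (NeZero.ne (l ^ a))
  have h1 : ∀ v : ZMod (l ^ a), ∑ s, T (s + 2 * (l : ZMod (l ^ a)) ^ m * v) = U4 χ A B := by
    intro v
    rw [← Equiv.sum_comp (Equiv.addRight (-(2 * (l : ZMod (l ^ a)) ^ m * v)))]
    unfold U4
    refine Finset.sum_congr rfl fun s _ => ?_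
    simp only [Equiv.coe_addRight, neg_add_cancel_right, hT]
  have h2 : ((l ^ a : ℕ) : ℂ) * U4 χ A B = ∑ s, ∑ v : ZMod (l ^ a), T (s + 2 * (l : ZMod (l ^ a)) ^ m * v) := by
    rw [Finset.sum_comm, Finset.sum_congr rfl fun v _ => h1 v, Finset.sum_const, Finset.card_univ, ZMod.card,
      nsmul_eq_mul]
  have h3 : ∀ s : ZMod (l ^ a), ¬ l ^ n ∣ (2 * (2 * s + A + B) * A * B).val →
      ∑ v : ZMod (l ^ a), T (s + 2 * (l : ZMod (l ^ a)) ^ m * v) = 0 := by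
    intro s hs
    have e0 : 2 * (2 * s + A + B) * A * B = 2 * (s + (s + B) + 0 + A) * (s - (s + B)) * (0 - A) := by ring
    rw [e0] at hs
    have h4 := G3 l a m n hl ha hn hmn χ hχ s (s + B) 0 A hs
    rw [← h4]
    refine Finset.sum_congr rfl fun v _ => ?_
    simp only [hT]
    have a1 : s + 0 + 2 * (l : ZMod (l ^ a)) ^ m * v = s + 2 * (l : ZMod (l ^ a)) ^ m * v := by ring
    have a2 : s + B + 0 + 2 * (l : ZMod (l ^ a)) ^ m * v = s + 2 * (l : ZMod (l ^ a)) ^ m * v + B := by ring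
    have a3 : s + A + 2 * (l : ZMod (l ^ a)) ^ m * v = s + 2 * (l : ZMod (l ^ a)) ^ m * v + A := by ring
    have a4 : s + B + A + 2 * (l : ZMod (l ^ a)) ^ m * v = s + 2 * (l : ZMod (l ^ a)) ^ m * v + A + B := by ring
    rw [a1, a2, a3, a4]
    ring
  have h5 : ((l ^ a : ℕ) : ℝ) * ‖U4 χ A B‖ ≤ ∑ s : ZMod (l ^ a),
      (if l ^ n ∣ (2 * (2 * s + A + B) * A * B).val then ((l ^ a : ℕ) : ℝ) else 0) := by
    have e1 : ((l ^ a : ℕ) : ℝ) * ‖U4 χ A B‖ = ‖((l ^ a : ℕ) : ℂ) * U4 χ A B‖ := by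
      rw [norm_mul, Complex.norm_natCast]
    rw [e1, h2]
    refine (norm_sum_le _ _).trans (Finset.sum_le_sum fun s _ => ?_)
    split_ifs with hp
    · refine (norm_sum_le _ _).trans ?_
      calc ∑ v : ZMod (l ^ a), ‖T (s + 2 * (l : ZMod (l ^ a)) ^ m * v)‖ ≤ ∑ _v : ZMod (l ^ a), (1 : ℝ) :=
            Finset.sum_le_sum fun v _ => hTn _
        _ = ((l ^ a : ℕ) : ℝ) := by rw [Finset.sum_const, Finset.card_univ, ZMod.card, nsmul_eq_mul, mul_one]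
    · rw [h3 s hp, norm_zero]
  rw [← Finset.sum_filter, Finset.sum_const, nsmul_eq_mul, mul_comm] at h5
  exact le_of_mul_le_mul_right h5 hq0

/-- Proof. `N = l^a`, `n = a/2`, `m = a - n` (`2 m ≥ a`). In `U4 χ A B` replace `s` by `s + l^m v` and sum over `v`: if one of the four
arguments `s, s+A, s+B, s+A+B` is not a unit the term is `0` for all `v`; otherwise the factor is
`χ(1 + l^m (K v))`, `K = s⁻¹ - (s+A)⁻¹ - (s+B)⁻¹ + (s+A+B)⁻¹ = u A B (2s + A + B)` with `u` a unit (`G2_add`, `star χ = χ⁻¹` on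
units; see `g3_unit`, `g3_star` in `G3.lean`), and the sum over `v` is `0` unless `l^n ∣ (A B (2s+A+B)).val` (`G2_mean`; a unit
does not change divisibility). So `‖U4 χ A B‖` is at most the number of `s` with this property, and at most `N`; hence
`∑ ‖U4‖² ≤ N · #{(s,A,B) : l^n ∣ A B (2s+A+B)}`. Each such triple gives `N` quadruples `(z1, z2, y1, y2)` with
`s = z1 + y1`, `B = z2 - z1`, `A = y2 - y1` (`z1` free), for which `l^n` divides `2 (z1+z2+y1+y2)(z1-z2)(y1-y2)`: `G4` gives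
`#triples ≤ 6 N³ l^(-n/3)`, and `n ≥ a/3`. -/
theorem U1_pow (l a : ℕ) (hl : l.Prime) (ha : 2 ≤ a) [NeZero (l ^ a)] (χ : DirichletCharacter ℂ (l ^ a))
    (hχ : χ.IsPrimitive) :
    ∑ A : ZMod (l ^ a), ∑ B : ZMod (l ^ a), ‖U4 χ A B‖ ^ 2 ≤
      6 * ((l ^ a : ℕ) : ℝ) ^ 4 * (l : ℝ) ^ (-(a / 9 : ℝ)) := by
  classical
  obtain ⟨n, hn⟩ : ∃ n : ℕ, n = a / 2 := ⟨_, rfl⟩
  have hχ1 : ∀ s, ‖χ s‖ ≤ 1 := fun s => DirichletCharacter.norm_le_one χ s
  have hN : ∀ A B, ‖U4 χ A B‖ ≤ ((l ^ a : ℕ) : ℝ) := by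
    intro A B
    unfold U4
    refine (norm_sum_le _ _).trans ?_
    calc _ ≤ ∑ _v : ZMod (l ^ a), (1 : ℝ) := Finset.sum_le_sum fun s _ => by
            simp only [norm_mul, norm_star]
            exact mul_le_one₀ (mul_le_one₀ (mul_le_one₀ (hχ1 _) (norm_nonneg _) (hχ1 _)) (norm_nonneg _) (hχ1 _))
              (norm_nonneg _) (hχ1 _)
      _ = ((l ^ a : ℕ) : ℝ) := by rw [Finset.sum_const, Finset.card_univ, ZMod.card, nsmul_eq_mul, mul_one]
  have h1 : ∀ A B : ZMod (l ^ a), ‖U4 χ A B‖ ^ 2 ≤ ∑ _z : ZMod (l ^ a), ∑ s : ZMod (l ^ a),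
      (if l ^ n ∣ (2 * (2 * s + A + B) * A * B).val then (1 : ℝ) else 0) := by
    intro A B
    have h2 := u1_norm l a (a - n) n hl (by omega) (by omega) (by omega) χ hχ A B
    rw [Finset.sum_const, Finset.card_univ, ZMod.card, nsmul_eq_mul, ← Finset.sum_filter, Finset.sum_const,
      nsmul_eq_mul, mul_one, sq]
    exact mul_le_mul (hN A B) h2 (norm_nonneg _) (by positivity)
  have h3 : ∑ A : ZMod (l ^ a), ∑ B : ZMod (l ^ a), ‖U4 χ A B‖ ^ 2 ≤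
      (((univ : Finset (ZMod (l ^ a) × ZMod (l ^ a) × ZMod (l ^ a) × ZMod (l ^ a))).filter
      (fun x => l ^ n ∣ (2 * (x.1 + x.2.1 + x.2.2.1 + x.2.2.2) * (x.1 - x.2.1) *
        (x.2.2.1 - x.2.2.2)).val)).card : ℝ) := by
    have e1 : (((univ : Finset (ZMod (l ^ a) × ZMod (l ^ a) × ZMod (l ^ a) × ZMod (l ^ a))).filter
      (fun x => l ^ n ∣ (2 * (x.1 + x.2.1 + x.2.2.1 + x.2.2.2) * (x.1 - x.2.1) *
        (x.2.2.1 - x.2.2.2)).val)).card : ℝ) =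
        ∑ x : ZMod (l ^ a) × ZMod (l ^ a) × ZMod (l ^ a) × ZMod (l ^ a),
          (if l ^ n ∣ (2 * (x.1 + x.2.1 + x.2.2.1 + x.2.2.2) * (x.1 - x.2.1) *
        (x.2.2.1 - x.2.2.2)).val then (1 : ℝ) else 0) := by
      rw [← Finset.sum_filter, Finset.sum_const, nsmul_eq_mul, mul_one]
    rw [e1, ← Equiv.sum_comp (u1_equiv (ZMod (l ^ a)))]
    have e2 : ∑ x : ZMod (l ^ a) × ZMod (l ^ a) × ZMod (l ^ a) × ZMod (l ^ a),
        (if l ^ n ∣ (2 * ((u1_equiv (ZMod (l ^ a)) x).1 + (u1_equiv (ZMod (l ^ a)) x).2.1 +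
          (u1_equiv (ZMod (l ^ a)) x).2.2.1 + (u1_equiv (ZMod (l ^ a)) x).2.2.2) *
          ((u1_equiv (ZMod (l ^ a)) x).1 - (u1_equiv (ZMod (l ^ a)) x).2.1) *
          ((u1_equiv (ZMod (l ^ a)) x).2.2.1 - (u1_equiv (ZMod (l ^ a)) x).2.2.2)).val then (1 : ℝ) else 0) =
        ∑ A : ZMod (l ^ a), ∑ B : ZMod (l ^ a), ∑ _z : ZMod (l ^ a), ∑ s : ZMod (l ^ a),
          (if l ^ n ∣ (2 * (2 * s + A + B) * A * B).val then (1 : ℝ) else 0) := by
      rw [Fintype.sum_prod_type]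
      have e3 : ∀ z : ZMod (l ^ a), ∑ y : ZMod (l ^ a) × ZMod (l ^ a) × ZMod (l ^ a),
        (if l ^ n ∣ (2 * ((u1_equiv (ZMod (l ^ a)) (z, y)).1 + (u1_equiv (ZMod (l ^ a)) (z, y)).2.1 +
          (u1_equiv (ZMod (l ^ a)) (z, y)).2.2.1 + (u1_equiv (ZMod (l ^ a)) (z, y)).2.2.2) *
          ((u1_equiv (ZMod (l ^ a)) (z, y)).1 - (u1_equiv (ZMod (l ^ a)) (z, y)).2.1) *
          ((u1_equiv (ZMod (l ^ a)) (z, y)).2.2.1 - (u1_equiv (ZMod (l ^ a)) (z, y)).2.2.2)).val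
            then (1 : ℝ) else 0) =
          ∑ A : ZMod (l ^ a), ∑ B : ZMod (l ^ a), ∑ s : ZMod (l ^ a),
          (if l ^ n ∣ (2 * (2 * s + A + B) * A * B).val then (1 : ℝ) else 0) := by
        intro z
        rw [Fintype.sum_prod_type, Finset.sum_comm' (t' := (univ : Finset (ZMod (l ^ a) × ZMod (l ^ a))))
          (s' := fun _ => (univ : Finset (ZMod (l ^ a)))) (by simp), Fintype.sum_prod_type]
        refine Finset.sum_congr rfl fun A _ => Finset.sum_congr rfl fun B _ =>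
          Finset.sum_congr rfl fun s _ => ?_
        have e4 : 2 * ((u1_equiv (ZMod (l ^ a)) (z, s, A, B)).1 + (u1_equiv (ZMod (l ^ a)) (z, s, A, B)).2.1 +
          (u1_equiv (ZMod (l ^ a)) (z, s, A, B)).2.2.1 + (u1_equiv (ZMod (l ^ a)) (z, s, A, B)).2.2.2) *
          ((u1_equiv (ZMod (l ^ a)) (z, s, A, B)).1 - (u1_equiv (ZMod (l ^ a)) (z, s, A, B)).2.1) *
          ((u1_equiv (ZMod (l ^ a)) (z, s, A, B)).2.2.1 - (u1_equiv (ZMod (l ^ a)) (z, s, A, B)).2.2.2) =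
            2 * (2 * s + A + B) * A * B := by
          simp only [u1_equiv, Equiv.coe_fn_mk]
          ring
        rw [e4]
      rw [Finset.sum_congr rfl fun z _ => e3 z, Finset.sum_comm]
      exact Finset.sum_congr rfl fun A _ => Finset.sum_comm
    rw [e2]
    exact Finset.sum_le_sum fun A _ => Finset.sum_le_sum fun B _ => h1 A B
  refine h3.trans ((G4 l a n hl (by omega)).trans ?_)
  refine mul_le_mul_of_nonneg_left ?_ (by positivity)
  refine Real.rpow_le_rpow_of_exponent_le (by exact_mod_cast hl.one_lt.le) ?_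
  have h2 : (a : ℝ) ≤ 3 * n := by exact_mod_cast (by omega : a ≤ 3 * n)
  linarith

theorem u1_prime (q l : ℕ) (hql : q = l) (hl : l.Prime) [NeZero q] (χ : DirichletCharacter ℂ q)
    (hχ : χ.IsPrimitive) : ∑ A : ZMod q, ∑ B : ZMod q, ‖U4 χ A B‖ ^ 2 ≤ 13 * (l : ℝ) ^ 3 := by
  subst hql
  have := Fact.mk hl
  have h1 : χ ≠ 1 := by
    intro h
    rw [h, DirichletCharacter.isPrimitive_def, DirichletCharacter.conductor_one] at hχ
    exact hl.one_lt.ne hχ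
  have h2 : q ≠ 2 := by
    intro h
    subst h
    refine h1 (MulChar.ext fun u => ?_)
    have hu : u = 1 := by
      apply Units.ext
      have h3 : (u : ZMod 2) ≠ 0 := u.ne_zero
      exact g5_two _ h3
    rw [hu]
    simp
  have h3 := K4 q h2 χ h1
  exact h3

/-- Proof. `a ≥ 2`: `U1_pow`. `a = 1`: `l ≠ 2`, `χ ≠ 1` as in `G5` (`G5.lean`), `K4`: `13 l³ ≤ 13 l⁴ l^(-1/9)`. `UU χ` and the sum
of the `‖U4 χ A B‖²` are the same by definition. -/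
theorem U1_all (l a : ℕ) (hl : l.Prime) (ha : 1 ≤ a) [NeZero (l ^ a)] (χ : DirichletCharacter ℂ (l ^ a))
    (hχ : χ.IsPrimitive) : UU (fun s => χ s) ≤ 13 * ((l ^ a : ℕ) : ℝ) ^ 4 * (l : ℝ) ^ (-(a / 9 : ℝ)) := by
  have e0 : UU (fun s => χ s) = ∑ A : ZMod (l ^ a), ∑ B : ZMod (l ^ a), ‖U4 χ A B‖ ^ 2 := rfl
  rw [e0]
  have hl1 : (1 : ℝ) ≤ l := by exact_mod_cast hl.one_lt.le
  have hl0 : (0 : ℝ) < l := by linarith
  rcases Nat.lt_or_ge a 2 with h | h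
  · have ha1 : a = 1 := by omega
    subst ha1
    refine (u1_prime (l ^ 1) l (pow_one l) hl χ hχ).trans ?_
    have e1 : ((l ^ 1 : ℕ) : ℝ) ^ 4 * (l : ℝ) ^ (-(((1 : ℕ) : ℝ) / 9 : ℝ)) = (l : ℝ) ^ (4 - 1 / 9 : ℝ) := by
      rw [pow_one, ← Real.rpow_natCast, ← Real.rpow_add hl0]
      congr 1
      push_cast
      ring
    rw [mul_assoc, e1]
    have e2 : (l : ℝ) ^ (3 : ℝ) ≤ (l : ℝ) ^ (4 - 1 / 9 : ℝ) :=
      Real.rpow_le_rpow_of_exponent_le hl1 (by norm_num)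
    have e3 : (l : ℝ) ^ (3 : ℝ) = (l : ℝ) ^ 3 := by
      rw [← Real.rpow_natCast]
      norm_num
    rw [e3] at e2
    linarith
  · refine (U1_pow l a hl h χ hχ).trans ?_
    have h4 : 0 ≤ ((l ^ a : ℕ) : ℝ) ^ 4 * (l : ℝ) ^ (-(a / 9 : ℝ)) := by positivity
    nlinarith

end Pool.Agent.Lib.H59T
end

-- from Lib.H59T.U3
section

/-!
# Project H59T, chunk U3 (M): Gowers-Cauchy-Schwarz on `ZMod N`
-/

open Finset

namespace Pool.Agent.Lib.H59T

/-- the square of a sum, by differences -/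
theorem u3_sq (N : ℕ) [NeZero N] (g : ZMod N → ℂ) :
    (((‖∑ z : ZMod N, g z‖ ^ 2 : ℝ)) : ℂ) = ∑ h : ZMod N, ∑ z : ZMod N, g z * star (g (z + h)) := by
  have e2 : (((‖∑ z : ZMod N, g z‖ ^ 2 : ℝ)) : ℂ) = (∑ z : ZMod N, g z) * star (∑ z : ZMod N, g z) := by
    rw [Complex.star_def, Complex.mul_conj, Complex.normSq_eq_norm_sq]
  rw [e2, star_sum, Finset.sum_mul_sum, Finset.sum_comm]
  have e3 : ∀ z : ZMod N, ∑ h : ZMod N, g z * star (g (z + h)) = ∑ w : ZMod N, g z * star (g w) := by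
    intro z
    rw [← Equiv.sum_comp (Equiv.addLeft z) (fun w => g z * star (g w))]
    rfl
  rw [Finset.sum_comm, Finset.sum_comm (f := fun h z => g z * star (g (z + h)))]
  exact (Finset.sum_congr rfl fun z _ => e3 z).symm

/-- Cauchy-Schwarz over pairs -/
theorem u3_cs (N : ℕ) [NeZero N] (b : ZMod N → ZMod N → ℝ) :
    (∑ h : ZMod N, ∑ k : ZMod N, b h k) ^ 2 ≤ (N : ℝ) ^ 2 * ∑ h : ZMod N, ∑ k : ZMod N, b h k ^ 2 := by
  have h3 := sq_sum_le_card_mul_sum_sq (s := (univ : Finset (ZMod N × ZMod N)))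
    (f := fun p => b p.1 p.2)
  rw [Finset.card_univ, Fintype.card_prod, ZMod.card, Fintype.sum_prod_type, Fintype.sum_prod_type] at h3
  refine h3.trans (le_of_eq ?_)
  push_cast
  ring

/-- Proof. Put `Δ_h f(z) = f(z) star f(z+h)`. Expanding the squares, the left side `X` is
`∑_{h,z,y,y'} Δ_h f0(z) Δ_h f1(z+y) Δ_h f2(z+y') Δ_h f3(z+y+y')`, so
`X ≤ ∑_{h,z,y'} ‖∑_y Δ_h f1(z+y) Δ_h f3(z+y+y')‖ = N ∑_{h,y'} ‖∑_u Δ_h f1(u) Δ_h f3(u+y')‖ ≤ N (N² S)^(1/2)` with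
`S = ∑_{h,y'} ‖∑_u Δ_h f1(u) Δ_h f3(u+y')‖² = ∑_{h,k} ∑_u Δ_k Δ_h f1(u) ∑_{y'} Δ_k Δ_h f3(u+y')
≤ N ∑_{h,k} ‖∑_s Δ_k Δ_h f3(s)‖ ≤ N · N (UU f3)^(1/2)`. So `X ≤ N² (N² (UU f3)^(1/2))^(1/2)`. -/
theorem U3_top (N : ℕ) [NeZero N] (f0 f1 f2 f3 : ZMod N → ℂ) (h0 : ∀ t, ‖f0 t‖ ≤ 1)
    (h1 : ∀ t, ‖f1 t‖ ≤ 1) (h2 : ∀ t, ‖f2 t‖ ≤ 1) (h3 : ∀ t, ‖f3 t‖ ≤ 1) :
    ∑ y : ZMod N, ∑ y' : ZMod N, ‖∑ z : ZMod N, f0 z * f1 (z + y) * f2 (z + y') * f3 (z + y + y')‖ ^ 2 ≤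
      (N : ℝ) ^ 3 * (UU f3) ^ (1 / 4 : ℝ) := by
  have hN0 : (0 : ℝ) < N := by exact_mod_cast Nat.pos_of_ne_zero (NeZero.ne N)
  set D : (ZMod N → ℂ) → ZMod N → ZMod N → ℂ := fun f h z => f z * star (f (z + h)) with hD
  have hDn : ∀ f : ZMod N → ℂ, (∀ t, ‖f t‖ ≤ 1) → ∀ h z, ‖D f h z‖ ≤ 1 := by
    intro f hf h z
    simp only [hD, norm_mul, norm_star]
    exact mul_le_one₀ (hf _) (norm_nonneg _) (hf _)
  set X : ℝ := ∑ y : ZMod N, ∑ y' : ZMod N,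
    ‖∑ z : ZMod N, f0 z * f1 (z + y) * f2 (z + y') * f3 (z + y + y')‖ ^ 2 with hX
  have hX0 : 0 ≤ X := Finset.sum_nonneg fun _ _ => Finset.sum_nonneg fun _ _ => by positivity
  set C : ZMod N → ZMod N → ℂ := fun h y' => ∑ u : ZMod N, D f1 h u * D f3 h (u + y') with hC
  have s1 : (X : ℂ) = ∑ h : ZMod N, ∑ z : ZMod N, ∑ y' : ZMod N, D f0 h z * D f2 h (z + y') * C h y' := by
    have e1 : ∀ h z y' : ZMod N, C h y' = ∑ y : ZMod N, D f1 h (z + y) * D f3 h (z + y + y') := by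
      intro h z y'
      simp only [hC]
      rw [← Equiv.sum_comp (Equiv.addLeft z)]
      rfl
    have e2 : (X : ℂ) = ∑ y : ZMod N, ∑ y' : ZMod N, ∑ h : ZMod N, ∑ z : ZMod N,
        D f0 h z * D f2 h (z + y') * (D f1 h (z + y) * D f3 h (z + y + y')) := by
      rw [hX, Complex.ofReal_sum]
      refine Finset.sum_congr rfl fun y _ => ?_
      rw [Complex.ofReal_sum]
      refine Finset.sum_congr rfl fun y' _ => ?_
      rw [u3_sq]
      refine Finset.sum_congr rfl fun h _ => Finset.sum_congr rfl fun z _ => ?_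
      simp only [hD, star_mul']
      have a1 : z + h + y = z + y + h := by ring
      have a2 : z + h + y' = z + y' + h := by ring
      have a3 : z + y + h + y' = z + y + y' + h := by ring
      rw [a1, a2, a3]
      ring
    rw [e2]
    have e3 : ∀ y : ZMod N, ∑ y' : ZMod N, ∑ h : ZMod N, ∑ z : ZMod N,
        D f0 h z * D f2 h (z + y') * (D f1 h (z + y) * D f3 h (z + y + y')) =
        ∑ h : ZMod N, ∑ z : ZMod N, ∑ y' : ZMod N,
        D f0 h z * D f2 h (z + y') * (D f1 h (z + y) * D f3 h (z + y + y')) := by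
      intro y
      rw [Finset.sum_comm]
      exact Finset.sum_congr rfl fun h _ => Finset.sum_comm
    rw [Finset.sum_congr rfl fun y _ => e3 y, Finset.sum_comm]
    refine Finset.sum_congr rfl fun h _ => ?_
    rw [Finset.sum_comm]
    refine Finset.sum_congr rfl fun z _ => ?_
    rw [Finset.sum_comm]
    refine Finset.sum_congr rfl fun y' _ => ?_
    rw [e1 h z y', Finset.mul_sum]
  have s2 : X ≤ N * ∑ h : ZMod N, ∑ y' : ZMod N, ‖C h y'‖ := by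
    have e1 : X = ‖(X : ℂ)‖ := by rw [Complex.norm_real, Real.norm_of_nonneg hX0]
    rw [e1, s1, Finset.mul_sum]
    refine (norm_sum_le _ _).trans (Finset.sum_le_sum fun h _ => ?_)
    refine (norm_sum_le _ _).trans ?_
    calc _ ≤ ∑ _z : ZMod N, ∑ y' : ZMod N, ‖C h y'‖ := by
          refine Finset.sum_le_sum fun z _ => (norm_sum_le _ _).trans (Finset.sum_le_sum fun y' _ => ?_)
          rw [norm_mul, norm_mul]
          have e4 : ‖D f0 h z‖ * ‖D f2 h (z + y')‖ ≤ 1 :=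
            mul_le_one₀ (hDn f0 h0 h z) (norm_nonneg _) (hDn f2 h2 h _)
          calc _ ≤ 1 * ‖C h y'‖ := mul_le_mul_of_nonneg_right e4 (norm_nonneg _)
            _ = ‖C h y'‖ := one_mul _
      _ = N * ∑ y' : ZMod N, ‖C h y'‖ := by rw [Finset.sum_const, Finset.card_univ, ZMod.card, nsmul_eq_mul]
  set S : ℝ := ∑ h : ZMod N, ∑ y' : ZMod N, ‖C h y'‖ ^ 2 with hS
  have hS0 : 0 ≤ S := Finset.sum_nonneg fun _ _ => Finset.sum_nonneg fun _ _ => by positivity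
  set E : ZMod N → ZMod N → ℂ := fun h k =>
    ∑ s : ZMod N, f3 s * star (f3 (s + h)) * star (f3 (s + k)) * f3 (s + h + k) with hE
  have s3 : (S : ℂ) = ∑ h : ZMod N, ∑ k : ZMod N, (∑ u : ZMod N, D f1 h u * star (D f1 h (u + k))) * E h k := by
    rw [hS, Complex.ofReal_sum]
    refine Finset.sum_congr rfl fun h _ => ?_
    rw [Complex.ofReal_sum]
    have e1 : ∀ y' : ZMod N, ((‖C h y'‖ ^ 2 : ℝ) : ℂ) = ∑ k : ZMod N, ∑ u : ZMod N,
        (D f1 h u * star (D f1 h (u + k))) * (D f3 h (u + y') * star (D f3 h (u + y' + k))) := by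
      intro y'
      simp only [hC]
      rw [u3_sq]
      refine Finset.sum_congr rfl fun k _ => Finset.sum_congr rfl fun u _ => ?_
      have a1 : u + k + y' = u + y' + k := by ring
      rw [star_mul', a1]
      ring
    rw [Finset.sum_congr rfl fun y' _ => e1 y', Finset.sum_comm]
    refine Finset.sum_congr rfl fun k _ => ?_
    rw [Finset.sum_comm, Finset.sum_mul]
    refine Finset.sum_congr rfl fun u _ => ?_
    rw [← Finset.mul_sum]
    congr 1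
    simp only [hE]
    rw [← Equiv.sum_comp (Equiv.addLeft u) (fun s => f3 s * star (f3 (s + h)) * star (f3 (s + k)) * f3 (s + h + k))]
    refine Finset.sum_congr rfl fun y' _ => ?_
    simp only [hD, Equiv.coe_addLeft, star_mul', star_star]
    have a1 : u + y' + k + h = u + y' + h + k := by ring
    rw [a1]
    ring
  have s4 : S ≤ N * ∑ h : ZMod N, ∑ k : ZMod N, ‖E h k‖ := by
    have e1 : S = ‖(S : ℂ)‖ := by rw [Complex.norm_real, Real.norm_of_nonneg hS0]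
    rw [e1, s3, Finset.mul_sum]
    refine (norm_sum_le _ _).trans (Finset.sum_le_sum fun h _ => ?_)
    rw [Finset.mul_sum]
    refine (norm_sum_le _ _).trans (Finset.sum_le_sum fun k _ => ?_)
    rw [norm_mul]
    refine mul_le_mul_of_nonneg_right ?_ (norm_nonneg _)
    calc _ ≤ ∑ u : ZMod N, ‖D f1 h u * star (D f1 h (u + k))‖ := norm_sum_le _ _
      _ ≤ ∑ _u : ZMod N, (1 : ℝ) := by
        refine Finset.sum_le_sum fun u _ => ?_
        rw [norm_mul, norm_star]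
        exact mul_le_one₀ (hDn f1 h1 h _) (norm_nonneg _) (hDn f1 h1 h _)
      _ = N := by rw [Finset.sum_const, Finset.card_univ, ZMod.card, nsmul_eq_mul, mul_one]
  have hUU : ∑ h : ZMod N, ∑ k : ZMod N, ‖E h k‖ ^ 2 = UU f3 := rfl
  have hUU0 : 0 ≤ UU f3 := Finset.sum_nonneg fun _ _ => Finset.sum_nonneg fun _ _ => by positivity
  have c1 := u3_cs N (fun h y' => ‖C h y'‖)
  have c2 := u3_cs N (fun h k => ‖E h k‖)
  rw [hUU] at c2
  set P : ℝ := ∑ h : ZMod N, ∑ y' : ZMod N, ‖C h y'‖ with hP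
  set R : ℝ := ∑ h : ZMod N, ∑ k : ZMod N, ‖E h k‖ with hR
  have hP0 : 0 ≤ P := Finset.sum_nonneg fun _ _ => Finset.sum_nonneg fun _ _ => norm_nonneg _
  have hR0 : 0 ≤ R := Finset.sum_nonneg fun _ _ => Finset.sum_nonneg fun _ _ => norm_nonneg _
  have c3 : P ^ 2 ≤ (N : ℝ) ^ 2 * S := c1
  have d1 : S ^ 2 ≤ (N : ℝ) ^ 4 * UU f3 := by
    calc S ^ 2 ≤ (N * R) ^ 2 := pow_le_pow_left₀ hS0 s4 2
      _ = (N : ℝ) ^ 2 * R ^ 2 := by ring
      _ ≤ (N : ℝ) ^ 2 * ((N : ℝ) ^ 2 * UU f3) := mul_le_mul_of_nonneg_left c2 (by positivity)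
      _ = (N : ℝ) ^ 4 * UU f3 := by ring
  have d2 : X ^ 2 ≤ (N : ℝ) ^ 4 * S := by
    calc X ^ 2 ≤ (N * P) ^ 2 := pow_le_pow_left₀ hX0 s2 2
      _ = (N : ℝ) ^ 2 * P ^ 2 := by ring
      _ ≤ (N : ℝ) ^ 2 * ((N : ℝ) ^ 2 * S) := mul_le_mul_of_nonneg_left c3 (by positivity)
      _ = (N : ℝ) ^ 4 * S := by ring
  have d3 : X ^ 4 ≤ (N : ℝ) ^ 12 * UU f3 := by
    calc X ^ 4 = (X ^ 2) ^ 2 := by ring
      _ ≤ ((N : ℝ) ^ 4 * S) ^ 2 := pow_le_pow_left₀ (by positivity) d2 2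
      _ = (N : ℝ) ^ 8 * S ^ 2 := by ring
      _ ≤ (N : ℝ) ^ 8 * ((N : ℝ) ^ 4 * UU f3) := mul_le_mul_of_nonneg_left d1 (by positivity)
      _ = (N : ℝ) ^ 12 * UU f3 := by ring
  have d4 : X ^ 4 ≤ ((N : ℝ) ^ 3 * (UU f3) ^ (1 / 4 : ℝ)) ^ 4 := by
    refine d3.trans (le_of_eq ?_)
    have e5 : ((UU f3) ^ (1 / 4 : ℝ)) ^ 4 = UU f3 := by
      rw [← Real.rpow_natCast, ← Real.rpow_mul hUU0]
      norm_num
    rw [mul_pow, e5]
    ring
  exact (pow_le_pow_iff_left₀ hX0 (by positivity) (by norm_num)).1 d4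

end Pool.Agent.Lib.H59T
end
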