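import Pool.Agent.Lib.H59M.M2.M078

/-! Merged copies (to shorten the build) of Lib.H59T.UA. -/

-- from Lib.H59T.UA
section

/-!
# Project H59T, chunk UA (M): three Cauchy-Schwarz steps with short shifts, on `ZMod M`
-/

open Finset

namespace Pool.Agent.Lib.H59T

/-- Cauchy-Schwarz with bounded coefficients -/
theorem ua_cs {ι : Type} (s : Finset ι) (u v : ι → ℂ) (hu : ∀ i ∈ s, ‖u i‖ ≤ 1) :
    ‖∑ i ∈ s, u i * v i‖ ^ 2 ≤ s.card * ∑ i ∈ s, ‖v i‖ ^ 2 := by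
  have h1 : ‖∑ i ∈ s, u i * v i‖ ≤ ∑ i ∈ s, ‖v i‖ := by
    refine (norm_sum_le _ _).trans (Finset.sum_le_sum fun i hi => ?_)
    rw [norm_mul]
    exact mul_le_of_le_one_left (norm_nonneg _) (hu i hi)
  have h2 : (∑ i ∈ s, ‖v i‖) ^ 2 ≤ s.card * ∑ i ∈ s, ‖v i‖ ^ 2 := sq_sum_le_card_mul_sum_sq
  exact (pow_le_pow_left₀ (norm_nonneg _) h1 2).trans h2

/-- average over shifts -/
theorem ua_shift (M H : ℕ) [NeZero M] (φ : ZMod M → ℂ) (c : ℕ → ZMod M) :
    (H : ℂ) * ∑ y, φ y = ∑ y, ∑ h ∈ range H, φ (y + c h) := by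
  rw [Finset.sum_comm]
  have h1 : ∀ h ∈ range H, ∑ y, φ (y + c h) = ∑ y, φ y := fun h _ =>
    Equiv.sum_comp (Equiv.addRight (c h)) φ
  rw [Finset.sum_congr rfl h1, Finset.sum_const, Finset.card_range, nsmul_eq_mul]

/-- the square of a sum as a double sum -/
theorem ua_sq (H : ℕ) (a : ℕ → ℂ) : ((‖∑ h ∈ range H, a h‖ ^ 2 : ℝ) : ℂ) =
    ∑ h ∈ range H, ∑ h' ∈ range H, a h * star (a h') := by
  have h1 : ((‖∑ h ∈ range H, a h‖ ^ 2 : ℝ) : ℂ) = (∑ h ∈ range H, a h) * star (∑ h ∈ range H, a h) := by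
    have h2 : star (∑ h ∈ range H, a h) = (starRingEnd ℂ) (∑ h ∈ range H, a h) := rfl
    rw [h2, Complex.mul_conj, Complex.normSq_eq_norm_sq]
  rw [h1, star_sum, Finset.sum_mul_sum]

/-- step 1 -/
theorem ua_one (M H : ℕ) [NeZero M] (f g F W : ZMod M → ℂ) (hf : ∀ x, ‖f x‖ ≤ 1) :
    (H : ℝ) ^ 2 * ‖∑ x : ZMod M, ∑ y : ZMod M, f x * g y * F (x + y) * W (x - y)‖ ^ 2 ≤
      (M : ℝ) ^ 2 * ∑ x : ZMod M, ∑ y : ZMod M,
        ‖∑ h ∈ range H, g (y + h) * F (x + y + h) * W (x - y - h)‖ ^ 2 := by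
  have h1 : (H : ℂ) * ∑ x : ZMod M, ∑ y : ZMod M, f x * g y * F (x + y) * W (x - y) =
      ∑ q : ZMod M × ZMod M, f q.1 *
        ∑ h ∈ range H, g (q.2 + h) * F (q.1 + q.2 + h) * W (q.1 - q.2 - h) := by
    rw [Fintype.sum_prod_type, Finset.mul_sum]
    refine Finset.sum_congr rfl fun x _ => ?_
    rw [ua_shift M H (fun y => f x * g y * F (x + y) * W (x - y)) (fun h => (h : ZMod M))]
    refine Finset.sum_congr rfl fun y _ => ?_
    rw [Finset.mul_sum]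
    refine Finset.sum_congr rfl fun h _ => ?_
    have e1 : x + (y + (h : ZMod M)) = x + y + h := by ring
    have e2 : x - (y + (h : ZMod M)) = x - y - h := by ring
    simp only [e1, e2]
    ring
  have h2 := ua_cs (univ : Finset (ZMod M × ZMod M)) (fun q => f q.1)
    (fun q => ∑ h ∈ range H, g (q.2 + h) * F (q.1 + q.2 + h) * W (q.1 - q.2 - h)) (fun q _ => hf _)
  rw [← h1, norm_mul, mul_pow, Complex.norm_natCast] at h2
  rw [Finset.card_univ, Fintype.card_prod, ZMod.card, Fintype.sum_prod_type] at h2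
  push_cast at h2
  rw [pow_two (M : ℝ)]
  exact h2

/-- step 2 -/
theorem ua_two (M H : ℕ) [NeZero M] (hH : 0 < H) (g F W : ZMod M → ℂ) (hg : ∀ x, ‖g x‖ ≤ 1) :
    (∑ x : ZMod M, ∑ y : ZMod M,
        ‖∑ h ∈ range H, g (y + h) * F (x + y + h) * W (x - y - h)‖ ^ 2) ^ 2 ≤
      (M : ℝ) ^ 2 * ∑ h ∈ range H, ∑ h' ∈ range H, ∑ x : ZMod M, ∑ y : ZMod M,
        ‖∑ k ∈ range H, (F (x + y + h + k) * star (F (x + y + h' + k))) *
          (W (x - y - h + k) * star (W (x - y - h' + k)))‖ ^ 2 := by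
  obtain ⟨T1, hT1⟩ : ∃ T1 : ℝ, T1 = ∑ x : ZMod M, ∑ y : ZMod M,
        ‖∑ h ∈ range H, g (y + h) * F (x + y + h) * W (x - y - h)‖ ^ 2 := ⟨_, rfl⟩
  rw [← hT1]
  have h1 : (H : ℂ) * (T1 : ℂ) =
      ∑ q ∈ (range H ×ˢ range H) ×ˢ (univ : Finset (ZMod M × ZMod M)),
        (g (q.2.2 + q.1.1) * star (g (q.2.2 + q.1.2))) *
        ∑ k ∈ range H, (F (q.2.1 + q.2.2 + q.1.1 + k) * star (F (q.2.1 + q.2.2 + q.1.2 + k))) *
          (W (q.2.1 - q.2.2 - q.1.1 + k) * star (W (q.2.1 - q.2.2 - q.1.2 + k))) := by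
    rw [Finset.sum_product, Finset.sum_product, hT1]
    push_cast
    have e0 : ∀ x y : ZMod M, ((‖∑ h ∈ range H, g (y + h) * F (x + y + h) * W (x - y - h)‖ : ℂ)) ^ 2 =
        ∑ h ∈ range H, ∑ h' ∈ range H, (g (y + h) * F (x + y + h) * W (x - y - h)) *
          star (g (y + h') * F (x + y + h') * W (x - y - h')) := by
      intro x y
      have := ua_sq H (fun h : ℕ => g (y + h) * F (x + y + h) * W (x - y - h))
      push_cast at this
      exact this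
    simp only [e0]
    have e1 : ∀ x : ZMod M, ∑ y : ZMod M, ∑ h ∈ range H, ∑ h' ∈ range H,
        (g (y + h) * F (x + y + h) * W (x - y - h)) *
          star (g (y + h') * F (x + y + h') * W (x - y - h')) =
        ∑ h ∈ range H, ∑ h' ∈ range H, ∑ y : ZMod M,
        (g (y + h) * F (x + y + h) * W (x - y - h)) *
          star (g (y + h') * F (x + y + h') * W (x - y - h')) := by
      intro x
      rw [Finset.sum_comm]
      refine Finset.sum_congr rfl fun h _ => ?_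
      rw [Finset.sum_comm]
    simp only [e1]
    rw [Finset.sum_comm, Finset.mul_sum]
    refine Finset.sum_congr rfl fun h _ => ?_
    rw [Finset.sum_comm, Finset.mul_sum]
    refine Finset.sum_congr rfl fun h' _ => ?_
    rw [Fintype.sum_prod_type, Finset.sum_comm, Finset.mul_sum, Finset.sum_comm (s := (univ : Finset (ZMod M)))]
    refine Finset.sum_congr rfl fun y _ => ?_
    rw [ua_shift M H (fun x => (g (y + h) * F (x + y + h) * W (x - y - h)) *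
          star (g (y + h') * F (x + y + h') * W (x - y - h'))) (fun k => (k : ZMod M))]
    refine Finset.sum_congr rfl fun x _ => ?_
    rw [Finset.mul_sum]
    refine Finset.sum_congr rfl fun k _ => ?_
    have e2 : x + (k : ZMod M) + y + h = x + y + h + k := by ring
    have e3 : x + (k : ZMod M) + y + h' = x + y + h' + k := by ring
    have e4 : x + (k : ZMod M) - y - h = x - y - h + k := by ring
    have e5 : x + (k : ZMod M) - y - h' = x - y - h' + k := by ring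
    simp only [e2, e3, e4, e5, star_mul']
    ring
  have h2 := ua_cs ((range H ×ˢ range H) ×ˢ (univ : Finset (ZMod M × ZMod M)))
    (fun q => g (q.2.2 + q.1.1) * star (g (q.2.2 + q.1.2)))
    (fun q => ∑ k ∈ range H, (F (q.2.1 + q.2.2 + q.1.1 + k) * star (F (q.2.1 + q.2.2 + q.1.2 + k))) *
          (W (q.2.1 - q.2.2 - q.1.1 + k) * star (W (q.2.1 - q.2.2 - q.1.2 + k)))) (fun q _ => by
      rw [norm_mul, norm_star]
      exact mul_le_one₀ (hg _) (norm_nonneg _) (hg _))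
  rw [← h1, norm_mul, mul_pow, Complex.norm_natCast, Complex.norm_real, Real.norm_eq_abs, sq_abs] at h2
  rw [Finset.card_product, Finset.card_product, Finset.card_range, Finset.card_univ,
    Fintype.card_prod, ZMod.card, Finset.sum_product, Finset.sum_product] at h2
  simp only [Fintype.sum_prod_type] at h2
  push_cast at h2
  have hH0 : (0 : ℝ) < (H : ℝ) ^ 2 := by positivity
  refine le_of_mul_le_mul_left ?_ hH0
  calc (H : ℝ) ^ 2 * T1 ^ 2 ≤ _ := h2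
    _ = _ := by ring

/-- step 3 -/
theorem ua_three (M H : ℕ) [NeZero M] (hH : 0 < H) (F W : ZMod M → ℂ) (hW : ∀ x, ‖W x‖ ≤ 1) :
    (∑ h ∈ range H, ∑ h' ∈ range H, ∑ x : ZMod M, ∑ y : ZMod M,
        ‖∑ k ∈ range H, (F (x + y + h + k) * star (F (x + y + h' + k))) *
          (W (x - y - h + k) * star (W (x - y - h' + k)))‖ ^ 2) ^ 2 ≤
      (H : ℝ) ^ 2 * (M : ℝ) ^ 3 * ∑ m : ZMod M, ∑ h ∈ range H, ∑ h' ∈ range H, ∑ k ∈ range H,
        ∑ k' ∈ range H, ‖∑ t ∈ range H, F (m + 2 * (t : ZMod M) + h + k) *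
          star (F (m + 2 * (t : ZMod M) + h' + k)) * star (F (m + 2 * (t : ZMod M) + h + k')) *
          F (m + 2 * (t : ZMod M) + h' + k')‖ ^ 2 := by
  obtain ⟨T2, hT2⟩ : ∃ T2 : ℝ, T2 = ∑ h ∈ range H, ∑ h' ∈ range H, ∑ x : ZMod M, ∑ y : ZMod M,
        ‖∑ k ∈ range H, (F (x + y + h + k) * star (F (x + y + h' + k))) *
          (W (x - y - h + k) * star (W (x - y - h' + k)))‖ ^ 2 := ⟨_, rfl⟩
  rw [← hT2]
  have h1 : (H : ℂ) * (T2 : ℂ) =
      ∑ q ∈ ((range H ×ˢ range H) ×ˢ (range H ×ˢ range H)) ×ˢ (univ : Finset (ZMod M × ZMod M)),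
        ((W (q.2.1 - q.2.2 - q.1.1.1 + q.1.2.1) * star (W (q.2.1 - q.2.2 - q.1.1.2 + q.1.2.1))) *
          star (W (q.2.1 - q.2.2 - q.1.1.1 + q.1.2.2) * star (W (q.2.1 - q.2.2 - q.1.1.2 + q.1.2.2)))) *
        ∑ t ∈ range H, F (q.2.1 + q.2.2 + 2 * (t : ZMod M) + q.1.1.1 + q.1.2.1) *
          star (F (q.2.1 + q.2.2 + 2 * (t : ZMod M) + q.1.1.2 + q.1.2.1)) *
          star (F (q.2.1 + q.2.2 + 2 * (t : ZMod M) + q.1.1.1 + q.1.2.2)) *
          F (q.2.1 + q.2.2 + 2 * (t : ZMod M) + q.1.1.2 + q.1.2.2) := by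
    rw [Finset.sum_product, Finset.sum_product, Finset.sum_product, hT2]
    simp only [Finset.sum_product]
    push_cast
    rw [Finset.mul_sum]
    refine Finset.sum_congr rfl fun h _ => ?_
    rw [Finset.mul_sum]
    refine Finset.sum_congr rfl fun h' _ => ?_
    have e0 : ∀ x y : ZMod M, ((‖∑ k ∈ range H, (F (x + y + h + k) * star (F (x + y + h' + k))) *
          (W (x - y - h + k) * star (W (x - y - h' + k)))‖ : ℂ)) ^ 2 =
        ∑ k ∈ range H, ∑ k' ∈ range H, ((F (x + y + h + k) * star (F (x + y + h' + k))) *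
          (W (x - y - h + k) * star (W (x - y - h' + k)))) *
          star ((F (x + y + h + k') * star (F (x + y + h' + k'))) *
          (W (x - y - h + k') * star (W (x - y - h' + k')))) := by
      intro x y
      have := ua_sq H (fun k : ℕ => (F (x + y + h + k) * star (F (x + y + h' + k))) *
          (W (x - y - h + k) * star (W (x - y - h' + k))))
      push_cast at this
      exact this
    simp only [e0]
    have e1 : ∀ x : ZMod M, ∑ y : ZMod M, ∑ k ∈ range H, ∑ k' ∈ range H,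
        ((F (x + y + h + k) * star (F (x + y + h' + k))) *
          (W (x - y - h + k) * star (W (x - y - h' + k)))) *
          star ((F (x + y + h + k') * star (F (x + y + h' + k'))) *
          (W (x - y - h + k') * star (W (x - y - h' + k')))) =
        ∑ k ∈ range H, ∑ k' ∈ range H, ∑ y : ZMod M,
        ((F (x + y + h + k) * star (F (x + y + h' + k))) *
          (W (x - y - h + k) * star (W (x - y - h' + k)))) *
          star ((F (x + y + h + k') * star (F (x + y + h' + k'))) *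
          (W (x - y - h + k') * star (W (x - y - h' + k')))) := by
      intro x
      rw [Finset.sum_comm]
      refine Finset.sum_congr rfl fun h _ => ?_
      rw [Finset.sum_comm]
    simp only [e1]
    rw [Finset.sum_comm, Finset.mul_sum]
    refine Finset.sum_congr rfl fun k _ => ?_
    rw [Finset.sum_comm, Finset.mul_sum]
    refine Finset.sum_congr rfl fun k' _ => ?_
    rw [Fintype.sum_prod_type]
    -- shift along the diagonal
    obtain ⟨φ, hφ⟩ : ∃ φ : ZMod M × ZMod M → ℂ, φ = fun q => ((F (q.1 + q.2 + h + k) * star (F (q.1 + q.2 + h' + k))) *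
          (W (q.1 - q.2 - h + k) * star (W (q.1 - q.2 - h' + k)))) *
          star ((F (q.1 + q.2 + h + k') * star (F (q.1 + q.2 + h' + k'))) *
          (W (q.1 - q.2 - h + k') * star (W (q.1 - q.2 - h' + k')))) := ⟨_, rfl⟩
    have e2 : ∑ x : ZMod M, ∑ y : ZMod M, ((F (x + y + h + k) * star (F (x + y + h' + k))) *
          (W (x - y - h + k) * star (W (x - y - h' + k)))) *
          star ((F (x + y + h + k') * star (F (x + y + h' + k'))) *
          (W (x - y - h + k') * star (W (x - y - h' + k')))) = ∑ q, φ q := by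
      rw [Fintype.sum_prod_type, hφ]
    rw [e2]
    have e3 : ∀ t ∈ range H, ∑ q : ZMod M × ZMod M, φ (q + ((t : ZMod M), (t : ZMod M))) = ∑ q, φ q :=
      fun t _ => Equiv.sum_comp (Equiv.addRight ((t : ZMod M), (t : ZMod M))) φ
    have e4 : (H : ℂ) * ∑ q, φ q = ∑ q : ZMod M × ZMod M, ∑ t ∈ range H,
        φ (q + ((t : ZMod M), (t : ZMod M))) := by
      rw [Finset.sum_comm, Finset.sum_congr rfl e3, Finset.sum_const, Finset.card_range, nsmul_eq_mul]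
    rw [e4, Fintype.sum_prod_type]
    refine Finset.sum_congr rfl fun x _ => ?_
    refine Finset.sum_congr rfl fun y _ => ?_
    rw [Finset.mul_sum]
    refine Finset.sum_congr rfl fun t _ => ?_
    rw [hφ]
    simp only [Prod.mk_add_mk]
    have a1 : ∀ u v : ZMod M, x + (t : ZMod M) + (y + t) + u + v = x + y + 2 * t + u + v := by
      intro u v; ring
    have a2 : ∀ u v : ZMod M, x + (t : ZMod M) - (y + t) - u + v = x - y - u + v := by
      intro u v; ring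
    simp only [a1, a2, star_mul', star_star]
    ring
  have h2 := ua_cs (((range H ×ˢ range H) ×ˢ (range H ×ˢ range H)) ×ˢ (univ : Finset (ZMod M × ZMod M)))
    (fun q => (W (q.2.1 - q.2.2 - q.1.1.1 + q.1.2.1) * star (W (q.2.1 - q.2.2 - q.1.1.2 + q.1.2.1))) *
          star (W (q.2.1 - q.2.2 - q.1.1.1 + q.1.2.2) * star (W (q.2.1 - q.2.2 - q.1.1.2 + q.1.2.2))))
    (fun q => ∑ t ∈ range H, F (q.2.1 + q.2.2 + 2 * (t : ZMod M) + q.1.1.1 + q.1.2.1) *
          star (F (q.2.1 + q.2.2 + 2 * (t : ZMod M) + q.1.1.2 + q.1.2.1)) *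
          star (F (q.2.1 + q.2.2 + 2 * (t : ZMod M) + q.1.1.1 + q.1.2.2)) *
          F (q.2.1 + q.2.2 + 2 * (t : ZMod M) + q.1.1.2 + q.1.2.2)) (fun q _ => by
      rw [norm_mul, norm_star, norm_mul, norm_mul, norm_star, norm_star]
      have a := hW (q.2.1 - q.2.2 - q.1.1.1 + q.1.2.1)
      have b := hW (q.2.1 - q.2.2 - q.1.1.2 + q.1.2.1)
      have c := hW (q.2.1 - q.2.2 - q.1.1.1 + q.1.2.2)
      have d := hW (q.2.1 - q.2.2 - q.1.1.2 + q.1.2.2)
      exact mul_le_one₀ (mul_le_one₀ a (norm_nonneg _) b) (by positivity)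
        (mul_le_one₀ c (norm_nonneg _) d))
  rw [← h1, norm_mul, mul_pow, Complex.norm_natCast, Complex.norm_real, Real.norm_eq_abs, sq_abs] at h2
  rw [Finset.card_product, Finset.card_product, Finset.card_product, Finset.card_range, Finset.card_univ,
    Fintype.card_prod, ZMod.card] at h2
  -- the sum over x, y is M times the sum over m
  have h3 : ∑ q ∈ ((range H ×ˢ range H) ×ˢ (range H ×ˢ range H)) ×ˢ (univ : Finset (ZMod M × ZMod M)),
      ‖∑ t ∈ range H, F (q.2.1 + q.2.2 + 2 * (t : ZMod M) + q.1.1.1 + q.1.2.1) *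
          star (F (q.2.1 + q.2.2 + 2 * (t : ZMod M) + q.1.1.2 + q.1.2.1)) *
          star (F (q.2.1 + q.2.2 + 2 * (t : ZMod M) + q.1.1.1 + q.1.2.2)) *
          F (q.2.1 + q.2.2 + 2 * (t : ZMod M) + q.1.1.2 + q.1.2.2)‖ ^ 2 =
      (M : ℝ) * ∑ m : ZMod M, ∑ h ∈ range H, ∑ h' ∈ range H, ∑ k ∈ range H,
        ∑ k' ∈ range H, ‖∑ t ∈ range H, F (m + 2 * (t : ZMod M) + h + k) *
          star (F (m + 2 * (t : ZMod M) + h' + k)) * star (F (m + 2 * (t : ZMod M) + h + k')) *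
          F (m + 2 * (t : ZMod M) + h' + k')‖ ^ 2 := by
    rw [Finset.sum_product_right, Fintype.sum_prod_type]
    have e5 : ∀ x : ZMod M, ∑ y : ZMod M, ∑ q ∈ (range H ×ˢ range H) ×ˢ (range H ×ˢ range H),
      ‖∑ t ∈ range H, F (x + y + 2 * (t : ZMod M) + q.1.1 + q.2.1) *
          star (F (x + y + 2 * (t : ZMod M) + q.1.2 + q.2.1)) *
          star (F (x + y + 2 * (t : ZMod M) + q.1.1 + q.2.2)) *
          F (x + y + 2 * (t : ZMod M) + q.1.2 + q.2.2)‖ ^ 2 =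
        ∑ m : ZMod M, ∑ q ∈ (range H ×ˢ range H) ×ˢ (range H ×ˢ range H),
      ‖∑ t ∈ range H, F (m + 2 * (t : ZMod M) + q.1.1 + q.2.1) *
          star (F (m + 2 * (t : ZMod M) + q.1.2 + q.2.1)) *
          star (F (m + 2 * (t : ZMod M) + q.1.1 + q.2.2)) *
          F (m + 2 * (t : ZMod M) + q.1.2 + q.2.2)‖ ^ 2 := fun x =>
      Equiv.sum_comp (Equiv.addLeft x) (fun m : ZMod M => ∑ q ∈ (range H ×ˢ range H) ×ˢ (range H ×ˢ range H),
      ‖∑ t ∈ range H, F (m + 2 * (t : ZMod M) + q.1.1 + q.2.1) *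
          star (F (m + 2 * (t : ZMod M) + q.1.2 + q.2.1)) *
          star (F (m + 2 * (t : ZMod M) + q.1.1 + q.2.2)) *
          F (m + 2 * (t : ZMod M) + q.1.2 + q.2.2)‖ ^ 2)
    rw [Finset.sum_congr rfl (fun x _ => e5 x), Finset.sum_const, Finset.card_univ, ZMod.card,
      nsmul_eq_mul]
    congr 1
    refine Finset.sum_congr rfl fun m _ => ?_
    rw [Finset.sum_product, Finset.sum_product]
    refine Finset.sum_congr rfl fun h _ => ?_
    refine Finset.sum_congr rfl fun h' _ => ?_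
    rw [Finset.sum_product]
  rw [h3] at h2
  push_cast at h2
  have hH0 : (0 : ℝ) < (H : ℝ) ^ 2 := by positivity
  refine le_of_mul_le_mul_left ?_ hH0
  refine h2.trans (le_of_eq ?_)
  ring

/-- Proof. `T = ∑_{x,y} f(x) g(y) F(x+y) W(x-y)`. All shifts are exact on `ZMod M`.
(1) Replace `y` by `y + h` and average over `h < H`: `T = H⁻¹ ∑_{x,y} f(x) ∑_h g(y+h) F(x+y+h) W(x-y-h)`, so
`|T|² ≤ M² H⁻² T1`, `T1 = ∑_{h,h'} ∑_{x,y} G(y) F(x+y+h) star F(x+y+h') W1(x-y)`, `G(y) = g(y+h) star g(y+h')`,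
`W1(d) = W(d-h) star W(d-h')`.
(2) Replace `x` by `x + k` and average over `k < H`: `|T1|² ≤ (H² M²) H⁻² T2`,
`T2 = ∑_{h,h',k,k'} ∑_{x,y} P(x+y) W2(x-y)`, `P(m) = F(m+h+k) star F(m+h'+k) star F(m+h+k') F(m+h'+k')`,
`W2(d) = W1(d+k) star W1(d+k')`.
(3) Replace `(x, y)` by `(x + t, y + t)`: `T2 = H⁻¹ ∑_{h,h',k,k'} ∑_{x,y} W2(x-y) ∑_t P(x+y+2t)`, so
`|T2|² ≤ (H⁴ M²) H⁻² ∑_{h,h',k,k'} ∑_{x,y} |∑_t P(x+y+2t)|²`, and the sum over `x, y` is `M` times the sum over `m = x + y`.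
Altogether `|T|^8 ≤ (M² H⁻²)⁴ (M²)² (H² M²) M Σ = M^15 H^(-6) Σ`. -/
theorem UA_main (M H : ℕ) [NeZero M] (hH : 0 < H) (f g F W : ZMod M → ℂ) (hf : ∀ x, ‖f x‖ ≤ 1)
    (hg : ∀ x, ‖g x‖ ≤ 1) (hW : ∀ x, ‖W x‖ ≤ 1) :
    ‖∑ x : ZMod M, ∑ y : ZMod M, f x * g y * F (x + y) * W (x - y)‖ ^ 8 ≤
      (M : ℝ) ^ 15 / (H : ℝ) ^ 6 * ∑ m : ZMod M, ∑ h ∈ range H, ∑ h' ∈ range H, ∑ k ∈ range H,
        ∑ k' ∈ range H, ‖∑ t ∈ range H, F (m + 2 * (t : ZMod M) + h + k) *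
          star (F (m + 2 * (t : ZMod M) + h' + k)) * star (F (m + 2 * (t : ZMod M) + h + k')) *
          F (m + 2 * (t : ZMod M) + h' + k')‖ ^ 2 := by
  have h1 := ua_one M H f g F W hf
  have h2 := ua_two M H hH g F W hg
  have h3 := ua_three M H hH F W hW
  obtain ⟨T, hT⟩ : ∃ T, T = ‖∑ x : ZMod M, ∑ y : ZMod M, f x * g y * F (x + y) * W (x - y)‖ := ⟨_, rfl⟩
  obtain ⟨T1, hT1⟩ : ∃ T1 : ℝ, T1 = ∑ x : ZMod M, ∑ y : ZMod M,
        ‖∑ h ∈ range H, g (y + h) * F (x + y + h) * W (x - y - h)‖ ^ 2 := ⟨_, rfl⟩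
  obtain ⟨T2, hT2⟩ : ∃ T2 : ℝ, T2 = ∑ h ∈ range H, ∑ h' ∈ range H, ∑ x : ZMod M, ∑ y : ZMod M,
        ‖∑ k ∈ range H, (F (x + y + h + k) * star (F (x + y + h' + k))) *
          (W (x - y - h + k) * star (W (x - y - h' + k)))‖ ^ 2 := ⟨_, rfl⟩
  obtain ⟨S, hS⟩ : ∃ S : ℝ, S = ∑ m : ZMod M, ∑ h ∈ range H, ∑ h' ∈ range H, ∑ k ∈ range H,
        ∑ k' ∈ range H, ‖∑ t ∈ range H, F (m + 2 * (t : ZMod M) + h + k) *
          star (F (m + 2 * (t : ZMod M) + h' + k)) * star (F (m + 2 * (t : ZMod M) + h + k')) *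
          F (m + 2 * (t : ZMod M) + h' + k')‖ ^ 2 := ⟨_, rfl⟩
  rw [← hT, ← hT1] at h1
  rw [← hT1, ← hT2] at h2
  rw [← hT2, ← hS] at h3
  rw [← hT, ← hS]
  have hT1' : 0 ≤ T1 := by
    rw [hT1]
    exact Finset.sum_nonneg fun _ _ => Finset.sum_nonneg fun _ _ => sq_nonneg _
  have hT2' : 0 ≤ T2 := by
    rw [hT2]
    exact Finset.sum_nonneg fun _ _ => Finset.sum_nonneg fun _ _ => Finset.sum_nonneg fun _ _ =>
      Finset.sum_nonneg fun _ _ => sq_nonneg _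
  have hH0 : (0 : ℝ) < H := by exact_mod_cast hH
  have hM0 : (0 : ℝ) ≤ M := Nat.cast_nonneg _
  have a1 : ((H : ℝ) ^ 2 * T ^ 2) ^ 4 ≤ ((M : ℝ) ^ 2 * T1) ^ 4 :=
    pow_le_pow_left₀ (by positivity) h1 4
  have a2 : (T1 ^ 2) ^ 2 ≤ ((M : ℝ) ^ 2 * T2) ^ 2 := pow_le_pow_left₀ (by positivity) h2 2
  have a3 : (H : ℝ) ^ 8 * T ^ 8 ≤ (M : ℝ) ^ 15 * (H : ℝ) ^ 2 * S := by
    calc (H : ℝ) ^ 8 * T ^ 8 = ((H : ℝ) ^ 2 * T ^ 2) ^ 4 := by ring
      _ ≤ ((M : ℝ) ^ 2 * T1) ^ 4 := a1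
      _ = (M : ℝ) ^ 8 * (T1 ^ 2) ^ 2 := by ring
      _ ≤ (M : ℝ) ^ 8 * ((M : ℝ) ^ 2 * T2) ^ 2 := mul_le_mul_of_nonneg_left a2 (by positivity)
      _ = (M : ℝ) ^ 12 * T2 ^ 2 := by ring
      _ ≤ (M : ℝ) ^ 12 * ((H : ℝ) ^ 2 * (M : ℝ) ^ 3 * S) := mul_le_mul_of_nonneg_left h3 (by positivity)
      _ = _ := by ring
  rw [div_mul_eq_mul_div, le_div_iff₀ (by positivity)]
  have hH2 : (0 : ℝ) < (H : ℝ) ^ 2 := by positivity
  refine le_of_mul_le_mul_left ?_ hH2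
  calc (H : ℝ) ^ 2 * (T ^ 8 * (H : ℝ) ^ 6) = (H : ℝ) ^ 8 * T ^ 8 := by ring
    _ ≤ _ := a3
    _ = _ := by ring

end Pool.Agent.Lib.H59T
end
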