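import Pool.Agent.Lib.H59M.M2.M042
import Pool.Agent.Lib.H59M.M2.M048
import Pool.Agent.Lib.H59M.M2.M065
import Pool.Agent.Lib.H59M.M2.M066
import Pool.Agent.Lib.H59M.M2.M071
import Pool.Agent.Lib.H59M.M2.M079

/-! Merged copies (to shorten the build) of Lib.H44W.M8, Lib.H37T.A5, Lib.H37T.A6. -/

-- from Lib.H44W.M8
section
/-!
CHUNK M8 (M, elementary: exponents). The output of module D.
Proof. h34 (H21T.D34): ka in (0, 1/2]. Put ep = min ka (1/8), et0 = ka/8, e = ep/2, E = 16, C3 = 2 (C2 + 1) (C2 from h2),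
closing C3 E e (M6) gives C, n0; N0 from h34 for ep. C' = max C 17; n0' so large that everything below holds.
Given the data, Q = floor((2n)^ep) >= 1, N = 2n. A1, B1 >= (2n)^(1/2 - 2 et0) >= max (n^(1/4)) 1 ((1/2 - ka/4 >= 3/8)).
If A1 B1 > 2n then pd q .. m = 0 for 2 <= m <= 2n, 1 <= q (q a b >= A1 B1 > m), so TF = 0 < n^2/D: contradiction (D > 0).
So A1 B1 <= 2n, A1 <= 2n/B1 <= (2n)^(1/2 + 2 et0), the same for B1. l := floor((2n)^(1/2 - 3 et0)): l (A1 + B1) <= 2 (2n)^(1 - et0) <= n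
for (2n)^et0 >= 4; (2n)^(1/2 - ka) <= l and n^(1/4) <= l for n large (3 et0 = 3ka/8 < ka, 1/2 - 3/16 > 1/4; l >= (2n)^(1/2 - 3 et0) - 1).
Apply closing with M := fun q => Mq Q A1 A2 B1 B2 q:
 hcf: D' >= D >= (1+log n)^10 >= 560 (1+log n)^4 (n large), hdiv for D' >= D, D'^16 <= n: q Q <= D' (2n)^(1/8) <= n^(1/16) (2n)^(1/8) <= n^(1/4),
 mq_cf (M7). mass: mass_le (M5) (R <= D <= n, Q <= (2n)^(1/8) <= n). hX: hX_of (M4) with h34 (N = 2n >= N0; ee of SZW and of H44W are the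
 same function: rfl).
-/
namespace Pool.Agent.H44W
open Finset

theorem m8_gap (a b : ℝ) (hb : 0 < b) (hab : a < b) :
    ∃ x0 : ℝ, ∀ x : ℝ, x0 ≤ x → x ^ a + 1 ≤ x ^ b := by
  have h1 := (tendsto_rpow_atTop hb).eventually_ge_atTop 2
  have h2 := (tendsto_rpow_atTop (sub_pos.2 hab)).eventually_ge_atTop 2
  have h3 := Filter.eventually_gt_atTop (0:ℝ)
  obtain ⟨x0, hx0⟩ := Filter.eventually_atTop.1 (h1.and (h2.and h3))
  refine ⟨x0, fun x hx => ?_⟩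
  obtain ⟨h4, h5, h6⟩ := hx0 x hx
  have h7 : x ^ b = x ^ a * x ^ (b - a) := by
    rw [← Real.rpow_add h6]
    congr 1
    ring
  have h8 : 0 ≤ x ^ a := Real.rpow_nonneg h6.le _
  have h9 : x ^ a * 2 ≤ x ^ b := by
    rw [h7]
    exact mul_le_mul_of_nonneg_left h5 h8
  linarith

theorem m8_large (ka : ℝ) (hka : 0 < ka) (hka1 : ka ≤ 1 / 2) (N0 n1 : ℕ) :
    ∃ n0 : ℕ, ∀ n : ℕ, n0 ≤ n → n1 ≤ n ∧ N0 ≤ 2 * n ∧ 4 ≤ n ∧
      560 * (1 + Real.log n) ^ 4 ≤ (1 + Real.log n) ^ 10 ∧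
      4 ≤ ((2 * n : ℕ) : ℝ) ^ (ka / 8) ∧
      ((2 * n : ℕ) : ℝ) ^ (1 / 2 - ka) + 1 ≤ ((2 * n : ℕ) : ℝ) ^ (1 / 2 - 3 * (ka / 8)) ∧
      ((2 * n : ℕ) : ℝ) ^ (1 / 4 : ℝ) + 1 ≤ ((2 * n : ℕ) : ℝ) ^ (1 / 2 - 3 * (ka / 8)) := by
  obtain ⟨x1, h1⟩ := m8_gap (1 / 2 - ka) (1 / 2 - 3 * (ka / 8)) (by linarith) (by linarith)
  obtain ⟨x2, h2⟩ := m8_gap (1 / 4) (1 / 2 - 3 * (ka / 8)) (by linarith) (by linarith)
  obtain ⟨x3, h3⟩ := Filter.eventually_atTop.1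
    ((tendsto_rpow_atTop (by linarith : 0 < ka / 8)).eventually_ge_atTop 4)
  obtain ⟨x4, h4⟩ := Filter.eventually_atTop.1 (Real.tendsto_log_atTop.eventually_ge_atTop 2)
  obtain ⟨m1, hm1⟩ := exists_nat_ge x1
  obtain ⟨m2, hm2⟩ := exists_nat_ge x2
  obtain ⟨m3, hm3⟩ := exists_nat_ge x3
  obtain ⟨m4, hm4⟩ := exists_nat_ge x4
  refine ⟨n1 + N0 + 4 + m1 + m2 + m3 + m4, fun n hn => ?_⟩
  have h5 : (m1 : ℝ) ≤ ((2 * n : ℕ) : ℝ) := by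
    have : m1 ≤ 2 * n := by omega
    exact_mod_cast this
  have h6 : (m2 : ℝ) ≤ ((2 * n : ℕ) : ℝ) := by
    have : m2 ≤ 2 * n := by omega
    exact_mod_cast this
  have h7 : (m3 : ℝ) ≤ ((2 * n : ℕ) : ℝ) := by
    have : m3 ≤ 2 * n := by omega
    exact_mod_cast this
  have h8 : (m4 : ℝ) ≤ (n : ℝ) := by
    have : m4 ≤ n := by omega
    exact_mod_cast this
  refine ⟨by omega, by omega, by omega, ?_, h3 _ (hm3.trans h7), h1 _ (hm1.trans h5),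
    h2 _ (hm2.trans h6)⟩
  have h9 := h4 n (hm4.trans h8)
  have h10 : (3:ℝ) ^ 6 ≤ (1 + Real.log n) ^ 6 := pow_le_pow_left₀ (by norm_num) (by linarith) 6
  have h11 : (560:ℝ) ≤ (1 + Real.log n) ^ 6 := le_trans (by norm_num) h10
  calc 560 * (1 + Real.log n) ^ 4 ≤ (1 + Real.log n) ^ 6 * (1 + Real.log n) ^ 4 :=
        mul_le_mul_of_nonneg_right h11 (by positivity)
    _ = (1 + Real.log n) ^ 10 := by ring

theorem m8_pd (n q A1 A2 B1 B2 : ℕ) (hq : 1 ≤ q) (h : 2 * n < A1 * B1) (m : ℤ)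
    (hm : m ≤ 2 * n) : pd q (Ico (A1:ℤ) A2) (Ico (B1:ℤ) B2) m = 0 := by
  unfold pd
  rw [Nat.cast_eq_zero, card_eq_zero, filter_eq_empty_iff]
  rintro ⟨a, b⟩ hp he
  rw [mem_product, mem_Ico, mem_Ico] at hp
  obtain ⟨⟨h1, _⟩, h2, _⟩ := hp
  simp only at h1 h2 he
  have h3 : (2 * n : ℤ) < A1 * B1 := by exact_mod_cast h
  have h4 : (A1:ℤ) * B1 ≤ a * b := mul_le_mul h1 h2 (by positivity) (le_trans (by positivity) h1)
  have h5 : (1:ℤ) ≤ q := by exact_mod_cast hq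
  have h6 : 0 ≤ a * b := le_trans (by positivity) h4
  have h7 : 1 * (a * b) ≤ (q:ℤ) * (a * b) := mul_le_mul_of_nonneg_right h5 h6
  have h8 : (q:ℤ) * (a * b) = m := by rw [← mul_assoc]; exact he
  rw [h8, one_mul] at h7
  linarith

theorem m8_upper (x a : ℝ) (A B : ℕ) (hx : 0 < x) (hA : x ^ (1 / 2 - 2 * a) ≤ A)
    (hAB : (A:ℝ) * B ≤ x) : (B:ℝ) ≤ x ^ (1 / 2 + 2 * a) := by
  have h1 : 0 < x ^ (1 / 2 - 2 * a) := Real.rpow_pos_of_pos hx _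
  have h2 : x ^ (1 / 2 - 2 * a) * B ≤ x := by
    refine le_trans (mul_le_mul_of_nonneg_right hA (Nat.cast_nonneg B)) hAB
  have h3 : x ^ (1 / 2 - 2 * a) * x ^ (1 / 2 + 2 * a) = x := by
    rw [← Real.rpow_add hx]
    have : (1 / 2 - 2 * a + (1 / 2 + 2 * a) : ℝ) = 1 := by ring
    rw [this, Real.rpow_one]
  have h4 : x ^ (1 / 2 - 2 * a) * B ≤ x ^ (1 / 2 - 2 * a) * x ^ (1 / 2 + 2 * a) := by
    rw [h3]
    exact h2
  exact le_of_mul_le_mul_left h4 h1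

theorem d_out (C2 : ℕ) (h2 : ClassTwo C2)
    (h34 : ∃ κ : ℝ, 0 < κ ∧ κ ≤ 1 / 2 ∧ ∀ ε : ℝ, 0 < ε → ε ≤ κ → ∃ N0 : ℕ, ∀ N : ℕ, N0 ≤ N →
      ∀ A1 A2 B1 B2 : ℕ, (N : ℝ) ^ (1 / 2 - κ) ≤ A1 → (N : ℝ) ^ (1 / 2 - κ) ≤ B1 → A1 ≤ A2 →
      A2 ≤ 2 * A1 → B1 ≤ B2 → B2 ≤ 2 * B1 → A1 * B1 ≤ N →
      ∀ (x H : ℕ) (α : ℝ), (N : ℝ) ^ (1 / 2 - κ) ≤ H →
      ‖∑ m ∈ Ico x (x + H), ((Pool.Agent.Lib.H21T.dbox A1 A2 B1 B2 m : ℂ) -
        (Pool.Agent.Lib.H21T.Mbox ⌊(N : ℝ) ^ ε⌋₊ A1 A2 B1 B2 m : ℂ)) *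
          Pool.Agent.SZW.ee (α * m)‖ ≤ H * (N : ℝ) ^ (-(ε / 2))) :
    ∃ et0 : ℝ, 0 < et0 ∧ ∃ C n0 : ℕ, ∀ n : ℕ, n0 ≤ n → ∀ D : ℝ, (1 + Real.log n) ^ 10 ≤ D →
      (∀ m : ℕ, 1 ≤ m → m ≤ 2 * n → (m.divisors.card : ℝ) ≤ D) → D ^ C ≤ n →
      ∀ R : ℕ, (R : ℝ) ≤ D → ∀ A1 A2 B1 B2 : ℕ,
      ((2 * n : ℕ) : ℝ) ^ (1 / 2 - 2 * et0) ≤ A1 → ((2 * n : ℕ) : ℝ) ^ (1 / 2 - 2 * et0) ≤ B1 →
      A2 ≤ 2 * A1 → B2 ≤ 2 * B1 → ∀ ga : ℕ → ℂ, (∀ q, ‖ga q‖ ≤ 1) → ∀ W f g : ℤ → ℂ,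
      (∀ x, ‖W x‖ ≤ 1) → (∀ x, ‖f x‖ ≤ 1) → (∀ x, ‖g x‖ ≤ 1) →
      (n:ℝ) ^ 2 / D ≤ ‖TF n (fun m => ∑ q ∈ Icc 1 R, ga q *
        pd q (Ico (A1:ℤ) A2) (Ico (B1:ℤ) B2) m) W f g‖ →
      ∃ th : ℝ, (n:ℝ) / D ^ C ≤ ‖∑ z ∈ Icc (1:ℤ) n, g z * ee (th * z)‖ := by
  obtain ⟨ka, hka, hka1, h34⟩ := h34
  have hep : 0 < min ka (1 / 8) := lt_min hka (by norm_num)
  have hepk : min ka (1 / 8) ≤ ka := min_le_left _ _
  have hep8 : min ka (1 / 8) ≤ 1 / 8 := min_le_right _ _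
  obtain ⟨ep, hepd⟩ : ∃ ep : ℝ, ep = min ka (1 / 8) := ⟨_, rfl⟩
  rw [← hepd] at hep hepk hep8
  obtain ⟨C, n1, hcl⟩ := closing (2 * (C2 + 1)) 16 (ep / 2) (by linarith)
  obtain ⟨N0, hN0⟩ := h34 ep hep hepk
  obtain ⟨n0, hn0⟩ := m8_large ka hka hka1 N0 n1
  refine ⟨ka / 8, by linarith, max C 1, n0, ?_⟩
  intro n hn D hD10 hdiv hDC R hR A1 A2 B1 B2 hA hB hA2 hB2 ga hga W f g hW hf hg hT
  obtain ⟨hn1, hnN, hn4, hlog, hE3, hE4, hE5⟩ := hn0 n hn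
  have hL0 : 0 ≤ Real.log n := Real.log_natCast_nonneg n
  have hL1 : 1 ≤ 1 + Real.log n := by linarith
  have hD1 : 1 ≤ D := le_trans (one_le_pow₀ hL1) hD10
  have hD0 : 0 < D := by linarith
  have hnR4 : (4:ℝ) ≤ n := by exact_mod_cast hn4
  have hnR1 : (1:ℝ) ≤ n := by linarith
  have hnR0 : (0:ℝ) < n := by linarith
  obtain ⟨x, hxd⟩ : ∃ x : ℝ, x = ((2 * n : ℕ) : ℝ) := ⟨_, rfl⟩
  have hx2 : x = 2 * n := by
    rw [hxd]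
    push_cast
    rfl
  have hx1 : 1 ≤ x := by rw [hx2]; linarith
  have hx0 : 0 < x := by linarith
  rw [← hxd] at hE3 hE4 hE5 hA hB
  have hDC' : D ^ C ≤ n := le_trans (pow_le_pow_right₀ hD1 (le_max_left _ _)) hDC
  have hDn : D ≤ n := by
    have := le_trans (pow_le_pow_right₀ hD1 (le_max_right C 1)) hDC
    rw [pow_one] at this
    exact this
  have hAx1 : 1 ≤ x ^ (1 / 2 - 2 * (ka / 8)) := Real.one_le_rpow hx1 (by linarith)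
  have hA1 : 1 ≤ A1 := by
    have : (1:ℝ) ≤ A1 := hAx1.trans hA
    exact_mod_cast this
  have hB1 : 1 ≤ B1 := by
    have : (1:ℝ) ≤ B1 := hAx1.trans hB
    exact_mod_cast this
  have hAB : A1 * B1 ≤ 2 * n := by
    by_contra hcon
    rw [not_le] at hcon
    have h0 : TF n (fun m => ∑ q ∈ Icc 1 R, ga q *
        pd q (Ico (A1:ℤ) A2) (Ico (B1:ℤ) B2) m) W f g = 0 := by
      unfold TF
      refine sum_eq_zero fun u hu => sum_eq_zero fun v hv => ?_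
      rw [mem_Icc] at hu hv
      have h1 : ∑ q ∈ Icc 1 R, ga q *
          pd q (Ico (A1:ℤ) A2) (Ico (B1:ℤ) B2) (u + v) = 0 := by
        refine sum_eq_zero fun q hq => ?_
        rw [mem_Icc] at hq
        rw [m8_pd n q A1 A2 B1 B2 hq.1 hcon (u + v) (by omega), mul_zero]
      simp only [h1, mul_zero, zero_mul]
    rw [h0, norm_zero] at hT
    have : 0 < (n:ℝ) ^ 2 / D := by positivity
    linarith
  have hABx : (A1:ℝ) * B1 ≤ x := by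
    rw [hxd]
    exact_mod_cast hAB
  have hBu : (B1:ℝ) ≤ x ^ (1 / 2 + 2 * (ka / 8)) := m8_upper x (ka / 8) A1 B1 hx0 hA hABx
  have hAu : (A1:ℝ) ≤ x ^ (1 / 2 + 2 * (ka / 8)) :=
    m8_upper x (ka / 8) B1 A1 hx0 hB (by rw [mul_comm]; exact hABx)
  obtain ⟨l, hld⟩ : ∃ l : ℕ, l = ⌊x ^ (1 / 2 - 3 * (ka / 8))⌋₊ := ⟨_, rfl⟩
  have hly : 0 ≤ x ^ (1 / 2 - 3 * (ka / 8)) := Real.rpow_nonneg hx0.le _
  have hlu : (l:ℝ) ≤ x ^ (1 / 2 - 3 * (ka / 8)) := by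
    rw [hld]
    exact Nat.floor_le hly
  have hll : x ^ (1 / 2 - 3 * (ka / 8)) - 1 < l := by
    rw [hld]
    have := Nat.lt_floor_add_one (x ^ (1 / 2 - 3 * (ka / 8)))
    linarith
  have hlk : x ^ (1 / 2 - ka) ≤ l := by linarith
  have hn4x : (n:ℝ) ^ (1 / 4 : ℝ) ≤ x ^ (1 / 4 : ℝ) := by
    apply Real.rpow_le_rpow hnR0.le _ (by norm_num)
    rw [hx2]
    linarith
  have hl4 : (n:ℝ) ^ (1 / 4 : ℝ) ≤ l := by linarith
  have hl1 : 1 ≤ l := by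
    have h1 : (1:ℝ) ≤ (n:ℝ) ^ (1 / 4 : ℝ) := Real.one_le_rpow hnR1 (by norm_num)
    have : (1:ℝ) ≤ l := h1.trans hl4
    exact_mod_cast this
  have h14 : x ^ (1 / 4 : ℝ) ≤ x ^ (1 / 2 - 2 * (ka / 8)) :=
    Real.rpow_le_rpow_of_exponent_le hx1 (by linarith)
  have hlAB : l * (A1 + B1) ≤ n := by
    have h1 : (l:ℝ) * (A1 + B1) ≤ x ^ (1 / 2 - 3 * (ka / 8)) *
        (x ^ (1 / 2 + 2 * (ka / 8)) + x ^ (1 / 2 + 2 * (ka / 8))) := by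
      apply mul_le_mul hlu (by linarith) (by positivity) hly
    have h3 : x ^ (1 / 2 - 3 * (ka / 8)) * x ^ (1 / 2 + 2 * (ka / 8)) * x ^ (ka / 8) = x := by
      rw [← Real.rpow_add hx0, ← Real.rpow_add hx0]
      have : (1 / 2 - 3 * (ka / 8) + (1 / 2 + 2 * (ka / 8)) + ka / 8 : ℝ) = 1 := by ring
      rw [this, Real.rpow_one]
    have h4 : 0 ≤ x ^ (1 / 2 - 3 * (ka / 8)) * x ^ (1 / 2 + 2 * (ka / 8)) := by positivity
    have h5 : x ^ (1 / 2 - 3 * (ka / 8)) * x ^ (1 / 2 + 2 * (ka / 8)) * 4 ≤ x := by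
      calc _ ≤ x ^ (1 / 2 - 3 * (ka / 8)) * x ^ (1 / 2 + 2 * (ka / 8)) * x ^ (ka / 8) :=
            mul_le_mul_of_nonneg_left hE3 h4
        _ = x := h3
    have h6 : (l:ℝ) * (A1 + B1) ≤ n := by
      have h7 : (l:ℝ) * (A1 + B1) ≤
          2 * (x ^ (1 / 2 - 3 * (ka / 8)) * x ^ (1 / 2 + 2 * (ka / 8))) := by
        refine h1.trans (le_of_eq ?_)
        ring
      rw [hx2] at h5 h7
      linarith
    exact_mod_cast h6
  obtain ⟨Q, hQd⟩ : ∃ Q : ℕ, Q = ⌊x ^ ep⌋₊ := ⟨_, rfl⟩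
  have hQu : (Q:ℝ) ≤ x ^ (1 / 8 : ℝ) := by
    rw [hQd]
    refine (Nat.floor_le (Real.rpow_nonneg hx0.le _)).trans ?_
    exact Real.rpow_le_rpow_of_exponent_le hx1 hep8
  have hQ1 : 1 ≤ Q := by
    rw [hQd]
    apply Nat.le_floor
    rw [Nat.cast_one]
    exact Real.one_le_rpow hx1 hep.le
  have hx8 : x ^ (1 / 8 : ℝ) * (n:ℝ) ^ (1 / 16 : ℝ) ≤ (n:ℝ) ^ (1 / 4 : ℝ) := by
    have h1 : x ≤ (n:ℝ) ^ (3 / 2 : ℝ) := by
      have h3 : (2:ℝ) ≤ (n:ℝ) ^ (1 / 2 : ℝ) := by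
        have h4 : ((4:ℝ)) ^ (1 / 2 : ℝ) ≤ (n:ℝ) ^ (1 / 2 : ℝ) :=
          Real.rpow_le_rpow (by norm_num) hnR4 (by norm_num)
        have h5 : ((4:ℝ)) ^ (1 / 2 : ℝ) = 2 := by
          rw [← Real.sqrt_eq_rpow]
          rw [show (4:ℝ) = 2 ^ 2 by norm_num]
          exact Real.sqrt_sq (by norm_num)
        rw [h5] at h4
        exact h4
      have h6 : (n:ℝ) ^ (3 / 2 : ℝ) = (n:ℝ) ^ (1 / 2 : ℝ) * n := by
        rw [show (3 / 2 : ℝ) = 1 / 2 + 1 by norm_num, Real.rpow_add hnR0, Real.rpow_one]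
      rw [h6, hx2]
      exact mul_le_mul_of_nonneg_right h3 hnR0.le
    have h2 : x ^ (1 / 8 : ℝ) ≤ (n:ℝ) ^ (3 / 16 : ℝ) := by
      calc x ^ (1 / 8 : ℝ) ≤ ((n:ℝ) ^ (3 / 2 : ℝ)) ^ (1 / 8 : ℝ) :=
            Real.rpow_le_rpow hx0.le h1 (by norm_num)
        _ = (n:ℝ) ^ (3 / 16 : ℝ) := by
            rw [← Real.rpow_mul hnR0.le]
            norm_num
    calc x ^ (1 / 8 : ℝ) * (n:ℝ) ^ (1 / 16 : ℝ) ≤ (n:ℝ) ^ (3 / 16 : ℝ) * (n:ℝ) ^ (1 / 16 : ℝ) :=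
          mul_le_mul_of_nonneg_right h2 (Real.rpow_nonneg hnR0.le _)
      _ = (n:ℝ) ^ (1 / 4 : ℝ) := by
          rw [← Real.rpow_add hnR0]
          norm_num
  have hn4n : (n:ℝ) ^ (1 / 4 : ℝ) ≤ n := by
    calc (n:ℝ) ^ (1 / 4 : ℝ) ≤ (n:ℝ) ^ (1 : ℝ) :=
          Real.rpow_le_rpow_of_exponent_le hnR1 (by norm_num)
      _ = n := Real.rpow_one _
  have hn16 : (1:ℝ) ≤ (n:ℝ) ^ (1 / 16 : ℝ) := Real.one_le_rpow hnR1 (by norm_num)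
  have hQn : Q ≤ n := by
    have h1 : x ^ (1 / 8 : ℝ) ≤ x ^ (1 / 8 : ℝ) * (n:ℝ) ^ (1 / 16 : ℝ) :=
      le_mul_of_one_le_right (Real.rpow_nonneg hx0.le _) hn16
    have : (Q:ℝ) ≤ n := by linarith
    exact_mod_cast this
  have hRn : R ≤ n := by
    have : (R:ℝ) ≤ n := hR.trans hDn
    exact_mod_cast this
  obtain ⟨th, hth⟩ := hcl n hn1 D hD10 hDC' R hR A1 A2 B1 B2 l (by linarith) (by linarith) hl4
    hA2 hB2 hlAB ga hga (fun q => Mq Q A1 A2 B1 B2 q) (fun q hq D' hDD' hD16 W' f' g' hW' hf' hg'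
      hT' => by
      rw [mem_Icc] at hq
      have hD'0 : 0 < D' := by linarith
      have hqQ : ((q * Q : ℕ):ℝ) ≤ (n:ℝ) ^ (1 / 4 : ℝ) := by
        have h1 : (q:ℝ) ≤ D' := by
          have : (q:ℝ) ≤ R := by exact_mod_cast hq.2
          linarith
        have h3 : D' ≤ (n:ℝ) ^ (1 / 16 : ℝ) := by
          have h4 : (D' ^ 16) ^ (1 / 16 : ℝ) ≤ (n:ℝ) ^ (1 / 16 : ℝ) :=
            Real.rpow_le_rpow (by positivity) hD16 (by norm_num)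
          have h5 : (D' ^ 16) ^ (1 / 16 : ℝ) = D' := by
            rw [← Real.rpow_natCast, ← Real.rpow_mul hD'0.le]
            norm_num
          rw [h5] at h4
          exact h4
        rw [Nat.cast_mul]
        calc (q:ℝ) * Q ≤ (n:ℝ) ^ (1 / 16 : ℝ) * x ^ (1 / 8 : ℝ) :=
              mul_le_mul (h1.trans h3) hQu (Nat.cast_nonneg _) (by linarith)
          _ = x ^ (1 / 8 : ℝ) * (n:ℝ) ^ (1 / 16 : ℝ) := mul_comm _ _
          _ ≤ _ := hx8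
      exact mq_cf C2 h2 n Q A1 A2 B1 B2 q (by omega) hQ1 hq.1 hqQ hA1 hB1 hA2 D'
        (by linarith) (fun m hm hm2 => (hdiv m hm hm2).trans hDD') W' f' g' hW' hf' hg' hT')
    (mass_le n Q R A1 A2 B1 B2 (by omega) hQ1 hQn hRn hA1 hB1 hA2 hB2 ga hga)
    (fun q hq u v hu huv hv hvu th => by
      rw [mem_Icc] at hq
      exact hX_of ka ep n Q A1 A2 B1 B2 l q (by omega) hep hl1 hA1 hB1 hq.1 hA2 hB2
        (fun hAA hBB hAB' y H α hH => by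
          have hAk : ((2 * n : ℕ):ℝ) ^ (1 / 2 - ka) ≤ A1 := by
            rw [← hxd]
            refine le_trans ?_ hA
            exact Real.rpow_le_rpow_of_exponent_le hx1 (by linarith)
          have hBk : ((2 * n : ℕ):ℝ) ^ (1 / 2 - ka) ≤ B1 := by
            rw [← hxd]
            refine le_trans ?_ hB
            exact Real.rpow_le_rpow_of_exponent_le hx1 (by linarith)
          have h7 := hN0 (2 * n) hnN A1 A2 B1 B2 hAk hBk hAA hA2 hBB hB2 hAB' y H α hH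
          rw [← hxd, ← hQd] at h7
          rw [← hxd]
          exact h7)
        (by rw [← hxd]; exact hlk) u v hu huv hv hvu th)
    W f g hW hf hg hT
  refine ⟨th, le_trans ?_ hth⟩
  exact div_le_div_of_nonneg_left hnR0.le (pow_pos hD0 _)
    (pow_le_pow_right₀ hD1 (le_max_left _ _))

end Pool.Agent.H44W
end

-- from Lib.H37T.A5
section
/-!
H37T: the inverse theorem for the von Mangoldt function from module B.
-/
namespace Pool.Agent.H37T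
open Finset Pool.Agent.H44W

theorem inv_of_classTwo (h2 : ∃ C : ℕ, ClassTwo C) : INV := by
  obtain ⟨C, hC⟩ := h2
  exact inv_of ⟨C, hC⟩ (d_out C hC Pool.Agent.Lib.H21T.D34)

end Pool.Agent.H37T
end

-- from Lib.H37T.A6
section
/-!
H37T: the inverse theorem for the von Mangoldt function (all modules).
-/
namespace Pool.Agent.H37T

/-- **The inverse theorem**: if `g` has no Fourier coefficient larger than `n ^ (1 - c1)`, then every form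
`∑ f(x) g(y) Λ(x+y) W(x-y)` with bounded `f`, `W` is at most `n ^ (2 - c2)`. -/
theorem inv : INV := inv_of_classTwo Pool.Agent.H3B.class_two

end Pool.Agent.H37T
end
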