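import Pool.Agent.Lib.H59M.M2.D_H59_SchinzelDefs
import Pool.Agent.Lib.H59M.M2.M031
import Pool.Agent.Lib.H59M.M2.M036
import Pool.Agent.Lib.H59M.M2.M053
import Pool.Agent.Lib.H59M.M2.M077
import Pool.Agent.Lib.H59M.M2.M078
import Pool.Agent.Lib.H59M.M2.M080

/-! Merged copies (to shorten the build) of Lib.H24P.FB, Lib.H24P.FC, Lib.H59P.CF0, Lib.H59P.S3, Lib.H24P.G2, Lib.HUK.KBD, Lib.HUK.KB4A, Lib.HUK.KB4, Lib.HUK.KB6. -/

-- from Lib.H24P.FB
section

/-!
# Project H24P, module F: admissibility, counting and the final theorems from the core theorem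
-/

open Finset Polynomial Filter Topology

namespace Pool.Agent.Lib.H24P

open Pool.Agent.Lib.H59P (gl)
open Pool.Agent.Lib.H59 (argSet argCount Admissible primeCount argSet_eq argCount_tendsto)

/-- The system `P_i + h_i`. -/
noncomputable def famP {k : ℕ} (P : Fin k → ℤ[X]) (h : Fin k → ℕ) : Fin k → ℤ[X] :=
  fun i => P i + C (h i : ℤ)

theorem famP_eval {k : ℕ} (P : Fin k → ℤ[X]) (h : Fin k → ℕ) (i : Fin k) (n : ℤ) :
    (famP P h i).eval n = (P i).eval n + (h i : ℤ) := by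
  unfold famP
  rw [eval_add, eval_C]


/-- From admissibility: for every prime `l` some `n` with `l ∤ F_i(n)` and `l ∤ N - G(n)`. -/
theorem fb_adm {k : ℕ} {F : Fin k → ℤ[X]} {G : ℤ[X]} {N : ℕ} (h : Admissible F G N) (l : ℕ)
    (hl : l.Prime) : ∃ n : ℤ, (∀ i, ¬ (l : ℤ) ∣ (F i).eval n) ∧ ¬ (l : ℤ) ∣ N - G.eval n := by
  have h1 := h.2 l hl
  push Not at h1
  obtain ⟨n, hn⟩ := h1
  rw [eval_mul, eval_prod, eval_sub, eval_C] at hn
  refine ⟨n, fun i hi => hn ?_, fun hi => hn (hi.mul_left _)⟩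
  exact (hi.trans (dvd_prod_of_mem (fun j => (F j).eval n) (mem_univ i))).mul_right _


/-- (b) `F_0` is the linear coordinate. -/
theorem fb_b {k : ℕ} {P : Fin k → ℤ[X]} {G F₀ : ℤ[X]} {N : ℕ} {h : Fin k → ℕ}
    (ha : Admissible (Fin.cons F₀ (famP P h) : Fin (k + 1) → ℤ[X]) G N) :
    NoFix (sys F₀ (Fin.cons (-G) P : Fin (k + 1) → ℤ[X]) (Fin.cons N h : Fin (k + 1) → ℕ)) := by
  intro l hl
  obtain ⟨n, h1, h2⟩ := fb_adm ha l hl
  refine ⟨n, fun i => ?_⟩
  refine Fin.cases ?_ (fun i => ?_) i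
  · have h3 := h1 0
    rw [Fin.cons_zero] at h3
    unfold sys
    rw [Fin.cons_zero]
    exact h3
  · unfold sys ran
    rw [Fin.cons_succ]
    refine Fin.cases ?_ (fun i => ?_) i
    · rw [Fin.cons_zero, Fin.cons_zero, eval_neg]
      have h4 : -G.eval n + (N : ℤ) = N - G.eval n := by ring
      rw [h4]
      exact h2
    · rw [Fin.cons_succ, Fin.cons_succ, ← famP_eval]
      have h3 := h1 i.succ
      rwa [Fin.cons_succ] at h3












end Pool.Agent.Lib.H24P
end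

-- from Lib.H24P.FC
section

/-!
# Project H24P, module F: the final theorems from the core theorem
-/

open Finset Polynomial Filter Topology

namespace Pool.Agent.Lib.H24P

open Pool.Agent.Lib.H59 (argSet argCount Admissible primeCount argSet_eq argCount_tendsto)




/-- The size of the side `Y`. -/
theorem fc_Y (G : ℤ[X]) (hG : 1 ≤ G.natDegree) (hl : 0 < G.leadingCoeff) :
    ∀ᶠ Y : ℕ in atTop, (argCount G Y : ℝ) ^ G.natDegree ≤ 2 * Y ∧
      (Y : ℝ) ≤ 2 * G.leadingCoeff.natAbs * (argCount G Y : ℝ) ^ G.natDegree := by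
  have h1 := Pool.Agent.Lib.H33B.argCount_pow G hG hl
  have hb : (1 : ℝ) ≤ G.leadingCoeff := by exact_mod_cast hl
  have hb0 : (0 : ℝ) < G.leadingCoeff := by linarith
  have hna : ((G.leadingCoeff.natAbs : ℕ) : ℝ) = G.leadingCoeff := by
    have h2 : ((G.leadingCoeff.natAbs : ℕ) : ℤ) = G.leadingCoeff := Int.natAbs_of_nonneg hl.le
    rw [← Int.cast_natCast, h2]
  have hi : (G.leadingCoeff : ℝ)⁻¹ ≤ 1 := inv_le_one_of_one_le₀ hb
  have hi0 : 0 < (G.leadingCoeff : ℝ)⁻¹ := inv_pos.2 hb0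
  filter_upwards [h1.eventually (gt_mem_nhds (show (G.leadingCoeff : ℝ)⁻¹ < 2 by linarith)),
    h1.eventually (lt_mem_nhds (show (G.leadingCoeff : ℝ)⁻¹ / 2 < (G.leadingCoeff : ℝ)⁻¹ by linarith)),
    eventually_ge_atTop 1] with Y hY1 hY2 hY3
  have hYp : (0 : ℝ) < Y := by exact_mod_cast hY3
  rw [div_lt_iff₀ hYp] at hY1
  rw [lt_div_iff₀ hYp] at hY2
  refine ⟨hY1.le, ?_⟩
  rw [hna]
  have h3 : (Y : ℝ) = 2 * G.leadingCoeff * ((G.leadingCoeff : ℝ)⁻¹ / 2 * Y) := by
    field_simp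
  rw [h3]
  exact mul_le_mul_of_nonneg_left hY2.le (by positivity)







end Pool.Agent.Lib.H24P
end

-- from Lib.H59P.CF0
section

/-!
# Project H59P, chunk CF0: coefficients from the model
-/

open Finset

namespace Pool.Agent.Lib.H59P

open Pool.Agent.Lib.H68T Pool.Agent.Lib.H18Q

/-- **CF0.** From `Mdl` with `E0 ≤ 1`: the coefficients `B m p = MX px th m p + e m p` satisfy `Cf` with
`mb p = [p = p0] + [p = px, px ≠ p0] + eb p`.

Proof. `MX` is `1` at `p0`, `-th m` at `px` (`0 ≤ th m ≤ 1 - η ≤ 1`), `0` else, and varies by at most `Q^3/X`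
(`Mdl.slow`); `∑ eb ≤ η E0 ≤ 1` (`Finset.sum_ite_eq`). The remaining conclusions are `LevE`. -/
theorem CF0 (Q X : ℕ) (η E0 : ℝ) (px : Ch) (th : ℤ → ℝ) (hQ : 1 ≤ Q) (hM : Mdl Q X η E0 px th)
    (hE : E0 ≤ 1) :
    ∃ (e : ℤ → Ch → ℂ) (eb mb : Ch → ℝ), (∀ p ∈ PC Q, 0 ≤ eb p) ∧ ∑ p ∈ PC Q, eb p ≤ η * E0 ∧
      (∀ m : ℤ, (X : ℤ) ≤ m → m ≤ 4 * X → ∀ p ∈ PC Q, ‖e m p‖ ≤ eb p) ∧
      Cf Q X (fun m p => MX px th m p + e m p) mb := by
  classical
  have hQ0 : (0 : ℝ) ≤ (Q : ℝ) ^ 3 := by positivity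
  obtain ⟨e, eb, heb0, hebs, hlev⟩ := hM.lev
  have hE1 : ∑ p ∈ PC Q, eb p ≤ 1 := by
    refine hebs.trans ?_
    have h1 := hM.eta_pos
    have h2 := hM.eta_le
    nlinarith
  let ma : Ch → ℝ := fun p => (if p = p0 then 1 else if p = px then 1 else 0)
  have hma0 : ∀ p, 0 ≤ ma p := by
    intro p
    change 0 ≤ (if p = p0 then (1 : ℝ) else if p = px then 1 else 0)
    split_ifs <;> norm_num
  have hMXn : ∀ m : ℤ, (X : ℤ) ≤ m → m ≤ 4 * X → ∀ p, ‖MX px th m p‖ ≤ ma p := by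
    intro m h1 h2 p
    change ‖MX px th m p‖ ≤ (if p = p0 then (1 : ℝ) else if p = px then 1 else 0)
    unfold MX
    split_ifs with h3 h4
    · simp
    · rw [norm_neg, Complex.norm_real, Real.norm_eq_abs, abs_of_nonneg (hM.nonneg m h1 h2)]
      linarith [hM.le m h1 h2, hM.eta_pos]
    · simp
  have hXm : ∀ m : ℤ, (X : ℤ) ≤ m → m + 1 ≤ 4 * X → ∀ p,
      ‖MX px th (m + 1) p - MX px th m p‖ ≤ (Q : ℝ) ^ 3 / X := by
    intro m h1 h2 p
    have h0 : (0 : ℝ) ≤ (Q : ℝ) ^ 3 / X := div_nonneg hQ0 (Nat.cast_nonneg X)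
    unfold MX
    split_ifs with h3 h4
    · simpa using h0
    · have h5 := hM.slow m h1 h2
      rw [neg_sub_neg, ← Complex.ofReal_sub, Complex.norm_real, Real.norm_eq_abs, abs_sub_comm]
      exact h5
    · simpa using h0
  refine ⟨e, eb, fun p => ma p + eb p, heb0, hebs, fun m h1 h2 p hp => ((hlev m h1 h2).2 p hp).1, ?_⟩
  refine ⟨fun p hp => add_nonneg (hma0 p) (heb0 p hp), ?_, ?_, ?_, ?_⟩
  · rw [Finset.sum_add_distrib]
    have h1 : ∑ p ∈ PC Q, ma p ≤ 2 := by
      have h2 : ∀ p, ma p ≤ (if p = p0 then (1 : ℝ) else 0) + (if p = px then (1 : ℝ) else 0) := by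
        intro p
        change (if p = p0 then (1 : ℝ) else if p = px then 1 else 0) ≤ _
        split_ifs <;> norm_num
      refine (Finset.sum_le_sum fun p _ => h2 p).trans ?_
      rw [Finset.sum_add_distrib, Finset.sum_ite_eq', Finset.sum_ite_eq']
      split_ifs <;> norm_num
    linarith
  · intro m h1 h2 p hp
    exact (norm_add_le _ _).trans (add_le_add (hMXn m h1 h2 p) ((hlev m h1 h2).2 p hp).1)
  · intro m h1 h2 p hp
    have h3 := hXm m h1 h2 p
    have h4 := ((hlev m h1 (by omega)).2 p hp).2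
    have h5 : MX px th (m + 1) p + e (m + 1) p - (MX px th m p + e m p) =
        (MX px th (m + 1) p - MX px th m p) + (e (m + 1) p - e m p) := by ring
    rw [h5]
    refine (norm_add_le _ _).trans ?_
    have h6 : 2 * (Q : ℝ) ^ 3 / X = (Q : ℝ) ^ 3 / X + (Q : ℝ) ^ 3 / X := by ring
    rw [h6]
    exact add_le_add h3 h4
  · intro m h1 h2
    exact (hlev m h1 h2).1

end Pool.Agent.Lib.H59P
end

-- from Lib.H59P.S3
section

/-!
# Project H59P, chunk S3: telescoping
-/

open Finset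

namespace Pool.Agent.Lib.H59P

open Pool.Agent.Lib.H68T Pool.Agent.Lib.H18Q

/-- Telescoping of a difference of products over `Fin k`.

Proof. Induction on `k` (`Fin.prod_univ_castSucc` or `Fin.prod_univ_succ`), or
`Finset.prod_range`-telescoping: `T_j = ∏_{i<j} b_i ∏_{i≥j} a_i`, `T_0 = ∏ a`, `T_k = ∏ b`. -/
theorem S3 {k : ℕ} (a b : Fin k → ℝ) :
    ∏ i, a i - ∏ i, b i =
      ∑ j, ∏ i, (if i < j then b i else if i = j then a i - b i else a i) := by
  induction k with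
  | zero => simp
  | succ k ih =>
    rw [Fin.sum_univ_succ, Fin.prod_univ_succ a, Fin.prod_univ_succ b]
    have h0 : ∏ i : Fin (k + 1), (if i < 0 then b i else if i = 0 then a i - b i else a i) =
        (a 0 - b 0) * ∏ i : Fin k, a i.succ := by
      rw [Fin.prod_univ_succ]
      simp [Fin.succ_ne_zero]
    have h1 : ∀ j : Fin k, ∏ i : Fin (k + 1),
        (if i < j.succ then b i else if i = j.succ then a i - b i else a i) =
        b 0 * ∏ i : Fin k, (if i < j then b i.succ else if i = j then a i.succ - b i.succ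
          else a i.succ) := by
      intro j
      rw [Fin.prod_univ_succ]
      simp only [Fin.succ_pos, if_true, Fin.succ_lt_succ_iff, Fin.succ_inj]
    rw [h0, Finset.sum_congr rfl fun j _ => h1 j, ← Finset.mul_sum,
      ← ih (fun i => a i.succ) (fun i => b i.succ)]
    ring

end Pool.Agent.Lib.H59P
end

-- from Lib.H24P.G2
section

/-!
# Project H24P, chunk G2 (M): geometry
-/

open Finset Polynomial

namespace Pool.Agent.Lib.H24P

open Pool.Agent.Lib.H68T Pool.Agent.Lib.H18Q Pool.Agent.Lib.H59P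

theorem g2_pow (N n n' : ℤ) (hn : 0 ≤ n) (h : n ≤ n') (h' : n' ≤ N) (j : ℕ) :
    0 ≤ n' ^ j - n ^ j ∧ N * (n' ^ j - n ^ j) ≤ j * N ^ j * (n' - n) := by
  induction j with
  | zero => simp
  | succ j ih =>
    obtain ⟨ih0, ih1⟩ := ih
    have hn' : 0 ≤ n' := hn.trans h
    have hN : 0 ≤ N := hn'.trans h'
    have e1 : n' ^ (j + 1) - n ^ (j + 1) = n' * (n' ^ j - n ^ j) + n ^ j * (n' - n) := by ring
    have hnj : 0 ≤ n ^ j := pow_nonneg hn j
    have hNj : n ^ j ≤ N ^ j := pow_le_pow_left₀ hn (h.trans h') j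
    have hd : 0 ≤ n' - n := by linarith
    refine ⟨?_, ?_⟩
    · rw [e1]
      exact add_nonneg (mul_nonneg hn' ih0) (mul_nonneg hnj hd)
    · rw [e1]
      have h1 : N * (n' * (n' ^ j - n ^ j)) ≤ N * (j * N ^ j * (n' - n)) := by
        have h2 : n' * (N * (n' ^ j - n ^ j)) ≤ n' * (j * N ^ j * (n' - n)) :=
          mul_le_mul_of_nonneg_left ih1 hn'
        have h3 : n' * (j * N ^ j * (n' - n)) ≤ N * (j * N ^ j * (n' - n)) := by
          refine mul_le_mul_of_nonneg_right h' ?_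
          exact mul_nonneg (mul_nonneg (by positivity) (pow_nonneg hN j)) hd
        calc N * (n' * (n' ^ j - n ^ j)) = n' * (N * (n' ^ j - n ^ j)) := by ring
          _ ≤ _ := h2.trans h3
      have h4 : N * (n ^ j * (n' - n)) ≤ N * (N ^ j * (n' - n)) :=
        mul_le_mul_of_nonneg_left (mul_le_mul_of_nonneg_right hNj hd) hN
      calc N * (n' * (n' ^ j - n ^ j) + n ^ j * (n' - n))
          = N * (n' * (n' ^ j - n ^ j)) + N * (n ^ j * (n' - n)) := by ring
        _ ≤ N * (j * N ^ j * (n' - n)) + N * (N ^ j * (n' - n)) := add_le_add h1 h4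
        _ = ((j + 1 : ℕ) : ℤ) * N ^ (j + 1) * (n' - n) := by push_cast; ring

theorem g2_asy (K D : ℝ) (hK : 1 ≤ K) (hD : 0 < D) : ∃ Q0 : ℕ, ∀ Q : ℕ, Q0 ≤ Q →
    3 ≤ Q ∧ 1 ≤ Real.log Q ∧ K ≤ Real.log (Real.log Q) ∧ K * Real.log (D * Real.log Q) ≤ Real.log Q := by
  refine ⟨⌈Real.exp (Real.exp K + 4 * K ^ 2 * D)⌉₊ + 3, fun Q hQ => ?_⟩
  have h3 : 3 ≤ Q := by omega
  have hQ1 : Real.exp (Real.exp K + 4 * K ^ 2 * D) ≤ Q := by
    refine (Nat.le_ceil _).trans ?_
    exact_mod_cast (by omega : ⌈Real.exp (Real.exp K + 4 * K ^ 2 * D)⌉₊ ≤ Q)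
  have hQ0 : (0 : ℝ) < Q := (Real.exp_pos _).trans_le hQ1
  have hl : Real.exp K + 4 * K ^ 2 * D ≤ Real.log Q := (Real.le_log_iff_exp_le hQ0).mpr hQ1
  have hp : 0 < 4 * K ^ 2 * D := by positivity
  have hek : 1 ≤ Real.exp K := Real.one_le_exp (by linarith)
  have hl1 : 1 ≤ Real.log Q := by linarith
  have hl2 : Real.exp K ≤ Real.log Q := by linarith
  have hl3 : 4 * K ^ 2 * D ≤ Real.log Q := by linarith
  have hl0 : 0 < Real.log Q := by linarith
  refine ⟨h3, hl1, (Real.le_log_iff_exp_le hl0).mpr hl2, ?_⟩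
  generalize Real.log Q = t at *
  have hDt : 0 < D * t := mul_pos hD hl0
  have hs : 0 < Real.sqrt (D * t) := Real.sqrt_pos.mpr hDt
  have h4 : Real.log (D * t) ≤ 2 * Real.sqrt (D * t) := by
    have h5 : Real.log (D * t) = 2 * Real.log (Real.sqrt (D * t)) := by
      rw [Real.log_sqrt hDt.le]
      ring
    rw [h5]
    have h6 := Real.log_le_sub_one_of_pos hs
    linarith
  have h7 : 2 * K * Real.sqrt (D * t) ≤ t := by
    have h8 : (2 * K * Real.sqrt (D * t)) ^ 2 ≤ t ^ 2 := by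
      rw [mul_pow, Real.sq_sqrt hDt.le]
      nlinarith [mul_le_mul_of_nonneg_right hl3 hl0.le]
    exact abs_le_of_sq_le_sq' h8 hl0.le |>.2
  have h9 := mul_le_mul_of_nonneg_left h4 (by linarith : 0 ≤ K)
  linarith



/-- The values are in `[Y, 3Y)`. Proof. `8 ∣ M`: `M = 4 m'`, `m'` even, `Y = 3 m'`. -/
theorem G2_val (M x : ℕ) (v : ℤ) (hM : 8 ∣ M) (hv : 8 * |v| ≤ M) (hx : x ∈ Ico M (2 * M)) :
    (Ysc M : ℤ) ≤ v + x ∧ v + x < 3 * Ysc M ∧ 4 * Ysc M = 3 * M := by
  obtain ⟨m, rfl⟩ := hM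
  obtain ⟨hx1, hx2⟩ := mem_Ico.mp hx
  have hY : Ysc (8 * m) = 6 * m := by
    unfold Ysc
    omega
  rw [hY]
  have h1 := neg_le_abs v
  have h2 := le_abs_self v
  push_cast at hv ⊢
  refine ⟨?_, ?_, ?_⟩
  · have h3 : (8 * m : ℤ) ≤ x := by exact_mod_cast hx1
    linarith
  · have h3 : (x : ℤ) < 2 * (8 * m) := by exact_mod_cast hx2
    have h4 : (8 * m : ℤ) ≤ x := by exact_mod_cast hx1
    linarith
  · ring

/-- The regime for the values. Proof. `M_i ≥ L X1^d ≥ 2 X1`, so `Y_i ≥ X1`, and `log X1 ≥ log X - log Q ≥ K log Q`.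
`M_i ≤ X1^d Q^(1/8) ≤ X^(d+1)` (`Q ≤ X`), so `log Y_i ≤ (d+1) log X ≤ (d+1) C log Q`; `log log Y_i ≤ log Q/K` and
`K ≤ log log Y_i` for `Q` large. -/
theorem G2_reg {k : ℕ} (P : Fin k → ℤ[X]) (hP : ∀ i, 1 ≤ (P i).natDegree) (K C : ℝ) (hK : 1 ≤ K) :
    ∃ Q0 : ℕ, ∀ (L Q X X1 : ℕ) (M : Fin k → ℕ), Q0 ≤ Q → 2 ≤ L → Rg (K + 1) C Q X →
    Geo L Q X X1 P M → ∀ i, RegP K Q (Ysc (M i)) ∧ X1 ≤ Ysc (M i) ∧
      Real.log (Ysc (M i)) ≤ ((P i).natDegree + 1) * Real.log X := by
  set D : ℝ := ((∑ i, (P i).natDegree : ℕ) + 1 : ℝ) * max C 1 with hD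
  have hD0 : 0 < D := mul_pos (by positivity) (lt_of_lt_of_le one_pos (le_max_right _ _))
  obtain ⟨Q0, hQ0⟩ := g2_asy K D hK hD0
  refine ⟨Q0, ?_⟩
  intro L Q X X1 M hQ hL hR hG i
  obtain ⟨hQ3, hlQ1, hllQ, hasy⟩ := hQ0 Q hQ
  obtain ⟨hR1, hR2⟩ := hR
  have hX1 : 1 ≤ X1 := hG.pos
  have hXX : X1 ≤ X := hG.le
  have hX1r : (1 : ℝ) ≤ X1 := by exact_mod_cast hX1
  have hXr : (1 : ℝ) ≤ X := by exact_mod_cast hX1.trans hXX
  have hQr : (0 : ℝ) < Q := by
    have : 0 < Q := by omega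
    exact_mod_cast this
  have hlX1 : Real.log X - Real.log Q ≤ Real.log X1 := by
    have h1 : (X : ℝ) ≤ X1 * Q := by exact_mod_cast hG.ge
    have h2 := Real.log_le_log (by linarith) h1
    rw [Real.log_mul (by linarith) hQr.ne'] at h2
    linarith
  have hlX1' : Real.log X1 ≤ Real.log X := Real.log_le_log (by linarith) (by exact_mod_cast hXX)
  have h8 : 8 ∣ M i := (Dvd.intro _ rfl : 8 ∣ 8 * Q ^ 8).trans (hG.dvdM i)
  have hY4 : 4 * Ysc (M i) = 3 * M i := by
    obtain ⟨m, hm⟩ := h8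
    unfold Ysc
    omega
  have hM2 : 2 * X1 ≤ M i := by
    refine le_trans ?_ (hG.lo i)
    refine Nat.mul_le_mul hL ?_
    calc X1 = X1 ^ 1 := (pow_one _).symm
      _ ≤ X1 ^ (P i).natDegree := Nat.pow_le_pow_right hX1 (hP i)
  have hXY : X1 ≤ Ysc (M i) := by omega
  have hYM : Ysc (M i) ≤ M i := by omega
  have hYr : (1 : ℝ) ≤ Ysc (M i) := by exact_mod_cast hX1.trans hXY
  have hlXY : Real.log X1 ≤ Real.log (Ysc (M i)) :=
    Real.log_le_log (by linarith) (by exact_mod_cast hXY)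
  have hlow : K * Real.log Q ≤ Real.log (Ysc (M i)) := by linarith
  have hQX : Real.log Q ≤ Real.log X := by nlinarith
  have hup : Real.log (Ysc (M i)) ≤ ((P i).natDegree + 1) * Real.log X := by
    have h1 : ((Ysc (M i) : ℕ) : ℝ) ≤ (X1 : ℝ) ^ (P i).natDegree * (Q : ℝ) ^ (1 / 8 : ℝ) :=
      (by exact_mod_cast hYM : ((Ysc (M i) : ℕ) : ℝ) ≤ M i).trans (hG.hi i)
    have h2 := Real.log_le_log (by linarith) h1
    rw [Real.log_mul (by positivity) (by positivity), Real.log_pow, Real.log_rpow hQr] at h2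
    have h3 : ((P i).natDegree : ℝ) * Real.log X1 ≤ (P i).natDegree * Real.log X :=
      mul_le_mul_of_nonneg_left hlX1' (by positivity)
    have h4 : (0 : ℝ) ≤ Real.log Q := by linarith
    linarith
  have hlY1 : 1 ≤ Real.log (Ysc (M i)) := by nlinarith
  refine ⟨⟨?_, ?_, hlow⟩, hXY, hup⟩
  · refine hllQ.trans (Real.log_le_log (by linarith) ?_)
    nlinarith
  · refine le_trans (mul_le_mul_of_nonneg_left (Real.log_le_log (by linarith) ?_) (by linarith)) hasy
    refine hup.trans ?_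
    have h5 : Real.log X ≤ max C 1 * Real.log Q :=
      hR2.trans (mul_le_mul_of_nonneg_right (le_max_left _ _) (by linarith))
    have h6 : (((P i).natDegree : ℕ) : ℝ) ≤ ((∑ i, (P i).natDegree : ℕ) : ℝ) := by
      have : (P i).natDegree ≤ ∑ i, (P i).natDegree :=
        single_le_sum (f := fun i => (P i).natDegree) (fun j _ => Nat.zero_le _) (mem_univ i)
      exact_mod_cast this
    have h7 : 0 ≤ max C 1 * Real.log Q := by positivity
    calc (((P i).natDegree : ℝ) + 1) * Real.log X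
        ≤ (((P i).natDegree : ℝ) + 1) * (max C 1 * Real.log Q) :=
          mul_le_mul_of_nonneg_left h5 (by positivity)
      _ ≤ (((∑ i, (P i).natDegree : ℕ) : ℝ) + 1) * (max C 1 * Real.log Q) :=
          mul_le_mul_of_nonneg_right (by linarith) h7
      _ = D * Real.log Q := by rw [hD]; ring

/-- The regime for the linear coordinate, at level `Q^100`. Proof. `X1/2 ≤ Y ≤ A X`, `X ≤ X1 Q`. -/
theorem G2_regB (A : ℕ) (K C : ℝ) (hK : 1 ≤ K) : ∃ Q0 : ℕ, ∀ (Q X X1 Y : ℕ) (B : ℤ[X]), Q0 ≤ Q →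
    Rg (100 * K + 2) C Q X → 0 < X1 → X1 ≤ X → X ≤ X1 * Q → GeoB A X X1 Y B →
    RegP K (Q ^ 100) Y ∧ Real.log Y ≤ 2 * Real.log X := by
  set D : ℝ := 2 * max C 1 with hD
  have hD0 : 0 < D := mul_pos two_pos (lt_of_lt_of_le one_pos (le_max_right _ _))
  obtain ⟨Q0, hQ0⟩ := g2_asy K D hK hD0
  refine ⟨Q0 + A, ?_⟩
  intro Q X X1 Y B hQ hR hX1 hXX hXQ hG
  obtain ⟨hQ3, hlQ1, hllQ, hasy⟩ := hQ0 Q (by omega)
  obtain ⟨hR1, hR2⟩ := hR
  have hX1r : (1 : ℝ) ≤ X1 := by exact_mod_cast hX1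
  have hXr : (1 : ℝ) ≤ X := by exact_mod_cast (le_trans hX1 hXX)
  have hQr : (0 : ℝ) < Q := by
    have : 0 < Q := by omega
    exact_mod_cast this
  have hlX1 : Real.log X - Real.log Q ≤ Real.log X1 := by
    have h1 : (X : ℝ) ≤ X1 * Q := by exact_mod_cast hXQ
    have h2 := Real.log_le_log (by linarith) h1
    rw [Real.log_mul (by linarith) hQr.ne'] at h2
    linarith
  have hY0 : 0 < Y := by
    have := hG.Ylo
    omega
  have hYr : (1 : ℝ) ≤ Y := by exact_mod_cast hY0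
  have hA0 : 0 < A := by
    have h1 := hG.Yhi
    rcases Nat.eq_zero_or_pos A with h | h
    · rw [h, zero_mul] at h1
      omega
    · exact h
  have hAr : (1 : ℝ) ≤ A := by exact_mod_cast hA0
  have hl2 : Real.log 2 ≤ Real.log Q := by
    refine Real.log_le_log two_pos ?_
    have : 2 ≤ Q := by omega
    exact_mod_cast this
  have hlA : Real.log A ≤ Real.log Q := by
    refine Real.log_le_log (by linarith) ?_
    have : A ≤ Q := by omega
    exact_mod_cast this
  have hlY : Real.log X1 ≤ Real.log 2 + Real.log Y := by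
    rw [← Real.log_mul (by norm_num) (by linarith)]
    exact Real.log_le_log (by linarith) (by exact_mod_cast hG.Ylo)
  have hKQ : Real.log Q ≤ K * Real.log Q := by nlinarith
  have hlow : K * (100 * Real.log Q) ≤ Real.log Y := by
    have h1 : (100 * K + 2) * Real.log Q = K * (100 * Real.log Q) + 2 * Real.log Q := by ring
    linarith
  have hQX : Real.log Q ≤ Real.log X := by nlinarith
  have hup : Real.log Y ≤ 2 * Real.log X := by
    have h1 : Real.log Y ≤ Real.log A + Real.log X := by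
      rw [← Real.log_mul (by linarith) (by linarith)]
      exact Real.log_le_log (by linarith) (by exact_mod_cast hG.Yhi)
    linarith
  have hlY1 : Real.log Q ≤ Real.log Y := by
    have h1 : K * (100 * Real.log Q) = 100 * (K * Real.log Q) := by ring
    linarith
  have hlQ100 : Real.log ((Q ^ 100 : ℕ) : ℝ) = 100 * Real.log Q := by
    rw [Nat.cast_pow, Real.log_pow]
    norm_num
  refine ⟨⟨?_, ?_, ?_⟩, hup⟩
  · exact hllQ.trans (Real.log_le_log (by linarith) hlY1)
  · rw [hlQ100]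
    have h5 : Real.log X ≤ max C 1 * Real.log Q :=
      hR2.trans (mul_le_mul_of_nonneg_right (le_max_left _ _) (by linarith))
    have h6 : K * Real.log (Real.log Y) ≤ K * Real.log (D * Real.log Q) := by
      refine mul_le_mul_of_nonneg_left (Real.log_le_log (by linarith) ?_) (by linarith)
      rw [hD]
      linarith
    linarith
  · rw [hlQ100]
    exact hlow

end Pool.Agent.Lib.H24P
end

-- from Lib.HUK.KBD
section

/-!
# Project HUK, module K, part 2: products of components over the vertices (definitions)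

`gk p κ m = (r/φ(r)) conj χ(m) ∏_{l ∣ κ} gl l m` for squarefree `κ` (`H59P/M2A`), `p = (r, χ)`.
-/

open Finset

namespace Pool.Agent.HUK

open Pool.Agent.Lib.H68T (PC)
open Pool.Agent.Lib.H18Q (gk KS)
open Pool.Agent.Lib.H59P (Ch gl)
open Pool.Agent.Lib.H59T (Vl)

noncomputable section

/-- The product of the components `κ ω` at the vertices `y + vl ω h`. -/
def gt {k : ℕ} (p : Ch) (κ : (Fin k → Bool) → ℕ) (y : ℤ) (h : Fin k → ℤ) : ℂ :=
  ∏ ω : Fin k → Bool, cj (sg ω) (gk p (κ ω) (y + vl ω h))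

/-- The local factor at `l`: the vertices in `W`. -/
def lf {k : ℕ} (l : ℕ) (W : Finset (Fin k → Bool)) (y : ℤ) (h : Fin k → ℤ) : ℂ :=
  ∏ ω ∈ W, ((gl l (y + vl ω h) : ℝ) : ℂ)

/-- The character part: the differences of `conj χ`. -/
def cp {k : ℕ} (p : Ch) (y : ℤ) (h : Fin k → ℤ) : ℂ :=
  DL (List.ofFn fun i => lam k i * h i) (fun m : ℤ => (starRingEnd ℂ) (p.2 (m : ZMod p.1))) y

/-- The primes dividing some `κ ω`. -/
def Pk {k : ℕ} (κ : (Fin k → Bool) → ℕ) : Finset ℕ := univ.biUnion fun ω => (κ ω).primeFactors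

/-- Their product. -/
def nk {k : ℕ} (κ : (Fin k → Bool) → ℕ) : ℕ := ∏ l ∈ Pk κ, l

/-- The tuples of moduli between `Q'` and `Q`. -/
def TK (k Q Q' : ℕ) (p : Ch) : Finset ((Fin k → Bool) → ℕ) :=
  Fintype.piFinset fun _ => (KS Q p.1).filter fun κ => Q' < p.1 * κ

end

end Pool.Agent.HUK
end

-- from Lib.HUK.KB4A
section

/-!
# Project HUK, chunk KB4A (M): local sums at a prime
-/

open Finset

namespace Pool.Agent.HUK

open Pool.Agent.Lib.H59P (gl)

theorem kb4a_filter (l : ℕ) (hl : 0 < l) (c : ℤ) :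
    (Ico (0 : ℤ) l).filter (fun y => (l : ℤ) ∣ y + c) = {(-c) % (l : ℤ)} := by
  have hl' : (0 : ℤ) < l := by exact_mod_cast hl
  ext y
  rw [mem_filter, mem_Ico, mem_singleton]
  constructor
  · rintro ⟨⟨h0, h1⟩, h2⟩
    have h3 : y ≡ -c [ZMOD (l : ℤ)] := by
      rw [Int.modEq_iff_dvd]
      have h4 : -c - y = -(y + c) := by ring
      rw [h4]
      exact (dvd_neg).2 h2
    have h5 : y % (l : ℤ) = (-c) % (l : ℤ) := h3
    rw [← h5, Int.emod_eq_of_lt h0 h1]
  · intro h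
    have h1 := Int.emod_nonneg (-c) hl'.ne'
    have h2 := Int.emod_lt_of_pos (-c) hl'
    have h3 := Int.emod_add_mul_ediv (-c) (l : ℤ)
    refine ⟨⟨by rw [h]; exact h1, by rw [h]; exact h2⟩, ⟨-((-c) / (l : ℤ)), ?_⟩⟩
    rw [h]
    linarith

theorem kb4a_sum (l : ℕ) (hl : 0 < l) (c : ℤ) (F : ℝ → ℝ) :
    ∑ y ∈ Ico (0 : ℤ) l, F (gl l (y + c)) = F (-1) + ((l : ℝ) - 1) * F (1 / ((l : ℝ) - 1)) := by
  have h1 : ∀ y ∈ Ico (0 : ℤ) l, F (gl l (y + c)) =
      F (1 / ((l : ℝ) - 1)) + (if (l : ℤ) ∣ y + c then F (-1) - F (1 / ((l : ℝ) - 1)) else 0) := by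
    intro y _
    unfold gl
    split_ifs
    · ring
    · ring
  rw [sum_congr rfl h1, sum_add_distrib, ← sum_filter, kb4a_filter l hl c, sum_singleton, sum_const,
    Int.card_Ico, sub_zero, Int.toNat_natCast, nsmul_eq_mul]
  ring

theorem kb4a_one (l : ℕ) (hl : l.Prime) : (1 : ℝ) ≤ (l : ℝ) - 1 := by
  have h : (2 : ℝ) ≤ l := by exact_mod_cast hl.two_le
  linarith

/-- `|gl l m| ≤ 1` (`l - 1 ≥ 1`). -/
theorem KB4A_le (l : ℕ) (hl : l.Prime) (m : ℤ) : |gl l m| ≤ 1 := by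
  have h1 := kb4a_one l hl
  unfold gl
  split_ifs
  · rw [abs_neg, abs_one]
  · rw [abs_of_nonneg (by positivity), div_le_one (by linarith)]
    exact h1

/-- `gl l m` depends only on `m` modulo `l`. -/
theorem KB4A_mod (l : ℕ) (m m' : ℤ) (h : (l : ℤ) ∣ m - m') : gl l m = gl l m' := by
  have h1 : (l : ℤ) ∣ m ↔ (l : ℤ) ∣ m' := dvd_iff_dvd_of_dvd_sub h
  unfold gl
  by_cases h2 : (l : ℤ) ∣ m
  · rw [if_pos h2, if_pos (h1.1 h2)]
  · rw [if_neg h2, if_neg fun h3 => h2 (h1.2 h3)]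

/-- Exactly one `y ∈ [0, l)` is divisible by `l` after the shift: `-1 + (l - 1) / (l - 1) = 0`. -/
theorem KB4A_zero (l : ℕ) (hl : l.Prime) (c : ℤ) : ∑ y ∈ Ico (0 : ℤ) l, gl l (y + c) = 0 := by
  have h1 := kb4a_one l hl
  have h2 := kb4a_sum l hl.pos c (fun x => x)
  rw [h2, mul_one_div_cancel (by linarith)]
  ring

/-- In the same way `1 + (l - 1) / (l - 1) = 2`. -/
theorem KB4A_two (l : ℕ) (hl : l.Prime) (c : ℤ) : ∑ y ∈ Ico (0 : ℤ) l, |gl l (y + c)| = 2 := by
  have h1 := kb4a_one l hl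
  have h2 := kb4a_sum l hl.pos c (fun x => |x|)
  rw [h2, abs_of_nonneg (by positivity : (0 : ℝ) ≤ 1 / ((l : ℝ) - 1)), mul_one_div_cancel (by linarith), abs_neg, abs_one]
  norm_num

/-- `l ∤ c - c'`: the zeros of the two factors are different, so the sum is `2 / (l - 1) + (l - 2) / (l - 1)^2 ≤ 3 / (l - 1) ≤ 6 / l`. (It suffices:
`|gl (y+c)| |gl (y+c')| ≤ (|gl (y+c)| + |gl(y+c')|) / (l - 1)` if not both are `1`, then `KB4A_two` gives `4 / (l - 1)`; with the bound `8 / l`.) -/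
theorem KB4A_pair (l : ℕ) (hl : l.Prime) (c c' : ℤ) (h : ¬ (l : ℤ) ∣ c - c') :
    ∑ y ∈ Ico (0 : ℤ) l, |gl l (y + c)| * |gl l (y + c')| ≤ 8 / l := by
  have h1 := kb4a_one l hl
  have hl2 : (2 : ℝ) ≤ l := by exact_mod_cast hl.two_le
  have hx : (0 : ℝ) ≤ 1 / ((l : ℝ) - 1) := by positivity
  have h2 : ∀ y ∈ Ico (0 : ℤ) l, |gl l (y + c)| * |gl l (y + c')| ≤
      (|gl l (y + c)| + |gl l (y + c')|) * (1 / ((l : ℝ) - 1)) := by
    intro y _
    have ha := abs_nonneg (gl l (y + c))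
    have hb := abs_nonneg (gl l (y + c'))
    have h3 : |gl l (y + c)| = 1 / ((l : ℝ) - 1) ∨ |gl l (y + c')| = 1 / ((l : ℝ) - 1) := by
      by_cases h4 : (l : ℤ) ∣ y + c
      · right
        have h5 : ¬ (l : ℤ) ∣ y + c' := by
          intro h6
          apply h
          have h7 : c - c' = (y + c) - (y + c') := by ring
          rw [h7]
          exact dvd_sub h4 h6
        unfold gl
        rw [if_neg h5, abs_of_nonneg hx]
      · left
        unfold gl
        rw [if_neg h4, abs_of_nonneg hx]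
    rcases h3 with h3 | h3
    · rw [h3]
      nlinarith [mul_nonneg hx hx]
    · rw [h3]
      nlinarith [mul_nonneg hx hx]
  refine (sum_le_sum h2).trans ?_
  rw [← sum_mul, sum_add_distrib, KB4A_two l hl c, KB4A_two l hl c', mul_one_div,
    div_le_div_iff₀ (by linarith) (by linarith)]
  linarith

/-- Periodicity of the local factor: `l ∣ vl ω h - vl ω h'` if `l ∣ h i - h' i` for all `i`; `KB4A_mod`. -/
theorem KB4A_per {k : ℕ} (l : ℕ) (W : Finset (Fin k → Bool)) : Pe l (lf (k := k) l W) := by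
  intro y y' h h' hy hh
  unfold lf
  refine prod_congr rfl fun ω _ => ?_
  rw [KB4A_mod l (y + vl ω h) (y' + vl ω h') ?_]
  have h1 : (y + vl ω h) - (y' + vl ω h') = (y - y') + ∑ i, (if ω i then lam k i * h i else 0) -
      ∑ i, (if ω i then lam k i * h' i else 0) := by
    unfold vl vt
    ring
  rw [h1, add_sub_assoc, ← sum_sub_distrib]
  refine dvd_add hy (dvd_sum fun i _ => ?_)
  split_ifs
  · rw [← mul_sub]
    exact Dvd.dvd.mul_left (hh i) _
  · rw [sub_zero]
    exact dvd_zero _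

end Pool.Agent.HUK
end

-- from Lib.HUK.KB4
section

/-!
# Project HUK, chunk KB4 (M): the local factor at a prime is at most `C / l²`
-/

open Finset

namespace Pool.Agent.HUK

open Pool.Agent.Lib.H59P (gl)

/-- two arguments which agree outside of one coordinate -/
theorem kb4_diff (k : ℕ) (ω ω' : Fin k → Bool) (i : Fin k) (hi : ω i ≠ ω' i) (h h' : Fin k → ℤ) (hj : ∀ j, j ≠ i → h j = h' j) :
    (vl ω h - vl ω' h) - (vl ω h' - vl ω' h') = lam k i * (h i - h' i) ∨
      (vl ω h - vl ω' h) - (vl ω h' - vl ω' h') = -(lam k i * (h i - h' i)) := by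
  have e1 : (vl ω h - vl ω' h) - (vl ω h' - vl ω' h') =
      ∑ j, (((if ω j then lam k j * h j else 0) - (if ω' j then lam k j * h j else 0)) -
        ((if ω j then lam k j * h' j else 0) - (if ω' j then lam k j * h' j else 0))) := by
    unfold vl vt
    simp only [Finset.sum_sub_distrib]
  have e2 : ∑ j, (((if ω j then lam k j * h j else 0) - (if ω' j then lam k j * h j else 0)) -
        ((if ω j then lam k j * h' j else 0) - (if ω' j then lam k j * h' j else 0))) =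
      (((if ω i then lam k i * h i else 0) - (if ω' i then lam k i * h i else 0)) -
        ((if ω i then lam k i * h' i else 0) - (if ω' i then lam k i * h' i else 0))) := by
    refine Finset.sum_eq_single i (fun j _ hji => ?_) (fun hn => absurd (Finset.mem_univ i) hn)
    rw [hj j hji, sub_self]
  rw [e1, e2]
  rcases Bool.eq_false_or_eq_true (ω i) with h1 | h1
  · have h2 : ω' i = false := by
      rw [h1] at hi
      exact (Bool.eq_false_or_eq_true (ω' i)).resolve_left (fun h => hi h.symm)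
    left
    rw [h1, h2]
    simp only [if_true, Bool.false_eq_true, if_false]
    ring
  · have h2 : ω' i = true := by
      rw [h1] at hi
      exact (Bool.eq_false_or_eq_true (ω' i)).resolve_right (fun h => hi h.symm)
    right
    rw [h1, h2]
    simp only [if_true, Bool.false_eq_true, if_false]
    ring

/-- the product over `W` is at most the product of two factors -/
theorem kb4_prod {α : Type*} [DecidableEq α] (W : Finset α) (f : α → ℝ) (h0 : ∀ a, 0 ≤ f a) (h1 : ∀ a, f a ≤ 1) {a b : α}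
    (ha : a ∈ W) (hb : b ∈ W) (hab : b ≠ a) : ∏ x ∈ W, f x ≤ f a * f b := by
  rw [← Finset.mul_prod_erase W f ha]
  refine mul_le_mul_of_nonneg_left ?_ (h0 a)
  rw [← Finset.mul_prod_erase (W.erase a) f (Finset.mem_erase.2 ⟨hab, hb⟩)]
  exact mul_le_of_le_one_right (h0 b) (Finset.prod_le_one (fun x _ => h0 x) (fun x _ => h1 x))

/-- Two different vertices have congruent values for few `h`. Proof. There is `i` with `ω i ≠ ω' i`; `vl ω h - vl ω' h = ± lam k i * h i + (terms with the other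
coordinates)`, `1 ≤ lam k i ≤ k < l`; so for fixed other coordinates at most one `h i ∈ [0, l)` is possible (`l` prime). The map
`h ↦ (fun j : {j // j ≠ i} => h j)`, or `Function.update h i 0`, is injective on the set, and its image is in a set with `l^(k-1)` elements. -/
theorem KB4_bad (k l : ℕ) (hl : l.Prime) (hk : k < l) (ω ω' : Fin k → Bool) (h : ω ≠ ω') :
    ((((Fintype.piFinset (fun _ : Fin k => Ico (0 : ℤ) l)).filter fun h => (l : ℤ) ∣ vl ω h - vl ω' h).card : ℕ) : ℝ) ≤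
      (l : ℝ) ^ k / l := by
  classical
  obtain ⟨i, hi⟩ := Function.ne_iff.1 h
  set S := (Fintype.piFinset (fun _ : Fin k => Ico (0 : ℤ) l)).filter fun h => (l : ℤ) ∣ vl ω h - vl ω' h with hS
  have hl0 : 0 < l := hl.pos
  have hlam : ¬ (l : ℤ) ∣ lam k i := by
    intro hd
    have h1 : 0 < lam k i := by
      unfold lam
      have := i.2
      omega
    have h2 := Int.le_of_dvd h1 hd
    have h3 : lam k i ≤ k := by
      unfold lam
      omega
    omega
  have hpr : Prime (l : ℤ) := Nat.prime_iff_prime_int.1 hl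
  have hcard : S.card * l ≤ l ^ k := by
    have h1 : (S ×ˢ Ico (0 : ℤ) l).card ≤ (Fintype.piFinset (fun _ : Fin k => Ico (0 : ℤ) l)).card := by
      refine Finset.card_le_card_of_injOn (fun p => Function.update p.1 i p.2) ?_ ?_
      · rintro ⟨h, x⟩ hp
        have hp' := Finset.mem_product.1 hp
        have h3 := Fintype.mem_piFinset.1 (Finset.mem_filter.1 hp'.1).1
        show Function.update h i x ∈ (Fintype.piFinset (fun _ : Fin k => Ico (0 : ℤ) l) : Finset (Fin k → ℤ))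
        rw [Fintype.mem_piFinset]
        intro j
        by_cases hj : j = i
        · subst hj
          rw [Function.update_self]
          exact hp'.2
        · rw [Function.update_of_ne hj]
          exact h3 j
      · rintro ⟨h, x⟩ hp ⟨h', x'⟩ hp' heq
        have hp1 := Finset.mem_product.1 hp
        have hp1' := Finset.mem_product.1 hp'
        have hm := Finset.mem_filter.1 hp1.1
        have hm' := Finset.mem_filter.1 hp1'.1
        have heq' : Function.update h i x = Function.update h' i x' := heq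
        have hx : x = x' := by
          have := congrFun heq' i
          rwa [Function.update_self, Function.update_self] at this
        have hj : ∀ j, j ≠ i → h j = h' j := by
          intro j hji
          have := congrFun heq' j
          rwa [Function.update_of_ne hji, Function.update_of_ne hji] at this
        have hd : (l : ℤ) ∣ lam k i * (h i - h' i) := by
          have h5 := dvd_sub hm.2 hm'.2
          rcases kb4_diff k ω ω' i hi h h' hj with h6 | h6
          · rwa [h6] at h5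
          · rw [h6] at h5
            exact (dvd_neg.1 h5)
        have hd2 : (l : ℤ) ∣ h i - h' i := (hpr.dvd_or_dvd hd).resolve_left hlam
        have hb1 : 0 ≤ h i ∧ h i < l := Finset.mem_Ico.1 (Fintype.mem_piFinset.1 hm.1 i)
        have hb2 : 0 ≤ h' i ∧ h' i < l := Finset.mem_Ico.1 (Fintype.mem_piFinset.1 hm'.1 i)
        have h7 : h i = h' i := by
          obtain ⟨c, hc⟩ := hd2
          have hc0 : c = 0 := by
            by_contra hne
            rcases lt_or_gt_of_ne hne with hlt | hgt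
            · have : (l : ℤ) * c ≤ (l : ℤ) * (-1) := mul_le_mul_of_nonneg_left (by omega) (by positivity)
              omega
            · have : (l : ℤ) * 1 ≤ (l : ℤ) * c := mul_le_mul_of_nonneg_left (by omega) (by positivity)
              omega
          rw [hc0, mul_zero] at hc
          omega
        have h8 : h = h' := by
          funext j
          by_cases hji : j = i
          · rw [hji]
            exact h7
          · exact hj j hji
        rw [h8, hx]
    rw [Finset.card_product, Fintype.card_piFinset_const, Int.card_Ico] at h1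
    simpa using h1
  rw [le_div_iff₀ (by exact_mod_cast hl0)]
  exact_mod_cast hcard

/-- Proof. If `l ≤ k`: `Av ≤ 1 ≤ k² / l²` (`KB1_one`, `KB4A_le`). Let `k < l`. If `W = {ω}`: all inner sums are `0` (`KB4A_zero`), so `Av = 0`. Otherwise
let `ω ≠ ω'` in `W`. The inner sum is at most `∑_y ∏_{W} |gl|`, at most `∑_y |gl l (y + vl ω h)| = 2` (`KB4A_two`; the other factors are at most `1`), and if
`l ∤ vl ω h - vl ω' h` at most `∑_y |gl (y + vl ω h)| |gl (y + vl ω' h)| ≤ 8 / l` (`KB4A_pair`). By `KB4_bad`: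
`Av ≤ (2 l^k / l + l^k 8 / l) / l^(k+1) = 10 / l²`. -/
theorem KB4_loc (k l : ℕ) (hl : l.Prime) (W : Finset (Fin k → Bool)) (hW : W.Nonempty) :
    Av k l (lf l W) ≤ (10 + (k : ℝ) ^ 2) / (l : ℝ) ^ 2 := by
  classical
  have hl0 : (0 : ℝ) < l := by exact_mod_cast hl.pos
  have hnorm : ∀ (y : ℤ) (h : Fin k → ℤ), ‖lf l W y h‖ = ∏ ω ∈ W, |gl l (y + vl ω h)| := by
    intro y h
    unfold lf
    rw [norm_prod]
    exact Finset.prod_congr rfl fun ω _ => by rw [Complex.norm_real, Real.norm_eq_abs]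
  by_cases hk : k < l
  · obtain ⟨ω, hω⟩ := hW
    by_cases hone : ∀ ω' ∈ W, ω' = ω
    · have hWe : W = {ω} := by
        refine Finset.eq_singleton_iff_unique_mem.2 ⟨hω, hone⟩
      have hz : Av k l (lf l W) = 0 := by
        unfold Av
        rw [div_eq_zero_iff]
        left
        refine Finset.sum_eq_zero fun h _ => ?_
        rw [norm_eq_zero]
        have e1 : ∀ y ∈ Ico (0 : ℤ) l, lf l W y h = ((gl l (y + vl ω h) : ℝ) : ℂ) := by
          intro y _
          unfold lf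
          rw [hWe, Finset.prod_singleton]
        rw [Finset.sum_congr rfl e1, ← Complex.ofReal_sum, KB4A_zero l hl]
        exact Complex.ofReal_zero
      rw [hz]
      positivity
    · push Not at hone
      obtain ⟨ω', hω', hne⟩ := hone
      have hI : ∀ h : Fin k → ℤ, ‖∑ y ∈ Ico (0 : ℤ) l, lf l W y h‖ ≤
          ∑ y ∈ Ico (0 : ℤ) l, |gl l (y + vl ω h)| * |gl l (y + vl ω' h)| := by
        intro h
        refine (norm_sum_le _ _).trans (Finset.sum_le_sum fun y _ => ?_)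
        rw [hnorm]
        exact kb4_prod W (fun ω => |gl l (y + vl ω h)|) (fun _ => abs_nonneg _) (fun _ => KB4A_le l hl _) hω hω' hne
      have hI2 : ∀ h : Fin k → ℤ, ‖∑ y ∈ Ico (0 : ℤ) l, lf l W y h‖ ≤ 2 := by
        intro h
        refine (hI h).trans ?_
        rw [← KB4A_two l hl (vl ω h)]
        exact Finset.sum_le_sum fun y _ => mul_le_of_le_one_right (abs_nonneg _) (KB4A_le l hl _)
      have hpt : ∀ h ∈ Fintype.piFinset (fun _ : Fin k => Ico (0 : ℤ) l), ‖∑ y ∈ Ico (0 : ℤ) l, lf l W y h‖ ≤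
          (if (l : ℤ) ∣ vl ω h - vl ω' h then (2 : ℝ) else 0) + 8 / l := by
        intro h _
        split_ifs with hd
        · refine (hI2 h).trans ?_
          have : (0 : ℝ) ≤ 8 / l := by positivity
          linarith
        · rw [zero_add]
          exact (hI h).trans (KB4A_pair l hl _ _ hd)
      have hsum := Finset.sum_le_sum hpt
      rw [Finset.sum_add_distrib, Finset.sum_const, Fintype.card_piFinset_const, Int.card_Ico, ← Finset.sum_filter,
        Finset.sum_const] at hsum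
      have hbad := KB4_bad k l hl hk ω ω' (Ne.symm hne)
      unfold Av
      have hpow : (0 : ℝ) < (l : ℝ) ^ (k + 1) := by positivity
      rw [div_le_div_iff₀ hpow (by positivity)]
      simp only [nsmul_eq_mul, sub_zero, Int.toNat_natCast, Nat.cast_pow] at hsum
      have h10 : (∑ h ∈ Fintype.piFinset (fun _ : Fin k => Ico (0 : ℤ) l), ‖∑ y ∈ Ico (0 : ℤ) l, lf l W y h‖) ≤
          10 * ((l : ℝ) ^ k / l) := by
        refine hsum.trans ?_
        have e1 : (l : ℝ) ^ k * (8 / l) = 8 * ((l : ℝ) ^ k / l) := by ring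
        rw [e1]
        nlinarith [hbad]
      have e2 : (10 : ℝ) * ((l : ℝ) ^ k / l) * (l : ℝ) ^ 2 = 10 * (l : ℝ) ^ (k + 1) := by
        field_simp
        ring
      calc (∑ h ∈ Fintype.piFinset (fun _ : Fin k => Ico (0 : ℤ) l), ‖∑ y ∈ Ico (0 : ℤ) l, lf l W y h‖) * (l : ℝ) ^ 2
          ≤ 10 * ((l : ℝ) ^ k / l) * (l : ℝ) ^ 2 := mul_le_mul_of_nonneg_right h10 (by positivity)
        _ = 10 * (l : ℝ) ^ (k + 1) := e2
        _ ≤ (10 + (k : ℝ) ^ 2) * (l : ℝ) ^ (k + 1) := by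
            refine mul_le_mul_of_nonneg_right ?_ hpow.le
            have : (0 : ℝ) ≤ (k : ℝ) ^ 2 := by positivity
            linarith
  · refine (KB1_one k l hl.pos _ ?_).trans ?_
    · intro y h
      rw [hnorm]
      exact Finset.prod_le_one (fun _ _ => abs_nonneg _) (fun _ _ => KB4A_le l hl _)
    · rw [le_div_iff₀ (by positivity), one_mul]
      have h1 : (l : ℝ) ≤ k := by exact_mod_cast not_lt.1 hk
      have h2 : (l : ℝ) ^ 2 ≤ (k : ℝ) ^ 2 := pow_le_pow_left₀ hl0.le h1 2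
      linarith

end Pool.Agent.HUK
end

-- from Lib.HUK.KB6
section

/-!
# Project HUK, chunk KB6 (M): factorization of the product over the vertices
-/

open Finset

namespace Pool.Agent.HUK

open Pool.Agent.Lib.H18Q (gk KS)
open Pool.Agent.Lib.H59P (Ch gl)

theorem kb6_cj_real (n : ℕ) (a : ℝ) : cj n (a : ℂ) = (a : ℂ) := by
  unfold cj
  split_ifs
  · rfl
  · exact Complex.conj_ofReal a

/-- Proof. `M2a`: `gk p κ m = (r/φ(r)) conj χ(m) ∏_{l ∈ κ.primeFactors} gl l m` (`κ` squarefree). `cj n` is multiplicative (`p0_cj_mul`) and fixes real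
numbers; `DL_prod` for `cp`; there are `2^k` vertices; and
`∏_ω ∏_{l ∈ (κ ω).primeFactors} G l ω = ∏_{l ∈ Pk κ} ∏_{ω, l ∣ κ ω} G l ω` (`Finset.prod_comm'` or `Finset.prod_subset` with `ite`; `κ ω ≠ 0`, the elements
of `Pk κ` are primes, so `l ∣ κ ω ↔ l ∈ (κ ω).primeFactors`). -/
theorem KB6_fac {k : ℕ} (p : Ch) (κ : (Fin k → Bool) → ℕ) (hκ : ∀ ω, Squarefree (κ ω)) (y : ℤ) (h : Fin k → ℤ) :
    gt p κ y h = ((((p.1 : ℝ) / (Nat.totient p.1 : ℝ)) ^ (2 ^ k) : ℝ) : ℂ) *
      (cp p y h * ∏ l ∈ Pk κ, lf l (univ.filter fun ω => l ∣ κ ω) y h) := by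
  classical
  have h1 : ∀ ω : Fin k → Bool, cj (sg ω) (gk p (κ ω) (y + vl ω h)) =
      ((((p.1 : ℝ) / (Nat.totient p.1 : ℝ)) : ℝ) : ℂ) *
        (cj (sg ω) ((starRingEnd ℂ) (p.2 ((y + vl ω h : ℤ) : ZMod p.1))) *
          ∏ l ∈ (κ ω).primeFactors, ((gl l (y + vl ω h) : ℝ) : ℂ)) := by
    intro ω
    unfold gk
    rw [Pool.Agent.Lib.H59P.M2a (κ ω) (hκ ω), p0_cj_mul, p0_cj_mul, kb6_cj_real, kb6_cj_real,
      Complex.ofReal_prod, mul_assoc]
  have h2 : cp p y h = ∏ ω : Fin k → Bool,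
      cj (sg ω) ((starRingEnd ℂ) (p.2 ((y + vl ω h : ℤ) : ZMod p.1))) := by
    unfold cp
    rw [DL_prod]
    rfl
  have h3 : ∏ ω : Fin k → Bool, ∏ l ∈ (κ ω).primeFactors, ((gl l (y + vl ω h) : ℝ) : ℂ) =
      ∏ l ∈ Pk κ, lf l (univ.filter fun ω => l ∣ κ ω) y h := by
    unfold lf
    refine Finset.prod_comm' ?_
    intro ω l
    simp only [Finset.mem_univ, true_and, Finset.mem_filter]
    constructor
    · intro hl
      refine ⟨Nat.dvd_of_mem_primeFactors hl, ?_⟩
      exact Finset.mem_biUnion.2 ⟨ω, Finset.mem_univ _, hl⟩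
    · rintro ⟨hl, hl2⟩
      obtain ⟨ω', -, hω'⟩ := Finset.mem_biUnion.1 hl2
      exact Nat.mem_primeFactors.2 ⟨Nat.prime_of_mem_primeFactors hω', hl, (hκ ω).ne_zero⟩
  unfold gt
  rw [Finset.prod_congr rfl fun ω _ => h1 ω, Finset.prod_mul_distrib, Finset.prod_mul_distrib,
    Finset.prod_const, h2, h3]
  congr 1
  rw [Complex.ofReal_pow]
  congr 1
  rw [Finset.card_univ, Fintype.card_fun, Fintype.card_bool, Fintype.card_fin]

/-- `κ ω ∣ nk κ` (squarefree: `Nat.prod_primeFactors_of_squarefree`), `nk κ ∣ ∏ κ ω` hence `nk κ ≤ ∏ κ ω`, the primes in `Pk κ` are coprime to `r`. -/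
theorem KB6_nk {k : ℕ} (Q : ℕ) (r : ℕ) (κ : (Fin k → Bool) → ℕ) (hκ : ∀ ω, κ ω ∈ KS Q r) :
    (∀ ω, κ ω ∣ nk κ) ∧ 1 ≤ nk κ ∧ nk κ ≤ ∏ ω, κ ω ∧ (∀ l ∈ Pk κ, l.Prime ∧ Nat.Coprime l r) ∧ Squarefree (nk κ) ∧
      (nk κ).primeFactors = Pk κ := by
  classical
  have hK : ∀ ω, Squarefree (κ ω) ∧ Nat.Coprime (κ ω) r := by
    intro ω
    have h1 := hκ ω
    unfold Pool.Agent.Lib.H18Q.KS at h1
    exact (Finset.mem_filter.1 h1).2
  have hP : ∀ l ∈ Pk κ, ∃ ω, l ∈ (κ ω).primeFactors := by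
    intro l hl
    obtain ⟨ω, -, hω⟩ := Finset.mem_biUnion.1 hl
    exact ⟨ω, hω⟩
  have hp : ∀ l ∈ Pk κ, l.Prime := by
    intro l hl
    obtain ⟨ω, hω⟩ := hP l hl
    exact Nat.prime_of_mem_primeFactors hω
  have hdiv : ∀ ω, κ ω ∣ nk κ := by
    intro ω
    have h1 : ∏ l ∈ (κ ω).primeFactors, l ∣ ∏ l ∈ Pk κ, l := by
      refine Finset.prod_dvd_prod_of_subset _ _ _ ?_
      intro l hl
      exact Finset.mem_biUnion.2 ⟨ω, Finset.mem_univ _, hl⟩
    rw [Nat.prod_primeFactors_of_squarefree (hK ω).1] at h1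
    exact h1
  have hpos : 0 < nk κ := Finset.prod_pos fun l hl => (hp l hl).pos
  have hdv : nk κ ∣ ∏ ω, κ ω := by
    refine Finset.prod_primes_dvd _ (fun l hl => (hp l hl).prime) ?_
    intro l hl
    obtain ⟨ω, hω⟩ := hP l hl
    exact (Nat.dvd_of_mem_primeFactors hω).trans (Finset.dvd_prod_of_mem κ (Finset.mem_univ ω))
  refine ⟨hdiv, hpos, ?_, ?_, ?_, Nat.primeFactors_prod hp⟩
  · exact Nat.le_of_dvd (Finset.prod_pos fun ω _ => Nat.pos_of_ne_zero (hK ω).1.ne_zero) hdv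
  · intro l hl
    obtain ⟨ω, hω⟩ := hP l hl
    exact ⟨hp l hl, Nat.Coprime.coprime_dvd_left (Nat.dvd_of_mem_primeFactors hω) (hK ω).2⟩
  · refine Finset.squarefree_prod_of_pairwise_isCoprime ?_ fun l hl => (hp l hl).prime.squarefree
    intro a ha b hb hab
    exact (Nat.coprime_iff_isRelPrime).1 ((Nat.coprime_primes (hp a ha) (hp b hb)).2 hab)

end Pool.Agent.HUK
end
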