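import Pool.Agent.Lib.H59M.M2.M024
import Pool.Agent.Lib.H59M.M2.M072
import Pool.Agent.Lib.H59M.M2.M080
import Pool.Agent.Lib.H59M.M2.M082

/-! Merged copies (to shorten the build) of Lib.H24P.P0, Lib.H59P.M3F, Lib.H24P.P2, Lib.H24P.B1, Lib.H24P.B3, Lib.H24P.B4, Lib.H24P.B2, Lib.H59P.M5A, Lib.H59P.M5B, Lib.H59P.C3A, Lib.H59P.C3, Lib.H59P.X1A, Lib.H59P.X1. -/

-- from Lib.H24P.P0
section

/-!
# Project H24P, chunk P0 (S/M): bounds (port of H59P/M3A, second half)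
-/

open Finset

namespace Pool.Agent.Lib.H24P

open Pool.Agent.Lib.H68T Pool.Agent.Lib.H18Q Pool.Agent.Lib.H59P

/-- Proof. As `M3a_Ph`: `‖cj‖ ≤ 1`, `0 ≤ uu`. -/
theorem P0_Ph {k : ℕ} (p : Fin k → Ch) (P : Finset ℕ) (hP : ∀ l ∈ P, l.Prime) (m : Fin k → ℤ) :
    ‖Phf p P m‖ ≤ ∏ i, uu P (m i) := by
  unfold Phf
  rw [norm_prod]
  apply Finset.prod_le_prod (fun i _ => norm_nonneg _)
  intro i _
  have h0 := M3a_uu_nonneg P hP (m i)
  rw [norm_mul, Complex.norm_real, Real.norm_of_nonneg h0]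
  have h1 : ‖cj (p i) (m i)‖ ≤ 1 := by
    unfold cj
    rw [RCLike.norm_conj]
    exact DirichletCharacter.norm_le_one _ _
  calc ‖cj (p i) (m i)‖ * uu P (m i) ≤ 1 * uu P (m i) :=
        mul_le_mul_of_nonneg_right h1 h0
    _ = uu P (m i) := one_mul _

/-- Proof. `P0_Ph` and `M3a_uu` (`uu R.primeFactors m ≤ R/φ(R)`). -/
theorem P0_PhR {k : ℕ} (p : Fin k → Ch) (R : ℕ) (hR : 0 < R) (m : Fin k → ℤ) :
    ‖Phf p R.primeFactors m‖ ≤ ((R : ℝ) / (Nat.totient R : ℝ)) ^ k := by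
  refine (P0_Ph p R.primeFactors (fun l hl => Nat.prime_of_mem_primeFactors hl) m).trans ?_
  calc ∏ i, uu R.primeFactors (m i) ≤ ∏ _i : Fin k, ((R : ℝ) / (Nat.totient R : ℝ)) :=
        Finset.prod_le_prod (fun i _ => (M3a_uu R hR _).1) (fun i _ => (M3a_uu R hR _).2)
    _ = ((R : ℝ) / (Nat.totient R : ℝ)) ^ k := by
        rw [Finset.prod_const, Finset.card_univ, Fintype.card_fin]

theorem P0_one {k : ℕ} (l : ℕ) (hl : l.Prime) (m : Fin k → ℤ) : 0 ≤ ∏ i, (1 + gl l (m i)) ∧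
    ∏ i, (1 + gl l (m i)) ≤ ((l : ℝ) / ((l : ℝ) - 1)) ^ k := by
  constructor
  · exact Finset.prod_nonneg fun i _ => (M3a_gl l hl _).1
  · calc ∏ i, (1 + gl l (m i)) ≤ ∏ _i : Fin k, ((l : ℝ) / ((l : ℝ) - 1)) :=
        Finset.prod_le_prod (fun i _ => (M3a_gl l hl _).1) (fun i _ => (M3a_gl l hl _).2)
      _ = ((l : ℝ) / ((l : ℝ) - 1)) ^ k := by
        rw [Finset.prod_const, Finset.card_univ, Fintype.card_fin]

/-- Proof. As `M3a_tp`, `M3a_td`. -/
theorem P0_W {k : ℕ} (d : ℕ) (hd : Squarefree d) (m : Fin k → ℤ) :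
    |Wdf d m| ≤ ((d : ℝ) / (Nat.totient d : ℝ)) ^ k := by
  have hd0 : 0 < d := Nat.pos_of_ne_zero hd.ne_zero
  rw [← M3a_prod d hd0, ← Finset.prod_pow]
  unfold Wdf
  rw [Finset.abs_prod]
  refine Finset.prod_le_prod (fun l _ => abs_nonneg _) (fun l hl => ?_)
  have hl' := Nat.prime_of_mem_primeFactors hl
  have hc : (1 : ℝ) ≤ ((l : ℝ) / ((l : ℝ) - 1)) ^ k := one_le_pow₀ (M3a_ratio l hl')
  have h := P0_one l hl' m
  unfold Wf
  rw [abs_le]
  constructor <;> linarith [h.1, h.2]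

/-- Proof. Mean of products between `0` and `(l/(l-1))^k`. -/
theorem P0_tp {k : ℕ} (l : ℕ) (hl : l.Prime) (φ : Fin k → ℤ → ℤ) :
    0 ≤ 1 + tpf l φ ∧ 1 + tpf l φ ≤ ((l : ℝ) / ((l : ℝ) - 1)) ^ k := by
  have hl0 : (0 : ℝ) < l := by exact_mod_cast hl.pos
  unfold tpf
  rw [add_sub_cancel]
  constructor
  · exact div_nonneg (Finset.sum_nonneg fun n _ => (P0_one l hl fun i => φ i n).1) hl0.le
  · rw [div_le_iff₀ hl0]
    calc ∑ n ∈ range l, ∏ i, (1 + gl l (φ i n))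
        ≤ ∑ _n ∈ range l, ((l : ℝ) / ((l : ℝ) - 1)) ^ k :=
          Finset.sum_le_sum fun n _ => (P0_one l hl fun i => φ i n).2
      _ = ((l : ℝ) / ((l : ℝ) - 1)) ^ k * l := by
        rw [Finset.sum_const, Finset.card_range, nsmul_eq_mul, mul_comm]

/-- Proof. `P0_PhR`, a mean of `R` terms. -/
theorem P0_MR {k : ℕ} (p : Fin k → Ch) (R : ℕ) (hR : 0 < R) (φ : Fin k → ℤ → ℤ) :
    ‖MRf p R φ‖ ≤ ((R : ℝ) / (Nat.totient R : ℝ)) ^ k := by
  have hR0 : (0 : ℝ) < R := by exact_mod_cast hR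
  unfold MRf
  rw [norm_div, Complex.norm_natCast, div_le_iff₀ hR0]
  calc ‖∑ n ∈ range R, Phf p R.primeFactors (at' φ n)‖
      ≤ ∑ _n ∈ range R, ((R : ℝ) / (Nat.totient R : ℝ)) ^ k :=
        norm_sum_le_of_le _ fun n _ => P0_PhR p R hR _
    _ = ((R : ℝ) / (Nat.totient R : ℝ)) ^ k * R := by
      rw [Finset.sum_const, Finset.card_range, nsmul_eq_mul, mul_comm]

end Pool.Agent.Lib.H24P
end

-- from Lib.H59P.M3F
section

/-!
# Project H59P, chunk M3f: the mean of the main term function times a local function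
-/

open Finset

namespace Pool.Agent.Lib.H59P

open Pool.Agent.Lib.H68T Pool.Agent.Lib.H18Q

theorem m3f_uu (R : ℕ) (m : ℤ) : uu R.primeFactors (m + R) = uu R.primeFactors m := by
  unfold uu
  apply Finset.prod_congr rfl
  intro l hl
  obtain ⟨c, hc⟩ := Nat.dvd_of_mem_primeFactors hl
  have : m + (R : ℤ) = m + (c : ℤ) * l := by
    rw [show (R : ℤ) = ((l * c : ℕ) : ℤ) from by rw [← hc]]
    push_cast; ring
  rw [this, gl_per]

theorem m3f_cj (p : Ch) (R : ℕ) (hd : p.1 ∣ R) (m : ℤ) : cj p (m + R) = cj p m := by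
  unfold cj
  have : (((m + (R : ℤ) : ℤ)) : ZMod p.1) = (m : ZMod p.1) := by
    push_cast
    rw [(ZMod.natCast_eq_zero_iff R p.1).2 hd, add_zero]
  rw [this]

/-- `Ph p R.primeFactors h` has period `R` if all conductors divide `R`. Proof. `gl_per`; `ZMod` casts. -/
theorem M3f_per {k : ℕ} (p : Fin k → Ch) (R : ℕ) (hd : ∀ i, (p i).1 ∣ R) (h : Fin k → ℕ) (n : ℤ) :
    Ph p R.primeFactors h (n + R) = Ph p R.primeFactors h n := by
  unfold Ph
  apply Finset.prod_congr rfl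
  intro i _
  have : n + (R : ℤ) + h i = (n + h i) + R := by ring
  rw [this, m3f_uu, m3f_cj (p i) R (hd i)]


end Pool.Agent.Lib.H59P
end

-- from Lib.H24P.P2
section

/-!
# Project H24P, chunk P2 (S/M): congruence preserving maps, periodicity
-/

open Finset Polynomial

namespace Pool.Agent.Lib.H24P

open Pool.Agent.Lib.H68T Pool.Agent.Lib.H18Q Pool.Agent.Lib.H59P

/-- Proof. `Polynomial.sub_dvd_eval_sub`. -/
theorem P2_ran {k : ℕ} (P : Fin k → ℤ[X]) (h : Fin k → ℕ) : Cp (ran P h) := by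
  intro i q n
  have h1 := Polynomial.sub_dvd_eval_sub (n + q) n (P i)
  have h2 : n + q - n = q := by ring
  rw [h2] at h1
  have h3 : ran P h i (n + q) - ran P h i n = (P i).eval (n + q) - (P i).eval n := by
    unfold ran
    ring
  rw [h3]
  exact h1

/-- Proof. `Fin.cases`; `Polynomial.sub_dvd_eval_sub`. -/
theorem P2_sys {k : ℕ} (B : ℤ[X]) (P : Fin k → ℤ[X]) (h : Fin k → ℕ) : Cp (sys B P h) := by
  intro i q n
  refine Fin.cases ?_ (fun j => ?_) i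
  · have h1 := Polynomial.sub_dvd_eval_sub (n + q) n B
    have h2 : n + q - n = q := by ring
    rw [h2] at h1
    exact h1
  · exact P2_ran P h j q n

/-- Proof. `l ∣ N ∣ φ i (n + N) - φ i n`; definition of `gl`. -/
theorem P2_gl {k : ℕ} (φ : Fin k → ℤ → ℤ) (hφ : Cp φ) (l N : ℕ) (hl : l ∣ N) (i : Fin k) (n : ℤ) :
    gl l (φ i (n + N)) = gl l (φ i n) := by
  have h1 : (l : ℤ) ∣ φ i (n + N) - φ i n := (Int.natCast_dvd_natCast.2 hl).trans (hφ i N n)
  obtain ⟨c, hc⟩ := h1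
  have h2 : φ i (n + N) = φ i n + c * l := by linarith
  rw [h2, gl_per]

/-- Proof. `P2_gl`. -/
theorem P2_Wd {k : ℕ} (φ : Fin k → ℤ → ℤ) (hφ : Cp φ) (d N : ℕ) (hd : d ∣ N) (n : ℤ) :
    Wdf d (at' φ (n + N)) = Wdf d (at' φ n) := by
  unfold Wdf
  refine Finset.prod_congr rfl fun l hl => ?_
  unfold Wf
  congr 1
  refine Finset.prod_congr rfl fun i _ => ?_
  congr 1
  exact P2_gl φ hφ l N ((Nat.dvd_of_mem_primeFactors hl).trans hd) i n

/-- Proof. As `M3f_per`. -/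
theorem P2_Ph {k : ℕ} (φ : Fin k → ℤ → ℤ) (hφ : Cp φ) (p : Fin k → Ch) (R N : ℕ) (hN : R ∣ N)
    (hd : ∀ i, (p i).1 ∣ R) (n : ℤ) :
    Phf p R.primeFactors (at' φ (n + N)) = Phf p R.primeFactors (at' φ n) := by
  unfold Phf
  refine Finset.prod_congr rfl fun i _ => ?_
  have h1 : uu R.primeFactors (at' φ (n + N) i) = uu R.primeFactors (at' φ n i) := by
    unfold uu
    refine Finset.prod_congr rfl fun l hl => ?_
    congr 1
    exact P2_gl φ hφ l N ((Nat.dvd_of_mem_primeFactors hl).trans hN) i n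
  have h2 : cj (p i) (at' φ (n + N) i) = cj (p i) (at' φ n i) := by
    unfold cj
    have h3 : ((at' φ (n + N) i : ℤ) : ZMod (p i).1) = ((at' φ n i : ℤ) : ZMod (p i).1) := by
      have h4 : ((p i).1 : ℤ) ∣ φ i (n + N) - φ i n :=
        (Int.natCast_dvd_natCast.2 ((hd i).trans hN)).trans (hφ i N n)
      have h5 := (ZMod.intCast_zmod_eq_zero_iff_dvd (φ i (n + N) - φ i n) (p i).1).2 h4
      rw [Int.cast_sub] at h5
      exact sub_eq_zero.1 h5
    rw [h3]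
  rw [h1, h2]

end Pool.Agent.Lib.H24P
end

-- from Lib.H24P.B1
section

/-!
# Project H24P, chunk B1 (M): the deterministic coordinate, local identities
-/

open Finset Polynomial

namespace Pool.Agent.Lib.H24P

open Pool.Agent.Lib.H68T Pool.Agent.Lib.H18Q Pool.Agent.Lib.H59P

/-- Proof. `gk p κ m = (r/φ(r)) cj p m ∏_{l ∣ κ} gl l m` (`M2a`), `M2c`, `M2b` (`H59P`). -/
theorem B1_SD (N : ℕ) (hN : 0 < N) (p : Ch) (hd : p.1 ∣ N) (m : ℤ) :
    ∑ κ ∈ SD N p.1, gk p κ m = cj p m * ((uu N.primeFactors m : ℝ) : ℂ) := by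
  classical
  have h1 : ∀ κ ∈ SD N p.1, gk p κ m =
      (((p.1 : ℝ) / (Nat.totient p.1 : ℝ) : ℝ) : ℂ) * cj p m * ∏ l ∈ κ.primeFactors, ((gl l m : ℝ) : ℂ) := by
    intro κ hκ
    rw [SD, Finset.mem_filter] at hκ
    unfold gk
    rw [M2a κ hκ.2.1 m, Complex.ofReal_prod]
    rfl
  rw [Finset.sum_congr rfl h1, ← Finset.mul_sum, M2c (fun l => ((gl l m : ℝ) : ℂ)) N p.1 hN, ← M2b N hN p hd m]
  congr 1
  rw [Complex.ofReal_prod]
  refine Finset.prod_congr rfl fun l _ => ?_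
  push_cast
  rfl

/-- The mean of a product of periodic functions over the primes of a set. -/
theorem b1_set (F : ℕ → ℤ → ℝ) (hF : ∀ l : ℕ, ∀ n, F l (n + l) = F l n) (S : Finset ℕ) : (∀ l ∈ S, l.Prime) →
    ∑ n ∈ range (∏ l ∈ S, l), ∏ l ∈ S, F l n = ∏ l ∈ S, ∑ n ∈ range l, F l n := by
  have hper : ∀ (l c : ℕ) (n : ℤ), F l (n + ((c * l : ℕ) : ℤ)) = F l n := by
    intro l c
    induction c with
    | zero => intro n; simp
    | succ c ih =>
      intro n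
      have e : n + (((c + 1) * l : ℕ) : ℤ) = (n + ((c * l : ℕ) : ℤ)) + l := by push_cast; ring
      rw [e, hF, ih]
  induction S using Finset.induction_on with
  | empty => intro _; simp
  | insert a s ha ih =>
    intro hS
    have hap : a.Prime := hS a (Finset.mem_insert_self _ _)
    have hs : ∀ l ∈ s, l.Prime := fun l hl => hS l (Finset.mem_insert_of_mem hl)
    have hcop : Nat.Coprime a (∏ l ∈ s, l) := by
      apply Nat.Coprime.prod_right
      intro l hl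
      rw [Nat.coprime_primes hap (hs l hl)]
      rintro rfl
      exact ha hl
    have hpos : 0 < ∏ l ∈ s, l := Finset.prod_pos fun l hl => (hs l hl).pos
    have key := M3d (fun n => ((F a n : ℝ) : ℂ)) (fun n => ((∏ l ∈ s, F l n : ℝ) : ℂ)) a
      (∏ l ∈ s, l) hap.pos hpos hcop
      (fun m => by
        show ((F a (m + a) : ℝ) : ℂ) = ((F a m : ℝ) : ℂ)
        rw [hF])
      (fun m => by
        show ((∏ l ∈ s, F l (m + ((∏ l ∈ s, l : ℕ) : ℤ)) : ℝ) : ℂ) = ((∏ l ∈ s, F l m : ℝ) : ℂ)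
        congr 1
        refine Finset.prod_congr rfl fun l hl => ?_
        obtain ⟨c, hc⟩ := Finset.dvd_prod_of_mem (fun l => l) hl
        have e : (∏ l ∈ s, l : ℕ) = c * l := by
          rw [mul_comm]
          exact hc
        rw [e, hper])
    have key' : ∑ n ∈ range (a * ∏ l ∈ s, l), F a n * ∏ l ∈ s, F l n =
        (∑ n ∈ range a, F a n) * ∑ n ∈ range (∏ l ∈ s, l), ∏ l ∈ s, F l n := by
      have : ((∑ n ∈ range (a * ∏ l ∈ s, l), F a n * ∏ l ∈ s, F l n : ℝ) : ℂ) =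
          (((∑ n ∈ range a, F a n) * ∑ n ∈ range (∏ l ∈ s, l), ∏ l ∈ s, F l n : ℝ) : ℂ) := by
        rw [Complex.ofReal_sum, Complex.ofReal_mul, Complex.ofReal_sum, Complex.ofReal_sum]
        rw [← key]
        apply Finset.sum_congr rfl
        intro n _
        rw [Complex.ofReal_mul]
      exact_mod_cast this
    rw [Finset.prod_insert ha, Finset.prod_insert ha]
    have e1 : ∑ n ∈ range (a * ∏ l ∈ s, l), ∏ l ∈ insert a s, F l n =
        ∑ n ∈ range (a * ∏ l ∈ s, l), F a n * ∏ l ∈ s, F l n := by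
      apply Finset.sum_congr rfl
      intro n _
      rw [Finset.prod_insert ha]
    rw [e1, key', ih hs]

/-- The values of a linear polynomial run through all classes. -/
theorem b1_lin (l : ℕ) (hl : l.Prime) (a b : ℤ) (ha : ¬ (l : ℤ) ∣ a) :
    ∑ n ∈ range l, (1 + gl l (b + a * (n : ℤ))) = l := by
  classical
  have hl1 : (1 : ℝ) < l := by exact_mod_cast hl.one_lt
  have hlp : Prime (l : ℤ) := Nat.prime_iff_prime_int.1 hl
  have hl0 : (0 : ℤ) < l := by exact_mod_cast hl.pos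
  have hcop : IsCoprime (l : ℤ) a := (Int.isCoprime_iff_gcd_eq_one).2 (by
    rw [← Int.isCoprime_iff_gcd_eq_one]
    exact (Prime.coprime_iff_not_dvd hlp).2 ha)
  obtain ⟨u, c, huc⟩ := hcop
  -- the solution
  obtain ⟨n0, hn0⟩ : ∃ n0 : ℕ, ((n0 : ℕ) : ℤ) = (-b * c) % l :=
    ⟨((-b * c) % l).toNat, Int.toNat_of_nonneg (Int.emod_nonneg _ hl0.ne')⟩
  have hn0l : n0 < l := by
    have := Int.emod_lt_of_pos (-b * c) hl0
    omega
  have hdiv0 : (l : ℤ) ∣ b + a * (n0 : ℤ) := by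
    obtain ⟨t, ht⟩ : ∃ t : ℤ, (n0 : ℤ) = -b * c - l * t := ⟨(-b * c) / l, by
      rw [hn0]
      have := Int.emod_add_mul_ediv (-b * c) l
      linarith⟩
    refine ⟨b * u - a * t, ?_⟩
    rw [ht]
    linear_combination (-b) * huc
  have hfil : (range l).filter (fun n : ℕ => (l : ℤ) ∣ b + a * (n : ℤ)) = {n0} := by
    ext n
    rw [Finset.mem_filter, Finset.mem_range, Finset.mem_singleton]
    constructor
    · rintro ⟨h1, h2⟩
      have h3 : (l : ℤ) ∣ a * ((n : ℤ) - n0) := by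
        have := dvd_sub h2 hdiv0
        have e : b + a * (n : ℤ) - (b + a * (n0 : ℤ)) = a * ((n : ℤ) - n0) := by ring
        rwa [e] at this
      rcases hlp.dvd_or_dvd h3 with h4 | h4
      · exact absurd h4 ha
      · obtain ⟨t, ht⟩ := h4
        have h5 : t = 0 := by
          by_contra h6
          rcases lt_or_gt_of_ne h6 with h7 | h7
          · have : (l : ℤ) * t ≤ -l := by nlinarith
            omega
          · have : (l : ℤ) ≤ l * t := by nlinarith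
            omega
        rw [h5, mul_zero] at ht
        omega
    · rintro rfl
      exact ⟨hn0l, hdiv0⟩
  have e1 : ∀ n ∈ range l, (1 + gl l (b + a * (n : ℤ))) =
      (l : ℝ) / (l - 1) - if (l : ℤ) ∣ b + a * (n : ℤ) then (l : ℝ) / (l - 1) else 0 := by
    intro n _
    unfold gl
    split_ifs
    · ring
    · have : (l : ℝ) - 1 ≠ 0 := by linarith
      field_simp
      ring
  rw [Finset.sum_congr rfl e1, Finset.sum_sub_distrib, ← Finset.sum_filter, hfil, Finset.sum_singleton,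
    Finset.sum_const, Finset.card_range, nsmul_eq_mul]
  have : (l : ℝ) - 1 ≠ 0 := by linarith
  field_simp

/-- Proof. For a prime `l` not dividing the leading coefficient `a` of `B` the values `B(n)`, `n < l`, run through
all classes modulo `l` (`B(n) = b + a n`), so `∑_{n<l} (1 + gl l (B n)) = l` (one value `0`, the others
`l/(l-1)`), and `∑_{n<l} (1 + gl l (B n)) Wf l (ran) = l (1 + tpf l (sys)) - l = l tpf l (sys)`
(`Fin.prod_univ_succ`). The general case by induction over the prime factors with `M3d` (compare `m3e_set` in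
`H59P/M3E.lean`). -/
theorem B1_mean {k : ℕ} (B : ℤ[X]) (hB : B.natDegree = 1) (P : Fin k → ℤ[X]) (h : Fin k → ℕ) (d : ℕ)
    (hd : Squarefree d) (hc : Nat.Coprime d B.leadingCoeff.natAbs) :
    ∑ n ∈ range d, uu d.primeFactors (B.eval (n : ℤ)) * Wdf d (at' (ran P h) n) =
      d * tdf d (sys B P h) := by
  classical
  have hBe : ∀ x : ℤ, B.eval x = B.coeff 0 + B.leadingCoeff * x := by
    intro x
    rw [eval_eq_sum_range, hB, Finset.sum_range_succ, Finset.sum_range_one, leadingCoeff, hB]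
    ring
  have hperF : ∀ (l : ℕ) (n : ℤ), (1 + gl l (B.eval (n + l))) * Wf l (at' (ran P h) (n + l)) =
      (1 + gl l (B.eval n)) * Wf l (at' (ran P h) n) := by
    intro l n
    have h1 : gl l (B.eval (n + l)) = gl l (B.eval n) :=
      P2_gl (sys B P h) (P2_sys B P h) l l dvd_rfl 0 n
    have h2 : ∀ i, gl l (ran P h i (n + l)) = gl l (ran P h i n) := fun i =>
      P2_gl (ran P h) (P2_ran P h) l l dvd_rfl i n
    rw [h1]
    unfold Wf at'
    simp only [h2]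
  have h1 := b1_set (fun l n => (1 + gl l (B.eval n)) * Wf l (at' (ran P h) n)) hperF d.primeFactors
    (fun l hl => Nat.prime_of_mem_primeFactors hl)
  rw [Nat.prod_primeFactors_of_squarefree hd] at h1
  have h2 : ∑ n ∈ range d, uu d.primeFactors (B.eval (n : ℤ)) * Wdf d (at' (ran P h) n) =
      ∑ n ∈ range d, ∏ l ∈ d.primeFactors, (1 + gl l (B.eval (n : ℤ))) * Wf l (at' (ran P h) n) := by
    refine Finset.sum_congr rfl fun n _ => ?_
    unfold uu Wdf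
    rw [← Finset.prod_mul_distrib]
  rw [h2]
  refine h1.trans ?_
  have h3 : ∀ l ∈ d.primeFactors, ∑ n ∈ range l, (1 + gl l (B.eval (n : ℤ))) * Wf l (at' (ran P h) n) =
      l * tpf l (sys B P h) := by
    intro l hl
    have hlp := Nat.prime_of_mem_primeFactors hl
    have hl0 : (l : ℝ) ≠ 0 := by exact_mod_cast hlp.pos.ne'
    have hna : ¬ (l : ℤ) ∣ B.leadingCoeff := by
      intro hdv
      have h4 : l ∣ B.leadingCoeff.natAbs := Int.natCast_dvd.1 hdv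
      have h5 := Nat.dvd_gcd (Nat.dvd_of_mem_primeFactors hl) h4
      rw [hc] at h5
      exact hlp.one_lt.ne' (Nat.dvd_one.1 h5)
    have h6 := b1_lin l hlp B.leadingCoeff (B.coeff 0) hna
    simp only [← hBe] at h6
    have h7 : ∀ n ∈ range l, (1 + gl l (B.eval (n : ℤ))) * Wf l (at' (ran P h) n) =
        ∏ i, (1 + gl l (sys B P h i (n : ℤ))) - (1 + gl l (B.eval (n : ℤ))) := by
      intro n _
      rw [Fin.prod_univ_succ]
      unfold Wf at' sys
      simp only [Fin.cons_zero, Fin.cons_succ]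
      ring
    rw [Finset.sum_congr rfl h7, Finset.sum_sub_distrib, h6]
    unfold tpf
    field_simp
  rw [Finset.prod_congr rfl h3, Finset.prod_mul_distrib]
  unfold tdf
  congr 1
  have h8 := Nat.prod_primeFactors_of_squarefree hd
  rw [← Nat.cast_prod, h8]

end Pool.Agent.Lib.H24P
end

-- from Lib.H24P.B3
section

/-!
# Project H24P, chunk B3 (M): components have mean zero in progressions
-/

open Finset Polynomial

namespace Pool.Agent.Lib.H24P

open Pool.Agent.Lib.H68T Pool.Agent.Lib.H18Q Pool.Agent.Lib.H59P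

theorem b3_perZ (G : ℤ → ℂ) (q : ℤ) (hG : ∀ t, G (t + q) = G t) (j : ℤ) (t : ℤ) :
    G (t + q * j) = G t := by
  induction j using Int.induction_on with
  | zero => simp
  | succ i ih =>
    rw [← ih, ← hG (t + q * i)]
    congr 1
    ring
  | pred i ih =>
    rw [← ih, ← hG (t + q * (-(i : ℤ) - 1))]
    congr 1
    ring

/-- the sum over a period does not depend on the starting point -/
theorem b3_shift (G : ℤ → ℂ) (q : ℕ) (hq : 0 < q) (hG : ∀ t, G (t + q) = G t) (c : ℤ) :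
    ∑ t ∈ range q, G ((t : ℤ) + c) = ∑ t ∈ range q, G (t : ℤ) := by
  have h0 : (0 : ℤ) < q := by exact_mod_cast hq
  have h1 : 0 ≤ c % (q : ℤ) := Int.emod_nonneg _ h0.ne'
  obtain ⟨a, ha⟩ := Int.eq_ofNat_of_zero_le h1
  have h2 : ∀ t ∈ range q, G ((t : ℤ) + c) = G ((a : ℤ) + t) := by
    intro t _
    have h3 := Int.emod_add_mul_ediv c (q : ℤ)
    have h4 : (t : ℤ) + c = ((a : ℤ) + t) + q * (c / q) := by
      rw [← ha]
      linarith
    rw [h4, b3_perZ G q hG]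
  rw [sum_congr rfl h2]
  exact m3c_start G q hG a

/-- Proof. Let `q = r κ`, `g = gcd(N, q)`, a proper divisor of `q`; let `l` be a prime dividing `q/g`. Then `g` divides
`q' = q/l`, so `q' ≡ s N` modulo `q` for some integer `s ≥ 0`. `F = gk p κ` has period `q` (`gk_period`), so the sum over
`t` of `F(m + t N)` over a complete system of residues modulo `q` is invariant under `t ↦ t + j s`, and so
`l ∑_t F(m + t N) = ∑_t ∑_{j<l} F(m + t N + j q') = 0` by `gk_prim` (`H18Q/CA.lean`). -/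
theorem B3_zero (Q : ℕ) (p : Ch) (hp : p ∈ PC Q) (κ : ℕ) (hκ : κ ∈ KS Q p.1) (N : ℤ)
    (hN : ¬ ((p.1 * κ : ℕ) : ℤ) ∣ N) (m : ℤ) :
    ∑ t ∈ range (p.1 * κ), gk p κ (m + (t : ℤ) * N) = 0 := by
  obtain ⟨hr1, hrQ, -⟩ := mem_PC.1 hp
  obtain ⟨⟨hk1, -⟩, -, -⟩ := CA_mem_KS.1 hκ
  have hq : 0 < p.1 * κ := Nat.mul_pos hr1 hk1
  have hgz : ((Int.gcd N ((p.1 * κ : ℕ) : ℤ) : ℕ) : ℤ) =
      N * Int.gcdA N ((p.1 * κ : ℕ) : ℤ) + ((p.1 * κ : ℕ) : ℤ) * Int.gcdB N ((p.1 * κ : ℕ) : ℤ) :=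
    Int.gcd_eq_gcd_ab _ _
  have hgN : ((Int.gcd N ((p.1 * κ : ℕ) : ℤ) : ℕ) : ℤ) ∣ N := Int.gcd_dvd_left _ _
  have hgq : ((Int.gcd N ((p.1 * κ : ℕ) : ℤ) : ℕ) : ℤ) ∣ ((p.1 * κ : ℕ) : ℤ) := Int.gcd_dvd_right _ _
  generalize Int.gcd N ((p.1 * κ : ℕ) : ℤ) = g at hgz hgN hgq
  generalize Int.gcdA N ((p.1 * κ : ℕ) : ℤ) = x at hgz
  generalize Int.gcdB N ((p.1 * κ : ℕ) : ℤ) = y at hgz
  have hgq' : g ∣ p.1 * κ := by exact_mod_cast hgq
  obtain ⟨c, hc⟩ := hgq'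
  have hc1 : c ≠ 1 := by
    intro h
    rw [h, mul_one] at hc
    rw [hc] at hN
    exact hN hgN
  obtain ⟨l, hl, hlc⟩ := Nat.exists_prime_and_dvd hc1
  obtain ⟨c', hc'⟩ := hlc
  have hlq : l ∣ p.1 * κ := ⟨g * c', by rw [hc, hc']; ring⟩
  have hdiv : p.1 * κ / l = g * c' := by
    rw [hc, hc']
    have : g * (l * c') = l * (g * c') := by ring
    rw [this, Nat.mul_div_cancel_left _ hl.pos]
  have hprim := gk_prim Q p hp κ hκ l hl hlq
  rw [hdiv] at hprim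
  have hper := gk_period p κ
  -- G t = F(m + t N)
  have hGper : ∀ t : ℤ, gk p κ (m + (t + ((p.1 * κ : ℕ) : ℤ)) * N) = gk p κ (m + t * N) := by
    intro t
    have : m + (t + ((p.1 * κ : ℕ) : ℤ)) * N = (m + t * N) + ((p.1 * κ : ℕ) : ℤ) * N := by ring
    rw [this, hper]
  have hsh := fun c0 : ℤ => b3_shift (fun t : ℤ => gk p κ (m + t * N)) (p.1 * κ) hq hGper c0
  have h1 : ∑ j ∈ range l, ∑ t ∈ range (p.1 * κ), gk p κ (m + ((t : ℤ) + (j : ℤ) * (x * c')) * N) =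
      (l : ℂ) * ∑ t ∈ range (p.1 * κ), gk p κ (m + (t : ℤ) * N) := by
    have hh : ∀ j ∈ range l,
        ∑ t ∈ range (p.1 * κ), gk p κ (m + ((t : ℤ) + (j : ℤ) * (x * c')) * N) =
        ∑ t ∈ range (p.1 * κ), gk p κ (m + (t : ℤ) * N) := fun j _ => hsh ((j : ℤ) * (x * c'))
    rw [sum_congr rfl hh, sum_const, card_range, nsmul_eq_mul]
  have h2 : ∑ j ∈ range l, ∑ t ∈ range (p.1 * κ), gk p κ (m + ((t : ℤ) + (j : ℤ) * (x * c')) * N) = 0 := by
    rw [sum_comm]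
    refine sum_eq_zero fun t _ => ?_
    rw [← hprim (m + (t : ℤ) * N)]
    refine sum_congr rfl fun j _ => ?_
    have h3 : m + ((t : ℤ) + (j : ℤ) * (x * c')) * N =
        (m + (t : ℤ) * N + (j : ℤ) * ((g * c' : ℕ) : ℤ)) +
          ((p.1 * κ : ℕ) : ℤ) * (-((j : ℤ) * c' * y)) := by
      rw [Nat.cast_mul g c', hgz]
      ring
    rw [h3, hper]
  rw [h2] at h1
  have hl0 : (l : ℂ) ≠ 0 := by exact_mod_cast hl.ne_zero
  exact (mul_eq_zero.1 h1.symm).resolve_left hl0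

/-- the sum over `q N` consecutive numbers -/
theorem b3_blocks (f : ℕ → ℂ) (q N : ℕ) :
    ∑ n ∈ range (q * N), f n = ∑ t ∈ range q, ∑ v ∈ range N, f (t * N + v) := by
  induction q with
  | zero => simp
  | succ q ih =>
    rw [Nat.succ_mul, sum_range_add, ih, sum_range_succ]

/-- Proof. `n = v + t N`, `v < N`, `t < q = r κ`, `B(v + t N) = B(v) + t a N` (`B` linear), `ψ(v + t N) = ψ(v)`;
`B3_zero` for `a N`. So the sum over the period `q N` vanishes; `M3c` (`H59P/M3C.lean`; `‖gk‖ ≤ Q`: `gk_bound`). -/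
theorem B3_int (Q : ℕ) (p : Ch) (hp : p ∈ PC Q) (κ : ℕ) (hκ : κ ∈ KS Q p.1) (B : ℤ[X])
    (hB : B.natDegree = 1) (N : ℕ) (hN : 0 < N) (ψ : ℤ → ℂ) (hψ : ∀ n, ψ (n + N) = ψ n) (Φ : ℝ)
    (hΦ : ∀ n, ‖ψ n‖ ≤ Φ) (hn : ¬ ((p.1 * κ : ℕ) : ℤ) ∣ B.leadingCoeff * N) (a H : ℕ) :
    ‖∑ n ∈ Ico a (a + H), gk p κ (B.eval (n : ℤ)) * ψ n‖ ≤ 2 * (Q * N) * (Q * Φ) := by
  obtain ⟨hr1, hrQ, -⟩ := mem_PC.1 hp
  obtain ⟨⟨hk1, hk2⟩, -, -⟩ := CA_mem_KS.1 hκ
  have hq : 0 < p.1 * κ := Nat.mul_pos hr1 hk1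
  have hqQ : p.1 * κ ≤ Q := (Nat.mul_le_mul_left _ hk2).trans (Nat.mul_div_le _ _)
  have hΦ0 : 0 ≤ Φ := le_trans (norm_nonneg _) (hΦ 0)
  have hev : ∀ z w : ℤ, B.eval (z + w) = B.eval z + w * B.leadingCoeff := by
    intro z w
    have h1 : ∀ u : ℤ, B.eval u = B.coeff 0 + B.leadingCoeff * u := by
      intro u
      rw [eval_eq_sum_range, hB, sum_range_succ, sum_range_one, leadingCoeff, hB]
      simp
    rw [h1, h1]
    ring
  have hper := gk_period p κ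
  have hf : ∀ n : ℤ, gk p κ (B.eval (n + ((p.1 * κ * N : ℕ) : ℤ))) * ψ (n + ((p.1 * κ * N : ℕ) : ℤ)) =
      gk p κ (B.eval n) * ψ n := by
    intro n
    have h1 : gk p κ (B.eval (n + ((p.1 * κ * N : ℕ) : ℤ))) = gk p κ (B.eval n) := by
      rw [hev]
      have : B.eval n + ((p.1 * κ * N : ℕ) : ℤ) * B.leadingCoeff =
          B.eval n + ((p.1 * κ : ℕ) : ℤ) * (N * B.leadingCoeff) := by
        push_cast
        ring
      rw [this, hper]
    have h2 : ψ (n + ((p.1 * κ * N : ℕ) : ℤ)) = ψ n := by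
      have := b3_perZ ψ N hψ ((p.1 * κ : ℕ) : ℤ) n
      rw [← this]
      congr 1
      push_cast
      ring
    rw [h1, h2]
  have hbd : ∀ n : ℤ, ‖gk p κ (B.eval n) * ψ n‖ ≤ Q * Φ := by
    intro n
    rw [norm_mul]
    exact mul_le_mul (gk_bound Q p hp κ hκ _) (hΦ n) (norm_nonneg _) (Nat.cast_nonneg _)
  have hP : 0 < p.1 * κ * N := Nat.mul_pos hq hN
  have hM := M3c (fun n : ℤ => gk p κ (B.eval n) * ψ n) (p.1 * κ * N) hP hf (Q * Φ) hbd a H
  have hzero : ∑ n ∈ range (p.1 * κ * N), (fun n : ℤ => gk p κ (B.eval n) * ψ n) (n : ℤ) = 0 := by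
    rw [b3_blocks (fun n : ℕ => (fun n : ℤ => gk p κ (B.eval n) * ψ n) (n : ℤ)), sum_comm]
    refine sum_eq_zero fun v _ => ?_
    have h1 : ∀ t ∈ range (p.1 * κ), (fun n : ℤ => gk p κ (B.eval n) * ψ n) ((t * N + v : ℕ) : ℤ) =
        gk p κ (B.eval (v : ℤ) + (t : ℤ) * (B.leadingCoeff * N)) * ψ v := by
      intro t _
      have h2 : ((t * N + v : ℕ) : ℤ) = (v : ℤ) + (t : ℤ) * N := by
        push_cast
        ring
      simp only
      rw [h2, hev]
      have h3 : ψ ((v : ℤ) + (t : ℤ) * N) = ψ v := by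
        have := b3_perZ ψ N hψ (t : ℤ) v
        rw [← this]
        congr 1
        ring
      rw [h3]
      congr 2
      ring
    rw [sum_congr rfl h1, ← sum_mul, B3_zero Q p hp κ hκ _ hn, zero_mul]
  rw [hzero, zero_div, mul_zero, sub_zero] at hM
  refine hM.trans ?_
  have h1 : ((p.1 * κ * N : ℕ) : ℝ) ≤ Q * N := by
    exact_mod_cast Nat.mul_le_mul_right N hqQ
  have h2 : 0 ≤ (Q : ℝ) * Φ := by positivity
  nlinarith [mul_le_mul_of_nonneg_right h1 h2]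

end Pool.Agent.Lib.H24P
end

-- from Lib.H24P.B4
section

/-!
# Project H24P, chunk B4 (M): the deterministic coordinate against periodic functions
-/

open Finset Polynomial

namespace Pool.Agent.Lib.H24P

open Pool.Agent.Lib.H68T Pool.Agent.Lib.H18Q Pool.Agent.Lib.H59P

theorem b4_card (Q : ℕ) (r : ℕ) (S : Finset ℕ) (hS : S ⊆ KS Q r) : (S.card : ℝ) ≤ Q := by
  have h1 : S ⊆ Icc 1 Q := by
    intro κ hκ
    have h2 := (CA_mem_KS.1 (hS hκ)).1
    rw [Finset.mem_Icc]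
    exact ⟨h2.1, h2.2.trans (Nat.div_le_self _ _)⟩
  have h3 := Finset.card_le_card h1
  rw [Nat.card_Icc, Nat.add_sub_cancel] at h3
  exact_mod_cast h3

theorem b4_sum (Q N : ℕ) (p : Ch) (hp : p ∈ PC Q) (B : ℤ[X]) (hB : B.natDegree = 1) (hN : 0 < N)
    (ψ : ℤ → ℂ) (hψ : ∀ n, ψ (n + N) = ψ n) (Φ : ℝ) (hΦ : ∀ n, ‖ψ n‖ ≤ Φ) (a H : ℕ)
    (S : Finset ℕ) (hS : S ⊆ KS Q p.1)
    (hn : ∀ κ ∈ S, ¬ ((p.1 * κ : ℕ) : ℤ) ∣ B.leadingCoeff * N) :
    ‖∑ n ∈ Ico a (a + H), (∑ κ ∈ S, gk p κ (B.eval (n : ℤ))) * ψ n‖ ≤ 2 * (Q : ℝ) ^ 3 * N * Φ := by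
  have hΦ0 : 0 ≤ Φ := le_trans (norm_nonneg _) (hΦ 0)
  have h1 : ∑ n ∈ Ico a (a + H), (∑ κ ∈ S, gk p κ (B.eval (n : ℤ))) * ψ n =
      ∑ κ ∈ S, ∑ n ∈ Ico a (a + H), gk p κ (B.eval (n : ℤ)) * ψ n := by
    rw [Finset.sum_comm]
    refine Finset.sum_congr rfl fun n _ => ?_
    rw [Finset.sum_mul]
  rw [h1]
  calc ‖∑ κ ∈ S, ∑ n ∈ Ico a (a + H), gk p κ (B.eval (n : ℤ)) * ψ n‖
      ≤ ∑ _κ ∈ S, 2 * ((Q : ℝ) * N) * (Q * Φ) :=
        norm_sum_le_of_le _ fun κ hκ => B3_int Q p hp κ (hS hκ) B hB N hN ψ hψ Φ hΦ (hn κ hκ) a H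
    _ = S.card * (2 * ((Q : ℝ) * N) * (Q * Φ)) := by rw [Finset.sum_const, nsmul_eq_mul]
    _ ≤ Q * (2 * ((Q : ℝ) * N) * (Q * Φ)) :=
        mul_le_mul_of_nonneg_right (b4_card Q p.1 S hS) (by positivity)
    _ = 2 * (Q : ℝ) ^ 3 * N * Φ := by ring

theorem b4_lc (B : ℤ[X]) (hB : B.natDegree = 1) : 0 < B.leadingCoeff.natAbs := by
  rw [Int.natAbs_pos, Polynomial.leadingCoeff_ne_zero]
  intro h
  rw [h] at hB
  simp at hB

theorem b4_ndvd (N a κ : ℕ) (hN : 0 < N) (ha : a ∣ N) (hκ : Squarefree κ) (h : κ ∣ a * N) : κ ∣ N := by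
  have h1 := Nat.prod_primeFactors_of_squarefree hκ
  rw [← h1]
  refine Finset.prod_primes_dvd N (fun l hl => (Nat.prime_of_mem_primeFactors hl).prime)
    (fun l hl => ?_)
  have h2 := (Nat.dvd_of_mem_primeFactors hl).trans h
  rcases (Nat.Prime.dvd_mul (Nat.prime_of_mem_primeFactors hl)).1 h2 with h3 | h3
  · exact h3.trans ha
  · exact h3

/-- Proof. `Fc Q p = ∑_{κ ∈ KS Q r} gk p κ`. If `κ ∈ KS Q r` does not divide `N` then `r κ` does not divide `a N`, `a` the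
leading coefficient (`κ` is squarefree and `a ∣ N`, so `κ ∣ a N` would imply `κ ∣ N`); `B3_int`; there are at most `Q` of
them: total error `2 Q^3 N Φ`. The `κ ∈ KS Q r` dividing `N` are the elements of `SD N r` (`r κ ≤ N^2 ≤ Q`); their sum is
`cj uu` (`B1_SD`), of period `N` (in `n`; `r ∣ N`, primes of `N`), bounded by `N` (`M3a_uu`, `N/φ(N) ≤ N`):
`M3c`: error `2 N · N Φ`. `N ≤ Q`. -/
theorem B4_small (Q N : ℕ) (p : Ch) (hp : p ∈ PC Q) (hr : p.1 ∣ N) (B : ℤ[X]) (hB : B.natDegree = 1)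
    (ha : B.leadingCoeff.natAbs ∣ N) (hN : 0 < N) (hNQ : N * N ≤ Q) (ψ : ℤ → ℂ)
    (hψ : ∀ n, ψ (n + N) = ψ n) (Φ : ℝ) (hΦ : ∀ n, ‖ψ n‖ ≤ Φ) (a H : ℕ) :
    ‖∑ n ∈ Ico a (a + H), Fc Q p (B.eval (n : ℤ)) * ψ n -
      H * ((∑ n ∈ range N, cj p (B.eval (n : ℤ)) * ((uu N.primeFactors (B.eval (n : ℤ)) : ℝ) : ℂ) *
        ψ n) / N)‖ ≤ 4 * (Q : ℝ) ^ 4 * Φ := by
  classical
  have hΦ0 : 0 ≤ Φ := le_trans (norm_nonneg _) (hΦ 0)
  obtain ⟨hr1, hrQ, -⟩ := mem_PC.1 hp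
  have hNN : N ≤ N * N := Nat.le_mul_of_pos_left N hN
  have hNQ1 : (N : ℝ) ≤ Q := by exact_mod_cast hNN.trans hNQ
  have hNQ2 : (N : ℝ) * N ≤ Q := by exact_mod_cast hNQ
  have hQ1 : (1 : ℝ) ≤ Q := by
    have : 1 ≤ Q := by
      have := Nat.mul_pos hN hN
      omega
    exact_mod_cast this
  -- splitting
  have hfil : (KS Q p.1).filter (fun κ => κ ∣ N) = SD N p.1 := by
    ext κ
    rw [Finset.mem_filter, CA_mem_KS, SD, Finset.mem_filter, Nat.mem_divisors]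
    constructor
    · rintro ⟨⟨-, h2, h3⟩, h4⟩
      exact ⟨⟨h4, hN.ne'⟩, h2, h3⟩
    · rintro ⟨⟨h4, -⟩, h2, h3⟩
      have hκ0 : 0 < κ := Nat.pos_of_dvd_of_pos h4 hN
      refine ⟨⟨⟨hκ0, ?_⟩, h2, h3⟩, h4⟩
      rw [Nat.le_div_iff_mul_le (by omega)]
      exact (Nat.mul_le_mul (Nat.le_of_dvd hN h4) (Nat.le_of_dvd hN hr)).trans hNQ
  have hsplit : ∀ m : ℤ, Fc Q p m = cj p m * ((uu N.primeFactors m : ℝ) : ℂ) +
      ∑ κ ∈ (KS Q p.1).filter (fun κ => ¬ κ ∣ N), gk p κ m := by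
    intro m
    unfold Fc
    rw [← Finset.sum_filter_add_sum_filter_not (KS Q p.1) (fun κ => κ ∣ N), hfil, B1_SD N hN p hr m]
  -- the large part
  have hlarge := b4_sum Q N p hp B hB hN ψ hψ Φ hΦ a H ((KS Q p.1).filter (fun κ => ¬ κ ∣ N))
    (Finset.filter_subset _ _) (by
      intro κ hκ hdvd
      rw [Finset.mem_filter] at hκ
      apply hκ.2
      have h1 : p.1 * κ ∣ B.leadingCoeff.natAbs * N := by
        have h2 := Int.natAbs_dvd_natAbs.2 hdvd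
        rw [Int.natAbs_mul, Int.natAbs_natCast, Int.natAbs_natCast] at h2
        exact h2
      exact b4_ndvd N _ κ hN ha (CA_mem_KS.1 hκ.1).2.1 ((dvd_mul_left _ _).trans h1))
  -- the main part
  set f : ℤ → ℂ := fun n => cj p (B.eval n) * ((uu N.primeFactors (B.eval n) : ℝ) : ℂ) * ψ n with hf
  have hPh : ∀ n : ℤ, Phf (fun _ : Fin 1 => p) N.primeFactors (at' (fun _ : Fin 1 => fun n => B.eval n) n) =
      cj p (B.eval n) * ((uu N.primeFactors (B.eval n) : ℝ) : ℂ) := by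
    intro n
    unfold Phf at'
    rw [Fin.prod_univ_one]
  have hCp : Cp (fun _ : Fin 1 => fun n : ℤ => B.eval n) := by
    intro i q n
    have h1 := Polynomial.sub_dvd_eval_sub (n + q) n B
    have h2 : n + q - n = q := by ring
    rw [h2] at h1
    exact h1
  have hper : ∀ m, f (m + N) = f m := by
    intro m
    have h1 := P2_Ph _ hCp (fun _ : Fin 1 => p) N N dvd_rfl (fun _ => hr) m
    rw [hPh, hPh] at h1
    simp only [hf]
    rw [h1, hψ]
  have hbd : ∀ m, ‖f m‖ ≤ N * Φ := by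
    intro m
    have h1 := P0_PhR (fun _ : Fin 1 => p) N hN (at' (fun _ : Fin 1 => fun n => B.eval n) m)
    rw [hPh, pow_one] at h1
    have h2 : (N : ℝ) / (Nat.totient N : ℝ) ≤ N := by
      have h4 : (1 : ℝ) ≤ (Nat.totient N : ℝ) := by exact_mod_cast Nat.totient_pos.2 hN
      exact div_le_self (by positivity) h4
    simp only [hf]
    rw [norm_mul]
    exact mul_le_mul (h1.trans h2) (hΦ m) (norm_nonneg _) (by positivity)
  have hmain := M3c f N hN hper (N * Φ) hbd a H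
  have heq : ∑ n ∈ Ico a (a + H), Fc Q p (B.eval (n : ℤ)) * ψ n -
      H * ((∑ n ∈ range N, f n) / N) =
      (∑ n ∈ Ico a (a + H), f n - H * ((∑ n ∈ range N, f n) / N)) +
      ∑ n ∈ Ico a (a + H), (∑ κ ∈ (KS Q p.1).filter (fun κ => ¬ κ ∣ N), gk p κ (B.eval (n : ℤ))) * ψ n := by
    have h1 : ∑ n ∈ Ico a (a + H), Fc Q p (B.eval (n : ℤ)) * ψ n = ∑ n ∈ Ico a (a + H), f n +
        ∑ n ∈ Ico a (a + H), (∑ κ ∈ (KS Q p.1).filter (fun κ => ¬ κ ∣ N), gk p κ (B.eval (n : ℤ))) *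
          ψ n := by
      rw [← Finset.sum_add_distrib]
      refine Finset.sum_congr rfl fun n _ => ?_
      rw [hsplit]
      simp only [hf]
      ring
    rw [h1]
    ring
  have hgoal : ∑ n ∈ range N, cj p (B.eval (n : ℤ)) * ((uu N.primeFactors (B.eval (n : ℤ)) : ℝ) : ℂ) *
        ψ n = ∑ n ∈ range N, f n := rfl
  rw [hgoal, heq]
  refine (norm_add_le _ _).trans ?_
  have h3 : (2 : ℝ) * N * (N * Φ) ≤ 2 * (Q : ℝ) ^ 4 * Φ := by
    have h4 : (Q : ℝ) ≤ (Q : ℝ) ^ 4 := le_self_pow₀ hQ1 (by norm_num)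
    calc (2 : ℝ) * N * (N * Φ) = 2 * (N * N) * Φ := by ring
      _ ≤ 2 * (Q : ℝ) ^ 4 * Φ := by
        apply mul_le_mul_of_nonneg_right _ hΦ0
        linarith
  have h5 : 2 * (Q : ℝ) ^ 3 * N * Φ ≤ 2 * (Q : ℝ) ^ 4 * Φ := by
    apply mul_le_mul_of_nonneg_right _ hΦ0
    calc 2 * (Q : ℝ) ^ 3 * N ≤ 2 * (Q : ℝ) ^ 3 * Q := mul_le_mul_of_nonneg_left hNQ1 (by positivity)
      _ = 2 * (Q : ℝ) ^ 4 := by ring
  linarith

/-- Proof. `r κ ≥ r > |a| N > 0`, so `r κ` does not divide `a N`: `B3_int` for all (at most `Q`) `κ ∈ KS Q r`. -/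
theorem B4_large (Q N : ℕ) (p : Ch) (hp : p ∈ PC Q) (B : ℤ[X]) (hB : B.natDegree = 1) (hN : 0 < N)
    (hr : B.leadingCoeff.natAbs * N < p.1) (ψ : ℤ → ℂ) (hψ : ∀ n, ψ (n + N) = ψ n) (Φ : ℝ)
    (hΦ : ∀ n, ‖ψ n‖ ≤ Φ) (a H : ℕ) :
    ‖∑ n ∈ Ico a (a + H), Fc Q p (B.eval (n : ℤ)) * ψ n‖ ≤ 2 * (Q : ℝ) ^ 3 * N * Φ := by
  refine b4_sum Q N p hp B hB hN ψ hψ Φ hΦ a H (KS Q p.1) (Finset.Subset.refl _) fun κ hκ hdvd => ?_
  have h1 : p.1 * κ ∣ B.leadingCoeff.natAbs * N := by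
    have h2 := Int.natAbs_dvd_natAbs.2 hdvd
    rw [Int.natAbs_mul, Int.natAbs_natCast, Int.natAbs_natCast] at h2
    exact h2
  have h3 := Nat.le_of_dvd (Nat.mul_pos (b4_lc B hB) hN) h1
  have h4 : p.1 ≤ p.1 * κ := Nat.le_mul_of_pos_right _ (CA_mem_KS.1 hκ).1.1
  omega

end Pool.Agent.Lib.H24P
end

-- from Lib.H24P.B2
section

/-!
# Project H24P, chunk B2 (M): the mean value factorises
-/

open Finset Polynomial

namespace Pool.Agent.Lib.H24P

open Pool.Agent.Lib.H68T Pool.Agent.Lib.H18Q Pool.Agent.Lib.H59P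

/-- Proof. `uu (R d).primeFactors = uu R.primeFactors · uu d.primeFactors` (disjoint: `R`, `d` coprime), the product of
`cj (p 0) (B n) uu R.primeFactors (B n)` and `Phf` of the other coordinates is `Phf p R.primeFactors (at' (sys B P h) n)`
(`Fin.prod_univ_succ`, `sys` is a `Fin.cons`); it has period `R` (`P2_sys`, `P2_Ph`), the other factor has period `d`
(`P2_ran`, `P2_Wd`, `P2_gl`); `M3d` (`H59P`), `B1_mean` (`d` is coprime to `R`, hence to the leading coefficient). -/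
theorem B2_fac {k : ℕ} (B : ℤ[X]) (hB : B.natDegree = 1) (P : Fin k → ℤ[X]) (h : Fin k → ℕ)
    (p : Fin (k + 1) → Ch) (R d : ℕ) (hR : 0 < R) (ha : B.leadingCoeff.natAbs ∣ R)
    (hp : ∀ i, (p i).1 ∣ R) (hd : Squarefree d) (hc : Nat.Coprime d R) :
    (∑ n ∈ range (R * d), cj (p 0) (B.eval (n : ℤ)) * ((uu (R * d).primeFactors (B.eval (n : ℤ)) : ℝ) : ℂ) *
      (Phf (fun i : Fin k => p i.succ) R.primeFactors (at' (ran P h) n) *
        ((Wdf d (at' (ran P h) n) : ℝ) : ℂ))) / ((R * d : ℕ) : ℂ) =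
    MRf p R (sys B P h) * ((tdf d (sys B P h) : ℝ) : ℂ) := by
  classical
  have hd0 : 0 < d := Nat.pos_of_ne_zero hd.ne_zero
  have hRd : (R * d).primeFactors = R.primeFactors ∪ d.primeFactors := Nat.primeFactors_mul hR.ne' hd0.ne'
  have hdis : Disjoint R.primeFactors d.primeFactors := hc.symm.disjoint_primeFactors
  have huu : ∀ m : ℤ, uu (R * d).primeFactors m = uu R.primeFactors m * uu d.primeFactors m := by
    intro m
    unfold uu
    rw [hRd, Finset.prod_union hdis]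
  have hPh : ∀ n : ℤ, cj (p 0) (B.eval n) * ((uu R.primeFactors (B.eval n) : ℝ) : ℂ) *
      Phf (fun i : Fin k => p i.succ) R.primeFactors (at' (ran P h) n) =
      Phf p R.primeFactors (at' (sys B P h) n) := by
    intro n
    unfold Phf
    rw [Fin.prod_univ_succ]
    unfold at' sys
    simp only [Fin.cons_zero, Fin.cons_succ]
  have e1 : ∀ n ∈ range (R * d), cj (p 0) (B.eval (n : ℤ)) * ((uu (R * d).primeFactors (B.eval (n : ℤ)) : ℝ) : ℂ) *
      (Phf (fun i : Fin k => p i.succ) R.primeFactors (at' (ran P h) n) *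
        ((Wdf d (at' (ran P h) n) : ℝ) : ℂ)) =
      Phf p R.primeFactors (at' (sys B P h) n) *
        ((uu d.primeFactors (B.eval (n : ℤ)) * Wdf d (at' (ran P h) n) : ℝ) : ℂ) := by
    intro n _
    rw [huu, ← hPh]
    push_cast
    ring
  have hper1 : ∀ m : ℤ, Phf p R.primeFactors (at' (sys B P h) (m + R)) =
      Phf p R.primeFactors (at' (sys B P h) m) := fun m =>
    P2_Ph (sys B P h) (P2_sys B P h) p R R dvd_rfl hp m
  have hper2 : ∀ m : ℤ, ((uu d.primeFactors (B.eval (m + d)) * Wdf d (at' (ran P h) (m + d)) : ℝ) : ℂ) =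
      ((uu d.primeFactors (B.eval m) * Wdf d (at' (ran P h) m) : ℝ) : ℂ) := by
    intro m
    congr 1
    rw [P2_Wd (ran P h) (P2_ran P h) d d dvd_rfl m]
    congr 1
    unfold uu
    refine Finset.prod_congr rfl fun l hl => ?_
    have h1 : gl l (B.eval (m + d)) = gl l (B.eval m) :=
      P2_gl (sys B P h) (P2_sys B P h) l d (Nat.dvd_of_mem_primeFactors hl) 0 m
    rw [h1]
  have key := M3d (fun n => Phf p R.primeFactors (at' (sys B P h) n))
    (fun n => ((uu d.primeFactors (B.eval n) * Wdf d (at' (ran P h) n) : ℝ) : ℂ)) R d hR hd0 hc.symm hper1 hper2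
  have h2 := B1_mean B hB P h d hd (hc.coprime_dvd_right ha)
  have h3 : ∑ n ∈ range d, ((uu d.primeFactors (B.eval (n : ℤ)) * Wdf d (at' (ran P h) n) : ℝ) : ℂ) =
      (d : ℂ) * ((tdf d (sys B P h) : ℝ) : ℂ) := by
    rw [← Complex.ofReal_sum, h2]
    push_cast
    rfl
  rw [Finset.sum_congr rfl e1]
  refine (congrArg (fun z => z / ((R * d : ℕ) : ℂ)) key).trans ?_
  rw [h3]
  unfold MRf
  have hR' : (R : ℂ) ≠ 0 := by exact_mod_cast hR.ne'
  have hd' : (d : ℂ) ≠ 0 := by exact_mod_cast hd0.ne'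
  push_cast
  field_simp

end Pool.Agent.Lib.H24P
end

-- from Lib.H59P.M5A
section

/-!
# Project H59P, chunk M5
-/

open Finset

namespace Pool.Agent.Lib.H59P

open Pool.Agent.Lib.H68T Pool.Agent.Lib.H18Q

/-- full periods -/
theorem m5a_full (f : ℤ → ℂ) (N : ℕ) (hf : ∀ m, f (m + N) = f m) (j : ℕ) :
    ∑ n ∈ range (N * j), f n = j * ∑ n ∈ range N, f n := by
  have hper : ∀ (j : ℕ) (n : ℕ), f ((N * j + n : ℕ) : ℤ) = f n := by
    intro j n
    induction j with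
    | zero => simp
    | succ j ih =>
      have e : ((N * (j + 1) + n : ℕ) : ℤ) = ((N * j + n : ℕ) : ℤ) + N := by push_cast; ring
      rw [e, hf, ih]
  induction j with
  | zero => simp
  | succ j ih =>
    rw [mul_add, mul_one, sum_range_add, ih]
    have : ∑ x ∈ range N, f ((N * j + x : ℕ) : ℤ) = ∑ n ∈ range N, f n :=
      sum_congr rfl fun n _ => hper j n
    rw [this]
    push_cast
    ring

/-- the local factors at one prime -/
noncomputable def m5a_g {k : ℕ} (h : Fin k → ℕ) (l : ℕ) (n : ℤ) : ℂ :=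
  ∏ i, (((1 + gl l (n + h i) : ℝ)) : ℂ)

theorem m5a_g_per {k : ℕ} (h : Fin k → ℕ) (l : ℕ) (n : ℤ) : m5a_g h l (n + l) = m5a_g h l n := by
  unfold m5a_g
  refine prod_congr rfl fun i _ => ?_
  have e : n + (l : ℤ) + h i = (n + h i) + 1 * l := by ring
  rw [e, gl_per]

theorem m5a_g_per' {k : ℕ} (h : Fin k → ℕ) (l c : ℕ) (n : ℤ) :
    m5a_g h l (n + (l * c : ℕ)) = m5a_g h l n := by
  unfold m5a_g
  refine prod_congr rfl fun i _ => ?_
  have e : n + ((l * c : ℕ) : ℤ) + h i = (n + h i) + c * l := by push_cast; ring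
  rw [e, gl_per]

theorem m5a_g_sum {k : ℕ} (h : Fin k → ℕ) (l : ℕ) (hl : 0 < l) :
    ∑ n ∈ range l, m5a_g h l n = l * (((1 + tp l h : ℝ)) : ℂ) := by
  have hl0 : (l : ℂ) ≠ 0 := by exact_mod_cast hl.ne'
  unfold tp m5a_g
  push_cast
  field_simp
  ring

theorem m5a_ph {k : ℕ} (p : Fin k → Ch) (A S : Finset ℕ) (hd : Disjoint A S) (h : Fin k → ℕ) (n : ℤ) :
    Ph p (A ∪ S) h n = Ph p A h n * ∏ l ∈ S, m5a_g h l n := by
  unfold Ph m5a_g uu
  rw [prod_comm (s := S), ← prod_mul_distrib]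
  refine prod_congr rfl fun i _ => ?_
  rw [prod_union hd]
  push_cast
  ring

theorem m5a_main {k : ℕ} (R : ℕ) (hR : 0 < R) (p : Fin k → Ch) (hd : ∀ i, (p i).1 ∣ R)
    (h : Fin k → ℕ) (S : Finset ℕ) (hS : ∀ l ∈ S, l.Prime ∧ ¬ l ∣ R) :
    ∑ n ∈ range (R * ∏ l ∈ S, l), Ph p R.primeFactors h n * ∏ l ∈ S, m5a_g h l n =
      (∑ n ∈ range R, Ph p R.primeFactors h n) * ∏ l ∈ S, (l * (((1 + tp l h : ℝ)) : ℂ)) := by
  induction S using Finset.induction_on with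
  | empty => simp
  | insert l S hl ih =>
    have ih := ih fun q hq => hS q (mem_insert_of_mem hq)
    obtain ⟨hlp, hlR⟩ := hS l (mem_insert_self _ _)
    have hSpos : 0 < ∏ q ∈ S, q := prod_pos fun q hq => (hS q (mem_insert_of_mem hq)).1.pos
    have hco : Nat.Coprime (R * ∏ q ∈ S, q) l := by
      rw [Nat.coprime_comm, Nat.Prime.coprime_iff_not_dvd hlp]
      intro hdvd
      rcases (Nat.Prime.dvd_mul hlp).1 hdvd with h1 | h1
      · exact hlR h1
      · obtain ⟨q, hq, hlq⟩ := (Prime.dvd_finset_prod_iff hlp.prime _).1 h1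
        have := (Nat.prime_dvd_prime_iff_eq hlp (hS q (mem_insert_of_mem hq)).1).1 hlq
        exact hl (this ▸ hq)
    have e1 : R * ∏ q ∈ insert l S, q = (R * ∏ q ∈ S, q) * l := by
      rw [prod_insert hl]; ring
    have h3 := M3d (fun n => Ph p R.primeFactors h n * ∏ q ∈ S, m5a_g h q n) (m5a_g h l)
      (R * ∏ q ∈ S, q) l (Nat.mul_pos hR hSpos) hlp.pos hco (by
        intro m
        have a1 : Ph p R.primeFactors h (m + (R * ∏ q ∈ S, q : ℕ)) = Ph p R.primeFactors h m := by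
          have hper : ∀ (j : ℕ) (m : ℤ), Ph p R.primeFactors h (m + (R * j : ℕ)) =
              Ph p R.primeFactors h m := by
            intro j
            induction j with
            | zero => intro m; simp
            | succ j ihj =>
              intro m
              have e : m + ((R * (j + 1) : ℕ) : ℤ) = (m + ((R * j : ℕ) : ℤ)) + R := by
                push_cast; ring
              rw [e, M3f_per p R hd h, ihj m]
          exact hper _ m
        have a2 : ∀ q ∈ S, m5a_g h q (m + (R * ∏ q ∈ S, q : ℕ)) = m5a_g h q m := by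
          intro q hq
          have : R * ∏ q ∈ S, q = q * (R * ∏ t ∈ S.erase q, t) := by
            rw [← mul_prod_erase S (fun t => t) hq]; ring
          rw [this]
          exact m5a_g_per' h q _ m
        rw [a1, prod_congr rfl a2]) (m5a_g_per h l)
    rw [e1, prod_insert hl]
    have e2 : ∑ n ∈ range (R * (∏ q ∈ S, q) * l),
        Ph p R.primeFactors h n * ∏ q ∈ insert l S, m5a_g h q n =
        ∑ n ∈ range (R * (∏ q ∈ S, q) * l),
          (Ph p R.primeFactors h n * ∏ q ∈ S, m5a_g h q n) * m5a_g h l n := by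
      refine sum_congr rfl fun n _ => ?_
      rw [prod_insert hl]
      ring
    rw [e2, h3, ih, m5a_g_sum h l hlp.pos]
    ring

/-- **M5.** The mean modulo `R` times the local factors at the other primes is the mean over `Q!`.

Proof. `Ph p (pr Q) h n = Ph p R.primeFactors h n * ∏_{l ∈ pr Q, l ∤ R} ∏_i (1 + gl l (n+h_i))` (the prime
factors of `R` are at most `Q`, since `R ∣ Q!`). By `M3d` and induction over the primes `l` the sum over a
period `N = R ∏_{l ≤ Q, l ∤ R} l` is `R MR p R h ∏ l (1 + tp l h)`; `N` divides `Q!` (`R ∣ Q!`, each `l ∣ Q!`,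
pairwise coprime), so the mean over `Q!` is the mean over `N` (full periods). -/
theorem M5 {k : ℕ} (Q R : ℕ) (hR : 0 < R) (hRQ : R ∣ Q.factorial) (p : Fin k → Ch)
    (hd : ∀ i, (p i).1 ∣ R) (h : Fin k → ℕ) :
    MR p R h * ((SS ((pr Q).filter (fun l => ¬ l ∣ R)) h : ℝ) : ℂ) = MQ Q p h := by
  obtain ⟨S, hSdef⟩ : ∃ S, S = (pr Q).filter (fun l => ¬ l ∣ R) := ⟨_, rfl⟩
  rw [← hSdef]
  have hS : ∀ l ∈ S, (l ≤ Q ∧ l.Prime) ∧ ¬ l ∣ R := by
    intro l hl
    rw [hSdef, mem_filter, pr, mem_filter, mem_Icc] at hl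
    exact ⟨⟨hl.1.1.2, hl.1.2⟩, hl.2⟩
  have hSpos : 0 < ∏ q ∈ S, q := prod_pos fun q hq => (hS q hq).1.2.pos
  have hdisj : Disjoint R.primeFactors S := by
    rw [disjoint_left]
    intro l h1 h2
    exact (hS l h2).2 (Nat.dvd_of_mem_primeFactors h1)
  have hunion : R.primeFactors ∪ S = pr Q := by
    ext l
    rw [mem_union, hSdef, mem_filter, Nat.mem_primeFactors]
    constructor
    · rintro (⟨h1, h2, -⟩ | h1)
      · rw [pr, mem_filter, mem_Icc]
        exact ⟨⟨h1.one_le, (Nat.Prime.dvd_factorial h1).1 (h2.trans hRQ)⟩, h1⟩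
      · exact h1.1
    · intro h1
      by_cases h2 : l ∣ R
      · left
        rw [pr, mem_filter] at h1
        exact ⟨h1.2, h2, hR.ne'⟩
      · exact Or.inr ⟨h1, h2⟩
  have hper0 : ∀ (j : ℕ) (m : ℤ), Ph p R.primeFactors h (m + (R * j : ℕ)) =
      Ph p R.primeFactors h m := by
    intro j
    induction j with
    | zero => intro m; simp
    | succ j ihj =>
      intro m
      have e : m + ((R * (j + 1) : ℕ) : ℤ) = (m + ((R * j : ℕ) : ℤ)) + R := by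
        push_cast; ring
      rw [e, M3f_per p R hd h, ihj m]
  have hper : ∀ m : ℤ, Ph p (pr Q) h (m + (R * ∏ q ∈ S, q : ℕ)) = Ph p (pr Q) h m := by
    intro m
    rw [← hunion, m5a_ph p _ _ hdisj, m5a_ph p _ _ hdisj, hper0]
    congr 1
    refine prod_congr rfl fun q hq => ?_
    have : R * ∏ q ∈ S, q = q * (R * ∏ t ∈ S.erase q, t) := by
      rw [← mul_prod_erase S (fun t => t) hq]; ring
    rw [this]
    exact m5a_g_per' h q _ m
  have hcop : Nat.Coprime R (∏ q ∈ S, q) := by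
    apply Nat.Coprime.prod_right
    intro q hq
    rw [Nat.coprime_comm, Nat.Prime.coprime_iff_not_dvd (hS q hq).1.2]
    exact (hS q hq).2
  have hdvdN : R * ∏ q ∈ S, q ∣ Q.factorial := by
    apply hcop.mul_dvd_of_dvd_of_dvd hRQ
    apply Finset.prod_primes_dvd
    · intro q hq
      exact (hS q hq).1.2.prime
    · intro q hq
      exact (Nat.Prime.dvd_factorial (hS q hq).1.2).2 (hS q hq).1.1
  obtain ⟨j, hj⟩ := hdvdN
  have hfac : 0 < Q.factorial := Nat.factorial_pos Q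
  have hj0 : 0 < j := by
    rcases Nat.eq_zero_or_pos j with rfl | h1
    · rw [mul_zero] at hj
      omega
    · exact h1
  have hsum : ∑ n ∈ range (R * ∏ l ∈ S, l), Ph p (pr Q) h n =
      (∑ n ∈ range R, Ph p R.primeFactors h n) * ∏ l ∈ S, (l * (((1 + tp l h : ℝ)) : ℂ)) := by
    rw [← m5a_main R hR p hd h S fun l hl => ⟨(hS l hl).1.2, (hS l hl).2⟩]
    refine sum_congr rfl fun n _ => ?_
    rw [← hunion, m5a_ph p _ _ hdisj]
  unfold MQ MR SS
  rw [hj, m5a_full _ _ hper j, hsum, prod_mul_distrib]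
  have r0 : (R : ℂ) ≠ 0 := by exact_mod_cast hR.ne'
  have j0 : (j : ℂ) ≠ 0 := by exact_mod_cast hj0.ne'
  have s0 : (∏ l ∈ S, (l : ℂ)) ≠ 0 := by
    rw [← Nat.cast_prod]
    exact_mod_cast hSpos.ne'
  push_cast
  field_simp

end Pool.Agent.Lib.H59P
end

-- from Lib.H59P.M5B
section

/-!
# Project H59P, chunk M5_loc
-/

open Finset

namespace Pool.Agent.Lib.H59P

open Pool.Agent.Lib.H68T Pool.Agent.Lib.H18Q

theorem m5b_cj (m : ℤ) : cj p0 m = 1 := by
  unfold cj p0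
  have h1 : ((m : ℤ) : ZMod 1) = 1 := Subsingleton.elim _ _
  rw [h1, map_one, map_one]

theorem m5b_ph {k : ℕ} (h : Fin k → ℕ) (n : ℤ) : Ph (fun _ => p0) ∅ h n = 1 := by
  unfold Ph uu
  refine prod_eq_one fun i _ => ?_
  rw [m5b_cj]
  simp

/-- The mean modulo `R` for the trivial characters. Proof. As `M5`: `M3d` over the prime factors of `R`, the
period `∏_{l ∣ R} l` divides `R`. -/
theorem M5_loc {k : ℕ} (R : ℕ) (hR : 0 < R) (h : Fin k → ℕ) :
    MR (fun _ => p0) R h = ((SS R.primeFactors h : ℝ) : ℂ) := by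
  have hp1 : ∀ l ∈ R.primeFactors, l.Prime ∧ ¬ l ∣ 1 := by
    intro l hl
    have h1 := Nat.prime_of_mem_primeFactors hl
    exact ⟨h1, fun h2 => h1.one_lt.ne' (Nat.dvd_one.1 h2)⟩
  have hpos : 0 < ∏ l ∈ R.primeFactors, l := prod_pos fun q hq => (hp1 q hq).1.pos
  have hPh : ∀ n : ℤ, Ph (fun _ : Fin k => p0) R.primeFactors h n =
      ∏ l ∈ R.primeFactors, m5a_g h l n := by
    intro n
    have h1 := m5a_ph (fun _ : Fin k => p0) ∅ R.primeFactors (disjoint_empty_left _) h n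
    rw [empty_union, m5b_ph, one_mul] at h1
    exact h1
  have hmain := m5a_main 1 one_pos (fun _ : Fin k => p0) (fun _ => one_dvd _) h R.primeFactors hp1
  rw [one_mul, Nat.primeFactors_one] at hmain
  have hone : ∑ n ∈ range 1, Ph (fun _ : Fin k => p0) ∅ h n = 1 := by
    rw [sum_range_one]
    exact m5b_ph h _
  rw [hone, one_mul] at hmain
  have hmain2 : ∑ n ∈ range (∏ l ∈ R.primeFactors, l), Ph (fun _ : Fin k => p0) R.primeFactors h n =
      ∏ l ∈ R.primeFactors, (l * (((1 + tp l h : ℝ)) : ℂ)) := by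
    rw [← hmain]
    refine sum_congr rfl fun n _ => ?_
    rw [hPh, m5b_ph, one_mul]
  have hper : ∀ m : ℤ, Ph (fun _ : Fin k => p0) R.primeFactors h (m + (∏ l ∈ R.primeFactors, l : ℕ)) =
      Ph (fun _ : Fin k => p0) R.primeFactors h m := by
    intro m
    rw [hPh, hPh]
    refine prod_congr rfl fun q hq => ?_
    rw [← mul_prod_erase R.primeFactors (fun t => t) hq]
    exact m5a_g_per' h q _ m
  obtain ⟨j, hj⟩ := Nat.prod_primeFactors_dvd R
  have hj0 : 0 < j := by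
    rcases Nat.eq_zero_or_pos j with rfl | h1
    · rw [mul_zero] at hj
      omega
    · exact h1
  have hsum : ∑ n ∈ range R, Ph (fun _ : Fin k => p0) R.primeFactors h n =
      j * ∏ l ∈ R.primeFactors, (l * (((1 + tp l h : ℝ)) : ℂ)) := by
    have h1 := m5a_full _ _ hper j
    rw [← hj, hmain2] at h1
    exact h1
  have hRc : (R : ℂ) = (∏ l ∈ R.primeFactors, (l : ℂ)) * j := by
    have h1 : ((R : ℕ) : ℂ) = (((∏ l ∈ R.primeFactors, l) * j : ℕ) : ℂ) := by rw [← hj]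
    rw [h1]
    push_cast
    rfl
  have hR0 : (R : ℂ) ≠ 0 := by exact_mod_cast hR.ne'
  unfold MR SS
  rw [hsum, prod_mul_distrib, div_eq_iff hR0, hRc]
  push_cast
  ring

end Pool.Agent.Lib.H59P
end

-- from Lib.H59P.C3A
section

/-!
# Project H59P, chunk C3a
-/

open Finset

namespace Pool.Agent.Lib.H59P

open Pool.Agent.Lib.H68T Pool.Agent.Lib.H18Q

/-- A real character has real values `-1, 0, 1`. Proof. `ψ ^ 2 = 1`; compare `XDA_real` in `H68X`. -/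
theorem C3a (px : Ch) (hreal : px.2 ^ 2 = 1) (m : ℤ) :
    cj px m = ((cj px m).re : ℂ) ∧ |(cj px m).re| ≤ 1 := by
  unfold cj
  by_cases ha : IsUnit (m : ZMod px.1)
  · have h1 : (px.2 (m : ZMod px.1)) ^ 2 = 1 := by
      rw [← MulChar.pow_apply' px.2 (by norm_num : (2:ℕ) ≠ 0) _, hreal, MulChar.one_apply ha]
    have h2 : (px.2 (m : ZMod px.1) - 1) * (px.2 (m : ZMod px.1) + 1) = 0 := by
      have : (px.2 (m : ZMod px.1) - 1) * (px.2 (m : ZMod px.1) + 1) = (px.2 (m : ZMod px.1)) ^ 2 - 1 := by ring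
      rw [this, h1, sub_self]
    rcases mul_eq_zero.mp h2 with h3 | h3
    · have : px.2 (m : ZMod px.1) = 1 := by linear_combination h3
      rw [this, map_one]
      simp
    · have : px.2 (m : ZMod px.1) = -1 := by linear_combination h3
      rw [this, map_neg, map_one]
      simp
  · rw [MulChar.map_nonunit px.2 ha, map_zero]
    simp

end Pool.Agent.Lib.H59P
end

-- from Lib.H59P.C3
section

/-!
# Project H59P, chunk C3
-/

open Finset

namespace Pool.Agent.Lib.H59P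

open Pool.Agent.Lib.H68T Pool.Agent.Lib.H18Q

theorem c3_cj_p0 (m : ℤ) : cj p0 m = 1 := by
  unfold cj p0
  have h : IsUnit ((m : ℤ) : ZMod 1) := isUnit_of_subsingleton _
  rw [MulChar.one_apply h, map_one]

theorem c3_cj_norm (p : Ch) (m : ℤ) : ‖cj p m‖ ≤ 1 := by
  unfold cj
  rw [RCLike.norm_conj]
  exact DirichletCharacter.norm_le_one _ _

theorem c3_lcm {k : ℕ} (px : Ch) (J : Finset (Fin k)) (p p' : Fin k → Ch) (h1 : ∀ i ∈ J, p i = p' i)
    (h2 : ∀ i, i ∉ J → p i = p0 ∨ p i = px) :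
    px.1.lcm (univ.lcm fun i => (p i).1) ∣ px.1.lcm (univ.lcm fun i => (p' i).1) := by
  refine Nat.lcm_dvd (Nat.dvd_lcm_left _ _) (Finset.lcm_dvd fun i _ => ?_)
  by_cases hi : i ∈ J
  · rw [h1 i hi]
    exact (Finset.dvd_lcm (f := fun i => (p' i).1) (Finset.mem_univ i)).trans (Nat.dvd_lcm_right _ _)
  · rcases h2 i hi with h | h
    · rw [h]
      exact one_dvd _
    · rw [h]
      exact Nat.dvd_lcm_left _ _

theorem c3_sumA (Q : ℕ) (hQ : 1 ≤ Q) (px : Ch) (hpx : px ∈ PC Q) (t : ℝ) (htriv : px = p0 → t = 0)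
    (hreal : px.2 ^ 2 = 1) (m : ℤ) :
    ∑ p ∈ PC Q, MX px (fun _ => t) 0 p * cj p m = ((1 - t * (cj px m).re : ℝ) : ℂ) := by
  classical
  by_cases hp : px = p0
  · have ht := htriv hp
    rw [Finset.sum_eq_single p0]
    · simp [MX, c3_cj_p0, ht]
    · intro p _ hne
      have h0 : MX px (fun _ => t) 0 p = 0 := by
        simp only [MX]
        rw [if_neg hne, if_neg (by rw [hp]; exact hne)]
      rw [h0, zero_mul]
    · intro h
      exact absurd (p0_mem hQ) h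
  · have hsub : ({p0, px} : Finset Ch) ⊆ PC Q := by
      intro p h
      rw [Finset.mem_insert, Finset.mem_singleton] at h
      rcases h with h | h
      · rw [h]; exact p0_mem hQ
      · rw [h]; exact hpx
    rw [← Finset.sum_subset hsub]
    · rw [Finset.sum_pair (Ne.symm hp)]
      have e1 : MX px (fun _ => t) 0 p0 = 1 := by simp [MX]
      have e2 : MX px (fun _ => t) 0 px = -((t : ℝ) : ℂ) := by simp [MX, hp]
      rw [e1, e2, c3_cj_p0]
      have e3 := (C3a px hreal m).1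
      rw [e3]
      push_cast
      simp
      ring
    · intro p _ hne
      rw [Finset.mem_insert, Finset.mem_singleton, not_or] at hne
      have h0 : MX px (fun _ => t) 0 p = 0 := by
        simp only [MX]
        rw [if_neg hne.1, if_neg hne.2]
      rw [h0, zero_mul]

/-- the pointwise bound -/
theorem c3_pt {k : ℕ} (Q D1 : ℕ) (hQ : 1 ≤ Q) (η E0 : ℝ) (px : Ch) (hpx : px ∈ PC Q) (hreal : px.2 ^ 2 = 1)
    (hcond : px.1 ≤ D1) (hη : 0 < η) (hE0 : 0 ≤ E0) (hE : 4 * k * E0 ≤ 1) (th : Fin k → ℝ)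
    (hth0 : ∀ i, 0 ≤ th i) (hth : ∀ i, th i ≤ 1 - η) (htriv : px = p0 → ∀ i, th i = 0)
    (e : Fin k → Ch → ℂ) (he : ∀ i, ∑ p ∈ PC Q, ‖e i p‖ ≤ η * E0) (m : Fin k → ℤ) :
    ‖∑ p ∈ TS k Q D1 px, ∏ i, ((MX px (fun _ => th i) 0 (p i) + e i (p i)) * cj (p i) (m i)) -
      ((∏ i, (1 - th i * (cj px (m i)).re) : ℝ) : ℂ)‖ ≤ 1 / 2 * ∏ i, (1 - th i * (cj px (m i)).re) := by
  classical
  have ha : ∀ i, η ≤ 1 - th i * (cj px (m i)).re := by
    intro i
    have h1 := (abs_le.mp (C3a px hreal (m i)).2).2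
    have h2 := mul_le_mul_of_nonneg_left h1 (hth0 i)
    have h3 := hth i
    linarith
  have ha0 : ∀ i, 0 ≤ 1 - th i * (cj px (m i)).re := fun i => hη.le.trans (ha i)
  have hsum : ∀ i, ∑ p ∈ PC Q, MX px (fun _ => th i) 0 p * cj p (m i) =
      ((1 - th i * (cj px (m i)).re : ℝ) : ℂ) := fun i =>
    c3_sumA Q hQ px hpx (th i) (fun h => htriv h i) hreal (m i)
  have hC1 := C1 (PC Q) ({p0, px} : Finset Ch) (fun p : Fin k → Ch => px.1.lcm (univ.lcm fun i => (p i).1) ≤ D1)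
    (fun i p => MX px (fun _ => th i) 0 p * cj p (m i)) (fun i p => e i p * cj p (m i)) ?_ ?_ ?_
  rotate_left
  · intro i p _ hne
    rw [Finset.mem_insert, Finset.mem_singleton, not_or] at hne
    have h0 : MX px (fun _ => th i) 0 p = 0 := by
      simp only [MX]
      rw [if_neg hne.1, if_neg hne.2]
    show MX px (fun _ => th i) 0 p * cj p (m i) = 0
    rw [h0, zero_mul]
  · intro J p p' h1 h2 h3
    have k1 := c3_lcm px J p p' h1 (fun i hi => by simpa using h2 i hi)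
    have k2 := c3_lcm px J p' p (fun i hi => (h1 i hi).symm) (fun i hi => by simpa using h3 i hi)
    show px.1.lcm (univ.lcm fun i => (p i).1) ≤ D1 ↔ px.1.lcm (univ.lcm fun i => (p' i).1) ≤ D1
    rw [Nat.dvd_antisymm k1 k2]
  · intro p hp
    have k1 := c3_lcm px ∅ p (fun _ => p0) (fun i hi => by simp at hi) (fun i _ => by simpa using hp i)
    have k2 : px.1.lcm (univ.lcm fun i : Fin k => ((fun _ => p0 : Fin k → Ch) i).1) ∣ px.1 := by
      refine Nat.lcm_dvd dvd_rfl (Finset.lcm_dvd fun i _ => ?_)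
      exact one_dvd _
    have hpos : 0 < px.1 := (mem_PC.mp hpx).1
    exact (Nat.le_of_dvd hpos (k1.trans k2)).trans hcond
  have e1 : ∀ p : Fin k → Ch, ∏ i, ((MX px (fun _ => th i) 0 (p i) + e i (p i)) * cj (p i) (m i)) =
      ∏ i, (MX px (fun _ => th i) 0 (p i) * cj (p i) (m i) + e i (p i) * cj (p i) (m i)) := fun p =>
    Finset.prod_congr rfl fun i _ => by ring
  have e2 : ∏ i, ∑ p ∈ PC Q, MX px (fun _ => th i) 0 p * cj p (m i) =
      ((∏ i, (1 - th i * (cj px (m i)).re) : ℝ) : ℂ) := by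
    rw [Complex.ofReal_prod]
    exact Finset.prod_congr rfl fun i _ => hsum i
  have e3 : ∀ i, ‖∑ p ∈ PC Q, MX px (fun _ => th i) 0 p * cj p (m i)‖ = 1 - th i * (cj px (m i)).re := by
    intro i
    rw [hsum i, Complex.norm_real, Real.norm_eq_abs, abs_of_nonneg (ha0 i)]
  have hC2 := C2 (fun i => 1 - th i * (cj px (m i)).re) (fun i => ∑ p ∈ PC Q, ‖e i p * cj p (m i)‖) η E0 hη hE0 hE ha
    (fun i => Finset.sum_nonneg fun _ _ => norm_nonneg _) (fun i => ?_)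
  swap
  · refine (Finset.sum_le_sum fun p _ => ?_).trans (he i)
    rw [norm_mul]
    exact mul_le_of_le_one_right (norm_nonneg _) (c3_cj_norm p (m i))
  simp only [e3] at hC1
  rw [e2] at hC1
  unfold TS
  simp only [e1]
  exact hC1.trans hC2

theorem c3_pr (Q : ℕ) : ∀ l ∈ pr Q, l.Prime := fun l hl => (Finset.mem_filter.mp hl).2

/-- **C3.** `c i p = MX px (th i) p + e i p`.

Proof. Both sides are means over `n < Q!` of `∏_i uu(n+h_i)` (`≥ 0`, `M3a_uu_nonneg`) times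
`∑_{p ∈ TS} ∏_i c_i(p_i) cj (p_i)(n+h_i)` and `∏_i (1 - th_i ψ(n+h_i))` respectively. For fixed `n` apply `C1` with
`S = PC Q`, `V = {p0, px}`, `φ p = (px.1.lcm (lcm p_i.1) ≤ D1)`, `A i p = MX px (th i) p · cj p (n+h_i)`,
`B i p = e i p · cj p (n+h_i)`: `∑_p A i p = 1 - th_i ψ(n+h_i)` (`cj p0 = 1`; `C3a`; if `px = p0` then `th_i = 0`)
which is real and `≥ 1 - th_i ≥ η`, `∑ ‖B‖ ≤ ∑ ‖e i p‖ ≤ η E0`; `dep`: coordinates in `V` have modulus `1` or
`px.1`, which does not change `px.1.lcm (…)`; `hV`: then the lcm is `px.1 ≤ D1`. `C2`. -/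
theorem C3 {k : ℕ} (Q D1 : ℕ) (hQ : 1 ≤ Q) (η E0 : ℝ) (px : Ch) (hpx : px ∈ PC Q) (hreal : px.2 ^ 2 = 1)
    (hcond : px.1 ≤ D1) (hη : 0 < η) (hE0 : 0 ≤ E0) (hE : 4 * k * E0 ≤ 1) (th : Fin k → ℝ)
    (hth0 : ∀ i, 0 ≤ th i) (hth : ∀ i, th i ≤ 1 - η) (htriv : px = p0 → ∀ i, th i = 0)
    (e : Fin k → Ch → ℂ) (he : ∀ i, ∑ p ∈ PC Q, ‖e i p‖ ≤ η * E0) (h : Fin k → ℕ) :
    ‖∑ p ∈ TS k Q D1 px, (∏ i, (MX px (fun _ => th i) 0 (p i) + e i (p i))) * MQ Q p h -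
      ((PM Q px th h : ℝ) : ℂ)‖ ≤ 1 / 2 * PM Q px th h := by
  have hQ0 : (0 : ℝ) < (Q.factorial : ℝ) := by exact_mod_cast Nat.factorial_pos Q
  have hU : ∀ n : ℤ, 0 ≤ ∏ i : Fin k, uu (pr Q) (n + h i) := fun n =>
    Finset.prod_nonneg fun i _ => M3a_uu_nonneg _ (c3_pr Q) _
  have h1 : ∑ p ∈ TS k Q D1 px, (∏ i, (MX px (fun _ => th i) 0 (p i) + e i (p i))) * MQ Q p h =
      (∑ n ∈ range Q.factorial, ((∏ i : Fin k, uu (pr Q) ((n : ℤ) + h i) : ℝ) : ℂ) *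
        ∑ p ∈ TS k Q D1 px, ∏ i, ((MX px (fun _ => th i) 0 (p i) + e i (p i)) * cj (p i) ((n : ℤ) + h i))) /
        ((Q.factorial : ℝ) : ℂ) := by
    unfold MQ
    rw [Finset.sum_div]
    simp only [Finset.mul_sum, Finset.sum_div, mul_div_assoc']
    rw [Finset.sum_comm]
    refine Finset.sum_congr rfl fun n _ => ?_
    refine Finset.sum_congr rfl fun p _ => ?_
    unfold Ph
    rw [Finset.prod_mul_distrib, Finset.prod_mul_distrib, Complex.ofReal_prod]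
    push_cast
    ring
  have h2 : PM Q px th h = (∑ n ∈ range Q.factorial, (∏ i : Fin k, uu (pr Q) ((n : ℤ) + h i)) *
        ∏ i, (1 - th i * (cj px ((n : ℤ) + h i)).re)) / (Q.factorial : ℝ) := by
    unfold PM fP
    congr 1
    refine Finset.sum_congr rfl fun n _ => ?_
    rw [Finset.prod_mul_distrib]
  rw [h1, h2]
  rw [Complex.ofReal_div, ← sub_div, norm_div, Complex.norm_real, Real.norm_eq_abs, abs_of_pos hQ0, mul_div_assoc']
  refine div_le_div_of_nonneg_right ?_ hQ0.le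
  rw [Complex.ofReal_sum, ← Finset.sum_sub_distrib, Finset.mul_sum]
  refine (norm_sum_le _ _).trans (Finset.sum_le_sum fun n _ => ?_)
  rw [Complex.ofReal_mul, ← mul_sub, norm_mul, Complex.norm_real, Real.norm_eq_abs, abs_of_nonneg (hU n)]
  have hpt := c3_pt Q D1 hQ η E0 px hpx hreal hcond hη hE0 hE th hth0 hth htriv e he (fun i => (n : ℤ) + h i)
  have := mul_le_mul_of_nonneg_left hpt (hU n)
  refine this.trans (le_of_eq ?_)
  ring

end Pool.Agent.Lib.H59P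
end

-- from Lib.H59P.X1A
section

/-!
# Project H59P, chunk X1a
-/

open Finset

namespace Pool.Agent.Lib.H59P

open Pool.Agent.Lib.H68T Pool.Agent.Lib.H18Q

theorem x1a_parseval (r : ℕ) [NeZero r] (f : ZMod r → ℂ) :
    ∑ m : ZMod r, ‖∑ b, (ZMod.stdAddChar (b * m) : ℂ) * f b‖ ^ 2 = (r : ℝ) * ∑ b, ‖f b‖ ^ 2 := by
  classical
  refine Pool.Agent.Lib.H59C.lsb_parseval (fun (m b : ZMod r) => (ZMod.stdAddChar (b * m) : ℂ)) (r : ℝ) ?_ f
  intro b b'
  have h2 := AddChar.sum_mulShift (b' - b) (ZMod.isPrimitive_stdAddChar r)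
  rw [ZMod.card] at h2
  have h3 : ∀ x : ZMod r, (starRingEnd ℂ) (ZMod.stdAddChar (b * x) : ℂ) *
      ZMod.stdAddChar (b' * x) = ZMod.stdAddChar (x * (b' - b)) := by
    intro x
    rw [← AddChar.map_neg_eq_conj, ← AddChar.map_add_eq_mul]
    congr 1
    ring
  rw [sum_congr rfl fun x _ => h3 x, h2]
  by_cases hb : b = b'
  · rw [if_pos hb, if_pos (by rw [hb, sub_self])]
    norm_cast
  · rw [if_neg hb, if_neg (by rw [sub_eq_zero]; exact fun h => hb h.symm)]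
    norm_cast

theorem x1a_gauss (r : ℕ) [NeZero r] (χ : DirichletCharacter ℂ r) (hχ : χ.IsPrimitive) (m : ZMod r) :
    ‖∑ b, (ZMod.stdAddChar (b * m) : ℂ) * χ b‖ ^ 2 ≤ r := by
  have h4 : ‖∑ b, (ZMod.stdAddChar (b * m) : ℂ) * χ b‖ ^ 2 =
      ‖χ⁻¹ m‖ ^ 2 * ‖gaussSum χ (ZMod.stdAddChar (N := r))‖ ^ 2 := by
    rw [← mul_pow, ← norm_mul, ← gaussSum_mulShift_of_isPrimitive _ hχ, gaussSum]
    congr 2
    refine sum_congr rfl fun b _ => ?_
    rw [AddChar.mulShift_apply, mul_comm, mul_comm b]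
  rw [h4, Pool.Agent.Lib.H59C.lsb_gauss r hχ]
  have h5 : ‖χ⁻¹ m‖ ≤ 1 := χ⁻¹.norm_le_one m
  have h6 : ‖χ⁻¹ m‖ ^ 2 ≤ 1 := pow_le_one₀ (norm_nonneg _) h5
  have h7 : (0 : ℝ) ≤ r := Nat.cast_nonneg r
  nlinarith

/-- **X1a.** For a primitive character modulo `r`: `∑_{t mod r} |∑_{s mod r} χ(s) conj χ(s+t)|² ≤ r^3`.

Proof. By Parseval the autocorrelation `c(t) = ∑_s χ(s) conj χ(s+t)` has Fourier transform
`|χ^(ξ)|²`, and `|χ^(ξ)|² = |χ(ξ)|² |τ|² ≤ r` (`lsb_gauss`, `gaussSum_mulShift_of_isPrimitive`; primitivity), so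
`∑_t |c(t)|² = (1/r) ∑_ξ |χ^(ξ)|^4 ≤ (1/r) r · r² = r²`... (so even `≤ r^2 · 1`; any bound `≤ r^3 / r` is fine:
the statement is with `r ^ 2`). Or `c(t)` is a Ramanujan sum. -/
theorem X1a (r : ℕ) [NeZero r] (χ : DirichletCharacter ℂ r) (hχ : χ.IsPrimitive) :
    ∑ t : ZMod r, ‖∑ s : ZMod r, χ s * (starRingEnd ℂ) (χ (s + t))‖ ^ 2 ≤ (r : ℝ) ^ 2 := by
  classical
  have hr : (0 : ℝ) < r := by exact_mod_cast NeZero.pos r
  have h1 := x1a_parseval r (fun t => ∑ s : ZMod r, χ s * (starRingEnd ℂ) (χ (s + t)))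
  have h2 : ∀ m : ZMod r, ‖∑ b : ZMod r, (ZMod.stdAddChar (b * m) : ℂ) *
      ∑ s : ZMod r, χ s * (starRingEnd ℂ) (χ (s + b))‖ ^ 2 ≤ (r : ℝ) ^ 2 := by
    intro m
    have e1 : ∑ b : ZMod r, (ZMod.stdAddChar (b * m) : ℂ) *
        ∑ s : ZMod r, χ s * (starRingEnd ℂ) (χ (s + b)) =
        (∑ s : ZMod r, (ZMod.stdAddChar (s * (-m)) : ℂ) * χ s) *
          (starRingEnd ℂ) (∑ u : ZMod r, (ZMod.stdAddChar (u * (-m)) : ℂ) * χ u) := by
      rw [map_sum, sum_mul_sum]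
      simp_rw [mul_sum]
      rw [sum_comm]
      refine sum_congr rfl fun s _ => ?_
      rw [← Equiv.sum_comp (Equiv.addLeft s)
        (fun u => (ZMod.stdAddChar (s * -m) : ℂ) * χ s *
          (starRingEnd ℂ) ((ZMod.stdAddChar (u * -m) : ℂ) * χ u))]
      refine sum_congr rfl fun b _ => ?_
      rw [Equiv.coe_addLeft, map_mul (starRingEnd ℂ)]
      dsimp only
      rw [← AddChar.map_neg_eq_conj]
      have e2 : (ZMod.stdAddChar (b * m) : ℂ) =
          ZMod.stdAddChar (s * -m) * ZMod.stdAddChar (-((s + b) * -m)) := by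
        rw [← AddChar.map_add_eq_mul]
        congr 1
        ring
      rw [e2]
      ring
    rw [e1, norm_mul, RCLike.norm_conj, ← sq, ← pow_mul]
    have e3 := x1a_gauss r χ hχ (-m)
    calc ‖∑ s : ZMod r, (ZMod.stdAddChar (s * (-m)) : ℂ) * χ s‖ ^ (2 * 2)
        = (‖∑ s : ZMod r, (ZMod.stdAddChar (s * (-m)) : ℂ) * χ s‖ ^ 2) ^ 2 := by rw [pow_mul]
      _ ≤ (r : ℝ) ^ 2 := pow_le_pow_left₀ (sq_nonneg _) e3 2
  have h3 : (r : ℝ) * ∑ t : ZMod r, ‖∑ s : ZMod r, χ s * (starRingEnd ℂ) (χ (s + t))‖ ^ 2 ≤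
      (r : ℝ) * (r : ℝ) ^ 2 := by
    rw [← h1]
    refine (sum_le_sum fun m _ => h2 m).trans ?_
    rw [sum_const, card_univ, ZMod.card, nsmul_eq_mul]
  exact le_of_mul_le_mul_left h3 hr

end Pool.Agent.Lib.H59P
end

-- from Lib.H59P.X1
section

/-!
# Project H59P, chunk pB, X1
-/

open Finset

namespace Pool.Agent.Lib.H59P

open Pool.Agent.Lib.H68T Pool.Agent.Lib.H18Q

/-- The tuple of characters: `⟨r, ψ⟩` on `B`, trivial else. -/
noncomputable def pB {k : ℕ} (px : Ch) (B : Finset (Fin k)) (i : Fin k) : Ch := if i ∈ B then px else p0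

theorem x1_tot (r : ℕ) (hr : 0 < r) :
    ∏ l ∈ r.primeFactors, ((l : ℝ) / ((l : ℝ) - 1)) = (r : ℝ) / (Nat.totient r : ℝ) := by
  have h1 : (Nat.totient r : ℝ) = (r : ℝ) * ∏ p ∈ r.primeFactors, (1 - (p : ℝ)⁻¹) := by
    have h := Nat.totient_eq_mul_prod_factors r
    have h2 : (((Nat.totient r : ℚ)) : ℝ) = (((r : ℚ) * ∏ p ∈ r.primeFactors, (1 - (p : ℚ)⁻¹) : ℚ) : ℝ) := by
      rw [h]
    push_cast at h2
    exact h2
  have h3 : ∀ p ∈ r.primeFactors, ((p : ℝ) / ((p : ℝ) - 1)) * (1 - (p : ℝ)⁻¹) = 1 := by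
    intro p hp
    have hp2 := (Nat.prime_of_mem_primeFactors hp).two_le
    have hp3 : (2 : ℝ) ≤ p := by exact_mod_cast hp2
    have : (p : ℝ) - 1 ≠ 0 := by linarith
    have : (p : ℝ) ≠ 0 := by linarith
    field_simp
  have h4 : (∏ l ∈ r.primeFactors, ((l : ℝ) / ((l : ℝ) - 1))) * ∏ p ∈ r.primeFactors, (1 - (p : ℝ)⁻¹) = 1 := by
    rw [← prod_mul_distrib]
    exact prod_eq_one h3
  have hr0 : (0 : ℝ) < r := by exact_mod_cast hr
  have ht0 : (0 : ℝ) < Nat.totient r := by exact_mod_cast Nat.totient_pos.2 hr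
  rw [eq_div_iff ht0.ne', h1, mul_comm (r : ℝ), ← mul_assoc, h4, one_mul]

theorem x1_uu_unit (r : ℕ) (hr : 0 < r) (m : ℤ) (hm : IsUnit (m : ZMod r)) :
    uu r.primeFactors m = (r : ℝ) / (Nat.totient r : ℝ) := by
  rw [← x1_tot r hr]
  unfold uu
  refine prod_congr rfl fun l hl => ?_
  have hlp := Nat.prime_of_mem_primeFactors hl
  have hld := Nat.dvd_of_mem_primeFactors hl
  have hnd : ¬ (l : ℤ) ∣ m := by
    intro h
    rw [ZMod.coe_int_isUnit_iff_isCoprime] at hm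
    have h1 : IsCoprime (l : ℤ) m := hm.of_isCoprime_of_dvd_left (by exact_mod_cast hld)
    have h2 : IsUnit (l : ℤ) := h1.isUnit_of_dvd' dvd_rfl h
    rw [Int.isUnit_iff] at h2
    have := hlp.two_le
    omega
  unfold gl
  rw [if_neg hnd]
  have hp3 : (2 : ℝ) ≤ l := by exact_mod_cast hlp.two_le
  have : (l : ℝ) - 1 ≠ 0 := by linarith
  field_simp
  ring


theorem x1_sum_mul (r q : ℕ) (g : ℕ → ℂ) (hg : ∀ s, g (s + r) = g s) :
    ∑ s ∈ range (r * q), g s = q * ∑ s ∈ range r, g s := by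
  induction q with
  | zero => simp
  | succ q ih =>
    rw [Nat.mul_succ, sum_range_add, ih]
    have h1 : ∀ q s : ℕ, g (r * q + s) = g s := by
      intro q s
      induction q with
      | zero => simp
      | succ q ih =>
        rw [Nat.mul_succ, show r * q + r + s = (r * q + s) + r by ring, hg, ih]
    simp_rw [h1]
    push_cast
    ring

theorem x1_sum_zmod (r : ℕ) [NeZero r] {M : Type*} [AddCommMonoid M] (g : ZMod r → M) :
    ∑ s ∈ range r, g (s : ZMod r) = ∑ t : ZMod r, g t := by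
  refine sum_nbij' (fun s => (s : ZMod r)) (fun t => t.val) ?_ ?_ ?_ ?_ ?_
  · intro s _
    exact mem_univ _
  · intro t _
    exact mem_range.2 (ZMod.val_lt t)
  · intro s hs
    exact ZMod.val_cast_of_lt (mem_range.1 hs)
  · intro t _
    exact ZMod.natCast_zmod_val t
  · intro s _
    rfl

theorem x1_cj_norm (p : Ch) (m : ℤ) : ‖cj p m‖ ≤ 1 := by
  unfold cj
  rw [RCLike.norm_conj]
  exact DirichletCharacter.norm_le_one _ _

theorem x1_sum_c (r : ℕ) [NeZero r] (χ : DirichletCharacter ℂ r) (hχ : χ.IsPrimitive) :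
    ∑ t : ZMod r, ‖∑ s : ZMod r, χ s * (starRingEnd ℂ) (χ (s + t))‖ ≤ (r : ℝ) * Real.sqrt r := by
  have h1 := X1a r χ hχ
  have h2 := sq_sum_le_card_mul_sum_sq (s := (univ : Finset (ZMod r)))
    (f := fun t => ‖∑ s : ZMod r, χ s * (starRingEnd ℂ) (χ (s + t))‖)
  rw [card_univ, ZMod.card] at h2
  have hr0 : (0 : ℝ) ≤ r := Nat.cast_nonneg r
  refine (pow_le_pow_iff_left₀ (sum_nonneg fun _ _ => norm_nonneg _) (by positivity) two_ne_zero).1 ?_
  calc _ ≤ (r : ℝ) * ∑ t : ZMod r, ‖∑ s : ZMod r, χ s * (starRingEnd ℂ) (χ (s + t))‖ ^ 2 := h2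
    _ ≤ (r : ℝ) * (r : ℝ) ^ 2 := mul_le_mul_of_nonneg_left h1 hr0
    _ = ((r : ℝ) * Real.sqrt r) ^ 2 := by
      rw [mul_pow, Real.sq_sqrt hr0]
      ring

/-- the factor of the `i`-th coordinate -/
noncomputable def x1F {k : ℕ} (px : Ch) (B : Finset (Fin k)) (r : ℕ) (i : Fin k) (m : ℤ) : ℂ :=
  cj (pB px B i) m * ((uu r.primeFactors m : ℝ) : ℂ)

theorem x1_MR {k : ℕ} (px : Ch) (B : Finset (Fin k)) (r : ℕ) (h : Fin k → ℕ) :
    MR (pB px B) r h = (∑ n ∈ range r, ∏ i, x1F px B r i ((n : ℤ) + h i)) / r := rfl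

theorem x1_sq {k : ℕ} (px : Ch) (B : Finset (Fin k)) (r : ℕ) (h : Fin k → ℕ) :
    ((‖MR (pB px B) r h‖ ^ 2 : ℝ) : ℂ) = (1 / (r : ℂ) ^ 2) * ∑ n ∈ range r, ∑ n' ∈ range r,
      ∏ i, ((starRingEnd ℂ) (x1F px B r i ((n : ℤ) + h i)) * x1F px B r i ((n' : ℤ) + h i)) := by
  rw [Complex.ofReal_pow, ← Complex.conj_mul', x1_MR, map_div₀, map_sum, Complex.conj_natCast,
    div_mul_div_comm, sum_mul_sum, ← sq, one_div, div_eq_inv_mul]
  congr 1
  refine sum_congr rfl fun n _ => sum_congr rfl fun n' _ => ?_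
  rw [map_prod, prod_mul_distrib]

theorem x1_F_le {k : ℕ} (px : Ch) (B : Finset (Fin k)) (r : ℕ) (hr : 0 < r) (i : Fin k) (m : ℤ) :
    ‖x1F px B r i m‖ ≤ (r : ℝ) / (Nat.totient r : ℝ) := by
  unfold x1F
  rw [norm_mul, Complex.norm_real, Real.norm_eq_abs, abs_of_nonneg (M3a_uu r hr m).1]
  calc _ ≤ 1 * ((r : ℝ) / (Nat.totient r : ℝ)) :=
        mul_le_mul (x1_cj_norm _ _) (M3a_uu r hr m).2 (M3a_uu r hr m).1 zero_le_one
    _ = _ := one_mul _

theorem x1_F_B {k : ℕ} (r : ℕ) (hr : 0 < r) (χ : DirichletCharacter ℂ r) (B : Finset (Fin k)) (i : Fin k)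
    (hi : i ∈ B) (m : ℤ) :
    x1F ⟨r, χ⟩ B r i m = (((r : ℝ) / (Nat.totient r : ℝ) : ℝ) : ℂ) * (starRingEnd ℂ) (χ (m : ZMod r)) := by
  unfold x1F pB
  rw [if_pos hi]
  unfold cj
  by_cases hm : IsUnit (m : ZMod r)
  · rw [x1_uu_unit r hr m hm, mul_comm]
  · show (starRingEnd ℂ) (χ (m : ZMod r)) * _ = _
    rw [MulChar.map_nonunit χ hm]
    simp

/-- the correlation of one coordinate -/
noncomputable def x1T {k : ℕ} (px : Ch) (B : Finset (Fin k)) (r L : ℕ) (i : Fin k) (n n' : ℕ) : ℂ :=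
  ∑ s ∈ range L, (starRingEnd ℂ) (x1F px B r i ((n : ℤ) + s)) * x1F px B r i ((n' : ℤ) + s)

theorem x1_T_le {k : ℕ} (px : Ch) (B : Finset (Fin k)) (r : ℕ) (hr : 0 < r) (L : ℕ) (i : Fin k) (n n' : ℕ) :
    ‖x1T px B r L i n n'‖ ≤ (L : ℝ) * ((r : ℝ) / (Nat.totient r : ℝ)) ^ 2 := by
  unfold x1T
  refine (norm_sum_le _ _).trans ?_
  calc _ ≤ ∑ _s ∈ range L, ((r : ℝ) / (Nat.totient r : ℝ)) ^ 2 := by
        refine sum_le_sum fun s _ => ?_
        rw [norm_mul, RCLike.norm_conj, sq]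
        exact mul_le_mul (x1_F_le px B r hr i _) (x1_F_le px B r hr i _) (norm_nonneg _) (by positivity)
    _ = _ := by rw [sum_const, card_range, nsmul_eq_mul]

theorem x1_T_B {k : ℕ} (r : ℕ) [NeZero r] (hr : 0 < r) (χ : DirichletCharacter ℂ r) (B : Finset (Fin k)) (q : ℕ)
    (i : Fin k) (hi : i ∈ B) (n n' : ℕ) :
    ‖x1T ⟨r, χ⟩ B r (r * q) i n n'‖ = (q : ℝ) * ((r : ℝ) / (Nat.totient r : ℝ)) ^ 2 *
      ‖∑ s : ZMod r, χ s * (starRingEnd ℂ) (χ (s + ((n' : ZMod r) - (n : ZMod r))))‖ := by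
  have h1 : x1T ⟨r, χ⟩ B r (r * q) i n n' = ((((r : ℝ) / (Nat.totient r : ℝ)) ^ 2 : ℝ) : ℂ) *
      ∑ s ∈ range (r * q), χ ((n : ZMod r) + s) * (starRingEnd ℂ) (χ ((n' : ZMod r) + s)) := by
    unfold x1T
    rw [mul_sum]
    refine sum_congr rfl fun s _ => ?_
    rw [x1_F_B r hr χ B i hi, x1_F_B r hr χ B i hi]
    push_cast
    simp only [map_mul, map_div₀, Complex.conj_natCast, Complex.conj_conj]
    ring
  have h2 : ∑ s ∈ range (r * q), χ ((n : ZMod r) + s) * (starRingEnd ℂ) (χ ((n' : ZMod r) + s)) =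
      q * ∑ s : ZMod r, χ s * (starRingEnd ℂ) (χ (s + ((n' : ZMod r) - (n : ZMod r)))) := by
    rw [x1_sum_mul r q (fun s => χ ((n : ZMod r) + s) * (starRingEnd ℂ) (χ ((n' : ZMod r) + s)))]
    · congr 1
      rw [x1_sum_zmod r fun s : ZMod r => χ ((n : ZMod r) + s) * (starRingEnd ℂ) (χ ((n' : ZMod r) + s))]
      refine Fintype.sum_equiv (Equiv.addLeft (n : ZMod r)) _ _ fun s => ?_
      simp only [Equiv.coe_addLeft]
      congr 3
      ring
    · intro s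
      push_cast
      rw [ZMod.natCast_self, add_zero]
  rw [h1, h2, norm_mul, norm_mul, Complex.norm_real, Real.norm_eq_abs, abs_of_nonneg (sq_nonneg _),
    Complex.norm_natCast]
  ring

theorem x1_double (r : ℕ) [NeZero r] (f : ZMod r → ℝ) :
    ∑ n ∈ range r, ∑ n' ∈ range r, f ((n' : ZMod r) - (n : ZMod r)) = (r : ℝ) * ∑ t : ZMod r, f t := by
  have h1 : ∀ n : ℕ, ∑ n' ∈ range r, f ((n' : ZMod r) - (n : ZMod r)) = ∑ t : ZMod r, f t := by
    intro n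
    rw [x1_sum_zmod r fun t : ZMod r => f (t - (n : ZMod r))]
    exact Fintype.sum_equiv (Equiv.subRight (n : ZMod r)) _ _ fun t => rfl
  simp_rw [h1]
  rw [sum_const, card_range, nsmul_eq_mul]

theorem x1_main {k : ℕ} (X r : ℕ) (hr : 0 < r) (hrX : r ≤ X) (χ : DirichletCharacter ℂ r)
    (hprim : χ.IsPrimitive) (B : Finset (Fin k)) (hB : B.Nonempty) :
    ∑ h ∈ bx k X, ‖MR (pB ⟨r, χ⟩ B) r h‖ ^ 2 ≤
      (2 * (X : ℝ)) ^ k * ((r : ℝ) / (Nat.totient r : ℝ)) ^ (2 * k) * (r : ℝ) ^ (-(1 / 2) : ℝ) := by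
  have : NeZero r := ⟨hr.ne'⟩
  obtain ⟨i0, hi0⟩ := hB
  set Φ : ℝ := (r : ℝ) / (Nat.totient r : ℝ) with hΦ
  have hr0 : (0 : ℝ) < r := by exact_mod_cast hr
  have hΦ0 : 0 ≤ Φ := by positivity
  set q := (X + r - 1) / r with hq
  have hq1 : X ≤ r * q := by
    have h1 := Nat.div_add_mod (X + r - 1) r
    have h2 := Nat.mod_lt (X + r - 1) hr
    rw [← hq] at h1
    omega
  have hq2 : r * q ≤ 2 * X := by
    have h1 := Nat.mul_div_le (X + r - 1) r
    rw [← hq] at h1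
    omega
  set L := r * q with hL
  have hsub : bx k X ⊆ bx k L := by
    intro h hh
    unfold bx at hh ⊢
    rw [Fintype.mem_piFinset] at hh ⊢
    intro i
    have := mem_range.1 (hh i)
    exact mem_range.2 (by omega)
  have h1 : ∑ h ∈ bx k X, ‖MR (pB ⟨r, χ⟩ B) r h‖ ^ 2 ≤ ∑ h ∈ bx k L, ‖MR (pB ⟨r, χ⟩ B) r h‖ ^ 2 :=
    sum_le_sum_of_subset_of_nonneg hsub fun h _ _ => sq_nonneg _
  have h2 : ((∑ h ∈ bx k L, ‖MR (pB ⟨r, χ⟩ B) r h‖ ^ 2 : ℝ) : ℂ) =
      (1 / (r : ℂ) ^ 2) * ∑ n ∈ range r, ∑ n' ∈ range r, ∏ i, x1T ⟨r, χ⟩ B r L i n n' := by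
    rw [Complex.ofReal_sum]
    simp_rw [x1_sq]
    rw [← mul_sum, sum_comm]
    congr 1
    refine sum_congr rfl fun n _ => ?_
    rw [sum_comm]
    refine sum_congr rfl fun n' _ => ?_
    unfold bx x1T
    rw [prod_univ_sum]
  have h3 : ∀ n n' : ℕ, ‖∏ i, x1T ⟨r, χ⟩ B r L i n n'‖ ≤ ((L : ℝ) * Φ ^ 2) ^ (k - 1) * ((q : ℝ) * Φ ^ 2 *
      ‖∑ s : ZMod r, χ s * (starRingEnd ℂ) (χ (s + ((n' : ZMod r) - (n : ZMod r))))‖) := by
    intro n n'
    rw [norm_prod, ← mul_prod_erase univ _ (mem_univ i0), mul_comm]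
    apply mul_le_mul _ (x1_T_B r hr χ B q i0 hi0 n n').le (norm_nonneg _) (by positivity)
    refine (prod_le_prod (fun i _ => norm_nonneg _) fun i _ => x1_T_le ⟨r, χ⟩ B r hr L i n n').trans ?_
    rw [prod_const, card_erase_of_mem (mem_univ i0), card_univ, Fintype.card_fin]
  have h4 : ∑ h ∈ bx k L, ‖MR (pB ⟨r, χ⟩ B) r h‖ ^ 2 ≤ (1 / (r : ℝ) ^ 2) *
      (((L : ℝ) * Φ ^ 2) ^ (k - 1) * ((q : ℝ) * Φ ^ 2) * ((r : ℝ) * ((r : ℝ) * Real.sqrt r))) := by
    have h5 : ∑ h ∈ bx k L, ‖MR (pB ⟨r, χ⟩ B) r h‖ ^ 2 =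
        ‖((∑ h ∈ bx k L, ‖MR (pB ⟨r, χ⟩ B) r h‖ ^ 2 : ℝ) : ℂ)‖ := by
      rw [Complex.norm_real, Real.norm_eq_abs, abs_of_nonneg (sum_nonneg fun _ _ => sq_nonneg _)]
    rw [h5, h2, norm_mul, norm_div, norm_one, norm_pow, Complex.norm_natCast]
    refine mul_le_mul_of_nonneg_left ?_ (by positivity)
    refine (norm_sum_le _ _).trans ?_
    calc _ ≤ ∑ n ∈ range r, ∑ n' ∈ range r, ((L : ℝ) * Φ ^ 2) ^ (k - 1) * ((q : ℝ) * Φ ^ 2 *
          ‖∑ s : ZMod r, χ s * (starRingEnd ℂ) (χ (s + ((n' : ZMod r) - (n : ZMod r))))‖) :=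
          sum_le_sum fun n _ => (norm_sum_le _ _).trans (sum_le_sum fun n' _ => h3 n n')
      _ = ((L : ℝ) * Φ ^ 2) ^ (k - 1) * ((q : ℝ) * Φ ^ 2) *
          ∑ n ∈ range r, ∑ n' ∈ range r,
            ‖∑ s : ZMod r, χ s * (starRingEnd ℂ) (χ (s + ((n' : ZMod r) - (n : ZMod r))))‖ := by
          rw [mul_sum]
          refine sum_congr rfl fun n _ => ?_
          rw [mul_sum]
          refine sum_congr rfl fun n' _ => ?_
          ring
      _ = ((L : ℝ) * Φ ^ 2) ^ (k - 1) * ((q : ℝ) * Φ ^ 2) * ((r : ℝ) *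
            ∑ t : ZMod r, ‖∑ s : ZMod r, χ s * (starRingEnd ℂ) (χ (s + t))‖) := by
          rw [x1_double r fun t => ‖∑ s : ZMod r, χ s * (starRingEnd ℂ) (χ (s + t))‖]
      _ ≤ _ := by
          refine mul_le_mul_of_nonneg_left ?_ (by positivity)
          exact mul_le_mul_of_nonneg_left (x1_sum_c r χ hprim) hr0.le
  have hk : 1 ≤ k := Nat.one_le_of_lt i0.2
  obtain ⟨k', rfl⟩ : ∃ k', k = k' + 1 := ⟨k - 1, by omega⟩
  rw [Nat.add_sub_cancel] at h4
  have hs : (r : ℝ) ^ (-(1 / 2) : ℝ) = (Real.sqrt r)⁻¹ := by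
    rw [Real.rpow_neg hr0.le, Real.sqrt_eq_rpow]
  have hs0 : 0 < Real.sqrt r := Real.sqrt_pos.2 hr0
  have hss : Real.sqrt r * Real.sqrt r = r := Real.mul_self_sqrt hr0.le
  have hLq : (L : ℝ) = r * q := by rw [hL]; push_cast; ring
  have hL2 : (L : ℝ) ≤ 2 * X := by exact_mod_cast hq2
  refine (h1.trans h4).trans ?_
  have h6 : (1 / (r : ℝ) ^ 2) * (((L : ℝ) * Φ ^ 2) ^ k' * ((q : ℝ) * Φ ^ 2) * ((r : ℝ) * ((r : ℝ) * Real.sqrt r)))
      = (L : ℝ) ^ (k' + 1) * Φ ^ (2 * (k' + 1)) * (Real.sqrt r)⁻¹ := by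
    have e1 : (Real.sqrt r)⁻¹ = Real.sqrt r / r := by
      rw [eq_div_iff hr0.ne', inv_mul_eq_div, div_eq_iff hs0.ne', hss]
    rw [e1, mul_pow, pow_succ (L : ℝ) k', ← pow_mul]
    have e2 : Φ ^ (2 * (k' + 1)) = Φ ^ (2 * k') * Φ ^ 2 := by ring
    rw [e2, hLq]
    field_simp
  rw [h6, hs]
  gcongr

/-- **X1.** Proof. The range of each `h_i` is covered by `⌈X/r⌉ ≤ 2X/r` complete periods, and the summand is
nonnegative and periodic modulo `r` in each `h_i`: the sum is at most `(2X/r)^k` times the sum over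
`[0, r)^k`. There, squaring out, it is `(1/r²) ∑_{n,n'} ∏_i (∑_{s mod r} …)`: for `i ∉ B` the factor is
`∑_s uu(n+s) uu(n'+s) ≤ r (r/φ)²`, for `i ∈ B` (`uu = r/φ(r)` where `ψ ≠ 0`) it is `(r/φ)² ∑_s χ(n+s) conj χ(n'+s)`, of
absolute value `(r/φ)² |c(n'-n)| ≤ r (r/φ)²`. Choose one `i0 ∈ B` and bound the others: at most
`r^(k-1) (r/φ)^(2k) (1/r²) ∑_{n,n'} |c(n'-n)| = r^(k-1) (r/φ)^(2k) (1/r) ∑_t |c(t)| ≤ r^(k-1) (r/φ)^(2k) (1/r) (r · r²)^(1/2)`
by Cauchy-Schwarz and `X1a`, i.e. `r^k (r/φ)^(2k) r^(-1/2)`. -/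
theorem X1 {k : ℕ} (X r : ℕ) (hr : 0 < r) (hrX : r ≤ X) (px : Ch) (hpx : px.1 = r)
    (hprim : px.2.IsPrimitive) (B : Finset (Fin k)) (hB : B.Nonempty) :
    ∑ h ∈ bx k X, ‖MR (pB px B) r h‖ ^ 2 ≤
      (2 * (X : ℝ)) ^ k * ((r : ℝ) / (Nat.totient r : ℝ)) ^ (2 * k) * (r : ℝ) ^ (-(1 / 2) : ℝ) := by
  obtain ⟨r', χ⟩ := px
  simp only at hpx
  subst hpx
  exact x1_main X r' hr hrX χ hprim B hB

end Pool.Agent.Lib.H59P
end
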