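import Pool.Agent.Lib.H59M.M2.M082
import Pool.Agent.Lib.H59M.M2.M084

/-! Merged copies (to shorten the build) of Lib.H59T.U3B, Lib.H59T.UC, Lib.H59T.UE. -/

-- from Lib.H59T.U3B
section

/-!
# Project H59T, chunk U3B (M): the same for the forms `2z + e_0`, …, and any of the four functions
-/

open Finset

namespace Pool.Agent.Lib.H59T

theorem u3b_neg (N : ℕ) [NeZero N] (H : ZMod N → ℝ) : ∑ y : ZMod N, H (-y) = ∑ y : ZMod N, H y :=
  Equiv.sum_comp (Equiv.neg (ZMod N)) H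

theorem u3b_add (N : ℕ) [NeZero N] (c : ZMod N) (H : ZMod N → ℂ) : ∑ z : ZMod N, H (z + c) = ∑ z : ZMod N, H z :=
  Equiv.sum_comp (Equiv.addRight c) H

/-- Proof. `i = 3`: `U3_top`. `i = 0`: substitute `z → z + y + y'`, `y → -y`, `y' → -y'` (inner resp. outer sum); `i = 1`: `z → z + y'`,
`y' → -y'`; `i = 2`: `z → z + y`, `y → -y`. -/
theorem U3B_any (N : ℕ) [NeZero N] (f : Fin 4 → ZMod N → ℂ) (hf : ∀ i t, ‖f i t‖ ≤ 1) (i : Fin 4) :
    ∑ y : ZMod N, ∑ y' : ZMod N,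
      ‖∑ z : ZMod N, f 0 z * f 1 (z + y) * f 2 (z + y') * f 3 (z + y + y')‖ ^ 2 ≤
      (N : ℝ) ^ 3 * (UU (f i)) ^ (1 / 4 : ℝ) := by
  fin_cases i
  · refine le_trans (le_of_eq ?_) (U3_top N (f 3) (f 2) (f 1) (f 0) (hf 3) (hf 2) (hf 1) (hf 0))
    rw [← u3b_neg N]
    refine Finset.sum_congr rfl fun y _ => ?_
    rw [← u3b_neg N]
    refine Finset.sum_congr rfl fun y' _ => ?_
    rw [← u3b_add N (y + y')]
    refine congrArg (fun w : ℂ => ‖w‖ ^ 2) ?_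
    refine Finset.sum_congr rfl fun z _ => ?_
    have e1 : z + (y + y') + -y = z + y' := by ring
    have e2 : z + (y + y') + -y' = z + y := by ring
    have e3 : z + y' + -y' = z := by ring
    have e4 : z + (y + y') = z + y + y' := by ring
    rw [e1, e2, e3, e4]
    ring
  · refine le_trans (le_of_eq ?_) (U3_top N (f 2) (f 3) (f 0) (f 1) (hf 2) (hf 3) (hf 0) (hf 1))
    refine Finset.sum_congr rfl fun y _ => ?_
    rw [← u3b_neg N]
    refine Finset.sum_congr rfl fun y' _ => ?_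
    rw [← u3b_add N y']
    refine congrArg (fun w : ℂ => ‖w‖ ^ 2) ?_
    refine Finset.sum_congr rfl fun z _ => ?_
    have e1 : z + y' + y = z + y + y' := by ring
    have e2 : z + y' + -y' = z := by ring
    have e3 : z + y + y' + -y' = z + y := by ring
    rw [e1, e2, e3]
    ring
  · refine le_trans (le_of_eq ?_) (U3_top N (f 1) (f 0) (f 3) (f 2) (hf 1) (hf 0) (hf 3) (hf 2))
    rw [← u3b_neg N]
    refine Finset.sum_congr rfl fun y _ => ?_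
    refine Finset.sum_congr rfl fun y' _ => ?_
    rw [← u3b_add N y]
    refine congrArg (fun w : ℂ => ‖w‖ ^ 2) ?_
    refine Finset.sum_congr rfl fun z _ => ?_
    have e1 : z + y + -y = z := by ring
    rw [e1]
    ring
  · exact U3_top N (f 0) (f 1) (f 2) (f 3) (hf 0) (hf 1) (hf 2) (hf 3)

/-- The sign of the parity of `s`. -/
def u3b_e {N : ℕ} (s : ZMod N) : ℂ := (-1) ^ s.val


theorem u3b_e_norm {N : ℕ} (s : ZMod N) : ‖u3b_e s‖ = 1 := by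
  unfold u3b_e
  rw [norm_pow, norm_neg, norm_one, one_pow]

theorem u3b_e_add {N : ℕ} [NeZero N] (hN : Even N) (s t : ZMod N) : u3b_e (s + t) = u3b_e s * u3b_e t := by
  unfold u3b_e
  rw [ZMod.val_add, ← pow_add, neg_one_pow_eq_pow_mod_two, Nat.mod_mod_of_dvd _ hN.two_dvd, ← neg_one_pow_eq_pow_mod_two]

theorem u3b_e_cast {N : ℕ} [NeZero N] (hN : Even N) (k : ℕ) : u3b_e (k : ZMod N) = (-1) ^ k := by
  unfold u3b_e
  rw [ZMod.val_natCast, neg_one_pow_eq_pow_mod_two, Nat.mod_mod_of_dvd _ hN.two_dvd, ← neg_one_pow_eq_pow_mod_two]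

theorem u3b_range (N : ℕ) [NeZero N] (H : ZMod N → ℂ) :
    ∑ z : ZMod N, H z = ∑ k ∈ range N, H (k : ZMod N) := by
  symm
  refine Finset.sum_nbij' (fun k : ℕ => (k : ZMod N)) (fun z : ZMod N => z.val) ?_ ?_ ?_ ?_ ?_
  · intro k _
    exact Finset.mem_univ _
  · intro z _
    exact Finset.mem_range.2 (ZMod.val_lt z)
  · intro k hk
    exact ZMod.val_cast_of_lt (Finset.mem_range.1 hk)
  · intro z _
    exact ZMod.natCast_zmod_val z
  · intro k _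
    rfl

theorem u3b_double (h : ℕ → ℂ) (M : ℕ) : ∑ k ∈ range (M + M), h k = ∑ k ∈ range M, (h (2 * k) + h (2 * k + 1)) := by
  induction M with
  | zero => simp
  | succ M ih =>
    have e : M + 1 + (M + 1) = M + M + 1 + 1 := by ring
    rw [e, Finset.sum_range_succ, Finset.sum_range_succ, ih, Finset.sum_range_succ, ← two_mul M]
    ring

theorem u3b_even (N : ℕ) [NeZero N] (hN : Even N) (G : ZMod N → ℂ) :
    ∑ z : ZMod N, G (2 * z) = ∑ s : ZMod N, G s + ∑ s : ZMod N, u3b_e s * G s := by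
  obtain ⟨M, hM⟩ := id hN
  rw [u3b_range N (fun z => G (2 * z)), u3b_range N G, u3b_range N (fun s => u3b_e s * G s), ← Finset.sum_add_distrib]
  have h1 : ∑ k ∈ range N, G (2 * ((k : ℕ) : ZMod N)) = 2 * ∑ k ∈ range M, G (2 * ((k : ℕ) : ZMod N)) := by
    have h2 : ∑ k ∈ range (M + M), G (2 * ((k : ℕ) : ZMod N)) = 2 * ∑ k ∈ range M, G (2 * ((k : ℕ) : ZMod N)) := by
      rw [Finset.sum_range_add, two_mul]
      refine congrArg (fun w : ℂ => (∑ k ∈ range M, G (2 * ((k : ℕ) : ZMod N))) + w) ?_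
      refine Finset.sum_congr rfl fun k _ => ?_
      have e : 2 * (((M + k : ℕ)) : ZMod N) = 2 * (k : ZMod N) := by
        have e1 : ((M + M : ℕ) : ZMod N) = 0 := by
          rw [← hM]
          exact ZMod.natCast_self N
        push_cast at e1 ⊢
        linear_combination e1
      rw [e]
    rw [← h2, ← hM]
  have h3 : ∑ k ∈ range N, (G ((k : ℕ) : ZMod N) + u3b_e ((k : ℕ) : ZMod N) * G ((k : ℕ) : ZMod N)) =
      2 * ∑ k ∈ range M, G (2 * ((k : ℕ) : ZMod N)) := by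
    have h4 : ∑ k ∈ range (M + M), (G ((k : ℕ) : ZMod N) + u3b_e ((k : ℕ) : ZMod N) * G ((k : ℕ) : ZMod N)) =
        2 * ∑ k ∈ range M, G (2 * ((k : ℕ) : ZMod N)) := by
      rw [u3b_double, Finset.mul_sum]
      refine Finset.sum_congr rfl fun k _ => ?_
      rw [u3b_e_cast hN, u3b_e_cast hN, pow_succ, pow_mul]
      push_cast
      ring
    rw [← h4, ← hM]
  exact h1.trans h3.symm

theorem u3b_odd (N : ℕ) [NeZero N] (hN : ¬ Even N) (G : ZMod N → ℂ) :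
    ∑ z : ZMod N, G (2 * z) = ∑ s : ZMod N, G s := by
  have h1 : Nat.Coprime 2 N := (Nat.coprime_two_left).2 (Nat.not_even_iff_odd.1 hN)
  have h2 : ((ZMod.unitOfCoprime 2 h1 : (ZMod N)ˣ) : ZMod N) = 2 := by
    rw [ZMod.coe_unitOfCoprime]
    norm_num
  have h3 := Equiv.sum_comp (Units.mulLeft (ZMod.unitOfCoprime 2 h1)) G
  rw [← h3]
  refine Finset.sum_congr rfl fun z _ => ?_
  rw [Units.mulLeft_apply, h2]

theorem u3b_UU (N : ℕ) [NeZero N] (f : ZMod N → ℂ) (c : ZMod N) : UU (fun t => f (t + c)) = UU f := by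
  unfold UU
  refine Finset.sum_congr rfl fun A _ => ?_
  refine Finset.sum_congr rfl fun B _ => ?_
  rw [← u3b_add N c (fun s => f s * star (f (s + A)) * star (f (s + B)) * f (s + A + B))]
  refine congrArg (fun w : ℂ => ‖w‖ ^ 2) ?_
  refine Finset.sum_congr rfl fun z _ => ?_
  show f (z + c) * star (f (z + A + c)) * star (f (z + B + c)) * f (z + A + B + c) = _
  have e1 : z + A + c = z + c + A := by ring
  have e2 : z + B + c = z + c + B := by ring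
  have e3 : z + A + B + c = z + c + A + B := by ring
  rw [e1, e2, e3]

theorem u3b_UU_nonneg (N : ℕ) [NeZero N] (f : ZMod N → ℂ) : 0 ≤ UU f :=
  Finset.sum_nonneg fun _ _ => Finset.sum_nonneg fun _ _ => sq_nonneg _

/-- The sum with the sign. -/
theorem u3b_sign (N : ℕ) [NeZero N] (hN : Even N) (g : Fin 4 → ZMod N → ℂ) (hg : ∀ i t, ‖g i t‖ ≤ 1) (i : Fin 4) :
    ∑ y : ZMod N, ∑ y' : ZMod N,
      ‖∑ z : ZMod N, u3b_e z * (g 0 z * g 1 (z + y) * g 2 (z + y') * g 3 (z + y + y'))‖ ^ 2 ≤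
      (N : ℝ) ^ 3 * (UU (g i)) ^ (1 / 4 : ℝ) := by
  by_cases hi : i = 0
  · subst hi
    have hg' : ∀ i t, ‖(![g 0, fun t => u3b_e t * g 1 t, g 2, g 3] : Fin 4 → ZMod N → ℂ) i t‖ ≤ 1 := by
      intro i t
      fin_cases i
      · exact hg 0 t
      · show ‖u3b_e t * g 1 t‖ ≤ 1
        rw [norm_mul, u3b_e_norm, one_mul]
        exact hg 1 t
      · exact hg 2 t
      · exact hg 3 t
    refine le_trans (le_of_eq ?_) (U3B_any N ![g 0, fun t => u3b_e t * g 1 t, g 2, g 3] hg' 0)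
    refine Finset.sum_congr rfl fun y _ => ?_
    refine Finset.sum_congr rfl fun y' _ => ?_
    refine congrArg (fun w : ℝ => w ^ 2) ?_
    rw [← one_mul (‖∑ z : ZMod N, u3b_e z * (g 0 z * g 1 (z + y) * g 2 (z + y') * g 3 (z + y + y'))‖), ← u3b_e_norm y,
      ← norm_mul, Finset.mul_sum]
    refine congrArg (fun w : ℂ => ‖w‖) ?_
    refine Finset.sum_congr rfl fun z _ => ?_
    show u3b_e y * (u3b_e z * (g 0 z * g 1 (z + y) * g 2 (z + y') * g 3 (z + y + y'))) =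
      g 0 z * (u3b_e (z + y) * g 1 (z + y)) * g 2 (z + y') * g 3 (z + y + y')
    rw [u3b_e_add hN]
    ring
  · have hg' : ∀ i t, ‖(![fun t => u3b_e t * g 0 t, g 1, g 2, g 3] : Fin 4 → ZMod N → ℂ) i t‖ ≤ 1 := by
      intro i t
      fin_cases i
      · show ‖u3b_e t * g 0 t‖ ≤ 1
        rw [norm_mul, u3b_e_norm, one_mul]
        exact hg 0 t
      · exact hg 1 t
      · exact hg 2 t
      · exact hg 3 t
    have h1 : (![fun t => u3b_e t * g 0 t, g 1, g 2, g 3] : Fin 4 → ZMod N → ℂ) i = g i := by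
      fin_cases i
      · exact absurd rfl hi
      · rfl
      · rfl
      · rfl
    have h2 := U3B_any N ![fun t => u3b_e t * g 0 t, g 1, g 2, g 3] hg' i
    rw [h1] at h2
    refine le_trans (le_of_eq ?_) h2
    refine Finset.sum_congr rfl fun y _ => ?_
    refine Finset.sum_congr rfl fun y' _ => ?_
    refine congrArg (fun w : ℂ => ‖w‖ ^ 2) ?_
    refine Finset.sum_congr rfl fun z _ => ?_
    show u3b_e z * (g 0 z * g 1 (z + y) * g 2 (z + y') * g 3 (z + y + y')) =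
      (u3b_e z * g 0 z) * g 1 (z + y) * g 2 (z + y') * g 3 (z + y + y')
    ring

/-- Proof. Replace `f j` by its translate `f j (· + e j)` (the same `UU`). `N` odd: `z ↦ 2 z` is a bijection. `N` even:
`∑_z G(2z) = ∑_s (1 + ε(s)) G(s)` with the sign `ε(s) = (-1)^(s.val)` (multiplicative: `ε(s+y) = ε(s) ε(y)`), so
`‖∑_z G(2z)‖² ≤ 2 ‖∑_s G(s)‖² + 2 ‖∑_s ε(s) G(s)‖²`; in the second sum multiply the function with some index `j ≠ i` by `ε`
(`ε(s) = ε(s+y) ε(y)` etc., the sign `ε(y)` does not matter). -/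
theorem U3B_two (N : ℕ) [NeZero N] (f : Fin 4 → ZMod N → ℂ) (hf : ∀ i t, ‖f i t‖ ≤ 1) (e : Fin 4 → ZMod N)
    (i : Fin 4) :
    ∑ y : ZMod N, ∑ y' : ZMod N, ‖∑ z : ZMod N, f 0 (2 * z + e 0) * f 1 (2 * z + y + e 1) *
      f 2 (2 * z + y' + e 2) * f 3 (2 * z + y + y' + e 3)‖ ^ 2 ≤
      4 * (N : ℝ) ^ 3 * (UU (f i)) ^ (1 / 4 : ℝ) := by
  set g : Fin 4 → ZMod N → ℂ := fun j t => f j (t + e j) with hgdef
  have hg : ∀ i t, ‖g i t‖ ≤ 1 := fun i t => hf i _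
  have hU : UU (g i) = UU (f i) := u3b_UU N (f i) (e i)
  rw [← hU]
  have hX := U3B_any N g hg i
  have hX0 : 0 ≤ (N : ℝ) ^ 3 * (UU (g i)) ^ (1 / 4 : ℝ) :=
    mul_nonneg (by positivity) (Real.rpow_nonneg (u3b_UU_nonneg N _) _)
  have e0 : ∀ y y' : ZMod N, ∑ z : ZMod N, f 0 (2 * z + e 0) * f 1 (2 * z + y + e 1) *
      f 2 (2 * z + y' + e 2) * f 3 (2 * z + y + y' + e 3) =
      ∑ z : ZMod N, (fun s => g 0 s * g 1 (s + y) * g 2 (s + y') * g 3 (s + y + y')) (2 * z) := fun y y' => rfl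
  by_cases hN : Even N
  · have hY := u3b_sign N hN g hg i
    have h1 : ∀ y y' : ZMod N, ‖∑ z : ZMod N, f 0 (2 * z + e 0) * f 1 (2 * z + y + e 1) *
        f 2 (2 * z + y' + e 2) * f 3 (2 * z + y + y' + e 3)‖ ^ 2 ≤
        2 * ‖∑ z : ZMod N, g 0 z * g 1 (z + y) * g 2 (z + y') * g 3 (z + y + y')‖ ^ 2 +
        2 * ‖∑ z : ZMod N, u3b_e z * (g 0 z * g 1 (z + y) * g 2 (z + y') * g 3 (z + y + y'))‖ ^ 2 := by
      intro y y'
      rw [e0, u3b_even N hN (fun s => g 0 s * g 1 (s + y) * g 2 (s + y') * g 3 (s + y + y'))]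
      have h2 := norm_add_le (∑ z : ZMod N, g 0 z * g 1 (z + y) * g 2 (z + y') * g 3 (z + y + y'))
        (∑ z : ZMod N, u3b_e z * (g 0 z * g 1 (z + y) * g 2 (z + y') * g 3 (z + y + y')))
      have h3 := norm_nonneg (∑ z : ZMod N, g 0 z * g 1 (z + y) * g 2 (z + y') * g 3 (z + y + y') +
        ∑ z : ZMod N, u3b_e z * (g 0 z * g 1 (z + y) * g 2 (z + y') * g 3 (z + y + y')))
      have h4 := pow_le_pow_left₀ h3 h2 2
      refine h4.trans ?_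
      nlinarith [sq_nonneg (‖∑ z : ZMod N, g 0 z * g 1 (z + y) * g 2 (z + y') * g 3 (z + y + y')‖ -
        ‖∑ z : ZMod N, u3b_e z * (g 0 z * g 1 (z + y) * g 2 (z + y') * g 3 (z + y + y'))‖)]
    refine (Finset.sum_le_sum fun y _ => Finset.sum_le_sum fun y' _ => h1 y y').trans ?_
    simp only [Finset.sum_add_distrib, ← Finset.mul_sum]
    linarith
  · refine le_trans (le_of_eq ?_) (hX.trans ?_)
    · refine Finset.sum_congr rfl fun y _ => ?_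
      refine Finset.sum_congr rfl fun y' _ => ?_
      rw [e0, u3b_odd N hN (fun s => g 0 s * g 1 (s + y) * g 2 (s + y') * g 3 (s + y + y'))]
    · linarith

end Pool.Agent.Lib.H59T
end

-- from Lib.H59T.UC
section

/-!
# Project H59T, chunk UC (M): the forms `uf e` at a prime dividing the conductors
-/

open Finset

namespace Pool.Agent.Lib.H59T

/-- the `U³` norm of a multiple of the conjugate of a character -/
theorem uc_UU (N : ℕ) [NeZero N] (χ : DirichletCharacter ℂ N) (c : ℝ) (hc : |c| ≤ 2) (f : ZMod N → ℂ)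
    (hf : ∀ t, f t = c * (starRingEnd ℂ) (χ t) / 2) : UU f ≤ UU (fun s => χ s) := by
  unfold UU
  refine Finset.sum_le_sum fun A _ => Finset.sum_le_sum fun B _ => ?_
  have e1 : ∑ s : ZMod N, f s * star (f (s + A)) * star (f (s + B)) * f (s + A + B) =
      (((c / 2) ^ 4 : ℝ) : ℂ) * star (∑ s : ZMod N, χ s * star (χ (s + A)) * star (χ (s + B)) * χ (s + A + B)) := by
    rw [star_sum, Finset.mul_sum]
    refine Finset.sum_congr rfl fun s _ => ?_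
    rw [hf, hf, hf, hf]
    simp only [← starRingEnd_apply]
    simp only [map_mul, map_div₀, Complex.conj_conj, Complex.conj_ofReal, map_ofNat]
    push_cast
    ring
  rw [e1, norm_mul, norm_star, Complex.norm_real, Real.norm_eq_abs, mul_pow]
  have h1 : |(c / 2) ^ 4| ≤ 1 := by
    rw [abs_pow, abs_div, abs_two]
    exact pow_le_one₀ (by positivity) (by linarith)
  calc _ ≤ 1 ^ 2 * _ := mul_le_mul_of_nonneg_right (pow_le_pow_left₀ (abs_nonneg _) h1 2) (by positivity)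
    _ = _ := by rw [one_pow, one_mul]

/-- Proof. `N = l^a`, `C3_fun`, `C3_nest`: the sum is `∑_{y,y'} A(y,y') conj A'(y,y')`, `A = ∑_z ∏ g_w`, `‖A'‖ ≤ 16 N`. So it is at
most `16 N · N (∑ ‖A‖²)^(1/2)`, and `∑ ‖A‖² = 256 ∑ ‖∑_z ∏ (g_w/2)‖² ≤ 256 · 4 N³ UU(g_{i0}/2)^(1/4)` (`U3B_two`),
`UU(g_{i0}/2) ≤ UU(χ) ≤ 13 N⁴ l^(-a/9)` (`U1_all`; the factor `|c/2|^8 ≤ 1` and the conjugation do not matter): total
`16 N² (1024 · 2 N⁴ N^(-1/36))^(1/2) ≤ 2^10 N⁴ N^(-1/72)`. -/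
theorem UC_cube (l a : ℕ) (hl : l.Prime) (ha : 1 ≤ a) (χ : DirichletCharacter ℂ (l ^ a))
    (hχ : χ.IsPrimitive) (c : ℝ) (hc : |c| ≤ 2) (g g' : Fin 4 → ℤ → ℂ)
    (hp : ∀ i m, g i (m + (l ^ a : ℕ)) = g i m) (hp' : ∀ i m, g' i (m + (l ^ a : ℕ)) = g' i m)
    (hb : ∀ i m, ‖g i m‖ ≤ 2) (hb' : ∀ i m, ‖g' i m‖ ≤ 2) (i0 : Fin 4)
    (h : ∀ m : ℤ, g i0 m = c * (starRingEnd ℂ) (χ (m : ZMod (l ^ a)))) (e : Fin 4 → ℤ) :
    ‖S4 (l ^ a) (Db (uf e) g g')‖ ≤ ((l ^ a : ℕ) : ℝ) ^ 4 * (2 ^ 12 * ((l ^ a : ℕ) : ℝ) ^ (-(1 / 72 : ℝ))) := by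
  have hne : NeZero (l ^ a) := ⟨pow_ne_zero _ hl.ne_zero⟩
  have hl0 : (0 : ℝ) < l := by exact_mod_cast hl.pos
  have hq0 : (0 : ℝ) < ((l ^ a : ℕ) : ℝ) := by exact_mod_cast pow_pos hl.pos a
  choose G hG using fun i => C3_fun (l ^ a) (g i) (hp i)
  choose G' hG' using fun i => C3_fun (l ^ a) (g' i) (hp' i)
  have hs : ∀ t : ZMod (l ^ a), ∃ m : ℤ, (m : ZMod (l ^ a)) = t := fun t => ZMod.intCast_surjective t
  have bG : ∀ i t, ‖G i t‖ ≤ 2 := by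
    intro i t
    obtain ⟨m, rfl⟩ := hs t
    rw [← hG]
    exact hb i m
  have bG' : ∀ i t, ‖G' i t‖ ≤ 2 := by
    intro i t
    obtain ⟨m, rfl⟩ := hs t
    rw [← hG']
    exact hb' i m
  have hG0 : ∀ t, G i0 t = c * (starRingEnd ℂ) (χ t) := by
    intro t
    obtain ⟨m, rfl⟩ := hs t
    rw [← hG]
    exact h m
  obtain ⟨Pg, hPg⟩ : ∃ Pg : (Fin 4 → ZMod (l ^ a) → ℂ) → ZMod (l ^ a) → ZMod (l ^ a) → ZMod (l ^ a) → ℂ,
      ∀ F y y' z, Pg F y y' z = F 0 (2 * z + (e 0 : ZMod (l ^ a))) * F 1 (2 * z + y + (e 1 : ZMod (l ^ a))) *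
        F 2 (2 * z + y' + (e 2 : ZMod (l ^ a))) * F 3 (2 * z + y + y' + (e 3 : ZMod (l ^ a))) :=
    ⟨_, fun _ _ _ _ => rfl⟩
  have e1 : Db (uf e) g g' = fun y y' z z' : ℤ =>
      (fun y y' z z' : ZMod (l ^ a) => Pg G y y' z * (starRingEnd ℂ) (Pg G' y y' z')) y y' z z' := by
    funext y y' z z'
    unfold Db
    rw [Fin.prod_univ_four]
    simp only [uf, hG, hG', Matrix.cons_val_zero, Matrix.cons_val_one, Matrix.cons_val, hPg, map_mul]
    push_cast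
    ring
  have e2 : S4 (l ^ a) (Db (uf e) g g') = ∑ y : ZMod (l ^ a), ∑ y' : ZMod (l ^ a),
      (∑ z : ZMod (l ^ a), Pg G y y' z) * (starRingEnd ℂ) (∑ z' : ZMod (l ^ a), Pg G' y y' z') := by
    rw [e1, C3_nest (l ^ a) (fun y y' z z' : ZMod (l ^ a) => Pg G y y' z * (starRingEnd ℂ) (Pg G' y y' z'))]
    refine Finset.sum_congr rfl fun y _ => Finset.sum_congr rfl fun y' _ => ?_
    rw [map_sum, Finset.sum_mul_sum]
  have hA' : ∀ y y' : ZMod (l ^ a), ‖∑ z' : ZMod (l ^ a), Pg G' y y' z'‖ ≤ 16 * ((l ^ a : ℕ) : ℝ) := by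
    intro y y'
    calc _ ≤ ∑ z' : ZMod (l ^ a), ‖Pg G' y y' z'‖ := norm_sum_le _ _
      _ ≤ ∑ _z' : ZMod (l ^ a), (16 : ℝ) := by
        refine Finset.sum_le_sum fun z' _ => ?_
        rw [hPg, norm_mul, norm_mul, norm_mul]
        calc _ ≤ ((2 : ℝ) * 2 * 2) * 2 :=
              mul_le_mul (mul_le_mul (mul_le_mul (bG' 0 _) (bG' 1 _) (norm_nonneg _) (by norm_num)) (bG' 2 _)
                (norm_nonneg _) (by norm_num)) (bG' 3 _) (norm_nonneg _) (by norm_num)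
          _ = 16 := by norm_num
      _ = 16 * ((l ^ a : ℕ) : ℝ) := by rw [Finset.sum_const, Finset.card_univ, ZMod.card, nsmul_eq_mul, mul_comm]
  have hA : ∑ y : ZMod (l ^ a), ∑ y' : ZMod (l ^ a), ‖∑ z : ZMod (l ^ a), Pg G y y' z‖ ^ 2 ≤
      2048 * (((l ^ a : ℕ) : ℝ) ^ 4 * ((l ^ a : ℕ) : ℝ) ^ (-(1 / 36 : ℝ))) := by
    have u1 := U3B_two (l ^ a) (fun i t => G i t / 2) (fun i t => by
      have hn2 : ‖(2 : ℂ)‖ = 2 := by simp
      rw [norm_div, hn2]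
      have := bG i t
      linarith) (fun i => (e i : ZMod (l ^ a))) i0
    have u2 : ∑ y : ZMod (l ^ a), ∑ y' : ZMod (l ^ a), ‖∑ z : ZMod (l ^ a), Pg G y y' z‖ ^ 2 =
        256 * ∑ y : ZMod (l ^ a), ∑ y' : ZMod (l ^ a), ‖∑ z : ZMod (l ^ a),
          G 0 (2 * z + (e 0 : ZMod (l ^ a))) / 2 * (G 1 (2 * z + y + (e 1 : ZMod (l ^ a))) / 2) *
          (G 2 (2 * z + y' + (e 2 : ZMod (l ^ a))) / 2) * (G 3 (2 * z + y + y' + (e 3 : ZMod (l ^ a))) / 2)‖ ^ 2 := by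
      rw [Finset.mul_sum]
      refine Finset.sum_congr rfl fun y _ => ?_
      rw [Finset.mul_sum]
      refine Finset.sum_congr rfl fun y' _ => ?_
      have u3 : ∑ z : ZMod (l ^ a), Pg G y y' z = 16 * ∑ z : ZMod (l ^ a),
          G 0 (2 * z + (e 0 : ZMod (l ^ a))) / 2 * (G 1 (2 * z + y + (e 1 : ZMod (l ^ a))) / 2) *
          (G 2 (2 * z + y' + (e 2 : ZMod (l ^ a))) / 2) *
          (G 3 (2 * z + y + y' + (e 3 : ZMod (l ^ a))) / 2) := by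
        rw [Finset.mul_sum]
        refine Finset.sum_congr rfl fun z _ => ?_
        rw [hPg]
        ring
      have hn16 : ‖(16 : ℂ)‖ = 16 := by simp
      rw [u3, norm_mul, hn16, mul_pow]
      norm_num
    have u4 : UU (fun t => G i0 t / 2) ≤ 13 * ((l ^ a : ℕ) : ℝ) ^ 4 * (l : ℝ) ^ (-(a / 9 : ℝ)) :=
      (uc_UU (l ^ a) χ c hc (fun t => G i0 t / 2) (fun t => by rw [hG0])).trans (U1_all l a hl ha χ hχ)
    have hUU0 : 0 ≤ UU (fun t => G i0 t / 2) :=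
      Finset.sum_nonneg fun _ _ => Finset.sum_nonneg fun _ _ => by positivity
    have u5 : (UU (fun t => G i0 t / 2)) ^ (1 / 4 : ℝ) ≤
        2 * (((l ^ a : ℕ) : ℝ) * ((l ^ a : ℕ) : ℝ) ^ (-(1 / 36 : ℝ))) := by
      have v0 : ((l ^ a : ℕ) : ℝ) ^ (-(1 / 9 : ℝ)) = (l : ℝ) ^ (-(a / 9 : ℝ)) := by
        push_cast
        rw [← Real.rpow_natCast, ← Real.rpow_mul hl0.le]
        congr 1
        ring
      have v1 : 13 * ((l ^ a : ℕ) : ℝ) ^ 4 * (l : ℝ) ^ (-(a / 9 : ℝ)) ≤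
          (2 * (((l ^ a : ℕ) : ℝ) * ((l ^ a : ℕ) : ℝ) ^ (-(1 / 36 : ℝ)))) ^ (4 : ℝ) := by
        have v2 : (2 * (((l ^ a : ℕ) : ℝ) * ((l ^ a : ℕ) : ℝ) ^ (-(1 / 36 : ℝ)))) ^ (4 : ℝ) =
            16 * (((l ^ a : ℕ) : ℝ) ^ 4 * ((l ^ a : ℕ) : ℝ) ^ (-(1 / 9 : ℝ))) := by
          rw [Real.mul_rpow (by norm_num) (by positivity), Real.mul_rpow hq0.le (by positivity),
            ← Real.rpow_mul hq0.le]
          have v3 : (4 : ℝ) = ((4 : ℕ) : ℝ) := by norm_num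
          have v4 : (-(1 / 36 : ℝ)) * 4 = -(1 / 9 : ℝ) := by norm_num
          rw [v4]
          rw [v3, Real.rpow_natCast, Real.rpow_natCast]
          norm_num
        rw [v2, v0]
        have v5 : 0 ≤ ((l ^ a : ℕ) : ℝ) ^ 4 * (l : ℝ) ^ (-(a / 9 : ℝ)) := by positivity
        nlinarith
      calc (UU (fun t => G i0 t / 2)) ^ (1 / 4 : ℝ) ≤
          ((2 * (((l ^ a : ℕ) : ℝ) * ((l ^ a : ℕ) : ℝ) ^ (-(1 / 36 : ℝ)))) ^ (4 : ℝ)) ^ (1 / 4 : ℝ) :=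
            Real.rpow_le_rpow hUU0 (u4.trans v1) (by norm_num)
        _ = 2 * (((l ^ a : ℕ) : ℝ) * ((l ^ a : ℕ) : ℝ) ^ (-(1 / 36 : ℝ))) := by
          rw [← Real.rpow_mul (by positivity)]
          norm_num
    rw [u2]
    calc _ ≤ 256 * (4 * ((l ^ a : ℕ) : ℝ) ^ 3 * (UU (fun t => G i0 t / 2)) ^ (1 / 4 : ℝ)) :=
          mul_le_mul_of_nonneg_left u1 (by norm_num)
      _ ≤ 256 * (4 * ((l ^ a : ℕ) : ℝ) ^ 3 * (2 * (((l ^ a : ℕ) : ℝ) * ((l ^ a : ℕ) : ℝ) ^ (-(1 / 36 : ℝ))))) := by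
        gcongr
      _ = 2048 * (((l ^ a : ℕ) : ℝ) ^ 4 * ((l ^ a : ℕ) : ℝ) ^ (-(1 / 36 : ℝ))) := by ring
  have h1 : ‖S4 (l ^ a) (Db (uf e) g g')‖ ≤
      16 * ((l ^ a : ℕ) : ℝ) * ∑ y : ZMod (l ^ a), ∑ y' : ZMod (l ^ a), ‖∑ z : ZMod (l ^ a), Pg G y y' z‖ := by
    rw [e2, Finset.mul_sum]
    refine (norm_sum_le _ _).trans (Finset.sum_le_sum fun y _ => ?_)
    rw [Finset.mul_sum]
    refine (norm_sum_le _ _).trans (Finset.sum_le_sum fun y' _ => ?_)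
    rw [norm_mul, RCLike.norm_conj, mul_comm]
    exact mul_le_mul_of_nonneg_right (hA' y y') (norm_nonneg _)
  have h2 := u3_cs (l ^ a) (fun y y' => ‖∑ z : ZMod (l ^ a), Pg G y y' z‖)
  have hsq : (((l ^ a : ℕ) : ℝ) ^ (-(1 / 72 : ℝ))) ^ 2 = ((l ^ a : ℕ) : ℝ) ^ (-(1 / 36 : ℝ)) := by
    rw [← Real.rpow_natCast, ← Real.rpow_mul hq0.le]
    norm_num
  have h3 : ∑ y : ZMod (l ^ a), ∑ y' : ZMod (l ^ a), ‖∑ z : ZMod (l ^ a), Pg G y y' z‖ ≤
      64 * (((l ^ a : ℕ) : ℝ) ^ 3 * ((l ^ a : ℕ) : ℝ) ^ (-(1 / 72 : ℝ))) := by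
    refine (pow_le_pow_iff_left₀ (Finset.sum_nonneg fun _ _ => Finset.sum_nonneg fun _ _ => norm_nonneg _)
      (by positivity) two_ne_zero).1 (h2.trans ?_)
    calc _ ≤ ((l ^ a : ℕ) : ℝ) ^ 2 * (2048 * (((l ^ a : ℕ) : ℝ) ^ 4 * ((l ^ a : ℕ) : ℝ) ^ (-(1 / 36 : ℝ)))) :=
          mul_le_mul_of_nonneg_left hA (by positivity)
      _ ≤ (64 * (((l ^ a : ℕ) : ℝ) ^ 3 * ((l ^ a : ℕ) : ℝ) ^ (-(1 / 72 : ℝ)))) ^ 2 := by
        rw [← hsq]
        have h5 : 0 ≤ ((l ^ a : ℕ) : ℝ) ^ 6 * (((l ^ a : ℕ) : ℝ) ^ (-(1 / 72 : ℝ))) ^ 2 := by positivity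
        nlinarith
  refine h1.trans ((mul_le_mul_of_nonneg_left h3 (by positivity)).trans ?_)
  have h6 : 0 ≤ ((l ^ a : ℕ) : ℝ) ^ 4 * ((l ^ a : ℕ) : ℝ) ^ (-(1 / 72 : ℝ)) := by positivity
  nlinarith

end Pool.Agent.Lib.H59T
end

-- from Lib.H59T.UE
section

/-!
# Project H59T, chunk UE (S/M): the local bounds for the forms `uf e`
-/

open Finset

namespace Pool.Agent.Lib.H59T

/-- Proof. As `E7_four` (`E7.lean`), with `UC_cube` and `UD_cube`. -/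
theorem UE_loc (e : Fin 4 → ℤ) : LocB (uf e) 12 (1 / 72) := by
  intro p hp κ κ' hκ hκ' l hl
  have hl2 : (2 : ℝ) ≤ l := by exact_mod_cast hl.two_le
  refine ⟨fun hd => ?_, fun hd hex => ?_⟩
  · obtain ⟨h1, h2, i0, h3, h4⟩ := E7_attained p hp l hl hd
    have hch := L4_char (p i0) (hp i0).1 (hp i0).2 l hl h4
    rw [h3] at hch
    obtain ⟨χ, hχ, hlf⟩ := hch
    have hc : |(l : ℝ) / ((l : ℝ) - 1)| ≤ 2 := by
      rw [abs_of_nonneg (by apply div_nonneg <;> linarith), div_le_iff₀ (by linarith)]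
      linarith
    have hper : ∀ (K : Fin 4 → ℕ) (i : Fin 4) (m : ℤ),
        lf (p i) (K i) l (m + ((l ^ (Rm p).factorization l : ℕ) : ℤ)) = lf (p i) (K i) l m := by
      intro K i m
      have := L4_per (p i) (hp i).1 (hp i).2 (K i) l ((Rm p).factorization l) hl h1 (h2 i) m 1
      rw [mul_one] at this
      rw [← this]
      push_cast
      rfl
    exact UC_cube l ((Rm p).factorization l) hl h1 χ hχ _ hc (fun i => lf (p i) (κ i) l) (fun i => lf (p i) (κ' i) l)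
      (fun i m => hper κ i m) (fun i m => hper κ' i m) (fun i m => L4_norm _ _ _ hl m) (fun i m => L4_norm _ _ _ hl m) i0
      (fun m => hlf (κ i0) m) e
  · have hnd : ∀ i, ¬ l ∣ (p i).1 := fun i h => hd (h.trans (Finset.dvd_lcm (Finset.mem_univ i)))
    have hg : ∀ (K : Fin 4 → ℕ), (fun i => lf (p i) (K i) l) =
        (fun i (m : ℤ) => if l ∣ K i then ((Pool.Agent.Lib.H59P.gl l m : ℝ) : ℂ) else 1) := by
      intro K
      funext i m
      unfold lf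
      rw [if_neg (hnd i)]
    rw [hg κ, hg κ']
    have h5 := UD_cube l hl e (fun i => l ∣ κ i) (fun i => l ∣ κ' i) hex
    refine h5.trans ?_
    have h6 : (l : ℝ) ^ 4 * (2 ^ 12 / (l : ℝ) ^ 2) = 2 ^ 12 * (l : ℝ) ^ 2 := by
      have : (l : ℝ) ≠ 0 := by positivity
      field_simp
    rw [h6]
    have h7 : 0 ≤ (l : ℝ) ^ 2 := by positivity
    nlinarith

/-- Proof. Differences of the values. -/
theorem UE_cp (e : Fin 4 → ℤ) : CpF (uf e) := by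
  intro i q y y' z
  fin_cases i
  · show q ∣ (2 * z + e 0) - (2 * z + e 0) ∧ q ∣ (2 * z + e 0) - (2 * z + e 0) ∧ q ∣ (2 * (z + q) + e 0) - (2 * z + e 0)
    exact ⟨⟨0, by ring⟩, ⟨0, by ring⟩, ⟨2, by ring⟩⟩
  · show q ∣ (2 * z + (y + q) + e 1) - (2 * z + y + e 1) ∧ q ∣ (2 * z + y + e 1) - (2 * z + y + e 1) ∧
      q ∣ (2 * (z + q) + y + e 1) - (2 * z + y + e 1)
    exact ⟨⟨1, by ring⟩, ⟨0, by ring⟩, ⟨2, by ring⟩⟩
  · show q ∣ (2 * z + y' + e 2) - (2 * z + y' + e 2) ∧ q ∣ (2 * z + (y' + q) + e 2) - (2 * z + y' + e 2) ∧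
      q ∣ (2 * (z + q) + y' + e 2) - (2 * z + y' + e 2)
    exact ⟨⟨0, by ring⟩, ⟨1, by ring⟩, ⟨2, by ring⟩⟩
  · show q ∣ (2 * z + (y + q) + y' + e 3) - (2 * z + y + y' + e 3) ∧ q ∣ (2 * z + y + (y' + q) + e 3) - (2 * z + y + y' + e 3) ∧
      q ∣ (2 * (z + q) + y + y' + e 3) - (2 * z + y + y' + e 3)
    exact ⟨⟨1, by ring⟩, ⟨1, by ring⟩, ⟨2, by ring⟩⟩

end Pool.Agent.Lib.H59T
end
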