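import Pool.Agent.Lib.H59M.M2.M029
import Pool.Agent.Lib.H59M.M2.M080
import Pool.Agent.Lib.H59M.M2.M082
import Pool.Agent.Lib.H59M.M2.M087
import Pool.Agent.Lib.H59M.M2.M090

/-! Merged copies (to shorten the build) of Lib.H59P.Z2A, Lib.H59P.Z2, Lib.H24P.E1, Lib.H24P.P3, Lib.H24P.Z2B, Lib.H24P.P5, Lib.H24P.T2, Lib.H24P.T3. -/

-- from Lib.H59P.Z2A
section

/-!
# Project H59P, chunk Z2a
-/

open Finset

namespace Pool.Agent.Lib.H59P

open Pool.Agent.Lib.H68T Pool.Agent.Lib.H18Q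

/-- Triangle inequality in `ℓ²`: a combination of functions with mean square at most `W²` and coefficients of
total size at most `c`. Proof. Minkowski, or Cauchy-Schwarz: `‖∑_p γ_p f_p(h)‖² ≤ (∑ |γ_p|) ∑_p |γ_p| ‖f_p(h)‖²`. -/
theorem Z2a {α β : Type*} (S : Finset α) (P : Finset β) (γ : β → ℂ) (f : β → α → ℂ) (c W : ℝ)
    (hW : 0 ≤ W) (hγ : ∑ p ∈ P, ‖γ p‖ ≤ c) (hf : ∀ p ∈ P, ∑ h ∈ S, ‖f p h‖ ^ 2 ≤ W) :
    ∑ h ∈ S, ‖∑ p ∈ P, γ p * f p h‖ ^ 2 ≤ c ^ 2 * W := by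
  have h0 : 0 ≤ ∑ p ∈ P, ‖γ p‖ := Finset.sum_nonneg fun p _ => norm_nonneg _
  have hc : 0 ≤ c := h0.trans hγ
  have h1 : ∀ h ∈ S, ‖∑ p ∈ P, γ p * f p h‖ ^ 2 ≤ c * ∑ p ∈ P, ‖γ p‖ * ‖f p h‖ ^ 2 := by
    intro h _
    have e1 : ‖∑ p ∈ P, γ p * f p h‖ ≤ ∑ p ∈ P, ‖γ p‖ * ‖f p h‖ := by
      refine (norm_sum_le _ _).trans (le_of_eq ?_)
      exact Finset.sum_congr rfl fun p _ => norm_mul _ _
    have e2 : (∑ p ∈ P, ‖γ p‖ * ‖f p h‖) ^ 2 ≤
        (∑ p ∈ P, ‖γ p‖) * ∑ p ∈ P, ‖γ p‖ * ‖f p h‖ ^ 2 := by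
      have h2 := Finset.sum_mul_sq_le_sq_mul_sq P (fun p => Real.sqrt ‖γ p‖)
        (fun p => Real.sqrt ‖γ p‖ * ‖f p h‖)
      have h3 : ∀ p ∈ P, Real.sqrt ‖γ p‖ * (Real.sqrt ‖γ p‖ * ‖f p h‖) = ‖γ p‖ * ‖f p h‖ := by
        intro p _
        rw [← mul_assoc, Real.mul_self_sqrt (norm_nonneg _)]
      have h4 : ∀ p ∈ P, Real.sqrt ‖γ p‖ ^ 2 = ‖γ p‖ := fun p _ => Real.sq_sqrt (norm_nonneg _)
      have h5 : ∀ p ∈ P, (Real.sqrt ‖γ p‖ * ‖f p h‖) ^ 2 = ‖γ p‖ * ‖f p h‖ ^ 2 := by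
        intro p hp
        rw [mul_pow, h4 p hp]
      rw [Finset.sum_congr rfl h3, Finset.sum_congr rfl h4, Finset.sum_congr rfl h5] at h2
      exact h2
    have e3 : 0 ≤ ∑ p ∈ P, ‖γ p‖ * ‖f p h‖ ^ 2 :=
      Finset.sum_nonneg fun p _ => mul_nonneg (norm_nonneg _) (sq_nonneg _)
    calc ‖∑ p ∈ P, γ p * f p h‖ ^ 2 ≤ (∑ p ∈ P, ‖γ p‖ * ‖f p h‖) ^ 2 :=
          pow_le_pow_left₀ (norm_nonneg _) e1 2
      _ ≤ (∑ p ∈ P, ‖γ p‖) * ∑ p ∈ P, ‖γ p‖ * ‖f p h‖ ^ 2 := e2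
      _ ≤ c * ∑ p ∈ P, ‖γ p‖ * ‖f p h‖ ^ 2 := mul_le_mul_of_nonneg_right hγ e3
  refine (Finset.sum_le_sum h1).trans ?_
  rw [← Finset.mul_sum, Finset.sum_comm]
  have h6 : ∑ p ∈ P, ∑ h ∈ S, ‖γ p‖ * ‖f p h‖ ^ 2 ≤ ∑ p ∈ P, ‖γ p‖ * W := by
    refine Finset.sum_le_sum fun p hp => ?_
    rw [← Finset.mul_sum]
    exact mul_le_mul_of_nonneg_left (hf p hp) (norm_nonneg _)
  rw [← Finset.sum_mul] at h6
  calc c * ∑ p ∈ P, ∑ h ∈ S, ‖γ p‖ * ‖f p h‖ ^ 2 ≤ c * ((∑ p ∈ P, ‖γ p‖) * W) :=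
        mul_le_mul_of_nonneg_left h6 hc
    _ ≤ c * (c * W) := mul_le_mul_of_nonneg_left (mul_le_mul_of_nonneg_right hγ hW) hc
    _ = c ^ 2 * W := by ring

end Pool.Agent.Lib.H59P
end

-- from Lib.H59P.Z2
section

/-!
# Project H59P, chunk Z2
-/

open Finset

namespace Pool.Agent.Lib.H59P

open Pool.Agent.Lib.H68T Pool.Agent.Lib.H18Q


/-- sums over a long interval split into cells -/
theorem z2_cells {M : Type*} [AddCommMonoid M] (A H N : ℕ) (f : ℕ → M) :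
    ∑ n ∈ Ico A (A + N * H), f n = ∑ j ∈ range N, ∑ n ∈ Ico (A + j * H) (A + j * H + H), f n := by
  induction N with
  | zero => simp
  | succ N ih =>
    rw [Finset.sum_range_succ, ← ih]
    have h1 : A + (N + 1) * H = A + N * H + H := by ring
    rw [h1]
    exact (Finset.sum_Ico_consecutive f (by omega) (by omega)).symm

theorem z2_bs {H : ℕ} (hH : 0 < H) (c m : ℕ) (h1 : c * H ≤ m) (h2 : m < c * H + H) : bs H m = c * H := by
  unfold bs
  have h3 : m / H = c := by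
    rw [Nat.div_eq_iff hH]
    constructor
    · exact h1
    · omega
  rw [h3]

theorem z2_cs (N : ℕ) (z : ℕ → ℂ) : ‖∑ j ∈ range N, z j‖ ^ 2 ≤ N * ∑ j ∈ range N, ‖z j‖ ^ 2 := by
  have h1 : ‖∑ j ∈ range N, z j‖ ≤ ∑ j ∈ range N, ‖z j‖ := norm_sum_le _ _
  have h2 := sq_sum_le_card_mul_sum_sq (s := range N) (f := fun j => ‖z j‖)
  rw [card_range] at h2
  exact (pow_le_pow_left₀ (norm_nonneg _) h1 2).trans h2


end Pool.Agent.Lib.H59P
end

-- from Lib.H24P.E1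
section

/-!
# Project H24P, chunk E1 (M): cells
-/

open Finset Polynomial

namespace Pool.Agent.Lib.H24P

open Pool.Agent.Lib.H68T Pool.Agent.Lib.H18Q Pool.Agent.Lib.H59P




/-- The base point for long cells is constant on short cells. Proof. `X1 = Hc N = Hf N' N`; both `n` and the left
end of the short cell are in the same interval `[c Hc, (c+1) Hc)`. -/
theorem E1_fine {X1 Hc Hf N' j n : ℕ} (hf : 0 < Hf) (hN : 0 < N') (hc : Hc = Hf * N') (hX : Hc ∣ X1)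
    (hn : n ∈ Ico (X1 + j * Hf) (X1 + j * Hf + Hf)) : bs Hc n = bs Hc (X1 + j * Hf) := by
  have h1 := mem_Ico.mp hn
  obtain ⟨c, rfl⟩ := hX
  have h2 : Hc * c + j * Hf = (N' * c + j) * Hf := by rw [hc]; ring
  rw [h2] at h1 ⊢
  have h3 : n / Hf = N' * c + j := by
    rw [Nat.div_eq_iff hf]
    constructor
    · exact h1.1
    · omega
  unfold bs
  have h4 : n / Hc = (N' * c + j) * Hf / Hc := by
    rw [hc, ← Nat.div_div_eq_div_mul, ← Nat.div_div_eq_div_mul, h3, Nat.mul_div_cancel _ hf]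
  rw [h4]

end Pool.Agent.Lib.H24P
end

-- from Lib.H24P.P3
section

/-!
# Project H24P, chunk P3 (M): mean values over complete periods (port of H59P/M5A, M5B, M5)
-/

open Finset

namespace Pool.Agent.Lib.H24P

open Pool.Agent.Lib.H68T Pool.Agent.Lib.H18Q Pool.Agent.Lib.H59P

/-- the local factors at one prime -/
noncomputable def p3_g {k : ℕ} (φ : Fin k → ℤ → ℤ) (l : ℕ) (n : ℤ) : ℂ :=
  ∏ i, (((1 + gl l (φ i n) : ℝ)) : ℂ)

theorem p3_g_per {k : ℕ} (φ : Fin k → ℤ → ℤ) (hφ : Cp φ) (l N : ℕ) (h : l ∣ N) (n : ℤ) :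
    p3_g φ l (n + N) = p3_g φ l n := by
  unfold p3_g
  refine prod_congr rfl fun i _ => ?_
  rw [P2_gl φ hφ l N h]

theorem p3_g_sum {k : ℕ} (φ : Fin k → ℤ → ℤ) (l : ℕ) (hl : 0 < l) :
    ∑ n ∈ range l, p3_g φ l n = l * (((1 + tpf l φ : ℝ)) : ℂ) := by
  have hl0 : (l : ℂ) ≠ 0 := by exact_mod_cast hl.ne'
  unfold tpf p3_g
  push_cast
  field_simp
  ring

theorem p3_ph {k : ℕ} (p : Fin k → Ch) (A S : Finset ℕ) (hd : Disjoint A S) (φ : Fin k → ℤ → ℤ)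
    (n : ℤ) :
    Phf p (A ∪ S) (at' φ n) = Phf p A (at' φ n) * ∏ l ∈ S, p3_g φ l n := by
  unfold Phf p3_g uu at'
  rw [prod_comm (s := S), ← prod_mul_distrib]
  refine prod_congr rfl fun i _ => ?_
  rw [prod_union hd]
  push_cast
  ring

theorem p3_main {k : ℕ} (φ : Fin k → ℤ → ℤ) (hφ : Cp φ) (R : ℕ) (hR : 0 < R) (p : Fin k → Ch)
    (hd : ∀ i, (p i).1 ∣ R) (S : Finset ℕ) (hS : ∀ l ∈ S, l.Prime ∧ ¬ l ∣ R) :
    ∑ n ∈ range (R * ∏ l ∈ S, l), Phf p R.primeFactors (at' φ n) * ∏ l ∈ S, p3_g φ l n =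
      (∑ n ∈ range R, Phf p R.primeFactors (at' φ n)) * ∏ l ∈ S, (l * (((1 + tpf l φ : ℝ)) : ℂ)) := by
  induction S using Finset.induction_on with
  | empty => simp
  | insert l S hl ih =>
    have ih := ih fun q hq => hS q (mem_insert_of_mem hq)
    obtain ⟨hlp, hlR⟩ := hS l (mem_insert_self _ _)
    have hSpos : 0 < ∏ q ∈ S, q := prod_pos fun q hq => (hS q (mem_insert_of_mem hq)).1.pos
    have hco : Nat.Coprime (R * ∏ q ∈ S, q) l := by
      rw [Nat.coprime_comm, Nat.Prime.coprime_iff_not_dvd hlp]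
      intro hdvd
      rcases (Nat.Prime.dvd_mul hlp).1 hdvd with h1 | h1
      · exact hlR h1
      · obtain ⟨q, hq, hlq⟩ := (Prime.dvd_finsetProd_iff hlp.prime _).1 h1
        have := (Nat.prime_dvd_prime_iff_eq hlp (hS q (mem_insert_of_mem hq)).1).1 hlq
        exact hl (this ▸ hq)
    have e1 : R * ∏ q ∈ insert l S, q = (R * ∏ q ∈ S, q) * l := by
      rw [prod_insert hl]; ring
    have h3 := M3d (fun n => Phf p R.primeFactors (at' φ n) * ∏ q ∈ S, p3_g φ q n) (p3_g φ l)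
      (R * ∏ q ∈ S, q) l (Nat.mul_pos hR hSpos) hlp.pos hco (by
        intro m
        have a1 : Phf p R.primeFactors (at' φ (m + (R * ∏ q ∈ S, q : ℕ))) =
            Phf p R.primeFactors (at' φ m) :=
          P2_Ph φ hφ p R _ (Dvd.intro _ rfl) hd m
        have a2 : ∀ q ∈ S, p3_g φ q (m + (R * ∏ q ∈ S, q : ℕ)) = p3_g φ q m := by
          intro q hq
          exact p3_g_per φ hφ q _ ((Finset.dvd_prod_of_mem (fun q => q) hq).trans (dvd_mul_left _ _)) m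
        rw [a1, prod_congr rfl a2]) (p3_g_per φ hφ l l dvd_rfl)
    rw [e1, prod_insert hl]
    have e2 : ∑ n ∈ range (R * (∏ q ∈ S, q) * l),
        Phf p R.primeFactors (at' φ n) * ∏ q ∈ insert l S, p3_g φ q n =
        ∑ n ∈ range (R * (∏ q ∈ S, q) * l),
          (Phf p R.primeFactors (at' φ n) * ∏ q ∈ S, p3_g φ q n) * p3_g φ l n := by
      refine sum_congr rfl fun n _ => ?_
      rw [prod_insert hl]
      ring
    rw [e2, h3, ih, p3_g_sum φ l hlp.pos]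
    ring

/-- **M5.** The mean modulo `R` times the local factors at the other primes is the mean over `Q!`.

Proof. As `M5` in `H59P/M5A.lean` with `n + h_i` replaced by `φ i n`:
`Phf p (pr Q) (at' φ n) = Phf p R.primeFactors (at' φ n) * ∏_{l ∈ pr Q, l ∤ R} ∏_i (1 + gl l (φ i n))` (the prime
factors of `R` are at most `Q`, since `R ∣ Q!`). By `M3d` and induction over the primes `l` the sum over a
period `N = R ∏_{l ≤ Q, l ∤ R} l` is `R MRf p R φ ∏ l (1 + tpf l φ)`; `N` divides `Q!`, so the mean over `Q!` is the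
mean over `N` (full periods). -/
theorem P3_M5 {k : ℕ} (φ : Fin k → ℤ → ℤ) (hφ : Cp φ) (Q R : ℕ) (hR : 0 < R) (hRQ : R ∣ Q.factorial)
    (p : Fin k → Ch) (hd : ∀ i, (p i).1 ∣ R) :
    MRf p R φ * ((SSf ((pr Q).filter (fun l => ¬ l ∣ R)) φ : ℝ) : ℂ) = MQf Q p φ := by
  obtain ⟨S, hSdef⟩ : ∃ S, S = (pr Q).filter (fun l => ¬ l ∣ R) := ⟨_, rfl⟩
  rw [← hSdef]
  have hS : ∀ l ∈ S, (l ≤ Q ∧ l.Prime) ∧ ¬ l ∣ R := by
    intro l hl
    rw [hSdef, mem_filter, pr, mem_filter, mem_Icc] at hl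
    exact ⟨⟨hl.1.1.2, hl.1.2⟩, hl.2⟩
  have hSpos : 0 < ∏ q ∈ S, q := prod_pos fun q hq => (hS q hq).1.2.pos
  have hdisj : Disjoint R.primeFactors S := by
    rw [disjoint_left]
    intro l h1 h2
    exact (hS l h2).2 (Nat.dvd_of_mem_primeFactors h1)
  have hunion : R.primeFactors ∪ S = pr Q := by
    ext l
    rw [mem_union, hSdef, mem_filter, Nat.mem_primeFactors]
    constructor
    · rintro (⟨h1, h2, -⟩ | h1)
      · rw [pr, mem_filter, mem_Icc]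
        exact ⟨⟨h1.one_le, (Nat.Prime.dvd_factorial h1).1 (h2.trans hRQ)⟩, h1⟩
      · exact h1.1
    · intro h1
      by_cases h2 : l ∣ R
      · left
        rw [pr, mem_filter] at h1
        exact ⟨h1.2, h2, hR.ne'⟩
      · exact Or.inr ⟨h1, h2⟩
  have hper : ∀ m : ℤ, Phf p (pr Q) (at' φ (m + (R * ∏ q ∈ S, q : ℕ))) = Phf p (pr Q) (at' φ m) := by
    intro m
    rw [← hunion, p3_ph p _ _ hdisj, p3_ph p _ _ hdisj,
      P2_Ph φ hφ p R _ (Dvd.intro _ rfl) hd m]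
    congr 1
    refine prod_congr rfl fun q hq => ?_
    exact p3_g_per φ hφ q _ ((Finset.dvd_prod_of_mem (fun q => q) hq).trans (dvd_mul_left _ _)) m
  have hcop : Nat.Coprime R (∏ q ∈ S, q) := by
    apply Nat.Coprime.prod_right
    intro q hq
    rw [Nat.coprime_comm, Nat.Prime.coprime_iff_not_dvd (hS q hq).1.2]
    exact (hS q hq).2
  have hdvdN : R * ∏ q ∈ S, q ∣ Q.factorial := by
    apply hcop.mul_dvd_of_dvd_of_dvd hRQ
    apply Finset.prod_primes_dvd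
    · intro q hq
      exact (hS q hq).1.2.prime
    · intro q hq
      exact (Nat.Prime.dvd_factorial (hS q hq).1.2).2 (hS q hq).1.1
  obtain ⟨j, hj⟩ := hdvdN
  have hfac : 0 < Q.factorial := Nat.factorial_pos Q
  have hj0 : 0 < j := by
    rcases Nat.eq_zero_or_pos j with rfl | h1
    · rw [mul_zero] at hj
      omega
    · exact h1
  have hsum : ∑ n ∈ range (R * ∏ l ∈ S, l), Phf p (pr Q) (at' φ n) =
      (∑ n ∈ range R, Phf p R.primeFactors (at' φ n)) *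
        ∏ l ∈ S, (l * (((1 + tpf l φ : ℝ)) : ℂ)) := by
    rw [← p3_main φ hφ R hR p hd S fun l hl => ⟨(hS l hl).1.2, (hS l hl).2⟩]
    refine sum_congr rfl fun n _ => ?_
    rw [← hunion, p3_ph p _ _ hdisj]
  have hfull := m5a_full (fun n => Phf p (pr Q) (at' φ n)) _ hper j
  unfold MQf MRf SSf
  rw [hj, hfull, hsum, prod_mul_distrib]
  have r0 : (R : ℂ) ≠ 0 := by exact_mod_cast hR.ne'
  have j0 : (j : ℂ) ≠ 0 := by exact_mod_cast hj0.ne'
  have s0 : (∏ l ∈ S, (l : ℂ)) ≠ 0 := by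
    rw [← Nat.cast_prod]
    exact_mod_cast hSpos.ne'
  push_cast
  field_simp

theorem p3_ph0 {k : ℕ} (m : Fin k → ℤ) : Phf (fun _ => p0) ∅ m = 1 := by
  unfold Phf uu
  refine prod_eq_one fun i _ => ?_
  rw [m5b_cj]
  simp

/-- Proof. As `M5_SS`: `P3_M5` with `R = 1` and the trivial characters (`cj p0 m = 1`), or directly. -/
theorem P3_SS {k : ℕ} (φ : Fin k → ℤ → ℤ) (hφ : Cp φ) (Q : ℕ) :
    (∑ n ∈ range Q.factorial, ∏ i, uu (pr Q) (φ i n)) / (Q.factorial : ℝ) = SSf (pr Q) φ := by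
  have h1 := P3_M5 φ hφ Q 1 one_pos (one_dvd _) (fun _ : Fin k => p0) (fun _ => one_dvd _)
  have h2 : (pr Q).filter (fun l => ¬ l ∣ 1) = pr Q := by
    refine Finset.filter_true_of_mem fun l hl h => ?_
    rw [pr, mem_filter] at hl
    exact hl.2.one_lt.ne' (Nat.dvd_one.1 h)
  have h3 : MRf (fun _ : Fin k => p0) 1 φ = 1 := by
    unfold MRf
    rw [Nat.primeFactors_one, Finset.sum_range_one, p3_ph0]
    simp
  rw [h2, h3, one_mul] at h1
  have h4 : MQf Q (fun _ : Fin k => p0) φ =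
      (((∑ n ∈ range Q.factorial, ∏ i, uu (pr Q) (φ i n)) / (Q.factorial : ℝ) : ℝ) : ℂ) := by
    unfold MQf Phf at'
    push_cast
    congr 1
    refine Finset.sum_congr rfl fun n _ => Finset.prod_congr rfl fun i _ => ?_
    rw [m5b_cj, one_mul]
  rw [h4] at h1
  exact (Complex.ofReal_injective h1).symm

/-- Proof. As `M5_loc` in `H59P/M5B.lean`. -/
theorem P3_loc {k : ℕ} (φ : Fin k → ℤ → ℤ) (hφ : Cp φ) (R : ℕ) (hR : 0 < R) :
    MRf (fun _ => p0) R φ = ((SSf R.primeFactors φ : ℝ) : ℂ) := by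
  have hp1 : ∀ l ∈ R.primeFactors, l.Prime ∧ ¬ l ∣ 1 := by
    intro l hl
    have h1 := Nat.prime_of_mem_primeFactors hl
    exact ⟨h1, fun h2 => h1.one_lt.ne' (Nat.dvd_one.1 h2)⟩
  have hpos : 0 < ∏ l ∈ R.primeFactors, l := prod_pos fun q hq => (hp1 q hq).1.pos
  have hPh : ∀ n : ℤ, Phf (fun _ : Fin k => p0) R.primeFactors (at' φ n) =
      ∏ l ∈ R.primeFactors, p3_g φ l n := by
    intro n
    have h1 := p3_ph (fun _ : Fin k => p0) ∅ R.primeFactors (disjoint_empty_left _) φ n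
    rw [empty_union, p3_ph0, one_mul] at h1
    exact h1
  have hmain := p3_main φ hφ 1 one_pos (fun _ : Fin k => p0) (fun _ => one_dvd _) R.primeFactors hp1
  rw [one_mul, Nat.primeFactors_one] at hmain
  have hone : ∑ n ∈ range 1, Phf (fun _ : Fin k => p0) ∅ (at' φ n) = 1 := by
    rw [sum_range_one]
    exact p3_ph0 _
  rw [hone, one_mul] at hmain
  have hmain2 : ∑ n ∈ range (∏ l ∈ R.primeFactors, l),
      Phf (fun _ : Fin k => p0) R.primeFactors (at' φ n) =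
      ∏ l ∈ R.primeFactors, (l * (((1 + tpf l φ : ℝ)) : ℂ)) := by
    rw [← hmain]
    refine sum_congr rfl fun n _ => ?_
    rw [hPh, p3_ph0, one_mul]
  have hper : ∀ m : ℤ, Phf (fun _ : Fin k => p0) R.primeFactors
      (at' φ (m + (∏ l ∈ R.primeFactors, l : ℕ))) =
      Phf (fun _ : Fin k => p0) R.primeFactors (at' φ m) := by
    intro m
    rw [hPh, hPh]
    refine prod_congr rfl fun q hq => ?_
    exact p3_g_per φ hφ q _ (Finset.dvd_prod_of_mem (fun q => q) hq) m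
  obtain ⟨j, hj⟩ := Nat.prod_primeFactors_dvd R
  have hj0 : 0 < j := by
    rcases Nat.eq_zero_or_pos j with rfl | h1
    · rw [mul_zero] at hj
      omega
    · exact h1
  have hsum : ∑ n ∈ range R, Phf (fun _ : Fin k => p0) R.primeFactors (at' φ n) =
      j * ∏ l ∈ R.primeFactors, (l * (((1 + tpf l φ : ℝ)) : ℂ)) := by
    have h1 := m5a_full (fun n => Phf (fun _ : Fin k => p0) R.primeFactors (at' φ n)) _ hper j
    rw [← hj, hmain2] at h1
    exact h1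
  have hRc : (R : ℂ) = (∏ l ∈ R.primeFactors, (l : ℂ)) * j := by
    have h1 : ((R : ℕ) : ℂ) = (((∏ l ∈ R.primeFactors, l) * j : ℕ) : ℂ) := by rw [← hj]
    rw [h1]
    push_cast
    rfl
  have hR0 : (R : ℂ) ≠ 0 := by exact_mod_cast hR.ne'
  unfold MRf SSf
  rw [hsum, prod_mul_distrib, div_eq_iff hR0, hRc]
  push_cast
  ring

end Pool.Agent.Lib.H24P
end

-- from Lib.H24P.Z2B
section

/-!
# Project H24P, chunk Z2B (M): the truncated and the complete main term (compare H59P/Z3A)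
-/

open Finset Polynomial

namespace Pool.Agent.Lib.H24P

open Pool.Agent.Lib.H68T Pool.Agent.Lib.H18Q Pool.Agent.Lib.H59P

theorem z2b_R {k : ℕ} (Q D m0 : ℕ) (hm0 : 1 ≤ m0) (p : Fin (k + 1) → Ch)
    (hp : p ∈ TSf (k + 1) Q D m0) : 0 < Rf m0 p ∧ Rf m0 p ≤ D ∧ (∀ i, (p i).1 ∣ Rf m0 p) ∧
      m0 ∣ Rf m0 p := by
  classical
  unfold TSf at hp
  rw [Finset.mem_filter, Fintype.mem_piFinset] at hp
  obtain ⟨hp1, hp2⟩ := hp
  refine ⟨?_, hp2, ?_, ?_⟩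
  · have h1 : (univ.lcm fun i => (p i).1) ≠ 0 := by
      intro h0
      rw [Finset.lcm_eq_zero_iff] at h0
      obtain ⟨i, _, h2⟩ := h0
      have h3 : 0 < (p i).1 := (mem_PC.mp (hp1 i)).1
      exact h3.ne' h2
    unfold Rf
    exact Nat.lcm_pos hm0 (Nat.pos_of_ne_zero h1)
  · intro i
    unfold Rf
    exact (Finset.dvd_lcm (f := fun i => (p i).1) (Finset.mem_univ i)).trans (Nat.dvd_lcm_right _ _)
  · unfold Rf
    exact Nat.dvd_lcm_left _ _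

/-- the size of the mean modulo `R` -/
theorem z2b_MR {k : ℕ} (Q : ℕ) (p : Fin (k + 1) → Ch) (R : ℕ) (hR : 0 < R) (hRQ : R ≤ Q)
    (φ : Fin (k + 1) → ℤ → ℤ) : ‖MRf p R φ‖ ≤ (2 * (1 + Real.log Q)) ^ (k + 1) := by
  refine (P0_MR p R hR φ).trans ?_
  refine pow_le_pow_left₀ (by positivity) ((M3b R hR).trans ?_) _
  have h1 : Real.log R ≤ Real.log Q :=
    Real.log_le_log (by exact_mod_cast hR) (by exact_mod_cast hRQ)
  linarith

theorem z2b_gam {k : ℕ} (Q D m0 : ℕ) (c' : Fin (k + 1) → Ch → ℂ)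
    (hc' : ∀ i, ∑ p ∈ PC Q, ‖c' i p‖ ≤ 3) :
    ∑ p ∈ TSf (k + 1) Q D m0, ‖∏ i, c' i (p i)‖ ≤ 3 ^ (k + 1) := by
  classical
  calc ∑ p ∈ TSf (k + 1) Q D m0, ‖∏ i, c' i (p i)‖
      = ∑ p ∈ TSf (k + 1) Q D m0, ∏ i, ‖c' i (p i)‖ :=
        Finset.sum_congr rfl fun p _ => norm_prod _ _
    _ ≤ ∑ p ∈ Fintype.piFinset fun _ : Fin (k + 1) => PC Q, ∏ i, ‖c' i (p i)‖ := by
        refine Finset.sum_le_sum_of_subset_of_nonneg ?_ ?_
        · intro p hp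
          unfold TSf at hp
          exact (Finset.mem_filter.mp hp).1
        · intro p _ _
          exact Finset.prod_nonneg fun i _ => norm_nonneg _
    _ = ∏ i, ∑ q ∈ PC Q, ‖c' i q‖ := by
        rw [Finset.prod_univ_sum]
    _ ≤ ∏ _i : Fin (k + 1), (3 : ℝ) :=
        Finset.prod_le_prod (fun i _ => Finset.sum_nonneg fun _ _ => norm_nonneg _) fun i _ => hc' i
    _ = 3 ^ (k + 1) := by
        rw [Finset.prod_const, Finset.card_univ, Fintype.card_fin]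


end Pool.Agent.Lib.H24P
end

-- from Lib.H24P.P5
section

/-!
# Project H24P, chunk P5 (M): lower bounds for the main term (port of H59P/X2A, X2)
-/

open Finset

namespace Pool.Agent.Lib.H24P

open Pool.Agent.Lib.H68T Pool.Agent.Lib.H18Q Pool.Agent.Lib.H59P

/-- The expansion of the main term (port of `X2a`). -/
theorem p5_X2a {k : ℕ} (φ : Fin k → ℤ → ℤ) (hφ : Cp φ) (Q : ℕ) (px : Ch) (hpx : px ∈ PC Q)
    (hreal : px.2 ^ 2 = 1) (th : Fin k → ℝ) :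
    ((PMf Q px th φ : ℝ) : ℂ) = ∑ B ∈ (univ : Finset (Fin k)).powerset,
      ((∏ i ∈ B, -(th i) : ℝ) : ℂ) * (MRf (pB px B) px.1 φ *
        ((SSf ((pr Q).filter (fun l => ¬ l ∣ px.1)) φ : ℝ) : ℂ)) := by
  classical
  obtain ⟨hr1, hrQ, hprim⟩ := mem_PC.1 hpx
  have h1 : ∀ B : Finset (Fin k), MRf (pB px B) px.1 φ *
        ((SSf ((pr Q).filter (fun l => ¬ l ∣ px.1)) φ : ℝ) : ℂ) = MQf Q (pB px B) φ := by
    intro B
    refine P3_M5 φ hφ Q px.1 (by omega) (Nat.dvd_factorial (by omega) hrQ) (pB px B) ?_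
    intro i
    unfold pB
    split_ifs
    · exact dvd_rfl
    · exact one_dvd _
  rw [sum_congr rfl fun B _ => by rw [h1 B]]
  have h2 : ∀ n : ℤ, ((fPf Q px th (at' φ n) : ℝ) : ℂ) = ∑ B ∈ (univ : Finset (Fin k)).powerset,
      ((∏ i ∈ B, -(th i) : ℝ) : ℂ) * Phf (pB px B) (pr Q) (at' φ n) := by
    intro n
    unfold fPf at'
    rw [Complex.ofReal_prod]
    have e1 : ∀ i : Fin k, ((uu (pr Q) (φ i n) * (1 - th i * (cj px (φ i n)).re) : ℝ) : ℂ) =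
        ((uu (pr Q) (φ i n) : ℝ) : ℂ) * ((((-(th i) : ℝ)) : ℂ) * cj px (φ i n) + 1) := by
      intro i
      push_cast
      rw [← (C3a px hreal (φ i n)).1]
      ring
    rw [prod_congr rfl fun i _ => e1 i, prod_mul_distrib, Finset.prod_add, mul_sum]
    refine sum_congr rfl fun B hB => ?_
    unfold Phf
    rw [prod_mul_distrib, prod_mul_distrib, prod_const_one, mul_one, Complex.ofReal_prod]
    have e2 : ∏ i, cj (pB px B i) (φ i n) = ∏ i ∈ B, cj px (φ i n) := by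
      rw [← prod_subset (subset_univ B)]
      · refine prod_congr rfl fun i hi => ?_
        unfold pB
        rw [if_pos hi]
      · intro i _ hi
        unfold pB
        rw [if_neg hi, m5b_cj]
    rw [e2]
    ring
  unfold PMf MQf
  rw [Complex.ofReal_div, Complex.ofReal_sum, sum_congr rfl fun (n : ℕ) _ => h2 (n : ℤ), sum_comm,
    sum_div]
  refine sum_congr rfl fun B _ => ?_
  rw [← mul_sum, mul_div_assoc]
  norm_cast

theorem p5_mem_pr {Q l : ℕ} : l ∈ pr Q ↔ l.Prime ∧ l ≤ Q := by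
  unfold pr
  rw [Finset.mem_filter, Finset.mem_Icc]
  constructor
  · rintro ⟨⟨_, h2⟩, h3⟩
    exact ⟨h3, h2⟩
  · rintro ⟨h1, h2⟩
    exact ⟨⟨h1.one_lt.le, h2⟩, h1⟩

theorem p5_SS_nonneg {k : ℕ} (P : Finset ℕ) (hP : ∀ l ∈ P, l.Prime) (φ : Fin k → ℤ → ℤ) :
    0 ≤ SSf P φ :=
  Finset.prod_nonneg fun l hl => (P0_tp l (hP l hl) φ).1



end Pool.Agent.Lib.H24P
end

-- from Lib.H24P.T2
section

/-!
# Project H24P, chunk T2 (M): the twisted sums as means over a complete period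
-/

open Finset Polynomial

namespace Pool.Agent.Lib.H24P

open Pool.Agent.Lib.H68T Pool.Agent.Lib.H18Q Pool.Agent.Lib.H59P

theorem t2_eval (B : ℤ[X]) (hB : B.natDegree = 1) (x : ℤ) :
    B.eval x = B.coeff 0 + B.leadingCoeff * x := by
  rw [eval_eq_sum_range, hB, Finset.sum_range_succ, Finset.sum_range_one, leadingCoeff, hB]
  ring

theorem t2_not (B : ℤ[X]) (l : ℕ) (h : ¬ l ∣ B.leadingCoeff.natAbs) : ¬ (l : ℤ) ∣ B.leadingCoeff :=
  fun hd => h (Int.natCast_dvd.1 hd)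

/-- One prime. -/
theorem t2_one (B : ℤ[X]) (hB : B.natDegree = 1) (l : ℕ) (hl : l.Prime)
    (h : ¬ l ∣ B.leadingCoeff.natAbs) :
    ∑ n ∈ range l, (1 + gl l (B.eval (n : ℤ))) = l := by
  have h1 := b1_lin l hl B.leadingCoeff (B.coeff 0) (t2_not B l h)
  refine (Finset.sum_congr rfl fun n _ => ?_).trans h1
  rw [t2_eval B hB]

/-- Proof. Induction over `S` (`Finset.induction_on`) with `M3d` of `H59P` (the moduli `l` and `∏_{S'} l` are coprime; `uu` is a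
product, `gl_per`); for a prime `l ∤ lc B` the values `B(n)`, `n < l`, run through all classes modulo `l`, so
`∑_{n<l} (1 + gl l (B n)) = (l-1) l/(l-1) = l` and `∑_{n<l} (1 + gl l (B n))² = l²/(l-1)`. -/
theorem T2_unit (B : ℤ[X]) (hB : B.natDegree = 1) (S : Finset ℕ)
    (hS : ∀ l ∈ S, l.Prime ∧ ¬ l ∣ B.leadingCoeff.natAbs) :
    ∑ n ∈ range (∏ l ∈ S, l), uu S (B.eval (n : ℤ)) = ((∏ l ∈ S, l : ℕ) : ℝ) ∧
    ∑ n ∈ range (∏ l ∈ S, l), (uu S (B.eval (n : ℤ))) ^ 2 =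
      ((∏ l ∈ S, l : ℕ) : ℝ) * ∏ l ∈ S, ((l : ℝ) / ((l : ℝ) - 1)) := by
  have hper : ∀ l : ℕ, ∀ n : ℤ, gl l (B.eval (n + l)) = gl l (B.eval n) := by
    intro l n
    rw [t2_eval B hB, t2_eval B hB]
    have h1 : B.coeff 0 + B.leadingCoeff * (n + l) =
        (B.coeff 0 + B.leadingCoeff * n) + B.leadingCoeff * l := by ring
    rw [h1, gl_per]
  constructor
  · have h1 := b1_set (fun l n => 1 + gl l (B.eval n)) (fun l n => by rw [hper]) S
      (fun l hl => (hS l hl).1)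
    unfold uu
    rw [h1, Nat.cast_prod]
    exact Finset.prod_congr rfl fun l hl => t2_one B hB l (hS l hl).1 (hS l hl).2
  · have h1 := b1_set (fun l n => (1 + gl l (B.eval n)) ^ 2) (fun l n => by rw [hper]) S
      (fun l hl => (hS l hl).1)
    unfold uu
    have h2 : ∀ n ∈ range (∏ l ∈ S, l), (∏ l ∈ S, (1 + gl l (B.eval (n : ℤ)))) ^ 2 =
        ∏ l ∈ S, (1 + gl l (B.eval (n : ℤ))) ^ 2 := fun n _ => (Finset.prod_pow _ _ _).symm
    rw [Finset.sum_congr rfl h2, h1, Nat.cast_prod, ← Finset.prod_mul_distrib]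
    refine Finset.prod_congr rfl fun l hl => ?_
    obtain ⟨hlp, hlB⟩ := hS l hl
    have hl1 : (1 : ℝ) < l := by exact_mod_cast hlp.one_lt
    have hl2 : (l : ℝ) - 1 ≠ 0 := by linarith
    have h3 : ∀ m : ℤ, (1 + gl l m) ^ 2 = (1 + gl l m) * ((l : ℝ) / ((l : ℝ) - 1)) := by
      intro m
      unfold gl
      split_ifs
      · ring
      · have h4 : 1 + 1 / ((l : ℝ) - 1) = (l : ℝ) / ((l : ℝ) - 1) := by
          field_simp
          ring
        rw [h4]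
        ring
    simp only [h3]
    rw [← Finset.sum_mul, t2_one B hB l hlp hlB]

/-- Proof. `uu S = uu D uu (S \ D)`; the first factor times `Wdf` has period `∏ D` (`P2_Wd`, `P2_ran`), sum
`(∏ D) tdf` by `B1_mean` (`d = ∏ D` is squarefree with prime factors `D`: `Nat.primeFactors_prod`), the second has period
`∏ (S \ D)` and sum `∏ (S \ D)` (`T2_unit`): `M3d`. -/
theorem T2_mean {k : ℕ} (B : ℤ[X]) (hB : B.natDegree = 1) (P : Fin k → ℤ[X]) (h : Fin k → ℕ)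
    (S D : Finset ℕ) (hS : ∀ l ∈ S, l.Prime ∧ ¬ l ∣ B.leadingCoeff.natAbs) (hD : D ⊆ S) :
    ∑ n ∈ range (∏ l ∈ S, l), uu S (B.eval (n : ℤ)) * Wdf (∏ l ∈ D, l) (at' (ran P h) n) =
      ((∏ l ∈ S, l : ℕ) : ℝ) * tdf (∏ l ∈ D, l) (sys B P h) := by
  classical
  have hDp : (∏ l ∈ D, l).primeFactors = D := Nat.primeFactors_prod fun l hl => (hS l (hD hl)).1
  have hper : ∀ l : ℕ, ∀ n : ℤ, gl l (B.eval (n + l)) = gl l (B.eval n) := by
    intro l n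
    rw [t2_eval B hB, t2_eval B hB]
    have h1 : B.coeff 0 + B.leadingCoeff * (n + l) =
        (B.coeff 0 + B.leadingCoeff * n) + B.leadingCoeff * l := by ring
    rw [h1, gl_per]
  have hperW : ∀ l : ℕ, ∀ n : ℤ, Wf l (at' (ran P h) (n + l)) = Wf l (at' (ran P h) n) := by
    intro l n
    unfold Wf
    congr 1
    refine Finset.prod_congr rfl fun i _ => ?_
    congr 1
    exact P2_gl (ran P h) (P2_ran P h) l l dvd_rfl i n
  -- one prime
  have hone : ∀ l ∈ S, ∑ n ∈ range l, (1 + gl l (B.eval (n : ℤ))) * Wf l (at' (ran P h) n) =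
      l * tpf l (sys B P h) := by
    intro l hl
    obtain ⟨hlp, hlB⟩ := hS l hl
    have h1 := B1_mean B hB P h l hlp.prime.squarefree ((Nat.Prime.coprime_iff_not_dvd hlp).2 hlB)
    have h2 : l.primeFactors = {l} := hlp.primeFactors
    unfold Wdf tdf uu at h1
    rw [h2] at h1
    simp only [Finset.prod_singleton] at h1
    exact h1
  set F : ℕ → ℤ → ℝ := fun l n =>
    (1 + gl l (B.eval n)) * (if l ∈ D then Wf l (at' (ran P h) n) else 1) with hF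
  have h1 := b1_set F (fun l n => by
    rw [hF]
    simp only
    rw [hper, hperW]) S (fun l hl => (hS l hl).1)
  have h2 : ∀ n ∈ range (∏ l ∈ S, l), uu S (B.eval (n : ℤ)) * Wdf (∏ l ∈ D, l) (at' (ran P h) n) =
      ∏ l ∈ S, F l n := by
    intro n _
    unfold uu Wdf
    rw [hDp, hF]
    simp only
    rw [Finset.prod_mul_distrib]
    congr 1
    rw [Finset.prod_ite_mem, Finset.inter_eq_right.2 hD]
  rw [Finset.sum_congr rfl h2, h1]
  have h3 : ∀ l ∈ S, ∑ n ∈ range l, F l n = (l : ℝ) * (if l ∈ D then tpf l (sys B P h) else 1) := by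
    intro l hl
    rw [hF]
    simp only
    split_ifs
    · exact hone l hl
    · simp only [mul_one]
      exact t2_one B hB l (hS l hl).1 (hS l hl).2
  rw [Finset.prod_congr rfl h3, Finset.prod_mul_distrib, Nat.cast_prod]
  congr 1
  unfold tdf
  rw [hDp, Finset.prod_ite_mem, Finset.inter_eq_right.2 hD]

/-- `j` periods. -/
theorem t2_per (f : ℤ → ℂ) (N : ℕ) (hf : ∀ m, f (m + N) = f m) (j : ℕ) :
    ∑ n ∈ Ico 0 (0 + N * j), f ((n : ℕ) : ℤ) = j * ∑ n ∈ range N, f n := by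
  rw [zero_add, ← Finset.range_eq_Ico]
  induction j with
  | zero => simp
  | succ j ih =>
    rw [mul_add, mul_one, Finset.sum_range_add, ih]
    have h1 : ∀ n ∈ range N, f (((N * j + n : ℕ)) : ℤ) = f n := by
      intro n _
      have h2 := m3c_per f N hf j (n : ℤ)
      rw [← h2]
      congr 1
      push_cast
      ring
    rw [Finset.sum_congr rfl h1]
    push_cast
    ring

/-- The components of the trivial character. -/
theorem t2_comp {k : ℕ} (Z : ℕ) (Δ : Finset ℕ) (hΔ : ∀ d ∈ Δ, Squarefree d ∧ d ≤ Z)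
    (m : Fin k → ℤ) :
    ∑ κ ∈ (Fintype.piFinset fun _ : Fin k => KS Z 1).filter (fun κ => univ.lcm κ ∈ Δ),
      ∏ i, gk p0 (κ i) (m i) = ((∑ d ∈ Δ, Wdf d m : ℝ) : ℂ) := by
  classical
  have h0 : ∑ κ ∈ (Fintype.piFinset fun _ : Fin k => KS Z 1).filter (fun κ => univ.lcm κ ∈ Δ),
      ∏ i, gk p0 (κ i) (m i) = ∑ d ∈ Δ, ∑ κ ∈ ((Fintype.piFinset fun _ : Fin k => KS Z 1).filter
        (fun κ => univ.lcm κ ∈ Δ)).filter (fun κ => univ.lcm κ = d), ∏ i, gk p0 (κ i) (m i) :=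
    (Finset.sum_fiberwise_of_maps_to (fun κ hκ => (mem_filter.1 hκ).2) _).symm
  rw [h0, Complex.ofReal_sum]
  refine Finset.sum_congr rfl fun d hd => ?_
  obtain ⟨hsq, hdZ⟩ := hΔ d hd
  rw [← P1_Wd d hsq m]
  refine Finset.sum_congr ?_ fun _ _ => rfl
  ext κ
  simp only [mem_filter, Fintype.mem_piFinset]
  constructor
  · rintro ⟨⟨h1, h2⟩, h3⟩
    refine ⟨fun i => ?_, h3⟩
    rw [Nat.mem_divisors]
    exact ⟨h3 ▸ Finset.dvd_lcm (mem_univ i), hsq.ne_zero⟩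
  · rintro ⟨h1, h2⟩
    refine ⟨⟨fun i => ?_, h2 ▸ hd⟩, h2⟩
    have h3 := Nat.dvd_of_mem_divisors (h1 i)
    rw [CA_mem_KS, Nat.div_one]
    exact ⟨⟨Nat.pos_of_dvd_of_pos h3 (Nat.pos_of_ne_zero hsq.ne_zero),
      (Nat.le_of_dvd (Nat.pos_of_ne_zero hsq.ne_zero) h3).trans hdZ⟩, hsq.squarefree_of_dvd h3,
      Nat.coprime_one_right _⟩

/-- The sum over `Δ` as a mean over `N = j ∏ S`. Proof. `P1_Wd` for each `d ∈ Δ` (`∏ p0`-components; for `κ` with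
`lcm κ = d`, `d` squarefree, `d ≤ Z`: `κ_i ∣ d` iff `κ_i ∈ KS Z 1` given the lcm; `KS Z 1` = squarefree numbers up to `Z`)
gives `∑_{κ ∈ T} ∏ gk p0 (κ i) (m i) = ∑_{d ∈ Δ} Wdf d m`; `T2_mean` with `D = d.primeFactors`; `j` full periods
(`m3c_start` of `H59P`, or induction on `j`). -/
theorem T2_iden {k : ℕ} (B : ℤ[X]) (hB : B.natDegree = 1) (P : Fin k → ℤ[X]) (h : Fin k → ℕ)
    (S : Finset ℕ) (hS : ∀ l ∈ S, l.Prime ∧ ¬ l ∣ B.leadingCoeff.natAbs) (Z j : ℕ) (hj : 1 ≤ j)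
    (Δ : Finset ℕ) (hΔ : ∀ d ∈ Δ, Squarefree d ∧ d ≤ Z ∧ d.primeFactors ⊆ S) :
    ∑ n ∈ Ico 0 (0 + (∏ l ∈ S, l) * j), ((uu S (B.eval (n : ℤ)) : ℝ) : ℂ) *
        ∑ κ ∈ (Fintype.piFinset fun _ : Fin k => KS Z 1).filter (fun κ => univ.lcm κ ∈ Δ),
          ∏ i, gk p0 (κ i) ((P i).eval (n : ℤ) + h i) =
      (((∏ l ∈ S, l) * j : ℕ) : ℂ) * ((∑ d ∈ Δ, tdf d (sys B P h) : ℝ) : ℂ) := by
  classical
  set N : ℕ := ∏ l ∈ S, l with hN
  have hdvd : ∀ l ∈ S, l ∣ N := fun l hl => Finset.dvd_prod_of_mem (fun l => l) hl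
  have hprod : ∀ d ∈ Δ, ∏ l ∈ d.primeFactors, l = d := fun d hd =>
    Nat.prod_primeFactors_of_squarefree (hΔ d hd).1
  have hdN : ∀ d ∈ Δ, d ∣ N := by
    intro d hd
    rw [← hprod d hd, hN]
    exact Finset.prod_dvd_prod_of_subset _ _ _ (hΔ d hd).2.2
  set f : ℤ → ℂ := fun n => ((uu S (B.eval n) * ∑ d ∈ Δ, Wdf d (at' (ran P h) n) : ℝ) : ℂ) with hf
  have hper : ∀ n : ℤ, f (n + N) = f n := by
    intro n
    rw [hf]
    simp only
    congr 2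
    · unfold uu
      refine Finset.prod_congr rfl fun l hl => ?_
      congr 1
      rw [t2_eval B hB, t2_eval B hB]
      obtain ⟨c, hc⟩ := hdvd l hl
      have h1 : B.coeff 0 + B.leadingCoeff * (n + (N : ℤ)) =
          (B.coeff 0 + B.leadingCoeff * n) + (B.leadingCoeff * c) * l := by
        rw [hc]
        push_cast
        ring
      rw [h1, gl_per]
    · refine Finset.sum_congr rfl fun d hd => ?_
      exact P2_Wd (ran P h) (P2_ran P h) d N (hdN d hd) n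
  have h1 : ∀ n ∈ Ico 0 (0 + N * j), ((uu S (B.eval (n : ℤ)) : ℝ) : ℂ) *
        ∑ κ ∈ (Fintype.piFinset fun _ : Fin k => KS Z 1).filter (fun κ => univ.lcm κ ∈ Δ),
          ∏ i, gk p0 (κ i) ((P i).eval (n : ℤ) + h i) = f ((n : ℕ) : ℤ) := by
    intro n _
    have h2 := t2_comp Z Δ (fun d hd => ⟨(hΔ d hd).1, (hΔ d hd).2.1⟩) (at' (ran P h) (n : ℤ))
    have h3 : ∑ κ ∈ (Fintype.piFinset fun _ : Fin k => KS Z 1).filter (fun κ => univ.lcm κ ∈ Δ),
          ∏ i, gk p0 (κ i) ((P i).eval (n : ℤ) + h i) =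
        ((∑ d ∈ Δ, Wdf d (at' (ran P h) (n : ℤ)) : ℝ) : ℂ) := h2
    rw [h3, hf]
    simp only
    rw [Complex.ofReal_mul]
  rw [Finset.sum_congr rfl h1, t2_per f N hper j]
  have h4 : ∑ n ∈ range N, f n = ((N * ∑ d ∈ Δ, tdf d (sys B P h) : ℝ) : ℂ) := by
    rw [hf]
    simp only
    rw [← Complex.ofReal_sum]
    congr 1
    simp only [Finset.mul_sum]
    rw [Finset.sum_comm]
    refine Finset.sum_congr rfl fun d hd => ?_
    have h5 := T2_mean B hB P h S d.primeFactors hS (hΔ d hd).2.2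
    rw [hprod d hd] at h5
    exact h5
  rw [h4]
  push_cast
  ring

end Pool.Agent.Lib.H24P
end

-- from Lib.H24P.T3
section

/-!
# Project H24P, chunk T3 (M): mean square of the twisted sums
-/

open Finset Polynomial

namespace Pool.Agent.Lib.H24P

open Pool.Agent.Lib.H68T Pool.Agent.Lib.H18Q Pool.Agent.Lib.H59P

theorem t3_per (B : ℤ[X]) (S : Finset ℕ) (v t : ℕ) :
    uu S (B.eval (((t * (∏ l ∈ S, l) + v : ℕ)) : ℤ)) = uu S (B.eval (v : ℤ)) := by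
  unfold uu
  refine prod_congr rfl fun l hl => ?_
  congr 1
  have h1 : (l : ℤ) ∣ ((∏ l ∈ S, l : ℕ) : ℤ) := by
    exact_mod_cast dvd_prod_of_mem (fun l : ℕ => l) hl
  have h2 := Polynomial.sub_dvd_eval_sub (((t * (∏ l ∈ S, l) + v : ℕ)) : ℤ) (v : ℤ) B
  have h3 : ((((t * (∏ l ∈ S, l) + v : ℕ)) : ℤ) - (v : ℤ)) = ((∏ l ∈ S, l : ℕ) : ℤ) * t := by
    push_cast
    ring
  rw [h3] at h2
  obtain ⟨c, hc⟩ := (h1.mul_right _).trans h2
  have h4 : B.eval (((t * (∏ l ∈ S, l) + v : ℕ)) : ℤ) = B.eval (v : ℤ) + c * l := by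
    linarith
  rw [h4, gl_per]

/-- the mean square of the weight -/
theorem t3_sq (B : ℤ[X]) (hB : B.natDegree = 1) (Q : ℕ) (hQ : 2 ≤ Q) (j : ℕ) (S : Finset ℕ)
    (hS : ∀ l ∈ S, l.Prime ∧ l ≤ Q ∧ ¬ l ∣ B.leadingCoeff.natAbs) :
    ∑ n ∈ Ico 0 (0 + (∏ l ∈ S, l) * j), ‖((uu S (B.eval (n : ℤ)) : ℝ) : ℂ)‖ ^ 2 ≤
      (((∏ l ∈ S, l) * j : ℕ) : ℝ) * (500 * Real.log Q) := by
  have h1 : ∀ n ∈ Ico 0 (0 + (∏ l ∈ S, l) * j), ‖((uu S (B.eval (n : ℤ)) : ℝ) : ℂ)‖ ^ 2 =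
      (uu S (B.eval (n : ℤ))) ^ 2 := by
    intro n _
    rw [Complex.norm_real, Real.norm_eq_abs, sq_abs]
  rw [sum_congr rfl h1, zero_add, ← range_eq_Ico, mul_comm (∏ l ∈ S, l) j]
  have h2 : ∀ q N : ℕ, ∀ f : ℕ → ℝ,
      ∑ n ∈ range (q * N), f n = ∑ t ∈ range q, ∑ v ∈ range N, f (t * N + v) := by
    intro q N f
    induction q with
    | zero => simp
    | succ q ih => rw [Nat.succ_mul, sum_range_add, ih, sum_range_succ]
  rw [h2]
  have h3 := (T2_unit B hB S fun l hl => ⟨(hS l hl).1, (hS l hl).2.2⟩).2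
  have h4 : ∀ t ∈ range j, ∑ v ∈ range (∏ l ∈ S, l),
      (uu S (B.eval (((t * (∏ l ∈ S, l) + v : ℕ)) : ℤ))) ^ 2 =
      ((∏ l ∈ S, l : ℕ) : ℝ) * ∏ l ∈ S, ((l : ℝ) / ((l : ℝ) - 1)) := by
    intro t _
    rw [← h3]
    exact sum_congr rfl fun v _ => by rw [t3_per]
  rw [sum_congr rfl h4, sum_const, card_range, nsmul_eq_mul]
  have h5 : ∏ l ∈ S, ((l : ℝ) / ((l : ℝ) - 1)) ≤ 500 * Real.log Q := by
    have h6 : ∀ l : ℕ, l.Prime → ((l : ℝ) / ((l : ℝ) - 1)) = (1 - 1 / (l : ℝ))⁻¹ ∧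
        1 ≤ (1 - 1 / (l : ℝ))⁻¹ := by
      intro l hl
      have h7 : (2 : ℝ) ≤ l := by exact_mod_cast hl.two_le
      have h8 : (0 : ℝ) < (l : ℝ) - 1 := by linarith
      have h9 : ((l : ℝ) / ((l : ℝ) - 1)) = (1 - 1 / (l : ℝ))⁻¹ := by
        field_simp
      refine ⟨h9, ?_⟩
      rw [← h9, le_div_iff₀ h8]
      linarith
    have h10 : S ⊆ Pool.Agent.Lib.Sieve.primesUpTo Q := fun l hl =>
      Pool.Agent.Lib.Sieve.mem_primesUpTo.mpr ⟨(hS l hl).1, (hS l hl).2.1⟩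
    rw [prod_congr rfl fun l hl => (h6 l (hS l hl).1).1]
    refine le_trans ?_ (Pool.Agent.Lib.Helper57.prod_one_sub_inv_inv_le Q hQ)
    rw [← prod_sdiff h10]
    have h13 : (1 : ℝ) ≤ ∏ l ∈ Pool.Agent.Lib.Sieve.primesUpTo Q \ S, (1 - 1 / (l : ℝ))⁻¹ := by
      calc (1 : ℝ) = ∏ _l ∈ Pool.Agent.Lib.Sieve.primesUpTo Q \ S, (1 : ℝ) := prod_const_one.symm
        _ ≤ _ := prod_le_prod (fun _ _ => zero_le_one) (fun l hl =>
          (h6 l (Pool.Agent.Lib.Sieve.mem_primesUpTo.mp (mem_sdiff.mp hl).1).1).2)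
    have h14 : (0 : ℝ) ≤ ∏ l ∈ S, (1 - 1 / (l : ℝ))⁻¹ :=
      prod_nonneg fun l hl => zero_le_one.trans (h6 l (hS l hl).1).2
    exact le_mul_of_one_le_left h14 h13
  have h11 : (0 : ℝ) ≤ ((∏ l ∈ S, l : ℕ) : ℝ) := by positivity
  have h12 : (0 : ℝ) ≤ (j : ℝ) := by positivity
  calc (j : ℝ) * (((∏ l ∈ S, l : ℕ) : ℝ) * ∏ l ∈ S, ((l : ℝ) / ((l : ℝ) - 1)))
      ≤ (j : ℝ) * (((∏ l ∈ S, l : ℕ) : ℝ) * (500 * Real.log Q)) := by gcongr
    _ = _ := by push_cast; ring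


end Pool.Agent.Lib.H24P
end
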