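import Pool.Agent.Lib.H59M.M2.M082
import Pool.Agent.Lib.H59M.M2.M087
import Pool.Agent.Lib.H59M.M2.M088
import Pool.Agent.Lib.H59M.M2.M090

/-! Merged copies (to shorten the build) of Lib.H24P.P4, Lib.H59P.Z3A, Lib.H59P.Z3, Lib.H59P.X2A, Lib.H59P.X2, Lib.H24P.W1. -/

-- from Lib.H24P.P4
section

/-!
# Project H24P, chunk P4 (M): domination by the model (port of H59P/C3)
-/

open Finset

namespace Pool.Agent.Lib.H24P

open Pool.Agent.Lib.H68T Pool.Agent.Lib.H18Q Pool.Agent.Lib.H59P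

theorem p4_lcm {k : ℕ} (px : Ch) (m0 : ℕ) (hm0 : px.1 ∣ m0) (J : Finset (Fin k)) (p p' : Fin k → Ch)
    (h1 : ∀ i ∈ J, p i = p' i) (h2 : ∀ i, i ∉ J → p i = p0 ∨ p i = px) :
    m0.lcm (univ.lcm fun i => (p i).1) ∣ m0.lcm (univ.lcm fun i => (p' i).1) := by
  refine Nat.lcm_dvd (Nat.dvd_lcm_left _ _) (Finset.lcm_dvd fun i _ => ?_)
  by_cases hi : i ∈ J
  · rw [h1 i hi]
    exact (Finset.dvd_lcm (f := fun i => (p' i).1) (Finset.mem_univ i)).trans (Nat.dvd_lcm_right _ _)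
  · rcases h2 i hi with h | h
    · rw [h]
      exact one_dvd _
    · rw [h]
      exact hm0.trans (Nat.dvd_lcm_left _ _)



end Pool.Agent.Lib.H24P
end

-- from Lib.H59P.Z3A
section

/-!
# Project H59P, chunk Z3a
-/

open Finset

namespace Pool.Agent.Lib.H59P

open Pool.Agent.Lib.H68T Pool.Agent.Lib.H18Q

/-- The mean of the main term is bounded. -/
theorem Z3A_MR {k : ℕ} (Q : ℕ) (p : Fin k → Ch) (R : ℕ) (hR : 0 < R) (hRQ : R ≤ Q) (h : Fin k → ℕ) :
    ‖MR p R h‖ ≤ (2 * (1 + Real.log Q)) ^ k := by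
  have hR0 : (0 : ℝ) < (R : ℝ) := by exact_mod_cast hR
  have hlog : Real.log R ≤ Real.log Q := Real.log_le_log hR0 (by exact_mod_cast hRQ)
  have hB : ∀ n : ℕ, ‖Ph p R.primeFactors h n‖ ≤ (2 * (1 + Real.log Q)) ^ k := by
    intro n
    refine (M3a_Ph p R.primeFactors (fun l hl => Nat.prime_of_mem_primeFactors hl) h n).trans ?_
    have h1 : ∀ i : Fin k, uu R.primeFactors ((n : ℤ) + h i) ≤ 2 * (1 + Real.log Q) := by
      intro i
      refine ((M3a_uu R hR _).2).trans ((M3b R hR).trans ?_)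
      linarith
    calc ∏ i, uu R.primeFactors ((n : ℤ) + h i) ≤ ∏ _i : Fin k, (2 * (1 + Real.log Q)) :=
          Finset.prod_le_prod (fun i _ => (M3a_uu R hR _).1) (fun i _ => h1 i)
      _ = (2 * (1 + Real.log Q)) ^ k := by
          rw [Finset.prod_const, Finset.card_univ, Fintype.card_fin]
  unfold MR
  rw [norm_div, Complex.norm_natCast, div_le_iff₀ hR0]
  refine (norm_sum_le _ _).trans ?_
  refine (Finset.sum_le_sum fun n _ => hB n).trans ?_
  rw [Finset.sum_const, Finset.card_range, nsmul_eq_mul, mul_comm]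

/-- **Z3a.** The truncated and the complete main term of a cell, for `h` with small tails.

Proof. For `p ∈ TS`, `R = Rp px p`: `‖MR p R h‖ ≤ (R/φ(R))^k ≤ (2(1+log Q))^k` (`M3a_Ph`, `M3a_uu`, `M3b`;
`R ≤ D1 ≤ Q`), and `MR p R h · SS (…) = MQ Q p h` (`M5`; `R ∣ Q!` since all the conductors are `≤ Q`:
`Nat.dvd_factorial`, `Nat.lcm_dvd`, `Finset.lcm_dvd`). `∑ ∏ ‖c‖ ≤ 3^k`. -/
theorem Z3a {k : ℕ} (Q : ℕ) (hQ : 1 ≤ Q) (px : Ch) (hpx : px ∈ PC Q) (c : Fin k → Ch → ℂ)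
    (hc : ∀ i, ∑ p ∈ PC Q, ‖c i p‖ ≤ 3) (h : Fin k → ℕ) (τ : ℝ)
    (hτ : ∀ R : ℕ, 1 ≤ R → R ≤ Nat.sqrt (Nat.sqrt Q) →
      |∑ d ∈ SF (Nat.sqrt Q / R) R, td d h - SS ((pr Q).filter (fun l => ¬ l ∣ R)) h| ≤ τ) :
    ‖MC Q px c h - ∑ p ∈ TS k Q (Nat.sqrt (Nat.sqrt Q)) px, (∏ i, c i (p i)) * MQ Q p h‖ ≤
      (6 * (1 + Real.log Q)) ^ k * τ := by
  classical
  have hpos : 0 < Nat.sqrt (Nat.sqrt Q) := by
    rw [Nat.sqrt_pos, Nat.sqrt_pos]; exact hQ
  have hτ0 : 0 ≤ τ := (abs_nonneg _).trans (hτ 1 le_rfl hpos)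
  have hlog0 : 0 ≤ Real.log Q := Real.log_natCast_nonneg Q
  have hterm : ∀ p ∈ TS k Q (Nat.sqrt (Nat.sqrt Q)) px,
      ‖(∏ i, c i (p i)) * (MR p (Rp px p) h *
          ((∑ d ∈ SF (Nat.sqrt Q / Rp px p) (Rp px p), td d h : ℝ) : ℂ)) -
        (∏ i, c i (p i)) * MQ Q p h‖ ≤ (∏ i, ‖c i (p i)‖) * ((2 * (1 + Real.log Q)) ^ k * τ) := by
    intro p hp
    unfold TS at hp
    rw [Finset.mem_filter, Fintype.mem_piFinset] at hp
    obtain ⟨hp1, hp2⟩ := hp
    have hRle : Rp px p ≤ Nat.sqrt (Nat.sqrt Q) := hp2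
    have hRQ : Rp px p ≤ Q := hRle.trans ((Nat.sqrt_le_self _).trans (Nat.sqrt_le_self _))
    have hR0 : 0 < Rp px p := by
      have h1 : (univ.lcm fun i => (p i).1) ≠ 0 := by
        intro h0
        rw [Finset.lcm_eq_zero_iff] at h0
        obtain ⟨i, _, h2⟩ := h0
        have h3 : 0 < (p i).1 := (mem_PC.mp (hp1 i)).1
        exact h3.ne' h2
      unfold Rp
      exact Nat.lcm_pos (mem_PC.mp hpx).1 (Nat.pos_of_ne_zero h1)
    have hd : ∀ i, (p i).1 ∣ Rp px p := by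
      intro i
      unfold Rp
      exact (Finset.dvd_lcm (f := fun i => (p i).1) (Finset.mem_univ i)).trans (Nat.dvd_lcm_right _ _)
    have hfac : Rp px p ∣ Q.factorial := by
      unfold Rp
      refine Nat.lcm_dvd (Nat.dvd_factorial (mem_PC.mp hpx).1 (mem_PC.mp hpx).2.1) ?_
      refine Finset.lcm_dvd fun i _ => ?_
      exact Nat.dvd_factorial (mem_PC.mp (hp1 i)).1 (mem_PC.mp (hp1 i)).2.1
    rw [← M5 Q (Rp px p) hR0 hfac p hd h, ← mul_sub, ← mul_sub, norm_mul, norm_mul, norm_prod,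
      ← Complex.ofReal_sub, Complex.norm_real, Real.norm_eq_abs]
    have h1 := Z3A_MR Q p (Rp px p) hR0 hRQ h
    have h2 := hτ (Rp px p) hR0 hRle
    have h3 : ‖MR p (Rp px p) h‖ * |∑ d ∈ SF (Nat.sqrt Q / Rp px p) (Rp px p), td d h -
        SS ((pr Q).filter (fun l => ¬ l ∣ Rp px p)) h| ≤ (2 * (1 + Real.log Q)) ^ k * τ :=
      mul_le_mul h1 h2 (abs_nonneg _) (by positivity)
    exact mul_le_mul_of_nonneg_left h3 (Finset.prod_nonneg fun i _ => norm_nonneg _)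
  have hsum : ∑ p ∈ TS k Q (Nat.sqrt (Nat.sqrt Q)) px, ∏ i, ‖c i (p i)‖ ≤ 3 ^ k := by
    calc ∑ p ∈ TS k Q (Nat.sqrt (Nat.sqrt Q)) px, ∏ i, ‖c i (p i)‖
        ≤ ∑ p ∈ Fintype.piFinset fun _ : Fin k => PC Q, ∏ i, ‖c i (p i)‖ := by
          refine Finset.sum_le_sum_of_subset_of_nonneg ?_ ?_
          · intro p hp
            unfold TS at hp
            exact (Finset.mem_filter.mp hp).1
          · intro p _ _
            exact Finset.prod_nonneg fun i _ => norm_nonneg _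
      _ = ∏ i, ∑ q ∈ PC Q, ‖c i q‖ := by
          rw [Finset.prod_univ_sum]
      _ ≤ ∏ _i : Fin k, (3 : ℝ) :=
          Finset.prod_le_prod (fun i _ => Finset.sum_nonneg fun _ _ => norm_nonneg _) fun i _ => hc i
      _ = 3 ^ k := by
          rw [Finset.prod_const, Finset.card_univ, Fintype.card_fin]
  unfold MC
  rw [← Finset.sum_sub_distrib]
  refine (norm_sum_le _ _).trans ?_
  refine (Finset.sum_le_sum hterm).trans ?_
  rw [← Finset.sum_mul]
  have h6 : (6 * (1 + Real.log Q)) ^ k * τ = 3 ^ k * ((2 * (1 + Real.log Q)) ^ k * τ) := by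
    rw [← mul_assoc, ← mul_pow]
    ring
  rw [h6]
  exact mul_le_mul_of_nonneg_right hsum (by positivity)

end Pool.Agent.Lib.H59P
end

-- from Lib.H59P.Z3
section

/-!
# Project H59P, chunk Z3
-/

open Finset

namespace Pool.Agent.Lib.H59P

open Pool.Agent.Lib.H68T Pool.Agent.Lib.H18Q

/-- **Z3.** Proof. For each `j` the arguments `X + jH + bs H (h i)` are in `[X, 4X]`; with `c_i` the coefficients
there, `Z3a` and `C3` (`th_i = th (X + jH + bs H (h i))`, `MX px th m p = MX px (fun _ => th m) 0 p`) give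
`Re (MC) ≥ PM/2 - (6(1+log Q))^k τ ≥ m/2 - …` (`hm`); sum over `j < Q^8`, times `H`; `H Q^8 = X`. -/
theorem Z3 {k : ℕ} (Q X H : ℕ) (hQ : 1 ≤ Q) (hX : X = H * Q ^ 8) (hX0 : 0 < X) (η E0 : ℝ) (px : Ch)
    (th : ℤ → ℝ) (hM : Mdl Q X η E0 px th) (hE0 : 0 ≤ E0) (hE1 : E0 ≤ 1) (hE : 4 * k * E0 ≤ 1)
    (hcond : px.1 ≤ Nat.sqrt (Nat.sqrt Q))
    (e : ℤ → Ch → ℂ) (eb mb : Ch → ℝ) (heb : ∑ p ∈ PC Q, eb p ≤ η * E0)
    (he : ∀ m : ℤ, (X : ℤ) ≤ m → m ≤ 4 * X → ∀ p ∈ PC Q, ‖e m p‖ ≤ eb p)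
    (hcf : Cf Q X (fun m p => MX px th m p + e m p) mb)
    (h : Fin k → ℕ) (hh : h ∈ bx k X) (τ m : ℝ)
    (hτ : ∀ R : ℕ, 1 ≤ R → R ≤ Nat.sqrt (Nat.sqrt Q) →
      |∑ d ∈ SF (Nat.sqrt Q / R) R, td d h - SS ((pr Q).filter (fun l => ¬ l ∣ R)) h| ≤ τ)
    (hm : ∀ th' : Fin k → ℝ, (∀ i, 0 ≤ th' i) → (∀ i, th' i ≤ 1 - η) → (px = p0 → ∀ i, th' i = 0) →
      m ≤ PM Q px th' h) :
    X * (m / 2 - (6 * (1 + Real.log Q)) ^ k * τ) ≤
      (MT Q X H px (fun m p => MX px th m p + e m p) h).re := by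
  have hXr : (X : ℝ) = H * (Q : ℝ) ^ 8 := by
    rw [hX]
    push_cast
    ring
  have hhi : ∀ i, h i < X := by
    intro i
    have := Fintype.mem_piFinset.1 hh i
    exact Finset.mem_range.1 this
  have hbsle : ∀ m : ℕ, bs H m ≤ m := fun m => Nat.div_mul_le_self m H
  have harg : ∀ j ∈ range (Q ^ 8), ∀ i : Fin k,
      (X : ℤ) ≤ ((X + j * H + bs H (h i) : ℕ) : ℤ) ∧ ((X + j * H + bs H (h i) : ℕ) : ℤ) ≤ 4 * X := by
    intro j hj i
    have h1 := hbsle (h i)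
    have h2 := hhi i
    have h3 : j * H ≤ X := by
      rw [hX, mul_comm]
      exact Nat.mul_le_mul_left _ (Finset.mem_range.1 hj).le
    constructor <;> omega
  have hcell : ∀ j ∈ range (Q ^ 8), m / 2 - (6 * (1 + Real.log Q)) ^ k * τ ≤
      (MC Q px (fun i => (fun m p => MX px th m p + e m p) (((X + j * H + bs H (h i) : ℕ) : ℤ))) h).re := by
    intro j hj
    set a : Fin k → ℤ := fun i => ((X + j * H + bs H (h i) : ℕ) : ℤ) with ha
    have ha1 : ∀ i, (X : ℤ) ≤ a i := fun i => (harg j hj i).1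
    have ha2 : ∀ i, a i ≤ 4 * X := fun i => (harg j hj i).2
    have hc : ∀ i, ∑ p ∈ PC Q, ‖MX px th (a i) p + e (a i) p‖ ≤ 3 := fun i =>
      (Finset.sum_le_sum fun p hp => hcf.le (a i) (ha1 i) (ha2 i) p hp).trans hcf.sum
    have z1 := Z3a Q hQ px hM.mem (fun i p => MX px th (a i) p + e (a i) p) hc h τ hτ
    have z2 := C3 Q (Nat.sqrt (Nat.sqrt Q)) hQ η E0 px hM.mem hM.real hcond hM.eta_pos hE0 hE
      (fun i => th (a i)) (fun i => hM.nonneg _ (ha1 i) (ha2 i)) (fun i => hM.le _ (ha1 i) (ha2 i))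
      (fun h0 i => hM.triv h0 _) (fun i => e (a i))
      (fun i => (Finset.sum_le_sum fun p hp => he (a i) (ha1 i) (ha2 i) p hp).trans heb) h
    have z3 := hm (fun i => th (a i)) (fun i => hM.nonneg _ (ha1 i) (ha2 i))
      (fun i => hM.le _ (ha1 i) (ha2 i)) (fun h0 i => hM.triv h0 _)
    have hS : ∑ p ∈ TS k Q (Nat.sqrt (Nat.sqrt Q)) px,
        (∏ i, (MX px (fun _ => th (a i)) 0 (p i) + e (a i) (p i))) * MQ Q p h =
        ∑ p ∈ TS k Q (Nat.sqrt (Nat.sqrt Q)) px,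
        (∏ i, (MX px th (a i) (p i) + e (a i) (p i))) * MQ Q p h := rfl
    rw [hS] at z2
    set S : ℂ := ∑ p ∈ TS k Q (Nat.sqrt (Nat.sqrt Q)) px,
        (∏ i, (MX px th (a i) (p i) + e (a i) (p i))) * MQ Q p h with hSdef
    set P : ℝ := PM Q px (fun i => th (a i)) h with hP
    have y2 : -(1 / 2 * P) ≤ (S - ((P : ℝ) : ℂ)).re := by
      have := (Complex.abs_re_le_norm (S - ((P : ℝ) : ℂ))).trans z2
      exact (abs_le.1 this).1
    rw [Complex.sub_re, Complex.ofReal_re] at y2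
    have y1 := (abs_le.1 ((Complex.abs_re_le_norm _).trans z1)).1
    rw [Complex.sub_re] at y1
    have y3 : MC Q px (fun i => (fun m p => MX px th m p + e m p) (a i)) h =
        MC Q px (fun i p => MX px th (a i) p + e (a i) p) h := rfl
    rw [y3]
    linarith
  unfold MT
  rw [Complex.re_sum]
  have hterm : ∀ j ∈ range (Q ^ 8), (H : ℝ) * (m / 2 - (6 * (1 + Real.log Q)) ^ k * τ) ≤
      ((H : ℂ) * MC Q px (fun i => (fun m p => MX px th m p + e m p)
        (((X + j * H + bs H (h i) : ℕ) : ℤ))) h).re := by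
    intro j hj
    have e1 : ((H : ℂ) * MC Q px (fun i => (fun m p => MX px th m p + e m p)
        (((X + j * H + bs H (h i) : ℕ) : ℤ))) h).re = (H : ℝ) * (MC Q px (fun i => (fun m p => MX px th m p + e m p)
        (((X + j * H + bs H (h i) : ℕ) : ℤ))) h).re := by
      rw [Complex.mul_re]
      simp
    rw [e1]
    exact mul_le_mul_of_nonneg_left (hcell j hj) (Nat.cast_nonneg H)
  calc (X : ℝ) * (m / 2 - (6 * (1 + Real.log Q)) ^ k * τ)
      = ∑ _j ∈ range (Q ^ 8), (H : ℝ) * (m / 2 - (6 * (1 + Real.log Q)) ^ k * τ) := by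
        rw [Finset.sum_const, Finset.card_range, nsmul_eq_mul, hXr]
        push_cast
        ring
    _ ≤ _ := Finset.sum_le_sum hterm

end Pool.Agent.Lib.H59P
end

-- from Lib.H59P.X2A
section

/-!
# Project H59P, chunk X2a
-/

open Finset

namespace Pool.Agent.Lib.H59P

open Pool.Agent.Lib.H68T Pool.Agent.Lib.H18Q

theorem x2a_p0 (m : ℤ) : cj p0 m = 1 := cl1_p0_one m

theorem x2a_real (px : Ch) (hreal : px.2 ^ 2 = 1) (m : ℤ) : (((cj px m).re : ℝ) : ℂ) = cj px m := by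
  unfold cj
  by_cases hu : IsUnit (m : ZMod px.1)
  · have h1 : px.2 (m : ZMod px.1) ^ 2 = 1 := by
      have h2 : (px.2 ^ 2) (m : ZMod px.1) = (1 : DirichletCharacter ℂ px.1) (m : ZMod px.1) := by
        rw [hreal]
      rw [MulChar.one_apply hu] at h2
      rw [← h2, MulChar.pow_apply' _ two_ne_zero]
    have h3 : px.2 (m : ZMod px.1) = 1 ∨ px.2 (m : ZMod px.1) = -1 := by
      have h4 : (px.2 (m : ZMod px.1) - 1) * (px.2 (m : ZMod px.1) + 1) = 0 := by linear_combination h1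
      rcases mul_eq_zero.1 h4 with h5 | h5
      · left; linear_combination h5
      · right; linear_combination h5
    rcases h3 with h | h
    all_goals rw [h]; simp
  · rw [MulChar.map_nonunit _ hu]
    simp

/-- The expansion of the main term. Proof. `∏_i (1 - th_i ψ) = ∑_B ∏_{i∈B} (-th_i) ψ(n+h_i)` (`Finset.prod_add` or
`Finset.prod_one_sub`…), and `M5` with `R = px.1` (`px.1 ∣ Q!`). -/
theorem X2a {k : ℕ} (Q : ℕ) (px : Ch) (hpx : px ∈ PC Q) (hreal : px.2 ^ 2 = 1) (th : Fin k → ℝ)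
    (h : Fin k → ℕ) :
    ((PM Q px th h : ℝ) : ℂ) = ∑ B ∈ (univ : Finset (Fin k)).powerset,
      ((∏ i ∈ B, -(th i) : ℝ) : ℂ) * (MR (pB px B) px.1 h *
        ((SS ((pr Q).filter (fun l => ¬ l ∣ px.1)) h : ℝ) : ℂ)) := by
  classical
  obtain ⟨hr1, hrQ, hprim⟩ := mem_PC.1 hpx
  have h1 : ∀ B : Finset (Fin k), MR (pB px B) px.1 h *
        ((SS ((pr Q).filter (fun l => ¬ l ∣ px.1)) h : ℝ) : ℂ) = MQ Q (pB px B) h := by
    intro B
    refine M5 Q px.1 (by omega) (Nat.dvd_factorial (by omega) hrQ) (pB px B) ?_ h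
    intro i
    unfold pB
    split_ifs
    · exact dvd_rfl
    · exact one_dvd _
  rw [sum_congr rfl fun B _ => by rw [h1 B]]
  have h2 : ∀ n : ℤ, ((fP Q px th h n : ℝ) : ℂ) = ∑ B ∈ (univ : Finset (Fin k)).powerset,
      ((∏ i ∈ B, -(th i) : ℝ) : ℂ) * Ph (pB px B) (pr Q) h n := by
    intro n
    unfold fP
    rw [Complex.ofReal_prod]
    have e1 : ∀ i : Fin k, ((uu (pr Q) (n + h i) * (1 - th i * (cj px (n + h i)).re) : ℝ) : ℂ) =
        ((uu (pr Q) (n + h i) : ℝ) : ℂ) * ((((-(th i) : ℝ)) : ℂ) * cj px (n + h i) + 1) := by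
      intro i
      push_cast
      rw [x2a_real px hreal]
      ring
    rw [prod_congr rfl fun i _ => e1 i, prod_mul_distrib, Finset.prod_add, mul_sum]
    refine sum_congr rfl fun B hB => ?_
    unfold Ph
    rw [prod_mul_distrib, prod_mul_distrib, prod_const_one, mul_one, Complex.ofReal_prod]
    have e2 : ∏ i, cj (pB px B i) (n + h i) = ∏ i ∈ B, cj px (n + h i) := by
      rw [← prod_subset (subset_univ B)]
      · refine prod_congr rfl fun i hi => ?_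
        unfold pB
        rw [if_pos hi]
      · intro i _ hi
        unfold pB
        rw [if_neg hi, x2a_p0]
    rw [e2]
    ring
  unfold PM MQ
  rw [Complex.ofReal_div, Complex.ofReal_sum, sum_congr rfl fun (n : ℕ) _ => h2 (n : ℤ), sum_comm,
    sum_div]
  refine sum_congr rfl fun B _ => ?_
  rw [← mul_sum, mul_div_assoc]
  norm_cast

end Pool.Agent.Lib.H59P
end

-- from Lib.H59P.X2
section

/-!
# Project H59P, chunk X2
-/

open Finset

namespace Pool.Agent.Lib.H59P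

open Pool.Agent.Lib.H68T Pool.Agent.Lib.H18Q

theorem x2_SS_nonneg {k : ℕ} (P : Finset ℕ) (hP : ∀ l ∈ P, l.Prime) (h : Fin k → ℕ) :
    0 ≤ SS P h :=
  Finset.prod_nonneg fun l hl => (M3a_tp l (hP l hl) h 0).2.2.1

theorem x2_mem_pr {Q l : ℕ} : l ∈ pr Q ↔ l.Prime ∧ l ≤ Q := by
  unfold pr
  rw [Finset.mem_filter, Finset.mem_Icc]
  constructor
  · rintro ⟨⟨_, h2⟩, h3⟩
    exact ⟨h3, h2⟩
  · rintro ⟨h1, h2⟩
    exact ⟨⟨h1.one_lt.le, h2⟩, h1⟩

/-- **X2.** Proof. `SS (pr Q) h = SS (primes ∣ r) h · SS (primes ∤ r) h` and `MR (pB px ∅) r h = SS (primes ∣ r) h`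
(`M5_loc`). By `X2a`, `PM ≥ SS (primes ∤ r) (SS (primes ∣ r) - ∑_{B ≠ ∅} ‖MR (pB px B) r h‖)`
(`|th_i| ≤ 1`), and the sum is at most `2^k` times the maximum. -/
theorem X2 {k : ℕ} (Q : ℕ) (px : Ch) (hpx : px ∈ PC Q) (hreal : px.2 ^ 2 = 1) (th : Fin k → ℝ)
    (hth0 : ∀ i, 0 ≤ th i) (hth : ∀ i, th i ≤ 1) (h : Fin k → ℕ)
    (hm : ∀ B : Finset (Fin k), B.Nonempty →
      2 ^ (k + 1) * ‖MR (pB px B) px.1 h‖ ≤ SS px.1.primeFactors h) :
    1 / 2 * SS (pr Q) h ≤ PM Q px th h := by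
  classical
  have hpc := mem_PC.mp hpx
  have hr : 0 < px.1 := hpc.1
  set S : ℝ := SS px.1.primeFactors h with hS
  set S' : ℝ := SS ((pr Q).filter (fun l => ¬ l ∣ px.1)) h with hS'
  have hS0 : 0 ≤ S := x2_SS_nonneg _ (fun l hl => Nat.prime_of_mem_primeFactors hl) h
  have hS'0 : 0 ≤ S' := x2_SS_nonneg _ (fun l hl => (x2_mem_pr.mp (Finset.mem_filter.mp hl).1).1) h
  have hsplit : SS (pr Q) h = S * S' := by
    have h1 : (pr Q).filter (fun l => l ∣ px.1) = px.1.primeFactors := by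
      ext l
      rw [Finset.mem_filter, x2_mem_pr, Nat.mem_primeFactors]
      constructor
      · rintro ⟨⟨h1, _⟩, h3⟩
        exact ⟨h1, h3, hr.ne'⟩
      · rintro ⟨h1, h3, _⟩
        exact ⟨⟨h1, (Nat.le_of_dvd hr h3).trans hpc.2.1⟩, h3⟩
    rw [hS, hS', ← h1]
    unfold SS
    exact (Finset.prod_filter_mul_prod_filter_not (pr Q) (fun l => l ∣ px.1)
      (fun l => 1 + tp l h)).symm
  have hempty : MR (pB px (∅ : Finset (Fin k))) px.1 h = ((S : ℝ) : ℂ) := by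
    have h1 : (pB px (∅ : Finset (Fin k))) = fun _ => p0 := by
      funext i
      simp [pB]
    rw [h1]
    exact M5_loc px.1 hr h
  have hX := X2a Q px hpx hreal th h
  -- take real parts
  set E : Finset (Fin k) → ℂ := fun B => ((∏ i ∈ B, -(th i) : ℝ) : ℂ) * MR (pB px B) px.1 h with hE
  have hX' : ((PM Q px th h : ℝ) : ℂ) = (∑ B ∈ (univ : Finset (Fin k)).powerset, E B) * (S' : ℂ) := by
    rw [hX, Finset.sum_mul]
    refine Finset.sum_congr rfl fun B _ => ?_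
    simp only [hE]
    ring
  have hne : (∅ : Finset (Fin k)) ∈ (univ : Finset (Fin k)).powerset := by simp
  rw [← Finset.add_sum_erase _ E hne] at hX'
  have hE0 : E ∅ = ((S : ℝ) : ℂ) := by
    simp only [hE, Finset.prod_empty, hempty]
    simp
  rw [hE0] at hX'
  have hre : PM Q px th h = (S + (∑ B ∈ (univ : Finset (Fin k)).powerset.erase ∅, E B).re) * S' := by
    have h1 := congrArg Complex.re hX'
    rw [Complex.ofReal_re, Complex.re_mul_ofReal, Complex.add_re, Complex.ofReal_re] at h1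
    exact h1
  have hbound : ‖∑ B ∈ (univ : Finset (Fin k)).powerset.erase ∅, E B‖ ≤ S / 2 := by
    refine (norm_sum_le _ _).trans ?_
    have h1 : ∀ B ∈ (univ : Finset (Fin k)).powerset.erase ∅, ‖E B‖ ≤ S / 2 ^ (k + 1) := by
      intro B hB
      have hBn : B.Nonempty := Finset.nonempty_iff_ne_empty.mpr (Finset.mem_erase.mp hB).1
      simp only [hE]
      rw [norm_mul, Complex.norm_real]
      have h2 : ‖(∏ i ∈ B, -(th i) : ℝ)‖ ≤ 1 := by
        rw [norm_prod]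
        refine Finset.prod_le_one (fun i _ => norm_nonneg _) fun i _ => ?_
        rw [norm_neg, Real.norm_eq_abs, abs_of_nonneg (hth0 i)]
        exact hth i
      have h3 := hm B hBn
      have h4 : ‖MR (pB px B) px.1 h‖ ≤ S / 2 ^ (k + 1) := by
        rw [le_div_iff₀ (by positivity), mul_comm]
        exact h3
      calc ‖(∏ i ∈ B, -(th i) : ℝ)‖ * ‖MR (pB px B) px.1 h‖ ≤ 1 * ‖MR (pB px B) px.1 h‖ :=
            mul_le_mul_of_nonneg_right h2 (norm_nonneg _)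
        _ ≤ S / 2 ^ (k + 1) := by rw [one_mul]; exact h4
    refine (Finset.sum_le_sum h1).trans ?_
    rw [Finset.sum_const, nsmul_eq_mul]
    have h5 : (((univ : Finset (Fin k)).powerset.erase ∅).card : ℝ) ≤ 2 ^ k := by
      have h6 : ((univ : Finset (Fin k)).powerset.erase ∅).card ≤
          (univ : Finset (Fin k)).powerset.card := Finset.card_erase_le
      rw [Finset.card_powerset, Finset.card_univ, Fintype.card_fin] at h6
      exact_mod_cast h6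
    have h7 : 0 ≤ S / 2 ^ (k + 1) := by positivity
    calc (((univ : Finset (Fin k)).powerset.erase ∅).card : ℝ) * (S / 2 ^ (k + 1))
        ≤ 2 ^ k * (S / 2 ^ (k + 1)) := mul_le_mul_of_nonneg_right h5 h7
      _ = S / 2 := by rw [pow_succ]; field_simp
  have hre2 : -(S / 2) ≤ (∑ B ∈ (univ : Finset (Fin k)).powerset.erase ∅, E B).re := by
    have h1 := Complex.abs_re_le_norm (∑ B ∈ (univ : Finset (Fin k)).powerset.erase ∅, E B)
    have h2 := (abs_le.mp (h1.trans hbound)).1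
    exact h2
  rw [hre, hsplit]
  have h3 : S / 2 * S' ≤
      (S + (∑ B ∈ (univ : Finset (Fin k)).powerset.erase ∅, E B).re) * S' :=
    mul_le_mul_of_nonneg_right (by linarith) hS'0
  linarith

end Pool.Agent.Lib.H59P
end

-- from Lib.H24P.W1
section

/-!
# Project H24P, chunk W1 (M): Fourier uniform weights
-/

open Finset Polynomial

namespace Pool.Agent.Lib.H24P

open Pool.Agent.Lib.H68T Pool.Agent.Lib.H18Q Pool.Agent.Lib.H59P

theorem w1_mul (f : ℤ → ℂ) (q : ℕ) (hf : ∀ m, f (m + q) = f m) (m k : ℤ) :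
    f (m + k * q) = f m := by
  induction k using Int.induction_on with
  | zero => simp
  | succ i ih =>
    rw [show m + ((i : ℤ) + 1) * q = m + i * q + q by ring, hf, ih]
  | pred i ih =>
    have := hf (m + (-(i : ℤ) - 1) * q)
    rw [← this, show m + (-(i : ℤ) - 1) * q + q = m + -(i : ℤ) * q by ring, ih]

/-- A weight without correlation with additive characters against a periodic function. Proof. With
`S_c = ∑_n f(n) e(n c/N)`: `∑_{n ≡ m} f(n) = (1/N) ∑_{c<N} e(-c m/N) S_c`, so the sum is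
`∑_{m<N} ψ(m) (1/N) ∑_c e(-c m/N) S_c`, at most `N Φ δ`. -/
theorem W1_per (f : ℕ → ℂ) (I : Finset ℕ) (δ : ℝ)
    (hf : ∀ θ : ℝ, ‖∑ n ∈ I, f n * e ((n : ℝ) * θ)‖ ≤ δ) (N : ℕ) (hN : 0 < N) (ψ : ℤ → ℂ)
    (hψ : ∀ n, ψ (n + N) = ψ n) (Φ : ℝ) (hΦ : ∀ n, ‖ψ n‖ ≤ Φ) :
    ‖∑ n ∈ I, f n * ψ n‖ ≤ N * Φ * δ := by
  have hδ : 0 ≤ δ := (norm_nonneg _).trans (hf 0)
  have hΦ0 : 0 ≤ Φ := (norm_nonneg _).trans (hΦ 0)
  have hNr : (0 : ℝ) < N := by exact_mod_cast hN
  have hNc : (N : ℂ) ≠ 0 := by exact_mod_cast hN.ne'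
  have h1 : ∀ n : ℕ, ψ (n : ℤ) = ∑ m ∈ range N, if (N : ℤ) ∣ (n : ℤ) - m then ψ (m : ℤ) else 0 := by
    intro n
    have h2 : ψ (n : ℤ) = ψ ((n % N : ℕ) : ℤ) := by
      have h3 : (n : ℤ) = ((n % N : ℕ) : ℤ) + ((n / N : ℕ) : ℤ) * N := by
        have h4 := Nat.mod_add_div' n N
        exact_mod_cast h4.symm
      rw [h3]
      exact w1_mul ψ N hψ _ _
    rw [sum_eq_single (n % N)]
    · rw [if_pos, h2]
      have h4 : ((n : ℤ) - ((n % N : ℕ) : ℤ)) = N * ((n / N : ℕ) : ℤ) := by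
        have h5 := Nat.mod_add_div n N
        have h6 : ((n % N : ℕ) : ℤ) + N * ((n / N : ℕ) : ℤ) = n := by exact_mod_cast h5
        linarith
      rw [h4]
      exact dvd_mul_right _ _
    · intro m hm hne
      rw [if_neg]
      intro hd
      apply hne
      have h4 := mem_range.mp hm
      have h5 : m % N = n % N := by
        have h6 : (m : ℤ) ≡ n [ZMOD N] := Int.modEq_iff_dvd.mpr hd
        have h7 : m ≡ n [MOD N] := (Int.natCast_modEq_iff).mp h6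
        exact h7
      rw [← h5, Nat.mod_eq_of_lt h4]
    · intro h
      exact absurd (mem_range.mpr (Nat.mod_lt n hN)) h
  have h2 : ∀ n : ℕ, ψ (n : ℤ) = (N : ℂ)⁻¹ * ∑ c ∈ range N,
      (∑ m ∈ range N, ψ (m : ℤ) * e (-(c * ((m : ℝ) / N)))) * e ((n : ℝ) * (c / N)) := by
    intro n
    have h3 : ∑ c ∈ range N, (∑ m ∈ range N, ψ (m : ℤ) * e (-(c * ((m : ℝ) / N)))) * e ((n : ℝ) * (c / N))
        = ∑ m ∈ range N, ψ (m : ℤ) * ∑ c ∈ range N, e (c * ((((n : ℤ) - m : ℤ) : ℝ) / N)) := by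
      simp_rw [sum_mul, mul_sum]
      rw [sum_comm]
      refine sum_congr rfl fun m _ => sum_congr rfl fun c _ => ?_
      rw [mul_assoc, ← CQ1_e_add]
      congr 2
      push_cast
      field_simp
      ring
    rw [h3, h1 n, mul_sum]
    refine sum_congr rfl fun m _ => ?_
    rw [CQ1_geom N hN]
    split_ifs
    · field_simp
    · simp
  have h3 : ∑ n ∈ I, f n * ψ n = (N : ℂ)⁻¹ * ∑ c ∈ range N,
      (∑ m ∈ range N, ψ (m : ℤ) * e (-(c * ((m : ℝ) / N)))) * ∑ n ∈ I, f n * e ((n : ℝ) * (c / N)) := by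
    have h4 : ∀ n ∈ I, f n * ψ n = ∑ c ∈ range N, (N : ℂ)⁻¹ *
        ((∑ m ∈ range N, ψ (m : ℤ) * e (-(c * ((m : ℝ) / N)))) * (f n * e ((n : ℝ) * (c / N)))) := by
      intro n _
      rw [h2 n, ← mul_sum, mul_left_comm, mul_sum]
      congr 1
      refine sum_congr rfl fun c _ => ?_
      ring
    rw [sum_congr rfl h4, sum_comm, mul_sum]
    refine sum_congr rfl fun c _ => ?_
    rw [← mul_sum, ← mul_sum]
  rw [h3, norm_mul, norm_inv]
  have h5 : ‖∑ c ∈ range N, (∑ m ∈ range N, ψ (m : ℤ) * e (-(c * ((m : ℝ) / N)))) *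
      ∑ n ∈ I, f n * e ((n : ℝ) * (c / N))‖ ≤ N * (N * Φ * δ) := by
    refine (norm_sum_le _ _).trans ?_
    have h6 : ∀ c ∈ range N, ‖(∑ m ∈ range N, ψ (m : ℤ) * e (-(c * ((m : ℝ) / N)))) *
        ∑ n ∈ I, f n * e ((n : ℝ) * (c / N))‖ ≤ N * Φ * δ := by
      intro c _
      rw [norm_mul]
      refine mul_le_mul ?_ (hf _) (norm_nonneg _) (by positivity)
      refine (norm_sum_le _ _).trans ?_
      have h7 : ∀ m ∈ range N, ‖ψ (m : ℤ) * e (-(c * ((m : ℝ) / N)))‖ ≤ Φ := by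
        intro m _
        have h8 : ‖e (-(c * ((m : ℝ) / N)))‖ = 1 := by
          unfold e
          have h9 : (2 * Real.pi * ((-(c * ((m : ℝ) / N)) : ℝ) : ℂ) * Complex.I : ℂ)
              = ((2 * Real.pi * (-(c * ((m : ℝ) / N))) : ℝ) : ℂ) * Complex.I := by push_cast; ring
          rw [h9, Complex.norm_exp_ofReal_mul_I]
        rw [norm_mul, h8, mul_one]
        exact hΦ _
      refine (sum_le_sum h7).trans ?_
      rw [sum_const, card_range, nsmul_eq_mul]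
    refine (sum_le_sum h6).trans ?_
    rw [sum_const, card_range, nsmul_eq_mul]
  have h10 : ‖(N : ℂ)‖ = N := by simp
  rw [h10]
  calc (N : ℝ)⁻¹ * _ ≤ (N : ℝ)⁻¹ * (N * (N * Φ * δ)) :=
        mul_le_mul_of_nonneg_left h5 (by positivity)
    _ = N * Φ * δ := by field_simp

/-- The components with bounded moduli. Proof. `κ ∈ T` have `r_i κ_i ≤ D`, so there are at most `D^k` of them,
`‖gk (p i) κ_i m‖ ≤ r_i ≤ D` (`gk_bound` with `Q = D`... or directly as in its proof: `r/φ(r) ≤ r` and the other factors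
are at most `1`), the product has period `lcm(r_i κ_i) ≤ D` in `n` (`gk_period`, `Polynomial.sub_dvd_eval_sub`):
`W1_per`. -/
theorem W1_small {k : ℕ} (P : Fin k → ℤ[X]) (Q D : ℕ) (hD : 1 ≤ D) (p : Fin k → Ch)
    (hp : ∀ i, p i ∈ PC Q) (T : Finset (Fin k → ℕ)) (hT : T ⊆ Fintype.piFinset (fun i => KS Q (p i).1))
    (hTD : ∀ κ ∈ T, univ.lcm (fun i => (p i).1 * κ i) ≤ D) (f : ℕ → ℂ) (I : Finset ℕ) (δ : ℝ)
    (hf : ∀ θ : ℝ, ‖∑ n ∈ I, f n * e ((n : ℝ) * θ)‖ ≤ δ) (h : Fin k → ℕ) :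
    ‖∑ n ∈ I, f n * ∑ κ ∈ T, ∏ i, gk (p i) (κ i) ((P i).eval (n : ℤ) + h i)‖ ≤
      (D : ℝ) ^ (2 * k + 1) * δ := by
  have hδ : 0 ≤ δ := (norm_nonneg _).trans (hf 0)
  have hDr : (1 : ℝ) ≤ D := by exact_mod_cast hD
  have h1 : ∑ n ∈ I, f n * ∑ κ ∈ T, ∏ i, gk (p i) (κ i) ((P i).eval (n : ℤ) + h i)
      = ∑ κ ∈ T, ∑ n ∈ I, f n * ∏ i, gk (p i) (κ i) ((P i).eval (n : ℤ) + h i) := by
    simp_rw [mul_sum]
    exact sum_comm
  rw [h1]
  refine (norm_sum_le _ _).trans ?_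
  have hKS : ∀ κ ∈ T, ∀ i, κ i ∈ KS Q (p i).1 := fun κ hκ i => Fintype.mem_piFinset.mp (hT hκ) i
  have hle : ∀ κ ∈ T, ∀ i, (p i).1 * κ i ≤ D := by
    intro κ hκ i
    have hpos : 0 < univ.lcm (fun i => (p i).1 * κ i) := by
      rw [Nat.pos_iff_ne_zero, Ne, Finset.lcm_eq_zero_iff]
      rintro ⟨j, -, hj⟩
      have h2 := (mem_PC.1 (hp j)).1
      have h3 := (CA_mem_KS.1 (hKS κ hκ j)).1
      have h4 : 1 ≤ κ j := h3.1
      have h5 : 0 < (p j).1 * κ j := Nat.mul_pos h2 h4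
      omega
    exact (Nat.le_of_dvd hpos (dvd_lcm (mem_univ i))).trans (hTD κ hκ)
  have h2 : ∀ κ ∈ T, ‖∑ n ∈ I, f n * ∏ i, gk (p i) (κ i) ((P i).eval (n : ℤ) + h i)‖
      ≤ (D : ℝ) ^ (k + 1) * δ := by
    intro κ hκ
    set N : ℕ := univ.lcm (fun i => (p i).1 * κ i) with hN
    have hND : N ≤ D := hTD κ hκ
    have hN0 : 0 < N := by
      rw [Nat.pos_iff_ne_zero, hN, Ne, Finset.lcm_eq_zero_iff]
      rintro ⟨j, -, hj⟩
      have h2 := (mem_PC.1 (hp j)).1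
      have h3 := (CA_mem_KS.1 (hKS κ hκ j)).1
      have h4 : 1 ≤ κ j := h3.1
      have h5 : 0 < (p j).1 * κ j := Nat.mul_pos h2 h4
      omega
    have h3 := W1_per f I δ hf N hN0 (fun n => ∏ i, gk (p i) (κ i) ((P i).eval n + h i)) (by
      intro n
      refine prod_congr rfl fun i _ => ?_
      have h4 : (((p i).1 * κ i : ℕ) : ℤ) ∣ (P i).eval (n + N) - (P i).eval n := by
        have h5 : (n + (N : ℤ)) - n ∣ (P i).eval (n + N) - (P i).eval n := sub_dvd_eval_sub _ _ _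
        rw [add_sub_cancel_left] at h5
        refine dvd_trans ?_ h5
        have h6 : (p i).1 * κ i ∣ N := dvd_lcm (mem_univ i)
        exact_mod_cast h6
      obtain ⟨j, hj⟩ := h4
      have h7 : (P i).eval (n + N) + (h i : ℤ) = ((P i).eval n + h i) + (((p i).1 * κ i : ℕ) : ℤ) * j := by
        linarith
      rw [h7]
      exact gk_period _ _ _ _) ((D : ℝ) ^ k) (by
      intro n
      rw [norm_prod]
      calc ∏ i, ‖gk (p i) (κ i) ((P i).eval n + h i)‖ ≤ ∏ _i : Fin k, (D : ℝ) := by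
            refine prod_le_prod (fun i _ => norm_nonneg _) fun i _ => ?_
            obtain ⟨hr1, hrQ, hprim⟩ := mem_PC.1 (hp i)
            obtain ⟨hI, hsq, hcop⟩ := CA_mem_KS.1 (hKS κ hκ i)
            have hk1 : 1 ≤ κ i := hI.1
            have hiD := hle κ hκ i
            refine gk_bound D (p i) (mem_PC.2 ⟨hr1, ?_, hprim⟩) (κ i) (CA_mem_KS.2 ⟨?_, hsq, hcop⟩) _
            · exact (Nat.le_mul_of_pos_right _ hk1).trans hiD
            · refine ⟨hk1, ?_⟩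
              rw [Nat.le_div_iff_mul_le hr1, mul_comm]
              exact hiD
        _ = (D : ℝ) ^ k := by rw [prod_const, card_univ, Fintype.card_fin])
    refine h3.trans ?_
    have hNr : (N : ℝ) ≤ D := by exact_mod_cast hND
    calc (N : ℝ) * (D : ℝ) ^ k * δ ≤ D * (D : ℝ) ^ k * δ := by gcongr
      _ = (D : ℝ) ^ (k + 1) * δ := by ring
  refine (sum_le_sum h2).trans ?_
  rw [sum_const, nsmul_eq_mul]
  have hcard : (T.card : ℝ) ≤ (D : ℝ) ^ k := by
    have h3 : T ⊆ Fintype.piFinset (fun _ : Fin k => Icc 1 D) := by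
      intro κ hκ
      refine Fintype.mem_piFinset.mpr fun i => ?_
      obtain ⟨hI, -, -⟩ := CA_mem_KS.1 (hKS κ hκ i)
      have hr1 := (mem_PC.1 (hp i)).1
      refine mem_Icc.mpr ⟨hI.1, ?_⟩
      exact (Nat.le_mul_of_pos_left _ hr1).trans (hle κ hκ i)
    have h4 := card_le_card h3
    rw [Fintype.card_piFinset] at h4
    simp only [Nat.card_Icc, add_tsub_cancel_right, prod_const, card_univ, Fintype.card_fin] at h4
    exact_mod_cast h4
  calc (T.card : ℝ) * ((D : ℝ) ^ (k + 1) * δ) ≤ (D : ℝ) ^ k * ((D : ℝ) ^ (k + 1) * δ) :=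
        mul_le_mul_of_nonneg_right hcard (by positivity)
    _ = (D : ℝ) ^ (2 * k + 1) * δ := by ring


end Pool.Agent.Lib.H24P
end
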