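import Pool.Agent.Lib.H59M.M2.M029
import Pool.Agent.Lib.H59M.M2.M080
import Pool.Agent.Lib.H59M.M2.M082
import Pool.Agent.Lib.H59M.M2.M087
import Pool.Agent.Lib.H59M.M2.M090

/-! Merged copies (to shorten the build) of Lib.H24P.T1, Lib.H24P.X2, Lib.H24P.X1A, Lib.H24P.X1B. -/

-- from Lib.H24P.T1
section

/-!
# Project H24P, chunk T1 (M): size of the local factors
-/

open Finset Polynomial

namespace Pool.Agent.Lib.H24P

open Pool.Agent.Lib.H68T Pool.Agent.Lib.H18Q Pool.Agent.Lib.H59P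

/-- The local factor as a count. Proof. `1 + gl l m = l/(l-1)` if `l ∤ m`, else `0`. -/
theorem T1_count {k : ℕ} (l : ℕ) (hl : l.Prime) (φ : Fin k → ℤ → ℤ) :
    1 + tpf l φ = (((range l).filter (fun n : ℕ => ∀ i, ¬ (l : ℤ) ∣ φ i n)).card : ℝ) / l *
      ((l : ℝ) / ((l : ℝ) - 1)) ^ k := by
  classical
  have hl1 : (1 : ℝ) < l := by exact_mod_cast hl.one_lt
  have hl2 : (l : ℝ) - 1 ≠ 0 := by linarith
  have hg : ∀ m : ℤ, 1 + gl l m = if (l : ℤ) ∣ m then 0 else (l : ℝ) / ((l : ℝ) - 1) := by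
    intro m
    unfold gl
    split_ifs
    · ring
    · field_simp
      ring
  have h1 : ∀ n ∈ range l, ∏ i, (1 + gl l (φ i (n : ℤ))) =
      if (∀ i, ¬ (l : ℤ) ∣ φ i (n : ℤ)) then ((l : ℝ) / ((l : ℝ) - 1)) ^ k else 0 := by
    intro n _
    split_ifs with h
    · have h2 : ∀ i ∈ (univ : Finset (Fin k)), (1 + gl l (φ i (n : ℤ))) = (l : ℝ) / ((l : ℝ) - 1) := by
        intro i _
        rw [hg, if_neg (h i)]
      rw [Finset.prod_congr rfl h2, Finset.prod_const, card_univ, Fintype.card_fin]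
    · push Not at h
      obtain ⟨i, hi⟩ := h
      refine Finset.prod_eq_zero (mem_univ i) ?_
      rw [hg, if_pos hi]
  unfold tpf
  rw [add_sub_cancel, Finset.sum_congr rfl h1, ← Finset.sum_filter, Finset.sum_const, nsmul_eq_mul]
  ring

/-- The number of zeros modulo `l`, the leading coefficient not being divisible by `l`. -/
theorem t1_roots (F : ℤ[X]) (l : ℕ) (hl : l.Prime) (hn : ¬ (l : ℤ) ∣ F.leadingCoeff) :
    ((range l).filter (fun a : ℕ => (l : ℤ) ∣ F.eval (a : ℤ))).card ≤ F.natDegree := by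
  classical
  have := Fact.mk hl
  set Q : (ZMod l)[X] := F.map (Int.castRingHom (ZMod l)) with hQ
  have hev : ∀ m : ℤ, Q.eval (m : ZMod l) = ((F.eval m : ℤ) : ZMod l) := by
    intro m
    rw [hQ, eval_intCast_map]
    rfl
  have hQ0 : Q ≠ 0 := by
    intro h0
    apply hn
    rw [← ZMod.intCast_zmod_eq_zero_iff_dvd]
    have h2 : Q.coeff F.natDegree = 0 := by rw [h0, coeff_zero]
    rw [hQ, coeff_map] at h2
    exact h2
  have h1 : ((range l).filter (fun a : ℕ => (l : ℤ) ∣ F.eval (a : ℤ))).card ≤ Q.roots.toFinset.card := by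
    refine card_le_card_of_injOn (fun a : ℕ => (a : ZMod l)) ?_ ?_
    · intro a ha
      have ha' := (mem_filter.1 (mem_coe.1 ha)).2
      rw [mem_coe, Multiset.mem_toFinset, mem_roots hQ0, IsRoot.def]
      have h2 := hev (a : ℤ)
      rw [Int.cast_natCast] at h2
      rw [h2, ZMod.intCast_zmod_eq_zero_iff_dvd]
      exact ha'
    · intro a ha b hb hab
      have ha' := mem_range.1 (mem_filter.1 (mem_coe.1 ha)).1
      have hb' := mem_range.1 (mem_filter.1 (mem_coe.1 hb)).1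
      have h2 := (ZMod.natCast_eq_natCast_iff a b l).1 hab
      exact Nat.ModEq.eq_of_lt_of_lt h2 ha' hb'
  refine h1.trans ((Multiset.toFinset_card_le _).trans ((card_roots' _).trans ?_))
  exact natDegree_map_le

theorem t1_pow (n : ℕ) (x : ℝ) (hx : 0 ≤ x) (hx1 : x ≤ 1) : (1 + x) ^ n ≤ 1 + (2 ^ n - 1) * x := by
  induction n with
  | zero => simp
  | succ n ih =>
    have h1 : (1 : ℝ) ≤ 2 ^ n := one_le_pow₀ (by norm_num)
    calc (1 + x) ^ (n + 1) = (1 + x) ^ n * (1 + x) := pow_succ _ _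
      _ ≤ (1 + (2 ^ n - 1) * x) * (1 + x) := mul_le_mul_of_nonneg_right ih (by linarith)
      _ ≤ 1 + (2 ^ (n + 1) - 1) * x := by
        have h2 : x * x ≤ 1 * x := mul_le_mul_of_nonneg_right hx1 hx
        have h3 : (2 ^ n - 1) * (x * x) ≤ (2 ^ n - 1) * (1 * x) :=
          mul_le_mul_of_nonneg_left h2 (by linarith)
        rw [pow_succ]
        linarith

/-- **T1.** Proof. For `l ≤ A` trivial (`P0_tp`: `0 ≤ 1 + tpf ≤ 2^(k+1)`). For a prime `l > A` the leading coefficients are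
not divisible by `l`, so `B`, `P_i + h_i` have at most `A` (resp. `1 ≤ A`) zeros modulo `l`
(`Polynomial.card_roots'` over `ZMod l`): the count in `T1_count` is at least `l - (k+1) A` and at most `l`;
`(l/(l-1))^(k+1) ≤ 1 + C/l` (e.g. `(1+1/(l-1))^(k+1) ≤ 1 + 2^(k+1)/(l-1)`, `l - 1 ≥ l/2`). -/
theorem T1_abs (k A : ℕ) (hA : 1 ≤ A) : ∃ C : ℝ, 1 ≤ C ∧ ∀ B : ℤ[X], Lin A B →
    ∀ P : Fin k → ℤ[X], Pol A P → ∀ h : Fin k → ℕ, ∀ l : ℕ, l.Prime →
    |tpf l (sys B P h)| ≤ C / l := by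
  classical
  have hA1 : (1 : ℝ) ≤ A := by exact_mod_cast hA
  have h2k : (1 : ℝ) ≤ 2 ^ (k + 1) := one_le_pow₀ (by norm_num)
  refine ⟨2 * 2 ^ (k + 1) * A + (k + 1) * A, ?_, ?_⟩
  · have h1 : (1 : ℝ) * 1 ≤ 2 ^ (k + 1) * A := mul_le_mul h2k hA1 (by norm_num) (by positivity)
    have h2 : (0 : ℝ) ≤ (k + 1) * A := by positivity
    linarith
  intro B hB P hP h l hl
  have hl2 : (2 : ℝ) ≤ l := by exact_mod_cast hl.two_le
  have hl0 : (0 : ℝ) < l := by linarith
  have hl1 : (0 : ℝ) < l - 1 := by linarith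
  have hratio : (l : ℝ) / (l - 1) ≤ 2 := by
    rw [div_le_iff₀ hl1]
    linarith
  have hr0 : (0 : ℝ) ≤ (l : ℝ) / (l - 1) := by positivity
  obtain ⟨e1, e2⟩ := P0_tp l hl (sys B P h)
  have hkA : (0 : ℝ) ≤ (k + 1) * A := by positivity
  by_cases hlA : l ≤ A
  · have h1 : ((l : ℝ) / (l - 1)) ^ (k + 1) ≤ 2 ^ (k + 1) := pow_le_pow_left₀ hr0 hratio _
    have h2 : |tpf l (sys B P h)| ≤ 2 ^ (k + 1) := by
      rw [abs_le]
      constructor <;> linarith
    refine h2.trans ?_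
    rw [le_div_iff₀ hl0]
    have h3 : (l : ℝ) ≤ A := by exact_mod_cast hlA
    have h4 : (2 : ℝ) ^ (k + 1) * l ≤ 2 ^ (k + 1) * A := mul_le_mul_of_nonneg_left h3 (by linarith)
    have h5 : (0 : ℝ) ≤ 2 ^ (k + 1) * A := by positivity
    linarith
  · push Not at hlA
    rw [abs_le]
    constructor
    · -- lower bound
      have hlc : ∀ F : ℤ[X], 1 ≤ F.natDegree → F.leadingCoeff.natAbs ≤ A →
          ¬ (l : ℤ) ∣ F.leadingCoeff := by
        intro F hF hFA hd
        have h1 : F.leadingCoeff ≠ 0 := by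
          rw [Ne, leadingCoeff_eq_zero]
          rintro rfl
          rw [natDegree_zero] at hF
          omega
        have h2 : l ∣ F.leadingCoeff.natAbs := Int.natCast_dvd.1 hd
        have h3 := Nat.le_of_dvd (Int.natAbs_pos.2 h1) h2
        omega
      set good := (range l).filter (fun n : ℕ => ∀ i, ¬ (l : ℤ) ∣ sys B P h i n) with hgood
      set bad := univ.biUnion (fun i : Fin (k + 1) => (range l).filter
        (fun n : ℕ => (l : ℤ) ∣ sys B P h i n)) with hbad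
      have hb : bad.card ≤ (k + 1) * A := by
        refine card_biUnion_le.trans ?_
        calc ∑ i : Fin (k + 1), ((range l).filter (fun n : ℕ => (l : ℤ) ∣ sys B P h i n)).card
            ≤ ∑ _i : Fin (k + 1), A := by
              refine Finset.sum_le_sum fun i _ => ?_
              refine Fin.cases ?_ (fun i => ?_) i
              · have h1 := t1_roots B l hl (hlc B (by rw [hB.deg]) hB.lc)
                rw [hB.deg] at h1
                exact h1.trans hA
              · have h2 : ((P i) + C (h i : ℤ)).natDegree = (P i).natDegree := natDegree_add_C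
                have h3 : ((P i) + C (h i : ℤ)).leadingCoeff = (P i).leadingCoeff := by
                  have h5 := hP.deg i
                  rw [leadingCoeff, h2, coeff_add, coeff_C, if_neg (by omega), add_zero, leadingCoeff]
                have h4 := t1_roots ((P i) + C (h i : ℤ)) l hl
                  (hlc _ (by rw [h2]; exact hP.deg i) (by rw [h3]; exact hP.lc i))
                rw [h2] at h4
                refine (le_of_eq ?_).trans (h4.trans (hP.degA i))
                congr 1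
                refine Finset.filter_congr fun n _ => ?_
                rw [eval_add, eval_C]
                rfl
          _ = (k + 1) * A := by
              rw [Finset.sum_const, card_univ, Fintype.card_fin, smul_eq_mul]
      have hcov : l ≤ good.card + bad.card := by
        have h1 : range l ⊆ good ∪ bad := by
          intro n hn
          by_cases h2 : ∀ i, ¬ (l : ℤ) ∣ sys B P h i n
          · exact mem_union_left _ (mem_filter.2 ⟨hn, h2⟩)
          · push Not at h2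
            obtain ⟨i, hi⟩ := h2
            exact mem_union_right _ (mem_biUnion.2 ⟨i, mem_univ i, mem_filter.2 ⟨hn, hi⟩⟩)
        have h2 := (card_le_card h1).trans (card_union_le _ _)
        rwa [card_range] at h2
      have h3 : (l : ℝ) ≤ good.card + (k + 1) * A := by
        have h4 : l ≤ good.card + (k + 1) * A := by omega
        exact_mod_cast h4
      have h5 := T1_count l hl (sys B P h)
      rw [← hgood] at h5
      have h6 : (1 : ℝ) ≤ ((l : ℝ) / (l - 1)) ^ (k + 1) := one_le_pow₀ (M3a_ratio l hl)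
      have h7 : (0 : ℝ) ≤ (good.card : ℝ) / l := by positivity
      have h8 : (good.card : ℝ) / l * 1 ≤ (good.card : ℝ) / l * ((l : ℝ) / (l - 1)) ^ (k + 1) :=
        mul_le_mul_of_nonneg_left h6 h7
      have h9 : 1 - (k + 1) * A / (l : ℝ) ≤ (good.card : ℝ) / l := by
        rw [le_div_iff₀ hl0]
        have h10 : (1 - (k + 1) * A / (l : ℝ)) * l = l - (k + 1) * A := by field_simp
        rw [h10]
        linarith
      have h11 : (0 : ℝ) ≤ 2 * 2 ^ (k + 1) * A / (l : ℝ) := by positivity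
      rw [add_div]
      linarith
    · -- upper bound
      have h1 : (l : ℝ) / (l - 1) = 1 + 1 / ((l : ℝ) - 1) := by
        field_simp
        ring
      have h2 : 1 / ((l : ℝ) - 1) ≤ 1 := by
        rw [div_le_one hl1]
        linarith
      have h3 := t1_pow (k + 1) (1 / ((l : ℝ) - 1)) (by positivity) h2
      rw [← h1] at h3
      have h4 : 1 / ((l : ℝ) - 1) ≤ 2 / l := by
        rw [div_le_div_iff₀ hl1 hl0]
        linarith
      have h5 : ((2 : ℝ) ^ (k + 1) - 1) * (1 / ((l : ℝ) - 1)) ≤ 2 ^ (k + 1) * (2 / l) := by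
        refine mul_le_mul (by linarith) h4 (by positivity) (by linarith)
      have h6 : (2 : ℝ) ^ (k + 1) * (2 / l) ≤ (2 * 2 ^ (k + 1) * A + (k + 1) * A) / l := by
        rw [← mul_div_assoc]
        refine div_le_div_of_nonneg_right ?_ hl0.le
        have h7 : (2 * 2 ^ (k + 1) : ℝ) * 1 ≤ 2 * 2 ^ (k + 1) * A :=
          mul_le_mul_of_nonneg_left hA1 (by positivity)
        linarith
      linarith

/-- Without fixed divisor. Proof. Some `n`, which may be reduced modulo `l` (`P2_sys`-type periodicity, i.e.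
`Polynomial.sub_dvd_eval_sub`), is counted in `T1_count`; `(l/(l-1))^k ≥ 1`. -/
theorem T1_low {k : ℕ} (B : ℤ[X]) (P : Fin k → ℤ[X]) (h : Fin k → ℕ) (hN : NoFix (sys B P h)) (l : ℕ)
    (hl : l.Prime) : 1 / (l : ℝ) ≤ 1 + tpf l (sys B P h) := by
  classical
  have hl2 : (2 : ℝ) ≤ l := by exact_mod_cast hl.two_le
  have hl0 : (0 : ℝ) < l := by linarith
  have hlz : (0 : ℤ) < l := by exact_mod_cast hl.pos
  obtain ⟨n, hn⟩ := hN l hl
  set n' : ℕ := (n % l).toNat with hn'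
  have h1 : (n' : ℤ) = n % l := Int.toNat_of_nonneg (Int.emod_nonneg _ hlz.ne')
  have h2 : n' < l := by
    have := Int.emod_lt_of_pos n hlz
    omega
  have h3 : n' ∈ (range l).filter (fun n : ℕ => ∀ i, ¬ (l : ℤ) ∣ sys B P h i n) := by
    refine mem_filter.2 ⟨mem_range.2 h2, fun i hi => hn i ?_⟩
    have h4 := P2_sys B P h i (l * (n / l)) (n' : ℤ)
    have h5 : (n' : ℤ) + l * (n / l) = n := by
      rw [h1]
      exact Int.emod_add_mul_ediv n l
    rw [h5] at h4
    have h6 : (l : ℤ) ∣ sys B P h i n - sys B P h i n' := (Dvd.intro _ rfl).trans h4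
    exact (dvd_sub_left hi).1 h6
  rw [T1_count l hl]
  have h4 : (1 : ℝ) ≤ (((range l).filter (fun n : ℕ => ∀ i, ¬ (l : ℤ) ∣ sys B P h i n)).card : ℝ) := by
    exact_mod_cast Finset.card_pos.2 ⟨n', h3⟩
  have h5 : (1 : ℝ) ≤ ((l : ℝ) / (l - 1)) ^ (k + 1) := one_le_pow₀ (M3a_ratio l hl)
  calc 1 / (l : ℝ) = 1 / (l : ℝ) * 1 := (mul_one _).symm
    _ ≤ _ := mul_le_mul (div_le_div_of_nonneg_right h4 hl0.le) h5 (by norm_num) (by positivity)

end Pool.Agent.Lib.H24P
end

-- from Lib.H24P.X2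
section

/-!
# Project H24P, chunk X2 (M): lower bound for the singular series
-/

open Finset Polynomial

namespace Pool.Agent.Lib.H24P

open Pool.Agent.Lib.H68T Pool.Agent.Lib.H18Q Pool.Agent.Lib.H59P

theorem x2_exp (x : ℝ) (hx0 : 0 ≤ x) (hx : x ≤ 1 / 2) : Real.exp (-(2 * x)) ≤ 1 - x := by
  have h1 : 0 < 1 - x := by linarith
  have h2 : 1 + 2 * x ≤ Real.exp (2 * x) := by linarith [Real.add_one_le_exp (2 * x)]
  have h3 : 1 ≤ (1 - x) * (1 + 2 * x) := by nlinarith
  rw [Real.exp_neg, inv_le_comm₀ (Real.exp_pos _) h1]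
  refine le_trans ?_ h2
  rw [inv_le_iff_one_le_mul₀ h1]
  linarith [mul_comm (1 - x) (1 + 2 * x)]

theorem x2_sum (Q : ℕ) (hQ : 2 ≤ Q) (P' : Finset ℕ) (hP' : P' ⊆ pr Q) :
    Real.exp (∑ l ∈ P', 1 / (l : ℝ)) ≤ 500 * (1 + Real.log Q) := by
  have hsub : P' ⊆ Pool.Agent.Lib.Sieve.primesUpTo Q := by
    intro l hl
    have h1 := hP' hl
    unfold pr at h1
    rw [mem_filter, mem_Icc] at h1
    unfold Pool.Agent.Lib.Sieve.primesUpTo
    rw [mem_filter, mem_range]
    exact ⟨Nat.lt_succ_of_le h1.1.2, h1.2⟩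
  have h1 : ∑ l ∈ P', 1 / (l : ℝ) ≤ ∑ l ∈ Pool.Agent.Lib.Sieve.primesUpTo Q, 1 / (l : ℝ) :=
    Finset.sum_le_sum_of_subset_of_nonneg hsub fun _ _ _ => by positivity
  have h2 : Real.exp (∑ l ∈ Pool.Agent.Lib.Sieve.primesUpTo Q, 1 / (l : ℝ)) ≤
      ∏ l ∈ Pool.Agent.Lib.Sieve.primesUpTo Q, (1 - 1 / (l : ℝ))⁻¹ := by
    rw [Real.exp_sum]
    apply Finset.prod_le_prod
    · intro l _
      exact (Real.exp_pos _).le
    · intro l hl
      unfold Pool.Agent.Lib.Sieve.primesUpTo at hl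
      rw [mem_filter] at hl
      have h3 : (2 : ℝ) ≤ l := by exact_mod_cast hl.2.two_le
      have h4 : 1 / (l : ℝ) ≤ 1 / 2 := one_div_le_one_div_of_le (by norm_num) h3
      have h5 : 0 < 1 - 1 / (l : ℝ) := by linarith
      have h6 := Real.add_one_le_exp (-(1 / (l : ℝ)))
      rw [le_inv_comm₀ (Real.exp_pos _) h5, ← Real.exp_neg]
      linarith
  have h3 := Pool.Agent.Lib.Helper57.prod_one_sub_inv_inv_le Q hQ
  refine (Real.exp_le_exp.2 h1).trans (h2.trans (h3.trans ?_))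
  linarith

/-- Proof. `|tpf| ≤ C1/l` (`T1_abs`). For `l > 2 C1`: `1 + tpf ≥ 1 - C1/l ≥ exp(-2 C1/l)`; for `l ≤ 2 C1`:
`1 + tpf ≥ 1/l ≥ 1/(2 C1)` (`T1_low`), and there are at most `2 C1` such primes. `exp(∑_{l ≤ Q} 1/l) ≤ ∏ (1 - 1/l)⁻¹ ≤ 500 log Q`
(`Helper57.prod_one_sub_inv_inv_le`; all primes in `P'` are `≤ Q`). So
`SSf ≥ (2 C1)^(-2 C1) (500 log Q)^(-2 C1)`. -/
theorem X2_low (k A : ℕ) (hA : 1 ≤ A) : ∃ C c : ℝ, 1 ≤ C ∧ 0 < c ∧ ∀ B : ℤ[X], Lin A B →
    ∀ P : Fin k → ℤ[X], Pol A P → ∀ h : Fin k → ℕ, NoFix (sys B P h) → ∀ Q : ℕ, 2 ≤ Q →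
    ∀ P' : Finset ℕ, P' ⊆ pr Q → c * (1 + Real.log Q) ^ (-C) ≤ SSf P' (sys B P h) := by
  classical
  obtain ⟨C1, hC1, hT⟩ := T1_abs k A hA
  obtain ⟨N, hN⟩ : ∃ N, N = ⌊2 * C1⌋₊ := ⟨_, rfl⟩
  have hC0 : 0 < 2 * C1 := by linarith
  refine ⟨2 * C1, (1 / (2 * C1)) ^ N * 500 ^ (-(2 * C1)), by linarith, by positivity, ?_⟩
  intro B hB P hP h hNF Q hQ P' hP'
  have hQ1 : (1 : ℝ) ≤ Q := by exact_mod_cast (by omega : 1 ≤ Q)
  have hlog : 0 ≤ Real.log Q := Real.log_nonneg hQ1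
  have hprime : ∀ l ∈ P', l.Prime := by
    intro l hl
    have h1 := hP' hl
    unfold pr at h1
    exact (mem_filter.1 h1).2
  have hfl : ∀ l ∈ P', (if l ≤ N then 1 / (2 * C1) else 1) * Real.exp (-(2 * C1 * (1 / (l : ℝ)))) ≤
      1 + tpf l (sys B P h) := by
    intro l hl
    have hlp := hprime l hl
    have hl0 : (0 : ℝ) < l := by exact_mod_cast hlp.pos
    split_ifs with h1
    · have h2 := T1_low B P h hNF l hlp
      have h3 : (l : ℝ) ≤ 2 * C1 := by
        have h4 : (l : ℝ) ≤ (N : ℝ) := Nat.cast_le.2 h1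
        refine h4.trans ?_
        rw [hN]
        exact Nat.floor_le hC0.le
      have h4 : 1 / (2 * C1) ≤ 1 / (l : ℝ) := one_div_le_one_div_of_le hl0 h3
      have h5 : Real.exp (-(2 * C1 * (1 / (l : ℝ)))) ≤ 1 := by
        rw [Real.exp_le_one_iff]
        have : 0 ≤ 2 * C1 * (1 / (l : ℝ)) := by positivity
        linarith
      have h6 : 0 ≤ 1 / (2 * C1) := by positivity
      exact (mul_le_of_le_one_right h6 h5).trans (h4.trans h2)
    · have h2 : 2 * C1 < l := by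
        rw [not_le, hN] at h1
        exact (Nat.floor_lt hC0.le).1 h1
      have h3 := (abs_le.1 (hT B hB P hP h l hlp)).1
      have h4 : C1 / (l : ℝ) ≤ 1 / 2 := by
        rw [div_le_iff₀ hl0]
        linarith
      have h5 := x2_exp (C1 / l) (by positivity) h4
      rw [one_mul]
      have e : 2 * C1 * (1 / (l : ℝ)) = 2 * (C1 / l) := by ring
      rw [e]
      linarith
  have hnn : ∀ l ∈ P', 0 ≤ (if l ≤ N then 1 / (2 * C1) else 1) * Real.exp (-(2 * C1 * (1 / (l : ℝ)))) := by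
    intro l _
    apply mul_nonneg _ (Real.exp_pos _).le
    split_ifs
    · positivity
    · exact zero_le_one
  have h1 := Finset.prod_le_prod hnn hfl
  unfold SSf
  refine le_trans ?_ h1
  rw [Finset.prod_mul_distrib, ← Real.exp_sum, mul_assoc]
  have hA1 : (1 / (2 * C1)) ^ N ≤ ∏ l ∈ P', (if l ≤ N then 1 / (2 * C1) else (1 : ℝ)) := by
    rw [Finset.prod_ite, Finset.prod_const, Finset.prod_const_one, mul_one]
    apply pow_le_pow_of_le_one (by positivity)
    · rw [div_le_one hC0]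
      linarith
    · have hsub : P'.filter (fun l => l ≤ N) ⊆ Icc 1 N := by
        intro l hl
        rw [mem_filter] at hl
        exact mem_Icc.2 ⟨(hprime l hl.1).one_lt.le, hl.2⟩
      have := Finset.card_le_card hsub
      rwa [Nat.card_Icc, Nat.add_sub_cancel] at this
  have hA2 : (500 : ℝ) ^ (-(2 * C1)) * (1 + Real.log Q) ^ (-(2 * C1)) ≤
      Real.exp (∑ l ∈ P', -(2 * C1 * (1 / (l : ℝ)))) := by
    rw [← Real.mul_rpow (by norm_num) (by linarith)]
    have h2 := x2_sum Q hQ P' hP'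
    have e : ∑ l ∈ P', -(2 * C1 * (1 / (l : ℝ))) = (∑ l ∈ P', 1 / (l : ℝ)) * (-(2 * C1)) := by
      rw [Finset.sum_mul]
      exact Finset.sum_congr rfl fun l _ => by ring
    rw [e, Real.exp_mul]
    exact Real.rpow_le_rpow_of_nonpos (Real.exp_pos _) h2 (by linarith)
  refine mul_le_mul hA1 hA2 (by positivity) ?_
  exact Finset.prod_nonneg fun l _ => by
    split_ifs
    · positivity
    · exact zero_le_one

end Pool.Agent.Lib.H24P
end

-- from Lib.H24P.X1A
section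

/-!
# Project H24P, chunk X1A (M): a twisted mean value with a random coordinate twisted
-/

open Finset Polynomial

namespace Pool.Agent.Lib.H24P

open Pool.Agent.Lib.H68T Pool.Agent.Lib.H18Q Pool.Agent.Lib.H59P

/-- The set of the `κ` for the level `r`: `κ i = 1` at twisted coordinates, a divisor of the radical of `r` at the others.
(Chunks X1A, X1B.) -/
noncomputable def KT {k : ℕ} (px : Ch) (Bs : Finset (Fin k)) : Finset (Fin k → ℕ) :=
  open Classical in Fintype.piFinset fun i =>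
    if i ∈ Bs then {1} else (∏ l ∈ px.1.primeFactors, l).divisors

theorem x1a_SD1 (r : ℕ) (hr : 1 ≤ r) : SD r r = {1} := by
  classical
  ext s
  rw [SD, Finset.mem_filter, Finset.mem_singleton, Nat.mem_divisors]
  constructor
  · rintro ⟨⟨h1, _⟩, _, h3⟩
    exact Nat.Coprime.eq_one_of_dvd h3 h1
  · rintro rfl
    exact ⟨⟨one_dvd _, by omega⟩, squarefree_one, Nat.coprime_one_left r⟩

theorem x1a_rad (r : ℕ) : Squarefree (∏ l ∈ r.primeFactors, l) := by
  rw [← Nat.radical_eq_prod_primeFactors]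
  exact UniqueFactorizationMonoid.squarefree_radical

theorem x1a_SD2 (r : ℕ) (hr : 1 ≤ r) : SD r 1 = (∏ l ∈ r.primeFactors, l).divisors := by
  classical
  ext s
  rw [SD, Finset.mem_filter, Nat.mem_divisors, Nat.mem_divisors]
  constructor
  · rintro ⟨⟨h1, _⟩, h2, _⟩
    refine ⟨?_, (x1a_rad r).ne_zero⟩
    rw [← Nat.prod_primeFactors_of_squarefree h2]
    exact Finset.prod_dvd_prod_of_subset _ _ _ (Nat.primeFactors_mono h1 (by omega))
  · rintro ⟨h1, _⟩
    exact ⟨⟨h1.trans (Nat.prod_primeFactors_dvd r), by omega⟩, (x1a_rad r).squarefree_of_dvd h1,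
      Nat.coprime_one_right s⟩

/-- Proof. `r = px.1`. For `i ∈ Bs`: `cj px m uu r.primeFactors m = gk px 1 m` (both are
`(r/φ(r)) cj px m`: if `cj px m ≠ 0` then `m` is coprime to `r`: `x1_uu_unit`; `gk` with `κ = 1`: `M2a` of `H59P` or
`B1_SD` with `N = r`, `SD r r = {1}`). For `i ∉ Bs`: `uu r.primeFactors m = ∑_{κ ∣ rad r} gk p0 κ m` (`B1_SD` with `p = p0`,
`N = r` or directly `Finset.prod_one_add`-type expansion, `M2a`). `Finset.prod_univ_sum`. -/
theorem X1A_expand {k : ℕ} (Q : ℕ) (px : Ch) (hpx : px ∈ PC Q) (Bs : Finset (Fin k)) (m : Fin k → ℤ) :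
    ∏ i, (cj (pB px Bs i) (m i) * ((uu px.1.primeFactors (m i) : ℝ) : ℂ)) =
      ∑ κ ∈ KT px Bs, ∏ i, gk (pB px Bs i) (κ i) (m i) := by
  classical
  obtain ⟨hr1, -, -⟩ := mem_PC.1 hpx
  unfold KT
  refine Eq.trans ?_ (Finset.prod_univ_sum (fun i : Fin k => if i ∈ Bs then ({1} : Finset ℕ) else
    (∏ l ∈ px.1.primeFactors, l).divisors) (fun i κ => gk (pB px Bs i) κ (m i)))
  refine Finset.prod_congr rfl fun i _ => ?_
  by_cases hi : i ∈ Bs
  · have hp : pB px Bs i = px := by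
      unfold pB
      rw [if_pos hi]
    rw [if_pos hi, hp, ← B1_SD px.1 hr1 px dvd_rfl (m i), x1a_SD1 px.1 hr1]
  · have hp : pB px Bs i = p0 := by
      unfold pB
      rw [if_neg hi]
    rw [if_neg hi, hp, ← B1_SD px.1 hr1 p0 (one_dvd _) (m i)]
    have h0 : (p0 : Ch).1 = 1 := rfl
    rw [h0, x1a_SD2 px.1 hr1]

/-- `KT` at the level `r`. Proof. `KS r r = {1}`, `KS r 1` = the squarefree numbers up to `r`; divisors of the radical of
`r` are squarefree and at most `r`. -/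
theorem X1A_sub {k : ℕ} (Q : ℕ) (px : Ch) (hpx : px ∈ PC Q) (Bs : Finset (Fin k)) :
    KT px Bs ⊆ Fintype.piFinset (fun i => KS px.1 (pB px Bs i).1) ∧
      ∀ i, pB px Bs i ∈ PC px.1 := by
  classical
  obtain ⟨hr1, -, hprim⟩ := mem_PC.1 hpx
  refine ⟨?_, ?_⟩
  · unfold KT
    refine Fintype.piFinset_subset _ _ fun i => ?_
    by_cases hi : i ∈ Bs
    · have hp : pB px Bs i = px := by
        unfold pB
        rw [if_pos hi]
      rw [if_pos hi, hp, Finset.singleton_subset_iff, KS, Finset.mem_filter, Finset.mem_Icc]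
      refine ⟨⟨le_rfl, ?_⟩, squarefree_one, Nat.coprime_one_left _⟩
      rw [Nat.div_self hr1]
    · have hp : pB px Bs i = p0 := by
        unfold pB
        rw [if_neg hi]
      have h0 : (p0 : Ch).1 = 1 := rfl
      rw [if_neg hi, hp, h0]
      intro s hs
      rw [Nat.mem_divisors] at hs
      have h1 := hs.1.trans (Nat.prod_primeFactors_dvd px.1)
      rw [KS, Finset.mem_filter, Finset.mem_Icc, Nat.div_one]
      refine ⟨⟨?_, Nat.le_of_dvd hr1 h1⟩, (x1a_rad px.1).squarefree_of_dvd hs.1, Nat.coprime_one_right s⟩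
      exact Nat.pos_of_dvd_of_pos h1 hr1
  · intro i
    by_cases hi : i ∈ Bs
    · have hp : pB px Bs i = px := by
        unfold pB
        rw [if_pos hi]
      rw [hp]
      exact mem_PC.2 ⟨hr1, le_rfl, hprim⟩
    · have hp : pB px Bs i = p0 := by
        unfold pB
        rw [if_neg hi]
      rw [hp]
      exact p0_mem hr1


end Pool.Agent.Lib.H24P
end

-- from Lib.H24P.X1B
section

/-!
# Project H24P, chunk X1B (M): a twisted mean value, only the linear coordinate twisted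
-/

open Finset Polynomial

namespace Pool.Agent.Lib.H24P

open Pool.Agent.Lib.H68T Pool.Agent.Lib.H18Q Pool.Agent.Lib.H59P

theorem x1b_pow (k : ℕ) (L : ℝ) : ((2 * L) ^ (k + 1)) ^ 2 = 4 ^ (k + 1) * L ^ (2 * k + 2) := by
  have h1 : (2 * L) ^ 2 = 4 * L ^ 2 := by ring
  have h2 : 2 * (k + 1) = 2 * k + 2 := by ring
  rw [← pow_mul, mul_comm (k + 1) 2, pow_mul, h1, mul_pow, ← pow_mul, h2]

theorem x1b_mean (f : ℤ → ℂ) (r M : ℕ) (hf : ∀ n, f (n + r) = f n) :
    ∑ n ∈ range (M * r), f (n : ℤ) = M * ∑ n ∈ range r, f (n : ℤ) := by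
  have h1 := b3_blocks (fun n : ℕ => f (n : ℤ)) M r
  rw [h1]
  have h2 : ∀ t ∈ range M, ∑ v ∈ range r, f (((t * r + v : ℕ) : ℤ)) = ∑ v ∈ range r, f (v : ℤ) := by
    intro t _
    refine Finset.sum_congr rfl fun v _ => ?_
    have h3 := b3_perZ f r hf (t : ℤ) (v : ℤ)
    have h4 : (((t * r + v : ℕ) : ℤ)) = (v : ℤ) + r * (t : ℤ) := by
      push_cast
      ring
    rw [h4, h3]
  rw [Finset.sum_congr rfl h2, Finset.sum_const, card_range, nsmul_eq_mul]

/-- The components with bounded moduli (compare `W1_small`). -/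
theorem x1b_small {k : ℕ} (B : ℤ[X]) (hB : B.natDegree = 1) (P : Fin k → ℤ[X]) (r D : ℕ) (hD : 1 ≤ D)
    (px : Ch) (hpx : px ∈ PC r) (hr : px.1 = r) (p : Fin k → Ch)
    (hp : ∀ i, p i ∈ PC r) (T : Finset (Fin k → ℕ)) (hT : T ⊆ Fintype.piFinset (fun i => KS r (p i).1))
    (hTD : ∀ κ ∈ T, univ.lcm (fun i => (p i).1 * κ i) ≤ D)
    (hn : ∀ N : ℕ, 0 < N → N ≤ D → ¬ (r : ℤ) ∣ B.leadingCoeff * N) (h : Fin k → ℕ) (a H : ℕ) :
    ‖∑ n ∈ Ico a (a + H), gk px 1 (B.eval (n : ℤ)) *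
      ∑ κ ∈ T, ∏ i, gk (p i) (κ i) ((P i).eval (n : ℤ) + h i)‖ ≤ 2 * (r : ℝ) ^ 2 * (D : ℝ) ^ (2 * k + 1) := by
  have hr1 : 1 ≤ r := by
    have := (mem_PC.1 hpx).1
    rwa [hr] at this
  have hDr : (1 : ℝ) ≤ D := by exact_mod_cast hD
  have hrr : (0 : ℝ) ≤ r := Nat.cast_nonneg _
  have h1 : ∑ n ∈ Ico a (a + H), gk px 1 (B.eval (n : ℤ)) *
      ∑ κ ∈ T, ∏ i, gk (p i) (κ i) ((P i).eval (n : ℤ) + h i)
      = ∑ κ ∈ T, ∑ n ∈ Ico a (a + H), gk px 1 (B.eval (n : ℤ)) *
        ∏ i, gk (p i) (κ i) ((P i).eval (n : ℤ) + h i) := by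
    simp_rw [mul_sum]
    exact sum_comm
  rw [h1]
  refine (norm_sum_le _ _).trans ?_
  have hKS : ∀ κ ∈ T, ∀ i, κ i ∈ KS r (p i).1 := fun κ hκ i => Fintype.mem_piFinset.mp (hT hκ) i
  have hle : ∀ κ ∈ T, ∀ i, (p i).1 * κ i ≤ D := by
    intro κ hκ i
    have hpos : 0 < univ.lcm (fun i => (p i).1 * κ i) := by
      rw [Nat.pos_iff_ne_zero, Ne, Finset.lcm_eq_zero_iff]
      rintro ⟨j, -, hj⟩
      have h2 := (mem_PC.1 (hp j)).1
      have h3 := (CA_mem_KS.1 (hKS κ hκ j)).1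
      have h4 : 1 ≤ κ j := h3.1
      have h5 : 0 < (p j).1 * κ j := Nat.mul_pos h2 h4
      omega
    exact (Nat.le_of_dvd hpos (dvd_lcm (mem_univ i))).trans (hTD κ hκ)
  have h1KS : 1 ∈ KS r px.1 := by
    refine CA_mem_KS.2 ⟨⟨le_rfl, ?_⟩, squarefree_one, Nat.coprime_one_left _⟩
    rw [hr, Nat.div_self hr1]
  have h2 : ∀ κ ∈ T, ‖∑ n ∈ Ico a (a + H), gk px 1 (B.eval (n : ℤ)) *
      ∏ i, gk (p i) (κ i) ((P i).eval (n : ℤ) + h i)‖ ≤ 2 * (r : ℝ) ^ 2 * (D : ℝ) ^ (k + 1) := by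
    intro κ hκ
    set N : ℕ := univ.lcm (fun i => (p i).1 * κ i) with hN
    have hND : N ≤ D := hTD κ hκ
    have hN0 : 0 < N := by
      rw [Nat.pos_iff_ne_zero, hN, Ne, Finset.lcm_eq_zero_iff]
      rintro ⟨j, -, hj⟩
      have h2 := (mem_PC.1 (hp j)).1
      have h3 := (CA_mem_KS.1 (hKS κ hκ j)).1
      have h4 : 1 ≤ κ j := h3.1
      have h5 : 0 < (p j).1 * κ j := Nat.mul_pos h2 h4
      omega
    have h3 := B3_int r px hpx 1 h1KS B hB N hN0 (fun n => ∏ i, gk (p i) (κ i) ((P i).eval n + h i)) (by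
      intro n
      refine prod_congr rfl fun i _ => ?_
      have h4 : (((p i).1 * κ i : ℕ) : ℤ) ∣ (P i).eval (n + N) - (P i).eval n := by
        have h5 : (n + (N : ℤ)) - n ∣ (P i).eval (n + N) - (P i).eval n := sub_dvd_eval_sub _ _ _
        rw [add_sub_cancel_left] at h5
        refine dvd_trans ?_ h5
        have h6 : (p i).1 * κ i ∣ N := dvd_lcm (mem_univ i)
        exact_mod_cast h6
      obtain ⟨j, hj⟩ := h4
      have h7 : (P i).eval (n + N) + (h i : ℤ) = ((P i).eval n + h i) + (((p i).1 * κ i : ℕ) : ℤ) * j := by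
        linarith
      rw [h7]
      exact gk_period _ _ _ _) ((D : ℝ) ^ k) (by
      intro n
      rw [norm_prod]
      calc ∏ i, ‖gk (p i) (κ i) ((P i).eval n + h i)‖ ≤ ∏ _i : Fin k, (D : ℝ) := by
            refine prod_le_prod (fun i _ => norm_nonneg _) fun i _ => ?_
            obtain ⟨hr1, hrQ, hprim⟩ := mem_PC.1 (hp i)
            obtain ⟨hI, hsq, hcop⟩ := CA_mem_KS.1 (hKS κ hκ i)
            have hk1 : 1 ≤ κ i := hI.1
            have hiD := hle κ hκ i
            refine gk_bound D (p i) (mem_PC.2 ⟨hr1, ?_, hprim⟩) (κ i) (CA_mem_KS.2 ⟨?_, hsq, hcop⟩) _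
            · exact (Nat.le_mul_of_pos_right _ hk1).trans hiD
            · refine ⟨hk1, ?_⟩
              rw [Nat.le_div_iff_mul_le hr1, mul_comm]
              exact hiD
        _ = (D : ℝ) ^ k := by rw [prod_const, card_univ, Fintype.card_fin]) (by
      rw [mul_one, hr]
      exact hn N hN0 hND) a H
    refine h3.trans ?_
    have hNr : (N : ℝ) ≤ D := by exact_mod_cast hND
    calc 2 * ((r : ℝ) * N) * (r * (D : ℝ) ^ k) ≤ 2 * ((r : ℝ) * D) * (r * (D : ℝ) ^ k) := by gcongr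
      _ = 2 * (r : ℝ) ^ 2 * (D : ℝ) ^ (k + 1) := by ring
  refine (sum_le_sum h2).trans ?_
  rw [sum_const, nsmul_eq_mul]
  have hcard : (T.card : ℝ) ≤ (D : ℝ) ^ k := by
    have h3 : T ⊆ Fintype.piFinset (fun _ : Fin k => Icc 1 D) := by
      intro κ hκ
      refine Fintype.mem_piFinset.mpr fun i => ?_
      obtain ⟨hI, -, -⟩ := CA_mem_KS.1 (hKS κ hκ i)
      have hr1 := (mem_PC.1 (hp i)).1
      refine mem_Icc.mpr ⟨hI.1, ?_⟩
      exact (Nat.le_mul_of_pos_left _ hr1).trans (hle κ hκ i)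
    have h4 := card_le_card h3
    rw [Fintype.card_piFinset] at h4
    simp only [Nat.card_Icc, add_tsub_cancel_right, prod_const, card_univ, Fintype.card_fin] at h4
    exact_mod_cast h4
  calc (T.card : ℝ) * (2 * (r : ℝ) ^ 2 * (D : ℝ) ^ (k + 1)) ≤
        (D : ℝ) ^ k * (2 * (r : ℝ) ^ 2 * (D : ℝ) ^ (k + 1)) :=
        mul_le_mul_of_nonneg_right hcard (by positivity)
    _ = 2 * (r : ℝ) ^ 2 * (D : ℝ) ^ (2 * k + 1) := by ring

/-- the function in the mean, expanded -/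
theorem x1b_exp {k : ℕ} (Q : ℕ) (px : Ch) (hpx : px ∈ PC Q) (B : ℤ[X]) (P : Fin k → ℤ[X])
    (h : Fin k → ℕ) (n : ℤ) :
    Phf (pB px ({0} : Finset (Fin (k + 1)))) px.1.primeFactors (at' (sys B P h) n) =
      gk px 1 (B.eval n) * ∑ κ ∈ KT px (∅ : Finset (Fin k)),
        ∏ i, gk (pB px ∅ i) (κ i) ((P i).eval n + h i) := by
  classical
  obtain ⟨hr1, -, -⟩ := mem_PC.1 hpx
  rw [← X1A_expand Q px hpx ∅ (fun i => (P i).eval n + h i)]
  unfold Phf at'
  rw [Fin.prod_univ_succ]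
  have e0 : sys B P h 0 n = B.eval n := rfl
  have e1 : ∀ i : Fin k, sys B P h i.succ n = (P i).eval n + h i := fun i => rfl
  have e2 : pB px ({0} : Finset (Fin (k + 1))) 0 = px := by
    unfold pB
    rw [if_pos (Finset.mem_singleton_self _)]
  have e3 : ∀ i : Fin k, pB px ({0} : Finset (Fin (k + 1))) i.succ = pB px ∅ i := by
    intro i
    unfold pB
    rw [if_neg (by
      rw [Finset.mem_singleton]
      exact Fin.succ_ne_zero i), if_neg (Finset.notMem_empty _)]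
  rw [e0, e2]
  have e4 : cj px (B.eval n) * ((uu px.1.primeFactors (B.eval n) : ℝ) : ℂ) = gk px 1 (B.eval n) := by
    rw [← B1_SD px.1 hr1 px dvd_rfl (B.eval n), x1a_SD1 px.1 hr1, Finset.sum_singleton]
  rw [e4]
  refine congrArg (fun z => gk px 1 (B.eval n) * z) (Finset.prod_congr rfl fun i _ => ?_)
  rw [e1, e3 i]


end Pool.Agent.Lib.H24P
end
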