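import Pool.Agent.Lib.H59M.M2.M082
import Pool.Agent.Lib.H59M.M2.M085
import Pool.Agent.Lib.H59M.M2.M091
import Pool.Agent.Lib.H59M.M2.M092

/-! Merged copies (to shorten the build) of Lib.H59T.F5, Lib.H59T.UF, Lib.H59T.UBA, Lib.H59T.UB. -/

-- from Lib.H59T.F5
section

/-!
# Project H59T, chunk F5 (M): the weighted version for two forms
-/

open Finset

namespace Pool.Agent.Lib.H59T

open Pool.Agent.Lib.H68T Pool.Agent.Lib.H18Q Pool.Agent.Lib.H59P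

/-- The conjugate character. -/
noncomputable def cjp (p : Ch) : Ch := ⟨p.1, p.2⁻¹⟩

theorem f5_inv_prim {r : ℕ} (χ : DirichletCharacter ℂ r) (h : χ.IsPrimitive) :
    (χ⁻¹).IsPrimitive := by
  have key : ∀ ψ : DirichletCharacter ℂ r, ψ.conductorSet ⊆ (ψ⁻¹).conductorSet := by
    rintro ψ d ⟨hd, ξ, hξ⟩
    exact ⟨hd, ξ⁻¹, by rw [map_inv, ← hξ]⟩
  have e : (χ⁻¹).conductorSet = χ.conductorSet := by
    apply Set.Subset.antisymm
    · have := key χ⁻¹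
      rwa [inv_inv] at this
    · exact key χ
  unfold DirichletCharacter.IsPrimitive DirichletCharacter.conductor at *
  rw [e]
  exact h

/-- Proof. The inverse of a primitive character is primitive, `conj χ = χ⁻¹` (`MulChar.star_apply'`-type lemma or values of
absolute value `1` on units), the other factors of `gk` are real. -/
theorem F5_conj (Q : ℕ) (p : Ch) (hp : p ∈ PC Q) (κ : ℕ) (m : ℤ) :
    cjp p ∈ PC Q ∧ (starRingEnd ℂ) (gk p κ m) = gk (cjp p) κ m := by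
  obtain ⟨h1, h2, h3⟩ := mem_PC.1 hp
  refine ⟨mem_PC.2 ⟨h1, h2, f5_inv_prim p.2 h3⟩, ?_⟩
  have hne : NeZero p.1 := ⟨by omega⟩
  have hs : ∀ (χ : DirichletCharacter ℂ p.1) (a : ZMod p.1), (starRingEnd ℂ) (χ a) = χ⁻¹ a :=
    fun χ a => χ.star_apply' a
  unfold gk cjp
  dsimp only
  rw [map_mul, map_mul, Complex.conj_ofReal, Complex.conj_ofReal, Complex.conj_conj, hs, inv_inv]









end Pool.Agent.Lib.H59T
end

-- from Lib.H59T.UF
section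

/-!
# Project H59T, chunk UF (M): small cubes
-/

open Finset

namespace Pool.Agent.Lib.H59T

open Pool.Agent.Lib.H68T Pool.Agent.Lib.H18Q Pool.Agent.Lib.H59P

/-- Proof. `‖gk p κ m‖ ≤ p.1 ≤ Q` (see `F3_sup`), at most `Q` values of `κ`. -/
theorem UF_sup (Q Q' : ℕ) (p : Ch) (hp : p ∈ PC Q) (m : ℤ) : ‖Vl Q Q' p m‖ ≤ (Q : ℝ) ^ 2 := by
  unfold Vl
  refine (norm_sum_le _ _).trans ?_
  have h1 : ∀ κ ∈ (KS Q p.1).filter (fun κ => Q' < p.1 * κ), ‖gk p κ m‖ ≤ (Q : ℝ) := fun κ hκ =>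
    f3_gk Q p hp κ (mem_filter.1 hκ).1 m
  refine (Finset.sum_le_sum h1).trans ?_
  rw [sum_const, nsmul_eq_mul, pow_two]
  refine mul_le_mul_of_nonneg_right ?_ (Nat.cast_nonneg _)
  have h2 : ((KS Q p.1).filter (fun κ => Q' < p.1 * κ)).card ≤ Q := by
    have h3 : (KS Q p.1).filter (fun κ => Q' < p.1 * κ) ⊆ Icc 1 Q := by
      intro κ hκ
      have h4 := CA_mem_KS.1 (mem_filter.1 hκ).1
      exact mem_Icc.2 ⟨h4.1.1, h4.1.2.trans (Nat.div_le_self _ _)⟩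
    have h5 := card_le_card h3
    rwa [Nat.card_Icc, Nat.add_sub_cancel] at h5
  exact_mod_cast h2

/-- the four characters -/
noncomputable def uf_p (p : Ch) : Fin 4 → Ch := ![p, cjp p, cjp p, p]


theorem uf_conj (Q Q' : ℕ) (p : Ch) (hp : p ∈ PC Q) (m : ℤ) :
    (starRingEnd ℂ) (Vl Q Q' p m) = Vl Q Q' (cjp p) m := by
  unfold Vl
  rw [map_sum]
  have h1 : (cjp p).1 = p.1 := rfl
  refine Finset.sum_congr rfl fun κ _ => (F5_conj Q p hp κ m).2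

/-- the set of moduli -/
noncomputable def uf_T (Q Q' : ℕ) (p : Ch) : Finset (Fin 4 → ℕ) :=
  Fintype.piFinset fun i : Fin 4 => (KS Q (uf_p p i).1).filter (fun κ => Q' < (uf_p p i).1 * κ)

theorem uf_expand (Q Q' : ℕ) (p : Ch) (hp : p ∈ PC Q) (h h' k k' t m : ℤ) :
    P4 (Vl Q Q' p) h h' k k' (m + 2 * t) = ∑ κ ∈ uf_T Q Q' p,
      ∏ i, gk (uf_p p i) (κ i) (uf ![m + h + k, m + k, m + h, m] i h' k' t) := by
  unfold uf_T
  rw [← Finset.prod_univ_sum (fun i : Fin 4 => (KS Q (uf_p p i).1).filter (fun κ => Q' < (uf_p p i).1 * κ))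
    (fun i κ => gk (uf_p p i) κ (uf ![m + h + k, m + k, m + h, m] i h' k' t))]
  rw [Fin.prod_univ_four]
  unfold P4
  rw [uf_conj Q Q' p hp, uf_conj Q Q' p hp]
  have e0 : uf ![m + h + k, m + k, m + h, m] 0 h' k' t = m + 2 * t + h + k := by
    show 2 * t + (m + h + k) = _
    ring
  have e1 : uf ![m + h + k, m + k, m + h, m] 1 h' k' t = m + 2 * t + h' + k := by
    show 2 * t + h' + (m + k) = _
    ring
  have e2 : uf ![m + h + k, m + k, m + h, m] 2 h' k' t = m + 2 * t + h + k' := by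
    show 2 * t + k' + (m + h) = _
    ring
  have e3 : uf ![m + h + k, m + k, m + h, m] 3 h' k' t = m + 2 * t + h' + k' := by
    show 2 * t + h' + k' + m = _
    ring
  rw [e0, e1, e2, e3]
  rfl

theorem uf_lcm (Q Q' : ℕ) (p : Ch) (hp : p ∈ PC Q) (κ : Fin 4 → ℕ) (hκ : κ ∈ uf_T Q Q' p) :
    Q' < univ.lcm (fun i => (uf_p p i).1 * κ i) := by
  have h1 : ∀ i, κ i ∈ KS Q (uf_p p i).1 ∧ Q' < (uf_p p i).1 * κ i := fun i =>
    mem_filter.1 (Fintype.mem_piFinset.1 hκ i)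
  refine (h1 0).2.trans_le (Nat.le_of_dvd ?_ (Finset.dvd_lcm (mem_univ 0)))
  refine Nat.pos_of_ne_zero ?_
  rw [Ne, Finset.lcm_eq_zero_iff]
  rintro ⟨i, -, hi⟩
  have h2 := (h1 i).2
  omega

/-- Proof. For fixed `h, k` put `y = h'`, `y' = k'`, `z = t`: `P4 V h h' k k' (m + 2t)` is the product of `V`, `conj V`, `conj V`, `V` at the
forms `uf e` with `e = ![m+h+k, m+k, m+h, m]`. Expand `V = Vl Q Q' p` (and its conjugate, `F5_conj`): it is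
`∑_{κ ∈ T} ∏_i gk (p_i) (κ i) (uf e i …)` with `p_i = ![p, cjp p, cjp p, p]`, `T` = the product (`Fintype.piFinset`) of the sets
`(KS Q p.1).filter (Q' < p.1 κ)` (`Finset.prod_univ_sum`), and `Q' < p.1 κ_0 ≤ lcm`. `F3_gen` with `k = 4`, `A = 12`, `c = 1/72`,
`D = Q'`, `a = a' = b = 0`, `s = s' = H` (`Q^40 ≤ H`): at most `C H⁴ Q'^(-1/144)` for each of the `H²` pairs `(h, k)`. -/
theorem UF_cube : ∃ C : ℝ, 0 < C ∧ ∀ Q Q' H : ℕ, 1 ≤ Q' → Q ^ 40 ≤ H → ∀ p ∈ PC Q, ∀ m : ℤ,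
    ∑ h ∈ range H, ∑ h' ∈ range H, ∑ k ∈ range H, ∑ k' ∈ range H,
      ‖∑ t ∈ range H, P4 (Vl Q Q' p) h h' k k' (m + 2 * t)‖ ^ 2 ≤
      C * (H : ℝ) ^ 6 * (Q' : ℝ) ^ (-(1 / 144 : ℝ)) := by
  obtain ⟨C, hC, hF⟩ := F3_gen 4 12 (1 / 72) (by norm_num) (by norm_num)
  refine ⟨C, hC, fun Q Q' H hQ' hH p hp m => ?_⟩
  have hpp : ∀ i, uf_p p i ∈ PC Q := by
    intro i
    have h1 := (F5_conj Q p hp 1 0).1
    fin_cases i
    · exact hp
    · exact h1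
    · exact h1
    · exact hp
  have key : ∀ h k : ℕ, ∑ h' ∈ range H, ∑ k' ∈ range H,
      ‖∑ t ∈ range H, P4 (Vl Q Q' p) h h' k k' (m + 2 * t)‖ ^ 2 ≤
      C * ((H : ℝ) * H * (H : ℝ) ^ 2) * (Q' : ℝ) ^ (-(1 / 144 : ℝ)) := by
    intro h k
    have h1 := hF (uf ![m + h + k, m + k, m + h, m]) (UE_cp _) (UE_loc _) Q Q' hQ' (uf_p p) hpp
      (uf_T Q Q' p) (fun κ hκ => Fintype.mem_piFinset.2 fun i =>
        (mem_filter.1 (Fintype.mem_piFinset.1 hκ i)).1) (fun κ hκ => uf_lcm Q Q' p hp κ hκ)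
      0 0 0 H H H (by simpa using hH) (by simpa using hH) (by simpa using hH)
    have e1 : (-((1 : ℝ) / 72 / 2)) = -(1 / 144) := by norm_num
    rw [e1] at h1
    simp only [zero_add, ← Finset.range_eq_Ico] at h1
    refine le_trans (le_of_eq ?_) h1
    refine Finset.sum_congr rfl fun h' _ => Finset.sum_congr rfl fun k' _ => ?_
    congr 2
    refine Finset.sum_congr rfl fun t _ => ?_
    exact uf_expand Q Q' p hp h h' k k' t m
  have e2 : ∀ h ∈ range H, ∑ h' ∈ range H, ∑ k ∈ range H, ∑ k' ∈ range H,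
      ‖∑ t ∈ range H, P4 (Vl Q Q' p) h h' k k' (m + 2 * t)‖ ^ 2 ≤
      H * (C * ((H : ℝ) * H * (H : ℝ) ^ 2) * (Q' : ℝ) ^ (-(1 / 144 : ℝ))) := by
    intro h _
    rw [Finset.sum_comm]
    refine (Finset.sum_le_sum fun k _ => key h k).trans ?_
    rw [Finset.sum_const, Finset.card_range, nsmul_eq_mul]
  refine (Finset.sum_le_sum e2).trans (le_of_eq ?_)
  rw [Finset.sum_const, Finset.card_range, nsmul_eq_mul]
  ring

end Pool.Agent.Lib.H59T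
end

-- from Lib.H59T.UBA
section

/-!
# Project H59T, chunk UBA (M): small cubes for a kernel with slowly varying coefficient
-/

open Finset

namespace Pool.Agent.Lib.H59T

open Pool.Agent.Lib.H68T Pool.Agent.Lib.H18Q Pool.Agent.Lib.H59P

theorem uba_lip (β : ℤ → ℂ) (u v : ℤ) (δ : ℝ) (hδ : ∀ m, u ≤ m → m + 1 ≤ v → ‖β (m + 1) - β m‖ ≤ δ)
    (m : ℤ) (hm : u ≤ m) (j : ℕ) : m + j ≤ v → ‖β (m + j) - β m‖ ≤ j * δ := by
  induction j with
  | zero =>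
    intro _
    simp
  | succ j ih =>
    intro hj
    push_cast at hj
    have h1 := ih (by omega)
    have h2 := hδ (m + j) (by omega) (by omega)
    have h3 : β (m + ((j + 1 : ℕ) : ℤ)) - β m = (β (m + j + 1) - β (m + j)) + (β (m + j) - β m) := by
      push_cast
      rw [← add_assoc]
      ring
    rw [h3]
    refine (norm_add_le _ _).trans ?_
    push_cast
    linarith

theorem uba_prod {B e : ℝ} (hB : 0 ≤ B) {a b c d a' b' c' d' : ℂ} (hb : ‖b‖ ≤ B) (hc : ‖c‖ ≤ B) (hd : ‖d‖ ≤ B)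
    (ha' : ‖a'‖ ≤ B) (hb' : ‖b'‖ ≤ B) (hc' : ‖c'‖ ≤ B) (h1 : ‖a - a'‖ ≤ e) (h2 : ‖b - b'‖ ≤ e)
    (h3 : ‖c - c'‖ ≤ e) (h4 : ‖d - d'‖ ≤ e) : ‖a * b * c * d - a' * b' * c' * d'‖ ≤ 4 * e * B ^ 3 := by
  have he : 0 ≤ e := (norm_nonneg _).trans h1
  have h0 : a * b * c * d - a' * b' * c' * d' = (a - a') * b * c * d + a' * (b - b') * c * d +
      a' * b' * (c - c') * d + a' * b' * c' * (d - d') := by ring
  have e1 : ‖(a - a') * b * c * d‖ ≤ e * B * B * B := by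
    rw [norm_mul, norm_mul, norm_mul]
    gcongr
  have e2 : ‖a' * (b - b') * c * d‖ ≤ B * e * B * B := by
    rw [norm_mul, norm_mul, norm_mul]
    gcongr
  have e3 : ‖a' * b' * (c - c') * d‖ ≤ B * B * e * B := by
    rw [norm_mul, norm_mul, norm_mul]
    gcongr
  have e4 : ‖a' * b' * c' * (d - d')‖ ≤ B * B * B * e := by
    rw [norm_mul, norm_mul, norm_mul]
    gcongr
  rw [h0]
  have n1 := norm_add_le ((a - a') * b * c * d + a' * (b - b') * c * d + a' * b' * (c - c') * d) (a' * b' * c' * (d - d'))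
  have n2 := norm_add_le ((a - a') * b * c * d + a' * (b - b') * c * d) (a' * b' * (c - c') * d)
  have n3 := norm_add_le ((a - a') * b * c * d) (a' * (b - b') * c * d)
  have h5 : 4 * e * B ^ 3 = e * B * B * B + B * e * B * B + B * B * e * B + B * B * B * e := by ring
  rw [h5]
  linarith

theorem uba_G (b : ℂ) (hb : ‖b‖ ≤ 1) (V : ℤ → ℂ) (H : ℕ) (h h' k k' m : ℤ) :
    ‖∑ t ∈ range H, P4 (fun x => b * V x) h h' k k' (m + 2 * t)‖ ≤
      ‖∑ t ∈ range H, P4 V h h' k k' (m + 2 * t)‖ := by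
  have h1 : ∀ x, P4 (fun x => b * V x) h h' k k' x =
      (b * (starRingEnd ℂ) b * (starRingEnd ℂ) b * b) * P4 V h h' k k' x := by
    intro x
    unfold P4
    simp only [map_mul]
    ring
  rw [Finset.sum_congr rfl fun t _ => h1 _, ← Finset.mul_sum, norm_mul]
  refine mul_le_of_le_one_left (norm_nonneg _) ?_
  rw [norm_mul, norm_mul, norm_mul, Complex.norm_conj]
  calc ‖b‖ * ‖b‖ * ‖b‖ * ‖b‖ ≤ 1 * 1 * 1 * 1 := by gcongr
    _ = 1 := by norm_num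

theorem uba_const (H : ℕ) (a : ℝ) : ∑ _h ∈ range H, ∑ _h' ∈ range H, ∑ _k ∈ range H, ∑ _k' ∈ range H, a =
    (H : ℝ) ^ 4 * a := by
  simp only [Finset.sum_const, Finset.card_range, nsmul_eq_mul]
  ring

/-- all points in the interval -/
theorem uba_in {B δ : ℝ} (hB : 0 ≤ B) (hδ0 : 0 ≤ δ) (V : ℤ → ℂ) (hV : ∀ m, ‖V m‖ ≤ B) (β : ℤ → ℂ) (u v : ℤ)
    (hβ : ∀ m, u ≤ m → m ≤ v → ‖β m‖ ≤ 1)
    (hδ : ∀ m, u ≤ m → m + 1 ≤ v → ‖β (m + 1) - β m‖ ≤ δ) (H : ℕ) (m : ℤ) (h1 : u ≤ m) (h2 : m + 4 * H ≤ v)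
    (h h' k k' : ℕ) (hh : h < H) (hh' : h' < H) (hk : k < H) (hk' : k' < H) :
    ‖∑ t ∈ range H, P4 (fun m => if u ≤ m ∧ m ≤ v then β m * V m else 0) h h' k k' (m + 2 * t)‖ ^ 2 ≤
      2 * ‖∑ t ∈ range H, P4 V h h' k k' (m + 2 * t)‖ ^ 2 + 512 * (H : ℝ) ^ 4 * δ ^ 2 * B ^ 8 := by
  obtain ⟨F, hF⟩ : ∃ F : ℤ → ℂ, F = fun m => if u ≤ m ∧ m ≤ v then β m * V m else 0 := ⟨_, rfl⟩
  rw [← hF]
  have hFx : ∀ j : ℕ, j ≤ 4 * H → F (m + j) = β (m + j) * V (m + j) ∧ ‖F (m + j)‖ ≤ B ∧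
      ‖β m * V (m + j)‖ ≤ B ∧ ‖F (m + j) - β m * V (m + j)‖ ≤ 4 * H * δ * B := by
    intro j hj
    have e0 : F (m + j) = β (m + j) * V (m + j) := by
      rw [hF]
      exact if_pos ⟨by omega, by omega⟩
    refine ⟨e0, ?_, ?_, ?_⟩
    · rw [e0, norm_mul]
      calc ‖β (m + j)‖ * ‖V (m + j)‖ ≤ 1 * B :=
            mul_le_mul (hβ _ (by omega) (by omega)) (hV _) (norm_nonneg _) zero_le_one
        _ = B := one_mul _
    · rw [norm_mul]
      calc ‖β m‖ * ‖V (m + j)‖ ≤ 1 * B :=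
            mul_le_mul (hβ _ (by omega) (by omega)) (hV _) (norm_nonneg _) zero_le_one
        _ = B := one_mul _
    · rw [e0, ← sub_mul, norm_mul]
      have e1 := uba_lip β u v δ hδ m h1 j (by omega)
      have e2 : (j : ℝ) * δ ≤ 4 * H * δ := by
        refine mul_le_mul_of_nonneg_right ?_ hδ0
        exact_mod_cast hj
      exact mul_le_mul (e1.trans e2) (hV _) (norm_nonneg _) (by positivity)
  have hpt : ∀ t ∈ range H, ‖P4 F h h' k k' (m + 2 * t) - P4 (fun x => β m * V x) h h' k k' (m + 2 * t)‖ ≤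
      4 * (4 * H * δ * B) * B ^ 3 := by
    intro t ht
    rw [mem_range] at ht
    have a1 : (m + 2 * (t : ℤ) + h + k : ℤ) = m + ((2 * t + h + k : ℕ) : ℤ) := by push_cast; ring
    have a2 : (m + 2 * (t : ℤ) + h' + k : ℤ) = m + ((2 * t + h' + k : ℕ) : ℤ) := by push_cast; ring
    have a3 : (m + 2 * (t : ℤ) + h + k' : ℤ) = m + ((2 * t + h + k' : ℕ) : ℤ) := by push_cast; ring
    have a4 : (m + 2 * (t : ℤ) + h' + k' : ℤ) = m + ((2 * t + h' + k' : ℕ) : ℤ) := by push_cast; ring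
    obtain ⟨-, b1, c1, d1⟩ := hFx (2 * t + h + k) (by omega)
    obtain ⟨-, b2, c2, d2⟩ := hFx (2 * t + h' + k) (by omega)
    obtain ⟨-, b3, c3, d3⟩ := hFx (2 * t + h + k') (by omega)
    obtain ⟨-, b4, c4, d4⟩ := hFx (2 * t + h' + k') (by omega)
    unfold P4
    rw [a1, a2, a3, a4]
    refine uba_prod hB ?_ ?_ b4 c1 ?_ ?_ d1 ?_ ?_ d4
    · rw [Complex.norm_conj]; exact b2
    · rw [Complex.norm_conj]; exact b3
    · rw [Complex.norm_conj]; exact c2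
    · rw [Complex.norm_conj]; exact c3
    · rw [← map_sub, Complex.norm_conj]; exact d2
    · rw [← map_sub, Complex.norm_conj]; exact d3
  have hdiff : ‖∑ t ∈ range H, P4 F h h' k k' (m + 2 * t) - ∑ t ∈ range H, P4 (fun x => β m * V x) h h' k k' (m + 2 * t)‖ ≤
      16 * (H : ℝ) ^ 2 * δ * B ^ 4 := by
    rw [← Finset.sum_sub_distrib]
    refine (norm_sum_le _ _).trans ((Finset.sum_le_sum hpt).trans (le_of_eq ?_))
    rw [Finset.sum_const, Finset.card_range, nsmul_eq_mul]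
    ring
  have hG := uba_G (β m) (hβ m h1 (by omega)) V H h h' k k' m
  generalize ∑ t ∈ range H, P4 F h h' k k' (m + 2 * t) = X at hdiff ⊢
  generalize ∑ t ∈ range H, P4 (fun x => β m * V x) h h' k k' (m + 2 * t) = Y at hdiff hG
  generalize ‖∑ t ∈ range H, P4 V h h' k k' (m + 2 * t)‖ = Z at hG ⊢
  have e1 : ‖X‖ ≤ ‖X - Y‖ + ‖Y‖ := by
    have := norm_add_le (X - Y) Y
    rwa [sub_add_cancel] at this
  have e2 : ‖X‖ ≤ 16 * (H : ℝ) ^ 2 * δ * B ^ 4 + Z := by linarith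
  have e3 := pow_le_pow_left₀ (norm_nonneg _) e2 2
  refine e3.trans ?_
  nlinarith [sq_nonneg (16 * (H : ℝ) ^ 2 * δ * B ^ 4 - Z)]

theorem uba_triv {B : ℝ} (F : ℤ → ℂ) (hF : ∀ m, ‖F m‖ ≤ B) (H : ℕ) (m h h' k k' : ℤ) :
    ‖∑ t ∈ range H, P4 F h h' k k' (m + 2 * t)‖ ^ 2 ≤ (H : ℝ) ^ 2 * B ^ 8 := by
  have hB : 0 ≤ B := (norm_nonneg _).trans (hF 0)
  have h1 : ∀ x, ‖P4 F h h' k k' x‖ ≤ B ^ 4 := by
    intro x
    unfold P4
    rw [norm_mul, norm_mul, norm_mul, Complex.norm_conj, Complex.norm_conj]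
    calc _ ≤ B * B * B * B := by
          gcongr
          · exact hF _
          · exact hF _
          · exact hF _
          · exact hF _
      _ = B ^ 4 := by ring
  have h2 : ‖∑ t ∈ range H, P4 F h h' k k' (m + 2 * t)‖ ≤ H * B ^ 4 := by
    refine (norm_sum_le _ _).trans ((Finset.sum_le_sum fun t _ => h1 _).trans (le_of_eq ?_))
    rw [Finset.sum_const, Finset.card_range, nsmul_eq_mul]
  refine (pow_le_pow_left₀ (norm_nonneg _) h2 2).trans (le_of_eq ?_)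
  ring

theorem uba_ind (S A : Finset ℤ) (a : ℝ) (ha : 0 ≤ a) : ∑ m ∈ S, (if m ∈ A then a else 0) ≤ A.card * a := by
  classical
  rw [← Finset.sum_filter, Finset.sum_const, nsmul_eq_mul]
  refine mul_le_mul_of_nonneg_right ?_ ha
  have h1 : S.filter (fun m => m ∈ A) ⊆ A := fun m hm => (Finset.mem_filter.1 hm).2
  exact_mod_cast Finset.card_le_card h1

/-- The sum over the small cubes for a kernel with slowly varying coefficient and sharp cutoffs. Proof. `H = Q^40`. If the interval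
`[m, m + 4H]` lies in `[u, v]`: the coefficients at the points `m + j`, `0 ≤ j ≤ 4H`, differ from `β(m)` by at most `4 H δ`, so the inner
sum is `|β(m)|⁴`-type constant times the sum for `V = Vl Q Q' p` up to `H · 4 (4 H δ) B⁴`, `B = Q²` (`UF_sup`), and by `UF_cube` and
`‖x+y‖² ≤ 2‖x‖² + 2‖y‖²` the contribution of `m` is at most `2 C H⁶ Q'^(-1/144) + 2 H⁴ (16 H² δ Q^8)²`. If `[m, m+4H]` does not
meet `[u, v]` it is `0`. At most `8 H + 2` other `m`, each at most `H⁶ B^8 = H⁶ Q^16`. -/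
theorem UB_cubes : ∃ C : ℝ, 0 < C ∧ ∀ Q Q' : ℕ, 1 ≤ Q' → 1 ≤ Q → ∀ p ∈ PC Q, ∀ (β : ℤ → ℂ) (u v : ℤ)
    (δ : ℝ), u ≤ v → 0 ≤ δ → (∀ m, u ≤ m → m ≤ v → ‖β m‖ ≤ 1) →
    (∀ m, u ≤ m → m + 1 ≤ v → ‖β (m + 1) - β m‖ ≤ δ) → ∀ S : Finset ℤ,
    ∑ m ∈ S, ∑ h ∈ range (Q ^ 40), ∑ h' ∈ range (Q ^ 40), ∑ k ∈ range (Q ^ 40), ∑ k' ∈ range (Q ^ 40),
      ‖∑ t ∈ range (Q ^ 40), P4 (fun m => if u ≤ m ∧ m ≤ v then β m * Vl Q Q' p m else 0) h h' k k'
        (m + 2 * t)‖ ^ 2 ≤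
      (Q : ℝ) ^ 240 * (((v : ℝ) - u + 1) * (C * (Q' : ℝ) ^ (-(1 / 144 : ℝ)) + 512 * δ ^ 2 * (Q : ℝ) ^ 96) +
        10 * (Q : ℝ) ^ 56) := by
  classical
  obtain ⟨C, hC, hcube⟩ := UF_cube
  refine ⟨2 * C, by positivity, ?_⟩
  intro Q Q' hQ' hQ p hp β u v δ huv hδ0 hβ hδ S
  obtain ⟨H, hH⟩ : ∃ H : ℕ, H = Q ^ 40 := ⟨_, rfl⟩
  have hHR : (H : ℝ) = (Q : ℝ) ^ 40 := by rw [hH]; push_cast; rfl
  rw [← hH]
  have hQ0 : (0 : ℝ) < Q := by exact_mod_cast hQ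
  have hV : ∀ m, ‖Vl Q Q' p m‖ ≤ (Q : ℝ) ^ 2 := UF_sup Q Q' p hp
  have hB : (0 : ℝ) ≤ (Q : ℝ) ^ 2 := by positivity
  obtain ⟨F, hF⟩ : ∃ F : ℤ → ℂ, F = fun m => if u ≤ m ∧ m ≤ v then β m * Vl Q Q' p m else 0 := ⟨_, rfl⟩
  have hFB : ∀ m, ‖F m‖ ≤ (Q : ℝ) ^ 2 := by
    intro m
    rw [hF]
    simp only
    split_ifs with hm
    · rw [norm_mul]
      calc ‖β m‖ * ‖Vl Q Q' p m‖ ≤ 1 * (Q : ℝ) ^ 2 :=
            mul_le_mul (hβ m hm.1 hm.2) (hV m) (norm_nonneg _) zero_le_one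
        _ = _ := one_mul _
    · rw [norm_zero]
      exact hB
  obtain ⟨q, hq⟩ : ∃ q : ℝ, q = (Q' : ℝ) ^ (-(1 / 144 : ℝ)) := ⟨_, rfl⟩
  have hq0 : 0 ≤ q := by rw [hq]; exact Real.rpow_nonneg (Nat.cast_nonneg _) _
  obtain ⟨aa, haa⟩ : ∃ aa : ℝ, aa = (H : ℝ) ^ 6 * (2 * C * q + 512 * δ ^ 2 * (Q : ℝ) ^ 96) := ⟨_, rfl⟩
  obtain ⟨bb, hbb⟩ : ∃ bb : ℝ, bb = (H : ℝ) ^ 6 * (Q : ℝ) ^ 16 := ⟨_, rfl⟩
  have haa0 : 0 ≤ aa := by rw [haa]; positivity
  have hbb0 : 0 ≤ bb := by rw [hbb]; positivity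
  have hE : ∀ m : ℤ, ∑ h ∈ range H, ∑ h' ∈ range H, ∑ k ∈ range H, ∑ k' ∈ range H,
      ‖∑ t ∈ range H, P4 F h h' k k' (m + 2 * t)‖ ^ 2 ≤
      (if m ∈ Icc u v then aa else 0) + (if m ∈ Ico (u - 4 * H) u ∪ Ioc (v - 4 * H) v then bb else 0) := by
    intro m
    have hy0 : 0 ≤ (if m ∈ Icc u v then aa else 0) := by split_ifs; exacts [haa0, le_rfl]
    have hz0 : 0 ≤ (if m ∈ Ico (u - 4 * H) u ∪ Ioc (v - 4 * H) v then bb else 0) := by
      split_ifs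
      exacts [hbb0, le_rfl]
    by_cases hA : u ≤ m ∧ m + 4 * H ≤ v
    · have h1 : m ∈ Icc u v := Finset.mem_Icc.2 ⟨hA.1, by omega⟩
      rw [if_pos h1]
      refine le_trans ?_ (le_add_of_nonneg_right hz0)
      have h2 : ∑ h ∈ range H, ∑ h' ∈ range H, ∑ k ∈ range H, ∑ k' ∈ range H,
          ‖∑ t ∈ range H, P4 F h h' k k' (m + 2 * t)‖ ^ 2 ≤
          ∑ h ∈ range H, ∑ h' ∈ range H, ∑ k ∈ range H, ∑ k' ∈ range H,
          (2 * ‖∑ t ∈ range H, P4 (Vl Q Q' p) h h' k k' (m + 2 * t)‖ ^ 2 +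
            512 * (H : ℝ) ^ 4 * δ ^ 2 * ((Q : ℝ) ^ 2) ^ 8) := by
        refine Finset.sum_le_sum fun h hh => Finset.sum_le_sum fun h' hh' => Finset.sum_le_sum fun k hk =>
          Finset.sum_le_sum fun k' hk' => ?_
        rw [hF]
        exact uba_in hB hδ0 (Vl Q Q' p) hV β u v hβ hδ H m hA.1 hA.2 h h' k k' (mem_range.1 hh)
          (mem_range.1 hh') (mem_range.1 hk) (mem_range.1 hk')
      refine h2.trans ?_
      have h4 : (H : ℝ) ^ 4 * (512 * (H : ℝ) ^ 4 * δ ^ 2 * ((Q : ℝ) ^ 2) ^ 8) =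
          (H : ℝ) ^ 6 * (512 * δ ^ 2 * (Q : ℝ) ^ 96) := by
        rw [hHR]
        ring
      have h3 := hcube Q Q' H hQ' (le_of_eq hH.symm) p hp m
      rw [← hq] at h3
      generalize 512 * (H : ℝ) ^ 4 * δ ^ 2 * ((Q : ℝ) ^ 2) ^ 8 = cst at h4 ⊢
      simp only [Finset.sum_add_distrib, ← Finset.mul_sum]
      rw [uba_const, h4, haa]
      linarith
    · by_cases hC' : m ∈ Ico (u - 4 * H) u ∪ Ioc (v - 4 * H) v
      · rw [if_pos hC']
        refine le_trans ?_ (le_add_of_nonneg_left hy0)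
        have h2 : ∑ h ∈ range H, ∑ h' ∈ range H, ∑ k ∈ range H, ∑ k' ∈ range H,
            ‖∑ t ∈ range H, P4 F h h' k k' (m + 2 * t)‖ ^ 2 ≤
            ∑ _h ∈ range H, ∑ _h' ∈ range H, ∑ _k ∈ range H, ∑ _k' ∈ range H,
            ((H : ℝ) ^ 2 * ((Q : ℝ) ^ 2) ^ 8) :=
          Finset.sum_le_sum fun h _ => Finset.sum_le_sum fun h' _ => Finset.sum_le_sum fun k _ =>
            Finset.sum_le_sum fun k' _ => uba_triv F hFB H m h h' k k'
        refine h2.trans (le_of_eq ?_)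
        rw [uba_const, hbb]
        ring
      · refine le_trans (le_of_eq ?_) (add_nonneg hy0 hz0)
        have hout : ∀ j : ℕ, j < 4 * H → F (m + j) = 0 := by
          intro j hj
          rw [hF]
          refine if_neg fun hcon => ?_
          rw [Finset.mem_union, Finset.mem_Ico, Finset.mem_Ioc] at hC'
          omega
        refine Finset.sum_eq_zero fun h hh => Finset.sum_eq_zero fun h' _ => Finset.sum_eq_zero fun k hk =>
          Finset.sum_eq_zero fun k' _ => ?_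
        rw [mem_range] at hh hk
        have h3 : ∑ t ∈ range H, P4 F h h' k k' (m + 2 * t) = 0 := by
          refine Finset.sum_eq_zero fun t ht => ?_
          rw [mem_range] at ht
          have a1 : (m + 2 * (t : ℤ) + h + k : ℤ) = m + ((2 * t + h + k : ℕ) : ℤ) := by push_cast; ring
          unfold P4
          rw [a1, hout _ (by omega), zero_mul, zero_mul, zero_mul]
        rw [h3, norm_zero]
        norm_num
  rw [← hF]
  refine (Finset.sum_le_sum fun m _ => hE m).trans ?_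
  rw [Finset.sum_add_distrib]
  have h1 := uba_ind S (Icc u v) aa haa0
  have h2 := uba_ind S (Ico (u - 4 * H) u ∪ Ioc (v - 4 * H) v) bb hbb0
  have h3 : ((Icc u v).card : ℝ) = (v : ℝ) - u + 1 := by
    rw [Int.card_Icc]
    have h4 : (((v + 1 - u).toNat : ℕ) : ℤ) = v + 1 - u := Int.toNat_of_nonneg (by omega)
    have h5 : (((v + 1 - u).toNat : ℕ) : ℝ) = (((v + 1 - u).toNat : ℤ) : ℝ) := by push_cast; rfl
    rw [h5, h4]
    push_cast
    ring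
  have h4 : ((Ico (u - 4 * H) u ∪ Ioc (v - 4 * H) v).card : ℝ) ≤ 8 * H := by
    have h5 := Finset.card_union_le (Ico (u - 4 * (H : ℤ)) u) (Ioc (v - 4 * (H : ℤ)) v)
    rw [Int.card_Ico, Int.card_Ioc] at h5
    have h6 : (Ico (u - 4 * (H : ℤ)) u ∪ Ioc (v - 4 * (H : ℤ)) v).card ≤ 8 * H := by omega
    exact_mod_cast h6
  rw [h3] at h1
  have h5 := h2.trans (mul_le_mul_of_nonneg_right h4 hbb0)
  have h6 : 8 * (H : ℝ) * bb = (Q : ℝ) ^ 240 * (8 * (Q : ℝ) ^ 56) := by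
    rw [hbb, hHR]
    ring
  have h7 : ((v : ℝ) - u + 1) * aa = (Q : ℝ) ^ 240 * (((v : ℝ) - u + 1) * (2 * C * q + 512 * δ ^ 2 * (Q : ℝ) ^ 96)) := by
    rw [haa, hHR]
    ring
  rw [← hq]
  rw [h6] at h5
  rw [h7] at h1
  have h8 : (Q : ℝ) ^ 240 * (8 * (Q : ℝ) ^ 56) ≤ (Q : ℝ) ^ 240 * (10 * (Q : ℝ) ^ 56) := by
    refine mul_le_mul_of_nonneg_left ?_ (by positivity)
    have : (0 : ℝ) ≤ (Q : ℝ) ^ 56 := by positivity
    linarith
  rw [mul_add]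
  linarith

end Pool.Agent.Lib.H59T
end

-- from Lib.H59T.UB
section

/-!
# Project H59T, chunk UB (M): one character
-/

open Finset

namespace Pool.Agent.Lib.H59T

open Pool.Agent.Lib.H68T Pool.Agent.Lib.H18Q Pool.Agent.Lib.H59P

/-- the representative of an integer in the middle range -/
theorem ub_rep (n : ℕ) (x : ℤ) (hx : -(2 * n : ℤ) ≤ x ∧ x ≤ 2 * n) :
    ((x : ZMod (4 * n + 1))).valMinAbs = x := by
  rw [ZMod.valMinAbs_spec]
  refine ⟨rfl, ?_, ?_⟩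
  · push_cast
    omega
  · push_cast
    omega

theorem ub_mem (n : ℕ) (x : ZMod (4 * n + 1)) : -(2 * n : ℤ) ≤ x.valMinAbs ∧ x.valMinAbs ≤ 2 * n := by
  have h := ZMod.valMinAbs_mem_Ioc x
  rw [Set.mem_Ioc] at h
  push_cast at h
  omega

/-- sums over `ZMod (4n+1)` -/
theorem ub_sum {A : Type*} [AddCommMonoid A] (n : ℕ) (G : ZMod (4 * n + 1) → A) :
    ∑ x : ZMod (4 * n + 1), G x = ∑ x ∈ Icc (-(2 * n : ℤ)) (2 * n), G (x : ZMod (4 * n + 1)) := by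
  refine Finset.sum_bij' (fun x _ => x.valMinAbs) (fun (x : ℤ) _ => (x : ZMod (4 * n + 1))) (fun x _ => ?_)
    (fun _ _ => mem_univ _) (fun x _ => ZMod.coe_valMinAbs x) (fun x hx => ?_) (fun x _ => ?_)
  · exact mem_Icc.2 (ub_mem n x)
  · exact ub_rep n x (mem_Icc.1 hx)
  · rw [ZMod.coe_valMinAbs]

/-- the kernel with the cutoff, near the range of the representatives -/
theorem ub_F (n H : ℕ) (hH : 4 * H ≤ 2 * n) (u v : ℤ) (hu : 1 ≤ u) (hv : v ≤ 2 * n) (g : ℤ → ℂ) (m : ℤ)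
    (hm : -(2 * n : ℤ) ≤ m ∧ m ≤ 2 * n) (j : ℕ) (hj : j ≤ 4 * H) :
    (fun x : ZMod (4 * n + 1) => if u ≤ x.valMinAbs ∧ x.valMinAbs ≤ v then g x.valMinAbs else 0)
      ((m + j : ℤ) : ZMod (4 * n + 1)) = if u ≤ m + j ∧ m + j ≤ v then g (m + j) else 0 := by
  by_cases h : m + j ≤ 2 * n
  · have h1 := ub_rep n (m + j) ⟨by omega, h⟩
    simp only [h1]
  · have h1 : ((m + j : ℤ) : ZMod (4 * n + 1)) = ((m + j - (4 * n + 1 : ℕ) : ℤ) : ZMod (4 * n + 1)) := by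
      have h2 : (((4 * n + 1 : ℕ) : ℤ) : ZMod (4 * n + 1)) = 0 := by
        rw [Int.cast_natCast]
        exact ZMod.natCast_self _
      rw [Int.cast_sub (m + (j : ℤ)), h2, sub_zero]
    have h3 := ub_rep n (m + j - (4 * n + 1 : ℕ)) ⟨by push_cast; omega, by push_cast; omega⟩
    simp only [h1, h3]
    rw [if_neg, if_neg]
    · omega
    · push_cast
      omega

/-- the left side as a sum over `ZMod (4n+1)` -/
theorem ub_lhs (n : ℕ) (u v : ℤ) (f g W B : ℤ → ℂ) :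
    ∑ x ∈ Icc (-(n : ℤ)) n, ∑ y ∈ Icc (-(n : ℤ)) n, f x * g y *
      (if u ≤ x + y ∧ x + y ≤ min v (2 * n) then B (x + y) else 0) * W (x - y) =
    ∑ x : ZMod (4 * n + 1), ∑ y : ZMod (4 * n + 1),
      (if x.valMinAbs ∈ Icc (-(n : ℤ)) n then f x.valMinAbs else 0) *
      (if y.valMinAbs ∈ Icc (-(n : ℤ)) n then g y.valMinAbs else 0) *
      (fun x : ZMod (4 * n + 1) => if u ≤ x.valMinAbs ∧ x.valMinAbs ≤ min v (2 * n) then B x.valMinAbs else 0)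
        (x + y) * W ((x - y).valMinAbs) := by
  have hsub : Icc (-(n : ℤ)) n ⊆ Icc (-(2 * n : ℤ)) (2 * n) := by
    intro x hx
    rw [mem_Icc] at hx ⊢
    omega
  rw [ub_sum]
  have h0 : ∀ x ∈ Icc (-(2 * n : ℤ)) (2 * n), x ∉ Icc (-(n : ℤ)) n → ∑ y : ZMod (4 * n + 1),
      (if (x : ZMod (4 * n + 1)).valMinAbs ∈ Icc (-(n : ℤ)) n then f (x : ZMod (4 * n + 1)).valMinAbs else 0) *
      (if y.valMinAbs ∈ Icc (-(n : ℤ)) n then g y.valMinAbs else 0) *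
      (fun x : ZMod (4 * n + 1) => if u ≤ x.valMinAbs ∧ x.valMinAbs ≤ min v (2 * n) then B x.valMinAbs else 0)
        (x + y) * W (((x : ZMod (4 * n + 1)) - y).valMinAbs) = 0 := by
    intro x hx hx'
    refine Finset.sum_eq_zero fun y _ => ?_
    rw [ub_rep n x (mem_Icc.1 hx), if_neg hx', zero_mul, zero_mul, zero_mul]
  rw [← Finset.sum_subset hsub h0]
  refine Finset.sum_congr rfl fun x hx => ?_
  rw [ub_sum]
  have h1 : ∀ y ∈ Icc (-(2 * n : ℤ)) (2 * n), y ∉ Icc (-(n : ℤ)) n →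
      (if (x : ZMod (4 * n + 1)).valMinAbs ∈ Icc (-(n : ℤ)) n then f (x : ZMod (4 * n + 1)).valMinAbs else 0) *
      (if (y : ZMod (4 * n + 1)).valMinAbs ∈ Icc (-(n : ℤ)) n then g (y : ZMod (4 * n + 1)).valMinAbs else 0) *
      (fun x : ZMod (4 * n + 1) => if u ≤ x.valMinAbs ∧ x.valMinAbs ≤ min v (2 * n) then B x.valMinAbs else 0)
        (x + y) * W (((x : ZMod (4 * n + 1)) - y).valMinAbs) = 0 := by
    intro y hy hy'
    rw [ub_rep n y (mem_Icc.1 hy), if_neg hy', mul_zero, zero_mul, zero_mul]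
  rw [← Finset.sum_subset hsub h1]
  refine Finset.sum_congr rfl fun y hy => ?_
  have hx1 := mem_Icc.1 hx
  have hy1 := mem_Icc.1 hy
  rw [ub_rep n x ⟨by omega, by omega⟩, ub_rep n y ⟨by omega, by omega⟩, if_pos hx, if_pos hy,
    ← Int.cast_add, ← Int.cast_sub, ub_rep n (x - y) ⟨by omega, by omega⟩]
  simp only [ub_rep n (x + y) ⟨by omega, by omega⟩]

/-- the right side of `UA_main` -/
theorem ub_rhs (n H : ℕ) (hH : 4 * H ≤ 2 * n) (u v : ℤ) (hu : 1 ≤ u) (hv : v ≤ 2 * n) (g : ℤ → ℂ)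
    (F : ZMod (4 * n + 1) → ℂ)
    (hF : F = fun x : ZMod (4 * n + 1) => if u ≤ x.valMinAbs ∧ x.valMinAbs ≤ v then g x.valMinAbs else 0) :
    ∑ m : ZMod (4 * n + 1), ∑ h ∈ range H, ∑ h' ∈ range H, ∑ k ∈ range H,
        ∑ k' ∈ range H, ‖∑ t ∈ range H, F (m + 2 * (t : ZMod (4 * n + 1)) + h + k) *
          star (F (m + 2 * (t : ZMod (4 * n + 1)) + h' + k)) * star (F (m + 2 * (t : ZMod (4 * n + 1)) + h + k')) *
          F (m + 2 * (t : ZMod (4 * n + 1)) + h' + k')‖ ^ 2 =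
    ∑ m ∈ Icc (-(2 * n : ℤ)) (2 * n), ∑ h ∈ range H, ∑ h' ∈ range H, ∑ k ∈ range H, ∑ k' ∈ range H,
      ‖∑ t ∈ range H, P4 (fun m => if u ≤ m ∧ m ≤ v then g m else 0) h h' k k' (m + 2 * t)‖ ^ 2 := by
  rw [ub_sum]
  refine Finset.sum_congr rfl fun m hm => Finset.sum_congr rfl fun h hh => Finset.sum_congr rfl fun h' hh' =>
    Finset.sum_congr rfl fun k hk => Finset.sum_congr rfl fun k' hk' => ?_
  rw [mem_range] at hh hh' hk hk'
  have key : ∀ t ∈ range H, ∀ a b : ℕ, a < H → b < H →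
      F ((m : ZMod (4 * n + 1)) + 2 * (t : ZMod (4 * n + 1)) + a + b) =
        (fun m => if u ≤ m ∧ m ≤ v then g m else 0) (m + 2 * t + a + b) := by
    intro t ht a b ha hb
    rw [mem_range] at ht
    have e1 : (m : ZMod (4 * n + 1)) + 2 * (t : ZMod (4 * n + 1)) + a + b =
        ((m + ((2 * t + a + b : ℕ) : ℤ) : ℤ) : ZMod (4 * n + 1)) := by
      push_cast
      ring
    have e2 := ub_F n H hH u v hu hv g m (mem_Icc.1 hm) (2 * t + a + b) (by omega)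
    rw [e1, hF, e2]
    have e3 : m + ((2 * t + a + b : ℕ) : ℤ) = m + 2 * t + a + b := by
      push_cast
      ring
    rw [e3]
  congr 2
  refine Finset.sum_congr rfl fun t ht => ?_
  unfold P4
  rw [key t ht h k hh hk, key t ht h' k hh' hk, key t ht h k' hh hk', key t ht h' k' hh' hk']
  rfl

/-- **One character.** Proof. `M = 4 n + 1`; represent the elements of `ZMod M` by the integers in `[-2n, 2n]` (`ZMod.valMinAbs`).
`f, g` cut off to `[-n, n]`, `F` to `[X, min(4X, 2n)]`: the sum is that of `UA_main` (`|x|, |y| ≤ n` imply `|x ± y| ≤ 2n`, so no wrap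
around). In `UA_main` the arguments are `m + j`, `0 ≤ j ≤ 4H`, `m ∈ [-2n, 2n]`; if `m + j > 2n` it is represented by a negative
integer, where `F = 0`, in agreement with the cutoff at `2n` (`4H ≤ 2n`). So `UB_cubes` with `u = X`, `v = min(4X, 2n)`,
`δ = Q^6/X`, `S = [-2n, 2n]` (if `v < u` everything is `0`): `|T|^8 ≤ (5n)^15 (4n (C Q'^(-1/144) + 512 Q^108/X²) + 10 Q^56)`;
`X ≥ Q^100` and `Q' ≤ Q`: at most `C' n^16 Q'^(-1/144)`. -/
theorem UB_one : ∃ C : ℝ, 0 < C ∧ ∀ Q Q' X n : ℕ, 1 ≤ Q' → Q' ≤ Q → Q ^ 100 ≤ X → X ≤ n →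
    ∀ p ∈ PC Q, ∀ β : ℤ → ℂ, (∀ m : ℤ, (X : ℤ) ≤ m → m ≤ 4 * X → ‖β m‖ ≤ 1) →
    (∀ m : ℤ, (X : ℤ) ≤ m → m + 1 ≤ 4 * X → ‖β (m + 1) - β m‖ ≤ (Q : ℝ) ^ 6 / X) →
    ∀ f g W : ℤ → ℂ, (∀ x, ‖f x‖ ≤ 1) → (∀ x, ‖g x‖ ≤ 1) → (∀ x, ‖W x‖ ≤ 1) →
    ‖∑ x ∈ Icc (-(n : ℤ)) n, ∑ y ∈ Icc (-(n : ℤ)) n, f x * g y *
      (if (X : ℤ) ≤ x + y ∧ x + y ≤ 4 * X then β (x + y) * Vl Q Q' p (x + y) else 0) * W (x - y)‖ ≤
      C * (n : ℝ) ^ 2 * (Q' : ℝ) ^ (-(1 / 1152 : ℝ)) := by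
  obtain ⟨C, hC, hU⟩ := UB_cubes
  refine ⟨5 ^ 15 * (2 * C + 1034) + 9, by positivity, ?_⟩
  intro Q Q' X n hQ' hQQ hX hn p hp β hβ hβ' f g W hf hg hW
  have hQ1 : 1 ≤ Q := hQ'.trans hQQ
  have hX1 : 1 ≤ X := (Nat.one_le_pow _ _ hQ1).trans hX
  have hn1 : 1 ≤ n := hX1.trans hn
  have hnR : (1 : ℝ) ≤ n := by exact_mod_cast hn1
  have hQR : (1 : ℝ) ≤ Q := by exact_mod_cast hQ1
  have hQ'R : (1 : ℝ) ≤ Q' := by exact_mod_cast hQ'
  have hQQR : (Q' : ℝ) ≤ Q := by exact_mod_cast hQQ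
  have hXR : (Q : ℝ) ^ 100 ≤ X := by exact_mod_cast hX
  have hXnR : (X : ℝ) ≤ n := by exact_mod_cast hn
  have hXR1 : (1 : ℝ) ≤ X := by exact_mod_cast hX1
  by_cases hQ2 : Q = 1
  · -- the trivial case
    have hQ'1 : Q' = 1 := by omega
    have e1 : (Q' : ℝ) ^ (-(1 / 1152 : ℝ)) = 1 := by
      rw [hQ'1, Nat.cast_one, Real.one_rpow]
    rw [e1, mul_one]
    have h1 : ‖∑ x ∈ Icc (-(n : ℤ)) n, ∑ y ∈ Icc (-(n : ℤ)) n, f x * g y *
      (if (X : ℤ) ≤ x + y ∧ x + y ≤ 4 * X then β (x + y) * Vl Q Q' p (x + y) else 0) * W (x - y)‖ ≤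
        ∑ x ∈ Icc (-(n : ℤ)) n, ∑ y ∈ Icc (-(n : ℤ)) n, (1 : ℝ) := by
      refine (norm_sum_le _ _).trans (Finset.sum_le_sum fun x _ => ?_)
      refine (norm_sum_le _ _).trans (Finset.sum_le_sum fun y _ => ?_)
      have h2 : ‖(if (X : ℤ) ≤ x + y ∧ x + y ≤ 4 * X then β (x + y) * Vl Q Q' p (x + y) else 0)‖ ≤ 1 := by
        split_ifs with h3
        · rw [norm_mul]
          have h4 := UF_sup Q Q' p hp (x + y)
          rw [hQ2, Nat.cast_one, one_pow] at h4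
          rw [hQ2]
          exact mul_le_one₀ (hβ _ h3.1 h3.2) (norm_nonneg _) h4
        · simp
      rw [norm_mul, norm_mul, norm_mul]
      exact mul_le_one₀ (mul_le_one₀ (mul_le_one₀ (hf _) (norm_nonneg _) (hg _)) (norm_nonneg _) h2)
        (norm_nonneg _) (hW _)
    refine h1.trans ?_
    rw [Finset.sum_const, Finset.sum_const, Int.card_Icc, smul_smul, nsmul_eq_mul, mul_one]
    have h5 : ((n : ℤ) + 1 - -(n : ℤ)).toNat = 2 * n + 1 := by omega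
    rw [h5]
    push_cast
    have h6 : 0 ≤ 5 ^ 15 * (2 * C + 1034) * (n : ℝ) ^ 2 := by positivity
    nlinarith
  -- the main case
  have hQ22 : 2 ≤ Q := by omega
  set H : ℕ := Q ^ 40 with hH
  have hHpos : 0 < H := by
    rw [hH]
    positivity
  have hHn : 4 * H ≤ 2 * n := by
    have h1 : Q ^ 42 ≤ Q ^ 100 := Nat.pow_le_pow_right hQ1 (by norm_num)
    have h2 : 4 * H ≤ Q ^ 42 := by
      rw [hH, pow_add Q 2 40]
      exact Nat.mul_le_mul_right _ (by nlinarith)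
    omega
  set v : ℤ := min (4 * (X : ℤ)) (2 * n) with hv
  have hv1 : v ≤ 2 * n := min_le_right _ _
  have hv2 : v ≤ 4 * X := min_le_left _ _
  have huv : (X : ℤ) ≤ v := by
    rw [hv]
    refine le_min (by omega) (by omega)
  set B : ℤ → ℂ := fun m => β m * Vl Q Q' p m with hB
  set F : ZMod (4 * n + 1) → ℂ := fun x : ZMod (4 * n + 1) =>
    if (X : ℤ) ≤ x.valMinAbs ∧ x.valMinAbs ≤ v then B x.valMinAbs else 0 with hF
  have hne : NeZero (4 * n + 1) := ⟨by omega⟩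
  set T : ℂ := ∑ x ∈ Icc (-(n : ℤ)) n, ∑ y ∈ Icc (-(n : ℤ)) n, f x * g y *
      (if (X : ℤ) ≤ x + y ∧ x + y ≤ 4 * X then β (x + y) * Vl Q Q' p (x + y) else 0) * W (x - y) with hT
  have hT1 : T = ∑ x : ZMod (4 * n + 1), ∑ y : ZMod (4 * n + 1),
      (if x.valMinAbs ∈ Icc (-(n : ℤ)) n then f x.valMinAbs else 0) *
      (if y.valMinAbs ∈ Icc (-(n : ℤ)) n then g y.valMinAbs else 0) * F (x + y) * W ((x - y).valMinAbs) := by
    rw [hF, ← ub_lhs n X (4 * X) f g W B, hT]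
    refine Finset.sum_congr rfl fun x hx => Finset.sum_congr rfl fun y hy => ?_
    have hx1 := mem_Icc.1 hx
    have hy1 := mem_Icc.1 hy
    have h1 : ((X : ℤ) ≤ x + y ∧ x + y ≤ 4 * X) ↔ ((X : ℤ) ≤ x + y ∧ x + y ≤ min (4 * (X : ℤ)) (2 * n)) := by
      rw [le_min_iff]
      constructor
      · rintro ⟨h1, h2⟩
        exact ⟨h1, h2, by omega⟩
      · rintro ⟨h1, h2, h3⟩
        exact ⟨h1, h2⟩
    simp only [h1, hB]
  have hmain := UA_main (4 * n + 1) H hHpos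
    (fun x => if x.valMinAbs ∈ Icc (-(n : ℤ)) n then f x.valMinAbs else 0)
    (fun y => if y.valMinAbs ∈ Icc (-(n : ℤ)) n then g y.valMinAbs else 0) F (fun d => W d.valMinAbs)
    (fun x => by
      split_ifs
      · exact hf _
      · simp)
    (fun x => by
      split_ifs
      · exact hg _
      · simp) (fun x => hW _)
  rw [← hT1, ub_rhs n H hHn X v (by exact_mod_cast hX1) hv1 B F hF] at hmain
  have hcub := hU Q Q' hQ' hQ1 p hp β X v ((Q : ℝ) ^ 6 / X) huv (by positivity)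
    (fun m h1 h2 => hβ m h1 (h2.trans hv2)) (fun m h1 h2 => hβ' m h1 (h2.trans hv2))
    (Icc (-(2 * n : ℤ)) (2 * n))
  rw [← hH] at hcub
  have hQ0 : (0 : ℝ) < Q := by linarith
  have hH6 : ((H : ℕ) : ℝ) ^ 6 = (Q : ℝ) ^ 240 := by
    rw [hH]
    push_cast
    rw [← pow_mul]
  set y : ℝ := (Q' : ℝ) ^ (-(1 / 144 : ℝ)) with hy
  have hy0 : 0 < y := Real.rpow_pos_of_pos (by linarith) _
  have hQy : 1 / (Q : ℝ) ≤ y := by
    have h1 : 1 / (Q : ℝ) ≤ 1 / (Q' : ℝ) := one_div_le_one_div_of_le (by linarith) hQQR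
    refine h1.trans ?_
    rw [hy, one_div, ← Real.rpow_neg_one]
    exact Real.rpow_le_rpow_of_exponent_le hQ'R (by norm_num)
  have hvR : (v : ℝ) - X + 1 ≤ 2 * n := by
    have h1 : (v : ℝ) ≤ 2 * n := by exact_mod_cast hv1
    linarith
  have hb1 : 512 * ((Q : ℝ) ^ 6 / X) ^ 2 * (Q : ℝ) ^ 96 ≤ 512 * y := by
    have h1 : ((Q : ℝ) ^ 6 / X) ^ 2 * (Q : ℝ) ^ 96 ≤ 1 / Q := by
      have h2 : ((Q : ℝ) ^ 6 / X) ^ 2 * (Q : ℝ) ^ 96 = (Q : ℝ) ^ 108 / (X : ℝ) ^ 2 := by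
        rw [div_pow]
        ring
      rw [h2, div_le_div_iff₀ (by positivity) hQ0]
      calc (Q : ℝ) ^ 108 * Q = (Q : ℝ) ^ 109 := by ring
        _ ≤ (Q : ℝ) ^ 200 := pow_le_pow_right₀ hQR (by norm_num)
        _ = ((Q : ℝ) ^ 100) ^ 2 := by ring
        _ ≤ (X : ℝ) ^ 2 := pow_le_pow_left₀ (by positivity) hXR 2
        _ = 1 * (X : ℝ) ^ 2 := by ring
    linarith [h1.trans hQy]
  have hb2 : 10 * (Q : ℝ) ^ 56 ≤ 10 * (n * y) := by
    have h1 : (Q : ℝ) ^ 56 ≤ n * (1 / Q) := by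
      rw [mul_one_div, le_div_iff₀ hQ0]
      calc (Q : ℝ) ^ 56 * Q = (Q : ℝ) ^ 57 := by ring
        _ ≤ (Q : ℝ) ^ 100 := pow_le_pow_right₀ hQR (by norm_num)
        _ ≤ n := hXR.trans hXnR
    have h2 : n * (1 / (Q : ℝ)) ≤ n * y := mul_le_mul_of_nonneg_left hQy (by linarith)
    linarith
  have hS : ‖T‖ ^ 8 ≤ 5 ^ 15 * (2 * C + 1034) * (n : ℝ) ^ 16 * y := by
    refine hmain.trans ?_
    have h1 : ((4 * n + 1 : ℕ) : ℝ) ^ 15 ≤ 5 ^ 15 * (n : ℝ) ^ 15 := by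
      rw [← mul_pow]
      refine pow_le_pow_left₀ (by positivity) ?_ 15
      push_cast
      linarith
    have h2 : (((v : ℝ) - X + 1) * (C * y + 512 * ((Q : ℝ) ^ 6 / X) ^ 2 * (Q : ℝ) ^ 96) + 10 * (Q : ℝ) ^ 56) ≤
        (2 * C + 1034) * (n * y) := by
      have h3 : C * y + 512 * ((Q : ℝ) ^ 6 / X) ^ 2 * (Q : ℝ) ^ 96 ≤ C * y + 512 * y := by linarith
      have h4 : 0 ≤ C * y + 512 * ((Q : ℝ) ^ 6 / X) ^ 2 * (Q : ℝ) ^ 96 := by positivity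
      calc _ ≤ 2 * n * (C * y + 512 * y) + 10 * (n * y) := by
            refine add_le_add ?_ hb2
            exact (mul_le_mul_of_nonneg_right hvR h4).trans (mul_le_mul_of_nonneg_left h3 (by linarith))
        _ = (2 * C + 1034) * (n * y) := by ring
    have h5 : ((4 * n + 1 : ℕ) : ℝ) ^ 15 / ((H : ℕ) : ℝ) ^ 6 * ((Q : ℝ) ^ 240 *
        (((v : ℝ) - X + 1) * (C * y + 512 * ((Q : ℝ) ^ 6 / X) ^ 2 * (Q : ℝ) ^ 96) + 10 * (Q : ℝ) ^ 56)) =
        ((4 * n + 1 : ℕ) : ℝ) ^ 15 *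
        (((v : ℝ) - X + 1) * (C * y + 512 * ((Q : ℝ) ^ 6 / X) ^ 2 * (Q : ℝ) ^ 96) + 10 * (Q : ℝ) ^ 56) := by
      rw [hH6]
      have h6 : (Q : ℝ) ^ 240 ≠ 0 := by positivity
      field_simp
    calc _ ≤ ((4 * n + 1 : ℕ) : ℝ) ^ 15 / ((H : ℕ) : ℝ) ^ 6 * ((Q : ℝ) ^ 240 *
        (((v : ℝ) - X + 1) * (C * y + 512 * ((Q : ℝ) ^ 6 / X) ^ 2 * (Q : ℝ) ^ 96) + 10 * (Q : ℝ) ^ 56)) :=
          mul_le_mul_of_nonneg_left hcub (by positivity)
      _ = _ := h5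
      _ ≤ (5 ^ 15 * (n : ℝ) ^ 15) * ((2 * C + 1034) * (n * y)) :=
        (mul_le_mul_of_nonneg_left h2 (by positivity)).trans (mul_le_mul_of_nonneg_right h1 (by positivity))
      _ = 5 ^ 15 * (2 * C + 1034) * (n : ℝ) ^ 16 * y := by ring
  have hy8 : ((Q' : ℝ) ^ (-(1 / 1152 : ℝ))) ^ 8 = y := by
    rw [hy, ← Real.rpow_natCast, ← Real.rpow_mul (by linarith)]
    norm_num
  refine (pow_le_pow_iff_left₀ (norm_nonneg _) (by positivity) (by norm_num : (8 : ℕ) ≠ 0)).1 (hS.trans ?_)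
  rw [mul_pow, mul_pow, hy8]
  have h7 : 5 ^ 15 * (2 * C + 1034) ≤ (5 ^ 15 * (2 * C + 1034) + 9) ^ 8 := by
    have h8 : 0 ≤ 5 ^ 15 * (2 * C + 1034) := by positivity
    calc 5 ^ 15 * (2 * C + 1034) ≤ 5 ^ 15 * (2 * C + 1034) + 9 := by linarith
      _ ≤ (5 ^ 15 * (2 * C + 1034) + 9) ^ 8 := le_self_pow₀ (by linarith) (by norm_num)
  have h9 : ((n : ℝ) ^ 2) ^ 8 = (n : ℝ) ^ 16 := by ring
  rw [h9]
  exact mul_le_mul_of_nonneg_right (mul_le_mul_of_nonneg_right h7 (by positivity)) hy0.le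

end Pool.Agent.Lib.H59T
end
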