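import Mathlib
import Pool.Agent.Lib.H59M.M2.D_H59_SchinzelDefs
import Pool.Agent.Lib.H59M.M2.M003
import Pool.Agent.Lib.H59M.M2.M006
import Pool.Agent.Lib.H59M.M2.M014
import Pool.Agent.Lib.H59M.M2.M016
import Pool.Agent.Lib.H59M.M2.M023
import Pool.Agent.Lib.H59M.M2.M024
import Pool.Agent.Lib.H59M.M2.M025
import Pool.Agent.Lib.H59M.M2.M026
import Pool.Agent.Lib.H59M.M2.M035
import Pool.Agent.Lib.H59M.M2.M036
import Pool.Agent.Lib.H59M.M2.M039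
import Pool.Agent.Lib.H59M.M2.M040
import Pool.Agent.Lib.H59M.M2.M041
import Pool.Agent.Lib.H59M.M2.M045
import Pool.Agent.Lib.H59M.M2.M047
import Pool.Agent.Lib.H59M.M2.M058
import Pool.Agent.Lib.H59M.M2.M060
import Pool.Agent.Lib.H59M.M2.M063
import Pool.Agent.Lib.H59M.M2.M072
import Pool.Agent.Lib.H59M.M2.M077
import Pool.Agent.Lib.H59M.M2.M080
import Pool.Agent.Lib.H59M.M2.M087
import Pool.Agent.Lib.H59M.M2.M089
import Pool.Agent.Lib.H59M.M2.M090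
import Pool.Agent.Lib.H59M.M2.M097

/-! Merged copies (to shorten the build) of Lib.H18Q.QP, Lib.H59P.S1B, Lib.H9S.BDL, Lib.H59T.UL, Lib.H59T.UV, Lib.H9U.Defs, Lib.HUK.IDE, Lib.HUP.Defs, Lib.HUP.Defs2, Lib.H9P.U0, Lib.H9P.U11. -/

-- from Lib.H18Q.QP
section

/-!
# Project H18Q, chunk QP: lower bound for the prime pairs in a window (no classes)
-/

open Finset

namespace Pool.Agent.Lib.H18Q

open Pool.Agent.Lib.H68T Pool.Agent.Lib.H18E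

/-- the bound for a sum over the components -/
theorem qp_SG_le {Q : ℕ} (hQ : 1 ≤ Q) (b : (Σ r : ℕ, DirichletCharacter ℂ r) → ℂ)
    (bb : (Σ r : ℕ, DirichletCharacter ℂ r) → ℝ) (hb : ∀ p ∈ PC Q, ‖b p‖ ≤ bb p) (m : ℤ) :
    ‖SG Q b m‖ ≤ 100 * (1 + Real.log Q) ^ 3 * dQ Q m * ∑ p ∈ PC Q, bb p := by
  unfold SG
  rw [Finset.mul_sum]
  refine (norm_sum_le _ _).trans (Finset.sum_le_sum fun p hp => ?_)
  have h1 := mem_PC.1 hp
  have h2 := abs_Gam_le Q p.1 h1.1 h1.2.1 m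
  rw [norm_mul, norm_mul, Complex.norm_real, Real.norm_eq_abs, Complex.norm_conj]
  have h3 : ‖p.2 (m : ZMod p.1)‖ ≤ 1 := DirichletCharacter.norm_le_one p.2 _
  have h0 : 0 ≤ 100 * (1 + Real.log Q) ^ 3 * dQ Q m := (abs_nonneg _).trans h2
  calc |Gam Q p.1 m| * ‖p.2 (m : ZMod p.1)‖ * ‖b p‖
      ≤ (100 * (1 + Real.log Q) ^ 3 * dQ Q m * 1) * bb p := by
        apply mul_le_mul _ (hb p hp) (norm_nonneg _) (by rw [mul_one]; exact h0)
        exact mul_le_mul h2 h3 (norm_nonneg _) h0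
    _ = _ := by rw [mul_one]








end Pool.Agent.Lib.H18Q
end

-- from Lib.H59P.S1B
section

/-!
# Project H59P, chunk S1b
-/

open Finset

namespace Pool.Agent.Lib.H59P

open Pool.Agent.Lib.H68T Pool.Agent.Lib.H18Q

/-- The size of `SG` with coefficients of total size at most `b`. Proof. `qp_SG_le` in `H18Q/QP.lean`. -/
theorem S1b (Q : ℕ) (hQ : 1 ≤ Q) (B : Ch → ℂ) (mb : Ch → ℝ) (hB : ∀ p ∈ PC Q, ‖B p‖ ≤ mb p) (m : ℤ) :
    ‖SG Q B m‖ ≤ 100 * (1 + Real.log Q) ^ 3 * dQ Q m * ∑ p ∈ PC Q, mb p :=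
  qp_SG_le hQ B mb hB m

end Pool.Agent.Lib.H59P
end

-- from Lib.H9S.BDL
section
/-!
H9S: pointwise bound for the projections.
-/
namespace Pool.Agent.H9S
open Finset
open Pool.Agent.Lib.H68T Pool.Agent.Lib.H18Q Pool.Agent.Lib.H59P

theorem BDL_dQ (Q : ℕ) (m : ℤ) (hm : 1 ≤ m) : dQ Q m ≤ (m.toNat.divisors.card : ℝ) := by
  unfold dQ
  have h : (Icc 1 Q).filter (fun d : ℕ => (d : ℤ) ∣ m) ⊆ m.toNat.divisors := by
    intro d hd
    rw [mem_filter, mem_Icc] at hd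
    rw [Nat.mem_divisors]
    refine ⟨?_, by omega⟩
    have h1 : ((m.toNat : ℕ) : ℤ) = m := Int.toNat_of_nonneg (by omega)
    rw [← h1] at hd
    exact_mod_cast hd.2
  exact_mod_cast Finset.card_le_card h


end Pool.Agent.H9S
end

-- from Lib.H59T.UL
section

/-!
# Project H59T, chunk UL (M): the difference of the projections at two levels
-/

open Finset

namespace Pool.Agent.Lib.H59T

open Pool.Agent.Lib.H68T Pool.Agent.Lib.H18Q Pool.Agent.Lib.H59P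

/-- Proof. `DA_expand` (`H68T/DA.lean`) for `Q` and for `Q'`, both with `Y = X/Q²` (see `Lk_SG` in `H18Q/CL1.lean` for the regime); the
coefficients are `Bc Q X p m` in both cases. `PC Q' ⊆ PC Q`. `gam_expand` (`H18Q/CA.lean`): `Gam Q p.1 m conj χ(m) = ∑_{KS Q p.1} gk`, and for
`Q'` the sum over `KS Q' p.1 = {κ ∈ KS Q p.1 : p.1 κ ≤ Q'}` (`κ ≤ Q'/r` iff `r κ ≤ Q'`), empty if `p.1 > Q'`. -/
theorem UL_expand : ∃ K : ℝ, 1 ≤ K ∧ ∀ Q Q' X : ℕ, RegP K Q X → 1 ≤ Q' → Q' ≤ Q → ∀ m : ℤ,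
    (X : ℤ) ≤ m → m ≤ 4 * X →
    ((Lk Q (X / Q ^ 2) m - Lk Q' (X / Q ^ 2) m : ℝ) : ℂ) = ∑ p ∈ PC Q, Bc Q X p m * Vl Q Q' p m := by
  obtain ⟨K1, hK1, h1⟩ := BPS_regimeP
  obtain ⟨K2, hK2, h2⟩ := regp_pow_le 2 1 1 one_pos
  refine ⟨max K1 K2, hK1.trans (le_max_left _ _), fun Q Q' X hreg hQ'1 hQ'Q m hm hm4 => ?_⟩
  have hK0 : 0 ≤ max K1 K2 := by linarith [le_max_left K1 K2]
  obtain ⟨hQ, hX, hY, hYX, hXY, -⟩ := h1 Q X (hreg.mono hK0 (le_max_left _ _))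
  have hlog := h2 Q X (hreg.mono hK0 (le_max_right _ _))
  rw [Real.rpow_one, Real.rpow_one] at hlog
  have h3 : 2 * Q ≤ X := by exact_mod_cast hlog
  have hA : (Lk Q (X / Q ^ 2) m : ℂ) = ∑ p ∈ PC Q, (∑ k ∈ KS Q p.1, gk p k m) * Bc Q X p m := by
    rw [DA_expand Q X (X / Q ^ 2) m hm hm4 (by omega) (by omega)]
    refine Finset.sum_congr rfl fun p hp => ?_
    rw [gam_expand Q p hp m]
    rfl
  have hB : (Lk Q' (X / Q ^ 2) m : ℂ) = ∑ p ∈ PC Q, (∑ k ∈ KS Q' p.1, gk p k m) * Bc Q X p m := by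
    rw [DA_expand Q' X (X / Q ^ 2) m hm hm4 (by omega) (by omega)]
    have hsub : PC Q' ⊆ PC Q := by
      intro p hp
      obtain ⟨a, b, c⟩ := mem_PC.1 hp
      exact mem_PC.2 ⟨a, b.trans hQ'Q, c⟩
    rw [← Finset.sum_subset hsub (f := fun p => (∑ k ∈ KS Q' p.1, gk p k m) * Bc Q X p m)]
    · refine Finset.sum_congr rfl fun p hp => ?_
      rw [gam_expand Q' p hp m]
      rfl
    · intro p hp hp'
      have h4 : KS Q' p.1 = ∅ := by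
        rw [Finset.eq_empty_iff_forall_notMem]
        intro k hk
        have h5 := (CA_mem_KS.1 hk).1
        obtain ⟨a, b, c⟩ := mem_PC.1 hp
        have h6 : ¬ p.1 ≤ Q' := fun h => hp' (mem_PC.2 ⟨a, h, c⟩)
        have h7 : Q' / p.1 = 0 := Nat.div_eq_of_lt (by omega)
        omega
      rw [h4, Finset.sum_empty, zero_mul]
  push_cast
  rw [hA, hB, ← Finset.sum_sub_distrib]
  refine Finset.sum_congr rfl fun p hp => ?_
  obtain ⟨a, b, c⟩ := mem_PC.1 hp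
  have h8 : ∑ k ∈ KS Q p.1, gk p k m = Vl Q Q' p m + ∑ k ∈ KS Q' p.1, gk p k m := by
    rw [← Finset.sum_filter_add_sum_filter_not (KS Q p.1) (fun κ => Q' < p.1 * κ)]
    unfold Vl
    congr 1
    refine Finset.sum_congr ?_ fun _ _ => rfl
    ext k
    rw [Finset.mem_filter, CA_mem_KS, CA_mem_KS]
    constructor
    · rintro ⟨⟨h9, h10⟩, h11⟩
      refine ⟨⟨h9.1, ?_⟩, h10⟩
      rw [Nat.le_div_iff_mul_le (by omega)]
      rw [mul_comm]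
      omega
    · rintro ⟨⟨h9, h9'⟩, h10⟩
      have h11 : k * p.1 ≤ Q' := (Nat.le_div_iff_mul_le (by omega)).1 h9'
      refine ⟨⟨⟨h9, ?_⟩, h10⟩, ?_⟩
      · rw [Nat.le_div_iff_mul_le (by omega)]
        omega
      · rw [mul_comm p.1 k]
        omega
  rw [h8]
  ring

/-- **Module LK.** Proof. `UL_expand`; `UM_mass`: `‖Bc Q X p m‖ ≤ mb p`, put `w_p = mb p + Q^(-3)`, `β_p(m) = Bc Q X p m/w_p`: at most `1`,
and `Bc_lip` (`H18Q/CL1.lean`) gives `‖β_p(m+1) - β_p(m)‖ ≤ Q³/(2X) · Q³`. `UB_one` for each `p`, times `w_p`;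
`∑_p w_p ≤ C + Q² Q^(-3)` (`card_PC_le`). `Q^100 ≤ X` from `RegP K` with `K ≥ 100`. -/
theorem LK_diff : ∃ K C : ℝ, 1 ≤ K ∧ 0 < C ∧ ∀ Q Q' X n : ℕ, RegP K Q X → 1 ≤ Q' → Q' ≤ Q → X ≤ n →
    ∀ f g W : ℤ → ℂ, (∀ x, ‖f x‖ ≤ 1) → (∀ x, ‖g x‖ ≤ 1) → (∀ x, ‖W x‖ ≤ 1) →
    ‖∑ x ∈ Icc (-(n : ℤ)) n, ∑ y ∈ Icc (-(n : ℤ)) n, f x * g y *
      (if (X : ℤ) ≤ x + y ∧ x + y ≤ 4 * X then
        ((Lk Q (X / Q ^ 2) (x + y) - Lk Q' (X / Q ^ 2) (x + y) : ℝ) : ℂ) else 0) * W (x - y)‖ ≤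
      C * (n : ℝ) ^ 2 * (Q' : ℝ) ^ (-(1 / 1152 : ℝ)) := by
  obtain ⟨K1, hK1, h1⟩ := UL_expand
  obtain ⟨K2, C2, hK2, hC2, h2⟩ := UM_mass
  obtain ⟨K3, hK3, h3⟩ := Bc_lip
  obtain ⟨K4, hK4, h4⟩ := regp_pow_le 1 100 1 one_pos
  obtain ⟨C5, hC5, h5⟩ := UB_one
  refine ⟨max (max K1 K2) (max K3 K4), C5 * (C2 + 1), hK1.trans ((le_max_left _ _).trans (le_max_left _ _)), by positivity, ?_⟩
  intro Q Q' X n hreg hQ'1 hQ'Q hXn f g W hf hg hW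
  have hK0 : 0 ≤ max (max K1 K2) (max K3 K4) := by
    have := (le_max_left K1 K2).trans (le_max_left (max K1 K2) (max K3 K4))
    linarith
  have r1 := hreg.mono hK0 ((le_max_left K1 K2).trans (le_max_left _ _))
  have r2 := hreg.mono hK0 ((le_max_right K1 K2).trans (le_max_left _ _))
  have r3 := hreg.mono hK0 ((le_max_left K3 K4).trans (le_max_right _ _))
  have r4 := hreg.mono hK0 ((le_max_right K3 K4).trans (le_max_right _ _))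
  have hQ1 : 1 ≤ Q := hQ'1.trans hQ'Q
  have hQR : (1 : ℝ) ≤ Q := by exact_mod_cast hQ1
  have hQ0 : (0 : ℝ) < Q := by linarith
  have hX0 : 0 < X := r1.X_pos (by linarith)
  have hX0' : (0 : ℝ) < X := by exact_mod_cast hX0
  have hQ100 : Q ^ 100 ≤ X := by
    have h6 := h4 Q X r4
    rw [one_mul, Real.rpow_one] at h6
    have h7 : (Q : ℝ) ^ (100 : ℝ) = (Q : ℝ) ^ (100 : ℕ) := by
      rw [← Real.rpow_natCast]
      norm_num
    rw [h7] at h6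
    exact_mod_cast h6
  obtain ⟨mb, hmb0, hmbs, hmb⟩ := h2 Q X r2
  have hwp : ∀ p ∈ PC Q, 0 < mb p + ((Q : ℝ) ^ 3)⁻¹ := fun p hp => by
    have := hmb0 p hp
    positivity
  have hsum : ∑ p ∈ PC Q, (mb p + ((Q : ℝ) ^ 3)⁻¹) ≤ C2 + 1 := by
    rw [Finset.sum_add_distrib, Finset.sum_const, nsmul_eq_mul]
    have h8 : ((PC Q).card : ℝ) * ((Q : ℝ) ^ 3)⁻¹ ≤ 1 := by
      rw [← div_eq_mul_inv, div_le_one (by positivity)]
      have h9 : ((PC Q).card : ℝ) ≤ (Q : ℝ) ^ 2 := by exact_mod_cast card_PC_le Q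
      refine h9.trans ?_
      exact pow_le_pow_right₀ hQR (by norm_num)
    linarith
  have hexp : ∀ x y : ℤ, f x * g y * (if (X : ℤ) ≤ x + y ∧ x + y ≤ 4 * X then
        ((Lk Q (X / Q ^ 2) (x + y) - Lk Q' (X / Q ^ 2) (x + y) : ℝ) : ℂ) else 0) * W (x - y) =
      ∑ p ∈ PC Q, ((mb p + ((Q : ℝ) ^ 3)⁻¹ : ℝ) : ℂ) * (f x * g y * (if (X : ℤ) ≤ x + y ∧ x + y ≤ 4 * X then
        (Bc Q X p (x + y) / ((mb p + ((Q : ℝ) ^ 3)⁻¹ : ℝ) : ℂ)) * Vl Q Q' p (x + y) else 0) * W (x - y)) := by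
    intro x y
    by_cases hxy : (X : ℤ) ≤ x + y ∧ x + y ≤ 4 * X
    · rw [if_pos hxy, h1 Q Q' X r1 hQ'1 hQ'Q (x + y) hxy.1 hxy.2, Finset.mul_sum, Finset.sum_mul]
      refine Finset.sum_congr rfl fun p hp => ?_
      rw [if_pos hxy]
      have h10 : ((mb p + ((Q : ℝ) ^ 3)⁻¹ : ℝ) : ℂ) ≠ 0 := by exact_mod_cast (hwp p hp).ne'
      generalize ((mb p + ((Q : ℝ) ^ 3)⁻¹ : ℝ) : ℂ) = c at h10 ⊢
      have h11 : Bc Q X p (x + y) = c * (Bc Q X p (x + y) / c) := by rw [mul_div_cancel₀ _ h10]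
      rw [h11]
      rw [mul_div_cancel_left₀ _ h10]
      ring
    · rw [if_neg hxy, mul_zero, zero_mul]
      symm
      refine Finset.sum_eq_zero fun p hp => ?_
      rw [if_neg hxy, mul_zero, zero_mul, mul_zero]
  have heq : (∑ x ∈ Icc (-(n : ℤ)) n, ∑ y ∈ Icc (-(n : ℤ)) n, f x * g y *
      (if (X : ℤ) ≤ x + y ∧ x + y ≤ 4 * X then
        ((Lk Q (X / Q ^ 2) (x + y) - Lk Q' (X / Q ^ 2) (x + y) : ℝ) : ℂ) else 0) * W (x - y)) =
      ∑ p ∈ PC Q, ((mb p + ((Q : ℝ) ^ 3)⁻¹ : ℝ) : ℂ) * ∑ x ∈ Icc (-(n : ℤ)) n, ∑ y ∈ Icc (-(n : ℤ)) n,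
        f x * g y * (if (X : ℤ) ≤ x + y ∧ x + y ≤ 4 * X then
        (Bc Q X p (x + y) / ((mb p + ((Q : ℝ) ^ 3)⁻¹ : ℝ) : ℂ)) * Vl Q Q' p (x + y) else 0) * W (x - y) := by
    rw [Finset.sum_congr rfl fun x _ => Finset.sum_congr rfl fun y _ => hexp x y]
    rw [Finset.sum_congr rfl fun x _ => Finset.sum_comm, Finset.sum_comm]
    refine Finset.sum_congr rfl fun p _ => ?_
    rw [Finset.mul_sum]
    refine Finset.sum_congr rfl fun x _ => ?_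
    rw [Finset.mul_sum]
  rw [heq]
  have hQ'0 : (0 : ℝ) ≤ (n : ℝ) ^ 2 * (Q' : ℝ) ^ (-(1 / 1152 : ℝ)) :=
    mul_nonneg (by positivity) (Real.rpow_nonneg (Nat.cast_nonneg _) _)
  have hone : ∀ p ∈ PC Q, ‖((mb p + ((Q : ℝ) ^ 3)⁻¹ : ℝ) : ℂ) * ∑ x ∈ Icc (-(n : ℤ)) n, ∑ y ∈ Icc (-(n : ℤ)) n,
        f x * g y * (if (X : ℤ) ≤ x + y ∧ x + y ≤ 4 * X then
        (Bc Q X p (x + y) / ((mb p + ((Q : ℝ) ^ 3)⁻¹ : ℝ) : ℂ)) * Vl Q Q' p (x + y) else 0) * W (x - y)‖ ≤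
      (mb p + ((Q : ℝ) ^ 3)⁻¹) * (C5 * (n : ℝ) ^ 2 * (Q' : ℝ) ^ (-(1 / 1152 : ℝ))) := by
    intro p hp
    have hw := hwp p hp
    rw [norm_mul, Complex.norm_real, Real.norm_eq_abs, abs_of_pos hw]
    refine mul_le_mul_of_nonneg_left ?_ hw.le
    refine h5 Q Q' X n hQ'1 hQ'Q hQ100 hXn p hp (fun m => Bc Q X p m / ((mb p + ((Q : ℝ) ^ 3)⁻¹ : ℝ) : ℂ)) ?_ ?_
      f g W hf hg hW
    · intro m hm hm4
      rw [norm_div, Complex.norm_real, Real.norm_eq_abs, abs_of_pos hw, div_le_one hw]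
      have h11 := hmb m hm hm4 p hp
      have h12 : 0 ≤ ((Q : ℝ) ^ 3)⁻¹ := by positivity
      linarith
    · intro m hm hm4
      rw [← sub_div, norm_div, Complex.norm_real, Real.norm_eq_abs, abs_of_pos hw]
      have h13 := h3 Q X r3 p m hm (by omega)
      have h14 : ((Q : ℝ) ^ 3)⁻¹ ≤ mb p + ((Q : ℝ) ^ 3)⁻¹ := by linarith [hmb0 p hp]
      have h15 : 0 < ((Q : ℝ) ^ 3)⁻¹ := by positivity
      calc ‖Bc Q X p (m + 1) - Bc Q X p m‖ / (mb p + ((Q : ℝ) ^ 3)⁻¹)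
          ≤ ((Q : ℝ) ^ 3 / (2 * X)) / ((Q : ℝ) ^ 3)⁻¹ :=
            div_le_div₀ (by positivity) h13 h15 h14
        _ = (Q : ℝ) ^ 6 / X * (1 / 2) := by
            field_simp
        _ ≤ (Q : ℝ) ^ 6 / X := by
            have h16 : 0 ≤ (Q : ℝ) ^ 6 / X := by positivity
            linarith
  refine (norm_sum_le _ _).trans ((Finset.sum_le_sum hone).trans ?_)
  rw [← Finset.sum_mul]
  calc (∑ p ∈ PC Q, (mb p + ((Q : ℝ) ^ 3)⁻¹)) * (C5 * (n : ℝ) ^ 2 * (Q' : ℝ) ^ (-(1 / 1152 : ℝ)))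
      ≤ (C2 + 1) * (C5 * (n : ℝ) ^ 2 * (Q' : ℝ) ^ (-(1 / 1152 : ℝ))) := by
        refine mul_le_mul_of_nonneg_right hsum ?_
        have := mul_nonneg hC5.le hQ'0
        linarith
    _ = C5 * (C2 + 1) * (n : ℝ) ^ 2 * (Q' : ℝ) ^ (-(1 / 1152 : ℝ)) := by ring

end Pool.Agent.Lib.H59T
end

-- from Lib.H59T.UV
section

/-!
# Project H59T, chunk UV (S): the form of `LK_diff` used in module STAR (H9S)
-/

open Finset

namespace Pool.Agent.Lib.H59T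

open Pool.Agent.Lib.H68T Pool.Agent.Lib.H18Q Pool.Agent.Lib.H59P

/-- Proof. `LK_diff` with `n = 3 X`, `f` cut off to `[2X, 3X)` and `g` to `(-X, X)`: then `x + y ∈ [X, 4X]` for the terms which are not `0`
(`Finset.sum_subset`, `Finset.sum_filter`-type manipulations); the constant is `9 C`. -/
theorem LK_box : ∃ K C : ℝ, 1 ≤ K ∧ 0 < C ∧ ∀ Q Q' X : ℕ, RegP K Q X → 1 ≤ Q' → Q' ≤ Q →
    ∀ f g W : ℤ → ℂ, (∀ x, ‖f x‖ ≤ 1) → (∀ x, ‖g x‖ ≤ 1) → (∀ x, ‖W x‖ ≤ 1) →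
    ‖∑ x ∈ Ico (2 * (X : ℤ)) (3 * X), ∑ y ∈ Ioo (-(X : ℤ)) X, f x * g y *
      ((Lk Q (X / Q ^ 2) (x + y) - Lk Q' (X / Q ^ 2) (x + y) : ℝ) : ℂ) * W (x - y)‖ ≤
      C * (X : ℝ) ^ 2 * (Q' : ℝ) ^ (-(1 / 1152 : ℝ)) := by
  classical
  obtain ⟨K, C, hK, hC, h⟩ := LK_diff
  refine ⟨K, 9 * C, hK, by positivity, ?_⟩
  intro Q Q' X hR hQ' hQQ f g W hf hg hW
  obtain ⟨f', hf'⟩ : ∃ f' : ℤ → ℂ, ∀ x, f' x = if x ∈ Ico (2 * (X : ℤ)) (3 * X) then f x else 0 := ⟨_, fun _ => rfl⟩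
  obtain ⟨g', hg'⟩ : ∃ g' : ℤ → ℂ, ∀ y, g' y = if y ∈ Ioo (-(X : ℤ)) X then g y else 0 := ⟨_, fun _ => rfl⟩
  have hf1 : ∀ x, ‖f' x‖ ≤ 1 := by
    intro x
    rw [hf' x]
    split_ifs
    · exact hf x
    · rw [norm_zero]
      exact zero_le_one
  have hg1 : ∀ y, ‖g' y‖ ≤ 1 := by
    intro y
    rw [hg' y]
    split_ifs
    · exact hg y
    · rw [norm_zero]
      exact zero_le_one
  have h1 := h Q Q' X (3 * X) hR hQ' hQQ (by omega) f' g' W hf1 hg1 hW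
  have h2 : ∑ x ∈ Icc (-((3 * X : ℕ) : ℤ)) ((3 * X : ℕ) : ℤ), ∑ y ∈ Icc (-((3 * X : ℕ) : ℤ)) ((3 * X : ℕ) : ℤ), f' x * g' y *
      (if (X : ℤ) ≤ x + y ∧ x + y ≤ 4 * X then
        ((Lk Q (X / Q ^ 2) (x + y) - Lk Q' (X / Q ^ 2) (x + y) : ℝ) : ℂ) else 0) * W (x - y) =
      ∑ x ∈ Ico (2 * (X : ℤ)) (3 * X), ∑ y ∈ Ioo (-(X : ℤ)) X, f x * g y *
      ((Lk Q (X / Q ^ 2) (x + y) - Lk Q' (X / Q ^ 2) (x + y) : ℝ) : ℂ) * W (x - y) := by
    have hs1 : Ico (2 * (X : ℤ)) (3 * X) ⊆ Icc (-((3 * X : ℕ) : ℤ)) ((3 * X : ℕ) : ℤ) := by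
      intro x hx
      rw [mem_Ico] at hx
      rw [mem_Icc]
      push_cast
      omega
    have hs2 : Ioo (-(X : ℤ)) X ⊆ Icc (-((3 * X : ℕ) : ℤ)) ((3 * X : ℕ) : ℤ) := by
      intro x hx
      rw [mem_Ioo] at hx
      rw [mem_Icc]
      push_cast
      omega
    rw [← Finset.sum_subset hs1 (fun x _ hx => Finset.sum_eq_zero fun y _ => by
      rw [hf' x, if_neg hx, zero_mul, zero_mul, zero_mul])]
    refine Finset.sum_congr rfl fun x hx => ?_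
    rw [← Finset.sum_subset hs2 (fun y _ hy => by
      rw [hg' y, if_neg hy, mul_zero, zero_mul, zero_mul])]
    refine Finset.sum_congr rfl fun y hy => ?_
    rw [hf' x, if_pos hx, hg' y, if_pos hy]
    rw [mem_Ico] at hx
    rw [mem_Ioo] at hy
    rw [if_pos (by constructor <;> omega)]
  rw [h2] at h1
  refine h1.trans (le_of_eq ?_)
  push_cast
  ring

end Pool.Agent.Lib.H59T
end

-- from Lib.H9U.Defs
section

/-!
# Project H9U: power saving for the `U³` norm of the primes, and linear families of half dimension (definitions)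

`φ_i(n, t) = a_i n + ∑_j c_ij t_j + b_i`. See `PROOF.md`.
-/

open Finset

namespace Pool.Agent.H9U

open Pool.Agent.H44W (ee)
open Pool.Agent.H9S (Bd lc Lc BF Sx Sy)
open Pool.Agent.Lib.H68T (lp Lk PC p0 tent dQ)
open Pool.Agent.Lib.H18Q (gk KS Bc RegP)
open Pool.Agent.Lib.H59P (Ch cj uu gl pr SF MX bx TS Rp)
open Pool.Agent.Lib.H59T (UU Rm Pm Kp dof tau)

noncomputable section

/-! ## Systems of forms -/

/-- A system of `k` integral linear forms in `n` and `t_1, …, t_d`. -/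
structure Sys (k d : ℕ) where
  a : Fin k → ℤ
  c : Fin k → Fin d → ℤ

/-- The `i`-th linear form at `(s, u)`. -/
def Sys.lin {k d : ℕ} (S : Sys k d) (i : Fin k) (s : ℤ) (u : Fin d → ℤ) : ℤ :=
  S.a i * s + ∑ j, S.c i j * u j

/-- The `i`-th affine form at `(n, t)`. -/
def Sys.val {k d : ℕ} (S : Sys k d) (b : Fin k → ℤ) (n : ℤ) (t : Fin d → ℤ) (i : Fin k) : ℤ :=
  S.lin i n t + b i


/-- A vector of natural numbers as a vector of integers. -/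
def iv {d : ℕ} (t : Fin d → ℕ) : Fin d → ℤ := fun j => (t j : ℤ)

/-- `t` is admissible: for every prime `l` some `n` makes all values prime to `l`. -/
def Sys.Adm {k d : ℕ} (S : Sys k d) (b : Fin k → ℤ) (t : Fin d → ℤ) : Prop :=
  ∀ l : ℕ, l.Prime → ∃ n : ℤ, ∀ i, ¬ (l : ℤ) ∣ S.val b n t i

/-! ## Module U: functions with small `U³` norm at scale `X` -/

/-- The interval `[2X, 9X/4)`. -/
def JJ (X : ℕ) : Finset ℤ := Ico (2 * (X : ℤ)) (2 * X + X / 4)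

/-- The function cut off to the interval `JJ X`. -/
def cutJ (X : ℕ) (F : ℤ → ℂ) (m : ℤ) : ℂ := if m ∈ JJ X then F m else 0

/-- `F` is uniform at scale `X` with exponent `κ`: the bilinear forms are at most `X^(2-κ)`, and the values on
`[X, 4X]` at most `X^(κ/100)`. -/
structure Unif (X : ℕ) (κ : ℝ) (F : ℤ → ℂ) : Prop where
  bf : ∀ W f g : ℤ → ℂ, Bd W → Bd f → Bd g → ‖BF (Sx X) (Sy X) F W f g‖ ≤ (X : ℝ) ^ (2 - κ)
  bd : ∀ m : ℤ, (X : ℤ) ≤ m → m ≤ 4 * X → ‖F m‖ ≤ (X : ℝ) ^ (κ / 100)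

/-- The regime: level `Q = X^(1/Cr)` or larger, small level `Q'` between `X^θ` and `Q`. -/
structure Rgm (K Cr θ : ℝ) (Q Q' X : ℕ) : Prop where
  reg : RegP K Q X
  log : Real.log X ≤ Cr * Real.log Q
  low : (X : ℝ) ^ θ ≤ Q'
  le : Q' ≤ Q

/-- The error of the projection of small level `Q'` (with the window of the level `Q`). -/
def Er (Q Q' X : ℕ) (m : ℤ) : ℂ := lc m - Lc Q' (X / Q ^ 2) m





/-- The local factor of the singular series at `l`, minus `1`. -/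
def tpS {k d : ℕ} (S : Sys k d) (b : Fin k → ℤ) (t : Fin d → ℤ) (l : ℕ) : ℝ :=
  (∑ n ∈ range l, ∏ i, (1 + gl l (S.val b n t i))) / l - 1

/-- `∏_{l ∣ d} tpS l` -/
def tdS {k d : ℕ} (S : Sys k d) (b : Fin k → ℤ) (t : Fin d → ℤ) (q : ℕ) : ℝ := ∏ l ∈ q.primeFactors, tpS S b t l

/-- The product of the local factors over the primes in `P`. -/
def SSS {k d : ℕ} (S : Sys k d) (b : Fin k → ℤ) (t : Fin d → ℤ) (P : Finset ℕ) : ℝ := ∏ l ∈ P, (1 + tpS S b t l)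





end

end Pool.Agent.H9U
end

-- from Lib.HUK.IDE
section

/-!
# Project HUK: the interfaces between the modules

Module A: `TII k` (in `Defs.lean`) for all `k ≥ 3`. Module B: `TII k → TLP k`. Module C: `LKP k`, and
`TLP k → LKP k → PK (k - 1) → PK k`. Module D: from `PK k` for all `k` to systems.
-/

open Finset

namespace Pool.Agent.HUK

open Pool.Agent.H44W (ee)
open Pool.Agent.Lib.H84V (nd)
open Pool.Agent.Lib.H68T (lp Lk)
open Pool.Agent.Lib.H18Q (RegP)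
open Pool.Agent.H9U (JJ cutJ Er Rgm Sys)

noncomputable section

/-- **Interface of module B.** -/
def TLP (k : ℕ) : Prop := ∀ κ : ℝ, 0 < κ → ∃ κ' : ℝ, 0 < κ' ∧ ∃ X0 : ℕ, ∀ X : ℕ, X0 ≤ X →
  ∀ f : ℕ → ℤ → ℂ, (∀ j, j < k → Bdd X (f j)) → GG X (k - 1) (f 0) ≤ (X : ℝ) ^ (k - κ) →
  ‖∑ n ∈ Icc 1 (2 * k * X), ((lp n : ℝ) : ℂ) * Psi X k f n‖ ≤ (X : ℝ) ^ (2 - κ')

/-- **Interface of module C, first part**: components of large modulus. `B` bounds the supports of the functions. -/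
def LKP (k : ℕ) : Prop := ∀ B : ℕ, ∃ K C c : ℝ, 1 ≤ K ∧ 0 < C ∧ 0 < c ∧ ∀ Q Q' X : ℕ, RegP K Q X → 1 ≤ Q' → Q' ≤ Q →
  ∀ f : ℕ → ℤ → ℂ, (∀ j, j < k → Bdd (B * X) (f j)) →
  ‖∑ n ∈ JJ X, ((Lk Q (X / Q ^ 2) n - Lk Q' (X / Q ^ 2) n : ℝ) : ℂ) * Psi (B * X) k f n‖ ≤
    C * (X : ℝ) ^ 2 * (Q' : ℝ) ^ (-c)

/-- **Interface of module C**: the `U^k` norm of the error is small. -/
def PK (k : ℕ) : Prop := ∃ K : ℝ, 1 ≤ K ∧ ∀ Cr θ : ℝ, 1 ≤ Cr → 0 < θ → ∃ κ : ℝ, 0 < κ ∧ κ ≤ 1 ∧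
  ∃ X0 : ℕ, ∀ Q Q' X : ℕ, X0 ≤ X → Rgm K Cr θ Q Q' X → GG (4 * X) k (cutJ X (Er Q Q' X)) ≤ (X : ℝ) ^ (k + 1 - κ)


end

end Pool.Agent.HUK
end

-- from Lib.HUP.Defs
section

/-!
# Project HUP (MP_0bf1d2_nt): the constant terms are linear forms in parameters. Definitions

The system `P_i(n) + β_i + ψ_i(t)`, `ψ_i(t) = ∑_j c_ij t_j` pairwise not proportional, polynomials `P_i` of any
degrees `≥ 1`, a fixed linear coordinate `B`. See `PROOF.md`. The modules of H24P (where `ψ_i(t) = t_i`) are redone for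
an abstract family `g : ι → (Fin k → ℕ)` of constant terms which satisfies the large sieve `FGood`.
-/

open Finset Polynomial

namespace Pool.Agent.HUP

open Pool.Agent.Lib.H68T Pool.Agent.Lib.H18Q Pool.Agent.Lib.H59P Pool.Agent.Lib.H24P

noncomputable section

/-! ## Forms, boxes -/

/-- The linear form `ψ_i(t) = ∑_j c_ij t_j`. -/
def lf {k d : ℕ} (c : Fin k → Fin d → ℤ) (t : Fin d → ℤ) (i : Fin k) : ℤ := ∑ j, c i j * t j


/-- The box `∏ [b_j, b_j + s_j)`. -/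
def tb {d : ℕ} (b : Fin d → ℤ) (s : Fin d → ℕ) : Finset (Fin d → ℤ) :=
  Fintype.piFinset fun j => Ico (b j) (b j + s j)

/-- The constant terms `h_i = β_i + ψ_i(t)` (used when they are not negative). -/
def hh {k d : ℕ} (c : Fin k → Fin d → ℤ) (β : Fin k → ℤ) (t : Fin d → ℤ) : Fin k → ℕ :=
  fun i => (β i + lf c t i).toNat


/-! ## The large sieve for a family -/

/-- The constants of `FGood`. -/
structure FPar (Cc cc : ℝ) : Prop where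
  one : 1 ≤ Cc
  pos : 0 < cc
  le : cc ≤ 1

/-- The family `g x`, `x ∈ S`, of constant terms satisfies with the polynomials `P` the large sieve (`Fgen` of H24P) for
all levels `Q ≤ Qm`. -/
def FGood {k : ℕ} (E : ℕ) (Cc cc : ℝ) (Qm : ℕ) (P : Fin k → ℤ[X]) {ι : Type} (S : Finset ι) (g : ι → Fin k → ℕ) :
    Prop :=
  ∀ Q : ℕ, 1 ≤ Q → Q ≤ Qm → ∀ p : Fin k → Ch, (∀ i, p i ∈ PC Q) →
    ∀ T : Finset (Fin k → ℕ), T ⊆ Fintype.piFinset (fun i => KS Q (p i).1) →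
    ∀ D : ℕ, 1 ≤ D → (∀ κ ∈ T, D < univ.lcm (fun i => (p i).1 * κ i)) →
    ∀ a H : ℕ, Q ^ E ≤ H → ∀ w : ℕ → ℂ,
    ∑ x ∈ S, ‖∑ n ∈ Ico a (a + H), w n *
        ∑ κ ∈ T, ∏ i, gk (p i) (κ i) ((P i).eval (n : ℤ) + g x i)‖ ^ 2 ≤
      Cc * (1 + Real.log Q) ^ Cc * S.card * (H * ∑ n ∈ Ico a (a + H), ‖w n‖ ^ 2) * (D : ℝ) ^ (-cc)

/-- A cell: a family which satisfies the large sieve, all in the dyadic box `∏ [M_i, 2 M_i)` and close to the base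
point `h0`. -/
structure Cl {k : ℕ} (E : ℕ) (Cc cc : ℝ) (Q : ℕ) (P : Fin k → ℤ[X]) (M : Fin k → ℕ) {ι : Type} (S : Finset ι)
    (g : ι → Fin k → ℕ) (h0 : Fin k → ℕ) : Prop where
  good : FGood E Cc cc (Q ^ 2) P S g
  mem : ∀ x ∈ S, g x ∈ cub M M
  memb : h0 ∈ cub M M
  close : ∀ x ∈ S, ∀ i, (Q : ℤ) ^ 8 * |((g x i : ℕ) : ℤ) - h0 i| ≤ M i

/-! ## Main terms with coefficients frozen at the base point of the cell -/

/-- The sum with the projections in the random coordinates, coefficients frozen at `P_i(bs n) + h0_i`, weight `w`. -/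
def Rzb {k : ℕ} (Q X1 : ℕ) (P : Fin k → ℤ[X]) (C : Fin k → ℤ → Ch → ℂ) (w : ℕ → ℂ) (h0 h : Fin k → ℕ) : ℂ :=
  ∑ n ∈ Ico X1 (2 * X1), w n *
    ∏ i, SG Q (C i ((P i).eval ((bs (X1 / Q ^ 8) n : ℕ) : ℤ) + (h0 i : ℤ))) ((P i).eval (n : ℤ) + h i)

/-- All the coefficients, frozen. -/
def cfb {k : ℕ} (Q X1 : ℕ) (P : Fin k → ℤ[X]) (B : ℤ[X]) (C0 : ℤ → Ch → ℂ) (Cc : Fin k → ℤ → Ch → ℂ)
    (h0 : Fin k → ℕ) (n : ℕ) : Fin (k + 1) → Ch → ℂ :=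
  Fin.cons (C0 (B.eval ((bs (X1 / Q ^ 800) n : ℕ) : ℤ)))
    (fun i => Cc i ((P i).eval ((bs (X1 / Q ^ 8) n : ℕ) : ℤ) + (h0 i : ℤ)))

/-- The total main term. -/
def MZb {k : ℕ} (Q X1 m0 : ℕ) (P : Fin k → ℤ[X]) (B : ℤ[X]) (C0 : ℤ → Ch → ℂ) (Cc : Fin k → ℤ → Ch → ℂ)
    (h0 h : Fin k → ℕ) : ℂ :=
  ∑ n ∈ Ico X1 (2 * X1), MDf Q m0 (cfb Q X1 P B C0 Cc h0 n) (sys B P h)

/-- Truncation of the singular series for a family (`TMf` of H24P). -/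
def TMb (k A E : ℕ) (Cc cc : ℝ) : Prop := ∃ c : ℝ, 0 < c ∧ ∃ Q0 : ℕ, ∀ Q : ℕ, Q0 ≤ Q → ∀ B : ℤ[X], Lin A B →
  ∀ P : Fin k → ℤ[X], Pol A P → ∀ (ι : Type) (S : Finset ι) (g : ι → Fin k → ℕ), FGood E Cc cc (Q ^ 2) P S g →
  ∀ R : ℕ, 1 ≤ R → R ≤ fl Q (1 / 16) → B.leadingCoeff.natAbs ∣ R →
  ∑ x ∈ S, (∑ d ∈ SF (fl Q (1 / 2) / R) R, tdf d (sys B P (g x)) -
    SSf ((pr Q).filter (fun l => ¬ l ∣ R)) (sys B P (g x))) ^ 2 ≤ S.card * (Q : ℝ) ^ (-c)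




end

end Pool.Agent.HUP
end

-- from Lib.HUP.Defs2
section

/-!
# Projects HUP and HPC: uniform interfaces, one parameter allowed

The data are the forms `c`, the degrees `e j` of the parameters, the degrees `D i` and leading coefficients `a i` of the
polynomials. Everything is uniform in the lower coefficients of the polynomials.
-/

open Finset Polynomial

namespace Pool.Agent.HUP

open Pool.Agent.Lib.H68T Pool.Agent.Lib.H18Q Pool.Agent.Lib.H59P Pool.Agent.Lib.H24P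
open Pool.Agent.HUK (GG)

noncomputable section

/-- The polynomials have degrees `D` and leading coefficients `a`. -/
def HasD {k : ℕ} (D : Fin k → ℕ) (a : Fin k → ℤ) (P : Fin k → ℤ[X]) : Prop :=
  ∀ i, (P i).natDegree = D i ∧ (P i).leadingCoeff = a i

/-- The condition on the data: degrees at least `1`, leading coefficients and forms not zero, and for two coordinates of
the same degree the vectors (leading coefficient, form) are linearly independent; a parameter occurs only in coordinates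
of its degree. -/
structure Dat {k d : ℕ} (c : Fin k → Fin d → ℤ) (e : Fin d → ℕ) (D : Fin k → ℕ) (a : Fin k → ℤ) : Prop where
  deg : ∀ i, 1 ≤ D i
  lc : ∀ i, a i ≠ 0
  ne : ∀ i, ∃ j, c i j ≠ 0
  ind : ∀ i i', i ≠ i' → D i = D i' → ∀ x x' : ℤ, x * a i = x' * a i' → (∀ j, x * c i j = x' * c i' j) →
    x = 0 ∧ x' = 0
  par : ∀ j, 1 ≤ e j
  blk : ∀ i j, c i j ≠ 0 → e j = D i

/-- **Interface: the second moment over the parameters.** One function (`i0`) with small `U^s` norm, all others (supported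
in intervals of length `2 C0 X^(D i)`) and the weight `w` arbitrary bounded. -/
def FMT {k d : ℕ} (c : Fin k → Fin d → ℤ) (e : Fin d → ℕ) (D : Fin k → ℕ) (a : Fin k → ℤ) : Prop :=
  ∀ (i0 : Fin k) (C0 : ℕ), ∃ s : ℕ, 2 ≤ s ∧ ∀ κ : ℝ, 0 < κ → ∃ δ : ℝ, 0 < δ ∧ ∃ X0 : ℕ, ∀ X : ℕ, X0 ≤ X →
    ∀ P : Fin k → ℤ[X], HasD D a P →
    ∀ (β : Fin k → ℤ) (b : Fin d → ℤ) (σ : Fin d → ℕ), (∀ j, σ j ≤ C0 * X ^ e j) →
    ∀ n0 N : ℕ, n0 + N ≤ C0 * X → ∀ w : ℕ → ℂ, (∀ n, ‖w n‖ ≤ 1) →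
    ∀ f : Fin k → ℤ → ℂ, (∀ i m, ‖f i m‖ ≤ 1) →
    (∀ (i : Fin k) (m : ℤ), m ∉ Ico (-((C0 * X ^ D i : ℕ) : ℤ)) ((C0 * X ^ D i : ℕ) : ℤ) → f i m = 0) →
    GG (C0 * X ^ D i0) s (f i0) ≤ (X : ℝ) ^ ((D i0 : ℝ) * (s + 1) - κ) →
    ∑ t ∈ tb b σ, ‖∑ n ∈ Ico n0 (n0 + N), w n * ∏ i, f i ((P i).eval (n : ℤ) + (β i + lf c t i))‖ ^ 2 ≤
      (X : ℝ) ^ (2 + (∑ j, (e j : ℝ)) - δ)

/-- The coordinates whose form is proportional to the form of `i0` and whose degree is the same. -/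
def Kz {k d : ℕ} (c : Fin k → Fin d → ℤ) (D : Fin k → ℕ) (i0 : Fin k) : Finset (Fin k) :=
  open Classical in univ.filter fun i => D i = D i0 ∧ ∀ j j', c i j * c i0 j' = c i j' * c i0 j

/-- The large sieve, uniformly in the lower coefficients. -/
def FGTU {k d : ℕ} (c : Fin k → Fin d → ℤ) (D : Fin k → ℕ) (a : Fin k → ℤ) : Prop :=
  ∃ (E : ℕ) (Cc cc : ℝ), FPar Cc cc ∧ ∀ P : Fin k → ℤ[X], HasD D a P →
  ∀ (Qm : ℕ) (b : Fin d → ℤ) (s : Fin d → ℕ) (β : Fin k → ℤ), 1 ≤ Qm → (∀ j, Qm ^ E ≤ s j) →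
    (∀ t ∈ tb b s, ∀ i, 0 ≤ β i + lf c t i) → FGood E Cc cc Qm P (tb b s) (hh c β)

/-- The geometry, uniformly in the lower coefficients (`Geo` of H24P with `lo` replaced). -/
structure GeoU (A Q X X1 : ℕ) {k : ℕ} (P : Fin k → ℤ[X]) (M : Fin k → ℕ) : Prop where
  dvd : Q ^ 800 ∣ X1
  pos : 0 < X1
  le : X1 ≤ X
  ge : X ≤ X1 * Q
  dvdM : ∀ i, 8 * Q ^ 8 ∣ M i
  lo : ∀ i j, 1000 * (A + 1) ^ 2 * ((P i).coeff j).natAbs * (2 * X1) ^ j ≤ M i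
  hi : ∀ i, (M i : ℝ) ≤ (X1 : ℝ) ^ (P i).natDegree * (Q : ℝ) ^ (1 / 8 : ℝ)

/-- `S4T` uniformly in the lower coefficients. -/
def S4TU {k d : ℕ} (c : Fin k → Fin d → ℤ) (e : Fin d → ℕ) (D : Fin k → ℕ) (a : Fin k → ℤ) : Prop :=
  ∀ A : ℕ, (∀ i, D i ≤ A) → ∃ K : ℝ, 1 ≤ K ∧ ∀ C : ℝ, ∃ τ c0 : ℝ, 0 < τ ∧ τ ≤ 1 ∧
    0 < c0 ∧ ∃ Q0 : ℕ, ∀ P : Fin k → ℤ[X], HasD D a P →
    ∀ (Q X X1 : ℕ) (M : Fin k → ℕ) (b : Fin d → ℤ) (s : Fin d → ℕ) (β : Fin k → ℤ), Q0 ≤ Q →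
    Rg K C Q X → GeoU A Q X X1 P M → (X : ℝ) ≤ X1 * (Q : ℝ) ^ τ →
    (∀ i, (M i : ℝ) ≤ (X1 : ℝ) ^ (P i).natDegree * (Q : ℝ) ^ τ) →
    (∀ j, (X : ℝ) ^ e j ≤ (Q : ℝ) ^ τ * s j) → (∀ j, (s j : ℝ) ≤ (Q : ℝ) ^ τ * (X : ℝ) ^ e j) →
    (∀ i, ∃ (B : ℤ → Ch → ℂ) (mb : Ch → ℝ), Cf Q (Ysc (M i)) B mb) →
    (∀ t ∈ tb b s, ∀ i, 151 * (M i : ℤ) ≤ 100 * (β i + lf c t i) ∧ 100 * (β i + lf c t i) < 168 * (M i : ℤ)) →
    ∀ w : ℕ → ℝ, (∀ n ∈ Ico X1 (2 * X1), |w n| ≤ (Real.log X) ^ 2) →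
    ∑ t ∈ tb b s, (∑ n ∈ Ico X1 (2 * X1), w n * ∏ i, lp ((P i).eval (n : ℤ) + hh c β t i) -
      Rw Q X1 P M w (hh c β t)) ^ 2 ≤ (X1 : ℝ) ^ 2 * (tb b s).card * (Q : ℝ) ^ (-c0)

end

end Pool.Agent.HUP
end

-- from Lib.H9P.U0
section

/-!
# Project ASYP (MP_0bf1d2_nt): the asymptotic formula for systems of polynomials of any degrees. Definitions

See `PROOF.md` in this folder.
-/

open Finset Polynomial

namespace Pool.Agent.H9P

open Pool.Agent.Lib.H68T Pool.Agent.Lib.H18Q Pool.Agent.Lib.H59P Pool.Agent.Lib.H24P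
open Pool.Agent.HUP

noncomputable section

/-- The geometry as it is used in the estimates: on `[X1, 2 X1)` the polynomials are small compared to `M_i` and vary
slowly. It follows from `GeoU` (`U1_geo`). -/
structure GeoV (Q X X1 : ℕ) {k : ℕ} (P : Fin k → ℤ[X]) (M : Fin k → ℕ) : Prop where
  dvd : Q ^ 800 ∣ X1
  pos : 0 < X1
  le : X1 ≤ X
  ge : X ≤ X1 * Q
  dvdM : ∀ i, 8 * Q ^ 8 ∣ M i
  two : ∀ i, 2 * X1 ≤ M i
  hi : ∀ i, (M i : ℝ) ≤ (X1 : ℝ) ^ (P i).natDegree * (Q : ℝ) ^ (1 / 8 : ℝ)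
  small : ∀ i, ∀ n ∈ Ico X1 (2 * X1), 8 * |(P i).eval (n : ℤ)| ≤ M i
  slow : ∀ i, ∀ n ∈ Ico X1 (2 * X1), ∀ n' ∈ Ico X1 (2 * X1), n ≤ n' → (n' - n) * Q ^ 8 ≤ X1 →
    (Q : ℤ) ^ 8 * |(P i).eval (n' : ℤ) - (P i).eval (n : ℤ)| ≤ M i

/-- The polynomial `P(n0 + x) - P(n0)`. -/
def shf (n0 : ℕ) (P : ℤ[X]) : ℤ[X] := P.comp (X + C (n0 : ℤ)) - C (P.eval (n0 : ℤ))

/-- The number of the `n ∈ [n1, n1 + L)` at which all the maps are primes. -/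
def cnt {k : ℕ} (φ : Fin k → ℤ → ℤ) (n1 L : ℕ) : ℕ :=
  ((Ico n1 (n1 + L)).filter (fun n : ℕ => ∀ i, (φ i (n : ℤ)).toNat.Prime)).card

/-- The expected density of the `n` near which all values of the system are primes (one linear coordinate and `k`
coordinates of degrees `D i`), the singular series truncated at `z`. -/
def dens {k : ℕ} (D : Fin k → ℕ) (z Z : ℕ) (φ : Fin (k + 1) → ℤ → ℤ) : ℝ :=
  SSf (pr z) φ / ((∏ i, (D i : ℝ)) * (Real.log Z) ^ (k + 1))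

/-- The weighted number. -/
def wct {k : ℕ} (φ : Fin k → ℤ → ℤ) (n1 L : ℕ) : ℝ := ∑ n ∈ Ico n1 (n1 + L), ∏ i, lp (φ i (n : ℤ))

/-- The models without exceptional zero, for all lengths between `√Z` and `Z^(A+2)`. -/
def Lv (A Q Z : ℕ) (E0 : ℝ) : Prop := ∀ Y : ℕ, Z ≤ Y ^ 2 → Y ≤ Z ^ (A + 2) →
  Mdl Q Y 1 E0 p0 (fun _ => 0) ∧ Mdl (Q ^ 100) Y 1 E0 p0 (fun _ => 0)

/-- The linear coordinate `B(n) = N - G(n)`, `G` linear: decreasing, leading coefficient at most `A` in absolute value,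
`Z` is the last `n` with `B(n) > 0`. -/
structure Dec (A Z : ℕ) (B : ℤ[X]) : Prop where
  deg : B.natDegree = 1
  neg : B.leadingCoeff < 0
  lc : B.leadingCoeff.natAbs ≤ A
  pos : 0 < B.eval (Z : ℤ)
  last : B.eval ((Z : ℤ) + 1) ≤ 0


end

end Pool.Agent.H9P
end

-- from Lib.H9P.U11
section

/-!
# ASYP, chunk U11 (M): translation of the variable `n`
-/

open Finset Polynomial

namespace Pool.Agent.H9P

open Pool.Agent.Lib.H68T Pool.Agent.Lib.H18Q Pool.Agent.Lib.H59P Pool.Agent.Lib.H24P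
open Pool.Agent.HUP

theorem u11_per (G : ℤ → ℝ) (l : ℕ) (hG : ∀ n, G (n + l) = G n) (m : ℤ) :
    ∑ n ∈ range l, G (m + n) = ∑ n ∈ range l, G n := by
  have hstep : ∀ m : ℤ, ∑ n ∈ range l, G (m + 1 + n) = ∑ n ∈ range l, G (m + n) := by
    intro m
    have h1 := Finset.sum_range_succ (fun n : ℕ => G (m + n)) l
    have h2 := Finset.sum_range_succ' (fun n : ℕ => G (m + n)) l
    rw [h1] at h2
    have h3 : ∑ n ∈ range l, G (m + ((n + 1 : ℕ) : ℤ)) = ∑ n ∈ range l, G (m + 1 + n) := by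
      refine Finset.sum_congr rfl fun n _ => ?_
      congr 1
      push_cast
      ring
    rw [h3, hG] at h2
    simp only [Nat.cast_zero, add_zero] at h2
    linarith
  induction m using Int.induction_on with
  | zero => simp
  | succ i ih => rw [hstep, ih]
  | pred i ih =>
    have h1 := hstep (-(i : ℤ) - 1)
    rw [sub_add_cancel] at h1
    rw [← h1, ih]

theorem U11_eval (n0 : ℕ) (P : ℤ[X]) (m : ℤ) : (shf n0 P).eval m = P.eval ((n0 : ℤ) + m) - P.eval (n0 : ℤ) := by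
  unfold shf
  rw [eval_sub, eval_comp, eval_add, eval_X, eval_C, eval_C, add_comm m (n0 : ℤ)]

theorem u11_deg (n0 : ℕ) (P : ℤ[X]) : (shf n0 P).natDegree = P.natDegree := by
  unfold shf
  rw [natDegree_sub_C, natDegree_comp, natDegree_X_add_C, mul_one]

/-- Degree at least `1`: degree and leading coefficient are unchanged (`natDegree_comp`, `leadingCoeff_comp`, `natDegree_sub_C`). -/
theorem U11_hasD {k : ℕ} (D : Fin k → ℕ) (a : Fin k → ℤ) (P : Fin k → ℤ[X]) (hP : HasD D a P) (hD : ∀ i, 1 ≤ D i)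
    (n0 : ℕ) : HasD D a (fun i => shf n0 (P i)) := by
  intro i
  obtain ⟨h1, h2⟩ := hP i
  refine ⟨(u11_deg n0 (P i)).trans h1, ?_⟩
  have h3 : ((P i).comp (X + C (n0 : ℤ))).leadingCoeff = (P i).leadingCoeff := by
    rw [leadingCoeff_comp (by rw [natDegree_X_add_C]; exact one_ne_zero), leadingCoeff_X_add_C, one_pow, mul_one]
  have h4 : (shf n0 (P i)).leadingCoeff = ((P i).comp (X + C (n0 : ℤ))).leadingCoeff := by
    unfold leadingCoeff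
    rw [u11_deg, natDegree_comp, natDegree_X_add_C, mul_one]
    unfold shf
    rw [coeff_sub, coeff_C, if_neg (by rw [h1]; have := hD i; omega), sub_zero]
  show (shf n0 (P i)).leadingCoeff = a i
  rw [h4, h3, h2]

/-- Proof. The constant coefficient of `shf n0 P` is `P(n0) - P(n0) = 0`; the others are those of `P(x + n0)` (`Polynomial.taylor`, `taylor_coeff`, hasseDeriv; or by induction on `P`):
`|coeff j| ≤ ∑_(l ≥ j) |a_l| (l choose j) n0^(l-j)`. -/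
theorem U11_coeff (P : ℤ[X]) : ∃ Cp : ℕ, 1 ≤ Cp ∧ ∀ n0 Z : ℕ, n0 ≤ Z → 1 ≤ Z → (shf n0 P).coeff 0 = 0 ∧
    ∀ j, ((shf n0 P).coeff j).natAbs * Z ^ j ≤ Cp * Z ^ P.natDegree := by
  refine ⟨∑ i ∈ P.support, 2 ^ i * (P.coeff i).natAbs + 1, by omega, fun n0 Z hn hZ => ?_⟩
  have h0 : (shf n0 P).coeff 0 = 0 := by
    rw [coeff_zero_eq_eval_zero, U11_eval, add_zero, sub_self]
  refine ⟨h0, fun j => ?_⟩
  rcases Nat.eq_zero_or_pos j with hj | hj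
  · rw [hj, h0]
    simp
  have h1 : (shf n0 P).coeff j = ∑ i ∈ P.support, (i.choose j : ℤ) * P.coeff i * (n0 : ℤ) ^ (i - j) := by
    unfold shf
    rw [coeff_sub, coeff_C, if_neg (by omega), sub_zero, ← taylor_apply, taylor_coeff, hasseDeriv_apply,
      Polynomial.sum_def, eval_finsetSum]
    refine Finset.sum_congr rfl fun i _ => ?_
    rw [eval_monomial]
  have h2 : ((shf n0 P).coeff j).natAbs ≤ ∑ i ∈ P.support, i.choose j * (P.coeff i).natAbs * n0 ^ (i - j) := by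
    rw [h1]
    refine (Int.natAbs_sum_le _ _).trans (Finset.sum_le_sum fun i _ => ?_)
    rw [Int.natAbs_mul, Int.natAbs_mul, Int.natAbs_pow, Int.natAbs_natCast, Int.natAbs_natCast]
  calc ((shf n0 P).coeff j).natAbs * Z ^ j
      ≤ (∑ i ∈ P.support, i.choose j * (P.coeff i).natAbs * n0 ^ (i - j)) * Z ^ j := Nat.mul_le_mul_right _ h2
    _ = ∑ i ∈ P.support, i.choose j * (P.coeff i).natAbs * n0 ^ (i - j) * Z ^ j := by rw [Finset.sum_mul]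
    _ ≤ ∑ i ∈ P.support, 2 ^ i * (P.coeff i).natAbs * Z ^ P.natDegree := by
        refine Finset.sum_le_sum fun i hi => ?_
        rcases Nat.lt_or_ge i j with h | h
        · rw [Nat.choose_eq_zero_of_lt h]
          simp
        · have h3 : n0 ^ (i - j) * Z ^ j ≤ Z ^ P.natDegree := by
            calc n0 ^ (i - j) * Z ^ j ≤ Z ^ (i - j) * Z ^ j := Nat.mul_le_mul_right _ (Nat.pow_le_pow_left hn _)
              _ = Z ^ i := by rw [← pow_add, Nat.sub_add_cancel h]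
              _ ≤ Z ^ P.natDegree := Nat.pow_le_pow_right hZ (le_natDegree_of_mem_supp i hi)
          have h4 : i.choose j ≤ 2 ^ i := Nat.choose_le_two_pow i j
          rw [mul_assoc]
          exact Nat.mul_le_mul (Nat.mul_le_mul_right _ h4) h3
    _ = (∑ i ∈ P.support, 2 ^ i * (P.coeff i).natAbs) * Z ^ P.natDegree := by rw [Finset.sum_mul]
    _ ≤ (∑ i ∈ P.support, 2 ^ i * (P.coeff i).natAbs + 1) * Z ^ P.natDegree :=
        Nat.mul_le_mul_right _ (Nat.le_succ _)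

/-- The geometry of a cell. Proof. For `j = 0` the coefficient is `0`; for `j ≥ 1`, `2 X1 ≤ Z`: `(2 X1)^j Z ≤ 2 X1 Z^j`, so
`Z · (1000 (A+1)² |coeff j| (2 X1)^j) ≤ 1000 (A+1)² 2 X1 Cp Z^(deg)` (`U11_coeff`, the maximum of the `Cp`), which is at most `Z M_i` by hypothesis. -/
theorem U11_geo {k : ℕ} (P : Fin k → ℤ[X]) (A : ℕ) : ∃ Cg : ℕ, 1 ≤ Cg ∧ ∀ (Q X Z X1 n0 : ℕ) (M : Fin k → ℕ),
    1 ≤ Z → n0 ≤ A * Z → 2 * X1 ≤ Z → Q ^ 800 ∣ X1 → 0 < X1 → X1 ≤ X → X ≤ X1 * Q → (∀ i, 8 * Q ^ 8 ∣ M i) →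
    (∀ i, Cg * X1 * Z ^ (P i).natDegree ≤ Z * M i) →
    (∀ i, (M i : ℝ) ≤ (X1 : ℝ) ^ (P i).natDegree * (Q : ℝ) ^ (1 / 8 : ℝ)) → (∀ i, 1 ≤ (P i).natDegree) →
    GeoU A Q X X1 (fun i => shf n0 (P i)) M := by
  choose Cp hCp1 hCp using fun i => U11_coeff (P i)
  refine ⟨2000 * (A + 1) ^ 2 * ∑ i, Cp i * (A + 1) ^ (P i).natDegree + 1, by omega, ?_⟩
  intro Q X Z X1 n0 M hZ hn0 hX1Z hdvd hpos hle hge hdvdM hlo hhi hdeg
  refine ⟨hdvd, hpos, hle, hge, hdvdM, ?_, ?_⟩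
  · intro i j
    have hZ' : n0 ≤ (A + 1) * Z := by
      have : (A + 1) * Z = A * Z + Z := by ring
      omega
    have hZ1 : 1 ≤ (A + 1) * Z := Nat.mul_pos (Nat.succ_pos A) hZ
    obtain ⟨h0, hc⟩ := hCp i n0 ((A + 1) * Z) hZ' hZ1
    show 1000 * (A + 1) ^ 2 * ((shf n0 (P i)).coeff j).natAbs * (2 * X1) ^ j ≤ M i
    rcases Nat.eq_zero_or_pos j with hj | hj
    · rw [hj, h0]
      simp
    have h1 : (2 * X1) ^ j * Z ≤ 2 * X1 * Z ^ j := by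
      obtain ⟨m, rfl⟩ : ∃ m, j = m + 1 := ⟨j - 1, by omega⟩
      have h2 : (2 * X1) ^ m ≤ Z ^ m := Nat.pow_le_pow_left hX1Z m
      calc (2 * X1) ^ (m + 1) * Z = (2 * X1) ^ m * (2 * X1 * Z) := by ring
        _ ≤ Z ^ m * (2 * X1 * Z) := Nat.mul_le_mul_right _ h2
        _ = 2 * X1 * Z ^ (m + 1) := by ring
    have h2 : ((shf n0 (P i)).coeff j).natAbs * Z ^ j ≤ Cp i * ((A + 1) ^ (P i).natDegree * Z ^ (P i).natDegree) := by
      calc ((shf n0 (P i)).coeff j).natAbs * Z ^ j ≤ ((shf n0 (P i)).coeff j).natAbs * ((A + 1) * Z) ^ j :=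
            Nat.mul_le_mul_left _ (Nat.pow_le_pow_left (Nat.le_mul_of_pos_left Z (Nat.succ_pos A)) j)
        _ ≤ Cp i * ((A + 1) * Z) ^ (P i).natDegree := hc j
        _ = Cp i * ((A + 1) ^ (P i).natDegree * Z ^ (P i).natDegree) := by rw [mul_pow]
    have h3 : Cp i * (A + 1) ^ (P i).natDegree ≤ ∑ i, Cp i * (A + 1) ^ (P i).natDegree :=
      Finset.single_le_sum (f := fun i => Cp i * (A + 1) ^ (P i).natDegree) (fun _ _ => Nat.zero_le _)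
        (mem_univ i)
    have h4 : Z * (1000 * (A + 1) ^ 2 * ((shf n0 (P i)).coeff j).natAbs * (2 * X1) ^ j) ≤ Z * M i := by
      calc Z * (1000 * (A + 1) ^ 2 * ((shf n0 (P i)).coeff j).natAbs * (2 * X1) ^ j)
          = 1000 * (A + 1) ^ 2 * ((shf n0 (P i)).coeff j).natAbs * ((2 * X1) ^ j * Z) := by ring
        _ ≤ 1000 * (A + 1) ^ 2 * ((shf n0 (P i)).coeff j).natAbs * (2 * X1 * Z ^ j) := Nat.mul_le_mul_left _ h1
        _ = 2000 * (A + 1) ^ 2 * X1 * (((shf n0 (P i)).coeff j).natAbs * Z ^ j) := by ring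
        _ ≤ 2000 * (A + 1) ^ 2 * X1 * (Cp i * ((A + 1) ^ (P i).natDegree * Z ^ (P i).natDegree)) :=
            Nat.mul_le_mul_left _ h2
        _ = 2000 * (A + 1) ^ 2 * (Cp i * (A + 1) ^ (P i).natDegree) * (X1 * Z ^ (P i).natDegree) := by ring
        _ ≤ 2000 * (A + 1) ^ 2 * (∑ i, Cp i * (A + 1) ^ (P i).natDegree) * (X1 * Z ^ (P i).natDegree) :=
            Nat.mul_le_mul_right _ (Nat.mul_le_mul_left _ h3)
        _ ≤ (2000 * (A + 1) ^ 2 * (∑ i, Cp i * (A + 1) ^ (P i).natDegree) + 1) * (X1 * Z ^ (P i).natDegree) :=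
            Nat.mul_le_mul_right _ (Nat.le_succ _)
        _ = (2000 * (A + 1) ^ 2 * (∑ i, Cp i * (A + 1) ^ (P i).natDegree) + 1) * X1 * Z ^ (P i).natDegree := by ring
        _ ≤ Z * M i := hlo i
    exact Nat.le_of_mul_le_mul_left h4 hZ
  · intro i
    show (M i : ℝ) ≤ (X1 : ℝ) ^ (shf n0 (P i)).natDegree * (Q : ℝ) ^ (1 / 8 : ℝ)
    rw [u11_deg]
    exact hhi i

/-- The local factors of the translated system. Proof. `tpf l`: the sum over a complete system of residues; `Cp φ` (all `φ_i(n + l) ≡ φ_i(n)` mod `l`, so `gl l (φ_i n)` is periodic). -/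
theorem U11_SS {k : ℕ} (φ : Fin k → ℤ → ℤ) (hφ : Cp φ) (S : Finset ℕ) (n0 : ℤ) :
    SSf S (fun i n => φ i (n0 + n)) = SSf S φ := by
  unfold SSf
  refine Finset.prod_congr rfl fun l _ => ?_
  unfold tpf
  have h := u11_per (fun n => ∏ i, (1 + gl l (φ i n))) l (fun n => by
    refine Finset.prod_congr rfl fun i _ => ?_
    rw [P2_gl φ hφ l l (dvd_refl l) i n]) n0
  simp only at h ⊢
  rw [h]

/-- The translated system. Proof. `funext`, `Fin.cases`; `hh c β' t i = β i + P_i(n0) + ψ_i(t)` as both `β i + ψ_i(t)` and this sum are not negative. -/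
theorem U11_sys {k d : ℕ} (c : Fin k → Fin d → ℤ) (B : ℤ[X]) (P : Fin k → ℤ[X]) (n0 : ℕ) (β : Fin k → ℤ)
    (t : Fin d → ℤ) (h1 : ∀ i, 0 ≤ β i + lf c t i) (h2 : ∀ i, 0 ≤ (P i).eval (n0 : ℤ) + β i + lf c t i) :
    sys (B.comp (X + C (n0 : ℤ))) (fun i => shf n0 (P i)) (hh c (fun i => β i + (P i).eval (n0 : ℤ)) t) =
      fun i n => sys B P (hh c β t) i ((n0 : ℤ) + n) := by
  funext i n
  refine Fin.cases ?_ (fun j => ?_) i
  · show (B.comp (X + C (n0 : ℤ))).eval n = B.eval ((n0 : ℤ) + n)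
    rw [eval_comp, eval_add, eval_X, eval_C, add_comm]
  · show (shf n0 (P j)).eval n + (((β j + (P j).eval (n0 : ℤ) + lf c t j).toNat : ℕ) : ℤ) =
      (P j).eval ((n0 : ℤ) + n) + (((β j + lf c t j).toNat : ℕ) : ℤ)
    rw [U11_eval, Int.toNat_of_nonneg (h1 j), Int.toNat_of_nonneg (by have := h2 j; linarith)]
    ring

/-- `RPh` is a `wct`, and translation. (`Fin.prod_univ_succ`; `Finset.sum_Ico_add'`.) -/
theorem U11_wct {k : ℕ} (X1 : ℕ) (B : ℤ[X]) (P : Fin k → ℤ[X]) (h : Fin k → ℕ) :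
    RPh X1 B P h = wct (sys B P h) X1 X1 := by
  unfold RPh wct
  rw [two_mul]
  refine Finset.sum_congr rfl fun n _ => ?_
  rw [Fin.prod_univ_succ]
  rfl

theorem U11_wct_add {k : ℕ} (φ : Fin k → ℤ → ℤ) (n0 n1 L : ℕ) :
    wct (fun i n => φ i ((n0 : ℤ) + n)) n1 L = wct φ (n0 + n1) L := by
  unfold wct
  have h := Finset.sum_Ico_add (fun n : ℕ => ∏ i, lp (φ i (n : ℤ))) n1 (n1 + L) n0
  rw [show n0 + n1 = n1 + n0 by omega, show n1 + n0 + L = n1 + L + n0 by omega, ← h]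
  refine Finset.sum_congr rfl fun n _ => ?_
  refine Finset.prod_congr rfl fun i _ => ?_
  push_cast
  rfl

/-- The linear coordinate of a cell. Proof. `natDegree_comp`, leading coefficient unchanged; `IsCoprime (b0 + n0 b1) b1`. `Y` = the smaller of the two values at `X1` and at `2 X1 - 1` (linear: monotone);
the values differ by at most `A X1 ≤ δ Z ≤ Y`, so they are in `[Y, 3Y)`. -/
theorem U11_geoB (A : ℕ) (hA : 1 ≤ A) (δ : ℝ) (hδ : 0 < δ) (Z X1 n0 : ℕ) (hX1 : 0 < X1) (hs : (A : ℝ) * X1 ≤ δ * Z)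
    (B : ℤ[X]) (hB : Lin A B) (hv : ∀ n ∈ Ico (n0 + X1) (n0 + 2 * X1), δ * Z ≤ ((B.eval (n : ℤ) : ℤ) : ℝ) ∧
      ((B.eval (n : ℤ) : ℤ) : ℝ) ≤ A * Z) :
    ∃ Y : ℕ, GeoB A Z X1 Y (B.comp (X + C (n0 : ℤ))) ∧ δ * Z ≤ Y ∧ Y ≤ A * Z := by
  obtain ⟨b0, hb0⟩ : ∃ b0, B.coeff 0 = b0 := ⟨_, rfl⟩
  obtain ⟨b1, hb1⟩ : ∃ b1, B.coeff 1 = b1 := ⟨_, rfl⟩
  have hBe : B = C b1 * X + C b0 := by
    have := eq_X_add_C_of_natDegree_le_one (le_of_eq hB.deg)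
    rw [hb0, hb1] at this
    exact this
  have hlcB : B.leadingCoeff = b1 := by
    unfold leadingCoeff
    rw [hB.deg, hb1]
  have hb1A : b1.natAbs ≤ A := hlcB ▸ hB.lc
  have hcop : IsCoprime b0 b1 := by
    have := hB.cop
    rwa [hb0, hb1] at this
  have hb10 : b1 ≠ 0 := by
    intro h
    rw [h] at hlcB
    have h1 := leadingCoeff_eq_zero.1 hlcB
    have h2 := hB.deg
    rw [h1, natDegree_zero] at h2
    exact absurd h2 (by norm_num)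
  have hBv : ∀ m : ℤ, B.eval m = b1 * m + b0 := fun m => by
    rw [hBe]
    simp
  have hB'e : B.comp (X + C (n0 : ℤ)) = C b1 * X + C (b0 + n0 * b1) := by
    rw [hBe]
    simp only [add_comp, mul_comp, C_comp, X_comp, C_add, C_mul]
    ring
  have hB'v : ∀ m : ℤ, (B.comp (X + C (n0 : ℤ))).eval m = b1 * m + (b0 + n0 * b1) := fun m => by
    rw [hB'e]
    simp
  have hX1r : (1 : ℝ) ≤ X1 := by exact_mod_cast hX1
  have hAr : (1 : ℝ) ≤ A := by exact_mod_cast hA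
  have hAX : (X1 : ℝ) ≤ A * X1 := by nlinarith
  have hval : ∀ n : ℕ, n ∈ Ico X1 (2 * X1) → δ * Z ≤ ((b1 * n + (b0 + n0 * b1) : ℤ) : ℝ) ∧
      ((b1 * n + (b0 + n0 * b1) : ℤ) : ℝ) ≤ A * Z := by
    intro n hn
    rw [mem_Ico] at hn
    have h := hv (n0 + n) (mem_Ico.2 ⟨by omega, by omega⟩)
    rw [hBv] at h
    have h2 : b1 * (((n0 + n : ℕ) : ℤ)) + b0 = b1 * n + (b0 + n0 * b1) := by
      push_cast
      ring
    rw [h2] at h
    exact h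
  have hlast : 2 * X1 - 1 ∈ Ico X1 (2 * X1) := mem_Ico.2 ⟨by omega, by omega⟩
  have hfirst : X1 ∈ Ico X1 (2 * X1) := mem_Ico.2 ⟨le_refl _, by omega⟩
  -- the value at the point of the minimum
  obtain ⟨m, hm, hmin⟩ : ∃ m : ℕ, m ∈ Ico X1 (2 * X1) ∧ ∀ n : ℕ, n ∈ Ico X1 (2 * X1) →
      b1 * m + (b0 + n0 * b1) ≤ b1 * n + (b0 + n0 * b1) := by
    obtain ⟨m, hm, h⟩ := Finset.exists_min_image (Ico X1 (2 * X1)) (fun n : ℕ => b1 * n + (b0 + n0 * b1))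
      ⟨X1, hfirst⟩
    exact ⟨m, hm, h⟩
  obtain ⟨v, hvd⟩ : ∃ v : ℤ, v = b1 * m + (b0 + n0 * b1) := ⟨_, rfl⟩
  have hv1 := hval m hm
  rw [← hvd] at hv1
  have hδZ : 0 < δ * Z := by linarith
  have hvpos : 0 ≤ v := by
    have : (0 : ℝ) ≤ (v : ℝ) := by linarith [hv1.1]
    exact_mod_cast this
  have hvn : ((v.toNat : ℕ) : ℤ) = v := Int.toNat_of_nonneg hvpos
  have hvr : ((v.toNat : ℕ) : ℝ) = (v : ℝ) := by
    have : (((v.toNat : ℕ) : ℤ) : ℝ) = (v : ℝ) := by rw [hvn]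
    exact_mod_cast this
  refine ⟨v.toNat, ⟨⟨?_, ?_, ?_⟩, ?_, ?_, ?_, ?_⟩, ?_, ?_⟩
  · rw [natDegree_comp, natDegree_X_add_C, hB.deg]
  · rw [leadingCoeff_comp (by rw [natDegree_X_add_C]; exact one_ne_zero), leadingCoeff_X_add_C, one_pow, mul_one]
    exact hB.lc
  · rw [hB'e]
    simp only [coeff_add, coeff_C_mul, coeff_X_zero, coeff_C_zero, coeff_X_one, mul_zero, zero_add, mul_one]
    rw [coeff_C, if_neg one_ne_zero, add_zero]
    exact hcop.add_mul_right_left (n0 : ℤ)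
  · intro n hn
    rw [hB'v, hvn, hvd]
    exact hmin n hn
  · intro n hn
    rw [hB'v, hvn]
    have h1 : b1 * n + (b0 + n0 * b1) = v + b1 * ((n : ℤ) - m) := by rw [hvd]; ring
    rw [h1]
    rw [mem_Ico] at hn hm
    have h2 : |b1 * ((n : ℤ) - m)| ≤ A * X1 := by
      rw [abs_mul]
      have h3 : |b1| ≤ (A : ℤ) := by
        rw [Int.abs_eq_natAbs]
        exact_mod_cast hb1A
      have h4 : |(n : ℤ) - m| ≤ (X1 : ℤ) := by
        rw [abs_le]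
        omega
      exact mul_le_mul h3 h4 (abs_nonneg _) (by positivity)
    have h3 : ((A : ℤ) : ℝ) * ((X1 : ℤ) : ℝ) ≤ (v : ℝ) := by
      push_cast
      linarith [hv1.1]
    have h4 : (A : ℤ) * X1 ≤ v := by exact_mod_cast h3
    have h5 : 0 < v := by
      have : (0 : ℝ) < (v : ℝ) := by linarith [hv1.1]
      exact_mod_cast this
    have h6 := le_abs_self (b1 * ((n : ℤ) - m))
    linarith
  · have h3 : (X1 : ℝ) ≤ ((v.toNat : ℕ) : ℝ) := by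
      rw [hvr]
      linarith [hv1.1]
    have h4 : X1 ≤ v.toNat := by exact_mod_cast h3
    omega
  · have h3 : ((v.toNat : ℕ) : ℝ) ≤ (A : ℝ) * Z := by
      rw [hvr]
      exact hv1.2
    exact_mod_cast h3
  · rw [hvr]
    exact hv1.1
  · have h3 : ((v.toNat : ℕ) : ℝ) ≤ (A : ℝ) * Z := by
      rw [hvr]
      exact hv1.2
    exact_mod_cast h3

end Pool.Agent.H9P
end
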