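import Mathlib
import Pool.Agent.Lib.H59M.M2.M004
import Pool.Agent.Lib.H59M.M2.M006
import Pool.Agent.Lib.H59M.M2.M014
import Pool.Agent.Lib.H59M.M2.M016
import Pool.Agent.Lib.H59M.M2.M023
import Pool.Agent.Lib.H59M.M2.M025
import Pool.Agent.Lib.H59M.M2.M026
import Pool.Agent.Lib.H59M.M2.M036
import Pool.Agent.Lib.H59M.M2.M039
import Pool.Agent.Lib.H59M.M2.M040
import Pool.Agent.Lib.H59M.M2.M041
import Pool.Agent.Lib.H59M.M2.M047
import Pool.Agent.Lib.H59M.M2.M060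
import Pool.Agent.Lib.H59M.M2.M072
import Pool.Agent.Lib.H59M.M2.M073
import Pool.Agent.Lib.H59M.M2.M077
import Pool.Agent.Lib.H59M.M2.M078
import Pool.Agent.Lib.H59M.M2.M080
import Pool.Agent.Lib.H59M.M2.M087
import Pool.Agent.Lib.H59M.M2.M090
import Pool.Agent.Lib.H59M.M2.M094
import Pool.Agent.Lib.H59M.M2.M096
import Pool.Agent.Lib.H59M.M2.M098

/-! Merged copies (to shorten the build) of Lib.H24P.B5, Lib.H24P.Z1L, Lib.H24P.K1, Lib.H24P.T5. -/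

-- from Lib.H24P.B5
section

/-!
# Project H24P, chunk B5 (M): mean squares of the linear coordinate
-/

open Finset Polynomial

namespace Pool.Agent.Lib.H24P

open Pool.Agent.Lib.H68T Pool.Agent.Lib.H18Q Pool.Agent.Lib.H59P

theorem b5_per (Q : ℕ) (x t : ℤ) : dQ Q (x + (Q.factorial : ℤ) * t) = dQ Q x := by
  unfold dQ
  congr 2
  refine Finset.filter_congr fun d hd => ?_
  rw [Finset.mem_Icc] at hd
  have h1 : (d : ℤ) ∣ (Q.factorial : ℤ) * t :=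
    Dvd.dvd.mul_right (Int.natCast_dvd_natCast.2 (Nat.dvd_factorial (by omega) hd.2)) t
  constructor
  · intro h
    exact (Int.dvd_add_left h1).1 h
  · intro h
    exact (Int.dvd_add_left h1).2 h

theorem b5_core (Q W H : ℕ) (hW : 0 < W) (x : ℤ) (hx : IsCoprime x (W : ℤ)) :
    ∑ c ∈ range H, dQ Q (x + W * (c : ℤ)) ^ 2 ≤ H * (1 + Real.log Q) ^ 3 + (Q : ℝ) ^ 2 := by
  have hW' : (1 : ℤ) ≤ W := by exact_mod_cast hW
  have hF : (1 : ℤ) ≤ (Q.factorial : ℤ) := by exact_mod_cast Nat.succ_le_of_lt (Nat.factorial_pos Q)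
  have h0 : 0 ≤ x + (Q.factorial : ℤ) * (W * |x|) := by
    have h1 : |x| ≤ (Q.factorial : ℤ) * (W * |x|) := by
      have h2 := abs_nonneg x
      calc |x| = 1 * (1 * |x|) := by ring
        _ ≤ (Q.factorial : ℤ) * (W * |x|) := by gcongr
    have h3 := neg_abs_le x
    linarith
  obtain ⟨b, hb⟩ := Int.eq_ofNat_of_zero_le h0
  have hbW : Nat.Coprime b W := by
    rw [← Nat.isCoprime_iff_coprime]
    have h4 : (b : ℤ) = x + (W : ℤ) * ((Q.factorial : ℤ) * |x|) := by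
      rw [← hb]
      ring
    rw [h4]
    exact (IsCoprime.add_mul_left_left_iff).2 hx
  have h5 := dQ_moment Q H W b 0 hW hbW
  refine le_trans (le_of_eq ?_) h5
  refine Finset.sum_congr rfl fun c _ => ?_
  have h6 : (b : ℤ) + W * ((0 + c : ℕ) : ℤ) = (x + W * (c : ℤ)) + (Q.factorial : ℤ) * (W * |x|) := by
    rw [← hb, Nat.zero_add]
    ring
  rw [h6, b5_per]

/-- Proof. `B(n) = b + a n`, `gcd(a, b) = 1`. `dQ Q m` depends only on `m` modulo `Q!` and `dQ Q (-m) = dQ Q m`. If `a < 0`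
reflect the interval (`n ↦ 2 a0 + H - 1 - n`). So the sum is `∑_{c < H} dQ(x + W c)^2` with `W = |a| ≥ 1` and an
integer `x` coprime to `W`, which may be replaced by `x + W Q! t ≥ 0`; then `x = b' + W s` with naturals, `b' = x % W`:
`dQ_moment` (`H68T/CG2.lean`). -/
theorem B5_dQ (Q A : ℕ) (B : ℤ[X]) (hB : Lin A B) (a H : ℕ) :
    ∑ n ∈ Ico a (a + H), dQ Q (B.eval (n : ℤ)) ^ 2 ≤ H * (1 + Real.log Q) ^ 3 + (Q : ℝ) ^ 2 := by
  have hev : ∀ n : ℤ, B.eval n = B.coeff 0 + B.coeff 1 * n := by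
    intro n
    rw [Polynomial.eval_eq_sum_range, hB.deg]
    simp [Finset.sum_range_succ]
  have hc1 : B.coeff 1 ≠ 0 := by
    have h1 : B.leadingCoeff ≠ 0 := by
      rw [Polynomial.leadingCoeff_ne_zero]
      intro h
      have h2 := hB.deg
      rw [h] at h2
      simp at h2
    rwa [Polynomial.leadingCoeff, hB.deg] at h1
  rcases lt_or_gt_of_ne hc1 with hneg | hpos
  · -- negative
    obtain ⟨W, hW⟩ : ∃ W : ℕ, (W : ℤ) = -B.coeff 1 := ⟨(-B.coeff 1).toNat, by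
      rw [Int.toNat_of_nonneg (by linarith)]⟩
    have hW0 : 0 < W := by
      have : (0 : ℤ) < W := by rw [hW]; linarith
      exact_mod_cast this
    have hx : IsCoprime (B.coeff 0 + (W : ℤ) * (-((a : ℤ) + H - 1))) (W : ℤ) := by
      rw [IsCoprime.add_mul_left_left_iff, hW]
      exact (IsCoprime.neg_right_iff _ _).2 hB.cop
    have h1 := b5_core Q W H hW0 _ hx
    refine le_trans (le_of_eq ?_) h1
    rw [Finset.sum_Ico_eq_sum_range, Nat.add_sub_cancel_left]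
    rw [← Finset.sum_range_reflect]
    refine Finset.sum_congr rfl fun c hc => ?_
    rw [Finset.mem_range] at hc
    have h2 : ((a + (H - 1 - c) : ℕ) : ℤ) = a + H - 1 - c := by
      have : 1 + c ≤ H := by omega
      rw [Nat.sub_sub]
      push_cast [this]
      ring
    have h4 : B.eval ((a + (H - 1 - c) : ℕ) : ℤ) =
        B.coeff 0 + (W : ℤ) * (-((a : ℤ) + H - 1)) + W * (c : ℤ) := by
      rw [hev, h2, hW]
      ring
    rw [h4]
  · obtain ⟨W, hW⟩ : ∃ W : ℕ, (W : ℤ) = B.coeff 1 := ⟨(B.coeff 1).toNat, by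
      rw [Int.toNat_of_nonneg (by linarith)]⟩
    have hW0 : 0 < W := by
      have : (0 : ℤ) < W := by rw [hW]; linarith
      exact_mod_cast this
    have hx : IsCoprime (B.coeff 0 + (W : ℤ) * a) (W : ℤ) := by
      rw [IsCoprime.add_mul_left_left_iff, hW]
      exact hB.cop
    have h1 := b5_core Q W H hW0 _ hx
    refine le_trans (le_of_eq ?_) h1
    rw [Finset.sum_Ico_eq_sum_range, Nat.add_sub_cancel_left]
    refine Finset.sum_congr rfl fun c hc => ?_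
    have h4 : B.eval ((a + c : ℕ) : ℤ) = B.coeff 0 + (W : ℤ) * a + W * (c : ℤ) := by
      rw [hev, hW]
      push_cast
      ring
    rw [h4]

/-- Proof. `Fc Q p m = Gam Q p.1 m conj χ(m)` (`gam_expand`) `= SG Q b m` with `b = 1` at `p` and `0` else, so
`‖Fc‖ ≤ 100 (1 + log Q)^3 dQ Q m` (`S1b` with `mb = b`). -/
theorem B5_Fc (Q : ℕ) (hQ : 1 ≤ Q) (p : Ch) (hp : p ∈ PC Q) (m : ℤ) :
    ‖Fc Q p m‖ ≤ 100 * (1 + Real.log Q) ^ 3 * dQ Q m := by
  classical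
  have h1 := S1b Q hQ (fun q => if q = p then 1 else 0) (fun q => if q = p then 1 else 0)
    (fun q _ => by split_ifs <;> simp) m
  have h2 : SG Q (fun q => if q = p then 1 else 0) m = Fc Q p m := by
    unfold SG Fc
    rw [← gam_expand Q p hp m, Finset.sum_eq_single_of_mem p hp]
    · beta_reduce
      rw [if_pos rfl, mul_one]
    · intro q _ hq
      beta_reduce
      rw [if_neg hq, mul_zero]
  have h3 : ∑ q ∈ PC Q, (if q = p then (1 : ℝ) else 0) = 1 := by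
    rw [Finset.sum_ite_eq' (PC Q) p (fun _ => (1 : ℝ)), if_pos hp]
  rw [h2, h3, mul_one] at h1
  exact h1

/-- Proof. `B5_Fc`, `B5_dQ`. -/
theorem B5_sq (Q A : ℕ) (hQ : 1 ≤ Q) (p : Ch) (hp : p ∈ PC Q) (B : ℤ[X]) (hB : Lin A B) (a H : ℕ)
    (hH : Q ^ 2 ≤ H) :
    ∑ n ∈ Ico a (a + H), ‖Fc Q p (B.eval (n : ℤ))‖ ^ 2 ≤ 20000 * (1 + Real.log Q) ^ 9 * H := by
  have hL : 0 ≤ Real.log Q := Real.log_nonneg (by exact_mod_cast hQ)
  have hH' : (Q : ℝ) ^ 2 ≤ H := by exact_mod_cast hH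
  have h1 : ∑ n ∈ Ico a (a + H), ‖Fc Q p (B.eval (n : ℤ))‖ ^ 2 ≤
      ∑ n ∈ Ico a (a + H), (100 * (1 + Real.log Q) ^ 3) ^ 2 * dQ Q (B.eval (n : ℤ)) ^ 2 := by
    refine Finset.sum_le_sum fun n _ => ?_
    rw [← mul_pow]
    exact pow_le_pow_left₀ (norm_nonneg _) (B5_Fc Q hQ p hp _) 2
  rw [← Finset.mul_sum] at h1
  have h2 := B5_dQ Q A B hB a H
  have h3 : (H : ℝ) * (1 + Real.log Q) ^ 3 + (Q : ℝ) ^ 2 ≤ 2 * ((1 + Real.log Q) ^ 3 * H) := by
    have h4 : (1 : ℝ) ≤ (1 + Real.log Q) ^ 3 := one_le_pow₀ (by linarith)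
    have h5 : (H : ℝ) ≤ (1 + Real.log Q) ^ 3 * H := le_mul_of_one_le_left (Nat.cast_nonneg H) h4
    nlinarith
  calc ∑ n ∈ Ico a (a + H), ‖Fc Q p (B.eval (n : ℤ))‖ ^ 2
      ≤ (100 * (1 + Real.log Q) ^ 3) ^ 2 * ∑ n ∈ Ico a (a + H), dQ Q (B.eval (n : ℤ)) ^ 2 := h1
    _ ≤ (100 * (1 + Real.log Q) ^ 3) ^ 2 * (2 * ((1 + Real.log Q) ^ 3 * H)) :=
        mul_le_mul_of_nonneg_left (h2.trans h3) (by positivity)
    _ = 20000 * (1 + Real.log Q) ^ 9 * H := by ring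

end Pool.Agent.Lib.H24P
end

-- from Lib.H24P.Z1L
section

/-!
# Project H24P, chunk Z1L (M): tuples of characters with large modulus
-/

open Finset Polynomial

namespace Pool.Agent.Lib.H24P

open Pool.Agent.Lib.H68T Pool.Agent.Lib.H18Q Pool.Agent.Lib.H59P

theorem z1l_sq (x y : ℂ) : ‖x + y‖ ^ 2 ≤ 2 * ‖x‖ ^ 2 + 2 * ‖y‖ ^ 2 := by
  have h1 : ‖x + y‖ ≤ ‖x‖ + ‖y‖ := norm_add_le x y
  have h2 : 0 ≤ ‖x + y‖ := norm_nonneg _
  nlinarith [sq_nonneg (‖x‖ - ‖y‖)]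


theorem z1l_prod {k : ℕ} (Q : ℕ) (P : Fin k → ℤ[X]) (p : Fin k → Ch) (h : Fin k → ℕ) (n : ℕ) :
    ∏ i : Fin k, Fc Q (p i) ((P i).eval (n : ℤ) + h i) =
      ∑ κ ∈ Fintype.piFinset (fun i : Fin k => KS Q (p i).1),
        ∏ i, gk (p i) (κ i) ((P i).eval (n : ℤ) + h i) := by
  unfold Fc
  rw [Finset.prod_univ_sum]

/-- the tuples with small moduli, the linear coordinate with a large one -/
theorem z1l_small {k : ℕ} (Q D7 : ℕ) (hQ : 1 ≤ Q) (P : Fin k → ℤ[X]) (p0' : Ch)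
    (hp0 : p0' ∈ PC (Q ^ 100)) (B : ℤ[X]) (hB : B.natDegree = 1)
    (hlarge : B.leadingCoeff.natAbs * D7 < p0'.1) (p : Fin k → Ch) (hp : ∀ i, p i ∈ PC Q)
    (a H : ℕ) (h : Fin k → ℕ) :
    ‖∑ n ∈ Ico a (a + H), Fc (Q ^ 100) p0' (B.eval (n : ℤ)) *
      ∑ κ ∈ (Fintype.piFinset (fun i : Fin k => KS Q (p i).1)).filter
        (fun κ => ¬ D7 < univ.lcm (fun i => (p i).1 * κ i)),
        ∏ i, gk (p i) (κ i) ((P i).eval (n : ℤ) + h i)‖ ≤
      2 * (Q : ℝ) ^ 300 * (D7 : ℝ) ^ (2 * k + 1) := by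
  classical
  set S : Finset (Fin k → ℕ) := (Fintype.piFinset (fun i : Fin k => KS Q (p i).1)).filter
        (fun κ => ¬ D7 < univ.lcm (fun i => (p i).1 * κ i)) with hS
  have hr1 : ∀ i, 1 ≤ (p i).1 := fun i => (mem_PC.1 (hp i)).1
  have hfacts : ∀ κ ∈ S, (∀ i, κ i ∈ KS Q (p i).1) ∧ (∀ i, 1 ≤ κ i) ∧
      0 < univ.lcm (fun i => (p i).1 * κ i) ∧ univ.lcm (fun i => (p i).1 * κ i) ≤ D7 ∧
      ∀ i, (p i).1 * κ i ≤ D7 := by
    intro κ hκ
    rw [hS, mem_filter, Fintype.mem_piFinset] at hκ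
    have h1 : ∀ i, 1 ≤ κ i := fun i => (CA_mem_KS.1 (hκ.1 i)).1.1
    have h2 : 0 < univ.lcm (fun i => (p i).1 * κ i) := by
      refine Nat.pos_of_ne_zero ?_
      rw [Finset.lcm_ne_zero_iff]
      intro i _
      have := Nat.mul_pos (hr1 i) (h1 i)
      omega
    refine ⟨hκ.1, h1, h2, not_lt.1 hκ.2, fun i => ?_⟩
    exact (Nat.le_of_dvd h2 (Finset.dvd_lcm (f := fun i => (p i).1 * κ i) (mem_univ i))).trans
      (not_lt.1 hκ.2)
  have e1 : ∑ n ∈ Ico a (a + H), Fc (Q ^ 100) p0' (B.eval (n : ℤ)) *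
      ∑ κ ∈ S, ∏ i, gk (p i) (κ i) ((P i).eval (n : ℤ) + h i) =
      ∑ κ ∈ S, ∑ n ∈ Ico a (a + H), Fc (Q ^ 100) p0' (B.eval (n : ℤ)) *
        ∏ i, gk (p i) (κ i) ((P i).eval (n : ℤ) + h i) := by
    rw [Finset.sum_comm]
    refine Finset.sum_congr rfl fun n _ => ?_
    rw [Finset.mul_sum]
  rw [e1]
  have hone : ∀ κ ∈ S, ‖∑ n ∈ Ico a (a + H), Fc (Q ^ 100) p0' (B.eval (n : ℤ)) *
        ∏ i, gk (p i) (κ i) ((P i).eval (n : ℤ) + h i)‖ ≤
      2 * (Q : ℝ) ^ 300 * D7 * (D7 : ℝ) ^ k := by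
    intro κ hκ
    obtain ⟨hK, h1, hN0, hND, hle⟩ := hfacts κ hκ
    have hB4 := B4_large (Q ^ 100) (univ.lcm (fun i => (p i).1 * κ i)) p0' hp0 B hB hN0
      (lt_of_le_of_lt (Nat.mul_le_mul_left _ hND) hlarge)
      (fun n => ∏ i, gk (p i) (κ i) ((P i).eval n + h i))
      (fun n => by
        refine Finset.prod_congr rfl fun i _ => ?_
        have h2 := Polynomial.sub_dvd_eval_sub (n + (univ.lcm (fun i => (p i).1 * κ i) : ℕ)) n (P i)
        rw [add_sub_cancel_left] at h2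
        have h3 : (((p i).1 * κ i : ℕ) : ℤ) ∣
            (P i).eval (n + (univ.lcm (fun i => (p i).1 * κ i) : ℕ)) - (P i).eval n :=
          (Int.natCast_dvd_natCast.2
            (Finset.dvd_lcm (f := fun i => (p i).1 * κ i) (mem_univ i))).trans h2
        obtain ⟨c, hc⟩ := h3
        have h4 : (P i).eval (n + (univ.lcm (fun i => (p i).1 * κ i) : ℕ)) + (h i : ℤ) =
            ((P i).eval n + h i) + (((p i).1 * κ i : ℕ) : ℤ) * c := by linarith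
        rw [h4, gk_period])
      ((D7 : ℝ) ^ k) (fun n => by
        rw [norm_prod]
        calc ∏ i, ‖gk (p i) (κ i) ((P i).eval n + h i)‖ ≤ ∏ _i : Fin k, (D7 : ℝ) := by
              refine Finset.prod_le_prod (fun i _ => norm_nonneg _) fun i _ => ?_
              have hrD : (p i).1 ≤ D7 := (Nat.le_mul_of_pos_right _ (h1 i)).trans (hle i)
              have hpD : p i ∈ PC D7 := mem_PC.2 ⟨hr1 i, hrD, (mem_PC.1 (hp i)).2.2⟩
              have hκD : κ i ∈ KS D7 (p i).1 := by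
                rw [CA_mem_KS]
                refine ⟨⟨h1 i, ?_⟩, (CA_mem_KS.1 (hK i)).2⟩
                rw [Nat.le_div_iff_mul_le (hr1 i), mul_comm]
                exact hle i
              exact gk_bound D7 (p i) hpD (κ i) hκD _
          _ = (D7 : ℝ) ^ k := by rw [Finset.prod_const, Finset.card_univ, Fintype.card_fin]) a H
    refine hB4.trans ?_
    have hND' : ((univ.lcm (fun i => (p i).1 * κ i) : ℕ) : ℝ) ≤ D7 := by exact_mod_cast hND
    calc 2 * (((Q ^ 100 : ℕ) : ℝ)) ^ 3 * ((univ.lcm (fun i => (p i).1 * κ i) : ℕ) : ℝ) * (D7 : ℝ) ^ k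
        = 2 * (Q : ℝ) ^ 300 * ((univ.lcm (fun i => (p i).1 * κ i) : ℕ) : ℝ) * (D7 : ℝ) ^ k := by
          rw [Nat.cast_pow, ← pow_mul]
      _ ≤ 2 * (Q : ℝ) ^ 300 * D7 * (D7 : ℝ) ^ k := by gcongr
  have hcard : (S.card : ℝ) ≤ (D7 : ℝ) ^ k := by
    have h1 : S ⊆ Fintype.piFinset fun _ : Fin k => Icc 1 D7 := by
      intro κ hκ
      obtain ⟨-, h1, -, -, hle⟩ := hfacts κ hκ
      rw [Fintype.mem_piFinset]
      intro i
      rw [Finset.mem_Icc]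
      exact ⟨h1 i, (Nat.le_mul_of_pos_left _ (hr1 i)).trans (hle i)⟩
    have h2 := Finset.card_le_card h1
    rw [Fintype.card_piFinset, Finset.prod_const, Finset.card_univ, Fintype.card_fin, Nat.card_Icc,
      Nat.add_sub_cancel] at h2
    exact_mod_cast h2
  calc _ ≤ ∑ _κ ∈ S, 2 * (Q : ℝ) ^ 300 * D7 * (D7 : ℝ) ^ k := norm_sum_le_of_le _ hone
    _ = S.card * (2 * (Q : ℝ) ^ 300 * D7 * (D7 : ℝ) ^ k) := by rw [Finset.sum_const, nsmul_eq_mul]
    _ ≤ (D7 : ℝ) ^ k * (2 * (Q : ℝ) ^ 300 * D7 * (D7 : ℝ) ^ k) :=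
        mul_le_mul_of_nonneg_right hcard (by positivity)
    _ = 2 * (Q : ℝ) ^ 300 * (D7 : ℝ) ^ (2 * k + 1) := by ring


end Pool.Agent.Lib.H24P
end

-- from Lib.H24P.K1
section

/-!
# Project H24P, chunk K1 (M): lower bounds for the main term for almost all `h`
-/

open Finset Polynomial

namespace Pool.Agent.Lib.H24P

open Pool.Agent.Lib.H68T Pool.Agent.Lib.H18Q Pool.Agent.Lib.H59P

/-- Chebyshev's inequality for the exceptional set (copy of z4_cheb) -/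
theorem k1_cheb {ι : Type*} (S : Finset ι) (A : ι → ℝ) (T V : ℝ) (hT : 0 < T)
    (hV : ∑ h ∈ S, A h ^ 2 ≤ V) (hA : ∀ h, 0 ≤ A h) :
    (((S.filter fun h => T < A h).card : ℕ) : ℝ) ≤ V / T ^ 2 := by
  rw [le_div_iff₀ (by positivity)]
  refine le_trans ?_ hV
  calc (((S.filter fun h => T < A h).card : ℕ) : ℝ) * T ^ 2
      = ∑ _h ∈ S.filter (fun h => T < A h), T ^ 2 := by rw [Finset.sum_const, nsmul_eq_mul]
    _ ≤ ∑ h ∈ S.filter (fun h => T < A h), A h ^ 2 := by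
        apply Finset.sum_le_sum
        intro h hh
        have h1 := (Finset.mem_filter.1 hh).2
        exact pow_le_pow_left₀ hT.le h1.le 2
    _ ≤ ∑ h ∈ S, A h ^ 2 := by
        apply Finset.sum_le_sum_of_subset_of_nonneg (Finset.filter_subset _ _)
        intro h _ _
        positivity






end Pool.Agent.Lib.H24P
end

-- from Lib.H24P.T5
section

/-!
# Project H24P, chunk T5 (M): truncation of the singular series, assembly
-/

open Finset Polynomial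

namespace Pool.Agent.Lib.H24P

open Pool.Agent.Lib.H68T Pool.Agent.Lib.H18Q Pool.Agent.Lib.H59P

theorem t5_ratio {l : ℕ} (hl : l.Prime) : 1 ≤ (l : ℝ) / ((l : ℝ) - 1) ∧
    (l : ℝ) / ((l : ℝ) - 1) = (1 - 1 / (l : ℝ))⁻¹ := by
  have h2 : (2 : ℝ) ≤ l := by exact_mod_cast hl.two_le
  have h1 : (0 : ℝ) < (l : ℝ) - 1 := by linarith
  have h0 : (l : ℝ) ≠ 0 := by linarith
  refine ⟨?_, ?_⟩
  · rw [le_div_iff₀ h1]
    linarith
  · rw [one_sub_div h0, inv_div]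

/-- Upper bound for products of local factors. Proof. `P0_tp`: `0 ≤ 1 + tpf ≤ (l/(l-1))^(k+1)`, all primes are `≤ Q`:
`Helper57.prod_one_sub_inv_inv_le`. -/
theorem T5_up {k : ℕ} (φ : Fin k → ℤ → ℤ) (Q : ℕ) (hQ : 2 ≤ Q) (P : Finset ℕ) (hP : P ⊆ pr Q) :
    0 ≤ SSf P φ ∧ SSf P φ ≤ (500 * Real.log Q) ^ k := by
  have hpr : ∀ l ∈ P, l.Prime := fun l hl => (Finset.mem_filter.1 (hP hl)).2
  unfold SSf
  refine ⟨Finset.prod_nonneg fun l hl => (P0_tp l (hpr l hl) φ).1, ?_⟩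
  have h1 : ∏ l ∈ P, (1 + tpf l φ) ≤ ∏ l ∈ P, ((l : ℝ) / ((l : ℝ) - 1)) ^ k :=
    Finset.prod_le_prod (fun l hl => (P0_tp l (hpr l hl) φ).1)
      (fun l hl => (P0_tp l (hpr l hl) φ).2)
  have h2 : ∏ l ∈ P, ((l : ℝ) / ((l : ℝ) - 1)) ^ k ≤ ∏ l ∈ pr Q, ((l : ℝ) / ((l : ℝ) - 1)) ^ k := by
    rw [← Finset.prod_sdiff hP]
    refine le_mul_of_one_le_left (Finset.prod_nonneg fun l hl => ?_) ?_
    · exact pow_nonneg (zero_le_one.trans (t5_ratio (hpr l hl)).1) _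
    · have h5 : ∏ _l ∈ pr Q \ P, (1 : ℝ) ≤ ∏ l ∈ pr Q \ P, ((l : ℝ) / ((l : ℝ) - 1)) ^ k :=
        Finset.prod_le_prod (fun _ _ => zero_le_one) fun l hl =>
          one_le_pow₀ (t5_ratio (Finset.mem_filter.1 (Finset.mem_sdiff.1 hl).1).2).1
      rwa [Finset.prod_const_one] at h5
  have h3 : ∏ l ∈ pr Q, ((l : ℝ) / ((l : ℝ) - 1)) ^ k =
      (∏ l ∈ pr Q, (1 - 1 / (l : ℝ))⁻¹) ^ k := by
    rw [Finset.prod_pow]
    congr 1
    exact Finset.prod_congr rfl fun l hl => (t5_ratio (Finset.mem_filter.1 hl).2).2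
  have h4 : pr Q = Sieve.primesUpTo Q := by
    ext l
    rw [Sieve.mem_primesUpTo]
    unfold pr
    rw [Finset.mem_filter, Finset.mem_Icc]
    constructor
    · rintro ⟨⟨_, h⟩, h'⟩
      exact ⟨h', h⟩
    · rintro ⟨h', h⟩
      exact ⟨⟨h'.one_le, h⟩, h'⟩
  rw [h3] at h2
  refine h1.trans (h2.trans ?_)
  rw [h4]
  refine pow_le_pow_left₀ (Finset.prod_nonneg fun l hl => ?_) (Helper57.prod_one_sub_inv_inv_le Q hQ) k
  have hl' := (Sieve.mem_primesUpTo.1 hl).1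
  rw [← (t5_ratio hl').2]
  exact zero_le_one.trans (t5_ratio hl').1

theorem t5_SF {Q E R : ℕ} (hE : E ≤ Q) :
    SF E R = dv ((pr Q).filter (fun l => ¬ l ∣ R)) Q E := by
  unfold SF dv
  refine Finset.filter_congr fun d hd => ?_
  rw [Finset.mem_Icc] at hd
  refine and_congr_right fun hsq => ?_
  constructor
  · intro h l hl
    have hlp := Nat.prime_of_mem_primeFactors hl
    have hld := Nat.dvd_of_mem_primeFactors hl
    have hlQ : l ≤ Q := (Nat.le_of_dvd (by omega) hld).trans (hd.2.trans hE)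
    refine ⟨Finset.mem_filter.2 ⟨Finset.mem_filter.2 ⟨Finset.mem_Icc.2 ⟨hlp.one_le, hlQ⟩, hlp⟩, ?_⟩, hlQ⟩
    intro hlR
    exact hlp.one_lt.ne' (Nat.dvd_one.1 (h ▸ Nat.dvd_gcd hld hlR))
  · intro h
    by_contra hnc
    obtain ⟨l, hlp, h1, h2⟩ := Nat.Prime.not_coprime_iff_dvd.1 hnc
    exact (Finset.mem_filter.1 (h l (Nat.mem_primeFactors.2 ⟨hlp, h1, by omega⟩)).1).2 h2

/-- Minkowski with one distinguished term. -/
theorem t5_mink {α : Type*} (S : Finset α) (P : Finset ℕ) (γ : ℕ → ℝ) (hγ : ∀ q ∈ P, 0 ≤ γ q)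
    (g : α → ℝ) (f : ℕ → α → ℝ) (D : α → ℝ) (c W : ℝ) (hW : 0 ≤ W)
    (hc : 1 + ∑ q ∈ P, γ q ≤ c) (hg : ∑ h ∈ S, g h ^ 2 ≤ W)
    (hf : ∀ q ∈ P, ∑ h ∈ S, f q h ^ 2 ≤ W)
    (hD : ∀ h ∈ S, |D h| ≤ |g h| + ∑ q ∈ P, γ q * |f q h|) :
    ∑ h ∈ S, D h ^ 2 ≤ c ^ 2 * W := by
  classical
  let γ' : Option ℕ → ℂ := fun o => match o with
    | none => 1
    | some q => (γ q : ℂ)
  let f' : Option ℕ → α → ℂ := fun o h => match o with
    | none => ((|g h| : ℝ) : ℂ)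
    | some q => ((|f q h| : ℝ) : ℂ)
  have h1 := Z2a S (Finset.insertNone P) γ' f' c W hW ?_ ?_
  · refine le_trans (Finset.sum_le_sum fun h hh => ?_) h1
    have h2 : ∑ o ∈ Finset.insertNone P, γ' o * f' o h =
        ((|g h| + ∑ q ∈ P, γ q * |f q h| : ℝ) : ℂ) := by
      rw [Finset.sum_insertNone]
      simp only [γ', f']
      push_cast
      rw [one_mul]
    rw [h2, Complex.norm_real, ← sq_abs (D h)]
    refine pow_le_pow_left₀ (abs_nonneg _) ?_ 2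
    rw [Real.norm_eq_abs]
    exact (hD h hh).trans (le_abs_self _)
  · rw [Finset.sum_insertNone]
    simp only [γ', norm_one, Complex.norm_real, Real.norm_eq_abs]
    refine le_trans (le_of_eq ?_) hc
    congr 1
    exact Finset.sum_congr rfl fun q hq => abs_of_nonneg (hγ q hq)
  · intro o ho
    rw [Finset.mem_insertNone] at ho
    rcases o with _ | q
    · simp only [f', Complex.norm_real, Real.norm_eq_abs, abs_abs, sq_abs]
      exact hg
    · simp only [f', Complex.norm_real, Real.norm_eq_abs, abs_abs, sq_abs]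
      exact hf q (ho q rfl)

theorem t5_harm (Q : ℕ) (P : Finset ℕ) (hP : P ⊆ pr Q) : ∑ q ∈ P, 1 / (q : ℝ) ≤ 1 + Real.log Q := by
  have h1 : ∑ q ∈ P, 1 / (q : ℝ) ≤ ∑ q ∈ Icc 1 Q, 1 / (q : ℝ) := by
    refine Finset.sum_le_sum_of_subset_of_nonneg ?_ (fun q _ _ => by positivity)
    exact hP.trans (Finset.filter_subset _ _)
  have h2 : ∑ q ∈ Icc 1 Q, 1 / (q : ℝ) = ((harmonic Q : ℚ) : ℝ) := by
    rw [harmonic_eq_sum_Icc]
    push_cast
    exact Finset.sum_congr rfl fun q _ => one_div _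
  rw [h2] at h1
  exact h1.trans (harmonic_le_one_add_log Q)

/-- The members of `mv`. -/
theorem t5_mv {Q E R a j : ℕ} (hE : E ≤ Q) (ha : a ∣ R) (hj : j ≤ Q) :
    ∀ d ∈ mv ((pr Q).filter (fun l => ¬ l ∣ R)) j E, Squarefree d ∧ E < d ∧ d ≤ Q ^ 2 ∧
      ∀ l ∈ d.primeFactors, l ≤ Q ∧ ¬ l ∣ a := by
  intro d hd
  unfold mv at hd
  rw [Finset.mem_filter, Finset.mem_Ioc] at hd
  obtain ⟨⟨h1, h2⟩, h3, h4, -⟩ := hd
  refine ⟨h3, h1, ?_, fun l hl => ⟨(h4 l hl).2.trans hj, fun h => ?_⟩⟩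
  · calc d ≤ E * j := h2
      _ ≤ Q * Q := Nat.mul_le_mul hE hj
      _ = Q ^ 2 := (pow_two Q).symm
  · exact (Finset.mem_filter.1 (h4 l hl).1).2 (h.trans ha)

/-- The difference of the truncated and the complete singular series, pointwise. -/
theorem t5_point {k : ℕ} (φ : Fin k → ℤ → ℤ) (C1 : ℝ) (hC1 : ∀ l : ℕ, l.Prime → |tpf l φ| ≤ C1 / l)
    {Q E R : ℕ} (hQ : 2 ≤ Q) (hE1 : 1 ≤ E) (hE : E ≤ Q) (hR : 1 ≤ R) :
    |∑ d ∈ SF E R, tdf d φ - SSf ((pr Q).filter (fun l => ¬ l ∣ R)) φ| ≤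
      |∑ m ∈ mv ((pr Q).filter (fun l => ¬ l ∣ R)) Q E, tdf m φ| +
      ∑ q ∈ (pr Q).filter (fun l => ¬ l ∣ R), (C1 / q * (500 * Real.log Q) ^ k) *
        |∑ m ∈ mv ((pr Q).filter (fun l => ¬ l ∣ R)) (q - 1) E, tdf m φ| := by
  classical
  set P' := (pr Q).filter (fun l => ¬ l ∣ R) with hP'
  have hpr : ∀ l ∈ P', l.Prime := fun l hl => (Finset.mem_filter.1 (Finset.mem_filter.1 hl).1).2
  have hsub : P' ⊆ pr Q := Finset.filter_subset _ _
  have hPQ : P'.filter (fun l => l ≤ Q) = P' := by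
    refine Finset.filter_true_of_mem fun l hl => ?_
    exact (Finset.mem_Icc.1 (Finset.mem_filter.1 (hsub hl)).1).2
  have h4 := T4_main (fun l => tpf l φ) P' hpr E hE1 Q
  rw [hPQ] at h4
  have htt : ∀ d, tt (fun l => tpf l φ) d = tdf d φ := fun d => rfl
  simp only [htt] at h4
  rw [t5_SF hE, ← hP', abs_sub_comm]
  have h5 : SSf P' φ - ∑ d ∈ dv P' Q E, tdf d φ =
      ∑ m ∈ mv P' Q E, tdf m φ +
      ∑ q ∈ P', tpf q φ * (∑ m ∈ mv P' (q - 1) E, tdf m φ) *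
        ∏ l ∈ P'.filter (fun l => q < l ∧ l ≤ Q), (1 + tpf l φ) := h4
  rw [h5]
  refine (abs_add_le _ _).trans (add_le_add le_rfl ?_)
  refine (Finset.abs_sum_le_sum_abs _ _).trans (Finset.sum_le_sum fun q hq => ?_)
  rw [abs_mul, abs_mul]
  have h6 := T5_up φ Q hQ (P'.filter (fun l => q < l ∧ l ≤ Q)) ((Finset.filter_subset _ _).trans hsub)
  have h7 : |∏ l ∈ P'.filter (fun l => q < l ∧ l ≤ Q), (1 + tpf l φ)| ≤ (500 * Real.log Q) ^ k := by
    have h8 : |SSf (P'.filter (fun l => q < l ∧ l ≤ Q)) φ| ≤ (500 * Real.log Q) ^ k := by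
      rw [abs_of_nonneg h6.1]
      exact h6.2
    exact h8
  have h9 := hC1 q (hpr q hq)
  calc |tpf q φ| * |∑ m ∈ mv P' (q - 1) E, tdf m φ| *
        |∏ l ∈ P'.filter (fun l => q < l ∧ l ≤ Q), (1 + tpf l φ)|
      ≤ (C1 / q) * |∑ m ∈ mv P' (q - 1) E, tdf m φ| * (500 * Real.log Q) ^ k := by
        refine mul_le_mul (mul_le_mul_of_nonneg_right h9 (abs_nonneg _)) h7 (abs_nonneg _) ?_
        exact mul_nonneg ((abs_nonneg _).trans h9) (abs_nonneg _)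
    _ = (C1 / q * (500 * Real.log Q) ^ k) * |∑ m ∈ mv P' (q - 1) E, tdf m φ| := by ring


end Pool.Agent.Lib.H24P
end
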