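import Pool.Agent.Lib.H59M.M2.M003
import Pool.Agent.Lib.H59M.M2.M031
import Pool.Agent.Lib.H59M.M2.M080
import Pool.Agent.Lib.H59M.M2.M087
import Pool.Agent.Lib.H59M.M2.M088
import Pool.Agent.Lib.H59M.M2.M094
import Pool.Agent.Lib.H59M.M2.M096
import Pool.Agent.Lib.H59M.M2.M098

/-! Merged copies (to shorten the build) of Lib.H59P.V1A, Lib.H59P.V1B, Lib.H24P.V1A, Lib.H24P.V2, Lib.H9P.V0, Lib.HUP.R13, Lib.HUP.Z0, Lib.HUP.R8, Lib.HUP.R11, Lib.HUP.R18. -/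

-- from Lib.H59P.V1A
section

/-!
# Project H59P, chunk V1a
-/

open Finset

namespace Pool.Agent.Lib.H59P

open Pool.Agent.Lib.H68T Pool.Agent.Lib.H18Q

/-- Slow variation over a distance less than `2 H`. Proof. Induction on the distance (`Cf.slow`),
both points in `[X, 4X]`. -/
theorem V1a (Q X : ℕ) (B : ℤ → Ch → ℂ) (mb : Ch → ℝ) (hB : Cf Q X B mb) (m m' : ℤ)
    (hm : (X : ℤ) ≤ m) (hmm : m ≤ m') (hm' : m' ≤ 4 * X) (p : Ch) (hp : p ∈ PC Q) :
    ‖B m' p - B m p‖ ≤ (m' - m) * (2 * (Q : ℝ) ^ 3 / X) := by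
  have hQ0 : (0 : ℝ) ≤ 2 * (Q : ℝ) ^ 3 / X := by positivity
  obtain ⟨d, rfl⟩ : ∃ d : ℕ, m' = m + d := ⟨(m' - m).toNat, by
    rw [Int.toNat_of_nonneg (by omega)]
    ring⟩
  clear hmm
  induction d with
  | zero => simp
  | succ d ih =>
    have h1 := ih (by push_cast at hm'; omega)
    have h2 := hB.slow (m + d) (by omega) (by push_cast at hm'; omega) p hp
    have h3 : m + ((d + 1 : ℕ) : ℤ) = m + d + 1 := by push_cast; ring
    rw [h3]
    have h4 : B (m + d + 1) p - B m p = (B (m + d + 1) p - B (m + d) p) + (B (m + d) p - B m p) := by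
      ring
    rw [h4]
    refine (norm_add_le _ _).trans ?_
    push_cast at h1 ⊢
    have h5 : ((m : ℝ) + d - m) = d := by ring
    have h6 : ((m : ℝ) + d + 1 - m) = d + 1 := by ring
    rw [h5] at h1
    rw [h6]
    linarith

end Pool.Agent.Lib.H59P
end

-- from Lib.H59P.V1B
section

/-!
# Project H59P, chunk V1b
-/

open Finset

namespace Pool.Agent.Lib.H59P

open Pool.Agent.Lib.H68T Pool.Agent.Lib.H18Q

/-- difference of two products -/
theorem v1b_prod {ι : Type*} (s : Finset ι) (x y : ι → ℂ) (M : ι → ℝ) (δ : ℝ) (hδ : 0 ≤ δ)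
    (hM : ∀ i, 0 ≤ M i) (hx : ∀ i ∈ s, ‖x i‖ ≤ M i) (hy : ∀ i ∈ s, ‖y i‖ ≤ M i)
    (hd : ∀ i ∈ s, ‖x i - y i‖ ≤ δ * M i) :
    ‖∏ i ∈ s, x i - ∏ i ∈ s, y i‖ ≤ s.card * δ * ∏ i ∈ s, M i := by
  classical
  induction s using Finset.induction_on with
  | empty => simp
  | insert a s ha ih =>
    have ih' := ih (fun i hi => hx i (Finset.mem_insert_of_mem hi))
      (fun i hi => hy i (Finset.mem_insert_of_mem hi)) (fun i hi => hd i (Finset.mem_insert_of_mem hi))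
    rw [Finset.prod_insert ha, Finset.prod_insert ha, Finset.prod_insert ha,
      Finset.card_insert_of_notMem ha]
    have e1 : x a * ∏ i ∈ s, x i - y a * ∏ i ∈ s, y i =
        (x a - y a) * ∏ i ∈ s, x i + y a * (∏ i ∈ s, x i - ∏ i ∈ s, y i) := by ring
    rw [e1]
    have hP : ‖∏ i ∈ s, x i‖ ≤ ∏ i ∈ s, M i := by
      rw [norm_prod]
      exact Finset.prod_le_prod (fun i _ => norm_nonneg _)
        (fun i hi => hx i (Finset.mem_insert_of_mem hi))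
    have hP0 : 0 ≤ ∏ i ∈ s, M i := Finset.prod_nonneg fun i _ => hM i
    have h1 := hd a (Finset.mem_insert_self a s)
    have h2 := hy a (Finset.mem_insert_self a s)
    calc ‖(x a - y a) * ∏ i ∈ s, x i + y a * (∏ i ∈ s, x i - ∏ i ∈ s, y i)‖
        ≤ ‖x a - y a‖ * ‖∏ i ∈ s, x i‖ + ‖y a‖ * ‖∏ i ∈ s, x i - ∏ i ∈ s, y i‖ := by
          refine (norm_add_le _ _).trans ?_
          rw [norm_mul, norm_mul]
      _ ≤ (δ * M a) * ∏ i ∈ s, M i + M a * (s.card * δ * ∏ i ∈ s, M i) := by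
          have hMa := hM a
          apply add_le_add
          · exact mul_le_mul h1 hP (norm_nonneg _) (by positivity)
          · exact mul_le_mul h2 ih' (norm_nonneg _) hMa
      _ = ((s.card + 1 : ℕ) : ℝ) * δ * (M a * ∏ i ∈ s, M i) := by
          push_cast
          ring

/-- `SG` is additive in the coefficients -/
theorem v1b_sub (Q : ℕ) (b c : Ch → ℂ) (m : ℤ) :
    SG Q b m - SG Q c m = SG Q (fun p => b p - c p) m := by
  unfold SG
  rw [← Finset.sum_sub_distrib]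
  refine Finset.sum_congr rfl fun p _ => ?_
  ring


end Pool.Agent.Lib.H59P
end

-- from Lib.H24P.V1A
section

/-!
# Project H24P, chunk V1A (M): freezing the coefficients of the random coordinates
-/

open Finset Polynomial

namespace Pool.Agent.Lib.H24P

open Pool.Agent.Lib.H68T Pool.Agent.Lib.H18Q Pool.Agent.Lib.H59P

theorem v1a_bs (H q m A : ℕ) (hH : 0 < H) (hA : A = H * q) (hm : m ∈ Ico A (2 * A)) :
    bs H m ∈ Ico A (2 * A) ∧ bs H m ≤ m ∧ m < bs H m + H := by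
  rw [Finset.mem_Ico] at hm ⊢
  have h1 : A ≤ bs H m := by
    unfold bs
    have h1 : q ≤ m / H := by
      rw [Nat.le_div_iff_mul_le hH]
      calc q * H = A := by rw [hA]; ring
        _ ≤ m := hm.1
    calc A = q * H := by rw [hA]; ring
      _ ≤ m / H * H := Nat.mul_le_mul_right _ h1
  have h2 : bs H m ≤ m := Nat.div_mul_le_self m H
  have h3 : m < bs H m + H := by
    unfold bs
    have h1 := Nat.div_add_mod' m H
    have h2 := Nat.mod_lt m hH
    omega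
  exact ⟨⟨h1, by omega⟩, h2, h3⟩

/-- slow variation, in both directions -/
theorem v1a_slow (Q Y : ℕ) (B : ℤ → Ch → ℂ) (mb : Ch → ℝ) (hB : Cf Q Y B mb) (m m' : ℤ)
    (hm : (Y : ℤ) ≤ m) (hm2 : m ≤ 4 * Y) (hm' : (Y : ℤ) ≤ m') (hm2' : m' ≤ 4 * Y) (p : Ch)
    (hp : p ∈ PC Q) : ‖B m' p - B m p‖ ≤ |(m' : ℝ) - m| * (2 * (Q : ℝ) ^ 3 / Y) := by
  rcases le_total m m' with h | h
  · have h1 := V1a Q Y B mb hB m m' hm h hm2' p hp
    rw [abs_of_nonneg (sub_nonneg.2 (by exact_mod_cast h))]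
    exact h1
  · have h1 := V1a Q Y B mb hB m' m hm' h hm2 p hp
    rw [norm_sub_rev, abs_sub_comm, abs_of_nonneg (sub_nonneg.2 (by exact_mod_cast h))]
    exact h1


end Pool.Agent.Lib.H24P
end

-- from Lib.H24P.V2
section

/-!
# Project H24P, chunk V2 (S/M): freezing the coefficients of the linear coordinate
-/

open Finset Polynomial

namespace Pool.Agent.Lib.H24P

open Pool.Agent.Lib.H68T Pool.Agent.Lib.H18Q Pool.Agent.Lib.H59P

/-- The frozen linear coordinate: cells of length `X1/Q^800`. -/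
noncomputable def gB (Q X1 : ℕ) (B : ℤ[X]) (C0 : ℤ → Ch → ℂ) (n : ℕ) : ℂ :=
  SG (Q ^ 100) (C0 (B.eval ((bs (X1 / Q ^ 800) n : ℕ) : ℤ))) (B.eval (n : ℤ))

theorem v2_slow (Q X : ℕ) (B : ℤ → Ch → ℂ) (mb : Ch → ℝ) (hB : Cf Q X B mb) (m m' : ℤ)
    (hm : (X : ℤ) ≤ m) (hm4 : m ≤ 4 * X) (hm' : (X : ℤ) ≤ m') (hm4' : m' ≤ 4 * X) (p : Ch)
    (hp : p ∈ PC Q) : ‖B m p - B m' p‖ ≤ |((m - m' : ℤ) : ℝ)| * (2 * (Q : ℝ) ^ 3 / X) := by
  rcases le_total m m' with h | h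
  · have h1 := V1a Q X B mb hB m m' hm h hm4' p hp
    have h2 : |((m - m' : ℤ) : ℝ)| = (m' : ℝ) - m := by
      rw [abs_of_nonpos]
      · push_cast
        ring
      · have : m - m' ≤ 0 := by linarith
        exact_mod_cast this
    rw [h2, ← norm_neg, neg_sub]
    exact h1
  · have h1 := V1a Q X B mb hB m' m hm' h hm4 p hp
    have h2 : |((m - m' : ℤ) : ℝ)| = (m : ℝ) - m' := by
      rw [abs_of_nonneg]
      · push_cast
        ring
      · have : 0 ≤ m - m' := by linarith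
        exact_mod_cast this
    rw [h2]
    exact h1

theorem v2_SG (Q : ℕ) (hQ : 1 ≤ Q) (b b' : Ch → ℂ) (D : ℝ) (hD : ∀ p ∈ PC Q, ‖b p - b' p‖ ≤ D)
    (hD0 : 0 ≤ D) (m : ℤ) :
    ‖SG Q b m - SG Q b' m‖ ≤ 100 * (1 + Real.log Q) ^ 3 * Q * ((Q : ℝ) ^ 2 * D) := by
  have h1 : SG Q b m - SG Q b' m = SG Q (fun p => b p - b' p) m := by
    unfold SG
    rw [← sum_sub_distrib]
    refine sum_congr rfl fun p _ => ?_
    ring
  rw [h1]
  have h2 := S1b Q hQ (fun p => b p - b' p) (fun _ => D) hD m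
  refine h2.trans ?_
  have h3 : dQ Q m ≤ Q := by
    unfold dQ
    have h4 : ((Icc 1 Q).filter (fun d : ℕ => (d : ℤ) ∣ m)).card ≤ Q := by
      refine (card_filter_le _ _).trans ?_
      simp
    exact_mod_cast h4
  have h4 : ∑ p ∈ PC Q, D ≤ (Q : ℝ) ^ 2 * D := by
    rw [sum_const, nsmul_eq_mul]
    refine mul_le_mul_of_nonneg_right ?_ hD0
    exact_mod_cast card_PC_le Q
  have hl : 0 ≤ Real.log Q := Real.log_natCast_nonneg Q
  have h5 : 0 ≤ dQ Q m := by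
    unfold dQ
    positivity
  have h6 : 0 ≤ ∑ p ∈ PC Q, D := sum_nonneg fun _ _ => hD0
  gcongr

/-- Proof. `Lk = SG (C0 (B n)) (B n)` (`Cf.eq`); by `S1b` of `H59P` for the difference of the coefficients the left side is
at most `100 (1+log Q^100)³ dQ (Q^100) (B n) ∑_p ‖…‖`; `dQ ≤ Q^100`, at most `Q^200` characters (`card_PC_le`), each
difference at most `|B(n) - B(bs n)| 2 Q^300/Y` (`V1a` of `H59P` in the right order; both arguments are in `[Y, 3Y)` as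
`bs n ∈ [X1, 2 X1)`: `Q^800 ∣ X1`), `|B(n) - B(bs n)| ≤ A X1/Q^800` and `X1 ≤ 2 Y`. Total
`400 A (1+log Q^100)³ Q^600/Q^800 ≤ Q^(-10)`. -/
theorem V2_pt (A : ℕ) : ∃ Q0 : ℕ, ∀ (Q X X1 Y : ℕ) (B : ℤ[X]) (C0 : ℤ → Ch → ℂ) (mb : Ch → ℝ),
    Q0 ≤ Q → Q ^ 800 ∣ X1 → GeoB A X X1 Y B → Cf (Q ^ 100) Y C0 mb → ∀ n ∈ Ico X1 (2 * X1),
    ‖((Lk (Q ^ 100) (Y / (Q ^ 100) ^ 2) (B.eval (n : ℤ)) : ℝ) : ℂ) - gB Q X1 B C0 n‖ ≤
      (Q : ℝ) ^ (-(10) : ℝ) := by
  refine ⟨400000000 * A + 1, ?_⟩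
  intro Q X X1 Y B C0 mb hQ hdvd hG hC n hn
  obtain ⟨hn1, hn2⟩ := mem_Ico.mp hn
  have hX1 : 0 < X1 := by omega
  have hQ1 : 1 ≤ Q := by omega
  obtain ⟨s0, hs0⟩ := hdvd
  have hQp : 0 < Q ^ 800 := pow_pos hQ1 _
  have hs : X1 / Q ^ 800 = s0 := by rw [hs0, Nat.mul_div_cancel_left _ hQp]
  have hs0p : 0 < s0 := by
    rcases Nat.eq_zero_or_pos s0 with h | h
    · rw [h, mul_zero] at hs0
      omega
    · exact h
  set b : ℕ := bs (X1 / Q ^ 800) n with hb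
  have hbn : b ≤ n := by
    rw [hb, hs]
    exact Nat.div_mul_le_self n s0
  have hnb : n - b < s0 := by
    rw [hb, hs]
    unfold bs
    have := Nat.mod_lt n hs0p
    have h2 := Nat.div_add_mod' n s0
    omega
  have hX1b : X1 ≤ b := by
    rw [hb, hs]
    unfold bs
    have h1 : Q ^ 800 ≤ n / s0 := by
      rw [Nat.le_div_iff_mul_le hs0p, ← hs0]
      exact hn1
    calc X1 = Q ^ 800 * s0 := hs0
      _ ≤ n / s0 * s0 := Nat.mul_le_mul_right _ h1
  have hbI : b ∈ Ico X1 (2 * X1) := mem_Ico.mpr ⟨hX1b, by omega⟩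
  have hYn := hG.lo n hn
  have hYn' := hG.hi n hn
  have hYb := hG.lo b hbI
  have hYb' := hG.hi b hbI
  have hY0 : 0 < Y := by
    have := hG.Ylo
    omega
  have hlin : B.eval (n : ℤ) - B.eval (b : ℤ) = B.coeff 1 * ((n : ℤ) - b) := by
    rw [eval_eq_sum_range, eval_eq_sum_range, hG.lin.deg, sum_range_succ, sum_range_one,
      sum_range_succ, sum_range_one]
    ring
  have hA : |B.coeff 1| ≤ A := by
    have h1 := hG.lin.lc
    unfold leadingCoeff at h1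
    rw [hG.lin.deg] at h1
    have h2 : ((B.coeff 1).natAbs : ℤ) ≤ A := by exact_mod_cast h1
    rwa [Int.natCast_natAbs] at h2
  have hdiff : |((B.eval (n : ℤ) - B.eval (b : ℤ) : ℤ) : ℝ)| ≤ A * s0 := by
    have h1 : |B.eval (n : ℤ) - B.eval (b : ℤ)| ≤ (A : ℤ) * s0 := by
      rw [hlin, abs_mul]
      refine mul_le_mul hA ?_ (abs_nonneg _) (by positivity)
      rw [abs_of_nonneg (by omega)]
      omega
    have h2 : ((|B.eval (n : ℤ) - B.eval (b : ℤ)| : ℤ) : ℝ) ≤ ((A : ℤ) * s0 : ℤ) := by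
      exact_mod_cast h1
    push_cast at h2 ⊢
    exact h2
  have hQ100 : 1 ≤ Q ^ 100 := Nat.one_le_pow _ _ hQ1
  have hYr : (0 : ℝ) < Y := by exact_mod_cast hY0
  have hQr : (1 : ℝ) ≤ Q := by exact_mod_cast hQ1
  have e1 : ((Lk (Q ^ 100) (Y / (Q ^ 100) ^ 2) (B.eval (n : ℤ)) : ℝ) : ℂ)
      = SG (Q ^ 100) (C0 (B.eval (n : ℤ))) (B.eval (n : ℤ)) := hC.eq _ hYn (by linarith)
  rw [e1]
  unfold gB
  have hD0 : (0 : ℝ) ≤ A * s0 * (2 * ((Q ^ 100 : ℕ) : ℝ) ^ 3 / Y) := by positivity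
  have h3 := v2_SG (Q ^ 100) hQ100 (C0 (B.eval (n : ℤ))) (C0 (B.eval (b : ℤ)))
    (A * s0 * (2 * ((Q ^ 100 : ℕ) : ℝ) ^ 3 / Y)) (fun p hp => by
      refine (v2_slow (Q ^ 100) Y C0 mb hC (B.eval (n : ℤ)) (B.eval (b : ℤ)) hYn (by linarith)
        hYb (by linarith) p hp).trans ?_
      exact mul_le_mul_of_nonneg_right hdiff (by positivity)) hD0 (B.eval (n : ℤ))
  refine h3.trans ?_
  have hlog : Real.log ((Q ^ 100 : ℕ) : ℝ) = 100 * Real.log Q := by
    rw [Nat.cast_pow, Real.log_pow]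
    norm_num
  rw [hlog]
  have hl0 : 0 ≤ Real.log Q := Real.log_natCast_nonneg Q
  have hl1 : 1 + 100 * Real.log Q ≤ 100 * Q := by
    have := Real.log_le_sub_one_of_pos (by linarith : (0 : ℝ) < Q)
    linarith
  have hl3 : (1 + 100 * Real.log Q) ^ 3 ≤ (100 * Q) ^ 3 :=
    pow_le_pow_left₀ (by linarith) hl1 3
  have hsY : (s0 : ℝ) * (Q : ℝ) ^ 800 ≤ 2 * Y := by
    have h1 : X1 ≤ 2 * Y := hG.Ylo
    have h2 : ((s0 * Q ^ 800 : ℕ) : ℝ) ≤ ((2 * Y : ℕ) : ℝ) := by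
      have : s0 * Q ^ 800 ≤ 2 * Y := by
        rw [mul_comm, ← hs0]
        exact h1
      exact_mod_cast this
    push_cast at h2
    exact h2
  have hAQ : 400000000 * (A : ℝ) ≤ Q := by
    have : 400000000 * A ≤ Q := by omega
    exact_mod_cast this
  have hrp : (Q : ℝ) ^ (-(10) : ℝ) = ((Q : ℝ) ^ 10)⁻¹ := by
    rw [Real.rpow_neg (by linarith), Real.rpow_ofNat]
  rw [hrp, ← one_div, le_div_iff₀ (by positivity)]
  have h7 : 100 * (1 + 100 * Real.log Q) ^ 3 * ((Q ^ 100 : ℕ) : ℝ) *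
      (((Q ^ 100 : ℕ) : ℝ) ^ 2 * (A * s0 * (2 * ((Q ^ 100 : ℕ) : ℝ) ^ 3 / Y))) * (Q : ℝ) ^ 10
      = 200 * (1 + 100 * Real.log Q) ^ 3 * A * ((Q : ℝ) ^ 610 * s0 / Y) := by
    push_cast
    ring
  rw [h7]
  have h8 : (Q : ℝ) ^ 610 * s0 / Y ≤ 2 / (Q : ℝ) ^ 190 := by
    rw [div_le_div_iff₀ hYr (by positivity)]
    have h11 : (Q : ℝ) ^ 610 * s0 * (Q : ℝ) ^ 190 = s0 * (Q : ℝ) ^ 800 := by ring
    rw [h11]
    exact hsY
  have h9 : 200 * (1 + 100 * Real.log Q) ^ 3 * A * ((Q : ℝ) ^ 610 * s0 / Y)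
      ≤ 200 * (100 * Q) ^ 3 * A * (2 / (Q : ℝ) ^ 190) := by
    gcongr
  refine h9.trans ?_
  have h10 : 200 * (100 * (Q : ℝ)) ^ 3 * A * (2 / (Q : ℝ) ^ 190)
      = 400000000 * (A : ℝ) * (Q : ℝ) ^ 3 / (Q : ℝ) ^ 190 := by ring
  rw [h10, div_le_one (by positivity)]
  calc 400000000 * (A : ℝ) * (Q : ℝ) ^ 3 ≤ Q * (Q : ℝ) ^ 3 :=
        mul_le_mul_of_nonneg_right hAQ (by positivity)
    _ = (Q : ℝ) ^ 4 := by ring
    _ ≤ (Q : ℝ) ^ 190 := pow_le_pow_right₀ hQr (by norm_num)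


end Pool.Agent.Lib.H24P
end

-- from Lib.H9P.V0
section

/-!
# ASYP, second part: EVERY large `N`, exceptional proportion `(log N)^(-c)`. Definitions
-/

open Finset Polynomial

namespace Pool.Agent.H9P

open Pool.Agent.Lib.H68T Pool.Agent.Lib.H18Q Pool.Agent.Lib.H59P Pool.Agent.Lib.H24P
open Pool.Agent.HUP

noncomputable section

/-- Everything that is used of the level `Q` at the scale `Z`: coefficients of the projections for all lengths, and in
every small box (`Cl`) the model is `X1` times the singular series truncated at `Q`, up to `X1 (ε SSf + Q^(-c1))`, for all but a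
proportion `ϑ` of the parameters without fixed divisor. -/
structure Lvl (k A E : ℕ) (Cc cc : ℝ) (Q Z : ℕ) (ε c1 ϑ : ℝ) : Prop where
  cf : ∀ Y : ℕ, Z ≤ Y ^ 2 → Y ≤ Z ^ (A + 2) → ∃ (B : ℤ → Ch → ℂ) (mb : Ch → ℝ), Cf Q Y B mb
  cell : ∀ P : Fin k → ℤ[X], Pol A P → ∀ (X1 Y : ℕ) (M : Fin k → ℕ) (B : ℤ[X]), GeoV Q Z X1 P M →
    GeoB A Z X1 Y B → Z ≤ Y ^ 2 → Y ≤ Z ^ (A + 2) → (∀ i, Z ≤ Ysc (M i) ^ 2 ∧ Ysc (M i) ≤ Z ^ (A + 2)) →
    ∀ (ι : Type) (S : Finset ι) (g : ι → Fin k → ℕ) (h0 : Fin k → ℕ), Cl E Cc cc Q P M S g h0 →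
    open Classical in
    ((S.filter (fun x => NoFix (sys B P (g x)) ∧ X1 * (ε * SSf (pr Q) (sys B P (g x)) + (Q : ℝ) ^ (-c1)) <
      |Rw Q X1 P M (fun n => lp (B.eval (n : ℤ))) (g x) - X1 * SSf (pr Q) (sys B P (g x))|)).card : ℝ) ≤
      S.card * ϑ

/-- The exceptional case of `L_levels` (`H24P/L.lean`): a real character `ψ` modulo `r` with the real zero `β`. -/
def LvX (A Q Z : ℕ) (E0 : ℝ) : Prop := ∃ (r : ℕ) (_ : NeZero r) (ψ : DirichletCharacter ℂ r) (β η : ℝ), r ^ 100 ≤ Q ∧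
  ψ.IsPrimitive ∧ ψ ≠ 1 ∧ ψ ^ 2 = 1 ∧ β < 1 ∧ ψ.LFunction (β : ℂ) = 0 ∧ 1 - β ≤ 2 * η ∧
  ∀ Y : ℕ, Z ≤ Y ^ 2 → Y ≤ Z ^ (A + 2) →
    Mdl Q Y η E0 ⟨r, ψ⟩ (fun m => (m : ℝ) ^ (β - 1)) ∧ Mdl (Q ^ 100) Y η E0 ⟨r, ψ⟩ (fun m => (m : ℝ) ^ (β - 1))


end

end Pool.Agent.H9P
end

-- from Lib.HUP.R13
section

/-!
# Project HUP, module R (the modules of H24P for an abstract family), R13: freezing the coefficients, pointwise
-/

open Finset Polynomial

namespace Pool.Agent.HUP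

open Pool.Agent.Lib.H68T Pool.Agent.Lib.H18Q Pool.Agent.Lib.H59P Pool.Agent.Lib.H24P

/-- The divisor function is small. Proof. `dQ Q m ≤` the number of divisors of `|m|` (`m ≠ 0`), `divisor_bound` of
`H21AP/DivisorBound.lean` with the exponent `ε/(2 C (A + 2))` (for `C ≥ 1`; else replace `C` by `max C 1`): `|m| ≤ X^(A+2)`,
`X ≤ Q^C`. -/
theorem R13_dQ (A : ℕ) (C ε : ℝ) (hε : 0 < ε) : ∃ Q0 : ℕ, ∀ (Q X : ℕ) (m : ℤ), Q0 ≤ Q → 1 ≤ X →
    Real.log X ≤ C * Real.log Q → m ≠ 0 → |m| ≤ (X : ℤ) ^ (A + 2) → dQ Q m ≤ (Q : ℝ) ^ ε := by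
  obtain ⟨C', hC'⟩ : ∃ C' : ℝ, C' = max C 1 := ⟨_, rfl⟩
  have hC1 : 1 ≤ C' := by rw [hC']; exact le_max_right _ _
  have hCC : C ≤ C' := by rw [hC']; exact le_max_left _ _
  have hA : (0 : ℝ) < (A : ℝ) + 2 := by positivity
  obtain ⟨K, hK, hdiv⟩ := Pool.Agent.Lib.H21AP.divisor_bound (ε := ε / (2 * C' * (A + 2))) (by positivity)
  obtain ⟨Q0, hQ01, hQ0⟩ := G1_rlog K 0 (ε / 2) (by positivity)
  refine ⟨Q0, fun Q X m hQ hX hlog hm hmX => ?_⟩
  have hQ1 : 1 ≤ Q := hQ01.trans hQ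
  have hQr : (0 : ℝ) < Q := by exact_mod_cast hQ1
  have hlogQ : 0 ≤ Real.log Q := Real.log_natCast_nonneg Q
  have hXr : (0 : ℝ) < X := by exact_mod_cast hX
  have hK2 := hQ0 Q hQ
  rw [Real.rpow_zero, mul_one] at hK2
  have hnat : 1 ≤ m.natAbs := Int.natAbs_pos.2 hm
  have hcard : ((Icc 1 Q).filter (fun d : ℕ => (d : ℤ) ∣ m)).card ≤ m.natAbs.divisors.card := by
    apply Finset.card_le_card
    intro d hd
    rw [Finset.mem_filter] at hd
    rw [Nat.mem_divisors]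
    exact ⟨Int.natCast_dvd.1 hd.2, by omega⟩
  have h1 : dQ Q m ≤ K * (m.natAbs : ℝ) ^ (ε / (2 * C' * (A + 2))) := by
    unfold dQ
    exact (Nat.cast_le.2 hcard).trans (hdiv _ hnat)
  have h2 : (m.natAbs : ℝ) ≤ (X : ℝ) ^ (A + 2) := by
    have h3 : ((m.natAbs : ℤ) : ℤ) ≤ (X : ℤ) ^ (A + 2) := by
      rw [Int.natCast_natAbs]
      exact hmX
    exact_mod_cast h3
  have h4 : (m.natAbs : ℝ) ^ (ε / (2 * C' * (A + 2))) ≤ (Q : ℝ) ^ (ε / 2) := by
    calc (m.natAbs : ℝ) ^ (ε / (2 * C' * (A + 2))) ≤ ((X : ℝ) ^ (A + 2)) ^ (ε / (2 * C' * (A + 2))) :=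
          Real.rpow_le_rpow (Nat.cast_nonneg _) h2 (by positivity)
      _ = Real.exp (Real.log X * (ε / (2 * C'))) := by
          rw [← Real.rpow_natCast, ← Real.rpow_mul hXr.le, Real.rpow_def_of_pos hXr]
          congr 1
          push_cast
          field_simp
      _ ≤ Real.exp (Real.log Q * (ε / 2)) := by
          apply Real.exp_le_exp.2
          have h5 : Real.log X ≤ C' * Real.log Q := hlog.trans (mul_le_mul_of_nonneg_right hCC hlogQ)
          calc Real.log X * (ε / (2 * C')) ≤ C' * Real.log Q * (ε / (2 * C')) :=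
                mul_le_mul_of_nonneg_right h5 (by positivity)
            _ = Real.log Q * (ε / 2) := by field_simp
      _ = (Q : ℝ) ^ (ε / 2) := by rw [Real.rpow_def_of_pos hQr]
  calc dQ Q m ≤ K * (m.natAbs : ℝ) ^ (ε / (2 * C' * (A + 2))) := h1
    _ ≤ (Q : ℝ) ^ (ε / 2) * (Q : ℝ) ^ (ε / 2) := mul_le_mul hK2 h4 (by positivity) (by positivity)
    _ = (Q : ℝ) ^ ε := by
        rw [← Real.rpow_add hQr]
        congr 1
        ring





end Pool.Agent.HUP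
end

-- from Lib.HUP.Z0
section

/-!
# Projects HUP and HPC, module Z (the final theorems), Z0: definitions
-/

open Finset Polynomial Filter Topology

namespace Pool.Agent.HUP

open Pool.Agent.Lib.H24P
open Pool.Agent.Lib.H59 (argSet argCount Admissible primeCount argSet_eq argCount_tendsto)

noncomputable section


/-- The system `P_i + b_i + ψ_i(t)`. -/
def famT {g d : ℕ} (P : Fin g → ℤ[X]) (c : Fin g → Fin d → ℤ) (b : Fin g → ℤ) (t : Fin d → ℤ) : Fin g → ℤ[X] :=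
  fun i => P i + C (b i + lf c t i)

/-- The box `|t_j| ≤ A X^(e_j)`. -/
def BoxT {d : ℕ} (A X : ℕ) (e : Fin d → ℕ) : Finset (Fin d → ℤ) :=
  Fintype.piFinset fun j => Icc (-((A * X ^ e j : ℕ) : ℤ)) ((A * X ^ e j : ℕ) : ℤ)

end


/-- The forms are additive. -/
theorem z0_add {k d : ℕ} (c : Fin k → Fin d → ℤ) (t s : Fin d → ℤ) (i : Fin k) :
    lf c (fun j => t j + s j) i = lf c t i + lf c s i := by
  unfold lf
  rw [← Finset.sum_add_distrib]
  exact Finset.sum_congr rfl fun j _ => mul_add _ _ _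

/-- The size of the shift. -/
theorem z0_abs {k d : ℕ} (c : Fin k → Fin d → ℤ) (e : Fin d → ℕ) (i : Fin k) (D A Z : ℕ)
    (h : ∀ j, c i j ≠ 0 → e j = D) :
    |lf c (fun j => ((A * Z ^ e j : ℕ) : ℤ)) i| ≤ (A : ℤ) * (∑ j, |c i j|) * (Z : ℤ) ^ D := by
  unfold lf
  refine (Finset.abs_sum_le_sum_abs _ _).trans ?_
  rw [mul_assoc, Finset.sum_mul, Finset.mul_sum]
  refine Finset.sum_le_sum fun j _ => ?_
  rw [abs_mul, Nat.abs_cast]
  by_cases hj : c i j = 0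
  · rw [hj]
    simp
  · rw [h j hj]
    push_cast
    exact le_of_eq (by ring)


theorem famT_eval {g d : ℕ} (P : Fin g → ℤ[X]) (c : Fin g → Fin d → ℤ) (b : Fin g → ℤ) (t : Fin d → ℤ)
    (h : ∀ i, 0 ≤ b i + lf c t i) : famT P c b t = famP P (hh c b t) := by
  funext i
  unfold famT famP hh
  rw [Int.toNat_of_nonneg (h i)]

end Pool.Agent.HUP
end

-- from Lib.HUP.R8
section

/-!
# Project HUP, module R (the modules of H24P for an abstract family), R8: the complete main term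
-/

open Finset Polynomial

namespace Pool.Agent.HUP

open Pool.Agent.Lib.H68T Pool.Agent.Lib.H18Q Pool.Agent.Lib.H59P Pool.Agent.Lib.H24P

/-- **R8** (port of `Z2B_main`, H24P/Z2B.lean). Proof. As there with `TMb` instead of `TMf`. -/
theorem R8_main (k A E : ℕ) (Cc cc : ℝ) (hT : TMb k A E Cc cc) : ∃ c : ℝ, 0 < c ∧ ∃ Q0 : ℕ, ∀ Q : ℕ, Q0 ≤ Q →
    ∀ B : ℤ[X], Lin A B → ∀ P : Fin k → ℤ[X], Pol A P → ∀ r : ℕ, 1 ≤ r → r ^ 100 ≤ Q →
    ∀ c' : Fin (k + 1) → Ch → ℂ, (∀ i, ∑ p ∈ PC Q, ‖c' i p‖ ≤ 3) →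
    ∀ (ι : Type) (S : Finset ι) (g : ι → Fin k → ℕ), FGood E Cc cc (Q ^ 2) P S g →
    ∑ x ∈ S, ‖MCf Q (B.leadingCoeff.natAbs * r) c' (sys B P (g x)) -
      MDf Q (B.leadingCoeff.natAbs * r) c' (sys B P (g x))‖ ^ 2 ≤ S.card * (Q : ℝ) ^ (-c) := by
  classical
  obtain ⟨c1, hc1, Q1, h1⟩ := hT
  obtain ⟨Q3, hQ31, h3⟩ := G1_rlog (36 ^ (k + 1)) ((2 * (k + 1) : ℕ) : ℝ) (c1 / 2) (by linarith)
  refine ⟨c1 / 2, by linarith, max 1 (max Q1 Q3), ?_⟩
  intro Q hQ B hB P hP r hr1 hr c' hc' ι S g hF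
  have hQ1 : 1 ≤ Q := (le_max_left _ _).trans hQ
  have hQQ1 : Q1 ≤ Q := (le_max_left _ _).trans ((le_max_right _ _).trans hQ)
  have hQQ3 : Q3 ≤ Q := (le_max_right _ _).trans ((le_max_right _ _).trans hQ)
  have hQ0r : (0 : ℝ) < Q := by exact_mod_cast hQ1
  have hlog0 : 0 ≤ Real.log Q := Real.log_natCast_nonneg Q
  have hV : (0 : ℝ) ≤ (S.card : ℝ) := Nat.cast_nonneg _
  have hlc : 1 ≤ B.leadingCoeff.natAbs := by
    have hB0 : B ≠ 0 := by
      intro h0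
      have := hB.deg
      rw [h0, natDegree_zero] at this
      omega
    have : B.leadingCoeff ≠ 0 := leadingCoeff_ne_zero.2 hB0
    omega
  set m0 : ℕ := B.leadingCoeff.natAbs * r with hm0
  have hm01 : 1 ≤ m0 := Nat.mul_pos hlc hr1
  have hdvd : B.leadingCoeff.natAbs ∣ m0 := Dvd.intro _ rfl
  set D1 : ℕ := fl Q (1 / 16) with hD1
  have hD1Q : D1 ≤ Q := G1_le hQ1 (by norm_num) (by norm_num)
  set L1 : ℝ := (2 * (1 + Real.log Q)) ^ (k + 1) with hL1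
  have hL10 : 0 ≤ L1 := by positivity
  set W : ℝ := L1 ^ 2 * ((S.card : ℝ) * (Q : ℝ) ^ (-c1)) with hW
  have hQc0 : 0 ≤ (Q : ℝ) ^ (-c1) := Real.rpow_nonneg hQ0r.le _
  have hW0 : 0 ≤ W := mul_nonneg (sq_nonneg _) (mul_nonneg hV hQc0)
  set f : (Fin (k + 1) → Ch) → ι → ℂ := fun p x =>
    MRf p (Rf m0 p) (sys B P (g x)) *
      (((∑ d ∈ SF (fl Q (1 / 2) / Rf m0 p) (Rf m0 p), tdf d (sys B P (g x)) -
        SSf ((pr Q).filter (fun l => ¬ l ∣ Rf m0 p)) (sys B P (g x)) : ℝ) : ℂ)) with hfdef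
  have hdec : ∀ x ∈ S, ‖MCf Q m0 c' (sys B P (g x)) - MDf Q m0 c' (sys B P (g x))‖ ^ 2 =
      ‖∑ p ∈ TSf (k + 1) Q D1 m0, (∏ i, c' i (p i)) * f p x‖ ^ 2 := by
    intro x _
    congr 2
    unfold MCf MDf
    rw [← Finset.sum_sub_distrib]
    refine Finset.sum_congr rfl fun p hp => ?_
    obtain ⟨hR0, hRD, hd, hmR⟩ := z2b_R Q D1 m0 hm01 p hp
    have hfac : Rf m0 p ∣ Q.factorial := Nat.dvd_factorial hR0 (hRD.trans hD1Q)
    have e1 := P3_M5 (sys B P (g x)) (P2_sys B P (g x)) Q (Rf m0 p) hR0 hfac p hd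
    rw [← e1, hfdef]
    beta_reduce
    rw [Complex.ofReal_sub]
    ring
  rw [Finset.sum_congr rfl hdec]
  have hmain := Z2a S (TSf (k + 1) Q D1 m0) (fun p => ∏ i, c' i (p i)) f (3 ^ (k + 1)) W hW0
    (z2b_gam Q D1 m0 c' hc') ?_
  · refine hmain.trans ?_
    have e1 : ((3 : ℝ) ^ (k + 1)) ^ 2 * L1 ^ 2 =
        36 ^ (k + 1) * (1 + Real.log Q) ^ ((2 * (k + 1) : ℕ) : ℝ) := by
      rw [hL1, Real.rpow_natCast, ← mul_pow, ← mul_pow, ← pow_mul, mul_comm (k + 1) 2, pow_mul,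
        pow_mul, ← mul_pow]
      congr 1
      ring
    have e2 : (Q : ℝ) ^ (-(c1 / 2)) = (Q : ℝ) ^ (c1 / 2) * (Q : ℝ) ^ (-c1) := by
      rw [← Real.rpow_add hQ0r]
      congr 1
      ring
    have e3 := h3 Q hQQ3
    have e4 : ((3 : ℝ) ^ (k + 1)) ^ 2 * W =
        (((3 : ℝ) ^ (k + 1)) ^ 2 * L1 ^ 2) * ((S.card : ℝ) * (Q : ℝ) ^ (-c1)) := by
      rw [hW]
      ring
    rw [e4, e1, e2]
    have e5 := mul_le_mul_of_nonneg_right e3 (mul_nonneg hV hQc0)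
    refine e5.trans (le_of_eq ?_)
    ring
  · intro p hp
    obtain ⟨hR0, hRD, hd, hmR⟩ := z2b_R Q D1 m0 hm01 p hp
    have hRQ : Rf m0 p ≤ Q := hRD.trans hD1Q
    have e1 := h1 Q hQQ1 B hB P hP ι S g hF (Rf m0 p) hR0 hRD (hdvd.trans hmR)
    rw [hW]
    refine le_trans ?_ (mul_le_mul_of_nonneg_left e1 (sq_nonneg L1))
    rw [Finset.mul_sum]
    refine Finset.sum_le_sum fun x _ => ?_
    rw [hfdef]
    beta_reduce
    rw [norm_mul, Complex.norm_real, mul_pow, Real.norm_eq_abs, sq_abs]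
    refine mul_le_mul_of_nonneg_right ?_ (sq_nonneg _)
    exact pow_le_pow_left₀ (norm_nonneg _) (z2b_MR Q p (Rf m0 p) hR0 hRQ _) 2

end Pool.Agent.HUP
end

-- from Lib.HUP.R11
section

/-!
# Project HUP, module R (the modules of H24P for an abstract family), R11: twisted means, only the linear coordinate is twisted
-/

open Finset Polynomial

namespace Pool.Agent.HUP

open Pool.Agent.Lib.H68T Pool.Agent.Lib.H18Q Pool.Agent.Lib.H59P Pool.Agent.Lib.H24P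

/-- **R11** (port of `X1B_main`, H24P/X1B.lean). Proof. As there with `H = r^(E+5)`, `FGood` instead of `Fgen`, `x1b_small`,
`x1b_exp` unchanged. -/
theorem R11_main (k A E : ℕ) (hA : 1 ≤ A) (Cc cc : ℝ) (hC : FPar Cc cc) : ∃ C c : ℝ, 1 ≤ C ∧ 0 < c ∧ c ≤ 1 ∧
    ∀ B : ℤ[X], Lin A B → ∀ P : Fin k → ℤ[X], Pol A P → ∀ (Q : ℕ) (px : Ch), px ∈ PC Q → 2 ≤ px.1 →
    ∀ (ι : Type) (S : Finset ι) (g : ι → Fin k → ℕ), FGood E Cc cc Q P S g →
    ∑ x ∈ S, ‖MRf (pB px ({0} : Finset (Fin (k + 1)))) px.1 (sys B P (g x))‖ ^ 2 ≤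
      C * (1 + Real.log px.1) ^ C * S.card * (px.1 : ℝ) ^ (-c) := by
  classical
  obtain ⟨hCc1, hcc0, hcc1⟩ := hC
  set x : ℝ := 1 / (2 * k + 2) with hx
  have hk0 : (0 : ℝ) ≤ k := Nat.cast_nonneg _
  have hx0 : 0 < x := by positivity
  have hx1 : x ≤ 1 / 2 := by
    rw [hx]
    exact one_div_le_one_div_of_le (by norm_num) (by linarith)
  have hA1 : (1 : ℝ) ≤ A := by exact_mod_cast hA
  have h4k : (1 : ℝ) ≤ 4 ^ (k + 1) := one_le_pow₀ (by norm_num)
  set c : ℝ := cc * x with hc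
  have hc0 : 0 < c := mul_pos hcc0 hx0
  have hc1 : c ≤ 1 := by
    calc cc * x ≤ 1 * 1 := mul_le_mul hcc1 (by linarith) hx0.le zero_le_one
      _ = 1 := one_mul 1
  set C : ℝ := 16 * Cc + 8 + 4 ^ (k + 1) * A ^ 2 + 2 * k with hCd
  have hbig : 0 ≤ (4 : ℝ) ^ (k + 1) * A ^ 2 := by positivity
  refine ⟨C, c, by linarith, hc0, hc1, ?_⟩
  intro B hB P hP Q px hpx hr2 ι S g hG
  obtain ⟨hr1, hrQ, hprim⟩ := mem_PC.1 hpx
  set r := px.1 with hr
  have hrR : (2 : ℝ) ≤ r := by exact_mod_cast hr2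
  have hr0 : (0 : ℝ) < r := by linarith
  have hrge1 : (1 : ℝ) ≤ r := by linarith
  have hlog : 0 ≤ Real.log r := Real.log_natCast_nonneg r
  have hL1 : 1 ≤ 1 + Real.log r := by linarith
  have hv : (0 : ℝ) ≤ S.card := Nat.cast_nonneg _
  have hrc : 0 < (r : ℝ) ^ (-c) := Real.rpow_pos_of_pos hr0 _
  have hLC0 : 0 ≤ (1 + Real.log r) ^ C := Real.rpow_nonneg (by linarith) _
  have hCpos : 0 < C := by linarith
  set D : ℕ := fl r x with hD
  obtain ⟨hD1, hD2, -⟩ := G1_one (Q := r) hr1 hx0.le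
  rw [← hD] at hD1 hD2
  by_cases hcase : r ≤ A * D
  · -- r is bounded
    have hrA : (r : ℝ) ≤ (A : ℝ) ^ 2 := by
      have h1 : (r : ℝ) ≤ A * D := by exact_mod_cast hcase
      have h2 : (D : ℝ) ≤ (r : ℝ) ^ (1 / 2 : ℝ) :=
        hD2.trans (Real.rpow_le_rpow_of_exponent_le hrge1 hx1)
      have h3 : (r : ℝ) ≤ A * (r : ℝ) ^ (1 / 2 : ℝ) :=
        h1.trans (mul_le_mul_of_nonneg_left h2 (by linarith))
      have h4 : (r : ℝ) ^ (1 / 2 : ℝ) * (r : ℝ) ^ (1 / 2 : ℝ) = r := by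
        rw [← Real.rpow_add hr0]
        norm_num
      have h5 : 0 < (r : ℝ) ^ (1 / 2 : ℝ) := Real.rpow_pos_of_pos hr0 _
      have h6 : (r : ℝ) ^ (1 / 2 : ℝ) ≤ A := by
        by_contra h7
        push Not at h7
        have := mul_lt_mul_of_pos_right h7 h5
        rw [h4] at this
        linarith
      calc (r : ℝ) = (r : ℝ) ^ (1 / 2 : ℝ) * (r : ℝ) ^ (1 / 2 : ℝ) := h4.symm
        _ ≤ A * A := mul_le_mul h6 h6 h5.le (by linarith)
        _ = (A : ℝ) ^ 2 := (sq _).symm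
    have hone : ∀ h ∈ S, ‖MRf (pB px ({0} : Finset (Fin (k + 1)))) r (sys B P (g h))‖ ^ 2 ≤
        4 ^ (k + 1) * (1 + Real.log r) ^ C := by
      intro h _
      have h1 := P0_MR (pB px ({0} : Finset (Fin (k + 1)))) r hr1 (sys B P (g h))
      have h2 : ((r : ℝ) / (Nat.totient r : ℝ)) ^ (k + 1) ≤ (2 * (1 + Real.log r)) ^ (k + 1) :=
        pow_le_pow_left₀ (by positivity) (M3b r hr1) _
      have h3 := pow_le_pow_left₀ (norm_nonneg _) (h1.trans h2) 2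
      refine h3.trans ?_
      have h4 : ((2 * (1 + Real.log r)) ^ (k + 1)) ^ 2 =
          4 ^ (k + 1) * (1 + Real.log r) ^ ((2 * k + 2 : ℕ) : ℝ) := by
        rw [Real.rpow_natCast]
        exact x1b_pow k _
      rw [h4]
      refine mul_le_mul_of_nonneg_left ?_ (by positivity)
      refine Real.rpow_le_rpow_of_exponent_le hL1 ?_
      push_cast
      linarith
    refine (Finset.sum_le_sum hone).trans ?_
    rw [Finset.sum_const, nsmul_eq_mul]
    have h5 : 1 ≤ (A : ℝ) ^ 2 * (r : ℝ) ^ (-c) := by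
      have h6 : (r : ℝ) ^ (-(1 : ℝ)) ≤ (r : ℝ) ^ (-c) :=
        Real.rpow_le_rpow_of_exponent_le hrge1 (by linarith)
      rw [Real.rpow_neg_one] at h6
      calc (1 : ℝ) = r * (r : ℝ)⁻¹ := (mul_inv_cancel₀ hr0.ne').symm
        _ ≤ (A : ℝ) ^ 2 * (r : ℝ) ^ (-c) := mul_le_mul hrA h6 (by positivity) (by positivity)
    calc S.card * (4 ^ (k + 1) * (1 + Real.log r) ^ C)
        = 4 ^ (k + 1) * (1 + Real.log r) ^ C * S.card * 1 := by ring
      _ ≤ 4 ^ (k + 1) * (1 + Real.log r) ^ C * S.card * ((A : ℝ) ^ 2 * (r : ℝ) ^ (-c)) :=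
          mul_le_mul_of_nonneg_left h5 (by positivity)
      _ = (4 ^ (k + 1) * A ^ 2) * ((1 + Real.log r) ^ C * S.card * (r : ℝ) ^ (-c)) := by ring
      _ ≤ C * ((1 + Real.log r) ^ C * S.card * (r : ℝ) ^ (-c)) := by
          refine mul_le_mul_of_nonneg_right ?_ (by positivity)
          rw [hCd]
          linarith
      _ = C * (1 + Real.log r) ^ C * S.card * (r : ℝ) ^ (-c) := by ring
  · -- the main case
    push Not at hcase
    have hnd : ∀ N : ℕ, 0 < N → N ≤ D → ¬ (r : ℤ) ∣ B.leadingCoeff * N := by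
      intro N hN hND hdv
      have h1 : r ∣ (B.leadingCoeff * (N : ℤ)).natAbs := Int.natCast_dvd.1 hdv
      rw [Int.natAbs_mul, Int.natAbs_natCast] at h1
      have hlc : 0 < B.leadingCoeff.natAbs := by
        rw [Int.natAbs_pos, Ne, leadingCoeff_eq_zero]
        intro h3
        have h4 := hB.deg
        rw [h3, natDegree_zero] at h4
        omega
      have h2 := Nat.le_of_dvd (Nat.mul_pos hlc hN) h1
      have h3 : B.leadingCoeff.natAbs * N ≤ A * D := Nat.mul_le_mul hB.lc hND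
      omega
    have hsub := X1A_sub Q px hpx (∅ : Finset (Fin k))
    have hpxr : px ∈ PC r := mem_PC.2 ⟨hr1, le_rfl, hprim⟩
    set p := pB px (∅ : Finset (Fin k)) with hp
    set T1 := (KT px (∅ : Finset (Fin k))).filter (fun κ => univ.lcm (fun i => (p i).1 * κ i) ≤ D) with hT1
    set T2 := (KT px (∅ : Finset (Fin k))).filter (fun κ => ¬ univ.lcm (fun i => (p i).1 * κ i) ≤ D) with hT2
    set w : ℕ → ℂ := fun n => gk px 1 (B.eval (n : ℤ)) with hw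
    set M : ℕ := r ^ (E + 4) with hM
    set H : ℕ := M * r with hH
    have hH0n : 0 < H := by rw [hH, hM]; positivity
    have hH0 : (0 : ℝ) < H := by exact_mod_cast hH0n
    have hHE : r ^ E ≤ H := by
      rw [hH, hM, ← pow_succ]
      exact Nat.pow_le_pow_right hr1 (by omega)
    have hHr : (r : ℝ) ^ 5 ≤ H := by
      have h5 : r ^ 5 ≤ H := by
        rw [hH, hM, ← pow_succ]
        exact Nat.pow_le_pow_right hr1 (by omega)
      exact_mod_cast h5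
    have hwn : ∀ n, ‖w n‖ ≤ 2 * (1 + Real.log r) := by
      intro n
      have e4 : cj px (B.eval (n : ℤ)) * ((uu px.1.primeFactors (B.eval (n : ℤ)) : ℝ) : ℂ) =
          gk px 1 (B.eval (n : ℤ)) := by
        rw [← B1_SD px.1 hr1 px dvd_rfl (B.eval (n : ℤ)), x1a_SD1 px.1 hr1, Finset.sum_singleton]
      rw [hw]
      beta_reduce
      rw [← e4, norm_mul, Complex.norm_real, Real.norm_eq_abs, abs_of_nonneg (M3a_uu r hr1 _).1]
      calc _ ≤ 1 * ((r : ℝ) / (Nat.totient r : ℝ)) :=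
            mul_le_mul (x1_cj_norm _ _) (M3a_uu r hr1 _).2 (M3a_uu r hr1 _).1 zero_le_one
        _ = (r : ℝ) / (Nat.totient r : ℝ) := one_mul _
        _ ≤ _ := M3b r hr1
    have hsum : ∀ h : Fin k → ℕ, (H : ℂ) * MRf (pB px ({0} : Finset (Fin (k + 1)))) r (sys B P h) =
        ∑ n ∈ Ico 0 (0 + H), w n * ∑ κ ∈ T1, ∏ i, gk (p i) (κ i) ((P i).eval (n : ℤ) + h i) +
        ∑ n ∈ Ico 0 (0 + H), w n * ∑ κ ∈ T2, ∏ i, gk (p i) (κ i) ((P i).eval (n : ℤ) + h i) := by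
      intro h
      have hr0c : (r : ℂ) ≠ 0 := by exact_mod_cast hr0.ne'
      have h1 := x1b_mean (fun n => Phf (pB px ({0} : Finset (Fin (k + 1)))) r.primeFactors
        (at' (sys B P h) n)) r M (fun n => P2_Ph (sys B P h) (P2_sys B P h) _ r r dvd_rfl (by
          intro i
          unfold pB
          split_ifs
          · exact dvd_rfl
          · exact one_dvd _) n)
      have h2 : (H : ℂ) * MRf (pB px ({0} : Finset (Fin (k + 1)))) r (sys B P h) =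
          ∑ n ∈ range (M * r), Phf (pB px ({0} : Finset (Fin (k + 1)))) r.primeFactors
            (at' (sys B P h) (n : ℤ)) := by
        rw [h1]
        unfold MRf
        rw [hH]
        push_cast
        field_simp
      rw [h2, ← Finset.sum_add_distrib, zero_add, Nat.Ico_zero_eq_range]
      refine Finset.sum_congr rfl fun n _ => ?_
      rw [← mul_add, hT1, hT2, Finset.sum_filter_add_sum_filter_not]
      exact x1b_exp Q px hpx B P h (n : ℤ)
    have hS1 : ∀ h : Fin k → ℕ, ‖∑ n ∈ Ico 0 (0 + H), w n *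
        ∑ κ ∈ T1, ∏ i, gk (p i) (κ i) ((P i).eval (n : ℤ) + h i)‖ ≤ 2 * (r : ℝ) ^ 3 := by
      intro h
      refine (x1b_small B hB.deg P r D hD1 px hpxr rfl p hsub.2 T1 ((filter_subset _ _).trans hsub.1)
        (fun κ hκ => (mem_filter.mp hκ).2) hnd h 0 H).trans ?_
      have h2 : (D : ℝ) ^ (2 * k + 1) ≤ r := by
        calc (D : ℝ) ^ (2 * k + 1) ≤ ((r : ℝ) ^ x) ^ (2 * k + 1) :=
              pow_le_pow_left₀ (by positivity) hD2 _
          _ = (r : ℝ) ^ (x * ((2 * k + 1 : ℕ) : ℝ)) := by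
              rw [← Real.rpow_natCast, ← Real.rpow_mul hr0.le]
          _ ≤ (r : ℝ) ^ (1 : ℝ) := by
              refine Real.rpow_le_rpow_of_exponent_le hrge1 ?_
              rw [hx, div_mul_eq_mul_div, one_mul, div_le_one (by positivity)]
              push_cast
              linarith
          _ = r := Real.rpow_one _
      calc 2 * (r : ℝ) ^ 2 * (D : ℝ) ^ (2 * k + 1) ≤ 2 * (r : ℝ) ^ 2 * r :=
            mul_le_mul_of_nonneg_left h2 (by positivity)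
        _ = 2 * (r : ℝ) ^ 3 := by ring
    have hB2 := hG r hr1 hrQ p hsub.2 T2 ((filter_subset _ _).trans hsub.1) D hD1
      (fun κ hκ => not_le.mp (mem_filter.mp hκ).2) 0 H hHE w
    have hW : ∑ n ∈ Ico 0 (0 + H), ‖w n‖ ^ 2 ≤ H * (4 * (1 + Real.log r) ^ 2) := by
      calc ∑ n ∈ Ico 0 (0 + H), ‖w n‖ ^ 2 ≤ ∑ _n ∈ Ico 0 (0 + H), 4 * (1 + Real.log r) ^ 2 := by
            refine Finset.sum_le_sum fun n _ => ?_
            have h1 := pow_le_pow_left₀ (norm_nonneg _) (hwn n) 2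
            calc ‖w n‖ ^ 2 ≤ (2 * (1 + Real.log r)) ^ 2 := h1
              _ = _ := by ring
        _ = _ := by
            rw [Finset.sum_const, Nat.card_Ico, nsmul_eq_mul, zero_add, Nat.sub_zero]
    have hneg : (D : ℝ) ^ (-cc) ≤ 2 * (r : ℝ) ^ (-c) := by
      refine (G1_neg hr1 hx0.le hcc0.le).trans ?_
      refine mul_le_mul_of_nonneg_right ?_ (by positivity)
      calc (2 : ℝ) ^ cc ≤ 2 ^ (1 : ℝ) := Real.rpow_le_rpow_of_exponent_le (by norm_num) hcc1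
        _ = 2 := Real.rpow_one 2
    have hLc : (1 + Real.log r) ^ Cc * (1 + Real.log r) ^ 2 ≤ (1 + Real.log r) ^ C := by
      rw [← Real.rpow_natCast (1 + Real.log r) 2, ← Real.rpow_add (by linarith)]
      refine Real.rpow_le_rpow_of_exponent_le hL1 ?_
      push_cast
      linarith
    have hS2 : ∑ h ∈ S, ‖∑ n ∈ Ico 0 (0 + H), w n *
        ∑ κ ∈ T2, ∏ i, gk (p i) (κ i) ((P i).eval (n : ℤ) + g h i)‖ ^ 2 ≤
        (H : ℝ) ^ 2 * (8 * Cc * ((1 + Real.log r) ^ C * S.card * (r : ℝ) ^ (-c))) := by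
      refine hB2.trans ?_
      have h0 : 0 ≤ (1 + Real.log r) ^ Cc := Real.rpow_nonneg (by linarith) _
      have hD0 : 0 ≤ (D : ℝ) ^ (-cc) := Real.rpow_nonneg (Nat.cast_nonneg _) _
      calc Cc * (1 + Real.log r) ^ Cc * S.card * (H * ∑ n ∈ Ico 0 (0 + H), ‖w n‖ ^ 2) * (D : ℝ) ^ (-cc)
          ≤ Cc * (1 + Real.log r) ^ Cc * S.card * (H * (H * (4 * (1 + Real.log r) ^ 2))) *
            (2 * (r : ℝ) ^ (-c)) := by
            refine mul_le_mul ?_ hneg hD0 (by positivity)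
            refine mul_le_mul_of_nonneg_left ?_ (by positivity)
            exact mul_le_mul_of_nonneg_left hW hH0.le
        _ = (H : ℝ) ^ 2 * (8 * Cc * (((1 + Real.log r) ^ Cc * (1 + Real.log r) ^ 2) * S.card *
            (r : ℝ) ^ (-c))) := by ring
        _ ≤ (H : ℝ) ^ 2 * (8 * Cc * ((1 + Real.log r) ^ C * S.card * (r : ℝ) ^ (-c))) := by
            refine mul_le_mul_of_nonneg_left ?_ (by positivity)
            refine mul_le_mul_of_nonneg_left ?_ (by positivity)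
            refine mul_le_mul_of_nonneg_right ?_ hrc.le
            exact mul_le_mul_of_nonneg_right hLc hv
    have hS1' : ∑ h ∈ S, ‖∑ n ∈ Ico 0 (0 + H), w n *
        ∑ κ ∈ T1, ∏ i, gk (p i) (κ i) ((P i).eval (n : ℤ) + g h i)‖ ^ 2 ≤
        (H : ℝ) ^ 2 * (4 * ((1 + Real.log r) ^ C * S.card * (r : ℝ) ^ (-c))) := by
      have h1 : ∀ h ∈ S, ‖∑ n ∈ Ico 0 (0 + H), w n *
          ∑ κ ∈ T1, ∏ i, gk (p i) (κ i) ((P i).eval (n : ℤ) + g h i)‖ ^ 2 ≤ 4 * (r : ℝ) ^ 6 := by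
        intro h _
        refine (pow_le_pow_left₀ (norm_nonneg _) (hS1 (g h)) 2).trans (le_of_eq ?_)
        ring
      refine (Finset.sum_le_sum h1).trans ?_
      rw [Finset.sum_const, nsmul_eq_mul]
      have h2 : (r : ℝ) ^ (-(1 : ℝ)) ≤ (r : ℝ) ^ (-c) :=
        Real.rpow_le_rpow_of_exponent_le hrge1 (by linarith)
      rw [Real.rpow_neg_one] at h2
      have h3 : 1 ≤ (1 + Real.log r) ^ C := Real.one_le_rpow hL1 hCpos.le
      have h4 : (r : ℝ) ^ 6 ≤ (r : ℝ) ^ 10 * (r : ℝ)⁻¹ := by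
        have h5 : (r : ℝ) ^ 10 * (r : ℝ)⁻¹ = (r : ℝ) ^ 9 := by
          field_simp
        rw [h5]
        exact pow_le_pow_right₀ hrge1 (by norm_num)
      calc S.card * (4 * (r : ℝ) ^ 6) ≤ S.card * (4 * ((r : ℝ) ^ 10 * (r : ℝ)⁻¹)) := by
            refine mul_le_mul_of_nonneg_left ?_ hv
            linarith
        _ ≤ S.card * (4 * ((r : ℝ) ^ 10 * (r : ℝ) ^ (-c))) := by
            refine mul_le_mul_of_nonneg_left ?_ hv
            have := mul_le_mul_of_nonneg_left h2 (show (0 : ℝ) ≤ (r : ℝ) ^ 10 by positivity)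
            linarith
        _ = 1 * (((r : ℝ) ^ 5) ^ 2 * (4 * (S.card * (r : ℝ) ^ (-c)))) := by ring
        _ ≤ (1 + Real.log r) ^ C * (((r : ℝ) ^ 5) ^ 2 * (4 * (S.card * (r : ℝ) ^ (-c)))) :=
            mul_le_mul_of_nonneg_right h3 (by positivity)
        _ = ((r : ℝ) ^ 5) ^ 2 * (4 * ((1 + Real.log r) ^ C * S.card * (r : ℝ) ^ (-c))) := by ring
        _ ≤ (H : ℝ) ^ 2 * (4 * ((1 + Real.log r) ^ C * S.card * (r : ℝ) ^ (-c))) := by
            refine mul_le_mul_of_nonneg_right ?_ (by positivity)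
            exact pow_le_pow_left₀ (by positivity) hHr 2
    have hpt : ∀ x ∈ S, (H : ℝ) ^ 2 *
        ‖MRf (pB px ({0} : Finset (Fin (k + 1)))) r (sys B P (g x))‖ ^ 2 ≤
        2 * ‖∑ n ∈ Ico 0 (0 + H), w n * ∑ κ ∈ T1, ∏ i, gk (p i) (κ i) ((P i).eval (n : ℤ) + g x i)‖ ^ 2 +
        2 * ‖∑ n ∈ Ico 0 (0 + H), w n *
          ∑ κ ∈ T2, ∏ i, gk (p i) (κ i) ((P i).eval (n : ℤ) + g x i)‖ ^ 2 := by
      intro x _
      obtain ⟨h, hhd⟩ : ∃ h : Fin k → ℕ, g x = h := ⟨g x, rfl⟩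
      rw [hhd]
      have h1 : (H : ℝ) * ‖MRf (pB px ({0} : Finset (Fin (k + 1)))) r (sys B P h)‖ =
          ‖(H : ℂ) * MRf (pB px ({0} : Finset (Fin (k + 1)))) r (sys B P h)‖ := by
        rw [norm_mul, Complex.norm_natCast]
      rw [← mul_pow, h1, hsum h]
      refine (pow_le_pow_left₀ (norm_nonneg _) (norm_add_le _ _) 2).trans ?_
      nlinarith [sq_nonneg (‖∑ n ∈ Ico 0 (0 + H), w n *
        ∑ κ ∈ T1, ∏ i, gk (p i) (κ i) ((P i).eval (n : ℤ) + h i)‖ - ‖∑ n ∈ Ico 0 (0 + H), w n *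
        ∑ κ ∈ T2, ∏ i, gk (p i) (κ i) ((P i).eval (n : ℤ) + h i)‖)]
    have htot := Finset.sum_le_sum hpt
    rw [← Finset.mul_sum, Finset.sum_add_distrib, ← Finset.mul_sum, ← Finset.mul_sum] at htot
    set Z : ℝ := (1 + Real.log r) ^ C * S.card * (r : ℝ) ^ (-c) with hZ
    have hZ0 : 0 ≤ Z := by positivity
    have h6 : (H : ℝ) ^ 2 * ∑ h ∈ S, ‖MRf (pB px ({0} : Finset (Fin (k + 1)))) r (sys B P (g h))‖ ^ 2 ≤
        (H : ℝ) ^ 2 * ((16 * Cc + 8) * Z) := by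
      refine htot.trans ?_
      calc 2 * _ + 2 * _ ≤ 2 * ((H : ℝ) ^ 2 * (4 * Z)) + 2 * ((H : ℝ) ^ 2 * (8 * Cc * Z)) :=
            add_le_add (mul_le_mul_of_nonneg_left hS1' (by norm_num))
              (mul_le_mul_of_nonneg_left hS2 (by norm_num))
        _ = (H : ℝ) ^ 2 * ((16 * Cc + 8) * Z) := by ring
    have h7 := le_of_mul_le_mul_left h6 (by positivity)
    refine h7.trans ?_
    calc (16 * Cc + 8) * Z ≤ C * Z := by
          refine mul_le_mul_of_nonneg_right ?_ hZ0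
          rw [hCd]
          linarith
      _ = C * (1 + Real.log r) ^ C * S.card * (r : ℝ) ^ (-c) := by
          rw [hZ]
          ring

end Pool.Agent.HUP
end

-- from Lib.HUP.R18
section

/-!
# Project HUP, module R (the modules of H24P for an abstract family), R18: cutting a box
-/

open Finset Polynomial

namespace Pool.Agent.HUP

open Pool.Agent.Lib.H68T Pool.Agent.Lib.H18Q Pool.Agent.Lib.H59P Pool.Agent.Lib.H24P

theorem r18_mem {d : ℕ} (b : Fin d → ℤ) (s : Fin d → ℕ) (t : Fin d → ℤ) :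
    t ∈ tb b s ↔ ∀ j, b j ≤ t j ∧ t j < b j + s j := by
  unfold tb
  rw [Fintype.mem_piFinset]
  exact forall_congr' fun j => mem_Ico

theorem R18_card {d : ℕ} (b : Fin d → ℤ) (s : Fin d → ℕ) : (tb b s).card = ∏ j, s j := by
  unfold tb
  rw [Fintype.card_piFinset]
  refine prod_congr rfl fun j _ => ?_
  rw [Int.card_Ico]
  omega

/-- **R18.** A box of sides `q s'_j` is the disjoint union of the boxes `tb (b + u s') s'`, `u ∈ [0, q)^d`. -/
theorem R18_split {d : ℕ} (b : Fin d → ℤ) (s s' : Fin d → ℕ) (q : ℕ) (hs : ∀ j, s j = q * s' j)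
    (E : (Fin d → ℤ) → Prop) [DecidablePred E] (δ : ℝ)
    (hE : ∀ b' : Fin d → ℤ, tb b' s' ⊆ tb b s → (((tb b' s').filter E).card : ℝ) ≤ (tb b' s').card * δ) :
    (((tb b s).filter E).card : ℝ) ≤ (tb b s).card * δ := by
  obtain ⟨φ, hφ⟩ : ∃ φ : (Fin d → ℤ) → (Fin d → ℕ), ∀ t j, φ t j = ((t j - b j) / (s' j : ℤ)).toNat := ⟨_, fun _ _ => rfl⟩
  have hdiv : ∀ t ∈ tb b s, ∀ j, φ t j < q ∧ b j + (φ t j : ℤ) * s' j ≤ t j ∧
      t j < b j + (φ t j : ℤ) * s' j + s' j := by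
    intro t ht j
    have h1 := (r18_mem b s t).1 ht j
    have h2 : ((s j : ℕ) : ℤ) = (q : ℤ) * s' j := by rw [hs j]; push_cast; ring
    rw [h2] at h1
    have hpos : (0 : ℤ) < s' j := by
      rcases Nat.eq_zero_or_pos (s' j) with h | h
      · rw [h] at h1
        push_cast at h1
        rw [mul_zero] at h1
        omega
      · exact_mod_cast h
    have h3 : 0 ≤ (t j - b j) / (s' j : ℤ) := Int.ediv_nonneg (by omega) hpos.le
    have h4 : (t j - b j) / (s' j : ℤ) < q := Int.ediv_lt_of_lt_mul hpos (by omega)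
    have h5 : ((φ t j : ℕ) : ℤ) = (t j - b j) / (s' j : ℤ) := by rw [hφ, Int.toNat_of_nonneg h3]
    have h6 := Int.mul_ediv_add_emod (t j - b j) (s' j : ℤ)
    have h7 := Int.emod_nonneg (t j - b j) hpos.ne'
    have h8 := Int.emod_lt_of_pos (t j - b j) hpos
    have h9 : (s' j : ℤ) * ((t j - b j) / (s' j : ℤ)) = ((φ t j : ℕ) : ℤ) * s' j := by rw [h5]; ring
    rw [h9] at h6
    refine ⟨by omega, by omega, by omega⟩
  obtain ⟨U, hU⟩ : ∃ U : Finset (Fin d → ℕ), U = Fintype.piFinset fun _ => range q := ⟨_, rfl⟩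
  have hmap : ∀ t ∈ (tb b s).filter E, φ t ∈ U := by
    intro t ht
    rw [hU, Fintype.mem_piFinset]
    intro j
    rw [mem_range]
    exact (hdiv t (mem_filter.1 ht).1 j).1
  have h1 := card_eq_sum_card_fiberwise hmap
  have h2 : ∀ u ∈ U, (((tb b s).filter E).filter (fun t => φ t = u)) ⊆
      (tb (fun j => b j + (u j : ℤ) * s' j) s').filter E := by
    intro u _ t ht
    rw [mem_filter, mem_filter] at ht
    rw [mem_filter, r18_mem]
    refine ⟨fun j => ?_, ht.1.2⟩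
    have h3 := hdiv t ht.1.1 j
    rw [ht.2] at h3
    exact h3.2
  have h3 : ∀ u ∈ U, tb (fun j => b j + (u j : ℤ) * s' j) s' ⊆ tb b s := by
    intro u hu t ht
    rw [hU, Fintype.mem_piFinset] at hu
    rw [r18_mem] at ht ⊢
    intro j
    have h4 := ht j
    have h5 := mem_range.1 (hu j)
    have h6 : ((s j : ℕ) : ℤ) = (q : ℤ) * s' j := by rw [hs j]; push_cast; ring
    have h7 : ((u j : ℤ) + 1) * s' j ≤ (q : ℤ) * s' j :=
      mul_le_mul_of_nonneg_right (by omega) (by positivity)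
    have h8 : (0 : ℤ) ≤ (u j : ℤ) * s' j := by positivity
    rw [h6]
    constructor
    · linarith [h4.1]
    · linarith [h4.2]
  have h4 : (((tb b s).filter E).card : ℝ) = ∑ u ∈ U, ((((tb b s).filter E).filter (fun t => φ t = u)).card : ℝ) := by
    rw [h1]
    push_cast
    rfl
  rw [h4]
  calc ∑ u ∈ U, ((((tb b s).filter E).filter (fun t => φ t = u)).card : ℝ)
      ≤ ∑ _u ∈ U, ((∏ j, s' j : ℕ) : ℝ) * δ := by
        refine sum_le_sum fun u hu => ?_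
        have h5 : ((((tb b s).filter E).filter (fun t => φ t = u)).card : ℝ) ≤
            (((tb (fun j => b j + (u j : ℤ) * s' j) s').filter E).card : ℝ) := by
          exact_mod_cast card_le_card (h2 u hu)
        refine h5.trans ((hE _ (h3 u hu)).trans (le_of_eq ?_))
        rw [R18_card]
    _ = (tb b s).card * δ := by
        rw [sum_const, nsmul_eq_mul, ← mul_assoc]
        congr 1
        rw [R18_card, hU, Fintype.card_piFinset]
        rw [show (∏ j, s j) = (∏ _j : Fin d, q) * ∏ j, s' j from by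
          rw [← prod_mul_distrib]
          exact prod_congr rfl fun j _ => hs j]
        push_cast
        congr 1
        refine prod_congr rfl fun j _ => ?_
        rw [card_range]

/-- The forms vary little on a small box. -/
theorem R18_var {k d : ℕ} (c : Fin k → Fin d → ℤ) (b : Fin d → ℤ) (s : Fin d → ℕ) (i : Fin k) (t t' : Fin d → ℤ)
    (ht : t ∈ tb b s) (ht' : t' ∈ tb b s) : |lf c t i - lf c t' i| ≤ ∑ j, |c i j| * (s j : ℤ) := by
  unfold lf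
  rw [← sum_sub_distrib]
  refine (abs_sum_le_sum_abs _ _).trans (sum_le_sum fun j _ => ?_)
  rw [← mul_sub, abs_mul]
  refine mul_le_mul_of_nonneg_left ?_ (abs_nonneg _)
  have h1 := (r18_mem b s t).1 ht j
  have h2 := (r18_mem b s t').1 ht' j
  rw [abs_le]
  omega

end Pool.Agent.HUP
end
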