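import Pool.Agent.Lib.H59M.M2.M035
import Pool.Agent.Lib.H59M.M2.M057
import Pool.Agent.Lib.H59M.M2.M066
import Pool.Agent.Lib.H59M.M2.M098

/-! Merged copies (to shorten the build) of Lib.H9P.U12, Lib.H9P.U15, Lib.HUP.F4, Lib.HUP.F7, Lib.HUP.F1, Lib.HUP.F6, Lib.HUP.F2, Lib.HUP.F3. -/

-- from Lib.H9P.U12
section

/-!
# ASYP, chunk U12 (S/M): from the weighted number to the number
-/

open Finset Polynomial

namespace Pool.Agent.H9P

open Pool.Agent.Lib.H68T Pool.Agent.Lib.H18Q Pool.Agent.Lib.H59P Pool.Agent.Lib.H24P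
open Pool.Agent.HUP

open Filter Topology in
theorem u12_theta (k : ℕ) (ε : ℝ) (hε : 0 < ε) :
    ∃ θ : ℝ, 0 < θ ∧ θ < 1 ∧ (1 + θ) ^ (k + 1) ≤ 1 + ε ∧ 1 ≤ (1 + ε) * (1 - θ) ^ (k + 1) := by
  have h1 : Tendsto (fun θ : ℝ => (1 + θ) ^ (k + 1)) (𝓝[>] 0) (𝓝 ((1 + 0) ^ (k + 1))) :=
    (by fun_prop : Continuous fun θ : ℝ => (1 + θ) ^ (k + 1)).continuousAt.tendsto.mono_left nhdsWithin_le_nhds
  have h2 : Tendsto (fun θ : ℝ => (1 + ε) * (1 - θ) ^ (k + 1)) (𝓝[>] 0) (𝓝 ((1 + ε) * (1 - 0) ^ (k + 1))) :=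
    (by fun_prop : Continuous fun θ : ℝ => (1 + ε) * (1 - θ) ^ (k + 1)).continuousAt.tendsto.mono_left
      nhdsWithin_le_nhds
  have h3 : Tendsto (fun θ : ℝ => θ) (𝓝[>] (0 : ℝ)) (𝓝 0) := nhdsWithin_le_nhds
  have e1 := h1.eventually_lt_const (u := 1 + ε) (by rw [add_zero, one_pow]; linarith)
  have e2 := h2.eventually_const_lt (u := 1) (by rw [sub_zero, one_pow]; linarith)
  have e3 := h3.eventually_lt_const (u := 1) one_pos
  obtain ⟨θ, a, b, c, d⟩ := (e1.and (e2.and (e3.and self_mem_nhdsWithin))).exists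
  exact ⟨θ, d, c, a.le, b.le⟩

open Filter Topology in
theorem u12_log (C θ : ℝ) (hθ : 0 < θ) : ∃ Z0 : ℕ, ∀ Z : ℕ, Z0 ≤ Z → 2 ≤ Z ∧ C ≤ θ * Real.log Z := by
  have h1 : Tendsto (fun Z : ℕ => θ * Real.log (Z : ℝ)) atTop atTop :=
    (Real.tendsto_log_atTop.comp tendsto_natCast_atTop_atTop).const_mul_atTop hθ
  obtain ⟨Z0, h0⟩ := eventually_atTop.1 ((eventually_ge_atTop 2).and (h1.eventually_ge_atTop C))
  exact ⟨Z0, fun Z hZ => h0 Z hZ⟩

/-- the logarithm of a number between `δ Z^D` and `Cz Z^D` -/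
theorem u12_one {δ Cz θ Z m : ℝ} {D : ℕ} (hδ : 0 < δ) (hCz : 1 ≤ Cz) (hZ : 1 < Z) (hθ : 0 < θ)
    (hD : 1 ≤ D) (hC : |Real.log δ| + |Real.log Cz| ≤ θ * Real.log Z) (h1 : δ * Z ^ D ≤ m) (h2 : m ≤ Cz * Z ^ D) :
    (1 - θ) * (D * Real.log Z) ≤ Real.log m ∧ Real.log m ≤ (1 + θ) * (D * Real.log Z) := by
  have hZ0 : 0 < Z := by linarith
  have hZD : 0 < Z ^ D := pow_pos hZ0 D
  have hl : 0 < Real.log Z := Real.log_pos hZ
  have hm : 0 < m := lt_of_lt_of_le (mul_pos hδ hZD) h1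
  have a1 := Real.log_le_log (mul_pos hδ hZD) h1
  have a2 := Real.log_le_log hm h2
  rw [Real.log_mul hδ.ne' hZD.ne', Real.log_pow] at a1
  rw [Real.log_mul (by linarith) hZD.ne', Real.log_pow] at a2
  have b1 := neg_abs_le (Real.log δ)
  have b2 := le_abs_self (Real.log Cz)
  have b3 := abs_nonneg (Real.log δ)
  have b4 := abs_nonneg (Real.log Cz)
  have hD' : (1 : ℝ) ≤ D := by exact_mod_cast hD
  have c1 : θ * Real.log Z ≤ θ * (D * Real.log Z) := by
    refine mul_le_mul_of_nonneg_left ?_ hθ.le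
    nlinarith
  constructor <;> nlinarith

/-- **U12.** Proof. `lp m` is `log m` if `m` is a (positive) prime, else `0` (look up the definition), so only the `n` counted in `cnt` contribute, each with
`∏_i log (φ_i n)`, where `log (φ_0 n) = log Z + O(1)`, `log (φ_(i+1) n) = D_i log Z + O(1)`, the `O(1)` at most `C = |log δ| + |log Cz|`. For `Z` large every factor
`log(φ_(i+1) n)/(D_i log Z)` is between `1 - θ` and `1 + θ` with `(1 + θ)^(k+1) ≤ 1 + ε/4`, `(1 - θ)^(k+1) ≥ 1 - ε/4`. So every term is `L (1 ± ε/4)`,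
`L = (∏ D_i) (log Z)^(k+1)`, `|cnt L - wct| ≤ (ε/4) cnt L` and `cnt L ≤ 2 wct`. -/
theorem U12_wt {k : ℕ} (D : Fin k → ℕ) (hD : ∀ i, 1 ≤ D i) (δ Cz ε : ℝ) (hδ : 0 < δ) (hCz : 1 ≤ Cz) (hε : 0 < ε) :
    ∃ Z0 : ℕ, ∀ Z : ℕ, Z0 ≤ Z → ∀ (φ : Fin (k + 1) → ℤ → ℤ) (n1 L : ℕ),
    (∀ n ∈ Ico n1 (n1 + L), (δ * Z ≤ φ 0 (n : ℤ) ∧ (φ 0 (n : ℤ) : ℝ) ≤ Cz * Z) ∧
      ∀ i : Fin k, δ * (Z : ℝ) ^ D i ≤ φ i.succ (n : ℤ) ∧ (φ i.succ (n : ℤ) : ℝ) ≤ Cz * (Z : ℝ) ^ D i) →
    |(cnt φ n1 L : ℝ) * ((∏ i, (D i : ℝ)) * (Real.log Z) ^ (k + 1)) - wct φ n1 L| ≤ ε * wct φ n1 L := by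
  obtain ⟨θ, hθ, hθ1, ht1, ht2⟩ := u12_theta k ε hε
  obtain ⟨Z0, h0⟩ := u12_log (|Real.log δ| + |Real.log Cz|) θ hθ
  refine ⟨Z0, fun Z hZ φ n1 L hφ => ?_⟩
  obtain ⟨hZ2, hC⟩ := h0 Z hZ
  have hZ1 : (1 : ℝ) < Z := by
    have : (2 : ℝ) ≤ Z := by exact_mod_cast hZ2
    linarith
  have hl : 0 < Real.log Z := Real.log_pos hZ1
  set L0 : ℝ := (∏ i, (D i : ℝ)) * (Real.log Z) ^ (k + 1) with hL0
  set T := (Ico n1 (n1 + L)).filter (fun n : ℕ => ∀ i, (φ i (n : ℤ)).toNat.Prime) with hT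
  have hL0n : 0 ≤ L0 := by positivity
  let A : Fin (k + 1) → ℝ := Fin.cons (Real.log Z) (fun i => (D i : ℝ) * Real.log Z)
  have hA0 : ∀ i, 0 ≤ A i := by
    intro i
    refine Fin.cases ?_ (fun i => ?_) i
    · exact hl.le
    · exact mul_nonneg (Nat.cast_nonneg _) hl.le
  have hAp : ∏ i, A i = L0 := by
    rw [Fin.prod_univ_succ]
    show Real.log Z * ∏ i : Fin k, ((D i : ℝ) * Real.log Z) = L0
    rw [prod_mul_distrib, prod_const, card_univ, Fintype.card_fin, hL0]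
    ring
  have hw : wct φ n1 L = ∑ n ∈ T, ∏ i, Real.log (φ i (n : ℤ)) := by
    unfold wct
    rw [hT, sum_filter]
    refine sum_congr rfl fun n _ => ?_
    split_ifs with h
    · refine prod_congr rfl fun i _ => ?_
      unfold Pool.Agent.Lib.H68T.lp
      rw [if_pos (h i)]
    · push Not at h
      obtain ⟨i, hi⟩ := h
      refine prod_eq_zero (mem_univ i) ?_
      unfold Pool.Agent.Lib.H68T.lp
      rw [if_neg hi]
  have hc : (cnt φ n1 L : ℝ) = (T.card : ℝ) := rfl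
  have hb : ∀ n ∈ T, (1 - θ) ^ (k + 1) * L0 ≤ ∏ i, Real.log (φ i (n : ℤ)) ∧
      ∏ i, Real.log (φ i (n : ℤ)) ≤ (1 + θ) ^ (k + 1) * L0 := by
    intro n hn
    have hn1 := (mem_filter.1 hn).1
    obtain ⟨⟨f1, f2⟩, f3⟩ := hφ n hn1
    have hi : ∀ i, (1 - θ) * A i ≤ Real.log (φ i (n : ℤ)) ∧ Real.log (φ i (n : ℤ)) ≤ (1 + θ) * A i := by
      intro i
      refine Fin.cases ?_ (fun i => ?_) i
      · have h := u12_one (D := 1) hδ hCz hZ1 hθ le_rfl hC (m := (φ 0 (n : ℤ) : ℝ)) (by rw [pow_one]; exact f1)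
          (by rw [pow_one]; exact f2)
        rw [Nat.cast_one, one_mul] at h
        exact h
      · exact u12_one (D := D i) hδ hCz hZ1 hθ (hD i) hC (f3 i).1 (f3 i).2
    have e : ∀ r : ℝ, r ^ (k + 1) * L0 = ∏ i, (r * A i) := by
      intro r
      rw [prod_mul_distrib, prod_const, card_univ, Fintype.card_fin, hAp]
    constructor
    · rw [e]
      exact prod_le_prod (fun i _ => mul_nonneg (by linarith) (hA0 i)) fun i _ => (hi i).1
    · rw [e]
      exact prod_le_prod (fun i _ => le_trans (mul_nonneg (by linarith) (hA0 i)) (hi i).1) fun i _ => (hi i).2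
  have hd : ∀ n ∈ T, |L0 - ∏ i, Real.log (φ i (n : ℤ))| ≤ ε * ∏ i, Real.log (φ i (n : ℤ)) := by
    intro n hn
    obtain ⟨b1, b2⟩ := hb n hn
    set p := ∏ i, Real.log (φ i (n : ℤ)) with hp
    have hp0 : 0 ≤ p := le_trans (mul_nonneg (pow_nonneg (by linarith) _) hL0n) b1
    have c1 : L0 ≤ (1 + ε) * p := by
      calc L0 ≤ ((1 + ε) * (1 - θ) ^ (k + 1)) * L0 := le_mul_of_one_le_left hL0n ht2
        _ = (1 + ε) * ((1 - θ) ^ (k + 1) * L0) := by ring
        _ ≤ (1 + ε) * p := mul_le_mul_of_nonneg_left b1 (by linarith)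
    have c2 : p ≤ (1 + ε) * L0 := le_trans b2 (mul_le_mul_of_nonneg_right ht1 hL0n)
    rw [abs_le]
    constructor
    · rcases le_total p L0 with h | h
      · have : 0 ≤ ε * p := mul_nonneg hε.le hp0
        linarith
      · nlinarith
    · linarith
  rw [hw, hc, Finset.mul_sum]
  have e : (T.card : ℝ) * L0 - ∑ n ∈ T, ∏ i, Real.log (φ i (n : ℤ)) =
      ∑ n ∈ T, (L0 - ∏ i, Real.log (φ i (n : ℤ))) := by
    rw [sum_sub_distrib, sum_const, nsmul_eq_mul]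
  rw [e]
  exact le_trans (abs_sum_le_sum_abs _ _) (sum_le_sum hd)

end Pool.Agent.H9P
end

-- from Lib.H9P.U15
section

/-!
# ASYP, chunk U15 (S/M): sum over the cells, one `t`
-/

open Finset Polynomial

namespace Pool.Agent.H9P

open Pool.Agent.Lib.H68T Pool.Agent.Lib.H18Q Pool.Agent.Lib.H59P Pool.Agent.Lib.H24P
open Pool.Agent.HUP

theorem u15_add {k : ℕ} (φ : Fin k → ℤ → ℤ) (n a b : ℕ) : cnt φ n (a + b) = cnt φ n a + cnt φ (n + a) b := by
  unfold cnt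
  rw [card_filter, card_filter, card_filter, ← add_assoc]
  exact (Finset.sum_Ico_consecutive _ (by omega) (by omega)).symm

theorem u15_cells {k : ℕ} (φ : Fin k → ℤ → ℤ) (X1 ja jb : ℕ) (hj : ja ≤ jb) :
    cnt φ ((ja + 1) * X1) ((jb - ja) * X1) = ∑ j ∈ Ico ja jb, cnt φ ((j + 1) * X1) X1 := by
  induction jb, hj using Nat.le_induction with
  | base => simp [cnt]
  | succ n hn ih =>
    have e1 : (n + 1 - ja) * X1 = (n - ja) * X1 + X1 := by
      rw [Nat.succ_sub hn, Nat.succ_mul]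
    have e2 : (ja + 1) * X1 + (n - ja) * X1 = (n + 1) * X1 := by
      rw [← Nat.add_mul]
      congr 1
      omega
    rw [e1, u15_add, ih, e2, Finset.sum_Ico_succ_top hn]

/-- **U15.** The cells `[(j+1) X1, (j+2) X1)`, `ja ≤ j < jb`. Proof. `[1, Z+1)` is the union of `[1, (ja+1) X1)`, the cells and `[(jb+1) X1, Z+1)`. For a cell
`|cnt_j Lg - X1 SS| ≤ ε1 W_j + X1 (E1 SS + θ1) ≤ X1 SS (ε1 (1 + 2 E1) + 2 E1)`; sum: `(jb - ja) X1 ≤ Z`. The rest has length at most `2 θ Z + 1 ≤ 3 θ Z`. Total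
`Z SS (ε/8 · 9/8 + ε/8 + 3 θ (Cb + 1)) ≤ ε Z SS`, divide by `Lg`. -/
theorem U15_sum {k : ℕ} (φ : Fin (k + 1) → ℤ → ℤ) (Z X1 ja jb : ℕ) (SS Lg E1 θ1 ε1 θ Cb ε : ℝ) (hSS : 0 < SS)
    (hLg : 0 < Lg) (hE1 : 0 ≤ E1) (hε1 : 0 ≤ ε1) (hε : 0 < ε) (hε' : ε ≤ 1) (h1 : 16 * E1 ≤ ε) (h2 : 8 * ε1 ≤ ε)
    (hθ : 0 < θ) (hCb : 0 ≤ Cb) (h3 : 12 * θ * (Cb + 1) ≤ ε) (h4 : 1 ≤ θ * Z) (hj : ja ≤ jb) (hX1 : 0 < X1)
    (ha : ((ja + 1) * X1 : ℕ) ≤ θ * Z) (hb : (1 - θ) * Z ≤ ((jb + 1) * X1 : ℕ)) (hb' : (jb + 1) * X1 ≤ Z)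
    (hθ1 : θ1 ≤ E1 * SS)
    (hcell : ∀ j ∈ Ico ja jb, |wct φ ((j + 1) * X1) X1 - X1 * SS| ≤ X1 * (E1 * SS + θ1))
    (hcnt : ∀ j ∈ Ico ja jb, |(cnt φ ((j + 1) * X1) X1 : ℝ) * Lg - wct φ ((j + 1) * X1) X1| ≤ ε1 * wct φ ((j + 1) * X1) X1)
    (hl : (cnt φ 1 ((ja + 1) * X1 - 1) : ℝ) * Lg ≤ Cb * ((ja + 1) * X1 : ℕ) * SS)
    (hr : (cnt φ ((jb + 1) * X1) (Z + 1 - (jb + 1) * X1) : ℝ) * Lg ≤ Cb * (Z + 1 - (jb + 1) * X1 : ℕ) * SS) :
    |(cnt φ 1 Z : ℝ) - Z * (SS / Lg)| ≤ ε * (Z * (SS / Lg)) := by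
  have hE : E1 ≤ 1 / 16 := by linarith
  have hX0 : (0 : ℝ) < X1 := by exact_mod_cast hX1
  -- the cells
  have hc : ∀ j ∈ Ico ja jb, |(cnt φ ((j + 1) * X1) X1 : ℝ) * Lg - X1 * SS| ≤ X1 * SS * (17 / 64 * ε) := by
    intro j hjm
    have a1 := hcell j hjm
    have a2 := hcnt j hjm
    have a3 : X1 * (E1 * SS + θ1) ≤ X1 * SS * (2 * E1) := by
      calc (X1 : ℝ) * (E1 * SS + θ1) ≤ X1 * (E1 * SS + E1 * SS) :=
            mul_le_mul_of_nonneg_left (by linarith) hX0.le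
        _ = X1 * SS * (2 * E1) := by ring
    have a4 : wct φ ((j + 1) * X1) X1 ≤ X1 * SS * (1 + 2 * E1) := by
      have := (abs_le.1 (a1.trans a3)).2
      linarith
    have a5 : ε1 * wct φ ((j + 1) * X1) X1 ≤ ε1 * (X1 * SS * (1 + 2 * E1)) := mul_le_mul_of_nonneg_left a4 hε1
    have a6 : |(cnt φ ((j + 1) * X1) X1 : ℝ) * Lg - X1 * SS| ≤
        |(cnt φ ((j + 1) * X1) X1 : ℝ) * Lg - wct φ ((j + 1) * X1) X1| + |wct φ ((j + 1) * X1) X1 - X1 * SS| := by
      have := abs_add_le ((cnt φ ((j + 1) * X1) X1 : ℝ) * Lg - wct φ ((j + 1) * X1) X1)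
        (wct φ ((j + 1) * X1) X1 - X1 * SS)
      rw [sub_add_sub_cancel] at this
      exact this
    have a7 : ε1 * (1 + 2 * E1) + 2 * E1 ≤ 17 / 64 * ε := by nlinarith
    calc |(cnt φ ((j + 1) * X1) X1 : ℝ) * Lg - X1 * SS| ≤ ε1 * (X1 * SS * (1 + 2 * E1)) + X1 * SS * (2 * E1) := by
          linarith
      _ = X1 * SS * (ε1 * (1 + 2 * E1) + 2 * E1) := by ring
      _ ≤ X1 * SS * (17 / 64 * ε) := mul_le_mul_of_nonneg_left a7 (by positivity)
  obtain ⟨sm, hsm⟩ : ∃ sm : ℝ, sm = ∑ j ∈ Ico ja jb, (cnt φ ((j + 1) * X1) X1 : ℝ) := ⟨_, rfl⟩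
  have hsum : |sm * Lg - ((jb : ℝ) - ja) * X1 * SS| ≤ ((jb : ℝ) - ja) * X1 * SS * (17 / 64 * ε) := by
    have b1 : sm * Lg - ((jb : ℝ) - ja) * X1 * SS =
        ∑ j ∈ Ico ja jb, ((cnt φ ((j + 1) * X1) X1 : ℝ) * Lg - X1 * SS) := by
      rw [sum_sub_distrib, ← sum_mul, ← hsm, sum_const, Nat.card_Ico, nsmul_eq_mul, Nat.cast_sub hj]
      ring
    rw [b1]
    refine (abs_sum_le_sum_abs _ _).trans ((sum_le_sum hc).trans (le_of_eq ?_))
    rw [sum_const, Nat.card_Ico, nsmul_eq_mul, Nat.cast_sub hj]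
    ring
  -- the partition
  have hp1 : 0 < (ja + 1) * X1 := Nat.mul_pos (Nat.succ_pos _) hX1
  have hp2 : (ja + 1) * X1 + (jb - ja) * X1 = (jb + 1) * X1 := by
    rw [← Nat.add_mul]
    congr 1
    omega
  have hpart : (cnt φ 1 Z : ℝ) = (cnt φ 1 ((ja + 1) * X1 - 1) : ℝ) + sm +
      (cnt φ ((jb + 1) * X1) (Z + 1 - (jb + 1) * X1) : ℝ) := by
    have e0 : Z = ((ja + 1) * X1 - 1) + ((jb - ja) * X1 + (Z + 1 - (jb + 1) * X1)) := by omega
    have e1 : cnt φ 1 Z = cnt φ 1 ((ja + 1) * X1 - 1) + (∑ j ∈ Ico ja jb, cnt φ ((j + 1) * X1) X1 +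
        cnt φ ((jb + 1) * X1) (Z + 1 - (jb + 1) * X1)) := by
      have e2 : cnt φ 1 Z = cnt φ 1 (((ja + 1) * X1 - 1) + ((jb - ja) * X1 + (Z + 1 - (jb + 1) * X1))) := by
        rw [← e0]
      have e3 : 1 + ((ja + 1) * X1 - 1) = (ja + 1) * X1 := by omega
      rw [e2, u15_add, e3, u15_add, hp2, u15_cells φ X1 ja jb hj]
    rw [e1, hsm]
    push_cast
    ring
  have hjr : (ja : ℝ) ≤ jb := by exact_mod_cast hj
  have hz1 : (((jb + 1) * X1 : ℕ) : ℝ) ≤ Z := by exact_mod_cast hb'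
  have hd1 : ((jb : ℝ) - ja) * X1 = (((jb + 1) * X1 : ℕ) : ℝ) - (((ja + 1) * X1 : ℕ) : ℝ) := by
    push_cast
    ring
  have hpa : (0 : ℝ) ≤ (((ja + 1) * X1 : ℕ) : ℝ) := Nat.cast_nonneg _
  have hd2 : ((jb : ℝ) - ja) * X1 ≤ Z := by rw [hd1]; linarith
  have hd0 : 0 ≤ ((jb : ℝ) - ja) * X1 := mul_nonneg (by linarith) hX0.le
  have hd3 : (Z : ℝ) - ((jb : ℝ) - ja) * X1 ≤ 2 * (θ * Z) := by rw [hd1]; linarith
  have hr2 : ((Z + 1 - (jb + 1) * X1 : ℕ) : ℝ) ≤ 2 * (θ * Z) := by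
    rw [Nat.cast_sub (by omega)]
    push_cast
    push_cast at hb
    linarith
  have hZp : (0 : ℝ) < Z := by
    by_contra hneg
    push Not at hneg
    have : θ * (Z : ℝ) ≤ 0 := mul_nonpos_of_nonneg_of_nonpos hθ.le hneg
    linarith
  have hCS : 0 ≤ Cb * SS := mul_nonneg hCb hSS.le
  have hl' : (cnt φ 1 ((ja + 1) * X1 - 1) : ℝ) * Lg ≤ (θ * Z) * (Cb * SS) := by
    refine hl.trans ?_
    calc Cb * ((ja + 1) * X1 : ℕ) * SS = (((ja + 1) * X1 : ℕ) : ℝ) * (Cb * SS) := by ring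
      _ ≤ (θ * Z) * (Cb * SS) := mul_le_mul_of_nonneg_right ha hCS
  have hr' : (cnt φ ((jb + 1) * X1) (Z + 1 - (jb + 1) * X1) : ℝ) * Lg ≤ (2 * (θ * Z)) * (Cb * SS) := by
    refine hr.trans ?_
    calc Cb * (Z + 1 - (jb + 1) * X1 : ℕ) * SS = ((Z + 1 - (jb + 1) * X1 : ℕ) : ℝ) * (Cb * SS) := by ring
      _ ≤ (2 * (θ * Z)) * (Cb * SS) := mul_le_mul_of_nonneg_right hr2 hCS
  have hl0 : 0 ≤ (cnt φ 1 ((ja + 1) * X1 - 1) : ℝ) * Lg := mul_nonneg (Nat.cast_nonneg _) hLg.le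
  have hr0 : 0 ≤ (cnt φ ((jb + 1) * X1) (Z + 1 - (jb + 1) * X1) : ℝ) * Lg := mul_nonneg (Nat.cast_nonneg _) hLg.le
  have hmain : |(cnt φ 1 Z : ℝ) * Lg - Z * SS| ≤ ε * (Z * SS) := by
    obtain ⟨s1, s2⟩ := abs_le.1 hsum
    have g1 : ((jb : ℝ) - ja) * X1 * SS * (17 / 64 * ε) ≤ Z * SS * (17 / 64 * ε) :=
      mul_le_mul_of_nonneg_right (mul_le_mul_of_nonneg_right hd2 hSS.le) (by positivity)
    have g2 : (Z : ℝ) * SS - ((jb : ℝ) - ja) * X1 * SS ≤ 2 * (θ * Z) * SS := by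
      calc (Z : ℝ) * SS - ((jb : ℝ) - ja) * X1 * SS = ((Z : ℝ) - ((jb : ℝ) - ja) * X1) * SS := by ring
        _ ≤ 2 * (θ * Z) * SS := mul_le_mul_of_nonneg_right hd3 hSS.le
    have g3 : 0 ≤ (Z : ℝ) * SS - ((jb : ℝ) - ja) * X1 * SS := by
      have : ((jb : ℝ) - ja) * X1 * SS ≤ Z * SS := mul_le_mul_of_nonneg_right hd2 hSS.le
      linarith
    have g4 : (12 * θ * (Cb + 1)) * (Z * SS) ≤ ε * (Z * SS) := mul_le_mul_of_nonneg_right h3 (by positivity)
    have g5 : 0 ≤ θ * Z * SS := by positivity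
    have g6 : 0 ≤ ε * (Z * SS) := by positivity
    have g7 : 0 ≤ θ * Z * (Cb * SS) := by positivity
    obtain ⟨cl, hcl⟩ : ∃ cl : ℝ, cl = (cnt φ 1 ((ja + 1) * X1 - 1) : ℝ) * Lg := ⟨_, rfl⟩
    obtain ⟨cr, hcr⟩ : ∃ cr : ℝ, cr = (cnt φ ((jb + 1) * X1) (Z + 1 - (jb + 1) * X1) : ℝ) * Lg := ⟨_, rfl⟩
    have g8 : (cnt φ 1 Z : ℝ) * Lg = cl + sm * Lg + cr := by rw [hpart, hcl, hcr]; ring
    rw [← hcl] at hl' hl0
    rw [← hcr] at hr' hr0
    rw [g8, abs_le]
    constructor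
    · linarith
    · linarith
  have hfin : (cnt φ 1 Z : ℝ) - Z * (SS / Lg) = ((cnt φ 1 Z : ℝ) * Lg - Z * SS) / Lg := by
    field_simp
  have hfin2 : ε * (Z * (SS / Lg)) = ε * (Z * SS) / Lg := by ring
  rw [hfin, hfin2, abs_div, abs_of_pos hLg]
  exact div_le_div_of_nonneg_right hmain hLg.le

end Pool.Agent.H9P
end

-- from Lib.HUP.F4
section

/-!
# Projects HUP and HPC, module F (the second moment `FMT` from Theorem P), F4: grouping by the value of the form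
-/

open Finset Polynomial

namespace Pool.Agent.HUP

open Pool.Agent.HUK (GG DD DL DV FF bxS Bdd)

theorem f4_card {d : ℕ} (π : Fin d → ℤ) (b : Fin d → ℤ) (s : Fin d → ℕ) :
    ((((tb b s).image fun t => ∑ j, π j * t j).card : ℕ) : ℤ) ≤ ∑ j, |π j| * s j + 1 := by
  have hsub : (tb b s).image (fun t => ∑ j, π j * t j) ⊆
      Icc (∑ j, π j * b j - ∑ j, max (-π j) 0 * s j) (∑ j, π j * b j + ∑ j, max (π j) 0 * s j) := by
    intro u hu
    rw [Finset.mem_image] at hu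
    obtain ⟨t, ht, rfl⟩ := hu
    unfold tb at ht
    rw [Fintype.mem_piFinset] at ht
    have h1 : ∀ j, π j * b j - max (-π j) 0 * s j ≤ π j * t j ∧ π j * t j ≤ π j * b j + max (π j) 0 * s j := by
      intro j
      have h2 := ht j
      rw [mem_Ico] at h2
      have h3 : 0 ≤ t j - b j := by linarith [h2.1]
      have h4 : t j - b j ≤ s j := by linarith [h2.2]
      constructor
      · have h5 : -π j * (t j - b j) ≤ max (-π j) 0 * s j :=
          (mul_le_mul_of_nonneg_right (le_max_left _ _) h3).trans (mul_le_mul_of_nonneg_left h4 (le_max_right _ _))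
        linarith
      · have h5 : π j * (t j - b j) ≤ max (π j) 0 * s j :=
          (mul_le_mul_of_nonneg_right (le_max_left _ _) h3).trans (mul_le_mul_of_nonneg_left h4 (le_max_right _ _))
        linarith
    rw [mem_Icc]
    constructor
    · rw [← Finset.sum_sub_distrib]
      exact Finset.sum_le_sum fun j _ => (h1 j).1
    · rw [← Finset.sum_add_distrib]
      exact Finset.sum_le_sum fun j _ => (h1 j).2
  have h6 := Finset.card_le_card hsub
  rw [Int.card_Icc] at h6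
  have h7 : ∑ j, |π j| * (s j : ℤ) = ∑ j, max (-π j) 0 * (s j : ℤ) + ∑ j, max (π j) 0 * (s j : ℤ) := by
    rw [← Finset.sum_add_distrib]
    refine Finset.sum_congr rfl fun j _ => ?_
    rw [← add_mul]
    congr 1
    rcases le_total 0 (π j) with h | h
    · rw [abs_of_nonneg h, max_eq_right (by linarith), max_eq_left h]
      ring
    · rw [abs_of_nonpos h, max_eq_left (by linarith), max_eq_right h]
      ring
  have h8 : 0 ≤ ∑ j, |π j| * (s j : ℤ) := Finset.sum_nonneg fun j _ => mul_nonneg (abs_nonneg _) (Nat.cast_nonneg _)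
  rw [h7] at h8 ⊢
  omega

/-- **F4.** Proof. `U` = the image of the box under `t ↦ ∑ π j t j`, contained in an interval of length `∑ |π j| s j`.
`h' u = (∑_{t ∈ box, value u} h t) / ∏_{j ≠ l} s j` (`0` if the product is `0`: then the box is empty, or `d`…), at most `1` in absolute
value by `p3_fib` (`HUP/P3b.lean`; `bZ` is `tb`). `Finset.sum_fiberwise_of_maps_to`. -/
theorem F4_group {d : ℕ} (π : Fin d → ℤ) (l : Fin d) (hl : π l ≠ 0) (b : Fin d → ℤ) (s : Fin d → ℕ) :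
    ∃ U : Finset ℤ, (U.card : ℤ) ≤ ∑ j, |π j| * s j + 1 ∧ ∀ h : (Fin d → ℤ) → ℂ, (∀ t, ‖h t‖ ≤ 1) →
      ∃ h' : ℤ → ℂ, (∀ u, ‖h' u‖ ≤ 1) ∧ (∀ u, u ∉ U → h' u = 0) ∧ ∀ Φ : ℤ → ℂ,
        ∑ t ∈ tb b s, h t * Φ (∑ j, π j * t j) =
          ((∏ j ∈ univ.erase l, s j : ℕ) : ℂ) * ∑ u ∈ U, h' u * Φ u := by
  have h0 := f4_card π b s
  set U : Finset ℤ := (tb b s).image fun t => ∑ j, π j * t j with hU
  refine ⟨U, h0, ?_⟩
  intro h hh
  refine ⟨fun u => (∑ t ∈ (tb b s).filter (fun t => ∑ j, π j * t j = u), h t) / ((∏ j ∈ univ.erase l, s j : ℕ) : ℂ), ?_, ?_, ?_⟩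
  · intro u
    rw [norm_div, RCLike.norm_natCast]
    refine div_le_one_of_le₀ ?_ (Nat.cast_nonneg _)
    refine (norm_sum_le _ _).trans ?_
    refine (Finset.sum_le_card_nsmul _ _ 1 fun t _ => hh t).trans ?_
    rw [nsmul_eq_mul, mul_one]
    exact_mod_cast p3_fib b s π l hl u
  · intro u hu
    have h1 : (tb b s).filter (fun t => ∑ j, π j * t j = u) = ∅ := by
      rw [Finset.filter_eq_empty_iff]
      intro t ht he
      exact hu (hU ▸ Finset.mem_image.2 ⟨t, ht, he⟩)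
    simp only [h1, Finset.sum_empty, zero_div]
  · intro Φ
    rw [← Finset.sum_fiberwise_of_maps_to (s := tb b s) (t := U)
      (g := fun t => ∑ j, π j * t j) (fun t ht => hU ▸ Finset.mem_image_of_mem _ ht), Finset.mul_sum]
    refine Finset.sum_congr rfl fun u _ => ?_
    have h1 : ∑ t ∈ (tb b s).filter (fun t => ∑ j, π j * t j = u), h t * Φ (∑ j, π j * t j) =
        (∑ t ∈ (tb b s).filter (fun t => ∑ j, π j * t j = u), h t) * Φ u := by
      rw [Finset.sum_mul]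
      refine Finset.sum_congr rfl fun t ht => ?_
      rw [(Finset.mem_filter.1 ht).2]
    rw [h1]
    by_cases hP : (∏ j ∈ univ.erase l, s j) = 0
    · have h2 : tb b s = ∅ := by
        rw [Finset.prod_eq_zero_iff] at hP
        obtain ⟨j, _, hj⟩ := hP
        rw [Finset.eq_empty_iff_forall_notMem]
        intro t ht
        unfold tb at ht
        rw [Fintype.mem_piFinset] at ht
        have h5 := ht j
        rw [hj, mem_Ico] at h5
        push_cast at h5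
        omega
      rw [h2]
      simp
    · have h3 : ((∏ j ∈ univ.erase l, s j : ℕ) : ℂ) ≠ 0 := Nat.cast_ne_zero.2 hP
      field_simp

end Pool.Agent.HUP
end

-- from Lib.HUP.F7
section

/-!
# Projects HUP and HPC, module F (the second moment `FMT` from Theorem P), F7: differences with small norm
-/

open Finset Polynomial

namespace Pool.Agent.HUP

open Pool.Agent.HUK (GG DD DL DV FF bxS Bdd)

theorem f7_bxS (s H : ℕ) (F : (Fin (s + 1) → ℤ) → ℝ) :
    ∑ h ∈ bxS (s + 1) H, F h = ∑ k ∈ Ioo (-(H : ℤ)) H, ∑ h ∈ bxS s H, F (Fin.cons k h : Fin (s + 1) → ℤ) := by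
  have h1 := Pool.Agent.HUK.bxS_sum s H (fun h => ((F h : ℝ) : ℂ))
  exact_mod_cast h1

theorem f7_DL_zero {A B : ℤ} (l : List ℤ) (f : ℤ → ℂ) (hf : ∀ y, y ∉ Ico A B → f y = 0) (k : ℤ) (hk : k ∈ l)
    (hk2 : k ∉ Ioo (-(B - A)) (B - A)) : DL l f = fun _ => 0 := by
  induction l generalizing f with
  | nil => exact absurd hk List.not_mem_nil
  | cons a l ih =>
    change DL l (DD a f) = fun _ => 0
    rcases List.mem_cons.1 hk with h1 | h1
    · rw [← h1, Pool.Agent.HUK.p1_DD_zero hf k hk2]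
      funext z
      exact Pool.Agent.HUK.DL_supp l _ z rfl
    · refine ih (DD a f) ?_ h1
      intro y hy
      unfold DD
      rw [hf y hy, zero_mul]

/-- Proof. Induction on `r` with `GG_succ` (differences commute: `DV`, `List.ofFn_succ`; all `GG … ≥ 0` for `s ≥ 1`): `GG W (s + r) f =
∑_{h ∈ bxS r (2W)} GG W s (DV h f)`. -/
theorem F7_sum (W s r : ℕ) (hs : 1 ≤ s) (f : ℤ → ℂ) (hf : ∀ y, y ∉ Ico (-(W : ℤ)) W → f y = 0) :
    GG W (s + r) f = ∑ h ∈ bxS r (2 * W), GG W s (DV h f) := by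
  induction r generalizing f with
  | zero =>
    have h1 : bxS 0 (2 * W) = {(fun i : Fin 0 => i.elim0)} := by
      ext h
      rw [bxS, Fintype.mem_piFinset, Finset.mem_singleton]
      exact ⟨fun _ => Subsingleton.elim _ _, fun _ i => i.elim0⟩
    rw [h1, Finset.sum_singleton]
    rfl
  | succ r ih =>
    rw [f7_bxS, ← Nat.add_assoc, Pool.Agent.HUK.GG_succ]
    push_cast
    refine Finset.sum_congr rfl fun k _ => ?_
    rw [ih (DD k f) (Pool.Agent.HUK.p1_DD_supp hf k)]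
    refine Finset.sum_congr rfl fun h _ => ?_
    congr 1
    unfold DV
    rw [List.ofFn_cons]
    rfl

/-- **F7.** Proof. `j ↦ (μ r * j r)` is injective and `GG W s (DV h f) = 0` for `h ∉ bxS r (2W)` (the difference vanishes:
`p1_DD_zero`-type), so the sum over `j` is at most `GG W (s + r) f` (`F7_sum`). -/
theorem F7_inj (W s r T : ℕ) (hs : 1 ≤ s) (μ : Fin r → ℤ) (hμ : ∀ i, μ i ≠ 0) (f : ℤ → ℂ)
    (hf : ∀ y, y ∉ Ico (-(W : ℤ)) W → f y = 0) :
    ∑ j ∈ bxS r T, GG W s (DV (fun i => μ i * j i) f) ≤ GG W (s + r) f := by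
  classical
  rw [F7_sum W s r hs f hf]
  have hz : ∀ h : Fin r → ℤ, h ∉ bxS r (2 * W) → GG W s (DV h f) = 0 := by
    intro h hh
    have h1 : ∃ i, h i ∉ Ioo (-((2 * W : ℕ) : ℤ)) ((2 * W : ℕ) : ℤ) := by
      by_contra hc
      push Not at hc
      exact hh (by rw [bxS, Fintype.mem_piFinset]; exact hc)
    obtain ⟨i, hi⟩ := h1
    have h2 : DV h f = fun _ => 0 := by
      refine f7_DL_zero (A := -(W : ℤ)) (B := (W : ℤ)) (List.ofFn h) f hf (h i) ?_ ?_
      · rw [List.mem_ofFn]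
        exact ⟨i, rfl⟩
      · intro h3
        apply hi
        rw [mem_Ioo] at h3 ⊢
        push_cast
        omega
    rw [h2]
    exact Pool.Agent.HUK.p1_zero W s
  have hinj : Function.Injective (fun (j : Fin r → ℤ) (i : Fin r) => μ i * j i) := by
    intro a b hab
    funext i
    exact mul_left_cancel₀ (hμ i) (congrFun hab i)
  have h1 : ∑ j ∈ bxS r T, GG W s (DV (fun i => μ i * j i) f)
      = ∑ h ∈ (bxS r T).image (fun (j : Fin r → ℤ) (i : Fin r) => μ i * j i), GG W s (DV h f) := by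
    rw [Finset.sum_image fun a _ b _ hab => hinj hab]
  rw [h1, ← Finset.sum_filter_add_sum_filter_not _ (fun h => h ∈ bxS r (2 * W))]
  have h2 : ∑ h ∈ ((bxS r T).image (fun (j : Fin r → ℤ) (i : Fin r) => μ i * j i)).filter
      (fun h => ¬ h ∈ bxS r (2 * W)), GG W s (DV h f) = 0 :=
    Finset.sum_eq_zero fun h hh => hz h (Finset.mem_filter.1 hh).2
  rw [h2, add_zero]
  refine Finset.sum_le_sum_of_subset_of_nonneg ?_ ?_
  · intro h hh
    exact (Finset.mem_filter.1 hh).2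
  · intro h _ _
    refine Pool.Agent.HUK.GG_nonneg W s hs _ ?_
    intro y hy
    exact Pool.Agent.HUK.DL_supp _ f y (hf y hy)

end Pool.Agent.HUP
end

-- from Lib.HUP.F1
section

/-!
# Projects HUP and HPC, module F (the second moment `FMT` from Theorem P), F1: elimination vectors
-/

open Finset Polynomial

namespace Pool.Agent.HUP

open Pool.Agent.HUK (GG DD DL DV FF bxS Bdd)

/-- **F1.** Proof. Let `l` be an index with `c i0 l ≠ 0` (`hD.ne`), so `e l = D i0` (`hD.blk`); `v 0 = e_l` (the unit vector). For `i` with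
`D i = D i0` and a minor `c i j * c i0 j' - c i j' * c i0 j ≠ 0` put `v (i.succ) = c i j' • e_j - c i j • e_j'` (then
`lf c v i = 0` and `lf c v i0 = c i0 j * c i j' - c i0 j' * c i j ≠ 0`; as the minor is not `0`, one of `c i j`, `c i0 j` and one of
`c i j'`, `c i0 j'` is not `0`, hence `e j = e j' = D i0` by `hD.blk`). For all other `i` put `v (i.succ) = v 0`. If `D i ≠ D i0`, then
`c i j ≠ 0` implies `e j = D i ≠ D i0`, hence `v r j = 0`: `lf c (v r) i = 0`. -/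
theorem F1_vec {k d : ℕ} (c : Fin k → Fin d → ℤ) (e : Fin d → ℕ) (D : Fin k → ℕ) (a : Fin k → ℤ) (hD : Dat c e D a)
    (i0 : Fin k) : ∃ v : Fin (k + 1) → Fin d → ℤ, (∀ r, lf c (v r) i0 ≠ 0) ∧ (∀ r j, v r j ≠ 0 → e j = D i0) ∧
      ∀ i, (D i ≠ D i0 → ∀ r, lf c (v r) i = 0) ∧
        (D i = D i0 → i ∉ Kz c D i0 → lf c (v i.succ) i = 0) := by
  classical
  obtain ⟨l, hl⟩ := hD.ne i0
  have hel : e l = D i0 := hD.blk i0 l hl
  have hbase : lf c (fun m => if m = l then 1 else 0) i0 ≠ 0 := by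
    unfold lf
    simpa using hl
  have hbs : ∀ j, (if j = l then (1 : ℤ) else 0) ≠ 0 → e j = D i0 := by
    intro j hj
    by_cases h : j = l
    · rw [h]; exact hel
    · simp [h] at hj
  have key : ∀ i, ∃ u : Fin d → ℤ, lf c u i0 ≠ 0 ∧ (∀ j, u j ≠ 0 → e j = D i0) ∧
      (D i = D i0 → i ∉ Kz c D i0 → lf c u i = 0) := by
    intro i
    by_cases hi : D i = D i0 ∧ i ∉ Kz c D i0
    · obtain ⟨h1, h2⟩ := hi
      have h3 : ∃ j j', c i j * c i0 j' ≠ c i j' * c i0 j := by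
        by_contra hcon
        push Not at hcon
        exact h2 (by unfold Kz; simp only [mem_filter, mem_univ, true_and]; exact ⟨h1, hcon⟩)
      obtain ⟨j, j', hm⟩ := h3
      have hej : e j = D i0 := by
        by_cases hc : c i j = 0
        · by_cases hc0 : c i0 j = 0
          · exact absurd (by rw [hc, hc0]; ring) hm
          · exact hD.blk i0 j hc0
        · rw [← h1]; exact hD.blk i j hc
      have hej' : e j' = D i0 := by
        by_cases hc : c i j' = 0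
        · by_cases hc0 : c i0 j' = 0
          · exact absurd (by rw [hc, hc0]; ring) hm
          · exact hD.blk i0 j' hc0
        · rw [← h1]; exact hD.blk i j' hc
      have hlf : ∀ r, lf c (fun m => (if m = j then c i j' else 0) - (if m = j' then c i j else 0)) r =
          c r j * c i j' - c r j' * c i j := by
        intro r
        unfold lf
        simp only [mul_sub, Finset.sum_sub_distrib, mul_ite, mul_zero, Finset.sum_ite_eq', mem_univ, if_true]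
      refine ⟨fun m => (if m = j then c i j' else 0) - (if m = j' then c i j else 0), ?_, ?_, ?_⟩
      · rw [hlf]
        intro h0
        exact hm (by linarith)
      · intro m hmm
        by_cases ha : m = j
        · rw [ha]; exact hej
        · by_cases hb : m = j'
          · rw [hb]; exact hej'
          · simp [ha, hb] at hmm
      · intro _ _
        rw [hlf]
        ring
    · exact ⟨fun m => if m = l then 1 else 0, hbase, hbs, fun h1 h2 => absurd ⟨h1, h2⟩ hi⟩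
  choose u hu1 hu2 hu3 using key
  have hv2 : ∀ r j, (Fin.cons (fun m => if m = l then (1 : ℤ) else 0) u : Fin (k + 1) → Fin d → ℤ) r j ≠ 0 →
      e j = D i0 := by
    intro r
    refine Fin.cases ?_ (fun i => ?_) r
    · intro j hj
      exact hbs j (by simpa using hj)
    · intro j hj
      exact hu2 i j (by simpa using hj)
  refine ⟨Fin.cons (fun m => if m = l then 1 else 0) u, ?_, hv2, ?_⟩
  · intro r
    refine Fin.cases ?_ (fun i => ?_) r
    · simpa using hbase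
    · simpa using hu1 i
  · intro i
    refine ⟨fun hne r => ?_, fun h1 h2 => ?_⟩
    · unfold lf
      refine Finset.sum_eq_zero fun j _ => ?_
      by_contra hcon
      have h1 := left_ne_zero_of_mul hcon
      have h2 := right_ne_zero_of_mul hcon
      exact hne ((hD.blk i j h1).symm.trans (hv2 r j h2))
    · simpa using hu3 i h1 h2

end Pool.Agent.HUP
end

-- from Lib.HUP.F6
section

/-!
# Projects HUP and HPC, module F (the second moment `FMT` from Theorem P), F6: elimination in the parameters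
-/

open Finset Polynomial

namespace Pool.Agent.HUP

open Pool.Agent.HUK (GG DD DL DV FF bxS Bdd)

/-- Differences in the second component. -/
theorem f6_snd {A G : Type*} [AddCommGroup A] [AddCommGroup G] {r : ℕ} (j : Fin r → ℤ) (v : Fin r → G)
    (F : A × G → ℂ) (a : A) (t : G) :
    DL (List.ofFn fun i => j i • ((0 : A), v i)) F (a, t) =
      DL (List.ofFn fun i => j i • v i) (fun t => F (a, t)) t := by
  induction r generalizing F with
  | zero => rfl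
  | succ r ih =>
    rw [List.ofFn_succ, List.ofFn_succ]
    have h1 : (fun t => DD (j 0 • ((0 : A), v 0)) F (a, t)) = DD (j 0 • v 0) (fun t => F (a, t)) := by
      funext t
      show F (a, t) * (starRingEnd ℂ) (F ((a, t) + j 0 • ((0 : A), v 0))) =
        F (a, t) * (starRingEnd ℂ) (F (a, t + j 0 • v 0))
      have h2 : (a, t) + j 0 • ((0 : A), v 0) = (a, t + j 0 • v 0) := by
        rw [Prod.smul_mk, Prod.mk_add_mk, smul_zero, add_zero]
      rw [h2]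
    show DL (List.ofFn fun i : Fin r => j i.succ • ((0 : A), v i.succ)) (DD (j 0 • ((0 : A), v 0)) F) (a, t) =
      DL (List.ofFn fun i : Fin r => j i.succ • v i.succ) (DD (j 0 • v 0) (fun t => F (a, t))) t
    rw [ih (fun i => j i.succ) (fun i => v i.succ) (DD (j 0 • ((0 : A), v 0)) F), h1]

theorem f6_one {G : Type*} [AddCommMonoid G] (l : List G) (z : G) : DL l (fun _ => (1 : ℂ)) z = 1 := by
  induction l with
  | nil => rfl
  | cons a l ih =>
    have h1 : DD a (fun _ : G => (1 : ℂ)) = fun _ => 1 := by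
      funext z
      show (1 : ℂ) * (starRingEnd ℂ) 1 = 1
      rw [map_one, mul_one]
    show DL l (DD a (fun _ => (1 : ℂ))) z = 1
    rw [h1]
    exact ih

/-- Differences of a finite product. -/
theorem f6_prod {G ι : Type*} [AddCommMonoid G] (l : List G) (S : Finset ι) (F : ι → G → ℂ) (z : G) :
    DL l (fun z => ∏ i ∈ S, F i z) z = ∏ i ∈ S, DL l (F i) z := by
  classical
  induction S using Finset.induction_on with
  | empty =>
    simp only [Finset.prod_empty]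
    exact f6_one l z
  | insert a S ha ih =>
    rw [Finset.prod_insert ha]
    have h1 : (fun z => ∏ i ∈ insert a S, F i z) = fun z => F a z * ∏ i ∈ S, F i z := by
      funext z
      rw [Finset.prod_insert ha]
    rw [h1, Pool.Agent.HUK.DL_mul]
    show DL l (F a) z * DL l (fun z => ∏ i ∈ S, F i z) z = _
    rw [ih]

/-- Sums over the box with the pair `(n, n')`. -/
theorem f6_sum {d : ℕ} (I : Finset ℕ) (T : Finset (Fin d → ℤ)) (F : (ℤ × ℤ) × (Fin d → ℤ) → ℂ) :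
    ∑ z ∈ (I.map Nat.castEmbedding ×ˢ I.map Nat.castEmbedding) ×ˢ T, F z =
      ∑ n ∈ I, ∑ n' ∈ I, ∑ t ∈ T, F (((n : ℤ), (n' : ℤ)), t) := by
  rw [Finset.sum_product, Finset.sum_product, Finset.sum_map]
  refine Finset.sum_congr rfl fun n _ => ?_
  rw [Finset.sum_map]
  rfl

/-- Opening the square. -/
theorem f6_open {k d : ℕ} (I : Finset ℕ) (T : Finset (Fin d → ℤ)) (w : ℕ → ℂ) (A : Fin k → ℕ → (Fin d → ℤ) → ℂ) :
    ((∑ t ∈ T, ‖∑ n ∈ I, w n * ∏ i, A i n t‖ ^ 2 : ℝ) : ℂ) =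
      ∑ n ∈ I, ∑ n' ∈ I, ∑ t ∈ T, (w n * (starRingEnd ℂ) (w n')) * ∏ i, (A i n t * (starRingEnd ℂ) (A i n' t)) := by
  rw [Complex.ofReal_sum]
  rw [Finset.sum_congr rfl fun t _ => Pool.Agent.HUK.e0_sq I fun n => w n * ∏ i, A i n t]
  rw [Finset.sum_comm]
  refine Finset.sum_congr rfl fun n _ => ?_
  rw [Finset.sum_comm]
  refine Finset.sum_congr rfl fun n' _ => Finset.sum_congr rfl fun t _ => ?_
  rw [Finset.prod_mul_distrib, map_mul, map_prod]
  ring

/-- The differences of the functions which are not eliminated, for a fixed pair `(n, n')`. -/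
theorem f6_diff {k d r : ℕ} (c : Fin k → Fin d → ℤ) (v : Fin r → Fin d → ℤ) (j : Fin r → ℤ) (T : Finset (Fin d → ℤ))
    (K : Finset (Fin k)) (f : Fin k → ℤ → ℂ) (a a' : Fin k → ℤ) (u : (Fin d → ℤ) → ℝ)
    (hu : ∀ z, DL (List.ofFn fun i => j i • v i) (fun z => if z ∈ T then (1 : ℂ) else 0) z = ((u z : ℝ) : ℂ))
    (t : Fin d → ℤ) :
    DL (List.ofFn fun i => j i • v i) (fun t => (if t ∈ T then (1 : ℂ) else 0) *
      ∏ i ∈ K, (f i (lft (c i) t + a i) * (starRingEnd ℂ) (f i (lft (c i) t + a' i)))) t =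
    ((u t : ℝ) : ℂ) * (∏ i ∈ K, (starRingEnd ℂ) (DV (fun r => lft (c i) (v r) * j r) (f i) (lft (c i) t + a' i))) *
      ∏ i ∈ K, DV (fun r => lft (c i) (v r) * j r) (f i) (lft (c i) t + a i) := by
  rw [Pool.Agent.HUK.DL_mul]
  show DL (List.ofFn fun i => j i • v i) (fun t => if t ∈ T then (1 : ℂ) else 0) t *
    DL (List.ofFn fun i => j i • v i) (fun t => ∏ i ∈ K, (f i (lft (c i) t + a i) *
      (starRingEnd ℂ) (f i (lft (c i) t + a' i)))) t = _
  rw [hu t, f6_prod]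
  have h1 : ∀ i ∈ K, DL (List.ofFn fun i => j i • v i) (fun t => f i (lft (c i) t + a i) *
      (starRingEnd ℂ) (f i (lft (c i) t + a' i))) t =
      (starRingEnd ℂ) (DV (fun r => lft (c i) (v r) * j r) (f i) (lft (c i) t + a' i)) *
        DV (fun r => lft (c i) (v r) * j r) (f i) (lft (c i) t + a i) := by
    intro i _
    rw [Pool.Agent.HUK.DL_mul]
    have e3 := p3_comp (c i) v j (fun y => f i (y + a i)) t
    have e4 := p3_comp (c i) v j (fun y => (starRingEnd ℂ) (f i (y + a' i))) t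
    have e5 := p3_shift (fun r => lft (c i) (v r) * j r) (f i) (a i) (lft (c i) t)
    have e6 := p3_conj (fun r => lft (c i) (v r) * j r) (fun y => f i (y + a' i)) (lft (c i) t)
    have e7 := p3_shift (fun r => lft (c i) (v r) * j r) (f i) (a' i) (lft (c i) t)
    rw [e5] at e3
    rw [e6, e7] at e4
    show DL (List.ofFn fun i => j i • v i) (fun t => f i (lft (c i) t + a i)) t *
      DL (List.ofFn fun i => j i • v i) (fun t => (starRingEnd ℂ) (f i (lft (c i) t + a' i))) t = _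
    rw [e3, e4, mul_comm]
  rw [Finset.prod_congr rfl h1, Finset.prod_mul_distrib, mul_assoc]

/-- The cardinality of the enlarged box. -/
theorem f6_card {d : ℕ} (C0 V X D0 n0 N : ℕ) (hX : 1 ≤ X) (e : Fin d → ℕ) (b : Fin d → ℤ) (σ : Fin d → ℕ)
    (hσ : ∀ j, σ j ≤ C0 * X ^ e j) (hN : n0 + N ≤ C0 * X) :
    ((((Ico n0 (n0 + N)).map (Nat.castEmbedding : ℕ ↪ ℤ) ×ˢ (Ico n0 (n0 + N)).map (Nat.castEmbedding : ℕ ↪ ℤ)) ×ˢ
      Fintype.piFinset fun l : Fin d => if e l = D0 then Ico (b l - V * X ^ D0) (b l + σ l + V * X ^ D0) else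
        Ico (b l) (b l + σ l)).card : ℝ) ≤ ((C0 + 2 * V + 1 : ℕ) : ℝ) ^ (d + 2) * (X : ℝ) ^ (2 + ∑ j, e j) := by
  have h1 : ∀ l : Fin d, (if e l = D0 then Ico (b l - V * X ^ D0) (b l + σ l + V * X ^ D0) else
        Ico (b l) (b l + σ l)).card ≤ (C0 + 2 * V + 1) * X ^ e l := by
    intro l
    have hσ' := hσ l
    by_cases h : e l = D0
    · rw [if_pos h, Int.card_Ico]
      have h2 : (b l + σ l + V * X ^ D0 - (b l - V * X ^ D0) : ℤ) = ((σ l + 2 * V * X ^ D0 : ℕ) : ℤ) := by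
        push_cast
        ring
      rw [h2, Int.toNat_natCast]
      rw [h] at hσ' ⊢
      nlinarith [Nat.zero_le (X ^ D0)]
    · rw [if_neg h, Int.card_Ico]
      have h2 : (b l + σ l - b l : ℤ) = ((σ l : ℕ) : ℤ) := by ring
      rw [h2, Int.toNat_natCast]
      nlinarith [Nat.zero_le (X ^ e l), Nat.zero_le (V * X ^ e l)]
  have h3 : (((Ico n0 (n0 + N)).map (Nat.castEmbedding : ℕ ↪ ℤ) ×ˢ (Ico n0 (n0 + N)).map (Nat.castEmbedding : ℕ ↪ ℤ)) ×ˢ
      Fintype.piFinset fun l : Fin d => if e l = D0 then Ico (b l - V * X ^ D0) (b l + σ l + V * X ^ D0) else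
        Ico (b l) (b l + σ l)).card ≤ (C0 + 2 * V + 1) ^ (d + 2) * X ^ (2 + ∑ j, e j) := by
    rw [card_product, card_product, card_map, Nat.card_Ico, Fintype.card_piFinset]
    have h4 : n0 + N - n0 ≤ (C0 + 2 * V + 1) * X := by
      have h5 : C0 * X ≤ (C0 + 2 * V + 1) * X := Nat.mul_le_mul_right X (by omega)
      omega
    have h6 := Finset.prod_le_prod' (s := (univ : Finset (Fin d))) fun l _ => h1 l
    refine (Nat.mul_le_mul (Nat.mul_le_mul h4 h4) h6).trans (le_of_eq ?_)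
    rw [Finset.prod_mul_distrib, Finset.prod_const, card_univ, Fintype.card_fin, Finset.prod_pow_eq_pow_sum]
    ring
  exact_mod_cast h3

/-- Shifts stay in the enlarged box. -/
theorem f6_shift {d : ℕ} (V X D0 : ℕ) (J : Finset ℤ) (e : Fin d → ℕ) (b : Fin d → ℤ) (σ : Fin d → ℕ) (v : Fin d → ℤ)
    (hv : ∀ l, v l ≠ 0 → e l = D0) (hV : ∀ l, |v l| ≤ V) (z : (ℤ × ℤ) × (Fin d → ℤ)) (h : ℕ) (hh : h < X ^ D0)
    (hz : z + h • ((0 : ℤ × ℤ), v) ∈ (J ×ˢ J) ×ˢ tb b σ) :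
    z ∈ (J ×ˢ J) ×ˢ Fintype.piFinset fun l : Fin d => if e l = D0 then Ico (b l - V * X ^ D0) (b l + σ l + V * X ^ D0) else
        Ico (b l) (b l + σ l) := by
  rw [mem_product] at hz ⊢
  have h1 : (z + h • ((0 : ℤ × ℤ), v)).1 = z.1 := by
    rw [Prod.fst_add, Prod.smul_fst, smul_zero, add_zero]
  have h2 : (z + h • ((0 : ℤ × ℤ), v)).2 = z.2 + h • v := by
    rw [Prod.snd_add, Prod.smul_snd]
  rw [h1, h2] at hz
  refine ⟨hz.1, ?_⟩
  have hz2 := hz.2
  unfold tb at hz2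
  rw [Fintype.mem_piFinset] at hz2 ⊢
  intro l
  have h3 := mem_Ico.1 (hz2 l)
  have h4 : (z.2 + h • v) l = z.2 l + (h : ℤ) * v l := by simp
  rw [h4] at h3
  by_cases h5 : e l = D0
  · rw [if_pos h5, mem_Ico]
    have h6 := abs_le.1 (hV l)
    have h7 : (h : ℤ) ≤ (X : ℤ) ^ D0 := by exact_mod_cast hh.le
    have h8 : (0 : ℤ) ≤ V := Int.natCast_nonneg V
    have h9 : (0 : ℤ) ≤ h := Int.natCast_nonneg h
    have h10 : (h : ℤ) * v l ≤ V * X ^ D0 := by nlinarith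
    have h11 : -(V * X ^ D0 : ℤ) ≤ (h : ℤ) * v l := by nlinarith
    constructor
    · linarith [h3.1]
    · linarith [h3.2]
  · rw [if_neg h5, mem_Ico]
    have h6 : v l = 0 := by
      by_contra hc
      exact h5 (hv l hc)
    rw [h6, mul_zero, add_zero] at h3
    exact h3

/-- **F6.** Proof. `V = max |v r l|`. Open the square (`p3c_sq`, `map_sum`): the left sum is
`∑_{(n,n') ∈ I × I} ∑_{t ∈ box} w n conj(w n') ∏_i f i (y_i(n)) conj (f i (y_i(n')))`, `y_i(n) = P_i(n) + (β_i + lf c t i)`. `HUK.E1_elim` in the group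
`G = ℤ × ℤ × (Fin d → ℤ)` (or `(ℤ × ℤ) × …`), `B = I × I × tb b σ`, directions `(0, 0, v r)`, `r = k + 1`, `H = X^(D i0)`; the functions: `g 0` = product of
`w n conj (w n')` and of all factors with `D i ≠ D i0`; `g (i.succ)` = the factor `i` if `D i = D i0`, `i ∉ Kz c D i0`, and `1` else; `cc` = the indicator of `B`
times the factors `i ∈ Kz c D i0`. Invariance: `F1_vec`. `B'`: sides `σ j` for `e j ≠ D i0` (there `v r j = 0`), and
`[b_j - V X^(D i0), b_j + σ_j + V X^(D i0))` for `e j = D i0`: `N = (C0 + 2 V + 1)^(d + 2) X^(2 + ∑ e)`. The differences of `cc`: `DL_mul`, `DL_prod`-type rules: the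
indicator gives a function with values in `{0, 1}` (`p3_ind`), `f i (P_i(n) + β_i + lf c t i)` gives `DV (fun r => lf c (v r) i * j r) (f i)` at the same point
(`p3_comp`, `p3_shift`), the conjugate factors with `n'` likewise (`p3_conj`); for fixed `n'` put them and the indicator into
`h j n' t`. Finally `‖∑_{n'} …‖ ≤ ∑_{n'} ‖…‖`. -/
theorem F6_elim {k d : ℕ} (c : Fin k → Fin d → ℤ) (e : Fin d → ℕ) (D : Fin k → ℕ) (a : Fin k → ℤ) (hD : Dat c e D a)
    (i0 : Fin k) (v : Fin (k + 1) → Fin d → ℤ) (hv : ∀ r j, v r j ≠ 0 → e j = D i0)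
    (hv2 : ∀ i, (D i ≠ D i0 → ∀ r, lf c (v r) i = 0) ∧ (D i = D i0 → i ∉ Kz c D i0 → lf c (v i.succ) i = 0))
    (C0 : ℕ) : ∃ C : ℝ, 1 ≤ C ∧ ∀ X : ℕ, 1 ≤ X → ∀ P : Fin k → ℤ[X],
    ∀ (β : Fin k → ℤ) (b : Fin d → ℤ) (σ : Fin d → ℕ), (∀ j, σ j ≤ C0 * X ^ e j) →
    ∀ n0 N : ℕ, n0 + N ≤ C0 * X → ∀ w : ℕ → ℂ, (∀ n, ‖w n‖ ≤ 1) →
    ∀ f : Fin k → ℤ → ℂ, (∀ i m, ‖f i m‖ ≤ 1) →
    ∃ h : (Fin (k + 1) → ℤ) → ℕ → (Fin d → ℤ) → ℂ, (∀ j n t, ‖h j n t‖ ≤ 1) ∧
    ((∑ t ∈ tb b σ, ‖∑ n ∈ Ico n0 (n0 + N), w n * ∏ i, f i ((P i).eval (n : ℤ) + (β i + lf c t i))‖ ^ 2) /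
      (X : ℝ) ^ (2 + ∑ j, e j)) ^ 2 ^ (k + 1) ≤
    C / (X : ℝ) ^ (D i0 * (k + 1)) * ∑ j ∈ bxS (k + 1) (X ^ D i0), (∑ n' ∈ Ico n0 (n0 + N),
      ‖∑ n ∈ Ico n0 (n0 + N), ∑ t ∈ tb b σ, h j n' t * ∏ i ∈ Kz c D i0,
        DV (fun r => lf c (v r) i * j r) (f i) ((P i).eval (n : ℤ) + (β i + lf c t i))‖) / (X : ℝ) ^ (2 + ∑ j, e j) := by
  obtain ⟨V, hV⟩ : ∃ V : ℕ, ∀ i l, |v i l| ≤ V := by
    refine ⟨∑ i, ∑ l, (v i l).natAbs, fun i l => ?_⟩
    have h1 : (v i l).natAbs ≤ ∑ l, (v i l).natAbs :=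
      Finset.single_le_sum (f := fun l => (v i l).natAbs) (fun _ _ => Nat.zero_le _) (mem_univ l)
    have h2 : ∑ l, (v i l).natAbs ≤ ∑ i, ∑ l, (v i l).natAbs :=
      Finset.single_le_sum (f := fun i => ∑ l, (v i l).natAbs) (fun _ _ => Nat.zero_le _) (mem_univ i)
    have h3 := h1.trans h2
    rw [Int.abs_eq_natAbs]
    exact_mod_cast h3
  obtain ⟨W, hW⟩ : ∃ W : ℝ, W = ((C0 + 2 * V + 1 : ℕ) : ℝ) := ⟨_, rfl⟩
  have hW1 : 1 ≤ W := by
    rw [hW]
    push_cast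
    have h1 : (0 : ℝ) ≤ C0 := Nat.cast_nonneg _
    have h2 : (0 : ℝ) ≤ V := Nat.cast_nonneg _
    linarith
  refine ⟨2 ^ (2 ^ (k + 1)) * (W ^ (d + 2)) ^ 2 ^ (k + 1),
    one_le_mul_of_one_le_of_one_le (one_le_pow₀ one_le_two) (one_le_pow₀ (one_le_pow₀ hW1)), ?_⟩
  intro X hX P β b σ hσ n0 N hN w hw f hf
  have hY : ∀ (i : Fin k) (n : ℤ) (t : Fin d → ℤ), (P i).eval n + (β i + lf c t i) =
      lft (c i) t + ((P i).eval n + β i) := by
    intro i n t
    show (P i).eval n + (β i + lft (c i) t) = _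
    ring
  simp only [hY]
  choose u hu hu' using fun j : Fin (k + 1) → ℤ => p3_ind (tb b σ) (List.ofFn fun i => j i • v i)
  refine ⟨fun j n' t => ((u j t : ℝ) : ℂ) * ∏ i ∈ Kz c D i0, (starRingEnd ℂ)
    (DV (fun r => lft (c i) (v r) * j r) (f i) (lft (c i) t + ((P i).eval (n' : ℤ) + β i))), ?_, ?_⟩
  · intro j n t
    rw [norm_mul]
    have h1 : ‖((u j t : ℝ) : ℂ)‖ ≤ 1 := by
      rcases hu j t with h | h
      · rw [h, Complex.ofReal_zero, norm_zero]
        exact zero_le_one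
      · rw [h, Complex.ofReal_one, norm_one]
    refine mul_le_one₀ h1 (norm_nonneg _) ?_
    rw [norm_prod]
    refine Finset.prod_le_one (fun i _ => norm_nonneg _) fun i _ => ?_
    rw [RCLike.norm_conj]
    exact Pool.Agent.HUK.DL_norm _ _ (hf i) _
  · have hX0 : (0 : ℝ) < X := by exact_mod_cast hX
    obtain ⟨I, hI⟩ : ∃ I : Finset ℕ, I = Ico n0 (n0 + N) := ⟨_, rfl⟩
    obtain ⟨E, hE⟩ : ∃ E : ℝ, E = (X : ℝ) ^ (2 + ∑ j, e j) := ⟨_, rfl⟩
    have hE0 : 0 < E := by rw [hE]; positivity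
    have hWd : 1 ≤ W ^ (d + 2) := one_le_pow₀ hW1
    have hWd0 : 0 < W ^ (d + 2) := lt_of_lt_of_le one_pos hWd
    -- the factors
    obtain ⟨Fa, hFa⟩ : ∃ Fa : Fin k → (ℤ × ℤ) × (Fin d → ℤ) → ℂ, Fa = fun i z =>
      f i (lft (c i) z.2 + ((P i).eval z.1.1 + β i)) *
        (starRingEnd ℂ) (f i (lft (c i) z.2 + ((P i).eval z.1.2 + β i))) := ⟨_, rfl⟩
    have hFa1 : ∀ i z, ‖Fa i z‖ ≤ 1 := by
      intro i z
      rw [hFa]
      show ‖_ * _‖ ≤ 1
      rw [norm_mul, RCLike.norm_conj]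
      exact mul_le_one₀ (hf _ _) (norm_nonneg _) (hf _ _)
    have hFai : ∀ i (x : Fin d → ℤ) (z : (ℤ × ℤ) × (Fin d → ℤ)), lft (c i) x = 0 →
        Fa i (z + ((0 : ℤ × ℤ), x)) = Fa i z := by
      intro i x z hx
      rw [hFa]
      show f i (lft (c i) (z.2 + x) + ((P i).eval (z.1.1 + 0) + β i)) *
        (starRingEnd ℂ) (f i (lft (c i) (z.2 + x) + ((P i).eval (z.1.2 + 0) + β i))) = _
      rw [p3_lf_add, hx, add_zero, add_zero, add_zero]
    obtain ⟨T, hT⟩ : ∃ T : Finset (Fin d → ℤ), T = tb b σ := ⟨_, rfl⟩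
    obtain ⟨J, hJ⟩ : ∃ J : Finset ℤ, J = I.map (Nat.castEmbedding : ℕ ↪ ℤ) := ⟨_, rfl⟩
    have hcard := f6_card C0 V X (D i0) n0 N hX e b σ hσ hN
    rw [← hI, ← hJ, ← hW, ← hE] at hcard
    -- the functions
    obtain ⟨g, hg0, hgs⟩ : ∃ g : Fin (k + 1) → (ℤ × ℤ) × (Fin d → ℤ) → ℂ,
        (∀ z, g 0 z = (w z.1.1.toNat * (starRingEnd ℂ) (w z.1.2.toNat)) *
          ∏ i, if D i ≠ D i0 then Fa i z else 1) ∧
        ∀ i z, g (Fin.succ i) z = if D i = D i0 ∧ i ∉ Kz c D i0 then Fa i z else 1 :=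
      ⟨Fin.cons (fun z => (w z.1.1.toNat * (starRingEnd ℂ) (w z.1.2.toNat)) *
          ∏ i, if D i ≠ D i0 then Fa i z else 1)
        (fun i z => if D i = D i0 ∧ i ∉ Kz c D i0 then Fa i z else 1), fun _ => rfl, fun _ _ => rfl⟩
    obtain ⟨cc, hcc⟩ : ∃ cc : (ℤ × ℤ) × (Fin d → ℤ) → ℂ, cc = fun z =>
      (if z ∈ (J ×ˢ J) ×ˢ T then (1 : ℂ) else 0) * ∏ i ∈ Kz c D i0, Fa i z := ⟨_, rfl⟩
    have hgn : ∀ i z, ‖g i z‖ ≤ 1 := by
      intro i z
      refine Fin.cases ?_ (fun i => ?_) i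
      · rw [hg0, norm_mul, norm_mul, RCLike.norm_conj, norm_prod]
        refine mul_le_one₀ (mul_le_one₀ (hw _) (norm_nonneg _) (hw _))
          (Finset.prod_nonneg fun i _ => norm_nonneg _) (Finset.prod_le_one (fun i _ => norm_nonneg _) fun i _ => ?_)
        split_ifs
        · exact hFa1 i z
        · rw [norm_one]
      · rw [hgs]
        split_ifs
        · exact hFa1 i z
        · rw [norm_one]
    have hginv : ∀ i z, g i (z + ((0 : ℤ × ℤ), v i)) = g i z := by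
      intro i z
      have h1 : (z + ((0 : ℤ × ℤ), v i)).1 = z.1 := by rw [Prod.fst_add, add_zero]
      refine Fin.cases ?_ (fun i => ?_) i
      · rw [hg0, hg0]
        have h1 : (z + ((0 : ℤ × ℤ), v 0)).1 = z.1 := by rw [Prod.fst_add, add_zero]
        rw [h1]
        congr 1
        refine Finset.prod_congr rfl fun i _ => ?_
        by_cases h2 : D i ≠ D i0
        · rw [if_pos h2, if_pos h2]
          exact hFai i _ z ((hv2 i).1 h2 0)
        · rw [if_neg h2, if_neg h2]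
      · rw [hgs, hgs]
        by_cases h2 : D i = D i0 ∧ i ∉ Kz c D i0
        · rw [if_pos h2, if_pos h2]
          exact hFai i _ z ((hv2 i).2 h2.1 h2.2)
        · rw [if_neg h2, if_neg h2]
    have hHpos : 0 < X ^ D i0 := Nat.pow_pos hX
    have helim := Pool.Agent.HUK.E1_elim ((J ×ˢ J) ×ˢ T) _ (W ^ (d + 2) * E) hcard (mul_pos hWd0 hE0) (X ^ D i0) hHpos
      (k + 1) (fun i => ((0 : ℤ × ℤ), v i)) g cc hgn hginv (fun z hz => by
        rw [hcc]
        show (if z ∈ (J ×ˢ J) ×ˢ T then (1 : ℂ) else 0) * _ = 0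
        rw [if_neg hz, zero_mul]) (fun i z h hh hz => by
        rw [hT] at hz
        exact f6_shift V X (D i0) J e b σ (v i) (hv i) (hV i) z h hh hz)
    have hmem : ∀ n n' t, n ∈ I → n' ∈ I → ((((n : ℤ), (n' : ℤ)), t) ∈ (J ×ˢ J) ×ˢ T ↔ t ∈ T) := by
      intro n n' t hn hn'
      rw [mem_product, mem_product, hJ]
      exact ⟨fun h => h.2, fun h => ⟨⟨mem_map.2 ⟨n, hn, rfl⟩, mem_map.2 ⟨n', hn', rfl⟩⟩, h⟩⟩
    -- the left side
    have hlhs : ∑ t ∈ T, ‖∑ n ∈ I, w n * ∏ i, f i (lft (c i) t + ((P i).eval (n : ℤ) + β i))‖ ^ 2 =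
        ‖∑ z ∈ (J ×ˢ J) ×ˢ T, (∏ i, g i z) * cc z‖ := by
      have h1 := f6_open I T w (fun i n t => f i (lft (c i) t + ((P i).eval (n : ℤ) + β i)))
      have h2 : ∑ z ∈ (J ×ˢ J) ×ˢ T, (∏ i, g i z) * cc z =
          ((∑ t ∈ T, ‖∑ n ∈ I, w n * ∏ i, f i (lft (c i) t + ((P i).eval (n : ℤ) + β i))‖ ^ 2 : ℝ) : ℂ) := by
        have h0 : ∑ z ∈ (J ×ˢ J) ×ˢ T, (∏ i, g i z) * cc z =
            ∑ n ∈ I, ∑ n' ∈ I, ∑ t ∈ T, (∏ i, g i (((n : ℤ), (n' : ℤ)), t)) * cc (((n : ℤ), (n' : ℤ)), t) := by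
          rw [hJ, f6_sum]
        rw [h0]
        refine Eq.trans ?_ h1.symm
        refine Finset.sum_congr rfl fun n hn => Finset.sum_congr rfl fun n' hn' => Finset.sum_congr rfl fun t ht => ?_
        have hz := (hmem n n' t hn hn').2 ht
        rw [Fin.prod_univ_succ, hg0, hcc]
        have h3 : ∏ i ∈ Kz c D i0, Fa i (((n : ℤ), (n' : ℤ)), t) =
            ∏ i, if i ∈ Kz c D i0 then Fa i (((n : ℤ), (n' : ℤ)), t) else 1 := by
          rw [Finset.prod_ite_mem, Finset.univ_inter]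
        have h4 : ∏ i : Fin k, g i.succ (((n : ℤ), (n' : ℤ)), t) =
            ∏ i : Fin k, if D i = D i0 ∧ i ∉ Kz c D i0 then Fa i (((n : ℤ), (n' : ℤ)), t) else 1 :=
          Finset.prod_congr rfl fun i _ => hgs i _
        have h5 : ∀ i : Fin k, (if D i ≠ D i0 then Fa i (((n : ℤ), (n' : ℤ)), t) else 1) *
            (if D i = D i0 ∧ i ∉ Kz c D i0 then Fa i (((n : ℤ), (n' : ℤ)), t) else 1) *
            (if i ∈ Kz c D i0 then Fa i (((n : ℤ), (n' : ℤ)), t) else 1) = Fa i (((n : ℤ), (n' : ℤ)), t) := by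
          intro i
          by_cases h6 : i ∈ Kz c D i0
          · have h7 : D i = D i0 := by
              unfold Kz at h6
              exact (Finset.mem_filter.1 h6).2.1
            rw [if_neg (not_not.2 h7), if_neg fun h => h.2 h6, if_pos h6, one_mul, one_mul]
          · by_cases h7 : D i = D i0
            · rw [if_neg (not_not.2 h7), if_pos ⟨h7, h6⟩, if_neg h6, one_mul, mul_one]
            · rw [if_pos h7, if_neg fun h => h7 h.1, if_neg h6, mul_one, mul_one]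
        have h6 : ∏ i, Fa i (((n : ℤ), (n' : ℤ)), t) =
            (∏ i, if D i ≠ D i0 then Fa i (((n : ℤ), (n' : ℤ)), t) else 1) *
            (∏ i, if D i = D i0 ∧ i ∉ Kz c D i0 then Fa i (((n : ℤ), (n' : ℤ)), t) else 1) *
            ∏ i, if i ∈ Kz c D i0 then Fa i (((n : ℤ), (n' : ℤ)), t) else 1 := by
          rw [← Finset.prod_mul_distrib, ← Finset.prod_mul_distrib]
          exact Finset.prod_congr rfl fun i _ => (h5 i).symm
        have h7 : ∏ i, Fa i (((n : ℤ), (n' : ℤ)), t) =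
            ∏ i, (f i (lft (c i) t + ((P i).eval (n : ℤ) + β i)) *
              (starRingEnd ℂ) (f i (lft (c i) t + ((P i).eval (n' : ℤ) + β i)))) := by
          rw [hFa]
        show ((w (n : ℤ).toNat * (starRingEnd ℂ) (w (n' : ℤ).toNat)) *
            ∏ i, if D i ≠ D i0 then Fa i (((n : ℤ), (n' : ℤ)), t) else 1) *
            (∏ i : Fin k, g i.succ (((n : ℤ), (n' : ℤ)), t)) *
            ((if (((n : ℤ), (n' : ℤ)), t) ∈ (J ×ˢ J) ×ˢ T then (1 : ℂ) else 0) *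
              ∏ i ∈ Kz c D i0, Fa i (((n : ℤ), (n' : ℤ)), t)) =
          (w n * (starRingEnd ℂ) (w n')) * ∏ i, (f i (lft (c i) t + ((P i).eval (n : ℤ) + β i)) *
              (starRingEnd ℂ) (f i (lft (c i) t + ((P i).eval (n' : ℤ) + β i))))
        rw [h4, h3, ← h7, h6, if_pos hz, Int.toNat_natCast, Int.toNat_natCast]
        ring
      rw [h2, Complex.norm_real, Real.norm_of_nonneg (Finset.sum_nonneg fun _ _ => sq_nonneg _)]
    -- the differences
    have hdiff : ∀ (j : Fin (k + 1) → ℤ) (n n' : ℕ) (t : Fin d → ℤ), n ∈ I → n' ∈ I →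
        DL (List.ofFn fun i => j i • ((0 : ℤ × ℤ), v i)) cc (((n : ℤ), (n' : ℤ)), t) =
        (((u j t : ℝ) : ℂ) * ∏ i ∈ Kz c D i0, (starRingEnd ℂ)
          (DV (fun r => lft (c i) (v r) * j r) (f i) (lft (c i) t + ((P i).eval (n' : ℤ) + β i)))) *
        ∏ i ∈ Kz c D i0, DV (fun r => lft (c i) (v r) * j r) (f i) (lft (c i) t + ((P i).eval (n : ℤ) + β i)) := by
      intro j n n' t hn hn'
      rw [f6_snd]
      have h1 : (fun t => cc (((n : ℤ), (n' : ℤ)), t)) = fun t => (if t ∈ T then (1 : ℂ) else 0) *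
          ∏ i ∈ Kz c D i0, (f i (lft (c i) t + ((P i).eval (n : ℤ) + β i)) *
            (starRingEnd ℂ) (f i (lft (c i) t + ((P i).eval (n' : ℤ) + β i)))) := by
        funext t
        rw [hcc, hFa]
        show (if (((n : ℤ), (n' : ℤ)), t) ∈ (J ×ˢ J) ×ˢ T then (1 : ℂ) else 0) * _ = _
        by_cases h3 : t ∈ T
        · rw [if_pos h3, if_pos ((hmem n n' t hn hn').2 h3)]
        · rw [if_neg h3, if_neg fun h => h3 ((hmem n n' t hn hn').1 h)]
      rw [h1]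
      exact f6_diff c v j T (Kz c D i0) f (fun i => (P i).eval (n : ℤ) + β i) (fun i => (P i).eval (n' : ℤ) + β i)
        (u j) (by rw [hT]; exact hu' j) t
    have hjj : ∀ j : Fin (k + 1) → ℤ, ‖∑ z ∈ (J ×ˢ J) ×ˢ T, DL (List.ofFn fun i => j i • ((0 : ℤ × ℤ), v i)) cc z‖ ≤
        ∑ n' ∈ I, ‖∑ n ∈ I, ∑ t ∈ T, (((u j t : ℝ) : ℂ) * ∏ i ∈ Kz c D i0, (starRingEnd ℂ)
          (DV (fun r => lft (c i) (v r) * j r) (f i) (lft (c i) t + ((P i).eval (n' : ℤ) + β i)))) *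
          ∏ i ∈ Kz c D i0, DV (fun r => lft (c i) (v r) * j r) (f i)
            (lft (c i) t + ((P i).eval (n : ℤ) + β i))‖ := by
      intro j
      rw [hJ, f6_sum, Finset.sum_comm]
      refine (norm_sum_le _ _).trans (le_of_eq (Finset.sum_congr rfl fun n' hn' => congrArg norm ?_))
      exact Finset.sum_congr rfl fun n hn => Finset.sum_congr rfl fun t _ => hdiff j n n' t hn hn'
    rw [← hI, ← hT, ← hE, hlhs]
    have hcast : ((X ^ D i0 : ℕ) : ℝ) ^ (k + 1) = (X : ℝ) ^ (D i0 * (k + 1)) := by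
      rw [Nat.cast_pow, ← pow_mul]
    rw [hcast] at helim
    have hp1 : (‖∑ z ∈ (J ×ˢ J) ×ˢ T, (∏ i, g i z) * cc z‖ / E) ^ 2 ^ (k + 1) =
        (W ^ (d + 2)) ^ 2 ^ (k + 1) *
          (‖∑ z ∈ (J ×ˢ J) ×ˢ T, (∏ i, g i z) * cc z‖ / (W ^ (d + 2) * E)) ^ 2 ^ (k + 1) := by
      rw [← mul_pow]
      congr 1
      field_simp
    rw [hp1]
    refine (mul_le_mul_of_nonneg_left helim (by positivity)).trans ?_
    rw [← mul_assoc, ← mul_div_assoc, mul_comm ((W ^ (d + 2)) ^ 2 ^ (k + 1)) (2 ^ 2 ^ (k + 1))]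
    refine mul_le_mul_of_nonneg_left (Finset.sum_le_sum fun j _ => ?_) (by positivity)
    refine (div_le_div_of_nonneg_right (hjj j) (mul_pos hWd0 hE0).le).trans ?_
    refine div_le_div_of_nonneg_left (Finset.sum_nonneg fun _ _ => norm_nonneg _) hE0 ?_
    exact le_mul_of_one_le_left hE0.le hWd

end Pool.Agent.HUP
end

-- from Lib.HUP.F2
section

/-!
# Projects HUP and HPC, module F (the second moment `FMT` from Theorem P), F2: the primitive form
-/

open Finset Polynomial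

namespace Pool.Agent.HUP

open Pool.Agent.HUK (GG DD DL DV FF bxS Bdd)

/-- **F2.** Proof. The ideal of `ℤ` generated by the `c i0 j` is generated by some `g0 > 0` (principal ideal domain;
`Submodule.IsPrincipal.generator`, up to sign): `g0 = ∑ c i0 j * y j` (`Ideal.mem_span_range_iff_exists_fun`) and
`c i0 j = g0 * π j`, so `∑ π j * y j = 1`. If all minors of `c i`, `c i0` vanish, then also `c i j * π j' = c i j' * π j`, and
`c i j = ∑_j' c i j * π j' * y j' = π j * ∑_j' c i j' * y j'`. -/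
theorem F2_prim {k d : ℕ} (c : Fin k → Fin d → ℤ) (i0 : Fin k) (hne : ∃ j, c i0 j ≠ 0) : ∃ π y : Fin d → ℤ,
    ∑ j, π j * y j = 1 ∧ 0 < lf c y i0 ∧ (∀ j, c i0 j = lf c y i0 * π j) ∧
    ∀ i, (∀ j j', c i j * c i0 j' = c i j' * c i0 j) → ∀ j, c i j = lf c y i * π j := by
  obtain ⟨j0, hj0⟩ := hne
  have hpr : (Ideal.span (Set.range (c i0))).IsPrincipal := inferInstance
  obtain ⟨a, ha⟩ := hpr.principal
  have ha' : Ideal.span (Set.range (c i0)) = Ideal.span {a} := ha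
  have h1 : ∀ j, a ∣ c i0 j := fun j => by
    rw [← Ideal.mem_span_singleton, ← ha']
    exact Ideal.subset_span (Set.mem_range_self j)
  have h2 : a ∈ Ideal.span (Set.range (c i0)) := by
    rw [ha']
    exact Ideal.mem_span_singleton_self a
  obtain ⟨z, hz⟩ := Ideal.mem_span_range_iff_exists_fun.mp h2
  have ha0 : a ≠ 0 := by
    rintro rfl
    exact hj0 (zero_dvd_iff.mp (h1 j0))
  have hlf : ∀ (y : Fin d → ℤ) (i : Fin k), lf c y i = ∑ j, c i j * y j := fun y i => rfl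
  have hg : lf c (fun j => Int.sign a * z j) i0 = |a| := by
    rw [hlf]
    calc ∑ j, c i0 j * (Int.sign a * z j) = Int.sign a * ∑ j, z j * c i0 j := by
          rw [mul_sum]
          exact sum_congr rfl fun j _ => by ring
      _ = |a| := by rw [hz, Int.sign_mul_self_eq_abs]
  have hg0 : 0 < |a| := abs_pos.mpr ha0
  have h3 : ∀ j, c i0 j = |a| * (c i0 j / |a|) := fun j =>
    (Int.mul_ediv_cancel' ((abs_dvd a _).mpr (h1 j))).symm
  have h4 : ∑ j, c i0 j / |a| * (Int.sign a * z j) = 1 := by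
    have h5 : |a| * ∑ j, c i0 j / |a| * (Int.sign a * z j) = |a| * 1 := by
      rw [mul_one, mul_sum]
      conv_rhs => rw [← hg, hlf]
      refine sum_congr rfl fun j _ => ?_
      rw [← mul_assoc, ← h3 j]
    exact mul_left_cancel₀ hg0.ne' h5
  refine ⟨fun j => c i0 j / |a|, fun j => Int.sign a * z j, h4, by rw [hg]; exact hg0,
    fun j => by rw [hg]; exact h3 j, ?_⟩
  intro i hi j
  have h6 : ∀ j', c i j * (c i0 j' / |a|) = c i j' * (c i0 j / |a|) := by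
    intro j'
    have h7 := hi j j'
    rw [h3 j', h3 j] at h7
    have h8 : |a| * (c i j * (c i0 j' / |a|)) = |a| * (c i j' * (c i0 j / |a|)) := by
      linear_combination h7
    exact mul_left_cancel₀ hg0.ne' h8
  calc c i j = c i j * ∑ j', c i0 j' / |a| * (Int.sign a * z j') := by rw [h4, mul_one]
    _ = ∑ j', c i j' * (Int.sign a * z j') * (c i0 j / |a|) := by
        rw [mul_sum]
        exact sum_congr rfl fun j' _ => by linear_combination (Int.sign a * z j') * h6 j'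
    _ = lf c (fun j => Int.sign a * z j) i * (c i0 j / |a|) := by
        rw [hlf, sum_mul]

end Pool.Agent.HUP
end

-- from Lib.HUP.F3
section

/-!
# Projects HUP and HPC, module F (the second moment `FMT` from Theorem P), F3: polynomials on residue classes
-/

open Finset Polynomial

namespace Pool.Agent.HUP

open Pool.Agent.HUK (GG DD DL DV FF bxS Bdd)

/-- **F3.** Proof. `P.comp (C Λ * X + C ρ) - C (P.eval ρ)` is divisible by `C Λ * X` (`Polynomial.sub_dvd_eval_sub` over the ring `ℤ[X]` or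
`Polynomial.X_dvd_iff`-type arguments after `taylor`: `P.comp (C ρ + C Λ * X) = ∑_j (hasse coefficients) (Λ X)^j`), say `= C Λ * S`; with
`Λ = g * g'` and `P.eval ρ + β = g * q + r`, `0 ≤ r < |g|` (`Int.emod`, `Int.ediv`): `P' = C g' * S + C q`. Degree at most `D`;
coefficient of `X^D` (`D ≥ 1`): that of the composition is `a Λ^D` (`Polynomial.coeff_comp_degree_mul_degree` or
`Polynomial.leadingCoeff_comp`, or induction). -/
theorem F3_pol (P : ℤ[X]) (D : ℕ) (hD : 1 ≤ D) (hP : P.natDegree = D) (g Λ : ℤ) (hg : g ≠ 0) (hΛ : Λ ≠ 0)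
    (hdvd : g ∣ Λ) (ρ β : ℤ) : ∃ (P' : ℤ[X]) (r : ℤ), 0 ≤ r ∧ r < |g| ∧ P'.natDegree ≤ D ∧
      P'.coeff D = P.leadingCoeff * (Λ / g) * Λ ^ (D - 1) ∧ ∀ m : ℤ, P.eval (Λ * m + ρ) + β = g * P'.eval m + r := by
  obtain ⟨g', hg'⟩ := hdvd
  set T : ℤ[X] := taylor ρ P with hT
  have hTd : T.natDegree = D := by rw [hT, natDegree_taylor, hP]
  have hTc : T.coeff D = P.leadingCoeff := by
    rw [hT, ← hP]; exact coeff_taylor_natDegree ρ P
  set S : ℤ[X] := T.divX.comp (C Λ * X) with hS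
  have hSd : S.natDegree ≤ D - 1 := by
    refine (natDegree_comp_le (p := T.divX) (q := C Λ * X)).trans ?_
    rw [natDegree_divX_eq_natDegree_tsub_one, hTd]
    have h0 : (C Λ * X : ℤ[X]).natDegree ≤ 1 := (natDegree_C_mul_le _ _).trans natDegree_X_le
    calc (D - 1) * (C Λ * X : ℤ[X]).natDegree ≤ (D - 1) * 1 := Nat.mul_le_mul_left _ h0
      _ = _ := mul_one _
  have hSc : S.coeff (D - 1) = P.leadingCoeff * Λ ^ (D - 1) := by
    rw [hS, comp_C_mul_X_coeff, coeff_divX, Nat.sub_add_cancel hD, hTc]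
  have hdiv : Λ / g = g' := by rw [hg', Int.mul_ediv_cancel_left _ hg]
  refine ⟨C g' * S * X + C ((T.coeff 0 + β) / g), (T.coeff 0 + β) % g, Int.emod_nonneg _ hg, Int.emod_lt_abs _ hg, ?_, ?_, ?_⟩
  · refine (natDegree_add_le _ _).trans (max_le ?_ ?_)
    · refine (natDegree_mul_le).trans ?_
      have h1 : (C g' * S).natDegree ≤ D - 1 := (natDegree_C_mul_le _ _).trans hSd
      have h2 : (X : ℤ[X]).natDegree ≤ 1 := natDegree_X_le
      omega
    · rw [natDegree_C]; omega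
  · obtain ⟨E, rfl⟩ : ∃ E, D = E + 1 := ⟨D - 1, by omega⟩
    rw [coeff_add, coeff_mul_X, coeff_C_mul, coeff_C_succ, add_zero, hdiv]
    have := hSc
    simp only [Nat.add_sub_cancel] at this ⊢
    rw [this]; ring
  · intro m
    have h1 : P.eval (Λ * m + ρ) = T.eval (Λ * m) := by
      rw [hT, taylor_eval]
    have h2 : T.eval (Λ * m) = T.divX.eval (Λ * m) * (Λ * m) + T.coeff 0 := by
      conv_lhs => rw [← divX_mul_X_add T]
      simp
    have h3 : S.eval m = T.divX.eval (Λ * m) := by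
      rw [hS]; simp [eval_comp]
    have h4 := Int.mul_ediv_add_emod (T.coeff 0 + β) g
    simp only [eval_add, eval_mul, eval_C, eval_X, h1, h2, h3]
    rw [hg'] at *
    linear_combination -h4

end Pool.Agent.HUP
end
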