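import Pool.Agent.Lib.H59M.M2.M020
import Pool.Agent.Lib.H59M.M2.M035
import Pool.Agent.Lib.H59M.M2.M053
import Pool.Agent.Lib.H59M.M2.M054
import Pool.Agent.Lib.H59M.M2.M055
import Pool.Agent.Lib.H59M.M2.M078
import Pool.Agent.Lib.H59M.M2.M080
import Pool.Agent.Lib.H59M.M2.M098

/-! Merged copies (to shorten the build) of Lib.H9U.L0, Lib.HUK.DDefs, Lib.HUK.KA14, Lib.HUK.KB11, Lib.HUK.BH0, Lib.HUK.BH1, Lib.HUK.BH3. -/

-- from Lib.H9U.L0
section

/-!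
# H9U, chunk L0 (S): fibres of the multiplication by `e` on `ZMod q`
-/

open Finset

namespace Pool.Agent.H9U

/-- the fibres have at most `|e|` elements -/
theorem l0_card (q : ℕ) [NeZero q] (e : ℤ) (he : e ≠ 0) (c y : ZMod q) :
    ((univ : Finset (ZMod q)).filter (fun m => (e : ZMod q) * m + c = y)).card ≤ e.natAbs := by
  classical
  have hq0 : 0 < q := Nat.pos_of_ne_zero (NeZero.ne q)
  have he0 : 0 < e.natAbs := Int.natAbs_pos.2 he
  rw [← Finset.card_range e.natAbs]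
  refine Finset.card_le_card_of_injOn (fun m => m.val * e.natAbs / q) ?_ ?_
  · intro m _
    simp only [Finset.coe_range, Set.mem_Iio]
    rw [Nat.div_lt_iff_lt_mul hq0, mul_comm]
    exact Nat.mul_lt_mul_of_pos_left (ZMod.val_lt m) he0
  · intro m hm m' hm' heq
    simp only [coe_filter, mem_univ, true_and, Set.mem_setOf_eq] at hm hm'
    have h1 : (e : ZMod q) * m = (e : ZMod q) * m' := by
      have := hm.trans hm'.symm
      exact add_right_cancel this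
    have h2 : ((m.val * e.natAbs : ℕ) : ZMod q) = ((m'.val * e.natAbs : ℕ) : ZMod q) := by
      push_cast
      rw [ZMod.natCast_zmod_val, ZMod.natCast_zmod_val]
      rcases Int.natAbs_eq e with h3 | h3
      · have h4 : (e : ZMod q) = (e.natAbs : ZMod q) := by
          conv_lhs => rw [h3]
          rw [Int.cast_natCast]
        rw [← h4, mul_comm m, mul_comm m']
        exact h1
      · have h4 : (e : ZMod q) = -(e.natAbs : ZMod q) := by
          conv_lhs => rw [h3]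
          rw [Int.cast_neg, Int.cast_natCast]
        rw [h4, neg_mul, neg_mul, neg_inj] at h1
        rw [mul_comm m, mul_comm m']
        exact h1
    rw [ZMod.natCast_eq_natCast_iff] at h2
    have h3 : m.val * e.natAbs = m'.val * e.natAbs := by
      have h4 := Nat.div_add_mod (m.val * e.natAbs) q
      have h5 := Nat.div_add_mod (m'.val * e.natAbs) q
      have h6 : m.val * e.natAbs / q = m'.val * e.natAbs / q := heq
      have h7 : m.val * e.natAbs % q = m'.val * e.natAbs % q := h2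
      rw [← h4, ← h5, h6, h7]
    exact ZMod.val_injective q (Nat.eq_of_mul_eq_mul_right he0 h3)


end Pool.Agent.H9U
end

-- from Lib.HUK.DDefs
section

/-!
# Project HUK, module D: definitions and interfaces
-/

open Finset

namespace Pool.Agent.HUK

open Pool.Agent.H44W (ee)
open Pool.Agent.Lib.H68T (lp Lk)
open Pool.Agent.H9U (JJ cutJ Er Rgm Sys iv)
open Pool.Agent.Lib.H59P (bx)

noncomputable section

/-- `f` is supported in `[-X, X)`. -/
def Spt (X : ℕ) (f : ℤ → ℂ) : Prop := ∀ y, y ∉ Ico (-(X : ℤ)) X → f y = 0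

/-- A weight which on `|h| < 2X` is a combination of phases with coefficients of total size at most `1`. -/
def PhW (X : ℕ) (W : ℤ → ℂ) : Prop := ∃ (n : ℕ) (c : ℕ → ℂ) (θ : ℕ → ℝ), ∑ i ∈ range n, ‖c i‖ ≤ 1 ∧
  ∀ h ∈ Ioo (-(2 * X : ℤ)) (2 * X), W h = ∑ i ∈ range n, c i * ee (θ i * h)

/-- **Interface**: primitive characters have small `U^s` norm (with absolute values over the differences). -/
def UCH (s : ℕ) : Prop := ∃ C c : ℝ, 0 < C ∧ 0 < c ∧ c ≤ 1 ∧ ∀ (q : ℕ) [NeZero q] (χ : DirichletCharacter ℂ q),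
  χ.IsPrimitive → ∑ h : Fin s → ZMod q, ‖∑ y : ZMod q, DL (List.ofFn h) (fun y => χ y) y‖ ≤
    C * (q : ℝ) ^ ((s : ℝ) + 1 - c)



end

end Pool.Agent.HUK
end

-- from Lib.HUK.KA14
section

/-!
# Project HUK, chunk KA14 (S/M): the interface `UCH s`
-/

open Finset

namespace Pool.Agent.HUK

/-- Proof. `s = n + 1`; `C'`, `e'` from `KA13_u n`. Cauchy-Schwarz: `(∑_h ‖∑_y ..‖)² ≤ q^s ∑_h ‖∑_y ..‖²`, and by `KA10_sq`
`∑_{h : Fin s → ZMod q} ‖∑_y DL (List.ofFn h) χ y‖² = q^(s+2) uG (s+1) χ ≤ q^(s+2) C' q^(-e')`. So the sum is at most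
`q^(s+1) (C')^(1/2) q^(-e'/2)`: `C = C'^(1/2)`, `c = e'/2`. -/
theorem UCH_all (s : ℕ) (hs : 1 ≤ s) : UCH s := by
  obtain ⟨n, rfl⟩ : ∃ n, s = n + 1 := ⟨s - 1, by omega⟩
  obtain ⟨C', e', hC, he, he1, h⟩ := KA13_u n
  refine ⟨Real.sqrt C', e' / 2, Real.sqrt_pos.2 hC, by linarith, by linarith, ?_⟩
  intro q _ χ hχ
  have hu := h q χ hχ
  have hq : (0 : ℝ) < q := Nat.cast_pos.2 (NeZero.pos q)
  have h1 : uG (n + 2) (fun y => χ y) =
      (∑ t : Fin (n + 1) → ZMod q, ‖∑ y, DL (List.ofFn t) (fun y => χ y) y‖ ^ 2) / (q : ℝ) ^ (n + 3) := by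
    unfold uG
    rw [KA10_sq (n + 1) (fun y => χ y), Complex.ofReal_re]
  rw [h1, div_le_iff₀ (pow_pos hq _)] at hu
  have h3 : (∑ t : Fin (n + 1) → ZMod q, ‖∑ y, DL (List.ofFn t) (fun y => χ y) y‖) ^ 2 ≤
      (q : ℝ) ^ (n + 1) * ∑ t : Fin (n + 1) → ZMod q, ‖∑ y, DL (List.ofFn t) (fun y => χ y) y‖ ^ 2 := by
    have h4 := sq_sum_le_card_mul_sum_sq (s := (univ : Finset (Fin (n + 1) → ZMod q)))
      (f := fun t => ‖∑ y, DL (List.ofFn t) (fun y => χ y) y‖)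
    have h5 : ((univ : Finset (Fin (n + 1) → ZMod q)).card : ℝ) = (q : ℝ) ^ (n + 1) := by
      rw [card_univ, Fintype.card_fun, ZMod.card, Fintype.card_fin, Nat.cast_pow]
    rw [h5] at h4
    exact h4
  have h6 : (q : ℝ) ^ (n + 1) * (C' * (q : ℝ) ^ (-e') * (q : ℝ) ^ (n + 3)) =
      (Real.sqrt C' * (q : ℝ) ^ (((n + 1 : ℕ) : ℝ) + 1 - e' / 2)) ^ 2 := by
    rw [mul_pow, Real.sq_sqrt hC.le, ← Real.rpow_natCast (_ ^ _) 2, ← Real.rpow_mul hq.le,
      ← Real.rpow_natCast (q : ℝ) (n + 1), ← Real.rpow_natCast (q : ℝ) (n + 3)]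
    rw [show (q : ℝ) ^ (((n + 1 : ℕ) : ℝ)) * (C' * (q : ℝ) ^ (-e') * (q : ℝ) ^ (((n + 3 : ℕ) : ℝ))) =
      C' * ((q : ℝ) ^ (((n + 1 : ℕ) : ℝ)) * (q : ℝ) ^ (-e') * (q : ℝ) ^ (((n + 3 : ℕ) : ℝ))) by ring,
      ← Real.rpow_add hq, ← Real.rpow_add hq]
    congr 2
    push_cast
    ring
  have h7 : (∑ t : Fin (n + 1) → ZMod q, ‖∑ y, DL (List.ofFn t) (fun y => χ y) y‖) ^ 2 ≤
      (Real.sqrt C' * (q : ℝ) ^ (((n + 1 : ℕ) : ℝ) + 1 - e' / 2)) ^ 2 := by
    rw [← h6]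
    exact h3.trans (mul_le_mul_of_nonneg_left hu (pow_pos hq _).le)
  exact le_of_sq_le_sq h7 (mul_nonneg (Real.sqrt_nonneg _) (Real.rpow_nonneg hq.le _))

end Pool.Agent.HUK
end

-- from Lib.HUK.KB11
section

/-!
# Project HUK, chunk KB11 (M): elimination of the functions `f j` on `ℤ × ℤ`
-/

open Finset

namespace Pool.Agent.HUK

open Pool.Agent.H9U (JJ)

private theorem kb11_mul {G H : Type*} [AddCommGroup G] [AddCommGroup H] (l : List (G × H)) (a : G → ℂ) (b : H → ℂ)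
    (z : G × H) :
    DL l (fun z => a z.1 * b z.2) z = DL (l.map Prod.fst) a z.1 * DL (l.map Prod.snd) b z.2 := by
  induction l generalizing a b with
  | nil => rfl
  | cons v l ih =>
    have h1 : DD v (fun z : G × H => a z.1 * b z.2) = fun z : G × H => DD v.1 a z.1 * DD v.2 b z.2 := by
      funext z
      unfold DD
      show a z.1 * b z.2 * (starRingEnd ℂ) (a (z.1 + v.1) * b (z.2 + v.2)) = _
      rw [map_mul]
      ring
    show DL l (DD v (fun z : G × H => a z.1 * b z.2)) z = _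
    rw [h1, ih (DD v.1 a) (DD v.2 b)]
    rfl

private theorem kb11_left (k B X : ℕ) (F : ℤ → ℂ) (f : ℕ → ℤ → ℂ) :
    ∑ z ∈ JJ X ×ˢ Ioo (-(2 * ((B * X : ℕ) : ℤ))) (2 * ((B * X : ℕ) : ℤ)),
      (∏ i : Fin k, f i (z.1 - lam k i * z.2)) *
        (F z.1 * (if z.2 ∈ Ioo (-(2 * ((B * X : ℕ) : ℤ))) (2 * ((B * X : ℕ) : ℤ)) then 1 else 0)) =
    ∑ n ∈ JJ X, F n * Psi (B * X) k f n := by
  rw [Finset.sum_product]
  refine Finset.sum_congr rfl fun d _ => ?_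
  unfold Psi
  rw [Finset.mul_sum]
  refine Finset.sum_congr rfl fun h hh => ?_
  simp only [hh, if_true, mul_one]
  rw [mul_comm, Finset.prod_range]
  rfl

private theorem kb11_card (k B X H : ℕ) (hHX : H ≤ X) :
    ((Ico (2 * (X : ℤ) - k * H) (2 * X + X / 4) ×ˢ
      Ioo (-(2 * ((B * X : ℕ) : ℤ)) - H) (2 * ((B * X : ℕ) : ℤ))).card : ℝ) ≤ (k + 1) * (4 * B + 1) * (X : ℝ) ^ 2 := by
  rw [Finset.card_product, Int.card_Ico, Int.card_Ioo]
  have hx4 : (X : ℤ) / 4 ≤ X := by omega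
  have h1 : ((2 * (X : ℤ) + X / 4) - (2 * (X : ℤ) - k * H)).toNat ≤ (k + 1) * X := by
    have h2 : (k : ℤ) * H ≤ k * X := by exact_mod_cast Nat.mul_le_mul_left k hHX
    exact Int.toNat_le.mpr (by push_cast; linarith)
  have h4 : (2 * ((B * X : ℕ) : ℤ) - (-(2 * ((B * X : ℕ) : ℤ)) - H) - 1).toNat ≤ (4 * B + 1) * X := by
    have h5 : (H : ℤ) ≤ X := by exact_mod_cast hHX
    exact Int.toNat_le.mpr (by push_cast; linarith)
  have h6 := Nat.mul_le_mul h1 h4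
  have h7 : ((((2 * (X : ℤ) + X / 4) - (2 * (X : ℤ) - k * H)).toNat *
      (2 * ((B * X : ℕ) : ℤ) - (-(2 * ((B * X : ℕ) : ℤ)) - H) - 1).toNat : ℕ) : ℝ) ≤
      (((k + 1) * X * ((4 * B + 1) * X) : ℕ) : ℝ) := by exact_mod_cast h6
  refine h7.trans (le_of_eq ?_)
  push_cast
  ring

private theorem kb11_right (k B X : ℕ) (F : ℤ → ℂ) (j : Fin k → ℤ) :
    ‖∑ z ∈ JJ X ×ˢ Ioo (-(2 * ((B * X : ℕ) : ℤ))) (2 * ((B * X : ℕ) : ℤ)),
      DL (List.ofFn fun i : Fin k => j i • ((lam k i, (1 : ℤ)) : ℤ × ℤ))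
        (fun z : ℤ × ℤ => F z.1 * (if z.2 ∈ Ioo (-(2 * ((B * X : ℕ) : ℤ))) (2 * ((B * X : ℕ) : ℤ)) then 1 else 0)) z‖ ≤
    ‖∑ n ∈ JJ X, DL (List.ofFn fun i => lam k i * j i) F n‖ * (4 * B * X) := by
  have hb := fun z : ℤ × ℤ => kb11_mul (List.ofFn fun i : Fin k => j i • ((lam k i, (1 : ℤ)) : ℤ × ℤ))
    F (fun h => if h ∈ Ioo (-(2 * ((B * X : ℕ) : ℤ))) (2 * ((B * X : ℕ) : ℤ)) then (1 : ℂ) else 0) z
  rw [Finset.sum_congr rfl fun z _ => hb z, Finset.sum_product]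
  simp only [List.map_ofFn]
  rw [← Finset.sum_mul_sum, norm_mul]
  refine mul_le_mul ?_ ?_ (norm_nonneg _) (norm_nonneg _)
  · have h1 : (Prod.fst ∘ fun i : Fin k => j i • ((lam k i, (1 : ℤ)) : ℤ × ℤ)) = fun i => lam k i * j i := by
      funext i
      simp [mul_comm]
    rw [h1]
  · refine (norm_sum_le _ _).trans ?_
    refine (Finset.sum_le_sum fun h _ => DL_norm _ _ (fun y => ?_) h).trans ?_
    · by_cases hy : y ∈ Ioo (-(2 * ((B * X : ℕ) : ℤ))) (2 * ((B * X : ℕ) : ℤ))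
      · rw [if_pos hy, norm_one]
      · rw [if_neg hy, norm_zero]
        exact zero_le_one
    · rw [Finset.sum_const, nsmul_eq_mul, mul_one, Int.card_Ioo]
      have h2 : (2 * ((B * X : ℕ) : ℤ) - -(2 * ((B * X : ℕ) : ℤ)) - 1).toNat ≤ 4 * B * X :=
        Int.toNat_le.mpr (by push_cast; linarith)
      have h3 : (((2 * ((B * X : ℕ) : ℤ) - -(2 * ((B * X : ℕ) : ℤ)) - 1).toNat : ℕ) : ℝ) ≤ ((4 * B * X : ℕ) : ℝ) := by
        exact_mod_cast h2
      refine h3.trans (le_of_eq ?_)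
      push_cast
      ring

/-- Proof. `E1_elim` with `G = ℤ × ℤ`, `r = k`, `I = Ioo (-(2 B X)) (2 B X)`, `B = JJ X ×ˢ I`, `B' = Ico (2 X - k H) (2 X + X / 4) ×ˢ Ioo (-(2 B X) - H) (2 B X)`,
`N = (k + 1) (4 B + 1) X²` (`card B' ≤ (X/4 + k H) (4 B X + H)`, `H ≤ X`), `v i = (lam k i, 1)`, `g i (n, h) = f i (n - lam k i * h)`,
`c (n, h) = F n` if `h ∈ I` (and `n ∈ JJ X`), else `0`. The sum on the left side is `∑_{n ∈ JJ X} F n * Psi (B * X) k f n` (`Finset.sum_product`,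
`Finset.prod_range`, `Psi` is a sum over `h ∈ I`). `DL_prod` (`P0.lean`): `vt ω (fun i => j i • v i) = (vl ω j, vt ω j)`, so
`DL (..) c (n, h) = DL (List.ofFn fun i => lam k i * j i) F n * χ(h)`, where `χ(h) = ∏_ω cj (sg ω) (1_I (h + vt ω j))` is `0` or `1`; so the sum over `B` is a product and its
norm is at most `4 B X ‖∑_{n ∈ JJ X} DL .. F n‖`, and `4 B X / N ≤ 1 / X`. So `(‖..‖ / N)^(2^k) ≤ 2^(2^k) / H^k * (1/X) * ∑_j ‖..‖`; multiply by
`N^(2^k)`. -/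
theorem KB11_elim (k B X H : ℕ) (hX : 1 ≤ X) (hH : 1 ≤ H) (hHX : H ≤ X) (F : ℤ → ℂ) (hF : ∀ m, m ∉ JJ X → F m = 0)
    (f : ℕ → ℤ → ℂ) (hf : ∀ j, j < k → ∀ y, ‖f j y‖ ≤ 1) :
    ‖∑ n ∈ JJ X, F n * Psi (B * X) k f n‖ ^ (2 ^ k) ≤ (2 * (k + 1) * (4 * B + 1) * (X : ℝ) ^ 2) ^ (2 ^ k) *
      ((∑ j ∈ bxS k H, ‖∑ n ∈ JJ X, DL (List.ofFn fun i => lam k i * j i) F n‖) / ((H : ℝ) ^ k * X)) := by
  have hX' : (0 : ℝ) < X := by exact_mod_cast hX
  have hH' : (0 : ℝ) < H := by exact_mod_cast hH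
  have hk' : (0 : ℝ) ≤ k := Nat.cast_nonneg k
  have hB' : (0 : ℝ) ≤ B := Nat.cast_nonneg B
  obtain ⟨N, hN⟩ : ∃ N : ℝ, N = (k + 1) * (4 * B + 1) * (X : ℝ) ^ 2 := ⟨_, rfl⟩
  have hN0 : 0 < N := by rw [hN]; positivity
  have hE := E1_elim (G := ℤ × ℤ) (JJ X ×ˢ Ioo (-(2 * ((B * X : ℕ) : ℤ))) (2 * ((B * X : ℕ) : ℤ)))
    (Ico (2 * (X : ℤ) - k * H) (2 * X + X / 4) ×ˢ Ioo (-(2 * ((B * X : ℕ) : ℤ)) - H) (2 * ((B * X : ℕ) : ℤ))) N
    (by rw [hN]; exact kb11_card k B X H hHX) hN0 H hH k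
    (fun i => (lam k i, (1 : ℤ))) (fun i z => f i (z.1 - lam k i * z.2))
    (fun z => F z.1 * (if z.2 ∈ Ioo (-(2 * ((B * X : ℕ) : ℤ))) (2 * ((B * X : ℕ) : ℤ)) then 1 else 0))
    (fun i z => hf i i.2 _)
    (fun i z => by
      simp only [Prod.fst_add, Prod.snd_add]
      congr 1
      ring)
    (fun z hz => by
      rw [Finset.mem_product, not_and_or] at hz
      rcases hz with hz | hz
      · rw [hF z.1 hz, zero_mul]
      · rw [if_neg hz, mul_zero])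
    (fun i z h hh hz => by
      have s1 : (h • ((lam k i, (1 : ℤ)) : ℤ × ℤ)).1 = h * lam k i := by
        rw [Prod.smul_fst, nsmul_eq_mul]
      have s2 : (h • ((lam k i, (1 : ℤ)) : ℤ × ℤ)).2 = h := by
        rw [Prod.smul_snd, nsmul_eq_mul, mul_one]
      unfold JJ at hz
      rw [Finset.mem_product, Finset.mem_Ico, Finset.mem_Ioo] at hz ⊢
      rw [Prod.fst_add, Prod.snd_add, s1, s2] at hz
      have hi1 : (i : ℤ) < k := by exact_mod_cast i.2
      have hi0 : (0 : ℤ) ≤ (i : ℕ) := by positivity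
      have hl1 : (0 : ℤ) ≤ lam k i := by
        unfold lam
        linarith
      have hl2 : lam k i ≤ (k : ℤ) := by
        unfold lam
        linarith
      have hh0 : (0 : ℤ) ≤ h := by positivity
      have hhH : (h : ℤ) ≤ H := by exact_mod_cast hh.le
      have e1 : (0 : ℤ) ≤ h * lam k i := mul_nonneg hh0 hl1
      have e2 : (h : ℤ) * lam k i ≤ k * H := by
        calc (h : ℤ) * lam k i ≤ H * k := mul_le_mul hhH hl2 hl1 (by positivity)
          _ = k * H := mul_comm _ _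
      refine ⟨⟨by linarith [hz.1.1], by linarith [hz.1.2]⟩, ⟨by linarith [hz.2.1], by linarith [hz.2.2]⟩⟩)
  rw [kb11_left] at hE
  obtain ⟨S, hS⟩ : ∃ S : ℝ, S = ‖∑ n ∈ JJ X, F n * Psi (B * X) k f n‖ := ⟨_, rfl⟩
  obtain ⟨T, hT⟩ : ∃ T : (Fin k → ℤ) → ℝ, ∀ j, T j = ‖∑ n ∈ JJ X, DL (List.ofFn fun i => lam k i * j i) F n‖ :=
    ⟨_, fun _ => rfl⟩
  rw [← hS] at hE ⊢
  have hT0 : 0 ≤ ∑ j ∈ bxS k H, T j := Finset.sum_nonneg fun j _ => by rw [hT]; positivity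
  have hR : (S / N) ^ (2 ^ k) ≤ 2 ^ (2 ^ k) / (H : ℝ) ^ k * ((∑ j ∈ bxS k H, T j) * (4 * B * X) / N) := by
    refine hE.trans (mul_le_mul_of_nonneg_left ?_ (by positivity))
    rw [Finset.sum_mul, Finset.sum_div]
    refine Finset.sum_le_sum fun j _ => ?_
    rw [hT]
    exact div_le_div_of_nonneg_right (kb11_right k B X F j) hN0.le
  have hq : (∑ j ∈ bxS k H, T j) * (4 * B * X) / N ≤ (∑ j ∈ bxS k H, T j) / X := by
    rw [div_le_div_iff₀ hN0 hX', mul_assoc]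
    refine mul_le_mul_of_nonneg_left ?_ hT0
    rw [hN]
    have h1 : 0 ≤ (k : ℝ) * (4 * B + 1) * (X : ℝ) ^ 2 := by positivity
    have h2 : 0 ≤ (X : ℝ) ^ 2 := by positivity
    nlinarith
  have hSN : S ^ (2 ^ k) = (S / N) ^ (2 ^ k) * N ^ (2 ^ k) := by
    rw [div_pow, div_mul_cancel₀]
    positivity
  have hsum : ∑ j ∈ bxS k H, ‖∑ n ∈ JJ X, DL (List.ofFn fun i => lam k i * j i) F n‖ = ∑ j ∈ bxS k H, T j :=
    Finset.sum_congr rfl fun j _ => (hT j).symm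
  rw [hSN, hsum]
  calc (S / N) ^ (2 ^ k) * N ^ (2 ^ k) ≤
      2 ^ (2 ^ k) / (H : ℝ) ^ k * ((∑ j ∈ bxS k H, T j) / X) * N ^ (2 ^ k) :=
        mul_le_mul_of_nonneg_right (hR.trans (mul_le_mul_of_nonneg_left hq (by positivity))) (by positivity)
    _ = (2 * N) ^ (2 ^ k) * ((∑ j ∈ bxS k H, T j) / ((H : ℝ) ^ k * X)) := by
        rw [mul_pow]
        field_simp
    _ = _ := by
        rw [hN, ← mul_assoc, ← mul_assoc]

end Pool.Agent.HUK
end

-- from Lib.HUK.BH0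
section

/-!
# Project HUK, module B, Heath-Brown part: definitions (helper68)

`N = 2 k X`. All arithmetic functions are real (`H81A/Defs`: `af f` has the values `f n` for `n ≥ 1`, `muV z`, `one1`, `logf`).
-/

open Finset

namespace Pool.Agent.HUK

open Pool.Agent.Lib.H81A (af muV one1 logf)

noncomputable section

/-- The functional `∑_{n ≤ 2kX} F(n) Ψ(n)`. -/
def LF (X k : ℕ) (f : ℕ → ℤ → ℂ) (F : ArithmeticFunction ℝ) : ℂ :=
  ∑ n ∈ Icc 1 (2 * k * X), ((F n : ℝ) : ℂ) * Psi X k f (n : ℤ)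

/-- `F` is bounded by `B` on `1, …, N`. -/
def BN (N : ℕ) (B : ℝ) (F : ArithmeticFunction ℝ) : Prop := ∀ n : ℕ, 1 ≤ n → n ≤ N → |F n| ≤ B

/-- On `1, …, N` the function `F` is supported on `n ≤ Y`. -/
def SP (N : ℕ) (Y : ℝ) (F : ArithmeticFunction ℝ) : Prop := ∀ n : ℕ, 1 ≤ n → n ≤ N → F n ≠ 0 → (n : ℝ) ≤ Y

/-- At most `W` divisors for `1 ≤ n ≤ N`. -/
def TW (N : ℕ) (W : ℝ) : Prop := 1 ≤ W ∧ ∀ n : ℕ, 1 ≤ n → n ≤ N → (n.divisors.card : ℝ) ≤ W

/-- The part of `F` on `n ≤ T`. -/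
def lowT (T : ℝ) (F : ArithmeticFunction ℝ) : ArithmeticFunction ℝ := af fun n => if (n : ℝ) ≤ T then F n else 0

/-- The part of `F` on `n > T`. -/
def highT (T : ℝ) (F : ArithmeticFunction ℝ) : ArithmeticFunction ℝ := af fun n => if (n : ℝ) ≤ T then 0 else F n

/-- `s` -/
def fS (A D : ℕ) : ArithmeticFunction ℝ := af (sml A D)
/-- `u` -/
def fU (A : ℕ) : ArithmeticFunction ℝ := af (uu A)
/-- `v` -/
def fV (A D : ℕ) : ArithmeticFunction ℝ := af (vv A D)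
/-- `η` -/
def fE (A D : ℕ) : ArithmeticFunction ℝ := af (eta A D)
/-- `s log` -/
def fSL (A D : ℕ) : ArithmeticFunction ℝ := af fun n => sml A D n * Real.log n
/-- `u log` -/
def fUL (A : ℕ) : ArithmeticFunction ℝ := af fun n => uu A n * Real.log n
/-- `v log` -/
def fVL (A D : ℕ) : ArithmeticFunction ℝ := af fun n => vv A D n * Real.log n
/-- `η log` -/
def fEL (A D : ℕ) : ArithmeticFunction ℝ := af fun n => eta A D n * Real.log n

/-- What is known about the functional: type II with prime factor `u` or `u log`, the error `η`, and type II with a factor in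
`(T, T Y]`, each for coefficients bounded by `B`. -/
structure Hyp (X k : ℕ) (f : ℕ → ℤ → ℂ) (A D : ℕ) (T Y B E : ℝ) : Prop where
  u : ∀ G, BN (2 * k * X) B G → ‖LF X k f (fU A * G)‖ ≤ E
  ul : ∀ G, BN (2 * k * X) B G → ‖LF X k f (fUL A * G)‖ ≤ E
  e : ∀ G, BN (2 * k * X) B G → ‖LF X k f (G * fE A D)‖ ≤ E
  el : ∀ G, BN (2 * k * X) B G → ‖LF X k f (G * fEL A D)‖ ≤ E
  t2 : ∀ F G, BN (2 * k * X) B F → BN (2 * k * X) B G →
    (∀ n : ℕ, 1 ≤ n → n ≤ 2 * k * X → F n ≠ 0 → T < n ∧ (n : ℝ) ≤ T * Y) → ‖LF X k f (F * G)‖ ≤ E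

/-- The sizes and supports of the factors. -/
structure Siz (N : ℕ) (A D z : ℕ) (Y M W : ℝ) : Prop where
  M1 : 1 ≤ M
  tw : TW N W
  mu : BN N M (muV z) ∧ SP N Y (muV z)
  s : BN N M (fS A D) ∧ SP N Y (fS A D)
  sl : BN N M (fSL A D) ∧ SP N Y (fSL A D)
  v : BN N M (fV A D)
  vl : BN N M (fVL A D)
  one : BN N M one1
  log : BN N M logf
  S : 0 < SA A

end

end Pool.Agent.HUK
end

-- from Lib.HUK.BH1
section

/-!
# HUK, chunk BH1 (M): the functional `LF` and Dirichlet convolutions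
-/

open Finset

namespace Pool.Agent.HUK

open Pool.Agent.Lib.H81A (af muV one1 logf)

/-- Proof. Support: `k ≥ 2`, so `j = k - 1` and `j = k - 2` are in `range k`, with the forms `n - h` and `n - 2h`; if both factors are non-zero then
`n - h, n - 2h ∈ [-X, X)` and `n = 2 (n - h) - (n - 2h) < 2 X + X = 3 X`. So for `n ≥ 3X` every product over `range k` has a vanishing factor
(`Finset.prod_eq_zero`). -/
theorem psi_zero (X k : ℕ) (hk : 2 ≤ k) (f : ℕ → ℤ → ℂ) (hf : ∀ j, j < k → Bdd X (f j)) (n : ℤ) (hn : 3 * (X : ℤ) ≤ n) :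
    Psi X k f n = 0 := by
  unfold Psi
  refine Finset.sum_eq_zero fun h hh => ?_
  refine Finset.prod_eq_zero (mem_range.mpr (by omega : k - 1 < k)) ?_
  apply (hf (k - 1) (by omega)).sup
  rw [mem_Ioo] at hh
  rw [mem_Ico]
  have h1 : ((k - 1 : ℕ) : ℤ) = (k : ℤ) - 1 := by omega
  rw [h1]
  intro h2
  have h3 : ((k : ℤ) - (k - 1)) * h = h := by ring
  rw [h3] at h2
  omega

/-- Proof. `card (Ioo (-2X) (2X)) ≤ 4X`, every factor has norm at most `1` (`Finset.prod_le_one`). -/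
theorem psi_bd (X k : ℕ) (f : ℕ → ℤ → ℂ) (hf : ∀ j, j < k → Bdd X (f j)) (n : ℤ) : ‖Psi X k f n‖ ≤ 4 * X := by
  unfold Psi
  refine (norm_sum_le _ _).trans ?_
  have h1 : ∀ h ∈ Ioo (-(2 * X : ℤ)) (2 * X), ‖∏ j ∈ range k, f j (n - ((k : ℤ) - j) * h)‖ ≤ 1 := by
    intro h _
    rw [norm_prod]
    exact Finset.prod_le_one (fun _ _ => norm_nonneg _) fun j hj => (hf j (mem_range.mp hj)).le _
  refine (Finset.sum_le_sum h1).trans ?_
  rw [Finset.sum_const, nsmul_eq_mul, mul_one, Int.card_Ioo]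
  have h2 : (2 * (X : ℤ) - -(2 * (X : ℤ)) - 1).toNat ≤ 4 * X := by omega
  exact_mod_cast h2

/-- Additivity. -/
theorem LF_add (X k : ℕ) (f : ℕ → ℤ → ℂ) (F G : ArithmeticFunction ℝ) : LF X k f (F + G) = LF X k f F + LF X k f G := by
  unfold LF
  rw [← Finset.sum_add_distrib]
  refine Finset.sum_congr rfl fun n _ => ?_
  rw [ArithmeticFunction.add_apply]
  push_cast
  ring

/-- Finite sums (`Finset.sum_induction` or induction with `LF_add`; `LF X k f 0 = 0`). -/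
theorem LF_sum {ι : Type*} (s : Finset ι) (X k : ℕ) (f : ℕ → ℤ → ℂ) (F : ι → ArithmeticFunction ℝ) :
    LF X k f (∑ i ∈ s, F i) = ∑ i ∈ s, LF X k f (F i) := by
  exact map_sum (AddMonoidHom.mk' (LF X k f) (LF_add X k f)) F s

/-- **Convolutions.** Proof. `N = 2 k X ≥ 3 X` (`k ≥ 2`: `2 k X ≥ 4 X`). `(F * G) n = ∑ x ∈ n.divisorsAntidiagonal, F x.1 * G x.2`. The right side is a sum over pairs
`(a, b) ∈ Icc 1 N ×ˢ Icc 1 N`; the pairs with `a b > N` give `0` by `psi_zero`; the others are in bijection with the pairs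
`(n, x)`, `n ∈ Icc 1 N`, `x ∈ n.divisorsAntidiagonal` (`Finset.sum_sigma'`, `Finset.sum_bij'` / `Finset.sum_fiberwise_of_maps_to` for the map
`(a, b) ↦ a b`). -/
theorem LF_mul (X k : ℕ) (hk : 2 ≤ k) (f : ℕ → ℤ → ℂ) (hf : ∀ j, j < k → Bdd X (f j)) (F G : ArithmeticFunction ℝ) :
    LF X k f (F * G) = ∑ a ∈ Icc 1 (2 * k * X), ∑ b ∈ Icc 1 (2 * k * X),
      ((F a : ℝ) : ℂ) * ((G b : ℝ) : ℂ) * Psi X k f ((a : ℤ) * b) := by
  classical
  set N := 2 * k * X with hN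
  set g : ℕ × ℕ → ℂ := fun x => ((F x.1 : ℝ) : ℂ) * ((G x.2 : ℝ) : ℂ) * Psi X k f ((x.1 : ℤ) * x.2) with hg
  have h1 : LF X k f (F * G) = ∑ n ∈ Icc 1 N, ∑ x ∈ (Icc 1 N ×ˢ Icc 1 N).filter (fun x => x.1 * x.2 = n), g x := by
    unfold LF
    refine Finset.sum_congr rfl fun n hn => ?_
    rw [mem_Icc] at hn
    have h2 : (Icc 1 N ×ˢ Icc 1 N).filter (fun x => x.1 * x.2 = n) = n.divisorsAntidiagonal := by
      ext x
      rw [mem_filter, mem_product, Nat.mem_divisorsAntidiagonal, mem_Icc, mem_Icc]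
      constructor
      · rintro ⟨_, h3⟩
        exact ⟨h3, by omega⟩
      · rintro ⟨h3, h4⟩
        have h5 : x.1 ≠ 0 := by rintro h; rw [h, zero_mul] at h3; omega
        have h6 : x.2 ≠ 0 := by rintro h; rw [h, mul_zero] at h3; omega
        have h7 : x.1 ≤ n := by rw [← h3]; exact Nat.le_mul_of_pos_right _ (Nat.pos_of_ne_zero h6)
        have h8 : x.2 ≤ n := by rw [← h3]; exact Nat.le_mul_of_pos_left _ (Nat.pos_of_ne_zero h5)
        exact ⟨⟨⟨by omega, by omega⟩, ⟨by omega, by omega⟩⟩, h3⟩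
    rw [h2, ArithmeticFunction.mul_apply, Complex.ofReal_sum, Finset.sum_mul]
    refine Finset.sum_congr rfl fun x hx => ?_
    rw [Nat.mem_divisorsAntidiagonal] at hx
    rw [hg]
    simp only
    rw [← hx.1]
    push_cast
    ring
  rw [h1]
  have h3 : ∑ a ∈ Icc 1 N, ∑ b ∈ Icc 1 N, ((F a : ℝ) : ℂ) * ((G b : ℝ) : ℂ) * Psi X k f ((a : ℤ) * b) =
      ∑ x ∈ Icc 1 N ×ˢ Icc 1 N, g x := by
    rw [Finset.sum_product]
  rw [h3]
  have h4 : ∑ x ∈ Icc 1 N ×ˢ Icc 1 N, g x = ∑ x ∈ (Icc 1 N ×ˢ Icc 1 N).filter (fun x => x.1 * x.2 ∈ Icc 1 N), g x := by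
    symm
    refine Finset.sum_subset (Finset.filter_subset _ _) fun x hx hx' => ?_
    rw [mem_filter, not_and] at hx'
    have h5 := hx' hx
    rw [mem_product, mem_Icc, mem_Icc] at hx
    rw [mem_Icc, not_and, not_le] at h5
    have h6 : 1 ≤ x.1 * x.2 := Nat.one_le_iff_ne_zero.mpr (Nat.mul_ne_zero (by omega) (by omega))
    have h7 := h5 h6
    rw [hg]
    simp only
    rw [psi_zero X k hk f hf, mul_zero]
    have h8 : 3 * X ≤ x.1 * x.2 := by nlinarith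
    exact_mod_cast h8
  rw [h4, ← Finset.sum_fiberwise_of_maps_to (g := fun x : ℕ × ℕ => x.1 * x.2) (t := Icc 1 N)
    (fun x hx => (mem_filter.mp hx).2)]
  refine Finset.sum_congr rfl fun n hn => ?_
  refine Finset.sum_congr ?_ fun _ _ => rfl
  ext x
  rw [mem_filter, mem_filter, mem_filter]
  constructor
  · rintro ⟨h5, h6⟩
    exact ⟨⟨h5, by rw [h6]; exact hn⟩, h6⟩
  · rintro ⟨⟨h5, _⟩, h6⟩
    exact ⟨h5, h6⟩

/-- **Trivial bound.** Proof. At most `T` numbers `1 ≤ n ≤ T`; each term is at most `B * (4 X)` (`psi_bd`). (Sum over the filter `F n ≠ 0`, which is contained in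
`Icc 1 ⌊T⌋₊`.) -/
theorem LF_triv (X k : ℕ) (f : ℕ → ℤ → ℂ) (hf : ∀ j, j < k → Bdd X (f j)) (F : ArithmeticFunction ℝ) (T B : ℝ) (hT : 0 ≤ T)
    (hB : BN (2 * k * X) B F) (hB0 : 0 ≤ B) (hs : SP (2 * k * X) T F) : ‖LF X k f F‖ ≤ T * B * (4 * X) := by
  classical
  have h1 : LF X k f F = ∑ n ∈ (Icc 1 (2 * k * X)).filter (fun n => F n ≠ 0), ((F n : ℝ) : ℂ) * Psi X k f (n : ℤ) := by
    unfold LF
    symm
    refine Finset.sum_subset (Finset.filter_subset _ _) fun n hn hn' => ?_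
    rw [mem_filter, not_and, not_not] at hn'
    rw [hn' hn, Complex.ofReal_zero, zero_mul]
  rw [h1]
  refine (norm_sum_le _ _).trans ?_
  have h2 : ∀ n ∈ (Icc 1 (2 * k * X)).filter (fun n => F n ≠ 0), ‖((F n : ℝ) : ℂ) * Psi X k f (n : ℤ)‖ ≤ B * (4 * X) := by
    intro n hn
    rw [mem_filter, mem_Icc] at hn
    rw [norm_mul, Complex.norm_real, Real.norm_eq_abs]
    exact mul_le_mul (hB n hn.1.1 hn.1.2) (psi_bd X k f hf n) (norm_nonneg _) hB0
  refine (Finset.sum_le_sum h2).trans ?_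
  rw [Finset.sum_const, nsmul_eq_mul, mul_assoc T B (4 * (X : ℝ))]
  refine mul_le_mul_of_nonneg_right ?_ (mul_nonneg hB0 (by positivity))
  have h3 : (Icc 1 (2 * k * X)).filter (fun n => F n ≠ 0) ⊆ Icc 1 ⌊T⌋₊ := by
    intro n hn
    rw [mem_filter, mem_Icc] at hn
    rw [mem_Icc]
    exact ⟨hn.1.1, Nat.le_floor (hs n hn.1.1 hn.1.2 hn.2)⟩
  have h4 := Finset.card_le_card h3
  rw [Nat.card_Icc, Nat.add_sub_cancel] at h4
  exact (Nat.cast_le.mpr h4).trans (Nat.floor_le hT)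

end Pool.Agent.HUK
end

-- from Lib.HUK.BH3
section

/-!
# HUK, chunk BH3 (S/M): the algebra of one term of Heath-Brown's identity, ONLY MATHLIB
-/

open Finset

namespace Pool.Agent.HUK

/-- Proof. `o - s = u v + e`, `o ^ j = s ^ j + (∑ i ∈ range j, s ^ i * o ^ (j - 1 - i)) * (o - s)` (`geom_sum₂_mul` or `Commute.geom_sum₂_mul` with the roles of
`s, o` exchanged), insert it in `m * o ^ j * L`, and `L = sl + ul v + u vl + el` in the term with `s ^ j`. -/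
theorem bh_alg {R : Type*} [CommRing R] (m s o u v e L sl ul vl el : R) (j : ℕ) (ho : o = s + u * v + e)
    (hL : L = sl + ul * v + u * vl + el) :
    m * o ^ j * L = m * s ^ j * sl + ul * (m * s ^ j * v) + u * (m * s ^ j * vl) + m * s ^ j * el
      + ∑ i ∈ range j, (u * (m * s ^ i * o ^ (j - 1 - i) * L * v) + m * s ^ i * o ^ (j - 1 - i) * L * e) := by
  have h := geom_sum₂_mul s o j
  have h2 : s - o = -(u * v + e) := by
    rw [ho]
    ring
  rw [h2] at h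
  have h3 : ∑ i ∈ range j, (u * (m * s ^ i * o ^ (j - 1 - i) * L * v) + m * s ^ i * o ^ (j - 1 - i) * L * e) =
      m * L * (u * v + e) * ∑ i ∈ range j, s ^ i * o ^ (j - 1 - i) := by
    rw [Finset.mul_sum]
    refine Finset.sum_congr rfl fun i _ => ?_
    ring
  rw [h3]
  have h4 : m * s ^ j * L = m * s ^ j * sl + ul * (m * s ^ j * v) + u * (m * s ^ j * vl) + m * s ^ j * el := by
    rw [hL]
    ring
  linear_combination (m * L) * h + h4

end Pool.Agent.HUK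
end
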