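import Pool.Agent.Lib.H59M.M2.M044
import Pool.Agent.Lib.H59M.M2.M098

/-! Merged copies (to shorten the build) of Lib.H9U.U0A, Lib.H9U.U0B, Lib.H9U.U1B, Lib.H9U.U2, Lib.H9U.U3. -/

-- from Lib.H9U.U0A
section

/-!
# H9U, chunk U0A (S/M): the projection of small level as a sum over characters, and its size
-/

open Finset

namespace Pool.Agent.H9U

open Pool.Agent.H44W (ee)
open Pool.Agent.H9S (Bd lc Lc BF Sx Sy)
open Pool.Agent.Lib.H68T (lp Lk PC p0 dQ)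
open Pool.Agent.Lib.H18Q (gk KS Bc RegP SG)
open Pool.Agent.Lib.H59P (Ch)

/-- Proof. This is `hB` in the proof of `UL_expand` (`H59T/UL.lean`): `DA_expand Q' X (X / Q ^ 2) m` (regime as there), coefficients `Bc Q X p m`
(definition of `Bc`, window `X / Q ^ 2`). `SG Q' b m` is `∑ p ∈ PC Q', Gam Q' p.1 m * conj (χ m) * b p`. -/
theorem Lk_two : ∃ K : ℝ, 1 ≤ K ∧ ∀ Q Q' X : ℕ, RegP K Q X → 1 ≤ Q' → Q' ≤ Q → ∀ m : ℤ,
    (X : ℤ) ≤ m → m ≤ 4 * X → ((Lk Q' (X / Q ^ 2) m : ℝ) : ℂ) = SG Q' (fun p => Bc Q X p m) m := by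
  obtain ⟨K1, hK1, h1⟩ := Pool.Agent.Lib.H18Q.BPS_regimeP
  obtain ⟨K2, hK2, h2⟩ := Pool.Agent.Lib.H18Q.regp_pow_le 2 1 1 one_pos
  refine ⟨max K1 K2, hK1.trans (le_max_left _ _), fun Q Q' X hreg hQ'1 hQ'Q m hm hm4 => ?_⟩
  have hK0 : 0 ≤ max K1 K2 := by linarith [le_max_left K1 K2]
  obtain ⟨hQ, hX, hY, hYX, hXY, -⟩ := h1 Q X (hreg.mono hK0 (le_max_left _ _))
  have hlog := h2 Q X (hreg.mono hK0 (le_max_right _ _))
  rw [Real.rpow_one, Real.rpow_one] at hlog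
  have h3 : 2 * Q ≤ X := by exact_mod_cast hlog
  unfold SG Bc
  exact Pool.Agent.Lib.H68T.DA_expand Q' X (X / Q ^ 2) m hm hm4 (by omega) (by omega)

/-- Proof. As `BDL_bd` (`H9S/BDL.lean`): `Lk_two`, `S1b Q'` (`H59P/S1B.lean`) with the coefficients `Bc Q X p m`, `p ∈ PC Q' ⊆ PC Q`, bounded by
`mb p` (`UM_mass`, total at most `C`; the sum over the subset `PC Q'` is at most the sum over `PC Q`), `dQ Q' m ≤` number of divisors
(`BDL_dQ`), divisor bound, `m ≤ 4 X`, `Q' ≤ Q ≤ X` (`RegP`). -/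
theorem U0_size : ∃ K : ℝ, 1 ≤ K ∧ ∀ ε : ℝ, 0 < ε → ∃ X0 : ℕ, ∀ Q Q' X : ℕ, X0 ≤ X → RegP K Q X → 1 ≤ Q' →
    Q' ≤ Q → ∀ m : ℤ, (X : ℤ) ≤ m → m ≤ 4 * X → |Lk Q' (X / Q ^ 2) m| ≤ (X : ℝ) ^ ε := by
  obtain ⟨K1, C1, hK1, hC1, hmass⟩ := Pool.Agent.Lib.H59T.UM_mass
  obtain ⟨K2, hK2, hSG⟩ := Lk_two
  obtain ⟨K3, hK3, hpow⟩ := Pool.Agent.Lib.H18Q.regp_pow_le 1 1 1 one_pos
  refine ⟨max (max K1 K2) K3, hK1.trans ((le_max_left _ _).trans (le_max_left _ _)), fun ε hε => ?_⟩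
  obtain ⟨C, hC, hdiv⟩ := Pool.Agent.Lib.H21AP.divisor_bound (ε := ε / 2) (by positivity)
  obtain ⟨c3, hc3⟩ : ∃ c3 : ℝ, c3 = 100 * (1 + 12 / ε) ^ 3 * (C * 4 ^ (ε / 2)) * C1 := ⟨_, rfl⟩
  have ht1 : ∀ᶠ n : ℕ in Filter.atTop, c3 ≤ (n:ℝ) ^ (ε / 4) :=
    ((tendsto_rpow_atTop (by positivity : 0 < ε / 4)).comp tendsto_natCast_atTop_atTop).eventually_ge_atTop _
  obtain ⟨n1, hn1⟩ := Filter.eventually_atTop.1 ht1
  refine ⟨max n1 1, fun Q Q' X hX hreg hQ' hQQ m hm1 hm2 => ?_⟩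
  have hn1' := hn1 X (by omega)
  have hX1 : 1 ≤ X := by omega
  have hnp : (0:ℝ) < X := by exact_mod_cast hX1
  have hn1r : (1:ℝ) ≤ X := by exact_mod_cast hX1
  have hK0 : 0 ≤ max (max K1 K2) K3 := zero_le_one.trans (hK1.trans ((le_max_left _ _).trans (le_max_left _ _)))
  have hQX : Q ≤ X := by
    have h := hpow Q X (hreg.mono hK0 (le_max_right _ _))
    rw [Real.rpow_one, Real.rpow_one, one_mul] at h
    exact_mod_cast h
  obtain ⟨mb, hmb0, hmbs, hmb⟩ := hmass Q X (hreg.mono hK0 ((le_max_left _ _).trans (le_max_left _ _)))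
  have h1 := hSG Q Q' X (hreg.mono hK0 ((le_max_right _ _).trans (le_max_left _ _))) hQ' hQQ m hm1 hm2
  have hsub : PC Q' ⊆ PC Q := by
    intro p hp
    obtain ⟨a, b, c⟩ := Pool.Agent.Lib.H68T.mem_PC.1 hp
    exact Pool.Agent.Lib.H68T.mem_PC.2 ⟨a, b.trans hQQ, c⟩
  have h2 := Pool.Agent.Lib.H59P.S1b Q' hQ' (fun p => Bc Q X p m) mb (fun p hp => hmb m hm1 hm2 p (hsub hp)) m
  have hmbs' : ∑ p ∈ PC Q', mb p ≤ C1 :=
    (Finset.sum_le_sum_of_subset_of_nonneg hsub fun p hp _ => hmb0 p hp).trans hmbs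
  have hm1' : (1:ℤ) ≤ m := by omega
  have h3 : |Lk Q' (X / Q ^ 2) m| ≤ 100 * (1 + Real.log Q') ^ 3 * dQ Q' m * C1 := by
    rw [← Real.norm_eq_abs, ← Complex.norm_real, h1]
    refine h2.trans ?_
    refine mul_le_mul_of_nonneg_left hmbs' ?_
    have : 0 ≤ dQ Q' m := by unfold dQ; positivity
    have : 0 ≤ Real.log Q' := Real.log_natCast_nonneg Q'
    positivity
  refine h3.trans ?_
  have hlogQ0 : 0 ≤ Real.log Q' := Real.log_natCast_nonneg Q'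
  have hdq0 : 0 ≤ dQ Q' m := by unfold dQ; positivity
  have h4 : dQ Q' m ≤ (C * 4 ^ (ε / 2)) * (X:ℝ) ^ (ε / 2) := by
    refine (Pool.Agent.H9S.BDL_dQ Q' m hm1').trans ?_
    refine (hdiv m.toNat (by omega)).trans ?_
    rw [mul_assoc, ← Real.mul_rpow (by norm_num) hnp.le]
    refine mul_le_mul_of_nonneg_left ?_ hC.le
    refine Real.rpow_le_rpow (Nat.cast_nonneg _) ?_ (by positivity)
    have h5 : m.toNat ≤ 4 * X := by omega
    exact_mod_cast h5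
  have h5 : (1 + Real.log Q') ^ 3 ≤ (1 + 12 / ε) ^ 3 * (X:ℝ) ^ (ε / 4) := by
    have h6 : Real.log Q' ≤ Real.log X :=
      Real.log_le_log (by exact_mod_cast hQ') (by exact_mod_cast hQQ.trans hQX)
    have h7 : Real.log X ≤ (X:ℝ) ^ (ε / 12) / (ε / 12) := Real.log_le_rpow_div hnp.le (by positivity)
    have h8 : (X:ℝ) ^ (ε / 12) / (ε / 12) = 12 / ε * (X:ℝ) ^ (ε / 12) := by
      field_simp
    have h9 : (1:ℝ) ≤ (X:ℝ) ^ (ε / 12) := Real.one_le_rpow hn1r (by positivity)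
    have h10 : 1 + Real.log Q' ≤ (1 + 12 / ε) * (X:ℝ) ^ (ε / 12) := by
      rw [h8] at h7
      have : 0 < 12 / ε := by positivity
      nlinarith
    have h11 : ((X:ℝ) ^ (ε / 12)) ^ 3 = (X:ℝ) ^ (ε / 4) := by
      rw [← Real.rpow_natCast, ← Real.rpow_mul hnp.le]
      congr 1
      push_cast
      ring
    calc (1 + Real.log Q') ^ 3 ≤ ((1 + 12 / ε) * (X:ℝ) ^ (ε / 12)) ^ 3 := pow_le_pow_left₀ (by linarith) h10 3
      _ = (1 + 12 / ε) ^ 3 * (X:ℝ) ^ (ε / 4) := by rw [mul_pow, h11]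
  have hC1' : 0 ≤ C1 := by linarith
  have hP0 : 0 ≤ (X:ℝ) ^ (ε / 2) := Real.rpow_nonneg hnp.le _
  have hP1 : 0 ≤ (X:ℝ) ^ (ε / 4) := Real.rpow_nonneg hnp.le _
  calc 100 * (1 + Real.log Q') ^ 3 * dQ Q' m * C1
      ≤ 100 * ((1 + 12 / ε) ^ 3 * (X:ℝ) ^ (ε / 4)) * ((C * 4 ^ (ε / 2)) * (X:ℝ) ^ (ε / 2)) * C1 := by
        refine mul_le_mul_of_nonneg_right ?_ hC1'
        refine mul_le_mul (mul_le_mul_of_nonneg_left h5 (by norm_num)) h4 hdq0 (by positivity)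
    _ = c3 * ((X:ℝ) ^ (ε / 4) * (X:ℝ) ^ (ε / 2)) := by rw [hc3]; ring
    _ ≤ (X:ℝ) ^ (ε / 4) * ((X:ℝ) ^ (ε / 4) * (X:ℝ) ^ (ε / 2)) :=
        mul_le_mul_of_nonneg_right hn1' (mul_nonneg hP1 hP0)
    _ = (X:ℝ) ^ ε := by
        rw [← Real.rpow_add hnp, ← Real.rpow_add hnp]
        congr 1
        ring

/-- Proof. `lp m` is `0` or `log m`, `m ≤ 4X`. -/
theorem U0_lp (ε : ℝ) (hε : 0 < ε) : ∃ X0 : ℕ, ∀ X : ℕ, X0 ≤ X → ∀ m : ℤ, m ≤ 4 * X → |lp m| ≤ (X : ℝ) ^ ε := by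
  have ht1 : ∀ᶠ n : ℕ in Filter.atTop, 4 ^ (ε / 2) / (ε / 2) ≤ (n:ℝ) ^ (ε / 2) :=
    ((tendsto_rpow_atTop (by positivity : 0 < ε / 2)).comp tendsto_natCast_atTop_atTop).eventually_ge_atTop _
  obtain ⟨n1, hn1⟩ := Filter.eventually_atTop.1 ht1
  refine ⟨max n1 1, fun X hX m hm => ?_⟩
  have h1 := hn1 X (by omega)
  have hX1 : 1 ≤ X := by omega
  have hnp : (0:ℝ) < X := by exact_mod_cast hX1
  have hXe : 0 ≤ (X:ℝ) ^ ε := Real.rpow_nonneg hnp.le _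
  unfold Pool.Agent.Lib.H68T.lp
  by_cases hp : m.toNat.Prime
  · rw [if_pos hp]
    have hm1 : 1 ≤ m.toNat := hp.one_le
    have hm2 : (1:ℤ) ≤ m := by omega
    have hmr : (1:ℝ) ≤ (m:ℝ) := by exact_mod_cast hm2
    have hm4 : (m:ℝ) ≤ 4 * X := by exact_mod_cast hm
    rw [abs_of_nonneg (Real.log_nonneg hmr)]
    calc Real.log m ≤ Real.log (4 * X) := Real.log_le_log (by linarith) hm4
      _ ≤ (4 * (X:ℝ)) ^ (ε / 2) / (ε / 2) := Real.log_le_rpow_div (by positivity) (by positivity)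
      _ = 4 ^ (ε / 2) / (ε / 2) * (X:ℝ) ^ (ε / 2) := by
          rw [Real.mul_rpow (by norm_num) hnp.le]
          ring
      _ ≤ (X:ℝ) ^ (ε / 2) * (X:ℝ) ^ (ε / 2) := mul_le_mul_of_nonneg_right h1 (Real.rpow_nonneg hnp.le _)
      _ = (X:ℝ) ^ ε := by
          rw [← Real.rpow_add hnp]
          congr 1
          ring
  · rw [if_neg hp, abs_zero]
    exact hXe

end Pool.Agent.H9U
end

-- from Lib.H9U.U0B
section

/-!
# H9U, chunk U0B (M): the error of the projection of small level is uniform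
-/

open Finset

namespace Pool.Agent.H9U

open Pool.Agent.H44W (ee)
open Pool.Agent.H9S (Bd lc Lc BF Sx Sy)
open Pool.Agent.Lib.H68T (lp Lk)
open Pool.Agent.Lib.H18Q (RegP)

theorem u0b_add (S T : Finset ℤ) (F1 F2 W f g : ℤ → ℂ) :
    BF S T (fun m => F1 m + F2 m) W f g = BF S T F1 W f g + BF S T F2 W f g := by
  unfold BF
  rw [← Finset.sum_add_distrib]
  refine Finset.sum_congr rfl fun x _ => ?_
  rw [← Finset.sum_add_distrib]
  refine Finset.sum_congr rfl fun y _ => ?_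
  ring

/-- Proof. Compare the proof of `H9S.OP_main` (`H9S/O3.lean`). `OPW` is `O1_op (E1_inv (K3_inv (T2_box (P2_inv hI))))`; its hypotheses at `(Q, X)`,
with `n := X`: `LKd C2 Q X` from `LK_box` (as in `OP_main`), the Fourier bound from `fourier_smallP`, the size of `Ec Q X` from
`BDL_bd` (with `n := X`) and `|lp| ≤ log (4 X)`, `W` bounded by `1 ≤ X^c`. So `‖BF (Ec Q X) W f g‖ ≤ X^(2-c)`. And
`Er Q Q' X m = Ec Q X m + (Lc Q (X/Q²) m - Lc Q' (X/Q²) m)` (`BF` is additive in the kernel), the second part is at most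
`C2 X² Q'^(-1/1152) ≤ C2 X^(2 - θ/1152)` (`LK_box`, `Rgm.low`). `κ = min (min c (θ/1152)) 1 / 2`, `X` large. Size: `U0_size`, `U0_lp` with
`ε = κ/200` (`2 X^(κ/200) ≤ X^(κ/100)`). `1 ≤ Q'` from `Rgm.low` (`X^θ ≥ 1`). -/
theorem U0_unif (hI : Pool.Agent.H9S.INV) : ∃ K : ℝ, 1 ≤ K ∧ ∀ Cr θ : ℝ, 1 ≤ Cr → 0 < θ → ∃ κ : ℝ, 0 < κ ∧ κ ≤ 1 ∧
    ∃ X0 : ℕ, ∀ Q Q' X : ℕ, X0 ≤ X → Rgm K Cr θ Q Q' X → Unif X κ (Er Q Q' X) := by
  obtain ⟨K1, hK1, hbd⟩ := U0_size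
  obtain ⟨K2, C2, hK2, hC2, hLK⟩ := Pool.Agent.Lib.H59T.LK_box
  obtain ⟨K3, hfs⟩ := Pool.Agent.Lib.H18Q.fourier_smallP
  have hO := Pool.Agent.H9S.O1_op (Pool.Agent.H9S.E1_inv (Pool.Agent.H9S.K3_inv (Pool.Agent.H9S.T2_box
    (Pool.Agent.H9S.P2_inv hI))))
  refine ⟨max (max K1 K2) (max K3 4), hK1.trans ((le_max_left _ _).trans (le_max_left _ _)), fun Cr θ hCr hθ => ?_⟩
  obtain ⟨K, hK⟩ : ∃ K : ℝ, K = max (max K1 K2) (max K3 4) := ⟨_, rfl⟩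
  rw [← hK]
  have hKK1 : K1 ≤ K := by rw [hK]; exact (le_max_left _ _).trans (le_max_left _ _)
  have hKK2 : K2 ≤ K := by rw [hK]; exact (le_max_right _ _).trans (le_max_left _ _)
  have hKK3 : K3 ≤ K := by rw [hK]; exact (le_max_left _ _).trans (le_max_right _ _)
  have hKK4 : (4:ℝ) ≤ K := by rw [hK]; exact (le_max_right _ _).trans (le_max_right _ _)
  have hK0 : 0 ≤ K := by linarith
  clear hK
  obtain ⟨c, hc, n1, h1⟩ := hO Cr C2 hCr hC2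
  obtain ⟨κ, hκ⟩ : ∃ κ : ℝ, κ = min (min c (θ / 1152)) 1 / 2 := ⟨_, rfl⟩
  have hm0 : 0 < min (min c (θ / 1152)) 1 := lt_min (lt_min hc (by positivity)) one_pos
  have hκ0 : 0 < κ := by rw [hκ]; linarith
  have hκc : 2 * κ ≤ c := by
    have := (min_le_left (min c (θ / 1152)) 1).trans (min_le_left c (θ / 1152))
    rw [hκ]; linarith
  have hκθ : 2 * κ ≤ θ / 1152 := by
    have := (min_le_left (min c (θ / 1152)) 1).trans (min_le_right c (θ / 1152))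
    rw [hκ]; linarith
  have hκ1 : 2 * κ ≤ 1 := by
    have := min_le_right (min c (θ / 1152)) 1
    rw [hκ]; linarith
  clear hκ
  obtain ⟨n2, h2⟩ := hbd (κ / 200) (by positivity)
  obtain ⟨n3, h3⟩ := U0_lp (κ / 200) (by positivity)
  have ht : ∀ᶠ n : ℕ in Filter.atTop, max (1 + C2) 2 ≤ (n:ℝ) ^ (κ / 200) :=
    ((tendsto_rpow_atTop (by positivity : 0 < κ / 200)).comp tendsto_natCast_atTop_atTop).eventually_ge_atTop _
  obtain ⟨n4, h4⟩ := Filter.eventually_atTop.1 ht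
  refine ⟨κ, hκ0, by linarith, max (max (max n1 n2) (max n3 n4)) 1, fun Q Q' X hX hR => ?_⟩
  have hreg := hR.reg
  have hX1 : 1 ≤ X := by omega
  have hXp : (0:ℝ) < X := by exact_mod_cast hX1
  have hXr : (1:ℝ) ≤ X := by exact_mod_cast hX1
  have h4' := h4 X (by omega)
  have h4a : 1 + C2 ≤ (X:ℝ) ^ (κ / 200) := (le_max_left _ _).trans h4'
  have h4b : (2:ℝ) ≤ (X:ℝ) ^ (κ / 200) := (le_max_right _ _).trans h4'
  have hQ4 : (4:ℝ) ≤ Q := (hreg.mono hK0 hKK4).Q_ge (by norm_num)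
  have hQ2 : 2 ≤ Q := by
    have : (2:ℝ) ≤ Q := by linarith
    exact_mod_cast this
  have hQ'1 : 1 ≤ Q' := by
    have h5 : (1:ℝ) ≤ (X:ℝ) ^ θ := Real.one_le_rpow hXr hθ.le
    have h6 := h5.trans hR.low
    exact_mod_cast h6
  have hQ'r : (0:ℝ) < Q' := by exact_mod_cast hQ'1
  -- sizes
  have hsz : ∀ Q'' : ℕ, 1 ≤ Q'' → Q'' ≤ Q → ∀ m : ℤ, (X:ℤ) ≤ m → m ≤ 4 * X →
      ‖lc m - Lc Q'' (X / Q ^ 2) m‖ ≤ (X:ℝ) ^ (κ / 100) := by
    intro Q'' hQ1 hQQ m hm1 hm2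
    have e1 := h2 Q Q'' X (by omega) (hreg.mono hK0 hKK1) hQ1 hQQ m hm1 hm2
    have e2 := h3 X (by omega) m hm2
    have e3 : ‖lc m - Lc Q'' (X / Q ^ 2) m‖ ≤ ‖lc m‖ + ‖Lc Q'' (X / Q ^ 2) m‖ := norm_sub_le _ _
    have e4 : ‖lc m‖ = |lp m| := by
      rw [lc, Complex.norm_real, Real.norm_eq_abs]
    have e5 : ‖Lc Q'' (X / Q ^ 2) m‖ = |Lk Q'' (X / Q ^ 2) m| := by
      rw [Lc, Complex.norm_real, Real.norm_eq_abs]
    have e6 : (X:ℝ) ^ (κ / 100) = (X:ℝ) ^ (κ / 200) * (X:ℝ) ^ (κ / 200) := by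
      rw [← Real.rpow_add hXp]
      congr 1
      ring
    have e7 : 0 ≤ (X:ℝ) ^ (κ / 200) := Real.rpow_nonneg hXp.le _
    rw [e6]
    rw [e4, e5] at e3
    nlinarith
  have hLKd : Pool.Agent.H9S.LKd C2 Q X := by
    intro Q'' hQ1 hQQ W f g hW hf hg
    have h3 := hLK Q Q'' X (hreg.mono hK0 hKK2) hQ1 hQQ f g W hf hg hW
    refine le_trans (le_of_eq ?_) h3
    rw [BF, Sx, Sy]
    simp only [Lc, Complex.ofReal_sub]
  constructor
  · intro W f g hW hf hg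
    have hA : ‖BF (Sx X) (Sy X) (Pool.Agent.H9S.Ec Q X) W f g‖ ≤ (X:ℝ) ^ (2 - c) := by
      refine h1 X (by omega) Q X hQ2 hR.log hX1 le_rfl hLKd ?_ ?_ W f g ?_ hf hg
      · intro th u v hu hv
        have h3 := hfs Q X (hreg.mono hK0 hKK3) th u v hu hv
        refine le_trans (le_of_eq ?_) h3
        congr 1
        refine Finset.sum_congr rfl fun m _ => ?_
        rw [Pool.Agent.H9S.Ec, lc, Lc, Complex.ofReal_sub, mul_comm th (m:ℝ)]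
        rfl
      · intro m hm1 hm2
        refine (hsz Q (by omega) le_rfl m hm1 hm2).trans ?_
        exact Real.rpow_le_rpow_of_exponent_le hXr (by linarith)
      · intro v _ _
        exact (hW v).trans (Real.one_le_rpow hXr hc.le)
    have hB := hLKd Q' hQ'1 hR.le W f g hW hf hg
    have hE : BF (Sx X) (Sy X) (Er Q Q' X) W f g = BF (Sx X) (Sy X) (Pool.Agent.H9S.Ec Q X) W f g +
        BF (Sx X) (Sy X) (fun m => Lc Q (X / Q ^ 2) m - Lc Q' (X / Q ^ 2) m) W f g := by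
      rw [← u0b_add]
      congr 1
      funext m
      rw [Er, Pool.Agent.H9S.Ec]
      ring
    have hC : (Q':ℝ) ^ (-(1 / 1152 : ℝ)) ≤ (X:ℝ) ^ (-(2 * κ)) := by
      calc (Q':ℝ) ^ (-(1 / 1152 : ℝ)) ≤ ((X:ℝ) ^ θ) ^ (-(1 / 1152 : ℝ)) :=
            Real.rpow_le_rpow_of_nonpos (Real.rpow_pos_of_pos hXp _) hR.low (by norm_num)
        _ = (X:ℝ) ^ (θ * (-(1 / 1152 : ℝ))) := (Real.rpow_mul hXp.le _ _).symm
        _ ≤ (X:ℝ) ^ (-(2 * κ)) := Real.rpow_le_rpow_of_exponent_le hXr (by linarith)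
    have hD : C2 * (X:ℝ) ^ 2 * (Q':ℝ) ^ (-(1 / 1152 : ℝ)) ≤ C2 * (X:ℝ) ^ (2 - 2 * κ) := by
      have e1 : (X:ℝ) ^ (2 - 2 * κ) = (X:ℝ) ^ 2 * (X:ℝ) ^ (-(2 * κ)) := by
        rw [← Real.rpow_natCast (X:ℝ) 2, ← Real.rpow_add hXp]
        congr 1
      rw [e1, ← mul_assoc]
      exact mul_le_mul_of_nonneg_left hC (by positivity)
    have hF : (X:ℝ) ^ (2 - c) ≤ (X:ℝ) ^ (2 - 2 * κ) := Real.rpow_le_rpow_of_exponent_le hXr (by linarith)
    have hG : (1 + C2) * (X:ℝ) ^ (2 - 2 * κ) ≤ (X:ℝ) ^ (2 - κ) := by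
      have e1 : (X:ℝ) ^ (2 - κ) = (X:ℝ) ^ κ * (X:ℝ) ^ (2 - 2 * κ) := by
        rw [← Real.rpow_add hXp]
        congr 1
        ring
      rw [e1]
      refine mul_le_mul_of_nonneg_right ?_ (Real.rpow_nonneg hXp.le _)
      exact h4a.trans (Real.rpow_le_rpow_of_exponent_le hXr (by linarith))
    rw [hE]
    refine (norm_add_le _ _).trans ?_
    linarith
  · intro m hm1 hm2
    exact hsz Q' hQ'1 hR.le m hm1 hm2

end Pool.Agent.H9U
end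

-- from Lib.H9U.U1B
section

/-!
# H9U, chunk U1B (S/M): cutoff of the kernel
-/

open Finset

namespace Pool.Agent.H9U

open Pool.Agent.H44W (ee)
open Pool.Agent.H9S (Bd BF Sx Sy)

/-- Proof. `x + y ∈ (X, 4X) ⊆ [0, M)` with `M = 4 X + 1` for `x ∈ Sx X`, `y ∈ Sy X`. Insert `U1A_ind M u v`; `ee(j (x+y)/M) = ee(j x/M) ee(j y/M)`
(`ee_add`) is absorbed in `f` and `g` (still bounded by `1`). Triangle inequality. -/
theorem U1B_cut (X : ℕ) (F : ℤ → ℂ) (B : ℝ) (hF : ∀ W f g : ℤ → ℂ, Bd W → Bd f → Bd g → ‖BF (Sx X) (Sy X) F W f g‖ ≤ B)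
    (u v : ℤ) (W f g : ℤ → ℂ) (hW : Bd W) (hf : Bd f) (hg : Bd g) :
    ‖BF (Sx X) (Sy X) (fun m => if u ≤ m ∧ m < v then F m else 0) W f g‖ ≤
      4 * (1 + Real.log ((4 * X + 1 : ℕ) : ℝ)) * B := by
  obtain ⟨c, hc1, hc2⟩ := U1A_ind (4 * X + 1) (by omega) u v
  have hB0 : 0 ≤ B := le_trans (norm_nonneg _) (hF W f g hW hf hg)
  have key : BF (Sx X) (Sy X) (fun m => if u ≤ m ∧ m < v then F m else 0) W f g =
      ∑ j ∈ range (4 * X + 1), c j * BF (Sx X) (Sy X) F W (fun x => f x * ee ((j:ℝ) * x / ((4 * X + 1 : ℕ) : ℝ)))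
        (fun y => g y * ee ((j:ℝ) * y / ((4 * X + 1 : ℕ) : ℝ))) := by
    simp only [BF, mul_sum]
    symm
    rw [sum_comm]
    refine sum_congr rfl fun x hx => ?_
    rw [sum_comm]
    refine sum_congr rfl fun y hy => ?_
    symm
    rw [Sx, mem_Ico] at hx
    rw [Sy, mem_Ioo] at hy
    have h1 := hc1 (x + y) (by omega) (by push_cast; omega)
    have h2 : (if u ≤ x + y ∧ x + y < v then F (x + y) else 0) = F (x + y) * (if u ≤ x + y ∧ x + y < v then (1:ℂ) else 0) := by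
      split_ifs <;> simp
    rw [h2, h1, mul_sum, mul_sum, sum_mul]
    refine sum_congr rfl fun j _ => ?_
    have h3 : ee ((j : ℝ) * ((x + y : ℤ) : ℝ) / ((4 * X + 1 : ℕ) : ℝ)) =
        ee ((j:ℝ) * x / ((4 * X + 1 : ℕ) : ℝ)) * ee ((j:ℝ) * y / ((4 * X + 1 : ℕ) : ℝ)) := by
      rw [← Pool.Agent.H44W.ee_add]
      congr 1
      push_cast
      ring
    rw [h3]
    ring
  rw [key]
  refine le_trans (norm_sum_le _ _) ?_
  have h4 : ∀ j ∈ range (4 * X + 1), ‖c j * BF (Sx X) (Sy X) F W (fun x => f x * ee ((j:ℝ) * x / ((4 * X + 1 : ℕ) : ℝ)))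
        (fun y => g y * ee ((j:ℝ) * y / ((4 * X + 1 : ℕ) : ℝ)))‖ ≤ ‖c j‖ * B := by
    intro j _
    rw [norm_mul]
    refine mul_le_mul_of_nonneg_left (hF _ _ _ hW ?_ ?_) (norm_nonneg _)
    · intro x
      change ‖f x * _‖ ≤ 1
      rw [norm_mul, Pool.Agent.H44W.norm_ee, mul_one]
      exact hf x
    · intro y
      change ‖g y * _‖ ≤ 1
      rw [norm_mul, Pool.Agent.H44W.norm_ee, mul_one]
      exact hg y
  refine le_trans (sum_le_sum h4) ?_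
  rw [← sum_mul]
  exact mul_le_mul_of_nonneg_right hc2 hB0

end Pool.Agent.H9U
end

-- from Lib.H9U.U2
section

/-!
# H9U, chunk U2 (M): parallelograms. The trick: on the parallelograms with `h - l = s` the form is the bilinear form `BF`.
-/

open Finset

namespace Pool.Agent.H9U

open Pool.Agent.H44W (ee)
open Pool.Agent.H9S (Bd BF Sx Sy)

theorem u2_cut_ne {X : ℕ} {f : ℤ → ℂ} {m : ℤ} (h : cutJ X f m ≠ 0) : m ∈ JJ X := by
  by_contra h1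
  exact h (if_neg h1)

theorem u2_cut_pos {X : ℕ} {f : ℤ → ℂ} {m : ℤ} (h : m ∈ JJ X) : cutJ X f m = f m := if_pos h

theorem u2_JJ {X : ℕ} {m : ℤ} (h : m ∈ JJ X) : 2 * (X : ℤ) ≤ m ∧ m < 2 * X + X / 4 := by
  unfold JJ at h
  rwa [Finset.mem_Ico] at h

theorem u2_Sx {X : ℕ} {m : ℤ} (h : m ∈ JJ X) : m ∈ Sx X := by
  have h1 := u2_JJ h
  unfold Sx
  rw [Finset.mem_Ico]
  omega

theorem u2_bdcut {X : ℕ} {f : ℤ → ℂ} (hf : Bd f) (m : ℤ) : ‖cutJ X f m‖ ≤ 1 := by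
  unfold cutJ
  split_ifs
  · exact hf m
  · simp

theorem u2_inner (X : ℕ) (F f1 f2 f3 : ℤ → ℂ) (w : ℂ) (l s : ℤ) :
    w * ∑ m ∈ JJ X, f1 m * cutJ X f2 (m + (l + s)) * cutJ X f3 (m + l) * cutJ X F (m + (l + s) + l) =
    ∑ x ∈ Sx X, (cutJ X f2 x * cutJ X f3 (x - s)) * w * cutJ X F (x + l) * cutJ X f1 (x - l - s) := by
  rw [Finset.mul_sum]
  refine Finset.sum_bij_ne_zero (fun m _ _ => m + (l + s)) ?_ ?_ ?_ ?_
  · intro m hm h0
    apply u2_Sx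
    apply u2_cut_ne (f := f2)
    intro h1
    exact h0 (by rw [h1]; ring)
  · intro a _ _ b _ _ hab
    have h1 : a + (l + s) = b + (l + s) := hab
    omega
  · intro x hx h0
    have h1 : x - l - s ∈ JJ X := by
      apply u2_cut_ne (f := f1)
      intro h1
      exact h0 (by rw [h1]; ring)
    refine ⟨x - l - s, h1, ?_, by ring⟩
    intro h2
    apply h0
    rw [u2_cut_pos h1, ← h2]
    have e1 : x - l - s + (l + s) = x := by ring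
    have e2 : x - l - s + l = x - s := by ring
    rw [e1, e2]
    ring
  · intro m hm h0
    have e1 : m + (l + s) - l - s = m := by ring
    have e2 : m + (l + s) - s = m + l := by ring
    rw [e1, e2, u2_cut_pos hm]
    ring

theorem u2_shift (X : ℕ) (F f1 f2 f3 : ℤ → ℂ) (W : ℤ → ℤ → ℂ) (l : ℤ) :
    ∑ h ∈ Sy X, W h l *
      ∑ m ∈ JJ X, f1 m * cutJ X f2 (m + h) * cutJ X f3 (m + l) * cutJ X F (m + h + l) =
    ∑ s ∈ Sy X, (if l + s ∈ Sy X then W (l + s) l else 0) *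
      ∑ m ∈ JJ X, f1 m * cutJ X f2 (m + (l + s)) * cutJ X f3 (m + l) * cutJ X F (m + (l + s) + l) := by
  refine Finset.sum_bij_ne_zero (fun h _ _ => h - l) ?_ ?_ ?_ ?_
  · intro h hh h0
    have h1 : ∑ m ∈ JJ X, f1 m * cutJ X f2 (m + h) * cutJ X f3 (m + l) * cutJ X F (m + h + l) ≠ 0 := by
      intro h2
      exact h0 (by rw [h2]; ring)
    obtain ⟨m, hm, hm0⟩ := Finset.exists_ne_zero_of_sum_ne_zero h1
    have h2 : m + h ∈ JJ X := by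
      apply u2_cut_ne (f := f2)
      intro h3
      exact hm0 (by rw [h3]; ring)
    have h3 : m + l ∈ JJ X := by
      apply u2_cut_ne (f := f3)
      intro h4
      exact hm0 (by rw [h4]; ring)
    have h4 := u2_JJ h2
    have h5 := u2_JJ h3
    show h - l ∈ Sy X
    unfold Sy
    rw [Finset.mem_Ioo]
    omega
  · intro a _ _ b _ _ hab
    have h1 : a - l = b - l := hab
    omega
  · intro s hs h0
    have h1 : l + s ∈ Sy X := by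
      by_contra h1
      exact h0 (by rw [if_neg h1]; ring)
    refine ⟨l + s, h1, ?_, by ring⟩
    rw [if_pos h1] at h0
    exact h0
  · intro h hh h0
    have e1 : l + (h - l) = h := by ring
    rw [e1, if_pos hh]

theorem u2_id (X : ℕ) (F : ℤ → ℂ) (W : ℤ → ℤ → ℂ) (f1 f2 f3 : ℤ → ℂ) :
    ∑ h ∈ Sy X, ∑ l ∈ Sy X, W h l *
      ∑ m ∈ JJ X, f1 m * cutJ X f2 (m + h) * cutJ X f3 (m + l) * cutJ X F (m + h + l) =
    ∑ s ∈ Sy X, BF (Sx X) (Sy X) (cutJ X F) (fun z => cutJ X f1 (z - s))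
      (fun x => cutJ X f2 x * cutJ X f3 (x - s)) (fun y => if y + s ∈ Sy X then W (y + s) y else 0) := by
  rw [Finset.sum_comm]
  rw [Finset.sum_congr rfl fun l _ => u2_shift X F f1 f2 f3 W l]
  rw [Finset.sum_comm]
  refine Finset.sum_congr rfl fun s _ => ?_
  unfold BF
  rw [Finset.sum_comm (s := Sx X)]
  refine Finset.sum_congr rfl fun l _ => ?_
  exact u2_inner X F f1 f2 f3 _ l s

theorem u2_num (κ : ℝ) (hκ : 0 < κ) : ∃ X0 : ℕ, ∀ X : ℕ, X0 ≤ X → 1 ≤ X ∧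
    8 * (1 + Real.log ((4 * X + 1 : ℕ) : ℝ)) ≤ (X : ℝ) ^ (κ / 2) := by
  have h1 : ∀ᶠ X : ℕ in Filter.atTop, 8 * (1 + 4 / κ * 5 ^ (κ / 4)) ≤ (X : ℝ) ^ (κ / 4) :=
    ((tendsto_rpow_atTop (by positivity : 0 < κ / 4)).comp
      tendsto_natCast_atTop_atTop).eventually_ge_atTop _
  obtain ⟨X0, hX0⟩ := Filter.eventually_atTop.1 (h1.and (Filter.eventually_ge_atTop 1))
  refine ⟨X0, fun X hX => ?_⟩
  obtain ⟨h2, h3⟩ := hX0 X hX
  refine ⟨h3, ?_⟩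
  have hX1 : (1 : ℝ) ≤ X := by exact_mod_cast h3
  have h4 : Real.log ((4 * X + 1 : ℕ) : ℝ) ≤ (5 * (X : ℝ)) ^ (κ / 4) / (κ / 4) := by
    have h5 : Real.log ((4 * X + 1 : ℕ) : ℝ) ≤ Real.log (5 * (X : ℝ)) := by
      apply Real.log_le_log (by positivity)
      push_cast
      linarith
    exact h5.trans (Real.log_le_rpow_div (by positivity) (by positivity))
  rw [Real.mul_rpow (by norm_num) (by positivity)] at h4
  have h6 : (1 : ℝ) ≤ (X : ℝ) ^ (κ / 4) := Real.one_le_rpow hX1 (by positivity)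
  have h7 : (X : ℝ) ^ (κ / 2) = (X : ℝ) ^ (κ / 4) * (X : ℝ) ^ (κ / 4) := by
    rw [← Real.rpow_add (by linarith)]
    congr 1
    ring
  have h8 : (5 : ℝ) ^ (κ / 4) * (X : ℝ) ^ (κ / 4) / (κ / 4) =
      4 / κ * 5 ^ (κ / 4) * (X : ℝ) ^ (κ / 4) := by
    field_simp
  rw [h8] at h4
  rw [h7]
  have h9 : 8 * (1 + Real.log ((4 * X + 1 : ℕ) : ℝ)) ≤
      8 * (1 + 4 / κ * 5 ^ (κ / 4)) * (X : ℝ) ^ (κ / 4) := by
    nlinarith
  exact h9.trans (mul_le_mul_of_nonneg_right h2 (by linarith))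

/-- Proof. Put `s = h - l` (the terms with `s ∉ (-X, X)` vanish: `m + h` and `m + l` are both in `JJ X`, an interval of length `≤ X/4`). For fixed
`s` substitute `x = m + h = m + l + s`, `y = l`: `x + y = m + h + l`, `x - y = m + s`. The terms are
`[cutJ f2 x * cutJ f3 (x - s)] * [W (y + s) y, if y + s ∈ (-X, X), else 0] * cutJ F (x + y) * [cutJ f1 (x - y - s)]`, summed over
`x ∈ Sx X` (`x ∈ JJ X ⊆ Sx X`, else the term is `0`), `y ∈ Sy X`: a value of `BF (Sx X) (Sy X) (cutJ X F)` at bounded functions.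
`U1B_cut` with `u = 2X`, `v = 2X + X/4` (`cutJ X F m = if u ≤ m ∧ m < v then F m else 0`) and `Unif.bf`: each `s` contributes at most
`4 (1 + log (4X+1)) X^(2-κ)`, and there are at most `2X` values of `s`. `X` large in terms of `κ`. -/
theorem U2_par (κ : ℝ) (hκ : 0 < κ) : ∃ X0 : ℕ, ∀ X : ℕ, X0 ≤ X → ∀ F : ℤ → ℂ, Unif X κ F →
    ∀ (W : ℤ → ℤ → ℂ) (f1 f2 f3 : ℤ → ℂ), (∀ h l, ‖W h l‖ ≤ 1) → Bd f1 → Bd f2 → Bd f3 →
    ‖∑ h ∈ Ioo (-(X : ℤ)) X, ∑ l ∈ Ioo (-(X : ℤ)) X, W h l *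
      ∑ m ∈ JJ X, f1 m * cutJ X f2 (m + h) * cutJ X f3 (m + l) * cutJ X F (m + h + l)‖ ≤ (X : ℝ) ^ (3 - κ / 2) := by
  obtain ⟨X0, hX0⟩ := u2_num κ hκ
  refine ⟨X0, fun X hX F hF W f1 f2 f3 hW h1 h2 h3 => ?_⟩
  obtain ⟨hX1, hnum⟩ := hX0 X hX
  have hXr : (1 : ℝ) ≤ X := by exact_mod_cast hX1
  have hid := u2_id X F W f1 f2 f3
  have hS : Sy X = Ioo (-(X : ℤ)) X := rfl
  rw [hS] at hid
  rw [hid]
  have hcut : cutJ X F = fun m => if 2 * (X : ℤ) ≤ m ∧ m < 2 * X + X / 4 then F m else 0 := by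
    funext m
    unfold cutJ JJ
    simp only [Finset.mem_Ico]
  have hone : ∀ s : ℤ, ‖BF (Sx X) (Sy X) (cutJ X F) (fun z => cutJ X f1 (z - s))
      (fun x => cutJ X f2 x * cutJ X f3 (x - s))
      (fun y => if y + s ∈ Ioo (-(X : ℤ)) X then W (y + s) y else 0)‖ ≤
      4 * (1 + Real.log ((4 * X + 1 : ℕ) : ℝ)) * (X : ℝ) ^ (2 - κ) := by
    intro s
    rw [hcut]
    apply U1B_cut X F _ hF.bf
    · intro z
      exact u2_bdcut h1 _
    · intro x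
      rw [norm_mul]
      calc ‖cutJ X f2 x‖ * ‖cutJ X f3 (x - s)‖ ≤ 1 * 1 :=
            mul_le_mul (u2_bdcut h2 _) (u2_bdcut h3 _) (norm_nonneg _) zero_le_one
        _ = 1 := one_mul 1
    · intro y
      show ‖if y + s ∈ Ioo (-(X : ℤ)) X then W (y + s) y else 0‖ ≤ 1
      split_ifs
      · exact hW _ _
      · simp
  have hcard : ((Ioo (-(X : ℤ)) X).card : ℝ) ≤ 2 * X := by
    rw [Int.card_Ioo]
    have h4 : ((X : ℤ) - -(X : ℤ) - 1).toNat ≤ 2 * X := by omega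
    exact_mod_cast h4
  have hlog : 0 ≤ 1 + Real.log ((4 * X + 1 : ℕ) : ℝ) := by
    have h4 : 0 ≤ Real.log ((4 * X + 1 : ℕ) : ℝ) := Real.log_natCast_nonneg _
    linarith
  have hp : 0 ≤ (X : ℝ) ^ (2 - κ) := by positivity
  calc ‖∑ s ∈ Ioo (-(X : ℤ)) X, BF (Sx X) (Sy X) (cutJ X F) (fun z => cutJ X f1 (z - s))
        (fun x => cutJ X f2 x * cutJ X f3 (x - s))
        (fun y => if y + s ∈ Ioo (-(X : ℤ)) X then W (y + s) y else 0)‖
      ≤ ∑ s ∈ Ioo (-(X : ℤ)) X, 4 * (1 + Real.log ((4 * X + 1 : ℕ) : ℝ)) * (X : ℝ) ^ (2 - κ) :=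
        (norm_sum_le _ _).trans (Finset.sum_le_sum fun s _ => hone s)
    _ = ((Ioo (-(X : ℤ)) X).card : ℝ) * (4 * (1 + Real.log ((4 * X + 1 : ℕ) : ℝ)) * (X : ℝ) ^ (2 - κ)) := by
        rw [Finset.sum_const, nsmul_eq_mul]
    _ ≤ (2 * X) * (4 * (1 + Real.log ((4 * X + 1 : ℕ) : ℝ)) * (X : ℝ) ^ (2 - κ)) := by
        apply mul_le_mul_of_nonneg_right hcard
        positivity
    _ = 8 * (1 + Real.log ((4 * X + 1 : ℕ) : ℝ)) * ((X : ℝ) * (X : ℝ) ^ (2 - κ)) := by ring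
    _ ≤ (X : ℝ) ^ (κ / 2) * ((X : ℝ) * (X : ℝ) ^ (2 - κ)) := by
        apply mul_le_mul_of_nonneg_right hnum
        positivity
    _ = (X : ℝ) ^ (3 - κ / 2) := by
        have h5 : (X : ℝ) * (X : ℝ) ^ (2 - κ) = (X : ℝ) ^ (3 - κ) := by
          nth_rewrite 1 [← Real.rpow_one (X : ℝ)]
          rw [← Real.rpow_add (by linarith)]
          congr 1
          ring
        rw [h5, ← Real.rpow_add (by linarith)]
        congr 1
        ring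

end Pool.Agent.H9U
end

-- from Lib.H9U.U3
section

/-!
# H9U, chunk U3 (M): Fourier coefficients of `F(m) conj F(m+h)` on average over `h`; the `U³` norm
-/

open Finset

namespace Pool.Agent.H9U

open Pool.Agent.H44W (ee)
open Pool.Agent.H9S (Bd BF Sx Sy)

theorem u3_mem {X : ℕ} {m : ℤ} (hm : m ∈ JJ X) : (X:ℤ) ≤ m ∧ m ≤ 4 * X ∧ 2 * (X:ℤ) ≤ m ∧ m < 2 * X + X / 4 := by
  unfold JJ at hm
  rw [mem_Ico] at hm
  have : (X:ℤ) / 4 ≤ X := by omega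
  omega

/-- The sum over parallelograms, with the sizes. -/
theorem u3_par (κ : ℝ) (hκ : 0 < κ) : ∃ X0 : ℕ, ∀ X : ℕ, X0 ≤ X → ∀ F : ℤ → ℂ, Unif X κ F →
    ∀ W : ℤ → ℤ → ℂ, (∀ h l, ‖W h l‖ ≤ 1) →
    ‖∑ h ∈ Ioo (-(X : ℤ)) X, ∑ l ∈ Ioo (-(X : ℤ)) X, W h l *
      ∑ m ∈ JJ X, F m * (starRingEnd ℂ) (cutJ X F (m + h)) * (starRingEnd ℂ) (cutJ X F (m + l)) *
        cutJ X F (m + h + l)‖ ≤ ((X : ℝ) ^ (κ / 100)) ^ 3 * (X : ℝ) ^ (3 - κ / 2) := by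
  obtain ⟨X0, h0⟩ := U2_par κ hκ
  refine ⟨max X0 1, fun X hX F hF W hW => ?_⟩
  have hX1 : 1 ≤ X := by omega
  have hXp : (0:ℝ) < X := by exact_mod_cast hX1
  obtain ⟨B, hB⟩ : ∃ B : ℝ, B = (X:ℝ) ^ (κ / 100) := ⟨_, rfl⟩
  have hB0 : 0 < B := by rw [hB]; exact Real.rpow_pos_of_pos hXp _
  have hBc : (B:ℂ) ≠ 0 := by exact_mod_cast hB0.ne'
  rw [← hB]
  obtain ⟨f1, hf1⟩ : ∃ f1 : ℤ → ℂ, ∀ m, f1 m = if (X:ℤ) ≤ m ∧ m ≤ 4 * X then F m / B else 0 := ⟨_, fun _ => rfl⟩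
  obtain ⟨f2, hf2⟩ : ∃ f2 : ℤ → ℂ, ∀ m, f2 m = (starRingEnd ℂ) (f1 m) := ⟨_, fun _ => rfl⟩
  have hb1 : Bd f1 := by
    intro m
    rw [hf1]
    by_cases h : (X:ℤ) ≤ m ∧ m ≤ 4 * X
    · rw [if_pos h, norm_div, Complex.norm_real, Real.norm_of_nonneg hB0.le, div_le_one hB0, hB]
      exact hF.bd m h.1 h.2
    · rw [if_neg h, norm_zero]
      exact zero_le_one
  have hb2 : Bd f2 := by
    intro m
    rw [hf2, RCLike.norm_conj]
    exact hb1 m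
  have hFm : ∀ m ∈ JJ X, F m = B * f1 m := by
    intro m hm
    have h := u3_mem hm
    rw [hf1, if_pos ⟨h.1, h.2.1⟩]
    field_simp
  have hcm : ∀ m, (starRingEnd ℂ) (cutJ X F m) = B * cutJ X f2 m := by
    intro m
    unfold cutJ
    by_cases hm : m ∈ JJ X
    · rw [if_pos hm, if_pos hm, hFm m hm, map_mul, Complex.conj_ofReal, hf2]
    · rw [if_neg hm, if_neg hm, map_zero, mul_zero]
  have h1 := h0 X (by omega) F hF W f1 f2 f2 hW hb1 hb2 hb2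
  have h2 : (∑ h ∈ Ioo (-(X : ℤ)) X, ∑ l ∈ Ioo (-(X : ℤ)) X, W h l *
      ∑ m ∈ JJ X, F m * (starRingEnd ℂ) (cutJ X F (m + h)) * (starRingEnd ℂ) (cutJ X F (m + l)) *
        cutJ X F (m + h + l)) = ((B ^ 3 : ℝ) : ℂ) * ∑ h ∈ Ioo (-(X : ℤ)) X, ∑ l ∈ Ioo (-(X : ℤ)) X, W h l *
      ∑ m ∈ JJ X, f1 m * cutJ X f2 (m + h) * cutJ X f2 (m + l) * cutJ X F (m + h + l) := by
    rw [Finset.mul_sum]
    refine Finset.sum_congr rfl fun h _ => ?_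
    rw [Finset.mul_sum]
    refine Finset.sum_congr rfl fun l _ => ?_
    rw [mul_left_comm, Finset.mul_sum (s := JJ X) (a := ((B ^ 3 : ℝ) : ℂ))]
    congr 1
    refine Finset.sum_congr rfl fun m hm => ?_
    rw [hcm, hcm, hFm m hm]
    push_cast
    ring
  rw [h2, norm_mul, Complex.norm_real, Real.norm_of_nonneg (by positivity)]
  exact mul_le_mul_of_nonneg_left h1 (by positivity)



/-- The eighth power of the `U³` norm. Proof. `∑_{h,l} ‖S(h,l)‖²`, `S(h,l) = ∑_m F(m) conj F(m+h) conj F(m+l) F(m+h+l)` (cut off to `JJ X`) is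
`∑_{h,l} W(h,l) B³ · (…)` with `W = conj S/‖S‖`-type weights: `‖S‖² ≤ X B⁴ ‖S‖`, `∑ ‖S(h,l)‖ ≤ B³ X^(3 - κ/2)` by `U2_par` (weights
`W(h,l) = conj(S)/‖S‖`), `B = X^(κ/100)`. -/
theorem U3_norm (κ : ℝ) (hκ : 0 < κ) : ∃ X0 : ℕ, ∀ X : ℕ, X0 ≤ X → ∀ F : ℤ → ℂ, Unif X κ F →
    ∑ h ∈ Ioo (-(X : ℤ)) X, ∑ l ∈ Ioo (-(X : ℤ)) X, ‖∑ m ∈ JJ X, F m * (starRingEnd ℂ) (cutJ X F (m + h)) *
      (starRingEnd ℂ) (cutJ X F (m + l)) * cutJ X F (m + h + l)‖ ^ 2 ≤ (X : ℝ) ^ (4 - κ / 4) := by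
  obtain ⟨X0, h0⟩ := u3_par κ hκ
  refine ⟨max X0 1, fun X hX F hF => ?_⟩
  have hX1 : 1 ≤ X := by omega
  have hXp : (0:ℝ) < X := by exact_mod_cast hX1
  have hXr : (1:ℝ) ≤ X := by exact_mod_cast hX1
  obtain ⟨S, hS⟩ : ∃ S : ℤ → ℤ → ℂ, ∀ h l, S h l = ∑ m ∈ JJ X, F m * (starRingEnd ℂ) (cutJ X F (m + h)) *
      (starRingEnd ℂ) (cutJ X F (m + l)) * cutJ X F (m + h + l) := ⟨_, fun _ _ => rfl⟩
  obtain ⟨B, hB⟩ : ∃ B : ℝ, B = (X:ℝ) ^ (κ / 100) := ⟨_, rfl⟩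
  have hB0 : 0 < B := by rw [hB]; exact Real.rpow_pos_of_pos hXp _
  have h1 := h0 X (by omega) F hF (fun h l => (starRingEnd ℂ) (S h l) / (‖S h l‖ : ℂ)) (fun h l => by
    rw [norm_div, RCLike.norm_conj, Complex.norm_real, norm_norm]
    exact div_self_le_one _)
  rw [← hB] at h1
  have h2 : (∑ h ∈ Ioo (-(X : ℤ)) X, ∑ l ∈ Ioo (-(X : ℤ)) X,
      (starRingEnd ℂ) (S h l) / (‖S h l‖ : ℂ) * ∑ m ∈ JJ X, F m * (starRingEnd ℂ) (cutJ X F (m + h)) *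
      (starRingEnd ℂ) (cutJ X F (m + l)) * cutJ X F (m + h + l)) =
      ((∑ h ∈ Ioo (-(X : ℤ)) X, ∑ l ∈ Ioo (-(X : ℤ)) X, ‖S h l‖ : ℝ) : ℂ) := by
    push_cast
    refine Finset.sum_congr rfl fun h _ => Finset.sum_congr rfl fun l _ => ?_
    rw [← hS]
    by_cases h3 : S h l = 0
    · rw [h3, norm_zero]
      simp
    · have h4 : (‖S h l‖ : ℂ) ≠ 0 := by
        exact_mod_cast (norm_ne_zero_iff.2 h3)
      rw [div_mul_eq_mul_div, div_eq_iff h4, mul_comm ((starRingEnd ℂ) (S h l)), Complex.mul_conj,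
        Complex.normSq_eq_norm_sq]
      push_cast
      ring
  have h3 : ∑ h ∈ Ioo (-(X : ℤ)) X, ∑ l ∈ Ioo (-(X : ℤ)) X, ‖S h l‖ ≤ B ^ 3 * (X : ℝ) ^ (3 - κ / 2) := by
    refine le_trans (le_of_eq ?_) h1
    rw [h2, Complex.norm_real, Real.norm_of_nonneg
      (Finset.sum_nonneg fun _ _ => Finset.sum_nonneg fun _ _ => norm_nonneg _)]
  have hcB : ∀ m, ‖cutJ X F m‖ ≤ B := by
    intro m
    unfold cutJ
    by_cases hm : m ∈ JJ X
    · rw [if_pos hm, hB]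
      have := u3_mem hm
      exact hF.bd m this.1 this.2.1
    · rw [if_neg hm, norm_zero]
      exact hB0.le
  have h4 : ∀ h l, ‖S h l‖ ≤ X * B ^ 4 := by
    intro h l
    rw [hS]
    have hcard : ((JJ X).card : ℝ) ≤ X := by
      unfold JJ
      rw [Int.card_Ico]
      have : (2 * (X:ℤ) + X / 4 - 2 * X).toNat ≤ X := by omega
      exact_mod_cast this
    refine (norm_sum_le_of_le _ (fun m hm => ?_) : _ ≤ ∑ m ∈ JJ X, B ^ 4).trans ?_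
    · have hm' := u3_mem hm
      rw [norm_mul, norm_mul, norm_mul, RCLike.norm_conj, RCLike.norm_conj]
      have e1 : ‖F m‖ ≤ B := by rw [hB]; exact hF.bd m hm'.1 hm'.2.1
      calc ‖F m‖ * ‖cutJ X F (m + h)‖ * ‖cutJ X F (m + l)‖ * ‖cutJ X F (m + h + l)‖ ≤ B * B * B * B := by
            gcongr
            · exact hcB _
            · exact hcB _
            · exact hcB _
        _ = B ^ 4 := by ring
    · rw [Finset.sum_const, nsmul_eq_mul]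
      exact mul_le_mul_of_nonneg_right hcard (by positivity)
  calc ∑ h ∈ Ioo (-(X : ℤ)) X, ∑ l ∈ Ioo (-(X : ℤ)) X, ‖∑ m ∈ JJ X, F m * (starRingEnd ℂ) (cutJ X F (m + h)) *
      (starRingEnd ℂ) (cutJ X F (m + l)) * cutJ X F (m + h + l)‖ ^ 2
      ≤ ∑ h ∈ Ioo (-(X : ℤ)) X, ∑ l ∈ Ioo (-(X : ℤ)) X, (X * B ^ 4) * ‖S h l‖ := by
        refine Finset.sum_le_sum fun h _ => Finset.sum_le_sum fun l _ => ?_
        rw [← hS, sq]
        exact mul_le_mul_of_nonneg_right (h4 h l) (norm_nonneg _)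
    _ = (X * B ^ 4) * ∑ h ∈ Ioo (-(X : ℤ)) X, ∑ l ∈ Ioo (-(X : ℤ)) X, ‖S h l‖ := by
        rw [Finset.mul_sum]
        refine Finset.sum_congr rfl fun h _ => ?_
        rw [Finset.mul_sum]
    _ ≤ (X * B ^ 4) * (B ^ 3 * (X : ℝ) ^ (3 - κ / 2)) := mul_le_mul_of_nonneg_left h3 (by positivity)
    _ = (X:ℝ) ^ (4 - κ / 2 + 7 * κ / 100) := by
        have e1 : (X * B ^ 4) * (B ^ 3 * (X : ℝ) ^ (3 - κ / 2)) = X * (B ^ 7 * (X : ℝ) ^ (3 - κ / 2)) := by ring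
        rw [e1, hB, ← Real.rpow_natCast, ← Real.rpow_mul hXp.le, ← Real.rpow_add hXp]
        nth_rewrite 1 [← Real.rpow_one (X:ℝ)]
        rw [← Real.rpow_add hXp]
        congr 1
        push_cast
        ring
    _ ≤ (X:ℝ) ^ (4 - κ / 4) := Real.rpow_le_rpow_of_exponent_le hXr (by linarith)

end Pool.Agent.H9U
end
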