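import Pool.Agent.Lib.H59M.M2.M024
import Pool.Agent.Lib.H59M.M2.M044
import Pool.Agent.Lib.H59M.M2.M057
import Pool.Agent.Lib.H59M.M2.M066
import Pool.Agent.Lib.H59M.M2.M080
import Pool.Agent.Lib.H59M.M2.M088
import Pool.Agent.Lib.H59M.M2.M098

/-! Merged copies (to shorten the build) of Lib.HUK.C1, Lib.HUK.C2, Lib.HUK.C3, Lib.HUK.C4, Lib.HUP.FG0, Lib.HUP.FGA7, Lib.HUP.FGA3. -/

-- from Lib.HUK.C1
section

/-!
# HUK, chunk C1 (S/M): rules for the dual function `Psi`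
-/

open Finset

namespace Pool.Agent.HUK

open Pool.Agent.H44W (ee)

/-- `Psi` does not depend on the window. Proof. `Ioo (-2Y) (2Y) ⊆ Ioo (-2Y') (2Y')` and the other terms vanish: if `f 0 (n - k h) ≠ 0` and
`f 1 (n - (k - 1) h) ≠ 0` then both arguments are in `[-Y, Y)`, their difference is `h`, so `|h| < 2Y`. (`0, 1 ∈ range k` as `2 ≤ k`.) -/
theorem C1_scale (Y Y' k : ℕ) (hk : 2 ≤ k) (h : Y ≤ Y') (f : ℕ → ℤ → ℂ)
    (hf : ∀ j, j < k → ∀ y, y ∉ Ico (-(Y : ℤ)) Y → f j y = 0) (n : ℤ) : Psi Y' k f n = Psi Y k f n := by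
  unfold Psi
  symm
  refine Finset.sum_subset ?_ ?_
  · intro x hx
    rw [Finset.mem_Ioo] at hx ⊢
    omega
  · intro m _ hm
    by_contra hne
    rw [← ne_eq, Finset.prod_ne_zero_iff] at hne
    have h0 := hne 0 (Finset.mem_range.mpr (by omega))
    have h1 := hne 1 (Finset.mem_range.mpr (by omega))
    have i0 : n - ((k : ℤ) - (0 : ℕ)) * m ∈ Ico (-(Y : ℤ)) Y := by
      by_contra hc
      exact h0 (hf 0 (by omega) _ hc)
    have i1 : n - ((k : ℤ) - (1 : ℕ)) * m ∈ Ico (-(Y : ℤ)) Y := by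
      by_contra hc
      exact h1 (hf 1 (by omega) _ hc)
    have e0 : n - ((k : ℤ) - (0 : ℕ)) * m = n - k * m := by push_cast; ring
    have e1 : n - ((k : ℤ) - (1 : ℕ)) * m = n - k * m + m := by push_cast; ring
    rw [e0, Finset.mem_Ico] at i0
    rw [e1, Finset.mem_Ico] at i1
    apply hm
    rw [Finset.mem_Ioo]
    omega

/-- Translations. Unfold. -/
theorem C1_shift (Y k : ℕ) (f : ℕ → ℤ → ℂ) (a n : ℤ) :
    Psi Y k (fun j x => f j (x + a)) n = Psi Y k f (n + a) := by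
  unfold Psi
  refine Finset.sum_congr rfl fun m _ => Finset.prod_congr rfl fun j _ => ?_
  show f j (n - ((k : ℤ) - j) * m + a) = f j (n + a - ((k : ℤ) - j) * m)
  rw [show n - ((k : ℤ) - j) * m + a = n + a - ((k : ℤ) - j) * m by ring]

/-- The functions which absorb a phase. -/
noncomputable def phf (k : ℕ) (θ : ℝ) (f : ℕ → ℤ → ℂ) : ℕ → ℤ → ℂ := fun j x =>
  if j = 0 then f 0 x * ee (-(θ * ((k : ℝ) - 1)) * x) else if j = 1 then f 1 x * ee (θ * k * x) else f j x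

/-- Phases: `n = k (n - (k - 1) h) - (k - 1) (n - k h)`, `ee_add` (`H44W/E1`). Split the factors `j = 0, 1` off the product over `range k`
(`k = k' + 2`, `prod_range_succ'` twice). -/
theorem C1_phase (Y k : ℕ) (hk : 2 ≤ k) (f : ℕ → ℤ → ℂ) (θ : ℝ) (n : ℤ) :
    ee (θ * n) * Psi Y k f n = Psi Y k (phf k θ f) n := by
  obtain ⟨k', rfl⟩ : ∃ k', k = k' + 2 := ⟨k - 2, by omega⟩
  unfold Psi
  rw [Finset.mul_sum]
  refine Finset.sum_congr rfl fun m _ => ?_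
  rw [Finset.prod_range_succ' _ (k' + 1), Finset.prod_range_succ' _ k', Finset.prod_range_succ' _ (k' + 1),
    Finset.prod_range_succ' _ k']
  have e2 : ∀ (j : ℕ) (x : ℤ), phf (k' + 2) θ f (j + 1 + 1) x = f (j + 1 + 1) x := by
    intro j x
    unfold phf
    rw [if_neg (by omega), if_neg (by omega)]
  have e1 : ∀ x : ℤ, phf (k' + 2) θ f (0 + 1) x = f (0 + 1) x * ee (θ * ((k' + 2 : ℕ) : ℝ) * x) := by
    intro x
    unfold phf
    rw [if_neg (by omega), if_pos rfl]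
  have e0 : ∀ x : ℤ, phf (k' + 2) θ f 0 x = f 0 x * ee (-(θ * (((k' + 2 : ℕ) : ℝ) - 1)) * x) := by
    intro x
    unfold phf
    rw [if_pos rfl]
  rw [e1, e0]
  simp only [e2]
  have e3 : ee (θ * n) = ee (θ * ((k' + 2 : ℕ) : ℝ) * ((n - (((k' + 2 : ℕ) : ℤ) - ((0 + 1 : ℕ) : ℤ)) * m : ℤ) : ℝ)) *
      ee (-(θ * (((k' + 2 : ℕ) : ℝ) - 1)) * ((n - (((k' + 2 : ℕ) : ℤ) - ((0 : ℕ) : ℤ)) * m : ℤ) : ℝ)) := by
    rw [← Pool.Agent.H44W.ee_add]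
    congr 1
    push_cast
    ring
  rw [e3]
  ring

theorem C1_phase_bdd (Y k : ℕ) (f : ℕ → ℤ → ℂ) (θ : ℝ) (hf : ∀ j, j < k → Bdd Y (f j)) :
    ∀ j, j < k → Bdd Y (phf k θ f j) := by
  intro j hj
  have hn : ∀ t : ℝ, ‖ee t‖ = 1 := fun t => Pool.Agent.H44W.norm_ee t
  refine ⟨fun y => ?_, fun y hy => ?_⟩
  · unfold phf
    by_cases h0 : j = 0
    · rw [if_pos h0, norm_mul, hn, mul_one]
      exact (hf 0 (by omega)).le y
    · rw [if_neg h0]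
      by_cases h1 : j = 1
      · rw [if_pos h1, norm_mul, hn, mul_one]
        exact (hf 1 (by omega)).le y
      · rw [if_neg h1]
        exact (hf j hj).le y
  · unfold phf
    by_cases h0 : j = 0
    · rw [if_pos h0, (hf 0 (by omega)).sup y hy, zero_mul]
    · rw [if_neg h0]
      by_cases h1 : j = 1
      · rw [if_pos h1, (hf 1 (by omega)).sup y hy, zero_mul]
      · rw [if_neg h1]
        exact (hf j hj).sup y hy

/-- `GG_phase` (`P1`). -/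
theorem C1_phase_GG (Y k s : ℕ) (hs : 2 ≤ s) (f : ℕ → ℤ → ℂ) (θ : ℝ) : GG Y s (phf k θ f 0) = GG Y s (f 0) := by
  have e : phf k θ f 0 = fun x : ℤ => f 0 x * ee (-(θ * ((k : ℝ) - 1)) * x) := by
    funext x
    unfold phf
    rw [if_pos rfl]
  rw [e]
  exact GG_phase Y s hs (f 0) _

/-- Homogeneity: `DL_smul` (`P0`); every term of `GG` gets the factor `c^(2^s)`. -/
theorem C1_smul (Y s : ℕ) (f : ℤ → ℂ) (c : ℝ) : GG Y s (fun x => (c : ℂ) * f x) = c ^ (2 ^ s) * GG Y s f := by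
  unfold GG
  have e : ∀ h : Fin s → ℤ, FF Y h (fun x => (c : ℂ) * f x) = ((c ^ (2 ^ s) : ℝ) : ℂ) * FF Y h f := by
    intro h
    unfold FF DV
    rw [Finset.mul_sum, DL_smul, List.length_ofFn]
  rw [Finset.sum_congr rfl fun h _ => e h, ← Finset.mul_sum, Complex.re_ofReal_mul]

end Pool.Agent.HUK
end

-- from Lib.HUK.C2
section

/-!
# HUK, chunk C2 (M): the interface `TLP` with sharp cutoffs and translations
-/

open Finset

namespace Pool.Agent.HUK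

open Pool.Agent.H44W (ee)
open Pool.Agent.H9S (lc)
open Pool.Agent.H9U (JJ)

theorem c2_large (C D r : ℝ) (hr : 0 < r) :
    ∃ X0 : ℕ, ∀ X : ℕ, X0 ≤ X → C + D * Real.log X ≤ (X : ℝ) ^ r := by
  have h1 : ∀ᶠ x : ℝ in Filter.atTop, ‖Real.log x‖ ≤ (1 / (2 * (|D| + 1))) * ‖x ^ r‖ :=
    (isLittleO_log_rpow_atTop hr).def (by positivity)
  have h2 : ∀ᶠ x : ℝ in Filter.atTop, 2 * C ≤ x ^ r :=
    (tendsto_rpow_atTop hr).eventually_ge_atTop (2 * C)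
  have h3 : ∀ᶠ x : ℝ in Filter.atTop, C + D * Real.log x ≤ x ^ r := by
    filter_upwards [h1, h2, Filter.eventually_ge_atTop (1 : ℝ)] with x hx1 hx2 hx3
    have hl : 0 ≤ Real.log x := Real.log_nonneg hx3
    have hp : 0 ≤ x ^ r := Real.rpow_nonneg (by linarith) r
    rw [Real.norm_of_nonneg hl, Real.norm_of_nonneg hp] at hx1
    have hD : D * Real.log x ≤ (|D| + 1) * Real.log x :=
      mul_le_mul_of_nonneg_right (by linarith [le_abs_self D]) hl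
    have hD2 : (|D| + 1) * Real.log x ≤ (|D| + 1) * ((1 / (2 * (|D| + 1))) * x ^ r) :=
      mul_le_mul_of_nonneg_left hx1 (by positivity)
    have hD3 : (|D| + 1) * ((1 / (2 * (|D| + 1))) * x ^ r) = x ^ r / 2 := by
      have : (|D| + 1) ≠ 0 := by positivity
      field_simp
    linarith
  obtain ⟨a, ha⟩ := Filter.eventually_atTop.1 h3
  refine ⟨⌈a⌉₊, fun X hX => ha X ?_⟩
  exact le_trans (Nat.le_ceil a) (by exact_mod_cast hX)

/-- Reindexing. -/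
theorem c2_reindex (X N : ℕ) (w : ℤ) (hw : |w| ≤ X) (hX : 1 ≤ X) (hN : 4 * X ≤ N) (F : ℤ → ℂ) :
    ∑ m ∈ JJ X, F (m - w) =
      ∑ n ∈ Icc 1 N, (if (2 * (X : ℤ) - w) ≤ (n : ℤ) ∧ (n : ℤ) < 2 * X + X / 4 - w then (1 : ℂ) else 0) * F n := by
  have hw' := abs_le.1 hw
  simp only [ite_mul, one_mul, zero_mul]
  rw [← sum_filter]
  symm
  refine Finset.sum_bij (fun n _ => (n : ℤ) + w) ?_ ?_ ?_ ?_
  · intro n hn
    rw [mem_filter] at hn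
    unfold JJ
    rw [mem_Ico]
    omega
  · intro a _ b _ hab
    have : (a : ℤ) + w = b + w := hab
    omega
  · intro m hm
    unfold JJ at hm
    rw [mem_Ico] at hm
    refine ⟨(m - w).toNat, ?_, ?_⟩
    · rw [mem_filter, mem_Icc]
      refine ⟨⟨by omega, by omega⟩, by omega, by omega⟩
    · show (((m - w).toNat : ℕ) : ℤ) + w = m
      omega
  · intro n _
    show F n = F (n + w - w)
    rw [add_sub_cancel_right]

/-- Proof. Put `g j x = f j (x + w)`, `n = m - w`, `B' = B + 1`, `Y' = B' X`. `Psi (B X) k f m = Psi Y' k f m` (`C1_scale`) `= Psi Y' k g n` (`C1_shift`).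
`m ∈ JJ X` iff `u ≤ n < v`, `u = 2X - w`, `v = 2X + X/4 - w`; these `n` are in `[1, 2 k Y']` (`|w| ≤ X`, `X ≥ 1`). So the sum is
`∑_{n ∈ Icc 1 (2kY')} [u ≤ n < v] lc n Psi Y' k g n`; insert `U1A_ind M u v` (`H9U/U1A`) with `M = 2kY' + 1` (`0 ≤ n < M`), the phases
`ee(j n/M)` are absorbed by `C1_phase`: each `j` gives at most `(Y')^(2 - κ1)` by `TLP k` for `κ` at scale `Y'` (`Bdd Y' (phf ..)`: `C1_phase_bdd`; `GG Y' (k-1) (g 0) =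
GG (B X) (k-1) (f 0) ≤ X^(k-κ) ≤ (Y')^(k-κ)` by `GG_shift`, `C1_phase_GG`; `k - 1 ≥ 2`). Total `4 (1 + log M) (B'X)^(2-κ1) ≤ X^(2 - κ')`, `κ' = κ1/2`,
`X` large. `lc n = ((lp n : ℝ) : ℂ)`. -/
theorem C2_cut (k : ℕ) (hk : 3 ≤ k) (hT : TLP k) (B : ℕ) (hB : 1 ≤ B) (κ : ℝ) (hκ : 0 < κ) (hκ1 : κ ≤ 1) :
    ∃ κ' : ℝ, 0 < κ' ∧ ∃ X0 : ℕ, ∀ X : ℕ, X0 ≤ X → ∀ f : ℕ → ℤ → ℂ, (∀ j, j < k → Bdd (B * X) (f j)) →
    GG (B * X) (k - 1) (f 0) ≤ (X : ℝ) ^ (k - κ) → ∀ w : ℤ, |w| ≤ X →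
    ‖∑ m ∈ JJ X, lc (m - w) * Psi (B * X) k f m‖ ≤ (X : ℝ) ^ (2 - κ') := by
  obtain ⟨κ1, hκ10, X1, hX1⟩ := hT κ hκ
  obtain ⟨X2, hX2⟩ := c2_large (4 * (B + 1) ^ 2 * (1 + Real.log (2 * k * (B + 1) + 1))) (4 * (B + 1) ^ 2)
    (κ1 / 2) (by positivity)
  refine ⟨κ1 / 2, by positivity, max (max X1 X2) 1, fun X hX f hf hG w hw => ?_⟩
  have hXX1 : X1 ≤ X := le_trans (le_trans (le_max_left _ _) (le_max_left _ _)) hX
  have hXX2 : X2 ≤ X := le_trans (le_trans (le_max_right _ _) (le_max_left _ _)) hX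
  have hX0 : 1 ≤ X := le_trans (le_max_right _ _) hX
  have hXr : (1 : ℝ) ≤ X := by exact_mod_cast hX0
  have hw' := abs_le.1 hw
  set Y : ℕ := (B + 1) * X with hY
  have hYX : X ≤ Y := by rw [hY]; nlinarith
  have hYB : B * X ≤ Y := by rw [hY]; nlinarith
  have hYr : (Y : ℝ) = (B + 1) * X := by rw [hY]; push_cast; ring
  set g : ℕ → ℤ → ℂ := fun j x => f j (x + w) with hg
  have hgb : ∀ j, j < k → Bdd Y (g j) := by
    intro j hj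
    refine ⟨fun y => (hf j hj).le _, fun y hy => (hf j hj).sup _ ?_⟩
    intro h3
    apply hy
    rw [mem_Ico] at h3 ⊢
    have e1 : (Y : ℤ) = B * X + X := by rw [hY]; push_cast; ring
    push_cast at h3
    rw [e1]
    constructor <;> linarith [h3.1, h3.2, hw'.1, hw'.2]
  have hGg : GG Y (k - 1) (g 0) ≤ (Y : ℝ) ^ (k - κ) := by
    have h1 : GG Y (k - 1) (g 0) = GG (B * X) (k - 1) (f 0) :=
      GG_shift (B * X) Y (k - 1) w (f 0) (hf 0 (by omega)).sup (hgb 0 (by omega)).sup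
    rw [h1]
    refine le_trans hG (Real.rpow_le_rpow (by positivity) (by exact_mod_cast hYX) ?_)
    have : (3 : ℝ) ≤ k := by exact_mod_cast hk
    linarith
  have hPsi : ∀ m : ℤ, Psi (B * X) k f m = Psi Y k g (m - w) := by
    intro m
    rw [hg, C1_shift, sub_add_cancel]
    exact (C1_scale (B * X) Y k (by omega) hYB f (fun j hj => (hf j hj).sup) m).symm
  have hkX : 4 * X ≤ 2 * k * Y := by
    have e2 : 6 ≤ 2 * k := by omega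
    nlinarith
  set M : ℕ := 2 * k * Y + 1 with hM
  obtain ⟨c, hc1, hc2⟩ := Pool.Agent.H9U.U1A_ind M (by omega) (2 * (X : ℤ) - w) (2 * X + X / 4 - w)
  have hsum : ∑ m ∈ JJ X, lc (m - w) * Psi (B * X) k f m =
      ∑ j ∈ range M, c j * ∑ n ∈ Icc 1 (2 * k * Y), ((Pool.Agent.Lib.H68T.lp n : ℝ) : ℂ) *
        Psi Y k (phf k ((j : ℝ) / M) g) n := by
    have h1 : ∑ m ∈ JJ X, lc (m - w) * Psi (B * X) k f m =
        ∑ m ∈ JJ X, (fun n : ℤ => lc n * Psi Y k g n) (m - w) := by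
      refine sum_congr rfl fun m _ => ?_
      rw [hPsi m]
    rw [h1]
    refine (c2_reindex X (2 * k * Y) w hw hX0 hkX (fun n : ℤ => lc n * Psi Y k g n)).trans ?_
    simp only [mul_sum]
    rw [sum_comm]
    refine sum_congr rfl fun n hn => ?_
    rw [mem_Icc] at hn
    rw [hc1 (n : ℤ) (by omega) (by omega), sum_mul]
    refine sum_congr rfl fun j _ => ?_
    have h2 : (j : ℝ) * ((n : ℤ) : ℝ) / M = (j : ℝ) / M * ((n : ℤ) : ℝ) := by ring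
    rw [h2, ← C1_phase Y k (by omega) g ((j : ℝ) / M) (n : ℤ)]
    unfold lc
    ring
  rw [hsum]
  have hterm : ∀ j ∈ range M, ‖c j * ∑ n ∈ Icc 1 (2 * k * Y), ((Pool.Agent.Lib.H68T.lp n : ℝ) : ℂ) *
        Psi Y k (phf k ((j : ℝ) / M) g) n‖ ≤ ‖c j‖ * (Y : ℝ) ^ (2 - κ1) := by
    intro j _
    rw [norm_mul]
    refine mul_le_mul_of_nonneg_left ?_ (norm_nonneg _)
    refine hX1 Y (le_trans hXX1 hYX) _ (C1_phase_bdd Y k g _ hgb) ?_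
    rw [C1_phase_GG Y k (k - 1) (by omega) g]
    exact hGg
  refine le_trans (norm_sum_le _ _) (le_trans (sum_le_sum hterm) ?_)
  rw [← sum_mul]
  have hYp : (0 : ℝ) ≤ (Y : ℝ) ^ (2 - κ1) := by positivity
  refine le_trans (mul_le_mul_of_nonneg_right hc2 hYp) ?_
  have hlog : Real.log M ≤ Real.log (2 * k * (B + 1) + 1) + Real.log X := by
    rw [← Real.log_mul (by positivity) (by positivity)]
    refine Real.log_le_log (by rw [hM]; positivity) ?_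
    rw [hM]
    push_cast
    rw [hYr]
    nlinarith
  have hY2 : (Y : ℝ) ^ (2 - κ1) ≤ (B + 1) ^ 2 * (X : ℝ) ^ (2 - κ1) := by
    rw [hYr, Real.mul_rpow (by positivity) (by positivity)]
    refine mul_le_mul_of_nonneg_right ?_ (by positivity)
    rw [← Real.rpow_natCast]
    refine Real.rpow_le_rpow_of_exponent_le ?_ ?_
    · have : (0 : ℝ) ≤ B := by positivity
      linarith
    · push_cast
      linarith
  have hlog0 : 0 ≤ Real.log M := Real.log_nonneg (by rw [hM]; push_cast; nlinarith [Nat.cast_nonneg (α := ℝ) (2 * k * Y)])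
  have hfin := hX2 X hXX2
  calc 4 * (1 + Real.log M) * (Y : ℝ) ^ (2 - κ1)
      ≤ 4 * (1 + Real.log M) * ((B + 1) ^ 2 * (X : ℝ) ^ (2 - κ1)) :=
        mul_le_mul_of_nonneg_left hY2 (by positivity)
    _ ≤ 4 * (1 + (Real.log (2 * k * (B + 1) + 1) + Real.log X)) * ((B + 1) ^ 2 * (X : ℝ) ^ (2 - κ1)) := by
        refine mul_le_mul_of_nonneg_right ?_ (by positivity)
        linarith
    _ = (4 * (B + 1) ^ 2 * (1 + Real.log (2 * k * (B + 1) + 1)) + 4 * (B + 1) ^ 2 * Real.log X) *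
        (X : ℝ) ^ (2 - κ1) := by ring
    _ ≤ (X : ℝ) ^ (κ1 / 2) * (X : ℝ) ^ (2 - κ1) := mul_le_mul_of_nonneg_right hfin (by positivity)
    _ = (X : ℝ) ^ (2 - κ1 / 2) := by
        rw [← Real.rpow_add (by linarith)]
        congr 1
        ring

end Pool.Agent.HUK
end

-- from Lib.HUK.C3
section

/-!
# HUK, chunk C3 (S/M): the projections of low level
-/

open Finset

namespace Pool.Agent.HUK

open Pool.Agent.H9S (lc Lc)
open Pool.Agent.H9U (JJ)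

/-- Proof. `Lc Q Y m = ∑_{z ∈ Ioo (-Y) Y} kern Q Y z * lc (m - z)` (definition of `Lk`), `K1_mass` (`H9S/K1`): `∑ |kern Q Y z| ≤ Q^3`. `C2_cut` with
`w = 0` and `w = z`, `|z| < Y ≤ X`. -/
theorem C3_kern (k : ℕ) (hk : 3 ≤ k) (hT : TLP k) (B : ℕ) (hB : 1 ≤ B) (κ : ℝ) (hκ : 0 < κ) (hκ1 : κ ≤ 1) :
    ∃ κ' : ℝ, 0 < κ' ∧ ∃ X0 : ℕ, ∀ X : ℕ, X0 ≤ X → ∀ f : ℕ → ℤ → ℂ, (∀ j, j < k → Bdd (B * X) (f j)) →
    GG (B * X) (k - 1) (f 0) ≤ (X : ℝ) ^ (k - κ) → ∀ Q Y : ℕ, Y ≤ X →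
    ‖∑ m ∈ JJ X, (lc m - Lc Q Y m) * Psi (B * X) k f m‖ ≤ (1 + (Q : ℝ) ^ 3) * (X : ℝ) ^ (2 - κ') := by
  obtain ⟨κ', hκ', X0, hX0⟩ := C2_cut k hk hT B hB κ hκ hκ1
  refine ⟨κ', hκ', X0, fun X hX f hf hG Q Y hY => ?_⟩
  have hcut := hX0 X hX f hf hG
  have h0 : ‖∑ m ∈ JJ X, lc m * Psi (B * X) k f m‖ ≤ (X : ℝ) ^ (2 - κ') := by
    have h := hcut 0 (by simp)
    simpa using h
  have e1 : ∑ m ∈ JJ X, Lc Q Y m * Psi (B * X) k f m =
      ∑ z ∈ Ioo (-(Y:ℤ)) Y, ((Pool.Agent.Lib.H68T.kern Q Y z : ℝ) : ℂ) *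
        ∑ m ∈ JJ X, lc (m - z) * Psi (B * X) k f m := by
    have h1 : ∀ m ∈ JJ X, Lc Q Y m * Psi (B * X) k f m =
        ∑ z ∈ Ioo (-(Y:ℤ)) Y, ((Pool.Agent.Lib.H68T.kern Q Y z : ℝ) : ℂ) *
          (lc (m - z) * Psi (B * X) k f m) := by
      intro m _
      have h2 : Lc Q Y m = ∑ z ∈ Ioo (-(Y:ℤ)) Y,
          ((Pool.Agent.Lib.H68T.kern Q Y z : ℝ) : ℂ) * lc (m - z) := by
        unfold Pool.Agent.H9S.Lc Pool.Agent.Lib.H68T.Lk Pool.Agent.H9S.lc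
        push_cast
        rfl
      rw [h2, sum_mul]
      exact sum_congr rfl fun z _ => by ring
    rw [sum_congr rfl h1, sum_comm]
    exact sum_congr rfl fun z _ => by rw [mul_sum]
  have h3 : ‖∑ m ∈ JJ X, Lc Q Y m * Psi (B * X) k f m‖ ≤ (Q : ℝ) ^ 3 * (X : ℝ) ^ (2 - κ') := by
    rw [e1]
    refine (norm_sum_le _ _).trans ?_
    have h4 : ∀ z ∈ Ioo (-(Y:ℤ)) Y, ‖((Pool.Agent.Lib.H68T.kern Q Y z : ℝ) : ℂ) *
        ∑ m ∈ JJ X, lc (m - z) * Psi (B * X) k f m‖ ≤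
        |Pool.Agent.Lib.H68T.kern Q Y z| * (X : ℝ) ^ (2 - κ') := by
      intro z hz
      rw [norm_mul, Complex.norm_real, Real.norm_eq_abs]
      refine mul_le_mul_of_nonneg_left (hcut z ?_) (abs_nonneg _)
      rw [mem_Ioo] at hz
      have hY' : (Y : ℤ) ≤ X := by exact_mod_cast hY
      rw [abs_le]
      constructor <;> linarith [hz.1, hz.2]
    refine (sum_le_sum h4).trans ?_
    rw [← sum_mul]
    exact mul_le_mul_of_nonneg_right (Pool.Agent.H9S.K1_mass Q Y)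
      (Real.rpow_nonneg (Nat.cast_nonneg X) _)
  have e2 : ∑ m ∈ JJ X, (lc m - Lc Q Y m) * Psi (B * X) k f m =
      ∑ m ∈ JJ X, lc m * Psi (B * X) k f m - ∑ m ∈ JJ X, Lc Q Y m * Psi (B * X) k f m := by
    rw [← sum_sub_distrib]
    exact sum_congr rfl fun m _ => by ring
  rw [e2]
  refine (norm_sub_le _ _).trans ?_
  linarith [h0, h3]

end Pool.Agent.HUK
end

-- from Lib.HUK.C4
section

/-!
# HUK, chunk C4 (M): the error `Er` against dual functions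
-/

open Finset

namespace Pool.Agent.HUK

open Pool.Agent.H9S (lc Lc)
open Pool.Agent.H9U (JJ Er Rgm)

theorem c4_Q2 (t : ℝ) (h1 : 1 ≤ t) : 1 ≤ ⌊t⌋₊ ∧ ((⌊t⌋₊ : ℕ) : ℝ) ≤ t ∧ t / 2 ≤ ((⌊t⌋₊ : ℕ) : ℝ) := by
  have h2 : 1 ≤ ⌊t⌋₊ := Nat.le_floor (by rw [Nat.cast_one]; exact h1)
  refine ⟨h2, Nat.floor_le (by linarith), ?_⟩
  have h3 : t < ((⌊t⌋₊ : ℕ) : ℝ) + 1 := Nat.lt_floor_add_one t
  have h4 : (1 : ℝ) ≤ ((⌊t⌋₊ : ℕ) : ℝ) := by exact_mod_cast h2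
  linarith

theorem c4_neg (x b c θ2 : ℝ) (hx : 1 ≤ x) (hc : 0 < c) (hb : x ^ θ2 / 2 ≤ b) :
    b ^ (-c) ≤ 2 ^ c * x ^ (-(c * θ2)) := by
  have hx0 : 0 < x := by linarith
  have h1 : 0 < x ^ θ2 / 2 := div_pos (Real.rpow_pos_of_pos hx0 _) two_pos
  have h2 : b ^ (-c) ≤ (x ^ θ2 / 2) ^ (-c) :=
    Real.rpow_le_rpow_of_nonpos h1 hb (by linarith)
  refine h2.trans (le_of_eq ?_)
  rw [Real.div_rpow (Real.rpow_nonneg hx0.le _) two_pos.le, ← Real.rpow_mul hx0.le,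
    Real.rpow_neg two_pos.le c, div_inv_eq_mul, mul_comm ((2 : ℝ) ^ c)]
  congr 2
  ring

/-- Proof. `K` from `LKP k` for `B`. Given `Cr θ κ`: `κ1` from `C3_kern`; `θ2 = min θ (κ1/6)`, `Q2 = ⌊X^θ2⌋₊`: `1 ≤ Q2 ≤ Q'` (`Rgm.low`: `X^θ2 ≤ X^θ ≤ Q'`, `X ≥ 1`),
`Q2 ≥ X^θ2/2`. With `Y = X/Q²`:
`Er Q Q' X m = (lc m - Lc Q2 Y m) - (Lk Q' Y m - Lk Q2 Y m)` and `Lk Q' - Lk Q2 = (Lk Q - Lk Q2) - (Lk Q - Lk Q')`.
First part: `C3_kern` with `Q2`: at most `2 X^(3 θ2) X^(2-κ1) ≤ 2 X^(2-κ1/2)`. Second: twice `LKP k` (with `Q2` and with `Q'`):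
at most `2 C X² Q2^(-c) ≤ 2 C 2^c X^(2 - c θ2)`. `κ' = min (min (κ1/2) (c θ2)) 1 / 2`, `X` large. -/
theorem C4_est (k : ℕ) (hk : 3 ≤ k) (hT : TLP k) (hL : LKP k) (B : ℕ) (hB : 1 ≤ B) : ∃ K : ℝ, 1 ≤ K ∧
    ∀ Cr θ κ : ℝ, 1 ≤ Cr → 0 < θ → 0 < κ → κ ≤ 1 → ∃ κ' : ℝ, 0 < κ' ∧ κ' ≤ 1 ∧ ∃ X0 : ℕ, ∀ Q Q' X : ℕ, X0 ≤ X →
    Rgm K Cr θ Q Q' X → ∀ f : ℕ → ℤ → ℂ, (∀ j, j < k → Bdd (B * X) (f j)) →
    GG (B * X) (k - 1) (f 0) ≤ (X : ℝ) ^ (k - κ) →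
    ‖∑ m ∈ JJ X, Er Q Q' X m * Psi (B * X) k f m‖ ≤ (X : ℝ) ^ (2 - κ') := by
  obtain ⟨K, C, c, hK, hC, hc, hLK⟩ := hL B
  refine ⟨K, hK, ?_⟩
  intro Cr θ κ hCr hθ hκ hκle
  obtain ⟨κ1, hκ1, X1, h3⟩ := C3_kern k hk hT B hB κ hκ hκle
  have hθ2 : 0 < min θ (κ1 / 6) := lt_min hθ (by linarith)
  have hθ2a : min θ (κ1 / 6) ≤ θ := min_le_left _ _
  have hθ2b : min θ (κ1 / 6) ≤ κ1 / 6 := min_le_right _ _
  generalize min θ (κ1 / 6) = θ2 at hθ2 hθ2a hθ2b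
  have hm0 : 0 < min (min (κ1 / 2) (c * θ2)) 1 :=
    lt_min (lt_min (by linarith) (mul_pos hc hθ2)) one_pos
  have hm1 : min (min (κ1 / 2) (c * θ2)) 1 ≤ κ1 / 2 := (min_le_left _ _).trans (min_le_left _ _)
  have hm2 : min (min (κ1 / 2) (c * θ2)) 1 ≤ c * θ2 := (min_le_left _ _).trans (min_le_right _ _)
  have hm3 : min (min (κ1 / 2) (c * θ2)) 1 ≤ 1 := min_le_right _ _
  generalize min (min (κ1 / 2) (c * θ2)) 1 = m at hm0 hm1 hm2 hm3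
  refine ⟨m / 2, by linarith, by linarith, ?_⟩
  have hA : 0 < 2 + 2 * C * 2 ^ c := by positivity
  refine ⟨max (max X1 1) ⌈(2 + 2 * C * 2 ^ c) ^ (1 / (m / 2))⌉₊, ?_⟩
  intro Q Q' X hX hR f hf hG
  have hX1 : X1 ≤ X := ((le_max_left _ _).trans (le_max_left _ _)).trans hX
  have hX2 : 1 ≤ X := ((le_max_right _ _).trans (le_max_left _ _)).trans hX
  have hX3 : ⌈(2 + 2 * C * 2 ^ c) ^ (1 / (m / 2))⌉₊ ≤ X := (le_max_right _ _).trans hX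
  have hx1 : (1 : ℝ) ≤ X := by exact_mod_cast hX2
  have hx0 : (0 : ℝ) < X := by linarith
  have hbig : 2 + 2 * C * 2 ^ c ≤ (X : ℝ) ^ (m / 2) := by
    have h4 : (2 + 2 * C * 2 ^ c) ^ (1 / (m / 2)) ≤ (X : ℝ) :=
      (Nat.le_ceil _).trans (by exact_mod_cast hX3)
    have h5 := Real.rpow_le_rpow (Real.rpow_nonneg hA.le _) h4 (by linarith : 0 ≤ m / 2)
    rw [← Real.rpow_mul hA.le, one_div_mul_cancel (by linarith : m / 2 ≠ 0), Real.rpow_one] at h5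
    exact h5
  have ht1 : 1 ≤ (X : ℝ) ^ θ2 := Real.one_le_rpow hx1 hθ2.le
  obtain ⟨hQ1, hQ2, hQ3⟩ := c4_Q2 ((X : ℝ) ^ θ2) ht1
  generalize ⌊(X : ℝ) ^ θ2⌋₊ = Q2 at hQ1 hQ2 hQ3
  have hQQ' : Q2 ≤ Q' := by
    have h4 : ((Q2 : ℕ) : ℝ) ≤ (Q' : ℝ) :=
      (hQ2.trans (Real.rpow_le_rpow_of_exponent_le hx1 hθ2a)).trans hR.low
    exact_mod_cast h4
  have hQ'1 : 1 ≤ Q' := hQ1.trans hQQ'
  -- the three parts
  have hP1 := h3 X hX1 f hf hG Q2 (X / Q ^ 2) (Nat.div_le_self _ _)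
  have hP2 := hLK Q Q2 X hR.reg hQ1 (hQQ'.trans hR.le) f hf
  have hP3 := hLK Q Q' X hR.reg hQ'1 hR.le f hf
  have hsum : ∑ m ∈ JJ X, Er Q Q' X m * Psi (B * X) k f m =
      ∑ m ∈ JJ X, (lc m - Lc Q2 (X / Q ^ 2) m) * Psi (B * X) k f m +
      ∑ n ∈ JJ X, ((Lib.H68T.Lk Q (X / Q ^ 2) n - Lib.H68T.Lk Q' (X / Q ^ 2) n : ℝ) : ℂ) * Psi (B * X) k f n -
      ∑ n ∈ JJ X, ((Lib.H68T.Lk Q (X / Q ^ 2) n - Lib.H68T.Lk Q2 (X / Q ^ 2) n : ℝ) : ℂ) * Psi (B * X) k f n := by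
    rw [← sum_add_distrib, ← sum_sub_distrib]
    refine sum_congr rfl fun n _ => ?_
    unfold Er Lc
    push_cast
    ring
  have hb1 : (1 + (Q2 : ℝ) ^ 3) * (X : ℝ) ^ (2 - κ1) ≤ 2 * (X : ℝ) ^ (2 - m) := by
    have h4 : (Q2 : ℝ) ^ 3 ≤ (X : ℝ) ^ (κ1 / 2) := by
      have h5 : (Q2 : ℝ) ^ 3 ≤ ((X : ℝ) ^ θ2) ^ 3 := pow_le_pow_left₀ (Nat.cast_nonneg _) hQ2 3
      refine h5.trans ?_
      rw [← Real.rpow_natCast, ← Real.rpow_mul hx0.le]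
      refine Real.rpow_le_rpow_of_exponent_le hx1 ?_
      push_cast
      linarith
    have h6 : 1 ≤ (X : ℝ) ^ (κ1 / 2) := Real.one_le_rpow hx1 (by linarith)
    have h7 : (1 + (Q2 : ℝ) ^ 3) * (X : ℝ) ^ (2 - κ1) ≤ (2 * (X : ℝ) ^ (κ1 / 2)) * (X : ℝ) ^ (2 - κ1) :=
      mul_le_mul_of_nonneg_right (by linarith) (Real.rpow_nonneg hx0.le _)
    refine h7.trans ?_
    rw [mul_assoc, ← Real.rpow_add hx0]
    refine mul_le_mul_of_nonneg_left (Real.rpow_le_rpow_of_exponent_le hx1 (by linarith)) two_pos.le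
  have hpos : 0 ≤ C * (X : ℝ) ^ 2 := by positivity
  have key : ∀ b : ℝ, (X : ℝ) ^ θ2 / 2 ≤ b → C * (X : ℝ) ^ 2 * b ^ (-c) ≤ C * 2 ^ c * (X : ℝ) ^ (2 - m) := by
    intro b hb
    have h4 := c4_neg X b c θ2 hx1 hc hb
    have h5 := mul_le_mul_of_nonneg_left h4 hpos
    refine h5.trans ?_
    have h6 : C * (X : ℝ) ^ 2 * (2 ^ c * (X : ℝ) ^ (-(c * θ2))) = C * 2 ^ c * (X : ℝ) ^ (2 - c * θ2) := by
      rw [show (2 : ℝ) - c * θ2 = 2 + -(c * θ2) by ring, Real.rpow_add hx0, Real.rpow_two]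
      ring
    rw [h6]
    refine mul_le_mul_of_nonneg_left (Real.rpow_le_rpow_of_exponent_le hx1 (by linarith)) (by positivity)
  have hb2 := key (Q2 : ℝ) hQ3
  have hb3 := key (Q' : ℝ) (hQ3.trans (by exact_mod_cast hQQ'))
  rw [hsum]
  have hn1 := norm_sub_le (∑ m ∈ JJ X, (lc m - Lc Q2 (X / Q ^ 2) m) * Psi (B * X) k f m +
      ∑ n ∈ JJ X, ((Lib.H68T.Lk Q (X / Q ^ 2) n - Lib.H68T.Lk Q' (X / Q ^ 2) n : ℝ) : ℂ) * Psi (B * X) k f n)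
      (∑ n ∈ JJ X, ((Lib.H68T.Lk Q (X / Q ^ 2) n - Lib.H68T.Lk Q2 (X / Q ^ 2) n : ℝ) : ℂ) * Psi (B * X) k f n)
  have hn2 := norm_add_le (∑ m ∈ JJ X, (lc m - Lc Q2 (X / Q ^ 2) m) * Psi (B * X) k f m)
      (∑ n ∈ JJ X, ((Lib.H68T.Lk Q (X / Q ^ 2) n - Lib.H68T.Lk Q' (X / Q ^ 2) n : ℝ) : ℂ) * Psi (B * X) k f n)
  have htot : (2 + 2 * C * 2 ^ c) * (X : ℝ) ^ (2 - m) ≤ (X : ℝ) ^ (2 - m / 2) := by
    have h4 : (2 + 2 * C * 2 ^ c) * (X : ℝ) ^ (2 - m) ≤ (X : ℝ) ^ (m / 2) * (X : ℝ) ^ (2 - m) :=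
      mul_le_mul_of_nonneg_right hbig (Real.rpow_nonneg hx0.le _)
    refine h4.trans (le_of_eq ?_)
    rw [← Real.rpow_add hx0]
    congr 1
    ring
  refine le_trans ?_ htot
  have e1 : (2 + 2 * C * 2 ^ c) * (X : ℝ) ^ (2 - m) = 2 * (X : ℝ) ^ (2 - m) + C * 2 ^ c * (X : ℝ) ^ (2 - m) + C * 2 ^ c * (X : ℝ) ^ (2 - m) := by ring
  rw [e1]
  linarith

end Pool.Agent.HUK
end

-- from Lib.HUP.FG0
section

/-!
# Project HUP, module FG (the large sieve): definitions and interfaces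

`FGTU c D a` follows from two statements about complete means: `LocB` (primes not dividing `R = lcm r_i`) and `ChB` (the
part at `R`). For functions `F n n' t` of `n`, `n'` and `t`, periodic modulo `M`, `ms M F` is the mean over `n`, `n'` of
the square of the absolute value of the mean over `t`.
-/

open Finset Polynomial

namespace Pool.Agent.HUP

open Pool.Agent.Lib.H68T Pool.Agent.Lib.H18Q Pool.Agent.Lib.H59P Pool.Agent.Lib.H24P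

noncomputable section

/-- The value of the coordinate `i` at `(n, t)`. -/
def yy {k d : ℕ} (c : Fin k → Fin d → ℤ) (P : Fin k → ℤ[X]) (β : Fin k → ℤ) (i : Fin k) (n : ℤ) (t : Fin d → ℤ) : ℤ :=
  (P i).eval n + (β i + lf c t i)

/-- A function of one integer, periodic modulo `M`. -/
def Pz (M : ℕ) (f : ℤ → ℂ) : Prop := ∀ m m' : ℤ, (M : ℤ) ∣ m - m' → f m = f m'

/-- A function of `n`, `n'`, `t`, periodic modulo `M`. -/
def Pp {d : ℕ} (M : ℕ) (F : ℤ → ℤ → (Fin d → ℤ) → ℂ) : Prop :=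
  ∀ (n m n' m' : ℤ) (t t' : Fin d → ℤ), (M : ℤ) ∣ n - m → (M : ℤ) ∣ n' - m' → (∀ j, (M : ℤ) ∣ t j - t' j) →
    F n n' t = F m m' t'

/-- The complete system of residues for `t`. -/
def B0 (d M : ℕ) : Finset (Fin d → ℤ) := Fintype.piFinset fun _ => Ico (0 : ℤ) M

/-- The mean over `n`, `n'` of the square of the absolute value of the mean over `t`. -/
def ms {d : ℕ} (M : ℕ) (F : ℤ → ℤ → (Fin d → ℤ) → ℂ) : ℝ :=
  (∑ n ∈ Ico (0 : ℤ) M, ∑ n' ∈ Ico (0 : ℤ) M, ‖∑ t ∈ B0 d M, F n n' t‖ ^ 2) / ((M : ℝ) ^ 2 * ((M : ℝ) ^ d) ^ 2)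

/-- `∏_{l ∈ L} gl l m` -/
def gL (L : Finset ℕ) (m : ℤ) : ℂ := ∏ l ∈ L, ((gl l m : ℝ) : ℂ)

/-- The component `gk p κ m` without the constant `r / φ(r)` (for squarefree `κ`). -/
def ph (p : Ch) (κ : ℕ) (m : ℤ) : ℂ := cj p m * gL κ.primeFactors m

/-- The product of the components at `n` and of the conjugates of the components at `n'`. -/
def F2 {k d : ℕ} (c : Fin k → Fin d → ℤ) (P : Fin k → ℤ[X]) (β : Fin k → ℤ) (p : Fin k → Ch) (κ κ' : Fin k → ℕ)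
    (n n' : ℤ) (t : Fin d → ℤ) : ℂ :=
  (∏ i, ph (p i) (κ i) (yy c P β i n t)) * (starRingEnd ℂ) (∏ i, ph (p i) (κ' i) (yy c P β i n' t))

/-- The primes which divide some `κ i` or `κ' i`, but not `R`. -/
def Po {k : ℕ} (R : ℕ) (κ κ' : Fin k → ℕ) : Finset ℕ :=
  (univ.biUnion fun i => (κ i).primeFactors ∪ (κ' i).primeFactors).filter fun l => ¬ l ∣ R

/-- Their product. -/
def mo {k : ℕ} (R : ℕ) (κ κ' : Fin k → ℕ) : ℕ := ∏ l ∈ Po R κ κ', l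

/-- The factor at the prime `l`: the coordinates in `V` at `n`, those in `V'` at `n'`. -/
def Fl {k d : ℕ} (c : Fin k → Fin d → ℤ) (P : Fin k → ℤ[X]) (β : Fin k → ℤ) (V V' : Finset (Fin k)) (l : ℕ)
    (n n' : ℤ) (t : Fin d → ℤ) : ℂ :=
  (∏ i ∈ V, ((gl l (yy c P β i n t) : ℝ) : ℂ)) * ∏ i ∈ V', ((gl l (yy c P β i n' t) : ℝ) : ℂ)

/-- The factor at `R`. -/
def FR {k d : ℕ} (c : Fin k → Fin d → ℤ) (P : Fin k → ℤ[X]) (β : Fin k → ℤ) (p : Fin k → Ch) (R : ℕ)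
    (κ κ' : Fin k → ℕ) (n n' : ℤ) (t : Fin d → ℤ) : ℂ :=
  ∏ i, ((cj (p i) (yy c P β i n t) * gL ((κ i).primeFactors.filter fun l => l ∣ R) (yy c P β i n t)) *
    (starRingEnd ℂ) (cj (p i) (yy c P β i n' t) * gL ((κ' i).primeFactors.filter fun l => l ∣ R) (yy c P β i n' t)))

/-! ## Interfaces -/

/-- **Interface: the factors at the primes.** -/
def LocB {k d : ℕ} (c : Fin k → Fin d → ℤ) (D : Fin k → ℕ) (a : Fin k → ℤ) : Prop :=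
  ∃ C : ℝ, 1 ≤ C ∧ ∀ P : Fin k → ℤ[X], HasD D a P → ∀ (β : Fin k → ℤ) (l : ℕ), l.Prime →
    ∀ V V' : Finset (Fin k), 1 ≤ V.card + V'.card → ms l (Fl c P β V V' l) ≤ C / (l : ℝ) ^ 3

/-- **Interface: the factor at `R`.** The functions at `n` are characters times functions of coprime period, those at
`n'` are arbitrary. -/
def ChB {k d : ℕ} (c : Fin k → Fin d → ℤ) (D : Fin k → ℕ) (a : Fin k → ℤ) : Prop :=
  ∃ C c0 : ℝ, 0 < C ∧ 0 < c0 ∧ c0 ≤ 1 ∧ ∀ P : Fin k → ℤ[X], HasD D a P → ∀ (β : Fin k → ℤ) (p : Fin k → Ch),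
    (∀ i, 1 ≤ (p i).1 ∧ (p i).2.IsPrimitive) → ∀ R : ℕ, R = univ.lcm (fun i => (p i).1) →
    ∀ (K : Fin k → ℕ) (u g' : Fin k → ℤ → ℂ), (∀ i, 1 ≤ K i ∧ K i ∣ R ∧ Nat.Coprime (K i) (p i).1) →
    (∀ i, Pz (K i) (u i)) → (∀ i m, ‖u i m‖ ≤ 1) → (∀ i, Pz R (g' i)) → (∀ i m, ‖g' i m‖ ≤ 1) →
    ms R (fun n n' t => ∏ i, ((cj (p i) (yy c P β i n t) * u i (yy c P β i n t)) * g' i (yy c P β i n' t))) ≤
      C * (R : ℝ) ^ (-c0)

/-- A good prime for the data. -/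
structure Gd {k d : ℕ} (c : Fin k → Fin d → ℤ) (D : Fin k → ℕ) (a : Fin k → ℤ) (l : ℕ) : Prop where
  form : ∀ i, ∃ j, ¬ (l : ℤ) ∣ c i j
  lc : ∀ i, ¬ (l : ℤ) ∣ a i
  pair : ∀ i i', i ≠ i' → (∃ u : Fin d → ℤ, lf c u i' = 0 ∧ ¬ (l : ℤ) ∣ lf c u i) ∨ (D i = D i' ∧ ∃ A B : ℤ,
    (∀ t : Fin d → ℤ, B * lf c t i = A * lf c t i') ∧ ¬ (l : ℤ) ∣ A ∧ ¬ (l : ℤ) ∣ B ∧ ¬ (l : ℤ) ∣ B * a i - A * a i')

end

end Pool.Agent.HUP
end

-- from Lib.HUP.FGA7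
section

/-!
# Project HUP, chunk FGA7 (S): rules for the components
-/

open Finset Polynomial

namespace Pool.Agent.HUP

open Pool.Agent.Lib.H68T Pool.Agent.Lib.H18Q Pool.Agent.Lib.H59P Pool.Agent.Lib.H24P
open Pool.Agent.HUK (KB4A_le KB4A_mod)

/-- `M2a` in `H59P/M2A.lean` (see also `H24P/B1.lean`, line 22). -/
theorem FGA7_gk (p : Ch) (κ : ℕ) (hκ : Squarefree κ) (m : ℤ) :
    gk p κ m = (((p.1 : ℝ) / (Nat.totient p.1 : ℝ) : ℝ) : ℂ) * ph p κ m := by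
  unfold gk ph gL
  rw [M2a κ hκ m, Complex.ofReal_prod, ← mul_assoc]
  rfl

theorem FGA7_cjper (p : Ch) : Pz p.1 (cj p) := by
  intro m m' h
  unfold cj
  have e : (m : ZMod p.1) = (m' : ZMod p.1) := by
    rw [← sub_eq_zero, ← Int.cast_sub]
    exact (ZMod.intCast_zmod_eq_zero_iff_dvd _ _).2 h
  rw [e]

theorem FGA7_cjle (p : Ch) (m : ℤ) : ‖cj p m‖ ≤ 1 := by
  unfold cj
  rw [RCLike.norm_conj]
  exact DirichletCharacter.norm_le_one _ _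

theorem FGA7_gLle (L : Finset ℕ) (hL : ∀ l ∈ L, l.Prime) (m : ℤ) : ‖gL L m‖ ≤ 1 := by
  unfold gL
  rw [norm_prod]
  refine Finset.prod_le_one (fun l _ => norm_nonneg _) fun l hl => ?_
  rw [Complex.norm_real, Real.norm_eq_abs]
  exact KB4A_le l (hL l hl) m

theorem FGA7_gLper (L : Finset ℕ) : Pz (∏ l ∈ L, l) (gL L) := by
  intro m m' h
  unfold gL
  refine Finset.prod_congr rfl fun l hl => ?_
  rw [KB4A_mod l m m' (dvd_trans (by exact_mod_cast Finset.dvd_prod_of_mem (fun l => l) hl) h)]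

theorem FGA7_phle (p : Ch) (κ : ℕ) (m : ℤ) : ‖ph p κ m‖ ≤ 1 := by
  unfold ph
  rw [norm_mul]
  exact mul_le_one₀ (FGA7_cjle p m) (norm_nonneg _)
    (FGA7_gLle _ (fun l hl => Nat.prime_of_mem_primeFactors hl) m)

theorem FGA7_up (M M' : ℕ) (h : M ∣ M') (f : ℤ → ℂ) (hf : Pz M f) : Pz M' f := by
  intro m m' hm
  exact hf m m' (dvd_trans (by exact_mod_cast h) hm)

/-- `(P i).eval` preserves congruences (`Polynomial.sub_dvd_eval_sub`), `lf` is linear. -/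
theorem FGA7_yy {k d : ℕ} (c : Fin k → Fin d → ℤ) (P : Fin k → ℤ[X]) (β : Fin k → ℤ) (i : Fin k) (M : ℕ) (n m : ℤ)
    (t t' : Fin d → ℤ) (h : (M : ℤ) ∣ n - m) (ht : ∀ j, (M : ℤ) ∣ t j - t' j) :
    (M : ℤ) ∣ yy c P β i n t - yy c P β i m t' := by
  have e : yy c P β i n t - yy c P β i m t' =
      ((P i).eval n - (P i).eval m) + ∑ j, c i j * (t j - t' j) := by
    unfold yy lf
    simp only [mul_sub, Finset.sum_sub_distrib]
    ring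
  rw [e]
  refine dvd_add (dvd_trans h (Polynomial.sub_dvd_eval_sub n m (P i))) ?_
  exact Finset.dvd_sum fun j _ => Dvd.dvd.mul_left (ht j) _

/-- From `KB4A_mod`, `FGA7_yy`. -/
theorem FGA7_Fl {k d : ℕ} (c : Fin k → Fin d → ℤ) (P : Fin k → ℤ[X]) (β : Fin k → ℤ) (V V' : Finset (Fin k)) (l : ℕ) :
    Pp l (Fl c P β V V' l) := by
  intro n m n' m' t t' h1 h2 h3
  unfold Fl
  congr 1
  · refine Finset.prod_congr rfl fun i _ => ?_
    rw [KB4A_mod l _ _ (FGA7_yy c P β i l n m t t' h1 h3)]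
  · refine Finset.prod_congr rfl fun i _ => ?_
    rw [KB4A_mod l _ _ (FGA7_yy c P β i l n' m' t t' h2 h3)]

end Pool.Agent.HUP
end

-- from Lib.HUP.FGA3
section

/-!
# Project HUP, chunk FGA3 (S): sums of non-negative periodic functions over intervals
-/

open Finset

namespace Pool.Agent.HUP

open Pool.Agent.HUK (kb3_blocks kb3_block)

theorem fga3_blocks (M : ℕ) (hM : 1 ≤ M) (g : ℤ → ℝ)
    (hg : ∀ n m : ℤ, (M : ℤ) ∣ n - m → g n = g m) (a : ℤ) (q : ℕ) :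
    ∑ l ∈ range (M * q), g (a + l) = q * ∑ y ∈ Ico (0 : ℤ) M, g y := by
  have h := kb3_blocks M hM (fun y => ((g y : ℝ) : ℂ)) (fun y y' hy => by simp only [hg y y' hy]) a q
  exact_mod_cast h

/-- Proof. `H = M q + ρ`, `ρ < M`: the interval is contained in `q + 1 ≤ 2 H / M` blocks of `M` consecutive integers (`M ≤ H`), each block has the
sum over `Ico 0 M` (bijection `n ↦ n % M`; compare `kb3_block` in `HUK/KB3.lean`; induction on `q`). -/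
theorem FGA3_one (M H : ℕ) (hM : 1 ≤ M) (hMH : M ≤ H) (g : ℤ → ℝ) (h0 : ∀ n, 0 ≤ g n)
    (hg : ∀ n m : ℤ, (M : ℤ) ∣ n - m → g n = g m) (a : ℕ) :
    ∑ n ∈ Ico a (a + H), g n ≤ 2 * H / M * ∑ n ∈ Ico (0 : ℤ) M, g n := by
  have hM0 : (0 : ℝ) < M := by exact_mod_cast hM
  have hS : 0 ≤ ∑ n ∈ Ico (0 : ℤ) M, g n := Finset.sum_nonneg fun n _ => h0 n
  have hH : H ≤ M * (H / M + 1) := by
    have h1 := Nat.div_add_mod H M
    have h2 := Nat.mod_lt H hM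
    rw [Nat.mul_add, Nat.mul_one]
    omega
  have hq : 1 ≤ H / M := (Nat.one_le_div_iff (by omega)).mpr hMH
  have h1 : ∑ n ∈ Ico a (a + H), g n = ∑ l ∈ range H, g ((a : ℤ) + l) := by
    rw [Finset.sum_Ico_eq_sum_range]
    have : a + H - a = H := by omega
    rw [this]
    apply Finset.sum_congr rfl
    intro l _
    rw [Nat.cast_add]
  rw [h1]
  have h2 : ∑ l ∈ range H, g ((a : ℤ) + l) ≤ ∑ l ∈ range (M * (H / M + 1)), g ((a : ℤ) + l) :=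
    Finset.sum_le_sum_of_subset_of_nonneg (range_mono hH) fun l _ _ => h0 _
  refine h2.trans ?_
  rw [fga3_blocks M hM g hg a]
  apply mul_le_mul_of_nonneg_right _ hS
  have h3 : ((H / M : ℕ) : ℝ) ≤ H / M := Nat.cast_div_le
  have h4 : (1 : ℝ) ≤ ((H / M : ℕ) : ℝ) := by exact_mod_cast hq
  have h5 : 2 * (H : ℝ) / M = 2 * (H / M) := by ring
  rw [h5, Nat.cast_add, Nat.cast_one]
  linarith

/-- Proof. `FGA3_one` for `n'`, then for `n` (the function `n ↦ ∑_{n' ∈ Ico 0 M} f n n'`). -/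
theorem FGA3 (M H : ℕ) (hM : 1 ≤ M) (hMH : M ≤ H) (f : ℤ → ℤ → ℝ) (h0 : ∀ n n', 0 ≤ f n n')
    (hf : ∀ n m n' m' : ℤ, (M : ℤ) ∣ n - m → (M : ℤ) ∣ n' - m' → f n n' = f m m') (a : ℕ) :
    ∑ n ∈ Ico a (a + H), ∑ n' ∈ Ico a (a + H), f n n' ≤
      4 * (H : ℝ) ^ 2 / (M : ℝ) ^ 2 * ∑ n ∈ Ico (0 : ℤ) M, ∑ n' ∈ Ico (0 : ℤ) M, f n n' := by
  have hM0 : (0 : ℝ) < M := by exact_mod_cast hM
  have h1 : ∑ n ∈ Ico a (a + H), ∑ n' ∈ Ico a (a + H), f n n' ≤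
      ∑ n ∈ Ico a (a + H), 2 * (H : ℝ) / M * ∑ n' ∈ Ico (0 : ℤ) M, f n n' := by
    apply Finset.sum_le_sum
    intro n _
    exact FGA3_one M H hM hMH (fun n' => f n n') (fun n' => h0 _ _)
      (fun n' m' h => hf _ _ _ _ (by simp) h) a
  refine h1.trans ?_
  rw [← Finset.mul_sum]
  have h2 := FGA3_one M H hM hMH (fun n => ∑ n' ∈ Ico (0 : ℤ) M, f n n')
    (fun n => Finset.sum_nonneg fun n' _ => h0 _ _)
    (fun n m h => Finset.sum_congr rfl fun n' _ => hf _ _ _ _ h (by simp)) a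
  have h3 : 0 ≤ 2 * (H : ℝ) / M := by positivity
  refine (mul_le_mul_of_nonneg_left h2 h3).trans (le_of_eq ?_)
  rw [← mul_assoc]
  congr 1
  ring

end Pool.Agent.HUP
end
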