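import Pool.Agent.Lib.H59M.M2.M031
import Pool.Agent.Lib.H59M.M2.M077
import Pool.Agent.Lib.H59M.M2.M078
import Pool.Agent.Lib.H59M.M2.M096
import Pool.Agent.Lib.H59M.M2.M098
import Pool.Agent.Lib.H59M.M2.M099
import Pool.Agent.Lib.H59M.M2.M100

/-! Merged copies (to shorten the build) of Lib.H96U.Defs, Lib.H9U.ZDefs, Lib.H9P.U13, Lib.HUP.R10, Lib.HUP.R12, Lib.H9P.E1, Lib.HUP.R20, Lib.HLA.W0, Lib.HLA.Y3, Lib.HLA.W1, Lib.HLA.W16A. -/

-- from Lib.H96U.Defs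
section

/-!
# The core statement for a system of linear forms, as a hypothesis

`CoreOf S`: the conclusion of `H9U.CORE` for the system `S`. Everything in this folder (boxes, covering, the two families
of the hand-ins) uses only this.
-/

open Finset

namespace Pool.Agent.H96U

open Pool.Agent.H9U
open Pool.Agent.Lib.H59P (bx)

open Classical in
/-- All but few `t` which are admissible have many simultaneous prime values (all values in the windows `JJ (Xs i)`). -/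
def CoreOf {k d : ℕ} (S : Sys k d) : Prop :=
  ∀ C0 : ℕ, 1 ≤ C0 → ∀ ε : ℝ, 0 < ε → ∃ κ : ℝ, 0 < κ ∧ ∃ X0 : ℕ, ∀ X : ℕ, X0 ≤ X →
    ∀ Xs : Fin k → ℕ, (∀ i, X ≤ Xs i ∧ Xs i ≤ C0 * X) → ∀ (b : Fin k → ℤ) (L T : ℕ), X ≤ L → L ≤ C0 * X → T ≤ C0 * X →
    (∀ i, ∀ n ∈ range L, ∀ t ∈ bx d T, S.val b n (iv t) i ∈ JJ (Xs i)) →
    (((bx d T).filter (fun t => S.Adm b (iv t) ∧
      (((range L).filter (fun n : ℕ => ∀ i, (S.val b n (iv t) i).toNat.Prime)).card : ℝ) < (X : ℝ) ^ (1 - ε))).card : ℝ) ≤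
      (X : ℝ) ^ (d - κ)

/-- No two of the linear forms are proportional, and all depend on `n`. -/
def Fin2 {k d : ℕ} (S : Sys k d) : Prop :=
  (∀ i, S.a i ≠ 0) ∧ ∀ i j, i ≠ j → ∃ l, S.a i * S.c j l ≠ S.a j * S.c i l

end Pool.Agent.H96U
end

-- from Lib.H9U.ZDefs
section

/-!
# Project H9U: definitions for modules Z, A and the assembly
-/

open Finset

namespace Pool.Agent.H9U

open Pool.Agent.Lib.H68T (lp Lk PC p0)
open Pool.Agent.Lib.H18Q (gk KS Bc)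
open Pool.Agent.Lib.H59P (Ch SF MX bx TS Rp)

noncomputable section



/-- The data of a small level `Q'`: moduli up to `D`, conductors up to `D1`; the coefficients of the characters of conductor
at most `D1` are given by the model `MX px th` up to `η E0`. -/
structure Dat (k Q Q' D D1 D2 : ℕ) (η E0 : ℝ) (px : Ch) (th : ℤ → ℝ) (Xs : Fin k → ℕ) : Prop where
  D2_pos : 1 ≤ D2
  hD2 : px.1 * D2 ≤ D1
  hD1 : D1 * D1 ≤ D
  hD : D ≤ Q'
  mem : px ∈ PC Q'
  real : px.2 ^ 2 = 1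
  eta_pos : 0 < η
  eta_le : η ≤ 1
  E0_nonneg : 0 ≤ E0
  E0_le : 4 * k * E0 ≤ 1
  triv : px = p0 → ∀ m, th m = 0
  nonneg : ∀ i, ∀ m, (Xs i : ℤ) ≤ m → m ≤ 4 * Xs i → 0 ≤ th m
  le : ∀ i, ∀ m, (Xs i : ℤ) ≤ m → m ≤ 4 * Xs i → th m ≤ 1 - η
  cf : ∀ i, ∃ eb : Ch → ℝ, (∀ p ∈ PC Q', 0 ≤ eb p) ∧ ∑ p ∈ PC Q', eb p ≤ η * E0 ∧
    ∀ m : ℤ, (Xs i : ℤ) ≤ m → m ≤ 4 * Xs i → ∀ p ∈ PC Q', p.1 ≤ D1 → ‖Bc Q (Xs i) p m - MX px th m p‖ ≤ eb p

end

end Pool.Agent.H9U
end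

-- from Lib.H9P.U13
section

/-!
# ASYP, chunk U13 (M): the upper bound sieve
-/

open Finset Polynomial

namespace Pool.Agent.H9P

open Pool.Agent.Lib.H68T Pool.Agent.Lib.H18Q Pool.Agent.Lib.H59P Pool.Agent.Lib.H24P
open Pool.Agent.HUP

open Pool.Agent.Lib.H59 (rootCount poly_sieve rootCount_mul_le rootCount_prod_le rootCount_le_natDegree
  card_value_le prod_one_sub_inv_le)

theorem u13_dvd {k : ℕ} (B : ℤ[X]) (P : Fin k → ℤ[X]) (h : Fin k → ℕ) (l : ℕ) (hl : l.Prime) (n : ℤ) :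
    (l : ℤ) ∣ (B * ∏ i, (P i + C ((h i : ℕ) : ℤ))).eval n ↔ ∃ i, (l : ℤ) ∣ sys B P h i n := by
  have hlp := Nat.prime_iff_prime_int.mp hl
  rw [eval_mul, eval_prod, hlp.dvd_mul, hlp.dvd_finsetProd_iff, Fin.exists_fin_succ]
  apply or_congr
  · rfl
  · simp only [eval_add, eval_C, mem_univ, true_and]
    rfl

theorem u13_cnt {k : ℕ} (B : ℤ[X]) (P : Fin k → ℤ[X]) (h : Fin k → ℕ) (l : ℕ) (hl : l.Prime) :
    ((range l).filter (fun n : ℕ => ∀ i, ¬ (l : ℤ) ∣ sys B P h i n)).card +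
      rootCount (B * ∏ i, (P i + C ((h i : ℕ) : ℤ))) l = l := by
  classical
  unfold rootCount
  have h1 := Finset.card_filter_add_card_filter_not (s := range l)
    (fun n : ℕ => (l : ℤ) ∣ (B * ∏ i, (P i + C ((h i : ℕ) : ℤ))).eval (n : ℤ))
  rw [card_range] at h1
  have h2 : (range l).filter (fun n : ℕ => ∀ i, ¬ (l : ℤ) ∣ sys B P h i n) =
      (range l).filter (fun n : ℕ => ¬ (l : ℤ) ∣ (B * ∏ i, (P i + C ((h i : ℕ) : ℤ))).eval (n : ℤ)) := by
    apply Finset.filter_congr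
    intro n _
    rw [u13_dvd B P h l hl, not_exists]
  rw [h2]
  omega

/-- The local factor and the number of roots. Proof. `1 + gl l m = l/(l-1)` if `l ∤ m`, else `0`; the sum over `n < l` of the product is `(l/(l-1))^(k+1)` times the number of the `n` for which no
`φ_i(n)` is divisible by `l`, i.e. the product polynomial is not divisible by `l`. (`rootCount`: `H59`.) -/
theorem U13_tpf {k : ℕ} (B : ℤ[X]) (P : Fin k → ℤ[X]) (h : Fin k → ℕ) (l : ℕ) (hl : l.Prime) :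
    1 + tpf l (sys B P h) = (1 - (Pool.Agent.Lib.H59.rootCount (B * ∏ i, (P i + C ((h i : ℕ) : ℤ))) l : ℝ) / l) *
      (1 - 1 / (l : ℝ))⁻¹ ^ (k + 1) := by
  classical
  have hl1 : (1 : ℝ) < l := by exact_mod_cast hl.one_lt
  have hl0 : (l : ℝ) ≠ 0 := by linarith
  have hl2 : (l : ℝ) - 1 ≠ 0 := by linarith
  rw [T1_count l hl]
  have h1 := u13_cnt B P h l hl
  have h2 : (((range l).filter (fun n : ℕ => ∀ i, ¬ (l : ℤ) ∣ sys B P h i n)).card : ℝ) =
      l - (rootCount (B * ∏ i, (P i + C ((h i : ℕ) : ℤ))) l : ℝ) := by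
    rw [eq_sub_iff_add_eq]
    exact_mod_cast h1
  rw [h2]
  have h3 : (1 - 1 / (l : ℝ))⁻¹ = (l : ℝ) / (l - 1) := by
    have : (1 - 1 / (l : ℝ)) = (l - 1) / l := by field_simp
    rw [this, inv_div]
  rw [h3, sub_div, div_self hl0]

theorem u13_period (H : ℤ[X]) (l : ℕ) : Function.Periodic (fun m : ℕ => (l : ℤ) ∣ H.eval (m : ℤ)) l := by
  intro m
  have h1 : (l : ℤ) ∣ H.eval (((m + l : ℕ) : ℤ)) - H.eval (m : ℤ) := by
    have h2 := Polynomial.sub_dvd_eval_sub ((m + l : ℕ) : ℤ) (m : ℤ) H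
    have h3 : ((m + l : ℕ) : ℤ) - (m : ℤ) = l := by push_cast; ring
    rw [h3] at h2
    exact h2
  have h4 : (l : ℤ) ∣ H.eval ((m + l : ℕ) : ℤ) ↔ (l : ℤ) ∣ H.eval (m : ℤ) := by
    constructor
    · intro h
      have := dvd_sub h h1
      simpa using this
    · intro h
      have := dvd_add h h1
      simpa using this
  exact propext h4

/-- the number of roots is invariant under translation -/
theorem u13_shift (H : ℤ[X]) (t l : ℕ) : rootCount (H.comp (X + C (t : ℤ))) l = rootCount H l := by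
  classical
  have h1 := Nat.filter_Ico_card_eq_of_periodic t l (fun m : ℕ => (l : ℤ) ∣ H.eval (m : ℤ)) (u13_period H l)
  have h2 := Nat.filter_Ico_card_eq_of_periodic 0 l (fun m : ℕ => (l : ℤ) ∣ H.eval (m : ℤ)) (u13_period H l)
  rw [← h2, Nat.zero_add, ← Finset.range_eq_Ico] at h1
  unfold rootCount
  rw [← h1]
  apply Finset.card_bij (fun a _ => a + t)
  · intro a ha
    rw [mem_filter, mem_range] at ha
    rw [mem_filter, mem_Ico]
    refine ⟨⟨by omega, by omega⟩, ?_⟩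
    have h3 := ha.2
    rw [eval_comp, eval_add, eval_X, eval_C] at h3
    push_cast
    exact h3
  · intro a _ b _ hab
    exact Nat.add_right_cancel hab
  · intro b hb
    rw [mem_filter, mem_Ico] at hb
    refine ⟨b - t, ?_, by omega⟩
    rw [mem_filter, mem_range]
    refine ⟨by omega, ?_⟩
    rw [eval_comp, eval_add, eval_X, eval_C]
    have h4 : ((b - t : ℕ) : ℤ) + (t : ℤ) = (b : ℤ) := by omega
    rw [h4]
    exact hb.2

/-- primitive coordinates -/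
theorem u13_prim (F : ℤ[X]) (hF : ∀ l : ℕ, l.Prime → ∃ n : ℤ, ¬ (l : ℤ) ∣ F.eval n) : F.IsPrimitive := by
  intro r hr
  by_contra hu
  have h1 : r.natAbs ≠ 1 := fun h => hu (Int.isUnit_iff_natAbs_eq.2 h)
  obtain ⟨l, hl, hlr⟩ := Nat.exists_prime_and_dvd h1
  obtain ⟨n, hn⟩ := hF l hl
  apply hn
  obtain ⟨G, hG⟩ := hr
  rw [hG, eval_mul, eval_C]
  exact Dvd.dvd.mul_right (Int.natCast_dvd.2 hlr) _

theorem u13_lt {k : ℕ} (B : ℤ[X]) (P : Fin k → ℤ[X]) (h : Fin k → ℕ) (hN : NoFix (sys B P h)) (l : ℕ)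
    (hl : l.Prime) : rootCount (B * ∏ i, (P i + C ((h i : ℕ) : ℤ))) l < l := by
  classical
  by_contra hcon
  push Not at hcon
  obtain ⟨n, hn⟩ := hN l hl
  set H := B * ∏ i, (P i + C ((h i : ℕ) : ℤ)) with hH
  have h1 : ((Finset.range l).filter fun a : ℕ => (l : ℤ) ∣ H.eval (a : ℤ)) = Finset.range l := by
    refine eq_of_subset_of_card_le (filter_subset _ _) ?_
    rw [card_range]
    exact hcon
  have hp0 : (0 : ℤ) < l := by exact_mod_cast hl.pos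
  set a : ℕ := (n % l).toNat with ha
  have ha0 : 0 ≤ n % (l : ℤ) := Int.emod_nonneg _ hp0.ne'
  have ha1 : n % (l : ℤ) < l := Int.emod_lt_of_pos _ hp0
  have haa : (a : ℤ) = n % l := Int.toNat_of_nonneg ha0
  have hmem : a ∈ Finset.range l := by
    rw [Finset.mem_range]
    omega
  rw [← h1, mem_filter] at hmem
  have h2 : (l : ℤ) ∣ n - (a : ℤ) := by
    rw [haa]
    exact Int.dvd_self_sub_emod
  have h3 := h2.trans (Polynomial.sub_dvd_eval_sub n (a : ℤ) H)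
  have h4 : (l : ℤ) ∣ H.eval n := by
    have := dvd_add h3 hmem.2
    simpa using this
  rw [hH, u13_dvd B P h l hl] at h4
  obtain ⟨i, hi⟩ := h4
  exact hn i hi

theorem u13_deg (F : ℤ[X]) (h : ℕ) : (F + C ((h : ℕ) : ℤ)).natDegree = F.natDegree := natDegree_add_C

theorem u13_le {k A : ℕ} (B : ℤ[X]) (hB : Lin A B) (P : Fin k → ℤ[X]) (hP : Pol A P) (h : Fin k → ℕ)
    (hN : NoFix (sys B P h)) (l : ℕ) (hl : l.Prime) :
    rootCount (B * ∏ i, (P i + C ((h i : ℕ) : ℤ))) l ≤ k * A + 1 := by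
  have h1 : rootCount B l ≤ 1 := by
    have hp : B.IsPrimitive := u13_prim B fun l hl => by
      obtain ⟨n, hn⟩ := hN l hl
      exact ⟨n, hn 0⟩
    have := rootCount_le_natDegree hp hl
    rwa [hB.deg] at this
  have h2 : rootCount (∏ i, (P i + C ((h i : ℕ) : ℤ))) l ≤ k * A := by
    refine (rootCount_prod_le univ _ hl).trans ?_
    have h3 : ∀ i ∈ (univ : Finset (Fin k)), rootCount (P i + C ((h i : ℕ) : ℤ)) l ≤ A := by
      intro i _
      have hp : (P i + C ((h i : ℕ) : ℤ)).IsPrimitive := u13_prim _ fun l hl => by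
        obtain ⟨n, hn⟩ := hN l hl
        refine ⟨n, ?_⟩
        have := hn i.succ
        rw [eval_add, eval_C]
        exact this
      refine (rootCount_le_natDegree hp hl).trans ?_
      rw [u13_deg]
      exact hP.degA i
    refine (Finset.sum_le_sum h3).trans ?_
    rw [Finset.sum_const, card_univ, Fintype.card_fin, smul_eq_mul]
  have h4 := rootCount_mul_le B (∏ i, (P i + C ((h i : ℕ) : ℤ))) hl
  omega

/-- the exceptional `n`: some value is less than `Y` -/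
theorem u13_small {k A : ℕ} (B : ℤ[X]) (hB : Lin A B) (P : Fin k → ℤ[X]) (hP : Pol A P) (h : Fin k → ℕ)
    (X Y : ℕ) : ((Finset.range Y).biUnion fun q => (Finset.univ : Finset (Fin (k + 1))).biUnion fun i =>
      (Icc 1 X).filter fun n : ℕ => sys B P h i (n : ℤ) = (q : ℤ)).card ≤ (k * A + 1) * Y := by
  classical
  have h1 : ∀ q ∈ Finset.range Y, ((Finset.univ : Finset (Fin (k + 1))).biUnion fun i =>
      (Icc 1 X).filter fun n : ℕ => sys B P h i (n : ℤ) = (q : ℤ)).card ≤ k * A + 1 := by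
    intro q _
    refine card_biUnion_le.trans ?_
    rw [Fin.sum_univ_succ, Nat.add_comm]
    apply Nat.add_le_add
    · have h3 : ∀ i ∈ (univ : Finset (Fin k)),
          ((Icc 1 X).filter fun n : ℕ => sys B P h i.succ (n : ℤ) = (q : ℤ)).card ≤ A := by
        intro i _
        have hd : 1 ≤ (P i + C ((h i : ℕ) : ℤ)).natDegree := by
          rw [u13_deg]
          exact hP.deg i
        have h4 := card_value_le hd (q : ℤ) X
        rw [u13_deg] at h4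
        refine le_trans (le_of_eq ?_) (h4.trans (hP.degA i))
        congr 1
        apply Finset.filter_congr
        intro n _
        rw [eval_add, eval_C]
        rfl
      refine (Finset.sum_le_sum h3).trans ?_
      rw [Finset.sum_const, card_univ, Fintype.card_fin, smul_eq_mul]
    · have hd : 1 ≤ B.natDegree := by rw [hB.deg]
      have h4 := card_value_le hd (q : ℤ) X
      rw [hB.deg] at h4
      exact h4
  refine card_biUnion_le.trans ((sum_le_sum h1).trans ?_)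
  rw [sum_const, card_range, smul_eq_mul, mul_comm]

theorem u13_pr (Q : ℕ) : Nat.primesBelow (Q + 1) = pr Q := by
  ext l
  unfold pr
  rw [Nat.mem_primesBelow, mem_filter, mem_Icc]
  constructor
  · rintro ⟨h1, h2⟩
    exact ⟨⟨h2.one_lt.le, by omega⟩, h2⟩
  · rintro ⟨⟨_, h1⟩, h2⟩
    exact ⟨by omega, h2⟩

/-- **U13.** Proof. As `sieve_step` (`H59/SchinzelUpper.lean`). `H(x) = (B * ∏ (P_i + h_i))(x + n1 - 1)` (for `n1 = 0` treat `n = 0` apart; or `n1 ≥ 1` is assumed), `κ = k A + 1`,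
`rootCount H l ≤ κ` and `< l` for every prime `l` (`NoFix`; every coordinate is primitive by `NoFix`, `rootCount_le_natDegree`, `rootCount_prod_le`), the number of roots is
invariant under translation. `poly_sieve` with `X := L`, `Y := Q + 1`, `R = L^(1/12)`: `(log 2 + 28 κ log 4) log (Q+1) ≤ log L/12` if `L ≥ Q^K`. The `n ∈ [n1, n1 + L)` with all values primes: either no
value is `≤ Q` and `H` has no prime factor `≤ Q`, or some value is one of the `Q` numbers `≤ Q`: at most `κ Q ≤ κ R^10 ≤ 2 κ L ∏ (1 - ν/p)`. So `cnt ≤ (4 + 2κ) L ∏_{l ≤ Q} (1 - ν_l/l)`, and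
`∏ (1 - ν_l/l) = SSf (pr Q) ∏ (1 - 1/l)^(k+1)` (`U13_tpf`), `∏_{l ≤ Q} (1 - 1/l) ≤ C/log Q` (Mertens; search `Helper57` or `H59` for the bound used in `H59/SchinzelUpper.lean`, `H9A/N7.lean`). -/
theorem U13_sieve (k A : ℕ) (hA : 1 ≤ A) : ∃ Cs K : ℝ, 1 ≤ Cs ∧ 1 ≤ K ∧ ∃ Q0 : ℕ, ∀ Q : ℕ, Q0 ≤ Q →
    ∀ B : ℤ[X], Lin A B → ∀ P : Fin k → ℤ[X], Pol A P → ∀ h : Fin k → ℕ, NoFix (sys B P h) →
    ∀ n1 L : ℕ, 1 ≤ n1 → K * Real.log Q ≤ Real.log L →
    (cnt (sys B P h) n1 L : ℝ) ≤ Cs * L * SSf (pr Q) (sys B P h) / (Real.log Q) ^ (k + 1) := by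
  classical
  obtain ⟨κ, hκ⟩ : ∃ κ, κ = k * A + 1 := ⟨_, rfl⟩
  obtain ⟨c0, hc0⟩ : ∃ c0 : ℝ, c0 = Real.log 2 + 28 * (κ : ℝ) * Real.log 4 := ⟨_, rfl⟩
  have hlog2 : (0 : ℝ) < Real.log 2 := Real.log_pos (by norm_num)
  have hlog4 : (0 : ℝ) < Real.log 4 := Real.log_pos (by norm_num)
  have hκ1 : (1 : ℝ) ≤ κ := by
    rw [hκ]
    push_cast
    have : (0 : ℝ) ≤ (k : ℝ) * A := by positivity
    linarith
  have hc0p : 0 < c0 := by
    rw [hc0]
    positivity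
  refine ⟨4 + 2 * κ, 24 * c0 + 3, by linarith, by linarith, 3, ?_⟩
  intro Q hQ B hB P hP h hN n1 L hn1 hL
  have hQr : (3 : ℝ) ≤ Q := by exact_mod_cast hQ
  have hQ0 : (0 : ℝ) < Q := by linarith
  have hlogQ : 0 < Real.log Q := Real.log_pos (by linarith)
  have hlogL : 0 < Real.log L := lt_of_lt_of_le (by positivity) hL
  have hL1 : 1 ≤ L := by
    rcases Nat.eq_zero_or_pos L with h0 | h0
    · rw [h0, Nat.cast_zero, Real.log_zero] at hlogL
      exact absurd hlogL (lt_irrefl _)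
    · exact h0
  have hLr : (1 : ℝ) ≤ L := by exact_mod_cast hL1
  have hL0 : (0 : ℝ) < L := by linarith
  have hlogY : Real.log ((Q + 1 : ℕ) : ℝ) ≤ 2 * Real.log Q := by
    rw [← Real.log_rpow hQ0]
    apply Real.log_le_log (by positivity)
    push_cast
    rw [Real.rpow_two]
    nlinarith
  -- the polynomial
  obtain ⟨H, hH⟩ : ∃ H : ℤ[X], H = B * ∏ i, (P i + C ((h i : ℕ) : ℤ)) := ⟨_, rfl⟩
  obtain ⟨t, ht⟩ : ∃ t : ℕ, t = n1 - 1 := ⟨_, rfl⟩
  have hroot : ∀ l : ℕ, rootCount (H.comp (X + C (t : ℤ))) l = rootCount H l := u13_shift H t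
  have hκle : ∀ p : ℕ, p.Prime → p < Q + 1 → rootCount (H.comp (X + C (t : ℤ))) p ≤ κ := by
    intro p hp _
    rw [hroot, hH, hκ]
    exact u13_le B hB P hP h hN p hp
  have hlt : ∀ p : ℕ, p.Prime → p < Q + 1 → rootCount (H.comp (X + C (t : ℤ))) p < p := by
    intro p hp _
    rw [hroot, hH]
    exact u13_lt B P h hN p hp
  obtain ⟨R, hR⟩ : ∃ R : ℝ, R = (L : ℝ) ^ (1 / 12 : ℝ) := ⟨_, rfl⟩
  have hR1 : 1 ≤ R := by
    rw [hR]
    exact Real.one_le_rpow hLr (by norm_num)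
  have hR0 : 0 < R := by linarith
  have hR12 : R ^ 12 = L := by
    rw [hR, ← Real.rpow_natCast, ← Real.rpow_mul hL0.le]
    norm_num
  have hlogR : Real.log R = Real.log L / 12 := by
    rw [hR, Real.log_rpow hL0]
    ring
  have hRY : (Real.log 2 + 28 * (κ : ℝ) * Real.log 4) * Real.log ((Q + 1 : ℕ) : ℝ) ≤ Real.log R := by
    rw [← hc0, hlogR]
    have h1 : c0 * Real.log ((Q + 1 : ℕ) : ℝ) ≤ c0 * (2 * Real.log Q) := mul_le_mul_of_nonneg_left hlogY hc0p.le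
    have h2 : (24 * c0 + 3) * Real.log Q ≤ Real.log L := hL
    nlinarith
  have hYR : ((Q + 1 : ℕ) : ℝ) ≤ R ^ 10 := by
    rw [← Real.log_le_log_iff (by positivity) (by positivity), Real.log_pow, hlogR]
    have h2 : (24 * c0 + 3) * Real.log Q ≤ Real.log L := hL
    have h3 : 0 < c0 * Real.log Q := by positivity
    push_cast at hlogY ⊢
    nlinarith
  obtain ⟨h1, h2⟩ := poly_sieve (H.comp (X + C (t : ℤ))) hκle hlt (Y := Q + 1) (X := L) (by omega) hR1 hRY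
    (le_of_eq hR12)
  -- the counting
  obtain ⟨T₁, hT₁⟩ : ∃ T₁ : Finset ℕ, T₁ = (Icc 1 L).filter fun n : ℕ => ∀ p ∈ Nat.primesBelow (Q + 1),
    ¬ (p : ℤ) ∣ (H.comp (X + C (t : ℤ))).eval (n : ℤ) := ⟨_, rfl⟩
  rw [← hT₁] at h1
  obtain ⟨T₂, hT₂⟩ : ∃ T₂ : Finset ℕ, T₂ = (Finset.range (Q + 1)).biUnion fun q =>
    (Finset.univ : Finset (Fin (k + 1))).biUnion fun i =>
      (Icc 1 (n1 + L)).filter fun n : ℕ => sys B P h i (n : ℤ) = (q : ℤ) := ⟨_, rfl⟩
  have hT₂card : T₂.card ≤ κ * (Q + 1) := by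
    rw [hT₂, hκ]
    exact u13_small B hB P hP h _ _
  have hcount : cnt (sys B P h) n1 L ≤ T₁.card + κ * (Q + 1) := by
    have h3 : cnt (sys B P h) n1 L ≤ (T₁.image (fun m => m + t) ∪ T₂).card := by
      unfold cnt
      apply Finset.card_le_card
      intro n hn
      rw [mem_filter, mem_Ico] at hn
      obtain ⟨⟨hn2, hn3⟩, hn4⟩ := hn
      rw [mem_union]
      by_cases hs : ∃ i, sys B P h i (n : ℤ) < ((Q + 1 : ℕ) : ℤ)
      · right
        obtain ⟨i, hi⟩ := hs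
        rw [hT₂, mem_biUnion]
        refine ⟨(sys B P h i (n : ℤ)).toNat, ?_, ?_⟩
        · rw [mem_range]
          have := (hn4 i).pos
          omega
        · rw [mem_biUnion]
          refine ⟨i, mem_univ _, ?_⟩
          rw [mem_filter, mem_Icc]
          refine ⟨⟨by omega, by omega⟩, ?_⟩
          have := (hn4 i).pos
          omega
      · left
        push Not at hs
        rw [mem_image]
        refine ⟨n - t, ?_, by omega⟩
        rw [hT₁, mem_filter, mem_Icc]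
        refine ⟨⟨by omega, by omega⟩, ?_⟩
        intro p hp hd
        rw [Nat.mem_primesBelow] at hp
        rw [eval_comp, eval_add, eval_X, eval_C] at hd
        have h5 : ((n - t : ℕ) : ℤ) + (t : ℤ) = (n : ℤ) := by omega
        rw [h5, hH, u13_dvd B P h p hp.2] at hd
        obtain ⟨i, hi⟩ := hd
        have h6 := hn4 i
        have h7 := hs i
        have h8 : sys B P h i (n : ℤ) = ((sys B P h i (n : ℤ)).toNat : ℤ) := by
          have := h6.pos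
          omega
        rw [h8, Int.natCast_dvd_natCast, Nat.prime_dvd_prime_iff_eq hp.2 h6] at hi
        have := hp.1
        omega
    refine h3.trans ((card_union_le _ _).trans ?_)
    exact Nat.add_le_add Finset.card_image_le hT₂card
  have hcount' : (cnt (sys B P h) n1 L : ℝ) ≤ T₁.card + κ * ((Q + 1 : ℕ) : ℝ) := by exact_mod_cast hcount
  -- the product
  have hprod : ∏ p ∈ Nat.primesBelow (Q + 1), (1 - (rootCount (H.comp (X + C (t : ℤ))) p : ℝ) / p) =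
      SSf (pr Q) (sys B P h) * (∏ p ∈ Nat.primesBelow (Q + 1), (1 - (p : ℝ)⁻¹)) ^ (k + 1) := by
    unfold SSf
    rw [← u13_pr, ← Finset.prod_pow, ← Finset.prod_mul_distrib]
    apply Finset.prod_congr rfl
    intro p hp
    have hpp := Nat.prime_of_mem_primesBelow hp
    rw [U13_tpf B P h p hpp, hroot, hH, mul_assoc, ← mul_pow, one_div]
    have hp1 : (1 : ℝ) < p := by exact_mod_cast hpp.one_lt
    have h9 : (1 - (p : ℝ)⁻¹) ≠ 0 := by
      have : (p : ℝ)⁻¹ < 1 := inv_lt_one_of_one_lt₀ hp1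
      linarith
    rw [inv_mul_cancel₀ h9, one_pow, mul_one]
  have hSS : 0 ≤ SSf (pr Q) (sys B P h) := by
    unfold SSf
    apply Finset.prod_nonneg
    intro p hp
    rw [← u13_pr] at hp
    have hpp := Nat.prime_of_mem_primesBelow hp
    have hp0 : (0 : ℝ) < p := by exact_mod_cast hpp.pos
    have hp1 : (1 : ℝ) < p := by exact_mod_cast hpp.one_lt
    rw [U13_tpf B P h p hpp]
    apply mul_nonneg
    · rw [sub_nonneg, div_le_one hp0]
      exact_mod_cast (u13_lt B P h hN p hpp).le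
    · apply pow_nonneg
      rw [inv_nonneg, sub_nonneg, div_le_one hp0]
      exact hp1.le
  have hM : (∏ p ∈ Nat.primesBelow (Q + 1), (1 - (p : ℝ)⁻¹)) ^ (k + 1) ≤ 1 / (Real.log Q) ^ (k + 1) := by
    have h10 := prod_one_sub_inv_le (z := Q + 1) (by omega)
    have h11 : 0 ≤ ∏ p ∈ Nat.primesBelow (Q + 1), (1 - (p : ℝ)⁻¹) := by
      apply Finset.prod_nonneg
      intro p hp
      have hp1 : (1 : ℝ) < p := by exact_mod_cast (Nat.prime_of_mem_primesBelow hp).one_lt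
      have : (p : ℝ)⁻¹ < 1 := inv_lt_one_of_one_lt₀ hp1
      linarith
    have h12 : 1 / Real.log ((Q + 1 : ℕ) : ℝ) ≤ 1 / Real.log Q := by
      apply one_div_le_one_div_of_le hlogQ
      apply Real.log_le_log hQ0
      push_cast
      linarith
    rw [← one_div_pow]
    exact pow_le_pow_left₀ h11 (h10.trans h12) _
  have hfin : L * ∏ p ∈ Nat.primesBelow (Q + 1), (1 - (rootCount (H.comp (X + C (t : ℤ))) p : ℝ) / p) ≤
      L * (SSf (pr Q) (sys B P h) * (1 / (Real.log Q) ^ (k + 1))) := by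
    rw [hprod]
    exact mul_le_mul_of_nonneg_left (mul_le_mul_of_nonneg_left hM hSS) hL0.le
  have hκ0 : (0 : ℝ) ≤ κ := by linarith
  have h4 := mul_le_mul_of_nonneg_left (hYR.trans h2) hκ0
  have h13 : (4 + 2 * (κ : ℝ)) * (L * ∏ p ∈ Nat.primesBelow (Q + 1),
      (1 - (rootCount (H.comp (X + C (t : ℤ))) p : ℝ) / p)) ≤
      (4 + 2 * (κ : ℝ)) * (L * (SSf (pr Q) (sys B P h) * (1 / (Real.log Q) ^ (k + 1)))) :=
    mul_le_mul_of_nonneg_left hfin (by positivity)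
  calc (cnt (sys B P h) n1 L : ℝ) ≤ T₁.card + κ * ((Q + 1 : ℕ) : ℝ) := hcount'
    _ ≤ (4 + 2 * (κ : ℝ)) * (L * ∏ p ∈ Nat.primesBelow (Q + 1),
      (1 - (rootCount (H.comp (X + C (t : ℤ))) p : ℝ) / p)) := by linarith
    _ ≤ (4 + 2 * (κ : ℝ)) * (L * (SSf (pr Q) (sys B P h) * (1 / (Real.log Q) ^ (k + 1)))) := h13
    _ = (4 + 2 * κ) * L * SSf (pr Q) (sys B P h) / (Real.log Q) ^ (k + 1) := by ring

end Pool.Agent.H9P
end

-- from Lib.HUP.R10
section

/-!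
# Project HUP, module R (the modules of H24P for an abstract family), R10: twisted means, a random coordinate is twisted
-/

open Finset Polynomial

namespace Pool.Agent.HUP

open Pool.Agent.Lib.H68T Pool.Agent.Lib.H18Q Pool.Agent.Lib.H59P Pool.Agent.Lib.H24P

/-- **R10** (port of `X1A_main`, H24P/X1A.lean). Proof. As there, but `FGood` needs a range of length `H ≥ r^E`: by periodicity modulo
`r` the mean over `range r` is the mean over `range (r^(E+1))` (`x1b_mean` in H24P/X1B.lean). -/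
theorem R10_main (k A E : ℕ) (hA : 1 ≤ A) (Cc cc : ℝ) (hC : FPar Cc cc) : ∃ C c : ℝ, 1 ≤ C ∧ 0 < c ∧ c ≤ 1 ∧
    ∀ B : ℤ[X], Lin A B → ∀ P : Fin k → ℤ[X], Pol A P → ∀ (Q : ℕ) (px : Ch), px ∈ PC Q → 2 ≤ px.1 →
    ∀ Bs : Finset (Fin (k + 1)), (∃ i : Fin k, i.succ ∈ Bs) →
    ∀ (ι : Type) (S : Finset ι) (g : ι → Fin k → ℕ), FGood E Cc cc Q P S g →
    ∑ x ∈ S, ‖MRf (pB px Bs) px.1 (sys B P (g x))‖ ^ 2 ≤
      C * (1 + Real.log px.1) ^ C * S.card * (px.1 : ℝ) ^ (-c) := by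
  classical
  obtain ⟨hCc1, hcc0, hcc1⟩ := hC
  refine ⟨8 * Cc + 2, cc, by linarith, hcc0, hcc1, ?_⟩
  intro B _hB P _hP Q px hpx hr2 Bs hBs ι S g hG
  obtain ⟨hr1, hrQ, hprim⟩ := mem_PC.1 hpx
  obtain ⟨i0, hi0⟩ := hBs
  set r := px.1 with hr
  set Bs' : Finset (Fin k) := univ.filter (fun i : Fin k => i.succ ∈ Bs) with hBs'
  have hmem : ∀ i : Fin k, i ∈ Bs' ↔ i.succ ∈ Bs := by
    intro i
    rw [hBs', Finset.mem_filter]
    exact ⟨fun h => h.2, fun h => ⟨Finset.mem_univ _, h⟩⟩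
  have hpB : ∀ i : Fin k, pB px Bs i.succ = pB px Bs' i := by
    intro i
    unfold pB
    by_cases hi : i.succ ∈ Bs
    · rw [if_pos hi, if_pos ((hmem i).2 hi)]
    · rw [if_neg hi, if_neg (fun h => hi ((hmem i).1 h))]
  have hrR : (2 : ℝ) ≤ r := by exact_mod_cast hr2
  have hr0 : (0 : ℝ) < r := by linarith
  have hlog : 0 ≤ Real.log r := Real.log_natCast_nonneg r
  have hL1 : 1 ≤ 1 + Real.log r := by linarith
  have hv : (0 : ℝ) ≤ S.card := Nat.cast_nonneg _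
  set H : ℕ := r ^ E * r with hH
  have hH0 : 0 < H := by positivity
  have hHR : (0 : ℝ) < H := by exact_mod_cast hH0
  have hHE : r ^ E ≤ H := by
    rw [hH]
    exact Nat.le_mul_of_pos_right _ hr1
  set w : ℕ → ℂ := fun n => cj (pB px Bs 0) (B.eval (n : ℤ)) * ((uu r.primeFactors (B.eval (n : ℤ)) : ℝ) : ℂ)
    with hw
  have hwn : ∀ n, ‖w n‖ ≤ 2 * (1 + Real.log r) := by
    intro n
    rw [hw]
    simp only
    rw [norm_mul, Complex.norm_real, Real.norm_eq_abs, abs_of_nonneg (M3a_uu r hr1 _).1]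
    calc _ ≤ 1 * ((r : ℝ) / (Nat.totient r : ℝ)) :=
          mul_le_mul (x1_cj_norm _ _) (M3a_uu r hr1 _).2 (M3a_uu r hr1 _).1 zero_le_one
      _ = (r : ℝ) / (Nat.totient r : ℝ) := one_mul _
      _ ≤ _ := M3b r hr1
  have hsum : ∀ h : Fin k → ℕ, MRf (pB px Bs) r (sys B P h) = (∑ n ∈ Ico 0 (0 + H), w n *
      ∑ κ ∈ KT px Bs', ∏ i, gk (pB px Bs' i) (κ i) ((P i).eval (n : ℤ) + h i)) / H := by
    intro h
    have hm := x1b_mean (fun n => Phf (pB px Bs) r.primeFactors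
      (at' (sys B P h) n)) r (r ^ E) (fun n => P2_Ph (sys B P h) (P2_sys B P h) _ r r dvd_rfl (by
        intro i
        unfold pB
        split_ifs
        · exact dvd_rfl
        · exact one_dvd _) n)
    have hrC : (r : ℂ) ≠ 0 := by exact_mod_cast (show r ≠ 0 by omega)
    have hMR : MRf (pB px Bs) r (sys B P h) = (∑ n ∈ range H, Phf (pB px Bs) r.primeFactors
        (at' (sys B P h) (n : ℤ))) / H := by
      rw [hH, hm]
      unfold MRf
      push_cast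
      field_simp
    rw [hMR, zero_add, Nat.Ico_zero_eq_range]
    congr 1
    refine Finset.sum_congr rfl fun n _ => ?_
    rw [← X1A_expand Q px hpx Bs' (fun i => (P i).eval (n : ℤ) + h i)]
    unfold Phf at'
    rw [Fin.prod_univ_succ]
    have e0 : sys B P h 0 (n : ℤ) = B.eval (n : ℤ) := rfl
    have e1 : ∀ i : Fin k, sys B P h i.succ (n : ℤ) = (P i).eval (n : ℤ) + h i := fun i => rfl
    rw [e0]
    congr 1
    refine Finset.prod_congr rfl fun i _ => ?_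
    rw [e1, hpB i]
  have hsub := X1A_sub Q px hpx Bs'
  have hlcm : ∀ κ ∈ KT px Bs', r - 1 < univ.lcm (fun i => (pB px Bs' i).1 * κ i) := by
    intro κ hκ
    have hκ' := Fintype.mem_piFinset.1 (hsub.1 hκ)
    have hpos : ∀ i, (pB px Bs' i).1 * κ i ≠ 0 := by
      intro i
      have h1 := f_q_le (hsub.2 i) (hκ' i)
      exact (Nat.one_le_iff_ne_zero).1 h1.1
    have hκ0 : κ i0 = 1 := by
      unfold KT at hκ
      have h1 := Fintype.mem_piFinset.1 hκ i0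
      rw [if_pos ((hmem i0).2 hi0), Finset.mem_singleton] at h1
      exact h1
    have hp0 : pB px Bs' i0 = px := by
      unfold pB
      rw [if_pos ((hmem i0).2 hi0)]
    have hdvd : r ∣ univ.lcm (fun i => (pB px Bs' i).1 * κ i) := by
      have h1 : (pB px Bs' i0).1 * κ i0 ∣ univ.lcm (fun i => (pB px Bs' i).1 * κ i) :=
        Finset.dvd_lcm (f := fun i => (pB px Bs' i).1 * κ i) (Finset.mem_univ i0)
      rw [hκ0, mul_one, hp0] at h1
      exact h1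
    have hne : univ.lcm (fun i => (pB px Bs' i).1 * κ i) ≠ 0 := by
      rw [Ne, Finset.lcm_eq_zero_iff]
      rintro ⟨i, _, hi⟩
      exact hpos i hi
    have := Nat.le_of_dvd (Nat.pos_of_ne_zero hne) hdvd
    omega
  have hmain := hG r hr1 hrQ (pB px Bs') hsub.2 (KT px Bs') hsub.1 (r - 1) (by omega) hlcm 0 H hHE w
  have hD : (((r - 1 : ℕ) : ℝ)) ^ (-cc) ≤ 2 * (r : ℝ) ^ (-cc) := by
    have h1 : (((r - 1 : ℕ) : ℝ)) = (r : ℝ) - 1 := by
      rw [Nat.cast_sub hr1, Nat.cast_one]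
    rw [h1]
    have h2 : (r : ℝ) / 2 ≤ (r : ℝ) - 1 := by linarith
    have h3 : ((r : ℝ) - 1) ^ (-cc) ≤ ((r : ℝ) / 2) ^ (-cc) :=
      Real.rpow_le_rpow_of_nonpos (by positivity) h2 (by linarith)
    refine h3.trans ?_
    rw [Real.div_rpow hr0.le (by norm_num), div_eq_mul_inv, mul_comm, ← Real.rpow_neg (by norm_num), neg_neg]
    have h4 : (2 : ℝ) ^ cc ≤ 2 := by
      calc (2 : ℝ) ^ cc ≤ 2 ^ (1 : ℝ) := Real.rpow_le_rpow_of_exponent_le (by norm_num) hcc1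
        _ = 2 := Real.rpow_one _
    exact mul_le_mul_of_nonneg_right h4 (by positivity)
  have hW : ∑ n ∈ Ico 0 (0 + H), ‖w n‖ ^ 2 ≤ H * (4 * (1 + Real.log r) ^ 2) := by
    calc ∑ n ∈ Ico 0 (0 + H), ‖w n‖ ^ 2 ≤ ∑ _n ∈ Ico 0 (0 + H), 4 * (1 + Real.log r) ^ 2 := by
          refine Finset.sum_le_sum fun n _ => ?_
          have h1 := pow_le_pow_left₀ (norm_nonneg _) (hwn n) 2
          calc ‖w n‖ ^ 2 ≤ (2 * (1 + Real.log r)) ^ 2 := h1
            _ = _ := by ring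
      _ = _ := by
          rw [Finset.sum_const, Nat.card_Ico, nsmul_eq_mul, zero_add, Nat.sub_zero]
  have hnorm : ∀ x ∈ S, ‖MRf (pB px Bs) r (sys B P (g x))‖ ^ 2 = (1 / (H : ℝ) ^ 2) *
      ‖∑ n ∈ Ico 0 (0 + H), w n *
      ∑ κ ∈ KT px Bs', ∏ i, gk (pB px Bs' i) (κ i) ((P i).eval (n : ℤ) + g x i)‖ ^ 2 := by
    intro x _
    rw [hsum (g x), norm_div, Complex.norm_natCast, div_pow]
    ring
  rw [Finset.sum_congr rfl hnorm, ← Finset.mul_sum]
  have hpowL : (1 + Real.log r) ^ Cc * (1 + Real.log r) ^ 2 ≤ (1 + Real.log r) ^ (8 * Cc + 2) := by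
    rw [← Real.rpow_natCast (1 + Real.log r) 2, ← Real.rpow_add (by linarith)]
    refine Real.rpow_le_rpow_of_exponent_le hL1 ?_
    push_cast
    linarith
  have hP0 : 0 ≤ (1 + Real.log r) ^ Cc := Real.rpow_nonneg (by linarith) _
  have hrc : 0 ≤ (r : ℝ) ^ (-cc) := Real.rpow_nonneg hr0.le _
  have hD0 : 0 ≤ (((r - 1 : ℕ) : ℝ)) ^ (-cc) := Real.rpow_nonneg (Nat.cast_nonneg _) _
  calc (1 / (H : ℝ) ^ 2) * ∑ x ∈ S, ‖∑ n ∈ Ico 0 (0 + H), w n *
        ∑ κ ∈ KT px Bs', ∏ i, gk (pB px Bs' i) (κ i) ((P i).eval (n : ℤ) + g x i)‖ ^ 2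
      ≤ (1 / (H : ℝ) ^ 2) * (Cc * (1 + Real.log r) ^ Cc * S.card * (H * ∑ n ∈ Ico 0 (0 + H), ‖w n‖ ^ 2) *
        (((r - 1 : ℕ) : ℝ)) ^ (-cc)) := mul_le_mul_of_nonneg_left hmain (by positivity)
    _ ≤ (1 / (H : ℝ) ^ 2) * (Cc * (1 + Real.log r) ^ Cc * S.card * (H * (H * (4 * (1 + Real.log r) ^ 2))) *
        (2 * (r : ℝ) ^ (-cc))) := by
        refine mul_le_mul_of_nonneg_left ?_ (by positivity)
        refine mul_le_mul ?_ hD hD0 (by positivity)
        refine mul_le_mul_of_nonneg_left ?_ (by positivity)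
        exact mul_le_mul_of_nonneg_left hW hHR.le
    _ = 8 * Cc * ((1 + Real.log r) ^ Cc * (1 + Real.log r) ^ 2) * S.card * (r : ℝ) ^ (-cc) := by
        field_simp
        ring
    _ ≤ (8 * Cc + 2) * (1 + Real.log r) ^ (8 * Cc + 2) * S.card * (r : ℝ) ^ (-cc) := by
        refine mul_le_mul_of_nonneg_right ?_ hrc
        refine mul_le_mul_of_nonneg_right ?_ hv
        exact mul_le_mul (by linarith) hpowL (by positivity) (by linarith)

end Pool.Agent.HUP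
end

-- from Lib.HUP.R12
section

/-!
# Project HUP, module R (the modules of H24P for an abstract family), R12: the exceptional case
-/

open Finset Polynomial

namespace Pool.Agent.HUP

open Pool.Agent.Lib.H68T Pool.Agent.Lib.H18Q Pool.Agent.Lib.H59P Pool.Agent.Lib.H24P

/-- The bound for the mean square, all nonempty sets. -/
theorem r12_ms (k A E : ℕ) (hA : 1 ≤ A) (Cc cc : ℝ) (hC : FPar Cc cc) : ∃ C c : ℝ, 1 ≤ C ∧ 0 < c ∧ ∀ B : ℤ[X], Lin A B →
    ∀ P : Fin k → ℤ[X], Pol A P → ∀ (Q : ℕ) (px : Ch), px ∈ PC Q → 2 ≤ px.1 →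
    ∀ Bs : Finset (Fin (k + 1)), Bs.Nonempty →
    ∀ (ι : Type) (S : Finset ι) (g : ι → Fin k → ℕ), FGood E Cc cc Q P S g →
    ∑ x ∈ S, ‖MRf (pB px Bs) px.1 (sys B P (g x))‖ ^ 2 ≤
      C * (1 + Real.log px.1) ^ C * S.card * (px.1 : ℝ) ^ (-c) := by
  obtain ⟨CA, cA, hCA, hcA, hcA1, HA⟩ := R10_main k A E hA Cc cc hC
  obtain ⟨CB, cB, hCB, hcB, hcB1, HB⟩ := R11_main k A E hA Cc cc hC
  refine ⟨max CA CB, min cA cB, hCA.trans (le_max_left _ _), lt_min hcA hcB, ?_⟩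
  intro B hB P hP Q px hpx hr Bs hBs ι S g hG
  have hr1 : (1 : ℝ) ≤ px.1 := by exact_mod_cast (by omega : 1 ≤ px.1)
  have hl : 1 ≤ 1 + Real.log px.1 := by
    have := Real.log_nonneg hr1
    linarith
  have hv : (0 : ℝ) ≤ S.card := Nat.cast_nonneg _
  have key : ∀ C' c' : ℝ, 1 ≤ C' → C' ≤ max CA CB → min cA cB ≤ c' →
      C' * (1 + Real.log px.1) ^ C' * S.card * (px.1 : ℝ) ^ (-c') ≤
      max CA CB * (1 + Real.log px.1) ^ (max CA CB) * S.card * (px.1 : ℝ) ^ (-(min cA cB)) := by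
    intro C' c' h1 h2 h3
    have h4 : (1 + Real.log px.1) ^ C' ≤ (1 + Real.log px.1) ^ (max CA CB) :=
      Real.rpow_le_rpow_of_exponent_le hl h2
    have h5 : (px.1 : ℝ) ^ (-c') ≤ (px.1 : ℝ) ^ (-(min cA cB)) :=
      Real.rpow_le_rpow_of_exponent_le hr1 (by linarith)
    have h6 : 0 ≤ (1 + Real.log px.1) ^ C' := Real.rpow_nonneg (by linarith) _
    have h7 : 0 ≤ (1 + Real.log px.1) ^ (max CA CB) := Real.rpow_nonneg (by linarith) _
    have h8 : 0 ≤ (px.1 : ℝ) ^ (-c') := Real.rpow_nonneg (by linarith) _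
    have h9 : 0 ≤ max CA CB := by linarith
    gcongr
  by_cases hex : ∃ i : Fin k, i.succ ∈ Bs
  · exact (HA B hB P hP Q px hpx hr Bs hex ι S g hG).trans (key CA cA hCA (le_max_left _ _) (min_le_left _ _))
  · have h0 : Bs = {0} := by
      refine Finset.eq_singleton_iff_nonempty_unique_mem.mpr ⟨hBs, fun x hx => ?_⟩
      rcases Fin.eq_zero_or_eq_succ x with h | ⟨i, h⟩
      · exact h
      · exact absurd ⟨i, h ▸ hx⟩ hex
    rw [h0]
    exact (HB B hB P hP Q px hpx hr ι S g hG).trans (key CB cB hCB (le_max_right _ _) (min_le_right _ _))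


end Pool.Agent.HUP
end

-- from Lib.H9P.E1
section

/-!
# ASYP, chunk E1 (M): the exceptional character does not matter for most parameters
-/

open Finset Polynomial

namespace Pool.Agent.H9P

open Pool.Agent.Lib.H68T Pool.Agent.Lib.H18Q Pool.Agent.Lib.H59P Pool.Agent.Lib.H24P
open Pool.Agent.HUP

theorem e1_split {k : ℕ} (φ : Fin k → ℤ → ℤ) (Q : ℕ) (px : Ch) :
    SSf (pr Q) φ = SSf ((pr Q).filter (fun l => l ∣ px.1)) φ * SSf ((pr Q).filter (fun l => ¬ l ∣ px.1)) φ := by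
  unfold SSf
  exact (Finset.prod_filter_mul_prod_filter_not (pr Q) (fun l => l ∣ px.1)
      (fun l => 1 + tpf l φ)).symm

theorem e1_filter (Q : ℕ) (px : Ch) (hpx : px ∈ PC Q) : (pr Q).filter (fun l => l ∣ px.1) = px.1.primeFactors := by
  have hpc := mem_PC.mp hpx
  have hr : 0 < px.1 := hpc.1
  ext l
  rw [Finset.mem_filter, p5_mem_pr, Nat.mem_primeFactors]
  constructor
  · rintro ⟨⟨h1, _⟩, h3⟩
    exact ⟨h1, h3, hr.ne'⟩
  · rintro ⟨h1, h3, _⟩
    exact ⟨⟨h1, (Nat.le_of_dvd hr h3).trans hpc.2.1⟩, h3⟩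

/-- One system. Proof. `p5_X2a` (`H24P/P5.lean`): `PMf = ∑_{Bs} ∏_{Bs} (-th) MRf(pB px Bs) SSf(l ∤ r)`; the term `Bs = ∅` is `MQf Q (p0, …)`, i.e. `SSf (pr Q) φ` (`P3_SS`; in the proof of `p5_X2a`:
`MRf (pB px B) px.1 φ * SSf … = MQf Q (pB px B) φ`, `P3_M5`). `SSf (pr Q) = SSf (pr Q, l ∣ r) SSf (pr Q, l ∤ r)`. -/
theorem E1_one {k : ℕ} (φ : Fin k → ℤ → ℤ) (hφ : Cp φ) (Q : ℕ) (px : Ch) (hpx : px ∈ PC Q) (hreal : px.2 ^ 2 = 1)
    (th : Fin k → ℝ) (th0 : ℝ) (h0 : ∀ i, 0 ≤ th i) (h1 : ∀ i, th i ≤ th0) (ht : th0 ≤ 1) (s : ℝ) (hs : 0 < s)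
    (hs1 : s ≤ SSf ((pr Q).filter (fun l => l ∣ px.1)) φ) :
    |PMf Q px th φ - SSf (pr Q) φ| ≤ th0 / s * SSf (pr Q) φ *
      ∑ Bs ∈ (univ : Finset (Fin k)).powerset.filter (fun Bs => Bs.Nonempty), ‖MRf (pB px Bs) px.1 φ‖ := by
  classical
  have hpc := mem_PC.mp hpx
  have hr : 0 < px.1 := hpc.1
  rw [e1_split φ Q px]
  rw [e1_filter Q px hpx] at hs1 ⊢
  set S : ℝ := SSf px.1.primeFactors φ with hS
  set S' : ℝ := SSf ((pr Q).filter (fun l => ¬ l ∣ px.1)) φ with hS'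
  have hS'0 : 0 ≤ S' := p5_SS_nonneg _ (fun l hl => (p5_mem_pr.mp (Finset.mem_filter.mp hl).1).1) φ
  have hempty : MRf (pB px (∅ : Finset (Fin k))) px.1 φ = ((S : ℝ) : ℂ) := by
    have h1 : (pB px (∅ : Finset (Fin k))) = fun _ => p0 := by
      funext i
      simp [pB]
    rw [h1]
    exact P3_loc φ hφ px.1 hr
  have hX := p5_X2a φ hφ Q px hpx hreal th
  set E : Finset (Fin k) → ℂ := fun B => ((∏ i ∈ B, -(th i) : ℝ) : ℂ) * MRf (pB px B) px.1 φ with hE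
  have hX' : ((PMf Q px th φ : ℝ) : ℂ) = (∑ B ∈ (univ : Finset (Fin k)).powerset, E B) * (S' : ℂ) := by
    rw [hX, Finset.sum_mul]
    refine Finset.sum_congr rfl fun B _ => ?_
    simp only [hE]
    ring
  have hne : (∅ : Finset (Fin k)) ∈ (univ : Finset (Fin k)).powerset := by simp
  rw [← Finset.add_sum_erase _ E hne] at hX'
  have hE0 : E ∅ = ((S : ℝ) : ℂ) := by
    simp only [hE, Finset.prod_empty, hempty]
    simp
  rw [hE0] at hX'
  have hfil : (univ : Finset (Fin k)).powerset.erase ∅ =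
      (univ : Finset (Fin k)).powerset.filter (fun Bs => Bs.Nonempty) := by
    ext B
    rw [Finset.mem_erase, Finset.mem_filter, Finset.nonempty_iff_ne_empty]
    exact and_comm
  rw [hfil] at hX'
  have hre : PMf Q px th φ - S * S' = (∑ B ∈ (univ : Finset (Fin k)).powerset.filter (fun Bs => Bs.Nonempty), E B).re * S' := by
    have h1 := congrArg Complex.re hX'
    rw [Complex.ofReal_re, Complex.re_mul_ofReal, Complex.add_re, Complex.ofReal_re] at h1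
    rw [h1]
    ring
  have hth0 : ∀ B ∈ (univ : Finset (Fin k)).powerset.filter (fun Bs => Bs.Nonempty), 0 ≤ th0 := by
    intro B hB
    obtain ⟨i, -⟩ := (Finset.mem_filter.mp hB).2
    exact (h0 i).trans (h1 i)
  have hbound : ‖∑ B ∈ (univ : Finset (Fin k)).powerset.filter (fun Bs => Bs.Nonempty), E B‖ ≤
      th0 * ∑ Bs ∈ (univ : Finset (Fin k)).powerset.filter (fun Bs => Bs.Nonempty), ‖MRf (pB px Bs) px.1 φ‖ := by
    refine (norm_sum_le _ _).trans ?_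
    rw [Finset.mul_sum]
    refine Finset.sum_le_sum fun B hB => ?_
    have hB0 := hth0 B hB
    obtain ⟨i, hi⟩ := (Finset.mem_filter.mp hB).2
    simp only [hE]
    rw [norm_mul, Complex.norm_real]
    refine mul_le_mul_of_nonneg_right ?_ (norm_nonneg _)
    rw [norm_prod, ← Finset.mul_prod_erase B _ hi]
    have h2 : ∏ j ∈ B.erase i, ‖(-(th j) : ℝ)‖ ≤ 1 := by
      refine Finset.prod_le_one (fun i _ => norm_nonneg _) fun j _ => ?_
      rw [norm_neg, Real.norm_eq_abs, abs_of_nonneg (h0 j)]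
      exact (h1 j).trans ht
    have h3 : ‖(-(th i) : ℝ)‖ ≤ th0 := by
      rw [norm_neg, Real.norm_eq_abs, abs_of_nonneg (h0 i)]
      exact h1 i
    calc ‖(-(th i) : ℝ)‖ * ∏ j ∈ B.erase i, ‖(-(th j) : ℝ)‖ ≤ th0 * 1 :=
          mul_le_mul h3 h2 (Finset.prod_nonneg fun j _ => norm_nonneg _) hB0
      _ = th0 := mul_one _
  rw [hre, abs_mul, abs_of_nonneg hS'0]
  have h5 := (Complex.abs_re_le_norm (∑ B ∈ (univ : Finset (Fin k)).powerset.filter (fun Bs => Bs.Nonempty), E B)).trans hbound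
  refine (mul_le_mul_of_nonneg_right h5 hS'0).trans ?_
  set M : ℝ := ∑ Bs ∈ (univ : Finset (Fin k)).powerset.filter (fun Bs => Bs.Nonempty), ‖MRf (pB px Bs) px.1 φ‖ with hM
  have hthM : 0 ≤ th0 * M := (norm_nonneg _).trans hbound
  have h6 : 1 ≤ S / s := (one_le_div hs).2 hs1
  calc th0 * M * S' ≤ th0 * M * S' * (S / s) := le_mul_of_one_le_right (mul_nonneg hthM hS'0) h6
    _ = th0 / s * (S * S') * M := by ring

theorem e1_log (x : ℝ) : ∃ Q0 : ℕ, 1 ≤ Q0 ∧ ∀ Q : ℕ, Q0 ≤ Q → x ≤ Real.log Q := by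
  have h := (Real.tendsto_log_atTop.comp tendsto_natCast_atTop_atTop).eventually_ge_atTop x
  obtain ⟨N, hN⟩ := Filter.eventually_atTop.1 h
  exact ⟨N + 1, by omega, fun Q hQ => hN Q (by omega)⟩


theorem e1_gen {k : ℕ} (φ : Fin (k + 1) → ℤ → ℤ) (hφ : Cp φ) (Q : ℕ) (px : Ch) (hpx : px ∈ PC Q) (hreal : px.2 ^ 2 = 1)
    (th : Fin (k + 1) → ℝ) (th0 : ℝ) (h0 : ∀ i, 0 ≤ th i) (h1 : ∀ i, th i ≤ th0) (ht : th0 ≤ 1) (s m ε : ℝ) (hs : 0 < s)
    (hs1 : s ≤ SSf px.1.primeFactors φ) (hm0 : 0 ≤ m)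
    (hm : ∀ Bs : Finset (Fin (k + 1)), Bs.Nonempty → ‖MRf (pB px Bs) px.1 φ‖ ≤ m)
    (hε : th0 / s * (2 ^ (k + 1) * m) ≤ ε) :
    |PMf Q px th φ - SSf (pr Q) φ| ≤ ε * SSf (pr Q) φ := by
  have hth0 : 0 ≤ th0 := (h0 0).trans (h1 0)
  have hSS : 0 ≤ SSf (pr Q) φ := p5_SS_nonneg _ (fun l hl => (p5_mem_pr.mp hl).1) φ
  have e1 := E1_one φ hφ Q px hpx hreal th th0 h0 h1 ht s hs (by rw [e1_filter Q px hpx]; exact hs1)
  refine e1.trans ?_
  have e2 : ∑ Bs ∈ (univ : Finset (Fin (k + 1))).powerset.filter (fun Bs => Bs.Nonempty), ‖MRf (pB px Bs) px.1 φ‖ ≤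
      2 ^ (k + 1) * m := by
    refine (Finset.sum_le_sum fun Bs hBs => hm Bs (Finset.mem_filter.mp hBs).2).trans ?_
    rw [Finset.sum_const, nsmul_eq_mul]
    refine mul_le_mul_of_nonneg_right ?_ hm0
    have h3 : ((univ : Finset (Fin (k + 1))).powerset.filter (fun Bs => Bs.Nonempty)).card ≤ 2 ^ (k + 1) := by
      refine (Finset.card_filter_le _ _).trans ?_
      rw [Finset.card_powerset, Finset.card_univ, Fintype.card_fin]
    exact_mod_cast h3
  have h4 : 0 ≤ th0 / s := div_nonneg hth0 hs.le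
  calc th0 / s * SSf (pr Q) φ * ∑ Bs ∈ (univ : Finset (Fin (k + 1))).powerset.filter (fun Bs => Bs.Nonempty), ‖MRf (pB px Bs) px.1 φ‖
      ≤ th0 / s * SSf (pr Q) φ * (2 ^ (k + 1) * m) := mul_le_mul_of_nonneg_left e2 (mul_nonneg h4 hSS)
    _ = th0 / s * (2 ^ (k + 1) * m) * SSf (pr Q) φ := by ring
    _ ≤ ε * SSf (pr Q) φ := mul_le_mul_of_nonneg_right hε hSS

theorem e1_crude {k : ℕ} (p : Fin (k + 1) → Ch) (R : ℕ) (hR : 0 < R) (φ : Fin (k + 1) → ℤ → ℤ) :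
    ‖MRf p R φ‖ ≤ (R : ℝ) ^ (k + 1) := by
  refine (P0_MR p R hR φ).trans ?_
  have h1 : (1 : ℝ) ≤ (Nat.totient R : ℝ) := by exact_mod_cast Nat.totient_pos.2 hR
  refine pow_le_pow_left₀ (by positivity) ?_ _
  exact div_le_self (Nat.cast_nonneg _) h1


end Pool.Agent.H9P
end

-- from Lib.HUP.R20
section

/-!
# Project HUP, module R (the modules of H24P for an abstract family), R20: covering
-/

open Finset Polynomial

namespace Pool.Agent.HUP

open Pool.Agent.Lib.H68T Pool.Agent.Lib.H18Q Pool.Agent.Lib.H59P Pool.Agent.Lib.H24P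



theorem r20_M (q v : ℕ) (hq : 1 ≤ q) :
    ((q * (5 * v / (8 * q)) : ℕ) : ℝ) ≤ 5 * (v : ℝ) / 8 ∧ 5 * (v : ℝ) / 8 - q ≤ ((q * (5 * v / (8 * q)) : ℕ) : ℝ) := by
  have h1 : 5 * v / (8 * q) * (8 * q) ≤ 5 * v := Nat.div_mul_le_self _ _
  have h2 : 5 * v < (5 * v / (8 * q) + 1) * (8 * q) := by
    have h3 := Nat.lt_div_mul_add (a := 5 * v) (b := 8 * q) (by omega)
    calc 5 * v < 5 * v / (8 * q) * (8 * q) + 8 * q := h3
      _ = (5 * v / (8 * q) + 1) * (8 * q) := by ring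
  have h3 : ((5 * v / (8 * q) : ℕ) : ℝ) * (8 * q) ≤ 5 * v := by exact_mod_cast h1
  have h4 : (5 : ℝ) * v < (((5 * v / (8 * q) : ℕ) : ℝ) + 1) * (8 * q) := by exact_mod_cast h2
  push_cast
  constructor
  · linarith
  · linarith


end Pool.Agent.HUP
end

-- from Lib.HLA.W0
section

/-!
# Project LOGA (MP_0bf1d2_nt): the asymptotic formula for EVERY large `N`, any exponent of the logarithm. Definitions

See `PROOF.md` in this folder.
-/

open Finset Polynomial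

namespace Pool.Agent.HLA

open Pool.Agent.Lib.H68T Pool.Agent.Lib.H18Q Pool.Agent.Lib.H59P Pool.Agent.Lib.H24P
open Pool.Agent.HUP Pool.Agent.H9P

noncomputable section

/-- The length `Z'` is comparable with the scale `Z`, and on `[θ Z', (1 - θ) Z']` all values of the system (linear coordinate `0`,
coordinates `i.succ` of degree `D i`) have the expected sizes. -/
structure Reg (A : ℕ) (κ θ v : ℝ) (Z Z' : ℕ) {k : ℕ} (D : Fin k → ℕ) (φ : Fin (k + 1) → ℤ → ℤ) : Prop where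
  le : Z' ≤ Z
  ge : κ * Z ≤ Z'
  val0 : ∀ n : ℕ, θ * Z' ≤ n → (n : ℝ) ≤ (1 - θ) * Z' →
    v * Z ≤ ((φ 0 (n : ℤ) : ℤ) : ℝ) ∧ ((φ 0 (n : ℤ) : ℤ) : ℝ) ≤ A * Z
  val : ∀ n : ℕ, θ * Z' ≤ n → (n : ℝ) ≤ (1 - θ) * Z' → ∀ i : Fin k,
    v * (Z : ℝ) ^ D i ≤ ((φ i.succ (n : ℤ) : ℤ) : ℝ) ∧ ((φ i.succ (n : ℤ) : ℤ) : ℝ) ≤ A * (Z : ℝ) ^ D i

/-- The same without the linear coordinate. -/
structure RegN (A : ℕ) (κ θ v : ℝ) (Z Z' : ℕ) {k : ℕ} (D : Fin k → ℕ) (φ : Fin k → ℤ → ℤ) : Prop where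
  le : Z' ≤ Z
  ge : κ * Z ≤ Z'
  val : ∀ n : ℕ, θ * Z' ≤ n → (n : ℝ) ≤ (1 - θ) * Z' → ∀ i : Fin k,
    v * (Z : ℝ) ^ D i ≤ ((φ i (n : ℤ) : ℤ) : ℝ) ∧ ((φ i (n : ℤ) : ℤ) : ℝ) ≤ A * (Z : ℝ) ^ D i

/-- The expected density without the linear coordinate. -/
def densN {k : ℕ} (D : Fin k → ℕ) (z Z : ℕ) (φ : Fin k → ℤ → ℤ) : ℝ :=
  SSf (pr z) φ / ((∏ i, (D i : ℝ)) * (Real.log Z) ^ k)

open Classical in
/-- **The core statement**, with a fixed linear coordinate `B`, for every large `Z`. -/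
def ACore {k d : ℕ} (c : Fin k → Fin d → ℤ) (e : Fin d → ℕ) (D : Fin k → ℕ) (P : Fin k → ℤ[X]) : Prop :=
  ∃ δ1 : ℝ, 0 < δ1 ∧ ∀ A : ℕ, ∃ c0 : ℝ, 0 < c0 ∧ ∀ (ε κ : ℝ) (vf : ℝ → ℝ), 0 < ε → 0 < κ →
    (∀ θ : ℝ, 0 < θ → 0 < vf θ) → ∃ (θ C1 : ℝ) (Z0 : ℕ), 0 < θ ∧ 0 ≤ C1 ∧ ∀ Z : ℕ, Z0 ≤ Z → ∀ B : ℤ[X], B.natDegree = 1 → B.leadingCoeff.natAbs ≤ A →
    ∀ β : Fin k → ℤ, (∀ i, |β i| ≤ A * (Z : ℤ) ^ D i) → ∀ z : ℕ, (z : ℝ) ≤ (Z : ℝ) ^ δ1 →
    (((tb 0 fun j => A * Z ^ e j + 1).filter fun t => (∀ i, 0 ≤ β i + lf c t i) ∧ NoFix (sys B P (hh c β t)) ∧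
      ∃ Z' : ℕ, Reg A κ θ (vf θ) Z Z' D (sys B P (hh c β t)) ∧ ε * (Z' * dens D z Z' (sys B P (hh c β t))) <
        |(cnt (sys B P (hh c β t)) 1 Z' : ℝ) - Z' * dens D z Z' (sys B P (hh c β t))|).card : ℝ) ≤
      (Z : ℝ) ^ (∑ j, (e j : ℝ)) * ((Real.log Z) ^ (-(A : ℝ)) + C1 * ((z : ℝ) + 1) ^ (-c0))

open Classical in
/-- **The core statement without a linear coordinate.** (`ran P h` is the system `P_i(n) + h_i`.) -/
def NCore {k d : ℕ} (c : Fin k → Fin d → ℤ) (e : Fin d → ℕ) (D : Fin k → ℕ) (P : Fin k → ℤ[X]) : Prop :=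
  ∃ δ1 : ℝ, 0 < δ1 ∧ ∀ A : ℕ, ∃ c0 : ℝ, 0 < c0 ∧ ∀ (ε κ : ℝ) (vf : ℝ → ℝ), 0 < ε → 0 < κ →
    (∀ θ : ℝ, 0 < θ → 0 < vf θ) → ∃ (θ C1 : ℝ) (Z0 : ℕ), 0 < θ ∧ 0 ≤ C1 ∧ ∀ Z : ℕ, Z0 ≤ Z →
    ∀ β : Fin k → ℤ, (∀ i, |β i| ≤ A * (Z : ℤ) ^ D i) → ∀ z : ℕ, (z : ℝ) ≤ (Z : ℝ) ^ δ1 →
    (((tb 0 fun j => A * Z ^ e j + 1).filter fun t => (∀ i, 0 ≤ β i + lf c t i) ∧ NoFix (ran P (hh c β t)) ∧
      ∃ Z' : ℕ, RegN A κ θ (vf θ) Z Z' D (ran P (hh c β t)) ∧ ε * (Z' * densN D z Z' (ran P (hh c β t))) <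
        |(cnt (ran P (hh c β t)) 1 Z' : ℝ) - Z' * densN D z Z' (ran P (hh c β t))|).card : ℝ) ≤
      (Z : ℝ) ^ (∑ j, (e j : ℝ)) * ((Real.log Z) ^ (-(A : ℝ)) + C1 * ((z : ℝ) + 1) ^ (-c0))

/-- The core statements for all data. -/
def ACoreAll : Prop := ∀ (k d : ℕ) (c : Fin k → Fin d → ℤ) (e : Fin d → ℕ) (P : Fin k → ℤ[X]),
  Dat c e (fun i => (P i).natDegree) (fun i => (P i).leadingCoeff) → ACore c e (fun i => (P i).natDegree) P

def NCoreAll : Prop := ∀ (k d : ℕ) (c : Fin k → Fin d → ℤ) (e : Fin d → ℕ) (P : Fin k → ℤ[X]),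
  Dat c e (fun i => (P i).natDegree) (fun i => (P i).leadingCoeff) → NCore c e (fun i => (P i).natDegree) P

end

end Pool.Agent.HLA
end

-- from Lib.HLA.Y3
section

/-!
# LOGA, chunk Y3 (M): the `b` for which the system with `n + b` has a fixed divisor
-/

open Finset Polynomial

namespace Pool.Agent.HLA

open Pool.Agent.Lib.H68T Pool.Agent.Lib.H18Q Pool.Agent.Lib.H59P Pool.Agent.Lib.H24P
open Pool.Agent.HUP Pool.Agent.H9P

/-- The number of roots modulo `l` of a polynomial which does not vanish identically modulo `l` (as in `H24P/FB.lean`). -/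
theorem y3_roots (F : ℤ[X]) (l : ℕ) (hl : l.Prime) (n : ℤ) (hn : ¬ (l : ℤ) ∣ F.eval n) :
    ((range l).filter (fun a : ℕ => (l : ℤ) ∣ F.eval (a : ℤ))).card ≤ F.natDegree := by
  classical
  have := Fact.mk hl
  set Q : (ZMod l)[X] := F.map (Int.castRingHom (ZMod l)) with hQ
  have hev : ∀ m : ℤ, Q.eval (m : ZMod l) = ((F.eval m : ℤ) : ZMod l) := by
    intro m
    rw [hQ, eval_intCast_map]
    rfl
  have hQ0 : Q ≠ 0 := by
    intro h0
    apply hn
    rw [← ZMod.intCast_zmod_eq_zero_iff_dvd, ← hev, h0, eval_zero]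
  have h1 : ((range l).filter (fun a : ℕ => (l : ℤ) ∣ F.eval (a : ℤ))).card ≤ Q.roots.toFinset.card := by
    refine card_le_card_of_injOn (fun a : ℕ => (a : ZMod l)) ?_ ?_
    · intro a ha
      have ha' := (mem_filter.1 (mem_coe.1 ha)).2
      rw [mem_coe, Multiset.mem_toFinset, mem_roots hQ0, IsRoot.def]
      have h2 := hev (a : ℤ)
      rw [Int.cast_natCast] at h2
      rw [h2, ZMod.intCast_zmod_eq_zero_iff_dvd]
      exact ha'
    · intro a ha b hb hab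
      have ha' := mem_range.1 (mem_filter.1 (mem_coe.1 ha)).1
      have hb' := mem_range.1 (mem_filter.1 (mem_coe.1 hb)).1
      have h2 := (ZMod.natCast_eq_natCast_iff a b l).1 hab
      exact Nat.ModEq.eq_of_lt_of_lt h2 ha' hb'
  refine h1.trans ((Multiset.toFinset_card_le _).trans ((card_roots' _).trans ?_))
  exact natDegree_map_le

/-- The values of the random coordinates as values of polynomials. -/
theorem y3_ran {k : ℕ} (P : Fin k → ℤ[X]) (h : Fin k → ℕ) (i : Fin k) (n : ℤ) :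
    ran P h i n = (P i + C ((h i : ℕ) : ℤ)).eval n := by
  unfold ran
  rw [eval_add, eval_C]

/-- The coordinates of the system. -/
theorem y3_sys0 {k : ℕ} (P : Fin k → ℤ[X]) (h : Fin k → ℕ) (b : ℕ) (n : ℤ) :
    sys (X + C ((b : ℕ) : ℤ)) P h 0 n = n + b := by
  unfold sys
  rw [Fin.cons_zero, eval_add, eval_X, eval_C]

theorem y3_sysS {k : ℕ} (B : ℤ[X]) (P : Fin k → ℤ[X]) (h : Fin k → ℕ) (i : Fin k) (n : ℤ) :
    sys B P h i.succ n = ran P h i n := by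
  unfold sys
  rw [Fin.cons_succ]

/-- **Y3a.** The prime `l` that is a fixed divisor of the system with the coordinate `n + b`, but not of the system without it, is at most `k A + 1`. Proof. Modulo `l` the polynomial `P_i + h_i` is not identically `0` (some `n` with no coordinate
divisible by `l`), so it has at most `D_i ≤ A` roots; the numbers `n` modulo `l` with `l ∣ n + b` or `l ∣` some coordinate are at most `1 + k A` classes, and they are all classes. -/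
theorem y3_prime {k A : ℕ} (P : Fin k → ℤ[X]) (hP : Pol A P) (h : Fin k → ℕ) (hN : NoFix (ran P h)) (b : ℕ) (l : ℕ)
    (hl : l.Prime) (hfix : ∀ n : ℤ, ∃ i, (l : ℤ) ∣ sys (X + C ((b : ℕ) : ℤ)) P h i n) : l ≤ k * A + 1 := by
  classical
  obtain ⟨n0, hn0⟩ := hN l hl
  have hlz : (0 : ℤ) < l := by exact_mod_cast hl.pos
  have hsub : range l ⊆ (range l).filter (fun a : ℕ => (l : ℤ) ∣ (X + C ((b : ℕ) : ℤ) : ℤ[X]).eval (a : ℤ)) ∪
      (univ : Finset (Fin k)).biUnion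
        (fun i => (range l).filter (fun a : ℕ => (l : ℤ) ∣ (P i + C ((h i : ℕ) : ℤ)).eval (a : ℤ))) := by
    intro a ha
    obtain ⟨i, hi⟩ := hfix (a : ℤ)
    rw [mem_union]
    induction i using Fin.cases with
    | zero =>
      left
      refine mem_filter.2 ⟨ha, ?_⟩
      rw [y3_sys0] at hi
      rw [eval_add, eval_X, eval_C]
      exact hi
    | succ j =>
      right
      refine mem_biUnion.2 ⟨j, mem_univ j, mem_filter.2 ⟨ha, ?_⟩⟩
      rw [y3_sysS, y3_ran] at hi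
      exact hi
  have h1 : ((range l).filter (fun a : ℕ => (l : ℤ) ∣ (X + C ((b : ℕ) : ℤ) : ℤ[X]).eval (a : ℤ))).card ≤ 1 := by
    have h2 := y3_roots (X + C ((b : ℕ) : ℤ) : ℤ[X]) l hl (1 - b) (by
      rw [eval_add, eval_X, eval_C, sub_add_cancel]
      intro h3
      have h4 := Int.le_of_dvd one_pos h3
      have h5 : (2 : ℤ) ≤ l := by exact_mod_cast hl.two_le
      omega)
    rwa [natDegree_X_add_C] at h2
  have h2 : ((univ : Finset (Fin k)).biUnion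
      (fun i => (range l).filter (fun a : ℕ => (l : ℤ) ∣ (P i + C ((h i : ℕ) : ℤ)).eval (a : ℤ)))).card ≤ k * A := by
    refine card_biUnion_le.trans ?_
    refine (Finset.sum_le_card_nsmul _ _ A ?_).trans ?_
    · intro i _
      have h3 := y3_roots (P i + C ((h i : ℕ) : ℤ)) l hl n0 (by
        rw [← y3_ran]
        exact hn0 i)
      rw [natDegree_add_C] at h3
      exact h3.trans (hP.degA i)
    · rw [card_univ, Fintype.card_fin, smul_eq_mul]
  have h3 := (card_le_card hsub).trans (card_union_le _ _)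
  rw [card_range] at h3
  omega

/-- **Y3b.** For such `b` the truncated series vanishes and nearly nothing is counted. Proof. `1 + tpf l = 0` (`T1_count` of `H24P/T1.lean`: the count is `0`; the sets are periodic modulo `l`, so it is enough to look at `n < l`), `l ≤ k A + 1 ≤ z`. If all coordinates at `n` are primes
then one of them is divisible by `l`, hence equal to `l`; it is not `n + b ≥ Z > k A + 1 ≥ l`; `P_i(n) + h_i = l` has at most `A` solutions `n` (the polynomial `P_i + h_i - l` has degree `D_i ≥ 1`), so `cnt ≤ k A`. -/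
theorem Y3_fix {k A : ℕ} (P : Fin k → ℤ[X]) (hP : Pol A P) (h : Fin k → ℕ) (hN : NoFix (ran P h)) (b z Z Z' : ℕ)
    (hb : Z ≤ b) (hZ : k * A + 1 < Z) (hz : k * A + 1 ≤ z) (hfix : ¬ NoFix (sys (X + C ((b : ℕ) : ℤ)) P h)) :
    SSf (pr z) (sys (X + C ((b : ℕ) : ℤ)) P h) = 0 ∧ cnt (sys (X + C ((b : ℕ) : ℤ)) P h) 1 Z' ≤ k * A := by
  classical
  have hfix' : ∃ l : ℕ, l.Prime ∧ ∀ n : ℤ, ∃ i, (l : ℤ) ∣ sys (X + C ((b : ℕ) : ℤ)) P h i n := by
    unfold NoFix at hfix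
    push Not at hfix
    exact hfix
  obtain ⟨l, hl, hall⟩ := hfix'
  have hlk := y3_prime P hP h hN b l hl hall
  constructor
  · unfold SSf
    refine Finset.prod_eq_zero (i := l) ?_ ?_
    · unfold pr
      exact mem_filter.2 ⟨mem_Icc.2 ⟨hl.one_lt.le, hlk.trans hz⟩, hl⟩
    · rw [T1_count l hl]
      have h1 : (range l).filter (fun n : ℕ => ∀ i, ¬ (l : ℤ) ∣ sys (X + C ((b : ℕ) : ℤ)) P h i n) = ∅ := by
        refine filter_eq_empty_iff.2 ?_
        intro a _ ha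
        obtain ⟨i, hi⟩ := hall (a : ℤ)
        exact ha i hi
      rw [h1, card_empty, Nat.cast_zero, zero_div, zero_mul]
  · unfold cnt
    have hsub : (Ico 1 (1 + Z')).filter (fun n : ℕ => ∀ i, (sys (X + C ((b : ℕ) : ℤ)) P h i (n : ℤ)).toNat.Prime) ⊆
        (univ : Finset (Fin k)).biUnion
        (fun i => (Ico 1 (1 + Z')).filter (fun n : ℕ => (P i + C ((h i : ℕ) : ℤ) - C (l : ℤ)).eval (n : ℤ) = 0)) := by
      intro n hn
      obtain ⟨hn1, hn2⟩ := mem_filter.1 hn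
      obtain ⟨i, hi⟩ := hall (n : ℤ)
      have hpr := hn2 i
      have hpos : 0 ≤ sys (X + C ((b : ℕ) : ℤ)) P h i (n : ℤ) := by
        by_contra hneg
        push Not at hneg
        rw [Int.toNat_of_nonpos hneg.le] at hpr
        exact Nat.not_prime_zero hpr
      have h2 : (l : ℤ) ∣ ((sys (X + C ((b : ℕ) : ℤ)) P h i (n : ℤ)).toNat : ℤ) := by
        rw [Int.toNat_of_nonneg hpos]
        exact hi
      have h3 : l = (sys (X + C ((b : ℕ) : ℤ)) P h i (n : ℤ)).toNat :=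
        (Nat.prime_dvd_prime_iff_eq hl hpr).1 (Int.natCast_dvd_natCast.1 h2)
      have h4 : sys (X + C ((b : ℕ) : ℤ)) P h i (n : ℤ) = l := by
        rw [← Int.toNat_of_nonneg hpos, ← h3]
      clear hpr hpos h2 h3 hi
      induction i using Fin.cases with
      | zero =>
        rw [y3_sys0] at h4
        omega
      | succ j =>
        refine mem_biUnion.2 ⟨j, mem_univ j, mem_filter.2 ⟨hn1, ?_⟩⟩
        rw [y3_sysS, y3_ran] at h4
        rw [eval_sub, h4, eval_C, sub_self]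
    refine (card_le_card hsub).trans (card_biUnion_le.trans ?_)
    refine (Finset.sum_le_card_nsmul _ _ A ?_).trans ?_
    · intro i _
      have hdeg : (P i + C ((h i : ℕ) : ℤ) - C (l : ℤ)).natDegree = (P i).natDegree := by
        rw [natDegree_sub_C, natDegree_add_C]
      have hne : P i + C ((h i : ℕ) : ℤ) - C (l : ℤ) ≠ 0 := by
        intro h0
        rw [h0, natDegree_zero] at hdeg
        have := hP.deg i
        omega
      have h5 : ((Ico 1 (1 + Z')).filter (fun n : ℕ => (P i + C ((h i : ℕ) : ℤ) - C (l : ℤ)).eval (n : ℤ) = 0)).card ≤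
          (P i + C ((h i : ℕ) : ℤ) - C (l : ℤ)).roots.toFinset.card := by
        refine card_le_card_of_injOn (fun a : ℕ => (a : ℤ)) ?_ ?_
        · intro a ha
          have ha' := (mem_filter.1 (mem_coe.1 ha)).2
          rw [mem_coe, Multiset.mem_toFinset, mem_roots hne, IsRoot.def]
          exact ha'
        · intro a _ b _ hab
          exact Int.natCast_inj.1 hab
      refine h5.trans ((Multiset.toFinset_card_le _).trans ((card_roots' _).trans ?_))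
      rw [hdeg]
      exact hP.degA i
    · rw [card_univ, Fintype.card_fin, smul_eq_mul]

end Pool.Agent.HLA
end

-- from Lib.HLA.W1
section

/-!
# LOGA, chunk W1 (M): the exceptional character does not matter outside a proportion `(log Q)^(-c2)`, EVERY `c2` (Siegel)
-/

open Finset Polynomial

namespace Pool.Agent.HLA

open Pool.Agent.Lib.H68T Pool.Agent.Lib.H18Q Pool.Agent.Lib.H59P Pool.Agent.Lib.H24P
open Pool.Agent.HUP Pool.Agent.H9P

theorem w1_exp (W a c3 ε : ℝ) (hc3 : 0 < c3) (hε : 0 < ε) : ∃ Q0 : ℕ, 1 ≤ Q0 ∧ ∀ Q : ℕ, Q0 ≤ Q →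
    W * (Real.log Q) ^ a * Real.exp (-(c3 * (Real.log Q) ^ (1 / 2 : ℝ))) ≤ ε := by
  have h1 : Filter.Tendsto (fun x : ℝ => x ^ (2 * a) * Real.exp (-c3 * x)) Filter.atTop (nhds 0) :=
    tendsto_rpow_mul_exp_neg_mul_atTop_nhds_zero (2 * a) c3 hc3
  have h2 : Filter.Tendsto (fun Q : ℕ => (Real.log Q) ^ (1 / 2 : ℝ)) Filter.atTop Filter.atTop :=
    (tendsto_rpow_atTop (by norm_num : (0 : ℝ) < 1 / 2)).comp (Real.tendsto_log_atTop.comp tendsto_natCast_atTop_atTop)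
  have h3 := (h1.comp h2).const_mul W
  rw [mul_zero] at h3
  have h4 := h3.eventually (Iio_mem_nhds hε)
  obtain ⟨N, hN⟩ := Filter.eventually_atTop.1 h4
  refine ⟨N + 1, by omega, fun Q hQ => ?_⟩
  have h5 : W * (((Real.log Q) ^ (1 / 2 : ℝ)) ^ (2 * a) * Real.exp (-c3 * (Real.log Q) ^ (1 / 2 : ℝ))) < ε := hN Q (by omega)
  have hL : 0 ≤ Real.log Q := Real.log_natCast_nonneg Q
  have h6 : ((Real.log Q) ^ (1 / 2 : ℝ)) ^ (2 * a) = (Real.log Q) ^ a := by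
    rw [← Real.rpow_mul hL]
    congr 1
    ring
  rw [h6, neg_mul, ← mul_assoc] at h5
  exact h5.le

/-- **W1.** Copy of `E1_main` (`H9P/E1.lean`) with the exponent `c2` GIVEN; the only change is the threshold for `r` and Siegel's
theorem in place of `zero_lower`. Proof. `c, C` the constants of `r12_ms` (`HUP/R12.lean`) and `X2_low` as in `E1_main`; put `b = 1 + 8 c2/c` (so
that `r > (log Q)^b` gives `r^(-c/4) ≤ (log Q)^(-2 c2)`). `E1_one` with `th0 = Q^(β-1)`, `s = c (1 + log r)^(-C)`.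
Case `r ≤ (log Q)^b`: `‖MRf‖ ≤ r^(k+1) ≤ (log Q)^(b (k+1))`; Siegel's theorem (`Pool.Agent.Lib.H57S.siegel` with the exponent `1/(2 b)`: if `1 - c'/r^(1/(2b)) ≤ β` then
`L(β, ψ) ≠ 0`, as `β < 1`) gives `(1 - β) log Q ≥ c' (log Q) r^(-1/(2b)) ≥ c' (log Q)^(1/2)`, so `Q^(β-1) ≤ exp(-c' (log Q)^(1/2))` and the error is at most
`2^(k+1) (1/c) (1 + log r)^C (log Q)^(b(k+1)) exp(-c' (log Q)^(1/2)) SSf ≤ ε SSf` for `Q` large: `Bad = ∅`.
Case `r > (log Q)^b`: `Bad` = the `x ∈ S` with `‖MRf (pB px Bs) r (sys …)‖ > r^(-c/4)` for some nonempty `Bs`, as in `E1_main`: at most `S.card r^(-c/4) ≤ S.card (log Q)^(-c2)`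
elements; outside `Bad` the error is at most `(1/c) (1 + log r)^C 2^(k+1) r^(-c/4) SSf ≤ ε SSf` (`r → ∞` with `Q`). -/
theorem W1_main (k A E : ℕ) (hA : 1 ≤ A) (Cc cc : ℝ) (hC : FPar Cc cc) (c2 ε : ℝ) (hc2 : 0 < c2) (hε : 0 < ε) :
    ∃ Q0 : ℕ, ∀ Q : ℕ, Q0 ≤ Q → ∀ B : ℤ[X], Lin A B → ∀ P : Fin k → ℤ[X], Pol A P →
    ∀ (r : ℕ) [NeZero r] (ψ : DirichletCharacter ℂ r) (β : ℝ), r ^ 100 ≤ Q → ψ.IsPrimitive →
    ψ ≠ 1 → ψ ^ 2 = 1 → β < 1 → ψ.LFunction (β : ℂ) = 0 →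
    ∀ (ι : Type) (S : Finset ι) (g : ι → Fin k → ℕ), FGood E Cc cc Q P S g →
    ∃ Bad : Finset ι, Bad ⊆ S ∧ (Bad.card : ℝ) ≤ S.card * (Real.log Q) ^ (-c2) ∧
      ∀ x ∈ S, x ∉ Bad → NoFix (sys B P (g x)) → ∀ th' : Fin (k + 1) → ℝ, (∀ i, 0 ≤ th' i) →
        (∀ i, th' i ≤ (Q : ℝ) ^ (β - 1)) →
        |PMf Q ⟨r, ψ⟩ th' (sys B P (g x)) - SSf (pr Q) (sys B P (g x))| ≤ ε * SSf (pr Q) (sys B P (g x)) := by
  classical
  obtain ⟨C, c, hC1, hc, hlow⟩ := X2_low k A hA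
  obtain ⟨CC, cc', hCC, hcc, HH⟩ := r12_ms k A E hA Cc cc hC
  obtain ⟨b, hb⟩ : ∃ b : ℝ, b = 1 + 8 * c2 / cc' := ⟨_, rfl⟩
  have hb1 : 1 ≤ b := by
    rw [hb]
    have : 0 ≤ 8 * c2 / cc' := by positivity
    linarith
  have hb0 : 0 < b := by linarith
  have hbc : c2 ≤ b * (cc' / 4) := by
    have h1 : b * (cc' / 4) = cc' / 4 + 2 * c2 := by
      rw [hb]
      field_simp
      ring
    rw [h1]
    linarith
  obtain ⟨c3, hc3, hz⟩ := Pool.Agent.Lib.H57S.siegel (1 / (2 * b)) (by positivity)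
  obtain ⟨R1, hR11, hR1⟩ := G1_rlog (2 ^ (k + 1) / (c * ε)) C (cc' / 4) (by positivity)
  obtain ⟨R2, hR21, hR2⟩ := G1_rlog (2 ^ (k + 1) * CC) CC (cc' / 4) (by positivity)
  obtain ⟨Q1, hQ11, hQ1⟩ := w1_exp (2 ^ (k + 1) / c) (b * C + b * (k + 1)) c3 ε hc3 hε
  obtain ⟨Q2, hQ21, hQ2⟩ := e1_log ((R1 : ℝ) + R2 + 2)
  refine ⟨Q1 + Q2 + 2, ?_⟩
  intro Q hQ B hB P hP r _ ψ β hrQ hprim hψ1 hψ2 hβ hL ι S g hG
  have e1 := hQ1 Q (by omega)
  have e2 := hQ2 Q (by omega)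
  have hr0 : r ≠ 0 := NeZero.ne r
  have hr2 : 2 ≤ r := by
    by_contra hcon
    have h1 : r = 1 := by
      have := Nat.pos_of_ne_zero hr0
      omega
    subst h1
    exact hψ1 (DirichletCharacter.level_one ψ)
  have hrQ' : r ≤ Q := (Nat.le_self_pow (by norm_num) r).trans hrQ
  have hpx : (⟨r, ψ⟩ : Ch) ∈ PC Q := mem_PC.mpr ⟨(by omega : 1 ≤ r), hrQ', hprim⟩
  have hq1 : (1 : ℝ) ≤ Q := by exact_mod_cast (by omega : 1 ≤ Q)
  have hq0 : (0 : ℝ) < Q := by linarith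
  have hr1 : (1 : ℝ) ≤ r := by exact_mod_cast (by omega : 1 ≤ r)
  have hr0' : (0 : ℝ) < r := by linarith
  have hlr0 : 0 ≤ Real.log r := Real.log_nonneg hr1
  have hL1 : 1 ≤ Real.log Q := by
    refine le_trans ?_ e2
    have h1 : (0 : ℝ) ≤ R1 := Nat.cast_nonneg _
    have h2 : (0 : ℝ) ≤ R2 := Nat.cast_nonneg _
    linarith
  have hL0 : 0 ≤ Real.log Q := by linarith
  have hth1 : (Q : ℝ) ^ (β - 1) ≤ 1 := Real.rpow_le_one_of_one_le_of_nonpos hq1 (by linarith)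
  have hth0 : 0 ≤ (Q : ℝ) ^ (β - 1) := Real.rpow_nonneg hq0.le _
  have hlp : 0 < (1 + Real.log r) ^ C := Real.rpow_pos_of_pos (by linarith) _
  have hs : 0 < c * (1 + Real.log r) ^ (-C) := mul_pos hc (Real.rpow_pos_of_pos (by linarith) _)
  have hsub : r.primeFactors ⊆ pr r := by
    intro l hl
    refine p5_mem_pr.mpr ⟨Nat.prime_of_mem_primeFactors hl, ?_⟩
    exact Nat.le_of_dvd (by omega) (Nat.dvd_of_mem_primeFactors hl)
  by_cases hcase : (r : ℝ) ≤ (Real.log Q) ^ b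
  · refine ⟨∅, Finset.empty_subset _, ?_, ?_⟩
    · rw [Finset.card_empty, Nat.cast_zero]
      exact mul_nonneg (Nat.cast_nonneg _) (Real.rpow_nonneg hL0 _)
    intro x hh _ hN th' h0 h1'
    have f1 := hlow B hB P hP (g x) hN r hr2 r.primeFactors hsub
    refine e1_gen (sys B P (g x)) (P2_sys B P (g x)) Q ⟨r, ψ⟩ hpx hψ2 th' ((Q : ℝ) ^ (β - 1)) h0 h1' hth1
      (c * (1 + Real.log r) ^ (-C)) ((r : ℝ) ^ (k + 1)) ε hs f1 (by positivity)
      (fun Bs _ => e1_crude _ r (by omega) _) ?_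
    have g0 : 1 + Real.log r ≤ r := by
      have := Real.log_le_sub_one_of_pos hr0'
      linarith
    have g1 : (r : ℝ) ^ (1 / (2 * b)) ≤ (Real.log Q) ^ (1 / 2 : ℝ) := by
      calc (r : ℝ) ^ (1 / (2 * b)) ≤ ((Real.log Q) ^ b) ^ (1 / (2 * b)) :=
            Real.rpow_le_rpow hr0'.le hcase (by positivity)
        _ = (Real.log Q) ^ (1 / 2 : ℝ) := by
            rw [← Real.rpow_mul hL0]
            congr 1
            field_simp
    have hL12 : 0 < (Real.log Q) ^ (1 / 2 : ℝ) := Real.rpow_pos_of_pos (by linarith) _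
    have g2 : c3 * (Real.log Q) ^ (1 / 2 : ℝ) ≤ (1 - β) * Real.log Q := by
      have h0 : c3 / (r : ℝ) ^ (1 / (2 * b)) ≤ 1 - β := by
        by_contra hcon
        exact hz r ψ hprim hψ1 hψ2 β (by linarith) hβ.le hL
      have h1 : c3 / (Real.log Q) ^ (1 / 2 : ℝ) ≤ 1 - β := by
        refine le_trans ?_ h0
        exact div_le_div_of_nonneg_left hc3.le (Real.rpow_pos_of_pos hr0' _) g1
      have h2 : Real.log Q = (Real.log Q) ^ (1 / 2 : ℝ) * (Real.log Q) ^ (1 / 2 : ℝ) := by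
        rw [← Real.rpow_add (by linarith)]
        norm_num
      have h3 := mul_le_mul_of_nonneg_right h1 hL0
      refine le_trans (le_of_eq ?_) h3
      calc c3 * (Real.log Q) ^ (1 / 2 : ℝ) = c3 / (Real.log Q) ^ (1 / 2 : ℝ) * ((Real.log Q) ^ (1 / 2 : ℝ) * (Real.log Q) ^ (1 / 2 : ℝ)) := by
            field_simp
        _ = c3 / (Real.log Q) ^ (1 / 2 : ℝ) * Real.log Q := by rw [← h2]
    have g3 : (Q : ℝ) ^ (β - 1) ≤ Real.exp (-(c3 * (Real.log Q) ^ (1 / 2 : ℝ))) := by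
      rw [Real.rpow_def_of_pos hq0]
      refine Real.exp_le_exp.2 ?_
      linarith
    have g4 : (1 + Real.log r) ^ C ≤ (Real.log Q) ^ (b * C) := by
      rw [Real.rpow_mul hL0]
      exact Real.rpow_le_rpow (by linarith) (g0.trans hcase) (by linarith)
    have g5 : (r : ℝ) ^ (k + 1) ≤ (Real.log Q) ^ (b * ((k : ℝ) + 1)) := by
      rw [Real.rpow_mul hL0]
      refine (pow_le_pow_left₀ hr0'.le hcase _).trans (le_of_eq ?_)
      rw [← Real.rpow_natCast]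
      push_cast
      rfl
    have hLC : 0 ≤ (Real.log Q) ^ (b * C) := Real.rpow_nonneg hL0 _
    calc (Q : ℝ) ^ (β - 1) / (c * (1 + Real.log r) ^ (-C)) * (2 ^ (k + 1) * (r : ℝ) ^ (k + 1))
        = (Q : ℝ) ^ (β - 1) * (1 + Real.log r) ^ C * (2 ^ (k + 1) / c) * (r : ℝ) ^ (k + 1) := by
          rw [Real.rpow_neg (by linarith)]
          field_simp
      _ ≤ Real.exp (-(c3 * (Real.log Q) ^ (1 / 2 : ℝ))) * (Real.log Q) ^ (b * C) * (2 ^ (k + 1) / c) * (Real.log Q) ^ (b * ((k : ℝ) + 1)) := by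
          gcongr
      _ = 2 ^ (k + 1) / c * ((Real.log Q) ^ (b * C) * (Real.log Q) ^ (b * ((k : ℝ) + 1))) * Real.exp (-(c3 * (Real.log Q) ^ (1 / 2 : ℝ))) := by
          ring
      _ = 2 ^ (k + 1) / c * (Real.log Q) ^ (b * C + b * ((k : ℝ) + 1)) * Real.exp (-(c3 * (Real.log Q) ^ (1 / 2 : ℝ))) := by
          rw [Real.rpow_add (by linarith)]
      _ ≤ ε := e1
  · have hcase' : (Real.log Q) ^ b < r := not_le.mp hcase
    have hbig : (R1 : ℝ) + R2 + 2 < r := by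
      refine lt_of_le_of_lt ?_ hcase'
      calc (R1 : ℝ) + R2 + 2 ≤ Real.log Q := e2
        _ = (Real.log Q) ^ (1 : ℝ) := (Real.rpow_one _).symm
        _ ≤ (Real.log Q) ^ b := Real.rpow_le_rpow_of_exponent_le hL1 hb1
    have hbigN : R1 + R2 + 2 < r := by exact_mod_cast hbig
    have k1 := hR1 r (by omega)
    have k2 := hR2 r (by omega)
    set T : ℝ := (r : ℝ) ^ (-(cc' / 4)) with hT
    have hT0 : 0 < T := Real.rpow_pos_of_pos hr0' _
    set V : ℝ := CC * (1 + Real.log r) ^ CC * S.card * (r : ℝ) ^ (-cc') with hV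
    set F : Finset (Fin (k + 1)) → ι → ℝ := fun Bs x =>
      ‖MRf (pB (⟨r, ψ⟩ : Ch) Bs) r (sys B P (g x))‖ with hF
    have hsum : ∀ Bs : Finset (Fin (k + 1)), Bs.Nonempty → ∑ x ∈ S, F Bs x ^ 2 ≤ V :=
      fun Bs hBs => HH B hB P hP Q ⟨r, ψ⟩ hpx hr2 Bs hBs ι S g hG
    set NE : Finset (Finset (Fin (k + 1))) := (univ : Finset (Finset (Fin (k + 1)))).filter
      (fun Bs => Bs.Nonempty) with hNE
    refine ⟨NE.biUnion fun Bs => S.filter fun h => T < F Bs h, ?_, ?_, ?_⟩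
    · exact Finset.biUnion_subset.mpr fun Bs _ => Finset.filter_subset _ _
    · have g1 : (((NE.biUnion fun Bs => S.filter fun h => T < F Bs h).card : ℕ) : ℝ) ≤
          2 ^ (k + 1) * (V / T ^ 2) := by
        have g2 : (((NE.biUnion fun Bs => S.filter fun h => T < F Bs h).card : ℕ) : ℝ) ≤
            ∑ Bs ∈ NE, (((S.filter fun h => T < F Bs h).card : ℕ) : ℝ) := by
          exact_mod_cast Finset.card_biUnion_le
        have g3 : ∑ Bs ∈ NE, (((S.filter fun h => T < F Bs h).card : ℕ) : ℝ) ≤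
            ∑ _Bs ∈ NE, V / T ^ 2 := by
          refine Finset.sum_le_sum fun Bs hBs => ?_
          have hne : Bs.Nonempty := (Finset.mem_filter.mp hBs).2
          exact k1_cheb S (F Bs) T V hT0 (hsum Bs hne) (fun h => norm_nonneg _)
        have hV0 : 0 ≤ V / T ^ 2 := by
          have : 0 ≤ V := by
            have h1 : 0 ≤ (1 + Real.log r) ^ CC := Real.rpow_nonneg (by linarith) _
            have h2 : 0 ≤ (r : ℝ) ^ (-cc') := Real.rpow_nonneg (by linarith) _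
            rw [hV]
            positivity
          positivity
        have g4 : ∑ _Bs ∈ NE, V / T ^ 2 ≤ 2 ^ (k + 1) * (V / T ^ 2) := by
          rw [Finset.sum_const, nsmul_eq_mul]
          refine mul_le_mul_of_nonneg_right ?_ hV0
          have h1 : NE.card ≤ 2 ^ (k + 1) := by
            refine (Finset.card_le_univ _).trans ?_
            rw [Fintype.card_finset, Fintype.card_fin]
          exact_mod_cast h1
        exact (g2.trans g3).trans g4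
      refine g1.trans ?_
      have hT2 : (T ^ 2)⁻¹ = (r : ℝ) ^ (cc' / 2) := by
        rw [hT, ← Real.rpow_natCast, ← Real.rpow_mul hr0'.le, ← Real.rpow_neg hr0'.le]
        congr 1
        push_cast
        ring
      have hT3 : (r : ℝ) ^ (cc' / 4) * ((r : ℝ) ^ (-cc') * (r : ℝ) ^ (cc' / 2)) = (r : ℝ) ^ (-(cc' / 4)) := by
        rw [← Real.rpow_add hr0', ← Real.rpow_add hr0']
        congr 1
        ring
      have hT4 : (r : ℝ) ^ (-(cc' / 4)) ≤ (Real.log Q) ^ (-c2) := by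
        calc (r : ℝ) ^ (-(cc' / 4)) ≤ ((Real.log Q) ^ b) ^ (-(cc' / 4)) :=
              Real.rpow_le_rpow_of_nonpos (Real.rpow_pos_of_pos (by linarith) _) hcase'.le (by linarith)
          _ = (Real.log Q) ^ (b * (-(cc' / 4))) := (Real.rpow_mul hL0 _ _).symm
          _ ≤ (Real.log Q) ^ (-c2) := Real.rpow_le_rpow_of_exponent_le hL1 (by linarith)
      have hpos : 0 ≤ (r : ℝ) ^ (-cc') * (r : ℝ) ^ (cc' / 2) :=
        mul_nonneg (Real.rpow_nonneg hr0'.le _) (Real.rpow_nonneg hr0'.le _)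
      calc 2 ^ (k + 1) * (V / T ^ 2) = S.card * ((2 ^ (k + 1) * CC * (1 + Real.log r) ^ CC) *
            ((r : ℝ) ^ (-cc') * (r : ℝ) ^ (cc' / 2))) := by
            rw [div_eq_mul_inv, hT2, hV]
            ring
        _ ≤ S.card * ((r : ℝ) ^ (cc' / 4) * ((r : ℝ) ^ (-cc') * (r : ℝ) ^ (cc' / 2))) :=
            mul_le_mul_of_nonneg_left (mul_le_mul_of_nonneg_right k2 hpos) (Nat.cast_nonneg _)
        _ = S.card * (r : ℝ) ^ (-(cc' / 4)) := by rw [hT3]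
        _ ≤ S.card * (Real.log Q) ^ (-c2) := mul_le_mul_of_nonneg_left hT4 (Nat.cast_nonneg _)
    · intro x hh hbad hN th' h0 h1'
      have g1 : ∀ Bs : Finset (Fin (k + 1)), Bs.Nonempty → F Bs x ≤ T := by
        intro Bs hBs
        by_contra hcon
        refine hbad (Finset.mem_biUnion.mpr ⟨Bs, ?_, ?_⟩)
        · exact Finset.mem_filter.mpr ⟨Finset.mem_univ _, hBs⟩
        · exact Finset.mem_filter.mpr ⟨hh, not_le.mp hcon⟩
      have f1 := hlow B hB P hP (g x) hN r hr2 r.primeFactors hsub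
      refine e1_gen (sys B P (g x)) (P2_sys B P (g x)) Q ⟨r, ψ⟩ hpx hψ2 th' ((Q : ℝ) ^ (β - 1)) h0 h1' hth1
        (c * (1 + Real.log r) ^ (-C)) T ε hs f1 hT0.le g1 ?_
      have hTi : T * (r : ℝ) ^ (cc' / 4) = 1 := by
        rw [hT, ← Real.rpow_add hr0']
        norm_num
      have k3 : 2 ^ (k + 1) / (c * ε) * (1 + Real.log r) ^ C * T ≤ 1 := by
        calc 2 ^ (k + 1) / (c * ε) * (1 + Real.log r) ^ C * T ≤ (r : ℝ) ^ (cc' / 4) * T :=
              mul_le_mul_of_nonneg_right k1 hT0.le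
          _ = 1 := by rw [mul_comm, hTi]
      calc (Q : ℝ) ^ (β - 1) / (c * (1 + Real.log r) ^ (-C)) * (2 ^ (k + 1) * T)
          ≤ 1 / (c * (1 + Real.log r) ^ (-C)) * (2 ^ (k + 1) * T) := by
            gcongr
        _ = ε * (2 ^ (k + 1) / (c * ε) * (1 + Real.log r) ^ C * T) := by
            rw [Real.rpow_neg (by linarith)]
            field_simp
        _ ≤ ε * 1 := mul_le_mul_of_nonneg_left k3 hε.le
        _ = ε := mul_one _

end Pool.Agent.HLA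
end

-- from Lib.HLA.W16A
section

/-!
# LOGA, chunk W16A (S/M): sizes of the values of the `P_i`
-/

open Finset Polynomial

namespace Pool.Agent.HLA

open Pool.Agent.Lib.H68T Pool.Agent.Lib.H18Q Pool.Agent.Lib.H59P Pool.Agent.Lib.H24P
open Pool.Agent.HUP Pool.Agent.H9P
open Pool.Agent.Lib.H59 (argSet argCount Admissible primeCount omegaN seriesTrunc)

theorem w16a_val1 (P : ℤ[X]) (hl : 0 < P.leadingCoeff) : ∃ (C : ℝ) (n0 : ℕ), 1 ≤ C ∧ ∀ n : ℕ, n0 ≤ n →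
    (n : ℝ) ^ P.natDegree ≤ 2 * ((P.eval (n : ℤ) : ℤ) : ℝ) ∧
      ((P.eval (n : ℤ) : ℤ) : ℝ) ≤ C * (n : ℝ) ^ P.natDegree := by
  have hinj : Function.Injective (Int.castRingHom ℝ) := Int.cast_injective
  obtain ⟨q, hq⟩ : ∃ q : ℝ[X], q = P.map (Int.castRingHom ℝ) := ⟨_, rfl⟩
  have hP0 : P ≠ 0 := by
    rintro rfl
    simp at hl
  have hqd : q.natDegree = P.natDegree := by rw [hq, natDegree_map_eq_of_injective hinj]
  have hql : q.leadingCoeff = (P.leadingCoeff : ℝ) := by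
    rw [hq, leadingCoeff_map_of_injective hinj]
    rfl
  have hq0 : q ≠ 0 := by
    intro h
    rw [h, leadingCoeff_zero] at hql
    have : P.leadingCoeff = 0 := by exact_mod_cast hql.symm
    omega
  have hdeg : q.degree = (X ^ P.natDegree : ℝ[X]).degree := by
    rw [degree_X_pow, degree_eq_natDegree hq0, hqd]
  have h1 := Polynomial.div_tendsto_atTop_leadingCoeff_div_of_degree_eq q (X ^ P.natDegree : ℝ[X]) hdeg
  rw [leadingCoeff_X_pow, div_one, hql] at h1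
  have hl1 : (1 : ℝ) ≤ (P.leadingCoeff : ℝ) := by exact_mod_cast hl
  have h2 := h1.comp (tendsto_natCast_atTop_atTop (R := ℝ))
  have h3 := h2.eventually (lt_mem_nhds (show (1 / 2 : ℝ) < (P.leadingCoeff : ℝ) by linarith))
  have h4 := h2.eventually (gt_mem_nhds (show (P.leadingCoeff : ℝ) < (P.leadingCoeff : ℝ) + 1 by linarith))
  obtain ⟨N, hN⟩ := Filter.eventually_atTop.1 (h3.and h4)
  refine ⟨(P.leadingCoeff : ℝ) + 1, N + 1, by linarith, fun n hn => ?_⟩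
  have h5 := hN n (by omega)
  have hn1 : (1 : ℝ) ≤ n := by exact_mod_cast (by omega : 1 ≤ n)
  have hnp : (0 : ℝ) < (n : ℝ) ^ P.natDegree := by positivity
  have hev : q.eval (n : ℝ) = ((P.eval (n : ℤ) : ℤ) : ℝ) := by
    rw [hq]
    have := Polynomial.eval_intCast_map (Int.castRingHom ℝ) P (n : ℤ)
    rw [Int.cast_natCast] at this
    rw [this]
    rfl
  simp only [Function.comp_apply, eval_pow, eval_X, hev] at h5
  obtain ⟨h6, h7⟩ := h5
  rw [lt_div_iff₀ hnp] at h6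
  rw [div_lt_iff₀ hnp] at h7
  exact ⟨by linarith, h7.le⟩

theorem w16a_val {k : ℕ} (P : Fin k → ℤ[X]) (hP : ∀ i, 0 < (P i).leadingCoeff) :
    ∃ (C : ℝ) (n0 : ℕ), 1 ≤ C ∧ ∀ n : ℕ, n0 ≤ n → ∀ i,
    (n : ℝ) ^ (P i).natDegree ≤ 2 * (((P i).eval (n : ℤ) : ℤ) : ℝ) ∧
      (((P i).eval (n : ℤ) : ℤ) : ℝ) ≤ C * (n : ℝ) ^ (P i).natDegree := by
  have h : ∀ i, ∃ (C : ℝ) (n0 : ℕ), 1 ≤ C ∧ ∀ n : ℕ, n0 ≤ n →
      (n : ℝ) ^ (P i).natDegree ≤ 2 * (((P i).eval (n : ℤ) : ℤ) : ℝ) ∧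
      (((P i).eval (n : ℤ) : ℤ) : ℝ) ≤ C * (n : ℝ) ^ (P i).natDegree :=
    fun i => w16a_val1 (P i) (hP i)
  choose C n0 hC hn using h
  refine ⟨1 + ∑ i, C i, ∑ i, n0 i, ?_, ?_⟩
  · have : 0 ≤ ∑ i, C i := sum_nonneg fun i _ => by linarith [hC i]
    linarith
  · intro n hn' i
    have h1 : n0 i ≤ n := (single_le_sum (f := n0) (fun _ _ => Nat.zero_le _) (mem_univ i)).trans hn'
    have h2 : C i ≤ 1 + ∑ i, C i := by
      have := single_le_sum (f := C) (fun j _ => by linarith [hC j]) (mem_univ i)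
      linarith
    obtain ⟨h3, h4⟩ := hn i n h1
    exact ⟨h3, h4.trans (mul_le_mul_of_nonneg_right h2 (by positivity))⟩

/-- **W16a.** The polynomials `P_i`: lower bound away from `0`, upper bound. Proof. Positive leading coefficient `≥ 1`: `P_i(n) ≥ n^(D_i)/2` for `n ≥ n0`, `|P_i(n)| ≤ C n^(D_i)` for `n ≥ 1` (compare `U16_val`). For `Z' ≥ κ Z` and `θ Z' ≤ n`:
`P_i(n) ≥ (θ κ)^(D_i)/2 Z^(D_i)`, `v ≤ (θ κ)^(D_i)/2`; `0 ≤ s ≤ A Z^(D_i)`. -/
theorem W16_P {k : ℕ} (P : Fin k → ℤ[X]) (hP : ∀ i, 1 ≤ (P i).natDegree ∧ 0 < (P i).leadingCoeff) (A : ℕ) (κ : ℝ) (hκ : 0 < κ) :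
    ∃ A' : ℕ, ∀ θ : ℝ, 0 < θ → ∃ v : ℝ, 0 < v ∧ ∃ Z0 : ℕ, ∀ Z Z' : ℕ, Z0 ≤ Z → Z' ≤ Z → κ * Z ≤ Z' →
    ∀ s : Fin k → ℤ, (∀ i, 0 ≤ s i ∧ s i ≤ A * (Z : ℤ) ^ (P i).natDegree) → ∀ n : ℕ, θ * Z' ≤ n → n ≤ Z' → ∀ i,
      v * (Z : ℝ) ^ (P i).natDegree ≤ (((P i).eval (n : ℤ) + s i : ℤ) : ℝ) ∧
      (((P i).eval (n : ℤ) + s i : ℤ) : ℝ) ≤ A' * (Z : ℝ) ^ (P i).natDegree := by
  obtain ⟨C, n0, hC, hval⟩ := w16a_val P (fun i => (hP i).2)
  refine ⟨⌈C⌉₊ + A, fun θ hθ => ?_⟩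
  obtain ⟨t, ht⟩ : ∃ t : ℝ, t = min (θ * κ) 1 := ⟨_, rfl⟩
  have hθκ : 0 < θ * κ := mul_pos hθ hκ
  have ht0 : 0 < t := by
    rw [ht]
    exact lt_min hθκ one_pos
  have ht1 : t ≤ 1 := by
    rw [ht]
    exact min_le_right _ _
  have htκ : t ≤ θ * κ := by
    rw [ht]
    exact min_le_left _ _
  refine ⟨t ^ (∑ i, (P i).natDegree) / 2, by positivity, ⌈(n0 : ℝ) / (θ * κ)⌉₊, ?_⟩
  intro Z Z' hZ hZZ' hκZ s hs n hn1 hn2 i
  have hZr : (n0 : ℝ) / (θ * κ) ≤ Z := (Nat.le_ceil _).trans (by exact_mod_cast hZ)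
  have hn0 : (n0 : ℝ) ≤ θ * κ * Z := by
    rw [div_le_iff₀ hθκ] at hZr
    linarith
  have h1 : θ * κ * Z ≤ n := by
    have h2 : θ * (κ * Z) ≤ θ * Z' := mul_le_mul_of_nonneg_left hκZ hθ.le
    linarith
  have h3 : n0 ≤ n := by
    have : (n0 : ℝ) ≤ n := hn0.trans h1
    exact_mod_cast this
  obtain ⟨h4, h5⟩ := hval n h3 i
  have hZ0 : (0 : ℝ) ≤ Z := Nat.cast_nonneg Z
  have h6 : (t ^ (∑ i, (P i).natDegree)) * (Z : ℝ) ^ (P i).natDegree ≤ (n : ℝ) ^ (P i).natDegree := by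
    have h7 : t ^ (∑ i, (P i).natDegree) ≤ t ^ (P i).natDegree :=
      pow_le_pow_of_le_one ht0.le ht1
        (single_le_sum (f := fun i => (P i).natDegree) (fun _ _ => Nat.zero_le _) (mem_univ i))
    calc (t ^ (∑ i, (P i).natDegree)) * (Z : ℝ) ^ (P i).natDegree
        ≤ t ^ (P i).natDegree * (Z : ℝ) ^ (P i).natDegree :=
          mul_le_mul_of_nonneg_right h7 (by positivity)
      _ = (t * Z) ^ (P i).natDegree := (mul_pow _ _ _).symm
      _ ≤ (n : ℝ) ^ (P i).natDegree := by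
          refine pow_le_pow_left₀ (by positivity) ?_ _
          exact (mul_le_mul_of_nonneg_right htκ hZ0).trans h1
  obtain ⟨hs1, hs2⟩ := hs i
  have hs1' : (0 : ℝ) ≤ (s i : ℝ) := by exact_mod_cast hs1
  have hs2' : (s i : ℝ) ≤ A * (Z : ℝ) ^ (P i).natDegree := by exact_mod_cast hs2
  have hnZ : (n : ℝ) ≤ Z := by exact_mod_cast hn2.trans hZZ'
  have h8 : (n : ℝ) ^ (P i).natDegree ≤ (Z : ℝ) ^ (P i).natDegree :=
    pow_le_pow_left₀ (Nat.cast_nonneg n) hnZ _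
  have h9 : C * (n : ℝ) ^ (P i).natDegree ≤ ⌈C⌉₊ * (Z : ℝ) ^ (P i).natDegree :=
    mul_le_mul (Nat.le_ceil C) h8 (by positivity) (Nat.cast_nonneg _)
  push_cast
  constructor
  · linarith
  · rw [add_mul]
    linarith

end Pool.Agent.HLA
end
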