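import Pool.Agent.Lib.H59M.M2.M057
import Pool.Agent.Lib.H59M.M2.M082
import Pool.Agent.Lib.H59M.M2.M087
import Pool.Agent.Lib.H59M.M2.M088
import Pool.Agent.Lib.H59M.M2.M090
import Pool.Agent.Lib.H59M.M2.M094
import Pool.Agent.Lib.H59M.M2.M098
import Pool.Agent.Lib.H59M.M2.M099
import Pool.Agent.Lib.H59M.M2.M100
import Pool.Agent.Lib.H59M.M2.M102

/-! Merged copies (to shorten the build) of Lib.H24P.Z1S, Lib.H24P.Z2A, Lib.H24P.Z2, Lib.HUP.R5, Lib.HUP.R6, Lib.H9P.U10, Lib.HUK.D0, Lib.HUK.V1. -/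

-- from Lib.H24P.Z1S
section

/-!
# Project H24P, chunk Z1S (M/L): tuples of characters with small modulus
-/

open Finset Polynomial

namespace Pool.Agent.Lib.H24P

open Pool.Agent.Lib.H68T Pool.Agent.Lib.H18Q Pool.Agent.Lib.H59P

theorem z1s_mem_SF {D R d : ℕ} : d ∈ SF D R ↔ (1 ≤ d ∧ d ≤ D) ∧ Squarefree d ∧ Nat.Coprime d R := by
  unfold SF
  rw [mem_filter, mem_Icc]

theorem z1s_PC {Q : ℕ} (hQ : 1 ≤ Q) {p : Ch} (hp : p ∈ PC Q) : p ∈ PC (Q ^ 100) := by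
  rw [mem_PC] at hp ⊢
  refine ⟨hp.1, hp.2.1.trans ?_, hp.2.2⟩
  calc Q = Q ^ 1 := (pow_one Q).symm
    _ ≤ Q ^ 100 := Nat.pow_le_pow_right hQ (by norm_num)

/-- one modulus `d` -/
theorem z1s_one {k : ℕ} (Q A : ℕ) (hQ : 1 ≤ Q) (hbd : (2 * (1 + Real.log Q)) ^ (2 * k) ≤ (Q : ℝ))
    (B : ℤ[X]) (hB : Lin A B) (P : Fin k → ℤ[X]) (R D : ℕ) (hR : 1 ≤ R)
    (ha : B.leadingCoeff.natAbs ∣ R) (hDQ : D * D ≤ Q) (p : Fin (k + 1) → Ch) (hp : ∀ i, p i ∈ PC Q)
    (hd : ∀ i, (p i).1 ∣ R) (a H : ℕ) (h : Fin k → ℕ) (d : ℕ) (hdS : d ∈ SF (D / R) R) :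
    ‖∑ n ∈ Ico a (a + H), Fc (Q ^ 100) (p 0) (B.eval (n : ℤ)) *
        (Phf (fun i : Fin k => p i.succ) R.primeFactors (at' (ran P h) n) *
          ((Wdf d (at' (ran P h) n) : ℝ) : ℂ)) -
      H * (MRf p R (sys B P h) * ((tdf d (sys B P h) : ℝ) : ℂ))‖ ≤ 4 * (Q : ℝ) ^ 401 := by
  obtain ⟨⟨hd1, hd2⟩, hsq, hcop⟩ := z1s_mem_SF.1 hdS
  have hQ1 : (1 : ℝ) ≤ Q := by exact_mod_cast hQ
  have hRd : R * d ≤ D := by
    have := (Nat.le_div_iff_mul_le (by omega)).1 hd2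
    rw [mul_comm]
    exact this
  have hRd0 : 0 < R * d := Nat.mul_pos (by omega) (by omega)
  have hD1 : 1 ≤ D := by omega
  have hDQ1 : D ≤ Q := (Nat.le_mul_of_pos_left D (by omega)).trans hDQ
  have hRQ : R ≤ Q := (Nat.le_mul_of_pos_right R (by omega)).trans (hRd.trans hDQ1)
  have hdQ : d ≤ Q := (Nat.le_mul_of_pos_left d (by omega)).trans (hRd.trans hDQ1)
  have hNQ : (R * d) * (R * d) ≤ Q ^ 100 := by
    calc (R * d) * (R * d) ≤ D * D := Nat.mul_le_mul hRd hRd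
      _ ≤ Q := hDQ
      _ = Q ^ 1 := (pow_one Q).symm
      _ ≤ Q ^ 100 := Nat.pow_le_pow_right hQ (by norm_num)
  obtain ⟨ψ, hψ⟩ : ∃ ψ : ℤ → ℂ, ψ = fun n => Phf (fun i : Fin k => p i.succ) R.primeFactors (at' (ran P h) n) *
      ((Wdf d (at' (ran P h) n) : ℝ) : ℂ) := ⟨_, rfl⟩
  have hper : ∀ n, ψ (n + (R * d : ℕ)) = ψ n := by
    intro n
    rw [hψ]
    beta_reduce
    rw [P2_Ph (ran P h) (P2_ran P h) (fun i : Fin k => p i.succ) R (R * d) (dvd_mul_right _ _)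
      (fun i => hd i.succ) n, P2_Wd (ran P h) (P2_ran P h) d (R * d) (dvd_mul_left _ _) n]
  have hlog : ∀ x : ℕ, 1 ≤ x → x ≤ Q → (x : ℝ) / (Nat.totient x : ℝ) ≤ 2 * (1 + Real.log Q) := by
    intro x hx hxQ
    refine (M3b x hx).trans ?_
    have hx0 : (0 : ℝ) < x := by exact_mod_cast (by omega : 0 < x)
    have : Real.log x ≤ Real.log Q := Real.log_le_log hx0 (by exact_mod_cast hxQ)
    linarith
  have hbd' : ∀ n, ‖ψ n‖ ≤ (Q : ℝ) := by
    intro n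
    rw [hψ]
    beta_reduce
    rw [norm_mul, Complex.norm_real, Real.norm_eq_abs]
    have h1 := P0_PhR (fun i : Fin k => p i.succ) R (by omega) (at' (ran P h) n)
    have h2 := P0_W d hsq (at' (ran P h) n)
    have h3 : ((R : ℝ) / (Nat.totient R : ℝ)) ^ k ≤ (2 * (1 + Real.log Q)) ^ k :=
      pow_le_pow_left₀ (by positivity) (hlog R (by omega) hRQ) k
    have h4 : ((d : ℝ) / (Nat.totient d : ℝ)) ^ k ≤ (2 * (1 + Real.log Q)) ^ k :=
      pow_le_pow_left₀ (by positivity) (hlog d hd1 hdQ) k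
    have hl : 0 ≤ Real.log Q := Real.log_nonneg hQ1
    calc _ ≤ (2 * (1 + Real.log Q)) ^ k * (2 * (1 + Real.log Q)) ^ k :=
          mul_le_mul (h1.trans h3) (h2.trans h4) (abs_nonneg _) (by positivity)
      _ = (2 * (1 + Real.log Q)) ^ (2 * k) := by
          rw [← pow_add]
          congr 1
          ring
      _ ≤ Q := hbd
  have h1 := B4_small (Q ^ 100) (R * d) (p 0) (z1s_PC hQ (hp 0)) ((hd 0).trans (dvd_mul_right _ _))
    B hB.deg (ha.trans (dvd_mul_right _ _)) hRd0 hNQ ψ hper Q hbd' a H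
  have h2 := B2_fac B hB.deg P h p R d (by omega) ha hd hsq hcop
  rw [hψ] at h1
  beta_reduce at h1
  rw [h2] at h1
  refine h1.trans (le_of_eq ?_)
  push_cast
  ring

/-- The part with `lcm(R, κ) ≤ D`, for each `h`. Proof. `P1_M2` for the random coordinates (`p i.succ`, `D ≤ Q`), so the
inner sum is `Phf p' R.primeFactors m ∑_{d ∈ SF (D/R) R} Wdf d m`, `m = at' (ran P h) n`. For each `d` the function
`ψ(n) = Phf … Wdf d …` has period `N = R d ≤ D` (`P2_ran`, `P2_Ph`, `P2_Wd`), `‖ψ‖ ≤ (2(1+log Q))^(2k) ≤ Q` (`P0_PhR`,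
`P0_W`, `M3b` of `H59P`). `B4_small` at the level `Q^100` for `p 0 ∈ PC Q ⊆ PC (Q^100)` and `N` (`N² ≤ D² ≤ Q`;
`(p 0).1 ∣ R ∣ N`), and `B2_fac`: error `4 Q^400 Q` for each of the at most `D ≤ Q` values of `d`. -/
theorem Z1S_main (k A : ℕ) : ∃ Q0 : ℕ, ∀ Q : ℕ, Q0 ≤ Q → ∀ B : ℤ[X], Lin A B → ∀ P : Fin k → ℤ[X],
    ∀ R D : ℕ, 1 ≤ R → B.leadingCoeff.natAbs ∣ R → D * D ≤ Q → ∀ p : Fin (k + 1) → Ch,
    (∀ i, p i ∈ PC Q) → (∀ i, (p i).1 ∣ R) → ∀ (a H : ℕ) (h : Fin k → ℕ),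
    ‖∑ n ∈ Ico a (a + H), Fc (Q ^ 100) (p 0) (B.eval (n : ℤ)) *
        ∑ κ ∈ (Fintype.piFinset fun i : Fin k => KS Q (p i.succ).1).filter
          (fun κ => R.lcm (univ.lcm κ) ≤ D), ∏ i, gk (p i.succ) (κ i) ((P i).eval (n : ℤ) + h i) -
      H * (MRf p R (sys B P h) * ((∑ d ∈ SF (D / R) R, tdf d (sys B P h) : ℝ) : ℂ))‖ ≤
      (Q : ℝ) ^ 410 := by
  obtain ⟨Q1, hQ1, hlog⟩ := G1_rlog (2 ^ (2 * k)) ((2 * k : ℕ) : ℝ) 1 one_pos
  refine ⟨max 2 Q1, ?_⟩
  intro Q hQ B hB P R D hR ha hDQ p hp hd a H h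
  have hQ2 : 2 ≤ Q := (le_max_left _ _).trans hQ
  have hbd : (2 * (1 + Real.log Q)) ^ (2 * k) ≤ (Q : ℝ) := by
    have h1 := hlog Q ((le_max_right _ _).trans hQ)
    rw [Real.rpow_natCast, Real.rpow_one, ← mul_pow] at h1
    exact h1
  have hDQ1 : D ≤ Q := by
    rcases Nat.eq_zero_or_pos D with h0 | h0
    · omega
    · exact (Nat.le_mul_of_pos_left D h0).trans hDQ
  have hin : ∀ n : ℤ, ∑ κ ∈ (Fintype.piFinset fun i : Fin k => KS Q (p i.succ).1).filter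
          (fun κ => R.lcm (univ.lcm κ) ≤ D), ∏ i, gk (p i.succ) (κ i) ((P i).eval (n : ℤ) + h i) =
      Phf (fun i : Fin k => p i.succ) R.primeFactors (at' (ran P h) n) *
        ∑ d ∈ SF (D / R) R, ((Wdf d (at' (ran P h) n) : ℝ) : ℂ) := fun n =>
    P1_M2 Q D R hDQ1 (by omega) (fun i : Fin k => p i.succ) (fun i => hp i.succ)
      (fun i => hd i.succ) (at' (ran P h) n)
  have e1 : ∑ n ∈ Ico a (a + H), Fc (Q ^ 100) (p 0) (B.eval (n : ℤ)) *
        ∑ κ ∈ (Fintype.piFinset fun i : Fin k => KS Q (p i.succ).1).filter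
          (fun κ => R.lcm (univ.lcm κ) ≤ D), ∏ i, gk (p i.succ) (κ i) ((P i).eval (n : ℤ) + h i) -
      H * (MRf p R (sys B P h) * ((∑ d ∈ SF (D / R) R, tdf d (sys B P h) : ℝ) : ℂ)) =
      ∑ d ∈ SF (D / R) R, (∑ n ∈ Ico a (a + H), Fc (Q ^ 100) (p 0) (B.eval (n : ℤ)) *
        (Phf (fun i : Fin k => p i.succ) R.primeFactors (at' (ran P h) n) *
          ((Wdf d (at' (ran P h) n) : ℝ) : ℂ)) -
      H * (MRf p R (sys B P h) * ((tdf d (sys B P h) : ℝ) : ℂ))) := by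
    rw [Finset.sum_sub_distrib, Finset.sum_comm]
    congr 1
    · refine Finset.sum_congr rfl fun n _ => ?_
      rw [hin, Finset.mul_sum, Finset.mul_sum]
    · rw [← Finset.mul_sum, ← Finset.mul_sum, Complex.ofReal_sum]
  rw [e1]
  have hcard : ((SF (D / R) R).card : ℝ) ≤ Q := by
    have h1 : SF (D / R) R ⊆ Icc 1 Q := by
      intro d hd'
      obtain ⟨⟨a1, a2⟩, -⟩ := z1s_mem_SF.1 hd'
      rw [Finset.mem_Icc]
      exact ⟨a1, (a2.trans (Nat.div_le_self _ _)).trans hDQ1⟩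
    have h2 := Finset.card_le_card h1
    rw [Nat.card_Icc, Nat.add_sub_cancel] at h2
    exact_mod_cast h2
  have hQr : (2 : ℝ) ≤ Q := by exact_mod_cast hQ2
  calc _ ≤ ∑ _d ∈ SF (D / R) R, 4 * (Q : ℝ) ^ 401 :=
        norm_sum_le_of_le _ fun d hd' => z1s_one Q A (by omega) hbd B hB P R D hR ha hDQ p hp hd a H h d hd'
    _ = (SF (D / R) R).card * (4 * (Q : ℝ) ^ 401) := by rw [Finset.sum_const, nsmul_eq_mul]
    _ ≤ Q * (4 * (Q : ℝ) ^ 401) := mul_le_mul_of_nonneg_right hcard (by positivity)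
    _ ≤ Q * (Q ^ 2 * (Q : ℝ) ^ 401) := by
        have : (4 : ℝ) ≤ Q ^ 2 := by nlinarith
        gcongr
    _ = (Q : ℝ) ^ 404 := by ring
    _ ≤ (Q : ℝ) ^ 410 := pow_le_pow_right₀ (by linarith) (by norm_num)

theorem z1s_sq (x y : ℂ) : ‖x + y‖ ^ 2 ≤ 2 * ‖x‖ ^ 2 + 2 * ‖y‖ ^ 2 := by
  have h1 : ‖x + y‖ ≤ ‖x‖ + ‖y‖ := norm_add_le x y
  have h2 : 0 ≤ ‖x + y‖ := norm_nonneg _
  nlinarith [sq_nonneg (‖x‖ - ‖y‖)]



end Pool.Agent.Lib.H24P
end

-- from Lib.H24P.Z2A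
section

/-!
# Project H24P, chunk Z2A (M): one cell, truncated main term (compare H59P/Z2B)
-/

open Finset Polynomial

namespace Pool.Agent.Lib.H24P

open Pool.Agent.Lib.H68T Pool.Agent.Lib.H18Q Pool.Agent.Lib.H59P

theorem z2a_SG (Q : ℕ) (c : Ch → ℂ) (m : ℤ) : SG Q c m = ∑ p ∈ PC Q, c p * Fc Q p m := by
  unfold SG Fc
  refine Finset.sum_congr rfl fun p hp => ?_
  rw [gam_expand Q p hp, mul_comm]

/-- the index set of the tuples of characters -/
noncomputable def z2a_I (k Q : ℕ) : Finset (Fin (k + 1) → Ch) :=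
  Fintype.piFinset (Fin.cons (PC (Q ^ 100)) (fun _ : Fin k => PC Q) : Fin (k + 1) → Finset Ch)

theorem z2a_mem {k Q : ℕ} {p : Fin (k + 1) → Ch} :
    p ∈ z2a_I k Q ↔ p 0 ∈ PC (Q ^ 100) ∧ ∀ i : Fin k, p i.succ ∈ PC Q := by
  unfold z2a_I
  rw [Fintype.mem_piFinset, Fin.forall_fin_succ]
  simp only [Fin.cons_zero, Fin.cons_succ]

/-- Proof. `SG Q c m = ∑_{p ∈ PC Q} c p Fc Q p m` (definitions, `gam_expand`), `Finset.prod_univ_sum`,
`Fin.consEquiv`/`Fin.prod_univ_succ`: index set `Fintype.piFinset (Fin.cons (PC (Q^100)) fun _ => PC Q)`. -/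
theorem Z2A_expand {k : ℕ} (Q : ℕ) (c0 : Ch → ℂ) (c' : Fin k → Ch → ℂ) (m0 : ℤ) (m : Fin k → ℤ) :
    SG (Q ^ 100) c0 m0 * ∏ i, SG Q (c' i) (m i) =
      ∑ p ∈ Fintype.piFinset (Fin.cons (PC (Q ^ 100)) (fun _ : Fin k => PC Q) :
          Fin (k + 1) → Finset Ch),
        (∏ i, (Fin.cons c0 c' : Fin (k + 1) → Ch → ℂ) i (p i)) *
          (Fc (Q ^ 100) (p 0) m0 * ∏ i : Fin k, Fc Q (p i.succ) (m i)) := by
  classical
  have key := Finset.prod_univ_sum (Fin.cons (PC (Q ^ 100)) (fun _ : Fin k => PC Q) :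
    Fin (k + 1) → Finset Ch)
    (fun (i : Fin (k + 1)) (q : Ch) => (Fin.cons c0 c' : Fin (k + 1) → Ch → ℂ) i q *
      (Fin.cons (fun q => Fc (Q ^ 100) q m0) (fun i q => Fc Q q (m i)) :
        Fin (k + 1) → Ch → ℂ) i q)
  rw [Fin.prod_univ_succ] at key
  simp only [Fin.cons_zero, Fin.cons_succ] at key
  have e1 : SG (Q ^ 100) c0 m0 = ∑ q ∈ PC (Q ^ 100), c0 q * Fc (Q ^ 100) q m0 := z2a_SG _ _ _
  have e2 : ∏ i, SG Q (c' i) (m i) = ∏ i, ∑ q ∈ PC Q, c' i q * Fc Q q (m i) :=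
    Finset.prod_congr rfl fun i _ => z2a_SG _ _ _
  rw [e1, e2, key]
  refine Finset.sum_congr rfl fun p _ => ?_
  rw [Finset.prod_mul_distrib]
  congr 1
  rw [Fin.prod_univ_succ]
  simp only [Fin.cons_zero, Fin.cons_succ]

theorem z2a_gam {k : ℕ} (Q : ℕ) (c0 : Ch → ℂ) (h0 : ∑ p ∈ PC (Q ^ 100), ‖c0 p‖ ≤ 3)
    (c' : Fin k → Ch → ℂ) (hc' : ∀ i, ∑ p ∈ PC Q, ‖c' i p‖ ≤ 3) :
    ∑ p ∈ z2a_I k Q, ‖∏ i, (Fin.cons c0 c' : Fin (k + 1) → Ch → ℂ) i (p i)‖ ≤ 3 ^ (k + 1) := by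
  classical
  have key := Finset.prod_univ_sum (Fin.cons (PC (Q ^ 100)) (fun _ : Fin k => PC Q) :
    Fin (k + 1) → Finset Ch)
    (fun (i : Fin (k + 1)) (q : Ch) => ‖(Fin.cons c0 c' : Fin (k + 1) → Ch → ℂ) i q‖)
  have e1 : ∑ p ∈ z2a_I k Q, ‖∏ i, (Fin.cons c0 c' : Fin (k + 1) → Ch → ℂ) i (p i)‖ =
      ∏ i, ∑ q ∈ (Fin.cons (PC (Q ^ 100)) (fun _ : Fin k => PC Q) : Fin (k + 1) → Finset Ch) i,
        ‖(Fin.cons c0 c' : Fin (k + 1) → Ch → ℂ) i q‖ := by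
    rw [key]
    refine Finset.sum_congr rfl fun p _ => ?_
    rw [norm_prod]
  rw [e1]
  have e2 : ∏ i, ∑ q ∈ (Fin.cons (PC (Q ^ 100)) (fun _ : Fin k => PC Q) :
      Fin (k + 1) → Finset Ch) i, ‖(Fin.cons c0 c' : Fin (k + 1) → Ch → ℂ) i q‖ ≤
      ∏ _i : Fin (k + 1), (3 : ℝ) := by
    refine Finset.prod_le_prod (fun i _ => Finset.sum_nonneg fun p _ => norm_nonneg _) (fun i _ => ?_)
    refine Fin.cases ?_ (fun j => ?_) i
    · simp only [Fin.cons_zero]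
      exact h0
    · simp only [Fin.cons_succ]
      exact hc' j
  refine e2.trans (le_of_eq ?_)
  rw [Finset.prod_const, Finset.card_univ, Fintype.card_fin]

/-- the function of a tuple of characters -/
noncomputable def z2a_f {k : ℕ} (Q m0 : ℕ) (B : ℤ[X]) (P : Fin k → ℤ[X]) (a H : ℕ)
    (p : Fin (k + 1) → Ch) (h : Fin k → ℕ) : ℂ :=
  ∑ n ∈ Ico a (a + H), Fc (Q ^ 100) (p 0) (B.eval (n : ℤ)) *
    ∏ i : Fin k, Fc Q (p i.succ) ((P i).eval (n : ℤ) + h i)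

/-- the main term of a tuple of characters -/
noncomputable def z2a_g {k : ℕ} (Q m0 : ℕ) (B : ℤ[X]) (P : Fin k → ℤ[X]) (H : ℕ)
    (p : Fin (k + 1) → Ch) (h : Fin k → ℕ) : ℂ :=
  H * (MRf p (Rf m0 p) (sys B P h) *
    ((∑ d ∈ SF (fl Q (1 / 2) / Rf m0 p) (Rf m0 p), tdf d (sys B P h) : ℝ) : ℂ))

theorem z2a_sub {k Q D m0 : ℕ} (hQ : 1 ≤ Q) : TSf (k + 1) Q D m0 ⊆ z2a_I k Q := by
  intro p hp
  unfold TSf at hp
  have h1 := (Finset.mem_filter.1 hp).1
  rw [Fintype.mem_piFinset] at h1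
  exact z2a_mem.2 ⟨z1s_PC hQ (h1 0), fun i => h1 i.succ⟩

theorem z2a_dec {k : ℕ} (Q m0 : ℕ) (hQ : 1 ≤ Q) (B : ℤ[X]) (P : Fin k → ℤ[X]) (a H : ℕ)
    (c0 : Ch → ℂ) (c' : Fin k → Ch → ℂ) (h : Fin k → ℕ) (f : (Fin (k + 1) → Ch) → ℂ)
    (hf1 : ∀ p ∈ TSf (k + 1) Q (fl Q (1 / 16)) m0, f p =
      z2a_f Q m0 B P a H p h - z2a_g Q m0 B P H p h)
    (hf2 : ∀ p, p ∉ TSf (k + 1) Q (fl Q (1 / 16)) m0 → f p = z2a_f Q m0 B P a H p h) :
    ∑ n ∈ Ico a (a + H), SG (Q ^ 100) c0 (B.eval (n : ℤ)) *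
        ∏ i, SG Q (c' i) ((P i).eval (n : ℤ) + h i) -
      H * MCf Q m0 (Fin.cons c0 c' : Fin (k + 1) → Ch → ℂ) (sys B P h) =
      ∑ p ∈ z2a_I k Q, (∏ i, (Fin.cons c0 c' : Fin (k + 1) → Ch → ℂ) i (p i)) * f p := by
  classical
  have h1 : ∑ n ∈ Ico a (a + H), SG (Q ^ 100) c0 (B.eval (n : ℤ)) *
        ∏ i, SG Q (c' i) ((P i).eval (n : ℤ) + h i) =
      ∑ p ∈ z2a_I k Q, (∏ i, (Fin.cons c0 c' : Fin (k + 1) → Ch → ℂ) i (p i)) *
        z2a_f Q m0 B P a H p h := by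
    have e1 : ∀ n ∈ Ico a (a + H), SG (Q ^ 100) c0 (B.eval (n : ℤ)) *
        ∏ i, SG Q (c' i) ((P i).eval (n : ℤ) + h i) =
        ∑ p ∈ z2a_I k Q, (∏ i, (Fin.cons c0 c' : Fin (k + 1) → Ch → ℂ) i (p i)) *
          (Fc (Q ^ 100) (p 0) (B.eval (n : ℤ)) *
            ∏ i : Fin k, Fc Q (p i.succ) ((P i).eval (n : ℤ) + h i)) :=
      fun n _ => Z2A_expand Q c0 c' _ (fun i => (P i).eval (n : ℤ) + h i)
    rw [Finset.sum_congr rfl e1, Finset.sum_comm]
    refine Finset.sum_congr rfl fun p _ => ?_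
    unfold z2a_f
    rw [Finset.mul_sum]
  have h2 : (H : ℂ) * MCf Q m0 (Fin.cons c0 c' : Fin (k + 1) → Ch → ℂ) (sys B P h) =
      ∑ p ∈ z2a_I k Q, (if p ∈ TSf (k + 1) Q (fl Q (1 / 16)) m0 then
        (∏ i, (Fin.cons c0 c' : Fin (k + 1) → Ch → ℂ) i (p i)) * z2a_g Q m0 B P H p h else 0) := by
    rw [← Finset.sum_filter, Finset.filter_mem_eq_inter, Finset.inter_eq_right.mpr (z2a_sub hQ)]
    unfold MCf z2a_g
    rw [Finset.mul_sum]
    refine Finset.sum_congr rfl fun p _ => ?_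
    ring
  rw [h1, h2, ← Finset.sum_sub_distrib]
  refine Finset.sum_congr rfl fun p _ => ?_
  by_cases hp : p ∈ TSf (k + 1) Q (fl Q (1 / 16)) m0
  · rw [if_pos hp, hf1 p hp]
    ring
  · rw [if_neg hp, hf2 p hp, sub_zero]


end Pool.Agent.Lib.H24P
end

-- from Lib.H24P.Z2
section

/-!
# Project H24P, chunk Z2 (M): all cells (compare H59P/Z2)
-/

open Finset Polynomial

namespace Pool.Agent.Lib.H24P

open Pool.Agent.Lib.H68T Pool.Agent.Lib.H18Q Pool.Agent.Lib.H59P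


theorem z2f_PC {Q : ℕ} (hQ : 1 ≤ Q) : PC Q ⊆ PC (Q ^ 100) := by
  intro p hp
  obtain ⟨h1, h2, h3⟩ := mem_PC.1 hp
  exact mem_PC.2 ⟨h1, h2.trans (Nat.le_self_pow (by norm_num) Q), h3⟩


end Pool.Agent.Lib.H24P
end

-- from Lib.HUP.R5
section

/-!
# Project HUP, module R (the modules of H24P for an abstract family), R5: mean squares of parts of the singular series
-/

open Finset Polynomial

namespace Pool.Agent.HUP

open Pool.Agent.Lib.H68T Pool.Agent.Lib.H18Q Pool.Agent.Lib.H59P Pool.Agent.Lib.H24P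

/-- **R5** (port of `T3_main`, H24P/T3.lean). Proof. As there with `N = (∏ S) (Q^2)^(E+1)` (so `j = (Q^2)^(E+1)` in `T2_iden`) and
`FGood` at the level `Q^2`. -/
theorem R5_main (k A E : ℕ) (hA : 1 ≤ A) (Cc cc : ℝ) (hC : FPar Cc cc) : ∃ C c : ℝ, 1 ≤ C ∧ 0 < c ∧ c ≤ 1 ∧
    ∀ B : ℤ[X], Lin A B → ∀ P : Fin k → ℤ[X], Pol A P → ∀ Q : ℕ, 2 ≤ Q → ∀ (Δ : Finset ℕ) (D : ℕ), 1 ≤ D →
    (∀ d ∈ Δ, Squarefree d ∧ D < d ∧ d ≤ Q ^ 2 ∧
      ∀ l ∈ d.primeFactors, l ≤ Q ∧ ¬ l ∣ B.leadingCoeff.natAbs) →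
    ∀ (ι : Type) (S : Finset ι) (g : ι → Fin k → ℕ), FGood E Cc cc (Q ^ 2) P S g →
    ∑ x ∈ S, (∑ d ∈ Δ, tdf d (sys B P (g x))) ^ 2 ≤
      C * (1 + Real.log Q) ^ C * S.card * (D : ℝ) ^ (-c) := by
  classical
  obtain ⟨hCc, hcc0, hcc1⟩ := hC
  have hcst : 0 < 500 * Cc * 2 ^ Cc := by positivity
  refine ⟨500 * Cc * 2 ^ Cc + Cc + 1, cc, by linarith, hcc0, hcc1, ?_⟩
  intro B hB P hP Q hQ Δ D hD hΔ ι Sx g hg
  have hQr : (2 : ℝ) ≤ Q := by exact_mod_cast hQ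
  have hlQ : 0 ≤ Real.log Q := Real.log_natCast_nonneg Q
  set S : Finset ℕ := (pr Q).filter (fun l => ¬ l ∣ B.leadingCoeff.natAbs) with hSdef
  have hS : ∀ l ∈ S, l.Prime ∧ l ≤ Q ∧ ¬ l ∣ B.leadingCoeff.natAbs := by
    intro l hl
    rw [hSdef, mem_filter] at hl
    unfold pr at hl
    rw [mem_filter, mem_Icc] at hl
    exact ⟨hl.1.2, hl.1.1.2, hl.2⟩
  have hΔ' : ∀ d ∈ Δ, Squarefree d ∧ d ≤ Q ^ 2 ∧ d.primeFactors ⊆ S := by
    intro d hd
    obtain ⟨h1, h2, h3, h4⟩ := hΔ d hd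
    refine ⟨h1, h3, fun l hl => ?_⟩
    rw [hSdef, mem_filter]
    unfold pr
    rw [mem_filter, mem_Icc]
    have h5 := (Nat.mem_primeFactors.mp hl).1
    exact ⟨⟨⟨h5.one_lt.le, (h4 l hl).1⟩, h5⟩, (h4 l hl).2⟩
  have hpS : 0 < ∏ l ∈ S, l := prod_pos fun l hl => (hS l hl).1.pos
  have hQ2 : 1 ≤ Q ^ 2 := Nat.one_le_pow _ _ (by omega)
  have hj1 : 1 ≤ (Q ^ 2) ^ (E + 1) := Nat.one_le_pow _ _ (by positivity)
  set N : ℕ := (∏ l ∈ S, l) * (Q ^ 2) ^ (E + 1) with hN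
  have hN0 : 0 < N := Nat.mul_pos hpS hj1
  have hNQ : (Q ^ 2) ^ E ≤ N := (Nat.pow_le_pow_right hQ2 (Nat.le_succ E)).trans
    (Nat.le_mul_of_pos_left _ hpS)
  have hNr : (0 : ℝ) < N := by exact_mod_cast hN0
  set T : Finset (Fin k → ℕ) := (Fintype.piFinset fun _ : Fin k => KS (Q ^ 2) 1).filter
    (fun κ => univ.lcm κ ∈ Δ) with hT
  have hiden := fun h : Fin k → ℕ => T2_iden B hB.deg P h S (fun l hl => ⟨(hS l hl).1, (hS l hl).2.2⟩)
    (Q ^ 2) ((Q ^ 2) ^ (E + 1)) hj1 Δ hΔ'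
  have hFg := hg (Q ^ 2) hQ2 le_rfl (fun _ => p0) (fun _ => p0_mem hQ2) T (filter_subset _ _) D hD
    (by
      intro κ hκ
      have h1 := (mem_filter.mp hκ).2
      have h2 : (fun i => (p0).1 * κ i) = κ := by
        funext i
        exact one_mul _
      rw [h2]
      exact (hΔ _ h1).2.1)
    0 N hNQ (fun n => ((uu S (B.eval (n : ℤ)) : ℝ) : ℂ))
  have hsq := t3_sq B hB.deg Q hQ ((Q ^ 2) ^ (E + 1)) S hS
  have hL : ∀ x ∈ Sx, ‖∑ n ∈ Ico 0 (0 + N), ((uu S (B.eval (n : ℤ)) : ℝ) : ℂ) *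
      ∑ κ ∈ T, ∏ i, gk p0 (κ i) ((P i).eval (n : ℤ) + g x i)‖ ^ 2 =
      (N : ℝ) ^ 2 * (∑ d ∈ Δ, tdf d (sys B P (g x))) ^ 2 := by
    intro x _
    rw [hiden (g x), norm_mul, Complex.norm_natCast, Complex.norm_real, mul_pow, Real.norm_eq_abs, sq_abs]
  have hFg' : (N : ℝ) ^ 2 * ∑ x ∈ Sx, (∑ d ∈ Δ, tdf d (sys B P (g x))) ^ 2 ≤
      Cc * (1 + Real.log ((Q ^ 2 : ℕ) : ℝ)) ^ Cc * Sx.card *
        (N * ∑ n ∈ Ico 0 (0 + N), ‖((uu S (B.eval (n : ℤ)) : ℝ) : ℂ)‖ ^ 2) * (D : ℝ) ^ (-cc) := by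
    rw [mul_sum, ← sum_congr rfl hL]
    exact hFg
  have hlog2 : Real.log ((Q ^ 2 : ℕ) : ℝ) = 2 * Real.log Q := by
    rw [Nat.cast_pow, Real.log_pow]
    norm_num
  have hE0 : (0 : ℝ) ≤ (D : ℝ) ^ (-cc) := by positivity
  have hpw : (1 + Real.log ((Q ^ 2 : ℕ) : ℝ)) ^ Cc ≤ 2 ^ Cc * (1 + Real.log Q) ^ Cc := by
    rw [hlog2, ← Real.mul_rpow (by norm_num) (by linarith)]
    exact Real.rpow_le_rpow (by linarith) (by linarith) (by linarith)
  have hb1 : (N : ℝ) ^ 2 * ∑ x ∈ Sx, (∑ d ∈ Δ, tdf d (sys B P (g x))) ^ 2 ≤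
      (N : ℝ) ^ 2 * (Cc * (2 ^ Cc * (1 + Real.log Q) ^ Cc) * Sx.card * (500 * (1 + Real.log Q)) *
        (D : ℝ) ^ (-cc)) := by
    refine hFg'.trans ?_
    have h1 : (N : ℝ) * ∑ n ∈ Ico 0 (0 + N), ‖((uu S (B.eval (n : ℤ)) : ℝ) : ℂ)‖ ^ 2 ≤
        N * (N * (500 * (1 + Real.log Q))) := by
      refine mul_le_mul_of_nonneg_left (hsq.trans ?_) hNr.le
      refine mul_le_mul_of_nonneg_left ?_ hNr.le
      linarith
    calc Cc * (1 + Real.log ((Q ^ 2 : ℕ) : ℝ)) ^ Cc * Sx.card *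
          (N * ∑ n ∈ Ico 0 (0 + N), ‖((uu S (B.eval (n : ℤ)) : ℝ) : ℂ)‖ ^ 2) * (D : ℝ) ^ (-cc)
        ≤ Cc * (2 ^ Cc * (1 + Real.log Q) ^ Cc) * Sx.card * (N * (N * (500 * (1 + Real.log Q)))) *
          (D : ℝ) ^ (-cc) := by
          gcongr
      _ = _ := by ring
  have hb2 := le_of_mul_le_mul_left hb1 (by positivity)
  refine hb2.trans ?_
  have h1L : 1 ≤ 1 + Real.log Q := by linarith
  have h3 : (1 + Real.log Q) ^ Cc * (1 + Real.log Q) ≤
      (1 + Real.log Q) ^ (500 * Cc * 2 ^ Cc + Cc + 1) := by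
    rw [← Real.rpow_add_one (by linarith)]
    exact Real.rpow_le_rpow_of_exponent_le h1L (by linarith)
  have h4 : 500 * Cc * 2 ^ Cc ≤ 500 * Cc * 2 ^ Cc + Cc + 1 := by linarith
  calc Cc * (2 ^ Cc * (1 + Real.log Q) ^ Cc) * Sx.card * (500 * (1 + Real.log Q)) * (D : ℝ) ^ (-cc)
      = (500 * Cc * 2 ^ Cc) * ((1 + Real.log Q) ^ Cc * (1 + Real.log Q)) * Sx.card * (D : ℝ) ^ (-cc) := by
        ring
    _ ≤ (500 * Cc * 2 ^ Cc + Cc + 1) * (1 + Real.log Q) ^ (500 * Cc * 2 ^ Cc + Cc + 1) * Sx.card *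
        (D : ℝ) ^ (-cc) := by
        gcongr

end Pool.Agent.HUP
end

-- from Lib.HUP.R6
section

/-!
# Project HUP, module R (the modules of H24P for an abstract family), R6: truncation of the singular series
-/

open Finset Polynomial

namespace Pool.Agent.HUP

open Pool.Agent.Lib.H68T Pool.Agent.Lib.H18Q Pool.Agent.Lib.H59P Pool.Agent.Lib.H24P

/-- **R6** (port of `T5_main`, H24P/T5.lean). Proof. As there with `R5_main`. -/
theorem R6_main (k A E : ℕ) (hA : 1 ≤ A) (Cc cc : ℝ) (hC : FPar Cc cc) : TMb k A E Cc cc := by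
  classical
  obtain ⟨E0, hE0d⟩ : ∃ E0 : ℕ, E0 = E := ⟨E, rfl⟩
  rw [← hE0d]
  clear hE0d E
  obtain ⟨C3, c3, hC3, hc3, hc31, h3⟩ := R5_main k A E0 hA Cc cc hC
  obtain ⟨C1, hC1, h1⟩ := T1_abs k A hA
  obtain ⟨Q1, hQ1, hlog⟩ := G1_rlog ((1 + C1 * 500 ^ (k + 1)) ^ 2 * C3) (2 * (k + 2) + C3) (c3 / 8)
    (by linarith)
  obtain ⟨Q2, hQ2, hsize⟩ := G1_size A
  refine ⟨c3 / 8, by linarith, max 3 (max Q1 Q2), fun Q hQ B hB P hP ι S g hG R hR1 hR hBR => ?_⟩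
  have hQ3 : 3 ≤ Q := (le_max_left _ _).trans hQ
  have hQQ1 : Q1 ≤ Q := (le_max_left _ _).trans ((le_max_right _ _).trans hQ)
  have hQQ2 : Q2 ≤ Q := (le_max_right _ _).trans ((le_max_right _ _).trans hQ)
  have hQr : (1 : ℝ) ≤ Q := by exact_mod_cast (show 1 ≤ Q by omega)
  have hQ0 : (0 : ℝ) < Q := by linarith
  have hL : 0 ≤ Real.log Q := Real.log_nonneg hQr
  obtain ⟨-, -, -, hEE, hEbig⟩ := hsize Q hQQ2 1 1 le_rfl hA (by rw [one_pow]; omega)
  have hEb := hEbig R hR1 hR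
  have hone : (1 : ℝ) ≤ (Q : ℝ) ^ (1 / 4 : ℝ) := Real.one_le_rpow hQr (by norm_num)
  have hE1 : 1 ≤ fl Q (1 / 2) / R := by exact_mod_cast hone.trans hEb
  have hEQ : fl Q (1 / 2) / R ≤ Q := by
    refine (Nat.div_le_self _ _).trans ?_
    exact G1_le (by omega) (by norm_num) (by norm_num)
  set E := fl Q (1 / 2) / R with hE
  set P' := (pr Q).filter (fun l => ¬ l ∣ R) with hP'
  have hsub : P' ⊆ pr Q := Finset.filter_subset _ _
  have hvol : (0 : ℝ) ≤ S.card := Nat.cast_nonneg _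
  have hE0 : (0 : ℝ) < E := by exact_mod_cast hE1
  have hmvs : ∀ j, j ≤ Q → ∑ x ∈ S, (∑ d ∈ mv P' j E, tdf d (sys B P (g x))) ^ 2 ≤
      C3 * (1 + Real.log Q) ^ C3 * (S.card : ℝ) * (E : ℝ) ^ (-c3) := fun j hj =>
    h3 B hB P hP Q (by omega) (mv P' j E) E hE1 (t5_mv hEQ hBR hj) ι S g hG
  have hW : 0 ≤ C3 * (1 + Real.log Q) ^ C3 * (S.card : ℝ) * (E : ℝ) ^ (-c3) := by
    have : 0 ≤ (1 + Real.log Q) ^ C3 := Real.rpow_nonneg (by linarith) _
    have : 0 ≤ (E : ℝ) ^ (-c3) := Real.rpow_nonneg hE0.le _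
    positivity
  have hkey := t5_mink S P' (fun q => C1 / q * (500 * Real.log Q) ^ (k + 1))
    (fun q _ => by positivity)
    (fun x => ∑ m ∈ mv P' Q E, tdf m (sys B P (g x)))
    (fun q x => ∑ m ∈ mv P' (q - 1) E, tdf m (sys B P (g x)))
    (fun x => ∑ d ∈ SF E R, tdf d (sys B P (g x)) - SSf P' (sys B P (g x)))
    ((1 + C1 * 500 ^ (k + 1)) * (1 + Real.log Q) ^ (k + 2)) _ hW ?_ (hmvs Q le_rfl)
    (fun q hq => hmvs (q - 1) ?_) (fun x _ => t5_point (sys B P (g x)) C1 (fun l hl => h1 B hB P hP (g x) l hl)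
      (by omega) hE1 hEQ hR1)
  · refine hkey.trans ?_
    have e1 : (E : ℝ) ^ (-c3) ≤ (Q : ℝ) ^ (-(c3 / 4)) := by
      calc (E : ℝ) ^ (-c3) ≤ ((Q : ℝ) ^ (1 / 4 : ℝ)) ^ (-c3) :=
            Real.rpow_le_rpow_of_nonpos (by linarith) hEb (by linarith)
        _ = (Q : ℝ) ^ (-(c3 / 4)) := by
            rw [← Real.rpow_mul hQ0.le]
            congr 1
            ring
    have e2 := hlog Q hQQ1
    have e3 : ((1 + C1 * 500 ^ (k + 1)) * (1 + Real.log Q) ^ (k + 2)) ^ 2 *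
        (C3 * (1 + Real.log Q) ^ C3) =
        (1 + C1 * 500 ^ (k + 1)) ^ 2 * C3 * (1 + Real.log Q) ^ (2 * (k + 2) + C3) := by
      have hp : 0 < 1 + Real.log Q := by linarith
      have e4 : (1 + Real.log Q) ^ (2 * ((k : ℝ) + 2) + C3) =
          ((1 + Real.log Q) ^ (k + 2)) ^ 2 * (1 + Real.log Q) ^ C3 := by
        rw [Real.rpow_add hp]
        congr 1
        rw [← pow_mul, ← Real.rpow_natCast]
        congr 1
        push_cast
        ring
      rw [e4]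
      ring
    calc ((1 + C1 * 500 ^ (k + 1)) * (1 + Real.log Q) ^ (k + 2)) ^ 2 *
          (C3 * (1 + Real.log Q) ^ C3 * (S.card : ℝ) * (E : ℝ) ^ (-c3))
        = (((1 + C1 * 500 ^ (k + 1)) * (1 + Real.log Q) ^ (k + 2)) ^ 2 *
          (C3 * (1 + Real.log Q) ^ C3)) * (S.card : ℝ) * (E : ℝ) ^ (-c3) := by ring
      _ ≤ (Q : ℝ) ^ (c3 / 8) * (S.card : ℝ) * (Q : ℝ) ^ (-(c3 / 4)) := by
          rw [e3]
          refine mul_le_mul (mul_le_mul_of_nonneg_right e2 hvol) e1 (Real.rpow_nonneg hE0.le _) ?_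
          exact mul_nonneg (Real.rpow_nonneg hQ0.le _) hvol
      _ = (S.card : ℝ) * ((Q : ℝ) ^ (c3 / 8) * (Q : ℝ) ^ (-(c3 / 4))) := by ring
      _ = (S.card : ℝ) * (Q : ℝ) ^ (-(c3 / 8)) := by
          rw [← Real.rpow_add hQ0]
          congr 2
          ring
  · have f1 := t5_harm Q P' hsub
    have f2 : ∑ q ∈ P', C1 / (q : ℝ) * (500 * Real.log Q) ^ (k + 1) =
        (C1 * (500 * Real.log Q) ^ (k + 1)) * ∑ q ∈ P', 1 / (q : ℝ) := by
      rw [Finset.mul_sum]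
      refine Finset.sum_congr rfl fun q _ => ?_
      ring
    rw [f2]
    have f3 : (500 * Real.log Q) ^ (k + 1) ≤ 500 ^ (k + 1) * (1 + Real.log Q) ^ (k + 1) := by
      rw [mul_pow]
      refine mul_le_mul_of_nonneg_left ?_ (by positivity)
      exact pow_le_pow_left₀ hL (by linarith) _
    have f4 : (1 : ℝ) ≤ (1 + Real.log Q) ^ (k + 2) := one_le_pow₀ (by linarith)
    have f5 : 0 ≤ C1 * (500 * Real.log Q) ^ (k + 1) := by positivity
    have f6 : C1 * (500 * Real.log Q) ^ (k + 1) * ∑ q ∈ P', 1 / (q : ℝ) ≤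
        C1 * (500 ^ (k + 1) * (1 + Real.log Q) ^ (k + 1)) * (1 + Real.log Q) := by
      refine mul_le_mul (mul_le_mul_of_nonneg_left f3 (by linarith)) f1 ?_ ?_
      · exact Finset.sum_nonneg fun q _ => by positivity
      · have : 0 ≤ 1 + Real.log Q := by linarith
        positivity
    calc 1 + C1 * (500 * Real.log Q) ^ (k + 1) * ∑ q ∈ P', 1 / (q : ℝ)
        ≤ (1 + Real.log Q) ^ (k + 2) +
          C1 * (500 ^ (k + 1) * (1 + Real.log Q) ^ (k + 1)) * (1 + Real.log Q) := add_le_add f4 f6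
      _ = (1 + C1 * 500 ^ (k + 1)) * (1 + Real.log Q) ^ (k + 2) := by ring
  · have h7 := (Finset.mem_Icc.1 (Finset.mem_filter.1 (hsub hq)).1).2
    omega

end Pool.Agent.HUP
end

-- from Lib.H9P.U10
section

/-!
# ASYP, chunk U10 (M): the singular series truncated at different places
-/

open Finset Polynomial

namespace Pool.Agent.H9P

open Pool.Agent.Lib.H68T Pool.Agent.Lib.H18Q Pool.Agent.Lib.H59P Pool.Agent.Lib.H24P
open Pool.Agent.HUP

theorem u10_mono {k : ℕ} {E : ℕ} {Cc cc : ℝ} {Qm Qm' : ℕ} (h : Qm' ≤ Qm) {P : Fin k → ℤ[X]} {ι : Type}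
    {S : Finset ι} {g : ι → Fin k → ℕ} (hF : FGood E Cc cc Qm P S g) : FGood E Cc cc Qm' P S g :=
  fun Q h1 h2 => hF Q h1 (h2.trans h)




/-- `SSf` depends only on the residues of the constant terms modulo the primes. -/
theorem U10_mod {k : ℕ} (S : Finset ℕ) (B : ℤ[X]) (P : Fin k → ℤ[X]) (h h' : Fin k → ℕ)
    (hh : ∀ l ∈ S, ∀ i, (l : ℤ) ∣ (h i : ℤ) - h' i) : SSf S (sys B P h) = SSf S (sys B P h') := by
  unfold SSf
  refine Finset.prod_congr rfl fun l hl => ?_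
  unfold tpf
  have h1 : ∀ n : ℤ, ∏ i, (1 + gl l (sys B P h i n)) = ∏ i, (1 + gl l (sys B P h' i n)) := by
    intro n
    refine Finset.prod_congr rfl fun i _ => ?_
    refine Fin.cases ?_ (fun j => ?_) i
    · rfl
    · obtain ⟨q, hq⟩ := hh l hl j
      show 1 + gl l ((P j).eval n + (h j : ℤ)) = 1 + gl l ((P j).eval n + (h' j : ℤ))
      have h2 : (P j).eval n + (h j : ℤ) = ((P j).eval n + (h' j : ℤ)) + q * l := by linarith
      rw [h2, gl_per]
  simp only [h1]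

theorem u10_pol {k : ℕ} (D : Fin k → ℕ) (a : Fin k → ℤ) (P : Fin k → ℤ[X]) (hP : HasD D a P) (hD : ∀ i, 1 ≤ D i)
    (A : ℕ) : Pol (A + ∑ i, D i + ∑ i, (a i).natAbs) P := by
  refine ⟨fun i => ?_, fun i => ?_, fun i => ?_⟩
  · rw [(hP i).1]
    exact hD i
  · rw [(hP i).1]
    have := Finset.single_le_sum (f := D) (fun _ _ => Nat.zero_le _) (mem_univ i)
    omega
  · rw [(hP i).2]
    have := Finset.single_le_sum (f := fun i => (a i).natAbs) (fun _ _ => Nat.zero_le _) (mem_univ i)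
    omega

theorem u10_lin {A A' : ℕ} (h : A ≤ A') {B : ℤ[X]} (hB : Lin A B) : Lin A' B := ⟨hB.deg, hB.lc.trans h, hB.cop⟩

theorem u10_card {d : ℕ} (e : Fin d → ℕ) (A Z : ℕ) (hA : 1 ≤ A) (hZ : 1 ≤ Z) :
    ((tb 0 fun j => A * Z ^ e j + 1).card : ℝ) ≤ (2 * A) ^ d * (Z : ℝ) ^ (∑ j, e j) := by
  rw [R18_card]
  push_cast
  calc ∏ j, ((A : ℝ) * (Z : ℝ) ^ e j + 1) ≤ ∏ j, ((2 * A) * (Z : ℝ) ^ e j) := by
        refine Finset.prod_le_prod (fun j _ => by positivity) fun j _ => ?_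
        have h1 : (1 : ℝ) ≤ A := by exact_mod_cast hA
        have h2 : (1 : ℝ) ≤ (Z : ℝ) ^ e j := one_le_pow₀ (by exact_mod_cast hZ)
        nlinarith
    _ = (2 * A) ^ d * (Z : ℝ) ^ (∑ j, e j) := by
        rw [Finset.prod_mul_distrib, Finset.prod_const, card_univ, Fintype.card_fin, Finset.prod_pow_eq_pow_sum]


end Pool.Agent.H9P
end

-- from Lib.HUK.D0
section

/-!
# Project HUK, chunk D0: sums over differences with weights

`D0_W`: for `s ≥ 2` weights which are combinations of phases do not increase the Gowers norm; `D0_fej`, `D0_V2` (Fejer weights on multiples),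
`D0_V1` (residue classes).
-/

open Finset

namespace Pool.Agent.HUK

open Pool.Agent.H44W (ee)

/-! ## Differences -/

theorem D0_DLz {G : Type*} [Add G] (l : List G) (f : G → ℂ) (y : G) (h : f y = 0) : DL l f y = 0 := by
  induction l generalizing f with
  | nil => exact h
  | cons a l ih =>
    refine ih (DD a f) ?_
    unfold DD
    rw [h, zero_mul]

theorem D0_comm {G : Type*} [AddCommGroup G] (h k : G) (f : G → ℂ) : DD h (DD k f) = DD k (DD h f) := by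
  funext y
  unfold DD
  simp only [map_mul, Complex.conj_conj]
  rw [add_right_comm y h k]
  ring

theorem D0_DLDD {G : Type*} [AddCommGroup G] (l : List G) (k : G) (f : G → ℂ) : DL l (DD k f) = DD k (DL l f) := by
  induction l generalizing f with
  | nil => rfl
  | cons a l ih =>
    show DL l (DD a (DD k f)) = DD k (DL l (DD a f))
    rw [D0_comm, ih]


theorem D0_cons {s : ℕ} (a : ℤ) (h : Fin s → ℤ) (f : ℤ → ℂ) :
    DV (Fin.cons a h : Fin (s + 1) → ℤ) f = DV h (DD a f) := by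
  unfold DV
  rw [List.ofFn_succ]
  simp only [Fin.cons_zero, Fin.cons_succ]
  rfl

theorem D0_cons' {s : ℕ} (a : ℤ) (h : Fin s → ℤ) (f : ℤ → ℂ) :
    DV (Fin.cons a h : Fin (s + 1) → ℤ) f = DD a (DV h f) := by
  rw [D0_cons]
  exact D0_DLDD _ _ _

theorem D0_SDD {X : ℕ} {f : ℤ → ℂ} (h : Spt X f) (a : ℤ) : Spt X (DD a f) := by
  intro y hy
  unfold DD
  rw [h y hy, zero_mul]

theorem D0_SDV {X : ℕ} {f : ℤ → ℂ} (h : Spt X f) {s : ℕ} (a : Fin s → ℤ) : Spt X (DV a f) :=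
  fun y hy => D0_DLz _ _ _ (h y hy)

/-- sums over a box -/
theorem D0_bx {M : Type*} [AddCommMonoid M] (s N : ℕ) (F : (Fin (s + 1) → ℤ) → M) :
    ∑ h ∈ bxS (s + 1) N, F h = ∑ a ∈ Ioo (-(N : ℤ)) N, ∑ h ∈ bxS s N, F (Fin.cons a h) := by
  rw [← Finset.sum_product']
  refine Finset.sum_bij' (fun h _ => (h 0, fun i => h i.succ)) (fun p _ => Fin.cons p.1 p.2) ?_ ?_ ?_ ?_ ?_
  · intro h hh
    unfold bxS at hh ⊢
    rw [Fintype.mem_piFinset] at hh
    rw [mem_product, Fintype.mem_piFinset]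
    exact ⟨hh 0, fun i => hh i.succ⟩
  · intro p hp
    unfold bxS at hp ⊢
    rw [mem_product, Fintype.mem_piFinset] at hp
    rw [Fintype.mem_piFinset]
    intro i
    refine Fin.cases ?_ (fun j => ?_) i
    · exact hp.1
    · simp only [Fin.cons_succ]
      exact hp.2 j
  · intro h _
    funext i
    refine Fin.cases ?_ (fun j => ?_) i
    · rfl
    · rfl
  · intro p _
    rfl
  · intro h _
    congr 1
    funext i
    refine Fin.cases ?_ (fun j => ?_) i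
    · rfl
    · rfl

/-- the autocorrelation with a phase -/
theorem d0_sq (X : ℕ) (g : ℤ → ℂ) (hg : Spt X g) (θ : ℝ) :
    ∑ a ∈ Ioo (-(2 * X : ℤ)) (2 * X), ee (θ * a) * ∑ y ∈ Ico (-(X : ℤ)) X, DD a g y =
      ((‖∑ y ∈ Ico (-(X : ℤ)) X, g y * ee (-(θ * y))‖ ^ 2 : ℝ) : ℂ) := by
  have h1 : ((‖∑ y ∈ Ico (-(X : ℤ)) X, g y * ee (-(θ * y))‖ ^ 2 : ℝ) : ℂ) =
      ∑ y ∈ Ico (-(X : ℤ)) X, ∑ u ∈ Ico (-(X : ℤ)) X, g y * (starRingEnd ℂ) (g u) * ee (θ * ((u - y : ℤ) : ℝ)) := by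
    push_cast
    rw [← Complex.mul_conj', map_sum, Finset.sum_mul]
    refine sum_congr rfl fun y _ => ?_
    rw [Finset.mul_sum]
    refine sum_congr rfl fun u _ => ?_
    rw [map_mul, ← Pool.Agent.H44W.ee_neg, neg_neg]
    have : θ * ((u : ℝ) - y) = -(θ * y) + θ * u := by ring
    rw [this, Pool.Agent.H44W.ee_add]
    ring
  rw [h1]
  simp only [Finset.mul_sum]
  rw [Finset.sum_comm]
  refine sum_congr rfl fun y hy => ?_
  have hy' := mem_Ico.1 hy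
  -- extend the sum over `u`
  have h2 : ∑ u ∈ Ico (-(X : ℤ)) X, g y * (starRingEnd ℂ) (g u) * ee (θ * ((u - y : ℤ) : ℝ)) =
      ∑ u ∈ Ioo (y - 2 * X) (y + 2 * X), g y * (starRingEnd ℂ) (g u) * ee (θ * ((u - y : ℤ) : ℝ)) := by
    refine Finset.sum_subset (fun u hu => ?_) fun u _ hu => ?_
    · rw [mem_Ico] at hu
      rw [mem_Ioo]
      omega
    · rw [hg u hu, map_zero, mul_zero, zero_mul]
  rw [h2]
  refine Finset.sum_bij' (fun a _ => y + a) (fun u _ => u - y) ?_ ?_ ?_ ?_ ?_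
  · intro a ha
    rw [mem_Ioo] at ha ⊢
    omega
  · intro u hu
    rw [mem_Ioo] at hu ⊢
    omega
  · intro a _
    ring
  · intro u _
    ring
  · intro a _
    unfold DD
    have : ((y + a - y : ℤ) : ℝ) = a := by push_cast; ring
    rw [this]
    ring

/-- The sum of all `F_f(h)` is a sum of squares. -/
theorem D0_sq {X s : ℕ} {f : ℤ → ℂ} (hf : Spt X f) : ∑ h ∈ bxS (s + 1) (2 * X), FF X h f =
    ((∑ h ∈ bxS s (2 * X), ‖∑ y ∈ Ico (-(X : ℤ)) X, DV h f y‖ ^ 2 : ℝ) : ℂ) := by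
  rw [D0_bx, Finset.sum_comm]
  rw [Complex.ofReal_sum]
  refine sum_congr rfl fun h _ => ?_
  have h1 := d0_sq X (DV h f) (D0_SDV hf h) 0
  simp only [zero_mul, neg_zero, Pool.Agent.H44W.ee_zero, one_mul, mul_one] at h1
  rw [← h1]
  push_cast
  refine sum_congr rfl fun a _ => ?_
  unfold FF
  rw [D0_cons']

theorem D0_re {X s : ℕ} {f : ℤ → ℂ} (hf : Spt X f) (hs : 1 ≤ s) :
    ∑ h ∈ bxS s (2 * X), FF X h f = ((GG X s f : ℝ) : ℂ) := by
  obtain ⟨s, rfl⟩ : ∃ s', s = s' + 1 := ⟨s - 1, by omega⟩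
  unfold GG
  rw [D0_sq hf, Complex.ofReal_re]

theorem D0_nn {X s : ℕ} {f : ℤ → ℂ} (hf : Spt X f) (hs : 1 ≤ s) : 0 ≤ GG X s f := by
  obtain ⟨s, rfl⟩ : ∃ s', s = s' + 1 := ⟨s - 1, by omega⟩
  unfold GG
  rw [D0_sq hf, Complex.ofReal_re]
  exact sum_nonneg fun _ _ => by positivity

/-- `G_(s+1)(f) = ∑_a G_s(Δ_a f)` -/
theorem D0_succ {X s : ℕ} {f : ℤ → ℂ} : GG X (s + 1) f = ∑ a ∈ Ioo (-(2 * X : ℤ)) (2 * X), GG X s (DD a f) := by
  unfold GG
  rw [D0_bx, Complex.re_sum]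
  push_cast
  refine sum_congr rfl fun a _ => ?_
  congr 1
  refine sum_congr rfl fun h _ => ?_
  unfold FF
  rw [D0_cons]

/-- **Phases do not increase the Gowers norm.** -/
theorem D0_ph {X s : ℕ} {f : ℤ → ℂ} (hf : Spt X f) (hs : 2 ≤ s) (θ : Fin s → ℝ) :
    ‖∑ h ∈ bxS s (2 * X), ee (∑ i, θ i * h i) * FF X h f‖ ≤ GG X s f := by
  obtain ⟨s, rfl⟩ : ∃ s', s = s' + 1 := ⟨s - 1, by omega⟩
  have hs1 : 1 ≤ s := by omega
  have e1 : ∀ (a : ℤ) (h : Fin s → ℤ), ee (∑ i, θ i * ((Fin.cons a h : Fin (s + 1) → ℤ) i : ℝ)) =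
      ee (θ 0 * a) * ee (∑ i, θ i.succ * h i) := by
    intro a h
    rw [← Pool.Agent.H44W.ee_add, Fin.sum_univ_succ]
    simp only [Fin.cons_zero, Fin.cons_succ]
  have e2 : ∑ h ∈ bxS (s + 1) (2 * X), ee (∑ i, θ i * h i) * FF X h f =
      ∑ h ∈ bxS s (2 * X), ee (∑ i, θ i.succ * h i) *
        ((‖∑ y ∈ Ico (-(X : ℤ)) X, DV h f y * ee (-(θ 0 * y))‖ ^ 2 : ℝ) : ℂ) := by
    rw [D0_bx, Finset.sum_comm]
    refine sum_congr rfl fun h _ => ?_
    rw [← d0_sq X (DV h f) (D0_SDV hf h) (θ 0), Finset.mul_sum]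
    push_cast
    refine sum_congr rfl fun a _ => ?_
    rw [e1]
    unfold FF
    rw [D0_cons']
    ring
  rw [e2]
  refine (norm_sum_le _ _).trans ?_
  have e3 : ∑ h ∈ bxS s (2 * X), ‖ee (∑ i, θ i.succ * h i) *
        ((‖∑ y ∈ Ico (-(X : ℤ)) X, DV h f y * ee (-(θ 0 * y))‖ ^ 2 : ℝ) : ℂ)‖ =
      ‖∑ a ∈ Ioo (-(2 * X : ℤ)) (2 * X), ee (θ 0 * a) * ((GG X s (DD a f) : ℝ) : ℂ)‖ := by
    have e4 : ∑ a ∈ Ioo (-(2 * X : ℤ)) (2 * X), ee (θ 0 * a) * ((GG X s (DD a f) : ℝ) : ℂ) =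
        ((∑ h ∈ bxS s (2 * X), ‖∑ y ∈ Ico (-(X : ℤ)) X, DV h f y * ee (-(θ 0 * y))‖ ^ 2 : ℝ) : ℂ) := by
      rw [Complex.ofReal_sum]
      have e5 : ∀ h ∈ bxS s (2 * X), ((‖∑ y ∈ Ico (-(X : ℤ)) X, DV h f y * ee (-(θ 0 * y))‖ ^ 2 : ℝ) : ℂ) =
          ∑ a ∈ Ioo (-(2 * X : ℤ)) (2 * X), ee (θ 0 * a) * FF X h (DD a f) := by
        intro h _
        rw [← d0_sq X (DV h f) (D0_SDV hf h) (θ 0)]
        refine sum_congr rfl fun a _ => ?_
        unfold FF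
        rw [← D0_cons', D0_cons]
      rw [sum_congr rfl e5, Finset.sum_comm]
      refine sum_congr rfl fun a _ => ?_
      rw [← Finset.mul_sum, D0_re (D0_SDD hf a) hs1]
    rw [e4, Complex.norm_real, Real.norm_of_nonneg (sum_nonneg fun _ _ => by positivity)]
    refine sum_congr rfl fun h _ => ?_
    rw [norm_mul, Pool.Agent.H44W.norm_ee, one_mul, Complex.norm_real, Real.norm_of_nonneg (by positivity)]
  rw [e3, D0_succ]
  refine (norm_sum_le _ _).trans (sum_le_sum fun a _ => ?_)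
  rw [norm_mul, Pool.Agent.H44W.norm_ee, one_mul, Complex.norm_real,
    Real.norm_of_nonneg (D0_nn (D0_SDD hf a) hs1)]

/-- **Weights which are combinations of phases do not increase the Gowers norm.** -/
theorem D0_W {X s : ℕ} {f : ℤ → ℂ} (hf : Spt X f) (hs : 2 ≤ s) (W : Fin s → ℤ → ℂ) (hW : ∀ i, PhW X (W i)) :
    ‖∑ h ∈ bxS s (2 * X), (∏ i, W i (h i)) * FF X h f‖ ≤ GG X s f := by
  choose n c θ hc hWc using hW
  have hG := D0_nn hf (by omega : 1 ≤ s)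
  have e1 : ∑ h ∈ bxS s (2 * X), (∏ i, W i (h i)) * FF X h f =
      ∑ ξ ∈ Fintype.piFinset (fun i => range (n i)), (∏ i, c i (ξ i)) *
        ∑ h ∈ bxS s (2 * X), ee (∑ i, θ i (ξ i) * h i) * FF X h f := by
    simp only [Finset.mul_sum]
    rw [Finset.sum_comm]
    refine sum_congr rfl fun h hh => ?_
    have h1 : ∏ i, W i (h i) = ∏ i, ∑ j ∈ range (n i), c i j * ee (θ i j * h i) := by
      refine prod_congr rfl fun i _ => hWc i (h i) ?_
      unfold bxS at hh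
      have := Fintype.mem_piFinset.1 hh i
      push_cast at this
      exact this
    rw [h1, Finset.prod_univ_sum, Finset.sum_mul]
    refine sum_congr rfl fun ξ _ => ?_
    have h2 : ∀ (t : Finset (Fin s)), ee (∑ i ∈ t, θ i (ξ i) * h i) = ∏ i ∈ t, ee (θ i (ξ i) * h i) := by
      intro t
      induction t using Finset.induction_on with
      | empty => simp [Pool.Agent.H44W.ee_zero]
      | insert a t ha ih => rw [sum_insert ha, prod_insert ha, Pool.Agent.H44W.ee_add, ih]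
    rw [h2, prod_mul_distrib]
    ring
  rw [e1]
  refine (norm_sum_le _ _).trans ?_
  have e2 : ∀ ξ ∈ Fintype.piFinset (fun i => range (n i)), ‖(∏ i, c i (ξ i)) *
        ∑ h ∈ bxS s (2 * X), ee (∑ i, θ i (ξ i) * h i) * FF X h f‖ ≤ (∏ i, ‖c i (ξ i)‖) * GG X s f := by
    intro ξ _
    rw [norm_mul, norm_prod]
    exact mul_le_mul_of_nonneg_left (D0_ph hf hs _) (prod_nonneg fun _ _ => norm_nonneg _)
  refine (sum_le_sum e2).trans ?_
  rw [← Finset.sum_mul, ← Finset.prod_univ_sum (fun i => range (n i)) (fun i j => ‖c i j‖)]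
  have e3 : ∏ i, ∑ j ∈ range (n i), ‖c i j‖ ≤ 1 :=
    prod_le_one (fun _ _ => sum_nonneg fun _ _ => norm_nonneg _) fun i _ => hc i
  calc _ ≤ 1 * GG X s f := mul_le_mul_of_nonneg_right e3 hG
    _ = _ := one_mul _



/-- residue classes of the difference -/
theorem D0_Wdvd (X Λ : ℕ) (hΛ : 0 < Λ) : PhW X (fun h => if (Λ : ℤ) ∣ h then 1 else 0) := by
  have hΛr : (0 : ℝ) < Λ := by exact_mod_cast hΛ
  refine ⟨Λ, fun _ => 1 / (Λ : ℂ), fun j => (j : ℝ) / Λ, ?_, fun h _ => ?_⟩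
  · rw [sum_const, card_range, nsmul_eq_mul, norm_div, norm_one, Complex.norm_natCast]
    exact le_of_eq (by field_simp)
  · rw [← Finset.mul_sum]
    have h1 := Pool.Agent.H44W.ee_orth Λ hΛ h
    have h2 : ∀ j ∈ range Λ, ee ((j : ℝ) / Λ * h) = ee ((j : ℝ) * h / Λ) := by
      intro j _
      congr 1
      ring
    have hΛc : (Λ : ℂ) ≠ 0 := by exact_mod_cast hΛ.ne'
    rw [sum_congr rfl h2, h1]
    show (if (Λ : ℤ) ∣ h then (1 : ℂ) else 0) = _
    by_cases hd : (Λ : ℤ) ∣ h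
    · rw [if_pos hd, if_pos hd]
      field_simp
    · rw [if_neg hd, if_neg hd, mul_zero]

/-- the number of pairs with a given difference -/
theorem d0_pairs (M : ℕ) (t : ℤ) :
    ∑ j ∈ range M, ∑ i ∈ range M, (if (i : ℤ) - j = t then (1 : ℝ) else 0) = max 0 ((M : ℝ) - |(t : ℝ)|) := by
  have h1 : ∀ j ∈ range M, ∑ i ∈ range M, (if (i : ℤ) - j = t then (1 : ℝ) else 0) =
      if 0 ≤ (j : ℤ) + t ∧ (j : ℤ) + t < M then (1 : ℝ) else 0 := by
    intro j _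
    by_cases h : 0 ≤ (j : ℤ) + t ∧ (j : ℤ) + t < M
    · rw [if_pos h, Finset.sum_eq_single_of_mem (((j : ℤ) + t).toNat) (by rw [mem_range]; omega)]
      · rw [if_pos (by omega)]
      · intro i _ hi
        rw [if_neg]
        intro h2
        apply hi
        omega
    · rw [if_neg h]
      refine sum_eq_zero fun i hi => ?_
      rw [mem_range] at hi
      rw [if_neg]
      intro h2
      apply h
      omega
  rw [sum_congr rfl h1, ← Finset.sum_filter, sum_const, nsmul_eq_mul, mul_one]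
  have h3 : ((range M).filter (fun j : ℕ => 0 ≤ (j : ℤ) + t ∧ (j : ℤ) + t < M)).card = M - t.natAbs := by
    rcases le_total 0 t with ht | ht
    · have : (range M).filter (fun j : ℕ => 0 ≤ (j : ℤ) + t ∧ (j : ℤ) + t < M) = range (M - t.natAbs) := by
        ext j
        rw [mem_filter, mem_range, mem_range]
        omega
      rw [this, card_range]
    · have : (range M).filter (fun j : ℕ => 0 ≤ (j : ℤ) + t ∧ (j : ℤ) + t < M) = Ico t.natAbs M := by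
        ext j
        rw [mem_filter, mem_range, mem_Ico]
        omega
      rw [this, Nat.card_Ico]
  rw [h3]
  have h4 : |(t : ℝ)| = (t.natAbs : ℝ) := by
    rw [← Int.cast_abs, Int.abs_eq_natAbs, Int.cast_natCast]
  rw [h4]
  rcases le_total t.natAbs M with h5 | h5
  · rw [Nat.cast_sub h5, max_eq_right]
    have : (t.natAbs : ℝ) ≤ M := by exact_mod_cast h5
    linarith
  · rw [Nat.sub_eq_zero_of_le h5, max_eq_left]
    · simp
    · have : (M : ℝ) ≤ t.natAbs := by exact_mod_cast h5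
      linarith

/-- The Fejer weight on multiples of `d`. -/
theorem D0_fej (X M : ℕ) (hM : 0 < M) (d : ℤ) (hd : d ≠ 0) :
    PhW X (fun h => if d ∣ h then ((fw M (h / d) : ℝ) : ℂ) else 0) := by
  obtain ⟨L, hL⟩ : ∃ L : ℕ, L = 4 * X + 2 * d.natAbs * M + 1 := ⟨_, rfl⟩
  have hL0 : 0 < L := by omega
  have hLr : (0 : ℝ) < L := by exact_mod_cast hL0
  have hMr : (0 : ℝ) < M := by exact_mod_cast hM
  have hLc : (L : ℂ) ≠ 0 := by exact_mod_cast hL0.ne'
  have hMc : (M : ℂ) ≠ 0 := by exact_mod_cast hM.ne'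
  -- the value of the trigonometric polynomial
  have key : ∀ h : ℤ, |h| ≤ 2 * X → ∑ ξ ∈ range L, ((1 / ((M : ℝ) * L) * ‖∑ j ∈ range M, ee ((ξ : ℝ) / L * (d * j))‖ ^ 2 : ℝ) : ℂ) *
      ee ((ξ : ℝ) / L * h) = if d ∣ h then ((fw M (h / d) : ℝ) : ℂ) else 0 := by
    intro h hh
    have h1 : ∀ ξ ∈ range L, ((1 / ((M : ℝ) * L) * ‖∑ j ∈ range M, ee ((ξ : ℝ) / L * (d * j))‖ ^ 2 : ℝ) : ℂ) *
        ee ((ξ : ℝ) / L * h) = 1 / ((M : ℂ) * L) * ∑ j ∈ range M, ∑ i ∈ range M,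
          ee ((ξ : ℝ) * ((d * j - d * i + h : ℤ) : ℝ) / L) := by
      intro ξ _
      push_cast
      rw [← Complex.mul_conj', map_sum, Finset.sum_mul, mul_assoc, Finset.sum_mul]
      congr 1
      refine sum_congr rfl fun j _ => ?_
      rw [Finset.mul_sum, Finset.sum_mul]
      refine sum_congr rfl fun i _ => ?_
      rw [← Pool.Agent.H44W.ee_neg, ← Pool.Agent.H44W.ee_add, ← Pool.Agent.H44W.ee_add]
      congr 1
      ring
    rw [sum_congr rfl h1, ← Finset.mul_sum, Finset.sum_comm]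
    have h2 : ∀ j ∈ range M, ∑ ξ ∈ range L, ∑ i ∈ range M, ee ((ξ : ℝ) * ((d * j - d * i + h : ℤ) : ℝ) / L) =
        ∑ i ∈ range M, (if (d : ℤ) * (i - j) = h then (L : ℂ) else 0) := by
      intro j hj
      rw [Finset.sum_comm]
      refine sum_congr rfl fun i hi => ?_
      rw [Pool.Agent.H44W.ee_orth L hL0]
      rw [mem_range] at hi hj
      have h3 : (L : ℤ) ∣ (d * j - d * i + h) ↔ d * ((i : ℤ) - j) = h := by
        constructor
        · intro h4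
          have h5 : |d * j - d * i + h| < L := by
            have h6 : |d * ((j : ℤ) - i)| ≤ d.natAbs * M := by
              rw [abs_mul, Int.abs_eq_natAbs d]
              refine mul_le_mul_of_nonneg_left ?_ (by positivity)
              rw [abs_le]
              constructor <;> omega
            have h7 : d * j - d * i + h = d * ((j : ℤ) - i) + h := by ring
            rw [h7]
            refine lt_of_le_of_lt (abs_add_le _ _) ?_
            have h8 : (L : ℤ) = 4 * X + 2 * (d.natAbs * M) + 1 := by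
              rw [hL]
              push_cast
              ring
            have h9 : (0 : ℤ) ≤ (d.natAbs : ℤ) * M := by positivity
            rw [h8]
            omega
          have h6 := Int.eq_zero_of_abs_lt_dvd h4 h5
          linarith
        · intro h4
          have : d * (j : ℤ) - d * i + h = 0 := by rw [← h4]; ring
          rw [this]
          exact dvd_zero _
      by_cases h4 : d * ((i : ℤ) - j) = h
      · rw [if_pos (h3.2 h4), if_pos h4]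
      · rw [if_neg (fun h5 => h4 (h3.1 h5)), if_neg h4]
    rw [sum_congr rfl h2]
    split_ifs with hdh
    · obtain ⟨t, rfl⟩ := hdh
      rw [Int.mul_ediv_cancel_left _ hd]
      have h4 : ∀ j ∈ range M, ∑ i ∈ range M, (if (d : ℤ) * (i - j) = d * t then (L : ℂ) else 0) =
          (L : ℂ) * ((∑ i ∈ range M, (if (i : ℤ) - j = t then (1 : ℝ) else 0) : ℝ) : ℂ) := by
        intro j _
        push_cast
        rw [Finset.mul_sum]
        refine sum_congr rfl fun i _ => ?_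
        have : d * ((i : ℤ) - j) = d * t ↔ (i : ℤ) - j = t := ⟨fun h => mul_left_cancel₀ hd h, fun h => by rw [h]⟩
        by_cases h5 : (i : ℤ) - j = t
        · rw [if_pos (this.2 h5), if_pos h5, Complex.ofReal_one, mul_one]
        · rw [if_neg (fun h => h5 (this.1 h)), if_neg h5, Complex.ofReal_zero, mul_zero]
      rw [sum_congr rfl h4, ← Finset.mul_sum, ← Complex.ofReal_sum, d0_pairs]
      unfold fw
      have h6 : max 0 ((M : ℝ) - |(t : ℝ)|) = M * max 0 (1 - |(t : ℝ)| / M) := by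
        rw [mul_max_of_nonneg _ _ hMr.le, mul_zero]
        congr 1
        field_simp
      rw [h6]
      push_cast
      field_simp
    · refine mul_eq_zero_of_right _ (sum_eq_zero fun j _ => sum_eq_zero fun i _ => ?_)
      rw [if_neg]
      intro h4
      exact hdh ⟨_, h4.symm⟩
  refine ⟨L, fun ξ => ((1 / ((M : ℝ) * L) * ‖∑ j ∈ range M, ee ((ξ : ℝ) / L * (d * j))‖ ^ 2 : ℝ) : ℂ),
    fun ξ => (ξ : ℝ) / L, ?_, fun h hh => ?_⟩
  · have h0 := key 0 (by rw [abs_zero]; positivity)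
    rw [if_pos (dvd_zero d)] at h0
    simp only [Int.cast_zero, mul_zero, Pool.Agent.H44W.ee_zero, mul_one, Int.zero_ediv] at h0
    rw [← Complex.ofReal_sum] at h0
    have h1 := Complex.ofReal_inj.1 h0
    have h2 : ∑ ξ ∈ range L, ‖((1 / ((M : ℝ) * L) * ‖∑ j ∈ range M, ee ((ξ : ℝ) / L * (d * j))‖ ^ 2 : ℝ) : ℂ)‖ =
        ∑ ξ ∈ range L, 1 / ((M : ℝ) * L) * ‖∑ j ∈ range M, ee ((ξ : ℝ) / L * (d * j))‖ ^ 2 := by
      refine sum_congr rfl fun ξ _ => ?_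
      rw [Complex.norm_real, Real.norm_of_nonneg (by positivity)]
    rw [h2, h1]
    unfold fw
    simp
  · rw [mem_Ioo] at hh
    rw [key h (by rw [abs_le]; constructor <;> linarith)]

theorem D0_fw0 {M : ℕ} {t : ℤ} (hM : 0 < M) (ht : (M : ℤ) ≤ |t|) : fw M t = 0 := by
  unfold fw
  have hMr : (0 : ℝ) < M := by exact_mod_cast hM
  rw [max_eq_left]
  have : (M : ℝ) ≤ |(t : ℝ)| := by
    rw [← Int.cast_abs]
    exact_mod_cast ht
  rw [sub_nonpos, one_le_div hMr]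
  exact this

/-- `F_f(h) = 0` if one difference is large -/
theorem D0_large {X s : ℕ} {f : ℤ → ℂ} (hf : Spt X f) (h : Fin s → ℤ) (i : Fin s) (hi : (2 * X : ℤ) ≤ |h i|) : FF X h f = 0 := by
  unfold FF
  refine sum_eq_zero fun y hy => ?_
  rw [mem_Ico] at hy
  have key : ∀ (l : List ℤ) (g : ℤ → ℂ) (a : ℤ), a ∈ l → Spt X g → (2 * X : ℤ) ≤ |a| → DL l g y = 0 := by
    intro l
    induction l with
    | nil =>
      intro g a ha
      exact absurd ha (List.not_mem_nil)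
    | cons b l ih =>
      intro g a ha hg h2
      rcases List.mem_cons.1 ha with h3 | h3
      · subst h3
        refine D0_DLz l (DD a g) y ?_
        unfold DD
        rw [hg (y + a), map_zero, mul_zero]
        rw [mem_Ico]
        rcases abs_cases a with ⟨h4, _⟩ | ⟨h4, _⟩ <;> omega
      · exact ih (DD b g) a h3 (D0_SDD hg b) h2
  exact key _ f (h i) (List.mem_ofFn.2 ⟨i, rfl⟩) hf hi

/-- **Fejer weights on multiples of `d`.** -/
theorem D0_V2 {X s : ℕ} {f : ℤ → ℂ} (hf : Spt X f) (hs : 2 ≤ s) (M : ℕ) (hM : 0 < M) (d : ℤ) (hd : d ≠ 0) :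
    ‖∑ t ∈ bxS s M, ((FW M t : ℝ) : ℂ) * FF X (fun i => d * t i) f‖ ≤ GG X s f := by
  classical
  have h1 := D0_W hf hs (fun _ h => if d ∣ h then ((fw M (h / d) : ℝ) : ℂ) else 0) (fun _ => D0_fej X M hM d hd)
  refine le_trans (le_of_eq (congrArg norm ?_)) h1
  -- both sums are sums over the `t` in a large box
  obtain ⟨N, hN⟩ : ∃ N : ℕ, N = M + 2 * X + 1 := ⟨_, rfl⟩
  have hfw : ∀ t : Fin s → ℤ, (∃ i, (M : ℤ) ≤ |t i|) → FW M t = 0 := by
    rintro t ⟨i, hi⟩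
    exact prod_eq_zero (mem_univ i) (D0_fw0 hM hi)
  have e1 : ∑ t ∈ bxS s M, ((FW M t : ℝ) : ℂ) * FF X (fun i => d * t i) f =
      ∑ t ∈ bxS s N, ((FW M t : ℝ) : ℂ) * FF X (fun i => d * t i) f := by
    refine Finset.sum_subset (fun t ht => ?_) fun t _ ht => ?_
    · unfold bxS at ht ⊢
      rw [Fintype.mem_piFinset] at ht ⊢
      intro i
      have := mem_Ioo.1 (ht i)
      rw [mem_Ioo]
      omega
    · unfold bxS at ht
      rw [Fintype.mem_piFinset] at ht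
      push Not at ht
      obtain ⟨i, hi⟩ := ht
      rw [hfw t ⟨i, ?_⟩]
      · simp
      · rw [mem_Ioo] at hi
        rw [le_abs]
        omega
  have e2 : ∑ h ∈ bxS s (2 * X), (∏ i, (if d ∣ h i then ((fw M (h i / d) : ℝ) : ℂ) else 0)) * FF X h f =
      ∑ t ∈ (bxS s N).filter (fun t => ∀ i, |d * t i| < 2 * X), ((FW M t : ℝ) : ℂ) * FF X (fun i => d * t i) f := by
    symm
    have e3 : ∑ h ∈ bxS s (2 * X), (∏ i, (if d ∣ h i then ((fw M (h i / d) : ℝ) : ℂ) else 0)) * FF X h f =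
        ∑ h ∈ (bxS s (2 * X)).filter (fun h => ∀ i, d ∣ h i),
          (∏ i, (if d ∣ h i then ((fw M (h i / d) : ℝ) : ℂ) else 0)) * FF X h f := by
      rw [Finset.sum_filter]
      refine sum_congr rfl fun h _ => ?_
      split_ifs with h2
      · rfl
      · push Not at h2
        obtain ⟨i, hi⟩ := h2
        rw [prod_eq_zero (mem_univ i) (if_neg hi), zero_mul]
    rw [e3]
    refine Finset.sum_bij' (fun t _ => fun i => d * t i) (fun h _ => fun i => h i / d) ?_ ?_ ?_ ?_ ?_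
    · intro t ht
      rw [mem_filter] at ht ⊢
      refine ⟨?_, fun i => dvd_mul_right _ _⟩
      unfold bxS
      rw [Fintype.mem_piFinset]
      intro i
      have := abs_lt.1 (ht.2 i)
      rw [mem_Ioo]
      push_cast
      exact this
    · intro h hh
      rw [mem_filter] at hh ⊢
      have hh1 := hh.1
      unfold bxS at hh1
      rw [Fintype.mem_piFinset] at hh1
      have h3 : ∀ i, d * (h i / d) = h i := fun i => Int.mul_ediv_cancel' (hh.2 i)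
      refine ⟨?_, fun i => ?_⟩
      · unfold bxS
        rw [Fintype.mem_piFinset]
        intro i
        have h4 := mem_Ioo.1 (hh1 i)
        push_cast at h4
        have h5 : |h i / d| ≤ |h i| := by
          rw [← h3 i, abs_mul, h3 i]
          have h6 : 1 ≤ |d| := Int.one_le_abs hd
          nlinarith [abs_nonneg (h i / d)]
        have h6 : |h i| < 2 * X := abs_lt.2 h4
        have h7 := abs_lt.1 (lt_of_le_of_lt h5 h6)
        rw [mem_Ioo, hN]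
        push_cast
        constructor <;> linarith [h7.1, h7.2, (by positivity : (0 : ℤ) ≤ (M : ℤ))]
      · rw [h3 i]
        have h4 := mem_Ioo.1 (hh1 i)
        push_cast at h4
        exact abs_lt.2 h4
    · intro t _
      funext i
      exact Int.mul_ediv_cancel_left _ hd
    · intro h hh
      rw [mem_filter] at hh
      funext i
      exact Int.mul_ediv_cancel' (hh.2 i)
    · intro t _
      congr 1
      unfold FW
      push_cast
      refine prod_congr rfl fun i _ => ?_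
      rw [if_pos (dvd_mul_right _ _), Int.mul_ediv_cancel_left _ hd]
  rw [e1, e2, Finset.sum_filter]
  refine sum_congr rfl fun t _ => ?_
  split_ifs with h2
  · rfl
  · push Not at h2
    obtain ⟨i, hi⟩ := h2
    rw [D0_large hf _ i hi, mul_zero]


/-- differences of a function cut off to a residue class -/
theorem D0_class (Λ : ℕ) (ρ : ℤ) (f : ℤ → ℂ) (l : List ℤ) (y : ℤ) :
    DL l (fun m => if (Λ : ℤ) ∣ m - ρ then f m else 0) y =
      if (Λ : ℤ) ∣ y - ρ ∧ ∀ a ∈ l, (Λ : ℤ) ∣ a then DL l f y else 0 := by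
  induction l generalizing f with
  | nil => simp [DL]
  | cons b l ih =>
    have h1 : DD b (fun m => if (Λ : ℤ) ∣ m - ρ then f m else 0) =
        fun m => if (Λ : ℤ) ∣ m - ρ then (if (Λ : ℤ) ∣ b then DD b f m else 0) else 0 := by
      funext m
      unfold DD
      dsimp only
      by_cases h2 : (Λ : ℤ) ∣ m - ρ
      · rw [if_pos h2, if_pos h2]
        by_cases h3 : (Λ : ℤ) ∣ b
        · have h4 : (Λ : ℤ) ∣ m + b - ρ := by
            have : m + b - ρ = (m - ρ) + b := by ring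
            rw [this]
            exact dvd_add h2 h3
          rw [if_pos h4, if_pos h3]
        · have h4 : ¬ (Λ : ℤ) ∣ m + b - ρ := by
            intro h5
            apply h3
            have : b = (m + b - ρ) - (m - ρ) := by ring
            rw [this]
            exact dvd_sub h5 h2
          rw [if_neg h4, if_neg h3, map_zero, mul_zero]
      · rw [if_neg h2, if_neg h2, zero_mul]
    show DL l (DD b _) y = _
    rw [h1, ih (fun m => if (Λ : ℤ) ∣ b then DD b f m else 0)]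
    by_cases h3 : (Λ : ℤ) ∣ b
    · simp only [if_pos h3]
      by_cases h4 : (Λ : ℤ) ∣ y - ρ ∧ ∀ a ∈ l, (Λ : ℤ) ∣ a
      · rw [if_pos h4, if_pos ⟨h4.1, fun a ha => by
          rcases List.mem_cons.1 ha with h5 | h5
          · rw [h5]; exact h3
          · exact h4.2 a h5⟩]
        rfl
      · rw [if_neg h4, if_neg]
        intro h5
        exact h4 ⟨h5.1, fun a ha => h5.2 a (List.mem_cons_of_mem _ ha)⟩
    · simp only [if_neg h3]
      rw [if_neg (fun h5 : _ ∧ ∀ a ∈ (b :: l), (Λ : ℤ) ∣ a => h3 (h5.2 b List.mem_cons_self))]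
      split_ifs
      · exact D0_DLz l _ y rfl
      · rfl

/-- **Residue classes.** -/
theorem D0_V1 {X s : ℕ} {f : ℤ → ℂ} (hf : Spt X f) (hs : 2 ≤ s) (Λ : ℕ) (hΛ : 0 < Λ) (ρ : ℤ) :
    GG X s (fun m => if (Λ : ℤ) ∣ m - ρ then f m else 0) ≤ GG X s f := by
  classical
  have hf' : ∀ σ : ℤ, Spt X (fun m => if (Λ : ℤ) ∣ m - σ then f m else 0) := by
    intro σ y hy
    simp only [hf y hy, ite_self]
  -- the sum over all classes
  have h1 : ∑ σ ∈ range Λ, GG X s (fun m => if (Λ : ℤ) ∣ m - σ then f m else 0) ≤ GG X s f := by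
    have h2 : ((∑ σ ∈ range Λ, GG X s (fun m => if (Λ : ℤ) ∣ m - σ then f m else 0) : ℝ) : ℂ) =
        ∑ h ∈ bxS s (2 * X), (∏ i, (if (Λ : ℤ) ∣ h i then (1 : ℂ) else 0)) * FF X h f := by
      rw [Complex.ofReal_sum]
      have h3 : ∀ σ ∈ range Λ, ((GG X s (fun m => if (Λ : ℤ) ∣ m - σ then f m else 0) : ℝ) : ℂ) =
          ∑ h ∈ bxS s (2 * X), FF X h (fun m => if (Λ : ℤ) ∣ m - σ then f m else 0) := fun σ _ =>
        (D0_re (hf' σ) (by omega)).symm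
      rw [sum_congr rfl h3, Finset.sum_comm]
      refine sum_congr rfl fun h _ => ?_
      unfold FF
      rw [Finset.sum_comm, Finset.mul_sum]
      refine sum_congr rfl fun y _ => ?_
      unfold DV
      have h4 : ∀ σ ∈ range Λ, DL (List.ofFn h) (fun m => if (Λ : ℤ) ∣ m - σ then f m else 0) y =
          if (Λ : ℤ) ∣ y - σ then (if ∀ i, (Λ : ℤ) ∣ h i then DL (List.ofFn h) f y else 0) else 0 := by
        intro σ _
        rw [D0_class]
        have h5 : (∀ a ∈ List.ofFn h, (Λ : ℤ) ∣ a) ↔ ∀ i, (Λ : ℤ) ∣ h i := by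
          simp only [List.mem_ofFn]
          constructor
          · exact fun h6 i => h6 _ ⟨i, rfl⟩
          · rintro h6 _ ⟨i, rfl⟩
            exact h6 i
        by_cases h6 : (Λ : ℤ) ∣ y - σ
        · by_cases h7 : ∀ i, (Λ : ℤ) ∣ h i
          · rw [if_pos ⟨h6, h5.2 h7⟩, if_pos h6, if_pos h7]
          · rw [if_neg (fun h8 => h7 (h5.1 h8.2)), if_pos h6, if_neg h7]
        · rw [if_neg (fun h8 => h6 h8.1), if_neg h6]
      rw [sum_congr rfl h4]
      have hΛz : (0 : ℤ) < Λ := by exact_mod_cast hΛ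
      rw [Finset.sum_eq_single_of_mem (y % Λ).toNat]
      · rw [if_pos]
        · by_cases h7 : ∀ i, (Λ : ℤ) ∣ h i
          · rw [if_pos h7, prod_congr rfl fun i _ => if_pos (h7 i), prod_const_one, one_mul]
          · rw [if_neg h7]
            push Not at h7
            obtain ⟨i, hi⟩ := h7
            rw [prod_eq_zero (mem_univ i) (if_neg hi), zero_mul]
        · have h8 : (((y % Λ).toNat : ℕ) : ℤ) = y % Λ := Int.toNat_of_nonneg (Int.emod_nonneg _ hΛz.ne')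
          rw [h8]
          exact Int.dvd_self_sub_emod
      · rw [mem_range]
        have := Int.emod_lt_of_pos y hΛz
        have := Int.emod_nonneg y hΛz.ne'
        omega
      · intro σ hσ hne
        rw [if_neg]
        intro h8
        apply hne
        rw [mem_range] at hσ
        have h9 : y % Λ = σ := by
          have h10 : y % Λ = (σ : ℤ) % Λ := Int.emod_eq_emod_iff_emod_sub_eq_zero.2 (Int.emod_eq_zero_of_dvd h8)
          rw [h10, Int.emod_eq_of_lt (by positivity) (by exact_mod_cast hσ)]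
        rw [h9, Int.toNat_natCast]
    have h3 := D0_W hf hs (fun _ h => if (Λ : ℤ) ∣ h then 1 else 0) (fun _ => D0_Wdvd X Λ hΛ)
    rw [← h2, Complex.norm_real] at h3
    exact (le_abs_self _).trans h3
  -- one class
  have hΛz : (0 : ℤ) < Λ := by exact_mod_cast hΛ
  have h2 : (fun m => if (Λ : ℤ) ∣ m - ρ then f m else 0) =
      fun m => if (Λ : ℤ) ∣ m - (((ρ % Λ).toNat : ℕ) : ℤ) then f m else 0 := by
    funext m
    have h8 : (((ρ % Λ).toNat : ℕ) : ℤ) = ρ % Λ := Int.toNat_of_nonneg (Int.emod_nonneg _ hΛz.ne')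
    rw [h8]
    have h9 : (Λ : ℤ) ∣ m - ρ ↔ (Λ : ℤ) ∣ m - ρ % Λ := by
      have h10 : m - ρ % Λ = (m - ρ) + (ρ - ρ % Λ) := by ring
      rw [h10]
      exact (Int.dvd_add_left Int.dvd_self_sub_emod).symm
    by_cases h10 : (Λ : ℤ) ∣ m - ρ
    · rw [if_pos h10, if_pos (h9.1 h10)]
    · rw [if_neg h10, if_neg (fun h => h10 (h9.2 h))]
  rw [h2]
  refine le_trans ?_ h1
  refine Finset.single_le_sum (f := fun σ : ℕ => GG X s (fun m => if (Λ : ℤ) ∣ m - σ then f m else 0))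
    (fun σ _ => D0_nn (hf' σ) (by omega)) ?_
  rw [mem_range]
  have := Int.emod_lt_of_pos ρ hΛz
  have := Int.emod_nonneg ρ hΛz.ne'
  omega

end Pool.Agent.HUK
end

-- from Lib.HUK.V1
section

/-!
# Project HUK, chunk V1 (helper9): residue classes and multiples (Lemma W of helper9)
-/

open Finset

namespace Pool.Agent.HUK

open Pool.Agent.H44W (ee)


/-- Differences which are multiples of `q`, with Fejer weights: `fw M (h/q) [q ∣ h]` is on `|h| < 2X` a convex combination of phases. -/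
theorem V2_mul (X s M q : ℕ) (hs : 2 ≤ s) (hM : 1 ≤ M) (hq : 1 ≤ q) (f : ℤ → ℂ) (hf : ∀ y, y ∉ Ico (-(X : ℤ)) X → f y = 0) :
    ‖∑ t ∈ bxS s M, ((FW M t : ℝ) : ℂ) * FF X (fun i => (q : ℤ) * t i) f‖ ≤ GG X s f :=
  D0_V2 hf hs M hM (q : ℤ) (by omega)

/-- Residue classes. -/
theorem V1_res (X s Λ : ℕ) (hs : 2 ≤ s) (hΛ : 1 ≤ Λ) (ρ : ℤ) (f : ℤ → ℂ) (hf : ∀ y, y ∉ Ico (-(X : ℤ)) X → f y = 0) :
    GG X s (fun y => if (Λ : ℤ) ∣ y - ρ then f y else 0) ≤ GG X s f :=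
  D0_V1 hf hs Λ hΛ ρ

theorem v1_DL (Λ ρ : ℤ) (f : ℤ → ℂ) (l : List ℤ) (x : ℤ) :
    DL l (fun x => f (ρ + Λ * x)) x = DL (l.map (fun a => Λ * a)) f (ρ + Λ * x) := by
  induction l generalizing f with
  | nil => rfl
  | cons a l ih =>
    show DL l (DD a (fun x => f (ρ + Λ * x))) x = DL (l.map (fun a => Λ * a)) (DD (Λ * a) f) (ρ + Λ * x)
    rw [← ih (DD (Λ * a) f)]
    congr 1
    funext z
    unfold DD
    dsimp only
    rw [mul_add, add_assoc]

theorem v1_DV {s : ℕ} (Λ ρ : ℤ) (f : ℤ → ℂ) (t : Fin s → ℤ) (x : ℤ) :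
    DV t (fun x => f (ρ + Λ * x)) x = DV (fun i => Λ * t i) f (ρ + Λ * x) := by
  unfold DV
  rw [v1_DL, List.map_ofFn]
  rfl

theorem v1_in (X Λ : ℕ) (hΛ : 1 ≤ Λ) (ρ : ℤ) (hρ : 0 ≤ ρ) (hρ' : ρ < Λ) (g : ℤ → ℂ)
    (hg : ∀ y, y ∉ Ico (-(X : ℤ)) X → g y = 0) :
    ∑ y ∈ Ico (-(X : ℤ)) X, (if (Λ : ℤ) ∣ y - ρ then g y else 0) = ∑ x ∈ Ico (-(X : ℤ)) X, g (ρ + Λ * x) := by
  have hΛz : (1 : ℤ) ≤ Λ := by exact_mod_cast hΛ
  have h1 : ∑ x ∈ Ico (-(X : ℤ)) X, g (ρ + Λ * x) =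
      ∑ x ∈ (Ico (-(X : ℤ)) X).filter (fun x => ρ + Λ * x ∈ Ico (-(X : ℤ)) X), g (ρ + Λ * x) := by
    rw [Finset.sum_filter]
    refine sum_congr rfl fun x _ => ?_
    split_ifs with h2
    · rfl
    · exact hg _ h2
  rw [h1, ← Finset.sum_filter]
  refine Finset.sum_bij' (fun y _ => (y - ρ) / Λ) (fun x _ => ρ + Λ * x) ?_ ?_ ?_ ?_ ?_
  · intro y hy
    rw [mem_filter] at hy ⊢
    obtain ⟨h3, t, ht⟩ := hy
    have h4 : (y - ρ) / Λ = t := by
      rw [ht]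
      exact Int.mul_ediv_cancel_left t (by omega)
    rw [h4]
    have h5 : ρ + Λ * t = y := by rw [← ht]; ring
    rw [h5]
    refine ⟨?_, h3⟩
    rw [mem_Ico] at h3 ⊢
    constructor
    · by_contra h6
      push Not at h6
      nlinarith
    · by_contra h6
      push Not at h6
      nlinarith
  · intro x hx
    rw [mem_filter] at hx ⊢
    refine ⟨hx.2, ?_⟩
    rw [add_sub_cancel_left]
    exact dvd_mul_right _ _
  · intro y hy
    rw [mem_filter] at hy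
    have := Int.mul_ediv_cancel' hy.2
    linarith
  · intro x _
    rw [add_sub_cancel_left]
    exact Int.mul_ediv_cancel_left x (by omega)
  · intro y hy
    rw [mem_filter] at hy
    have := Int.mul_ediv_cancel' hy.2
    congr 1
    linarith

theorem v1_out (X s Λ : ℕ) (hΛ : 1 ≤ Λ) (Φ : (Fin s → ℤ) → ℂ) (hΦ : ∀ h i, (2 * X : ℤ) ≤ |h i| → Φ h = 0) :
    ∑ h ∈ bxS s (2 * X), (if ∀ i, (Λ : ℤ) ∣ h i then Φ h else 0) = ∑ t ∈ bxS s (2 * X), Φ (fun i => (Λ : ℤ) * t i) := by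
  classical
  have hΛz : (1 : ℤ) ≤ Λ := by exact_mod_cast hΛ
  have h1 : ∑ t ∈ bxS s (2 * X), Φ (fun i => (Λ : ℤ) * t i) =
      ∑ t ∈ (bxS s (2 * X)).filter (fun t => ∀ i, |(Λ : ℤ) * t i| < 2 * X), Φ (fun i => (Λ : ℤ) * t i) := by
    rw [Finset.sum_filter]
    refine sum_congr rfl fun t _ => ?_
    split_ifs with h2
    · rfl
    · push Not at h2
      obtain ⟨i, hi⟩ := h2
      exact hΦ _ i hi
  rw [h1, ← Finset.sum_filter]
  symm
  refine Finset.sum_bij' (fun t _ => fun i => (Λ : ℤ) * t i) (fun h _ => fun i => h i / Λ) ?_ ?_ ?_ ?_ ?_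
  · intro t ht
    rw [mem_filter] at ht ⊢
    refine ⟨?_, fun i => dvd_mul_right _ _⟩
    unfold bxS
    rw [Fintype.mem_piFinset]
    intro i
    have := abs_lt.1 (ht.2 i)
    rw [mem_Ioo]
    push_cast
    exact this
  · intro h hh
    rw [mem_filter] at hh ⊢
    have hh1 := hh.1
    unfold bxS at hh1
    rw [Fintype.mem_piFinset] at hh1
    have h3 : ∀ i, (Λ : ℤ) * (h i / Λ) = h i := fun i => Int.mul_ediv_cancel' (hh.2 i)
    have h4 : ∀ i, |h i| < 2 * X := by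
      intro i
      have := mem_Ioo.1 (hh1 i)
      push_cast at this
      exact abs_lt.2 this
    refine ⟨?_, fun i => ?_⟩
    · unfold bxS
      rw [Fintype.mem_piFinset]
      intro i
      have h5 : |h i / Λ| ≤ |h i| := by
        rw [← h3 i, abs_mul, h3 i, abs_of_nonneg (by omega : (0 : ℤ) ≤ Λ)]
        nlinarith [abs_nonneg (h i / (Λ : ℤ))]
      have h7 := abs_lt.1 (lt_of_le_of_lt h5 (h4 i))
      rw [mem_Ioo]
      push_cast
      exact h7
    · rw [h3 i]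
      exact h4 i
  · intro t _
    funext i
    exact Int.mul_ediv_cancel_left _ (by omega)
  · intro h hh
    rw [mem_filter] at hh
    funext i
    exact Int.mul_ediv_cancel' (hh.2 i)
  · intro t _
    rfl

/-- The function `x ↦ f(ρ + Λ x)`: its differences `t` are the differences `Λ t` of `f` on the class of `ρ`; all other differences vanish.
`0 ≤ ρ < Λ`, so `ρ + Λ x ∈ [-X, X)` implies `x ∈ [-X, X)`. -/
theorem V1_dil (X s Λ : ℕ) (hX : 1 ≤ X) (hs : 1 ≤ s) (hΛ : 1 ≤ Λ) (ρ : ℤ) (hρ : 0 ≤ ρ) (hρ' : ρ < Λ) (f : ℤ → ℂ)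
    (hf : Bdd X f) : Bdd X (fun x => f (ρ + Λ * x)) ∧
    GG X s (fun x => f (ρ + Λ * x)) = GG X s (fun y => if (Λ : ℤ) ∣ y - ρ then f y else 0) := by
  have hΛz : (1 : ℤ) ≤ Λ := by exact_mod_cast hΛ
  refine ⟨⟨fun y => hf.le _, fun y hy => hf.sup _ fun h => hy ?_⟩, ?_⟩
  · rw [mem_Ico] at h ⊢
    constructor
    · by_contra h6
      push Not at h6
      nlinarith
    · by_contra h6
      push Not at h6
      nlinarith
  · unfold GG
    congr 1
    have h1 : ∀ h ∈ bxS s (2 * X), FF X h (fun y => if (Λ : ℤ) ∣ y - ρ then f y else 0) =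
        if ∀ i, (Λ : ℤ) ∣ h i then ∑ x ∈ Ico (-(X : ℤ)) X, DV h f (ρ + Λ * x) else 0 := by
      intro h _
      have h5 : (∀ a ∈ List.ofFn h, (Λ : ℤ) ∣ a) ↔ ∀ i, (Λ : ℤ) ∣ h i := by
        simp only [List.mem_ofFn]
        constructor
        · exact fun h6 i => h6 _ ⟨i, rfl⟩
        · rintro h6 _ ⟨i, rfl⟩
          exact h6 i
      unfold FF DV
      by_cases h7 : ∀ i, (Λ : ℤ) ∣ h i
      · rw [if_pos h7, ← v1_in X Λ hΛ ρ hρ hρ' (DL (List.ofFn h) f) (fun y hy => D0_DLz _ _ _ (hf.sup y hy))]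
        refine sum_congr rfl fun y _ => ?_
        rw [D0_class]
        by_cases h6 : (Λ : ℤ) ∣ y - ρ
        · rw [if_pos ⟨h6, h5.2 h7⟩, if_pos h6]
        · rw [if_neg (fun h8 => h6 h8.1), if_neg h6]
      · rw [if_neg h7]
        refine sum_eq_zero fun y _ => ?_
        rw [D0_class, if_neg (fun h8 => h7 (h5.1 h8.2))]
    rw [sum_congr rfl h1, v1_out X s Λ hΛ (fun h => ∑ x ∈ Ico (-(X : ℤ)) X, DV h f (ρ + Λ * x))]
    · refine sum_congr rfl fun t _ => ?_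
      unfold FF
      refine sum_congr rfl fun x _ => ?_
      rw [v1_DV]
    · intro h i hi
      show ∑ x ∈ Ico (-(X : ℤ)) X, DV h f (ρ + Λ * x) = 0
      rw [← v1_in X Λ hΛ ρ hρ hρ' (DV h f) (fun y hy => D0_DLz _ _ _ (hf.sup y hy))]
      have h2 := D0_large (X := X) (f := fun y => if (Λ : ℤ) ∣ y - ρ then f y else 0)
        (fun y hy => by simp only [hf.sup y hy, ite_self]) h i hi
      have key : ∀ y ∈ Ico (-(X : ℤ)) X, DV h f y = 0 := by
        intro y hy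
        rw [mem_Ico] at hy
        have key : ∀ (l : List ℤ) (g : ℤ → ℂ) (a : ℤ), a ∈ l → Spt X g → (2 * X : ℤ) ≤ |a| → DL l g y = 0 := by
          intro l
          induction l with
          | nil =>
            intro g a ha
            exact absurd ha (List.not_mem_nil)
          | cons b l ih =>
            intro g a ha hg h2
            rcases List.mem_cons.1 ha with h3 | h3
            · subst h3
              refine D0_DLz l (DD a g) y ?_
              unfold DD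
              rw [hg (y + a), map_zero, mul_zero]
              rw [mem_Ico]
              rcases abs_cases a with ⟨h4, _⟩ | ⟨h4, _⟩ <;> omega
            · exact ih (DD b g) a h3 (D0_SDD hg b) h2
        exact key _ f (h i) (List.mem_ofFn.2 ⟨i, rfl⟩) hf.sup hi
      refine sum_eq_zero fun y hy => ?_
      rw [key y hy, ite_self]

end Pool.Agent.HUK
end
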