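import Pool.Agent.Lib.H59M.M2.M053
import Pool.Agent.Lib.H59M.M2.M055
import Pool.Agent.Lib.H59M.M2.M066
import Pool.Agent.Lib.H59M.M2.M088
import Pool.Agent.Lib.H59M.M2.M097
import Pool.Agent.Lib.H59M.M2.M098
import Pool.Agent.Lib.H59M.M2.M102

/-! Merged copies (to shorten the build) of Lib.HUK.KB5, Lib.HUK.KB7, Lib.HUK.KB8, Lib.HUK.KB9, Lib.HUK.KB12, Lib.HUK.KB13. -/

-- from Lib.HUK.KB5
section

/-!
# Project HUK, chunk KB5 (M): the character part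
-/

open Finset

namespace Pool.Agent.HUK

open Pool.Agent.Lib.H59P (Ch)

theorem kb5_conj (n : ℕ) (z : ℂ) : (starRingEnd ℂ) (cj n z) = cj n ((starRingEnd ℂ) z) := by
  unfold cj
  split_ifs <;> rfl

/-- the function in terms of residues -/
theorem kb5_eq {k : ℕ} (p : Ch) (y : ℤ) (h : Fin k → ℤ) :
    cp p y h = (starRingEnd ℂ) (DL (List.ofFn fun i => ((lam k i : ℤ) : ZMod p.1) * ((h i : ℤ) : ZMod p.1))
      (fun z => p.2 z) ((y : ℤ) : ZMod p.1)) := by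
  unfold cp
  rw [DL_prod, DL_prod, map_prod]
  refine Finset.prod_congr rfl fun ω _ => ?_
  rw [kb5_conj]
  congr 3
  unfold vt
  push_cast
  congr 1

/-- sums over residues -/
theorem kb5_sum (r : ℕ) [NeZero r] {M : Type*} [AddCommMonoid M] (g : ZMod r → M) :
    ∑ y ∈ Ico (0 : ℤ) r, g ((y : ℤ) : ZMod r) = ∑ z : ZMod r, g z := by
  have hr : 0 < r := Nat.pos_of_ne_zero (NeZero.ne r)
  refine Finset.sum_nbij' (fun y : ℤ => (y : ZMod r)) (fun z : ZMod r => (z.val : ℤ)) (fun _ _ => Finset.mem_univ _) ?_ ?_ ?_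
    (fun _ _ => rfl)
  · intro z _
    rw [Finset.mem_Ico]
    exact ⟨by positivity, by exact_mod_cast ZMod.val_lt z⟩
  · intro y hy
    rw [Finset.mem_Ico] at hy
    show (((y : ZMod r)).val : ℤ) = y
    rw [ZMod.val_intCast, Int.emod_eq_of_lt hy.1 hy.2]
  · intro z _
    show (((z.val : ℕ) : ℤ) : ZMod r) = z
    rw [Int.cast_natCast, ZMod.natCast_zmod_val]

/-- sums over tuples of residues -/
theorem kb5_sum_pi (k r : ℕ) [NeZero r] {M : Type*} [AddCommMonoid M] (g : (Fin k → ZMod r) → M) :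
    ∑ h ∈ Fintype.piFinset (fun _ : Fin k => Ico (0 : ℤ) r), g (fun i => ((h i : ℤ) : ZMod r)) = ∑ t : Fin k → ZMod r, g t := by
  have hr : 0 < r := Nat.pos_of_ne_zero (NeZero.ne r)
  refine Finset.sum_nbij' (fun h : Fin k → ℤ => fun i => ((h i : ℤ) : ZMod r)) (fun t : Fin k → ZMod r => fun i => ((t i).val : ℤ))
    (fun _ _ => Finset.mem_univ _) ?_ ?_ ?_ (fun _ _ => rfl)
  · intro t _
    rw [Fintype.mem_piFinset]
    intro i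
    rw [Finset.mem_Ico]
    exact ⟨by positivity, by exact_mod_cast ZMod.val_lt (t i)⟩
  · intro h hh
    funext i
    have hi := Finset.mem_Ico.1 (Fintype.mem_piFinset.1 hh i)
    show ((((h i : ℤ) : ZMod r)).val : ℤ) = h i
    rw [ZMod.val_intCast, Int.emod_eq_of_lt hi.1 hi.2]
  · intro t _
    funext i
    show ((((t i).val : ℕ) : ℤ) : ZMod r) = t i
    rw [Int.cast_natCast, ZMod.natCast_zmod_val]

theorem kb5_lam (k : ℕ) (i : Fin k) : lam k i ≠ 0 ∧ (lam k i).natAbs ≤ k := by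
  have hi := i.2
  unfold lam
  constructor
  · omega
  · omega

/-- fibres of the coordinatewise multiplication -/
theorem kb5_fib (k r : ℕ) [NeZero r] (F : (Fin k → ZMod r) → ℝ) (hF : ∀ t, 0 ≤ F t) :
    ∑ h : Fin k → ZMod r, F (fun i => ((lam k i : ℤ) : ZMod r) * h i) ≤ (k : ℝ) ^ k * ∑ t, F t := by
  classical
  rw [← Finset.sum_fiberwise univ (fun h : Fin k → ZMod r => fun i => ((lam k i : ℤ) : ZMod r) * h i), Finset.mul_sum]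
  refine Finset.sum_le_sum fun t _ => ?_
  have h1 : ∑ h ∈ univ.filter (fun h : Fin k → ZMod r => (fun i => ((lam k i : ℤ) : ZMod r) * h i) = t),
      F (fun i => ((lam k i : ℤ) : ZMod r) * h i) =
      ∑ h ∈ univ.filter (fun h : Fin k → ZMod r => (fun i => ((lam k i : ℤ) : ZMod r) * h i) = t), F t := by
    refine Finset.sum_congr rfl fun h hh => ?_
    rw [(mem_filter.1 hh).2]
  rw [h1, Finset.sum_const, nsmul_eq_mul]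
  refine mul_le_mul_of_nonneg_right ?_ (hF t)
  have h2 : univ.filter (fun h : Fin k → ZMod r => (fun i => ((lam k i : ℤ) : ZMod r) * h i) = t) =
      Fintype.piFinset (fun i => univ.filter (fun m : ZMod r => ((lam k i : ℤ) : ZMod r) * m + 0 = t i)) := by
    ext h
    rw [Fintype.mem_piFinset]
    simp only [mem_filter, mem_univ, true_and, add_zero]
    exact funext_iff
  rw [h2, Fintype.card_piFinset]
  have h3 : ∏ i : Fin k, (univ.filter (fun m : ZMod r => ((lam k i : ℤ) : ZMod r) * m + 0 = t i)).card ≤ ∏ _i : Fin k, k :=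
    Finset.prod_le_prod' fun i _ => (H9U.l0_card r (lam k i) (kb5_lam k i).1 0 (t i)).trans (kb5_lam k i).2
  rw [Finset.prod_const, Finset.card_univ, Fintype.card_fin] at h3
  exact_mod_cast h3

/-- Periodicity: `DL_prod` (`P0.lean`) and the casts of `y + vt ω ..` to `ZMod p.1`. -/
theorem KB5_per {k : ℕ} (p : Ch) : Pe p.1 (cp (k := k) p) := by
  intro y y' h h' hy hh
  rw [kb5_eq, kb5_eq]
  have e1 : ((y : ℤ) : ZMod p.1) = ((y' : ℤ) : ZMod p.1) := by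
    rw [← sub_eq_zero, ← Int.cast_sub]
    exact (ZMod.intCast_zmod_eq_zero_iff_dvd _ _).2 hy
  have e2 : (fun i => ((lam k i : ℤ) : ZMod p.1) * ((h i : ℤ) : ZMod p.1)) =
      fun i => ((lam k i : ℤ) : ZMod p.1) * ((h' i : ℤ) : ZMod p.1) := by
    funext i
    congr 1
    rw [← sub_eq_zero, ← Int.cast_sub]
    exact (ZMod.intCast_zmod_eq_zero_iff_dvd _ _).2 (hh i)
  rw [e1, e2]


/-- Proof. `r = p.1`, `C`, `c` from `UCH_all k`. For integers `y`, `h`: by `DL_prod`, `cp p y h = conj (DL (List.ofFn fun i => ((lam k i : ℤ) : ZMod r) * h i) χ y)` with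
the casts of `y` and `h i` to `ZMod r`. The casts are bijections from `Ico 0 r` to `ZMod r` (and coordinatewise), so
`r^(k+1) Av k r (cp p) = ∑_{h : Fin k → ZMod r} ‖∑_{y : ZMod r} DL (List.ofFn fun i => lam i * h i) χ y‖`. The map `h ↦ (lam i * h i)_i` has fibres with at
most `∏ i, lam k i ≤ k^k` elements (`H9U.L0` has fibres of a multiplication; or: `{x : ZMod r | a x = b}` has at most `|a|` elements for an integer
`a ≠ 0`), so this is at most `k^k ∑_{t} ‖∑_y DL (List.ofFn t) χ y‖ ≤ k^k C r^(k+1-c)`. -/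
theorem KB5_chi (k : ℕ) (hk : 1 ≤ k) : ∃ C e : ℝ, 0 < C ∧ 0 < e ∧ e ≤ 1 ∧ ∀ p : Ch, 1 ≤ p.1 → p.2.IsPrimitive →
    Av k p.1 (cp p) ≤ C * (p.1 : ℝ) ^ (-e) := by
  obtain ⟨C, c, hC, hc, hc1, H⟩ := UCH_all k hk
  have hk0 : (0 : ℝ) < (k : ℝ) ^ k := by
    have : (0 : ℝ) < k := by exact_mod_cast hk
    positivity
  refine ⟨(k : ℝ) ^ k * C, c, mul_pos hk0 hC, hc, hc1, ?_⟩
  rintro ⟨r, χ⟩ hr hχ
  have hr' : 1 ≤ r := hr
  have hne : NeZero r := ⟨by omega⟩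
  have hr0 : (0 : ℝ) < r := by exact_mod_cast hr'
  show Av k r (cp ⟨r, χ⟩) ≤ (k : ℝ) ^ k * C * (r : ℝ) ^ (-c)
  unfold Av
  let F : (Fin k → ZMod r) → ℝ := fun t => ‖∑ z : ZMod r, DL (List.ofFn t) (fun z => χ z) z‖
  have hF : ∀ t, 0 ≤ F t := fun t => norm_nonneg _
  have h1 : ∀ h : Fin k → ℤ, ‖∑ y ∈ Ico (0 : ℤ) r, cp ⟨r, χ⟩ y h‖ =
      F (fun i => ((lam k i : ℤ) : ZMod r) * ((h i : ℤ) : ZMod r)) := by
    intro h
    have e1 : ∑ y ∈ Ico (0 : ℤ) r, cp ⟨r, χ⟩ y h = (starRingEnd ℂ) (∑ z : ZMod r,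
        DL (List.ofFn fun i => ((lam k i : ℤ) : ZMod r) * ((h i : ℤ) : ZMod r)) (fun z => χ z) z) := by
      rw [map_sum, ← kb5_sum r (fun z : ZMod r => (starRingEnd ℂ)
        (DL (List.ofFn fun i => ((lam k i : ℤ) : ZMod r) * ((h i : ℤ) : ZMod r)) (fun z => χ z) z))]
      exact Finset.sum_congr rfl fun y _ => kb5_eq ⟨r, χ⟩ y h
    rw [e1, RCLike.norm_conj]
  have h2 : ∑ h ∈ Fintype.piFinset (fun _ : Fin k => Ico (0 : ℤ) r), ‖∑ y ∈ Ico (0 : ℤ) r, cp ⟨r, χ⟩ y h‖ ≤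
      (k : ℝ) ^ k * (C * (r : ℝ) ^ ((k : ℝ) + 1 - c)) := by
    rw [Finset.sum_congr rfl fun h _ => h1 h,
      kb5_sum_pi k r (fun t : Fin k → ZMod r => F (fun i => ((lam k i : ℤ) : ZMod r) * t i))]
    refine (kb5_fib k r F hF).trans (mul_le_mul_of_nonneg_left ?_ hk0.le)
    exact H r χ hχ
  rw [div_le_iff₀ (by positivity)]
  refine h2.trans (le_of_eq ?_)
  have e3 : (r : ℝ) ^ ((k : ℝ) + 1 - c) = (r : ℝ) ^ (-c) * (r : ℝ) ^ (k + 1) := by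
    rw [← Real.rpow_natCast, ← Real.rpow_add hr0]
    congr 1
    push_cast
    ring
  rw [e3]
  ring

end Pool.Agent.HUK
end

-- from Lib.HUK.KB7
section

/-!
# Project HUK, chunk KB7 (M): one tuple of moduli
-/

open Finset

namespace Pool.Agent.HUK

open Pool.Agent.Lib.H68T (PC)
open Pool.Agent.Lib.H18Q (gk KS)
open Pool.Agent.Lib.H59P (Ch gl)

theorem kb7_cj (n : ℕ) (z : ℂ) : ‖cj n z‖ = ‖z‖ := by
  unfold cj
  split_ifs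
  · rfl
  · exact RCLike.norm_conj z

theorem kb7_sq {k : ℕ} {Q r : ℕ} {κ : (Fin k → Bool) → ℕ} (hκ : ∀ ω, κ ω ∈ KS Q r) : ∀ ω, Squarefree (κ ω) :=
  fun ω => (Pool.Agent.Lib.H18Q.CA_mem_KS.1 (hκ ω)).2.1

/-- Period and size. Proof. `KB6_fac`, `KB2_prod` (`KB5_per`, `KB4A_per`); `‖gk p (κ ω) m‖ ≤ Q` (`gk_bound` in `H18Q/CA.lean`, or `f3_gk` in
`H59T/F3.lean`); `p.1 * nk κ ≤ Q * ∏ κ ω ≤ Q * Q^(2^k)`. -/
theorem KB7_per {k : ℕ} (Q : ℕ) (p : Ch) (hp : p ∈ PC Q) (κ : (Fin k → Bool) → ℕ) (hκ : ∀ ω, κ ω ∈ KS Q p.1) :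
    Pe (p.1 * nk κ) (gt p κ) ∧ (∀ y h, ‖gt p κ y h‖ ≤ (Q : ℝ) ^ (2 ^ k)) ∧ p.1 * nk κ ≤ Q ^ (2 ^ k + 1) := by
  have hr1 : 1 ≤ p.1 := (Pool.Agent.Lib.H68T.mem_PC.1 hp).1
  have hrQ : p.1 ≤ Q := (Pool.Agent.Lib.H68T.mem_PC.1 hp).2.1
  obtain ⟨-, hn1, hn2, hn3, -, -⟩ := KB6_nk Q p.1 κ hκ
  refine ⟨?_, ?_, ?_⟩
  · have h1 := (KB2_prod p.1 hr1 (Pk κ) (fun l hl => (hn3 l hl).1) (fun l hl => (hn3 l hl).2) (cp p) (KB5_per p)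
      (fun l => lf l (univ.filter fun ω => l ∣ κ ω)) (fun l _ => KB4A_per l _)).1
    intro y y' h h' hy hh
    rw [KB6_fac p κ (kb7_sq hκ), KB6_fac p κ (kb7_sq hκ)]
    exact congrArg (fun z : ℂ => ((((p.1 : ℝ) / (Nat.totient p.1 : ℝ)) ^ (2 ^ k) : ℝ) : ℂ) * z) (h1 y y' h h' hy hh)
  · intro y h
    unfold gt
    rw [norm_prod]
    refine (Finset.prod_le_prod (fun _ _ => norm_nonneg _) (g := fun _ => (Q : ℝ)) fun ω _ => ?_).trans ?_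
    · rw [kb7_cj]
      exact Pool.Agent.Lib.H18Q.gk_bound Q p hp (κ ω) (hκ ω) _
    · rw [Finset.prod_const, Finset.card_univ, Fintype.card_fun, Fintype.card_bool, Fintype.card_fin]
  · have h1 : ∏ ω, κ ω ≤ Q ^ (2 ^ k) := by
      refine (Finset.prod_le_prod' (g := fun _ => Q) fun ω _ => ?_).trans ?_
      · exact (Pool.Agent.Lib.H18Q.CA_mem_KS.1 (hκ ω)).1.2.trans (Nat.div_le_self _ _)
      · rw [Finset.prod_const, Finset.card_univ, Fintype.card_fun, Fintype.card_bool, Fintype.card_fin]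
    rw [pow_succ']
    exact Nat.mul_le_mul hrQ (hn2.trans h1)

/-- Proof. `KB6_fac`, `KB1_smul`, `KB2_prod`: `Av = (r/φ(r))^(2^k) * Av k r (cp p) * ∏_{l ∈ Pk κ} Av k l (lf l ..)`. `KB5_chi`: `C1 r^(-e1)`; `KA11_tot` with
`ε = e1 / 2^(k+1)`: `(r/φ(r))^(2^k) ≤ C2^(2^k) r^(e1/2)`; `KB4_loc` (the filter is nonempty for `l ∈ Pk κ`): the product is at most
`∏_{l ∈ Pk κ} (10 + k²)/l² ≤ 2^(b * card (Pk κ)) / (nk κ)²` for `2^b ≥ 10 + k²`, and `2^(card Pk κ) = (nk κ).divisors.card` (squarefree, `KB6_nk`: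
`Nat.Squarefree.cardDivisors..`, e.g. `Nat.card_divisors` or `ArithmeticFunction.card..`; only `≤` is needed: the products of the subsets of
`Pk κ` are different divisors, or `Finset.card_powerset` and `Nat.divisors_filter_squarefree`). `e = e1/2`. -/
theorem KB7_av (k : ℕ) (hk : 1 ≤ k) : ∃ (b : ℕ) (C e : ℝ), 0 < C ∧ 0 < e ∧ e ≤ 1 ∧ ∀ (Q : ℕ) (p : Ch), p ∈ PC Q →
    ∀ κ : (Fin k → Bool) → ℕ, (∀ ω, κ ω ∈ KS Q p.1) →
    Av k (p.1 * nk κ) (gt p κ) ≤ C * (p.1 : ℝ) ^ (-e) * (((nk κ).divisors.card : ℝ) ^ b / (nk κ : ℝ) ^ 2) := by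
  obtain ⟨C1, e1, hC1, he1, he1', hchi⟩ := KB5_chi k hk
  have hk2 : (0 : ℝ) < (2 : ℝ) ^ k := by positivity
  obtain ⟨C2, hC2, htot⟩ := KA11_tot (e1 / (2 * 2 ^ k)) (by positivity)
  refine ⟨10 + k ^ 2, C1 * C2 ^ (2 ^ k), e1 / 2, by positivity, by positivity, by linarith, ?_⟩
  intro Q p hp κ hκ
  obtain ⟨hr1, -, hprim⟩ := Pool.Agent.Lib.H68T.mem_PC.1 hp
  obtain ⟨-, hn1, -, hn3, hsq, hpf⟩ := KB6_nk Q p.1 κ hκ
  have hr0 : (0 : ℝ) < (p.1 : ℝ) := by exact_mod_cast hr1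
  have hφ0 : (0 : ℝ) < (Nat.totient p.1 : ℝ) := by exact_mod_cast Nat.totient_pos.2 hr1
  -- the average
  have e1' : Av k (p.1 * nk κ) (gt p κ) = ((p.1 : ℝ) / (Nat.totient p.1 : ℝ)) ^ (2 ^ k) *
      (Av k p.1 (cp p) * ∏ l ∈ Pk κ, Av k l (lf l (univ.filter fun ω => l ∣ κ ω))) := by
    have h1 : gt p κ = fun y h => ((((p.1 : ℝ) / (Nat.totient p.1 : ℝ)) ^ (2 ^ k) : ℝ) : ℂ) *
        (cp p y h * ∏ l ∈ Pk κ, lf l (univ.filter fun ω => l ∣ κ ω) y h) := by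
      funext y h
      exact KB6_fac p κ (kb7_sq hκ) y h
    have h2 := (KB2_prod p.1 hr1 (Pk κ) (fun l hl => (hn3 l hl).1) (fun l hl => (hn3 l hl).2) (cp (k := k) p)
      (KB5_per p) (fun l => lf l (univ.filter fun ω => l ∣ κ ω)) (fun l _ => KB4A_per l _)).2
    rw [h1, KB1_smul, nk, h2, Complex.norm_real, Real.norm_of_nonneg (by positivity)]
  -- the totient
  have h3 : ((p.1 : ℝ) / (Nat.totient p.1 : ℝ)) ^ (2 ^ k) ≤ C2 ^ (2 ^ k) * (p.1 : ℝ) ^ (e1 / 2) := by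
    have h4 := pow_le_pow_left₀ (by positivity) (htot p.1 hr1) (2 ^ k)
    refine h4.trans (le_of_eq ?_)
    rw [mul_pow, ← Real.rpow_natCast ((p.1 : ℝ) ^ (e1 / (2 * 2 ^ k))), ← Real.rpow_mul hr0.le]
    congr 2
    push_cast
    field_simp
  -- the local factors
  have h5 : ∏ l ∈ Pk κ, Av k l (lf l (univ.filter fun ω => l ∣ κ ω)) ≤
      ((nk κ).divisors.card : ℝ) ^ (10 + k ^ 2) / (nk κ : ℝ) ^ 2 := by
    have h6 : ∏ l ∈ Pk κ, Av k l (lf l (univ.filter fun ω => l ∣ κ ω)) ≤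
        ∏ l ∈ Pk κ, ((10 + (k : ℝ) ^ 2) / (l : ℝ) ^ 2) := by
      refine Finset.prod_le_prod (fun _ _ => KB1_nn _ _ _) fun l hl => ?_
      refine KB4_loc k l (hn3 l hl).1 _ ?_
      obtain ⟨ω, -, hω⟩ := Finset.mem_biUnion.1 hl
      exact ⟨ω, Finset.mem_filter.2 ⟨Finset.mem_univ _, Nat.dvd_of_mem_primeFactors hω⟩⟩
    refine h6.trans ?_
    rw [Finset.prod_div_distrib, Finset.prod_const, Finset.prod_pow]
    have h7 : (∏ l ∈ Pk κ, (l : ℝ)) = (nk κ : ℝ) := by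
      rw [nk, Nat.cast_prod]
    rw [h7]
    refine div_le_div_of_nonneg_right ?_ (by positivity)
    have h8 : (nk κ).divisors.card = 2 ^ (Pk κ).card := by
      rw [Nat.card_divisors (by omega), hpf, ← Finset.prod_const]
      refine Finset.prod_congr rfl fun l hl => ?_
      have h9 : (nk κ).factorization l ≤ 1 := Squarefree.natFactorization_le_one l hsq
      have h10 : 1 ≤ (nk κ).factorization l := by
        rw [← hpf] at hl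
        have := Nat.support_factorization (nk κ)
        exact Nat.one_le_iff_ne_zero.2 (Finsupp.mem_support_iff.1 (by rw [this]; exact hl))
      omega
    rw [h8]
    push_cast
    rw [← pow_mul, mul_comm (Pk κ).card, pow_mul]
    refine pow_le_pow_left₀ (by positivity) ?_ _
    have h11 : (10 + k ^ 2 : ℕ) ≤ 2 ^ (10 + k ^ 2) := Nat.lt_two_pow_self.le
    exact_mod_cast h11
  have h12 := hchi p hr1 hprim
  have h13 : 0 ≤ Av k p.1 (cp (k := k) p) := KB1_nn _ _ _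
  have h14 : 0 ≤ ∏ l ∈ Pk κ, Av k l (lf l (univ.filter fun ω => l ∣ κ ω)) :=
    Finset.prod_nonneg fun _ _ => KB1_nn _ _ _
  rw [e1', ← mul_assoc]
  refine mul_le_mul ?_ h5 h14 (by positivity)
  refine (mul_le_mul h3 h12 h13 (by positivity)).trans (le_of_eq ?_)
  have h15 : (p.1 : ℝ) ^ (-(e1 / 2)) = (p.1 : ℝ) ^ (e1 / 2) * (p.1 : ℝ) ^ (-e1) := by
    rw [← Real.rpow_add hr0]
    congr 1
    ring
  rw [h15]
  ring

end Pool.Agent.HUK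
end

-- from Lib.HUK.KB8
section

/-!
# Project HUK, chunk KB8 (M): the sum over the tuples of moduli
-/

open Finset

namespace Pool.Agent.HUK

open Pool.Agent.Lib.H68T (PC)
open Pool.Agent.Lib.H18Q (gk KS)
open Pool.Agent.Lib.H59P (Ch gl)

theorem kb8_num (x y z e ρ D : ℝ) (hx : 1 ≤ x) (hy : 1 ≤ y) (hz : 1 ≤ z) (hzx : z ≤ x * y) (hρ : 0 ≤ ρ) (hρe : ρ ≤ e)
    (hρ2 : ρ ≤ 1 / 2) (hD : 0 ≤ D) : x ^ (-e) * (D / y ^ 2) ≤ z ^ (-ρ) * (D * y ^ (-(3 / 2 : ℝ))) := by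
  have hx0 : 0 < x := by linarith
  have hy0 : 0 < y := by linarith
  have hz0 : 0 < z := by linarith
  have h1 : z ^ ρ ≤ x ^ e * y ^ (1 / 2 : ℝ) := by
    calc z ^ ρ ≤ (x * y) ^ ρ := Real.rpow_le_rpow hz0.le hzx hρ
      _ = x ^ ρ * y ^ ρ := Real.mul_rpow hx0.le hy0.le
      _ ≤ x ^ e * y ^ (1 / 2 : ℝ) := mul_le_mul (Real.rpow_le_rpow_of_exponent_le hx hρe)
          (Real.rpow_le_rpow_of_exponent_le hy hρ2) (by positivity) (by positivity)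
  have hy3 : y ^ (-(3 / 2 : ℝ)) = y ^ (1 / 2 : ℝ) / y ^ 2 := by
    rw [show (-(3 / 2) : ℝ) = 1 / 2 - 2 by norm_num, Real.rpow_sub hy0, Real.rpow_two]
  rw [hy3, Real.rpow_neg hx0.le, Real.rpow_neg hz0.le]
  have hxe : 0 < x ^ e := by positivity
  have hzr : 0 < z ^ ρ := by positivity
  have h2 : (x ^ e)⁻¹ ≤ y ^ (1 / 2 : ℝ) * (z ^ ρ)⁻¹ := by
    rw [← div_eq_mul_inv, inv_eq_one_div, div_le_div_iff₀ hxe hzr]
    linarith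
  have h3 : 0 ≤ D / y ^ 2 := by positivity
  calc (x ^ e)⁻¹ * (D / y ^ 2) ≤ (y ^ (1 / 2 : ℝ) * (z ^ ρ)⁻¹) * (D / y ^ 2) := mul_le_mul_of_nonneg_right h2 h3
    _ = (z ^ ρ)⁻¹ * (D * (y ^ (1 / 2 : ℝ) / y ^ 2)) := by ring

theorem kb8_fib {k : ℕ} (Q r : ℕ) (T : Finset ((Fin k → Bool) → ℕ)) (hT : ∀ κ ∈ T, ∀ ω, κ ω ∈ KS Q r) (n : ℕ) :
    ((T.filter fun κ => nk κ = n).card : ℝ) ≤ (n.divisors.card : ℝ) ^ (2 ^ k) := by
  have hsub : (T.filter fun κ => nk κ = n) ⊆ Fintype.piFinset fun _ : Fin k → Bool => n.divisors := by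
    intro κ hκ
    rw [mem_filter] at hκ
    rw [Fintype.mem_piFinset]
    intro ω
    have h := KB6_nk Q r κ (hT κ hκ.1)
    rw [hκ.2] at h
    rw [Nat.mem_divisors]
    exact ⟨h.1 ω, by have := h.2.1; omega⟩
  have h1 := card_le_card hsub
  rw [Fintype.card_piFinset, prod_const, card_univ, Fintype.card_fun, Fintype.card_bool, Fintype.card_fin] at h1
  exact_mod_cast h1

/-- Proof. The map `κ ↦ nk κ` sends the set to `Icc 1 (Q^(2^k))` (`KB6_nk`, `κ ω ≤ Q`), and every fibre over `n` is contained in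
`Fintype.piFinset fun _ => n.divisors`, which has `d(n)^(2^k)` elements. So the sum is at most `∑_{n ∈ Icc 1 N} d(n)^(2^k + b) n^(-3/2)`
(`Finset.sum_fiberwise_of_maps_to`), `divisor_bound` (`H21AP/DivisorBound.lean`) with `ε = 1/(4 (2^k + b + 1))` gives `d(n)^(2^k + b) ≤ C n^(1/4)`, and
`∑_n n^(-5/4)` converges (`Real.summable_nat_rpow_inv` / `Real.summable_one_div_nat_rpow`, `Summable.sum_le_tsum`). -/
theorem KB8_series (k b : ℕ) : ∃ C : ℝ, 0 < C ∧ ∀ (Q r : ℕ) (T : Finset ((Fin k → Bool) → ℕ)),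
    (∀ κ ∈ T, ∀ ω, κ ω ∈ KS Q r) →
    ∑ κ ∈ T, ((nk κ).divisors.card : ℝ) ^ b * (nk κ : ℝ) ^ (-(3 / 2 : ℝ)) ≤ C := by
  set m := 2 ^ k + b with hm
  have hm1 : 1 ≤ m := by
    have := Nat.one_le_two_pow (n := k)
    omega
  have hm0 : (0 : ℝ) < m := by exact_mod_cast hm1
  obtain ⟨C0, hC0, hd⟩ := Pool.Agent.Lib.H21AP.divisor_bound (ε := 1 / (4 * m)) (by positivity)
  have hsum : Summable fun n : ℕ => C0 ^ m * (n : ℝ) ^ (-(5 / 4 : ℝ)) :=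
    (Real.summable_nat_rpow.2 (by norm_num)).mul_left _
  have hnn : ∀ n : ℕ, 0 ≤ C0 ^ m * (n : ℝ) ^ (-(5 / 4 : ℝ)) := fun n => by positivity
  refine ⟨(∑' n : ℕ, C0 ^ m * (n : ℝ) ^ (-(5 / 4 : ℝ))) + 1, ?_, ?_⟩
  · have h0 : 0 ≤ ∑' n : ℕ, C0 ^ m * (n : ℝ) ^ (-(5 / 4 : ℝ)) := tsum_nonneg hnn
    linarith
  intro Q r T hT
  have h1 : ∑ κ ∈ T, ((nk κ).divisors.card : ℝ) ^ b * (nk κ : ℝ) ^ (-(3 / 2 : ℝ)) =
      ∑ n ∈ T.image nk, ∑ κ ∈ T with nk κ = n, ((nk κ).divisors.card : ℝ) ^ b * (nk κ : ℝ) ^ (-(3 / 2 : ℝ)) := by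
    rw [sum_fiberwise_of_maps_to]
    intro κ hκ
    exact mem_image_of_mem _ hκ
  rw [h1]
  have h2 : ∀ n ∈ T.image nk, ∑ κ ∈ T with nk κ = n, ((nk κ).divisors.card : ℝ) ^ b * (nk κ : ℝ) ^ (-(3 / 2 : ℝ)) ≤
      C0 ^ m * (n : ℝ) ^ (-(5 / 4 : ℝ)) := by
    intro n hn
    rw [mem_image] at hn
    obtain ⟨κ0, hκ0, hn0⟩ := hn
    have hn1 : 1 ≤ n := by
      rw [← hn0]
      exact (KB6_nk Q r κ0 (hT κ0 hκ0)).2.1
    have hn1' : (1 : ℝ) ≤ n := by exact_mod_cast hn1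
    have hn0' : (0 : ℝ) < n := by linarith
    have h3 : ∑ κ ∈ T with nk κ = n, ((nk κ).divisors.card : ℝ) ^ b * (nk κ : ℝ) ^ (-(3 / 2 : ℝ)) =
        ((T.filter fun κ => nk κ = n).card : ℝ) * ((n.divisors.card : ℝ) ^ b * (n : ℝ) ^ (-(3 / 2 : ℝ))) := by
      rw [← nsmul_eq_mul, ← sum_const]
      refine sum_congr rfl fun κ hκ => ?_
      rw [mem_filter] at hκ
      rw [hκ.2]
    rw [h3]
    have h4 := kb8_fib Q r T hT n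
    have h5 : (n.divisors.card : ℝ) ^ m ≤ C0 ^ m * (n : ℝ) ^ (1 / 4 : ℝ) := by
      calc (n.divisors.card : ℝ) ^ m ≤ (C0 * (n : ℝ) ^ (1 / (4 * m) : ℝ)) ^ m :=
            pow_le_pow_left₀ (by positivity) (hd n hn1) m
        _ = C0 ^ m * (n : ℝ) ^ (1 / 4 : ℝ) := by
            rw [mul_pow, ← Real.rpow_mul_natCast hn0'.le]
            congr 2
            field_simp
    calc ((T.filter fun κ => nk κ = n).card : ℝ) * ((n.divisors.card : ℝ) ^ b * (n : ℝ) ^ (-(3 / 2 : ℝ))) ≤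
        (n.divisors.card : ℝ) ^ (2 ^ k) * ((n.divisors.card : ℝ) ^ b * (n : ℝ) ^ (-(3 / 2 : ℝ))) :=
          mul_le_mul_of_nonneg_right h4 (by positivity)
      _ = (n.divisors.card : ℝ) ^ m * (n : ℝ) ^ (-(3 / 2 : ℝ)) := by
          rw [hm, pow_add]
          ring
      _ ≤ C0 ^ m * (n : ℝ) ^ (1 / 4 : ℝ) * (n : ℝ) ^ (-(3 / 2 : ℝ)) := mul_le_mul_of_nonneg_right h5 (by positivity)
      _ = C0 ^ m * (n : ℝ) ^ (-(5 / 4 : ℝ)) := by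
          rw [mul_assoc, ← Real.rpow_add hn0']
          norm_num
  refine le_trans (sum_le_sum h2) ?_
  refine le_trans (hsum.sum_le_tsum (T.image nk) fun n _ => hnn n) ?_
  linarith

/-- Proof. `b`, `C1`, `e` from `KB7_av`, `ρ = min e (1/2)`. For `κ ∈ TK k Q Q' p`: with `ω0 = fun _ => false`: `Q' < r κ(ω0) ≤ r n`, `n = nk κ`
(`KB6_nk`), so `1 ≤ (r n / Q')^ρ` and `Av ≤ C1 r^(-e) d(n)^b n^(-2) (r n)^ρ Q'^(-ρ) ≤ C1 Q'^(-ρ) d(n)^b n^(-3/2)` (`r^(ρ-e) ≤ 1`, `n^(ρ-2) ≤ n^(-3/2)`). Sum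
with `KB8_series`. -/
theorem KB8_sum (k : ℕ) (hk : 1 ≤ k) : ∃ C ρ : ℝ, 0 < C ∧ 0 < ρ ∧ ρ ≤ 1 / 2 ∧ ∀ (Q Q' : ℕ), 1 ≤ Q' → ∀ p ∈ PC Q,
    ∑ κ ∈ TK k Q Q' p, Av k (p.1 * nk κ) (gt p κ) ≤ C * (Q' : ℝ) ^ (-ρ) := by
  obtain ⟨b, C1, e, hC1, he, _, hav⟩ := KB7_av k hk
  obtain ⟨C2, hC2, hser⟩ := KB8_series k b
  refine ⟨C1 * C2, min e (1 / 2), by positivity, lt_min he (by norm_num), min_le_right _ _, ?_⟩
  intro Q Q' hQ' p hp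
  have hT : ∀ κ ∈ TK k Q Q' p, ∀ ω, κ ω ∈ KS Q p.1 ∧ Q' < p.1 * κ ω := by
    intro κ hκ ω
    unfold TK at hκ
    rw [Fintype.mem_piFinset] at hκ
    exact mem_filter.1 (hκ ω)
  have hp1 : 1 ≤ p.1 := (Pool.Agent.Lib.H68T.mem_PC.1 hp).1
  have hx : (1 : ℝ) ≤ (p.1 : ℝ) := by exact_mod_cast hp1
  have hz : (1 : ℝ) ≤ (Q' : ℝ) := by exact_mod_cast hQ'
  have h1 : ∀ κ ∈ TK k Q Q' p, Av k (p.1 * nk κ) (gt p κ) ≤ C1 * (Q' : ℝ) ^ (-(min e (1 / 2))) *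
      (((nk κ).divisors.card : ℝ) ^ b * (nk κ : ℝ) ^ (-(3 / 2 : ℝ))) := by
    intro κ hκ
    have h2 := hav Q p hp κ fun ω => (hT κ hκ ω).1
    have h3 := KB6_nk Q p.1 κ fun ω => (hT κ hκ ω).1
    have hy : (1 : ℝ) ≤ (nk κ : ℝ) := by exact_mod_cast h3.2.1
    have hzx : (Q' : ℝ) ≤ (p.1 : ℝ) * (nk κ : ℝ) := by
      have h4 := (hT κ hκ fun _ => false).2
      have h5 : κ (fun _ => false) ≤ nk κ := Nat.le_of_dvd (by have := h3.2.1; omega) (h3.1 _)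
      have h6 : Q' ≤ p.1 * nk κ := le_trans h4.le (Nat.mul_le_mul_left _ h5)
      exact_mod_cast h6
    have h7 := kb8_num (p.1 : ℝ) (nk κ : ℝ) (Q' : ℝ) e (min e (1 / 2)) (((nk κ).divisors.card : ℝ) ^ b) hx hy hz hzx
      (le_min he.le (by norm_num)) (min_le_left _ _) (min_le_right _ _) (by positivity)
    calc Av k (p.1 * nk κ) (gt p κ) ≤ C1 * (p.1 : ℝ) ^ (-e) * (((nk κ).divisors.card : ℝ) ^ b / (nk κ : ℝ) ^ 2) := h2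
      _ = C1 * ((p.1 : ℝ) ^ (-e) * (((nk κ).divisors.card : ℝ) ^ b / (nk κ : ℝ) ^ 2)) := by ring
      _ ≤ C1 * ((Q' : ℝ) ^ (-(min e (1 / 2))) * (((nk κ).divisors.card : ℝ) ^ b * (nk κ : ℝ) ^ (-(3 / 2 : ℝ)))) :=
          mul_le_mul_of_nonneg_left h7 hC1.le
      _ = _ := by ring
  refine le_trans (sum_le_sum h1) ?_
  rw [← mul_sum]
  have h8 := hser Q p.1 (TK k Q Q' p) fun κ hκ ω => (hT κ hκ ω).1
  calc C1 * (Q' : ℝ) ^ (-(min e (1 / 2))) *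
      ∑ κ ∈ TK k Q Q' p, (((nk κ).divisors.card : ℝ) ^ b * (nk κ : ℝ) ^ (-(3 / 2 : ℝ))) ≤
      C1 * (Q' : ℝ) ^ (-(min e (1 / 2))) * C2 := mul_le_mul_of_nonneg_left h8 (by positivity)
    _ = C1 * C2 * (Q' : ℝ) ^ (-(min e (1 / 2))) := by ring

end Pool.Agent.HUK
end

-- from Lib.HUK.KB9
section

/-!
# Project HUK, chunk KB9 (M): small cubes for the components of large modulus
-/

open Finset

namespace Pool.Agent.HUK

open Pool.Agent.Lib.H68T (PC)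
open Pool.Agent.Lib.H18Q (gk KS)
open Pool.Agent.Lib.H59P (Ch gl)
open Pool.Agent.Lib.H59T (Vl)

theorem kb9_cj_sum {ι : Type*} (n : ℕ) (T : Finset ι) (g : ι → ℂ) : cj n (∑ i ∈ T, g i) = ∑ i ∈ T, cj n (g i) := by
  unfold cj
  split_ifs
  · rfl
  · exact map_sum _ _ _

theorem kb9_card (k Q Q' : ℕ) (p : Ch) : (TK k Q Q' p).card ≤ Q ^ 2 ^ k := by
  unfold TK
  rw [Fintype.card_piFinset, prod_const, card_univ, Fintype.card_fun, Fintype.card_bool, Fintype.card_fin]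
  refine Nat.pow_le_pow_left ?_ _
  refine le_trans (card_filter_le _ _) ?_
  unfold KS
  refine le_trans (card_filter_le _ _) ?_
  rw [Nat.card_Icc, Nat.add_sub_cancel]
  exact Nat.div_le_self _ _

/-- Proof. `DL_prod` (`P0.lean`), definition of `Vl`, `cj n` is additive, `Finset.prod_univ_sum`. -/
theorem KB9_expand (k Q Q' : ℕ) (p : Ch) (y : ℤ) (h : Fin k → ℤ) :
    DL (List.ofFn fun i => lam k i * h i) (Vl Q Q' p) y = ∑ κ ∈ TK k Q Q' p, gt p κ y h := by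
  rw [DL_prod]
  have h1 : ∀ ω : Fin k → Bool, cj (sg ω) (Vl Q Q' p (y + vt ω (fun i => lam k i * h i))) =
      ∑ κ ∈ (KS Q p.1).filter (fun κ => Q' < p.1 * κ), cj (sg ω) (gk p κ (y + vl ω h)) := by
    intro ω
    unfold Vl
    rw [kb9_cj_sum]
    rfl
  rw [prod_congr rfl fun ω _ => h1 ω, prod_univ_sum]
  rfl

/-- Proof. `C1`, `ρ` from `KB8_sum`. `KB9_expand`, triangle inequality, `KB3_long` for each `κ` with `M = p.1 * nk κ ≤ Q^(2^k+1) ≤ H`, `S = Q^(2^k)` (`KB7_per`), at most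
`Q^(2^k)` tuples: total at most `4^k H^(k+1) C1 Q'^(-ρ) + Q^(2^k) (2 H)^k Q^(2^k+1) Q^(2^k)`, and
`Q^(3 * 2^k + 1) ≤ H / Q ≤ H Q'^(-ρ)` (`Q' ≤ Q`, `ρ ≤ 1`). `C = 4^k C1 + 2^k`. -/
theorem KB9_cube (k : ℕ) (hk : 1 ≤ k) : ∃ C ρ : ℝ, 0 < C ∧ 0 < ρ ∧ ρ ≤ 1 / 2 ∧ ∀ (Q Q' H : ℕ), 1 ≤ Q' → Q' ≤ Q →
    Q ^ (3 * 2 ^ k + 2) ≤ H → ∀ p ∈ PC Q, ∀ n : ℤ,
    ∑ j ∈ bxS k H, ‖∑ l ∈ range H, DL (List.ofFn fun i => lam k i * j i) (Vl Q Q' p) (n + l)‖ ≤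
      C * (H : ℝ) ^ (k + 1) * (Q' : ℝ) ^ (-ρ) := by
  obtain ⟨C1, ρ, hC1, hρ, hρ2, hsum⟩ := KB8_sum k hk
  refine ⟨4 ^ k * C1 + 2 ^ k, ρ, by positivity, hρ, hρ2, ?_⟩
  intro Q Q' H hQ' hQQ hH p hp n
  have hQ1 : 1 ≤ Q := le_trans hQ' hQQ
  have hp1 : 1 ≤ p.1 := (Pool.Agent.Lib.H68T.mem_PC.1 hp).1
  have hT : ∀ κ ∈ TK k Q Q' p, ∀ ω, κ ω ∈ KS Q p.1 := by
    intro κ hκ ω
    unfold TK at hκ
    rw [Fintype.mem_piFinset] at hκ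
    exact (mem_filter.1 (hκ ω)).1
  have h1 : ∑ j ∈ bxS k H, ‖∑ l ∈ range H, DL (List.ofFn fun i => lam k i * j i) (Vl Q Q' p) (n + l)‖ ≤
      ∑ κ ∈ TK k Q Q' p, ∑ j ∈ bxS k H, ‖∑ l ∈ range H, gt p κ (n + l) j‖ := by
    rw [sum_comm]
    refine sum_le_sum fun j _ => ?_
    have h2 : ∑ l ∈ range H, DL (List.ofFn fun i => lam k i * j i) (Vl Q Q' p) (n + l) =
        ∑ κ ∈ TK k Q Q' p, ∑ l ∈ range H, gt p κ (n + l) j := by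
      rw [sum_comm]
      exact sum_congr rfl fun l _ => KB9_expand k Q Q' p (n + l) j
    rw [h2]
    exact norm_sum_le _ _
  have hone : ∀ κ ∈ TK k Q Q' p, ∑ j ∈ bxS k H, ‖∑ l ∈ range H, gt p κ (n + l) j‖ ≤
      4 ^ k * (H : ℝ) ^ (k + 1) * Av k (p.1 * nk κ) (gt p κ) + (2 * H) ^ k * ((Q : ℝ) ^ (2 ^ k + 1)) * (Q : ℝ) ^ (2 ^ k) := by
    intro κ hκ
    have h3 := KB7_per Q p hp κ (hT κ hκ)
    have h4 := KB6_nk Q p.1 κ (hT κ hκ)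
    have h5 : 1 ≤ p.1 * nk κ := Nat.mul_pos hp1 h4.2.1
    have h6 : p.1 * nk κ ≤ H := by
      refine le_trans h3.2.2 (le_trans (Nat.pow_le_pow_right hQ1 ?_) hH)
      omega
    have h7 := KB3_long (p.1 * nk κ) H h5 h6 (gt p κ) h3.1 ((Q : ℝ) ^ (2 ^ k)) h3.2.1 n
    have h8 : ((p.1 * nk κ : ℕ) : ℝ) ≤ (Q : ℝ) ^ (2 ^ k + 1) := by exact_mod_cast h3.2.2
    have h9 : (2 * (H : ℝ)) ^ k * ((p.1 * nk κ : ℕ) : ℝ) * (Q : ℝ) ^ (2 ^ k) ≤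
        (2 * H) ^ k * ((Q : ℝ) ^ (2 ^ k + 1)) * (Q : ℝ) ^ (2 ^ k) :=
      mul_le_mul_of_nonneg_right (mul_le_mul_of_nonneg_left h8 (by positivity)) (by positivity)
    linarith
  have h10 : ∑ κ ∈ TK k Q Q' p, ∑ j ∈ bxS k H, ‖∑ l ∈ range H, gt p κ (n + l) j‖ ≤
      4 ^ k * (H : ℝ) ^ (k + 1) * (C1 * (Q' : ℝ) ^ (-ρ)) +
        (Q : ℝ) ^ (2 ^ k) * ((2 * H) ^ k * ((Q : ℝ) ^ (2 ^ k + 1)) * (Q : ℝ) ^ (2 ^ k)) := by
    refine le_trans (sum_le_sum hone) ?_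
    rw [sum_add_distrib, ← mul_sum, sum_const, nsmul_eq_mul]
    refine add_le_add ?_ ?_
    · exact mul_le_mul_of_nonneg_left (hsum Q Q' hQ' p hp) (by positivity)
    · refine mul_le_mul_of_nonneg_right ?_ (by positivity)
      exact_mod_cast kb9_card k Q Q' p
  have hz : (1 : ℝ) ≤ (Q' : ℝ) := by exact_mod_cast hQ'
  have hz0 : (0 : ℝ) < (Q' : ℝ) := by linarith
  have hQR : (0 : ℝ) < (Q : ℝ) := by exact_mod_cast hQ1
  have h11 : (Q : ℝ) ^ (3 * 2 ^ k + 1) ≤ H * (Q' : ℝ) ^ (-ρ) := by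
    have h12 : (Q' : ℝ) ^ ρ ≤ Q := by
      calc (Q' : ℝ) ^ ρ ≤ (Q' : ℝ) ^ (1 : ℝ) := Real.rpow_le_rpow_of_exponent_le hz (by linarith)
        _ = Q' := Real.rpow_one _
        _ ≤ Q := by exact_mod_cast hQQ
    have h13 : (Q : ℝ) ^ (3 * 2 ^ k + 1) * (Q' : ℝ) ^ ρ ≤ H := by
      calc (Q : ℝ) ^ (3 * 2 ^ k + 1) * (Q' : ℝ) ^ ρ ≤ (Q : ℝ) ^ (3 * 2 ^ k + 1) * Q :=
            mul_le_mul_of_nonneg_left h12 (by positivity)
        _ = (Q : ℝ) ^ (3 * 2 ^ k + 2) := by rw [← pow_succ]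
        _ ≤ H := by exact_mod_cast hH
    rw [Real.rpow_neg hz0.le, ← div_eq_mul_inv, le_div_iff₀ (by positivity)]
    exact h13
  have h14 : (Q : ℝ) ^ (2 ^ k) * ((2 * H) ^ k * ((Q : ℝ) ^ (2 ^ k + 1)) * (Q : ℝ) ^ (2 ^ k)) =
      2 ^ k * (H : ℝ) ^ k * (Q : ℝ) ^ (3 * 2 ^ k + 1) := by
    rw [mul_pow]
    ring
  rw [h14] at h10
  have h15 : 2 ^ k * (H : ℝ) ^ k * (Q : ℝ) ^ (3 * 2 ^ k + 1) ≤ 2 ^ k * (H : ℝ) ^ k * (H * (Q' : ℝ) ^ (-ρ)) :=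
    mul_le_mul_of_nonneg_left h11 (by positivity)
  calc ∑ j ∈ bxS k H, ‖∑ l ∈ range H, DL (List.ofFn fun i => lam k i * j i) (Vl Q Q' p) (n + l)‖ ≤ _ := h1
    _ ≤ 4 ^ k * (H : ℝ) ^ (k + 1) * (C1 * (Q' : ℝ) ^ (-ρ)) + 2 ^ k * (H : ℝ) ^ k * (Q : ℝ) ^ (3 * 2 ^ k + 1) := h10
    _ ≤ 4 ^ k * (H : ℝ) ^ (k + 1) * (C1 * (Q' : ℝ) ^ (-ρ)) + 2 ^ k * (H : ℝ) ^ k * (H * (Q' : ℝ) ^ (-ρ)) := by linarith
    _ = (4 ^ k * C1 + 2 ^ k) * (H : ℝ) ^ (k + 1) * (Q' : ℝ) ^ (-ρ) := by ring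

end Pool.Agent.HUK
end

-- from Lib.HUK.KB12
section

/-!
# Project HUK, chunk KB12 (M): one character
-/

open Finset

namespace Pool.Agent.HUK

open Pool.Agent.Lib.H68T (PC)
open Pool.Agent.Lib.H59P (Ch)
open Pool.Agent.Lib.H59T (Vl)
open Pool.Agent.H9U (JJ)

/-- Proof. `C1`, `ρ` from `KB9_cube`, `C2` from `KB10_frozen`; `H = Q^(3 * 2^k + 2)`, `A = 3 * 2^k + 2 + 2^(k+1) + 8`. `F m = β m * Vl Q Q' p m` on `JJ X = Ico (2X) (2X + X/4)`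
(contained in `[X, 4X]`), `0` else. `KB10_frozen` with `u = 2X`, `v = 2X + X/4`, `S = Q²` (`UF_sup` in `H59T/UF.lean`), `δ = Q^6 / X`:
`∑_j ‖∑_n DL .. F n‖ ≤ (X/4) C1 H^k Q'^(-ρ) + C2 H^k Q^(2^(k+1)) (X H Q^6 / X + H) ≤ H^k X (C1 Q'^(-ρ) + 2 C2 Q^(2^(k+1) + 6) H / X)`, and
`Q^(2^(k+1)+6) H / X ≤ 1/Q ≤ Q'^(-ρ)` as `Q^A ≤ X`. `KB11_elim` (`H ≤ Q^A ≤ X`), root of order `2^k`: `ρ' = ρ / 2^k`,
`C = 2 (k+1) (4B+1) (C1 + 2 C2 + 1)`. (`Q = 0` is impossible: `1 ≤ Q' ≤ Q`.) -/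
theorem KB12_one (k : ℕ) (hk : 1 ≤ k) (B : ℕ) : ∃ (A : ℕ) (C ρ : ℝ), 0 < C ∧ 0 < ρ ∧ ρ ≤ 1 ∧ ∀ (Q Q' X : ℕ), 1 ≤ Q' → Q' ≤ Q →
    Q ^ A ≤ X → ∀ p ∈ PC Q, ∀ β : ℤ → ℂ, (∀ m : ℤ, (X : ℤ) ≤ m → m ≤ 4 * X → ‖β m‖ ≤ 1) →
    (∀ m : ℤ, (X : ℤ) ≤ m → m + 1 ≤ 4 * X → ‖β (m + 1) - β m‖ ≤ (Q : ℝ) ^ 6 / X) →
    ∀ f : ℕ → ℤ → ℂ, (∀ j, j < k → ∀ y, ‖f j y‖ ≤ 1) →
    ‖∑ n ∈ JJ X, β n * Vl Q Q' p n * Psi (B * X) k f n‖ ≤ C * (X : ℝ) ^ 2 * (Q' : ℝ) ^ (-ρ) := by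
  obtain ⟨C1, ρ, hC1, hρ, hρ2, h9⟩ := KB9_cube k hk
  obtain ⟨C2, hC2, h10⟩ := KB10_frozen k
  refine ⟨2 ^ (k + 1) + 6 + (3 * 2 ^ k + 2) + 1, 2 * (k + 1) * (4 * B + 1) * (C1 + 2 * C2 + 1), ρ / 2 ^ k, by positivity, by positivity,
    ?_, ?_⟩
  · rw [div_le_one (by positivity)]
    have h1 : (1 : ℝ) ≤ 2 ^ k := one_le_pow₀ (by norm_num)
    linarith
  intro Q Q' X hQ' hQQ hQX p hp β hβ hβ' f hf
  have hQ1 : 1 ≤ Q := hQ'.trans hQQ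
  have hQr : (1 : ℝ) ≤ Q := by exact_mod_cast hQ1
  have hQ'r : (1 : ℝ) ≤ Q' := by exact_mod_cast hQ'
  have hQQr : (Q' : ℝ) ≤ Q := by exact_mod_cast hQQ
  obtain ⟨H, hH⟩ : ∃ H, H = Q ^ (3 * 2 ^ k + 2) := ⟨_, rfl⟩
  have hH1 : 1 ≤ H := by
    rw [hH]
    exact Nat.one_le_pow _ _ hQ1
  have hHX : H ≤ X := by
    rw [hH]
    exact (Nat.pow_le_pow_right hQ1 (by omega)).trans hQX
  have hX1 : 1 ≤ X := hH1.trans hHX
  have hXr : (1 : ℝ) ≤ X := by exact_mod_cast hX1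
  have hXpos : (0 : ℝ) < X := by linarith
  have hHr : (1 : ℝ) ≤ H := by exact_mod_cast hH1
  have hHpos : (0 : ℝ) < H := by linarith
  obtain ⟨F, hF⟩ : ∃ F : ℤ → ℂ, F = fun m => if m ∈ JJ X then β m * Vl Q Q' p m else 0 := ⟨_, rfl⟩
  have hF0 : ∀ m, m ∉ JJ X → F m = 0 := by
    intro m hm
    rw [hF]
    exact if_neg hm
  have hsum : ∑ n ∈ JJ X, β n * Vl Q Q' p n * Psi (B * X) k f n = ∑ n ∈ JJ X, F n * Psi (B * X) k f n := by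
    refine Finset.sum_congr rfl fun n hn => ?_
    rw [hF]
    simp only [if_pos hn]
  have hρ0 : 0 < (Q' : ℝ) ^ (-ρ) := Real.rpow_pos_of_pos (by linarith) _
  -- small averages
  have hJJ : ((JJ X).card : ℝ) ≤ X := by
    have h1 : (JJ X).card ≤ X := by
      unfold JJ
      rw [Int.card_Ico]
      omega
    exact_mod_cast h1
  have hs1 : (∑ n ∈ JJ X, ∑ j ∈ bxS k H, ‖∑ l ∈ range H, DL (List.ofFn fun i => lam k i * j i) (Vl Q Q' p) (n + l)‖) / H ≤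
      X * (C1 * (H : ℝ) ^ k * (Q' : ℝ) ^ (-ρ)) := by
    rw [div_le_iff₀ hHpos]
    refine (Finset.sum_le_sum fun n _ => h9 Q Q' H hQ' hQQ (le_of_eq hH.symm) p hp n).trans ?_
    rw [Finset.sum_const, nsmul_eq_mul]
    refine (mul_le_mul_of_nonneg_right hJJ (by positivity)).trans (le_of_eq ?_)
    rw [pow_succ]
    ring
  have hfro := h10 β (Vl Q Q' p) ((Q : ℝ) ^ 2) ((Q : ℝ) ^ 6 / X) (2 * (X : ℤ)) (2 * X + X / 4) H hH1 (by omega)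
    (one_le_pow₀ hQr) (by positivity) (fun m h1 h2 => hβ m (by omega) (by omega)) (fun m h1 h2 => hβ' m (by omega) (by omega))
    (fun m => Pool.Agent.Lib.H59T.UF_sup Q Q' p hp m)
  have hvu : (((2 * X + X / 4 : ℤ) : ℝ) - ((2 * (X : ℤ) : ℤ) : ℝ)) ≤ X := by
    rw [← Int.cast_sub]
    have h1 : (2 * X + X / 4 : ℤ) - (2 * (X : ℤ)) ≤ X := by omega
    exact_mod_cast h1
  have hE : C2 * (H : ℝ) ^ k * ((Q : ℝ) ^ 2) ^ (2 ^ k) *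
      ((((2 * X + X / 4 : ℤ) : ℝ) - ((2 * (X : ℤ) : ℤ) : ℝ)) * (H * ((Q : ℝ) ^ 6 / X)) + H) ≤
      (H : ℝ) ^ k * X * (2 * C2 * (Q' : ℝ) ^ (-ρ)) := by
    have h1 : (((2 * X + X / 4 : ℤ) : ℝ) - ((2 * (X : ℤ) : ℤ) : ℝ)) * (H * ((Q : ℝ) ^ 6 / X)) + H ≤ 2 * (H * (Q : ℝ) ^ 6) := by
      have h2 : (((2 * X + X / 4 : ℤ) : ℝ) - ((2 * (X : ℤ) : ℤ) : ℝ)) * (H * ((Q : ℝ) ^ 6 / X)) ≤ X * (H * ((Q : ℝ) ^ 6 / X)) :=
        mul_le_mul_of_nonneg_right hvu (by positivity)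
      have h3 : (X : ℝ) * (H * ((Q : ℝ) ^ 6 / X)) = H * (Q : ℝ) ^ 6 := by
        field_simp
      have h4 : (H : ℝ) * 1 ≤ H * (Q : ℝ) ^ 6 := mul_le_mul_of_nonneg_left (one_le_pow₀ hQr) hHpos.le
      linarith
    have h2 : ((Q : ℝ) ^ 2) ^ (2 ^ k) * (H * (Q : ℝ) ^ 6) * Q ≤ X := by
      have h3 : ((Q : ℝ) ^ 2) ^ (2 ^ k) * (H * (Q : ℝ) ^ 6) * Q = (Q : ℝ) ^ (2 ^ (k + 1) + 6 + (3 * 2 ^ k + 2) + 1) := by
        rw [hH, Nat.cast_pow, ← pow_mul, ← pow_add, ← pow_add, ← pow_succ]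
        congr 1
        ring
      rw [h3]
      exact_mod_cast hQX
    have h3 : ((Q : ℝ) ^ 2) ^ (2 ^ k) * (H * (Q : ℝ) ^ 6) ≤ X * (Q' : ℝ) ^ (-ρ) := by
      have h4 : (Q : ℝ)⁻¹ ≤ (Q' : ℝ) ^ (-ρ) := by
        have h5 : (Q' : ℝ) ^ (-1 : ℝ) ≤ (Q' : ℝ) ^ (-ρ) := Real.rpow_le_rpow_of_exponent_le hQ'r (by linarith)
        rw [Real.rpow_neg_one] at h5
        exact le_trans (inv_anti₀ (by linarith) hQQr) h5
      have h5 : ((Q : ℝ) ^ 2) ^ (2 ^ k) * (H * (Q : ℝ) ^ 6) ≤ X * (Q : ℝ)⁻¹ := by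
        rw [← div_eq_mul_inv, le_div_iff₀ (by linarith)]
        exact h2
      exact h5.trans (mul_le_mul_of_nonneg_left h4 hXpos.le)
    calc C2 * (H : ℝ) ^ k * ((Q : ℝ) ^ 2) ^ (2 ^ k) *
        ((((2 * X + X / 4 : ℤ) : ℝ) - ((2 * (X : ℤ) : ℤ) : ℝ)) * (H * ((Q : ℝ) ^ 6 / X)) + H)
        ≤ C2 * (H : ℝ) ^ k * ((Q : ℝ) ^ 2) ^ (2 ^ k) * (2 * (H * (Q : ℝ) ^ 6)) :=
          mul_le_mul_of_nonneg_left h1 (by positivity)
      _ = 2 * C2 * (H : ℝ) ^ k * (((Q : ℝ) ^ 2) ^ (2 ^ k) * (H * (Q : ℝ) ^ 6)) := by ring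
      _ ≤ 2 * C2 * (H : ℝ) ^ k * (X * (Q' : ℝ) ^ (-ρ)) := mul_le_mul_of_nonneg_left h3 (by positivity)
      _ = (H : ℝ) ^ k * X * (2 * C2 * (Q' : ℝ) ^ (-ρ)) := by ring
  have hDL : (∑ j ∈ bxS k H, ‖∑ n ∈ JJ X, DL (List.ofFn fun i => lam k i * j i) F n‖) / ((H : ℝ) ^ k * X) ≤
      (C1 + 2 * C2) * (Q' : ℝ) ^ (-ρ) := by
    rw [div_le_iff₀ (by positivity)]
    have h1 : ∑ j ∈ bxS k H, ‖∑ n ∈ JJ X, DL (List.ofFn fun i => lam k i * j i) F n‖ ≤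
        (∑ n ∈ JJ X, ∑ j ∈ bxS k H, ‖∑ l ∈ range H, DL (List.ofFn fun i => lam k i * j i) (Vl Q Q' p) (n + l)‖) / H +
        C2 * (H : ℝ) ^ k * ((Q : ℝ) ^ 2) ^ (2 ^ k) *
        ((((2 * X + X / 4 : ℤ) : ℝ) - ((2 * (X : ℤ) : ℤ) : ℝ)) * (H * ((Q : ℝ) ^ 6 / X)) + H) := by
      rw [hF]
      exact hfro
    refine h1.trans ((add_le_add hs1 hE).trans (le_of_eq ?_))
    ring
  have hel := KB11_elim k B X H hX1 hH1 hHX F hF0 f hf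
  rw [hsum]
  have hpow : ‖∑ n ∈ JJ X, F n * Psi (B * X) k f n‖ ^ (2 ^ k) ≤
      (2 * (k + 1) * (4 * B + 1) * (C1 + 2 * C2 + 1) * (X : ℝ) ^ 2 * (Q' : ℝ) ^ (-(ρ / 2 ^ k))) ^ (2 ^ k) := by
    refine hel.trans ?_
    have h1 : (2 * (k + 1) * (4 * B + 1) * (C1 + 2 * C2 + 1) * (X : ℝ) ^ 2 * (Q' : ℝ) ^ (-(ρ / 2 ^ k))) ^ (2 ^ k) =
        (2 * (k + 1) * (4 * B + 1) * (X : ℝ) ^ 2) ^ (2 ^ k) * ((C1 + 2 * C2 + 1) ^ (2 ^ k) * (Q' : ℝ) ^ (-ρ)) := by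
      have h2 : ((Q' : ℝ) ^ (-(ρ / 2 ^ k))) ^ (2 ^ k) = (Q' : ℝ) ^ (-ρ) := by
        rw [← Real.rpow_natCast, ← Real.rpow_mul (by linarith)]
        congr 1
        push_cast
        field_simp
      have h3 : 2 * ((k : ℝ) + 1) * (4 * B + 1) * (C1 + 2 * C2 + 1) * (X : ℝ) ^ 2 * (Q' : ℝ) ^ (-(ρ / 2 ^ k)) =
          (2 * (k + 1) * (4 * B + 1) * (X : ℝ) ^ 2) * ((C1 + 2 * C2 + 1) * (Q' : ℝ) ^ (-(ρ / 2 ^ k))) := by ring
      rw [h3, mul_pow, mul_pow (C1 + 2 * C2 + 1), h2]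
    rw [h1]
    refine mul_le_mul_of_nonneg_left (hDL.trans (mul_le_mul_of_nonneg_right ?_ hρ0.le)) (by positivity)
    have h2 : (1 : ℝ) ≤ C1 + 2 * C2 + 1 := by linarith
    calc C1 + 2 * C2 ≤ (C1 + 2 * C2 + 1) ^ 1 := by rw [pow_one]; linarith
      _ ≤ (C1 + 2 * C2 + 1) ^ (2 ^ k) := pow_le_pow_right₀ h2 (Nat.one_le_two_pow)
  exact le_of_pow_le_pow_left₀ (by positivity) (by positivity) hpow

end Pool.Agent.HUK
end

-- from Lib.HUK.KB13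
section

/-!
# Project HUK, chunk KB13 (M): the interface `LKP k`
-/

open Finset

namespace Pool.Agent.HUK

open Pool.Agent.Lib.H59T Pool.Agent.Lib.H68T Pool.Agent.Lib.H18Q
open Pool.Agent.H9U (JJ)

/-- Proof. Copy of the proof of `LK_diff` in `H59T/UL.lean` with `KB12_one` instead of `UB_one` and one sum over `n ∈ JJ X` (contained in `[X, 4X]`) instead of
the double sum. `UL_expand` (regime `K1`), `UM_mass` (`K2`, `C2`), `Bc_lip` (`K3`), `regp_pow_le 2 A 1` (`K4`: `Q^A ≤ X`). `w_p = mb p + Q^(-3)`,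
`β_p m = Bc Q X p m / w_p`: at most `1`, Lipschitz with `(Q³ / (2X)) Q³ ≤ Q^6 / X`; `∑_p w_p ≤ C2 + 1` (`card_PC_le`). -/
theorem LKP_all (k : ℕ) (hk : 1 ≤ k) : LKP k := by
  intro B
  obtain ⟨A, C5, ρ, hC5, hρ, -, h5⟩ := KB12_one k hk B
  obtain ⟨K1, hK1, h1⟩ := UL_expand
  obtain ⟨K2, C2, hK2, hC2, h2⟩ := UM_mass
  obtain ⟨K3, hK3, h3⟩ := Bc_lip
  obtain ⟨K4, hK4, h4⟩ := regp_pow_le 1 A 1 one_pos
  refine ⟨max (max K1 K2) (max K3 K4), C5 * (C2 + 1), ρ, hK1.trans ((le_max_left _ _).trans (le_max_left _ _)),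
    by positivity, hρ, ?_⟩
  intro Q Q' X hreg hQ'1 hQ'Q f hf
  have hK0 : 0 ≤ max (max K1 K2) (max K3 K4) := by
    have := (le_max_left K1 K2).trans (le_max_left (max K1 K2) (max K3 K4))
    linarith
  have r1 := hreg.mono hK0 ((le_max_left K1 K2).trans (le_max_left _ _))
  have r2 := hreg.mono hK0 ((le_max_right K1 K2).trans (le_max_left _ _))
  have r3 := hreg.mono hK0 ((le_max_left K3 K4).trans (le_max_right _ _))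
  have r4 := hreg.mono hK0 ((le_max_right K3 K4).trans (le_max_right _ _))
  have hQ1 : 1 ≤ Q := hQ'1.trans hQ'Q
  have hQR : (1 : ℝ) ≤ Q := by exact_mod_cast hQ1
  have hQ0 : (0 : ℝ) < Q := by linarith
  have hX0 : 0 < X := r1.X_pos (by linarith)
  have hX0' : (0 : ℝ) < X := by exact_mod_cast hX0
  have hQA : Q ^ A ≤ X := by
    have h6 := h4 Q X r4
    rw [one_mul, Real.rpow_one, Real.rpow_natCast] at h6
    exact_mod_cast h6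
  obtain ⟨mb, hmb0, hmbs, hmb⟩ := h2 Q X r2
  have hwp : ∀ p ∈ PC Q, 0 < mb p + ((Q : ℝ) ^ 3)⁻¹ := fun p hp => by
    have := hmb0 p hp
    positivity
  have hsum : ∑ p ∈ PC Q, (mb p + ((Q : ℝ) ^ 3)⁻¹) ≤ C2 + 1 := by
    rw [Finset.sum_add_distrib, Finset.sum_const, nsmul_eq_mul]
    have h8 : ((PC Q).card : ℝ) * ((Q : ℝ) ^ 3)⁻¹ ≤ 1 := by
      rw [← div_eq_mul_inv, div_le_one (by positivity)]
      have h9 : ((PC Q).card : ℝ) ≤ (Q : ℝ) ^ 2 := by exact_mod_cast card_PC_le Q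
      refine h9.trans ?_
      exact pow_le_pow_right₀ hQR (by norm_num)
    linarith
  have hJ : ∀ n ∈ JJ X, (X : ℤ) ≤ n ∧ n ≤ 4 * X := by
    intro n hn
    unfold JJ at hn
    rw [Finset.mem_Ico] at hn
    omega
  have hexp : ∀ n ∈ JJ X, ((Lk Q (X / Q ^ 2) n - Lk Q' (X / Q ^ 2) n : ℝ) : ℂ) * Psi (B * X) k f n =
      ∑ p ∈ PC Q, ((mb p + ((Q : ℝ) ^ 3)⁻¹ : ℝ) : ℂ) *
        ((Bc Q X p n / ((mb p + ((Q : ℝ) ^ 3)⁻¹ : ℝ) : ℂ)) * Vl Q Q' p n * Psi (B * X) k f n) := by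
    intro n hn
    rw [h1 Q Q' X r1 hQ'1 hQ'Q n (hJ n hn).1 (hJ n hn).2, Finset.sum_mul]
    refine Finset.sum_congr rfl fun p hp => ?_
    have h10 : ((mb p + ((Q : ℝ) ^ 3)⁻¹ : ℝ) : ℂ) ≠ 0 := by exact_mod_cast (hwp p hp).ne'
    generalize ((mb p + ((Q : ℝ) ^ 3)⁻¹ : ℝ) : ℂ) = c at h10 ⊢
    have h11 : Bc Q X p n = c * (Bc Q X p n / c) := by rw [mul_div_cancel₀ _ h10]
    rw [h11]
    rw [mul_div_cancel_left₀ _ h10]
    ring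
  rw [Finset.sum_congr rfl hexp, Finset.sum_comm]
  have hQ'0 : (0 : ℝ) ≤ (X : ℝ) ^ 2 * (Q' : ℝ) ^ (-ρ) :=
    mul_nonneg (by positivity) (Real.rpow_nonneg (Nat.cast_nonneg _) _)
  have hone : ∀ p ∈ PC Q, ‖∑ n ∈ JJ X, ((mb p + ((Q : ℝ) ^ 3)⁻¹ : ℝ) : ℂ) *
        ((Bc Q X p n / ((mb p + ((Q : ℝ) ^ 3)⁻¹ : ℝ) : ℂ)) * Vl Q Q' p n * Psi (B * X) k f n)‖ ≤
      (mb p + ((Q : ℝ) ^ 3)⁻¹) * (C5 * (X : ℝ) ^ 2 * (Q' : ℝ) ^ (-ρ)) := by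
    intro p hp
    have hw := hwp p hp
    rw [← Finset.mul_sum, norm_mul, Complex.norm_real, Real.norm_eq_abs, abs_of_pos hw]
    refine mul_le_mul_of_nonneg_left ?_ hw.le
    refine h5 Q Q' X hQ'1 hQ'Q hQA p hp (fun m => Bc Q X p m / ((mb p + ((Q : ℝ) ^ 3)⁻¹ : ℝ) : ℂ)) ?_ ?_
      f (fun j hj y => (hf j hj).le y)
    · intro m hm hm4
      rw [norm_div, Complex.norm_real, Real.norm_eq_abs, abs_of_pos hw, div_le_one hw]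
      have h11 := hmb m hm hm4 p hp
      have h12 : 0 ≤ ((Q : ℝ) ^ 3)⁻¹ := by positivity
      linarith
    · intro m hm hm4
      rw [← sub_div, norm_div, Complex.norm_real, Real.norm_eq_abs, abs_of_pos hw]
      have h13 := h3 Q X r3 p m hm (by omega)
      have h14 : ((Q : ℝ) ^ 3)⁻¹ ≤ mb p + ((Q : ℝ) ^ 3)⁻¹ := by linarith [hmb0 p hp]
      have h15 : 0 < ((Q : ℝ) ^ 3)⁻¹ := by positivity
      calc ‖Bc Q X p (m + 1) - Bc Q X p m‖ / (mb p + ((Q : ℝ) ^ 3)⁻¹)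
          ≤ ((Q : ℝ) ^ 3 / (2 * X)) / ((Q : ℝ) ^ 3)⁻¹ :=
            div_le_div₀ (by positivity) h13 h15 h14
        _ = (Q : ℝ) ^ 6 / X * (1 / 2) := by
            field_simp
        _ ≤ (Q : ℝ) ^ 6 / X := by
            have h16 : 0 ≤ (Q : ℝ) ^ 6 / X := by positivity
            linarith
  refine (norm_sum_le _ _).trans ((Finset.sum_le_sum hone).trans ?_)
  rw [← Finset.sum_mul]
  calc (∑ p ∈ PC Q, (mb p + ((Q : ℝ) ^ 3)⁻¹)) * (C5 * (X : ℝ) ^ 2 * (Q' : ℝ) ^ (-ρ))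
      ≤ (C2 + 1) * (C5 * (X : ℝ) ^ 2 * (Q' : ℝ) ^ (-ρ)) := by
        refine mul_le_mul_of_nonneg_right hsum ?_
        have := mul_nonneg hC5.le hQ'0
        linarith
    _ = C5 * (C2 + 1) * (X : ℝ) ^ 2 * (Q' : ℝ) ^ (-ρ) := by ring

end Pool.Agent.HUK
end
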