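import Pool.Agent.Lib.H59M.M2.M063
import Pool.Agent.Lib.H59M.M2.M077
import Pool.Agent.Lib.H59M.M2.M087
import Pool.Agent.Lib.H59M.M2.M088
import Pool.Agent.Lib.H59M.M2.M094
import Pool.Agent.Lib.H59M.M2.M095
import Pool.Agent.Lib.H59M.M2.M098
import Pool.Agent.Lib.H59M.M2.M099
import Pool.Agent.Lib.H59M.M2.M104

/-! Merged copies (to shorten the build) of Lib.H24P.W2, Lib.H24P.W3, Lib.HUP.R1, Lib.HUP.R2, Lib.H9P.U2, Lib.HUP.FGL0, Lib.HUP.FGL1. -/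

-- from Lib.H24P.W2
section

/-!
# Project H24P, chunk W2 (M): the linear coordinate minus its projection
-/

open Finset Polynomial

namespace Pool.Agent.Lib.H24P

open Pool.Agent.Lib.H68T Pool.Agent.Lib.H18Q Pool.Agent.Lib.H59P

/-- The primes minus the projection at level `Q^100` at the linear coordinate. -/
noncomputable def fB (Q Y : ℕ) (B : ℤ[X]) (n : ℕ) : ℝ :=
  lp (B.eval (n : ℤ)) - Lk (Q ^ 100) (Y / (Q ^ 100) ^ 2) (B.eval (n : ℤ))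

/-- A sum along a progression in `[Y, 3Y)`, with a linear phase. -/
theorem w2_ap (g : ℤ → ℂ) (Y : ℕ) (δ : ℝ)
    (hg : ∀ θ : ℝ, ∀ u v : ℤ, (Y : ℤ) ≤ u → v ≤ 4 * Y → ‖∑ m ∈ Ico u v, g m * e (m * θ)‖ ≤ δ)
    (W : ℕ) (hW : 0 < W) (x : ℤ) (H : ℕ)
    (hx : ∀ c : ℕ, c < H → (Y : ℤ) ≤ x + W * c ∧ x + W * c < 3 * Y) (θ : ℝ) :
    ‖∑ c ∈ range H, g (x + W * c) * e (c * θ)‖ ≤ δ := by
  have hδ : 0 ≤ δ := (norm_nonneg _).trans (hg 0 Y Y le_rfl (by omega))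
  rcases Nat.eq_zero_or_pos H with h0 | h0
  · rw [h0, Finset.sum_range_zero, norm_zero]
    exact hδ
  have hxY : (Y : ℤ) ≤ x := by
    have := (hx 0 h0).1
    simpa using this
  set u : ℤ → ℂ := fun m => if m < 3 * Y then g m else 0 with hu
  have h1 := BA1_prog u W H hW x θ
  have h2 : ∑ c ∈ range H, u (x + W * c) * e (c * θ) = ∑ c ∈ range H, g (x + W * c) * e (c * θ) := by
    refine Finset.sum_congr rfl fun c hc => ?_
    have h3 := (hx c (mem_range.mp hc)).2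
    rw [hu]
    beta_reduce
    rw [if_pos h3]
  rw [h2] at h1
  have h4 : ∀ j ∈ range W, ‖e (-(x : ℝ) * ((j + θ) / W)) *
      ∑ m ∈ Ico x (x + W * H), u m * e (m * ((j + θ) / W))‖ ≤ δ := by
    intro j _
    rw [norm_mul, BA1_norm_e, one_mul]
    have h5 : ∑ m ∈ Ico x (x + W * H), u m * e (m * ((j + θ) / W)) =
        ∑ m ∈ Ico x (min (x + W * H) (3 * Y)), g m * e (m * ((j + θ) / W)) := by
      have h6 : (Ico x (min (x + (W : ℤ) * (H : ℤ)) (3 * (Y : ℤ))) : Finset ℤ) =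
          (Ico x (x + (W : ℤ) * (H : ℤ)) : Finset ℤ).filter (fun m : ℤ => m < 3 * (Y : ℤ)) := by
        ext m
        rw [mem_filter, mem_Ico, mem_Ico, lt_min_iff]
        tauto
      rw [h6, Finset.sum_filter]
      refine Finset.sum_congr rfl fun m _ => ?_
      rw [hu]
      beta_reduce
      split_ifs
      · rfl
      · rw [zero_mul]
    rw [h5]
    refine hg _ _ _ hxY ?_
    have := min_le_right (x + W * H) (3 * (Y : ℤ))
    omega
  have h7 : (W : ℝ) * ‖∑ c ∈ range H, g (x + W * c) * e (c * θ)‖ ≤ W * δ := by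
    calc (W : ℝ) * ‖∑ c ∈ range H, g (x + W * c) * e (c * θ)‖
        = ‖(W : ℂ) * ∑ c ∈ range H, g (x + W * c) * e (c * θ)‖ := by
          rw [norm_mul, Complex.norm_natCast]
      _ = ‖∑ j ∈ range W, e (-(x : ℝ) * ((j + θ) / W)) *
            ∑ m ∈ Ico x (x + W * H), u m * e (m * ((j + θ) / W))‖ := by rw [h1]
      _ ≤ ∑ j ∈ range W, δ := (norm_sum_le _ _).trans (Finset.sum_le_sum h4)
      _ = W * δ := by rw [Finset.sum_const, card_range, nsmul_eq_mul]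
  have hW' : (0 : ℝ) < W := by exact_mod_cast hW
  exact le_of_mul_le_mul_left h7 hW'

theorem w2_lin {A : ℕ} {B : ℤ[X]} (hB : Lin A B) :
    (∀ n : ℤ, B.eval n = B.coeff 0 + B.coeff 1 * n) ∧ B.coeff 1 ≠ 0 := by
  constructor
  · intro n
    rw [Polynomial.eval_eq_sum_range, hB.deg]
    simp [Finset.sum_range_succ]
  · have h1 : B.leadingCoeff ≠ 0 := by
      rw [Polynomial.leadingCoeff_ne_zero]
      intro h
      have h2 := hB.deg
      rw [h] at h2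
      simp at h2
    rwa [Polynomial.leadingCoeff, hB.deg] at h1

/-- The Fourier transform along a linear polynomial. -/
theorem w2_four (g : ℤ → ℂ) (Y : ℕ) (δ : ℝ)
    (hg : ∀ θ : ℝ, ∀ u v : ℤ, (Y : ℤ) ≤ u → v ≤ 4 * Y → ‖∑ m ∈ Ico u v, g m * e (m * θ)‖ ≤ δ)
    {A : ℕ} {B : ℤ[X]} (hB : Lin A B) (a H : ℕ)
    (hx : ∀ n ∈ Ico a (a + H), (Y : ℤ) ≤ B.eval (n : ℤ) ∧ B.eval (n : ℤ) < 3 * Y) (θ : ℝ) :
    ‖∑ n ∈ Ico a (a + H), g (B.eval (n : ℤ)) * e ((n : ℝ) * θ)‖ ≤ δ := by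
  obtain ⟨hev, hc1⟩ := w2_lin hB
  have hfac : ∀ (s : Finset ℕ) (f : ℕ → ℂ) (t : ℝ), ‖∑ c ∈ s, f c * e t‖ = ‖∑ c ∈ s, f c‖ := by
    intro s f t
    rw [← Finset.sum_mul, norm_mul, BA1_norm_e, mul_one]
  rcases lt_or_gt_of_ne hc1 with hneg | hpos
  · obtain ⟨W, hW⟩ : ∃ W : ℕ, (W : ℤ) = -B.coeff 1 := ⟨(-B.coeff 1).toNat, by
      rw [Int.toNat_of_nonneg (by linarith)]⟩
    have hW0 : 0 < W := by
      have : (0 : ℤ) < W := by rw [hW]; linarith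
      exact_mod_cast this
    have hval : ∀ c : ℕ, c < H → B.eval ((a + (H - 1 - c) : ℕ) : ℤ) =
        B.coeff 0 + (W : ℤ) * (-((a : ℤ) + H - 1)) + W * (c : ℤ) := by
      intro c hc
      have h2 : ((a + (H - 1 - c) : ℕ) : ℤ) = a + H - 1 - c := by
        have : 1 + c ≤ H := by omega
        rw [Nat.sub_sub]
        push_cast [this]
        ring
      rw [hev, h2, hW]
      ring
    have h1 := w2_ap g Y δ hg W hW0 (B.coeff 0 + (W : ℤ) * (-((a : ℤ) + H - 1))) H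
      (fun c hc => by
        rw [← hval c hc]
        exact hx _ (by rw [mem_Ico]; omega)) (-θ)
    rw [Finset.sum_Ico_eq_sum_range, Nat.add_sub_cancel_left, ← Finset.sum_range_reflect]
    rw [← hfac _ _ (((a : ℝ) + H - 1) * θ)] at h1
    refine le_trans (le_of_eq ?_) h1
    congr 1
    refine Finset.sum_congr rfl fun c hc => ?_
    rw [mem_range] at hc
    rw [hval c hc, mul_assoc (g _), ← BA1_e_add]
    congr 2
    have h3 : ((a + (H - 1 - c) : ℕ) : ℝ) = a + H - 1 - c := by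
      have : 1 + c ≤ H := by omega
      rw [Nat.sub_sub]
      push_cast [this]
      ring
    rw [h3]
    ring
  · obtain ⟨W, hW⟩ : ∃ W : ℕ, (W : ℤ) = B.coeff 1 := ⟨(B.coeff 1).toNat, by
      rw [Int.toNat_of_nonneg (by linarith)]⟩
    have hW0 : 0 < W := by
      have : (0 : ℤ) < W := by rw [hW]; linarith
      exact_mod_cast this
    have hval : ∀ c : ℕ, B.eval ((a + c : ℕ) : ℤ) = B.coeff 0 + (W : ℤ) * a + W * (c : ℤ) := by
      intro c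
      rw [hev, hW]
      push_cast
      ring
    have h1 := w2_ap g Y δ hg W hW0 (B.coeff 0 + (W : ℤ) * a) H
      (fun c hc => by
        rw [← hval c]
        exact hx _ (by rw [mem_Ico]; omega)) θ
    rw [Finset.sum_Ico_eq_sum_range, Nat.add_sub_cancel_left]
    rw [← hfac _ _ ((a : ℝ) * θ)] at h1
    refine le_trans (le_of_eq ?_) h1
    congr 1
    refine Finset.sum_congr rfl fun c hc => ?_
    rw [hval c, mul_assoc (g _), ← BA1_e_add]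
    congr 2
    push_cast
    ring

/-- Fourier transform on intervals. Proof. `B(n) = b + a n`, `a ≠ 0`; if `a < 0` reflect. The `B(n)`, `n ∈ Ico a0 (a0+H)`, are
the `m ≡ b` modulo `|a|` in an interval contained in `[Y, 3Y)` (`GeoB`), so the sum is
`(1/|a|) ∑_{j < |a|} ∑_m (lp m - Lk m) e((m - b) (θ + j)/a)`, each inner sum is at most `Y (Q^100)^(-1/4)`
(`fourier_smallP` with `X = Y`, `Q = Q^100`; empty intervals are trivial). `(Q^100)^(-1/4) = Q^(-25)`. -/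
theorem W2_fourier : ∃ K : ℝ, 1 ≤ K ∧ ∀ (A Q X X1 Y : ℕ) (B : ℤ[X]), 1 ≤ Q → RegP K (Q ^ 100) Y →
    GeoB A X X1 Y B → ∀ a H : ℕ, X1 ≤ a → a + H ≤ 2 * X1 → ∀ θ : ℝ,
    ‖∑ n ∈ Ico a (a + H), ((fB Q Y B n : ℝ) : ℂ) * e ((n : ℝ) * θ)‖ ≤ Y * (Q : ℝ) ^ (-(25) : ℝ) := by
  obtain ⟨K, hK⟩ := fourier_smallP
  refine ⟨max K 1, le_max_right _ _, ?_⟩
  intro A Q X X1 Y B hQ hR hG a H ha haH θ
  have hR' : RegP K (Q ^ 100) Y := hR.mono (le_trans zero_le_one (le_max_right _ _)) (le_max_left _ _)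
  have hQ0 : (0 : ℝ) ≤ Q := Nat.cast_nonneg Q
  have hpow : (((Q ^ 100 : ℕ) : ℝ)) ^ (-(1 / 4) : ℝ) = (Q : ℝ) ^ (-(25) : ℝ) := by
    rw [Nat.cast_pow, ← Real.rpow_natCast, ← Real.rpow_mul hQ0]
    norm_num
  have h1 := w2_four (fun m => ((lp m - Lk (Q ^ 100) (Y / (Q ^ 100) ^ 2) m : ℝ) : ℂ)) Y
    (Y * (Q : ℝ) ^ (-(25) : ℝ)) (fun θ u v hu hv => by
      rw [← hpow]
      exact hK (Q ^ 100) Y hR' θ u v hu hv) hG.lin a H
    (fun n hn => by
      rw [mem_Ico] at hn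
      have hn' : n ∈ Ico X1 (2 * X1) := by rw [mem_Ico]; omega
      exact ⟨hG.lo n hn', hG.hi n hn'⟩) θ
  exact h1

/-- Mean squares. Proof. `|lp m| ≤ log(3 Y)` for `m < 3 Y`, `3 Y ≤ 3 A X`; `Lk = SG (C0 m) m` (`Cf.eq`), at most
`300 (1+log Q^100)³ dQ (Q^100) m` (`S1b` of `H59P`, `Cf.le`, `Cf.sum`); `B5_dQ` at level `Q^100`,
`(Q^100)² ≤ H` (`X1 ≤ H Q^800`, `X ≤ X1 Q`, `K` large: `Q^1001 ≤ X` etc.); logarithms: `log Q ≤ log X`. -/
theorem W2_ms (A : ℕ) : ∃ K : ℝ, 1 ≤ K ∧ ∀ C : ℝ, ∃ Q0 : ℕ, ∀ (Q X X1 Y : ℕ) (B : ℤ[X])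
    (C0 : ℤ → Ch → ℂ) (mb : Ch → ℝ), Q0 ≤ Q → Rg K C Q X → 0 < X1 → X1 ≤ X → X ≤ X1 * Q →
    GeoB A X X1 Y B → Cf (Q ^ 100) Y C0 mb → ∀ a H : ℕ, X1 ≤ a → a + H ≤ 2 * X1 → X1 ≤ H * Q ^ 800 →
    ∑ n ∈ Ico a (a + H), ‖((fB Q Y B n : ℝ) : ℂ)‖ ^ 2 ≤ H * (Real.log X) ^ 20 ∧
    ∀ n ∈ Ico X1 (2 * X1), |lp (B.eval (n : ℤ))| ≤ (Real.log X) ^ 2 := by
  refine ⟨1001, by norm_num, fun C => ⟨3 * A + 3, ?_⟩⟩
  intro Q X X1 Y B C0 mb hQ hRg hX1 hX1X hXQ hG hC a H ha haH hH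
  have hQ3 : 3 ≤ Q := by omega
  have hQA : 3 * A ≤ Q := by omega
  have hlogQ : 1 ≤ Real.log Q := G1_log1 hQ3
  have hlogX : 1001 * Real.log Q ≤ Real.log X := hRg.1
  set l := Real.log X with hl
  have hl1 : 1001 ≤ l := by linarith
  have hXpos : 0 < X := lt_of_lt_of_le hX1 hX1X
  have hQr : (0 : ℝ) < Q := by exact_mod_cast (show 0 < Q by omega)
  have hXr : (0 : ℝ) < X := by exact_mod_cast hXpos
  have hQX : Q ^ 1001 ≤ X := by
    have h1 : Real.log ((Q : ℝ) ^ 1001) ≤ Real.log X := by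
      rw [Real.log_pow]
      push_cast
      exact hlogX
    have h2 : (Q : ℝ) ^ 1001 ≤ X := (Real.log_le_log_iff (by positivity) hXr).1 h1
    exact_mod_cast h2
  have hH200 : (Q ^ 100) ^ 2 ≤ H := by
    have h1 : Q ^ 1001 ≤ H * Q ^ 801 := by
      calc Q ^ 1001 ≤ X := hQX
        _ ≤ X1 * Q := hXQ
        _ ≤ H * Q ^ 800 * Q := Nat.mul_le_mul_right Q hH
        _ = H * Q ^ 801 := by ring
    have h2 : Q ^ 200 * Q ^ 801 ≤ H * Q ^ 801 := by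
      rw [← pow_add]
      exact h1
    have h3 : Q ^ 200 ≤ H := Nat.le_of_mul_le_mul_right h2 (Nat.pow_pos (by omega))
    rw [← pow_mul]
    exact h3
  have hAX : Real.log (3 * (A : ℝ) * X) ≤ 2 * l := by
    rcases Nat.eq_zero_or_pos A with hA | hA
    · rw [hA]
      simp only [Nat.cast_zero, mul_zero, zero_mul, Real.log_zero]
      linarith
    have hA' : (0 : ℝ) < A := by exact_mod_cast hA
    rw [Real.log_mul (by positivity) hXr.ne']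
    have h1 : Real.log (3 * (A : ℝ)) ≤ Real.log Q := by
      refine Real.log_le_log (by positivity) ?_
      exact_mod_cast hQA
    linarith
  have hlp : ∀ n ∈ Ico X1 (2 * X1), |lp (B.eval (n : ℤ))| ≤ 2 * l := by
    intro n hn
    have h1 := hG.lo n hn
    have h2 := hG.hi n hn
    unfold Pool.Agent.Lib.H68T.lp
    split_ifs with hp
    · have h3 : 2 ≤ (B.eval (n : ℤ)).toNat := hp.two_le
      have h4 : (2 : ℤ) ≤ B.eval (n : ℤ) := by omega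
      have h5 : (2 : ℝ) ≤ ((B.eval (n : ℤ) : ℤ) : ℝ) := by exact_mod_cast h4
      rw [abs_of_nonneg (Real.log_nonneg (by linarith))]
      refine le_trans (Real.log_le_log (by linarith) ?_) hAX
      have h6 : B.eval (n : ℤ) ≤ ((3 * A * X : ℕ) : ℤ) := by
        have h7 : 3 * Y ≤ 3 * A * X := by
          have := hG.Yhi
          calc 3 * Y ≤ 3 * (A * X) := Nat.mul_le_mul_left 3 this
            _ = 3 * A * X := by ring
        have h8 : ((3 * Y : ℕ) : ℤ) ≤ ((3 * A * X : ℕ) : ℤ) := by exact_mod_cast h7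
        push_cast at h8 ⊢
        linarith
      calc ((B.eval (n : ℤ) : ℤ) : ℝ) ≤ (((3 * A * X : ℕ) : ℤ) : ℝ) := by exact_mod_cast h6
        _ = 3 * (A : ℝ) * X := by push_cast; ring
    · rw [abs_zero]
      linarith
  refine ⟨?_, fun n hn => (hlp n hn).trans ?_⟩
  · -- the mean square
    set l1 := 1 + Real.log ((Q ^ 100 : ℕ) : ℝ) with hl1d
    have hl1' : l1 = 1 + 100 * Real.log Q := by
      rw [hl1d, Nat.cast_pow, Real.log_pow]
      push_cast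
      ring
    have hl1one : 1 ≤ l1 := by rw [hl1']; linarith
    have hl1l : l1 ≤ l := by rw [hl1']; linarith
    have hQ100 : 1 ≤ Q ^ 100 := Nat.one_le_pow _ _ (by omega)
    have hLk : ∀ n ∈ Ico X1 (2 * X1), |Lk (Q ^ 100) (Y / (Q ^ 100) ^ 2) (B.eval (n : ℤ))| ≤
        300 * l1 ^ 3 * dQ (Q ^ 100) (B.eval (n : ℤ)) := by
      intro n hn
      have h1 := hG.lo n hn
      have h2 := hG.hi n hn
      have h3 : B.eval (n : ℤ) ≤ 4 * Y := by
        have : (0 : ℤ) ≤ Y := Int.natCast_nonneg Y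
        linarith
      have h4 := hC.eq _ h1 h3
      have h5 := S1b (Q ^ 100) hQ100 (C0 (B.eval (n : ℤ))) mb (fun p hp => hC.le _ h1 h3 p hp)
        (B.eval (n : ℤ))
      rw [← h4, Complex.norm_real, Real.norm_eq_abs] at h5
      refine h5.trans ?_
      have hd : 0 ≤ dQ (Q ^ 100) (B.eval (n : ℤ)) := Nat.cast_nonneg _
      calc 100 * (1 + Real.log ((Q ^ 100 : ℕ) : ℝ)) ^ 3 * dQ (Q ^ 100) (B.eval (n : ℤ)) *
            ∑ p ∈ PC (Q ^ 100), mb p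
          ≤ 100 * l1 ^ 3 * dQ (Q ^ 100) (B.eval (n : ℤ)) * 3 :=
            mul_le_mul_of_nonneg_left hC.sum (by positivity)
        _ = 300 * l1 ^ 3 * dQ (Q ^ 100) (B.eval (n : ℤ)) := by ring
    have hpt : ∀ n ∈ Ico a (a + H), ‖((fB Q Y B n : ℝ) : ℂ)‖ ^ 2 ≤
        8 * l ^ 2 + 2 * (300 * l1 ^ 3) ^ 2 * dQ (Q ^ 100) (B.eval (n : ℤ)) ^ 2 := by
      intro n hn
      have hn' : n ∈ Ico X1 (2 * X1) := by
        rw [mem_Ico] at hn ⊢
        omega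
      have h1 := hlp n hn'
      have h2 := hLk n hn'
      rw [Complex.norm_real, Real.norm_eq_abs, sq_abs]
      unfold fB
      have h3 : (lp (B.eval (n : ℤ))) ^ 2 ≤ (2 * l) ^ 2 := by
        rw [← sq_abs]
        exact pow_le_pow_left₀ (abs_nonneg _) h1 2
      have h4 : (Lk (Q ^ 100) (Y / (Q ^ 100) ^ 2) (B.eval (n : ℤ))) ^ 2 ≤
          (300 * l1 ^ 3 * dQ (Q ^ 100) (B.eval (n : ℤ))) ^ 2 := by
        rw [← sq_abs]
        exact pow_le_pow_left₀ (abs_nonneg _) h2 2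
      nlinarith [sq_nonneg (lp (B.eval (n : ℤ)) + Lk (Q ^ 100) (Y / (Q ^ 100) ^ 2) (B.eval (n : ℤ)))]
    have hms := B5_dQ (Q ^ 100) A B hG.lin a H
    have hms2 : ∑ n ∈ Ico a (a + H), dQ (Q ^ 100) (B.eval (n : ℤ)) ^ 2 ≤ 2 * H * l1 ^ 3 := by
      refine hms.trans ?_
      have h1 : (((Q ^ 100 : ℕ) : ℝ)) ^ 2 ≤ H := by exact_mod_cast hH200
      have h2 : (1 : ℝ) ≤ l1 ^ 3 := one_le_pow₀ hl1one
      have h3 : (H : ℝ) ≤ H * l1 ^ 3 := le_mul_of_one_le_right (Nat.cast_nonneg H) h2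
      linarith
    calc ∑ n ∈ Ico a (a + H), ‖((fB Q Y B n : ℝ) : ℂ)‖ ^ 2
        ≤ ∑ n ∈ Ico a (a + H), (8 * l ^ 2 + 2 * (300 * l1 ^ 3) ^ 2 *
            dQ (Q ^ 100) (B.eval (n : ℤ)) ^ 2) := Finset.sum_le_sum hpt
      _ = H * (8 * l ^ 2) + 2 * (300 * l1 ^ 3) ^ 2 *
            ∑ n ∈ Ico a (a + H), dQ (Q ^ 100) (B.eval (n : ℤ)) ^ 2 := by
          rw [Finset.sum_add_distrib, Finset.sum_const, Nat.card_Ico, Nat.add_sub_cancel_left,
            nsmul_eq_mul, ← Finset.mul_sum]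
      _ ≤ H * (8 * l ^ 2) + 2 * (300 * l1 ^ 3) ^ 2 * (2 * H * l1 ^ 3) := by
          have : 0 ≤ 2 * (300 * l1 ^ 3) ^ 2 := by positivity
          have := mul_le_mul_of_nonneg_left hms2 this
          linarith
      _ = H * (8 * l ^ 2 + 360000 * l1 ^ 9) := by ring
      _ ≤ H * l ^ 20 := by
          refine mul_le_mul_of_nonneg_left ?_ (Nat.cast_nonneg H)
          have hl0 : 0 ≤ l := by linarith
          have h1 : l1 ^ 9 ≤ l ^ 9 := pow_le_pow_left₀ (by linarith) hl1l 9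
          have h2 : l ^ 2 ≤ l ^ 9 := pow_le_pow_right₀ (by linarith) (by norm_num)
          have h3 : (1001 : ℝ) ^ 11 ≤ l ^ 11 := pow_le_pow_left₀ (by norm_num) hl1 11
          have h4 : (0 : ℝ) ≤ l ^ 9 := by positivity
          have h5 : (360008 : ℝ) ≤ l ^ 11 := le_trans (by norm_num) h3
          calc 8 * l ^ 2 + 360000 * l1 ^ 9 ≤ 360008 * l ^ 9 := by linarith
            _ ≤ l ^ 11 * l ^ 9 := mul_le_mul_of_nonneg_right h5 h4
            _ = l ^ 20 := by ring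
  · nlinarith

end Pool.Agent.Lib.H24P
end

-- from Lib.H24P.W3
section

/-!
# Project H24P, chunk W3 (M): from primes to the projection in the linear coordinate
-/

open Finset Polynomial

namespace Pool.Agent.Lib.H24P

open Pool.Agent.Lib.H68T Pool.Agent.Lib.H18Q Pool.Agent.Lib.H59P

/-- Expansion. Proof. Definitions of `SG`, `Fc`, `gam_expand` (`H18Q/CA.lean`), `Finset.prod_univ_sum`. -/
theorem W3_SG {k : ℕ} (Q : ℕ) (c : Fin k → Ch → ℂ) (m : Fin k → ℤ) :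
    ∏ i, SG Q (c i) (m i) =
      ∑ p ∈ Fintype.piFinset fun _ : Fin k => PC Q, (∏ i, c i (p i)) * ∏ i, Fc Q (p i) (m i) := by
  classical
  have h1 : ∀ i, SG Q (c i) (m i) = ∑ p ∈ PC Q, c i p * Fc Q p (m i) := by
    intro i
    unfold SG Fc
    refine Finset.sum_congr rfl fun p hp => ?_
    rw [gam_expand Q p hp, mul_comm]
  calc ∏ i, SG Q (c i) (m i) = ∏ i, ∑ p ∈ PC Q, c i p * Fc Q p (m i) :=
        Finset.prod_congr rfl fun i _ => h1 i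
    _ = ∑ p ∈ Fintype.piFinset fun _ : Fin k => PC Q, ∏ i, c i (p i) * Fc Q (p i) (m i) :=
        Finset.prod_univ_sum _ _
    _ = _ := Finset.sum_congr rfl fun p _ => Finset.prod_mul_distrib

theorem w3_Rg {K K' C : ℝ} {Q X : ℕ} (h : Rg K C Q X) (hK : K' ≤ K) : Rg K' C Q X :=
  ⟨(mul_le_mul_of_nonneg_right hK (Real.log_natCast_nonneg Q)).trans h.1, h.2⟩



end Pool.Agent.Lib.H24P
end

-- from Lib.HUP.R1
section

/-!
# Project HUP, module R (the modules of H24P for an abstract family), R1: one cell, weight without correlation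
-/

open Finset Polynomial

namespace Pool.Agent.HUP

open Pool.Agent.Lib.H68T Pool.Agent.Lib.H18Q Pool.Agent.Lib.H59P Pool.Agent.Lib.H24P

/-- **R1** (port of `W1_cell`, H24P/W1.lean). Proof. Copy the proof of `W1_cell`: `∏ Fc = ∑_κ ∏ gk`
(`Finset.prod_univ_sum`), `D = fl Q (1/(2k+2))`; for the `κ` with `lcm(r_i κ_i) > D` use the hypothesis `FGood` instead
of `Fgen` (its constants are given), for the others `W1_small` (unchanged, it is for one `h`), summed over `x ∈ S`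
(`S.card` instead of `vol s`). -/
theorem R1_cell (k A E : ℕ) (hA : 1 ≤ A) (Cc cc : ℝ) (hC : FPar Cc cc) : ∃ C c : ℝ, 1 ≤ C ∧ 0 < c ∧ c ≤ 1 ∧
    ∀ P : Fin k → ℤ[X], Pol A P → ∀ Q Qm : ℕ, 1 ≤ Q → Q ≤ Qm → ∀ p : Fin k → Ch, (∀ i, p i ∈ PC Q) →
    ∀ (ι : Type) (S : Finset ι) (g : ι → Fin k → ℕ), FGood E Cc cc Qm P S g →
    ∀ a H : ℕ, Q ≤ H → Q ^ E ≤ H → ∀ (f : ℕ → ℂ) (Ws : ℝ), 0 ≤ Ws →
    ∑ n ∈ Ico a (a + H), ‖f n‖ ^ 2 ≤ H * Ws →
    (∀ θ : ℝ, ‖∑ n ∈ Ico a (a + H), f n * e ((n : ℝ) * θ)‖ ≤ H / (Q : ℝ) ^ 2) →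
    ∑ x ∈ S, ‖∑ n ∈ Ico a (a + H), f n *
        ∏ i, Fc Q (p i) ((P i).eval (n : ℤ) + g x i)‖ ^ 2 ≤
      S.card * H ^ 2 * (C * (1 + Real.log Q) ^ C * (Ws + 1) * (Q : ℝ) ^ (-c)) := by
  classical
  obtain ⟨hCc, hcc0, hcc1⟩ := hC
  set xx : ℝ := 1 / (2 * k + 2) with hx
  have hx0 : 0 < xx := by positivity
  have hx1 : xx ≤ 1 := by
    rw [hx, div_le_one (by positivity)]
    have : (0 : ℝ) ≤ k := by positivity
    linarith
  refine ⟨4 * Cc + 2, cc * xx, by linarith, mul_pos hcc0 hx0, ?_, ?_⟩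
  · calc cc * xx ≤ 1 * 1 := mul_le_mul hcc1 hx1 hx0.le zero_le_one
      _ = 1 := one_mul 1
  intro P hP Q Qm hQ hQm p hp ι S g hF a H hQH hQE f Ws hWs hf2 hfe
  set D : ℕ := fl Q xx with hD
  obtain ⟨hD1, hD2, -⟩ := G1_one hQ hx0.le
  rw [← hD] at hD1 hD2
  have hQr : (1 : ℝ) ≤ Q := by exact_mod_cast hQ
  have hQp : (0 : ℝ) < Q := by linarith
  have hHr : (0 : ℝ) ≤ H := by positivity
  have hvol : (0 : ℝ) ≤ S.card := Nat.cast_nonneg _
  have hl : 0 ≤ Real.log Q := Real.log_natCast_nonneg Q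
  set T0 := Fintype.piFinset (fun i => KS Q (p i).1) with hT0
  set T1 := T0.filter (fun κ => univ.lcm (fun i => (p i).1 * κ i) ≤ D) with hT1
  set T2 := T0.filter (fun κ => ¬ univ.lcm (fun i => (p i).1 * κ i) ≤ D) with hT2
  have hsplit : ∀ h : Fin k → ℕ, ∑ n ∈ Ico a (a + H), f n * ∏ i, Fc Q (p i) ((P i).eval (n : ℤ) + h i)
      = ∑ n ∈ Ico a (a + H), f n * ∑ κ ∈ T1, ∏ i, gk (p i) (κ i) ((P i).eval (n : ℤ) + h i)
        + ∑ n ∈ Ico a (a + H), f n * ∑ κ ∈ T2, ∏ i, gk (p i) (κ i) ((P i).eval (n : ℤ) + h i) := by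
    intro h
    rw [← sum_add_distrib]
    refine sum_congr rfl fun n _ => ?_
    rw [← mul_add, hT1, hT2, sum_filter_add_sum_filter_not]
    congr 1
    unfold Fc
    rw [hT0, prod_univ_sum]
  have hA1 : ∀ h : Fin k → ℕ,
      ‖∑ n ∈ Ico a (a + H), f n * ∑ κ ∈ T1, ∏ i, gk (p i) (κ i) ((P i).eval (n : ℤ) + h i)‖ ≤ H / Q := by
    intro h
    have h1 := W1_small P Q D hD1 p hp T1 (filter_subset _ _) (fun κ hκ => (mem_filter.mp hκ).2) f
      (Ico a (a + H)) (H / (Q : ℝ) ^ 2) hfe h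
    refine h1.trans ?_
    have h2 : (D : ℝ) ^ (2 * k + 1) ≤ Q := by
      calc (D : ℝ) ^ (2 * k + 1) ≤ ((Q : ℝ) ^ xx) ^ (2 * k + 1) :=
            pow_le_pow_left₀ (by positivity) hD2 _
        _ = (Q : ℝ) ^ (xx * ((2 * k + 1 : ℕ) : ℝ)) := by
            rw [← Real.rpow_natCast, ← Real.rpow_mul hQp.le]
        _ ≤ (Q : ℝ) ^ (1 : ℝ) := by
            refine Real.rpow_le_rpow_of_exponent_le hQr ?_
            rw [hx, div_mul_eq_mul_div, one_mul, div_le_one (by positivity)]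
            push_cast
            linarith
        _ = Q := Real.rpow_one _
    calc (D : ℝ) ^ (2 * k + 1) * (H / (Q : ℝ) ^ 2) ≤ Q * (H / (Q : ℝ) ^ 2) :=
          mul_le_mul_of_nonneg_right h2 (by positivity)
      _ = H / Q := by field_simp
  have hA2 : ∑ x ∈ S,
      ‖∑ n ∈ Ico a (a + H), f n * ∑ κ ∈ T1, ∏ i, gk (p i) (κ i) ((P i).eval (n : ℤ) + g x i)‖ ^ 2
      ≤ (S.card : ℝ) * H ^ 2 * (Q : ℝ) ^ (-(cc * xx)) := by
    have h1 : ∀ x ∈ S,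
        ‖∑ n ∈ Ico a (a + H), f n * ∑ κ ∈ T1, ∏ i, gk (p i) (κ i) ((P i).eval (n : ℤ) + g x i)‖ ^ 2
        ≤ (H / Q) ^ 2 := fun x _ => pow_le_pow_left₀ (norm_nonneg _) (hA1 (g x)) 2
    refine (sum_le_sum h1).trans ?_
    rw [sum_const, nsmul_eq_mul, div_pow, mul_assoc]
    refine mul_le_mul_of_nonneg_left ?_ hvol
    rw [div_eq_mul_inv]
    refine mul_le_mul_of_nonneg_left ?_ (by positivity)
    have h2 : ((Q : ℝ) ^ 2)⁻¹ = (Q : ℝ) ^ (-(2 : ℝ)) := by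
      rw [Real.rpow_neg hQp.le, Real.rpow_ofNat]
    rw [h2]
    refine Real.rpow_le_rpow_of_exponent_le hQr ?_
    have h3 : cc * xx ≤ 1 * 1 := mul_le_mul hcc1 hx1 hx0.le zero_le_one
    linarith
  have hB := hF Q hQ hQm p hp T2 (filter_subset _ _) D hD1
    (fun κ hκ => not_le.mp (mem_filter.mp hκ).2) a H hQE f
  have hneg : (D : ℝ) ^ (-cc) ≤ 2 * (Q : ℝ) ^ (-(cc * xx)) := by
    refine (G1_neg hQ hx0.le hcc0.le).trans ?_
    refine mul_le_mul_of_nonneg_right ?_ (by positivity)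
    calc (2 : ℝ) ^ cc ≤ 2 ^ (1 : ℝ) := Real.rpow_le_rpow_of_exponent_le (by norm_num) hcc1
      _ = 2 := Real.rpow_one 2
  set EE : ℝ := (Q : ℝ) ^ (-(cc * xx)) with hE
  have hE0 : 0 < EE := by positivity
  set Lg : ℝ := (1 + Real.log Q) ^ (4 * Cc + 2) with hLg
  have hLg1 : 1 ≤ Lg := Real.one_le_rpow (by linarith) (by linarith)
  have hLg2 : (1 + Real.log Q) ^ Cc ≤ Lg :=
    Real.rpow_le_rpow_of_exponent_le (by linarith) (by linarith)
  have hLc0 : 0 ≤ (1 + Real.log Q) ^ Cc := by positivity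
  have hB2 : ∑ x ∈ S,
      ‖∑ n ∈ Ico a (a + H), f n * ∑ κ ∈ T2, ∏ i, gk (p i) (κ i) ((P i).eval (n : ℤ) + g x i)‖ ^ 2
      ≤ (S.card : ℝ) * H ^ 2 * (2 * Cc * Lg * Ws * EE) := by
    refine hB.trans ?_
    calc Cc * (1 + Real.log Q) ^ Cc * (S.card : ℝ) * (H * ∑ n ∈ Ico a (a + H), ‖f n‖ ^ 2) * (D : ℝ) ^ (-cc)
        ≤ Cc * Lg * (S.card : ℝ) * (H * (H * Ws)) * (2 * EE) := by
          have h0 : 0 ≤ ∑ n ∈ Ico a (a + H), ‖f n‖ ^ 2 := sum_nonneg fun _ _ => by positivity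
          have h1 : 0 ≤ (D : ℝ) ^ (-cc) := by positivity
          gcongr
      _ = (S.card : ℝ) * H ^ 2 * (2 * Cc * Lg * Ws * EE) := by ring
  have h4 : ∀ x ∈ S, ‖∑ n ∈ Ico a (a + H), f n *
        ∏ i, Fc Q (p i) ((P i).eval (n : ℤ) + g x i)‖ ^ 2
      ≤ 2 * ‖∑ n ∈ Ico a (a + H), f n * ∑ κ ∈ T1, ∏ i, gk (p i) (κ i) ((P i).eval (n : ℤ) + g x i)‖ ^ 2
        + 2 * ‖∑ n ∈ Ico a (a + H), f n * ∑ κ ∈ T2, ∏ i, gk (p i) (κ i) ((P i).eval (n : ℤ) + g x i)‖ ^ 2 := by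
    intro x _
    rw [hsplit (g x)]
    generalize (∑ n ∈ Ico a (a + H), f n * ∑ κ ∈ T1, ∏ i, gk (p i) (κ i) ((P i).eval (n : ℤ) + g x i)) = z1
    generalize (∑ n ∈ Ico a (a + H), f n * ∑ κ ∈ T2, ∏ i, gk (p i) (κ i) ((P i).eval (n : ℤ) + g x i)) = z2
    have h5 := norm_add_le z1 z2
    have h6 : ‖z1 + z2‖ ^ 2 ≤ (‖z1‖ + ‖z2‖) ^ 2 := pow_le_pow_left₀ (norm_nonneg _) h5 2
    nlinarith [sq_nonneg (‖z1‖ - ‖z2‖)]
  refine (sum_le_sum h4).trans ?_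
  rw [sum_add_distrib, ← mul_sum, ← mul_sum]
  have h7 : 2 * ((S.card : ℝ) * (H : ℝ) ^ 2 * EE) + 2 * ((S.card : ℝ) * H ^ 2 * (2 * Cc * Lg * Ws * EE))
      ≤ (S.card : ℝ) * H ^ 2 * ((4 * Cc + 2) * Lg * (Ws + 1) * EE) := by
    have h8 : 2 * ((S.card : ℝ) * (H : ℝ) ^ 2 * EE) + 2 * ((S.card : ℝ) * H ^ 2 * (2 * Cc * Lg * Ws * EE))
        = (S.card : ℝ) * H ^ 2 * ((2 + 4 * Cc * Lg * Ws) * EE) := by ring
    rw [h8]
    refine mul_le_mul_of_nonneg_left ?_ (by positivity)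
    refine mul_le_mul_of_nonneg_right ?_ hE0.le
    nlinarith [mul_nonneg (by linarith : 0 ≤ Lg) hWs, mul_nonneg (by linarith : 0 ≤ Cc) (by linarith : 0 ≤ Lg)]
  linarith

end Pool.Agent.HUP
end

-- from Lib.HUP.R2
section

/-!
# Project HUP, module R (the modules of H24P for an abstract family), R2: the linear coordinate
-/

open Finset Polynomial

namespace Pool.Agent.HUP

open Pool.Agent.Lib.H68T Pool.Agent.Lib.H18Q Pool.Agent.Lib.H59P Pool.Agent.Lib.H24P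

/-- **R2a** (port of `W3_cell`, H24P/W3.lean). Proof. As `W3_cell` with `R1_cell` (`Qm = Q^2`) instead of `W1_cell`. `K` must be so
large (in terms of `E`) that `Q ^ E ≤ H` follows from `X1 ≤ H Q^8`, `X ≤ X1 Q`, `Q^K ≤ X`. -/
theorem R2_cell (k A E : ℕ) (hA : 1 ≤ A) (Cc cc : ℝ) (hC : FPar Cc cc) : ∃ c K : ℝ, 0 < c ∧ 1 ≤ K ∧ ∀ C : ℝ, ∃ Q0 : ℕ,
    ∀ (Q X X1 Y : ℕ) (B : ℤ[X]) (C0 : ℤ → Ch → ℂ) (mb : Ch → ℝ), Q0 ≤ Q → Rg K C Q X → 0 < X1 →
    X1 ≤ X → X ≤ X1 * Q → GeoB A X X1 Y B → Cf (Q ^ 100) Y C0 mb →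
    ∀ P : Fin k → ℤ[X], Pol A P → ∀ c' : Fin k → Ch → ℂ, (∀ i, ∑ p ∈ PC Q, ‖c' i p‖ ≤ 3) →
    ∀ (ι : Type) (S : Finset ι) (g : ι → Fin k → ℕ), FGood E Cc cc (Q ^ 2) P S g →
    ∀ a H : ℕ, X1 ≤ a → a + H ≤ 2 * X1 → X1 ≤ H * Q ^ 8 →
    ∑ x ∈ S, ‖∑ n ∈ Ico a (a + H), ((fB Q Y B n : ℝ) : ℂ) *
      ∏ i, SG Q (c' i) ((P i).eval (n : ℤ) + g x i)‖ ^ 2 ≤ S.card * H ^ 2 * (Q : ℝ) ^ (-c) := by
  classical
  obtain ⟨C1, c1, hC1, hc1, hc1', hW1⟩ := R1_cell k A E hA Cc cc hC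
  obtain ⟨K2, hK2, hW2⟩ := W2_fourier
  obtain ⟨K3, hK3, hW3⟩ := W2_ms A
  have hE0 : (0 : ℝ) ≤ E := Nat.cast_nonneg E
  refine ⟨c1 / 2, max (100 * K2 + 2) (max K3 (10 + E)), by linarith,
    (by linarith : (1 : ℝ) ≤ 10 + E).trans ((le_max_right _ _).trans (le_max_right _ _)), fun C => ?_⟩
  obtain ⟨Qa, hQa⟩ := hW3 C
  obtain ⟨Qb, hQb⟩ := G2_regB A K2 C hK2
  obtain ⟨Qc, hQc1, hQc⟩ := G1_log C 20 1 (c1 / 8) (by linarith)
  obtain ⟨Qd, hQd1, hQd⟩ := G1_rlog (2 * 9 ^ k * C1) C1 (c1 / 8) (by linarith)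
  refine ⟨max (max Qa Qb) (max (max Qc Qd) (max A 1)), ?_⟩
  intro Q X X1 Y B C0 mb hQ hRg hX1 hX1X hXX1 hB hCf P hP c' hc' ι S g hF a H haX haH hH
  have hQa' : Qa ≤ Q := (le_max_left _ _).trans ((le_max_left _ _).trans hQ)
  have hQb' : Qb ≤ Q := (le_max_right _ _).trans ((le_max_left _ _).trans hQ)
  have hQc' : Qc ≤ Q := (le_max_left _ _).trans ((le_max_left _ _).trans ((le_max_right _ _).trans hQ))
  have hQd' : Qd ≤ Q := (le_max_right _ _).trans ((le_max_left _ _).trans ((le_max_right _ _).trans hQ))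
  have hQA : A ≤ Q := (le_max_left _ _).trans ((le_max_right _ _).trans ((le_max_right _ _).trans hQ))
  have hQ1 : 1 ≤ Q := (le_max_right _ _).trans ((le_max_right _ _).trans ((le_max_right _ _).trans hQ))
  have hQr : (1 : ℝ) ≤ Q := by exact_mod_cast hQ1
  have hQ0 : (0 : ℝ) < Q := by linarith
  have hRa : Rg (100 * K2 + 2) C Q X := w3_Rg hRg (le_max_left _ _)
  have hRb : Rg K3 C Q X := w3_Rg hRg ((le_max_left _ _).trans (le_max_right _ _))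
  have hRc : Rg (10 + E) C Q X := w3_Rg hRg ((le_max_right _ _).trans (le_max_right _ _))
  have hHpos : 0 < H := by
    rcases Nat.eq_zero_or_pos H with h0 | h0
    · rw [h0, zero_mul] at hH
      omega
    · exact h0
  have hHr : (0 : ℝ) < H := by exact_mod_cast hHpos
  have hXH : X ≤ H * Q ^ 9 := by
    calc X ≤ X1 * Q := hXX1
      _ ≤ (H * Q ^ 8) * Q := Nat.mul_le_mul_right Q hH
      _ = H * Q ^ 9 := by ring
  have hXpos : 0 < X := lt_of_lt_of_le hX1 hX1X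
  have hlogH : Real.log X ≤ Real.log H + 9 * Real.log Q := by
    calc Real.log X ≤ Real.log ((H : ℝ) * (Q : ℝ) ^ 9) :=
          Real.log_le_log (by exact_mod_cast hXpos) (by exact_mod_cast hXH)
      _ = Real.log H + 9 * Real.log Q := by
          rw [Real.log_mul hHr.ne' (by positivity), Real.log_pow]
          norm_num
  have hlogQ' : 0 ≤ Real.log Q := Real.log_natCast_nonneg Q
  have hELQ : 0 ≤ (E : ℝ) * Real.log Q := mul_nonneg hE0 hlogQ'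
  have hRc1 : 10 * Real.log Q + E * Real.log Q ≤ Real.log X := by
    have h2 := hRc.1
    rwa [add_mul] at h2
  have hQH : Q ≤ H := by
    have h3 : Real.log Q ≤ Real.log H := by linarith
    have h4 := (Real.log_le_log_iff hQ0 hHr).1 h3
    exact_mod_cast h4
  have hQEH : Q ^ E ≤ H := by
    have h3 : Real.log ((Q : ℝ) ^ E) ≤ Real.log H := by
      rw [Real.log_pow]
      linarith
    have h4 := (Real.log_le_log_iff (pow_pos hQ0 E) hHr).1 h3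
    exact_mod_cast h4
  -- the Fourier bound
  have hreg := hQb Q X X1 Y B hQb' hRa hX1 hX1X hXX1 hB
  have hYH : (Y : ℝ) ≤ A * (H * (Q : ℝ) ^ 9) := by
    have h1 : Y ≤ A * (H * Q ^ 9) := hB.Yhi.trans (Nat.mul_le_mul_left A hXH)
    exact_mod_cast h1
  have hfour : ∀ θ : ℝ, ‖∑ n ∈ Ico a (a + H), ((fB Q Y B n : ℝ) : ℂ) * e ((n : ℝ) * θ)‖ ≤
      H / (Q : ℝ) ^ 2 := by
    intro θ
    refine (hW2 A Q X X1 Y B hQ1 hreg.1 hB a H haX haH θ).trans ?_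
    have h1 : (Q : ℝ) ^ (-(25) : ℝ) = ((Q : ℝ) ^ 25)⁻¹ := by
      have h25 : (25 : ℝ) = ((25 : ℕ) : ℝ) := by norm_num
      rw [Real.rpow_neg hQ0.le, h25, Real.rpow_natCast]
    rw [h1, ← div_eq_mul_inv, div_le_div_iff₀ (by positivity) (by positivity)]
    have h2 : (A : ℝ) ≤ (Q : ℝ) ^ 14 := by
      have h3 : (A : ℝ) ≤ Q := by exact_mod_cast hQA
      have h4 : (Q : ℝ) ^ 1 ≤ (Q : ℝ) ^ 14 := pow_le_pow_right₀ hQr (by norm_num)
      rw [pow_one] at h4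
      linarith
    calc (Y : ℝ) * (Q : ℝ) ^ 2 ≤ (A * (H * (Q : ℝ) ^ 9)) * (Q : ℝ) ^ 2 :=
          mul_le_mul_of_nonneg_right hYH (by positivity)
      _ = A * (H * (Q : ℝ) ^ 11) := by ring
      _ ≤ (Q : ℝ) ^ 14 * (H * (Q : ℝ) ^ 11) := mul_le_mul_of_nonneg_right h2 (by positivity)
      _ = H * (Q : ℝ) ^ 25 := by ring
  -- the mean square
  have hms := (hQa Q X X1 Y B C0 mb hQa' hRb hX1 hX1X hXX1 hB hCf a H haX haH
    (hH.trans (Nat.mul_le_mul_left H (Nat.pow_le_pow_right hQ1 (by norm_num))))).1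
  set Ws : ℝ := (Real.log X) ^ 20 with hWs
  have hWs0 : 0 ≤ Ws := pow_nonneg (Real.log_natCast_nonneg X) _
  set W : ℝ := S.card * H ^ 2 * (C1 * (1 + Real.log Q) ^ C1 * (Ws + 1) * (Q : ℝ) ^ (-c1)) with hW
  have hvol : (0 : ℝ) ≤ S.card := Nat.cast_nonneg _
  have hlogQ : 0 ≤ Real.log Q := Real.log_natCast_nonneg Q
  have hW0 : 0 ≤ W := by
    have h1 : 0 ≤ (1 + Real.log Q) ^ C1 := Real.rpow_nonneg (by linarith) _
    have h2 : 0 ≤ (Q : ℝ) ^ (-c1) := Real.rpow_nonneg hQ0.le _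
    have h3 : 0 ≤ C1 := by linarith
    positivity
  -- expansion
  have hexp : ∀ h : Fin k → ℕ, ∑ n ∈ Ico a (a + H), ((fB Q Y B n : ℝ) : ℂ) *
      ∏ i, SG Q (c' i) ((P i).eval (n : ℤ) + h i) =
      ∑ p ∈ Fintype.piFinset fun _ : Fin k => PC Q, (∏ i, c' i (p i)) *
        ∑ n ∈ Ico a (a + H), ((fB Q Y B n : ℝ) : ℂ) *
          ∏ i, Fc Q (p i) ((P i).eval (n : ℤ) + h i) := by
    intro h
    have h1 : ∀ n ∈ Ico a (a + H), ((fB Q Y B n : ℝ) : ℂ) *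
        ∏ i, SG Q (c' i) ((P i).eval (n : ℤ) + h i) =
        ∑ p ∈ Fintype.piFinset fun _ : Fin k => PC Q, (∏ i, c' i (p i)) *
          (((fB Q Y B n : ℝ) : ℂ) * ∏ i, Fc Q (p i) ((P i).eval (n : ℤ) + h i)) := by
      intro n _
      rw [W3_SG, Finset.mul_sum]
      refine Finset.sum_congr rfl fun p _ => ?_
      ring
    rw [Finset.sum_congr rfl h1, Finset.sum_comm]
    refine Finset.sum_congr rfl fun p _ => ?_
    rw [Finset.mul_sum]
  have hγ : ∑ p ∈ Fintype.piFinset fun _ : Fin k => PC Q, ‖∏ i, c' i (p i)‖ ≤ (3 : ℝ) ^ k := by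
    have h1 : ∑ p ∈ Fintype.piFinset fun _ : Fin k => PC Q, ‖∏ i, c' i (p i)‖ =
        ∏ i, ∑ p ∈ PC Q, ‖c' i p‖ := by
      rw [Finset.prod_univ_sum]
      exact Finset.sum_congr rfl fun p _ => norm_prod _ _
    rw [h1]
    have h2 : ∏ i : Fin k, ∑ p ∈ PC Q, ‖c' i p‖ ≤ ∏ _i : Fin k, (3 : ℝ) :=
      Finset.prod_le_prod (fun i _ => Finset.sum_nonneg fun p _ => norm_nonneg _) (fun i _ => hc' i)
    rwa [prod_const, card_univ, Fintype.card_fin] at h2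
  have hmain := Z2a S (Fintype.piFinset fun _ : Fin k => PC Q) (fun p => ∏ i, c' i (p i))
    (fun p x => ∑ n ∈ Ico a (a + H), ((fB Q Y B n : ℝ) : ℂ) *
      ∏ i, Fc Q (p i) ((P i).eval (n : ℤ) + g x i)) ((3 : ℝ) ^ k) W hW0 hγ (fun p hp =>
      hW1 P hP Q (Q ^ 2) hQ1 (Nat.le_self_pow (by norm_num) Q) p (fun i => Fintype.mem_piFinset.1 hp i) ι S g hF a H
        hQH hQEH (fun n => ((fB Q Y B n : ℝ) : ℂ)) Ws hWs0 hms hfour)
  refine (le_of_eq (Finset.sum_congr rfl fun x _ => by rw [hexp (g x)])).trans (hmain.trans ?_)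
  -- numerics
  have e1 : Ws + 1 ≤ 2 * (Q : ℝ) ^ (c1 / 8) := by
    have h1 := hQc Q X hQc' hRg.2
    rw [one_mul] at h1
    have h2 : 1 ≤ (Q : ℝ) ^ (c1 / 8) := Real.one_le_rpow hQr (by linarith)
    linarith
  have e2 := hQd Q hQd'
  have h9 : ((3 : ℝ) ^ k) ^ 2 = 9 ^ k := by
    rw [← pow_mul, mul_comm k 2, pow_mul]
    norm_num
  have hL0 : 0 ≤ (1 + Real.log Q) ^ C1 := Real.rpow_nonneg (by linarith) _
  have hn1 : 0 ≤ (Q : ℝ) ^ (-c1) := Real.rpow_nonneg hQ0.le _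
  have hC10 : 0 ≤ C1 := by linarith
  calc ((3 : ℝ) ^ k) ^ 2 * W = S.card * H ^ 2 *
        ((9 ^ k * C1 * (1 + Real.log Q) ^ C1) * (Ws + 1) * (Q : ℝ) ^ (-c1)) := by
        rw [h9, hW]
        ring
    _ ≤ S.card * H ^ 2 * ((9 ^ k * C1 * (1 + Real.log Q) ^ C1) * (2 * (Q : ℝ) ^ (c1 / 8)) *
        (Q : ℝ) ^ (-c1)) := by
        refine mul_le_mul_of_nonneg_left ?_ (by positivity)
        refine mul_le_mul_of_nonneg_right ?_ hn1
        exact mul_le_mul_of_nonneg_left e1 (by positivity)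
    _ = S.card * H ^ 2 * ((2 * 9 ^ k * C1 * (1 + Real.log Q) ^ C1) * (Q : ℝ) ^ (c1 / 8) *
        (Q : ℝ) ^ (-c1)) := by ring
    _ ≤ S.card * H ^ 2 * ((Q : ℝ) ^ (c1 / 8) * (Q : ℝ) ^ (c1 / 8) * (Q : ℝ) ^ (-c1)) := by
        refine mul_le_mul_of_nonneg_left ?_ (by positivity)
        refine mul_le_mul_of_nonneg_right ?_ hn1
        exact mul_le_mul_of_nonneg_right e2 (Real.rpow_nonneg hQ0.le _)
    _ = S.card * H ^ 2 * (Q : ℝ) ^ (c1 / 8 + c1 / 8 + -c1) := by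
        rw [Real.rpow_add hQ0, Real.rpow_add hQ0]
    _ ≤ S.card * H ^ 2 * (Q : ℝ) ^ (-(c1 / 2)) := by
        refine mul_le_mul_of_nonneg_left ?_ (by positivity)
        exact Real.rpow_le_rpow_of_exponent_le hQr (by linarith)


end Pool.Agent.HUP
end

-- from Lib.H9P.U2
section

/-!
# ASYP, chunk U2 (M): `R2_main` with the geometry `GeoV`, uniformly in the polynomials
-/

open Finset Polynomial

namespace Pool.Agent.H9P

open Pool.Agent.Lib.H68T Pool.Agent.Lib.H18Q Pool.Agent.Lib.H59P Pool.Agent.Lib.H24P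
open Pool.Agent.HUP

/-- **U2.** Copy of the proof of `R2_main` (`HUP/R2.lean`): `R2_cell` (unchanged) is uniform in `P`; `G2_P` and `Geo` are replaced by the fields
`small`, `slow`, `dvd`, `pos`, `le`, `ge`, `dvdM` of `GeoV`. -/
theorem U2_main (k A E : ℕ) (hA : 1 ≤ A) (Cc cc : ℝ) (hC : FPar Cc cc) :
    ∃ c K : ℝ, 0 < c ∧ 1 ≤ K ∧ ∀ C : ℝ, ∃ Q0 : ℕ, ∀ P : Fin k → ℤ[X], Pol A P →
    ∀ (Q X X1 Y : ℕ) (M : Fin k → ℕ) (B : ℤ[X])
    (C0 : ℤ → Ch → ℂ) (mb : Ch → ℝ), Q0 ≤ Q → Rg K C Q X → GeoV Q X X1 P M → GeoB A X X1 Y B →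
    Cf (Q ^ 100) Y C0 mb → ∀ (C' : Fin k → ℤ → Ch → ℂ) (mc : Fin k → Ch → ℝ),
    (∀ i, Cf Q (Ysc (M i)) (C' i) (mc i)) →
    ∀ (ι : Type) (S : Finset ι) (g : ι → Fin k → ℕ) (h0 : Fin k → ℕ), Cl E Cc cc Q P M S g h0 →
    ∑ x ∈ S, ‖Rzb Q X1 P C' (fun n => ((lp (B.eval (n : ℤ)) : ℝ) : ℂ)) h0 (g x) -
      Rzb Q X1 P C' (fun n => ((Lk (Q ^ 100) (Y / (Q ^ 100) ^ 2) (B.eval (n : ℤ)) : ℝ) : ℂ)) h0 (g x)‖ ^ 2 ≤
      (X1 : ℝ) ^ 2 * S.card * (Q : ℝ) ^ (-c) := by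
  classical
  obtain ⟨c, K, hc, hK, hcell⟩ := R2_cell k A E hA Cc cc hC
  refine ⟨c, K, hc, hK, fun C => ?_⟩
  obtain ⟨Q0, hQ0⟩ := hcell C
  refine ⟨max Q0 1, ?_⟩
  intro P hP Q X X1 Y M B C0 mb hQ hRg hG hB hCf C' mc hCc ι S g h0 hCl
  have hQ0' : Q0 ≤ Q := (le_max_left _ _).trans hQ
  have hQ1 : 1 ≤ Q := (le_max_right _ _).trans hQ
  have hQ8 : 0 < Q ^ 8 := Nat.pow_pos hQ1
  set H : ℕ := X1 / Q ^ 8 with hH
  have hdX : Q ^ 8 ∣ X1 := (pow_dvd_pow Q (by norm_num)).trans hG.dvd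
  have hXH : X1 = H * Q ^ 8 := (Nat.div_mul_cancel hdX).symm
  have hHpos : 0 < H := by
    rcases Nat.eq_zero_or_pos H with h0 | h0
    · rw [h0, zero_mul] at hXH
      have := hG.pos
      omega
    · exact h0
  -- the difference
  set F : ι → ℕ → ℂ := fun x n => ((fB Q Y B n : ℝ) : ℂ) *
    ∏ i, SG Q (C' i ((P i).eval ((bs H n : ℕ) : ℤ) + (h0 i : ℤ))) ((P i).eval (n : ℤ) + g x i) with hF
  have hdiff : ∀ x : ι,
      Rzb Q X1 P C' (fun n => ((lp (B.eval (n : ℤ)) : ℝ) : ℂ)) h0 (g x) -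
      Rzb Q X1 P C' (fun n => ((Lk (Q ^ 100) (Y / (Q ^ 100) ^ 2) (B.eval (n : ℤ)) : ℝ) : ℂ)) h0 (g x) =
      ∑ n ∈ Ico X1 (2 * X1), F x n := by
    intro x
    unfold Rzb
    rw [← Finset.sum_sub_distrib]
    refine Finset.sum_congr rfl fun n _ => ?_
    rw [hF]
    simp only
    rw [← sub_mul]
    congr 1
    unfold fB
    push_cast
    ring
  rw [Finset.sum_congr rfl fun x _ => by rw [hdiff x]]
  -- one cell
  have hone : ∀ j < Q ^ 8, ∑ x ∈ S, ‖∑ n ∈ Ico (X1 + j * H) (X1 + j * H + H), F x n‖ ^ 2 ≤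
      S.card * H ^ 2 * (Q : ℝ) ^ (-c) := by
    intro j hj
    have hjH : (j + 1) * H ≤ X1 := by
      rw [hXH, mul_comm H]
      exact Nat.mul_le_mul_right H hj
    have hjH' : j * H + H ≤ X1 := by
      have : (j + 1) * H = j * H + H := by ring
      omega
    have haI : X1 + j * H ∈ Ico X1 (2 * X1) := by
      rw [mem_Ico]
      omega
    have hbsn : ∀ n ∈ Ico (X1 + j * H) (X1 + j * H + H), bs H n = X1 + j * H := by
      intro n hn
      have h1 := mem_Ico.1 hn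
      have h2 : X1 + j * H = (Q ^ 8 + j) * H := by
        conv_lhs => rw [hXH]
        ring
      rw [h2] at h1 ⊢
      exact z2_bs hHpos _ _ h1.1 h1.2
    set c' : Fin k → Ch → ℂ := fun i =>
      C' i ((P i).eval ((X1 + j * H : ℕ) : ℤ) + (h0 i : ℤ)) with hc'
    have hcell' := hQ0 Q X X1 Y B C0 mb hQ0' hRg hG.pos hG.le hG.ge hB hCf P hP c' ?_
      ι S g hCl.good (X1 + j * H) H (by omega) (by omega) hXH.le
    · refine (le_of_eq ?_).trans hcell'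
      refine Finset.sum_congr rfl fun x _ => ?_
      congr 2
      refine Finset.sum_congr rfl fun n hn => ?_
      rw [hF]
      simp only
      congr 1
      refine Finset.prod_congr rfl fun i _ => ?_
      rw [hc']
      simp only
      rw [hbsn n hn]
    · intro i
      have hx : h0 i ∈ Ico (M i) (2 * M i) := by
        have h1 := hCl.memb
        unfold cub at h1
        have h2 := mem_Ico.1 ((Fintype.mem_piFinset.1 h1) i)
        rw [mem_Ico]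
        omega
      have hv := hG.small i (X1 + j * H) haI
      have hd8 : 8 ∣ M i := (Dvd.intro _ rfl).trans (hG.dvdM i)
      have h5 := G2_val (M i) (h0 i) _ hd8 hv hx
      refine (Finset.sum_le_sum fun p hp => ?_).trans (hCc i).sum
      refine (hCc i).le _ h5.1 ?_ p hp
      have h6 : (0 : ℤ) ≤ Ysc (M i) := Nat.cast_nonneg _
      linarith [h5.2.1]
  -- all cells
  have h2X : 2 * X1 = X1 + Q ^ 8 * H := by
    have : Q ^ 8 * H = X1 := by rw [mul_comm]; exact hXH.symm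
    omega
  calc ∑ x ∈ S, ‖∑ n ∈ Ico X1 (2 * X1), F x n‖ ^ 2
      ≤ ∑ x ∈ S, ((Q ^ 8 : ℕ) : ℝ) * ∑ j ∈ range (Q ^ 8),
          ‖∑ n ∈ Ico (X1 + j * H) (X1 + j * H + H), F x n‖ ^ 2 := by
        refine Finset.sum_le_sum (fun x _ => ?_)
        rw [h2X, z2_cells]
        exact z2_cs _ _
    _ = ((Q ^ 8 : ℕ) : ℝ) * ∑ j ∈ range (Q ^ 8), ∑ x ∈ S,
          ‖∑ n ∈ Ico (X1 + j * H) (X1 + j * H + H), F x n‖ ^ 2 := by
        rw [← Finset.mul_sum, Finset.sum_comm]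
    _ ≤ ((Q ^ 8 : ℕ) : ℝ) * ∑ j ∈ range (Q ^ 8), S.card * H ^ 2 * (Q : ℝ) ^ (-c) := by
        refine mul_le_mul_of_nonneg_left ?_ (by positivity)
        exact Finset.sum_le_sum (fun j hj => hone j (mem_range.mp hj))
    _ = (X1 : ℝ) ^ 2 * S.card * (Q : ℝ) ^ (-c) := by
        rw [Finset.sum_const, card_range, nsmul_eq_mul]
        have h7 : (X1 : ℝ) = H * ((Q ^ 8 : ℕ) : ℝ) := by
          rw [← Nat.cast_mul]
          exact congrArg (Nat.cast : ℕ → ℝ) hXH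
        rw [h7]
        ring

end Pool.Agent.H9P
end

-- from Lib.HUP.FGL0
section

/-!
# Project HUP, chunk FGL0 (S): translations of complete sums
-/

open Finset

namespace Pool.Agent.HUP

open Pool.Agent.Lib.H59P (gl)
open Pool.Agent.HUK (KB4A_mod KB4A_zero KB4A_two)

theorem FGL0_card (d M : ℕ) : (B0 d M).card = M ^ d := by
  unfold B0
  rw [Fintype.card_piFinset]
  simp

/-- Proof. `t ↦ (t j + v j) % M` is a bijection of `B0 d M`, and `f` is periodic. -/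
theorem FGL0_shift {d : ℕ} (M : ℕ) (hM : 1 ≤ M) (f : (Fin d → ℤ) → ℝ)
    (hf : ∀ t t' : Fin d → ℤ, (∀ j, (M : ℤ) ∣ t j - t' j) → f t = f t') (v : Fin d → ℤ) :
    ∑ t ∈ B0 d M, f (fun j => t j + v j) = ∑ t ∈ B0 d M, f t := by
  have hM0 : (0 : ℤ) < M := by exact_mod_cast hM
  refine sum_nbij' (fun t j => (t j + v j) % (M : ℤ)) (fun t j => (t j - v j) % (M : ℤ)) ?_ ?_ ?_ ?_ ?_
  · intro t _
    refine Fintype.mem_piFinset.2 fun j => mem_Ico.2 ⟨Int.emod_nonneg _ hM0.ne', Int.emod_lt_of_pos _ hM0⟩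
  · intro t _
    refine Fintype.mem_piFinset.2 fun j => mem_Ico.2 ⟨Int.emod_nonneg _ hM0.ne', Int.emod_lt_of_pos _ hM0⟩
  · intro t ht
    funext j
    have h1 := mem_Ico.1 (Fintype.mem_piFinset.1 ht j)
    show ((t j + v j) % (M : ℤ) - v j) % (M : ℤ) = t j
    rw [Int.emod_sub_emod, add_sub_cancel_right]
    exact Int.emod_eq_of_lt h1.1 h1.2
  · intro t ht
    funext j
    have h1 := mem_Ico.1 (Fintype.mem_piFinset.1 ht j)
    show ((t j - v j) % (M : ℤ) + v j) % (M : ℤ) = t j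
    rw [Int.emod_add_emod, sub_add_cancel]
    exact Int.emod_eq_of_lt h1.1 h1.2
  · intro t _
    refine hf _ _ fun j => ?_
    show (M : ℤ) ∣ (t j + v j) - (t j + v j) % (M : ℤ)
    exact Int.dvd_self_sub_emod

/-- From `FGL0_shift` with `v = s v`, summed over `s`. -/
theorem FGL0_avg {d : ℕ} (M : ℕ) (hM : 1 ≤ M) (f : (Fin d → ℤ) → ℝ)
    (hf : ∀ t t' : Fin d → ℤ, (∀ j, (M : ℤ) ∣ t j - t' j) → f t = f t') (v : Fin d → ℤ) :
    (M : ℝ) * ∑ t ∈ B0 d M, f t = ∑ t ∈ B0 d M, ∑ s ∈ Ico (0 : ℤ) M, f (fun j => t j + s * v j) := by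
  rw [sum_comm]
  have h1 : ∀ s ∈ Ico (0 : ℤ) M, ∑ t ∈ B0 d M, f (fun j => t j + s * v j) = ∑ t ∈ B0 d M, f t := by
    intro s _
    exact FGL0_shift M hM f hf fun j => s * v j
  rw [sum_congr rfl h1, sum_const, nsmul_eq_mul]
  simp

/-- Proof. `s ↦ (x + s A) % l` is a bijection of `Ico 0 l` (`l` is prime and does not divide `A`). -/
theorem FGL0_bij (l : ℕ) (hl : l.Prime) (A : ℤ) (hA : ¬ (l : ℤ) ∣ A) (x : ℤ) (F : ℤ → ℝ)
    (hF : ∀ m m' : ℤ, (l : ℤ) ∣ m - m' → F m = F m') :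
    ∑ s ∈ Ico (0 : ℤ) l, F (x + s * A) = ∑ y ∈ Ico (0 : ℤ) l, F y := by
  have hl0 : (0 : ℤ) < l := by exact_mod_cast hl.pos
  have hp : Prime (l : ℤ) := Nat.prime_iff_prime_int.1 hl
  have hm : ∀ s ∈ Ico (0 : ℤ) l, (x + s * A) % (l : ℤ) ∈ Ico (0 : ℤ) l := fun s _ =>
    mem_Ico.2 ⟨Int.emod_nonneg _ hl0.ne', Int.emod_lt_of_pos _ hl0⟩
  have hi : Set.InjOn (fun s : ℤ => (x + s * A) % (l : ℤ)) (Ico (0 : ℤ) l : Finset ℤ) := by
    intro s hs s' hs' h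
    have h1 := mem_Ico.1 (mem_coe.1 hs)
    have h2 := mem_Ico.1 (mem_coe.1 hs')
    have h3 : (l : ℤ) ∣ (x + s * A) - (x + s' * A) := Int.ModEq.dvd (Int.ModEq.symm h)
    have h4 : (x + s * A) - (x + s' * A) = (s - s') * A := by ring
    rw [h4] at h3
    have h5 : (l : ℤ) ∣ s - s' := (hp.dvd_or_dvd h3).resolve_right hA
    have h6 : s - s' = 0 := Int.eq_zero_of_abs_lt_dvd h5 (abs_lt.2 ⟨by linarith [h1.1, h2.2], by linarith [h1.2, h2.1]⟩)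
    linarith
  refine sum_nbij (fun s => (x + s * A) % (l : ℤ)) hm hi ?_ ?_
  · exact surjOn_of_injOn_of_card_le _ hm hi le_rfl
  · intro s _
    exact hF _ _ Int.dvd_self_sub_emod

/-- `FGL0_bij`, `KB4A_zero` with `c = 0`. -/
theorem FGL0_zero (l : ℕ) (hl : l.Prime) (A : ℤ) (hA : ¬ (l : ℤ) ∣ A) (x : ℤ) :
    ∑ s ∈ Ico (0 : ℤ) l, gl l (x + s * A) = 0 := by
  rw [FGL0_bij l hl A hA x (fun m => gl l m) fun m m' h => KB4A_mod l m m' h]
  have h1 := KB4A_zero l hl 0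
  simpa using h1

/-- `FGL0_bij`, `KB4A_two` with `c = 0`. -/
theorem FGL0_two (l : ℕ) (hl : l.Prime) (A : ℤ) (hA : ¬ (l : ℤ) ∣ A) (x : ℤ) :
    ∑ s ∈ Ico (0 : ℤ) l, |gl l (x + s * A)| = 2 := by
  rw [FGL0_bij l hl A hA x (fun m => |gl l m|) fun m m' h => by rw [KB4A_mod l m m' h]]
  have h1 := KB4A_two l hl 0
  simpa using h1

end Pool.Agent.HUP
end

-- from Lib.HUP.FGL1
section

/-!
# Project HUP, chunk FGL1 (S/M): local means of one or two factors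
-/

open Finset

namespace Pool.Agent.HUP

open Pool.Agent.Lib.H59P (gl)
open Pool.Agent.HUK (KB4A_mod KB4A_le)

theorem fgl1_card (d l : ℕ) : ((B0 d l).card : ℝ) = (l : ℝ) ^ d := by
  rw [FGL0_card]
  push_cast
  rfl

theorem fgl1_single {k d : ℕ} (c : Fin k → Fin d → ℤ) (i : Fin k) (j : Fin d) :
    lf c (Pi.single j 1) i = c i j := by
  unfold lf
  rw [Finset.sum_eq_single j]
  · rw [Pi.single_eq_same, mul_one]
  · intro b _ hb
    rw [Pi.single_eq_of_ne hb, mul_zero]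
  · intro h
    exact absurd (mem_univ j) h

theorem fgl1_per {k d : ℕ} (c : Fin k → Fin d → ℤ) (i : Fin k) (l : ℕ) (x : ℤ) (t t' : Fin d → ℤ)
    (h : ∀ j, (l : ℤ) ∣ t j - t' j) : gl l (x + lf c t i) = gl l (x + lf c t' i) := by
  apply KB4A_mod
  have e : x + lf c t i - (x + lf c t' i) = ∑ j, c i j * (t j - t' j) := by
    unfold lf
    simp only [mul_sub, Finset.sum_sub_distrib]
    ring
  rw [e]
  exact Finset.dvd_sum fun j _ => (h j).mul_left _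

theorem FGL1_lin {k d : ℕ} (c : Fin k → Fin d → ℤ) (i : Fin k) (t v : Fin d → ℤ) (s : ℤ) :
    lf c (fun j => t j + s * v j) i = lf c t i + s * lf c v i := by
  unfold lf
  rw [Finset.mul_sum, ← Finset.sum_add_distrib]
  refine Finset.sum_congr rfl fun j _ => ?_
  ring

/-- Proof. `v = Pi.single j 1`, `lf c v i = c i j`; `FGL0_avg` (`t ↦ gl l (x + lf c t i)` is periodic), `FGL1_lin`, `FGL0_zero`. -/
theorem FGL1_zero {k d : ℕ} (c : Fin k → Fin d → ℤ) (i : Fin k) (l : ℕ) (hl : l.Prime)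
    (hc : ∃ j, ¬ (l : ℤ) ∣ c i j) (x : ℤ) : ∑ t ∈ B0 d l, gl l (x + lf c t i) = 0 := by
  obtain ⟨j, hj⟩ := hc
  have hl0 : (l : ℝ) ≠ 0 := by
    have := hl.pos
    positivity
  have h := FGL0_avg l hl.one_lt.le (fun t => gl l (x + lf c t i)) (fgl1_per c i l x) (Pi.single j 1)
  have h2 : ∑ t ∈ B0 d l, ∑ s ∈ Ico (0 : ℤ) l,
      gl l (x + lf c (fun j' => t j' + s * (Pi.single j 1 : Fin d → ℤ) j') i) = 0 := by
    refine Finset.sum_eq_zero fun t _ => ?_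
    rw [← FGL0_zero l hl (c i j) hj (x + lf c t i)]
    refine Finset.sum_congr rfl fun s _ => ?_
    rw [FGL1_lin, fgl1_single, ← add_assoc]
  rw [h2] at h
  exact (mul_eq_zero.mp h).resolve_left hl0

/-- The same with `FGL0_two`: `l * sum = l^d * 2`. -/
theorem FGL1_abs {k d : ℕ} (c : Fin k → Fin d → ℤ) (i : Fin k) (l : ℕ) (hl : l.Prime)
    (hc : ∃ j, ¬ (l : ℤ) ∣ c i j) (x : ℤ) : ∑ t ∈ B0 d l, |gl l (x + lf c t i)| = 2 / l * (l : ℝ) ^ d := by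
  obtain ⟨j, hj⟩ := hc
  have hl0 : (l : ℝ) ≠ 0 := by
    have := hl.pos
    positivity
  have h := FGL0_avg l hl.one_lt.le (fun t => |gl l (x + lf c t i)|)
    (fun t t' htt => by simp only [fgl1_per c i l x t t' htt]) (Pi.single j 1)
  have h2 : ∑ t ∈ B0 d l, ∑ s ∈ Ico (0 : ℤ) l,
      |gl l (x + lf c (fun j' => t j' + s * (Pi.single j 1 : Fin d → ℤ) j') i)| = (l : ℝ) ^ d * 2 := by
    rw [← fgl1_card d l, ← nsmul_eq_mul, ← Finset.sum_const]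
    refine Finset.sum_congr rfl fun t _ => ?_
    rw [← FGL0_two l hl (c i j) hj (x + lf c t i)]
    refine Finset.sum_congr rfl fun s _ => ?_
    rw [FGL1_lin, fgl1_single, ← add_assoc]
  rw [h2] at h
  field_simp
  linarith

/-- Independent forms. Proof. `FGL0_avg` with `v = u`: the second factor does not change, the first has the sum `2` (`FGL0_two`), so
`l * sum = 2 * ∑ t, |gl l (x' + lf c t i')|`; `FGL1_abs`. -/
theorem FGL1_ind {k d : ℕ} (c : Fin k → Fin d → ℤ) (i i' : Fin k) (l : ℕ) (hl : l.Prime) (u : Fin d → ℤ)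
    (hu : lf c u i' = 0) (hu' : ¬ (l : ℤ) ∣ lf c u i) (hc : ∃ j, ¬ (l : ℤ) ∣ c i' j) (x x' : ℤ) :
    ∑ t ∈ B0 d l, |gl l (x + lf c t i)| * |gl l (x' + lf c t i')| = (2 / l) ^ 2 * (l : ℝ) ^ d := by
  have hl0 : (l : ℝ) ≠ 0 := by
    have := hl.pos
    positivity
  have h := FGL0_avg l hl.one_lt.le (fun t => |gl l (x + lf c t i)| * |gl l (x' + lf c t i')|)
    (fun t t' htt => by simp only [fgl1_per c i l x t t' htt, fgl1_per c i' l x' t t' htt]) u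
  have h2 : ∑ t ∈ B0 d l, ∑ s ∈ Ico (0 : ℤ) l,
      |gl l (x + lf c (fun j' => t j' + s * u j') i)| * |gl l (x' + lf c (fun j' => t j' + s * u j') i')| =
      2 * ∑ t ∈ B0 d l, |gl l (x' + lf c t i')| := by
    rw [Finset.mul_sum]
    refine Finset.sum_congr rfl fun t _ => ?_
    rw [← FGL0_two l hl (lf c u i) hu' (x + lf c t i), Finset.sum_mul]
    refine Finset.sum_congr rfl fun s _ => ?_
    rw [FGL1_lin, FGL1_lin, hu, mul_zero, add_zero, ← add_assoc]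
  rw [h2, FGL1_abs c i' l hl hc x'] at h
  field_simp
  field_simp at h
  linarith

/-- Dependent forms. Proof. `l` does not divide both `x + lf c t i` and `x' + lf c t i'` (else `l ∣ B (x + lf c t i) - A (x' + lf c t i') = B x - A x'`),
so the product is at most `(|gl ..| + |gl ..|) / (l - 1)`, and `FGL1_abs` twice: `4 l^d / (l (l - 1)) ≤ 8 l^d / l²`. -/
theorem FGL1_dep {k d : ℕ} (c : Fin k → Fin d → ℤ) (i i' : Fin k) (l : ℕ) (hl : l.Prime) (A B : ℤ)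
    (h : ∀ t : Fin d → ℤ, B * lf c t i = A * lf c t i') (hc : ∃ j, ¬ (l : ℤ) ∣ c i j) (hc' : ∃ j, ¬ (l : ℤ) ∣ c i' j)
    (x x' : ℤ) (hx : ¬ (l : ℤ) ∣ B * x - A * x') :
    ∑ t ∈ B0 d l, |gl l (x + lf c t i)| * |gl l (x' + lf c t i')| ≤ 8 / (l : ℝ) ^ 2 * (l : ℝ) ^ d := by
  have hl2 : (2 : ℝ) ≤ l := by exact_mod_cast hl.two_le
  have hl0 : (0 : ℝ) < l := by linarith
  have hl1 : (0 : ℝ) < (l : ℝ) - 1 := by linarith
  have hbd : ∀ t ∈ B0 d l, |gl l (x + lf c t i)| * |gl l (x' + lf c t i')| ≤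
      1 / ((l : ℝ) - 1) * (|gl l (x + lf c t i)| + |gl l (x' + lf c t i')|) := by
    intro t _
    by_cases h1 : (l : ℤ) ∣ x + lf c t i
    · have h2 : ¬ (l : ℤ) ∣ x' + lf c t i' := by
        intro h2
        apply hx
        have h3 : B * x - A * x' = B * (x + lf c t i) - A * (x' + lf c t i') := by
          have := h t
          linear_combination -this
        rw [h3]
        exact dvd_sub (h1.mul_left B) (h2.mul_left A)
      have e2 : gl l (x' + lf c t i') = 1 / ((l : ℝ) - 1) := by unfold gl; rw [if_neg h2]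
      have p2 : |gl l (x' + lf c t i')| = 1 / ((l : ℝ) - 1) := by rw [e2, abs_of_pos (by positivity)]
      rw [p2]
      have hp : (0 : ℝ) < 1 / ((l : ℝ) - 1) := by positivity
      nlinarith [abs_nonneg (gl l (x + lf c t i)), mul_pos hp hp]
    · have e1 : gl l (x + lf c t i) = 1 / ((l : ℝ) - 1) := by unfold gl; rw [if_neg h1]
      have p1 : |gl l (x + lf c t i)| = 1 / ((l : ℝ) - 1) := by rw [e1, abs_of_pos (by positivity)]
      rw [p1]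
      have hp : (0 : ℝ) < 1 / ((l : ℝ) - 1) := by positivity
      nlinarith [abs_nonneg (gl l (x' + lf c t i')), mul_pos hp hp]
  refine (Finset.sum_le_sum hbd).trans ?_
  rw [← Finset.mul_sum, Finset.sum_add_distrib, FGL1_abs c i l hl hc x, FGL1_abs c i' l hl hc' x']
  have hpd : (0 : ℝ) < (l : ℝ) ^ d := by positivity
  have h4 : 1 / ((l : ℝ) - 1) ≤ 2 / l := by
    rw [div_le_div_iff₀ hl1 hl0]
    linarith
  calc 1 / ((l : ℝ) - 1) * (2 / l * (l : ℝ) ^ d + 2 / l * (l : ℝ) ^ d)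
      ≤ 2 / l * (2 / l * (l : ℝ) ^ d + 2 / l * (l : ℝ) ^ d) :=
        mul_le_mul_of_nonneg_right h4 (by positivity)
    _ = 8 / (l : ℝ) ^ 2 * (l : ℝ) ^ d := by
        field_simp
        ring

/-- The trivial bound: `|gl| ≤ 1` (`KB4A_le`), `FGL1_abs`. -/
theorem FGL1_triv {k d : ℕ} (c : Fin k → Fin d → ℤ) (i i' : Fin k) (l : ℕ) (hl : l.Prime)
    (hc : ∃ j, ¬ (l : ℤ) ∣ c i j) (x x' : ℤ) :
    ∑ t ∈ B0 d l, |gl l (x + lf c t i)| * |gl l (x' + lf c t i')| ≤ 2 / l * (l : ℝ) ^ d := by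
  rw [← FGL1_abs c i l hl hc x]
  refine Finset.sum_le_sum fun t _ => ?_
  exact mul_le_of_le_one_right (abs_nonneg _) (KB4A_le l hl _)

end Pool.Agent.HUP
end
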