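import Pool.Agent.Lib.H59M.M2.M053
import Pool.Agent.Lib.H59M.M2.M066
import Pool.Agent.Lib.H59M.M2.M104

/-! Merged copies (to shorten the build) of Lib.HUP.FGA1, Lib.HUP.FGA2, Lib.HUP.FGA5, Lib.HUP.FGA6, Lib.HUP.FGC1, Lib.HUP.FGC2, Lib.HUP.FGC3, Lib.HUP.FGL3. -/

-- from Lib.HUP.FGA1
section

/-!
# Project HUP, chunk FGA1 (S): Cauchy-Schwarz and triangle inequality
-/

open Finset

namespace Pool.Agent.HUP

theorem fga1_expand {ι K : Type*} (S : Finset ι) (N : Finset ℕ) (T : Finset K) (w : ℕ → ℂ) (Φ : K → ℕ → ι → ℂ) :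
    ((∑ x ∈ S, ‖∑ n ∈ N, w n * ∑ κ ∈ T, Φ κ n x‖ ^ 2 : ℝ) : ℂ) =
      ∑ κ ∈ T, ∑ κ' ∈ T, ∑ n ∈ N, ∑ n' ∈ N, w n * (starRingEnd ℂ) (w n') *
        ∑ x ∈ S, Φ κ n x * (starRingEnd ℂ) (Φ κ' n' x) := by
  have h1 : ∀ x, (((‖∑ n ∈ N, w n * ∑ κ ∈ T, Φ κ n x‖ ^ 2 : ℝ)) : ℂ) =
      ∑ κ ∈ T, ∑ κ' ∈ T, ∑ n ∈ N, ∑ n' ∈ N, w n * (starRingEnd ℂ) (w n') * (Φ κ n x * (starRingEnd ℂ) (Φ κ' n' x)) := by
    intro x
    have h2 : ∑ n ∈ N, w n * ∑ κ ∈ T, Φ κ n x = ∑ κ ∈ T, ∑ n ∈ N, w n * Φ κ n x := by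
      rw [Finset.sum_comm]
      exact Finset.sum_congr rfl fun n _ => Finset.mul_sum _ _ _
    rw [h2, Complex.ofReal_pow, ← Complex.mul_conj', map_sum, Finset.sum_mul_sum]
    refine Finset.sum_congr rfl fun κ _ => Finset.sum_congr rfl fun κ' _ => ?_
    rw [map_sum, Finset.sum_mul_sum]
    refine Finset.sum_congr rfl fun n _ => Finset.sum_congr rfl fun n' _ => ?_
    rw [map_mul]
    ring
  rw [Complex.ofReal_sum, Finset.sum_congr rfl fun x _ => h1 x, Finset.sum_comm]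
  refine Finset.sum_congr rfl fun κ _ => ?_
  rw [Finset.sum_comm]
  refine Finset.sum_congr rfl fun κ' _ => ?_
  rw [Finset.sum_comm]
  refine Finset.sum_congr rfl fun n _ => ?_
  rw [Finset.sum_comm]
  refine Finset.sum_congr rfl fun n' _ => ?_
  rw [Finset.mul_sum]

/-- Proof. Expand: `∑_x ‖∑_n w n ∑_κ Φ κ n x‖² = ∑_{κ,κ'} ∑_{n,n'} w n conj (w n') A_{κ,κ'}(n,n')`,
`A_{κ,κ'}(n,n') = ∑_x Φ κ n x conj (Φ κ' n' x)` (`‖z‖² = z conj z`, as complex numbers; then take norms on the right). For fixed `κ`, `κ'`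
Cauchy-Schwarz over the pairs `(n, n')`: `‖∑_{n,n'} w n conj (w n') A‖ ≤ (∑_{n,n'} ‖w n‖² ‖w n'‖²)^(1/2) (∑_{n,n'} ‖A‖²)^(1/2)` and
`∑_{n,n'} ‖w n‖² ‖w n'‖² = (∑_n ‖w n‖²)²`. -/
theorem FGA1 {ι K : Type*} (S : Finset ι) (N : Finset ℕ) (T : Finset K) (w : ℕ → ℂ) (Φ : K → ℕ → ι → ℂ) :
    ∑ x ∈ S, ‖∑ n ∈ N, w n * ∑ κ ∈ T, Φ κ n x‖ ^ 2 ≤
      (∑ n ∈ N, ‖w n‖ ^ 2) * ∑ κ ∈ T, ∑ κ' ∈ T,
        Real.sqrt (∑ n ∈ N, ∑ n' ∈ N, ‖∑ x ∈ S, Φ κ n x * (starRingEnd ℂ) (Φ κ' n' x)‖ ^ 2) := by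
  have h0 : (0 : ℝ) ≤ ∑ x ∈ S, ‖∑ n ∈ N, w n * ∑ κ ∈ T, Φ κ n x‖ ^ 2 := Finset.sum_nonneg fun _ _ => by positivity
  have h1 : ∑ x ∈ S, ‖∑ n ∈ N, w n * ∑ κ ∈ T, Φ κ n x‖ ^ 2 =
      ‖∑ κ ∈ T, ∑ κ' ∈ T, ∑ n ∈ N, ∑ n' ∈ N, w n * (starRingEnd ℂ) (w n') *
        ∑ x ∈ S, Φ κ n x * (starRingEnd ℂ) (Φ κ' n' x)‖ := by
    rw [← fga1_expand, Complex.norm_real, Real.norm_of_nonneg h0]
  rw [h1, Finset.mul_sum]
  refine (norm_sum_le _ _).trans (Finset.sum_le_sum fun κ _ => ?_)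
  rw [Finset.mul_sum]
  refine (norm_sum_le _ _).trans (Finset.sum_le_sum fun κ' _ => ?_)
  have h2 : ‖∑ n ∈ N, ∑ n' ∈ N, w n * (starRingEnd ℂ) (w n') * ∑ x ∈ S, Φ κ n x * (starRingEnd ℂ) (Φ κ' n' x)‖ ≤
      ∑ p ∈ N ×ˢ N, (‖w p.1‖ * ‖w p.2‖) * ‖∑ x ∈ S, Φ κ p.1 x * (starRingEnd ℂ) (Φ κ' p.2 x)‖ := by
    rw [Finset.sum_product]
    refine (norm_sum_le _ _).trans (Finset.sum_le_sum fun n _ => ?_)
    refine (norm_sum_le _ _).trans (Finset.sum_le_sum fun n' _ => ?_)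
    rw [norm_mul, norm_mul, RCLike.norm_conj]
  refine h2.trans ((Real.sum_mul_le_sqrt_mul_sqrt (N ×ˢ N) _ _).trans (le_of_eq ?_))
  have h3 : ∑ p ∈ N ×ˢ N, (‖w p.1‖ * ‖w p.2‖) ^ 2 = (∑ n ∈ N, ‖w n‖ ^ 2) ^ 2 := by
    rw [Finset.sum_product, sq, Finset.sum_mul_sum]
    refine Finset.sum_congr rfl fun n _ => Finset.sum_congr rfl fun n' _ => ?_
    ring
  rw [h3, Real.sqrt_sq (Finset.sum_nonneg fun _ _ => by positivity), Finset.sum_product]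

end Pool.Agent.HUP
end

-- from Lib.HUP.FGA2
section

/-!
# Project HUP, chunk FGA2 (S/M): sums of periodic functions over boxes
-/

open Finset

namespace Pool.Agent.HUP

open Pool.Agent.HUK (kb3_blocks kb3_block)

/-- One variable. Proof. `s = M q + ρ`, `ρ < M`: the sum over the first `M q` integers is `q ∑_{Ico 0 M}` (`kb3_blocks`, with `range` instead
of `Ico`), the rest has norm at most `ρ B`, and `(s/M - q) ∑_{Ico 0 M} = (ρ/M) ∑_{Ico 0 M}` has norm at most `ρ B`. -/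
theorem FGA2_one (M : ℕ) (hM : 1 ≤ M) (g : ℤ → ℂ) (hg : ∀ y y' : ℤ, (M : ℤ) ∣ y - y' → g y = g y') (B : ℝ)
    (hB : ∀ y, ‖g y‖ ≤ B) (b : ℤ) (s : ℕ) :
    ‖∑ y ∈ Ico b (b + s), g y - ((s : ℂ) / M) * ∑ y ∈ Ico (0 : ℤ) M, g y‖ ≤ 2 * M * B := by
  have hB0 : 0 ≤ B := (norm_nonneg _).trans (hB 0)
  have hM0 : (0 : ℝ) < M := by exact_mod_cast hM
  have hMc : (M : ℂ) ≠ 0 := by
    have : M ≠ 0 := by omega
    exact_mod_cast this
  have h0 : ∑ y ∈ Ico b (b + s), g y = ∑ l ∈ range s, g (b + l) := by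
    symm
    refine Finset.sum_nbij' (fun l : ℕ => b + (l : ℤ)) (fun y : ℤ => (y - b).toNat) ?_ ?_ ?_ ?_ ?_
    · intro l hl
      rw [mem_range] at hl
      rw [mem_Ico]
      omega
    · intro y hy
      rw [mem_Ico] at hy
      rw [mem_range]
      omega
    · intro l _
      show (b + (l : ℤ) - b).toNat = l
      omega
    · intro y hy
      rw [mem_Ico] at hy
      show b + ((y - b).toNat : ℤ) = y
      omega
    · intro l _
      rfl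
  have h1 : s = M * (s / M) + s % M := (Nat.div_add_mod s M).symm
  have h2 : ∑ l ∈ range s, g (b + l) = ((s / M : ℕ) : ℂ) * ∑ y ∈ Ico (0 : ℤ) M, g y +
      ∑ x ∈ range (s % M), g (b + ((M * (s / M) + x : ℕ) : ℤ)) := by
    conv_lhs => rw [h1]
    rw [Finset.sum_range_add, kb3_blocks M hM g hg b]
  have h3 : ((s : ℂ) / M) = ((s / M : ℕ) : ℂ) + ((s % M : ℕ) : ℂ) / M := by
    rw [eq_comm, ← sub_eq_zero]
    have h4 : (s : ℂ) = (M : ℂ) * ((s / M : ℕ) : ℂ) + ((s % M : ℕ) : ℂ) := by exact_mod_cast h1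
    rw [h4]
    field_simp
    ring
  have h5 : ‖∑ x ∈ range (s % M), g (b + ((M * (s / M) + x : ℕ) : ℤ))‖ ≤ M * B := by
    refine (norm_sum_le _ _).trans ?_
    calc ∑ x ∈ range (s % M), ‖g (b + ((M * (s / M) + x : ℕ) : ℤ))‖ ≤ ∑ x ∈ range (s % M), B :=
          Finset.sum_le_sum fun x _ => hB _
      _ = (s % M : ℕ) * B := by rw [Finset.sum_const, card_range, nsmul_eq_mul]
      _ ≤ M * B := by
          apply mul_le_mul_of_nonneg_right _ hB0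
          exact_mod_cast (Nat.mod_lt s hM).le
  have h6 : ‖(((s % M : ℕ) : ℂ) / M) * ∑ y ∈ Ico (0 : ℤ) M, g y‖ ≤ M * B := by
    have h7 : ‖∑ y ∈ Ico (0 : ℤ) M, g y‖ ≤ M * B := by
      refine (norm_sum_le _ _).trans ?_
      calc ∑ y ∈ Ico (0 : ℤ) M, ‖g y‖ ≤ ∑ _y ∈ Ico (0 : ℤ) M, B := Finset.sum_le_sum fun x _ => hB _
        _ = M * B := by
          rw [Finset.sum_const, nsmul_eq_mul, Int.card_Ico]
          simp
    rw [norm_mul, norm_div, Complex.norm_natCast, Complex.norm_natCast]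
    have h8 : ((s % M : ℕ) : ℝ) / M ≤ 1 := by
      rw [div_le_one hM0]
      exact_mod_cast (Nat.mod_lt s hM).le
    calc ((s % M : ℕ) : ℝ) / M * ‖∑ y ∈ Ico (0 : ℤ) M, g y‖ ≤ 1 * (M * B) :=
          mul_le_mul h8 h7 (norm_nonneg _) zero_le_one
      _ = M * B := one_mul _
  rw [h0, h2, h3]
  have h9 : ((s / M : ℕ) : ℂ) * ∑ y ∈ Ico (0 : ℤ) M, g y +
      ∑ x ∈ range (s % M), g (b + ((M * (s / M) + x : ℕ) : ℤ)) -
      (((s / M : ℕ) : ℂ) + ((s % M : ℕ) : ℂ) / M) * ∑ y ∈ Ico (0 : ℤ) M, g y =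
      ∑ x ∈ range (s % M), g (b + ((M * (s / M) + x : ℕ) : ℤ)) -
      (((s % M : ℕ) : ℂ) / M) * ∑ y ∈ Ico (0 : ℤ) M, g y := by ring
  rw [h9]
  refine (norm_sub_le _ _).trans ?_
  linarith

theorem fga2_pi {d : ℕ} (S : Fin (d + 1) → Finset ℤ) (F : (Fin (d + 1) → ℤ) → ℂ) :
    ∑ t ∈ Fintype.piFinset S, F t = ∑ x ∈ S 0, ∑ t ∈ Fintype.piFinset (fun j : Fin d => S j.succ),
      F (Fin.cons x t : Fin (d + 1) → ℤ) := by
  rw [← Finset.sum_product']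
  refine Finset.sum_nbij' (fun h => (h 0, Fin.tail h)) (fun p => (Fin.cons p.1 p.2 : Fin (d + 1) → ℤ)) ?_ ?_ ?_ ?_ ?_
  · intro h hh
    rw [Fintype.mem_piFinset] at hh
    rw [Finset.mem_product]
    refine ⟨hh 0, ?_⟩
    rw [Fintype.mem_piFinset]
    intro i
    exact hh i.succ
  · intro p hp
    rw [Finset.mem_product] at hp
    have h2 := Fintype.mem_piFinset.1 hp.2
    rw [Fintype.mem_piFinset]
    intro i
    refine Fin.cases ?_ ?_ i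
    · exact hp.1
    · intro j
      exact h2 j
  · intro h _
    exact Fin.cons_self_tail h
  · intro p _
    rfl
  · intro h _
    show F h = F (Fin.cons (h 0) (Fin.tail h) : Fin (d + 1) → ℤ)
    rw [Fin.cons_self_tail]

theorem fga2_card {d : ℕ} (b : Fin d → ℤ) (s : Fin d → ℕ) : ((tb b s).card : ℝ) = ∏ j, (s j : ℝ) := by
  unfold tb
  rw [Fintype.card_piFinset]
  push_cast
  refine Finset.prod_congr rfl fun j _ => ?_
  rw [Int.card_Ico]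
  simp

theorem fga2_cardB (d M : ℕ) : ((B0 d M).card : ℝ) = (M : ℝ) ^ d := by
  unfold B0
  rw [Fintype.card_piFinset]
  simp

/-- Proof. Induction on `d` with `Fin.cons` (or `Fin.consEquiv`; `Fin.cons_self_tail`): `tb b s` is the product of `Ico (b 0) (b 0 + s 0)` and the
box of `fun j => b j.succ`, `fun j => s j.succ`, the same for `B0 (d+1) M`. For fixed `t 0` the induction hypothesis; then `FGA2_one` for
`g (t0) = ∑_{t' ∈ B0 d M} f (Fin.cons t0 t')`, `B = M^d`: the error is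
`s 0 * card' * (2 d M/L) + (card'/M^d) * 2 M * M^d ≤ s 0 * card' * (2 (d+1) M/L)` since `L ≤ s 0`, i.e. `1 ≤ s 0 / L`. -/
theorem FGA2_diff {d : ℕ} (M L : ℕ) (hM : 1 ≤ M) (hL : 1 ≤ L) (b : Fin d → ℤ) (s : Fin d → ℕ) (hs : ∀ j, L ≤ s j)
    (f : (Fin d → ℤ) → ℂ) (hf : ∀ t t' : Fin d → ℤ, (∀ j, (M : ℤ) ∣ t j - t' j) → f t = f t')
    (hb : ∀ t, ‖f t‖ ≤ 1) :
    ‖∑ t ∈ tb b s, f t - (((tb b s).card : ℂ) / (M : ℂ) ^ d) * ∑ t ∈ B0 d M, f t‖ ≤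
      (tb b s).card * (2 * d * ((M : ℝ) / L)) := by
  have hM0 : (0 : ℝ) < M := by exact_mod_cast hM
  have hL0 : (0 : ℝ) < L := by exact_mod_cast hL
  have hMc : (M : ℂ) ≠ 0 := by
    have : M ≠ 0 := by omega
    exact_mod_cast this
  induction d with
  | zero =>
    have h1 : tb b s = {fun i : Fin 0 => i.elim0} := by
      ext h
      unfold tb
      rw [Fintype.mem_piFinset, Finset.mem_singleton]
      exact ⟨fun _ => Subsingleton.elim _ _, fun _ i => i.elim0⟩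
    have h2 : B0 0 M = {fun i : Fin 0 => i.elim0} := by
      ext h
      unfold B0
      rw [Fintype.mem_piFinset, Finset.mem_singleton]
      exact ⟨fun _ => Subsingleton.elim _ _, fun _ i => i.elim0⟩
    rw [h1, h2]
    simp
  | succ d ih =>
    have hsum : ∑ t ∈ tb b s, f t = ∑ x ∈ Ico (b 0) (b 0 + s 0), ∑ t ∈ tb (fun j : Fin d => b j.succ)
        (fun j : Fin d => s j.succ), f (Fin.cons x t : Fin (d + 1) → ℤ) := by
      unfold tb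
      rw [fga2_pi]
    have hsum0 : ∑ t ∈ B0 (d + 1) M, f t = ∑ x ∈ Ico (0 : ℤ) M, ∑ t ∈ B0 d M,
        f (Fin.cons x t : Fin (d + 1) → ℤ) := by
      unfold B0
      rw [fga2_pi]
    have hcard : ((tb b s).card : ℝ) = s 0 * (tb (fun j : Fin d => b j.succ) (fun j : Fin d => s j.succ)).card := by
      rw [fga2_card, fga2_card, Fin.prod_univ_succ]
    have hcardc : ((tb b s).card : ℂ) = s 0 * (tb (fun j : Fin d => b j.succ) (fun j : Fin d => s j.succ)).card := by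
      exact_mod_cast hcard
    obtain ⟨c', hc'⟩ : ∃ c' : ℕ, (tb (fun j : Fin d => b j.succ) (fun j : Fin d => s j.succ)).card = c' := ⟨_, rfl⟩
    rw [hc'] at hcard hcardc
    have hih : ∀ x : ℤ, ‖∑ t ∈ tb (fun j : Fin d => b j.succ) (fun j : Fin d => s j.succ),
        f (Fin.cons x t : Fin (d + 1) → ℤ) - ((c' : ℂ) / (M : ℂ) ^ d) * ∑ t ∈ B0 d M,
        f (Fin.cons x t : Fin (d + 1) → ℤ)‖ ≤ c' * (2 * d * ((M : ℝ) / L)) := by
      intro x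
      have h1 := ih (fun j : Fin d => b j.succ) (fun j : Fin d => s j.succ) (fun j => hs j.succ)
        (fun t => f (Fin.cons x t : Fin (d + 1) → ℤ)) ?_ (fun t => hb _)
      · rw [hc'] at h1
        exact h1
      · intro t t' ht
        refine hf _ _ ?_
        intro j
        refine Fin.cases ?_ ?_ j
        · simp
        · intro i
          exact ht i
    have hone := FGA2_one M hM (fun x => ∑ t ∈ B0 d M, f (Fin.cons x t : Fin (d + 1) → ℤ)) ?_ ((M : ℝ) ^ d) ?_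
      (b 0) (s 0)
    · rw [hsum, hsum0, hcardc]
      have hid : ∑ x ∈ Ico (b 0) (b 0 + s 0), ∑ t ∈ tb (fun j : Fin d => b j.succ)
          (fun j : Fin d => s j.succ), f (Fin.cons x t : Fin (d + 1) → ℤ) -
          ((s 0 : ℂ) * c' / (M : ℂ) ^ (d + 1)) * ∑ x ∈ Ico (0 : ℤ) M, ∑ t ∈ B0 d M,
            f (Fin.cons x t : Fin (d + 1) → ℤ) =
          ∑ x ∈ Ico (b 0) (b 0 + s 0), (∑ t ∈ tb (fun j : Fin d => b j.succ) (fun j : Fin d => s j.succ),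
            f (Fin.cons x t : Fin (d + 1) → ℤ) - ((c' : ℂ) / (M : ℂ) ^ d) * ∑ t ∈ B0 d M,
            f (Fin.cons x t : Fin (d + 1) → ℤ)) +
          ((c' : ℂ) / (M : ℂ) ^ d) * (∑ x ∈ Ico (b 0) (b 0 + s 0), ∑ t ∈ B0 d M,
            f (Fin.cons x t : Fin (d + 1) → ℤ) - ((s 0 : ℂ) / M) * ∑ x ∈ Ico (0 : ℤ) M, ∑ t ∈ B0 d M,
            f (Fin.cons x t : Fin (d + 1) → ℤ)) := by
        rw [Finset.sum_sub_distrib, ← Finset.mul_sum, mul_sub, pow_succ]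
        have hk : ((s 0 : ℂ) * c' / ((M : ℂ) ^ d * M)) = ((c' : ℂ) / (M : ℂ) ^ d) * ((s 0 : ℂ) / M) := by
          field_simp
        rw [hk]
        ring
      rw [hid]
      refine (norm_add_le _ _).trans ?_
      have hA : ‖∑ x ∈ Ico (b 0) (b 0 + s 0), (∑ t ∈ tb (fun j : Fin d => b j.succ) (fun j : Fin d => s j.succ),
            f (Fin.cons x t : Fin (d + 1) → ℤ) - ((c' : ℂ) / (M : ℂ) ^ d) * ∑ t ∈ B0 d M,
            f (Fin.cons x t : Fin (d + 1) → ℤ))‖ ≤ s 0 * (c' * (2 * d * ((M : ℝ) / L))) := by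
        refine (norm_sum_le _ _).trans ?_
        refine (Finset.sum_le_sum fun x _ => hih x).trans ?_
        rw [Finset.sum_const, nsmul_eq_mul, Int.card_Ico]
        simp
      have hMd : (0 : ℝ) < (M : ℝ) ^ d := by positivity
      have hB : ‖((c' : ℂ) / (M : ℂ) ^ d) * (∑ x ∈ Ico (b 0) (b 0 + s 0), ∑ t ∈ B0 d M,
            f (Fin.cons x t : Fin (d + 1) → ℤ) - ((s 0 : ℂ) / M) * ∑ x ∈ Ico (0 : ℤ) M, ∑ t ∈ B0 d M,
            f (Fin.cons x t : Fin (d + 1) → ℤ))‖ ≤ c' * (2 * M) := by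
        rw [norm_mul, norm_div, norm_pow, Complex.norm_natCast, Complex.norm_natCast]
        calc (c' : ℝ) / (M : ℝ) ^ d * ‖∑ x ∈ Ico (b 0) (b 0 + s 0), ∑ t ∈ B0 d M,
            f (Fin.cons x t : Fin (d + 1) → ℤ) - ((s 0 : ℂ) / M) * ∑ x ∈ Ico (0 : ℤ) M, ∑ t ∈ B0 d M,
            f (Fin.cons x t : Fin (d + 1) → ℤ)‖ ≤ (c' : ℝ) / (M : ℝ) ^ d * (2 * M * (M : ℝ) ^ d) :=
              mul_le_mul_of_nonneg_left hone (by positivity)
          _ = c' * (2 * M) := by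
            field_simp
      refine (add_le_add hA hB).trans ?_
      rw [hcard]
      have hsL : (1 : ℝ) ≤ (s 0 : ℝ) / L := by
        rw [le_div_iff₀ hL0, one_mul]
        exact_mod_cast hs 0
      have hfin : (c' : ℝ) * (2 * M) ≤ c' * (2 * M) * ((s 0 : ℝ) / L) := by
        have h0 : (0 : ℝ) ≤ c' * (2 * M) := by positivity
        nlinarith
      calc (s 0 : ℝ) * (c' * (2 * d * ((M : ℝ) / L))) + c' * (2 * M)
          ≤ (s 0 : ℝ) * (c' * (2 * d * ((M : ℝ) / L))) + c' * (2 * M) * ((s 0 : ℝ) / L) := by linarith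
        _ = (s 0 : ℝ) * c' * (2 * ((d + 1 : ℕ) : ℝ) * ((M : ℝ) / L)) := by
          push_cast
          ring
    · intro y y' hy
      refine Finset.sum_congr rfl fun t _ => ?_
      refine hf _ _ ?_
      intro j
      refine Fin.cases ?_ ?_ j
      · exact hy
      · intro i
        simp
    · intro y
      refine (norm_sum_le _ _).trans ?_
      refine (Finset.sum_le_sum fun t _ => hb _).trans ?_
      rw [Finset.sum_const, nsmul_eq_mul, mul_one, fga2_cardB]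

/-- From `FGA2_diff`, triangle inequality. -/
theorem FGA2 {d : ℕ} (M L : ℕ) (hM : 1 ≤ M) (hL : 1 ≤ L) (b : Fin d → ℤ) (s : Fin d → ℕ) (hs : ∀ j, L ≤ s j)
    (f : (Fin d → ℤ) → ℂ) (hf : ∀ t t' : Fin d → ℤ, (∀ j, (M : ℤ) ∣ t j - t' j) → f t = f t')
    (hb : ∀ t, ‖f t‖ ≤ 1) :
    ‖∑ t ∈ tb b s, f t‖ ≤ (tb b s).card * (‖∑ t ∈ B0 d M, f t‖ / (M : ℝ) ^ d + 2 * d * ((M : ℝ) / L)) := by
  have h1 := FGA2_diff M L hM hL b s hs f hf hb
  have h2 : ‖(((tb b s).card : ℂ) / (M : ℂ) ^ d) * ∑ t ∈ B0 d M, f t‖ =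
      (tb b s).card * (‖∑ t ∈ B0 d M, f t‖ / (M : ℝ) ^ d) := by
    rw [norm_mul, norm_div, norm_pow, Complex.norm_natCast, Complex.norm_natCast]
    ring
  have h3 := norm_sub_norm_le (∑ t ∈ tb b s, f t) ((((tb b s).card : ℂ) / (M : ℂ) ^ d) * ∑ t ∈ B0 d M, f t)
  rw [h2] at h3
  rw [mul_add]
  linarith

end Pool.Agent.HUP
end

-- from Lib.HUP.FGA5
section

/-!
# Project HUP, chunk FGA5 (S/M): complete means are multiplicative
-/

open Finset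

namespace Pool.Agent.HUP

open Pool.Agent.HUK (kb1_sum1 kb1_mem kb1_inj kb1_surj)

theorem fga5_sum1 {γ : Type*} [AddCommMonoid γ] (M1 M2 : ℕ) (h1 : 1 ≤ M1) (h2 : 1 ≤ M2) (hc : Nat.Coprime M1 M2)
    (F : ℤ → ℤ → γ) :
    ∑ x ∈ Ico (0 : ℤ) ((M1 * M2 : ℕ) : ℤ), F (x % (M1 : ℤ)) (x % (M2 : ℤ)) =
      ∑ a ∈ Ico (0 : ℤ) M1, ∑ b ∈ Ico (0 : ℤ) M2, F a b := by
  rw [← sum_product' (Ico (0 : ℤ) M1) (Ico (0 : ℤ) M2) F]
  refine sum_bij (fun x _ => (x % (M1 : ℤ), x % (M2 : ℤ))) ?_ ?_ ?_ ?_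
  · intro x _
    exact mem_product.2 ⟨kb1_mem M1 h1 x, kb1_mem M2 h2 x⟩
  · intro x hx y hy e
    rw [Prod.mk.injEq] at e
    exact kb1_inj M1 M2 hc hx hy e.1 e.2
  · rintro ⟨a, b⟩ hab
    rw [mem_product] at hab
    obtain ⟨x, hx, e1, e2⟩ := kb1_surj M1 M2 h1 h2 hc hab.1 hab.2
    exact ⟨x, hx, by rw [e1, e2]⟩
  · intro x _; rfl

theorem fga5_sumk {γ : Type*} [AddCommMonoid γ] (d M1 M2 : ℕ) (h1 : 1 ≤ M1) (h2 : 1 ≤ M2) (hc : Nat.Coprime M1 M2)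
    (F : (Fin d → ℤ) → (Fin d → ℤ) → γ) :
    ∑ h ∈ B0 d (M1 * M2), F (fun i => h i % (M1 : ℤ)) (fun i => h i % (M2 : ℤ)) =
      ∑ a ∈ B0 d M1, ∑ b ∈ B0 d M2, F a b := by
  unfold B0
  rw [← sum_product' _ _ F]
  refine sum_bij (fun h _ => (fun i => h i % (M1 : ℤ), fun i => h i % (M2 : ℤ))) ?_ ?_ ?_ ?_
  · intro h _
    exact mem_product.2 ⟨Fintype.mem_piFinset.2 fun i => kb1_mem M1 h1 _,
      Fintype.mem_piFinset.2 fun i => kb1_mem M2 h2 _⟩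
  · intro x hx y hy e
    rw [Prod.mk.injEq] at e
    funext i
    exact kb1_inj M1 M2 hc (Fintype.mem_piFinset.1 hx i) (Fintype.mem_piFinset.1 hy i)
      (congrFun e.1 i) (congrFun e.2 i)
  · rintro ⟨a, b⟩ hab
    rw [mem_product, Fintype.mem_piFinset, Fintype.mem_piFinset] at hab
    choose x hx e1 e2 using fun i => kb1_surj M1 M2 h1 h2 hc (hab.1 i) (hab.2 i)
    refine ⟨x, Fintype.mem_piFinset.2 hx, ?_⟩
    rw [Prod.mk.injEq]
    exact ⟨funext e1, funext e2⟩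
  · intro x _; rfl

theorem FGA5_nn {d : ℕ} (M : ℕ) (F : ℤ → ℤ → (Fin d → ℤ) → ℂ) : 0 ≤ ms M F := by
  unfold ms
  positivity

theorem FGA5_one {d : ℕ} (M : ℕ) (hM : 1 ≤ M) (F : ℤ → ℤ → (Fin d → ℤ) → ℂ) (h : ∀ n n' t, ‖F n n' t‖ ≤ 1) :
    ms M F ≤ 1 := by
  have hM' : (0 : ℝ) < M := by exact_mod_cast hM
  have hcard : ((B0 d M).card : ℝ) = (M : ℝ) ^ d := by
    unfold B0
    rw [Fintype.card_piFinset]
    simp
  have h1 : ∀ n n' : ℤ, ‖∑ t ∈ B0 d M, F n n' t‖ ^ 2 ≤ ((M : ℝ) ^ d) ^ 2 := by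
    intro n n'
    have h2 : ‖∑ t ∈ B0 d M, F n n' t‖ ≤ (M : ℝ) ^ d := by
      refine (norm_sum_le _ _).trans ?_
      refine (sum_le_sum fun t _ => h n n' t).trans ?_
      rw [sum_const, nsmul_eq_mul, mul_one, hcard]
    exact pow_le_pow_left₀ (norm_nonneg _) h2 2
  unfold ms
  apply div_le_one_of_le₀ _ (by positivity)
  refine (sum_le_sum fun n _ => sum_le_sum fun n' _ => h1 n n').trans ?_
  rw [sum_const, sum_const]
  simp only [Int.card_Ico, sub_zero, Int.toNat_natCast, nsmul_eq_mul]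
  apply le_of_eq
  ring

theorem FGA5_per {d : ℕ} (M1 M2 : ℕ) (F1 F2 : ℤ → ℤ → (Fin d → ℤ) → ℂ) (h1 : Pp M1 F1) (h2 : Pp M2 F2) :
    Pp (M1 * M2) (fun n n' t => F1 n n' t * F2 n n' t) := by
  intro n m n' m' t t' hn hn' ht
  have hm : ((M1 * M2 : ℕ) : ℤ) = (M1 : ℤ) * M2 := by push_cast; rfl
  rw [hm] at hn hn'
  have a1 := h1 n m n' m' t t' ((dvd_mul_right _ _).trans hn) ((dvd_mul_right _ _).trans hn')
    fun j => (dvd_mul_right _ _).trans (hm ▸ ht j)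
  have a2 := h2 n m n' m' t t' ((dvd_mul_left _ _).trans hn) ((dvd_mul_left _ _).trans hn')
    fun j => (dvd_mul_left _ _).trans (hm ▸ ht j)
  simp only [a1, a2]

/-- Proof. As `KB1_mul` in `HUK/KB1.lean`. For `t`: `kb1_sumk` of that file is for real `F`; reprove it for complex `F` (same proof). For
fixed `n`, `n'`: `∑_{t ∈ B0 d (M1 M2)} F1 F2 = (∑_{B0 d M1} F1) (∑_{B0 d M2} F2)` and the two factors depend only on `n`, `n'` modulo `M1` resp.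
`M2`; squares of norms are multiplicative; `kb1_sum1` (take real parts, or casts) for `n'` and for `n`;
`(M1 M2)^2 ((M1 M2)^d)^2` is the product of the normalisations. -/
theorem FGA5_mul {d : ℕ} (M1 M2 : ℕ) (h1 : 1 ≤ M1) (h2 : 1 ≤ M2) (hc : Nat.Coprime M1 M2)
    (F1 F2 : ℤ → ℤ → (Fin d → ℤ) → ℂ) (hp1 : Pp M1 F1) (hp2 : Pp M2 F2) :
    ms (M1 * M2) (fun n n' t => F1 n n' t * F2 n n' t) = ms M1 F1 * ms M2 F2 := by
  have e1 : ∀ (M : ℕ) (F : ℤ → ℤ → (Fin d → ℤ) → ℂ), Pp M F → ∀ n n' t,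
      F n n' t = F (n % (M : ℤ)) (n' % (M : ℤ)) (fun i => t i % (M : ℤ)) := by
    intro M F hp n n' t
    apply hp
    · exact Int.dvd_self_sub_emod
    · exact Int.dvd_self_sub_emod
    · intro i; exact Int.dvd_self_sub_emod
  have e2 : ∀ n n' : ℤ, ‖∑ t ∈ B0 d (M1 * M2), F1 n n' t * F2 n n' t‖ ^ 2 =
      ‖∑ t ∈ B0 d M1, F1 (n % (M1 : ℤ)) (n' % (M1 : ℤ)) t‖ ^ 2 *
        ‖∑ t ∈ B0 d M2, F2 (n % (M2 : ℤ)) (n' % (M2 : ℤ)) t‖ ^ 2 := by
    intro n n'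
    rw [← mul_pow, ← norm_mul, sum_mul_sum]
    congr 2
    rw [← fga5_sumk d M1 M2 h1 h2 hc
      (fun a b => F1 (n % (M1 : ℤ)) (n' % (M1 : ℤ)) a * F2 (n % (M2 : ℤ)) (n' % (M2 : ℤ)) b)]
    apply sum_congr rfl; intro t _
    rw [e1 M1 F1 hp1 n n' t, e1 M2 F2 hp2 n n' t]
  simp only [ms]
  rw [sum_congr rfl fun n _ => sum_congr rfl fun n' _ => e2 n n']
  have e3 : ∀ n : ℤ, ∑ n' ∈ Ico (0 : ℤ) ((M1 * M2 : ℕ) : ℤ),
      ‖∑ t ∈ B0 d M1, F1 (n % (M1 : ℤ)) (n' % (M1 : ℤ)) t‖ ^ 2 *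
        ‖∑ t ∈ B0 d M2, F2 (n % (M2 : ℤ)) (n' % (M2 : ℤ)) t‖ ^ 2 =
      (∑ a' ∈ Ico (0 : ℤ) M1, ‖∑ t ∈ B0 d M1, F1 (n % (M1 : ℤ)) a' t‖ ^ 2) *
        ∑ b' ∈ Ico (0 : ℤ) M2, ‖∑ t ∈ B0 d M2, F2 (n % (M2 : ℤ)) b' t‖ ^ 2 := by
    intro n
    rw [sum_mul_sum]
    exact fga5_sum1 M1 M2 h1 h2 hc (fun a' b' => ‖∑ t ∈ B0 d M1, F1 (n % (M1 : ℤ)) a' t‖ ^ 2 *
      ‖∑ t ∈ B0 d M2, F2 (n % (M2 : ℤ)) b' t‖ ^ 2)
  rw [sum_congr rfl fun n _ => e3 n]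
  rw [fga5_sum1 M1 M2 h1 h2 hc (fun a b => (∑ a' ∈ Ico (0 : ℤ) M1, ‖∑ t ∈ B0 d M1, F1 a a' t‖ ^ 2) *
    ∑ b' ∈ Ico (0 : ℤ) M2, ‖∑ t ∈ B0 d M2, F2 b b' t‖ ^ 2)]
  rw [← sum_mul_sum, div_mul_div_comm]
  congr 1
  push_cast
  rw [mul_pow, mul_pow, mul_pow]
  ring

end Pool.Agent.HUP
end

-- from Lib.HUP.FGA6
section

/-!
# Project HUP, chunk FGA6 (S): products over primes
-/

open Finset

namespace Pool.Agent.HUP

/-- Proof. Exactly as `KB2_prod` in `HUK/KB2.lean`. -/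
theorem FGA6_prod {d : ℕ} (R : ℕ) (hR : 1 ≤ R) (L : Finset ℕ) (hL : ∀ l ∈ L, l.Prime) (hLR : ∀ l ∈ L, Nat.Coprime l R)
    (F0 : ℤ → ℤ → (Fin d → ℤ) → ℂ) (h0 : Pp R F0) (F : ℕ → ℤ → ℤ → (Fin d → ℤ) → ℂ) (hF : ∀ l ∈ L, Pp l (F l)) :
    Pp (R * ∏ l ∈ L, l) (fun n n' t => F0 n n' t * ∏ l ∈ L, F l n n' t) ∧
    ms (R * ∏ l ∈ L, l) (fun n n' t => F0 n n' t * ∏ l ∈ L, F l n n' t) = ms R F0 * ∏ l ∈ L, ms l (F l) := by
  classical
  revert hL hLR hF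
  refine Finset.induction_on L ?_ ?_
  · intro _ _ _
    simp only [Finset.prod_empty, mul_one]
    exact ⟨h0, trivial⟩
  · intro q S hq ih hP hPr hφ
    have hqS : q ∈ insert q S := mem_insert_self _ _
    obtain ⟨ih1, ih2⟩ := ih (fun l hl => hP l (mem_insert_of_mem hl)) (fun l hl => hPr l (mem_insert_of_mem hl))
      (fun l hl => hφ l (mem_insert_of_mem hl))
    have hqp := hP q hqS
    have hM : 1 ≤ R * ∏ l ∈ S, l := Nat.mul_pos hR (Finset.prod_pos fun l hl => (hP l (mem_insert_of_mem hl)).pos)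
    have hco : Nat.Coprime (R * ∏ l ∈ S, l) q := by
      refine Nat.Coprime.mul_left (hPr q hqS).symm ?_
      refine Nat.Coprime.prod_left fun l hl => ?_
      exact (Nat.coprime_primes (hP l (mem_insert_of_mem hl)) hqp).2 (fun h => hq (h ▸ hl))
    have e1 : R * ∏ l ∈ insert q S, l = (R * ∏ l ∈ S, l) * q := by
      rw [prod_insert hq]
      ring
    have e2 : (fun n n' t => F0 n n' t * ∏ l ∈ insert q S, F l n n' t) =
        fun n n' t => (F0 n n' t * ∏ l ∈ S, F l n n' t) * F q n n' t := by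
      funext n n' t
      rw [prod_insert hq]
      ring
    rw [e1, e2]
    refine ⟨FGA5_per _ _ _ _ ih1 (hφ q hqS), ?_⟩
    rw [FGA5_mul _ _ hM hqp.pos hco _ _ ih1 (hφ q hqS), ih2, prod_insert hq]
    ring

end Pool.Agent.HUP
end

-- from Lib.HUP.FGC1
section

/-!
# Project HUP, chunk FGC1 (S/M): the lower coefficients modulo `R`
-/

open Finset Polynomial

namespace Pool.Agent.HUP

/-- One polynomial. Proof. `P' = C P.leadingCoeff * X ^ D + ∑ j ∈ range D, C (P.coeff j % R) * X ^ j`, `D = P.natDegree ≥ 1`. Degree of the second sum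
`< D`, `P.leadingCoeff ≠ 0`. Congruence: `P.eval n = ∑ j ∈ range (D + 1), P.coeff j * n ^ j` (`Polynomial.eval_eq_sum_range`). For `0 ≤ n < X`,
`R ≤ X`: `|P'(n)| ≤ |lc| X^D + ∑_{j < D} (R - 1) n^j`, and each term `(R - 1) n^j ≤ X * X^(D-1) = X^D`. -/
theorem FGC1_one (P : ℤ[X]) (hP : 1 ≤ P.natDegree) (R : ℕ) (hR : 1 ≤ R) : ∃ P' : ℤ[X],
    P'.natDegree = P.natDegree ∧ P'.leadingCoeff = P.leadingCoeff ∧ (∀ n : ℤ, (R : ℤ) ∣ P.eval n - P'.eval n) ∧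
    ∀ (X : ℕ) (n : ℤ), R ≤ X → 0 ≤ n → n < X →
      |P'.eval n| ≤ (P.leadingCoeff.natAbs + P.natDegree) * (X : ℤ) ^ P.natDegree := by
  classical
  have hlc : P.leadingCoeff ≠ 0 := by
    intro h0
    rw [leadingCoeff_eq_zero] at h0
    rw [h0] at hP
    simp at hP
  obtain ⟨S, hSdef⟩ : ∃ S : ℤ[X], S = ∑ j ∈ range P.natDegree, C (P.coeff j % R) * X ^ j := ⟨_, rfl⟩
  have hS : S.degree < (P.natDegree : ℕ) := by
    rw [hSdef, Finset.sum_range]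
    exact degree_sum_fin_lt (fun i : Fin P.natDegree => P.coeff i % R)
  have hlt : S.degree < (C P.leadingCoeff * X ^ P.natDegree).degree := by
    rw [degree_C_mul_X_pow _ hlc]; exact hS
  have hev : ∀ n : ℤ, (C P.leadingCoeff * X ^ P.natDegree + S).eval n =
      P.leadingCoeff * n ^ P.natDegree + ∑ j ∈ range P.natDegree, (P.coeff j % R) * n ^ j := by
    intro n
    rw [eval_add, hSdef, eval_finset_sum]
    simp
  refine ⟨C P.leadingCoeff * X ^ P.natDegree + S, ?_, ?_, ?_, ?_⟩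
  · rw [natDegree_add_eq_left_of_degree_lt hlt, natDegree_C_mul_X_pow _ _ hlc]
  · rw [leadingCoeff_add_of_degree_lt' hlt, leadingCoeff_C_mul_X_pow]
  · intro n
    rw [hev, eval_eq_sum_range, Finset.sum_range_succ]
    have h1 : (∑ j ∈ range P.natDegree, P.coeff j * n ^ j + P.coeff P.natDegree * n ^ P.natDegree) -
        (P.leadingCoeff * n ^ P.natDegree + ∑ j ∈ range P.natDegree, (P.coeff j % R) * n ^ j) =
        ∑ j ∈ range P.natDegree, (P.coeff j - P.coeff j % R) * n ^ j := by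
      rw [leadingCoeff]
      simp only [sub_mul, Finset.sum_sub_distrib]
      ring
    rw [h1]
    apply Finset.dvd_sum
    intro j _
    exact Dvd.dvd.mul_right (Int.dvd_self_sub_emod) _
  · intro Y n hRY hn0 hnY
    rw [hev]
    have hY1 : (1 : ℤ) ≤ Y := by exact_mod_cast hR.trans hRY
    have hRY' : (R : ℤ) ≤ Y := by exact_mod_cast hRY
    have hRp : (0 : ℤ) < R := by exact_mod_cast hR
    have h2 : |P.leadingCoeff * n ^ P.natDegree| ≤ (P.leadingCoeff.natAbs : ℤ) * (Y : ℤ) ^ P.natDegree := by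
      rw [abs_mul, Int.natCast_natAbs, abs_of_nonneg (pow_nonneg hn0 _)]
      exact mul_le_mul_of_nonneg_left (pow_le_pow_left₀ hn0 hnY.le _) (abs_nonneg _)
    have h3 : |∑ j ∈ range P.natDegree, (P.coeff j % R) * n ^ j| ≤ (P.natDegree : ℤ) * (Y : ℤ) ^ P.natDegree := by
      refine (Finset.abs_sum_le_sum_abs _ _).trans ?_
      have h4 : ∀ j ∈ range P.natDegree, |(P.coeff j % R) * n ^ j| ≤ (Y : ℤ) ^ P.natDegree := by
        intro j hj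
        rw [Finset.mem_range] at hj
        have h5 : 0 ≤ P.coeff j % R := Int.emod_nonneg _ hRp.ne'
        have h6 : P.coeff j % R < R := Int.emod_lt_of_pos _ hRp
        rw [abs_of_nonneg (mul_nonneg h5 (pow_nonneg hn0 _))]
        have h7 : n ^ j ≤ (Y : ℤ) ^ (P.natDegree - 1) :=
          (pow_le_pow_left₀ hn0 hnY.le _).trans (pow_le_pow_right₀ hY1 (by omega))
        calc (P.coeff j % R) * n ^ j ≤ (Y : ℤ) * (Y : ℤ) ^ (P.natDegree - 1) :=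
              mul_le_mul (h6.le.trans hRY') h7 (pow_nonneg hn0 _) (by omega)
          _ = (Y : ℤ) ^ P.natDegree := by
              rw [← pow_succ']
              congr 1
              omega
      refine (Finset.sum_le_sum h4).trans ?_
      simp
    refine (abs_add_le _ _).trans ?_
    rw [add_mul]
    exact add_le_add h2 h3

/-- `FGC1_one` for every `i` (`choose`). -/
theorem FGC1 {k : ℕ} (D : Fin k → ℕ) (a : Fin k → ℤ) (hD : ∀ i, 1 ≤ D i) (P : Fin k → ℤ[X]) (hP : HasD D a P)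
    (R : ℕ) (hR : 1 ≤ R) : ∃ P' : Fin k → ℤ[X], HasD D a P' ∧
    (∀ (i : Fin k) (n : ℤ), (R : ℤ) ∣ (P i).eval n - (P' i).eval n) ∧
    ∀ (i : Fin k) (X : ℕ) (n : ℤ), R ≤ X → 0 ≤ n → n < X →
      |(P' i).eval n| ≤ ((a i).natAbs + D i) * (X : ℤ) ^ D i := by
  have h : ∀ i, ∃ P' : ℤ[X],
    P'.natDegree = (P i).natDegree ∧ P'.leadingCoeff = (P i).leadingCoeff ∧
      (∀ n : ℤ, (R : ℤ) ∣ (P i).eval n - P'.eval n) ∧
    ∀ (X : ℕ) (n : ℤ), R ≤ X → 0 ≤ n → n < X →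
      |P'.eval n| ≤ ((P i).leadingCoeff.natAbs + (P i).natDegree) * (X : ℤ) ^ (P i).natDegree :=
    fun i => FGC1_one (P i) (by rw [(hP i).1]; exact hD i) R hR
  choose P' h1 h2 h3 h4 using h
  refine ⟨P', fun i => ⟨(h1 i).trans (hP i).1, (h2 i).trans (hP i).2⟩, h3, ?_⟩
  intro i Y n hRY hn0 hnY
  have h5 := h4 i Y n hRY hn0 hnY
  rw [(hP i).1, (hP i).2] at h5
  exact h5

end Pool.Agent.HUP
end

-- from Lib.HUP.FGC2
section

/-!
# Project HUP, chunk FGC2 (S/M): the mean over pairs from the mean with weights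
-/

open Finset

namespace Pool.Agent.HUP

theorem fgc2_sq {a b : ℝ} (h : a ^ 2 ≤ b ^ 2) (hb : 0 ≤ b) : a ≤ b :=
  (abs_le_of_sq_le_sq' h hb).2

/-- For one `n'`. -/
theorem fgc2_one {d : ℕ} (R : ℕ) (hR : 1 ≤ R) (G G' : ℤ → (Fin d → ℤ) → ℂ) (hG : ∀ n t, ‖G n t‖ ≤ 1)
    (hG' : ∀ n t, ‖G' n t‖ ≤ 1) (δ : ℝ) (hδ : 0 ≤ δ)
    (h : ∀ w : ℤ → ℂ, (∀ n, ‖w n‖ ≤ 1) →
      ∑ t ∈ B0 d R, ‖∑ n ∈ Ico (0 : ℤ) R, w n * G n t‖ ^ 2 ≤ δ ^ 2 * (R : ℝ) ^ d * (R : ℝ) ^ 2) (n' : ℤ) :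
    ∑ n ∈ Ico (0 : ℤ) R, ‖∑ t ∈ B0 d R, G n t * G' n' t‖ ^ 2 ≤ δ * R * ((R : ℝ) ^ d) ^ 2 := by
  have hN : ((B0 d R).card : ℝ) = (R : ℝ) ^ d := by
    unfold B0
    rw [Fintype.card_piFinset]
    simp
  have hRp : (0 : ℝ) < R := by exact_mod_cast hR
  have hNpos : (0 : ℝ) < (R : ℝ) ^ d := by positivity
  obtain ⟨M, hM⟩ : ∃ M : ℤ → ℂ, ∀ n, M n = ∑ t ∈ B0 d R, G n t * G' n' t := ⟨_, fun _ => rfl⟩
  have hMb : ∀ n, ‖M n‖ ≤ (R : ℝ) ^ d := by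
    intro n
    rw [hM, ← hN]
    refine (norm_sum_le _ _).trans ?_
    have h1 : ∀ t ∈ B0 d R, ‖G n t * G' n' t‖ ≤ 1 := fun t _ => by
      rw [norm_mul]; exact mul_le_one₀ (hG n t) (norm_nonneg _) (hG' n' t)
    refine (Finset.sum_le_sum h1).trans ?_
    simp
  obtain ⟨w, hw⟩ : ∃ w : ℤ → ℂ, ∀ n, w n = (starRingEnd ℂ) (M n) / ((R : ℂ) ^ d) := ⟨_, fun _ => rfl⟩
  have hw1 : ∀ n, ‖w n‖ ≤ 1 := by
    intro n
    rw [hw]
    simp only [norm_div, RCLike.norm_conj, norm_pow, Complex.norm_natCast]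
    exact (div_le_one hNpos).2 (hMb n)
  have hq := h w hw1
  obtain ⟨x, hx⟩ : ∃ x : (Fin d → ℤ) → ℝ, ∀ t, x t = ‖∑ n ∈ Ico (0 : ℤ) R, w n * G n t‖ := ⟨_, fun _ => rfl⟩
  have hx0 : ∀ t, 0 ≤ x t := fun t => by rw [hx]; exact norm_nonneg _
  have hx1 : ∑ t ∈ B0 d R, x t ≤ δ * (R : ℝ) ^ d * R := by
    have h1 : (∑ t ∈ B0 d R, x t) ^ 2 ≤ (δ * (R : ℝ) ^ d * R) ^ 2 := by
      calc (∑ t ∈ B0 d R, x t) ^ 2 ≤ (B0 d R).card * ∑ t ∈ B0 d R, x t ^ 2 := sq_sum_le_card_mul_sum_sq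
        _ ≤ (R : ℝ) ^ d * (δ ^ 2 * (R : ℝ) ^ d * (R : ℝ) ^ 2) := by
            rw [hN]
            refine mul_le_mul_of_nonneg_left ?_ hNpos.le
            simpa only [hx] using hq
        _ = (δ * (R : ℝ) ^ d * R) ^ 2 := by ring
    exact fgc2_sq h1 (by positivity)
  have h2 : ((∑ n ∈ Ico (0 : ℤ) R, ‖M n‖ ^ 2 : ℝ) : ℂ) =
      ∑ t ∈ B0 d R, G' n' t * ((R : ℂ) ^ d * ∑ n ∈ Ico (0 : ℤ) R, w n * G n t) := by
    have hRc : ((R : ℂ) ^ d) ≠ 0 := by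
      apply pow_ne_zero
      exact_mod_cast (Nat.one_le_iff_ne_zero.mp hR)
    have h3 : ∀ n, (((‖M n‖ ^ 2 : ℝ)) : ℂ) = ∑ t ∈ B0 d R, G' n' t * ((R : ℂ) ^ d * (w n * G n t)) := by
      intro n
      have h4 : (((‖M n‖ ^ 2 : ℝ)) : ℂ) = (starRingEnd ℂ) (M n) * M n := by
        rw [mul_comm, Complex.mul_conj, Complex.normSq_eq_norm_sq]
      have h5 : (starRingEnd ℂ) (M n) = (R : ℂ) ^ d * w n := by
        rw [hw]; field_simp
      rw [h4, h5]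
      conv_lhs => rw [hM n]
      rw [Finset.mul_sum]
      refine Finset.sum_congr rfl fun t _ => ?_
      ring
    rw [Complex.ofReal_sum, Finset.sum_congr rfl fun n _ => h3 n, Finset.sum_comm]
    refine Finset.sum_congr rfl fun t _ => ?_
    rw [Finset.mul_sum, Finset.mul_sum]
  have h6 : ∑ n ∈ Ico (0 : ℤ) R, ‖M n‖ ^ 2 ≤ (R : ℝ) ^ d * ∑ t ∈ B0 d R, x t := by
    have h7 : (∑ n ∈ Ico (0 : ℤ) R, ‖M n‖ ^ 2 : ℝ) = ‖((∑ n ∈ Ico (0 : ℤ) R, ‖M n‖ ^ 2 : ℝ) : ℂ)‖ := by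
      rw [Complex.norm_real, Real.norm_of_nonneg]
      exact Finset.sum_nonneg fun n _ => by positivity
    rw [h7, h2, Finset.mul_sum]
    refine (norm_sum_le _ _).trans (Finset.sum_le_sum fun t _ => ?_)
    rw [norm_mul, norm_mul, norm_pow, Complex.norm_natCast, ← hx t]
    calc ‖G' n' t‖ * ((R : ℝ) ^ d * x t) ≤ 1 * ((R : ℝ) ^ d * x t) :=
          mul_le_mul_of_nonneg_right (hG' n' t) (mul_nonneg hNpos.le (hx0 t))
      _ = (R : ℝ) ^ d * x t := one_mul _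
  calc ∑ n ∈ Ico (0 : ℤ) R, ‖∑ t ∈ B0 d R, G n t * G' n' t‖ ^ 2 = ∑ n ∈ Ico (0 : ℤ) R, ‖M n‖ ^ 2 := by
        simp only [hM]
    _ ≤ (R : ℝ) ^ d * ∑ t ∈ B0 d R, x t := h6
    _ ≤ (R : ℝ) ^ d * (δ * (R : ℝ) ^ d * R) := mul_le_mul_of_nonneg_left hx1 hNpos.le
    _ = δ * R * ((R : ℝ) ^ d) ^ 2 := by ring

/-- Proof. `M n n' = ∑_{t ∈ B0 d R} G n t * G' n' t`, `‖M n n'‖ ≤ R^d` (`card (B0 d R) = R^d`). `∑_{n,n'} ‖M n n'‖² = ∑_{n'} ∑_t G' n' t ∑_n conj (M n n') G n t`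
(as complex numbers), at most `∑_{n'} ∑_t ‖∑_n conj (M n n') G n t‖`. For fixed `n'` let `w n = conj (M n n') / R^d`, so `‖w n‖ ≤ 1` and the inner sum is
`R^d ∑_t ‖∑_n w n G n t‖ ≤ R^d (R^d)^(1/2) (∑_t ‖∑_n w n G n t‖²)^(1/2) ≤ R^d (R^d)^(1/2) δ (R^d)^(1/2) R = δ R^(2d) R`. Sum over `n'`: `δ R^(2d) R²`. -/
theorem FGC2 {d : ℕ} (R : ℕ) (hR : 1 ≤ R) (G G' : ℤ → (Fin d → ℤ) → ℂ) (hG : ∀ n t, ‖G n t‖ ≤ 1)
    (hG' : ∀ n t, ‖G' n t‖ ≤ 1) (δ : ℝ) (hδ : 0 ≤ δ)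
    (h : ∀ w : ℤ → ℂ, (∀ n, ‖w n‖ ≤ 1) →
      ∑ t ∈ B0 d R, ‖∑ n ∈ Ico (0 : ℤ) R, w n * G n t‖ ^ 2 ≤ δ ^ 2 * (R : ℝ) ^ d * (R : ℝ) ^ 2) :
    ms R (fun n n' t => G n t * G' n' t) ≤ δ := by
  have hRp : (0 : ℝ) < R := by exact_mod_cast hR
  unfold ms
  rw [div_le_iff₀ (by positivity), Finset.sum_comm]
  refine (Finset.sum_le_sum fun n' _ => fgc2_one R hR G G' hG hG' δ hδ h n').trans ?_
  rw [Finset.sum_const, Int.card_Ico, nsmul_eq_mul]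
  simp only [sub_zero, Int.toNat_natCast]
  exact le_of_eq (by ring)

end Pool.Agent.HUP
end

-- from Lib.HUP.FGC3
section

/-!
# Project HUP, chunk FGC3 (S/M): complete means as sums over long boxes
-/

open Finset

namespace Pool.Agent.HUP

open Pool.Agent.HUK (kb3_blocks kb3_block)

theorem fgc3_card (R : ℕ) (hR : 1 ≤ R) (m : ℕ) (r : ℤ) (hr0 : 0 ≤ r) (hr : r < R) :
    ((Ico (0 : ℤ) (0 + ((R * m : ℕ) : ℤ))).filter (fun x => x % (R : ℤ) = r)).card = m := by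
  have hR0 : (0 : ℤ) < R := by exact_mod_cast hR
  refine (Finset.card_nbij' (t := range m) (fun x : ℤ => (x / (R : ℤ)).toNat) (fun l : ℕ => r + (R : ℤ) * l)
    ?_ ?_ ?_ ?_).trans (card_range m)
  · intro x hx
    rw [mem_coe, mem_filter, mem_Ico] at hx
    rw [mem_coe, mem_range]
    have h1 : 0 ≤ x / (R : ℤ) := Int.ediv_nonneg hx.1.1 hR0.le
    have h2 : x / (R : ℤ) < m := by
      apply Int.ediv_lt_of_lt_mul hR0
      have h3 := hx.1.2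
      push_cast at h3
      linarith [mul_comm (R : ℤ) (m : ℤ)]
    show (x / (R : ℤ)).toNat < m
    omega
  · intro l hl
    rw [mem_coe, mem_range] at hl
    rw [mem_coe, mem_filter, mem_Ico]
    have h1 : (0 : ℤ) ≤ (R : ℤ) * l := by positivity
    have h2 : (R : ℤ) * (l + 1) ≤ (R : ℤ) * m := mul_le_mul_of_nonneg_left (by exact_mod_cast hl) hR0.le
    refine ⟨⟨?_, ?_⟩, ?_⟩
    · show 0 ≤ r + (R : ℤ) * l
      linarith
    · show r + (R : ℤ) * l < 0 + ((R * m : ℕ) : ℤ)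
      push_cast
      linarith
    · show (r + (R : ℤ) * l) % (R : ℤ) = r
      rw [Int.add_mul_emod_self_left]
      exact Int.emod_eq_of_lt hr0 hr
  · intro x hx
    rw [mem_coe, mem_filter, mem_Ico] at hx
    show r + (R : ℤ) * (((x / (R : ℤ)).toNat : ℕ) : ℤ) = x
    rw [Int.toNat_of_nonneg (Int.ediv_nonneg hx.1.1 hR0.le), ← hx.2]
    exact Int.emod_add_mul_ediv x R
  · intro l _
    show ((r + (R : ℤ) * l) / (R : ℤ)).toNat = l
    rw [Int.add_mul_ediv_left _ _ hR0.ne', Int.ediv_eq_zero_of_lt hr0 hr, zero_add, Int.toNat_natCast]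

/-- A box whose sides are multiples of the period. Proof. Induction on `d` with `Fin.cons`, or: the map `t ↦ (t j % R)_j` from `tb 0 (R m_j)` to
`B0 d R` has fibres with `∏ m j` elements; one variable as in `kb3_blocks` (`HUK/KB3.lean`). -/
theorem FGC3_box {d : ℕ} (R : ℕ) (hR : 1 ≤ R) (m : Fin d → ℕ) (f : (Fin d → ℤ) → ℝ)
    (hf : ∀ t t' : Fin d → ℤ, (∀ j, (R : ℤ) ∣ t j - t' j) → f t = f t') :
    ∑ t ∈ tb 0 (fun j => R * m j), f t = (∏ j, (m j : ℝ)) * ∑ t ∈ B0 d R, f t := by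
  have hR0 : (0 : ℤ) < R := by exact_mod_cast hR
  have hmap : ∀ t ∈ tb 0 (fun j => R * m j), (fun i => t i % (R : ℤ)) ∈ B0 d R := by
    intro t _
    unfold B0
    rw [Fintype.mem_piFinset]
    intro i
    rw [mem_Ico]
    exact ⟨Int.emod_nonneg _ hR0.ne', Int.emod_lt_of_pos _ hR0⟩
  rw [← Finset.sum_fiberwise_of_maps_to hmap, Finset.mul_sum]
  refine Finset.sum_congr rfl fun r hr => ?_
  have hr' : ∀ i, 0 ≤ r i ∧ r i < R := by
    intro i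
    unfold B0 at hr
    exact mem_Ico.1 (Fintype.mem_piFinset.1 hr i)
  have h1 : ((tb 0 (fun j => R * m j)).filter fun t => (fun i => t i % (R : ℤ)) = r) =
      Fintype.piFinset fun i => (Ico (0 : ℤ) (0 + ((R * m i : ℕ) : ℤ))).filter (fun x => x % (R : ℤ) = r i) := by
    ext t
    unfold tb
    rw [mem_filter, Fintype.mem_piFinset, Fintype.mem_piFinset]
    constructor
    · rintro ⟨h2, h3⟩ i
      rw [mem_filter]
      exact ⟨h2 i, congrFun h3 i⟩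
    · intro h2
      exact ⟨fun i => (mem_filter.1 (h2 i)).1, funext fun i => (mem_filter.1 (h2 i)).2⟩
  have h2 : ∑ t ∈ tb 0 (fun j => R * m j) with (fun i => t i % (R : ℤ)) = r, f t =
      ((((tb 0 (fun j => R * m j)).filter fun t => (fun i => t i % (R : ℤ)) = r).card : ℕ) : ℝ) * f r := by
    rw [← nsmul_eq_mul, ← Finset.sum_const]
    refine Finset.sum_congr rfl fun t ht => ?_
    rw [mem_filter] at ht
    apply hf
    intro i
    rw [← ht.2]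
    exact Int.dvd_self_sub_emod
  rw [h2, h1, Fintype.card_piFinset]
  congr 1
  push_cast
  refine Finset.prod_congr rfl fun i _ => ?_
  have h3 := fgc3_card R hR (m i) (r i) (hr' i).1 (hr' i).2
  push_cast at h3
  rw [h3]

/-- Proof. For fixed `t`: `∑_{n ∈ Ico 0 (0 + R^2)} w n * G n t = R * ∑_{n ∈ Ico (0:ℤ) R} w n * G n t` (`kb3_blocks` with `q = R`). Then `FGC3_box` with
`m j = R * (R^2)^(e j - 1)`, `R * m j = (R^2)^(e j)`, and `R^d * ∏ m j = ∏ (R^2)^(e j)`. -/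
theorem FGC3 {d : ℕ} (R : ℕ) (hR : 1 ≤ R) (e : Fin d → ℕ) (he : ∀ j, 1 ≤ e j) (G : ℤ → (Fin d → ℤ) → ℂ)
    (hG : ∀ (n m : ℤ) (t t' : Fin d → ℤ), (R : ℤ) ∣ n - m → (∀ j, (R : ℤ) ∣ t j - t' j) → G n t = G m t')
    (w : ℤ → ℂ) (hw : Pz R w) :
    (R : ℝ) ^ d * ∑ t ∈ tb 0 (fun j => (R ^ 2) ^ e j), ‖∑ n ∈ Ico (0 : ℕ) (0 + R ^ 2), w ((n : ℕ) : ℤ) * G ((n : ℕ) : ℤ) t‖ ^ 2 =
      (∏ j, ((R : ℝ) ^ 2) ^ e j) * ((R : ℝ) ^ 2 * ∑ t ∈ B0 d R, ‖∑ n ∈ Ico (0 : ℤ) R, w n * G n t‖ ^ 2) := by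
  have hself : ∀ m : ℤ, (R : ℤ) ∣ m - m := fun m => by
    rw [sub_self]
    exact dvd_zero _
  have h1 : ∀ t : Fin d → ℤ, ∑ n ∈ Ico (0 : ℕ) (0 + R ^ 2), w ((n : ℕ) : ℤ) * G ((n : ℕ) : ℤ) t =
      (R : ℂ) * ∑ n ∈ Ico (0 : ℤ) R, w n * G n t := by
    intro t
    have h2 := kb3_blocks R hR (fun n => w n * G n t)
      (fun y y' hy => by
        show w y * G y t = w y' * G y' t
        rw [hw y y' hy, hG y y' t t hy (fun j => hself _)]) 0 R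
    rw [← h2, zero_add, ← Finset.range_eq_Ico, pow_two]
    refine Finset.sum_congr rfl fun l _ => ?_
    rw [zero_add]
  have h3 : ∀ t : Fin d → ℤ, ‖∑ n ∈ Ico (0 : ℕ) (0 + R ^ 2), w ((n : ℕ) : ℤ) * G ((n : ℕ) : ℤ) t‖ ^ 2 =
      (R : ℝ) ^ 2 * ‖∑ n ∈ Ico (0 : ℤ) R, w n * G n t‖ ^ 2 := by
    intro t
    rw [h1, norm_mul, Complex.norm_natCast, mul_pow]
  have h4 : (fun j => (R ^ 2) ^ e j) = fun j => R * (R * (R ^ 2) ^ (e j - 1)) := by
    funext j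
    obtain ⟨a, ha⟩ : ∃ a, e j = a + 1 := ⟨e j - 1, by have := he j; omega⟩
    rw [ha, Nat.add_sub_cancel]
    ring
  have h5 : ∑ t ∈ tb 0 (fun j => (R ^ 2) ^ e j), ‖∑ n ∈ Ico (0 : ℕ) (0 + R ^ 2), w ((n : ℕ) : ℤ) * G ((n : ℕ) : ℤ) t‖ ^ 2 =
      (R : ℝ) ^ 2 * ((∏ j, ((R * (R ^ 2) ^ (e j - 1) : ℕ) : ℝ)) * ∑ t ∈ B0 d R, ‖∑ n ∈ Ico (0 : ℤ) R, w n * G n t‖ ^ 2) := by
    rw [Finset.sum_congr rfl fun t _ => h3 t, ← Finset.mul_sum, h4,
      FGC3_box R hR (fun j => R * (R ^ 2) ^ (e j - 1)) (fun t => ‖∑ n ∈ Ico (0 : ℤ) R, w n * G n t‖ ^ 2)]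
    intro t t' htt
    have h6 : ∑ n ∈ Ico (0 : ℤ) R, w n * G n t = ∑ n ∈ Ico (0 : ℤ) R, w n * G n t' := by
      refine Finset.sum_congr rfl fun n _ => ?_
      rw [hG n n t t' (hself _) htt]
    show ‖∑ n ∈ Ico (0 : ℤ) R, w n * G n t‖ ^ 2 = ‖∑ n ∈ Ico (0 : ℤ) R, w n * G n t'‖ ^ 2
    rw [h6]
  have h7 : (R : ℝ) ^ d * ∏ j, ((R * (R ^ 2) ^ (e j - 1) : ℕ) : ℝ) = ∏ j, ((R : ℝ) ^ 2) ^ e j := by
    have h8 : (R : ℝ) ^ d = ∏ j : Fin d, (R : ℝ) := by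
      rw [Finset.prod_const, Finset.card_univ, Fintype.card_fin]
    rw [h8, ← Finset.prod_mul_distrib]
    refine Finset.prod_congr rfl fun j _ => ?_
    obtain ⟨a, ha⟩ : ∃ a, e j = a + 1 := ⟨e j - 1, by have := he j; omega⟩
    rw [ha, Nat.add_sub_cancel]
    push_cast
    ring
  rw [h5, ← h7]
  ring

end Pool.Agent.HUP
end

-- from Lib.HUP.FGL3
section

/-!
# Project HUP, chunk FGL3 (S/M): all large primes are good
-/

open Finset

namespace Pool.Agent.HUP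

theorem fgl3_lf_single {k d : ℕ} (c : Fin k → Fin d → ℤ) (j j' : Fin d) (x x' : ℤ) (i : Fin k) :
    lf c (fun m => (if m = j then x else 0) + (if m = j' then x' else 0)) i = c i j * x + c i j' * x' := by
  unfold lf
  simp only [mul_add, Finset.sum_add_distrib, mul_ite, mul_zero, Finset.sum_ite_eq', Finset.mem_univ, if_true]

/-- Proof. `Λ` = sum of all `|c i j|`, `|a i|`, `|c i j * c i' j' - c i j' * c i' j|`, `|c i' j * a i - c i j * a i'|` (`natAbs`): a non-zero integer among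
these is not divisible by a prime `l > Λ`. `form`: `Dat.ne`. `pair`, `i ≠ i'`: if some minor `c i j * c i' j' - c i j' * c i' j` is not `0`:
`u = c i' j' • e_j - c i' j • e_{j'}` (`Pi.single`), `lf c u i' = 0`, `lf c u i` = the minor. If all minors vanish: choose `j` with `c i j ≠ 0`; then
`c i' j ≠ 0` (some `c i' j' ≠ 0`, and `c i j * c i' j' = c i j' * c i' j`), `A = c i j`, `B = c i' j`, `B * lf c t i = A * lf c t i'` (termwise, minors);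
`D i = e j = D i'` (`Dat.blk`); `B * a i ≠ A * a i'`, since otherwise `Dat.ind` with `x = B`, `x' = A` gives `B = 0`. -/
theorem FGL3 {k d : ℕ} {c : Fin k → Fin d → ℤ} {e : Fin d → ℕ} {D : Fin k → ℕ} {a : Fin k → ℤ} (h : Dat c e D a) :
    ∃ Λ : ℕ, ∀ l : ℕ, l.Prime → Λ < l → Gd c D a l := by
  set Λ1 : ℕ := ∑ i, ∑ j, (c i j).natAbs with hΛ1
  set Λ2 : ℕ := ∑ i, (a i).natAbs with hΛ2
  set Λ3 : ℕ := ∑ i, ∑ i', ∑ j, ∑ j', (c i j * c i' j' - c i j' * c i' j).natAbs with hΛ3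
  set Λ4 : ℕ := ∑ i, ∑ i', ∑ j, (c i' j * a i - c i j * a i').natAbs with hΛ4
  have key : ∀ (x : ℤ) (l : ℕ), x ≠ 0 → x.natAbs < l → ¬ (l : ℤ) ∣ x := by
    intro x l hx hl hd
    rw [Int.natCast_dvd] at hd
    exact absurd (Nat.le_of_dvd (Int.natAbs_pos.2 hx) hd) (not_le.2 hl)
  have b1 : ∀ i j, (c i j).natAbs ≤ Λ1 := fun i j =>
    (Finset.single_le_sum (f := fun j => (c i j).natAbs) (fun _ _ => Nat.zero_le _) (Finset.mem_univ j)).trans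
      (Finset.single_le_sum (f := fun i => ∑ j, (c i j).natAbs) (fun _ _ => Nat.zero_le _) (Finset.mem_univ i))
  have b2 : ∀ i, (a i).natAbs ≤ Λ2 := fun i =>
    Finset.single_le_sum (f := fun i => (a i).natAbs) (fun _ _ => Nat.zero_le _) (Finset.mem_univ i)
  have b3 : ∀ i i' j j', (c i j * c i' j' - c i j' * c i' j).natAbs ≤ Λ3 := fun i i' j j' =>
    (((Finset.single_le_sum (f := fun j' => (c i j * c i' j' - c i j' * c i' j).natAbs) (fun _ _ => Nat.zero_le _)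
      (Finset.mem_univ j')).trans
      (Finset.single_le_sum (f := fun j => ∑ j', (c i j * c i' j' - c i j' * c i' j).natAbs) (fun _ _ => Nat.zero_le _)
      (Finset.mem_univ j))).trans
      (Finset.single_le_sum (f := fun i' => ∑ j, ∑ j', (c i j * c i' j' - c i j' * c i' j).natAbs)
      (fun _ _ => Nat.zero_le _) (Finset.mem_univ i'))).trans
      (Finset.single_le_sum (f := fun i => ∑ i', ∑ j, ∑ j', (c i j * c i' j' - c i j' * c i' j).natAbs)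
      (fun _ _ => Nat.zero_le _) (Finset.mem_univ i))
  have b4 : ∀ i i' j, (c i' j * a i - c i j * a i').natAbs ≤ Λ4 := fun i i' j =>
    ((Finset.single_le_sum (f := fun j => (c i' j * a i - c i j * a i').natAbs) (fun _ _ => Nat.zero_le _)
      (Finset.mem_univ j)).trans
      (Finset.single_le_sum (f := fun i' => ∑ j, (c i' j * a i - c i j * a i').natAbs)
      (fun _ _ => Nat.zero_le _) (Finset.mem_univ i'))).trans
      (Finset.single_le_sum (f := fun i => ∑ i', ∑ j, (c i' j * a i - c i j * a i').natAbs)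
      (fun _ _ => Nat.zero_le _) (Finset.mem_univ i))
  refine ⟨Λ1 + Λ2 + Λ3 + Λ4, fun l _ hl => ⟨?_, ?_, ?_⟩⟩
  · intro i
    obtain ⟨j, hj⟩ := h.ne i
    exact ⟨j, key _ _ hj (by have := b1 i j; omega)⟩
  · intro i
    exact key _ _ (h.lc i) (by have := b2 i; omega)
  · intro i i' hii
    by_cases hm : ∃ j j', c i j * c i' j' - c i j' * c i' j ≠ 0
    · obtain ⟨j, j', hjj⟩ := hm
      refine Or.inl ⟨fun m => (if m = j then c i' j' else 0) + (if m = j' then -c i' j else 0), ?_, ?_⟩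
      · rw [fgl3_lf_single]
        ring
      · rw [fgl3_lf_single]
        have h1 : c i j * c i' j' + c i j' * -c i' j = c i j * c i' j' - c i j' * c i' j := by ring
        rw [h1]
        exact key _ _ hjj (by have := b3 i i' j j'; omega)
    · push_neg at hm
      have hm' : ∀ j j', c i j * c i' j' = c i j' * c i' j := fun j j' => sub_eq_zero.1 (hm j j')
      obtain ⟨j, hj⟩ := h.ne i
      obtain ⟨j', hj'⟩ := h.ne i'
      have hB : c i' j ≠ 0 := by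
        intro h0
        have h1 := hm' j j'
        rw [h0, mul_zero] at h1
        exact (mul_ne_zero hj hj') h1
      have hD : D i = D i' := by
        rw [← h.blk i j hj, ← h.blk i' j hB]
      refine Or.inr ⟨hD, c i j, c i' j, ?_, ?_, ?_, ?_⟩
      · intro t
        unfold lf
        rw [Finset.mul_sum, Finset.mul_sum]
        refine Finset.sum_congr rfl fun m _ => ?_
        have h1 := hm' j m
        linear_combination -(t m) * h1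
      · exact key _ _ hj (by have := b1 i j; omega)
      · exact key _ _ hB (by have := b1 i' j; omega)
      · refine key _ _ ?_ (by have := b4 i i' j; omega)
        intro h0
        have h1 := h.ind i i' hii hD (c i' j) (c i j) (by linarith) (fun m => by
          have h2 := hm' j m
          linarith)
        exact hB h1.1

end Pool.Agent.HUP
end
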