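import Pool.Agent.Lib.H59M.M2.M031
import Pool.Agent.Lib.H59M.M2.M087
import Pool.Agent.Lib.H59M.M2.M088
import Pool.Agent.Lib.H59M.M2.M090
import Pool.Agent.Lib.H59M.M2.M095
import Pool.Agent.Lib.H59M.M2.M098
import Pool.Agent.Lib.H59M.M2.M099
import Pool.Agent.Lib.H59M.M2.M100
import Pool.Agent.Lib.H59M.M2.M105
import Pool.Agent.Lib.H59M.M2.M106

/-! Merged copies (to shorten the build) of Lib.H9P.E2, Lib.H9P.U17, Lib.HUP.Z2, Lib.H9P.U4, Lib.H9P.U5, Lib.HUP.R3, Lib.HUP.R4, Lib.HUP.R7, Lib.HUP.R9, Lib.H9P.U3. -/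

-- from Lib.H9P.E2
section

/-!
# ASYP, chunk E2 (M): the main term of a cell with an exceptional character
-/

open Finset Polynomial

namespace Pool.Agent.H9P

open Pool.Agent.Lib.H68T Pool.Agent.Lib.H18Q Pool.Agent.Lib.H59P Pool.Agent.Lib.H24P
open Pool.Agent.HUP

theorem e2_C2 {k : ℕ} (a b : Fin k → ℝ) (η E0 : ℝ) (hη : 0 < η) (hE0 : 0 ≤ E0)
    (ha : ∀ i, η ≤ a i) (hb0 : ∀ i, 0 ≤ b i) (hb : ∀ i, b i ≤ η * E0) :
    ∏ i, (a i + b i) - ∏ i, a i ≤ ((1 + E0) ^ k - 1) * ∏ i, a i := by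
  have ha0 : ∀ i, 0 ≤ a i := fun i => hη.le.trans (ha i)
  have h1 : ∏ i, (a i + b i) ≤ ∏ i, (a i * (1 + E0)) := by
    refine Finset.prod_le_prod (fun i _ => add_nonneg (ha0 i) (hb0 i)) fun i _ => ?_
    have h1 := mul_le_mul_of_nonneg_right (ha i) hE0
    have h2 := hb i
    linarith
  have h2 : ∏ i : Fin k, (a i * (1 + E0)) = (∏ i, a i) * (1 + E0) ^ k := by
    rw [Finset.prod_mul_distrib, Finset.prod_const, Finset.card_univ, Fintype.card_fin]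
  rw [h2] at h1
  linarith

/-- the pointwise bound -/
theorem e2_pt {k : ℕ} (Q D1 m0 : ℕ) (hQ : 1 ≤ Q) (η E0 : ℝ) (px : Ch) (hpx : px ∈ PC Q)
    (hreal : px.2 ^ 2 = 1) (hm0 : px.1 ∣ m0) (hmpos : 0 < m0)
    (hcond : m0 ≤ D1) (hη : 0 < η) (hE0 : 0 ≤ E0) (th : Fin k → ℝ)
    (hth0 : ∀ i, 0 ≤ th i) (hth : ∀ i, th i ≤ 1 - η) (htriv : px = p0 → ∀ i, th i = 0)
    (e : Fin k → Ch → ℂ) (he : ∀ i, ∑ p ∈ PC Q, ‖e i p‖ ≤ η * E0) (m : Fin k → ℤ) :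
    ‖∑ p ∈ TSf k Q D1 m0, ∏ i, ((MX px (fun _ => th i) 0 (p i) + e i (p i)) * cj (p i) (m i)) -
      ((∏ i, (1 - th i * (cj px (m i)).re) : ℝ) : ℂ)‖ ≤ ((1 + E0) ^ k - 1) * ∏ i, (1 - th i * (cj px (m i)).re) := by
  classical
  have ha : ∀ i, η ≤ 1 - th i * (cj px (m i)).re := by
    intro i
    have h1 := (abs_le.mp (C3a px hreal (m i)).2).2
    have h2 := mul_le_mul_of_nonneg_left h1 (hth0 i)
    have h3 := hth i
    linarith
  have ha0 : ∀ i, 0 ≤ 1 - th i * (cj px (m i)).re := fun i => hη.le.trans (ha i)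
  have hsum : ∀ i, ∑ p ∈ PC Q, MX px (fun _ => th i) 0 p * cj p (m i) =
      ((1 - th i * (cj px (m i)).re : ℝ) : ℂ) := fun i =>
    c3_sumA Q hQ px hpx (th i) (fun h => htriv h i) hreal (m i)
  have hC1 := C1 (PC Q) ({p0, px} : Finset Ch) (fun p : Fin k → Ch => m0.lcm (univ.lcm fun i => (p i).1) ≤ D1)
    (fun i p => MX px (fun _ => th i) 0 p * cj p (m i)) (fun i p => e i p * cj p (m i)) ?_ ?_ ?_
  rotate_left
  · intro i p _ hne
    rw [Finset.mem_insert, Finset.mem_singleton, not_or] at hne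
    have h0 : MX px (fun _ => th i) 0 p = 0 := by
      simp only [MX]
      rw [if_neg hne.1, if_neg hne.2]
    show MX px (fun _ => th i) 0 p * cj p (m i) = 0
    rw [h0, zero_mul]
  · intro J p p' h1 h2 h3
    have k1 := p4_lcm px m0 hm0 J p p' h1 (fun i hi => by simpa using h2 i hi)
    have k2 := p4_lcm px m0 hm0 J p' p (fun i hi => (h1 i hi).symm) (fun i hi => by simpa using h3 i hi)
    show m0.lcm (univ.lcm fun i => (p i).1) ≤ D1 ↔ m0.lcm (univ.lcm fun i => (p' i).1) ≤ D1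
    rw [Nat.dvd_antisymm k1 k2]
  · intro p hp
    have k1 := p4_lcm px m0 hm0 ∅ p (fun _ => p0) (fun i hi => by simp at hi) (fun i _ => by simpa using hp i)
    have k2 : m0.lcm (univ.lcm fun i : Fin k => ((fun _ => p0 : Fin k → Ch) i).1) ∣ m0 := by
      refine Nat.lcm_dvd dvd_rfl (Finset.lcm_dvd fun i _ => ?_)
      exact one_dvd _
    exact (Nat.le_of_dvd hmpos (k1.trans k2)).trans hcond
  have e1 : ∀ p : Fin k → Ch, ∏ i, ((MX px (fun _ => th i) 0 (p i) + e i (p i)) * cj (p i) (m i)) =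
      ∏ i, (MX px (fun _ => th i) 0 (p i) * cj (p i) (m i) + e i (p i) * cj (p i) (m i)) := fun p =>
    Finset.prod_congr rfl fun i _ => by ring
  have e2 : ∏ i, ∑ p ∈ PC Q, MX px (fun _ => th i) 0 p * cj p (m i) =
      ((∏ i, (1 - th i * (cj px (m i)).re) : ℝ) : ℂ) := by
    rw [Complex.ofReal_prod]
    exact Finset.prod_congr rfl fun i _ => hsum i
  have e3 : ∀ i, ‖∑ p ∈ PC Q, MX px (fun _ => th i) 0 p * cj p (m i)‖ = 1 - th i * (cj px (m i)).re := by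
    intro i
    rw [hsum i, Complex.norm_real, Real.norm_eq_abs, abs_of_nonneg (ha0 i)]
  have hC2 := e2_C2 (fun i => 1 - th i * (cj px (m i)).re) (fun i => ∑ p ∈ PC Q, ‖e i p * cj p (m i)‖) η E0 hη hE0 ha
    (fun i => Finset.sum_nonneg fun _ _ => norm_nonneg _) (fun i => ?_)
  swap
  · refine (Finset.sum_le_sum fun p _ => ?_).trans (he i)
    rw [norm_mul]
    exact mul_le_of_le_one_right (norm_nonneg _) (c3_cj_norm p (m i))
  simp only [e3] at hC1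
  rw [e2] at hC1
  unfold TSf
  simp only [e1]
  exact hC1.trans hC2

/-- Copy of `P4_C3` (`H24P/P4.lean`; its pointwise part is a copy of `c3_pt`, `H59P/C3.lean`) without the hypothesis `4 k E0 ≤ 1`: instead of `C2` use
`∏ (x_i + y_i) - ∏ x_i ≤ ((1 + E0)^k - 1) ∏ x_i` for `0 ≤ y_i ≤ η E0 ≤ E0 x_i`. -/
theorem E2_C3 {k : ℕ} (φ : Fin k → ℤ → ℤ) (Q D1 m0 : ℕ) (hQ : 1 ≤ Q) (η E0 : ℝ) (px : Ch)
    (hpx : px ∈ PC Q) (hreal : px.2 ^ 2 = 1) (hm0 : px.1 ∣ m0) (hm : 0 < m0) (hcond : m0 ≤ D1)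
    (hη : 0 < η) (hE0 : 0 ≤ E0) (th : Fin k → ℝ)
    (hth0 : ∀ i, 0 ≤ th i) (hth : ∀ i, th i ≤ 1 - η) (htriv : px = p0 → ∀ i, th i = 0)
    (e : Fin k → Ch → ℂ) (he : ∀ i, ∑ p ∈ PC Q, ‖e i p‖ ≤ η * E0) :
    ‖∑ p ∈ TSf k Q D1 m0, (∏ i, (MX px (fun _ => th i) 0 (p i) + e i (p i))) * MQf Q p φ -
      ((PMf Q px th φ : ℝ) : ℂ)‖ ≤ ((1 + E0) ^ k - 1) * PMf Q px th φ := by
  have hQ0 : (0 : ℝ) < (Q.factorial : ℝ) := by exact_mod_cast Nat.factorial_pos Q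
  have hU : ∀ n : ℤ, 0 ≤ ∏ i : Fin k, uu (pr Q) (φ i n) := fun n =>
    Finset.prod_nonneg fun i _ => M3a_uu_nonneg _ (c3_pr Q) _
  have h1 : ∑ p ∈ TSf k Q D1 m0, (∏ i, (MX px (fun _ => th i) 0 (p i) + e i (p i))) * MQf Q p φ =
      (∑ n ∈ range Q.factorial, ((∏ i : Fin k, uu (pr Q) (φ i (n : ℤ)) : ℝ) : ℂ) *
        ∑ p ∈ TSf k Q D1 m0, ∏ i, ((MX px (fun _ => th i) 0 (p i) + e i (p i)) *
          cj (p i) (φ i (n : ℤ)))) /
        ((Q.factorial : ℝ) : ℂ) := by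
    unfold MQf
    rw [Finset.sum_div]
    simp only [Finset.mul_sum, Finset.sum_div, mul_div_assoc']
    rw [Finset.sum_comm]
    refine Finset.sum_congr rfl fun n _ => ?_
    refine Finset.sum_congr rfl fun p _ => ?_
    unfold Phf at'
    rw [Finset.prod_mul_distrib, Finset.prod_mul_distrib, Complex.ofReal_prod]
    push_cast
    ring
  have h2 : PMf Q px th φ = (∑ n ∈ range Q.factorial, (∏ i : Fin k, uu (pr Q) (φ i (n : ℤ))) *
        ∏ i, (1 - th i * (cj px (φ i (n : ℤ))).re)) / (Q.factorial : ℝ) := by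
    unfold PMf fPf at'
    congr 1
    refine Finset.sum_congr rfl fun n _ => ?_
    rw [Finset.prod_mul_distrib]
  rw [h1, h2]
  rw [Complex.ofReal_div, ← sub_div, norm_div, Complex.norm_real, Real.norm_eq_abs, abs_of_pos hQ0, mul_div_assoc']
  refine div_le_div_of_nonneg_right ?_ hQ0.le
  rw [Complex.ofReal_sum, ← Finset.sum_sub_distrib, Finset.mul_sum]
  refine (norm_sum_le _ _).trans (Finset.sum_le_sum fun n _ => ?_)
  rw [Complex.ofReal_mul, ← mul_sub, norm_mul, Complex.norm_real, Real.norm_eq_abs, abs_of_nonneg (hU n)]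
  have hpt := e2_pt Q D1 m0 hQ η E0 px hpx hreal hm0 hm hcond hη hE0 th hth0 hth htriv e he
    (fun i => φ i (n : ℤ))
  have := mul_le_mul_of_nonneg_left hpt (hU n)
  refine this.trans (le_of_eq ?_)
  ring

theorem e2_cell {k : ℕ} (Q m0 : ℕ) (hQ : 1 ≤ Q) (η E0 : ℝ) (px : Ch) (hpx : px ∈ PC Q)
    (hreal : px.2 ^ 2 = 1) (hm0 : px.1 ∣ m0) (hm : 0 < m0) (hcond : m0 ≤ fl Q (1 / 16)) (hη : 0 < η)
    (hE0 : 0 ≤ E0) (φ : Fin k → ℤ → ℤ) (th : Fin k → ℝ) (hth0 : ∀ i, 0 ≤ th i)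
    (hth : ∀ i, th i ≤ 1 - η) (htriv : px = p0 → ∀ i, th i = 0) (e c : Fin k → Ch → ℂ)
    (he : ∀ i, ∑ p ∈ PC Q, ‖e i p‖ ≤ η * E0)
    (hc : ∀ i p, c i p = MX px (fun _ => th i) 0 p + e i p) (ε : ℝ)
    (hP : |PMf Q px th φ - SSf (pr Q) φ| ≤ ε * SSf (pr Q) φ) :
    ‖MDf Q m0 c φ - ((SSf (pr Q) φ : ℝ) : ℂ)‖ ≤ (((1 + E0) ^ k - 1) * (1 + ε) + ε) * SSf (pr Q) φ := by
  have z := E2_C3 φ Q (fl Q (1 / 16)) m0 hQ η E0 px hpx hreal hm0 hm hcond hη hE0 th hth0 hth htriv e he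
  have hS : MDf Q m0 c φ = ∑ p ∈ TSf k Q (fl Q (1 / 16)) m0,
      (∏ i, (MX px (fun _ => th i) 0 (p i) + e i (p i))) * MQf Q p φ := by
    unfold MDf
    refine Finset.sum_congr rfl fun p _ => ?_
    congr 1
    exact Finset.prod_congr rfl fun i _ => hc i (p i)
  rw [← hS] at z
  have h1 : ‖((PMf Q px th φ : ℝ) : ℂ) - ((SSf (pr Q) φ : ℝ) : ℂ)‖ ≤ ε * SSf (pr Q) φ := by
    rw [← Complex.ofReal_sub, Complex.norm_real, Real.norm_eq_abs]
    exact hP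
  have h2 := norm_add_le (MDf Q m0 c φ - ((PMf Q px th φ : ℝ) : ℂ)) (((PMf Q px th φ : ℝ) : ℂ) - ((SSf (pr Q) φ : ℝ) : ℂ))
  have h3 : MDf Q m0 c φ - ((PMf Q px th φ : ℝ) : ℂ) + (((PMf Q px th φ : ℝ) : ℂ) - ((SSf (pr Q) φ : ℝ) : ℂ)) =
      MDf Q m0 c φ - ((SSf (pr Q) φ : ℝ) : ℂ) := by ring
  rw [h3] at h2
  have h4 : PMf Q px th φ ≤ (1 + ε) * SSf (pr Q) φ := by
    have h5 := (abs_le.1 hP).2
    linarith
  have h5 : (0 : ℝ) ≤ (1 + E0) ^ k - 1 := by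
    have h6 : (1 : ℝ) ≤ (1 + E0) ^ k := one_le_pow₀ (by linarith)
    linarith
  have h6 := mul_le_mul_of_nonneg_left h4 h5
  have h7 : (((1 + E0) ^ k - 1) * (1 + ε) + ε) * SSf (pr Q) φ =
      ((1 + E0) ^ k - 1) * ((1 + ε) * SSf (pr Q) φ) + ε * SSf (pr Q) φ := by ring
  rw [h7]
  linarith

/-- **E2.** Proof. As `R15_main` (`HUP/R15.lean`, port of `Z3_main`, `Z3_cell`; `GeoV` instead of `Geo`) with `E2_C3` for every `n`: `MDf` is `PMf Q px (th at the base points) φ` up to `((1+E0)^(k+1) - 1) PMf`, and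
by hypothesis `|PMf - SSf| ≤ ε SSf`. So the error for each `n` is at most `((1+E0)^(k+1) - 1)(1 + ε) SSf + ε SSf`. -/
theorem E2_main {k : ℕ} (P : Fin k → ℤ[X]) (A Q X X1 Y : ℕ) (hQ : 1 ≤ Q) (M : Fin k → ℕ) (B : ℤ[X])
    (hG : GeoV Q X X1 P M) (hGB : GeoB A X X1 Y B) (η E0 : ℝ) (px : Ch)
    (th : ℤ → ℝ) (hpx : px ∈ PC Q) (hcond : B.leadingCoeff.natAbs * px.1 ≤ fl Q (1 / 16))
    (hMB : Mdl (Q ^ 100) Y η E0 px th) (hM : ∀ i, Mdl Q (Ysc (M i)) η E0 px th) (hE0 : 0 ≤ E0)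
    (e0 : ℤ → Ch → ℂ) (eb0 : Ch → ℝ) (heb0 : ∀ p ∈ PC (Q ^ 100), 0 ≤ eb0 p)
    (hs0 : ∑ p ∈ PC (Q ^ 100), eb0 p ≤ η * E0)
    (he0 : ∀ m : ℤ, (Y : ℤ) ≤ m → m ≤ 4 * Y → ∀ p ∈ PC (Q ^ 100), ‖e0 m p‖ ≤ eb0 p)
    (e : Fin k → ℤ → Ch → ℂ) (eb : Fin k → Ch → ℝ) (hs : ∀ i, ∑ p ∈ PC Q, eb i p ≤ η * E0)
    (he : ∀ i, ∀ m : ℤ, (Ysc (M i) : ℤ) ≤ m → m ≤ 4 * Ysc (M i) → ∀ p ∈ PC Q, ‖e i m p‖ ≤ eb i p)
    (h0 : Fin k → ℕ) (hh0 : h0 ∈ cub M M) (h : Fin k → ℕ) (ε th0 : ℝ) (hε : 0 ≤ ε)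
    (hth1 : ∀ m : ℤ, (Y : ℤ) ≤ m → m ≤ 4 * Y → th m ≤ th0)
    (hth2 : ∀ i, ∀ m : ℤ, (Ysc (M i) : ℤ) ≤ m → m ≤ 4 * Ysc (M i) → th m ≤ th0)
    (hP : ∀ th' : Fin (k + 1) → ℝ, (∀ i, 0 ≤ th' i) → (∀ i, th' i ≤ th0) →
      |PMf Q px th' (sys B P h) - SSf (pr Q) (sys B P h)| ≤ ε * SSf (pr Q) (sys B P h)) :
    ‖MZb Q X1 (B.leadingCoeff.natAbs * px.1) P B (fun m p => MX px th m p + e0 m p)
      (fun i m p => MX px th m p + e i m p) h0 h - ((X1 * SSf (pr Q) (sys B P h) : ℝ) : ℂ)‖ ≤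
      X1 * ((((1 + E0) ^ (k + 1) - 1) * (1 + ε) + ε) * SSf (pr Q) (sys B P h)) := by
  have hX1 : 0 < X1 := hG.pos
  have hm0 : 0 < B.leadingCoeff.natAbs * px.1 := by
    refine Nat.mul_pos ?_ (mem_PC.1 hpx).1
    rw [Int.natAbs_pos, leadingCoeff_ne_zero]
    intro h0
    have h1 := hGB.lin.deg
    rw [h0, natDegree_zero] at h1
    exact absurd h1 (by norm_num)
  have hQ8 : Q ^ 8 ∣ X1 := (pow_dvd_pow Q (by norm_num)).trans hG.dvd
  have hbs : ∀ (D N n : ℕ), D ∣ N → 0 < N → n ∈ Ico N (2 * N) → bs (N / D) n ∈ Ico N (2 * N) := by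
    intro D N n hD hN hn
    rw [mem_Ico] at hn ⊢
    obtain ⟨q, rfl⟩ := hD
    have hD0 : 0 < D := Nat.pos_of_ne_zero (by rintro rfl; simp at hN)
    have hq0 : 0 < q := Nat.pos_of_ne_zero (by rintro rfl; simp at hN)
    rw [Nat.mul_div_cancel_left q hD0]
    unfold bs
    constructor
    · have h1 : D ≤ n / q := by
        rw [Nat.le_div_iff_mul_le hq0]
        exact hn.1
      exact Nat.mul_le_mul_right q h1
    · exact lt_of_le_of_lt (Nat.div_mul_le_self n q) hn.2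
  have hh' : ∀ i, h0 i ∈ Ico (M i) (2 * M i) := by
    intro i
    have h1 := Fintype.mem_piFinset.1 hh0 i
    rw [mem_Ico] at h1 ⊢
    omega
  have hY : ∀ n ∈ Ico X1 (2 * X1), (Y : ℤ) ≤ B.eval ((bs (X1 / Q ^ 800) n : ℕ) : ℤ) ∧
      B.eval ((bs (X1 / Q ^ 800) n : ℕ) : ℤ) ≤ 4 * Y := by
    intro n hn
    have h1 := hbs _ X1 n hG.dvd hX1 hn
    have h2 := hGB.lo _ h1
    have h3 := hGB.hi _ h1
    exact ⟨h2, by linarith⟩
  have hYi : ∀ n ∈ Ico X1 (2 * X1), ∀ i, (Ysc (M i) : ℤ) ≤ (P i).eval ((bs (X1 / Q ^ 8) n : ℕ) : ℤ) + (h0 i : ℤ) ∧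
      (P i).eval ((bs (X1 / Q ^ 8) n : ℕ) : ℤ) + (h0 i : ℤ) ≤ 4 * Ysc (M i) := by
    intro n hn i
    have h1 := hbs _ X1 n hQ8 hX1 hn
    obtain ⟨h3, h4, -⟩ := G2_val (M i) _ _ ((Dvd.intro _ rfl : 8 ∣ 8 * Q ^ 8).trans (hG.dvdM i))
      (hG.small i _ h1) (hh' i)
    constructor
    · exact h3
    · have h5 : (0 : ℤ) ≤ Ysc (M i) := by positivity
      linarith
  have hsub : PC Q ⊆ PC (Q ^ 100) := by
    intro p hp
    rw [mem_PC] at hp ⊢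
    exact ⟨hp.1, hp.2.1.trans (Nat.le_self_pow (by norm_num) Q), hp.2.2⟩
  have hcell : ∀ n ∈ Ico X1 (2 * X1), ‖MDf Q (B.leadingCoeff.natAbs * px.1)
      (cfb Q X1 P B (fun m p => MX px th m p + e0 m p) (fun i m p => MX px th m p + e i m p) h0 n)
      (sys B P h) - ((SSf (pr Q) (sys B P h) : ℝ) : ℂ)‖ ≤ (((1 + E0) ^ (k + 1) - 1) * (1 + ε) + ε) * SSf (pr Q) (sys B P h) := by
    intro n hn
    obtain ⟨tv, htv⟩ : ∃ tv : Fin (k + 1) → ℝ, tv = Fin.cons (th (B.eval ((bs (X1 / Q ^ 800) n : ℕ) : ℤ)))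
        (fun i => th ((P i).eval ((bs (X1 / Q ^ 8) n : ℕ) : ℤ) + (h0 i : ℤ))) := ⟨_, rfl⟩
    have hv0 : ∀ i, 0 ≤ tv i := by
      intro i
      rw [htv]
      refine Fin.cases ?_ (fun i => ?_) i
      · rw [Fin.cons_zero]
        exact hMB.nonneg _ (hY n hn).1 (hY n hn).2
      · rw [Fin.cons_succ]
        exact (hM i).nonneg _ (hYi n hn i).1 (hYi n hn i).2
    have hv1 : ∀ i, tv i ≤ 1 - η := by
      intro i
      rw [htv]
      refine Fin.cases ?_ (fun i => ?_) i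
      · rw [Fin.cons_zero]
        exact hMB.le _ (hY n hn).1 (hY n hn).2
      · rw [Fin.cons_succ]
        exact (hM i).le _ (hYi n hn i).1 (hYi n hn i).2
    have hv2 : ∀ i, tv i ≤ th0 := by
      intro i
      rw [htv]
      refine Fin.cases ?_ (fun i => ?_) i
      · rw [Fin.cons_zero]
        exact hth1 _ (hY n hn).1 (hY n hn).2
      · rw [Fin.cons_succ]
        exact hth2 i _ (hYi n hn i).1 (hYi n hn i).2
    have hv3 : px = p0 → ∀ i, tv i = 0 := by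
      intro hp0 i
      rw [htv]
      refine Fin.cases ?_ (fun i => ?_) i
      · rw [Fin.cons_zero]
        exact hMB.triv hp0 _
      · rw [Fin.cons_succ]
        exact (hM i).triv hp0 _
    refine e2_cell (k := k + 1) Q (B.leadingCoeff.natAbs * px.1) hQ η E0 px hpx hMB.real
      (Dvd.intro_left _ rfl) hm0 hcond hMB.eta_pos hE0 (sys B P h) tv hv0 hv1 hv3
      (Fin.cons (e0 (B.eval ((bs (X1 / Q ^ 800) n : ℕ) : ℤ)))
        (fun i => e i ((P i).eval ((bs (X1 / Q ^ 8) n : ℕ) : ℤ) + (h0 i : ℤ)))) _ ?_ ?_ ε (hP tv hv0 hv2)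
    · intro i
      refine Fin.cases ?_ (fun i => ?_) i
      · simp only [Fin.cons_zero]
        refine (Finset.sum_le_sum fun p hp => he0 _ (hY n hn).1 (hY n hn).2 p (hsub hp)).trans ?_
        exact (Finset.sum_le_sum_of_subset_of_nonneg hsub fun p hp _ => heb0 p hp).trans hs0
      · simp only [Fin.cons_succ]
        exact (Finset.sum_le_sum fun p hp => he i _ (hYi n hn i).1 (hYi n hn i).2 p hp).trans (hs i)
    · intro i
      rw [htv]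
      refine Fin.cases ?_ (fun i => ?_) i
      · intro p
        rfl
      · intro p
        rfl
  unfold MZb
  have h1 := Finset.sum_le_sum hcell
  rw [Finset.sum_const, Nat.card_Ico, nsmul_eq_mul] at h1
  have h2 : 2 * X1 - X1 = X1 := by omega
  rw [h2] at h1
  have h3 : ((X1 * SSf (pr Q) (sys B P h) : ℝ) : ℂ) = ∑ n ∈ Ico X1 (2 * X1), ((SSf (pr Q) (sys B P h) : ℝ) : ℂ) := by
    rw [Finset.sum_const, Nat.card_Ico, h2, nsmul_eq_mul]
    push_cast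
    rfl
  rw [h3, ← Finset.sum_sub_distrib]
  exact (norm_sum_le _ _).trans h1

end Pool.Agent.H9P
end

-- from Lib.H9P.U17
section

/-!
# ASYP, chunk U17 (M): the quantities of the problem
-/

open Finset Polynomial

namespace Pool.Agent.H9P

open Pool.Agent.Lib.H68T Pool.Agent.Lib.H18Q Pool.Agent.Lib.H59P Pool.Agent.Lib.H24P
open Pool.Agent.HUP
open Pool.Agent.Lib.H59 (argSet argCount Admissible primeCount omegaN seriesTrunc)

noncomputable section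

/-- The main term `X/(log X)^(g+1) (h_0 h_1 ⋯ h_g)⁻¹ S_z(N)` of Schinzel's formula, `S_z(N)` being the product over the
primes `p < z` of the factors of `𝔖(N)`. -/
def mainTermP {g : ℕ} (F : Fin g → ℤ[X]) (G : ℤ[X]) (N z : ℕ) : ℝ :=
  (argCount G N : ℝ) / Real.log (argCount G N) ^ (g + 1) *
    ((G.natDegree : ℝ) * ∏ i, ((F i).natDegree : ℝ))⁻¹ * seriesTrunc F G N z

/-- `N` is admissible for `F, G`, and `Q_1(N)` differs from the main term by more than `ε` times the main term. -/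
def FailsP {g : ℕ} (ε : ℝ) (F : Fin g → ℤ[X]) (G : ℤ[X]) (N z : ℕ) : Prop :=
  Admissible F G N ∧ ε * mainTermP F G N z < |(primeCount F G N : ℝ) - mainTermP F G N z|

/-- The polynomials `P_i + b_i + ψ_i(t)`. -/
def famP {g d : ℕ} (P : Fin g → ℤ[X]) (c : Fin g → Fin d → ℤ) (b : Fin g → ℤ) (t : Fin d → ℤ) : Fin g → ℤ[X] :=
  fun i => P i + C (b i + lf c t i)

end

/-- a value is a prime -/
theorem u17_prime (z : ℤ) : z.toNat.Prime ↔ ∃ q : ℕ, q.Prime ∧ z = q := by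
  constructor
  · intro h
    have h1 := h.pos
    exact ⟨z.toNat, h, by omega⟩
  · rintro ⟨q, hq, rfl⟩
    rwa [Int.toNat_natCast]

/-- a linear polynomial -/
theorem u17_ev (G : ℤ[X]) (hG : G.natDegree = 1) (n : ℤ) : G.eval n = G.leadingCoeff * n + G.coeff 0 := by
  rw [eval_eq_sum_range, hG, sum_range_succ, sum_range_one, leadingCoeff, hG, pow_zero, pow_one, mul_one, add_comm]

/-- the arguments -/
theorem u17_arg (G : ℤ[X]) (hG : G.natDegree = 1) (hG0 : 0 < G.leadingCoeff) (N : ℕ) :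
    argSet G N = ((Icc 1 (argCount G N) : Finset ℕ) : Set ℕ) := by
  have h1 : argSet G N = ((Icc 1 (((N : ℤ) - G.coeff 0 - 1) / G.leadingCoeff).toNat : Finset ℕ) : Set ℕ) := by
    ext n
    rw [mem_coe, mem_Icc]
    have h2 : (n : ℤ) ≤ ((N : ℤ) - G.coeff 0 - 1) / G.leadingCoeff ↔
        (n : ℤ) * G.leadingCoeff ≤ (N : ℤ) - G.coeff 0 - 1 := Int.le_ediv_iff_mul_le hG0
    have e0 : G.leadingCoeff * (n : ℤ) = n * G.leadingCoeff := mul_comm _ _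
    constructor
    · rintro ⟨h3, h4⟩
      rw [u17_ev G hG, e0] at h4
      have h5 := h2.2 (by linarith)
      omega
    · rintro ⟨h3, h4⟩
      have h5 := h2.1 (by omega)
      refine ⟨by omega, ?_⟩
      rw [u17_ev G hG, e0]
      linarith
  have h2 : argCount G N = (((N : ℤ) - G.coeff 0 - 1) / G.leadingCoeff).toNat := by
    unfold argCount
    rw [h1, Set.ncard_coe_finset, Nat.card_Icc]
    omega
  rw [h2]
  exact h1

/-- values of the members of the family -/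
theorem u17_fam {g d : ℕ} (P : Fin g → ℤ[X]) (c : Fin g → Fin d → ℤ) (b : Fin g → ℤ) (t : Fin d → ℤ)
    (h0 : ∀ i, 0 ≤ b i + lf c t i) (i : Fin g) : famP P c b t i = P i + C ((hh c b t i : ℕ) : ℤ) := by
  unfold famP hh
  rw [Int.toNat_of_nonneg (h0 i)]

/-- values of the system -/
theorem u17_sysS {g d : ℕ} (G : ℤ[X]) (P : Fin g → ℤ[X]) (c : Fin g → Fin d → ℤ) (b : Fin g → ℤ) (t : Fin d → ℤ) (N : ℕ)
    (h0 : ∀ i, 0 ≤ b i + lf c t i) (i : Fin g) (n : ℤ) :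
    sys (C (N : ℤ) - G) P (hh c b t) i.succ n = (famP P c b t i).eval n := by
  rw [u17_fam P c b t h0]
  unfold sys ran
  rw [Fin.cons_succ, eval_add, eval_C]

theorem u17_sys0 {g d : ℕ} (G : ℤ[X]) (P : Fin g → ℤ[X]) (c : Fin g → Fin d → ℤ) (b : Fin g → ℤ) (t : Fin d → ℤ) (N : ℕ)
    (n : ℤ) : sys (C (N : ℤ) - G) P (hh c b t) 0 n = (N : ℤ) - G.eval n := by
  unfold sys
  rw [Fin.cons_zero, eval_sub, eval_C]

/-- **U17a.** The number of the arguments. Proof. `N - G(n) = N - γ0 - γ n > 0`, `n ≥ 1`. (Compare `H59/SchinzelCount.lean`, `H9A/N10a.lean`.) -/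
theorem U17_dec (G : ℤ[X]) (hG : G.natDegree = 1) (hG0 : 0 < G.leadingCoeff) : ∃ N0 : ℕ, ∀ N : ℕ, N0 ≤ N →
    Dec G.leadingCoeff.natAbs (argCount G N) (C (N : ℤ) - G) ∧ argSet G N = ↑(Icc 1 (argCount G N)) ∧
    |(G.leadingCoeff.natAbs * argCount G N : ℝ) - N| ≤ |(G.coeff 0 : ℝ)| + G.leadingCoeff.natAbs := by
  refine ⟨(G.coeff 0).natAbs + G.leadingCoeff.natAbs + 1, fun N hN => ?_⟩
  have hs := u17_arg G hG hG0 N
  obtain ⟨Z, hZ⟩ : ∃ Z : ℕ, Z = argCount G N := ⟨_, rfl⟩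
  rw [← hZ] at hs ⊢
  have hev := u17_ev G hG
  have hZ1 : 1 ≤ Z := by
    have h1 : 1 ∈ argSet G N := by
      refine ⟨one_pos, ?_⟩
      rw [hev]
      push_cast
      omega
    rw [hs, mem_coe, mem_Icc] at h1
    exact h1.2
  have hpos : 0 < (N : ℤ) - G.eval (Z : ℤ) := by
    have h1 : Z ∈ argSet G N := by
      rw [hs, mem_coe, mem_Icc]
      exact ⟨hZ1, le_rfl⟩
    exact h1.2
  have hlast : (N : ℤ) - G.eval ((Z : ℤ) + 1) ≤ 0 := by
    by_contra hc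
    have h1 : Z + 1 ∈ argSet G N := by
      refine ⟨Nat.succ_pos _, ?_⟩
      push_cast
      omega
    rw [hs, mem_coe, mem_Icc] at h1
    omega
  have hlc : (C (N : ℤ) - G).leadingCoeff = - G.leadingCoeff := by
    rw [leadingCoeff, Pool.Agent.Lib.H59.natDegree_C_sub', hG, coeff_sub, coeff_C, if_neg one_ne_zero, zero_sub, leadingCoeff, hG]
  refine ⟨⟨?_, ?_, ?_, ?_, ?_⟩, hs, ?_⟩
  · rw [Pool.Agent.Lib.H59.natDegree_C_sub', hG]
  · rw [hlc]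
    omega
  · rw [hlc, Int.natAbs_neg]
  · rw [eval_sub, eval_C]
    exact hpos
  · rw [eval_sub, eval_C]
    exact hlast
  · rw [hev] at hpos hlast
    have e1 : ((G.leadingCoeff.natAbs : ℕ) : ℝ) = (G.leadingCoeff : ℝ) := by
      rw [Nat.cast_natAbs, abs_of_pos hG0]
    rw [e1]
    have h1 : (0 : ℝ) < N - (G.leadingCoeff * Z + G.coeff 0) := by exact_mod_cast hpos
    have h2 : (N : ℝ) - (G.leadingCoeff * (Z + 1) + G.coeff 0) ≤ 0 := by exact_mod_cast hlast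
    have h3 := le_abs_self (G.coeff 0 : ℝ)
    have h4 := neg_abs_le (G.coeff 0 : ℝ)
    have h5 : (0 : ℝ) < G.leadingCoeff := by exact_mod_cast hG0
    rw [abs_le]
    constructor <;> linarith

/-- **U17b.** Proof. `argSet = Icc 1 Z`; `z.toNat.Prime ↔ ∃ q prime, z = q`; `Fin.forall_fin_succ`. -/
theorem U17_cnt {g d : ℕ} (G : ℤ[X]) (P : Fin g → ℤ[X]) (c : Fin g → Fin d → ℤ) (b : Fin g → ℤ) (t : Fin d → ℤ) (N : ℕ)
    (h0 : ∀ i, 0 ≤ b i + lf c t i) (hs : argSet G N = ↑(Icc 1 (argCount G N))) :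
    primeCount (famP P c b t) G N = cnt (sys (C (N : ℤ) - G) P (hh c b t)) 1 (argCount G N) := by
  classical
  unfold primeCount cnt
  have e1 : {n : ℕ | n ∈ argSet G N ∧ (∀ i, ∃ q : ℕ, q.Prime ∧ (famP P c b t i).eval (n : ℤ) = q) ∧
        ∃ q : ℕ, q.Prime ∧ (N : ℤ) - G.eval (n : ℤ) = q} =
      (((Ico 1 (1 + argCount G N)).filter (fun n : ℕ => ∀ i, (sys (C (N : ℤ) - G) P (hh c b t) i (n : ℤ)).toNat.Prime) :
        Finset ℕ) : Set ℕ) := by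
    ext n
    rw [Set.mem_ofPred_eq, hs, mem_coe, mem_coe, mem_filter, mem_Icc, mem_Ico, Fin.forall_fin_succ, u17_sys0, u17_prime]
    constructor
    · rintro ⟨h1, h2, h3⟩
      refine ⟨by omega, h3, fun i => ?_⟩
      rw [u17_sysS G P c b t N h0, u17_prime]
      exact h2 i
    · rintro ⟨h1, h2, h3⟩
      refine ⟨by omega, fun i => ?_, h2⟩
      have h4 := h3 i
      rwa [u17_sysS G P c b t N h0, u17_prime] at h4
  rw [e1, Set.ncard_coe_finset]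

/-- **U17c.** Proof. `Nat.primesBelow z = pr (z - 1)`; `U13_tpf`; `omegaN F G N p` is the `rootCount` of the product (`rfl`, up to the order of the factors). -/
theorem U17_series {g d : ℕ} (G : ℤ[X]) (P : Fin g → ℤ[X]) (c : Fin g → Fin d → ℤ) (b : Fin g → ℤ) (t : Fin d → ℤ) (N z : ℕ)
    (h0 : ∀ i, 0 ≤ b i + lf c t i) :
    seriesTrunc (famP P c b t) G N z = SSf (pr (z - 1)) (sys (C (N : ℤ) - G) P (hh c b t)) := by
  unfold seriesTrunc SSf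
  have e1 : Nat.primesBelow z = pr (z - 1) := by
    ext p
    unfold Nat.primesBelow pr
    rw [mem_filter, mem_filter, mem_range, mem_Icc]
    constructor
    · rintro ⟨h1, h2⟩
      exact ⟨⟨h2.one_lt.le, by omega⟩, h2⟩
    · rintro ⟨h1, h2⟩
      exact ⟨by omega, h2⟩
  rw [e1]
  refine prod_congr rfl fun p hp => ?_
  have hp' : p.Prime := (mem_filter.1 hp).2
  rw [U13_tpf _ _ _ p hp', inv_pow]
  have e2 : omegaN (famP P c b t) G N p =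
      Pool.Agent.Lib.H59.rootCount ((C (N : ℤ) - G) * ∏ i, (P i + C ((hh c b t i : ℕ) : ℤ))) p := by
    unfold omegaN Pool.Agent.Lib.H59.rootCount
    have e3 : (∏ i, famP P c b t i) * (C (N : ℤ) - G) = (C (N : ℤ) - G) * ∏ i, (P i + C ((hh c b t i : ℕ) : ℤ)) := by
      rw [mul_comm]
      refine congrArg _ (prod_congr rfl fun i _ => u17_fam P c b t h0 i)
    rw [e3]
  rw [e2]

/-- **U17d.** Proof. No fixed divisor: for a prime `l` some `n` with `l ∤ ∏ F_i(n) (N - G(n))`. -/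
theorem U17_noFix {g d : ℕ} (G : ℤ[X]) (P : Fin g → ℤ[X]) (c : Fin g → Fin d → ℤ) (b : Fin g → ℤ) (t : Fin d → ℤ) (N : ℕ)
    (h0 : ∀ i, 0 ≤ b i + lf c t i) (ha : Admissible (famP P c b t) G N) :
    NoFix (sys (C (N : ℤ) - G) P (hh c b t)) := by
  intro l hl
  have h1 := ha.2 l hl
  push Not at h1
  obtain ⟨n, hn⟩ := h1
  refine ⟨n, ?_⟩
  rw [eval_mul, eval_sub, eval_C, eval_prod] at hn
  rw [Fin.forall_fin_succ, u17_sys0]
  refine ⟨fun h => hn (dvd_mul_of_dvd_right h _), fun i h => hn (dvd_mul_of_dvd_left ?_ _)⟩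
  rw [u17_sysS G P c b t N h0] at h
  exact h.trans (dvd_prod_of_mem (fun i => (famP P c b t i).eval n) (mem_univ i))

/-- the main term -/
theorem u17_main_term {g d : ℕ} (G : ℤ[X]) (hG : G.natDegree = 1) (P : Fin g → ℤ[X])
    (D : Fin g → ℕ) (a : Fin g → ℤ) (hP : HasD D a P) (c : Fin g → Fin d → ℤ) (b : Fin g → ℤ) (t : Fin d → ℤ) (N z : ℕ)
    (h0 : ∀ i, 0 ≤ b i + lf c t i) :
    mainTermP (famP P c b t) G N z =
      (argCount G N : ℝ) * dens D (z - 1) (argCount G N) (sys (C (N : ℤ) - G) P (hh c b t)) := by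
  unfold mainTermP dens
  rw [U17_series G P c b t N z h0, hG]
  have e1 : ∀ i, ((famP P c b t i).natDegree : ℝ) = D i := by
    intro i
    unfold famP
    rw [natDegree_add_C, (hP i).1]
  rw [prod_congr rfl fun i _ => e1 i]
  push_cast
  rw [one_mul]
  ring



end Pool.Agent.H9P
end

-- from Lib.HUP.Z2
section

/-!
# Projects HUP and HPC, module Z (the final theorems), Z2: any G, the pairs (N, t)
-/

open Finset Polynomial Filter Topology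

namespace Pool.Agent.HUP

open Pool.Agent.Lib.H24P
open Pool.Agent.Lib.H59 (argSet argCount Admissible primeCount argSet_eq argCount_tendsto)

/-- The data of the system `(-G + N, P_i + b_i + ψ_i(t))` with the parameters `(N, t)`. -/
theorem Z2_dat {g d : ℕ} (G : ℤ[X]) (hG : 1 ≤ G.natDegree) (hl : 0 < G.leadingCoeff) (P : Fin g → ℤ[X])
    (c : Fin g → Fin d → ℤ) (e : Fin d → ℕ)
    (hD : Dat c e (fun i => (P i).natDegree) (fun i => (P i).leadingCoeff)) :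
    Dat (Fin.cons (Fin.cons 1 0) (fun i => Fin.cons 0 (c i)) : Fin (g + 1) → Fin (d + 1) → ℤ)
      (Fin.cons G.natDegree e : Fin (d + 1) → ℕ)
      (fun i => ((Fin.cons (-G) P : Fin (g + 1) → ℤ[X]) i).natDegree)
      (fun i => ((Fin.cons (-G) P : Fin (g + 1) → ℤ[X]) i).leadingCoeff) := by
  refine ⟨?_, ?_, ?_, ?_, ?_, ?_⟩
  · intro i
    refine Fin.cases ?_ (fun i => ?_) i
    · simp only [Fin.cons_zero]
      rw [natDegree_neg]
      exact hG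
    · simp only [Fin.cons_succ]
      exact hD.deg i
  · intro i
    refine Fin.cases ?_ (fun i => ?_) i
    · simp only [Fin.cons_zero]
      rw [leadingCoeff_neg]
      omega
    · simp only [Fin.cons_succ]
      exact hD.lc i
  · intro i
    refine Fin.cases ?_ (fun i => ?_) i
    · refine ⟨0, ?_⟩
      simp only [Fin.cons_zero]
      exact one_ne_zero
    · obtain ⟨j, hj⟩ := hD.ne i
      refine ⟨j.succ, ?_⟩
      simp only [Fin.cons_succ]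
      exact hj
  · intro i
    refine Fin.cases ?_ (fun i => ?_) i
    · intro i'
      refine Fin.cases ?_ (fun i' => ?_) i'
      · intro h
        exact absurd rfl h
      · intro _ _ x x' h1 h2
        have h3 := h2 0
        simp only [Fin.cons_zero, Fin.cons_succ, mul_one, mul_zero] at h3
        subst h3
        refine ⟨rfl, ?_⟩
        simp only [Fin.cons_succ, zero_mul] at h1
        exact (mul_eq_zero.1 h1.symm).resolve_right (hD.lc i')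
    · intro i'
      refine Fin.cases ?_ (fun i' => ?_) i'
      · intro _ _ x x' h1 h2
        have h3 := h2 0
        simp only [Fin.cons_zero, Fin.cons_succ, mul_one, mul_zero] at h3
        subst h3
        refine ⟨?_, rfl⟩
        simp only [Fin.cons_succ, zero_mul] at h1
        exact (mul_eq_zero.1 h1).resolve_right (hD.lc i)
      · intro hne h0 x x' h1 h2
        have hne' : i ≠ i' := fun h => hne (by rw [h])
        simp only [Fin.cons_succ] at h0 h1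
        refine hD.ind i i' hne' h0 x x' h1 fun j => ?_
        have h3 := h2 j.succ
        simp only [Fin.cons_succ] at h3
        exact h3
  · intro j
    refine Fin.cases ?_ (fun j => ?_) j
    · rw [Fin.cons_zero]
      exact hG
    · rw [Fin.cons_succ]
      exact hD.par j
  · intro i
    refine Fin.cases ?_ (fun i => ?_) i
    · intro j
      refine Fin.cases ?_ (fun j => ?_) j
      · intro _
        simp only [Fin.cons_zero]
        rw [natDegree_neg]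
      · intro h
        simp only [Fin.cons_zero, Fin.cons_succ, Pi.zero_apply] at h
        exact absurd rfl h
    · intro j
      refine Fin.cases ?_ (fun j => ?_) j
      · intro h
        simp only [Fin.cons_zero, Fin.cons_succ] at h
        exact absurd rfl h
      · intro h
        simp only [Fin.cons_succ] at h ⊢
        exact hD.blk i j h

/-- z2 aux: the first form. -/
theorem z2_lf0 {g d : ℕ} (c : Fin g → Fin d → ℤ) (N : ℤ) (t : Fin d → ℤ) :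
    lf (Fin.cons (Fin.cons 1 0) (fun i => Fin.cons 0 (c i)) : Fin (g + 1) → Fin (d + 1) → ℤ)
      (Fin.cons N t : Fin (d + 1) → ℤ) 0 = N := by
  unfold lf
  rw [Fin.sum_univ_succ]
  simp only [Fin.cons_zero, Fin.cons_succ, Pi.zero_apply, zero_mul, one_mul, Finset.sum_const_zero,
    add_zero]

/-- z2 aux: the other forms. -/
theorem z2_lfs {g d : ℕ} (c : Fin g → Fin d → ℤ) (N : ℤ) (t : Fin d → ℤ) (i : Fin g) :
    lf (Fin.cons (Fin.cons 1 0) (fun i => Fin.cons 0 (c i)) : Fin (g + 1) → Fin (d + 1) → ℤ)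
      (Fin.cons N t : Fin (d + 1) → ℤ) i.succ = lf c t i := by
  unfold lf
  rw [Fin.sum_univ_succ]
  simp only [Fin.cons_zero, Fin.cons_succ, zero_mul, zero_add]

/-- The constant terms. -/
theorem Z2_hh {g d : ℕ} (c : Fin g → Fin d → ℤ) (b : Fin g → ℤ) (N : ℕ) (t : Fin d → ℤ) :
    hh (Fin.cons (Fin.cons 1 0) (fun i => Fin.cons 0 (c i)) : Fin (g + 1) → Fin (d + 1) → ℤ)
      (Fin.cons 0 b : Fin (g + 1) → ℤ) (Fin.cons (N : ℤ) t : Fin (d + 1) → ℤ) =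
      (Fin.cons N (hh c b t) : Fin (g + 1) → ℕ) := by
  funext i
  unfold hh
  refine Fin.cases ?_ (fun i => ?_) i
  · rw [z2_lf0, Fin.cons_zero, Fin.cons_zero, zero_add, Int.toNat_natCast]
  · rw [z2_lfs, Fin.cons_succ, Fin.cons_succ]

/-- z2 aux: the box is monotone in `A`. -/
theorem z2_box {d : ℕ} {A A' X : ℕ} {e : Fin d → ℕ} (hA : A ≤ A') {t : Fin d → ℤ} (ht : t ∈ BoxT A X e) :
    t ∈ BoxT A' X e := by
  unfold BoxT at ht ⊢
  rw [Fintype.mem_piFinset] at ht ⊢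
  intro j
  have h1 := mem_Icc.1 (ht j)
  have h2 : ((A * X ^ e j : ℕ) : ℤ) ≤ ((A' * X ^ e j : ℕ) : ℤ) :=
    Int.ofNat_le.2 (Nat.mul_le_mul_right _ hA)
  exact mem_Icc.2 ⟨(neg_le_neg h2).trans h1.1, h1.2.trans h2⟩

/-- z2 aux: the pairs in the box. -/
theorem z2_boxcons {d : ℕ} {A X N m : ℕ} {e : Fin d → ℕ} {t : Fin d → ℤ} (hN : N ≤ A * X ^ m)
    (ht : t ∈ BoxT A X e) :
    (Fin.cons (N : ℤ) t : Fin (d + 1) → ℤ) ∈ BoxT A X (Fin.cons m e : Fin (d + 1) → ℕ) := by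
  unfold BoxT at ht ⊢
  rw [Fintype.mem_piFinset] at ht ⊢
  intro j
  refine Fin.cases ?_ (fun j => ?_) j
  · rw [Fin.cons_zero, Fin.cons_zero]
    have h1 : (N : ℤ) ≤ ((A * X ^ m : ℕ) : ℤ) := Int.ofNat_le.2 hN
    have h2 : (0 : ℤ) ≤ N := Int.natCast_nonneg N
    exact mem_Icc.2 ⟨by linarith, h1⟩
  · rw [Fin.cons_succ, Fin.cons_succ]
    exact ht j




end Pool.Agent.HUP
end

-- from Lib.H9P.U4
section

/-!
# ASYP, chunk U4 (M): `R13_small`, `R13_main` with the geometry `GeoV`, uniformly in the polynomials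
-/

open Finset Polynomial

namespace Pool.Agent.H9P

open Pool.Agent.Lib.H68T Pool.Agent.Lib.H18Q Pool.Agent.Lib.H59P Pool.Agent.Lib.H24P
open Pool.Agent.HUP

/-- Pointwise comparison with a base point of the cell (copy of `V1_pt` of H24P). -/
theorem u4_pt {k : ℕ} (P : Fin k → ℤ[X]) (Q X X1 : ℕ) (hQ : 1 ≤ Q) (M : Fin k → ℕ)
    (hG : GeoV Q X X1 P M)
    (Cc : Fin k → ℤ → Ch → ℂ) (mb : Fin k → Ch → ℝ) (hC : ∀ i, Cf Q (Ysc (M i)) (Cc i) (mb i))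
    (h0 h : Fin k → ℕ) (hh0 : h0 ∈ cub M M) (hh : h ∈ cub M M) (n : ℕ) (hn : n ∈ Ico X1 (2 * X1)) :
    ((∀ i, (Q : ℤ) ^ 8 * |((h i : ℕ) : ℤ) - h0 i| ≤ M i) →
    ‖((∏ i, Lk Q (Ysc (M i) / Q ^ 2) ((P i).eval (n : ℤ) + h i) : ℝ) : ℂ) -
      ∏ i, SG Q (Cc i ((P i).eval ((bs (X1 / Q ^ 8) n : ℕ) : ℤ) + (h0 i : ℤ))) ((P i).eval (n : ℤ) + h i)‖ ≤
      k * (6 / (Q : ℝ) ^ 3) * (300 * (1 + Real.log Q) ^ 3) ^ k *
        ∏ i, dQ Q ((P i).eval (n : ℤ) + h i)) ∧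
    ‖∏ i, SG Q (Cc i ((P i).eval ((bs (X1 / Q ^ 8) n : ℕ) : ℤ) + (h0 i : ℤ))) ((P i).eval (n : ℤ) + h i)‖ ≤
      (300 * (1 + Real.log Q) ^ 3) ^ k * ∏ i, dQ Q ((P i).eval (n : ℤ) + h i) := by
  have hQ1 : (1 : ℝ) ≤ Q := by exact_mod_cast hQ
  have hQ0 : (0 : ℝ) < Q := by linarith
  have hlog : 0 ≤ Real.log Q := Real.log_nonneg hQ1
  have hX1 := hG.pos
  have hq8 : 0 < Q ^ 8 := pow_pos (by omega) _
  -- the cells for n
  have hXd : Q ^ 8 ∣ X1 := (pow_dvd_pow Q (by norm_num)).trans hG.dvd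
  have hXe : X1 = X1 / Q ^ 8 * Q ^ 8 := (Nat.div_mul_cancel hXd).symm
  have hH : 0 < X1 / Q ^ 8 := Nat.div_pos (Nat.le_of_dvd hX1 hXd) hq8
  obtain ⟨hb1, hb2, hb3⟩ := v1a_bs (X1 / Q ^ 8) (Q ^ 8) n X1 hH hXe hn
  have hcell : (n - bs (X1 / Q ^ 8) n) * Q ^ 8 ≤ X1 := by
    calc (n - bs (X1 / Q ^ 8) n) * Q ^ 8 ≤ X1 / Q ^ 8 * Q ^ 8 :=
          Nat.mul_le_mul_right _ (by omega)
      _ = X1 := hXe.symm
  have hh' : ∀ i, h i ∈ Ico (M i) (M i + M i) := fun i => Fintype.mem_piFinset.1 hh i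
  have hMd : ∀ i, Q ^ 8 ∣ M i := fun i => (dvd_mul_left _ _).trans (hG.dvdM i)
  have hM8 : ∀ i, 8 ∣ M i := fun i => (dvd_mul_right _ _).trans (hG.dvdM i)
  have hMpos : ∀ i, 0 < M i := by
    intro i
    have := Finset.mem_Ico.1 (hh' i)
    omega
  -- the base points
  obtain ⟨F, hF⟩ : ∃ F : Fin k → ℤ, F = fun i => (P i).eval ((bs (X1 / Q ^ 8) n : ℕ) : ℤ) + (h0 i : ℤ) := ⟨_, rfl⟩
  suffices hgoal : ((∀ i, (Q : ℤ) ^ 8 * |((h i : ℕ) : ℤ) - h0 i| ≤ M i) →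
      ‖((∏ i, Lk Q (Ysc (M i) / Q ^ 2) ((P i).eval (n : ℤ) + h i) : ℝ) : ℂ) -
      ∏ i, SG Q (Cc i (F i)) ((P i).eval (n : ℤ) + h i)‖ ≤
      k * (6 / (Q : ℝ) ^ 3) * (300 * (1 + Real.log Q) ^ 3) ^ k *
        ∏ i, dQ Q ((P i).eval (n : ℤ) + h i)) ∧
    ‖∏ i, SG Q (Cc i (F i)) ((P i).eval (n : ℤ) + h i)‖ ≤
      (300 * (1 + Real.log Q) ^ 3) ^ k * ∏ i, dQ Q ((P i).eval (n : ℤ) + h i) by
    rw [hF] at hgoal
    exact hgoal
  have hval : ∀ i, (Ysc (M i) : ℤ) ≤ (P i).eval (n : ℤ) + h i ∧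
      (P i).eval (n : ℤ) + h i ≤ 4 * Ysc (M i) ∧ 4 * Ysc (M i) = 3 * M i := by
    intro i
    have h1 := G2_val (M i) (h i) ((P i).eval (n : ℤ)) (hM8 i) (hG.small i n hn)
      (by have := hh' i; rw [← two_mul] at this; exact this)
    exact ⟨h1.1, by linarith [h1.2.1, h1.1], h1.2.2⟩
  have hY : ∀ i, 0 < Ysc (M i) := by
    intro i
    have h1 := (hval i).2.2
    have h2 := hMpos i
    omega
  have hh0' : ∀ i, h0 i ∈ Ico (M i) (2 * M i) := by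
    intro i
    have := Fintype.mem_piFinset.1 hh0 i
    rw [← two_mul] at this
    exact this
  have hbase : ∀ i, (Ysc (M i) : ℤ) ≤ F i ∧ F i ≤ 4 * Ysc (M i) ∧
      ((Q : ℤ) ^ 8 * |((h i : ℕ) : ℤ) - h0 i| ≤ M i →
        (Q : ℤ) ^ 8 * |(P i).eval (n : ℤ) + h i - F i| ≤ 2 * M i) := by
    intro i
    have h1 := G2_val (M i) (h0 i) ((P i).eval ((bs (X1 / Q ^ 8) n : ℕ) : ℤ)) (hM8 i)
      (hG.small i _ hb1) (hh0' i)
    have hFe : F i = (P i).eval ((bs (X1 / Q ^ 8) n : ℕ) : ℤ) + (h0 i : ℕ) := by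
      rw [hF]
    rw [hFe]
    refine ⟨h1.1, by linarith [h1.2.1, h1.1], ?_⟩
    intro h3
    have h2 := hG.slow i _ hb1 n hn hb2 hcell
    have h5 : (P i).eval (n : ℤ) + (h i : ℤ) -
        ((P i).eval ((bs (X1 / Q ^ 8) n : ℕ) : ℤ) + (h0 i : ℕ)) =
        ((P i).eval (n : ℤ) - (P i).eval ((bs (X1 / Q ^ 8) n : ℕ) : ℤ)) +
        (((h i : ℕ) : ℤ) - (h0 i : ℕ)) := by ring
    rw [h5]
    calc (Q : ℤ) ^ 8 * |((P i).eval (n : ℤ) - (P i).eval ((bs (X1 / Q ^ 8) n : ℕ) : ℤ)) +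
        (((h i : ℕ) : ℤ) - (h0 i : ℕ))|
        ≤ (Q : ℤ) ^ 8 * (|(P i).eval (n : ℤ) - (P i).eval ((bs (X1 / Q ^ 8) n : ℕ) : ℤ)| +
        |((h i : ℕ) : ℤ) - (h0 i : ℕ)|) :=
          mul_le_mul_of_nonneg_left (abs_add_le _ _) (by positivity)
      _ ≤ 2 * M i := by
          rw [mul_add]
          linarith
  have hZ : (∏ i : Fin k, (300 * (1 + Real.log Q) ^ 3 * dQ Q ((P i).eval (n : ℤ) + h i))) =
      (300 * (1 + Real.log Q) ^ 3) ^ k * ∏ i, dQ Q ((P i).eval (n : ℤ) + h i) := by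
    rw [Finset.prod_mul_distrib, Finset.prod_const, Finset.card_univ, Fintype.card_fin]
  have hdq : ∀ i : Fin k, 0 ≤ dQ Q ((P i).eval (n : ℤ) + h i) := by
    intro i
    exact Nat.cast_nonneg _
  have hC0 : 0 ≤ 100 * (1 + Real.log Q) ^ 3 := by positivity
  have hsg : ∀ (m : ℤ) (i : Fin k), (Ysc (M i) : ℤ) ≤ m → m ≤ 4 * Ysc (M i) →
      ‖SG Q (Cc i m) ((P i).eval (n : ℤ) + h i)‖ ≤
        300 * (1 + Real.log Q) ^ 3 * dQ Q ((P i).eval (n : ℤ) + h i) := by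
    intro m i h1 h2
    refine (S1b Q hQ (Cc i m) (mb i) ((hC i).le m h1 h2) _).trans ?_
    have h3 : 0 ≤ 100 * (1 + Real.log Q) ^ 3 * dQ Q ((P i).eval (n : ℤ) + h i) := mul_nonneg hC0 (hdq i)
    calc 100 * (1 + Real.log Q) ^ 3 * dQ Q ((P i).eval (n : ℤ) + h i) * ∑ p ∈ PC Q, mb i p
        ≤ 100 * (1 + Real.log Q) ^ 3 * dQ Q ((P i).eval (n : ℤ) + h i) * 3 :=
          mul_le_mul_of_nonneg_left (hC i).sum h3
      _ = 300 * (1 + Real.log Q) ^ 3 * dQ Q ((P i).eval (n : ℤ) + h i) := by ring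
  constructor
  · intro hclose
    have hLk : ((∏ i, Lk Q (Ysc (M i) / Q ^ 2) ((P i).eval (n : ℤ) + h i) : ℝ) : ℂ) =
        ∏ i, SG Q (Cc i ((P i).eval (n : ℤ) + h i)) ((P i).eval (n : ℤ) + h i) := by
      rw [Complex.ofReal_prod]
      exact Finset.prod_congr rfl fun i _ => (hC i).eq _ (hval i).1 (hval i).2.1
    rw [hLk]
    have key := v1b_prod (Finset.univ : Finset (Fin k))
      (fun i => SG Q (Cc i ((P i).eval (n : ℤ) + h i)) ((P i).eval (n : ℤ) + h i))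
      (fun i => SG Q (Cc i (F i)) ((P i).eval (n : ℤ) + h i))
      (fun i => 300 * (1 + Real.log Q) ^ 3 * dQ Q ((P i).eval (n : ℤ) + h i)) (6 / (Q : ℝ) ^ 3)
      (by positivity)
      (fun i => mul_nonneg (by positivity) (hdq i))
      (fun i _ => hsg _ i (hval i).1 (hval i).2.1)
      (fun i _ => hsg _ i (hbase i).1 (hbase i).2.1)
      (fun i _ => ?_)
    · rw [hZ, Finset.card_univ, Fintype.card_fin] at key
      refine key.trans (le_of_eq ?_)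
      ring
    · rw [v1b_sub]
      have hY0 : (0 : ℝ) < Ysc (M i) := by exact_mod_cast hY i
      have h1 : ∀ p ∈ PC Q, ‖Cc i ((P i).eval (n : ℤ) + h i) p - Cc i (F i) p‖ ≤ 6 / (Q : ℝ) ^ 5 := by
        intro p hp
        refine (v1a_slow Q (Ysc (M i)) (Cc i) (mb i) (hC i) _ _ (hbase i).1 (hbase i).2.1
          (hval i).1 (hval i).2.1 p hp).trans ?_
        have h2 : (Q : ℝ) ^ 8 * |(((P i).eval (n : ℤ) + h i : ℤ) : ℝ) - ((F i : ℤ) : ℝ)| ≤ 2 * M i := by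
          exact_mod_cast (hbase i).2.2 (hclose i)
        have h3 : (4 : ℝ) * Ysc (M i) = 3 * M i := by exact_mod_cast (hval i).2.2
        have h4 : |(((P i).eval (n : ℤ) + h i : ℤ) : ℝ) - ((F i : ℤ) : ℝ)| ≤
            (8 / 3 * Ysc (M i)) / (Q : ℝ) ^ 8 := by
          rw [le_div_iff₀ (by positivity), mul_comm]
          linarith
        calc |(((P i).eval (n : ℤ) + h i : ℤ) : ℝ) - ((F i : ℤ) : ℝ)| *
              (2 * (Q : ℝ) ^ 3 / Ysc (M i))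
            ≤ (8 / 3 * Ysc (M i)) / (Q : ℝ) ^ 8 * (2 * (Q : ℝ) ^ 3 / Ysc (M i)) :=
              mul_le_mul_of_nonneg_right h4 (by positivity)
          _ = (16 / 3) / (Q : ℝ) ^ 5 := by
              field_simp
              ring
          _ ≤ 6 / (Q : ℝ) ^ 5 := by
              apply div_le_div_of_nonneg_right _ (by positivity)
              norm_num
      refine (S1b Q hQ _ (fun _ => 6 / (Q : ℝ) ^ 5) h1 _).trans ?_
      rw [Finset.sum_const, nsmul_eq_mul]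
      have hc : ((PC Q).card : ℝ) ≤ (Q : ℝ) ^ 2 := by exact_mod_cast card_PC_le Q
      have h3 : 0 ≤ 100 * (1 + Real.log Q) ^ 3 * dQ Q ((P i).eval (n : ℤ) + h i) :=
        mul_nonneg hC0 (hdq i)
      calc 100 * (1 + Real.log Q) ^ 3 * dQ Q ((P i).eval (n : ℤ) + h i) *
            (((PC Q).card : ℝ) * (6 / (Q : ℝ) ^ 5))
          ≤ 100 * (1 + Real.log Q) ^ 3 * dQ Q ((P i).eval (n : ℤ) + h i) *
            ((Q : ℝ) ^ 2 * (6 / (Q : ℝ) ^ 5)) := by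
            apply mul_le_mul_of_nonneg_left _ h3
            exact mul_le_mul_of_nonneg_right hc (by positivity)
        _ = 6 / (Q : ℝ) ^ 3 * (100 * (1 + Real.log Q) ^ 3 * dQ Q ((P i).eval (n : ℤ) + h i)) := by
            field_simp
        _ ≤ 6 / (Q : ℝ) ^ 3 * (300 * (1 + Real.log Q) ^ 3 * dQ Q ((P i).eval (n : ℤ) + h i)) := by
            apply mul_le_mul_of_nonneg_left _ (by positivity)
            have h5 : 0 ≤ (1 + Real.log Q) ^ 3 * dQ Q ((P i).eval (n : ℤ) + h i) :=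
              mul_nonneg (by positivity) (hdq i)
            nlinarith
  · rw [← hZ, norm_prod]
    exact Finset.prod_le_prod (fun i _ => norm_nonneg _) fun i _ => hsg _ i (hbase i).1 (hbase i).2.1


/-- The product of the divisor functions. -/
theorem u4_prod (k A : ℕ) (C : ℝ) : ∃ Q0 : ℕ, 3 ≤ Q0 ∧ ∀ P : Fin k → ℤ[X], (∀ i, (P i).natDegree ≤ A) →
    ∀ (Q X X1 : ℕ) (M : Fin k → ℕ), Q0 ≤ Q → Rg 2 C Q X → GeoV Q X X1 P M →
    ∀ h ∈ cub M M, ∀ n ∈ Ico X1 (2 * X1), (∀ i, 8 * |(P i).eval (n : ℤ)| ≤ M i) →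
    ∏ i, dQ Q ((P i).eval (n : ℤ) + h i) ≤ (Q : ℝ) ^ (1 / 2 : ℝ) := by
  obtain ⟨Q0, hQ0⟩ := R13_dQ A C (1 / (2 * k + 2)) (by positivity)
  refine ⟨max 3 Q0, le_max_left _ _, fun P hdA Q X X1 M hQ hR hG h hh n hn hP => ?_⟩
  have hQ3 : 3 ≤ Q := (le_max_left _ _).trans hQ
  have hQ0' : Q0 ≤ Q := (le_max_right _ _).trans hQ
  have hQr : (0 : ℝ) < Q := by exact_mod_cast (by omega : 0 < Q)
  have hQ1 : (1 : ℝ) ≤ Q := by exact_mod_cast (by omega : 1 ≤ Q)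
  have hlogQ : 1 ≤ Real.log Q := G1_log1 hQ3
  have hX1 : 0 < X1 := hG.pos
  have hX : 0 < X := lt_of_lt_of_le hX1 hG.le
  have hXr : (0 : ℝ) < X := by exact_mod_cast hX
  have hX3 : (3 : ℝ) ≤ X := by
    have h1 : 2 * Real.log Q ≤ Real.log X := hR.1
    have h2 : (2 : ℝ) ≤ Real.log X := by linarith
    have h3 := Real.add_one_le_exp (2 : ℝ)
    have h4 : Real.exp 2 ≤ Real.exp (Real.log X) := Real.exp_le_exp.2 h2
    rw [Real.exp_log hXr] at h4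
    linarith
  have hQX : (Q : ℝ) ^ (1 / 8 : ℝ) ≤ X := by
    rw [Real.rpow_def_of_pos hQr, ← Real.le_log_iff_exp_le hXr]
    have h1 : 2 * Real.log Q ≤ Real.log X := hR.1
    linarith
  have hh' : ∀ i, h i ∈ Ico (M i) (2 * M i) := by
    intro i
    have := Fintype.mem_piFinset.1 hh i
    rw [← two_mul] at this
    exact this
  have hM8 : ∀ i, 8 ∣ M i := fun i => (dvd_mul_right _ _).trans (hG.dvdM i)
  have hd : ∀ i, dQ Q ((P i).eval (n : ℤ) + h i) ≤ (Q : ℝ) ^ (1 / (2 * k + 2) : ℝ) := by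
    intro i
    have h1 := G2_val (M i) (h i) ((P i).eval (n : ℤ)) (hM8 i) (hP i) (hh' i)
    have hMi : 0 < M i := by
      have := mem_Ico.1 (hh' i)
      omega
    have hY : 0 < Ysc (M i) := by
      have := h1.2.2
      omega
    have hm0 : 0 < (P i).eval (n : ℤ) + h i := by
      have : (0 : ℤ) < Ysc (M i) := by exact_mod_cast hY
      linarith [h1.1]
    refine hQ0 Q X _ hQ0' hX hR.2 hm0.ne' ?_
    rw [abs_of_pos hm0]
    have h2 : (P i).eval (n : ℤ) + h i ≤ 3 * M i := by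
      have h3 : (4 : ℤ) * Ysc (M i) = 3 * M i := by exact_mod_cast h1.2.2
      have h4 : (0 : ℤ) ≤ M i := by positivity
      linarith [h1.2.1]
    have h5 : ((3 * M i : ℕ) : ℝ) ≤ ((X ^ (A + 2) : ℕ) : ℝ) := by
      push_cast
      have hX1r : (X1 : ℝ) ≤ X := by exact_mod_cast hG.le
      have hXone : (1 : ℝ) ≤ X := by linarith
      have hdeg : (P i).natDegree ≤ A := hdA i
      calc (3 : ℝ) * M i ≤ X * ((X1 : ℝ) ^ (P i).natDegree * (Q : ℝ) ^ (1 / 8 : ℝ)) :=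
            mul_le_mul hX3 (hG.hi i) (Nat.cast_nonneg _) hXr.le
        _ ≤ X * ((X : ℝ) ^ A * X) := by
            apply mul_le_mul_of_nonneg_left _ hXr.le
            apply mul_le_mul _ hQX (by positivity) (by positivity)
            exact (pow_le_pow_left₀ (Nat.cast_nonneg _) hX1r _).trans (pow_le_pow_right₀ hXone hdeg)
        _ = (X : ℝ) ^ (A + 2) := by ring
    have h6 : 3 * M i ≤ X ^ (A + 2) := by exact_mod_cast h5
    calc (P i).eval (n : ℤ) + h i ≤ ((3 * M i : ℕ) : ℤ) := by push_cast; exact h2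
      _ ≤ ((X ^ (A + 2) : ℕ) : ℤ) := by exact_mod_cast h6
      _ = _ := by push_cast; rfl
  calc ∏ i, dQ Q ((P i).eval (n : ℤ) + h i) ≤ ∏ _i : Fin k, (Q : ℝ) ^ (1 / (2 * k + 2) : ℝ) :=
        Finset.prod_le_prod (fun i _ => Nat.cast_nonneg _) fun i _ => hd i
    _ = (Q : ℝ) ^ ((1 / (2 * k + 2) : ℝ) * k) := by
        rw [Finset.prod_const, Finset.card_univ, Fintype.card_fin, Real.rpow_mul hQr.le, Real.rpow_natCast]
    _ ≤ (Q : ℝ) ^ (1 / 2 : ℝ) := by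
        apply Real.rpow_le_rpow_of_exponent_le hQ1
        have hk : (0 : ℝ) ≤ k := Nat.cast_nonneg k
        rw [div_mul_eq_mul_div, one_mul, div_le_div_iff₀ (by positivity) (by norm_num)]
        linarith

/-- **U4a.** Copy of `R13_small` (`HUP/R13.lean`, with `r13_pt`, `r13_prod`): `G2_P` and `Geo` are replaced by the fields of `GeoV`; in `r13_prod` take
`R13_dQ` with `k * A` instead of `∑ deg P_i`. -/
theorem U4_small (k A : ℕ) (C : ℝ) : ∃ Q0 : ℕ, ∀ P : Fin k → ℤ[X], Pol A P →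
    ∀ (Q X X1 : ℕ) (M : Fin k → ℕ), Q0 ≤ Q → Rg 2 C Q X → GeoV Q X X1 P M →
    ∀ (C' : Fin k → ℤ → Ch → ℂ) (mb : Fin k → Ch → ℝ), (∀ i, Cf Q (Ysc (M i)) (C' i) (mb i)) →
    ∀ (w : ℕ → ℂ) (δ : ℝ), (∀ n ∈ Ico X1 (2 * X1), ‖w n‖ ≤ δ) → ∀ h0 ∈ cub M M, ∀ h ∈ cub M M,
    ‖Rzb Q X1 P C' w h0 h‖ ≤ δ * X1 * Q := by
  obtain ⟨Qa, hQa3, ha⟩ := u4_prod k A C
  obtain ⟨Qb, hQb1, hb⟩ := G1_rlog (300 ^ k) ((3 * k : ℕ) : ℝ) (1 / 2) (by norm_num)
  refine ⟨max Qa Qb, fun P hP Q X X1 M hQ hR hG C' mb hC w δ hw h0 hh0 h hh => ?_⟩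
  have hQa := (le_max_left _ _).trans hQ
  have hQb := (le_max_right _ _).trans hQ
  have hQ1 : 1 ≤ Q := hQb1.trans hQb
  have hQr : (0 : ℝ) < Q := by exact_mod_cast hQ1
  have hlog : 0 ≤ Real.log Q := Real.log_natCast_nonneg Q
  have hX1 : 0 < X1 := hG.pos
  have hδ : 0 ≤ δ := (norm_nonneg _).trans (hw X1 (by rw [Finset.mem_Ico]; omega))
  have k2 := hb Q hQb
  rw [Real.rpow_natCast] at k2
  have k3 : (300 * (1 + Real.log Q) ^ 3) ^ k ≤ (Q : ℝ) ^ (1 / 2 : ℝ) := by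
    rw [mul_pow, ← pow_mul]
    exact k2
  have hterm : ∀ n ∈ Ico X1 (2 * X1), ‖w n *
      ∏ i, SG Q (C' i ((P i).eval ((bs (X1 / Q ^ 8) n : ℕ) : ℤ) + (h0 i : ℤ))) ((P i).eval (n : ℤ) + h i)‖ ≤ δ * Q := by
    intro n hn
    rw [norm_mul]
    have h1 := (u4_pt P Q X X1 hQ1 M hG C' mb hC h0 h hh0 hh n hn).2
    have h2 := ha P hP.degA Q X X1 M hQa hR hG h hh n hn fun i => hG.small i n hn
    have h3 : (300 * (1 + Real.log Q) ^ 3) ^ k * ∏ i, dQ Q ((P i).eval (n : ℤ) + h i) ≤ Q := by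
      calc (300 * (1 + Real.log Q) ^ 3) ^ k * ∏ i, dQ Q ((P i).eval (n : ℤ) + h i)
          ≤ (Q : ℝ) ^ (1 / 2 : ℝ) * (Q : ℝ) ^ (1 / 2 : ℝ) :=
            mul_le_mul k3 h2 (Finset.prod_nonneg fun i _ => Nat.cast_nonneg _) (by positivity)
        _ = Q := by
            rw [← Real.rpow_add hQr]
            norm_num
    exact mul_le_mul (hw n hn) (h1.trans h3) (norm_nonneg _) hδ
  unfold Rzb
  calc ‖∑ n ∈ Ico X1 (2 * X1), w n *
        ∏ i, SG Q (C' i ((P i).eval ((bs (X1 / Q ^ 8) n : ℕ) : ℤ) + (h0 i : ℤ))) ((P i).eval (n : ℤ) + h i)‖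
      ≤ ∑ n ∈ Ico X1 (2 * X1), δ * Q := (norm_sum_le _ _).trans (Finset.sum_le_sum hterm)
    _ = δ * X1 * Q := by
        rw [Finset.sum_const, Nat.card_Ico, nsmul_eq_mul]
        have : 2 * X1 - X1 = X1 := by omega
        rw [this]
        ring

/-- **U4.** Copy of `R13_main` (`HUP/R13.lean`), in the same way. -/
theorem U4_main (k A : ℕ) (C : ℝ) : ∃ Q0 : ℕ, ∀ P : Fin k → ℤ[X], Pol A P →
    ∀ (Q X X1 : ℕ) (M : Fin k → ℕ), Q0 ≤ Q → Rg 2 C Q X → GeoV Q X X1 P M →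
    ∀ (C' : Fin k → ℤ → Ch → ℂ) (mb : Fin k → Ch → ℝ), (∀ i, Cf Q (Ysc (M i)) (C' i) (mb i)) →
    ∀ w : ℕ → ℝ, (∀ n ∈ Ico X1 (2 * X1), |w n| ≤ (Real.log X) ^ 2) → ∀ h0 ∈ cub M M, ∀ h ∈ cub M M,
    (∀ i, (Q : ℤ) ^ 8 * |((h i : ℕ) : ℤ) - h0 i| ≤ M i) →
    ‖((Rw Q X1 P M w h : ℝ) : ℂ) - Rzb Q X1 P C' (fun n => ((w n : ℝ) : ℂ)) h0 h‖ ≤ X1 * (Q : ℝ) ^ (-(1) : ℝ) := by
  obtain ⟨Qa, hQa3, ha⟩ := u4_prod k A C
  obtain ⟨Qb, hQb1, hb⟩ := G1_rlog (300 ^ k) ((3 * k : ℕ) : ℝ) (1 / 4) (by norm_num)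
  obtain ⟨Qc, hQc1, hc⟩ := G1_log C 2 (6 * k) (1 / 4) (by norm_num)
  refine ⟨max (max Qa Qb) Qc, fun P hP Q X X1 M hQ hR hG C' mb hC w hw h0 hh0 h hh hclose => ?_⟩
  have hQa := ((le_max_left _ _).trans (le_max_left _ _)).trans hQ
  have hQb := ((le_max_right _ _).trans (le_max_left _ _)).trans hQ
  have hQc := (le_max_right _ _).trans hQ
  have hQ1 : 1 ≤ Q := hQb1.trans hQb
  have hQr : (0 : ℝ) < Q := by exact_mod_cast hQ1
  have hQr1 : (1 : ℝ) ≤ Q := by exact_mod_cast hQ1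
  have hlog : 0 ≤ Real.log Q := Real.log_natCast_nonneg Q
  have k2 := hb Q hQb
  rw [Real.rpow_natCast] at k2
  have k3 : (300 * (1 + Real.log Q) ^ 3) ^ k ≤ (Q : ℝ) ^ (1 / 4 : ℝ) := by
    rw [mul_pow, ← pow_mul]
    exact k2
  have k4 := hc Q X hQc hR.2
  obtain ⟨δ, hδ⟩ : ∃ δ : ℝ, δ = (Q : ℝ) ^ (-(1) : ℝ) := ⟨_, rfl⟩
  have hδ2 : (Q : ℝ) ^ (1 / 4 : ℝ) * ((Q : ℝ) ^ (1 / 4 : ℝ) * (Q : ℝ) ^ (1 / 2 : ℝ)) / (Q : ℝ) ^ 3 ≤ δ := by
    have h1 : (Q : ℝ) ^ (1 / 4 : ℝ) * ((Q : ℝ) ^ (1 / 4 : ℝ) * (Q : ℝ) ^ (1 / 2 : ℝ)) = Q := by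
      rw [← Real.rpow_add hQr, ← Real.rpow_add hQr]
      norm_num
    rw [h1, hδ, Real.rpow_neg hQr.le, Real.rpow_one, div_le_iff₀ (by positivity)]
    have h2 : ((Q : ℝ))⁻¹ * (Q : ℝ) ^ 3 = (Q : ℝ) ^ 2 := by field_simp
    rw [h2]
    nlinarith
  have hterm : ∀ n ∈ Ico X1 (2 * X1), ‖((w n : ℝ) : ℂ) *
      (((∏ i, Lk Q (Ysc (M i) / Q ^ 2) ((P i).eval (n : ℤ) + h i) : ℝ) : ℂ) -
      ∏ i, SG Q (C' i ((P i).eval ((bs (X1 / Q ^ 8) n : ℕ) : ℤ) + (h0 i : ℤ))) ((P i).eval (n : ℤ) + h i))‖ ≤ δ := by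
    intro n hn
    rw [norm_mul, Complex.norm_real, Real.norm_eq_abs]
    have h1 := (u4_pt P Q X X1 hQ1 M hG C' mb hC h0 h hh0 hh n hn).1 hclose
    have h2 := ha P hP.degA Q X X1 M hQa hR hG h hh n hn fun i => hG.small i n hn
    have h4 : (0 : ℝ) ≤ ∏ i, dQ Q ((P i).eval (n : ℤ) + h i) := Finset.prod_nonneg fun i _ => Nat.cast_nonneg _
    refine le_trans ?_ hδ2
    calc |w n| * ‖((∏ i, Lk Q (Ysc (M i) / Q ^ 2) ((P i).eval (n : ℤ) + h i) : ℝ) : ℂ) -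
          ∏ i, SG Q (C' i ((P i).eval ((bs (X1 / Q ^ 8) n : ℕ) : ℤ) + (h0 i : ℤ))) ((P i).eval (n : ℤ) + h i)‖
        ≤ (Real.log X) ^ 2 * (k * (6 / (Q : ℝ) ^ 3) * (300 * (1 + Real.log Q) ^ 3) ^ k *
          ∏ i, dQ Q ((P i).eval (n : ℤ) + h i)) := mul_le_mul (hw n hn) h1 (norm_nonneg _) (by positivity)
      _ = (6 * k * (Real.log X) ^ 2) * ((300 * (1 + Real.log Q) ^ 3) ^ k *
          ∏ i, dQ Q ((P i).eval (n : ℤ) + h i)) / (Q : ℝ) ^ 3 := by ring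
      _ ≤ (Q : ℝ) ^ (1 / 4 : ℝ) * ((Q : ℝ) ^ (1 / 4 : ℝ) * (Q : ℝ) ^ (1 / 2 : ℝ)) / (Q : ℝ) ^ 3 := by
          apply div_le_div_of_nonneg_right _ (by positivity)
          apply mul_le_mul k4 _ (by positivity) (by positivity)
          exact mul_le_mul k3 h2 h4 (by positivity)
  have e : ((Rw Q X1 P M w h : ℝ) : ℂ) - Rzb Q X1 P C' (fun n => ((w n : ℝ) : ℂ)) h0 h =
      ∑ n ∈ Ico X1 (2 * X1), ((w n : ℝ) : ℂ) *
        (((∏ i, Lk Q (Ysc (M i) / Q ^ 2) ((P i).eval (n : ℤ) + h i) : ℝ) : ℂ) -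
          ∏ i, SG Q (C' i ((P i).eval ((bs (X1 / Q ^ 8) n : ℕ) : ℤ) + (h0 i : ℤ))) ((P i).eval (n : ℤ) + h i)) := by
    unfold Rw Rzb
    rw [Complex.ofReal_sum, ← Finset.sum_sub_distrib]
    refine Finset.sum_congr rfl fun n _ => ?_
    rw [Complex.ofReal_mul, mul_sub]
  rw [e]
  calc ‖∑ n ∈ Ico X1 (2 * X1), ((w n : ℝ) : ℂ) *
        (((∏ i, Lk Q (Ysc (M i) / Q ^ 2) ((P i).eval (n : ℤ) + h i) : ℝ) : ℂ) -
          ∏ i, SG Q (C' i ((P i).eval ((bs (X1 / Q ^ 8) n : ℕ) : ℤ) + (h0 i : ℤ))) ((P i).eval (n : ℤ) + h i))‖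
      ≤ ∑ n ∈ Ico X1 (2 * X1), δ := (norm_sum_le _ _).trans (Finset.sum_le_sum hterm)
    _ = X1 * (Q : ℝ) ^ (-(1) : ℝ) := by
        rw [Finset.sum_const, Nat.card_Ico, nsmul_eq_mul, hδ]
        have : 2 * X1 - X1 = X1 := by omega
        rw [this]

end Pool.Agent.H9P
end

-- from Lib.H9P.U5
section

/-!
# ASYP, chunk U5 (S): `R14_main` with the geometry `GeoV`, uniformly in the polynomials
-/

open Finset Polynomial

namespace Pool.Agent.H9P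

open Pool.Agent.Lib.H68T Pool.Agent.Lib.H18Q Pool.Agent.Lib.H59P Pool.Agent.Lib.H24P
open Pool.Agent.HUP

/-- **U5.** Copy of `R14_main` (`HUP/R14.lean`) with `U4_small` instead of `R13_small`. -/
theorem U5_main (k A : ℕ) (C : ℝ) : ∃ Q0 : ℕ, ∀ P : Fin k → ℤ[X], Pol A P →
    ∀ (Q X X1 Y : ℕ) (M : Fin k → ℕ) (B : ℤ[X]) (C0 : ℤ → Ch → ℂ) (mb : Ch → ℝ),
    Q0 ≤ Q → Rg 2 C Q X → GeoV Q X X1 P M → GeoB A X X1 Y B → Cf (Q ^ 100) Y C0 mb →
    ∀ (C' : Fin k → ℤ → Ch → ℂ) (mc : Fin k → Ch → ℝ), (∀ i, Cf Q (Ysc (M i)) (C' i) (mc i)) →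
    ∀ h0 ∈ cub M M, ∀ h ∈ cub M M,
    ‖Rzb Q X1 P C' (fun n => ((Lk (Q ^ 100) (Y / (Q ^ 100) ^ 2) (B.eval (n : ℤ)) : ℝ) : ℂ)) h0 h -
      Rzb Q X1 P C' (gB Q X1 B C0) h0 h‖ ≤ X1 * (Q : ℝ) ^ (-(1) : ℝ) := by
  obtain ⟨Q1, h1⟩ := U4_small k A C
  obtain ⟨Q2, h2⟩ := V2_pt A
  refine ⟨max (max Q1 Q2) 1, ?_⟩
  intro P hP Q X X1 Y M B C0 mb hQ hRg hG hGB hC C' mc hCc h0 hh0 h hh
  have hQ1 : Q1 ≤ Q := (le_max_left _ _).trans ((le_max_left _ _).trans hQ)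
  have hQ2 : Q2 ≤ Q := (le_max_right _ _).trans ((le_max_left _ _).trans hQ)
  have hQ3 : 1 ≤ Q := (le_max_right _ _).trans hQ
  have h3 := h1 P hP Q X X1 M hQ1 hRg hG C' mc hCc
    (fun n => ((Lk (Q ^ 100) (Y / (Q ^ 100) ^ 2) (B.eval (n : ℤ)) : ℝ) : ℂ) - gB Q X1 B C0 n)
    ((Q : ℝ) ^ (-(10) : ℝ)) (fun n hn => h2 Q X X1 Y B C0 mb hQ2 hG.dvd hGB hC n hn) h0 hh0 h hh
  have h4 : Rzb Q X1 P C'
        (fun n => ((Lk (Q ^ 100) (Y / (Q ^ 100) ^ 2) (B.eval (n : ℤ)) : ℝ) : ℂ)) h0 h -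
      Rzb Q X1 P C' (gB Q X1 B C0) h0 h = Rzb Q X1 P C'
        (fun n => ((Lk (Q ^ 100) (Y / (Q ^ 100) ^ 2) (B.eval (n : ℤ)) : ℝ) : ℂ) - gB Q X1 B C0 n) h0 h := by
    unfold Rzb
    rw [← sum_sub_distrib]
    refine sum_congr rfl fun n _ => ?_
    ring
  rw [h4]
  refine h3.trans ?_
  have hQr : (1 : ℝ) ≤ Q := by exact_mod_cast hQ3
  have hQp : (0 : ℝ) < Q := by linarith
  have h5 : (Q : ℝ) ^ (-(10) : ℝ) * Q ≤ (Q : ℝ) ^ (-(1) : ℝ) := by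
    have e2 : (Q : ℝ) ^ (-(10) : ℝ) * Q = (Q : ℝ) ^ (-(9) : ℝ) := by
      have := Real.rpow_add hQp (-(10)) 1
      rw [Real.rpow_one] at this
      rw [← this]
      norm_num
    rw [e2]
    exact Real.rpow_le_rpow_of_exponent_le hQr (by norm_num)
  calc (Q : ℝ) ^ (-(10) : ℝ) * X1 * Q = X1 * ((Q : ℝ) ^ (-(10) : ℝ) * Q) := by ring
    _ ≤ X1 * (Q : ℝ) ^ (-(1) : ℝ) := mul_le_mul_of_nonneg_left h5 (by positivity)

end Pool.Agent.H9P
end

-- from Lib.HUP.R3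
section

/-!
# Project HUP, module R (the modules of H24P for an abstract family), R3: tuples of characters with small modulus
-/

open Finset Polynomial

namespace Pool.Agent.HUP

open Pool.Agent.Lib.H68T Pool.Agent.Lib.H18Q Pool.Agent.Lib.H59P Pool.Agent.Lib.H24P

/-- **R3** (port of `Z1_small`, H24P/Z1S.lean). Proof. As there, `Z1S_main` (unchanged) for the `κ` with `lcm(R, κ) ≤ D`,
`FGood` for the others. -/
theorem R3_small (k A E : ℕ) (Cc cc : ℝ) (hC : FPar Cc cc) : ∃ c : ℝ, 0 < c ∧ ∃ Q0 : ℕ, ∀ Q : ℕ, Q0 ≤ Q →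
    ∀ B : ℤ[X], Lin A B → ∀ P : Fin k → ℤ[X], Pol A P → ∀ m0 : ℕ, 1 ≤ m0 →
    B.leadingCoeff.natAbs ∣ m0 → ∀ p ∈ TSf (k + 1) Q (fl Q (1 / 16)) m0,
    ∀ (ι : Type) (S : Finset ι) (g : ι → Fin k → ℕ), FGood E Cc cc (Q ^ 2) P S g →
    ∀ a H : ℕ, Q ^ 600 ≤ H → Q ^ E ≤ H →
    ∑ x ∈ S, ‖∑ n ∈ Ico a (a + H), Fc (Q ^ 100) (p 0) (B.eval (n : ℤ)) *
        ∏ i : Fin k, Fc Q (p i.succ) ((P i).eval (n : ℤ) + g x i) -
      H * (MRf p (Rf m0 p) (sys B P (g x)) *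
        ((∑ d ∈ SF (fl Q (1 / 2) / Rf m0 p) (Rf m0 p), tdf d (sys B P (g x)) : ℝ) : ℂ))‖ ^ 2 ≤
      S.card * H ^ 2 * (Q : ℝ) ^ (-c) := by
  classical
  have hCc := hC.one
  have hcc0 := hC.pos
  have hcc1 := hC.le
  obtain ⟨Q1, hmain⟩ := Z1S_main k A
  obtain ⟨Q2, hQ21, hsize⟩ := G1_size A
  obtain ⟨Q3, hQ31, hlog⟩ := G1_rlog (4 * (Cc * 20000 * 100 ^ 9)) (Cc + 9) (cc / 8) (by positivity)
  refine ⟨cc / 8, by positivity, max 2 (max Q1 (max Q2 Q3)), ?_⟩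
  intro Q hQ B hB P hP m0 hm0 ham0 p hp ι S g hF a H hH hHE
  have hA : 1 ≤ A := by
    have h1 := b4_lc B hB.deg
    have h2 := hB.lc
    omega
  have hQ2 : 2 ≤ Q := (le_max_left _ _).trans hQ
  have hQ1' : Q1 ≤ Q := ((le_max_left _ _).trans (le_max_right _ _)).trans hQ
  have hQ2' : Q2 ≤ Q :=
    ((le_max_left _ _).trans ((le_max_right _ _).trans (le_max_right _ _))).trans hQ
  have hQ3' : Q3 ≤ Q :=
    ((le_max_right _ _).trans ((le_max_right _ _).trans (le_max_right _ _))).trans hQ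
  have hQr : (2 : ℝ) ≤ Q := by exact_mod_cast hQ2
  have hQ0 : (0 : ℝ) < Q := by linarith
  have hQr1 : (1 : ℝ) ≤ Q := by linarith
  have hlQ : 0 ≤ Real.log Q := Real.log_nonneg hQr1
  have hp' : (∀ i, p i ∈ PC Q) ∧ Rf m0 p ≤ fl Q (1 / 16) := by
    unfold TSf at hp
    rw [mem_filter, Fintype.mem_piFinset] at hp
    exact hp
  obtain ⟨hpPC, hRle⟩ := hp'
  obtain ⟨R, hRdef⟩ : ∃ R, R = Rf m0 p := ⟨_, rfl⟩
  rw [← hRdef] at hRle ⊢
  have hm0R : m0 ∣ R := by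
    rw [hRdef]
    exact Nat.dvd_lcm_left _ _
  have hpR : ∀ i, (p i).1 ∣ R := by
    intro i
    rw [hRdef]
    exact (Finset.dvd_lcm (f := fun i => (p i).1) (mem_univ i)).trans (Nat.dvd_lcm_right _ _)
  have hR1 : 1 ≤ R := by
    rw [hRdef]
    refine Nat.pos_of_ne_zero (Nat.lcm_ne_zero (by omega) ?_)
    rw [Finset.lcm_ne_zero_iff]
    intro i _
    have := (mem_PC.1 (hpPC i)).1
    omega
  obtain ⟨-, -, -, hDD, hDR⟩ := hsize Q hQ2' 1 1 (le_refl _) hA (by rw [one_pow]; omega)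
  have hDR' := hDR R hR1 hRle
  obtain ⟨D, hD⟩ : ∃ D, D = fl Q (1 / 2) := ⟨_, rfl⟩
  rw [← hD] at hDD hDR' ⊢
  -- splitting of the tuples `κ`
  set K : Finset (Fin k → ℕ) := Fintype.piFinset fun i : Fin k => KS Q (p i.succ).1 with hK
  set T : Finset (Fin k → ℕ) := K.filter (fun κ => ¬ R.lcm (univ.lcm κ) ≤ D) with hT
  set w : ℕ → ℂ := fun n => Fc (Q ^ 100) (p 0) (B.eval (n : ℤ)) with hw
  have hprod : ∀ (h : Fin k → ℕ) (n : ℕ), ∏ i : Fin k, Fc Q (p i.succ) ((P i).eval (n : ℤ) + h i) =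
      ∑ κ ∈ K.filter (fun κ => R.lcm (univ.lcm κ) ≤ D),
        ∏ i, gk (p i.succ) (κ i) ((P i).eval (n : ℤ) + h i) +
      ∑ κ ∈ T, ∏ i, gk (p i.succ) (κ i) ((P i).eval (n : ℤ) + h i) := by
    intro h n
    rw [hT, Finset.sum_filter_add_sum_filter_not]
    unfold Fc
    rw [Finset.prod_univ_sum]
  have hF' := hF Q (by omega) (Nat.le_self_pow (by norm_num) Q) (fun i => p i.succ) (fun i => hpPC i.succ) T
    (Finset.filter_subset _ _) (D / R) (by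
      have h1 : (0 : ℝ) < (Q : ℝ) ^ (1 / 4 : ℝ) := Real.rpow_pos_of_pos hQ0 _
      have h2 : (0 : ℝ) < ((D / R : ℕ) : ℝ) := lt_of_lt_of_le h1 hDR'
      exact_mod_cast h2) (by
      intro κ hκ
      rw [hT, mem_filter] at hκ
      have hκK := Fintype.mem_piFinset.1 (by rw [hK] at hκ; exact hκ.1)
      have h1 : D < R.lcm (univ.lcm κ) := not_le.1 hκ.2
      have h2 : univ.lcm κ ∣ univ.lcm (fun i => (p i.succ).1 * κ i) :=
        Finset.lcm_dvd fun i _ => (dvd_mul_left (κ i) _).trans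
          (Finset.dvd_lcm (f := fun i => (p i.succ).1 * κ i) (mem_univ i))
      have h3 : 0 < univ.lcm (fun i => (p i.succ).1 * κ i) := by
        refine Nat.pos_of_ne_zero ?_
        rw [Finset.lcm_ne_zero_iff]
        intro i _
        have e1 := (mem_PC.1 (hpPC i.succ)).1
        have e2 := (CA_mem_KS.1 (hκK i)).1.1
        have := Nat.mul_pos e1 e2
        omega
      have h4 := Nat.le_of_dvd h3 h2
      have h5 : R.lcm (univ.lcm κ) ≤ R * univ.lcm κ :=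
        Nat.le_of_dvd (Nat.mul_pos (by omega) (Nat.pos_of_dvd_of_pos h2 h3)) (Nat.lcm_dvd_mul _ _)
      refine lt_of_lt_of_le ?_ h4
      rw [Nat.div_lt_iff_lt_mul (by omega), mul_comm]
      omega) a H hHE w
  have hB5 := B5_sq (Q ^ 100) A (Nat.one_le_pow _ _ (by omega)) (p 0) (z1s_PC (by omega) (hpPC 0)) B hB a H
    (by
      rw [← pow_mul]
      exact (Nat.pow_le_pow_right (by omega) (by norm_num)).trans hH)
  have hv : (0 : ℝ) ≤ S.card := Nat.cast_nonneg _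
  have hH1 : (1 : ℝ) ≤ H := by
    have : 1 ≤ H := (Nat.one_le_pow 600 Q (by omega)).trans hH
    exact_mod_cast this
  have hlog100 : (1 + Real.log ((Q ^ 100 : ℕ) : ℝ)) ^ 9 ≤ 100 ^ 9 * (1 + Real.log Q) ^ 9 := by
    rw [← mul_pow]
    apply pow_le_pow_left₀
    · have : 0 ≤ Real.log ((Q ^ 100 : ℕ) : ℝ) := Real.log_natCast_nonneg _
      linarith
    · push_cast
      rw [Real.log_pow]
      push_cast
      linarith
  have hw2 : ∑ n ∈ Ico a (a + H), ‖w n‖ ^ 2 ≤ 20000 * (100 ^ 9 * (1 + Real.log Q) ^ 9) * H := by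
    refine hB5.trans ?_
    apply mul_le_mul_of_nonneg_right _ (by linarith)
    exact mul_le_mul_of_nonneg_left hlog100 (by norm_num)
  have hDneg : ((D / R : ℕ) : ℝ) ^ (-cc) ≤ (Q : ℝ) ^ (-(cc / 4)) := by
    calc ((D / R : ℕ) : ℝ) ^ (-cc) ≤ ((Q : ℝ) ^ (1 / 4 : ℝ)) ^ (-cc) :=
          Real.rpow_le_rpow_of_nonpos (Real.rpow_pos_of_pos hQ0 _) hDR' (by linarith)
      _ = (Q : ℝ) ^ (-(cc / 4)) := by
          rw [← Real.rpow_mul hQ0.le]
          congr 1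
          ring
  have hlogv := hlog Q hQ3'
  have hL0 : 0 < 1 + Real.log Q := by linarith
  have hlarge : ∑ x ∈ S, ‖∑ n ∈ Ico a (a + H), w n *
        ∑ κ ∈ T, ∏ i, gk (p i.succ) (κ i) ((P i).eval (n : ℤ) + g x i)‖ ^ 2 ≤
      1 / 4 * ((S.card : ℝ) * H ^ 2 * (Q : ℝ) ^ (-(cc / 8))) := by
    refine hF'.trans ?_
    have hCcp : 0 ≤ Cc * (1 + Real.log Q) ^ Cc * (S.card : ℝ) := by positivity
    calc Cc * (1 + Real.log Q) ^ Cc * (S.card : ℝ) * (H * ∑ n ∈ Ico a (a + H), ‖w n‖ ^ 2) *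
          ((D / R : ℕ) : ℝ) ^ (-cc)
        ≤ Cc * (1 + Real.log Q) ^ Cc * (S.card : ℝ) *
          (H * (20000 * (100 ^ 9 * (1 + Real.log Q) ^ 9) * H)) * (Q : ℝ) ^ (-(cc / 4)) := by
          apply mul_le_mul _ hDneg (by positivity) (by positivity)
          apply mul_le_mul_of_nonneg_left _ hCcp
          exact mul_le_mul_of_nonneg_left hw2 (by linarith)
      _ = 1 / 4 * ((S.card : ℝ) * H ^ 2 * ((4 * (Cc * 20000 * 100 ^ 9) * (1 + Real.log Q) ^ (Cc + 9)) *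
          (Q : ℝ) ^ (-(cc / 4)))) := by
          rw [Real.rpow_add hL0]
          have : (1 + Real.log Q) ^ (9 : ℝ) = (1 + Real.log Q) ^ 9 := by
            exact_mod_cast Real.rpow_natCast (1 + Real.log Q) 9
          rw [this]
          ring
      _ ≤ 1 / 4 * ((S.card : ℝ) * H ^ 2 * ((Q : ℝ) ^ (cc / 8) * (Q : ℝ) ^ (-(cc / 4)))) := by
          gcongr
      _ = 1 / 4 * ((S.card : ℝ) * H ^ 2 * (Q : ℝ) ^ (-(cc / 8))) := by
          rw [← Real.rpow_add hQ0]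
          congr 3
          ring
  -- the main part
  have hsmall : ∀ h : Fin k → ℕ, ‖∑ n ∈ Ico a (a + H), w n *
        ∑ κ ∈ K.filter (fun κ => R.lcm (univ.lcm κ) ≤ D),
          ∏ i, gk (p i.succ) (κ i) ((P i).eval (n : ℤ) + h i) -
      H * (MRf p R (sys B P h) * ((∑ d ∈ SF (D / R) R, tdf d (sys B P h) : ℝ) : ℂ))‖ ^ 2 ≤
      1 / 4 * (H ^ 2 * (Q : ℝ) ^ (-(cc / 8))) := by
    intro h
    have h1 := hmain Q hQ1' B hB P R D hR1 (ham0.trans hm0R) hDD p hpPC hpR a H h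
    refine (pow_le_pow_left₀ (norm_nonneg _) h1 2).trans ?_
    have h2 : (Q : ℝ) ^ (-(1 : ℝ)) ≤ (Q : ℝ) ^ (-(cc / 8)) :=
      Real.rpow_le_rpow_of_exponent_le hQr1 (by linarith)
    have h3 : (Q : ℝ) ^ (-(1 : ℝ)) = (Q : ℝ)⁻¹ := Real.rpow_neg_one _
    have hHr : (Q : ℝ) ^ 600 ≤ H := by exact_mod_cast hH
    calc ((Q : ℝ) ^ 410) ^ 2 = 1 / 4 * (4 * (Q : ℝ) ^ 820) := by ring
      _ ≤ 1 / 4 * ((Q : ℝ) ^ 2 * (Q : ℝ) ^ 820) := by
          have : (4 : ℝ) ≤ Q ^ 2 := by nlinarith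
          gcongr
      _ ≤ 1 / 4 * (((Q : ℝ) ^ 600) ^ 2 * (Q : ℝ)⁻¹) := by
          rw [← pow_mul, ← pow_add]
          have : (Q : ℝ) ^ (600 * 2) * (Q : ℝ)⁻¹ = (Q : ℝ) ^ 1199 := by
            field_simp
          rw [this]
          have : (Q : ℝ) ^ (2 + 820) ≤ (Q : ℝ) ^ 1199 := pow_le_pow_right₀ hQr1 (by norm_num)
          exact mul_le_mul_of_nonneg_left this (by norm_num)
      _ ≤ 1 / 4 * (H ^ 2 * (Q : ℝ) ^ (-(cc / 8))) := by
          rw [← h3]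
          have h5 : 0 ≤ (Q : ℝ) ^ (-(1 : ℝ)) := Real.rpow_nonneg hQ0.le _
          have h4 : ((Q : ℝ) ^ 600) ^ 2 ≤ (H : ℝ) ^ 2 := pow_le_pow_left₀ (by positivity) hHr 2
          have := mul_le_mul h4 h2 h5 (by positivity)
          linarith
  have hsplit : ∀ h : Fin k → ℕ, ‖∑ n ∈ Ico a (a + H), Fc (Q ^ 100) (p 0) (B.eval (n : ℤ)) *
        ∏ i : Fin k, Fc Q (p i.succ) ((P i).eval (n : ℤ) + h i) -
      H * (MRf p R (sys B P h) * ((∑ d ∈ SF (D / R) R, tdf d (sys B P h) : ℝ) : ℂ))‖ ^ 2 ≤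
      2 * (1 / 4 * (H ^ 2 * (Q : ℝ) ^ (-(cc / 8)))) + 2 * ‖∑ n ∈ Ico a (a + H), w n *
        ∑ κ ∈ T, ∏ i, gk (p i.succ) (κ i) ((P i).eval (n : ℤ) + h i)‖ ^ 2 := by
    intro h
    have e1 : ∑ n ∈ Ico a (a + H), Fc (Q ^ 100) (p 0) (B.eval (n : ℤ)) *
        ∏ i : Fin k, Fc Q (p i.succ) ((P i).eval (n : ℤ) + h i) -
      H * (MRf p R (sys B P h) * ((∑ d ∈ SF (D / R) R, tdf d (sys B P h) : ℝ) : ℂ)) =
      (∑ n ∈ Ico a (a + H), w n *
        ∑ κ ∈ K.filter (fun κ => R.lcm (univ.lcm κ) ≤ D),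
          ∏ i, gk (p i.succ) (κ i) ((P i).eval (n : ℤ) + h i) -
      H * (MRf p R (sys B P h) * ((∑ d ∈ SF (D / R) R, tdf d (sys B P h) : ℝ) : ℂ))) +
      ∑ n ∈ Ico a (a + H), w n *
        ∑ κ ∈ T, ∏ i, gk (p i.succ) (κ i) ((P i).eval (n : ℤ) + h i) := by
      have e2 : ∑ n ∈ Ico a (a + H), Fc (Q ^ 100) (p 0) (B.eval (n : ℤ)) *
          ∏ i : Fin k, Fc Q (p i.succ) ((P i).eval (n : ℤ) + h i) =
          ∑ n ∈ Ico a (a + H), w n *
            ∑ κ ∈ K.filter (fun κ => R.lcm (univ.lcm κ) ≤ D),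
              ∏ i, gk (p i.succ) (κ i) ((P i).eval (n : ℤ) + h i) +
          ∑ n ∈ Ico a (a + H), w n *
            ∑ κ ∈ T, ∏ i, gk (p i.succ) (κ i) ((P i).eval (n : ℤ) + h i) := by
        rw [← Finset.sum_add_distrib]
        refine Finset.sum_congr rfl fun n _ => ?_
        rw [hprod h n, mul_add]
      rw [e2]
      ring
    rw [e1]
    refine (z1s_sq _ _).trans ?_
    have := hsmall h
    linarith
  refine (Finset.sum_le_sum fun x _ => hsplit (g x)).trans ?_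
  rw [Finset.sum_add_distrib, Finset.sum_const, nsmul_eq_mul, ← Finset.mul_sum]
  have e3 : (S.card : ℝ) * (2 * (1 / 4 * ((H : ℝ) ^ 2 * (Q : ℝ) ^ (-(cc / 8))))) =
      1 / 2 * ((S.card : ℝ) * H ^ 2 * (Q : ℝ) ^ (-(cc / 8))) := by ring
  rw [e3]
  linarith

end Pool.Agent.HUP
end

-- from Lib.HUP.R4
section

/-!
# Project HUP, module R (the modules of H24P for an abstract family), R4: tuples of characters with large modulus
-/

open Finset Polynomial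

namespace Pool.Agent.HUP

open Pool.Agent.Lib.H68T Pool.Agent.Lib.H18Q Pool.Agent.Lib.H59P Pool.Agent.Lib.H24P

/-- **R4** (port of `Z1_large`, H24P/Z1L.lean). Proof. As there with `FGood` instead of `Fgen`; `z1l_small` unchanged. -/
theorem R4_large (k A E : ℕ) (hA : 1 ≤ A) (Cc cc : ℝ) (hC : FPar Cc cc) : ∃ c : ℝ, 0 < c ∧ ∃ Q0 : ℕ, ∀ Q : ℕ, Q0 ≤ Q →
    ∀ B : ℤ[X], Lin A B → ∀ P : Fin k → ℤ[X], Pol A P → ∀ r : ℕ, 1 ≤ r → r ^ 100 ≤ Q →
    ∀ p : Fin (k + 1) → Ch, p 0 ∈ PC (Q ^ 100) → (∀ i : Fin k, p i.succ ∈ PC Q) →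
    p ∉ TSf (k + 1) Q (fl Q (1 / 16)) (B.leadingCoeff.natAbs * r) →
    ∀ (ι : Type) (S : Finset ι) (g : ι → Fin k → ℕ), FGood E Cc cc (Q ^ 2) P S g →
    ∀ a H : ℕ, Q ^ 600 ≤ H → Q ^ E ≤ H →
    ∑ x ∈ S, ‖∑ n ∈ Ico a (a + H), Fc (Q ^ 100) (p 0) (B.eval (n : ℤ)) *
        ∏ i : Fin k, Fc Q (p i.succ) ((P i).eval (n : ℤ) + g x i)‖ ^ 2 ≤
      S.card * H ^ 2 * (Q : ℝ) ^ (-c) := by
  classical
  have hCc := hC.one
  have hcc0 := hC.pos
  have hcc1 := hC.le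
  obtain ⟨Q2, hQ21, hsize⟩ := G1_size A
  set x7 : ℝ := 1 / (256 * ((k : ℝ) + 1)) with hx7
  have hk0 : (0 : ℝ) ≤ k := Nat.cast_nonneg k
  have hx70 : 0 < x7 := by positivity
  have hx71 : x7 ≤ 1 / 256 := by
    rw [hx7]
    apply one_div_le_one_div_of_le (by norm_num)
    linarith
  set δ : ℝ := cc * x7 with hδ
  have hδ0 : 0 < δ := by positivity
  have hδ1 : δ ≤ 1 / 256 := by
    calc δ ≤ 1 * x7 := mul_le_mul_of_nonneg_right hcc1 hx70.le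
      _ ≤ 1 / 256 := by rw [one_mul]; exact hx71
  obtain ⟨Q3, hQ31, hlog⟩ := G1_rlog (8 * (Cc * 20000 * 100 ^ 9)) (Cc + 9) (δ / 2) (by positivity)
  refine ⟨δ / 2, by positivity, max 2 (max Q2 Q3), ?_⟩
  intro Q hQ B hB P hP r hr hrQ p hp0 hp hpT ι S g hF a H hH hHE
  have hQ2 : 2 ≤ Q := (le_max_left _ _).trans hQ
  have hQ2' : Q2 ≤ Q := ((le_max_left _ _).trans (le_max_right _ _)).trans hQ
  have hQ3' : Q3 ≤ Q := ((le_max_right _ _).trans (le_max_right _ _)).trans hQ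
  have hQr : (2 : ℝ) ≤ Q := by exact_mod_cast hQ2
  have hQ0 : (0 : ℝ) < Q := by linarith
  have hQr1 : (1 : ℝ) ≤ Q := by linarith
  have hlQ : 0 ≤ Real.log Q := Real.log_nonneg hQr1
  have hv : (0 : ℝ) ≤ S.card := Nat.cast_nonneg _
  have hQH : Q ≤ H := (Nat.le_self_pow (by norm_num) Q).trans hH
  have hH1 : (1 : ℝ) ≤ H := by
    have : 1 ≤ H := by omega
    exact_mod_cast this
  have ha1 : 1 ≤ B.leadingCoeff.natAbs := b4_lc B hB.deg
  -- the weight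
  set w : ℕ → ℂ := fun n => Fc (Q ^ 100) (p 0) (B.eval (n : ℤ)) with hw
  have hB5 := B5_sq (Q ^ 100) A (Nat.one_le_pow _ _ (by omega)) (p 0) hp0 B hB a H
    (by
      rw [← pow_mul]
      exact (Nat.pow_le_pow_right (by omega) (by norm_num)).trans hH)
  have hlog100 : (1 + Real.log ((Q ^ 100 : ℕ) : ℝ)) ^ 9 ≤ 100 ^ 9 * (1 + Real.log Q) ^ 9 := by
    rw [← mul_pow]
    apply pow_le_pow_left₀
    · have : 0 ≤ Real.log ((Q ^ 100 : ℕ) : ℝ) := Real.log_natCast_nonneg _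
      linarith
    · push_cast
      rw [Real.log_pow]
      push_cast
      linarith
  have hw2 : ∑ n ∈ Ico a (a + H), ‖w n‖ ^ 2 ≤ 20000 * (100 ^ 9 * (1 + Real.log Q) ^ 9) * H := by
    refine hB5.trans ?_
    apply mul_le_mul_of_nonneg_right _ (by linarith)
    exact mul_le_mul_of_nonneg_left hlog100 (by norm_num)
  have hlogv := hlog Q hQ3'
  have hL0 : 0 < 1 + Real.log Q := by linarith
  -- the general bound from `Fgen`
  have hgen : ∀ (T : Finset (Fin k → ℕ)), T ⊆ Fintype.piFinset (fun i : Fin k => KS Q (p i.succ).1) →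
      ∀ D : ℕ, 1 ≤ D → (∀ κ ∈ T, D < univ.lcm (fun i : Fin k => (p i.succ).1 * κ i)) →
      (D : ℝ) ^ (-cc) ≤ 2 * (Q : ℝ) ^ (-δ) →
      ∑ x ∈ S, ‖∑ n ∈ Ico a (a + H), w n *
        ∑ κ ∈ T, ∏ i, gk (p i.succ) (κ i) ((P i).eval (n : ℤ) + g x i)‖ ^ 2 ≤
      1 / 4 * ((S.card : ℝ) * H ^ 2 * (Q : ℝ) ^ (-(δ / 2))) := by
    intro T hT D hD hTD hDn
    refine (hF Q (by omega) (Nat.le_self_pow (by norm_num) Q) (fun i => p i.succ) hp T hT D hD hTD a H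
      hHE w).trans ?_
    have hCcp : 0 ≤ Cc * (1 + Real.log Q) ^ Cc * (S.card : ℝ) := by positivity
    calc Cc * (1 + Real.log Q) ^ Cc * (S.card : ℝ) * (H * ∑ n ∈ Ico a (a + H), ‖w n‖ ^ 2) *
          (D : ℝ) ^ (-cc)
        ≤ Cc * (1 + Real.log Q) ^ Cc * (S.card : ℝ) *
          (H * (20000 * (100 ^ 9 * (1 + Real.log Q) ^ 9) * H)) * (2 * (Q : ℝ) ^ (-δ)) := by
          apply mul_le_mul _ hDn (by positivity) (by positivity)
          apply mul_le_mul_of_nonneg_left _ hCcp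
          exact mul_le_mul_of_nonneg_left hw2 (by linarith)
      _ = 1 / 4 * ((S.card : ℝ) * H ^ 2 * ((8 * (Cc * 20000 * 100 ^ 9) * (1 + Real.log Q) ^ (Cc + 9)) *
          (Q : ℝ) ^ (-δ))) := by
          rw [Real.rpow_add hL0]
          have : (1 + Real.log Q) ^ (9 : ℝ) = (1 + Real.log Q) ^ 9 := by
            exact_mod_cast Real.rpow_natCast (1 + Real.log Q) 9
          rw [this]
          ring
      _ ≤ 1 / 4 * ((S.card : ℝ) * H ^ 2 * ((Q : ℝ) ^ (δ / 2) * (Q : ℝ) ^ (-δ))) := by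
          gcongr
      _ = 1 / 4 * ((S.card : ℝ) * H ^ 2 * (Q : ℝ) ^ (-(δ / 2))) := by
          rw [← Real.rpow_add hQ0]
          congr 3
          ring
  obtain ⟨h51, h52, h53⟩ := G1_one (Q := Q) (x := 1 / 32) (by omega) (by norm_num)
  obtain ⟨h71, h72, h73⟩ := G1_one (Q := Q) (x := x7) (by omega) hx70.le
  have h2cc : (2 : ℝ) ^ cc ≤ 2 := by
    calc (2 : ℝ) ^ cc ≤ 2 ^ (1 : ℝ) := Real.rpow_le_rpow_of_exponent_le (by norm_num) hcc1
      _ = 2 := Real.rpow_one 2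
  have hneg : ∀ x : ℝ, x7 ≤ x → (fl Q x : ℝ) ^ (-cc) ≤ 2 * (Q : ℝ) ^ (-δ) := by
    intro x hx
    refine (G1_neg (by omega) (hx70.le.trans hx) hcc0.le).trans ?_
    apply mul_le_mul h2cc _ (by positivity) (by norm_num)
    apply Real.rpow_le_rpow_of_exponent_le hQr1
    have := mul_le_mul_of_nonneg_left hx hcc0.le
    rw [hδ]
    linarith
  have hprod : ∀ (h : Fin k → ℕ) (n : ℕ), ∏ i : Fin k, Fc Q (p i.succ) ((P i).eval (n : ℤ) + h i) =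
      ∑ κ ∈ Fintype.piFinset (fun i : Fin k => KS Q (p i.succ).1),
        ∏ i, gk (p i.succ) (κ i) ((P i).eval (n : ℤ) + h i) := fun h n =>
    z1l_prod Q P (fun i => p i.succ) h n
  have hfin0 : 0 ≤ (S.card : ℝ) * H ^ 2 * (Q : ℝ) ^ (-(δ / 2)) := by positivity
  by_cases hcase : fl Q (1 / 32) < univ.lcm (fun i : Fin k => (p i.succ).1)
  · -- case (i)
    have h1 := hgen (Fintype.piFinset (fun i : Fin k => KS Q (p i.succ).1)) (Finset.Subset.refl _)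
      (fl Q (1 / 32)) h51 (by
        intro κ hκ
        refine lt_of_lt_of_le hcase ?_
        rw [Fintype.mem_piFinset] at hκ
        refine Nat.le_of_dvd ?_ (Finset.lcm_dvd fun i _ => (dvd_mul_right _ (κ i)).trans
          (Finset.dvd_lcm (f := fun i : Fin k => (p i.succ).1 * κ i) (mem_univ i)))
        refine Nat.pos_of_ne_zero ?_
        rw [Finset.lcm_ne_zero_iff]
        intro i _
        have := Nat.mul_pos (mem_PC.1 (hp i)).1 (CA_mem_KS.1 (hκ i)).1.1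
        omega) (hneg (1 / 32) (by linarith))
    calc ∑ x ∈ S, ‖∑ n ∈ Ico a (a + H), Fc (Q ^ 100) (p 0) (B.eval (n : ℤ)) *
        ∏ i : Fin k, Fc Q (p i.succ) ((P i).eval (n : ℤ) + g x i)‖ ^ 2
        = ∑ x ∈ S, ‖∑ n ∈ Ico a (a + H), w n *
          ∑ κ ∈ Fintype.piFinset (fun i : Fin k => KS Q (p i.succ).1),
            ∏ i, gk (p i.succ) (κ i) ((P i).eval (n : ℤ) + g x i)‖ ^ 2 := by
          refine Finset.sum_congr rfl fun x _ => ?_
          congr 2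
          refine Finset.sum_congr rfl fun n _ => ?_
          rw [hprod (g x) n]
      _ ≤ _ := h1
      _ ≤ _ := by linarith
  · -- case (ii)
    have hcase' : univ.lcm (fun i : Fin k => (p i.succ).1) ≤ fl Q (1 / 32) := not_lt.1 hcase
    obtain ⟨hs1, hs2, hs3, -, -⟩ := hsize Q hQ2' r B.leadingCoeff.natAbs ha1 hB.lc hrQ
    have hfl7 : fl Q x7 ≤ fl Q (1 / 128) := by
      unfold fl
      apply Nat.floor_le_floor
      exact Real.rpow_le_rpow_of_exponent_le hQr1 (by linarith)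
    have hfl1Q : fl Q (1 / 16) ≤ Q := G1_le (by omega) (by norm_num) (by norm_num)
    have hpos : 0 < B.leadingCoeff.natAbs * r * fl Q (1 / 32) :=
      Nat.mul_pos (Nat.mul_pos ha1 hr) h51
    have hp0large : B.leadingCoeff.natAbs * fl Q x7 < (p 0).1 := by
      refine lt_of_le_of_lt (Nat.mul_le_mul_left _ hfl7) ?_
      by_cases hp0Q : p 0 ∈ PC Q
      · have hpall : ∀ i, p i ∈ PC Q := fun i => Fin.cases hp0Q hp i
        have hnot : ¬ (B.leadingCoeff.natAbs * r).lcm (univ.lcm fun i => (p i).1) ≤ fl Q (1 / 16) := by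
          intro hle
          apply hpT
          unfold TSf
          rw [mem_filter, Fintype.mem_piFinset]
          exact ⟨hpall, hle⟩
        rw [not_le] at hnot
        have hdv : univ.lcm (fun i : Fin (k + 1) => (p i).1) ∣
            (p 0).1 * univ.lcm (fun i : Fin k => (p i.succ).1) := by
          refine Finset.lcm_dvd fun i _ => ?_
          refine Fin.cases (dvd_mul_right _ _) (fun j => ?_) i
          exact (Finset.dvd_lcm (f := fun i : Fin k => (p i.succ).1) (mem_univ j)).trans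
            (dvd_mul_left _ _)
        have hl1 : 0 < univ.lcm (fun i : Fin k => (p i.succ).1) := by
          refine Nat.pos_of_ne_zero ?_
          rw [Finset.lcm_ne_zero_iff]
          intro i _
          have := (mem_PC.1 (hp i)).1
          omega
        have hp01 : 0 < (p 0).1 := (mem_PC.1 hp0).1
        have hle : (B.leadingCoeff.natAbs * r).lcm (univ.lcm fun i => (p i).1) ≤
            B.leadingCoeff.natAbs * r * ((p 0).1 * fl Q (1 / 32)) := by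
          calc (B.leadingCoeff.natAbs * r).lcm (univ.lcm fun i => (p i).1)
              ≤ (B.leadingCoeff.natAbs * r) * ((p 0).1 * univ.lcm (fun i : Fin k => (p i.succ).1)) :=
                Nat.le_of_dvd (Nat.mul_pos (Nat.mul_pos ha1 hr) (Nat.mul_pos hp01 hl1))
                  ((Nat.lcm_dvd_mul _ _).trans (Nat.mul_dvd_mul_left _ hdv))
            _ ≤ _ := Nat.mul_le_mul_left _ (Nat.mul_le_mul_left _ hcase')
        have h1 : B.leadingCoeff.natAbs * r * fl Q (1 / 32) *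
            (B.leadingCoeff.natAbs * fl Q (1 / 128)) <
            B.leadingCoeff.natAbs * r * fl Q (1 / 32) * (p 0).1 := by
          calc _ < fl Q (1 / 16) := hs3
            _ < _ := hnot
            _ ≤ _ := hle
            _ = _ := by ring
        exact lt_of_mul_lt_mul_left h1 (Nat.zero_le _)
      · have h1 : Q < (p 0).1 := by
          by_contra hle
          rw [not_lt] at hle
          obtain ⟨g1, -, g3⟩ := mem_PC.1 hp0
          exact hp0Q (mem_PC.2 ⟨g1, hle, g3⟩)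
        have h2 : B.leadingCoeff.natAbs * fl Q (1 / 128) ≤
            B.leadingCoeff.natAbs * r * fl Q (1 / 32) * (B.leadingCoeff.natAbs * fl Q (1 / 128)) :=
          Nat.le_mul_of_pos_left _ hpos
        omega
    set K : Finset (Fin k → ℕ) := Fintype.piFinset (fun i : Fin k => KS Q (p i.succ).1) with hK
    have hT := hgen (K.filter (fun κ => fl Q x7 < univ.lcm (fun i : Fin k => (p i.succ).1 * κ i)))
      (Finset.filter_subset _ _) (fl Q x7) h71 (fun κ hκ => (mem_filter.1 hκ).2) (hneg x7 (le_refl _))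
    have hsm : ∀ h : Fin k → ℕ, ‖∑ n ∈ Ico a (a + H), w n *
        ∑ κ ∈ K.filter (fun κ => ¬ fl Q x7 < univ.lcm (fun i : Fin k => (p i.succ).1 * κ i)),
          ∏ i, gk (p i.succ) (κ i) ((P i).eval (n : ℤ) + h i)‖ ≤ (Q : ℝ) ^ 302 := by
      intro h
      refine (z1l_small Q (fl Q x7) (by omega) P (p 0) hp0 B hB.deg hp0large (fun i => p i.succ) hp
        a H h).trans ?_
      have h1 : ((fl Q x7 : ℕ) : ℝ) ^ (2 * k + 1) ≤ Q := by
        calc ((fl Q x7 : ℕ) : ℝ) ^ (2 * k + 1) ≤ ((Q : ℝ) ^ x7) ^ (2 * k + 1) :=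
              pow_le_pow_left₀ (Nat.cast_nonneg _) h72 _
          _ = (Q : ℝ) ^ (x7 * ((2 * k + 1 : ℕ) : ℝ)) := by
              rw [Real.rpow_mul hQ0.le, Real.rpow_natCast]
          _ ≤ (Q : ℝ) ^ (1 : ℝ) := by
              apply Real.rpow_le_rpow_of_exponent_le hQr1
              rw [hx7]
              push_cast
              rw [one_div_mul_eq_div, div_le_one (by positivity)]
              linarith
          _ = Q := Real.rpow_one _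
      calc 2 * (Q : ℝ) ^ 300 * ((fl Q x7 : ℕ) : ℝ) ^ (2 * k + 1) ≤ Q * (Q : ℝ) ^ 300 * Q := by gcongr
        _ = (Q : ℝ) ^ 302 := by ring
    have hsm2 : ∀ h : Fin k → ℕ, ‖∑ n ∈ Ico a (a + H), w n *
        ∑ κ ∈ K.filter (fun κ => ¬ fl Q x7 < univ.lcm (fun i : Fin k => (p i.succ).1 * κ i)),
          ∏ i, gk (p i.succ) (κ i) ((P i).eval (n : ℤ) + h i)‖ ^ 2 ≤
        1 / 4 * (H ^ 2 * (Q : ℝ) ^ (-(δ / 2))) := by
      intro h
      refine (pow_le_pow_left₀ (norm_nonneg _) (hsm h) 2).trans ?_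
      have h2 : (Q : ℝ) ^ (-(1 : ℝ)) ≤ (Q : ℝ) ^ (-(δ / 2)) :=
        Real.rpow_le_rpow_of_exponent_le hQr1 (by linarith)
      have h3 : (Q : ℝ) ^ (-(1 : ℝ)) = (Q : ℝ)⁻¹ := Real.rpow_neg_one _
      have hHr : (Q : ℝ) ^ 600 ≤ H := by exact_mod_cast hH
      calc ((Q : ℝ) ^ 302) ^ 2 = 1 / 4 * (4 * (Q : ℝ) ^ 604) := by ring
        _ ≤ 1 / 4 * ((Q : ℝ) ^ 2 * (Q : ℝ) ^ 604) := by
            have : (4 : ℝ) ≤ Q ^ 2 := by nlinarith
            gcongr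
        _ ≤ 1 / 4 * (((Q : ℝ) ^ 600) ^ 2 * (Q : ℝ)⁻¹) := by
            rw [← pow_mul, ← pow_add]
            have : (Q : ℝ) ^ (600 * 2) * (Q : ℝ)⁻¹ = (Q : ℝ) ^ 1199 := by
              field_simp
            rw [this]
            have : (Q : ℝ) ^ (2 + 604) ≤ (Q : ℝ) ^ 1199 := pow_le_pow_right₀ hQr1 (by norm_num)
            exact mul_le_mul_of_nonneg_left this (by norm_num)
        _ ≤ 1 / 4 * (H ^ 2 * (Q : ℝ) ^ (-(δ / 2))) := by
            rw [← h3]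
            have h5 : 0 ≤ (Q : ℝ) ^ (-(1 : ℝ)) := Real.rpow_nonneg hQ0.le _
            have h4 : ((Q : ℝ) ^ 600) ^ 2 ≤ (H : ℝ) ^ 2 := pow_le_pow_left₀ (by positivity) hHr 2
            have := mul_le_mul h4 h2 h5 (by positivity)
            linarith
    have hsplit : ∀ h : Fin k → ℕ, ‖∑ n ∈ Ico a (a + H), Fc (Q ^ 100) (p 0) (B.eval (n : ℤ)) *
        ∏ i : Fin k, Fc Q (p i.succ) ((P i).eval (n : ℤ) + h i)‖ ^ 2 ≤
      2 * (1 / 4 * (H ^ 2 * (Q : ℝ) ^ (-(δ / 2)))) + 2 * ‖∑ n ∈ Ico a (a + H), w n *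
        ∑ κ ∈ K.filter (fun κ => fl Q x7 < univ.lcm (fun i : Fin k => (p i.succ).1 * κ i)),
          ∏ i, gk (p i.succ) (κ i) ((P i).eval (n : ℤ) + h i)‖ ^ 2 := by
      intro h
      have e1 : ∑ n ∈ Ico a (a + H), Fc (Q ^ 100) (p 0) (B.eval (n : ℤ)) *
          ∏ i : Fin k, Fc Q (p i.succ) ((P i).eval (n : ℤ) + h i) =
          ∑ n ∈ Ico a (a + H), w n *
          ∑ κ ∈ K.filter (fun κ => ¬ fl Q x7 < univ.lcm (fun i : Fin k => (p i.succ).1 * κ i)),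
            ∏ i, gk (p i.succ) (κ i) ((P i).eval (n : ℤ) + h i) +
          ∑ n ∈ Ico a (a + H), w n *
          ∑ κ ∈ K.filter (fun κ => fl Q x7 < univ.lcm (fun i : Fin k => (p i.succ).1 * κ i)),
            ∏ i, gk (p i.succ) (κ i) ((P i).eval (n : ℤ) + h i) := by
        rw [← Finset.sum_add_distrib]
        refine Finset.sum_congr rfl fun n _ => ?_
        rw [hprod h n, ← mul_add]
        congr 1
        exact ((add_comm _ _).trans (Finset.sum_filter_add_sum_filter_not K _ _)).symm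
      rw [e1]
      refine (z1l_sq _ _).trans ?_
      have := hsm2 h
      linarith
    refine (Finset.sum_le_sum fun x _ => hsplit (g x)).trans ?_
    rw [Finset.sum_add_distrib, Finset.sum_const, nsmul_eq_mul, ← Finset.mul_sum]
    have e3 : (S.card : ℝ) * (2 * (1 / 4 * ((H : ℝ) ^ 2 * (Q : ℝ) ^ (-(δ / 2))))) =
        1 / 2 * ((S.card : ℝ) * H ^ 2 * (Q : ℝ) ^ (-(δ / 2))) := by ring
    rw [e3]
    linarith

end Pool.Agent.HUP
end

-- from Lib.HUP.R7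
section

/-!
# Project HUP, module R (the modules of H24P for an abstract family), R7: one cell, main term
-/

open Finset Polynomial

namespace Pool.Agent.HUP

open Pool.Agent.Lib.H68T Pool.Agent.Lib.H18Q Pool.Agent.Lib.H59P Pool.Agent.Lib.H24P

/-- **R7** (port of `Z2A_cell`, H24P/Z2A.lean). Proof. As there with `R3_small`, `R4_large`. -/
theorem R7_cell (k A E : ℕ) (hA : 1 ≤ A) (Cc cc : ℝ) (hC : FPar Cc cc) : ∃ c : ℝ, 0 < c ∧ ∃ Q0 : ℕ, ∀ Q : ℕ, Q0 ≤ Q →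
    ∀ B : ℤ[X], Lin A B → ∀ P : Fin k → ℤ[X], Pol A P → ∀ r : ℕ, 1 ≤ r → r ^ 100 ≤ Q →
    ∀ c0 : Ch → ℂ, ∑ p ∈ PC (Q ^ 100), ‖c0 p‖ ≤ 3 → ∀ c' : Fin k → Ch → ℂ,
    (∀ i, ∑ p ∈ PC Q, ‖c' i p‖ ≤ 3) →
    ∀ (ι : Type) (S : Finset ι) (g : ι → Fin k → ℕ), FGood E Cc cc (Q ^ 2) P S g →
    ∀ a H : ℕ, Q ^ 600 ≤ H → Q ^ E ≤ H →
    ∑ x ∈ S, ‖∑ n ∈ Ico a (a + H), SG (Q ^ 100) c0 (B.eval (n : ℤ)) *
        ∏ i, SG Q (c' i) ((P i).eval (n : ℤ) + g x i) -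
      H * MCf Q (B.leadingCoeff.natAbs * r) (Fin.cons c0 c' : Fin (k + 1) → Ch → ℂ) (sys B P (g x))‖ ^ 2 ≤
      S.card * H ^ 2 * (Q : ℝ) ^ (-c) := by
  classical
  obtain ⟨c1, hc1, Q1, h1⟩ := R3_small k A E Cc cc hC
  obtain ⟨c2, hc2, Q2, h2⟩ := R4_large k A E hA Cc cc hC
  have hcm : 0 < min c1 c2 := lt_min hc1 hc2
  obtain ⟨Q3, hQ31, h3⟩ := G1_rlog (9 ^ (k + 1)) 0 (min c1 c2 / 2) (by linarith)
  refine ⟨min c1 c2 / 2, by linarith, max 1 (max Q1 (max Q2 Q3)), ?_⟩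
  intro Q hQ B hB P hP r hr1 hr c0 hc0 c' hc' ι S g hg a H hH hHE
  have hQ1 : 1 ≤ Q := (le_max_left _ _).trans hQ
  have hQQ1 : Q1 ≤ Q := (le_max_left _ _).trans ((le_max_right _ _).trans hQ)
  have hQQ2 : Q2 ≤ Q := (le_max_left _ _).trans ((le_max_right _ _).trans ((le_max_right _ _).trans hQ))
  have hQQ3 : Q3 ≤ Q := (le_max_right _ _).trans ((le_max_right _ _).trans ((le_max_right _ _).trans hQ))
  have hQ1r : (1 : ℝ) ≤ Q := by exact_mod_cast hQ1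
  have hQ0r : (0 : ℝ) < Q := by linarith
  have hV : 0 ≤ (S.card : ℝ) * (H : ℝ) ^ 2 := mul_nonneg (Nat.cast_nonneg _) (sq_nonneg _)
  have h9 : (9 : ℝ) ^ (k + 1) ≤ (Q : ℝ) ^ (min c1 c2 / 2) := by
    have := h3 Q hQQ3
    rwa [Real.rpow_zero, mul_one] at this
  set m0 : ℕ := B.leadingCoeff.natAbs * r with hm0
  have hlc : 1 ≤ B.leadingCoeff.natAbs := by
    have hB0 : B ≠ 0 := by
      intro h0
      have := hB.deg
      rw [h0, natDegree_zero] at this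
      omega
    have : B.leadingCoeff ≠ 0 := leadingCoeff_ne_zero.2 hB0
    omega
  have hm01 : 1 ≤ m0 := Nat.mul_pos hlc hr1
  have hdvd : B.leadingCoeff.natAbs ∣ m0 := Dvd.intro _ rfl
  set W : ℝ := S.card * (H : ℝ) ^ 2 * (Q : ℝ) ^ (-(min c1 c2)) with hW
  have hW0 : 0 ≤ W := mul_nonneg hV (Real.rpow_nonneg hQ0r.le _)
  have hWle : ∀ c : ℝ, min c1 c2 ≤ c → S.card * (H : ℝ) ^ 2 * (Q : ℝ) ^ (-c) ≤ W := by
    intro c hc
    exact mul_le_mul_of_nonneg_left (Real.rpow_le_rpow_of_exponent_le hQ1r (by linarith)) hV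
  set f : (Fin (k + 1) → Ch) → ι → ℂ := fun p x =>
    if p ∈ TSf (k + 1) Q (fl Q (1 / 16)) m0 then z2a_f Q m0 B P a H p (g x) - z2a_g Q m0 B P H p (g x)
    else z2a_f Q m0 B P a H p (g x) with hfdef
  have hf1 : ∀ p ∈ TSf (k + 1) Q (fl Q (1 / 16)) m0, ∀ x, f p x =
      z2a_f Q m0 B P a H p (g x) - z2a_g Q m0 B P H p (g x) := by
    intro p hp x
    rw [hfdef]
    exact if_pos hp
  have hf2 : ∀ p, p ∉ TSf (k + 1) Q (fl Q (1 / 16)) m0 → ∀ x, f p x = z2a_f Q m0 B P a H p (g x) := by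
    intro p hp x
    rw [hfdef]
    exact if_neg hp
  have hdec : ∀ x ∈ S, ‖∑ n ∈ Ico a (a + H), SG (Q ^ 100) c0 (B.eval (n : ℤ)) *
        ∏ i, SG Q (c' i) ((P i).eval (n : ℤ) + g x i) -
      H * MCf Q m0 (Fin.cons c0 c' : Fin (k + 1) → Ch → ℂ) (sys B P (g x))‖ ^ 2 =
      ‖∑ p ∈ z2a_I k Q, (∏ i, (Fin.cons c0 c' : Fin (k + 1) → Ch → ℂ) i (p i)) * f p x‖ ^ 2 := by
    intro x _
    rw [z2a_dec Q m0 hQ1 B P a H c0 c' (g x) (fun p => f p x) (fun p hp => hf1 p hp x)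
      (fun p hp => hf2 p hp x)]
  rw [Finset.sum_congr rfl hdec]
  have hmain := Z2a S (z2a_I k Q)
    (fun p => ∏ i, (Fin.cons c0 c' : Fin (k + 1) → Ch → ℂ) i (p i)) f (3 ^ (k + 1)) W hW0
    (z2a_gam Q c0 hc0 c' hc') ?_
  · refine hmain.trans ?_
    have e1 : ((3 : ℝ) ^ (k + 1)) ^ 2 = 9 ^ (k + 1) := by
      rw [← pow_mul, mul_comm, pow_mul]
      norm_num
    have e2 : (Q : ℝ) ^ (-(min c1 c2 / 2)) = (Q : ℝ) ^ (min c1 c2 / 2) * (Q : ℝ) ^ (-(min c1 c2)) := by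
      rw [← Real.rpow_add hQ0r]
      congr 1
      ring
    rw [e1, e2]
    have e3 := mul_le_mul_of_nonneg_right h9 hW0
    refine e3.trans (le_of_eq ?_)
    rw [hW]
    ring
  · intro p hp
    obtain ⟨hp0, hps⟩ := z2a_mem.1 hp
    by_cases hpT : p ∈ TSf (k + 1) Q (fl Q (1 / 16)) m0
    · have e1 := h1 Q hQQ1 B hB P hP m0 hm01 hdvd p hpT ι S g hg a H hH hHE
      have e2 : ∑ x ∈ S, ‖f p x‖ ^ 2 = ∑ x ∈ S,
          ‖∑ n ∈ Ico a (a + H), Fc (Q ^ 100) (p 0) (B.eval (n : ℤ)) *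
              ∏ i : Fin k, Fc Q (p i.succ) ((P i).eval (n : ℤ) + g x i) -
            H * (MRf p (Rf m0 p) (sys B P (g x)) *
              ((∑ d ∈ SF (fl Q (1 / 2) / Rf m0 p) (Rf m0 p), tdf d (sys B P (g x)) : ℝ) : ℂ))‖ ^ 2 :=
        Finset.sum_congr rfl fun x _ => by rw [hf1 p hpT x]; rfl
      rw [e2]
      exact e1.trans (hWle c1 (min_le_left _ _))
    · have e1 := h2 Q hQQ2 B hB P hP r hr1 hr p hp0 hps hpT ι S g hg a H hH hHE
      have e2 : ∑ x ∈ S, ‖f p x‖ ^ 2 = ∑ x ∈ S,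
          ‖∑ n ∈ Ico a (a + H), Fc (Q ^ 100) (p 0) (B.eval (n : ℤ)) *
              ∏ i : Fin k, Fc Q (p i.succ) ((P i).eval (n : ℤ) + g x i)‖ ^ 2 :=
        Finset.sum_congr rfl fun x _ => by rw [hf2 p hpT x]; rfl
      rw [e2]
      exact e1.trans (hWle c2 (min_le_right _ _))

end Pool.Agent.HUP
end

-- from Lib.HUP.R9
section

/-!
# Project HUP, module R (the modules of H24P for an abstract family), R9: from the frozen sums to the main term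
-/

open Finset Polynomial

namespace Pool.Agent.HUP

open Pool.Agent.Lib.H68T Pool.Agent.Lib.H18Q Pool.Agent.Lib.H59P Pool.Agent.Lib.H24P

theorem r9_X {K C : ℝ} {E Q X X1 : ℕ} (hK : 1500 + (E : ℝ) ≤ K) (hQ : 1 ≤ Q) (hR : Rg K C Q X) (hX : 0 < X)
    (hX1 : X ≤ X1 * Q) : Q ^ 600 ≤ X1 / Q ^ 800 ∧ Q ^ E ≤ X1 / Q ^ 800 := by
  have hQr : (0 : ℝ) < Q := by exact_mod_cast hQ
  have hXr : (0 : ℝ) < X := by exact_mod_cast hX
  have hlQ : 0 ≤ Real.log Q := Real.log_natCast_nonneg Q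
  have h1 : Real.log ((Q : ℝ) ^ (1500 + E)) ≤ Real.log X := by
    rw [Real.log_pow]
    refine le_trans ?_ hR.1
    push_cast
    exact mul_le_mul_of_nonneg_right hK hlQ
  have h2 : (Q : ℝ) ^ (1500 + E) ≤ X := (Real.log_le_log_iff (by positivity) hXr).1 h1
  have h3 : Q ^ (1500 + E) ≤ X := by exact_mod_cast h2
  have h4 : Q ^ (1499 + E) * Q ≤ X1 * Q := by
    calc Q ^ (1499 + E) * Q = Q ^ (1500 + E) := by ring
      _ ≤ X := h3
      _ ≤ X1 * Q := hX1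
  have h5 : Q ^ (1499 + E) ≤ X1 := Nat.le_of_mul_le_mul_right h4 hQ
  rw [Nat.le_div_iff_mul_le (Nat.pow_pos hQ), Nat.le_div_iff_mul_le (Nat.pow_pos hQ)]
  constructor
  · calc Q ^ 600 * Q ^ 800 = Q ^ 1400 := by ring
      _ ≤ Q ^ (1499 + E) := Nat.pow_le_pow_right hQ (by omega)
      _ ≤ X1 := h5
  · calc Q ^ E * Q ^ 800 = Q ^ (E + 800) := by ring
      _ ≤ Q ^ (1499 + E) := Nat.pow_le_pow_right hQ (by omega)
      _ ≤ X1 := h5

/-- From the short cells to the dyadic interval. -/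
theorem r9_cells {ι : Type} (S : Finset ι) (X1 H N : ℕ) (hX : X1 = H * N) (W : ℝ) (F : ι → ℕ → ℂ)
    (hF : ∀ j < N, ∑ x ∈ S, ‖∑ n ∈ Ico (X1 + j * H) (X1 + j * H + H), F x n‖ ^ 2 ≤ (S.card : ℝ) * H ^ 2 * W) :
    ∑ x ∈ S, ‖∑ n ∈ Ico X1 (2 * X1), F x n‖ ^ 2 ≤ (S.card : ℝ) * X1 ^ 2 * W := by
  have h2 : 2 * X1 = X1 + N * H := by
    have : N * H = X1 := by rw [hX]; ring
    omega
  calc ∑ x ∈ S, ‖∑ n ∈ Ico X1 (2 * X1), F x n‖ ^ 2
      ≤ ∑ x ∈ S, (N : ℝ) * ∑ j ∈ range N, ‖∑ n ∈ Ico (X1 + j * H) (X1 + j * H + H), F x n‖ ^ 2 := by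
        refine Finset.sum_le_sum (fun h _ => ?_)
        rw [h2, z2_cells]
        exact z2_cs _ _
    _ = (N : ℝ) * ∑ j ∈ range N, ∑ x ∈ S, ‖∑ n ∈ Ico (X1 + j * H) (X1 + j * H + H), F x n‖ ^ 2 := by
        rw [← Finset.mul_sum, Finset.sum_comm]
    _ ≤ (N : ℝ) * ∑ j ∈ range N, (S.card : ℝ) * H ^ 2 * W := by
        refine mul_le_mul_of_nonneg_left ?_ (by positivity)
        exact Finset.sum_le_sum (fun j hj => hF j (mem_range.mp hj))
    _ = (N : ℝ) * (N * ((S.card : ℝ) * H ^ 2 * W)) := by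
        rw [Finset.sum_const, card_range, nsmul_eq_mul]
    _ = (S.card : ℝ) * X1 ^ 2 * W := by
        rw [hX]
        push_cast
        ring


end Pool.Agent.HUP
end

-- from Lib.H9P.U3
section

/-!
# ASYP, chunk U3 (M): `R9_main` with the geometry `GeoV`, uniformly in the polynomials
-/

open Finset Polynomial

namespace Pool.Agent.H9P

open Pool.Agent.Lib.H68T Pool.Agent.Lib.H18Q Pool.Agent.Lib.H59P Pool.Agent.Lib.H24P
open Pool.Agent.HUP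

/-- **U3.** Copy of the proof of `R9_main` (`HUP/R9.lean`): `R7_cell`, `R8_main`, `r9_X`, `r9_cells` (unchanged) are uniform in `P`; `G2_P` and `Geo` are
replaced by the fields of `GeoV` (`small`). -/
theorem U3_main (k A E : ℕ) (hA : 1 ≤ A) (Cc cc : ℝ) (hC : FPar Cc cc)
    (hT : TMb k A E Cc cc) : ∃ c K : ℝ, 0 < c ∧ 1 ≤ K ∧ ∀ C : ℝ, ∃ Q0 : ℕ, ∀ P : Fin k → ℤ[X], Pol A P →
    ∀ (Q X X1 Y : ℕ) (M : Fin k → ℕ) (B : ℤ[X]) (C0 : ℤ → Ch → ℂ) (mb : Ch → ℝ), Q0 ≤ Q →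
    Rg K C Q X → GeoV Q X X1 P M → GeoB A X X1 Y B → Cf (Q ^ 100) Y C0 mb →
    ∀ (C' : Fin k → ℤ → Ch → ℂ) (mc : Fin k → Ch → ℝ), (∀ i, Cf Q (Ysc (M i)) (C' i) (mc i)) →
    ∀ r : ℕ, 1 ≤ r → r ^ 100 ≤ Q →
    ∀ (ι : Type) (S : Finset ι) (g : ι → Fin k → ℕ) (h0 : Fin k → ℕ), Cl E Cc cc Q P M S g h0 →
    ∑ x ∈ S, ‖Rzb Q X1 P C' (gB Q X1 B C0) h0 (g x) -
      MZb Q X1 (B.leadingCoeff.natAbs * r) P B C0 C' h0 (g x)‖ ^ 2 ≤
      (X1 : ℝ) ^ 2 * S.card * (Q : ℝ) ^ (-c) := by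
  classical
  obtain ⟨c1, hc1, Q1, hZA⟩ := R7_cell k A E hA Cc cc hC
  obtain ⟨c2, hc2, Q2, hZB⟩ := R8_main k A E Cc cc hT
  have hcm : 0 < min c1 c2 := lt_min hc1 hc2
  obtain ⟨Q3, hQ3, hlog⟩ := G1_rlog 4 0 (min c1 c2 / 2) (by positivity)
  have hE0 : (0 : ℝ) ≤ E := Nat.cast_nonneg _
  refine ⟨min c1 c2 / 2, 1500 + (E : ℝ), by positivity, by linarith, fun C => ⟨max (max Q1 Q2) (max Q3 1), ?_⟩⟩
  intro P hP Q X X1 Y M B C0 mb hQ hRg hG hB hCf C' mc hCc r hr hr100 ι S g h0 hCl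
  have hQ1' : Q1 ≤ Q := (le_max_left _ _).trans ((le_max_left _ _).trans hQ)
  have hQ2' : Q2 ≤ Q := (le_max_right _ _).trans ((le_max_left _ _).trans hQ)
  have hQ3' : Q3 ≤ Q := (le_max_left _ _).trans ((le_max_right _ _).trans hQ)
  have hQ1 : 1 ≤ Q := (le_max_right _ _).trans ((le_max_right _ _).trans hQ)
  have hQr : (1 : ℝ) ≤ Q := by exact_mod_cast hQ1
  have hQr0 : (0 : ℝ) < Q := by linarith
  have hQ8 : 0 < Q ^ 8 := Nat.pow_pos hQ1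
  have hQ800 : 0 < Q ^ 800 := Nat.pow_pos hQ1
  have hXpos : 0 < X := hG.pos.trans_le hG.le
  set H : ℕ := X1 / Q ^ 800 with hH
  have hXH : X1 = H * Q ^ 800 := (Nat.div_mul_cancel hG.dvd).symm
  obtain ⟨hH600, hHE⟩ := r9_X (E := E) le_rfl hQ1 hRg hXpos hG.ge
  have hHpos : 0 < H := (Nat.pow_pos hQ1).trans_le hH600
  -- the difference
  set m0 : ℕ := B.leadingCoeff.natAbs * r with hm0
  set F : ι → ℕ → ℂ := fun x n => gB Q X1 B C0 n *
    ∏ i, SG Q (C' i ((P i).eval ((bs (X1 / Q ^ 8) n : ℕ) : ℤ) + (h0 i : ℤ))) ((P i).eval (n : ℤ) + g x i) -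
    MDf Q m0 (cfb Q X1 P B C0 C' h0 n) (sys B P (g x)) with hF
  have hdiff : ∀ x : ι, Rzb Q X1 P C' (gB Q X1 B C0) h0 (g x) - MZb Q X1 m0 P B C0 C' h0 (g x) =
      ∑ n ∈ Ico X1 (2 * X1), F x n := by
    intro x
    unfold Rzb MZb
    rw [← Finset.sum_sub_distrib]
  rw [Finset.sum_congr rfl fun x _ => by rw [hdiff x]]
  have hE := r9_cells S X1 H (Q ^ 800) hXH ((Q : ℝ) ^ (-(min c1 c2 / 2))) F ?_
  · refine hE.trans (le_of_eq ?_)
    ring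
  intro j hj
  have hjH' : j * H + H ≤ X1 := by
    have h1 : (j + 1) * H ≤ Q ^ 800 * H := Nat.mul_le_mul_right H hj
    have h2 : (j + 1) * H = j * H + H := by ring
    have h3 : Q ^ 800 * H = X1 := by rw [mul_comm]; exact hXH.symm
    omega
  have haI : X1 + j * H ∈ Ico X1 (2 * X1) := by
    rw [mem_Ico]
    omega
  -- the base points
  have hbsn : ∀ n ∈ Ico (X1 + j * H) (X1 + j * H + H), bs (X1 / Q ^ 800) n = X1 + j * H := by
    intro n hn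
    have h1 := mem_Ico.1 hn
    have h2 : X1 + j * H = (Q ^ 800 + j) * H := by
      conv_lhs => rw [hXH]
      ring
    rw [h2] at h1 ⊢
    exact z2_bs hHpos _ _ h1.1 h1.2
  have hdX8 : Q ^ 8 ∣ X1 := (pow_dvd_pow Q (by norm_num)).trans hG.dvd
  have hHc : X1 / Q ^ 8 = H * Q ^ 792 := by
    refine Nat.div_eq_of_eq_mul_left hQ8 ?_
    rw [mul_assoc, ← pow_add]
    exact hXH
  have hHcX : X1 / Q ^ 8 ∣ X1 := Nat.div_dvd_of_dvd hdX8
  have hHcpos : 0 < X1 / Q ^ 8 := by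
    rw [hHc]
    exact Nat.mul_pos hHpos (Nat.pow_pos hQ1)
  have hbsc : ∀ n ∈ Ico (X1 + j * H) (X1 + j * H + H),
      bs (X1 / Q ^ 8) n = bs (X1 / Q ^ 8) (X1 + j * H) := fun n hn =>
    E1_fine hHpos (Nat.pow_pos hQ1) hHc hHcX hn
  -- the base point of the long cell is in the range
  have hbI : bs (X1 / Q ^ 8) (X1 + j * H) ∈ Ico X1 (2 * X1) := by
    have h1 : bs (X1 / Q ^ 8) (X1 + j * H) ≤ X1 + j * H := by
      unfold bs
      exact Nat.div_mul_le_self _ _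
    have h2 : X1 ≤ bs (X1 / Q ^ 8) (X1 + j * H) := by
      unfold bs
      calc X1 = X1 / (X1 / Q ^ 8) * (X1 / Q ^ 8) := (Nat.div_mul_cancel hHcX).symm
        _ ≤ _ := Nat.mul_le_mul_right _ (Nat.div_le_div_right (by omega))
    have h3 := (mem_Ico.1 haI).2
    rw [mem_Ico]
    omega
  set c0 : Ch → ℂ := C0 (B.eval ((X1 + j * H : ℕ) : ℤ)) with hc0
  set c' : Fin k → Ch → ℂ := fun i =>
    C' i ((P i).eval ((bs (X1 / Q ^ 8) (X1 + j * H) : ℕ) : ℤ) + (h0 i : ℤ)) with hc'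
  have hcfz : ∀ n ∈ Ico (X1 + j * H) (X1 + j * H + H),
      cfb Q X1 P B C0 C' h0 n = (Fin.cons c0 c' : Fin (k + 1) → Ch → ℂ) := by
    intro n hn
    unfold cfb
    rw [hbsn n hn, hbsc n hn]
  -- sizes
  have hsz0 : ∑ p ∈ PC (Q ^ 100), ‖c0 p‖ ≤ 3 := by
    refine (Finset.sum_le_sum fun p hp => ?_).trans hCf.sum
    have h1 := hB.lo _ haI
    have h2 := hB.hi _ haI
    exact hCf.le _ h1 (by linarith) p hp
  have hsz : ∀ i, ∑ p ∈ PC Q, ‖c' i p‖ ≤ 3 := by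
    intro i
    have hx : h0 i ∈ Ico (M i) (2 * M i) := by
      have h1 := hCl.memb
      unfold cub at h1
      have h2 := mem_Ico.1 (Fintype.mem_piFinset.1 h1 i)
      rw [mem_Ico]
      omega
    have hv := hG.small i _ hbI
    have hd8 : 8 ∣ M i := (Dvd.intro _ rfl).trans (hG.dvdM i)
    have h5 := G2_val (M i) (h0 i) _ hd8 hv hx
    refine (Finset.sum_le_sum fun p hp => ?_).trans (hCc i).sum
    refine (hCc i).le _ h5.1 ?_ p hp
    have h6 : (0 : ℤ) ≤ Ysc (M i) := Nat.cast_nonneg _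
    linarith [h5.2.1]
  have hsz' : ∀ i : Fin (k + 1), ∑ p ∈ PC Q, ‖(Fin.cons c0 c' : Fin (k + 1) → Ch → ℂ) i p‖ ≤ 3 := by
    intro i
    refine Fin.cases ?_ (fun i => ?_) i
    · rw [Fin.cons_zero]
      exact (Finset.sum_le_sum_of_subset_of_nonneg (z2f_PC hQ1) fun _ _ _ => norm_nonneg _).trans hsz0
    · rw [Fin.cons_succ]
      exact hsz i
  have hA1 := hZA Q hQ1' B hB.lin P hP r hr hr100 c0 hsz0 c' hsz ι S g hCl.good
    (X1 + j * H) H hH600 hHE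
  have hB1 := hZB Q hQ2' B hB.lin P hP r hr hr100 (Fin.cons c0 c') hsz' ι S g hCl.good
  rw [← hm0] at hA1 hB1
  have hv0 : (0 : ℝ) ≤ S.card := Nat.cast_nonneg _
  have hsplit : ∀ x ∈ S,
      ‖∑ n ∈ Ico (X1 + j * H) (X1 + j * H + H), F x n‖ ^ 2 ≤
      2 * ‖∑ n ∈ Ico (X1 + j * H) (X1 + j * H + H), SG (Q ^ 100) c0 (B.eval (n : ℤ)) *
        ∏ i, SG Q (c' i) ((P i).eval (n : ℤ) + g x i) -
        H * MCf Q m0 (Fin.cons c0 c' : Fin (k + 1) → Ch → ℂ) (sys B P (g x))‖ ^ 2 +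
      2 * ((H : ℝ) ^ 2 * ‖MCf Q m0 (Fin.cons c0 c' : Fin (k + 1) → Ch → ℂ) (sys B P (g x)) -
        MDf Q m0 (Fin.cons c0 c' : Fin (k + 1) → Ch → ℂ) (sys B P (g x))‖ ^ 2) := by
    intro x hx
    have h1 : ∑ n ∈ Ico (X1 + j * H) (X1 + j * H + H), F x n =
        (∑ n ∈ Ico (X1 + j * H) (X1 + j * H + H), SG (Q ^ 100) c0 (B.eval (n : ℤ)) *
        ∏ i, SG Q (c' i) ((P i).eval (n : ℤ) + g x i) -
        H * MCf Q m0 (Fin.cons c0 c' : Fin (k + 1) → Ch → ℂ) (sys B P (g x))) +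
        H * (MCf Q m0 (Fin.cons c0 c' : Fin (k + 1) → Ch → ℂ) (sys B P (g x)) -
        MDf Q m0 (Fin.cons c0 c' : Fin (k + 1) → Ch → ℂ) (sys B P (g x))) := by
      have h2 : ∑ n ∈ Ico (X1 + j * H) (X1 + j * H + H), F x n =
          ∑ n ∈ Ico (X1 + j * H) (X1 + j * H + H), (SG (Q ^ 100) c0 (B.eval (n : ℤ)) *
          ∏ i, SG Q (c' i) ((P i).eval (n : ℤ) + g x i) -
          MDf Q m0 (Fin.cons c0 c' : Fin (k + 1) → Ch → ℂ) (sys B P (g x))) := by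
        refine Finset.sum_congr rfl fun n hn => ?_
        rw [hF]
        simp only
        rw [hcfz n hn]
        unfold gB
        rw [hbsn n hn, hbsc n hn]
      rw [h2, Finset.sum_sub_distrib, Finset.sum_const, Nat.card_Ico, nsmul_eq_mul]
      have h3 : X1 + j * H + H - (X1 + j * H) = H := by omega
      rw [h3]
      ring
    rw [h1]
    generalize (∑ n ∈ Ico (X1 + j * H) (X1 + j * H + H), SG (Q ^ 100) c0 (B.eval (n : ℤ)) *
        ∏ i, SG Q (c' i) ((P i).eval (n : ℤ) + g x i) -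
        H * MCf Q m0 (Fin.cons c0 c' : Fin (k + 1) → Ch → ℂ) (sys B P (g x))) = x
    generalize (MCf Q m0 (Fin.cons c0 c' : Fin (k + 1) → Ch → ℂ) (sys B P (g _)) -
        MDf Q m0 (Fin.cons c0 c' : Fin (k + 1) → Ch → ℂ) (sys B P (g _))) = y
    have h4 : ‖x + H * y‖ ≤ ‖x‖ + H * ‖y‖ := by
      refine (norm_add_le _ _).trans (le_of_eq ?_)
      rw [norm_mul, Complex.norm_natCast]
    have h5 : ‖x + H * y‖ ^ 2 ≤ (‖x‖ + H * ‖y‖) ^ 2 := pow_le_pow_left₀ (norm_nonneg _) h4 2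
    nlinarith [sq_nonneg (‖x‖ - H * ‖y‖)]
  have hpow : 2 * (Q : ℝ) ^ (-c1) + 2 * (Q : ℝ) ^ (-c2) ≤ (Q : ℝ) ^ (-(min c1 c2 / 2)) := by
    have h1 : (Q : ℝ) ^ (-c1) ≤ (Q : ℝ) ^ (-(min c1 c2)) :=
      Real.rpow_le_rpow_of_exponent_le hQr (by linarith [min_le_left c1 c2])
    have h2 : (Q : ℝ) ^ (-c2) ≤ (Q : ℝ) ^ (-(min c1 c2)) :=
      Real.rpow_le_rpow_of_exponent_le hQr (by linarith [min_le_right c1 c2])
    have h3 : (Q : ℝ) ^ (-(min c1 c2 / 2)) = (Q : ℝ) ^ (min c1 c2 / 2) * (Q : ℝ) ^ (-(min c1 c2)) := by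
      rw [← Real.rpow_add hQr0]
      congr 1
      ring
    have h4 := hlog Q hQ3'
    rw [Real.rpow_zero, mul_one] at h4
    have h5 : 0 ≤ (Q : ℝ) ^ (-(min c1 c2)) := Real.rpow_nonneg hQr0.le _
    rw [h3]
    nlinarith [mul_le_mul_of_nonneg_right h4 h5]
  calc ∑ x ∈ S,
        ‖∑ n ∈ Ico (X1 + j * H) (X1 + j * H + H), F x n‖ ^ 2
      ≤ ∑ x ∈ S,
      (2 * ‖∑ n ∈ Ico (X1 + j * H) (X1 + j * H + H), SG (Q ^ 100) c0 (B.eval (n : ℤ)) *
        ∏ i, SG Q (c' i) ((P i).eval (n : ℤ) + g x i) -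
        H * MCf Q m0 (Fin.cons c0 c' : Fin (k + 1) → Ch → ℂ) (sys B P (g x))‖ ^ 2 +
      2 * ((H : ℝ) ^ 2 * ‖MCf Q m0 (Fin.cons c0 c' : Fin (k + 1) → Ch → ℂ) (sys B P (g x)) -
        MDf Q m0 (Fin.cons c0 c' : Fin (k + 1) → Ch → ℂ) (sys B P (g x))‖ ^ 2)) :=
        Finset.sum_le_sum hsplit
    _ ≤ 2 * (S.card * H ^ 2 * (Q : ℝ) ^ (-c1)) + 2 * ((H : ℝ) ^ 2 * (S.card * (Q : ℝ) ^ (-c2))) := by
        rw [Finset.sum_add_distrib, ← Finset.mul_sum, ← Finset.mul_sum, ← Finset.mul_sum]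
        gcongr
    _ = S.card * H ^ 2 * (2 * (Q : ℝ) ^ (-c1) + 2 * (Q : ℝ) ^ (-c2)) := by ring
    _ ≤ S.card * H ^ 2 * (Q : ℝ) ^ (-(min c1 c2 / 2)) :=
        mul_le_mul_of_nonneg_left hpow (mul_nonneg hv0 (sq_nonneg _))

end Pool.Agent.H9P
end
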