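import Pool.Agent.Lib.H59M.M2.M008
import Pool.Agent.Lib.H59M.M2.M096
import Pool.Agent.Lib.H59M.M2.M098
import Pool.Agent.Lib.H59M.M2.M103
import Pool.Agent.Lib.H59M.M2.M104
import Pool.Agent.Lib.H59M.M2.M105
import Pool.Agent.Lib.H59M.M2.M106

/-! Merged copies (to shorten the build) of Lib.HLA.N1A, Lib.HLA.N1, Lib.HLA.W10A, Lib.HLA.W10, Lib.HUK.C5, Lib.HUK.C7, Lib.HUK.C6, Lib.HUK.C8. -/

-- from Lib.HLA.N1A
section

/-!
# LOGA, chunk N1A (M): local bounds for a system WITHOUT linear coordinate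
-/

open Finset Polynomial

namespace Pool.Agent.HLA

open Pool.Agent.Lib.H68T Pool.Agent.Lib.H18Q Pool.Agent.Lib.H59P Pool.Agent.Lib.H24P
open Pool.Agent.HUP Pool.Agent.H9P

/-- `T1_abs` (`H24P/T1.lean`) without `B`, same proof (`T1_count`, `t1_roots`). -/
theorem N1_abs (k A : ℕ) (hA : 1 ≤ A) : ∃ C : ℝ, 1 ≤ C ∧ ∀ P : Fin k → ℤ[X], Pol A P → ∀ h : Fin k → ℕ,
    ∀ l : ℕ, l.Prime → |tpf l (ran P h)| ≤ C / l := by
  classical
  have hA1 : (1 : ℝ) ≤ A := by exact_mod_cast hA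
  have h2k : (1 : ℝ) ≤ 2 ^ k := one_le_pow₀ (by norm_num)
  refine ⟨2 * 2 ^ k * A + k * A, ?_, ?_⟩
  · have h1 : (1 : ℝ) * 1 ≤ 2 ^ k * A := mul_le_mul h2k hA1 (by norm_num) (by positivity)
    have h2 : (0 : ℝ) ≤ k * A := by positivity
    linarith
  intro P hP h l hl
  have hl2 : (2 : ℝ) ≤ l := by exact_mod_cast hl.two_le
  have hl0 : (0 : ℝ) < l := by linarith
  have hl1 : (0 : ℝ) < l - 1 := by linarith
  have hratio : (l : ℝ) / (l - 1) ≤ 2 := by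
    rw [div_le_iff₀ hl1]
    linarith
  have hr0 : (0 : ℝ) ≤ (l : ℝ) / (l - 1) := by positivity
  obtain ⟨e1, e2⟩ := P0_tp l hl (ran P h)
  have hkA : (0 : ℝ) ≤ k * A := by positivity
  by_cases hlA : l ≤ A
  · have h1 : ((l : ℝ) / (l - 1)) ^ k ≤ 2 ^ k := pow_le_pow_left₀ hr0 hratio _
    have h2 : |tpf l (ran P h)| ≤ 2 ^ k := by
      rw [abs_le]
      constructor <;> linarith
    refine h2.trans ?_
    rw [le_div_iff₀ hl0]
    have h3 : (l : ℝ) ≤ A := by exact_mod_cast hlA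
    have h4 : (2 : ℝ) ^ k * l ≤ 2 ^ k * A := mul_le_mul_of_nonneg_left h3 (by linarith)
    have h5 : (0 : ℝ) ≤ 2 ^ k * A := by positivity
    linarith
  · push Not at hlA
    rw [abs_le]
    constructor
    · -- lower bound
      have hlc : ∀ F : ℤ[X], 1 ≤ F.natDegree → F.leadingCoeff.natAbs ≤ A →
          ¬ (l : ℤ) ∣ F.leadingCoeff := by
        intro F hF hFA hd
        have h1 : F.leadingCoeff ≠ 0 := by
          rw [Ne, leadingCoeff_eq_zero]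
          rintro rfl
          rw [natDegree_zero] at hF
          omega
        have h2 : l ∣ F.leadingCoeff.natAbs := Int.natCast_dvd.1 hd
        have h3 := Nat.le_of_dvd (Int.natAbs_pos.2 h1) h2
        omega
      set good := (range l).filter (fun n : ℕ => ∀ i, ¬ (l : ℤ) ∣ ran P h i n) with hgood
      set bad := univ.biUnion (fun i : Fin k => (range l).filter
        (fun n : ℕ => (l : ℤ) ∣ ran P h i n)) with hbad
      have hb : bad.card ≤ k * A := by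
        refine card_biUnion_le.trans ?_
        calc ∑ i : Fin k, ((range l).filter (fun n : ℕ => (l : ℤ) ∣ ran P h i n)).card
            ≤ ∑ _i : Fin k, A := by
              refine Finset.sum_le_sum fun i _ => ?_
              · have h2 : ((P i) + C (h i : ℤ)).natDegree = (P i).natDegree := natDegree_add_C
                have h3 : ((P i) + C (h i : ℤ)).leadingCoeff = (P i).leadingCoeff := by
                  have h5 := hP.deg i
                  rw [leadingCoeff, h2, coeff_add, coeff_C, if_neg (by omega), add_zero, leadingCoeff]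
                have h4 := t1_roots ((P i) + C (h i : ℤ)) l hl
                  (hlc _ (by rw [h2]; exact hP.deg i) (by rw [h3]; exact hP.lc i))
                rw [h2] at h4
                refine (le_of_eq ?_).trans (h4.trans (hP.degA i))
                congr 1
                refine Finset.filter_congr fun n _ => ?_
                rw [eval_add, eval_C]
                rfl
          _ = k * A := by
              rw [Finset.sum_const, card_univ, Fintype.card_fin, smul_eq_mul]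
      have hcov : l ≤ good.card + bad.card := by
        have h1 : range l ⊆ good ∪ bad := by
          intro n hn
          by_cases h2 : ∀ i, ¬ (l : ℤ) ∣ ran P h i n
          · exact mem_union_left _ (mem_filter.2 ⟨hn, h2⟩)
          · push Not at h2
            obtain ⟨i, hi⟩ := h2
            exact mem_union_right _ (mem_biUnion.2 ⟨i, mem_univ i, mem_filter.2 ⟨hn, hi⟩⟩)
        have h2 := (card_le_card h1).trans (card_union_le _ _)
        rwa [card_range] at h2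
      have h3 : (l : ℝ) ≤ good.card + k * A := by
        have h4 : l ≤ good.card + k * A := by omega
        exact_mod_cast h4
      have h5 := T1_count l hl (ran P h)
      rw [← hgood] at h5
      have h6 : (1 : ℝ) ≤ ((l : ℝ) / (l - 1)) ^ k := one_le_pow₀ (M3a_ratio l hl)
      have h7 : (0 : ℝ) ≤ (good.card : ℝ) / l := by positivity
      have h8 : (good.card : ℝ) / l * 1 ≤ (good.card : ℝ) / l * ((l : ℝ) / (l - 1)) ^ k :=
        mul_le_mul_of_nonneg_left h6 h7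
      have h9 : 1 - k * A / (l : ℝ) ≤ (good.card : ℝ) / l := by
        rw [le_div_iff₀ hl0]
        have h10 : (1 - k * A / (l : ℝ)) * l = l - k * A := by field_simp
        rw [h10]
        linarith
      have h11 : (0 : ℝ) ≤ 2 * 2 ^ k * A / (l : ℝ) := by positivity
      rw [add_div]
      linarith
    · -- upper bound
      have h1 : (l : ℝ) / (l - 1) = 1 + 1 / ((l : ℝ) - 1) := by
        field_simp
        ring
      have h2 : 1 / ((l : ℝ) - 1) ≤ 1 := by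
        rw [div_le_one hl1]
        linarith
      have h3 := t1_pow k (1 / ((l : ℝ) - 1)) (by positivity) h2
      rw [← h1] at h3
      have h4 : 1 / ((l : ℝ) - 1) ≤ 2 / l := by
        rw [div_le_div_iff₀ hl1 hl0]
        linarith
      have h5 : ((2 : ℝ) ^ k - 1) * (1 / ((l : ℝ) - 1)) ≤ 2 ^ k * (2 / l) := by
        refine mul_le_mul (by linarith) h4 (by positivity) (by linarith)
      have h6 : (2 : ℝ) ^ k * (2 / l) ≤ (2 * 2 ^ k * A + k * A) / l := by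
        rw [← mul_div_assoc]
        refine div_le_div_of_nonneg_right ?_ hl0.le
        have h7 : (2 * 2 ^ k : ℝ) * 1 ≤ 2 * 2 ^ k * A :=
          mul_le_mul_of_nonneg_left hA1 (by positivity)
        linarith
      linarith

/-- `T1_low` without `B`. -/
theorem N1_low {k : ℕ} (P : Fin k → ℤ[X]) (h : Fin k → ℕ) (hN : NoFix (ran P h)) (l : ℕ) (hl : l.Prime) :
    1 / (l : ℝ) ≤ 1 + tpf l (ran P h) := by
  classical
  have hl2 : (2 : ℝ) ≤ l := by exact_mod_cast hl.two_le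
  have hl0 : (0 : ℝ) < l := by linarith
  have hlz : (0 : ℤ) < l := by exact_mod_cast hl.pos
  obtain ⟨n, hn⟩ := hN l hl
  set n' : ℕ := (n % l).toNat with hn'
  have h1 : (n' : ℤ) = n % l := Int.toNat_of_nonneg (Int.emod_nonneg _ hlz.ne')
  have h2 : n' < l := by
    have := Int.emod_lt_of_pos n hlz
    omega
  have h3 : n' ∈ (range l).filter (fun n : ℕ => ∀ i, ¬ (l : ℤ) ∣ ran P h i n) := by
    refine mem_filter.2 ⟨mem_range.2 h2, fun i hi => hn i ?_⟩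
    have h4 := P2_ran P h i (l * (n / l)) (n' : ℤ)
    have h5 : (n' : ℤ) + l * (n / l) = n := by
      rw [h1]
      exact Int.emod_add_mul_ediv n l
    rw [h5] at h4
    have h6 : (l : ℤ) ∣ ran P h i n - ran P h i n' := (Dvd.intro _ rfl).trans h4
    exact (dvd_sub_left hi).1 h6
  rw [T1_count l hl]
  have h4 : (1 : ℝ) ≤ (((range l).filter (fun n : ℕ => ∀ i, ¬ (l : ℤ) ∣ ran P h i n)).card : ℝ) := by
    exact_mod_cast Finset.card_pos.2 ⟨n', h3⟩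
  have h5 : (1 : ℝ) ≤ ((l : ℝ) / (l - 1)) ^ k := one_le_pow₀ (M3a_ratio l hl)
  calc 1 / (l : ℝ) = 1 / (l : ℝ) * 1 := (mul_one _).symm
    _ ≤ _ := mul_le_mul (div_le_div_of_nonneg_right h4 hl0.le) h5 (by norm_num) (by positivity)

/-- Lower bound for the series. Proof. As `X2_low` (look it up in `H24P`; it is used in `H9P/V16.lean`): `1 + tpf l ≥ 1/l` for `l ≤ 2 C` and `≥ 1 - C/l` for `l > 2 C`. -/
theorem N1_X2 (k A : ℕ) (hA : 1 ≤ A) : ∃ c C : ℝ, 0 < c ∧ 0 < C ∧ ∀ P : Fin k → ℤ[X], Pol A P → ∀ h : Fin k → ℕ,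
    NoFix (ran P h) → ∀ Q : ℕ, 2 ≤ Q → c * (1 + Real.log Q) ^ (-C) ≤ SSf (pr Q) (ran P h) := by
  classical
  obtain ⟨C1, hC1, hT⟩ := N1_abs k A hA
  obtain ⟨N, hN⟩ : ∃ N, N = ⌊2 * C1⌋₊ := ⟨_, rfl⟩
  have hC0 : 0 < 2 * C1 := by linarith
  refine ⟨(1 / (2 * C1)) ^ N * 500 ^ (-(2 * C1)), 2 * C1, by positivity, by linarith, ?_⟩
  intro P hP h hNF Q hQ
  obtain ⟨P', hPe⟩ : ∃ P', P' = pr Q := ⟨_, rfl⟩
  have hP' : P' ⊆ pr Q := by rw [hPe]
  rw [← hPe]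
  have hQ1 : (1 : ℝ) ≤ Q := by exact_mod_cast (by omega : 1 ≤ Q)
  have hlog : 0 ≤ Real.log Q := Real.log_nonneg hQ1
  have hprime : ∀ l ∈ P', l.Prime := by
    intro l hl
    have h1 := hP' hl
    unfold pr at h1
    exact (mem_filter.1 h1).2
  have hfl : ∀ l ∈ P', (if l ≤ N then 1 / (2 * C1) else 1) * Real.exp (-(2 * C1 * (1 / (l : ℝ)))) ≤
      1 + tpf l (ran P h) := by
    intro l hl
    have hlp := hprime l hl
    have hl0 : (0 : ℝ) < l := by exact_mod_cast hlp.pos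
    split_ifs with h1
    · have h2 := N1_low P h hNF l hlp
      have h3 : (l : ℝ) ≤ 2 * C1 := by
        have h4 : (l : ℝ) ≤ (N : ℝ) := Nat.cast_le.2 h1
        refine h4.trans ?_
        rw [hN]
        exact Nat.floor_le hC0.le
      have h4 : 1 / (2 * C1) ≤ 1 / (l : ℝ) := one_div_le_one_div_of_le hl0 h3
      have h5 : Real.exp (-(2 * C1 * (1 / (l : ℝ)))) ≤ 1 := by
        rw [Real.exp_le_one_iff]
        have : 0 ≤ 2 * C1 * (1 / (l : ℝ)) := by positivity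
        linarith
      have h6 : 0 ≤ 1 / (2 * C1) := by positivity
      exact (mul_le_of_le_one_right h6 h5).trans (h4.trans h2)
    · have h2 : 2 * C1 < l := by
        rw [not_le, hN] at h1
        exact (Nat.floor_lt hC0.le).1 h1
      have h3 := (abs_le.1 (hT P hP h l hlp)).1
      have h4 : C1 / (l : ℝ) ≤ 1 / 2 := by
        rw [div_le_iff₀ hl0]
        linarith
      have h5 := x2_exp (C1 / l) (by positivity) h4
      rw [one_mul]
      have e : 2 * C1 * (1 / (l : ℝ)) = 2 * (C1 / l) := by ring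
      rw [e]
      linarith
  have hnn : ∀ l ∈ P', 0 ≤ (if l ≤ N then 1 / (2 * C1) else 1) * Real.exp (-(2 * C1 * (1 / (l : ℝ)))) := by
    intro l _
    apply mul_nonneg _ (Real.exp_pos _).le
    split_ifs
    · positivity
    · exact zero_le_one
  have h1 := Finset.prod_le_prod hnn hfl
  unfold SSf
  refine le_trans ?_ h1
  rw [Finset.prod_mul_distrib, ← Real.exp_sum, mul_assoc]
  have hA1 : (1 / (2 * C1)) ^ N ≤ ∏ l ∈ P', (if l ≤ N then 1 / (2 * C1) else (1 : ℝ)) := by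
    rw [Finset.prod_ite, Finset.prod_const, Finset.prod_const_one, mul_one]
    apply pow_le_pow_of_le_one (by positivity)
    · rw [div_le_one hC0]
      linarith
    · have hsub : P'.filter (fun l => l ≤ N) ⊆ Icc 1 N := by
        intro l hl
        rw [mem_filter] at hl
        exact mem_Icc.2 ⟨(hprime l hl.1).one_lt.le, hl.2⟩
      have := Finset.card_le_card hsub
      rwa [Nat.card_Icc, Nat.add_sub_cancel] at this
  have hA2 : (500 : ℝ) ^ (-(2 * C1)) * (1 + Real.log Q) ^ (-(2 * C1)) ≤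
      Real.exp (∑ l ∈ P', -(2 * C1 * (1 / (l : ℝ)))) := by
    rw [← Real.mul_rpow (by norm_num) (by linarith)]
    have h2 := x2_sum Q hQ P' hP'
    have e : ∑ l ∈ P', -(2 * C1 * (1 / (l : ℝ))) = (∑ l ∈ P', 1 / (l : ℝ)) * (-(2 * C1)) := by
      rw [Finset.sum_mul]
      exact Finset.sum_congr rfl fun l _ => by ring
    rw [e, Real.exp_mul]
    exact Real.rpow_le_rpow_of_nonpos (Real.exp_pos _) h2 (by linarith)
  refine mul_le_mul hA1 hA2 (by positivity) ?_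
  exact Finset.prod_nonneg fun l _ => by
    split_ifs
    · positivity
    · exact zero_le_one

end Pool.Agent.HLA
end

-- from Lib.HLA.N1
section

/-!
# LOGA, chunk N1 (M): the large sieve for the singular series without linear coordinate
-/

open Finset Polynomial

namespace Pool.Agent.HLA

open Pool.Agent.Lib.H68T Pool.Agent.Lib.H18Q Pool.Agent.Lib.H59P Pool.Agent.Lib.H24P
open Pool.Agent.HUP Pool.Agent.H9P

/-- One prime. -/
theorem n1_one {k : ℕ} (P : Fin k → ℤ[X]) (h : Fin k → ℕ) (l : ℕ) (hl : l.Prime) :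
    ∑ n ∈ range l, Wf l (at' (ran P h) n) = l * tpf l (ran P h) := by
  have hl0 : (l : ℝ) ≠ 0 := by exact_mod_cast hl.pos.ne'
  unfold Wf at' tpf
  rw [Finset.sum_sub_distrib, mul_sub, mul_div_cancel₀ _ hl0]
  simp

/-- The mean over a period. -/
theorem n1_mean {k : ℕ} (P : Fin k → ℤ[X]) (h : Fin k → ℕ) (S D : Finset ℕ) (hS : ∀ l ∈ S, l.Prime) (hD : D ⊆ S) :
    ∑ n ∈ range (∏ l ∈ S, l), Wdf (∏ l ∈ D, l) (at' (ran P h) n) =
      ((∏ l ∈ S, l : ℕ) : ℝ) * tdf (∏ l ∈ D, l) (ran P h) := by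
  classical
  have hDp : (∏ l ∈ D, l).primeFactors = D := Nat.primeFactors_prod fun l hl => hS l (hD hl)
  have hperW : ∀ l : ℕ, ∀ n : ℤ, Wf l (at' (ran P h) (n + l)) = Wf l (at' (ran P h) n) := by
    intro l n
    unfold Wf
    congr 1
    refine Finset.prod_congr rfl fun i _ => ?_
    congr 1
    exact P2_gl (ran P h) (P2_ran P h) l l dvd_rfl i n
  obtain ⟨F, hF⟩ : ∃ F : ℕ → ℤ → ℝ, F = fun l n => if l ∈ D then Wf l (at' (ran P h) n) else 1 := ⟨_, rfl⟩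
  have h1 := b1_set F (fun l n => by
    rw [hF]
    simp only
    rw [hperW]) S hS
  have h2 : ∀ n ∈ range (∏ l ∈ S, l), Wdf (∏ l ∈ D, l) (at' (ran P h) n) = ∏ l ∈ S, F l n := by
    intro n _
    unfold Wdf
    rw [hDp, hF]
    simp only
    rw [Finset.prod_ite_mem, Finset.inter_eq_right.2 hD]
  rw [Finset.sum_congr rfl h2, h1]
  have h3 : ∀ l ∈ S, ∑ n ∈ range l, F l n = (l : ℝ) * (if l ∈ D then tpf l (ran P h) else 1) := by
    intro l hl
    rw [hF]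
    simp only
    split_ifs
    · exact n1_one P h l (hS l hl)
    · simp
  rw [Finset.prod_congr rfl h3, Finset.prod_mul_distrib, Nat.cast_prod]
  congr 1
  unfold tdf
  rw [hDp, Finset.prod_ite_mem, Finset.inter_eq_right.2 hD]

/-- `T2_iden` (`H24P/T2.lean`) without `B`: the mean of `∑_{d ∈ Δ} Wdf d` over `N = (∏ S) j` consecutive `n` is `∑_{d ∈ Δ} tdf d`. Proof. `t2_comp` (the inner sum is `∑_{d ∈ Δ} Wdf d (at' (ran P h) n)`); every `Wdf d (at' (ran P h) ·)` has period `d ∣ ∏ S`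
and sum `d tdf d` over a period (`B1_mean`, `P2_Wd`, `P2_ran`, as in the proof of `T2_mean`); `t2_per`. -/
theorem N1_iden {k : ℕ} (P : Fin k → ℤ[X]) (h : Fin k → ℕ) (S : Finset ℕ) (hS : ∀ l ∈ S, l.Prime) (Z j : ℕ) (hj : 1 ≤ j)
    (Δ : Finset ℕ) (hΔ : ∀ d ∈ Δ, Squarefree d ∧ d ≤ Z ∧ d.primeFactors ⊆ S) :
    ∑ n ∈ Ico 0 (0 + (∏ l ∈ S, l) * j), ∑ κ ∈ (Fintype.piFinset fun _ : Fin k => KS Z 1).filter (fun κ => univ.lcm κ ∈ Δ),
          ∏ i, gk p0 (κ i) ((P i).eval (n : ℤ) + h i) =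
      (((∏ l ∈ S, l) * j : ℕ) : ℂ) * ((∑ d ∈ Δ, tdf d (ran P h) : ℝ) : ℂ) := by
  classical
  obtain ⟨N, hN⟩ : ∃ N : ℕ, N = ∏ l ∈ S, l := ⟨_, rfl⟩
  have hprod : ∀ d ∈ Δ, ∏ l ∈ d.primeFactors, l = d := fun d hd =>
    Nat.prod_primeFactors_of_squarefree (hΔ d hd).1
  have hdN : ∀ d ∈ Δ, d ∣ N := by
    intro d hd
    rw [← hprod d hd, hN]
    exact Finset.prod_dvd_prod_of_subset _ _ _ (hΔ d hd).2.2
  rw [← hN]
  obtain ⟨f, hf⟩ : ∃ f : ℤ → ℂ, f = fun n => ((∑ d ∈ Δ, Wdf d (at' (ran P h) n) : ℝ) : ℂ) := ⟨_, rfl⟩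
  have hper : ∀ n : ℤ, f (n + N) = f n := by
    intro n
    rw [hf]
    simp only
    congr 1
    refine Finset.sum_congr rfl fun d hd => ?_
    exact P2_Wd (ran P h) (P2_ran P h) d N (hdN d hd) n
  have h1 : ∀ n ∈ Ico 0 (0 + N * j), ∑ κ ∈ (Fintype.piFinset fun _ : Fin k => KS Z 1).filter (fun κ => univ.lcm κ ∈ Δ),
          ∏ i, gk p0 (κ i) ((P i).eval (n : ℤ) + h i) = f ((n : ℕ) : ℤ) := by
    intro n _
    rw [hf]
    exact t2_comp Z Δ (fun d hd => ⟨(hΔ d hd).1, (hΔ d hd).2.1⟩) (at' (ran P h) (n : ℤ))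
  rw [Finset.sum_congr rfl h1, t2_per f N hper j]
  have h4 : ∑ n ∈ range N, f n = ((N * ∑ d ∈ Δ, tdf d (ran P h) : ℝ) : ℂ) := by
    rw [hf]
    simp only
    rw [← Complex.ofReal_sum]
    congr 1
    rw [Finset.mul_sum, Finset.sum_comm]
    refine Finset.sum_congr rfl fun d hd => ?_
    have h5 := n1_mean P h S d.primeFactors hS (hΔ d hd).2.2
    rw [hprod d hd, ← hN] at h5
    exact h5
  rw [h4]
  push_cast
  ring

/-- **N1.** `R5_main` (`HUP/R5.lean`) without `B`. Proof. As there with `N1_iden` in place of `T2_iden` (`j = (Q^2)^(E+1)`) and the weight `w n = 1`, whose mean square is `1`. -/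
theorem N1_main (k E : ℕ) (Cc cc : ℝ) (hC : FPar Cc cc) : ∃ C c : ℝ, 1 ≤ C ∧ 0 < c ∧ c ≤ 1 ∧
    ∀ P : Fin k → ℤ[X], ∀ Q : ℕ, 2 ≤ Q → ∀ (Δ : Finset ℕ) (D : ℕ), 1 ≤ D →
    (∀ d ∈ Δ, Squarefree d ∧ D < d ∧ d ≤ Q ^ 2 ∧ ∀ l ∈ d.primeFactors, l ≤ Q) →
    ∀ (ι : Type) (S : Finset ι) (g : ι → Fin k → ℕ), FGood E Cc cc (Q ^ 2) P S g →
    ∑ x ∈ S, (∑ d ∈ Δ, tdf d (ran P (g x))) ^ 2 ≤ C * (1 + Real.log Q) ^ C * S.card * (D : ℝ) ^ (-c) := by
  classical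
  obtain ⟨hCc, hcc0, hcc1⟩ := hC
  have hcst : 0 < Cc * 2 ^ Cc := by positivity
  refine ⟨Cc * 2 ^ Cc + Cc + 1, cc, by linarith, hcc0, hcc1, ?_⟩
  intro P Q hQ Δ D hD hΔ ι Sx g hg
  have hQr : (2 : ℝ) ≤ Q := by exact_mod_cast hQ
  have hlQ : 0 ≤ Real.log Q := Real.log_natCast_nonneg Q
  have hS : ∀ l ∈ pr Q, l.Prime := fun l hl => (mem_filter.mp hl).2
  have hΔ' : ∀ d ∈ Δ, Squarefree d ∧ d ≤ Q ^ 2 ∧ d.primeFactors ⊆ pr Q := by
    intro d hd
    obtain ⟨h1, h2, h3, h4⟩ := hΔ d hd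
    refine ⟨h1, h3, fun l hl => ?_⟩
    unfold pr
    rw [mem_filter, mem_Icc]
    have h5 := (Nat.mem_primeFactors.mp hl).1
    exact ⟨⟨h5.one_lt.le, h4 l hl⟩, h5⟩
  have hpS : 0 < ∏ l ∈ pr Q, l := prod_pos fun l hl => (hS l hl).pos
  have hQ2 : 1 ≤ Q ^ 2 := Nat.one_le_pow _ _ (by omega)
  have hj1 : 1 ≤ (Q ^ 2) ^ (E + 1) := Nat.one_le_pow _ _ (by positivity)
  obtain ⟨N, hN⟩ : ∃ N : ℕ, N = (∏ l ∈ pr Q, l) * (Q ^ 2) ^ (E + 1) := ⟨_, rfl⟩
  have hN0 : 0 < N := by rw [hN]; exact Nat.mul_pos hpS hj1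
  have hNQ : (Q ^ 2) ^ E ≤ N := by
    rw [hN]
    exact (Nat.pow_le_pow_right hQ2 (Nat.le_succ E)).trans (Nat.le_mul_of_pos_left _ hpS)
  have hNr : (0 : ℝ) < N := by exact_mod_cast hN0
  obtain ⟨T, hT⟩ : ∃ T : Finset (Fin k → ℕ), T = (Fintype.piFinset fun _ : Fin k => KS (Q ^ 2) 1).filter
    (fun κ => univ.lcm κ ∈ Δ) := ⟨_, rfl⟩
  have hiden := fun h : Fin k → ℕ => N1_iden P h (pr Q) hS (Q ^ 2) ((Q ^ 2) ^ (E + 1)) hj1 Δ hΔ'
  rw [← hT, ← hN] at hiden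
  have hFg := hg (Q ^ 2) hQ2 le_rfl (fun _ => p0) (fun _ => p0_mem hQ2) T (by rw [hT]; exact filter_subset _ _) D hD
    (by
      intro κ hκ
      rw [hT] at hκ
      have h1 := (mem_filter.mp hκ).2
      have h2 : (fun i => (p0).1 * κ i) = κ := by
        funext i
        exact one_mul _
      rw [h2]
      exact (hΔ _ h1).2.1)
    0 N hNQ (fun _ => 1)
  have hsq : ∑ n ∈ Ico 0 (0 + N), ‖(1 : ℂ)‖ ^ 2 = N := by
    simp
  have hL : ∀ x ∈ Sx, ‖∑ n ∈ Ico 0 (0 + N), (1 : ℂ) *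
      ∑ κ ∈ T, ∏ i, gk p0 (κ i) ((P i).eval (n : ℤ) + g x i)‖ ^ 2 =
      (N : ℝ) ^ 2 * (∑ d ∈ Δ, tdf d (ran P (g x))) ^ 2 := by
    intro x _
    have h0 : ∀ n ∈ Ico 0 (0 + N), (1 : ℂ) * ∑ κ ∈ T, ∏ i, gk p0 (κ i) ((P i).eval (n : ℤ) + g x i) =
        ∑ κ ∈ T, ∏ i, gk p0 (κ i) ((P i).eval (n : ℤ) + g x i) := fun n _ => one_mul _
    rw [sum_congr rfl h0, hiden (g x), norm_mul, Complex.norm_natCast, Complex.norm_real, mul_pow, Real.norm_eq_abs, sq_abs]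
  have hFg' : (N : ℝ) ^ 2 * ∑ x ∈ Sx, (∑ d ∈ Δ, tdf d (ran P (g x))) ^ 2 ≤
      Cc * (1 + Real.log ((Q ^ 2 : ℕ) : ℝ)) ^ Cc * Sx.card * (N * N) * (D : ℝ) ^ (-cc) := by
    rw [mul_sum, ← sum_congr rfl hL]
    refine hFg.trans (le_of_eq ?_)
    rw [hsq]
  have hlog2 : Real.log ((Q ^ 2 : ℕ) : ℝ) = 2 * Real.log Q := by
    rw [Nat.cast_pow, Real.log_pow]
    norm_num
  have hpw : (1 + Real.log ((Q ^ 2 : ℕ) : ℝ)) ^ Cc ≤ 2 ^ Cc * (1 + Real.log Q) ^ Cc := by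
    rw [hlog2, ← Real.mul_rpow (by norm_num) (by linarith)]
    exact Real.rpow_le_rpow (by linarith) (by linarith) (by linarith)
  have hb1 : (N : ℝ) ^ 2 * ∑ x ∈ Sx, (∑ d ∈ Δ, tdf d (ran P (g x))) ^ 2 ≤
      (N : ℝ) ^ 2 * (Cc * (2 ^ Cc * (1 + Real.log Q) ^ Cc) * Sx.card * (D : ℝ) ^ (-cc)) := by
    refine hFg'.trans ?_
    calc Cc * (1 + Real.log ((Q ^ 2 : ℕ) : ℝ)) ^ Cc * Sx.card * (N * N) * (D : ℝ) ^ (-cc)
        ≤ Cc * (2 ^ Cc * (1 + Real.log Q) ^ Cc) * Sx.card * (N * N) * (D : ℝ) ^ (-cc) := by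
          gcongr
      _ = _ := by ring
  have hb2 := le_of_mul_le_mul_left hb1 (by positivity)
  refine hb2.trans ?_
  have h1L : 1 ≤ 1 + Real.log Q := by linarith
  have h3 : (1 + Real.log Q) ^ Cc ≤ (1 + Real.log Q) ^ (Cc * 2 ^ Cc + Cc + 1) :=
    Real.rpow_le_rpow_of_exponent_le h1L (by linarith)
  have h4 : Cc * 2 ^ Cc ≤ Cc * 2 ^ Cc + Cc + 1 := by linarith
  calc Cc * (2 ^ Cc * (1 + Real.log Q) ^ Cc) * Sx.card * (D : ℝ) ^ (-cc)
      = (Cc * 2 ^ Cc) * (1 + Real.log Q) ^ Cc * Sx.card * (D : ℝ) ^ (-cc) := by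
        ring
    _ ≤ (Cc * 2 ^ Cc + Cc + 1) * (1 + Real.log Q) ^ (Cc * 2 ^ Cc + Cc + 1) * Sx.card *
        (D : ℝ) ^ (-cc) := by
        gcongr

end Pool.Agent.HLA
end

-- from Lib.HLA.W10A
section

/-!
# LOGA, chunk W10A (M): a block of the singular series
-/

open Finset Polynomial

namespace Pool.Agent.HLA

open Pool.Agent.Lib.H68T Pool.Agent.Lib.H18Q Pool.Agent.Lib.H59P Pool.Agent.Lib.H24P
open Pool.Agent.HUP Pool.Agent.H9P

/-- `t5_point` (`H24P/T5.lean`) for an arbitrary set `P'` of primes up to `Q`; same proof without `t5_SF`. -/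
theorem w10_point {k : ℕ} (φ : Fin k → ℤ → ℤ) (C1 : ℝ) (hC1 : ∀ l : ℕ, l.Prime → |tpf l φ| ≤ C1 / l)
    {Q E : ℕ} (hQ : 2 ≤ Q) (hE1 : 1 ≤ E) (P' : Finset ℕ) (hP' : P' ⊆ pr Q) :
    |∑ d ∈ dv P' Q E, tdf d φ - SSf P' φ| ≤ |∑ m ∈ mv P' Q E, tdf m φ| +
      ∑ q ∈ P', (C1 / q * (500 * Real.log Q) ^ k) * |∑ m ∈ mv P' (q - 1) E, tdf m φ| := by
  classical
  have hpr : ∀ l ∈ P', l.Prime := fun l hl => (Finset.mem_filter.1 (hP' hl)).2
  have hPQ : P'.filter (fun l => l ≤ Q) = P' := by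
    refine Finset.filter_true_of_mem fun l hl => ?_
    exact (Finset.mem_Icc.1 (Finset.mem_filter.1 (hP' hl)).1).2
  have h4 := T4_main (fun l => tpf l φ) P' hpr E hE1 Q
  rw [hPQ] at h4
  have htt : ∀ d, tt (fun l => tpf l φ) d = tdf d φ := fun d => rfl
  simp only [htt] at h4
  rw [abs_sub_comm]
  have h5 : SSf P' φ - ∑ d ∈ dv P' Q E, tdf d φ =
      ∑ m ∈ mv P' Q E, tdf m φ +
      ∑ q ∈ P', tpf q φ * (∑ m ∈ mv P' (q - 1) E, tdf m φ) *
        ∏ l ∈ P'.filter (fun l => q < l ∧ l ≤ Q), (1 + tpf l φ) := h4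
  rw [h5]
  refine (abs_add_le _ _).trans (add_le_add le_rfl ?_)
  refine (Finset.abs_sum_le_sum_abs _ _).trans (Finset.sum_le_sum fun q hq => ?_)
  rw [abs_mul, abs_mul]
  have h6 := T5_up φ Q hQ (P'.filter (fun l => q < l ∧ l ≤ Q)) ((Finset.filter_subset _ _).trans hP')
  have h7 : |∏ l ∈ P'.filter (fun l => q < l ∧ l ≤ Q), (1 + tpf l φ)| ≤ (500 * Real.log Q) ^ k := by
    have h8 : |SSf (P'.filter (fun l => q < l ∧ l ≤ Q)) φ| ≤ (500 * Real.log Q) ^ k := by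
      rw [abs_of_nonneg h6.1]
      exact h6.2
    exact h8
  have h9 := hC1 q (hpr q hq)
  calc |tpf q φ| * |∑ m ∈ mv P' (q - 1) E, tdf m φ| *
        |∏ l ∈ P'.filter (fun l => q < l ∧ l ≤ Q), (1 + tpf l φ)|
      ≤ (C1 / q) * |∑ m ∈ mv P' (q - 1) E, tdf m φ| * (500 * Real.log Q) ^ k := by
        refine mul_le_mul (mul_le_mul_of_nonneg_right h9 (abs_nonneg _)) h7 (abs_nonneg _) ?_
        exact mul_nonneg ((abs_nonneg _).trans h9) (abs_nonneg _)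
    _ = (C1 / q * (500 * Real.log Q) ^ k) * |∑ m ∈ mv P' (q - 1) E, tdf m φ| := by ring

/-- The square mean of a block. Common part of `W10_block` and `N6_block`: for any family `φ x` of systems of `k'` coordinates with
`|tpf l (φ x)| ≤ C1/l` and `∑_x (∑_{d ∈ Δ} tdf d (φ x))² ≤ C3 (1 + log Q)^C3 card D^(-c3)` for all `Δ` of squarefree numbers between `D` and `Q²` with prime factors in `(z, Q]`.
Proof. As `R6_main` (`HUP/R6.lean`) with `Q = z'`, `E = z`, `P' = (pr z').filter (z < ·)`: `w10_point`, `t5_mink`, `t5_harm`; `dv P' z' z = {1}` (a squarefree `d ≤ z` all of whose prime factors are `> z` is `1`), so the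
sum over `dv` is `tdf 1 = 1`; for `j ≤ z'` the members of `mv P' j z` are squarefree, `> z`, at most `z z' ≤ z'²`, with prime factors in `P'`. The bound is
`(1 + C1 (500 log z')^(k'+1)...)² C3 (1 + log z')^C3 card z^(-c3) ≤ card z^(-c3/2)` for `z ≥ z0`, as `z' ≤ z²` (`G1_rlog`). -/
theorem w10_gen (k' : ℕ) (C1 C3 c3 : ℝ) (hC1 : 1 ≤ C1) (hC3 : 1 ≤ C3) (hc3 : 0 < c3) (z1 : ℕ) : ∃ z0 : ℕ, ∀ z z' : ℕ, z0 ≤ z →
    z ≤ z' → z' ≤ z ^ 2 → ∀ (ι : Type) (S : Finset ι) (φ : ι → Fin k' → ℤ → ℤ),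
    (∀ x, ∀ l : ℕ, l.Prime → |tpf l (φ x)| ≤ C1 / l) →
    (∀ (Δ : Finset ℕ) (D : ℕ), 1 ≤ D → (∀ d ∈ Δ, Squarefree d ∧ D < d ∧ d ≤ z' ^ 2 ∧
      ∀ l ∈ d.primeFactors, l ≤ z' ∧ z < l ∧ z1 < l) →
      ∑ x ∈ S, (∑ d ∈ Δ, tdf d (φ x)) ^ 2 ≤ C3 * (1 + Real.log z') ^ C3 * S.card * (D : ℝ) ^ (-c3)) →
    ∑ x ∈ S, (SSf ((pr z').filter (fun l => z < l)) (φ x) - 1) ^ 2 ≤ S.card * (z : ℝ) ^ (-(c3 / 2)) := by
  classical
  obtain ⟨Q1, hQ1, hlog⟩ := G1_rlog ((1 + C1 * 500 ^ k') ^ 2 * C3) (2 * (k' + 1) + C3) (c3 / 4)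
    (by linarith)
  refine ⟨max 2 (max Q1 z1), fun z z' hz hzz' hz'z ι S φ h1 h3 => ?_⟩
  have hz2 : 2 ≤ z := (le_max_left _ _).trans hz
  have hzQ1 : Q1 ≤ z := (le_max_left _ _).trans ((le_max_right _ _).trans hz)
  have hzz1 : z1 ≤ z := (le_max_right _ _).trans ((le_max_right _ _).trans hz)
  have hz'2 : 2 ≤ z' := hz2.trans hzz'
  have hzr : (1 : ℝ) ≤ z := by exact_mod_cast (show 1 ≤ z by omega)
  have hz0 : (0 : ℝ) < z := by linarith
  have hz'r : (1 : ℝ) ≤ z' := by exact_mod_cast (show 1 ≤ z' by omega)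
  have hz'0 : (0 : ℝ) < z' := by linarith
  have hL : 0 ≤ Real.log z' := Real.log_nonneg hz'r
  obtain ⟨P', hP'⟩ : ∃ P', P' = (pr z').filter (fun l => z < l) := ⟨_, rfl⟩
  rw [← hP']
  have hsub : P' ⊆ pr z' := by
    rw [hP']
    exact Finset.filter_subset _ _
  have hPz : ∀ l ∈ P', z < l := fun l hl => by
    rw [hP'] at hl
    exact (Finset.mem_filter.1 hl).2
  have hvol : (0 : ℝ) ≤ S.card := Nat.cast_nonneg _
  have hdv : dv P' z' z = {1} := by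
    ext d
    unfold dv
    rw [Finset.mem_filter, Finset.mem_Icc, Finset.mem_singleton]
    constructor
    · rintro ⟨⟨hd1, hd2⟩, -, hd3⟩
      by_contra hne
      obtain ⟨l, hl, hld⟩ := Nat.exists_prime_and_dvd hne
      have h4 := hPz l (hd3 l (Nat.mem_primeFactors.2 ⟨hl, hld, by omega⟩)).1
      have h5 := Nat.le_of_dvd (by omega) hld
      omega
    · rintro rfl
      refine ⟨⟨le_rfl, by omega⟩, squarefree_one, fun l hl => ?_⟩
      rw [Nat.primeFactors_one] at hl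
      exact absurd hl (Finset.notMem_empty l)
  have hmvs : ∀ j, j ≤ z' → ∑ x ∈ S, (∑ d ∈ mv P' j z, tdf d (φ x)) ^ 2 ≤
      C3 * (1 + Real.log z') ^ C3 * (S.card : ℝ) * (z : ℝ) ^ (-c3) := by
    intro j hj
    refine h3 (mv P' j z) z (by omega) fun d hd => ?_
    unfold mv at hd
    rw [Finset.mem_filter, Finset.mem_Ioc] at hd
    obtain ⟨⟨g1, g2⟩, g3, g4, -⟩ := hd
    refine ⟨g3, g1, ?_, fun l hl => ?_⟩
    · calc d ≤ z * j := g2
        _ ≤ z' * z' := Nat.mul_le_mul hzz' hj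
        _ = z' ^ 2 := (pow_two z').symm
    · have g5 := g4 l hl
      have g6 := hPz l g5.1
      exact ⟨g5.2.trans hj, g6, lt_of_le_of_lt hzz1 g6⟩
  have hW : 0 ≤ C3 * (1 + Real.log z') ^ C3 * (S.card : ℝ) * (z : ℝ) ^ (-c3) := by
    have : 0 ≤ (1 + Real.log z') ^ C3 := Real.rpow_nonneg (by linarith) _
    have : 0 ≤ (z : ℝ) ^ (-c3) := Real.rpow_nonneg hz0.le _
    have : 0 ≤ C3 := by linarith
    positivity
  have hC10 : 0 ≤ C1 := by linarith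
  have hkey := t5_mink S P' (fun q => C1 / q * (500 * Real.log z') ^ k')
    (fun q _ => by positivity)
    (fun x => ∑ m ∈ mv P' z' z, tdf m (φ x))
    (fun q x => ∑ m ∈ mv P' (q - 1) z, tdf m (φ x))
    (fun x => 1 - SSf P' (φ x))
    ((1 + C1 * 500 ^ k') * (1 + Real.log z') ^ (k' + 1)) _ hW ?_ (hmvs z' le_rfl)
    (fun q hq => hmvs (q - 1) ?_) (fun x _ => ?_)
  · have e0 : ∑ x ∈ S, (SSf P' (φ x) - 1) ^ 2 = ∑ x ∈ S, (1 - SSf P' (φ x)) ^ 2 :=
      Finset.sum_congr rfl fun x _ => by ring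
    rw [e0]
    refine hkey.trans ?_
    have e2 : (1 + C1 * 500 ^ k') ^ 2 * C3 * (1 + Real.log z') ^ (2 * ((k' : ℝ) + 1) + C3) ≤ (z : ℝ) ^ (c3 / 2) := by
      refine (hlog z' (hzQ1.trans hzz')).trans ?_
      have e3 : (z' : ℝ) ≤ (z : ℝ) ^ (2 : ℕ) := by exact_mod_cast hz'z
      calc (z' : ℝ) ^ (c3 / 4) ≤ ((z : ℝ) ^ (2 : ℕ)) ^ (c3 / 4) := Real.rpow_le_rpow hz'0.le e3 (by linarith)
        _ = (z : ℝ) ^ (c3 / 2) := by
            rw [← Real.rpow_natCast, ← Real.rpow_mul hz0.le]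
            congr 1
            push_cast
            ring
    have e3 : ((1 + C1 * 500 ^ k') * (1 + Real.log z') ^ (k' + 1)) ^ 2 *
        (C3 * (1 + Real.log z') ^ C3) =
        (1 + C1 * 500 ^ k') ^ 2 * C3 * (1 + Real.log z') ^ (2 * ((k' : ℝ) + 1) + C3) := by
      have hp : 0 < 1 + Real.log z' := by linarith
      have e4 : (1 + Real.log z') ^ (2 * ((k' : ℝ) + 1) + C3) =
          ((1 + Real.log z') ^ (k' + 1)) ^ 2 * (1 + Real.log z') ^ C3 := by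
        rw [Real.rpow_add hp]
        congr 1
        rw [← pow_mul, ← Real.rpow_natCast]
        congr 1
        push_cast
        ring
      rw [e4]
      ring
    calc ((1 + C1 * 500 ^ k') * (1 + Real.log z') ^ (k' + 1)) ^ 2 *
          (C3 * (1 + Real.log z') ^ C3 * (S.card : ℝ) * (z : ℝ) ^ (-c3))
        = (((1 + C1 * 500 ^ k') * (1 + Real.log z') ^ (k' + 1)) ^ 2 *
          (C3 * (1 + Real.log z') ^ C3)) * ((S.card : ℝ) * (z : ℝ) ^ (-c3)) := by ring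
      _ ≤ (z : ℝ) ^ (c3 / 2) * ((S.card : ℝ) * (z : ℝ) ^ (-c3)) := by
          rw [e3]
          exact mul_le_mul_of_nonneg_right e2 (mul_nonneg hvol (Real.rpow_nonneg hz0.le _))
      _ = (S.card : ℝ) * ((z : ℝ) ^ (c3 / 2) * (z : ℝ) ^ (-c3)) := by ring
      _ = (S.card : ℝ) * (z : ℝ) ^ (-(c3 / 2)) := by
          rw [← Real.rpow_add hz0]
          congr 2
          ring
  · have f1 := t5_harm z' P' hsub
    have f2 : ∑ q ∈ P', C1 / (q : ℝ) * (500 * Real.log z') ^ k' =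
        (C1 * (500 * Real.log z') ^ k') * ∑ q ∈ P', 1 / (q : ℝ) := by
      rw [Finset.mul_sum]
      refine Finset.sum_congr rfl fun q _ => ?_
      ring
    rw [f2]
    have f3 : (500 * Real.log z') ^ k' ≤ 500 ^ k' * (1 + Real.log z') ^ k' := by
      rw [mul_pow]
      refine mul_le_mul_of_nonneg_left ?_ (by positivity)
      exact pow_le_pow_left₀ hL (by linarith) _
    have f4 : (1 : ℝ) ≤ (1 + Real.log z') ^ (k' + 1) := one_le_pow₀ (by linarith)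
    have f5 : 0 ≤ C1 * (500 * Real.log z') ^ k' := by positivity
    have f6 : C1 * (500 * Real.log z') ^ k' * ∑ q ∈ P', 1 / (q : ℝ) ≤
        C1 * (500 ^ k' * (1 + Real.log z') ^ k') * (1 + Real.log z') := by
      refine mul_le_mul (mul_le_mul_of_nonneg_left f3 (by linarith)) f1 ?_ ?_
      · exact Finset.sum_nonneg fun q _ => by positivity
      · have : 0 ≤ 1 + Real.log z' := by linarith
        positivity
    calc 1 + C1 * (500 * Real.log z') ^ k' * ∑ q ∈ P', 1 / (q : ℝ)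
        ≤ (1 + Real.log z') ^ (k' + 1) +
          C1 * (500 ^ k' * (1 + Real.log z') ^ k') * (1 + Real.log z') := add_le_add f4 f6
      _ = (1 + C1 * 500 ^ k') * (1 + Real.log z') ^ (k' + 1) := by ring
  · have h7 := (Finset.mem_Icc.1 (Finset.mem_filter.1 (hsub hq)).1).2
    omega
  · have h8 := w10_point (φ x) C1 (h1 x) hz'2 (show 1 ≤ z by omega) P' hsub
    rw [hdv, Finset.sum_singleton] at h8
    have h9 : tdf 1 (φ x) = 1 := by
      unfold tdf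
      rw [Nat.primeFactors_one, Finset.prod_empty]
    rw [h9] at h8
    exact h8

/-- **W10A.** Proof. `w10_gen` with `k' = k + 1`, `T1_abs` (`H24P/T1.lean`), `R5_main` (`HUP/R5.lean`) at the level `Q = z'` (`FGood` at `z'² ≤ z⁴`: `u10_mono`), `z1 = A` (a prime `l > A` does not divide `lc B`, `0 < |lc B| ≤ A`). -/
theorem W10_block (k A E : ℕ) (hA : 1 ≤ A) (Cc cc : ℝ) (hC : FPar Cc cc) : ∃ c : ℝ, 0 < c ∧ ∃ z0 : ℕ, ∀ z z' : ℕ,
    z0 ≤ z → z ≤ z' → z' ≤ z ^ 2 → ∀ B : ℤ[X], Lin A B → ∀ P : Fin k → ℤ[X], Pol A P →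
    ∀ (ι : Type) (S : Finset ι) (g : ι → Fin k → ℕ), FGood E Cc cc (z ^ 4) P S g →
    ∑ x ∈ S, (SSf ((pr z').filter (fun l => z < l)) (sys B P (g x)) - 1) ^ 2 ≤ S.card * (z : ℝ) ^ (-c) := by
  classical
  obtain ⟨C3, c3, hC3, hc3, hc31, h3⟩ := R5_main k A E hA Cc cc hC
  obtain ⟨C1, hC1, h1⟩ := T1_abs k A hA
  obtain ⟨z0, hz0⟩ := w10_gen (k + 1) (max 1 C1) C3 c3 (le_max_left _ _) hC3 hc3 A
  refine ⟨c3 / 2, by linarith, max 2 z0, fun z z' hz hzz' hz'z B hB P hP ι S g hG => ?_⟩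
  have hz2 : 2 ≤ z := (le_max_left _ _).trans hz
  refine hz0 z z' ((le_max_right _ _).trans hz) hzz' hz'z ι S (fun x => sys B P (g x)) (fun x l hl => ?_) ?_
  · refine (h1 B hB P hP (g x) l hl).trans ?_
    have hl0 : (0 : ℝ) < l := by exact_mod_cast hl.pos
    exact div_le_div_of_nonneg_right (le_max_right _ _) hl0.le
  · intro Δ D hD hΔ
    refine h3 B hB P hP z' (hz2.trans hzz') Δ D hD (fun d hd => ?_) ι S g (u10_mono ?_ hG)
    · obtain ⟨g1, g2, g3, g4⟩ := hΔ d hd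
      refine ⟨g1, g2, g3, fun l hl => ⟨(g4 l hl).1, fun hdvd => ?_⟩⟩
      have hB0 : B ≠ 0 := by
        intro h0
        have := hB.deg
        rw [h0, natDegree_zero] at this
        omega
      have hlc : 0 < B.leadingCoeff.natAbs := Int.natAbs_pos.2 (leadingCoeff_ne_zero.2 hB0)
      have h5 := Nat.le_of_dvd hlc hdvd
      have h6 := hB.lc
      have h7 := (g4 l hl).2.2
      omega
    · calc z' ^ 2 ≤ (z ^ 2) ^ 2 := Nat.pow_le_pow_left hz'z 2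
        _ = z ^ 4 := by rw [← pow_mul]

end Pool.Agent.HLA
end

-- from Lib.HLA.W10
section

/-!
# LOGA, chunk W10 (M): the truncated singular series at the levels `z ≤ z'`, all large `z`, for most parameters
-/

open Finset Polynomial

namespace Pool.Agent.HLA

open Pool.Agent.Lib.H68T Pool.Agent.Lib.H18Q Pool.Agent.Lib.H59P Pool.Agent.Lib.H24P
open Pool.Agent.HUP Pool.Agent.H9P

/-- The series at `z'` is the series at `z` times the block. -/
theorem w10_mul {k : ℕ} (φ : Fin k → ℤ → ℤ) (z z' : ℕ) (h : z ≤ z') :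
    SSf (pr z') φ = SSf (pr z) φ * SSf ((pr z').filter (fun l => z < l)) φ := by
  unfold SSf
  rw [← Finset.prod_filter_mul_prod_filter_not (pr z') (fun l => l ≤ z)]
  have h1 : (pr z').filter (fun l => l ≤ z) = pr z := by
    ext l
    unfold pr
    simp only [mem_filter, mem_Icc]
    constructor
    · rintro ⟨⟨⟨h1, h2⟩, h3⟩, h4⟩
      exact ⟨⟨h1, h4⟩, h3⟩
    · rintro ⟨⟨h1, h2⟩, h3⟩
      exact ⟨⟨⟨h1, h2.trans h⟩, h3⟩, h2⟩
  have h2 : (pr z').filter (fun l => ¬ l ≤ z) = (pr z').filter (fun l => z < l) := by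
    ext l
    simp only [mem_filter, not_le]
  rw [h1, h2]

/-- The blocks are multiplicative. -/
theorem w10_mul2 {k : ℕ} (φ : Fin k → ℤ → ℤ) (a b m : ℕ) (h : a ≤ b) (h' : b ≤ m) :
    SSf ((pr m).filter (fun l => a < l)) φ =
      SSf ((pr b).filter (fun l => a < l)) φ * SSf ((pr m).filter (fun l => b < l)) φ := by
  unfold SSf
  rw [← Finset.prod_filter_mul_prod_filter_not ((pr m).filter (fun l => a < l)) (fun l => l ≤ b)]
  have h1 : ((pr m).filter (fun l => a < l)).filter (fun l => l ≤ b) = (pr b).filter (fun l => a < l) := by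
    ext l
    unfold pr
    simp only [mem_filter, mem_Icc]
    constructor
    · rintro ⟨⟨⟨⟨h1, h2⟩, h3⟩, h4⟩, h5⟩
      exact ⟨⟨⟨h1, h5⟩, h3⟩, h4⟩
    · rintro ⟨⟨⟨h1, h2⟩, h3⟩, h4⟩
      exact ⟨⟨⟨⟨h1, h2.trans h'⟩, h3⟩, h4⟩, h2⟩
  have h2 : ((pr m).filter (fun l => a < l)).filter (fun l => ¬ l ≤ b) = (pr m).filter (fun l => b < l) := by
    ext l
    simp only [mem_filter, not_le]
    constructor
    · rintro ⟨⟨h1, h2⟩, h3⟩
      exact ⟨h1, h3⟩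
    · rintro ⟨h1, h2⟩
      exact ⟨⟨h1, lt_of_le_of_lt h h2⟩, h2⟩
  rw [h1, h2]

/-- **W10.** Compare `U10_main` (`H9P/U10.lean`), whose proof should be copied. Proof. `FGTU` gives `E, Cc, cc`; `δ1 = 1/(4 E + 4)`; `A' = A + ∑ D_i + ∑ |a_i| + 1` (`u10_pol`, `u10_lin`). Put `β' i = β i + V`, `V` a multiple of
`z'!` so large that `0 ≤ β' i + ψ_i(t)` on `S = tb 0 (A Z^e + 1)`; `FGTU` with `Qm = z'^4` (`z'^(4E) ≤ Z ≤ s_j`) gives `FGood E Cc cc (z'^4) P S (hh c β')`. `W10_block` (`FGood` is monotone in `Qm`: `u10_mono`) and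
`W10_chain` with `R a b x = SSf ((pr b).filter (a < ·)) (sys B P (hh c β' x))` (`w10_mul2`): outside at most `2 card z^(-c/4)` elements `|R z z' - 1| ≤ 4 z^(-c/4)`. For `t` with `β i + ψ_i(t) ≥ 0` the series are the same as those
for `β'` (`U10_mod`; all primes are `≤ z'`). `w10_mul` and `SSf (pr z) ≥ 0` (`T5_up` of `H24P/T5.lean`, or `P0_tp`): `|SSf (pr z') - SSf (pr z)| = SSf (pr z) |R - 1|`. The number of the `t` is at most `(2A)^d Z^(∑ e)` (`u10_card`; `A ≥ 1`,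
for `A = 0` use `A + 1`). `C1 = 4 + 2 (2A)^d`. -/
theorem W10_main {k d : ℕ} (c : Fin k → Fin d → ℤ) (e : Fin d → ℕ) (D : Fin k → ℕ) (a : Fin k → ℤ)
    (hF : FGTU c D a) (he : ∀ j, 1 ≤ e j) (hD : ∀ i, 1 ≤ D i) (P : Fin k → ℤ[X]) (hP : HasD D a P) :
    ∃ δ1 : ℝ, 0 < δ1 ∧ ∀ A : ℕ, ∃ c0 C1 : ℝ, 0 < c0 ∧ 1 ≤ C1 ∧ ∃ z0 : ℕ, ∀ z z' Z : ℕ, z0 ≤ z → z ≤ z' →
    (z' : ℝ) ≤ (Z : ℝ) ^ δ1 → ∀ B : ℤ[X], Lin A B → ∀ β : Fin k → ℤ,
    (((tb 0 fun j => A * Z ^ e j + 1).filter fun t => (∀ i, 0 ≤ β i + lf c t i) ∧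
      C1 * (z : ℝ) ^ (-c0) * SSf (pr z) (sys B P (hh c β t)) <
        |SSf (pr z') (sys B P (hh c β t)) - SSf (pr z) (sys B P (hh c β t))|).card : ℝ) ≤
      C1 * (Z : ℝ) ^ (∑ j, e j) * (z : ℝ) ^ (-c0) := by
  classical
  obtain ⟨E, Cc, cc, hpar, hFG⟩ := hF
  obtain ⟨δ1, hδ1d⟩ : ∃ δ1 : ℝ, δ1 = 1 / (4 * E + 4) := ⟨_, rfl⟩
  have hE0 : (0 : ℝ) ≤ E := Nat.cast_nonneg E
  have hδ10 : 0 < δ1 := by
    rw [hδ1d]
    positivity
  have hδ1E : δ1 * (4 * E) ≤ 1 := by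
    rw [hδ1d, div_mul_eq_mul_div, one_mul, div_le_one (by positivity)]
    linarith
  refine ⟨δ1, hδ10, fun A => ?_⟩
  obtain ⟨A', hA'd⟩ : ∃ A' : ℕ, A' = (A + 1) + ∑ i, D i + ∑ i, (a i).natAbs := ⟨_, rfl⟩
  obtain ⟨cB, hcB, zB, hblk⟩ := W10_block k A' E (by omega) Cc cc hpar
  obtain ⟨c0, hc0d⟩ : ∃ c0 : ℝ, c0 = cB / 4 := ⟨_, rfl⟩
  have hc0 : 0 < c0 := by
    rw [hc0d]
    linarith
  obtain ⟨z0, hz0d⟩ : ∃ z0 : ℕ, z0 = max (max 2 zB) ⌈(4 : ℝ) ^ (4 / cB)⌉₊ := ⟨_, rfl⟩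
  have hz02 : 2 ≤ z0 := by
    rw [hz0d]
    exact (le_max_left _ _).trans (le_max_left _ _)
  have hz0B : zB ≤ z0 := by
    rw [hz0d]
    exact (le_max_right _ _).trans (le_max_left _ _)
  have hz04 : (4 : ℝ) ≤ (z0 : ℝ) ^ (cB / 4) := by
    have h1 : (4 : ℝ) ^ (4 / cB) ≤ z0 := by
      refine (Nat.le_ceil _).trans ?_
      rw [hz0d]
      exact_mod_cast le_max_right _ _
    have h2 : ((4 : ℝ) ^ (4 / cB)) ^ (cB / 4) ≤ (z0 : ℝ) ^ (cB / 4) :=
      Real.rpow_le_rpow (by positivity) h1 (by positivity)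
    rw [← Real.rpow_mul (by norm_num)] at h2
    have h3 : 4 / cB * (cB / 4) = 1 := by
      field_simp
    rw [h3, Real.rpow_one] at h2
    exact h2
  have hAd : (0 : ℝ) ≤ (2 * A) ^ d := by positivity
  refine ⟨c0, 4 + 2 * (2 * A) ^ d, hc0, by linarith, z0, ?_⟩
  intro z z' Z hz hzz' hz'Z B hB β
  have hA : 1 ≤ A := by
    rcases Nat.eq_zero_or_pos A with h | h
    · exfalso
      have h1 := hB.lc
      rw [h, Nat.le_zero, Int.natAbs_eq_zero, leadingCoeff_eq_zero] at h1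
      have h2 := hB.deg
      rw [h1, natDegree_zero] at h2
      omega
    · exact h
  have hz'1 : 1 ≤ z' := by omega
  have hz'r : (1 : ℝ) ≤ z' := by exact_mod_cast hz'1
  have hzr : (1 : ℝ) ≤ z := by exact_mod_cast (show 1 ≤ z by omega)
  have hzp : (0 : ℝ) < z := by linarith
  have hZ1 : 1 ≤ Z := by
    rcases Nat.eq_zero_or_pos Z with h | h
    · rw [h, Nat.cast_zero, Real.zero_rpow hδ10.ne'] at hz'Z
      linarith
    · exact h
  have hZr : (1 : ℝ) ≤ Z := by exact_mod_cast hZ1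
  have hZ0 : (0 : ℝ) < Z := by linarith
  have hwE : (z' ^ 4) ^ E ≤ Z := by
    have h1 : ((z' : ℝ) ^ 4) ^ E ≤ Z := by
      calc ((z' : ℝ) ^ 4) ^ E = (z' : ℝ) ^ (4 * E) := (pow_mul _ _ _).symm
        _ ≤ ((Z : ℝ) ^ δ1) ^ (4 * E) := pow_le_pow_left₀ (Nat.cast_nonneg z') hz'Z _
        _ = (Z : ℝ) ^ (δ1 * (4 * E)) := by
            rw [← Real.rpow_natCast, ← Real.rpow_mul hZ0.le]
            congr 1
            push_cast
            ring
        _ ≤ (Z : ℝ) ^ (1 : ℝ) := Real.rpow_le_rpow_of_exponent_le hZr hδ1E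
        _ = Z := Real.rpow_one _
    exact_mod_cast h1
  obtain ⟨s, hsd⟩ : ∃ s : Fin d → ℕ, s = fun j => A * Z ^ e j + 1 := ⟨_, rfl⟩
  rw [← hsd]
  have hsj : ∀ j, (z' ^ 4) ^ E ≤ s j := by
    intro j
    rw [hsd]
    have h1 : Z ≤ Z ^ e j := by
      calc Z = Z ^ 1 := (pow_one Z).symm
        _ ≤ Z ^ e j := Nat.pow_le_pow_right hZ1 (he j)
    have h2 : Z ^ e j ≤ A * Z ^ e j := Nat.le_mul_of_pos_left _ hA
    show (z' ^ 4) ^ E ≤ A * Z ^ e j + 1
    omega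
  obtain ⟨N, hNd⟩ : ∃ N : ℕ, N = ∑ i, (β i).natAbs + ∑ t ∈ tb 0 s, ∑ i, (lf c t i).natAbs := ⟨_, rfl⟩
  obtain ⟨V, hVd⟩ : ∃ V : ℕ, V = z'.factorial * N := ⟨_, rfl⟩
  have hNV : N ≤ V := by
    rw [hVd]
    exact Nat.le_mul_of_pos_left _ (Nat.factorial_pos z')
  obtain ⟨β', hβ'd⟩ : ∃ β' : Fin k → ℤ, β' = fun i => β i + (V : ℤ) := ⟨_, rfl⟩
  have hnn : ∀ t ∈ tb 0 s, ∀ i, 0 ≤ β' i + lf c t i := by
    intro t ht i
    have h1 := Finset.single_le_sum (f := fun i => (β i).natAbs) (fun _ _ => Nat.zero_le _) (mem_univ i)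
    have h2 := Finset.single_le_sum (f := fun i => (lf c t i).natAbs) (fun _ _ => Nat.zero_le _) (mem_univ i)
    have h3 := Finset.single_le_sum (f := fun t => ∑ i, (lf c t i).natAbs) (fun _ _ => Nat.zero_le _) ht
    rw [hβ'd]
    show 0 ≤ β i + (V : ℤ) + lf c t i
    omega
  have hG : FGood E Cc cc (z' ^ 4) P (tb 0 s) (hh c β') :=
    hFG P hP (z' ^ 4) 0 s β' (Nat.one_le_pow _ _ hz'1) hsj hnn
  have hmod : ∀ t : Fin d → ℤ, (∀ i, 0 ≤ β i + lf c t i) → ∀ y : ℕ, y ≤ z' →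
      SSf (pr y) (sys B P (hh c β t)) = SSf (pr y) (sys B P (hh c β' t)) := by
    intro t ht y hy
    refine U10_mod _ B P _ _ fun l hl i => ?_
    have h1 : ((hh c β t i : ℕ) : ℤ) - (hh c β' t i : ℕ) = -(V : ℤ) := by
      show (((β i + lf c t i).toNat : ℕ) : ℤ) - (((β' i + lf c t i).toNat : ℕ) : ℤ) = -(V : ℤ)
      rw [hβ'd]
      have h2 := ht i
      rw [Int.toNat_of_nonneg h2, Int.toNat_of_nonneg (by simp only; omega)]
      ring
    rw [h1, dvd_neg]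
    unfold pr at hl
    rw [mem_filter, mem_Icc] at hl
    have h3 : l ∣ V := by
      rw [hVd]
      exact Dvd.dvd.mul_right (Nat.dvd_factorial hl.1.1 (hl.1.2.trans hy)) _
    exact_mod_cast h3
  have hPol : Pol A' P := hA'd ▸ u10_pol D a P hP hD (A + 1)
  have hBL : Lin A' B := u10_lin (by omega) hB
  have hch := W10_chain (tb 0 s)
    (fun a b t => SSf ((pr b).filter (fun l => a < l)) (sys B P (hh c β' t)))
    (fun a b m t h1 h2 => w10_mul2 _ a b m h1 h2) cB hcB z0 hz02 hz04 z'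
    (fun a b h1 h2 h3 h4 => hblk a b (hz0B.trans h1) h2 h3 B hBL P hPol _ (tb 0 s) (hh c β')
      (u10_mono (Nat.pow_le_pow_left (h2.trans h4) 4) hG)) z hz hzz'
  rw [← hc0d] at hch
  obtain ⟨u, hu⟩ : ∃ u : ℝ, u = (z : ℝ) ^ (-c0) := ⟨_, rfl⟩
  have hu0 : 0 < u := by
    rw [hu]
    exact Real.rpow_pos_of_pos hzp _
  rw [← hu] at hch ⊢
  have hsub : ((tb 0 s).filter fun t => (∀ i, 0 ≤ β i + lf c t i) ∧
      (4 + 2 * (2 * (A : ℝ)) ^ d) * u * SSf (pr z) (sys B P (hh c β t)) <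
        |SSf (pr z') (sys B P (hh c β t)) - SSf (pr z) (sys B P (hh c β t))|) ⊆
      (tb 0 s).filter fun t => 4 * u <
        |SSf ((pr z').filter (fun l => z < l)) (sys B P (hh c β' t)) - 1| := by
    intro t ht
    rw [mem_filter] at ht ⊢
    obtain ⟨ht1, ht2, ht3⟩ := ht
    refine ⟨ht1, ?_⟩
    rw [hmod t ht2 z hzz', hmod t ht2 z' le_rfl, w10_mul (sys B P (hh c β' t)) z z' hzz'] at ht3
    have hs0 : 0 ≤ SSf (pr z) (sys B P (hh c β' t)) :=
      (T5_up (sys B P (hh c β' t)) z (by omega) (pr z) (Finset.Subset.refl _)).1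
    obtain ⟨σ, hσ⟩ : ∃ σ : ℝ, σ = SSf (pr z) (sys B P (hh c β' t)) := ⟨_, rfl⟩
    obtain ⟨ρ, hρ⟩ : ∃ ρ : ℝ, ρ = SSf ((pr z').filter (fun l => z < l)) (sys B P (hh c β' t)) := ⟨_, rfl⟩
    rw [← hσ, ← hρ] at ht3
    rw [← hσ] at hs0
    rw [← hρ]
    have h1 : |σ * ρ - σ| = σ * |ρ - 1| := by
      rw [show σ * ρ - σ = σ * (ρ - 1) by ring, abs_mul, abs_of_nonneg hs0]
    rw [h1] at ht3
    by_contra hlt
    rw [not_lt] at hlt
    have h2 : σ * |ρ - 1| ≤ σ * (4 * u) := mul_le_mul_of_nonneg_left hlt hs0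
    have h3 : 0 ≤ 2 * (2 * (A : ℝ)) ^ d * u * σ := by positivity
    nlinarith
  have hcd : ((tb 0 s).card : ℝ) ≤ (2 * A) ^ d * (Z : ℝ) ^ (∑ j, e j) := by
    rw [hsd]
    exact u10_card e A Z hA hZ1
  have hZs : (0 : ℝ) ≤ (Z : ℝ) ^ (∑ j, e j) := by positivity
  calc ((((tb 0 s).filter fun t => (∀ i, 0 ≤ β i + lf c t i) ∧
      (4 + 2 * (2 * (A : ℝ)) ^ d) * u * SSf (pr z) (sys B P (hh c β t)) <
        |SSf (pr z') (sys B P (hh c β t)) - SSf (pr z) (sys B P (hh c β t))|).card : ℕ) : ℝ)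
      ≤ ((((tb 0 s).filter fun t => 4 * u <
        |SSf ((pr z').filter (fun l => z < l)) (sys B P (hh c β' t)) - 1|).card : ℕ) : ℝ) := by
        exact_mod_cast card_le_card hsub
    _ ≤ 2 * (tb 0 s).card * u := hch
    _ ≤ 2 * ((2 * A) ^ d * (Z : ℝ) ^ (∑ j, e j)) * u := by
        refine mul_le_mul_of_nonneg_right ?_ hu0.le
        linarith
    _ ≤ (4 + 2 * (2 * A) ^ d) * (Z : ℝ) ^ (∑ j, e j) * u := by
        refine mul_le_mul_of_nonneg_right ?_ hu0.le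
        nlinarith

end Pool.Agent.HLA
end

-- from Lib.HUK.C5
section

/-!
# HUK, chunk C5 (M): the slices of a cube

`h_0 = h`, `h_i = h + e_i`: the vertex `y + ω · h` is `y + |ω| h + ω · (0, e)`, grouped by `|ω| = j`.
-/

open Finset

namespace Pool.Agent.HUK

/-- The product of the vertices with `j` coordinates `true`, translated by `∑ e`. -/
noncomputable def sl {s : ℕ} (f : ℤ → ℂ) (e : Fin s → ℤ) (j : ℕ) (x : ℤ) : ℂ :=
  ∏ ω ∈ univ.filter (fun ω : Fin (s + 1) → Bool => sg ω = j),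
    cj j (f (x - ∑ i, e i + vt ω (Fin.cons 0 e : Fin (s + 1) → ℤ)))

private theorem c5_cj_norm (j : ℕ) (z : ℂ) : ‖cj j z‖ = ‖z‖ := by
  unfold cj
  split_ifs
  · rfl
  · exact RCLike.norm_conj z

private theorem c5_cj_zero (j : ℕ) : cj j 0 = 0 := by
  unfold cj
  split_ifs
  · rfl
  · exact map_zero _

private theorem c5_vt_succ {s : ℕ} (ω : Fin (s + 1) → Bool) (g : Fin (s + 1) → ℤ) :
    vt ω g = (if ω 0 then g 0 else 0) + ∑ i : Fin s, if ω i.succ then g i.succ else 0 := by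
  unfold vt
  rw [Fin.sum_univ_succ]

private theorem c5_vt_cons {s : ℕ} (ω : Fin (s + 1) → Bool) (e : Fin s → ℤ) :
    vt ω (Fin.cons 0 e : Fin (s + 1) → ℤ) = ∑ i : Fin s, if ω i.succ then e i else 0 := by
  rw [c5_vt_succ]
  simp only [Fin.cons_zero, Fin.cons_succ, ite_self, zero_add]

private theorem c5_vt_add {s : ℕ} (ω : Fin s → Bool) (a : ℤ) (g : Fin s → ℤ) :
    vt ω (fun i => a + g i) = (sg ω : ℤ) * a + vt ω g := by
  unfold vt sg
  have h1 : ∀ i : Fin s, (if ω i then a + g i else 0) = (if ω i = true then a else 0) + (if ω i then g i else 0) := by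
    intro i
    split_ifs
    · rfl
    · rfl
  rw [Finset.sum_congr rfl (fun i _ => h1 i), Finset.sum_add_distrib, ← Finset.sum_filter, Finset.sum_const,
    nsmul_eq_mul]

private theorem c5_all {s : ℕ} (ω : Fin (s + 1) → Bool) (h : sg ω = s + 1) : ∀ i, ω i = true := by
  intro i
  unfold sg at h
  have h1 : (univ.filter fun i => ω i = true) = univ := by
    apply Finset.eq_univ_of_card
    rw [h, Fintype.card_fin]
  have h2 : i ∈ (univ.filter fun i => ω i = true) := by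
    rw [h1]
    exact mem_univ i
  exact (mem_filter.mp h2).2

private theorem c5_none {s : ℕ} (ω : Fin s → Bool) (h : sg ω = 0) : ∀ i, ω i = false := by
  intro i
  unfold sg at h
  rw [Finset.card_eq_zero] at h
  by_contra hc
  have h2 : i ∈ (univ.filter fun i => ω i = true) := mem_filter.mpr ⟨mem_univ i, by simpa using hc⟩
  rw [h] at h2
  exact absurd h2 (Finset.notMem_empty i)

private theorem c5_sg_exists (s j : ℕ) (hj : j ≤ s) : ∃ ω : Fin s → Bool, sg ω = j := by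
  classical
  obtain ⟨t, -, ht⟩ := Finset.exists_subset_card_eq (s := (univ : Finset (Fin s))) (n := j)
    (by rw [Finset.card_univ, Fintype.card_fin]; exact hj)
  refine ⟨fun i => decide (i ∈ t), ?_⟩
  unfold sg
  have h1 : (univ.filter fun i => decide (i ∈ t) = true) = t := by
    ext i
    simp
  rw [h1, ht]

private theorem c5_off {s : ℕ} (Y : ℕ) (ω : Fin (s + 1) → Bool) (e : Fin s → ℤ) (he : e ∈ bxS s (4 * Y)) :
    |vt ω (Fin.cons 0 e : Fin (s + 1) → ℤ) - ∑ i, e i| ≤ s * (4 * Y) := by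
  rw [c5_vt_cons, ← Finset.sum_sub_distrib]
  refine (Finset.abs_sum_le_sum_abs _ _).trans ?_
  have h1 : ∀ i ∈ (univ : Finset (Fin s)), |(if ω i.succ then e i else 0) - e i| ≤ 4 * (Y : ℤ) := by
    intro i _
    have h2 := Finset.mem_Ioo.mp (Fintype.mem_piFinset.mp he i)
    push_cast at h2
    split_ifs
    · rw [sub_self, abs_zero]
      positivity
    · rw [zero_sub, abs_neg, abs_le]
      exact ⟨h2.1.le, h2.2.le⟩
  refine (Finset.sum_le_sum h1).trans ?_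
  rw [Finset.sum_const, Finset.card_univ, Fintype.card_fin, nsmul_eq_mul]

private theorem c5_last {s : ℕ} (f : ℤ → ℂ) (e : Fin s → ℤ) (x : ℤ) : sl f e (s + 1) x = cj (s + 1) (f x) := by
  unfold sl
  have h1 : (univ.filter fun ω : Fin (s + 1) → Bool => sg ω = s + 1) = {fun _ => true} := by
    ext ω
    rw [mem_filter, mem_singleton]
    constructor
    · rintro ⟨-, h⟩
      funext i
      exact c5_all ω h i
    · rintro rfl
      refine ⟨mem_univ _, ?_⟩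
      unfold sg
      simp
  rw [h1, Finset.prod_singleton, c5_vt_cons]
  simp

private theorem c5_prod {s : ℕ} (f : ℤ → ℂ) (e : Fin s → ℤ) (a y : ℤ) :
    DV (Fin.cons a (fun i => a + e i) : Fin (s + 1) → ℤ) f y =
      ∏ j ∈ range (s + 2), sl f e j (y + j * a + ∑ i, e i) := by
  unfold DV
  rw [DL_prod]
  have hc : (Fin.cons a (fun i => a + e i) : Fin (s + 1) → ℤ) = fun i => a + (Fin.cons 0 e : Fin (s + 1) → ℤ) i := by
    funext i
    refine Fin.cases ?_ (fun i => ?_) i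
    · simp
    · simp
  have hmap : ∀ ω ∈ (univ : Finset (Fin (s + 1) → Bool)), sg ω ∈ range (s + 2) := by
    intro ω _
    rw [mem_range]
    unfold sg
    have h1 := Finset.card_le_univ (univ.filter fun i => ω i = true)
    rw [Fintype.card_fin] at h1
    omega
  rw [← Finset.prod_fiberwise_of_maps_to hmap]
  refine Finset.prod_congr rfl fun j _ => ?_
  unfold sl
  refine Finset.prod_congr rfl fun ω hω => ?_
  have hj : sg ω = j := (mem_filter.mp hω).2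
  rw [hc, c5_vt_add, hj]
  congr 2
  ring

private theorem c5_sub (I : Finset ℤ) (Φ : ℤ → ℂ) (c : ℤ) (h1 : ∀ y, y ∉ I → Φ y = 0) (h2 : ∀ y, y + c ∉ I → Φ y = 0) :
    ∑ y ∈ I, Φ y = ∑ m ∈ I, Φ (m - c) := by
  have e1 : ∑ y ∈ I, Φ y = ∑ y ∈ I.filter (fun y => y + c ∈ I), Φ y := by
    rw [Finset.sum_filter]
    refine Finset.sum_congr rfl fun y _ => ?_
    split_ifs with h
    · rfl
    · exact h2 y h
  have e2 : ∑ m ∈ I, Φ (m - c) = ∑ m ∈ I.filter (fun m => m - c ∈ I), Φ (m - c) := by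
    rw [Finset.sum_filter]
    refine Finset.sum_congr rfl fun m _ => ?_
    split_ifs with h
    · rfl
    · exact h1 _ h
  rw [e1, e2]
  refine Finset.sum_bij' (fun y _ => y + c) (fun m _ => m - c) ?_ ?_ ?_ ?_ ?_
  · intro y hy
    rw [mem_filter] at hy ⊢
    rw [add_sub_cancel_right]
    exact ⟨hy.2, hy.1⟩
  · intro m hm
    rw [mem_filter] at hm ⊢
    rw [sub_add_cancel]
    exact ⟨hm.2, hm.1⟩
  · intro y _
    exact add_sub_cancel_right _ _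
  · intro m _
    exact sub_add_cancel _ _
  · intro y _
    rw [add_sub_cancel_right]

theorem C5_zero {s : ℕ} (f : ℤ → ℂ) (e : Fin s → ℤ) (x : ℤ) : sl f e 0 x = f (x - ∑ i, e i) := by
  unfold sl
  have h1 : (univ.filter fun ω : Fin (s + 1) → Bool => sg ω = 0) = {fun _ => false} := by
    ext ω
    rw [mem_filter, mem_singleton]
    constructor
    · rintro ⟨-, h⟩
      funext i
      exact c5_none ω h i
    · rintro rfl
      refine ⟨mem_univ _, ?_⟩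
      unfold sg
      simp
  rw [h1, Finset.prod_singleton, c5_vt_cons]
  simp [cj]

/-- `|∑ e| ≤ 4 s Y` and `|vt ω (0, e)| ≤ 4 s Y`; for `j ≤ s + 1` some `ω` has `sg ω = j` (the first `j` coordinates `true`), and `f` vanishes at its
vertex if `x` is not in `[-(8s+1)Y, (8s+1)Y)`. -/
theorem C5_bdd (Y s j : ℕ) (hj : j ≤ s + 1) (f : ℤ → ℂ) (hf : Bdd Y f) (e : Fin s → ℤ) (he : e ∈ bxS s (4 * Y)) :
    Bdd ((8 * s + 1) * Y) (sl f e j) := by
  refine ⟨fun y => ?_, fun y hy => ?_⟩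
  · unfold sl
    rw [norm_prod]
    refine Finset.prod_le_one (fun _ _ => norm_nonneg _) fun ω _ => ?_
    rw [c5_cj_norm]
    exact hf.le _
  · obtain ⟨ω, hω⟩ := c5_sg_exists (s + 1) j hj
    unfold sl
    refine Finset.prod_eq_zero (mem_filter.mpr ⟨mem_univ ω, hω⟩) ?_
    rw [hf.sup, c5_cj_zero]
    have h1 := abs_le.mp (c5_off Y ω e he)
    intro hc
    apply hy
    rw [mem_Ico] at hc ⊢
    have h2 : (0 : ℤ) ≤ (s : ℤ) * Y := by positivity
    have e1 : (((8 * s + 1) * Y : ℕ) : ℤ) = 8 * ((s : ℤ) * Y) + Y := by push_cast; ring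
    have e2 : (s : ℤ) * (4 * Y) = 4 * ((s : ℤ) * Y) := by ring
    rw [e1]
    rw [e2] at h1
    constructor <;> linarith [hc.1, hc.2, h1.1, h1.2]

/-- Proof. (1) `bxS_sum`, then for fixed `h = h_0 ∈ Ioo (-2Y) (2Y)` substitute `h_(i+1) = h + e_i`: the `e` with all `|h + e_i| < 2Y` are in
`bxS s (4Y)`, and for the other `e ∈ bxS s (4Y)` the term `FF Y (cons h (h + e)) f` vanishes (`D0_large` in `D0.lean`, or directly: a vertex is outside).
(2) `DL_prod` (`P0`): `DV (cons h (h + e)) f y = ∏_ω cj (sg ω) (f (y + vt ω (cons h (h + e))))` and `vt ω (cons h (h + e)) = sg ω • h + vt ω (cons 0 e)`.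
Group by `sg ω = j ∈ range (s + 2)` (`prod_fiberwise_of_maps_to`): `= ∏_{j < s+2} sl f e j (y + j h + ∑ e)`.
The factor `j = s + 1` (only `ω = true`, `vt = ∑ e`) is `cj (s+1) (f (y + (s+1) h + ∑ e))`.
(3) Substitute `m = y + (s+1) h + ∑ e`, so `y + j h + ∑ e = m - (s + 1 - j) h`: the sum over `y ∈ [-Y, Y)` becomes a sum over `m ∈ [-Y, Y)` because
the summand vanishes unless both `y` (factor `j = 0`, `C5_zero`) and `m` are in `[-Y, Y)`. (4) Exchange the sums;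
`∑_{h ∈ Ioo (-2Y) (2Y)} ∏_{j < s+1} sl f e j (m - (s+1-j) h) = Psi Y (s+1) (sl f e) m`, and the window may be enlarged to `Y'`: a non-zero term has
`f (m - (s+1) h - ∑ e) ≠ 0` (`j = 0`) and `f (m - s h - ∑ e) ≠ 0` (a factor of `j = 1`: the `ω` with only the coordinate `0` true), so `|h| < 2Y`. (Needs `1 ≤ s`.) -/
theorem C5_slice (Y Y' s : ℕ) (hs : 1 ≤ s) (hY : Y ≤ Y') (f : ℤ → ℂ) (hf : ∀ y, y ∉ Ico (-(Y : ℤ)) Y → f y = 0) :
    ∑ h ∈ bxS (s + 1) (2 * Y), FF Y h f =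
      ∑ e ∈ bxS s (4 * Y), ∑ m ∈ Ico (-(Y : ℤ)) Y, cj (s + 1) (f m) * Psi Y' (s + 1) (sl f e) m := by
  -- the change of variables in the directions
  have step1 : ∀ a : ℤ, ∑ h ∈ bxS s (2 * Y), FF Y (Fin.cons a h : Fin (s + 1) → ℤ) f =
      if a ∈ Ioo (-((2 * Y : ℕ) : ℤ)) ((2 * Y : ℕ) : ℤ) then
        ∑ e ∈ bxS s (4 * Y), FF Y (Fin.cons a (fun i => a + e i) : Fin (s + 1) → ℤ) f else
        ∑ h ∈ bxS s (2 * Y), FF Y (Fin.cons a h : Fin (s + 1) → ℤ) f := by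
    intro a
    split_ifs with ha
    · rw [mem_Ioo] at ha
      have e1 : ∑ e ∈ bxS s (4 * Y), FF Y (Fin.cons a (fun i => a + e i) : Fin (s + 1) → ℤ) f =
          ∑ e ∈ (bxS s (4 * Y)).filter (fun e => ∀ i, |a + e i| < 2 * Y),
            FF Y (Fin.cons a (fun i => a + e i) : Fin (s + 1) → ℤ) f := by
        rw [Finset.sum_filter]
        refine Finset.sum_congr rfl fun e _ => ?_
        split_ifs with h
        · rfl
        · push Not at h
          obtain ⟨i, hi⟩ := h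
          refine D0_large hf _ i.succ ?_
          rw [Fin.cons_succ]
          exact hi
      rw [e1]
      refine Finset.sum_bij' (fun h _ => fun i => h i - a) (fun e _ => fun i => a + e i) ?_ ?_ ?_ ?_ ?_
      · intro h hh
        have hh' := Fintype.mem_piFinset.mp hh
        rw [mem_filter]
        refine ⟨Fintype.mem_piFinset.mpr fun i => ?_, fun i => ?_⟩
        · have h1 := mem_Ioo.mp (hh' i)
          rw [mem_Ioo]
          push_cast at h1 ha ⊢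
          constructor <;> linarith [h1.1, h1.2, ha.1, ha.2]
        · have h1 := mem_Ioo.mp (hh' i)
          push_cast at h1
          rw [add_sub_cancel, abs_lt]
          exact h1
      · intro e he
        rw [mem_filter] at he
        refine Fintype.mem_piFinset.mpr fun i => ?_
        have h1 := abs_lt.mp (he.2 i)
        rw [mem_Ioo]
        push_cast
        exact h1
      · intro h _
        funext i
        exact add_sub_cancel _ _
      · intro e _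
        funext i
        exact add_sub_cancel_left _ _
      · intro h _
        have e9 : (fun i => a + (h i - a)) = h := by
          funext i
          exact add_sub_cancel _ _
        show FF Y (Fin.cons a h : Fin (s + 1) → ℤ) f = FF Y (Fin.cons a (fun i => a + (h i - a)) : Fin (s + 1) → ℤ) f
        rw [e9]
    · rfl
  -- the sum over the base point
  have step2 : ∀ (a : ℤ) (e : Fin s → ℤ), FF Y (Fin.cons a (fun i => a + e i) : Fin (s + 1) → ℤ) f =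
      ∑ m ∈ Ico (-(Y : ℤ)) Y, cj (s + 1) (f m) *
        ∏ j ∈ range (s + 1), sl f e j (m - (((s + 1 : ℕ) : ℤ) - j) * a) := by
    intro a e
    unfold FF
    have h1 : ∀ y, DV (Fin.cons a (fun i => a + e i) : Fin (s + 1) → ℤ) f y =
        (∏ j ∈ range (s + 1), sl f e j (y + j * a + ∑ i, e i)) *
          cj (s + 1) (f (y + ((s + 1 : ℕ) : ℤ) * a + ∑ i, e i)) := by
      intro y
      rw [c5_prod, Finset.prod_range_succ, c5_last]
    rw [Finset.sum_congr rfl fun y _ => h1 y]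
    rw [c5_sub (Ico (-(Y : ℤ)) Y) (fun y => (∏ j ∈ range (s + 1), sl f e j (y + j * a + ∑ i, e i)) *
          cj (s + 1) (f (y + ((s + 1 : ℕ) : ℤ) * a + ∑ i, e i))) (((s + 1 : ℕ) : ℤ) * a + ∑ i, e i)]
    · refine Finset.sum_congr rfl fun m _ => ?_
      have e2 : m - (((s + 1 : ℕ) : ℤ) * a + ∑ i, e i) + ((s + 1 : ℕ) : ℤ) * a + ∑ i, e i = m := by ring
      show (∏ j ∈ range (s + 1), sl f e j (m - (((s + 1 : ℕ) : ℤ) * a + ∑ i, e i) + j * a + ∑ i, e i)) *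
        cj (s + 1) (f (m - (((s + 1 : ℕ) : ℤ) * a + ∑ i, e i) + ((s + 1 : ℕ) : ℤ) * a + ∑ i, e i)) = _
      rw [e2, mul_comm]
      refine congrArg _ (Finset.prod_congr rfl fun j _ => ?_)
      refine congrArg _ ?_
      ring
    · intro y hy
      refine mul_eq_zero_of_left (Finset.prod_eq_zero (mem_range.mpr (Nat.succ_pos s)) ?_) _
      rw [C5_zero]
      have e3 : y + ((0 : ℕ) : ℤ) * a + ∑ i, e i - ∑ i, e i = y := by push_cast; ring
      rw [e3]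
      exact hf y hy
    · intro y hy
      rw [← add_assoc] at hy
      show _ * cj (s + 1) (f (y + ((s + 1 : ℕ) : ℤ) * a + ∑ i, e i)) = 0
      rw [hf _ hy, c5_cj_zero, mul_zero]
  -- the window
  have step3 : ∀ (e : Fin s → ℤ) (m : ℤ), Psi Y' (s + 1) (sl f e) m =
      ∑ a ∈ Ioo (-((2 * Y : ℕ) : ℤ)) ((2 * Y : ℕ) : ℤ), ∏ j ∈ range (s + 1), sl f e j (m - (((s + 1 : ℕ) : ℤ) - j) * a) := by
    intro e m
    unfold Psi
    symm
    refine Finset.sum_subset ?_ ?_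
    · intro a ha
      rw [mem_Ioo] at ha ⊢
      push_cast at ha
      constructor <;> omega
    · intro a _ ha
      by_contra hne
      rw [← ne_eq, Finset.prod_ne_zero_iff] at hne
      have h0 := hne 0 (mem_range.mpr (by omega))
      have h1 := hne 1 (mem_range.mpr (by omega))
      rw [C5_zero] at h0
      have i0 : m - (((s + 1 : ℕ) : ℤ) - ((0 : ℕ) : ℤ)) * a - ∑ i, e i ∈ Ico (-(Y : ℤ)) Y := by
        by_contra hc
        exact h0 (hf _ hc)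
      have i1 : m - (((s + 1 : ℕ) : ℤ) - ((1 : ℕ) : ℤ)) * a - ∑ i, e i ∈ Ico (-(Y : ℤ)) Y := by
        by_contra hc
        apply h1
        unfold sl
        refine Finset.prod_eq_zero (i := (Fin.cons true (fun _ => false) : Fin (s + 1) → Bool))
          (mem_filter.mpr ⟨mem_univ _, ?_⟩) ?_
        · rw [p0_sg_cons]
          unfold sg
          simp
        · rw [c5_vt_cons]
          simp only [Fin.cons_succ, Bool.false_eq_true, if_false, Finset.sum_const_zero, add_zero]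
          rw [hf _ hc, c5_cj_zero]
      apply ha
      rw [mem_Ico] at i0 i1
      rw [mem_Ioo]
      have e0 : m - (((s + 1 : ℕ) : ℤ) - ((1 : ℕ) : ℤ)) * a - ∑ i, e i =
          m - (((s + 1 : ℕ) : ℤ) - ((0 : ℕ) : ℤ)) * a - ∑ i, e i + a := by push_cast; ring
      rw [e0] at i1
      push_cast at i0 i1 ⊢
      constructor <;> linarith [i0.1, i0.2, i1.1, i1.2]
  rw [D0_bx, Finset.sum_congr rfl fun a ha => by
    rw [step1 a, if_pos ha, Finset.sum_congr rfl fun e _ => step2 a e]]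
  rw [Finset.sum_comm]
  refine Finset.sum_congr rfl fun e _ => ?_
  rw [Finset.sum_comm]
  refine Finset.sum_congr rfl fun m _ => ?_
  rw [step3, Finset.mul_sum]

end Pool.Agent.HUK
end

-- from Lib.HUK.C7
section

/-!
# HUK, chunk C7 (M): the start of the induction, `U³`
-/

open Finset

namespace Pool.Agent.HUK

open Pool.Agent.H9U (JJ cutJ Er Rgm)

theorem c7_bx0 {M : Type*} [AddCommMonoid M] (N : ℕ) (F : (Fin 0 → ℤ) → M) :
    ∑ h ∈ bxS 0 N, F h = F (fun i => i.elim0) := by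
  have h : bxS 0 N = {fun i => i.elim0} := by
    ext x
    simp only [bxS, Fintype.mem_piFinset, mem_singleton]
    constructor
    · intro _; funext i; exact i.elim0
    · intro _ i; exact i.elim0
  rw [h, sum_singleton]

theorem c7_spt (X : ℕ) (F : ℤ → ℂ) : Spt (4 * X) (cutJ X F) := by
  intro y hy
  unfold cutJ
  rw [if_neg]
  intro h
  apply hy
  unfold JJ at h
  rw [mem_Ico] at h ⊢
  push_cast
  omega

theorem c7_T (X : ℕ) (F : ℤ → ℂ) (a b : ℤ) :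
    ∑ y ∈ Ico (-((4 * X : ℕ) : ℤ)) ((4 * X : ℕ) : ℤ), DD b (DD a (cutJ X F)) y =
      ∑ m ∈ JJ X, F m * (starRingEnd ℂ) (cutJ X F (m + a)) * (starRingEnd ℂ) (cutJ X F (m + b)) *
        cutJ X F (m + a + b) := by
  have e : ∀ y, DD b (DD a (cutJ X F)) y = cutJ X F y * (starRingEnd ℂ) (cutJ X F (y + a)) *
      (starRingEnd ℂ) (cutJ X F (y + b)) * cutJ X F (y + a + b) := by
    intro y
    unfold DD
    rw [map_mul, Complex.conj_conj, add_right_comm y b a]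
    ring
  rw [sum_congr rfl fun y _ => e y]
  symm
  have e2 : ∀ m ∈ JJ X, F m * (starRingEnd ℂ) (cutJ X F (m + a)) * (starRingEnd ℂ) (cutJ X F (m + b)) *
        cutJ X F (m + a + b) = cutJ X F m * (starRingEnd ℂ) (cutJ X F (m + a)) *
      (starRingEnd ℂ) (cutJ X F (m + b)) * cutJ X F (m + a + b) := by
    intro m hm
    have h1 : cutJ X F m = F m := by unfold cutJ; rw [if_pos hm]
    rw [h1]
  rw [sum_congr rfl e2]
  refine sum_subset ?_ ?_
  · intro y hy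
    unfold JJ at hy
    rw [mem_Ico] at hy ⊢
    push_cast
    omega
  · intro y _ hy
    have h1 : cutJ X F y = 0 := by unfold cutJ; rw [if_neg hy]
    rw [h1]
    ring

theorem c7_zero (X : ℕ) (F : ℤ → ℂ) (a b : ℤ) (h : a ∉ Ioo (-(X : ℤ)) X ∨ b ∉ Ioo (-(X : ℤ)) X) :
    ∑ m ∈ JJ X, F m * (starRingEnd ℂ) (cutJ X F (m + a)) * (starRingEnd ℂ) (cutJ X F (m + b)) *
        cutJ X F (m + a + b) = 0 := by
  refine sum_eq_zero fun m hm => ?_
  have key : ∀ c : ℤ, c ∉ Ioo (-(X : ℤ)) X → cutJ X F (m + c) = 0 := by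
    intro c hc
    unfold cutJ
    rw [if_neg]
    intro h2
    apply hc
    unfold JJ at hm h2
    rw [mem_Ico] at hm h2
    rw [mem_Ioo]
    omega
  rcases h with h | h
  · rw [key a h, map_zero]; ring
  · rw [key b h, map_zero]; ring

/-- Proof. `U0_unif` (`H9U/U0B`): `Unif X κ0 (Er Q Q' X)` in the regime; `U3_norm κ0` (`H9U/U3`). With `F = Er Q Q' X`, `f = cutJ X F` (supported in
`JJ X ⊆ [-4X, 4X)`): by `D0_sq` (`s = 2`) and `D0_re`, `GG (4X) 3 f = ∑_{h ∈ bxS 2 (8X)} ‖∑_{y ∈ Ico (-4X) (4X)} DV h f y‖²`, `DV ![a, b] f y = f y conj f(y+a) ·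
conj (f(y+b) conj f(y+a+b))`, so the inner sum is the sum over `m ∈ JJ X` of `U3_norm` (the last factor is `cutJ X F (m+a+b)`, twice conjugated), and it
vanishes if `|a| ≥ X` or `|b| ≥ X` (two points of `JJ X` have distance `< X`). So `GG (4X) 3 f ≤ X^(4 - κ0/4)`, `κ = κ0/4`. -/
theorem C7_three (hI : Pool.Agent.H9S.INV) : PK 3 := by
  obtain ⟨K, hK, h⟩ := Pool.Agent.H9U.U0_unif hI
  refine ⟨K, hK, fun Cr θ hCr hθ => ?_⟩
  obtain ⟨κ0, h0, h1, X1, hU⟩ := h Cr θ hCr hθ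
  obtain ⟨X2, hN⟩ := Pool.Agent.H9U.U3_norm κ0 h0
  refine ⟨κ0 / 4, by linarith, by linarith, max X1 X2, fun Q Q' X hX hR => ?_⟩
  have hF := hU Q Q' X ((le_max_left _ _).trans hX) hR
  have hB := hN X ((le_max_right _ _).trans hX) (Er Q Q' X) hF
  generalize Er Q Q' X = F at hB
  have hGG : GG (4 * X) 3 (cutJ X F) = ∑ a ∈ Ioo (-((2 * (4 * X) : ℕ) : ℤ)) ((2 * (4 * X) : ℕ) : ℤ),
      ∑ b ∈ Ioo (-((2 * (4 * X) : ℕ) : ℤ)) ((2 * (4 * X) : ℕ) : ℤ),
        ‖∑ m ∈ JJ X, F m * (starRingEnd ℂ) (cutJ X F (m + a)) * (starRingEnd ℂ) (cutJ X F (m + b)) *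
          cutJ X F (m + a + b)‖ ^ 2 := by
    unfold GG
    rw [D0_sq (s := 2) (c7_spt X F), Complex.ofReal_re, D0_bx]
    refine sum_congr rfl fun a _ => ?_
    rw [D0_bx]
    refine sum_congr rfl fun b _ => ?_
    rw [c7_bx0, ← c7_T X F a b, D0_cons, D0_cons]
    rfl
  have hsub : Ioo (-(X : ℤ)) X ⊆ Ioo (-((2 * (4 * X) : ℕ) : ℤ)) ((2 * (4 * X) : ℕ) : ℤ) := by
    intro a ha
    rw [mem_Ioo] at ha ⊢
    push_cast
    omega
  have hGG2 : GG (4 * X) 3 (cutJ X F) = ∑ a ∈ Ioo (-(X : ℤ)) X, ∑ b ∈ Ioo (-(X : ℤ)) X,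
        ‖∑ m ∈ JJ X, F m * (starRingEnd ℂ) (cutJ X F (m + a)) * (starRingEnd ℂ) (cutJ X F (m + b)) *
          cutJ X F (m + a + b)‖ ^ 2 := by
    rw [hGG]
    symm
    have e1 : ∀ a ∈ Ioo (-(X : ℤ)) X, ∑ b ∈ Ioo (-(X : ℤ)) X,
        ‖∑ m ∈ JJ X, F m * (starRingEnd ℂ) (cutJ X F (m + a)) * (starRingEnd ℂ) (cutJ X F (m + b)) *
          cutJ X F (m + a + b)‖ ^ 2 = ∑ b ∈ Ioo (-((2 * (4 * X) : ℕ) : ℤ)) ((2 * (4 * X) : ℕ) : ℤ),
        ‖∑ m ∈ JJ X, F m * (starRingEnd ℂ) (cutJ X F (m + a)) * (starRingEnd ℂ) (cutJ X F (m + b)) *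
          cutJ X F (m + a + b)‖ ^ 2 := by
      intro a _
      refine sum_subset hsub fun b _ hb => ?_
      rw [c7_zero X F a b (Or.inr hb), norm_zero]
      norm_num
    rw [sum_congr rfl e1]
    refine sum_subset hsub fun a _ ha => sum_eq_zero fun b _ => ?_
    rw [c7_zero X F a b (Or.inl ha), norm_zero]
    norm_num
  rw [hGG2]
  refine hB.trans (le_of_eq ?_)
  congr 1
  push_cast
  ring

theorem c7_cs (Y : ℕ) (G : ℤ → ℝ) : (∑ a ∈ Ioo (-((2 * Y : ℕ) : ℤ)) ((2 * Y : ℕ) : ℤ), G a) ^ 2 ≤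
    (4 * Y) * ∑ a ∈ Ioo (-((2 * Y : ℕ) : ℤ)) ((2 * Y : ℕ) : ℤ), G a ^ 2 := by
  have h1 := sq_sum_le_card_mul_sum_sq (s := Ioo (-((2 * Y : ℕ) : ℤ)) ((2 * Y : ℕ) : ℤ)) (f := G)
  refine h1.trans (mul_le_mul_of_nonneg_right ?_ (sum_nonneg fun _ _ => sq_nonneg _))
  rw [Int.card_Ioo]
  have h2 : (((2 * Y : ℕ) : ℤ) - -((2 * Y : ℕ) : ℤ) - 1).toNat ≤ 4 * Y := by
    push_cast
    omega
  exact_mod_cast h2

theorem c7_one (Y : ℕ) (g : ℤ → ℂ) (hg : Spt Y g) : GG Y 1 g ^ 2 ≤ (4 * Y) * GG Y 2 g := by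
  have h1 : GG Y 1 g = ∑ a ∈ Ioo (-((2 * Y : ℕ) : ℤ)) ((2 * Y : ℕ) : ℤ), (∑ y ∈ Ico (-(Y : ℤ)) Y, DD a g y).re := by
    unfold GG
    rw [D0_bx, Complex.re_sum]
    refine sum_congr rfl fun a _ => ?_
    rw [c7_bx0]
    unfold FF
    rw [D0_cons]
    rfl
  have h2 : GG Y 2 g = ∑ a ∈ Ioo (-((2 * Y : ℕ) : ℤ)) ((2 * Y : ℕ) : ℤ), ‖∑ y ∈ Ico (-(Y : ℤ)) Y, DD a g y‖ ^ 2 := by
    unfold GG
    rw [D0_sq (s := 1) hg, Complex.ofReal_re, D0_bx]
    refine sum_congr rfl fun a _ => ?_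
    rw [c7_bx0, D0_cons]
    rfl
  rw [h1, h2]
  refine (c7_cs Y _).trans (mul_le_mul_of_nonneg_left (sum_le_sum fun a _ => ?_) (by positivity))
  rw [← sq_abs]
  exact pow_le_pow_left₀ (abs_nonneg _) (Complex.abs_re_le_norm _) 2

/-- Proof. Let `f = cutJ X (Er Q Q' X)`, `Y = 4X` (window). `GG Y 1 g ^ 2 ≤ 4Y · GG Y 2 g` for `g` supported in `[-Y, Y)`: `GG Y 1 g` is a sum over `|h| < 2Y`
of autocorrelations `A(h)` and `GG Y 2 g = ∑_h ‖A(h)‖²` (`D0_sq` with `s = 1`; Cauchy-Schwarz). With `D0_succ`: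
`GG Y 2 f ^ 2 = (∑_a GG Y 1 (DD a f))² ≤ 4Y ∑_a GG Y 1 (DD a f)² ≤ (4Y)² ∑_a GG Y 2 (DD a f) = (4Y)² GG Y 3 f ≤ (16 X)² X^(4-κ)`. So
`GG Y 2 f ≤ 16 X^(3 - κ/2) ≤ X^(3 - κ/4)` for `X` large. Same `K`. -/
theorem C7_two (h : PK 3) : PK 2 := by
  obtain ⟨K, hK, h⟩ := h
  refine ⟨K, hK, fun Cr θ hCr hθ => ?_⟩
  obtain ⟨κ, h0, h1, X1, hU⟩ := h Cr θ hCr hθ
  refine ⟨κ / 4, by linarith, by linarith, max X1 (⌈(16 : ℝ) ^ (4 / κ)⌉₊ + 1), fun Q Q' X hX hR => ?_⟩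
  have hB := hU Q Q' X ((le_max_left _ _).trans hX) hR
  have hX2 : ⌈(16 : ℝ) ^ (4 / κ)⌉₊ + 1 ≤ X := (le_max_right _ _).trans hX
  have hX1 : 1 ≤ X := by omega
  have hXp : (0 : ℝ) < X := by exact_mod_cast hX1
  have h16 : (16 : ℝ) ≤ (X : ℝ) ^ (κ / 4) := by
    have h2 : (16 : ℝ) ^ (4 / κ) ≤ X :=
      (Nat.le_ceil _).trans (by exact_mod_cast (Nat.le_succ _).trans hX2)
    have h3 := Real.rpow_le_rpow (by positivity) h2 (by positivity : 0 ≤ κ / 4)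
    rw [← Real.rpow_mul (by norm_num)] at h3
    have h4 : 4 / κ * (κ / 4) = 1 := by field_simp
    rw [h4, Real.rpow_one] at h3
    exact h3
  have hf := c7_spt X (Er Q Q' X)
  generalize hff : cutJ X (Er Q Q' X) = f at hB hf
  have hY : (GG (4 * X) 2 f) ^ 2 ≤ (4 * ((4 * X : ℕ) : ℝ)) ^ 2 * GG (4 * X) 3 f := by
    have e2 : GG (4 * X) 2 f = ∑ a ∈ Ioo (-((2 * (4 * X) : ℕ) : ℤ)) ((2 * (4 * X) : ℕ) : ℤ), GG (4 * X) 1 (DD a f) := by
      rw [D0_succ (s := 1)]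
      push_cast
      rfl
    have e3 : GG (4 * X) 3 f = ∑ a ∈ Ioo (-((2 * (4 * X) : ℕ) : ℤ)) ((2 * (4 * X) : ℕ) : ℤ), GG (4 * X) 2 (DD a f) := by
      rw [D0_succ (s := 2)]
      push_cast
      rfl
    rw [e2, e3]
    refine (c7_cs (4 * X) _).trans ?_
    rw [sq (4 * ((4 * X : ℕ) : ℝ)), mul_assoc (4 * ((4 * X : ℕ) : ℝ)) (4 * ((4 * X : ℕ) : ℝ)) _]
    have hp : (0 : ℝ) ≤ 4 * ((4 * X : ℕ) : ℝ) := by positivity
    refine mul_le_mul_of_nonneg_left ?_ hp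
    rw [mul_sum]
    exact sum_le_sum fun a _ => c7_one (4 * X) _ (D0_SDD hf a)
  have hY2 : (GG (4 * X) 2 f) ^ 2 ≤ (16 * (X : ℝ) ^ (3 - κ / 2)) ^ 2 := by
    have e : (4 * ((4 * X : ℕ) : ℝ)) ^ 2 = 16 ^ 2 * (X : ℝ) ^ (2 : ℝ) := by
      push_cast
      rw [Real.rpow_two]
      ring
    have e4 : (16 * (X : ℝ) ^ (3 - κ / 2)) ^ 2 = 16 ^ 2 * ((X : ℝ) ^ (2 : ℝ) * (X : ℝ) ^ (((3 : ℕ) : ℝ) + 1 - κ)) := by
      rw [mul_pow, ← Real.rpow_natCast ((X : ℝ) ^ (3 - κ / 2)) 2, ← Real.rpow_mul hXp.le, ← Real.rpow_add hXp]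
      congr 2
      push_cast
      ring
    rw [e4, ← mul_assoc, ← e]
    exact hY.trans (mul_le_mul_of_nonneg_left hB (sq_nonneg _))
  have hY3 : GG (4 * X) 2 f ≤ 16 * (X : ℝ) ^ (3 - κ / 2) :=
    (le_abs_self _).trans (abs_le_of_sq_le_sq hY2 (by positivity))
  refine hY3.trans ?_
  calc 16 * (X : ℝ) ^ (3 - κ / 2) ≤ (X : ℝ) ^ (κ / 4) * (X : ℝ) ^ (3 - κ / 2) :=
        mul_le_mul_of_nonneg_right h16 (by positivity)
    _ = (X : ℝ) ^ (((2 : ℕ) : ℝ) + 1 - κ / 4) := by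
        rw [← Real.rpow_add hXp]
        congr 1
        push_cast
        ring

end Pool.Agent.HUK
end

-- from Lib.HUK.C6
section

/-!
# HUK, chunk C6 (M/L): the closure, from `U^(k-1)` to `U^k`
-/

open Finset

namespace Pool.Agent.HUK

open Pool.Agent.H9S (lc Lc)
open Pool.Agent.H9U (JJ cutJ Er Rgm)

lemma c6_cj (n : ℕ) (r : ℝ) : cj n (r : ℂ) = r := by
  unfold cj
  split_ifs
  · rfl
  · exact Complex.conj_ofReal r

lemma c6_large (c M : ℝ) (hc : 0 < c) : ∃ X0 : ℕ, ∀ X : ℕ, X0 ≤ X → M ≤ (X : ℝ) ^ c := by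
  have h1 : Filter.Tendsto (fun X : ℕ => (X : ℝ) ^ c) Filter.atTop Filter.atTop :=
    (tendsto_rpow_atTop hc).comp tendsto_natCast_atTop_atTop
  exact Filter.eventually_atTop.1 (h1.eventually_ge_atTop M)

lemma c6_rgm {K K' Cr θ : ℝ} {Q Q' X : ℕ} (h : Rgm K Cr θ Q Q' X) (h0 : 0 ≤ K) (hK : K' ≤ K) :
    Rgm K' Cr θ Q Q' X := ⟨h.reg.mono h0 hK, h.log, h.low, h.le⟩

lemma c6_JJ {X : ℕ} {m : ℤ} (hm : m ∈ JJ X) : (X:ℤ) ≤ m ∧ m < 4 * X ∧ m ∈ Ico (-((4 * X : ℕ) : ℤ)) ((4 * X : ℕ) : ℤ) := by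
  unfold Pool.Agent.H9U.JJ at hm
  rw [mem_Ico] at hm ⊢
  push_cast
  omega

/-- the values of `Er` are real -/
lemma c6_Er (Q Q' X : ℕ) (m : ℤ) : ∃ r : ℝ, Er Q Q' X m = (r : ℂ) := by
  refine ⟨Pool.Agent.Lib.H68T.lp m - Pool.Agent.Lib.H68T.Lk Q' (X / Q ^ 2) m, ?_⟩
  unfold Pool.Agent.H9U.Er Pool.Agent.H9S.lc Pool.Agent.H9S.Lc
  push_cast
  ring

/-- one vector of differences of differences -/
lemma c6_inner (X s : ℕ) (E : ℤ → ℂ) (hE : ∀ m, ∃ r : ℝ, E m = (r : ℂ)) (c : ℝ) (G : ℤ → ℂ) :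
    ∑ m ∈ Ico (-((4 * X : ℕ) : ℤ)) ((4 * X : ℕ) : ℤ), cj (s + 1) ((c : ℂ) * cutJ X E m) * G m =
      (c : ℂ) * ∑ m ∈ JJ X, E m * G m := by
  rw [mul_sum]
  have h1 : JJ X ⊆ Ico (-((4 * X : ℕ) : ℤ)) ((4 * X : ℕ) : ℤ) := fun m hm => (c6_JJ hm).2.2
  rw [← sum_subset h1]
  · refine sum_congr rfl fun m hm => ?_
    obtain ⟨r, hr⟩ := hE m
    unfold Pool.Agent.H9U.cutJ
    rw [if_pos hm, hr, ← Complex.ofReal_mul, c6_cj]
    push_cast
    ring
  · intro m _ hm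
    unfold Pool.Agent.H9U.cutJ
    rw [if_neg hm, mul_zero]
    have : cj (s + 1) (0 : ℂ) = 0 := by
      have h := c6_cj (s + 1) 0
      simpa using h
    rw [this, zero_mul]

/-- Proof. `k = s + 1`, `s ≥ 3`. `B = 4 (8 s + 1)`; `K` = maximum of the constants of `C4_est` for `B`, of `PK (k-1)` and of `U0_size` (`H9U.z4_rgm` in
`H9U/Z4.lean` is three lines, copy it: `⟨h.reg.mono .., h.log, h.low, h.le⟩`). Given `Cr θ`: `κ1` from `PK (k-1)`, `κ2` from `C4_est` with `κ = κ1`;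
`κ = κ2/2`, `ε = κ2/(8 * 2^k)`. `E = Er Q Q' X`, `b = X^ε`: `‖E m‖ ≤ b` for `X ≤ m ≤ 4X` (`U0_lp`, `U0_size` with `ε/2`, `2 X^(ε/2) ≤ X^ε`; `1 ≤ Q'`). Put
`F = cutJ X E`, `f x = (b⁻¹ : ℝ) * F x`: `Bdd (4X) f`, `F = b • f`, so `GG (4X) k F = b^(2^k) GG (4X) k f` (`C1_smul`).
`C5_slice` with `Y = 4X`, `Y' = B X`, `GG_real`: `GG (4X) k f = ∑_{e ∈ bxS s (16X)} ∑_{m ∈ Ico (-4X) (4X)} cj k (f m) * Psi (B X) k (sl f e) m`. `E m` is real
(`Er` is a difference of real numbers), so `cj k (f m) = f m = b⁻¹ E m` for `m ∈ JJ X` and `0` otherwise: the inner sum is `b⁻¹ ∑_{m ∈ JJ X} E m * Psi (B X) k (sl f e) m`,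
at most `X^(2-κ2)` by `C4_est`: `Bdd (B X) (sl f e j)` by `C5_bdd` (`(8s+1) (4X) = B X`), and `GG (B X) (k-1) (sl f e 0) = GG (4X) (k-1) f`
(`C5_zero`, `GG_shift`) `= b^(-2^(k-1)) GG (4X) (k-1) F ≤ X^(k - κ1)` (`PK (k-1)`, `b ≥ 1`, `((k-1 : ℕ) : ℝ) + 1 - κ1 = k - κ1`).
Number of `e`: at most `(32 X)^s` (`bxS_card`). Total: `GG (4X) k F ≤ X^(ε 2^k) 32^s X^s X^(2-κ2) ≤ X^(k + 1 - κ2/2)` for `X` large. -/
theorem C6_close (k : ℕ) (hk : 4 ≤ k) (hT : TLP k) (hL : LKP k) (hP : PK (k - 1)) : PK k := by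
  obtain ⟨s, rfl⟩ : ∃ s, k = s + 1 := ⟨k - 1, by omega⟩
  have hs : 3 ≤ s := by omega
  have hss : s + 1 - 1 = s := by omega
  rw [hss] at hP
  obtain ⟨B, hB⟩ : ∃ B : ℕ, B = 4 * (8 * s + 1) := ⟨_, rfl⟩
  obtain ⟨K1, hK1, h1⟩ := C4_est (s + 1) (by omega) hT hL B (by omega)
  obtain ⟨K2, hK2, h2⟩ := hP
  obtain ⟨K3, hK3, h3⟩ := Pool.Agent.H9U.U0_size
  refine ⟨max K1 (max K2 K3), le_max_of_le_left hK1, fun Cr θ hCr hθ => ?_⟩
  have hK0 : (0 : ℝ) ≤ max K1 (max K2 K3) := le_trans (by linarith) (le_max_left _ _)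
  obtain ⟨κ1, hκ1, hκ11, X2, h2⟩ := h2 Cr θ hCr hθ
  obtain ⟨κ2, hκ2, hκ21, X1, h1⟩ := h1 Cr θ κ1 hCr hθ hκ1 hκ11
  obtain ⟨ε, hε⟩ : ∃ ε : ℝ, ε = κ2 / (8 * 2 ^ (s + 1)) := ⟨_, rfl⟩
  have hε0 : 0 < ε := by rw [hε]; positivity
  obtain ⟨X3, h3⟩ := h3 (ε / 2) (by linarith)
  obtain ⟨X4, h4⟩ := Pool.Agent.H9U.U0_lp (ε / 2) (by linarith)
  obtain ⟨X5, h5⟩ := c6_large (ε / 2) 2 (by linarith)
  obtain ⟨X6, h6⟩ := c6_large (3 * κ2 / 8) (32 ^ s) (by linarith)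
  refine ⟨κ2 / 2, by linarith, by linarith, max (max (max X1 X2) (max X3 X4)) (max (max X5 X6) 1), fun Q Q' X hX hR => ?_⟩
  simp only [max_le_iff] at hX
  obtain ⟨⟨⟨hX1, hX2⟩, hX3, hX4⟩, ⟨hX5, hX6⟩, hX0⟩ := hX
  have hXr : (1 : ℝ) ≤ X := by exact_mod_cast hX0
  have hXp : (0 : ℝ) < X := by linarith
  have hR1 : Rgm K1 Cr θ Q Q' X := c6_rgm hR hK0 (le_max_left _ _)
  have hR2 : Rgm K2 Cr θ Q Q' X := c6_rgm hR hK0 ((le_max_left _ _).trans (le_max_right _ _))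
  have hR3 : Rgm K3 Cr θ Q Q' X := c6_rgm hR hK0 ((le_max_right _ _).trans (le_max_right _ _))
  have hQ' : 1 ≤ Q' := by
    have h7 : (1 : ℝ) ≤ (X : ℝ) ^ θ := Real.one_le_rpow hXr hθ.le
    have h8 : (1 : ℝ) ≤ (Q' : ℝ) := h7.trans hR.low
    exact_mod_cast h8
  specialize h1 Q Q' X hX1 hR1
  specialize h2 Q Q' X hX2 hR2
  specialize h3 Q Q' X hX3 hR3.reg hQ' hR3.le
  specialize h4 X hX4
  specialize h5 X hX5
  specialize h6 X hX6
  obtain ⟨b, hb⟩ : ∃ b : ℝ, b = (X : ℝ) ^ ε := ⟨_, rfl⟩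
  have hb1 : 1 ≤ b := by rw [hb]; exact Real.one_le_rpow hXr hε0.le
  have hb0 : 0 < b := by linarith
  -- the size of the error
  have hEb : ∀ m : ℤ, (X : ℤ) ≤ m → m ≤ 4 * X → ‖Er Q Q' X m‖ ≤ b := by
    intro m hm1 hm2
    have e1 : Er Q Q' X m = ((Pool.Agent.Lib.H68T.lp m - Pool.Agent.Lib.H68T.Lk Q' (X / Q ^ 2) m : ℝ) : ℂ) := by
      unfold Pool.Agent.H9U.Er Pool.Agent.H9S.lc Pool.Agent.H9S.Lc
      push_cast
      ring
    rw [e1, Complex.norm_real, Real.norm_eq_abs]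
    have e2 := abs_sub (Pool.Agent.Lib.H68T.lp m) (Pool.Agent.Lib.H68T.Lk Q' (X / Q ^ 2) m)
    have e3 := h3 m hm1 hm2
    have e4 := h4 m hm2
    have e5 : b = (X : ℝ) ^ (ε / 2) * (X : ℝ) ^ (ε / 2) := by
      rw [hb, ← Real.rpow_add hXp]
      congr 1
      ring
    have e6 : 0 ≤ (X : ℝ) ^ (ε / 2) := Real.rpow_nonneg hXp.le _
    rw [e5]
    nlinarith
  obtain ⟨F, hF⟩ : ∃ F : ℤ → ℂ, F = cutJ X (Er Q Q' X) := ⟨_, rfl⟩
  rw [← hF] at h2 ⊢
  obtain ⟨f, hf⟩ : ∃ f : ℤ → ℂ, f = fun x => ((b⁻¹ : ℝ) : ℂ) * F x := ⟨_, rfl⟩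
  have hFf : F = fun x => ((b : ℝ) : ℂ) * f x := by
    funext x
    rw [hf]
    have hbc : (b : ℂ) ≠ 0 := by exact_mod_cast hb0.ne'
    push_cast
    field_simp
  have hfB : Bdd (4 * X) f := by
    constructor
    · intro y
      rw [hf]
      simp only
      rw [norm_mul, Complex.norm_real, Real.norm_of_nonneg (inv_nonneg.2 hb0.le), hF]
      unfold Pool.Agent.H9U.cutJ
      split_ifs with hy
      · have h7 := c6_JJ hy
        have h8 := hEb y h7.1 h7.2.1.le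
        rw [inv_mul_le_iff₀ hb0]
        linarith
      · rw [norm_zero, mul_zero]
        exact zero_le_one
    · intro y hy
      rw [hf, hF]
      simp only
      unfold Pool.Agent.H9U.cutJ
      rw [if_neg, mul_zero]
      intro hy2
      exact hy (c6_JJ hy2).2.2
  have hG1 : GG (4 * X) (s + 1) F = b ^ (2 ^ (s + 1)) * GG (4 * X) (s + 1) f := by
    rw [hFf]
    exact C1_smul _ _ _ _
  have hG2 : GG (4 * X) s f = (b⁻¹) ^ (2 ^ s) * GG (4 * X) s F := by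
    rw [hf]
    exact C1_smul _ _ _ _
  have hFs : ∀ y, y ∉ Ico (-((4 * X : ℕ) : ℤ)) ((4 * X : ℕ) : ℤ) → F y = 0 := by
    intro y hy
    rw [hFf]
    simp only
    rw [hfB.sup y hy, mul_zero]
  have hG2' : GG (4 * X) s f ≤ (X : ℝ) ^ (((s + 1 : ℕ) : ℝ) - κ1) := by
    rw [hG2]
    have h7 : 0 ≤ GG (4 * X) s F := GG_nonneg _ _ (by omega) _ hFs
    have h8 : (b⁻¹) ^ (2 ^ s) ≤ 1 := pow_le_one₀ (inv_nonneg.2 hb0.le) (inv_le_one_of_one_le₀ hb1)
    have h9 : (X : ℝ) ^ ((s : ℝ) + 1 - κ1) = (X : ℝ) ^ (((s + 1 : ℕ) : ℝ) - κ1) := by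
      congr 1
      push_cast
      ring
    rw [← h9]
    calc (b⁻¹) ^ (2 ^ s) * GG (4 * X) s F ≤ 1 * GG (4 * X) s F := mul_le_mul_of_nonneg_right h8 h7
      _ ≤ _ := by rw [one_mul]; exact h2
  -- the slices
  have hY : 4 * X ≤ B * X := Nat.mul_le_mul_right X (by omega)
  have hsl := C5_slice (4 * X) (B * X) s (by omega) hY f hfB.sup
  have hone : ∀ e ∈ bxS s (4 * (4 * X)), ‖∑ m ∈ Ico (-((4 * X : ℕ) : ℤ)) ((4 * X : ℕ) : ℤ),
      cj (s + 1) (f m) * Psi (B * X) (s + 1) (sl f e) m‖ ≤ (X : ℝ) ^ (2 - κ2) := by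
    intro e he
    have h7 : ∀ j, j < s + 1 → Bdd (B * X) (sl f e j) := by
      intro j hj
      have h8 := C5_bdd (4 * X) s j (by omega) f hfB e he
      have h9 : (8 * s + 1) * (4 * X) = B * X := by rw [hB]; ring
      rw [h9] at h8
      exact h8
    have h8 : GG (B * X) (s + 1 - 1) (sl f e 0) ≤ (X : ℝ) ^ (((s + 1 : ℕ) : ℝ) - κ1) := by
      rw [hss]
      have h9 : sl f e 0 = fun x => f (x + (-∑ i, e i)) := by
        funext x
        rw [C5_zero, sub_eq_add_neg]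
      have h10 := (h7 0 (by omega)).sup
      rw [h9] at h10 ⊢
      rw [GG_shift (4 * X) (B * X) s (-∑ i, e i) f hfB.sup h10]
      exact hG2'
    have h9 := h1 (sl f e) h7 h8
    rw [hf, hF]
    rw [hf, hF] at h9
    simp only
    rw [c6_inner X s (Er Q Q' X) (c6_Er Q Q' X) b⁻¹, norm_mul, Complex.norm_real,
      Real.norm_of_nonneg (inv_nonneg.2 hb0.le)]
    calc b⁻¹ * ‖_‖ ≤ 1 * ‖_‖ := mul_le_mul_of_nonneg_right (inv_le_one_of_one_le₀ hb1) (norm_nonneg _)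
      _ ≤ _ := by rw [one_mul]; exact h9
  have htot : GG (4 * X) (s + 1) f ≤ (32 * X) ^ s * (X : ℝ) ^ (2 - κ2) := by
    have h7 := GG_real (4 * X) (s + 1) (by omega) f hfB.sup
    rw [hsl] at h7
    have h8 : GG (4 * X) (s + 1) f ≤ ‖((GG (4 * X) (s + 1) f : ℝ) : ℂ)‖ := by
      rw [Complex.norm_real]
      exact le_abs_self _
    rw [← h7] at h8
    refine h8.trans ((norm_sum_le_of_le _ hone).trans ?_)
    rw [sum_const, nsmul_eq_mul]
    refine mul_le_mul_of_nonneg_right ?_ (Real.rpow_nonneg hXp.le _)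
    have h9 := bxS_card s (4 * (4 * X))
    refine h9.trans (le_of_eq ?_)
    push_cast
    congr 1
    ring
  rw [hG1]
  have hb2 : b ^ (2 ^ (s + 1)) = (X : ℝ) ^ (κ2 / 8) := by
    rw [hb, ← Real.rpow_natCast, ← Real.rpow_mul hXp.le]
    congr 1
    rw [hε]
    push_cast
    field_simp
  calc b ^ (2 ^ (s + 1)) * GG (4 * X) (s + 1) f ≤ (X : ℝ) ^ (κ2 / 8) * ((32 * X) ^ s * (X : ℝ) ^ (2 - κ2)) := by
        rw [hb2]
        exact mul_le_mul_of_nonneg_left htot (Real.rpow_nonneg hXp.le _)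
    _ = (32 ^ s) * ((X : ℝ) ^ (κ2 / 8) * (X : ℝ) ^ (s : ℝ) * (X : ℝ) ^ (2 - κ2)) := by
        rw [mul_pow, Real.rpow_natCast]
        ring
    _ ≤ (X : ℝ) ^ (3 * κ2 / 8) * ((X : ℝ) ^ (κ2 / 8) * (X : ℝ) ^ (s : ℝ) * (X : ℝ) ^ (2 - κ2)) := by
        refine mul_le_mul_of_nonneg_right h6 ?_
        positivity
    _ = (X : ℝ) ^ (((s + 1 : ℕ) : ℝ) + 1 - κ2 / 2) := by
        rw [← Real.rpow_add hXp, ← Real.rpow_add hXp, ← Real.rpow_add hXp]
        congr 1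
        push_cast
        ring

end Pool.Agent.HUK
end

-- from Lib.HUK.C8
section

/-!
# HUK, module C: all Gowers norms of the error are small
-/

namespace Pool.Agent.HUK

/-- Induction on `k`. -/
theorem C8_all (hI : Pool.Agent.H9S.INV) (hT : ∀ k, 3 ≤ k → TLP k) (hL : ∀ k, 3 ≤ k → LKP k) (k : ℕ) (hk : 2 ≤ k) :
    PK k := by
  induction k, hk using Nat.le_induction with
  | base => exact C7_two (C7_three hI)
  | succ k hk ih =>
    by_cases h : k = 2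
    · subst h
      exact C7_three hI
    · exact C6_close (k + 1) (by omega) (hT _ (by omega)) (hL _ (by omega)) (by simpa using ih)

end Pool.Agent.HUK
end
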