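import Pool.Agent.Lib.H59M.M2.M008
import Pool.Agent.Lib.H59M.M2.M021
import Pool.Agent.Lib.H59M.M2.M035
import Pool.Agent.Lib.H59M.M2.M066
import Pool.Agent.Lib.H59M.M2.M068
import Pool.Agent.Lib.H59M.M2.M069
import Pool.Agent.Lib.H59M.M2.M088
import Pool.Agent.Lib.H59M.M2.M094
import Pool.Agent.Lib.H59M.M2.M098
import Pool.Agent.Lib.H59M.M2.M103
import Pool.Agent.Lib.H59M.M2.M105
import Pool.Agent.Lib.H59M.M2.M106

/-! Merged copies (to shorten the build) of Lib.HLA.Y1, Lib.HLA.Y2A, Lib.HUP.W1, Lib.HUP.W3, Lib.HUP.W4, Lib.HUP.S4A, Lib.HUP.S4B, Lib.HUP.S4T, Lib.HUK.A13, Lib.HUK.A14a, Lib.HUK.A14b. -/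

-- from Lib.HLA.Y1
section

/-!
# LOGA, chunk Y1 (S/M): the primes `n + b`, `b ∈ [Z, 2 Z)`
-/

open Finset Polynomial

namespace Pool.Agent.HLA

open Pool.Agent.Lib.H68T Pool.Agent.Lib.H18Q Pool.Agent.Lib.H59P Pool.Agent.Lib.H24P
open Pool.Agent.HUP Pool.Agent.H9P

theorem y1_card (a Z : ℕ) : ((((Ico Z (2 * Z)).filter fun b => (a + b).Prime).card : ℕ) : ℝ) =
    (Nat.primeCounting' (a + Z + Z) : ℝ) - Nat.primeCounting' (a + Z) := by
  have h1 : ((Ico Z (2 * Z)).filter fun b => (a + b).Prime).card =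
      Nat.count (fun k => Nat.Prime (a + Z + k)) Z := by
    rw [Nat.count_eq_card_filter_range]
    refine Finset.card_bij' (fun b _ => b - Z) (fun k _ => Z + k) ?_ ?_ ?_ ?_
    · intro b hb
      obtain ⟨h1, h2⟩ := Finset.mem_filter.1 hb
      obtain ⟨h3, h4⟩ := Finset.mem_Ico.1 h1
      refine Finset.mem_filter.2 ⟨Finset.mem_range.2 (by omega), ?_⟩
      have e : a + Z + (b - Z) = a + b := by omega
      rw [e]
      exact h2
    · intro k hk
      obtain ⟨h1, h2⟩ := Finset.mem_filter.1 hk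
      have h3 := Finset.mem_range.1 h1
      refine Finset.mem_filter.2 ⟨Finset.mem_Ico.2 ⟨by omega, by omega⟩, ?_⟩
      have e : a + (Z + k) = a + Z + k := by omega
      rw [e]
      exact h2
    · intro b hb
      obtain ⟨h1, h2⟩ := Finset.mem_filter.1 hb
      obtain ⟨h3, h4⟩ := Finset.mem_Ico.1 h1
      show Z + (b - Z) = b
      omega
    · intro k hk
      show Z + k - Z = k
      omega
  have h2 : Nat.primeCounting' (a + Z + Z) = Nat.primeCounting' (a + Z) +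
      Nat.count (fun k => Nat.Prime (a + Z + k)) Z := by
    unfold Nat.primeCounting'
    exact Nat.count_add _ _ _
  rw [h1, h2]
  push_cast
  ring

theorem y1_pi (η : ℝ) (hη : 0 < η) : ∃ Z0 : ℕ, 2 ≤ Z0 ∧ ∀ Z : ℕ, Z0 ≤ Z → ∀ m : ℕ, Z ≤ 2 * m → m ≤ 3 * Z →
    |(Nat.primeCounting m : ℝ) * Real.log Z - m| ≤ η * Z := by
  have h0 := Pool.Agent.Lib.PNT.primeCounting_nat_tendsto
  have hη' : 0 < min 1 (η / 6) := lt_min one_pos (by positivity)
  set δ : ℝ := min 1 (η / 6) with hδ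
  have hδ1 : δ ≤ 1 := min_le_left _ _
  have hδ2 : δ ≤ η / 6 := min_le_right _ _
  have h1 := h0.eventually (gt_mem_nhds (show (1 : ℝ) < 1 + δ by linarith))
  have h2 := h0.eventually (lt_mem_nhds (show 1 - δ < (1 : ℝ) by linarith))
  have h3 : ∀ᶠ n : ℕ in Filter.atTop, 4 / δ ≤ Real.log n :=
    (Real.tendsto_log_atTop.comp tendsto_natCast_atTop_atTop).eventually_ge_atTop _
  obtain ⟨M, hM⟩ := Filter.eventually_atTop.1 (h1.and (h2.and h3))
  refine ⟨2 * M + 2, by omega, fun Z hZ m hm1 hm2 => ?_⟩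
  obtain ⟨a, b, c⟩ := hM m (by omega)
  have hm0 : (0 : ℝ) < m := by
    have : 0 < m := by omega
    exact_mod_cast this
  have hZ0 : (0 : ℝ) < Z := by
    have : 0 < Z := by omega
    exact_mod_cast this
  rw [div_lt_iff₀ hm0] at a
  rw [lt_div_iff₀ hm0] at b
  have hm1' : (Z : ℝ) ≤ 2 * m := by exact_mod_cast hm1
  have hm2' : (m : ℝ) ≤ 3 * Z := by exact_mod_cast hm2
  have hlogm : 0 < Real.log m := lt_of_lt_of_le (by positivity) c
  have hl1 : Real.log Z ≤ Real.log m + 2 := by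
    have e1 : Real.log Z ≤ Real.log (2 * m) := Real.log_le_log hZ0 hm1'
    rw [Real.log_mul (by norm_num) hm0.ne'] at e1
    have e2 := Real.log_le_sub_one_of_pos (show (0 : ℝ) < 2 by norm_num)
    linarith
  have hl2 : Real.log m ≤ Real.log Z + 2 := by
    have e1 : Real.log m ≤ Real.log (3 * Z) := Real.log_le_log hm0 hm2'
    rw [Real.log_mul (by norm_num) hZ0.ne'] at e1
    have e2 := Real.log_le_sub_one_of_pos (show (0 : ℝ) < 3 by norm_num)
    linarith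
  have hpi0 : (0 : ℝ) ≤ (Nat.primeCounting m : ℝ) := Nat.cast_nonneg _
  have hpi : (Nat.primeCounting m : ℝ) * 2 ≤ δ * m := by
    have e1 : (Nat.primeCounting m : ℝ) * (4 / δ) ≤ (1 + δ) * m :=
      (mul_le_mul_of_nonneg_left c hpi0).trans a.le
    have e2 : (Nat.primeCounting m : ℝ) * (4 / δ) * δ ≤ (1 + δ) * m * δ :=
      mul_le_mul_of_nonneg_right e1 hη'.le
    have e3 : (Nat.primeCounting m : ℝ) * (4 / δ) * δ = (Nat.primeCounting m : ℝ) * 4 := by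
      field_simp
    rw [e3] at e2
    have e4 : (1 + δ) * (m * δ) ≤ 2 * (m * δ) := mul_le_mul_of_nonneg_right (by linarith) (by positivity)
    nlinarith
  have hfin : 2 * δ * m ≤ η * Z := by
    calc 2 * δ * m ≤ 2 * δ * (3 * Z) := mul_le_mul_of_nonneg_left hm2' (by positivity)
      _ = 6 * δ * Z := by ring
      _ ≤ η * Z := mul_le_mul_of_nonneg_right (by linarith) hZ0.le
  have k1 : (Nat.primeCounting m : ℝ) * Real.log Z ≤ (Nat.primeCounting m : ℝ) * Real.log m +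
      (Nat.primeCounting m : ℝ) * 2 := by
    rw [← mul_add]
    exact mul_le_mul_of_nonneg_left hl1 hpi0
  have k2 : (Nat.primeCounting m : ℝ) * Real.log m ≤ (Nat.primeCounting m : ℝ) * Real.log Z +
      (Nat.primeCounting m : ℝ) * 2 := by
    rw [← mul_add]
    exact mul_le_mul_of_nonneg_left hl2 hpi0
  rw [abs_le]
  constructor <;> nlinarith

/-- **Y1.** Proof. The prime number theorem `π(y) log y/y → 1` (in the library; search `Lib` for `primeCounting` with `Tendsto`, or Chebyshev's `θ(y) ~ y`): the number is `π(2 Z + n - 1) - π(Z + n - 1)`, both arguments are between `Z` and `3 Z`, where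
`log y = log Z + O(1)`; `π(y) = y/log Z + o(Z/log Z)` uniformly. -/
theorem Y1_pnt (ε : ℝ) (hε : 0 < ε) : ∃ Z0 : ℕ, ∀ Z : ℕ, Z0 ≤ Z → ∀ n : ℕ, n ≤ Z →
    |((((Ico Z (2 * Z)).filter fun b => (n + b).Prime).card : ℕ) : ℝ) * Real.log Z - Z| ≤ ε * Z := by
  obtain ⟨Z0, hZ02, hZ0⟩ := y1_pi (ε / 2) (by linarith)
  refine ⟨Z0, fun Z hZ n hn => ?_⟩
  rw [y1_card]
  have e1 : Nat.primeCounting' (n + Z + Z) = Nat.primeCounting (n + Z + Z - 1) := by
    unfold Nat.primeCounting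
    rw [Nat.sub_add_cancel (by omega)]
  have e2 : Nat.primeCounting' (n + Z) = Nat.primeCounting (n + Z - 1) := by
    unfold Nat.primeCounting
    rw [Nat.sub_add_cancel (by omega)]
  rw [e1, e2]
  have h1 := abs_le.1 (hZ0 Z hZ (n + Z + Z - 1) (by omega) (by omega))
  have h2 := abs_le.1 (hZ0 Z hZ (n + Z - 1) (by omega) (by omega))
  have e3 : ((n + Z + Z - 1 : ℕ) : ℝ) = ((n + Z - 1 : ℕ) : ℝ) + Z := by
    have : n + Z + Z - 1 = n + Z - 1 + Z := by omega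
    rw [this]
    push_cast
    ring
  rw [e3] at h1
  rw [abs_le]
  constructor <;> nlinarith [h1.1, h1.2, h2.1, h2.2]

/-- The sum over `b` of the numbers with the coordinate `n + b` is the sum over the `n` counted without it. Proof. `cnt` is the card of a filter; exchange the sums (`Finset.sum_comm'` or `card_eq_sum_ones`); `sys (X + C b) P h 0 n = n + b`,
`((n : ℤ) + b).toNat = n + b`. -/
theorem Y1_sum {k : ℕ} (P : Fin k → ℤ[X]) (h : Fin k → ℕ) (Z Z' : ℕ) :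
    open Classical in
    ∑ b ∈ Ico Z (2 * Z), cnt (sys (X + C ((b : ℕ) : ℤ)) P h) 1 Z' =
      ∑ n ∈ (Ico 1 (1 + Z')).filter (fun n : ℕ => ∀ i, (ran P h i (n : ℤ)).toNat.Prime),
        ((Ico Z (2 * Z)).filter fun b => (n + b).Prime).card := by
  have h1 : ∀ b ∈ Ico Z (2 * Z), cnt (sys (X + C ((b : ℕ) : ℤ)) P h) 1 Z' =
      ∑ n ∈ (Ico 1 (1 + Z')).filter (fun n : ℕ => ∀ i, (ran P h i (n : ℤ)).toNat.Prime),
        if (n + b).Prime then 1 else 0 := by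
    intro b _
    unfold cnt
    rw [← Finset.card_filter, Finset.filter_filter]
    refine congrArg Finset.card (Finset.filter_congr fun n _ => ?_)
    rw [Fin.forall_fin_succ, and_comm]
    refine and_congr Iff.rfl ?_
    have e : ((sys (X + C ((b : ℕ) : ℤ)) P h 0 (n : ℤ))).toNat = n + b := by
      have : sys (X + C ((b : ℕ) : ℤ)) P h 0 (n : ℤ) = ((n + b : ℕ) : ℤ) := by
        show (X + C ((b : ℕ) : ℤ)).eval (n : ℤ) = ((n + b : ℕ) : ℤ)
        rw [eval_add, eval_X, eval_C]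
        push_cast
        rfl
      rw [this, Int.toNat_natCast]
    rw [e]
  rw [Finset.sum_congr rfl h1, Finset.sum_comm]
  refine Finset.sum_congr rfl fun n _ => ?_
  rw [Finset.card_filter]

/-- **Y1b.** Proof. `Y1_sum`, `Y1_pnt` for the `n ≤ Z' ≤ Z`. -/
theorem Y1_main (ε : ℝ) (hε : 0 < ε) : ∃ Z0 : ℕ, ∀ Z Z' : ℕ, Z0 ≤ Z → Z' ≤ Z → ∀ (k : ℕ) (P : Fin k → ℤ[X]) (h : Fin k → ℕ),
    |(∑ b ∈ Ico Z (2 * Z), (cnt (sys (X + C ((b : ℕ) : ℤ)) P h) 1 Z' : ℝ)) * Real.log Z -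
      Z * cnt (ran P h) 1 Z'| ≤ ε * (Z * cnt (ran P h) 1 Z') := by
  obtain ⟨Z0, hZ0⟩ := Y1_pnt ε hε
  refine ⟨Z0, fun Z Z' hZ hZ' k P h => ?_⟩
  have h1 := Y1_sum P h Z Z'
  have h2 : (∑ b ∈ Ico Z (2 * Z), (cnt (sys (X + C ((b : ℕ) : ℤ)) P h) 1 Z' : ℝ)) =
      ∑ n ∈ (Ico 1 (1 + Z')).filter (fun n : ℕ => ∀ i, (ran P h i (n : ℤ)).toNat.Prime),
        ((((Ico Z (2 * Z)).filter fun b => (n + b).Prime).card : ℕ) : ℝ) := by
    rw [← Nat.cast_sum, h1, Nat.cast_sum]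
  have h3 : (cnt (ran P h) 1 Z' : ℝ) =
      ∑ n ∈ (Ico 1 (1 + Z')).filter (fun n : ℕ => ∀ i, (ran P h i (n : ℤ)).toNat.Prime), (1 : ℝ) := by
    unfold cnt
    rw [Finset.sum_const, nsmul_eq_mul, mul_one]
  rw [h2, h3, Finset.mul_sum, Finset.mul_sum, Finset.sum_mul, ← Finset.sum_sub_distrib]
  refine (Finset.abs_sum_le_sum_abs _ _).trans (Finset.sum_le_sum fun n hn => ?_)
  have hn1 := Finset.mem_Ico.1 (Finset.mem_filter.1 hn).1
  rw [mul_one]
  exact hZ0 Z hZ n (by omega)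

end Pool.Agent.HLA
end

-- from Lib.HLA.Y2A
section

/-!
# LOGA, chunk Y2A (M): the mean of `tdf d` over the linear coordinates `n + b`
-/

open Finset Polynomial

namespace Pool.Agent.HLA

open Pool.Agent.Lib.H68T Pool.Agent.Lib.H18Q Pool.Agent.Lib.H59P Pool.Agent.Lib.H24P
open Pool.Agent.HUP Pool.Agent.H9P

/-- The local factor of the system with linear coordinate `n + b`. -/
theorem y2_form {k : ℕ} (P : Fin k → ℤ[X]) (h : Fin k → ℕ) (l : ℕ) (b : ℤ) :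
    tpf l (sys (X + C b) P h) =
      (∑ n ∈ range l, (1 + gl l ((n : ℤ) + b)) * ∏ i, (1 + gl l (ran P h i (n : ℤ)))) / l - 1 := by
  unfold tpf
  congr 2
  refine Finset.sum_congr rfl fun n _ => ?_
  rw [Fin.prod_univ_succ]
  congr 1
  unfold sys
  simp [Fin.cons_zero]

/-- Mean of a local factor over `b`. Proof. Unfold `tpf`; exchange the sums; for every `n` the numbers `n + b`, `b < l`, run through all classes modulo `l`, so `∑_b (1 + gl l (n + b)) = l` (`t2_one` of `H24P/T2.lean` for `B = X + C n`). -/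
theorem y2_one {k : ℕ} (P : Fin k → ℤ[X]) (h : Fin k → ℕ) (l : ℕ) (hl : l.Prime) :
    ∑ b ∈ range l, tpf l (sys (X + C ((b : ℕ) : ℤ)) P h) = l * tpf l (ran P h) := by
  have hl0 : (l : ℝ) ≠ 0 := by exact_mod_cast hl.ne_zero
  have hlp : Prime (l : ℤ) := Nat.prime_iff_prime_int.1 hl
  have hlin : ∀ n : ℕ, ∑ b ∈ range l, (1 + gl l ((n : ℤ) + (b : ℤ))) = l := by
    intro n
    have h1 := b1_lin l hl 1 (n : ℤ) (fun h => hlp.not_dvd_one h)
    simpa using h1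
  have h1 : ∀ b ∈ range l, tpf l (sys (X + C ((b : ℕ) : ℤ)) P h) =
      (∑ n ∈ range l, (1 + gl l ((n : ℤ) + (b : ℤ))) * ∏ i, (1 + gl l (ran P h i (n : ℤ)))) / l - 1 :=
    fun b _ => y2_form P h l b
  rw [Finset.sum_congr rfl h1, Finset.sum_sub_distrib, ← Finset.sum_div, Finset.sum_comm]
  have h2 : ∀ n ∈ range l, ∑ b ∈ range l,
      (1 + gl l ((n : ℤ) + (b : ℤ))) * ∏ i, (1 + gl l (ran P h i (n : ℤ))) =
      l * ∏ i, (1 + gl l (ran P h i (n : ℤ))) := by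
    intro n _
    rw [← Finset.sum_mul, hlin]
  rw [Finset.sum_congr rfl h2, ← Finset.mul_sum]
  unfold tpf
  simp only [Finset.sum_const, Finset.card_range, nsmul_eq_mul, mul_one]
  field_simp

theorem y2_tp {k : ℕ} (P : Fin k → ℤ[X]) (h : Fin k → ℕ) (l : ℕ) (b b' : ℤ) (hb : (l : ℤ) ∣ b - b') :
    tpf l (sys (X + C b) P h) = tpf l (sys (X + C b') P h) := by
  rw [y2_form, y2_form]
  obtain ⟨c, hc⟩ := hb
  congr 2
  refine Finset.sum_congr rfl fun n _ => ?_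
  have h1 : (n : ℤ) + b = ((n : ℤ) + b') + c * l := by linarith
  rw [h1, gl_per]

/-- `tdf d (sys (X + C b) P h)` depends only on `b` modulo `d`. -/
theorem y2_per {k : ℕ} (P : Fin k → ℤ[X]) (h : Fin k → ℕ) (d b b' : ℕ) (hd : Squarefree d) (hb : (d : ℤ) ∣ (b : ℤ) - b') :
    tdf d (sys (X + C ((b : ℕ) : ℤ)) P h) = tdf d (sys (X + C ((b' : ℕ) : ℤ)) P h) := by
  unfold tdf
  refine Finset.prod_congr rfl fun l hl => ?_
  exact y2_tp P h l b b' ((Int.natCast_dvd_natCast.2 (Nat.dvd_of_mem_primeFactors hl)).trans hb)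

/-- Mean over a period, squarefree `d`. Proof. Induction over the prime factors (chinese remainder theorem; `M3d` of `H59P` is the product rule for means of periodic functions with coprime periods, used in `T2_unit`). -/
theorem y2_period {k : ℕ} (P : Fin k → ℤ[X]) (h : Fin k → ℕ) (d : ℕ) (hd : Squarefree d) :
    ∑ b ∈ range d, tdf d (sys (X + C ((b : ℕ) : ℤ)) P h) = d * tdf d (ran P h) := by
  have hprod : ∏ l ∈ d.primeFactors, l = d := Nat.prod_primeFactors_of_squarefree hd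
  have h1 := b1_set (fun l b => tpf l (sys (X + C b) P h))
    (fun l b => y2_tp P h l (b + l) b ⟨1, by ring⟩) d.primeFactors
    (fun l hl => Nat.prime_of_mem_primeFactors hl)
  rw [hprod] at h1
  unfold tdf
  rw [h1, Finset.prod_congr rfl fun l hl => y2_one P h l (Nat.prime_of_mem_primeFactors hl),
    Finset.prod_mul_distrib, ← Nat.cast_prod, hprod]

/-- Trivial bound: `0 ≤ 1 + tpf l ≤ (l/(l-1))^(k+1) ≤ 2^(k+1)` (`P0_tp`), so `|tpf l| ≤ 2^(k+1) ≤ l^(k+1)`, `|tdf d| ≤ ∏_{l ∣ d} l^(k+1) ≤ d^(k+1)`. -/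
theorem y2_triv {k : ℕ} (φ : Fin k → ℤ → ℤ) (d : ℕ) (hd : 0 < d) : |tdf d φ| ≤ (d : ℝ) ^ k := by
  unfold tdf
  rw [Finset.abs_prod]
  have h1 : ∏ l ∈ d.primeFactors, |tpf l φ| ≤ ∏ l ∈ d.primeFactors, (l : ℝ) ^ k := by
    refine Finset.prod_le_prod (fun l _ => abs_nonneg _) fun l hl => ?_
    have hlp := Nat.prime_of_mem_primeFactors hl
    obtain ⟨ha, hb⟩ := P0_tp l hlp φ
    have hl2 : (2 : ℝ) ≤ l := by exact_mod_cast hlp.two_le
    have h2 : (l : ℝ) / ((l : ℝ) - 1) ≤ l := by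
      rw [div_le_iff₀ (by linarith)]
      nlinarith
    have h3 : ((l : ℝ) / ((l : ℝ) - 1)) ^ k ≤ (l : ℝ) ^ k :=
      pow_le_pow_left₀ (div_nonneg (by linarith) (by linarith)) h2 k
    have h4 : (1 : ℝ) ≤ (l : ℝ) ^ k := one_le_pow₀ (by linarith)
    rw [abs_le]
    constructor <;> linarith
  refine h1.trans ?_
  rw [Finset.prod_pow, ← Nat.cast_prod]
  refine pow_le_pow_left₀ (Nat.cast_nonneg _) ?_ k
  exact_mod_cast Nat.le_of_dvd hd (Nat.prod_primeFactors_dvd d)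

/-- Sum of a periodic function over a complete period. -/
theorem y2_win (f : ℕ → ℝ) (d : ℕ) (hf : ∀ b, f (b % d) = f b) (b0 : ℕ) :
    ∑ b ∈ Ico b0 (b0 + d), f b = ∑ b ∈ range d, f b := by
  rw [← Nat.image_Ico_mod b0 d, Finset.sum_image (Nat.mod_injOn_Ico b0 d)]
  exact Finset.sum_congr rfl fun b _ => (hf b).symm

theorem y2_win' (f : ℕ → ℝ) (d : ℕ) (hf : ∀ b, f (b % d) = f b) (b0 q : ℕ) :
    ∑ b ∈ Ico b0 (b0 + d * q), f b = q * ∑ b ∈ range d, f b := by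
  induction q with
  | zero => simp
  | succ q ih =>
    rw [← Finset.sum_Ico_consecutive f (Nat.le_add_right b0 (d * q))
      (by rw [mul_add, ← add_assoc]; exact Nat.le_add_right _ _ : b0 + d * q ≤ b0 + d * (q + 1)), ih,
      mul_add, mul_one, ← add_assoc, y2_win f d hf]
    push_cast
    ring

/-- **Y2a.** Mean over an interval of `b`. Proof. `⌊L/d⌋` complete periods (`y2_period`, `y2_per`) and at most `d` further terms (`y2_triv` for `k + 1` and `k` coordinates). -/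
theorem Y2_mean {k : ℕ} (P : Fin k → ℤ[X]) (h : Fin k → ℕ) (d b0 L : ℕ) (hd : Squarefree d) :
    |∑ b ∈ Ico b0 (b0 + L), tdf d (sys (X + C ((b : ℕ) : ℤ)) P h) - L * tdf d (ran P h)| ≤ 2 * (d : ℝ) ^ (k + 2) := by
  have hd0 : 0 < d := Nat.pos_of_ne_zero hd.ne_zero
  have hd1 : (1 : ℝ) ≤ d := by exact_mod_cast hd0
  set f : ℕ → ℝ := fun b => tdf d (sys (X + C ((b : ℕ) : ℤ)) P h) with hf
  have hfp : ∀ b, f (b % d) = f b := by
    intro b
    refine y2_per P h d (b % d) b hd ?_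
    have h1 := Nat.mod_add_div b d
    have h2 : ((b % d : ℕ) : ℤ) + d * ((b / d : ℕ) : ℤ) = b := by exact_mod_cast h1
    exact ⟨-((b / d : ℕ) : ℤ), by linarith⟩
  have hL : L = d * (L / d) + L % d := (Nat.div_add_mod L d).symm
  have hr : L % d < d := Nat.mod_lt _ hd0
  set q := L / d with hq
  set r := L % d with hrr
  have h1 : ∑ b ∈ Ico b0 (b0 + L), f b =
      q * (d * tdf d (ran P h)) + ∑ b ∈ Ico (b0 + d * q) (b0 + L), f b := by
    rw [← Finset.sum_Ico_consecutive f (Nat.le_add_right b0 (d * q))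
      (by omega : b0 + d * q ≤ b0 + L), y2_win' f d hfp, hf]
    simp only
    rw [y2_period P h d hd]
  have h2 : |∑ b ∈ Ico (b0 + d * q) (b0 + L), f b| ≤ r * (d : ℝ) ^ (k + 1) := by
    refine (Finset.abs_sum_le_sum_abs _ _).trans ?_
    refine (Finset.sum_le_sum fun b _ => y2_triv (sys (X + C ((b : ℕ) : ℤ)) P h) d hd0).trans ?_
    rw [Finset.sum_const, Nat.card_Ico, nsmul_eq_mul]
    have h3 : b0 + L - (b0 + d * q) = r := by omega
    rw [h3]
  have h3 := y2_triv (ran P h) d hd0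
  have hLr : (L : ℝ) = d * q + r := by exact_mod_cast hL
  have h4 : ∑ b ∈ Ico b0 (b0 + L), f b - L * tdf d (ran P h) =
      ∑ b ∈ Ico (b0 + d * q) (b0 + L), f b - r * tdf d (ran P h) := by
    rw [h1, hLr]
    ring
  rw [h4]
  have h5 : |(r : ℝ) * tdf d (ran P h)| ≤ r * (d : ℝ) ^ k := by
    rw [abs_mul, Nat.abs_cast]
    exact mul_le_mul_of_nonneg_left h3 (Nat.cast_nonneg _)
  have h6 : (r : ℝ) ≤ d := by exact_mod_cast hr.le
  have h7 : (r : ℝ) * (d : ℝ) ^ (k + 1) ≤ (d : ℝ) ^ (k + 2) := by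
    calc (r : ℝ) * (d : ℝ) ^ (k + 1) ≤ d * (d : ℝ) ^ (k + 1) :=
          mul_le_mul_of_nonneg_right h6 (by positivity)
      _ = (d : ℝ) ^ (k + 2) := by ring
  have h8 : (r : ℝ) * (d : ℝ) ^ k ≤ (d : ℝ) ^ (k + 2) := by
    calc (r : ℝ) * (d : ℝ) ^ k ≤ d * (d : ℝ) ^ k :=
          mul_le_mul_of_nonneg_right h6 (by positivity)
      _ = (d : ℝ) ^ (k + 1) := by ring
      _ ≤ (d : ℝ) ^ (k + 2) := pow_le_pow_right₀ hd1 (by omega)
  calc |∑ b ∈ Ico (b0 + d * q) (b0 + L), f b - r * tdf d (ran P h)|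
      ≤ |∑ b ∈ Ico (b0 + d * q) (b0 + L), f b| + |(r : ℝ) * tdf d (ran P h)| := abs_sub _ _
    _ ≤ 2 * (d : ℝ) ^ (k + 2) := by linarith

end Pool.Agent.HLA
end

-- from Lib.HUP.W1
section

/-!
# Project HUP, W1 (helper37): translates along the values of a polynomial, one function
-/

open Finset

namespace Pool.Agent.HUP

open Pool.Agent.H44W (ee)
open Pool.Agent.Lib.H84V (nd nd_nonneg exists_nd)
open Pool.Agent.HUK

/-- The autocorrelation of a function supported in `[-Y, Y)`. -/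
noncomputable def Ag (Y : ℕ) (g : ℤ → ℂ) (m : ℤ) : ℂ := ∑ y ∈ Ico (-(Y : ℤ)) Y, DD m g y

theorem w1_zero {Y : ℕ} {g : ℤ → ℂ} (hg : Spt Y g) (m : ℤ) (hm : (2 * Y : ℤ) ≤ |m|) : Ag Y g m = 0 := by
  unfold Ag
  refine Finset.sum_eq_zero fun y hy => ?_
  rw [mem_Ico] at hy
  unfold DD
  rw [hg (y + m), map_zero, mul_zero]
  rw [mem_Ico]
  rcases abs_cases m with ⟨h, _⟩ | ⟨h, _⟩
  · omega
  · omega




end Pool.Agent.HUP
end

-- from Lib.HUP.W3
section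

/-!
# Project HUP, W3 (helper37): POLY2, Gowers norms of the differences along a polynomial
-/

open Finset

namespace Pool.Agent.HUP

open Pool.Agent.H44W (ee)
open Pool.Agent.Lib.H84V (nd nd_nonneg exists_nd)
open Pool.Agent.HUK

theorem w3_GG (Y r : ℕ) (f : ℤ → ℂ) (m : ℤ) :
    GG Y r (DD m f) = ∑ h ∈ bxS r (2 * Y), (Ag Y (DV h f) m).re := by
  unfold GG
  rw [Complex.re_sum]
  refine Finset.sum_congr rfl fun h _ => ?_
  unfold FF Ag DV
  rw [D0_DLDD]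

theorem w3_zero {Y r : ℕ} {f : ℤ → ℂ} (hf : Spt Y f) (m : ℤ) (hm : (2 * Y : ℤ) ≤ |m|) : GG Y r (DD m f) = 0 := by
  rw [w3_GG]
  refine Finset.sum_eq_zero fun h _ => ?_
  rw [w1_zero (D0_SDV hf h) m hm, Complex.zero_re]









end Pool.Agent.HUP
end

-- from Lib.HUP.W4
section

/-!
# Project HUP, W4 (helper37): POLY2 in the form used by `P3_main`; windows, translations; polynomials are `PF`
-/

open Finset

namespace Pool.Agent.HUP

open Pool.Agent.H44W (ee)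
open Pool.Agent.Lib.H84V (nd nd_nonneg exists_nd)
open Pool.Agent.HUK

/-! ### Windows and translations -/

theorem w4_sum {Y Y' : ℕ} {f : ℤ → ℂ} (a : ℤ) (h : Spt Y f) (h' : Spt Y' (fun y => f (y + a))) :
    ∑ y ∈ Ico (-(Y : ℤ)) Y, f y = ∑ y ∈ Ico (-(Y' : ℤ)) Y', f (y + a) := by
  have h1 : ∑' y, f y = ∑ y ∈ Ico (-(Y : ℤ)) Y, f y := tsum_eq_sum fun y hy => h y hy
  have h2 : ∑' y, f (y + a) = ∑ y ∈ Ico (-(Y' : ℤ)) Y', f (y + a) := tsum_eq_sum fun y hy => h' y hy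
  rw [← h1, ← h2]
  exact ((Equiv.addRight a).tsum_eq f).symm

theorem w4_DD (a b : ℤ) (f : ℤ → ℂ) : DD b (fun y => f (y + a)) = fun y => DD b f (y + a) := by
  funext y
  unfold DD
  rw [add_right_comm]



/-- Gowers sums depend neither on the window nor on translations. -/
theorem w4_GG (s : ℕ) : ∀ (Y Y' : ℕ) (f : ℤ → ℂ) (a : ℤ), Spt Y f → Spt Y' (fun y => f (y + a)) →
    GG Y s f = GG Y' s (fun y => f (y + a)) := by
  induction s with
  | zero =>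
    intro Y Y' f a h h'
    have h0 : ∀ (N : ℕ), bxS 0 N = {fun i => Fin.elim0 i} := by
      intro N
      unfold bxS
      ext x
      rw [Fintype.mem_piFinset, mem_singleton]
      exact ⟨fun _ => funext fun i => Fin.elim0 i, fun _ i => Fin.elim0 i⟩
    unfold GG
    rw [h0, h0, sum_singleton, sum_singleton]
    congr 1
    unfold FF DV
    simp only [List.ofFn_zero]
    exact w4_sum a h h'
  | succ s ih =>
    intro Y Y' f a h h'
    rw [D0_succ, D0_succ]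
    have e1 : ∀ b : ℤ, GG Y s (DD b f) = GG Y' s (DD b (fun y => f (y + a))) := by
      intro b
      rw [w4_DD]
      refine ih Y Y' (DD b f) a (D0_SDD h b) ?_
      have h2 := D0_SDD h' b
      rw [w4_DD] at h2
      exact h2
    have e2 : ∀ (Z : ℕ) (g : ℤ → ℂ), Spt Z g → ∀ R : ℕ, Z ≤ R → ∑ b ∈ Ioo (-(2 * Z : ℤ)) (2 * Z), GG Z s (DD b g) =
        ∑ b ∈ Ioo (-(2 * R : ℤ)) (2 * R), GG Z s (DD b g) := by
      intro Z g hg R hR
      refine Finset.sum_subset ?_ fun b _ hb => ?_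
      · intro b hb
        rw [mem_Ioo] at hb ⊢
        omega
      · rw [mem_Ioo] at hb
        refine w3_zero hg b ?_
        rcases abs_cases b with ⟨h, _⟩ | ⟨h, _⟩
        · omega
        · omega
    rw [e2 Y f h (Y + Y') (by omega), e2 Y' _ h' (Y + Y') (by omega)]
    exact Finset.sum_congr rfl fun b _ => e1 b









end Pool.Agent.HUP
end

-- from Lib.HUP.S4A
section

/-!
# Project HUP, S4A (helper37): one term of the telescoping sum (`P3_main` and `poly2_main`), numerical form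
-/

open Finset

namespace Pool.Agent.HUP

open Pool.Agent.H44W (ee)
open Pool.Agent.HUK

theorem s4a_large (A c : ℝ) (hc : 0 < c) : ∃ X0 : ℕ, ∀ X : ℕ, X0 ≤ X → A ≤ (X : ℝ) ^ c := by
  have h := ((tendsto_rpow_atTop hc).comp tendsto_natCast_atTop_atTop).eventually
    (Filter.eventually_ge_atTop A)
  obtain ⟨X0, h0⟩ := Filter.eventually_atTop.1 h
  exact ⟨X0, fun X hX => h0 X hX⟩


end Pool.Agent.HUP
end

-- from Lib.HUP.S4B
section

/-!
# Project HUP, S4B (helper37): the interface `OneT` (one term of the telescoping sum), proved for forms which are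
pairwise not proportional
-/

open Finset Polynomial

namespace Pool.Agent.HUP

open Pool.Agent.HUK
open Pool.Agent.H9U (JJ)



theorem s4b_JJ {Y : ℕ} {y : ℤ} (h : y ∈ JJ Y) : 2 * (Y : ℤ) ≤ y ∧ 4 * (y - 2 * Y) < Y := by
  unfold JJ at h
  rw [mem_Ico] at h
  omega






end Pool.Agent.HUP
end

-- from Lib.HUP.S4T
section

/-!
# Project HUP, S4T (helper37): the primes may be replaced by their projections, mean square over the parameters
-/

open Finset Polynomial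

namespace Pool.Agent.HUP

open Pool.Agent.Lib.H68T Pool.Agent.Lib.H18Q Pool.Agent.Lib.H59P Pool.Agent.Lib.H24P
open Pool.Agent.HUK (GG Spt PK DD DL DV bxS D0_nn)
open Pool.Agent.H9U (JJ cutJ Er Rgm)

/-! ### Numerical part -/

theorem s4t_num (k d E : ℕ) (δ τ : ℝ) (hδ : 0 < δ) (hτ : 0 < τ) (hτδ : τ * (4 + E + d) ≤ δ / 4) :
    ∃ Q0 : ℕ, 1 ≤ Q0 ∧ ∀ Q X X1 X' : ℕ, Q0 ≤ Q → Q ≤ X → (X : ℝ) ≤ X1 * (Q : ℝ) ^ τ → (X' : ℝ) ≤ 2 * X * (Q : ℝ) ^ τ →
    X ≤ X' → ∀ S : ℝ, 0 ≤ S → (X : ℝ) ^ E ≤ (Q : ℝ) ^ (τ * d) * S →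
    (k : ℝ) ^ 2 * (X : ℝ) ^ (δ / 4) * (X' : ℝ) ^ (2 + (E : ℝ) - δ) ≤ (X1 : ℝ) ^ 2 * S * (Q : ℝ) ^ (-(δ / 4)) := by
  obtain ⟨Q1, hQ1⟩ := s4a_large ((k : ℝ) ^ 2 * 2 ^ (2 + E)) (δ / 4) (by positivity)
  refine ⟨max 1 Q1, le_max_left _ _, ?_⟩
  intro Q X X1 X' hQ hQX hX hX' hXX' S hS hSE
  have hQ1' : 1 ≤ Q := (le_max_left _ _).trans hQ
  have hQr : (1 : ℝ) ≤ Q := by exact_mod_cast hQ1'
  have hQ0 : (0 : ℝ) < Q := by linarith
  have hXr : (1 : ℝ) ≤ X := by exact_mod_cast hQ1'.trans hQX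
  have hX0 : (0 : ℝ) < X := by linarith
  have hX'X : (X : ℝ) ≤ X' := by exact_mod_cast hXX'
  have hX'0 : (0 : ℝ) < X' := by linarith
  have hQXr : (Q : ℝ) ≤ X := by exact_mod_cast hQX
  have h1 : (X' : ℝ) ^ (2 + (E : ℝ) - δ) ≤ 2 ^ (2 + E) * ((X : ℝ) ^ 2 * X ^ E) * (Q : ℝ) ^ (τ * (2 + E)) * (X : ℝ) ^ (-δ) := by
    have e1 : (X' : ℝ) ^ (2 + (E : ℝ) - δ) = (X' : ℝ) ^ (2 + E) * (X' : ℝ) ^ (-δ) := by
      rw [sub_eq_add_neg, Real.rpow_add hX'0]
      congr 1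
      rw [← Real.rpow_natCast]
      congr 1
      push_cast
      ring
    rw [e1]
    have e2 : (X' : ℝ) ^ (2 + E) ≤ (2 * X * (Q : ℝ) ^ τ) ^ (2 + E) := pow_le_pow_left₀ hX'0.le hX' _
    have e3 : (2 * X * (Q : ℝ) ^ τ) ^ (2 + E) = 2 ^ (2 + E) * ((X : ℝ) ^ 2 * X ^ E) * (Q : ℝ) ^ (τ * (2 + E)) := by
      rw [mul_pow, mul_pow, pow_add (X : ℝ) 2 E, Real.rpow_mul hQ0.le]
      congr 1
      rw [← Real.rpow_natCast]
      congr 1
      push_cast
      ring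
    have e4 : (X' : ℝ) ^ (-δ) ≤ (X : ℝ) ^ (-δ) := Real.rpow_le_rpow_of_nonpos hX0 hX'X (by linarith)
    rw [← e3]
    exact mul_le_mul e2 e4 (by positivity) (by positivity)
  have h2 : (X : ℝ) ^ 2 ≤ (X1 : ℝ) ^ 2 * (Q : ℝ) ^ (τ * 2) := by
    calc (X : ℝ) ^ 2 ≤ (X1 * (Q : ℝ) ^ τ) ^ 2 := pow_le_pow_left₀ hX0.le hX 2
      _ = _ := by
        rw [mul_pow, Real.rpow_mul hQ0.le, Real.rpow_two]
  have h3 : (X : ℝ) ^ 2 * X ^ E ≤ (X1 : ℝ) ^ 2 * S * (Q : ℝ) ^ (τ * (2 + d)) := by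
    calc (X : ℝ) ^ 2 * X ^ E ≤ ((X1 : ℝ) ^ 2 * (Q : ℝ) ^ (τ * 2)) * ((Q : ℝ) ^ (τ * d) * S) :=
          mul_le_mul h2 hSE (by positivity) (by positivity)
      _ = (X1 : ℝ) ^ 2 * S * ((Q : ℝ) ^ (τ * 2) * (Q : ℝ) ^ (τ * d)) := by ring
      _ = _ := by
        rw [← Real.rpow_add hQ0]
        congr 2
        ring
  have h4 : (X : ℝ) ^ (δ / 4) * (X : ℝ) ^ (-δ) ≤ (Q : ℝ) ^ (-(3 * δ / 4)) := by
    rw [← Real.rpow_add hX0]
    calc (X : ℝ) ^ (δ / 4 + -δ) ≤ (Q : ℝ) ^ (δ / 4 + -δ) := Real.rpow_le_rpow_of_nonpos hQ0 hQXr (by linarith)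
      _ = _ := by congr 1; ring
  have h5 := hQ1 Q ((le_max_right _ _).trans hQ)
  calc (k : ℝ) ^ 2 * (X : ℝ) ^ (δ / 4) * (X' : ℝ) ^ (2 + (E : ℝ) - δ)
      ≤ (k : ℝ) ^ 2 * (X : ℝ) ^ (δ / 4) * (2 ^ (2 + E) * ((X : ℝ) ^ 2 * X ^ E) * (Q : ℝ) ^ (τ * (2 + E)) * (X : ℝ) ^ (-δ)) :=
        mul_le_mul_of_nonneg_left h1 (by positivity)
    _ = ((k : ℝ) ^ 2 * 2 ^ (2 + E)) * ((X : ℝ) ^ 2 * X ^ E) * (Q : ℝ) ^ (τ * (2 + E)) * ((X : ℝ) ^ (δ / 4) * (X : ℝ) ^ (-δ)) := by ring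
    _ ≤ (Q : ℝ) ^ (δ / 4) * ((X1 : ℝ) ^ 2 * S * (Q : ℝ) ^ (τ * (2 + d))) * (Q : ℝ) ^ (τ * (2 + E)) * (Q : ℝ) ^ (-(3 * δ / 4)) := by
        refine mul_le_mul (mul_le_mul_of_nonneg_right (mul_le_mul h5 h3 (by positivity) (by positivity)) (by positivity)) h4 (by positivity)
          (by positivity)
    _ = (X1 : ℝ) ^ 2 * S * ((Q : ℝ) ^ (δ / 4) * (Q : ℝ) ^ (τ * (2 + d)) * (Q : ℝ) ^ (τ * (2 + E)) * (Q : ℝ) ^ (-(3 * δ / 4))) := by ring
    _ = (X1 : ℝ) ^ 2 * S * (Q : ℝ) ^ (δ / 4 + τ * (2 + d) + τ * (2 + E) + -(3 * δ / 4)) := by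
        rw [← Real.rpow_add hQ0, ← Real.rpow_add hQ0, ← Real.rpow_add hQ0]
    _ ≤ _ := by
        refine mul_le_mul_of_nonneg_left (Real.rpow_le_rpow_of_exponent_le hQr ?_) (by positivity)
        nlinarith

theorem s4t_val (M : ℕ) (h : ℤ) (v : ℤ) (h8 : 8 ∣ M) (hM : 80 ≤ M) (hv : 1000 * |v| ≤ M) (h1 : 151 * (M : ℤ) ≤ 100 * h)
    (h2 : 100 * h < 168 * (M : ℤ)) : v + h ∈ JJ (Ysc M) := by
  obtain ⟨m, rfl⟩ := h8
  have hY : Ysc (8 * m) = 6 * m := by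
    unfold Ysc
    omega
  rw [hY]
  unfold JJ
  rw [mem_Ico]
  have hv1 := abs_le.1 (show |v| ≤ 8 * (m : ℤ) / 1000 by push_cast at hv; omega)
  push_cast at h1 h2 ⊢
  constructor
  · omega
  · omega

theorem s4t_JJ {Y : ℕ} {m : ℤ} (h : m ∈ JJ Y) : (Y : ℤ) ≤ m ∧ m ≤ 4 * Y := by
  have h1 := s4b_JJ h
  constructor <;> omega

theorem s4t_DL (l : List ℤ) (a : ℝ) (f : ℤ → ℂ) : DL l (fun z => (a : ℂ) * f z) = fun z => ((a ^ (2 ^ l.length) : ℝ) : ℂ) * DL l f z :=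
  Pool.Agent.HUK.DL_smul l a f

/-- Scaling. -/
theorem s4t_GG (Y s : ℕ) (a : ℝ) (f : ℤ → ℂ) : GG Y s (fun y => (a : ℂ) * f y) = a ^ (2 ^ s) * GG Y s f := by
  unfold GG
  rw [← Complex.re_ofReal_mul, Finset.mul_sum]
  congr 1
  refine Finset.sum_congr rfl fun h _ => ?_
  unfold Pool.Agent.HUK.FF
  rw [Finset.mul_sum]
  refine Finset.sum_congr rfl fun y _ => ?_
  unfold DV
  rw [s4t_DL, List.length_ofFn]

theorem s4t_scale (Y s : ℕ) (hs : 1 ≤ s) (a : ℝ) (ha : 0 ≤ a) (ha1 : a ≤ 1) (f : ℤ → ℂ) (hf : Spt Y f) :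
    GG Y s (fun y => (a : ℂ) * f y) ≤ GG Y s f := by
  rw [s4t_GG]
  have h1 : a ^ (2 ^ s) ≤ 1 := pow_le_one₀ ha ha1
  have h2 := D0_nn hf hs
  nlinarith

/-- Independence of the window. -/
theorem s4t_win (Y Y' s : ℕ) (f : ℤ → ℂ) (h : Spt Y f) (h' : Spt Y' f) : GG Y s f = GG Y' s f := by
  have e : (fun y => f (y + 0)) = f := by
    funext y
    rw [add_zero]
  have h1 := w4_GG s Y Y' f 0 h (by rw [e]; exact h')
  rw [e] at h1
  exact h1

/-! ### Telescoping -/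

/-- the functions of the telescoping sum -/
noncomputable def s4tf {k : ℕ} (Q : ℕ) (M : Fin k → ℕ) (j i : Fin k) (m : ℤ) : ℝ :=
  if i < j then Lk Q (Ysc (M i) / Q ^ 2) m else if i = j then lp m - Lk Q (Ysc (M i) / Q ^ 2) m else lp m

theorem s4t_tel {k : ℕ} (P : Fin k → ℤ[X]) (Q X1 : ℕ) (M : Fin k → ℕ) (w : ℕ → ℝ) (h : Fin k → ℕ) :
    ∑ n ∈ Ico X1 (2 * X1), w n * ∏ i, lp ((P i).eval (n : ℤ) + h i) - Rw Q X1 P M w h =
      ∑ j, ∑ n ∈ Ico X1 (2 * X1), w n * ∏ i, s4tf Q M j i ((P i).eval (n : ℤ) + h i) := by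
  unfold Rw
  rw [← Finset.sum_sub_distrib, Finset.sum_comm]
  refine Finset.sum_congr rfl fun n hn => ?_
  rw [← mul_sub, ← Finset.mul_sum]
  congr 1
  rw [Pool.Agent.Lib.H59P.S3 (fun i => lp ((P i).eval (n : ℤ) + h i))
    (fun i => Lk Q (Ysc (M i) / Q ^ 2) ((P i).eval (n : ℤ) + h i))]
  rfl

/-- the functions of the telescoping sum, cut off and normalised -/
noncomputable def s4tg {k : ℕ} (W : ℝ) (Q : ℕ) (M : Fin k → ℕ) (j i : Fin k) (m : ℤ) : ℂ :=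
  if m ∈ JJ (Ysc (M i)) then (((s4tf Q M j i m) / W : ℝ) : ℂ) else 0

theorem s4tg_cut {k : ℕ} (W : ℝ) (Q : ℕ) (M : Fin k → ℕ) (j : Fin k) (m : ℤ) :
    s4tg W Q M j j m = ((1 / W : ℝ) : ℂ) * cutJ (Ysc (M j)) (Er Q Q (Ysc (M j))) m := by
  unfold s4tg cutJ s4tf Er Pool.Agent.H9S.lc Pool.Agent.H9S.Lc
  by_cases h : m ∈ JJ (Ysc (M j))
  · rw [if_pos h, if_pos h, if_neg (lt_irrefl j), if_pos rfl]
    push_cast
    ring
  · rw [if_neg h, if_neg h, mul_zero]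

theorem s4t_le_sum {k : ℕ} (f : Fin k → ℕ) (i : Fin k) : f i ≤ ∑ i, f i :=
  Finset.single_le_sum (f := f) (fun _ _ => Nat.zero_le _) (Finset.mem_univ i)

/-- The values of the polynomials are small. -/
theorem s4t_poly (A X1 M : ℕ) (P : ℤ[X]) (hA : P.natDegree ≤ A)
    (hlo : ∀ j, 1000 * (A + 1) ^ 2 * (P.coeff j).natAbs * (2 * X1) ^ j ≤ M) (n : ℕ) (hn : n < 2 * X1) :
    1000 * |P.eval (n : ℤ)| ≤ M := by
  rw [Polynomial.eval_eq_sum_range]
  have h1 : ∀ j ∈ range (P.natDegree + 1), 1000 * ((A : ℤ) + 1) * |P.coeff j * (n : ℤ) ^ j| ≤ M := by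
    intro j _
    have h2 := hlo j
    have h3 : (n : ℤ) ^ j ≤ (2 * X1) ^ j := pow_le_pow_left₀ (by positivity) (by exact_mod_cast hn.le) j
    rw [abs_mul, abs_pow, Nat.abs_cast]
    have h4 : ((1000 * (A + 1) ^ 2 * (P.coeff j).natAbs * (2 * X1) ^ j : ℕ) : ℤ) ≤ M := by exact_mod_cast h2
    push_cast at h4
    have h5 : (0 : ℤ) ≤ |P.coeff j| := abs_nonneg _
    have h6 : 1000 * ((A : ℤ) + 1) * (|P.coeff j| * (n : ℤ) ^ j) ≤ 1000 * ((A : ℤ) + 1) * (|P.coeff j| * (2 * X1) ^ j) :=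
      mul_le_mul_of_nonneg_left (mul_le_mul_of_nonneg_left h3 h5) (by positivity)
    have h7 : 0 ≤ |P.coeff j| * (2 * (X1 : ℤ)) ^ j := by positivity
    have h8 : 1000 * ((A : ℤ) + 1) * (|P.coeff j| * (2 * X1) ^ j) ≤ 1000 * ((A : ℤ) + 1) ^ 2 * (|P.coeff j| * (2 * X1) ^ j) := by
      refine mul_le_mul_of_nonneg_right ?_ h7
      nlinarith [Int.natCast_nonneg A]
    have h9 : 1000 * ((A : ℤ) + 1) ^ 2 * (|P.coeff j| * (2 * X1) ^ j) = 1000 * ((A : ℤ) + 1) ^ 2 * |P.coeff j| * (2 * X1) ^ j := by ring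
    linarith
  have h2 : 1000 * ((A : ℤ) + 1) * |∑ j ∈ range (P.natDegree + 1), P.coeff j * (n : ℤ) ^ j| ≤ ((A : ℤ) + 1) * M := by
    calc 1000 * ((A : ℤ) + 1) * |∑ j ∈ range (P.natDegree + 1), P.coeff j * (n : ℤ) ^ j|
        ≤ 1000 * ((A : ℤ) + 1) * ∑ j ∈ range (P.natDegree + 1), |P.coeff j * (n : ℤ) ^ j| :=
          mul_le_mul_of_nonneg_left (Finset.abs_sum_le_sum_abs _ _) (by positivity)
      _ = ∑ j ∈ range (P.natDegree + 1), 1000 * ((A : ℤ) + 1) * |P.coeff j * (n : ℤ) ^ j| := Finset.mul_sum _ _ _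
      _ ≤ ∑ _j ∈ range (P.natDegree + 1), (M : ℤ) := Finset.sum_le_sum h1
      _ = ((P.natDegree : ℤ) + 1) * M := by rw [Finset.sum_const, card_range, nsmul_eq_mul]; push_cast; ring
      _ ≤ _ := by
        refine mul_le_mul_of_nonneg_right ?_ (by positivity)
        have : (P.natDegree : ℤ) ≤ A := by exact_mod_cast hA
        linarith
  have h3 : ((A : ℤ) + 1) * (1000 * |∑ j ∈ range (P.natDegree + 1), P.coeff j * (n : ℤ) ^ j|) ≤ ((A : ℤ) + 1) * M := by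
    refine le_trans (le_of_eq ?_) h2
    ring
  exact le_of_mul_le_mul_left h3 (by positivity)

/-- The regime, uniformly. -/
theorem s4t_reg {k : ℕ} (D : Fin k → ℕ) (hD : ∀ i, 1 ≤ D i) (K C : ℝ) (hK : 1 ≤ K) :
    ∃ Q0 : ℕ, ∀ (A Q X X1 : ℕ) (a : Fin k → ℤ) (P : Fin k → ℤ[X]) (M : Fin k → ℕ), (∀ i, a i ≠ 0) → HasD D a P → Q0 ≤ Q →
    Rg (K + 1) C Q X → GeoU A Q X X1 P M → ∀ i, RegP K Q (Ysc (M i)) ∧ X1 ≤ Ysc (M i) ∧
      Real.log (Ysc (M i)) ≤ (D i + 1) * Real.log X := by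
  obtain ⟨Q0, hQ0⟩ := G2_reg (fun i => (X : ℤ[X]) ^ D i) (fun i => by rw [Polynomial.natDegree_X_pow]; exact hD i) K C hK
  refine ⟨Q0, fun A Q X X1 a P M ha hP hQ hR hG i => ?_⟩
  have hG' : Geo 2 Q X X1 (fun i => (Polynomial.X : ℤ[X]) ^ D i) M := by
    refine ⟨hG.dvd, hG.pos, hG.le, hG.ge, hG.dvdM, fun i => ?_, fun i => ?_⟩
    · rw [Polynomial.natDegree_X_pow]
      have h1 := hG.lo i (D i)
      have h2 : (P i).coeff (D i) = a i := by
        rw [← (hP i).2, ← (hP i).1]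
        rfl
      rw [h2] at h1
      have h3 : 1 ≤ (a i).natAbs := Int.natAbs_pos.2 (ha i)
      have h4 : X1 ^ D i ≤ (2 * X1) ^ D i := Nat.pow_le_pow_left (by omega) _
      refine le_trans ?_ h1
      calc 2 * X1 ^ D i ≤ 1000 * (A + 1) ^ 2 * (a i).natAbs * X1 ^ D i := by
            refine Nat.mul_le_mul_right _ ?_
            have h5 : 1 ≤ (A + 1) ^ 2 := Nat.one_le_pow _ _ (by omega)
            nlinarith
        _ ≤ _ := Nat.mul_le_mul_left _ h4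
    · rw [Polynomial.natDegree_X_pow]
      have h1 := hG.hi i
      rw [(hP i).1] at h1
      exact h1
  have h1 := hQ0 2 Q X X1 M hQ le_rfl hR hG' i
  rw [Polynomial.natDegree_X_pow] at h1
  exact h1

end Pool.Agent.HUP
end

-- from Lib.HUK.A13
section

/-!
# Project HUK, chunk A13 (M): Theorem (**) of PROOF.md, section 2
-/

open Finset

namespace Pool.Agent.HUK

/-- Proof. `A12_all`; the sum over `𝒜` is at most the sum over `(K, 2K]` (`NU_nonneg`). `LL_main (n+1)` with a power of `δ` in place of `δ`, `M = ⌊δ^C₁ H⌋`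
(`δ^C₂ X ≤ q K M`, `4 q K M ≤ X`: `q ≤ (1/δ)^C₁` is beaten by a larger exponent in `M`, as in `A12`; `2^(n+1) ≤ 2^(2^n)` for `n ≥ 1`):
`NU X (n+1) M' q' f ≥ δ^C₃ X`, `M' = ⌊δ^C₄ X⌋`. `V2_mul` (`s = n + 1 ≥ 2`): `NU M'^(n+1) ≤ GG X (n+1) f`, so
`GG ≥ δ^C₃ X (δ^C₄ X/2)^(n+1) ≥ δ^C X^(n+2)`. -/
theorem A13_star (n : ℕ) (hn : 1 ≤ n) : ∃ C : ℕ, ∀ δ : ℝ, 0 < δ → δ ≤ 1 / 2 → ∀ X K H : ℕ, (1 / δ) ^ C ≤ K →
    (1 / δ) ^ C * (K : ℝ) ^ (2 ^ 2 ^ n) ≤ X → δ * X ≤ K * H → 16 * n * K * H ≤ X → 1 ≤ H →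
    (∀ m : ℕ, 1 ≤ m → m ≤ X → (m.divisors.card : ℝ) ≤ 1 / δ) → ∀ 𝒜 : Finset ℕ, 𝒜 ⊆ Ioc K (2 * K) →
    ∀ f : ℤ → ℂ, Bdd X f →
    δ * ((H : ℝ) ^ (n + 1) * ((K : ℝ) * X) ^ 2) ≤ ∑ t ∈ bxS (n + 1) H, ‖∑ a ∈ 𝒜, FF X (fun i => (a : ℤ) * t i) f‖ ^ 2 →
    δ ^ C * (X : ℝ) ^ (n + 2) ≤ GG X (n + 1) f := by
  obtain ⟨C0, h12⟩ := A12_all n hn
  obtain ⟨C1, C2, hLL⟩ := LL_main (n + 1) (by omega)
  obtain ⟨E, hE⟩ : ∃ E, E = C0 + 2 := ⟨_, rfl⟩
  refine ⟨C0 + E * C2 * (n + 2) + (n + 1), fun δ hδ hδ2 X K H hK hX hXKH hnKH hH hdiv 𝒜 h𝒜 f hf hsum => ?_⟩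
  have hδ1 : δ ≤ 1 := by linarith
  have hδi : 1 ≤ 1 / δ := by
    rw [le_div_iff₀ hδ]
    linarith
  have hpow : ∀ a b : ℕ, a ≤ b → δ ^ b ≤ δ ^ a := fun a b hab => pow_le_pow_of_le_one hδ.le hδ1 hab
  have hipow : ∀ a b : ℕ, a ≤ b → (1 / δ) ^ a ≤ (1 / δ) ^ b := fun a b hab => pow_le_pow_right₀ hδi hab
  have hle1 : C0 ≤ C0 + E * C2 * (n + 2) + (n + 1) := by omega
  have hle2 : E * C2 ≤ C0 + E * C2 * (n + 2) + (n + 1) := by
    have h1 : E * C2 ≤ E * C2 * (n + 2) := Nat.le_mul_of_pos_right _ (by omega)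
    omega
  have hKr : (1 : ℝ) ≤ K := le_trans (one_le_pow₀ hδi) hK
  have hK1 : 1 ≤ K := by exact_mod_cast hKr
  have hKpos : (0 : ℝ) < K := by linarith
  have hHpos : (0 : ℝ) < H := by exact_mod_cast hH
  obtain ⟨q, hq1, hqC, hM1, hNU⟩ := h12 δ hδ hδ2 X K H ((hipow _ _ hle1).trans hK)
    ((mul_le_mul_of_nonneg_right (hipow _ _ hle1) (by positivity)).trans hX) hXKH hnKH hH 𝒜 h𝒜 f hf hsum
  obtain ⟨M, hM⟩ : ∃ M, M = ⌊δ ^ C0 * H⌋₊ := ⟨_, rfl⟩
  rw [← hM] at hM1 hNU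
  have hMr1 : (1 : ℝ) ≤ M := by exact_mod_cast hM1
  have hMle : (M : ℝ) ≤ δ ^ C0 * H := by
    rw [hM]
    exact Nat.floor_le (by positivity)
  have hMge : δ ^ C0 * H / 2 ≤ M := by
    have h1 : δ ^ C0 * H < M + 1 := by
      rw [hM]
      exact Nat.lt_floor_add_one _
    linarith
  have hqr1 : (1 : ℝ) ≤ q := by exact_mod_cast hq1
  have hqM : (q : ℝ) * M ≤ H := by
    have h1 : (q : ℝ) * M ≤ (1 / δ) ^ C0 * (δ ^ C0 * H) := mul_le_mul hqC hMle (by positivity) (by positivity)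
    have h2 : (1 / δ) ^ C0 * (δ ^ C0 * H) = H := by
      rw [← mul_assoc, ← mul_pow, one_div, inv_mul_cancel₀ hδ.ne', one_pow, one_mul]
    rwa [h2] at h1
  have h4 : 4 * q * K * M ≤ X := by
    have h1 : q * M ≤ H := by exact_mod_cast hqM
    have h2 : 4 * q * K * M = 4 * K * (q * M) := by ring
    have h3 : 4 * K * (q * M) ≤ 4 * K * H := Nat.mul_le_mul_left _ h1
    have h5 : 4 * K * H ≤ 16 * n * K * H := by
      have h6 : 4 * K * H * 1 ≤ 4 * K * H * (4 * n) := Nat.mul_le_mul_left _ (by omega)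
      calc 4 * K * H = 4 * K * H * 1 := (mul_one _).symm
        _ ≤ 4 * K * H * (4 * n) := h6
        _ = 16 * n * K * H := by ring
    omega
  -- the sum over all b
  have hall : δ ^ C0 * (K * X) ≤ ∑ b ∈ Ioc K (2 * K), NU X (n + 1) M (b * q) f := by
    refine hNU.trans (Finset.sum_le_sum_of_subset_of_nonneg h𝒜 fun b hb _ => ?_)
    rw [mem_Ioc] at hb
    refine NU_nonneg X (n + 1) M (by omega) hM1 _ (by positivity) ?_ f hf.sup
    have h1 : b * q * M ≤ X := by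
      have h2 : b * q * M ≤ 2 * K * q * M := Nat.mul_le_mul_right _ (Nat.mul_le_mul_right _ hb.2)
      have h3 : 2 * K * q * M ≤ 4 * q * K * M := by
        calc 2 * K * q * M = 2 * (q * K * M) := by ring
          _ ≤ 4 * (q * K * M) := Nat.mul_le_mul_right _ (by omega)
          _ = 4 * q * K * M := by ring
      omega
    exact_mod_cast h1
  have hE1 : 1 ≤ E := by omega
  obtain ⟨q', hq'1, hq'C, hq'X, hM'1, hNU'⟩ := hLL (δ ^ E) (by positivity)
    (le_trans (by simpa using hpow 1 E hE1) hδ2) X K M q hK1 hM1 hq1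
    (fun m hm1 hm2 => (hdiv m hm1 hm2).trans (by
      rw [← one_div_pow]
      simpa using hipow 1 E hE1))
    (by
      have h1 : (1 / δ ^ E) ^ C2 = (1 / δ) ^ (E * C2) := by
        rw [← one_div_pow, ← pow_mul]
      rw [h1]
      refine le_trans (mul_le_mul (hipow _ _ hle2) ?_ (by positivity) (by positivity)) hX
      refine pow_le_pow_right₀ hKr (Nat.pow_le_pow_right (by norm_num) ?_)
      exact Nat.lt_two_pow_self)
    (by
      have h1 : δ ^ E * X ≤ δ ^ (C0 + 1) * (δ * X) := by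
        have h2 : δ ^ E * (X : ℝ) = δ ^ (C0 + 1) * (δ * X) := by
          rw [hE, pow_succ, pow_succ]
          ring
        rw [h2]
      have h2 : δ ^ (C0 + 1) * (δ * X) ≤ δ ^ (C0 + 1) * (K * H) := mul_le_mul_of_nonneg_left hXKH (by positivity)
      have h3 : δ ^ (C0 + 1) * ((K : ℝ) * H) ≤ K * (δ ^ C0 * H / 2) := by
        have h5 : δ ^ (C0 + 1) ≤ δ ^ C0 / 2 := by
          rw [pow_succ]
          have h6 : 0 < δ ^ C0 := by positivity
          nlinarith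
        calc δ ^ (C0 + 1) * ((K : ℝ) * H) ≤ δ ^ C0 / 2 * (K * H) := mul_le_mul_of_nonneg_right h5 (by positivity)
          _ = K * (δ ^ C0 * H / 2) := by ring
      have h6 : (K : ℝ) * (δ ^ C0 * H / 2) ≤ K * M := mul_le_mul_of_nonneg_left hMge hKpos.le
      have h7 : (K : ℝ) * M ≤ q * K * M := by
        have h8 : (K : ℝ) * M = 1 * (K * M) := (one_mul _).symm
        rw [h8, mul_assoc (q : ℝ)]
        exact mul_le_mul_of_nonneg_right hqr1 (by positivity)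
      linarith)
    h4
    (by
      rw [← one_div_pow]
      exact hqC.trans (hipow _ _ (by omega)))
    f hf
    (le_trans (mul_le_mul_of_nonneg_right (hpow C0 E (by omega)) (by positivity)) hall)
  obtain ⟨M', hM'⟩ : ∃ M', M' = ⌊(δ ^ E) ^ C2 * X⌋₊ := ⟨_, rfl⟩
  rw [← hM'] at hM'1 hNU'
  have hM'r : (1 : ℝ) ≤ M' := by exact_mod_cast hM'1
  have hV := V2_mul X (n + 1) M' q' (by omega) hM'1 hq'1 f hf.sup
  have hX0 : (0 : ℝ) ≤ X := by positivity
  have hDpos : 0 < (δ ^ E) ^ C2 := by positivity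
  have hM'ge : (δ ^ E) ^ C2 * X / 2 ≤ M' := by
    have h1 : (δ ^ E) ^ C2 * X < M' + 1 := by
      rw [hM']
      exact Nat.lt_floor_add_one _
    linarith
  have hGG : NU X (n + 1) M' q' f * (M' : ℝ) ^ (n + 1) ≤ GG X (n + 1) f := by
    refine le_trans ?_ hV
    rw [NU, div_mul_cancel₀ _ (by positivity)]
    exact Complex.re_le_norm _
  refine le_trans ?_ hGG
  have h1 : (δ ^ E) ^ C2 * X * ((δ ^ E) ^ C2 * X / 2) ^ (n + 1) ≤ NU X (n + 1) M' q' f * (M' : ℝ) ^ (n + 1) :=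
    mul_le_mul hNU' (pow_le_pow_left₀ (by positivity) hM'ge _) (by positivity) (le_trans (by positivity) hNU')
  refine le_trans ?_ h1
  have h2 : (δ ^ E) ^ C2 * X * ((δ ^ E) ^ C2 * X / 2) ^ (n + 1) = ((δ ^ E) ^ C2) ^ (n + 2) * (1 / 2) ^ (n + 1) * (X : ℝ) ^ (n + 2) := by
    obtain ⟨D, hD⟩ : ∃ D, D = (δ ^ E) ^ C2 := ⟨_, rfl⟩
    rw [← hD, div_eq_mul_one_div, mul_pow, mul_pow]
    ring
  rw [h2]
  refine mul_le_mul_of_nonneg_right ?_ (by positivity)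
  have h3 : δ ^ (C0 + E * C2 * (n + 2) + (n + 1)) = δ ^ C0 * (((δ ^ E) ^ C2) ^ (n + 2) * δ ^ (n + 1)) := by
    rw [← pow_mul, ← pow_mul, ← pow_add, ← pow_add]
    congr 1
    ring
  rw [h3]
  have h5 : δ ^ (n + 1) ≤ (1 / 2) ^ (n + 1) := pow_le_pow_left₀ hδ.le hδ2 _
  calc δ ^ C0 * (((δ ^ E) ^ C2) ^ (n + 2) * δ ^ (n + 1)) ≤ 1 * (((δ ^ E) ^ C2) ^ (n + 2) * δ ^ (n + 1)) :=
        mul_le_mul_of_nonneg_right (pow_le_one₀ hδ.le hδ1) (by positivity)
    _ = ((δ ^ E) ^ C2) ^ (n + 2) * δ ^ (n + 1) := one_mul _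
    _ ≤ ((δ ^ E) ^ C2) ^ (n + 2) * (1 / 2) ^ (n + 1) := mul_le_mul_of_nonneg_left h5 (by positivity)

end Pool.Agent.HUK
end

-- from Lib.HUK.A14a
section

/-!
# Project HUK, chunk A14a: rules for the type II theorem (PROOF.md, section 3)
-/

open Finset

namespace Pool.Agent.HUK

/-- Differences along an additive homomorphism. -/
theorem DL_comp {G G' : Type*} [AddCommMonoid G] [AddCommMonoid G'] (φ : G →+ G') (l : List G) (F : G' → ℂ) (z : G) :
    DL l (fun z => F (φ z)) z = DL (l.map φ) F (φ z) := by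
  induction l generalizing F with
  | nil => rfl
  | cons h l ih =>
    have h1 : DD h (fun z => F (φ z)) = fun z => (DD (φ h) F) (φ z) := by
      funext y
      simp only [DD, map_add]
    rw [DL, h1, ih]
    rfl

theorem DL_norm_le {G : Type*} [AddCommMonoid G] (l : List G) (f : G → ℂ) (R : ℝ) (hR : 0 ≤ R) (hf : ∀ z, ‖f z‖ ≤ R)
    (z : G) : ‖DL l f z‖ ≤ R ^ (2 ^ l.length) := by
  induction l generalizing f R with
  | nil => simpa [DL] using hf z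
  | cons h l ih =>
    have h1 : ∀ y, ‖DD h f y‖ ≤ R ^ 2 := by
      intro y
      rw [DD, norm_mul, RCLike.norm_conj, pow_two]
      exact mul_le_mul (hf _) (hf _) (norm_nonneg _) hR
    have h2 := ih (DD h f) (R ^ 2) (by positivity) h1
    rw [DL, List.length_cons, pow_succ' 2, pow_mul]
    exact h2

/-- The sum over `h` in `Psi`, with the factor `f 0` split off. -/
theorem A14_psi (X k : ℕ) (hk : 3 ≤ k) (f : ℕ → ℤ → ℂ) (hf : ∀ j, j < k → Bdd X (f j)) (n : ℤ) :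
    Psi X k f n = ∑ h ∈ Ioo (-(6 * X : ℤ)) (6 * X),
      (∏ i : Fin (k - 1), f ((i : ℕ) + 1) (n - ((k : ℤ) - ((i : ℕ) + 1 : ℕ)) * h)) * f 0 (n - k * h) := by
  obtain ⟨r, rfl⟩ : ∃ r, k = r + 1 := ⟨k - 1, by omega⟩
  have h1 : ∀ h : ℤ, ∏ j ∈ range (r + 1), f j (n - (((r + 1 : ℕ) : ℤ) - j) * h) =
      (∏ i : Fin (r + 1 - 1), f ((i : ℕ) + 1) (n - (((r + 1 : ℕ) : ℤ) - ((i : ℕ) + 1 : ℕ)) * h)) *
        f 0 (n - ((r + 1 : ℕ) : ℤ) * h) := by
    intro h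
    rw [Finset.prod_range_succ', Nat.add_sub_cancel, Finset.prod_range]
    simp
  unfold Psi
  simp only [h1]
  refine Finset.sum_subset ?_ ?_
  · intro h hh
    rw [mem_Ioo] at hh ⊢
    omega
  · intro h _ hh2
    by_contra hne
    have hne0 : f 0 (n - ((r + 1 : ℕ) : ℤ) * h) ≠ 0 := fun h0 => hne (by rw [h0, mul_zero])
    have hne1 : ∀ i : Fin (r + 1 - 1), f ((i : ℕ) + 1) (n - (((r + 1 : ℕ) : ℤ) - ((i : ℕ) + 1 : ℕ)) * h) ≠ 0 := by
      intro i h0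
      apply hne
      rw [Finset.prod_eq_zero (mem_univ i) h0, zero_mul]
    have h3 := hne1 ⟨r - 1, by omega⟩
    have hr : 2 ≤ r := by omega
    have hb0 : n - ((r + 1 : ℕ) : ℤ) * h ∈ Ico (-(X : ℤ)) X := by
      by_contra hc
      exact hne0 ((hf 0 (by omega)).sup _ hc)
    have hb1 : n - (((r + 1 : ℕ) : ℤ) - ((r - 1 : ℕ) + 1 : ℕ)) * h ∈ Ico (-(X : ℤ)) X := by
      by_contra hc
      exact h3 ((hf (r - 1 + 1) (by omega)).sup _ hc)
    rw [mem_Ico] at hb0 hb1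
    apply hh2
    rw [mem_Ioo]
    have e1 : (((r - 1 : ℕ) + 1 : ℕ) : ℤ) = r := by
      have : r - 1 + 1 = r := by omega
      rw [this]
    rw [e1] at hb1
    push_cast at hb0 hb1
    have hr' : (2 : ℤ) ≤ r := by exact_mod_cast hr
    have e2 : n - ((r : ℤ) + 1 - r) * h - (n - ((r : ℤ) + 1) * h) = r * h := by ring
    have hh3 : -(2 * X : ℤ) < r * h ∧ (r : ℤ) * h < 2 * X := by
      constructor <;> linarith [hb0.1, hb0.2, hb1.1, hb1.2]
    constructor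
    · by_contra hcon
      push Not at hcon
      nlinarith [hh3.1, hh3.2]
    · by_contra hcon
      push Not at hcon
      nlinarith [hh3.1, hh3.2]

/-- `Psi` vanishes beyond `2 X`. -/
theorem A14_zero (X k : ℕ) (hk : 3 ≤ k) (f : ℕ → ℤ → ℂ) (hf : ∀ j, j < k → Bdd X (f j)) (n : ℤ) (hn : 2 * (X : ℤ) < n) :
    Psi X k f n = 0 := by
  unfold Psi
  refine Finset.sum_eq_zero fun h _ => ?_
  by_contra hne
  replace hne := Finset.prod_ne_zero_iff.1 hne
  have h0 := hne 0 (by rw [mem_range]; omega)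
  have h1 := hne (k - 1) (by rw [mem_range]; omega)
  have hb0 : n - ((k : ℤ) - (0 : ℕ)) * h ∈ Ico (-(X : ℤ)) X := by
    by_contra hc
    exact h0 ((hf 0 (by omega)).sup _ hc)
  have hb1 : n - ((k : ℤ) - (k - 1 : ℕ)) * h ∈ Ico (-(X : ℤ)) X := by
    by_contra hc
    exact h1 ((hf (k - 1) (by omega)).sup _ hc)
  rw [mem_Ico] at hb0 hb1
  have e1 : ((k - 1 : ℕ) : ℤ) = (k : ℤ) - 1 := by
    have : 1 ≤ k := by omega
    push_cast [Nat.cast_sub this]
    ring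
  rw [e1] at hb1
  push_cast at hb0
  have hk' : (3 : ℤ) ≤ k := by exact_mod_cast hk
  have e2 : (k : ℤ) * (n - (k - (k - 1)) * h) - (n - ((k : ℤ) - 0) * h) = (k - 1) * n := by ring
  have h3 : ((k : ℤ) - 1) * n < (k + 1) * X := by
    rw [← e2]
    have : (k : ℤ) * (n - (k - (k - 1)) * h) ≤ k * X := mul_le_mul_of_nonneg_left hb1.2.le (by omega)
    nlinarith [hb0.1, hb0.2]
  nlinarith [h3, hn]

/-- The sum over `h` as a sum over the classes modulo `Λ`. -/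
theorem A14_hsum (X k Λ : ℕ) (hk : 1 ≤ k) (hΛ : 1 ≤ Λ) (hkΛ : k ∣ Λ) (n : ℤ) (hn : 0 ≤ n) (hn' : n ≤ 4 * X) (G : ℤ → ℂ)
    (hG : ∀ y, y ∉ Ico (-(X : ℤ)) X → G y = 0) :
    ∑ h ∈ Ioo (-(6 * X : ℤ)) (6 * X), G (n - k * h) =
      ∑ ρ ∈ (range Λ).filter (fun ρ : ℕ => (k : ℤ) ∣ (ρ : ℤ) - n), ∑ x ∈ Ico (-(X : ℤ)) X, G (ρ + Λ * x) := by
  have hk0 : (0 : ℤ) < k := by exact_mod_cast hk
  have hΛ0 : (0 : ℤ) < Λ := by exact_mod_cast hΛ
  have hL : ∑ h ∈ Ioo (-(6 * X : ℤ)) (6 * X), G (n - k * h) =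
      ∑ y ∈ (Ico (-(X : ℤ)) X).filter (fun y => (k : ℤ) ∣ y - n), G y := by
    refine Finset.sum_bij_ne_zero (fun h _ _ => n - k * h) ?_ ?_ ?_ ?_
    · intro h _ hne
      rw [mem_filter]
      refine ⟨?_, ⟨-h, by ring⟩⟩
      by_contra hc
      exact hne (hG _ hc)
    · intro h1 _ _ h2 _ _ he
      have : (k : ℤ) * h1 = k * h2 := by linarith
      exact mul_left_cancel₀ hk0.ne' this
    · intro y hy hne
      rw [mem_filter, mem_Ico] at hy
      obtain ⟨⟨hy1, hy2⟩, m, hm⟩ := hy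
      have hX : (0 : ℤ) < X := by omega
      refine ⟨-m, ?_, ?_, by linarith⟩
      · rw [mem_Ioo]
        have hm1 : -(5 * X : ℤ) ≤ k * m := by rw [← hm]; linarith
        have hm2 : (k : ℤ) * m < X := by rw [← hm]; linarith
        have hk1 : (1 : ℤ) ≤ k := hk0
        constructor
        · by_contra hcon
          push Not at hcon
          nlinarith
        · by_contra hcon
          push Not at hcon
          nlinarith
      · have e : n - k * -m = y := by linarith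
        rw [e]
        exact hne
    · intro h _ _
      rfl
  rw [hL, ← Finset.sum_product']
  symm
  refine Finset.sum_bij_ne_zero (fun p _ _ => (p.1 : ℤ) + Λ * p.2) ?_ ?_ ?_ ?_
  · intro p hp hne
    rw [mem_product, mem_filter] at hp
    rw [mem_filter]
    refine ⟨?_, ?_⟩
    · by_contra hc
      exact hne (hG _ hc)
    · obtain ⟨c, hc⟩ := hkΛ
      obtain ⟨d, hd⟩ := hp.1.2
      refine ⟨d + c * p.2, ?_⟩
      have : (p.1 : ℤ) + Λ * p.2 - n = (p.1 - n) + Λ * p.2 := by ring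
      rw [this, hd, hc]
      push_cast
      ring
  · intro p hp _ q hq _ he
    rw [mem_product, mem_filter, mem_range] at hp hq
    have hp1 : (p.1 : ℤ) < Λ := by exact_mod_cast hp.1.1
    have hq1 : (q.1 : ℤ) < Λ := by exact_mod_cast hq.1.1
    have e1 : ((p.1 : ℤ) + Λ * p.2) % Λ = p.1 := by
      rw [Int.add_mul_emod_self_left]
      exact Int.emod_eq_of_lt (by positivity) hp1
    have e2 : ((q.1 : ℤ) + Λ * q.2) % Λ = q.1 := by
      rw [Int.add_mul_emod_self_left]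
      exact Int.emod_eq_of_lt (by positivity) hq1
    have h1 : (p.1 : ℤ) = q.1 := by
      rw [← e1, ← e2, he]
    have h2 : p.2 = q.2 := by
      have : (Λ : ℤ) * p.2 = Λ * q.2 := by linarith
      exact mul_left_cancel₀ hΛ0.ne' this
    exact Prod.ext (by exact_mod_cast h1) h2
  · intro y hy hne
    rw [mem_filter, mem_Ico] at hy
    obtain ⟨⟨hy1, hy2⟩, hd⟩ := hy
    have hX : (1 : ℤ) ≤ X := by omega
    have hm0 := Int.emod_nonneg y hΛ0.ne'
    have hm1 := Int.emod_lt_of_pos y hΛ0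
    have hdiv := Int.emod_add_mul_ediv y Λ
    have e0 : ((y % Λ).toNat : ℤ) = y % Λ := Int.toNat_of_nonneg hm0
    refine ⟨((y % Λ).toNat, y / Λ), ?_, ?_, ?_⟩
    · rw [mem_product, mem_filter, mem_range, mem_Ico]
      refine ⟨⟨?_, ?_⟩, ?_, ?_⟩
      · zify
        rw [e0]
        exact hm1
      · simp only
        rw [e0]
        obtain ⟨c, hc⟩ := hkΛ
        obtain ⟨d, hd⟩ := hd
        refine ⟨d - c * (y / Λ), ?_⟩
        have h5 : y % (Λ : ℤ) = y - Λ * (y / Λ) := by linarith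
        have h6 : y % (Λ : ℤ) - n = (y - n) - Λ * (y / Λ) := by linarith
        rw [h6, hd, hc]
        push_cast
        ring
      · simp only
        rw [Int.le_ediv_iff_mul_le hΛ0]
        nlinarith
      · simp only
        rw [Int.ediv_lt_iff_lt_mul hΛ0]
        nlinarith
    · simp only
      rw [e0, hdiv]
      exact hne
    · simp only
      rw [e0, hdiv]
  · intro p _ _
    rfl

end Pool.Agent.HUK
end

-- from Lib.HUK.A14b
section

/-!
# Project HUK, chunk A14b: elimination of the `k - 1` functions `f 1, …, f (k-1)` for one factor `a`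
-/

open Finset

namespace Pool.Agent.HUK

noncomputable section

/-- The differences of `β` which come out of the elimination; they do not depend on `a`. -/
def bj (k : ℕ) (β : ℤ → ℂ) (j : Fin (k - 1) → ℤ) (b : ℤ) : ℂ :=
  DL (List.ofFn fun i : Fin (k - 1) =>
    j i * (-(((k.factorial / ((i : ℕ) + 1) : ℕ) : ℤ) * ((k : ℤ) - ((i : ℕ) + 1 : ℕ))))) β b

/-- The restriction of `f` to a class modulo `k!`. -/
def frho (k : ℕ) (f : ℤ → ℂ) (ρ : ℕ) : ℤ → ℂ := fun x => f ((ρ : ℤ) + (k.factorial : ℕ) * x)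

theorem DL_shift (l : List ℤ) (F : ℤ → ℂ) (ρ y : ℤ) : DL l (fun y => F (ρ + y)) y = DL l F (ρ + y) := by
  induction l generalizing F with
  | nil => rfl
  | cons h l ih =>
    have h1 : DD h (fun y => F (ρ + y)) = fun y => (DD h F) (ρ + y) := by
      funext z
      simp only [DD, add_assoc]
    rw [DL, h1, ih]
    rfl

theorem DL_frho (k : ℕ) (f : ℤ → ℂ) (ρ : ℕ) {r : ℕ} (u : Fin r → ℤ) (x : ℤ) :
    DL (List.ofFn fun i => (k.factorial : ℤ) * u i) f ((ρ : ℤ) + (k.factorial : ℕ) * x) =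
      DL (List.ofFn u) (frho k f ρ) x := by
  have h1 := DL_comp (AddMonoidHom.mulLeft (k.factorial : ℤ)) (List.ofFn u) (fun y => f ((ρ : ℤ) + y)) x
  rw [List.map_ofFn] at h1
  have h2 : (⇑(AddMonoidHom.mulLeft (k.factorial : ℤ)) ∘ u) = fun i => (k.factorial : ℤ) * u i := by
    funext i
    rfl
  rw [h2] at h1
  have h3 : (AddMonoidHom.mulLeft (k.factorial : ℤ)) x = (k.factorial : ℤ) * x := rfl
  rw [h3, DL_shift] at h1
  exact h1.symm

theorem A14_elim (k : ℕ) (hk : 3 ≤ k) (X K H Nb : ℕ) (hX : 1 ≤ X) (hH : 1 ≤ H) (hNb : 1 ≤ Nb) (hKN : 2 * K * Nb ≤ 4 * X)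
    (hHN : H * (k.factorial * k) ≤ Nb) (hHK : 2 * H * k.factorial * K ≤ X) (a : ℕ) (ha : a ≤ 2 * K)
    (β : ℤ → ℂ) (hβ : ∀ b, b ∉ Icc (1 : ℤ) Nb → β b = 0) (f : ℕ → ℤ → ℂ) (hf : ∀ j, j < k → Bdd X (f j)) :
    (‖∑ b ∈ Icc (1 : ℤ) Nb, β b * Psi X k f ((a : ℤ) * b)‖ / (26 * Nb * X)) ^ (2 ^ (k - 1)) ≤
      2 ^ (2 ^ (k - 1)) / (H : ℝ) ^ (k - 1) * ((∑ j ∈ bxS (k - 1) H, ((WT H j : ℝ) : ℂ) *
        ∑ b ∈ Icc (1 : ℤ) Nb, bj k β j b * ∑ ρ ∈ (range k.factorial).filter (fun ρ : ℕ => (k : ℤ) ∣ (ρ : ℤ) - a * b),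
          FF X (fun i => (a : ℤ) * j i) (frho k (f 0) ρ)).re / (26 * Nb * X)) := by
  set w : Fin (k - 1) → ℕ := fun i => k.factorial / ((i : ℕ) + 1) with hw
  have hwi : ∀ i : Fin (k - 1), w i * ((i : ℕ) + 1) = k.factorial := by
    intro i
    exact Nat.div_mul_cancel (Nat.dvd_factorial (by omega) (by have := i.2; omega))
  have hwle : ∀ i : Fin (k - 1), w i ≤ k.factorial := fun i => Nat.div_le_self _ _
  set v : Fin (k - 1) → ℤ × ℤ := fun i => (-((w i : ℤ) * ((k : ℤ) - ((i : ℕ) + 1 : ℕ))), -((w i : ℤ) * a)) with hv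
  set g : Fin (k - 1) → ℤ × ℤ → ℂ := fun i z => f ((i : ℕ) + 1) (a * z.1 - ((k : ℤ) - ((i : ℕ) + 1 : ℕ)) * z.2) with hg0
  set c : ℤ × ℤ → ℂ := fun z => β z.1 * f 0 (a * z.1 - k * z.2) with hc0
  set B : Finset (ℤ × ℤ) := Icc (1 : ℤ) Nb ×ˢ Ioo (-(6 * X : ℤ)) (6 * X) with hB0
  set B' : Finset (ℤ × ℤ) := Icc (1 : ℤ) (2 * Nb) ×ˢ Ioo (-(6 * X : ℤ)) (7 * X) with hB'0
  have hk0 : (0 : ℤ) < k := by exact_mod_cast (by omega : 0 < k)
  have hXr : (1 : ℝ) ≤ X := by exact_mod_cast hX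
  have hNr : (1 : ℝ) ≤ Nb := by exact_mod_cast hNb
  have hcardB' : (B'.card : ℝ) ≤ 26 * Nb * X := by
    rw [hB'0, card_product, Int.card_Icc, Int.card_Ioo]
    have e1 : (2 * (Nb : ℤ) + 1 - 1).toNat = 2 * Nb := by omega
    have e2 : (7 * (X : ℤ) - -(6 * X) - 1).toNat = 13 * X - 1 := by omega
    rw [e1, e2]
    have e3 : (((2 * Nb * (13 * X - 1) : ℕ)) : ℝ) ≤ ((2 * Nb * (13 * X) : ℕ) : ℝ) := by
      exact_mod_cast Nat.mul_le_mul_left _ (by omega)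
    refine e3.trans (le_of_eq ?_)
    push_cast
    ring
  have hN0 : (0 : ℝ) < 26 * Nb * X := by positivity
  have hg : ∀ i z, ‖g i z‖ ≤ 1 := fun i z => (hf ((i : ℕ) + 1) (by have := i.2; omega)).le _
  have hinv : ∀ i z, g i (z + v i) = g i z := by
    intro i z
    simp only [hg0, hv, Prod.fst_add, Prod.snd_add]
    congr 1
    ring
  have hc : ∀ z, z ∉ B → c z = 0 := by
    intro z hz
    by_contra hne
    apply hz
    have h1 : β z.1 ≠ 0 := fun h0 => hne (by simp only [hc0, h0, zero_mul])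
    have h2 : f 0 (a * z.1 - k * z.2) ≠ 0 := fun h0 => hne (by simp only [hc0, h0, mul_zero])
    have h3 : z.1 ∈ Icc (1 : ℤ) Nb := by
      by_contra hcon
      exact h1 (hβ _ hcon)
    have h4 : a * z.1 - k * z.2 ∈ Ico (-(X : ℤ)) X := by
      by_contra hcon
      exact h2 ((hf 0 (by omega)).sup _ hcon)
    rw [hB0, mem_product]
    refine ⟨h3, ?_⟩
    rw [mem_Icc] at h3
    rw [mem_Ico] at h4
    rw [mem_Ioo]
    have haz : (a : ℤ) * z.1 ≤ 4 * X := by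
      have h5 : (a : ℤ) ≤ 2 * K := by exact_mod_cast ha
      have h6 : (2 : ℤ) * K * Nb ≤ 4 * X := by exact_mod_cast hKN
      have h7 : (a : ℤ) * z.1 ≤ (2 * K) * Nb := mul_le_mul h5 h3.2 (by linarith [h3.1]) (by positivity)
      linarith
    have haz0 : 0 ≤ (a : ℤ) * z.1 := mul_nonneg (by positivity) (by linarith [h3.1])
    have hX' : (1 : ℤ) ≤ X := by exact_mod_cast hX
    have hk1 : (1 : ℤ) ≤ k := hk0
    constructor
    · by_contra hcon
      push Not at hcon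
      nlinarith [h4.1, h4.2]
    · by_contra hcon
      push Not at hcon
      nlinarith [h4.1, h4.2]
  have hB : ∀ i z, ∀ h : ℕ, h < H → z + h • v i ∈ B → z ∈ B' := by
    intro i z h hh hz
    rw [hB0, mem_product, mem_Icc, mem_Ioo] at hz
    have e1 : (z + h • v i).1 = z.1 - h * (w i * ((k : ℤ) - ((i : ℕ) + 1 : ℕ))) := by
      rw [Prod.fst_add, Prod.smul_fst, nsmul_eq_mul]
      simp only [hv]
      ring
    have e2 : (z + h • v i).2 = z.2 - h * (w i * a) := by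
      rw [Prod.snd_add, Prod.smul_snd, nsmul_eq_mul]
      simp only [hv]
      ring
    rw [e1, e2] at hz
    have hi := i.2
    have hik : (0 : ℤ) ≤ (k : ℤ) - ((i : ℕ) + 1 : ℕ) := by
      push_cast
      omega
    have hik2 : (k : ℤ) - ((i : ℕ) + 1 : ℕ) ≤ k := by
      push_cast
      omega
    have hh' : (h : ℤ) ≤ H := by exact_mod_cast hh.le
    have hw' : (w i : ℤ) ≤ (k.factorial : ℕ) := by exact_mod_cast hwle i
    have s1 : (h : ℤ) * (w i * ((k : ℤ) - ((i : ℕ) + 1 : ℕ))) ≤ Nb := by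
      have h1 : (w i : ℤ) * ((k : ℤ) - ((i : ℕ) + 1 : ℕ)) ≤ (k.factorial : ℕ) * k :=
        mul_le_mul hw' hik2 hik (by positivity)
      have h2 : (h : ℤ) * (w i * ((k : ℤ) - ((i : ℕ) + 1 : ℕ))) ≤ H * ((k.factorial : ℕ) * k) :=
        mul_le_mul hh' h1 (mul_nonneg (by positivity) hik) (by positivity)
      have h3 : (H : ℤ) * ((k.factorial : ℕ) * k) ≤ Nb := by exact_mod_cast hHN
      linarith
    have s1' : 0 ≤ (h : ℤ) * (w i * ((k : ℤ) - ((i : ℕ) + 1 : ℕ))) :=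
      mul_nonneg (by positivity) (mul_nonneg (by positivity) hik)
    have s2 : (h : ℤ) * (w i * a) ≤ X := by
      have ha' : (a : ℤ) ≤ 2 * K := by exact_mod_cast ha
      have h1 : (w i : ℤ) * a ≤ (k.factorial : ℕ) * (2 * K) := mul_le_mul hw' ha' (by positivity) (by positivity)
      have h2 : (h : ℤ) * (w i * a) ≤ H * ((k.factorial : ℕ) * (2 * K)) :=
        mul_le_mul hh' h1 (by positivity) (by positivity)
      have h3 : (2 : ℤ) * H * (k.factorial : ℕ) * K ≤ X := by exact_mod_cast hHK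
      linarith
    have s2' : 0 ≤ (h : ℤ) * (w i * a) := by positivity
    rw [hB'0, mem_product, mem_Icc, mem_Ioo]
    refine ⟨⟨by linarith [hz.1.1], by linarith [hz.1.2]⟩, by linarith [hz.2.1], by linarith [hz.2.2]⟩
  have key := E2_elim B B' (26 * Nb * X) hcardB' hN0 H hH (k - 1) (by omega) v g c hg hinv hc hB
  have hL : ∑ z ∈ B, (∏ i, g i z) * c z = ∑ b ∈ Icc (1 : ℤ) Nb, β b * Psi X k f ((a : ℤ) * b) := by
    rw [hB0, Finset.sum_product]
    refine Finset.sum_congr rfl fun b _ => ?_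
    rw [A14_psi X k hk f hf, Finset.mul_sum]
    refine Finset.sum_congr rfl fun h _ => ?_
    simp only [hg0, hc0]
    ring
  have hR : ∀ j : Fin (k - 1) → ℤ, ∑ z ∈ B, DL (List.ofFn fun i => j i • v i) c z =
      ∑ b ∈ Icc (1 : ℤ) Nb, bj k β j b * ∑ ρ ∈ (range k.factorial).filter (fun ρ : ℕ => (k : ℤ) ∣ (ρ : ℤ) - a * b),
          FF X (fun i => (a : ℤ) * j i) (frho k (f 0) ρ) := by
    intro j
    set l := List.ofFn fun i => j i • v i with hl
    have h1 : ∀ z : ℤ × ℤ, DL l c z = bj k β j z.1 *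
        DL (List.ofFn fun i => (k.factorial : ℤ) * (a * j i)) (f 0) (a * z.1 - k * z.2) := by
      intro z
      have h2 : c = fun z => (fun z : ℤ × ℤ => β ((AddMonoidHom.fst ℤ ℤ) z)) z *
          (fun z : ℤ × ℤ => f 0 (((AddMonoidHom.mulLeft (a : ℤ)).comp (AddMonoidHom.fst ℤ ℤ) -
            (AddMonoidHom.mulLeft (k : ℤ)).comp (AddMonoidHom.snd ℤ ℤ)) z)) z := by
        funext z
        rfl
      rw [h2, DL_mul]
      simp only
      rw [DL_comp, DL_comp, hl, List.map_ofFn, List.map_ofFn]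
      have hb1 : DL (List.ofFn (⇑(AddMonoidHom.fst ℤ ℤ) ∘ fun i => j i • v i)) β ((AddMonoidHom.fst ℤ ℤ) z) = bj k β j z.1 := rfl
      rw [hb1]
      congr 1
      have e : (⇑((AddMonoidHom.mulLeft (a : ℤ)).comp (AddMonoidHom.fst ℤ ℤ) -
          (AddMonoidHom.mulLeft (k : ℤ)).comp (AddMonoidHom.snd ℤ ℤ)) ∘ fun i => j i • v i) =
          fun i : Fin (k - 1) => (k.factorial : ℤ) * (a * j i) := by
        funext i
        have e1 : (w i : ℤ) * ((i : ℕ) + 1 : ℕ) = (k.factorial : ℕ) := by exact_mod_cast hwi i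
        have e2 : (⇑((AddMonoidHom.mulLeft (a : ℤ)).comp (AddMonoidHom.fst ℤ ℤ) -
          (AddMonoidHom.mulLeft (k : ℤ)).comp (AddMonoidHom.snd ℤ ℤ)) ∘ fun i => j i • v i) i =
            a * (j i * (-((w i : ℤ) * ((k : ℤ) - ((i : ℕ) + 1 : ℕ))))) - k * (j i * (-((w i : ℤ) * a))) := rfl
        rw [e2, ← e1]
        ring
      rw [e]
      rfl
    have h3 : ∀ b ∈ Icc (1 : ℤ) Nb, ∑ h ∈ Ioo (-(6 * X : ℤ)) (6 * X), DL l c (b, h) =
        bj k β j b * ∑ ρ ∈ (range k.factorial).filter (fun ρ : ℕ => (k : ℤ) ∣ (ρ : ℤ) - a * b),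
          FF X (fun i => (a : ℤ) * j i) (frho k (f 0) ρ) := by
      intro b hb
      rw [mem_Icc] at hb
      have h4 : ∀ h : ℤ, DL l c (b, h) = bj k β j b *
          DL (List.ofFn fun i => (k.factorial : ℤ) * (a * j i)) (f 0) (a * b - k * h) := fun h => h1 (b, h)
      simp only [h4]
      rw [← Finset.mul_sum]
      congr 1
      have haz : (a : ℤ) * b ≤ 4 * X := by
        have h5 : (a : ℤ) ≤ 2 * K := by exact_mod_cast ha
        have h6 : (2 : ℤ) * K * Nb ≤ 4 * X := by exact_mod_cast hKN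
        have h7 : (a : ℤ) * b ≤ (2 * K) * Nb := mul_le_mul h5 hb.2 (by linarith [hb.1]) (by positivity)
        linarith
      have haz0 : 0 ≤ (a : ℤ) * b := mul_nonneg (by positivity) (by linarith [hb.1])
      rw [A14_hsum X k k.factorial (by omega) (Nat.factorial_pos k) (Nat.dvd_factorial (by omega) le_rfl) _ haz0 haz
        (DL (List.ofFn fun i => (k.factorial : ℤ) * (a * j i)) (f 0))
        (fun y hy => DL_supp _ _ _ ((hf 0 (by omega)).sup y hy))]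
      refine Finset.sum_congr rfl fun ρ _ => ?_
      unfold FF DV
      refine Finset.sum_congr rfl fun x _ => ?_
      exact DL_frho k (f 0) ρ (fun i => (a : ℤ) * j i) x
    rw [hB0, Finset.sum_product]
    exact Finset.sum_congr rfl h3
  rw [hL] at key
  simp only [hR] at key
  exact key

end

end Pool.Agent.HUK
end
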