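import Pool.Agent.Lib.H59M.M2.D_H59_SchinzelDefs
import Pool.Agent.Lib.H59M.M2.M001
import Pool.Agent.Lib.H59M.M2.M003
import Pool.Agent.Lib.H59M.M2.M006
import Pool.Agent.Lib.H59M.M2.M025
import Pool.Agent.Lib.H59M.M2.M031
import Pool.Agent.Lib.H59M.M2.M063
import Pool.Agent.Lib.H59M.M2.M077
import Pool.Agent.Lib.H59M.M2.M080
import Pool.Agent.Lib.H59M.M2.M082
import Pool.Agent.Lib.H59M.M2.M083
import Pool.Agent.Lib.H59M.M2.M087
import Pool.Agent.Lib.H59M.M2.M088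
import Pool.Agent.Lib.H59M.M2.M089
import Pool.Agent.Lib.H59M.M2.M090
import Pool.Agent.Lib.H59M.M2.M094
import Pool.Agent.Lib.H59M.M2.M095
import Pool.Agent.Lib.H59M.M2.M098
import Pool.Agent.Lib.H59M.M2.M100
import Pool.Agent.Lib.H59M.M2.M102
import Pool.Agent.Lib.H59M.M2.M103
import Pool.Agent.Lib.H59M.M2.M105
import Pool.Agent.Lib.H59M.M2.M106
import Pool.Agent.Lib.H59M.M2.M108

/-! Merged copies (to shorten the build) of Lib.H24P.Z4, Lib.HUK.BH2, Lib.H96U.G1, Lib.HUK.BH7, Lib.HUK.BH6, Lib.HUK.BH8, Lib.HUK.BH4, Lib.HUK.BH5, Lib.HUK.BH9, Lib.H9U.T1, Lib.H9U.T2, Lib.H9U.T4, Lib.H9A.N0, Lib.H9A.N2, Lib.H9P.U7, Lib.H9P.U1. -/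

-- from Lib.H24P.Z4
section

/-!
# Project H24P, chunk Z4 (M/L): the core theorem on a dyadic box (compare H59P/Z4)
-/

open Finset Polynomial

namespace Pool.Agent.Lib.H24P

open Pool.Agent.Lib.H68T Pool.Agent.Lib.H18Q Pool.Agent.Lib.H59P


theorem z4_rg {K K' C : ℝ} {Q X : ℕ} (h : K' ≤ K) (hR : Rg K C Q X) : Rg K' C Q X :=
  ⟨(mul_le_mul_of_nonneg_right h (Real.log_natCast_nonneg Q)).trans hR.1, hR.2⟩

theorem z4_five (a b c d e : ℂ) :
    ‖a + b + c + d + e‖ ^ 2 ≤ 5 * (‖a‖ ^ 2 + ‖b‖ ^ 2 + ‖c‖ ^ 2 + ‖d‖ ^ 2 + ‖e‖ ^ 2) := by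
  have h1 : ‖a + b + c + d + e‖ ≤ ‖a‖ + ‖b‖ + ‖c‖ + ‖d‖ + ‖e‖ :=
    (norm_add_le _ _).trans (by
      gcongr
      exact (norm_add_le _ _).trans (by
        gcongr
        exact (norm_add_le _ _).trans (by
          gcongr
          exact norm_add_le _ _)))
  refine (pow_le_pow_left₀ (norm_nonneg _) h1 2).trans ?_
  nlinarith [sq_nonneg (‖a‖ - ‖b‖), sq_nonneg (‖a‖ - ‖c‖), sq_nonneg (‖a‖ - ‖d‖),
    sq_nonneg (‖a‖ - ‖e‖), sq_nonneg (‖b‖ - ‖c‖), sq_nonneg (‖b‖ - ‖d‖), sq_nonneg (‖b‖ - ‖e‖),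
    sq_nonneg (‖c‖ - ‖d‖), sq_nonneg (‖c‖ - ‖e‖), sq_nonneg (‖d‖ - ‖e‖)]



end Pool.Agent.Lib.H24P
end

-- from Lib.HUK.BH2
section

/-!
# HUK, chunk BH2 (M): bounds for Dirichlet convolutions, and the splitting of `1` and `log`
-/

open Finset

namespace Pool.Agent.HUK

open Pool.Agent.Lib.H81A (af muV one1 logf)

theorem bh2_mem {n : ℕ} (hn : 1 ≤ n) {x : ℕ × ℕ} (hx : x ∈ n.divisorsAntidiagonal) :
    1 ≤ x.1 ∧ 1 ≤ x.2 ∧ x.1 ≤ n ∧ x.2 ≤ n := by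
  rw [Nat.mem_divisorsAntidiagonal] at hx
  obtain ⟨h3, _⟩ := hx
  have h5 : x.1 ≠ 0 := by rintro h; rw [h, zero_mul] at h3; omega
  have h6 : x.2 ≠ 0 := by rintro h; rw [h, mul_zero] at h3; omega
  have h7 : x.1 ≤ n := by rw [← h3]; exact Nat.le_mul_of_pos_right _ (Nat.pos_of_ne_zero h6)
  have h8 : x.2 ≤ n := by rw [← h3]; exact Nat.le_mul_of_pos_left _ (Nat.pos_of_ne_zero h5)
  exact ⟨by omega, by omega, h7, h8⟩

/-- Monotonicity. -/
theorem BN.mono {N : ℕ} {B B' : ℝ} {F : ArithmeticFunction ℝ} (h : BN N B F) (hB : B ≤ B') : BN N B' F := by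
  exact fun n h1 h2 => (h n h1 h2).trans hB

/-- Proof. `(F * G) n = ∑ x ∈ n.divisorsAntidiagonal, F x.1 * G x.2`; the entries of `x` are in `[1, n]`, at most `n.divisors.card ≤ W` terms. -/
theorem BN_mul {N : ℕ} {W B B' : ℝ} (hW : TW N W) {F G : ArithmeticFunction ℝ} (hF : BN N B F) (hG : BN N B' G)
    (hB : 0 ≤ B) (hB' : 0 ≤ B') : BN N (W * B * B') (F * G) := by
  intro n h1 h2
  rw [ArithmeticFunction.mul_apply]
  refine (Finset.abs_sum_le_sum_abs _ _).trans ?_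
  have h3 : ∀ x ∈ n.divisorsAntidiagonal, |F x.1 * G x.2| ≤ B * B' := by
    intro x hx
    obtain ⟨h4, h5, h6, h7⟩ := bh2_mem h1 hx
    rw [abs_mul]
    exact mul_le_mul (hF _ h4 (h6.trans h2)) (hG _ h5 (h7.trans h2)) (abs_nonneg _) hB
  refine (Finset.sum_le_sum h3).trans ?_
  rw [Finset.sum_const, nsmul_eq_mul, mul_assoc]
  refine mul_le_mul_of_nonneg_right ?_ (mul_nonneg hB hB')
  have h8 : n.divisorsAntidiagonal.card = n.divisors.card := by
    rw [← Nat.map_div_right_divisors, Finset.card_map]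
  rw [h8]
  exact hW.2 n h1 h2

/-- Proof. Induction on the list (`List.prod_cons`, `BN_mul`, `W * M * (W * M) ^ n = (W * M) ^ (n + 1)`); empty list: `|1 n| ≤ 1` (`ArithmeticFunction.one_apply`). -/
theorem BN_list {N : ℕ} {W M : ℝ} (hW : TW N W) (hM : 1 ≤ M) (l : List (ArithmeticFunction ℝ)) (hl : ∀ g ∈ l, BN N M g) :
    BN N ((W * M) ^ l.length) l.prod := by
  induction l with
  | nil =>
    intro n _ _
    rw [List.length_nil, pow_zero, List.prod_nil, ArithmeticFunction.one_apply]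
    split_ifs <;> simp
  | cons g l ih =>
    have h1 := BN_mul hW (hl g List.mem_cons_self) (ih fun g' hg' => hl g' (List.mem_cons_of_mem _ hg')) (by linarith)
      (pow_nonneg (mul_nonneg (by linarith [hW.1]) (by linarith)) _)
    rw [List.prod_cons, List.length_cons, pow_succ']
    exact h1


/-- Proof. `ArithmeticFunction.ext`; at `0` both sides vanish; at `n ≥ 1`: `b_one` (`BFin.lean`), `ArithmeticFunction.mul_apply`, `af_apply` (the entries of the elements of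
`n.divisorsAntidiagonal` are not `0`). -/
theorem one_split (A D : ℕ) (hS : 0 < SA A) : one1 = fS A D + fU A * fV A D + fE A D := by
  refine ArithmeticFunction.ext fun n => ?_
  rcases Nat.eq_zero_or_pos n with rfl | hn
  · rw [ArithmeticFunction.map_zero, ArithmeticFunction.map_zero]
  · rw [ArithmeticFunction.add_apply, ArithmeticFunction.add_apply, ArithmeticFunction.mul_apply]
    unfold one1 fS fE
    rw [Pool.Agent.Lib.H81A.af_apply _ hn.ne', Pool.Agent.Lib.H81A.af_apply _ hn.ne', Pool.Agent.Lib.H81A.af_apply _ hn.ne']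
    have h1 : ∑ x ∈ n.divisorsAntidiagonal, fU A x.1 * fV A D x.2 = ∑ x ∈ n.divisorsAntidiagonal, uu A x.1 * vv A D x.2 := by
      refine Finset.sum_congr rfl fun x hx => ?_
      obtain ⟨h4, h5, h6, h7⟩ := bh2_mem hn hx
      unfold fU fV
      rw [Pool.Agent.Lib.H81A.af_apply _ (by omega), Pool.Agent.Lib.H81A.af_apply _ (by omega)]
    rw [h1]
    exact b_one A D n hS hn

/-- Proof. As `one_split`, with `b_log`. -/
theorem log_split (A D : ℕ) (hS : 0 < SA A) : logf = fSL A D + fUL A * fV A D + fU A * fVL A D + fEL A D := by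
  refine ArithmeticFunction.ext fun n => ?_
  rcases Nat.eq_zero_or_pos n with rfl | hn
  · rw [ArithmeticFunction.map_zero, ArithmeticFunction.map_zero]
  · rw [ArithmeticFunction.add_apply, ArithmeticFunction.add_apply, ArithmeticFunction.add_apply, ArithmeticFunction.mul_apply,
      ArithmeticFunction.mul_apply]
    unfold logf fSL fEL
    rw [Pool.Agent.Lib.H81A.af_apply _ hn.ne', Pool.Agent.Lib.H81A.af_apply _ hn.ne', Pool.Agent.Lib.H81A.af_apply _ hn.ne']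
    have h1 : ∑ x ∈ n.divisorsAntidiagonal, fUL A x.1 * fV A D x.2 =
        ∑ x ∈ n.divisorsAntidiagonal, uu A x.1 * Real.log x.1 * vv A D x.2 := by
      refine Finset.sum_congr rfl fun x hx => ?_
      obtain ⟨h4, h5, h6, h7⟩ := bh2_mem hn hx
      unfold fUL fV
      rw [Pool.Agent.Lib.H81A.af_apply _ (by omega), Pool.Agent.Lib.H81A.af_apply _ (by omega)]
    have h2 : ∑ x ∈ n.divisorsAntidiagonal, fU A x.1 * fVL A D x.2 =
        ∑ x ∈ n.divisorsAntidiagonal, uu A x.1 * (vv A D x.2 * Real.log x.2) := by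
      refine Finset.sum_congr rfl fun x hx => ?_
      obtain ⟨h4, h5, h6, h7⟩ := bh2_mem hn hx
      unfold fU fVL
      rw [Pool.Agent.Lib.H81A.af_apply _ (by omega), Pool.Agent.Lib.H81A.af_apply _ (by omega)]
    rw [h1, h2]
    exact b_log A D n hS hn

/-- `F` is the sum of its parts. -/
theorem low_add_high (T : ℝ) (F : ArithmeticFunction ℝ) : lowT T F + highT T F = F := by
  refine ArithmeticFunction.ext fun n => ?_
  rcases Nat.eq_zero_or_pos n with rfl | hn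
  · rw [ArithmeticFunction.map_zero, ArithmeticFunction.map_zero]
  · rw [ArithmeticFunction.add_apply]
    unfold lowT highT
    rw [Pool.Agent.Lib.H81A.af_apply _ hn.ne', Pool.Agent.Lib.H81A.af_apply _ hn.ne']
    split_ifs <;> simp

theorem low_BN {N : ℕ} {B T : ℝ} {F : ArithmeticFunction ℝ} (h : BN N B F) (hB : 0 ≤ B) : BN N B (lowT T F) ∧ BN N B (highT T F) := by
  constructor
  · intro n h1 h2
    unfold lowT
    rw [Pool.Agent.Lib.H81A.af_apply _ (by omega)]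
    split_ifs
    · exact h n h1 h2
    · rw [abs_zero]
      exact hB
  · intro n h1 h2
    unfold highT
    rw [Pool.Agent.Lib.H81A.af_apply _ (by omega)]
    split_ifs
    · rw [abs_zero]
      exact hB
    · exact h n h1 h2

theorem low_SP (N : ℕ) (T : ℝ) (F : ArithmeticFunction ℝ) : SP N T (lowT T F) := by
  intro n h1 _ h3
  unfold lowT at h3
  rw [Pool.Agent.Lib.H81A.af_apply _ (by omega)] at h3
  by_contra h4
  rw [if_neg h4] at h3
  exact h3 rfl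

/-- The upper part of a convolution of `S` (supported on `n ≤ T`) and `g` (supported on `n ≤ Y`) is supported on `T < n ≤ T Y`. -/
theorem high_supp {N : ℕ} {T Y : ℝ} (hT : 0 ≤ T) {S g : ArithmeticFunction ℝ} (hS : SP N T S) (hg : SP N Y g) :
    ∀ n : ℕ, 1 ≤ n → n ≤ N → highT T (S * g) n ≠ 0 → T < n ∧ (n : ℝ) ≤ T * Y := by
  intro n h1 h2 h3
  unfold highT at h3
  rw [Pool.Agent.Lib.H81A.af_apply _ (by omega)] at h3
  by_cases h4 : (n : ℝ) ≤ T
  · rw [if_pos h4] at h3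
    exact absurd rfl h3
  rw [if_neg h4, ArithmeticFunction.mul_apply] at h3
  refine ⟨not_le.mp h4, ?_⟩
  obtain ⟨x, hx, hx0⟩ := Finset.exists_ne_zero_of_sum_ne_zero h3
  obtain ⟨h5, h6, h7, h8⟩ := bh2_mem h1 hx
  have h9 := hS x.1 h5 (h7.trans h2) (left_ne_zero_of_mul hx0)
  have h10 := hg x.2 h6 (h8.trans h2) (right_ne_zero_of_mul hx0)
  rw [← (Nat.mem_divisorsAntidiagonal.mp hx).1]
  push_cast
  exact mul_le_mul h9 h10 (by positivity) hT

end Pool.Agent.HUK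
end

-- from Lib.H96U.G1
section

/-!
# From `CoreOf`: Schinzel's problem for linear families
-/

open Finset Polynomial

namespace Pool.Agent.H96U

open Pool.Agent.H9U

open Pool.Agent.Lib.H59P (bx)

/-- The system of the forms `-γ n` (for `N - G(n)`) and `f_i n + ∑_j c_ij t_j`. -/
def gsys {g d : ℕ} (γ : ℤ) (f : Fin g → ℤ) (c : Fin g → Fin d → ℤ) : Sys (g + 1) d :=
  ⟨Fin.cons (-γ) f, Fin.cons (fun _ => 0) c⟩

/-- the first form -/
theorem g1_val0 {g d : ℕ} (γ : ℤ) (f : Fin g → ℤ) (c : Fin g → Fin d → ℤ) (b : Fin g → ℤ) (e n : ℤ) (t : Fin d → ℤ) :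
    (gsys γ f c).val (Fin.cons e b) n t 0 = e - γ * n := by
  show ((-γ) * n + ∑ j : Fin d, (0 : ℤ) * t j) + e = e - γ * n
  simp only [zero_mul, Finset.sum_const_zero]
  ring

/-- the other forms -/
theorem g1_valS {g d : ℕ} (γ : ℤ) (f : Fin g → ℤ) (c : Fin g → Fin d → ℤ) (b : Fin g → ℤ) (e n : ℤ) (t : Fin d → ℤ)
    (i : Fin g) : (gsys γ f c).val (Fin.cons e b) n t i.succ = f i * n + (b i + ∑ j, c i j * t j) := by
  show (f i * n + ∑ j : Fin d, c i j * t j) + b i = _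
  ring


end Pool.Agent.H96U
end

-- from Lib.HUK.BH7
section

/-!
# HUK, chunk BH7 (M): sizes for large `X`
-/

open Finset

namespace Pool.Agent.HUK

open Pool.Agent.Lib.H81A (af muV one1 logf)

theorem bh7_ev (C : ℝ) {a b : ℝ} (hab : a < b) : ∀ᶠ X : ℕ in Filter.atTop, C * (X : ℝ) ^ a ≤ (X : ℝ) ^ b := by
  have h := ((tendsto_rpow_atTop (sub_pos.2 hab)).comp tendsto_natCast_atTop_atTop).eventually_ge_atTop C
  filter_upwards [h, Filter.eventually_ge_atTop 1] with X h1 h2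
  have hX : (0 : ℝ) < X := by exact_mod_cast h2
  have h3 : C ≤ (X : ℝ) ^ (b - a) := h1
  calc C * (X : ℝ) ^ a ≤ (X : ℝ) ^ (b - a) * (X : ℝ) ^ a :=
        mul_le_mul_of_nonneg_right h3 (Real.rpow_nonneg hX.le _)
    _ = (X : ℝ) ^ b := by rw [← Real.rpow_add hX, sub_add_cancel]

theorem bh7_one {δ : ℝ} (hδ : 0 < δ) {X : ℕ} (hX : 1 ≤ X) : 1 ≤ (X : ℝ) ^ δ :=
  Real.one_le_rpow (by exact_mod_cast hX) hδ.le

theorem bh7_log (k : ℕ) {δ : ℝ} (hδ : 0 < δ) :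
    ∀ᶠ X : ℕ in Filter.atTop, ∀ n : ℕ, 1 ≤ n → n ≤ 2 * k * X → Real.log n ≤ (X : ℝ) ^ δ := by
  have h := bh7_ev ((2 * (k : ℝ)) ^ (δ / 2) / (δ / 2)) (a := δ / 2) (b := δ) (by linarith)
  filter_upwards [h, Filter.eventually_ge_atTop 1] with X h1 h2 n hn hn2
  have hX : (0 : ℝ) < X := by exact_mod_cast h2
  have hn3 : (n : ℝ) ≤ 2 * k * X := by exact_mod_cast hn2
  have hn0 : (0 : ℝ) ≤ n := Nat.cast_nonneg n
  have hk : (0 : ℝ) ≤ 2 * k := by positivity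
  calc Real.log n ≤ (n : ℝ) ^ (δ / 2) / (δ / 2) := Real.log_le_rpow_div hn0 (by linarith)
    _ ≤ (2 * k * X : ℝ) ^ (δ / 2) / (δ / 2) := by
        have h3 := Real.rpow_le_rpow hn0 hn3 (by linarith : 0 ≤ δ / 2)
        gcongr
    _ = (2 * (k : ℝ)) ^ (δ / 2) / (δ / 2) * (X : ℝ) ^ (δ / 2) := by
        rw [Real.mul_rpow hk hX.le]
        ring
    _ ≤ (X : ℝ) ^ δ := h1

theorem bh7_floor {τ : ℝ} (X : ℕ) : ((⌊(X : ℝ) ^ τ⌋₊ : ℕ) : ℝ) ≤ (X : ℝ) ^ τ :=
  Nat.floor_le (Real.rpow_nonneg (Nat.cast_nonneg X) τ)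

theorem bh7_A {τ : ℝ} (hτ : 0 < τ) (A0 : ℕ) : ∀ᶠ X : ℕ in Filter.atTop, A0 ≤ ⌊(X : ℝ) ^ τ⌋₊ := by
  have h := ((tendsto_rpow_atTop hτ).comp tendsto_natCast_atTop_atTop).eventually_ge_atTop (A0 : ℝ)
  filter_upwards [h] with X h1
  exact Nat.le_floor h1

theorem bh7_S {τ : ℝ} (hτ : 0 < τ) {ε : ℝ} (hε : 0 < ε) : ∀ᶠ X : ℕ in Filter.atTop,
    0 < SA ⌊(X : ℝ) ^ τ⌋₊ ∧ 1 / SA ⌊(X : ℝ) ^ τ⌋₊ ≤ (X : ℝ) ^ ε := by
  obtain ⟨A0, hA0, hA⟩ := sa_ge
  obtain ⟨e, he⟩ : ∃ e : ℝ, e = ε / (2 * τ) := ⟨_, rfl⟩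
  have he0 : 0 < e := by rw [he]; positivity
  have h := bh7_ev (8 * ((4 : ℝ) ^ e / e)) (a := ε / 2) (b := ε) (by linarith)
  filter_upwards [h, bh7_A hτ A0, Filter.eventually_ge_atTop 1] with X h1 h2 h3
  have hX : (0 : ℝ) < X := by exact_mod_cast h3
  obtain ⟨A, hAdef⟩ : ∃ A : ℕ, A = ⌊(X : ℝ) ^ τ⌋₊ := ⟨_, rfl⟩
  rw [← hAdef] at h2 ⊢
  have hA2 : 2 ≤ A := hA0.trans h2
  have hA2' : (2 : ℝ) ≤ A := by exact_mod_cast hA2
  have hAX : (A : ℝ) ≤ (X : ℝ) ^ τ := by rw [hAdef]; exact bh7_floor X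
  have hlog : 0 < Real.log (4 * A) := Real.log_pos (by linarith)
  have h4 := hA A h2
  have h5 : 0 < SA A := lt_of_lt_of_le (by positivity) h4
  refine ⟨h5, ?_⟩
  have h6 : 1 / SA A ≤ 8 * Real.log (4 * A) := by
    rw [div_le_iff₀ h5]
    rw [div_le_iff₀ (by positivity)] at h4
    linarith
  have h7 : Real.log (4 * A) ≤ (4 : ℝ) ^ e / e * (X : ℝ) ^ (ε / 2) := by
    calc Real.log (4 * A) ≤ (4 * (A : ℝ)) ^ e / e := Real.log_le_rpow_div (by positivity) he0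
      _ ≤ (4 * (X : ℝ) ^ τ) ^ e / e := by
          have h8 := Real.rpow_le_rpow (by positivity : (0 : ℝ) ≤ 4 * A)
            (by linarith : 4 * (A : ℝ) ≤ 4 * (X : ℝ) ^ τ) he0.le
          gcongr
      _ = (4 : ℝ) ^ e / e * (X : ℝ) ^ (ε / 2) := by
          rw [Real.mul_rpow (by norm_num) (Real.rpow_nonneg hX.le _), ← Real.rpow_mul hX.le]
          have h9 : τ * e = ε / 2 := by
            rw [he]
            field_simp
          rw [h9]
          ring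
  calc 1 / SA A ≤ 8 * Real.log (4 * A) := h6
    _ ≤ 8 * ((4 : ℝ) ^ e / e * (X : ℝ) ^ (ε / 2)) := by linarith
    _ = 8 * ((4 : ℝ) ^ e / e) * (X : ℝ) ^ (ε / 2) := by ring
    _ ≤ (X : ℝ) ^ ε := h1

/-- Proof. `Pool.Agent.Lib.H21AP.divisor_bound` with exponent `δ / 2`: `C (2 k X) ^ (δ/2) ≤ X ^ δ` for large `X`; `1 ≤ X ^ δ`. -/
theorem bh_tw (k : ℕ) (δ : ℝ) (hδ : 0 < δ) : ∃ X0 : ℕ, ∀ X : ℕ, X0 ≤ X → TW (2 * k * X) ((X : ℝ) ^ δ) := by
  obtain ⟨C, hC, hdiv⟩ := Pool.Agent.Lib.H21AP.divisor_bound (ε := δ / 2) (by linarith)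
  have h := bh7_ev (C * (2 * (k : ℝ)) ^ (δ / 2)) (a := δ / 2) (b := δ) (by linarith)
  obtain ⟨X0, hX0⟩ := Filter.eventually_atTop.1 (h.and (Filter.eventually_ge_atTop 1))
  refine ⟨X0, fun X hX => ?_⟩
  obtain ⟨h1, h2⟩ := hX0 X hX
  have hXp : (0 : ℝ) < X := by exact_mod_cast h2
  refine ⟨bh7_one hδ h2, fun n hn hn2 => ?_⟩
  have hn3 : (n : ℝ) ≤ 2 * k * X := by exact_mod_cast hn2
  have hn0 : (0 : ℝ) ≤ n := Nat.cast_nonneg n
  have hk : (0 : ℝ) ≤ 2 * k := by positivity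
  calc (n.divisors.card : ℝ) ≤ C * (n : ℝ) ^ (δ / 2) := hdiv n hn
    _ ≤ C * (2 * k * X : ℝ) ^ (δ / 2) :=
        mul_le_mul_of_nonneg_left (Real.rpow_le_rpow hn0 hn3 (by linarith)) hC.le
    _ = C * (2 * (k : ℝ)) ^ (δ / 2) * (X : ℝ) ^ (δ / 2) := by
        rw [Real.mul_rpow hk hXp.le]
        ring
    _ ≤ (X : ℝ) ^ δ := h1

/-- Proof. `A = ⌊X^τ⌋`, `D = z = ⌊X^θ⌋`, `N = 2 k X`, `M = X^δ`, `Y = X^(2θ)`. For large `X`: `A ≥ A0` of `sa_ge`, so `SA A > 0` and `1/SA A ≤ 8 log (4A) ≤ X^(δ/2)`; `log N ≤ X^(δ/2)` (`Real.log_le_rpow_div`, powers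
absorb constants); `4 X^θ ≤ X^(2θ)`. `muV z`: values of the Moebius function (`abs_moebius_le_one`, see `sm_bound` in `H81A/SM.lean`), supported on `n ≤ z ≤ X^θ`; `fS`: `sml_mem`, `sml_zero`; `fSL`: in addition `0 ≤ log n ≤ log N`; `fV`, `fVL`: `vv_mem`;
`one1`, `logf` clear. `tw` is `bh_tw`. -/
theorem bh_siz (k : ℕ) (hk : 1 ≤ k) (δ θ τ : ℝ) (hδ : 0 < δ) (hθ : 0 < θ) (hτ : 0 < τ) : ∃ X0 : ℕ, ∀ X : ℕ, X0 ≤ X →
    Siz (2 * k * X) ⌊(X : ℝ) ^ τ⌋₊ ⌊(X : ℝ) ^ θ⌋₊ ⌊(X : ℝ) ^ θ⌋₊ ((X : ℝ) ^ (2 * θ)) ((X : ℝ) ^ δ) ((X : ℝ) ^ δ) := by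
  obtain ⟨X1, hX1⟩ := bh_tw k δ hδ
  have h4 := bh7_ev 4 (a := θ) (b := 2 * θ) (by linarith)
  obtain ⟨X0, hX0⟩ := Filter.eventually_atTop.1 ((Filter.eventually_ge_atTop X1).and
    ((Filter.eventually_ge_atTop 1).and ((bh7_log k hδ).and ((bh7_S hτ hδ).and h4))))
  refine ⟨X0, fun X hX => ?_⟩
  obtain ⟨h1, h2, h3, ⟨h5, -⟩, h6⟩ := hX0 X hX
  have hXp : (0 : ℝ) < X := by exact_mod_cast h2
  have hM : 1 ≤ (X : ℝ) ^ δ := bh7_one hδ h2
  have hD : ((⌊(X : ℝ) ^ θ⌋₊ : ℕ) : ℝ) ≤ (X : ℝ) ^ θ := bh7_floor X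
  have hθ1 : 1 ≤ (X : ℝ) ^ θ := bh7_one hθ h2
  have hlog : ∀ n : ℕ, 1 ≤ n → 0 ≤ Real.log n := fun n hn => Real.log_natCast_nonneg n
  have hsm := fun n => sml_mem ⌊(X : ℝ) ^ τ⌋₊ ⌊(X : ℝ) ^ θ⌋₊ n h5
  have hvm := fun n => vv_mem ⌊(X : ℝ) ^ τ⌋₊ ⌊(X : ℝ) ^ θ⌋₊ n
  have hss : ∀ n : ℕ, sml ⌊(X : ℝ) ^ τ⌋₊ ⌊(X : ℝ) ^ θ⌋₊ n ≠ 0 → (n : ℝ) ≤ (X : ℝ) ^ (2 * θ) := by
    intro n hn
    have h7 : n ≤ 4 * ⌊(X : ℝ) ^ θ⌋₊ := by
      by_contra hc
      exact hn (sml_zero _ _ n h5 (not_le.1 hc))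
    have h8 : (n : ℝ) ≤ 4 * ((⌊(X : ℝ) ^ θ⌋₊ : ℕ) : ℝ) := by exact_mod_cast h7
    linarith
  refine ⟨hM, hX1 X h1, ⟨?_, ?_⟩, ⟨?_, ?_⟩, ⟨?_, ?_⟩, ?_, ?_, ?_, ?_, h5⟩
  · intro n hn _
    rw [muV, Pool.Agent.Lib.H81A.af_apply _ (by omega)]
    split_ifs
    · have h7 : |((ArithmeticFunction.moebius n : ℤ) : ℝ)| ≤ 1 := by
        exact_mod_cast ArithmeticFunction.abs_moebius_le_one
      exact h7.trans hM
    · rw [abs_zero]
      linarith
  · intro n hn _ hF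
    rw [muV, Pool.Agent.Lib.H81A.af_apply _ (by omega)] at hF
    split_ifs at hF with h7
    · have h8 : (n : ℝ) ≤ ((⌊(X : ℝ) ^ θ⌋₊ : ℕ) : ℝ) := by exact_mod_cast h7
      linarith
    · exact absurd rfl hF
  · intro n hn _
    rw [fS, Pool.Agent.Lib.H81A.af_apply _ (by omega), abs_of_nonneg (hsm n).1]
    exact (hsm n).2.trans hM
  · intro n hn _ hF
    rw [fS, Pool.Agent.Lib.H81A.af_apply _ (by omega)] at hF
    exact hss n hF
  · intro n hn hn2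
    rw [fSL, Pool.Agent.Lib.H81A.af_apply _ (by omega),
      abs_of_nonneg (mul_nonneg (hsm n).1 (hlog n hn))]
    exact (mul_le_of_le_one_left (hlog n hn) (hsm n).2).trans (h3 n hn hn2)
  · intro n hn _ hF
    rw [fSL, Pool.Agent.Lib.H81A.af_apply _ (by omega)] at hF
    exact hss n (left_ne_zero_of_mul hF)
  · intro n hn _
    rw [fV, Pool.Agent.Lib.H81A.af_apply _ (by omega), abs_of_nonneg (hvm n).1]
    exact (hvm n).2.trans hM
  · intro n hn hn2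
    rw [fVL, Pool.Agent.Lib.H81A.af_apply _ (by omega),
      abs_of_nonneg (mul_nonneg (hvm n).1 (hlog n hn))]
    exact (mul_le_of_le_one_left (hlog n hn) (hvm n).2).trans (h3 n hn hn2)
  · intro n hn _
    rw [one1, Pool.Agent.Lib.H81A.af_apply _ (by omega), abs_one]
    exact hM
  · intro n hn hn2
    rw [logf, Pool.Agent.Lib.H81A.af_apply _ (by omega), abs_of_nonneg (hlog n hn)]
    exact h3 n hn hn2

/-- Proof. `A = ⌊X^τ⌋`, `N = 2kX`. `uu A n ≠ 0` only for `A < n ≤ 4 A` (`uu_supp`), so `X^(τ/2) ≤ X^τ < A + 1 ≤ n` and `n ≤ 4 X^τ ≤ X^σ` (as `τ < σ`, `X` large); `0 ≤ uu ≤ 1/SA A ≤ 8 log (4 A)` (`uu_mem`, `sa_ge`), times `log n ≤ log N`. -/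
theorem bh_u (k : ℕ) (hk : 1 ≤ k) (δ τ σ : ℝ) (hδ : 0 < δ) (hτ : 0 < τ) (hσ : τ < σ) : ∃ X0 : ℕ, ∀ X : ℕ, X0 ≤ X →
    (BN (2 * k * X) ((X : ℝ) ^ δ) (fU ⌊(X : ℝ) ^ τ⌋₊) ∧ BN (2 * k * X) ((X : ℝ) ^ δ) (fUL ⌊(X : ℝ) ^ τ⌋₊)) ∧
    (∀ n : ℕ, 1 ≤ n → n ≤ 2 * k * X → (fU ⌊(X : ℝ) ^ τ⌋₊ n ≠ 0 ∨ fUL ⌊(X : ℝ) ^ τ⌋₊ n ≠ 0) →
      (X : ℝ) ^ (τ / 2) ≤ n ∧ (n : ℝ) ≤ (X : ℝ) ^ σ) := by
  have h4 := bh7_ev 4 (a := τ) (b := σ) hσ
  obtain ⟨X0, hX0⟩ := Filter.eventually_atTop.1 ((Filter.eventually_ge_atTop 1).and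
    ((bh7_log k (half_pos hδ)).and ((bh7_S hτ (half_pos hδ)).and h4)))
  refine ⟨X0, fun X hX => ?_⟩
  obtain ⟨h2, h3, ⟨h5, h7⟩, h6⟩ := hX0 X hX
  have hXp : (0 : ℝ) < X := by exact_mod_cast h2
  have hX1 : (1 : ℝ) ≤ X := by exact_mod_cast h2
  have hM : 1 ≤ (X : ℝ) ^ (δ / 2) := bh7_one (half_pos hδ) h2
  have hMM : (X : ℝ) ^ (δ / 2) * (X : ℝ) ^ (δ / 2) = (X : ℝ) ^ δ := by
    rw [← Real.rpow_add hXp, add_halves]
  have hM2 : (X : ℝ) ^ (δ / 2) ≤ (X : ℝ) ^ δ := by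
    rw [← hMM]
    exact le_mul_of_one_le_left (by linarith) hM
  have hum := fun n => uu_mem ⌊(X : ℝ) ^ τ⌋₊ n
  have hlog : ∀ n : ℕ, 1 ≤ n → 0 ≤ Real.log n := fun n hn => Real.log_natCast_nonneg n
  refine ⟨⟨?_, ?_⟩, ?_⟩
  · intro n hn _
    rw [fU, Pool.Agent.Lib.H81A.af_apply _ (by omega), abs_of_nonneg (hum n).1]
    exact ((hum n).2.trans h7).trans hM2
  · intro n hn hn2
    rw [fUL, Pool.Agent.Lib.H81A.af_apply _ (by omega),
      abs_of_nonneg (mul_nonneg (hum n).1 (hlog n hn)), ← hMM]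
    exact mul_le_mul ((hum n).2.trans h7) (h3 n hn hn2) (hlog n hn) (by linarith)
  · intro n hn _ hF
    have hu : uu ⌊(X : ℝ) ^ τ⌋₊ n ≠ 0 := by
      rcases hF with hF | hF
      · rw [fU, Pool.Agent.Lib.H81A.af_apply _ (by omega)] at hF
        exact hF
      · rw [fUL, Pool.Agent.Lib.H81A.af_apply _ (by omega)] at hF
        exact left_ne_zero_of_mul hF
    obtain ⟨h8, h9⟩ := uu_supp _ n hu
    have h10 : ((⌊(X : ℝ) ^ τ⌋₊ : ℕ) : ℝ) + 1 ≤ n := by exact_mod_cast h8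
    have h11 : (n : ℝ) ≤ 4 * ((⌊(X : ℝ) ^ τ⌋₊ : ℕ) : ℝ) := by exact_mod_cast h9
    have h12 := Nat.lt_floor_add_one ((X : ℝ) ^ τ)
    have h13 : (X : ℝ) ^ (τ / 2) ≤ (X : ℝ) ^ τ := Real.rpow_le_rpow_of_exponent_le hX1 (by linarith)
    have h14 : ((⌊(X : ℝ) ^ τ⌋₊ : ℕ) : ℝ) ≤ (X : ℝ) ^ τ := bh7_floor X
    exact ⟨by linarith, by linarith⟩

/-- Proof. `⌊X^θ⌋ + 1 ≥ X^θ`, so `(⌊X^θ⌋ + 1)^J ≥ X^(θ J) ≥ X^2 > 2 k X` for large `X`. -/
theorem bh_J (k J : ℕ) (θ : ℝ) (hθ : 0 < θ) (hJ : 2 ≤ θ * J) : ∃ X0 : ℕ, ∀ X : ℕ, X0 ≤ X →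
    2 * k * X < (⌊(X : ℝ) ^ θ⌋₊ + 1) ^ J := by
  refine ⟨2 * k + 1, fun X hX => ?_⟩
  have h1 : (1 : ℝ) ≤ X := by
    have : 1 ≤ X := by omega
    exact_mod_cast this
  have h2 : (2 * k + 1 : ℝ) ≤ X := by exact_mod_cast hX
  have h3 : (X : ℝ) ^ 2 ≤ ((⌊(X : ℝ) ^ θ⌋₊ : ℝ) + 1) ^ J := by
    calc (X : ℝ) ^ 2 = (X : ℝ) ^ (2 : ℝ) := by rw [← Real.rpow_natCast]; norm_num
      _ ≤ (X : ℝ) ^ (θ * J) := Real.rpow_le_rpow_of_exponent_le h1 hJ
      _ = ((X : ℝ) ^ θ) ^ J := Real.rpow_mul_natCast (by linarith) θ J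
      _ ≤ ((⌊(X : ℝ) ^ θ⌋₊ : ℝ) + 1) ^ J :=
          pow_le_pow_left₀ (Real.rpow_nonneg (by linarith) _) (Nat.lt_floor_add_one _).le J
  have h4 : ((2 * k * X : ℕ) : ℝ) < (((⌊(X : ℝ) ^ θ⌋₊ + 1) ^ J : ℕ) : ℝ) := by
    push_cast
    refine lt_of_lt_of_le ?_ h3
    nlinarith
  exact_mod_cast h4

end Pool.Agent.HUK
end

-- from Lib.HUK.BH6
section

/-!
# HUK, chunk BH6 (M): the two inputs in functional form
-/

open Finset

namespace Pool.Agent.HUK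

open Pool.Agent.Lib.H81A (af muV one1 logf)

/-- **Type II.** Proof. `TII k` for `θ, κ`; `α a = F a` for `1 ≤ a ≤ 2 k X` and `0` otherwise, `β` the same with `G`; `LF_mul`. -/
theorem t2_LF (k : ℕ) (hk : 3 ≤ k) (h : TII k) (θ κ : ℝ) (hθ : 0 < θ) (hκ : 0 < κ) :
    ∃ κ' ε : ℝ, 0 < κ' ∧ 0 < ε ∧ ∃ X0 : ℕ, ∀ X : ℕ, X0 ≤ X → ∀ f : ℕ → ℤ → ℂ, (∀ j, j < k → Bdd X (f j)) →
      GG X (k - 1) (f 0) ≤ (X : ℝ) ^ (k - κ) → ∀ F G : ArithmeticFunction ℝ,
      BN (2 * k * X) ((X : ℝ) ^ ε) F → BN (2 * k * X) ((X : ℝ) ^ ε) G →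
      (∀ n : ℕ, 1 ≤ n → n ≤ 2 * k * X → F n ≠ 0 → (X : ℝ) ^ θ ≤ n ∧ (n : ℝ) ≤ (X : ℝ) ^ cs k) →
      ‖LF X k f (F * G)‖ ≤ (X : ℝ) ^ (2 - κ') := by
  obtain ⟨κ', ε, hκ', hε, X0, hX0⟩ := h θ κ hθ hκ
  refine ⟨κ', ε, hκ', hε, X0, fun X hX f hf hG F G hF hGb hs => ?_⟩
  have hXe : (0 : ℝ) ≤ (X : ℝ) ^ ε := Real.rpow_nonneg (Nat.cast_nonneg _) _
  have key := hX0 X hX (fun a => if a ∈ Icc 1 (2 * k * X) then ((F a : ℝ) : ℂ) else 0)
    (fun b => if b ∈ Icc 1 (2 * k * X) then ((G b : ℝ) : ℂ) else 0) ?_ ?_ ?_ f hf hG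
  · rw [LF_mul X k (by omega) f hf F G]
    refine le_of_eq_of_le (congrArg _ ?_) key
    refine Finset.sum_congr rfl fun a ha => Finset.sum_congr rfl fun b hb => ?_
    rw [if_pos ha, if_pos hb]
  · intro a
    split_ifs with ha
    · rw [mem_Icc] at ha
      rw [Complex.norm_real, Real.norm_eq_abs]
      exact hF a ha.1 ha.2
    · rw [norm_zero]
      exact hXe
  · intro a
    split_ifs with ha
    · rw [mem_Icc] at ha
      rw [Complex.norm_real, Real.norm_eq_abs]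
      exact hGb a ha.1 ha.2
    · rw [norm_zero]
      exact hXe
  · intro a ha
    beta_reduce at ha
    split_ifs at ha with h1
    · rw [mem_Icc] at h1
      refine hs a h1.1 h1.2 fun h0 => ha ?_
      rw [h0, Complex.ofReal_zero]
    · exact absurd rfl ha

/-- **The error of the replacement.** Proof. `eta_sum` (`BFin.lean`) with `γ m = G m` for `1 ≤ m ≤ 2 k X` and `0` otherwise, `ω = 1` resp. `ω = log`; `LF_mul`, `mul_comm` of the arguments
(`af_apply` for `d ≥ 1`). -/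
theorem eta_LF (k : ℕ) (hk : 3 ≤ k) (θ τ : ℝ) (hτ : 0 < τ) (hθτ : 2 ^ (k + 3) * τ ≤ θ) (hθ : θ ≤ 1) :
    ∃ c ε : ℝ, 0 < c ∧ 0 < ε ∧ ∃ X0 : ℕ, ∀ X : ℕ, X0 ≤ X → ∀ f : ℕ → ℤ → ℂ, (∀ j, j < k → Bdd X (f j)) →
      ∀ G : ArithmeticFunction ℝ, BN (2 * k * X) ((X : ℝ) ^ ε) G →
      ‖LF X k f (G * fE ⌊(X : ℝ) ^ τ⌋₊ ⌊(X : ℝ) ^ θ⌋₊)‖ ≤ (X : ℝ) ^ (2 - c) ∧
      ‖LF X k f (G * fEL ⌊(X : ℝ) ^ τ⌋₊ ⌊(X : ℝ) ^ θ⌋₊)‖ ≤ (X : ℝ) ^ (2 - c) := by
  obtain ⟨c, ε, hc, hε, X0, hX0⟩ := eta_sum k (by omega) θ τ hτ hθτ hθ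
  refine ⟨c, ε, hc, hε, X0, fun X hX f hf G hG => ?_⟩
  have hXe : (0 : ℝ) ≤ (X : ℝ) ^ ε := Real.rpow_nonneg (Nat.cast_nonneg _) _
  have hγ : ∀ m : ℕ, ‖(if m ∈ Icc 1 (2 * k * X) then ((G m : ℝ) : ℂ) else 0)‖ ≤ (X : ℝ) ^ ε := by
    intro a
    split_ifs with ha
    · rw [mem_Icc] at ha
      rw [Complex.norm_real, Real.norm_eq_abs]
      exact hG a ha.1 ha.2
    · rw [norm_zero]
      exact hXe
  have key := hX0 X hX f hf (fun m => if m ∈ Icc 1 (2 * k * X) then ((G m : ℝ) : ℂ) else 0) hγ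
  have haf : ∀ (g : ℕ → ℝ) (d : ℕ), d ∈ Icc 1 (2 * k * X) → af g d = g d := by
    intro g d hd
    rw [mem_Icc] at hd
    exact Pool.Agent.Lib.H81A.af_apply g (by omega)
  constructor
  · refine le_of_eq_of_le (congrArg _ ?_) (key (fun _ => 1) (Or.inl fun _ => rfl))
    rw [LF_mul X k (by omega) f hf]
    refine Finset.sum_congr rfl fun a ha => Finset.sum_congr rfl fun b hb => ?_
    rw [if_pos ha, mul_one, mul_comm (a : ℤ)]
    unfold fE
    rw [haf _ b hb]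
  · refine le_of_eq_of_le (congrArg _ ?_) (key (fun d => Real.log d) (Or.inr fun _ => rfl))
    rw [LF_mul X k (by omega) f hf]
    refine Finset.sum_congr rfl fun a ha => Finset.sum_congr rfl fun b hb => ?_
    rw [if_pos ha, mul_comm (a : ℤ)]
    unfold fEL
    rw [haf _ b hb]

end Pool.Agent.HUK
end

-- from Lib.HUK.BH8
section

/-!
# HUK, chunk BH8 (M): from primes to the von Mangoldt function
-/

open Finset

namespace Pool.Agent.HUK

open Pool.Agent.Lib.H68T (lp)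

theorem bh8_prime_powers (N : ℕ) (hN : 1 ≤ N) :
    ∑ n ∈ Icc 1 N, (ArithmeticFunction.vonMangoldt n - lp n) ≤
      2 * √(N : ℝ) * Real.log (N : ℝ) := by
  have h1 := Chebyshev.psi_sub_theta_le (x := (N : ℝ)) (by exact_mod_cast hN)
  rw [Chebyshev.psi_sub_theta_eq_sum_not_prime, Nat.floor_natCast] at h1
  refine le_trans (le_of_eq ?_) h1
  rw [Finset.sum_filter]
  apply Finset.sum_congr rfl
  intro n _
  unfold Pool.Agent.Lib.H68T.lp
  rw [Int.toNat_natCast]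
  by_cases h : n.Prime
  · simp [h, ArithmeticFunction.vonMangoldt_apply_prime h]
  · simp [h]

theorem bh8_num (k : ℕ) (hk : 1 ≤ k) : ∃ X0 : ℕ, ∀ X : ℕ, X0 ≤ X →
    2 * √((2 * k * X : ℕ) : ℝ) * Real.log ((2 * k * X : ℕ) : ℝ) * (4 * X) ≤ (X : ℝ) ^ (7 / 4 : ℝ) := by
  have h1 : (fun x : ℝ => 8 * √(2 * k) * (Real.log (2 * k) + Real.log x)) =o[Filter.atTop]
      fun x : ℝ => x ^ (1 / 4 : ℝ) := by
    apply Asymptotics.IsLittleO.const_mul_left
    apply Asymptotics.IsLittleO.add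
    · rw [Asymptotics.isLittleO_const_left]
      right
      exact tendsto_norm_atTop_atTop.comp (tendsto_rpow_atTop (by norm_num))
    · exact isLittleO_log_rpow_atTop (by norm_num)
  have h2 := (h1.def (c := 1) one_pos)
  obtain ⟨x0, hx0⟩ := Filter.eventually_atTop.mp h2
  refine ⟨max 1 ⌈x0⌉₊, fun X hX => ?_⟩
  have hX1 : 1 ≤ X := le_trans (le_max_left _ _) hX
  have hXr : (1 : ℝ) ≤ X := by exact_mod_cast hX1
  have hX0 : (0 : ℝ) < X := by linarith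
  have hXx : x0 ≤ (X : ℝ) := by
    have : ⌈x0⌉₊ ≤ X := le_trans (le_max_right _ _) hX
    exact (Nat.le_ceil x0).trans (by exact_mod_cast this)
  have h3 := hx0 X hXx
  have hk' : (1 : ℝ) ≤ k := by exact_mod_cast hk
  have h4 : 8 * √(2 * k) * (Real.log (2 * k) + Real.log X) ≤ (X : ℝ) ^ (1 / 4 : ℝ) := by
    refine (le_abs_self _).trans ?_
    rw [Real.norm_eq_abs, Real.norm_eq_abs, one_mul, abs_of_nonneg (Real.rpow_nonneg hX0.le _)] at h3
    exact h3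
  have e1 : ((2 * k * X : ℕ) : ℝ) = 2 * k * X := by push_cast; ring
  have e2 : (X : ℝ) ^ (7 / 4 : ℝ) = X * √(X : ℝ) * (X : ℝ) ^ (1 / 4 : ℝ) := by
    rw [Real.sqrt_eq_rpow]
    nth_rewrite 2 [← Real.rpow_one (X : ℝ)]
    rw [← Real.rpow_add hX0, ← Real.rpow_add hX0]
    norm_num
  rw [e1, Real.sqrt_mul (by positivity), Real.log_mul (by positivity) hX0.ne', e2]
  have h5 : 0 ≤ X * √(X : ℝ) := by positivity
  calc 2 * (√(2 * k) * √(X : ℝ)) * (Real.log (2 * k) + Real.log X) * (4 * X)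
      = X * √(X : ℝ) * (8 * √(2 * k) * (Real.log (2 * k) + Real.log X)) := by ring
    _ ≤ _ := mul_le_mul_of_nonneg_left h4 h5

/-- Proof. `BPS_lp_le` (`H68T/BPS.lean`): `lp n ≤ Λ n`; as `BPS_prime_powers` there with `60 * X` replaced by `N = 2 k X` (`Chebyshev.psi_sub_theta_le`, `Chebyshev.psi_sub_theta_eq_sum_not_prime`): `∑_{n ≤ N} (Λ n - lp n) ≤ 2 √N log N`; `psi_bd`. So the
difference is at most `2 √N log N · 4 X ≤ X^(7/4)` for large `X`. (`X ≥ 1`, `k ≥ 1`.) -/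
theorem bh_lp (k : ℕ) (hk : 1 ≤ k) : ∃ X0 : ℕ, ∀ X : ℕ, X0 ≤ X → ∀ f : ℕ → ℤ → ℂ, (∀ j, j < k → Bdd X (f j)) →
    ‖(∑ n ∈ Icc 1 (2 * k * X), ((lp n : ℝ) : ℂ) * Psi X k f n) - LF X k f ArithmeticFunction.vonMangoldt‖ ≤ (X : ℝ) ^ (7 / 4 : ℝ) := by
  obtain ⟨X0, hX0⟩ := bh8_num k hk
  refine ⟨max 1 X0, fun X hX f hf => ?_⟩
  have hX1 : 1 ≤ X := le_trans (le_max_left _ _) hX
  refine le_trans ?_ (hX0 X (le_trans (le_max_right _ _) hX))
  have hN : 1 ≤ 2 * k * X := Nat.one_le_iff_ne_zero.mpr (by positivity)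
  have h1 := bh8_prime_powers (2 * k * X) hN
  have h2 : (0 : ℝ) ≤ 4 * X := by positivity
  refine le_trans ?_ (mul_le_mul_of_nonneg_right h1 h2)
  rw [LF, ← Finset.sum_sub_distrib, Finset.sum_mul]
  refine (norm_sum_le _ _).trans (Finset.sum_le_sum fun n _ => ?_)
  rw [← sub_mul, norm_mul, ← Complex.ofReal_sub, Complex.norm_real, Real.norm_eq_abs, abs_sub_comm,
    abs_of_nonneg (by linarith [Pool.Agent.Lib.H68T.BPS_lp_le n])]
  exact mul_le_mul_of_nonneg_left (psi_bd X k f hf n) (by linarith [Pool.Agent.Lib.H68T.BPS_lp_le n])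

end Pool.Agent.HUK
end

-- from Lib.HUK.BH4
section

/-!
# HUK, chunk BH4 (M): all factors small, partial products
-/

open Finset

namespace Pool.Agent.HUK

open Pool.Agent.Lib.H81A (af muV one1 logf)

/-- **Products of small factors.** `N = 2 k X`. Proof. Induction on `l`, `S` and `M'` arbitrary. Empty list: `S * 1 = S`, `LF_triv` (`M' ≤ B`). `g :: l`:
`S * (g * l.prod) = lowT T (S * g) * l.prod + highT T (S * g) * l.prod` (`low_add_high`), `LF_add`. First part: induction hypothesis for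
`lowT T (S * g)` (`low_SP`, `low_BN`, bounded by `W M' M` by `BN_mul`) and `W M' M`, `W M' M (W M) ^ l.length = M' (W M) ^ (l.length + 1) ≤ B`. Second part: `t2` with
`F = highT T (S * g)` (bounded by `W M' M ≤ M' (W M) ^ (l.length + 1) ≤ B`, support `high_supp`) and `G = l.prod` (`BN_list`, `(W M) ^ l.length ≤ B`): at most `E`. -/
theorem greedy (X k : ℕ) (f : ℕ → ℤ → ℂ) (hf : ∀ j, j < k → Bdd X (f j)) (T Y B E W M : ℝ) (hT : 1 ≤ T) (hM : 1 ≤ M)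
    (hW : TW (2 * k * X) W)
    (t2 : ∀ F G, BN (2 * k * X) B F → BN (2 * k * X) B G →
      (∀ n : ℕ, 1 ≤ n → n ≤ 2 * k * X → F n ≠ 0 → T < n ∧ (n : ℝ) ≤ T * Y) → ‖LF X k f (F * G)‖ ≤ E) :
    ∀ (l : List (ArithmeticFunction ℝ)) (S : ArithmeticFunction ℝ) (M' : ℝ), 1 ≤ M' →
      (∀ g ∈ l, BN (2 * k * X) M g ∧ SP (2 * k * X) Y g) → BN (2 * k * X) M' S → SP (2 * k * X) T S →
      M' * (W * M) ^ l.length ≤ B → ‖LF X k f (S * l.prod)‖ ≤ l.length * E + T * B * (4 * X) := by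
  have hW1 : 1 ≤ W := hW.1
  have hWM : 1 ≤ W * M := by nlinarith
  intro l
  induction l with
  | nil =>
    intro S M' hM' _ hS hSP hB
    simp only [List.prod_nil, mul_one, List.length_nil, Nat.cast_zero, zero_mul, zero_add, pow_zero] at *
    exact LF_triv X k f hf S T B (by linarith) (BN.mono hS hB) (by linarith) hSP
  | cons g l ih =>
    intro S M' hM' hl hS hSP hB
    have hg := hl g (List.mem_cons_self)
    have hl' : ∀ g' ∈ l, BN (2 * k * X) M g' ∧ SP (2 * k * X) Y g' := fun g' hg' => hl g' (List.mem_cons_of_mem _ hg')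
    have hpos : 1 ≤ (W * M) ^ l.length := one_le_pow₀ hWM
    have hSg : BN (2 * k * X) (W * M' * M) (S * g) := BN_mul hW hS hg.1 (by linarith) (by linarith)
    have hWMM : 1 ≤ W * M' * M := by
      have h1 : 1 ≤ W * M' := by nlinarith
      nlinarith
    have hlen : M' * (W * M) ^ (l.length + 1) = W * M' * M * (W * M) ^ l.length := by
      rw [pow_succ]; ring
    rw [List.length_cons, hlen] at hB
    have e1 : S * (g :: l).prod = lowT T (S * g) * l.prod + highT T (S * g) * l.prod := by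
      rw [List.prod_cons, ← add_mul, low_add_high, mul_assoc]
    rw [e1, LF_add]
    have hlow := ih (lowT T (S * g)) (W * M' * M) hWMM hl' (low_BN hSg (by linarith)).1 (low_SP _ _ _) hB
    have hB2 : W * M' * M ≤ B := by
      refine le_trans ?_ hB
      exact le_mul_of_one_le_right (by linarith) hpos
    have hB3 : (W * M) ^ l.length ≤ B := by
      refine le_trans ?_ hB
      exact le_mul_of_one_le_left (by linarith) hWMM
    have hhigh : ‖LF X k f (highT T (S * g) * l.prod)‖ ≤ E := by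
      refine t2 _ _ (BN.mono (low_BN hSg (by linarith)).2 hB2) (BN.mono (BN_list hW hM l fun g' hg' => (hl' g' hg').1) hB3) ?_
      exact high_supp (by linarith) hSP hg.2
    have hlc : (((g :: l).length : ℕ) : ℝ) = l.length + 1 := by simp
    rw [hlc]
    calc ‖LF X k f (lowT T (S * g) * l.prod) + LF X k f (highT T (S * g) * l.prod)‖
        ≤ ‖LF X k f (lowT T (S * g) * l.prod)‖ + ‖LF X k f (highT T (S * g) * l.prod)‖ := norm_add_le _ _
      _ ≤ (l.length * E + T * B * (4 * X)) + E := add_le_add hlow hhigh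
      _ = (l.length + 1) * E + T * B * (4 * X) := by ring

end Pool.Agent.HUK
end

-- from Lib.HUK.BH5
section

/-!
# HUK, chunk BH5 (M): one term of Heath-Brown's identity
-/

open Finset

namespace Pool.Agent.HUK

open Pool.Agent.Lib.H81A (af muV one1 logf)

/-- The general list product. -/
theorem bh5_list {N : ℕ} {W M B : ℝ} (A D z : ℕ) (hW : TW N W) (hM : 1 ≤ M) (hmu : BN N M (muV z)) (hs : BN N M (fS A D))
    (ho : BN N M one1) (a b c : ℕ) (t : List (ArithmeticFunction ℝ)) (ht : ∀ g ∈ t, BN N M g) (K : ℕ)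
    (hK : a + b + c + t.length ≤ K) (hB : (W * M) ^ K ≤ B) :
    BN N B (muV z ^ a * fS A D ^ b * one1 ^ c * t.prod) := by
  have hW1 : 1 ≤ W := hW.1
  have hWM : 1 ≤ W * M := by nlinarith
  have h1 : muV z ^ a * fS A D ^ b * one1 ^ c * t.prod =
      (List.replicate a (muV z) ++ List.replicate b (fS A D) ++ List.replicate c one1 ++ t).prod := by
    simp [List.prod_append, List.prod_replicate, mul_assoc]
  have h2 : ∀ g ∈ (List.replicate a (muV z) ++ List.replicate b (fS A D) ++ List.replicate c one1 ++ t), BN N M g := by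
    intro g hg
    simp only [List.mem_append, List.mem_replicate] at hg
    rcases hg with ((⟨_, rfl⟩ | ⟨_, rfl⟩) | ⟨_, rfl⟩) | hg
    · exact hmu
    · exact hs
    · exact ho
    · exact ht g hg
  have h3 := BN_list hW hM _ h2
  rw [h1]
  refine BN.mono h3 (le_trans ?_ hB)
  refine pow_le_pow_right₀ hWM ?_
  simp only [List.length_append, List.length_replicate]
  exact hK

/-- Proof. `bh_alg` with `m = muV z ^ (j + 1)`, `s = fS A D`, `o = one1`, `u = fU A`, `v = fV A D`, `e = fE A D`, `L = logf`, `sl = fSL A D`, `ul = fUL A`,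
`vl = fVL A D`, `el = fEL A D` (`one_split`, `log_split`), then `LF_add`, `LF_sum`, `norm_add_le`, `norm_sum_le`. Terms:
(1) `muV z ^ (j + 1) * fS ^ j * fSL = 1 * l.prod`, `l = List.replicate (j + 1) (muV z) ++ List.replicate j (fS A D) ++ [fSL A D]`, length `2 j + 2`: `greedy` with `S = 1`, `M' = 1`
(`1 n ≠ 0` only for `n = 1 ≤ T`), at most `(2 j + 2) E + T B (4 X)`. (2) `fUL * G`, `fU * G`, `G * fEL`: `Hyp` with `G` a product of `2 j + 2` resp. `2 j + 1` factors bounded by `M`, so by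
`(W M) ^ (2 j + 2) ≤ B` (`BN_mul`, `BN_pow`: a product of `n` factors is bounded by `(W M) ^ n`; or write it as a list product, `BN_list`), at most `E` each. (3) for `i < j`:
`u * G` with `G` a product of `(j + 1) + i + (j - 1 - i) + 2 = 2 j + 2` factors, `G * e` with `2 j + 1` factors: at most `2 E`. Sum: `(2 j + 2 + 3 + 2 j) E + T B (4 X)`. `E ≥ 0`
(`Hyp.u` for `G = 0`, `B ≥ 0`). -/
theorem hb_term (X k : ℕ) (f : ℕ → ℤ → ℂ) (hf : ∀ j, j < k → Bdd X (f j)) (A D z J j : ℕ) (hj : j < J) (T Y B E W M : ℝ)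
    (hT : 1 ≤ T) (hyp : Hyp X k f A D T Y B E) (hz : Siz (2 * k * X) A D z Y M W) (hB : (W * M) ^ (2 * J + 2) ≤ B) :
    ‖LF X k f (muV z ^ (j + 1) * one1 ^ j * logf)‖ ≤ (4 * J + 5) * E + T * B * (4 * X) := by
  have hM := hz.M1
  have hW := hz.tw
  have hW1 : 1 ≤ W := hW.1
  have hWM : 1 ≤ W * M := by nlinarith
  have hB1 : 1 ≤ B := le_trans (one_le_pow₀ hWM) hB
  have hX0 : (0 : ℝ) ≤ X := Nat.cast_nonneg X
  have hE : 0 ≤ E := by
    refine le_trans (norm_nonneg _) (hyp.u 0 ?_)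
    intro n _ _
    simpa using (by linarith : (0 : ℝ) ≤ B)
  have hlist := fun (a b c : ℕ) (t : List (ArithmeticFunction ℝ)) (ht : ∀ g ∈ t, BN (2 * k * X) M g)
    (hK : a + b + c + t.length ≤ 2 * J + 2) =>
    bh5_list A D z hW hM hz.mu.1 hz.s.1 hz.one a b c t ht (2 * J + 2) hK hB
  have halg := bh_alg (muV z ^ (j + 1)) (fS A D) one1 (fU A) (fV A D) (fE A D) logf (fSL A D) (fUL A) (fVL A D) (fEL A D) j
    (one_split A D hz.S) (log_split A D hz.S)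
  have t1 : ‖LF X k f (muV z ^ (j + 1) * fS A D ^ j * fSL A D)‖ ≤ (2 * j + 2) * E + T * B * (4 * X) := by
    have h1 : muV z ^ (j + 1) * fS A D ^ j * fSL A D =
        1 * (List.replicate (j + 1) (muV z) ++ List.replicate j (fS A D) ++ [fSL A D]).prod := by
      simp [List.prod_append, List.prod_replicate, mul_assoc]
    have h2 := greedy X k f hf T Y B E W M hT hM hW hyp.t2
      (List.replicate (j + 1) (muV z) ++ List.replicate j (fS A D) ++ [fSL A D]) 1 1 le_rfl ?_ ?_ ?_ ?_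
    · rw [h1]
      refine le_trans h2 (le_of_eq ?_)
      simp only [List.length_append, List.length_replicate, List.length_cons, List.length_nil]
      push_cast
      ring
    · intro g hg
      simp only [List.mem_append, List.mem_replicate, List.mem_singleton] at hg
      rcases hg with (⟨_, rfl⟩ | ⟨_, rfl⟩) | rfl
      · exact hz.mu
      · exact hz.s
      · exact hz.sl
    · intro n hn _
      rw [ArithmeticFunction.one_apply]
      split_ifs <;> simp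
    · intro n hn _ hne
      rw [ArithmeticFunction.one_apply] at hne
      by_cases h : n = 1
      · rw [h]
        simpa using hT
      · rw [if_neg h] at hne
        exact absurd rfl hne
    · rw [one_mul]
      refine le_trans (pow_le_pow_right₀ hWM ?_) hB
      simp only [List.length_append, List.length_replicate, List.length_cons, List.length_nil]
      omega
  have t2 : ‖LF X k f (fUL A * (muV z ^ (j + 1) * fS A D ^ j * fV A D))‖ ≤ E := by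
    refine hyp.ul _ ?_
    have h := hlist (j + 1) j 0 [fV A D] (by simpa using hz.v) (by simp only [List.length_cons, List.length_nil]; omega)
    simpa using h
  have t3 : ‖LF X k f (fU A * (muV z ^ (j + 1) * fS A D ^ j * fVL A D))‖ ≤ E := by
    refine hyp.u _ ?_
    have h := hlist (j + 1) j 0 [fVL A D] (by simpa using hz.vl) (by simp only [List.length_cons, List.length_nil]; omega)
    simpa using h
  have t4 : ‖LF X k f (muV z ^ (j + 1) * fS A D ^ j * fEL A D)‖ ≤ E := by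
    refine hyp.el _ ?_
    have h := hlist (j + 1) j 0 [] (by simp) (by simp only [List.length_nil]; omega)
    simpa using h
  have t5 : ∀ i ∈ range j, ‖LF X k f (fU A * (muV z ^ (j + 1) * fS A D ^ i * one1 ^ (j - 1 - i) * logf * fV A D) +
      muV z ^ (j + 1) * fS A D ^ i * one1 ^ (j - 1 - i) * logf * fE A D)‖ ≤ 2 * E := by
    intro i hi
    have hi' := Finset.mem_range.1 hi
    rw [LF_add]
    have h5 : ‖LF X k f (fU A * (muV z ^ (j + 1) * fS A D ^ i * one1 ^ (j - 1 - i) * logf * fV A D))‖ ≤ E := by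
      refine hyp.u _ ?_
      have h := hlist (j + 1) i (j - 1 - i) [logf, fV A D] (by
        intro g hg
        simp only [List.mem_cons, List.not_mem_nil, or_false] at hg
        rcases hg with rfl | rfl
        · exact hz.log
        · exact hz.v) (by simp only [List.length_cons, List.length_nil]; omega)
      have e : muV z ^ (j + 1) * fS A D ^ i * one1 ^ (j - 1 - i) * [logf, fV A D].prod =
          muV z ^ (j + 1) * fS A D ^ i * one1 ^ (j - 1 - i) * logf * fV A D := by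
        simp only [List.prod_cons, List.prod_nil, mul_one, mul_assoc]
      rwa [e] at h
    have h6 : ‖LF X k f (muV z ^ (j + 1) * fS A D ^ i * one1 ^ (j - 1 - i) * logf * fE A D)‖ ≤ E := by
      refine hyp.e _ ?_
      have h := hlist (j + 1) i (j - 1 - i) [logf] (by
        intro g hg
        simp only [List.mem_cons, List.not_mem_nil, or_false] at hg
        rw [hg]
        exact hz.log) (by simp only [List.length_cons, List.length_nil]; omega)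
      have e : muV z ^ (j + 1) * fS A D ^ i * one1 ^ (j - 1 - i) * [logf].prod =
          muV z ^ (j + 1) * fS A D ^ i * one1 ^ (j - 1 - i) * logf := by
        simp only [List.prod_cons, List.prod_nil, mul_one]
      rwa [e] at h
    calc _ ≤ ‖LF X k f (fU A * (muV z ^ (j + 1) * fS A D ^ i * one1 ^ (j - 1 - i) * logf * fV A D))‖ +
          ‖LF X k f (muV z ^ (j + 1) * fS A D ^ i * one1 ^ (j - 1 - i) * logf * fE A D)‖ := norm_add_le _ _
      _ ≤ 2 * E := by linarith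
  have t6 : ‖LF X k f (∑ i ∈ range j, (fU A * (muV z ^ (j + 1) * fS A D ^ i * one1 ^ (j - 1 - i) * logf * fV A D) +
      muV z ^ (j + 1) * fS A D ^ i * one1 ^ (j - 1 - i) * logf * fE A D))‖ ≤ j * (2 * E) := by
    rw [LF_sum]
    refine le_trans (norm_sum_le _ _) ?_
    refine le_trans (Finset.sum_le_sum t5) ?_
    rw [Finset.sum_const, Finset.card_range, nsmul_eq_mul]
  rw [halg, LF_add, LF_add, LF_add, LF_add]
  have hjJ : (j : ℝ) ≤ J := by exact_mod_cast hj.le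
  calc _ ≤ ‖LF X k f (muV z ^ (j + 1) * fS A D ^ j * fSL A D)‖ +
        ‖LF X k f (fUL A * (muV z ^ (j + 1) * fS A D ^ j * fV A D))‖ +
        ‖LF X k f (fU A * (muV z ^ (j + 1) * fS A D ^ j * fVL A D))‖ +
        ‖LF X k f (muV z ^ (j + 1) * fS A D ^ j * fEL A D)‖ +
        ‖LF X k f (∑ i ∈ range j, (fU A * (muV z ^ (j + 1) * fS A D ^ i * one1 ^ (j - 1 - i) * logf * fV A D) +
          muV z ^ (j + 1) * fS A D ^ i * one1 ^ (j - 1 - i) * logf * fE A D))‖ := by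
          refine le_trans (norm_add_le _ _) (add_le_add_left ?_ _)
          refine le_trans (norm_add_le _ _) (add_le_add_left ?_ _)
          refine le_trans (norm_add_le _ _) (add_le_add_left ?_ _)
          exact norm_add_le _ _
    _ ≤ (2 * j + 2) * E + T * B * (4 * X) + E + E + E + j * (2 * E) := by linarith
    _ = (4 * j + 5) * E + T * B * (4 * X) := by ring
    _ ≤ (4 * J + 5) * E + T * B * (4 * X) := by nlinarith

end Pool.Agent.HUK
end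

-- from Lib.HUK.BH9
section

/-!
# HUK, chunk BH9 (M): assembly of module B
-/

open Finset

namespace Pool.Agent.HUK

open Pool.Agent.Lib.H81A (af muV one1 logf)

/-- Proof. `hb_identity` (`H81A/HB.lean`) for `m ≤ 2kX < (z+1)^J`, `LF_sum`; a real constant `c` times an arithmetic function: the functional is linear (work with the sums:
`LF X k f vonMangoldt = ∑ j ∈ range J, (-1)^j (J choose (j+1)) LF X k f (muV z ^ (j+1) * one1 ^ j * logf)` by exchanging the two sums in the definition of `LF`), and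
`∑_{j<J} (J choose (j+1)) ≤ 2^J`. (The hypothesis `0 < J` is added: for `J = 0` there is no condition on `R`.) -/
theorem bh_vM (X k : ℕ) (f : ℕ → ℤ → ℂ) (z J : ℕ) (hJ : 0 < J) (hz : 2 * k * X < (z + 1) ^ J) (R : ℝ)
    (hR : ∀ j, j < J → ‖LF X k f (muV z ^ (j + 1) * one1 ^ j * logf)‖ ≤ R) :
    ‖LF X k f ArithmeticFunction.vonMangoldt‖ ≤ 2 ^ J * R := by
  have hR0 : 0 ≤ R := (norm_nonneg _).trans (hR 0 hJ)
  have h1 : LF X k f ArithmeticFunction.vonMangoldt = ∑ j ∈ range J, (((-1 : ℝ) ^ j * (J.choose (j + 1) : ℝ) : ℝ) : ℂ) *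
      LF X k f (muV z ^ (j + 1) * one1 ^ j * logf) := by
    unfold LF
    simp only [Finset.mul_sum]
    rw [Finset.sum_comm]
    refine Finset.sum_congr rfl fun n hn => ?_
    have hn2 := (Finset.mem_Icc.1 hn).2
    rw [Pool.Agent.Lib.H81A.hb_identity z J n (lt_of_le_of_lt hn2 hz)]
    push_cast
    rw [Finset.sum_mul]
    refine Finset.sum_congr rfl fun j _ => ?_
    ring
  rw [h1]
  refine (norm_sum_le _ _).trans ?_
  have h2 : ∀ j ∈ range J, ‖(((-1 : ℝ) ^ j * (J.choose (j + 1) : ℝ) : ℝ) : ℂ) * LF X k f (muV z ^ (j + 1) * one1 ^ j * logf)‖ ≤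
      (J.choose (j + 1) : ℝ) * R := by
    intro j hj
    rw [norm_mul, Complex.norm_real, Real.norm_eq_abs, abs_mul, abs_pow, abs_neg, abs_one, one_pow, one_mul, Nat.abs_cast]
    exact mul_le_mul_of_nonneg_left (hR j (Finset.mem_range.1 hj)) (Nat.cast_nonneg _)
  refine (Finset.sum_le_sum h2).trans ?_
  rw [← Finset.sum_mul]
  refine mul_le_mul_of_nonneg_right ?_ hR0
  have h3 : ∑ j ∈ range (J + 1), J.choose j = 2 ^ J := Nat.sum_range_choose J
  rw [Finset.sum_range_succ'] at h3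
  have h4 : ∑ j ∈ range J, J.choose (j + 1) ≤ 2 ^ J := by omega
  calc ∑ j ∈ range J, (J.choose (j + 1) : ℝ) = ((∑ j ∈ range J, J.choose (j + 1) : ℕ) : ℝ) := by push_cast; rfl
    _ ≤ ((2 ^ J : ℕ) : ℝ) := by exact_mod_cast h4
    _ = 2 ^ J := by push_cast; rfl

theorem bh9_large (C e : ℝ) (he : 0 < e) : ∃ X0 : ℕ, ∀ X : ℕ, X0 ≤ X → C ≤ (X : ℝ) ^ e := by
  have h1 : Filter.Tendsto (fun X : ℕ => ((X : ℝ)) ^ e) Filter.atTop Filter.atTop :=
    (tendsto_rpow_atTop he).comp tendsto_natCast_atTop_atTop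
  obtain ⟨X0, h2⟩ := Filter.eventually_atTop.1 (h1.eventually_ge_atTop C)
  exact ⟨X0, fun X hX => h2 X hX⟩

/-- **Module B.** Proof. `σ = cs k > 0`, `θ = σ / 8`, `J = ⌈2 / θ⌉₊`, `T = X^(σ/4)`, `Y = X^(2θ) = X^(σ/4)`, `τ = θ / 2^(k+3) < σ`. `t2_LF` with lower exponents `τ / 2` and `σ / 4` (and `κ`), `eta_LF` with `θ, τ`: let `κ0` be the minimum of the three
exponents of the conclusions and `1 / 4`, `ε0` the minimum of the three `ε` and `1`, `δ = ε0 / (4 J + 8)`, `B = X^ε0`, `M = W = X^δ` (so `(W M)^(2J+2) = X^(2 δ (2J+2)) ≤ B`), `E = X^(2 - κ0)`. For large `X`: `bh_siz`, `bh_u`, `bh_J` give `Siz`, and `Hyp` (`u`, `ul`, `t2`: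
`t2_LF`, for `t2` the support `T < n ≤ T Y = X^(σ/2) ≤ X^σ`; `e`, `el`: `eta_LF`; `BN.mono` from `B` to the power `X^ε` of each input). `hb_term`, `bh_vM`: `|LF Λ| ≤ 2^J ((4J+5) X^(2-κ0) + 4 X^(1 + σ/4 + ε0))`, and `σ/4 + ε0 ≤ 1/2` if `ε0 ≤ 1/4` (take it so);
with `bh_lp` everything is at most `X^(2 - κ0/2)` for large `X`. -/
theorem tlp_of_tii (k : ℕ) (hk : 3 ≤ k) (h : TII k) : TLP k := by
  intro κ hκ
  obtain ⟨σ, hσ⟩ : ∃ σ : ℝ, σ = cs k := ⟨_, rfl⟩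
  have hσ0 : 0 < σ := by
    rw [hσ]
    exact pow_pos (by norm_num) _
  have hσ1 : σ ≤ 1 := by
    rw [hσ]
    exact pow_le_one₀ (by norm_num) (by norm_num)
  obtain ⟨θ, hθ⟩ : ∃ θ : ℝ, θ = σ / 8 := ⟨_, rfl⟩
  have hθ0 : 0 < θ := by rw [hθ]; positivity
  have hθ1 : θ ≤ 1 := by rw [hθ]; linarith
  obtain ⟨τ, hτ⟩ : ∃ τ : ℝ, τ = θ / 2 ^ (k + 3) := ⟨_, rfl⟩
  have hp : (1 : ℝ) ≤ 2 ^ (k + 3) := one_le_pow₀ (by norm_num)
  have hp0 : (0 : ℝ) < 2 ^ (k + 3) := by positivity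
  have hτ0 : 0 < τ := by rw [hτ]; positivity
  have hτθ : τ ≤ θ := by rw [hτ]; exact div_le_self hθ0.le hp
  have hτσ : τ < σ := by
    have : θ < σ := by rw [hθ]; linarith
    linarith
  have hθτ : 2 ^ (k + 3) * τ ≤ θ := by
    rw [hτ, mul_div_cancel₀ _ hp0.ne']
  obtain ⟨J, hJ⟩ : ∃ J : ℕ, J = ⌈2 / θ⌉₊ := ⟨_, rfl⟩
  have hJ2 : 2 ≤ θ * J := by
    have h1 : 2 / θ ≤ J := by rw [hJ]; exact Nat.le_ceil _
    rw [div_le_iff₀ hθ0] at h1
    linarith
  have hJ0 : 0 < J := by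
    rw [hJ]
    exact Nat.ceil_pos.2 (by positivity)
  obtain ⟨κ1, ε1, hκ1, hε1, X1, H1⟩ := t2_LF k hk h (τ / 2) κ (by positivity) hκ
  obtain ⟨κ2, ε2, hκ2, hε2, X2, H2⟩ := t2_LF k hk h (σ / 4) κ (by positivity) hκ
  obtain ⟨κ3, ε3, hκ3, hε3, X3, H3⟩ := eta_LF k hk θ τ hτ0 hθτ hθ1
  obtain ⟨κ0, hκ0⟩ : ∃ κ0 : ℝ, κ0 = min (min κ1 κ2) (min κ3 (1 / 4)) := ⟨_, rfl⟩
  obtain ⟨ε0, hε0⟩ : ∃ ε0 : ℝ, ε0 = min (min ε1 ε2) (min ε3 (1 / 4)) := ⟨_, rfl⟩
  have kp : 0 < κ0 := by rw [hκ0]; exact lt_min (lt_min hκ1 hκ2) (lt_min hκ3 (by norm_num))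
  have ep : 0 < ε0 := by rw [hε0]; exact lt_min (lt_min hε1 hε2) (lt_min hε3 (by norm_num))
  have k1 : κ0 ≤ κ1 := by rw [hκ0]; exact (min_le_left _ _).trans (min_le_left _ _)
  have k2 : κ0 ≤ κ2 := by rw [hκ0]; exact (min_le_left _ _).trans (min_le_right _ _)
  have k3 : κ0 ≤ κ3 := by rw [hκ0]; exact (min_le_right _ _).trans (min_le_left _ _)
  have k4 : κ0 ≤ 1 / 4 := by rw [hκ0]; exact (min_le_right _ _).trans (min_le_right _ _)
  have e1 : ε0 ≤ ε1 := by rw [hε0]; exact (min_le_left _ _).trans (min_le_left _ _)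
  have e2 : ε0 ≤ ε2 := by rw [hε0]; exact (min_le_left _ _).trans (min_le_right _ _)
  have e3 : ε0 ≤ ε3 := by rw [hε0]; exact (min_le_right _ _).trans (min_le_left _ _)
  have e4 : ε0 ≤ 1 / 4 := by rw [hε0]; exact (min_le_right _ _).trans (min_le_right _ _)
  obtain ⟨δ, hδ⟩ : ∃ δ : ℝ, δ = ε0 / (4 * J + 8) := ⟨_, rfl⟩
  have hJp : (0 : ℝ) < 4 * J + 8 := by positivity
  have hδ0 : 0 < δ := by rw [hδ]; positivity
  have hδe : δ ≤ ε0 := by
    rw [hδ]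
    refine div_le_self ep.le ?_
    have : (0 : ℝ) ≤ J := Nat.cast_nonneg _
    linarith
  have hδm : 2 * δ * ((2 * J + 2 : ℕ) : ℝ) ≤ ε0 := by
    rw [hδ]
    push_cast
    rw [show 2 * (ε0 / (4 * (J : ℝ) + 8)) * (2 * J + 2) = ε0 * ((4 * J + 4) / (4 * J + 8)) by ring]
    refine mul_le_of_le_one_right ep.le ?_
    rw [div_le_one hJp]
    linarith
  obtain ⟨X4, H4⟩ := bh_siz k (by omega) δ θ τ hδ0 hθ0 hτ0
  obtain ⟨X5, H5⟩ := bh_u k (by omega) δ τ σ hδ0 hτ0 hτσ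
  obtain ⟨X6, H6⟩ := bh_J k J θ hθ0 hJ2
  obtain ⟨X7, H7⟩ := bh_lp k (by omega)
  obtain ⟨X8, H8⟩ := bh9_large (1 + 2 ^ J * ((4 * J + 5) + 4)) (κ0 / 2) (by positivity)
  refine ⟨κ0 / 2, by positivity, X1 + X2 + X3 + X4 + X5 + X6 + X7 + X8 + 1, fun X hX f hf hG => ?_⟩
  have hX1 : (1 : ℝ) ≤ X := by
    have : 1 ≤ X := by omega
    exact_mod_cast this
  have hXp : (0 : ℝ) < X := by linarith
  have mono : ∀ a b : ℝ, a ≤ b → (X : ℝ) ^ a ≤ (X : ℝ) ^ b := fun a b hab => Real.rpow_le_rpow_of_exponent_le hX1 hab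
  have G1 := H1 X (by omega) f hf hG
  have G2 := H2 X (by omega) f hf hG
  have G3 := H3 X (by omega) f hf
  have G4 := H4 X (by omega)
  obtain ⟨⟨u1, u2⟩, u3⟩ := H5 X (by omega)
  have G6 := H6 X (by omega)
  have G7 := H7 X (by omega) f hf
  have G8 := H8 X (by omega)
  rw [← hσ] at G1 G2
  have hyp : Hyp X k f ⌊(X : ℝ) ^ τ⌋₊ ⌊(X : ℝ) ^ θ⌋₊ ((X : ℝ) ^ (σ / 4)) ((X : ℝ) ^ (2 * θ)) ((X : ℝ) ^ ε0) ((X : ℝ) ^ (2 - κ0)) := by
    refine ⟨fun G hB => ?_, fun G hB => ?_, fun G hB => ?_, fun G hB => ?_, fun F G hF hB hs => ?_⟩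
    · exact (G1 _ G (u1.mono (mono _ _ (hδe.trans e1))) (hB.mono (mono _ _ e1)) fun n n1 n2 n3 => u3 n n1 n2 (Or.inl n3)).trans
        (mono _ _ (by linarith))
    · exact (G1 _ G (u2.mono (mono _ _ (hδe.trans e1))) (hB.mono (mono _ _ e1)) fun n n1 n2 n3 => u3 n n1 n2 (Or.inr n3)).trans
        (mono _ _ (by linarith))
    · exact ((G3 G (hB.mono (mono _ _ e3))).1).trans (mono _ _ (by linarith))
    · exact ((G3 G (hB.mono (mono _ _ e3))).2).trans (mono _ _ (by linarith))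
    · refine (G2 F G (hF.mono (mono _ _ e2)) (hB.mono (mono _ _ e2)) fun n n1 n2 n3 => ?_).trans (mono _ _ (by linarith))
      obtain ⟨s1, s2⟩ := hs n n1 n2 n3
      refine ⟨s1.le, s2.trans ?_⟩
      rw [← Real.rpow_add hXp]
      exact mono _ _ (by rw [hθ]; linarith)
  have hB : ((X : ℝ) ^ δ * (X : ℝ) ^ δ) ^ (2 * J + 2) ≤ (X : ℝ) ^ ε0 := by
    rw [← Real.rpow_add hXp, ← Real.rpow_natCast, ← Real.rpow_mul hXp.le]
    exact mono _ _ (by
      have : (δ + δ) * ((2 * J + 2 : ℕ) : ℝ) = 2 * δ * ((2 * J + 2 : ℕ) : ℝ) := by ring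
      rw [this]
      exact hδm)
  have hT : 1 ≤ (X : ℝ) ^ (σ / 4) := Real.one_le_rpow hX1 (by positivity)
  have K1 := bh_vM X k f ⌊(X : ℝ) ^ θ⌋₊ J hJ0 G6 _ fun j hj =>
    hb_term X k f hf ⌊(X : ℝ) ^ τ⌋₊ ⌊(X : ℝ) ^ θ⌋₊ ⌊(X : ℝ) ^ θ⌋₊ J j hj _ _ _ _ _ _ hT hyp G4 hB
  have K2 : ‖∑ n ∈ Icc 1 (2 * k * X), ((Pool.Agent.Lib.H68T.lp n : ℝ) : ℂ) * Psi X k f n‖ ≤
      (X : ℝ) ^ (7 / 4 : ℝ) + 2 ^ J * ((4 * J + 5) * (X : ℝ) ^ (2 - κ0) + (X : ℝ) ^ (σ / 4) * (X : ℝ) ^ ε0 * (4 * X)) := by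
    have t1 : (∑ n ∈ Icc 1 (2 * k * X), ((Pool.Agent.Lib.H68T.lp n : ℝ) : ℂ) * Psi X k f n) =
        ((∑ n ∈ Icc 1 (2 * k * X), ((Pool.Agent.Lib.H68T.lp n : ℝ) : ℂ) * Psi X k f n) - LF X k f ArithmeticFunction.vonMangoldt) +
          LF X k f ArithmeticFunction.vonMangoldt := by ring
    rw [t1]
    exact (norm_add_le _ _).trans (add_le_add G7 K1)
  refine K2.trans ?_
  have P1 : (X : ℝ) ^ (7 / 4 : ℝ) ≤ (X : ℝ) ^ (2 - κ0) := mono _ _ (by linarith)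
  have P2 : (X : ℝ) ^ (σ / 4) * (X : ℝ) ^ ε0 * (4 * X) ≤ 4 * (X : ℝ) ^ (2 - κ0) := by
    have t2 : (X : ℝ) ^ (σ / 4) * (X : ℝ) ^ ε0 * (4 * X) = 4 * (X : ℝ) ^ (σ / 4 + ε0 + 1) := by
      rw [Real.rpow_add hXp, Real.rpow_add hXp, Real.rpow_one]
      ring
    rw [t2]
    exact mul_le_mul_of_nonneg_left (mono _ _ (by linarith)) (by norm_num)
  have P3 : (1 + 2 ^ J * ((4 * (J : ℝ) + 5) + 4)) * (X : ℝ) ^ (2 - κ0) ≤ (X : ℝ) ^ (2 - κ0 / 2) := by
    have t3 : (X : ℝ) ^ (2 - κ0 / 2) = (X : ℝ) ^ (κ0 / 2) * (X : ℝ) ^ (2 - κ0) := by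
      rw [← Real.rpow_add hXp]
      congr 1
      ring
    rw [t3]
    exact mul_le_mul_of_nonneg_right G8 (Real.rpow_nonneg hXp.le _)
  refine le_trans ?_ P3
  have hJJ : (0 : ℝ) ≤ 2 ^ J := by positivity
  have P4 := mul_le_mul_of_nonneg_left P2 hJJ
  nlinarith

end Pool.Agent.HUK
end

-- from Lib.H9U.T1
section

/-!
# H9U, chunk T1 (M): the local factors of the singular series, lower bound
-/

open Finset

namespace Pool.Agent.H9U

open Pool.Agent.Lib.H59P (Ch cj uu gl pr SF)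

variable {k d : ℕ} (S : Sys k d) (b : Fin k → ℤ) (t : Fin d → ℤ)

/-- The number of classes `n` modulo `l` with `l ∣ val n i` for some `i`. -/
noncomputable def nuS (l : ℕ) : ℕ := by
  classical exact ((range l).filter (fun n : ℕ => ∃ i, (l : ℤ) ∣ S.val b n t i)).card

theorem t1_gl (l : ℕ) (hl : l.Prime) (m : ℤ) :
    1 + gl l m = if (l : ℤ) ∣ m then 0 else (l : ℝ) / ((l : ℝ) - 1) := by
  have h1 : (1 : ℝ) < l := by exact_mod_cast hl.one_lt
  have h2 : (l : ℝ) - 1 ≠ 0 := by linarith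
  rw [gl]
  by_cases h : (l : ℤ) ∣ m
  · rw [if_pos h, if_pos h]
    norm_num
  · rw [if_neg h, if_neg h]
    field_simp
    ring

theorem t1_prod (l : ℕ) (hl : l.Prime) (n : ℕ) [Decidable (∃ i, (l : ℤ) ∣ S.val b n t i)] :
    ∏ i, (1 + gl l (S.val b n t i)) =
      if ∃ i, (l : ℤ) ∣ S.val b n t i then 0 else ((l : ℝ) / ((l : ℝ) - 1)) ^ k := by
  rw [Finset.prod_congr rfl fun i _ => t1_gl l hl (S.val b n t i)]
  split_ifs with hex
  · obtain ⟨i, hi⟩ := hex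
    exact Finset.prod_eq_zero (Finset.mem_univ i) (if_pos hi)
  · have h2 : ∀ i ∈ (univ : Finset (Fin k)), (if (l : ℤ) ∣ S.val b n t i then 0 else (l : ℝ) / ((l : ℝ) - 1)) =
        (l : ℝ) / ((l : ℝ) - 1) := fun i _ => if_neg fun hd => hex ⟨i, hd⟩
    rw [Finset.prod_congr rfl h2, Finset.prod_const, Finset.card_univ, Fintype.card_fin]

theorem t1_nuS (l : ℕ) [DecidablePred fun n : ℕ => ∃ i, (l : ℤ) ∣ S.val b n t i] :
    nuS S b t l = ((range l).filter (fun n : ℕ => ∃ i, (l : ℤ) ∣ S.val b n t i)).card := by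
  unfold nuS
  congr

/-- Proof. As `T0_tp` (`H59P/T0.lean`): `∏_i (1 + gl l (val i))` is `0` if `l` divides some value and `(l/(l-1))^k` else. -/
theorem T0S_tp (l : ℕ) (hl : l.Prime) :
    1 + tpS S b t l = (1 - (nuS S b t l : ℝ) / l) * ((l : ℝ) / ((l : ℝ) - 1)) ^ k := by
  classical
  have hl0 : (l : ℝ) ≠ 0 := by exact_mod_cast hl.ne_zero
  rw [tpS, Finset.sum_congr rfl fun n _ => t1_prod S b t l hl n, Finset.sum_ite, Finset.sum_const_zero,
    zero_add, Finset.sum_const, nsmul_eq_mul]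
  have h1 := Finset.card_filter_add_card_filter_not (s := range l) (fun n : ℕ => ∃ i, (l : ℤ) ∣ S.val b n t i)
  rw [card_range] at h1
  have h2 : ((nuS S b t l : ℕ) : ℝ) +
      ((((range l).filter (fun n : ℕ => ¬ ∃ i, (l : ℤ) ∣ S.val b n t i)).card : ℕ) : ℝ) = l := by
    rw [t1_nuS]
    exact_mod_cast h1
  rw [← eq_sub_iff_add_eq'] at h2
  rw [h2]
  field_simp
  ring

/-- Proof. For each `i` there is at most one class with `l ∣ a_i n + …` if `l ∤ a_i`; if `l ∣ a_i` the divisibility does not depend on `n`, so by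
admissibility it never holds. Hence at most `k` classes, and by admissibility not all (`n` may be replaced by its residue). -/
theorem T0S_nu (l : ℕ) (hl : l.Prime) (hA : S.Adm b t) : nuS S b t l ≤ k ∧ nuS S b t l < l := by
  classical
  obtain ⟨m, hm⟩ := hA l hl
  have hdiff : ∀ (n n' : ℤ) (i : Fin k), S.val b n t i - S.val b n' t i = S.a i * (n - n') := by
    intro n n' i
    simp only [Sys.val, Sys.lin]
    ring
  constructor
  · rw [t1_nuS]
    have h1 : (range l).filter (fun n : ℕ => ∃ i, (l : ℤ) ∣ S.val b n t i) ⊆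
        (univ : Finset (Fin k)).biUnion fun i => (range l).filter fun n : ℕ => (l : ℤ) ∣ S.val b n t i := by
      intro n hn
      obtain ⟨h2, i, hi⟩ := mem_filter.1 hn
      exact mem_biUnion.2 ⟨i, mem_univ i, mem_filter.2 ⟨h2, hi⟩⟩
    refine (card_le_card h1).trans (card_biUnion_le.trans ?_)
    have h3 : ∀ i ∈ (univ : Finset (Fin k)),
        ((range l).filter fun n : ℕ => (l : ℤ) ∣ S.val b n t i).card ≤ 1 := by
      intro i _
      refine card_le_one.2 fun n hn n' hn' => ?_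
      obtain ⟨hn1, hn2⟩ := mem_filter.1 hn
      obtain ⟨hn1', hn2'⟩ := mem_filter.1 hn'
      have h4 : (l : ℤ) ∣ S.a i * ((n : ℤ) - n') := by
        rw [← hdiff]
        exact dvd_sub hn2 hn2'
      have hlp : Prime (l : ℤ) := Nat.prime_iff_prime_int.1 hl
      rcases hlp.dvd_or_dvd h4 with h5 | h5
      · exfalso
        refine hm i ?_
        have h6 : (l : ℤ) ∣ S.val b m t i - S.val b n t i := by
          rw [hdiff]
          exact Dvd.dvd.mul_right h5 _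
        have h7 := dvd_add h6 hn2
        rwa [sub_add_cancel] at h7
      · have h6 : (n : ℤ) ≡ n' [ZMOD l] := by
          rw [Int.modEq_iff_dvd]
          have h7 := (dvd_neg (α := ℤ)).2 h5
          rwa [neg_sub] at h7
        have h7 : n ≡ n' [MOD l] := Int.natCast_modEq_iff.1 h6
        exact Nat.ModEq.eq_of_lt_of_lt h7 (mem_range.1 hn1) (mem_range.1 hn1')
    refine (Finset.sum_le_sum h3).trans ?_
    simp
  · rw [t1_nuS]
    have h1 : ((range l).filter (fun n : ℕ => ∃ i, (l : ℤ) ∣ S.val b n t i)).card < (range l).card := by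
      have hl0 : (0 : ℤ) < l := by exact_mod_cast hl.pos
      have hnn : 0 ≤ m % (l : ℤ) := Int.emod_nonneg _ hl0.ne'
      have hlt : m % (l : ℤ) < l := Int.emod_lt_of_pos _ hl0
      refine Finset.card_lt_card (Finset.filter_ssubset.2 ⟨(m % (l : ℤ)).toNat, mem_range.2 ?_, ?_⟩)
      · have h8 : (((m % (l : ℤ)).toNat : ℕ) : ℤ) < l := by
          rw [Int.toNat_of_nonneg hnn]
          exact hlt
        exact_mod_cast h8
      · rintro ⟨i, hi⟩
        refine hm i ?_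
        rw [Int.toNat_of_nonneg hnn] at hi
        have h2 : (l : ℤ) ∣ S.val b m t i - S.val b (m % (l : ℤ)) t i := by
          rw [hdiff]
          refine Dvd.dvd.mul_left ?_ _
          exact Int.dvd_self_sub_emod
        have h7 := dvd_add h2 hi
        rwa [sub_add_cancel] at h7
    rwa [card_range] at h1

theorem t1_small (hA : S.Adm b t) {l : ℕ} (hl : l.Prime) : ((l : ℝ))⁻¹ ≤ 1 + tpS S b t l := by
  have h1 : (1 : ℝ) < l := by exact_mod_cast hl.one_lt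
  have h2 : nuS S b t l + 1 ≤ l := (T0S_nu S b t l hl hA).2
  have h3 : (nuS S b t l : ℝ) + 1 ≤ l := by exact_mod_cast h2
  have h4 : ((l : ℝ))⁻¹ ≤ 1 - (nuS S b t l : ℝ) / l := by
    rw [inv_eq_one_div, div_le_iff₀ (by linarith), sub_mul, div_mul_cancel₀ _ (by linarith)]
    linarith
  rw [T0S_tp S b t l hl]
  calc ((l : ℝ))⁻¹ = (l : ℝ)⁻¹ * 1 := (mul_one _).symm
    _ ≤ (1 - (nuS S b t l : ℝ) / l) * ((l : ℝ) / ((l : ℝ) - 1)) ^ k :=
      mul_le_mul h4 (Lib.H59P.t1_B hl).1 zero_le_one (le_trans (by positivity) h4)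

theorem t1_large (hA : S.Adm b t) {l : ℕ} (hl : l.Prime) (hk : 2 * k < l) :
    Real.exp (-(2 * (k : ℝ) ^ 2 * ((l : ℝ) ^ 2)⁻¹)) ≤ 1 + tpS S b t l := by
  have h1 : (1 : ℝ) < l := by exact_mod_cast hl.one_lt
  have h0 : (0 : ℝ) < l := by linarith
  have h2 : (nuS S b t l : ℝ) ≤ k := by exact_mod_cast (T0S_nu S b t l hl hA).1
  have h3 : 2 * (k : ℝ) ≤ l := by exact_mod_cast hk.le
  have h4 : (k : ℝ) / l ≤ 1 / 2 := by
    rw [div_le_iff₀ h0]
    linarith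
  have h4' : 0 ≤ (k : ℝ) / l := by positivity
  have h5 : Real.exp (-(2 * ((k : ℝ) / l) ^ 2)) ≤ 1 - ((k : ℝ) / l) ^ 2 :=
    Lib.H59P.t1_exp (by positivity) (by nlinarith)
  have h6 : 2 * (k : ℝ) ^ 2 * ((l : ℝ) ^ 2)⁻¹ = 2 * ((k : ℝ) / l) ^ 2 := by
    rw [div_pow, div_eq_mul_inv, mul_assoc]
  rw [h6]
  refine h5.trans ?_
  rw [T0S_tp S b t l hl]
  have h7 : 1 - (k : ℝ) / l ≤ 1 - (nuS S b t l : ℝ) / l := by
    have := div_le_div_of_nonneg_right h2 h0.le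
    linarith
  calc 1 - ((k : ℝ) / l) ^ 2 = (1 - (k : ℝ) / l) * (1 + (k : ℝ) / l) := by ring
    _ ≤ (1 - (nuS S b t l : ℝ) / l) * ((l : ℝ) / ((l : ℝ) - 1)) ^ k :=
      mul_le_mul h7 (Lib.H59P.t1_B hl).2 (by linarith) (by linarith)

/-- Proof. As `T_lower` (`H59P/T1.lean`), which uses only `nu ≤ k`, `nu < l` and the formula `T0_tp`: for `l ≤ 2k` the factor is at least `1/l`, for
`l > 2k` at least `exp(-2 k²/l²)`. -/
theorem T1S_low (hA : S.Adm b t) (P : Finset ℕ) (hP : ∀ l ∈ P, l.Prime) : Real.exp (-(4 * k : ℝ)) ≤ SSS S b t P := by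
  have h0 : SSS S b t P = (∏ l ∈ P.filter (fun l => l ≤ 2 * k), (1 + tpS S b t l)) *
      ∏ l ∈ P.filter (fun l => ¬ l ≤ 2 * k), (1 + tpS S b t l) := by
    rw [SSS]
    exact (Finset.prod_filter_mul_prod_filter_not P (fun l => l ≤ 2 * k) _).symm
  have h1 : Real.exp (-(2 * k * Real.log 4)) ≤
      ∏ l ∈ P.filter (fun l => l ≤ 2 * k), (1 + tpS S b t l) := by
    refine (Lib.H59P.t1_prodSmall k P hP).trans (Finset.prod_le_prod (fun l _ => by positivity) fun l hl => ?_)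
    exact t1_small S b t hA (hP l (mem_filter.1 hl).1)
  have h2 : Real.exp (-(k : ℝ)) ≤ ∏ l ∈ P.filter (fun l => ¬ l ≤ 2 * k), (1 + tpS S b t l) := by
    have h3 : Real.exp (-(k : ℝ)) ≤
        ∏ l ∈ P.filter (fun l => ¬ l ≤ 2 * k), Real.exp (-(2 * (k : ℝ) ^ 2 * ((l : ℝ) ^ 2)⁻¹)) := by
      rw [← Real.exp_sum, Finset.sum_neg_distrib, ← Finset.mul_sum]
      exact Real.exp_le_exp.2 (neg_le_neg (Lib.H59P.t1_sum k P))
    refine h3.trans (Finset.prod_le_prod (fun l _ => (Real.exp_pos _).le) fun l hl => ?_)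
    have h4 := mem_filter.1 hl
    exact t1_large S b t hA (hP l h4.1) (by omega)
  rw [h0]
  refine le_trans ?_ (mul_le_mul h1 h2 (Real.exp_pos _).le (le_trans (Real.exp_pos _).le h1))
  rw [← Real.exp_add]
  refine Real.exp_le_exp.2 ?_
  have h5 : Real.log 4 = 2 * Real.log 2 := by
    have h6 : (4 : ℝ) = 2 ^ 2 := by norm_num
    rw [h6, Real.log_pow]
    norm_num
  have h7 := Real.log_two_lt_d9
  have h8 : (0 : ℝ) ≤ k := Nat.cast_nonneg k
  rw [h5]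
  nlinarith

end Pool.Agent.H9U
end

-- from Lib.H9U.T2
section

/-!
# H9U, chunk T2 (M): the local factors of the singular series, upper bounds; the tail (Rankin)
-/

open Finset

namespace Pool.Agent.H9U

open Pool.Agent.Lib.H59P (Ch cj uu gl pr SF)

variable {k d : ℕ} (S : Sys k d) (b : Fin k → ℤ) (t : Fin d → ℤ)

/-- The minor `a_i φ_j - a_j φ_i`, a function of `t` only. -/
def Sys.minr (i j : Fin k) : ℤ := S.a i * S.val b 0 t j - S.a j * S.val b 0 t i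

theorem t2_val (n : ℤ) (i : Fin k) : S.val b n t i = S.a i * n + S.val b 0 t i := by
  unfold Sys.val Sys.lin
  ring

theorem t2_root (l : ℕ) (hl : l.Prime) (a c : ℤ) (ha : ¬ (l : ℤ) ∣ a) : ∃ r : ℕ, r < l ∧ (l : ℤ) ∣ a * r + c := by
  have hco : IsCoprime a (l : ℤ) := by
    rw [isCoprime_comm]
    exact (Nat.prime_iff_prime_int.1 hl).coprime_iff_not_dvd.2 ha
  obtain ⟨u, v, huv⟩ := hco
  have hl0 : (0 : ℤ) < l := by exact_mod_cast hl.pos
  refine ⟨((-(c * u)) % l).toNat, ?_, ?_⟩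
  · have h1 := Int.emod_lt_of_pos (-(c * u)) hl0
    have h2 := Int.emod_nonneg (-(c * u)) hl0.ne'
    omega
  · rw [Int.toNat_of_nonneg (Int.emod_nonneg _ hl0.ne')]
    have h1 := Int.emod_add_mul_ediv (-(c * u)) l
    have h2 : (-(c * u)) % (l : ℤ) = -(c * u) - l * (-(c * u) / l) := by linarith
    rw [h2]
    refine ⟨c * v - a * (-(c * u) / l), ?_⟩
    linear_combination (-c) * huv

theorem t2_uniq (l : ℕ) (hl : l.Prime) (a c : ℤ) (ha : ¬ (l : ℤ) ∣ a) {r s : ℕ} (hr : r < l) (hs : s < l)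
    (h1 : (l : ℤ) ∣ a * r + c) (h2 : (l : ℤ) ∣ a * s + c) : r = s := by
  have h3 : (l : ℤ) ∣ a * ((r : ℤ) - s) := by
    have := dvd_sub h1 h2
    rwa [show a * (r : ℤ) + c - (a * s + c) = a * ((r : ℤ) - s) by ring] at this
  have h4 := ((Nat.prime_iff_prime_int.1 hl).dvd_or_dvd h3).resolve_left ha
  have h5 : (r : ℤ) - s = 0 := Int.eq_zero_of_abs_lt_dvd h4 (by rw [abs_lt]; constructor <;> omega)
  omega

theorem t2_nu (l : ℕ) (hl : l.Prime) (ha : ∀ i, ¬ (l : ℤ) ∣ S.a i) :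
    nuS S b t l ≤ k ∧ ((∀ i j, i ≠ j → ¬ (l : ℤ) ∣ S.minr b t i j) → nuS S b t l = k) := by
  classical
  choose r hr1 hr2 using fun i => t2_root l hl (S.a i) (S.val b 0 t i) (ha i)
  have hcard : nuS S b t l = (univ.image r).card := by
    unfold nuS
    congr 1
    ext n
    rw [mem_filter, mem_image, mem_range]
    constructor
    · rintro ⟨hn, i, hi⟩
      rw [t2_val] at hi
      exact ⟨i, mem_univ _, t2_uniq l hl _ _ (ha i) (hr1 i) hn (hr2 i) hi⟩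
    · rintro ⟨i, -, rfl⟩
      refine ⟨hr1 i, i, ?_⟩
      rw [t2_val]
      exact hr2 i
  refine ⟨?_, fun hm => ?_⟩
  · rw [hcard]
    exact card_image_le.trans (by rw [card_univ, Fintype.card_fin])
  · rw [hcard, card_image_of_injective _ ?_, card_univ, Fintype.card_fin]
    intro i j hij
    by_contra hne
    apply hm i j hne
    have h1 := hr2 i
    have h2 := hr2 j
    rw [← hij] at h2
    have h3 := dvd_sub (Dvd.dvd.mul_left h2 (S.a i)) (Dvd.dvd.mul_left h1 (S.a j))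
    unfold Sys.minr
    rwa [show S.a i * (S.a j * (r i : ℤ) + S.val b 0 t j) - S.a j * (S.a i * (r i : ℤ) + S.val b 0 t i) =
      S.a i * S.val b 0 t j - S.a j * S.val b 0 t i by ring] at h3

theorem t2_nule (l : ℕ) : nuS S b t l ≤ l := by
  unfold nuS
  exact (card_filter_le _ _).trans (by rw [card_range])

/-- Proof. `T0S_tp`; `l > 2k` prime to all `a_i`: every form has exactly one root modulo `l`, so `1 ≤ ν ≤ k` (or `k = 0`), and `ν = k` if no minor is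
divisible by `l` (the roots of `i` and `j` agree iff `l ∣ minr i j`). `(1 - ν/l)(1 + 1/(l-1))^k`: `|…- 1| ≤ C/l` in general and `≤ C/l²` if `ν = k`,
with `C = 2^(k+3) (k+1)^2` or any explicit bound (`(1+1/(l-1))^k ≤ 1 + k/(l-1) + 2^k/(l-1)²`-type estimates; compare `T2_large`). For the other
`l` (`l ≤ 2k` or `l` divides some `a_i`) `|tpS| ≤ 2^k`. -/
theorem T2S_bd (l : ℕ) (hl : l.Prime) :
    |tpS S b t l| ≤ 2 ^ k ∧
    (2 * k < l → (∀ i, ¬ (l : ℤ) ∣ S.a i) → |tpS S b t l| ≤ 4 ^ (k + 3) / l ∧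
      ((∀ i j, i ≠ j → ¬ (l : ℤ) ∣ S.minr b t i j) → |tpS S b t l| ≤ 4 ^ (k + 3) / (l : ℝ) ^ 2)) := by
  have hl1 : (1 : ℝ) < l := by exact_mod_cast hl.one_lt
  have hl2' : (2 : ℝ) ≤ l := by exact_mod_cast hl.two_le
  have hl0 : (0 : ℝ) < l := by linarith
  have hl2 : (0 : ℝ) < (l : ℝ) - 1 := by linarith
  have hT := T0S_tp S b t l hl
  have hnl : (nuS S b t l : ℝ) ≤ l := by exact_mod_cast t2_nule S b t l
  have hn0 : (0 : ℝ) ≤ nuS S b t l := Nat.cast_nonneg _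
  obtain ⟨hB1, hB2⟩ := Pool.Agent.Lib.H59P.t2_B (k := k) hl
  set B := ((l : ℝ) / ((l : ℝ) - 1)) ^ k with hB
  have hB0 : 0 ≤ B := by linarith
  have hq0 : 0 ≤ 1 - (nuS S b t l : ℝ) / l := by
    rw [sub_nonneg, div_le_one hl0]; exact hnl
  have hq1 : 1 - (nuS S b t l : ℝ) / l ≤ 1 := by
    have : 0 ≤ (nuS S b t l : ℝ) / l := by positivity
    linarith
  refine ⟨?_, fun hk ha => ?_⟩
  · have hB4 : B ≤ 2 ^ k := by
      refine pow_le_pow_left₀ (by positivity) ?_ k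
      rw [div_le_iff₀ hl2]
      linarith
    have h1 : 0 ≤ 1 + tpS S b t l := by rw [hT]; exact mul_nonneg hq0 hB0
    have h2 : 1 + tpS S b t l ≤ B := by
      rw [hT]
      exact mul_le_of_le_one_left hB0 hq1
    rw [abs_le]
    constructor <;> linarith
  · obtain ⟨hnk, hnk'⟩ := t2_nu S b t l hl ha
    have hB3 : B ≤ 3 := by
      have h3 : (l : ℝ) / ((l : ℝ) - 1) = 1 / ((l : ℝ) - 1) + 1 := by
        field_simp
        ring
      have h4 : (l : ℝ) / ((l : ℝ) - 1) ≤ Real.exp (1 / ((l : ℝ) - 1)) := by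
        rw [h3]
        exact Real.add_one_le_exp _
      have h5 : B ≤ Real.exp (1 / ((l : ℝ) - 1)) ^ k :=
        pow_le_pow_left₀ (by positivity) h4 k
      refine h5.trans ?_
      rw [← Real.exp_nat_mul]
      have h6 : (k : ℝ) * (1 / ((l : ℝ) - 1)) ≤ 1 := by
        rw [mul_one_div, div_le_one hl2]
        have h7 : k + 1 ≤ l := by omega
        have h8 : ((k + 1 : ℕ) : ℝ) ≤ l := by exact_mod_cast h7
        push_cast at h8
        linarith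
      refine (Real.exp_le_exp.2 h6).trans ?_
      linarith [Real.exp_one_lt_d9]
    have h1 : (nuS S b t l : ℝ) ≤ k := by exact_mod_cast hnk
    have hkl : (k : ℝ) / l ≤ 1 := by
      rw [div_le_one hl0]
      have h9 : k ≤ l := by omega
      exact_mod_cast h9
    have hb1 : (1 - (k : ℝ) / l) * B ≤ 1 := by
      have h3 : 1 - (k : ℝ) / l ≤ (1 + -(1 / (l : ℝ))) ^ k := by
        refine le_trans (le_of_eq ?_) (one_add_mul_le_pow (a := -(1 / (l : ℝ))) ?_ k)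
        · ring
        · have h4 : 1 / (l : ℝ) ≤ 1 := (div_le_one hl0).2 hl1.le
          linarith
      have h5 : (1 + -(1 / (l : ℝ))) ^ k * B = 1 := by
        rw [hB, ← mul_pow]
        have h6 : (1 + -(1 / (l : ℝ))) * ((l : ℝ) / ((l : ℝ) - 1)) = 1 := by
          field_simp
          ring
        rw [h6, one_pow]
      calc (1 - (k : ℝ) / l) * B ≤ (1 + -(1 / (l : ℝ))) ^ k * B :=
            mul_le_mul_of_nonneg_right h3 hB0
        _ = 1 := h5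
    have hb2 : 1 - (k : ℝ) ^ 2 / (l : ℝ) ^ 2 ≤ (1 - (k : ℝ) / l) * B := by
      have h3 : (1 - (k : ℝ) / l) * (1 + (k : ℝ) / l) ≤ (1 - (k : ℝ) / l) * B :=
        mul_le_mul_of_nonneg_left hB2 (by linarith)
      refine le_trans (le_of_eq ?_) h3
      ring
    have htp : tpS S b t l = ((1 - (k : ℝ) / l) * B - 1) + ((k : ℝ) - nuS S b t l) / l * B := by
      have h4 : tpS S b t l = (1 - (nuS S b t l : ℝ) / l) * B - 1 := by linarith
      rw [h4]
      ring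
    have hg0 : 0 ≤ ((k : ℝ) - nuS S b t l) / l * B := mul_nonneg (div_nonneg (by linarith) hl0.le) hB0
    have hk4 : (k : ℝ) ≤ 4 ^ k := by
      have : k < 4 ^ k := Nat.lt_pow_self (by norm_num)
      exact_mod_cast this.le
    have hk0 : (0 : ℝ) ≤ k := Nat.cast_nonneg k
    have hk22 : (k : ℝ) ^ 2 ≤ 4 ^ (k + 3) := by
      have h2k : (k : ℝ) ≤ 2 ^ k := by
        have : k < 2 ^ k := Nat.lt_two_pow_self
        exact_mod_cast this.le
      have h4k : (k : ℝ) ^ 2 ≤ 4 ^ k := by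
        have h5 : (k : ℝ) ^ 2 ≤ (2 ^ k) ^ 2 := pow_le_pow_left₀ hk0 h2k 2
        have h6 : ((2 : ℝ) ^ k) ^ 2 = 4 ^ k := by
          rw [← pow_mul, mul_comm, pow_mul]
          norm_num
        rwa [h6] at h5
      have h7 : (4 : ℝ) ^ k ≤ 4 ^ (k + 3) := pow_le_pow_right₀ (by norm_num) (by omega)
      linarith
    have hk2l : 0 ≤ (k : ℝ) ^ 2 / (l : ℝ) ^ 2 := by positivity
    refine ⟨?_, fun hm => ?_⟩
    · have e1 : (k : ℝ) ^ 2 / (l : ℝ) ^ 2 ≤ (k : ℝ) / l := by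
        have : (k : ℝ) ^ 2 / (l : ℝ) ^ 2 = (k : ℝ) / l * ((k : ℝ) / l) := by ring
        rw [this]
        exact mul_le_of_le_one_right (by positivity) hkl
      have e2 : ((k : ℝ) - nuS S b t l) / l * B ≤ (k : ℝ) / l * 3 :=
        mul_le_mul (div_le_div_of_nonneg_right (by linarith) hl0.le) hB3 hB0 (by positivity)
      have e3 : 4 * ((k : ℝ) / l) ≤ 4 ^ (k + 3) / l := by
        rw [mul_div_assoc']
        refine div_le_div_of_nonneg_right ?_ hl0.le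
        have : (4 : ℝ) ^ (k + 3) = 64 * 4 ^ k := by rw [pow_add]; norm_num; ring
        rw [this]
        linarith
      have e4 : 0 ≤ (k : ℝ) / l := by positivity
      rw [htp, abs_le]
      constructor <;> linarith
    · have hν : (nuS S b t l : ℝ) = k := by exact_mod_cast hnk' hm
      have e5 : (k : ℝ) ^ 2 / (l : ℝ) ^ 2 ≤ 4 ^ (k + 3) / (l : ℝ) ^ 2 :=
        div_le_div_of_nonneg_right hk22 (by positivity)
      rw [htp, hν, sub_self, zero_div, zero_mul, add_zero, abs_le]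
      constructor <;> linarith

/-- `∏_{l ≤ X} (1 + l^η |tpS l|)` -/
noncomputable def RPS (η : ℝ) (X : ℕ) : ℝ := ∏ l ∈ pr X, (1 + (l : ℝ) ^ η * |tpS S b t l|)

theorem t2_SS (P : Finset ℕ) :
    SSS S b t P = ∑ V ∈ P.powerset, ∏ l ∈ V, tpS S b t l := by
  rw [SSS, Finset.prod_one_add]

theorem t2_tail (η E0 : ℝ) (hη : 0 ≤ η) (hE0 : 0 < E0) (X : ℕ) (T : Finset ℕ)
    (hT : ∀ e ∈ T, Squarefree e ∧ (∀ l ∈ e.primeFactors, l ≤ X) ∧ E0 ≤ (e : ℝ)) :
    ∑ e ∈ T, |tdS S b t e| ≤ E0 ^ (-η) * RPS S b t η X := by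
  classical
  have h1 : ∀ e ∈ T, |tdS S b t e| ≤ E0 ^ (-η) * ∏ l ∈ e.primeFactors, ((l : ℝ) ^ η * |tpS S b t l|) := by
    intro e hd
    obtain ⟨hsq, -, hle⟩ := hT e hd
    have h2 : ∏ l ∈ e.primeFactors, ((l : ℝ) ^ η * |tpS S b t l|) = (e : ℝ) ^ η * |tdS S b t e| := by
      rw [Finset.prod_mul_distrib, tdS, Finset.abs_prod]
      congr 1
      rw [Real.finsetProd_rpow _ _ fun l _ => Nat.cast_nonneg l]
      congr 1
      have h3 := Nat.prod_primeFactors_of_squarefree hsq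
      rw [← Nat.cast_prod, h3]
    rw [h2, ← mul_assoc]
    have h4 : 1 ≤ E0 ^ (-η) * (e : ℝ) ^ η := by
      rw [Real.rpow_neg hE0.le, inv_mul_eq_div, le_div_iff₀ (Real.rpow_pos_of_pos hE0 _), one_mul]
      exact Real.rpow_le_rpow hE0.le hle hη
    exact le_mul_of_one_le_left (abs_nonneg _) h4
  refine (Finset.sum_le_sum h1).trans ?_
  rw [← Finset.mul_sum]
  refine mul_le_mul_of_nonneg_left ?_ (Real.rpow_nonneg hE0.le _)
  have hinj : Set.InjOn Nat.primeFactors (T : Set ℕ) := by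
    intro e hd e' hd' hdd
    have h2 := Nat.prod_primeFactors_of_squarefree (hT e hd).1
    have h3 := Nat.prod_primeFactors_of_squarefree (hT e' hd').1
    rw [← h2, ← h3, hdd]
  rw [RPS, Finset.prod_one_add,
    ← Finset.sum_image (f := fun V : Finset ℕ => ∏ l ∈ V, ((l : ℝ) ^ η * |tpS S b t l|)) hinj]
  refine Finset.sum_le_sum_of_subset_of_nonneg ?_ ?_
  · intro V hS
    obtain ⟨e, hd, rfl⟩ := mem_image.1 hS
    rw [mem_powerset]
    intro l hl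
    exact Pool.Agent.Lib.H59P.mem_pr.2 ⟨(hT e hd).2.1 l hl, Nat.prime_of_mem_primeFactors hl⟩
  · intro V _ _
    exact Finset.prod_nonneg fun l _ => mul_nonneg (Real.rpow_nonneg (Nat.cast_nonneg l) _)
      (abs_nonneg _)

theorem t2_diff (η E0 : ℝ) (hη : 0 ≤ η) (hE0 : 0 < E0) (X z R E : ℕ) (hz : z ≤ X) (hE : E ≤ X)
    (h1 : E0 ≤ (z : ℝ)) (h2 : E0 ≤ (E : ℝ)) :
    |∑ e ∈ SF E R, tdS S b t e - SSS S b t ((pr z).filter (fun l : ℕ => ¬ l ∣ R))| ≤ E0 ^ (-η) * RPS S b t η X := by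
  classical
  set P : Finset ℕ := (pr z).filter (fun l : ℕ => ¬ l ∣ R) with hP
  have hPm : ∀ l, l ∈ P ↔ (l ≤ z ∧ l.Prime) ∧ ¬ l ∣ R := by
    intro l
    rw [hP, mem_filter, Pool.Agent.Lib.H59P.mem_pr]
  set A : Finset ℕ := P.powerset.image fun V => ∏ l ∈ V, l with hA
  have hpf : ∀ V ∈ P.powerset, (∏ l ∈ V, l).primeFactors = V := by
    intro V hS
    exact Nat.primeFactors_prod fun l hl => ((hPm l).1 (mem_powerset.1 hS hl)).1.2
  have hSA : SSS S b t P = ∑ e ∈ A, tdS S b t e := by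
    rw [t2_SS, hA, Finset.sum_image]
    · refine Finset.sum_congr rfl fun V hS => ?_
      rw [tdS, hpf V hS]
    · intro V hS V' hS' hSS
      have h3 := congrArg Nat.primeFactors hSS
      rwa [hpf V hS, hpf V' hS'] at h3
  have hAm : ∀ e, e ∈ A ↔ Squarefree e ∧ e.primeFactors ⊆ P := by
    intro e
    rw [hA, mem_image]
    constructor
    · rintro ⟨V, hS, rfl⟩
      refine ⟨?_, ?_⟩
      · refine Finset.squarefree_prod_of_pairwise_isCoprime ?_ ?_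
        · intro a ha c hb hab
          have ha' := ((hPm a).1 (mem_powerset.1 hS ha)).1.2
          have hb' := ((hPm c).1 (mem_powerset.1 hS hb)).1.2
          exact Nat.coprime_iff_isRelPrime.1 ((Nat.coprime_primes ha' hb').2 hab)
        · intro a ha
          exact ((hPm a).1 (mem_powerset.1 hS ha)).1.2.prime.squarefree
      · rw [hpf V hS]
        exact mem_powerset.1 hS
    · rintro ⟨hsq, hsub⟩
      exact ⟨e.primeFactors, mem_powerset.2 hsub, Nat.prod_primeFactors_of_squarefree hsq⟩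
  rw [hSA, ← Finset.sum_sdiff_sub_sum_sdiff]
  have hT : ∀ e ∈ (SF E R \ A) ∪ (A \ SF E R),
      Squarefree e ∧ (∀ l ∈ e.primeFactors, l ≤ X) ∧ E0 ≤ (e : ℝ) := by
    intro e hd
    rcases mem_union.1 hd with hd | hd
    · obtain ⟨hd1, hd2⟩ := mem_sdiff.1 hd
      obtain ⟨h3, h4, h5, h6⟩ := Pool.Agent.Lib.H59P.t3_mem.1 hd1
      have hd0 : e ≠ 0 := by omega
      refine ⟨h5, fun l hl => (Nat.le_of_dvd (by omega) (Nat.dvd_of_mem_primeFactors hl)).trans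
        (h4.trans hE), ?_⟩
      by_contra hlt
      push Not at hlt
      apply hd2
      rw [hAm]
      refine ⟨h5, fun l hl => (hPm l).2 ⟨⟨?_, Nat.prime_of_mem_primeFactors hl⟩,
        (Pool.Agent.Lib.H59P.t3_coprime hd0).1 h6 l hl⟩⟩
      have h7 : l ≤ e := Nat.le_of_dvd (by omega) (Nat.dvd_of_mem_primeFactors hl)
      have h8 : (e : ℝ) ≤ z := by linarith
      exact h7.trans (by exact_mod_cast h8)
    · obtain ⟨hd1, hd2⟩ := mem_sdiff.1 hd
      obtain ⟨h3, h4⟩ := (hAm e).1 hd1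
      refine ⟨h3, fun l hl => (((hPm l).1 (h4 hl)).1.1).trans hz, ?_⟩
      by_contra hlt
      push Not at hlt
      apply hd2
      have hd0 : e ≠ 0 := h3.ne_zero
      have h8 : (e : ℝ) ≤ E := by linarith
      exact Pool.Agent.Lib.H59P.t3_mem.2 ⟨by omega, by exact_mod_cast h8, h3,
        (Pool.Agent.Lib.H59P.t3_coprime hd0).2 fun l hl => ((hPm l).1 (h4 hl)).2⟩
  refine le_trans ?_ (t2_tail S b t η E0 hη hE0 X _ hT)
  have hdisj : Disjoint (SF E R \ A) (A \ SF E R) := by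
    rw [Finset.disjoint_left]
    intro e hd hd'
    exact (mem_sdiff.1 hd).2 (mem_sdiff.1 hd').1
  rw [Finset.sum_union hdisj]
  refine (abs_sub _ _).trans ?_
  exact add_le_add (Finset.abs_sum_le_sum_abs _ _) (Finset.abs_sum_le_sum_abs _ _)

/-- Proof. As `T3_diff` (`H59P/T3.lean`): the difference is a sum of `tdS e` over squarefree `e > E` (with prime factors at most `Q`) and the rest. -/
theorem T3S_diff (η : ℝ) (hη : 0 ≤ η) (Q R E : ℕ) (hE : 1 ≤ E) (hEQ : E ≤ Q) :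
    |∑ e ∈ SF E R, tdS S b t e - SSS S b t ((pr Q).filter (fun l : ℕ => ¬ l ∣ R))| ≤
      (E : ℝ) ^ (-η) * RPS S b t η Q := by
  have hE0 : (0 : ℝ) < E := by exact_mod_cast hE
  exact t2_diff S b t η E hη hE0 Q Q R E le_rfl hEQ (by exact_mod_cast hEQ) le_rfl

end Pool.Agent.H9U
end

-- from Lib.H9U.T4
section

/-!
# H9U, chunk T4 (M): the Rankin product is small for every `t` without vanishing minors
-/

open Finset

namespace Pool.Agent.H9U

open Pool.Agent.Lib.H59P (Ch cj uu gl pr SF)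

theorem t4_card (m : ℤ) (hm : m ≠ 0) (X : ℕ) (h : |m| ≤ (X : ℤ) ^ 3) :
    (m.natAbs.primeFactors.card : ℝ) * Real.log 2 ≤ 3 * Real.log X := by
  have h1 : 2 ^ m.natAbs.primeFactors.card ≤ m.natAbs := by
    calc 2 ^ m.natAbs.primeFactors.card = ∏ _p ∈ m.natAbs.primeFactors, 2 := by rw [prod_const]
      _ ≤ ∏ p ∈ m.natAbs.primeFactors, p :=
        prod_le_prod (fun _ _ => Nat.zero_le _) fun p hp => (Nat.prime_of_mem_primeFactors hp).two_le
      _ ≤ m.natAbs := Nat.le_of_dvd (Int.natAbs_pos.2 hm) (Nat.prod_primeFactors_dvd _)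
  have h2 : m.natAbs ≤ X ^ 3 := by
    have h3 : (m.natAbs : ℤ) ≤ ((X ^ 3 : ℕ) : ℤ) := by
      rw [Int.natCast_natAbs]
      push_cast
      exact h
    exact_mod_cast h3
  have h4 : ((2 : ℝ) ^ m.natAbs.primeFactors.card) ≤ (X : ℝ) ^ 3 := by
    have h5 := h1.trans h2
    exact_mod_cast h5
  have h6 := Real.log_le_log (by positivity) h4
  rw [Real.log_pow, Real.log_pow] at h6
  exact_mod_cast h6

/-- The number of primes dividing one of the minors. -/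
theorem t4_D {k d : ℕ} (S : Sys k d) (X Q : ℕ) (b : Fin k → ℤ) (t : Fin d → ℤ)
    (hm : ∀ i j, i ≠ j → S.minr b t i j ≠ 0 ∧ |S.minr b t i j| ≤ (X : ℤ) ^ 3) [DecidablePred fun l : ℕ => ∃ i j, i ≠ j ∧ (l : ℤ) ∣ S.minr b t i j] :
    (((pr Q).filter (fun l : ℕ => ∃ i j, i ≠ j ∧ (l : ℤ) ∣ S.minr b t i j)).card : ℝ) * Real.log 2 ≤ (k : ℝ) ^ 2 * (3 * Real.log X) := by
  classical
  have h0 : (0 : ℝ) ≤ Real.log X := Real.log_natCast_nonneg X
  have hsub : (pr Q).filter (fun l : ℕ => ∃ i j, i ≠ j ∧ (l : ℤ) ∣ S.minr b t i j) ⊆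
      (univ : Finset (Fin k × Fin k)).biUnion (fun q => if q.1 ≠ q.2 then (S.minr b t q.1 q.2).natAbs.primeFactors else ∅) := by
    intro l hl
    rw [mem_filter] at hl
    obtain ⟨hl1, i, j, hij, hd⟩ := hl
    rw [mem_biUnion]
    refine ⟨(i, j), mem_univ _, ?_⟩
    rw [if_pos hij]
    exact Nat.mem_primeFactors.2 ⟨(Pool.Agent.Lib.H59P.mem_pr.1 hl1).2, Int.natCast_dvd.1 hd, Int.natAbs_ne_zero.2 (hm i j hij).1⟩
  have h1 : (((pr Q).filter (fun l : ℕ => ∃ i j, i ≠ j ∧ (l : ℤ) ∣ S.minr b t i j)).card : ℝ) ≤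
      ∑ q : Fin k × Fin k, ((if q.1 ≠ q.2 then (S.minr b t q.1 q.2).natAbs.primeFactors else ∅).card : ℝ) := by
    exact_mod_cast (card_le_card hsub).trans card_biUnion_le
  have h2 : ∀ q : Fin k × Fin k, ((if q.1 ≠ q.2 then (S.minr b t q.1 q.2).natAbs.primeFactors else ∅).card : ℝ) * Real.log 2 ≤ 3 * Real.log X := by
    intro q
    by_cases hq : q.1 ≠ q.2
    · rw [if_pos hq]
      exact t4_card _ (hm _ _ hq).1 X (hm _ _ hq).2
    · rw [if_neg hq, card_empty, Nat.cast_zero, zero_mul]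
      positivity
  have hlog2 : (0 : ℝ) ≤ Real.log 2 := Real.log_nonneg (by norm_num)
  calc (((pr Q).filter (fun l : ℕ => ∃ i j, i ≠ j ∧ (l : ℤ) ∣ S.minr b t i j)).card : ℝ) * Real.log 2
      ≤ (∑ q : Fin k × Fin k, ((if q.1 ≠ q.2 then (S.minr b t q.1 q.2).natAbs.primeFactors else ∅).card : ℝ)) * Real.log 2 :=
        mul_le_mul_of_nonneg_right h1 hlog2
    _ ≤ ∑ _q : Fin k × Fin k, 3 * Real.log X := by
        rw [sum_mul]
        exact sum_le_sum fun q _ => h2 q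
    _ = (k : ℝ) ^ 2 * (3 * Real.log X) := by
        rw [sum_const, card_univ, Fintype.card_prod, Fintype.card_fin, nsmul_eq_mul]
        push_cast
        ring

/-- Proof. `η = 1/4`. By `T2S_bd` the product `RPS (1/4) Q` is at most the product over the primes `l ≤ Q` of: `1 + l 2^k` for the finitely many `l`
with `l ≤ 2k` or `l ∣ ∏ a_i` (a constant depending on `S`), `1 + 4^(k+3) l^(-7/4)` (product bounded by a constant), and
`1 + 4^(k+3) l^(-3/4) ≤ exp(4^(k+3) l^(-3/4))` for the `l` dividing some minor. The product `Δ` of the nonzero minors is at most `X^(3k²)`, so it has at most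
`ω ≤ 3 k² log X/log 2` prime factors, and `∑_{l ∣ Δ} l^(-3/4) ≤ ∑_{j ≤ ω} j^(-3/4) ≤ 4 ω^(1/4)` (the `j`-th prime factor is at least `j`). So the
product is at most `C exp(C (log X)^(1/4)) ≤ X^ε` for `X` large. Then `T3S_diff`. -/
theorem T4S_tail {k d : ℕ} (S : Sys k d) (ha : ∀ i, S.a i ≠ 0) (ε : ℝ) (hε : 0 < ε) : ∃ X0 : ℕ, ∀ X Q : ℕ, X0 ≤ X → Q ≤ X →
    ∀ (b : Fin k → ℤ) (t : Fin d → ℤ), (∀ i j, i ≠ j → S.minr b t i j ≠ 0 ∧ |S.minr b t i j| ≤ (X : ℤ) ^ 3) →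
    ∀ R E : ℕ, 1 ≤ E → E ≤ Q →
      |∑ e ∈ SF E R, tdS S b t e - SSS S b t ((pr Q).filter (fun l : ℕ => ¬ l ∣ R))| ≤
        (E : ℝ) ^ (-(1 / 4) : ℝ) * (X : ℝ) ^ ε := by
  classical
  set M : ℝ := (4 : ℝ) ^ (k + 3) with hM
  have hM0 : 0 < M := by positivity
  set L0 : ℕ := 2 * k + ∑ i, (S.a i).natAbs with hL0
  have hLa : ∀ l : ℕ, L0 < l → ∀ i, ¬ (l : ℤ) ∣ S.a i := by
    intro l hl i hd
    have h1 : l ≤ (S.a i).natAbs := Nat.le_of_dvd (Int.natAbs_pos.2 (ha i)) (Int.natCast_dvd.1 hd)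
    have h2 : (S.a i).natAbs ≤ ∑ i, (S.a i).natAbs := single_le_sum (f := fun i => (S.a i).natAbs) (fun _ _ => Nat.zero_le _) (mem_univ i)
    omega
  set c0 : ℝ := (L0 : ℝ) * 2 ^ k with hc0
  have hc00 : 0 ≤ c0 := by positivity
  -- the threshold
  obtain ⟨W, hW1, hW2⟩ : ∃ W : ℕ, 1 ≤ W ∧ M * (W : ℝ) ^ (-(3 / 4) : ℝ) * ((k : ℝ) ^ 2 * 3) / Real.log 2 ≤ ε / 2 := by
    have h1 : Filter.Tendsto (fun W : ℕ => M * (W : ℝ) ^ (-(3 / 4) : ℝ) * ((k : ℝ) ^ 2 * 3) / Real.log 2) Filter.atTop (nhds (M * 0 * ((k : ℝ) ^ 2 * 3) / Real.log 2)) := by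
      have h2 : Filter.Tendsto (fun W : ℕ => (W : ℝ) ^ (-(3 / 4) : ℝ)) Filter.atTop (nhds 0) :=
        (tendsto_rpow_neg_atTop (by norm_num)).comp tendsto_natCast_atTop_atTop
      exact ((h2.const_mul M).mul_const _).div_const _
    rw [mul_zero, zero_mul, zero_div] at h1
    have h3 := (h1.eventually (gt_mem_nhds (half_pos hε))).and (Filter.eventually_ge_atTop 1)
    obtain ⟨W, h4, h5⟩ := h3.exists
    exact ⟨W, h5, h4.le⟩
  obtain ⟨X0, hX0⟩ : ∃ X0 : ℕ, ∀ X : ℕ, X0 ≤ X → ((L0 : ℝ) + 1) * c0 + 3 * M + ((W : ℝ) + 1) * M ≤ ε / 2 * Real.log X := by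
    have h1 : Filter.Tendsto (fun X : ℕ => ε / 2 * Real.log X) Filter.atTop Filter.atTop :=
      (Real.tendsto_log_atTop.comp tendsto_natCast_atTop_atTop).const_mul_atTop (half_pos hε)
    exact Filter.eventually_atTop.1 (h1.eventually_ge_atTop _)
  refine ⟨max X0 1, fun X Q hX hQX b t hm R E hE hEQ => ?_⟩
  have hX1 : (1 : ℝ) ≤ X := by exact_mod_cast (le_max_right X0 1).trans hX
  have hX00 := hX0 X ((le_max_left X0 1).trans hX)
  refine (T3S_diff S b t (1 / 4) (by norm_num) Q R E hE hEQ).trans (mul_le_mul_of_nonneg_left ?_ (Real.rpow_nonneg (Nat.cast_nonneg E) _))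
  -- the Rankin product
  have hexp : RPS S b t (1 / 4) Q ≤ Real.exp (∑ l ∈ pr Q, (l : ℝ) ^ (1 / 4 : ℝ) * |tpS S b t l|) := by
    rw [RPS, Real.exp_sum]
    refine prod_le_prod (fun l _ => by positivity) fun l _ => ?_
    rw [add_comm]
    exact Real.add_one_le_exp _
  refine hexp.trans ?_
  have hXe : (X : ℝ) ^ ε = Real.exp (ε * Real.log X) := by
    rw [Real.rpow_def_of_pos (by linarith), mul_comm]
  rw [hXe]
  refine Real.exp_le_exp.2 ?_
  set DD : ℕ → Prop := fun l : ℕ => ∃ i j, i ≠ j ∧ (l : ℤ) ∣ S.minr b t i j with hDD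
  have hterm : ∀ l ∈ pr Q, (l : ℝ) ^ (1 / 4 : ℝ) * |tpS S b t l| ≤
      (if l ≤ L0 then c0 else 0) + M * (l : ℝ) ^ ((1 / 4 : ℝ) - 2) + (if l ≤ W then M else 0) +
        (if DD l then M * (W : ℝ) ^ (-(3 / 4) : ℝ) else 0) := by
    intro l hl
    have hlp := (Pool.Agent.Lib.H59P.mem_pr.1 hl).2
    have hl1 : (1 : ℝ) ≤ l := by exact_mod_cast hlp.one_lt.le
    have hl0 : (0 : ℝ) < l := by linarith
    obtain ⟨hb1, hb2⟩ := T2S_bd S b t l hlp
    have hp1 : 0 ≤ M * (l : ℝ) ^ ((1 / 4 : ℝ) - 2) := by positivity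
    have hp2 : 0 ≤ (if l ≤ W then M else 0) := by split_ifs <;> linarith
    have hp3 : 0 ≤ (if DD l then M * (W : ℝ) ^ (-(3 / 4) : ℝ) else 0) := by
      split_ifs
      · positivity
      · exact le_rfl
    by_cases h1 : l ≤ L0
    · rw [if_pos h1]
      have h2 : (l : ℝ) ^ (1 / 4 : ℝ) ≤ (L0 : ℝ) := by
        calc (l : ℝ) ^ (1 / 4 : ℝ) ≤ (l : ℝ) ^ (1 : ℝ) := Real.rpow_le_rpow_of_exponent_le hl1 (by norm_num)
          _ = l := Real.rpow_one _
          _ ≤ L0 := by exact_mod_cast h1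
      have h3 : (l : ℝ) ^ (1 / 4 : ℝ) * |tpS S b t l| ≤ c0 :=
        mul_le_mul h2 hb1 (abs_nonneg _) (Nat.cast_nonneg _)
      linarith
    · rw [if_neg h1]
      push Not at h1
      obtain ⟨hb3, hb4⟩ := hb2 (by omega) (hLa l h1)
      by_cases h2 : DD l
      · rw [if_pos h2]
        have h3 : (l : ℝ) ^ (1 / 4 : ℝ) * |tpS S b t l| ≤ M * (l : ℝ) ^ (-(3 / 4) : ℝ) := by
          calc (l : ℝ) ^ (1 / 4 : ℝ) * |tpS S b t l| ≤ (l : ℝ) ^ (1 / 4 : ℝ) * (M / l) :=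
              mul_le_mul_of_nonneg_left hb3 (by positivity)
            _ = M * (l : ℝ) ^ (-(3 / 4) : ℝ) := by
              have e : (l : ℝ) ^ (-(3 / 4) : ℝ) = (l : ℝ) ^ (1 / 4 : ℝ) / l := by
                rw [← Real.rpow_sub_one hl0.ne']
                norm_num
              rw [e]
              ring
        by_cases h4 : l ≤ W
        · rw [if_pos h4]
          have h5 : (l : ℝ) ^ (-(3 / 4) : ℝ) ≤ 1 := Real.rpow_le_one_of_one_le_of_nonpos hl1 (by norm_num)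
          have h6 : M * (l : ℝ) ^ (-(3 / 4) : ℝ) ≤ M := mul_le_of_le_one_right hM0.le h5
          have h7 : 0 ≤ M * (W : ℝ) ^ (-(3 / 4) : ℝ) := by positivity
          linarith
        · rw [if_neg h4]
          push Not at h4
          have hW0 : (0 : ℝ) < W := by exact_mod_cast hW1
          have h5 : (l : ℝ) ^ (-(3 / 4) : ℝ) ≤ (W : ℝ) ^ (-(3 / 4) : ℝ) :=
            Real.rpow_le_rpow_of_nonpos hW0 (by exact_mod_cast h4.le) (by norm_num)
          have h6 := mul_le_mul_of_nonneg_left h5 hM0.le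
          linarith
      · rw [if_neg h2]
        have h3 : (l : ℝ) ^ (1 / 4 : ℝ) * |tpS S b t l| ≤ M * (l : ℝ) ^ ((1 / 4 : ℝ) - 2) := by
          calc (l : ℝ) ^ (1 / 4 : ℝ) * |tpS S b t l| ≤ (l : ℝ) ^ (1 / 4 : ℝ) * (M / (l : ℝ) ^ 2) :=
              mul_le_mul_of_nonneg_left (hb4 fun i j hij hd => h2 ⟨i, j, hij, hd⟩) (by positivity)
            _ = M * (l : ℝ) ^ ((1 / 4 : ℝ) - 2) := by
              have e : (l : ℝ) ^ ((1 / 4 : ℝ) - 2) = (l : ℝ) ^ (1 / 4 : ℝ) / (l : ℝ) ^ 2 := by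
                rw [Real.rpow_sub hl0, Real.rpow_two]
              rw [e]
              ring
        linarith
  refine (sum_le_sum hterm).trans ?_
  rw [sum_add_distrib, sum_add_distrib, sum_add_distrib]
  have hs1 : ∀ (V : ℕ) (c : ℝ), 0 ≤ c → ∑ l ∈ pr Q, (if l ≤ V then c else 0) ≤ ((V : ℝ) + 1) * c := by
    intro V c hc
    rw [← sum_filter, sum_const, nsmul_eq_mul]
    refine mul_le_mul_of_nonneg_right ?_ hc
    have h1 : ((pr Q).filter (fun l : ℕ => l ≤ V)).card ≤ V + 1 := by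
      calc ((pr Q).filter (fun l : ℕ => l ≤ V)).card ≤ (range (V + 1)).card := card_le_card fun l hl => by
            rw [mem_filter] at hl
            rw [mem_range]
            omega
        _ = V + 1 := card_range _
    exact_mod_cast h1
  have hs2 : ∑ l ∈ pr Q, M * (l : ℝ) ^ ((1 / 4 : ℝ) - 2) ≤ 3 * M := by
    rw [← mul_sum]
    have h1 := Pool.Agent.Lib.H59P.T4A_int (1 / 4) 1 (by norm_num) (by norm_num) le_rfl Q
    rw [Real.one_rpow, mul_one] at h1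
    have h2 : (pr Q).filter (fun l : ℕ => (1 : ℝ) < (l : ℝ)) = pr Q := by
      refine filter_true_of_mem fun l hl => ?_
      exact_mod_cast (Pool.Agent.Lib.H59P.mem_pr.1 hl).2.one_lt
    rw [h2] at h1
    calc M * ∑ l ∈ pr Q, (l : ℝ) ^ ((1 / 4 : ℝ) - 2) ≤ M * 3 := mul_le_mul_of_nonneg_left h1 hM0.le
      _ = 3 * M := mul_comm _ _
  have hs3 : ∑ l ∈ pr Q, (if DD l then M * (W : ℝ) ^ (-(3 / 4) : ℝ) else 0) ≤ ε / 2 * Real.log X := by
    rw [← sum_filter, sum_const, nsmul_eq_mul]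
    have h1 := t4_D S X Q b t hm
    have hlog2 : (0 : ℝ) < Real.log 2 := Real.log_pos (by norm_num)
    have h0 : (0 : ℝ) ≤ Real.log X := Real.log_natCast_nonneg X
    have h2 : (((pr Q).filter DD).card : ℝ) ≤ (k : ℝ) ^ 2 * (3 * Real.log X) / Real.log 2 := by
      rw [le_div_iff₀ hlog2]
      exact h1
    calc (((pr Q).filter DD).card : ℝ) * (M * (W : ℝ) ^ (-(3 / 4) : ℝ))
        ≤ ((k : ℝ) ^ 2 * (3 * Real.log X) / Real.log 2) * (M * (W : ℝ) ^ (-(3 / 4) : ℝ)) :=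
          mul_le_mul_of_nonneg_right h2 (by positivity)
      _ = (M * (W : ℝ) ^ (-(3 / 4) : ℝ) * ((k : ℝ) ^ 2 * 3) / Real.log 2) * Real.log X := by ring
      _ ≤ ε / 2 * Real.log X := mul_le_mul_of_nonneg_right hW2 h0
  have hs4 := hs1 L0 c0 hc00
  have hs5 := hs1 W M hM0.le
  linarith

end Pool.Agent.H9U
end

-- from Lib.H9A.N0
section

/-!
# Project ASY: the asymptotic formula with a power-saving exceptional set (definitions)

See `PROOF.md` in this folder.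
-/

open Finset Filter

namespace Pool.Agent.H9A

open Pool.Agent.H9U
open Pool.Agent.Lib.H59P (bx pr)

noncomputable section

/-- The number of the `n < L` for which all values at `n0 + n` are primes. -/
def NPr {k d : ℕ} (S : Sys k d) (b : Fin k → ℤ) (t : Fin d → ℤ) (n0 : ℤ) (L : ℕ) : ℕ :=
  ((range L).filter (fun n : ℕ => ∀ i, (S.val b (n0 + n) t i).toNat.Prime)).card

/-- The expected density of the `n` near which all values are primes, the values being about `X`: the singular series over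
the primes up to `X`, divided by `(log X)^k`. -/
def Dn {k d : ℕ} (S : Sys k d) (b : Fin k → ℤ) (t : Fin d → ℤ) (X : ℕ) : ℝ := SSS S b t (pr X) / (Real.log X) ^ k

open Classical in
/-- The asymptotic formula for all but few `t`, for all `X` in the intervals `[M, M^A]` with `M` good, `M` arbitrarily
large. -/
def ACore {k d : ℕ} (S : Sys k d) : Prop :=
  ∀ C0 A : ℕ, 1 ≤ C0 → 1 ≤ A → ∀ ε : ℝ, 0 < ε → ∃ κ : ℝ, 0 < κ ∧ ∀ M0 : ℕ, ∃ M : ℕ, M0 ≤ M ∧ ∀ X : ℕ, M ≤ X → X ≤ M ^ A →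
    ∀ Xs : Fin k → ℕ, (∀ i, X ≤ Xs i ∧ Xs i ≤ C0 * X) → ∀ (b : Fin k → ℤ) (L T : ℕ), X ≤ L → L ≤ C0 * X → T ≤ C0 * X →
    (∀ i, ∀ n ∈ range L, ∀ t ∈ bx d T, S.val b n (iv t) i ∈ JJ (Xs i)) →
    (((bx d T).filter (fun t => S.Adm b (iv t) ∧
      ε * (L * Dn S b (iv t) X) < |(NPr S b (iv t) 0 L : ℝ) - L * Dn S b (iv t) X|)).card : ℝ) ≤ (X : ℝ) ^ (d - κ)

/-- `t` is admissible, and the asymptotic formula fails for `n` in `[n0, n0 + X)`. -/
def Bad {k d : ℕ} (S : Sys k d) (b : Fin k → ℤ) (n0 : ℤ) (X : ℕ) (ε : ℝ) (t : Fin d → ℕ) : Prop :=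
  S.Adm b (iv t) ∧ ε * (X * Dn S b (iv t) X) < |(NPr S b (iv t) n0 X : ℝ) - X * Dn S b (iv t) X|

/-- All minors at `t` are non-zero, and at most `X^3`. -/
def NZ {k d : ℕ} (S : Sys k d) (b : Fin k → ℤ) (t : Fin d → ℤ) (X : ℕ) : Prop :=
  ∀ i j, i ≠ j → S.minr b t i j ≠ 0 ∧ |S.minr b t i j| ≤ (X : ℤ) ^ 3

end

end Pool.Agent.H9A
end

-- from Lib.H9A.N2
section

/-!
# ASY, chunk N2 (M): the main term of a cell without exceptional character
-/

open Finset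

namespace Pool.Agent.H9A

open Pool.Agent.H9U
open Pool.Agent.Lib.H68T (PC p0)
open Pool.Agent.Lib.H18Q (gk KS SG)
open Pool.Agent.Lib.H59P (Ch SF bx TS Rp MX pr cj uu)

theorem n2_prod {ι : Type*} (s : Finset ι) (a b : ι → ℂ) :
    ‖∏ i ∈ s, (a i + b i) - ∏ i ∈ s, a i‖ ≤ ∏ i ∈ s, (‖a i‖ + ‖b i‖) - ∏ i ∈ s, ‖a i‖ := by
  classical
  induction s using Finset.induction_on with
  | empty => simp
  | insert j s hj ih =>
    rw [Finset.prod_insert hj, Finset.prod_insert hj, Finset.prod_insert hj, Finset.prod_insert hj]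
    have e : (a j + b j) * ∏ i ∈ s, (a i + b i) - a j * ∏ i ∈ s, a i =
        (a j + b j) * (∏ i ∈ s, (a i + b i) - ∏ i ∈ s, a i) + b j * ∏ i ∈ s, a i := by ring
    rw [e]
    refine (norm_add_le _ _).trans ?_
    rw [norm_mul, norm_mul (b j), norm_prod]
    have h2 : ‖a j + b j‖ * ‖∏ i ∈ s, (a i + b i) - ∏ i ∈ s, a i‖ ≤
        (‖a j‖ + ‖b j‖) * (∏ i ∈ s, (‖a i‖ + ‖b i‖) - ∏ i ∈ s, ‖a i‖) :=
      mul_le_mul (norm_add_le _ _) ih (norm_nonneg _) (by positivity)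
    refine (add_le_add h2 le_rfl).trans (le_of_eq ?_)
    ring

open Classical in
theorem n2_MX (p : Ch) : MX p0 (fun _ => 0) 0 p = (if p = p0 then 1 else 0 : ℂ) := by
  unfold MX
  by_cases h : p = p0
  · rw [if_pos h, if_pos h]
  · rw [if_neg h, if_neg h, if_neg h]



end Pool.Agent.H9A
end

-- from Lib.H9P.U7
section

/-!
# ASYP, chunk U7 (M): the main term of a cell without exceptional character
-/

open Finset Polynomial

namespace Pool.Agent.H9P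

open Pool.Agent.Lib.H68T Pool.Agent.Lib.H18Q Pool.Agent.Lib.H59P Pool.Agent.Lib.H24P
open Pool.Agent.HUP

/-- Copy of `N2_pt` (`H9A/N2.lean`) for the set `TSf k Q D1 m0` (the tuple `(p0, …, p0)` has the modulus `m0 ≤ D1`). -/
theorem U7_pt {k : ℕ} (Q D1 m0 : ℕ) (hQ : 1 ≤ Q) (hm : m0 ≤ D1) (E0 : ℝ)
    (e : Fin k → Ch → ℂ) (he : ∀ i, ∑ p ∈ PC Q, ‖e i p‖ ≤ E0) (m : Fin k → ℤ) :
    ‖∑ p ∈ TSf k Q D1 m0, ∏ i, ((MX p0 (fun _ => 0) 0 (p i) + e i (p i)) * cj (p i) (m i)) - 1‖ ≤ (1 + E0) ^ k - 1 := by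
  classical
  have hp0 : p0 ∈ PC Q := Pool.Agent.Lib.H68T.p0_mem hQ
  obtain ⟨a, ha⟩ : ∃ a : Ch → ℂ, a = fun p => if p = p0 then 1 else 0 := ⟨_, rfl⟩
  obtain ⟨b, hb⟩ : ∃ b : Fin k → Ch → ℂ, b = fun i p => e i p * cj p (m i) := ⟨_, rfl⟩
  have ha1 : a p0 = 1 := by rw [ha]; exact if_pos rfl
  have ha0 : ∀ p, p ≠ p0 → a p = 0 := fun p hp => by rw [ha]; exact if_neg hp
  have e1 : ∀ p : Fin k → Ch, ∏ i, ((MX p0 (fun _ => 0) 0 (p i) + e i (p i)) * cj (p i) (m i)) = ∏ i, (a (p i) + b i (p i)) := by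
    intro p
    refine Finset.prod_congr rfl fun i _ => ?_
    rw [Pool.Agent.H9A.n2_MX, add_mul, hb]
    by_cases h : p i = p0
    · rw [if_pos h, h, ha1, one_mul]
      change cj p0 (m i) + e i p0 * cj p0 (m i) = 1 + e i p0 * cj p0 (m i)
      rw [Pool.Agent.Lib.H59P.c3_cj_p0]
    · rw [if_neg h, zero_mul, ha0 _ h]
  have hc : (fun _ => p0 : Fin k → Ch) ∈ TSf k Q D1 m0 := by
    unfold TSf
    rw [Finset.mem_filter]
    refine ⟨Fintype.mem_piFinset.2 fun _ => hp0, ?_⟩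
    have h1 : (univ.lcm fun _ : Fin k => p0.1) = 1 :=
      Nat.dvd_one.1 (Finset.lcm_dvd fun i _ => one_dvd _)
    show m0.lcm (univ.lcm fun _ : Fin k => p0.1) ≤ D1
    rw [h1, Nat.lcm_one_right]
    exact hm
  have hne : ∀ p : Fin k → Ch, p ≠ (fun _ => p0) → ∏ i, a (p i) = 0 := by
    intro p hp
    have h1 : ∃ i, p i ≠ p0 := by
      by_contra hcon
      push Not at hcon
      exact hp (funext hcon)
    obtain ⟨i, hi⟩ := h1
    exact Finset.prod_eq_zero (Finset.mem_univ i) (ha0 _ hi)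
  have hsum : ∑ p ∈ TSf k Q D1 m0, ∏ i, a (p i) = 1 := by
    rw [Finset.sum_eq_single (fun _ => p0 : Fin k → Ch) (fun p _ hp => hne p hp) (fun h => absurd hc h)]
    simp only [ha1, Finset.prod_const_one]
  have hdiff : ∑ p ∈ TSf k Q D1 m0, ∏ i, ((MX p0 (fun _ => 0) 0 (p i) + e i (p i)) * cj (p i) (m i)) - 1 =
      ∑ p ∈ TSf k Q D1 m0, (∏ i, (a (p i) + b i (p i)) - ∏ i, a (p i)) := by
    rw [Finset.sum_sub_distrib, hsum]
    simp only [e1]
  have hnn : ∀ p : Fin k → Ch, 0 ≤ ∏ i, (‖a (p i)‖ + ‖b i (p i)‖) - ∏ i, ‖a (p i)‖ := fun p =>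
    (norm_nonneg _).trans (Pool.Agent.H9A.n2_prod Finset.univ (fun i => a (p i)) (fun i => b i (p i)))
  have hall : ∑ p ∈ Fintype.piFinset (fun _ : Fin k => PC Q), (∏ i, (‖a (p i)‖ + ‖b i (p i)‖) - ∏ i, ‖a (p i)‖) =
      ∏ i : Fin k, ∑ q ∈ PC Q, (‖a q‖ + ‖b i q‖) - ∏ _i : Fin k, ∑ q ∈ PC Q, ‖a q‖ := by
    rw [Finset.sum_sub_distrib, Finset.prod_univ_sum, Finset.prod_univ_sum]
  have hsa : ∑ q ∈ PC Q, ‖a q‖ = 1 := by
    rw [Finset.sum_eq_single p0 (fun q _ hq => by rw [ha0 q hq, norm_zero]) (fun h => absurd hp0 h), ha1, norm_one]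
  have hsb : ∀ i, ∑ q ∈ PC Q, ‖b i q‖ ≤ E0 := by
    intro i
    refine (Finset.sum_le_sum fun q _ => ?_).trans (he i)
    rw [hb, norm_mul]
    exact mul_le_of_le_one_right (norm_nonneg _) (Pool.Agent.Lib.H59P.c3_cj_norm q (m i))
  rw [hdiff]
  refine (norm_sum_le _ _).trans ?_
  refine (Finset.sum_le_sum fun p _ => Pool.Agent.H9A.n2_prod Finset.univ (fun i => a (p i)) (fun i => b i (p i))).trans ?_
  have hsub : TSf k Q D1 m0 ⊆ Fintype.piFinset (fun _ : Fin k => PC Q) := by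
    intro p hp
    unfold TSf at hp
    exact (Finset.mem_filter.mp hp).1
  refine (Finset.sum_le_sum_of_subset_of_nonneg hsub fun p _ _ => hnn p).trans ?_
  rw [hall, hsa, Finset.prod_const_one]
  refine sub_le_sub_right ?_ 1
  have h3 : ∏ i : Fin k, ∑ q ∈ PC Q, (‖a q‖ + ‖b i q‖) ≤ ∏ _i : Fin k, (1 + E0) := by
    refine Finset.prod_le_prod (fun i _ => Finset.sum_nonneg fun q _ => add_nonneg (norm_nonneg _) (norm_nonneg _)) fun i _ => ?_
    rw [Finset.sum_add_distrib, hsa]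
    exact add_le_add le_rfl (hsb i)
  refine h3.trans (le_of_eq ?_)
  rw [Finset.prod_const, Finset.card_univ, Fintype.card_fin]

/-- Proof. `MDf = ∑_p (∏ c_i(p_i)) MQf Q p φ`, `MQf` is the mean over `n < Q!` of `Phf p (pr Q) (at' φ n) = ∏_i (cj (p_i) (φ_i n) uu (pr Q) (φ_i n))`; so `MDf` is the mean of
`∏_i uu (pr Q) (φ_i n) ≥ 0` times the sum in `U7_pt`, and `SSf (pr Q) φ` is the mean of `∏_i uu (pr Q) (φ_i n)` (`P3_SS`). Compare `N2_cell` (second half). -/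
theorem U7_cell {k : ℕ} (Q m0 : ℕ) (hQ : 1 ≤ Q) (hcond : m0 ≤ fl Q (1 / 16)) (φ : Fin k → ℤ → ℤ) (hφ : Cp φ)
    (E0 : ℝ) (e c : Fin k → Ch → ℂ) (he : ∀ i, ∑ p ∈ PC Q, ‖e i p‖ ≤ E0)
    (hc : ∀ i p, c i p = MX p0 (fun _ => 0) 0 p + e i p) :
    ‖MDf Q m0 c φ - ((SSf (pr Q) φ : ℝ) : ℂ)‖ ≤ ((1 + E0) ^ k - 1) * SSf (pr Q) φ := by
  classical
  have hQ0 : (0 : ℝ) < (Q.factorial : ℝ) := by exact_mod_cast Nat.factorial_pos Q
  have hU : ∀ n : ℤ, 0 ≤ ∏ i : Fin k, uu (pr Q) (φ i n) := fun n =>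
    Finset.prod_nonneg fun i _ => Pool.Agent.Lib.H59P.M3a_uu_nonneg _ (Pool.Agent.Lib.H59P.c3_pr Q) _
  have h1 : MDf Q m0 c φ =
      (∑ n ∈ range Q.factorial, ((∏ i : Fin k, uu (pr Q) (φ i (n : ℤ)) : ℝ) : ℂ) *
        ∑ p ∈ TSf k Q (fl Q (1 / 16)) m0, ∏ i, ((MX p0 (fun _ => 0) 0 (p i) + e i (p i)) * cj (p i) (φ i (n : ℤ)))) /
        ((Q.factorial : ℝ) : ℂ) := by
    unfold MDf MQf
    rw [Finset.sum_div]
    simp only [Finset.mul_sum, Finset.sum_div, mul_div_assoc']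
    rw [Finset.sum_comm]
    refine Finset.sum_congr rfl fun n _ => ?_
    refine Finset.sum_congr rfl fun p _ => ?_
    unfold Phf at'
    simp only [hc]
    rw [Finset.prod_mul_distrib, Finset.prod_mul_distrib, Complex.ofReal_prod]
    push_cast
    ring
  rw [h1, ← P3_SS φ hφ Q]
  rw [Complex.ofReal_div, ← sub_div, norm_div, Complex.norm_real, Real.norm_eq_abs, abs_of_pos hQ0, mul_div_assoc']
  refine div_le_div_of_nonneg_right ?_ hQ0.le
  rw [Complex.ofReal_sum, ← Finset.sum_sub_distrib, Finset.mul_sum]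
  refine (norm_sum_le _ _).trans (Finset.sum_le_sum fun n _ => ?_)
  have e2 : ∀ U V : ℂ, U * V - U = U * (V - 1) := fun U V => by ring
  rw [e2, norm_mul, Complex.norm_real, Real.norm_eq_abs, abs_of_nonneg (hU n)]
  have hpt := U7_pt Q (fl Q (1 / 16)) m0 hQ hcond E0 e he (fun i => φ i (n : ℤ))
  refine (mul_le_mul_of_nonneg_left hpt (hU n)).trans (le_of_eq ?_)
  ring

/-- **U7.** Proof. As `R15_main` (`HUP/R15.lean`, port of `Z3_main`) with `U7_cell` (`k + 1` coordinates, `φ = sys B P h`, `Cp` by `P2_sys`) for every `n ∈ [X1, 2 X1)`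
and the triangle inequality; `MX p0 (fun _ => 0) m p = MX p0 (fun _ => 0) 0 p`; `GeoV.small` instead of `hP8`. -/
theorem U7_main {k : ℕ} (P : Fin k → ℤ[X]) (A Q X X1 Y : ℕ) (hQ : 1 ≤ Q) (M : Fin k → ℕ) (B : ℤ[X])
    (hG : GeoV Q X X1 P M) (hGB : GeoB A X X1 Y B) (hcond : B.leadingCoeff.natAbs ≤ fl Q (1 / 16)) (E0 : ℝ)
    (e0 : ℤ → Ch → ℂ) (eb0 : Ch → ℝ) (heb0 : ∀ p ∈ PC (Q ^ 100), 0 ≤ eb0 p)
    (hs0 : ∑ p ∈ PC (Q ^ 100), eb0 p ≤ E0)
    (he0 : ∀ m : ℤ, (Y : ℤ) ≤ m → m ≤ 4 * Y → ∀ p ∈ PC (Q ^ 100), ‖e0 m p‖ ≤ eb0 p)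
    (e : Fin k → ℤ → Ch → ℂ) (eb : Fin k → Ch → ℝ) (hs : ∀ i, ∑ p ∈ PC Q, eb i p ≤ E0)
    (he : ∀ i, ∀ m : ℤ, (Ysc (M i) : ℤ) ≤ m → m ≤ 4 * Ysc (M i) → ∀ p ∈ PC Q, ‖e i m p‖ ≤ eb i p)
    (h0 : Fin k → ℕ) (hh0 : h0 ∈ cub M M) (h : Fin k → ℕ) :
    ‖MZb Q X1 (B.leadingCoeff.natAbs * 1) P B (fun m p => MX p0 (fun _ => 0) m p + e0 m p)
      (fun i m p => MX p0 (fun _ => 0) m p + e i m p) h0 h - ((X1 * SSf (pr Q) (sys B P h) : ℝ) : ℂ)‖ ≤
      X1 * (((1 + E0) ^ (k + 1) - 1) * SSf (pr Q) (sys B P h)) := by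
  have hX1 : 0 < X1 := hG.pos
  have hQ8 : Q ^ 8 ∣ X1 := (pow_dvd_pow Q (by norm_num)).trans hG.dvd
  have hbs : ∀ (D N n : ℕ), D ∣ N → 0 < N → n ∈ Ico N (2 * N) → bs (N / D) n ∈ Ico N (2 * N) := by
    intro D N n hD hN hn
    rw [mem_Ico] at hn ⊢
    obtain ⟨q, rfl⟩ := hD
    have hD0 : 0 < D := Nat.pos_of_ne_zero (by rintro rfl; simp at hN)
    have hq0 : 0 < q := Nat.pos_of_ne_zero (by rintro rfl; simp at hN)
    rw [Nat.mul_div_cancel_left q hD0]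
    unfold bs
    constructor
    · have h1 : D ≤ n / q := by
        rw [Nat.le_div_iff_mul_le hq0]
        exact hn.1
      exact Nat.mul_le_mul_right q h1
    · exact lt_of_le_of_lt (Nat.div_mul_le_self n q) hn.2
  have hh' : ∀ i, h0 i ∈ Ico (M i) (2 * M i) := by
    intro i
    have h1 := Fintype.mem_piFinset.1 hh0 i
    rw [mem_Ico] at h1 ⊢
    omega
  have hY : ∀ n ∈ Ico X1 (2 * X1), (Y : ℤ) ≤ B.eval ((bs (X1 / Q ^ 800) n : ℕ) : ℤ) ∧
      B.eval ((bs (X1 / Q ^ 800) n : ℕ) : ℤ) ≤ 4 * Y := by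
    intro n hn
    have h1 := hbs _ X1 n hG.dvd hX1 hn
    have h2 := hGB.lo _ h1
    have h3 := hGB.hi _ h1
    exact ⟨h2, by linarith⟩
  have hYi : ∀ n ∈ Ico X1 (2 * X1), ∀ i, (Ysc (M i) : ℤ) ≤ (P i).eval ((bs (X1 / Q ^ 8) n : ℕ) : ℤ) + (h0 i : ℤ) ∧
      (P i).eval ((bs (X1 / Q ^ 8) n : ℕ) : ℤ) + (h0 i : ℤ) ≤ 4 * Ysc (M i) := by
    intro n hn i
    have h1 := hbs _ X1 n hQ8 hX1 hn
    obtain ⟨h3, h4, -⟩ := G2_val (M i) _ _ ((Dvd.intro _ rfl : 8 ∣ 8 * Q ^ 8).trans (hG.dvdM i))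
      (hG.small i _ h1) (hh' i)
    constructor
    · exact h3
    · have h5 : (0 : ℤ) ≤ Ysc (M i) := by positivity
      linarith
  have hsub : PC Q ⊆ PC (Q ^ 100) := by
    intro p hp
    rw [mem_PC] at hp ⊢
    exact ⟨hp.1, hp.2.1.trans (Nat.le_self_pow (by norm_num) Q), hp.2.2⟩
  have hcell : ∀ n ∈ Ico X1 (2 * X1), ‖MDf Q (B.leadingCoeff.natAbs * 1)
      (cfb Q X1 P B (fun m p => MX p0 (fun _ => 0) m p + e0 m p) (fun i m p => MX p0 (fun _ => 0) m p + e i m p) h0 n)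
      (sys B P h) - ((SSf (pr Q) (sys B P h) : ℝ) : ℂ)‖ ≤ ((1 + E0) ^ (k + 1) - 1) * SSf (pr Q) (sys B P h) := by
    intro n hn
    refine U7_cell (k := k + 1) Q (B.leadingCoeff.natAbs * 1) hQ (by rw [mul_one]; exact hcond) (sys B P h)
      (P2_sys B P h) E0
      (Fin.cons (e0 (B.eval ((bs (X1 / Q ^ 800) n : ℕ) : ℤ)))
        (fun i => e i ((P i).eval ((bs (X1 / Q ^ 8) n : ℕ) : ℤ) + (h0 i : ℤ)))) _ ?_ ?_
    · intro i
      refine Fin.cases ?_ (fun i => ?_) i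
      · simp only [Fin.cons_zero]
        refine (Finset.sum_le_sum fun p hp => he0 _ (hY n hn).1 (hY n hn).2 p (hsub hp)).trans ?_
        exact (Finset.sum_le_sum_of_subset_of_nonneg hsub fun p hp _ => heb0 p hp).trans hs0
      · simp only [Fin.cons_succ]
        exact (Finset.sum_le_sum fun p hp => he i _ (hYi n hn i).1 (hYi n hn i).2 p hp).trans (hs i)
    · intro i
      refine Fin.cases ?_ (fun i => ?_) i
      · intro p
        rfl
      · intro p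
        rfl
  unfold MZb
  have h1 := Finset.sum_le_sum hcell
  rw [Finset.sum_const, Nat.card_Ico, nsmul_eq_mul] at h1
  have h2 : 2 * X1 - X1 = X1 := by omega
  rw [h2] at h1
  have h3 : ((X1 * SSf (pr Q) (sys B P h) : ℝ) : ℂ) = ∑ n ∈ Ico X1 (2 * X1), ((SSf (pr Q) (sys B P h) : ℝ) : ℂ) := by
    rw [Finset.sum_const, Nat.card_Ico, h2, nsmul_eq_mul]
    push_cast
    rfl
  rw [h3, ← Finset.sum_sub_distrib]
  exact (norm_sum_le _ _).trans h1

end Pool.Agent.H9P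
end

-- from Lib.H9P.U1
section

/-!
# ASYP, chunk U1 (S/M): the geometry
-/

open Finset Polynomial

namespace Pool.Agent.H9P

open Pool.Agent.Lib.H68T Pool.Agent.Lib.H18Q Pool.Agent.Lib.H59P Pool.Agent.Lib.H24P
open Pool.Agent.HUP

/-- The values of a polynomial with small coefficients. -/
theorem u1_small (A X1 m n : ℕ) (P : ℤ[X]) (hd : P.natDegree ≤ A)
    (hlo : ∀ j, 1000 * (A + 1) ^ 2 * (P.coeff j).natAbs * (2 * X1) ^ j ≤ m) (hn : n < 2 * X1) :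
    8 * |P.eval (n : ℤ)| ≤ m := by
  have hloz : ∀ j, 1000 * ((A : ℤ) + 1) ^ 2 * |P.coeff j| * (2 * (X1 : ℤ)) ^ j ≤ m := by
    intro j
    have h1 : ((1000 * (A + 1) ^ 2 * (P.coeff j).natAbs * (2 * X1) ^ j : ℕ) : ℤ) ≤ (m : ℤ) := by
      exact_mod_cast hlo j
    push_cast at h1
    exact h1
  have hn0 : (0 : ℤ) ≤ n := by positivity
  have hn2 : (n : ℤ) ≤ 2 * X1 := by
    have := hn.le
    exact_mod_cast this
  have hA : (0 : ℤ) ≤ A := by positivity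
  have h2 : |P.eval (n : ℤ)| ≤ ∑ j ∈ range (P.natDegree + 1), |P.coeff j| * (2 * (X1 : ℤ)) ^ j := by
    rw [eval_eq_sum_range]
    refine (abs_sum_le_sum_abs _ _).trans (sum_le_sum fun j _ => ?_)
    rw [abs_mul, abs_of_nonneg (by positivity : (0 : ℤ) ≤ (n : ℤ) ^ j)]
    exact mul_le_mul_of_nonneg_left (pow_le_pow_left₀ hn0 hn2 j) (abs_nonneg _)
  have h3 : 1000 * ((A : ℤ) + 1) ^ 2 * ∑ j ∈ range (P.natDegree + 1), |P.coeff j| * (2 * (X1 : ℤ)) ^ j ≤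
      ((A : ℤ) + 1) * m := by
    rw [mul_sum]
    refine (sum_le_sum fun j _ => ?_).trans (b := ∑ j ∈ range (P.natDegree + 1), (m : ℤ)) ?_
    · have := hloz j
      linarith
    · rw [sum_const, card_range, nsmul_eq_mul]
      refine mul_le_mul_of_nonneg_right ?_ (by positivity)
      push_cast
      have : (P.natDegree : ℤ) ≤ A := by exact_mod_cast hd
      linarith
  set S := ∑ j ∈ range (P.natDegree + 1), |P.coeff j| * (2 * (X1 : ℤ)) ^ j with hS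
  have hS0 : 0 ≤ S := (abs_nonneg _).trans h2
  have h4 : ((A : ℤ) + 1) * (1000 * ((A : ℤ) + 1) * S) ≤ ((A : ℤ) + 1) * m := by
    calc ((A : ℤ) + 1) * (1000 * ((A : ℤ) + 1) * S) = 1000 * ((A : ℤ) + 1) ^ 2 * S := by ring
      _ ≤ _ := h3
  have h5 : 1000 * ((A : ℤ) + 1) * S ≤ m := le_of_mul_le_mul_left h4 (by linarith)
  have h6 : 8 * S ≤ 1000 * ((A : ℤ) + 1) * S := by
    refine mul_le_mul_of_nonneg_right ?_ hS0
    linarith
  linarith

/-- The variation of a polynomial with small coefficients. -/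
theorem u1_slow (A X1 m n n' : ℕ) (P : ℤ[X]) (hd : P.natDegree ≤ A)
    (hlo : ∀ j, 1000 * (A + 1) ^ 2 * (P.coeff j).natAbs * (2 * X1) ^ j ≤ m) (hnn : n ≤ n') (hn : n' < 2 * X1) :
    (X1 : ℤ) * |P.eval (n' : ℤ) - P.eval (n : ℤ)| ≤ ((n' : ℤ) - n) * m := by
  have hloz : ∀ j, 1000 * ((A : ℤ) + 1) ^ 2 * |P.coeff j| * (2 * (X1 : ℤ)) ^ j ≤ m := by
    intro j
    have h1 : ((1000 * (A + 1) ^ 2 * (P.coeff j).natAbs * (2 * X1) ^ j : ℕ) : ℤ) ≤ (m : ℤ) := by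
      exact_mod_cast hlo j
    push_cast at h1
    exact h1
  have hn0 : (0 : ℤ) ≤ n := by positivity
  have hnn' : (n : ℤ) ≤ n' := by exact_mod_cast hnn
  have hn2 : (n' : ℤ) ≤ 2 * X1 := by
    have := hn.le
    exact_mod_cast this
  have hA : (0 : ℤ) ≤ A := by positivity
  have hdn : (0 : ℤ) ≤ (n' : ℤ) - n := by linarith
  have hX0 : (0 : ℤ) ≤ X1 := by positivity
  have hdA : (P.natDegree : ℤ) ≤ A := by exact_mod_cast hd
  have h1 : 2 * (X1 : ℤ) * |P.eval (n' : ℤ) - P.eval (n : ℤ)| ≤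
      ∑ j ∈ range (P.natDegree + 1), |P.coeff j| * (j * (2 * (X1 : ℤ)) ^ j * ((n' : ℤ) - n)) := by
    rw [eval_eq_sum_range, eval_eq_sum_range, ← sum_sub_distrib]
    refine (mul_le_mul_of_nonneg_left (abs_sum_le_sum_abs _ _) (by linarith)).trans ?_
    rw [mul_sum]
    refine sum_le_sum fun j _ => ?_
    obtain ⟨p0, p1⟩ := g2_pow (2 * X1) n n' hn0 hnn' hn2 j
    have h2 : P.coeff j * (n' : ℤ) ^ j - P.coeff j * (n : ℤ) ^ j
        = P.coeff j * ((n' : ℤ) ^ j - (n : ℤ) ^ j) := by ring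
    rw [h2, abs_mul, abs_of_nonneg p0]
    calc 2 * (X1 : ℤ) * (|P.coeff j| * ((n' : ℤ) ^ j - (n : ℤ) ^ j))
        = |P.coeff j| * (2 * (X1 : ℤ) * ((n' : ℤ) ^ j - (n : ℤ) ^ j)) := by ring
      _ ≤ |P.coeff j| * (j * (2 * (X1 : ℤ)) ^ j * ((n' : ℤ) - n)) :=
          mul_le_mul_of_nonneg_left p1 (abs_nonneg _)
  have h2 : 1000 * ((A : ℤ) + 1) ^ 2 * ∑ j ∈ range (P.natDegree + 1),
      |P.coeff j| * (j * (2 * (X1 : ℤ)) ^ j * ((n' : ℤ) - n)) ≤ ((A : ℤ) + 1) ^ 2 * (((n' : ℤ) - n) * m) := by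
    rw [mul_sum]
    refine (sum_le_sum fun j hj => ?_).trans
      (b := ∑ j ∈ range (P.natDegree + 1), (A : ℤ) * (((n' : ℤ) - n) * m)) ?_
    · have hj1 : (j : ℤ) ≤ A := by
        have : j ≤ A := by
          have := mem_range.mp hj
          omega
        exact_mod_cast this
      have hj0 : (0 : ℤ) ≤ j := by positivity
      calc 1000 * ((A : ℤ) + 1) ^ 2 * (|P.coeff j| * (j * (2 * (X1 : ℤ)) ^ j * ((n' : ℤ) - n)))
          = j * (((n' : ℤ) - n) * (1000 * ((A : ℤ) + 1) ^ 2 * |P.coeff j| * (2 * (X1 : ℤ)) ^ j)) := by ring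
        _ ≤ j * (((n' : ℤ) - n) * m) :=
            mul_le_mul_of_nonneg_left (mul_le_mul_of_nonneg_left (hloz j) hdn) hj0
        _ ≤ A * (((n' : ℤ) - n) * m) :=
            mul_le_mul_of_nonneg_right hj1 (mul_nonneg hdn (by positivity))
    · rw [sum_const, card_range, nsmul_eq_mul, ← mul_assoc]
      refine mul_le_mul_of_nonneg_right ?_ (mul_nonneg hdn (by positivity))
      push_cast
      nlinarith
  set S := ∑ j ∈ range (P.natDegree + 1), |P.coeff j| * (j * (2 * (X1 : ℤ)) ^ j * ((n' : ℤ) - n)) with hS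
  have h3 : ((A : ℤ) + 1) ^ 2 * (1000 * S) ≤ ((A : ℤ) + 1) ^ 2 * (((n' : ℤ) - n) * m) := by
    calc ((A : ℤ) + 1) ^ 2 * (1000 * S) = 1000 * ((A : ℤ) + 1) ^ 2 * S := by ring
      _ ≤ _ := h2
  have h4 : 1000 * S ≤ ((n' : ℤ) - n) * m := le_of_mul_le_mul_left h3 (by positivity)
  have h5 : 0 ≤ (X1 : ℤ) * |P.eval (n' : ℤ) - P.eval (n : ℤ)| := mul_nonneg hX0 (abs_nonneg _)
  linarith

/-- Proof. Let `d = deg P_i`, `1 ≤ d ≤ A`, `a_j` the coefficients, `m = M i`; `GeoU.lo`: `1000 (A+1)² |a_j| (2 X1)^j ≤ m`. For `j = d` (`|a_d| ≥ 1`):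
`2 X1 ≤ (2 X1)^d ≤ m`. `|P(n)| ≤ ∑_(j ≤ d) |a_j| (2 X1)^j ≤ (A+1) m/(1000 (A+1)²)`. `P(n') - P(n) = ∑_j a_j (n'^j - n^j)`, `|n'^j - n^j| ≤ (n' - n) j (2 X1)^(j-1)`
(`g2_pow` in `H24P/G2.lean`, see `G2_one` there), so `X1 |P(n') - P(n)| ≤ (n' - n) ∑_j j |a_j| (2 X1)^j ≤ (n' - n) m`, multiply by `Q^8` and divide by `X1` (compare `G2_P`). -/
theorem U1_geo {k : ℕ} (A Q X X1 : ℕ) (P : Fin k → ℤ[X]) (M : Fin k → ℕ) (hP : Pol A P)
    (hG : GeoU A Q X X1 P M) : GeoV Q X X1 P M := by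
  refine ⟨hG.dvd, hG.pos, hG.le, hG.ge, hG.dvdM, fun i => ?_, hG.hi, fun i n hn => ?_,
    fun i n hn n' hn' hnn hQ => ?_⟩
  · have h1 := hG.lo i (P i).natDegree
    have hd := hP.deg i
    have h2 : 1 ≤ ((P i).coeff (P i).natDegree).natAbs := by
      refine Nat.one_le_iff_ne_zero.mpr fun h => ?_
      have h3 : (P i).leadingCoeff = 0 := Int.natAbs_eq_zero.mp h
      rw [leadingCoeff_eq_zero] at h3
      rw [h3, natDegree_zero] at hd
      omega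
    have h3 : 2 * X1 ≤ (2 * X1) ^ (P i).natDegree := le_self_pow₀ (by have := hG.pos; omega) (by omega)
    refine h3.trans (le_trans ?_ h1)
    refine Nat.le_mul_of_pos_left _ (Nat.mul_pos ?_ h2)
    positivity
  · exact u1_small A X1 (M i) n (P i) (hP.degA i) (hG.lo i) (mem_Ico.mp hn).2
  · have h1 := u1_slow A X1 (M i) n n' (P i) (hP.degA i) (hG.lo i) hnn (mem_Ico.mp hn').2
    have hXp : (0 : ℤ) < X1 := by exact_mod_cast hG.pos
    have hQz : ((n' : ℤ) - n) * (Q : ℤ) ^ 8 ≤ X1 := by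
      have h4 : (((n' - n) * Q ^ 8 : ℕ) : ℤ) ≤ X1 := by exact_mod_cast hQ
      push_cast [Nat.cast_sub hnn] at h4
      exact h4
    have h5 : (X1 : ℤ) * ((Q : ℤ) ^ 8 * |(P i).eval (n' : ℤ) - (P i).eval (n : ℤ)|) ≤ X1 * M i := by
      calc (X1 : ℤ) * ((Q : ℤ) ^ 8 * |(P i).eval (n' : ℤ) - (P i).eval (n : ℤ)|)
          = (Q : ℤ) ^ 8 * (X1 * |(P i).eval (n' : ℤ) - (P i).eval (n : ℤ)|) := by ring
        _ ≤ (Q : ℤ) ^ 8 * (((n' : ℤ) - n) * M i) := mul_le_mul_of_nonneg_left h1 (by positivity)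
        _ = (((n' : ℤ) - n) * (Q : ℤ) ^ 8) * M i := by ring
        _ ≤ X1 * M i := mul_le_mul_of_nonneg_right hQz (by positivity)
    exact le_of_mul_le_mul_left h5 hXp


end Pool.Agent.H9P
end
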