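import Pool.Agent.Lib.H59M.M2.M053
import Pool.Agent.Lib.H59M.M2.M066
import Pool.Agent.Lib.H59M.M2.M082
import Pool.Agent.Lib.H59M.M2.M087
import Pool.Agent.Lib.H59M.M2.M102
import Pool.Agent.Lib.H59M.M2.M104
import Pool.Agent.Lib.H59M.M2.M107
import Pool.Agent.Lib.H59M.M2.M109

/-! Merged copies (to shorten the build) of Lib.HUP.FGA8, Lib.HUP.FGA10, Lib.HUP.FGA4, Lib.HUP.FGA9, Lib.HUP.FGA11, Lib.HUP.FGA12, Lib.HUP.FGC4, Lib.HUP.FGC5, Lib.HUP.FGC6, Lib.HUP.FGC7, Lib.HUP.FGC8. -/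

-- from Lib.HUP.FGA8
section

/-!
# Project HUP, chunk FGA8 (M): factorisation of the product of the components
-/

open Finset Polynomial

namespace Pool.Agent.HUP

open Pool.Agent.Lib.H68T Pool.Agent.Lib.H18Q Pool.Agent.Lib.H59P Pool.Agent.Lib.H24P

/-- Proof. `gL (κ i).primeFactors = gL (filter (· ∣ R)) * gL (filter (¬ · ∣ R))` (`Finset.prod_filter_mul_prod_filter_not`), `gL` is real, so
`conj` of it is itself; `∏_i ∏_{l ∈ (κ i).primeFactors, ¬ l ∣ R} G l i = ∏_{l ∈ Po R κ κ'} ∏_{i, l ∣ κ i} G l i` (`Finset.prod_comm'`; `κ i ≠ 0`, the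
elements of `Po` are primes, so `l ∣ κ i ↔ l ∈ (κ i).primeFactors`; compare `KB6_fac` in `HUK/KB6.lean`), the same for `κ'`. -/
theorem FGA8_fac {k d : ℕ} (c : Fin k → Fin d → ℤ) (P : Fin k → ℤ[X]) (β : Fin k → ℤ) (p : Fin k → Ch) (R : ℕ)
    (κ κ' : Fin k → ℕ) (hκ : ∀ i, κ i ≠ 0) (hκ' : ∀ i, κ' i ≠ 0) (n n' : ℤ) (t : Fin d → ℤ) :
    F2 c P β p κ κ' n n' t = FR c P β p R κ κ' n n' t *
      ∏ l ∈ Po R κ κ', Fl c P β (univ.filter fun i => l ∣ κ i) (univ.filter fun i => l ∣ κ' i) l n n' t := by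
  have hR1 : ∀ (κ : ℕ) (m : ℤ), gL κ.primeFactors m =
      gL (κ.primeFactors.filter fun l => l ∣ R) m * gL (κ.primeFactors.filter fun l => ¬ l ∣ R) m := by
    intro κ m
    unfold gL
    exact (Finset.prod_filter_mul_prod_filter_not _ _ _).symm
  have hcj : ∀ (L : Finset ℕ) (m : ℤ), (starRingEnd ℂ) (gL L m) = gL L m := by
    intro L m
    unfold gL
    rw [map_prod]
    exact Finset.prod_congr rfl fun l _ => Complex.conj_ofReal _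
  have h1 : F2 c P β p κ κ' n n' t = FR c P β p R κ κ' n n' t *
      ((∏ i, gL ((κ i).primeFactors.filter fun l => ¬ l ∣ R) (yy c P β i n t)) *
        ∏ i, gL ((κ' i).primeFactors.filter fun l => ¬ l ∣ R) (yy c P β i n' t)) := by
    unfold F2 FR ph
    rw [map_prod, ← Finset.prod_mul_distrib, ← Finset.prod_mul_distrib, ← Finset.prod_mul_distrib]
    refine Finset.prod_congr rfl fun i _ => ?_
    rw [hR1 (κ i), hR1 (κ' i)]
    simp only [map_mul, hcj]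
    ring
  rw [h1]
  congr 1
  unfold Fl
  rw [Finset.prod_mul_distrib]
  have h2 : ∀ (μ : Fin k → ℕ) (m : ℤ), (∀ i, μ i ≠ 0) → (∀ i, (μ i).primeFactors.filter (fun l => ¬ l ∣ R) ⊆ Po R κ κ') →
      ∏ i, gL ((μ i).primeFactors.filter fun l => ¬ l ∣ R) (yy c P β i m t) =
      ∏ l ∈ Po R κ κ', ∏ i ∈ univ.filter (fun i => l ∣ μ i), ((gl l (yy c P β i m t) : ℝ) : ℂ) := by
    intro μ m hμ hμP
    unfold gL
    refine Finset.prod_comm' fun i l => ?_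
    constructor
    · rintro ⟨_, h3⟩
      have h4 := hμP i h3
      rw [Finset.mem_filter] at h3
      exact ⟨Finset.mem_filter.mpr ⟨Finset.mem_univ _, Nat.dvd_of_mem_primeFactors h3.1⟩, h4⟩
    · rintro ⟨h3, h4⟩
      rw [Finset.mem_filter] at h3
      unfold Po at h4
      rw [Finset.mem_filter, Finset.mem_biUnion] at h4
      obtain ⟨⟨j, _, hj⟩, h5⟩ := h4
      have h6 : l.Prime := by
        rcases Finset.mem_union.mp hj with h | h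
        · exact Nat.prime_of_mem_primeFactors h
        · exact Nat.prime_of_mem_primeFactors h
      exact ⟨Finset.mem_univ _, Finset.mem_filter.mpr ⟨Nat.mem_primeFactors.mpr ⟨h6, h3.2, hμ i⟩, h5⟩⟩
  rw [h2 κ n hκ, h2 κ' n' hκ']
  · intro i l hl
    rw [Finset.mem_filter] at hl
    unfold Po
    rw [Finset.mem_filter, Finset.mem_biUnion]
    exact ⟨⟨i, Finset.mem_univ _, Finset.mem_union_right _ hl.1⟩, hl.2⟩
  · intro i l hl
    rw [Finset.mem_filter] at hl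
    unfold Po
    rw [Finset.mem_filter, Finset.mem_biUnion]
    exact ⟨⟨i, Finset.mem_univ _, Finset.mem_union_left _ hl.1⟩, hl.2⟩

/-- Clear (`l` prime, `¬ l ∣ R`: coprime; `l` divides some `κ i` or `κ' i`). -/
theorem FGA8_po {k : ℕ} (R : ℕ) (κ κ' : Fin k → ℕ) (l : ℕ) (hl : l ∈ Po R κ κ') :
    l.Prime ∧ Nat.Coprime l R ∧ 1 ≤ (univ.filter fun i => l ∣ κ i).card + (univ.filter fun i => l ∣ κ' i).card := by
  unfold Po at hl
  rw [Finset.mem_filter, Finset.mem_biUnion] at hl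
  obtain ⟨⟨j, _, hj⟩, h5⟩ := hl
  rcases Finset.mem_union.mp hj with h | h
  · have h6 := Nat.prime_of_mem_primeFactors h
    refine ⟨h6, (Nat.Prime.coprime_iff_not_dvd h6).mpr h5, ?_⟩
    have h7 : 0 < (univ.filter fun i => l ∣ κ i).card :=
      Finset.card_pos.mpr ⟨j, Finset.mem_filter.mpr ⟨Finset.mem_univ _, Nat.dvd_of_mem_primeFactors h⟩⟩
    omega
  · have h6 := Nat.prime_of_mem_primeFactors h
    refine ⟨h6, (Nat.Prime.coprime_iff_not_dvd h6).mpr h5, ?_⟩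
    have h7 : 0 < (univ.filter fun i => l ∣ κ' i).card :=
      Finset.card_pos.mpr ⟨j, Finset.mem_filter.mpr ⟨Finset.mem_univ _, Nat.dvd_of_mem_primeFactors h⟩⟩
    omega

/-- A product of distinct primes is squarefree. -/
theorem fga8_sqf (S : Finset ℕ) (hS : ∀ l ∈ S, l.Prime) : Squarefree (∏ l ∈ S, l) := by
  classical
  induction S using Finset.induction_on with
  | empty => exact squarefree_one
  | insert a S ha ih =>
    rw [Finset.prod_insert ha, Nat.squarefree_mul_iff]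
    refine ⟨?_, (hS a (Finset.mem_insert_self _ _)).squarefree, ih fun l hl => hS l (Finset.mem_insert_of_mem hl)⟩
    refine Nat.Coprime.prod_right fun l hl => ?_
    refine (Nat.coprime_primes (hS a (Finset.mem_insert_self _ _)) (hS l (Finset.mem_insert_of_mem hl))).mpr ?_
    rintro rfl
    exact ha hl

theorem FGA8_pos {k : ℕ} (R : ℕ) (κ κ' : Fin k → ℕ) : 1 ≤ mo R κ κ' ∧ (mo R κ κ').primeFactors = Po R κ κ' ∧
    Squarefree (mo R κ κ') := by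
  have hp : ∀ l ∈ Po R κ κ', l.Prime := fun l hl => (FGA8_po R κ κ' l hl).1
  unfold mo
  refine ⟨Finset.prod_pos fun l hl => (hp l hl).pos, Nat.primeFactors_prod hp, ?_⟩
  exact fga8_sqf _ hp

/-- Proof. `κ i` is squarefree and each of its primes divides `R` or `mo`: `κ i = (∏ of the primes dividing R) * (∏ of the others)`, the first
product divides `R`, the second `mo`. `r i` divides `R` and is coprime to `κ i`, so `r i * κ i ∣ R * mo`; `Finset.lcm_dvd`. -/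
theorem FGA8_dvd {k : ℕ} (r : Fin k → ℕ) (R : ℕ) (hR : R = univ.lcm r) (κ κ' : Fin k → ℕ) (h1 : ∀ i, Squarefree (κ i))
    (h2 : ∀ i, Nat.Coprime (κ i) (r i)) (h1' : ∀ i, Squarefree (κ' i)) :
    (∀ i, κ i ∣ R * mo R κ κ') ∧ (∀ i, κ' i ∣ R * mo R κ κ') ∧ univ.lcm (fun i => r i * κ i) ∣ R * mo R κ κ' := by
  have hR2 : ∀ i, r i ∣ R := fun i => hR ▸ Finset.dvd_lcm (Finset.mem_univ i)
  have key : ∀ (μ : ℕ) (ρ : ℕ), Squarefree μ → (μ.primeFactors.filter (fun l => ¬ l ∣ R) ⊆ Po R κ κ') → ρ ∣ R →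
      Nat.Coprime μ ρ → ρ * μ ∣ R * mo R κ κ' := by
    intro μ ρ hμ hμP hρ hμρ
    have h3 : μ = (∏ l ∈ μ.primeFactors.filter (fun l => l ∣ R), l) * ∏ l ∈ μ.primeFactors.filter (fun l => ¬ l ∣ R), l := by
      rw [Finset.prod_filter_mul_prod_filter_not, Nat.prod_primeFactors_of_squarefree hμ]
    have h4 : (∏ l ∈ μ.primeFactors.filter (fun l => l ∣ R), l) ∣ R := by
      refine Finset.prod_primes_dvd R (fun l hl => ?_) (fun l hl => (Finset.mem_filter.mp hl).2)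
      exact (Nat.prime_of_mem_primeFactors (Finset.mem_filter.mp hl).1).prime
    have h5 : (∏ l ∈ μ.primeFactors.filter (fun l => ¬ l ∣ R), l) ∣ mo R κ κ' := by
      unfold mo
      exact Finset.prod_dvd_prod_of_subset _ _ _ hμP
    have h6 : Nat.Coprime ρ (∏ l ∈ μ.primeFactors.filter (fun l => l ∣ R), l) := by
      refine Nat.Coprime.symm (Nat.Coprime.coprime_dvd_left ?_ hμρ)
      exact ⟨_, h3⟩
    have h7 : ρ * (∏ l ∈ μ.primeFactors.filter (fun l => l ∣ R), l) ∣ R := h6.mul_dvd_of_dvd_of_dvd hρ h4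
    have h8 := mul_dvd_mul h7 h5
    rw [mul_assoc, ← h3] at h8
    exact h8
  have hs : ∀ i, (κ i).primeFactors.filter (fun l => ¬ l ∣ R) ⊆ Po R κ κ' := by
    intro i l hl
    rw [Finset.mem_filter] at hl
    unfold Po
    rw [Finset.mem_filter, Finset.mem_biUnion]
    exact ⟨⟨i, Finset.mem_univ _, Finset.mem_union_left _ hl.1⟩, hl.2⟩
  have hs' : ∀ i, (κ' i).primeFactors.filter (fun l => ¬ l ∣ R) ⊆ Po R κ κ' := by
    intro i l hl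
    rw [Finset.mem_filter] at hl
    unfold Po
    rw [Finset.mem_filter, Finset.mem_biUnion]
    exact ⟨⟨i, Finset.mem_univ _, Finset.mem_union_right _ hl.1⟩, hl.2⟩
  refine ⟨fun i => ?_, fun i => ?_, Finset.lcm_dvd fun i _ => key (κ i) (r i) (h1 i) (hs i) (hR2 i) (h2 i)⟩
  · have h3 := key (κ i) 1 (h1 i) (hs i) (one_dvd _) (Nat.coprime_one_right _)
    rwa [one_mul] at h3
  · have h3 := key (κ' i) 1 (h1' i) (hs' i) (one_dvd _) (Nat.coprime_one_right _)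
    rwa [one_mul] at h3

/-- Proof. `R ∣ ∏ r i`, and `mo` (a product of distinct primes, each dividing some `κ i` or `κ' i`) divides `∏ κ i * κ' i`. -/
theorem FGA8_le {k : ℕ} (r : Fin k → ℕ) (R : ℕ) (hR : R = univ.lcm r) (hr : ∀ i, 1 ≤ r i) (κ κ' : Fin k → ℕ)
    (h1 : ∀ i, 1 ≤ κ i) (h1' : ∀ i, 1 ≤ κ' i) : R * mo R κ κ' ≤ ∏ i, r i * κ i * κ' i := by
  have h3 : R ≤ ∏ i, r i := by
    refine Nat.le_of_dvd (Finset.prod_pos fun i _ => hr i) ?_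
    rw [hR]
    exact Finset.lcm_dvd fun i hi => Finset.dvd_prod_of_mem r hi
  have h4 : mo R κ κ' ≤ ∏ i, κ i * κ' i := by
    refine Nat.le_of_dvd (Finset.prod_pos fun i _ => Nat.mul_pos (h1 i) (h1' i)) ?_
    unfold mo
    refine Finset.prod_primes_dvd _ (fun l hl => (FGA8_po R κ κ' l hl).1.prime) fun l hl => ?_
    unfold Po at hl
    rw [Finset.mem_filter, Finset.mem_biUnion] at hl
    obtain ⟨⟨j, _, hj⟩, _⟩ := hl
    refine dvd_trans ?_ (Finset.dvd_prod_of_mem (fun i => κ i * κ' i) (Finset.mem_univ j))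
    rcases Finset.mem_union.mp hj with h | h
    · exact Dvd.dvd.mul_right (Nat.dvd_of_mem_primeFactors h) _
    · exact Dvd.dvd.mul_left (Nat.dvd_of_mem_primeFactors h) _
  have h5 : ∏ i, r i * κ i * κ' i = (∏ i, r i) * ∏ i, κ i * κ' i := by
    rw [← Finset.prod_mul_distrib]
    exact Finset.prod_congr rfl fun i _ => by ring
  rw [h5]
  exact Nat.mul_le_mul h3 h4

end Pool.Agent.HUP
end

-- from Lib.HUP.FGA10
section

/-!
# Project HUP, chunk FGA10 (M): the series over the pairs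
-/

open Finset

namespace Pool.Agent.HUP

open Pool.Agent.Lib.H18Q (KS)

/-- The number of pairs with given `mo` is bounded. Proof. For such a pair all `κ i` and `κ' i` divide `R * m` (`FGA8_dvd`), so the filter is
contained in a product of two copies of `Fintype.piFinset fun _ => (R * m).divisors`. -/
theorem FGA10_fib {k : ℕ} (Q : ℕ) (r : Fin k → ℕ) (R : ℕ) (hR : R = univ.lcm r) (hr : ∀ i, 1 ≤ r i)
    (T : Finset (Fin k → ℕ)) (hT : ∀ κ ∈ T, ∀ i, κ i ∈ KS Q (r i)) (m : ℕ) (hm : 1 ≤ m) :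
    (((T ×ˢ T).filter fun x => mo R x.1 x.2 = m).card : ℝ) ≤ ((R * m).divisors.card : ℝ) ^ (2 * k) := by
  have hR0 : R ≠ 0 := by
    rw [hR]
    intro h0
    rw [Finset.lcm_eq_zero_iff] at h0
    obtain ⟨i, _, hi⟩ := h0
    have := hr i
    omega
  have hsub : ((T ×ˢ T).filter fun x => mo R x.1 x.2 = m) ⊆
      (Fintype.piFinset fun _ : Fin k => (R * m).divisors) ×ˢ (Fintype.piFinset fun _ : Fin k => (R * m).divisors) := by
    intro x hx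
    rw [mem_filter, mem_product] at hx
    obtain ⟨⟨hx1, hx2⟩, hx3⟩ := hx
    have h1 : ∀ κ ∈ T, ∀ i, Squarefree (κ i) ∧ Nat.Coprime (κ i) (r i) := by
      intro κ hκ i
      have h := hT κ hκ i
      unfold KS at h
      rw [mem_filter] at h
      exact h.2
    have h2 := FGA8_dvd r R hR x.1 x.2 (fun i => (h1 _ hx1 i).1) (fun i => (h1 _ hx1 i).2) (fun i => (h1 _ hx2 i).1)
    rw [hx3] at h2
    rw [mem_product, Fintype.mem_piFinset, Fintype.mem_piFinset]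
    have h3 : R * m ≠ 0 := Nat.mul_ne_zero hR0 (by omega)
    exact ⟨fun i => Nat.mem_divisors.2 ⟨h2.1 i, h3⟩, fun i => Nat.mem_divisors.2 ⟨h2.2.1 i, h3⟩⟩
  have h1 := card_le_card hsub
  rw [card_product, Fintype.card_piFinset, prod_const, card_univ, Fintype.card_fin] at h1
  rw [two_mul, pow_add]
  exact_mod_cast h1

theorem fga10_num (x y z c D F A B : ℝ) (hx : 1 ≤ x) (hy : 1 ≤ y) (hz : 1 ≤ z) (hzx : z ≤ x * y) (hc : 0 < c)
    (hc1 : c ≤ 1) (_hD : 0 ≤ D) (hDA : D ≤ A * y ^ (1 / 4 : ℝ)) (hA : 0 ≤ A) (_hF : 0 ≤ F)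
    (hFB : F ≤ B * (x * y) ^ (c / 8)) (hB : 0 ≤ B) :
    F * Real.sqrt (x ^ (-c) * (D / y ^ 3)) ≤ B * Real.sqrt A * z ^ (-(c / 8)) * y ^ (-(9 / 8 : ℝ)) := by
  have hx0 : 0 < x := by linarith
  have hy0 : 0 < y := by linarith
  have hz0 : 0 < z := by linarith
  have h1 : Real.sqrt (x ^ (-c) * (D / y ^ 3)) ≤ Real.sqrt A * (x ^ (-(c / 2)) * y ^ (-(11 / 8 : ℝ))) := by
    have h2 : x ^ (-c) * (D / y ^ 3) ≤ A * (x ^ (-(c / 2)) * y ^ (-(11 / 8 : ℝ))) ^ 2 := by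
      have h3 : (x ^ (-(c / 2)) * y ^ (-(11 / 8 : ℝ))) ^ 2 = x ^ (-c) * (y ^ (1 / 4 : ℝ) / y ^ 3) := by
        rw [mul_pow, ← Real.rpow_mul_natCast hx0.le, ← Real.rpow_mul_natCast hy0.le, ← Real.rpow_natCast y 3,
          ← Real.rpow_sub hy0]
        congr 1
        · congr 1
          push_cast
          ring
        · congr 1
          push_cast
          norm_num
      rw [h3]
      calc x ^ (-c) * (D / y ^ 3) ≤ x ^ (-c) * (A * y ^ (1 / 4 : ℝ) / y ^ 3) := by gcongr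
        _ = A * (x ^ (-c) * (y ^ (1 / 4 : ℝ) / y ^ 3)) := by ring
    calc Real.sqrt (x ^ (-c) * (D / y ^ 3)) ≤ Real.sqrt (A * (x ^ (-(c / 2)) * y ^ (-(11 / 8 : ℝ))) ^ 2) := Real.sqrt_le_sqrt h2
      _ = Real.sqrt A * (x ^ (-(c / 2)) * y ^ (-(11 / 8 : ℝ))) := by
          rw [Real.sqrt_mul hA, Real.sqrt_sq (by positivity)]
  have h4 : (x * y) ^ (-(c / 8)) ≤ z ^ (-(c / 8)) := by
    apply Real.rpow_le_rpow_of_nonpos hz0 hzx
    linarith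
  calc F * Real.sqrt (x ^ (-c) * (D / y ^ 3))
      ≤ (B * (x * y) ^ (c / 8)) * (Real.sqrt A * (x ^ (-(c / 2)) * y ^ (-(11 / 8 : ℝ)))) :=
        mul_le_mul hFB h1 (Real.sqrt_nonneg _) (by positivity)
    _ = B * Real.sqrt A * ((x ^ (c / 8) * x ^ (-(c / 2))) * (y ^ (c / 8) * y ^ (-(11 / 8 : ℝ)))) := by
        rw [Real.mul_rpow hx0.le hy0.le]
        ring
    _ = B * Real.sqrt A * (x ^ (c / 8 + -(c / 2)) * y ^ (c / 8 + -(11 / 8 : ℝ))) := by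
        rw [← Real.rpow_add hx0, ← Real.rpow_add hy0]
    _ ≤ B * Real.sqrt A * (x ^ (-(c / 8)) * y ^ (-(c / 8) + -(9 / 8 : ℝ))) := by
        apply mul_le_mul_of_nonneg_left _ (by positivity)
        apply mul_le_mul _ _ (by positivity) (by positivity)
        · apply Real.rpow_le_rpow_of_exponent_le hx
          linarith
        · apply Real.rpow_le_rpow_of_exponent_le hy
          linarith
    _ = B * Real.sqrt A * ((x * y) ^ (-(c / 8)) * y ^ (-(9 / 8 : ℝ))) := by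
        rw [Real.mul_rpow hx0.le hy0.le, Real.rpow_add hy0]
        ring
    _ ≤ B * Real.sqrt A * (z ^ (-(c / 8)) * y ^ (-(9 / 8 : ℝ))) := by
        apply mul_le_mul_of_nonneg_left _ (by positivity)
        exact mul_le_mul_of_nonneg_right h4 (by positivity)
    _ = _ := by ring

/-- Proof. `divisor_bound` (`H21AP/DivisorBound.lean`, see `KB8_series` in `HUK/KB8.lean`) with `ε` so small that `2 k ε ≤ c0/4`, `2 k ε ≤ 1/16` and
`b ε ≤ 1/8`: `d(R m)^(2k) ≤ C (R m)^(2kε) ≤ C R^(c0/4) m^(1/8)` and `(d(m)^b)^(1/2) ≤ C m^(1/8)`. The sum is `∑_{x ∈ T ×ˢ T}`, a sum over the values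
`m` of `mo R x.1 x.2` (`sum_fiberwise_of_maps_to` to the image) of at most (`FGA10_fib`)
`C R^(c0/4) m^(1/8) * R^(-c0/2) * C m^(1/8) m^(-3/2) = C² R^(-c0/4) m^(-5/4)`. For every such `m`: `W < univ.lcm (..) ≤ R m` (`FGA8_dvd`), so with
`ρ = min (c0/4) (1/8)`: `R^(-c0/4) m^(-1/8) ≤ (R m)^(-ρ) ≤ W^(-ρ)`. So the total is at most `C² W^(-ρ) ∑_m m^(-9/8)`, a convergent series. -/
theorem FGA10 (k b : ℕ) (c0 : ℝ) (hc0 : 0 < c0) (hc1 : c0 ≤ 1) : ∃ C ρ : ℝ, 0 < C ∧ 0 < ρ ∧ ρ ≤ 1 ∧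
    ∀ (Q W R : ℕ) (r : Fin k → ℕ), R = univ.lcm r → (∀ i, 1 ≤ r i) → 1 ≤ W → ∀ T : Finset (Fin k → ℕ),
    (∀ κ ∈ T, ∀ i, κ i ∈ KS Q (r i)) → (∀ κ ∈ T, W < univ.lcm (fun i => r i * κ i)) →
    ∑ κ ∈ T, ∑ κ' ∈ T, Real.sqrt ((R : ℝ) ^ (-c0) * (((mo R κ κ').divisors.card : ℝ) ^ b / (mo R κ κ' : ℝ) ^ 3)) ≤
      C * (W : ℝ) ^ (-ρ) := by
  set N := 2 * k + b + 1 with hN
  have hN0 : (0 : ℝ) < N := by
    rw [hN]
    push_cast
    positivity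
  obtain ⟨C0, hC0, hd⟩ := Pool.Agent.Lib.H21AP.divisor_bound (ε := c0 / (8 * N)) (by positivity)
  have hsum : Summable fun n : ℕ => (n : ℝ) ^ (-(9 / 8 : ℝ)) := Real.summable_nat_rpow.2 (by norm_num)
  have hnn : ∀ n : ℕ, 0 ≤ (n : ℝ) ^ (-(9 / 8 : ℝ)) := fun n => by positivity
  have hS0 : 0 ≤ ∑' n : ℕ, (n : ℝ) ^ (-(9 / 8 : ℝ)) := tsum_nonneg hnn
  refine ⟨C0 ^ (2 * k) * Real.sqrt (C0 ^ b) * ((∑' n : ℕ, (n : ℝ) ^ (-(9 / 8 : ℝ))) + 1), c0 / 8, ?_, by positivity,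
    by linarith, ?_⟩
  · have : 0 < (∑' n : ℕ, (n : ℝ) ^ (-(9 / 8 : ℝ))) + 1 := by linarith
    positivity
  intro Q W R r hR hr hW T hT hTW
  have hR0 : 1 ≤ R := by
    rw [Nat.one_le_iff_ne_zero, hR]
    intro h0
    rw [Finset.lcm_eq_zero_iff] at h0
    obtain ⟨i, _, hi⟩ := h0
    have := hr i
    omega
  rw [← Finset.sum_product']
  have h1 : ∑ x ∈ T ×ˢ T, Real.sqrt ((R : ℝ) ^ (-c0) * (((mo R x.1 x.2).divisors.card : ℝ) ^ b / (mo R x.1 x.2 : ℝ) ^ 3)) =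
      ∑ m ∈ (T ×ˢ T).image (fun x => mo R x.1 x.2), ∑ x ∈ T ×ˢ T with mo R x.1 x.2 = m,
        Real.sqrt ((R : ℝ) ^ (-c0) * (((mo R x.1 x.2).divisors.card : ℝ) ^ b / (mo R x.1 x.2 : ℝ) ^ 3)) := by
    generalize (fun x : (Fin k → ℕ) × (Fin k → ℕ) => Real.sqrt ((R : ℝ) ^ (-c0) *
      (((mo R x.1 x.2).divisors.card : ℝ) ^ b / (mo R x.1 x.2 : ℝ) ^ 3))) = f
    have hmaps : ∀ x ∈ T ×ˢ T, (fun x : (Fin k → ℕ) × (Fin k → ℕ) => mo R x.1 x.2) x ∈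
        (T ×ˢ T).image (fun x => mo R x.1 x.2) := fun x hx => mem_image_of_mem _ hx
    exact (sum_fiberwise_of_maps_to hmaps f).symm
  rw [h1]
  have h2 : ∀ m ∈ (T ×ˢ T).image (fun x => mo R x.1 x.2), ∑ x ∈ T ×ˢ T with mo R x.1 x.2 = m,
        Real.sqrt ((R : ℝ) ^ (-c0) * (((mo R x.1 x.2).divisors.card : ℝ) ^ b / (mo R x.1 x.2 : ℝ) ^ 3)) ≤
      C0 ^ (2 * k) * Real.sqrt (C0 ^ b) * (W : ℝ) ^ (-(c0 / 8)) * (m : ℝ) ^ (-(9 / 8 : ℝ)) := by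
    intro m hm
    rw [mem_image] at hm
    obtain ⟨x0, hx0, hm0⟩ := hm
    rw [mem_product] at hx0
    have hm1 : 1 ≤ m := by
      rw [← hm0]
      exact (FGA8_pos R x0.1 x0.2).1
    have hm1' : (1 : ℝ) ≤ m := by exact_mod_cast hm1
    have hm0' : (0 : ℝ) < m := by linarith
    have hR1' : (1 : ℝ) ≤ R := by exact_mod_cast hR0
    have hRm : 1 ≤ R * m := Nat.mul_pos hR0 hm1
    have hRm' : (1 : ℝ) ≤ ((R * m : ℕ) : ℝ) := by exact_mod_cast hRm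
    have hks : ∀ κ ∈ T, ∀ i, Squarefree (κ i) ∧ Nat.Coprime (κ i) (r i) := by
      intro κ hκ i
      have h := hT κ hκ i
      unfold KS at h
      rw [mem_filter] at h
      exact h.2
    have hWle : (W : ℝ) ≤ (R : ℝ) * (m : ℝ) := by
      have h3 := (FGA8_dvd r R hR x0.1 x0.2 (fun i => (hks _ hx0.1 i).1) (fun i => (hks _ hx0.1 i).2)
        (fun i => (hks _ hx0.2 i).1)).2.2
      rw [hm0] at h3
      have h4 := Nat.le_of_dvd (by omega) h3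
      have h5 := hTW _ hx0.1
      have h6 : W ≤ R * m := by omega
      exact_mod_cast h6
    have h3 : ∑ x ∈ T ×ˢ T with mo R x.1 x.2 = m,
        Real.sqrt ((R : ℝ) ^ (-c0) * (((mo R x.1 x.2).divisors.card : ℝ) ^ b / (mo R x.1 x.2 : ℝ) ^ 3)) =
        (((T ×ˢ T).filter fun x => mo R x.1 x.2 = m).card : ℝ) *
          Real.sqrt ((R : ℝ) ^ (-c0) * ((m.divisors.card : ℝ) ^ b / (m : ℝ) ^ 3)) := by
      rw [← nsmul_eq_mul, ← sum_const]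
      refine sum_congr rfl fun x hx => ?_
      rw [mem_filter] at hx
      rw [hx.2]
    rw [h3]
    have h4 := FGA10_fib Q r R hR hr T hT m hm1
    have h5 : (m.divisors.card : ℝ) ^ b ≤ C0 ^ b * (m : ℝ) ^ (1 / 4 : ℝ) := by
      calc (m.divisors.card : ℝ) ^ b ≤ (C0 * (m : ℝ) ^ (c0 / (8 * N) : ℝ)) ^ b :=
            pow_le_pow_left₀ (by positivity) (hd m hm1) b
        _ = C0 ^ b * (m : ℝ) ^ (c0 / (8 * N) * b : ℝ) := by
            rw [mul_pow, ← Real.rpow_mul_natCast hm0'.le]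
        _ ≤ C0 ^ b * (m : ℝ) ^ (1 / 4 : ℝ) := by
            apply mul_le_mul_of_nonneg_left _ (by positivity)
            apply Real.rpow_le_rpow_of_exponent_le hm1'
            have hbN : (b : ℝ) ≤ N := by
              rw [hN]
              push_cast
              have : (0 : ℝ) ≤ k := Nat.cast_nonneg k
              linarith
            rw [div_mul_eq_mul_div, div_le_iff₀ (by positivity)]
            have : c0 * b ≤ 1 * N := mul_le_mul hc1 hbN (by positivity) (by norm_num)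
            linarith
    have h6 : ((R * m).divisors.card : ℝ) ^ (2 * k) ≤ C0 ^ (2 * k) * ((R : ℝ) * (m : ℝ)) ^ (c0 / 8) := by
      calc ((R * m).divisors.card : ℝ) ^ (2 * k) ≤ (C0 * ((R * m : ℕ) : ℝ) ^ (c0 / (8 * N) : ℝ)) ^ (2 * k) :=
            pow_le_pow_left₀ (by positivity) (hd (R * m) hRm) _
        _ = C0 ^ (2 * k) * ((R * m : ℕ) : ℝ) ^ (c0 / (8 * N) * ((2 * k : ℕ) : ℝ) : ℝ) := by
            rw [mul_pow, ← Real.rpow_mul_natCast (by positivity)]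
        _ ≤ C0 ^ (2 * k) * ((R * m : ℕ) : ℝ) ^ (c0 / 8) := by
            apply mul_le_mul_of_nonneg_left _ (by positivity)
            apply Real.rpow_le_rpow_of_exponent_le hRm'
            have hbN : ((2 * k : ℕ) : ℝ) ≤ N := by
              rw [hN]
              push_cast
              have : (0 : ℝ) ≤ b := Nat.cast_nonneg b
              linarith
            rw [div_mul_eq_mul_div, div_le_iff₀ (by positivity)]
            have : c0 * ((2 * k : ℕ) : ℝ) ≤ c0 * N := mul_le_mul_of_nonneg_left hbN hc0.le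
            linarith
        _ = C0 ^ (2 * k) * ((R : ℝ) * (m : ℝ)) ^ (c0 / 8) := by
            push_cast
            rfl
    exact fga10_num (R : ℝ) (m : ℝ) (W : ℝ) c0 _ _ (C0 ^ b) (C0 ^ (2 * k)) hR1' hm1' (by exact_mod_cast hW) hWle hc0 hc1
      (by positivity) h5 (by positivity) (by positivity) (le_trans h4 h6) (by positivity)
  refine le_trans (sum_le_sum h2) ?_
  rw [← mul_sum]
  have h7 := hsum.sum_le_tsum ((T ×ˢ T).image (fun x => mo R x.1 x.2)) fun n _ => hnn n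
  calc C0 ^ (2 * k) * Real.sqrt (C0 ^ b) * (W : ℝ) ^ (-(c0 / 8)) *
        ∑ m ∈ (T ×ˢ T).image (fun x => mo R x.1 x.2), (m : ℝ) ^ (-(9 / 8 : ℝ)) ≤
      C0 ^ (2 * k) * Real.sqrt (C0 ^ b) * (W : ℝ) ^ (-(c0 / 8)) * ((∑' n : ℕ, (n : ℝ) ^ (-(9 / 8 : ℝ))) + 1) := by
        apply mul_le_mul_of_nonneg_left _ (by positivity)
        linarith
    _ = _ := by ring

end Pool.Agent.HUP
end

-- from Lib.HUP.FGA4
section

/-!
# Project HUP, chunk FGA4 (S): from sums over boxes to complete means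
-/

open Finset

namespace Pool.Agent.HUP

/-- Proof. `FGA2`: `‖∑_{t ∈ tb b s} F n n' t‖ ≤ card * (x + y)`, `x = ‖∑_{t ∈ B0 d M} F n n' t‖ / M^d`, `y = 2 d M / L`. So the square is at most
`card² (2 x² + 2 y²)`. Sum over `n`, `n'` with `FGA3` for `x²` (a periodic function of `n`, `n'` by `hF`): at most
`card² (8 H² ms M F + 2 H² y²)`, and the square root is at most `3 card H (√(ms M F) + y)`. -/
theorem FGA4 {d : ℕ} (M L H : ℕ) (hM : 1 ≤ M) (hL : 1 ≤ L) (hMH : M ≤ H) (b : Fin d → ℤ) (s : Fin d → ℕ)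
    (hs : ∀ j, L ≤ s j) (F : ℤ → ℤ → (Fin d → ℤ) → ℂ) (hF : Pp M F) (hb : ∀ n n' t, ‖F n n' t‖ ≤ 1) (a : ℕ) :
    Real.sqrt (∑ n ∈ Ico a (a + H), ∑ n' ∈ Ico a (a + H), ‖∑ t ∈ tb b s, F n n' t‖ ^ 2) ≤
      3 * (tb b s).card * H * (Real.sqrt (ms M F) + 2 * d * ((M : ℝ) / L)) := by
  have hM0 : (0 : ℝ) < M := by exact_mod_cast hM
  have hL0 : (0 : ℝ) < L := by exact_mod_cast hL
  set y : ℝ := 2 * d * ((M : ℝ) / L) with hy
  have hy0 : 0 ≤ y := by positivity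
  have hms : 0 ≤ ms M F := by
    rw [ms]
    apply div_nonneg
    · exact Finset.sum_nonneg fun _ _ => Finset.sum_nonneg fun _ _ => by positivity
    · positivity
  have h1 : ∀ n n' : ℤ, ‖∑ t ∈ tb b s, F n n' t‖ ^ 2 ≤
      ((tb b s).card : ℝ) ^ 2 * (2 * (‖∑ t ∈ B0 d M, F n n' t‖ ^ 2 / ((M : ℝ) ^ d) ^ 2) + 2 * y ^ 2) := by
    intro n n'
    have h := FGA2 M L hM hL b s hs (F n n') (fun t t' ht => hF n n n' n' t t' (by simp) (by simp) ht) (hb n n')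
    rw [← hy] at h
    have h2 : ‖∑ t ∈ tb b s, F n n' t‖ ^ 2 ≤ ((tb b s).card * (‖∑ t ∈ B0 d M, F n n' t‖ / (M : ℝ) ^ d + y)) ^ 2 :=
      pow_le_pow_left₀ (norm_nonneg _) h 2
    refine h2.trans ?_
    rw [mul_pow]
    apply mul_le_mul_of_nonneg_left _ (by positivity)
    rw [← div_pow]
    nlinarith [sq_nonneg (‖∑ t ∈ B0 d M, F n n' t‖ / (M : ℝ) ^ d - y)]
  have h3 : ∑ n ∈ Ico a (a + H), ∑ n' ∈ Ico a (a + H), ‖∑ t ∈ tb b s, F n n' t‖ ^ 2 ≤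
      ((tb b s).card : ℝ) ^ 2 * (8 * (H : ℝ) ^ 2 * ms M F + 2 * (H : ℝ) ^ 2 * y ^ 2) := by
    have h4 : ∑ n ∈ Ico a (a + H), ∑ n' ∈ Ico a (a + H), ‖∑ t ∈ tb b s, F n n' t‖ ^ 2 ≤
        ∑ n ∈ Ico a (a + H), ∑ n' ∈ Ico a (a + H), (((tb b s).card : ℝ) ^ 2 *
          (2 * (‖∑ t ∈ B0 d M, F n n' t‖ ^ 2 / ((M : ℝ) ^ d) ^ 2) + 2 * y ^ 2)) :=
      Finset.sum_le_sum fun n _ => Finset.sum_le_sum fun n' _ => h1 n n'
    refine h4.trans ?_
    have h5 : ∑ n ∈ Ico a (a + H), ∑ n' ∈ Ico a (a + H), (((tb b s).card : ℝ) ^ 2 *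
          (2 * (‖∑ t ∈ B0 d M, F n n' t‖ ^ 2 / ((M : ℝ) ^ d) ^ 2) + 2 * y ^ 2)) =
        ((tb b s).card : ℝ) ^ 2 * (2 * ∑ n ∈ Ico a (a + H), ∑ n' ∈ Ico a (a + H),
          ‖∑ t ∈ B0 d M, F n n' t‖ ^ 2 / ((M : ℝ) ^ d) ^ 2 + 2 * (H : ℝ) ^ 2 * y ^ 2) := by
      simp only [← Finset.mul_sum, Finset.sum_add_distrib, Finset.sum_const, Nat.card_Ico, add_tsub_cancel_left,
        nsmul_eq_mul]
      ring
    rw [h5]
    apply mul_le_mul_of_nonneg_left _ (by positivity)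
    apply add_le_add _ le_rfl
    have h6 := FGA3 M H hM hMH (fun n n' => ‖∑ t ∈ B0 d M, F n n' t‖ ^ 2 / ((M : ℝ) ^ d) ^ 2)
      (fun n n' => by positivity)
      (fun n m n' m' hn hn' => by
        have : ∑ t ∈ B0 d M, F n n' t = ∑ t ∈ B0 d M, F m m' t :=
          Finset.sum_congr rfl fun t _ => hF n m n' m' t t hn hn' (fun j => by simp)
        simp only [this]) a
    have h7 : 4 * (H : ℝ) ^ 2 / (M : ℝ) ^ 2 * ∑ n ∈ Ico (0 : ℤ) M, ∑ n' ∈ Ico (0 : ℤ) M,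
        ‖∑ t ∈ B0 d M, F n n' t‖ ^ 2 / ((M : ℝ) ^ d) ^ 2 = 4 * (H : ℝ) ^ 2 * ms M F := by
      rw [ms]
      simp only [← Finset.sum_div]
      field_simp
    rw [h7] at h6
    linarith
  have h8 : Real.sqrt (∑ n ∈ Ico a (a + H), ∑ n' ∈ Ico a (a + H), ‖∑ t ∈ tb b s, F n n' t‖ ^ 2) ≤
      Real.sqrt ((3 * (tb b s).card * H * (Real.sqrt (ms M F) + y)) ^ 2) := by
    apply Real.sqrt_le_sqrt
    refine h3.trans ?_
    have h9 : Real.sqrt (ms M F) ^ 2 = ms M F := Real.sq_sqrt hms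
    have h10 : 0 ≤ Real.sqrt (ms M F) := Real.sqrt_nonneg _
    have h11 : (3 * (tb b s).card * H * (Real.sqrt (ms M F) + y)) ^ 2 =
        ((tb b s).card : ℝ) ^ 2 * (9 * (H : ℝ) ^ 2 * (ms M F + 2 * Real.sqrt (ms M F) * y + y ^ 2)) := by
      rw [← h9]
      rw [Real.sqrt_sq h10]
      ring
    rw [h11]
    apply mul_le_mul_of_nonneg_left _ (by positivity)
    have h12 : 0 ≤ (H : ℝ) ^ 2 * ms M F := by positivity
    have h13 : 0 ≤ (H : ℝ) ^ 2 * (Real.sqrt (ms M F) * y) := by positivity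
    have h14 : 0 ≤ (H : ℝ) ^ 2 * y ^ 2 := by positivity
    nlinarith
  refine h8.trans ?_
  rw [Real.sqrt_sq (by positivity)]

end Pool.Agent.HUP
end

-- from Lib.HUP.FGA9
section

/-!
# Project HUP, chunk FGA9 (M): the complete mean for one pair
-/

open Finset Polynomial

namespace Pool.Agent.HUP

open Pool.Agent.Lib.H68T Pool.Agent.Lib.H18Q Pool.Agent.Lib.H59P Pool.Agent.Lib.H24P

theorem fga9_dvd (κ R : ℕ) : ∏ l ∈ κ.primeFactors.filter (fun l => l ∣ R), l ∣ R := by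
  refine Finset.prod_primes_dvd R (fun l hl => ?_) fun l hl => (Finset.mem_filter.1 hl).2
  exact (Nat.prime_of_mem_primeFactors (Finset.mem_filter.1 hl).1).prime

theorem fga9_pz (κ R : ℕ) : Pz R (gL (κ.primeFactors.filter fun l => l ∣ R)) :=
  FGA7_up _ R (fga9_dvd κ R) _ (FGA7_gLper _)

theorem fga9_le (κ R : ℕ) (m : ℤ) : ‖gL (κ.primeFactors.filter fun l => l ∣ R) m‖ ≤ 1 :=
  FGA7_gLle _ (fun l hl => Nat.prime_of_mem_primeFactors (Finset.mem_filter.1 hl).1) m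

theorem fga9_cj {k : ℕ} (p : Fin k → Ch) (R : ℕ) (hR : R = univ.lcm (fun i => (p i).1)) (i : Fin k) : Pz R (cj (p i)) := by
  refine FGA7_up _ R ?_ _ (FGA7_cjper (p i))
  rw [hR]
  exact Finset.dvd_lcm (Finset.mem_univ i)

/-- The factor at `R` is periodic modulo `R` (each `r i` divides `R`, and so does a product of distinct primes dividing `R`). -/
theorem FGA9_FR {k d : ℕ} (c : Fin k → Fin d → ℤ) (P : Fin k → ℤ[X]) (β : Fin k → ℤ) (p : Fin k → Ch) (R : ℕ)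
    (hR : R = univ.lcm (fun i => (p i).1)) (κ κ' : Fin k → ℕ) : Pp R (FR c P β p R κ κ') := by
  intro n m n' m' t t' hn hn' ht
  unfold FR
  refine Finset.prod_congr rfl fun i _ => ?_
  have h1 := FGA7_yy c P β i R n m t t' hn ht
  have h2 := FGA7_yy c P β i R n' m' t t' hn' ht
  rw [fga9_cj p R hR i _ _ h1, fga9_cj p R hR i _ _ h2, fga9_pz (κ i) R _ _ h1, fga9_pz (κ' i) R _ _ h2]

/-- Proof. `ChB` with `K i = ∏ l ∈ (κ i).primeFactors.filter (· ∣ R), l` (it divides `R`: distinct primes dividing `R`,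
`Finset.prod_primes_dvd`; coprime to `r i` because `κ i` is), `u i = gL (that set)` (`FGA7_gLper`, `FGA7_gLle`),
`g' i m = conj (cj (p i) m * gL (((κ' i).primeFactors.filter (· ∣ R))) m)`. -/
theorem FGA9_R {k d : ℕ} {c : Fin k → Fin d → ℤ} {D : Fin k → ℕ} {a : Fin k → ℤ} (hC : ChB c D a) :
    ∃ C c0 : ℝ, 0 < C ∧ 0 < c0 ∧ c0 ≤ 1 ∧ ∀ P : Fin k → ℤ[X], HasD D a P → ∀ (β : Fin k → ℤ) (p : Fin k → Ch),
    (∀ i, 1 ≤ (p i).1 ∧ (p i).2.IsPrimitive) → ∀ R : ℕ, R = univ.lcm (fun i => (p i).1) → ∀ κ κ' : Fin k → ℕ,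
    (∀ i, Nat.Coprime (κ i) (p i).1) → ms R (FR c P β p R κ κ') ≤ C * (R : ℝ) ^ (-c0) := by
  obtain ⟨C, c0, hC0, hc0, hc1, H⟩ := hC
  refine ⟨C, c0, hC0, hc0, hc1, ?_⟩
  intro P hP β p hp R hR κ κ' hcop
  refine H P hP β p hp R hR (fun i => ∏ l ∈ (κ i).primeFactors.filter (fun l => l ∣ R), l)
    (fun i => gL ((κ i).primeFactors.filter fun l => l ∣ R))
    (fun i m => (starRingEnd ℂ) (cj (p i) m * gL ((κ' i).primeFactors.filter fun l => l ∣ R) m)) ?_ ?_ ?_ ?_ ?_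
  · intro i
    refine ⟨?_, fga9_dvd (κ i) R, ?_⟩
    · exact Nat.one_le_iff_ne_zero.2 (Finset.prod_ne_zero_iff.2 fun l hl =>
        (Nat.prime_of_mem_primeFactors (Finset.mem_filter.1 hl).1).ne_zero)
    · refine Nat.Coprime.prod_left fun l hl => ?_
      exact Nat.Coprime.coprime_dvd_left (Nat.dvd_of_mem_primeFactors (Finset.mem_filter.1 hl).1) (hcop i)
  · exact fun i => FGA7_gLper _
  · exact fun i m => fga9_le (κ i) R m
  · intro i m m' h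
    show (starRingEnd ℂ) (cj (p i) m * gL ((κ' i).primeFactors.filter fun l => l ∣ R) m) =
      (starRingEnd ℂ) (cj (p i) m' * gL ((κ' i).primeFactors.filter fun l => l ∣ R) m')
    rw [fga9_cj p R hR i _ _ h, fga9_pz (κ' i) R _ _ h]
  · intro i m
    show ‖(starRingEnd ℂ) (cj (p i) m * gL ((κ' i).primeFactors.filter fun l => l ∣ R) m)‖ ≤ 1
    rw [RCLike.norm_conj, norm_mul]
    exact mul_le_one₀ (FGA7_cjle (p i) m) (norm_nonneg _) (fga9_le (κ' i) R m)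

/-- Proof. `FGA8_fac`, `FGA6_prod` (`FGA9_FR`, `FGA7_Fl`, `FGA8_po`): `ms (R * mo) F2 = ms R FR * ∏_{l ∈ Po} ms l (Fl ..)`, `FGA9_R`, `LocB`:
`∏_{l ∈ Po} CL / l³ = CL^(card Po) / mo³`, `CL ≤ 2^b`, and `2^(card Po) = (mo).divisors.card` (squarefree, `FGA8_pos`; only `≤` is needed; compare
the end of `KB7_av` in `HUK/KB7.lean`). -/
theorem FGA9 {k d : ℕ} {c : Fin k → Fin d → ℤ} {D : Fin k → ℕ} {a : Fin k → ℤ} (hL : LocB c D a) (hC : ChB c D a) :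
    ∃ (b : ℕ) (C c0 : ℝ), 0 < C ∧ 0 < c0 ∧ c0 ≤ 1 ∧ ∀ P : Fin k → ℤ[X], HasD D a P → ∀ (β : Fin k → ℤ)
    (p : Fin k → Ch) (Q : ℕ), (∀ i, p i ∈ PC Q) → ∀ R : ℕ, R = univ.lcm (fun i => (p i).1) → ∀ κ κ' : Fin k → ℕ,
    (∀ i, κ i ∈ KS Q (p i).1) → (∀ i, κ' i ∈ KS Q (p i).1) →
    Pp (R * mo R κ κ') (F2 c P β p κ κ') ∧ ms (R * mo R κ κ') (F2 c P β p κ κ') ≤
      C * ((R : ℝ) ^ (-c0) * (((mo R κ κ').divisors.card : ℝ) ^ b / (mo R κ κ' : ℝ) ^ 3)) := by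
  obtain ⟨CL, hCL, HL⟩ := hL
  obtain ⟨C, c0, hC0, hc0, hc1, HR⟩ := FGA9_R hC
  obtain ⟨b, hb⟩ := pow_unbounded_of_one_lt CL (by norm_num : (1 : ℝ) < 2)
  refine ⟨b, C, c0, hC0, hc0, hc1, ?_⟩
  intro P hP β p Q hp R hR κ κ' hκ hκ'
  have hκ0 : ∀ i, κ i ≠ 0 := fun i => by
    have h1 := (CA_mem_KS.1 (hκ i)).1.1
    omega
  have hκ0' : ∀ i, κ' i ≠ 0 := fun i => by
    have h1 := (CA_mem_KS.1 (hκ' i)).1.1
    omega
  have hcop : ∀ i, Nat.Coprime (κ i) (p i).1 := fun i => (CA_mem_KS.1 (hκ i)).2.2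
  have hpp : ∀ i, 1 ≤ (p i).1 ∧ (p i).2.IsPrimitive := fun i => ⟨(mem_PC.1 (hp i)).1, (mem_PC.1 (hp i)).2.2⟩
  have hR1 : 1 ≤ R := by
    rw [Nat.one_le_iff_ne_zero, hR, Ne, Finset.lcm_eq_zero_iff]
    rintro ⟨j, -, hj⟩
    have h2 := (hpp j).1
    omega
  have hF2 : F2 c P β p κ κ' = fun n n' t => FR c P β p R κ κ' n n' t *
      ∏ l ∈ Po R κ κ', Fl c P β (univ.filter fun i => l ∣ κ i) (univ.filter fun i => l ∣ κ' i) l n n' t := by
    funext n n' t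
    exact FGA8_fac c P β p R κ κ' hκ0 hκ0' n n' t
  have hpr := FGA6_prod R hR1 (Po R κ κ') (fun l hl => (FGA8_po R κ κ' l hl).1)
    (fun l hl => (FGA8_po R κ κ' l hl).2.1) (FR c P β p R κ κ') (FGA9_FR c P β p R hR κ κ')
    (fun l => Fl c P β (univ.filter fun i => l ∣ κ i) (univ.filter fun i => l ∣ κ' i) l) (fun l _ => FGA7_Fl c P β _ _ l)
  rw [hF2]
  refine ⟨hpr.1, ?_⟩
  have e1 : ms (R * mo R κ κ') (fun n n' t => FR c P β p R κ κ' n n' t *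
      ∏ l ∈ Po R κ κ', Fl c P β (univ.filter fun i => l ∣ κ i) (univ.filter fun i => l ∣ κ' i) l n n' t) =
      ms R (FR c P β p R κ κ') * ∏ l ∈ Po R κ κ', ms l (Fl c P β (univ.filter fun i => l ∣ κ i) (univ.filter fun i => l ∣ κ' i) l) :=
    hpr.2
  rw [e1]
  obtain ⟨hm1, hmf, hms⟩ := FGA8_pos R κ κ'
  have h5 : ∏ l ∈ Po R κ κ', ms l (Fl c P β (univ.filter fun i => l ∣ κ i) (univ.filter fun i => l ∣ κ' i) l) ≤
      ((mo R κ κ').divisors.card : ℝ) ^ b / (mo R κ κ' : ℝ) ^ 3 := by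
    have h6 : ∏ l ∈ Po R κ κ', ms l (Fl c P β (univ.filter fun i => l ∣ κ i) (univ.filter fun i => l ∣ κ' i) l) ≤
        ∏ l ∈ Po R κ κ', (CL / (l : ℝ) ^ 3) := by
      refine Finset.prod_le_prod (fun _ _ => FGA5_nn _ _) fun l hl => ?_
      obtain ⟨hl1, -, hl3⟩ := FGA8_po R κ κ' l hl
      exact HL P hP β l hl1 _ _ hl3
    refine h6.trans ?_
    rw [Finset.prod_div_distrib, Finset.prod_const, Finset.prod_pow]
    have h7 : (∏ l ∈ Po R κ κ', (l : ℝ)) = (mo R κ κ' : ℝ) := by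
      rw [mo, Nat.cast_prod]
    rw [h7]
    refine div_le_div_of_nonneg_right ?_ (by positivity)
    have h8 : (mo R κ κ').divisors.card = 2 ^ (Po R κ κ').card := by
      rw [Nat.card_divisors (by omega), hmf, ← Finset.prod_const]
      refine Finset.prod_congr rfl fun l hl => ?_
      have h9 : (mo R κ κ').factorization l ≤ 1 := Squarefree.natFactorization_le_one l hms
      have h10 : 1 ≤ (mo R κ κ').factorization l := by
        rw [← hmf] at hl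
        have := Nat.support_factorization (mo R κ κ')
        exact Nat.one_le_iff_ne_zero.2 (Finsupp.mem_support_iff.1 (by rw [this]; exact hl))
      omega
    rw [h8]
    push_cast
    rw [← pow_mul, mul_comm (Po R κ κ').card, pow_mul]
    exact pow_le_pow_left₀ (by linarith) hb.le _
  have h12 := HR P hP β p hpp R hR κ κ' hcop
  have h14 : 0 ≤ ∏ l ∈ Po R κ κ', ms l (Fl c P β (univ.filter fun i => l ∣ κ i) (univ.filter fun i => l ∣ κ' i) l) :=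
    Finset.prod_nonneg fun _ _ => FGA5_nn _ _
  rw [← mul_assoc]
  exact mul_le_mul h12 h5 h14 (by positivity)

end Pool.Agent.HUP
end

-- from Lib.HUP.FGA11
section

/-!
# Project HUP, chunk FGA11 (M): the large sieve without the constants of the components
-/

open Finset Polynomial

namespace Pool.Agent.HUP

open Pool.Agent.Lib.H68T Pool.Agent.Lib.H18Q Pool.Agent.Lib.H59P Pool.Agent.Lib.H24P

theorem fga11_KS {Q r κ : ℕ} (h : κ ∈ KS Q r) : 1 ≤ κ ∧ κ ≤ Q / r := by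
  classical
  unfold KS at h
  rw [mem_filter, mem_Icc] at h
  exact h.1

theorem fga11_KScard (Q r : ℕ) : (KS Q r).card ≤ Q := by
  classical
  unfold KS
  refine (card_filter_le _ _).trans ?_
  rw [Nat.card_Icc]
  have := Nat.div_le_self Q r
  omega

theorem fga11_num (Q k W : ℕ) (ρ : ℝ) (hQ : 1 ≤ Q) (hW : 1 ≤ W) (hWQ : W ≤ Q ^ k) (hρ1 : ρ ≤ 1) (M : ℕ)
    (hM : M ≤ Q ^ (2 * k)) : (M : ℝ) / ((Q ^ (5 * k) : ℕ) : ℝ) ≤ (W : ℝ) ^ (-ρ) / ((Q : ℝ) ^ k) ^ 2 := by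
  have hQ0 : (0 : ℝ) < Q := by exact_mod_cast hQ
  have hq : (0 : ℝ) < (Q : ℝ) ^ k := by positivity
  have hW1 : (1 : ℝ) ≤ W := by exact_mod_cast hW
  have hW0 : (0 : ℝ) < W := by linarith
  have h1 : ((Q : ℝ) ^ k)⁻¹ ≤ (W : ℝ) ^ (-ρ) := by
    have h2 : (W : ℝ) ≤ (Q : ℝ) ^ k := by exact_mod_cast hWQ
    calc ((Q : ℝ) ^ k)⁻¹ ≤ (W : ℝ)⁻¹ := inv_anti₀ hW0 h2
      _ = (W : ℝ) ^ (-1 : ℝ) := (Real.rpow_neg_one _).symm
      _ ≤ (W : ℝ) ^ (-ρ) := Real.rpow_le_rpow_of_exponent_le hW1 (by linarith)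
  have h3 : (M : ℝ) ≤ ((Q : ℝ) ^ k) ^ 2 := by
    rw [← pow_mul, mul_comm k 2]
    exact_mod_cast hM
  have h4 : ((Q ^ (5 * k) : ℕ) : ℝ) = ((Q : ℝ) ^ k) ^ 5 := by
    push_cast
    rw [← pow_mul, mul_comm k 5]
  rw [h4]
  calc (M : ℝ) / ((Q : ℝ) ^ k) ^ 5 ≤ ((Q : ℝ) ^ k) ^ 2 / ((Q : ℝ) ^ k) ^ 5 := by gcongr
    _ = ((Q : ℝ) ^ k)⁻¹ / ((Q : ℝ) ^ k) ^ 2 := by
        field_simp
    _ ≤ (W : ℝ) ^ (-ρ) / ((Q : ℝ) ^ k) ^ 2 := by gcongr

/-- Proof. If `T = ∅` the left side is `0`. Let `T` be nonempty; `W < univ.lcm (..) ≤ ∏ (p i).1 * κ i ≤ Q^k` (`κ i ≤ Q / r i`) for `κ ∈ T`. `FGA1` with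
`Φ κ n t = ∏ i, ph (p i) (κ i) (yy c P β i n t)`; the inner function is `F2 c P β p κ κ' n n' t`. For every pair `FGA4` with `M = R * mo R κ κ'`,
`L = Q^(5k)`: `M ≤ ∏ r_i κ_i κ'_i ≤ Q^(2k)` (`FGA8_le`), and `ms` from `FGA9`, `√(C x) = √C √x`. Sum over the pairs: `FGA10`; the other term: at most
`(Q^k)²` pairs, each `3 card H 2 d Q^(2k) / Q^(5k)`, total `≤ 6 d card H Q^(-k) ≤ 6 d card H W^(-1) ≤ 6 d card H W^(-ρ)`.
`C = 3 (√C9 C10 + 2 d) + 1`. -/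
theorem FGA11 {k d : ℕ} {c : Fin k → Fin d → ℤ} {D : Fin k → ℕ} {a : Fin k → ℤ} (hL : LocB c D a) (hC : ChB c D a) :
    ∃ C ρ : ℝ, 0 < C ∧ 0 < ρ ∧ ρ ≤ 1 ∧ ∀ P : Fin k → ℤ[X], HasD D a P → ∀ (β : Fin k → ℤ) (Q : ℕ), 1 ≤ Q →
    ∀ p : Fin k → Ch, (∀ i, p i ∈ PC Q) → ∀ T : Finset (Fin k → ℕ),
    T ⊆ Fintype.piFinset (fun i => KS Q (p i).1) → ∀ W : ℕ, 1 ≤ W →
    (∀ κ ∈ T, W < univ.lcm (fun i => (p i).1 * κ i)) → ∀ (b : Fin d → ℤ) (s : Fin d → ℕ), (∀ j, Q ^ (5 * k) ≤ s j) →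
    ∀ a0 H : ℕ, Q ^ (5 * k) ≤ H → ∀ w : ℕ → ℂ,
    ∑ t ∈ tb b s, ‖∑ n ∈ Ico a0 (a0 + H), w n * ∑ κ ∈ T, ∏ i, ph (p i) (κ i) (yy c P β i n t)‖ ^ 2 ≤
      C * (tb b s).card * (H * ∑ n ∈ Ico a0 (a0 + H), ‖w n‖ ^ 2) * (W : ℝ) ^ (-ρ) := by
  classical
  obtain ⟨b9, C9, c0, hC9, hc0, hc1, h9⟩ := FGA9 hL hC
  obtain ⟨C10, ρ, hC10, hρ0, hρ1, h10⟩ := FGA10 k b9 c0 hc0 hc1
  refine ⟨3 * (Real.sqrt C9 * C10 + 2 * d) + 1, ρ, by positivity, hρ0, hρ1, ?_⟩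
  intro P hP β Q hQ p hp T hT W hW hTW b s hs a0 H hH w
  obtain ⟨R, hR⟩ : ∃ R : ℕ, R = univ.lcm (fun i => (p i).1) := ⟨_, rfl⟩
  have hp1 : ∀ i, 1 ≤ (p i).1 := fun i => (mem_PC.1 (hp i)).1
  have hTK : ∀ κ ∈ T, ∀ i, κ i ∈ KS Q (p i).1 := fun κ hκ i => Fintype.mem_piFinset.1 (hT hκ) i
  have hrk : ∀ κ ∈ T, ∀ i, (p i).1 * κ i ≤ Q := by
    intro κ hκ i
    exact (Nat.mul_le_mul_left _ (fga11_KS (hTK κ hκ i)).2).trans (Nat.mul_div_le Q _)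
  have hk1 : ∀ κ ∈ T, ∀ i, 1 ≤ κ i := fun κ hκ i => (fga11_KS (hTK κ hκ i)).1
  have hkQ : ∀ κ ∈ T, ∀ i, κ i ≤ Q := fun κ hκ i => (fga11_KS (hTK κ hκ i)).2.trans (Nat.div_le_self _ _)
  have hWQ : ∀ κ ∈ T, W ≤ Q ^ k := by
    intro κ hκ
    refine (hTW κ hκ).le.trans ?_
    have h1 : univ.lcm (fun i => (p i).1 * κ i) ∣ ∏ i, ((p i).1 * κ i) :=
      Finset.lcm_dvd fun i hi => Finset.dvd_prod_of_mem _ hi
    have h2 : 0 < ∏ i, ((p i).1 * κ i) := Finset.prod_pos fun i _ => Nat.mul_pos (hp1 i) (hk1 κ hκ i)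
    refine (Nat.le_of_dvd h2 h1).trans ?_
    calc ∏ i, ((p i).1 * κ i) ≤ ∏ _i : Fin k, Q := Finset.prod_le_prod (fun _ _ => Nat.zero_le _) fun i _ => hrk κ hκ i
      _ = Q ^ k := by rw [Finset.prod_const, Finset.card_univ, Fintype.card_fin]
  have hcardT : (T.card : ℝ) ≤ (Q : ℝ) ^ k := by
    have h1 : T.card ≤ Q ^ k := by
      refine (Finset.card_le_card hT).trans ?_
      rw [Fintype.card_piFinset]
      calc ∏ i, (KS Q (p i).1).card ≤ ∏ _i : Fin k, Q :=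
            Finset.prod_le_prod (fun _ _ => Nat.zero_le _) fun i _ => fga11_KScard Q _
        _ = Q ^ k := by rw [Finset.prod_const, Finset.card_univ, Fintype.card_fin]
    exact_mod_cast h1
  have hQ0 : (0 : ℝ) < Q := by exact_mod_cast hQ
  have hq : (0 : ℝ) < (Q : ℝ) ^ k := by positivity
  have hWp : 0 ≤ (W : ℝ) ^ (-ρ) := by positivity
  -- one pair
  have hpair : ∀ κ ∈ T, ∀ κ' ∈ T,
      Real.sqrt (∑ n ∈ Ico a0 (a0 + H), ∑ n' ∈ Ico a0 (a0 + H), ‖∑ t ∈ tb b s, (∏ i, ph (p i) (κ i) (yy c P β i n t)) *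
        (starRingEnd ℂ) (∏ i, ph (p i) (κ' i) (yy c P β i n' t))‖ ^ 2) ≤
      3 * (tb b s).card * H * (Real.sqrt C9 * Real.sqrt ((R : ℝ) ^ (-c0) * (((mo R κ κ').divisors.card : ℝ) ^ b9 /
        (mo R κ κ' : ℝ) ^ 3)) + 2 * d * ((W : ℝ) ^ (-ρ) / ((Q : ℝ) ^ k) ^ 2)) := by
    intro κ hκ κ' hκ'
    have hM : R * mo R κ κ' ≤ Q ^ (2 * k) := by
      refine (FGA8_le (fun i => (p i).1) R hR hp1 κ κ' (hk1 κ hκ) (hk1 κ' hκ')).trans ?_
      calc ∏ i, (p i).1 * κ i * κ' i ≤ ∏ _i : Fin k, Q ^ 2 := by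
            refine Finset.prod_le_prod (fun _ _ => Nat.zero_le _) fun i _ => ?_
            rw [sq]
            exact Nat.mul_le_mul (hrk κ hκ i) (hkQ κ' hκ' i)
        _ = Q ^ (2 * k) := by rw [Finset.prod_const, Finset.card_univ, Fintype.card_fin, ← pow_mul]
    have hR1 : 1 ≤ R := by
      rw [hR]
      refine Nat.one_le_iff_ne_zero.2 ?_
      rw [Ne, Finset.lcm_eq_zero_iff]
      rintro ⟨i, -, hi⟩
      have := hp1 i
      omega
    have hM1 : 1 ≤ R * mo R κ κ' := Nat.mul_pos hR1 (FGA8_pos R κ κ').1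
    have hL1 : 1 ≤ Q ^ (5 * k) := Nat.one_le_pow _ _ hQ
    have hMH : R * mo R κ κ' ≤ H := hM.trans ((Nat.pow_le_pow_right hQ (by omega)).trans hH)
    obtain ⟨hPp, hms⟩ := h9 P hP β p Q hp R hR κ κ' (hTK κ hκ) (hTK κ' hκ')
    have hb1 : ∀ n n' t, ‖F2 c P β p κ κ' n n' t‖ ≤ 1 := by
      intro n n' t
      unfold F2
      rw [norm_mul, RCLike.norm_conj, norm_prod, norm_prod]
      have e1 : ∏ i, ‖ph (p i) (κ i) (yy c P β i n t)‖ ≤ 1 :=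
        Finset.prod_le_one (fun _ _ => norm_nonneg _) fun i _ => FGA7_phle _ _ _
      have e2 : ∏ i, ‖ph (p i) (κ' i) (yy c P β i n' t)‖ ≤ 1 :=
        Finset.prod_le_one (fun _ _ => norm_nonneg _) fun i _ => FGA7_phle _ _ _
      exact mul_le_one₀ e1 (Finset.prod_nonneg fun _ _ => norm_nonneg _) e2
    have h4 := FGA4 (R * mo R κ κ') (Q ^ (5 * k)) H hM1 hL1 hMH b s hs (F2 c P β p κ κ') hPp hb1 a0
    refine h4.trans ?_
    have h5 : Real.sqrt (ms (R * mo R κ κ') (F2 c P β p κ κ')) ≤ Real.sqrt C9 *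
        Real.sqrt ((R : ℝ) ^ (-c0) * (((mo R κ κ').divisors.card : ℝ) ^ b9 / (mo R κ κ' : ℝ) ^ 3)) := by
      rw [← Real.sqrt_mul hC9.le]
      exact Real.sqrt_le_sqrt hms
    have h6 := fga11_num Q k W ρ hQ hW (hWQ κ hκ) hρ1 (R * mo R κ κ') hM
    have h7 : 2 * (d : ℝ) * (((R * mo R κ κ' : ℕ) : ℝ) / ((Q ^ (5 * k) : ℕ) : ℝ)) ≤
        2 * d * ((W : ℝ) ^ (-ρ) / ((Q : ℝ) ^ k) ^ 2) := mul_le_mul_of_nonneg_left h6 (by positivity)
    exact mul_le_mul_of_nonneg_left (add_le_add h5 h7) (by positivity)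
  -- the sum over the pairs
  have hsum : ∑ κ ∈ T, ∑ κ' ∈ T, Real.sqrt (∑ n ∈ Ico a0 (a0 + H), ∑ n' ∈ Ico a0 (a0 + H),
      ‖∑ t ∈ tb b s, (∏ i, ph (p i) (κ i) (yy c P β i n t)) *
        (starRingEnd ℂ) (∏ i, ph (p i) (κ' i) (yy c P β i n' t))‖ ^ 2) ≤
      3 * (tb b s).card * H * ((Real.sqrt C9 * C10 + 2 * d) * (W : ℝ) ^ (-ρ)) := by
    refine (Finset.sum_le_sum fun κ hκ => Finset.sum_le_sum fun κ' hκ' => hpair κ hκ κ' hκ').trans ?_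
    simp only [← Finset.mul_sum, Finset.sum_add_distrib, Finset.sum_const, nsmul_eq_mul]
    refine mul_le_mul_of_nonneg_left ?_ (by positivity)
    have e1 := h10 Q W R (fun i => (p i).1) hR hp1 hW T hTK hTW
    have e2 : Real.sqrt C9 * ∑ κ ∈ T, ∑ κ' ∈ T, Real.sqrt ((R : ℝ) ^ (-c0) *
        (((mo R κ κ').divisors.card : ℝ) ^ b9 / (mo R κ κ' : ℝ) ^ 3)) ≤ Real.sqrt C9 * (C10 * (W : ℝ) ^ (-ρ)) :=
      mul_le_mul_of_nonneg_left e1 (Real.sqrt_nonneg _)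
    have e3 : 2 * (d : ℝ) * ((T.card : ℝ) * ((T.card : ℝ) * ((W : ℝ) ^ (-ρ) / ((Q : ℝ) ^ k) ^ 2))) ≤
        2 * d * (W : ℝ) ^ (-ρ) := by
      have h1 : 0 ≤ (W : ℝ) ^ (-ρ) / ((Q : ℝ) ^ k) ^ 2 := by positivity
      calc 2 * (d : ℝ) * ((T.card : ℝ) * ((T.card : ℝ) * ((W : ℝ) ^ (-ρ) / ((Q : ℝ) ^ k) ^ 2)))
          ≤ 2 * (d : ℝ) * ((Q : ℝ) ^ k * ((Q : ℝ) ^ k * ((W : ℝ) ^ (-ρ) / ((Q : ℝ) ^ k) ^ 2))) := by gcongr
        _ = 2 * d * (W : ℝ) ^ (-ρ) := by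
            field_simp
    calc _ ≤ Real.sqrt C9 * (C10 * (W : ℝ) ^ (-ρ)) + 2 * d * (W : ℝ) ^ (-ρ) := add_le_add e2 e3
      _ = (Real.sqrt C9 * C10 + 2 * d) * (W : ℝ) ^ (-ρ) := by ring
  have h1 := FGA1 (tb b s) (Ico a0 (a0 + H)) T w (fun κ n t => ∏ i, ph (p i) (κ i) (yy c P β i n t))
  refine h1.trans ?_
  have hw0 : 0 ≤ ∑ n ∈ Ico a0 (a0 + H), ‖w n‖ ^ 2 := Finset.sum_nonneg fun _ _ => sq_nonneg _
  refine (mul_le_mul_of_nonneg_left hsum hw0).trans ?_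
  have h2 : 0 ≤ ((tb b s).card : ℝ) * (H * ∑ n ∈ Ico a0 (a0 + H), ‖w n‖ ^ 2) * (W : ℝ) ^ (-ρ) := by positivity
  nlinarith [h2]

end Pool.Agent.HUP
end

-- from Lib.HUP.FGA12
section

/-!
# Project HUP, chunk FGA12 (S/M): the large sieve from the two interfaces
-/

open Finset Polynomial

namespace Pool.Agent.HUP

open Pool.Agent.Lib.H68T Pool.Agent.Lib.H18Q Pool.Agent.Lib.H59P Pool.Agent.Lib.H24P

/-- Proof. `E = 5 k`, `C`, `ρ` from `FGA11`. For `t ∈ tb b s`: `((hh c β t i : ℕ) : ℤ) = β i + lf c t i` (non-negative), so the argument of `gk` is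
`yy c P β i n t`; `FGA7_gk` (`κ i` squarefree): the inner product is `(∏ i, r_i/φ(r_i)) * ∏ i, ph ..`, so the left side is
`(∏ i, r_i/φ(r_i))²` times that of `FGA11`, and `r/φ(r) ≤ 2 (1 + log r) ≤ 2 (1 + log Q)` (`M3b` in `H59P/M3B.lean`), so the factor is at most
`(2 (1 + log Q))^(2k)`. `Cc = 4^k C + 2 k + 1`, `cc = ρ`. -/
theorem FG_red {k d : ℕ} {c : Fin k → Fin d → ℤ} {D : Fin k → ℕ} {a : Fin k → ℤ} (hL : LocB c D a) (hC : ChB c D a) :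
    FGTU c D a := by
  obtain ⟨C, ρ, hC0, hρ, hρ1, h⟩ := FGA11 hL hC
  have h4C : 0 ≤ (4 : ℝ) ^ k * C := by positivity
  have h2k : (0 : ℝ) ≤ 2 * (k : ℝ) := by positivity
  refine ⟨5 * k, 4 ^ k * C + 2 * k + 1, ρ, ⟨by linarith, hρ, hρ1⟩, ?_⟩
  intro P hP Qm b s β hQm hs hβ Q hQ hQQm p hp T hT D' hD1 hD2 a0 H hH w
  have hs' : ∀ j, Q ^ (5 * k) ≤ s j := fun j => (Nat.pow_le_pow_left hQQm _).trans (hs j)
  have h1 := h P hP β Q hQ p hp T hT D' hD1 hD2 b s hs' a0 H hH w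
  have hQr : (1 : ℝ) ≤ (Q : ℝ) := by exact_mod_cast hQ
  obtain ⟨R, hR⟩ : ∃ R : ℝ, R = ∏ i, ((p i).1 : ℝ) / (Nat.totient (p i).1 : ℝ) := ⟨_, rfl⟩
  have hR0 : 0 ≤ R := by
    rw [hR]
    exact prod_nonneg fun i _ => div_nonneg (Nat.cast_nonneg _) (Nat.cast_nonneg _)
  obtain ⟨Lg, hLg⟩ : ∃ Lg : ℝ, Lg = 1 + Real.log Q := ⟨_, rfl⟩
  have hLg1 : 1 ≤ Lg := by
    rw [hLg]
    have := Real.log_nonneg hQr
    linarith
  have hRle : R ≤ (2 * Lg) ^ k := by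
    calc R = ∏ i, ((p i).1 : ℝ) / (Nat.totient (p i).1 : ℝ) := hR
      _ ≤ ∏ i : Fin k, 2 * Lg := by
          refine prod_le_prod (fun i _ => div_nonneg (Nat.cast_nonneg _) (Nat.cast_nonneg _)) fun i _ => ?_
          obtain ⟨h2, h3, -⟩ := mem_PC.1 (hp i)
          refine (M3b (p i).1 h2).trans ?_
          have h4 : (1 : ℝ) ≤ ((p i).1 : ℝ) := by exact_mod_cast h2
          have h5 : Real.log ((p i).1 : ℝ) ≤ Real.log Q := Real.log_le_log (by linarith) (by exact_mod_cast h3)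
          rw [hLg]
          linarith
      _ = (2 * Lg) ^ k := by rw [prod_const, card_univ, Fintype.card_fin]
  have hterm : ∀ t ∈ tb b s, ‖∑ n ∈ Ico a0 (a0 + H), w n *
        ∑ κ ∈ T, ∏ i, gk (p i) (κ i) ((P i).eval (n : ℤ) + (hh c β t i : ℕ))‖ ^ 2 =
      R ^ 2 * ‖∑ n ∈ Ico a0 (a0 + H), w n * ∑ κ ∈ T, ∏ i, ph (p i) (κ i) (yy c P β i n t)‖ ^ 2 := by
    intro t ht
    have e0 : ∀ (n : ℕ) (i : Fin k), (P i).eval (n : ℤ) + ((hh c β t i : ℕ) : ℤ) = yy c P β i n t := by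
      intro n i
      unfold yy hh
      rw [Int.toNat_of_nonneg (hβ t ht i)]
    have e1 : ∀ (n : ℕ), ∀ κ ∈ T, ∏ i, gk (p i) (κ i) ((P i).eval (n : ℤ) + (hh c β t i : ℕ)) =
        (R : ℂ) * ∏ i, ph (p i) (κ i) (yy c P β i n t) := by
      intro n κ hκ
      rw [hR, Complex.ofReal_prod, ← prod_mul_distrib]
      refine prod_congr rfl fun i _ => ?_
      rw [e0 n i]
      exact FGA7_gk (p i) (κ i) (CA_mem_KS.1 (Fintype.mem_piFinset.1 (hT hκ) i)).2.1 _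
    have e2 : ∑ n ∈ Ico a0 (a0 + H), w n *
        ∑ κ ∈ T, ∏ i, gk (p i) (κ i) ((P i).eval (n : ℤ) + (hh c β t i : ℕ)) =
        (R : ℂ) * ∑ n ∈ Ico a0 (a0 + H), w n * ∑ κ ∈ T, ∏ i, ph (p i) (κ i) (yy c P β i n t) := by
      rw [mul_sum]
      refine sum_congr rfl fun n _ => ?_
      rw [sum_congr rfl (e1 n), ← mul_sum]
      ring
    rw [e2, norm_mul, Complex.norm_real, Real.norm_of_nonneg hR0, mul_pow]
  have hY : 0 ≤ ((tb b s).card : ℝ) * (H * ∑ n ∈ Ico a0 (a0 + H), ‖w n‖ ^ 2) * (D' : ℝ) ^ (-ρ) :=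
    mul_nonneg (mul_nonneg (Nat.cast_nonneg _) (mul_nonneg (Nat.cast_nonneg _) (sum_nonneg fun n _ => sq_nonneg _)))
      (Real.rpow_nonneg (Nat.cast_nonneg _) _)
  have hfac : R ^ 2 * C ≤ (4 ^ k * C + 2 * k + 1) * Lg ^ (4 ^ k * C + 2 * (k : ℝ) + 1) := by
    have h2 : R ^ 2 ≤ 4 ^ k * Lg ^ (2 * k) := by
      calc R ^ 2 ≤ ((2 * Lg) ^ k) ^ 2 := pow_le_pow_left₀ hR0 hRle 2
        _ = 4 ^ k * Lg ^ (2 * k) := by
          have e : (2 * Lg) ^ 2 = 4 * Lg ^ 2 := by ring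
          rw [← pow_mul, mul_comm k 2, pow_mul, e, mul_pow, ← pow_mul]
    have h3 : Lg ^ (2 * k) ≤ Lg ^ (4 ^ k * C + 2 * (k : ℝ) + 1) := by
      rw [← Real.rpow_natCast]
      refine Real.rpow_le_rpow_of_exponent_le hLg1 ?_
      push_cast
      linarith
    have h5 : 0 ≤ Lg ^ (2 * k) := by positivity
    calc R ^ 2 * C ≤ 4 ^ k * Lg ^ (2 * k) * C := mul_le_mul_of_nonneg_right h2 hC0.le
      _ = (4 ^ k * C) * Lg ^ (2 * k) := by ring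
      _ ≤ (4 ^ k * C + 2 * k + 1) * Lg ^ (4 ^ k * C + 2 * (k : ℝ) + 1) :=
          mul_le_mul (by linarith) h3 h5 (by linarith)
  show ∑ t ∈ tb b s, ‖∑ n ∈ Ico a0 (a0 + H), w n *
        ∑ κ ∈ T, ∏ i, gk (p i) (κ i) ((P i).eval (n : ℤ) + (hh c β t i : ℕ))‖ ^ 2 ≤ _
  rw [sum_congr rfl hterm, ← mul_sum, ← hLg]
  calc R ^ 2 * ∑ t ∈ tb b s, ‖∑ n ∈ Ico a0 (a0 + H), w n * ∑ κ ∈ T, ∏ i, ph (p i) (κ i) (yy c P β i n t)‖ ^ 2
      ≤ R ^ 2 * (C * (tb b s).card * (H * ∑ n ∈ Ico a0 (a0 + H), ‖w n‖ ^ 2) * (D' : ℝ) ^ (-ρ)) :=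
        mul_le_mul_of_nonneg_left h1 (sq_nonneg R)
    _ = (R ^ 2 * C) * (((tb b s).card : ℝ) * (H * ∑ n ∈ Ico a0 (a0 + H), ‖w n‖ ^ 2) * (D' : ℝ) ^ (-ρ)) := by ring
    _ ≤ ((4 ^ k * C + 2 * k + 1) * Lg ^ (4 ^ k * C + 2 * (k : ℝ) + 1)) *
        (((tb b s).card : ℝ) * (H * ∑ n ∈ Ico a0 (a0 + H), ‖w n‖ ^ 2) * (D' : ℝ) ^ (-ρ)) :=
        mul_le_mul_of_nonneg_right hfac hY
    _ = _ := by ring

end Pool.Agent.HUP
end

-- from Lib.HUP.FGC4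
section

/-!
# Project HUP, chunk FGC4 (M): Gowers sums of periodic functions on an interval
-/

open Finset

namespace Pool.Agent.HUP

open Pool.Agent.HUK (GG DL Av Pe kb3_one kb3_fib DL_mul DL_prod DL_norm DV FF bxS)

theorem fgc4_cj_zero (n : ℕ) : Pool.Agent.HUK.cj n 0 = 0 := by
  unfold Pool.Agent.HUK.cj
  split_ifs
  · rfl
  · exact map_zero _

theorem fgc4_Ico (A B : ℤ) (g : ℤ → ℂ) : ∑ y ∈ Ico A B, g y = ∑ l ∈ range (B - A).toNat, g (A + l) := by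
  symm
  refine Finset.sum_nbij' (fun l : ℕ => A + (l : ℤ)) (fun y : ℤ => (y - A).toNat) ?_ ?_ ?_ ?_ ?_
  · intro l hl
    rw [mem_range] at hl
    rw [mem_Ico]
    constructor <;> omega
  · intro y hy
    rw [mem_Ico] at hy
    rw [mem_range]
    omega
  · intro l _
    show (A + (l : ℤ) - A).toNat = l
    omega
  · intro y hy
    rw [mem_Ico] at hy
    show A + (((y - A).toNat : ℕ) : ℤ) = y
    omega
  · intro l _
    rfl

/-- The differences of the indicator function of an interval are the indicator function of an interval. Proof. `DL_prod`: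
`DL (List.ofFn h) 1_W y = ∏_ω cj (sg ω) (1_W (y + vt ω h))`, every factor is `0` or `1` and real; it is `1` iff all `y + vt ω h` are in `[-Y, Y)`, i.e.
`A ≤ y < B` with `A = sup' (-Y - vt ω h)`, `B = inf' (Y - vt ω h)`; `ω = fun _ => false` gives `-Y ≤ A`, `B ≤ Y`. Take `L = (B - A).toNat`. -/
theorem FGC4_int (s Y : ℕ) (h : Fin s → ℤ) : ∃ (A : ℤ) (L : ℕ), L ≤ 2 * Y ∧
    ∀ φ : ℤ → ℂ, ∑ y ∈ Ico (-(Y : ℤ)) Y, DV h (fun m => if m ∈ Ico (-(Y : ℤ)) Y then φ m else 0) y =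
      ∑ l ∈ range L, DV h φ (A + l) := by
  obtain ⟨v, hv⟩ : ∃ v : (Fin s → Bool) → ℤ, v = fun ω => Pool.Agent.HUK.vt ω h := ⟨_, rfl⟩
  have hv0 : v (fun _ => false) = 0 := by
    rw [hv]
    show Pool.Agent.HUK.vt (fun _ => false) h = 0
    unfold Pool.Agent.HUK.vt
    simp
  have hne : (univ : Finset (Fin s → Bool)).Nonempty := ⟨fun _ => false, mem_univ _⟩
  obtain ⟨A, hA⟩ : ∃ A : ℤ, A = univ.sup' hne (fun ω => -(Y : ℤ) - v ω) := ⟨_, rfl⟩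
  obtain ⟨B, hB⟩ : ∃ B : ℤ, B = univ.inf' hne (fun ω => (Y : ℤ) - v ω) := ⟨_, rfl⟩
  have hAle : ∀ y : ℤ, A ≤ y ↔ ∀ ω, -(Y : ℤ) - v ω ≤ y := by
    intro y
    rw [hA, Finset.sup'_le_iff]
    exact ⟨fun h ω => h ω (mem_univ _), fun h ω _ => h ω⟩
  have hBlt : ∀ y : ℤ, y < B ↔ ∀ ω, y < (Y : ℤ) - v ω := by
    intro y
    rw [hB, Finset.lt_inf'_iff]
    exact ⟨fun h ω => h ω (mem_univ _), fun h ω _ => h ω⟩
  have hA0 : -(Y : ℤ) ≤ A := by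
    have := (hAle A).1 le_rfl (fun _ => false)
    rw [hv0] at this
    linarith
  have hB0 : B ≤ (Y : ℤ) := by
    by_contra hc
    rw [not_le] at hc
    have := (hBlt (B - 1)).1 (by linarith) (fun _ => false)
    rw [hv0] at this
    omega
  refine ⟨A, (B - A).toNat, by omega, fun φ => ?_⟩
  rw [← fgc4_Ico A B (fun y => DV h φ y)]
  have hfil : (Ico (-(Y : ℤ)) Y).filter (fun y => ∀ ω, y + v ω ∈ Ico (-(Y : ℤ)) Y) = Ico A B := by
    ext y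
    rw [mem_filter, mem_Ico, mem_Ico, hAle, hBlt]
    constructor
    · rintro ⟨_, h2⟩
      refine ⟨fun ω => ?_, fun ω => ?_⟩
      · have := (mem_Ico.1 (h2 ω)).1
        linarith
      · have := (mem_Ico.1 (h2 ω)).2
        linarith
    · rintro ⟨h1, h2⟩
      refine ⟨⟨?_, ?_⟩, fun ω => ?_⟩
      · have := h1 (fun _ => false)
        rw [hv0] at this
        linarith
      · have := h2 (fun _ => false)
        rw [hv0] at this
        linarith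
      · rw [mem_Ico]
        have h3 := h1 ω
        have h4 := h2 ω
        constructor <;> linarith
  rw [← hfil, Finset.sum_filter]
  refine Finset.sum_congr rfl fun y _ => ?_
  unfold DV
  rw [DL_prod, DL_prod]
  by_cases hy : ∀ ω, y + v ω ∈ Ico (-(Y : ℤ)) Y
  · rw [if_pos hy]
    refine Finset.prod_congr rfl fun ω _ => ?_
    have h5 : y + Pool.Agent.HUK.vt ω h ∈ Ico (-(Y : ℤ)) Y := by
      have := hy ω
      rw [hv] at this
      exact this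
    rw [if_pos h5]
  · rw [if_neg hy]
    rw [not_forall] at hy
    obtain ⟨ω, hω⟩ := hy
    refine Finset.prod_eq_zero (mem_univ ω) ?_
    have h5 : ¬ y + Pool.Agent.HUK.vt ω h ∈ Ico (-(Y : ℤ)) Y := by
      rw [hv] at hω
      exact hω
    rw [if_neg h5, fgc4_cj_zero]

/-- Periodicity of the differences. -/
theorem FGC4_per (s R : ℕ) (φ : ℤ → ℂ) (hφ : Pz R φ) : Pe R (fun (y : ℤ) (h : Fin s → ℤ) => DL (List.ofFn h) φ y) := by
  intro y y' h h' hy hh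
  show DL (List.ofFn h) φ y = DL (List.ofFn h') φ y'
  rw [DL_prod, DL_prod]
  refine Finset.prod_congr rfl fun ω _ => ?_
  congr 1
  apply hφ
  have h1 : y + Pool.Agent.HUK.vt ω h - (y' + Pool.Agent.HUK.vt ω h') =
      (y - y') + ∑ i, (if ω i then h i - h' i else 0) := by
    have h2 : ∑ i, (if ω i then h i - h' i else 0) = Pool.Agent.HUK.vt ω h - Pool.Agent.HUK.vt ω h' := by
      unfold Pool.Agent.HUK.vt
      rw [← Finset.sum_sub_distrib]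
      refine Finset.sum_congr rfl fun i _ => ?_
      split_ifs
      · rfl
      · ring
    rw [h2]
    ring
  rw [h1]
  refine dvd_add hy (Finset.dvd_sum fun i _ => ?_)
  split_ifs
  · exact hh i
  · exact dvd_zero _

/-- Proof. `GG Y s f ≤ ∑_{h ∈ bxS s (2Y)} ‖∑_y DV h f y‖`. For each `h` by `FGC4_int` and `kb3_one` (`M = R`, `H = L ≤ 2Y`, `S = 1`, `DL_norm`):
`≤ (2Y/R) ‖∑_{y ∈ Ico 0 R} DL (List.ofFn h) φ y‖ + R`. `kb3_fib` with `M = R`, `H = 2Y`: the sum over `h` of the first norm is at most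
`(8Y/R)^s ∑_{h ∈ piFinset Ico 0 R} ‖..‖ = (8Y/R)^s R^(s+1) Av`. `card (bxS s (2Y)) ≤ (4Y)^s`. Total `2 * 8^s Y^(s+1) Av + 4^s Y^s R`. -/
theorem FGC4 (s : ℕ) : ∀ (R Y : ℕ), 1 ≤ R → R ≤ Y → ∀ φ : ℤ → ℂ, (∀ m, ‖φ m‖ ≤ 1) → Pz R φ →
    GG Y s (fun m => if m ∈ Ico (-(Y : ℤ)) Y then φ m else 0) ≤
      2 * 8 ^ s * ((Y : ℝ) ^ (s + 1) * Av s R (fun (y : ℤ) (h : Fin s → ℤ) => DL (List.ofFn h) φ y) + (Y : ℝ) ^ s * R) := by
  intro R Y hR hRY φ hφ1 hφ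
  have hR0 : (0 : ℝ) < R := by exact_mod_cast hR
  have hY0 : (0 : ℝ) ≤ Y := Nat.cast_nonneg _
  have hPe := FGC4_per s R φ hφ
  have hself : ∀ m : ℤ, (R : ℤ) ∣ m - m := fun m => by
    rw [sub_self]
    exact dvd_zero _
  have h1 : ∀ h ∈ bxS s (2 * Y), ‖FF Y h (fun m => if m ∈ Ico (-(Y : ℤ)) Y then φ m else 0)‖ ≤
      (2 * Y / R : ℝ) * ‖∑ y ∈ Ico (0 : ℤ) R, DL (List.ofFn h) φ y‖ + R := by
    intro h _
    obtain ⟨A, L, hL, hAL⟩ := FGC4_int s Y h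
    unfold FF
    rw [hAL φ]
    have h2 := kb3_one R L hR (fun y => DL (List.ofFn h) φ y)
      (fun y y' hy => hPe y y' h h hy (fun i => hself _)) 1 (fun y => DL_norm _ φ hφ1 y) A
    refine h2.trans ?_
    rw [mul_one]
    refine add_le_add_left (mul_le_mul_of_nonneg_right ?_ (norm_nonneg _)) _
    have h3 : (L : ℝ) ≤ 2 * Y := by exact_mod_cast hL
    exact div_le_div_of_nonneg_right h3 hR0.le
  have h4 := kb3_fib R (2 * Y) hR (by omega) (fun h : Fin s → ℤ => ‖∑ y ∈ Ico (0 : ℤ) R, DL (List.ofFn h) φ y‖)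
    (fun _ => norm_nonneg _) (fun h h' hh => by
      have h5 : ∑ y ∈ Ico (0 : ℤ) R, DL (List.ofFn h) φ y = ∑ y ∈ Ico (0 : ℤ) R, DL (List.ofFn h') φ y :=
        Finset.sum_congr rfl fun y _ => hPe y y h h' (hself _) hh
      show ‖∑ y ∈ Ico (0 : ℤ) R, DL (List.ofFn h) φ y‖ = ‖∑ y ∈ Ico (0 : ℤ) R, DL (List.ofFn h') φ y‖
      rw [h5])
  have h6 : ((bxS s (2 * Y)).card : ℝ) ≤ (4 * Y) ^ s := by
    unfold bxS
    rw [Fintype.card_piFinset]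
    simp only [Int.card_Ioo, Finset.prod_const, Finset.card_univ, Fintype.card_fin]
    rw [Nat.cast_pow]
    apply pow_le_pow_left₀ (by positivity)
    have : (((2 * Y : ℕ) : ℤ) - -((2 * Y : ℕ) : ℤ) - 1).toNat ≤ 4 * Y := by omega
    exact_mod_cast this
  obtain ⟨S, hS⟩ : ∃ S : ℝ, S = ∑ h ∈ Fintype.piFinset (fun _ : Fin s => Ico (0 : ℤ) R),
      ‖∑ y ∈ Ico (0 : ℤ) R, DL (List.ofFn h) φ y‖ := ⟨_, rfl⟩
  have hAv : Av s R (fun (y : ℤ) (h : Fin s → ℤ) => DL (List.ofFn h) φ y) = S / (R : ℝ) ^ (s + 1) := by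
    rw [hS]
    rfl
  have hS0 : 0 ≤ S := by
    rw [hS]
    exact Finset.sum_nonneg fun _ _ => norm_nonneg _
  rw [← hS] at h4
  have h7 : GG Y s (fun m => if m ∈ Ico (-(Y : ℤ)) Y then φ m else 0) ≤
      (2 * Y / R : ℝ) * ((4 * ((2 * Y : ℕ) : ℝ) / R) ^ s * S) + (4 * Y) ^ s * R := by
    unfold GG
    refine (Complex.re_le_norm _).trans ((norm_sum_le _ _).trans ((Finset.sum_le_sum h1).trans ?_))
    rw [Finset.sum_add_distrib, ← Finset.mul_sum, Finset.sum_const, nsmul_eq_mul]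
    refine add_le_add (mul_le_mul_of_nonneg_left h4 (by positivity)) ?_
    exact mul_le_mul_of_nonneg_right h6 hR0.le
  refine h7.trans ?_
  rw [hAv]
  have h8 : (2 * Y / R : ℝ) * ((4 * ((2 * Y : ℕ) : ℝ) / R) ^ s * S) = 2 * 8 ^ s * ((Y : ℝ) ^ (s + 1) * (S / (R : ℝ) ^ (s + 1))) := by
    have h9 : (4 * ((2 * Y : ℕ) : ℝ) / R) = 8 * Y / R := by
      push_cast
      ring
    rw [h9, div_pow, mul_pow, pow_succ (Y : ℝ) s, pow_succ (R : ℝ) s]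
    field_simp
  have h10 : ((4 : ℝ) * Y) ^ s * R ≤ 2 * 8 ^ s * ((Y : ℝ) ^ s * R) := by
    rw [mul_pow, mul_assoc]
    refine mul_le_mul_of_nonneg_right ?_ (by positivity)
    have h11 : (4 : ℝ) ^ s ≤ 8 ^ s := pow_le_pow_left₀ (by norm_num) (by norm_num) s
    have h12 : (0 : ℝ) ≤ 8 ^ s := by positivity
    linarith
  rw [h8, mul_add]
  exact add_le_add le_rfl h10

end Pool.Agent.HUP
end

-- from Lib.HUP.FGC5
section

/-!
# Project HUP, chunk FGC5 (M): characters times functions of coprime period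
-/

open Finset

namespace Pool.Agent.HUP

open Pool.Agent.Lib.H59P
open Pool.Agent.HUK (DL Av Pe KB1_mul KB1_per KB1_nn KB1_one UCH_all kb5_sum kb5_sum_pi DL_mul DL_norm DL_prod)

theorem fgc5_card (M q : ℕ) (hM : 1 ≤ M) (b : ℤ) (hb : b ∈ Ico (0 : ℤ) M) :
    ((Ico (0 : ℤ) ((M * q : ℕ) : ℤ)).filter fun y => y % (M : ℤ) = b).card = q := by
  rcases Nat.eq_zero_or_pos q with hq | hq
  · subst hq
    simp
  · have hg : ∀ y y' : ℤ, (M : ℤ) ∣ y - y' → (if y % (M : ℤ) = b then (1 : ℂ) else 0) = if y' % (M : ℤ) = b then (1 : ℂ) else 0 := by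
      intro y y' h
      rw [(Int.emod_emod_of_dvd y (dvd_refl (M : ℤ))).symm.trans (Int.emod_emod_of_dvd y (dvd_refl _)),
        show y % (M : ℤ) = y' % (M : ℤ) from (Int.emod_emod_of_dvd y (dvd_refl (M : ℤ))).symm.trans
          ((Int.emod_emod_of_dvd y (dvd_refl (M : ℤ))).trans (Int.emod_eq_emod_iff_emod_sub_eq_zero.2 (Int.emod_eq_zero_of_dvd h)))]
    have hN : 1 ≤ M * q := Nat.mul_pos hM hq
    have hgN : ∀ y y' : ℤ, ((M * q : ℕ) : ℤ) ∣ y - y' →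
        (if y % (M : ℤ) = b then (1 : ℂ) else 0) = if y' % (M : ℤ) = b then (1 : ℂ) else 0 :=
      fun y y' h => hg y y' (dvd_trans ⟨(q : ℤ), by push_cast; rfl⟩ h)
    have e1 := Pool.Agent.HUK.kb3_block (M * q) hN (fun y => if y % (M : ℤ) = b then (1 : ℂ) else 0) hgN 0
    have e2 := Pool.Agent.HUK.kb3_blocks M hM (fun y => if y % (M : ℤ) = b then (1 : ℂ) else 0) hg 0 q
    have e3 : ∑ y ∈ Ico (0 : ℤ) M, (if y % (M : ℤ) = b then (1 : ℂ) else 0) = 1 := by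
      rw [Finset.sum_eq_single b]
      · rw [if_pos]
        rw [mem_Ico] at hb
        exact Int.emod_eq_of_lt hb.1 hb.2
      · intro y hy hyb
        rw [if_neg]
        rw [mem_Ico] at hy
        rw [Int.emod_eq_of_lt hy.1 hy.2]
        exact hyb
      · intro h
        exact absurd hb h
    have e4 : (((Ico (0 : ℤ) ((M * q : ℕ) : ℤ)).filter fun y => y % (M : ℤ) = b).card : ℂ) = q := by
      rw [Finset.card_filter]
      push_cast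
      have e5 := e1.symm.trans e2
      rw [e3, mul_one] at e5
      push_cast at e5
      exact e5
    exact_mod_cast e4

theorem fgc5_one (M q : ℕ) (hM : 1 ≤ M) (hq : 1 ≤ q) (g : ℤ → ℂ) (hg : ∀ y y' : ℤ, (M : ℤ) ∣ y - y' → g y = g y') :
    ∑ y ∈ Ico (0 : ℤ) ((M * q : ℕ) : ℤ), g y = q * ∑ y ∈ Ico (0 : ℤ) M, g y := by
  have hN : 1 ≤ M * q := Nat.mul_pos hM hq
  have hgN : ∀ y y' : ℤ, ((M * q : ℕ) : ℤ) ∣ y - y' → g y = g y' :=
    fun y y' h => hg y y' (dvd_trans ⟨(q : ℤ), by push_cast; rfl⟩ h)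
  exact (Pool.Agent.HUK.kb3_block (M * q) hN g hgN 0).symm.trans (Pool.Agent.HUK.kb3_blocks M hM g hg 0 q)

theorem fgc5_pi (k M q : ℕ) (hM : 1 ≤ M) (G : (Fin k → ℤ) → ℝ) (hG : ∀ h, G h = G (fun i => h i % (M : ℤ))) :
    ∑ h ∈ Fintype.piFinset (fun _ : Fin k => Ico (0 : ℤ) ((M * q : ℕ) : ℤ)), G h =
      (q : ℝ) ^ k * ∑ h ∈ Fintype.piFinset (fun _ : Fin k => Ico (0 : ℤ) M), G h := by
  classical
  have hmap : ∀ h ∈ Fintype.piFinset (fun _ : Fin k => Ico (0 : ℤ) ((M * q : ℕ) : ℤ)),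
      (fun i => h i % (M : ℤ)) ∈ Fintype.piFinset (fun _ : Fin k => Ico (0 : ℤ) M) :=
    fun h _ => Fintype.mem_piFinset.2 fun i => Pool.Agent.HUK.kb1_mem M hM (h i)
  rw [← Finset.sum_fiberwise_of_maps_to hmap, Finset.mul_sum]
  refine Finset.sum_congr rfl fun b hb => ?_
  have h1 : ∑ h ∈ (Fintype.piFinset (fun _ : Fin k => Ico (0 : ℤ) ((M * q : ℕ) : ℤ))).filter
      (fun h => (fun i => h i % (M : ℤ)) = b), G h =
      ∑ h ∈ (Fintype.piFinset (fun _ : Fin k => Ico (0 : ℤ) ((M * q : ℕ) : ℤ))).filter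
      (fun h => (fun i => h i % (M : ℤ)) = b), G b := by
    refine Finset.sum_congr rfl fun h hh => ?_
    rw [hG h, (mem_filter.1 hh).2]
  rw [h1, Finset.sum_const, nsmul_eq_mul]
  congr 1
  have h2 : (Fintype.piFinset (fun _ : Fin k => Ico (0 : ℤ) ((M * q : ℕ) : ℤ))).filter
      (fun h => (fun i => h i % (M : ℤ)) = b) =
      Fintype.piFinset (fun i => (Ico (0 : ℤ) ((M * q : ℕ) : ℤ)).filter fun y => y % (M : ℤ) = b i) := by
    ext h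
    rw [mem_filter, Fintype.mem_piFinset, Fintype.mem_piFinset]
    constructor
    · rintro ⟨ha, hc⟩ i
      exact mem_filter.2 ⟨ha i, congrFun hc i⟩
    · intro ha
      exact ⟨fun i => (mem_filter.1 (ha i)).1, funext fun i => (mem_filter.1 (ha i)).2⟩
  rw [h2, Fintype.card_piFinset, Finset.prod_congr rfl fun i _ => fgc5_card M q hM (b i) (Fintype.mem_piFinset.1 hb i),
    Finset.prod_const, Finset.card_univ, Fintype.card_fin]
  push_cast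
  rfl

/-- A multiple of the period. Proof. The sum over `y ∈ Ico 0 (M * q)` is `q` times the sum over `Ico 0 M` (`kb3_blocks` of `HUK/KB3.lean`), and for
the `k` variables `h` in the same way (fibres of the reduction modulo `M`: `q^k` elements; `kb1_sumk` is for coprime moduli, so use
`Finset.sum_fiberwise_of_maps_to` or induction on `k`). -/
theorem FGC5_up (k M q : ℕ) (hM : 1 ≤ M) (hq : 1 ≤ q) (φ : ℤ → (Fin k → ℤ) → ℂ) (hφ : Pe M φ) :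
    Av k (M * q) φ = Av k M φ := by
  have hq0 : (0 : ℝ) < q := by exact_mod_cast hq
  have hM0 : (0 : ℝ) < M := by exact_mod_cast hM
  unfold Av
  have h1 : ∀ h : Fin k → ℤ, ‖∑ y ∈ Ico (0 : ℤ) ((M * q : ℕ) : ℤ), φ y h‖ = (q : ℝ) * ‖∑ y ∈ Ico (0 : ℤ) M, φ y h‖ := by
    intro h
    rw [fgc5_one M q hM hq (fun y => φ y h) (fun y y' hy => hφ y y' h h hy fun i => by rw [sub_self]; exact dvd_zero _),
      norm_mul, Complex.norm_natCast]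
  rw [Finset.sum_congr rfl fun h _ => h1 h, ← Finset.mul_sum,
    fgc5_pi k M q hM (fun h => ‖∑ y ∈ Ico (0 : ℤ) M, φ y h‖) (fun h => by
      show ‖∑ y ∈ Ico (0 : ℤ) M, φ y h‖ = ‖∑ y ∈ Ico (0 : ℤ) M, φ y (fun i => h i % (M : ℤ))‖
      congr 1
      refine Finset.sum_congr rfl fun y _ => hφ y y h _ (by rw [sub_self]; exact dvd_zero _) fun i => Int.dvd_self_sub_emod)]
  rw [div_eq_div_iff (by positivity) (by positivity)]
  push_cast
  ring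

/-- the function in terms of residues -/
theorem fgc5_eq {k : ℕ} (p : Ch) (y : ℤ) (h : Fin k → ℤ) :
    DL (List.ofFn h) (cj p) y = (starRingEnd ℂ) (DL (List.ofFn fun i => ((h i : ℤ) : ZMod p.1))
      (fun z => p.2 z) ((y : ℤ) : ZMod p.1)) := by
  rw [DL_prod, DL_prod, map_prod]
  refine Finset.prod_congr rfl fun ω _ => ?_
  rw [Pool.Agent.HUK.kb5_conj]
  unfold Pool.Agent.Lib.H59P.cj
  congr 3
  unfold Pool.Agent.HUK.vt
  push_cast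
  congr 1

/-- Proof. As `KB5_chi` (`HUK/KB5.lean`) without the factors `lam`: `UCH_all s`, `DL_prod`, casts `Ico 0 r → ZMod r` (`kb5_sum`, `kb5_sum_pi`),
conjugation. -/
theorem FGC5_chi (s : ℕ) (hs : 1 ≤ s) : ∃ C e : ℝ, 0 < C ∧ 0 < e ∧ e ≤ 1 ∧ ∀ p : Ch, 1 ≤ p.1 → p.2.IsPrimitive →
    Av s p.1 (fun (y : ℤ) (h : Fin s → ℤ) => DL (List.ofFn h) (cj p) y) ≤ C * (p.1 : ℝ) ^ (-e) := by
  obtain ⟨C, c, hC, hc, hc1, H⟩ := UCH_all s hs
  refine ⟨C, c, hC, hc, hc1, ?_⟩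
  rintro ⟨r, χ⟩ hr hχ
  have hr' : 1 ≤ r := hr
  have hne : NeZero r := ⟨by omega⟩
  have hr0 : (0 : ℝ) < r := by exact_mod_cast hr'
  show Av s r (fun (y : ℤ) (h : Fin s → ℤ) => DL (List.ofFn h) (cj ⟨r, χ⟩) y) ≤ C * (r : ℝ) ^ (-c)
  unfold Av
  let F : (Fin s → ZMod r) → ℝ := fun t => ‖∑ z : ZMod r, DL (List.ofFn t) (fun z => χ z) z‖
  have h1 : ∀ h : Fin s → ℤ, ‖∑ y ∈ Ico (0 : ℤ) r, DL (List.ofFn h) (cj ⟨r, χ⟩) y‖ =
      F (fun i => ((h i : ℤ) : ZMod r)) := by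
    intro h
    have e1 : ∑ y ∈ Ico (0 : ℤ) r, DL (List.ofFn h) (cj ⟨r, χ⟩) y = (starRingEnd ℂ) (∑ z : ZMod r,
        DL (List.ofFn fun i => ((h i : ℤ) : ZMod r)) (fun z => χ z) z) := by
      rw [map_sum, ← kb5_sum r (fun z : ZMod r => (starRingEnd ℂ)
        (DL (List.ofFn fun i => ((h i : ℤ) : ZMod r)) (fun z => χ z) z))]
      exact Finset.sum_congr rfl fun y _ => fgc5_eq ⟨r, χ⟩ y h
    rw [e1, RCLike.norm_conj]
  have h2 : ∑ h ∈ Fintype.piFinset (fun _ : Fin s => Ico (0 : ℤ) r), ‖∑ y ∈ Ico (0 : ℤ) r, DL (List.ofFn h) (cj ⟨r, χ⟩) y‖ ≤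
      C * (r : ℝ) ^ ((s : ℝ) + 1 - c) := by
    rw [Finset.sum_congr rfl fun h _ => h1 h, kb5_sum_pi s r (fun t : Fin s → ZMod r => F t)]
    exact H r χ hχ
  rw [div_le_iff₀ (by positivity)]
  refine h2.trans (le_of_eq ?_)
  have e3 : (r : ℝ) ^ ((s : ℝ) + 1 - c) = (r : ℝ) ^ (-c) * (r : ℝ) ^ (s + 1) := by
    rw [← Real.rpow_natCast, ← Real.rpow_add hr0]
    congr 1
    push_cast
    ring
  rw [e3]
  ring

/-- Proof. `DL (List.ofFn h) (cj p * u) = DL .. (cj p) * DL .. u` (`DL_mul`), periodic modulo `p.1` resp. `K` (`FGC4_per`, `FGA7_cjper`). `p.1 * K ∣ R`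
(coprime), so by `FGC5_up` and `KB1_mul`: `Av s R = Av s (p.1 * K) = Av s p.1 (..) * Av s K (..) ≤ Av s p.1 (..)` (`KB1_one`, `DL_norm`), `FGC5_chi`. -/
theorem FGC5 (s : ℕ) (hs : 1 ≤ s) : ∃ C e : ℝ, 0 < C ∧ 0 < e ∧ e ≤ 1 ∧ ∀ p : Ch, 1 ≤ p.1 → p.2.IsPrimitive →
    ∀ R K : ℕ, 1 ≤ R → p.1 ∣ R → 1 ≤ K → K ∣ R → Nat.Coprime K p.1 → ∀ u : ℤ → ℂ, (∀ m, ‖u m‖ ≤ 1) → Pz K u →
    Av s R (fun (y : ℤ) (h : Fin s → ℤ) => DL (List.ofFn h) (fun m => cj p m * u m) y) ≤ C * (p.1 : ℝ) ^ (-e) := by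
  obtain ⟨C, e, hC, he, he1, H⟩ := FGC5_chi s hs
  refine ⟨C, e, hC, he, he1, ?_⟩
  intro p hp hχ R K hR hpR hK hKR hcop u hu huK
  have hd : p.1 * K ∣ R := Nat.Coprime.mul_dvd_of_dvd_of_dvd hcop.symm hpR hKR
  obtain ⟨q, hq⟩ := hd
  have hq1 : 1 ≤ q := by
    rcases Nat.eq_zero_or_pos q with h0 | h0
    · rw [h0, mul_zero] at hq
      omega
    · exact h0
  have hpK : 1 ≤ p.1 * K := Nat.mul_pos hp hK
  have e1 : (fun (y : ℤ) (h : Fin s → ℤ) => DL (List.ofFn h) (fun m => cj p m * u m) y) =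
      fun (y : ℤ) (h : Fin s → ℤ) => DL (List.ofFn h) (cj p) y * DL (List.ofFn h) u y := by
    funext y h
    rw [DL_mul]
  have p1 : Pe p.1 (fun (y : ℤ) (h : Fin s → ℤ) => DL (List.ofFn h) (cj p) y) := FGC4_per s p.1 (cj p) (FGA7_cjper p)
  have p2 : Pe K (fun (y : ℤ) (h : Fin s → ℤ) => DL (List.ofFn h) u y) := FGC4_per s K u huK
  rw [e1, hq, FGC5_up s (p.1 * K) q hpK hq1 _ (KB1_per p.1 K _ _ p1 p2), KB1_mul p.1 K hp hK hcop.symm _ _ p1 p2]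
  refine (mul_le_of_le_one_right (KB1_nn _ _ _) ?_).trans (H p hp hχ)
  exact KB1_one s K hK _ fun y h => DL_norm _ u hu y

end Pool.Agent.HUP
end

-- from Lib.HUP.FGC6
section

/-!
# Project HUP, chunk FGC6 (S/M): the Gowers sum of the function at `i0`
-/

open Finset

namespace Pool.Agent.HUP

open Pool.Agent.Lib.H59P
open Pool.Agent.HUK (GG)

/-- The real inequality. -/
theorem fgc6_real (k s D : ℕ) (C0 C1 e x : ℝ) (hk : 1 ≤ k) (hC0 : 1 ≤ C0) (hC1 : 0 < C1) (he : 0 < e) (he1 : e ≤ 1)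
    (hD : 1 ≤ D) (hx : 1 ≤ x) (hbig : 2 * 8 ^ s * C0 ^ (s + 1) * (C1 + 1) ≤ x ^ (e / (2 * k))) :
    2 * 8 ^ s * ((C0 * (x ^ 2) ^ D) ^ (s + 1) * (C1 * x ^ (-(e / k))) + (C0 * (x ^ 2) ^ D) ^ s * x) ≤
      (x ^ 2) ^ ((D : ℝ) * (s + 1) - e / (4 * k)) := by
  have hx0 : 0 < x := by linarith
  have hk0 : (0 : ℝ) < k := by exact_mod_cast hk
  have hk1 : (1 : ℝ) ≤ k := by exact_mod_cast hk
  have hA : (C0 * (x ^ 2) ^ D) ^ (s + 1) = C0 ^ (s + 1) * x ^ (2 * D * (s + 1)) := by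
    rw [mul_pow, ← pow_mul, ← pow_mul, ← mul_assoc]
  have hek : e / k ≤ 1 := by
    rw [div_le_one hk0]
    linarith
  have hB : (C0 * (x ^ 2) ^ D) ^ s * x ≤ C0 ^ (s + 1) * x ^ (2 * D * (s + 1)) * x ^ (-(e / k)) := by
    have h1 : (C0 * (x ^ 2) ^ D) ^ s = C0 ^ s * x ^ (2 * D * s) := by
      rw [mul_pow, ← pow_mul, ← pow_mul, ← mul_assoc]
    have h2 : x ≤ x ^ 2 * x ^ (-(e / k)) := by
      have h3 : x ^ (-1 : ℝ) ≤ x ^ (-(e / k)) := Real.rpow_le_rpow_of_exponent_le hx (by linarith)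
      have h4 : x ^ 2 * x ^ (-1 : ℝ) = x := by
        rw [Real.rpow_neg_one]
        field_simp
      calc x = x ^ 2 * x ^ (-1 : ℝ) := h4.symm
        _ ≤ x ^ 2 * x ^ (-(e / k)) := mul_le_mul_of_nonneg_left h3 (by positivity)
    have h5 : x ^ (2 * D * s) * x ^ 2 ≤ x ^ (2 * D * (s + 1)) := by
      rw [← pow_add]
      refine pow_le_pow_right₀ hx ?_
      nlinarith
    have h6 : C0 ^ s ≤ C0 ^ (s + 1) := pow_le_pow_right₀ hC0 (Nat.le_succ s)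
    have hr : 0 < x ^ (-(e / k)) := Real.rpow_pos_of_pos hx0 _
    rw [h1]
    calc C0 ^ s * x ^ (2 * D * s) * x ≤ C0 ^ s * x ^ (2 * D * s) * (x ^ 2 * x ^ (-(e / k))) :=
          mul_le_mul_of_nonneg_left h2 (by positivity)
      _ = C0 ^ s * (x ^ (2 * D * s) * x ^ 2) * x ^ (-(e / k)) := by ring
      _ ≤ C0 ^ (s + 1) * x ^ (2 * D * (s + 1)) * x ^ (-(e / k)) := by
          refine mul_le_mul_of_nonneg_right ?_ hr.le
          exact mul_le_mul h6 h5 (by positivity) (by positivity)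
  have hr : 0 < x ^ (-(e / k)) := Real.rpow_pos_of_pos hx0 _
  have h7 : 2 * 8 ^ s * ((C0 * (x ^ 2) ^ D) ^ (s + 1) * (C1 * x ^ (-(e / k))) + (C0 * (x ^ 2) ^ D) ^ s * x) ≤
      2 * 8 ^ s * C0 ^ (s + 1) * (C1 + 1) * (x ^ (2 * D * (s + 1)) * x ^ (-(e / k))) := by
    rw [hA]
    have h8 : C0 ^ (s + 1) * x ^ (2 * D * (s + 1)) * (C1 * x ^ (-(e / k))) + (C0 * (x ^ 2) ^ D) ^ s * x ≤
        C0 ^ (s + 1) * (C1 + 1) * (x ^ (2 * D * (s + 1)) * x ^ (-(e / k))) := by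
      nlinarith [hB]
    have h9 := mul_le_mul_of_nonneg_left h8 (show (0 : ℝ) ≤ 2 * 8 ^ s by positivity)
    refine h9.trans (le_of_eq ?_)
    ring
  refine h7.trans ?_
  have h10 : x ^ (e / (2 * k)) * (x ^ (2 * D * (s + 1)) * x ^ (-(e / k))) = (x ^ 2) ^ ((D : ℝ) * (s + 1) - e / (4 * k)) := by
    rw [← Real.rpow_natCast x (2 * D * (s + 1)), ← Real.rpow_natCast x 2, ← Real.rpow_mul hx0.le, ← Real.rpow_add hx0, ← Real.rpow_add hx0]
    congr 1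
    push_cast
    field_simp
    ring
  rw [← h10]
  exact mul_le_mul_of_nonneg_right hbig (by positivity)

/-- `R = lcm r_i ≤ ∏ r_i` (`d3_lcm_le` in `H24P/D3.lean`), so some `r_i ≥ R^(1/k)` (as in `d3_large`). -/
theorem FGC6_large {k : ℕ} (hk : 1 ≤ k) (r : Fin k → ℕ) (hr : ∀ i, 1 ≤ r i) (R : ℕ) (hR : R = univ.lcm r) :
    ∃ i, (R : ℝ) ^ ((1 : ℝ) / k) ≤ r i := by
  by_contra hcon
  push Not at hcon
  have hk' : ((1 : ℝ) / k) * k = 1 := by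
    have : (k : ℝ) ≠ 0 := by positivity
    field_simp
  have h1 : (∏ i, (r i : ℝ)) < ∏ _i : Fin k, (R : ℝ) ^ ((1 : ℝ) / k) := by
    refine prod_lt_prod_of_nonempty (fun i _ => ?_) (fun i _ => hcon i) ⟨⟨0, hk⟩, mem_univ _⟩
    exact_mod_cast hr i
  rw [prod_const, card_univ, Fintype.card_fin, ← Real.rpow_natCast, ← Real.rpow_mul (by positivity), hk', Real.rpow_one] at h1
  have h2 : (∏ i, r i) < R := by exact_mod_cast h1
  have h3 := Pool.Agent.Lib.H24P.d3_lcm_le r hr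
  omega

/-- Proof. `X = R^2`, `Y = C0 * X^D`. `FGC4` and `FGC5`: `GG ≤ 2 * 8^s (Y^(s+1) C1 r^(-e) + Y^s R)`. `Y^(s+1) = C0^(s+1) R^(2D(s+1))`,
`r^(-e) ≤ R^(-e/k)`, `Y^s R ≤ C0^s R^(2Ds + 1) ≤ C0^s R^(2D(s+1)) R^(-1)` (`D ≥ 1`), `e/k ≤ 1`: at most `C2 R^(2D(s+1) - e/k)`,
`C2 = 2 * 8^s C0^(s+1) (C1 + 1)`. With `κ = e/(4k)`: `R^(2D(s+1) - 2κ) = R^(2D(s+1) - e/k + e/(2k))`, so it suffices that `C2 ≤ R^(e/(2k))`: true for
`R ≥ R0`. -/
theorem FGC6 (k s C0 D : ℕ) (hk : 1 ≤ k) (hs : 1 ≤ s) (hC0 : 1 ≤ C0) (hD : 1 ≤ D) : ∃ κ : ℝ, 0 < κ ∧ ∃ R0 : ℕ,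
    ∀ R : ℕ, R0 ≤ R → 1 ≤ R → ∀ p : Ch, 1 ≤ p.1 → p.2.IsPrimitive → p.1 ∣ R → (R : ℝ) ^ ((1 : ℝ) / k) ≤ p.1 →
    ∀ K : ℕ, 1 ≤ K → K ∣ R → Nat.Coprime K p.1 → ∀ u : ℤ → ℂ, (∀ m, ‖u m‖ ≤ 1) → Pz K u →
    GG (C0 * (R ^ 2) ^ D) s (fun m => if m ∈ Ico (-((C0 * (R ^ 2) ^ D : ℕ) : ℤ)) ((C0 * (R ^ 2) ^ D : ℕ) : ℤ) then
      cj p m * u m else 0) ≤ (((R ^ 2 : ℕ) : ℝ)) ^ ((D : ℝ) * (s + 1) - κ) := by
  obtain ⟨C1, e, hC1, he, he1, H⟩ := FGC5 s hs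
  have hk0 : (0 : ℝ) < k := by exact_mod_cast hk
  have hexp : 0 < e / (2 * k) := by positivity
  have htend : Filter.Tendsto (fun X : ℕ => (X : ℝ) ^ (e / (2 * k))) Filter.atTop Filter.atTop :=
    (tendsto_rpow_atTop hexp).comp tendsto_natCast_atTop_atTop
  obtain ⟨R0, hR0⟩ := Filter.eventually_atTop.1 (htend.eventually_ge_atTop (2 * 8 ^ s * (C0 : ℝ) ^ (s + 1) * (C1 + 1)))
  refine ⟨e / (4 * k), by positivity, R0, ?_⟩
  intro R hRR hR1 p hp1 hprim hpR hlarge K hK1 hKR hcop u hu huK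
  have hC0r : (1 : ℝ) ≤ C0 := by exact_mod_cast hC0
  have hRr : (1 : ℝ) ≤ R := by exact_mod_cast hR1
  have hRpos : (0 : ℝ) < R := by linarith
  have hRY : R ≤ C0 * (R ^ 2) ^ D := by
    have h1 : R ≤ (R ^ 2) ^ D := by
      rw [← pow_mul]
      exact Nat.le_self_pow (by omega) R
    exact h1.trans (Nat.le_mul_of_pos_left _ hC0)
  have hφ : ∀ m, ‖(fun m => cj p m * u m) m‖ ≤ 1 := by
    intro m
    simp only [norm_mul]
    exact mul_le_one₀ (FGA7_cjle p m) (norm_nonneg _) (hu m)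
  have hper : Pz R (fun m => cj p m * u m) := by
    intro m m' hm
    have h1 : cj p m = cj p m' := FGA7_cjper p m m' ((Int.natCast_dvd_natCast.2 hpR).trans hm)
    have h2 : u m = u m' := huK m m' ((Int.natCast_dvd_natCast.2 hKR).trans hm)
    simp only [h1, h2]
  have h1 := FGC4 s R (C0 * (R ^ 2) ^ D) hR1 hRY (fun m => cj p m * u m) hφ hper
  have h2 := H p hp1 hprim R K hR1 hpR hK1 hKR hcop u hu huK
  have h3 : (p.1 : ℝ) ^ (-e) ≤ (R : ℝ) ^ (-(e / k)) := by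
    have h4 : (0 : ℝ) < (R : ℝ) ^ ((1 : ℝ) / k) := Real.rpow_pos_of_pos hRpos _
    have h5 := Real.rpow_le_rpow_of_nonpos h4 hlarge (show -e ≤ 0 by linarith)
    rw [← Real.rpow_mul hRpos.le] at h5
    have h6 : (1 : ℝ) / k * -e = -(e / k) := by ring
    rwa [h6] at h5
  have h4 := h2.trans (mul_le_mul_of_nonneg_left h3 hC1.le)
  refine h1.trans ?_
  push_cast
  refine le_trans ?_ (fgc6_real k s D (C0 : ℝ) C1 e R hk hC0r hC1 he he1 hD hRr (hR0 R hRR))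
  refine mul_le_mul_of_nonneg_left ?_ (by positivity)
  refine add_le_add ?_ le_rfl
  exact mul_le_mul_of_nonneg_left h4 (by positivity)

end Pool.Agent.HUP
end

-- from Lib.HUP.FGC7
section

/-!
# Project HUP, chunk FGC7 (M): the factor at `R` for one `i0`
-/

open Finset Polynomial

namespace Pool.Agent.HUP

open Pool.Agent.Lib.H59P
open Pool.Agent.HUK (GG)

/-- The size of the linear form. -/
theorem fgc7_lf {k d : ℕ} {c : Fin k → Fin d → ℤ} {e : Fin d → ℕ} {D : Fin k → ℕ} {a : Fin k → ℤ} (h : Dat c e D a)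
    (X : ℕ) (t : Fin d → ℤ) (ht : t ∈ tb 0 (fun j => X ^ e j)) (i : Fin k) :
    |lf c t i| ≤ ((∑ j, (c i j).natAbs : ℕ) : ℤ) * (X : ℤ) ^ D i := by
  unfold lf
  refine (Finset.abs_sum_le_sum_abs _ _).trans ?_
  rw [Nat.cast_sum, Finset.sum_mul]
  refine Finset.sum_le_sum fun j _ => ?_
  have ht' := Fintype.mem_piFinset.1 ht j
  rw [mem_Ico] at ht'
  have h1 : |t j| ≤ (X : ℤ) ^ e j := by
    rw [abs_of_nonneg (by simpa using ht'.1)]
    have h2 := ht'.2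
    push_cast at h2
    have h3 : ((0 : Fin d → ℤ) j) = 0 := rfl
    rw [h3, zero_add] at h2
    exact h2.le
  rw [abs_mul, Int.natCast_natAbs]
  by_cases hc : c i j = 0
  · rw [hc, abs_zero, zero_mul, zero_mul]
  · rw [← h.blk i j hc]
    exact mul_le_mul_of_nonneg_left h1 (abs_nonneg _)

/-- The argument is in the window. -/
theorem fgc7_win {k d : ℕ} {c : Fin k → Fin d → ℤ} {e : Fin d → ℕ} {D : Fin k → ℕ} {a : Fin k → ℤ} (h : Dat c e D a)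
    (C0 X R : ℕ) (hR : 1 ≤ R) (hRX : R ≤ X) (i : Fin k)
    (hC0 : (a i).natAbs + D i + ∑ j, (c i j).natAbs + 2 ≤ C0) (P : Fin k → ℤ[X]) (β : Fin k → ℤ)
    (hβ : 0 ≤ β i ∧ β i < R) (n : ℤ) (hP : |(P i).eval n| ≤ ((a i).natAbs + D i) * (X : ℤ) ^ D i)
    (t : Fin d → ℤ) (ht : t ∈ tb 0 (fun j => X ^ e j)) :
    (P i).eval n + (β i + lf c t i) ∈ Ico (-((C0 * X ^ D i : ℕ) : ℤ)) ((C0 * X ^ D i : ℕ) : ℤ) := by
  have h1 := fgc7_lf h X t ht i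
  have hX : (1 : ℤ) ≤ X := by exact_mod_cast hR.trans hRX
  have h2 : β i < (X : ℤ) ^ D i := by
    refine hβ.2.trans_le ?_
    have h3 : (R : ℤ) ≤ X := by exact_mod_cast hRX
    exact h3.trans (le_self_pow₀ hX (by have := h.deg i; omega))
  have hX1 : (1 : ℤ) ≤ (X : ℤ) ^ D i := one_le_pow₀ hX
  have hC : (((a i).natAbs : ℤ) + D i + ((∑ j, (c i j).natAbs : ℕ) : ℤ) + 2) * (X : ℤ) ^ D i ≤
      (C0 : ℤ) * (X : ℤ) ^ D i := by
    refine mul_le_mul_of_nonneg_right ?_ (by linarith)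
    exact_mod_cast hC0
  have h4 := abs_le.1 h1
  have h5 := abs_le.1 hP
  rw [mem_Ico]
  push_cast
  push_cast at hC h4 h5
  constructor
  · nlinarith [h4.1, h5.1, hβ.1]
  · nlinarith [h4.2, h5.2]

/-- The mean with weights for polynomials with small lower coefficients. Proof. `C0 = ∑ i, ((a i).natAbs + D i + ∑ j, (c i j).natAbs) + 2`, `s` from
`FMT i0 C0`, `κ` from `FGC6` (with `k`, `s`, `C0`, `D i0`), `δ` and `X0` from `FMT`; `R1 ≥ R0` of `FGC6`, `R1 ≥ X0`, `1`. Given `w : ℤ → ℂ`, replace it by the periodic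
`n ↦ w (n % R)` (the same on `Ico 0 R`). `FMT` with `X = R^2`, `b = 0`, `σ j = X^(e j)`, `n0 = 0`, `N = X`, `f i m = cj (p i) m * u i m` times the
indicator function of `[-C0 X^(D i), C0 X^(D i))` (for ALL `i`). In the range all arguments are in the windows:
`|P i (n)| ≤ (|a i| + D i) X^(D i)` (hypothesis), `0 ≤ β i < R ≤ X^(D i)`, `|lf c t i| ≤ ∑_j |c i j| X^(e j)` and `e j = D i` where `c i j ≠ 0` (`Dat.blk`). So the sum is
that of `FGC3` with `G n t = ∏ i, cj (p i) (yy ..) * u i (yy ..)` (periodic modulo `R`: `FGA7_yy`, `FGA7_cjper`, `FGA7_up`), and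
`∑_{B0} ≤ R^d X^(2 + ∑ e j - δ) / (X^(∑ e j) R^2) = R^(d + 2) R^(-2δ)`, i.e. `(R^(-δ))^2 R^d R^2`. -/
theorem FGC7_w {k d : ℕ} {c : Fin k → Fin d → ℤ} {e : Fin d → ℕ} {D : Fin k → ℕ} {a : Fin k → ℤ} (h : Dat c e D a)
    (hF : FMT c e D a) (i0 : Fin k) : ∃ δ : ℝ, 0 < δ ∧ ∃ R1 : ℕ, ∀ P : Fin k → ℤ[X], HasD D a P →
    ∀ (β : Fin k → ℤ) (p : Fin k → Ch), (∀ i, 1 ≤ (p i).1 ∧ (p i).2.IsPrimitive) → ∀ R : ℕ,
    R = univ.lcm (fun i => (p i).1) → R1 ≤ R → (R : ℝ) ^ ((1 : ℝ) / k) ≤ (p i0).1 → (∀ i, 0 ≤ β i ∧ β i < R) →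
    (∀ (i : Fin k) (X : ℕ) (n : ℤ), R ≤ X → 0 ≤ n → n < X → |(P i).eval n| ≤ ((a i).natAbs + D i) * (X : ℤ) ^ D i) →
    ∀ (K : Fin k → ℕ) (u : Fin k → ℤ → ℂ), (∀ i, 1 ≤ K i ∧ K i ∣ R ∧ Nat.Coprime (K i) (p i).1) →
    (∀ i, Pz (K i) (u i)) → (∀ i m, ‖u i m‖ ≤ 1) → ∀ w : ℤ → ℂ, (∀ n, ‖w n‖ ≤ 1) →
    ∑ t ∈ B0 d R, ‖∑ n ∈ Ico (0 : ℤ) R, w n * ∏ i, (cj (p i) (yy c P β i n t) * u i (yy c P β i n t))‖ ^ 2 ≤
      ((R : ℝ) ^ (-δ)) ^ 2 * (R : ℝ) ^ d * (R : ℝ) ^ 2 := by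
  have hk : 1 ≤ k := Nat.one_le_iff_ne_zero.2 (fun h0 => by subst h0; exact i0.elim0)
  obtain ⟨s, hs2, hF1⟩ := hF i0 (∑ i, ((a i).natAbs + D i + ∑ j, (c i j).natAbs + 2))
  set C0 : ℕ := ∑ i, ((a i).natAbs + D i + ∑ j, (c i j).natAbs + 2) with hC0
  have hC0i : ∀ i, (a i).natAbs + D i + ∑ j, (c i j).natAbs + 2 ≤ C0 := fun i =>
    Finset.single_le_sum (f := fun i => (a i).natAbs + D i + ∑ j, (c i j).natAbs + 2) (fun _ _ => Nat.zero_le _)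
      (mem_univ i)
  have hC01 : 1 ≤ C0 := by have := hC0i i0; omega
  obtain ⟨κ, hκ, R0, h6⟩ := FGC6 k s C0 (D i0) hk (by omega) hC01 (h.deg i0)
  obtain ⟨δ, hδ, X0, hF2⟩ := hF1 κ hκ
  refine ⟨δ, hδ, R0 + X0 + 1, ?_⟩
  intro P hP β p hp R hR hR1 hpi0 hβ hPb K u hK hu hule w hw
  have hR1' : 1 ≤ R := by omega
  have hRX : R ≤ R ^ 2 := by nlinarith
  set w' : ℤ → ℂ := fun n => w (n % R) with hw'
  have hwper : Pz R w' := by
    intro m m' hm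
    rw [hw']
    exact congrArg w (Int.emod_eq_emod_iff_emod_sub_eq_zero.2 (Int.emod_eq_zero_of_dvd hm))
  have hdiv : ∀ i, (p i).1 ∣ R := fun i => by
    rw [hR]
    exact Finset.dvd_lcm (mem_univ i)
  set G : ℤ → (Fin d → ℤ) → ℂ := fun n t => ∏ i, (cj (p i) (yy c P β i n t) * u i (yy c P β i n t)) with hG
  have hGper : ∀ (n m : ℤ) (t t' : Fin d → ℤ), (R : ℤ) ∣ n - m → (∀ j, (R : ℤ) ∣ t j - t' j) → G n t = G m t' := by
    intro n m t t' h1 h2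
    refine Finset.prod_congr rfl fun i _ => ?_
    have h3 := FGA7_yy c P β i R n m t t' h1 h2
    rw [FGA7_up _ R (hdiv i) _ (FGA7_cjper (p i)) _ _ h3, FGA7_up _ R (hK i).2.1 _ (hu i) _ _ h3]
  have h3 := FGC3 R hR1' e h.par G hGper w' hwper
  -- the second moment
  have hmom := hF2 (R ^ 2) (by omega) P hP β 0 (fun j => (R ^ 2) ^ e j)
    (fun j => Nat.le_mul_of_pos_left _ (by omega)) 0 (R ^ 2)
    (by rw [zero_add]; exact Nat.le_mul_of_pos_left _ (by omega)) (fun n => w' (n : ℤ)) (fun n => hw _)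
    (fun i m => if m ∈ Ico (-((C0 * (R ^ 2) ^ D i : ℕ) : ℤ)) ((C0 * (R ^ 2) ^ D i : ℕ) : ℤ) then
      cj (p i) m * u i m else 0)
    (by
      intro i m
      by_cases hm : m ∈ Ico (-((C0 * (R ^ 2) ^ D i : ℕ) : ℤ)) ((C0 * (R ^ 2) ^ D i : ℕ) : ℤ)
      · rw [if_pos hm, norm_mul]
        exact mul_le_one₀ (FGA7_cjle _ _) (norm_nonneg _) (hule _ _)
      · rw [if_neg hm, norm_zero]
        exact zero_le_one)
    (fun i m hm => if_neg hm)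
    (h6 R (by omega) hR1' (p i0) (hp i0).1 (hp i0).2 (hdiv i0) hpi0 (K i0) (hK i0).1 (hK i0).2.1 (hK i0).2.2 (u i0)
      (hule i0) (hu i0))
  have hlong : ∑ t ∈ tb 0 (fun j => (R ^ 2) ^ e j),
      ‖∑ n ∈ Ico (0 : ℕ) (0 + R ^ 2), w' ((n : ℕ) : ℤ) * G ((n : ℕ) : ℤ) t‖ ^ 2 ≤
        ((R ^ 2 : ℕ) : ℝ) ^ (2 + (∑ j, (e j : ℝ)) - δ) := by
    refine le_trans (le_of_eq ?_) hmom
    refine Finset.sum_congr rfl fun t ht => ?_
    congr 2
    refine Finset.sum_congr rfl fun n hn => ?_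
    congr 1
    refine Finset.prod_congr rfl fun i _ => ?_
    rw [mem_Ico, zero_add] at hn
    have h7 := fgc7_win h C0 (R ^ 2) R hR1' hRX i (hC0i i) P β (hβ i) (n : ℤ)
      (hPb i (R ^ 2) n hRX (by omega) (by exact_mod_cast hn.2)) t ht
    rw [if_pos h7]
    rfl
  have hshort : ∑ t ∈ B0 d R, ‖∑ n ∈ Ico (0 : ℤ) R, w n * G n t‖ ^ 2 =
      ∑ t ∈ B0 d R, ‖∑ n ∈ Ico (0 : ℤ) R, w' n * G n t‖ ^ 2 := by
    refine Finset.sum_congr rfl fun t _ => ?_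
    congr 2
    refine Finset.sum_congr rfl fun n hn => ?_
    rw [mem_Ico] at hn
    rw [hw']
    change w n * G n t = w (n % R) * G n t
    rw [Int.emod_eq_of_lt hn.1 hn.2]
  change ∑ t ∈ B0 d R, ‖∑ n ∈ Ico (0 : ℤ) R, w n * G n t‖ ^ 2 ≤ _
  rw [hshort]
  have hRpos : (0 : ℝ) < R := by exact_mod_cast hR1'
  have hprod : (∏ j, ((R : ℝ) ^ 2) ^ e j) = ((R : ℝ) ^ 2) ^ (∑ j, (e j : ℝ)) := by
    rw [Finset.prod_pow_eq_pow_sum, ← Real.rpow_natCast ((R : ℝ) ^ 2), Nat.cast_sum]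
  have hY : (0 : ℝ) < (R : ℝ) ^ 2 := by positivity
  rw [hprod] at h3
  set S1 := ∑ t ∈ tb 0 (fun j => (R ^ 2) ^ e j),
      ‖∑ n ∈ Ico (0 : ℕ) (0 + R ^ 2), w' ((n : ℕ) : ℤ) * G ((n : ℕ) : ℤ) t‖ ^ 2 with hS1
  set S2 := ∑ t ∈ B0 d R, ‖∑ n ∈ Ico (0 : ℤ) R, w' n * G n t‖ ^ 2 with hS2
  have hpw : ((R ^ 2 : ℕ) : ℝ) ^ (2 + (∑ j, (e j : ℝ)) - δ) =
      ((R : ℝ) ^ 2) ^ (∑ j, (e j : ℝ)) * ((R : ℝ) ^ 2 * ((R : ℝ) ^ 2 * ((R : ℝ) ^ (-δ)) ^ 2)) := by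
    push_cast
    rw [show 2 + (∑ j, (e j : ℝ)) - δ = (∑ j, (e j : ℝ)) + (2 + (-δ)) by ring, Real.rpow_add hY, Real.rpow_add hY,
      ← Real.rpow_natCast ((R : ℝ) ^ (-δ)) 2, ← Real.rpow_natCast ((R : ℝ)) 2, ← Real.rpow_mul hRpos.le,
      ← Real.rpow_mul hRpos.le, ← Real.rpow_mul hRpos.le, ← Real.rpow_mul hRpos.le]
    congr 1
    rw [← Real.rpow_add hRpos, ← Real.rpow_add hRpos, ← Real.rpow_add hRpos]
    congr 1
    push_cast
    ring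
  rw [hpw] at hlong
  have hE : (0 : ℝ) < ((R : ℝ) ^ 2) ^ (∑ j, (e j : ℝ)) := Real.rpow_pos_of_pos hY _
  have h8 : ((R : ℝ) ^ 2) ^ (∑ j, (e j : ℝ)) * ((R : ℝ) ^ 2 * S2) ≤
      ((R : ℝ) ^ 2) ^ (∑ j, (e j : ℝ)) * ((R : ℝ) ^ 2 * (((R : ℝ) ^ (-δ)) ^ 2 * (R : ℝ) ^ d * (R : ℝ) ^ 2)) := by
    rw [← h3]
    refine (mul_le_mul_of_nonneg_left hlong (by positivity)).trans (le_of_eq ?_)
    ring
  exact le_of_mul_le_mul_left (le_of_mul_le_mul_left h8 hE) hY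

/-- Proof. `FGC1` gives `P'`, and `β' i = β i % R`; `yy c P β i n t ≡ yy c P' β' i n t` modulo `R`, all functions have period `R`, so `ms` does not
change when `P`, `β` are replaced by `P'`, `β'` (pointwise). `∏ i, (A i * B i) = (∏ i, A i) * ∏ i, B i`, `FGC2` with `δ = R^(-δ)`, `FGC7_w`. -/
theorem FGC7 {k d : ℕ} {c : Fin k → Fin d → ℤ} {e : Fin d → ℕ} {D : Fin k → ℕ} {a : Fin k → ℤ} (h : Dat c e D a)
    (hF : FMT c e D a) (i0 : Fin k) : ∃ δ : ℝ, 0 < δ ∧ ∃ R1 : ℕ, ∀ P : Fin k → ℤ[X], HasD D a P →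
    ∀ (β : Fin k → ℤ) (p : Fin k → Ch), (∀ i, 1 ≤ (p i).1 ∧ (p i).2.IsPrimitive) → ∀ R : ℕ,
    R = univ.lcm (fun i => (p i).1) → R1 ≤ R → (R : ℝ) ^ ((1 : ℝ) / k) ≤ (p i0).1 →
    ∀ (K : Fin k → ℕ) (u g' : Fin k → ℤ → ℂ), (∀ i, 1 ≤ K i ∧ K i ∣ R ∧ Nat.Coprime (K i) (p i).1) →
    (∀ i, Pz (K i) (u i)) → (∀ i m, ‖u i m‖ ≤ 1) → (∀ i, Pz R (g' i)) → (∀ i m, ‖g' i m‖ ≤ 1) →
    ms R (fun n n' t => ∏ i, ((cj (p i) (yy c P β i n t) * u i (yy c P β i n t)) * g' i (yy c P β i n' t))) ≤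
      (R : ℝ) ^ (-δ) := by
  obtain ⟨δ, hδ, R1, h7⟩ := FGC7_w h hF i0
  refine ⟨δ, hδ, R1 + 1, ?_⟩
  intro P hP β p hp R hR hR1 hpi0 K u g' hK hu hule hg hgle
  have hR1' : 1 ≤ R := by omega
  obtain ⟨P', hP', hPP, hPb⟩ := FGC1 D a h.deg P hP R hR1'
  have hRz : (0 : ℤ) < R := by exact_mod_cast hR1'
  have hdiv : ∀ i, (p i).1 ∣ R := fun i => by
    rw [hR]
    exact Finset.dvd_lcm (mem_univ i)
  have hyy : ∀ (i : Fin k) (n : ℤ) (t : Fin d → ℤ),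
      (R : ℤ) ∣ yy c P β i n t - yy c P' (fun i => β i % R) i n t := by
    intro i n t
    unfold yy
    have h1 : (R : ℤ) ∣ β i - β i % R := Int.dvd_self_sub_emod
    have h2 := dvd_add (hPP i n) h1
    have h3 : (P i).eval n + (β i + lf c t i) - ((P' i).eval n + (β i % R + lf c t i)) =
        (P i).eval n - (P' i).eval n + (β i - β i % R) := by ring
    rw [h3]
    exact h2
  have hcj : ∀ (i : Fin k) (n : ℤ) (t : Fin d → ℤ),
      cj (p i) (yy c P β i n t) = cj (p i) (yy c P' (fun i => β i % R) i n t) := fun i n t =>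
    FGA7_up _ R (hdiv i) _ (FGA7_cjper (p i)) _ _ (hyy i n t)
  have huu : ∀ (i : Fin k) (n : ℤ) (t : Fin d → ℤ),
      u i (yy c P β i n t) = u i (yy c P' (fun i => β i % R) i n t) := fun i n t =>
    FGA7_up _ R (hK i).2.1 _ (hu i) _ _ (hyy i n t)
  have hgg : ∀ (i : Fin k) (n : ℤ) (t : Fin d → ℤ),
      g' i (yy c P β i n t) = g' i (yy c P' (fun i => β i % R) i n t) := fun i n t => hg i _ _ (hyy i n t)
  have hF' : (fun (n n' : ℤ) (t : Fin d → ℤ) =>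
        ∏ i, ((cj (p i) (yy c P β i n t) * u i (yy c P β i n t)) * g' i (yy c P β i n' t))) =
      fun n n' t => (∏ i, (cj (p i) (yy c P' (fun i => β i % R) i n t) * u i (yy c P' (fun i => β i % R) i n t))) *
        ∏ i, g' i (yy c P' (fun i => β i % R) i n' t) := by
    funext n n' t
    rw [← Finset.prod_mul_distrib]
    exact Finset.prod_congr rfl fun i _ => by rw [hcj, huu, hgg]
  rw [hF']
  refine FGC2 R hR1' (fun n t => ∏ i, (cj (p i) (yy c P' (fun i => β i % R) i n t) *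
      u i (yy c P' (fun i => β i % R) i n t))) (fun n t => ∏ i, g' i (yy c P' (fun i => β i % R) i n t))
    (fun n t => ?_) (fun n t => ?_) ((R : ℝ) ^ (-δ)) (by positivity) ?_
  · rw [norm_prod]
    refine Finset.prod_le_one (fun _ _ => norm_nonneg _) fun i _ => ?_
    rw [norm_mul]
    exact mul_le_one₀ (FGA7_cjle _ _) (norm_nonneg _) (hule _ _)
  · rw [norm_prod]
    exact Finset.prod_le_one (fun _ _ => norm_nonneg _) fun i _ => hgle _ _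
  · intro w hw
    exact h7 P' hP' (fun i => β i % R) p hp R hR (by omega) hpi0
      (fun i => ⟨Int.emod_nonneg _ hRz.ne', Int.emod_lt_of_pos _ hRz⟩) hPb K u hK hu hule w hw

end Pool.Agent.HUP
end

-- from Lib.HUP.FGC8
section

/-!
# Project HUP, chunk FGC8 (S): the interface `ChB`
-/

open Finset Polynomial

namespace Pool.Agent.HUP

open Pool.Agent.Lib.H59P

theorem fgc8_cj (p : Ch) (m : ℤ) : ‖cj p m‖ ≤ 1 := by
  unfold cj
  rw [RCLike.norm_conj]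
  exact DirichletCharacter.norm_le_one _ _

theorem fgc8_min {k : ℕ} (δ : Fin k → ℝ) (hδ : ∀ i, 0 < δ i) : ∃ c0 : ℝ, 0 < c0 ∧ c0 ≤ 1 ∧ ∀ i, c0 ≤ δ i := by
  rcases Nat.eq_zero_or_pos k with hk | hk
  · subst hk
    exact ⟨1, one_pos, le_rfl, fun i => i.elim0⟩
  · have hne : (univ : Finset (Fin k)).Nonempty := ⟨⟨0, hk⟩, mem_univ _⟩
    refine ⟨min 1 (univ.inf' hne δ), lt_min one_pos ?_, min_le_left _ _, fun i => ?_⟩
    · rw [Finset.lt_inf'_iff]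
      exact fun i _ => hδ i
    · exact (min_le_right _ _).trans (Finset.inf'_le _ (mem_univ i))

/-- Proof. `δ i`, `R1 i` from `FGC7` for every `i0 = i` (`choose`); `c0 ≤ δ i` for all `i` and `0 < c0 ≤ 1` (finite minimum), `R1 i ≤ N` for all `i`
(`∑ i, R1 i`), `C = N + 1`. If `R ≤ N` (or `k = 0`, where `R = 1`): `ms ≤ 1 ≤ C R^(-c0)` (`FGA5_one`; `R^(-c0) ≥ R^(-1)`). If `R > N`, `k ≥ 1`:
`FGC6_large` gives `i0`, `FGC7`: `ms ≤ R^(-δ i0) ≤ R^(-c0)`. -/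
theorem ChB_of {k d : ℕ} {c : Fin k → Fin d → ℤ} {e : Fin d → ℕ} {D : Fin k → ℕ} {a : Fin k → ℤ} (h : Dat c e D a)
    (hF : FMT c e D a) : ChB c D a := by
  classical
  choose δ hδ R1 hR using fun i => FGC7 h hF i
  obtain ⟨c0, hc0, hc1, hcδ⟩ := fgc8_min δ hδ
  refine ⟨((∑ i, R1 i : ℕ) : ℝ) + 1, c0, by positivity, hc0, hc1, ?_⟩
  intro P hP β p hp R hRl K u g' hK hu hu1 hg hg1
  have hR1 : 1 ≤ R := by
    rw [Nat.one_le_iff_ne_zero, hRl]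
    intro h0
    rw [Finset.lcm_eq_zero_iff] at h0
    obtain ⟨i, -, hi⟩ := h0
    have := (hp i).1
    omega
  have hRr : (1 : ℝ) ≤ R := by exact_mod_cast hR1
  have hle1 : ms R (fun n n' t => ∏ i, ((cj (p i) (yy c P β i n t) * u i (yy c P β i n t)) *
      g' i (yy c P β i n' t))) ≤ 1 := by
    refine FGA5_one R hR1 _ ?_
    intro n n' t
    rw [norm_prod]
    refine Finset.prod_le_one (fun i _ => norm_nonneg _) (fun i _ => ?_)
    rw [norm_mul, norm_mul]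
    exact mul_le_one₀ (mul_le_one₀ (fgc8_cj _ _) (norm_nonneg _) (hu1 _ _)) (norm_nonneg _) (hg1 _ _)
  by_cases hRN : R ≤ (∑ i, R1 i) + 1
  · refine hle1.trans ?_
    have h1 : (R : ℝ) ^ (-(1 : ℝ)) ≤ (R : ℝ) ^ (-c0) :=
      Real.rpow_le_rpow_of_exponent_le hRr (by linarith)
    have h2 : (R : ℝ) ≤ ((∑ i, R1 i : ℕ) : ℝ) + 1 := by exact_mod_cast hRN
    have h3 : (R : ℝ) * (R : ℝ) ^ (-(1 : ℝ)) = 1 := by
      rw [Real.rpow_neg_one]
      exact mul_inv_cancel₀ (by positivity)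
    have h4 : (0 : ℝ) ≤ (R : ℝ) ^ (-(1 : ℝ)) := by positivity
    calc (1 : ℝ) = (R : ℝ) * (R : ℝ) ^ (-(1 : ℝ)) := h3.symm
      _ ≤ (((∑ i, R1 i : ℕ) : ℝ) + 1) * (R : ℝ) ^ (-c0) := by
        apply mul_le_mul h2 h1 h4 (by positivity)
  · have hk : 1 ≤ k := by
      by_contra hk0
      have hk0 : k = 0 := by omega
      subst hk0
      apply hRN
      rw [hRl]
      simp
    obtain ⟨i0, hi0⟩ := FGC6_large hk (fun i => (p i).1) (fun i => (hp i).1) R hRl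
    have hle : R1 i0 ≤ R := by
      have h1 : R1 i0 ≤ ∑ i, R1 i := Finset.single_le_sum (fun i _ => Nat.zero_le _) (mem_univ i0)
      omega
    have h5 := hR i0 P hP β p hp R hRl hle hi0 K u g' hK hu hu1 hg hg1
    refine h5.trans ?_
    have h6 : (R : ℝ) ^ (-δ i0) ≤ (R : ℝ) ^ (-c0) :=
      Real.rpow_le_rpow_of_exponent_le hRr (by linarith [hcδ i0])
    have h7 : (0 : ℝ) ≤ (R : ℝ) ^ (-c0) := by positivity
    have h8 : (0 : ℝ) ≤ ((∑ i, R1 i : ℕ) : ℝ) := Nat.cast_nonneg _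
    nlinarith [mul_nonneg h8 h7]

end Pool.Agent.HUP
end
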