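import Pool.Agent.Lib.H59M.M2.M008
import Pool.Agent.Lib.H59M.M2.M031
import Pool.Agent.Lib.H59M.M2.M105
import Pool.Agent.Lib.H59M.M2.M106
import Pool.Agent.Lib.H59M.M2.M108
import Pool.Agent.Lib.H59M.M2.M109
import Pool.Agent.Lib.H59M.M2.M111
import Pool.Agent.Lib.H59M.M2.M112
import Pool.Agent.Lib.H59M.M2.M113

/-! Merged copies (to shorten the build) of Lib.H9A.N10a, Lib.H9A.N6b, Lib.HUP.FGL2, Lib.HUP.FGL4, Lib.HLA.N6, Lib.HLA.Y2, Lib.HLA.Y4A, Lib.HLA.Y4. -/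

-- from Lib.H9A.N10a
section

/-!
# ASY, chunk N10a (M): the quantities of the problem
-/

open Finset Filter Polynomial

namespace Pool.Agent.H9A

open Pool.Agent.H9U
open Pool.Agent.H96U (gsys g1_val0 g1_valS)
open Pool.Agent.Lib.H59
open Pool.Agent.Lib.H59P (bx pr)

/-- The constant term `b_i + ∑_j c_ij t_j`. -/
def shiftA {g d : ℕ} (c : Fin g → Fin d → ℤ) (b : Fin g → ℤ) (t : Fin d → ℕ) (i : Fin g) : ℤ :=
  b i + ∑ j, c i j * t j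

/-- The polynomials `F_i = f_i x + b_i + ∑_j c_ij t_j`. -/
noncomputable def familyA {g d : ℕ} (f : Fin g → ℤ) (c : Fin g → Fin d → ℤ) (b : Fin g → ℤ) (t : Fin d → ℕ) :
    Fin g → ℤ[X] :=
  fun i => C (f i) * X + C (shiftA c b t i)

/-- The asymptotic formula of Q1 (all degrees `1`) at `N` up to the factor `1 ± ε`, with the complete singular series. -/
def AsymA {g : ℕ} (F : Fin g → ℤ[X]) (G : ℤ[X]) (N : ℕ) (ε : ℝ) : Prop :=
  ∃ s : ℝ, Tendsto (fun z : ℕ => seriesTrunc F G N z) atTop (nhds s) ∧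
    |(primeCount F G N : ℝ) - argCount G N / Real.log (argCount G N) ^ (g + 1) * s| ≤
      ε * (argCount G N / Real.log (argCount G N) ^ (g + 1) * s)

/-- values of the polynomials -/
theorem n10a_ev {g d : ℕ} (f : Fin g → ℤ) (c : Fin g → Fin d → ℤ) (b : Fin g → ℤ) (t : Fin d → ℕ) (i : Fin g) (n : ℤ) :
    (familyA f c b t i).eval n = f i * n + (b i + ∑ j, c i j * t j) := by
  unfold familyA shiftA
  rw [eval_add, eval_mul, eval_C, eval_X, eval_C]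

/-- a value is a prime -/
theorem n10a_prime (z : ℤ) : z.toNat.Prime ↔ ∃ q : ℕ, q.Prime ∧ z = q := by
  constructor
  · intro h
    have h1 := h.pos
    exact ⟨z.toNat, h, by omega⟩
  · rintro ⟨q, hq, rfl⟩
    rwa [Int.toNat_natCast]

/-- the values of the system at `n` are all primes -/
theorem n10a_all {g d : ℕ} (γ : ℕ) (γ0 : ℤ) (f : Fin g → ℤ) (c : Fin g → Fin d → ℤ) (b : Fin g → ℤ) (t : Fin d → ℕ) (N : ℕ)
    (G : ℤ[X]) (hGe : ∀ n : ℤ, G.eval n = γ * n + γ0) (n : ℤ) :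
    (∀ i, ((gsys γ f c).val (Fin.cons ((N : ℤ) - γ0) b) n (iv t) i).toNat.Prime) ↔
      (∀ i, ∃ q : ℕ, q.Prime ∧ (familyA f c b t i).eval n = q) ∧ ∃ q : ℕ, q.Prime ∧ (N : ℤ) - G.eval n = q := by
  have e0 : (N : ℤ) - G.eval n = (N : ℤ) - γ0 - γ * n := by
    rw [hGe]
    ring
  rw [Fin.forall_fin_succ, g1_val0, n10a_prime, e0, and_comm]
  refine and_congr (forall_congr' fun i => ?_) Iff.rfl
  rw [g1_valS, n10a_prime, n10a_ev]
  rfl

/-- `p` divides one of the values -/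
theorem n10a_dvd {g d : ℕ} (γ : ℕ) (γ0 : ℤ) (f : Fin g → ℤ) (c : Fin g → Fin d → ℤ) (b : Fin g → ℤ) (t : Fin d → ℕ) (N : ℕ)
    (G : ℤ[X]) (hGe : ∀ n : ℤ, G.eval n = γ * n + γ0) (n : ℤ) (p : ℕ) (hp : p.Prime) :
    (p : ℤ) ∣ ((∏ i, familyA f c b t i) * (C (N : ℤ) - G)).eval n ↔
      ∃ i, (p : ℤ) ∣ (gsys γ f c).val (Fin.cons ((N : ℤ) - γ0) b) n (iv t) i := by
  have hp' : Prime (p : ℤ) := Nat.prime_iff_prime_int.1 hp
  have e0 : (N : ℤ) - G.eval n = (N : ℤ) - γ0 - γ * n := by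
    rw [hGe]
    ring
  rw [eval_mul, eval_prod, eval_sub, eval_C, e0, hp'.dvd_mul, hp'.dvd_finsetProd_iff, Fin.exists_fin_succ, g1_val0, or_comm]
  refine or_congr Iff.rfl ?_
  constructor
  · rintro ⟨i, -, h⟩
    refine ⟨i, ?_⟩
    rw [g1_valS]
    rw [n10a_ev] at h
    exact h
  · rintro ⟨i, h⟩
    refine ⟨i, mem_univ i, ?_⟩
    rw [g1_valS] at h
    rw [n10a_ev]
    exact h

/-- the number of arguments -/
theorem n10a_arg (G : ℤ[X]) (γ : ℕ) (hγ : 0 < γ) (γ0 : ℤ) (hGe : ∀ n : ℤ, G.eval n = γ * n + γ0) (N : ℕ) :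
    argCount G N = (((N : ℤ) - γ0 - 1) / γ).toNat := by
  have hγ' : (0 : ℤ) < γ := by exact_mod_cast hγ
  have h1 : argSet G N = ((Icc 1 (((N : ℤ) - γ0 - 1) / γ).toNat : Finset ℕ) : Set ℕ) := by
    ext n
    rw [mem_coe, mem_Icc]
    have h2 : (n : ℤ) ≤ ((N : ℤ) - γ0 - 1) / γ ↔ (n : ℤ) * γ ≤ (N : ℤ) - γ0 - 1 := Int.le_ediv_iff_mul_le hγ'
    have e0 : (γ : ℤ) * n = n * γ := mul_comm _ _
    constructor
    · rintro ⟨h3, h4⟩
      rw [hGe, e0] at h4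
      have h5 := h2.2 (by linarith)
      omega
    · rintro ⟨h3, h4⟩
      have h5 := h2.1 (by omega)
      refine ⟨by omega, ?_⟩
      rw [hGe, e0]
      linarith
  unfold argCount
  rw [h1, Set.ncard_coe_finset, Nat.card_Icc]
  omega

/-- Translation of the three quantities of the problem, `G = γ x + γ0`.

Proof. `G.eval n = γ n + γ0` (`eq_X_add_C_of_natDegree_le_one`, as in `H96U/TestG.lean`). `primeCount`: the `n ≥ 1` with `N - γ0 - γ n > 0` (so `n ≤ N + |γ0|`) and all values prime; a value `z : ℤ` is a prime iff `z.toNat.Prime`; `n = 1 + m`,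
`m < N + |γ0|`. `seriesTrunc F G N (z + 1) = SSS (pr z)`: `Nat.primesBelow (z + 1) = pr z`, `T0S_tp`, `omegaN F G N p = nuS`, (`p ∣ (∏ F_i) (N - G)` at `a` iff `p` divides one of the values, `p` prime),
`((1 - 1/p)^(g+1))⁻¹ = (p/(p-1))^(g+1)`. `argCount`: `n ≥ 1` with `γ n < N - γ0`: `|argCount - N/γ| ≤ |γ0| + 1`. -/
theorem N10_trans {g d : ℕ} (G : ℤ[X]) (γ : ℕ) (hγ : 0 < γ) (γ0 : ℤ) (hGe : ∀ n : ℤ, G.eval n = γ * n + γ0)
    (f : Fin g → ℤ) (c : Fin g → Fin d → ℤ) (b : Fin g → ℤ) (t : Fin d → ℕ) (N : ℕ) :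
    primeCount (familyA f c b t) G N = NPr (gsys γ f c) (Fin.cons ((N : ℤ) - γ0) b) (iv t) 1 (N + γ0.natAbs) ∧
    (∀ z : ℕ, seriesTrunc (familyA f c b t) G N (z + 1) =
      SSS (gsys γ f c) (Fin.cons ((N : ℤ) - γ0) b) (iv t) (pr z)) ∧
    |(argCount G N : ℝ) - N / γ| ≤ γ0.natAbs + 1 := by
  classical
  have hγ' : (0 : ℤ) < γ := by exact_mod_cast hγ
  refine ⟨?_, fun z => ?_, ?_⟩
  · unfold primeCount NPr
    have e1 : {n : ℕ | n ∈ argSet G N ∧ (∀ i, ∃ q : ℕ, q.Prime ∧ (familyA f c b t i).eval (n : ℤ) = q) ∧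
        ∃ q : ℕ, q.Prime ∧ (N : ℤ) - G.eval (n : ℤ) = q} =
        ((((range (N + γ0.natAbs)).filter (fun n : ℕ => ∀ i, ((gsys γ f c).val (Fin.cons ((N : ℤ) - γ0) b) (1 + n) (iv t) i).toNat.Prime)).image
          (fun n => 1 + n) : Finset ℕ) : Set ℕ) := by
      ext n
      rw [Set.mem_ofPred_eq, mem_coe, mem_image]
      constructor
      · rintro ⟨⟨h1, h2⟩, h3⟩
        refine ⟨n - 1, ?_, by omega⟩
        have e2 : (1 : ℤ) + ((n - 1 : ℕ) : ℤ) = n := by omega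
        rw [mem_filter, mem_range, e2]
        refine ⟨?_, (n10a_all γ γ0 f c b t N G hGe n).2 h3⟩
        rw [hGe] at h2
        have h5 : (n : ℤ) ≤ γ * n := by nlinarith [Int.natCast_nonneg n]
        omega
      · rintro ⟨m, hm, rfl⟩
        rw [mem_filter] at hm
        have h3 := (n10a_all γ γ0 f c b t N G hGe (1 + m)).1 hm.2
        have e2 : ((1 + m : ℕ) : ℤ) = 1 + m := by push_cast; rfl
        rw [e2]
        refine ⟨⟨by omega, ?_⟩, h3⟩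
        rw [e2]
        obtain ⟨q, hq, h4⟩ := h3.2
        rw [h4]
        exact_mod_cast hq.pos
    rw [e1, Set.ncard_coe_finset, card_image_of_injective _ (fun a b h => by
      have h' : 1 + a = 1 + b := h
      omega)]
  · unfold seriesTrunc SSS
    have e1 : Nat.primesBelow (z + 1) = pr z := by
      ext p
      unfold Nat.primesBelow pr
      rw [mem_filter, mem_filter, mem_range, mem_Icc]
      constructor
      · rintro ⟨h1, h2⟩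
        exact ⟨⟨h2.one_lt.le, by omega⟩, h2⟩
      · rintro ⟨h1, h2⟩
        exact ⟨by omega, h2⟩
    rw [e1]
    refine prod_congr rfl fun p hp => ?_
    have hp' : p.Prime := (mem_filter.1 hp).2
    rw [T0S_tp _ _ _ p hp']
    have e2 : omegaN (familyA f c b t) G N p = nuS (gsys γ f c) (Fin.cons ((N : ℤ) - γ0) b) (iv t) p := by
      unfold omegaN nuS
      refine congrArg card ?_
      ext a
      rw [mem_filter, mem_filter, n10a_dvd γ γ0 f c b t N G hGe a p hp']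
    rw [e2]
    have h1 : (1 : ℝ) < p := by exact_mod_cast hp'.one_lt
    have h0 : (p : ℝ) ≠ 0 := by linarith
    have h2 : (p : ℝ) - 1 ≠ 0 := by linarith
    congr 1
    rw [← inv_pow]
    congr 1
    rw [one_sub_div h0, inv_div]
  · rw [n10a_arg G γ hγ γ0 hGe N]
    have hγr : (1 : ℝ) ≤ γ := by exact_mod_cast hγ
    have hab : |(γ0 : ℝ)| = γ0.natAbs := by
      rw [← Int.cast_abs, Int.abs_eq_natAbs, Int.cast_natCast]
    have hab2 := abs_le.1 (le_of_eq hab)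
    obtain ⟨a, ha⟩ : ∃ a : ℝ, a = (γ0.natAbs : ℝ) := ⟨_, rfl⟩
    rw [← ha] at hab2 ⊢
    have ha0 : 0 ≤ a := by
      rw [ha]
      exact Nat.cast_nonneg _
    rcases le_or_gt ((N : ℤ) - γ0 - 1) 0 with h | h
    · have h1 : (((N : ℤ) - γ0 - 1) / γ).toNat = 0 := by
        have h2 : ((N : ℤ) - γ0 - 1) / γ ≤ 0 := by
          have h3 := Int.ediv_le_ediv hγ' h
          rwa [Int.zero_ediv] at h3
        omega
      rw [h1, Nat.cast_zero, zero_sub, abs_neg, abs_of_nonneg (by positivity)]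
      have h4 : (N : ℝ) ≤ γ0 + 1 := by
        have h5 : (N : ℤ) ≤ γ0 + 1 := by linarith
        exact_mod_cast h5
      calc (N : ℝ) / γ ≤ N := div_le_self (Nat.cast_nonneg _) hγr
        _ ≤ a + 1 := by linarith
    · obtain ⟨q, hq⟩ : ∃ q : ℤ, q = ((N : ℤ) - γ0 - 1) / γ := ⟨_, rfl⟩
      have hq0 : 0 ≤ q := by
        rw [hq]
        exact Int.ediv_nonneg h.le hγ'.le
      have h1 : ((q.toNat : ℕ) : ℝ) = q := by
        have : ((q.toNat : ℕ) : ℤ) = q := Int.toNat_of_nonneg hq0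
        exact_mod_cast this
      rw [← hq, h1]
      have h2 : q * γ ≤ (N : ℤ) - γ0 - 1 := (Int.le_ediv_iff_mul_le hγ').1 hq.le
      have h3 : (N : ℤ) - γ0 - 1 < (q + 1) * γ := by
        have h4 := Int.lt_ediv_add_one_mul_self ((N : ℤ) - γ0 - 1) hγ'
        rwa [← hq] at h4
      have h2' : (q : ℝ) * γ ≤ N - γ0 - 1 := by exact_mod_cast h2
      have h3' : (N : ℝ) - γ0 - 1 < (q + 1) * γ := by exact_mod_cast h3
      have hγ0 : (0 : ℝ) < γ := by linarith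
      have h4' : (N : ℤ) - γ0 ≤ (q + 1) * γ := by omega
      have h4 : (N : ℝ) - γ0 ≤ (q + 1) * γ := by exact_mod_cast h4'
      rw [abs_le]
      constructor
      · have h5 : (N : ℝ) / γ ≤ q + 1 + a := by
          rw [div_le_iff₀ hγ0]
          nlinarith
        linarith
      · have h5 : (q : ℝ) - a ≤ N / γ := by
          rw [le_div_iff₀ hγ0]
          nlinarith
        linarith

end Pool.Agent.H9A
end

-- from Lib.H9A.N6b
section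

/-!
# ASY, chunk N6b (M): the complete singular series
-/

open Finset Filter

namespace Pool.Agent.H9A

open Pool.Agent.H9U
open Pool.Agent.Lib.H59P (Ch cj uu gl pr SF)

/-- Telescoping over squares. -/
theorem n6b_tel (F : ℕ → ℝ) (N : ℕ) (hN : 2 ^ 8 ≤ N)
    (h : ∀ z1 z2 : ℕ, N ≤ z1 → z1 ≤ z2 → z2 ≤ z1 ^ 2 → |F z1 - F z2| ≤ 2 * (z1 : ℝ) ^ (-(1 / 8) : ℝ)) (n : ℕ) :
    ∀ z1 z2 : ℕ, N ≤ z1 → z1 ≤ z2 → z2 ≤ z1 ^ (2 ^ n) → |F z1 - F z2| ≤ 4 * (z1 : ℝ) ^ (-(1 / 8) : ℝ) := by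
  induction n with
  | zero =>
    intro z1 z2 h1 h2 h3
    have h4 : z1 = z2 := by
      rw [pow_zero, pow_one] at h3
      omega
    rw [h4, sub_self, abs_zero]
    positivity
  | succ n ih =>
    intro z1 z2 h1 h2 h3
    have hz1 : 2 ^ 8 ≤ z1 := hN.trans h1
    have hz : (0 : ℝ) < z1 := by
      have : 0 < z1 := by omega
      exact_mod_cast this
    have hp : 0 ≤ (z1 : ℝ) ^ (-(1 / 8) : ℝ) := by positivity
    rcases le_total z2 (z1 ^ 2) with h4 | h4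
    · have := h z1 z2 h1 h2 h4
      linarith
    · have h5 : z1 ≤ z1 ^ 2 := Nat.le_self_pow (by norm_num) z1
      have h6 := h z1 (z1 ^ 2) h1 h5 le_rfl
      have h7 : z2 ≤ (z1 ^ 2) ^ (2 ^ n) := by
        rw [← pow_mul]
        have h8 : 2 * 2 ^ n = 2 ^ (n + 1) := by ring
        rw [h8]
        exact h3
      have h8 := ih (z1 ^ 2) z2 (h1.trans h5) h4 h7
      have h9 : ((z1 ^ 2 : ℕ) : ℝ) ^ (-(1 / 8) : ℝ) = (z1 : ℝ) ^ (-(1 / 8) : ℝ) * (z1 : ℝ) ^ (-(1 / 8) : ℝ) := by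
        push_cast
        rw [sq, Real.mul_rpow hz.le hz.le]
      have h10 : (z1 : ℝ) ^ (-(1 / 8) : ℝ) ≤ 1 / 2 := by
        have h11 : ((2 : ℝ) ^ 8) ≤ z1 := by exact_mod_cast hz1
        calc (z1 : ℝ) ^ (-(1 / 8) : ℝ) ≤ ((2 : ℝ) ^ 8) ^ (-(1 / 8) : ℝ) :=
              Real.rpow_le_rpow_of_nonpos (by positivity) h11 (by norm_num)
          _ = 1 / 2 := by
              rw [← Real.rpow_natCast (2 : ℝ) 8, ← Real.rpow_mul (by norm_num)]
              norm_num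
      rw [h9] at h8
      have h11 : (z1 : ℝ) ^ (-(1 / 8) : ℝ) * (z1 : ℝ) ^ (-(1 / 8) : ℝ) ≤ (z1 : ℝ) ^ (-(1 / 8) : ℝ) * (1 / 2) :=
        mul_le_mul_of_nonneg_left h10 hp
      have h12 : |F z1 - F z2| ≤ |F z1 - F (z1 ^ 2)| + |F (z1 ^ 2) - F z2| := abs_sub_le _ _ _
      linarith

theorem n6b_pr (Q : ℕ) : (pr Q).filter (fun l : ℕ => ¬ l ∣ 1) = pr Q := by
  refine Finset.filter_true_of_mem fun l hl h => ?_
  have h1 := (Pool.Agent.Lib.H59P.mem_pr.1 hl).2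
  exact h1.one_lt.ne' (Nat.dvd_one.1 h)

/-- **The complete singular series.**

Proof. `T4S_tail` with `ε := 1/16` (bound `X1`). For `X1 ≤ X ≤ z1 ≤ z2 ≤ z1^2`: `T4S_tail` at `X := z2` (`|minr| ≤ X^3 ≤ z2^3`), `R = 1`, `E = z1`, for `Q := z1` and `Q := z2`:
`|SSS(z1) - SSS(z2)| ≤ 2 z1^(-1/4) z2^(1/16) ≤ 2 z1^(-1/8)`. Hence (telescoping over `z, z^2, z^4, …`, `z ≥ 2^8` large) `|SSS(z1) - SSS(z2)| ≤ 8 z1^(-1/8)` for all `z2 ≥ z1 ≥ X`: a Cauchy sequence, with limit `s`,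
`|SSS(X) - s| ≤ 8 X^(-1/8)`, `s ≥ exp(-4k)` (`T1S_low`), and `8 X^(-1/8) ≤ ε exp(-4k)` for `X` large. (Alternatively by `T2S_bd`: the product over `X < l ≤ z` is
`1 + O(log X/X)`.) -/
theorem N6_lim {k d : ℕ} (S : Sys k d) (ha : ∀ i, S.a i ≠ 0) (ε : ℝ) (hε : 0 < ε) : ∃ X0 : ℕ, ∀ X : ℕ, X0 ≤ X →
    ∀ (b : Fin k → ℤ) (t : Fin d → ℤ), S.Adm b t → NZ S b t X →
    ∃ s : ℝ, 0 < s ∧ Tendsto (fun z : ℕ => SSS S b t (pr z)) atTop (nhds s) ∧ |SSS S b t (pr X) - s| ≤ ε * s := by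
  obtain ⟨X1, hX1⟩ := T4S_tail S ha (1 / 16) (by norm_num)
  have ht0 : Tendsto (fun n : ℕ => 4 * (n : ℝ) ^ (-(1 / 8) : ℝ)) atTop (nhds 0) := by
    have h1 : Tendsto (fun n : ℕ => (n : ℝ) ^ (-(1 / 8) : ℝ)) atTop (nhds 0) :=
      (tendsto_rpow_neg_atTop (by norm_num)).comp tendsto_natCast_atTop_atTop
    have h2 := h1.const_mul 4
    rwa [mul_zero] at h2
  have hpos : 0 < ε * Real.exp (-(4 * k : ℝ)) := by positivity
  obtain ⟨X2, hX2⟩ := Filter.eventually_atTop.1 (ht0.eventually (gt_mem_nhds hpos))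
  refine ⟨max (max X1 X2) (2 ^ 8), fun X hX b t hadm hnz => ?_⟩
  have hXa : X1 ≤ X := ((le_max_left _ _).trans (le_max_left _ _)).trans hX
  have hXb : X2 ≤ X := ((le_max_right _ _).trans (le_max_left _ _)).trans hX
  have hXc : 2 ^ 8 ≤ X := (le_max_right _ _).trans hX
  obtain ⟨F, hF⟩ : ∃ F : ℕ → ℝ, F = fun z => SSS S b t (pr z) := ⟨_, rfl⟩
  -- one step
  have hstep : ∀ z1 z2 : ℕ, X ≤ z1 → z1 ≤ z2 → z2 ≤ z1 ^ 2 → |F z1 - F z2| ≤ 2 * (z1 : ℝ) ^ (-(1 / 8) : ℝ) := by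
    intro z1 z2 h1 h2 h3
    have hz1 : 1 ≤ z1 := by omega
    have hz2 : X ≤ z2 := h1.trans h2
    have hz : (0 : ℝ) < z1 := by exact_mod_cast hz1
    have hz20 : (0 : ℝ) ≤ z2 := Nat.cast_nonneg _
    have hm : ∀ i j, i ≠ j → S.minr b t i j ≠ 0 ∧ |S.minr b t i j| ≤ (z2 : ℤ) ^ 3 := by
      intro i j hij
      refine ⟨(hnz i j hij).1, (hnz i j hij).2.trans ?_⟩
      have h4 : (X : ℤ) ≤ z2 := by exact_mod_cast hz2
      exact pow_le_pow_left₀ (by positivity) h4 3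
    have e1 := hX1 z2 z1 (hXa.trans hz2) h2 b t hm 1 z1 hz1 le_rfl
    have e2 := hX1 z2 z2 (hXa.trans hz2) le_rfl b t hm 1 z1 hz1 h2
    rw [n6b_pr] at e1 e2
    have e3 : (z1 : ℝ) ^ (-(1 / 4) : ℝ) * (z2 : ℝ) ^ (1 / 16 : ℝ) ≤ (z1 : ℝ) ^ (-(1 / 8) : ℝ) := by
      have h5 : (z2 : ℝ) ≤ (z1 : ℝ) ^ 2 := by exact_mod_cast h3
      have h6 : (z2 : ℝ) ^ (1 / 16 : ℝ) ≤ (z1 : ℝ) ^ (1 / 8 : ℝ) := by
        calc (z2 : ℝ) ^ (1 / 16 : ℝ) ≤ ((z1 : ℝ) ^ 2) ^ (1 / 16 : ℝ) := Real.rpow_le_rpow hz20 h5 (by norm_num)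
          _ = (z1 : ℝ) ^ (1 / 8 : ℝ) := by
              rw [← Real.rpow_natCast (z1 : ℝ) 2, ← Real.rpow_mul hz.le]
              norm_num
      calc (z1 : ℝ) ^ (-(1 / 4) : ℝ) * (z2 : ℝ) ^ (1 / 16 : ℝ) ≤ (z1 : ℝ) ^ (-(1 / 4) : ℝ) * (z1 : ℝ) ^ (1 / 8 : ℝ) :=
            mul_le_mul_of_nonneg_left h6 (by positivity)
        _ = (z1 : ℝ) ^ (-(1 / 8) : ℝ) := by
            rw [← Real.rpow_add hz]
            norm_num
    rw [abs_le] at e1 e2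
    rw [hF]
    rw [abs_le]
    constructor
    · linarith [e1.1, e1.2, e2.1, e2.2]
    · linarith [e1.1, e1.2, e2.1, e2.2]
  have hall : ∀ z1 z2 : ℕ, X ≤ z1 → z1 ≤ z2 → |F z1 - F z2| ≤ 4 * (z1 : ℝ) ^ (-(1 / 8) : ℝ) := by
    intro z1 z2 h1 h2
    refine n6b_tel F X hXc hstep z2 z1 z2 h1 h2 ?_
    have h3 : 2 ≤ z1 := by omega
    calc z2 ≤ 2 ^ z2 := Nat.lt_two_pow_self.le
      _ ≤ 2 ^ (2 ^ z2) := Nat.pow_le_pow_right (by norm_num) Nat.lt_two_pow_self.le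
      _ ≤ z1 ^ (2 ^ z2) := Nat.pow_le_pow_left h3 _
  -- Cauchy
  have hcau : CauchySeq (fun n : ℕ => F (n + X)) := by
    refine cauchySeq_of_le_tendsto_0' (fun n : ℕ => 4 * ((n + X : ℕ) : ℝ) ^ (-(1 / 8) : ℝ)) (fun n m hnm => ?_) ?_
    · rw [Real.dist_eq]
      exact hall (n + X) (m + X) (by omega) (by omega)
    · exact (tendsto_add_atTop_iff_nat (f := fun n : ℕ => 4 * (n : ℝ) ^ (-(1 / 8) : ℝ)) X).2 ht0
  obtain ⟨s, hs⟩ := cauchySeq_tendsto_of_complete hcau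
  have hs' : Tendsto F atTop (nhds s) := (tendsto_add_atTop_iff_nat X).1 hs
  have hlow : Real.exp (-(4 * k : ℝ)) ≤ s := by
    refine ge_of_tendsto' hs' fun z => ?_
    rw [hF]
    exact T1S_low (S := S) (b := b) (t := t) hadm (pr z) fun l hl => (Pool.Agent.Lib.H59P.mem_pr.1 hl).2
  have hspos : 0 < s := (Real.exp_pos _).trans_le hlow
  have hdiff : |F X - s| ≤ 4 * (X : ℝ) ^ (-(1 / 8) : ℝ) := by
    have h1 : Tendsto (fun z => |F X - F z|) atTop (nhds |F X - s|) := (tendsto_const_nhds.sub hs').abs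
    refine le_of_tendsto h1 (Filter.eventually_atTop.2 ⟨X, fun z hz => hall X z le_rfl hz⟩)
  refine ⟨s, hspos, ?_, ?_⟩
  · rw [hF] at hs'
    exact hs'
  · have h1 := hX2 X hXb
    have h2 : ε * Real.exp (-(4 * k : ℝ)) ≤ ε * s := mul_le_mul_of_nonneg_left hlow hε.le
    rw [hF] at hdiff
    exact hdiff.trans (h1.le.trans h2)

end Pool.Agent.H9A
end

-- from Lib.HUP.FGL2
section

/-!
# Project HUP, chunk FGL2 (M): two factors, mean square over `n` and `n'`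
-/

open Finset Polynomial

namespace Pool.Agent.HUP

open Pool.Agent.Lib.H59P (gl)

/-- The sum over `n` when all but few values are small. -/
theorem fgl2_split (l : ℕ) (F : ℤ → ℝ) (p : ℤ → Prop) [DecidablePred p] (a b : ℝ) (D : ℕ) (ha : 0 ≤ a) (hb : 0 ≤ b)
    (h1 : ∀ n, ¬ p n → F n ≤ a) (h2 : ∀ n, F n ≤ b) (hc : ((Ico (0 : ℤ) l).filter p).card ≤ D) :
    ∑ n ∈ Ico (0 : ℤ) l, F n ≤ l * a + D * b := by
  have h : ∀ n ∈ Ico (0 : ℤ) l, F n ≤ a + if p n then b else 0 := by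
    intro n _
    by_cases hp : p n
    · rw [if_pos hp]
      linarith [h2 n]
    · rw [if_neg hp]
      linarith [h1 n hp]
  refine (Finset.sum_le_sum h).trans ?_
  rw [Finset.sum_add_distrib, Finset.sum_const, Int.card_Ico, nsmul_eq_mul, ← Finset.sum_filter, Finset.sum_const,
    nsmul_eq_mul, sub_zero, Int.toNat_natCast]
  have hD : (((Ico (0 : ℤ) l).filter p).card : ℝ) ≤ D := by exact_mod_cast hc
  have h3 := mul_le_mul_of_nonneg_right hD hb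
  linarith

theorem fgl2_num (l Q D : ℝ) (hl : 1 ≤ l) (hQ : 0 ≤ Q) :
    l * (64 * Q / l ^ 4) + D * (4 * Q / l ^ 2) ≤ (80 + 4 * D) * Q / l ^ 2 := by
  have hl0 : (0 : ℝ) < l := by linarith
  have e1 : l * (64 * Q / l ^ 4) = 64 * Q / l ^ 3 := by
    field_simp
  have h1 : 64 * Q / l ^ 3 ≤ 64 * Q / l ^ 2 := by
    apply div_le_div_of_nonneg_left (by positivity) (by positivity)
    exact pow_le_pow_right₀ hl (by norm_num)
  have e2 : (80 + 4 * D) * Q / l ^ 2 = 64 * Q / l ^ 2 + D * (4 * Q / l ^ 2) + 16 * Q / l ^ 2 := by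
    field_simp
    ring
  have h2 : 0 ≤ 16 * Q / l ^ 2 := by positivity
  rw [e1, e2]
  linarith

/-- Proof. The reduction of `G` modulo `l` (in `(ZMod l)[X]`) is not `0` and has degree at most `D`, so at most `D` roots; `n ↦ (n : ZMod l)` is
injective on `Ico 0 l`. -/
theorem FGL2_roots (l : ℕ) (hl : l.Prime) (G : ℤ[X]) (D : ℕ) (hD : G.natDegree ≤ D) (hc : ¬ (l : ℤ) ∣ G.coeff D) :
    ((Ico (0 : ℤ) l).filter fun n => (l : ℤ) ∣ G.eval n).card ≤ D := by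
  have : Fact l.Prime := ⟨hl⟩
  have hne : G.map (Int.castRingHom (ZMod l)) ≠ 0 := by
    intro h0
    apply hc
    have h1 : (G.map (Int.castRingHom (ZMod l))).coeff D = 0 := by rw [h0, coeff_zero]
    rw [coeff_map, eq_intCast] at h1
    exact (ZMod.intCast_zmod_eq_zero_iff_dvd _ _).1 h1
  calc ((Ico (0 : ℤ) l).filter fun n => (l : ℤ) ∣ G.eval n).card
      ≤ (G.map (Int.castRingHom (ZMod l))).roots.toFinset.card := by
        refine Finset.card_le_card_of_injOn (fun n => (n : ZMod l)) ?_ ?_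
        · intro n hn
          have hn' := (Finset.mem_filter.1 hn).2
          rw [Finset.mem_coe, Multiset.mem_toFinset, mem_roots hne, IsRoot.def, eval_intCast_map, eq_intCast]
          exact (ZMod.intCast_zmod_eq_zero_iff_dvd _ _).2 hn'
        · intro n hn m hm hnm
          have h1 := Finset.mem_Ico.1 (Finset.mem_filter.1 hn).1
          have h2 := Finset.mem_Ico.1 (Finset.mem_filter.1 hm).1
          have h3 := (ZMod.intCast_eq_intCast_iff' n m l).1 hnm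
          rwa [Int.emod_eq_of_lt h1.1 h1.2, Int.emod_eq_of_lt h2.1 h2.2] at h3
    _ ≤ (G.map (Int.castRingHom (ZMod l))).roots.card := Multiset.toFinset_card_le _
    _ ≤ (G.map (Int.castRingHom (ZMod l))).natDegree := card_roots' _
    _ ≤ G.natDegree := natDegree_map_le
    _ ≤ D := hD

/-- The sum over `t` of the absolute values of two factors. -/
noncomputable def Sg {k d : ℕ} (c : Fin k → Fin d → ℤ) (P : Fin k → ℤ[X]) (β : Fin k → ℤ) (l : ℕ) (i i' : Fin k) (n n' : ℤ) : ℝ :=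
  ∑ t ∈ B0 d l, |gl l (yy c P β i n t)| * |gl l (yy c P β i' n' t)|

theorem fgl2_Sg {k d : ℕ} (c : Fin k → Fin d → ℤ) (P : Fin k → ℤ[X]) (β : Fin k → ℤ) (l : ℕ) (i i' : Fin k) (n n' : ℤ) :
    Sg c P β l i i' n n' =
      ∑ t ∈ B0 d l, |gl l (((P i).eval n + β i) + lf c t i)| * |gl l (((P i').eval n' + β i') + lf c t i')| := by
  unfold Sg yy
  simp only [add_assoc]

theorem fgl2_nonneg {k d : ℕ} (c : Fin k → Fin d → ℤ) (P : Fin k → ℤ[X]) (β : Fin k → ℤ) (l : ℕ) (i i' : Fin k) (n n' : ℤ) :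
    0 ≤ Sg c P β l i i' n n' := by
  unfold Sg
  exact Finset.sum_nonneg fun t _ => mul_nonneg (abs_nonneg _) (abs_nonneg _)

/-- Independent forms. -/
theorem fgl2_ind {k d : ℕ} (c : Fin k → Fin d → ℤ) (P : Fin k → ℤ[X]) (β : Fin k → ℤ) (l : ℕ) (hl : l.Prime)
    (i i' : Fin k) (u : Fin d → ℤ) (hu : lf c u i' = 0) (hu' : ¬ (l : ℤ) ∣ lf c u i) (hc : ∃ j, ¬ (l : ℤ) ∣ c i' j) (n n' : ℤ) :
    Sg c P β l i i' n n' ^ 2 ≤ 64 * ((l : ℝ) ^ d) ^ 2 / (l : ℝ) ^ 4 := by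
  have hl0 : (0 : ℝ) < l := by exact_mod_cast hl.pos
  rw [fgl2_Sg, FGL1_ind c i i' l hl u hu hu' hc _ _]
  have e : ((2 / (l : ℝ)) ^ 2 * (l : ℝ) ^ d) ^ 2 = 16 * ((l : ℝ) ^ d) ^ 2 / (l : ℝ) ^ 4 := by
    field_simp
    ring
  rw [e]
  gcongr
  norm_num

/-- The trivial bound. -/
theorem fgl2_triv {k d : ℕ} (c : Fin k → Fin d → ℤ) (P : Fin k → ℤ[X]) (β : Fin k → ℤ) (l : ℕ) (hl : l.Prime)
    (i i' : Fin k) (hc : ∃ j, ¬ (l : ℤ) ∣ c i j) (n n' : ℤ) :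
    Sg c P β l i i' n n' ^ 2 ≤ 4 * ((l : ℝ) ^ d) ^ 2 / (l : ℝ) ^ 2 := by
  have hl0 : (0 : ℝ) < l := by exact_mod_cast hl.pos
  have h0 := fgl2_nonneg c P β l i i' n n'
  have h1 : Sg c P β l i i' n n' ≤ 2 / l * (l : ℝ) ^ d := by
    rw [fgl2_Sg]
    exact FGL1_triv c i i' l hl hc _ _
  have e : (2 / (l : ℝ) * (l : ℝ) ^ d) ^ 2 = 4 * ((l : ℝ) ^ d) ^ 2 / (l : ℝ) ^ 2 := by
    field_simp
    ring
  rw [← e]
  exact pow_le_pow_left₀ h0 h1 2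

/-- Dependent forms, no common zero. -/
theorem fgl2_dep {k d : ℕ} (c : Fin k → Fin d → ℤ) (P : Fin k → ℤ[X]) (β : Fin k → ℤ) (l : ℕ) (hl : l.Prime)
    (i i' : Fin k) (A B : ℤ) (h : ∀ t : Fin d → ℤ, B * lf c t i = A * lf c t i') (hc : ∃ j, ¬ (l : ℤ) ∣ c i j)
    (hc' : ∃ j, ¬ (l : ℤ) ∣ c i' j) (n n' : ℤ)
    (hx : ¬ (l : ℤ) ∣ B * ((P i).eval n + β i) - A * ((P i').eval n' + β i')) :
    Sg c P β l i i' n n' ^ 2 ≤ 64 * ((l : ℝ) ^ d) ^ 2 / (l : ℝ) ^ 4 := by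
  have hl0 : (0 : ℝ) < l := by exact_mod_cast hl.pos
  have h0 := fgl2_nonneg c P β l i i' n n'
  have h1 : Sg c P β l i i' n n' ≤ 8 / (l : ℝ) ^ 2 * (l : ℝ) ^ d := by
    rw [fgl2_Sg]
    exact FGL1_dep c i i' l hl A B h hc hc' _ _ hx
  have e : (8 / (l : ℝ) ^ 2 * (l : ℝ) ^ d) ^ 2 = 64 * ((l : ℝ) ^ d) ^ 2 / (l : ℝ) ^ 4 := by
    field_simp
    ring
  rw [← e]
  exact pow_le_pow_left₀ h0 h1 2

theorem fgl2_coeff {k : ℕ} {D : Fin k → ℕ} {a : Fin k → ℤ} {P : Fin k → ℤ[X]} (hP : HasD D a P) (i : Fin k) :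
    (P i).coeff (D i) = a i := by
  rw [← (hP i).1]
  exact (hP i).2

theorem fgl2_C (D : ℕ) (hD : 1 ≤ D) (x : ℤ) : (C x : ℤ[X]).coeff D = 0 := by
  rw [coeff_C, if_neg (by omega)]

/-- Two coordinates at the same `n`. Proof. `yy c P β i n t = ((P i).eval n + β i) + lf c t i`. Independent forms: `Sg ≤ 4 l^d / l²` (`FGL1_ind`), the
sum of the squares is at most `l * 16 l^(2d) / l⁴`. Dependent forms (`D i = D i'`, `A`, `B` from `Gd.pair`): `Sg ≤ 8 l^d / l²` (`FGL1_dep`) unless `l`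
divides the value at `n` of `G = B (P i + β i) - A (P i' + β i')` (constants `C _`), which has degree at most `D i` and the coefficient
`B a i - A a i'` at `D i` (`D i ≥ 1`), so at most `D i` such `n` (`FGL2_roots`), for these `Sg ≤ 2 l^d / l` (`FGL1_triv`). Total
`l * 64 l^(2d)/l⁴ + D i * 4 l^(2d) / l² ≤ (64 + 4 D i) l^(2d) / l²`. -/
theorem FGL2_same {k d : ℕ} {c : Fin k → Fin d → ℤ} {D : Fin k → ℕ} {a : Fin k → ℤ} (l : ℕ) (hl : l.Prime)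
    (hG : Gd c D a l) (hD : ∀ i, 1 ≤ D i) (P : Fin k → ℤ[X]) (hP : HasD D a P) (β : Fin k → ℤ) (i i' : Fin k)
    (hi : i ≠ i') :
    ∑ n ∈ Ico (0 : ℤ) l, Sg c P β l i i' n n ^ 2 ≤ (80 + 4 * D i) * ((l : ℝ) ^ d) ^ 2 / (l : ℝ) ^ 2 := by
  have hl1 : (1 : ℝ) ≤ l := by exact_mod_cast hl.one_lt.le
  have hl0 : (0 : ℝ) < l := by linarith
  rcases hG.pair i i' hi with ⟨u, hu, hu'⟩ | ⟨hDD, A, B, hAB, hA, hB, hBA⟩
  · have h := fgl2_split l (fun n => Sg c P β l i i' n n ^ 2) (fun _ => False)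
      (64 * ((l : ℝ) ^ d) ^ 2 / (l : ℝ) ^ 4) (4 * ((l : ℝ) ^ d) ^ 2 / (l : ℝ) ^ 2) (D i) (by positivity) (by positivity)
      (fun n _ => fgl2_ind c P β l hl i i' u hu hu' (hG.form i') n n) (fun n => fgl2_triv c P β l hl i i' (hG.form i) n n)
      (by rw [Finset.filter_false, Finset.card_empty]; exact Nat.zero_le _)
    exact h.trans (fgl2_num _ _ _ hl1 (by positivity))
  · have hev : ∀ n : ℤ, (C B * (P i + C (β i)) - C A * (P i' + C (β i'))).eval n =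
        B * ((P i).eval n + β i) - A * ((P i').eval n + β i') := by
      intro n
      simp only [eval_sub, eval_mul, eval_add, eval_C]
    have hdeg : (C B * (P i + C (β i)) - C A * (P i' + C (β i'))).natDegree ≤ D i := by
      refine (natDegree_sub_le _ _).trans (max_le ?_ ?_)
      · refine (natDegree_C_mul_le _ _).trans ((natDegree_add_le _ _).trans (max_le (hP i).1.le ?_))
        rw [natDegree_C]
        exact Nat.zero_le _
      · refine (natDegree_C_mul_le _ _).trans ((natDegree_add_le _ _).trans (max_le ?_ ?_))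
        · rw [(hP i').1, hDD]
        · rw [natDegree_C]
          exact Nat.zero_le _
    have hco : ¬ (l : ℤ) ∣ (C B * (P i + C (β i)) - C A * (P i' + C (β i'))).coeff (D i) := by
      have e : (P i').coeff (D i) = a i' := by rw [hDD]; exact fgl2_coeff hP i'
      rw [coeff_sub, coeff_C_mul, coeff_C_mul, coeff_add, coeff_add, fgl2_coeff hP i, e, fgl2_C _ (hD i), fgl2_C _ (hD i),
        add_zero, add_zero]
      exact hBA
    have h := fgl2_split l (fun n => Sg c P β l i i' n n ^ 2)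
      (fun n => (l : ℤ) ∣ (C B * (P i + C (β i)) - C A * (P i' + C (β i'))).eval n)
      (64 * ((l : ℝ) ^ d) ^ 2 / (l : ℝ) ^ 4) (4 * ((l : ℝ) ^ d) ^ 2 / (l : ℝ) ^ 2) (D i) (by positivity) (by positivity)
      (fun n hn => fgl2_dep c P β l hl i i' A B hAB (hG.form i) (hG.form i') n n (by rw [← hev]; exact hn))
      (fun n => fgl2_triv c P β l hl i i' (hG.form i) n n) (FGL2_roots l hl _ _ hdeg hco)
    exact h.trans (fgl2_num _ _ _ hl1 (by positivity))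

/-- Dependent forms, the mean square over `n` for fixed `n'`. -/
theorem fgl2_row {k d : ℕ} {c : Fin k → Fin d → ℤ} {D : Fin k → ℕ} {a : Fin k → ℤ} (l : ℕ) (hl : l.Prime)
    (hG : Gd c D a l) (hD : ∀ i, 1 ≤ D i) (P : Fin k → ℤ[X]) (hP : HasD D a P) (β : Fin k → ℤ) (i i' : Fin k) (A B : ℤ)
    (hAB : ∀ t : Fin d → ℤ, B * lf c t i = A * lf c t i') (hB : ¬ (l : ℤ) ∣ B) (n' : ℤ) :
    ∑ n ∈ Ico (0 : ℤ) l, Sg c P β l i i' n n' ^ 2 ≤ (80 + 4 * D i) * ((l : ℝ) ^ d) ^ 2 / (l : ℝ) ^ 2 := by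
  have hl1 : (1 : ℝ) ≤ l := by exact_mod_cast hl.one_lt.le
  have hl0 : (0 : ℝ) < l := by linarith
  have hev : ∀ n : ℤ, (C B * (P i + C (β i)) - C (A * ((P i').eval n' + β i'))).eval n =
      B * ((P i).eval n + β i) - A * ((P i').eval n' + β i') := by
    intro n
    simp only [eval_sub, eval_mul, eval_add, eval_C]
  have hdeg : (C B * (P i + C (β i)) - C (A * ((P i').eval n' + β i'))).natDegree ≤ D i := by
    refine (natDegree_sub_le _ _).trans (max_le ?_ ?_)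
    · refine (natDegree_C_mul_le _ _).trans ((natDegree_add_le _ _).trans (max_le (hP i).1.le ?_))
      rw [natDegree_C]
      exact Nat.zero_le _
    · rw [natDegree_C]
      exact Nat.zero_le _
  have hco : ¬ (l : ℤ) ∣ (C B * (P i + C (β i)) - C (A * ((P i').eval n' + β i'))).coeff (D i) := by
    rw [coeff_sub, coeff_C_mul, coeff_add, fgl2_coeff hP i, fgl2_C _ (hD i), fgl2_C _ (hD i), add_zero, sub_zero]
    intro h
    rcases (Nat.prime_iff_prime_int.1 hl).dvd_or_dvd h with h | h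
    · exact hB h
    · exact hG.lc i h
  have h := fgl2_split l (fun n => Sg c P β l i i' n n' ^ 2)
    (fun n => (l : ℤ) ∣ (C B * (P i + C (β i)) - C (A * ((P i').eval n' + β i'))).eval n)
    (64 * ((l : ℝ) ^ d) ^ 2 / (l : ℝ) ^ 4) (4 * ((l : ℝ) ^ d) ^ 2 / (l : ℝ) ^ 2) (D i) (by positivity) (by positivity)
    (fun n hn => fgl2_dep c P β l hl i i' A B hAB (hG.form i) (hG.form i') n n' (by rw [← hev]; exact hn))
    (fun n => fgl2_triv c P β l hl i i' (hG.form i) n n') (FGL2_roots l hl _ _ hdeg hco)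
  exact h.trans (fgl2_num _ _ _ hl1 (by positivity))

/-- Coordinates at `n` and `n'`, `i = i'` allowed. Proof. Independent forms: `Sg ≤ 4 l^d / l²`. Otherwise (for `i = i'` with `A = B = 1`; then
`B a i = a i` is not divisible by `l`): `Sg ≤ 8 l^d / l²` (`FGL1_dep`) unless `l` divides `G.eval n`, `G = B (P i + β i) - A ((P i').eval n' + β i')` (second
term constant), degree at most `D i`, coefficient `B a i` at `D i`: for each `n'` at most `D i` values of `n`, and for these `Sg ≤ 2 l^d / l`. Total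
`l² * 64 l^(2d) / l⁴ + l * D i * 4 l^(2d) / l²`. -/
theorem FGL2_opp {k d : ℕ} {c : Fin k → Fin d → ℤ} {D : Fin k → ℕ} {a : Fin k → ℤ} (l : ℕ) (hl : l.Prime)
    (hG : Gd c D a l) (hD : ∀ i, 1 ≤ D i) (P : Fin k → ℤ[X]) (hP : HasD D a P) (β : Fin k → ℤ) (i i' : Fin k) :
    ∑ n ∈ Ico (0 : ℤ) l, ∑ n' ∈ Ico (0 : ℤ) l, Sg c P β l i i' n n' ^ 2 ≤
      (80 + 4 * D i) * ((l : ℝ) ^ d) ^ 2 / l := by
  have hl1 : (1 : ℝ) ≤ l := by exact_mod_cast hl.one_lt.le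
  have hl0 : (0 : ℝ) < l := by linarith
  have hrow : ∀ n' : ℤ, ∑ n ∈ Ico (0 : ℤ) l, Sg c P β l i i' n n' ^ 2 ≤
      (80 + 4 * D i) * ((l : ℝ) ^ d) ^ 2 / (l : ℝ) ^ 2 := by
    intro n'
    by_cases hi : i = i'
    · subst hi
      refine fgl2_row l hl hG hD P hP β i i 1 1 (fun t => rfl) ?_ n'
      intro h
      have h1 : (l : ℤ) ≤ 1 := Int.le_of_dvd one_pos h
      have h2 : 1 < l := hl.one_lt
      omega
    · rcases hG.pair i i' hi with ⟨u, hu, hu'⟩ | ⟨hDD, A, B, hAB, hA, hB, hBA⟩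
      · have h := fgl2_split l (fun n => Sg c P β l i i' n n' ^ 2) (fun _ => False)
          (64 * ((l : ℝ) ^ d) ^ 2 / (l : ℝ) ^ 4) (4 * ((l : ℝ) ^ d) ^ 2 / (l : ℝ) ^ 2) (D i) (by positivity)
          (by positivity) (fun n _ => fgl2_ind c P β l hl i i' u hu hu' (hG.form i') n n')
          (fun n => fgl2_triv c P β l hl i i' (hG.form i) n n')
          (by rw [Finset.filter_false, Finset.card_empty]; exact Nat.zero_le _)
        exact h.trans (fgl2_num _ _ _ hl1 (by positivity))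
      · exact fgl2_row l hl hG hD P hP β i i' A B hAB hB n'
  rw [Finset.sum_comm]
  refine (Finset.sum_le_sum fun n' _ => hrow n').trans (le_of_eq ?_)
  rw [Finset.sum_const, Int.card_Ico, nsmul_eq_mul, sub_zero, Int.toNat_natCast]
  field_simp

end Pool.Agent.HUP
end

-- from Lib.HUP.FGL4
section

/-!
# Project HUP, chunk FGL4 (S/M): the interface `LocB`
-/

open Finset Polynomial

namespace Pool.Agent.HUP

open Pool.Agent.Lib.H59P (gl)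
open Pool.Agent.HUK (KB4A_le)

theorem fgl4_n0 {k : ℕ} (l : ℕ) (hl : l.Prime) (f : Fin k → ℤ) (V : Finset (Fin k)) :
    ‖∏ i ∈ V, ((gl l (f i) : ℝ) : ℂ)‖ ≤ 1 := by
  rw [norm_prod]
  refine Finset.prod_le_one (fun i _ => norm_nonneg _) fun i _ => ?_
  rw [Complex.norm_real, Real.norm_eq_abs]
  exact KB4A_le l hl _

theorem fgl4_n1 {k : ℕ} (l : ℕ) (hl : l.Prime) (f : Fin k → ℤ) (V : Finset (Fin k)) (i : Fin k) (hi : i ∈ V) :
    ‖∏ i ∈ V, ((gl l (f i) : ℝ) : ℂ)‖ ≤ |gl l (f i)| := by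
  rw [← Finset.mul_prod_erase V _ hi, norm_mul, Complex.norm_real, Real.norm_eq_abs]
  exact mul_le_of_le_one_right (abs_nonneg _) (fgl4_n0 l hl f _)

theorem fgl4_n2 {k : ℕ} (l : ℕ) (hl : l.Prime) (f : Fin k → ℤ) (V : Finset (Fin k)) (i i' : Fin k) (hi : i ∈ V)
    (hi' : i' ∈ V) (h : i ≠ i') :
    ‖∏ i ∈ V, ((gl l (f i) : ℝ) : ℂ)‖ ≤ |gl l (f i)| * |gl l (f i')| := by
  rw [← Finset.mul_prod_erase V _ hi, norm_mul, Complex.norm_real, Real.norm_eq_abs]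
  exact mul_le_mul_of_nonneg_left (fgl4_n1 l hl f _ i' (Finset.mem_erase.2 ⟨h.symm, hi'⟩)) (abs_nonneg _)

theorem fgl4_Fl {k d : ℕ} (c : Fin k → Fin d → ℤ) (P : Fin k → ℤ[X]) (β : Fin k → ℤ) (V V' : Finset (Fin k)) (l : ℕ)
    (hl : l.Prime) (n n' : ℤ) (t : Fin d → ℤ) : ‖Fl c P β V V' l n n' t‖ ≤ 1 := by
  rw [Fl, norm_mul]
  exact mul_le_one₀ (fgl4_n0 l hl _ V) (norm_nonneg _) (fgl4_n0 l hl _ V')

/-- A single factor. -/
theorem fgl4_zero {k d : ℕ} (c : Fin k → Fin d → ℤ) (P : Fin k → ℤ[X]) (β : Fin k → ℤ) (i : Fin k) (l : ℕ) (hl : l.Prime)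
    (hc : ∃ j, ¬ (l : ℤ) ∣ c i j) (n : ℤ) : ∑ t ∈ B0 d l, ((gl l (yy c P β i n t) : ℝ) : ℂ) = 0 := by
  have h1 := FGL1_zero c i l hl hc ((P i).eval n + β i)
  rw [← Complex.ofReal_sum]
  have h2 : ∑ t ∈ B0 d l, gl l (yy c P β i n t) = 0 := by
    rw [← h1]
    refine sum_congr rfl fun t _ => ?_
    rw [yy, add_assoc]
  rw [h2, Complex.ofReal_zero]

/-- The mean from a bound of the double sum. -/
theorem fgl4_ms {d : ℕ} (l : ℕ) (hl : l.Prime) (F : ℤ → ℤ → (Fin d → ℤ) → ℂ) (K : ℝ) (G : ℤ → ℤ → ℝ)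
    (h : ∀ n n', ‖∑ t ∈ B0 d l, F n n' t‖ ≤ G n n')
    (hG : ∑ n ∈ Ico (0 : ℤ) l, ∑ n' ∈ Ico (0 : ℤ) l, G n n' ^ 2 ≤ K * ((l : ℝ) ^ d) ^ 2 / l) : ms l F ≤ K / (l : ℝ) ^ 3 := by
  have hl0 : (0 : ℝ) < l := by exact_mod_cast hl.pos
  rw [ms, div_le_iff₀ (by positivity)]
  calc ∑ n ∈ Ico (0 : ℤ) l, ∑ n' ∈ Ico (0 : ℤ) l, ‖∑ t ∈ B0 d l, F n n' t‖ ^ 2
      ≤ ∑ n ∈ Ico (0 : ℤ) l, ∑ n' ∈ Ico (0 : ℤ) l, G n n' ^ 2 :=
        sum_le_sum fun n _ => sum_le_sum fun n' _ => pow_le_pow_left₀ (norm_nonneg _) (h n n') 2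
    _ ≤ _ := hG
    _ = _ := by field_simp

theorem fgl4_card (l : ℕ) : ((Ico (0 : ℤ) l).card : ℝ) = l := by
  rw [Int.card_Ico, sub_zero, Int.toNat_natCast]

/-- Proof. `Λ` from `FGL3`, `C = Λ³ + 81 + 4 ∑ D i`. For `l ≤ Λ`: `ms ≤ 1 ≤ Λ³ / l³` (`FGA5_one`, `KB4A_le`). Let `l > Λ`, so `Gd c D a l`. If
`V.card + V'.card = 1`: one of the sets is `{i}`, the other `∅`, the inner sums are `∑ t, gl l (x + lf c t i) = 0` (`FGL1_zero`, casts to `ℂ`), `ms = 0`.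
Otherwise `‖Fl ..‖ ≤ |gl l (yy i n_1 t)| |gl l (yy i' n_2 t)|` for two different factors (the others are at most `1`): both in `V` (`V.card ≥ 2`,
`i ≠ i'`, `n_1 = n_2 = n`), both in `V'` (`n_1 = n_2 = n'`), or `i ∈ V`, `i' ∈ V'` (`n_1 = n`, `n_2 = n'`). So the inner sum is at most `Sg ..`, and
`FGL2_same` (times `l` for the other variable) or `FGL2_opp` give `∑_{n,n'} ≤ (80 + 4 D i) l^(2d) / l`, divided by `l² l^(2d)`. -/
theorem LocB_of {k d : ℕ} {c : Fin k → Fin d → ℤ} {e : Fin d → ℕ} {D : Fin k → ℕ} {a : Fin k → ℤ} (h : Dat c e D a) :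
    LocB c D a := by
  obtain ⟨Λ, hΛ⟩ := FGL3 h
  have hS0 : (0 : ℝ) ≤ ∑ i, (D i : ℝ) := sum_nonneg fun i _ => Nat.cast_nonneg _
  refine ⟨(Λ : ℝ) ^ 3 + 81 + 4 * ∑ i, (D i : ℝ), by nlinarith [pow_nonneg (Nat.cast_nonneg Λ : (0 : ℝ) ≤ Λ) 3], ?_⟩
  intro P hP β l hl V V' hV
  have hl0 : (0 : ℝ) < l := by exact_mod_cast hl.pos
  have hl3 : (0 : ℝ) < (l : ℝ) ^ 3 := by positivity
  have hΛ3 : (0 : ℝ) ≤ (Λ : ℝ) ^ 3 := by positivity
  by_cases hlΛ : l ≤ Λ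
  · refine le_trans (FGA5_one l hl.one_le _ fun n n' t => fgl4_Fl c P β V V' l hl n n' t) ?_
    rw [le_div_iff₀ hl3, one_mul]
    have h1 : (l : ℝ) ^ 3 ≤ (Λ : ℝ) ^ 3 := pow_le_pow_left₀ hl0.le (by exact_mod_cast hlΛ) 3
    linarith
  · have hG : Gd c D a l := hΛ l hl (not_le.1 hlΛ)
    -- it suffices to prove the bound with `80 + 4 D i`
    have key : ∀ i : Fin k, ms l (Fl c P β V V' l) ≤ (80 + 4 * (D i : ℝ)) / (l : ℝ) ^ 3 →
        ms l (Fl c P β V V' l) ≤ ((Λ : ℝ) ^ 3 + 81 + 4 * ∑ i, (D i : ℝ)) / (l : ℝ) ^ 3 := by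
      intro i hi
      refine le_trans hi (div_le_div_of_nonneg_right ?_ hl3.le)
      have h1 : (D i : ℝ) ≤ ∑ i, (D i : ℝ) :=
        single_le_sum (f := fun i => (D i : ℝ)) (fun i _ => Nat.cast_nonneg _) (mem_univ i)
      linarith
    by_cases hV1 : 2 ≤ V.card
    · -- both in `V`
      obtain ⟨i, hi, i', hi', hii⟩ := one_lt_card.1 hV1
      refine key i (fgl4_ms l hl _ _ (fun n _ => Sg c P β l i i' n n) (fun n n' => ?_) ?_)
      · refine le_trans (norm_sum_le _ _) (sum_le_sum fun t _ => ?_)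
        rw [Fl, norm_mul]
        refine le_trans (mul_le_of_le_one_right (norm_nonneg _) (fgl4_n0 l hl _ V')) ?_
        exact fgl4_n2 l hl (fun i => yy c P β i n t) V i i' hi hi' hii
      · have h1 := FGL2_same l hl hG h.deg P hP β i i' hii
        simp only [sum_const, nsmul_eq_mul]
        rw [← mul_sum, fgl4_card]
        calc (l : ℝ) * ∑ n ∈ Ico (0 : ℤ) l, Sg c P β l i i' n n ^ 2
            ≤ l * ((80 + 4 * D i) * ((l : ℝ) ^ d) ^ 2 / (l : ℝ) ^ 2) := mul_le_mul_of_nonneg_left h1 hl0.le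
          _ = _ := by field_simp
    · by_cases hV2 : 2 ≤ V'.card
      · obtain ⟨i, hi, i', hi', hii⟩ := one_lt_card.1 hV2
        refine key i (fgl4_ms l hl _ _ (fun _ n' => Sg c P β l i i' n' n') (fun n n' => ?_) ?_)
        · refine le_trans (norm_sum_le _ _) (sum_le_sum fun t _ => ?_)
          rw [Fl, norm_mul]
          refine le_trans (mul_le_of_le_one_left (norm_nonneg _) (fgl4_n0 l hl _ V)) ?_
          exact fgl4_n2 l hl (fun i => yy c P β i n' t) V' i i' hi hi' hii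
        · have h1 := FGL2_same l hl hG h.deg P hP β i i' hii
          rw [sum_const, nsmul_eq_mul, fgl4_card]
          calc (l : ℝ) * ∑ n ∈ Ico (0 : ℤ) l, Sg c P β l i i' n n ^ 2
              ≤ l * ((80 + 4 * D i) * ((l : ℝ) ^ d) ^ 2 / (l : ℝ) ^ 2) := mul_le_mul_of_nonneg_left h1 hl0.le
            _ = _ := by field_simp
      · by_cases hV3 : V.card = 1
        · obtain ⟨i, hi⟩ := card_eq_one.1 hV3
          by_cases hV4 : V'.card = 1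
          · obtain ⟨i', hi'⟩ := card_eq_one.1 hV4
            refine key i (fgl4_ms l hl _ _ (fun n n' => Sg c P β l i i' n n') (fun n n' => ?_) ?_)
            · refine le_trans (norm_sum_le _ _) (sum_le_sum fun t _ => ?_)
              rw [Fl, norm_mul]
              exact mul_le_mul (fgl4_n1 l hl (fun i => yy c P β i n t) V i (by rw [hi]; exact mem_singleton_self i))
                (fgl4_n1 l hl (fun i => yy c P β i n' t) V' i' (by rw [hi']; exact mem_singleton_self i'))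
                (norm_nonneg _) (abs_nonneg _)
            · exact FGL2_opp l hl hG h.deg P hP β i i'
          · have hV5 : V' = ∅ := card_eq_zero.1 (by omega)
            have h0 : ∀ n n', ∑ t ∈ B0 d l, Fl c P β V V' l n n' t = 0 := by
              intro n n'
              rw [← fgl4_zero c P β i l hl (hG.form i) n]
              refine sum_congr rfl fun t _ => ?_
              rw [Fl, hi, hV5, prod_singleton, prod_empty, mul_one]
            have h1 : ms l (Fl c P β V V' l) = 0 := by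
              rw [ms]
              simp only [h0]
              simp
            rw [h1]
            positivity
        · have hV6 : V = ∅ := card_eq_zero.1 (by omega)
          have hV7 : V'.card = 1 := by
            rw [hV6, card_empty] at hV
            omega
          obtain ⟨i, hi⟩ := card_eq_one.1 hV7
          have h0 : ∀ n n', ∑ t ∈ B0 d l, Fl c P β V V' l n n' t = 0 := by
            intro n n'
            rw [← fgl4_zero c P β i l hl (hG.form i) n']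
            refine sum_congr rfl fun t _ => ?_
            rw [Fl, hi, hV6, prod_singleton, prod_empty, one_mul]
          have h1 : ms l (Fl c P β V V' l) = 0 := by
            rw [ms]
            simp only [h0]
            simp
          rw [h1]
          positivity

end Pool.Agent.HUP
end

-- from Lib.HLA.N6
section

/-!
# LOGA, chunk N6 (M): truncation and blocks of the singular series without linear coordinate
-/

open Finset Polynomial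

namespace Pool.Agent.HLA

open Pool.Agent.Lib.H68T Pool.Agent.Lib.H18Q Pool.Agent.Lib.H59P Pool.Agent.Lib.H24P
open Pool.Agent.HUP Pool.Agent.H9P

theorem n6_filter (Q : ℕ) : (pr Q).filter (fun l => ¬ l ∣ 1) = pr Q := by
  refine Finset.filter_true_of_mem fun l hl h => ?_
  have h1 : l.Prime := (Finset.mem_filter.1 hl).2
  exact h1.one_lt.ne' (Nat.dvd_one.1 h)

/-- `R6_main` (`HUP/R6.lean`) without `B`, `R = 1`. Proof. As there with `N1_main`, `N1_abs`, and `w10_point` (`W10A.lean`) with `P' = pr Q`, `E = fl Q (1/2)` (`SF (fl Q (1/2)) 1 = dv (pr Q) Q (fl Q (1/2))`, `t5_SF` with `R = 1`). -/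
theorem N6_trunc (k A E : ℕ) (hA : 1 ≤ A) (Cc cc : ℝ) (hC : FPar Cc cc) : ∃ c : ℝ, 0 < c ∧ ∃ Q0 : ℕ, ∀ Q : ℕ, Q0 ≤ Q →
    ∀ P : Fin k → ℤ[X], Pol A P → ∀ (ι : Type) (S : Finset ι) (g : ι → Fin k → ℕ), FGood E Cc cc (Q ^ 2) P S g →
    ∑ x ∈ S, (∑ d ∈ SF (fl Q (1 / 2)) 1, tdf d (ran P (g x)) - SSf (pr Q) (ran P (g x))) ^ 2 ≤ S.card * (Q : ℝ) ^ (-c) := by
  classical
  obtain ⟨E0, hE0d⟩ : ∃ E0 : ℕ, E0 = E := ⟨E, rfl⟩
  rw [← hE0d]
  clear hE0d E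
  obtain ⟨C3, c3, hC3, hc3, hc31, h3⟩ := N1_main k E0 Cc cc hC
  obtain ⟨C1, hC1, h1⟩ := N1_abs k A hA
  obtain ⟨Q1, hQ1, hlog⟩ := G1_rlog ((1 + C1 * 500 ^ k) ^ 2 * C3) (2 * (k + 1) + C3) (c3 / 8)
    (by linarith)
  obtain ⟨Q2, hQ2, hsize⟩ := G1_size A
  refine ⟨c3 / 8, by linarith, max 3 (max Q1 Q2), fun Q hQ P hP ι S g hG => ?_⟩
  obtain ⟨R, hRd⟩ : ∃ R : ℕ, R = 1 := ⟨1, rfl⟩
  have hR1 : 1 ≤ R := hRd.ge
  have hprR : (pr Q).filter (fun l => ¬ l ∣ R) = pr Q := by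
    rw [hRd]
    exact n6_filter Q
  have hflR : SF (fl Q (1 / 2)) 1 = SF (fl Q (1 / 2) / R) R := by
    rw [hRd, Nat.div_one]
  rw [← hprR, hflR]
  have hQ3 : 3 ≤ Q := (le_max_left _ _).trans hQ
  have hQQ1 : Q1 ≤ Q := (le_max_left _ _).trans ((le_max_right _ _).trans hQ)
  have hQQ2 : Q2 ≤ Q := (le_max_right _ _).trans ((le_max_right _ _).trans hQ)
  have hQr : (1 : ℝ) ≤ Q := by exact_mod_cast (show 1 ≤ Q by omega)
  have hQ0 : (0 : ℝ) < Q := by linarith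
  have hL : 0 ≤ Real.log Q := Real.log_nonneg hQr
  obtain ⟨-, -, -, hEE, hEbig⟩ := hsize Q hQQ2 1 1 le_rfl hA (by rw [one_pow]; omega)
  have hR : R ≤ fl Q (1 / 16) := by
    rw [hRd]
    exact (G1_one (by omega) (by norm_num)).1
  have hEb := hEbig R hR1 hR
  have hone : (1 : ℝ) ≤ (Q : ℝ) ^ (1 / 4 : ℝ) := Real.one_le_rpow hQr (by norm_num)
  have hE1 : 1 ≤ fl Q (1 / 2) / R := by exact_mod_cast hone.trans hEb
  have hEQ : fl Q (1 / 2) / R ≤ Q := by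
    refine (Nat.div_le_self _ _).trans ?_
    exact G1_le (by omega) (by norm_num) (by norm_num)
  set E := fl Q (1 / 2) / R with hE
  set P' := (pr Q).filter (fun l => ¬ l ∣ R) with hP'
  have hsub : P' ⊆ pr Q := Finset.filter_subset _ _
  have hvol : (0 : ℝ) ≤ S.card := Nat.cast_nonneg _
  have hE0 : (0 : ℝ) < E := by exact_mod_cast hE1
  have hmvs : ∀ j, j ≤ Q → ∑ x ∈ S, (∑ d ∈ mv P' j E, tdf d (ran P (g x))) ^ 2 ≤
      C3 * (1 + Real.log Q) ^ C3 * (S.card : ℝ) * (E : ℝ) ^ (-c3) := fun j hj =>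
    h3 P Q (by omega) (mv P' j E) E hE1 (fun d hd => by
      obtain ⟨m1, m2, m3, m4⟩ := t5_mv hEQ (one_dvd R) hj d hd
      exact ⟨m1, m2, m3, fun l hl => (m4 l hl).1⟩) ι S g hG
  have hW : 0 ≤ C3 * (1 + Real.log Q) ^ C3 * (S.card : ℝ) * (E : ℝ) ^ (-c3) := by
    have : 0 ≤ (1 + Real.log Q) ^ C3 := Real.rpow_nonneg (by linarith) _
    have : 0 ≤ (E : ℝ) ^ (-c3) := Real.rpow_nonneg hE0.le _
    positivity
  have hkey := t5_mink S P' (fun q => C1 / q * (500 * Real.log Q) ^ k)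
    (fun q _ => by positivity)
    (fun x => ∑ m ∈ mv P' Q E, tdf m (ran P (g x)))
    (fun q x => ∑ m ∈ mv P' (q - 1) E, tdf m (ran P (g x)))
    (fun x => ∑ d ∈ SF E R, tdf d (ran P (g x)) - SSf P' (ran P (g x)))
    ((1 + C1 * 500 ^ k) * (1 + Real.log Q) ^ (k + 1)) _ hW ?_ (hmvs Q le_rfl)
    (fun q hq => hmvs (q - 1) ?_) (fun x _ => t5_point (ran P (g x)) C1 (fun l hl => h1 P hP (g x) l hl)
      (by omega) hE1 hEQ hR1)
  · refine hkey.trans ?_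
    have e1 : (E : ℝ) ^ (-c3) ≤ (Q : ℝ) ^ (-(c3 / 4)) := by
      calc (E : ℝ) ^ (-c3) ≤ ((Q : ℝ) ^ (1 / 4 : ℝ)) ^ (-c3) :=
            Real.rpow_le_rpow_of_nonpos (by linarith) hEb (by linarith)
        _ = (Q : ℝ) ^ (-(c3 / 4)) := by
            rw [← Real.rpow_mul hQ0.le]
            congr 1
            ring
    have e2 := hlog Q hQQ1
    have e3 : ((1 + C1 * 500 ^ k) * (1 + Real.log Q) ^ (k + 1)) ^ 2 *
        (C3 * (1 + Real.log Q) ^ C3) =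
        (1 + C1 * 500 ^ k) ^ 2 * C3 * (1 + Real.log Q) ^ (2 * (k + 1) + C3) := by
      have hp : 0 < 1 + Real.log Q := by linarith
      have e4 : (1 + Real.log Q) ^ (2 * ((k : ℝ) + 1) + C3) =
          ((1 + Real.log Q) ^ (k + 1)) ^ 2 * (1 + Real.log Q) ^ C3 := by
        rw [Real.rpow_add hp]
        congr 1
        rw [← pow_mul, ← Real.rpow_natCast]
        congr 1
        push_cast
        ring
      rw [e4]
      ring
    calc ((1 + C1 * 500 ^ k) * (1 + Real.log Q) ^ (k + 1)) ^ 2 *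
          (C3 * (1 + Real.log Q) ^ C3 * (S.card : ℝ) * (E : ℝ) ^ (-c3))
        = (((1 + C1 * 500 ^ k) * (1 + Real.log Q) ^ (k + 1)) ^ 2 *
          (C3 * (1 + Real.log Q) ^ C3)) * (S.card : ℝ) * (E : ℝ) ^ (-c3) := by ring
      _ ≤ (Q : ℝ) ^ (c3 / 8) * (S.card : ℝ) * (Q : ℝ) ^ (-(c3 / 4)) := by
          rw [e3]
          refine mul_le_mul (mul_le_mul_of_nonneg_right e2 hvol) e1 (Real.rpow_nonneg hE0.le _) ?_
          exact mul_nonneg (Real.rpow_nonneg hQ0.le _) hvol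
      _ = (S.card : ℝ) * ((Q : ℝ) ^ (c3 / 8) * (Q : ℝ) ^ (-(c3 / 4))) := by ring
      _ = (S.card : ℝ) * (Q : ℝ) ^ (-(c3 / 8)) := by
          rw [← Real.rpow_add hQ0]
          congr 2
          ring
  · have f1 := t5_harm Q P' hsub
    have f2 : ∑ q ∈ P', C1 / (q : ℝ) * (500 * Real.log Q) ^ k =
        (C1 * (500 * Real.log Q) ^ k) * ∑ q ∈ P', 1 / (q : ℝ) := by
      rw [Finset.mul_sum]
      refine Finset.sum_congr rfl fun q _ => ?_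
      ring
    rw [f2]
    have f3 : (500 * Real.log Q) ^ k ≤ 500 ^ k * (1 + Real.log Q) ^ k := by
      rw [mul_pow]
      refine mul_le_mul_of_nonneg_left ?_ (by positivity)
      exact pow_le_pow_left₀ hL (by linarith) _
    have f4 : (1 : ℝ) ≤ (1 + Real.log Q) ^ (k + 1) := one_le_pow₀ (by linarith)
    have f5 : 0 ≤ C1 * (500 * Real.log Q) ^ k := by positivity
    have f6 : C1 * (500 * Real.log Q) ^ k * ∑ q ∈ P', 1 / (q : ℝ) ≤
        C1 * (500 ^ k * (1 + Real.log Q) ^ k) * (1 + Real.log Q) := by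
      refine mul_le_mul (mul_le_mul_of_nonneg_left f3 (by linarith)) f1 ?_ ?_
      · exact Finset.sum_nonneg fun q _ => by positivity
      · have : 0 ≤ 1 + Real.log Q := by linarith
        positivity
    calc 1 + C1 * (500 * Real.log Q) ^ k * ∑ q ∈ P', 1 / (q : ℝ)
        ≤ (1 + Real.log Q) ^ (k + 1) +
          C1 * (500 ^ k * (1 + Real.log Q) ^ k) * (1 + Real.log Q) := add_le_add f4 f6
      _ = (1 + C1 * 500 ^ k) * (1 + Real.log Q) ^ (k + 1) := by ring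
  · have h7 := (Finset.mem_Icc.1 (Finset.mem_filter.1 (hsub hq)).1).2
    omega

/-- **N6.** Proof. `w10_gen` with `k' = k`, `N1_abs`, `N1_main` at the level `Q = z'` (`FGood` at `z'² ≤ z⁴`: `u10_mono`), `z1 = 0`. (Compare `W10_block`.) -/
theorem N6_block (k A E : ℕ) (hA : 1 ≤ A) (Cc cc : ℝ) (hC : FPar Cc cc) : ∃ c : ℝ, 0 < c ∧ ∃ z0 : ℕ, ∀ z z' : ℕ,
    z0 ≤ z → z ≤ z' → z' ≤ z ^ 2 → ∀ P : Fin k → ℤ[X], Pol A P →
    ∀ (ι : Type) (S : Finset ι) (g : ι → Fin k → ℕ), FGood E Cc cc (z ^ 4) P S g →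
    ∑ x ∈ S, (SSf ((pr z').filter (fun l => z < l)) (ran P (g x)) - 1) ^ 2 ≤ S.card * (z : ℝ) ^ (-c) := by
  obtain ⟨C1, hC1, h1⟩ := N1_abs k A hA
  obtain ⟨C3, c3, hC3, hc3, -, h3⟩ := N1_main k E Cc cc hC
  obtain ⟨z0, hz0⟩ := w10_gen k C1 C3 c3 hC1 hC3 hc3 0
  refine ⟨c3 / 2, by linarith, max z0 2, fun z z' hz hzz hzz2 P hP ι S g hG => ?_⟩
  have hz2 : 2 ≤ z' := ((le_max_right _ _).trans hz).trans hzz
  refine hz0 z z' ((le_max_left _ _).trans hz) hzz hzz2 ι S (fun x => ran P (g x)) (fun x l hl => h1 P hP (g x) l hl) ?_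
  intro Δ D hD hΔ
  have hG' : FGood E Cc cc (z' ^ 2) P S g := by
    refine u10_mono ?_ hG
    calc z' ^ 2 ≤ (z ^ 2) ^ 2 := Nat.pow_le_pow_left hzz2 2
      _ = z ^ 4 := by ring
  exact h3 P z' hz2 Δ D hD (fun d hd => ⟨(hΔ d hd).1, (hΔ d hd).2.1, (hΔ d hd).2.2.1, fun l hl => ((hΔ d hd).2.2.2 l hl).1⟩)
    ι S g hG'

/-- `U10_mod` without `B`. -/
theorem N6_mod {k : ℕ} (S : Finset ℕ) (P : Fin k → ℤ[X]) (h h' : Fin k → ℕ)
    (hh : ∀ l ∈ S, ∀ i, (l : ℤ) ∣ (h i : ℤ) - h' i) : SSf S (ran P h) = SSf S (ran P h') := by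
  unfold SSf
  refine Finset.prod_congr rfl fun l hl => ?_
  unfold tpf
  have h1 : ∀ n : ℤ, ∏ i, (1 + gl l (ran P h i n)) = ∏ i, (1 + gl l (ran P h' i n)) := by
    intro n
    refine Finset.prod_congr rfl fun j _ => ?_
    obtain ⟨q, hq⟩ := hh l hl j
    show 1 + gl l ((P j).eval n + (h j : ℤ)) = 1 + gl l ((P j).eval n + (h' j : ℤ))
    have h2 : (P j).eval n + (h j : ℤ) = ((P j).eval n + (h' j : ℤ)) + q * l := by linarith
    rw [h2, gl_per]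
  simp only [h1]

/-- **N6b.** Copy of `W10_main` with `N6_block`, `N6_mod`. -/
theorem N6_main {k d : ℕ} (c : Fin k → Fin d → ℤ) (e : Fin d → ℕ) (D : Fin k → ℕ) (a : Fin k → ℤ)
    (hF : FGTU c D a) (he : ∀ j, 1 ≤ e j) (hD : ∀ i, 1 ≤ D i) (P : Fin k → ℤ[X]) (hP : HasD D a P) :
    ∃ δ1 : ℝ, 0 < δ1 ∧ ∀ A : ℕ, ∃ c0 C1 : ℝ, 0 < c0 ∧ 1 ≤ C1 ∧ ∃ z0 : ℕ, ∀ z z' Z : ℕ, z0 ≤ z → z ≤ z' →
    (z' : ℝ) ≤ (Z : ℝ) ^ δ1 → ∀ β : Fin k → ℤ,
    (((tb 0 fun j => A * Z ^ e j + 1).filter fun t => (∀ i, 0 ≤ β i + lf c t i) ∧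
      C1 * (z : ℝ) ^ (-c0) * SSf (pr z) (ran P (hh c β t)) <
        |SSf (pr z') (ran P (hh c β t)) - SSf (pr z) (ran P (hh c β t))|).card : ℝ) ≤
      C1 * (Z : ℝ) ^ (∑ j, e j) * (z : ℝ) ^ (-c0) := by
  classical
  obtain ⟨E, Cc, cc, hpar, hFG⟩ := hF
  obtain ⟨δ1, hδ1d⟩ : ∃ δ1 : ℝ, δ1 = 1 / (4 * E + 4) := ⟨_, rfl⟩
  have hE0 : (0 : ℝ) ≤ E := Nat.cast_nonneg E
  have hδ10 : 0 < δ1 := by
    rw [hδ1d]
    positivity
  have hδ1E : δ1 * (4 * E) ≤ 1 := by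
    rw [hδ1d, div_mul_eq_mul_div, one_mul, div_le_one (by positivity)]
    linarith
  refine ⟨δ1, hδ10, fun A0 => ?_⟩
  obtain ⟨A, hAd⟩ : ∃ A : ℕ, A = A0 + 1 := ⟨_, rfl⟩
  have hA : 1 ≤ A := by omega
  obtain ⟨A', hA'd⟩ : ∃ A' : ℕ, A' = A + ∑ i, D i + ∑ i, (a i).natAbs := ⟨_, rfl⟩
  obtain ⟨cb, hcb, z1, hblk⟩ := N6_block k A' E (by omega) Cc cc hpar
  have hc4 : 0 < cb / 4 := by linarith
  have hVd0 : (0 : ℝ) ≤ (2 * A : ℝ) ^ d := by positivity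
  refine ⟨cb / 4, 4 + 2 * (2 * A) ^ d, hc4, by linarith, max z1 (max 2 ⌈(4 : ℝ) ^ (1 / (cb / 4))⌉₊), ?_⟩
  obtain ⟨z0, hz0d⟩ : ∃ z0 : ℕ, z0 = max z1 (max 2 ⌈(4 : ℝ) ^ (1 / (cb / 4))⌉₊) := ⟨_, rfl⟩
  rw [← hz0d]
  intro z z' Z hz hzz hzZ β
  have hz01 : z1 ≤ z0 := hz0d ▸ le_max_left _ _
  have hz02 : 2 ≤ z0 := hz0d ▸ (le_max_left _ _).trans (le_max_right _ _)
  have hz03 : ⌈(4 : ℝ) ^ (1 / (cb / 4))⌉₊ ≤ z0 := hz0d ▸ (le_max_right _ _).trans (le_max_right _ _)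
  have hz04 : (4 : ℝ) ≤ (z0 : ℝ) ^ (cb / 4) := by
    have h1 : (4 : ℝ) ^ (1 / (cb / 4)) ≤ z0 := (Nat.le_ceil _).trans (by exact_mod_cast hz03)
    have h2 := Real.rpow_le_rpow (by positivity) h1 hc4.le
    rwa [← Real.rpow_mul (by norm_num : (0 : ℝ) ≤ 4), one_div, inv_mul_cancel₀ hc4.ne', Real.rpow_one] at h2
  have hz1 : 1 ≤ z := by omega
  have hzr : (1 : ℝ) ≤ z := by exact_mod_cast hz1
  have hzp : (0 : ℝ) < z := by linarith
  have hz'1 : 1 ≤ z' := by omega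
  have hz'r : (1 : ℝ) ≤ z' := by exact_mod_cast hz'1
  have hZ1 : 1 ≤ Z := by
    rcases Nat.eq_zero_or_pos Z with h | h
    · rw [h, Nat.cast_zero, Real.zero_rpow hδ10.ne'] at hzZ
      linarith
    · exact h
  have hZr : (1 : ℝ) ≤ Z := by exact_mod_cast hZ1
  have hZ0 : (0 : ℝ) < Z := by linarith
  have hwE : (z' ^ 4) ^ E ≤ Z := by
    have h1 : ((z' : ℝ) ^ 4) ^ E ≤ Z := by
      calc ((z' : ℝ) ^ 4) ^ E = (z' : ℝ) ^ (4 * E) := (pow_mul _ _ _).symm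
        _ ≤ ((Z : ℝ) ^ δ1) ^ (4 * E) := pow_le_pow_left₀ (Nat.cast_nonneg z') hzZ _
        _ = (Z : ℝ) ^ (δ1 * (4 * E)) := by
            rw [← Real.rpow_natCast, ← Real.rpow_mul hZ0.le]
            congr 1
            push_cast
            ring
        _ ≤ (Z : ℝ) ^ (1 : ℝ) := Real.rpow_le_rpow_of_exponent_le hZr hδ1E
        _ = Z := Real.rpow_one _
    exact_mod_cast h1
  obtain ⟨s, hsd⟩ : ∃ s : Fin d → ℕ, s = fun j => A * Z ^ e j + 1 := ⟨_, rfl⟩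
  have hsj : ∀ j, (z' ^ 4) ^ E ≤ s j := by
    intro j
    rw [hsd]
    have h1 : Z ≤ Z ^ e j := by
      calc Z = Z ^ 1 := (pow_one Z).symm
        _ ≤ Z ^ e j := Nat.pow_le_pow_right hZ1 (he j)
    have h2 : Z ^ e j ≤ A * Z ^ e j := Nat.le_mul_of_pos_left _ hA
    show (z' ^ 4) ^ E ≤ A * Z ^ e j + 1
    omega
  have hbox : (tb 0 fun j => A0 * Z ^ e j + 1) ⊆ tb 0 s := by
    intro t ht
    unfold tb at ht ⊢
    rw [Fintype.mem_piFinset] at ht ⊢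
    intro j
    have h1 := Finset.mem_Ico.1 (ht j)
    refine Finset.mem_Ico.2 ⟨h1.1, lt_of_lt_of_le h1.2 ?_⟩
    have h2 : A0 * Z ^ e j + 1 ≤ s j := by
      rw [hsd, hAd]
      exact Nat.add_le_add_right (Nat.mul_le_mul_right _ (Nat.le_succ _)) 1
    have h3 : ((A0 * Z ^ e j + 1 : ℕ) : ℤ) ≤ (s j : ℤ) := by exact_mod_cast h2
    exact add_le_add_right h3 _
  obtain ⟨N, hNd⟩ : ∃ N : ℕ, N = ∑ i, (β i).natAbs + ∑ t ∈ tb 0 s, ∑ i, (lf c t i).natAbs := ⟨_, rfl⟩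
  obtain ⟨V, hVd⟩ : ∃ V : ℕ, V = z'.factorial * N := ⟨_, rfl⟩
  have hNV : N ≤ V := by
    rw [hVd]
    exact Nat.le_mul_of_pos_left _ (Nat.factorial_pos z')
  obtain ⟨β', hβ'd⟩ : ∃ β' : Fin k → ℤ, β' = fun i => β i + (V : ℤ) := ⟨_, rfl⟩
  have hnn : ∀ t ∈ tb 0 s, ∀ i, 0 ≤ β' i + lf c t i := by
    intro t ht i
    have h1 := Finset.single_le_sum (f := fun i => (β i).natAbs) (fun _ _ => Nat.zero_le _) (mem_univ i)
    have h2 := Finset.single_le_sum (f := fun i => (lf c t i).natAbs) (fun _ _ => Nat.zero_le _) (mem_univ i)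
    have h3 := Finset.single_le_sum (f := fun t => ∑ i, (lf c t i).natAbs) (fun _ _ => Nat.zero_le _) ht
    rw [hβ'd]
    show 0 ≤ β i + (V : ℤ) + lf c t i
    omega
  have hG : FGood E Cc cc (z' ^ 4) P (tb 0 s) (hh c β') :=
    hFG P hP (z' ^ 4) 0 s β' (Nat.one_le_pow _ _ hz'1) hsj hnn
  have hmod : ∀ t : Fin d → ℤ, (∀ i, 0 ≤ β i + lf c t i) → ∀ y : ℕ, y ≤ z' →
      SSf (pr y) (ran P (hh c β t)) = SSf (pr y) (ran P (hh c β' t)) := by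
    intro t ht y hy
    refine N6_mod _ P _ _ fun l hl i => ?_
    have h1 : ((hh c β t i : ℕ) : ℤ) - (hh c β' t i : ℕ) = -(V : ℤ) := by
      show (((β i + lf c t i).toNat : ℕ) : ℤ) - (((β' i + lf c t i).toNat : ℕ) : ℤ) = -(V : ℤ)
      rw [hβ'd]
      have h2 := ht i
      rw [Int.toNat_of_nonneg h2, Int.toNat_of_nonneg (by simp only; omega)]
      ring
    rw [h1, dvd_neg]
    unfold pr at hl
    rw [mem_filter, mem_Icc] at hl
    have h3 : l ∣ V := by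
      rw [hVd]
      exact Dvd.dvd.mul_right (Nat.dvd_factorial hl.1.1 (hl.1.2.trans hy)) _
    exact_mod_cast h3
  have hPol : Pol A' P := hA'd ▸ u10_pol D a P hP hD A
  have hch := W10_chain (tb 0 s) (fun x y t => SSf ((pr y).filter (fun l => x < l)) (ran P (hh c β' t)))
    (fun x y m t hxy hym => w10_mul2 _ x y m hxy hym) cb hcb z0 hz02 hz04 z'
    (fun x y hx hxy hyx hyz => hblk x y (hz01.trans hx) hxy hyx P hPol _ (tb 0 s) (hh c β')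
      (u10_mono (Nat.pow_le_pow_left (hxy.trans hyz) 4) hG)) z hz hzz
  have hT : 0 < (z : ℝ) ^ (-(cb / 4)) := Real.rpow_pos_of_pos hzp _
  have hsub : ((tb 0 fun j => A0 * Z ^ e j + 1).filter fun t => (∀ i, 0 ≤ β i + lf c t i) ∧
      (4 + 2 * (2 * (A : ℝ)) ^ d) * (z : ℝ) ^ (-(cb / 4)) * SSf (pr z) (ran P (hh c β t)) <
        |SSf (pr z') (ran P (hh c β t)) - SSf (pr z) (ran P (hh c β t))|) ⊆
      (tb 0 s).filter fun t => 4 * (z : ℝ) ^ (-(cb / 4)) <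
        |SSf ((pr z').filter (fun l => z < l)) (ran P (hh c β' t)) - 1| := by
    intro t ht
    rw [mem_filter] at ht ⊢
    refine ⟨hbox ht.1, ?_⟩
    obtain ⟨-, ht1, ht2⟩ := ht
    rw [hmod t ht1 z hzz, hmod t ht1 z' le_rfl] at ht2
    by_contra hcon
    rw [not_lt] at hcon
    rw [w10_mul (ran P (hh c β' t)) z z' hzz] at ht2
    have hS0 : 0 ≤ SSf (pr z) (ran P (hh c β' t)) := (T5_up _ z (by omega) (pr z) (Finset.Subset.refl _)).1
    have h1 : |SSf (pr z) (ran P (hh c β' t)) * SSf ((pr z').filter (fun l => z < l)) (ran P (hh c β' t)) -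
        SSf (pr z) (ran P (hh c β' t))| =
        SSf (pr z) (ran P (hh c β' t)) * |SSf ((pr z').filter (fun l => z < l)) (ran P (hh c β' t)) - 1| := by
      rw [← abs_of_nonneg hS0, ← abs_mul, abs_of_nonneg hS0]
      congr 1
      ring
    rw [h1] at ht2
    have h2 := mul_le_mul_of_nonneg_left hcon hS0
    have h3 : 0 ≤ 2 * (2 * (A : ℝ)) ^ d * ((z : ℝ) ^ (-(cb / 4)) * SSf (pr z) (ran P (hh c β' t))) :=
      mul_nonneg (mul_nonneg (by norm_num) hVd0) (mul_nonneg hT.le hS0)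
    nlinarith
  have hcd : ((tb 0 s).card : ℝ) ≤ (2 * A) ^ d * (Z : ℝ) ^ (∑ j, e j) := by
    rw [hsd]
    exact u10_card e A Z hA hZ1
  have hZs : (0 : ℝ) ≤ (Z : ℝ) ^ (∑ j, e j) := by positivity
  calc ((((tb 0 fun j => A0 * Z ^ e j + 1).filter fun t => (∀ i, 0 ≤ β i + lf c t i) ∧
      (4 + 2 * (2 * (A : ℝ)) ^ d) * (z : ℝ) ^ (-(cb / 4)) * SSf (pr z) (ran P (hh c β t)) <
        |SSf (pr z') (ran P (hh c β t)) - SSf (pr z) (ran P (hh c β t))|).card : ℕ) : ℝ)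
      ≤ ((((tb 0 s).filter fun t => 4 * (z : ℝ) ^ (-(cb / 4)) <
        |SSf ((pr z').filter (fun l => z < l)) (ran P (hh c β' t)) - 1|).card : ℕ) : ℝ) := by
        exact_mod_cast card_le_card hsub
    _ ≤ 2 * (tb 0 s).card * (z : ℝ) ^ (-(cb / 4)) := hch
    _ ≤ 2 * ((2 * A) ^ d * (Z : ℝ) ^ (∑ j, e j)) * (z : ℝ) ^ (-(cb / 4)) :=
        mul_le_mul_of_nonneg_right (mul_le_mul_of_nonneg_left hcd (by norm_num)) hT.le
    _ ≤ (4 + 2 * (2 * A) ^ d) * (Z : ℝ) ^ (∑ j, e j) * (z : ℝ) ^ (-(cb / 4)) := by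
        refine mul_le_mul_of_nonneg_right ?_ hT.le
        nlinarith

end Pool.Agent.HLA
end

-- from Lib.HLA.Y2
section

/-!
# LOGA, chunk Y2 (M): the mean of the singular series over the linear coordinates `n + b`, for most parameters
-/

open Finset Polynomial

namespace Pool.Agent.HLA

open Pool.Agent.Lib.H68T Pool.Agent.Lib.H18Q Pool.Agent.Lib.H59P Pool.Agent.Lib.H24P
open Pool.Agent.HUP Pool.Agent.H9P

theorem y2_filter (Q : ℕ) : (pr Q).filter (fun l => ¬ l ∣ 1) = pr Q := by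
  refine Finset.filter_true_of_mem fun l hl h => ?_
  unfold pr at hl
  rw [mem_filter] at hl
  exact hl.2.one_lt.ne' (Nat.dvd_one.1 h)

theorem y2_lin (A : ℕ) (hA : 1 ≤ A) (b : ℤ) : Lin A (X + C b) where
  deg := natDegree_X_add_C b
  lc := by
    rw [leadingCoeff_X_add_C, Int.natAbs_one]
    exact hA
  cop := by
    rw [coeff_add, coeff_add, coeff_X_zero, coeff_X_one, coeff_C_zero, coeff_C_succ, add_zero]
    exact isCoprime_one_right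

theorem y2_SFcard (D Q : ℕ) (hD : D ≤ Q) (k : ℕ) : ∑ d ∈ SF D 1, 2 * (d : ℝ) ^ (k + 2) ≤ 2 * (Q : ℝ) ^ (k + 3) := by
  have h1 : (SF D 1).card ≤ Q := by
    refine le_trans (card_le_card (filter_subset _ _)) ?_
    rw [Nat.card_Icc]
    omega
  have h2 : ∀ d ∈ SF D 1, 2 * (d : ℝ) ^ (k + 2) ≤ 2 * (Q : ℝ) ^ (k + 2) := by
    intro d hd
    unfold SF at hd
    rw [mem_filter, mem_Icc] at hd
    have h3 : (d : ℝ) ≤ Q := by exact_mod_cast hd.1.2.trans hD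
    exact mul_le_mul_of_nonneg_left (pow_le_pow_left₀ (Nat.cast_nonneg d) h3 _) (by norm_num)
  calc ∑ d ∈ SF D 1, 2 * (d : ℝ) ^ (k + 2) ≤ ∑ d ∈ SF D 1, 2 * (Q : ℝ) ^ (k + 2) := Finset.sum_le_sum h2
    _ = (SF D 1).card * (2 * (Q : ℝ) ^ (k + 2)) := by rw [Finset.sum_const, nsmul_eq_mul]
    _ ≤ Q * (2 * (Q : ℝ) ^ (k + 2)) := by
        refine mul_le_mul_of_nonneg_right ?_ (by positivity)
        exact_mod_cast h1
    _ = 2 * (Q : ℝ) ^ (k + 3) := by ring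

theorem y2_sq3 (x y z : ℝ) : (-x + y + z) ^ 2 ≤ 3 * x ^ 2 + 3 * y ^ 2 + 3 * z ^ 2 := by
  nlinarith [sq_nonneg (x + y), sq_nonneg (x + z), sq_nonneg (y - z)]

/-- The mean square. -/
theorem y2_ms (k A E : ℕ) (hA : 1 ≤ A) (Cc cc : ℝ) (hC : FPar Cc cc) : ∃ c : ℝ, 0 < c ∧ ∃ Q0 : ℕ, ∀ Q Z : ℕ,
    Q0 ≤ Q → (Q : ℝ) ^ (2 * k + 7) ≤ Z → ∀ P : Fin k → ℤ[X], Pol A P →
    ∀ (ι : Type) (S : Finset ι) (g : ι → Fin k → ℕ), FGood E Cc cc (Q ^ 2) P S g →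
    ∑ x ∈ S, (∑ b ∈ Ico Z (2 * Z), SSf (pr Q) (sys (X + C ((b : ℕ) : ℤ)) P (g x)) -
      Z * SSf (pr Q) (ran P (g x))) ^ 2 ≤ 18 * ((Z : ℝ) ^ 2 * S.card * (Q : ℝ) ^ (-c)) := by
  classical
  obtain ⟨c6, hc6, Q6, h6⟩ := N6_trunc k A E hA Cc cc hC
  obtain ⟨c5, hc5, Q5, h5⟩ := R6_main k A E hA Cc cc hC
  obtain ⟨Qs, hQs, hsize⟩ := G1_size 1
  obtain ⟨c, hcd⟩ : ∃ c : ℝ, c = min (min c5 c6) 1 := ⟨_, rfl⟩
  have hc0 : 0 < c := by
    rw [hcd]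
    exact lt_min (lt_min hc5 hc6) one_pos
  have hc1 : c ≤ 1 := hcd ▸ min_le_right _ _
  have hcc5 : c ≤ c5 := hcd ▸ (min_le_left _ _).trans (min_le_left _ _)
  have hcc6 : c ≤ c6 := hcd ▸ (min_le_left _ _).trans (min_le_right _ _)
  refine ⟨c, hc0, max (max Q5 Q6) (max Qs 1), fun Q Z hQ hQZ P hP ι S g hG => ?_⟩
  have hq5 : Q5 ≤ Q := ((le_max_left _ _).trans (le_max_left _ _)).trans hQ
  have hq6 : Q6 ≤ Q := ((le_max_right _ _).trans (le_max_left _ _)).trans hQ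
  have hqs : Qs ≤ Q := ((le_max_left _ _).trans (le_max_right _ _)).trans hQ
  have hq1 : 1 ≤ Q := ((le_max_right _ _).trans (le_max_right _ _)).trans hQ
  have hQr : (1 : ℝ) ≤ Q := by exact_mod_cast hq1
  have hQ0 : (0 : ℝ) < Q := by linarith
  have hZ1 : (1 : ℝ) ≤ Z := (one_le_pow₀ hQr).trans hQZ
  have hZ0 : (0 : ℝ) < Z := by linarith
  obtain ⟨D, hDd⟩ : ∃ D : ℕ, D = fl Q (1 / 2) := ⟨_, rfl⟩
  have hDQ : D ≤ Q := by
    rw [hDd]
    exact G1_le hq1 (by norm_num) (by norm_num)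
  obtain ⟨hs1, -, -, -, -⟩ := hsize Q hqs 1 1 le_rfl le_rfl (by rw [one_pow]; exact hq1)
  rw [mul_one] at hs1
  have hcard : (0 : ℝ) ≤ S.card := Nat.cast_nonneg _
  have hIco : (Ico Z (2 * Z)).card = Z := by
    rw [Nat.card_Ico]
    omega
  -- the approximations
  have r5 : ∀ b : ℕ, ∑ x ∈ S, (∑ d ∈ SF D 1, tdf d (sys (X + C ((b : ℕ) : ℤ)) P (g x)) -
      SSf (pr Q) (sys (X + C ((b : ℕ) : ℤ)) P (g x))) ^ 2 ≤ S.card * (Q : ℝ) ^ (-c) := by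
    intro b
    have h := h5 Q hq5 (X + C ((b : ℕ) : ℤ)) (y2_lin A hA _) P hP ι S g hG 1 le_rfl hs1
      (by rw [leadingCoeff_X_add_C, Int.natAbs_one])
    rw [Nat.div_one, y2_filter, ← hDd] at h
    exact h.trans (mul_le_mul_of_nonneg_left (Real.rpow_le_rpow_of_exponent_le hQr (by linarith)) hcard)
  have r6 : ∑ x ∈ S, (∑ d ∈ SF D 1, tdf d (ran P (g x)) - SSf (pr Q) (ran P (g x))) ^ 2 ≤
      S.card * (Q : ℝ) ^ (-c) := by
    have h := h6 Q hq6 P hP ι S g hG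
    rw [← hDd] at h
    exact h.trans (mul_le_mul_of_nonneg_left (Real.rpow_le_rpow_of_exponent_le hQr (by linarith)) hcard)
  have rm : ∀ x, |∑ b ∈ Ico Z (2 * Z), ∑ d ∈ SF D 1, tdf d (sys (X + C ((b : ℕ) : ℤ)) P (g x)) -
      Z * ∑ d ∈ SF D 1, tdf d (ran P (g x))| ≤ 2 * (Q : ℝ) ^ (k + 3) := by
    intro x
    rw [Finset.sum_comm, Finset.mul_sum, ← Finset.sum_sub_distrib]
    refine (Finset.abs_sum_le_sum_abs _ _).trans (le_trans (Finset.sum_le_sum fun d hd => ?_) (y2_SFcard D Q hDQ k))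
    have h1 : Squarefree d := by
      unfold SF at hd
      rw [mem_filter] at hd
      exact hd.2.1
    have h2 := Y2_mean P (g x) d Z Z h1
    rw [← two_mul] at h2
    exact h2
  have hpt : ∀ x ∈ S, (∑ b ∈ Ico Z (2 * Z), SSf (pr Q) (sys (X + C ((b : ℕ) : ℤ)) P (g x)) -
      Z * SSf (pr Q) (ran P (g x))) ^ 2 ≤
      3 * (Z * ∑ b ∈ Ico Z (2 * Z), (∑ d ∈ SF D 1, tdf d (sys (X + C ((b : ℕ) : ℤ)) P (g x)) -
      SSf (pr Q) (sys (X + C ((b : ℕ) : ℤ)) P (g x))) ^ 2) + 3 * (2 * (Q : ℝ) ^ (k + 3)) ^ 2 +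
      3 * (Z ^ 2 * (∑ d ∈ SF D 1, tdf d (ran P (g x)) - SSf (pr Q) (ran P (g x))) ^ 2) := by
    intro x _
    have h1 := y2_sq3 (∑ b ∈ Ico Z (2 * Z), (∑ d ∈ SF D 1, tdf d (sys (X + C ((b : ℕ) : ℤ)) P (g x)) -
      SSf (pr Q) (sys (X + C ((b : ℕ) : ℤ)) P (g x))))
      (∑ b ∈ Ico Z (2 * Z), ∑ d ∈ SF D 1, tdf d (sys (X + C ((b : ℕ) : ℤ)) P (g x)) -
      Z * ∑ d ∈ SF D 1, tdf d (ran P (g x)))
      (Z * (∑ d ∈ SF D 1, tdf d (ran P (g x)) - SSf (pr Q) (ran P (g x))))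
    have h2 : (∑ b ∈ Ico Z (2 * Z), (∑ d ∈ SF D 1, tdf d (sys (X + C ((b : ℕ) : ℤ)) P (g x)) -
        SSf (pr Q) (sys (X + C ((b : ℕ) : ℤ)) P (g x)))) ^ 2 ≤
        Z * ∑ b ∈ Ico Z (2 * Z), (∑ d ∈ SF D 1, tdf d (sys (X + C ((b : ℕ) : ℤ)) P (g x)) -
        SSf (pr Q) (sys (X + C ((b : ℕ) : ℤ)) P (g x))) ^ 2 := by
      have h := sq_sum_le_card_mul_sum_sq (s := Ico Z (2 * Z))
        (f := fun b : ℕ => ∑ d ∈ SF D 1, tdf d (sys (X + C ((b : ℕ) : ℤ)) P (g x)) -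
        SSf (pr Q) (sys (X + C ((b : ℕ) : ℤ)) P (g x)))
      rw [hIco] at h
      exact h
    have h3 : (∑ b ∈ Ico Z (2 * Z), ∑ d ∈ SF D 1, tdf d (sys (X + C ((b : ℕ) : ℤ)) P (g x)) -
      Z * ∑ d ∈ SF D 1, tdf d (ran P (g x))) ^ 2 ≤ (2 * (Q : ℝ) ^ (k + 3)) ^ 2 := by
      rw [← sq_abs]
      exact pow_le_pow_left₀ (abs_nonneg _) (rm x) 2
    rw [mul_pow] at h1
    refine le_trans (le_of_eq ?_) (h1.trans ?_)
    · rw [Finset.sum_sub_distrib]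
      ring
    · linarith
  have hQk : (Q : ℝ) ^ (2 * (k + 3)) ≤ (Z : ℝ) ^ 2 * (Q : ℝ) ^ (-c) := by
    have h1 : (Q : ℝ) ^ (-(1 : ℝ)) ≤ (Q : ℝ) ^ (-c) := Real.rpow_le_rpow_of_exponent_le hQr (by linarith)
    have h2 : (Q : ℝ) ^ (2 * (k + 3)) = (Q : ℝ) ^ (2 * k + 7) * (Q : ℝ) ^ (-(1 : ℝ)) := by
      rw [Real.rpow_neg_one, show 2 * k + 7 = 2 * (k + 3) + 1 by ring, pow_succ, mul_assoc,
        mul_inv_cancel₀ hQ0.ne', mul_one]
    rw [h2]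
    refine mul_le_mul (hQZ.trans ?_) h1 (Real.rpow_nonneg hQ0.le _) (sq_nonneg _)
    nlinarith
  have hQc : 0 ≤ (Q : ℝ) ^ (-c) := Real.rpow_nonneg hQ0.le _
  calc ∑ x ∈ S, (∑ b ∈ Ico Z (2 * Z), SSf (pr Q) (sys (X + C ((b : ℕ) : ℤ)) P (g x)) -
      Z * SSf (pr Q) (ran P (g x))) ^ 2
      ≤ ∑ x ∈ S, (3 * (Z * ∑ b ∈ Ico Z (2 * Z), (∑ d ∈ SF D 1, tdf d (sys (X + C ((b : ℕ) : ℤ)) P (g x)) -
      SSf (pr Q) (sys (X + C ((b : ℕ) : ℤ)) P (g x))) ^ 2) + 3 * (2 * (Q : ℝ) ^ (k + 3)) ^ 2 +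
      3 * (Z ^ 2 * (∑ d ∈ SF D 1, tdf d (ran P (g x)) - SSf (pr Q) (ran P (g x))) ^ 2)) := Finset.sum_le_sum hpt
    _ = 3 * (Z * ∑ b ∈ Ico Z (2 * Z), ∑ x ∈ S, (∑ d ∈ SF D 1, tdf d (sys (X + C ((b : ℕ) : ℤ)) P (g x)) -
      SSf (pr Q) (sys (X + C ((b : ℕ) : ℤ)) P (g x))) ^ 2) + S.card * (12 * (Q : ℝ) ^ (2 * (k + 3))) +
      3 * (Z ^ 2 * ∑ x ∈ S, (∑ d ∈ SF D 1, tdf d (ran P (g x)) - SSf (pr Q) (ran P (g x))) ^ 2) := by
        rw [Finset.sum_add_distrib, Finset.sum_add_distrib]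
        refine congrArg₂ _ (congrArg₂ _ ?_ ?_) ?_
        · rw [← Finset.mul_sum, ← Finset.mul_sum, Finset.sum_comm]
        · rw [Finset.sum_const, nsmul_eq_mul]
          ring
        · rw [← Finset.mul_sum, ← Finset.mul_sum]
    _ ≤ 3 * (Z * ∑ _b ∈ Ico Z (2 * Z), S.card * (Q : ℝ) ^ (-c)) + S.card * (12 * ((Z : ℝ) ^ 2 * (Q : ℝ) ^ (-c))) +
      3 * (Z ^ 2 * (S.card * (Q : ℝ) ^ (-c))) := by
        refine add_le_add (add_le_add ?_ ?_) ?_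
        · exact mul_le_mul_of_nonneg_left (mul_le_mul_of_nonneg_left (Finset.sum_le_sum fun b _ => r5 b) hZ0.le)
            (by norm_num)
        · exact mul_le_mul_of_nonneg_left (mul_le_mul_of_nonneg_left hQk (by norm_num)) hcard
        · exact mul_le_mul_of_nonneg_left (mul_le_mul_of_nonneg_left r6 (sq_nonneg _)) (by norm_num)
    _ = 18 * ((Z : ℝ) ^ 2 * S.card * (Q : ℝ) ^ (-c)) := by
        rw [Finset.sum_const, hIco, nsmul_eq_mul]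
        ring

theorem y2_card {d : ℕ} (e : Fin d → ℕ) (A Z : ℕ) (hZ : 1 ≤ Z) :
    ((tb 0 fun j => A * Z ^ e j + 1).card : ℝ) ≤ (A + 1) ^ d * (Z : ℝ) ^ (∑ j, e j) := by
  rw [R18_card]
  push_cast
  calc ∏ j, ((A : ℝ) * (Z : ℝ) ^ e j + 1) ≤ ∏ j, (((A : ℝ) + 1) * (Z : ℝ) ^ e j) := by
        refine Finset.prod_le_prod (fun j _ => by positivity) fun j _ => ?_
        have h2 : (1 : ℝ) ≤ (Z : ℝ) ^ e j := one_le_pow₀ (by exact_mod_cast hZ)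
        nlinarith
    _ = (A + 1) ^ d * (Z : ℝ) ^ (∑ j, e j) := by
        rw [Finset.prod_mul_distrib, Finset.prod_const, card_univ, Fintype.card_fin, Finset.prod_pow_eq_pow_sum]

/-- **Y2.** The mean over `b ∈ [Z, 2 Z)` of the series with the coordinate `n + b` is the series without it, for most parameters. Proof. `FGTU` gives `E, Cc, cc`; `δ1 = 1/(8 E + 8 k + 100)`. Given `A`: `A' = A + ∑ D_i + ∑ |a_i| + 1`; `c6` from `N6_trunc`, `c5` from `R6_main`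
(`TMb`, `R = 1`, `Lin A' (X + C b)`). As in `U10_main` put `β' i = β i + V`, `V` a multiple of `Q!`, so that `0 ≤ β' i + ψ_i(t)` on `S = tb 0 (A Z^e + 1)`; `FGTU` gives `FGood E Cc cc (Q²) P S (hh c β')` (`Q^(2E) ≤ Z`); the series for `β` and `β'` agree
(`U10_mod`, `N6_mod`). Write `h_t = hh c β' t`, `T(b, t) = ∑_{d ∈ SF (fl Q (1/2)) 1} tdf d (sys (X + C b) P h_t)`, `T'(t)` the same with `ran P h_t`. `∑_t (T(b, t) - SSf (pr Q) (sys (X + C b) P h_t))² ≤ card Q^(-c5)` for every `b`;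
`∑_t (T'(t) - SSf (pr Q) (ran P h_t))² ≤ card Q^(-c6)`; `|∑_b T(b, t) - Z T'(t)| ≤ ∑_{d ≤ Q} 2 d^(k+2) ≤ 2 Q^(k+3) ≤ Z^(1/2)` (`Y2_mean`). So with `M(t) = (1/Z) ∑_b SSf (pr Q) (sys (X + C b) P h_t)`, by Cauchy-Schwarz over `b`,
`∑_t (M(t) - SSf (pr Q) (ran P h_t))² ≤ 3 card (Q^(-c5) + Z^(-1) + Q^(-c6))`, and Chebyshev; `c0 = min(c5, c6, 1)/8`; the number of the `t` is at most `(2A+2)^d Z^(∑ e)` (`u10_card`). -/
theorem Y2_main {k d : ℕ} (c : Fin k → Fin d → ℤ) (e : Fin d → ℕ) (D : Fin k → ℕ) (a : Fin k → ℤ)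
    (hF : FGTU c D a) (he : ∀ j, 1 ≤ e j) (hD : ∀ i, 1 ≤ D i) (P : Fin k → ℤ[X]) (hP : HasD D a P) :
    ∃ δ1 : ℝ, 0 < δ1 ∧ ∀ A : ℕ, ∃ c0 : ℝ, 0 < c0 ∧ ∃ Q0 : ℕ, ∀ Q Z : ℕ, Q0 ≤ Q → (Q : ℝ) ≤ (Z : ℝ) ^ δ1 →
    ∀ β : Fin k → ℤ,
    (((tb 0 fun j => A * Z ^ e j + 1).filter fun t => (∀ i, 0 ≤ β i + lf c t i) ∧
      Z * (Q : ℝ) ^ (-c0) < |∑ b ∈ Ico Z (2 * Z), SSf (pr Q) (sys (X + C ((b : ℕ) : ℤ)) P (hh c β t)) -
        Z * SSf (pr Q) (ran P (hh c β t))|).card : ℝ) ≤ (Z : ℝ) ^ (∑ j, e j) * (Q : ℝ) ^ (-c0) := by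
  classical
  obtain ⟨E, Cc, cc, hpar, hFG⟩ := hF
  obtain ⟨δ1, hδ1d⟩ : ∃ δ1 : ℝ, δ1 = 1 / (8 * E + 8 * k + 100) := ⟨_, rfl⟩
  have hE0 : (0 : ℝ) ≤ E := Nat.cast_nonneg E
  have hk0 : (0 : ℝ) ≤ k := Nat.cast_nonneg k
  have hδ10 : 0 < δ1 := by
    rw [hδ1d]
    positivity
  have hδ11 : δ1 ≤ 1 := by
    rw [hδ1d, div_le_one (by positivity)]
    linarith
  have hδ1E : δ1 * (2 * E) ≤ 1 := by
    rw [hδ1d, div_mul_eq_mul_div, one_mul, div_le_one (by positivity)]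
    linarith
  have hδ1k : δ1 * (2 * k + 7) ≤ 1 := by
    rw [hδ1d, div_mul_eq_mul_div, one_mul, div_le_one (by positivity)]
    linarith
  refine ⟨δ1, hδ10, fun A => ?_⟩
  obtain ⟨A', hA'd⟩ : ∃ A' : ℕ, A' = A + 1 + ∑ i, D i + ∑ i, (a i).natAbs := ⟨_, rfl⟩
  obtain ⟨c8, hc8, Q1, hms⟩ := y2_ms k A' E (by omega) Cc cc hpar
  obtain ⟨c0, hc0d⟩ : ∃ c0 : ℝ, c0 = min c8 1 / 8 := ⟨_, rfl⟩
  have hc0 : 0 < c0 := by
    rw [hc0d]
    have := lt_min hc8 one_pos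
    linarith
  have hc01 : c0 ≤ 1 := by
    rw [hc0d]
    have := min_le_right c8 1
    linarith
  have hc08 : 8 * c0 ≤ c8 := by
    rw [hc0d]
    have := min_le_left c8 1
    linarith
  obtain ⟨Q2, hQ2, hl2⟩ := G1_rlog (18 * (A + 1) ^ d) 0 c0 hc0
  refine ⟨c0, hc0, max Q1 Q2, ?_⟩
  intro Q Z hQ hQZ β
  have hq1 : Q1 ≤ Q := (le_max_left _ _).trans hQ
  have hq2 : Q2 ≤ Q := (le_max_right _ _).trans hQ
  have hq4 : 1 ≤ Q := hQ2.trans hq2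
  have hQr : (1 : ℝ) ≤ Q := by exact_mod_cast hq4
  have hQ0 : (0 : ℝ) < Q := by linarith
  have hZ1 : 1 ≤ Z := by
    rcases Nat.eq_zero_or_pos Z with h | h
    · rw [h, Nat.cast_zero, Real.zero_rpow hδ10.ne'] at hQZ
      linarith
    · exact h
  have hZr : (1 : ℝ) ≤ Z := by exact_mod_cast hZ1
  have hZ0 : (0 : ℝ) < Z := by linarith
  have hZδ1 : (Z : ℝ) ^ δ1 ≤ Z := by
    calc (Z : ℝ) ^ δ1 ≤ (Z : ℝ) ^ (1 : ℝ) := Real.rpow_le_rpow_of_exponent_le hZr hδ11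
      _ = Z := Real.rpow_one _
  have hQZ' : (Q : ℝ) ≤ Z := hQZ.trans hZδ1
  have hpw : ∀ n : ℕ, δ1 * n ≤ 1 → (Q : ℝ) ^ n ≤ Z := by
    intro n hn
    calc (Q : ℝ) ^ n ≤ ((Z : ℝ) ^ δ1) ^ n := pow_le_pow_left₀ hQ0.le hQZ _
      _ = (Z : ℝ) ^ (δ1 * n) := by rw [← Real.rpow_natCast, ← Real.rpow_mul hZ0.le]
      _ ≤ (Z : ℝ) ^ (1 : ℝ) := Real.rpow_le_rpow_of_exponent_le hZr hn
      _ = Z := Real.rpow_one _
  have hwE : (Q ^ 2) ^ E ≤ Z := by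
    have h1 := hpw (2 * E) (by push_cast; exact hδ1E)
    rw [pow_mul] at h1
    exact_mod_cast h1
  have hwk : (Q : ℝ) ^ (2 * k + 7) ≤ Z := hpw (2 * k + 7) (by push_cast; exact hδ1k)
  obtain ⟨s, hsd⟩ : ∃ s : Fin d → ℕ, s = fun j => A * Z ^ e j + 1 := ⟨_, rfl⟩
  rw [← hsd]
  have hcd : ((tb 0 s).card : ℝ) ≤ (A + 1) ^ d * (Z : ℝ) ^ (∑ j, e j) := by
    rw [hsd]
    exact y2_card e A Z hZ1
  have hl2' : (18 * (A + 1) ^ d : ℝ) ≤ (Q : ℝ) ^ c0 := by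
    have := hl2 Q hq2
    rwa [Real.rpow_zero, mul_one] at this
  have hZs : (0 : ℝ) ≤ (Z : ℝ) ^ (∑ j, e j) := by positivity
  by_cases hAd : 1 ≤ A ∨ d = 0
  swap
  · -- `A = 0`, `d ≥ 1`: there is only one `t`
    push Not at hAd
    have hA0 : A = 0 := by omega
    have h1 : ((tb 0 s).card : ℝ) ≤ 1 := by
      have h2 : (tb 0 s).card = 1 := by
        rw [R18_card, hsd, hA0]
        exact Finset.prod_eq_one fun j _ => by simp
      exact_mod_cast h2.le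
    have h3 : (Z : ℝ) ≤ (Z : ℝ) ^ (∑ j, e j) := by
      have h4 : 1 ≤ ∑ j, e j := by
        obtain ⟨j0⟩ : Nonempty (Fin d) := ⟨⟨0, Nat.pos_of_ne_zero hAd.2⟩⟩
        exact (he j0).trans (Finset.single_le_sum (f := e) (fun _ _ => Nat.zero_le _) (mem_univ j0))
      calc (Z : ℝ) = (Z : ℝ) ^ 1 := (pow_one _).symm
        _ ≤ _ := pow_le_pow_right₀ hZr h4
    have h5 : (1 : ℝ) ≤ (Z : ℝ) ^ (∑ j, e j) * (Q : ℝ) ^ (-c0) := by
      calc (1 : ℝ) = (Q : ℝ) ^ c0 * (Q : ℝ) ^ (-c0) := by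
            rw [← Real.rpow_add hQ0, add_neg_cancel, Real.rpow_zero]
        _ ≤ (Z : ℝ) ^ (∑ j, e j) * (Q : ℝ) ^ (-c0) := by
            refine mul_le_mul_of_nonneg_right ?_ (Real.rpow_nonneg hQ0.le _)
            refine le_trans ?_ (hQZ'.trans h3)
            calc (Q : ℝ) ^ c0 ≤ (Q : ℝ) ^ (1 : ℝ) := Real.rpow_le_rpow_of_exponent_le hQr hc01
              _ = Q := Real.rpow_one _
    refine le_trans ?_ (h1.trans h5)
    exact_mod_cast card_le_card (filter_subset _ _)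
  have hsj : ∀ j, (Q ^ 2) ^ E ≤ s j := by
    intro j
    rcases hAd with hA | hd
    · rw [hsd]
      have h1 : Z ≤ Z ^ e j := by
        calc Z = Z ^ 1 := (pow_one Z).symm
          _ ≤ Z ^ e j := Nat.pow_le_pow_right hZ1 (he j)
      have h2 : Z ^ e j ≤ A * Z ^ e j := Nat.le_mul_of_pos_left _ hA
      show (Q ^ 2) ^ E ≤ A * Z ^ e j + 1
      omega
    · exact absurd j.2 (by omega)
  obtain ⟨N, hNd⟩ : ∃ N : ℕ, N = ∑ i, (β i).natAbs + ∑ t ∈ tb 0 s, ∑ i, (lf c t i).natAbs := ⟨_, rfl⟩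
  obtain ⟨V, hVd⟩ : ∃ V : ℕ, V = Q.factorial * N := ⟨_, rfl⟩
  have hNV : N ≤ V := by
    rw [hVd]
    exact Nat.le_mul_of_pos_left _ (Nat.factorial_pos Q)
  obtain ⟨β', hβ'd⟩ : ∃ β' : Fin k → ℤ, β' = fun i => β i + (V : ℤ) := ⟨_, rfl⟩
  have hnn : ∀ t ∈ tb 0 s, ∀ i, 0 ≤ β' i + lf c t i := by
    intro t ht i
    have h1 := Finset.single_le_sum (f := fun i => (β i).natAbs) (fun _ _ => Nat.zero_le _) (mem_univ i)
    have h2 := Finset.single_le_sum (f := fun i => (lf c t i).natAbs) (fun _ _ => Nat.zero_le _) (mem_univ i)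
    have h3 := Finset.single_le_sum (f := fun t => ∑ i, (lf c t i).natAbs) (fun _ _ => Nat.zero_le _) ht
    rw [hβ'd]
    show 0 ≤ β i + (V : ℤ) + lf c t i
    omega
  have hG : FGood E Cc cc (Q ^ 2) P (tb 0 s) (hh c β') :=
    hFG P hP (Q ^ 2) 0 s β' (Nat.one_le_pow _ _ hq4) hsj hnn
  have hdv : ∀ t : Fin d → ℤ, (∀ i, 0 ≤ β i + lf c t i) → ∀ l ∈ pr Q, ∀ i,
      (l : ℤ) ∣ ((hh c β t i : ℕ) : ℤ) - (hh c β' t i : ℕ) := by
    intro t ht l hl i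
    have h1 : ((hh c β t i : ℕ) : ℤ) - (hh c β' t i : ℕ) = -(V : ℤ) := by
      show (((β i + lf c t i).toNat : ℕ) : ℤ) - (((β' i + lf c t i).toNat : ℕ) : ℤ) = -(V : ℤ)
      rw [hβ'd]
      have h2 := ht i
      rw [Int.toNat_of_nonneg h2, Int.toNat_of_nonneg (by simp only; omega)]
      ring
    rw [h1, dvd_neg]
    unfold pr at hl
    rw [mem_filter, mem_Icc] at hl
    have h3 : l ∣ V := by
      rw [hVd]
      exact Dvd.dvd.mul_right (Nat.dvd_factorial hl.1.1 hl.1.2) _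
    exact_mod_cast h3
  have hPol : Pol A' P := hA'd ▸ u10_pol D a P hP hD (A + 1)
  have hcard : (0 : ℝ) ≤ (tb 0 s).card := Nat.cast_nonneg _
  have hkey := hms Q Z hq1 hwk P hPol _ (tb 0 s) (hh c β') hG
  have hT : 0 < (Z : ℝ) * (Q : ℝ) ^ (-c0) := mul_pos hZ0 (Real.rpow_pos_of_pos hQ0 _)
  have hch := k1_cheb (tb 0 s)
    (fun t => |∑ b ∈ Ico Z (2 * Z), SSf (pr Q) (sys (X + C ((b : ℕ) : ℤ)) P (hh c β' t)) -
        Z * SSf (pr Q) (ran P (hh c β' t))|)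
    ((Z : ℝ) * (Q : ℝ) ^ (-c0)) (18 * ((Z : ℝ) ^ 2 * (tb 0 s).card * (Q : ℝ) ^ (-c8))) hT
    (by
      refine le_trans (le_of_eq ?_) hkey
      exact Finset.sum_congr rfl fun t _ => sq_abs _) (fun t => abs_nonneg _)
  have hsub : ((tb 0 s).filter fun t => (∀ i, 0 ≤ β i + lf c t i) ∧
      Z * (Q : ℝ) ^ (-c0) < |∑ b ∈ Ico Z (2 * Z), SSf (pr Q) (sys (X + C ((b : ℕ) : ℤ)) P (hh c β t)) -
        Z * SSf (pr Q) (ran P (hh c β t))|) ⊆
      (tb 0 s).filter fun t => Z * (Q : ℝ) ^ (-c0) <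
        |∑ b ∈ Ico Z (2 * Z), SSf (pr Q) (sys (X + C ((b : ℕ) : ℤ)) P (hh c β' t)) -
        Z * SSf (pr Q) (ran P (hh c β' t))| := by
    intro t ht
    rw [mem_filter] at ht ⊢
    refine ⟨ht.1, ?_⟩
    have h1 := hdv t ht.2.1
    have h2 : ∑ b ∈ Ico Z (2 * Z), SSf (pr Q) (sys (X + C ((b : ℕ) : ℤ)) P (hh c β' t)) =
        ∑ b ∈ Ico Z (2 * Z), SSf (pr Q) (sys (X + C ((b : ℕ) : ℤ)) P (hh c β t)) :=
      Finset.sum_congr rfl fun b _ => (U10_mod _ _ P _ _ h1).symm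
    rw [h2, ← N6_mod (pr Q) P (hh c β t) (hh c β' t) h1]
    exact ht.2.2
  have hQc0 : (0 : ℝ) < (Q : ℝ) ^ (-c0) := Real.rpow_pos_of_pos hQ0 _
  calc ((((tb 0 s).filter fun t => (∀ i, 0 ≤ β i + lf c t i) ∧
      Z * (Q : ℝ) ^ (-c0) < |∑ b ∈ Ico Z (2 * Z), SSf (pr Q) (sys (X + C ((b : ℕ) : ℤ)) P (hh c β t)) -
        Z * SSf (pr Q) (ran P (hh c β t))|).card : ℕ) : ℝ)
      ≤ ((((tb 0 s).filter fun t => Z * (Q : ℝ) ^ (-c0) <
        |∑ b ∈ Ico Z (2 * Z), SSf (pr Q) (sys (X + C ((b : ℕ) : ℤ)) P (hh c β' t)) -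
        Z * SSf (pr Q) (ran P (hh c β' t))|).card : ℕ) : ℝ) := by
        exact_mod_cast card_le_card hsub
    _ ≤ 18 * ((Z : ℝ) ^ 2 * (tb 0 s).card * (Q : ℝ) ^ (-c8)) / ((Z : ℝ) * (Q : ℝ) ^ (-c0)) ^ 2 := hch
    _ = 18 * (tb 0 s).card * ((Q : ℝ) ^ (-c8) / ((Q : ℝ) ^ (-c0)) ^ 2) := by
        field_simp
    _ = 18 * (tb 0 s).card * (Q : ℝ) ^ (-c8 + 2 * c0) := by
        congr 1
        rw [← Real.rpow_natCast, ← Real.rpow_mul hQ0.le, ← Real.rpow_sub hQ0]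
        congr 1
        push_cast
        ring
    _ ≤ 18 * ((A + 1) ^ d * (Z : ℝ) ^ (∑ j, e j)) * (Q : ℝ) ^ (-(2 * c0)) := by
        refine mul_le_mul (mul_le_mul_of_nonneg_left hcd (by norm_num)) ?_ (Real.rpow_nonneg hQ0.le _) (by positivity)
        exact Real.rpow_le_rpow_of_exponent_le hQr (by linarith)
    _ = (18 * (A + 1) ^ d) * ((Z : ℝ) ^ (∑ j, e j) * (Q : ℝ) ^ (-(2 * c0))) := by ring
    _ ≤ (Q : ℝ) ^ c0 * ((Z : ℝ) ^ (∑ j, e j) * (Q : ℝ) ^ (-(2 * c0))) := by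
        refine mul_le_mul_of_nonneg_right hl2' ?_
        exact mul_nonneg hZs (Real.rpow_nonneg hQ0.le _)
    _ = (Z : ℝ) ^ (∑ j, e j) * ((Q : ℝ) ^ c0 * (Q : ℝ) ^ (-(2 * c0))) := by ring
    _ = (Z : ℝ) ^ (∑ j, e j) * (Q : ℝ) ^ (-c0) := by
        rw [← Real.rpow_add hQ0]
        congr 2
        ring

end Pool.Agent.HLA
end

-- from Lib.HLA.Y4A
section

/-!
# LOGA, chunk Y4A (M): one parameter, from the good `b` to the number without linear coordinate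
-/

open Finset Polynomial

namespace Pool.Agent.HLA

open Pool.Agent.Lib.H68T Pool.Agent.Lib.H18Q Pool.Agent.Lib.H59P Pool.Agent.Lib.H24P
open Pool.Agent.HUP Pool.Agent.H9P

/-- The regions. Proof. `n + b` is between `Z` and `3 Z` for `b ∈ [Z, 2 Z)`, `n ≤ Z' ≤ Z`. -/
theorem y4_reg {k : ℕ} (A : ℕ) (κ θ v : ℝ) (hθ : 0 < θ) (Z Z' : ℕ) (D : Fin k → ℕ) (P : Fin k → ℤ[X]) (h : Fin k → ℕ)
    (hR : RegN A κ θ v Z Z' D (ran P h)) (b : ℕ) (hb : b ∈ Ico Z (2 * Z)) :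
    Reg (A + 3) κ θ (min v 1) Z Z' D (sys (X + C ((b : ℕ) : ℤ)) P h) := by
  obtain ⟨hle, hge, hval⟩ := hR
  rw [Finset.mem_Ico] at hb
  have hb1 : (Z : ℝ) ≤ b := by exact_mod_cast hb.1
  have hb2 : (b : ℝ) ≤ 2 * Z := by exact_mod_cast hb.2.le
  have hZ0 : (0 : ℝ) ≤ Z := Nat.cast_nonneg Z
  have hZ'0 : (0 : ℝ) ≤ Z' := Nat.cast_nonneg Z'
  have hZZ : (Z' : ℝ) ≤ Z := by exact_mod_cast hle
  refine ⟨hle, hge, ?_, ?_⟩
  · intro n hn1 hn2
    have h0 : sys (X + C ((b : ℕ) : ℤ)) P h 0 (n : ℤ) = (n : ℤ) + (b : ℤ) := by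
      simp [sys]
    rw [h0]
    push_cast
    have hn0 : (0 : ℝ) ≤ n := Nat.cast_nonneg n
    have hn3 : (n : ℝ) ≤ Z := by nlinarith
    constructor
    · calc min v 1 * (Z : ℝ) ≤ 1 * Z := mul_le_mul_of_nonneg_right (min_le_right _ _) hZ0
        _ ≤ n + b := by linarith
    · have hA0 : (0 : ℝ) ≤ A * Z := by positivity
      nlinarith
  · intro n hn1 hn2 i
    have h0 : sys (X + C ((b : ℕ) : ℤ)) P h i.succ (n : ℤ) = ran P h i (n : ℤ) := by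
      simp [sys]
    rw [h0]
    obtain ⟨h1, h2⟩ := hval n hn1 hn2 i
    have hp : (0 : ℝ) ≤ (Z : ℝ) ^ D i := by positivity
    constructor
    · exact (mul_le_mul_of_nonneg_right (min_le_left _ _) hp).trans h1
    · refine h2.trans ?_
      push_cast
      nlinarith

/-- One `t`: from the good `b` to the number without linear coordinate. `zs` is the level of the series. Proof. `Y3_num` with `T = ∑_b cnt_b`, `U = ∑_b Z' dens_b` (`dens_b = SSf (pr zs) (sys_b)/((∏ D)(log Z')^(k+1))`), `W = cnt (ran P h) 1 Z'`,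
`M = Z' densN D zs Z' (ran P h)`, `L = log Z`, `L' = log Z'`, `τ = hτ`: (1) `hpnt`; (2) for the `b` without fixed divisor and not bad `|cnt_b - Z' dens_b| ≤ ε Z' dens_b`; for the `b` with fixed divisor `dens_b = 0`, `cnt_b ≤ k A` (`Y3_fix`); for the at most `Z σ` bad `b` both
`cnt_b ≤ Z'` and `Z' dens_b ≤ Z' 500^(k+1)` (`T5_up`, `log zs ≤ log Z'`, `∏ D ≥ 1`): together `|T - U| ≤ ε U + k A Z + Z σ Z (1 + 500^(k+1))`; (3) `hser`. -/
theorem y4_one {k A : ℕ} (D : Fin k → ℕ) (hD : ∀ i, 1 ≤ D i) (P : Fin k → ℤ[X]) (hP : Pol A P) (h : Fin k → ℕ) (hN : NoFix (ran P h))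
    (Z Z' zs : ℕ) (hZ' : Z' ≤ Z) (hZA : k * A + 1 < Z) (hzA : k * A + 1 ≤ zs) (hz2 : 2 ≤ zs) (hzZ : zs ≤ Z') (ε σ σ' : ℝ) (hε : 0 < ε)
    (hε1 : ε ≤ 1 / 100) (hσ : 0 ≤ σ) (hσ' : 0 ≤ σ') (hL' : 1 ≤ Real.log Z') (hLL : |Real.log Z - Real.log Z'| ≤ ε * Real.log Z')
    (hpnt : |(∑ b ∈ Ico Z (2 * Z), (cnt (sys (X + C ((b : ℕ) : ℤ)) P h) 1 Z' : ℝ)) * Real.log Z -
      Z * cnt (ran P h) 1 Z'| ≤ ε * (Z * cnt (ran P h) 1 Z'))
    (Bad : Finset ℕ) (hBad : (Bad.card : ℝ) ≤ σ * Z)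
    (hgood : ∀ b ∈ Ico Z (2 * Z), b ∉ Bad → NoFix (sys (X + C ((b : ℕ) : ℤ)) P h) →
      |(cnt (sys (X + C ((b : ℕ) : ℤ)) P h) 1 Z' : ℝ) - Z' * dens D zs Z' (sys (X + C ((b : ℕ) : ℤ)) P h)| ≤
        ε * (Z' * dens D zs Z' (sys (X + C ((b : ℕ) : ℤ)) P h)))
    (hser : |∑ b ∈ Ico Z (2 * Z), SSf (pr zs) (sys (X + C ((b : ℕ) : ℤ)) P h) - Z * SSf (pr zs) (ran P h)| ≤ Z * σ')
    (hsmall : Real.log Z * (k * A + Z' * σ' + Z * σ * (1 + 500 ^ (k + 1))) ≤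
      ε * (Z' * densN D zs Z' (ran P h))) :
    |(cnt (ran P h) 1 Z' : ℝ) - Z' * densN D zs Z' (ran P h)| ≤ 20 * ε * (Z' * densN D zs Z' (ran P h)) := by
  classical
  -- numbers
  have hZpos : 0 < Z := by omega
  have hZR : (0 : ℝ) < Z := by exact_mod_cast hZpos
  have hZ'2 : 2 ≤ Z' := hz2.trans hzZ
  have hZ'R : (0 : ℝ) < Z' := by exact_mod_cast (by omega : 0 < Z')
  have hZZ : (Z' : ℝ) ≤ Z := by exact_mod_cast hZ'
  have hLle : Real.log Z' ≤ Real.log Z := Real.log_le_log hZ'R hZZ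
  have hL : 1 ≤ Real.log Z := hL'.trans hLle
  have hzR : (0 : ℝ) < zs := by exact_mod_cast (by omega : 0 < zs)
  have hlz : Real.log zs ≤ Real.log Z' := Real.log_le_log hzR (by exact_mod_cast hzZ)
  have hlz0 : 0 ≤ Real.log zs := Real.log_nonneg (by exact_mod_cast (by omega : 1 ≤ zs))
  have hLp : 0 < Real.log Z' := by linarith
  have hPD : (1 : ℝ) ≤ ∏ i, (D i : ℝ) := by
    have : ∏ _i : Fin k, (1 : ℝ) ≤ ∏ i, (D i : ℝ) :=
      Finset.prod_le_prod (fun _ _ => zero_le_one) fun i _ => by exact_mod_cast hD i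
    simpa using this
  have hPD0 : (0 : ℝ) < ∏ i, (D i : ℝ) := by linarith
  have hLk : ∀ j : ℕ, (1 : ℝ) ≤ (Real.log Z') ^ j := fun j => one_le_pow₀ hL'
  have hden : ∀ j : ℕ, (1 : ℝ) ≤ (∏ i, (D i : ℝ)) * (Real.log Z') ^ j := fun j => by
    calc (1 : ℝ) = 1 * 1 := by ring
      _ ≤ _ := mul_le_mul hPD (hLk j) zero_le_one (by linarith)
  set I := Ico Z (2 * Z) with hI
  have hIc : (I.card : ℝ) = Z := by
    rw [hI, Nat.card_Ico]
    congr 1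
    omega
  set φ : ℕ → Fin (k + 1) → ℤ → ℤ := fun b => sys (X + C ((b : ℕ) : ℤ)) P h with hφ
  have hS0 : ∀ b, 0 ≤ SSf (pr zs) (φ b) ∧ SSf (pr zs) (φ b) ≤ (500 * Real.log zs) ^ (k + 1) := fun b =>
    T5_up (φ b) zs hz2 (pr zs) (Finset.Subset.refl _)
  have hSr : 0 ≤ SSf (pr zs) (ran P h) := (T5_up (ran P h) zs hz2 (pr zs) (Finset.Subset.refl _)).1
  have hd0 : ∀ b, 0 ≤ dens D zs Z' (φ b) := fun b => by
    unfold H9P.dens
    exact div_nonneg (hS0 b).1 (by linarith [hden (k + 1)])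
  have hd1 : ∀ b, dens D zs Z' (φ b) ≤ 500 ^ (k + 1) := fun b => by
    unfold H9P.dens
    rw [div_le_iff₀ (by linarith [hden (k + 1)])]
    calc SSf (pr zs) (φ b) ≤ (500 * Real.log zs) ^ (k + 1) := (hS0 b).2
      _ ≤ (500 * Real.log Z') ^ (k + 1) := pow_le_pow_left₀ (by positivity) (by linarith) _
      _ = 500 ^ (k + 1) * (1 * (Real.log Z') ^ (k + 1)) := by rw [mul_pow]; ring
      _ ≤ 500 ^ (k + 1) * ((∏ i, (D i : ℝ)) * (Real.log Z') ^ (k + 1)) := by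
          refine mul_le_mul_of_nonneg_left ?_ (by positivity)
          exact mul_le_mul_of_nonneg_right hPD (by linarith [hLk (k + 1)])
  have hM0 : 0 ≤ Z' * densN D zs Z' (ran P h) := by
    unfold densN
    exact mul_nonneg hZ'R.le (div_nonneg hSr (by linarith [hden k]))
  have hcnt : ∀ b, (cnt (φ b) 1 Z' : ℝ) ≤ Z' := fun b => by
    have : cnt (φ b) 1 Z' ≤ Z' := by
      unfold cnt
      refine (Finset.card_filter_le _ _).trans ?_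
      rw [Nat.card_Ico]
      omega
    exact_mod_cast this
  have hC0 : (0 : ℝ) ≤ 500 ^ (k + 1) := by positivity
  have hkA0 : (0 : ℝ) ≤ (k : ℝ) * A := by positivity
  -- one b
  have hone : ∀ b ∈ I, |(cnt (φ b) 1 Z' : ℝ) - Z' * dens D zs Z' (φ b)| ≤
      ε * (Z' * dens D zs Z' (φ b)) + (k * A + if b ∈ Bad then (Z : ℝ) * (1 + 500 ^ (k + 1)) else 0) := by
    intro b hb
    have hdd : 0 ≤ (Z' : ℝ) * dens D zs Z' (φ b) := mul_nonneg hZ'R.le (hd0 b)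
    have hεd : 0 ≤ ε * (Z' * dens D zs Z' (φ b)) := mul_nonneg hε.le hdd
    by_cases hbad : b ∈ Bad
    · rw [if_pos hbad]
      have h1 : |(cnt (φ b) 1 Z' : ℝ) - Z' * dens D zs Z' (φ b)| ≤ Z' * (1 + 500 ^ (k + 1)) := by
        have h3 : (Z' : ℝ) * dens D zs Z' (φ b) ≤ Z' * 500 ^ (k + 1) :=
          mul_le_mul_of_nonneg_left (hd1 b) hZ'R.le
        have h4 : (0 : ℝ) ≤ cnt (φ b) 1 Z' := Nat.cast_nonneg _
        have h5 : (0 : ℝ) ≤ Z' * 500 ^ (k + 1) := by positivity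
        rw [abs_le]
        constructor
        · nlinarith [hcnt b]
        · nlinarith [hcnt b]
      have h2 : (Z' : ℝ) * (1 + 500 ^ (k + 1)) ≤ Z * (1 + 500 ^ (k + 1)) :=
        mul_le_mul_of_nonneg_right hZZ (by linarith)
      linarith
    · rw [if_neg hbad, add_zero]
      by_cases hfix : NoFix (φ b)
      · have := hgood b hb hbad hfix
        linarith
      · obtain ⟨hs, hc⟩ := Y3_fix P hP h hN b zs Z Z' (Finset.mem_Ico.1 hb).1 hZA hzA hfix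
        have h1 : dens D zs Z' (φ b) = 0 := by
          unfold H9P.dens
          rw [hφ]
          simp only
          rw [hs, zero_div]
        rw [h1]
        have h2 : (cnt (φ b) 1 Z' : ℝ) ≤ k * A := by
          have h2 : cnt (φ b) 1 Z' ≤ k * A := hc
          exact_mod_cast h2
        have h4 : (0 : ℝ) ≤ cnt (φ b) 1 Z' := Nat.cast_nonneg _
        rw [mul_zero, sub_zero, mul_zero, zero_add, abs_of_nonneg h4]
        exact h2
  set T : ℝ := ∑ b ∈ I, (cnt (φ b) 1 Z' : ℝ) with hT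
  set U : ℝ := ∑ b ∈ I, (Z' : ℝ) * dens D zs Z' (φ b) with hU
  have hT0 : 0 ≤ T := Finset.sum_nonneg fun b _ => Nat.cast_nonneg _
  have hU0 : 0 ≤ U := Finset.sum_nonneg fun b _ => mul_nonneg hZ'R.le (hd0 b)
  have hτ0 : 0 ≤ (k : ℝ) * A + Z' * σ' + Z * σ * (1 + 500 ^ (k + 1)) := by positivity
  have h2 : |T - U| ≤ ε * U + Z * (k * A + Z' * σ' + Z * σ * (1 + 500 ^ (k + 1))) := by
    have h3 : |T - U| ≤ ∑ b ∈ I, |(cnt (φ b) 1 Z' : ℝ) - Z' * dens D zs Z' (φ b)| := by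
      rw [hT, hU, ← Finset.sum_sub_distrib]
      exact Finset.abs_sum_le_sum_abs _ _
    have h4 := Finset.sum_le_sum hone
    rw [Finset.sum_add_distrib, Finset.sum_add_distrib, ← Finset.mul_sum, Finset.sum_const, nsmul_eq_mul, hIc,
      ← Finset.sum_filter, Finset.sum_const, nsmul_eq_mul] at h4
    have h5 : ((I.filter fun b => b ∈ Bad).card : ℝ) ≤ σ * Z := by
      refine le_trans ?_ hBad
      exact_mod_cast Finset.card_le_card fun b hb => (Finset.mem_filter.1 hb).2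
    have h6 : ((I.filter fun b => b ∈ Bad).card : ℝ) * (Z * (1 + 500 ^ (k + 1))) ≤
        σ * Z * (Z * (1 + 500 ^ (k + 1))) := mul_le_mul_of_nonneg_right h5 (by positivity)
    have h7 : (0 : ℝ) ≤ Z * (Z' * σ') := by positivity
    calc |T - U| ≤ _ := h3.trans h4
      _ ≤ ε * U + (Z * (k * A) + σ * Z * (Z * (1 + 500 ^ (k + 1)))) := by
          linarith
      _ ≤ _ := by nlinarith
  have h3 : |U - Z * (Z' * densN D zs Z' (ran P h) / Real.log Z')| ≤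
      Z * (k * A + Z' * σ' + Z * σ * (1 + 500 ^ (k + 1))) := by
    have hUe : U - Z * (Z' * densN D zs Z' (ran P h) / Real.log Z') =
        (∑ b ∈ I, SSf (pr zs) (φ b) - Z * SSf (pr zs) (ran P h)) *
          (Z' / ((∏ i, (D i : ℝ)) * (Real.log Z') ^ (k + 1))) := by
      rw [hU]
      unfold H9P.dens densN
      rw [sub_mul, Finset.sum_mul]
      congr 1
      · exact Finset.sum_congr rfl fun b _ => by ring
      · have e1 : (∏ i, (D i : ℝ)) ≠ 0 := hPD0.ne'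
        have e2 : Real.log Z' ≠ 0 := hLp.ne'
        generalize (∏ i, (D i : ℝ)) = p at e1 ⊢
        generalize Real.log (Z' : ℝ) = l at e2 ⊢
        rw [pow_succ]
        field_simp
    rw [hUe, abs_mul]
    have h4 : |(Z' : ℝ) / ((∏ i, (D i : ℝ)) * (Real.log Z') ^ (k + 1))| ≤ Z' := by
      rw [abs_of_nonneg (div_nonneg hZ'R.le (by linarith [hden (k + 1)]))]
      exact div_le_self hZ'R.le (hden (k + 1))
    calc _ ≤ (Z * σ') * Z' := mul_le_mul hser h4 (abs_nonneg _) (by positivity)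
      _ = Z * (Z' * σ') := by ring
      _ ≤ _ := by
          refine mul_le_mul_of_nonneg_left ?_ hZR.le
          have : (0 : ℝ) ≤ Z * σ * (1 + 500 ^ (k + 1)) := by positivity
          linarith
  exact Y3_num Z T U (cnt (ran P h) 1 Z') (Z' * densN D zs Z' (ran P h)) (Real.log Z) (Real.log Z')
    (k * A + Z' * σ' + Z * σ * (1 + 500 ^ (k + 1))) ε hZR hT0 hU0 (Nat.cast_nonneg _) hM0 hL hL' hτ0 hε hε1
    hpnt h2 h3 hsmall hLL

end Pool.Agent.HLA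
end

-- from Lib.HLA.Y4
section

/-!
# LOGA, chunk Y4 (M/L): the core theorem without linear coordinate, by averaging over the linear coordinates `n + b`
-/

open Finset Polynomial

namespace Pool.Agent.HLA

open Pool.Agent.Lib.H68T Pool.Agent.Lib.H18Q Pool.Agent.Lib.H59P Pool.Agent.Lib.H24P
open Pool.Agent.HUP Pool.Agent.H9P

/-- Eventual inequalities. -/
theorem y4_ev (K M a : ℝ) (ha : 0 < a) : ∃ Z0 : ℕ, 1 ≤ Z0 ∧ ∀ Z : ℕ, Z0 ≤ Z →
    K ≤ Real.log Z ∧ K ≤ (Z : ℝ) ^ a ∧ K * (Z : ℝ) ^ (-a) ≤ (Real.log Z) ^ (-M) := by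
  have h1 : Filter.Tendsto (fun Z : ℕ => Real.log (Z : ℝ)) Filter.atTop Filter.atTop :=
    Real.tendsto_log_atTop.comp tendsto_natCast_atTop_atTop
  have h2 : Filter.Tendsto (fun Z : ℕ => ((Z : ℝ)) ^ a) Filter.atTop Filter.atTop :=
    (tendsto_rpow_atTop ha).comp tendsto_natCast_atTop_atTop
  have h3 : ∀ᶠ x : ℝ in Filter.atTop, |K| * (Real.log x) ^ M ≤ x ^ a := by
    have h4 := (isLittleO_log_rpow_rpow_atTop M ha).bound (show (0 : ℝ) < 1 / (|K| + 1) by positivity)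
    filter_upwards [h4, Filter.eventually_ge_atTop (1 : ℝ)] with x hx hx1
    have h5 : 0 ≤ (Real.log x) ^ M := Real.rpow_nonneg (Real.log_nonneg hx1) _
    have h6 : 0 ≤ x ^ a := Real.rpow_nonneg (by linarith) _
    rw [Real.norm_of_nonneg h5, Real.norm_of_nonneg h6] at hx
    have h7 : (|K| + 1) * (Real.log x) ^ M ≤ x ^ a := by
      calc (|K| + 1) * (Real.log x) ^ M ≤ (|K| + 1) * (1 / (|K| + 1) * x ^ a) := by gcongr
        _ = x ^ a := by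
          have : |K| + 1 ≠ 0 := by positivity
          field_simp
    nlinarith
  have h4 := tendsto_natCast_atTop_atTop (R := ℝ) |>.eventually h3
  obtain ⟨Z0, hZ0⟩ := Filter.eventually_atTop.1 ((h1.eventually_ge_atTop (max K 1)).and
    ((h2.eventually_ge_atTop K).and h4))
  refine ⟨max Z0 1, le_max_right _ _, fun Z hZ => ?_⟩
  obtain ⟨h5, h6, h7⟩ := hZ0 Z (le_trans (le_max_left _ _) hZ)
  refine ⟨le_trans (le_max_left _ _) h5, h6, ?_⟩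
  have hL : 1 ≤ Real.log (Z : ℝ) := le_trans (le_max_right _ _) h5
  have hZ1 : (0 : ℝ) < Z := by
    have : 1 ≤ Z := le_trans (le_max_right _ _) hZ
    exact_mod_cast this
  have h8 : 0 < (Z : ℝ) ^ a := Real.rpow_pos_of_pos hZ1 _
  have h9 : 0 < (Real.log (Z : ℝ)) ^ M := Real.rpow_pos_of_pos (by linarith) _
  rw [Real.rpow_neg hZ1.le, Real.rpow_neg (by linarith)]
  rw [← div_eq_mul_inv, div_le_iff₀ h8, inv_mul_eq_div, le_div_iff₀ h9]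
  refine le_trans ?_ h7
  exact mul_le_mul_of_nonneg_right (le_abs_self K) h9.le

theorem y4_pol {k : ℕ} (D : Fin k → ℕ) (a : Fin k → ℤ) (hD : ∀ i, 1 ≤ D i) (P : Fin k → ℤ[X]) (hP : HasD D a P) (A : ℕ)
    (hA1 : ∑ i, D i ≤ A) (hA2 : ∑ i, (a i).natAbs ≤ A) : Pol A P where
  deg := fun i => by rw [(hP i).1]; exact hD i
  degA := fun i => by
    rw [(hP i).1]
    exact le_trans (single_le_sum (f := fun i => D i) (fun _ _ => Nat.zero_le _) (mem_univ i)) hA1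
  lc := fun i => by
    rw [(hP i).2]
    exact le_trans (single_le_sum (f := fun i => (a i).natAbs) (fun _ _ => Nat.zero_le _) (mem_univ i)) hA2

theorem y4_small (k : ℕ) (Z Z' L L' lz σ' x y cX C' ε κ PD SS q : ℝ) (hL : 1 ≤ L) (hL' : 1 ≤ L') (hLL : L' ≤ L)
    (hκ : κ * Z ≤ Z') (hκ0 : 0 < κ) (hZ0 : 0 < Z) (hZZ : Z' ≤ Z) (hlz0 : 0 ≤ lz) (hlz : lz ≤ L) (hcX : 0 < cX) (hC' : 0 < C')
    (hSS : cX * (1 + lz) ^ (-C') ≤ SS) (hPD : 1 ≤ PD) (hε : 0 < ε) (hσ' : 0 ≤ σ')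
    (hx : x ≤ q * (Z * L ^ (-(C' + k + 1)))) (h2 : σ' ≤ q * L ^ (-(C' + k + 1))) (hy : y ≤ q * (Z * L ^ (-(C' + k + 1))))
    (hq : 3 * q * PD ≤ ε * κ * cX * 2 ^ (-C')) :
    L * (x + Z' * σ' + y) ≤ ε * (Z' * (SS / (PD * L' ^ k))) := by
  have hL0 : 0 < L := by linarith
  have hL'0 : 0 < L' := by linarith
  set W : ℝ := L ^ (-(C' + k + 1)) with hW
  have hW0 : 0 < W := Real.rpow_pos_of_pos hL0 _
  have h1 : Z' * σ' ≤ q * (Z * W) := by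
    calc Z' * σ' ≤ Z * σ' := by gcongr
      _ ≤ Z * (q * W) := by gcongr
      _ = q * (Z * W) := by ring
  have h3 : L * (x + Z' * σ' + y) ≤ 3 * q * (Z * (L * W)) := by nlinarith
  have h4 : L * W = L ^ (-C') / L ^ k := by
    rw [hW]
    rw [show (-(C' + (k : ℝ) + 1)) = (-C') + (-(k : ℝ)) + (-1) by ring, Real.rpow_add hL0, Real.rpow_add hL0,
      Real.rpow_neg hL0.le (k : ℝ), Real.rpow_natCast, Real.rpow_neg_one]
    field_simp
  have h5 : (2 : ℝ) ^ (-C') * L ^ (-C') ≤ (1 + lz) ^ (-C') := by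
    rw [← Real.mul_rpow (by norm_num) hL0.le]
    exact Real.rpow_le_rpow_of_nonpos (by linarith) (by linarith) (by linarith)
  have h6 : 0 < L ^ (-C') := Real.rpow_pos_of_pos hL0 _
  have h7 : L' ^ k ≤ L ^ k := pow_le_pow_left₀ hL'0.le hLL k
  have hPD0 : 0 < PD := by linarith
  have h20 : (0 : ℝ) < 2 ^ (-C') := Real.rpow_pos_of_pos (by norm_num) _
  calc L * (x + Z' * σ' + y) ≤ 3 * q * (Z * (L * W)) := h3
    _ = (3 * q * PD) * (Z * (L ^ (-C') / L ^ k)) / PD := by rw [h4]; field_simp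
    _ ≤ (ε * κ * cX * 2 ^ (-C')) * (Z * (L ^ (-C') / L ^ k)) / PD := by gcongr
    _ = ε * ((κ * Z) * ((cX * (2 ^ (-C') * L ^ (-C'))) / (PD * L ^ k))) := by field_simp
    _ ≤ ε * (Z' * (SS / (PD * L' ^ k))) := by
      have h8 : cX * (2 ^ (-C') * L ^ (-C')) ≤ SS := by
        refine le_trans ?_ hSS
        gcongr
      have h9 : 0 ≤ cX * (2 ^ (-C') * L ^ (-C')) := by positivity
      have hZ'0 : 0 ≤ Z' := le_trans (by positivity) hκ
      have hSS0 : 0 ≤ SS := le_trans h9 h8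
      gcongr

theorem y4_regm {k : ℕ} {A A1 : ℕ} (hA : A ≤ A1) {κ θ v : ℝ} {Z Z' : ℕ} {D : Fin k → ℕ} {φ : Fin (k + 1) → ℤ → ℤ}
    (h : Reg A κ θ v Z Z' D φ) : Reg A1 κ θ v Z Z' D φ where
  le := h.le
  ge := h.ge
  val0 := fun n h1 h2 => ⟨(h.val0 n h1 h2).1, (h.val0 n h1 h2).2.trans (by
    have : (A : ℝ) ≤ A1 := by exact_mod_cast hA
    gcongr)⟩
  val := fun n h1 h2 i => ⟨(h.val n h1 h2 i).1, (h.val n h1 h2 i).2.trans (by
    have : (A : ℝ) ≤ A1 := by exact_mod_cast hA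
    gcongr)⟩

/-- The bad event for the linear coordinate `n + b`. -/
def y4E {k d : ℕ} (c : Fin k → Fin d → ℤ) (D : Fin k → ℕ) (P : Fin k → ℤ[X]) (A1 : ℕ) (β : Fin k → ℤ) (Z zs : ℕ)
    (κ θ v ε : ℝ) (b : ℕ) (t : Fin d → ℤ) : Prop :=
  (∀ i, 0 ≤ β i + lf c t i) ∧ NoFix (sys (X + C ((b : ℕ) : ℤ)) P (hh c β t)) ∧
      ∃ Z' : ℕ, Reg A1 κ θ v Z Z' D (sys (X + C ((b : ℕ) : ℤ)) P (hh c β t)) ∧
        ε * (Z' * dens D zs Z' (sys (X + C ((b : ℕ) : ℤ)) P (hh c β t))) <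
        |(cnt (sys (X + C ((b : ℕ) : ℤ)) P (hh c β t)) 1 Z' : ℝ) -
          Z' * dens D zs Z' (sys (X + C ((b : ℕ) : ℤ)) P (hh c β t))|

open Classical in
theorem y4_t {k d : ℕ} (c : Fin k → Fin d → ℤ) (D : Fin k → ℕ) (hD : ∀ i, 1 ≤ D i) (P : Fin k → ℤ[X]) (A A' A1 : ℕ)
    (hP : Pol A' P) (hA1 : A + 3 ≤ A1) (β : Fin k → ℤ) (t : Fin d → ℤ) (ht : ∀ i, 0 ≤ β i + lf c t i)
    (hN : NoFix (ran P (hh c β t))) (Z Z' zs z : ℕ) (κ θ v ε σ σ' : ℝ) (hθ : 0 < θ)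
    (hR : RegN A κ θ v Z Z' D (ran P (hh c β t)))
    (hZA : k * A' + 1 < Z) (hzA : k * A' + 1 ≤ zs) (hz2 : 2 ≤ zs) (hzZ : zs ≤ Z') (hε : 0 < ε) (hε1 : ε ≤ 1)
    (hσ : 0 ≤ σ) (hσ' : 0 ≤ σ') (hL' : 1 ≤ Real.log Z') (hLL : |Real.log Z - Real.log Z'| ≤ ε / 4000 * Real.log Z')
    (hpnt : |(∑ b ∈ Ico Z (2 * Z), (cnt (sys (X + C ((b : ℕ) : ℤ)) P (hh c β t)) 1 Z' : ℝ)) * Real.log Z -
      Z * cnt (ran P (hh c β t)) 1 Z'| ≤ ε / 4000 * (Z * cnt (ran P (hh c β t)) 1 Z'))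
    (hbad : (((Ico Z (2 * Z)).filter fun b : ℕ => y4E c D P A1 β Z zs κ θ (min v 1) (ε / 4000) b t).card : ℝ) ≤ σ * Z)
    (hser : |∑ b ∈ Ico Z (2 * Z), SSf (pr zs) (sys (X + C ((b : ℕ) : ℤ)) P (hh c β t)) -
      Z * SSf (pr zs) (ran P (hh c β t))| ≤ Z * σ')
    (hN6 : |SSf (pr zs) (ran P (hh c β t)) - SSf (pr z) (ran P (hh c β t))| ≤
      ε / 100 * SSf (pr z) (ran P (hh c β t)))
    (hsmall : Real.log Z * (k * A' + Z' * σ' + Z * σ * (1 + 500 ^ (k + 1))) ≤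
      ε / 4000 * (Z' * densN D zs Z' (ran P (hh c β t)))) :
    |(cnt (ran P (hh c β t)) 1 Z' : ℝ) - Z' * densN D z Z' (ran P (hh c β t))| ≤
      ε * (Z' * densN D z Z' (ran P (hh c β t))) := by
  have hgood : ∀ b ∈ Ico Z (2 * Z), b ∉ ((Ico Z (2 * Z)).filter fun b : ℕ =>
      y4E c D P A1 β Z zs κ θ (min v 1) (ε / 4000) b t) → NoFix (sys (X + C ((b : ℕ) : ℤ)) P (hh c β t)) →
      |(cnt (sys (X + C ((b : ℕ) : ℤ)) P (hh c β t)) 1 Z' : ℝ) -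
        Z' * dens D zs Z' (sys (X + C ((b : ℕ) : ℤ)) P (hh c β t))| ≤
        ε / 4000 * (Z' * dens D zs Z' (sys (X + C ((b : ℕ) : ℤ)) P (hh c β t))) := by
    intro b hb hnb hnf
    by_contra hlt
    rw [not_le] at hlt
    exact hnb (mem_filter.2 ⟨hb, ht, hnf, Z', y4_regm hA1 (y4_reg A κ θ v hθ Z Z' D P (hh c β t) hR b hb), hlt⟩)
  have h1 := y4_one (A := A') D hD P hP (hh c β t) hN Z Z' zs hR.le hZA hzA hz2 hzZ (ε / 4000) σ σ' (by positivity)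
    (by linarith) hσ hσ' hL' hLL hpnt _ hbad hgood hser hsmall
  have hprime : ∀ y : ℕ, ∀ l ∈ pr y, l.Prime := fun y l hl => (p5_mem_pr.1 hl).1
  have hs0 : 0 ≤ SSf (pr z) (ran P (hh c β t)) := p5_SS_nonneg _ (hprime z) _
  set s := SSf (pr zs) (ran P (hh c β t)) with hs
  set s0 := SSf (pr z) (ran P (hh c β t)) with hs0'
  set w : ℝ := Z' / ((∏ i, (D i : ℝ)) * (Real.log Z') ^ k) with hw
  have hw0 : 0 ≤ w := by positivity
  have e1 : (Z' : ℝ) * densN D zs Z' (ran P (hh c β t)) = w * s := by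
    unfold densN
    rw [← hs, hw]
    ring
  have e2 : (Z' : ℝ) * densN D z Z' (ran P (hh c β t)) = w * s0 := by
    unfold densN
    rw [← hs0', hw]
    ring
  rw [e1] at h1
  rw [e2]
  have h2 := abs_le.1 h1
  have h3 := abs_le.1 hN6
  have h4 : w * s ≤ w * (2 * s0) := by
    refine mul_le_mul_of_nonneg_left ?_ hw0
    nlinarith
  have h5 : w * (s - s0) ≤ w * (ε / 100 * s0) := mul_le_mul_of_nonneg_left h3.2 hw0
  have h6 : w * (-(ε / 100 * s0)) ≤ w * (s - s0) := mul_le_mul_of_nonneg_left h3.1 hw0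
  have h7 : 0 ≤ w * s0 := mul_nonneg hw0 hs0
  have h8 : 20 * (ε / 4000) * (w * s) ≤ ε / 100 * (w * s0) := by
    nlinarith
  rw [abs_le]
  constructor <;> nlinarith

theorem y4_tb {d : ℕ} (s s' : Fin d → ℕ) (h : ∀ j, s j ≤ s' j) : tb (0 : Fin d → ℤ) s ⊆ tb 0 s' := by
  intro t ht
  unfold tb at *
  rw [Fintype.mem_piFinset] at *
  intro j
  have h1 := ht j
  have h2 := h j
  rw [mem_Ico] at *
  refine ⟨h1.1, lt_of_lt_of_le h1.2 ?_⟩
  have : (s j : ℤ) ≤ s' j := by exact_mod_cast h2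
  simpa using this

/-- The numerical conditions for large `Z`. -/
theorem y4_nums (k A A' A1 Q0 : ℕ) (C1A cA cY δ1 κ ε C' cX PD q : ℝ) (hcA : 0 < cA) (hcY : 0 < cY) (hδ : 0 < δ1) (hδ4 : δ1 ≤ 1 / 4)
    (hκ : 0 < κ) (hε : 0 < ε) (hq : 0 < q) (hC' : 0 < C') (hC1A : 0 ≤ C1A) (hA1 : (C' + k + 1) + 1 ≤ (A1 : ℝ) / 2)
    (hA2 : (A : ℝ) + 1 ≤ (A1 : ℝ) / 2) : ∃ Z0 : ℕ, 1 ≤ Z0 ∧ ∀ Z : ℕ, Z0 ≤ Z → ∀ zs : ℕ, zs = ⌊(Z : ℝ) ^ δ1⌋₊ →
    4 ≤ Real.log Z ∧ Q0 ≤ zs ∧ k * A' + 2 ≤ zs ∧ zs ≤ Z ∧ (zs : ℝ) ≤ κ * Z ∧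
    4000 * |Real.log κ| + ε * |Real.log κ| ≤ ε * Real.log Z ∧ |Real.log κ| + 1 ≤ Real.log Z ∧
    C1A * ((zs : ℝ) + 1) ^ (-cA) ≤ (Real.log Z) ^ (-(A1 : ℝ)) ∧
    (zs : ℝ) ^ (-cY) ≤ 1 / 2 * (Real.log Z) ^ (-(A : ℝ)) ∧ (zs : ℝ) ^ (-cY) ≤ q * (Real.log Z) ^ (-(C' + k + 1)) ∧
    (k : ℝ) * A' ≤ q * (Z * (Real.log Z) ^ (-(C' + k + 1))) ∧
    (Real.log Z) ^ (-((A1 : ℝ) / 2)) * (1 + 500 ^ (k + 1)) ≤ q * (Real.log Z) ^ (-(C' + k + 1)) ∧
    2 * (Real.log Z) ^ (-((A1 : ℝ) / 2)) ≤ 1 / 2 * (Real.log Z) ^ (-(A : ℝ)) := by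
  obtain ⟨Y1, -, h1⟩ := y4_ev C1A A1 (δ1 * cA) (by positivity)
  obtain ⟨Y2, -, h2⟩ := y4_ev (2 * 2 ^ cY) A (δ1 * cY) (by positivity)
  obtain ⟨Y3, -, h3⟩ := y4_ev (2 ^ cY / q) (C' + k + 1) (δ1 * cY) (by positivity)
  obtain ⟨Y4, -, h4⟩ := y4_ev (Q0 + k * A' + 3) 1 δ1 hδ
  obtain ⟨Y5, -, h5⟩ := y4_ev (1 / κ) 1 (3 / 4) (by norm_num)
  obtain ⟨Y6, -, h6⟩ := y4_ev (4 + |Real.log κ| + 4000 * |Real.log κ| / ε + (1 + 500 ^ (k + 1)) / q) 1 1 (by norm_num)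
  obtain ⟨Y7, -, h7⟩ := y4_ev (k * A' / q) (C' + k + 1) 1 (by norm_num)
  refine ⟨Y1 + Y2 + Y3 + Y4 + Y5 + Y6 + Y7 + 1, by omega, fun Z hZ zs hzs => ?_⟩
  have g1 := (h1 Z (by omega)).2.2
  have g2 := (h2 Z (by omega)).2.2
  have g3 := (h3 Z (by omega)).2.2
  have g4 := (h4 Z (by omega)).2.1
  have g5 := (h5 Z (by omega)).2.1
  have g6 := (h6 Z (by omega)).1
  have g7 := (h7 Z (by omega)).2.2
  have hZ1 : (1 : ℝ) ≤ Z := by
    have : 1 ≤ Z := by omega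
    exact_mod_cast this
  have hZ0 : (0 : ℝ) < Z := by linarith
  set L := Real.log Z with hL
  have hk0 : 0 ≤ |Real.log κ| := abs_nonneg _
  have hK1 : 0 ≤ 4000 * |Real.log κ| / ε := by positivity
  have hK2 : 0 ≤ (1 + 500 ^ (k + 1)) / q := by positivity
  have hL4 : 4 ≤ L := by linarith
  have hL0 : 0 < L := by linarith
  have hx0 : 0 < (Z : ℝ) ^ δ1 := Real.rpow_pos_of_pos hZ0 _
  have hkA : (0 : ℝ) ≤ k * A' := by positivity
  have hQ00 : (0 : ℝ) ≤ Q0 := by positivity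
  have hfl1 : (zs : ℝ) ≤ (Z : ℝ) ^ δ1 := by rw [hzs]; exact Nat.floor_le hx0.le
  have hfl2 : (Z : ℝ) ^ δ1 < zs + 1 := by rw [hzs]; exact Nat.lt_floor_add_one _
  have hzsR : (Q0 : ℝ) + k * A' + 2 < (zs : ℝ) := by linarith
  have hzsN : Q0 + k * A' + 2 < zs := by exact_mod_cast hzsR
  have hhalf : (Z : ℝ) ^ δ1 / 2 ≤ zs := by linarith
  have hzs0 : (0 : ℝ) < zs := by linarith
  have hq14 : (Z : ℝ) ^ δ1 ≤ (Z : ℝ) ^ (1 / 4 : ℝ) := Real.rpow_le_rpow_of_exponent_le hZ1 hδ4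
  have hpow : (zs : ℝ) ^ (-cY) ≤ 2 ^ cY * (Z : ℝ) ^ (-(δ1 * cY)) := by
    calc (zs : ℝ) ^ (-cY) ≤ ((Z : ℝ) ^ δ1 / 2) ^ (-cY) :=
          Real.rpow_le_rpow_of_nonpos (by positivity) hhalf (by linarith)
      _ = 2 ^ cY * (Z : ℝ) ^ (-(δ1 * cY)) := by
        rw [Real.div_rpow hx0.le (by norm_num), ← Real.rpow_mul hZ0.le, Real.rpow_neg (by norm_num : (0 : ℝ) ≤ 2)]
        rw [div_inv_eq_mul, mul_comm]
        congr 2
        ring
  refine ⟨hL4, by omega, by omega, ?_, ?_, ?_, by linarith, ?_, ?_, ?_, ?_, ?_, ?_⟩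
  · have : (zs : ℝ) ≤ Z := hfl1.trans (hq14.trans (by
      calc (Z : ℝ) ^ (1 / 4 : ℝ) ≤ (Z : ℝ) ^ (1 : ℝ) := Real.rpow_le_rpow_of_exponent_le hZ1 (by norm_num)
        _ = Z := Real.rpow_one _))
    exact_mod_cast this
  · have e1 : (Z : ℝ) = (Z : ℝ) ^ (1 / 4 : ℝ) * (Z : ℝ) ^ (3 / 4 : ℝ) := by
      rw [← Real.rpow_add hZ0]
      norm_num
    have e2 : 1 ≤ κ * (Z : ℝ) ^ (3 / 4 : ℝ) := by
      calc 1 = κ * (1 / κ) := by field_simp
        _ ≤ κ * (Z : ℝ) ^ (3 / 4 : ℝ) := by gcongr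
    have e3 : 0 < (Z : ℝ) ^ (1 / 4 : ℝ) := Real.rpow_pos_of_pos hZ0 _
    calc (zs : ℝ) ≤ (Z : ℝ) ^ (1 / 4 : ℝ) := hfl1.trans hq14
      _ ≤ (Z : ℝ) ^ (1 / 4 : ℝ) * (κ * (Z : ℝ) ^ (3 / 4 : ℝ)) := le_mul_of_one_le_right e3.le e2
      _ = κ * ((Z : ℝ) ^ (1 / 4 : ℝ) * (Z : ℝ) ^ (3 / 4 : ℝ)) := by ring
      _ = κ * Z := by rw [← e1]
  · have e1 : |Real.log κ| + 4000 * |Real.log κ| / ε ≤ L := by linarith
    calc 4000 * |Real.log κ| + ε * |Real.log κ| = ε * (|Real.log κ| + 4000 * |Real.log κ| / ε) := by field_simp; ring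
      _ ≤ ε * L := by gcongr
  · refine le_trans ?_ g1
    refine mul_le_mul_of_nonneg_left ?_ hC1A
    calc ((zs : ℝ) + 1) ^ (-cA) ≤ ((Z : ℝ) ^ δ1) ^ (-cA) :=
          Real.rpow_le_rpow_of_nonpos hx0 hfl2.le (by linarith)
      _ = (Z : ℝ) ^ (-(δ1 * cA)) := by
        rw [← Real.rpow_mul hZ0.le]
        congr 1
        ring
  · linarith
  · have e1 : 2 ^ cY * (Z : ℝ) ^ (-(δ1 * cY)) = q * (2 ^ cY / q * (Z : ℝ) ^ (-(δ1 * cY))) := by field_simp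
    rw [e1] at hpow
    exact hpow.trans (mul_le_mul_of_nonneg_left g3 hq.le)
  · rw [Real.rpow_neg_one] at g7
    calc (k : ℝ) * A' = q * (Z * (k * A' / q * (Z : ℝ)⁻¹)) := by field_simp
      _ ≤ q * (Z * L ^ (-(C' + k + 1))) := by gcongr
  · have e1 : L ^ (-((A1 : ℝ) / 2)) ≤ L ^ (-(C' + k + 1)) * L⁻¹ := by
      rw [← Real.rpow_neg_one L, ← Real.rpow_add hL0]
      exact Real.rpow_le_rpow_of_exponent_le (by linarith) (by linarith)
    have e2 : 1 + 500 ^ (k + 1) ≤ q * L := by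
      calc (1 + 500 ^ (k + 1) : ℝ) = q * ((1 + 500 ^ (k + 1)) / q) := by field_simp
        _ ≤ q * L := by
          have : (1 + 500 ^ (k + 1)) / q ≤ L := by linarith
          gcongr
    have e3 : 0 < L ^ (-(C' + k + 1)) := Real.rpow_pos_of_pos hL0 _
    calc L ^ (-((A1 : ℝ) / 2)) * (1 + 500 ^ (k + 1)) ≤ (L ^ (-(C' + k + 1)) * L⁻¹) * (q * L) := by gcongr
      _ = q * L ^ (-(C' + k + 1)) := by field_simp
  · have e1 : L ^ (-((A1 : ℝ) / 2)) ≤ L ^ (-(A : ℝ)) * L⁻¹ := by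
      rw [← Real.rpow_neg_one L, ← Real.rpow_add hL0]
      exact Real.rpow_le_rpow_of_exponent_le (by linarith) (by linarith)
    have e3 : 0 < L ^ (-(A : ℝ)) := Real.rpow_pos_of_pos hL0 _
    have e4 : L⁻¹ ≤ 1 / 4 := by
      rw [inv_eq_one_div]
      exact one_div_le_one_div_of_le (by norm_num) hL4
    calc 2 * L ^ (-((A1 : ℝ) / 2)) ≤ 2 * (L ^ (-(A : ℝ)) * (1 / 4)) := by
          refine mul_le_mul_of_nonneg_left (e1.trans ?_) (by norm_num)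
          gcongr
      _ = 1 / 2 * L ^ (-(A : ℝ)) := by ring

open Classical in
/-- The inclusion of the exceptional set in the three bad sets. -/
theorem y4_sub {k d : ℕ} (c : Fin k → Fin d → ℤ) (e : Fin d → ℕ) (D : Fin k → ℕ) (hD : ∀ i, 1 ≤ D i) (P : Fin k → ℤ[X])
    (A A' A1 : ℕ) (hPol : Pol A' P) (hA1c : A + 3 ≤ A1) (ε ε1 κ θ cX C' C1N c0 cY q σ : ℝ) (vf : ℝ → ℝ) (Z zs z : ℕ)
    (hε10 : 0 < ε1) (hε11 : ε1 ≤ 1) (hε12 : ε1 ≤ ε) (hκ : 0 < κ) (hθ : 0 < θ) (hcX : 0 < cX) (hC' : 0 < C') (hσ0 : 0 < σ)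
    (hZ1R : (1 : ℝ) ≤ Z) (hX : ∀ h : Fin k → ℕ, NoFix (ran P h) → cX * (1 + Real.log zs) ^ (-C') ≤ SSf (pr zs) (ran P h))
    (hPNT : ∀ Z' : ℕ, Z' ≤ Z → ∀ h : Fin k → ℕ,
      |(∑ b ∈ Ico Z (2 * Z), (cnt (sys (X + C ((b : ℕ) : ℤ)) P h) 1 Z' : ℝ)) * Real.log Z -
      Z * cnt (ran P h) 1 Z'| ≤ ε1 / 4000 * (Z * cnt (ran P h) 1 Z'))
    (hz1 : C1N * (z : ℝ) ^ (-c0) ≤ ε1 / 100) (n3 : k * A' + 2 ≤ zs) (n4 : zs ≤ Z) (n5 : (zs : ℝ) ≤ κ * Z)
    (n6 : 4000 * |Real.log κ| + ε1 * |Real.log κ| ≤ ε1 * Real.log Z) (n7 : |Real.log κ| + 1 ≤ Real.log Z)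
    (n10 : (zs : ℝ) ^ (-cY) ≤ q * (Real.log Z) ^ (-(C' + k + 1)))
    (n11 : (k : ℝ) * A' ≤ q * (Z * (Real.log Z) ^ (-(C' + k + 1))))
    (n12 : σ * (1 + 500 ^ (k + 1)) ≤ q * (Real.log Z) ^ (-(C' + k + 1)))
    (hq3 : 3 * q * (∏ i, (D i : ℝ)) ≤ ε1 / 4000 * κ * cX * 2 ^ (-C')) (β : Fin k → ℤ) :
    ((tb 0 fun j => A * Z ^ e j + 1 : Finset (Fin d → ℤ)).filter fun t => (∀ i, 0 ≤ β i + lf c t i) ∧ NoFix (ran P (hh c β t)) ∧
      ∃ Z' : ℕ, RegN A κ θ (vf θ) Z Z' D (ran P (hh c β t)) ∧ ε * (Z' * densN D z Z' (ran P (hh c β t))) <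
        |(cnt (ran P (hh c β t)) 1 Z' : ℝ) - Z' * densN D z Z' (ran P (hh c β t))|) ⊆
        ((tb 0 fun j => A * Z ^ e j + 1 : Finset (Fin d → ℤ)).filter fun t => σ * Z < (((Ico Z (2 * Z)).filter fun b =>
          y4E c D P A1 β Z zs κ θ (min (vf θ) 1) (ε1 / 4000) b t).card : ℝ)) ∪
        (((tb 0 fun j => A * Z ^ e j + 1 : Finset (Fin d → ℤ)).filter fun t => (∀ i, 0 ≤ β i + lf c t i) ∧
          Z * (zs : ℝ) ^ (-cY) < |∑ b ∈ Ico Z (2 * Z), SSf (pr zs) (sys (X + C ((b : ℕ) : ℤ)) P (hh c β t)) -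
          Z * SSf (pr zs) (ran P (hh c β t))|) ∪
        ((tb 0 fun j => A * Z ^ e j + 1 : Finset (Fin d → ℤ)).filter fun t => (∀ i, 0 ≤ β i + lf c t i) ∧
          C1N * (z : ℝ) ^ (-c0) * SSf (pr z) (ran P (hh c β t)) <
          |SSf (pr zs) (ran P (hh c β t)) - SSf (pr z) (ran P (hh c β t))|)) := by
  have hZ0 : (0 : ℝ) < Z := by linarith
  have hPD1 : 1 ≤ ∏ i, (D i : ℝ) := by
    have h1 : ∏ i : Fin k, (1 : ℝ) ≤ ∏ i, (D i : ℝ) :=
      prod_le_prod (fun i _ => zero_le_one) (fun i _ => by exact_mod_cast hD i)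
    rwa [prod_const_one] at h1
  set L : ℝ := Real.log Z with hL
  have hL0 : 1 ≤ L := by
    have := abs_nonneg (Real.log κ)
    linarith
  intro t ht
  rw [mem_filter] at ht
  obtain ⟨htS, ht0, hN, Z', hR, hlt⟩ := ht
  by_contra hcon
  rw [mem_union, mem_union, not_or, not_or, mem_filter, mem_filter, mem_filter] at hcon
  obtain ⟨k1, k2, k3⟩ := hcon
  have k1' : (((Ico Z (2 * Z)).filter fun b =>
      y4E c D P A1 β Z zs κ θ (min (vf θ) 1) (ε1 / 4000) b t).card : ℝ) ≤ σ * Z := by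
    by_contra h
    exact k1 ⟨htS, not_le.1 h⟩
  have k2' : |∑ b ∈ Ico Z (2 * Z), SSf (pr zs) (sys (X + C ((b : ℕ) : ℤ)) P (hh c β t)) -
      Z * SSf (pr zs) (ran P (hh c β t))| ≤ Z * (zs : ℝ) ^ (-cY) := by
    by_contra h
    exact k2 ⟨htS, ht0, not_le.1 h⟩
  have k3' : |SSf (pr zs) (ran P (hh c β t)) - SSf (pr z) (ran P (hh c β t))| ≤
      C1N * (z : ℝ) ^ (-c0) * SSf (pr z) (ran P (hh c β t)) := by
    by_contra h
    exact k3 ⟨htS, ht0, not_le.1 h⟩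
  have hs0 : 0 ≤ SSf (pr z) (ran P (hh c β t)) := p5_SS_nonneg _ (fun l hl => (p5_mem_pr.1 hl).1) _
  have k4 : |SSf (pr zs) (ran P (hh c β t)) - SSf (pr z) (ran P (hh c β t))| ≤
      ε1 / 100 * SSf (pr z) (ran P (hh c β t)) :=
    k3'.trans (mul_le_mul_of_nonneg_right hz1 hs0)
  have hZ'R : (0 : ℝ) < Z' := lt_of_lt_of_le (by positivity) hR.ge
  have hlog1 : Real.log Z' ≤ L := Real.log_le_log hZ'R (by exact_mod_cast hR.le)
  have hlog2 : L - |Real.log κ| ≤ Real.log Z' := by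
    have h1 : Real.log (κ * Z) ≤ Real.log Z' := Real.log_le_log (by positivity) hR.ge
    rw [Real.log_mul hκ.ne' hZ0.ne'] at h1
    have h2 := neg_abs_le (Real.log κ)
    linarith
  have hL'1 : 1 ≤ Real.log Z' := by linarith
  have hzsZ' : zs ≤ Z' := by
    have : (zs : ℝ) ≤ Z' := n5.trans hR.ge
    exact_mod_cast this
  have hzs1 : (1 : ℝ) ≤ zs := by
    have : 1 ≤ zs := by omega
    exact_mod_cast this
  have hlz0 : 0 ≤ Real.log zs := Real.log_nonneg hzs1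
  have hlz1 : Real.log zs ≤ L := Real.log_le_log (by linarith) (by exact_mod_cast n4)
  have hcY0 : 0 ≤ (zs : ℝ) ^ (-cY) := by positivity
  have hsmall : L * (k * A' + Z' * (zs : ℝ) ^ (-cY) + Z * σ * (1 + 500 ^ (k + 1))) ≤
      ε1 / 4000 * (Z' * densN D zs Z' (ran P (hh c β t))) := by
    unfold densN
    refine y4_small k Z Z' L (Real.log Z') (Real.log zs) _ _ _ cX C' (ε1 / 4000) κ (∏ i, (D i : ℝ)) _ q hL0 hL'1 hlog1
      hR.ge hκ hZ0 (by exact_mod_cast hR.le) hlz0 hlz1 hcX hC' (hX _ hN) hPD1 (by positivity) hcY0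
      n11 n10 ?_ hq3
    calc Z * σ * (1 + 500 ^ (k + 1)) = Z * (σ * (1 + 500 ^ (k + 1))) := by ring
      _ ≤ Z * (q * L ^ (-(C' + k + 1))) := by gcongr
      _ = q * (Z * L ^ (-(C' + k + 1))) := by ring
  have hfin := y4_t c D hD P A A' A1 hPol hA1c β t ht0 hN Z Z' zs z κ θ (vf θ) ε1 σ ((zs : ℝ) ^ (-cY)) hθ hR
    (by omega) (by omega) (by omega) hzsZ' hε10 hε11 hσ0.le hcY0 hL'1 (by
      rw [abs_of_nonneg (by linarith)]
      nlinarith) (hPNT Z' hR.le (hh c β t)) k1' k2' k4 hsmall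
  have hdn : 0 ≤ (Z' : ℝ) * densN D z Z' (ran P (hh c β t)) := by
    unfold densN
    positivity
  have : ε1 * ((Z' : ℝ) * densN D z Z' (ran P (hh c β t))) ≤ ε * ((Z' : ℝ) * densN D z Z' (ran P (hh c β t))) :=
    mul_le_mul_of_nonneg_right hε12 hdn
  linarith

/-- **Y4.** Proof. `δ1 = min(δ_A, δ_Y, δ_N)/2`, also `≤ 1/4`, with `δ_A` from `hA`, `δ_Y` from `Y2_main`, `δ_N` from `N6_main`. Given `A`: `A' = A + ∑ D_i + ∑ |a_i| + 3`; `c, C'` from `N1_X2` for `A'`; `A1` a natural number `≥ A' + 2 A + 2 C' + 2 k + 20`; `cA` from `hA` for `A1`, `cY` from `Y2_main`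
(for `A'`), `c0, C1N, z0N` from `N6_main` for `A'`. Given `ε` (WLOG `≤ 1`), `κ` (WLOG `≤ 1`), `vf`: `hA` with `A1, ε/4000, κ, fun θ => min (vf θ) 1` gives `θ, C1, Z0`; this is the `θ` of `NCore`. For `Z` large put `zs = ⌊Z^δ1⌋`; `z ≤ zs` for the `z` of the statement.
Sets (all inside `tb 0 (A1 Z^e + 1)`): for `b ∈ [Z, 2 Z)` let `E_b` be the set of `ACore` for `B = X + C b` and the level `zs`: at most `Z^(∑ e) ((log Z)^(-A1) + C1 (zs + 1)^(-cA)) ≤ 2 Z^(∑ e) (log Z)^(-A1)` elements. By `Y3_bad` (`σ = Z (log Z)^(-A1/2)`) all `t` but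
`2 Z^(∑ e) (log Z)^(-A1/2)` are in at most `Z (log Z)^(-A1/2)` of the `E_b`. Throw away these, the set of `Y2_main` (`Q = zs`), and for `z1 ≤ z` the set of `N6_main` for the levels `z ≤ zs`: at most
`C1N Z^(∑ e) z^(-c0)`. For `z < z1` (`z1 ≥ z0N` with `C1N z1^(-c0) ≤ ε/100`) the bound is trivial with `C1' ≥ (2 A + 2)^d (z1 + 1)^c0` (`u10_card`). For the other `t` with `NoFix (ran P h)` and `RegN`: `y4_one` with `ε/4000`, `σ = (log Z)^(-A1/2)`, `σ' = zs^(-cY)`,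
`Bad` = the `b` with `t ∈ E_b` (`hgood`: `y4_reg` with `Reg (A + 3) …`, monotone to `Reg A1 …`; `t ∉ E_b` and `NoFix` give the inequality); `hsmall` as `densN ≥ c (1 + log zs)^(-C')/((∏ D) (log Z')^k)`, `Z' ≥ κ Z`, and `A1/2 ≥ C' + k + 3`;
`hpnt` by `Y1_main`. So `|cnt - Z' densN zs| ≤ (ε/200) Z' densN zs`, and `|SSf (pr zs) - SSf (pr z)| ≤ (ε/100) SSf (pr z)`. -/
theorem Y4_core {k d : ℕ} (c : Fin k → Fin d → ℤ) (e : Fin d → ℕ) (D : Fin k → ℕ) (a : Fin k → ℤ)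
    (hF : FGTU c D a) (he : ∀ j, 1 ≤ e j) (hD : ∀ i, 1 ≤ D i) (P : Fin k → ℤ[X]) (hP : HasD D a P) (hA : ACore c e D P) :
    NCore c e D P := by
  classical
  obtain ⟨δA, hδA, hA⟩ := hA
  obtain ⟨δY, hδY, hY⟩ := Y2_main c e D a hF he hD P hP
  obtain ⟨δN, hδN, hNN⟩ := N6_main c e D a hF he hD P hP
  obtain ⟨δ1, hδ0, hδA', hδY', hδN', hδ4⟩ : ∃ δ1 : ℝ, 0 < δ1 ∧ δ1 ≤ δA ∧ δ1 ≤ δY ∧ δ1 ≤ δN ∧ δ1 ≤ 1 / 4 :=
    ⟨min (min δA δY) (min δN (1 / 4)), lt_min (lt_min hδA hδY) (lt_min hδN (by norm_num)),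
      (min_le_left _ _).trans (min_le_left _ _), (min_le_left _ _).trans (min_le_right _ _),
      (min_le_right _ _).trans (min_le_left _ _), (min_le_right _ _).trans (min_le_right _ _)⟩
  refine ⟨δ1, hδ0, fun A => ?_⟩
  set A' : ℕ := A + ∑ i, D i + ∑ i, (a i).natAbs + 3 with hA'
  have hPol : Pol A' P := y4_pol D a hD P hP A' (by omega) (by omega)
  obtain ⟨cX, C', hcX, hC', hX⟩ := N1_X2 k A' (by omega)
  set A1 : ℕ := 2 * ⌈C'⌉₊ + 2 * k + 2 * A + A' + 20 with hA1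
  have hA1a : (C' + k + 1) + 1 ≤ (A1 : ℝ) / 2 := by
    have h1 : C' ≤ ⌈C'⌉₊ := Nat.le_ceil _
    have h2 : (A1 : ℝ) = 2 * ⌈C'⌉₊ + 2 * k + 2 * A + A' + 20 := by rw [hA1]; push_cast; ring
    have h3 : (0 : ℝ) ≤ A := by positivity
    have h4 : (0 : ℝ) ≤ A' := by positivity
    linarith
  have hA1b : (A : ℝ) + 1 ≤ (A1 : ℝ) / 2 := by
    have h1 : (0 : ℝ) ≤ ⌈C'⌉₊ := by positivity
    have h2 : (A1 : ℝ) = 2 * ⌈C'⌉₊ + 2 * k + 2 * A + A' + 20 := by rw [hA1]; push_cast; ring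
    have h3 : (0 : ℝ) ≤ k := by positivity
    have h4 : (0 : ℝ) ≤ A' := by positivity
    linarith
  have hA1c : A + 3 ≤ A1 := by omega
  obtain ⟨cA, hcA, hA⟩ := hA A1
  obtain ⟨cY, hcY, Q0, hY⟩ := hY A
  obtain ⟨c0, C1N, hc0, hC1N, z0, hNN⟩ := hNN A
  refine ⟨c0, hc0, fun ε κ vf hε hκ hvf => ?_⟩
  set ε1 : ℝ := min ε 1 with hε1
  have hε10 : 0 < ε1 := lt_min hε one_pos
  have hε11 : ε1 ≤ 1 := min_le_right _ _
  have hε12 : ε1 ≤ ε := min_le_left _ _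
  obtain ⟨θ, C1A, Z0A, hθ, hC1A, hA⟩ := hA (ε1 / 4000) κ (fun θ => min (vf θ) 1) (by positivity) hκ
    (fun θ hθ => lt_min (hvf θ hθ) one_pos)
  obtain ⟨Z0P, hPNT⟩ := Y1_main (ε1 / 4000) (by positivity)
  obtain ⟨z1, hz10, hz11, hz1⟩ : ∃ z1 : ℕ, z0 ≤ z1 ∧ 1 ≤ z1 ∧ ∀ z : ℕ, z1 ≤ z → C1N * (z : ℝ) ^ (-c0) ≤ ε1 / 100 := by
    have h1 : Filter.Tendsto (fun z : ℕ => C1N * (z : ℝ) ^ (-c0)) Filter.atTop (nhds (C1N * 0)) :=
      ((tendsto_rpow_neg_atTop hc0).comp tendsto_natCast_atTop_atTop).const_mul C1N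
    rw [mul_zero] at h1
    have h2 := h1.eventually (ge_mem_nhds (show (0 : ℝ) < ε1 / 100 by positivity))
    obtain ⟨y, hy⟩ := Filter.eventually_atTop.1 h2
    exact ⟨max y (max z0 1), (le_max_left _ _).trans (le_max_right _ _), (le_max_right _ _).trans (le_max_right _ _),
      fun z hz => hy z ((le_max_left _ _).trans hz)⟩
  set PD : ℝ := ∏ i, (D i : ℝ) with hPD
  have hPD1 : 1 ≤ PD := by
    rw [hPD]
    have h1 : ∏ i : Fin k, (1 : ℝ) ≤ ∏ i, (D i : ℝ) :=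
      prod_le_prod (fun i _ => zero_le_one) (fun i _ => by exact_mod_cast hD i)
    rwa [prod_const_one] at h1
  set q : ℝ := ε1 / 4000 * κ * cX * 2 ^ (-C') / (3 * PD) with hq
  have h20 : (0 : ℝ) < 2 ^ (-C') := Real.rpow_pos_of_pos (by norm_num) _
  have hq0 : 0 < q := by positivity
  have hq3 : 3 * q * PD ≤ ε1 / 4000 * κ * cX * 2 ^ (-C') := by
    rw [hq]
    apply le_of_eq
    have : PD ≠ 0 := by positivity
    field_simp
  obtain ⟨Z0N, hZ0N, hnum⟩ := y4_nums k A A' A1 Q0 C1A cA cY δ1 κ ε1 C' cX PD q hcA hcY hδ0 hδ4 hκ hε10 hq0 hC' hC1A hA1a hA1b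
  refine ⟨θ, (2 * ((A + 1 : ℕ) : ℝ)) ^ d * ((z1 : ℝ) + 1) ^ c0 + C1N * 2 ^ c0, Z0A + Z0P + Z0N, hθ, by positivity,
    fun Z hZ β hβ z hz => ?_⟩
  have hZ1 : 1 ≤ Z := by omega
  have hZ1R : (1 : ℝ) ≤ Z := by exact_mod_cast hZ1
  have hZ0 : (0 : ℝ) < Z := by linarith
  have hWe : (Z : ℝ) ^ (∑ j, (e j : ℝ)) = (Z : ℝ) ^ (∑ j, e j) := by
    rw [← Real.rpow_natCast]
    push_cast
    rfl
  rw [hWe]
  set W : ℝ := (Z : ℝ) ^ (∑ j, e j) with hW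
  have hW0 : 0 < W := by positivity
  set zs : ℕ := ⌊(Z : ℝ) ^ δ1⌋₊ with hzs
  obtain ⟨n1, n2, n3, n4, n5, n6, n7, n8, n9, n10, n11, n12, n13⟩ := hnum Z (by omega) zs rfl
  set L : ℝ := Real.log Z with hL
  have hL0 : 0 < L := by linarith
  have hx0 : 0 < (Z : ℝ) ^ δ1 := Real.rpow_pos_of_pos hZ0 _
  have hzsle : (zs : ℝ) ≤ (Z : ℝ) ^ δ1 := Nat.floor_le hx0.le
  have hzzs : z ≤ zs := Nat.le_floor hz
  have hLA : 0 < L ^ (-(A : ℝ)) := Real.rpow_pos_of_pos hL0 _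
  by_cases hcase : z < z1
  · -- trivial bound
    have h1 : ((tb (0 : Fin d → ℤ) fun j => A * Z ^ e j + 1).card : ℝ) ≤ (2 * ((A + 1 : ℕ) : ℝ)) ^ d * W := by
      refine le_trans ?_ (u10_card e (A + 1) Z (by omega) hZ1)
      exact_mod_cast card_le_card (y4_tb _ _ fun j => by
        have : A * Z ^ e j ≤ (A + 1) * Z ^ e j := Nat.mul_le_mul_right _ (by omega)
        omega)
    have h2 : (1 : ℝ) ≤ ((z1 : ℝ) + 1) ^ c0 * ((z : ℝ) + 1) ^ (-c0) := by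
      have h3 : ((z1 : ℝ) + 1) ^ (-c0) ≤ ((z : ℝ) + 1) ^ (-c0) :=
        Real.rpow_le_rpow_of_nonpos (by positivity) (by
          have : (z : ℝ) ≤ z1 := by exact_mod_cast hcase.le
          linarith) (by linarith)
      have h4 : ((z1 : ℝ) + 1) ^ c0 * ((z1 : ℝ) + 1) ^ (-c0) = 1 := by
        rw [← Real.rpow_add (by positivity), add_neg_cancel, Real.rpow_zero]
      calc (1 : ℝ) = ((z1 : ℝ) + 1) ^ c0 * ((z1 : ℝ) + 1) ^ (-c0) := h4.symm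
        _ ≤ ((z1 : ℝ) + 1) ^ c0 * ((z : ℝ) + 1) ^ (-c0) := by gcongr
    have h5 : 0 < ((z : ℝ) + 1) ^ (-c0) := Real.rpow_pos_of_pos (by positivity) _
    refine le_trans (Nat.cast_le.2 (card_le_card (filter_subset _ _))) (h1.trans ?_)
    have h6 : (0 : ℝ) ≤ C1N * 2 ^ c0 * ((z : ℝ) + 1) ^ (-c0) := by positivity
    have h7 : (0 : ℝ) ≤ (2 * ((A + 1 : ℕ) : ℝ)) ^ d := by positivity
    calc (2 * ((A + 1 : ℕ) : ℝ)) ^ d * W = W * ((2 * ((A + 1 : ℕ) : ℝ)) ^ d * 1) := by ring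
      _ ≤ W * ((2 * ((A + 1 : ℕ) : ℝ)) ^ d * (((z1 : ℝ) + 1) ^ c0 * ((z : ℝ) + 1) ^ (-c0))) := by gcongr
      _ ≤ W * (L ^ (-(A : ℝ)) + ((2 * ((A + 1 : ℕ) : ℝ)) ^ d * ((z1 : ℝ) + 1) ^ c0 + C1N * 2 ^ c0) * ((z : ℝ) + 1) ^ (-c0)) := by
        refine mul_le_mul_of_nonneg_left ?_ hW0.le
        nlinarith
  · rw [not_lt] at hcase
    set S : Finset (Fin d → ℤ) := tb 0 fun j => A * Z ^ e j + 1 with hS
    set σ : ℝ := L ^ (-((A1 : ℝ) / 2)) with hσ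
    have hσ0 : 0 < σ := Real.rpow_pos_of_pos hL0 _
    have hσ2 : σ * σ = L ^ (-(A1 : ℝ)) := by
      rw [hσ, ← Real.rpow_add hL0]
      congr 1
      ring
    -- the sets of the good theorem
    have hEb : ∀ b ∈ Ico Z (2 * Z), ((S.filter (y4E c D P A1 β Z zs κ θ (min (vf θ) 1) (ε1 / 4000) b)).card : ℝ) ≤
        W * (2 * (σ * σ)) := by
      intro b hb
      have h1 := hA Z (by omega) (X + C ((b : ℕ) : ℤ)) (natDegree_X_add_C _) (by
        rw [leadingCoeff_X_add_C]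
        simp
        omega) β (fun i => (hβ i).trans (by
          have : (A : ℤ) ≤ A1 := by
            have : A ≤ A1 := by omega
            exact_mod_cast this
          gcongr)) zs (hzsle.trans (Real.rpow_le_rpow_of_exponent_le hZ1R hδA'))
      rw [hWe] at h1
      refine le_trans ?_ (h1.trans ?_)
      · refine Nat.cast_le.2 (card_le_card ?_)
        intro t ht
        rw [mem_filter] at ht
        rw [mem_filter]
        exact ⟨y4_tb _ _ (fun j => by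
          have : A * Z ^ e j ≤ A1 * Z ^ e j := Nat.mul_le_mul_right _ (by omega)
          omega) ht.1, ht.2⟩
      · refine mul_le_mul_of_nonneg_left ?_ hW0.le
        rw [hσ2]
        linarith
    have hB := Y3_bad S (Ico Z (2 * Z)) (fun b t => y4E c D P A1 β Z zs κ θ (min (vf θ) 1) (ε1 / 4000) b t)
      (W * (2 * (σ * σ))) (σ * Z) (by positivity) hEb
    have hBY := hY zs Z (by omega) (hzsle.trans (Real.rpow_le_rpow_of_exponent_le hZ1R hδY')) β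
    have hBN := hNN z zs Z (by omega) hzzs (hzsle.trans (Real.rpow_le_rpow_of_exponent_le hZ1R hδN')) β
    -- the inclusion
    have hsub := y4_sub c e D hD P A A' A1 hPol hA1c ε ε1 κ θ cX C' C1N c0 cY q σ vf Z zs z hε10 hε11 hε12 hκ hθ hcX hC' hσ0
      hZ1R (fun h hN => hX P hPol h hN zs (by omega)) (fun Z' hZ' h => hPNT Z Z' (by omega) hZ' k P h) (hz1 z hcase)
      n3 n4 n5 n6 n7 n10 n11 n12 hq3 β
    have hcard := card_le_card hsub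
    have hcard2 := hcard.trans ((card_union_le _ _).trans (Nat.add_le_add_left (card_union_le _ _) _))
    refine le_trans (Nat.cast_le.2 hcard2) ?_
    rw [Nat.cast_add, Nat.cast_add]
    have hB' : ((Ico Z (2 * Z)).card : ℝ) * (W * (2 * (σ * σ))) / (σ * Z) = W * (2 * σ) := by
      rw [Nat.card_Ico, show 2 * Z - Z = Z by omega]
      field_simp
    rw [hB'] at hB
    have hz1R : (1 : ℝ) ≤ z := by
      have : 1 ≤ z := by omega
      exact_mod_cast this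
    have hzpow : (z : ℝ) ^ (-c0) ≤ 2 ^ c0 * ((z : ℝ) + 1) ^ (-c0) := by
      calc (z : ℝ) ^ (-c0) ≤ (((z : ℝ) + 1) / 2) ^ (-c0) :=
            Real.rpow_le_rpow_of_nonpos (by positivity) (by linarith) (by linarith)
        _ = 2 ^ c0 * ((z : ℝ) + 1) ^ (-c0) := by
          rw [Real.div_rpow (by positivity) (by norm_num), Real.rpow_neg (by norm_num : (0 : ℝ) ≤ 2), div_inv_eq_mul,
            mul_comm]
    have h5 : 0 < ((z : ℝ) + 1) ^ (-c0) := Real.rpow_pos_of_pos (by positivity) _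
    have g1 : W * (2 * σ) ≤ W * (1 / 2 * L ^ (-(A : ℝ))) := mul_le_mul_of_nonneg_left n13 hW0.le
    have g2 : W * (zs : ℝ) ^ (-cY) ≤ W * (1 / 2 * L ^ (-(A : ℝ))) := mul_le_mul_of_nonneg_left n9 hW0.le
    have g3 : C1N * W * (z : ℝ) ^ (-c0) ≤ W * (C1N * 2 ^ c0 * ((z : ℝ) + 1) ^ (-c0)) := by
      calc C1N * W * (z : ℝ) ^ (-c0) ≤ C1N * W * (2 ^ c0 * ((z : ℝ) + 1) ^ (-c0)) := by gcongr
        _ = W * (C1N * 2 ^ c0 * ((z : ℝ) + 1) ^ (-c0)) := by ring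
    have g4 : 0 ≤ W * ((2 * ((A + 1 : ℕ) : ℝ)) ^ d * ((z1 : ℝ) + 1) ^ c0 * ((z : ℝ) + 1) ^ (-c0)) := by positivity
    calc _ ≤ W * (2 * σ) + (W * (zs : ℝ) ^ (-cY) + C1N * W * (z : ℝ) ^ (-c0)) := by
          refine add_le_add ?_ (add_le_add ?_ ?_)
          · exact hB
          · exact hBY
          · exact hBN
      _ ≤ _ := by
        rw [mul_add, add_mul, mul_add]
        linarith

end Pool.Agent.HLA
end
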