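import Pool.Agent.Lib.H59M.M2.M015
import Pool.Agent.Lib.H59M.M2.M016
import Pool.Agent.Lib.H59M.M2.M023
import Pool.Agent.Lib.H59M.M2.M024
import Pool.Agent.Lib.H59M.M2.M037
import Pool.Agent.Lib.H59M.M2.M056
import Pool.Agent.Lib.H59M.M2.M057
import Pool.Agent.Lib.H59M.M2.M081
import Pool.Agent.Lib.H59M.M2.M087
import Pool.Agent.Lib.H59M.M2.M088
import Pool.Agent.Lib.H59M.M2.M093
import Pool.Agent.Lib.H59M.M2.M095
import Pool.Agent.Lib.H59M.M2.M096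
import Pool.Agent.Lib.H59M.M2.M098
import Pool.Agent.Lib.H59M.M2.M099
import Pool.Agent.Lib.H59M.M2.M100
import Pool.Agent.Lib.H59M.M2.M101
import Pool.Agent.Lib.H59M.M2.M105
import Pool.Agent.Lib.H59M.M2.M106
import Pool.Agent.Lib.H59M.M2.M108
import Pool.Agent.Lib.H59M.M2.M110
import Pool.Agent.Lib.H59M.M2.M113

/-! Merged copies (to shorten the build) of Lib.H9P.U6, Lib.H9P.U9, Lib.H9P.E3, Lib.HLA.W3, Lib.H9P.V9, Lib.H9P.U14, Lib.H9P.V14, Lib.H9P.V16, Lib.HLA.W16C, Lib.HLA.W16, Lib.HLA.W17, Lib.HUP.F5, Lib.HUP.F5b, Lib.HUP.F8. -/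

-- from Lib.H9P.U6
section

/-!
# ASYP, chunk U6 (M): the mean square of the difference between the model and the main term of a cell
-/

open Finset Polynomial

namespace Pool.Agent.H9P

open Pool.Agent.Lib.H68T Pool.Agent.Lib.H18Q Pool.Agent.Lib.H59P Pool.Agent.Lib.H24P
open Pool.Agent.HUP

/-- **U6.** Copy of `R16_ms` (`HUP/R16.lean`) with `U4_main`, `U2_main`, `U5_main`, `U3_main` instead of `R13_main`, `R2_main`, `R14_main`, `R9_main`. -/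
theorem U6_ms (k A E : ℕ) (hA : 1 ≤ A) (Cc cc : ℝ) (hC : FPar Cc cc) :
    ∃ c K : ℝ, 0 < c ∧ 1 ≤ K ∧ ∀ C : ℝ, ∃ Q0 : ℕ, ∀ P : Fin k → ℤ[X], Pol A P →
    ∀ (Q X X1 Y : ℕ) (M : Fin k → ℕ) (B : ℤ[X]) (C0 : ℤ → Ch → ℂ) (mb : Ch → ℝ), Q0 ≤ Q →
    Rg K C Q X → GeoV Q X X1 P M → GeoB A X X1 Y B → Cf (Q ^ 100) Y C0 mb →
    ∀ (C' : Fin k → ℤ → Ch → ℂ) (mc : Fin k → Ch → ℝ), (∀ i, Cf Q (Ysc (M i)) (C' i) (mc i)) →
    ∀ r : ℕ, 1 ≤ r → r ^ 100 ≤ Q →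
    ∀ (ι : Type) (S : Finset ι) (g : ι → Fin k → ℕ) (h0 : Fin k → ℕ), Cl E Cc cc Q P M S g h0 →
    ∑ x ∈ S, ‖((Rw Q X1 P M (fun n => lp (B.eval (n : ℤ))) (g x) : ℝ) : ℂ) -
      MZb Q X1 (B.leadingCoeff.natAbs * r) P B C0 C' h0 (g x)‖ ^ 2 ≤
      (X1 : ℝ) ^ 2 * S.card * (Q : ℝ) ^ (-c) := by
  have hT : TMb k A E Cc cc := R6_main k A E hA Cc cc hC
  obtain ⟨K2, hK2, hW2⟩ := W2_ms A
  obtain ⟨c4, K4, hc4, hK4, hW3⟩ := U2_main k A E hA Cc cc hC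
  obtain ⟨c6, K6, hc6, hK6, hZ2⟩ := U3_main k A E hA Cc cc hC hT
  set cm : ℝ := min 1 (min c4 c6) with hcm
  have hcm0 : 0 < cm := lt_min one_pos (lt_min hc4 hc6)
  have hcm2 : cm ≤ 1 := min_le_left _ _
  have hcm4 : cm ≤ c4 := (min_le_right _ _).trans (min_le_left _ _)
  have hcm6 : cm ≤ c6 := (min_le_right _ _).trans (min_le_right _ _)
  obtain ⟨Q7, hQ7, hlog⟩ := G1_rlog 20 0 (cm / 2) (by positivity)
  refine ⟨cm / 2, max (max 2 K2) (max K4 K6), by positivity,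
    le_max_of_le_left (le_max_of_le_left (by norm_num)), fun C => ?_⟩
  obtain ⟨Q2, hW2⟩ := hW2 C
  obtain ⟨Q3, hV1⟩ := U4_main k A C
  obtain ⟨Q4, hW3⟩ := hW3 C
  obtain ⟨Q5, hV2⟩ := U5_main k A C
  obtain ⟨Q6, hZ2⟩ := hZ2 C
  refine ⟨max (max (max Q2 Q3) (max Q4 Q5)) (max Q6 (max Q7 1)), ?_⟩
  intro P hP Q X X1 Y M B C0 mb hQ hRg hG hB hCf C' mc hCc r hr hr100 ι S g h0 hCl
  have hQ' := max_le_iff.1 hQ
  have hQa := max_le_iff.1 hQ'.1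
  have hQb := max_le_iff.1 hQ'.2
  have q2 : Q2 ≤ Q := (max_le_iff.1 hQa.1).1
  have q3 : Q3 ≤ Q := (max_le_iff.1 hQa.1).2
  have q4 : Q4 ≤ Q := (max_le_iff.1 hQa.2).1
  have q5 : Q5 ≤ Q := (max_le_iff.1 hQa.2).2
  have q6 : Q6 ≤ Q := hQb.1
  have q7 : Q7 ≤ Q := (max_le_iff.1 hQb.2).1
  have q8 : 1 ≤ Q := (max_le_iff.1 hQb.2).2
  have hQr : (1 : ℝ) ≤ Q := by exact_mod_cast q8
  have hQr0 : (0 : ℝ) < Q := by linarith
  have rtwo : Rg 2 C Q X := z4_rg (le_max_of_le_left (le_max_left _ _)) hRg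
  have r2 : Rg K2 C Q X := z4_rg (le_max_of_le_left (le_max_right _ _)) hRg
  have r4 : Rg K4 C Q X := z4_rg (le_max_of_le_right (le_max_left _ _)) hRg
  have r6 : Rg K6 C Q X := z4_rg (le_max_of_le_right (le_max_right _ _)) hRg
  have hw : ∀ n ∈ Ico X1 (2 * X1), |lp (B.eval (n : ℤ))| ≤ (Real.log X) ^ 2 :=
    (hW2 Q X X1 Y B C0 mb q2 r2 hG.pos hG.le hG.ge hB hCf X1 X1 le_rfl (by omega)
      (Nat.le_mul_of_pos_right _ (Nat.pow_pos q8))).2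
  have e2 := hV1 P hP Q X X1 M q3 rtwo hG C' mc hCc (fun n => lp (B.eval (n : ℤ))) hw h0 hCl.memb
  have e3 := hW3 P hP Q X X1 Y M B C0 mb q4 r4 hG hB hCf C' mc hCc ι S g h0 hCl
  have e4 := hV2 P hP Q X X1 Y M B C0 mb q5 rtwo hG hB hCf C' mc hCc h0 hCl.memb
  have e5 := hZ2 P hP Q X X1 Y M B C0 mb q6 r6 hG hB hCf C' mc hCc r hr hr100 ι S g h0 hCl
  set m0 : ℕ := B.leadingCoeff.natAbs * r with hm0
  set V : ℝ := (X1 : ℝ) ^ 2 * S.card with hV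
  have hV0 : 0 ≤ V := by positivity
  set D : ℝ := ((X1 : ℝ) * (Q : ℝ) ^ (-(1) : ℝ)) ^ 2 with hD
  have hpt : ∀ x ∈ S, ‖((Rw Q X1 P M (fun n => lp (B.eval (n : ℤ))) (g x) : ℝ) : ℂ) -
      MZb Q X1 m0 P B C0 C' h0 (g x)‖ ^ 2 ≤
      5 * (2 * D +
      ‖Rzb Q X1 P C' (fun n => ((lp (B.eval (n : ℤ)) : ℝ) : ℂ)) h0 (g x) -
        Rzb Q X1 P C' (fun n => ((Lk (Q ^ 100) (Y / (Q ^ 100) ^ 2) (B.eval (n : ℤ)) : ℝ) : ℂ)) h0 (g x)‖ ^ 2 +
      ‖Rzb Q X1 P C' (gB Q X1 B C0) h0 (g x) - MZb Q X1 m0 P B C0 C' h0 (g x)‖ ^ 2) := by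
    intro x hx
    have a1 := e2 (g x) (hCl.mem x hx) (hCl.close x hx)
    have a2 := e4 (g x) (hCl.mem x hx)
    have b1 : ‖((Rw Q X1 P M (fun n => lp (B.eval (n : ℤ))) (g x) : ℝ) : ℂ) -
        Rzb Q X1 P C' (fun n => ((lp (B.eval (n : ℤ)) : ℝ) : ℂ)) h0 (g x)‖ ^ 2 ≤ D :=
      pow_le_pow_left₀ (norm_nonneg _) a1 2
    have b2 : ‖Rzb Q X1 P C' (fun n => ((Lk (Q ^ 100) (Y / (Q ^ 100) ^ 2) (B.eval (n : ℤ)) : ℝ) : ℂ)) h0 (g x) -
        Rzb Q X1 P C' (gB Q X1 B C0) h0 (g x)‖ ^ 2 ≤ D :=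
      pow_le_pow_left₀ (norm_nonneg _) a2 2
    have h5 := z4_five (((Rw Q X1 P M (fun n => lp (B.eval (n : ℤ))) (g x) : ℝ) : ℂ) -
        Rzb Q X1 P C' (fun n => ((lp (B.eval (n : ℤ)) : ℝ) : ℂ)) h0 (g x))
      (Rzb Q X1 P C' (fun n => ((lp (B.eval (n : ℤ)) : ℝ) : ℂ)) h0 (g x) -
        Rzb Q X1 P C' (fun n => ((Lk (Q ^ 100) (Y / (Q ^ 100) ^ 2) (B.eval (n : ℤ)) : ℝ) : ℂ)) h0 (g x))
      (Rzb Q X1 P C' (fun n => ((Lk (Q ^ 100) (Y / (Q ^ 100) ^ 2) (B.eval (n : ℤ)) : ℝ) : ℂ)) h0 (g x) -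
        Rzb Q X1 P C' (gB Q X1 B C0) h0 (g x))
      (Rzb Q X1 P C' (gB Q X1 B C0) h0 (g x) - MZb Q X1 m0 P B C0 C' h0 (g x)) 0
    have h6 : ((Rw Q X1 P M (fun n => lp (B.eval (n : ℤ))) (g x) : ℝ) : ℂ) -
        MZb Q X1 m0 P B C0 C' h0 (g x) = (((Rw Q X1 P M (fun n => lp (B.eval (n : ℤ))) (g x) : ℝ) : ℂ) -
        Rzb Q X1 P C' (fun n => ((lp (B.eval (n : ℤ)) : ℝ) : ℂ)) h0 (g x)) +
      (Rzb Q X1 P C' (fun n => ((lp (B.eval (n : ℤ)) : ℝ) : ℂ)) h0 (g x) -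
        Rzb Q X1 P C' (fun n => ((Lk (Q ^ 100) (Y / (Q ^ 100) ^ 2) (B.eval (n : ℤ)) : ℝ) : ℂ)) h0 (g x)) +
      (Rzb Q X1 P C' (fun n => ((Lk (Q ^ 100) (Y / (Q ^ 100) ^ 2) (B.eval (n : ℤ)) : ℝ) : ℂ)) h0 (g x) -
        Rzb Q X1 P C' (gB Q X1 B C0) h0 (g x)) +
      (Rzb Q X1 P C' (gB Q X1 B C0) h0 (g x) - MZb Q X1 m0 P B C0 C' h0 (g x)) + 0 := by ring
    rw [h6]
    refine h5.trans ?_
    rw [norm_zero]
    linarith
  refine (Finset.sum_le_sum hpt).trans ?_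
  rw [← Finset.mul_sum, Finset.sum_add_distrib, Finset.sum_add_distrib, Finset.sum_const, nsmul_eq_mul]
  have hle : ∀ c' : ℝ, cm ≤ c' → V * (Q : ℝ) ^ (-c') ≤ V * (Q : ℝ) ^ (-cm) := by
    intro c' hc'
    exact mul_le_mul_of_nonneg_left (Real.rpow_le_rpow_of_exponent_le hQr (by linarith)) hV0
  have f3 := e3.trans (hle _ hcm4)
  have f5 := e5.trans (hle _ hcm6)
  have hDV : (S.card : ℝ) * (2 * D) = 2 * (V * (Q : ℝ) ^ (-(2 : ℝ))) := by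
    have h3 : (Q : ℝ) ^ (-(2 : ℝ)) = ((Q : ℝ) ^ (-(1) : ℝ)) ^ 2 := by
      rw [← Real.rpow_natCast ((Q : ℝ) ^ (-(1) : ℝ)), ← Real.rpow_mul hQr0.le]
      norm_num
    rw [hD, hV, h3]
    ring
  have f2 : (S.card : ℝ) * (2 * D) ≤ 2 * (V * (Q : ℝ) ^ (-cm)) := by
    rw [hDV]
    exact mul_le_mul_of_nonneg_left (hle 2 (by linarith)) (by norm_num)
  have hfin : 20 * (V * (Q : ℝ) ^ (-cm)) ≤ V * (Q : ℝ) ^ (-(cm / 2)) := by
    have h3 : (Q : ℝ) ^ (-(cm / 2)) = (Q : ℝ) ^ (cm / 2) * (Q : ℝ) ^ (-cm) := by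
      rw [← Real.rpow_add hQr0]
      congr 1
      ring
    have h4 := hlog Q q7
    rw [Real.rpow_zero, mul_one] at h4
    have h5 : 0 ≤ V * (Q : ℝ) ^ (-cm) := mul_nonneg hV0 (Real.rpow_nonneg hQr0.le _)
    rw [h3]
    nlinarith [mul_le_mul_of_nonneg_right h4 h5]
  linarith

end Pool.Agent.H9P
end

-- from Lib.H9P.U9
section

/-!
# ASYP, chunk U9 (M/L): one box of parameters, one cell of `n`
-/

open Finset Polynomial

namespace Pool.Agent.H9P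

open Pool.Agent.Lib.H68T Pool.Agent.Lib.H18Q Pool.Agent.Lib.H59P Pool.Agent.Lib.H24P
open Pool.Agent.HUP

theorem u9_mem {k d : ℕ} (c : Fin k → Fin d → ℤ) (β : Fin k → ℤ) (M : Fin k → ℕ) (t : Fin d → ℤ)
    (h : ∀ i, 151 * (M i : ℤ) ≤ 100 * (β i + lf c t i) ∧ 100 * (β i + lf c t i) < 168 * (M i : ℤ)) :
    hh c β t ∈ cub M M ∧ (∀ i, 0 ≤ β i + lf c t i) ∧ ∀ i, ((hh c β t i : ℕ) : ℤ) = β i + lf c t i := by
  have h0 : ∀ i, 0 ≤ β i + lf c t i := fun i => by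
    have h1 := h i
    have h2 : (0 : ℤ) ≤ M i := Nat.cast_nonneg _
    omega
  have h1 : ∀ i, ((hh c β t i : ℕ) : ℤ) = β i + lf c t i := fun i => by
    unfold hh
    exact Int.toNat_of_nonneg (h0 i)
  refine ⟨?_, h0, h1⟩
  unfold cub
  rw [Fintype.mem_piFinset]
  intro i
  rw [mem_Ico]
  have h2 := h i
  have h3 := h1 i
  omega


/-- Chebyshev's inequality with powers of `Q`. -/
theorem u9_cheb {ι : Type*} (S : Finset ι) (f : ι → ℝ) (X1 Q : ℕ) (hX : 0 < X1) (hQ : 0 < Q) (c : ℝ)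
    (hf : ∀ x, 0 ≤ f x) (h : ∑ x ∈ S, f x ^ 2 ≤ (X1 : ℝ) ^ 2 * S.card * (Q : ℝ) ^ (-c)) :
    (((S.filter fun x => (X1 : ℝ) * (Q : ℝ) ^ (-(c / 4)) < f x).card : ℕ) : ℝ) ≤ S.card * (Q : ℝ) ^ (-(c / 2)) := by
  have hX1r : (0 : ℝ) < X1 := by exact_mod_cast hX
  have hQr : (0 : ℝ) < Q := by exact_mod_cast hQ
  have hTpos : 0 < (X1 : ℝ) * (Q : ℝ) ^ (-(c / 4)) := mul_pos hX1r (Real.rpow_pos_of_pos hQr _)
  refine (k1_cheb S f _ _ hTpos h hf).trans (le_of_eq ?_)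
  have h1 : ((X1 : ℝ) * (Q : ℝ) ^ (-(c / 4))) ^ 2 = (X1 : ℝ) ^ 2 * (Q : ℝ) ^ (-(c / 2)) := by
    rw [mul_pow, ← Real.rpow_natCast ((Q : ℝ) ^ (-(c / 4))), ← Real.rpow_mul hQr.le]
    congr 2
    push_cast
    ring
  have h2 : (Q : ℝ) ^ (-c) = (Q : ℝ) ^ (-(c / 2)) * (Q : ℝ) ^ (-(c / 2)) := by
    rw [← Real.rpow_add hQr]
    congr 1
    ring
  have h3 : (0 : ℝ) < (Q : ℝ) ^ (-(c / 2)) := Real.rpow_pos_of_pos hQr _
  rw [h1, h2]
  field_simp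

/-- **U9a.** A cell `S' = tb b' s'` (small box). Proof. `CF0` (`H59P/CF0.lean`) for the models `Mdl (Q^100) Y 1 E0 p0 0` and `Mdl Q (Ysc (M i)) 1 E0 p0 0` gives `e0, eb0, mb` and
`e i, eb i, mb i`; `U6_ms` with `r = 1`; `U7_main` pointwise (`B.leadingCoeff.natAbs ≤ A ≤ fl Q (1/16)`, `G1_size` in `H24P/G1.lean` with `r = 1`); `k1_cheb` (`H24P/K1.lean`) with
`T = X1 Q^(-c1)`, `c1 = c/4`. -/
theorem U9_cell (k A E : ℕ) (hA : 1 ≤ A) (Cc cc : ℝ) (hC : FPar Cc cc) :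
    ∃ c1 K : ℝ, 0 < c1 ∧ 1 ≤ K ∧ ∀ C E0 : ℝ, 0 ≤ E0 → E0 ≤ 1 → ∃ Q0 : ℕ, ∀ P : Fin k → ℤ[X], Pol A P →
    ∀ (Q X X1 Y : ℕ) (M : Fin k → ℕ) (B : ℤ[X]), Q0 ≤ Q →
    Rg K C Q X → GeoV Q X X1 P M → GeoB A X X1 Y B → Mdl (Q ^ 100) Y 1 E0 p0 (fun _ => 0) →
    (∀ i, Mdl Q (Ysc (M i)) 1 E0 p0 (fun _ => 0)) →
    ∀ (ι : Type) (S : Finset ι) (g : ι → Fin k → ℕ) (h0 : Fin k → ℕ), Cl E Cc cc Q P M S g h0 →
    ((S.filter (fun x => X1 * (((1 + E0) ^ (k + 1) - 1) * SSf (pr Q) (sys B P (g x)) + (Q : ℝ) ^ (-c1)) <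
      |Rw Q X1 P M (fun n => lp (B.eval (n : ℤ))) (g x) - X1 * SSf (pr Q) (sys B P (g x))|)).card : ℝ) ≤
      S.card * (Q : ℝ) ^ (-c1) := by
  obtain ⟨c, K, hc, hK, hms⟩ := U6_ms k A E hA Cc cc hC
  obtain ⟨Q1, hQ1, hsize⟩ := G1_size A
  refine ⟨c / 4, K, by positivity, hK, fun C E0 hE0 hE1 => ?_⟩
  obtain ⟨Q0, hms⟩ := hms C
  refine ⟨max Q0 Q1, ?_⟩
  intro P hP Q X X1 Y M B hQ hRg hG hB hMB hM ι S g h0 hCl
  have q0 : Q0 ≤ Q := (le_max_left _ _).trans hQ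
  have q1 : Q1 ≤ Q := (le_max_right _ _).trans hQ
  have q2 : 1 ≤ Q := hQ1.trans q1
  have hQr : (1 : ℝ) ≤ Q := by exact_mod_cast q2
  have hQr0 : (0 : ℝ) < Q := by linarith
  have hQ100 : 1 ≤ Q ^ 100 := Nat.one_le_pow _ _ q2
  obtain ⟨e0, eb0, mb0, a1, a2, a3, a4⟩ := CF0 (Q ^ 100) Y 1 E0 p0 (fun _ => 0) hQ100 hMB hE1
  choose e eb mb b1 b2 b3 b4 using fun i => CF0 Q (Ysc (M i)) 1 E0 p0 (fun _ => 0) q2 (hM i) hE1
  have hms' := hms P hP Q X X1 Y M B (fun m p => MX p0 (fun _ => 0) m p + e0 m p) mb0 q0 hRg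
    hG hB a4 (fun i m p => MX p0 (fun _ => 0) m p + e i m p) mb b4 1 le_rfl
    (by rw [one_pow]; exact q2) ι S g h0 hCl
  have hX1r : (0 : ℝ) < X1 := by exact_mod_cast hG.pos
  have hch := u9_cheb S (fun x => ‖((Rw Q X1 P M (fun n => lp (B.eval (n : ℤ))) (g x) : ℝ) : ℂ) -
    MZb Q X1 (B.leadingCoeff.natAbs * 1) P B (fun m p => MX p0 (fun _ => 0) m p + e0 m p)
      (fun i m p => MX p0 (fun _ => 0) m p + e i m p) h0 (g x)‖) X1 Q hG.pos q2 c (fun _ => norm_nonneg _) hms'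
  have hlc0 : 1 ≤ B.leadingCoeff.natAbs := by
    have h2 : B.leadingCoeff ≠ 0 := by
      rw [Ne, leadingCoeff_eq_zero]
      intro h3
      have h4 := hB.lin.deg
      rw [h3, natDegree_zero] at h4
      omega
    exact Int.natAbs_pos.2 h2
  have hcond := (hsize Q q1 1 B.leadingCoeff.natAbs hlc0 hB.lin.lc (by rw [one_pow]; exact q2)).1
  rw [mul_one] at hcond
  have hsub : (S.filter (fun x => X1 * (((1 + E0) ^ (k + 1) - 1) * SSf (pr Q) (sys B P (g x)) + (Q : ℝ) ^ (-(c / 4))) <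
      |Rw Q X1 P M (fun n => lp (B.eval (n : ℤ))) (g x) - X1 * SSf (pr Q) (sys B P (g x))|)) ⊆
      S.filter (fun x => (X1 : ℝ) * (Q : ℝ) ^ (-(c / 4)) < ‖((Rw Q X1 P M (fun n => lp (B.eval (n : ℤ))) (g x) : ℝ) : ℂ) -
        MZb Q X1 (B.leadingCoeff.natAbs * 1) P B (fun m p => MX p0 (fun _ => 0) m p + e0 m p)
          (fun i m p => MX p0 (fun _ => 0) m p + e i m p) h0 (g x)‖) := by
    intro x hx
    rw [mem_filter] at hx ⊢
    refine ⟨hx.1, ?_⟩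
    have h7 := U7_main P A Q X X1 Y q2 M B hG hB hcond E0 e0 eb0 a1 (by rw [one_mul] at a2; exact a2) a3 e eb
      (fun i => by have := b2 i; rw [one_mul] at this; exact this) b3 h0 hCl.memb (g x)
    have h8 : |Rw Q X1 P M (fun n => lp (B.eval (n : ℤ))) (g x) - X1 * SSf (pr Q) (sys B P (g x))| =
        ‖((Rw Q X1 P M (fun n => lp (B.eval (n : ℤ))) (g x) : ℝ) : ℂ) -
          ((X1 * SSf (pr Q) (sys B P (g x)) : ℝ) : ℂ)‖ := by
      rw [← Complex.ofReal_sub, Complex.norm_real, Real.norm_eq_abs]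
    have h9 := norm_sub_le_norm_sub_add_norm_sub ((Rw Q X1 P M (fun n => lp (B.eval (n : ℤ))) (g x) : ℝ) : ℂ)
      (MZb Q X1 (B.leadingCoeff.natAbs * 1) P B (fun m p => MX p0 (fun _ => 0) m p + e0 m p)
          (fun i m p => MX p0 (fun _ => 0) m p + e i m p) h0 (g x)) ((X1 * SSf (pr Q) (sys B P (g x)) : ℝ) : ℂ)
    have h10 := hx.2
    rw [h8] at h10
    have h11 : (X1 : ℝ) * (((1 + E0) ^ (k + 1) - 1) * SSf (pr Q) (sys B P (g x)) + (Q : ℝ) ^ (-(c / 4))) =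
      X1 * (((1 + E0) ^ (k + 1) - 1) * SSf (pr Q) (sys B P (g x))) + X1 * (Q : ℝ) ^ (-(c / 4)) := by ring
    rw [h11] at h10
    linarith
  have hcard : (((S.filter (fun x => X1 * (((1 + E0) ^ (k + 1) - 1) * SSf (pr Q) (sys B P (g x)) + (Q : ℝ) ^ (-(c / 4))) <
      |Rw Q X1 P M (fun n => lp (B.eval (n : ℤ))) (g x) - X1 * SSf (pr Q) (sys B P (g x))|)).card : ℕ) : ℝ) ≤
      _ := Nat.cast_le.2 (card_le_card hsub)
  refine hcard.trans (hch.trans ?_)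
  exact mul_le_mul_of_nonneg_left (Real.rpow_le_rpow_of_exponent_le hQr (by linarith)) (Nat.cast_nonneg _)


end Pool.Agent.H9P
end

-- from Lib.H9P.E3
section

/-!
# ASYP, chunk E3 (M): the levels satisfy `Lvl`
-/

open Finset Polynomial

namespace Pool.Agent.H9P

open Pool.Agent.Lib.H68T Pool.Agent.Lib.H18Q Pool.Agent.Lib.H59P Pool.Agent.Lib.H24P
open Pool.Agent.HUP

theorem e3_log (a b : ℝ) (ha : 0 < a) (hb : 0 < b) : ∃ Q0 : ℕ, 3 ≤ Q0 ∧ ∀ Q : ℕ, Q0 ≤ Q →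
    (Q : ℝ) ^ (-a) + (Real.log Q) ^ (-(2 * b)) ≤ (Real.log Q) ^ (-b) := by
  obtain ⟨Q1, h3, h⟩ := G1_aux 2 b a ha
  refine ⟨max Q1 ⌈Real.exp ((2 : ℝ) ^ (1 / b))⌉₊, h3.trans (le_max_left _ _), fun Q hQ => ?_⟩
  have q1 : Q1 ≤ Q := (le_max_left _ _).trans hQ
  have hQ0 : (0 : ℝ) < Q := by exact_mod_cast (show 0 < Q by omega)
  have hL1 : 1 ≤ Real.log Q := G1_log1 (h3.trans q1)
  have hL0 : 0 < Real.log Q := by linarith
  have hL2 : (2 : ℝ) ^ (1 / b) ≤ Real.log Q := by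
    rw [Real.le_log_iff_exp_le hQ0]
    exact (Nat.le_ceil _).trans (by exact_mod_cast (le_max_right _ _).trans hQ)
  have hLb : (2 : ℝ) ≤ (Real.log Q) ^ b := by
    have h1 : ((2 : ℝ) ^ (1 / b)) ^ b = 2 := by
      rw [← Real.rpow_mul (by norm_num), one_div_mul_cancel hb.ne', Real.rpow_one]
    rw [← h1]
    exact Real.rpow_le_rpow (by positivity) hL2 hb.le
  have h1 := h Q q1
  have hp : 0 < (Real.log Q) ^ b := by linarith
  have h2 : (Real.log Q) ^ (-(2 * b)) = (Real.log Q) ^ (-b) * (Real.log Q) ^ (-b) := by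
    rw [← Real.rpow_add hL0]
    congr 1
    ring
  have h4 : (Real.log Q) ^ (-b) = ((Real.log Q) ^ b)⁻¹ := Real.rpow_neg hL0.le _
  have h5 : (Real.log Q) ^ (-b) ≤ 1 / 2 := by
    rw [h4, ← one_div]
    exact one_div_le_one_div_of_le (by norm_num) hLb
  have h6 : 0 < (Real.log Q) ^ (-b) := Real.rpow_pos_of_pos hL0 _
  have h7 : (Q : ℝ) ^ (-a) ≤ 1 / 2 * (Real.log Q) ^ (-b) := by
    rw [Real.rpow_neg hQ0.le, h4, ← one_div, ← one_div, one_div_mul_one_div]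
    exact one_div_le_one_div_of_le (by positivity) h1
  have h8 : (Real.log Q) ^ (-b) * (Real.log Q) ^ (-b) ≤ (Real.log Q) ^ (-b) * (1 / 2) :=
    mul_le_mul_of_nonneg_left h5 h6.le
  rw [h2]
  linarith

theorem e3_nn {k : ℕ} (Q : ℕ) (φ : Fin k → ℤ → ℤ) : 0 ≤ SSf (pr Q) φ :=
  p5_SS_nonneg _ (fun _ hl => (p5_mem_pr.mp hl).1) φ

theorem e3_mono {k A E : ℕ} {Cc cc : ℝ} {Q Z : ℕ} {ε ε' c1 c1' ϑ ϑ' : ℝ} (hQ : 1 ≤ Q)
    (h : Lvl k A E Cc cc Q Z ε c1 ϑ) (hε : ε ≤ ε') (hc : c1' ≤ c1) (hϑ : ϑ ≤ ϑ') :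
    Lvl k A E Cc cc Q Z ε' c1' ϑ' := by
  classical
  refine ⟨h.cf, ?_⟩
  intro P hP X1 Y M B hG hB h1 h2 h3 ι S g h0 hCl
  have h4 := h.cell P hP X1 Y M B hG hB h1 h2 h3 ι S g h0 hCl
  have hQr : (1 : ℝ) ≤ Q := by exact_mod_cast hQ
  refine le_trans ?_ (h4.trans (mul_le_mul_of_nonneg_left hϑ (Nat.cast_nonneg _)))
  refine Nat.cast_le.2 (card_le_card fun x hx => ?_)
  rw [mem_filter] at hx ⊢
  refine ⟨hx.1, hx.2.1, lt_of_le_of_lt ?_ hx.2.2⟩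
  refine mul_le_mul_of_nonneg_left (add_le_add ?_ ?_) (Nat.cast_nonneg _)
  · exact mul_le_mul_of_nonneg_right hε (e3_nn Q _)
  · exact Real.rpow_le_rpow_of_exponent_le hQr (by linarith)

/-- Without exceptional zero. Proof. `cf` by `CF0`; `cell` by `U9_cell`. -/
theorem E3_good (k A E : ℕ) (hA : 1 ≤ A) (Cc cc : ℝ) (hC : FPar Cc cc) :
    ∃ c1 K : ℝ, 0 < c1 ∧ 1 ≤ K ∧ ∀ C E0 : ℝ, 0 ≤ E0 → E0 ≤ 1 → ∃ Q0 : ℕ, ∀ Q Z : ℕ, Q0 ≤ Q → Rg K C Q Z →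
    Lv A Q Z E0 → Lvl k A E Cc cc Q Z ((1 + E0) ^ (k + 1) - 1) c1 ((Q : ℝ) ^ (-c1)) := by
  classical
  obtain ⟨c1, K, hc1, hK, hcell⟩ := U9_cell k A E hA Cc cc hC
  refine ⟨c1, K, hc1, hK, fun C E0 hE0 hE1 => ?_⟩
  obtain ⟨Q0, hcell⟩ := hcell C E0 hE0 hE1
  refine ⟨max Q0 1, fun Q Z hQ hRg hL => ?_⟩
  have q0 : Q0 ≤ Q := (le_max_left _ _).trans hQ
  have q1 : 1 ≤ Q := (le_max_right _ _).trans hQ
  refine ⟨fun Y h1 h2 => ?_, ?_⟩
  · obtain ⟨e, eb, mb, _, _, _, a4⟩ := CF0 Q Y 1 E0 p0 (fun _ => 0) q1 (hL Y h1 h2).1 hE1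
    exact ⟨_, mb, a4⟩
  · intro P hP X1 Y M B hG hB h1 h2 h3 ι S g h0 hCl
    have h4 := hcell P hP Q Z X1 Y M B q0 hRg hG hB (hL Y h1 h2).2 (fun i => (hL _ (h3 i).1 (h3 i).2).1)
      ι S g h0 hCl
    refine le_trans (Nat.cast_le.2 (card_le_card fun x hx => ?_)) h4
    rw [mem_filter] at hx ⊢
    exact ⟨hx.1, hx.2.2⟩



end Pool.Agent.H9P
end

-- from Lib.HLA.W3
section

/-!
# LOGA, chunk W3 (M): the levels satisfy `Lvl`, exceptional proportion `(log Q)^(-c2)` for EVERY `c2`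
-/

open Finset Polynomial

namespace Pool.Agent.HLA

open Pool.Agent.Lib.H68T Pool.Agent.Lib.H18Q Pool.Agent.Lib.H59P Pool.Agent.Lib.H24P
open Pool.Agent.HUP Pool.Agent.H9P

/-- **W3.** Copy of the proof of `E3_exc` (`H9P/E3.lean`) with `W1_main` (for the exponent `2 c2` and the given `ε`) in place of `E1_main`; `c1`, `K` do not depend on `c2`. -/
theorem W3_exc (k A E : ℕ) (hA : 1 ≤ A) (Cc cc : ℝ) (hC : FPar Cc cc) :
    ∃ c1 K : ℝ, 0 < c1 ∧ 1 ≤ K ∧ ∀ c2 C E0 ε : ℝ, 0 < c2 → 0 ≤ E0 → E0 ≤ 1 → 0 < ε → ∃ Q0 : ℕ, ∀ Q Z : ℕ, Q0 ≤ Q →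
    Rg K C Q Z → LvX A Q Z E0 →
    Lvl k A E Cc cc Q Z (((1 + E0) ^ (k + 1) - 1) * (1 + ε) + ε) c1 ((Real.log Q) ^ (-c2)) := by
  classical
  obtain ⟨c, K, hc, hK, hms⟩ := U6_ms k A E hA Cc cc hC
  obtain ⟨Q1, hQ1, hsize⟩ := G1_size A
  refine ⟨c / 4, max K 2, by positivity, le_max_of_le_left hK, fun c2 C E0 ε hc2 hE0 hE01 hε => ?_⟩
  obtain ⟨Q0, hms⟩ := hms C
  obtain ⟨Q2, hE1⟩ := W1_main k A E hA Cc cc hC (2 * c2) ε (by positivity) hε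
  obtain ⟨Q3, hQ3, hlog⟩ := e3_log (c / 2) c2 (by positivity) hc2
  refine ⟨max (max Q0 Q1) (max Q2 Q3), fun Q Z hQ hRg hL => ?_⟩
  have hQ' := max_le_iff.1 hQ
  have q0 : Q0 ≤ Q := (max_le_iff.1 hQ'.1).1
  have q1 : Q1 ≤ Q := (max_le_iff.1 hQ'.1).2
  have q2 : Q2 ≤ Q := (max_le_iff.1 hQ'.2).1
  have q3 : Q3 ≤ Q := (max_le_iff.1 hQ'.2).2
  have hQ1' : 1 ≤ Q := hQ1.trans q1
  have hQr : (1 : ℝ) ≤ Q := by exact_mod_cast hQ1'
  have hQr0 : (0 : ℝ) < Q := by linarith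
  have hQ100 : 1 ≤ Q ^ 100 := Nat.one_le_pow _ _ hQ1'
  have rK : Rg K C Q Z := z4_rg (le_max_left _ _) hRg
  have r2 : Rg 2 C Q Z := z4_rg (le_max_right _ _) hRg
  obtain ⟨r, hr0, ψ, β, η, hr100, hprim, hne, hsq, hβ, hzero, _, hM⟩ := hL
  have hr1 : 1 ≤ r := Nat.one_le_iff_ne_zero.2 (NeZero.ne r)
  refine ⟨fun Y h1 h2 => ?_, ?_⟩
  · obtain ⟨e, eb, mb, _, _, _, a4⟩ := CF0 Q Y η E0 ⟨r, ψ⟩ (fun m => (m : ℝ) ^ (β - 1)) hQ1' (hM Y h1 h2).1 hE01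
    exact ⟨_, mb, a4⟩
  intro P hP X1 Y M B hG hB h1 h2 h3 ι S g h0 hCl
  obtain ⟨e0, eb0, mb0, a1, a2, a3, a4⟩ := CF0 (Q ^ 100) Y η E0 ⟨r, ψ⟩ (fun m => (m : ℝ) ^ (β - 1)) hQ100
    (hM Y h1 h2).2 hE01
  choose e eb mb b1 b2 b3 b4 using fun i => CF0 Q (Ysc (M i)) η E0 ⟨r, ψ⟩ (fun m => (m : ℝ) ^ (β - 1)) hQ1'
    (hM _ (h3 i).1 (h3 i).2).1 hE01
  have hms' := hms P hP Q Z X1 Y M B _ mb0 q0 rK hG hB a4 _ mb b4 r hr1 hr100 ι S g h0 hCl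
  have hch := u9_cheb S (fun x => ‖((Rw Q X1 P M (fun n => lp (B.eval (n : ℤ))) (g x) : ℝ) : ℂ) -
    MZb Q X1 (B.leadingCoeff.natAbs * r) P B
      (fun m p => MX ⟨r, ψ⟩ (fun m => (m : ℝ) ^ (β - 1)) m p + e0 m p)
      (fun i m p => MX ⟨r, ψ⟩ (fun m => (m : ℝ) ^ (β - 1)) m p + e i m p) h0 (g x)‖) X1 Q hG.pos hQ1' c
    (fun _ => norm_nonneg _) hms'
  have hlc0 : 1 ≤ B.leadingCoeff.natAbs := by
    have h2 : B.leadingCoeff ≠ 0 := by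
      rw [Ne, leadingCoeff_eq_zero]
      intro h3
      have h4 := hB.lin.deg
      rw [h3, natDegree_zero] at h4
      omega
    exact Int.natAbs_pos.2 h2
  have hcond := (hsize Q q1 r B.leadingCoeff.natAbs hlc0 hB.lin.lc hr100).1
  have hFG : FGood E Cc cc Q P S g := fun Q' g1 g2 => hCl.good Q' g1 (g2.trans (Nat.le_self_pow two_ne_zero Q))
  obtain ⟨Bad, hBS, hBcard, hBad⟩ := hE1 Q q2 B hB.lin P hP r ψ β hr100 hprim hne hsq hβ hzero ι S g hFG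
  -- lower bounds of the scales
  have hZ0 : 0 < Z := lt_of_lt_of_le hG.pos hG.le
  have hZr : (0 : ℝ) < Z := by exact_mod_cast hZ0
  have hQ2Z : Q ^ 2 ≤ Z := by
    have g1 : Real.log ((Q : ℝ) ^ 2) ≤ Real.log Z := by
      rw [Real.log_pow]
      push_cast
      exact r2.1
    have g2 : (Q : ℝ) ^ 2 ≤ Z := (Real.log_le_log_iff (by positivity) hZr).mp g1
    exact_mod_cast g2
  have hQY : ∀ Y' : ℕ, Z ≤ Y' ^ 2 → Q ≤ Y' := by
    intro Y' g1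
    by_contra g2
    push Not at g2
    have g3 : Y' ^ 2 < Q ^ 2 := Nat.pow_lt_pow_left g2 two_ne_zero
    omega
  have hth : ∀ Y' : ℕ, Z ≤ Y' ^ 2 → ∀ m : ℤ, (Y' : ℤ) ≤ m → (m : ℝ) ^ (β - 1) ≤ (Q : ℝ) ^ (β - 1) := by
    intro Y' g1 m g2
    have g3 : (Q : ℤ) ≤ m := le_trans (by exact_mod_cast hQY Y' g1) g2
    exact Real.rpow_le_rpow_of_nonpos hQr0 (by exact_mod_cast g3) (by linarith)
  have hsub : (S.filter (fun x => NoFix (sys B P (g x)) ∧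
      X1 * ((((1 + E0) ^ (k + 1) - 1) * (1 + ε) + ε) * SSf (pr Q) (sys B P (g x)) + (Q : ℝ) ^ (-(c / 4))) <
      |Rw Q X1 P M (fun n => lp (B.eval (n : ℤ))) (g x) - X1 * SSf (pr Q) (sys B P (g x))|)) ⊆
      (S.filter (fun x => (X1 : ℝ) * (Q : ℝ) ^ (-(c / 4)) < ‖((Rw Q X1 P M (fun n => lp (B.eval (n : ℤ))) (g x) : ℝ) : ℂ) -
        MZb Q X1 (B.leadingCoeff.natAbs * r) P B
          (fun m p => MX ⟨r, ψ⟩ (fun m => (m : ℝ) ^ (β - 1)) m p + e0 m p)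
          (fun i m p => MX ⟨r, ψ⟩ (fun m => (m : ℝ) ^ (β - 1)) m p + e i m p) h0 (g x)‖)) ∪ Bad := by
    intro x hx
    rw [mem_filter] at hx
    rw [mem_union, mem_filter]
    by_cases hxB : x ∈ Bad
    · exact Or.inr hxB
    refine Or.inl ⟨hx.1, ?_⟩
    have hP1 := hBad x hx.1 hxB hx.2.1
    have h7 := E2_main P A Q Z X1 Y hQ1' M B hG hB η E0 ⟨r, ψ⟩ (fun m => (m : ℝ) ^ (β - 1)) (hM Y h1 h2).1.mem hcond
      (hM Y h1 h2).2 (fun i => (hM _ (h3 i).1 (h3 i).2).1) hE0 e0 eb0 a1 a2 a3 e eb b2 b3 h0 hCl.memb (g x) ε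
      ((Q : ℝ) ^ (β - 1)) hε.le (fun m g1 _ => hth Y h1 m g1) (fun i m g1 _ => hth _ (h3 i).1 m g1) hP1
    have h8 : |Rw Q X1 P M (fun n => lp (B.eval (n : ℤ))) (g x) - X1 * SSf (pr Q) (sys B P (g x))| =
        ‖((Rw Q X1 P M (fun n => lp (B.eval (n : ℤ))) (g x) : ℝ) : ℂ) -
          ((X1 * SSf (pr Q) (sys B P (g x)) : ℝ) : ℂ)‖ := by
      rw [← Complex.ofReal_sub, Complex.norm_real, Real.norm_eq_abs]
    have h9 := norm_sub_le_norm_sub_add_norm_sub ((Rw Q X1 P M (fun n => lp (B.eval (n : ℤ))) (g x) : ℝ) : ℂ)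
      (MZb Q X1 (B.leadingCoeff.natAbs * r) P B
        (fun m p => MX ⟨r, ψ⟩ (fun m => (m : ℝ) ^ (β - 1)) m p + e0 m p)
        (fun i m p => MX ⟨r, ψ⟩ (fun m => (m : ℝ) ^ (β - 1)) m p + e i m p) h0 (g x))
      ((X1 * SSf (pr Q) (sys B P (g x)) : ℝ) : ℂ)
    have h10 := hx.2.2
    rw [h8] at h10
    have h11 : (X1 : ℝ) * ((((1 + E0) ^ (k + 1) - 1) * (1 + ε) + ε) * SSf (pr Q) (sys B P (g x)) + (Q : ℝ) ^ (-(c / 4))) =
      X1 * ((((1 + E0) ^ (k + 1) - 1) * (1 + ε) + ε) * SSf (pr Q) (sys B P (g x))) + X1 * (Q : ℝ) ^ (-(c / 4)) := by ring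
    rw [h11] at h10
    linarith
  have hcard := (card_le_card hsub).trans (card_union_le _ _)
  have hcard' : (((S.filter (fun x => NoFix (sys B P (g x)) ∧
      X1 * ((((1 + E0) ^ (k + 1) - 1) * (1 + ε) + ε) * SSf (pr Q) (sys B P (g x)) + (Q : ℝ) ^ (-(c / 4))) <
      |Rw Q X1 P M (fun n => lp (B.eval (n : ℤ))) (g x) - X1 * SSf (pr Q) (sys B P (g x))|)).card : ℕ) : ℝ) ≤
      (((S.filter (fun x => (X1 : ℝ) * (Q : ℝ) ^ (-(c / 4)) < ‖((Rw Q X1 P M (fun n => lp (B.eval (n : ℤ))) (g x) : ℝ) : ℂ) -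
        MZb Q X1 (B.leadingCoeff.natAbs * r) P B
          (fun m p => MX ⟨r, ψ⟩ (fun m => (m : ℝ) ^ (β - 1)) m p + e0 m p)
          (fun i m p => MX ⟨r, ψ⟩ (fun m => (m : ℝ) ^ (β - 1)) m p + e i m p) h0 (g x)‖)).card : ℕ) : ℝ) +
      (Bad.card : ℝ) := by
    exact_mod_cast hcard
  have h12 := mul_le_mul_of_nonneg_left (hlog Q q3) (Nat.cast_nonneg S.card : (0 : ℝ) ≤ S.card)
  rw [mul_add] at h12
  exact hcard'.trans ((add_le_add hch hBcard).trans h12)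

/-- **W3b.** All large scales. Copy of the proof of `E3_all` with `W3_exc` in place of `E3_exc` (`Q^(-c1) ≤ (log Q)^(-c2)` for `Q` large). -/
theorem W3_all (k A E : ℕ) (hA : 1 ≤ A) (Cc cc : ℝ) (hC : FPar Cc cc) (K' : ℝ) (hK' : 1 ≤ K') :
    ∃ c1 : ℝ, 0 < c1 ∧ ∀ c2 ε : ℝ, 0 < c2 → 0 < ε → ∃ C : ℝ, 1 ≤ C ∧ ∀ Q0 : ℕ, ∃ Z0 : ℕ, ∀ Z : ℕ, Z0 ≤ Z →
    ∃ Q : ℕ, Q0 ≤ Q ∧ Rg K' C Q Z ∧ Lvl k A E Cc cc Q Z ε c1 ((Real.log Q) ^ (-c2)) := by
  obtain ⟨cg, Kg, hcg, hKg, hgood⟩ := E3_good k A E hA Cc cc hC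
  obtain ⟨cx, Kx, hcx, hKx, hexc⟩ := W3_exc k A E hA Cc cc hC
  refine ⟨min cg cx, lt_min hcg hcx, fun c2 ε hc2 hε => ?_⟩
  obtain ⟨E0, hE0, hE01, hE2⟩ : ∃ E0 : ℝ, 0 < E0 ∧ E0 ≤ 1 ∧ ((1 + E0) ^ (k + 1) - 1) * (1 + E0) + E0 ≤ ε := by
    have g1 : Filter.Tendsto (fun t : ℝ => ((1 + t) ^ (k + 1) - 1) * (1 + t) + t) (nhds 0) (nhds 0) :=
      Continuous.tendsto' (by fun_prop) 0 0 (by simp)
    have g2 : ∀ᶠ t in nhdsWithin (0 : ℝ) (Set.Ioi 0), ((1 + t) ^ (k + 1) - 1) * (1 + t) + t < ε :=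
      (g1.mono_left nhdsWithin_le_nhds).eventually (gt_mem_nhds hε)
    obtain ⟨t, g3, g4⟩ := (g2.and (Ioc_mem_nhdsGT one_pos)).exists
    exact ⟨t, g4.1, g4.2, g3.le⟩
  have hpow : (0 : ℝ) ≤ (1 + E0) ^ (k + 1) - 1 := by
    have : (1 : ℝ) ≤ (1 + E0) ^ (k + 1) := one_le_pow₀ (by linarith)
    linarith
  have hE3 : (1 + E0) ^ (k + 1) - 1 ≤ ε := by
    have := mul_nonneg hpow hE0.le
    linarith
  obtain ⟨C, hC1, X0, hL⟩ := L_levels (A + 1) E0 (max K' (max Kg Kx)) hE0 (le_max_of_le_left hK')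
  refine ⟨C, hC1, fun Q0 => ?_⟩
  obtain ⟨Q1, hgood⟩ := hgood C E0 hE0.le hE01
  obtain ⟨Q2, hexc⟩ := hexc c2 C E0 E0 hc2 hE0.le hE01 hE0
  obtain ⟨Q3, hQ3, hlog⟩ := e3_log cg c2 hcg hc2
  obtain ⟨QQ, hQQ⟩ : ∃ QQ : ℕ, QQ = max (max Q0 Q1) (max Q2 Q3) := ⟨_, rfl⟩
  have hQQ3 : 3 ≤ QQ := by
    rw [hQQ]
    exact hQ3.trans ((le_max_right _ _).trans (le_max_right _ _))
  refine ⟨max X0 ⌈Real.exp (C * Real.log QQ + 1)⌉₊, fun Z hZ => ?_⟩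
  obtain ⟨Q, hQ1, hQ2, _, halt⟩ := hL Z ((le_max_left _ _).trans hZ)
  have hZe : Real.exp (C * Real.log QQ + 1) ≤ Z :=
    (Nat.le_ceil _).trans (by exact_mod_cast (le_max_right _ _).trans hZ)
  have hZ0 : (0 : ℝ) < Z := lt_of_lt_of_le (Real.exp_pos _) hZe
  have hlZ : C * Real.log QQ + 1 ≤ Real.log Z := by
    rw [Real.le_log_iff_exp_le hZ0]
    exact hZe
  have hQge : QQ ≤ Q := by
    by_contra g1
    push Not at g1
    have g2 : Real.log Q ≤ Real.log QQ := by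
      rcases Nat.eq_zero_or_pos Q with g3 | g3
      · rw [g3, Nat.cast_zero, Real.log_zero]
        exact Real.log_natCast_nonneg _
      · exact Real.log_le_log (by exact_mod_cast g3) (by exact_mod_cast g1.le)
    have g3 := mul_le_mul_of_nonneg_left g2 (by linarith : (0 : ℝ) ≤ C)
    linarith
  rw [hQQ] at hQge
  have hQ' := max_le_iff.1 hQge
  have q0 : Q0 ≤ Q := (max_le_iff.1 hQ'.1).1
  have q1 : Q1 ≤ Q := (max_le_iff.1 hQ'.1).2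
  have q2 : Q2 ≤ Q := (max_le_iff.1 hQ'.2).1
  have q3 : Q3 ≤ Q := (max_le_iff.1 hQ'.2).2
  have hQ1' : 1 ≤ Q := by omega
  have hRg : Rg (max K' (max Kg Kx)) C Q Z := ⟨hQ1, hQ2⟩
  refine ⟨Q, q0, z4_rg (le_max_left _ _) hRg, ?_⟩
  rcases halt with h | h
  · have h1 := hgood Q Z q1 (z4_rg ((le_max_left _ _).trans (le_max_right _ _)) hRg) h
    refine e3_mono hQ1' h1 hE3 (min_le_left _ _) ?_
    have h2 := hlog Q q3
    have h3 : 0 ≤ (Real.log Q) ^ (-(2 * c2)) := Real.rpow_nonneg (Real.log_natCast_nonneg Q) _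
    linarith
  · have h1 := hexc Q Z q2 (z4_rg ((le_max_right _ _).trans (le_max_right _ _)) hRg) h
    exact e3_mono hQ1' h1 hE2 (min_le_right _ _) le_rfl

end Pool.Agent.HLA
end

-- from Lib.H9P.V9
section

/-!
# ASYP, chunk V9 (M): one box of parameters from an abstract level
-/

open Finset Polynomial

namespace Pool.Agent.H9P

open Pool.Agent.Lib.H68T Pool.Agent.Lib.H18Q Pool.Agent.Lib.H59P Pool.Agent.Lib.H24P
open Pool.Agent.HUP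

/-- The weights are bounded. -/
theorem v9_lp (A : ℕ) (C : ℝ) (Q X X1 Y : ℕ) (B : ℤ[X]) (hQ : 3 * A + 3 ≤ Q) (hRg : Rg 1001 C Q X) (hX1 : 0 < X1)
    (hX1X : X1 ≤ X) (hG : GeoB A X X1 Y B) : ∀ n ∈ Ico X1 (2 * X1), |lp (B.eval (n : ℤ))| ≤ (Real.log X) ^ 2 := by
  have hQ3 : 3 ≤ Q := by omega
  have hQA : 3 * A ≤ Q := by omega
  have hlogQ : 1 ≤ Real.log Q := G1_log1 hQ3
  have hlogX : 1001 * Real.log Q ≤ Real.log X := hRg.1
  obtain ⟨l, hl⟩ : ∃ l : ℝ, l = Real.log X := ⟨_, rfl⟩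
  rw [← hl] at hlogX ⊢
  have hl1 : 1001 ≤ l := by linarith
  have hXpos : 0 < X := lt_of_lt_of_le hX1 hX1X
  have hXr : (0 : ℝ) < X := by exact_mod_cast hXpos
  have hAX : Real.log (3 * (A : ℝ) * X) ≤ 2 * l := by
    rcases Nat.eq_zero_or_pos A with hA | hA
    · rw [hA]
      simp only [Nat.cast_zero, mul_zero, zero_mul, Real.log_zero]
      linarith
    have hA' : (0 : ℝ) < A := by exact_mod_cast hA
    rw [Real.log_mul (by positivity) hXr.ne', ← hl]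
    have h1 : Real.log (3 * (A : ℝ)) ≤ Real.log Q := by
      refine Real.log_le_log (by positivity) ?_
      exact_mod_cast hQA
    linarith
  intro n hn
  have hlp : |lp (B.eval (n : ℤ))| ≤ 2 * l := by
    have h1 := hG.lo n hn
    have h2 := hG.hi n hn
    unfold Pool.Agent.Lib.H68T.lp
    split_ifs with hp
    · have h3 : 2 ≤ (B.eval (n : ℤ)).toNat := hp.two_le
      have h4 : (2 : ℤ) ≤ B.eval (n : ℤ) := by omega
      have h5 : (2 : ℝ) ≤ ((B.eval (n : ℤ) : ℤ) : ℝ) := by exact_mod_cast h4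
      rw [abs_of_nonneg (Real.log_nonneg (by linarith))]
      refine le_trans (Real.log_le_log (by linarith) ?_) hAX
      have h6 : B.eval (n : ℤ) ≤ ((3 * A * X : ℕ) : ℤ) := by
        have h7 : 3 * Y ≤ 3 * A * X := by
          have := hG.Yhi
          calc 3 * Y ≤ 3 * (A * X) := Nat.mul_le_mul_left 3 this
            _ = 3 * A * X := by ring
        have h8 : ((3 * Y : ℕ) : ℤ) ≤ ((3 * A * X : ℕ) : ℤ) := by exact_mod_cast h7
        push_cast at h8 ⊢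
        linarith
      calc ((B.eval (n : ℤ) : ℤ) : ℝ) ≤ (((3 * A * X : ℕ) : ℤ) : ℝ) := by exact_mod_cast h6
        _ = 3 * (A : ℝ) * X := by push_cast; ring
    · rw [abs_zero]
      linarith
  refine hlp.trans ?_
  nlinarith

open Classical in
/-- **V9** (copy of the proof of `U9_box`, with `Lvl.cell` in place of `U9_cell` and `Lvl.cf` in place of `CF0`). `E, Cc, cc` are those of `FGTU`. -/
theorem V9_box {k d : ℕ} (c : Fin k → Fin d → ℤ) (e : Fin d → ℕ) (D : Fin k → ℕ) (a : Fin k → ℤ)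
    (hF : FGTU c D a) (hS : S4TU c e D a) (he : ∀ j, 1 ≤ e j) (hD : ∀ i, 1 ≤ D i) (A : ℕ) (hA : 1 ≤ A)
    (hDA : ∀ i, D i ≤ A ∧ (a i).natAbs ≤ A) : ∃ (E : ℕ) (Cc cc K : ℝ), FPar Cc cc ∧ 1 ≤ K ∧ ∀ C : ℝ,
    ∃ τ c0 : ℝ, 0 < τ ∧ τ ≤ 1 / 10 ∧ 0 < c0 ∧ ∃ Q0 : ℕ, ∀ P : Fin k → ℤ[X], HasD D a P →
    ∀ (Q X X1 Y : ℕ) (M : Fin k → ℕ) (B : ℤ[X]) (b : Fin d → ℤ) (s : Fin d → ℕ) (β : Fin k → ℤ), Q0 ≤ Q →
    Rg K C Q X → GeoU A Q X X1 P M → GeoB A X X1 Y B → (X : ℝ) ≤ X1 * (Q : ℝ) ^ τ →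
    (∀ i, (M i : ℝ) ≤ (X1 : ℝ) ^ (P i).natDegree * (Q : ℝ) ^ τ) →
    (∀ j, (X : ℝ) ^ e j ≤ (Q : ℝ) ^ τ * s j) → (∀ j, (s j : ℝ) ≤ (Q : ℝ) ^ τ * (X : ℝ) ^ e j) →
    (∀ j, Q ^ 10 ∣ s j) → (∀ i, ∑ j, |c i j| * (s j : ℤ) ≤ Q * (M i : ℤ)) →
    X ≤ Y ^ 2 → Y ≤ X ^ (A + 2) → (∀ i, X ≤ Ysc (M i) ^ 2 ∧ Ysc (M i) ≤ X ^ (A + 2)) →
    (∀ t ∈ tb b s, ∀ i, 151 * (M i : ℤ) ≤ 100 * (β i + lf c t i) ∧ 100 * (β i + lf c t i) < 168 * (M i : ℤ)) →
    ∀ ε c1 ϑ : ℝ, Lvl k A E Cc cc Q X ε c1 ϑ →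
    (((tb b s).filter (fun t => NoFix (sys B P (hh c β t)) ∧
      X1 * (ε * SSf (pr Q) (sys B P (hh c β t)) + (Q : ℝ) ^ (-c1) + (Q : ℝ) ^ (-c0)) <
      |RPh X1 B P (hh c β t) - X1 * SSf (pr Q) (sys B P (hh c β t))|)).card : ℝ) ≤
      (tb b s).card * (ϑ + (Q : ℝ) ^ (-c0)) := by
  obtain ⟨E, Cc, cc, hFP, hFG⟩ := hF
  obtain ⟨K2, hK2, hS4⟩ := hS A (fun i => (hDA i).1)
  obtain ⟨K0, hK0⟩ : ∃ K0 : ℝ, K0 = K2 + 1001 + 20 + 2 * E := ⟨_, rfl⟩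
  have hEn : (0 : ℝ) ≤ E := Nat.cast_nonneg _
  have hK0b : K2 ≤ K0 := by rw [hK0]; linarith
  have hK0d : 1001 ≤ K0 := by rw [hK0]; linarith
  have hK0g : 2 * (E : ℝ) + 20 ≤ K0 := by rw [hK0]; linarith
  refine ⟨E, Cc, cc, K0, hFP, by linarith, fun C => ?_⟩
  obtain ⟨τ1, c0, hτ1, hτ11, hc0, Q2, hS4'⟩ := hS4 C
  obtain ⟨τ, hτd⟩ : ∃ τ : ℝ, τ = min τ1 (1 / 10) := ⟨_, rfl⟩
  have hτ0 : 0 < τ := by rw [hτd]; exact lt_min hτ1 (by norm_num)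
  have hττ1 : τ ≤ τ1 := by rw [hτd]; exact min_le_left _ _
  have hτ10 : τ ≤ 1 / 10 := by rw [hτd]; exact min_le_right _ _
  refine ⟨τ, c0 / 4, hτ0, hτ10, by linarith, Q2 + 3 * A + 3, ?_⟩
  intro P hPD Q X X1 Y M B b s β hQ hRg hG hGB hXτ hMτ hs1 hs2 hs10 hcs hY1 hY2 hM hrange ε c1 ϑ hL
  have hP : Pol A P := ⟨fun i => by rw [(hPD i).1]; exact hD i, fun i => by rw [(hPD i).1]; exact (hDA i).1,
    fun i => by rw [(hPD i).2]; exact (hDA i).2⟩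
  have hV : GeoV Q X X1 P M := U1_geo A Q X X1 P M hP hG
  have hQ0 : 0 < Q := by omega
  have hQr : (0 : ℝ) < Q := by exact_mod_cast hQ0
  have hQ1r : (1 : ℝ) ≤ Q := by exact_mod_cast hQ0
  have hlQ : 0 ≤ Real.log Q := Real.log_natCast_nonneg Q
  have hX0 : 0 < X := lt_of_lt_of_le hG.pos hG.le
  have hXr : (0 : ℝ) < X := by exact_mod_cast hX0
  have hX1' : (1 : ℝ) ≤ X := by exact_mod_cast hX0
  have hRgb : Rg K2 C Q X := ⟨(mul_le_mul_of_nonneg_right hK0b hlQ).trans hRg.1, hRg.2⟩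
  have hRgd : Rg 1001 C Q X := ⟨(mul_le_mul_of_nonneg_right hK0d hlQ).trans hRg.1, hRg.2⟩
  have hQE : Q ^ (2 * E + 20) ≤ X := by
    have h1 : Real.log ((Q : ℝ) ^ (2 * E + 20)) ≤ Real.log X := by
      rw [Real.log_pow]
      push_cast
      exact (mul_le_mul_of_nonneg_right hK0g hlQ).trans hRg.1
    have h2 : (Q : ℝ) ^ (2 * E + 20) ≤ X := (Real.log_le_log_iff (by positivity) hXr).mp h1
    exact_mod_cast h2
  have hQτ : (Q : ℝ) ^ τ ≤ Q := by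
    calc (Q : ℝ) ^ τ ≤ (Q : ℝ) ^ (1 : ℝ) := Real.rpow_le_rpow_of_exponent_le hQ1r (by linarith)
      _ = Q := Real.rpow_one _
  have hQττ : (Q : ℝ) ^ τ ≤ (Q : ℝ) ^ τ1 := Real.rpow_le_rpow_of_exponent_le hQ1r hττ1
  -- the sub-boxes
  choose s' hs' using hs10
  have hs'E : ∀ j, (Q ^ 2) ^ E ≤ s' j := by
    intro j
    have h1 : (X : ℝ) ≤ Q * s j := by
      calc (X : ℝ) ≤ (X : ℝ) ^ e j := le_self_pow₀ hX1' (by have := he j; omega)
        _ ≤ (Q : ℝ) ^ τ * s j := hs1 j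
        _ ≤ Q * s j := mul_le_mul_of_nonneg_right hQτ (Nat.cast_nonneg _)
    have h2 : X ≤ Q * s j := by exact_mod_cast h1
    rw [hs' j] at h2
    have h3 : Q * (Q ^ 10 * s' j) ≤ Q ^ 20 * s' j := by
      calc Q * (Q ^ 10 * s' j) = Q ^ 11 * s' j := by ring
        _ ≤ Q ^ 20 * s' j := Nat.mul_le_mul_right _ (Nat.pow_le_pow_right hQ0 (by norm_num))
    have h4 : Q ^ 20 * (Q ^ 2) ^ E ≤ Q ^ 20 * s' j := by
      refine le_trans (le_of_eq ?_) (hQE.trans (h2.trans h3))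
      rw [← pow_mul, ← pow_add]
      congr 1
      omega
    exact Nat.le_of_mul_le_mul_left h4 (by positivity)
  have hclose : ∀ i, (Q : ℤ) ^ 8 * ∑ j, |c i j| * (s' j : ℤ) ≤ M i := by
    intro i
    have h1 : ∑ j, |c i j| * (s j : ℤ) = (Q : ℤ) ^ 10 * ∑ j, |c i j| * (s' j : ℤ) := by
      rw [mul_sum]
      refine sum_congr rfl fun j _ => ?_
      rw [hs' j]
      push_cast
      ring
    have h2 := hcs i
    rw [h1] at h2
    have hSn : (0 : ℤ) ≤ ∑ j, |c i j| * (s' j : ℤ) :=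
      sum_nonneg fun j _ => mul_nonneg (abs_nonneg _) (Nat.cast_nonneg _)
    have hQz : (0 : ℤ) < Q := by exact_mod_cast hQ0
    have h3 : (Q : ℤ) * ((Q : ℤ) ^ 9 * ∑ j, |c i j| * (s' j : ℤ)) ≤ Q * M i := by
      refine le_trans (le_of_eq ?_) h2
      ring
    have h4 : (Q : ℤ) ^ 9 * ∑ j, |c i j| * (s' j : ℤ) ≤ M i := le_of_mul_le_mul_left h3 hQz
    refine le_trans (mul_le_mul_of_nonneg_right ?_ hSn) h4
    have h5 : Q ^ 8 ≤ Q ^ 9 := Nat.pow_le_pow_right hQ0 (by norm_num)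
    exact_mod_cast h5
  obtain ⟨Bd, hBd⟩ : ∃ Bd : (Fin d → ℤ) → Prop, ∀ t, Bd t ↔ (NoFix (sys B P (hh c β t)) ∧
      X1 * (ε * SSf (pr Q) (sys B P (hh c β t)) + (Q : ℝ) ^ (-c1)) <
      |Rw Q X1 P M (fun n => lp (B.eval (n : ℤ))) (hh c β t) - X1 * SSf (pr Q) (sys B P (hh c β t))|) :=
    ⟨_, fun _ => Iff.rfl⟩
  have hboxes : ∀ b' : Fin d → ℤ, tb b' s' ⊆ tb b s → (((tb b' s').filter Bd).card : ℝ) ≤
      (tb b' s').card * ϑ := by
    intro b' hb'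
    rcases (tb b' s').eq_empty_or_nonempty with hem | ⟨t0, ht0⟩
    · rw [hem]; simp
    have hCl : Cl E Cc cc Q P M (tb b' s') (hh c β) (hh c β t0) := by
      refine ⟨hFG P hPD (Q ^ 2) b' s' β (Nat.one_le_pow _ _ hQ0) hs'E
        (fun t ht => (u9_mem c β M t (hrange t (hb' ht))).2.1),
        fun t ht => (u9_mem c β M t (hrange t (hb' ht))).1, (u9_mem c β M t0 (hrange t0 (hb' ht0))).1, ?_⟩
      intro t ht i
      have h1 := (u9_mem c β M t (hrange t (hb' ht))).2.2 i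
      have h2 := (u9_mem c β M t0 (hrange t0 (hb' ht0))).2.2 i
      rw [h1, h2]
      have h3 := R18_var c b' s' i t t0 ht ht0
      have h5 : β i + lf c t i - (β i + lf c t0 i) = lf c t i - lf c t0 i := by ring
      rw [h5]
      exact (mul_le_mul_of_nonneg_left h3 (by positivity)).trans (hclose i)
    have h1 := hL.cell P hP X1 Y M B hV hGB hY1 hY2 hM (Fin d → ℤ) (tb b' s') (hh c β) (hh c β t0) hCl
    refine le_trans (le_of_eq ?_) h1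
    congr 2
    exact filter_congr fun t _ => hBd t
  have hsplit := R18_split b s s' (Q ^ 10) hs' Bd ϑ hboxes
  -- the mean square over the box
  have hcfM : ∀ i, ∃ (B' : ℤ → Ch → ℂ) (mb : Ch → ℝ), Cf Q (Ysc (M i)) B' mb :=
    fun i => hL.cf (Ysc (M i)) (hM i).1 (hM i).2
  have hwb : ∀ n ∈ Ico X1 (2 * X1), |lp (B.eval (n : ℤ))| ≤ (Real.log X) ^ 2 :=
    v9_lp A C Q X X1 Y B (by omega) hRgd hG.pos hG.le hGB
  have hms := hS4' P hPD Q X X1 M b s β (by omega) hRgb hG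
    (hXτ.trans (mul_le_mul_of_nonneg_left hQττ (Nat.cast_nonneg _)))
    (fun i => (hMτ i).trans (mul_le_mul_of_nonneg_left hQττ (by positivity)))
    (fun j => (hs1 j).trans (mul_le_mul_of_nonneg_right hQττ (Nat.cast_nonneg _)))
    (fun j => (hs2 j).trans (mul_le_mul_of_nonneg_right hQττ (by positivity)))
    hcfM hrange (fun n => lp (B.eval (n : ℤ))) hwb
  have hms' : ∑ t ∈ tb b s, |RPh X1 B P (hh c β t) - Rw Q X1 P M (fun n => lp (B.eval (n : ℤ))) (hh c β t)| ^ 2 ≤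
      (X1 : ℝ) ^ 2 * (tb b s).card * (Q : ℝ) ^ (-c0) := by
    refine le_trans (le_of_eq ?_) hms
    refine sum_congr rfl fun t _ => ?_
    rw [sq_abs]
    rfl
  have hch := u9_cheb (tb b s) (fun t => |RPh X1 B P (hh c β t) -
    Rw Q X1 P M (fun n => lp (B.eval (n : ℤ))) (hh c β t)|) X1 Q hG.pos hQ0 c0 (fun _ => abs_nonneg _) hms'
  -- the conclusion
  have hsub : (tb b s).filter (fun t => NoFix (sys B P (hh c β t)) ∧
      X1 * (ε * SSf (pr Q) (sys B P (hh c β t)) + (Q : ℝ) ^ (-c1) + (Q : ℝ) ^ (-(c0 / 4))) <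
      |RPh X1 B P (hh c β t) - X1 * SSf (pr Q) (sys B P (hh c β t))|) ⊆
      (tb b s).filter Bd ∪ (tb b s).filter (fun t => (X1 : ℝ) * (Q : ℝ) ^ (-(c0 / 4)) <
        |RPh X1 B P (hh c β t) - Rw Q X1 P M (fun n => lp (B.eval (n : ℤ))) (hh c β t)|) := by
    intro t ht
    rw [mem_filter] at ht
    obtain ⟨ht1, htn, ht2⟩ := ht
    rw [mem_union, mem_filter, mem_filter]
    by_contra hcon
    push Not at hcon
    have h1 := hcon.2 ht1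
    have h2 : |Rw Q X1 P M (fun n => lp (B.eval (n : ℤ))) (hh c β t) - X1 * SSf (pr Q) (sys B P (hh c β t))| ≤
        X1 * (ε * SSf (pr Q) (sys B P (hh c β t)) + (Q : ℝ) ^ (-c1)) := by
      by_contra h
      push Not at h
      exact hcon.1 ht1 ((hBd t).2 ⟨htn, h⟩)
    have h4 := abs_sub_le (RPh X1 B P (hh c β t)) (Rw Q X1 P M (fun n => lp (B.eval (n : ℤ))) (hh c β t))
      (X1 * SSf (pr Q) (sys B P (hh c β t)))
    have h6 : (X1 : ℝ) * (ε * SSf (pr Q) (sys B P (hh c β t)) + (Q : ℝ) ^ (-c1) + (Q : ℝ) ^ (-(c0 / 4))) =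
      X1 * (ε * SSf (pr Q) (sys B P (hh c β t)) + (Q : ℝ) ^ (-c1)) + X1 * (Q : ℝ) ^ (-(c0 / 4)) := by ring
    rw [h6] at ht2
    linarith
  have hcard := (card_le_card hsub).trans (card_union_le _ _)
  have hcard' : (((tb b s).filter (fun t => NoFix (sys B P (hh c β t)) ∧
      X1 * (ε * SSf (pr Q) (sys B P (hh c β t)) + (Q : ℝ) ^ (-c1) + (Q : ℝ) ^ (-(c0 / 4))) <
      |RPh X1 B P (hh c β t) - X1 * SSf (pr Q) (sys B P (hh c β t))|)).card : ℝ) ≤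
      (((tb b s).filter Bd).card : ℝ) + (((tb b s).filter (fun t => (X1 : ℝ) * (Q : ℝ) ^ (-(c0 / 4)) <
        |RPh X1 B P (hh c β t) - Rw Q X1 P M (fun n => lp (B.eval (n : ℤ))) (hh c β t)|)).card : ℝ) := by
    exact_mod_cast hcard
  have h3 : (Q : ℝ) ^ (-(c0 / 2)) ≤ (Q : ℝ) ^ (-(c0 / 4)) := Real.rpow_le_rpow_of_exponent_le hQ1r (by linarith)
  have h4 := mul_le_mul_of_nonneg_left h3 (Nat.cast_nonneg (tb b s).card : (0 : ℝ) ≤ (tb b s).card)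
  rw [mul_add]
  linarith

end Pool.Agent.H9P
end

-- from Lib.H9P.U14
section

/-!
# ASYP, chunk U14 (M/L): one cell of `n`, all parameters
-/

open Finset Polynomial

namespace Pool.Agent.H9P

open Pool.Agent.Lib.H68T Pool.Agent.Lib.H18Q Pool.Agent.Lib.H59P Pool.Agent.Lib.H24P
open Pool.Agent.HUP

/-- The numbers of one box. -/
theorem u14a_num (C1 T δ Zd v y M q : ℝ) (hC : 1 ≤ C1) (hT : 2500 * C1 ≤ T * δ) (hδ0 : 0 < δ) (hδ1 : δ ≤ 1)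
    (hZd : 0 < Zd) (hv : 9 * (δ * Zd) ≤ 10 * v) (hq0 : 0 ≤ q) (hq : q * (2500 * T) ≤ Zd * δ)
    (hy : |y - v| * T ≤ C1 * Zd) (hM2 : 5 * v / 8 - q ≤ M) (hM1 : M ≤ 5 * v / 8) :
    δ * Zd ≤ 2 * M ∧ 151 * M ≤ 100 * y ∧ 100 * y < 168 * M := by
  have hTδ : 0 < T * δ := by linarith
  have hT0 : 0 < T := by
    by_contra hneg
    push Not at hneg
    have := mul_nonpos_of_nonpos_of_nonneg hneg hδ0.le
    linarith
  have hT1 : 2500 ≤ T := by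
    have h1 : T * δ ≤ T * 1 := mul_le_mul_of_nonneg_left hδ1 hT0.le
    linarith
  have hδZ : 0 < δ * Zd := mul_pos hδ0 hZd
  have hv0 : 0 < v := by linarith
  have h1 : q * 2500 ≤ v / 2000 := by
    have h2 : q * 2500 * 2500 ≤ q * 2500 * T := mul_le_mul_of_nonneg_left hT1 (by linarith)
    have h3 : q * 2500 * T = q * (2500 * T) := by ring
    have h4 : Zd * δ = δ * Zd := mul_comm _ _
    linarith
  have h6 : |y - v| * 2250 ≤ v := by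
    have h7 : |y - v| * (T * δ) ≤ C1 * (δ * Zd) := by
      calc |y - v| * (T * δ) = (|y - v| * T) * δ := by ring
        _ ≤ C1 * Zd * δ := mul_le_mul_of_nonneg_right hy hδ0.le
        _ = C1 * (δ * Zd) := by ring
    have h8 : |y - v| * (2500 * C1) ≤ |y - v| * (T * δ) := mul_le_mul_of_nonneg_left hT (abs_nonneg _)
    have h9 : C1 * (δ * Zd) ≤ C1 * (10 / 9 * v) := mul_le_mul_of_nonneg_left (by linarith) (by linarith)
    have h10 : (|y - v| * 2500) * C1 ≤ (10 / 9 * v) * C1 := by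
      calc (|y - v| * 2500) * C1 = |y - v| * (2500 * C1) := by ring
        _ ≤ C1 * (10 / 9 * v) := h8.trans (h7.trans h9)
        _ = (10 / 9 * v) * C1 := by ring
    have h11 := le_of_mul_le_mul_right h10 (by linarith)
    linarith
  have h11 := abs_le.1 (show |y - v| ≤ v / 50 by linarith [abs_nonneg (y - v)])
  refine ⟨by linarith, by linarith [h11.1], by linarith [h11.2]⟩

/-- **U14a**: covering by boxes (compare `R20_cover`, `HUP/R20.lean`). `T` is a constant. Let `s_j = q ⌊Z^(e_j)/(q T)⌋` (`≥ Z^(e_j)/(2T)` for `Z ≥ Cv q T`). The boxes `tb (u s) s`,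
`u ∈ ∏ [0, A Z^(e_j)/s_j]`, cover `tb 0 (A Z^e + 1)`, total volume at most `(3A)^d Z^(∑ e)`. A box which contains a `t` with `v_i(t) = β_i + ψ_i(t) ≥ δ Z^(D_i)` for all `i`: the forms vary by at most
`∑_j |c_ij| s_j ≤ C Z^(D_i)/T` on it (`R18_var`; `e_j = D_i` if `c_ij ≠ 0`), which is at most `v_i/100` if `T ≥ Cv/δ`; `M_i = q ⌊5 v_i/(8 q)⌋` (`v_i` the value at the corner), so
`151 M_i ≤ 100 v_i(t') < 168 M_i` on the box and `(δ/2) Z^(D_i) ≤ M_i ≤ Cv Z^(D_i)`. For such a box use `hE`; the other boxes contain no `t` of the set. Sum. -/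
theorem U14_cover {k d : ℕ} (c : Fin k → Fin d → ℤ) (e : Fin d → ℕ) (D : Fin k → ℕ) (he : ∀ j, 1 ≤ e j)
    (hD : ∀ i, 1 ≤ D i) (hB : ∀ i j, c i j ≠ 0 → e j = D i) (A : ℕ) (hA : 1 ≤ A) : ∃ Cv : ℕ, 1 ≤ Cv ∧
    ∀ (Z q : ℕ) (T δ θ : ℝ), 1 ≤ q → 0 < δ → δ ≤ 1 → (Cv : ℝ) ≤ T * δ → 0 ≤ θ → Cv * T * q ≤ Z * δ → ∀ β : Fin k → ℤ,
    (∀ i, |β i| ≤ A * (Z : ℤ) ^ D i) → ∀ (E : (Fin d → ℤ) → Prop) [DecidablePred E],
    (∀ (M : Fin k → ℕ) (b : Fin d → ℤ) (s : Fin d → ℕ), (∀ i, q ∣ M i) → (∀ j, q ∣ s j) →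
      (∀ i, δ * (Z : ℝ) ^ D i ≤ 2 * M i) → (∀ i, (M i : ℝ) ≤ Cv * (Z : ℝ) ^ D i) →
      (∀ j, (Z : ℝ) ^ e j ≤ 2 * T * s j) → (∀ j, (s j : ℝ) ≤ (Z : ℝ) ^ e j) →
      (∀ t ∈ tb b s, ∀ i, 151 * (M i : ℤ) ≤ 100 * (β i + lf c t i) ∧ 100 * (β i + lf c t i) < 168 * (M i : ℤ)) →
      (((tb b s).filter E).card : ℝ) ≤ (tb b s).card * θ) →
    (((tb 0 fun j => A * Z ^ e j + 1).filter fun t => (∀ i, δ * (Z : ℝ) ^ D i ≤ ((β i + lf c t i : ℤ) : ℝ)) ∧ E t).card : ℝ) ≤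
      Cv * θ * (Z : ℝ) ^ (∑ j, e j) := by
  classical
  obtain ⟨C1, hC1⟩ : ∃ C1 : ℕ, (C1 : ℤ) = 1 + ∑ i, ∑ j, |c i j| :=
    ⟨(1 + ∑ i, ∑ j, |c i j|).toNat, Int.toNat_of_nonneg
      (add_nonneg zero_le_one (Finset.sum_nonneg fun _ _ => Finset.sum_nonneg fun _ _ => abs_nonneg _))⟩
  have hS : ∀ i, ∑ j, |c i j| ≤ (C1 : ℤ) - 1 := by
    intro i
    have h1 := Finset.single_le_sum (f := fun i => ∑ j, |c i j|)
      (fun _ _ => Finset.sum_nonneg fun _ _ => abs_nonneg _) (mem_univ i)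
    omega
  have hC1' : 1 ≤ C1 := by
    have h1 : (0 : ℤ) ≤ ∑ i, ∑ j, |c i j| :=
      Finset.sum_nonneg fun _ _ => Finset.sum_nonneg fun _ _ => abs_nonneg _
    omega
  obtain ⟨Cv, hCv⟩ : ∃ Cv : ℕ, Cv = 2500 * C1 + A * (1 + C1) + (2 * A) ^ d := ⟨_, rfl⟩
  have hCa : 2500 * C1 ≤ Cv := by rw [hCv]; exact (Nat.le_add_right _ _).trans (Nat.le_add_right _ _)
  have hCb : A * (1 + C1) ≤ Cv := by rw [hCv]; exact (Nat.le_add_left _ _).trans (Nat.le_add_right _ _)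
  have hCc : (2 * A) ^ d ≤ Cv := by rw [hCv]; exact Nat.le_add_left _ _
  have hCd : 2500 ≤ Cv := by omega
  refine ⟨Cv, by omega, ?_⟩
  intro Z q T δ θ hq hδ0 hδ1 hT hθ hZ β hβ E _ hE
  have hqr : (1 : ℝ) ≤ q := by exact_mod_cast hq
  have hCr : (2500 : ℝ) ≤ Cv := by exact_mod_cast hCd
  have hC1r : (1 : ℝ) ≤ C1 := by exact_mod_cast hC1'
  have hTd : 2500 * (C1 : ℝ) ≤ T * δ := by
    have h1 : (2500 : ℝ) * (C1 : ℝ) ≤ Cv := by exact_mod_cast hCa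
    exact h1.trans hT
  have hT0 : 0 < T := by
    by_contra hneg
    push Not at hneg
    have := mul_nonpos_of_nonpos_of_nonneg hneg hδ0.le
    linarith
  have hT1 : (2500 : ℝ) ≤ T := by
    have h1 : T * δ ≤ T * 1 := mul_le_mul_of_nonneg_left hδ1 hT0.le
    linarith
  have hZ1 : 2500 * T * q ≤ Z * δ := by
    refine le_trans ?_ hZ
    exact mul_le_mul_of_nonneg_right (mul_le_mul_of_nonneg_right hCr hT0.le) (by linarith)
  have hZT : 2500 * T * q ≤ Z := by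
    refine hZ1.trans ?_
    calc (Z : ℝ) * δ ≤ Z * 1 := mul_le_mul_of_nonneg_left hδ1 (Nat.cast_nonneg _)
      _ = Z := mul_one _
  have hTq : (2500 : ℝ) ≤ 2500 * T * q := by nlinarith
  have hZr1 : (1 : ℝ) ≤ Z := by linarith
  have hZn : 1 ≤ Z := by exact_mod_cast hZr1
  have hZe : ∀ n : ℕ, 1 ≤ n → (Z : ℝ) ≤ (Z : ℝ) ^ n := fun n hn => le_self_pow₀ hZr1 (by omega)
  obtain ⟨s, hs⟩ : ∃ s : Fin d → ℕ, s = fun j => q * ⌊(Z : ℝ) ^ e j / (q * T)⌋₊ := ⟨_, rfl⟩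
  have hqT : 0 < (q : ℝ) * T := by positivity
  have hs1 : ∀ j, q ∣ s j := fun j => by rw [hs]; exact dvd_mul_right _ _
  have hs3 : ∀ j, (s j : ℝ) * T ≤ (Z : ℝ) ^ e j := by
    intro j
    have h1 : ((⌊(Z : ℝ) ^ e j / (q * T)⌋₊ : ℕ) : ℝ) ≤ (Z : ℝ) ^ e j / (q * T) := Nat.floor_le (by positivity)
    rw [le_div_iff₀ hqT] at h1
    rw [hs]
    push_cast
    linarith [mul_comm (q : ℝ) ((⌊(Z : ℝ) ^ e j / (q * T)⌋₊ : ℕ) : ℝ),
      mul_assoc ((⌊(Z : ℝ) ^ e j / (q * T)⌋₊ : ℕ) : ℝ) (q : ℝ) T]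
  have hs2 : ∀ j, (Z : ℝ) ^ e j ≤ 2 * T * s j := by
    intro j
    have h1 : (Z : ℝ) ^ e j / (q * T) < ((⌊(Z : ℝ) ^ e j / (q * T)⌋₊ : ℕ) : ℝ) + 1 := Nat.lt_floor_add_one _
    have h2 : 1 ≤ (Z : ℝ) ^ e j / (q * T) := by
      rw [le_div_iff₀ hqT]
      have h3 := hZe (e j) (he j)
      nlinarith
    have h4 : (1 : ℝ) ≤ ((⌊(Z : ℝ) ^ e j / (q * T)⌋₊ : ℕ) : ℝ) := by
      exact_mod_cast Nat.le_floor (by exact_mod_cast h2)
    have h5 : (Z : ℝ) ^ e j / (q * T) ≤ 2 * ((⌊(Z : ℝ) ^ e j / (q * T)⌋₊ : ℕ) : ℝ) := by linarith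
    rw [div_le_iff₀ hqT] at h5
    rw [hs]
    push_cast
    calc (Z : ℝ) ^ e j ≤ 2 * ((⌊(Z : ℝ) ^ e j / (q * T)⌋₊ : ℕ) : ℝ) * (q * T) := h5
      _ = 2 * T * (q * ((⌊(Z : ℝ) ^ e j / (q * T)⌋₊ : ℕ) : ℝ)) := by ring
  have hsZ : ∀ j, (s j : ℝ) ≤ (Z : ℝ) ^ e j := by
    intro j
    refine le_trans ?_ (hs3 j)
    exact le_mul_of_one_le_right (Nat.cast_nonneg _) (by linarith)
  have hspos : ∀ j, 0 < s j := by
    intro j
    rcases Nat.eq_zero_or_pos (s j) with h | h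
    · have h1 := hs2 j
      rw [h] at h1
      have h3 := hZe (e j) (he j)
      push_cast at h1
      linarith
    · exact h
  obtain ⟨cr, hcr⟩ : ∃ cr : (Fin d → ℕ) → (Fin d → ℤ), cr = fun u j => ((u j * s j : ℕ) : ℤ) := ⟨_, rfl⟩
  obtain ⟨U, hU⟩ : ∃ U : Finset (Fin d → ℕ), U = Fintype.piFinset fun j => range (A * Z ^ e j / s j + 1) :=
    ⟨_, rfl⟩
  obtain ⟨G, hG⟩ : ∃ G : Finset (Fin d → ℕ), G = U.filter fun u => ∀ i, 9 * (δ * (Z : ℝ) ^ D i) ≤ 10 * ((β i + lf c (cr u) i : ℤ) : ℝ) :=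
    ⟨_, rfl⟩
  have hvar : ∀ (b : Fin d → ℤ) (i : Fin k) (t t' : Fin d → ℤ), t ∈ tb b s → t' ∈ tb b s →
      |((β i + lf c t i : ℤ) : ℝ) - ((β i + lf c t' i : ℤ) : ℝ)| * T ≤ C1 * (Z : ℝ) ^ D i := by
    intro b i t t' ht ht'
    have h1 := R18_var c b s i t t' ht ht'
    have h2 : |((β i + lf c t i : ℤ) : ℝ) - ((β i + lf c t' i : ℤ) : ℝ)| ≤ ∑ j, |(c i j : ℝ)| * (s j : ℝ) := by
      have h3 : ((|lf c t i - lf c t' i| : ℤ) : ℝ) ≤ ((∑ j, |c i j| * (s j : ℤ) : ℤ) : ℝ) := by exact_mod_cast h1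
      push_cast at h3
      push_cast
      rw [add_sub_add_left_eq_sub]
      exact h3
    have h4 : (∑ j, |(c i j : ℝ)| * (s j : ℝ)) * T ≤ (∑ j, |(c i j : ℝ)|) * (Z : ℝ) ^ D i := by
      rw [Finset.sum_mul, Finset.sum_mul]
      refine Finset.sum_le_sum fun j _ => ?_
      by_cases hj : c i j = 0
      · rw [hj]
        simp
      · rw [mul_assoc, ← hB i j hj]
        exact mul_le_mul_of_nonneg_left (hs3 j) (abs_nonneg _)
    have h5 : (∑ j, |(c i j : ℝ)|) ≤ C1 := by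
      have h6 : ((∑ j, |c i j| : ℤ) : ℝ) ≤ ((C1 : ℤ) : ℝ) := by
        exact_mod_cast (hS i).trans (by omega)
      push_cast at h6
      exact h6
    calc _ ≤ (∑ j, |(c i j : ℝ)| * (s j : ℝ)) * T := mul_le_mul_of_nonneg_right h2 hT0.le
      _ ≤ (∑ j, |(c i j : ℝ)|) * (Z : ℝ) ^ D i := h4
      _ ≤ C1 * (Z : ℝ) ^ D i := mul_le_mul_of_nonneg_right h5 (by positivity)
  have hcrm : ∀ u : Fin d → ℕ, cr u ∈ tb (cr u) s := by
    intro u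
    rw [r18_mem]
    intro j
    have h1 := hspos j
    omega
  -- the cover
  have hsub : ((tb 0 fun j => A * Z ^ e j + 1).filter
        fun t => (∀ i, δ * (Z : ℝ) ^ D i ≤ ((β i + lf c t i : ℤ) : ℝ)) ∧ E t) ⊆
      (G.biUnion fun u => (tb (cr u) s).filter E) := by
    intro t ht
    rw [mem_filter] at ht
    obtain ⟨u, hu⟩ : ∃ u : Fin d → ℕ, u = fun j => (t j).toNat / s j := ⟨_, rfl⟩
    have htb := (r18_mem _ _ _).1 ht.1
    have htu : t ∈ tb (cr u) s := by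
      rw [r18_mem]
      intro j
      have h1 := htb j
      simp only [Pi.zero_apply] at h1
      obtain ⟨n, hn⟩ : ∃ n : ℕ, (n : ℤ) = t j := ⟨(t j).toNat, Int.toNat_of_nonneg h1.1⟩
      have h2 : u j = n / s j := by
        rw [hu]
        simp only
        rw [← hn, Int.toNat_natCast]
      have h3 : n / s j * s j ≤ n := Nat.div_mul_le_self _ _
      have h4 : n < n / s j * s j + s j := Nat.lt_div_mul_add (hspos j)
      rw [hcr]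
      simp only
      rw [h2, ← hn]
      constructor
      · exact_mod_cast h3
      · exact_mod_cast h4
    rw [mem_biUnion]
    refine ⟨u, ?_, mem_filter.2 ⟨htu, ht.2.2⟩⟩
    rw [hG, mem_filter]
    constructor
    · rw [hU, Fintype.mem_piFinset]
      intro j
      rw [mem_range, Nat.lt_succ_iff]
      rw [hu]
      apply Nat.div_le_div_right
      have h1 := htb j
      simp only [Pi.zero_apply] at h1
      push_cast at h1
      have h2 : (((t j).toNat : ℕ) : ℤ) ≤ ((A * Z ^ e j : ℕ) : ℤ) := by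
        rw [Int.toNat_of_nonneg h1.1]
        push_cast
        omega
      exact_mod_cast h2
    · intro i
      have h1 := ht.2.1 i
      have h3 := hvar (cr u) i t (cr u) htu (hcrm u)
      have hZD : 0 < (Z : ℝ) ^ D i := by positivity
      have h4 : |((β i + lf c t i : ℤ) : ℝ) - ((β i + lf c (cr u) i : ℤ) : ℝ)| * 2500 ≤ δ * (Z : ℝ) ^ D i := by
        have h5 : (|((β i + lf c t i : ℤ) : ℝ) - ((β i + lf c (cr u) i : ℤ) : ℝ)| * 2500) * C1 ≤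
            (δ * (Z : ℝ) ^ D i) * C1 := by
          calc _ = |((β i + lf c t i : ℤ) : ℝ) - ((β i + lf c (cr u) i : ℤ) : ℝ)| * (2500 * C1) := by ring
            _ ≤ |((β i + lf c t i : ℤ) : ℝ) - ((β i + lf c (cr u) i : ℤ) : ℝ)| * (T * δ) :=
              mul_le_mul_of_nonneg_left hTd (abs_nonneg _)
            _ = (|((β i + lf c t i : ℤ) : ℝ) - ((β i + lf c (cr u) i : ℤ) : ℝ)| * T) * δ := by ring
            _ ≤ (C1 * (Z : ℝ) ^ D i) * δ := mul_le_mul_of_nonneg_right h3 hδ0.le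
            _ = (δ * (Z : ℝ) ^ D i) * C1 := by ring
        exact le_of_mul_le_mul_right h5 (by linarith)
      have h6 : ((β i + lf c t i : ℤ) : ℝ) - ((β i + lf c (cr u) i : ℤ) : ℝ) ≤
          |((β i + lf c t i : ℤ) : ℝ) - ((β i + lf c (cr u) i : ℤ) : ℝ)| := le_abs_self _
      have h7 : 0 < δ * (Z : ℝ) ^ D i := mul_pos hδ0 hZD
      linarith
  -- the boxes
  have hbox : ∀ u ∈ G, (((tb (cr u) s).filter E).card : ℝ) ≤ (tb (cr u) s).card * θ := by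
    intro u hu
    rw [hG, mem_filter] at hu
    obtain ⟨v, hv⟩ : ∃ v : Fin k → ℕ, v = fun i => (β i + lf c (cr u) i).toNat := ⟨_, rfl⟩
    have hZD : ∀ i, 0 < (Z : ℝ) ^ D i := fun i => by positivity
    have hvpos : ∀ i, (0 : ℝ) < ((β i + lf c (cr u) i : ℤ) : ℝ) := by
      intro i
      have h1 := hu.2 i
      have h2 := mul_pos hδ0 (hZD i)
      linarith
    have hvr : ∀ i, (v i : ℝ) = ((β i + lf c (cr u) i : ℤ) : ℝ) := by
      intro i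
      have h1 : (0 : ℤ) ≤ β i + lf c (cr u) i := by
        have h2 := hvpos i
        exact_mod_cast h2.le
      have h2 : ((v i : ℕ) : ℤ) = β i + lf c (cr u) i := by
        rw [hv]
        exact Int.toNat_of_nonneg h1
      rw [← h2]
      push_cast
      rfl
    have hqw : ∀ i, (q : ℝ) * (2500 * T) ≤ (Z : ℝ) ^ D i * δ := by
      intro i
      calc (q : ℝ) * (2500 * T) = 2500 * T * q := by ring
        _ ≤ (Z : ℝ) * δ := hZ1
        _ ≤ (Z : ℝ) ^ D i * δ := mul_le_mul_of_nonneg_right (hZe _ (hD i)) hδ0.le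
    have hnum : ∀ (t : Fin d → ℤ), t ∈ tb (cr u) s → ∀ i,
        δ * (Z : ℝ) ^ D i ≤ 2 * ((q * (5 * v i / (8 * q)) : ℕ) : ℝ) ∧
        151 * ((q * (5 * v i / (8 * q)) : ℕ) : ℝ) ≤ 100 * ((β i + lf c t i : ℤ) : ℝ) ∧
        100 * ((β i + lf c t i : ℤ) : ℝ) < 168 * ((q * (5 * v i / (8 * q)) : ℕ) : ℝ) := by
      intro t ht i
      have h1 := r20_M q (v i) hq
      refine u14a_num C1 T δ ((Z : ℝ) ^ D i) (v i) ((β i + lf c t i : ℤ) : ℝ) _ q hC1r hTd hδ0 hδ1 (hZD i) ?_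
        (by linarith) (hqw i) ?_ h1.2 h1.1
      · rw [hvr i]
        exact hu.2 i
      · rw [hvr i]
        exact hvar (cr u) i t (cr u) ht (hcrm u)
    refine hE (fun i => q * (5 * v i / (8 * q))) (cr u) s (fun i => dvd_mul_right _ _) hs1 ?_ ?_ hs2 hsZ ?_
    · intro i
      exact (hnum (cr u) (hcrm u) i).1
    · intro i
      have h1 := (r20_M q (v i) hq).1
      have h2 : (v i : ℝ) ≤ A * (1 + C1) * (Z : ℝ) ^ D i := by
        rw [hvr i]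
        have h3 : ((β i + lf c (cr u) i : ℤ) : ℝ) = (β i : ℝ) + ∑ j, (c i j : ℝ) * (cr u j : ℝ) := by
          unfold lf
          push_cast
          rfl
        have h4 : (β i : ℝ) ≤ A * (Z : ℝ) ^ D i := by
          have h5 := (le_abs_self _).trans (hβ i)
          exact_mod_cast h5
        have h6 : ∑ j, (c i j : ℝ) * (cr u j : ℝ) ≤ ∑ j, |(c i j : ℝ)| * (A * (Z : ℝ) ^ D i) := by
          refine Finset.sum_le_sum fun j _ => ?_
          by_cases hj : c i j = 0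
          · rw [hj]
            simp
          · have h7 : (0 : ℝ) ≤ (cr u j : ℝ) := by
              rw [hcr]
              positivity
            have h8 : (cr u j : ℝ) ≤ A * (Z : ℝ) ^ D i := by
              have h9 := hu.1
              rw [hU, Fintype.mem_piFinset] at h9
              have h10 := h9 j
              rw [mem_range, Nat.lt_succ_iff] at h10
              have h11 : u j * s j ≤ A * Z ^ e j := (Nat.mul_le_mul_right _ h10).trans (Nat.div_mul_le_self _ _)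
              have h12 : ((u j * s j : ℕ) : ℝ) ≤ ((A * Z ^ e j : ℕ) : ℝ) := Nat.cast_le.2 h11
              rw [hcr, ← hB i j hj]
              push_cast at h12 ⊢
              exact h12
            exact (mul_le_mul_of_nonneg_right (le_abs_self _) h7).trans
              (mul_le_mul_of_nonneg_left h8 (abs_nonneg _))
        have h12 : (∑ j, |(c i j : ℝ)|) ≤ C1 := by
          have h13 : ((∑ j, |c i j| : ℤ) : ℝ) ≤ ((C1 : ℤ) : ℝ) := by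
            exact_mod_cast (hS i).trans (by omega)
          push_cast at h13
          exact h13
        rw [← Finset.sum_mul] at h6
        have h14 : (∑ j, |(c i j : ℝ)|) * (A * (Z : ℝ) ^ D i) ≤ C1 * (A * (Z : ℝ) ^ D i) :=
          mul_le_mul_of_nonneg_right h12 (by positivity)
        rw [h3]
        calc _ ≤ A * (Z : ℝ) ^ D i + C1 * (A * (Z : ℝ) ^ D i) := add_le_add h4 (h6.trans h14)
          _ = A * (1 + C1) * (Z : ℝ) ^ D i := by ring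
      have h15 : ((A * (1 + C1) : ℕ) : ℝ) ≤ Cv := by exact_mod_cast hCb
      push_cast at h15
      have h16 : (A * (1 + C1) : ℝ) * (Z : ℝ) ^ D i ≤ Cv * (Z : ℝ) ^ D i :=
        mul_le_mul_of_nonneg_right h15 (hZD i).le
      have h17 : (0 : ℝ) ≤ v i := Nat.cast_nonneg _
      linarith
    · intro t ht i
      have h1 := hnum t ht i
      have h2 := h1.2.1
      have h3 := h1.2.2
      have h4 : ((151 * ((q * (5 * v i / (8 * q)) : ℕ) : ℤ) : ℤ) : ℝ) ≤ ((100 * (β i + lf c t i) : ℤ) : ℝ) := by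
        push_cast
        push_cast at h2
        exact h2
      have h5 : ((100 * (β i + lf c t i) : ℤ) : ℝ) < ((168 * ((q * (5 * v i / (8 * q)) : ℕ) : ℤ) : ℤ) : ℝ) := by
        push_cast
        push_cast at h3
        exact h3
      exact ⟨Int.cast_le.1 h4, Int.cast_lt.1 h5⟩
  -- the sums
  have hcard := Finset.card_le_card hsub
  have hP : ∏ j, ((2 * A * Z ^ e j : ℕ) : ℝ) = (2 * A) ^ d * (Z : ℝ) ^ (∑ j, e j) := by
    push_cast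
    rw [Finset.prod_mul_distrib, Finset.prod_const, Finset.card_univ, Fintype.card_fin, Finset.prod_pow_eq_pow_sum]
  have hboxs : ∑ u ∈ G, (((tb (cr u) s).filter E).card : ℝ) ≤ θ * ((2 * A) ^ d * (Z : ℝ) ^ (∑ j, e j)) := by
    have h1 : ∀ u ∈ G, (((tb (cr u) s).filter E).card : ℝ) ≤ ((∏ j, s j : ℕ) : ℝ) * θ := by
      intro u hu
      have h2 := hbox u hu
      rw [R18_card] at h2
      exact h2
    have h3 := Finset.sum_le_sum h1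
    rw [Finset.sum_const, nsmul_eq_mul] at h3
    have h4 : (G.card : ℝ) ≤ U.card := by
      rw [hG]
      exact_mod_cast Finset.card_filter_le _ _
    have h5 : U.card * ∏ j, s j ≤ ∏ j, (2 * A * Z ^ e j) := by
      rw [hU, Fintype.card_piFinset, ← Finset.prod_mul_distrib]
      refine Finset.prod_le_prod' fun j _ => ?_
      rw [card_range]
      have h6 : s j ≤ Z ^ e j := by exact_mod_cast hsZ j
      have h7 : A * Z ^ e j / s j * s j ≤ A * Z ^ e j := Nat.div_mul_le_self _ _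
      have h8 : 1 * Z ^ e j ≤ A * Z ^ e j := Nat.mul_le_mul_right _ hA
      calc (A * Z ^ e j / s j + 1) * s j = A * Z ^ e j / s j * s j + s j := by ring
        _ ≤ A * Z ^ e j + A * Z ^ e j := by omega
        _ = 2 * A * Z ^ e j := by ring
    have h9 : (U.card : ℝ) * ((∏ j, s j : ℕ) : ℝ) ≤ ∏ j, ((2 * A * Z ^ e j : ℕ) : ℝ) := by exact_mod_cast h5
    rw [hP] at h9
    calc _ ≤ (G.card : ℝ) * (((∏ j, s j : ℕ) : ℝ) * θ) := h3
      _ ≤ (U.card : ℝ) * (((∏ j, s j : ℕ) : ℝ) * θ) := mul_le_mul_of_nonneg_right h4 (by positivity)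
      _ = θ * ((U.card : ℝ) * ((∏ j, s j : ℕ) : ℝ)) := by ring
      _ ≤ _ := mul_le_mul_of_nonneg_left h9 hθ
  have hfin : (((tb 0 fun j => A * Z ^ e j + 1).filter
        fun t => (∀ i, δ * (Z : ℝ) ^ D i ≤ ((β i + lf c t i : ℤ) : ℝ)) ∧ E t).card : ℝ) ≤
      ∑ u ∈ G, (((tb (cr u) s).filter E).card : ℝ) := by
    have h1 := hcard.trans Finset.card_biUnion_le
    exact_mod_cast h1
  have h2 : ((2 * A) ^ d : ℝ) ≤ Cv := by exact_mod_cast hCc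
  have hZs : (0 : ℝ) ≤ (Z : ℝ) ^ (∑ j, e j) := by positivity
  calc _ ≤ θ * ((2 * A) ^ d * (Z : ℝ) ^ (∑ j, e j)) := hfin.trans hboxs
    _ = (2 * A) ^ d * (θ * (Z : ℝ) ^ (∑ j, e j)) := by ring
    _ ≤ Cv * (θ * (Z : ℝ) ^ (∑ j, e j)) := mul_le_mul_of_nonneg_right h2 (mul_nonneg hθ hZs)
    _ = Cv * θ * (Z : ℝ) ^ (∑ j, e j) := by ring

theorem u14_eval (P : ℤ[X]) (A : ℕ) : ∃ Cp : ℕ, ∀ n0 Z : ℕ, 1 ≤ Z → n0 ≤ A * Z →
    |P.eval (n0 : ℤ)| ≤ Cp * (Z : ℤ) ^ P.natDegree := by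
  refine ⟨∑ j ∈ range (P.natDegree + 1), (P.coeff j).natAbs * A ^ j, ?_⟩
  intro n0 Z hZ hn
  rw [eval_eq_sum_range]
  refine (abs_sum_le_sum_abs _ _).trans ?_
  push_cast
  rw [Finset.sum_mul]
  apply Finset.sum_le_sum
  intro j hj
  rw [mem_range] at hj
  rw [abs_mul, abs_pow, Nat.abs_cast]
  have h1 : (n0 : ℤ) ^ j ≤ ((A : ℤ) * Z) ^ j := pow_le_pow_left₀ (by positivity) (by exact_mod_cast hn) j
  have h2 : (Z : ℤ) ^ j ≤ (Z : ℤ) ^ P.natDegree := pow_le_pow_right₀ (by exact_mod_cast hZ) (by omega)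
  calc |P.coeff j| * (n0 : ℤ) ^ j ≤ |P.coeff j| * ((A : ℤ) * Z) ^ j := mul_le_mul_of_nonneg_left h1 (abs_nonneg _)
    _ = |P.coeff j| * (A : ℤ) ^ j * (Z : ℤ) ^ j := by rw [mul_pow, mul_assoc]
    _ ≤ |P.coeff j| * (A : ℤ) ^ j * (Z : ℤ) ^ P.natDegree := mul_le_mul_of_nonneg_left h2 (by positivity)

theorem u14_ev (c : ℝ) (hc : 0 < c) (K : ℝ) : ∃ Z0 : ℕ, ∀ Z : ℕ, Z0 ≤ Z → K ≤ (Z : ℝ) ^ c := by
  have h1 : Filter.Tendsto (fun Z : ℕ => (Z : ℝ) ^ c) Filter.atTop Filter.atTop :=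
    (tendsto_rpow_atTop hc).comp tendsto_natCast_atTop_atTop
  exact Filter.eventually_atTop.1 (h1.eventually_ge_atTop K)

/-- `Z` is large compared to `Q`. -/
theorem u14_rg {K C : ℝ} {Q Z : ℕ} (hK : 2000 ≤ K) (hQ : 2 ≤ Q) (h : Rg K C Q Z) : (Q : ℝ) ^ 12 ≤ Z := by
  have hQr : (2 : ℝ) ≤ Q := by exact_mod_cast hQ
  have hlogQ : 0 < Real.log Q := Real.log_pos (by linarith)
  have h1 : K * Real.log Q ≤ Real.log Z := h.1
  have hlogZ : 0 < Real.log Z := by nlinarith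
  have hZ0 : (0 : ℝ) < Z := by
    rcases Nat.eq_zero_or_pos Z with h0 | h0
    · rw [h0, Nat.cast_zero, Real.log_zero] at hlogZ
      exact absurd hlogZ (lt_irrefl _)
    · exact_mod_cast h0
  rw [← Real.log_le_log_iff (by positivity) hZ0, Real.log_pow]
  push_cast
  nlinarith

/-- The scales of the models. -/
theorem u14_ysc {A Z M : ℕ} {δ Cv : ℝ} {D : ℕ} (hδ : 0 < δ) (hM8 : 8 ∣ M) (hD1 : 1 ≤ D) (hDA : D ≤ A) (hZ1 : 1 ≤ Z)
    (h1 : δ * (Z : ℝ) ^ D ≤ 2 * M) (h2 : (M : ℝ) ≤ Cv * (Z : ℝ) ^ D) (h3 : 16 / δ ^ 2 ≤ Z) (h4 : Cv ≤ Z) :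
    Z ≤ (Ysc M) ^ 2 ∧ Ysc M ≤ Z ^ (A + 2) := by
  obtain ⟨m, rfl⟩ := hM8
  have hY : Ysc (8 * m) = 6 * m := by
    unfold Ysc
    omega
  have hZr : (1 : ℝ) ≤ Z := by exact_mod_cast hZ1
  have hZ0 : (0 : ℝ) < Z := by linarith
  have hZD : (Z : ℝ) ≤ (Z : ℝ) ^ D := by
    calc (Z : ℝ) = (Z : ℝ) ^ 1 := (pow_one _).symm
      _ ≤ (Z : ℝ) ^ D := pow_le_pow_right₀ hZr hD1
  rw [hY]
  push_cast at h1 h2
  constructor
  · have h5 : δ * Z / 4 ≤ 6 * (m : ℝ) := by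
      have : δ * (Z : ℝ) ≤ δ * (Z : ℝ) ^ D := mul_le_mul_of_nonneg_left hZD hδ.le
      have hm : (0 : ℝ) ≤ m := Nat.cast_nonneg _
      linarith
    have h6 : (δ * Z / 4) ^ 2 ≤ (6 * (m : ℝ)) ^ 2 := pow_le_pow_left₀ (by positivity) h5 2
    have h7 : (Z : ℝ) ≤ (δ * Z / 4) ^ 2 := by
      rw [div_le_iff₀ (by positivity)] at h3
      have h8 : (δ * Z / 4) ^ 2 = Z * (Z * δ ^ 2) / 16 := by ring
      rw [h8]
      have h9 : (Z : ℝ) * 16 ≤ Z * (Z * δ ^ 2) := mul_le_mul_of_nonneg_left h3 hZ0.le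
      linarith
    have h8 : (Z : ℝ) ≤ ((6 * m : ℕ) : ℝ) ^ 2 := by
      push_cast
      exact h7.trans h6
    exact_mod_cast h8
  · have h5 : ((6 * m : ℕ) : ℝ) ≤ (Z : ℝ) ^ (A + 2) := by
      push_cast
      have hm : (0 : ℝ) ≤ m := Nat.cast_nonneg _
      calc 6 * (m : ℝ) ≤ 8 * m := by linarith
        _ ≤ Cv * (Z : ℝ) ^ D := h2
        _ ≤ Z * (Z : ℝ) ^ D := mul_le_mul_of_nonneg_right h4 (by positivity)
        _ = (Z : ℝ) ^ (D + 1) := by rw [pow_succ]; ring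
        _ ≤ (Z : ℝ) ^ (A + 2) := pow_le_pow_right₀ hZr (by omega)
    exact_mod_cast h5


end Pool.Agent.H9P
end

-- from Lib.H9P.V14
section

/-!
# ASYP, chunk V14 (M): one cell of `n`, all parameters, from an abstract level
-/

open Finset Polynomial

namespace Pool.Agent.H9P

open Pool.Agent.Lib.H68T Pool.Agent.Lib.H18Q Pool.Agent.Lib.H59P Pool.Agent.Lib.H24P
open Pool.Agent.HUP

theorem v14_half {Q : ℕ} {c1 c3 : ℝ} (hQ0 : (0 : ℝ) < Q) (hQ1 : (1 : ℝ) ≤ Q) (h2 : 2 ≤ (Q : ℝ) ^ c3) (h : 2 * c3 ≤ c1) :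
    (Q : ℝ) ^ (-c1) ≤ (Q : ℝ) ^ (-c3) / 2 := by
  have g1 : (Q : ℝ) ^ (-c1) ≤ (Q : ℝ) ^ (-c3 + -c3) := Real.rpow_le_rpow_of_exponent_le hQ1 (by linarith)
  have g2 : (Q : ℝ) ^ (-c3 + -c3) = (Q : ℝ) ^ (-c3) * (Q : ℝ) ^ (-c3) := Real.rpow_add hQ0 _ _
  have g3 : (Q : ℝ) ^ (-c3) ≤ 1 / 2 := by
    rw [Real.rpow_neg hQ0.le, ← one_div]
    exact one_div_le_one_div_of_le (by norm_num) h2
  have g4 : 0 < (Q : ℝ) ^ (-c3) := Real.rpow_pos_of_pos hQ0 _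
  nlinarith

open Classical in
/-- **V14** (copy of the proof of `U14_main` with `V9_box` in place of `U9_box`). -/
theorem V14_main {k d : ℕ} (c : Fin k → Fin d → ℤ) (e : Fin d → ℕ) (D : Fin k → ℕ) (a : Fin k → ℤ)
    (hF : FGTU c D a) (hS : S4TU c e D a) (he : ∀ j, 1 ≤ e j) (hB : ∀ i j, c i j ≠ 0 → e j = D i)
    (hD : ∀ i, 1 ≤ D i) (P : Fin k → ℤ[X]) (hP : HasD D a P) (A : ℕ) (hA : 1 ≤ A)
    (hDA : ∀ i, D i ≤ A ∧ (a i).natAbs ≤ A) : ∃ (E : ℕ) (Cc cc K : ℝ), FPar Cc cc ∧ 1 ≤ K ∧ ∀ C c1 δ : ℝ, 0 < c1 → 0 < δ →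
    ∃ (Cv ρ0 : ℝ), 1 ≤ Cv ∧ 0 < ρ0 ∧ ∀ ρ : ℝ, 0 < ρ → ρ ≤ ρ0 → ∃ c0 : ℝ, 0 < c0 ∧ ∃ Q0 : ℕ, ∀ Q Z : ℕ, Q0 ≤ Q → Rg K C Q Z →
    ∀ ε ϑ : ℝ, 0 ≤ ϑ → Lvl k A E Cc cc Q Z ε c1 ϑ →
    ∀ X1 n0 : ℕ, Q ^ 800 ∣ X1 → ρ * Z ≤ 2 * X1 → X1 ≤ ρ * Z → n0 ≤ A * Z → ∀ B : ℤ[X], Lin A B →
    (∀ n ∈ Ico (n0 + X1) (n0 + 2 * X1), δ * Z ≤ ((B.eval (n : ℤ) : ℤ) : ℝ) ∧ ((B.eval (n : ℤ) : ℤ) : ℝ) ≤ A * Z) →
    ∀ β : Fin k → ℤ, (∀ i, |β i| ≤ A * (Z : ℤ) ^ D i) →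
    (((tb 0 fun j => A * Z ^ e j + 1).filter fun t => (∀ i, 0 ≤ β i + lf c t i) ∧ NoFix (sys B P (hh c β t)) ∧
      (∀ i, δ * (Z : ℝ) ^ D i ≤ (((P i).eval (n0 : ℤ) + β i + lf c t i : ℤ) : ℝ)) ∧
      X1 * (ε * SSf (pr Q) (sys B P (hh c β t)) + (Q : ℝ) ^ (-c0)) <
        |wct (sys B P (hh c β t)) (n0 + X1) X1 - X1 * SSf (pr Q) (sys B P (hh c β t))|).card : ℝ) ≤
      Cv * (Z : ℝ) ^ (∑ j, e j) * (ϑ + (Q : ℝ) ^ (-c0)) := by
  obtain ⟨Ef, Cf0, cf0, K9, hFP, hK9, h9⟩ := V9_box c e D a hF hS he hD A hA hDA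
  obtain ⟨Cg, hCg, hgeo⟩ := U11_geo P A
  refine ⟨Ef, Cf0, cf0, K9 + 2000, hFP, by linarith, ?_⟩
  intro Cr c1 δ0 hc1 hδ0
  obtain ⟨τ, c2, hτ, hτ1, hc2, Q9, h9⟩ := h9 Cr
  obtain ⟨c3, hc3, h31, h32⟩ : ∃ c3 : ℝ, 0 < c3 ∧ 2 * c3 ≤ c1 ∧ 2 * c3 ≤ c2 := by
    refine ⟨min c1 c2 / 2, by have := lt_min hc1 hc2; linarith, ?_, ?_⟩
    · have := min_le_left c1 c2
      linarith
    · have := min_le_right c1 c2
      linarith
  obtain ⟨δ, hδd⟩ : ∃ δ : ℝ, δ = min δ0 1 := ⟨_, rfl⟩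
  have hδ : 0 < δ := by
    rw [hδd]
    exact lt_min hδ0 one_pos
  have hδ1 : δ ≤ 1 := by
    rw [hδd]
    exact min_le_right _ _
  have hδδ : δ ≤ δ0 := by
    rw [hδd]
    exact min_le_left _ _
  have hev : ∀ i, ∃ Cp : ℕ, ∀ n0 Z : ℕ, 1 ≤ Z → n0 ≤ A * Z →
      |(P i).eval (n0 : ℤ)| ≤ Cp * (Z : ℤ) ^ (P i).natDegree := fun i => u14_eval (P i) A
  choose Cp hCp using hev
  obtain ⟨Ca, hCa⟩ : ∃ Ca, Ca = A + ∑ i, Cp i := ⟨_, rfl⟩
  obtain ⟨Cv, hCv, hcov⟩ := U14_cover c e D he hD hB Ca (by omega)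
  have hAr : (1 : ℝ) ≤ A := by exact_mod_cast hA
  have hCgr : (1 : ℝ) ≤ Cg := by exact_mod_cast hCg
  have hCvr : (1 : ℝ) ≤ Cv := by exact_mod_cast hCv
  refine ⟨Cv, min (δ / (4 * Cg)) (min (δ / A) (1 / 2)), hCvr, by positivity, ?_⟩
  intro ρ hρ hρ0
  have hρ1 : 4 * Cg * ρ ≤ δ := by
    have h1 := hρ0.trans (min_le_left _ _)
    rw [le_div_iff₀ (by positivity)] at h1
    linarith
  have hρ2 : A * ρ ≤ δ := by
    have h1 := hρ0.trans ((min_le_right _ _).trans (min_le_left _ _))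
    rw [le_div_iff₀ (by positivity)] at h1
    linarith
  have hρ3 : ρ ≤ 1 / 2 := hρ0.trans ((min_le_right _ _).trans (min_le_right _ _))
  obtain ⟨T, hT⟩ : ∃ T : ℝ, T = Cv / δ + 1 := ⟨_, rfl⟩
  have hT1 : 1 ≤ T := by
    rw [hT]
    have : (0 : ℝ) ≤ Cv / δ := by positivity
    linarith
  have hTδ : (Cv : ℝ) ≤ T * δ := by
    rw [hT, add_mul, div_mul_cancel₀ _ hδ.ne']
    linarith
  obtain ⟨Cc, hCc⟩ : ∃ Cc : ℕ, Cc = ∑ i, ∑ j, (c i j).natAbs := ⟨_, rfl⟩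
  obtain ⟨b0, hb0⟩ : ∃ b0 : ℝ, b0 = min τ (min (1 / 8) c3) := ⟨_, rfl⟩
  have hb0p : 0 < b0 := by
    rw [hb0]
    exact lt_min hτ (lt_min (by norm_num) hc3)
  have hb1 : b0 ≤ τ := by
    rw [hb0]
    exact min_le_left _ _
  have hb2 : b0 ≤ 1 / 8 := by
    rw [hb0]
    exact (min_le_right _ _).trans (min_le_left _ _)
  have hb3 : b0 ≤ c3 := by
    rw [hb0]
    exact (min_le_right _ _).trans (min_le_right _ _)
  obtain ⟨Q1, hQ1⟩ := u14_ev b0 hb0p (2 / ρ + Cv * (1 + 2 / ρ) ^ A + 2 * T + 2 * Cc / δ + 8 * Cv * T / δ +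
    16 / δ ^ 2 + A + Cv + 2)
  refine ⟨c3, hc3, Q9 + Q1 + 2, ?_⟩
  intro Q Z hQ hRg ε ϑ hϑ hLv X1 n0 hX1d hX1l hX1u hn0 B hBL hBv β hβ
  have hQ2 : 2 ≤ Q := by omega
  have hQr : (2 : ℝ) ≤ Q := by exact_mod_cast hQ2
  have hQ1r : (1 : ℝ) ≤ Q := by linarith
  have hQ0 : (0 : ℝ) < Q := by linarith
  have hΛ := hQ1 Q (by omega)
  have n1 : (0 : ℝ) ≤ 2 / ρ := by positivity
  have n2 : (0 : ℝ) ≤ Cv * (1 + 2 / ρ) ^ A := by positivity
  have n3 : (0 : ℝ) ≤ 2 * T := by positivity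
  have n4 : (0 : ℝ) ≤ 2 * Cc / δ := by positivity
  have n5 : (0 : ℝ) ≤ 8 * Cv * T / δ := by positivity
  have n6 : (0 : ℝ) ≤ 16 / δ ^ 2 := by positivity
  have hQbτ : (Q : ℝ) ^ b0 ≤ (Q : ℝ) ^ τ := Real.rpow_le_rpow_of_exponent_le hQ1r hb1
  have hQb8 : (Q : ℝ) ^ b0 ≤ (Q : ℝ) ^ (1 / 8 : ℝ) := Real.rpow_le_rpow_of_exponent_le hQ1r hb2
  have hQbc : (Q : ℝ) ^ b0 ≤ (Q : ℝ) ^ c3 := Real.rpow_le_rpow_of_exponent_le hQ1r hb3
  have hAr0 : (0 : ℝ) ≤ A := by linarith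
  have hQc3 : 2 ≤ (Q : ℝ) ^ c3 := by linarith
  have hQbQ : (Q : ℝ) ^ b0 ≤ Q := by
    calc (Q : ℝ) ^ b0 ≤ (Q : ℝ) ^ (1 : ℝ) := Real.rpow_le_rpow_of_exponent_le hQ1r (by linarith)
      _ = Q := Real.rpow_one _
  have hQ12 : (Q : ℝ) ^ 12 ≤ Z := u14_rg (by linarith) hQ2 hRg
  have hQZ : (Q : ℝ) ≤ Z := by
    refine le_trans ?_ hQ12
    calc (Q : ℝ) = (Q : ℝ) ^ 1 := (pow_one _).symm
      _ ≤ (Q : ℝ) ^ 12 := pow_le_pow_right₀ hQ1r (by norm_num)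
  have hZr : (1 : ℝ) ≤ Z := by linarith
  have hZ0 : (0 : ℝ) < Z := by linarith
  have hZ1 : 1 ≤ Z := by exact_mod_cast hZr
  have hX1p : 0 < X1 := by
    have h1 : (0 : ℝ) < 2 * X1 := lt_of_lt_of_le (by positivity) hX1l
    have h2 : (0 : ℝ) < X1 := by linarith
    exact_mod_cast h2
  have hX1r : (0 : ℝ) < X1 := by exact_mod_cast hX1p
  have hZX : (Z : ℝ) ≤ (2 / ρ) * X1 := by
    rw [div_mul_eq_mul_div, le_div_iff₀ hρ]
    linarith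
  have h2X1 : 2 * X1 ≤ Z := by
    have h1 : 2 * (X1 : ℝ) ≤ Z := by nlinarith
    exact_mod_cast h1
  -- the translated data
  obtain ⟨β', hβ'⟩ : ∃ β' : Fin k → ℤ, β' = fun i => β i + (P i).eval (n0 : ℤ) := ⟨_, rfl⟩
  have hβ'b : ∀ i, |β' i| ≤ Ca * (Z : ℤ) ^ D i := by
    intro i
    rw [hβ']
    refine (abs_add_le _ _).trans ?_
    have h1 := hCp i n0 Z hZ1 hn0
    rw [(hP i).1] at h1
    have h2 := hβ i
    have h3 : ((Cp i : ℕ) : ℤ) ≤ ((∑ i, Cp i : ℕ) : ℤ) := by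
      exact_mod_cast Finset.single_le_sum (f := Cp) (fun _ _ => Nat.zero_le _) (mem_univ i)
    have h4 : ((Cp i : ℕ) : ℤ) * (Z : ℤ) ^ D i ≤ ((∑ i, Cp i : ℕ) : ℤ) * (Z : ℤ) ^ D i :=
      mul_le_mul_of_nonneg_right h3 (by positivity)
    calc |β i| + |(P i).eval (n0 : ℤ)| ≤ A * (Z : ℤ) ^ D i + ((∑ i, Cp i : ℕ) : ℤ) * (Z : ℤ) ^ D i := by linarith
      _ = Ca * (Z : ℤ) ^ D i := by
        rw [hCa]
        push_cast
        ring
  have hHD := U11_hasD D a P hP hD n0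
  have hBv' : ∀ n ∈ Ico (n0 + X1) (n0 + 2 * X1), δ * Z ≤ ((B.eval (n : ℤ) : ℤ) : ℝ) ∧
      ((B.eval (n : ℤ) : ℤ) : ℝ) ≤ A * Z := by
    intro n hn
    obtain ⟨h1, h2⟩ := hBv n hn
    exact ⟨(mul_le_mul_of_nonneg_right hδδ hZ0.le).trans h1, h2⟩
  have hAX : (A : ℝ) * X1 ≤ δ * Z := by
    calc (A : ℝ) * X1 ≤ A * (ρ * Z) := mul_le_mul_of_nonneg_left hX1u (by positivity)
      _ = (A * ρ) * Z := by ring
      _ ≤ δ * Z := mul_le_mul_of_nonneg_right hρ2 hZ0.le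
  obtain ⟨Y, hYB, hY1, hY2⟩ := U11_geoB A hA δ hδ Z X1 n0 hX1p hAX B hBL hBv'
  have hδZ : 16 / δ ^ 2 ≤ Z := by
    have hA0 : (0 : ℝ) ≤ A := by linarith
    linarith
  have hδ2 : 16 ≤ Z * δ ^ 2 := by
    rw [div_le_iff₀ (by positivity)] at hδZ
    exact hδZ
  have hYa : Z ≤ Y ^ 2 := by
    have h1 : (δ * Z) ^ 2 ≤ (Y : ℝ) ^ 2 := pow_le_pow_left₀ (by positivity) hY1 2
    have h2 : (Z : ℝ) ≤ (δ * Z) ^ 2 := by
      have h3 : (δ * Z) ^ 2 = Z * (Z * δ ^ 2) := by ring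
      rw [h3]
      have h4 : (Z : ℝ) * 16 ≤ Z * (Z * δ ^ 2) := mul_le_mul_of_nonneg_left hδ2 hZ0.le
      linarith
    have h3 : (Z : ℝ) ≤ (Y : ℝ) ^ 2 := h2.trans h1
    exact_mod_cast h3
  have hYb : Y ≤ Z ^ (A + 2) := by
    have hAZ : (A : ℝ) ≤ Z := by linarith
    have h1 : (Y : ℝ) ≤ (Z : ℝ) ^ (A + 2) := by
      calc (Y : ℝ) ≤ A * Z := by exact_mod_cast hY2
        _ ≤ Z * Z := mul_le_mul_of_nonneg_right hAZ hZ0.le
        _ = (Z : ℝ) ^ 2 := by ring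
        _ ≤ (Z : ℝ) ^ (A + 2) := pow_le_pow_right₀ hZr (by omega)
    exact_mod_cast h1
  have hcov' := hcov Z (8 * Q ^ 10) T δ (ϑ + (Q : ℝ) ^ (-c2))
    (by have := Nat.one_le_pow 10 Q (by omega); omega) hδ hδ1 hTδ (add_nonneg hϑ (by positivity))
    (by
      push_cast
      have h1 : 8 * Cv * T / δ ≤ Q := by
        have hA0 : (0 : ℝ) ≤ A := by linarith
        linarith
      rw [div_le_iff₀ hδ] at h1
      have h2 : (Q : ℝ) * (Q : ℝ) ^ 10 ≤ Z := by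
        refine le_trans ?_ hQ12
        calc (Q : ℝ) * (Q : ℝ) ^ 10 = (Q : ℝ) ^ 11 := by ring
          _ ≤ (Q : ℝ) ^ 12 := pow_le_pow_right₀ hQ1r (by norm_num)
      calc (Cv : ℝ) * T * (8 * (Q : ℝ) ^ 10) = (8 * Cv * T) * (Q : ℝ) ^ 10 := by ring
        _ ≤ (Q * δ) * (Q : ℝ) ^ 10 := mul_le_mul_of_nonneg_right h1 (by positivity)
        _ = (Q * (Q : ℝ) ^ 10) * δ := by ring
        _ ≤ Z * δ := mul_le_mul_of_nonneg_right h2 hδ.le)
    β' hβ'b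
    (fun t => (∀ i, 0 ≤ β i + lf c t i) ∧ NoFix (sys B P (hh c β t)) ∧
      X1 * (ε * SSf (pr Q) (sys B P (hh c β t)) + (Q : ℝ) ^ (-c3)) <
        |wct (sys B P (hh c β t)) (n0 + X1) X1 - X1 * SSf (pr Q) (sys B P (hh c β t))|)
    (fun M b s hM hs h1 h2 h3 h4 h5 => by
      have hMr : ∀ i, (M i : ℝ) ≤ (Q : ℝ) ^ b0 * (X1 : ℝ) ^ D i := by
        intro i
        have h6 : (Z : ℝ) ^ D i ≤ ((2 / ρ) * X1) ^ D i := pow_le_pow_left₀ hZ0.le hZX _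
        have h7 : (2 / ρ) ^ D i ≤ (1 + 2 / ρ) ^ A := by
          calc (2 / ρ) ^ D i ≤ (1 + 2 / ρ) ^ D i := pow_le_pow_left₀ n1 (by linarith) _
            _ ≤ (1 + 2 / ρ) ^ A := pow_le_pow_right₀ (by linarith) (hDA i).1
        calc (M i : ℝ) ≤ Cv * (Z : ℝ) ^ D i := h2 i
          _ ≤ Cv * ((2 / ρ) * X1) ^ D i := mul_le_mul_of_nonneg_left h6 (by positivity)
          _ = (Cv * (2 / ρ) ^ D i) * (X1 : ℝ) ^ D i := by rw [mul_pow]; ring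
          _ ≤ (Cv * (1 + 2 / ρ) ^ A) * (X1 : ℝ) ^ D i := by
            apply mul_le_mul_of_nonneg_right _ (by positivity)
            exact mul_le_mul_of_nonneg_left h7 (by positivity)
          _ ≤ (Q : ℝ) ^ b0 * (X1 : ℝ) ^ D i := by
            apply mul_le_mul_of_nonneg_right _ (by positivity)
            linarith
      have hM8 : ∀ i, 8 ∣ M i := fun i => (Dvd.intro _ rfl).trans (hM i)
      have hX1Z : X1 ≤ Z := by omega
      have hZXQ : Z ≤ X1 * Q := by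
        have h6 : (Z : ℝ) ≤ X1 * Q := by
          refine hZX.trans ?_
          rw [mul_comm]
          exact mul_le_mul_of_nonneg_left (by linarith) hX1r.le
        exact_mod_cast h6
      have hGeoU : GeoU A Q Z X1 (fun i => shf n0 (P i)) M := by
        refine hgeo Q Z Z X1 n0 M hZ1 hn0 h2X1 hX1d hX1p hX1Z hZXQ (fun i => ?_) (fun i => ?_) (fun i => ?_)
          (fun i => ?_)
        · refine Dvd.dvd.trans ?_ (hM i)
          exact Nat.mul_dvd_mul_left 8 (pow_dvd_pow Q (by norm_num))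
        · rw [(hP i).1]
          have h6 : (Cg : ℝ) * X1 * (Z : ℝ) ^ D i ≤ Z * M i := by
            have h7 : (Cg : ℝ) * X1 ≤ Cg * (ρ * Z) := mul_le_mul_of_nonneg_left hX1u (by positivity)
            have h8 : (Cg : ℝ) * (ρ * Z) ≤ (δ / 2) * Z := by nlinarith
            calc (Cg : ℝ) * X1 * (Z : ℝ) ^ D i ≤ ((δ / 2) * Z) * (Z : ℝ) ^ D i :=
                  mul_le_mul_of_nonneg_right (h7.trans h8) (by positivity)
              _ = Z * (δ * (Z : ℝ) ^ D i / 2) := by ring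
              _ ≤ Z * M i := mul_le_mul_of_nonneg_left (by linarith [h1 i]) hZ0.le
          exact_mod_cast h6
        · rw [(hP i).1, mul_comm]
          exact (hMr i).trans (mul_le_mul_of_nonneg_right hQb8 (by positivity))
        · rw [(hP i).1]
          exact hD i
      have hcell := h9 (fun i => shf n0 (P i)) hHD Q Z X1 Y M (B.comp (X + C (n0 : ℤ))) b s β' (by omega)
        ⟨by
          have hlogQ : 0 ≤ Real.log Q := Real.log_nonneg hQ1r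
          have := hRg.1
          nlinarith, hRg.2⟩ hGeoU hYB
        (by
          refine hZX.trans ?_
          rw [mul_comm]
          exact mul_le_mul_of_nonneg_left (by linarith) hX1r.le)
        (fun i => by
          rw [(hHD i).1, mul_comm]
          exact (hMr i).trans (mul_le_mul_of_nonneg_right hQbτ (by positivity)))
        (fun j => (h3 j).trans (mul_le_mul_of_nonneg_right (by linarith) (by positivity)))
        (fun j => (h4 j).trans (le_mul_of_one_le_left (by positivity) (by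
          exact Real.one_le_rpow hQ1r hτ.le)))
        (fun j => (Dvd.intro_left _ rfl).trans (hs j))
        (fun i => by
          have h6 : ∀ j ∈ (univ : Finset (Fin d)), ((|c i j| * (s j : ℤ) : ℤ) : ℝ) ≤
              ((c i j).natAbs : ℝ) * (Z : ℝ) ^ D i := by
            intro j _
            push_cast
            rw [Nat.cast_natAbs, Int.cast_abs]
            by_cases hc : c i j = 0
            · rw [hc]
              simp
            · have h7 := h4 j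
              rw [hB i j hc] at h7
              exact mul_le_mul_of_nonneg_left h7 (abs_nonneg _)
          have h7 : ((∑ j, |c i j| * (s j : ℤ) : ℤ) : ℝ) ≤ ((Q : ℤ) * (M i : ℤ) : ℤ) := by
            rw [Int.cast_sum]
            refine (Finset.sum_le_sum h6).trans ?_
            rw [← Finset.sum_mul]
            have h8 : ∑ j, ((c i j).natAbs : ℝ) ≤ Cc := by
              have h9 : ∑ j, (c i j).natAbs ≤ Cc := by
                rw [hCc]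
                exact Finset.single_le_sum (f := fun i => ∑ j, (c i j).natAbs) (fun _ _ => Nat.zero_le _)
                  (mem_univ i)
              exact_mod_cast h9
            have h9 : 2 * Cc / δ ≤ Q := by linarith
            rw [div_le_iff₀ hδ] at h9
            push_cast
            calc (∑ j, ((c i j).natAbs : ℝ)) * (Z : ℝ) ^ D i ≤ Cc * (Z : ℝ) ^ D i :=
                  mul_le_mul_of_nonneg_right h8 (by positivity)
              _ = (2 * Cc) * (Z : ℝ) ^ D i / 2 := by ring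
              _ ≤ (Q * δ) * (Z : ℝ) ^ D i / 2 := by
                apply div_le_div_of_nonneg_right _ (by norm_num)
                exact mul_le_mul_of_nonneg_right h9 (by positivity)
              _ = Q * (δ * (Z : ℝ) ^ D i / 2) := by ring
              _ ≤ Q * M i := mul_le_mul_of_nonneg_left (by linarith [h1 i]) hQ0.le
          exact_mod_cast h7)
        hYa hYb
        (fun i => u14_ysc (A := A) hδ (hM8 i) (hD i) (hDA i).1 hZ1 (h1 i) (h2 i) hδZ (by linarith))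
        h5 ε c1 ϑ hLv
      refine le_trans (Nat.cast_le.2 (Finset.card_le_card ?_)) hcell
      intro t ht
      rw [mem_filter] at ht ⊢
      obtain ⟨ht1, ht2, htN, ht3⟩ := ht
      refine ⟨ht1, ?_⟩
      have h6 : ∀ i, 0 ≤ (P i).eval (n0 : ℤ) + β i + lf c t i := by
        intro i
        have h7 := (h5 t ht1 i).1
        rw [hβ'] at h7
        have h8 : (0 : ℤ) ≤ M i := by positivity
        have h9 : (P i).eval (n0 : ℤ) + β i + lf c t i = β i + (P i).eval (n0 : ℤ) + lf c t i := by ring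
        rw [h9]
        simp only at h7
        linarith
      have h7 := U11_sys c B P n0 β t ht2 h6
      rw [← hβ'] at h7
      have h8 : RPh X1 (B.comp (X + C (n0 : ℤ))) (fun i => shf n0 (P i)) (hh c β' t) =
          wct (sys B P (hh c β t)) (n0 + X1) X1 := by
        rw [U11_wct, h7, U11_wct_add]
      have h9 : SSf (pr Q) (sys (B.comp (X + C (n0 : ℤ))) (fun i => shf n0 (P i)) (hh c β' t)) =
          SSf (pr Q) (sys B P (hh c β t)) := by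
        rw [h7]
        exact U11_SS (sys B P (hh c β t)) (P2_sys B P (hh c β t)) (pr Q) (n0 : ℤ)
      rw [h8, h9]
      refine ⟨?_, ?_⟩
      · rw [h7]
        intro l hl
        obtain ⟨n, hn⟩ := htN l hl
        refine ⟨n - n0, fun i => ?_⟩
        simp only [add_sub_cancel]
        exact hn i
      · refine lt_of_le_of_lt ?_ ht3
        apply mul_le_mul_of_nonneg_left _ hX1r.le
        have h10 := v14_half hQ0 hQ1r hQc3 h31
        have h11 := v14_half hQ0 hQ1r hQc3 h32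
        linarith)
  refine le_trans (Nat.cast_le.2 (Finset.card_le_card ?_)) (hcov'.trans ?_)
  · intro t ht
    rw [mem_filter] at ht ⊢
    obtain ⟨ht1, ht2, htN, ht3, ht4⟩ := ht
    refine ⟨?_, fun i => ?_, ht2, htN, ht4⟩
    · unfold tb at ht1 ⊢
      rw [Fintype.mem_piFinset] at ht1 ⊢
      intro j
      have h2 := ht1 j
      rw [mem_Ico] at h2 ⊢
      refine ⟨h2.1, h2.2.trans_le ?_⟩
      have h3 : A * Z ^ e j + 1 ≤ Ca * Z ^ e j + 1 := by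
        have : A ≤ Ca := by omega
        have := Nat.mul_le_mul_right (Z ^ e j) this
        omega
      have h4 : ((A * Z ^ e j + 1 : ℕ) : ℤ) ≤ ((Ca * Z ^ e j + 1 : ℕ) : ℤ) := by exact_mod_cast h3
      linarith
    · have h3 := ht3 i
      rw [hβ']
      have h4 : β i + (P i).eval (n0 : ℤ) + lf c t i = (P i).eval (n0 : ℤ) + β i + lf c t i := by ring
      simp only
      rw [h4]
      exact (mul_le_mul_of_nonneg_right hδδ (by positivity)).trans h3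
  · have h1 : (Q : ℝ) ^ (-c2) ≤ (Q : ℝ) ^ (-c3) := Real.rpow_le_rpow_of_exponent_le hQ1r (by linarith)
    calc (Cv : ℝ) * (ϑ + (Q : ℝ) ^ (-c2)) * (Z : ℝ) ^ (∑ j, e j)
        = Cv * (Z : ℝ) ^ (∑ j, e j) * (ϑ + (Q : ℝ) ^ (-c2)) := by ring
      _ ≤ Cv * (Z : ℝ) ^ (∑ j, e j) * (ϑ + (Q : ℝ) ^ (-c3)) :=
        mul_le_mul_of_nonneg_left (by linarith) (by positivity)

end Pool.Agent.H9P
end

-- from Lib.H9P.V16
section

/-!
# ASYP, chunk V16 (M): the core theorem for every large `Z`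
-/

open Finset Polynomial

namespace Pool.Agent.H9P

open Pool.Agent.Lib.H68T Pool.Agent.Lib.H18Q Pool.Agent.Lib.H59P Pool.Agent.Lib.H24P
open Pool.Agent.HUP

/-- The cells. -/
theorem v16_num (Qm Z : ℕ) (ρ θ : ℝ) (hρ : 0 < ρ) (hρθ : ρ ≤ θ / 8) (hθ : θ ≤ 1 / 4) (hQ : 0 < Qm)
    (hZ : 2 * (Qm : ℝ) ≤ ρ * Z) :
    ∃ X1 ja jb : ℕ, Qm ∣ X1 ∧ 0 < X1 ∧ ρ * Z ≤ 2 * X1 ∧ (X1 : ℝ) ≤ ρ * Z ∧ ja ≤ jb ∧
      (((ja + 1) * X1 : ℕ) : ℝ) ≤ θ * Z ∧ (1 - θ) * Z ≤ ((jb + 1) * X1 : ℕ) ∧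
      (((jb + 1) * X1 : ℕ) : ℝ) ≤ (1 - θ / 2) * Z ∧ θ / 4 * Z ≤ ((ja * X1 : ℕ) : ℝ) ∧ (jb : ℝ) ≤ 2 / ρ := by
  have hQr : (0 : ℝ) < Qm := by exact_mod_cast hQ
  have hZr : (0 : ℝ) < Z := by
    rcases Nat.eq_zero_or_pos Z with h | h
    · rw [h, Nat.cast_zero, mul_zero] at hZ
      linarith
    · exact_mod_cast h
  obtain ⟨m, hm⟩ : ∃ m, m = ⌊ρ * Z / Qm⌋₊ := ⟨_, rfl⟩
  have hm1 : (m : ℝ) ≤ ρ * Z / Qm := by rw [hm]; exact Nat.floor_le (by positivity)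
  have hm2 : ρ * Z / Qm < m + 1 := by rw [hm]; exact Nat.lt_floor_add_one _
  have hm3 : (2 : ℝ) ≤ ρ * Z / Qm := by rw [le_div_iff₀ hQr]; linarith
  have hm4 : (m : ℝ) * Qm ≤ ρ * Z := by rwa [le_div_iff₀ hQr] at hm1
  have hm5 : ρ * Z < (m + 1) * Qm := by rwa [div_lt_iff₀ hQr] at hm2
  have hm6 : (1 : ℝ) < m := by linarith
  have hm7 : 0 < m := by exact_mod_cast (by linarith : (0 : ℝ) < m)
  obtain ⟨X1, hX1⟩ : ∃ X1, X1 = Qm * m := ⟨_, rfl⟩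
  have hX1r : (X1 : ℝ) = Qm * m := by rw [hX1]; push_cast; ring
  have hX1p : 0 < X1 := by rw [hX1]; positivity
  have hX1q : (0 : ℝ) < X1 := by exact_mod_cast hX1p
  have hlo : ρ * Z ≤ 2 * X1 := by rw [hX1r]; nlinarith
  have hhi : (X1 : ℝ) ≤ ρ * Z := by rw [hX1r]; linarith
  have hρZ : ρ * Z ≤ θ / 8 * Z := mul_le_mul_of_nonneg_right hρθ hZr.le
  obtain ⟨ja, hja⟩ : ∃ ja, ja = ⌈θ * Z / (4 * X1)⌉₊ := ⟨_, rfl⟩
  have hja1 : θ * Z / (4 * X1) ≤ ja := by rw [hja]; exact Nat.le_ceil _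
  have hθ0 : 0 < θ := by linarith
  have hja2 : (ja : ℝ) < θ * Z / (4 * X1) + 1 := by rw [hja]; exact Nat.ceil_lt_add_one (by positivity)
  have hja3 : θ / 4 * Z ≤ ja * X1 := by
    rw [div_le_iff₀ (by positivity)] at hja1
    linarith
  have hja4 : (ja : ℝ) * X1 ≤ θ / 4 * Z + X1 := by
    have h : ((ja : ℝ) - 1) * (4 * X1) < θ * Z := by
      rw [← lt_div_iff₀ (by positivity)]
      linarith
    linarith
  obtain ⟨jc, hjc⟩ : ∃ jc, jc = ⌊(1 - θ / 2) * Z / X1⌋₊ := ⟨_, rfl⟩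
  have hjc1 : (jc : ℝ) * X1 ≤ (1 - θ / 2) * Z := by
    have h : (jc : ℝ) ≤ (1 - θ / 2) * Z / X1 := by
      rw [hjc]
      refine Nat.floor_le ?_
      apply div_nonneg (mul_nonneg (by linarith) hZr.le) hX1q.le
    rwa [le_div_iff₀ hX1q] at h
  have hjc2 : (1 - θ / 2) * Z < (jc + 1) * X1 := by
    have h : (1 - θ / 2) * Z / X1 < jc + 1 := by rw [hjc]; exact Nat.lt_floor_add_one _
    rwa [div_lt_iff₀ hX1q] at h
  have hjc3 : ja + 1 ≤ jc := by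
    have h1 : ((ja : ℝ) + 1) * X1 < (jc + 1) * X1 := by nlinarith
    have h2 : (ja : ℝ) + 1 < jc + 1 := lt_of_mul_lt_mul_right h1 hX1q.le
    have h3 : ja + 1 < jc + 1 := by exact_mod_cast h2
    omega
  obtain ⟨jb, rfl⟩ : ∃ jb, jc = jb + 1 := ⟨jc - 1, by omega⟩
  push_cast at hjc1 hjc2
  refine ⟨X1, ja, jb, ⟨m, hX1⟩, hX1p, hlo, hhi, by omega, ?_, ?_, ?_, ?_, ?_⟩
  · push_cast
    nlinarith
  · push_cast
    nlinarith
  · push_cast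
    linarith
  · push_cast
    linarith
  · rw [le_div_iff₀ hρ]
    have h1 : ((jb : ℝ) + 1) * X1 ≤ Z := by nlinarith
    have h2 : (jb : ℝ) * (ρ * Z) ≤ jb * (2 * X1) := mul_le_mul_of_nonneg_left hlo (Nat.cast_nonneg _)
    have h3 : (jb : ℝ) * ρ * Z ≤ 2 * Z := by nlinarith
    exact le_of_mul_le_mul_right h3 hZr




/-- Logarithms are small. -/
theorem v16_lg (b : ℝ) (hb : 0 < b) : ∃ Q0 : ℕ, ∀ Q : ℕ, Q0 ≤ Q → 1 + Real.log Q ≤ (Q : ℝ) ^ b := by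
  have h1 : ∀ᶠ x : ℝ in Filter.atTop, Real.log x ≤ 1 / 2 * x ^ b := by
    have h := (isLittleO_log_rpow_atTop hb).bound (by norm_num : (0 : ℝ) < 1 / 2)
    filter_upwards [h, Filter.eventually_ge_atTop 0] with x hx hx0
    rw [Real.norm_eq_abs, Real.norm_eq_abs, abs_of_nonneg (Real.rpow_nonneg hx0 b)] at hx
    exact (le_abs_self _).trans hx
  have h2 : ∀ᶠ x : ℝ in Filter.atTop, 2 ≤ x ^ b := (tendsto_rpow_atTop hb).eventually_ge_atTop 2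
  have h3 : ∀ᶠ Q : ℕ in Filter.atTop, 1 + Real.log Q ≤ (Q : ℝ) ^ b := by
    filter_upwards [tendsto_natCast_atTop_atTop.eventually h1, tendsto_natCast_atTop_atTop.eventually h2] with Q h4 h5
    linarith
  exact Filter.eventually_atTop.1 h3

theorem v16_lgev (K : ℝ) : ∃ Q0 : ℕ, ∀ Q : ℕ, Q0 ≤ Q → K ≤ Real.log Q := by
  have h1 : Filter.Tendsto (fun Q : ℕ => Real.log (Q : ℝ)) Filter.atTop Filter.atTop :=
    Real.tendsto_log_atTop.comp tendsto_natCast_atTop_atTop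
  exact Filter.eventually_atTop.1 (h1.eventually_ge_atTop K)

theorem v16_asy1 (c K C : ℝ) (hc : 0 < c) (hK : 0 < K) (hC : 1 ≤ C) : ∃ Q0 : ℕ, ∀ Q : ℕ, Q0 ≤ Q →
    (Q : ℝ) ^ (-c) ≤ K * (1 + Real.log Q) ^ (-C) := by
  have hC0 : 0 < C := by linarith
  obtain ⟨Q1, h1⟩ := v16_lg (c / 2 / C) (by positivity)
  obtain ⟨Q2, h2⟩ := u14_ev (c / 2) (by positivity) (1 / K)
  refine ⟨Q1 + Q2 + 1, fun Q hQ => ?_⟩
  have hQ0 : (0 : ℝ) < Q := by exact_mod_cast (by omega : 0 < Q)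
  have hQ1 : (1 : ℝ) ≤ Q := by exact_mod_cast (by omega : 1 ≤ Q)
  have hl : 0 ≤ Real.log Q := Real.log_nonneg hQ1
  have h3 := h1 Q (by omega)
  have h4 := h2 Q (by omega)
  have h5 : (1 + Real.log Q) ^ C ≤ (Q : ℝ) ^ (c / 2) := by
    calc (1 + Real.log Q) ^ C ≤ ((Q : ℝ) ^ (c / 2 / C)) ^ C := Real.rpow_le_rpow (by linarith) h3 hC0.le
      _ = (Q : ℝ) ^ (c / 2) := by
        rw [← Real.rpow_mul hQ0.le]
        congr 1
        field_simp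
  have h6 : 0 < (1 + Real.log Q) ^ C := Real.rpow_pos_of_pos (by linarith) C
  have h7 : 0 < (Q : ℝ) ^ (c / 2) := Real.rpow_pos_of_pos hQ0 _
  rw [Real.rpow_neg hQ0.le, Real.rpow_neg (by linarith)]
  have h8 : (Q : ℝ) ^ c = (Q : ℝ) ^ (c / 2) * (Q : ℝ) ^ (c / 2) := by
    rw [← Real.rpow_add hQ0]
    congr 1
    ring
  rw [h8, mul_inv]
  have h9 : ((Q : ℝ) ^ (c / 2))⁻¹ ≤ K := by
    rw [inv_le_comm₀ h7 hK, ← one_div]
    exact h4
  exact mul_le_mul h9 (inv_anti₀ h6 h5) (by positivity) hK.le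

theorem v16_asy2 (a c2 c3 c4 C : ℝ) (ha : 0 ≤ a) (hc2 : 0 < c2) (hc3 : 0 < c3) (hc4 : 0 < c4) (hC : 1 ≤ C) :
    ∃ Q0 : ℕ, ∀ Q Z : ℕ, Q0 ≤ Q → 0 < Real.log Z → Real.log Z ≤ C * Real.log Q →
    a * ((Real.log Q) ^ (-c2) + (Q : ℝ) ^ (-c3)) + (Q : ℝ) ^ (-c4) ≤ (Real.log Z) ^ (-(c2 / 2)) := by
  have key : ∀ c : ℝ, 0 < c → ∃ Q0 : ℕ, ∀ Q : ℕ, Q0 ≤ Q → (Q : ℝ) ^ (-c) ≤ (Real.log Q) ^ (-c2) := by
    intro c hc
    obtain ⟨Q1, h1⟩ := v16_lg (c / c2) (by positivity)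
    obtain ⟨Q2, h2⟩ := v16_lgev 1
    refine ⟨Q1 + Q2 + 1, fun Q hQ => ?_⟩
    have hQ0 : (0 : ℝ) < Q := by exact_mod_cast (by omega : 0 < Q)
    have h3 := h1 Q (by omega)
    have h4 := h2 Q (by omega)
    have hl : 0 < Real.log Q := by linarith
    rw [Real.rpow_neg hQ0.le, Real.rpow_neg hl.le]
    refine inv_anti₀ (Real.rpow_pos_of_pos hl _) ?_
    calc (Real.log Q) ^ c2 ≤ ((Q : ℝ) ^ (c / c2)) ^ c2 := Real.rpow_le_rpow hl.le (by linarith) hc2.le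
      _ = (Q : ℝ) ^ c := by
        rw [← Real.rpow_mul hQ0.le]
        congr 1
        field_simp
  obtain ⟨Q3, h3⟩ := key c3 hc3
  obtain ⟨Q4, h4⟩ := key c4 hc4
  have hC0 : 0 < C := by linarith
  have ht : Filter.Tendsto (fun Q : ℕ => (Real.log (Q : ℝ)) ^ (c2 / 2)) Filter.atTop Filter.atTop :=
    (tendsto_rpow_atTop (by positivity)).comp (Real.tendsto_log_atTop.comp tendsto_natCast_atTop_atTop)
  obtain ⟨Q5, h5⟩ := Filter.eventually_atTop.1 (ht.eventually_ge_atTop ((2 * a + 1) * C ^ (c2 / 2)))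
  obtain ⟨Q6, h6⟩ := v16_lgev 1
  refine ⟨Q3 + Q4 + Q5 + Q6 + 1, fun Q Z hQ hZ hZQ => ?_⟩
  have g3 := h3 Q (by omega)
  have g4 := h4 Q (by omega)
  have g5 : (2 * a + 1) * C ^ (c2 / 2) ≤ (Real.log (Q : ℝ)) ^ (c2 / 2) := h5 Q (by omega)
  have g6 := h6 Q (by omega)
  have hl : 0 < Real.log Q := by linarith
  have hp : 0 < (Real.log Q) ^ (c2 / 2) := Real.rpow_pos_of_pos hl _
  have hCp : 0 < C ^ (c2 / 2) := Real.rpow_pos_of_pos hC0 _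
  have h7 : a * ((Real.log Q) ^ (-c2) + (Q : ℝ) ^ (-c3)) + (Q : ℝ) ^ (-c4) ≤ (2 * a + 1) * (Real.log Q) ^ (-c2) := by
    have := mul_le_mul_of_nonneg_left g3 ha
    linarith
  have h8 : (Real.log Q) ^ (-c2) = ((Real.log Q) ^ (c2 / 2))⁻¹ * ((Real.log Q) ^ (c2 / 2))⁻¹ := by
    rw [← Real.rpow_neg hl.le, ← Real.rpow_add hl]
    congr 1
    ring
  have h9 : (2 * a + 1) * ((Real.log Q) ^ (c2 / 2))⁻¹ ≤ (C ^ (c2 / 2))⁻¹ := by
    rw [← div_eq_mul_inv, div_le_iff₀ hp, ← div_eq_inv_mul, le_div_iff₀ hCp]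
    exact g5
  calc a * ((Real.log Q) ^ (-c2) + (Q : ℝ) ^ (-c3)) + (Q : ℝ) ^ (-c4) ≤ (2 * a + 1) * (Real.log Q) ^ (-c2) := h7
    _ = (2 * a + 1) * ((Real.log Q) ^ (c2 / 2))⁻¹ * ((Real.log Q) ^ (c2 / 2))⁻¹ := by rw [h8]; ring
    _ ≤ (C ^ (c2 / 2))⁻¹ * ((Real.log Q) ^ (c2 / 2))⁻¹ := mul_le_mul_of_nonneg_right h9 (by positivity)
    _ = (C * Real.log Q) ^ (-(c2 / 2)) := by
      rw [Real.rpow_neg (by positivity), Real.mul_rpow hC0.le hl.le, mul_inv]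
    _ ≤ (Real.log Z) ^ (-(c2 / 2)) := by
      rw [Real.rpow_neg (by positivity), Real.rpow_neg hZ.le]
      exact inv_anti₀ (Real.rpow_pos_of_pos hZ _) (Real.rpow_le_rpow hZ.le hZQ (by positivity))


theorem v16_siv {Q Z : ℕ} {Ks r x : ℝ} (hr : 0 < r) (hQ : 1 ≤ r * Q) (hZ : (Ks + 1) * Real.log Q ≤ Real.log Z)
    (hZ0 : 0 < Z) (hx : r * Z ≤ x) : Ks * Real.log Q ≤ Real.log x := by
  have hZr : (0 : ℝ) < Z := by exact_mod_cast hZ0
  have hQ0 : (0 : ℝ) < Q := by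
    rcases Nat.eq_zero_or_pos Q with h | h
    · rw [h, Nat.cast_zero, mul_zero] at hQ
      linarith
    · exact_mod_cast h
  have h1 : 0 ≤ Real.log r + Real.log Q := by
    rw [← Real.log_mul hr.ne' hQ0.ne']
    exact Real.log_nonneg hQ
  have h2 : Real.log r + Real.log Z ≤ Real.log x := by
    rw [← Real.log_mul hr.ne' hZr.ne']
    exact Real.log_le_log (by positivity) hx
  linarith

theorem v16_tb {d : ℕ} (e : Fin d → ℕ) {A A' Z : ℕ} (h : A ≤ A') :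
    tb 0 (fun j => A * Z ^ e j + 1) ⊆ tb 0 (fun j => A' * Z ^ e j + 1) := by
  intro t ht
  refine Fintype.mem_piFinset.2 fun j => ?_
  have h1 := Fintype.mem_piFinset.1 ht j
  rw [mem_Ico] at h1 ⊢
  refine ⟨h1.1, h1.2.trans_le ?_⟩
  have h2 : A * Z ^ e j ≤ A' * Z ^ e j := Nat.mul_le_mul_right _ h
  have h3 : ((A * Z ^ e j + 1 : ℕ) : ℤ) ≤ ((A' * Z ^ e j + 1 : ℕ) : ℤ) := by exact_mod_cast (by omega)
  linarith


end Pool.Agent.H9P
end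

-- from Lib.HLA.W16C
section

/-!
# LOGA, chunk W16C (S/M): the symmetric box as a shifted one
-/

open Finset Polynomial

namespace Pool.Agent.HLA

open Pool.Agent.Lib.H68T Pool.Agent.Lib.H18Q Pool.Agent.Lib.H59P Pool.Agent.Lib.H24P
open Pool.Agent.HUP Pool.Agent.H9P
open Pool.Agent.Lib.H59 (argSet argCount Admissible primeCount omegaN seriesTrunc)

/-- The symmetric box as a shifted one. Proof. As in `Z0_box` (`HUP/Z0.lean`): `t = t' - A Z^e`, `0 ≤ t' ≤ 2 A Z^e`, `β' = β - ψ(A Z^e)`, `|β'_i| ≤ A' Z^(D_i)` (`z0_abs`), `β_i + ψ_i(t) = β'_i + ψ_i(t')`, `hh c β t = hh c β' t'`. -/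
theorem W16_box {k d : ℕ} (c : Fin k → Fin d → ℤ) (e : Fin d → ℕ) (D : Fin k → ℕ) (hB : ∀ i j, c i j ≠ 0 → e j = D i) (A : ℕ) :
    ∃ A' : ℕ, A ≤ A' ∧ ∀ (Z : ℕ) (β : Fin k → ℤ), (∀ i, |β i| ≤ A * (Z : ℤ) ^ D i) → ∃ β' : Fin k → ℤ,
      (∀ i, |β' i| ≤ A' * (Z : ℤ) ^ D i) ∧ ∀ (R : (Fin k → ℤ) → Prop) [DecidablePred R],
      ((BoxT A Z e).filter fun t => R (fun i => β i + lf c t i)).card ≤
        ((tb 0 fun j => A' * Z ^ e j + 1).filter fun t => R (fun i => β' i + lf c t i)).card := by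
  classical
  obtain ⟨S, hS⟩ : ∃ S : ℕ, S = ∑ i, ∑ j, (c i j).natAbs := ⟨_, rfl⟩
  obtain ⟨A', hA'⟩ : ∃ A' : ℕ, A' = 2 * A * (1 + S) := ⟨_, rfl⟩
  have hAA : A ≤ A' := by
    rw [hA']
    nlinarith [Nat.zero_le (A * S)]
  have hAA2 : 2 * A ≤ A' := by
    rw [hA']
    nlinarith [Nat.zero_le (A * S)]
  refine ⟨A', hAA, ?_⟩
  intro Z β hβ
  set s : Fin d → ℤ := fun j => ((A * Z ^ e j : ℕ) : ℤ) with hs
  set β' : Fin k → ℤ := fun i => β i - lf c s i with hβ'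
  have hval : ∀ (t : Fin d → ℤ) (i : Fin k), β' i + lf c (fun j => t j + s j) i = β i + lf c t i := by
    intro t i
    rw [z0_add, hβ']
    ring
  refine ⟨β', ?_, ?_⟩
  · intro i
    have e1 := hβ i
    have e2 := z0_abs c e i (D i) A Z (fun j hj => hB i j hj)
    have e3 : |β' i| ≤ |β i| + |lf c s i| := by
      rw [hβ']
      exact abs_sub _ _
    have e4 : (∑ j, |c i j|) ≤ (S : ℤ) := by
      have e5 : (∑ j, (c i j).natAbs) ≤ S := by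
        rw [hS]
        exact Finset.single_le_sum (f := fun i => ∑ j, (c i j).natAbs) (fun _ _ => Nat.zero_le _)
          (Finset.mem_univ i)
      have e6 : ((∑ j, (c i j).natAbs : ℕ) : ℤ) = ∑ j, |c i j| := by
        push_cast
        rfl
      rw [← e6]
      exact_mod_cast e5
    have hA0 : (0 : ℤ) ≤ A := Int.natCast_nonneg _
    have hZ0 : (0 : ℤ) ≤ (Z : ℤ) ^ (D i) := pow_nonneg (Int.natCast_nonneg _) _
    have e7 : (A : ℤ) * (∑ j, |c i j|) * (Z : ℤ) ^ (D i) ≤ (A : ℤ) * S * (Z : ℤ) ^ (D i) :=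
      mul_le_mul_of_nonneg_right (mul_le_mul_of_nonneg_left e4 hA0) hZ0
    have e8 : (A : ℤ) * (Z : ℤ) ^ (D i) + (A : ℤ) * S * (Z : ℤ) ^ (D i) ≤
        (A' : ℤ) * (Z : ℤ) ^ (D i) := by
      have e9 : (A' : ℤ) = 2 * ((A : ℤ) * (1 + S)) := by
        rw [hA']
        push_cast
        ring
      have e10 : 0 ≤ ((A : ℤ) * (1 + S)) * (Z : ℤ) ^ (D i) :=
        mul_nonneg (mul_nonneg hA0 (by positivity)) hZ0
      rw [e9]
      linarith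
    linarith
  · intro R hR
    refine Finset.card_le_card_of_injOn (fun t j => t j + s j) ?_ ?_
    · intro t ht
      rw [Finset.mem_coe, Finset.mem_filter] at ht ⊢
      obtain ⟨hbox, h0⟩ := ht
      refine ⟨?_, ?_⟩
      · unfold BoxT at hbox
        unfold tb
        rw [Fintype.mem_piFinset] at hbox ⊢
        intro j
        have e1 := Finset.mem_Icc.mp (hbox j)
        rw [Finset.mem_Ico]
        have e2 : ((A * Z ^ e j : ℕ) : ℤ) + ((A * Z ^ e j : ℕ) : ℤ) ≤ ((A' * Z ^ e j : ℕ) : ℤ) := by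
          have e3 : A * Z ^ e j + A * Z ^ e j ≤ A' * Z ^ e j := by
            calc A * Z ^ e j + A * Z ^ e j = 2 * A * Z ^ e j := by ring
              _ ≤ A' * Z ^ e j := Nat.mul_le_mul_right _ hAA2
          exact_mod_cast e3
        have e4 : s j = ((A * Z ^ e j : ℕ) : ℤ) := rfl
        have e5 : ((0 : Fin d → ℤ) j) = 0 := rfl
        refine ⟨?_, ?_⟩
        · change (0 : Fin d → ℤ) j ≤ t j + s j
          rw [e4, e5]
          linarith [e1.1]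
        · change t j + s j < (0 : Fin d → ℤ) j + ((A' * Z ^ e j + 1 : ℕ) : ℤ)
          rw [e4, e5]
          push_cast at e1 e2 ⊢
          linarith [e1.2]
      · have h1 : (fun i => β' i + lf c (fun j => t j + s j) i) = fun i => β i + lf c t i :=
          funext fun i => hval t i
        change R (fun i => β' i + lf c (fun j => t j + s j) i)
        rw [h1]
        exact h0
    · intro t _ t' _ h
      funext j
      have e1 := congrFun h j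
      exact add_right_cancel e1

end Pool.Agent.HLA
end

-- from Lib.HLA.W16
section

/-!
# LOGA, chunk W16 (M): sizes of the values of `N - G(n)`
-/

open Finset Polynomial

namespace Pool.Agent.HLA

open Pool.Agent.Lib.H68T Pool.Agent.Lib.H18Q Pool.Agent.Lib.H59P Pool.Agent.Lib.H24P
open Pool.Agent.HUP Pool.Agent.H9P
open Pool.Agent.Lib.H59 (argSet argCount Admissible primeCount omegaN seriesTrunc)

theorem w16_asym (G : ℤ[X]) (hl : 0 < G.leadingCoeff) (ε : ℝ) (hε : 0 < ε) :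
    ∃ n0 : ℕ, ∀ n : ℕ, n0 ≤ n → (1 - ε) * (G.leadingCoeff : ℝ) * (n : ℝ) ^ G.natDegree ≤ ((G.eval (n : ℤ) : ℤ) : ℝ) ∧
      ((G.eval (n : ℤ) : ℤ) : ℝ) ≤ (1 + ε) * (G.leadingCoeff : ℝ) * (n : ℝ) ^ G.natDegree := by
  have hg : (0 : ℝ) < G.leadingCoeff := by exact_mod_cast hl
  have h1 := Pool.Agent.Lib.H33B.AC_ratio G
  have h2 := h1.eventually (gt_mem_nhds (show (G.leadingCoeff : ℝ) < (1 + ε) * G.leadingCoeff by nlinarith))
  have h3 := h1.eventually (lt_mem_nhds (show (1 - ε) * G.leadingCoeff < (G.leadingCoeff : ℝ) by nlinarith))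
  obtain ⟨n0, hn0⟩ := Filter.eventually_atTop.1 (h2.and (h3.and (Filter.eventually_ge_atTop 1)))
  refine ⟨n0, fun n hn => ?_⟩
  obtain ⟨a, b, c⟩ := hn0 n hn
  have hn1 : (0 : ℝ) < n := by exact_mod_cast c
  have hp : (0 : ℝ) < (n : ℝ) ^ G.natDegree := by positivity
  rw [div_lt_iff₀ hp] at a
  rw [lt_div_iff₀ hp] at b
  exact ⟨b.le, a.le⟩

theorem w16_bdd (G : ℤ[X]) (n0 : ℕ) : ∃ C : ℝ, 0 ≤ C ∧ ∀ n : ℕ, n ≤ n0 → |((G.eval (n : ℤ) : ℤ) : ℝ)| ≤ C := by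
  refine ⟨∑ n ∈ Finset.range (n0 + 1), |((G.eval (n : ℤ) : ℤ) : ℝ)|,
    Finset.sum_nonneg fun _ _ => abs_nonneg _, fun n hn => ?_⟩
  exact Finset.single_le_sum (f := fun n : ℕ => |((G.eval (n : ℤ) : ℤ) : ℝ)|)
    (fun _ _ => abs_nonneg _) (Finset.mem_range.2 (by omega))

theorem w16_lower (G : ℤ[X]) (hG : 1 ≤ G.natDegree) (hl : 0 < G.leadingCoeff) (θ : ℝ) (hθ : 0 < θ) (hθ1 : θ ≤ 1 / 2) :
    ∃ Z0 : ℕ, 1 ≤ Z0 ∧ ∀ Z' n : ℕ, Z0 ≤ Z' → (n : ℝ) ≤ (1 - θ) * Z' →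
      θ / 2 * (G.leadingCoeff : ℝ) * (Z' : ℝ) ^ G.natDegree ≤
        ((G.eval (Z' : ℤ) : ℤ) : ℝ) - ((G.eval (n : ℤ) : ℤ) : ℝ) := by
  obtain ⟨n0, hn0⟩ := w16_asym G hl (θ / 4) (by linarith)
  obtain ⟨C, hC0, hC⟩ := w16_bdd G n0
  have hg : (1 : ℝ) ≤ G.leadingCoeff := by exact_mod_cast hl
  refine ⟨n0 + ⌈2 * C⌉₊ + 1, by omega, fun Z' n hZ' hn => ?_⟩
  have hZ1 : (n0 : ℝ) + ⌈2 * C⌉₊ + 1 ≤ Z' := by exact_mod_cast hZ'
  have hc := Nat.le_ceil (2 * C)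
  have hn00 : (0 : ℝ) ≤ n0 := Nat.cast_nonneg _
  have hZC : 2 * C ≤ Z' := by linarith
  have hZ1' : (1 : ℝ) ≤ Z' := by
    have : (0 : ℝ) ≤ (⌈2 * C⌉₊ : ℝ) := Nat.cast_nonneg _
    linarith
  have hZp : (Z' : ℝ) ≤ (Z' : ℝ) ^ G.natDegree := le_self_pow₀ hZ1' (by omega)
  obtain ⟨a, -⟩ := hn0 Z' (by omega)
  set W : ℝ := (Z' : ℝ) ^ G.natDegree with hW
  have hW0 : 0 < W := by linarith
  set g : ℝ := (G.leadingCoeff : ℝ) with hgd
  have hgW : W ≤ g * W := by nlinarith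
  rcases Nat.lt_or_ge n n0 with h | h
  · have h1 := (abs_le.1 (hC n h.le)).2
    have h2 : (1 - θ / 4 - θ / 2) * (g * W) ≥ 1 / 2 * (g * W) := by
      refine mul_le_mul_of_nonneg_right ?_ (by positivity)
      linarith
    nlinarith
  · obtain ⟨-, b⟩ := hn0 n h
    have h3 : (n : ℝ) ^ G.natDegree ≤ (1 - θ) * W := by
      calc (n : ℝ) ^ G.natDegree ≤ ((1 - θ) * Z') ^ G.natDegree :=
            pow_le_pow_left₀ (Nat.cast_nonneg _) hn _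
        _ = (1 - θ) ^ G.natDegree * W := by rw [mul_pow]
        _ ≤ (1 - θ) * W := by
            refine mul_le_mul_of_nonneg_right ?_ hW0.le
            exact pow_le_of_le_one (by linarith) (by linarith) (by omega)
    have h4 : (1 + θ / 4) * g * (n : ℝ) ^ G.natDegree ≤ (1 + θ / 4) * g * ((1 - θ) * W) :=
      mul_le_mul_of_nonneg_left h3 (by positivity)
    have h5 : 0 ≤ θ * θ * (g * W) := by positivity
    nlinarith

theorem w16_low0 (G : ℤ[X]) (hl : 0 < G.leadingCoeff) : ∃ C : ℝ, 0 ≤ C ∧ ∀ n : ℕ,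
    -C ≤ ((G.eval (n : ℤ) : ℤ) : ℝ) := by
  obtain ⟨n0, hn0⟩ := w16_asym G hl 1 one_pos
  obtain ⟨C, hC0, hC⟩ := w16_bdd G n0
  refine ⟨C, hC0, fun n => ?_⟩
  rcases Nat.le_total n n0 with h | h
  · exact (abs_le.1 (hC n h)).1
  · obtain ⟨a, -⟩ := hn0 n h
    rw [sub_self, zero_mul, zero_mul] at a
    linarith

/-- **W16b.** The coordinate `N - G(n)` for the `N` between `κ Y` and `Y`, in terms of `Z = argCount G Y`. Proof. `g = lc G ≥ 1`, `h = deg G`. `argSet_eq` (`H59`): `argSet G N = Icc 1 (argCount G N)` for `N` large; `argCount G N ~ (N/g)^(1/h)`: so `Z' = argCount G N ≥ κ' Z` with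
`κ' = (κ/4)^(1/h)/2`, or by `G(n) ≤ 2 g n^h` and `G(n) ≥ (g/2) n^h` for large `n`; monotone in `N` (`Z' ≤ Z`). For `n ≤ (1 - θ) Z'`: `N > G(Z')`, and `G(Z') - G(n) ≥ (g θ/2) Z'^h` for `Z'` large in terms of `θ` (`G(n) ≤ g n^h + C n^(h-1)`,
`G(Z') ≥ g Z'^h - C Z'^(h-1)`, `1 - (1-θ)^h ≥ θ`; for small `n` the value `G(n)` is bounded). Upper bound: `N ≤ Y ≤ G(Z + 1) ≤ 2^(h+1) g Z^h` (`fc_Y` in `H24P/FC.lean`), `|G(n)| ≤ C` for the `n` with `G(n) < 0`. -/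
theorem W16_G (G : ℤ[X]) (hG : 1 ≤ G.natDegree) (hl : 0 < G.leadingCoeff) (κ : ℝ) (hκ : 0 < κ) :
    ∃ (κ' : ℝ) (A' : ℕ), 0 < κ' ∧ (∀ θ : ℝ, 0 < θ → ∃ v : ℝ, 0 < v ∧ ∃ Y0 : ℕ, ∀ Y N : ℕ, Y0 ≤ Y → κ * Y ≤ N → N ≤ Y →
      argSet G N = ((Icc 1 (argCount G N) : Finset ℕ) : Set ℕ) ∧ argCount G N ≤ argCount G Y ∧
      κ' * argCount G Y ≤ argCount G N ∧ ∀ n : ℕ, (n : ℝ) ≤ (1 - θ) * argCount G N →
        v * (argCount G Y : ℝ) ^ G.natDegree ≤ (((N : ℤ) - G.eval (n : ℤ) : ℤ) : ℝ) ∧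
        (((N : ℤ) - G.eval (n : ℤ) : ℤ) : ℝ) ≤ A' * (argCount G Y : ℝ) ^ G.natDegree) ∧
    ∃ Y0 : ℕ, ∀ Y : ℕ, Y0 ≤ Y → (Y : ℝ) ≤ A' * (argCount G Y : ℝ) ^ G.natDegree ∧
      (argCount G Y : ℝ) ^ G.natDegree ≤ A' * Y := by
  have hg : (1 : ℝ) ≤ G.leadingCoeff := by exact_mod_cast hl
  have hna : ((G.leadingCoeff.natAbs : ℕ) : ℝ) = G.leadingCoeff := by
    have h2 : ((G.leadingCoeff.natAbs : ℕ) : ℤ) = G.leadingCoeff := Int.natAbs_of_nonneg hl.le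
    rw [← Int.cast_natCast, h2]
  obtain ⟨Yf, hYf⟩ := Filter.eventually_atTop.1 (fc_Y G hG hl)
  rw [hna] at hYf
  obtain ⟨Ym, hYm⟩ := Pool.Agent.Lib.H33B.AC_mono G hG hl
  obtain ⟨Ns, hNs⟩ := Filter.eventually_atTop.1 (Pool.Agent.Lib.H59.argSet_eq hG hl)
  obtain ⟨C, hC0, hC⟩ := w16_low0 G hl
  set g : ℝ := (G.leadingCoeff : ℝ) with hgd
  have hg0 : 0 < g := by linarith
  have hκ'0 : 0 < min 1 (κ / (4 * g)) := lt_min one_pos (by positivity)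
  refine ⟨min 1 (κ / (4 * g)), 4 * G.leadingCoeff.natAbs, hκ'0, ?_, ?_⟩
  · intro θ hθ
    have hθ' : 0 < min θ (1 / 2) := lt_min hθ (by norm_num)
    obtain ⟨Z0, hZ01, hZ0⟩ := w16_lower G hG hl (min θ (1 / 2)) hθ' (min_le_right _ _)
    obtain ⟨Nt, hNt⟩ := Filter.eventually_atTop.1
      ((Pool.Agent.Lib.H59.argCount_tendsto hG hl).eventually_ge_atTop Z0)
    refine ⟨min θ (1 / 2) / 2 * (min 1 (κ / (4 * g))) ^ G.natDegree, by positivity,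
      Yf + Ym + ⌈C⌉₊ + ⌈((Yf + Ns + Nt : ℕ) : ℝ) / κ⌉₊, ?_⟩
    intro Y N hY hN hNY
    have hYc : ((Yf + Ns + Nt : ℕ) : ℝ) / κ ≤ Y := by
      refine (Nat.le_ceil _).trans ?_
      exact_mod_cast (show ⌈((Yf + Ns + Nt : ℕ) : ℝ) / κ⌉₊ ≤ Y by omega)
    have hN1 : Yf + Ns + Nt ≤ N := by
      rw [div_le_iff₀ hκ] at hYc
      have : ((Yf + Ns + Nt : ℕ) : ℝ) ≤ N := by linarith
      exact_mod_cast this
    have hset := hNs N (by omega)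
    have hcount := hNt N (by omega)
    obtain ⟨a1, a2⟩ := hYf Y (by omega)
    obtain ⟨b1, b2⟩ := hYf N (by omega)
    have hCY : C ≤ Y := (Nat.le_ceil _).trans (by exact_mod_cast (show ⌈C⌉₊ ≤ Y by omega))
    have hk : (min 1 (κ / (4 * g)) * (argCount G Y : ℝ)) ^ G.natDegree ≤ (argCount G N : ℝ) ^ G.natDegree := by
      have h1 : min 1 (κ / (4 * g)) ^ G.natDegree ≤ κ / (4 * g) :=
        (pow_le_of_le_one hκ'0.le (min_le_left _ _) (by omega)).trans (min_le_right _ _)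
      have h2 : κ * Y / (2 * g) ≤ (argCount G N : ℝ) ^ G.natDegree := by
        rw [div_le_iff₀ (by positivity)]
        linarith
      have h3 : κ / (4 * g) * (argCount G Y : ℝ) ^ G.natDegree ≤ κ * Y / (2 * g) := by
        calc κ / (4 * g) * (argCount G Y : ℝ) ^ G.natDegree ≤ κ / (4 * g) * (2 * Y) :=
              mul_le_mul_of_nonneg_left a1 (by positivity)
          _ = κ * Y / (2 * g) := by
              field_simp
              ring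
      rw [mul_pow]
      exact (mul_le_mul_of_nonneg_right h1 (by positivity)).trans (h3.trans h2)
    have hk' : min 1 (κ / (4 * g)) * (argCount G Y : ℝ) ≤ argCount G N :=
      le_of_pow_le_pow_left₀ (by omega) (Nat.cast_nonneg _) hk
    refine ⟨hset, hYm N Y (by omega) hNY, hk', fun n hn => ?_⟩
    have hmem : argCount G N ∈ argSet G N := by
      rw [hset]
      exact Finset.mem_coe.2 (Finset.mem_Icc.2 ⟨by omega, le_rfl⟩)
    have hGN : 0 < (N : ℤ) - G.eval ((argCount G N : ℕ) : ℤ) := hmem.2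
    have hGN' : ((G.eval ((argCount G N : ℕ) : ℤ) : ℤ) : ℝ) < N := by
      have : G.eval ((argCount G N : ℕ) : ℤ) < (N : ℤ) := by linarith
      exact_mod_cast this
    have hcast : (((N : ℤ) - G.eval (n : ℤ) : ℤ) : ℝ) = (N : ℝ) - ((G.eval (n : ℤ) : ℤ) : ℝ) := by
      push_cast
      ring
    rw [hcast]
    constructor
    · have h6 := hZ0 (argCount G N) n hcount (hn.trans (by
        refine mul_le_mul_of_nonneg_right ?_ (Nat.cast_nonneg _)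
        linarith [min_le_left θ (1 / 2)]))
      have h7 : min θ (1 / 2) / 2 * (min 1 (κ / (4 * g))) ^ G.natDegree * (argCount G Y : ℝ) ^ G.natDegree ≤
          min θ (1 / 2) / 2 * g * (argCount G N : ℝ) ^ G.natDegree := by
        rw [mul_pow] at hk
        have h8 : (0 : ℝ) ≤ (argCount G N : ℝ) ^ G.natDegree := by positivity
        calc min θ (1 / 2) / 2 * (min 1 (κ / (4 * g))) ^ G.natDegree * (argCount G Y : ℝ) ^ G.natDegree
            = min θ (1 / 2) / 2 * ((min 1 (κ / (4 * g))) ^ G.natDegree * (argCount G Y : ℝ) ^ G.natDegree) := by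
              ring
          _ ≤ min θ (1 / 2) / 2 * (g * (argCount G N : ℝ) ^ G.natDegree) := by
              refine mul_le_mul_of_nonneg_left (hk.trans ?_) (by positivity)
              nlinarith
          _ = _ := by ring
      linarith
    · have h9 := hC n
      have h10 : (N : ℝ) ≤ Y := by exact_mod_cast hNY
      push_cast
      rw [hna]
      linarith
  · refine ⟨Yf, fun Y hY => ?_⟩
    obtain ⟨a1, a2⟩ := hYf Y hY
    push_cast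
    rw [hna]
    have hp : (0 : ℝ) ≤ (argCount G Y : ℝ) ^ G.natDegree := by positivity
    have hY0 : (0 : ℝ) ≤ Y := Nat.cast_nonneg _
    constructor
    · nlinarith [mul_nonneg hg0.le hp]
    · nlinarith

end Pool.Agent.HLA
end

-- from Lib.HLA.W17
section

/-!
# LOGA, chunk W17 (M): `G` linear, EVERY large `N`, in terms of the problem
-/

open Finset Polynomial

namespace Pool.Agent.HLA

open Pool.Agent.Lib.H68T Pool.Agent.Lib.H18Q Pool.Agent.Lib.H59P Pool.Agent.Lib.H24P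
open Pool.Agent.HUP Pool.Agent.H9P
open Pool.Agent.Lib.H59 (argSet argCount Admissible primeCount omegaN seriesTrunc)

/-- The forms on the box. -/
theorem w17_lf {k d : ℕ} (c : Fin k → Fin d → ℤ) (e : Fin d → ℕ) (D : Fin k → ℕ) (h : ∀ i j, c i j ≠ 0 → e j = D i)
    (A Z : ℕ) (t : Fin d → ℤ) (ht : t ∈ BoxT A Z e) (i : Fin k) :
    lf c t i ≤ A * ((∑ i, ∑ j, (c i j).natAbs : ℕ) : ℤ) * (Z : ℤ) ^ D i := by
  unfold lf
  have h1 : ∀ j, c i j * t j ≤ A * ((c i j).natAbs : ℤ) * (Z : ℤ) ^ D i := by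
    intro j
    unfold BoxT at ht
    rw [Fintype.mem_piFinset] at ht
    have h2 := ht j
    rw [mem_Icc] at h2
    by_cases hj : c i j = 0
    · rw [hj]
      simp
    · rw [h i j hj] at h2
      have h3 : |t j| ≤ ((A * Z ^ D i : ℕ) : ℤ) := abs_le.2 h2
      calc c i j * t j ≤ |c i j * t j| := le_abs_self _
        _ = |c i j| * |t j| := abs_mul _ _
        _ ≤ |c i j| * ((A * Z ^ D i : ℕ) : ℤ) := mul_le_mul_of_nonneg_left h3 (abs_nonneg _)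
        _ = _ := by
          rw [Int.natCast_natAbs]
          push_cast
          ring
  calc ∑ j, c i j * t j ≤ ∑ j, A * ((c i j).natAbs : ℤ) * (Z : ℤ) ^ D i := sum_le_sum fun j _ => h1 j
    _ = A * (∑ j, ((c i j).natAbs : ℤ)) * (Z : ℤ) ^ D i := by rw [mul_sum, sum_mul]
    _ ≤ _ := by
      have h2 : ∑ j, ((c i j).natAbs : ℤ) ≤ ((∑ i, ∑ j, (c i j).natAbs : ℕ) : ℤ) := by
        rw [Nat.cast_sum]
        have h3 := single_le_sum (f := fun i => ((∑ j, (c i j).natAbs : ℕ) : ℤ)) (s := univ) (fun _ _ => by positivity) (mem_univ i)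
        refine le_trans (le_of_eq ?_) h3
        push_cast
        rfl
      exact mul_le_mul_of_nonneg_right (mul_le_mul_of_nonneg_left h2 (by positivity)) (by positivity)

/-- The linear coordinate. -/
theorem w17_eval {A Z : ℕ} {B : ℤ[X]} (hB : Dec A Z B) (n : ℕ) (hn : n ≤ Z) :
    (Z : ℤ) - n + 1 ≤ B.eval (n : ℤ) ∧ B.eval (n : ℤ) ≤ A * ((Z : ℤ) + 1 - n) := by
  have hev : ∀ x : ℤ, B.eval x = B.coeff 0 + B.coeff 1 * x := by
    intro x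
    rw [eval_eq_sum_range, hB.deg, sum_range_succ, sum_range_one]
    ring
  have hlc : B.leadingCoeff = B.coeff 1 := by rw [leadingCoeff, hB.deg]
  have h1 := hB.neg
  have h2 := hB.pos
  have h3 := hB.last
  have h4 := hB.lc
  rw [hlc] at h1 h4
  rw [hev] at h2 h3 ⊢
  have h5 : -B.coeff 1 ≤ A := by
    have : (B.coeff 1).natAbs = -B.coeff 1 := by omega
    omega
  have h6 : (0 : ℤ) ≤ (Z : ℤ) - n := by
    have : (n : ℤ) ≤ Z := by exact_mod_cast hn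
    linarith
  constructor
  · nlinarith
  · nlinarith

/-- **W17.** Proof. `Z = argCount G N`, `B = N - G` (`U17_dec`: degree `1`, leading coefficient `- lc G`, `argSet G N = Icc 1 Z`, `B(Z) > 0 ≥ B(Z+1)`), `Z' = Z`, `κ = 1`. `δ1' = δ1` of `ACore` (for the data `hD`). Given `A`: `A1` = maximum of `A`, the constant of `W16_box`, `lc G`, the constants
of `W16_P`, and `C` with `B(n) ≤ C Z` on `[1, Z]`; `ACore` with `A1`, `ε`, `κ = 1`, `vf θ = min (v of W16_P) θ` (chosen with `Classical.choice`). `Reg A1 1 θ (vf θ) Z Z D (sys B P (hh c β t))`: `B(n) ≥ lc G (Z - n) ≥ θ Z` for `n ≤ (1 - θ) Z` (as `B(Z) > 0`), and `W16_P` with `s_i = β_i + ψ_i(t)`. The terms of the problem: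
`famT = famP` of `U17` (definitional), `U17_noFix`, `U17_cnt`, `u17_main_term` (main term at `z` = `Z * dens D (z - 1) Z φ`), so apply `ACore` with `z - 1`: `((z-1) + 1)^(-c0) = z^(-c0)`, `(log Z)^(-A1) ≤ (log Z)^(-A)`. `W16_box` for the symmetric box (`R s` = all `s_i ≥ 0` and the
failure for the system `P_i + s_i`). -/
theorem W17_main (hC : ACoreAll) {g d : ℕ} (G : ℤ[X]) (hG : G.natDegree = 1) (hl : 0 < G.leadingCoeff)
    (P : Fin g → ℤ[X]) (hP : ∀ i, 0 < (P i).leadingCoeff) (c : Fin g → Fin d → ℤ) (e : Fin d → ℕ)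
    (hD : Dat c e (fun i => (P i).natDegree) (fun i => (P i).leadingCoeff)) :
    open Classical in ∃ δ1 : ℝ, 0 < δ1 ∧ ∀ A : ℕ, ∃ c0 : ℝ, 0 < c0 ∧ ∀ ε : ℝ, 0 < ε → ∃ (K : ℝ) (N0 : ℕ), ∀ N : ℕ, N0 ≤ N →
      ∀ b : Fin g → ℤ, (∀ i, |b i| ≤ A * (argCount G N : ℤ) ^ (P i).natDegree) → ∀ z : ℕ, 1 ≤ z → (z : ℝ) ≤ (argCount G N : ℝ) ^ δ1 →
      (((BoxT A (argCount G N) e).filter fun t => (∀ i, 0 ≤ b i + lf c t i) ∧ FailsP ε (famT P c b t) G N z).card : ℝ) ≤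
        (argCount G N : ℝ) ^ (∑ j, (e j : ℝ)) * ((Real.log (argCount G N)) ^ (-(A : ℝ)) + K * (z : ℝ) ^ (-c0)) := by
  classical
  obtain ⟨δ1, hδ1, hcore⟩ := hC g d c e P hD
  refine ⟨δ1, hδ1, fun A => ?_⟩
  obtain ⟨A2, hA2, hbox⟩ := W16_box c e (fun i => (P i).natDegree) hD.blk A
  obtain ⟨S, hS⟩ : ∃ S : ℕ, S = ∑ i, ∑ j, (c i j).natAbs := ⟨_, rfl⟩
  obtain ⟨A4, hWP⟩ := W16_P P (fun i => ⟨hD.deg i, hP i⟩) (A + A * S) 1 one_pos
  choose! v hv Zq hq using hWP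
  obtain ⟨γ, hγ⟩ : ∃ γ : ℕ, γ = G.leadingCoeff.natAbs := ⟨_, rfl⟩
  obtain ⟨A1, hA1⟩ : ∃ A1, A1 = A + A2 + A4 + γ := ⟨_, rfl⟩
  obtain ⟨c0, hc0, h'⟩ := hcore A1
  refine ⟨c0, hc0, fun ε hε => ?_⟩
  obtain ⟨θ, C1, Z0, hθ, hC1, hmain⟩ := h' ε 1 (fun θ => min (v θ) θ) hε one_pos (fun θ hθ => lt_min (hv θ hθ) hθ)
  obtain ⟨N0, hN0⟩ := U17_dec G hG hl
  have hZt := Pool.Agent.Lib.H59.argCount_tendsto (G := G) (by rw [hG]) hl
  obtain ⟨N1, hN1⟩ := Filter.eventually_atTop.1 (hZt.eventually_ge_atTop (Z0 + Zq θ + 3))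
  refine ⟨C1, N0 + N1, fun N hN b hb z hz1 hz2 => ?_⟩
  obtain ⟨q1, q2, q3⟩ := hN0 N (by omega)
  have hZ3 := hN1 N (by omega)
  obtain ⟨Z, hZ⟩ : ∃ Z : ℕ, Z = argCount G N := ⟨_, rfl⟩
  rw [← hγ] at q1
  rw [← hZ] at q1 q2 hZ3 hb hz2 ⊢
  have hZr : (3 : ℝ) ≤ Z := by exact_mod_cast (by omega : 3 ≤ Z)
  have hZ0 : (0 : ℝ) < Z := by linarith
  obtain ⟨b', hb', hR⟩ := hbox Z b hb
  let R : (Fin g → ℤ) → Prop := fun s => (∀ i, 0 ≤ s i) ∧ NoFix (sys (C (N : ℤ) - G) P (fun i => (s i).toNat)) ∧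
    ∃ Z' : ℕ, Reg A1 1 θ (min (v θ) θ) Z Z' (fun i => (P i).natDegree) (sys (C (N : ℤ) - G) P (fun i => (s i).toNat)) ∧
      ε * (Z' * H9P.dens (fun i => (P i).natDegree) (z - 1) Z' (sys (C (N : ℤ) - G) P (fun i => (s i).toNat))) <
        |(cnt (sys (C (N : ℤ) - G) P (fun i => (s i).toNat)) 1 Z' : ℝ) - Z' * H9P.dens (fun i => (P i).natDegree) (z - 1) Z' (sys (C (N : ℤ) - G) P (fun i => (s i).toNat))|
  have hdeg : (C (N : ℤ) - G).natDegree = 1 := q1.deg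
  have hlc : (C (N : ℤ) - G).leadingCoeff.natAbs ≤ A1 := q1.lc.trans (by omega)
  have hz1' : ((z - 1 : ℕ) : ℝ) + 1 = z := by
    rw [Nat.cast_sub hz1, Nat.cast_one]
    ring
  have hz' : ((z - 1 : ℕ) : ℝ) ≤ (Z : ℝ) ^ δ1 := by linarith
  have hb'' : ∀ i, |b' i| ≤ A1 * (Z : ℤ) ^ (P i).natDegree := by
    intro i
    refine (hb' i).trans (mul_le_mul_of_nonneg_right ?_ (by positivity))
    exact_mod_cast (by omega : A2 ≤ A1)
  refine le_trans (Nat.cast_le.2 (card_le_card (t := (BoxT A Z e).filter fun t => R (fun i => b i + lf c t i)) fun t ht => ?_)) ?_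
  · rw [mem_filter] at ht ⊢
    obtain ⟨t1, t2, t3, t4⟩ := ht
    refine ⟨t1, t2, U17_noFix G P c b t N t2 t3, Z, ?_, ?_⟩
    · refine ⟨le_refl _, le_of_eq (one_mul _), fun n hn1 hn2 => ?_, fun n hn1 hn2 i => ?_⟩
      · have a1 : (n : ℝ) ≤ Z := by
          have : (1 - θ) * (Z : ℝ) ≤ 1 * Z := mul_le_mul_of_nonneg_right (by linarith) hZ0.le
          linarith
        have a2 : n ≤ Z := by exact_mod_cast a1
        have a3 : (0 : ℝ) < n := lt_of_lt_of_le (by positivity) hn1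
        have a4 : 1 ≤ n := by exact_mod_cast a3
        have a5 : (1 : ℝ) ≤ n := by exact_mod_cast a4
        obtain ⟨h3, h4⟩ := w17_eval q1 n a2
        have e0 : sys (C (N : ℤ) - G) P (fun i => (b i + lf c t i).toNat) 0 (n : ℤ) = (C (N : ℤ) - G).eval (n : ℤ) := by
          unfold sys
          rw [Fin.cons_zero]
        have h3' : (Z : ℝ) - n + 1 ≤ (((C (N : ℤ) - G).eval (n : ℤ) : ℤ) : ℝ) := by exact_mod_cast h3
        have h4' : (((C (N : ℤ) - G).eval (n : ℤ) : ℤ) : ℝ) ≤ γ * ((Z : ℝ) + 1 - n) := by exact_mod_cast h4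
        rw [e0]
        constructor
        · have h5 : min (v θ) θ * (Z : ℝ) ≤ θ * Z := mul_le_mul_of_nonneg_right (min_le_right _ _) hZ0.le
          linarith
        · have h5 : (γ : ℝ) * ((Z : ℝ) + 1 - n) ≤ γ * Z := mul_le_mul_of_nonneg_left (by linarith) (Nat.cast_nonneg _)
          have h6 : (γ : ℝ) * Z ≤ A1 * Z := mul_le_mul_of_nonneg_right (by exact_mod_cast (by omega : γ ≤ A1)) hZ0.le
          linarith
      · have a1 : (n : ℝ) ≤ Z := by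
          have : (1 - θ) * (Z : ℝ) ≤ 1 * Z := mul_le_mul_of_nonneg_right (by linarith) hZ0.le
          linarith
        have hs : ∀ i, 0 ≤ b i + lf c t i ∧ b i + lf c t i ≤ ((A + A * S : ℕ) : ℤ) * (Z : ℤ) ^ (P i).natDegree := by
          intro i
          refine ⟨t2 i, ?_⟩
          have h3 := w17_lf c e (fun i => (P i).natDegree) hD.blk A Z t t1 i
          rw [← hS] at h3
          have h4 := (abs_le.1 (hb i)).2
          push_cast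
          have h5 : ((A : ℤ) + A * S) * (Z : ℤ) ^ (P i).natDegree = A * (Z : ℤ) ^ (P i).natDegree + A * S * (Z : ℤ) ^ (P i).natDegree := by ring
          rw [h5]
          exact add_le_add h4 h3
        obtain ⟨h3, h4⟩ := hq θ hθ Z Z (by omega) (le_refl _) (le_of_eq (one_mul _)) (fun i => b i + lf c t i) hs n hn1 (by exact_mod_cast a1) i
        have e0 : sys (C (N : ℤ) - G) P (fun i => (b i + lf c t i).toNat) i.succ (n : ℤ) = (P i).eval (n : ℤ) + (b i + lf c t i) := by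
          show (P i).eval (n : ℤ) + ((b i + lf c t i).toNat : ℤ) = _
          rw [Int.toNat_of_nonneg (t2 i)]
        rw [e0]
        have hZd : (0 : ℝ) ≤ (Z : ℝ) ^ (P i).natDegree := by positivity
        constructor
        · exact (mul_le_mul_of_nonneg_right (min_le_left _ _) hZd).trans h3
        · refine h4.trans (mul_le_mul_of_nonneg_right ?_ hZd)
          exact_mod_cast (by omega : A4 ≤ A1)
    · have t4' : ε * mainTermP (H9P.famP P c b t) G N z < |(primeCount (H9P.famP P c b t) G N : ℝ) - mainTermP (H9P.famP P c b t) G N z| := t4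
      rw [u17_main_term G hG P (fun i => (P i).natDegree) (fun i => (P i).leadingCoeff) (fun i => ⟨rfl, rfl⟩) c b t N z t2,
        U17_cnt G P c b t N t2 (by rw [← hZ]; exact q2), ← hZ] at t4'
      exact t4'
  refine le_trans (Nat.cast_le.2 (hR R)) ?_
  refine le_trans (Nat.cast_le.2 (card_le_card ?_)) (le_trans (hmain Z (by omega) (C (N : ℤ) - G) hdeg hlc b' hb'' (z - 1) hz') ?_)
  · intro t ht
    rw [mem_filter] at ht ⊢
    refine ⟨?_, ht.2⟩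
    have t1 := ht.1
    unfold tb at t1 ⊢
    rw [Fintype.mem_piFinset] at t1 ⊢
    intro j
    have h1 := t1 j
    rw [mem_Ico] at h1 ⊢
    refine ⟨h1.1, lt_of_lt_of_le h1.2 ?_⟩
    simp only [Pi.zero_apply, zero_add]
    have h3 : A2 * Z ^ e j + 1 ≤ A1 * Z ^ e j + 1 := Nat.add_le_add_right (Nat.mul_le_mul_right _ (by omega)) 1
    exact_mod_cast h3
  · refine mul_le_mul_of_nonneg_left ?_ (by positivity)
    rw [hz1']
    refine add_le_add ?_ (le_refl _)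
    have hl1 : 1 ≤ Real.log Z := by
      have h1 : Real.log (Real.exp 1) ≤ Real.log Z := Real.log_le_log (Real.exp_pos 1) (by
        have := Real.exp_one_lt_d9
        linarith)
      rwa [Real.log_exp] at h1
    refine Real.rpow_le_rpow_of_exponent_le hl1 (neg_le_neg ?_)
    exact_mod_cast (by omega : A ≤ A1)

end Pool.Agent.HLA
end

-- from Lib.HUP.F5
section

/-!
# Projects HUP and HPC, module F (the second moment `FMT` from Theorem P), F5: the bilinear bound inside a block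
-/

open Finset Polynomial

namespace Pool.Agent.HUP

open Pool.Agent.HUK (GG DD DL DV FF bxS Bdd)

/-- The leading coefficients after the substitution are not zero. Proof. `π, y` from `F2_prim`, `g_i = lf c y i` (nonzero for
`i ∈ Kz`). If `g_i0 a_i Λ/g_i … = a_i0 …`, i.e. `a_i * lf c y i0 = a_i0 * lf c y i`, then `x = g_i0`, `x' = g_i` contradict `hD.ind`
(`x * c i j = g_i0 g_i π j = x' * c i0 j`). -/
theorem F5_ne {k d : ℕ} (c : Fin k → Fin d → ℤ) (e : Fin d → ℕ) (D : Fin k → ℕ) (a : Fin k → ℤ) (hD : Dat c e D a)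
    (i0 i : Fin k) (hi : i ∈ Kz c D i0) (hii : i ≠ i0) (π y : Fin d → ℤ) (h1 : 0 < lf c y i0)
    (h2 : ∀ j, c i0 j = lf c y i0 * π j) (h3 : ∀ j, c i j = lf c y i * π j) :
    lf c y i ≠ 0 ∧ a i * lf c y i0 ≠ a i0 * lf c y i := by
  have hK : D i = D i0 := by
    unfold Kz at hi
    rw [Finset.mem_filter] at hi
    exact hi.2.1
  constructor
  · intro h0
    obtain ⟨j, hj⟩ := hD.ne i
    apply hj
    rw [h3 j, h0, zero_mul]
  · intro h0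
    have h4 := hD.ind i i0 hii hK (lf c y i0) (lf c y i) (by linarith) (fun j => by rw [h3 j, h2 j]; ring)
    exact h1.ne' h4.1

/-- One factor: substitution. -/
theorem f5_term {k : ℕ} (K : Finset (Fin k)) (i0 : Fin k) (hi0 : i0 ∈ K) (g : Fin k → ℤ) (Pt : Fin k → ℤ[X])
    (rr : Fin k → ℤ) (H : Fin k → ℤ → ℂ) (U : Finset ℤ) (h' : ℤ → ℂ) (hU : ∀ u, u ∉ U → h' u = 0) (t m : ℤ) :
    H i0 (rr i0 + g i0 * t) * ∏ j : Fin (k + 1), (Fin.cons h' (fun i => if i ∈ K.erase i0 then (fun x => H i (g i * x + rr i))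
      else fun x => if x ∈ U then 1 else 0) : Fin (k + 1) → ℤ → ℂ) j
        (t + ((Fin.cons (-Pt i0) (fun i => if i ∈ K.erase i0 then Pt i - Pt i0 else -Pt i0) : Fin (k + 1) → ℤ[X]) j).eval m) =
      h' (t - (Pt i0).eval m) * ∏ i ∈ K, H i (g i * ((Pt i).eval m + (t - (Pt i0).eval m)) + rr i) := by
  rw [Fin.prod_univ_succ, Fin.cons_zero, Fin.cons_zero]
  simp only [Fin.cons_succ]
  rw [Polynomial.eval_neg, ← sub_eq_add_neg]
  by_cases hu : t - (Pt i0).eval m ∈ U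
  · have h1 : ∀ i : Fin k, (if i ∈ K.erase i0 then (fun x => H i (g i * x + rr i))
        else fun x => if x ∈ U then (1 : ℂ) else 0) (t + (if i ∈ K.erase i0 then Pt i - Pt i0 else -Pt i0).eval m) =
        if i ∈ K.erase i0 then H i (g i * ((Pt i).eval m + (t - (Pt i0).eval m)) + rr i) else 1 := by
      intro i
      by_cases hi : i ∈ K.erase i0
      · rw [if_pos hi, if_pos hi, if_pos hi, Polynomial.eval_sub]
        congr 2
        ring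
      · rw [if_neg hi, if_neg hi, if_neg hi, Polynomial.eval_neg, ← sub_eq_add_neg, if_pos hu]
    rw [Finset.prod_congr rfl fun i _ => h1 i, Finset.prod_ite_mem, Finset.univ_inter,
      ← Finset.mul_prod_erase K _ hi0]
    have h2 : rr i0 + g i0 * t = g i0 * ((Pt i0).eval m + (t - (Pt i0).eval m)) + rr i0 := by ring
    rw [h2]
    ring
  · rw [hU _ hu]
    ring

/-- The sum over `u` as a sum over `t`. -/
theorem f5_sum (W U : Finset ℤ) (p : ℤ) (T : ℤ → ℂ) (h1 : ∀ u, u ∉ U → T u = 0) (h2 : ∀ u, u + p ∉ W → T u = 0) :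
    ∑ t ∈ W, T (t - p) = ∑ u ∈ U, T u := by
  have h3 : ∑ t ∈ W, T (t - p) = ∑ u ∈ W.image (fun t => t - p), T u := by
    rw [Finset.sum_image]
    intro x _ y _ hxy
    exact sub_left_inj.mp hxy
  rw [h3]
  have h4 : ∑ u ∈ W.image (fun t => t - p), T u = ∑ u ∈ W.image (fun t => t - p) ∪ U, T u := by
    refine Finset.sum_subset Finset.subset_union_left fun u _ hu => h2 u fun h5 => hu ?_
    exact Finset.mem_image.mpr ⟨u + p, h5, by ring⟩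
  have h5 : ∑ u ∈ U, T u = ∑ u ∈ W.image (fun t => t - p) ∪ U, T u := by
    refine Finset.sum_subset Finset.subset_union_right fun u _ hu => h1 u hu
  rw [h4, h5]

/-- The set of arguments of a coordinate. -/
theorem f5_card (A : ℕ) (g r : ℤ) (hg : g ≠ 0) (H : ℤ → ℂ) (hH : ∀ m, m ∉ Ico (-(A : ℤ)) (A : ℤ) → H m = 0) :
    ((Ico (-(A : ℤ)) (A : ℤ)).image fun m => (m - r) / g).card ≤ 2 * A ∧
      ∀ t, t ∉ ((Ico (-(A : ℤ)) (A : ℤ)).image fun m => (m - r) / g) → H (g * t + r) = 0 := by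
  constructor
  · refine Finset.card_image_le.trans ?_
    rw [Int.card_Ico]
    omega
  · intro t ht
    apply hH
    intro h1
    apply ht
    refine Finset.mem_image.mpr ⟨g * t + r, h1, ?_⟩
    rw [add_sub_cancel_right]
    exact Int.mul_ediv_cancel_left t hg

/-- **F5a.** One residue class `n = Λ m + ρ`. Everything about forms is gone: `u` is the value of the primitive form. `Pt i`, `rr i`
are the polynomials and remainders of `F3_pol`. Proof. `ThmPZ D0 (k+1) r` with `r = Fin.cons (-α i0) (fun i => if i ∈ K.erase i0 then α i - α i0 else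
-α i0)` (all nonzero), `R = Fin.cons (-Pt i0) (fun i => if i ∈ K.erase i0 then Pt i - Pt i0 else -Pt i0)`, the functions
`f0 t = H i0 (g i0 * t + rr i0)`, `f = Fin.cons h' (fun i => if i ∈ K.erase i0 then fun t => H i (g i * t + rr i) else indicator of U)`, supports `U`,
and `{t | g i * t + rr i ∈ window}` (at most `2 C0 X^D0` elements), constant `4 C0 + C1` for both. The substitution
`t = u + Pt i0 (m)` for each `m`. `f0` is supported in the window and `GG … f0 ≤ GG … (H i0)`: `V1_dil`, `V1_res` of `HUK/V1.lean`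
(`g i0 > 0`, `0 ≤ rr i0 < g i0`), `GG_scale`. -/
theorem F5_class (D0 k : ℕ) (hD0 : 1 ≤ D0) (K : Finset (Fin k)) (i0 : Fin k) (hi0 : i0 ∈ K) (g α : Fin k → ℤ)
    (hg : ∀ i ∈ K, g i ≠ 0) (hg0 : 0 < g i0) (hα : ∀ i ∈ K, i ≠ i0 → α i ≠ α i0) (hα0 : α i0 ≠ 0) (C0 : ℕ)
    (hTP : ∀ r : Fin (k + 1) → ℤ, (∀ j, r j ≠ 0) → HPC.ThmPZ D0 (k + 1) r) :
    ∃ s : ℕ, 2 ≤ s ∧ ∀ κ : ℝ, 0 < κ → ∃ δ : ℝ, 0 < δ ∧ ∃ X0 : ℕ, ∀ X : ℕ, X0 ≤ X →
    ∀ (Pt : Fin k → ℤ[X]) (rr : Fin k → ℤ), (∀ i ∈ K, (Pt i).natDegree ≤ D0 ∧ (Pt i).coeff D0 = α i) →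
    (∀ i ∈ K, 0 ≤ rr i ∧ rr i < |g i|) → ∀ m0 L : ℕ, m0 + L ≤ C0 * X →
    ∀ H : Fin k → ℤ → ℂ, (∀ i m, ‖H i m‖ ≤ 1) →
    (∀ (i : Fin k) (m : ℤ), m ∉ Ico (-((C0 * X ^ D0 : ℕ) : ℤ)) ((C0 * X ^ D0 : ℕ) : ℤ) → H i m = 0) →
    ∀ (U : Finset ℤ) (h' : ℤ → ℂ), U.card ≤ C0 * X ^ D0 → (∀ u, ‖h' u‖ ≤ 1) → (∀ u, u ∉ U → h' u = 0) →
    GG (C0 * X ^ D0) s (H i0) ≤ (X : ℝ) ^ ((D0 : ℝ) * (s + 1) - κ) →
    ‖∑ m ∈ Ico m0 (m0 + L), ∑ u ∈ U, h' u * ∏ i ∈ K, H i (g i * ((Pt i).eval (m : ℤ) + u) + rr i)‖ ≤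
      (X : ℝ) ^ ((D0 : ℝ) + 1 - δ) := by
  have hr : ∀ j : Fin (k + 1), (Fin.cons (-α i0) (fun i => if i ∈ K.erase i0 then α i - α i0 else -α i0) :
      Fin (k + 1) → ℤ) j ≠ 0 := by
    intro j
    refine Fin.cases ?_ (fun i => ?_) j
    · rw [Fin.cons_zero]
      exact neg_ne_zero.mpr hα0
    · rw [Fin.cons_succ]
      split_ifs with h1
      · rw [Finset.mem_erase] at h1
        exact sub_ne_zero.mpr (hα i h1.2 h1.1)
      · exact neg_ne_zero.mpr hα0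
  obtain ⟨s, hs, hP⟩ := hTP _ hr
  refine ⟨s, hs, fun κ hκ => ?_⟩
  obtain ⟨δ, hδ, X0, hX0⟩ := hP (2 * C0) κ hκ
  refine ⟨δ, hδ, X0, fun X hX Pt rr hPt hrr m0 L hmL H hH hHs U h' hU hh' hhU hGG => ?_⟩
  rcases Nat.eq_zero_or_pos (C0 * X ^ D0) with hA | hA
  · have h1 : U = ∅ := by
      rw [← Finset.card_eq_zero]
      omega
    rw [h1]
    simp only [Finset.sum_empty, Finset.sum_const_zero, norm_zero]
    positivity
  have hA2 : C0 * X ^ D0 ≤ 2 * C0 * X ^ D0 := by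
    rw [mul_assoc]
    omega
  obtain ⟨G, hG⟩ : ∃ G : ℕ, g i0 = G := ⟨(g i0).toNat, by omega⟩
  have hr0 := hrr i0 hi0
  have hB : Bdd (C0 * X ^ D0) (H i0) := ⟨hH i0, fun y hy => hHs i0 y hy⟩
  have hdil := HUK.V1_dil (C0 * X ^ D0) s G hA (by omega) (by omega) (rr i0) hr0.1
    (by rw [abs_of_pos hg0] at hr0; rw [← hG]; exact hr0.2) (H i0) hB
  rw [← hG] at hdil
  have hBd : Bdd (2 * C0 * X ^ D0) (fun t => H i0 (rr i0 + g i0 * t)) := by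
    refine ⟨hdil.1.le, fun y hy => hdil.1.sup y fun h => hy ?_⟩
    rw [Finset.mem_Ico] at h ⊢
    have h3 : ((C0 * X ^ D0 : ℕ) : ℤ) ≤ ((2 * C0 * X ^ D0 : ℕ) : ℤ) := by exact_mod_cast hA2
    constructor <;> linarith [h.1, h.2]
  have hGf : GG (2 * C0 * X ^ D0) s (fun t => H i0 (rr i0 + g i0 * t)) ≤ (X : ℝ) ^ ((D0 : ℝ) * (s + 1) - κ) := by
    rw [HUK.GG_scale (C0 * X ^ D0) (2 * C0 * X ^ D0) s hA2 _ hdil.1.sup, hdil.2]
    have h4 := HUK.V1_res (C0 * X ^ D0) s G hs (by omega) (rr i0) (H i0) hB.sup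
    rw [← hG] at h4
    exact h4.trans hGG
  have key := hX0 X hX (Fin.cons (-Pt i0) (fun i => if i ∈ K.erase i0 then Pt i - Pt i0 else -Pt i0)) (by
      intro j
      refine Fin.cases ?_ (fun i => ?_) j
      · rw [Fin.cons_zero, Fin.cons_zero, Polynomial.natDegree_neg, Polynomial.coeff_neg, (hPt i0 hi0).2]
        exact ⟨(hPt i0 hi0).1, rfl⟩
      · rw [Fin.cons_succ, Fin.cons_succ]
        split_ifs with h1
        · have h2 := hPt i (Finset.mem_of_mem_erase h1)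
          rw [Polynomial.coeff_sub, (hPt i0 hi0).2, h2.2]
          exact ⟨(Polynomial.natDegree_sub_le _ _).trans (max_le h2.1 (hPt i0 hi0).1), rfl⟩
        · rw [Polynomial.natDegree_neg, Polynomial.coeff_neg, (hPt i0 hi0).2]
          exact ⟨(hPt i0 hi0).1, rfl⟩) m0 L (hmL.trans (by nlinarith))
    (fun t => H i0 (rr i0 + g i0 * t))
    (Fin.cons h' (fun i => if i ∈ K.erase i0 then (fun x => H i (g i * x + rr i)) else fun x => if x ∈ U then 1 else 0))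
    (Fin.cons U (fun i => if i ∈ K.erase i0 then (Ico (-((C0 * X ^ D0 : ℕ) : ℤ)) ((C0 * X ^ D0 : ℕ) : ℤ)).image
      (fun m => (m - rr i) / g i) else U)) hBd (by
      intro j y
      refine Fin.cases ?_ (fun i => ?_) j
      · rw [Fin.cons_zero]
        exact hh' y
      · rw [Fin.cons_succ]
        split_ifs with h1
        · exact hH i _
        · dsimp only
          split_ifs
          · rw [norm_one]
          · rw [norm_zero]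
            exact zero_le_one) (by
      intro j
      refine Fin.cases ?_ (fun i => ?_) j
      · rw [Fin.cons_zero]
        exact hU.trans hA2
      · rw [Fin.cons_succ]
        split_ifs with h1
        · rw [mul_assoc 2 C0]
          exact (f5_card (C0 * X ^ D0) (g i) (rr i) (hg i (Finset.mem_of_mem_erase h1)) (H i) (hHs i)).1
        · exact hU.trans hA2) (by
      intro j
      refine Fin.cases ?_ (fun i => ?_) j
      · rw [Fin.cons_zero, Fin.cons_zero]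
        exact hhU
      · rw [Fin.cons_succ, Fin.cons_succ]
        split_ifs with h1
        · exact (f5_card (C0 * X ^ D0) (g i) (rr i) (hg i (Finset.mem_of_mem_erase h1)) (H i) (hHs i)).2
        · intro y hy
          dsimp only
          rw [if_neg hy]) hGf
  refine le_trans (le_of_eq ?_) key
  congr 1
  refine Eq.trans ?_ Finset.sum_comm
  refine Finset.sum_congr rfl fun m _ => ?_
  rw [Finset.sum_congr rfl fun t _ => f5_term K i0 hi0 g Pt rr H U h' hhU t m]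
  symm
  refine f5_sum _ U ((Pt i0).eval (m : ℤ)) (fun u => h' u * ∏ i ∈ K, H i (g i * ((Pt i).eval (m : ℤ) + u) + rr i)) ?_ ?_
  · intro u hu
    rw [hhU u hu, zero_mul]
  · intro u hu
    have h1 : H i0 (g i0 * ((Pt i0).eval (m : ℤ) + u) + rr i0) = 0 := by
      have h2 := hBd.sup _ hu
      rw [← h2]
      congr 1
      ring
    rw [Finset.prod_eq_zero hi0 h1, mul_zero]

end Pool.Agent.HUP
end

-- from Lib.HUP.F5b
section

/-!
# Projects HUP and HPC, module F (the second moment `FMT` from Theorem P), F5b: the bilinear bound inside a block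
-/

open Finset Polynomial

namespace Pool.Agent.HUP

open Pool.Agent.HUK (GG DD DL DV FF bxS Bdd)

theorem f5b_iff (n m ρ Λ : ℕ) (h : ρ < Λ) : (n + (Λ - 1 - ρ)) / Λ ≤ m ↔ n ≤ Λ * m + ρ := by
  have h0 : 0 < Λ := by omega
  have h1 : (n + (Λ - 1 - ρ)) / Λ < m + 1 ↔ n + (Λ - 1 - ρ) < (m + 1) * Λ := Nat.div_lt_iff_lt_mul h0
  have h2 : (m + 1) * Λ = Λ * m + Λ := by ring
  rw [h2] at h1
  omega

theorem f5b_split (Λ : ℕ) (hΛ : 0 < Λ) (n0 n1 : ℕ) (F : ℕ → ℂ) :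
    ∑ n ∈ Ico n0 n1, F n =
      ∑ ρ ∈ range Λ, ∑ m ∈ Ico ((n0 + (Λ - 1 - ρ)) / Λ) ((n1 + (Λ - 1 - ρ)) / Λ), F (Λ * m + ρ) := by
  rw [← Finset.sum_fiberwise_of_maps_to (s := Ico n0 n1) (t := range Λ) (g := fun n => n % Λ)
    (fun n _ => mem_range.2 (Nat.mod_lt _ hΛ))]
  refine sum_congr rfl fun ρ hρ => ?_
  rw [mem_range] at hρ
  refine Finset.sum_nbij' (fun n => n / Λ) (fun m => Λ * m + ρ) ?_ ?_ ?_ ?_ ?_
  · intro n hn
    rw [mem_filter, mem_Ico] at hn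
    obtain ⟨⟨h1, h2⟩, h3⟩ := hn
    have h4 : Λ * (n / Λ) + ρ = n := by
      rw [← h3]
      exact Nat.div_add_mod n Λ
    rw [mem_Ico, f5b_iff _ _ _ _ hρ, ← not_le, f5b_iff _ _ _ _ hρ, h4]
    omega
  · intro m hm
    rw [mem_Ico, f5b_iff _ _ _ _ hρ, ← not_le, f5b_iff _ _ _ _ hρ] at hm
    rw [mem_filter, mem_Ico]
    refine ⟨⟨hm.1, by omega⟩, ?_⟩
    rw [Nat.mul_add_mod]
    exact Nat.mod_eq_of_lt hρ
  · intro n hn
    rw [mem_filter, mem_Ico] at hn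
    obtain ⟨⟨h1, h2⟩, h3⟩ := hn
    show Λ * (n / Λ) + ρ = n
    rw [← h3]
    exact Nat.div_add_mod n Λ
  · intro m hm
    show (Λ * m + ρ) / Λ = m
    rw [Nat.mul_add_div hΛ, Nat.div_eq_of_lt hρ, add_zero]
  · intro n hn
    rw [mem_filter, mem_Ico] at hn
    obtain ⟨⟨h1, h2⟩, h3⟩ := hn
    show F n = F (Λ * (n / Λ) + ρ)
    congr 1
    rw [← h3]
    exact (Nat.div_add_mod n Λ).symm

/-- **F5.** Proof. `π, y` by `F2_prim` for `i0`, `g i = lf c y i`, `Λ = ∏_{i ∈ Kz} |g i|`, `α i = a i * (Λ / g i) * Λ^(D0-1)`. The sum over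
`t` by `F4_group` (`l` with `π l ≠ 0`, `e l = D i0`; `∏_{j ≠ l} σ j ≤ C0^d X^(∑ e - D i0)`; `|π j| σ j`: `π j ≠ 0` implies
`e j = D i0`, so `U.card ≤ C1 X^(D i0)`), and `P_i(n) + (β_i + lf c t i) = P_i(n) + β_i + g i * (π t)`. The sum over `n` is split into the classes
`n = Λ m + ρ`, `0 ≤ ρ < Λ` (each class is an interval of `m`), `F3_pol`, `F5_class` with the constant `C0 + C1`. -/
theorem F5_bil {k d : ℕ} (c : Fin k → Fin d → ℤ) (e : Fin d → ℕ) (D : Fin k → ℕ) (a : Fin k → ℤ) (hD : Dat c e D a)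
    (hTP : ∀ (D q : ℕ) (r : Fin q → ℤ), 1 ≤ D → (∀ j, r j ≠ 0) → HPC.ThmPZ D q r) (i0 : Fin k) (C0 : ℕ) :
    ∃ s : ℕ, 2 ≤ s ∧ ∀ κ : ℝ, 0 < κ → ∃ δ : ℝ, 0 < δ ∧ ∃ X0 : ℕ, ∀ X : ℕ, X0 ≤ X →
    ∀ P : Fin k → ℤ[X], HasD D a P →
    ∀ (β : Fin k → ℤ) (b : Fin d → ℤ) (σ : Fin d → ℕ), (∀ j, σ j ≤ C0 * X ^ e j) →
    ∀ n0 N : ℕ, n0 + N ≤ C0 * X →
    ∀ H : Fin k → ℤ → ℂ, (∀ i m, ‖H i m‖ ≤ 1) →
    (∀ (i : Fin k) (m : ℤ), m ∉ Ico (-((C0 * X ^ D i : ℕ) : ℤ)) ((C0 * X ^ D i : ℕ) : ℤ) → H i m = 0) →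
    ∀ h : (Fin d → ℤ) → ℂ, (∀ t, ‖h t‖ ≤ 1) →
    GG (C0 * X ^ D i0) s (H i0) ≤ (X : ℝ) ^ ((D i0 : ℝ) * (s + 1) - κ) →
    ‖∑ n ∈ Ico n0 (n0 + N), ∑ t ∈ tb b σ, h t *
      ∏ i ∈ Kz c D i0, H i ((P i).eval (n : ℤ) + (β i + lf c t i))‖ ≤ (X : ℝ) ^ (1 + (∑ j, (e j : ℝ)) - δ) := by
  classical
  obtain ⟨π, y, hπy, hg0, hc0, hcK⟩ := F2_prim c i0 (hD.ne i0)
  have hKi0 : i0 ∈ Kz c D i0 := by
    unfold Kz
    rw [mem_filter]
    exact ⟨mem_univ _, rfl, fun j j' => mul_comm _ _⟩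
  have hKD : ∀ i ∈ Kz c D i0, D i = D i0 := by
    intro i hi
    unfold Kz at hi
    rw [mem_filter] at hi
    exact hi.2.1
  have hKc : ∀ i ∈ Kz c D i0, ∀ j, c i j = lf c y i * π j := by
    intro i hi
    unfold Kz at hi
    rw [mem_filter] at hi
    exact hcK i hi.2.2
  -- the number `Λ`
  set g : Fin k → ℤ := fun i => lf c y i with hg
  have hgne : ∀ i ∈ Kz c D i0, g i ≠ 0 := by
    intro i hi
    by_cases hii : i = i0
    · rw [hii]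
      exact hg0.ne'
    · exact (F5_ne c e D a hD i0 i hi hii π y hg0 hc0 (hKc i hi)).1
  set Λn : ℕ := ∏ i ∈ Kz c D i0, (g i).natAbs with hΛn
  have hΛpos : 0 < Λn := Finset.prod_pos fun i hi => Int.natAbs_pos.2 (hgne i hi)
  set Λ : ℤ := (Λn : ℤ) with hΛ
  have hΛne : Λ ≠ 0 := by
    rw [hΛ]
    exact_mod_cast hΛpos.ne'
  have hdvd : ∀ i ∈ Kz c D i0, g i ∣ Λ := by
    intro i hi
    rw [hΛ, ← Int.natAbs_dvd, Int.natCast_dvd_natCast]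
    exact Finset.dvd_prod_of_mem (fun i => (g i).natAbs) hi
  set α : Fin k → ℤ := fun i => a i * (Λ / g i) * Λ ^ (D i0 - 1) with hα
  have hdiv : ∀ i ∈ Kz c D i0, Λ / g i * g i = Λ := fun i hi => Int.ediv_mul_cancel (hdvd i hi)
  have hdivne : ∀ i ∈ Kz c D i0, Λ / g i ≠ 0 := by
    intro i hi h
    have h1 := hdiv i hi
    rw [h, zero_mul] at h1
    exact hΛne h1.symm
  have hα0 : α i0 ≠ 0 := mul_ne_zero (mul_ne_zero (hD.lc i0) (hdivne i0 hKi0)) (pow_ne_zero _ hΛne)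
  have hαne : ∀ i ∈ Kz c D i0, i ≠ i0 → α i ≠ α i0 := by
    intro i hi hii h
    have h1 := (F5_ne c e D a hD i0 i hi hii π y hg0 hc0 (hKc i hi)).2
    apply h1
    rw [hα] at h
    dsimp only at h
    have h2 := mul_right_cancel₀ (pow_ne_zero _ hΛne) h
    have h3 : a i * g i0 * Λ = a i0 * g i * Λ := by
      calc a i * g i0 * Λ = a i * g i0 * (Λ / g i * g i) := by rw [hdiv i hi]
        _ = (a i * (Λ / g i)) * (g i0 * g i) := by ring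
        _ = (a i0 * (Λ / g i0)) * (g i0 * g i) := by rw [h2]
        _ = a i0 * g i * (Λ / g i0 * g i0) := by ring
        _ = a i0 * g i * Λ := by rw [hdiv i0 hKi0]
    exact mul_right_cancel₀ hΛne h3
  -- the coordinate `l`
  obtain ⟨l, hl0⟩ := hD.ne i0
  have hl : π l ≠ 0 := by
    intro h
    apply hl0
    rw [hc0 l, h, mul_zero]
  have hπe : ∀ j, π j ≠ 0 → e j = D i0 := by
    intro j hj
    apply hD.blk i0 j
    rw [hc0 j]
    exact mul_ne_zero hg0.ne' hj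
  set Sπ : ℕ := ∑ j, (π j).natAbs with hSπ
  set C1 : ℕ := C0 * Sπ + 1 with hC1
  set C2 : ℕ := C0 + C1 with hC2
  obtain ⟨s, hs, hcl⟩ := F5_class (D i0) k (hD.deg i0) (Kz c D i0) i0 hKi0 g α hgne hg0 hαne hα0 C2
    (fun r hr => hTP (D i0) (k + 1) r (hD.deg i0) hr)
  refine ⟨s, hs, fun κ hκ => ?_⟩
  obtain ⟨δ, hδ, X0, hX0⟩ := hcl κ hκ
  -- large X
  have hbig : ∃ X1 : ℕ, 1 ≤ X1 ∧ ∀ X : ℕ, X1 ≤ X → ((C0 : ℝ) ^ (univ.erase l).card * Λn) ≤ (X : ℝ) ^ (δ / 2) := by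
    have h1 : Filter.Tendsto (fun X : ℕ => (X : ℝ) ^ (δ / 2)) Filter.atTop Filter.atTop :=
      (tendsto_rpow_atTop (half_pos hδ)).comp tendsto_natCast_atTop_atTop
    obtain ⟨X1, hX1⟩ := Filter.eventually_atTop.1 (h1.eventually_ge_atTop ((C0 : ℝ) ^ (univ.erase l).card * Λn))
    exact ⟨max X1 1, le_max_right _ _, fun X hX => hX1 X (le_trans (le_max_left _ _) hX)⟩
  obtain ⟨X1, hX11, hX1⟩ := hbig
  refine ⟨δ / 2, half_pos hδ, max X0 X1, fun X hX P hP β b σ hσ n0 N hnN H hH hHs h hh hGG => ?_⟩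
  have hXX0 : X0 ≤ X := le_trans (le_max_left _ _) hX
  have hXX1 : X1 ≤ X := le_trans (le_max_right _ _) hX
  have hXpos : 0 < X := lt_of_lt_of_le (by omega) hXX1
  have hXr : (0 : ℝ) < X := by exact_mod_cast hXpos
  obtain ⟨U, hUc, hU⟩ := F4_group π l hl b σ
  obtain ⟨h', hh'1, hh'0, hh'⟩ := hU h hh
  -- the size of `U`
  have hUcard : U.card ≤ C2 * X ^ D i0 := by
    have h1 : ∑ j, |π j| * (σ j : ℤ) ≤ ∑ j, ((π j).natAbs : ℤ) * ((C0 * X ^ D i0 : ℕ) : ℤ) := by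
      refine Finset.sum_le_sum fun j _ => ?_
      by_cases hj : π j = 0
      · rw [hj]
        simp
      · rw [Int.abs_eq_natAbs, ← hπe j hj]
        exact mul_le_mul_of_nonneg_left (by exact_mod_cast hσ j) (by positivity)
    have h2 : ∑ j, ((π j).natAbs : ℤ) * ((C0 * X ^ D i0 : ℕ) : ℤ) = ((Sπ * (C0 * X ^ D i0) : ℕ) : ℤ) := by
      rw [← Finset.sum_mul, hSπ]
      push_cast
      rfl
    have h3 : (U.card : ℤ) ≤ ((Sπ * (C0 * X ^ D i0) + 1 : ℕ) : ℤ) := by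
      rw [Nat.cast_add, Nat.cast_one, ← h2]
      exact le_trans hUc (by linarith [h1])
    have h4 : U.card ≤ Sπ * (C0 * X ^ D i0) + 1 := by exact_mod_cast h3
    have h5 : 1 ≤ X ^ D i0 := Nat.one_le_pow _ _ hXpos
    calc U.card ≤ Sπ * (C0 * X ^ D i0) + 1 := h4
      _ ≤ Sπ * (C0 * X ^ D i0) + X ^ D i0 := by omega
      _ = C1 * X ^ D i0 := by rw [hC1]; ring
      _ ≤ C2 * X ^ D i0 := Nat.mul_le_mul_right _ (by omega)
  -- the modified functions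
  set H' : Fin k → ℤ → ℂ := fun i m => if i ∈ Kz c D i0 then H i m else 0 with hH'
  have hH'1 : ∀ i m, ‖H' i m‖ ≤ 1 := by
    intro i m
    rw [hH']
    dsimp only
    split_ifs
    · exact hH i m
    · simp
  have hCC : C0 * X ^ D i0 ≤ C2 * X ^ D i0 := Nat.mul_le_mul_right _ (by omega)
  have hH's : ∀ (i : Fin k) (m : ℤ), m ∉ Ico (-((C2 * X ^ D i0 : ℕ) : ℤ)) ((C2 * X ^ D i0 : ℕ) : ℤ) → H' i m = 0 := by
    intro i m hm
    rw [hH']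
    dsimp only
    split_ifs with hi
    · apply hHs
      rw [hKD i hi]
      intro h1
      apply hm
      rw [mem_Ico] at h1 ⊢
      have h2 : ((C0 * X ^ D i0 : ℕ) : ℤ) ≤ ((C2 * X ^ D i0 : ℕ) : ℤ) := by exact_mod_cast hCC
      constructor <;> linarith [h1.1, h1.2]
    · rfl
  have hH'0 : H' i0 = H i0 := by
    funext m
    rw [hH']
    dsimp only
    rw [if_pos hKi0]
  have hGG' : GG (C2 * X ^ D i0) s (H' i0) ≤ (X : ℝ) ^ ((D i0 : ℝ) * (s + 1) - κ) := by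
    rw [hH'0, Pool.Agent.HUK.GG_scale (C0 * X ^ D i0) (C2 * X ^ D i0) s hCC (H i0) (hHs i0)]
    exact hGG
  -- one class
  have hclass : ∀ ρ ∈ range Λn, ‖∑ m ∈ Ico ((n0 + (Λn - 1 - ρ)) / Λn) ((n0 + N + (Λn - 1 - ρ)) / Λn),
      ∑ u ∈ U, h' u * ∏ i ∈ Kz c D i0, H i ((P i).eval (((Λn * m + ρ : ℕ)) : ℤ) + (β i + g i * u))‖ ≤
        (X : ℝ) ^ ((D i0 : ℝ) + 1 - δ) := by
    intro ρ hρ
    rw [mem_range] at hρ
    have hpol : ∀ i : Fin k, ∃ (P' : ℤ[X]) (r : ℤ), i ∈ Kz c D i0 → (0 ≤ r ∧ r < |g i| ∧ P'.natDegree ≤ D i0 ∧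
        P'.coeff (D i0) = α i ∧ ∀ m : ℤ, (P i).eval (Λ * m + ρ) + β i = g i * P'.eval m + r) := by
      intro i
      by_cases hi : i ∈ Kz c D i0
      · obtain ⟨P', r, h1, h2, h3, h4, h5⟩ := F3_pol (P i) (D i0) (hD.deg i0) (by rw [(hP i).1, hKD i hi]) (g i) Λ
          (hgne i hi) hΛne (hdvd i hi) (ρ : ℤ) (β i)
        refine ⟨P', r, fun _ => ⟨h1, h2, h3, ?_, h5⟩⟩
        rw [h4, (hP i).2]
      · exact ⟨0, 0, fun h => absurd h hi⟩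
    choose Pt rr hPt using hpol
    have h1 := hX0 X hXX0 Pt rr (fun i hi => ⟨(hPt i hi).2.2.1, (hPt i hi).2.2.2.1⟩)
      (fun i hi => ⟨(hPt i hi).1, (hPt i hi).2.1⟩) ((n0 + (Λn - 1 - ρ)) / Λn)
      ((n0 + N + (Λn - 1 - ρ)) / Λn - (n0 + (Λn - 1 - ρ)) / Λn) (by
        have h2 : (n0 + (Λn - 1 - ρ)) / Λn ≤ (n0 + N + (Λn - 1 - ρ)) / Λn := Nat.div_le_div_right (by omega)
        have h3 : (n0 + N + (Λn - 1 - ρ)) / Λn ≤ n0 + N := by
          rw [f5b_iff _ _ _ _ hρ]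
          nlinarith
        have h4 : C0 * X ≤ C2 * X := Nat.mul_le_mul_right _ (by omega)
        omega) H' hH'1 hH's U h' hUcard hh'1 hh'0 hGG'
    have h2 : (n0 + (Λn - 1 - ρ)) / Λn + ((n0 + N + (Λn - 1 - ρ)) / Λn - (n0 + (Λn - 1 - ρ)) / Λn) =
        (n0 + N + (Λn - 1 - ρ)) / Λn := by
      have h2 : (n0 + (Λn - 1 - ρ)) / Λn ≤ (n0 + N + (Λn - 1 - ρ)) / Λn := Nat.div_le_div_right (by omega)
      omega
    rw [h2] at h1
    refine le_of_eq_of_le ?_ h1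
    congr 1
    refine sum_congr rfl fun m _ => sum_congr rfl fun u _ => ?_
    congr 1
    refine prod_congr rfl fun i hi => ?_
    rw [hH']
    dsimp only
    rw [if_pos hi]
    congr 1
    have h3 := (hPt i hi).2.2.2.2 (m : ℤ)
    have h4 : (((Λn * m + ρ : ℕ)) : ℤ) = Λ * m + ρ := by
      rw [hΛ]
      push_cast
      rfl
    rw [h4]
    linear_combination h3
  -- the sum
  have hsum : ∑ n ∈ Ico n0 (n0 + N), ∑ t ∈ tb b σ, h t *
      ∏ i ∈ Kz c D i0, H i ((P i).eval (n : ℤ) + (β i + lf c t i)) =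
      ((∏ j ∈ univ.erase l, σ j : ℕ) : ℂ) * ∑ ρ ∈ range Λn,
        ∑ m ∈ Ico ((n0 + (Λn - 1 - ρ)) / Λn) ((n0 + N + (Λn - 1 - ρ)) / Λn),
        ∑ u ∈ U, h' u * ∏ i ∈ Kz c D i0, H i ((P i).eval (((Λn * m + ρ : ℕ)) : ℤ) + (β i + g i * u)) := by
    rw [← f5b_split Λn hΛpos n0 (n0 + N) (fun n => ∑ u ∈ U, h' u * ∏ i ∈ Kz c D i0,
      H i ((P i).eval ((n : ℕ) : ℤ) + (β i + g i * u))), Finset.mul_sum]
    refine sum_congr rfl fun n _ => ?_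
    rw [← hh' (fun u => ∏ i ∈ Kz c D i0, H i ((P i).eval ((n : ℕ) : ℤ) + (β i + g i * u)))]
    refine sum_congr rfl fun t _ => ?_
    congr 1
    refine prod_congr rfl fun i hi => ?_
    congr 3
    unfold lf
    rw [Finset.mul_sum]
    refine sum_congr rfl fun j _ => ?_
    rw [hKc i hi j]
    ring
  rw [hsum, norm_mul]
  have hprod : ((∏ j ∈ univ.erase l, σ j : ℕ) : ℝ) ≤ (C0 : ℝ) ^ (univ.erase l).card * (X : ℝ) ^ (∑ j ∈ univ.erase l, (e j : ℝ)) := by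
    have h1 : ∏ j ∈ univ.erase l, σ j ≤ ∏ j ∈ univ.erase l, C0 * X ^ e j :=
      Finset.prod_le_prod' fun j _ => hσ j
    have h2 : ∏ j ∈ univ.erase l, C0 * X ^ e j = C0 ^ (univ.erase l).card * X ^ (∑ j ∈ univ.erase l, e j) := by
      rw [Finset.prod_mul_distrib, Finset.prod_const, Finset.prod_pow_eq_pow_sum]
    rw [h2] at h1
    have h3 : ((∏ j ∈ univ.erase l, σ j : ℕ) : ℝ) ≤ ((C0 ^ (univ.erase l).card * X ^ (∑ j ∈ univ.erase l, e j) : ℕ) : ℝ) := by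
      exact_mod_cast h1
    refine le_trans h3 (le_of_eq ?_)
    rw [Nat.cast_mul, Nat.cast_pow, Nat.cast_pow, ← Nat.cast_sum, Real.rpow_natCast]
  have hnorm : ‖((∏ j ∈ univ.erase l, σ j : ℕ) : ℂ)‖ = ((∏ j ∈ univ.erase l, σ j : ℕ) : ℝ) := Complex.norm_natCast _
  rw [hnorm]
  have hsum2 : ‖∑ ρ ∈ range Λn,
        ∑ m ∈ Ico ((n0 + (Λn - 1 - ρ)) / Λn) ((n0 + N + (Λn - 1 - ρ)) / Λn),
        ∑ u ∈ U, h' u * ∏ i ∈ Kz c D i0, H i ((P i).eval (((Λn * m + ρ : ℕ)) : ℤ) + (β i + g i * u))‖ ≤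
      Λn * (X : ℝ) ^ ((D i0 : ℝ) + 1 - δ) := by
    refine le_trans (norm_sum_le _ _) ?_
    refine le_trans (Finset.sum_le_sum hclass) ?_
    rw [Finset.sum_const, card_range, nsmul_eq_mul]
  have hel : e l = D i0 := hπe l hl
  have hes : (∑ j ∈ univ.erase l, (e j : ℝ)) + (D i0 : ℝ) = ∑ j, (e j : ℝ) := by
    rw [← Finset.sum_erase_add _ _ (mem_univ l), hel]
  calc ((∏ j ∈ univ.erase l, σ j : ℕ) : ℝ) * ‖∑ ρ ∈ range Λn,
        ∑ m ∈ Ico ((n0 + (Λn - 1 - ρ)) / Λn) ((n0 + N + (Λn - 1 - ρ)) / Λn),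
        ∑ u ∈ U, h' u * ∏ i ∈ Kz c D i0, H i ((P i).eval (((Λn * m + ρ : ℕ)) : ℤ) + (β i + g i * u))‖
      ≤ ((C0 : ℝ) ^ (univ.erase l).card * (X : ℝ) ^ (∑ j ∈ univ.erase l, (e j : ℝ))) * (Λn * (X : ℝ) ^ ((D i0 : ℝ) + 1 - δ)) :=
        mul_le_mul hprod hsum2 (norm_nonneg _) (by positivity)
    _ = ((C0 : ℝ) ^ (univ.erase l).card * Λn) * ((X : ℝ) ^ (∑ j ∈ univ.erase l, (e j : ℝ)) * (X : ℝ) ^ ((D i0 : ℝ) + 1 - δ)) := by
        ring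
    _ ≤ (X : ℝ) ^ (δ / 2) * ((X : ℝ) ^ (∑ j ∈ univ.erase l, (e j : ℝ)) * (X : ℝ) ^ ((D i0 : ℝ) + 1 - δ)) :=
        mul_le_mul_of_nonneg_right (hX1 X hXX1) (by positivity)
    _ = (X : ℝ) ^ (1 + (∑ j, (e j : ℝ)) - δ / 2) := by
        rw [← Real.rpow_add hXr, ← Real.rpow_add hXr]
        congr 1
        rw [← hes]
        ring

end Pool.Agent.HUP
end

-- from Lib.HUP.F8
section

/-!
# Projects HUP and HPC, module F (the second moment `FMT` from Theorem P), F8: FMT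
-/

open Finset Polynomial

namespace Pool.Agent.HUP

open Pool.Agent.HUK (GG DD DL DV FF bxS Bdd)

theorem f8_ev (C x : ℝ) (hx : 0 < x) : ∃ X0 : ℕ, ∀ X : ℕ, X0 ≤ X → C ≤ (X : ℝ) ^ x := by
  have h1 : Filter.Tendsto (fun Q : ℕ => (Q : ℝ) ^ x) Filter.atTop Filter.atTop :=
    (tendsto_rpow_atTop hx).comp tendsto_natCast_atTop_atTop
  obtain ⟨Q0, h⟩ := Filter.eventually_atTop.mp (h1.eventually_ge_atTop C)
  exact ⟨Q0, h⟩

theorem f8_triv {d : ℕ} (n0 N : ℕ) (T : Finset (Fin d → ℤ)) (F : ℕ → (Fin d → ℤ) → ℂ) (hF : ∀ n t, ‖F n t‖ ≤ 1) :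
    ‖∑ n ∈ Ico n0 (n0 + N), ∑ t ∈ T, F n t‖ ≤ N * T.card := by
  refine (norm_sum_le _ _).trans ?_
  have h1 : ∀ n ∈ Ico n0 (n0 + N), ‖∑ t ∈ T, F n t‖ ≤ T.card := by
    intro n _
    refine (norm_sum_le _ _).trans ?_
    calc ∑ t ∈ T, ‖F n t‖ ≤ ∑ _t ∈ T, (1 : ℝ) := sum_le_sum fun t _ => hF n t
      _ = T.card := by rw [sum_const, nsmul_eq_mul, mul_one]
  refine (sum_le_sum h1).trans ?_
  rw [sum_const, Nat.card_Ico, nsmul_eq_mul, Nat.add_sub_cancel_left]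

theorem f8_card {d : ℕ} (b : Fin d → ℤ) (σ e : Fin d → ℕ) (C0 X : ℕ) (h : ∀ j, σ j ≤ C0 * X ^ e j) :
    ((tb b σ).card : ℝ) ≤ (C0 : ℝ) ^ d * (X : ℝ) ^ (∑ j, e j) := by
  have h1 : (tb b σ).card ≤ C0 ^ d * X ^ (∑ j, e j) := by
    unfold tb
    rw [Fintype.card_piFinset]
    calc ∏ j, (Ico (b j) (b j + σ j)).card ≤ ∏ j : Fin d, (C0 * X ^ e j) := by
          refine prod_le_prod (fun _ _ => Nat.zero_le _) fun j _ => ?_
          rw [Int.card_Ico]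
          have := h j
          omega
      _ = C0 ^ d * X ^ (∑ j, e j) := by
          rw [prod_mul_distrib, prod_const, card_univ, Fintype.card_fin, prod_pow_eq_pow_sum]
  exact_mod_cast h1

theorem f8_DV {s : ℕ} (h : Fin s → ℤ) (f : ℤ → ℂ) (hf : ∀ z, ‖f z‖ ≤ 1) (z : ℤ) : ‖DV h f z‖ ≤ 1 :=
  Pool.Agent.HUK.DL_norm _ f hf z

theorem f8_DV0 {s : ℕ} (h : Fin s → ℤ) (f : ℤ → ℂ) (z : ℤ) (hz : f z = 0) : DV h f z = 0 :=
  Pool.Agent.HUK.DL_supp _ f z hz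

/-- **Module F.** Proof. `F1_vec` gives `v`, `F5_bil` (for `i0`, `C0`) gives `s0`; `s = s0 + (k + 1)`. Given `κ`: `F5_bil` with `κ/2` gives `δ0`. `F6_elim`; the
functions `H i = DV (fun r => lf c (v r) i * j r) (f i)` are bounded by `1` and supported where `f i` is (`Bdd_DV`, `DL_supp`). Split the `j ∈ bxS (k+1) (X^D0)` (`D0 = D i0`): if
`GG (C0 X^D0) s0 (H i0) ≤ X^(D0 (s0 + 1) - κ/2)`, then each inner norm is at most `X^(1 + ∑ e - δ0)` (`F5_bil`), so the sum over `n'` over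
`X^(2 + ∑ e)` at most `C0 X^(-δ0)`. The number of the other `j` is at most `X^(D0 (s + 1) - κ) / X^(D0 (s0 + 1) - κ/2) = X^(D0 (k + 1) - κ/2)` (`F7_inj`,
`μ r = lf c (v r) i0 ≠ 0`), for them the trivial bound `C0^2 · C0^d` (`N ≤ C0 X`, `card tb = ∏ σ j ≤ C0^d X^(∑ e)`). `bxS` has at most `(2 X^D0)^(k+1)` elements.
So the `2^(k+1)`-th power is at most `C' (X^(-δ0) + X^(-κ/2))`. -/
theorem FMT_of {k d : ℕ} (c : Fin k → Fin d → ℤ) (e : Fin d → ℕ) (D : Fin k → ℕ) (a : Fin k → ℤ) (hD : Dat c e D a)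
    (hTP : ∀ (D q : ℕ) (r : Fin q → ℤ), 1 ≤ D → (∀ j, r j ≠ 0) → HPC.ThmPZ D q r) : FMT c e D a := by
  classical
  intro i0 C0
  obtain ⟨v, hv0, hv1, hv2⟩ := F1_vec c e D a hD i0
  obtain ⟨s0, hs0, hF5⟩ := F5_bil c e D a hD hTP i0 C0
  obtain ⟨C, hC1, hF6⟩ := F6_elim c e D a hD i0 v hv1 hv2 C0
  refine ⟨s0 + (k + 1), by omega, fun κ hκ => ?_⟩
  obtain ⟨δ0, hδ0, X1, hX1⟩ := hF5 (κ / 2) (by linarith)
  obtain ⟨δ1, hδ1⟩ : ∃ δ1 : ℝ, δ1 = min δ0 (κ / 2) := ⟨_, rfl⟩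
  have hδ1p : 0 < δ1 := by rw [hδ1]; exact lt_min hδ0 (by linarith)
  have hδ1a : δ1 ≤ δ0 := by rw [hδ1]; exact min_le_left _ _
  have hδ1b : δ1 ≤ κ / 2 := by rw [hδ1]; exact min_le_right _ _
  obtain ⟨C', hC'⟩ : ∃ C' : ℝ, C' = C * (2 ^ (k + 1) * C0 + (C0 : ℝ) ^ (d + 2)) := ⟨_, rfl⟩
  obtain ⟨X2, hX2⟩ := f8_ev C' (δ1 / 2) (by linarith)
  refine ⟨δ1 / 2 / 2 ^ (k + 1), by positivity, X1 + X2 + 1, ?_⟩
  intro X hX P hP β b σ hσ n0 N hN w hw f hf hfs hG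
  have hXn : 1 ≤ X := by omega
  have hx1 : (1 : ℝ) ≤ X := by exact_mod_cast hXn
  have hx0 : (0 : ℝ) < X := by linarith
  have hCX := hX2 X (by omega)
  have hF5' := hX1 X (by omega) P hP β b σ hσ n0 N hN
  obtain ⟨h, hh1, hh2⟩ := hF6 X hXn P β b σ hσ n0 N hN w hw f hf
  obtain ⟨S, hS⟩ : ∃ S : ℝ, S = ∑ t ∈ tb b σ, ‖∑ n ∈ Ico n0 (n0 + N), w n * ∏ i, f i ((P i).eval (n : ℤ) +
    (β i + lf c t i))‖ ^ 2 := ⟨_, rfl⟩
  rw [← hS] at hh2 ⊢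
  have hS0 : 0 ≤ S := by rw [hS]; exact sum_nonneg fun _ _ => by positivity
  obtain ⟨M, hM⟩ : ∃ M : ℝ, M = (X : ℝ) ^ (2 + ∑ j, e j) := ⟨_, rfl⟩
  rw [← hM] at hh2
  have hM0 : 0 < M := by rw [hM]; positivity
  have hMr : M = (X : ℝ) ^ ((2 : ℝ) + ∑ j, (e j : ℝ)) := by
    rw [hM, ← Real.rpow_natCast (X : ℝ) (2 + ∑ j, e j)]
    congr 1
    push_cast
    ring
  obtain ⟨A, hA⟩ : ∃ A : (Fin (k + 1) → ℤ) → ℝ, ∀ j, A j = (∑ n' ∈ Ico n0 (n0 + N),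
      ‖∑ n ∈ Ico n0 (n0 + N), ∑ t ∈ tb b σ, h j n' t * ∏ i ∈ Kz c D i0,
        DV (fun r => lf c (v r) i * j r) (f i) ((P i).eval (n : ℤ) + (β i + lf c t i))‖) / M := ⟨_, fun _ => rfl⟩
  have hh3 : (S / M) ^ 2 ^ (k + 1) ≤ C / (X : ℝ) ^ (D i0 * (k + 1)) * ∑ j ∈ bxS (k + 1) (X ^ D i0), A j := by
    refine hh2.trans (le_of_eq ?_)
    congr 1
    exact sum_congr rfl fun j _ => (hA j).symm
  have hHn : ∀ (j : Fin (k + 1) → ℤ) (i : Fin k) (m : ℤ), ‖DV (fun r => lf c (v r) i * j r) (f i) m‖ ≤ 1 :=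
    fun j i m => f8_DV _ (f i) (hf i) m
  have hN' : (N : ℝ) ≤ C0 * X := by
    have : N ≤ C0 * X := by omega
    exact_mod_cast this
  have hIco : ∀ c' : ℝ, ∑ _n' ∈ Ico n0 (n0 + N), c' = N * c' := by
    intro c'
    rw [sum_const, Nat.card_Ico, nsmul_eq_mul, Nat.add_sub_cancel_left]
  -- good directions
  have hgood : ∀ j, GG (C0 * X ^ D i0) s0 (DV (fun r => lf c (v r) i0 * j r) (f i0)) ≤
      (X : ℝ) ^ ((D i0 : ℝ) * (s0 + 1) - κ / 2) → A j ≤ C0 * (X : ℝ) ^ (-δ0) := by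
    intro j hj
    have h1 : ∀ n' ∈ Ico n0 (n0 + N), ‖∑ n ∈ Ico n0 (n0 + N), ∑ t ∈ tb b σ, h j n' t * ∏ i ∈ Kz c D i0,
        DV (fun r => lf c (v r) i * j r) (f i) ((P i).eval (n : ℤ) + (β i + lf c t i))‖ ≤
        (X : ℝ) ^ (1 + (∑ j, (e j : ℝ)) - δ0) := fun n' _ =>
      hF5' (fun i => DV (fun r => lf c (v r) i * j r) (f i)) (fun i m => hHn j i m)
        (fun i m hm => f8_DV0 _ _ m (hfs i m hm)) (h j n') (fun t => hh1 j n' t) hj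
    have h2 := sum_le_sum h1
    rw [hIco] at h2
    rw [hA, div_le_iff₀ hM0]
    refine h2.trans ?_
    have h3 : (X : ℝ) * (X : ℝ) ^ (1 + (∑ j, (e j : ℝ)) - δ0) = (X : ℝ) ^ (-δ0) * M := by
      rw [hMr, ← Real.rpow_add hx0]
      calc (X : ℝ) * (X : ℝ) ^ (1 + (∑ j, (e j : ℝ)) - δ0) =
            (X : ℝ) ^ (1 : ℝ) * (X : ℝ) ^ (1 + (∑ j, (e j : ℝ)) - δ0) := by rw [Real.rpow_one]
        _ = (X : ℝ) ^ (-δ0 + (2 + ∑ j, (e j : ℝ))) := by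
            rw [← Real.rpow_add hx0]
            congr 1
            ring
    calc (N : ℝ) * (X : ℝ) ^ (1 + (∑ j, (e j : ℝ)) - δ0) ≤ (C0 * X) * (X : ℝ) ^ (1 + (∑ j, (e j : ℝ)) - δ0) :=
          mul_le_mul_of_nonneg_right hN' (by positivity)
      _ = C0 * ((X : ℝ) * (X : ℝ) ^ (1 + (∑ j, (e j : ℝ)) - δ0)) := by ring
      _ = C0 * (X : ℝ) ^ (-δ0) * M := by rw [h3]; ring
  -- all directions
  have hall : ∀ j, A j ≤ (C0 : ℝ) ^ (d + 2) := by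
    intro j
    have h1 : ∀ n' ∈ Ico n0 (n0 + N), ‖∑ n ∈ Ico n0 (n0 + N), ∑ t ∈ tb b σ, h j n' t * ∏ i ∈ Kz c D i0,
        DV (fun r => lf c (v r) i * j r) (f i) ((P i).eval (n : ℤ) + (β i + lf c t i))‖ ≤
        N * (tb b σ).card := by
      intro n' _
      refine f8_triv n0 N (tb b σ) (fun n t => h j n' t * ∏ i ∈ Kz c D i0,
        DV (fun r => lf c (v r) i * j r) (f i) ((P i).eval (n : ℤ) + (β i + lf c t i))) ?_
      intro n t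
      rw [norm_mul, norm_prod]
      refine mul_le_one₀ (hh1 j n' t) (prod_nonneg fun _ _ => norm_nonneg _) ?_
      exact prod_le_one (fun _ _ => norm_nonneg _) fun i _ => hHn j i _
    have h2 := sum_le_sum h1
    rw [hIco] at h2
    rw [hA, div_le_iff₀ hM0]
    refine h2.trans ?_
    have h3 := f8_card b σ e C0 X hσ
    have h4 : (N : ℝ) * (N * (tb b σ).card) ≤ (C0 * X) * ((C0 * X) * ((C0 : ℝ) ^ d * (X : ℝ) ^ (∑ j, e j))) := by
      gcongr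
    refine h4.trans (le_of_eq ?_)
    rw [hM]
    ring
  -- the number of the bad directions
  obtain ⟨B, hB⟩ : ∃ B : Finset (Fin (k + 1) → ℤ), B = (bxS (k + 1) (X ^ D i0)).filter fun j =>
    ¬ GG (C0 * X ^ D i0) s0 (DV (fun r => lf c (v r) i0 * j r) (f i0)) ≤
      (X : ℝ) ^ ((D i0 : ℝ) * (s0 + 1) - κ / 2) := ⟨_, rfl⟩
  have hGn : ∀ j : Fin (k + 1) → ℤ, 0 ≤ GG (C0 * X ^ D i0) s0 (DV (fun r => lf c (v r) i0 * j r) (f i0)) := by
    intro j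
    refine Pool.Agent.HUK.GG_nonneg _ s0 (by omega) _ ?_
    intro y hy
    exact f8_DV0 _ _ y (hfs i0 y hy)
  have hBc : (B.card : ℝ) ≤ (X : ℝ) ^ ((D i0 : ℝ) * (k + 1) - κ / 2) := by
    have h1 := F7_inj (C0 * X ^ D i0) s0 (k + 1) (X ^ D i0) (by omega) (fun r => lf c (v r) i0) hv0 (f i0)
      (fun y hy => hfs i0 y hy)
    have h2 : (B.card : ℝ) * (X : ℝ) ^ ((D i0 : ℝ) * (s0 + 1) - κ / 2) ≤
        ∑ j ∈ B, GG (C0 * X ^ D i0) s0 (DV (fun r => lf c (v r) i0 * j r) (f i0)) := by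
      rw [← nsmul_eq_mul, ← sum_const]
      refine sum_le_sum fun j hj => ?_
      rw [hB, mem_filter] at hj
      exact (not_le.1 hj.2).le
    have h3 : ∑ j ∈ B, GG (C0 * X ^ D i0) s0 (DV (fun r => lf c (v r) i0 * j r) (f i0)) ≤
        ∑ j ∈ bxS (k + 1) (X ^ D i0), GG (C0 * X ^ D i0) s0 (DV (fun r => lf c (v r) i0 * j r) (f i0)) := by
      rw [hB]
      exact sum_le_sum_of_subset_of_nonneg (filter_subset _ _) fun j _ _ => hGn j
    have h4 : (B.card : ℝ) * (X : ℝ) ^ ((D i0 : ℝ) * (s0 + 1) - κ / 2) ≤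
        (X : ℝ) ^ ((D i0 : ℝ) * (k + 1) - κ / 2) * (X : ℝ) ^ ((D i0 : ℝ) * (s0 + 1) - κ / 2) := by
      rw [← Real.rpow_add hx0]
      refine (h2.trans (h3.trans (h1.trans hG))).trans (le_of_eq ?_)
      congr 1
      push_cast
      ring
    exact le_of_mul_le_mul_right h4 (Real.rpow_pos_of_pos hx0 _)
  -- the sum over the directions
  have hsum : ∑ j ∈ bxS (k + 1) (X ^ D i0), A j ≤ (X : ℝ) ^ (D i0 * (k + 1)) *
      ((2 ^ (k + 1) * C0 + (C0 : ℝ) ^ (d + 2)) * (X : ℝ) ^ (-δ1)) := by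
    have h1 : ∀ j ∈ bxS (k + 1) (X ^ D i0), A j ≤ C0 * (X : ℝ) ^ (-δ0) + if j ∈ B then (C0 : ℝ) ^ (d + 2) else 0 := by
      intro j hj
      by_cases hjB : j ∈ B
      · rw [if_pos hjB]
        have h2 : (0 : ℝ) ≤ C0 * (X : ℝ) ^ (-δ0) := by positivity
        have h3 := hall j
        linarith
      · rw [if_neg hjB, add_zero]
        refine hgood j ?_
        by_contra hcon
        exact hjB (by rw [hB, mem_filter]; exact ⟨hj, hcon⟩)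
    refine (sum_le_sum h1).trans ?_
    rw [sum_add_distrib, sum_const, nsmul_eq_mul, ← sum_filter]
    have h2 : (bxS (k + 1) (X ^ D i0)).filter (fun j => j ∈ B) = B := by
      ext j
      rw [mem_filter, hB, mem_filter]
      tauto
    rw [h2, sum_const, nsmul_eq_mul]
    have h3 : ((bxS (k + 1) (X ^ D i0)).card : ℝ) ≤ 2 ^ (k + 1) * (X : ℝ) ^ (D i0 * (k + 1)) := by
      refine (Pool.Agent.HUK.bxS_card _ _).trans (le_of_eq ?_)
      push_cast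
      rw [mul_pow, ← pow_mul]
    have h4 : (X : ℝ) ^ (-δ0) ≤ (X : ℝ) ^ (-δ1) := Real.rpow_le_rpow_of_exponent_le hx1 (by linarith)
    have h5 : (X : ℝ) ^ ((D i0 : ℝ) * (k + 1) - κ / 2) ≤ (X : ℝ) ^ (D i0 * (k + 1)) * (X : ℝ) ^ (-δ1) := by
      rw [← Real.rpow_natCast, ← Real.rpow_add hx0]
      refine Real.rpow_le_rpow_of_exponent_le hx1 ?_
      push_cast
      linarith
    have h6 : ((bxS (k + 1) (X ^ D i0)).card : ℝ) * (C0 * (X : ℝ) ^ (-δ0)) ≤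
        (2 ^ (k + 1) * (X : ℝ) ^ (D i0 * (k + 1))) * (C0 * (X : ℝ) ^ (-δ1)) :=
      mul_le_mul h3 (mul_le_mul_of_nonneg_left h4 (by positivity)) (by positivity) (by positivity)
    have h7 : (B.card : ℝ) * (C0 : ℝ) ^ (d + 2) ≤
        ((X : ℝ) ^ (D i0 * (k + 1)) * (X : ℝ) ^ (-δ1)) * (C0 : ℝ) ^ (d + 2) :=
      mul_le_mul_of_nonneg_right (hBc.trans h5) (by positivity)
    refine (add_le_add h6 h7).trans (le_of_eq ?_)
    ring
  have hy0 : (0 : ℝ) < (X : ℝ) ^ (D i0 * (k + 1)) := by positivity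
  have hfin : (S / M) ^ 2 ^ (k + 1) ≤ ((X : ℝ) ^ (-(δ1 / 2 / 2 ^ (k + 1)))) ^ 2 ^ (k + 1) := by
    have h1 : C / (X : ℝ) ^ (D i0 * (k + 1)) * ∑ j ∈ bxS (k + 1) (X ^ D i0), A j ≤ C' * (X : ℝ) ^ (-δ1) := by
      calc C / (X : ℝ) ^ (D i0 * (k + 1)) * ∑ j ∈ bxS (k + 1) (X ^ D i0), A j ≤
            C / (X : ℝ) ^ (D i0 * (k + 1)) * ((X : ℝ) ^ (D i0 * (k + 1)) *
              ((2 ^ (k + 1) * C0 + (C0 : ℝ) ^ (d + 2)) * (X : ℝ) ^ (-δ1))) :=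
            mul_le_mul_of_nonneg_left hsum (by positivity)
        _ = C' * (X : ℝ) ^ (-δ1) := by
            rw [hC']
            field_simp
    have h2 : C' * (X : ℝ) ^ (-δ1) ≤ (X : ℝ) ^ (-(δ1 / 2)) := by
      calc C' * (X : ℝ) ^ (-δ1) ≤ (X : ℝ) ^ (δ1 / 2) * (X : ℝ) ^ (-δ1) :=
            mul_le_mul_of_nonneg_right hCX (by positivity)
        _ = (X : ℝ) ^ (-(δ1 / 2)) := by
            rw [← Real.rpow_add hx0]
            congr 1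
            ring
    have h3 : ((X : ℝ) ^ (-(δ1 / 2 / 2 ^ (k + 1)))) ^ 2 ^ (k + 1) = (X : ℝ) ^ (-(δ1 / 2)) := by
      rw [← Real.rpow_natCast, ← Real.rpow_mul hx0.le]
      congr 1
      push_cast
      field_simp
    rw [h3]
    exact (hh3.trans h1).trans h2
  have h1 : S / M ≤ (X : ℝ) ^ (-(δ1 / 2 / 2 ^ (k + 1))) :=
    (pow_le_pow_iff_left₀ (by positivity) (by positivity) (by positivity)).1 hfin
  rw [div_le_iff₀ hM0] at h1
  refine h1.trans (le_of_eq ?_)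
  rw [hMr, ← Real.rpow_add hx0]
  congr 1
  ring

end Pool.Agent.HUP
end
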