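import Mathlib
import Pool.Agent.Lib.H59M.M2.M001
import Pool.Agent.Lib.H59M.M2.M003
import Pool.Agent.Lib.H59M.M2.M006
import Pool.Agent.Lib.H59M.M2.M014
import Pool.Agent.Lib.H59M.M2.M016
import Pool.Agent.Lib.H59M.M2.M023
import Pool.Agent.Lib.H59M.M2.M024
import Pool.Agent.Lib.H59M.M2.M025
import Pool.Agent.Lib.H59M.M2.M026
import Pool.Agent.Lib.H59M.M2.M031
import Pool.Agent.Lib.H59M.M2.M035
import Pool.Agent.Lib.H59M.M2.M036
import Pool.Agent.Lib.H59M.M2.M039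
import Pool.Agent.Lib.H59M.M2.M040
import Pool.Agent.Lib.H59M.M2.M041
import Pool.Agent.Lib.H59M.M2.M044
import Pool.Agent.Lib.H59M.M2.M047
import Pool.Agent.Lib.H59M.M2.M060
import Pool.Agent.Lib.H59M.M2.M063
import Pool.Agent.Lib.H59M.M2.M072
import Pool.Agent.Lib.H59M.M2.M073
import Pool.Agent.Lib.H59M.M2.M077
import Pool.Agent.Lib.H59M.M2.M078
import Pool.Agent.Lib.H59M.M2.M080
import Pool.Agent.Lib.H59M.M2.M082
import Pool.Agent.Lib.H59M.M2.M086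
import Pool.Agent.Lib.H59M.M2.M087
import Pool.Agent.Lib.H59M.M2.M088
import Pool.Agent.Lib.H59M.M2.M089
import Pool.Agent.Lib.H59M.M2.M090
import Pool.Agent.Lib.H59M.M2.M091
import Pool.Agent.Lib.H59M.M2.M092
import Pool.Agent.Lib.H59M.M2.M094
import Pool.Agent.Lib.H59M.M2.M095
import Pool.Agent.Lib.H59M.M2.M098
import Pool.Agent.Lib.H59M.M2.M100
import Pool.Agent.Lib.H59M.M2.M101
import Pool.Agent.Lib.H59M.M2.M102
import Pool.Agent.Lib.H59M.M2.M103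
import Pool.Agent.Lib.H59M.M2.M105
import Pool.Agent.Lib.H59M.M2.M106
import Pool.Agent.Lib.H59M.M2.M107
import Pool.Agent.Lib.H59M.M2.M110
import Pool.Agent.Lib.H59M.M2.M111
import Pool.Agent.Lib.H59M.M2.M112
import Pool.Agent.Lib.H59M.M2.M113

/-! Merged copies (to shorten the build) of Lib.H9P.W3, Lib.HLA.W15A, Lib.HUP.S4U, Lib.HUP.S4P, Lib.HUK.A15, Lib.HUK.A16a, Lib.HUK.A16, Lib.HUK.FIN. -/

-- from Lib.H9P.W3
section

/-!
# ASYP, W3: one exceptional set for all levels of the singular series at once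
-/

open Finset Polynomial

namespace Pool.Agent.H9P

open Pool.Agent.HUP
open Pool.Agent.Lib.H59

/-- the polynomials of an admissible system are primitive -/
theorem w3_prim {g : ℕ} {F : Fin g → ℤ[X]} {G : ℤ[X]} {N : ℕ} (hadm : Admissible F G N) (i : Fin g) : (F i).IsPrimitive := by
  intro r hr
  by_contra hu
  have h1 : r.natAbs ≠ 1 := fun h => hu (Int.isUnit_iff_natAbs_eq.2 h)
  obtain ⟨p, hp, hpr⟩ := Nat.exists_prime_and_dvd h1
  refine hadm.2 p hp fun n => ?_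
  have h2 : (p : ℤ) ∣ r := Int.natCast_dvd.2 hpr
  obtain ⟨Q, hQ⟩ := hr
  have h3 : (F i).eval n = r * Q.eval n := by
    rw [hQ, eval_mul, eval_C]
  have h4 : (p : ℤ) ∣ (F i).eval n := by
    rw [h3]
    exact h2.mul_right _
  rw [eval_mul, eval_prod]
  exact Dvd.dvd.mul_right (h4.trans (Finset.dvd_prod_of_mem (fun i => (F i).eval n) (Finset.mem_univ i))) _


/-- the series is positive -/
theorem w3_pos {g : ℕ} {F : Fin g → ℤ[X]} {G : ℤ[X]} {N : ℕ} (hadm : Admissible F G N) (z : ℕ) : 0 < seriesTrunc F G N z := by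
  unfold seriesTrunc
  refine Finset.prod_pos fun p hp => ?_
  have hp' := Nat.prime_of_mem_primesBelow hp
  have h1 : (omegaN F G N p : ℝ) < p := by exact_mod_cast omegaN_lt hadm hp'
  have h2 : (1 : ℝ) < p := by exact_mod_cast hp'.one_lt
  have h3 : (0 : ℝ) < 1 - (omegaN F G N p : ℝ) / p := by
    rw [sub_pos, div_lt_one (by linarith)]
    exact h1
  have h4 : (0 : ℝ) < 1 - 1 / (p : ℝ) := by
    rw [sub_pos, div_lt_one (by linarith)]
    exact h2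
  positivity


/-- the last step of `W3_unif` -/
theorem w3_fin (q u v ε ε' : ℝ) (hu : 0 ≤ u) (hε : 0 < ε) (h1 : ε' ≤ 1 / 4) (h2 : ε' ≤ ε / 4)
    (c1 : -(ε' * u) ≤ q - u) (c2 : q - u ≤ ε' * u) (k1 : v - u ≤ ε' * u) (k2 : -(ε' * u) ≤ v - u)
    (t : ε * v < |q - v|) : False := by
  have h3 : ε' * u ≤ 1 / 4 * u := mul_le_mul_of_nonneg_right h1 hu
  have h4 : ε' * u ≤ ε / 4 * u := mul_le_mul_of_nonneg_right h2 hu
  have h5 : 3 / 4 * u ≤ v := by linarith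
  have h6 : ε * (3 / 4 * u) ≤ ε * v := mul_le_mul_of_nonneg_left h5 hε.le
  have h7 : 0 ≤ ε * u := mul_nonneg hε.le hu
  refine absurd t (not_lt.2 (abs_le.2 ⟨?_, ?_⟩))
  · linarith
  · linarith



end Pool.Agent.H9P
end

-- from Lib.HLA.W15A
section

/-!
# LOGA, chunk W15A (M): one system, one length, from the cells, the sieve and the series
-/

open Finset Polynomial

namespace Pool.Agent.HLA

open Pool.Agent.Lib.H68T Pool.Agent.Lib.H18Q Pool.Agent.Lib.H59P Pool.Agent.Lib.H24P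
open Pool.Agent.HUP Pool.Agent.H9P

/-- The values on a cell, from `Reg` for `θ/4`. Proof. `θ/4 Z' ≤ n ≤ (1 - θ/2) Z' ≤ (1 - θ/4) Z'`. -/
theorem w15_val {k : ℕ} (A : ℕ) (κ θ v : ℝ) (Z Z' : ℕ) (D : Fin k → ℕ) (φ : Fin (k + 1) → ℤ → ℤ)
    (hR : Reg A κ (θ / 4) v Z Z' D φ) (hθ : 0 < θ) (n0 X1 : ℕ) (h1 : θ / 4 * Z' ≤ n0)
    (h2 : ((n0 + 2 * X1 : ℕ) : ℝ) ≤ (1 - θ / 2) * Z') (n : ℕ) (hn : n ∈ Ico n0 (n0 + 2 * X1)) :
    (v * Z ≤ ((φ 0 (n : ℤ) : ℤ) : ℝ) ∧ ((φ 0 (n : ℤ) : ℤ) : ℝ) ≤ A * Z) ∧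
    ∀ i : Fin k, v * (Z : ℝ) ^ D i ≤ ((φ i.succ (n : ℤ) : ℤ) : ℝ) ∧
      ((φ i.succ (n : ℤ) : ℤ) : ℝ) ≤ A * (Z : ℝ) ^ D i := by
  rw [mem_Ico] at hn
  have a1 : ((n0 : ℕ) : ℝ) ≤ n := by exact_mod_cast hn.1
  have a2 : (n : ℝ) ≤ ((n0 + 2 * X1 : ℕ) : ℝ) := by exact_mod_cast hn.2.le
  have a3 : (0 : ℝ) ≤ θ / 4 * Z' := by positivity
  have a4 : (n : ℝ) ≤ (1 - θ / 4) * Z' := by
    have a5 : (1 - θ / 2) * (Z' : ℝ) ≤ (1 - θ / 4) * Z' := mul_le_mul_of_nonneg_right (by linarith) (Nat.cast_nonneg _)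
    linarith
  exact ⟨hR.val0 n (h1.trans a1) a4, hR.val n (h1.trans a1) a4⟩

/-- The cells. -/
theorem w15a_num (Z X1 : ℕ) (θ : ℝ) (hθ : 0 < θ) (hθ1 : θ ≤ 1 / 2) (hX1 : 0 < X1) (hX : (X1 : ℝ) ≤ θ / 8 * Z) :
    ∃ ja jb : ℕ, ja ≤ jb ∧ (((ja + 1) * X1 : ℕ) : ℝ) ≤ θ * Z ∧ (1 - θ) * Z ≤ ((jb + 1) * X1 : ℕ) ∧
      (((jb + 1) * X1 : ℕ) : ℝ) ≤ (1 - θ / 2) * Z ∧ θ / 4 * Z ≤ ((ja * X1 : ℕ) : ℝ) := by
  have hX1q : (0 : ℝ) < X1 := by exact_mod_cast hX1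
  have hZr : (0 : ℝ) < Z := by
    rcases Nat.eq_zero_or_pos Z with h | h
    · rw [h, Nat.cast_zero, mul_zero] at hX
      linarith
    · exact_mod_cast h
  obtain ⟨ja, hja⟩ : ∃ ja, ja = ⌈θ * Z / (4 * X1)⌉₊ := ⟨_, rfl⟩
  have hja1 : θ * Z / (4 * X1) ≤ ja := by rw [hja]; exact Nat.le_ceil _
  have hja2 : (ja : ℝ) < θ * Z / (4 * X1) + 1 := by rw [hja]; exact Nat.ceil_lt_add_one (by positivity)
  have hja3 : θ / 4 * Z ≤ ja * X1 := by
    rw [div_le_iff₀ (by positivity)] at hja1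
    linarith
  have hja4 : (ja : ℝ) * X1 ≤ θ / 4 * Z + X1 := by
    have h : ((ja : ℝ) - 1) * (4 * X1) < θ * Z := by
      rw [← lt_div_iff₀ (by positivity)]
      linarith
    linarith
  obtain ⟨jc, hjc⟩ : ∃ jc, jc = ⌊(1 - θ / 2) * Z / X1⌋₊ := ⟨_, rfl⟩
  have hjc1 : (jc : ℝ) * X1 ≤ (1 - θ / 2) * Z := by
    have h : (jc : ℝ) ≤ (1 - θ / 2) * Z / X1 := by
      rw [hjc]
      refine Nat.floor_le ?_
      apply div_nonneg (mul_nonneg (by linarith) hZr.le) hX1q.le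
    rwa [le_div_iff₀ hX1q] at h
  have hjc2 : (1 - θ / 2) * Z < (jc + 1) * X1 := by
    have h : (1 - θ / 2) * Z / X1 < jc + 1 := by rw [hjc]; exact Nat.lt_floor_add_one _
    rwa [div_lt_iff₀ hX1q] at h
  have hθZ : θ * Z ≤ 1 / 2 * Z := mul_le_mul_of_nonneg_right hθ1 hZr.le
  have hjc3 : ja + 1 ≤ jc := by
    have h1 : ((ja : ℝ) + 1) * X1 < (jc + 1) * X1 := by nlinarith
    have h2 : (ja : ℝ) + 1 < jc + 1 := lt_of_mul_lt_mul_right h1 hX1q.le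
    have h3 : ja + 1 < jc + 1 := by exact_mod_cast h2
    omega
  obtain ⟨jb, rfl⟩ : ∃ jb, jc = jb + 1 := ⟨jc - 1, by omega⟩
  push_cast at hjc1 hjc2
  refine ⟨ja, jb, by omega, ?_, ?_, ?_, ?_⟩
  · push_cast
    nlinarith
  · push_cast
    nlinarith
  · push_cast
    linarith
  · push_cast
    linarith

/-- One system, one length: the conclusion from the cells, the sieve and the comparison of the series (the last part of the proof of `V16_core`, `H9P/V16.lean`, for ONE `t`, with the length `Z'` in place of `Z`).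
`SS = SSf (pr Q) φ`, `Lg = (∏ D) (log Z')^(k+1)`, `ja = ⌈θ Z'/(4 X1)⌉₊`, `jb + 1 = ⌊(1 - θ/2) Z'/X1⌋₊` (so `(ja + 1) X1 ≤ θ Z'`, `(1 - θ) Z' ≤ (jb + 1) X1 ≤ (1 - θ/2) Z' ≤ Z'` as `X1 ≤ θ Z'/8`; for `ja ≤ j < jb`: `θ Z'/4 ≤ j X1`,
`(j + 2) X1 ≤ (1 - θ/2) Z'`). Proof. `hcell` and `hwt` give the cells `j` with these two properties, `hsv` the two ends (their lengths are at least `θ Z'/8`);
`U15_sum` with `E1 = ε/64`, `ε1 = ε/16`, `ε/2` for `ε`; then `|SSf (pr z) φ - SS| ≤ (ε/64) SS`: `|cnt - Z' dens z| ≤ (ε/2) Z' SS/Lg + (ε/64) Z' SS/Lg ≤ ε Z' dens z`. -/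
theorem w15_one {k : ℕ} (D : Fin k → ℕ) (hD : ∀ i, 1 ≤ D i) (φ : Fin (k + 1) → ℤ → ℤ) (Z' : ℕ)
    (Q z X1 : ℕ) (ε θ Cb : ℝ) (hε : 0 < ε) (hε1 : ε ≤ 1) (hθ : 0 < θ) (hθ1 : θ ≤ 1 / 2) (hCb : 0 ≤ Cb)
    (h3 : 24 * θ * (Cb + 1) ≤ ε) (hZ' : 16 ≤ θ * Z') (hlog : 1 ≤ Real.log Z') (hX1 : 0 < X1) (hX : (X1 : ℝ) ≤ θ / 8 * Z')
    (hSS : 0 < SSf (pr Q) φ)
    (hcell : ∀ j : ℕ, θ / 4 * Z' ≤ (j * X1 : ℕ) → (((j + 2) * X1 : ℕ) : ℝ) ≤ (1 - θ / 2) * Z' →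
      |wct φ ((j + 1) * X1) X1 - X1 * SSf (pr Q) φ| ≤ X1 * (ε / 32 * SSf (pr Q) φ))
    (hwt : ∀ j : ℕ, θ / 4 * Z' ≤ (j * X1 : ℕ) → (((j + 2) * X1 : ℕ) : ℝ) ≤ (1 - θ / 2) * Z' →
      |(cnt φ ((j + 1) * X1) X1 : ℝ) * ((∏ i, (D i : ℝ)) * (Real.log Z') ^ (k + 1)) - wct φ ((j + 1) * X1) X1| ≤
        ε / 16 * wct φ ((j + 1) * X1) X1)
    (hsv : ∀ n1 L : ℕ, 1 ≤ n1 → θ / 8 * Z' ≤ L → L ≤ Z' →
      (cnt φ n1 L : ℝ) * ((∏ i, (D i : ℝ)) * (Real.log Z') ^ (k + 1)) ≤ Cb * L * SSf (pr Q) φ)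
    (hz : |SSf (pr z) φ - SSf (pr Q) φ| ≤ ε / 64 * SSf (pr Q) φ) :
    |(cnt φ 1 Z' : ℝ) - Z' * dens D z Z' φ| ≤ ε * (Z' * dens D z Z' φ) := by
  obtain ⟨ja, jb, hj, ha, hb, hb', hja⟩ := w15a_num Z' X1 θ hθ hθ1 hX1 hX
  have hP0 : 0 < ∏ i, (D i : ℝ) := by
    refine prod_pos fun i _ => ?_
    exact_mod_cast hD i
  have hlZ : 0 < Real.log Z' := by linarith
  have hZ0 : (0 : ℝ) < Z' := by
    rcases Nat.eq_zero_or_pos Z' with h | h
    · rw [h, Nat.cast_zero, mul_zero] at hZ'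
      linarith
    · exact_mod_cast h
  set SS := SSf (pr Q) φ with hSSd
  set Lg : ℝ := (∏ i, (D i : ℝ)) * (Real.log Z') ^ (k + 1) with hLg
  have hLg0 : 0 < Lg := by positivity
  have hX1r : (1 : ℝ) ≤ X1 := by exact_mod_cast hX1
  have hθZ : 0 < θ * Z' := by positivity
  have hbn : (jb + 1) * X1 ≤ Z' := by
    have h1 : (((jb + 1) * X1 : ℕ) : ℝ) ≤ Z' := by linarith
    exact_mod_cast h1
  have hjm : ∀ j ∈ Ico ja jb, θ / 4 * Z' ≤ (j * X1 : ℕ) ∧ (((j + 2) * X1 : ℕ) : ℝ) ≤ (1 - θ / 2) * Z' := by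
    intro j hj
    rw [mem_Ico] at hj
    have h1 : ((ja * X1 : ℕ) : ℝ) ≤ ((j * X1 : ℕ) : ℝ) := by exact_mod_cast Nat.mul_le_mul_right _ hj.1
    have h2 : (((j + 2) * X1 : ℕ) : ℝ) ≤ (((jb + 1) * X1 : ℕ) : ℝ) := by
      exact_mod_cast Nat.mul_le_mul_right _ (by omega : j + 2 ≤ jb + 1)
    exact ⟨hja.trans h1, h2.trans hb'⟩
  have hl : (cnt φ 1 ((ja + 1) * X1 - 1) : ℝ) * Lg ≤ Cb * ((ja + 1) * X1 : ℕ) * SS := by
    have h1 : θ / 8 * Z' ≤ (((ja + 1) * X1 - 1 : ℕ) : ℝ) := by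
      have h2 : ja * X1 ≤ (ja + 1) * X1 - 1 := by
        have h3 : (ja + 1) * X1 = ja * X1 + X1 := by ring
        omega
      have h3 : ((ja * X1 : ℕ) : ℝ) ≤ (((ja + 1) * X1 - 1 : ℕ) : ℝ) := by exact_mod_cast h2
      linarith
    have h2 : (ja + 1) * X1 - 1 ≤ Z' := by
      have h3 : (ja + 1) * X1 ≤ (jb + 1) * X1 := Nat.mul_le_mul_right _ (by omega)
      omega
    refine (hsv 1 ((ja + 1) * X1 - 1) (le_refl _) h1 h2).trans ?_
    have h3 : (((ja + 1) * X1 - 1 : ℕ) : ℝ) ≤ (((ja + 1) * X1 : ℕ) : ℝ) := by exact_mod_cast Nat.sub_le _ _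
    exact mul_le_mul_of_nonneg_right (mul_le_mul_of_nonneg_left h3 hCb) hSS.le
  have hr : (cnt φ ((jb + 1) * X1) (Z' + 1 - (jb + 1) * X1) : ℝ) * Lg ≤ Cb * (Z' + 1 - (jb + 1) * X1 : ℕ) * SS := by
    refine hsv _ _ (Nat.mul_pos (Nat.succ_pos _) hX1) ?_ ?_
    · rw [Nat.cast_sub (by omega)]
      push_cast at hb' ⊢
      linarith
    · have h3 : 0 < (jb + 1) * X1 := Nat.mul_pos (Nat.succ_pos _) hX1
      omega
  have hmain := U15_sum φ Z' X1 ja jb SS Lg (ε / 64) (ε / 64 * SS) (ε / 16) θ Cb (ε / 2) hSS hLg0 (by positivity)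
    (by positivity) (by positivity) (by linarith) (by linarith) (by linarith) hθ hCb (by linarith) (by linarith) hj hX1 ha hb
    hbn (le_refl _)
    (fun j hjj => (hcell j (hjm j hjj).1 (hjm j hjj).2).trans (le_of_eq (by ring)))
    (fun j hjj => hwt j (hjm j hjj).1 (hjm j hjj).2) hl hr
  unfold H9P.dens
  rw [← hLg]
  set S' := SSf (pr z) φ with hS'
  obtain ⟨hz1, hz2⟩ := abs_le.1 hz
  have e1 : |(Z' : ℝ) * (SS / Lg) - Z' * (S' / Lg)| ≤ ε / 64 * (Z' * (SS / Lg)) := by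
    have : (Z' : ℝ) * (SS / Lg) - Z' * (S' / Lg) = -((Z' / Lg) * (S' - SS)) := by field_simp; ring
    rw [this, abs_neg, abs_mul, abs_of_pos (div_pos hZ0 hLg0)]
    calc (Z' : ℝ) / Lg * |S' - SS| ≤ Z' / Lg * (ε / 64 * SS) :=
          mul_le_mul_of_nonneg_left hz (div_pos hZ0 hLg0).le
      _ = ε / 64 * (Z' * (SS / Lg)) := by field_simp
  have e2 : (1 - ε / 64) * (Z' * (SS / Lg)) ≤ Z' * (S' / Lg) := by
    have := (abs_le.1 e1).2
    linarith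
  have e3 : 0 < (Z' : ℝ) * (SS / Lg) := by positivity
  calc |(cnt φ 1 Z' : ℝ) - Z' * (S' / Lg)| ≤ |(cnt φ 1 Z' : ℝ) - Z' * (SS / Lg)| + |(Z' : ℝ) * (SS / Lg) - Z' * (S' / Lg)| :=
        abs_sub_le _ _ _
    _ ≤ ε / 2 * (Z' * (SS / Lg)) + ε / 64 * (Z' * (SS / Lg)) := add_le_add hmain e1
    _ ≤ ε * ((1 - ε / 64) * (Z' * (SS / Lg))) := by
        have : ε / 2 + ε / 64 ≤ ε * (1 - ε / 64) := by nlinarith
        nlinarith
    _ ≤ ε * (Z' * (S' / Lg)) := mul_le_mul_of_nonneg_left e2 hε.le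

end Pool.Agent.HLA
end

-- from Lib.HUP.S4U
section

/-!
# Projects HUP, HPC, S4U (helper37): `S4TU_of`
-/

open Finset Polynomial

namespace Pool.Agent.HUP

open Pool.Agent.Lib.H68T Pool.Agent.Lib.H18Q Pool.Agent.Lib.H59P Pool.Agent.Lib.H24P
open Pool.Agent.HUK (GG Spt PK DD DL DV bxS D0_nn)
open Pool.Agent.H9U (JJ cutJ Er Rgm)

theorem s4u_card {d : ℕ} (b : Fin d → ℤ) (s : Fin d → ℕ) : (((tb b s).card : ℕ) : ℝ) = ∏ j, (s j : ℝ) := by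
  unfold tb
  rw [Fintype.card_piFinset]
  push_cast
  refine Finset.prod_congr rfl fun j _ => ?_
  rw [Int.card_Ico]
  congr 1
  omega

theorem s4u_min {k : ℕ} (c : Fin k → ℝ) (hc : ∀ i, 0 < c i) : ∃ c0 : ℝ, 0 < c0 ∧ ∀ i, c0 ≤ c i := by
  have h0 : ∀ i, 0 ≤ 1 / c i := fun i => by have := hc i; positivity
  have hs : 0 ≤ ∑ i, 1 / c i := Finset.sum_nonneg fun i _ => h0 i
  refine ⟨1 / (1 + ∑ i, 1 / c i), by positivity, fun i => ?_⟩
  have h1 : 1 / c i ≤ 1 + ∑ i, 1 / c i := by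
    have := Finset.single_le_sum (f := fun i => 1 / c i) (fun i _ => h0 i) (Finset.mem_univ i)
    beta_reduce at this
    linarith
  have hci := hc i
  rw [div_le_iff₀ (by positivity)]
  rw [div_le_iff₀ hci] at h1
  linarith

theorem s4u_le_sum {k : ℕ} (a : Fin k → ℝ) (ha : ∀ i, 0 ≤ a i) (i : Fin k) : a i ≤ ∑ i, a i :=
  Finset.single_le_sum (f := a) (fun i _ => ha i) (Finset.mem_univ i)

/-- One term. -/
theorem s4u_term {k d : ℕ} (c : Fin k → Fin d → ℤ) (e : Fin d → ℕ) (D : Fin k → ℕ) (he : ∀ l, 1 ≤ e l)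
    (hD : ∀ i, 1 ≤ D i)
    (P : Fin k → ℤ[X]) (j : Fin k) (m : ℕ) (hm : 1 ≤ m) (κ δ : ℝ)
    (Q X X1 X' : ℕ) (M : Fin k → ℕ) (b : Fin d → ℤ) (s : Fin d → ℕ) (β : Fin k → ℤ)
    (hF : ∀ (β : Fin k → ℤ) (b : Fin d → ℤ) (σ : Fin d → ℕ), (∀ j, σ j ≤ 4 * X' ^ e j) →
      ∀ n0 N : ℕ, n0 + N ≤ 4 * X' → ∀ w : ℕ → ℂ, (∀ n, ‖w n‖ ≤ 1) →
      ∀ f : Fin k → ℤ → ℂ, (∀ i m, ‖f i m‖ ≤ 1) →
      (∀ (i : Fin k) (m : ℤ), m ∉ Ico (-((4 * X' ^ D i : ℕ) : ℤ)) ((4 * X' ^ D i : ℕ) : ℤ) → f i m = 0) →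
      GG (4 * X' ^ D j) m (f j) ≤ (X' : ℝ) ^ ((D j : ℝ) * (m + 1) - κ) →
      ∑ t ∈ tb b σ, ‖∑ n ∈ Ico n0 (n0 + N), w n * ∏ i, f i ((P i).eval (n : ℤ) + (β i + lf c t i))‖ ^ 2 ≤
        (X' : ℝ) ^ (2 + (∑ j, (e j : ℝ)) - δ))
    (hκ : 0 < κ) (hX'1 : 1 ≤ X') (hX1X' : X1 ≤ X') (hsX : ∀ l, s l ≤ X' ^ e l) (hYX : ∀ i, Ysc (M i) ≤ X' ^ D i)
    (W : ℝ) (hW : 1 ≤ W) (hW2 : ∀ i, ∀ m ∈ JJ (Ysc (M i)), |lp m| ≤ W / 2 ∧ |Lk Q (Ysc (M i) / Q ^ 2) m| ≤ W / 2)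
    (hG : GG (4 * Ysc (M j)) m (cutJ (Ysc (M j)) (Er Q Q (Ysc (M j)))) ≤ (Ysc (M j) : ℝ) ^ ((m : ℝ) + 1 - κ))
    (hY1 : 1 ≤ Ysc (M j)) (hκ1 : κ ≤ 1)
    (hval : ∀ t ∈ tb b s, ∀ n ∈ Ico X1 (2 * X1), ∀ i, (P i).eval (n : ℤ) + (β i + lf c t i) ∈ JJ (Ysc (M i)))
    (hnn : ∀ t ∈ tb b s, ∀ i, 0 ≤ β i + lf c t i)
    (w : ℕ → ℝ) (hw : ∀ n ∈ Ico X1 (2 * X1), |w n| ≤ W) :
    ∑ t ∈ tb b s, (∑ n ∈ Ico X1 (2 * X1), w n * ∏ i, s4tf Q M j i ((P i).eval (n : ℤ) + hh c β t i)) ^ 2 ≤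
      W ^ (2 * (k + 1)) * (X' : ℝ) ^ (2 + (∑ j, (e j : ℝ)) - δ) := by
  classical
  have hW0 : 0 < W := by linarith
  have hX'r : (1 : ℝ) ≤ X' := by exact_mod_cast hX'1
  -- bounds of the normalised functions
  have hf1 : ∀ (i : Fin k) (m : ℤ), ‖s4tg W Q M j i m‖ ≤ 1 := by
    intro i m
    unfold s4tg
    by_cases h : m ∈ JJ (Ysc (M i))
    · rw [if_pos h, Complex.norm_real, Real.norm_eq_abs, abs_div, abs_of_pos hW0, div_le_one hW0]
      obtain ⟨h1, h2⟩ := hW2 i m h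
      unfold s4tf
      split_ifs
      · linarith
      · refine le_trans (abs_sub _ _) ?_
        linarith
      · linarith
    · rw [if_neg h, norm_zero]
      exact zero_le_one
  have hf2 : ∀ (i : Fin k) (m : ℤ), m ∉ Ico (-((4 * X' ^ D i : ℕ) : ℤ)) ((4 * X' ^ D i : ℕ) : ℤ) → s4tg W Q M j i m = 0 := by
    intro i m hm
    unfold s4tg
    rw [if_neg]
    intro h
    apply hm
    have h1 := s4b_JJ h
    have h2 : ((Ysc (M i) : ℕ) : ℤ) ≤ ((X' ^ D i : ℕ) : ℤ) := by exact_mod_cast hYX i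
    rw [mem_Ico]
    push_cast at h2 ⊢
    constructor
    · have : (0 : ℤ) ≤ (X' : ℤ) ^ D i := by positivity
      omega
    · omega
  have hSpt : Spt (4 * Ysc (M j)) (cutJ (Ysc (M j)) (Er Q Q (Ysc (M j)))) := by
    intro y hy
    unfold cutJ
    rw [if_neg]
    intro h
    apply hy
    have h1 := s4b_JJ h
    rw [mem_Ico]
    push_cast
    omega
  have hGf : GG (4 * X' ^ D j) m (s4tg W Q M j j) ≤ (X' : ℝ) ^ ((D j : ℝ) * (m + 1) - κ) := by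
    have e1 : s4tg W Q M j j = fun y => ((1 / W : ℝ) : ℂ) * cutJ (Ysc (M j)) (Er Q Q (Ysc (M j))) y :=
      funext fun y => s4tg_cut W Q M j y
    have e2 : Spt (4 * Ysc (M j)) (s4tg W Q M j j) := by
      intro y hy
      rw [e1]
      show _ * cutJ (Ysc (M j)) (Er Q Q (Ysc (M j))) y = 0
      rw [hSpt y hy, mul_zero]
    rw [s4t_win (4 * X' ^ D j) (4 * Ysc (M j)) m _ (hf2 j) e2, e1]
    refine le_trans (s4t_scale _ _ (by omega) (1 / W) (by positivity) (by rw [div_le_one hW0]; exact hW) _ hSpt) ?_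
    refine le_trans hG ?_
    have hYr : (1 : ℝ) ≤ Ysc (M j) := by exact_mod_cast hY1
    have hYX' : (Ysc (M j) : ℝ) ≤ (X' : ℝ) ^ D j := by exact_mod_cast hYX j
    have hmr : (1 : ℝ) ≤ m := by exact_mod_cast hm
    have hDr : (1 : ℝ) ≤ D j := by exact_mod_cast hD j
    calc (Ysc (M j) : ℝ) ^ ((m : ℝ) + 1 - κ) ≤ ((X' : ℝ) ^ D j) ^ ((m : ℝ) + 1 - κ) :=
          Real.rpow_le_rpow (by linarith) hYX' (by linarith)
      _ = (X' : ℝ) ^ ((D j : ℝ) * ((m : ℝ) + 1 - κ)) := by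
          rw [← Real.rpow_natCast, ← Real.rpow_mul (by linarith)]
      _ ≤ _ := by
          refine Real.rpow_le_rpow_of_exponent_le hX'r ?_
          nlinarith
  have hmain := hF β b s (fun l => (hsX l).trans (by omega)) X1 X1 (by omega)
    (fun n => if n ∈ Ico X1 (2 * X1) then ((w n / W : ℝ) : ℂ) else 0) (fun n => by
      by_cases h : n ∈ Ico X1 (2 * X1)
      · rw [if_pos h, Complex.norm_real, Real.norm_eq_abs, abs_div, abs_of_pos hW0, div_le_one hW0]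
        exact hw n h
      · rw [if_neg h, norm_zero]
        exact zero_le_one) (fun i => s4tg W Q M j i) hf1 hf2 hGf
  have hterm : ∀ t ∈ tb b s, (∑ n ∈ Ico X1 (2 * X1), w n * ∏ i, s4tf Q M j i ((P i).eval (n : ℤ) + hh c β t i)) ^ 2 =
      W ^ (2 * (k + 1)) * ‖∑ n ∈ Ico X1 (X1 + X1), (if n ∈ Ico X1 (2 * X1) then ((w n / W : ℝ) : ℂ) else 0) *
        ∏ i, s4tg W Q M j i ((P i).eval (n : ℤ) + (β i + lf c t i))‖ ^ 2 := by
    intro t ht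
    have e1 : ∑ n ∈ Ico X1 (X1 + X1), (if n ∈ Ico X1 (2 * X1) then ((w n / W : ℝ) : ℂ) else 0) *
        ∏ i, s4tg W Q M j i ((P i).eval (n : ℤ) + (β i + lf c t i)) =
        (((∑ n ∈ Ico X1 (2 * X1), w n * ∏ i, s4tf Q M j i ((P i).eval (n : ℤ) + hh c β t i)) / W ^ (k + 1) : ℝ) : ℂ) := by
      rw [← two_mul, Finset.sum_div, Complex.ofReal_sum]
      refine Finset.sum_congr rfl fun n hn => ?_
      rw [if_pos hn]
      have e2 : ∀ i, s4tg W Q M j i ((P i).eval (n : ℤ) + (β i + lf c t i)) =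
          (((s4tf Q M j i ((P i).eval (n : ℤ) + hh c β t i)) / W : ℝ) : ℂ) := by
        intro i
        have e3 : ((hh c β t i : ℕ) : ℤ) = β i + lf c t i := by
          unfold hh
          exact Int.toNat_of_nonneg (hnn t ht i)
        rw [e3]
        unfold s4tg
        rw [if_pos (hval t ht n hn i)]
      rw [Finset.prod_congr rfl fun i _ => e2 i, ← Complex.ofReal_prod, ← Complex.ofReal_mul, Finset.prod_div_distrib,
        Finset.prod_const, Finset.card_univ, Fintype.card_fin]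
      congr 1
      rw [pow_succ]
      field_simp
    rw [e1, Complex.norm_real, Real.norm_eq_abs, sq_abs, div_pow, ← pow_mul, mul_comm 2 (k + 1)]
    field_simp
  rw [Finset.sum_congr rfl hterm, ← Finset.mul_sum]
  exact mul_le_mul_of_nonneg_left hmain (by positivity)

/-- **`S4TU` from the second moment over the parameters.** -/
theorem S4TU_of1 {k d : ℕ} (c : Fin k → Fin d → ℤ) (e : Fin d → ℕ) (D : Fin k → ℕ) (a : Fin k → ℤ) (hD : Dat c e D a)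
    (hF : FMT c e D a) (hPK : ∀ m, 1 ≤ m → PK m) : S4TU c e D a := by
  classical
  intro A hA
  choose sm hsm hFs using fun j => hF j 4
  choose Kp hKp hPKs using fun j => hPK (sm j) (by have := hsm j; omega)
  obtain ⟨K2, hK2, hsize⟩ := Pool.Agent.H9U.U0_size
  have hKs : 0 ≤ ∑ j, Kp j := Finset.sum_nonneg fun j _ => zero_le_one.trans (hKp j)
  obtain ⟨K0, hK0⟩ : ∃ K0 : ℝ, K0 = K2 + ∑ j, Kp j := ⟨_, rfl⟩
  have hK01 : 1 ≤ K0 := by rw [hK0]; linarith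
  have hKle : ∀ j, Kp j ≤ K0 := by
    intro j
    have := s4u_le_sum Kp (fun j => zero_le_one.trans (hKp j)) j
    rw [hK0]
    linarith
  refine ⟨K0 + 1, by linarith, fun C => ?_⟩
  obtain ⟨Cr, hCr⟩ : ∃ Cr : ℝ, Cr = ((A : ℝ) + 1) * max C 1 := ⟨_, rfl⟩
  have hA0 : (0 : ℝ) ≤ A := Nat.cast_nonneg A
  have hCr1 : 1 ≤ Cr := by
    rw [hCr]
    have h1 := le_max_right C 1
    nlinarith
  choose κp hκp hκp1 Xp hXp using fun j => hPKs j Cr (1 / Cr) hCr1 (by positivity)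
  choose δp hδp Xf hXf using fun j => hFs j (κp j) (hκp j)
  obtain ⟨δ, hδ, hδle⟩ := s4u_min δp hδp
  obtain ⟨E, hE⟩ : ∃ E : ℕ, E = ∑ j, e j := ⟨_, rfl⟩
  obtain ⟨τ, hτ⟩ : ∃ τ : ℝ, τ = min 1 (δ / (4 * (4 + E + d))) := ⟨_, rfl⟩
  have hτ0 : 0 < τ := by rw [hτ]; exact lt_min one_pos (by positivity)
  have hτ1 : τ ≤ 1 := by rw [hτ]; exact min_le_left _ _
  have hτδ : τ * (4 + E + d) ≤ δ / 4 := by
    have h1 : τ ≤ δ / (4 * (4 + E + d)) := by rw [hτ]; exact min_le_right _ _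
    calc τ * (4 + E + d) ≤ δ / (4 * (4 + E + d)) * (4 + E + d) := mul_le_mul_of_nonneg_right h1 (by positivity)
      _ = δ / 4 := by field_simp
  obtain ⟨ε', hε'⟩ : ∃ ε' : ℝ, ε' = δ / (8 * ((k : ℝ) + 1)) := ⟨_, rfl⟩
  have hε'0 : 0 < ε' := by rw [hε']; positivity
  obtain ⟨ε, hε⟩ : ∃ ε : ℝ, ε = ε' / (2 * ((A : ℝ) + 1)) := ⟨_, rfl⟩
  have hε0 : 0 < ε := by rw [hε]; positivity
  obtain ⟨Xs, hXs⟩ := hsize ε hε0
  obtain ⟨Xl, hXl⟩ := Pool.Agent.H9U.U0_lp ε hε0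
  obtain ⟨Qn, hQn1, hQn⟩ := s4t_num k d E δ τ hδ hτ0 hτδ
  obtain ⟨Qg, hQg1, hQg⟩ := G1_log 1 2 1 ε' hε'0
  obtain ⟨Xa, hXa⟩ := s4a_large 4 (ε' / 2) (by positivity)
  obtain ⟨Qr, hQr⟩ := s4t_reg D hD.deg K0 C hK01
  refine ⟨τ, δ / 4, hτ0, hτ1, by positivity, 80 + Qn + Qr + Xs + Xl + Xa + Qg + ∑ j, Xp j + ∑ j, Xf j, ?_⟩
  intro P hP Q X X1 M b s β hQ hR hG hXX1 hMX hs1 hs2 _ hval w hw
  have hXpj : ∀ j, Xp j ≤ ∑ j, Xp j := fun j => s4t_le_sum Xp j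
  have hXfj : ∀ j, Xf j ≤ ∑ j, Xf j := fun j => s4t_le_sum Xf j
  have hQ80 : 80 ≤ Q := by omega
  have hQ1 : 1 ≤ Q := by omega
  have hQr1 : (1 : ℝ) ≤ Q := by exact_mod_cast hQ1
  have hQr0 : (0 : ℝ) < Q := by linarith
  have hX1pos : 1 ≤ X1 := hG.pos
  have hX1r : (1 : ℝ) ≤ X1 := by exact_mod_cast hX1pos
  have hXX : X1 ≤ X := hG.le
  have hXr1 : (1 : ℝ) ≤ X := by exact_mod_cast hX1pos.trans hXX
  have hXr0 : (0 : ℝ) < X := by linarith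
  have hlQ : 0 ≤ Real.log Q := Real.log_nonneg hQr1
  have hlX : 0 ≤ Real.log X := Real.log_nonneg hXr1
  have hQQX : (Q : ℝ) ^ 2 ≤ X := by
    rw [← Real.log_le_log_iff (by positivity) hXr0, Real.log_pow]
    have h1 := hR.1
    push_cast
    nlinarith
  have hQX1 : (Q : ℝ) ≤ X1 := by
    have h1 : (X : ℝ) ≤ X1 * Q := by exact_mod_cast hG.ge
    nlinarith
  have hQX1n : Q ≤ X1 := by exact_mod_cast hQX1
  have hreg := hQr A Q X X1 a P M hD.lc hP (by omega) hR hG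
  have hYX1 : ∀ i, X1 ≤ Ysc (M i) := fun i => (hreg i).2.1
  have hYQ : ∀ i, Q ≤ Ysc (M i) := fun i => hQX1n.trans (hYX1 i)
  have hYr : ∀ i, (1 : ℝ) ≤ Ysc (M i) := fun i => by exact_mod_cast hQ1.trans (hYQ i)
  -- the auxiliary scale
  obtain ⟨X', hX'⟩ : ∃ X' : ℕ, X' = ⌈(X : ℝ) * (Q : ℝ) ^ τ⌉₊ := ⟨_, rfl⟩
  have hQτ1 : 1 ≤ (Q : ℝ) ^ τ := Real.one_le_rpow hQr1 hτ0.le
  have hX'lo : (X : ℝ) * (Q : ℝ) ^ τ ≤ X' := by rw [hX']; exact Nat.le_ceil _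
  have hX'hi : (X' : ℝ) ≤ 2 * X * (Q : ℝ) ^ τ := by
    have h1 := Nat.ceil_lt_add_one (show (0 : ℝ) ≤ (X : ℝ) * (Q : ℝ) ^ τ by positivity)
    rw [← hX'] at h1
    nlinarith
  have hXX' : X ≤ X' := by
    have : (X : ℝ) ≤ X' := by nlinarith
    exact_mod_cast this
  have hX'1 : 1 ≤ X' := (hX1pos.trans hXX).trans hXX'
  have hsX : ∀ l, s l ≤ X' ^ e l := by
    intro l
    have h1 : (s l : ℝ) ≤ (X' : ℝ) ^ e l := by
      refine (hs2 l).trans ?_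
      calc (Q : ℝ) ^ τ * (X : ℝ) ^ e l ≤ ((Q : ℝ) ^ τ) ^ e l * (X : ℝ) ^ e l :=
            mul_le_mul_of_nonneg_right (le_self_pow₀ hQτ1 (by have := hD.par l; omega)) (by positivity)
        _ = ((X : ℝ) * (Q : ℝ) ^ τ) ^ e l := by rw [mul_pow]; ring
        _ ≤ _ := pow_le_pow_left₀ (by positivity) hX'lo _
    exact_mod_cast h1
  have hYM : ∀ i, (Ysc (M i) : ℝ) ≤ M i := by
    intro i
    have : Ysc (M i) ≤ M i := by
      unfold Ysc
      omega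
    exact_mod_cast this
  have hYX : ∀ i, Ysc (M i) ≤ X' ^ D i := by
    intro i
    have h1 : (Ysc (M i) : ℝ) ≤ (X' : ℝ) ^ D i := by
      refine ((hYM i).trans (hMX i)).trans ?_
      rw [(hP i).1]
      calc (X1 : ℝ) ^ D i * (Q : ℝ) ^ τ ≤ (X : ℝ) ^ D i * ((Q : ℝ) ^ τ) ^ D i := by
            refine mul_le_mul (pow_le_pow_left₀ (by positivity) (by exact_mod_cast hXX) _) (le_self_pow₀ hQτ1 (by have := hD.deg i; omega))
              (by positivity) (by positivity)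
        _ = ((X : ℝ) * (Q : ℝ) ^ τ) ^ D i := by rw [mul_pow]
        _ ≤ _ := pow_le_pow_left₀ (by positivity) hX'lo _
    exact_mod_cast h1
  -- the size of the functions
  obtain ⟨W, hW⟩ : ∃ W : ℝ, W = (X : ℝ) ^ ε' := ⟨_, rfl⟩
  have hW1 : 1 ≤ W := by rw [hW]; exact Real.one_le_rpow hXr1 hε'0.le
  have hYε : ∀ i, (Ysc (M i) : ℝ) ^ ε ≤ W / 2 := by
    intro i
    have hY0 : (0 : ℝ) < Ysc (M i) := by linarith [hYr i]
    have h1 : (Ysc (M i) : ℝ) ^ ε ≤ (X : ℝ) ^ (ε' / 2) := by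
      rw [Real.rpow_def_of_pos hY0, Real.rpow_def_of_pos hXr0, Real.exp_le_exp]
      have h2 := (hreg i).2.2
      have h3 : ((D i : ℕ) : ℝ) ≤ A := by exact_mod_cast hA i
      have h4 : Real.log (Ysc (M i)) ≤ ((A : ℝ) + 1) * Real.log X := h2.trans (mul_le_mul_of_nonneg_right (by linarith) hlX)
      calc Real.log (Ysc (M i)) * ε ≤ ((A : ℝ) + 1) * Real.log X * ε := mul_le_mul_of_nonneg_right h4 hε0.le
        _ = Real.log X * (ε' / 2) := by rw [hε]; field_simp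
    have h2 := hXa X (by have : (Q : ℝ) ≤ X := by nlinarith
                         have : Q ≤ X := by exact_mod_cast this
                         omega)
    have h3 : W = (X : ℝ) ^ (ε' / 2) * (X : ℝ) ^ (ε' / 2) := by
      rw [hW, ← Real.rpow_add hXr0]
      congr 1
      ring
    have h4 : 0 < (X : ℝ) ^ (ε' / 2) := by positivity
    rw [h3]
    nlinarith
  have hQXn : Q ≤ X := hQX1n.trans hXX
  have hW2 : ∀ i, ∀ m ∈ JJ (Ysc (M i)), |lp m| ≤ W / 2 ∧ |Lk Q (Ysc (M i) / Q ^ 2) m| ≤ W / 2 := by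
    intro i m hm
    obtain ⟨h1, h2⟩ := s4t_JJ hm
    have h3 := hYQ i
    constructor
    · exact (hXl (Ysc (M i)) (by omega) m h2).trans (hYε i)
    · exact (hXs Q Q (Ysc (M i)) (by omega) ((hreg i).1.mono (by linarith) (by rw [hK0]; linarith)) hQ1 le_rfl m h1 h2).trans (hYε i)
  have hwW : ∀ n ∈ Ico X1 (2 * X1), |w n| ≤ W := by
    intro n hn
    refine (hw n hn).trans ?_
    have h1 := hQg X X (by omega) (by linarith)
    rw [one_mul] at h1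
    rw [hW]
    exact h1
  have hval' : ∀ t ∈ tb b s, ∀ n ∈ Ico X1 (2 * X1), ∀ i, (P i).eval (n : ℤ) + (β i + lf c t i) ∈ JJ (Ysc (M i)) := by
    intro t ht n hn i
    rw [mem_Ico] at hn
    have h8 : 8 ∣ M i := (dvd_mul_right _ _).trans (hG.dvdM i)
    have h80 : 80 ≤ M i := by
      have h1 := hYQ i
      unfold Ysc at h1
      omega
    have hpol := s4t_poly A X1 (M i) (P i) (by rw [(hP i).1]; exact hA i) (hG.lo i) n hn.2
    exact s4t_val (M i) _ _ h8 h80 hpol (hval t ht i).1 (hval t ht i).2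
  have hnn : ∀ t ∈ tb b s, ∀ i, 0 ≤ β i + lf c t i := by
    intro t ht i
    have h1 := (hval t ht i).1
    have h2 : (0 : ℤ) ≤ M i := by positivity
    omega
  have hX'r : (1 : ℝ) ≤ X' := by exact_mod_cast hX'1
  have hterm : ∀ j, ∑ t ∈ tb b s, (∑ n ∈ Ico X1 (2 * X1), w n * ∏ i, s4tf Q M j i ((P i).eval (n : ℤ) + hh c β t i)) ^ 2 ≤
      W ^ (2 * (k + 1)) * (X' : ℝ) ^ (2 + (E : ℝ) - δ) := by
    intro j
    have h1 := hXfj j
    have h2 := hXpj j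
    have h3 := hYQ j
    have hreg1 : Rgm (Kp j) Cr (1 / Cr) Q Q (Ysc (M j)) := by
      have hlog : Real.log (Ysc (M j)) ≤ Cr * Real.log Q := by
        have h2 := (hreg j).2.2
        have h3 : ((D j : ℕ) : ℝ) ≤ A := by exact_mod_cast hA j
        calc Real.log (Ysc (M j)) ≤ ((A : ℝ) + 1) * Real.log X := h2.trans (mul_le_mul_of_nonneg_right (by linarith) hlX)
          _ ≤ ((A : ℝ) + 1) * (max C 1 * Real.log Q) := by
              refine mul_le_mul_of_nonneg_left (hR.2.trans (mul_le_mul_of_nonneg_right (le_max_left _ _) hlQ)) (by positivity)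
          _ = _ := by rw [hCr]; ring
      refine ⟨(hreg j).1.mono (by linarith) (hKle j), hlog, ?_, le_rfl⟩
      have hY0 : (0 : ℝ) < Ysc (M j) := by linarith [hYr j]
      rw [Real.rpow_def_of_pos hY0, ← Real.le_log_iff_exp_le hQr0, mul_one_div, div_le_iff₀ (by linarith)]
      linarith
    have hPKj := hXp j Q Q (Ysc (M j)) (by omega) hreg1
    have hFj := hXf j X' (by omega) P hP
    refine le_trans (s4u_term c e D hD.par hD.deg P j (sm j) (by have := hsm j; omega) (κp j) (δp j) Q X X1 X' M b s β hFj (hκp j) hX'1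
      (hXX.trans hXX') hsX hYX W hW1 hW2 hPKj (hQ1.trans h3) (hκp1 j) hval' hnn w hwW) ?_
    refine mul_le_mul_of_nonneg_left ?_ (by positivity)
    refine Real.rpow_le_rpow_of_exponent_le hX'r ?_
    rw [hE]
    push_cast
    linarith [hδle j]
  have hsum : ∑ t ∈ tb b s, (∑ n ∈ Ico X1 (2 * X1), w n * ∏ i, lp ((P i).eval (n : ℤ) + hh c β t i) -
      Rw Q X1 P M w (hh c β t)) ^ 2 ≤ k * (k * (W ^ (2 * (k + 1)) * (X' : ℝ) ^ (2 + (E : ℝ) - δ))) := by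
    calc ∑ t ∈ tb b s, (∑ n ∈ Ico X1 (2 * X1), w n * ∏ i, lp ((P i).eval (n : ℤ) + hh c β t i) -
        Rw Q X1 P M w (hh c β t)) ^ 2
        ≤ ∑ t ∈ tb b s, (k : ℝ) * ∑ j, (∑ n ∈ Ico X1 (2 * X1), w n *
          ∏ i, s4tf Q M j i ((P i).eval (n : ℤ) + hh c β t i)) ^ 2 := by
          refine Finset.sum_le_sum fun t ht => ?_
          rw [s4t_tel P Q X1 M w (hh c β t)]
          refine sq_sum_le_card_mul_sum_sq.trans (le_of_eq ?_)
          rw [Finset.card_univ, Fintype.card_fin]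
      _ = (k : ℝ) * ∑ j, ∑ t ∈ tb b s, (∑ n ∈ Ico X1 (2 * X1), w n *
          ∏ i, s4tf Q M j i ((P i).eval (n : ℤ) + hh c β t i)) ^ 2 := by
          rw [← Finset.mul_sum, Finset.sum_comm]
      _ ≤ (k : ℝ) * ∑ _j : Fin k, (W ^ (2 * (k + 1)) * (X' : ℝ) ^ (2 + (E : ℝ) - δ)) :=
          mul_le_mul_of_nonneg_left (Finset.sum_le_sum fun j _ => hterm j) (Nat.cast_nonneg k)
      _ = _ := by
          rw [Finset.sum_const, Finset.card_univ, Fintype.card_fin, nsmul_eq_mul]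
  refine hsum.trans ?_
  have hSE : (X : ℝ) ^ E ≤ (Q : ℝ) ^ (τ * d) * ∏ j, (s j : ℝ) := by
    have h1 : (Q : ℝ) ^ (τ * d) = ∏ _j : Fin d, (Q : ℝ) ^ τ := by
      rw [Finset.prod_const, Finset.card_univ, Fintype.card_fin, Real.rpow_mul hQr0.le, Real.rpow_natCast]
    rw [h1, ← Finset.prod_mul_distrib, hE, ← Finset.prod_pow_eq_pow_sum]
    exact Finset.prod_le_prod (fun j _ => by positivity) fun j _ => hs1 j
  have hWp : W ^ (2 * (k + 1)) = (X : ℝ) ^ (δ / 4) := by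
    rw [hW, ← Real.rpow_natCast, ← Real.rpow_mul hXr0.le]
    congr 1
    rw [hε']
    push_cast
    field_simp
    norm_num
  have hnum := hQn Q X X1 X' (by omega) hQXn hXX1 hX'hi hXX' (∏ j, (s j : ℝ)) (Finset.prod_nonneg fun _ _ => Nat.cast_nonneg _) hSE
  rw [s4u_card, hWp]
  refine le_trans (le_of_eq ?_) hnum
  ring

end Pool.Agent.HUP
end

-- from Lib.HUP.S4P
section

/-!
# Projects HUP, HPC, S4P (helper37): `PK 1`; `S4TU_of`
-/

open Finset Polynomial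

namespace Pool.Agent.HUP

open Pool.Agent.HUK

/-- The correlation norm `m = 1`. -/
theorem pk_one (h : PK 2) : PK 1 := by
  obtain ⟨K, hK, h⟩ := h
  refine ⟨K, hK, fun Cr θ hCr hθ => ?_⟩
  obtain ⟨κ, h0, h1, X1, hU⟩ := h Cr θ hCr hθ
  obtain ⟨X2, hX2⟩ := s4a_large 4 (κ / 4) (by positivity)
  refine ⟨κ / 4, by linarith, by linarith, max 1 (max X1 X2), fun Q Q' X hX hR => ?_⟩
  have hX1 : 1 ≤ X := (le_max_left _ _).trans hX
  have hB := hU Q Q' X (((le_max_left _ _).trans (le_max_right _ _)).trans hX) hR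
  have h4 := hX2 X (((le_max_right _ _).trans (le_max_right _ _)).trans hX)
  have hXp : (0 : ℝ) < X := by exact_mod_cast hX1
  have hS := c7_spt X (Pool.Agent.H9U.Er Q Q' X)
  have h2 := c7_one (4 * X) _ hS
  have h5 : 0 ≤ GG (4 * X) 1 (Pool.Agent.H9U.cutJ X (Pool.Agent.H9U.Er Q Q' X)) := D0_nn hS le_rfl
  refine abs_le_of_sq_le_sq' ?_ (by positivity) |>.2
  refine h2.trans ?_
  have e1 : ((X : ℝ) ^ (((1 : ℕ) : ℝ) + 1 - κ / 4)) ^ 2 = (X : ℝ) * (X : ℝ) ^ (((2 : ℕ) : ℝ) + 1 - κ) * ((X : ℝ) ^ (κ / 4) * (X : ℝ) ^ (κ / 4)) := by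
    rw [← Real.rpow_natCast, ← Real.rpow_mul hXp.le]
    nth_rewrite 2 [← Real.rpow_one (X : ℝ)]
    rw [← Real.rpow_add hXp, ← Real.rpow_add hXp, ← Real.rpow_add hXp]
    congr 1
    push_cast
    ring
  rw [e1]
  have h6 : (16 : ℝ) ≤ (X : ℝ) ^ (κ / 4) * (X : ℝ) ^ (κ / 4) := by nlinarith
  calc (4 * ((4 * X : ℕ) : ℝ)) * GG (4 * X) 2 (Pool.Agent.H9U.cutJ X (Pool.Agent.H9U.Er Q Q' X))
      ≤ (4 * ((4 * X : ℕ) : ℝ)) * (X : ℝ) ^ (((2 : ℕ) : ℝ) + 1 - κ) := mul_le_mul_of_nonneg_left hB (by positivity)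
    _ = (X : ℝ) * (X : ℝ) ^ (((2 : ℕ) : ℝ) + 1 - κ) * 16 := by push_cast; ring
    _ ≤ _ := mul_le_mul_of_nonneg_left h6 (by positivity)

/-- **`S4TU` from the second moment over the parameters.** -/
theorem S4TU_of {k d : ℕ} (c : Fin k → Fin d → ℤ) (e : Fin d → ℕ) (D : Fin k → ℕ) (a : Fin k → ℤ) (hD : Dat c e D a)
    (hF : FMT c e D a) (hPK : ∀ m, 2 ≤ m → PK m) : S4TU c e D a :=
  S4TU_of1 c e D a hD hF fun m hm => by
    rcases Nat.lt_or_ge m 2 with h | h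
    · obtain rfl : m = 1 := by omega
      exact pk_one (hPK 2 le_rfl)
    · exact hPK m h

end Pool.Agent.HUP
end

-- from Lib.HUK.A15
section

/-!
# Project HUK, chunk A15: all factors `a ∈ (K, 2K]`, classes modulo `k`, Cauchy-Schwarz over the differences
-/

open Finset

namespace Pool.Agent.HUK

theorem A15_fw (M : ℕ) (t : ℤ) : 0 ≤ fw M t ∧ fw M t ≤ 1 := by
  unfold fw
  refine ⟨le_max_left _ _, max_le zero_le_one ?_⟩
  have : 0 ≤ |(t : ℝ)| / M := by positivity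
  linarith

theorem A15_WT (H : ℕ) {r : ℕ} (j : Fin r → ℤ) : ‖((WT H j : ℝ) : ℂ)‖ ≤ 1 := by
  rw [Complex.norm_real, Real.norm_eq_abs]
  have h0 : 0 ≤ WT H j := Finset.prod_nonneg fun i _ => pow_nonneg (A15_fw _ _).1 _
  rw [abs_of_nonneg h0]
  exact Finset.prod_le_one (fun i _ => pow_nonneg (A15_fw _ _).1 _)
    fun i _ => pow_le_one₀ (A15_fw _ _).1 (A15_fw _ _).2

/-- The sum over `a` of the right sides of `A14_elim`. -/
theorem A15_swap (k : ℕ) (hk : 3 ≤ k) (X K H Nb : ℕ) (β : ℤ → ℂ) (R : ℝ) (hR : 0 ≤ R) (hβR : ∀ b, ‖β b‖ ≤ R) (f : ℤ → ℂ) :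
    ‖∑ a ∈ Ioc K (2 * K), ∑ j ∈ bxS (k - 1) H, ((WT H j : ℝ) : ℂ) *
        ∑ b ∈ Icc (1 : ℤ) Nb, bj k β j b * ∑ ρ ∈ (range k.factorial).filter (fun ρ : ℕ => (k : ℤ) ∣ (ρ : ℤ) - a * b),
          FF X (fun i => (a : ℤ) * j i) (frho k f ρ)‖ ≤
      Nb * R ^ (2 ^ (k - 1)) * ∑ a0 ∈ range k, ∑ ρ ∈ range k.factorial, ∑ j ∈ bxS (k - 1) H,
        ‖∑ a ∈ (Ioc K (2 * K)).filter (fun a => a % k = a0), FF X (fun i => (a : ℤ) * j i) (frho k f ρ)‖ := by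
  have hk0 : 0 < k := by omega
  have hbj : ∀ j b, ‖bj k β j b‖ ≤ R ^ (2 ^ (k - 1)) := by
    intro j b
    have h := DL_norm_le (List.ofFn fun i : Fin (k - 1) =>
      j i * (-(((k.factorial / ((i : ℕ) + 1) : ℕ) : ℤ) * ((k : ℤ) - ((i : ℕ) + 1 : ℕ))))) β R hR hβR b
    rw [List.length_ofFn] at h
    exact h
  have h1 : ∀ j : Fin (k - 1) → ℤ, ∑ a ∈ Ioc K (2 * K), ((WT H j : ℝ) : ℂ) *
        ∑ b ∈ Icc (1 : ℤ) Nb, bj k β j b * ∑ ρ ∈ (range k.factorial).filter (fun ρ : ℕ => (k : ℤ) ∣ (ρ : ℤ) - a * b),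
          FF X (fun i => (a : ℤ) * j i) (frho k f ρ) =
      ((WT H j : ℝ) : ℂ) * ∑ a0 ∈ range k, ∑ ρ ∈ range k.factorial,
        (∑ b ∈ (Icc (1 : ℤ) Nb).filter (fun b => (k : ℤ) ∣ (ρ : ℤ) - a0 * b), bj k β j b) *
        ∑ a ∈ (Ioc K (2 * K)).filter (fun a => a % k = a0), FF X (fun i => (a : ℤ) * j i) (frho k f ρ) := by
    intro j
    rw [← Finset.mul_sum]
    congr 1
    have h2 : ∀ a0 ∈ range k, ∑ a ∈ (Ioc K (2 * K)).filter (fun a => a % k = a0),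
        ∑ b ∈ Icc (1 : ℤ) Nb, bj k β j b * ∑ ρ ∈ (range k.factorial).filter (fun ρ : ℕ => (k : ℤ) ∣ (ρ : ℤ) - a * b),
          FF X (fun i => (a : ℤ) * j i) (frho k f ρ) = ∑ ρ ∈ range k.factorial,
        (∑ b ∈ (Icc (1 : ℤ) Nb).filter (fun b => (k : ℤ) ∣ (ρ : ℤ) - a0 * b), bj k β j b) *
        ∑ a ∈ (Ioc K (2 * K)).filter (fun a => a % k = a0), FF X (fun i => (a : ℤ) * j i) (frho k f ρ) := by
      intro a0 _
      have h3 : ∀ a ∈ (Ioc K (2 * K)).filter (fun a => a % k = a0),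
          ∑ b ∈ Icc (1 : ℤ) Nb, bj k β j b *
            ∑ ρ ∈ (range k.factorial).filter (fun ρ : ℕ => (k : ℤ) ∣ (ρ : ℤ) - a * b),
              FF X (fun i => (a : ℤ) * j i) (frho k f ρ) =
          ∑ ρ ∈ range k.factorial, (∑ b ∈ (Icc (1 : ℤ) Nb).filter (fun b => (k : ℤ) ∣ (ρ : ℤ) - a0 * b), bj k β j b) *
            FF X (fun i => (a : ℤ) * j i) (frho k f ρ) := by
        intro a ha
        rw [mem_filter] at ha
        have hdvd : ∀ (ρ : ℕ) (b : ℤ), ((k : ℤ) ∣ (ρ : ℤ) - a * b) ↔ ((k : ℤ) ∣ (ρ : ℤ) - a0 * b) := by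
          intro ρ b
          have h4 : (k : ℤ) ∣ ((a : ℤ) - a0) * b := by
            have h5 : ((a : ℤ)) - a0 = k * ((a / k : ℕ) : ℤ) := by
              have h6 := Nat.mod_add_div a k
              rw [ha.2] at h6
              have h7 : (a : ℤ) = a0 + k * ((a / k : ℕ) : ℤ) := by
                rw [← Nat.cast_mul, ← Nat.cast_add, h6]
              rw [h7]
              ring
            rw [h5]
            exact ⟨((a / k : ℕ) : ℤ) * b, by ring⟩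
          have h8 : (ρ : ℤ) - a0 * b = (ρ - a * b) + (a - a0) * b := by ring
          rw [h8]
          exact (dvd_add_left h4).symm
        simp only [Finset.sum_filter, hdvd, Finset.mul_sum, Finset.sum_mul]
        rw [Finset.sum_comm]
        refine Finset.sum_congr rfl fun ρ _ => Finset.sum_congr rfl fun b _ => ?_
        split_ifs <;> simp
      rw [Finset.sum_congr rfl h3, Finset.sum_comm]
      refine Finset.sum_congr rfl fun ρ _ => ?_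
      rw [Finset.mul_sum]
    rw [← Finset.sum_congr rfl h2]
    symm
    refine Finset.sum_fiberwise_of_maps_to (fun a _ => ?_) _
    rw [mem_range]
    exact Nat.mod_lt _ hk0
  rw [Finset.sum_comm, Finset.sum_congr rfl fun j _ => h1 j]
  have h4 : ∀ j ∈ bxS (k - 1) H, ‖((WT H j : ℝ) : ℂ) * ∑ a0 ∈ range k, ∑ ρ ∈ range k.factorial,
        (∑ b ∈ (Icc (1 : ℤ) Nb).filter (fun b => (k : ℤ) ∣ (ρ : ℤ) - a0 * b), bj k β j b) *
        ∑ a ∈ (Ioc K (2 * K)).filter (fun a => a % k = a0), FF X (fun i => (a : ℤ) * j i) (frho k f ρ)‖ ≤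
      ∑ a0 ∈ range k, ∑ ρ ∈ range k.factorial, (Nb * R ^ (2 ^ (k - 1))) *
        ‖∑ a ∈ (Ioc K (2 * K)).filter (fun a => a % k = a0), FF X (fun i => (a : ℤ) * j i) (frho k f ρ)‖ := by
    intro j _
    rw [norm_mul]
    refine (mul_le_of_le_one_left (norm_nonneg _) (A15_WT H j)).trans ?_
    refine (norm_sum_le _ _).trans (Finset.sum_le_sum fun a0 _ => ?_)
    refine (norm_sum_le _ _).trans (Finset.sum_le_sum fun ρ _ => ?_)
    rw [norm_mul]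
    refine mul_le_mul_of_nonneg_right ?_ (norm_nonneg _)
    refine (norm_sum_le _ _).trans ((Finset.sum_le_card_nsmul _ _ _ fun b _ => hbj j b).trans ?_)
    rw [nsmul_eq_mul]
    refine mul_le_mul_of_nonneg_right ?_ (by positivity)
    have h5 := Finset.card_filter_le (Icc (1 : ℤ) Nb) (fun b => (k : ℤ) ∣ (ρ : ℤ) - a0 * b)
    have h6 : (Icc (1 : ℤ) Nb).card = Nb := by
      rw [Int.card_Icc]
      omega
    rw [h6] at h5
    exact_mod_cast h5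
  refine (norm_sum_le _ _).trans ((Finset.sum_le_sum h4).trans (le_of_eq ?_))
  simp only [← Finset.mul_sum]
  congr 1
  rw [Finset.sum_comm]
  refine Finset.sum_congr rfl fun a0 _ => ?_
  rw [Finset.sum_comm]

/-- All `a ∈ (K, 2K]`. -/
theorem A15_block (k : ℕ) (hk : 3 ≤ k) (X K H Nb : ℕ) (hX : 1 ≤ X) (hK : 1 ≤ K) (hH : 1 ≤ H) (hNb : 1 ≤ Nb)
    (hKN : 2 * K * Nb ≤ 4 * X) (hHN : H * (k.factorial * k) ≤ Nb) (hHK : 2 * H * k.factorial * K ≤ X)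
    (β : ℤ → ℂ) (hβ : ∀ b, b ∉ Icc (1 : ℤ) Nb → β b = 0) (R : ℝ) (hR : 0 ≤ R) (hβR : ∀ b, ‖β b‖ ≤ R)
    (f : ℕ → ℤ → ℂ) (hf : ∀ j, j < k → Bdd X (f j)) (η : ℝ) (hη : 0 ≤ η)
    (hS : ∀ a0 ρ : ℕ, a0 < k → ρ < k.factorial → ∑ j ∈ bxS (k - 1) H,
      ‖∑ a ∈ (Ioc K (2 * K)).filter (fun a => a % k = a0), FF X (fun i => (a : ℤ) * j i) (frho k (f 0) ρ)‖ ^ 2 ≤
        η ^ 2 * ((H : ℝ) ^ (k - 1) * ((K : ℝ) * X) ^ 2)) :
    (∑ a ∈ Ioc K (2 * K), ‖∑ b ∈ Icc (1 : ℤ) Nb, β b * Psi X k f ((a : ℤ) * b)‖ / (26 * Nb * X)) ^ (2 ^ (k - 1)) ≤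
      (2 ^ (2 ^ (k - 1)) * (k * k.factorial) * 2 ^ (k - 1)) * (K * R) ^ (2 ^ (k - 1)) * η := by
  obtain ⟨P, hP⟩ : ∃ P, 2 ^ (k - 1) = P + 1 := ⟨2 ^ (k - 1) - 1, by have := Nat.one_le_two_pow (n := k - 1); omega⟩
  have hXr : (1 : ℝ) ≤ X := by exact_mod_cast hX
  have hKr : (1 : ℝ) ≤ K := by exact_mod_cast hK
  have hHr : (1 : ℝ) ≤ H := by exact_mod_cast hH
  have hNr : (1 : ℝ) ≤ Nb := by exact_mod_cast hNb
  have hHp : (0 : ℝ) < (H : ℝ) ^ (k - 1) := by positivity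
  set E : ℕ → ℂ := fun a => ∑ j ∈ bxS (k - 1) H, ((WT H j : ℝ) : ℂ) *
        ∑ b ∈ Icc (1 : ℤ) Nb, bj k β j b * ∑ ρ ∈ (range k.factorial).filter (fun ρ : ℕ => (k : ℤ) ∣ (ρ : ℤ) - a * b),
          FF X (fun i => (a : ℤ) * j i) (frho k (f 0) ρ) with hE
  set x : ℕ → ℝ := fun a => ‖∑ b ∈ Icc (1 : ℤ) Nb, β b * Psi X k f ((a : ℤ) * b)‖ / (26 * Nb * X) with hx
  have h1 : ∀ a ∈ Ioc K (2 * K), x a ^ (P + 1) ≤ 2 ^ (P + 1) / (H : ℝ) ^ (k - 1) * ((E a).re / (26 * Nb * X)) := by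
    intro a ha
    rw [mem_Ioc] at ha
    have h := A14_elim k hk X K H Nb hX hH hNb hKN hHN hHK a ha.2 β hβ f hf
    rw [hP] at h
    exact h
  have hx0 : ∀ a ∈ Ioc K (2 * K), 0 ≤ x a := fun a _ => by positivity
  have hcs : ∀ a0 ρ : ℕ, a0 < k → ρ < k.factorial → ∑ j ∈ bxS (k - 1) H,
      ‖∑ a ∈ (Ioc K (2 * K)).filter (fun a => a % k = a0), FF X (fun i => (a : ℤ) * j i) (frho k (f 0) ρ)‖ ≤
        2 ^ (k - 1) * η * (H : ℝ) ^ (k - 1) * (K * X) := by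
    intro a0 ρ ha0 hρ
    have h2 := Finset.sum_mul_sq_le_sq_mul_sq (bxS (k - 1) H) (fun _ => (1 : ℝ)) (fun j =>
      ‖∑ a ∈ (Ioc K (2 * K)).filter (fun a => a % k = a0), FF X (fun i => (a : ℤ) * j i) (frho k (f 0) ρ)‖)
    simp only [one_mul, one_pow, Finset.sum_const, nsmul_eq_mul, mul_one] at h2
    have h3 := hS a0 ρ ha0 hρ
    have h4 := bxS_card (k - 1) H
    have h5 : (∑ j ∈ bxS (k - 1) H,
      ‖∑ a ∈ (Ioc K (2 * K)).filter (fun a => a % k = a0), FF X (fun i => (a : ℤ) * j i) (frho k (f 0) ρ)‖) ^ 2 ≤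
        (2 ^ (k - 1) * η * (H : ℝ) ^ (k - 1) * (K * X)) ^ 2 := by
      refine h2.trans ((mul_le_mul h4 h3 (Finset.sum_nonneg fun _ _ => by positivity) (by positivity)).trans ?_)
      have h6 : (1 : ℝ) ≤ 2 ^ (k - 1) := one_le_pow₀ (by norm_num)
      have h7 : (2 * (H : ℝ)) ^ (k - 1) * (η ^ 2 * ((H : ℝ) ^ (k - 1) * ((K : ℝ) * X) ^ 2)) =
          2 ^ (k - 1) * (η * (H : ℝ) ^ (k - 1) * (K * X)) ^ 2 := by
        rw [mul_pow]
        ring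
      have h8 : (2 ^ (k - 1) * η * (H : ℝ) ^ (k - 1) * (K * X)) ^ 2 =
          (2 ^ (k - 1)) ^ 2 * (η * (H : ℝ) ^ (k - 1) * (K * X)) ^ 2 := by ring
      rw [h7, h8]
      refine mul_le_mul_of_nonneg_right ?_ (by positivity)
      nlinarith
    exact le_of_sq_le_sq h5 (by positivity)
  have hsum : ‖∑ a ∈ Ioc K (2 * K), E a‖ ≤
      Nb * R ^ (P + 1) * ((k * k.factorial) * (2 ^ (k - 1) * η * (H : ℝ) ^ (k - 1) * (K * X))) := by
    have h2 := A15_swap k hk X K H Nb β R hR hβR (f 0)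
    rw [hP] at h2
    refine h2.trans (mul_le_mul_of_nonneg_left ?_ (by positivity))
    have h3 : ∀ a0 ∈ range k, ∑ ρ ∈ range k.factorial, ∑ j ∈ bxS (k - 1) H,
        ‖∑ a ∈ (Ioc K (2 * K)).filter (fun a => a % k = a0), FF X (fun i => (a : ℤ) * j i) (frho k (f 0) ρ)‖ ≤
        k.factorial * (2 ^ (k - 1) * η * (H : ℝ) ^ (k - 1) * (K * X)) := by
      intro a0 ha0
      have h4 := Finset.sum_le_card_nsmul (range k.factorial) _ _ fun ρ hρ => hcs a0 ρ (mem_range.1 ha0) (mem_range.1 hρ)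
      rw [card_range, nsmul_eq_mul] at h4
      exact h4
    have h5 := Finset.sum_le_card_nsmul (range k) _ _ h3
    rw [card_range, nsmul_eq_mul] at h5
    rw [mul_assoc (k : ℝ)]
    exact h5
  have hcard : (Ioc K (2 * K)).card = K := by
    rw [Nat.card_Ioc]
    omega
  have h2 : (∑ a ∈ Ioc K (2 * K), x a) ^ (P + 1) ≤ (K : ℝ) ^ P * ∑ a ∈ Ioc K (2 * K), x a ^ (P + 1) := by
    have h := pow_sum_div_card_le_sum_pow (s := Ioc K (2 * K)) (f := x) hx0 P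
    rw [hcard, div_le_iff₀ (by positivity)] at h
    linarith
  have h3 : ∑ a ∈ Ioc K (2 * K), x a ^ (P + 1) ≤
      2 ^ (P + 1) / (H : ℝ) ^ (k - 1) * (‖∑ a ∈ Ioc K (2 * K), E a‖ / (26 * Nb * X)) := by
    refine (Finset.sum_le_sum h1).trans ?_
    rw [← Finset.mul_sum, ← Finset.sum_div, ← Complex.re_sum]
    refine mul_le_mul_of_nonneg_left ?_ (by positivity)
    exact div_le_div_of_nonneg_right (Complex.re_le_norm _) (by positivity)
  rw [hP]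
  refine h2.trans ?_
  have h4 : ‖∑ a ∈ Ioc K (2 * K), E a‖ / (26 * Nb * X) ≤
      R ^ (P + 1) * ((k * k.factorial) * (2 ^ (k - 1) * η * (H : ℝ) ^ (k - 1) * K)) := by
    rw [div_le_iff₀ (by positivity)]
    refine hsum.trans ?_
    have h5 : 0 ≤ R ^ (P + 1) * ((k * k.factorial) * (2 ^ (k - 1) * η * (H : ℝ) ^ (k - 1) * K)) * (Nb * X) := by positivity
    nlinarith [h5]
  have h5 : (K : ℝ) ^ P * (2 ^ (P + 1) / (H : ℝ) ^ (k - 1) *
      (R ^ (P + 1) * ((k * k.factorial) * (2 ^ (k - 1) * η * (H : ℝ) ^ (k - 1) * K)))) =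
      2 ^ (P + 1) * (k * k.factorial) * 2 ^ (k - 1) * (K * R) ^ (P + 1) * η := by
    field_simp
    ring
  rw [← h5]
  refine mul_le_mul_of_nonneg_left (h3.trans ?_) (by positivity)
  exact mul_le_mul_of_nonneg_left h4 (by positivity)

end Pool.Agent.HUK
end

-- from Lib.HUK.A16a
section

/-!
# Project HUK, chunk A16a: one dyadic interval
-/

open Finset

namespace Pool.Agent.HUK

theorem A16_one (n : ℕ) (hn : 1 ≤ n) (C : ℕ)
    (hstar : ∀ δ : ℝ, 0 < δ → δ ≤ 1 / 2 → ∀ X K H : ℕ, (1 / δ) ^ C ≤ K →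
      (1 / δ) ^ C * (K : ℝ) ^ (2 ^ 2 ^ n) ≤ X → δ * X ≤ K * H → 16 * n * K * H ≤ X → 1 ≤ H →
      (∀ m : ℕ, 1 ≤ m → m ≤ X → (m.divisors.card : ℝ) ≤ 1 / δ) → ∀ 𝒜 : Finset ℕ, 𝒜 ⊆ Ioc K (2 * K) →
      ∀ f : ℤ → ℂ, Bdd X f →
      δ * ((H : ℝ) ^ (n + 1) * ((K : ℝ) * X) ^ 2) ≤ ∑ t ∈ bxS (n + 1) H, ‖∑ a ∈ 𝒜, FF X (fun i => (a : ℤ) * t i) f‖ ^ 2 →
      δ ^ C * (X : ℝ) ^ (n + 2) ≤ GG X (n + 1) f)
    (δ Z : ℝ) (hδ : 0 < δ) (hδ2 : δ ≤ 1 / 2) (hZ : 0 ≤ Z) (hZδ : Z ^ (2 ^ (n + 2)) = δ) (X K : ℕ) (hX : 1 ≤ X)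
    (hK : 1 ≤ K) (h1 : (1 / δ) ^ C ≤ K) (h2 : (1 / δ) ^ C * (K : ℝ) ^ (2 ^ 2 ^ n) ≤ X)
    (h3 : 2 * (16 * (n + 2) * (n + 2).factorial) * K ≤ X) (h4 : δ * (2 * (16 * (n + 2) * (n + 2).factorial)) ≤ 1)
    (hdiv : ∀ m : ℕ, 1 ≤ m → m ≤ X → (m.divisors.card : ℝ) ≤ 1 / δ) (β : ℕ → ℂ) (R : ℝ) (hR : 0 ≤ R)
    (hβR : ∀ b, ‖β b‖ ≤ R) (f : ℕ → ℤ → ℂ) (hf : ∀ j, j < n + 2 → Bdd X (f j))
    (hG : GG X (n + 1) (f 0) < δ ^ C * (X : ℝ) ^ (n + 2)) :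
    ∑ a ∈ Ioc K (2 * K), ‖∑ b ∈ Icc 1 (2 * (n + 2) * X), β b * Psi X (n + 2) f ((a : ℤ) * (b : ℕ))‖ ≤
      52 * (X : ℝ) ^ 2 * ((2 ^ (2 ^ (n + 1)) * (((n + 2 : ℕ) : ℝ) * (n + 2).factorial) * 2 ^ (n + 1)) * R * Z) := by
  have hk3 : 3 ≤ n + 2 := by omega
  set c0 : ℕ := 16 * (n + 2) * (n + 2).factorial with hc0
  have hfac : 1 ≤ (n + 2).factorial := Nat.factorial_pos _
  have hc0p : 1 ≤ c0 := by
    rw [hc0]
    exact Nat.mul_pos (by omega) hfac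
  set H : ℕ := X / (c0 * K) with hH
  set Nb : ℕ := 2 * X / K with hNb
  have hc0K : 0 < c0 * K := Nat.mul_pos hc0p hK
  have hHle : H * (c0 * K) ≤ X := Nat.div_mul_le_self _ _
  have hHlt : X < (H + 1) * (c0 * K) := by
    rw [mul_comm]
    exact Nat.lt_mul_div_succ X hc0K
  have hH1 : 1 ≤ H := by
    rw [hH, Nat.one_le_div_iff hc0K]
    have : 2 * c0 * K = 2 * (c0 * K) := by ring
    omega
  have hNble : Nb * K ≤ 2 * X := Nat.div_mul_le_self _ _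
  have hKN : 2 * K * Nb ≤ 4 * X := by nlinarith
  have hHN : H * ((n + 2).factorial * (n + 2)) ≤ Nb := by
    rw [hNb, Nat.le_div_iff_mul_le hK]
    have e : H * (c0 * K) = 16 * (H * ((n + 2).factorial * (n + 2)) * K) := by
      rw [hc0]
      ring
    omega
  have hHK : 2 * H * (n + 2).factorial * K ≤ X := by
    have e : H * (c0 * K) = (8 * (n + 2)) * (2 * H * (n + 2).factorial * K) := by
      rw [hc0]
      ring
    have h5 : 1 * (2 * H * (n + 2).factorial * K) ≤ (8 * (n + 2)) * (2 * H * (n + 2).factorial * K) :=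
      Nat.mul_le_mul_right _ (by omega)
    omega
  have h16 : 16 * n * K * H ≤ X := by
    have h5 : 16 * n * K * H ≤ H * (c0 * K) := by
      have e : H * (c0 * K) = 16 * (n + 2) * K * H * (n + 2).factorial := by
        rw [hc0]
        ring
      rw [e]
      calc 16 * n * K * H ≤ 16 * (n + 2) * K * H := by gcongr; omega
        _ = 16 * (n + 2) * K * H * 1 := by ring
        _ ≤ _ := Nat.mul_le_mul_left _ hfac
    omega
  have hNb1 : 1 ≤ Nb := by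
    refine le_trans ?_ hHN
    exact Nat.mul_pos hH1 (Nat.mul_pos hfac (by omega))
  have hXr : (1 : ℝ) ≤ X := by exact_mod_cast hX
  have hKr : (1 : ℝ) ≤ K := by exact_mod_cast hK
  have hc0r : (1 : ℝ) ≤ c0 := by exact_mod_cast hc0p
  have hKH : δ * X ≤ K * H := by
    have h5 : (X : ℝ) ≤ (H + 1) * (c0 * K) := by exact_mod_cast hHlt.le
    have h6 : (2 : ℝ) * c0 * K ≤ X := by exact_mod_cast h3
    have h7 : (X : ℝ) ≤ 2 * c0 * (K * H) := by nlinarith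
    have h8 : δ * (2 * (c0 : ℝ)) ≤ 1 := by
      rw [hc0]
      push_cast
      exact h4
    calc δ * X ≤ δ * (2 * c0 * (K * H)) := mul_le_mul_of_nonneg_left h7 hδ.le
      _ = (δ * (2 * c0)) * (K * H) := by ring
      _ ≤ 1 * (K * H) := mul_le_mul_of_nonneg_right h8 (by positivity)
      _ = K * H := one_mul _
  -- the weights on `ℤ`
  set β' : ℤ → ℂ := fun b => if b ∈ Icc (1 : ℤ) Nb then β b.toNat else 0 with hβ'
  have hβ0 : ∀ b, b ∉ Icc (1 : ℤ) Nb → β' b = 0 := fun b hb => if_neg hb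
  have hβ'R : ∀ b, ‖β' b‖ ≤ R := by
    intro b
    simp only [hβ']
    split_ifs
    · exact hβR _
    · simpa using hR
  have hS : ∀ a0 ρ : ℕ, a0 < n + 2 → ρ < (n + 2).factorial → ∑ j ∈ bxS (n + 2 - 1) H,
      ‖∑ a ∈ (Ioc K (2 * K)).filter (fun a => a % (n + 2) = a0),
        FF X (fun i => (a : ℤ) * j i) (frho (n + 2) (f 0) ρ)‖ ^ 2 ≤
        (Z ^ (2 ^ (n + 1))) ^ 2 * ((H : ℝ) ^ (n + 2 - 1) * ((K : ℝ) * X) ^ 2) := by
    intro a0 ρ _ hρ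
    have e : (Z ^ (2 ^ (n + 1))) ^ 2 = δ := by
      rw [← pow_mul, ← hZδ]
      congr 1
    rw [e]
    by_contra hcon
    push Not at hcon
    have hdil := V1_dil X (n + 1) (n + 2).factorial hX (by omega) hfac (ρ : ℤ) (by positivity) (by exact_mod_cast hρ)
      (f 0) (hf 0 (by omega))
    have hstar' := hstar δ hδ hδ2 X K H h1 h2 hKH h16 hH1 hdiv _ (Finset.filter_subset _ _)
      (frho (n + 2) (f 0) ρ) hdil.1 hcon.le
    have hres := V1_res X (n + 1) (n + 2).factorial (by omega) hfac (ρ : ℤ) (f 0) (hf 0 (by omega)).sup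
    have : GG X (n + 1) (frho (n + 2) (f 0) ρ) ≤ GG X (n + 1) (f 0) := by
      refine (le_of_eq hdil.2).trans hres
    linarith
  have hblk := A15_block (n + 2) hk3 X K H Nb hX hK hH1 hNb1 hKN hHN hHK β' hβ0 R hR hβ'R f hf (Z ^ (2 ^ (n + 1)))
    (by positivity) hS
  have hP : n + 2 - 1 = n + 1 := rfl
  rw [hP] at hblk
  set Ck : ℝ := 2 ^ (2 ^ (n + 1)) * (((n + 2 : ℕ) : ℝ) * (n + 2).factorial) * 2 ^ (n + 1) with hCk
  have hCk1 : 1 ≤ Ck := by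
    have a1 : (1 : ℝ) ≤ 2 ^ (2 ^ (n + 1)) := one_le_pow₀ (by norm_num)
    have a2 : (1 : ℝ) ≤ 2 ^ (n + 1) := one_le_pow₀ (by norm_num)
    have a3 : (1 : ℝ) ≤ ((n + 2 : ℕ) : ℝ) * (n + 2).factorial := by
      exact_mod_cast Nat.mul_pos (by omega : 0 < n + 2) hfac
    rw [hCk]
    exact one_le_mul_of_one_le_of_one_le (one_le_mul_of_one_le_of_one_le a1 a3) a2
  have hsum : ∑ a ∈ Ioc K (2 * K), ‖∑ b ∈ Icc (1 : ℤ) Nb, β' b * Psi X (n + 2) f ((a : ℤ) * b)‖ / (26 * Nb * X) ≤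
      Ck * (K * R * Z) := by
    have h5 : (∑ a ∈ Ioc K (2 * K), ‖∑ b ∈ Icc (1 : ℤ) Nb, β' b * Psi X (n + 2) f ((a : ℤ) * b)‖ / (26 * Nb * X)) ^
        (2 ^ (n + 1)) ≤ (Ck * (K * R * Z)) ^ (2 ^ (n + 1)) := by
      refine hblk.trans ?_
      rw [mul_pow Ck, mul_pow _ Z, ← mul_assoc]
      refine mul_le_mul_of_nonneg_right ?_ (by positivity)
      refine mul_le_mul_of_nonneg_right ?_ (by positivity)
      exact le_self_pow₀ hCk1 (by positivity)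
    exact (pow_le_pow_iff_left₀ (Finset.sum_nonneg fun _ _ => by positivity) (by positivity) (by positivity)).1 h5
  have hconv : ∀ a ∈ Ioc K (2 * K), ‖∑ b ∈ Icc 1 (2 * (n + 2) * X), β b * Psi X (n + 2) f ((a : ℤ) * (b : ℕ))‖ =
      (26 * Nb * X) * (‖∑ b ∈ Icc (1 : ℤ) Nb, β' b * Psi X (n + 2) f ((a : ℤ) * b)‖ / (26 * Nb * X)) := by
    intro a ha
    rw [mem_Ioc] at ha
    have hNr : (0 : ℝ) < 26 * Nb * X := by
      have : (1 : ℝ) ≤ Nb := by exact_mod_cast hNb1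
      positivity
    rw [mul_div_cancel₀ _ hNr.ne']
    congr 1
    symm
    have hNbX : Nb ≤ 2 * (n + 2) * X := by
      refine (Nat.div_le_self _ _).trans ?_
      nlinarith
    refine Finset.sum_bij_ne_zero (fun b _ _ => b.toNat) ?_ ?_ ?_ ?_
    · intro b hb _
      rw [mem_Icc] at hb ⊢
      omega
    · intro b1 hb1 _ b2 hb2 _ he
      rw [mem_Icc] at hb1 hb2
      omega
    · intro b hb hne
      rw [mem_Icc] at hb
      have hbN : b ≤ Nb := by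
        by_contra hcon
        push Not at hcon
        apply hne
        rw [A14_zero X (n + 2) hk3 f hf, mul_zero]
        have h6 : 2 * X < (Nb + 1) * K := by
          have h6' := Nat.lt_mul_div_succ (2 * X) hK
          rw [← hNb] at h6'
          rw [mul_comm (Nb + 1) K]
          exact h6'
        have h7 : (Nb + 1) * K ≤ b * a := Nat.mul_le_mul hcon ha.1.le
        have h8 : 2 * X < a * b := by
          rw [mul_comm a b]
          omega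
        exact_mod_cast h8
      refine ⟨(b : ℤ), ?_, ?_, by simp⟩
      · rw [mem_Icc]
        omega
      · have e1 : β' (b : ℤ) = β b := by
          simp only [hβ']
          rw [if_pos (by rw [mem_Icc]; omega)]
          simp
        rw [e1]
        exact hne
    · intro b hb _
      have hb' := hb
      rw [mem_Icc] at hb'
      have e2 : ((b.toNat : ℕ) : ℤ) = b := Int.toNat_of_nonneg (by omega)
      simp only [hβ']
      rw [if_pos hb, e2]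
  rw [Finset.sum_congr rfl hconv, ← Finset.mul_sum]
  have hNbr : (Nb : ℝ) * K ≤ 2 * X := by exact_mod_cast hNble
  have hNr : (0 : ℝ) ≤ 26 * Nb * X := by positivity
  refine (mul_le_mul_of_nonneg_left hsum hNr).trans ?_
  have hRZ : 0 ≤ Ck * R * Z := by positivity
  have e3 : 26 * (Nb : ℝ) * X * (Ck * (K * R * Z)) = 26 * X * (Nb * K) * (Ck * R * Z) := by ring
  have e4 : 52 * (X : ℝ) ^ 2 * (Ck * R * Z) = 26 * X * (2 * X) * (Ck * R * Z) := by ring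
  rw [e3, e4]
  refine mul_le_mul_of_nonneg_right ?_ hRZ
  exact mul_le_mul_of_nonneg_left hNbr (by positivity)

end Pool.Agent.HUK
end

-- from Lib.HUK.A16
section

/-!
# Project HUK, chunk A16: the type II theorem `TII k`, `k ≥ 3` (PROOF.md, section 3)
-/

open Finset Filter

namespace Pool.Agent.HUK

theorem A16_dyadic (N : ℕ) (S : Finset ℕ) (hS : ∀ a ∈ S, 2 ≤ a ∧ a ≤ N) (F : ℕ → ℝ) (hF : ∀ a, 0 ≤ F a) (W : ℝ)
    (hW0 : 0 ≤ W) (hW : ∀ i : ℕ, (∃ a ∈ S, 2 ^ i < a ∧ a ≤ 2 * 2 ^ i) → ∑ a ∈ Ioc (2 ^ i) (2 * 2 ^ i), F a ≤ W) :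
    ∑ a ∈ S, F a ≤ ((Nat.log 2 N + 1 : ℕ) : ℝ) * W := by
  have hmem : ∀ a ∈ S, 2 ^ (Nat.log 2 (a - 1)) < a ∧ a ≤ 2 * 2 ^ (Nat.log 2 (a - 1)) := by
    intro a ha
    have h := hS a ha
    have h1 := Nat.pow_log_le_self 2 (x := a - 1) (by omega)
    have h2 := Nat.lt_pow_succ_log_self (b := 2) (by norm_num) (a - 1)
    rw [pow_succ] at h2
    omega
  have h1 : ∑ a ∈ S, F a = ∑ i ∈ range (Nat.log 2 N + 1), ∑ a ∈ S.filter (fun a => Nat.log 2 (a - 1) = i), F a := by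
    symm
    refine Finset.sum_fiberwise_of_maps_to (fun a ha => ?_) _
    rw [mem_range]
    have h := hS a ha
    have h2 := Nat.log_mono_right (b := 2) (by omega : a - 1 ≤ N)
    omega
  rw [h1]
  have h2 : ∀ i ∈ range (Nat.log 2 N + 1), ∑ a ∈ S.filter (fun a => Nat.log 2 (a - 1) = i), F a ≤ W := by
    intro i _
    by_cases hne : ∃ a ∈ S, 2 ^ i < a ∧ a ≤ 2 * 2 ^ i
    · refine (Finset.sum_le_sum_of_subset_of_nonneg ?_ fun a _ _ => hF a).trans (hW i hne)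
      intro a ha
      rw [mem_filter] at ha
      have h := hmem a ha.1
      rw [ha.2] at h
      rw [mem_Ioc]
      exact h
    · rw [Finset.sum_eq_zero]
      · exact hW0
      · intro a ha
        rw [mem_filter] at ha
        have h := hmem a ha.1
        rw [ha.2] at h
        exact absurd ⟨a, ha.1, h⟩ hne
  have h3 := Finset.sum_le_card_nsmul _ _ _ h2
  rw [card_range, nsmul_eq_mul] at h3
  exact h3

theorem A16_log (N : ℕ) (c : ℝ) (hc : 0 < c) : ∀ᶠ X : ℕ in atTop, ((Nat.log 2 (N * X) + 1 : ℕ) : ℝ) ≤ (X : ℝ) ^ c := by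
  have h1 : ∀ᶠ x : ℝ in atTop, ‖Real.log x‖ ≤ 1 / 4 * ‖x ^ c‖ :=
    (isLittleO_log_rpow_atTop hc).def (by norm_num)
  have h2 : ∀ᶠ x : ℝ in atTop, 4 * (1 + 2 * |Real.log N|) ≤ x ^ c :=
    (tendsto_rpow_atTop hc).eventually_ge_atTop _
  have h3 := (h1.and h2).and (eventually_ge_atTop (1 : ℝ))
  filter_upwards [tendsto_natCast_atTop_atTop.eventually h3] with X hX
  obtain ⟨⟨h4, h5⟩, h6⟩ := hX
  rcases Nat.eq_zero_or_pos N with hN | hN
  · subst hN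
    simp only [zero_mul, Nat.log_zero_right, zero_add, Nat.cast_one]
    have : 0 ≤ 2 * |Real.log ((0 : ℕ) : ℝ)| := by positivity
    linarith
  have hXp : (0 : ℝ) < X := by linarith
  have hNp : (0 : ℝ) < N := by exact_mod_cast hN
  have h7 : (Nat.log 2 (N * X) : ℝ) ≤ 2 * Real.log ((N * X : ℕ) : ℝ) := by
    have h8 := Nat.pow_log_le_self 2 (x := N * X) (by
      have : 0 < X := by exact_mod_cast hXp
      positivity)
    have h9 : ((2 : ℝ) ^ (Nat.log 2 (N * X))) ≤ ((N * X : ℕ) : ℝ) := by exact_mod_cast h8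
    have h10 := Real.log_le_log (by positivity) h9
    rw [Real.log_pow] at h10
    have h11 : (1 : ℝ) / 2 ≤ Real.log 2 := by linarith [Real.log_two_gt_d9]
    have h12 : (0 : ℝ) ≤ Nat.log 2 (N * X) := by positivity
    nlinarith
  push_cast at h7 ⊢
  rw [Real.log_mul hNp.ne' hXp.ne'] at h7
  rw [Real.norm_eq_abs, Real.norm_eq_abs, abs_of_nonneg (Real.log_nonneg h6), abs_of_nonneg (by positivity)] at h4
  have h8 := le_abs_self (Real.log (N : ℝ))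
  nlinarith

/-- **The type II theorem.** -/
theorem A16_TII (k : ℕ) (hk : 3 ≤ k) : TII k := by
  obtain ⟨n, rfl⟩ : ∃ n, k = n + 2 := ⟨k - 2, by omega⟩
  have hn : 1 ≤ n := by omega
  obtain ⟨C, hstar⟩ := A13_star n hn
  intro θ κ hθ hκ
  obtain ⟨m0, hm0, hm1, hm2, hm3⟩ : ∃ m0 : ℝ, 0 < m0 ∧ m0 ≤ θ / 2 ∧ m0 ≤ κ / 2 ∧ m0 ≤ 1 / 4 :=
    ⟨min (min (θ / 2) (κ / 2)) (1 / 4), by positivity, (min_le_left _ _).trans (min_le_left _ _),
      (min_le_left _ _).trans (min_le_right _ _), min_le_right _ _⟩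
  set η : ℝ := m0 / (C + 1) with hη
  have hη0 : 0 < η := by positivity
  have hηC : η * C ≤ m0 := by
    rw [hη, div_mul_eq_mul_div, div_le_iff₀ (by positivity)]
    nlinarith
  set z : ℝ := η / 2 ^ (n + 2) with hz
  have hz0 : 0 < z := by positivity
  set Ck : ℝ := 2 ^ (2 ^ (n + 1)) * (((n + 2 : ℕ) : ℝ) * (n + 2).factorial) * 2 ^ (n + 1) with hCk
  have hCk0 : 0 ≤ Ck := by positivity
  obtain ⟨C0, hC0, hdivb⟩ := Pool.Agent.Lib.H21AP.divisor_bound (ε := η / 2) (by positivity)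
  refine ⟨z / 4, z / 8, by positivity, by positivity, ?_⟩
  have hev : ∀ c : ℝ, 0 < c → ∀ D : ℝ, ∀ᶠ X : ℕ in atTop, D ≤ (X : ℝ) ^ c := fun c hc D =>
    ((tendsto_rpow_atTop hc).comp tendsto_natCast_atTop_atTop).eventually_ge_atTop D
  have hall := ((((((hev (θ / 2) (by positivity) 2).and (hev η hη0 2)).and
    (hev η hη0 (2 * (16 * (n + 2) * (n + 2).factorial)))).and (hev (η / 2) (by positivity) C0)).and
    (hev (1 / 2) (by norm_num) (2 * (16 * (n + 2) * (n + 2).factorial)))).and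
    (hev (z / 8) (by positivity) (52 * Ck))).and ((A16_log (2 * (n + 2)) (z / 8) (by positivity)).and
    (eventually_ge_atTop 2))
  obtain ⟨X0, hX0⟩ := eventually_atTop.1 hall
  refine ⟨X0, fun X hX α β hα hβ hαs f hf hGG => ?_⟩
  obtain ⟨⟨⟨⟨⟨⟨e1, e2⟩, e3⟩, e4⟩, e5⟩, e6⟩, e7, e8⟩ := hX0 X hX
  have hXr2 : (2 : ℝ) ≤ X := by exact_mod_cast e8
  have hXp : (0 : ℝ) < X := by linarith
  have hX1 : (1 : ℝ) ≤ X := by linarith
  set δ : ℝ := (X : ℝ) ^ (-η) with hδdef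
  have hδ0 : 0 < δ := by positivity
  have hδinv : 1 / δ = (X : ℝ) ^ η := by
    rw [hδdef, Real.rpow_neg hXp.le, one_div, inv_inv]
  have hδpow : (1 / δ) ^ C = (X : ℝ) ^ (η * C) := by
    rw [hδinv, Real.rpow_mul hXp.le, Real.rpow_natCast]
  have hδX : δ * (X : ℝ) ^ η = 1 := by
    rw [hδdef, ← Real.rpow_add hXp]
    simp
  have hδ2 : δ ≤ 1 / 2 := by
    rw [le_div_iff₀ (by norm_num)]
    calc δ * 2 ≤ δ * (X : ℝ) ^ η := mul_le_mul_of_nonneg_left e2 hδ0.le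
      _ = 1 := hδX
  set Z : ℝ := (X : ℝ) ^ (-z) with hZdef
  have hZ0 : 0 ≤ Z := by positivity
  have hZδ : Z ^ (2 ^ (n + 2)) = δ := by
    rw [hZdef, ← Real.rpow_natCast, ← Real.rpow_mul hXp.le, hδdef]
    congr 1
    push_cast
    rw [hz]
    field_simp
  have h4 : δ * (2 * (16 * (n + 2) * (n + 2).factorial)) ≤ 1 := by
    calc δ * (2 * (16 * (n + 2) * (n + 2).factorial)) ≤ δ * (X : ℝ) ^ η := mul_le_mul_of_nonneg_left e3 hδ0.le
      _ = 1 := hδX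
  have hdiv : ∀ m : ℕ, 1 ≤ m → m ≤ X → (m.divisors.card : ℝ) ≤ 1 / δ := by
    intro m hm hmX
    refine (hdivb m hm).trans ?_
    rw [hδinv]
    have h5 : (m : ℝ) ^ (η / 2) ≤ (X : ℝ) ^ (η / 2) := by
      refine Real.rpow_le_rpow (by positivity) (by exact_mod_cast hmX) (by positivity)
    have h6 : (X : ℝ) ^ η = (X : ℝ) ^ (η / 2) * (X : ℝ) ^ (η / 2) := by
      rw [← Real.rpow_add hXp]
      congr 1
      ring
    rw [h6]
    exact mul_le_mul e4 h5 (by positivity) (by positivity)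
  have hG : GG X (n + 1) (f 0) < δ ^ C * (X : ℝ) ^ (n + 2) := by
    refine lt_of_le_of_lt hGG ?_
    have h5 : δ ^ C * (X : ℝ) ^ (n + 2) = (X : ℝ) ^ (((n + 2 : ℕ) : ℝ) - η * C) := by
      rw [Real.rpow_sub hXp, ← hδpow, Real.rpow_natCast, one_div, inv_pow]
      field_simp
    rw [h5]
    refine Real.rpow_lt_rpow_of_exponent_lt (by linarith) ?_
    linarith
  set R : ℝ := (X : ℝ) ^ (z / 8) with hRdef
  have hR0 : 0 ≤ R := by positivity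
  set F : ℕ → ℝ := fun a => ‖∑ b ∈ Icc 1 (2 * (n + 2) * X), β b * Psi X (n + 2) f ((a : ℤ) * (b : ℕ))‖ with hF
  have hF0 : ∀ a, 0 ≤ F a := fun a => norm_nonneg _
  set S : Finset ℕ := (Icc 1 (2 * (n + 2) * X)).filter (fun a => α a ≠ 0) with hSdef
  have hcs : cs (n + 2) * 2 ^ (2 ^ n) ≤ 1 / 16 := by
    unfold cs
    have e : n + 2 - 1 = n + 1 := rfl
    rw [e, pow_add]
    have h5 : ((1 : ℝ) / 2) ^ (2 ^ (n + 1)) ≤ (1 / 2) ^ (2 ^ n) :=
      pow_le_pow_of_le_one (by norm_num) (by norm_num) (Nat.pow_le_pow_right (by norm_num) (by omega))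
    calc ((1 : ℝ) / 2) ^ (2 ^ (n + 1)) * (1 / 2) ^ 4 * 2 ^ (2 ^ n)
        ≤ (1 / 2) ^ (2 ^ n) * (1 / 2) ^ 4 * 2 ^ (2 ^ n) := by
          refine mul_le_mul_of_nonneg_right (mul_le_mul_of_nonneg_right h5 (by positivity)) (by positivity)
      _ = 1 / 16 := by
          rw [one_div, inv_pow]
          field_simp
          norm_num
  have hcs0 : 0 < cs (n + 2) := by
    unfold cs
    positivity
  have hcs1 : cs (n + 2) ≤ 1 / 16 := by
    have h5 : (1 : ℝ) ≤ 2 ^ (2 ^ n) := one_le_pow₀ (by norm_num)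
    nlinarith
  have hmain : ∑ a ∈ S, F a ≤ ((Nat.log 2 (2 * (n + 2) * X) + 1 : ℕ) : ℝ) * (52 * (X : ℝ) ^ 2 * (Ck * R * Z)) := by
    refine A16_dyadic (2 * (n + 2) * X) S ?_ F hF0 _ (by positivity) ?_
    · intro a ha
      rw [hSdef, mem_filter, mem_Icc] at ha
      refine ⟨?_, ha.1.2⟩
      have h5 := (hαs a ha.2).1
      by_contra hcon
      have ha1 : a = 1 := by omega
      rw [ha1] at h5
      have h6 : (X : ℝ) ^ θ = (X : ℝ) ^ (θ / 2) * (X : ℝ) ^ (θ / 2) := by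
        rw [← Real.rpow_add hXp]
        congr 1
        ring
      push_cast at h5
      nlinarith
    · rintro i ⟨a, ha, hai, hai2⟩
      rw [hSdef, mem_filter] at ha
      obtain ⟨h5, h6⟩ := hαs a ha.2
      have hK1 : 1 ≤ 2 ^ i := Nat.one_le_two_pow
      have hair : ((2 ^ i : ℕ) : ℝ) ≤ a := by exact_mod_cast hai.le
      have hair2 : (a : ℝ) ≤ 2 * ((2 ^ i : ℕ) : ℝ) := by exact_mod_cast hai2
      have h7 : (X : ℝ) ^ θ = (X : ℝ) ^ (θ / 2) * (X : ℝ) ^ (θ / 2) := by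
        rw [← Real.rpow_add hXp]
        congr 1
        ring
      have c1 : (1 / δ) ^ C ≤ ((2 ^ i : ℕ) : ℝ) := by
        rw [hδpow]
        have h8 : (X : ℝ) ^ (η * C) ≤ (X : ℝ) ^ (θ / 2) := Real.rpow_le_rpow_of_exponent_le hX1 (by linarith)
        nlinarith
      have hKcs : ((2 ^ i : ℕ) : ℝ) ≤ (X : ℝ) ^ cs (n + 2) := hair.trans h6
      have c2 : (1 / δ) ^ C * ((2 ^ i : ℕ) : ℝ) ^ (2 ^ 2 ^ n) ≤ X := by
        rw [hδpow]
        have h8 : ((2 ^ i : ℕ) : ℝ) ^ (2 ^ 2 ^ n) ≤ ((X : ℝ) ^ cs (n + 2)) ^ (2 ^ 2 ^ n) :=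
          pow_le_pow_left₀ (by positivity) hKcs _
        have h9 : ((X : ℝ) ^ cs (n + 2)) ^ (2 ^ 2 ^ n) = (X : ℝ) ^ (cs (n + 2) * 2 ^ (2 ^ n)) := by
          rw [← Real.rpow_natCast, ← Real.rpow_mul hXp.le]
          push_cast
          rfl
        calc (X : ℝ) ^ (η * C) * ((2 ^ i : ℕ) : ℝ) ^ (2 ^ 2 ^ n)
            ≤ (X : ℝ) ^ (η * C) * (X : ℝ) ^ (cs (n + 2) * 2 ^ (2 ^ n)) := by
              rw [← h9]
              exact mul_le_mul_of_nonneg_left h8 (by positivity)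
          _ = (X : ℝ) ^ (η * C + cs (n + 2) * 2 ^ (2 ^ n)) := (Real.rpow_add hXp _ _).symm
          _ ≤ (X : ℝ) ^ (1 : ℝ) := Real.rpow_le_rpow_of_exponent_le hX1 (by linarith)
          _ = X := Real.rpow_one _
      have c3 : 2 * (16 * (n + 2) * (n + 2).factorial) * 2 ^ i ≤ X := by
        have h8 : ((2 ^ i : ℕ) : ℝ) ≤ (X : ℝ) ^ ((1 : ℝ) / 2) :=
          hKcs.trans (Real.rpow_le_rpow_of_exponent_le hX1 (by linarith))
        have h9 : (X : ℝ) ^ ((1 : ℝ) / 2) * (X : ℝ) ^ ((1 : ℝ) / 2) = X := by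
          rw [← Real.rpow_add hXp]
          norm_num
        have h10 : (2 * (16 * ((n : ℝ) + 2) * ((n + 2).factorial : ℕ))) * ((2 ^ i : ℕ) : ℝ) ≤ X := by
          calc (2 * (16 * ((n : ℝ) + 2) * ((n + 2).factorial : ℕ))) * ((2 ^ i : ℕ) : ℝ)
              ≤ (X : ℝ) ^ ((1 : ℝ) / 2) * (X : ℝ) ^ ((1 : ℝ) / 2) := mul_le_mul e5 h8 (by positivity) (by positivity)
            _ = X := h9
        exact_mod_cast h10
      exact A16_one n hn C hstar δ Z hδ0 hδ2 hZ0 hZδ X (2 ^ i) (by omega) hK1 c1 c2 c3 h4 hdiv β R hR0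
        (fun b => (hβ b)) f hf hG
  have hT : ‖∑ a ∈ Icc 1 (2 * (n + 2) * X), ∑ b ∈ Icc 1 (2 * (n + 2) * X), α a * β b * Psi X (n + 2) f ((a : ℤ) * b)‖ ≤
      R * ∑ a ∈ S, F a := by
    rw [hSdef, Finset.sum_filter, Finset.mul_sum]
    refine (norm_sum_le _ _).trans (Finset.sum_le_sum fun a _ => ?_)
    have h5 : ∑ b ∈ Icc 1 (2 * (n + 2) * X), α a * β b * Psi X (n + 2) f ((a : ℤ) * b) =
        α a * ∑ b ∈ Icc 1 (2 * (n + 2) * X), β b * Psi X (n + 2) f ((a : ℤ) * (b : ℕ)) := by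
      rw [Finset.mul_sum]
      refine Finset.sum_congr rfl fun b _ => ?_
      rw [mul_assoc]
    rw [h5, norm_mul]
    split_ifs with h6
    · exact mul_le_mul_of_nonneg_right (hα a) (norm_nonneg _)
    · rw [not_ne_iff.1 h6]
      simp
  refine hT.trans ((mul_le_mul_of_nonneg_left hmain hR0).trans ?_)
  have hL0 : (0 : ℝ) ≤ ((Nat.log 2 (2 * (n + 2) * X) + 1 : ℕ) : ℝ) := by positivity
  calc R * (((Nat.log 2 (2 * (n + 2) * X) + 1 : ℕ) : ℝ) * (52 * (X : ℝ) ^ 2 * (Ck * R * Z)))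
      = (((Nat.log 2 (2 * (n + 2) * X) + 1 : ℕ) : ℝ) * (52 * Ck)) * (R * R * Z * (X : ℝ) ^ 2) := by ring
    _ ≤ ((X : ℝ) ^ (z / 8) * (X : ℝ) ^ (z / 8)) * (R * R * Z * (X : ℝ) ^ 2) := by
        refine mul_le_mul_of_nonneg_right (mul_le_mul e7 e6 (by positivity) (by positivity)) (by positivity)
    _ = (X : ℝ) ^ (2 - z / 2) := by
        rw [hRdef, hZdef, ← Real.rpow_natCast (X : ℝ) 2, ← Real.rpow_add hXp, ← Real.rpow_add hXp, ← Real.rpow_add hXp,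
          ← Real.rpow_add hXp]
        congr 1
        push_cast
        ring
    _ ≤ (X : ℝ) ^ (2 - z / 4) := Real.rpow_le_rpow_of_exponent_le hX1 (by linarith)

end Pool.Agent.HUK
end

-- from Lib.HUK.FIN
section

/-!
# Project HUK: all modules together

`PK k` for all `k ≥ 2` (all Gowers norms of the error are small) and the core theorem for all systems of linear forms without
proportional linear parts.
-/

namespace Pool.Agent.HUK

open Pool.Agent.H9U (Sys)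
open Pool.Agent.H96U (CoreOf Fin2)

/-- All Gowers norms of the error are small. -/
theorem FIN_PK (k : ℕ) (hk : 2 ≤ k) : PK k :=
  C8_all Pool.Agent.H37T.inv (fun k hk => tlp_of_tii k hk (A16_TII k hk)) (fun k hk => LKP_all k (by omega)) k hk



end Pool.Agent.HUK
end
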