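import Pool.Agent.Lib.H59M.M2.D_H59_SchinzelDefs
import Pool.Agent.Lib.H59M.M2.M067
import Pool.Agent.Lib.H59M.M2.M080
import Pool.Agent.Lib.H59M.M2.M087
import Pool.Agent.Lib.H59M.M2.M088
import Pool.Agent.Lib.H59M.M2.M093
import Pool.Agent.Lib.H59M.M2.M095
import Pool.Agent.Lib.H59M.M2.M098
import Pool.Agent.Lib.H59M.M2.M099
import Pool.Agent.Lib.H59M.M2.M100
import Pool.Agent.Lib.H59M.M2.M105
import Pool.Agent.Lib.H59M.M2.M106
import Pool.Agent.Lib.H59M.M2.M108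
import Pool.Agent.Lib.H59M.M2.M110
import Pool.Agent.Lib.H59M.M2.M111
import Pool.Agent.Lib.H59M.M2.M113
import Pool.Agent.Lib.H59M.M2.M114
import Pool.Agent.Lib.H59M.M2.M115
import Pool.Agent.Lib.H59M.M2.M116
import Pool.Agent.Lib.H59M.M2.M117

/-! Merged copies (to shorten the build) of Lib.HLA.W15, Lib.HUP.FGFin, Lib.HLA.W20, Lib.HLA.W22, Lib.HLA.W18, Lib.HLA.W19, Lib.HLA.W21. -/

-- from Lib.HLA.W15
section

/-!
# LOGA, chunk W15 (M/L): the core theorem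
-/

open Finset Polynomial

namespace Pool.Agent.HLA

open Pool.Agent.Lib.H68T Pool.Agent.Lib.H18Q Pool.Agent.Lib.H59P Pool.Agent.Lib.H24P
open Pool.Agent.HUP Pool.Agent.H9P

/-- No fixed prime divisor: the linear coordinate is primitive. -/
theorem w15_lin {k A : ℕ} {B : ℤ[X]} (hdeg : B.natDegree = 1) (hlc : B.leadingCoeff.natAbs ≤ A) {P : Fin k → ℤ[X]}
    {h : Fin k → ℕ} (hN : NoFix (sys B P h)) : Lin A B := by
  refine ⟨hdeg, hlc, ?_⟩
  rw [Int.isCoprime_iff_gcd_eq_one]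
  by_contra hg
  obtain ⟨l, hl, hd⟩ := Nat.exists_prime_and_dvd hg
  obtain ⟨n, hn⟩ := hN l hl
  have h0 := hn 0
  apply h0
  show (l : ℤ) ∣ B.eval n
  rw [eval_eq_sum_range, hdeg, sum_range_succ, sum_range_one]
  have h1 : (l : ℤ) ∣ B.coeff 0 := (Int.natCast_dvd_natCast.2 hd).trans (Int.gcd_dvd_left _ _)
  have h2 : (l : ℤ) ∣ B.coeff 1 := (Int.natCast_dvd_natCast.2 hd).trans (Int.gcd_dvd_right _ _)
  exact dvd_add (h1.mul_right _) (h2.mul_right _)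

/-- The exceptional proportion. -/
theorem w15_asy (A : ℕ) (a1 a2 c3 c4 C : ℝ) (ha1 : 0 ≤ a1) (ha2 : 0 ≤ a2) (hc3 : 0 < c3) (hc4 : 0 < c4) (hC : 1 ≤ C) :
    ∃ Q0 : ℕ, ∀ Q Z : ℕ, Q0 ≤ Q → Real.log Q ≤ Real.log Z → Real.log Z ≤ C * Real.log Q →
    a1 * ((Real.log Q) ^ (-(2 * (A : ℝ) + 2)) + (Q : ℝ) ^ (-c3)) + a2 * (Q : ℝ) ^ (-c4) ≤ (Real.log Z) ^ (-(A : ℝ)) := by
  obtain ⟨Qa, h1⟩ := v16_asy2 a1 (2 * (A : ℝ) + 2) c3 1 C ha1 (by positivity) hc3 one_pos hC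
  obtain ⟨Qb, h2⟩ := v16_asy2 a2 (2 * (A : ℝ) + 2) c4 1 C ha2 (by positivity) hc4 one_pos hC
  obtain ⟨Qc, h3⟩ := v16_lgev 2
  refine ⟨Qa + Qb + Qc, fun Q Z hQ hQZ hZQ => ?_⟩
  have h4 := h3 Q (by omega)
  have hlQ : 0 < Real.log Q := by linarith
  have hlZ : 0 < Real.log Z := by linarith
  have h5 := h1 Q Z (by omega) hlZ hZQ
  have h6 := h2 Q Z (by omega) hlZ hZQ
  have h7 : 0 ≤ (Q : ℝ) ^ (-(1 : ℝ)) := Real.rpow_nonneg (Nat.cast_nonneg _) _
  have h8 : 0 ≤ a2 * (Real.log Q) ^ (-(2 * (A : ℝ) + 2)) := mul_nonneg ha2 (Real.rpow_nonneg hlQ.le _)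
  have h9 : (Real.log Z) ^ (-((2 * (A : ℝ) + 2) / 2)) ≤ 1 / 2 * (Real.log Z) ^ (-(A : ℝ)) := by
    have e1 : -((2 * (A : ℝ) + 2) / 2) = -(A : ℝ) + (-1) := by ring
    rw [e1, Real.rpow_add hlZ, mul_comm]
    refine mul_le_mul_of_nonneg_right ?_ (Real.rpow_nonneg hlZ.le _)
    rw [Real.rpow_neg_one, one_div]
    exact inv_anti₀ (by norm_num) (by linarith)
  rw [mul_add] at h6
  linarith

theorem w15_pow {κ Z Z' : ℝ} (hκ : 0 < κ) (hκ1 : κ ≤ 1) (hZ : 0 ≤ Z) (h : κ * Z ≤ Z') {m N : ℕ} (hm : m ≤ N) :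
    κ ^ N * Z ^ m ≤ Z' ^ m := by
  have h1 : κ ^ N ≤ κ ^ m := pow_le_pow_of_le_one hκ.le hκ1 hm
  calc κ ^ N * Z ^ m ≤ κ ^ m * Z ^ m := mul_le_mul_of_nonneg_right h1 (by positivity)
    _ = (κ * Z) ^ m := (mul_pow _ _ _).symm
    _ ≤ Z' ^ m := pow_le_pow_left₀ (by positivity) h _

theorem w15_min {a b η ε : ℝ} (ha : 0 < a) (hb0 : 0 ≤ b) (hε1 : ε ≤ 1) (hη : η ≤ ε / 200) (h : |a - b| ≤ η * b) :
    |b - a| ≤ ε / 64 * a := by
  have hb : 0 ≤ η * b := (abs_nonneg _).trans h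
  obtain ⟨h1, h2⟩ := abs_le.1 h
  rw [abs_le]
  have h3 : η * b ≤ ε / 200 * b := mul_le_mul_of_nonneg_right hη hb0
  have h4 : ε / 200 * b ≤ 1 / 200 * b := mul_le_mul_of_nonneg_right (by linarith) hb0
  have h5 : b ≤ 2 * a := by linarith
  have h7 : 0 ≤ ε ∨ ε < 0 := le_or_gt 0 ε
  rcases h7 with h7 | h7
  · have h6 : ε / 200 * b ≤ ε / 200 * (2 * a) := mul_le_mul_of_nonneg_left h5 (by positivity)
    have h8 : 0 ≤ ε * a := by positivity
    constructor <;> linarith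
  · exfalso
    have h8 : b = 0 := by
      by_contra hb1
      have hb2 : 0 < b := lt_of_le_of_ne hb0 (Ne.symm hb1)
      have : η * b < 0 := mul_neg_of_neg_of_pos (by linarith) hb2
      linarith
    rw [h8, mul_zero] at h h1 h2
    linarith

/-- **W15.** Variant of `V16_core` (`H9P/V16.lean`), whose proof should be copied as far as possible. Proof. `δ1` from `W10_main` (replace it by `min δ1 1`). Given `A`: `A' = A + ∑ D_i + ∑ |a_i| + 1`; `c0` from `W10_main` for `A'` (`z ≤ z'`, constants `C1w, z0w`).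
Given `ε` (WLOG `≤ 1`), `κ` (WLOG `≤ 1`), `vf`. `V14_main` (`H9P/V14.lean`) for `A'` gives `E, Cc, cc, K1`; `U13_sieve k A'` gives `Cs, Ks`; `K' = K1 + Ks + 1/δ1 + 1000`; `W3_all k A' E Cc cc K'` gives `c1`, then with
`c2 = A + 2` and `ε/64` the constant `C`. `Cb = Cs (∏ D) (2 C)^(k+1)`, `θ = ε/(24 (Cb + 1))` (`≤ 1/24`), the `θ` of `ACore` is `θ/4`, `v = vf (θ/4)`, `δ2 = min v 1 / 2`; `V14_main` with `C, c1, δ2` gives `Cv, ρ0`; `ρ = min(ρ0, θ κ/16, 1/2)`, then `c0', Q0`.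
For `Z` large `Q` from `W3_all`: `Rg K' C Q Z`, `Lvl k A' E Cc cc Q Z (ε/64) c1 ((log Q)^(-c2))`. `X1 = Q^800 ⌊ρ Z/Q^800⌋`. If `B` is not primitive there is no `t` with `NoFix` (as in `V16_core`), so `Lin A' B`. Exceptional sets:
(a) for every `j ≤ 2/ρ` (`j X1 ≤ Z`) such that `δ2 Z ≤ B(n) ≤ A' Z` on `[j X1 + X1, j X1 + 2 X1)`: the set of `V14_main` with `n0 = j X1` (for the other `j` the empty set): together at most
`(2/ρ + 1) Cv Z^(∑ e) ((log Q)^(-c2) + Q^(-c0'))`, at most `Z^(∑ e) (log Z)^(-A)/2` for `Z` large (`log Q ≥ log Z/C`).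
(b) for `z0w ≤ z`: the set of `W10_main` for the two levels `min(z, Q), max(z, Q)`: at most `C1w Z^(∑ e) (min z Q)^(-c0) ≤ C1w Z^(∑ e) (z^(-c0) + Q^(-c0))`; the second part is at most `Z^(∑ e) (log Z)^(-A)/4`, `z^(-c0) ≤ 2^c0 (z+1)^(-c0)`.
If `z < z1` (`z1 ≥ z0w` a constant with `C1w z1^(-c0) ≤ ε/200`) the bound is trivial with `C1 ≥ (2 A + 2)^d (z1 + 1)^c0` (`u10_card`). For the other `t` (`z1 ≤ z`, `t` in none of the sets): `φ = sys B P (hh c β t)`, `SS = SSf (pr Q) φ ≥ c (1 + log Q)^(-C')` (`X2_low`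
as in `V16_core`), so `Q^(-c0'), Q^(-c1) ≤ (ε/64) SS`; for the cells of `w15_one` the hypothesis on `B` and on the values at `n0` of `V14_main` hold by `w15_val` (`Z' ≤ Z`, `P_i(n0) + β_i + ψ_i(t) ≥ v Z^(D_i) ≥ δ2 Z^(D_i)`), which gives `hcell`;
`hwt` by `U12_wt` at the scale `Z'` (`Z' ≥ κ Z`, upper constant `A κ^(-D)`); `hsv` by `U13_sieve` (`log L ≥ log Z' - log(8/θ) ≥ K log Q`, `(log Z')^(k+1) ≤ (2 C log Q)^(k+1)`); `hz` by (b) (relative to the smaller level; relative to `SSf (pr Q)` up to the factor `2`).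
`Z' ≥ κ Z` is large, `X1 ≤ ρ Z ≤ θ Z'/8`. -/
theorem W15_core {k d : ℕ} (c : Fin k → Fin d → ℤ) (e : Fin d → ℕ) (D : Fin k → ℕ) (a : Fin k → ℤ)
    (hF : FGTU c D a) (hS : S4TU c e D a) (he : ∀ j, 1 ≤ e j) (hB : ∀ i j, c i j ≠ 0 → e j = D i)
    (hD : ∀ i, 1 ≤ D i) (P : Fin k → ℤ[X]) (hP : HasD D a P) : ACore c e D P := by
  classical
  obtain ⟨δ1, hδ1, h10⟩ := W10_main c e D a hF he hD P hP
  refine ⟨δ1, hδ1, fun A => ?_⟩
  obtain ⟨A', hA'⟩ : ∃ A' : ℕ, A' = A + ∑ i, D i + ∑ i, (a i).natAbs + 1 := ⟨_, rfl⟩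
  have hA1 : 1 ≤ A' := by omega
  have hAA : A ≤ A' := by omega
  have hA1r : (1 : ℝ) ≤ A' := by exact_mod_cast hA1
  have hAAr : (A : ℝ) ≤ A' := by exact_mod_cast hAA
  have hDA : ∀ i, D i ≤ A' ∧ (a i).natAbs ≤ A' := by
    intro i
    have h1 : D i ≤ ∑ i, D i := single_le_sum (f := fun i => D i) (fun _ _ => Nat.zero_le _) (mem_univ i)
    have h2 : (a i).natAbs ≤ ∑ i, (a i).natAbs :=
      single_le_sum (f := fun i => (a i).natAbs) (fun _ _ => Nat.zero_le _) (mem_univ i)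
    omega
  have hPol : Pol A' P := ⟨fun i => by rw [(hP i).1]; exact hD i, fun i => by rw [(hP i).1]; exact (hDA i).1,
    fun i => by rw [(hP i).2]; exact (hDA i).2⟩
  obtain ⟨c0, C1w, hc0, hC1w, z0, hW10⟩ := h10 A'
  refine ⟨c0, hc0, fun ε0 κ0 vf hε0 hκ0 hvf => ?_⟩
  obtain ⟨E, Cc, cc, K1, hpar, hK1, h14⟩ := V14_main c e D a hF hS he hB hD P hP A' hA1 hDA
  obtain ⟨Cs, Ks, hCs, hKs, Q13, h13⟩ := U13_sieve k A' hA1
  have hδ1i : 0 < 1 / δ1 := by positivity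
  obtain ⟨K', hK'⟩ : ∃ K' : ℝ, K' = K1 + Ks + 1 / δ1 + 1000 := ⟨_, rfl⟩
  obtain ⟨c1, hc1, hE3⟩ := W3_all k A' E hA1 Cc cc hpar K' (by linarith)
  obtain ⟨ε, hε⟩ : ∃ ε : ℝ, ε = min ε0 1 := ⟨_, rfl⟩
  have hεp : 0 < ε := by rw [hε]; exact lt_min hε0 one_pos
  have hε1 : ε ≤ 1 := by rw [hε]; exact min_le_right _ _
  have hεε : ε ≤ ε0 := by rw [hε]; exact min_le_left _ _
  obtain ⟨κ, hκ⟩ : ∃ κ : ℝ, κ = min κ0 1 := ⟨_, rfl⟩
  have hκp : 0 < κ := by rw [hκ]; exact lt_min hκ0 one_pos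
  have hκ1 : κ ≤ 1 := by rw [hκ]; exact min_le_right _ _
  have hκκ : κ ≤ κ0 := by rw [hκ]; exact min_le_left _ _
  obtain ⟨C, hC, hE4⟩ := hE3 (2 * (A : ℝ) + 2) (ε / 64) (by positivity) (by positivity)
  have hP0 : 0 < ∏ i, (D i : ℝ) := by
    refine prod_pos fun i _ => ?_
    exact_mod_cast hD i
  obtain ⟨Cb, hCb⟩ : ∃ Cb : ℝ, Cb = Cs * ((∏ i, (D i : ℝ)) * C ^ (k + 1)) := ⟨_, rfl⟩
  have hCb0 : 0 ≤ Cb := by rw [hCb]; positivity
  obtain ⟨θ, hθd⟩ : ∃ θ : ℝ, θ = ε / (24 * (Cb + 1)) := ⟨_, rfl⟩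
  have hθ0 : 0 < θ := by rw [hθd]; positivity
  have hθC : 24 * θ * (Cb + 1) ≤ ε := by
    rw [hθd]
    apply le_of_eq
    field_simp
  have hθ1 : θ ≤ 1 / 4 := by
    rw [hθd, div_le_iff₀ (by positivity)]
    linarith
  obtain ⟨v, hvd⟩ : ∃ v : ℝ, v = min (vf (θ / 4)) 1 / 2 := ⟨_, rfl⟩
  have hvf0 : 0 < vf (θ / 4) := hvf _ (by positivity)
  have hv0 : 0 < v := by
    rw [hvd]
    have : 0 < min (vf (θ / 4)) 1 := lt_min hvf0 one_pos
    linarith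
  have hvv : v ≤ vf (θ / 4) := by
    have h1 : min (vf (θ / 4)) 1 ≤ vf (θ / 4) := min_le_left _ _
    linarith
  obtain ⟨Cz, hCz⟩ : ∃ Cz : ℝ, Cz = A' / κ ^ (A' + 1) := ⟨_, rfl⟩
  have hκN : 0 < κ ^ (A' + 1) := by positivity
  have hκN1 : κ ^ (A' + 1) ≤ 1 := pow_le_one₀ hκp.le hκ1
  have hCz1 : 1 ≤ Cz := by
    rw [hCz, le_div_iff₀ hκN]
    linarith
  obtain ⟨Z12, h12⟩ := U12_wt D hD v Cz (ε / 16) hv0 hCz1 (by positivity)
  obtain ⟨Cv, ρ0, hCv, hρ0, h14'⟩ := h14 C c1 v hc1 hv0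
  obtain ⟨ρ, hρd⟩ : ∃ ρ : ℝ, ρ = min ρ0 (θ * κ / 16) := ⟨_, rfl⟩
  have hρ : 0 < ρ := by rw [hρd]; exact lt_min hρ0 (by positivity)
  have hρρ : ρ ≤ ρ0 := by rw [hρd]; exact min_le_left _ _
  have hρθ : ρ ≤ θ * κ / 16 := by rw [hρd]; exact min_le_right _ _
  have hρ1 : ρ ≤ 1 / 32 := by
    have : θ * κ ≤ 1 / 4 * 1 := mul_le_mul hθ1 hκ1 hκp.le (by norm_num)
    linarith
  obtain ⟨c3, hc3, Q14, h14''⟩ := h14' ρ hρ hρρ
  obtain ⟨CX, cX, hCX, hcX, hX2⟩ := X2_low k A' hA1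
  obtain ⟨Qa, ha1⟩ := v16_asy1 c3 (ε / 64 * cX) CX hc3 (by positivity) hCX
  obtain ⟨z2, hz2⟩ := u14_ev c0 hc0 (200 * C1w / ε)
  obtain ⟨z1, hz1⟩ : ∃ z1 : ℕ, z1 = z0 + z2 + 1 := ⟨_, rfl⟩
  have hη : ∀ y : ℕ, z1 ≤ y → C1w * (y : ℝ) ^ (-c0) ≤ ε / 200 := by
    intro y hy
    have hy0 : (0 : ℝ) < y := by exact_mod_cast (by omega : 0 < y)
    have h1 := hz2 y (by omega)
    have h2 : 0 < (y : ℝ) ^ c0 := Real.rpow_pos_of_pos hy0 _
    rw [Real.rpow_neg hy0.le, ← div_eq_mul_inv, div_le_iff₀ h2]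
    rw [div_le_iff₀ hεp] at h1
    linarith
  obtain ⟨C1, hC1⟩ : ∃ C1 : ℝ, C1 = (2 * (A' : ℝ)) ^ d * ((z1 : ℝ) + 1) ^ c0 + C1w * 2 ^ c0 := ⟨_, rfl⟩
  have hC1a : 0 ≤ (2 * (A' : ℝ)) ^ d * ((z1 : ℝ) + 1) ^ c0 := by positivity
  have hC1b : 0 ≤ C1w * (2 : ℝ) ^ c0 := by positivity
  have hC10 : 0 ≤ C1 := by rw [hC1]; linarith
  obtain ⟨Qc, hc1'⟩ := w15_asy A ((2 / ρ + 1) * Cv) C1w c3 c0 C (by positivity) (by linarith) hc3 hc0 hC
  obtain ⟨Qd, hd⟩ := v16_lgev 2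
  obtain ⟨Qe, he1⟩ : ∃ Qe : ℕ, Qe = ⌈8 / ρ⌉₊ := ⟨_, rfl⟩
  obtain ⟨Z0, hZ0⟩ := hE4 (Q13 + Q14 + Qa + Qc + Qd + Qe + z1 + 2)
  obtain ⟨Z3, hZ3⟩ : ∃ Z3 : ℕ, Z3 = ⌈(Z12 : ℝ) / κ⌉₊ := ⟨_, rfl⟩
  refine ⟨θ / 4, C1, Z0 + Z3 + 1, by positivity, hC10, fun Z hZ B hBd hBl β hβ z hz => ?_⟩
  obtain ⟨Q, hQ, hRg, hLvl⟩ := hZ0 Z (by omega)
  obtain ⟨hRg1, hRg2⟩ := hRg
  have hQ2 : 2 ≤ Q := by omega
  have hQr : (2 : ℝ) ≤ Q := by exact_mod_cast hQ2
  have hlQ : 2 ≤ Real.log Q := hd Q (by omega)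
  have hKl : K1 * Real.log Q + Ks * Real.log Q + 1 / δ1 * Real.log Q + 1000 * Real.log Q ≤ Real.log Z := by
    have : K' * Real.log Q = K1 * Real.log Q + Ks * Real.log Q + 1 / δ1 * Real.log Q + 1000 * Real.log Q := by
      rw [hK']; ring
    linarith
  have hlQ0 : 0 < Real.log Q := by linarith
  have hK1l : 0 < K1 * Real.log Q := by positivity
  have hKsl : 0 < Ks * Real.log Q := by positivity
  have hδl : 0 < 1 / δ1 * Real.log Q := by positivity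
  have hlZ : 0 < Real.log Z := by linarith
  have hZp : 0 < Z := by
    rcases Nat.eq_zero_or_pos Z with h | h
    · rw [h, Nat.cast_zero, Real.log_zero] at hlZ
      exact absurd hlZ (lt_irrefl _)
    · exact h
  have hZr : (0 : ℝ) < Z := by exact_mod_cast hZp
  have hQρ : 8 ≤ ρ * Q := by
    have h1 : 8 / ρ ≤ Qe := by rw [he1]; exact Nat.le_ceil _
    have h2 : (Qe : ℝ) ≤ Q := by exact_mod_cast (by omega : Qe ≤ Q)
    have h3 : 8 / ρ ≤ Q := h1.trans h2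
    rw [div_le_iff₀ hρ] at h3
    linarith
  have hZQ : (Q : ℝ) ^ 801 ≤ Z := by
    rw [← Real.log_le_log_iff (by positivity) hZr, Real.log_pow]
    push_cast
    linarith
  have hZbig : 2 * ((Q ^ 800 : ℕ) : ℝ) ≤ ρ * Z := by
    push_cast
    calc 2 * (Q : ℝ) ^ 800 ≤ (ρ * Q) * (Q : ℝ) ^ 800 := mul_le_mul_of_nonneg_right (by linarith) (by positivity)
      _ = ρ * (Q : ℝ) ^ 801 := by ring
      _ ≤ ρ * Z := mul_le_mul_of_nonneg_left hZQ hρ.le
  have hρZ : 8 ≤ ρ * Z := by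
    have h1 : (Q : ℝ) ≤ Z := by
      refine le_trans ?_ hZQ
      calc (Q : ℝ) = (Q : ℝ) ^ 1 := (pow_one _).symm
        _ ≤ (Q : ℝ) ^ 801 := pow_le_pow_right₀ (by linarith) (by norm_num)
    exact hQρ.trans (mul_le_mul_of_nonneg_left h1 hρ.le)
  have hQδ : (Q : ℝ) ≤ (Z : ℝ) ^ δ1 := by
    rw [← Real.log_le_log_iff (by positivity) (by positivity), Real.log_rpow hZr]
    have h1 : 1 / δ1 * Real.log Q ≤ Real.log Z := by linarith
    rw [div_mul_eq_mul_div, one_mul, div_le_iff₀ hδ1] at h1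
    linarith
  have hZe : (Z : ℝ) ^ (∑ j, (e j : ℝ)) = (Z : ℝ) ^ (∑ j, e j) := by
    rw [← Real.rpow_natCast]
    push_cast
    rfl
  rw [hZe]
  have hZe0 : 0 < (Z : ℝ) ^ (∑ j, e j) := by positivity
  have hlA : 0 ≤ (Real.log Z) ^ (-(A : ℝ)) := Real.rpow_nonneg hlZ.le _
  have hz11 : (0 : ℝ) < (z : ℝ) + 1 := by positivity
  have hzc : 0 < ((z : ℝ) + 1) ^ (-c0) := Real.rpow_pos_of_pos hz11 _
  -- the set of bad parameters
  set F := ((tb 0 fun j => A * Z ^ e j + 1).filter fun t => (∀ i, 0 ≤ β i + lf c t i) ∧ NoFix (sys B P (hh c β t)) ∧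
      ∃ Z' : ℕ, Reg A κ0 (θ / 4) (vf (θ / 4)) Z Z' D (sys B P (hh c β t)) ∧
        ε0 * (Z' * dens D z Z' (sys B P (hh c β t))) <
        |(cnt (sys B P (hh c β t)) 1 Z' : ℝ) - Z' * dens D z Z' (sys B P (hh c β t))|) with hFd
  rcases F.eq_empty_or_nonempty with hF0 | ⟨t0, ht0⟩
  · rw [hF0, card_empty, Nat.cast_zero]
    positivity
  have hLin : Lin A' B := by
    have h1 := (mem_filter.1 ht0).2.2.1
    exact u10_lin hAA (w15_lin hBd hBl h1)
  have hβ' : ∀ i, |β i| ≤ A' * (Z : ℤ) ^ D i := by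
    intro i
    refine (hβ i).trans (mul_le_mul_of_nonneg_right ?_ (by positivity))
    exact_mod_cast hAA
  by_cases hzz : z < z1
  · -- small levels: the trivial bound
    have h1 : (F.card : ℝ) ≤ (2 * A') ^ d * (Z : ℝ) ^ (∑ j, e j) := by
      refine le_trans ?_ (u10_card e A' Z hA1 hZp)
      refine Nat.cast_le.2 (card_le_card fun t ht => ?_)
      exact v16_tb e hAA (mem_filter.1 ht).1
    have h2 : ((z : ℝ) + 1) ^ c0 ≤ ((z1 : ℝ) + 1) ^ c0 := by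
      refine Real.rpow_le_rpow hz11.le ?_ hc0.le
      have : (z : ℝ) ≤ z1 := by exact_mod_cast hzz.le
      linarith
    have h3 : (2 * (A' : ℝ)) ^ d ≤ C1 * ((z : ℝ) + 1) ^ (-c0) := by
      rw [Real.rpow_neg hz11.le, ← div_eq_mul_inv, le_div_iff₀ (Real.rpow_pos_of_pos hz11 _)]
      have h4 : (2 * (A' : ℝ)) ^ d * ((z : ℝ) + 1) ^ c0 ≤ (2 * (A' : ℝ)) ^ d * ((z1 : ℝ) + 1) ^ c0 :=
        mul_le_mul_of_nonneg_left h2 (by positivity)
      rw [hC1]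
      linarith
    calc (F.card : ℝ) ≤ (2 * A') ^ d * (Z : ℝ) ^ (∑ j, e j) := h1
      _ = (Z : ℝ) ^ (∑ j, e j) * (2 * A') ^ d := mul_comm _ _
      _ ≤ (Z : ℝ) ^ (∑ j, e j) * ((Real.log Z) ^ (-(A : ℝ)) + C1 * ((z : ℝ) + 1) ^ (-c0)) :=
        mul_le_mul_of_nonneg_left (by linarith) hZe0.le
  push_neg at hzz
  obtain ⟨X1, -, -, hX1d, hX1, hX1a, hX1b, -⟩ :=
    v16_num (Q ^ 800) Z ρ (1 / 4) hρ (by linarith) le_rfl (by positivity) hZbig
  set Ej : ℕ → Finset (Fin d → ℤ) := fun j =>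
    if (∀ n ∈ Ico (j * X1 + X1) (j * X1 + 2 * X1), v * Z ≤ ((B.eval (n : ℤ) : ℤ) : ℝ) ∧
      ((B.eval (n : ℤ) : ℤ) : ℝ) ≤ A' * Z) ∧ j * X1 ≤ A' * Z then
    ((tb 0 fun j => A' * Z ^ e j + 1).filter fun t =>
      (∀ i, 0 ≤ β i + lf c t i) ∧ NoFix (sys B P (hh c β t)) ∧
      (∀ i, v * (Z : ℝ) ^ D i ≤ (((P i).eval ((j * X1 : ℕ) : ℤ) + β i + lf c t i : ℤ) : ℝ)) ∧
      X1 * (ε / 64 * SSf (pr Q) (sys B P (hh c β t)) + (Q : ℝ) ^ (-c3)) <
        |wct (sys B P (hh c β t)) (j * X1 + X1) X1 - X1 * SSf (pr Q) (sys B P (hh c β t))|) else ∅ with hEj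
  have hX0 : 0 ≤ (Real.log Q) ^ (-(2 * (A : ℝ) + 2)) + (Q : ℝ) ^ (-c3) := by positivity
  have hEjc : ∀ j : ℕ, ((Ej j).card : ℝ) ≤
      Cv * (Z : ℝ) ^ (∑ j, e j) * ((Real.log Q) ^ (-(2 * (A : ℝ) + 2)) + (Q : ℝ) ^ (-c3)) := by
    intro j
    rw [hEj]
    dsimp only
    split_ifs with hj
    · have h1 := h14'' Q Z (by omega) ⟨by linarith, hRg2⟩ (ε / 64) ((Real.log Q) ^ (-(2 * (A : ℝ) + 2)))
        (by positivity) hLvl X1 (j * X1) hX1d hX1a hX1b hj.2 B hLin hj.1 β hβ'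
      refine le_trans ?_ h1
      exact Nat.cast_le.2 (card_le_card fun t ht => mem_filter.2 (mem_filter.1 ht))
    · rw [card_empty, Nat.cast_zero]
      positivity
  obtain ⟨zm, hzm⟩ : ∃ zm, zm = min z Q := ⟨_, rfl⟩
  obtain ⟨zM, hzM⟩ : ∃ zM, zM = max z Q := ⟨_, rfl⟩
  have hzm1 : z1 ≤ zm := by rw [hzm]; exact le_min hzz (by omega)
  have hzm0 : (0 : ℝ) < zm := by exact_mod_cast (by omega : 0 < zm)
  set G := ((tb 0 fun j => A' * Z ^ e j + 1).filter fun t => (∀ i, 0 ≤ β i + lf c t i) ∧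
      C1w * (zm : ℝ) ^ (-c0) * SSf (pr zm) (sys B P (hh c β t)) <
        |SSf (pr zM) (sys B P (hh c β t)) - SSf (pr zm) (sys B P (hh c β t))|) with hG
  have hzMZ : (zM : ℝ) ≤ (Z : ℝ) ^ δ1 := by
    rw [hzM, Nat.cast_max]
    exact max_le hz hQδ
  have hGc : (G.card : ℝ) ≤ C1w * (Z : ℝ) ^ (∑ j, e j) * (zm : ℝ) ^ (-c0) := by
    refine le_trans ?_ (hW10 zm zM Z (by omega) (by rw [hzm, hzM]; exact (min_le_left _ _).trans (le_max_left _ _)) hzMZ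
      B hLin β)
    exact Nat.cast_le.2 (card_le_card fun t ht => mem_filter.2 (mem_filter.1 ht))
  have hzmb : (zm : ℝ) ^ (-c0) ≤ (2 : ℝ) ^ c0 * ((z : ℝ) + 1) ^ (-c0) + (Q : ℝ) ^ (-c0) := by
    have hQn : 0 ≤ (Q : ℝ) ^ (-c0) := Real.rpow_nonneg (Nat.cast_nonneg _) _
    rcases le_total z Q with h | h
    · rw [hzm, min_eq_left h]
      have hzp : (0 : ℝ) < z := by exact_mod_cast (by omega : 0 < z)
      have hz1r : (1 : ℝ) ≤ z := by exact_mod_cast (by omega : 1 ≤ z)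
      have h1 : ((z : ℝ) + 1) ^ c0 ≤ 2 ^ c0 * (z : ℝ) ^ c0 := by
        rw [← Real.mul_rpow (by norm_num) hzp.le]
        exact Real.rpow_le_rpow hz11.le (by linarith) hc0.le
      have h2 : (z : ℝ) ^ (-c0) ≤ (2 : ℝ) ^ c0 * ((z : ℝ) + 1) ^ (-c0) := by
        rw [Real.rpow_neg hzp.le, Real.rpow_neg hz11.le, ← div_eq_mul_inv, le_div_iff₀ (Real.rpow_pos_of_pos hz11 _),
          inv_mul_le_iff₀ (Real.rpow_pos_of_pos hzp _), mul_comm ((z : ℝ) ^ c0)]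
        exact h1
      linarith
    · rw [hzm, min_eq_right h]
      have : 0 ≤ (2 : ℝ) ^ c0 * ((z : ℝ) + 1) ^ (-c0) := by positivity
      linarith
  have hsub : F ⊆ (range (⌊2 / ρ⌋₊ + 1)).biUnion Ej ∪ G := by
    intro t ht
    obtain ⟨ht1, ht2, ht3, Z', hR, ht4⟩ := mem_filter.1 ht
    have ht1' := v16_tb e hAA ht1
    by_contra hn
    rw [mem_union, mem_biUnion, not_or] at hn
    obtain ⟨hn1, hn2⟩ := hn
    have hn1' : ∀ j ∈ range (⌊2 / ρ⌋₊ + 1), t ∉ Ej j := fun j hj hjt => hn1 ⟨j, hj, hjt⟩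
    set φ := sys B P (hh c β t) with hφ
    have hX2' := hX2 B hLin P hPol (hh c β t) ht3 Q hQ2 (pr Q) (Finset.Subset.refl _)
    rw [← hφ] at hX2'
    have hlp : 0 < (1 + Real.log Q) ^ (-CX) := Real.rpow_pos_of_pos (by linarith) _
    have hSS : 0 < SSf (pr Q) φ := lt_of_lt_of_le (by positivity) hX2'
    have hSSb : ε / 64 * cX * (1 + Real.log Q) ^ (-CX) ≤ ε / 64 * SSf (pr Q) φ := by
      have := mul_le_mul_of_nonneg_left hX2' (by positivity : 0 ≤ ε / 64)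
      linarith
    have hθ1' : (Q : ℝ) ^ (-c3) ≤ ε / 64 * SSf (pr Q) φ := (ha1 Q (by omega)).trans hSSb
    have hz' : |SSf (pr z) φ - SSf (pr Q) φ| ≤ ε / 64 * SSf (pr Q) φ := by
      have h1 : |SSf (pr zM) φ - SSf (pr zm) φ| ≤ C1w * (zm : ℝ) ^ (-c0) * SSf (pr zm) φ := by
        by_contra h
        exact hn2 (mem_filter.2 ⟨ht1', ht2, not_le.1 h⟩)
      have h2 := hη zm hzm1
      rcases le_total z Q with h | h
      · have e1 : zm = z := by rw [hzm]; exact min_eq_left h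
        have e2 : zM = Q := by rw [hzM]; exact max_eq_right h
        rw [e1] at h2
        rw [e1, e2] at h1
        exact w15_min hSS (e3_nn z φ) hε1 h2 h1
      · have e1 : zm = Q := by rw [hzm]; exact min_eq_right h
        have e2 : zM = z := by rw [hzM]; exact max_eq_left h
        rw [e1] at h2
        rw [e1, e2] at h1
        refine h1.trans (mul_le_mul_of_nonneg_right (h2.trans ?_) hSS.le)
        linarith
    -- the length
    have hZ'Z : (Z' : ℝ) ≤ Z := by exact_mod_cast hR.le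
    have hZ'κ : κ * Z ≤ Z' := (mul_le_mul_of_nonneg_right hκκ hZr.le).trans hR.ge
    have hρZ' : ρ * Z ≤ θ / 16 * Z' := by
      calc ρ * Z ≤ θ * κ / 16 * Z := mul_le_mul_of_nonneg_right hρθ hZr.le
        _ = θ / 16 * (κ * Z) := by ring
        _ ≤ θ / 16 * Z' := mul_le_mul_of_nonneg_left hZ'κ (by positivity)
    have hθZ' : 128 ≤ θ * Z' := by linarith
    have hZ'0 : (0 : ℝ) ≤ Z' := Nat.cast_nonneg _
    have hZ'p : (128 : ℝ) ≤ Z' := by
      have : θ * Z' ≤ 1 * Z' := mul_le_mul_of_nonneg_right (by linarith) hZ'0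
      linarith
    have hZ'pos : (0 : ℝ) < Z' := by linarith
    have hlZ' : 1 ≤ Real.log Z' := by
      rw [Real.le_log_iff_exp_le hZ'pos]
      have := Real.exp_one_lt_d9
      linarith
    have hlZZ' : Real.log Z' ≤ Real.log Z := Real.log_le_log hZ'pos hZ'Z
    have hX1Z' : (X1 : ℝ) ≤ θ / 8 * Z' := by
      have h1 : θ / 16 * Z' ≤ θ / 8 * Z' := mul_le_mul_of_nonneg_right (by linarith) hZ'0
      linarith
    have hX1r : (0 : ℝ) < X1 := by exact_mod_cast hX1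
    have hcast : ∀ i, ((β i + lf c t i : ℤ) : ℝ) ≥ 0 := by
      intro i
      have := ht2 i
      exact_mod_cast this
    have hvals : ∀ j : ℕ, θ / 4 * Z' ≤ (j * X1 : ℕ) → (((j + 2) * X1 : ℕ) : ℝ) ≤ (1 - θ / 2) * Z' →
        ∀ n ∈ Ico (j * X1) (j * X1 + 2 * X1),
        (vf (θ / 4) * Z ≤ ((φ 0 (n : ℤ) : ℤ) : ℝ) ∧ ((φ 0 (n : ℤ) : ℤ) : ℝ) ≤ A * Z) ∧
        ∀ i : Fin k, vf (θ / 4) * (Z : ℝ) ^ D i ≤ ((φ i.succ (n : ℤ) : ℤ) : ℝ) ∧
          ((φ i.succ (n : ℤ) : ℤ) : ℝ) ≤ A * (Z : ℝ) ^ D i := by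
      intro j h1 h2 n hn
      refine w15_val A κ0 θ (vf (θ / 4)) Z Z' D φ hR hθ0 (j * X1) X1 h1 ?_ n hn
      rw [show j * X1 + 2 * X1 = (j + 2) * X1 by ring]
      exact h2
    have hone := w15_one D hD φ Z' Q z X1 ε θ Cb hεp hε1 hθ0 (by linarith) hCb0 hθC (by linarith) hlZ' hX1 hX1Z' hSS
      (by
        intro j h1 h2
        have hjZ : ((j * X1 : ℕ) : ℝ) ≤ Z := by
          have h3 : ((j * X1 : ℕ) : ℝ) ≤ (((j + 2) * X1 : ℕ) : ℝ) := by
            exact_mod_cast Nat.mul_le_mul_right _ (by omega : j ≤ j + 2)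
          have h4 : (1 - θ / 2) * Z' ≤ 1 * Z' := mul_le_mul_of_nonneg_right (by linarith) hZ'0
          linarith
        have hjJ : j ∈ range (⌊2 / ρ⌋₊ + 1) := by
          rw [mem_range, Nat.lt_succ_iff]
          refine Nat.le_floor ?_
          rw [le_div_iff₀ hρ]
          push_cast at hjZ
          have h3 : (j : ℝ) * (ρ * Z) ≤ j * (2 * X1) := mul_le_mul_of_nonneg_left hX1a (Nat.cast_nonneg _)
          have h4 : (j : ℝ) * ρ * Z ≤ 2 * Z := by nlinarith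
          exact le_of_mul_le_mul_right h4 hZr
        have hnj := hn1' j hjJ
        have hcond : (∀ n ∈ Ico (j * X1 + X1) (j * X1 + 2 * X1), v * Z ≤ ((B.eval (n : ℤ) : ℤ) : ℝ) ∧
            ((B.eval (n : ℤ) : ℤ) : ℝ) ≤ A' * Z) ∧ j * X1 ≤ A' * Z := by
          constructor
          · intro n hn
            rw [mem_Ico] at hn
            have h3 := (hvals j h1 h2 n (mem_Ico.2 ⟨by omega, hn.2⟩)).1
            have h4 : vf (θ / 4) * Z ≤ ((B.eval (n : ℤ) : ℤ) : ℝ) := h3.1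
            have h5 : ((B.eval (n : ℤ) : ℤ) : ℝ) ≤ A * Z := h3.2
            exact ⟨(mul_le_mul_of_nonneg_right hvv hZr.le).trans h4,
              h5.trans (mul_le_mul_of_nonneg_right hAAr hZr.le)⟩
          · have h3 : j * X1 ≤ Z := by exact_mod_cast hjZ
            exact h3.trans (Nat.le_mul_of_pos_left _ hA1)
        have hle : |wct φ (j * X1 + X1) X1 - X1 * SSf (pr Q) φ| ≤ X1 * (ε / 64 * SSf (pr Q) φ + (Q : ℝ) ^ (-c3)) := by
          by_contra h3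
          apply hnj
          rw [hEj]
          dsimp only
          rw [if_pos hcond]
          refine mem_filter.2 ⟨ht1', ht2, ht3, ?_, not_le.1 h3⟩
          intro i
          have h4 := ((hvals j h1 h2 (j * X1) (mem_Ico.2 ⟨le_rfl, by omega⟩)).2 i).1
          have h5 : φ i.succ ((j * X1 : ℕ) : ℤ) = (P i).eval ((j * X1 : ℕ) : ℤ) + (β i + lf c t i) := by
            show (P i).eval ((j * X1 : ℕ) : ℤ) + ((β i + lf c t i).toNat : ℤ) = _
            rw [Int.toNat_of_nonneg (ht2 i)]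
          rw [h5] at h4
          have h6 : v * (Z : ℝ) ^ D i ≤ vf (θ / 4) * (Z : ℝ) ^ D i := mul_le_mul_of_nonneg_right hvv (by positivity)
          push_cast at h4 ⊢
          linarith
        rw [show (j + 1) * X1 = j * X1 + X1 by ring]
        refine hle.trans (mul_le_mul_of_nonneg_left ?_ hX1r.le)
        linarith)
      (by
        intro j h1 h2
        have hZ12 : Z12 ≤ Z' := by
          have h3 : (Z12 : ℝ) / κ ≤ Z3 := by rw [hZ3]; exact Nat.le_ceil _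
          have h4 : (Z3 : ℝ) ≤ Z := by exact_mod_cast (by omega : Z3 ≤ Z)
          have h5 : (Z12 : ℝ) / κ ≤ Z := h3.trans h4
          rw [div_le_iff₀ hκp] at h5
          have h6 : (Z12 : ℝ) ≤ Z' := by linarith
          exact_mod_cast h6
        refine h12 Z' hZ12 φ ((j + 1) * X1) X1 fun n hn => ?_
        rw [mem_Ico] at hn
        have e1 : (j + 1) * X1 = j * X1 + X1 := by ring
        obtain ⟨⟨h3, h4⟩, h5⟩ := hvals j h1 h2 n (mem_Ico.2 ⟨by omega, by omega⟩)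
        have hup : ∀ m : ℕ, m ≤ A' + 1 → (A : ℝ) * (Z : ℝ) ^ m ≤ Cz * (Z' : ℝ) ^ m := by
          intro m hm
          have h6 := w15_pow hκp hκ1 hZr.le hZ'κ hm
          rw [hCz, div_mul_eq_mul_div, le_div_iff₀ hκN]
          calc (A : ℝ) * (Z : ℝ) ^ m * κ ^ (A' + 1) = A * (κ ^ (A' + 1) * (Z : ℝ) ^ m) := by ring
            _ ≤ A * (Z' : ℝ) ^ m := mul_le_mul_of_nonneg_left h6 (Nat.cast_nonneg _)
            _ ≤ A' * (Z' : ℝ) ^ m := mul_le_mul_of_nonneg_right hAAr (by positivity)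
        have hlow : ∀ m : ℕ, v * (Z' : ℝ) ^ m ≤ vf (θ / 4) * (Z : ℝ) ^ m := fun m =>
          mul_le_mul hvv (pow_le_pow_left₀ hZ'0 hZ'Z m) (by positivity) hvf0.le
        constructor
        · have h6 := hup 1 (by omega)
          have h7 := hlow 1
          rw [pow_one, pow_one] at h6 h7
          exact ⟨h7.trans h3, h4.trans h6⟩
        · intro i
          obtain ⟨h8, h9⟩ := h5 i
          exact ⟨(hlow (D i)).trans h8, h9.trans (hup (D i) (by have := (hDA i).1; omega))⟩)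
      (by
        intro n1 L hn1L hL1 hL2
        have hLr : ρ * Z ≤ L := by
          have h1 : θ / 16 * Z' ≤ θ / 8 * Z' := mul_le_mul_of_nonneg_right (by linarith) hZ'0
          linarith
        have h2 : Ks * Real.log Q ≤ Real.log L :=
          v16_siv (r := ρ) hρ (by linarith) (by linarith) hZp hLr
        have h5 := h13 Q (by omega) B hLin P hPol (hh c β t) ht3 n1 L hn1L h2
        have h6 : (Real.log Z') ^ (k + 1) ≤ C ^ (k + 1) * (Real.log Q) ^ (k + 1) := by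
          rw [← mul_pow]
          exact pow_le_pow_left₀ (by linarith) (hlZZ'.trans hRg2) _
        have hL0 : (0 : ℝ) ≤ L := Nat.cast_nonneg _
        calc (cnt φ n1 L : ℝ) * ((∏ i, (D i : ℝ)) * (Real.log Z') ^ (k + 1)) ≤
              (Cs * L * SSf (pr Q) φ / (Real.log Q) ^ (k + 1)) * ((∏ i, (D i : ℝ)) *
              (C ^ (k + 1) * (Real.log Q) ^ (k + 1))) := by
              refine mul_le_mul h5 (mul_le_mul_of_nonneg_left h6 hP0.le) (by positivity) ?_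
              positivity
          _ = Cb * L * SSf (pr Q) φ := by
              rw [hCb]
              field_simp)
      hz'
    have hd0 : 0 ≤ (Z' : ℝ) * dens D z Z' φ := by
      unfold H9P.dens
      have h1 := (abs_le.1 hz').1
      have h3 : ε / 64 * SSf (pr Q) φ ≤ SSf (pr Q) φ := mul_le_of_le_one_left hSS.le (by linarith)
      have h2 : 0 ≤ SSf (pr z) φ := by linarith
      have h4 : 0 < Real.log Z' := by linarith
      positivity
    exact absurd (hone.trans (mul_le_mul_of_nonneg_right hεε hd0)) (not_le.2 ht4)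
  have hcard : (F.card : ℝ) ≤ ∑ j ∈ range (⌊2 / ρ⌋₊ + 1), ((Ej j).card : ℝ) + (G.card : ℝ) := by
    have h1 : F.card ≤ ∑ j ∈ range (⌊2 / ρ⌋₊ + 1), (Ej j).card + G.card :=
      (card_le_card hsub).trans ((card_union_le _ _).trans (Nat.add_le_add_right card_biUnion_le _))
    exact_mod_cast h1
  have hfin := hc1' Q Z (by omega) (by linarith) hRg2
  have hjd : (((range (⌊2 / ρ⌋₊ + 1)).card : ℕ) : ℝ) ≤ 2 / ρ + 1 := by
    rw [card_range]
    push_cast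
    have h1 : ((⌊2 / ρ⌋₊ : ℕ) : ℝ) ≤ 2 / ρ := Nat.floor_le (by positivity)
    linarith
  have hG2 : (G.card : ℝ) ≤ (Z : ℝ) ^ (∑ j, e j) * (C1w * (2 : ℝ) ^ c0 * ((z : ℝ) + 1) ^ (-c0) + C1w * (Q : ℝ) ^ (-c0)) := by
    refine hGc.trans ?_
    calc C1w * (Z : ℝ) ^ (∑ j, e j) * (zm : ℝ) ^ (-c0) = (Z : ℝ) ^ (∑ j, e j) * (C1w * (zm : ℝ) ^ (-c0)) := by ring
      _ ≤ (Z : ℝ) ^ (∑ j, e j) * (C1w * ((2 : ℝ) ^ c0 * ((z : ℝ) + 1) ^ (-c0) + (Q : ℝ) ^ (-c0))) :=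
        mul_le_mul_of_nonneg_left (mul_le_mul_of_nonneg_left hzmb (by linarith)) hZe0.le
      _ = _ := by ring
  have hC1z : C1w * (2 : ℝ) ^ c0 * ((z : ℝ) + 1) ^ (-c0) ≤ C1 * ((z : ℝ) + 1) ^ (-c0) := by
    refine mul_le_mul_of_nonneg_right ?_ hzc.le
    rw [hC1]
    linarith
  calc (F.card : ℝ) ≤ ∑ j ∈ range (⌊2 / ρ⌋₊ + 1), ((Ej j).card : ℝ) + (G.card : ℝ) := hcard
    _ ≤ ∑ _j ∈ range (⌊2 / ρ⌋₊ + 1), Cv * (Z : ℝ) ^ (∑ j, e j) * ((Real.log Q) ^ (-(2 * (A : ℝ) + 2)) + (Q : ℝ) ^ (-c3)) +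
        (Z : ℝ) ^ (∑ j, e j) * (C1w * (2 : ℝ) ^ c0 * ((z : ℝ) + 1) ^ (-c0) + C1w * (Q : ℝ) ^ (-c0)) :=
        add_le_add (sum_le_sum fun j _ => hEjc j) hG2
    _ = ((range (⌊2 / ρ⌋₊ + 1)).card : ℝ) * (Cv * (Z : ℝ) ^ (∑ j, e j) * ((Real.log Q) ^ (-(2 * (A : ℝ) + 2)) + (Q : ℝ) ^ (-c3))) +
        (Z : ℝ) ^ (∑ j, e j) * (C1w * (2 : ℝ) ^ c0 * ((z : ℝ) + 1) ^ (-c0) + C1w * (Q : ℝ) ^ (-c0)) := by
        rw [sum_const, nsmul_eq_mul]
    _ ≤ (2 / ρ + 1) * (Cv * (Z : ℝ) ^ (∑ j, e j) * ((Real.log Q) ^ (-(2 * (A : ℝ) + 2)) + (Q : ℝ) ^ (-c3))) +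
        (Z : ℝ) ^ (∑ j, e j) * (C1w * (2 : ℝ) ^ c0 * ((z : ℝ) + 1) ^ (-c0) + C1w * (Q : ℝ) ^ (-c0)) := by
        have h1 : 0 ≤ Cv * (Z : ℝ) ^ (∑ j, e j) * ((Real.log Q) ^ (-(2 * (A : ℝ) + 2)) + (Q : ℝ) ^ (-c3)) := by positivity
        have h2 := mul_le_mul_of_nonneg_right hjd h1
        linarith
    _ = (Z : ℝ) ^ (∑ j, e j) * (((2 / ρ + 1) * Cv * ((Real.log Q) ^ (-(2 * (A : ℝ) + 2)) + (Q : ℝ) ^ (-c3)) +
        C1w * (Q : ℝ) ^ (-c0)) + C1w * (2 : ℝ) ^ c0 * ((z : ℝ) + 1) ^ (-c0)) := by ring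
    _ ≤ (Z : ℝ) ^ (∑ j, e j) * ((Real.log Z) ^ (-(A : ℝ)) + C1 * ((z : ℝ) + 1) ^ (-c0)) :=
        mul_le_mul_of_nonneg_left (add_le_add hfin hC1z) hZe0.le

end Pool.Agent.HLA
end

-- from Lib.HUP.FGFin
section

/-!
# Project HUP, module FG: the large sieve from the second moment
-/

namespace Pool.Agent.HUP

theorem FGTU_of {k d : ℕ} {c : Fin k → Fin d → ℤ} {e : Fin d → ℕ} {D : Fin k → ℕ} {a : Fin k → ℤ} (h : Dat c e D a)
    (hF : FMT c e D a) : FGTU c D a :=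
  FG_red (LocB_of h) (ChB_of h hF)

end Pool.Agent.HUP
end

-- from Lib.HLA.W20
section

/-!
# LOGA, chunk W20: the core theorems for all data
-/

open Finset Polynomial

namespace Pool.Agent.HLA

open Pool.Agent.Lib.H24P Pool.Agent.HUP Pool.Agent.H9P

/-- The interfaces for all data (as in `core_all`). -/
theorem w20_int {k d : ℕ} (c : Fin k → Fin d → ℤ) (e : Fin d → ℕ) (P : Fin k → ℤ[X])
    (hD : Dat c e (fun i => (P i).natDegree) (fun i => (P i).leadingCoeff)) :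
    FGTU c (fun i => (P i).natDegree) (fun i => (P i).leadingCoeff) ∧
      S4TU c e (fun i => (P i).natDegree) (fun i => (P i).leadingCoeff) := by
  have hF : FMT c e (fun i => (P i).natDegree) (fun i => (P i).leadingCoeff) :=
    FMT_of c e _ _ hD fun D q r h1 h2 => Pool.Agent.HPP.C8_Z D q h1 r h2
  exact ⟨FGTU_of hD hF, S4TU_of c e _ _ hD hF Pool.Agent.HUK.FIN_PK⟩

theorem W20_A : ACoreAll := by
  intro k d c e P hD
  obtain ⟨h1, h2⟩ := w20_int c e P hD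
  exact W15_core c e _ _ h1 h2 hD.par hD.blk hD.deg P fun i => ⟨rfl, rfl⟩

theorem W20_N : NCoreAll := by
  intro k d c e P hD
  obtain ⟨h1, -⟩ := w20_int c e P hD
  exact Y4_core c e _ _ h1 hD.par hD.deg P (fun i => ⟨rfl, rfl⟩) (W20_A k d c e P hD)

end Pool.Agent.HLA
end

-- from Lib.HLA.W22
section

/-!
# LOGA, W22: all degrees one, the complete singular series, every large `N`
-/

open Finset Polynomial Filter

namespace Pool.Agent.HLA

open Pool.Agent.HUP Pool.Agent.H9P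
open Pool.Agent.H9U (Sys SSS T1S_low T4S_tail iv)
open Pool.Agent.H9A (NZ N6_lim n6b_pr familyA shiftA N10_trans n10a_ev AsymA)
open Pool.Agent.H96U (gsys g1_val0 g1_valS)
open Pool.Agent.Lib.H59P (pr)
open Pool.Agent.Lib.H59 (argSet argCount Admissible primeCount omegaN seriesTrunc)

/-- a linear polynomial -/
theorem w22_lin (P : ℤ[X]) (hP : P.natDegree = 1) : P = C P.leadingCoeff * X + C (P.coeff 0) := by
  have h1 := Polynomial.eq_X_add_C_of_natDegree_le_one (show P.natDegree ≤ 1 by omega)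
  have h2 : P.leadingCoeff = P.coeff 1 := by
    unfold Polynomial.leadingCoeff
    rw [hP]
  rw [h2]
  exact h1

/-- powers against logarithms -/
theorem w22_log (A : ℕ) (K r : ℝ) (hr : 0 < r) :
    ∀ᶠ X : ℕ in atTop, K * (X : ℝ) ^ (-r) ≤ 1 / 4 * (Real.log X) ^ (-(A : ℝ)) := by
  have h1 := (isLittleO_log_rpow_rpow_atTop (A : ℝ) hr).comp_tendsto tendsto_natCast_atTop_atTop
  have h2 := h1.def (show (0 : ℝ) < 1 / (4 * (|K| + 1)) by positivity)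
  have h3 : Tendsto (fun X : ℕ => Real.log (X : ℝ)) atTop atTop := Real.tendsto_log_atTop.comp tendsto_natCast_atTop_atTop
  filter_upwards [h2, h3.eventually_ge_atTop 1, eventually_ge_atTop 1] with X h4 h5 h6
  have hX : (0 : ℝ) < X := by exact_mod_cast h6
  have hl : 0 < Real.log X := by linarith
  simp only [Function.comp_apply] at h4
  rw [Real.norm_of_nonneg (Real.rpow_nonneg hl.le _), Real.norm_of_nonneg (Real.rpow_nonneg hX.le _)] at h4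
  have hK : 0 ≤ |K| := abs_nonneg K
  have h7 : (|K| + 1) * (Real.log X) ^ (A : ℝ) ≤ 1 / 4 * (X : ℝ) ^ r := by
    have h8 := mul_le_mul_of_nonneg_left h4 (show 0 ≤ |K| + 1 by linarith)
    refine h8.trans (le_of_eq ?_)
    field_simp
  have hL : 0 < (Real.log X) ^ (A : ℝ) := Real.rpow_pos_of_pos hl _
  have hR : 0 < (X : ℝ) ^ r := Real.rpow_pos_of_pos hX _
  rw [Real.rpow_neg hX.le, Real.rpow_neg hl.le, ← div_eq_mul_inv, ← div_eq_mul_inv, div_le_div_iff₀ hR hL]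
  have h9 : K * (Real.log X) ^ (A : ℝ) ≤ (|K| + 1) * (Real.log X) ^ (A : ℝ) :=
    mul_le_mul_of_nonneg_right (by linarith [le_abs_self K]) hL.le
  linarith

/-- the complete series against the series cut at a power of `X` -/
theorem w22_lim {k d : ℕ} (S : Sys k d) (ha : ∀ i, S.a i ≠ 0) (δ e : ℝ) (hδ : 0 < δ) (he : 0 < e) :
    ∃ X0 : ℕ, ∀ X z : ℕ, X0 ≤ X → (X : ℝ) ^ δ ≤ z + 2 → z ≤ X → ∀ (b : Fin k → ℤ) (t : Fin d → ℤ), S.Adm b t → NZ S b t X →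
      ∃ s : ℝ, 0 < s ∧ Tendsto (fun z : ℕ => SSS S b t (pr z)) atTop (nhds s) ∧ |SSS S b t (pr z) - s| ≤ e * s := by
  obtain ⟨e', he'⟩ : ∃ e' : ℝ, e' = min e 1 / 4 := ⟨_, rfl⟩
  have he0 : 0 < e' := by
    rw [he']
    have := lt_min he one_pos
    linarith
  have he1 : e' ≤ 1 / 4 := by
    rw [he']
    have := min_le_right e 1
    linarith
  have he2 : e' ≤ e / 4 := by
    rw [he']
    have := min_le_left e 1
    linarith
  obtain ⟨X6, h6⟩ := N6_lim S ha e' he0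
  obtain ⟨X1, h1⟩ := T4S_tail S ha (δ / 16) (by linarith)
  have hexp : 0 < e' * Real.exp (-(4 * k : ℝ)) / 8 := by positivity
  have ht0 : Tendsto (fun X : ℕ => (X : ℝ) ^ (-(3 * δ / 16))) atTop (nhds 0) :=
    (tendsto_rpow_neg_atTop (by linarith)).comp tendsto_natCast_atTop_atTop
  have ht1 : Tendsto (fun X : ℕ => (X : ℝ) ^ δ) atTop atTop := (tendsto_rpow_atTop hδ).comp tendsto_natCast_atTop_atTop
  obtain ⟨X2, h2⟩ := eventually_atTop.1 ((ht0.eventually (gt_mem_nhds hexp)).and (ht1.eventually_ge_atTop 4))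
  refine ⟨X6 + X1 + X2 + 1, fun X z hX hz hzX b t hadm hnz => ?_⟩
  obtain ⟨s, hs0, hs, hs1⟩ := h6 X (by omega) b t hadm hnz
  obtain ⟨q1, q2⟩ := h2 X (by omega)
  refine ⟨s, hs0, hs, ?_⟩
  have hX0 : (0 : ℝ) < X := by
    have : 1 ≤ X := by omega
    exact_mod_cast this
  have hzr : (X : ℝ) ^ δ / 2 ≤ z := by linarith
  have hz0 : (0 : ℝ) < z := by linarith
  have hz1 : 1 ≤ z := by
    have : (0 : ℝ) < z := hz0
    have : 0 < z := by exact_mod_cast this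
    omega
  have e1 := h1 X z (by omega) hzX b t hnz 1 z hz1 le_rfl
  have e2 := h1 X X (by omega) le_rfl b t hnz 1 z hz1 hzX
  rw [n6b_pr] at e1 e2
  have hlow : Real.exp (-(4 * k : ℝ)) ≤ SSS S b t (pr X) :=
    T1S_low (S := S) (b := b) (t := t) hadm (pr X) fun l hl => (Pool.Agent.Lib.H59P.mem_pr.1 hl).2
  have hpw : (z : ℝ) ^ (-(1 / 4) : ℝ) * (X : ℝ) ^ (δ / 16) ≤ 2 * (X : ℝ) ^ (-(3 * δ / 16)) := by
    have h3 : (z : ℝ) ^ (-(1 / 4) : ℝ) ≤ ((X : ℝ) ^ δ / 2) ^ (-(1 / 4) : ℝ) :=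
      Real.rpow_le_rpow_of_nonpos (by positivity) hzr (by norm_num)
    have h4 : ((X : ℝ) ^ δ / 2) ^ (-(1 / 4) : ℝ) = (2 : ℝ) ^ (1 / 4 : ℝ) * (X : ℝ) ^ (-(δ / 4)) := by
      rw [Real.div_rpow (by positivity) (by norm_num), ← Real.rpow_mul hX0.le, Real.rpow_neg (by norm_num : (0 : ℝ) ≤ 2),
        div_inv_eq_mul, mul_comm]
      congr 2
      ring
    have h5 : (2 : ℝ) ^ (1 / 4 : ℝ) ≤ 2 := by
      calc (2 : ℝ) ^ (1 / 4 : ℝ) ≤ (2 : ℝ) ^ (1 : ℝ) := Real.rpow_le_rpow_of_exponent_le (by norm_num) (by norm_num)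
        _ = 2 := Real.rpow_one 2
    rw [h4] at h3
    have h6 : (X : ℝ) ^ (-(δ / 4)) * (X : ℝ) ^ (δ / 16) = (X : ℝ) ^ (-(3 * δ / 16)) := by
      rw [← Real.rpow_add hX0]
      congr 1
      ring
    calc (z : ℝ) ^ (-(1 / 4) : ℝ) * (X : ℝ) ^ (δ / 16)
        ≤ ((2 : ℝ) ^ (1 / 4 : ℝ) * (X : ℝ) ^ (-(δ / 4))) * (X : ℝ) ^ (δ / 16) :=
          mul_le_mul_of_nonneg_right h3 (by positivity)
      _ = (2 : ℝ) ^ (1 / 4 : ℝ) * (X : ℝ) ^ (-(3 * δ / 16)) := by rw [mul_assoc, h6]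
      _ ≤ 2 * (X : ℝ) ^ (-(3 * δ / 16)) := mul_le_mul_of_nonneg_right h5 (by positivity)
  have e3 : |SSS S b t (pr z) - SSS S b t (pr X)| ≤ e' * Real.exp (-(4 * k : ℝ)) / 2 := by
    rw [abs_le] at e1 e2 ⊢
    constructor
    · linarith [e1.1, e1.2, e2.1, e2.2]
    · linarith [e1.1, e1.2, e2.1, e2.2]
  have e4 := abs_le.1 hs1
  have hes : e' * s ≤ 1 / 4 * s := mul_le_mul_of_nonneg_right he1 hs0.le
  have e5 : Real.exp (-(4 * k : ℝ)) ≤ 2 * s := by linarith [e4.2]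
  have e6 : e' * Real.exp (-(4 * k : ℝ)) / 2 ≤ e' * s := by
    have := mul_le_mul_of_nonneg_left e5 he0.le
    linarith
  have e7 : 2 * (e' * s) ≤ e * s := by
    have : 2 * e' ≤ e := by linarith
    have := mul_le_mul_of_nonneg_right this hs0.le
    linarith
  have e8 := abs_le.1 (e3.trans e6)
  rw [abs_le]
  constructor
  · linarith [e4.1, e8.1]
  · linarith [e4.2, e8.2]

/-- a linear equation on the symmetric box -/
theorem w22_eq {d : ℕ} (A X : ℕ) (v : Fin d → ℤ) (hv : v ≠ 0) (m : ℤ) :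
    ((BoxT A X (fun _ : Fin d => 1)).filter fun t => m + ∑ j, v j * t j = 0).card ≤ (2 * (A * X) + 1) ^ (d - 1) := by
  classical
  obtain ⟨j0, hj0⟩ : ∃ j0, v j0 ≠ 0 := by
    by_contra hcon
    push Not at hcon
    exact hv (funext hcon)
  have hinj : Set.InjOn (fun (t : Fin d → ℤ) (j : {j // j ≠ j0}) => t j)
      ((BoxT A X (fun _ : Fin d => 1)).filter fun t => m + ∑ j, v j * t j = 0 : Finset (Fin d → ℤ)) := by
    intro t ht s hs hts
    have ht2 := (mem_filter.1 (mem_coe.1 ht)).2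
    have hs2 := (mem_filter.1 (mem_coe.1 hs)).2
    have h1 : ∀ j, j ≠ j0 → t j = s j := fun j hj => congrFun hts ⟨j, hj⟩
    have h2 : ∑ j, v j * t j = v j0 * t j0 + ∑ j ∈ univ.erase j0, v j * t j := (Finset.add_sum_erase _ _ (mem_univ j0)).symm
    have h3 : ∑ j, v j * s j = v j0 * s j0 + ∑ j ∈ univ.erase j0, v j * s j := (Finset.add_sum_erase _ _ (mem_univ j0)).symm
    have h4 : ∑ j ∈ univ.erase j0, v j * t j = ∑ j ∈ univ.erase j0, v j * s j :=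
      sum_congr rfl fun j hj => by rw [h1 j (ne_of_mem_erase hj)]
    funext j
    by_cases hj : j = j0
    · rw [hj]
      refine mul_left_cancel₀ hj0 ?_
      linarith
    · exact h1 j hj
  have hmaps : ∀ t ∈ (BoxT A X (fun _ : Fin d => 1)).filter fun t => m + ∑ j, v j * t j = 0,
      (fun (j : {j // j ≠ j0}) => t j) ∈ Fintype.piFinset fun _ : {j // j ≠ j0} => Icc (-((A * X : ℕ) : ℤ)) ((A * X : ℕ) : ℤ) := by
    intro t ht
    have h1 := (mem_filter.1 ht).1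
    unfold BoxT at h1
    rw [Fintype.mem_piFinset] at h1 ⊢
    intro j
    have := h1 j
    rw [pow_one] at this
    exact this
  refine (Finset.card_le_card_of_injOn _ hmaps hinj).trans (le_of_eq ?_)
  rw [Fintype.card_piFinset, prod_const, Int.card_Icc, card_univ, Fintype.card_subtype_compl, Fintype.card_fin,
    Fintype.card_subtype_eq]
  congr 1
  omega

/-- the data in the form of `W17` -/
theorem w22_dat {g d : ℕ} (P : Fin g → ℤ[X]) (hP : ∀ i, (P i).natDegree = 1) (hP0 : ∀ i, 0 < (P i).leadingCoeff)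
    (c : Fin g → Fin d → ℤ) (h0 : ∀ i, c i ≠ 0)
    (hc : ∀ i j, i ≠ j → (P i).leadingCoeff • c j ≠ (P j).leadingCoeff • c i) :
    Dat c (fun _ => 1) (fun i => (P i).natDegree) (fun i => (P i).leadingCoeff) where
  deg := fun i => by rw [hP i]
  lc := fun i => (hP0 i).ne'
  ne := fun i => by
    by_contra hcon
    push Not at hcon
    exact h0 i (funext hcon)
  ind := fun i i' hi hD x x' h1 h2 => by
    have hx : x = 0 := by
      by_contra hx0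
      have hx' : x' ≠ 0 := fun h3 => by
        rw [h3, zero_mul] at h1
        rcases mul_eq_zero.1 h1 with h4 | h4
        · exact hx0 h4
        · exact (hP0 i).ne' h4
      apply hc i i' hi
      funext j
      have h3 := h2 j
      show (P i).leadingCoeff * c i' j = (P i').leadingCoeff * c i j
      have h4 : x' * ((P i).leadingCoeff * c i' j) = x' * ((P i').leadingCoeff * c i j) := by
        calc x' * ((P i).leadingCoeff * c i' j) = (P i).leadingCoeff * (x' * c i' j) := by ring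
          _ = (P i).leadingCoeff * (x * c i j) := by rw [h3]
          _ = (x * (P i).leadingCoeff) * c i j := by ring
          _ = (x' * (P i').leadingCoeff) * c i j := by rw [h1]
          _ = x' * ((P i').leadingCoeff * c i j) := by ring
      exact mul_left_cancel₀ hx' h4
    refine ⟨hx, ?_⟩
    rw [hx, zero_mul] at h1
    rcases mul_eq_zero.1 h1.symm with h4 | h4
    · exact h4
    · exact absurd h4 (hP0 i').ne'
  par := fun _ => le_refl 1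
  blk := fun i _ _ => (hP i).symm

/-- the last comparison -/
theorem w22_calc (Q B S' s e ε : ℝ) (hB : 0 ≤ B) (hs : 0 < s) (he0 : 0 < e) (he1 : e ≤ 1 / 4) (he2 : e ≤ ε / 4)
    (h1 : |Q - B * S'| ≤ e * (B * S')) (h2 : |S' - s| ≤ e * s) : |Q - B * s| ≤ ε * (B * s) := by
  have hBs : 0 ≤ B * s := mul_nonneg hB hs.le
  have h3 : |B * S' - B * s| ≤ e * (B * s) := by
    rw [← mul_sub, abs_mul, abs_of_nonneg hB]
    calc B * |S' - s| ≤ B * (e * s) := mul_le_mul_of_nonneg_left h2 hB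
      _ = e * (B * s) := by ring
  have h4 := abs_le.1 h3
  have h5 : e * (B * s) ≤ 1 / 4 * (B * s) := mul_le_mul_of_nonneg_right he1 hBs
  have h6 : e * (B * S') ≤ e * (2 * (B * s)) := mul_le_mul_of_nonneg_left (by linarith) he0.le
  have h7 : 4 * e * (B * s) ≤ ε * (B * s) := mul_le_mul_of_nonneg_right (by linarith) hBs
  have h8 := abs_le.1 h1
  have h9 : 0 ≤ e * (B * s) := mul_nonneg he0.le hBs
  rw [abs_le]
  constructor <;> linarith

open Classical in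
/-- **W22.** All degrees one, the complete singular series, symmetric boxes, every large `N`. -/
theorem W22_main {g d : ℕ} (hd : 1 ≤ d) (G : ℤ[X]) (hG : G.natDegree = 1) (hG0 : 0 < G.leadingCoeff) (P : Fin g → ℤ[X])
    (hP : ∀ i, (P i).natDegree = 1) (hP0 : ∀ i, 0 < (P i).leadingCoeff) (c : Fin g → Fin d → ℤ) (h0 : ∀ i, c i ≠ 0)
    (hc : ∀ i j, i ≠ j → (P i).leadingCoeff • c j ≠ (P j).leadingCoeff • c i) (A : ℕ) (ε : ℝ) (hε : 0 < ε) :
    ∃ N0 : ℕ, ∀ N : ℕ, N0 ≤ N → ∀ b : Fin g → ℤ, (∀ i, |b i| ≤ A * (argCount G N : ℤ)) →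
      (((BoxT A (argCount G N) (fun _ : Fin d => 1)).filter fun t => (∀ i, 0 ≤ b i + lf c t i) ∧
        Admissible (famP P c b t) G N ∧ ¬ AsymA (famP P c b t) G N ε).card : ℝ) ≤
          (argCount G N : ℝ) ^ (d : ℝ) * (Real.log (argCount G N)) ^ (-(A : ℝ)) := by
  obtain ⟨e, he⟩ : ∃ e : ℝ, e = min ε 1 / 4 := ⟨_, rfl⟩
  have he0 : 0 < e := by
    rw [he]
    have := lt_min hε one_pos
    linarith
  have he1 : e ≤ 1 / 4 := by
    rw [he]
    have := min_le_right ε 1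
    linarith
  have he2 : e ≤ ε / 4 := by
    rw [he]
    have := min_le_left ε 1
    linarith
  -- the coefficients of `G`
  have hlc : G.leadingCoeff = G.coeff 1 := by
    unfold Polynomial.leadingCoeff
    rw [hG]
  obtain ⟨γ, hγ⟩ : ∃ γ : ℕ, (γ : ℤ) = G.coeff 1 := by
    refine ⟨(G.coeff 1).toNat, Int.toNat_of_nonneg ?_⟩
    omega
  have hγ0 : 0 < (γ : ℤ) := by
    rw [hγ, ← hlc]
    exact hG0
  have hγ1 : 0 < γ := by exact_mod_cast hγ0
  have hGe : ∀ n : ℤ, G.eval n = γ * n + G.coeff 0 := by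
    intro n
    have h1 := Polynomial.eq_X_add_C_of_natDegree_le_one (show G.natDegree ≤ 1 by omega)
    rw [h1, hγ]
    simp
  obtain ⟨γ0, hγe⟩ : ∃ γ0 : ℤ, γ0 = G.coeff 0 := ⟨_, rfl⟩
  rw [← hγe] at hGe
  obtain ⟨g0, hg0⟩ : ∃ g0 : ℕ, g0 = γ0.natAbs := ⟨_, rfl⟩
  obtain ⟨f, hf⟩ : ∃ f : Fin g → ℤ, f = fun i => (P i).leadingCoeff := ⟨_, rfl⟩
  obtain ⟨c', hc'⟩ : ∃ c' : Fin g → Fin 0 → ℤ, c' = fun _ _ => 0 := ⟨_, rfl⟩
  obtain ⟨t0, ht0⟩ : ∃ t0 : Fin 0 → ℕ, t0 = fun _ => 0 := ⟨_, rfl⟩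
  have hfi : ∀ i, f i = (P i).leadingCoeff := fun i => by rw [hf]
  have hf1 : ∀ i, 1 ≤ f i := fun i => by
    rw [hfi]
    have := hP0 i
    omega
  have ha : ∀ i, (gsys (γ : ℤ) f c').a i ≠ 0 := by
    intro i
    refine Fin.cases ?_ (fun i => ?_) i
    · show (-(γ : ℤ)) ≠ 0
      omega
    · show f i ≠ 0
      have := hf1 i
      omega
  -- the constants
  obtain ⟨Ff, hFf⟩ : ∃ Ff : ℕ, Ff = ∑ i, (f i).natAbs := ⟨_, rfl⟩
  obtain ⟨W, hW⟩ : ∃ W : ℕ, W = ∑ i, ((P i).coeff 0).natAbs := ⟨_, rfl⟩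
  obtain ⟨Sc, hSc⟩ : ∃ Sc : ℕ, Sc = ∑ i, ∑ j, (c i j).natAbs := ⟨_, rfl⟩
  obtain ⟨Mx, hMx⟩ : ∃ Mx : ℕ, Mx = (W + A + A * Sc) + (γ + γ * (g0 + 1) + g0) := ⟨_, rfl⟩
  obtain ⟨δ1, hδ1, hW17⟩ := W17_main W20_A G hG hG0 P hP0 c (fun _ => 1) (w22_dat P hP hP0 c h0 hc)
  obtain ⟨c0, hc0, hW17⟩ := hW17 (A + 1)
  obtain ⟨K, N0, hW17⟩ := hW17 e he0
  obtain ⟨δ, hδ⟩ : ∃ δ : ℝ, δ = min δ1 1 := ⟨_, rfl⟩
  have hδ0 : 0 < δ := by
    rw [hδ]
    exact lt_min hδ1 one_pos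
  have hδa : δ ≤ δ1 := by
    rw [hδ]
    exact min_le_left _ _
  have hδb : δ ≤ 1 := by
    rw [hδ]
    exact min_le_right _ _
  obtain ⟨X0, hX0⟩ := w22_lim (gsys (γ : ℤ) f c') ha δ e hδ0 he0
  have hZt := Pool.Agent.Lib.H59.argCount_tendsto (G := G) (by rw [hG]) hG0
  have hd1 : Tendsto (fun X : ℕ => (X : ℝ) ^ δ) atTop atTop := (tendsto_rpow_atTop hδ0).comp tendsto_natCast_atTop_atTop
  have hl1 : Tendsto (fun X : ℕ => Real.log (X : ℝ)) atTop atTop := Real.tendsto_log_atTop.comp tendsto_natCast_atTop_atTop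
  obtain ⟨B1, hB1⟩ : ∃ B1 : ℕ, B1 = g * g * (2 * A + 1) ^ (d - 1) := ⟨_, rfl⟩
  have hev := (((hd1.eventually_ge_atTop 4).and (hl1.eventually_ge_atTop 4)).and
    ((w22_log A (|K| * 2 ^ c0) (δ * c0) (by positivity)).and (w22_log A B1 1 one_pos))).and
    (eventually_ge_atTop (X0 + 2 * (γ + Ff) * Mx + 1))
  obtain ⟨N1, hN1⟩ := eventually_atTop.1 (hZt.eventually hev)
  refine ⟨N0 + N1 + g0 + γ * W + 1, fun N hN b hb => ?_⟩
  obtain ⟨⟨⟨n1, n2⟩, n3, n4⟩, n5⟩ := hN1 N (by omega)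
  have htr := fun u : Fin g → ℤ => N10_trans G γ hγ1 γ0 hGe f c' u t0 N
  obtain ⟨Xn, hXn⟩ : ∃ Xn : ℕ, Xn = argCount G N := ⟨_, rfl⟩
  have hX3 := (htr (fun _ => 0)).2.2
  have hWb := hW17 N (by omega) b (fun i => by
    rw [hP i, pow_one]
    refine (hb i).trans ?_
    have : (A : ℤ) ≤ ((A + 1 : ℕ) : ℤ) := by
      push_cast
      omega
    exact mul_le_mul_of_nonneg_right this (Int.natCast_nonneg _))
  rw [← hXn] at n1 n2 n3 n4 n5 hX3 hWb hb ⊢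
  have hX1 : 1 ≤ Xn := by omega
  have hX1r : (1 : ℝ) ≤ Xn := by exact_mod_cast hX1
  have hX0r : (0 : ℝ) < Xn := by linarith
  -- `N` against `X`
  have hNX : N ≤ γ * (Xn + g0 + 1) := by
    have h1 := (abs_le.1 hX3).1
    rw [← hg0] at h1
    have hγr : (0 : ℝ) < γ := by exact_mod_cast hγ1
    have h2 : (N : ℝ) / γ ≤ Xn + g0 + 1 := by linarith
    rw [div_le_iff₀ hγr] at h2
    have h3 : (N : ℝ) ≤ ((γ * (Xn + g0 + 1) : ℕ) : ℝ) := by
      push_cast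
      linarith
    exact_mod_cast h3
  -- the level
  obtain ⟨z, hz⟩ : ∃ z : ℕ, z = ⌊(Xn : ℝ) ^ δ⌋₊ := ⟨_, rfl⟩
  have hz1 : (z : ℝ) ≤ (Xn : ℝ) ^ δ := by
    rw [hz]
    exact Nat.floor_le (by positivity)
  have hz2 : (Xn : ℝ) ^ δ < z + 1 := by
    rw [hz]
    exact Nat.lt_floor_add_one _
  have hz3 : 3 ≤ z := by
    have : (3 : ℝ) < z + 1 := by linarith
    have : 3 < z + 1 := by exact_mod_cast this
    omega
  have hzX : (Xn : ℝ) ^ δ ≤ Xn := by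
    calc (Xn : ℝ) ^ δ ≤ (Xn : ℝ) ^ (1 : ℝ) := Real.rpow_le_rpow_of_exponent_le hX1r hδb
      _ = Xn := Real.rpow_one _
  have hzX' : z ≤ Xn := by exact_mod_cast hz1.trans hzX
  have hzb := hWb z (by omega) (hz1.trans (Real.rpow_le_rpow_of_exponent_le hX1r hδa))
  -- the zero minors
  obtain ⟨Zm, hZm⟩ : ∃ Zm : Finset (Fin d → ℤ), Zm = (univ : Finset (Fin g × Fin g)).biUnion fun ij =>
      (BoxT A Xn (fun _ : Fin d => 1)).filter fun t => ij.1 ≠ ij.2 ∧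
        f ij.1 * ((P ij.2).coeff 0 + (b ij.2 + lf c t ij.2)) - f ij.2 * ((P ij.1).coeff 0 + (b ij.1 + lf c t ij.1)) = 0 := ⟨_, rfl⟩
  have hZc : Zm.card ≤ g * g * (2 * (A * Xn) + 1) ^ (d - 1) := by
    rw [hZm]
    refine card_biUnion_le.trans ?_
    have h1 : ∀ ij ∈ (univ : Finset (Fin g × Fin g)), ((BoxT A Xn (fun _ : Fin d => 1)).filter fun t => ij.1 ≠ ij.2 ∧
        f ij.1 * ((P ij.2).coeff 0 + (b ij.2 + lf c t ij.2)) - f ij.2 * ((P ij.1).coeff 0 + (b ij.1 + lf c t ij.1)) = 0).card ≤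
        (2 * (A * Xn) + 1) ^ (d - 1) := by
      rintro ⟨i, j⟩ -
      by_cases hij : i = j
      · refine le_trans (le_of_eq ?_) (Nat.zero_le _)
        rw [card_eq_zero, filter_eq_empty_iff]
        intro t _ h
        exact h.1 hij
      · refine le_trans (card_le_card ?_) (w22_eq A Xn (f i • c j - f j • c i) (fun h => ?_)
          (f i * ((P j).coeff 0 + b j) - f j * ((P i).coeff 0 + b i)))
        · intro t ht
          rw [mem_filter] at ht ⊢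
          refine ⟨ht.1, ?_⟩
          have h2 := ht.2.2
          have h3 : ∑ l, (f i • c j - f j • c i) l * t l = f i * lf c t j - f j * lf c t i := by
            unfold lf
            rw [mul_sum, mul_sum, ← sum_sub_distrib]
            refine sum_congr rfl fun l _ => ?_
            simp only [Pi.sub_apply, Pi.smul_apply, smul_eq_mul]
            ring
          rw [h3]
          simp only at h2
          linarith
        · have h2 := sub_eq_zero.1 h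
          rw [hfi, hfi] at h2
          exact hc i j hij h2
    refine (sum_le_sum h1).trans (le_of_eq ?_)
    rw [sum_const, card_univ, Fintype.card_prod, Fintype.card_fin, smul_eq_mul]
  -- the inclusion
  have hsub : ((BoxT A Xn (fun _ : Fin d => 1)).filter fun t => (∀ i, 0 ≤ b i + lf c t i) ∧
        Admissible (famP P c b t) G N ∧ ¬ AsymA (famP P c b t) G N ε) ⊆
      Zm ∪ ((BoxT (A + 1) Xn (fun _ : Fin d => 1)).filter fun t => (∀ i, 0 ≤ b i + lf c t i) ∧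
        FailsP e (famT P c b t) G N z) := by
    intro t ht
    rw [mem_filter] at ht
    obtain ⟨t1, t2, t3, t4⟩ := ht
    rw [mem_union]
    by_contra hno
    rw [not_or] at hno
    obtain ⟨hno1, hno2⟩ := hno
    have hnof : ¬ FailsP e (famP P c b t) G N z := by
      intro hF
      apply hno2
      rw [mem_filter]
      refine ⟨?_, t2, hF⟩
      unfold BoxT at t1 ⊢
      rw [Fintype.mem_piFinset] at t1 ⊢
      intro j
      have h1 := mem_Icc.1 (t1 j)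
      have h2 : A * Xn ^ 1 ≤ (A + 1) * Xn ^ 1 := Nat.mul_le_mul_right _ (by omega)
      rw [mem_Icc]
      constructor
      · have : ((A * Xn ^ 1 : ℕ) : ℤ) ≤ (((A + 1) * Xn ^ 1 : ℕ) : ℤ) := by exact_mod_cast h2
        linarith [h1.1]
      · have : ((A * Xn ^ 1 : ℕ) : ℤ) ≤ (((A + 1) * Xn ^ 1 : ℕ) : ℤ) := by exact_mod_cast h2
        linarith [h1.2]
    -- the constant terms
    obtain ⟨u, hu⟩ : ∃ u : Fin g → ℤ, u = fun i => (P i).coeff 0 + (b i + lf c t i) := ⟨_, rfl⟩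
    have hui : ∀ i, u i = (P i).coeff 0 + (b i + lf c t i) := fun i => by rw [hu]
    have hfe : famP P c b t = familyA f c' u t0 := by
      funext i
      unfold familyA famP shiftA
      rw [Fintype.sum_empty, add_zero, hui, hfi]
      conv_lhs => rw [w22_lin (P i) (hP i)]
      simp only [C_add]
      ring
    obtain ⟨k1, k2, -⟩ := htr u
    rw [← hfe] at k1 k2
    have hWi : ∀ i, |(P i).coeff 0| ≤ W := by
      intro i
      have h1 : ((P i).coeff 0).natAbs ≤ W := by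
        rw [hW]
        exact Finset.single_le_sum (f := fun i => ((P i).coeff 0).natAbs) (fun _ _ => Nat.zero_le _) (Finset.mem_univ i)
      rw [Int.abs_eq_natAbs]
      exact_mod_cast h1
    have hup : ∀ i, b i + lf c t i ≤ ((A + A * Sc : ℕ) : ℤ) * Xn := by
      intro i
      have h1 := w17_lf c (fun _ => 1) (fun _ => 1) (fun _ _ _ => rfl) A Xn t t1 i
      rw [← hSc, pow_one] at h1
      have h2 := (abs_le.1 (hb i)).2
      push_cast
      linarith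
    have hulow : ∀ i, -(W : ℤ) ≤ u i := by
      intro i
      have h1 := (abs_le.1 (hWi i)).1
      have h2 := t2 i
      rw [hui]
      linarith
    have huabs : ∀ i, |u i| ≤ ((W + A + A * Sc : ℕ) : ℤ) * Xn := by
      intro i
      have h1 := abs_le.1 (hWi i)
      have h2 := t2 i
      have h3 := hup i
      have hXz : (1 : ℤ) ≤ Xn := by exact_mod_cast hX1
      have hWX : (W : ℤ) ≤ W * Xn := le_mul_of_one_le_right (Int.natCast_nonneg _) hXz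
      have h4 : (0 : ℤ) ≤ ((A + A * Sc : ℕ) : ℤ) * Xn := by positivity
      have h5 : ((W + A + A * Sc : ℕ) : ℤ) * Xn = W * Xn + ((A + A * Sc : ℕ) : ℤ) * Xn := by
        push_cast
        ring
      rw [h5, hui, abs_le]
      constructor <;> linarith
    have hN0 : |(N : ℤ) - γ0| ≤ ((γ + γ * (g0 + 1) + g0 : ℕ) : ℤ) * Xn := by
      have hXz : (1 : ℤ) ≤ Xn := by exact_mod_cast hX1
      have h1 : |γ0| = g0 := by
        rw [hg0, Int.abs_eq_natAbs]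
      have h2 : (N : ℤ) ≤ γ * (Xn + g0 + 1) := by exact_mod_cast hNX
      have h3 : |(N : ℤ) - γ0| ≤ N + g0 := by
        refine (abs_sub _ _).trans ?_
        rw [h1, abs_of_nonneg (Int.natCast_nonneg _)]
      have h4 : (g0 : ℤ) ≤ g0 * Xn := le_mul_of_one_le_right (Int.natCast_nonneg _) hXz
      have h5 : (γ : ℤ) * (g0 + 1) ≤ γ * (g0 + 1) * Xn := le_mul_of_one_le_right (by positivity) hXz
      push_cast
      linarith
    have hNb : (γ : ℤ) * W < (N : ℤ) - γ0 := by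
      have h1 : γ0 ≤ g0 := by
        rw [hg0]
        exact Int.le_natAbs
      have h2 : ((N0 + N1 + g0 + γ * W + 1 : ℕ) : ℤ) ≤ N := by exact_mod_cast hN
      push_cast at h2
      have h3 : (0 : ℤ) ≤ N0 := Int.natCast_nonneg _
      have h4 : (0 : ℤ) ≤ N1 := Int.natCast_nonneg _
      linarith
    have hkey : ∀ i, 0 < (γ : ℤ) * u i + f i * ((N : ℤ) - γ0) := by
      intro i
      have h1 : (γ : ℤ) * (-(W : ℤ)) ≤ γ * u i := mul_le_mul_of_nonneg_left (hulow i) hγ0.le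
      have h2 : 1 * ((N : ℤ) - γ0) ≤ f i * ((N : ℤ) - γ0) := by
        refine mul_le_mul_of_nonneg_right (hf1 i) ?_
        have : (0 : ℤ) ≤ (γ : ℤ) * W := by positivity
        linarith
      linarith
    obtain ⟨bb, hbb⟩ : ∃ bb : Fin (g + 1) → ℤ, bb = Fin.cons ((N : ℤ) - γ0) u := ⟨_, rfl⟩
    have hv0 : (gsys (γ : ℤ) f c').val bb 0 (iv t0) 0 = (N : ℤ) - γ0 := by
      rw [hbb, g1_val0]
      ring
    have hvS : ∀ i : Fin g, (gsys (γ : ℤ) f c').val bb 0 (iv t0) i.succ = u i := by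
      intro i
      rw [hbb, g1_valS, Fintype.sum_empty]
      ring
    have ha0 : (gsys (γ : ℤ) f c').a 0 = -γ := rfl
    have haS : ∀ i : Fin g, (gsys (γ : ℤ) f c').a i.succ = f i := fun i => rfl
    have hval : ∀ i, |(gsys (γ : ℤ) f c').val bb 0 (iv t0) i| ≤ (Mx : ℤ) * Xn := by
      intro i
      have e1 : (Mx : ℤ) * Xn = ((W + A + A * Sc : ℕ) : ℤ) * Xn + ((γ + γ * (g0 + 1) + g0 : ℕ) : ℤ) * Xn := by
        rw [hMx]
        push_cast
        ring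
      have e2 : (0 : ℤ) ≤ ((W + A + A * Sc : ℕ) : ℤ) * Xn := by positivity
      have e3 : (0 : ℤ) ≤ ((γ + γ * (g0 + 1) + g0 : ℕ) : ℤ) * Xn := by positivity
      rw [e1]
      refine Fin.cases ?_ (fun i => ?_) i
      · rw [hv0]
        linarith
      · rw [hvS]
        have := huabs i
        linarith
    have haB : ∀ i, |(gsys (γ : ℤ) f c').a i| ≤ ((γ + Ff : ℕ) : ℤ) := by
      intro i
      refine Fin.cases ?_ (fun i => ?_) i
      · rw [ha0, abs_neg, abs_of_nonneg hγ0.le]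
        push_cast
        have : (0 : ℤ) ≤ Ff := Int.natCast_nonneg _
        linarith
      · rw [haS, Int.abs_eq_natAbs]
        have h1 : (f i).natAbs ≤ Ff := by
          rw [hFf]
          exact Finset.single_le_sum (f := fun i => (f i).natAbs) (fun _ _ => Nat.zero_le _) (Finset.mem_univ i)
        have h2 : (f i).natAbs ≤ γ + Ff := by omega
        exact_mod_cast h2
    have hNZ : NZ (gsys (γ : ℤ) f c') bb (iv t0) Xn := by
      intro i j hij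
      constructor
      · unfold Pool.Agent.H9U.Sys.minr
        revert hij
        refine Fin.cases ?_ (fun i => ?_) i
        · refine Fin.cases ?_ (fun j => ?_) j
          · intro h
            exact absurd rfl h
          · intro _
            rw [ha0, haS, hv0, hvS]
            have := hkey j
            intro h
            linarith
        · refine Fin.cases ?_ (fun j => ?_) j
          · intro _
            rw [ha0, haS, hv0, hvS]
            have := hkey i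
            intro h
            linarith
          · intro hij
            rw [haS, haS, hvS, hvS]
            intro h
            apply hno1
            rw [hZm, mem_biUnion]
            refine ⟨(i, j), mem_univ _, mem_filter.2 ⟨t1, fun h' => hij (congrArg Fin.succ h'), ?_⟩⟩
            show f i * ((P j).coeff 0 + (b j + lf c t j)) - f j * ((P i).coeff 0 + (b i + lf c t i)) = 0
            rw [← hui, ← hui]
            exact h
      · have h1 : ∀ i j, |(gsys (γ : ℤ) f c').a i * (gsys (γ : ℤ) f c').val bb 0 (iv t0) j| ≤ ((γ + Ff : ℕ) : ℤ) * (Mx * Xn) := by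
          intro i j
          rw [abs_mul]
          exact mul_le_mul (haB i) (hval j) (abs_nonneg _) (Int.natCast_nonneg _)
        have h2 : |(gsys (γ : ℤ) f c').minr bb (iv t0) i j| ≤ ((γ + Ff : ℕ) : ℤ) * (Mx * Xn) + ((γ + Ff : ℕ) : ℤ) * (Mx * Xn) := by
          unfold Pool.Agent.H9U.Sys.minr
          exact (abs_sub _ _).trans (add_le_add (h1 i j) (h1 j i))
        refine h2.trans ?_
        have h3 : (γ + Ff) * (Mx * Xn) + (γ + Ff) * (Mx * Xn) ≤ Xn ^ 3 := by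
          calc (γ + Ff) * (Mx * Xn) + (γ + Ff) * (Mx * Xn) = (2 * (γ + Ff) * Mx) * Xn := by ring
            _ ≤ Xn * Xn := Nat.mul_le_mul_right _ (by omega)
            _ ≤ Xn * Xn * Xn := Nat.le_mul_of_pos_right _ hX1
            _ = Xn ^ 3 := by ring
        exact_mod_cast h3
    have hAdm : (gsys (γ : ℤ) f c').Adm bb (iv t0) := by
      intro l hl
      have h5 := t3.2 l hl
      push Not at h5
      obtain ⟨n, hn⟩ := h5
      refine ⟨n, fun i hi => hn ?_⟩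
      rw [hfe, eval_mul, eval_prod]
      revert hi
      refine Fin.cases ?_ (fun i => ?_) i
      · intro hi
        rw [hbb, g1_val0] at hi
        refine Dvd.dvd.mul_left ?_ _
        rw [eval_sub, eval_C, hGe]
        have e1 : (N : ℤ) - (γ * n + γ0) = N - γ0 - γ * n := by ring
        rw [e1]
        exact hi
      · intro hi
        rw [hbb, g1_valS] at hi
        refine Dvd.dvd.mul_right ?_ _
        refine Dvd.dvd.trans ?_ (Finset.dvd_prod_of_mem _ (mem_univ i))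
        rw [n10a_ev]
        exact hi
    obtain ⟨z', hz'⟩ : ∃ z' : ℕ, z = z' + 1 := ⟨z - 1, by omega⟩
    obtain ⟨s, hs0, hs1, hs2⟩ := hX0 Xn z' (by omega) (by
      rw [hz'] at hz2
      push_cast at hz2
      linarith) (by omega) bb (iv t0) hAdm hNZ
    apply t4
    refine ⟨s, ?_, ?_⟩
    · refine (tendsto_add_atTop_iff_nat 1).1 ?_
      refine hs1.congr fun w => ?_
      rw [k2 w, hbb]
    · have hdeg : ∀ i, (famP P c b t i).natDegree = 1 := by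
        intro i
        unfold famP
        rw [natDegree_add_C]
        exact hP i
      have hmt : mainTermP (famP P c b t) G N z = (Xn : ℝ) / Real.log Xn ^ (g + 1) * SSS (gsys (γ : ℤ) f c') bb (iv t0) (pr z') := by
        unfold mainTermP
        rw [hz', k2 z', hG, Finset.prod_congr rfl fun i _ => by rw [hdeg i], ← hXn, hbb]
        simp
      have hno3 : |(primeCount (famP P c b t) G N : ℝ) - mainTermP (famP P c b t) G N z| ≤
          e * mainTermP (famP P c b t) G N z := by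
        by_contra hcon
        rw [not_le] at hcon
        exact hnof ⟨t3, hcon⟩
      rw [hmt] at hno3
      rw [← hXn]
      exact w22_calc _ _ _ s e ε (by
        have : 0 ≤ Real.log (Xn : ℝ) := by linarith
        positivity) hs0 he0 he1 he2 hno3 hs2
  -- the count
  have hcard : (((Zm ∪ ((BoxT (A + 1) Xn (fun _ : Fin d => 1)).filter fun t => (∀ i, 0 ≤ b i + lf c t i) ∧
        FailsP e (famT P c b t) G N z)).card : ℕ) : ℝ) ≤ (Xn : ℝ) ^ (d : ℝ) * (Real.log Xn) ^ (-(A : ℝ)) := by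
    have hL0 : 0 < Real.log (Xn : ℝ) := by linarith
    have hLA : 0 < (Real.log (Xn : ℝ)) ^ (-(A : ℝ)) := Real.rpow_pos_of_pos hL0 _
    have hXd : 0 < (Xn : ℝ) ^ (d : ℝ) := Real.rpow_pos_of_pos hX0r _
    have h1 : (Zm.card : ℝ) ≤ (Xn : ℝ) ^ (d : ℝ) * (1 / 4 * (Real.log Xn) ^ (-(A : ℝ))) := by
      have h2 : (Zm.card : ℝ) ≤ ((g * g * (2 * (A * Xn) + 1) ^ (d - 1) : ℕ) : ℝ) := by exact_mod_cast hZc
      have h3 : ((g * g * (2 * (A * Xn) + 1) ^ (d - 1) : ℕ) : ℝ) ≤ (B1 : ℝ) * (Xn : ℝ) ^ (d - 1) := by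
        have h4 : 2 * (A * Xn) + 1 ≤ (2 * A + 1) * Xn := by
          have : (2 * A + 1) * Xn = 2 * (A * Xn) + Xn := by ring
          omega
        have h5 : g * g * (2 * (A * Xn) + 1) ^ (d - 1) ≤ B1 * Xn ^ (d - 1) := by
          calc g * g * (2 * (A * Xn) + 1) ^ (d - 1) ≤ g * g * ((2 * A + 1) * Xn) ^ (d - 1) :=
                Nat.mul_le_mul_left _ (Nat.pow_le_pow_left h4 _)
            _ = B1 * Xn ^ (d - 1) := by
                rw [hB1, mul_pow]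
                ring
        exact_mod_cast h5
      have h6 : (Xn : ℝ) ^ (d - 1) = (Xn : ℝ) ^ (d : ℝ) * (Xn : ℝ) ^ (-(1 : ℝ)) := by
        rw [← Real.rpow_add hX0r, ← Real.rpow_natCast]
        congr 1
        push_cast [Nat.cast_sub hd]
        ring
      calc (Zm.card : ℝ) ≤ (B1 : ℝ) * (Xn : ℝ) ^ (d - 1) := h2.trans h3
        _ = (Xn : ℝ) ^ (d : ℝ) * ((B1 : ℝ) * (Xn : ℝ) ^ (-(1 : ℝ))) := by
            rw [h6]
            ring
        _ ≤ _ := mul_le_mul_of_nonneg_left n4 hXd.le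
    have hsum : (∑ j : Fin d, (((fun _ : Fin d => 1) j : ℕ) : ℝ)) = d := by
      simp
    have h2 : (((BoxT (A + 1) Xn (fun _ : Fin d => 1)).filter fun t => (∀ i, 0 ≤ b i + lf c t i) ∧
        FailsP e (famT P c b t) G N z).card : ℝ) ≤ (Xn : ℝ) ^ (d : ℝ) * (1 / 2 * (Real.log Xn) ^ (-(A : ℝ))) := by
      refine hzb.trans ?_
      rw [hsum]
      refine mul_le_mul_of_nonneg_left ?_ hXd.le
      have h3 : (Real.log (Xn : ℝ)) ^ (-((A + 1 : ℕ) : ℝ)) ≤ 1 / 4 * (Real.log Xn) ^ (-(A : ℝ)) := by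
        have h4 : (-((A + 1 : ℕ) : ℝ)) = -(A : ℝ) + (-1) := by
          push_cast
          ring
        rw [h4, Real.rpow_add hL0, Real.rpow_neg_one, mul_comm]
        refine mul_le_mul_of_nonneg_right ?_ hLA.le
        rw [inv_le_comm₀ hL0 (by norm_num)]
        linarith
      have h5 : K * (z : ℝ) ^ (-c0) ≤ 1 / 4 * (Real.log Xn) ^ (-(A : ℝ)) := by
        refine le_trans ?_ n3
        have hzr : (Xn : ℝ) ^ δ / 2 ≤ z := by linarith
        have hz0 : (0 : ℝ) < z := by linarith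
        have h6 : (z : ℝ) ^ (-c0) ≤ ((Xn : ℝ) ^ δ / 2) ^ (-c0) := Real.rpow_le_rpow_of_nonpos (by positivity) hzr (by linarith)
        have h7 : ((Xn : ℝ) ^ δ / 2) ^ (-c0) = 2 ^ c0 * (Xn : ℝ) ^ (-(δ * c0)) := by
          rw [Real.div_rpow (by positivity) (by norm_num), ← Real.rpow_mul hX0r.le, Real.rpow_neg (by norm_num : (0 : ℝ) ≤ 2),
            div_inv_eq_mul, mul_comm]
          congr 2
          ring
        rw [h7] at h6
        calc K * (z : ℝ) ^ (-c0) ≤ |K| * (z : ℝ) ^ (-c0) :=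
              mul_le_mul_of_nonneg_right (le_abs_self K) (Real.rpow_nonneg hz0.le _)
          _ ≤ |K| * (2 ^ c0 * (Xn : ℝ) ^ (-(δ * c0))) := mul_le_mul_of_nonneg_left h6 (abs_nonneg K)
          _ = |K| * 2 ^ c0 * (Xn : ℝ) ^ (-(δ * c0)) := by ring
      linarith
    have h3 := Finset.card_union_le Zm ((BoxT (A + 1) Xn (fun _ : Fin d => 1)).filter fun t => (∀ i, 0 ≤ b i + lf c t i) ∧
        FailsP e (famT P c b t) G N z)
    have h4 : (((Zm ∪ ((BoxT (A + 1) Xn (fun _ : Fin d => 1)).filter fun t => (∀ i, 0 ≤ b i + lf c t i) ∧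
        FailsP e (famT P c b t) G N z)).card : ℕ) : ℝ) ≤ (Zm.card : ℝ) +
        (((BoxT (A + 1) Xn (fun _ : Fin d => 1)).filter fun t => (∀ i, 0 ≤ b i + lf c t i) ∧
        FailsP e (famT P c b t) G N z).card : ℝ) := by exact_mod_cast h3
    have h5 : 0 < (Xn : ℝ) ^ (d : ℝ) * (Real.log Xn) ^ (-(A : ℝ)) := mul_pos hXd hLA
    have h6 : (Xn : ℝ) ^ (d : ℝ) * (1 / 4 * (Real.log Xn) ^ (-(A : ℝ))) = 1 / 4 * ((Xn : ℝ) ^ (d : ℝ) * (Real.log Xn) ^ (-(A : ℝ))) := by ring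
    have h7 : (Xn : ℝ) ^ (d : ℝ) * (1 / 2 * (Real.log Xn) ^ (-(A : ℝ))) = 1 / 2 * ((Xn : ℝ) ^ (d : ℝ) * (Real.log Xn) ^ (-(A : ℝ))) := by ring
    rw [h6] at h1
    rw [h7] at h2
    linarith
  exact le_trans (by exact_mod_cast card_le_card hsub) hcard

end Pool.Agent.HLA
end

-- from Lib.HLA.W18
section

/-!
# LOGA, chunk W18 (M): pairs `(N, t)`, any `G`, one fixed linear polynomial, in terms of the problem
-/

open Finset Polynomial

namespace Pool.Agent.HLA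

open Pool.Agent.Lib.H68T Pool.Agent.Lib.H18Q Pool.Agent.Lib.H59P Pool.Agent.Lib.H24P
open Pool.Agent.HUP Pool.Agent.H9P
open Pool.Agent.Lib.H59 (argSet argCount Admissible primeCount omegaN seriesTrunc)

/-- The product of all coordinates. -/
theorem w18_prod {g : ℕ} (G F₀ : ℤ[X]) (P : Fin g → ℤ[X]) (h : Fin g → ℕ) (N : ℕ) :
    (∏ i, (Fin.cons F₀ (fun i => P i + C ((h i : ℕ) : ℤ)) : Fin (g + 1) → ℤ[X]) i) * (C (N : ℤ) - G) =
      F₀ * ∏ i, ((Fin.cons (-G) P : Fin (g + 1) → ℤ[X]) i + C (((Fin.cons N h : Fin (g + 1) → ℕ) i : ℕ) : ℤ)) := by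
  rw [Fin.prod_univ_succ, Fin.prod_univ_succ]
  simp only [Fin.cons_zero, Fin.cons_succ]
  ring

/-- The system of the problem with `F_0` and the system of the core theorem have the same series. Proof. `U13_tpf`-type formula: both local factors are `(1 - ω/l)(1 - 1/l)^(-(g+2))`, `ω` the number of roots of the product of all coordinates (the product does not depend on the order);
`omegaN` is the `rootCount` of the product (compare `U17_series`, `U13_tpf`, `u13_pr`). -/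
theorem w18_series {g : ℕ} (G F₀ : ℤ[X]) (P : Fin g → ℤ[X]) (h : Fin g → ℕ) (N z : ℕ) :
    seriesTrunc (Fin.cons F₀ (fun i => P i + C ((h i : ℕ) : ℤ)) : Fin (g + 1) → ℤ[X]) G N z =
      SSf (pr (z - 1)) (sys F₀ (Fin.cons (-G) P : Fin (g + 1) → ℤ[X]) (Fin.cons N h : Fin (g + 1) → ℕ)) := by
  unfold seriesTrunc SSf
  have e1 : Nat.primesBelow z = pr (z - 1) := by
    ext p
    unfold Nat.primesBelow pr
    rw [mem_filter, mem_filter, mem_range, mem_Icc]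
    constructor
    · rintro ⟨h1, h2⟩
      exact ⟨⟨h2.one_lt.le, by omega⟩, h2⟩
    · rintro ⟨h1, h2⟩
      exact ⟨by omega, h2⟩
  rw [e1]
  refine prod_congr rfl fun p hp => ?_
  have hp' : p.Prime := (mem_filter.1 hp).2
  rw [U13_tpf _ _ _ p hp', inv_pow]
  have e2 : omegaN (Fin.cons F₀ (fun i => P i + C ((h i : ℕ) : ℤ)) : Fin (g + 1) → ℤ[X]) G N p =
      Pool.Agent.Lib.H59.rootCount (F₀ * ∏ i, ((Fin.cons (-G) P : Fin (g + 1) → ℤ[X]) i +
        C (((Fin.cons N h : Fin (g + 1) → ℕ) i : ℕ) : ℤ))) p := by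
    unfold omegaN Pool.Agent.Lib.H59.rootCount
    rw [w18_prod]
  rw [e2]

/-- The values of the system. -/
theorem w18_val0 {g : ℕ} (G F₀ : ℤ[X]) (P : Fin g → ℤ[X]) (h : Fin g → ℕ) (N : ℕ) (n : ℤ) :
    sys F₀ (Fin.cons (-G) P : Fin (g + 1) → ℤ[X]) (Fin.cons N h : Fin (g + 1) → ℕ) 0 n = F₀.eval n := by
  unfold sys
  rw [Fin.cons_zero]

theorem w18_val1 {g : ℕ} (G F₀ : ℤ[X]) (P : Fin g → ℤ[X]) (h : Fin g → ℕ) (N : ℕ) (n : ℤ) :
    sys F₀ (Fin.cons (-G) P : Fin (g + 1) → ℤ[X]) (Fin.cons N h : Fin (g + 1) → ℕ) (0 : Fin (g + 1)).succ n =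
      (N : ℤ) - G.eval n := by
  unfold sys ran
  rw [Fin.cons_succ, Fin.cons_zero, Fin.cons_zero, eval_neg]
  ring

theorem w18_val2 {g : ℕ} (G F₀ : ℤ[X]) (P : Fin g → ℤ[X]) (h : Fin g → ℕ) (N : ℕ) (n : ℤ) (i : Fin g) :
    sys F₀ (Fin.cons (-G) P : Fin (g + 1) → ℤ[X]) (Fin.cons N h : Fin (g + 1) → ℕ) i.succ.succ n =
      (P i).eval n + (h i : ℤ) := by
  unfold sys ran
  rw [Fin.cons_succ, Fin.cons_succ, Fin.cons_succ]

/-- The count. -/
theorem w18_cnt {g : ℕ} (G F₀ : ℤ[X]) (P : Fin g → ℤ[X]) (h : Fin g → ℕ) (N : ℕ)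
    (hs : argSet G N = ((Icc 1 (argCount G N) : Finset ℕ) : Set ℕ)) :
    primeCount (Fin.cons F₀ (fun i => P i + C ((h i : ℕ) : ℤ)) : Fin (g + 1) → ℤ[X]) G N =
      cnt (sys F₀ (Fin.cons (-G) P : Fin (g + 1) → ℤ[X]) (Fin.cons N h : Fin (g + 1) → ℕ)) 1 (argCount G N) := by
  classical
  unfold primeCount cnt
  have e1 : {n : ℕ | n ∈ argSet G N ∧
        (∀ i, ∃ q : ℕ, q.Prime ∧ ((Fin.cons F₀ (fun i => P i + C ((h i : ℕ) : ℤ)) : Fin (g + 1) → ℤ[X]) i).eval (n : ℤ) = q) ∧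
        ∃ q : ℕ, q.Prime ∧ (N : ℤ) - G.eval (n : ℤ) = q} =
      (((Ico 1 (1 + argCount G N)).filter (fun n : ℕ => ∀ i, (sys F₀ (Fin.cons (-G) P : Fin (g + 1) → ℤ[X])
        (Fin.cons N h : Fin (g + 1) → ℕ) i (n : ℤ)).toNat.Prime) : Finset ℕ) : Set ℕ) := by
    ext n
    rw [Set.mem_ofPred_eq, hs, mem_coe, mem_coe, mem_filter, mem_Icc, mem_Ico, Fin.forall_fin_succ, Fin.forall_fin_succ,
      Fin.forall_fin_succ, w18_val0, w18_val1, u17_prime, u17_prime, Fin.cons_zero]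
    constructor
    · rintro ⟨h1, ⟨h2, h3⟩, h4⟩
      refine ⟨by omega, h2, h4, fun i => ?_⟩
      rw [w18_val2, u17_prime]
      have h5 := h3 i
      rw [Fin.cons_succ, eval_add, eval_C] at h5
      exact h5
    · rintro ⟨h1, h2, h4, h3⟩
      refine ⟨by omega, ⟨h2, fun i => ?_⟩, h4⟩
      have h5 := h3 i
      rw [w18_val2, u17_prime] at h5
      rw [Fin.cons_succ, eval_add, eval_C]
      exact h5
  rw [e1, Set.ncard_coe_finset]

/-- The main term. -/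
theorem w18_main_term {g : ℕ} (G F₀ : ℤ[X]) (hF : F₀.natDegree = 1) (P : Fin g → ℤ[X]) (h : Fin g → ℕ) (N z : ℕ) :
    mainTermP (Fin.cons F₀ (fun i => P i + C ((h i : ℕ) : ℤ)) : Fin (g + 1) → ℤ[X]) G N z =
      (argCount G N : ℝ) * H9P.dens (fun i => ((Fin.cons (-G) P : Fin (g + 1) → ℤ[X]) i).natDegree) (z - 1) (argCount G N)
        (sys F₀ (Fin.cons (-G) P : Fin (g + 1) → ℤ[X]) (Fin.cons N h : Fin (g + 1) → ℕ)) := by
  unfold mainTermP H9P.dens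
  rw [w18_series, Fin.prod_univ_succ, Fin.prod_univ_succ]
  simp only [Fin.cons_zero, Fin.cons_succ, natDegree_neg, natDegree_add_C]
  rw [hF]
  push_cast
  rw [one_mul]
  ring

/-- The size of the forms on the box. -/
theorem w18_abs {k d : ℕ} (c : Fin k → Fin d → ℤ) (e : Fin d → ℕ) (D : Fin k → ℕ) (hB : ∀ i j, c i j ≠ 0 → e j = D i)
    (A Z : ℕ) (t : Fin d → ℤ) (ht : t ∈ BoxT A Z e) (i : Fin k) :
    |lf c t i| ≤ ((A * ∑ i, ∑ j, (c i j).natAbs : ℕ) : ℤ) * (Z : ℤ) ^ D i := by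
  unfold lf
  refine (Finset.abs_sum_le_sum_abs _ _).trans ?_
  have h1 : ∀ j ∈ univ, |c i j * t j| ≤ ((A * (c i j).natAbs : ℕ) : ℤ) * (Z : ℤ) ^ D i := by
    intro j _
    rw [abs_mul]
    by_cases hj : c i j = 0
    · rw [hj]
      simp
    · have h2 : |t j| ≤ (A : ℤ) * (Z : ℤ) ^ D i := by
        unfold BoxT at ht
        rw [Fintype.mem_piFinset] at ht
        have h3 := mem_Icc.1 (ht j)
        rw [hB i j hj] at h3
        push_cast at h3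
        exact abs_le.2 h3
      calc |c i j| * |t j| ≤ |c i j| * ((A : ℤ) * (Z : ℤ) ^ D i) := mul_le_mul_of_nonneg_left h2 (abs_nonneg _)
        _ = ((A * (c i j).natAbs : ℕ) : ℤ) * (Z : ℤ) ^ D i := by
            push_cast
            ring
  refine (sum_le_sum h1).trans ?_
  rw [← sum_mul]
  refine mul_le_mul_of_nonneg_right ?_ (by positivity)
  rw [← Nat.cast_sum, ← mul_sum]
  refine Int.ofNat_le.2 (Nat.mul_le_mul_left _ ?_)
  exact single_le_sum (f := fun i => ∑ j, (c i j).natAbs) (fun _ _ => Nat.zero_le _) (mem_univ i)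

/-- The size of the values of a linear polynomial. -/
theorem w18_lin (F : ℤ[X]) (hF : F.natDegree = 1) (hF0 : 0 < F.leadingCoeff) (ρ : ℝ) (hρ : 0 < ρ) :
    ∃ Z0 : ℕ, ∀ Z : ℕ, Z0 ≤ Z → ∀ n : ℕ, ρ * Z ≤ n → n ≤ Z → ρ / 2 * Z ≤ ((F.eval (n : ℤ) : ℤ) : ℝ) ∧
      ((F.eval (n : ℤ) : ℤ) : ℝ) ≤ ((F.leadingCoeff.natAbs + (F.coeff 0).natAbs : ℕ) : ℝ) * Z := by
  refine ⟨⌈2 * |(F.coeff 0 : ℝ)| / ρ⌉₊ + 1, fun Z hZ n h1 h2 => ?_⟩
  have h3 : 2 * |(F.coeff 0 : ℝ)| / ρ ≤ Z := by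
    refine (Nat.le_ceil _).trans ?_
    exact_mod_cast (by omega : ⌈2 * |(F.coeff 0 : ℝ)| / ρ⌉₊ ≤ Z)
  rw [div_le_iff₀ hρ] at h3
  have hZ1 : (1 : ℝ) ≤ Z := by exact_mod_cast (by omega : 1 ≤ Z)
  have h2r : (n : ℝ) ≤ Z := by exact_mod_cast h2
  have ha : (1 : ℝ) ≤ (F.leadingCoeff : ℝ) := by exact_mod_cast hF0
  have e1 : ((F.eval (n : ℤ) : ℤ) : ℝ) = F.leadingCoeff * n + F.coeff 0 := by
    rw [u17_ev F hF]
    push_cast
    ring
  have h4 := neg_abs_le (F.coeff 0 : ℝ)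
  have h5 := le_abs_self (F.coeff 0 : ℝ)
  have h6 : (0 : ℝ) ≤ n := Nat.cast_nonneg n
  rw [e1]
  constructor
  · nlinarith
  · have e2 : ((F.leadingCoeff.natAbs : ℕ) : ℝ) = (F.leadingCoeff : ℝ) := by
      rw [Nat.cast_natAbs, abs_of_pos hF0]
    have e3 : (((F.coeff 0).natAbs : ℕ) : ℝ) = |(F.coeff 0 : ℝ)| := by
      rw [Nat.cast_natAbs]
      push_cast
      rfl
    push_cast
    rw [e2, e3]
    have h7 := abs_nonneg (F.coeff 0 : ℝ)
    nlinarith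

/-- The regularity of the system. -/
theorem w18_reg {g : ℕ} (G F₀ : ℤ[X]) (P : Fin g → ℤ[X]) (h : Fin g → ℕ) (N Z Z' A1 : ℕ) (κ' θ v : ℝ)
    (h1 : Z' ≤ Z) (h2 : κ' * Z ≤ Z')
    (hF : ∀ n : ℕ, θ * Z' ≤ n → (n : ℝ) ≤ (1 - θ) * Z' →
      v * Z ≤ ((F₀.eval (n : ℤ) : ℤ) : ℝ) ∧ ((F₀.eval (n : ℤ) : ℤ) : ℝ) ≤ A1 * Z)
    (hG : ∀ n : ℕ, θ * Z' ≤ n → (n : ℝ) ≤ (1 - θ) * Z' →
      v * (Z : ℝ) ^ G.natDegree ≤ (((N : ℤ) - G.eval (n : ℤ) : ℤ) : ℝ) ∧
      (((N : ℤ) - G.eval (n : ℤ) : ℤ) : ℝ) ≤ A1 * (Z : ℝ) ^ G.natDegree)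
    (hP : ∀ n : ℕ, θ * Z' ≤ n → (n : ℝ) ≤ (1 - θ) * Z' → ∀ i,
      v * (Z : ℝ) ^ (P i).natDegree ≤ (((P i).eval (n : ℤ) + (h i : ℤ) : ℤ) : ℝ) ∧
      (((P i).eval (n : ℤ) + (h i : ℤ) : ℤ) : ℝ) ≤ A1 * (Z : ℝ) ^ (P i).natDegree) :
    Reg A1 κ' θ v Z Z' (fun i => ((Fin.cons (-G) P : Fin (g + 1) → ℤ[X]) i).natDegree)
      (sys F₀ (Fin.cons (-G) P : Fin (g + 1) → ℤ[X]) (Fin.cons N h : Fin (g + 1) → ℕ)) := by
  refine ⟨h1, h2, fun n a b => ?_, fun n a b i => ?_⟩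
  · rw [w18_val0]
    exact hF n a b
  · refine Fin.cases ?_ (fun i => ?_) i
    · rw [w18_val1, Fin.cons_zero, natDegree_neg]
      exact hG n a b
    · rw [w18_val2, Fin.cons_succ]
      exact hP n a b i

/-- **W18.** -/
theorem W18_main (hC : ACoreAll) {g d : ℕ} (G : ℤ[X]) (hG : 1 ≤ G.natDegree) (hl : 0 < G.leadingCoeff)
    (P : Fin g → ℤ[X]) (hP : ∀ i, 0 < (P i).leadingCoeff) (c : Fin g → Fin d → ℤ) (e : Fin d → ℕ)
    (hD : Dat c e (fun i => (P i).natDegree) (fun i => (P i).leadingCoeff))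
    (F₀ : ℤ[X]) (hF : F₀.natDegree = 1) (hF0 : 0 < F₀.leadingCoeff) :
    open Classical in ∃ δ1 : ℝ, 0 < δ1 ∧ ∀ A : ℕ, ∃ c0 : ℝ, 0 < c0 ∧ ∀ ε κ : ℝ, 0 < ε → 0 < κ → ∃ (K : ℝ) (Y0 : ℕ), ∀ Y : ℕ, Y0 ≤ Y →
      ∀ b : Fin g → ℤ, (∀ i, |b i| ≤ A * (argCount G Y : ℤ) ^ (P i).natDegree) → ∀ z : ℕ, 1 ≤ z → (z : ℝ) ≤ (argCount G Y : ℝ) ^ δ1 →
      (((Icc 1 Y ×ˢ BoxT A (argCount G Y) e).filter fun x : ℕ × (Fin d → ℤ) => κ * Y ≤ x.1 ∧ (∀ i, 0 ≤ b i + lf c x.2 i) ∧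
        FailsP ε (Fin.cons F₀ (famT P c b x.2) : Fin (g + 1) → ℤ[X]) G x.1 z).card : ℝ) ≤
        Y * (argCount G Y : ℝ) ^ (∑ j, (e j : ℝ)) * ((Real.log (argCount G Y)) ^ (-(A : ℝ)) + K * (z : ℝ) ^ (-c0)) := by
  classical
  set c' : Fin (g + 1) → Fin (d + 1) → ℤ := Fin.cons (Fin.cons 1 0) (fun i => Fin.cons 0 (c i)) with hc'
  set e' : Fin (d + 1) → ℕ := Fin.cons G.natDegree e with he'
  set P' : Fin (g + 1) → ℤ[X] := Fin.cons (-G) P with hP'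
  have hD' : Dat c' e' (fun i => (P' i).natDegree) (fun i => (P' i).leadingCoeff) := Z2_dat G hG hl P c e hD
  obtain ⟨δ1, hδ1, hcore⟩ := hC (g + 1) (d + 1) c' e' P' hD'
  refine ⟨δ1, hδ1, fun A => ?_⟩
  have hPP : ∀ i, 1 ≤ (P i).natDegree ∧ 0 < (P i).leadingCoeff := fun i => ⟨hD.deg i, hP i⟩
  obtain ⟨κ1, Ag, hκ1, hG1, Yg1, hYg1⟩ := W16_G G hG hl 1 one_pos
  obtain ⟨As, hAs⟩ : ∃ As : ℕ, As = A + A * ∑ i, ∑ j, (c i j).natAbs := ⟨_, rfl⟩
  obtain ⟨Ap, hP1⟩ := W16_P P hPP As 1 one_pos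
  obtain ⟨Ab, hAb⟩ : ∃ Ab : ℕ, Ab = A + 1 + Ag + Ap + (F₀.leadingCoeff.natAbs + (F₀.coeff 0).natAbs) := ⟨_, rfl⟩
  obtain ⟨A1, hA1, hbox⟩ := W16_box c' e' (fun i => (P' i).natDegree) hD'.blk Ab
  have hA1a : A + 1 ≤ A1 := by omega
  have hA1g : Ag ≤ A1 := by omega
  have hA1p : Ap ≤ A1 := by omega
  have hA1f : F₀.leadingCoeff.natAbs + (F₀.coeff 0).natAbs ≤ A1 := by omega
  obtain ⟨c0, hc0, hc1⟩ := hcore A1
  refine ⟨c0, hc0, fun ε κ hε hκ => ?_⟩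
  obtain ⟨κ', Aκ, hκ', hGκ, _⟩ := W16_G G hG hl κ hκ
  choose vg hvg0 Yg hYg using hGκ
  choose vp hvp0 Zp hZp using hP1
  obtain ⟨vf, hvf⟩ : ∃ vf : ℝ → ℝ, vf = fun θ => if h : 0 < θ then
      min (vg θ h) (min (vp (θ * κ') (mul_pos h hκ')) (θ * κ' / 2)) else 1 := ⟨_, rfl⟩
  have hvf1 : ∀ θ (h : 0 < θ), vf θ = min (vg θ h) (min (vp (θ * κ') (mul_pos h hκ')) (θ * κ' / 2)) := by
    intro θ h
    rw [hvf]
    exact dif_pos h
  obtain ⟨θ, C1, Z0, hθ, hC1, hmain⟩ := hc1 ε κ' vf hε hκ' (by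
    intro θ hθ
    rw [hvf1 θ hθ]
    exact lt_min (hvg0 θ hθ) (lt_min (hvp0 _ _) (by positivity)))
  have hv1 : vf θ ≤ vg θ hθ := by rw [hvf1 θ hθ]; exact min_le_left _ _
  have hv2 : vf θ ≤ vp (θ * κ') (mul_pos hθ hκ') := by
    rw [hvf1 θ hθ]; exact (min_le_right _ _).trans (min_le_left _ _)
  have hv3 : vf θ ≤ θ * κ' / 2 := by
    rw [hvf1 θ hθ]; exact (min_le_right _ _).trans (min_le_right _ _)
  obtain ⟨v1, _, Y1, hY1⟩ := hG1 θ hθ
  obtain ⟨Zl, hZl⟩ := w18_lin F₀ hF hF0 (θ * κ') (mul_pos hθ hκ')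
  have ht := Pool.Agent.Lib.H59.argCount_tendsto (G := G) hG hl
  have htl : Filter.Tendsto (fun Z : ℕ => Real.log Z) Filter.atTop Filter.atTop :=
    Real.tendsto_log_atTop.comp tendsto_natCast_atTop_atTop
  obtain ⟨Y2, hY2⟩ := Filter.eventually_atTop.1
    ((ht.eventually_ge_atTop (max (max Z0 1) (max Zl (Zp (θ * κ') (mul_pos hθ hκ'))))).and
      (ht.eventually (htl.eventually_ge_atTop (max 1 (Ag : ℝ)))))
  refine ⟨Ag * C1, max (max (Yg θ hθ) Y1) (max Yg1 Y2), fun Y hY b hb z hz1 hz2 => ?_⟩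
  have hYa : Yg θ hθ ≤ Y := ((le_max_left _ _).trans (le_max_left _ _)).trans hY
  have hYb : Y1 ≤ Y := ((le_max_right _ _).trans (le_max_left _ _)).trans hY
  have hYc : Yg1 ≤ Y := ((le_max_left _ _).trans (le_max_right _ _)).trans hY
  have hYd : Y2 ≤ Y := ((le_max_right _ _).trans (le_max_right _ _)).trans hY
  obtain ⟨hZa, hlogZ⟩ := hY2 Y hYd
  obtain ⟨hYZ, hZY⟩ := hYg1 Y hYc
  obtain ⟨Z, hZ⟩ : ∃ Z : ℕ, Z = argCount G Y := ⟨_, rfl⟩
  have hYN : ∀ N : ℕ, κ * Y ≤ N → N ≤ Y → _ := fun N h1 h2 => hYg θ hθ Y N hYa h1 h2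
  obtain ⟨_, _, _, hYY⟩ := hY1 Y Y hYb (by rw [one_mul]) le_rfl
  rw [← hZ] at hb hz2 hZa hlogZ hYZ hZY hYY ⊢
  simp only [← hZ] at hYN
  have hZ0 : Z0 ≤ Z := ((le_max_left _ _).trans (le_max_left _ _)).trans hZa
  have hZ1 : 1 ≤ Z := ((le_max_right _ _).trans (le_max_left _ _)).trans hZa
  have hZZl : Zl ≤ Z := ((le_max_left _ _).trans (le_max_right _ _)).trans hZa
  have hZZp : Zp (θ * κ') (mul_pos hθ hκ') ≤ Z := ((le_max_right _ _).trans (le_max_right _ _)).trans hZa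
  have hZr : (0 : ℝ) < Z := by exact_mod_cast hZ1
  have hlog1 : (1 : ℝ) ≤ Real.log Z := (le_max_left _ _).trans hlogZ
  have hlog2 : (Ag : ℝ) ≤ Real.log Z := (le_max_right _ _).trans hlogZ
  have hβ : ∀ i : Fin (g + 1), |(Fin.cons 0 b : Fin (g + 1) → ℤ) i| ≤ (Ab : ℤ) * (Z : ℤ) ^ (P' i).natDegree := by
    intro i
    refine Fin.cases ?_ (fun i => ?_) i
    · rw [Fin.cons_zero, abs_zero]
      positivity
    · rw [Fin.cons_succ, hP', Fin.cons_succ]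
      refine (hb i).trans ?_
      refine mul_le_mul_of_nonneg_right ?_ (by positivity)
      exact Int.ofNat_le.2 (by omega)
  obtain ⟨β', hβ', hbox2⟩ := hbox Z (Fin.cons 0 b) hβ
  have hYA : Y ≤ Ab * Z ^ G.natDegree := by
    have h7 : (Y : ℝ) ≤ (Ab : ℝ) * (Z : ℝ) ^ G.natDegree := by
      refine hYZ.trans ?_
      refine mul_le_mul_of_nonneg_right ?_ (by positivity)
      exact_mod_cast (by omega : Ag ≤ Ab)
    exact_mod_cast h7
  obtain ⟨R, hR⟩ : ∃ R : (Fin (g + 1) → ℤ) → Prop, R = fun s => (∀ i, 0 ≤ s i) ∧ NoFix (sys F₀ P' fun i => (s i).toNat) ∧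
      ∃ Z' : ℕ, Reg A1 κ' θ (vf θ) Z Z' (fun i => (P' i).natDegree) (sys F₀ P' fun i => (s i).toNat) ∧
        ε * (Z' * H9P.dens (fun i => (P' i).natDegree) (z - 1) Z' (sys F₀ P' fun i => (s i).toNat)) <
          |(cnt (sys F₀ P' fun i => (s i).toNat) 1 Z' : ℝ) -
            Z' * H9P.dens (fun i => (P' i).natDegree) (z - 1) Z' (sys F₀ P' fun i => (s i).toNat)| := ⟨_, rfl⟩
  have hzz : ((z - 1 : ℕ) : ℝ) ≤ (Z : ℝ) ^ δ1 := by
    refine le_trans ?_ hz2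
    exact_mod_cast Nat.sub_le z 1
  have hz3 : ((z - 1 : ℕ) : ℝ) + 1 = z := by
    rw [Nat.cast_sub hz1, Nat.cast_one, sub_add_cancel]
  have hcore2 := hmain Z hZ0 F₀ hF ((Nat.le_add_right _ _).trans hA1f) β' hβ' (z - 1) hzz
  rw [hz3] at hcore2
  have hcard : ((Icc 1 Y ×ˢ BoxT A Z e).filter fun x : ℕ × (Fin d → ℤ) => κ * Y ≤ x.1 ∧ (∀ i, 0 ≤ b i + lf c x.2 i) ∧
        FailsP ε (Fin.cons F₀ (famT P c b x.2) : Fin (g + 1) → ℤ[X]) G x.1 z).card ≤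
      ((BoxT Ab Z e').filter fun t => R (fun i => (Fin.cons 0 b : Fin (g + 1) → ℤ) i + lf c' t i)).card := by
    refine card_le_card_of_injOn (fun x => (Fin.cons (x.1 : ℤ) x.2 : Fin (d + 1) → ℤ)) ?_ ?_
    · rintro ⟨N, t⟩ hx
      obtain ⟨hx1, hx2, hx3, hx4⟩ := mem_filter.1 (mem_coe.1 hx)
      obtain ⟨hN, ht⟩ := mem_product.1 hx1
      have hNY : N ≤ Y := (mem_Icc.1 hN).2
      refine mem_coe.2 (mem_filter.2 ⟨z2_boxcons (hNY.trans hYA) (z2_box (by omega) ht), ?_⟩)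
      have hhh : (fun i => ((Fin.cons 0 b : Fin (g + 1) → ℤ) i + lf c' (Fin.cons (N : ℤ) t : Fin (d + 1) → ℤ) i).toNat) =
          (Fin.cons N (hh c b t) : Fin (g + 1) → ℕ) := Z2_hh c b N t
      obtain ⟨q1, q2, q3, q4⟩ := hYN N hx2 hNY
      have hfam : (Fin.cons F₀ (famT P c b t) : Fin (g + 1) → ℤ[X]) =
          Fin.cons F₀ (fun i => P i + C ((hh c b t i : ℕ) : ℤ)) := by
        rw [famT_eval P c b t hx3]
        rfl
      have hx4' : FailsP ε (Fin.cons F₀ (fun i => P i + C ((hh c b t i : ℕ) : ℤ)) : Fin (g + 1) → ℤ[X]) G N z := by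
        rw [← hfam]
        exact hx4
      obtain ⟨hadm, hfail⟩ := hx4'
      rw [hR]
      refine ⟨?_, ?_, argCount G N, ?_, ?_⟩
      · intro i
        refine Fin.cases ?_ (fun i => ?_) i
        · have e1 : lf c' (Fin.cons (N : ℤ) t : Fin (d + 1) → ℤ) 0 = N := z2_lf0 c N t
          show (0 : ℤ) ≤ (Fin.cons 0 b : Fin (g + 1) → ℤ) 0 + lf c' (Fin.cons (N : ℤ) t : Fin (d + 1) → ℤ) 0
          rw [Fin.cons_zero, e1]
          positivity
        · have e1 : lf c' (Fin.cons (N : ℤ) t : Fin (d + 1) → ℤ) i.succ = lf c t i := z2_lfs c N t i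
          show (0 : ℤ) ≤ (Fin.cons 0 b : Fin (g + 1) → ℤ) i.succ + lf c' (Fin.cons (N : ℤ) t : Fin (d + 1) → ℤ) i.succ
          rw [Fin.cons_succ, e1]
          exact hx3 i
      · rw [hhh]
        exact fb_b hadm
      · rw [hhh]
        refine w18_reg G F₀ P (hh c b t) N Z (argCount G N) A1 κ' θ (vf θ) q2 q3 ?_ ?_ ?_
        · intro n a1 a2
          have b1 : θ * κ' * Z ≤ n := by
            refine le_trans ?_ a1
            rw [mul_assoc]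
            exact mul_le_mul_of_nonneg_left q3 hθ.le
          have b2 : n ≤ Z := by
            have : (n : ℝ) ≤ argCount G N := by
              refine a2.trans ?_
              nlinarith [Nat.cast_nonneg (α := ℝ) (argCount G N)]
            exact (by exact_mod_cast this : n ≤ argCount G N).trans q2
          obtain ⟨b3, b4⟩ := hZl Z hZZl n b1 b2
          refine ⟨le_trans ?_ b3, b4.trans ?_⟩
          · exact mul_le_mul_of_nonneg_right hv3 hZr.le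
          · refine mul_le_mul_of_nonneg_right ?_ hZr.le
            exact_mod_cast hA1f
        · intro n a1 a2
          have b1 := (q4 n a2).1
          have a3 : (n : ℝ) ≤ (1 - θ) * Z := by
            rcases le_or_gt 0 (1 - θ) with hs | hs
            · exact a2.trans (mul_le_mul_of_nonneg_left (by exact_mod_cast q2) hs)
            · have b5 : (0 : ℝ) ≤ argCount G N := Nat.cast_nonneg _
              have b6 : (0 : ℝ) < argCount G N := lt_of_lt_of_le (by positivity) q3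
              have b7 : (0 : ℝ) ≤ n := Nat.cast_nonneg _
              nlinarith
          have b2 := (hYY n a3).2
          refine ⟨le_trans (mul_le_mul_of_nonneg_right hv1 (by positivity)) b1, ?_⟩
          have b3 : (((N : ℤ) - G.eval (n : ℤ) : ℤ) : ℝ) ≤ (((Y : ℤ) - G.eval (n : ℤ) : ℤ) : ℝ) := by
            have b4 : (N : ℤ) ≤ Y := by exact_mod_cast hNY
            exact_mod_cast (by linarith : (N : ℤ) - G.eval (n : ℤ) ≤ (Y : ℤ) - G.eval (n : ℤ))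
          refine b3.trans (b2.trans ?_)
          refine mul_le_mul_of_nonneg_right ?_ (by positivity)
          exact_mod_cast hA1g
        · intro n a1 a2 i
          have b1 : θ * κ' * Z ≤ n := by
            refine le_trans ?_ a1
            rw [mul_assoc]
            exact mul_le_mul_of_nonneg_left q3 hθ.le
          have b2 : n ≤ Z := by
            have : (n : ℝ) ≤ argCount G N := by
              refine a2.trans ?_
              nlinarith [Nat.cast_nonneg (α := ℝ) (argCount G N)]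
            exact (by exact_mod_cast this : n ≤ argCount G N).trans q2
          have b3 : ∀ i, 0 ≤ ((hh c b t i : ℕ) : ℤ) ∧ ((hh c b t i : ℕ) : ℤ) ≤ As * (Z : ℤ) ^ (P i).natDegree := by
            intro i
            refine ⟨Int.natCast_nonneg _, ?_⟩
            have b4 : ((hh c b t i : ℕ) : ℤ) = b i + lf c t i := by
              unfold hh
              exact Int.toNat_of_nonneg (hx3 i)
            rw [b4]
            have b5 := (le_abs_self _).trans (hb i)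
            have b6 := (le_abs_self _).trans (w18_abs c e (fun i => (P i).natDegree) hD.blk A Z t ht i)
            rw [hAs]
            push_cast at b6 ⊢
            linarith
          obtain ⟨b7, b8⟩ := hZp (θ * κ') (mul_pos hθ hκ') Z Z hZZp le_rfl (by rw [one_mul])
            (fun i => ((hh c b t i : ℕ) : ℤ)) b3 n b1 b2 i
          refine ⟨le_trans (mul_le_mul_of_nonneg_right hv2 (by positivity)) b7, b8.trans ?_⟩
          refine mul_le_mul_of_nonneg_right ?_ (by positivity)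
          exact_mod_cast hA1p
      · rw [hhh]
        rw [w18_main_term G F₀ hF, w18_cnt G F₀ P (hh c b t) N q1] at hfail
        exact hfail
    · rintro ⟨N, t⟩ _ ⟨N', t'⟩ _ he
      have he' := Fin.cons_injective2 he
      exact Prod.ext (Int.natCast_inj.1 he'.1) he'.2
  have hcard2 := hcard.trans (hbox2 R)
  have hcard3 : (((Icc 1 Y ×ˢ BoxT A Z e).filter fun x : ℕ × (Fin d → ℤ) => κ * Y ≤ x.1 ∧ (∀ i, 0 ≤ b i + lf c x.2 i) ∧
        FailsP ε (Fin.cons F₀ (famT P c b x.2) : Fin (g + 1) → ℤ[X]) G x.1 z).card : ℝ) ≤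
      (Z : ℝ) ^ (∑ j, (e' j : ℝ)) * ((Real.log Z) ^ (-(A1 : ℝ)) + C1 * (z : ℝ) ^ (-c0)) := by
    refine (Nat.cast_le.2 hcard2).trans (le_trans ?_ hcore2)
    refine Nat.cast_le.2 (card_le_card ?_)
    intro t ht
    rw [mem_filter] at ht ⊢
    obtain ⟨h1, h2⟩ := ht
    rw [hR] at h2
    exact ⟨h1, h2⟩
  refine hcard3.trans ?_
  have h8 : (∑ j, ((e' j : ℕ) : ℝ)) = (G.natDegree : ℝ) + ∑ j, (e j : ℝ) := by
    rw [Fin.sum_univ_succ, he']
    simp only [Fin.cons_zero, Fin.cons_succ]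
  rw [h8, Real.rpow_add hZr, Real.rpow_natCast]
  obtain ⟨S, hS⟩ : ∃ S : ℝ, S = (Z : ℝ) ^ (∑ j, (e j : ℝ)) := ⟨_, rfl⟩
  have hS0 : 0 < S := by rw [hS]; exact Real.rpow_pos_of_pos hZr _
  rw [← hS]
  have hzr : (0 : ℝ) ≤ (z : ℝ) ^ (-c0) := Real.rpow_nonneg (Nat.cast_nonneg _) _
  have hlog0 : (0 : ℝ) < Real.log Z := by linarith
  have h9 : (Ag : ℝ) * (Real.log Z) ^ (-(A1 : ℝ)) ≤ (Real.log Z) ^ (-(A : ℝ)) := by
    calc (Ag : ℝ) * (Real.log Z) ^ (-(A1 : ℝ)) ≤ Real.log Z * (Real.log Z) ^ (-((A : ℝ) + 1)) := by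
          refine mul_le_mul hlog2 ?_ (Real.rpow_nonneg hlog0.le _) hlog0.le
          refine Real.rpow_le_rpow_of_exponent_le hlog1 ?_
          have : (A : ℝ) + 1 ≤ A1 := by exact_mod_cast hA1a
          linarith
      _ = (Real.log Z) ^ (-(A : ℝ)) := by
          have e1 : Real.log Z * (Real.log Z) ^ (-((A : ℝ) + 1)) =
              (Real.log Z) ^ (1 : ℝ) * (Real.log Z) ^ (-((A : ℝ) + 1)) := by rw [Real.rpow_one]
          rw [e1, ← Real.rpow_add hlog0]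
          congr 1
          ring
  have h10 : 0 ≤ (Real.log Z) ^ (-(A1 : ℝ)) + C1 * (z : ℝ) ^ (-c0) :=
    add_nonneg (Real.rpow_nonneg hlog0.le _) (mul_nonneg hC1 hzr)
  calc (Z : ℝ) ^ G.natDegree * S * ((Real.log Z) ^ (-(A1 : ℝ)) + C1 * (z : ℝ) ^ (-c0))
      ≤ (Ag * Y) * S * ((Real.log Z) ^ (-(A1 : ℝ)) + C1 * (z : ℝ) ^ (-c0)) := by
        refine mul_le_mul_of_nonneg_right ?_ h10
        exact mul_le_mul_of_nonneg_right hZY hS0.le
    _ = Y * S * (Ag * (Real.log Z) ^ (-(A1 : ℝ)) + Ag * C1 * (z : ℝ) ^ (-c0)) := by ring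
    _ ≤ Y * S * ((Real.log Z) ^ (-(A : ℝ)) + Ag * C1 * (z : ℝ) ^ (-c0)) := by
        refine mul_le_mul_of_nonneg_left ?_ (by positivity)
        linarith

end Pool.Agent.HLA
end

-- from Lib.HLA.W19
section

/-!
# LOGA, chunk W19 (M): pairs `(N, t)`, any `G`, in terms of the problem
-/

open Finset Polynomial

namespace Pool.Agent.HLA

open Pool.Agent.Lib.H68T Pool.Agent.Lib.H18Q Pool.Agent.Lib.H59P Pool.Agent.Lib.H24P
open Pool.Agent.HUP Pool.Agent.H9P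
open Pool.Agent.Lib.H59 (argSet argCount Admissible primeCount omegaN seriesTrunc)

/-- The system `(N - G, P_i + h_i)` in two forms. Proof. `funext`, `Fin.cases`. -/
theorem w19_sys {g : ℕ} (G : ℤ[X]) (P : Fin g → ℤ[X]) (h : Fin g → ℕ) (N : ℕ) :
    sys (C (N : ℤ) - G) P h = ran (Fin.cons (-G) P : Fin (g + 1) → ℤ[X]) (Fin.cons N h : Fin (g + 1) → ℕ) := by
  funext i n
  unfold sys ran
  refine Fin.cases ?_ (fun i => ?_) i
  · simp only [Fin.cons_zero]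
    rw [eval_sub, eval_C, eval_neg]
    ring
  · simp only [Fin.cons_succ]

/-- w19 aux: the size of the forms on the box. -/
theorem w19_lf {k d : ℕ} (c : Fin k → Fin d → ℤ) (e : Fin d → ℕ) (i : Fin k) (D A Z : ℕ)
    (h : ∀ j, c i j ≠ 0 → e j = D) (t : Fin d → ℤ) (ht : t ∈ BoxT A Z e) :
    lf c t i ≤ (A : ℤ) * (∑ j, |c i j|) * (Z : ℤ) ^ D := by
  unfold BoxT at ht
  rw [Fintype.mem_piFinset] at ht
  unfold lf
  rw [mul_assoc, Finset.sum_mul, Finset.mul_sum]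
  refine Finset.sum_le_sum fun j _ => ?_
  refine (le_abs_self _).trans ?_
  rw [abs_mul]
  by_cases hj : c i j = 0
  · rw [hj]
    simp
  · have h1 := mem_Icc.1 (ht j)
    have h2 : |t j| ≤ ((A * Z ^ e j : ℕ) : ℤ) := abs_le.2 h1
    rw [h j hj] at h2
    push_cast at h2
    calc |c i j| * |t j| ≤ |c i j| * ((A : ℤ) * (Z : ℤ) ^ D) := by
          exact mul_le_mul_of_nonneg_left h2 (abs_nonneg _)
      _ = (A : ℤ) * (|c i j| * (Z : ℤ) ^ D) := by ring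

/-- w19 aux: the main term. -/
theorem w19_term {g d : ℕ} (G : ℤ[X]) (P : Fin g → ℤ[X]) (c : Fin g → Fin d → ℤ) (b : Fin g → ℤ) (t : Fin d → ℤ) (N z : ℕ)
    (h0 : ∀ i, 0 ≤ b i + lf c t i) :
    mainTermP (famT P c b t) G N z =
      (argCount G N : ℝ) * densN (fun i => ((Fin.cons (-G) P : Fin (g + 1) → ℤ[X]) i).natDegree) (z - 1) (argCount G N)
        (ran (Fin.cons (-G) P : Fin (g + 1) → ℤ[X]) (Fin.cons N (hh c b t) : Fin (g + 1) → ℕ)) := by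
  have e0 : famT P c b t = Pool.Agent.H9P.famP P c b t := rfl
  rw [e0]
  unfold mainTermP densN
  rw [U17_series G P c b t N z h0, ← w19_sys, Fin.prod_univ_succ]
  simp only [Fin.cons_zero, Fin.cons_succ]
  rw [natDegree_neg]
  have e1 : ∀ i, ((Pool.Agent.H9P.famP P c b t i).natDegree : ℝ) = ((P i).natDegree : ℝ) := by
    intro i
    unfold Pool.Agent.H9P.famP
    rw [natDegree_add_C]
  rw [prod_congr rfl fun i _ => e1 i]
  rw [div_eq_mul_inv, div_eq_mul_inv, mul_inv]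
  ring

/-- w19 aux: the final numerical estimate. -/
theorem w19_num (h A B : ℕ) (hAB : A + 1 ≤ B) (s a C1 c0 Y Z z : ℝ) (ha : 0 ≤ a) (hC1 : 0 ≤ C1) (hZ : 0 < Z) (hY : 0 ≤ Y)
    (hlog : 1 ≤ Real.log Z) (hla : a ≤ Real.log Z) (hZY : Z ^ h ≤ a * Y) :
    Z ^ ((h : ℝ) + s) * ((Real.log Z) ^ (-(B : ℝ)) + C1 * z ^ (-c0)) ≤
      Y * Z ^ s * ((Real.log Z) ^ (-(A : ℝ)) + a * C1 * z ^ (-c0)) ∨ z < 0 := by
  rcases lt_or_ge z 0 with hz | hz
  · exact Or.inr hz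
  left
  have hzc : 0 ≤ z ^ (-c0) := Real.rpow_nonneg hz _
  have hl0 : 0 < Real.log Z := by linarith
  have h1 : a * (Real.log Z) ^ (-(B : ℝ)) ≤ (Real.log Z) ^ (-(A : ℝ)) := by
    have h2 : (Real.log Z) ^ (-(B : ℝ)) ≤ (Real.log Z) ^ (-((A : ℝ) + 1)) := by
      refine Real.rpow_le_rpow_of_exponent_le hlog ?_
      have : ((A + 1 : ℕ) : ℝ) ≤ (B : ℝ) := by exact_mod_cast hAB
      push_cast at this
      linarith
    calc a * (Real.log Z) ^ (-(B : ℝ)) ≤ Real.log Z * (Real.log Z) ^ (-((A : ℝ) + 1)) := by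
          refine mul_le_mul hla h2 (Real.rpow_nonneg hl0.le _) hl0.le
      _ = (Real.log Z) ^ (-(A : ℝ)) := by
          rw [neg_add, Real.rpow_add hl0, Real.rpow_neg_one]
          field_simp
  have h3 : Z ^ ((h : ℝ) + s) = Z ^ h * Z ^ s := by
    rw [Real.rpow_add hZ, Real.rpow_natCast]
  have hs : 0 ≤ Z ^ s := Real.rpow_nonneg hZ.le _
  rw [h3]
  have hB0 : 0 ≤ (Real.log Z) ^ (-(B : ℝ)) := Real.rpow_nonneg hl0.le _
  calc Z ^ h * Z ^ s * ((Real.log Z) ^ (-(B : ℝ)) + C1 * z ^ (-c0))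
      ≤ (a * Y) * Z ^ s * ((Real.log Z) ^ (-(B : ℝ)) + C1 * z ^ (-c0)) := by
        refine mul_le_mul_of_nonneg_right (mul_le_mul_of_nonneg_right hZY hs) ?_
        exact add_nonneg hB0 (mul_nonneg hC1 hzc)
    _ = Y * Z ^ s * (a * (Real.log Z) ^ (-(B : ℝ)) + a * C1 * z ^ (-c0)) := by ring
    _ ≤ Y * Z ^ s * ((Real.log Z) ^ (-(A : ℝ)) + a * C1 * z ^ (-c0)) := by
        refine mul_le_mul_of_nonneg_left ?_ (mul_nonneg hY hs)
        linarith

/-- **W19.** Proof. As `W18_main` (whose docstring see) with `NCore` for the same data (`Z2_dat`), the system `ran (cons (-G) P) (cons N h)`, which is `sys (C N - G) P h` (`w19_sys`), so `U17_series`, `U17_cnt`, `U17_noFix` apply (they do not need `deg G = 1`, but `argSet G N = Icc 1 (argCount G N)` from `W16_G`);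
the main term: degree `deg G`, exponent `g + 1`: `mainTermP = Z' densN D' (z - 1) Z'` with `D' = cons (deg G) D`. `RegN` from `W16_G`, `W16_P`. -/
theorem W19_main (hC : NCoreAll) {g d : ℕ} (G : ℤ[X]) (hG : 1 ≤ G.natDegree) (hl : 0 < G.leadingCoeff)
    (P : Fin g → ℤ[X]) (hP : ∀ i, 0 < (P i).leadingCoeff) (c : Fin g → Fin d → ℤ) (e : Fin d → ℕ)
    (hD : Dat c e (fun i => (P i).natDegree) (fun i => (P i).leadingCoeff)) :
    open Classical in ∃ δ1 : ℝ, 0 < δ1 ∧ ∀ A : ℕ, ∃ c0 : ℝ, 0 < c0 ∧ ∀ ε κ : ℝ, 0 < ε → 0 < κ → ∃ (K : ℝ) (Y0 : ℕ), ∀ Y : ℕ, Y0 ≤ Y →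
      ∀ b : Fin g → ℤ, (∀ i, |b i| ≤ A * (argCount G Y : ℤ) ^ (P i).natDegree) → ∀ z : ℕ, 1 ≤ z → (z : ℝ) ≤ (argCount G Y : ℝ) ^ δ1 →
      (((Icc 1 Y ×ˢ BoxT A (argCount G Y) e).filter fun x : ℕ × (Fin d → ℤ) => κ * Y ≤ x.1 ∧ (∀ i, 0 ≤ b i + lf c x.2 i) ∧
        FailsP ε (famT P c b x.2) G x.1 z).card : ℝ) ≤
        Y * (argCount G Y : ℝ) ^ (∑ j, (e j : ℝ)) * ((Real.log (argCount G Y)) ^ (-(A : ℝ)) + K * (z : ℝ) ^ (-c0)) := by
  classical
  -- the data of the pairs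
  have hD' := Z2_dat G hG hl P c e hD
  obtain ⟨c', hc'⟩ : ∃ c' : Fin (g + 1) → Fin (d + 1) → ℤ, c' = Fin.cons (Fin.cons 1 0) (fun i => Fin.cons 0 (c i)) := ⟨_, rfl⟩
  obtain ⟨e', he'⟩ : ∃ e' : Fin (d + 1) → ℕ, e' = Fin.cons G.natDegree e := ⟨_, rfl⟩
  obtain ⟨P', hP'⟩ : ∃ P' : Fin (g + 1) → ℤ[X], P' = Fin.cons (-G) P := ⟨_, rfl⟩
  rw [← hc', ← he', ← hP'] at hD'
  obtain ⟨δ1, hδ1, hcore⟩ := hC (g + 1) (d + 1) c' e' P' hD'
  refine ⟨δ1, hδ1, fun A => ?_⟩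
  -- the constants
  obtain ⟨κ1, AG, hκ1, hG1, Y1, hY1⟩ := W16_G G hG hl 1 one_pos
  obtain ⟨A3, hA3, hbox⟩ := W16_box c' e' (fun i => (P' i).natDegree) (fun i j => hD'.blk i j) (A + AG)
  obtain ⟨S, hS⟩ : ∃ S : ℕ, S = ∑ i, ∑ j, (c i j).natAbs := ⟨_, rfl⟩
  obtain ⟨A5, hP5⟩ := W16_P P (fun i => ⟨hD.deg i, hP i⟩) (A + A * S) 1 one_pos
  obtain ⟨B, hB⟩ : ∃ B : ℕ, B = A + 1 + AG + A3 + A5 := ⟨_, rfl⟩
  obtain ⟨c0, hc0, hcore2⟩ := hcore B
  refine ⟨c0, hc0, fun ε κ hε hκ => ?_⟩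
  obtain ⟨κ', AG', hκ', hG2, -⟩ := W16_G G hG hl κ hκ
  -- the lower bounds of the values
  have hv : ∀ θ : ℝ, ∃ v : ℝ, 0 < v ∧ (0 < θ → ∃ Y0 : ℕ, ∀ Y N : ℕ, Y0 ≤ Y → κ * Y ≤ N → N ≤ Y →
      argSet G N = ((Icc 1 (argCount G N) : Finset ℕ) : Set ℕ) ∧ argCount G N ≤ argCount G Y ∧
      κ' * argCount G Y ≤ argCount G N ∧
      (∀ n : ℕ, (n : ℝ) ≤ (1 - θ) * argCount G N →
        v * (argCount G Y : ℝ) ^ G.natDegree ≤ (((N : ℤ) - G.eval (n : ℤ) : ℤ) : ℝ) ∧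
        (((N : ℤ) - G.eval (n : ℤ) : ℤ) : ℝ) ≤ AG * (argCount G Y : ℝ) ^ G.natDegree) ∧
      ∀ s : Fin g → ℤ, (∀ i, 0 ≤ s i ∧ s i ≤ ((A + A * S : ℕ) : ℤ) * (argCount G Y : ℤ) ^ (P i).natDegree) →
        ∀ n : ℕ, θ * argCount G N ≤ n → n ≤ argCount G N → ∀ i,
        v * (argCount G Y : ℝ) ^ (P i).natDegree ≤ (((P i).eval (n : ℤ) + s i : ℤ) : ℝ) ∧
        (((P i).eval (n : ℤ) + s i : ℤ) : ℝ) ≤ A5 * (argCount G Y : ℝ) ^ (P i).natDegree) := by
    intro θ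
    rcases lt_or_ge 0 θ with hθ | hθ
    swap
    · exact ⟨1, one_pos, fun h => absurd h (not_lt.2 hθ)⟩
    obtain ⟨v1, hv1, Y2, hY2⟩ := hG2 θ hθ
    obtain ⟨v1', hv1', Y2', hY2'⟩ := hG1 θ hθ
    obtain ⟨v2, hv2, Z2, hZ2⟩ := hP5 (θ * κ') (mul_pos hθ hκ')
    have htend := Pool.Agent.Lib.H59.argCount_tendsto (G := G) hG hl
    obtain ⟨Y3, hY3⟩ := Filter.eventually_atTop.1 (htend.eventually_ge_atTop Z2)
    refine ⟨min v1 v2, lt_min hv1 hv2, fun _ => ⟨Y2 + ⌈(Y2' : ℝ) / κ⌉₊ + Y3, fun Y N hY hN1 hN2 => ?_⟩⟩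
    obtain ⟨r1, r2, r3, r4⟩ := hY2 Y N (by omega) hN1 hN2
    have hN3 : Y2' ≤ N := by
      have h1 : (Y2' : ℝ) / κ ≤ Y := by
        refine (Nat.le_ceil _).trans ?_
        exact_mod_cast (by omega : ⌈(Y2' : ℝ) / κ⌉₊ ≤ Y)
      rw [div_le_iff₀ hκ] at h1
      have h2 : (Y2' : ℝ) ≤ N := by linarith
      exact_mod_cast h2
    obtain ⟨-, -, -, r4'⟩ := hY2' N N hN3 (by rw [one_mul]) le_rfl
    have hZ0 : (0 : ℝ) ≤ (argCount G N : ℝ) := Nat.cast_nonneg _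
    have hZZ : (argCount G N : ℝ) ≤ (argCount G Y : ℝ) := by exact_mod_cast r2
    have hYZ : (0 : ℝ) ≤ (argCount G Y : ℝ) := Nat.cast_nonneg _
    refine ⟨r1, r2, r3, fun n hn => ⟨?_, ?_⟩, fun s hs n hn1 hn2 i => ?_⟩
    · refine le_trans ?_ (r4 n hn).1
      exact mul_le_mul_of_nonneg_right (min_le_left _ _) (pow_nonneg hYZ _)
    · refine (r4' n hn).2.trans ?_
      exact mul_le_mul_of_nonneg_left (pow_le_pow_left₀ hZ0 hZZ _) (Nat.cast_nonneg _)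
    · obtain ⟨q1, q2⟩ := hZ2 (argCount G Y) (argCount G Y) (hY3 Y (by omega)) le_rfl (by rw [one_mul]) s hs n
        (by
          refine le_trans ?_ hn1
          rw [mul_assoc]
          exact mul_le_mul_of_nonneg_left r3 hθ.le) (hn2.trans r2) i
      refine ⟨le_trans ?_ q1, q2⟩
      exact mul_le_mul_of_nonneg_right (min_le_right _ _) (pow_nonneg hYZ _)
  choose vf hvf hvf2 using hv
  obtain ⟨θ, C1, Z0, hθ, hC1, hfin⟩ := hcore2 ε κ' vf hε hκ' (fun θ _ => hvf θ)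
  obtain ⟨Y4, hY4⟩ := hvf2 θ hθ
  have htend := Pool.Agent.Lib.H59.argCount_tendsto (G := G) hG hl
  have hlogt : Filter.Tendsto (fun Z : ℕ => Real.log (Z : ℝ)) Filter.atTop Filter.atTop :=
    Real.tendsto_log_atTop.comp tendsto_natCast_atTop_atTop
  obtain ⟨Y5, hY5⟩ := Filter.eventually_atTop.1 ((htend.eventually_ge_atTop (Z0 + 1)).and
    ((htend.eventually (hlogt.eventually_ge_atTop 1)).and (htend.eventually (hlogt.eventually_ge_atTop (AG : ℝ)))))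
  refine ⟨AG * C1, Y1 + Y4 + Y5, fun Y hY b hb z hz hzZ => ?_⟩
  obtain ⟨m1, m2, m3⟩ := hY5 Y (by omega)
  obtain ⟨k1, k2⟩ := hY1 Y (by omega)
  obtain ⟨Z, hZ⟩ : ∃ Z : ℕ, Z = argCount G Y := ⟨_, rfl⟩
  rw [← hZ] at m1 m2 m3 k1 k2 hb hzZ ⊢
  have hZpos : (0 : ℝ) < (Z : ℝ) := by
    have : 0 < Z := by omega
    exact_mod_cast this
  -- the shifted data
  obtain ⟨β, hβ⟩ : ∃ β : Fin (g + 1) → ℤ, β = Fin.cons 0 b := ⟨_, rfl⟩
  have hβb : ∀ i, |β i| ≤ ((A + AG : ℕ) : ℤ) * (Z : ℤ) ^ (P' i).natDegree := by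
    intro i
    rw [hβ, hP']
    refine Fin.cases ?_ (fun i => ?_) i
    · rw [Fin.cons_zero, abs_zero]
      positivity
    · rw [Fin.cons_succ, Fin.cons_succ]
      refine (hb i).trans ?_
      refine mul_le_mul_of_nonneg_right ?_ (by positivity)
      exact Int.ofNat_le.2 (by omega)
  obtain ⟨β', hβ', hcard2⟩ := hbox Z β hβb
  have hcard3 := hcard2 (fun s => (∀ i, 0 ≤ s i) ∧ NoFix (ran P' (fun i => (s i).toNat)) ∧
      ∃ Z' : ℕ, RegN B κ' θ (vf θ) Z Z' (fun i => (P' i).natDegree) (ran P' (fun i => (s i).toNat)) ∧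
        ε * (Z' * densN (fun i => (P' i).natDegree) (z - 1) Z' (ran P' (fun i => (s i).toNat))) <
        |(cnt (ran P' (fun i => (s i).toNat)) 1 Z' : ℝ) -
          Z' * densN (fun i => (P' i).natDegree) (z - 1) Z' (ran P' (fun i => (s i).toNat))|)
  have hβB : ∀ i, |β' i| ≤ (B : ℤ) * (Z : ℤ) ^ (P' i).natDegree := by
    intro i
    refine (hβ' i).trans (mul_le_mul_of_nonneg_right ?_ (by positivity))
    exact Int.ofNat_le.2 (by omega)
  have hz1 : ((z - 1 : ℕ) : ℝ) + 1 = z := by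
    rw [Nat.cast_sub hz, Nat.cast_one]
    ring
  have hmain := hfin Z (by omega) β' hβB (z - 1) (by
    refine le_trans ?_ hzZ
    exact_mod_cast Nat.sub_le z 1)
  rw [hz1] at hmain
  -- the injection
  have hYA : Y ≤ (A + AG) * Z ^ G.natDegree := by
    have h1 : (Y : ℝ) ≤ ((A + AG : ℕ) : ℝ) * (Z : ℝ) ^ G.natDegree := by
      refine k1.trans (mul_le_mul_of_nonneg_right ?_ (by positivity))
      exact_mod_cast Nat.le_add_left AG A
    exact_mod_cast h1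
  have hcard1 : ((Icc 1 Y ×ˢ BoxT A Z e).filter fun x : ℕ × (Fin d → ℤ) => κ * Y ≤ x.1 ∧ (∀ i, 0 ≤ b i + lf c x.2 i) ∧
        FailsP ε (famT P c b x.2) G x.1 z).card ≤
      ((BoxT (A + AG) Z e').filter fun t => (∀ i, 0 ≤ β i + lf c' t i) ∧
        NoFix (ran P' (fun i => (β i + lf c' t i).toNat)) ∧
      ∃ Z' : ℕ, RegN B κ' θ (vf θ) Z Z' (fun i => (P' i).natDegree) (ran P' (fun i => (β i + lf c' t i).toNat)) ∧
        ε * (Z' * densN (fun i => (P' i).natDegree) (z - 1) Z' (ran P' (fun i => (β i + lf c' t i).toNat))) <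
        |(cnt (ran P' (fun i => (β i + lf c' t i).toNat)) 1 Z' : ℝ) -
          Z' * densN (fun i => (P' i).natDegree) (z - 1) Z' (ran P' (fun i => (β i + lf c' t i).toNat))|).card := by
    refine card_le_card_of_injOn (fun x => (Fin.cons (x.1 : ℤ) x.2 : Fin (d + 1) → ℤ)) ?_ ?_
    · rintro ⟨N, t⟩ hx
      obtain ⟨hx1, hx2, hx3, hx4, hx5⟩ := mem_filter.1 (mem_coe.1 hx)
      obtain ⟨hN, ht⟩ := mem_product.1 hx1
      have hNY : N ≤ Y := (mem_Icc.1 hN).2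
      simp only at hx2 hx3 hx4 hx5 ht
      have hhe : (fun i => (β i + lf c' (Fin.cons (N : ℤ) t : Fin (d + 1) → ℤ) i).toNat) =
          (Fin.cons N (hh c b t) : Fin (g + 1) → ℕ) := by
        rw [← Z2_hh c b N t, hβ, hc']
        rfl
      obtain ⟨r1, r2, r3, r4, r5⟩ := hY4 Y N (by omega) hx2 hNY
      rw [← hZ] at r2 r3 r4 r5
      refine mem_coe.2 (mem_filter.2 ⟨?_, ?_, ?_⟩)
      · rw [he']
        exact z2_boxcons (hNY.trans hYA) (z2_box (by omega) ht)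
      · intro i
        rw [hβ, hc']
        refine Fin.cases ?_ (fun i => ?_) i
        · rw [Fin.cons_zero, z2_lf0]
          positivity
        · rw [Fin.cons_succ, z2_lfs]
          exact hx3 i
      · rw [hhe]
        have e0 : famT P c b t = Pool.Agent.H9P.famP P c b t := rfl
        have hterm := w19_term G P c b t N z hx3
        rw [e0] at hx4 hx5 hterm
        have hsys := w19_sys G P (hh c b t) N
        rw [← hP'] at hsys hterm
        have hnf := U17_noFix G P c b t N hx3 hx4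
        have hcnt := U17_cnt G P c b t N hx3 r1
        rw [hsys] at hnf hcnt
        refine ⟨hnf, argCount G N, ⟨r2, r3, ?_⟩, ?_⟩
        · intro n hn1 hn2
          have hs : ∀ i, 0 ≤ (((hh c b t i : ℕ) : ℤ)) ∧
              (((hh c b t i : ℕ) : ℤ)) ≤ ((A + A * S : ℕ) : ℤ) * (Z : ℤ) ^ (P i).natDegree := by
            intro i
            refine ⟨Int.natCast_nonneg _, ?_⟩
            unfold hh
            rw [Int.toNat_of_nonneg (hx3 i)]
            have e1 := (le_abs_self (b i)).trans (hb i)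
            have e2 := w19_lf c e i (P i).natDegree A Z (fun j hj => hD.blk i j hj) t ht
            have e4 : (∑ j, |c i j|) ≤ (S : ℤ) := by
              have e5 : (∑ j, (c i j).natAbs) ≤ S := by
                rw [hS]
                exact Finset.single_le_sum (f := fun i => ∑ j, (c i j).natAbs) (fun _ _ => Nat.zero_le _)
                  (Finset.mem_univ i)
              have e6 : ((∑ j, (c i j).natAbs : ℕ) : ℤ) = ∑ j, |c i j| := by
                push_cast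
                rfl
              rw [← e6]
              exact_mod_cast e5
            have hA0 : (0 : ℤ) ≤ A := Int.natCast_nonneg _
            have hZ0 : (0 : ℤ) ≤ (Z : ℤ) ^ (P i).natDegree := pow_nonneg (Int.natCast_nonneg _) _
            have e7 : (A : ℤ) * (∑ j, |c i j|) * (Z : ℤ) ^ (P i).natDegree ≤ (A : ℤ) * S * (Z : ℤ) ^ (P i).natDegree :=
              mul_le_mul_of_nonneg_right (mul_le_mul_of_nonneg_left e4 hA0) hZ0
            push_cast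
            nlinarith
          have hn3 : n ≤ argCount G N := by
            have h1 : (n : ℝ) ≤ argCount G N := by
              refine hn2.trans ?_
              have h2 : (0 : ℝ) ≤ (argCount G N : ℝ) := Nat.cast_nonneg _
              nlinarith
            exact_mod_cast h1
          have hBG : (AG : ℝ) ≤ B := by exact_mod_cast (by omega : AG ≤ B)
          have hB5 : (A5 : ℝ) ≤ B := by exact_mod_cast (by omega : A5 ≤ B)
          intro i
          rw [hP']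
          unfold ran
          refine Fin.cases ?_ (fun i => ?_) i
          · simp only [Fin.cons_zero]
            rw [natDegree_neg, eval_neg]
            obtain ⟨q1, q2⟩ := r4 n hn2
            have e1 : -eval (n : ℤ) G + (N : ℤ) = (N : ℤ) - eval (n : ℤ) G := by ring
            rw [e1]
            exact ⟨q1, q2.trans (mul_le_mul_of_nonneg_right hBG (by positivity))⟩
          · simp only [Fin.cons_succ]
            obtain ⟨q1, q2⟩ := r5 (fun i => ((hh c b t i : ℕ) : ℤ)) hs n hn1 hn3 i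
            exact ⟨q1, q2.trans (mul_le_mul_of_nonneg_right hB5 (by positivity))⟩
        · rw [hterm, hcnt] at hx5
          exact hx5
    · rintro ⟨N, t⟩ _ ⟨N', t'⟩ _ he
      have he' := Fin.cons_injective2 he
      exact Prod.ext (Int.natCast_inj.1 he'.1) he'.2
  -- from the box of `W16_box` to the box of the core theorem
  have hcard4 : ((tb 0 fun j => A3 * Z ^ e' j + 1).filter fun t => (∀ i, 0 ≤ β' i + lf c' t i) ∧
        NoFix (ran P' (fun i => (β' i + lf c' t i).toNat)) ∧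
      ∃ Z' : ℕ, RegN B κ' θ (vf θ) Z Z' (fun i => (P' i).natDegree) (ran P' (fun i => (β' i + lf c' t i).toNat)) ∧
        ε * (Z' * densN (fun i => (P' i).natDegree) (z - 1) Z' (ran P' (fun i => (β' i + lf c' t i).toNat))) <
        |(cnt (ran P' (fun i => (β' i + lf c' t i).toNat)) 1 Z' : ℝ) -
          Z' * densN (fun i => (P' i).natDegree) (z - 1) Z' (ran P' (fun i => (β' i + lf c' t i).toNat))|).card ≤
      ((tb 0 fun j => B * Z ^ e' j + 1).filter fun t => (∀ i, 0 ≤ β' i + lf c' t i) ∧ NoFix (ran P' (hh c' β' t)) ∧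
      ∃ Z' : ℕ, RegN B κ' θ (vf θ) Z Z' (fun i => (P' i).natDegree) (ran P' (hh c' β' t)) ∧
        ε * (Z' * densN (fun i => (P' i).natDegree) (z - 1) Z' (ran P' (hh c' β' t))) <
        |(cnt (ran P' (hh c' β' t)) 1 Z' : ℝ) - Z' * densN (fun i => (P' i).natDegree) (z - 1) Z' (ran P' (hh c' β' t))|).card := by
    refine card_le_card fun t ht => ?_
    rw [mem_filter] at ht ⊢
    refine ⟨?_, ht.2⟩
    have h1 := ht.1
    unfold tb at h1 ⊢
    rw [Fintype.mem_piFinset] at h1 ⊢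
    intro j
    have h2 := mem_Ico.1 (h1 j)
    refine mem_Ico.2 ⟨h2.1, lt_of_lt_of_le h2.2 ?_⟩
    have h3 : A3 * Z ^ e' j + 1 ≤ B * Z ^ e' j + 1 :=
      Nat.add_le_add_right (Nat.mul_le_mul_right _ (by omega)) 1
    have h4 : ((A3 * Z ^ e' j + 1 : ℕ) : ℤ) ≤ ((B * Z ^ e' j + 1 : ℕ) : ℤ) := Int.ofNat_le.2 h3
    simp only [Pi.zero_apply, zero_add]
    exact h4
  refine le_trans (Nat.cast_le.2 ((hcard1.trans hcard3).trans hcard4)) (hmain.trans ?_)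
  have hsum : (∑ j, (e' j : ℝ)) = (G.natDegree : ℝ) + ∑ j, (e j : ℝ) := by
    rw [he', Fin.sum_univ_succ]
    simp only [Fin.cons_zero, Fin.cons_succ]
  rw [hsum]
  rcases w19_num G.natDegree A B (by omega) (∑ j, (e j : ℝ)) AG C1 c0 Y Z z (Nat.cast_nonneg _) hC1 hZpos
    (Nat.cast_nonneg _) m2 m3 k2 with h | h
  · exact h
  · exact absurd h (not_lt.2 (Nat.cast_nonneg _))

end Pool.Agent.HLA
end

-- from Lib.HLA.W21
section

/-!
# LOGA, W21: one exceptional set for all levels of the singular series at once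
-/

open Finset Polynomial

namespace Pool.Agent.HLA

open Pool.Agent.HUP Pool.Agent.H9P
open Pool.Agent.Lib.H59

/-- few roots, any `G` -/
theorem w21_omega {g : ℕ} {F : Fin g → ℤ[X]} {G : ℤ[X]} {N : ℕ} (hG : 1 ≤ G.natDegree) (hadm : Admissible F G N) (D : ℕ)
    (hD : ∑ i, (F i).natDegree + G.natDegree ≤ D) {p : ℕ} (hp : p.Prime) : omegaN F G N p ≤ D := by
  refine (omegaN_le_sum F G N hp).trans (le_trans (Nat.add_le_add (sum_le_sum fun i _ => ?_) ?_) hD)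
  · exact rootCount_le_natDegree (w3_prim hadm i) hp
  · rw [← natDegree_C_sub' G N]
    exact rootCount_le_natDegree (hadm.1.isPrimitive (by rw [natDegree_C_sub']; omega)) hp

/-- the series at near levels, any `G` -/
theorem w21_near {g : ℕ} {F : Fin g → ℤ[X]} {G : ℤ[X]} {N : ℕ} (hadm : Admissible F G N) (D : ℕ)
    (hω : ∀ p : ℕ, p.Prime → omegaN F G N p ≤ D) (ε : ℝ) (hε : 0 < ε) (hε1 : ε ≤ 1) (z' z : ℕ) (hz : z' ≤ z)
    (hm : ((D : ℝ) + 2 * (g + 1)) * ((z : ℝ) - z') ≤ ε * z') (hz1 : (D : ℝ) + 2 * (g + 1) ≤ z') :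
    |seriesTrunc F G N z - seriesTrunc F G N z'| ≤ ε * seriesTrunc F G N z' := by
  classical
  have hz0 : (0 : ℝ) < z' := by
    have : (0 : ℝ) ≤ (D : ℝ) := Nat.cast_nonneg _
    have : (0 : ℝ) ≤ (g : ℝ) := Nat.cast_nonneg _
    linarith
  set B : Finset ℕ := (Nat.primesBelow z) \ (Nat.primesBelow z') with hB
  have hsub : Nat.primesBelow z' ⊆ Nat.primesBelow z := by
    intro p hp
    rw [Nat.mem_primesBelow] at hp ⊢
    exact ⟨by omega, hp.2⟩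
  set f : ℕ → ℝ := fun p => (1 - (omegaN F G N p : ℝ) / p) * ((1 - 1 / (p : ℝ)) ^ (g + 1))⁻¹ with hf
  have hprod : seriesTrunc F G N z = (∏ p ∈ B, f p) * seriesTrunc F G N z' := by
    unfold seriesTrunc
    rw [hB, Finset.prod_sdiff hsub]
  have hBz : ∀ p ∈ B, z' ≤ p ∧ p < z ∧ p.Prime := by
    intro p hp
    rw [hB, mem_sdiff, Nat.mem_primesBelow, Nat.mem_primesBelow] at hp
    refine ⟨?_, hp.1.1, hp.1.2⟩
    by_contra hcon
    exact hp.2 ⟨by omega, hp.1.2⟩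
  have hcard : (B.card : ℝ) ≤ (z : ℝ) - z' := by
    have h1 : B ⊆ Finset.Ico z' z := by
      intro p hp
      obtain ⟨h1, h2, -⟩ := hBz p hp
      rw [mem_Ico]
      exact ⟨h1, h2⟩
    have h2 := Finset.card_le_card h1
    rw [Nat.card_Ico] at h2
    have h3 : (B.card : ℝ) ≤ ((z - z' : ℕ) : ℝ) := by exact_mod_cast h2
    rwa [Nat.cast_sub hz] at h3
  have hD0 : (0 : ℝ) ≤ D := Nat.cast_nonneg _
  have hg0 : (0 : ℝ) ≤ g := Nat.cast_nonneg _
  -- bounds of the factors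
  have hlow : ∀ p ∈ B, 1 + -((D : ℝ) / z') ≤ f p := by
    intro p hp
    obtain ⟨h1, h2, h3⟩ := hBz p hp
    have hp1 : (1 : ℝ) < p := by exact_mod_cast h3.one_lt
    have hpz : (z' : ℝ) ≤ p := by exact_mod_cast h1
    have h4 : (omegaN F G N p : ℝ) ≤ D := by exact_mod_cast hω p h3
    have h5 : (omegaN F G N p : ℝ) / p ≤ D / z' := div_le_div₀ hD0 h4 hz0 hpz
    have h6 : (0 : ℝ) < 1 - 1 / (p : ℝ) := by
      rw [sub_pos, div_lt_one (by linarith)]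
      exact hp1
    have h7 : (1 - 1 / (p : ℝ)) ^ (g + 1) ≤ 1 := pow_le_one₀ h6.le (by
      have : (0 : ℝ) ≤ 1 / (p : ℝ) := by positivity
      linarith)
    have h8 : (1 : ℝ) ≤ ((1 - 1 / (p : ℝ)) ^ (g + 1))⁻¹ := (one_le_inv₀ (pow_pos h6 _)).2 h7
    have h9 : (0 : ℝ) ≤ 1 - (omegaN F G N p : ℝ) / p := by
      rw [sub_nonneg, div_le_one (by linarith)]
      exact_mod_cast (omegaN_lt hadm h3).le
    calc 1 + -((D : ℝ) / z') ≤ (1 - (omegaN F G N p : ℝ) / p) * 1 := by linarith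
      _ ≤ f p := mul_le_mul_of_nonneg_left h8 h9
  have hup : ∀ p ∈ B, f p ≤ ((1 + -(1 / (z' : ℝ))) ^ (g + 1))⁻¹ := by
    intro p hp
    obtain ⟨h1, h2, h3⟩ := hBz p hp
    have hp1 : (1 : ℝ) < p := by exact_mod_cast h3.one_lt
    have hpz : (z' : ℝ) ≤ p := by exact_mod_cast h1
    have hz2 : (1 : ℝ) < z' := by linarith
    have h5 : 1 / (p : ℝ) ≤ 1 / (z' : ℝ) := one_div_le_one_div_of_le hz0 hpz
    have h6 : (0 : ℝ) < 1 + -(1 / (z' : ℝ)) := by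
      have : 1 / (z' : ℝ) < 1 := by
        rw [div_lt_one hz0]
        exact hz2
      linarith
    have h7 : (1 + -(1 / (z' : ℝ))) ^ (g + 1) ≤ (1 - 1 / (p : ℝ)) ^ (g + 1) := pow_le_pow_left₀ h6.le (by linarith) _
    have h8 : ((1 - 1 / (p : ℝ)) ^ (g + 1))⁻¹ ≤ ((1 + -(1 / (z' : ℝ))) ^ (g + 1))⁻¹ :=
      inv_anti₀ (pow_pos h6 _) h7
    have h9 : (1 - (omegaN F G N p : ℝ) / p) ≤ 1 := by
      have : (0 : ℝ) ≤ (omegaN F G N p : ℝ) / p := by positivity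
      linarith
    have h10 : (0 : ℝ) ≤ ((1 - 1 / (p : ℝ)) ^ (g + 1))⁻¹ := by
      have : (0 : ℝ) ≤ 1 - 1 / (p : ℝ) := by
        have : 1 / (p : ℝ) ≤ 1 := by
          rw [div_le_one (by linarith)]
          exact hp1.le
        linarith
      positivity
    calc f p ≤ 1 * ((1 - 1 / (p : ℝ)) ^ (g + 1))⁻¹ := mul_le_mul_of_nonneg_right h9 h10
      _ = ((1 - 1 / (p : ℝ)) ^ (g + 1))⁻¹ := one_mul _
      _ ≤ _ := h8
  obtain ⟨m, hm'⟩ : ∃ m : ℕ, m = B.card := ⟨_, rfl⟩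
  have hmz : ((D : ℝ) + 2 * (g + 1)) * m ≤ ε * z' := by
    rw [hm']
    refine le_trans (mul_le_mul_of_nonneg_left hcard (by positivity)) hm
  have hDz : (D : ℝ) / z' ≤ 1 := by
    rw [div_le_one hz0]
    linarith
  have hT1 : 1 - ε ≤ ∏ p ∈ B, f p := by
    have h1 : (1 + -((D : ℝ) / z')) ^ m ≤ ∏ p ∈ B, f p := by
      rw [hm', ← Finset.prod_const]
      exact Finset.prod_le_prod (fun p _ => by linarith) hlow
    have h2 := one_add_mul_le_pow (show (-2 : ℝ) ≤ -((D : ℝ) / z') by linarith) m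
    have h3 : (m : ℝ) * ((D : ℝ) / z') ≤ ε := by
      rw [mul_div_assoc', div_le_iff₀ hz0]
      have : 0 ≤ (2 * ((g : ℝ) + 1)) * m := by positivity
      linarith
    have h4 : (1 : ℝ) + m * -((D : ℝ) / z') = 1 - m * ((D : ℝ) / z') := by ring
    rw [h4] at h2
    linarith
  have hT2 : ∏ p ∈ B, f p ≤ 1 + ε := by
    have hz2 : (1 : ℝ) < z' := by linarith
    have hiz : 1 / (z' : ℝ) < 1 := by
      rw [div_lt_one hz0]
      exact hz2
    have h1 : ∏ p ∈ B, f p ≤ (((1 + -(1 / (z' : ℝ))) ^ (g + 1))⁻¹) ^ m := by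
      rw [hm', ← Finset.prod_const]
      refine Finset.prod_le_prod (fun p hp => ?_) hup
      have := hlow p hp
      linarith
    have h2 : (((1 + -(1 / (z' : ℝ))) ^ (g + 1))⁻¹) ^ m = ((1 + -(1 / (z' : ℝ))) ^ ((g + 1) * m))⁻¹ := by
      rw [inv_pow, ← pow_mul]
    have h3 := one_add_mul_le_pow (show (-2 : ℝ) ≤ -(1 / (z' : ℝ)) by linarith) ((g + 1) * m)
    have h4 : (((g + 1) * m : ℕ) : ℝ) * (1 / (z' : ℝ)) ≤ ε / 2 := by
      rw [mul_one_div, div_le_iff₀ hz0]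
      push_cast
      have : 0 ≤ (D : ℝ) * m := by positivity
      nlinarith
    have h5 : (1 : ℝ) + (((g + 1) * m : ℕ) : ℝ) * -(1 / (z' : ℝ)) = 1 - (((g + 1) * m : ℕ) : ℝ) * (1 / (z' : ℝ)) := by ring
    rw [h5] at h3
    have h6 : 1 - ε / 2 ≤ (1 + -(1 / (z' : ℝ))) ^ ((g + 1) * m) := by linarith
    have h7 : (0 : ℝ) < 1 - ε / 2 := by linarith
    rw [h2] at h1
    refine h1.trans ((inv_anti₀ h7 h6).trans ?_)
    rw [inv_le_iff_one_le_mul₀ h7]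
    nlinarith
  have hS := w3_pos hadm z'
  rw [hprod]
  have e1 : (∏ p ∈ B, f p) * seriesTrunc F G N z' - seriesTrunc F G N z' =
      ((∏ p ∈ B, f p) - 1) * seriesTrunc F G N z' := by ring
  rw [e1, abs_mul, abs_of_pos hS]
  refine mul_le_mul_of_nonneg_right ?_ hS.le
  rw [abs_le]
  constructor <;> linarith

/-- From a level `z'` to a near level `z`. -/
theorem w21_fail {g : ℕ} (F : Fin g → ℤ[X]) (G : ℤ[X]) (N : ℕ) (hG : 1 ≤ G.natDegree) (D : ℕ)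
    (hD : ∑ i, (F i).natDegree + G.natDegree ≤ D) (ε ε' : ℝ) (hε : 0 < ε) (h0 : 0 < ε') (h1 : ε' ≤ 1 / 4) (h2 : ε' ≤ ε / 4)
    (z' z : ℕ) (hz : z' ≤ z) (hm : ((D : ℝ) + 2 * (g + 1)) * ((z : ℝ) - z') ≤ ε' * z') (hz1 : (D : ℝ) + 2 * (g + 1) ≤ z')
    (hF : FailsP ε F G N z) : FailsP ε' F G N z' := by
  obtain ⟨hadm, t⟩ := hF
  refine ⟨hadm, ?_⟩
  by_contra hcon
  rw [not_lt] at hcon
  have hnear := w21_near hadm D (fun p hp => w21_omega hG hadm D hD hp) ε' h0 (by linarith) z' z hz hm hz1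
  obtain ⟨K0, hK0⟩ : ∃ K0 : ℝ, K0 = (argCount G N : ℝ) / Real.log (argCount G N) ^ (g + 1) *
    ((G.natDegree : ℝ) * ∏ i, ((F i).natDegree : ℝ))⁻¹ := ⟨_, rfl⟩
  have hK0' : 0 ≤ K0 := by
    rw [hK0]
    have h5 : 0 ≤ Real.log (argCount G N) := Real.log_natCast_nonneg _
    positivity
  have m1 : ∀ y, mainTermP F G N y = K0 * seriesTrunc F G N y := by
    intro y
    rw [hK0]
    rfl
  rw [m1] at hcon t
  have hS' := w3_pos hadm z'
  obtain ⟨s', hs'⟩ : ∃ s' : ℝ, s' = seriesTrunc F G N z' := ⟨_, rfl⟩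
  obtain ⟨s, hs⟩ : ∃ s : ℝ, s = seriesTrunc F G N z := ⟨_, rfl⟩
  rw [← hs'] at hnear hcon hS'
  rw [← hs] at hnear t
  obtain ⟨n1, n2⟩ := abs_le.1 hnear
  obtain ⟨c1, c2⟩ := abs_le.1 hcon
  have k0 : 0 ≤ K0 * s' := mul_nonneg hK0' hS'.le
  have k1 : K0 * (s - s') ≤ K0 * (ε' * s') := mul_le_mul_of_nonneg_left n2 hK0'
  have k2 : K0 * (-(ε' * s')) ≤ K0 * (s - s') := mul_le_mul_of_nonneg_left n1 hK0'
  have k1' : K0 * s - K0 * s' ≤ ε' * (K0 * s') := by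
    rw [mul_sub] at k1
    have : K0 * (ε' * s') = ε' * (K0 * s') := by ring
    linarith
  have k2' : -(ε' * (K0 * s')) ≤ K0 * s - K0 * s' := by
    rw [mul_sub] at k2
    have : K0 * (-(ε' * s')) = -(ε' * (K0 * s')) := by ring
    linarith
  exact w3_fin _ (K0 * s') (K0 * s) ε ε' k0 hε h1 h2 c1 c2 k1' k2' t

/-- the grid `⌊z β^j⌋` -/
theorem w21_grid (β : ℝ) (hβ : 1 < β) (hβ2 : β ≤ 2) (z w : ℕ) (hz : 1 ≤ z) (hzw : z ≤ w) :
    ∃ j : ℕ, ((j : ℝ) * Real.log β ≤ Real.log w) ∧ ⌊(z : ℝ) * β ^ j⌋₊ ≤ w ∧ z ≤ ⌊(z : ℝ) * β ^ j⌋₊ ∧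
      (w : ℝ) ≤ β * ⌊(z : ℝ) * β ^ j⌋₊ + 2 := by
  have hz0 : (1 : ℝ) ≤ z := by exact_mod_cast hz
  have hw : (z : ℝ) ≤ w := by exact_mod_cast hzw
  have h1 : (1 : ℝ) ≤ w / z := by
    rw [one_le_div (by linarith)]
    exact hw
  obtain ⟨j, hj1, hj2⟩ := exists_nat_pow_near h1 hβ
  rw [le_div_iff₀ (by linarith)] at hj1
  rw [div_lt_iff₀ (by linarith)] at hj2
  have hp1 : (1 : ℝ) ≤ β ^ j := one_le_pow₀ hβ.le
  have hzp : (z : ℝ) ≤ z * β ^ j := le_mul_of_one_le_right (by linarith) hp1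
  have hfl : ((⌊(z : ℝ) * β ^ j⌋₊ : ℕ) : ℝ) ≤ z * β ^ j := Nat.floor_le (by linarith)
  have hfl2 : (z : ℝ) * β ^ j < (⌊(z : ℝ) * β ^ j⌋₊ : ℕ) + 1 := Nat.lt_floor_add_one _
  refine ⟨j, ?_, ?_, Nat.le_floor hzp, ?_⟩
  · have h2 : β ^ j ≤ w := by
      refine le_trans ?_ hj1
      exact le_mul_of_one_le_right (by linarith) hz0
    have h3 := Real.log_le_log (by linarith) h2
    rwa [Real.log_pow] at h3
  · have h2 : ((⌊(z : ℝ) * β ^ j⌋₊ : ℕ) : ℝ) ≤ w := by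
      rw [mul_comm] at hj1
      exact hfl.trans hj1
    exact_mod_cast h2
  · have h2 : β ^ (j + 1) * z = β * (z * β ^ j) := by ring
    rw [h2] at hj2
    nlinarith

open Classical in
/-- The union bound over the grid. -/
theorem w21_core {α : Type*} (S : Finset α) (X A : ℕ) (V C c0 K δ1 β : ℝ) (z1 : ℕ) (hV : 0 ≤ V) (hC : 0 ≤ C) (hc0 : 0 < c0)
    (hδ1 : 0 < δ1) (hβ : 1 < β) (hβ2 : β ≤ 2) (hX : 1 ≤ X) (hS : (S.card : ℝ) ≤ C * V)
    (hlog : δ1 / Real.log β + 2 ≤ Real.log X) (B B' : ℕ → α → Prop)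
    (hB : ∀ z : ℕ, 1 ≤ z → (z : ℝ) ≤ (X : ℝ) ^ δ1 → ((S.filter (B z)).card : ℝ) ≤
      V * ((Real.log X) ^ (-((A + 2 : ℕ) : ℝ)) + K * (z : ℝ) ^ (-c0)))
    (hBB : ∀ z w : ℕ, z1 ≤ z → z ≤ w → (w : ℝ) ≤ β * z + 2 → ∀ x, B' w x → B z x) (z : ℕ) (hz : 1 ≤ z) :
    ((S.filter fun x => ∃ w : ℕ, z ≤ w ∧ (w : ℝ) ≤ (X : ℝ) ^ δ1 ∧ B' w x).card : ℝ) ≤
      V * ((Real.log X) ^ (-(A : ℝ)) + (C * (z1 : ℝ) ^ c0 + max K 0 * (2 ^ c0 / (1 - β ^ (-c0)))) * (z : ℝ) ^ (-c0)) := by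
  have hlβ : 0 < Real.log β := Real.log_pos hβ
  have hβ0 : (0 : ℝ) < β := by linarith
  have hXr : (1 : ℝ) ≤ X := by exact_mod_cast hX
  have hdl : 0 < δ1 / Real.log β := by positivity
  have hL2 : 2 ≤ Real.log X := by linarith
  have hL0 : 0 < Real.log X := by linarith
  have hzr : (1 : ℝ) ≤ z := by exact_mod_cast hz
  have hz0 : (0 : ℝ) < z := by linarith
  have hq1 : β ^ (-c0) < 1 := Real.rpow_lt_one_of_one_lt_of_neg hβ (by linarith)
  have hq0 : 0 < β ^ (-c0) := Real.rpow_pos_of_pos hβ0 _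
  have hM0 : 0 ≤ max K 0 := le_max_right _ _
  have hR0 : 0 ≤ max K 0 * (2 ^ c0 / (1 - β ^ (-c0))) := by
    refine mul_nonneg hM0 (div_nonneg (by positivity) (by linarith))
  have hLA : 0 ≤ (Real.log X) ^ (-(A : ℝ)) := Real.rpow_nonneg hL0.le _
  have hzc : 0 < (z : ℝ) ^ (-c0) := Real.rpow_pos_of_pos hz0 _
  rcases lt_or_ge z z1 with hcase | hcase
  · -- small `z`: trivial
    have h1 : ((S.filter fun x => ∃ w : ℕ, z ≤ w ∧ (w : ℝ) ≤ (X : ℝ) ^ δ1 ∧ B' w x).card : ℝ) ≤ C * V :=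
      le_trans (by exact_mod_cast card_le_card (filter_subset _ _)) hS
    have h2 : 1 ≤ (z1 : ℝ) ^ c0 * (z : ℝ) ^ (-c0) := by
      rw [Real.rpow_neg hz0.le, ← div_eq_mul_inv, one_le_div (Real.rpow_pos_of_pos hz0 _)]
      refine Real.rpow_le_rpow hz0.le ?_ hc0.le
      exact_mod_cast hcase.le
    calc ((S.filter fun x => ∃ w : ℕ, z ≤ w ∧ (w : ℝ) ≤ (X : ℝ) ^ δ1 ∧ B' w x).card : ℝ) ≤ V * (C * 1) := by linarith
      _ ≤ V * (C * ((z1 : ℝ) ^ c0 * (z : ℝ) ^ (-c0))) :=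
          mul_le_mul_of_nonneg_left (mul_le_mul_of_nonneg_left h2 hC) hV
      _ ≤ V * ((Real.log X) ^ (-(A : ℝ)) + (C * (z1 : ℝ) ^ c0 + max K 0 * (2 ^ c0 / (1 - β ^ (-c0)))) * (z : ℝ) ^ (-c0)) := by
          refine mul_le_mul_of_nonneg_left ?_ hV
          have h3 := mul_nonneg hR0 hzc.le
          nlinarith
  · -- the grid
    obtain ⟨J, hJ⟩ : ∃ J : ℕ, J = ⌊δ1 * Real.log X / Real.log β⌋₊ + 1 := ⟨_, rfl⟩
    have hJle : (J : ℝ) ≤ Real.log X ^ 2 := by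
      rw [hJ]
      push_cast
      have h1 : ((⌊δ1 * Real.log X / Real.log β⌋₊ : ℕ) : ℝ) ≤ δ1 * Real.log X / Real.log β := Nat.floor_le (by positivity)
      have h2 : δ1 * Real.log X / Real.log β = δ1 / Real.log β * Real.log X := by ring
      have h3 := h1.trans_eq h2
      nlinarith
    set g : ℕ → ℕ := fun j => ⌊(z : ℝ) * β ^ j⌋₊ with hg
    set T : ℕ → Finset α := fun j => if ((g j : ℕ) : ℝ) ≤ (X : ℝ) ^ δ1 then S.filter (B (g j)) else ∅ with hT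
    have hgz : ∀ j, z ≤ g j := by
      intro j
      refine Nat.le_floor ?_
      exact le_mul_of_one_le_right (by linarith) (one_le_pow₀ hβ.le)
    have hgc : ∀ j, ((g j : ℕ) : ℝ) ^ (-c0) ≤ 2 ^ c0 * (z : ℝ) ^ (-c0) * (β ^ (-c0)) ^ j := by
      intro j
      have hy1 : (1 : ℝ) ≤ z * β ^ j := by
        have := one_le_pow₀ (n := j) hβ.le
        nlinarith
      have hy2 : (z : ℝ) * β ^ j / 2 ≤ (g j : ℕ) := by
        have h1 : (z : ℝ) * β ^ j < (⌊(z : ℝ) * β ^ j⌋₊ : ℕ) + 1 := Nat.lt_floor_add_one _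
        have h2 : (1 : ℝ) ≤ (⌊(z : ℝ) * β ^ j⌋₊ : ℕ) := by
          have := hgz j
          exact_mod_cast hz.trans this
        show (z : ℝ) * β ^ j / 2 ≤ (⌊(z : ℝ) * β ^ j⌋₊ : ℕ)
        linarith
      have hy3 : (0 : ℝ) < z * β ^ j / 2 := by positivity
      have h3 : ((g j : ℕ) : ℝ) ^ (-c0) ≤ ((z : ℝ) * β ^ j / 2) ^ (-c0) :=
        Real.rpow_le_rpow_of_nonpos hy3 hy2 (by linarith)
      refine h3.trans (le_of_eq ?_)
      rw [Real.div_rpow (by positivity) (by norm_num), Real.mul_rpow hz0.le (by positivity), Real.rpow_neg (by norm_num : (0 : ℝ) ≤ 2) c0,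
        div_inv_eq_mul, ← Real.rpow_natCast β j, ← Real.rpow_mul hβ0.le, ← Real.rpow_natCast (β ^ (-c0)) j, ← Real.rpow_mul hβ0.le,
        mul_comm (j : ℝ) (-c0)]
      ring
    have hTc : ∀ j, ((T j).card : ℝ) ≤ V * ((Real.log X) ^ (-((A + 2 : ℕ) : ℝ)) +
        max K 0 * (2 ^ c0 * (z : ℝ) ^ (-c0) * (β ^ (-c0)) ^ j)) := by
      intro j
      have hLA2 : 0 ≤ (Real.log X) ^ (-((A + 2 : ℕ) : ℝ)) := Real.rpow_nonneg hL0.le _
      rw [hT]
      simp only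
      split_ifs with h1
      · refine (hB (g j) (hz.trans (hgz j)) h1).trans (mul_le_mul_of_nonneg_left ?_ hV)
        refine add_le_add le_rfl ?_
        have h2 : (0 : ℝ) ≤ ((g j : ℕ) : ℝ) ^ (-c0) := Real.rpow_nonneg (Nat.cast_nonneg _) _
        calc K * ((g j : ℕ) : ℝ) ^ (-c0) ≤ max K 0 * ((g j : ℕ) : ℝ) ^ (-c0) :=
              mul_le_mul_of_nonneg_right (le_max_left _ _) h2
          _ ≤ _ := mul_le_mul_of_nonneg_left (hgc j) hM0
      · rw [card_empty, Nat.cast_zero]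
        positivity
    have hsub : (S.filter fun x => ∃ w : ℕ, z ≤ w ∧ (w : ℝ) ≤ (X : ℝ) ^ δ1 ∧ B' w x) ⊆ (range J).biUnion T := by
      intro x hx
      rw [mem_filter] at hx
      obtain ⟨x1, w, w1, w2, w3⟩ := hx
      obtain ⟨j, j1, j2, j3, j4⟩ := w21_grid β hβ hβ2 z w hz w1
      have hgX : ((g j : ℕ) : ℝ) ≤ (X : ℝ) ^ δ1 := le_trans (by exact_mod_cast j2) w2
      have hwr : (1 : ℝ) ≤ w := by exact_mod_cast hz.trans w1
      rw [mem_biUnion]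
      refine ⟨j, ?_, ?_⟩
      · rw [mem_range, hJ, Nat.lt_succ_iff]
        refine Nat.le_floor ?_
        rw [le_div_iff₀ hlβ]
        refine j1.trans ?_
        have h2 := Real.log_le_log (by linarith) w2
        rwa [Real.log_rpow (by linarith)] at h2
      · rw [hT]
        simp only
        rw [if_pos hgX, mem_filter]
        exact ⟨x1, hBB (g j) w (hcase.trans j3) j2 j4 x w3⟩
    have hgeo : ∑ j ∈ range J, (β ^ (-c0)) ^ j ≤ 1 / (1 - β ^ (-c0)) := by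
      have h1 := (summable_geometric_of_lt_one hq0.le hq1).sum_le_tsum (range J) (fun i _ => pow_nonneg hq0.le i)
      rw [tsum_geometric_of_lt_one hq0.le hq1] at h1
      rw [one_div]
      exact h1
    calc ((S.filter fun x => ∃ w : ℕ, z ≤ w ∧ (w : ℝ) ≤ (X : ℝ) ^ δ1 ∧ B' w x).card : ℝ)
        ≤ (((range J).biUnion T).card : ℝ) := by exact_mod_cast card_le_card hsub
      _ ≤ ∑ j ∈ range J, ((T j).card : ℝ) := by exact_mod_cast card_biUnion_le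
      _ ≤ ∑ j ∈ range J, V * ((Real.log X) ^ (-((A + 2 : ℕ) : ℝ)) + max K 0 * (2 ^ c0 * (z : ℝ) ^ (-c0) * (β ^ (-c0)) ^ j)) :=
          sum_le_sum fun j _ => hTc j
      _ = V * (J * (Real.log X) ^ (-((A + 2 : ℕ) : ℝ)) + max K 0 * (2 ^ c0 * (z : ℝ) ^ (-c0)) * ∑ j ∈ range J, (β ^ (-c0)) ^ j) := by
          rw [← Finset.mul_sum, sum_add_distrib, sum_const, card_range, nsmul_eq_mul, Finset.mul_sum]
          congr 2
          refine sum_congr rfl fun j _ => ?_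
          ring
      _ ≤ V * ((Real.log X) ^ (-(A : ℝ)) + max K 0 * (2 ^ c0 * (z : ℝ) ^ (-c0)) * (1 / (1 - β ^ (-c0)))) := by
          refine mul_le_mul_of_nonneg_left (add_le_add ?_ ?_) hV
          · have h1 : (Real.log X) ^ (-(A : ℝ)) = Real.log X ^ 2 * (Real.log X) ^ (-((A + 2 : ℕ) : ℝ)) := by
              rw [← Real.rpow_natCast (Real.log X) 2, ← Real.rpow_add hL0]
              congr 1
              push_cast
              ring
            rw [h1]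
            exact mul_le_mul_of_nonneg_right hJle (Real.rpow_nonneg hL0.le _)
          · exact mul_le_mul_of_nonneg_left hgeo (by positivity)
      _ ≤ V * ((Real.log X) ^ (-(A : ℝ)) + (C * (z1 : ℝ) ^ c0 + max K 0 * (2 ^ c0 / (1 - β ^ (-c0)))) * (z : ℝ) ^ (-c0)) := by
          refine mul_le_mul_of_nonneg_left (add_le_add le_rfl ?_) hV
          have h2 : 0 ≤ C * (z1 : ℝ) ^ c0 * (z : ℝ) ^ (-c0) := by positivity
          have h3 : max K 0 * (2 ^ c0 * (z : ℝ) ^ (-c0)) * (1 / (1 - β ^ (-c0))) =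
            max K 0 * (2 ^ c0 / (1 - β ^ (-c0))) * (z : ℝ) ^ (-c0) := by ring
          rw [h3]
          linarith

/-- the number of the points of the box -/
theorem w21_box {d : ℕ} (A X : ℕ) (hX : 1 ≤ X) (e : Fin d → ℕ) :
    ((BoxT A X e).card : ℝ) ≤ (2 * A + 1 : ℝ) ^ d * (X : ℝ) ^ (∑ j, (e j : ℝ)) := by
  have hXr : (1 : ℝ) ≤ X := by exact_mod_cast hX
  unfold BoxT
  rw [Fintype.card_piFinset]
  push_cast
  have h1 : ∀ j : Fin d, (((Icc (-((A * X ^ e j : ℕ) : ℤ)) ((A * X ^ e j : ℕ) : ℤ)).card : ℕ) : ℝ) ≤ (2 * A + 1) * (X : ℝ) ^ (e j : ℝ) := by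
    intro j
    rw [Int.card_Icc, Real.rpow_natCast]
    have h2 : (((A * X ^ e j : ℕ) : ℤ) + 1 - -((A * X ^ e j : ℕ) : ℤ)).toNat = 2 * (A * X ^ e j) + 1 := by omega
    rw [h2]
    push_cast
    have h3 : (1 : ℝ) ≤ (X : ℝ) ^ e j := one_le_pow₀ hXr
    nlinarith
  have h2 : ∏ j : Fin d, (((Icc (-((A * X ^ e j : ℕ) : ℤ)) ((A * X ^ e j : ℕ) : ℤ)).card : ℕ) : ℝ) ≤
      ∏ j : Fin d, ((2 * A + 1) * (X : ℝ) ^ (e j : ℝ)) :=
    Finset.prod_le_prod (fun j _ => Nat.cast_nonneg _) fun j _ => h1 j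
  have h3 : ∏ j : Fin d, ((2 * A + 1) * (X : ℝ) ^ (e j : ℝ)) = (2 * A + 1 : ℝ) ^ d * (X : ℝ) ^ (∑ j, (e j : ℝ)) := by
    rw [Finset.prod_mul_distrib, Finset.prod_const, Finset.card_univ, Fintype.card_fin, Real.rpow_sum_of_pos (by linarith)]
  rw [← h3]
  push_cast at h2
  exact h2

/-- the constants: from `ε` to `ε'`, the ratio `β` of the grid and the threshold `z1` -/
theorem w21_par (D g : ℕ) (ε : ℝ) (hε : 0 < ε) : ∃ (ε' β : ℝ) (z1 : ℕ), 0 < ε' ∧ ε' ≤ 1 / 4 ∧ ε' ≤ ε / 4 ∧ 1 < β ∧ β ≤ 2 ∧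
    ∀ z w : ℕ, z1 ≤ z → z ≤ w → (w : ℝ) ≤ β * z + 2 →
      ((D : ℝ) + 2 * (g + 1)) * ((w : ℝ) - z) ≤ ε' * z ∧ (D : ℝ) + 2 * (g + 1) ≤ z := by
  obtain ⟨ε', hε'⟩ : ∃ ε' : ℝ, ε' = min ε 1 / 4 := ⟨_, rfl⟩
  have hε0 : 0 < ε' := by
    rw [hε']
    have := lt_min hε one_pos
    linarith
  have hε1 : ε' ≤ 1 / 4 := by
    rw [hε']
    have := min_le_right ε 1
    linarith
  have hε2 : ε' ≤ ε / 4 := by
    rw [hε']
    have := min_le_left ε 1
    linarith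
  obtain ⟨E, hE⟩ : ∃ E : ℝ, E = (D : ℝ) + 2 * (g + 1) := ⟨_, rfl⟩
  have hE1 : 1 ≤ E := by
    rw [hE]
    have h1 : (0 : ℝ) ≤ D := Nat.cast_nonneg _
    have h2 : (0 : ℝ) ≤ g := Nat.cast_nonneg _
    linarith
  obtain ⟨κ, hκ⟩ : ∃ κ : ℝ, κ = ε' / (2 * E) := ⟨_, rfl⟩
  have hκ0 : 0 < κ := by
    rw [hκ]
    positivity
  have hκ1 : κ ≤ 1 := by
    rw [hκ, div_le_one (by positivity)]
    linarith
  have hEκ : E * κ = ε' / 2 := by
    rw [hκ]
    field_simp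
  refine ⟨ε', 1 + κ, ⌈E + 4 * E / ε'⌉₊, hε0, hε1, hε2, by linarith, by linarith, fun z w hz hzw hw => ?_⟩
  have hz' : E + 4 * E / ε' ≤ z := (Nat.le_ceil _).trans (by exact_mod_cast hz)
  have h4 : 0 < 4 * E / ε' := by positivity
  rw [← hE]
  constructor
  · have h5 : (w : ℝ) - z ≤ κ * z + 2 := by linarith
    have h6 : E * ((w : ℝ) - z) ≤ E * (κ * z + 2) := mul_le_mul_of_nonneg_left h5 (by linarith)
    have h7 : E * (κ * z + 2) = ε' / 2 * z + 2 * E := by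
      rw [← hEκ]
      ring
    have h8 : 2 * E ≤ ε' / 2 * z := by
      have h9 : 4 * E / ε' ≤ z := by linarith
      rw [div_le_iff₀ hε0] at h9
      linarith
    linarith
  · linarith

/-- monotone boxes -/
theorem w21_mono {d : ℕ} (A A' X : ℕ) (hA : A ≤ A') (e : Fin d → ℕ) : BoxT A X e ⊆ BoxT A' X e := by
  unfold BoxT
  refine Fintype.piFinset_subset _ _ fun j => Icc_subset_Icc ?_ ?_
  · have : A * X ^ e j ≤ A' * X ^ e j := Nat.mul_le_mul_right _ hA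
    omega
  · have : A * X ^ e j ≤ A' * X ^ e j := Nat.mul_le_mul_right _ hA
    omega

/-- monotone bounds of the constant terms -/
theorem w21_bmono {g : ℕ} (P : Fin g → ℤ[X]) (A A' X : ℕ) (hA : A ≤ A') (b : Fin g → ℤ)
    (hb : ∀ i, |b i| ≤ A * (X : ℤ) ^ (P i).natDegree) (i : Fin g) : |b i| ≤ A' * (X : ℤ) ^ (P i).natDegree := by
  refine (hb i).trans (mul_le_mul_of_nonneg_right ?_ (by positivity))
  exact_mod_cast hA

/-- degrees -/
theorem w21_deg {g d : ℕ} (P : Fin g → ℤ[X]) (c : Fin g → Fin d → ℤ) (b : Fin g → ℤ) (t : Fin d → ℤ) :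
    ∑ i, (famT P c b t i).natDegree = ∑ i, (P i).natDegree := by
  refine sum_congr rfl fun i _ => ?_
  unfold famT
  rw [natDegree_add_C]

/-- **W17 for all levels at once.** -/
theorem W21_17 (hC : ACoreAll) {g d : ℕ} (G : ℤ[X]) (hG : G.natDegree = 1) (hl : 0 < G.leadingCoeff)
    (P : Fin g → ℤ[X]) (hP : ∀ i, 0 < (P i).leadingCoeff) (c : Fin g → Fin d → ℤ) (e : Fin d → ℕ)
    (hD : Dat c e (fun i => (P i).natDegree) (fun i => (P i).leadingCoeff)) :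
    open Classical in ∃ δ1 : ℝ, 0 < δ1 ∧ ∀ A : ℕ, ∃ c0 : ℝ, 0 < c0 ∧ ∀ ε : ℝ, 0 < ε → ∃ (K : ℝ) (N0 : ℕ), ∀ N : ℕ, N0 ≤ N →
      ∀ b : Fin g → ℤ, (∀ i, |b i| ≤ A * (argCount G N : ℤ) ^ (P i).natDegree) → ∀ z : ℕ, 1 ≤ z → (z : ℝ) ≤ (argCount G N : ℝ) ^ δ1 →
      (((BoxT A (argCount G N) e).filter fun t => (∀ i, 0 ≤ b i + lf c t i) ∧ ∃ z' : ℕ, z ≤ z' ∧
        (z' : ℝ) ≤ (argCount G N : ℝ) ^ δ1 ∧ FailsP ε (famT P c b t) G N z').card : ℝ) ≤
        (argCount G N : ℝ) ^ (∑ j, (e j : ℝ)) * ((Real.log (argCount G N)) ^ (-(A : ℝ)) + K * (z : ℝ) ^ (-c0)) := by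
  classical
  obtain ⟨δ1, hδ1, h⟩ := W17_main hC G hG hl P hP c e hD
  refine ⟨δ1, hδ1, fun A => ?_⟩
  obtain ⟨c0, hc0, h1⟩ := h (A + 2)
  refine ⟨c0, hc0, fun ε hε => ?_⟩
  obtain ⟨ε', β, z1, he0, he1, he2, hβ, hβ2, hpar⟩ := w21_par (∑ i, (P i).natDegree + G.natDegree) g ε hε
  obtain ⟨K, N0, h2⟩ := h1 ε' he0
  have hZt := Pool.Agent.Lib.H59.argCount_tendsto (G := G) (by rw [hG]) hl
  have hLt : Filter.Tendsto (fun N : ℕ => Real.log (argCount G N : ℝ)) Filter.atTop Filter.atTop :=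
    Real.tendsto_log_atTop.comp (tendsto_natCast_atTop_atTop.comp hZt)
  obtain ⟨N1, hN1⟩ := Filter.eventually_atTop.1 ((hZt.eventually_ge_atTop 1).and (hLt.eventually_ge_atTop (δ1 / Real.log β + 2)))
  refine ⟨(2 * A + 1 : ℝ) ^ d * (z1 : ℝ) ^ c0 + max K 0 * (2 ^ c0 / (1 - β ^ (-c0))), N0 + N1, fun N hN b hb z hz hz2 => ?_⟩
  obtain ⟨n1, n2⟩ := hN1 N (by omega)
  have hX1 : (1 : ℝ) ≤ argCount G N := by exact_mod_cast n1
  have key := w21_core ((BoxT A (argCount G N) e).filter fun t => ∀ i, 0 ≤ b i + lf c t i) (argCount G N) A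
    ((argCount G N : ℝ) ^ (∑ j, (e j : ℝ))) ((2 * A + 1 : ℝ) ^ d) c0 K δ1 β z1 (by positivity) (by positivity) hc0 hδ1 hβ hβ2 n1
    (le_trans (by exact_mod_cast card_le_card (filter_subset _ _)) (w21_box A (argCount G N) n1 e)) n2
    (fun z t => FailsP ε' (famT P c b t) G N z) (fun z t => FailsP ε (famT P c b t) G N z)
    (fun y hy1 hy2 => by
      refine le_trans ?_ (h2 N (by omega) b (w21_bmono P A (A + 2) _ (by omega) b hb) y hy1 hy2)
      rw [filter_filter]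
      exact_mod_cast card_le_card (filter_subset_filter _ (w21_mono A (A + 2) _ (by omega) e)))
    (fun y w hy hyw hw t ht => by
      obtain ⟨k1, k2⟩ := hpar y w hy hyw hw
      exact w21_fail _ G N (by omega) _ (by rw [w21_deg]) ε ε' hε he0 he1 he2 y w hyw k1 k2 ht) z hz
  rw [filter_filter] at key
  exact key

/-- the number of the pairs -/
theorem w21_pairs {d : ℕ} (A X Y : ℕ) (hX : 1 ≤ X) (e : Fin d → ℕ) (R : ℕ × (Fin d → ℤ) → Prop) [DecidablePred R] :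
    ((((Icc 1 Y ×ˢ BoxT A X e).filter R).card : ℕ) : ℝ) ≤ (2 * A + 1 : ℝ) ^ d * (Y * (X : ℝ) ^ (∑ j, (e j : ℝ))) := by
  have h1 : (((Icc 1 Y ×ˢ BoxT A X e).filter R).card : ℝ) ≤ ((Y * (BoxT A X e).card : ℕ) : ℝ) := by
    refine Nat.cast_le.2 (le_trans (card_le_card (filter_subset _ _)) ?_)
    rw [card_product, Nat.card_Icc, Nat.add_sub_cancel]
  refine h1.trans ?_
  push_cast
  have h2 := mul_le_mul_of_nonneg_left (w21_box A X hX e) (Nat.cast_nonneg (α := ℝ) Y)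
  refine h2.trans (le_of_eq ?_)
  ring

/-- **W19 for all levels at once.** -/
theorem W21_19 (hC : NCoreAll) {g d : ℕ} (G : ℤ[X]) (hG : 1 ≤ G.natDegree) (hl : 0 < G.leadingCoeff)
    (P : Fin g → ℤ[X]) (hP : ∀ i, 0 < (P i).leadingCoeff) (c : Fin g → Fin d → ℤ) (e : Fin d → ℕ)
    (hD : Dat c e (fun i => (P i).natDegree) (fun i => (P i).leadingCoeff)) :
    open Classical in ∃ δ1 : ℝ, 0 < δ1 ∧ ∀ A : ℕ, ∃ c0 : ℝ, 0 < c0 ∧ ∀ ε κ : ℝ, 0 < ε → 0 < κ → ∃ (K : ℝ) (Y0 : ℕ), ∀ Y : ℕ, Y0 ≤ Y →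
      ∀ b : Fin g → ℤ, (∀ i, |b i| ≤ A * (argCount G Y : ℤ) ^ (P i).natDegree) → ∀ z : ℕ, 1 ≤ z → (z : ℝ) ≤ (argCount G Y : ℝ) ^ δ1 →
      (((Icc 1 Y ×ˢ BoxT A (argCount G Y) e).filter fun x : ℕ × (Fin d → ℤ) => κ * Y ≤ x.1 ∧ (∀ i, 0 ≤ b i + lf c x.2 i) ∧
        ∃ z' : ℕ, z ≤ z' ∧ (z' : ℝ) ≤ (argCount G Y : ℝ) ^ δ1 ∧ FailsP ε (famT P c b x.2) G x.1 z').card : ℝ) ≤
        Y * (argCount G Y : ℝ) ^ (∑ j, (e j : ℝ)) * ((Real.log (argCount G Y)) ^ (-(A : ℝ)) + K * (z : ℝ) ^ (-c0)) := by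
  classical
  obtain ⟨δ1, hδ1, h⟩ := W19_main hC G hG hl P hP c e hD
  refine ⟨δ1, hδ1, fun A => ?_⟩
  obtain ⟨c0, hc0, h1⟩ := h (A + 2)
  refine ⟨c0, hc0, fun ε κ hε hκ => ?_⟩
  obtain ⟨ε', β, z1, he0, he1, he2, hβ, hβ2, hpar⟩ := w21_par (∑ i, (P i).natDegree + G.natDegree) g ε hε
  obtain ⟨K, N0, h2⟩ := h1 ε' κ he0 hκ
  have hZt := Pool.Agent.Lib.H59.argCount_tendsto (G := G) hG hl
  have hLt : Filter.Tendsto (fun N : ℕ => Real.log (argCount G N : ℝ)) Filter.atTop Filter.atTop :=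
    Real.tendsto_log_atTop.comp (tendsto_natCast_atTop_atTop.comp hZt)
  obtain ⟨N1, hN1⟩ := Filter.eventually_atTop.1 ((hZt.eventually_ge_atTop 1).and (hLt.eventually_ge_atTop (δ1 / Real.log β + 2)))
  refine ⟨(2 * A + 1 : ℝ) ^ d * (z1 : ℝ) ^ c0 + max K 0 * (2 ^ c0 / (1 - β ^ (-c0))), N0 + N1, fun Y hY b hb z hz hz2 => ?_⟩
  obtain ⟨n1, n2⟩ := hN1 Y (by omega)
  have hX1 : (1 : ℝ) ≤ argCount G Y := by exact_mod_cast n1
  have key := w21_core ((Icc 1 Y ×ˢ BoxT A (argCount G Y) e).filter fun x : ℕ × (Fin d → ℤ) => κ * Y ≤ x.1 ∧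
      ∀ i, 0 ≤ b i + lf c x.2 i) (argCount G Y) A
    (Y * (argCount G Y : ℝ) ^ (∑ j, (e j : ℝ))) ((2 * A + 1 : ℝ) ^ d) c0 K δ1 β z1 (by positivity) (by positivity) hc0 hδ1 hβ hβ2 n1
    (w21_pairs A (argCount G Y) Y n1 e _) n2
    (fun z x => FailsP ε' (famT P c b x.2) G x.1 z) (fun z x => FailsP ε (famT P c b x.2) G x.1 z)
    (fun y hy1 hy2 => by
      refine le_trans ?_ (h2 Y (by omega) b (w21_bmono P A (A + 2) _ (by omega) b hb) y hy1 hy2)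
      rw [filter_filter]
      refine Nat.cast_le.2 (card_le_card fun x hx => ?_)
      rw [mem_filter, mem_product] at hx ⊢
      exact ⟨⟨hx.1.1, w21_mono A (A + 2) _ (by omega) e hx.1.2⟩, hx.2.1.1, hx.2.1.2, hx.2.2⟩)
    (fun y w hy hyw hw x hx => by
      obtain ⟨k1, k2⟩ := hpar y w hy hyw hw
      exact w21_fail _ G x.1 hG _ (by rw [w21_deg]) ε ε' hε he0 he1 he2 y w hyw k1 k2 hx) z hz
  rw [filter_filter] at key
  refine le_trans (Nat.cast_le.2 (card_le_card fun x hx => ?_)) key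
  rw [mem_filter] at hx ⊢
  exact ⟨hx.1, ⟨hx.2.1, hx.2.2.1⟩, hx.2.2.2⟩

/-- **W18 for all levels at once.** -/
theorem W21_18 (hC : ACoreAll) {g d : ℕ} (G : ℤ[X]) (hG : 1 ≤ G.natDegree) (hl : 0 < G.leadingCoeff)
    (P : Fin g → ℤ[X]) (hP : ∀ i, 0 < (P i).leadingCoeff) (c : Fin g → Fin d → ℤ) (e : Fin d → ℕ)
    (hD : Dat c e (fun i => (P i).natDegree) (fun i => (P i).leadingCoeff))
    (F₀ : ℤ[X]) (hF : F₀.natDegree = 1) (hF0 : 0 < F₀.leadingCoeff) :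
    open Classical in ∃ δ1 : ℝ, 0 < δ1 ∧ ∀ A : ℕ, ∃ c0 : ℝ, 0 < c0 ∧ ∀ ε κ : ℝ, 0 < ε → 0 < κ → ∃ (K : ℝ) (Y0 : ℕ), ∀ Y : ℕ, Y0 ≤ Y →
      ∀ b : Fin g → ℤ, (∀ i, |b i| ≤ A * (argCount G Y : ℤ) ^ (P i).natDegree) → ∀ z : ℕ, 1 ≤ z → (z : ℝ) ≤ (argCount G Y : ℝ) ^ δ1 →
      (((Icc 1 Y ×ˢ BoxT A (argCount G Y) e).filter fun x : ℕ × (Fin d → ℤ) => κ * Y ≤ x.1 ∧ (∀ i, 0 ≤ b i + lf c x.2 i) ∧
        ∃ z' : ℕ, z ≤ z' ∧ (z' : ℝ) ≤ (argCount G Y : ℝ) ^ δ1 ∧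
          FailsP ε (Fin.cons F₀ (famT P c b x.2) : Fin (g + 1) → ℤ[X]) G x.1 z').card : ℝ) ≤
        Y * (argCount G Y : ℝ) ^ (∑ j, (e j : ℝ)) * ((Real.log (argCount G Y)) ^ (-(A : ℝ)) + K * (z : ℝ) ^ (-c0)) := by
  classical
  obtain ⟨δ1, hδ1, h⟩ := W18_main hC G hG hl P hP c e hD F₀ hF hF0
  refine ⟨δ1, hδ1, fun A => ?_⟩
  obtain ⟨c0, hc0, h1⟩ := h (A + 2)
  refine ⟨c0, hc0, fun ε κ hε hκ => ?_⟩
  obtain ⟨ε', β, z1, he0, he1, he2, hβ, hβ2, hpar⟩ := w21_par (1 + ∑ i, (P i).natDegree + G.natDegree) (g + 1) ε hε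
  obtain ⟨K, N0, h2⟩ := h1 ε' κ he0 hκ
  have hZt := Pool.Agent.Lib.H59.argCount_tendsto (G := G) hG hl
  have hLt : Filter.Tendsto (fun N : ℕ => Real.log (argCount G N : ℝ)) Filter.atTop Filter.atTop :=
    Real.tendsto_log_atTop.comp (tendsto_natCast_atTop_atTop.comp hZt)
  obtain ⟨N1, hN1⟩ := Filter.eventually_atTop.1 ((hZt.eventually_ge_atTop 1).and (hLt.eventually_ge_atTop (δ1 / Real.log β + 2)))
  refine ⟨(2 * A + 1 : ℝ) ^ d * (z1 : ℝ) ^ c0 + max K 0 * (2 ^ c0 / (1 - β ^ (-c0))), N0 + N1, fun Y hY b hb z hz hz2 => ?_⟩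
  obtain ⟨n1, n2⟩ := hN1 Y (by omega)
  have hX1 : (1 : ℝ) ≤ argCount G Y := by exact_mod_cast n1
  have hdeg : ∀ x : ℕ × (Fin d → ℤ), ∑ i, ((Fin.cons F₀ (famT P c b x.2) : Fin (g + 1) → ℤ[X]) i).natDegree + G.natDegree ≤
      1 + ∑ i, (P i).natDegree + G.natDegree := by
    intro x
    rw [Fin.sum_univ_succ]
    simp only [Fin.cons_zero, Fin.cons_succ]
    rw [w21_deg, hF]
  have key := w21_core ((Icc 1 Y ×ˢ BoxT A (argCount G Y) e).filter fun x : ℕ × (Fin d → ℤ) => κ * Y ≤ x.1 ∧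
      ∀ i, 0 ≤ b i + lf c x.2 i) (argCount G Y) A
    (Y * (argCount G Y : ℝ) ^ (∑ j, (e j : ℝ))) ((2 * A + 1 : ℝ) ^ d) c0 K δ1 β z1 (by positivity) (by positivity) hc0 hδ1 hβ hβ2 n1
    (w21_pairs A (argCount G Y) Y n1 e _) n2
    (fun z x => FailsP ε' (Fin.cons F₀ (famT P c b x.2) : Fin (g + 1) → ℤ[X]) G x.1 z)
    (fun z x => FailsP ε (Fin.cons F₀ (famT P c b x.2) : Fin (g + 1) → ℤ[X]) G x.1 z)
    (fun y hy1 hy2 => by
      refine le_trans ?_ (h2 Y (by omega) b (w21_bmono P A (A + 2) _ (by omega) b hb) y hy1 hy2)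
      rw [filter_filter]
      refine Nat.cast_le.2 (card_le_card fun x hx => ?_)
      rw [mem_filter, mem_product] at hx ⊢
      exact ⟨⟨hx.1.1, w21_mono A (A + 2) _ (by omega) e hx.1.2⟩, hx.2.1.1, hx.2.1.2, hx.2.2⟩)
    (fun y w hy hyw hw x hx => by
      obtain ⟨k1, k2⟩ := hpar y w hy hyw hw
      exact w21_fail _ G x.1 hG _ (hdeg x) ε ε' hε he0 he1 he2 y w hyw k1 k2 hx) z hz
  rw [filter_filter] at key
  refine le_trans (Nat.cast_le.2 (card_le_card fun x hx => ?_)) key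
  rw [mem_filter] at hx ⊢
  exact ⟨hx.1, ⟨hx.2.1, hx.2.2.1⟩, hx.2.2.2⟩

end Pool.Agent.HLA
end
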